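import Pool.Agent.Lib.MP_ba95e8_co.ChkTab
import Pool.Agent.Lib.MP_ba95e8_co.ChkStates

/-!
Deltahedral domes: part 1 of the case analysis.
-/

namespace Pool.Agent.Lib.MP_ba95e8_co
namespace Chk

/-- certificate number 1 -/
def c1 : Cert := (.far [1,1] 4096 (.asm [] 0 (.node [64,52] 3 4 (.conf [49,64] (.node [53,64] 3 5 (.far [4112,4112,4096,257] 4096 (.node [54,84] 3 6 (.far [4112,4112,4112,4096,257] 4096 (.node [101,118,49] 6 5 (.node [84,96,118] 6 0 .stop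
 (.lc 1 3 (.node [84,104,118] 7 6 (.far [1,4112,4096,16,4112,4096,257] 4096 (.lc 1 5 (.lc 1 5 (.lc 1 5 (.far [1,4112,4096,16,4112,4096,257] 4096 (.lc 2 5 .stop))))))
 (.lc 2 4 (.lc 2 4 (.conf [99,133,84] (.lc 2 3 (.conf [105,152] (.lc 2 4 (.lc 2 4 (.lc 2 4 (.lc 2 4 (.conf [99,112] (.lc 2 3 (.conf [99,120] (.lc 3 4 (.lc 3 3 (.conf [99,121] (.lc 3 4 (.lc 3 4 (.lc 3 4 (.lc 3 4 (.lc 3 4 (.lc 4 4 .stop))))))))))))))))))))))))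
 (.far [4112,4112,4112,4096,257] 4096 (.node [101,118,49] 7 6 (.node [101,112] 0 6 .stop
 (.node [101,120] 6 5 (.node [84] 5 4 (.node [64,81] 1 4 (.far [8224,32,257,16,257,258,512,0,4112] 257 .stop)
 (.lc 2 3 (.node [64,89] 9 4 (.far [16,16,0,0,0,0,16,4097,1] 4096 (.lc 3 1 (.lc 3 8 (.lc 3 10 (.far [16,16,0,0,0,0,16,4097] 256 (.far [16,16,0,0,0,0,16,4097,1] 4096 (.lc 3 1 (.lc 3 10 (.lc 4 10 (.lc 4 11 .stop))))))))))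
 (.conf [1,64] (.lc 3 3 (.conf [64,89,144] (.lc 3 3 (.lc 3 3 (.conf [64,148] (.far [32,257,16,257,258,512,0,4112] 257 (.lc 3 3 (.node [64,89] 5 9 (.far [257,257,16,0,0,16,4096] 0 (.lc 2 0 (.lc 2 0 (.node [138,169] 7 8 (.far [16,257,257,16,4112,257,256,0,1,4096] 0 (.lc 3 1 (.lc 1 9 (.lc 3 1 (.lc 4 1 .stop)))))
 (.lc 2 0 (.lc 3 0 .stop))))))
 (.lc 3 3 (.lc 3 3 (.lc 3 3 (.lc 4 3 (.conf [23,145] (.lc 4 3 (.conf [64,90,169] (.lc 4 3 (.lc 4 3 (.lc 4 3 (.lc 4 3 (.lc 4 3 (.lc 4 3 (.lc 4 3 (.lc 5 3 (.lc 5 3 .stop))))))))))))))))))))))))))))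
 (.lc 2 4 (.lc 2 4 (.lc 0 9 (.lc 2 4 (.lc 3 4 .stop))))))
 (.conf [99,120] (.conf [101,112] (.conf [101,121] (.conf [101,134] (.lc 1 4 (.lc 1 4 (.node [99,112,84] 7 0 (.node [] 0 5 .stop
 .stop)
 (.lc 1 3 (.node [99,120,84] 7 8 (.node [24] 8 5 (.node [84,128] 0 5 .stop
 (.lc 2 1 (.lc 1 3 (.node [84,137] 5 4 (.far [4112,1,0,257,0,1,256] 0 (.conf [64,83,144] (.conf [64,164] (.far [257,16,257,16,256,0,0,1,4096] 0 (.conf [64,83,154] .stop)))))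
 (.lc 2 3 (.lc 2 3 (.lc 3 0 (.lc 3 10 (.lc 3 1 (.lc 2 3 (.node [84,149,169,84,64] 5 4 (.node [64,148,169] 9 4 (.far [16,256,16,257,16,256,0,0,1,4096] 0 (.lc 3 4 (.conf [155,176] (.lc 3 4 (.lc 4 4 .stop)))))
 (.lc 2 0 (.lc 0 11 (.lc 2 0 (.lc 3 0 .stop)))))
 (.lc 2 3 (.lc 2 3 (.lc 3 9 (.lc 2 3 (.lc 3 10 (.lc 3 3 (.lc 3 3 (.lc 3 3 (.lc 4 11 (.lc 3 3 (.lc 3 3 (.lc 3 3 (.lc 4 3 .stop))))))))))))))))))))))))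
 (.lc 2 5 (.lc 2 5 (.far [4112,4096,1,256] 4097 (.conf [133,152] (.lc 2 5 (.lc 2 5 (.lc 3 5 (.lc 3 5 .stop)))))))))
 (.conf [101,120] (.conf [101,112] (.conf [101,121] (.lc 2 4 (.conf [101,122] (.lc 2 3 (.conf [99,133,84] (.lc 2 4 (.lc 2 4 (.lc 2 4 (.lc 2 4 (.lc 3 4 .stop)))))))))))))))))))))))
 (.node [101,118,135,49] 7 6 (.node [101,112,135] 0 6 .stop
 (.node [101,121,135] 6 5 (.node [84] 8 7 (.node [121,128] 0 7 .stop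
 (.node [121,138] 7 9 (.far [257,16,257,256,16,4096] 0 (.lc 2 5 (.lc 2 5 (.lc 0 11 (.lc 2 5 (.lc 3 5 .stop))))))
 (.lc 2 6 (.lc 3 0 (.lc 3 11 (.conf [121,167] (.lc 2 6 (.lc 2 6 (.lc 2 6 (.lc 2 6 (.lc 2 6 (.lc 3 10 (.lc 3 0 (.lc 3 11 (.lc 3 6 (.lc 4 12 (.lc 3 6 (.lc 3 6 (.lc 3 6 (.lc 3 6 (.lc 3 6 (.lc 3 6 (.lc 4 6 .stop)))))))))))))))))))))))
 (.lc 2 4 (.lc 2 4 (.lc 0 10 (.lc 2 4 (.lc 3 4 .stop))))))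
 (.conf [99,121] (.conf [101,112] (.conf [101,122] (.conf [101,150] (.lc 1 4 (.lc 1 4 (.node [99,112,135,84] 7 0 .stop
 (.lc 1 3 (.node [99,121,135,84] 8 7 (.conf [137,149] (.lc 3 0 (.lc 3 10 (.lc 1 5 (.lc 3 10 (.lc 4 11 .stop))))))
 (.conf [101,121] (.conf [101,112] (.conf [101,122] (.lc 2 4 (.conf [101,123] (.lc 2 3 (.conf [99,149,84] (.lc 2 4 (.lc 2 4 (.lc 2 4 (.lc 2 4 (.lc 3 4 .stop)))))))))))))))))))))))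
 .stop)))))
 (.node [84,101,64,49] 5 4 (.lc 1 0 (.lc 3 7 (.lc 2 0 (.lc 2 0 (.lc 3 7 (.node [96] 1 6 (.far [16,1,16,4096] 0 (.node [23,96,118] 1 7 (.node [] 6 0 (.lc 0 0 .stop)
 (.lc 2 6 .stop))
 (.lc 2 0 (.node [24,96,118,135,118] 1 8 (.far [4112,4112,0,16,4112,4096] 256 (.lc 2 7 .stop))
 (.lc 2 0 (.lc 3 0 .stop))))))
 (.lc 2 0 (.lc 4 8 (.lc 3 0 (.lc 0 7 (.lc 0 7 (.far [256,256,0,1,4096] 0 (.lc 0 8 .stop)))))))))))))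
 (.conf [55,84] (.lc 3 1 (.far [4112,4112,4096,257] 4096 (.node [84,101,118,55] 3 7 (.far [4112,4112,4112,4096,257] 4096 (.lc 2 6 (.far [4112,4112,4112,4096,257] 4096 (.lc 2 6 (.lc 3 6 .stop)))))
 (.node [84,101,64,49] 5 4 (.lc 1 0 (.lc 3 7 (.lc 2 0 (.lc 2 0 (.lc 3 7 (.lc 0 0 (.lc 2 0 (.lc 4 8 (.lc 3 0 (.node [103,112] 6 7 (.lc 0 7 (.lc 0 8 (.lc 0 8 (.lc 0 8 (.lc 0 9 .stop)))))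
 (.node [103,112] 6 7 (.lc 0 7 (.lc 0 8 (.lc 0 8 (.lc 0 8 (.lc 0 9 .stop)))))
 (.lc 0 7 (.node [104,135,112] 6 8 (.lc 0 8 (.lc 0 9 (.lc 0 9 (.lc 0 9 (.lc 0 10 .stop)))))
 .stop)))))))))))))
 (.conf [55,84] (.lc 3 1 (.lc 3 1 (.node [84,101,118,64,49] 5 4 (.lc 1 0 (.lc 3 8 (.lc 2 0 (.lc 2 0 (.lc 3 8 (.lc 0 0 (.lc 2 0 (.lc 4 9 (.lc 3 0 (.node [104,128] 7 6 (.node [120] 7 8 (.lc 2 9 (.lc 1 1 (.lc 0 9 (.lc 3 10 (.far [256,0,1,16,4096] 0 .stop)))))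
 (.lc 3 9 (.lc 1 0 (.lc 3 9 (.lc 4 10 .stop)))))
 (.node [104,128] 7 6 (.far [16,257,16,4096] 0 (.lc 3 9 (.far [16,257,16,4096] 0 (.lc 3 9 (.lc 4 10 .stop)))))
 (.lc 0 8 (.node [105,152,128] 7 6 (.far [16,256,256,0,1,4096] 0 (.lc 3 10 (.lc 1 8 (.lc 3 10 (.lc 4 11 .stop)))))
 .stop)))))))))))))
 (.conf [56,84] (.lc 4 1 (.lc 4 1 (.lc 4 1 (.lc 4 1 (.lc 5 1 .stop))))))))))))))))))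
 (.node [49,64,84] 5 4 (.node [80] 1 5 (.lc 1 0 (.lc 2 6 (.lc 3 7 (.lc 3 7 (.lc 3 7 (.lc 4 8 .stop))))))
 (.node [86,96] 1 5 (.lc 2 7 (.lc 3 7 (.lc 3 8 (.lc 3 7 (.lc 4 8 .stop)))))
 (.far [16,256,1,4096] 0 (.far [1,4096,16,256] 0 (.node [87,118,96] 5 7 (.lc 2 8 (.lc 3 9 (.lc 0 8 (.lc 3 9 (.lc 3 9 (.lc 0 8 (.lc 4 10 (.lc 0 9 .stop))))))))
 .stop)))))
 (.conf [54,64,84,101] (.conf [54,64,84] (.conf [49,64] (.node [54,101,54,64] 3 6 (.far [4112,4112,4096,257] 4096 (.lc 2 7 (.lc 2 5 (.lc 3 8 (.lc 3 1 (.far [4112,4112,4096,257] 4096 (.lc 3 8 (.lc 2 5 (.lc 3 8 (.lc 3 1 (.lc 3 1 (.lc 3 5 (.lc 4 9 (.lc 4 1 (.lc 4 1 (.lc 4 1 (.lc 4 1 (.lc 5 1 .stop))))))))))))))))))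
 (.node [49,64,84] 5 4 (.far [16,257,257,4096] 17 (.lc 3 6 (.far [16,257,257,4096] 0 (.lc 3 6 (.lc 4 7 .stop)))))
 (.node [64,84,54] 5 4 (.node [80] 3 6 (.far [257,16,257,257,4096] 17 (.lc 2 7 (.lc 2 5 (.lc 3 8 (.lc 3 1 (.node [101,118] 6 5 (.lc 1 0 (.lc 1 0 (.lc 1 1 (.lc 1 1 (.lc 2 0 (.lc 2 0 (.lc 2 0 (.lc 1 1 (.lc 2 0 (.lc 3 0 (.lc 2 1 .stop)))))))))))
 (.lc 3 8 (.lc 2 5 (.lc 3 8 (.lc 3 1 (.lc 3 1 (.lc 3 5 (.lc 4 9 (.lc 4 1 (.lc 4 1 (.lc 4 1 (.lc 4 1 (.lc 5 1 .stop))))))))))))))))))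
 (.lc 3 1 (.lc 3 7 (.node [81] 5 1 (.lc 2 7 (.conf [19,113] (.lc 3 8 (.lc 0 7 (.lc 0 8 .stop)))))
 (.node [87,112] 5 7 (.lc 2 1 (.lc 2 8 (.lc 3 8 (.lc 3 1 (.lc 3 9 (.node [97,112] 1 7 .stop
 (.conf [104,135] (.lc 3 8 (.lc 3 1 (.lc 3 9 (.lc 3 8 (.lc 3 1 (.lc 3 9 (.lc 2 0 (.lc 2 0 (.lc 0 1 (.lc 0 8 (.lc 4 9 (.lc 4 9 (.lc 4 1 (.lc 4 10 (.lc 0 8 (.lc 0 1 (.lc 0 9 (.lc 0 8 (.lc 0 1 (.lc 0 9 (.lc 0 8 (.lc 0 1 (.lc 0 9 (.lc 3 0 (.lc 3 0 (.lc 3 0 (.lc 0 9 (.lc 0 9 (.lc 0 1 (.lc 0 10 .stop)))))))))))))))))))))))))))))))))))))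
 (.lc 3 1 (.lc 3 7 (.lc 4 7 (.lc 4 8 .stop)))))))))
 (.conf [54,64] (.node [54,64,101] 3 6 (.node [101] 6 5 (.node [84,96] 6 0 (.far [4112,4112,4096,4112,4096,257] 4096 .stop)
 (.node [84,103] 6 7 (.far [4112,4112,4096,4112,4096,257] 4096 (.lc 2 5 (.lc 2 5 (.far [16,4112,0,4112,4096] 256 (.far [4112,4112,4096,4112,4096,257] 4096 (.lc 2 5 (.lc 2 5 (.lc 3 5 (.lc 3 5 .stop)))))))))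
 (.conf [103,112] (.conf [104,135] (.lc 3 1 (.lc 3 1 (.conf [84,117] (.node [84,96,117] 6 0 (.lc 1 7 .stop)
 (.node [84,104,117] 6 8 (.node [] 5 4 (.node [64,89] 7 5 (.far [16,257,257,257,16,258] 0 (.lc 3 0 (.lc 3 10 (.lc 1 4 (.lc 3 10 (.lc 4 11 .stop))))))
 (.lc 2 0 (.lc 3 4 (.conf [64,148] (.lc 2 0 (.lc 2 0 (.lc 2 0 (.lc 3 4 (.lc 3 0 (.lc 4 4 (.lc 3 0 (.lc 3 0 (.lc 3 0 (.lc 3 0 (.lc 4 0 .stop)))))))))))))))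
 (.lc 2 7 (.lc 2 7 (.node [8] 5 4 (.node [64,89] 7 5 (.node [121] 4 0 (.lc 1 7 .stop)
 (.lc 3 10 (.lc 1 4 (.lc 3 10 (.lc 4 11 .stop)))))
 (.lc 3 4 (.conf [64,148] (.lc 3 4 (.lc 4 4 .stop)))))
 (.node [25,152] 1 9 (.node [152] 5 4 (.node [64,90] 7 5 (.node [122] 10 4 (.far [1,0,1,0,0,0,4112,1,272,256] 17 (.lc 3 9 (.lc 3 11 (.lc 0 7 .stop))))
 (.lc 3 11 (.lc 1 4 (.lc 3 11 (.lc 4 12 .stop)))))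
 (.lc 2 0 (.lc 3 4 (.conf [64,164] (.lc 2 0 (.lc 2 0 (.lc 3 4 (.lc 4 4 (.lc 3 0 (.lc 3 0 .stop))))))))))
 (.lc 2 8 (.lc 2 8 (.lc 2 8 (.conf [10,169] (.lc 2 8 (.lc 3 8 .stop)))))))
 (.lc 2 7 (.lc 2 7 (.lc 3 7 (.lc 3 7 .stop)))))))))
 (.lc 3 1 (.lc 3 1 (.lc 3 1 (.lc 3 1 (.conf [105,152] (.lc 4 1 (.lc 4 1 (.lc 4 1 (.lc 4 1 (.lc 4 1 (.lc 4 1 (.lc 4 1 (.lc 4 1 (.lc 5 1 (.lc 5 1 .stop))))))))))))))))))))))))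
 (.lc 2 5 (.conf [101,118] (.lc 2 5 (.lc 3 5 .stop)))))
 (.node [49,64,84,101] 5 4 (.far [16,256,1,4096] 0 (.lc 3 7 (.far [16,256,1,4096] 0 (.lc 3 7 (.lc 4 8 .stop)))))
 (.conf [55,64,84,101,118] (.conf [55,64,84] (.conf [55,64] (.conf [55,64] (.conf [55,64] (.conf [56,64] .stop))))))))))))))))))
 (.asm [84,53,66] 1 (.node [52,64] 3 4 (.node [53,64] 3 5 (.far [4112,4112,4096,257] 4096 (.lc 2 4 (.far [4112,4112,4096,257] 4096 (.lc 2 4 (.lc 3 4 .stop)))))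
 (.conf [54,101] (.node [49,64,84,64] 5 4 (.lc 2 0 (.lc 1 0 (.lc 2 0 (.lc 2 0 (.lc 2 0 (.lc 2 0 (.lc 2 0 (.conf [1,96] (.lc 2 0 (.lc 3 0 (.lc 3 0 (.lc 3 0 (.lc 3 0 (.lc 3 0 (.lc 4 0 .stop)))))))))))))))
 (.conf [54,64,84] (.node [54,64,84] 3 6 (.node [] 5 4 (.node [64,81] 1 4 (.far [4112,16,257,257,256,4112] 1 .stop)
 (.node [64,87] 4 0 (.far [257,16,257,257,513,4096] 17 (.lc 0 1 (.lc 0 1 (.lc 0 8 (.far [257,16,257,257,513,4096] 4114 (.lc 0 8 .stop))))))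
 (.lc 2 0 (.lc 2 0 (.lc 3 1 (.lc 3 8 (.conf [64,116] (.lc 2 0 (.lc 2 0 (.lc 2 0 (.lc 3 7 (.lc 3 8 (.lc 3 0 (.lc 4 9 (.lc 3 0 (.lc 3 0 (.lc 3 0 (.lc 3 0 (.lc 4 0 .stop)))))))))))))))))))
 (.lc 2 5 (.node [118] 5 4 (.node [64,87,118] 7 4 (.far [4112,16,257,257,256,4112] 1 .stop)
 (.node [64,88] 4 0 (.node [128] 6 5 (.lc 2 3 (.node [88,105] 5 8 (.far [257,16,257,256,0,16,1,1] 4096 (.lc 2 0 (.lc 2 0 (.lc 0 10 (.lc 2 0 (.lc 3 0 .stop))))))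
 (.lc 2 4 (.lc 2 4 (.lc 3 10 (.lc 3 3 (.conf [88,149] (.lc 2 4 (.lc 2 4 (.lc 2 4 (.lc 3 10 (.lc 3 4 (.lc 3 4 (.lc 4 11 (.lc 3 4 (.lc 3 4 (.lc 3 4 (.lc 4 4 .stop))))))))))))))))))
 (.lc 0 1 (.lc 0 9 (.lc 0 7 .stop))))
 (.lc 2 0 (.lc 3 7 (.lc 3 9 (.conf [64,132] (.lc 2 0 (.lc 2 0 (.lc 2 0 (.lc 2 0 (.lc 3 7 (.lc 3 8 (.lc 3 9 (.lc 3 0 (.lc 4 10 (.lc 3 0 (.lc 3 0 (.lc 3 0 (.lc 3 0 (.lc 3 0 (.lc 4 0 .stop)))))))))))))))))))))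
 (.lc 2 5 (.lc 3 5 .stop)))))
 (.conf [49,64] (.node [49,64] 5 4 (.far [1,1,16,256] 17 (.node [64,100] 4 0 (.far [4112,1,1,16,256] 17 (.lc 2 7 (.lc 3 0 (.far [4112,1,1,16,256] 0 (.lc 3 8 (.lc 3 0 (.lc 4 0 .stop)))))))
 (.lc 2 0 (.lc 3 7 (.node [64,100,118] 6 4 (.node [96,118] 7 6 (.node [96,120] 6 0 .stop
 (.lc 3 9 (.conf [96,134] (.lc 2 0 (.lc 3 9 (.lc 4 10 .stop))))))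
 (.lc 1 0 (.lc 2 0 (.lc 2 0 (.lc 2 0 (.lc 2 0 (.node [104,128,118,87] 7 6 (.far [1,1,1,1,16,256] 17 (.lc 3 9 (.lc 1 0 (.lc 3 9 (.lc 4 10 .stop)))))
 (.lc 2 0 (.lc 3 0 (.lc 3 0 .stop))))))))))
 (.lc 2 0 (.lc 2 0 (.lc 3 6 (.lc 3 7 (.lc 3 0 (.lc 4 8 (.lc 3 0 (.lc 3 0 (.lc 3 0 (.lc 4 0 .stop)))))))))))))))
 (.conf [55,118] (.node [49,64,84,101,64] 5 4 (.lc 2 0 (.lc 1 0 (.lc 2 0 (.lc 2 0 (.lc 2 0 (.lc 2 0 (.lc 2 0 (.conf [1,112] (.lc 2 0 (.lc 3 0 (.lc 3 0 (.lc 3 0 (.lc 3 0 (.lc 3 0 (.lc 4 0 .stop)))))))))))))))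
 (.conf [49,64] (.conf [49,64] (.conf [49,64] (.conf [49,64] .stop)))))))))))))
 (.node [53,66,84,53,66] 3 5 (.lc 2 0 (.lc 2 6 (.lc 3 6 (.lc 3 0 (.lc 3 7 (.lc 0 0 (.node [84,101] 6 5 (.lc 1 4 (.lc 0 2 (.lc 1 4 (.lc 2 4 (.lc 2 4 (.lc 2 4 (.lc 2 4 (.node [66,96] 0 4 (.far [257,257,4096,0,257] 4096 .stop)
 (.node [66,103] 6 7 (.lc 0 7 (.lc 0 0 (.lc 0 8 (.lc 0 0 (.lc 0 8 (.node [116] 7 4 (.lc 0 0 (.lc 1 0 (.lc 1 0 (.lc 0 1 .stop))))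
 (.lc 0 8 (.lc 0 0 (.lc 0 9 .stop)))))))))
 (.lc 2 4 (.lc 2 4 (.lc 2 4 (.lc 3 0 (.lc 3 7 (.lc 2 4 (.lc 2 4 (.lc 2 4 (.lc 2 4 (.lc 2 4 (.lc 2 4 (.lc 2 4 (.lc 2 4 (.lc 2 4 (.lc 1 2 (.lc 1 2 (.lc 2 4 (.lc 2 4 (.lc 3 4 (.lc 3 4 (.lc 3 4 (.lc 3 4 (.lc 3 4 (.node [66,103,112] 0 4 (.node [] 6 7 (.lc 0 7 (.lc 0 8 (.lc 0 8 (.lc 0 8 (.lc 0 9 .stop)))))
 .stop)
 (.node [66,96,116] 6 0 (.node [] 7 4 (.lc 0 0 (.lc 1 0 (.lc 1 0 (.lc 1 0 (.lc 2 0 .stop)))))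
 .stop)
 (.node [66,104,116] 6 8 (.lc 0 8 (.lc 0 0 (.lc 0 9 (.lc 0 0 (.lc 0 9 (.lc 2 7 (.lc 0 9 (.lc 0 0 (.lc 0 10 .stop)))))))))
 (.lc 3 4 (.lc 3 4 (.lc 3 4 (.lc 3 4 (.lc 3 4 (.lc 3 4 (.lc 3 4 (.lc 3 4 (.lc 3 4 (.lc 3 4 (.lc 3 4 (.lc 3 4 (.lc 3 4 (.lc 3 4 (.lc 3 4 (.lc 4 4 (.lc 4 4 (.lc 4 4 (.lc 4 4 (.lc 4 4 .stop)))))))))))))))))))))))))))))))))))))))))))))))))))))))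
 (.lc 3 6 (.lc 3 0 (.lc 3 7 (.lc 3 6 (.lc 3 0 (.lc 3 7 (.lc 0 0 (.lc 2 4 (.lc 0 0 (.node [84,101] 5 4 (.lc 1 2 (.lc 1 2 (.lc 1 2 (.lc 0 0 (.lc 3 7 (.lc 3 0 (.lc 0 7 (.lc 3 8 (.lc 2 2 (.lc 2 2 (.lc 2 2 (.lc 2 2 (.lc 2 2 (.lc 2 2 (.lc 2 2 (.lc 2 2 (.node [66,96] 0 4 (.node [] 1 6 (.far [16,257,4096,4096,0,257] 4096 (.node [23,96,118] 1 7 .stop
 (.lc 2 0 (.node [24,96,118,135,118] 1 8 .stop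
 (.lc 2 0 (.lc 3 0 .stop))))))
 .stop)
 (.lc 3 7 (.lc 3 0 (.node [66,116,103] 7 4 (.lc 0 0 (.lc 1 0 (.lc 1 0 (.lc 1 0 (.lc 1 0 (.lc 3 0 (.lc 1 0 (.lc 2 0 (.lc 2 0 .stop)))))))))
 (.lc 3 8 (.lc 3 7 (.lc 3 0 (.lc 3 8 (.lc 2 2 (.lc 2 2 (.lc 2 2 (.lc 0 7 (.lc 4 8 (.lc 0 0 (.lc 4 8 (.lc 4 0 (.lc 0 8 (.lc 4 9 (.lc 3 2 (.lc 3 2 (.lc 3 2 (.lc 3 2 (.lc 4 8 (.lc 4 8 (.lc 4 0 (.lc 4 9 (.lc 4 8 (.lc 4 8 (.lc 4 0 (.lc 4 9 (.lc 4 8 (.lc 4 8 (.lc 4 0 (.lc 4 9 (.lc 5 9 (.lc 5 9 (.lc 5 9 (.lc 5 0 (.lc 5 10 .stop)))))))))))))))))))))))))))))))))))))))))))))))))))))))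
 (.lc 4 7 (.lc 4 7 (.lc 4 0 (.lc 4 8 (.lc 0 0 (.node [84,101,118] 6 5 (.lc 1 4 (.lc 0 2 (.lc 1 4 (.lc 2 4 (.lc 2 4 (.lc 2 4 (.lc 2 4 (.node [66,96] 0 4 (.far [257,257,4096,0,257] 4096 .stop)
 (.node [66,104] 7 6 (.node [120] 8 4 (.lc 0 0 (.lc 1 0 (.lc 1 0 (.lc 1 0 (.lc 1 0 (.lc 3 0 (.lc 1 0 (.lc 2 0 (.lc 2 0 .stop)))))))))
 (.lc 3 0 (.lc 0 0 (.lc 3 9 (.node [112,132] 7 0 .stop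
 (.node [121,132] 8 4 (.lc 0 0 (.lc 1 0 (.lc 1 0 (.lc 1 0 (.lc 1 0 (.lc 2 0 (.lc 2 0 .stop)))))))
 (.lc 3 0 (.lc 3 9 (.lc 4 9 (.lc 1 8 (.lc 4 0 (.lc 4 10 .stop))))))))))))
 (.lc 2 4 (.lc 2 4 (.lc 2 4 (.lc 3 0 (.lc 3 8 (.lc 2 4 (.lc 2 4 (.lc 2 4 (.lc 2 4 (.lc 2 4 (.lc 2 4 (.lc 2 4 (.lc 2 4 (.lc 2 4 (.lc 1 2 (.lc 1 2 (.lc 2 4 (.lc 2 4 (.lc 3 4 (.lc 3 4 (.lc 3 4 (.lc 3 4 (.lc 3 4 (.node [66,104,128] 0 4 (.node [] 7 6 (.node [120] 7 8 (.lc 2 9 (.lc 0 9 (.lc 3 10 (.far [256,0,257,257,4096,0,257] 4096 .stop))))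
 (.lc 3 9 (.lc 1 0 (.lc 3 9 (.lc 4 10 .stop)))))
 .stop)
 (.node [66,96,132] 6 0 .stop
 (.node [66,105,132] 7 6 (.node [121] 8 4 (.lc 0 0 (.lc 1 0 (.lc 1 0 (.lc 1 0 (.lc 1 0 (.lc 3 0 (.lc 1 0 (.lc 2 0 (.lc 2 0 .stop)))))))))
 (.lc 3 0 (.lc 0 0 (.lc 3 10 (.lc 1 8 (.lc 1 8 (.lc 3 0 (.lc 3 10 (.lc 4 10 (.lc 1 9 (.lc 4 0 (.lc 4 11 .stop))))))))))))
 (.lc 3 4 (.lc 3 4 (.lc 3 4 (.lc 3 4 (.lc 3 4 (.lc 3 4 (.lc 3 4 (.lc 3 4 (.lc 3 4 (.lc 3 4 (.lc 3 4 (.lc 3 4 (.lc 3 4 (.lc 3 4 (.lc 3 4 (.lc 4 4 (.lc 4 4 (.lc 4 4 (.lc 4 4 (.lc 4 4 .stop)))))))))))))))))))))))))))))))))))))))))))))))))))))))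
 (.lc 0 0 (.lc 3 4 (.lc 0 0 (.lc 3 4 (.lc 0 0 (.lc 3 4 (.lc 0 0 (.lc 4 4 .stop)))))))))))))))))))))))))))))))
 (.node [64,52] 3 4 (.conf [49,64] (.node [53,64] 4 0 (.far [16,0,16,16] 1 (.node [1,70,53] 5 4 (.node [86] 3 5 (.far [4112,0,0,4112,4096,257] 4096 (.lc 1 3 (.node [55,86] 3 7 (.far [4112,4112,0,0,4112,4096,257] 4096 (.node [103,117,49,103] 6 7 .stop
 (.node [117,135,49] 7 5 (.lc 1 3 (.node [86,121,135] 8 7 (.far [1,4112,4096,16,0,0,4112,4096,257] 4096 (.lc 1 5 (.lc 1 5 (.lc 1 5 (.far [1,4112,4096,16,0,0,4112,4112,256] 0 (.lc 2 5 .stop))))))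
 (.lc 2 3 (.lc 2 3 (.conf [115,149,86] (.lc 2 3 (.conf [122,169] (.lc 2 3 (.lc 2 3 (.lc 2 3 (.conf [115,137] (.lc 3 3 (.lc 3 3 (.conf [115,138] (.lc 3 3 (.lc 3 3 (.lc 3 3 (.lc 4 3 .stop))))))))))))))))))
 (.far [4112,4112,0,0,4112,4112,256] 0 (.node [117,135,49] 7 5 (.lc 1 3 (.node [86,121,135] 8 7 (.node [137] 5 6 (.node [96] 8 9 (.lc 1 5 (.node [138,150] 9 6 (.node [96] 8 10 (.node [26] 6 0 (.lc 0 1 .stop)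
 (.lc 2 6 (.far [4112,4112,4096,256,0,16,1,256] 0 (.lc 2 6 (.lc 3 6 .stop)))))
 (.far [4112,1,256,256,256] 0 .stop))
 (.lc 2 5 (.lc 3 1 (.conf [139,186] (.lc 3 1 (.lc 3 1 (.lc 3 1 (.lc 4 1 (.lc 4 1 (.lc 2 0 .stop)))))))))))
 (.conf [96,145,83] (.conf [96,154,166] (.far [4112,0,1,0,1,4112,0,256] 0 (.far [257,0,16,0,16,257,0,4096] 0 (.conf [96,155,83] .stop))))))
 (.lc 3 6 (.lc 3 10 (.lc 1 5 (.lc 3 10 (.lc 4 11 .stop))))))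
 (.lc 2 3 (.lc 2 3 (.conf [115,137] (.lc 2 3 (.conf [122,169] (.lc 2 3 (.lc 2 3 (.lc 2 3 (.node [115,137,86] 9 5 (.far [1,1,0,1,4112,0,256] 0 (.lc 3 1 (.lc 3 10 (.node [96,166] 8 9 (.node [25] 10 6 .stop
 (.lc 2 10 (.lc 2 5 (.conf [154,185] (.lc 2 10 (.lc 3 10 .stop))))))
 (.lc 3 10 (.lc 4 11 .stop))))))
 (.lc 3 3 (.lc 3 3 (.conf [115,149,86] (.lc 3 3 (.lc 3 3 (.lc 3 3 (.lc 4 3 .stop))))))))))))))))))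
 (.node [117,135,152,49] 7 5 (.lc 1 3 (.node [86,122,135,152] 8 7 (.far [1,4112,4112,4128,1,4112,8208,4112,256] 0 (.lc 3 6 (.lc 3 11 (.lc 1 5 (.lc 3 11 (.lc 4 12 .stop))))))
 (.lc 2 3 (.lc 2 3 (.conf [115,138] (.lc 2 3 (.conf [123,186] (.lc 2 3 (.lc 2 3 (.lc 2 3 (.node [115,138,152,86] 9 8 (.conf [154,165] (.lc 3 6 (.lc 3 11 (.lc 1 5 (.lc 3 11 (.lc 4 12 .stop))))))
 (.lc 3 3 (.lc 3 3 (.conf [115,165,86] (.lc 3 3 (.lc 3 3 (.lc 3 3 (.lc 4 3 .stop))))))))))))))))))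
 .stop))))))
 (.lc 2 6 (.lc 2 6 (.lc 3 1 (.lc 3 1 (.lc 2 3 (.lc 2 3 (.far [4112,0,0,4112,4112,256] 0 (.node [86,117,135,56] 3 8 (.far [4112,4112,0,0,4112,4096,257] 4096 (.lc 2 7 (.lc 2 7 (.far [4112,4112,0,0,4112,4112,256] 0 (.lc 2 7 (.lc 3 7 .stop))))))
 (.lc 2 6 (.lc 2 6 (.lc 3 1 (.lc 3 1 (.lc 3 1 (.lc 3 6 (.lc 3 6 (.lc 4 1 (.lc 4 1 (.lc 4 1 (.lc 4 1 (.lc 4 1 (.lc 5 1 .stop))))))))))))))))))))))))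
 (.lc 3 1 (.lc 3 7 (.lc 1 0 (.lc 1 0 (.lc 3 1 (.lc 3 7 (.lc 4 7 (.lc 4 1 (.lc 4 8 .stop))))))))))
 (.conf [70,97] (.node [64,81,53] 3 5 (.lc 1 1 (.node [54,81] 1 3 (.far [1,4112,0,4112,4096,257] 4096 (.node [101,118,23] 5 1 (.far [16,256,257,16,256,16,16] 1 (.lc 1 6 .stop))
 .stop))
 (.lc 2 1 (.node [55,81,101,118,55] 3 7 (.far [4112,4112,4096,4096,0,257] 16 (.lc 2 6 .stop))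
 (.lc 2 1 (.lc 3 1 .stop))))))
 (.conf [1,96] (.conf [70,97] (.conf [1,96] (.node [70,53] 4 6 (.far [257,257,16,4096] 256 (.lc 0 7 (.lc 0 7 (.lc 2 1 (.lc 0 8 .stop)))))
 (.conf [1,64] (.node [64,81,53] 3 5 (.lc 2 6 (.lc 3 7 .stop))
 (.node [1,64,86,53] 3 5 (.lc 1 6 (.lc 2 7 (.far [4096,4112,0,16,256] 17 (.lc 3 7 (.lc 3 1 (.lc 2 6 (.lc 3 8 (.lc 1 0 (.lc 3 7 (.lc 3 1 (.lc 3 1 (.lc 2 0 (.lc 4 8 (.lc 4 1 (.lc 4 1 (.lc 4 1 (.lc 4 1 (.lc 5 1 .stop))))))))))))))))))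
 (.conf [71,118] (.node [64,86,97,53] 3 5 (.lc 2 7 (.lc 3 7 (.lc 3 8 (.lc 3 7 (.lc 4 8 .stop)))))
 (.conf [1,96] (.conf [1,64] (.conf [1,64] (.conf [1,64] (.conf [1,64] .stop))))))))))))))))))
 (.node [49,64,84] 5 4 (.far [1,4096,16,256] 17 (.conf [1,96] .stop))
 (.conf [54,64,84,101] (.conf [54,64,84] (.conf [49,64] (.node [54,101,54,64] 3 6 (.far [4112,4112,4096,257] 4096 (.lc 2 7 (.lc 2 5 (.lc 3 8 (.lc 3 1 (.far [4112,4112,4112,256] 0 (.lc 3 8 (.lc 2 5 (.lc 3 8 (.lc 3 1 (.lc 3 1 (.lc 3 5 (.lc 4 9 (.lc 4 1 (.lc 4 1 (.lc 4 1 (.lc 4 1 (.lc 5 1 .stop))))))))))))))))))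
 (.node [49,64,84] 5 4 (.conf [1,80] (.lc 3 6 .stop))
 (.node [64,84,54] 5 4 (.conf [1,80] (.lc 3 1 (.node [81] 5 1 (.lc 2 7 (.conf [19,113] (.lc 3 8 (.lc 0 7 (.lc 0 8 .stop)))))
 (.lc 3 1 (.lc 3 7 (.lc 4 7 .stop))))))
 (.conf [54,64] (.node [54,64,101] 3 6 (.node [101] 6 5 (.node [84,103] 6 7 (.far [4112,4112,4096,4112,4112,256] 0 (.lc 2 5 (.lc 2 5 (.far [4112,4112,4096,4112,4112,256] 0 (.lc 2 5 (.lc 3 5 .stop))))))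
 (.conf [104,135] (.lc 3 1 (.conf [84,117] (.node [84,104,117] 6 8 (.node [] 5 4 (.node [64,89] 7 5 (.far [16,257,257,257,16,258] 0 (.lc 3 10 (.lc 1 4 (.lc 3 10 (.lc 4 11 .stop)))))
 (.lc 2 0 (.lc 3 4 (.conf [64,148] (.lc 2 0 (.lc 2 0 (.lc 3 4 (.lc 4 4 (.lc 3 0 (.lc 3 0 .stop))))))))))
 (.lc 2 7 (.lc 2 7 (.node [25,152] 1 9 (.node [9,152] 5 4 (.node [64,90] 7 5 (.node [122] 4 0 .stop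
 (.lc 3 11 (.lc 1 4 (.lc 3 11 (.lc 4 12 .stop)))))
 (.lc 3 4 (.conf [64,164] (.lc 3 4 (.lc 4 4 .stop)))))
 (.lc 2 8 (.lc 2 8 .stop)))
 (.lc 2 7 (.lc 3 7 .stop))))))
 (.lc 3 1 (.lc 3 1 (.lc 3 1 (.lc 3 1 (.conf [105,152] (.lc 4 1 (.lc 4 1 (.lc 4 1 (.lc 4 1 (.lc 4 1 (.lc 5 1 .stop))))))))))))))))
 (.lc 2 5 (.conf [101,118] (.lc 2 5 (.lc 3 5 .stop)))))
 (.node [49,64,84,101] 5 4 (.conf [1,80] (.lc 3 7 .stop))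
 (.conf [55,64,84,101,118] (.conf [55,64,84] (.conf [55,64] (.conf [55,64] (.conf [55,64] (.conf [56,64] .stop))))))))))))))))))
 (.asm [66,84,53] 2 (.asm [] 3 (.asm [66,84] 4 (.node [52,64] 3 4 (.node [53,64] 3 5 (.far [4112,4112,4096,257] 4096 (.lc 2 4 (.far [4112,4112,4096,257] 4096 (.lc 2 4 (.lc 3 4 .stop)))))
 (.conf [54,101] (.node [49,64,84,64] 5 4 (.lc 2 0 (.lc 1 0 (.lc 2 0 (.node [86,96] 5 6 (.lc 0 6 (.lc 0 7 (.lc 0 7 (.lc 0 7 (.lc 0 8 .stop)))))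
 (.lc 2 0 (.lc 3 6 (.lc 2 0 (.lc 2 0 (.lc 2 0 (.node [86,96] 5 6 (.lc 0 6 (.lc 0 7 (.lc 0 7 (.lc 0 7 (.lc 0 8 .stop)))))
 (.lc 2 0 (.lc 3 0 (.node [87,118,96] 5 7 (.lc 0 7 (.lc 0 8 (.lc 0 8 (.lc 0 8 (.lc 0 9 .stop)))))
 (.lc 3 0 (.lc 3 0 (.lc 3 0 (.lc 3 0 (.lc 4 0 .stop))))))))))))))))))
 (.conf [54,64,84] (.node [54,64,84] 3 6 (.node [] 5 4 (.node [64,81] 1 4 (.far [256,0,0,0,257,1] 33 .stop)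
 (.node [64,87] 7 4 (.far [16,16,257,272,1,4096] 0 (.lc 3 1 (.lc 3 8 (.far [16,16,257,257,513,4096] 4131 (.far [16,16,257,257,513,4096] 0 (.lc 3 1 (.lc 3 8 (.lc 4 8 (.lc 4 9 .stop)))))))))
 (.lc 2 0 (.lc 2 0 (.lc 3 1 (.lc 3 8 (.conf [64,116] (.lc 2 0 (.lc 2 0 (.lc 2 0 (.lc 2 0 (.lc 3 7 (.lc 3 8 (.lc 3 0 (.lc 3 0 (.lc 4 9 (.lc 3 0 (.lc 3 0 (.lc 3 0 (.lc 3 0 (.lc 3 0 (.lc 3 0 (.lc 4 0 (.lc 4 0 .stop))))))))))))))))))))))))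
 (.lc 2 5 (.node [118] 5 4 (.node [64,87,118] 7 4 (.far [4112,16,257,257,256,4112] 1 .stop)
 (.node [64,88] 8 4 (.node [128] 6 5 (.lc 2 3 (.node [88,105] 5 8 (.far [257,16,16,256,0,16,1] 0 (.lc 2 0 (.lc 2 0 (.lc 0 10 (.lc 2 0 (.lc 3 0 .stop))))))
 (.lc 2 4 (.lc 2 4 (.lc 3 10 (.lc 3 3 (.conf [88,149] (.lc 2 4 (.lc 2 4 (.lc 2 4 (.lc 2 4 (.lc 3 10 (.lc 3 4 (.lc 3 4 (.lc 4 11 (.lc 3 4 (.lc 3 4 (.lc 3 4 (.lc 4 4 .stop)))))))))))))))))))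
 (.lc 3 1 (.lc 3 7 (.lc 3 9 (.node [137,144] 6 5 (.lc 2 3 (.node [88,105,144] 9 5 (.lc 0 4 .stop)
 (.node [88,106] 5 8 (.far [257,16,16,256,0,16,1] 0 (.lc 2 9 (.lc 2 9 (.lc 2 4 (.lc 0 11 (.lc 2 9 (.lc 3 9 .stop)))))))
 (.lc 2 4 (.lc 2 4 (.lc 2 4 (.lc 3 9 (.lc 3 11 (.lc 3 3 (.conf [88,165] (.lc 2 4 (.lc 2 4 (.lc 2 4 (.lc 2 4 (.lc 3 10 (.lc 3 11 (.lc 3 4 (.lc 3 4 (.lc 4 12 (.lc 3 4 (.lc 3 4 (.lc 3 4 (.lc 3 4 (.lc 4 4 .stop))))))))))))))))))))))))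
 (.lc 3 9 (.lc 4 7 (.lc 4 10 .stop))))))))
 (.lc 2 0 (.lc 3 7 (.lc 3 9 (.conf [64,132] (.lc 2 0 (.lc 2 0 (.lc 2 0 (.lc 2 0 (.lc 2 0 (.lc 2 0 (.lc 3 7 (.lc 3 8 (.lc 3 9 (.lc 3 0 (.lc 3 0 (.lc 4 10 (.lc 3 0 (.lc 3 0 (.lc 3 0 (.lc 3 0 (.lc 3 0 (.lc 3 0 (.lc 3 0 (.lc 3 0 (.lc 3 0 (.lc 4 0 (.lc 4 0 .stop)))))))))))))))))))))))))))))
 (.lc 2 5 (.lc 3 5 .stop)))))
 (.conf [49,64] (.node [49,64] 5 4 (.node [64,80] 1 5 (.far [16,257,4096] 0 (.node [22,80,101] 1 6 (.node [] 5 0 (.lc 0 0 .stop)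
 (.lc 2 5 .stop))
 (.lc 2 0 (.node [23,80,101,118,101] 1 7 (.far [4112,4112,0,4112,4096] 256 (.lc 2 6 .stop))
 (.lc 2 0 (.lc 3 0 .stop))))))
 (.node [64,100] 4 0 (.node [96] 5 6 (.node [96,80] 5 0 (.far [257,257,0,257,4096] 0 .stop)
 (.lc 2 1 (.node [96,87] 1 5 (.node [87] 0 5 .stop
 (.lc 1 1 (.node [24,87] 5 7 (.far [257,16,257,0,257,4096] 0 (.conf [118,137,81] (.node [137,151,81] 1 8 (.node [137,151] 8 9 .stop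
 (.far [257,257,256,257,0,257,1,0,257] 16 .stop))
 (.far [257,16,257,0,257,4096] 0 (.conf [118,138,81] .stop)))))
 (.conf [81,118,135] (.lc 3 0 (.lc 3 0 (.lc 2 1 (.node [25,133,152,87] 8 5 (.far [16,16,257,0,257,4096] 0 (.lc 1 6 (.lc 1 6 (.lc 3 10 (.lc 2 6 .stop)))))
 (.far [257,257,0,257,258,0,257] 16 (.node [81,118,135,96] 1 8 (.far [257,257,257,0,257,258,0,257] 16 (.lc 2 7 (.lc 2 7 .stop)))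
 (.lc 3 0 (.conf [81,152,25] (.lc 4 0 .stop)))))))))))))
 (.lc 2 0 (.lc 3 8 (.lc 0 0 (.node [88,96,135,88,118] 7 6 (.far [16,16,4096,4096] 0 (.node [96,121] 9 6 (.far [16,16,16,4096,4096] 0 (.lc 3 1 (.lc 3 10 .stop)))
 (.lc 2 0 (.lc 3 1 (.lc 3 10 (.conf [96,150] (.lc 2 0 (.lc 2 0 (.lc 2 0 (.lc 3 9 (.lc 3 10 (.lc 4 11 (.lc 3 0 (.lc 3 0 .stop))))))))))))))
 (.lc 3 1 (.lc 2 0 (.lc 3 8 (.lc 3 7 (.lc 3 8 (.lc 3 0 (.lc 4 9 (.lc 4 9 (.lc 4 9 (.lc 4 9 (.lc 5 10 .stop))))))))))))))))))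
 (.lc 2 7 (.node [103,112,86] 5 6 (.lc 2 1 (.node [88,103] 6 7 (.node [112] 7 0 (.far [1,0,0,4096,1,1,0,257] 16 (.lc 1 0 (.lc 3 9 .stop)))
 (.lc 0 9 (.lc 0 9 (.far [257,16,1,4112,16,1,4096] 0 (.lc 0 10 .stop)))))
 (.lc 2 4 (.lc 3 9 (.conf [103,134] (.lc 3 1 (.lc 2 4 (.lc 3 8 (.lc 3 9 (.lc 3 4 (.lc 4 10 (.lc 4 9 (.lc 4 9 (.lc 4 9 (.lc 5 10 .stop)))))))))))))))
 (.lc 3 8 (.lc 3 0 (.far [4112,1,1,16,256] 0 (.lc 3 8 (.far [257,16,16,1,4096] 0 (.lc 3 8 (.lc 3 0 (.lc 3 0 (.node [104,135,86,112] 6 8 (.node [105,135] 5 6 (.far [1,4112,16,257,1,16,256] 0 (.lc 3 10 (.lc 1 8 (.lc 3 10 (.lc 4 11 .stop)))))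
 (.lc 2 7 (.lc 3 4 (.conf [135,152] (.lc 2 7 (.lc 0 1 (.lc 3 4 (.lc 0 9 (.lc 3 7 (.lc 0 10 (.lc 0 10 (.lc 0 10 (.lc 4 4 (.lc 0 11 .stop))))))))))))))
 (.lc 4 9 (.lc 4 0 (.lc 4 0 (.lc 4 0 (.lc 4 0 (.lc 5 0 .stop))))))))))))))))))
 (.lc 2 0 (.lc 3 6 (.lc 3 7 (.far [16,16,1,4096] 0 (.node [64,100,118] 6 4 (.far [16,16,16,1,4096] 0 (.lc 1 0 (.lc 2 0 (.node [104,128,118,87] 7 6 (.far [16,16,16,16,1,4096] 0 (.lc 3 9 (.far [16,256,16,16,1,4096] 0 (.lc 3 9 (.lc 4 10 .stop)))))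
 (.lc 2 0 (.conf [104,128] (.lc 2 0 (.lc 2 0 (.lc 2 0 (.node [104,128,118,87] 7 6 (.node [120] 7 8 (.lc 2 9 (.lc 3 9 (.lc 2 0 (.lc 3 10 (.lc 3 1 (.node [1] 5 0 (.far [257,1,257,0,257,4096] 0 .stop)
 (.lc 0 9 (.lc 0 10 (.lc 0 9 (.lc 1 0 .stop))))))))))
 (.lc 3 9 (.lc 1 0 (.lc 3 9 (.lc 4 10 .stop)))))
 (.lc 2 0 (.lc 3 0 (.node [105,152,118,128,87] 7 6 (.far [16,16,16,16,1,4096] 0 (.lc 3 10 (.lc 1 8 (.lc 3 10 (.lc 4 11 .stop)))))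
 (.lc 3 0 (.lc 3 0 (.lc 3 0 (.lc 3 0 (.lc 4 0 .stop))))))))))))))))))
 (.lc 2 0 (.lc 2 0 (.lc 3 6 (.lc 3 7 (.lc 3 0 (.lc 4 7 (.lc 4 8 (.lc 3 0 (.lc 3 0 (.lc 3 0 (.lc 4 0 .stop))))))))))))))))))
 (.conf [55,118] (.node [49,64,84,101,64] 5 4 (.lc 2 0 (.lc 1 0 (.lc 2 0 (.node [87,112] 6 5 (.far [16,256,4112,1] 0 (.lc 3 8 (.far [16,256,4112,1] 0 (.lc 3 8 (.lc 4 9 .stop)))))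
 (.lc 2 0 (.lc 3 7 (.lc 2 0 (.lc 2 0 (.lc 2 0 (.node [87,112] 6 5 (.node [103] 6 7 (.lc 2 8 (.lc 1 1 (.lc 0 8 (.lc 3 9 (.far [256,0,257,4096] 0 .stop)))))
 (.lc 3 8 (.lc 1 0 (.lc 3 8 (.lc 4 9 .stop)))))
 (.lc 2 0 (.lc 3 0 (.node [88,135,112] 6 5 (.far [16,16,16,1,4096] 0 (.lc 3 9 (.lc 1 7 (.lc 3 9 (.lc 4 10 .stop)))))
 (.lc 3 0 (.lc 3 0 (.lc 3 0 (.lc 3 0 (.lc 4 0 .stop))))))))))))))))))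
 (.conf [49,64] (.conf [49,64] (.conf [49,64] (.conf [49,64] .stop)))))))))))))
 (.asm [53,84] 5 (.far [1,1] 4096 (.asm [53,84,66] 6 (.node [64,84,53] 3 5 (.conf [49,84] (.node [54,84,64] 5 4 (.node [64,81,54] 5 1 (.node [97] 1 4 (.node [64] 6 4 (.far [1,4096,4096,0,1,256] 17 .stop)
 (.conf [64,116] .stop))
 (.lc 0 7 .stop))
 (.node [64,87,54] 6 5 (.node [103] 3 6 (.far [8224,1,4112,8208,4112,513] 4096 (.lc 1 3 (.node [56,103] 3 8 (.far [8224,8224,1,4112,8208,4112,513] 4096 (.node [120,134,49,120] 7 8 .stop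
 (.node [134,152,49] 8 6 (.lc 1 3 (.node [103,138,152] 9 8 (.far [2,8224,8192,32,1,4112,8208,4112,513] 4096 (.lc 1 6 (.lc 1 6 (.lc 1 6 (.far [1,4112,4096,16,1,4112,4096,16,256] 0 (.lc 2 6 .stop))))))
 (.lc 2 3 (.lc 2 3 (.conf [131,166,103] (.lc 2 3 (.conf [139,186] (.lc 2 3 (.lc 2 3 (.lc 2 3 (.conf [131,154] (.lc 3 3 (.lc 3 3 (.conf [131,155] (.lc 3 3 (.lc 3 3 (.lc 3 3 (.lc 4 3 .stop))))))))))))))))))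
 (.far [4112,4112,1,4112,4096,16,256] 0 (.node [134,152,49] 8 6 (.lc 1 3 (.node [103,138,152] 9 8 (.far [16,257,257,258,16,257,513,257,4096] 17 (.lc 3 7 (.lc 3 11 (.lc 1 6 (.lc 3 11 (.lc 4 12 .stop))))))
 (.lc 2 3 (.lc 2 3 (.conf [131,154] (.lc 2 3 (.conf [139,186] (.lc 2 3 (.lc 2 3 (.lc 2 3 (.node [131,154,103] 10 6 (.far [1,1,0,1,4112,0,256] 0 (.lc 3 1 (.lc 3 11 (.node [116,183] 9 10 (.node [26] 7 4 (.far [257,257,16,256,256,0,257,1,1,257,4096] 17 (.lc 2 0 (.lc 0 12 .stop)))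
 (.lc 2 11 (.lc 2 11 (.lc 2 6 (.conf [171,202] (.lc 2 11 (.lc 3 11 .stop)))))))
 (.lc 3 11 (.lc 4 12 .stop))))))
 (.lc 3 3 (.lc 3 3 (.conf [131,166,103] (.lc 3 3 (.lc 3 3 (.lc 3 3 (.lc 4 3 .stop))))))))))))))))))
 (.node [134,152,169,49] 8 6 (.lc 1 3 (.node [103,139,152,169] 9 8 (.node [155] 6 7 (.node [116] 9 11 (.lc 1 6 (.node [156,183] 10 9 (.far [16,257,0,256,257,16,4096] 0 (.lc 3 13 (.lc 1 11 (.lc 3 13 (.lc 4 14 .stop)))))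
 (.lc 2 6 (.lc 3 8 (.conf [157,220] (.lc 1 4 (.lc 3 8 (.lc 3 8 (.lc 3 8 (.lc 4 8 (.lc 4 8 (.lc 2 4 .stop))))))))))))
 (.conf [116,167,186] (.conf [116,188,199] (.far [4112,0,1,0,1,4112,0,256] 0 (.far [257,0,16,0,16,257,0,4096] 0 (.conf [116,189,99] .stop))))))
 (.lc 3 7 (.lc 3 12 (.lc 1 6 (.lc 3 12 (.lc 4 13 .stop))))))
 (.lc 2 3 (.lc 2 3 (.conf [131,155] (.lc 2 3 (.conf [140,203] (.lc 2 3 (.lc 2 3 (.lc 2 3 (.node [131,155,169,103] 10 9 (.conf [171,182] (.lc 3 7 (.lc 3 12 (.lc 1 6 (.lc 3 12 (.lc 4 13 .stop))))))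
 (.lc 3 3 (.lc 3 3 (.conf [131,182,103] (.lc 3 3 (.lc 3 3 (.lc 3 3 (.lc 4 3 .stop))))))))))))))))))
 .stop))))))
 (.lc 2 7 (.lc 2 7 (.lc 3 1 (.lc 3 1 (.lc 2 3 (.lc 2 3 (.far [4112,1,4112,4096,16,256] 0 (.node [103,134,152,57] 3 9 (.far [8224,8224,1,4112,8208,4112,513] 4096 (.lc 2 8 (.lc 2 8 (.far [4112,4112,1,4112,4096,16,256] 0 (.lc 2 8 (.lc 3 8 .stop))))))
 (.lc 2 7 (.lc 2 7 (.lc 3 1 (.lc 3 1 (.lc 3 1 (.lc 3 7 (.lc 3 7 (.lc 4 1 (.lc 4 1 (.lc 4 1 (.lc 4 1 (.lc 4 1 (.lc 5 1 .stop))))))))))))))))))))))))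
 (.lc 3 1 (.lc 3 8 (.lc 1 4 (.lc 1 4 (.lc 3 1 (.lc 3 8 (.lc 4 8 (.lc 4 1 (.lc 4 9 .stop))))))))))
 (.conf [64,87] (.conf [64,81] (.conf [64,88] (.conf [64,83] (.conf [64,83] (.conf [87,113] (.conf [64,116] (.conf [64,116] (.conf [64,87] (.conf [64,81] (.conf [64,88] (.node [64,83,97,54] 1 4 (.far [1,4096,1,256] 17 .stop)
 (.node [64,83,103,54] 7 4 (.far [1,4096,1,256] 17 (.node [113,103,54] 6 7 (.lc 0 7 (.lc 1 1 (.lc 0 1 (.conf [19,129] (.lc 3 9 (.lc 2 1 (.lc 3 3 (.lc 1 3 (.lc 3 8 (.lc 3 9 (.lc 2 3 (.lc 4 10 (.lc 4 9 (.lc 2 3 (.lc 2 3 (.lc 3 3 .stop))))))))))))))))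
 (.node [113] 3 6 (.conf [49,103,22] (.lc 1 3 (.node [56,103,113] 1 3 (.node [] 7 1 (.far [16,256,257,4112,256,256] 4097 (.lc 3 9 (.far [16,256,257,4112,256,256] 4097 (.lc 3 9 (.lc 4 10 .stop)))))
 (.far [256,257,4112,256,256] 4097 (.lc 0 8 (.node [134,152,25] 7 1 (.far [16,256,257,4112,256,256] 4097 (.lc 3 10 (.lc 1 8 (.lc 3 10 (.lc 4 11 .stop)))))
 (.lc 0 8 (.lc 0 9 .stop))))))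
 (.lc 2 7 (.lc 3 1 (.lc 2 3 (.node [57,103,134,152,113,57] 3 9 (.node [152] 7 1 (.far [16,4096,0,4096,0,0,16,256] 0 (.lc 3 8 (.far [16,1,257,4112,256,256] 4097 (.lc 3 10 (.lc 4 10 .stop)))))
 (.lc 2 8 (.lc 1 9 (.lc 1 9 (.lc 2 8 (.lc 1 10 .stop))))))
 (.lc 2 7 (.lc 2 7 (.lc 3 1 (.lc 3 1 (.lc 3 7 (.lc 4 1 .stop)))))))))))))
 (.far [1,4096,1,256] 17 (.conf [1,128] (.node [120,129,103,54] 6 7 (.lc 0 7 (.lc 1 8 (.lc 1 1 (.lc 3 10 (.lc 2 8 (.lc 0 8 (.node [105,129] 8 1 (.conf [19,145] (.lc 2 0 (.conf [19,161] .stop)))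
 (.lc 3 9 (.lc 3 10 (.node [106,129,152] 9 8 (.conf [19,145] (.lc 1 0 (.lc 3 11 .stop)))
 (.lc 4 11 (.lc 4 10 (.lc 4 10 (.lc 4 10 (.lc 5 11 .stop)))))))))))))))
 .stop))))))
 (.conf [64,83] (.conf [64,83] (.conf [64,88] (.conf [64,88] (.conf [64,81] (.conf [64,89] (.conf [64,83] (.conf [64,83] (.conf [64,83] (.node [64,103,113,54] 1 4 (.lc 2 3 .stop)
 (.node [64,97,116,54] 6 1 .stop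
 (.node [64,104,135,54] 7 4 (.conf [1,112] (.node [113] 3 6 (.lc 1 8 (.lc 2 9 (.lc 0 8 (.lc 3 9 (.lc 3 1 (.lc 0 9 (.lc 3 10 (.conf [24,135] (.lc 3 9 (.lc 3 1 (.lc 0 9 (.lc 0 9 (.lc 4 10 (.lc 0 10 (.lc 0 9 (.lc 0 9 (.lc 4 1 (.lc 0 10 .stop))))))))))))))))))
 (.node [113] 3 6 (.lc 1 8 (.lc 2 9 (.lc 3 9 (.lc 3 1 (.lc 3 10 (.conf [24,135] (.lc 3 9 (.lc 3 1 (.lc 4 10 (.lc 4 1 .stop))))))))))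
 (.far [1,4096,1,256] 17 (.conf [1,144] (.node [121,145] 3 6 (.lc 1 8 (.lc 2 9 (.lc 2 10 (.lc 3 10 (.lc 0 0 (.lc 3 1 (.lc 0 0 (.lc 3 11 (.conf [24,135] (.lc 3 9 (.lc 3 10 (.lc 3 1 (.lc 0 0 (.lc 0 0 (.lc 4 11 (.lc 0 0 (.lc 0 0 (.lc 0 0 (.lc 0 0 (.lc 4 1 (.lc 0 0 .stop)))))))))))))))))))))
 .stop))))))
 (.node [64,103,113,54] 1 4 (.node [19] 1 3 (.lc 1 6 (.lc 2 6 .stop))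
 .stop)
 (.node [64,97,116,54] 6 1 (.lc 2 8 (.lc 3 9 .stop))
 (.node [64,104,116,54] 7 4 (.conf [1,112] (.lc 3 1 (.node [113] 3 6 (.lc 1 8 (.lc 2 9 (.lc 3 9 (.lc 3 1 (.lc 3 10 (.lc 1 7 (.lc 3 9 (.lc 3 1 (.lc 4 10 (.lc 4 1 .stop))))))))))
 (.lc 3 1 (.lc 3 9 (.lc 4 9 .stop))))))
 (.node [64,83,103,113,103,54] 1 4 (.lc 2 3 .stop)
 (.node [64,83,97,116,54] 1 7 (.lc 2 3 (.lc 3 3 .stop))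
 (.node [64,83,104,135,104,54] 7 4 (.conf [1,112] (.lc 3 1 (.far [16,256,16,4096] 256 (.lc 3 1 (.lc 3 9 (.lc 4 9 .stop))))))
 (.node [64,104,135,54,113] 1 4 (.lc 2 3 .stop)
 (.node [64,104,116,129,54] 1 3 (.lc 2 7 (.lc 3 7 .stop))
 (.node [64,97,116,135,54] 6 1 .stop
 (.node [64,105,116,135,54] 7 4 (.conf [1,112] (.lc 3 1 (.node [113] 3 6 (.lc 1 9 (.lc 2 10 (.lc 3 10 (.lc 3 1 (.lc 3 11 (.conf [25,152] (.lc 3 10 (.lc 3 1 (.lc 4 11 (.lc 4 1 .stop))))))))))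
 (.lc 3 1 (.lc 3 10 (.lc 4 10 .stop))))))
 .stop)))))))))))))))))))))))))))))))))))))
 (.node [49,84,101,64] 5 4 (.far [4112,4096,16,256] 0 (.lc 2 0 (.far [4112,4096,16,256] 0 (.lc 2 0 (.lc 3 0 .stop)))))
 (.conf [55,84,101,118] (.conf [55,84,101] (.conf [49,84] (.node [55,118,55,84,64] 3 7 (.node [118] 7 6 (.lc 0 0 (.lc 1 5 (.lc 1 0 (.lc 3 9 (.lc 0 8 (.lc 2 5 (.lc 1 6 (.lc 0 0 (.lc 3 9 (.conf [6,101] (.lc 0 4 (.lc 0 8 (.lc 0 0 (.lc 0 4 (.lc 0 8 (.lc 4 10 (.lc 0 0 (.lc 0 9 (.lc 0 0 (.lc 0 8 (.lc 0 9 (.lc 0 0 (.lc 0 0 (.lc 0 4 (.lc 0 9 (.lc 2 6 (.lc 0 9 (.lc 0 0 (.lc 0 10 .stop)))))))))))))))))))))))))))))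
 (.lc 2 8 (.lc 2 6 (.lc 3 9 (.lc 3 1 (.node [118,135] 8 7 (.lc 0 0 (.lc 1 6 (.lc 1 5 (.lc 1 7 (.lc 0 0 (.lc 2 6 (.lc 2 6 (.lc 0 0 (.node [101,137] 6 5 (.lc 1 4 (.lc 1 0 (.lc 2 4 (.far [257,16,16,4096] 0 (.node [64,154] 10 4 (.conf [1,160] (.lc 0 8 (.lc 3 11 .stop)))
 .stop)))))
 (.lc 0 0 (.lc 1 5 (.lc 1 0 (.lc 2 6 (.node [101,138,150] 6 5 (.lc 1 4 (.lc 1 0 (.lc 2 4 (.far [257,16,16,4096] 0 (.lc 0 11 .stop)))))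
 (.lc 3 6 (.lc 2 5 (.lc 1 0 (.lc 4 10 (.lc 1 6 (.lc 0 0 (.lc 4 10 (.lc 5 11 .stop))))))))))))))))))))))
 (.lc 3 9 (.lc 2 6 (.lc 3 9 (.lc 3 1 (.lc 3 1 (.lc 3 6 (.lc 4 10 (.lc 4 1 (.lc 4 1 (.lc 4 1 (.lc 4 1 (.lc 5 1 .stop))))))))))))))))))
 (.node [49,84,101,64] 6 5 (.far [16,257,257,4096] 17 (.lc 1 0 (.lc 1 0 (.lc 3 7 (.lc 2 0 .stop)))))
 (.node [84,101,64,55] 6 5 (.node [64] 6 4 (.lc 1 0 (.lc 1 0 (.lc 3 1 (.lc 3 8 (.lc 2 0 (.lc 2 0 (.lc 2 0 (.lc 2 0 (.lc 2 0 (.lc 1 1 (.far [4096,0,1,256] 17 (.lc 2 0 (.lc 2 0 (.lc 2 1 (.lc 3 0 (.lc 3 0 (.lc 3 0 (.lc 0 1 (.lc 0 8 (.lc 2 1 (.lc 2 1 (.lc 3 1 .stop))))))))))))))))))))))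
 (.lc 1 0 (.lc 1 0 (.lc 1 0 (.lc 1 0 (.lc 3 1 (.lc 3 8 (.lc 2 0 (.lc 2 0 (.lc 2 0 .stop))))))))))
 (.conf [55,84] (.node [55,84,118,64] 3 7 (.node [118] 5 4 (.node [64,81] 5 1 .stop
 (.node [64,88] 6 5 (.far [1,4112,4112,1,272,256] 17 (.lc 3 1 (.lc 3 9 (.lc 1 4 (.lc 3 9 (.lc 4 10 .stop))))))
 (.lc 2 0 (.lc 2 0 (.lc 3 3 (.conf [64,132] (.lc 2 0 (.lc 2 0 (.lc 2 0 (.lc 2 0 (.lc 3 3 (.lc 3 3 (.lc 3 0 (.lc 4 3 (.lc 3 0 (.lc 3 0 (.lc 3 0 (.lc 3 0 (.lc 3 0 (.lc 4 0 .stop))))))))))))))))))))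
 (.lc 2 6 (.conf [118,135] (.lc 2 6 (.lc 3 6 .stop)))))
 (.node [49,84,101,118,64] 6 5 (.node [64] 6 4 (.lc 1 0 (.lc 3 8 (.lc 2 0 (.lc 2 0 (.lc 0 0 (.lc 2 0 (.lc 3 0 (.conf [1,128] .stop))))))))
 (.lc 1 0 (.lc 1 0 (.lc 3 8 (.lc 2 0 .stop)))))
 (.conf [56,84,101,118,135] (.conf [56,84,101] (.conf [56,84] (.conf [56,84] (.conf [56,84] (.conf [57,84] .stop))))))))))))))))))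
 (.node [66,101,54] 3 6 (.node [48,101,84,66] 3 0 (.node [16,48,101,84,66] 6 5 (.node [84,103] 6 7 (.far [4112,4112,4112,4096,16,256] 0 (.lc 2 5 .stop))
 (.lc 2 4 (.lc 3 0 (.conf [84,117] (.lc 2 4 (.lc 2 4 (.lc 3 4 (.lc 3 4 .stop))))))))
 (.node [55] 0 6 (.node [101,84,66] 6 5 (.node [84,117] 3 7 (.far [4112,4112,4096,4096,0,16,256] 0 (.far [4112,4112,4096,4096,0,16,256] 0 .stop))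
 (.lc 2 4 (.lc 2 4 (.lc 0 1 (.lc 0 8 (.lc 2 4 (.lc 2 4 (.lc 3 4 (.lc 3 4 (.lc 3 4 .stop))))))))))
 (.conf [84,96] (.conf [101,134] (.far [257,16,4096] 0 (.node [84,96,133,66,120,55] 3 7 (.lc 1 8 (.lc 1 5 (.lc 2 8 (.far [257,257,256,1,257,4096] 0 (.node [133,152] 8 5 (.lc 1 2 .stop)
 .stop)))))
 .stop)))))
 (.node [56,135,56,112] 0 6 (.far [257,16,4096] 0 (.lc 0 5 (.lc 0 9 (.far [257,16,4096] 0 (.lc 0 9 .stop)))))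
 .stop)))
 (.conf [49,101] (.node [55,101,84,66] 6 5 (.node [84,96,55,66] 6 0 (.node [112] 0 5 (.node [84] 7 5 (.far [1,4096,4096,0,1,256] 0 (.lc 1 2 (.lc 1 2 .stop)))
 (.lc 2 0 (.conf [84,133] (.lc 1 2 (.lc 2 2 .stop)))))
 (.lc 0 1 (.lc 0 1 (.lc 0 8 (.node [113] 5 4 (.node [66,87] 5 7 .stop
 (.node [66,88] 0 5 .stop
 (.lc 2 2 (.lc 2 2 (.conf [66,132] (.lc 2 2 (.lc 2 2 (.lc 2 2 (.lc 3 2 .stop)))))))))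
 (.lc 0 8 .stop))))))
 (.node [84,97,55,66] 6 1 (.node [113] 1 5 (.node [84] 5 4 (.far [4112,1,4112,4096,1,256] 0 (.lc 2 2 (.lc 2 2 (.conf [66,132] (.lc 2 2 (.lc 3 2 .stop))))))
 (.node [84] 7 5 (.far [1,4096,4096,0,1,256] 0 (.lc 1 2 (.lc 1 2 .stop)))
 (.lc 2 1 (.lc 2 1 (.conf [84,133] (.conf [84,133] (.lc 1 2 (.lc 1 2 (.lc 2 2 (.lc 2 2 .stop))))))))))
 (.lc 0 8 .stop))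
 (.node [84,104,55,66] 7 6 (.node [120] 5 4 (.node [66,80] 5 0 (.far [4112,4112,1,4096,1,256] 0 (.lc 0 1 (.lc 0 1 (.lc 0 9 (.node [129] 4 2 (.node [32,71] 4 7 .stop
 (.node [32,73] 0 4 .stop
 (.conf [32,146] .stop)))
 (.lc 0 9 .stop))))))
 (.node [66,81] 5 1 (.far [4112,4112,1,4096,1,256] 0 (.lc 0 9 .stop))
 (.node [66,87] 5 7 (.lc 0 5 .stop)
 (.node [66,89] 8 5 (.far [1,4112,1,4096,1,256] 0 (.lc 3 0 (.lc 3 1 (.lc 3 10 (.lc 1 4 (.lc 1 4 (.lc 3 5 (.lc 1 4 (.lc 3 0 (.lc 3 1 (.lc 3 10 (.lc 4 1 (.lc 4 10 (.lc 4 10 (.lc 4 0 (.lc 4 1 (.lc 4 11 .stop)))))))))))))))))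
 (.lc 2 2 (.lc 2 2 (.lc 2 2 (.lc 2 2 (.lc 2 2 (.lc 2 2 (.lc 2 2 (.lc 2 2 (.lc 2 2 (.lc 3 4 (.lc 3 4 (.lc 3 4 (.lc 3 4 (.far [32,1,4112,1,272,16] 257 (.conf [89,144] (.conf [89,145] (.conf [66,148] (.conf [66,148] (.conf [66,148] (.lc 2 2 (.lc 2 2 (.lc 2 2 (.lc 2 2 (.lc 2 2 (.lc 2 2 (.lc 2 2 (.lc 2 2 (.lc 2 2 (.lc 2 2 (.lc 2 2 (.lc 2 2 (.lc 2 2 (.lc 3 4 (.lc 3 4 (.lc 3 4 (.lc 3 2 (.lc 3 2 (.lc 3 2 (.lc 3 2 (.lc 3 2 (.lc 3 2 (.lc 3 2 (.lc 3 2 (.lc 3 2 (.lc 4 4 (.lc 4 4 (.lc 4 4 (.lc 4 4 (.lc 4 4 (.lc 4 4 (.lc 3 2 (.lc 3 2 (.lc 3 2 (.lc 3 2 (.lc 3 2 (.lc 3 2 (.lc 3 2 (.lc 3 2 (.lc 3 2 (.lc 3 2 (.lc 3 2 (.lc 3 2 (.lc 3 2 (.lc 3 2 (.lc 3 2 (.lc 3 2 (.lc 3 2 (.lc 3 2 (.lc 3 2 (.lc 3 2 (.lc 3 2 (.lc 4 2 (.lc 4 2 (.lc 4 2 (.lc 4 2 (.lc 4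 2 (.lc 4 2 (.lc 4 2 (.lc 4 2 (.lc 4 2 .stop))))))))))))))))))))))))))))))))))))))))))))))))))))))))))))))))))))))))))))))))))))
 (.lc 3 0 (.lc 3 1 (.lc 3 9 (.lc 1 5 (.lc 1 5 (.lc 1 5 (.lc 3 0 (.lc 3 1 (.lc 3 9 (.lc 4 1 (.lc 4 9 (.lc 4 9 (.lc 4 0 (.lc 4 1 (.lc 4 10 .stop))))))))))))))))
 (.conf [84,97] (.conf [84,104] (.conf [84,104] (.conf [84,96] (.conf [84,97] (.conf [84,105] (.conf [84,99] (.conf [84,99] (.conf [84,99] (.node [84,97,55,66] 6 1 (.node [113] 7 1 (.lc 2 1 .stop)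
 (.lc 0 8 .stop))
 (.conf [104,128] (.conf [104,129] (.conf [84,133] (.conf [84,133] (.conf [84,133] (.conf [84,97] (.conf [84,104] (.conf [84,104] (.conf [84,96] (.conf [84,97] (.conf [84,105] (.node [84,99,112,55,66] 0 5 (.far [1,4096,1,256] 0 (.lc 1 2 .stop))
 (.node [84,99,113,55,66] 1 5 (.far [1,4096,1,256] 0 (.lc 1 2 (.lc 1 2 (.lc 1 2 (.far [1,4096,1,256] 4097 (.lc 2 2 .stop))))))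
 (.node [84,99,120,55,66] 5 4 (.far [4112,4096,1,256] 0 (.lc 2 2 (.lc 2 2 (.lc 2 2 (.far [4112,4096,1,256] 0 (.far [4112,4096,1,256] 0 (.far [4112,4096,1,256] 0 (.lc 2 2 (.lc 2 2 (.lc 2 2 (.lc 3 2 (.lc 3 2 (.lc 3 2 (.lc 3 2 (.lc 3 2 (.lc 3 2 .stop))))))))))))))))
 (.conf [84,99] (.conf [84,99] (.conf [84,99] (.conf [84,104] (.conf [84,105] (.conf [84,105] (.conf [84,97] (.conf [84,105] (.conf [84,105] (.conf [84,96] (.conf [84,97] (.conf [84,106] (.conf [84,99] (.conf [84,99] (.conf [84,99] (.conf [84,99] (.conf [84,99] (.conf [84,99] (.far [1,1,257,1] 16 (.node [84,120,128,55,66] 0 5 (.conf [4,66] (.lc 1 2 .stop))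
 (.node [84,120,129,55,66] 1 5 (.conf [20,66] (.lc 3 3 (.lc 3 3 (.lc 1 2 (.lc 3 3 (.lc 4 3 .stop))))))
 (.node [84,112,133,55,66] 7 0 (.lc 2 1 (.lc 1 0 (.lc 3 9 (.lc 1 0 .stop))))
 (.node [84,113,133,55,66] 7 1 .stop
 (.node [84,121,152,55,66] 5 4 (.far [4112,4096,1,256] 0 (.lc 2 2 (.lc 2 2 (.lc 2 2 (.far [4112,4096,1,256] 0 (.far [4112,4096,1,256] 0 (.far [4112,4096,1,256] 0 (.lc 2 2 (.lc 2 2 (.lc 2 2 (.lc 3 2 (.lc 3 2 (.lc 3 2 (.lc 3 2 (.lc 3 2 (.lc 3 2 .stop))))))))))))))))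
 (.far [1,1,257,1] 16 (.node [84,120,128,55,66] 0 5 .stop
 (.node [84,120,129,55,66] 1 5 (.lc 1 2 .stop)
 (.node [84,112,133,55,66] 7 0 (.lc 2 1 (.lc 0 2 (.lc 2 9 (.lc 2 8 (.lc 1 0 (.lc 0 9 (.lc 3 9 (.lc 3 10 (.lc 2 8 (.lc 2 8 (.lc 2 8 (.lc 1 0 (.lc 3 8 .stop)))))))))))))
 (.node [84,113,133,55,66] 7 1 (.lc 0 2 (.lc 2 9 (.lc 3 10 .stop)))
 (.node [84,121,133,55,66] 8 5 (.node [66] 3 7 (.lc 2 0 (.lc 1 9 (.lc 2 10 (.lc 3 0 (.node [152] 9 8 (.lc 1 4 (.lc 0 8 (.lc 1 4 (.lc 1 2 (.lc 1 2 (.lc 2 4 (.lc 2 4 (.lc 2 4 (.lc 0 0 (.lc 2 4 (.lc 2 4 (.lc 2 4 (.lc 0 0 (.lc 1 2 (.lc 1 2 (.lc 2 4 (.lc 1 8 (.lc 2 4 (.lc 2 4 (.lc 1 0 (.lc 3 4 (.lc 3 4 (.lc 3 4 (.lc 3 4 (.lc 2 2 (.lc 2 2 (.lc 2 2 (.lc 4 0 (.lc 1 0 (.lc 1 0 (.lc 2 0 .stop)))))))))))))))))))))))))))))))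
 (.lc 3 10 (.lc 0 0 (.lc 3 1 (.lc 0 0 (.lc 3 10 (.lc 3 0 (.lc 2 9 (.lc 3 11 (.lc 3 0 (.lc 1 8 (.lc 3 10 (.lc 3 1 (.lc 0 0 (.lc 3 1 (.lc 0 0 (.lc 4 10 (.lc 4 0 (.lc 2 8 (.lc 4 11 (.lc 0 0 (.lc 4 1 (.lc 0 0 (.lc 4 1 (.lc 0 0 (.lc 4 1 (.lc 0 0 (.lc 4 1 (.lc 0 0 (.lc 5 1 .stop))))))))))))))))))))))))))))))))))
 (.lc 1 2 (.lc 1 2 (.lc 1 2 (.lc 1 2 (.lc 1 2 (.lc 1 2 (.lc 3 0 (.lc 3 1 (.lc 3 10 (.lc 2 2 (.lc 2 2 (.lc 2 2 (.lc 2 2 (.lc 2 2 (.lc 2 2 .stop))))))))))))))))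
 (.node [84,99,113,55,66] 5 4 (.conf [4,66] (.lc 2 2 .stop))
 (.node [84,99,120,128,66,120,55] 0 5 .stop
 (.node [84,99,120,129,66,120,55] 1 5 (.lc 3 3 .stop)
 (.node [84,99,112,133,55,66] 8 5 (.node [66] 0 8 (.lc 0 8 (.node [] 3 7 (.far [4112,257,257,4096,4096,0,257] 4096 (.node [57,112] 3 9 (.far [4112,4112,257,257,4096,4096,0,257] 4096 (.node [151,169,49] 7 0 (.node [26] 7 1 .stop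
 (.lc 0 9 .stop))
 (.far [4112,4112,257,257,4096,4096,0,257] 4096 (.node [151,169,49] 7 0 (.node [113] 9 7 .stop
 (.lc 0 9 (.conf [26,177] .stop)))
 (.node [151,169,186,49] 7 0 (.node [27,186,169,151] 7 1 .stop
 (.conf [16,186] .stop))
 .stop)))))
 (.lc 2 0 (.lc 2 0 (.lc 3 1 (.far [4112,257,257,4096,4096,0,257] 4096 (.node [58,112,151,169,58] 3 10 (.far [4112,4112,257,257,4096,4096,0,257] 4096 (.lc 2 9 (.far [4112,4112,257,257,4096,4096,0,257] 4096 (.lc 2 9 (.lc 3 9 .stop)))))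
 (.lc 2 0 (.lc 2 0 (.lc 3 1 (.lc 0 0 (.lc 3 1 (.lc 3 0 (.lc 3 0 (.lc 4 1 (.lc 4 1 (.lc 4 1 (.lc 4 1 (.lc 5 1 .stop)))))))))))))))))))
 .stop))
 (.lc 1 2 (.lc 1 2 (.lc 1 2 (.lc 1 2 (.lc 3 1 (.lc 3 9 (.lc 2 2 (.lc 2 2 (.lc 2 2 .stop))))))))))
 (.node [84,99,113,133,55,66] 1 8 (.lc 2 3 (.lc 3 3 (.lc 3 3 (.lc 3 3 (.lc 3 3 (.lc 4 3 .stop))))))
 (.node [84,99,121,152,66,121,55] 8 5 (.node [66] 8 4 (.lc 1 2 (.lc 1 2 (.lc 1 2 (.lc 3 0 (.lc 1 0 (.lc 2 2 (.lc 2 2 (.lc 2 2 (.lc 2 2 (.lc 2 2 (.lc 2 2 (.lc 2 2 (.lc 2 2 (.lc 2 2 (.lc 1 0 (.lc 1 0 (.lc 2 2 (.lc 2 2 (.lc 2 2 (.lc 2 0 (.lc 3 2 (.lc 3 2 (.lc 3 2 (.lc 3 2 (.lc 3 2 (.lc 3 2 (.far [4096,1,4096,1,256] 0 (.lc 2 0 (.lc 2 0 (.lc 2 0 (.lc 3 0 .stop)))))))))))))))))))))))))))))))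
 (.lc 1 2 (.lc 1 2 (.lc 1 2 (.lc 1 2 (.lc 1 2 (.lc 1 2 (.lc 3 0 (.lc 3 1 (.lc 3 10 (.lc 2 2 (.lc 2 2 (.lc 2 2 (.lc 2 2 (.lc 2 2 (.lc 2 2 .stop))))))))))))))))
 (.node [84,120,129,55,66] 5 4 (.conf [4,66] (.lc 2 2 .stop))
 (.node [84,121,152,55,66,128] 0 5 .stop
 (.node [84,121,152,55,66,129] 1 5 (.lc 3 3 .stop)
 (.node [84,113,133,55,66] 8 5 (.node [66] 3 7 (.lc 2 9 (.lc 3 10 .stop))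
 (.lc 1 2 (.lc 1 2 (.lc 3 9 (.lc 2 2 .stop)))))
 (.node [84,121,133,144,55,66] 8 5 (.node [66] 0 8 (.lc 0 8 (.far [1,1,4096,1,256] 0 .stop))
 (.lc 1 2 (.lc 1 2 (.lc 1 2 (.lc 1 2 (.lc 3 1 (.lc 3 10 (.lc 2 2 (.lc 2 2 (.lc 2 2 .stop))))))))))
 (.node [84,121,133,145,55,66] 1 3 (.lc 1 7 (.lc 2 8 (.lc 2 7 (.lc 3 8 .stop))))
 (.node [84,112,133,152,55,66] 7 0 (.lc 2 1 (.lc 1 0 (.lc 3 10 (.lc 1 0 .stop))))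
 (.node [84,113,133,152,55,66] 7 1 .stop
 (.node [84,122,133,152,55,66] 8 5 (.node [66] 3 7 (.lc 2 0 (.lc 1 10 (.lc 2 11 (.lc 3 0 (.lc 1 9 (.lc 3 11 (.lc 0 0 (.lc 3 1 (.lc 0 0 (.lc 3 11 (.lc 3 0 (.lc 2 10 (.lc 3 12 (.lc 3 0 (.node [169] 10 9 (.lc 0 9 (.lc 0 0 (.lc 0 11 (.lc 0 0 (.lc 0 11 (.lc 2 8 (.lc 0 11 (.lc 0 0 (.lc 0 12 .stop)))))))))
 (.lc 3 11 (.lc 3 1 (.lc 0 0 (.lc 3 1 (.lc 0 0 (.lc 4 11 (.lc 4 0 (.node [169,186] 11 10 (.node [152] 9 8 (.lc 1 4 (.lc 1 4 (.lc 1 2 (.lc 1 2 (.lc 2 4 (.lc 2 4 (.lc 2 4 (.lc 2 4 (.lc 2 4 (.lc 0 0 (.lc 1 2 (.lc 1 8 (.lc 1 0 (.lc 1 0 .stop))))))))))))))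
 (.lc 1 8 (.lc 1 8 (.lc 1 8 (.lc 1 8 (.lc 3 0 (.lc 3 12 (.lc 2 8 (.lc 2 8 (.lc 2 8 .stop))))))))))
 (.lc 4 12 (.lc 0 0 (.lc 4 1 (.lc 0 0 (.lc 4 1 (.lc 0 0 (.lc 4 1 (.lc 0 0 (.lc 4 1 (.lc 0 0 (.lc 5 1 .stop))))))))))))))))))))))))))))))))))
 (.lc 1 2 (.lc 1 2 (.lc 1 2 (.lc 1 2 (.lc 1 2 (.lc 1 2 (.lc 3 0 (.lc 3 1 (.lc 3 11 (.lc 2 2 (.lc 2 2 (.lc 2 2 (.lc 2 2 (.lc 2 2 (.lc 2 2 .stop))))))))))))))))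
 .stop))))))))))))))))))))))))))))))))))))))))))))))))))))))))))))))))))))))))
 (.lc 0 0 (.conf [101,112,55] (.node [101,118,84,48,66] 3 0 (.node [16] 6 5 (.far [4112,4112,4096,16,256] 0 (.lc 2 4 (.far [4112,4112,4096,16,256] 0 (.lc 2 4 (.lc 3 4 .stop)))))
 .stop)
 (.node [49,101,118,84,66] 6 5 (.far [4112,4096,16,256] 0 (.lc 2 4 (.lc 2 4 (.far [4112,4096,16,256] 0 (.far [4112,4096,16,256] 0 (.lc 2 4 (.lc 2 4 (.lc 3 4 (.lc 3 4 (.lc 3 4 .stop))))))))))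
 (.conf [56,101,118,135] (.node [55,101,112,84,66] 0 6 .stop
 (.conf [48,101,118] (.conf [56,101,118] (.lc 0 0 (.node [55,112,55,101,84,66] 0 6 .stop
 (.node [101,118,101,84,48,66] 3 0 (.lc 0 0 .stop)
 (.conf [49,101] (.node [56,135,56,101,84,66] 3 8 (.lc 2 0 (.node [135] 8 7 (.lc 1 6 (.lc 0 2 (.lc 0 4 (.lc 1 6 (.lc 3 9 (.lc 1 7 (.lc 1 2 (.lc 1 2 (.lc 1 4 (.lc 0 2 (.lc 1 4 (.lc 3 0 (.lc 3 10 (.lc 2 6 (.lc 0 9 (.lc 2 6 (.lc 0 2 (.lc 2 6 (.lc 2 6 (.lc 0 2 (.lc 0 4 (.lc 3 9 (.lc 0 0 (.lc 1 7 (.lc 3 0 (.lc 0 2 (.lc 0 4 (.lc 3 10 (.far [1,4096,0,0,257] 16 (.lc 0 4 (.lc 0 5 (.lc 0 9 (.lc 0 0 (.lc 0 4 (.lc 0 5 (.lc 0 9 (.lc 0 2 (.lc 4 10 (.lc 1 0 (.lc 1 2 (.lc 1 2 (.lc 4 10 (.lc 0 2 (.lc 4 0 (.lc 4 11 (.lc 0 4 (.lc 0 0 (.lc 0 10 (.lc 0 0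 (.lc 0 9 (.lc 0 0 (.lc 0 4 (.lc 0 9 (.lc 0 0 (.lc 0 10 (.lc 0 4 (.lc 0 0 (.lc 0 4 (.lc 0 5 (.lc 0 10 (.lc 0 4 (.node [118,151] 7 6 (.lc 1 5 (.lc 1 4 (.lc 2 5 (.far [257,256,16,4096] 0 (.lc 0 10 .stop)))))
 (.lc 0 10 (.lc 0 0 (.lc 0 9 (.lc 0 4 (.lc 0 0 (.lc 0 11 .stop))))))))))))))))))))))))))))))))))))))))))))))))))))))))))))))))))))
 (.lc 2 9 (.lc 0 0 (.lc 3 9 (.lc 3 0 (.lc 2 7 (.lc 3 10 (.lc 0 0 (.lc 3 1 (.lc 0 0 (.lc 3 9 (.lc 3 0 (.node [135,152] 9 8 (.lc 1 7 (.lc 0 2 (.lc 0 4 (.lc 1 7 (.lc 1 6 (.lc 1 6 (.lc 0 2 (.lc 0 4 (.lc 2 7 (.lc 0 0 (.lc 1 8 (.lc 2 7 (.lc 0 2 (.lc 0 4 (.lc 2 7 (.lc 2 7 (.lc 0 2 (.lc 2 7 (.lc 2 7 (.node [118,144] 0 7 (.lc 0 5 (.conf [5,84] .stop))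
 (.lc 0 2 (.lc 0 4 (.node [118,154] 7 6 (.lc 1 5 (.lc 1 4 (.lc 2 5 (.lc 2 5 (.far [257,16,16,4096] 0 (.node [84,160] 0 5 .stop
 (.node [84,171] 11 5 (.node [66] 10 11 (.lc 2 0 (.lc 2 12 (.lc 1 2 (.lc 1 2 (.lc 0 0 (.lc 0 12 (.lc 3 12 (.lc 3 0 (.lc 3 13 (.lc 0 0 (.lc 1 2 (.lc 1 11 (.lc 1 0 (.lc 1 0 .stop))))))))))))))
 (.lc 1 2 (.lc 1 2 (.lc 1 2 (.lc 1 2 (.lc 3 0 (.lc 3 12 (.lc 2 2 (.lc 2 2 (.lc 2 2 .stop))))))))))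
 .stop)))))))
 (.lc 1 6 (.lc 0 2 (.lc 0 4 (.lc 1 6 (.lc 2 7 (.lc 1 8 (.lc 1 2 (.lc 1 2 (.lc 1 4 (.lc 0 2 (.lc 1 4 (.lc 2 7 (.lc 2 7 (.node [118,154,160] 0 7 .stop
 (.lc 0 2 (.node [118,144,167] 9 0 .stop
 (.node [118,155,167] 7 6 (.lc 1 5 (.lc 1 4 (.lc 2 5 (.lc 2 5 (.far [257,16,16,4096] 0 (.lc 0 0 (.lc 0 12 .stop)))))))
 (.lc 0 2 (.lc 3 7 (.lc 1 0 (.lc 1 2 (.lc 1 2 (.lc 3 7 (.lc 0 2 (.lc 3 7 (.lc 3 7 (.lc 2 6 (.lc 0 2 (.lc 2 6 (.lc 2 6 (.lc 4 10 (.lc 1 7 (.lc 1 2 (.lc 1 2 (.lc 1 4 (.lc 0 2 (.lc 1 4 (.lc 4 0 (.lc 4 11 (.lc 0 2 (.lc 0 4 (.lc 4 10 (.lc 0 0 (.lc 1 7 (.lc 4 0 (.lc 0 2 (.lc 0 4 (.lc 4 11 (.lc 0 2 (.lc 5 11 (.lc 1 0 (.lc 1 2 (.lc 1 2 (.lc 5 11 (.lc 0 2 (.lc 5 0 (.lc 5 12 .stop))))))))))))))))))))))))))))))))))))))))))))))))))))))))))))))))))))))))))))))))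
 (.lc 3 10 (.lc 0 0 (.lc 3 9 (.lc 3 0 (.lc 2 7 (.lc 3 10 (.lc 0 0 (.lc 3 1 (.lc 0 0 (.lc 3 1 (.lc 4 10 (.lc 0 0 (.lc 4 10 (.lc 4 0 (.lc 3 7 (.lc 4 11 (.lc 0 0 (.lc 4 1 (.lc 0 0 (.lc 4 1 (.lc 0 0 (.lc 4 1 (.lc 0 0 (.lc 4 1 (.lc 0 0 (.lc 5 1 .stop))))))))))))))))))))))))))))))))))))))))
 (.conf [16,49] (.node [101,84,55,66] 0 6 .stop
 (.node [101,118,84,48,66] 3 0 (.node [16] 7 6 (.far [16,257,257,257,4096] 0 (.lc 1 4 (.lc 1 4 (.lc 3 8 (.lc 2 4 .stop)))))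
 (.lc 2 8 (.lc 3 9 .stop)))
 (.node [49,101,118,84,66] 7 6 (.far [16,257,257,4096] 0 (.lc 1 4 (.lc 1 4 (.lc 1 4 (.lc 1 4 (.lc 3 0 (.lc 3 8 (.lc 2 4 (.lc 2 4 (.lc 2 4 .stop))))))))))
 (.node [101,118,84,56,66] 7 6 (.node [84] 7 5 (.lc 1 4 (.lc 1 4 (.lc 1 4 (.lc 1 2 (.lc 1 2 (.lc 1 2 (.lc 2 4 (.lc 2 4 (.lc 2 4 (.lc 2 4 (.lc 2 4 (.lc 2 4 (.lc 2 4 (.lc 2 4 (.lc 2 4 (.lc 3 0 (.lc 3 1 (.lc 3 9 (.lc 1 2 (.lc 2 4 (.lc 2 4 (.lc 2 4 (.lc 4 1 (.lc 4 9 (.lc 4 9 (.lc 4 0 (.lc 4 1 (.lc 4 10 (.lc 3 4 (.lc 3 4 (.lc 3 4 (.lc 3 4 (.lc 3 4 (.lc 3 4 (.lc 2 2 (.lc 2 2 (.lc 2 2 (.lc 0 0 (.lc 0 1 (.lc 0 9 (.node [66,128] 0 4 (.node [] 3 8 (.far [257,0,0,16,257,257,4096] 0 (.lc 2 9 (.lc 2 0 (.lc 3 10 (.lc 3 1 (.node [128,152] 8 0 .stop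
 (.lc 3 10 (.lc 2 0 (.lc 3 10 (.lc 3 1 (.lc 0 0 (.lc 3 1 (.lc 3 0 (.lc 4 11 (.lc 4 1 (.lc 4 1 (.lc 4 1 (.lc 4 1 (.lc 5 1 .stop)))))))))))))))))))
 .stop)
 (.node [66,129] 1 4 .stop
 (.conf [137,148] (.lc 0 1 (.lc 0 9 (.lc 0 9 (.lc 0 0 (.lc 0 1 (.lc 0 10 .stop)))))))))))))))))))))))))))))))))))))))))))))))))
 (.lc 1 4 (.lc 1 4 (.lc 1 4 (.lc 1 4 (.lc 1 4 (.lc 1 4 (.lc 3 0 (.lc 3 1 (.lc 3 9 (.lc 2 4 (.lc 2 4 (.lc 2 4 (.lc 2 4 (.lc 2 4 (.lc 2 4 .stop))))))))))))))))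
 (.conf [55,101] (.conf [48,101] (.conf [56,101] (.node [55,101,112,84,66] 0 6 (.node [101] 6 5 (.node [84,133] 3 7 (.far [4112,4112,1,1,272,256] 0 (.lc 2 0 (.lc 2 0 (.conf [112,151] (.lc 2 0 (.lc 3 0 .stop))))))
 (.lc 2 4 (.lc 2 4 (.lc 0 1 (.lc 0 9 (.lc 2 4 (.lc 2 4 (.lc 3 4 (.lc 3 4 (.lc 3 4 .stop))))))))))
 (.lc 2 0 (.conf [101,134] (.lc 1 4 (.lc 2 4 .stop)))))
 (.node [48,101,84,66] 3 0 (.lc 0 0 .stop)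
 (.node [56,101,135,84,66] 3 8 (.node [135] 6 5 (.node [84,96] 6 0 (.far [4112,4112,4112,1,272,256] 0 (.lc 0 1 (.lc 0 1 (.lc 0 9 (.node [] 1 8 .stop
 (.lc 0 9 .stop))))))
 (.node [84,97] 6 1 .stop
 (.node [84,105] 7 6 (.far [1,4112,4112,1,272,256] 0 (.lc 3 0 (.lc 3 1 (.lc 3 10 (.lc 1 5 (.lc 1 5 (.lc 3 0 (.lc 3 10 (.lc 4 1 (.lc 4 10 (.lc 4 0 (.lc 4 11 .stop))))))))))))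
 (.lc 2 4 (.lc 2 4 (.lc 2 4 (.lc 2 4 (.lc 2 4 (.lc 3 3 (.lc 3 3 (.node [84,97] 6 1 .stop
 (.conf [105,144] (.conf [84,149] (.conf [84,149] (.lc 2 4 (.lc 2 4 (.lc 2 4 (.lc 2 4 (.lc 2 4 (.lc 2 4 (.lc 2 4 (.lc 2 4 (.lc 3 3 (.lc 3 3 (.lc 3 3 (.lc 3 4 (.lc 3 4 (.lc 3 4 (.lc 3 4 (.lc 3 4 (.lc 3 4 (.lc 4 3 (.lc 4 3 (.lc 4 3 (.lc 4 3 (.lc 3 4 (.lc 3 4 (.lc 3 4 (.lc 3 4 (.lc 3 4 (.lc 3 4 (.lc 3 4 (.lc 3 4 (.lc 3 4 (.lc 3 4 (.lc 3 4 (.lc 3 4 (.lc 3 4 (.lc 3 4 (.lc 4 4 (.lc 4 4 (.lc 4 4 (.lc 4 4 (.lc 4 4 (.lc 4 4 .stop)))))))))))))))))))))))))))))))))))))))))))))))))))))))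
 (.lc 0 0 (.lc 2 7 (.lc 0 0 (.conf [135,152] (.lc 0 0 (.lc 2 7 (.lc 0 0 (.lc 3 7 .stop)))))))))
 (.conf [101,135,56] (.lc 0 0 (.conf [101,128,56] (.node [101,118,135,84,48,66] 3 0 (.node [16] 7 6 (.node [84] 7 5 (.lc 1 4 (.lc 1 2 (.lc 2 4 (.lc 2 4 (.lc 3 9 (.lc 1 2 (.lc 2 4 (.lc 4 10 (.lc 3 4 (.lc 2 2 (.node [66,137] 4 2 (.conf [32,146] (.conf [32,162] .stop))
 (.lc 0 9 (.node [66,138,148] 8 10 .stop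
 .stop)))))))))))))
 (.lc 1 4 (.lc 1 4 (.lc 3 9 (.lc 2 4 .stop)))))
 .stop)
 (.node [49,101,118,135,84,66] 7 6 (.node [84] 7 5 (.lc 1 4 (.lc 1 4 (.lc 1 2 (.lc 1 2 (.lc 2 4 (.lc 2 4 (.lc 2 4 (.lc 2 4 (.lc 2 4 (.lc 3 0 (.lc 3 9 (.lc 1 2 (.lc 2 4 (.lc 2 4 (.lc 4 9 (.lc 4 0 (.lc 4 10 (.lc 3 4 (.lc 3 4 (.lc 3 4 (.lc 2 2 (.lc 2 2 (.node [66,128] 0 4 (.far [257,1,257,4096,0,257] 4096 .stop)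
 (.node [66,137] 4 2 (.lc 1 0 (.lc 2 0 (.far [4096,1,257,4096,0,257] 4096 (.lc 2 0 (.lc 2 0 (.lc 3 0 .stop))))))
 (.lc 0 0 (.lc 0 9 (.node [66,137,144] 0 4 (.node [] 8 9 (.lc 0 9 (.lc 0 10 .stop))
 .stop)
 (.node [66,128,148] 8 0 (.node [] 9 4 (.lc 0 0 (.lc 1 0 .stop))
 .stop)
 (.node [66,138,148] 8 10 (.lc 0 10 (.lc 0 0 (.lc 0 0 (.lc 2 9 (.lc 0 11 (.lc 0 0 .stop))))))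
 .stop)))))))))))))))))))))))))))))
 (.lc 1 4 (.lc 1 4 (.lc 1 4 (.lc 1 4 (.lc 3 0 (.lc 3 9 (.lc 2 4 (.lc 2 4 (.lc 2 4 .stop))))))))))
 (.conf [57,101,118,135,152] (.node [56,101,135,84,112,66] 0 6 .stop
 (.conf [56,101,118] (.conf [48,101,118] (.conf [57,101,118] (.conf [56,101] (.conf [56,101] (.conf [48,101] (.conf [57,101] (.conf [56,101] (.conf [56,101] (.conf [48,101] (.conf [57,101] (.conf [56,101] (.conf [56,101] (.conf [48,101] (.conf [57,101] (.conf [57,101] (.conf [57,101] (.conf [57,101] (.conf [48,101] (.conf [58,101] .stop))))))))))))))))))))))))))))))))))))))))))))))))))))))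
 (.node [53,84,64] 3 5 (.node [54,84,64] 3 6 (.far [4112,4112,4096,257] 4096 (.lc 2 5 (.far [4112,4112,4096,257] 4096 (.lc 2 5 (.lc 3 5 .stop)))))
 (.conf [55,84] (.conf [49,84] (.conf [84,101] (.conf [55,84] (.node [49,84,101,64] 5 4 (.far [4112,4096,4096,257] 4096 (.lc 2 0 (.far [4112,4096,4112,256] 0 (.lc 2 0 (.lc 3 0 .stop)))))
 (.conf [49,84] (.conf [56,84] (.conf [49,84] (.node [49,84,101,118,64] 5 4 (.far [4112,4096,4096,257] 4096 (.lc 2 0 (.far [4112,4096,4112,256] 0 (.lc 2 0 (.lc 3 0 .stop)))))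
 (.node [49,84,101,118,64] 6 5 (.node [64] 6 4 (.lc 1 0 (.lc 3 8 (.lc 2 0 (.lc 2 0 (.far [4096,0,1,4112,256] 0 (.lc 2 0 (.lc 3 0 (.lc 0 8 .stop))))))))
 (.lc 1 0 (.lc 1 0 (.lc 3 8 (.lc 2 0 .stop)))))
 (.node [49,84,101,118,64] 6 5 (.node [64] 6 4 (.lc 1 0 (.lc 3 8 (.lc 2 0 (.lc 2 0 (.lc 0 0 (.lc 2 0 (.lc 3 0 (.conf [1,128] .stop))))))))
 (.lc 1 0 (.lc 1 0 (.lc 3 8 (.lc 2 0 .stop)))))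
 (.node [49,84,101,118,135,64] 6 5 (.node [64] 6 4 (.lc 1 0 (.lc 3 9 (.lc 2 0 (.lc 2 0 (.lc 0 0 (.lc 2 0 (.lc 3 0 (.conf [1,144] .stop))))))))
 (.lc 1 0 (.lc 1 0 (.lc 3 9 (.lc 2 0 .stop)))))
 .stop)))))))))))))
 (.node [54,101,84,66] 3 6 (.node [48,101,84,66] 3 0 (.lc 0 0 .stop)
 (.node [55,101,84,66] 3 7 (.node [118] 6 5 (.node [84,96] 6 0 (.far [4112,4112,4112,4096,4112,256] 0 (.lc 0 8 (.lc 0 1 .stop)))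
 (.node [84,97] 6 1 (.lc 0 1 .stop)
 (.node [84,104] 7 6 (.far [1,4112,4112,4096,4112,256] 0 (.lc 3 0 (.lc 3 9 (.lc 1 5 (.lc 3 1 (.lc 1 5 (.lc 3 0 (.lc 3 9 (.lc 4 9 (.lc 4 0 (.lc 4 10 .stop)))))))))))
 (.lc 2 4 (.lc 2 4 (.lc 2 4 (.lc 2 4 (.lc 2 4 (.lc 3 3 (.lc 3 3 (.lc 3 3 (.node [84,97] 6 1 (.lc 0 1 .stop)
 (.conf [104,128] (.conf [84,133] (.conf [84,133] (.lc 2 4 (.lc 2 4 (.lc 2 4 (.lc 2 4 (.lc 2 4 (.lc 2 4 (.lc 2 4 (.lc 2 4 (.lc 3 3 (.lc 3 3 (.lc 3 4 (.lc 3 4 (.lc 3 4 (.lc 3 4 (.lc 3 4 (.lc 3 4 (.lc 4 3 (.lc 4 3 (.lc 4 3 (.lc 3 4 (.lc 3 4 (.lc 3 4 (.lc 3 4 (.lc 3 4 (.lc 3 4 (.lc 3 4 (.lc 3 4 (.lc 3 4 (.lc 3 4 (.lc 3 4 (.lc 4 4 (.lc 4 4 (.lc 4 4 (.lc 4 4 .stop)))))))))))))))))))))))))))))))))))))))))))))))))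
 (.lc 0 0 (.lc 2 6 (.lc 0 0 (.node [118,135] 6 5 (.node [84,96] 6 0 (.far [4112,4112,4112,4096,4112,256] 0 (.lc 0 9 .stop))
 (.node [84,104,135] 6 8 (.lc 0 3 .stop)
 (.node [84,105] 7 6 (.far [1,4112,4112,4096,4112,256] 0 (.lc 3 0 (.lc 3 10 (.lc 1 5 (.lc 3 3 (.lc 1 5 (.lc 3 0 (.lc 3 10 (.lc 4 10 (.lc 4 0 (.lc 4 11 .stop)))))))))))
 (.lc 2 4 (.lc 2 4 (.lc 2 4 (.lc 2 4 (.lc 2 4 (.lc 2 4 (.lc 3 3 (.lc 3 3 (.lc 3 3 (.conf [105,144] (.conf [84,149] (.conf [84,149] (.lc 2 4 (.lc 2 4 (.lc 2 4 (.lc 2 4 (.lc 2 4 (.lc 2 4 (.lc 2 4 (.lc 2 4 (.lc 2 4 (.lc 3 3 (.lc 3 3 (.lc 3 4 (.lc 3 4 (.lc 3 4 (.lc 3 4 (.lc 3 4 (.lc 4 3 (.lc 4 3 (.lc 4 3 (.lc 3 4 (.lc 3 4 (.lc 3 4 (.lc 3 4 (.lc 3 4 (.lc 3 4 (.lc 3 4 (.lc 3 4 (.lc 3 4 (.lc 3 4 (.lc 3 4 (.lc 4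 4 (.lc 4 4 (.lc 4 4 (.lc 4 4 .stop)))))))))))))))))))))))))))))))))))))))))))))))))
 (.lc 0 0 (.lc 2 6 (.lc 0 0 (.lc 3 6 .stop)))))))))
 (.conf [55,101] (.conf [48,101] (.conf [56,101] (.lc 0 0 (.conf [49,101] (.conf [55,112] (.conf [101,118] (.conf [101,118] (.conf [55,101] (.conf [48,101] (.conf [56,101] (.lc 0 0 (.node [49,101,118,84,66] 6 5 (.far [4112,4096,4112,256] 0 (.lc 2 4 (.lc 2 4 (.far [4112,4096,4112,256] 0 (.far [4112,4096,4112,256] 0 (.lc 2 4 (.lc 2 4 (.lc 3 4 (.lc 3 4 (.lc 3 4 .stop))))))))))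
 (.lc 0 0 (.conf [49,101] (.conf [56,101] (.conf [56,101] (.conf [48,101] (.conf [57,101] (.lc 0 0 (.conf [49,101] (.lc 0 0 (.node [49,101,118,135,84,66] 6 5 (.far [4112,4096,4112,256] 0 (.lc 2 4 (.lc 2 4 (.far [4112,4096,4112,256] 0 (.far [4112,4096,4112,256] 0 (.lc 2 4 (.lc 2 4 (.lc 3 4 (.lc 3 4 (.lc 3 4 .stop))))))))))
 (.lc 0 0 (.node [49,101,118,135,84,66] 7 6 (.node [84] 7 5 (.lc 1 4 (.lc 1 4 (.lc 1 2 (.lc 1 2 (.lc 2 4 (.lc 2 4 (.lc 2 4 (.lc 2 4 (.lc 2 4 (.lc 3 0 (.lc 3 9 (.lc 1 2 (.lc 2 4 (.lc 2 4 (.lc 4 9 (.lc 4 0 (.lc 4 10 (.lc 3 4 (.lc 3 4 (.lc 3 4 (.lc 2 2 (.lc 2 2 (.lc 0 0 (.lc 0 9 (.node [66,128] 0 4 (.node [] 1 8 (.far [16,257,1,257,4096,0,257] 4096 (.node [25,128,152] 1 9 .stop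
 (.lc 2 0 (.node [26,128,152,169,152] 1 10 .stop
 (.lc 2 0 (.lc 3 0 .stop))))))
 .stop)
 (.node [66,148,137] 9 4 (.lc 0 0 (.lc 1 0 (.lc 1 0 (.lc 1 0 (.lc 1 0 (.lc 3 0 (.lc 1 0 (.lc 2 0 (.lc 2 0 .stop)))))))))
 (.lc 0 9 (.lc 0 0 (.lc 0 10 .stop)))))))))))))))))))))))))))))
 (.lc 1 4 (.lc 1 4 (.lc 1 4 (.lc 1 4 (.lc 3 0 (.lc 3 9 (.lc 2 4 (.lc 2 4 (.lc 2 4 .stop))))))))))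
 (.lc 0 0 (.node [49,101,118,135,84,66] 7 6 (.node [84] 7 5 (.lc 1 4 (.lc 1 4 (.lc 1 2 (.lc 1 2 (.lc 2 4 (.lc 2 4 (.lc 2 4 (.lc 2 4 (.lc 2 4 (.lc 3 0 (.lc 3 9 (.lc 1 2 (.lc 2 4 (.lc 2 4 (.lc 4 9 (.lc 4 0 (.lc 4 10 (.lc 3 4 (.lc 3 4 (.lc 3 4 (.lc 2 2 (.lc 2 2 (.node [66,128] 0 4 (.far [257,1,257,4096,0,257] 4096 .stop)
 (.node [66,137] 8 9 (.lc 0 9 (.lc 0 0 (.lc 0 10 (.lc 0 0 (.lc 0 10 (.node [148] 9 4 (.lc 0 0 (.lc 1 0 (.lc 1 0 (.lc 0 1 .stop))))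
 (.lc 0 10 (.lc 0 0 (.lc 0 11 .stop)))))))))
 (.lc 0 0 (.lc 0 9 (.node [66,137,144] 0 4 (.node [] 8 9 (.lc 0 9 (.lc 0 10 (.lc 0 10 (.lc 0 10 (.lc 0 11 .stop)))))
 .stop)
 (.node [66,128,148] 8 0 (.node [] 9 4 (.lc 0 0 (.lc 1 0 (.lc 1 0 (.lc 1 0 (.lc 2 0 .stop)))))
 .stop)
 (.node [66,138,148] 8 10 (.lc 0 10 (.lc 0 0 (.lc 0 11 (.lc 0 0 (.lc 0 11 (.lc 2 9 (.lc 0 11 (.lc 0 0 (.lc 0 12 .stop)))))))))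
 .stop)))))))))))))))))))))))))))))
 (.lc 1 4 (.lc 1 4 (.lc 1 4 (.lc 1 4 (.lc 3 0 (.lc 3 9 (.lc 2 4 (.lc 2 4 (.lc 2 4 .stop))))))))))
 (.lc 0 0 (.node [49,101,118,135,152,84,66] 7 6 (.node [84] 7 5 (.lc 1 4 (.lc 1 4 (.lc 1 2 (.lc 1 2 (.lc 2 4 (.lc 2 4 (.lc 2 4 (.lc 2 4 (.lc 2 4 (.lc 3 0 (.lc 3 10 (.lc 1 2 (.lc 2 4 (.lc 2 4 (.lc 4 10 (.lc 4 0 (.lc 4 11 (.lc 3 4 (.lc 3 4 (.lc 3 4 (.lc 2 2 (.lc 2 2 (.node [66,128] 0 4 (.far [257,1,257,4096,0,257] 4096 .stop)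
 (.node [66,138] 9 8 (.node [154] 10 4 (.lc 0 0 (.lc 1 0 (.lc 1 0 (.lc 1 0 (.lc 1 0 (.lc 3 0 (.lc 1 0 (.lc 2 0 (.lc 2 0 .stop)))))))))
 (.lc 3 0 (.lc 0 0 (.lc 3 11 (.node [144,164] 9 0 .stop
 (.node [155,164] 10 4 (.lc 0 0 (.lc 1 0 (.lc 1 0 (.lc 1 0 (.lc 1 0 (.lc 2 0 (.lc 2 0 .stop)))))))
 (.lc 3 0 (.lc 3 11 (.lc 4 11 (.lc 1 10 (.lc 4 0 (.lc 4 12 .stop))))))))))))
 (.lc 0 0 (.lc 0 10 (.node [66,138,160] 0 4 (.node [] 9 8 (.node [154] 9 10 (.lc 2 11 (.lc 0 11 (.lc 3 12 (.far [256,0,257,1,257,4096,0,257] 4096 .stop))))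
 (.lc 3 11 (.lc 1 0 (.lc 3 11 (.lc 4 12 .stop)))))
 .stop)
 (.node [66,128,164] 8 0 .stop
 (.node [66,139,164] 9 8 (.node [155] 10 4 (.lc 0 0 (.lc 1 0 (.lc 1 0 (.lc 1 0 (.lc 1 0 (.lc 3 0 (.lc 1 0 (.lc 2 0 (.lc 2 0 .stop)))))))))
 (.lc 3 0 (.lc 0 0 (.lc 3 12 (.lc 1 10 (.lc 1 10 (.lc 3 0 (.lc 3 12 (.lc 4 12 (.lc 1 11 (.lc 4 0 (.lc 4 13 .stop))))))))))))
 .stop)))))))))))))))))))))))))))))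
 (.lc 1 4 (.lc 1 4 (.lc 1 4 (.lc 1 4 (.lc 3 0 (.lc 3 10 (.lc 2 4 (.lc 2 4 (.lc 2 4 .stop))))))))))
 .stop)))))))))))))))))))))))))))))))
 (.node [53,84,64] 3 5 (.node [54,84,64] 3 6 (.far [4112,4112,4096,257] 4096 (.lc 2 5 (.far [4112,4112,4096,257] 4096 (.lc 2 5 (.lc 3 5 .stop)))))
 (.conf [55,84] (.conf [49,84] (.conf [84,101] (.conf [55,84] (.node [49,84,101,64] 5 4 (.far [4112,4096,4096,257] 4096 (.lc 2 0 (.far [4112,4096,4096,257] 4096 (.lc 2 0 (.lc 3 0 .stop)))))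
 (.conf [49,84] (.conf [56,84] (.conf [49,84] (.node [49,84,101,118,64] 5 4 (.far [4112,4096,4096,257] 4096 (.lc 2 0 (.far [4112,4096,4096,257] 4096 (.lc 2 0 (.lc 3 0 .stop)))))
 (.node [49,84,101,118,64] 6 5 (.node [64] 6 4 (.lc 1 0 (.lc 3 8 (.lc 2 0 (.lc 2 0 (.lc 3 8 (.node [112] 1 7 (.far [16,1,257,4096] 0 (.node [24,112,135] 1 8 (.node [] 7 0 (.lc 0 0 .stop)
 (.lc 2 7 .stop))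
 (.lc 2 0 (.node [25,112,135,152,135] 1 9 (.far [4112,4112,0,1,4112,4096] 256 (.lc 2 8 .stop))
 (.lc 2 0 (.lc 3 0 .stop))))))
 (.lc 2 0 (.lc 4 9 (.lc 3 0 (.lc 0 8 (.lc 0 8 (.far [256,0,16,1,4096] 0 (.lc 0 9 .stop)))))))))))))
 (.lc 1 0 (.lc 1 0 (.lc 3 8 (.lc 2 0 .stop)))))
 (.node [49,84,101,118,64] 6 5 (.node [64] 6 4 (.lc 1 0 (.lc 3 8 (.lc 2 0 (.lc 2 0 (.lc 3 8 (.lc 0 0 (.lc 2 0 (.lc 4 9 (.lc 3 0 (.node [120,128] 7 8 (.lc 0 8 (.lc 0 9 (.lc 0 9 (.lc 0 9 (.lc 0 10 .stop)))))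
 (.node [120,128] 7 8 (.lc 0 8 (.lc 0 9 (.lc 0 9 (.lc 0 9 (.lc 0 10 .stop)))))
 (.lc 0 8 (.node [121,152,128] 7 9 (.lc 0 9 (.lc 0 10 (.lc 0 10 (.lc 0 10 (.lc 0 11 .stop)))))
 .stop)))))))))))))
 (.lc 1 0 (.lc 1 0 (.lc 3 8 (.lc 2 0 .stop)))))
 (.node [49,84,101,118,135,64] 6 5 (.node [64] 6 4 (.lc 1 0 (.lc 3 9 (.lc 2 0 (.lc 2 0 (.lc 3 9 (.lc 0 0 (.lc 2 0 (.lc 4 10 (.lc 3 0 (.node [121,144] 8 7 (.node [137] 8 9 (.lc 2 10 (.lc 1 1 (.lc 0 10 (.lc 3 11 (.far [256,0,1,257,4096] 0 .stop)))))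
 (.lc 3 10 (.lc 1 0 (.lc 3 10 (.lc 4 11 .stop)))))
 (.node [121,144] 8 7 (.far [16,257,257,4112,1] 0 (.lc 3 10 (.far [16,257,257,4112,1] 0 (.lc 3 10 (.lc 4 11 .stop)))))
 (.lc 0 9 (.node [122,169,144] 8 7 (.far [16,256,0,16,1,4096] 0 (.lc 3 11 (.lc 1 9 (.lc 3 11 (.lc 4 12 .stop)))))
 .stop)))))))))))))
 (.lc 1 0 (.lc 1 0 (.lc 3 9 (.lc 2 0 .stop)))))
 .stop)))))))))))))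
 (.node [54,101,84,66] 3 6 (.node [48,101,84,66] 3 0 (.lc 0 0 .stop)
 (.node [55,101,84,66] 3 7 (.node [118] 6 5 (.node [84,96] 6 0 (.node [112] 0 5 (.node [84] 7 5 (.far [4112,256,256,0,1,256] 0 .stop)
 (.lc 2 0 .stop))
 (.lc 0 8 (.lc 0 1 .stop)))
 (.node [84,97] 6 1 (.lc 0 1 .stop)
 (.node [84,104] 7 6 (.node [120] 8 5 (.node [84,128] 0 5 (.far [16,16,16,256,0,16,1] 0 (.far [16,16,16,256,0,16,1] 0 .stop))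
 (.node [84,129] 1 5 (.far [16,16,16,256,0,16,1] 0 .stop)
 (.lc 2 5 (.node [84,137] 5 4 (.far [257,16,16,256,0,16,1] 0 (.lc 0 0 (.lc 0 1 (.lc 0 10 (.lc 0 0 (.lc 0 10 (.far [257,16,16,256,0,16,1] 0 (.far [257,16,16,256,0,16,1] 0 (.lc 0 1 (.lc 0 10 (.lc 0 0 (.lc 0 11 .stop))))))))))))
 (.lc 2 4 (.lc 2 4 (.lc 3 1 (.lc 3 9 (.lc 3 0 (.lc 3 1 (.lc 3 10 (.node [84,129] 5 4 (.far [257,16,16,256,0,16,1] 4097 (.far [257,16,16,256,0,16,1] 4097 .stop))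
 (.node [84,137,144] 0 5 .stop
 (.lc 3 5 (.conf [84,149] (.conf [84,149] (.lc 2 4 (.lc 2 4 (.lc 2 4 (.lc 2 4 (.lc 2 4 (.lc 2 4 (.lc 2 4 (.lc 3 1 (.lc 3 9 (.lc 3 9 (.lc 3 0 (.lc 3 10 (.lc 3 4 (.lc 3 4 (.lc 3 4 (.lc 3 4 (.lc 3 4 (.lc 4 9 (.lc 4 10 (.lc 4 1 (.lc 4 10 (.lc 4 0 (.lc 4 11 (.lc 3 4 (.lc 3 4 (.lc 3 4 (.lc 3 4 (.lc 3 4 (.lc 3 4 (.lc 3 4 (.lc 3 4 (.lc 3 4 (.lc 3 4 (.lc 3 4 (.lc 3 4 (.lc 3 4 (.lc 3 4 (.lc 4 4 (.lc 4 4 (.lc 4 4 (.lc 4 4 (.lc 4 4 (.lc 4 4 .stop)))))))))))))))))))))))))))))))))))))))))))))))))))))))))))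
 (.lc 3 0 (.lc 3 9 (.lc 1 5 (.lc 3 1 (.lc 1 5 (.lc 3 0 (.lc 3 9 (.lc 4 9 (.lc 4 0 (.lc 4 10 .stop)))))))))))
 (.lc 2 4 (.lc 2 4 (.lc 2 4 (.lc 2 4 (.lc 2 4 (.lc 3 3 (.lc 3 3 (.lc 3 3 (.node [84,97] 6 1 (.lc 0 1 .stop)
 (.conf [104,128] (.conf [84,133] (.conf [84,133] (.lc 2 4 (.lc 2 4 (.lc 2 4 (.lc 2 4 (.lc 2 4 (.lc 2 4 (.lc 2 4 (.lc 2 4 (.lc 3 3 (.lc 3 3 (.lc 3 4 (.lc 3 4 (.lc 3 4 (.lc 3 4 (.lc 3 4 (.lc 3 4 (.lc 4 3 (.lc 4 3 (.lc 4 3 (.lc 3 4 (.lc 3 4 (.lc 3 4 (.lc 3 4 (.lc 3 4 (.lc 3 4 (.lc 3 4 (.lc 3 4 (.lc 3 4 (.lc 3 4 (.lc 3 4 (.lc 4 4 (.lc 4 4 (.lc 4 4 (.lc 4 4 .stop)))))))))))))))))))))))))))))))))))))))))))))))))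
 (.lc 0 0 (.lc 2 6 (.lc 0 0 (.node [118,135] 6 5 (.node [84,96] 6 0 (.node [112] 0 5 (.node [84] 7 5 (.lc 0 4 .stop)
 (.lc 1 5 (.lc 2 0 (.lc 3 0 .stop))))
 (.lc 0 9 .stop))
 (.node [84,104,135] 6 8 (.lc 0 3 .stop)
 (.node [84,105] 7 6 (.node [121] 8 7 (.node [121,128] 0 7 (.far [16,16,257,0,16,4096] 0 (.far [256,0,257,0,4112,4096,0,257] 4096 (.far [16,16,257,0,16,4096] 0 (.far [16,16,257,0,16,4096] 0 (.lc 0 0 .stop)))))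
 (.node [121,132] 4 7 (.far [16,16,257,0,16,4096] 0 (.far [16,16,257,0,16,4096] 0 (.far [16,16,257,0,16,4096] 0 (.lc 3 2 .stop))))
 (.lc 1 3 (.node [121,138] 10 7 (.far [16,16,257,0,16,4096] 0 (.lc 3 0 (.lc 3 4 (.lc 3 11 (.far [16,16,257,0,16,4096] 0 (.far [16,16,257,0,16,4096] 0 (.far [16,16,257,0,16,4096] 0 (.lc 3 0 (.lc 3 4 (.lc 3 11 (.lc 4 4 (.lc 4 11 (.lc 4 0 (.lc 4 11 (.lc 4 0 (.lc 4 4 (.lc 4 12 .stop)))))))))))))))))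
 (.node [115,128,149] 0 9 (.far [257,1,0,0,4096,0,0,257] 4096 (.lc 0 0 .stop))
 (.conf [73,132] (.conf [115,138,169] (.lc 3 4 (.lc 3 10 (.lc 3 0 (.lc 1 7 (.lc 3 10 (.lc 2 3 (.lc 2 3 (.lc 2 3 (.lc 3 0 (.lc 3 4 (.lc 3 11 (.conf [64,132] (.node [121,138,160,138] 0 7 .stop
 (.conf [71,121] (.conf [71,121] (.lc 2 3 (.lc 2 3 (.lc 2 3 (.conf [121,167] (.conf [74,132] (.conf [121,167] (.node [115,128,149] 0 9 (.far [16,16,1,4096,16,4096] 0 (.lc 1 4 .stop))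
 (.node [115,132,149] 4 9 .stop
 (.node [115,138,149] 9 5 (.far [257,16,1,4096,16,4096] 0 (.lc 2 4 (.node [84,160] 0 5 .stop
 (.conf [84,181] (.lc 2 4 (.lc 3 4 (.lc 3 4 .stop)))))))
 (.lc 3 0 (.lc 3 4 (.lc 3 5 (.lc 3 10 (.lc 3 4 (.lc 3 10 (.lc 3 0 (.lc 3 0 (.lc 3 10 (.lc 3 4 (.lc 2 3 (.lc 2 3 (.lc 2 3 (.lc 3 0 (.lc 3 4 (.lc 3 11 (.conf [64,132] (.conf [115,138,160] (.node [73,115,128] 0 4 (.lc 1 9 .stop)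
 (.conf [73,138,164] (.node [115,128,149,169] 8 0 .stop
 (.conf [74,132] (.conf [115,139,186] (.lc 4 10 (.lc 4 4 (.lc 4 11 (.lc 4 10 (.lc 1 0 (.lc 4 0 (.lc 4 11 (.lc 3 3 (.lc 3 3 (.lc 3 3 (.lc 3 3 (.lc 3 3 (.lc 3 3 (.lc 3 3 (.lc 4 4 (.lc 4 11 (.lc 4 0 (.lc 4 11 (.lc 4 0 (.lc 4 4 (.lc 4 12 (.lc 4 4 (.lc 4 10 (.lc 4 0 (.lc 4 10 (.lc 1 4 (.lc 4 0 (.lc 4 4 (.lc 4 11 (.lc 4 4 (.lc 4 10 (.lc 4 0 (.lc 4 0 (.lc 4 10 (.lc 4 0 (.lc 4 4 (.lc 4 11 (.lc 4 4 (.lc 4 10 (.lc 4 0 (.lc 1 9 (.lc 4 10 (.lc 4 0 (.lc 4 4 (.lc 4 11 (.lc 5 10 (.lc 5 4 (.lc 5 11 (.lc 5 10 (.lc 1 0 (.lc 5 0 (.lc 5 11 (.lc 5 4 (.lc 5 11 (.lc 5 0 (.lc 5 11 (.lc 5 0 (.lc 5 4 (.lc 5 12 .stop)))))))))))))))))))))))))))))))))))))))))))))))))))))))))))))))))))))))))))))))))))))))))))))))))))))))))))))))))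
 (.lc 3 0 (.lc 3 10 (.lc 1 5 (.lc 3 3 (.lc 1 5 (.lc 3 0 (.lc 3 10 (.lc 4 10 (.lc 4 0 (.lc 4 11 .stop)))))))))))
 (.lc 2 4 (.lc 2 4 (.lc 2 4 (.lc 2 4 (.lc 2 4 (.lc 2 4 (.lc 3 3 (.lc 3 3 (.lc 3 3 (.conf [105,144] (.conf [84,149] (.conf [84,149] (.lc 2 4 (.lc 2 4 (.lc 2 4 (.lc 2 4 (.lc 2 4 (.lc 2 4 (.lc 2 4 (.lc 2 4 (.lc 2 4 (.lc 3 3 (.lc 3 3 (.lc 3 4 (.lc 3 4 (.lc 3 4 (.lc 3 4 (.lc 3 4 (.lc 4 3 (.lc 4 3 (.lc 4 3 (.lc 3 4 (.lc 3 4 (.lc 3 4 (.lc 3 4 (.lc 3 4 (.lc 3 4 (.lc 3 4 (.lc 3 4 (.lc 3 4 (.lc 3 4 (.lc 3 4 (.lc 4 4 (.lc 4 4 (.lc 4 4 (.lc 4 4 .stop)))))))))))))))))))))))))))))))))))))))))))))))))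
 (.lc 0 0 (.lc 2 6 (.lc 0 0 (.lc 3 6 .stop)))))))))
 (.conf [55,101] (.conf [48,101] (.conf [56,101] (.lc 0 0 (.conf [49,101] (.conf [55,112] (.conf [101,118] (.conf [101,118] (.conf [55,101] (.conf [48,101] (.conf [56,101] (.lc 0 0 (.node [49,101,118,84] 6 5 (.node [84,117] 7 5 (.lc 1 4 (.lc 0 5 (.lc 1 4 (.node [66,112] 7 0 (.far [4096,0,0,1,0,257] 16 .stop)
 (.lc 0 4 (.node [66,132,66] 7 8 (.lc 2 0 (.lc 0 8 (.lc 2 9 (.lc 0 0 (.lc 3 9 (.lc 1 8 (.lc 3 0 (.lc 0 9 (.lc 3 10 (.lc 3 1 (.lc 0 9 (.lc 0 0 (.lc 3 9 (.lc 3 0 (.lc 0 9 (.lc 3 10 (.lc 2 4 (.lc 3 9 (.lc 3 0 (.lc 0 9 (.lc 3 10 (.lc 3 1 (.lc 0 9 (.lc 0 0 (.lc 0 9 (.lc 4 10 (.lc 0 0 (.lc 4 10 (.lc 4 0 (.lc 0 10 (.lc 4 11 (.lc 0 0 (.lc 0 10 (.lc 0 0 (.lc 0 10 (.lc 0 0 (.lc 0 10 (.lc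 4 1 (.lc 0 10 (.lc 0 0 (.lc 0 11 .stop)))))))))))))))))))))))))))))))))))))))))
 (.lc 2 4 (.lc 2 4 (.lc 2 4 (.lc 0 0 (.lc 2 4 (.lc 2 4 (.lc 0 8 (.lc 2 4 (.lc 1 2 (.lc 0 4 (.lc 1 2 (.lc 3 0 (.lc 3 8 (.lc 2 4 (.lc 2 4 (.lc 2 4 (.lc 0 0 (.lc 2 2 (.lc 2 2 (.lc 0 8 (.lc 2 2 (.lc 3 4 (.lc 3 4 (.lc 3 4 (.lc 3 4 (.lc 4 8 (.lc 4 0 (.lc 4 9 (.lc 2 2 (.lc 2 2 (.lc 2 2 (.lc 2 2 (.lc 2 2 (.lc 2 2 (.lc 3 2 (.lc 3 2 (.lc 3 2 (.lc 3 2 .stop))))))))))))))))))))))))))))))))))))))))))))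
 (.lc 2 4 (.lc 2 4 (.node [84,112] 0 5 .stop
 (.node [84,120] 7 8 (.lc 2 0 (.lc 2 4 (.lc 2 9 (.lc 0 2 (.lc 3 9 (.lc 3 0 (.lc 3 0 (.lc 3 9 (.lc 3 0 (.lc 0 2 (.lc 3 10 (.lc 2 5 (.lc 0 4 (.lc 0 9 (.lc 0 2 (.lc 3 9 (.lc 1 2 (.lc 1 2 (.lc 3 0 (.lc 0 2 (.lc 3 10 (.lc 3 4 (.lc 3 9 (.lc 1 2 (.lc 1 8 (.lc 1 2 (.lc 3 0 (.lc 3 4 (.lc 3 10 (.far [1,0,1,0,257] 16 (.lc 0 4 (.lc 0 9 (.lc 0 0 (.lc 0 4 (.lc 0 9 (.lc 1 2 (.lc 0 2 (.lc 4 10 (.lc 2 2 (.lc 1 0 (.lc 2 2 (.lc 2 2 (.lc 0 2 (.lc 4 10 (.lc 1 2 (.lc 1 2 (.lc 4 0 (.lc 0 2 (.lc 4 11 (.lc 0 0 (.lc 0 9 (.lc 0 0 (.lc 0 4 (.lc 0 10 (.lc 0 0 (.lc 0 9 (.lc 0 0 (.lc 0 4 (.lc 0 10 (.lc 0 0 (.lc 0 9 (.lc 0 0 (.lc 0 4 (.lc 0 10 (.lc 2 2 (.lc 0 9 (.node [133,152] 8 5 (.lc 1 4 (.lc 0 4 (.lc 2 4 (.lc 1 2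 (.lc 2 2 .stop)))))
 (.lc 0 4 (.lc 0 10 (.lc 0 0 (.lc 0 10 (.lc 0 0 (.lc 0 10 (.lc 0 0 (.lc 0 4 (.lc 0 11 .stop))))))))))))))))))))))))))))))))))))))))))))))))))))))))))))))))))))))))))))
 (.lc 2 4 (.lc 2 4 (.lc 3 4 (.lc 3 4 (.lc 3 4 .stop))))))))))
 (.lc 0 0 (.conf [49,101] (.conf [56,101] (.conf [56,101] (.conf [48,101] (.conf [57,101] (.lc 0 0 (.conf [49,101] (.lc 0 0 (.node [49,101,118,135,84] 6 5 (.node [84] 7 5 (.lc 1 4 (.lc 1 4 (.lc 1 4 (.node [66,112] 7 0 .stop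
 (.lc 3 5 (.node [66,148,66] 8 7 (.lc 1 9 (.node [137] 8 9 (.lc 2 0 (.lc 2 10 (.lc 1 2 (.lc 1 2 (.lc 2 4 (.lc 0 10 (.lc 3 10 (.lc 3 0 (.lc 3 11 (.lc 1 2 (.lc 1 2 (.lc 0 4 (.lc 0 0 (.lc 2 2 (.lc 2 2 (.lc 2 2 (.lc 0 0 (.lc 0 0 (.lc 0 0 (.lc 2 2 (.lc 0 10 (.lc 0 0 .stop))))))))))))))))))))))
 (.lc 1 9 (.lc 2 5 (.lc 2 5 (.lc 2 9 (.lc 3 0 (.lc 3 10 (.lc 2 9 (.lc 2 9 (.lc 2 9 (.lc 1 4 (.lc 1 4 (.lc 2 9 (.lc 2 9 (.lc 2 5 (.lc 2 5 (.lc 2 5 (.lc 2 5 (.lc 2 9 (.lc 1 7 (.lc 3 0 (.lc 3 10 (.lc 2 9 (.lc 2 9 (.lc 3 5 (.lc 3 5 (.lc 3 5 (.lc 3 9 (.lc 4 10 (.lc 4 0 (.lc 4 11 (.lc 3 9 (.lc 3 9 (.lc 3 9 (.lc 3 5 (.lc 3 5 (.lc 3 5 (.lc 3 5 (.lc 1 9 (.lc 3 5 (.lc 3 5 (.lc 3 5 (.lc 3 5 (.lc 3 5 (.lc 4 5 (.lc 4 5 (.lc 4 5 (.lc 4 5 .stop)))))))))))))))))))))))))))))))))))))))))))))))))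
 (.lc 2 4 (.lc 2 4 (.lc 2 4 (.lc 2 4 (.lc 2 4 (.lc 2 4 (.lc 2 4 (.lc 2 4 (.lc 1 2 (.lc 1 2 (.lc 1 2 (.lc 3 0 (.lc 3 9 (.lc 2 4 (.lc 2 4 (.lc 2 4 (.lc 2 2 (.lc 2 2 (.lc 2 2 (.lc 2 2 (.lc 2 2 (.lc 3 4 (.lc 3 4 (.lc 3 4 (.lc 3 4 (.lc 4 9 (.lc 4 0 (.lc 4 10 (.lc 2 2 (.lc 2 2 (.lc 2 2 (.lc 2 2 (.lc 2 2 (.lc 2 2 (.lc 3 2 (.lc 3 2 (.lc 3 2 (.lc 3 2 .stop))))))))))))))))))))))))))))))))))))))))))))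
 (.lc 2 4 (.lc 2 4 (.node [84,112] 0 5 .stop
 (.node [84,121] 8 7 (.lc 1 9 (.lc 1 9 (.lc 1 9 (.lc 1 5 (.lc 0 2 (.lc 1 5 (.lc 2 9 (.lc 2 9 (.lc 1 2 (.lc 1 7 (.lc 1 2 (.lc 2 9 (.lc 2 9 (.lc 2 9 (.lc 0 2 (.lc 2 9 (.lc 1 2 (.lc 1 2 (.lc 2 9 (.lc 0 2 (.lc 2 9 (.node [128,149] 0 9 (.lc 0 4 (.lc 0 2 .stop))
 (.node [66,132,149] 4 9 .stop
 (.node [138,149] 9 5 (.lc 1 4 (.node [164,66] 8 10 (.lc 2 0 (.lc 2 11 (.lc 1 2 (.lc 1 2 (.lc 2 4 (.lc 0 11 (.lc 3 11 (.lc 3 0 (.lc 3 12 (.lc 1 2 (.lc 1 2 (.lc 0 4 (.lc 0 0 (.lc 2 2 (.lc 2 2 (.lc 2 2 (.lc 0 0 (.lc 0 0 (.lc 0 0 (.lc 2 2 (.lc 0 11 (.lc 0 0 .stop))))))))))))))))))))))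
 (.lc 2 4 (.lc 2 4 (.lc 1 2 (.lc 2 2 (.lc 2 2 .stop)))))))
 (.lc 3 0 (.lc 3 4 (.lc 3 10 (.lc 0 2 (.lc 2 9 (.lc 2 9 (.lc 2 9 (.lc 2 9 (.lc 2 9 (.lc 0 2 (.lc 2 9 (.lc 0 2 (.node [138,149,160] 0 9 .stop
 (.lc 1 2 (.lc 1 2 (.node [128,149,169] 8 0 .stop
 (.lc 0 2 (.node [139,149,169] 9 5 (.lc 1 4 (.lc 0 4 (.lc 2 4 (.lc 2 4 (.lc 1 2 (.lc 2 2 (.lc 2 2 .stop)))))))
 (.lc 1 2 (.lc 0 2 (.lc 3 9 (.lc 2 2 (.lc 1 0 (.lc 2 2 (.lc 2 2 (.lc 0 2 (.lc 3 9 (.lc 1 2 (.lc 1 2 (.lc 3 9 (.lc 0 2 (.lc 3 9 (.lc 0 2 (.lc 4 10 (.lc 1 2 (.lc 1 2 (.lc 4 0 (.lc 0 2 (.lc 4 11 (.lc 0 2 (.lc 4 10 (.lc 4 0 (.lc 4 0 (.lc 4 10 (.lc 4 0 (.lc 0 2 (.lc 4 11 (.lc 4 4 (.lc 4 10 (.lc 1 2 (.lc 1 9 (.lc 1 2 (.lc 4 0 (.lc 4 4 (.lc 4 11 (.lc 1 2 (.lc 0 2 (.lc 5 11 (.lc 2 2 (.lc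 1 0 (.lc 2 2 (.lc 2 2 (.lc 0 2 (.lc 5 11 (.lc 1 2 (.lc 1 2 (.lc 5 0 (.lc 0 2 (.lc 5 12 .stop)))))))))))))))))))))))))))))))))))))))))))))))))))))))))))))))))))))))))))))))))))))))))))))
 (.lc 2 4 (.lc 2 4 (.lc 3 4 (.lc 3 4 (.lc 3 4 .stop))))))))))
 (.lc 0 0 (.node [49,101,118,135,84] 7 6 (.node [84] 7 5 (.lc 1 4 (.lc 1 4 (.lc 3 0 (.lc 3 9 (.lc 2 4 (.lc 2 4 (.lc 2 4 (.lc 2 4 (.lc 2 4 (.lc 1 2 (.lc 1 2 (.node [66] 8 4 (.node [66,128] 0 4 (.far [1,1,257,256,0,257] 0 (.lc 1 2 (.lc 2 2 .stop)))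
 (.conf [20,129] (.conf [32,66] (.node [66,137,148] 4 2 (.lc 2 0 (.conf [32,146] (.lc 2 10 (.lc 2 0 (.lc 2 0 (.lc 3 2 (.lc 3 2 (.lc 0 0 (.lc 3 10 (.lc 0 10 (.lc 3 11 (.lc 2 0 (.lc 2 0 (.lc 2 0 (.lc 3 2 (.lc 3 2 (.lc 3 0 (.lc 3 0 (.lc 4 2 (.lc 4 2 (.lc 3 0 (.lc 3 0 (.lc 3 0 (.lc 4 0 .stop))))))))))))))))))))))))
 (.lc 0 0 (.lc 2 2 (.lc 2 2 (.lc 2 2 (.lc 3 9 (.lc 1 0 (.lc 3 0 (.lc 3 10 (.lc 0 0 (.node [66,137,144] 0 4 (.node [] 1 8 (.node [144] 1 9 .stop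
 (.lc 1 9 (.lc 2 1 (.conf [26,144,169] (.lc 2 9 (.lc 2 1 (.lc 3 1 .stop)))))))
 .stop)
 (.lc 1 0 (.node [66,128,148] 8 0 (.node [] 4 2 (.node [146] 9 2 .stop
 (.lc 2 10 (.lc 3 2 (.conf [32,154,162] (.lc 3 11 (.lc 3 2 (.lc 4 2 .stop)))))))
 .stop)
 (.node [66,138,148,169] 4 2 (.lc 2 0 (.node [146,169] 9 2 (.node [144] 10 9 (.far [1,4096,4112,1,257,256,0,257,1] 4096 (.lc 3 1 (.lc 3 11 (.conf [171,176] (.lc 3 11 (.lc 4 12 .stop))))))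
 (.lc 3 2 (.conf [155,176] (.lc 3 2 (.lc 4 2 .stop)))))
 (.lc 2 11 (.lc 2 0 (.lc 2 0 (.lc 3 2 (.lc 3 2 (.node [144,169] 10 9 (.conf [1,160] (.lc 3 1 (.lc 3 11 .stop)))
 (.lc 3 11 (.conf [32,155,178] (.lc 3 12 (.lc 2 0 (.lc 2 0 (.lc 2 0 (.lc 3 2 (.lc 3 2 (.lc 3 0 (.lc 3 0 (.lc 4 2 (.lc 4 2 (.lc 3 0 (.lc 3 0 (.lc 3 0 (.lc 4 0 .stop))))))))))))))))))))))))
 (.lc 2 2 (.lc 2 2 (.lc 2 2 (.lc 2 2 (.lc 2 2 (.lc 2 2 (.lc 2 2 (.lc 2 2 (.lc 3 9 (.lc 3 0 (.lc 3 9 (.lc 3 0 (.lc 3 10 (.lc 3 2 (.lc 0 0 (.lc 3 2 (.lc 3 2 (.lc 3 2 (.lc 4 10 (.lc 2 0 (.lc 4 10 (.lc 4 0 (.lc 4 11 (.lc 3 2 (.lc 3 2 (.lc 3 2 (.lc 3 2 (.lc 3 2 (.lc 3 2 (.lc 3 2 (.lc 3 2 (.lc 3 2 (.lc 3 2 (.lc 3 2 (.lc 3 2 (.lc 4 2 (.lc 4 2 (.lc 4 2 (.lc 4 2 (.lc 4 2 .stop)))))))))))))))))))))))))))))))))))))))))))))))))))))))))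
 (.lc 2 4 (.lc 2 4 (.lc 2 2 (.lc 2 2 (.lc 2 2 (.lc 3 4 (.lc 3 4 (.lc 3 4 (.lc 0 0 (.lc 0 9 (.lc 2 2 (.lc 2 2 (.lc 2 2 (.lc 2 2 (.lc 3 2 (.lc 3 2 (.lc 3 2 .stop)))))))))))))))))))))))))))))
 (.lc 1 4 (.lc 1 4 (.lc 1 4 (.lc 1 4 (.lc 3 0 (.lc 3 9 (.lc 2 4 (.lc 2 4 (.lc 2 4 .stop))))))))))
 (.lc 0 0 (.node [49,101,118,135,84] 7 6 (.node [84] 7 5 (.lc 1 4 (.lc 1 4 (.lc 3 0 (.lc 3 9 (.lc 2 4 (.lc 2 4 (.lc 2 4 (.lc 2 4 (.lc 2 4 (.lc 1 2 (.lc 1 2 (.lc 0 4 (.lc 2 4 (.lc 2 4 (.lc 2 2 (.lc 2 2 (.lc 2 2 (.lc 3 4 (.lc 3 4 (.lc 3 4 (.node [66,128] 8 0 (.node [] 4 2 (.far [4096,0,1,257,4096,0,257] 4096 (.node [32,73,146] 9 2 .stop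
 (.lc 3 10 (.node [32,74,146,169,146] 9 2 .stop
 (.lc 3 10 (.lc 4 11 .stop))))))
 .stop)
 (.node [66,148,66] 8 9 (.lc 0 9 (.lc 0 0 (.lc 0 10 (.lc 0 0 (.lc 0 10 (.lc 2 4 (.lc 0 10 (.lc 0 0 (.lc 0 11 .stop)))))))))
 (.lc 2 2 (.lc 2 2 (.lc 2 2 (.lc 2 2 (.lc 3 2 (.lc 3 2 (.lc 3 2 .stop)))))))))))))))))))))))))))))
 (.lc 1 4 (.lc 1 4 (.lc 1 4 (.lc 1 4 (.lc 3 0 (.lc 3 9 (.lc 2 4 (.lc 2 4 (.lc 2 4 .stop))))))))))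
 (.lc 0 0 (.node [49,101,118,135,152,84] 7 6 (.node [84] 7 5 (.lc 1 4 (.lc 1 4 (.lc 3 0 (.lc 3 10 (.lc 2 4 (.lc 2 4 (.lc 2 4 (.lc 2 4 (.lc 2 4 (.lc 1 2 (.lc 1 2 (.lc 0 4 (.lc 2 4 (.lc 2 4 (.lc 2 2 (.lc 2 2 (.lc 2 2 (.lc 3 4 (.lc 3 4 (.lc 3 4 (.node [66,128] 8 0 .stop
 (.node [66,164,66] 9 8 (.node [154] 9 10 (.lc 2 0 (.lc 2 11 (.lc 1 2 (.lc 1 2 (.lc 2 4 (.lc 0 11 (.lc 3 11 (.lc 3 0 (.lc 3 12 (.lc 1 2 (.lc 1 2 (.lc 0 4 (.lc 0 0 (.lc 2 2 (.lc 2 2 (.lc 2 2 (.lc 0 0 (.lc 0 0 (.lc 0 0 (.lc 2 2 (.lc 0 11 (.lc 0 0 .stop))))))))))))))))))))))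
 (.lc 3 0 (.lc 3 11 (.lc 1 4 (.lc 1 4 (.lc 3 0 (.lc 3 11 (.lc 4 11 (.lc 4 0 (.lc 4 12 .stop))))))))))
 (.lc 2 2 (.lc 2 2 (.lc 2 2 (.lc 2 2 (.lc 3 2 (.lc 3 2 (.lc 3 2 .stop)))))))))))))))))))))))))))))
 (.lc 1 4 (.lc 1 4 (.lc 1 4 (.lc 1 4 (.lc 3 0 (.lc 3 10 (.lc 2 4 (.lc 2 4 (.lc 2 4 .stop))))))))))
 .stop)))))))))))))))))))))))))))))))
 (.node [53,84,64] 3 5 (.node [54,84,64] 3 6 (.node [101] 6 5 (.lc 2 1 (.node [84,103] 5 4 (.far [257,16,257,256,257,4096] 0 (.lc 0 1 (.lc 0 8 (.lc 0 8 (.far [257,16,257,256,257,4096] 0 (.lc 0 9 .stop))))))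
 (.lc 2 3 (.lc 2 3 (.lc 3 8 (.lc 3 1 (.conf [84,117] (.lc 2 3 (.lc 2 3 (.lc 2 3 (.lc 3 8 (.lc 3 3 (.lc 3 3 (.lc 4 9 (.lc 3 3 (.lc 3 3 (.lc 3 3 (.lc 4 3 .stop))))))))))))))))))
 (.lc 2 5 (.node [101,118] 6 5 (.lc 2 3 (.node [84,104] 5 4 (.node [64] 7 6 (.node [104,116] 4 6 (.lc 0 4 .stop)
 (.lc 1 3 (.node [104,121] 9 6 (.far [16,16,0,257,16,4096] 0 (.lc 3 10 (.far [16,16,0,257,16,4096] 0 (.lc 0 0 (.lc 3 10 (.lc 4 11 .stop))))))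
 (.lc 0 0 (.conf [99,121,152] (.lc 1 6 (.lc 2 3 (.lc 3 4 (.lc 3 10 (.lc 2 3 (.conf [104,150] (.node [99,121,132] 8 4 (.far [257,16,4096,1,16,4096] 0 (.lc 2 0 (.node [154,164] 7 9 (.node [123,154] 9 10 (.far [4112,1,4112,258,256,256] 0 (.lc 2 4 (.lc 0 12 (.lc 2 4 (.lc 3 4 .stop)))))
 (.lc 2 7 (.lc 3 1 (.conf [154,185] (.lc 2 7 (.lc 3 1 (.lc 3 1 (.lc 3 7 (.lc 4 1 (.lc 4 1 .stop))))))))))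
 (.lc 2 0 (.lc 3 0 .stop)))))
 (.lc 3 4 (.lc 3 9 (.lc 3 9 (.lc 0 0 (.lc 2 3 (.lc 3 10 (.conf [99,122,169] (.lc 3 3 (.lc 4 11 (.lc 1 0 (.lc 4 10 (.lc 4 10 (.lc 4 10 (.lc 5 11 .stop))))))))))))))))))))))))))
 (.lc 0 7 (.lc 0 9 (.lc 0 9 (.node [64,148] 9 4 (.node [64,118,151] 7 4 (.far [16,16,257,16,0,16,258] 4114 .stop)
 (.node [64,154] 4 0 (.far [257,16,257,16,0,16,258] 17 (.lc 0 1 (.lc 0 11 (.lc 0 7 .stop))))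
 (.lc 2 0 (.lc 1 4 (.lc 3 7 (.lc 3 11 (.conf [64,164] (.lc 2 0 (.lc 2 0 (.lc 2 0 (.lc 2 0 (.lc 3 7 (.lc 3 10 (.lc 3 11 (.lc 3 0 (.lc 4 12 (.lc 3 0 (.lc 3 0 (.lc 3 0 (.lc 3 0 (.lc 3 0 (.lc 4 0 .stop))))))))))))))))))))))
 (.lc 0 10 .stop))))))
 (.lc 2 3 (.lc 2 3 (.lc 3 9 (.lc 3 3 (.conf [84,133] (.lc 2 3 (.lc 2 3 (.lc 2 3 (.lc 3 9 (.lc 3 3 (.lc 3 3 (.lc 4 10 (.lc 3 3 (.lc 3 3 (.lc 3 3 (.lc 4 3 .stop))))))))))))))))))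
 (.lc 2 5 (.lc 3 5 .stop)))))
 (.conf [55,84] (.conf [49,84] (.conf [84,101] (.conf [55,84] (.node [49,84,101] 6 5 (.far [16,256,257,4096] 17 (.node [64,103] 6 7 (.lc 2 8 (.lc 3 9 (.lc 0 8 (.lc 3 9 (.lc 3 9 (.lc 2 4 (.lc 0 8 (.lc 0 0 (.lc 0 8 (.lc 4 10 (.lc 0 9 (.lc 0 9 (.lc 0 0 (.lc 0 9 (.lc 0 9 (.lc 0 10 .stop))))))))))))))))
 (.far [16,256,257,4096] 17 (.node [103,116,64] 6 7 (.lc 2 8 (.lc 3 9 (.lc 0 8 (.lc 3 9 (.lc 3 9 (.conf [7,116] (.lc 0 8 (.lc 0 0 (.lc 0 8 (.lc 4 10 (.lc 0 9 (.lc 0 9 (.lc 0 0 (.lc 0 9 (.lc 0 9 (.lc 0 10 .stop))))))))))))))))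
 (.node [64,104,116] 6 8 (.lc 2 9 (.lc 3 10 (.lc 0 9 (.lc 3 10 (.lc 3 10 (.conf [8,135] (.lc 0 9 (.lc 0 0 (.lc 0 9 (.lc 4 11 (.lc 0 10 (.lc 0 10 (.lc 0 0 (.lc 0 10 (.lc 0 10 (.lc 0 11 .stop))))))))))))))))
 .stop)))))
 (.conf [49,84] (.conf [56,84] (.conf [49,84] (.node [49,84,101,118] 6 5 (.node [100,64] 7 6 (.lc 1 4 (.node [100,120] 1 7 (.lc 1 8 (.lc 2 4 (.lc 2 9 (.lc 3 9 (.lc 3 0 (.lc 3 0 (.lc 1 7 (.lc 3 10 (.conf [8,134] (.lc 3 4 (.lc 3 9 (.lc 3 0 (.lc 3 0 (.lc 1 8 (.lc 4 10 (.lc 4 0 (.lc 4 0 (.lc 4 0 (.lc 4 0 (.lc 4 0 (.lc 5 0 .stop)))))))))))))))))))))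
 (.lc 2 4 (.lc 1 0 (.lc 3 9 (.lc 1 0 (.node [100,121,134] 8 6 (.node [64] 8 4 (.lc 2 0 (.lc 1 0 (.lc 2 0 (.lc 2 0 (.lc 2 0 (.lc 0 7 (.lc 2 0 (.conf [1,144] (.lc 2 0 (.lc 3 0 (.lc 3 0 (.lc 1 7 .stop))))))))))))
 (.lc 1 4 (.lc 2 4 (.lc 1 0 (.lc 2 4 (.lc 1 0 (.lc 2 4 (.lc 1 0 (.lc 1 0 (.lc 2 4 (.lc 3 10 (.lc 2 4 (.lc 2 0 (.lc 2 0 (.lc 3 4 (.lc 3 4 (.lc 2 0 (.lc 2 0 (.lc 3 0 .stop)))))))))))))))))))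
 (.lc 2 4 (.lc 2 4 (.lc 2 4 (.lc 3 9 (.lc 3 4 (.lc 2 0 (.lc 4 10 (.lc 3 4 (.lc 3 4 (.lc 3 4 (.lc 4 4 .stop))))))))))))))))))
 (.node [64,104] 7 6 (.lc 1 8 (.node [121,132] 8 4 (.lc 1 0 (.lc 1 0 (.conf [1,144] (.lc 3 10 (.lc 2 0 (.lc 2 0 (.lc 2 0 (.lc 0 7 (.lc 0 7 (.lc 3 10 (.lc 2 0 (.lc 3 0 (.lc 4 11 (.lc 1 7 .stop))))))))))))))
 (.lc 2 8 (.lc 2 8 (.lc 1 4 (.lc 3 9 (.lc 2 8 (.lc 2 4 (.lc 3 8 (.lc 4 10 (.lc 4 10 (.lc 4 10 (.lc 5 11 .stop)))))))))))))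
 (.node [64,104] 8 4 (.lc 1 0 (.lc 1 0 (.lc 3 9 (.lc 2 0 (.lc 2 0 (.lc 2 0 (.lc 0 7 (.lc 0 7 (.lc 0 6 (.node [1,137] 6 8 (.conf [105,144] (.lc 3 10 (.lc 3 5 (.lc 1 0 (.lc 3 10 (.lc 4 11 .stop))))))
 (.lc 1 4 (.lc 2 0 (.lc 2 0 (.lc 1 0 (.lc 3 0 (.lc 1 0 (.conf [1,144] (.far [257,1,4096,4096,257] 4096 (.lc 1 7 (.lc 1 0 (.lc 2 0 .stop)))))))))))))))))))))
 (.node [64,132,64] 7 6 (.lc 1 8 (.lc 1 4 (.lc 2 8 (.lc 2 8 (.node [121,132] 8 4 (.node [64] 7 9 (.lc 0 0 (.lc 2 10 (.lc 3 11 (.lc 0 10 (.lc 3 11 (.lc 3 11 (.lc 2 4 (.lc 0 10 (.lc 0 0 (.lc 4 12 (.lc 0 0 (.lc 0 0 (.lc 0 11 .stop)))))))))))))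
 (.lc 2 0 (.node [64,154] 7 9 (.lc 2 11 (.lc 3 11 (.lc 0 11 (.lc 3 12 (.lc 3 11 (.lc 0 10 (.lc 0 0 (.lc 4 12 (.lc 0 0 (.lc 0 11 .stop))))))))))
 (.lc 2 0 (.lc 3 0 .stop)))))
 (.lc 3 9 (.lc 2 8 (.node [122,132,152] 8 4 (.node [64] 9 4 (.lc 2 0 (.lc 1 0 (.lc 2 0 (.lc 2 0 (.lc 2 0 (.lc 0 7 (.lc 2 0 (.conf [1,160] (.lc 2 0 (.lc 3 0 (.lc 3 0 (.lc 1 7 .stop))))))))))))
 (.lc 2 0 (.lc 0 11 (.lc 2 0 (.lc 3 0 .stop)))))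
 (.lc 3 8 (.lc 4 10 (.lc 4 10 (.lc 4 10 (.lc 5 11 .stop)))))))))))))
 (.node [64,105,132] 7 6 (.lc 1 9 (.lc 1 8 (.lc 2 9 (.lc 2 9 (.node [122,152] 9 8 (.node [132] 8 4 (.lc 1 0 (.lc 3 11 (.lc 2 0 (.lc 2 0 (.lc 0 7 (.conf [1,160] (.lc 2 0 (.lc 3 0 (.lc 0 11 (.lc 1 7 .stop))))))))))
 (.lc 2 4 (.node [132,171] 7 10 (.lc 2 12 (.lc 3 12 (.lc 0 12 (.lc 3 13 (.lc 3 12 (.lc 0 11 (.lc 0 0 (.lc 4 13 (.lc 0 0 (.lc 0 12 .stop))))))))))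
 (.lc 2 4 (.lc 3 4 .stop)))))
 (.lc 3 10 (.lc 2 9 (.node [123,152,169] 10 9 (.node [132] 8 4 (.lc 1 0 (.lc 1 0 (.lc 3 12 (.lc 2 0 (.lc 2 0 (.lc 0 7 (.lc 0 0 (.lc 2 0 (.lc 3 0 (.conf [1,176] .stop))))))))))
 (.lc 1 4 (.lc 1 4 (.lc 3 12 (.lc 2 4 .stop)))))
 (.lc 3 9 (.lc 4 11 (.lc 4 11 (.lc 4 11 (.lc 5 12 .stop)))))))))))))
 .stop)))))
 (.node [49,84,101,118] 6 5 (.node [100,64] 6 4 (.lc 1 0 (.lc 2 8 (.lc 2 0 (.node [64,132,120] 8 4 (.conf [1,128] (.lc 1 0 (.lc 2 0 (.lc 0 7 (.lc 2 0 (.lc 2 0 (.lc 0 7 (.lc 0 7 (.lc 2 0 (.lc 3 9 (.lc 2 0 (.lc 3 0 (.lc 3 0 (.lc 1 7 .stop))))))))))))))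
 (.lc 3 9 (.lc 2 0 (.lc 2 0 (.lc 2 0 (.lc 0 8 (.lc 3 0 (.lc 0 9 (.lc 3 0 (.lc 3 0 (.lc 3 0 (.lc 4 0 .stop)))))))))))))))
 (.lc 3 8 (.node [64,104] 6 8 (.lc 2 9 (.lc 3 10 (.node [121,152,121] 8 4 (.lc 1 0 (.lc 3 10 (.lc 2 0 (.lc 2 0 (.lc 0 7 (.conf [1,144] (.lc 2 0 (.lc 3 0 (.lc 0 10 (.lc 1 7 .stop))))))))))
 (.lc 3 10 (.lc 3 10 (.lc 2 4 (.lc 0 9 (.lc 4 11 (.lc 0 10 (.lc 0 10 (.lc 0 10 (.lc 3 4 (.lc 0 11 .stop)))))))))))))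
 (.lc 3 8 (.lc 4 9 .stop)))))
 (.node [49,84,101,118] 6 5 (.far [16,256,257,4096] 17 (.lc 3 8 (.far [16,256,257,4096] 17 (.lc 3 8 (.lc 4 9 .stop)))))
 (.node [49,84,101,118,135] 6 5 (.node [100,64] 7 6 (.lc 1 4 (.lc 3 9 (.lc 2 4 (.lc 2 4 (.lc 1 0 (.lc 1 0 (.node [64,121] 8 7 (.node [137] 9 4 (.conf [1,144] (.lc 1 0 (.lc 1 0 (.lc 2 0 (.lc 0 8 (.lc 2 0 (.lc 2 0 (.lc 0 8 (.lc 0 8 (.lc 2 0 (.lc 3 10 (.lc 2 0 (.lc 1 0 (.lc 3 0 (.lc 3 0 (.lc 1 8 .stop))))))))))))))))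
 (.lc 3 10 (.node [138,148] 9 4 (.lc 2 0 (.lc 1 0 (.lc 2 0 (.lc 2 0 (.lc 2 0 (.lc 0 8 (.lc 2 0 (.conf [1,160] (.lc 2 0 (.lc 3 0 (.lc 3 0 (.lc 1 8 .stop))))))))))))
 (.lc 3 10 (.lc 4 11 .stop)))))
 (.lc 2 4 (.lc 2 0 (.lc 3 4 (.node [64,122,148] 8 7 (.node [138] 8 10 (.lc 2 11 (.lc 3 11 (.lc 0 11 (.lc 3 12 (.lc 3 11 (.lc 0 9 (.lc 0 0 (.lc 4 12 (.lc 0 0 (.lc 0 11 .stop))))))))))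
 (.lc 3 11 (.lc 1 9 (.lc 3 11 (.lc 4 12 .stop)))))
 (.lc 2 0 (.lc 2 0 (.lc 3 0 .stop))))))))))))))
 (.lc 3 9 (.node [64,105] 7 6 (.lc 1 9 (.lc 3 10 (.lc 2 9 (.lc 2 9 (.lc 3 10 (.node [122,148] 8 7 (.node [138] 9 4 (.lc 1 0 (.lc 3 11 (.lc 2 0 (.lc 2 0 (.lc 0 8 (.conf [1,160] (.lc 2 0 (.lc 3 0 (.lc 0 11 (.lc 1 8 .stop))))))))))
 (.lc 3 11 (.node [139,169] 10 9 (.lc 1 4 (.lc 1 0 (.lc 2 4 (.lc 2 4 (.lc 3 0 (.lc 1 0 (.lc 2 4 (.lc 3 4 (.lc 2 0 (.conf [1,176] .stop))))))))))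
 (.lc 3 11 (.lc 4 12 .stop)))))
 (.lc 2 9 (.lc 4 11 (.lc 3 9 (.node [123,148,169] 8 7 (.node [139] 9 4 (.lc 1 0 (.lc 3 12 (.lc 2 0 (.lc 2 0 (.lc 0 8 (.conf [1,160] (.lc 2 0 (.lc 3 0 (.lc 0 12 (.lc 1 8 .stop))))))))))
 (.lc 3 12 (.lc 1 10 (.lc 3 12 (.lc 4 13 .stop)))))
 (.lc 2 4 (.lc 2 4 (.lc 3 4 .stop)))))))))))))
 (.lc 3 9 (.lc 4 10 .stop)))))
 .stop)))))))))))))
 (.asm [54,66,84,101,54,84,66] 7 (.node [53,64,84,53,64] 3 5 (.lc 2 6 (.lc 3 7 (.node [84,101] 6 5 (.lc 0 0 (.lc 1 4 (.lc 2 4 (.node [64,103] 6 7 (.lc 0 7 (.lc 0 0 (.lc 0 8 (.lc 0 8 (.lc 0 8 (.lc 0 9 .stop))))))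
 (.lc 2 4 (.lc 3 7 (.lc 2 4 (.lc 2 4 (.lc 2 4 (.lc 1 0 (.lc 2 4 (.lc 3 4 (.node [64,104,116] 6 8 (.lc 0 8 (.lc 0 0 (.lc 0 9 (.lc 0 9 (.lc 0 9 (.lc 0 10 .stop))))))
 (.lc 3 4 (.lc 3 4 (.lc 3 4 (.lc 3 4 (.lc 4 4 .stop))))))))))))))))))
 (.lc 3 7 (.lc 3 7 (.lc 2 4 (.node [84,101] 5 4 (.lc 1 0 (.lc 1 0 (.lc 0 7 (.lc 3 8 (.lc 2 0 (.lc 2 0 (.lc 2 0 (.node [64,116,103] 7 4 (.conf [1,112] (.lc 0 6 (.lc 3 8 .stop)))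
 (.lc 3 8 (.lc 3 8 (.lc 2 0 (.lc 0 8 (.lc 4 9 (.lc 3 0 (.lc 4 9 (.lc 4 9 (.lc 4 9 (.lc 5 10 .stop))))))))))))))))))
 (.lc 4 8 (.node [84,101,118] 6 5 (.lc 0 0 (.lc 1 4 (.lc 2 4 (.node [64,104] 7 6 (.node [120] 8 4 (.conf [1,128] (.lc 0 7 (.lc 3 9 .stop)))
 (.lc 3 9 (.node [121,132] 8 4 (.lc 2 0 (.conf [1,144] .stop))
 (.lc 3 9 (.lc 4 10 .stop)))))
 (.lc 2 4 (.lc 3 8 (.lc 2 4 (.lc 2 4 (.lc 2 4 (.lc 1 0 (.lc 2 4 (.lc 3 4 (.node [64,105,132] 7 6 (.node [121] 8 4 (.conf [1,128] (.lc 0 7 (.lc 3 10 .stop)))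
 (.lc 3 10 (.lc 1 8 (.lc 3 10 (.lc 4 11 .stop)))))
 (.lc 3 4 (.lc 3 4 (.lc 3 4 (.lc 3 4 (.lc 4 4 .stop))))))))))))))))))
 (.lc 3 4 (.lc 3 4 (.lc 3 4 (.lc 4 4 .stop)))))))))))))
 (.node [54,84,101,54,84,66] 3 6 (.lc 2 0 (.lc 2 7 (.lc 3 7 (.lc 3 0 (.lc 3 8 (.lc 0 0 (.node [101,118] 7 6 (.lc 1 5 (.lc 0 4 (.lc 1 5 (.lc 2 5 (.lc 2 5 (.lc 2 5 (.lc 2 5 (.node [84,112] 0 5 (.conf [4,66] (.lc 1 2 .stop))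
 (.node [84,120] 5 4 (.node [66] 7 8 (.lc 0 8 (.lc 0 0 (.lc 0 9 (.lc 0 0 (.lc 0 9 (.lc 2 4 (.lc 0 9 (.lc 0 0 (.lc 0 10 .stop)))))))))
 (.lc 2 2 (.lc 1 7 (.lc 2 2 (.node [66,128] 0 4 .stop
 (.node [66,137] 7 8 (.lc 0 8 (.lc 0 9 (.lc 0 0 (.lc 0 10 (.lc 0 9 (.lc 0 0 (.lc 0 10 .stop)))))))
 (.lc 2 2 (.lc 2 2 (.lc 1 7 (.lc 3 2 (.lc 3 2 (.lc 3 2 .stop))))))))))))
 (.lc 2 5 (.lc 2 5 (.lc 2 5 (.lc 3 0 (.lc 3 8 (.lc 2 5 (.lc 2 5 (.lc 2 5 (.lc 2 5 (.lc 2 5 (.lc 2 5 (.lc 2 5 (.lc 2 5 (.lc 2 5 (.lc 1 4 (.lc 1 4 (.lc 2 5 (.lc 2 5 (.lc 3 5 (.lc 3 5 (.lc 3 5 (.lc 3 5 (.lc 3 5 (.node [84,120,128] 0 5 .stop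
 (.node [84,112,133] 7 0 (.node [] 8 5 (.node [66] 8 4 (.lc 1 2 (.lc 1 0 (.lc 2 2 (.far [1,257,0,257,4096,0,257] 4096 .stop))))
 (.lc 1 2 (.lc 1 2 (.lc 3 9 (.lc 2 2 .stop)))))
 .stop)
 (.node [84,121,133] 7 9 (.lc 0 9 (.lc 0 0 (.lc 0 4 (.lc 0 10 (.lc 0 0 (.lc 0 10 (.lc 2 8 (.lc 0 10 (.lc 0 0 (.lc 0 11 .stop))))))))))
 (.lc 3 5 (.lc 3 5 (.lc 3 5 (.lc 3 5 (.lc 3 5 (.lc 3 5 (.lc 3 5 (.lc 3 5 (.lc 3 5 (.lc 3 5 (.lc 3 5 (.lc 3 5 (.lc 3 5 (.lc 3 5 (.lc 3 5 (.lc 4 5 (.lc 4 5 (.lc 4 5 (.lc 4 5 (.lc 4 5 .stop)))))))))))))))))))))))))))))))))))))))))))))))))))))))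
 (.lc 3 7 (.lc 3 0 (.lc 3 8 (.lc 3 7 (.lc 3 0 (.lc 3 8 (.lc 0 0 (.lc 2 5 (.lc 0 0 (.node [101,118] 6 5 (.lc 1 4 (.lc 1 4 (.lc 1 4 (.lc 0 0 (.lc 3 8 (.lc 3 0 (.lc 0 8 (.lc 3 9 (.lc 2 4 (.lc 2 4 (.lc 2 4 (.lc 2 4 (.lc 2 4 (.lc 2 4 (.lc 2 4 (.lc 2 4 (.node [84,112] 0 5 .stop
 (.lc 3 8 (.lc 3 0 (.node [84,133,120] 8 5 (.node [66] 7 8 (.lc 2 0 (.lc 0 8 (.lc 2 9 (.lc 1 2 (.lc 1 2 (.lc 3 9 (.lc 3 0 (.lc 3 10 (.lc 0 0 (.lc 3 9 (.lc 3 0 (.lc 3 10 (.lc 0 0 (.lc 1 2 (.lc 1 2 (.lc 3 9 (.lc 1 8 (.lc 3 0 (.lc 3 10 (.lc 1 0 (.lc 4 10 (.lc 4 10 (.lc 4 0 (.lc 4 11 (.lc 2 2 (.lc 2 2 (.lc 2 2 (.lc 4 0 (.lc 1 0 (.lc 1 0 (.lc 2 0 .stop)))))))))))))))))))))))))))))))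
 (.lc 1 2 (.lc 1 2 (.lc 1 2 (.lc 1 2 (.lc 3 0 (.lc 3 9 (.lc 2 2 (.lc 2 2 (.lc 2 2 .stop))))))))))
 (.lc 3 9 (.lc 3 8 (.lc 3 0 (.lc 3 9 (.lc 2 4 (.lc 2 4 (.lc 2 4 (.lc 0 8 (.lc 4 9 (.lc 0 0 (.lc 4 9 (.lc 4 0 (.lc 0 9 (.lc 4 10 (.lc 3 4 (.lc 3 4 (.lc 3 4 (.lc 3 4 (.lc 4 9 (.lc 4 9 (.lc 4 0 (.lc 4 10 (.lc 4 9 (.lc 4 9 (.lc 4 0 (.lc 4 10 (.lc 4 9 (.lc 4 9 (.lc 4 0 (.lc 4 10 (.lc 5 10 (.lc 5 10 (.lc 5 10 (.lc 5 0 (.lc 5 11 .stop)))))))))))))))))))))))))))))))))))))))))))))))))))))))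
 (.lc 4 8 (.lc 4 8 (.lc 4 0 (.lc 4 9 (.lc 0 0 (.node [101,118,135] 7 6 (.lc 1 5 (.lc 0 4 (.lc 1 5 (.lc 2 5 (.lc 2 5 (.lc 2 5 (.lc 2 5 (.node [84,112] 0 5 (.conf [4,66] (.lc 1 2 .stop))
 (.node [84,121] 8 7 (.node [137] 9 5 (.node [66] 8 9 (.lc 2 0 (.lc 0 2 (.lc 2 10 (.lc 1 2 (.lc 1 2 (.lc 2 4 (.lc 0 10 (.lc 3 10 (.lc 3 0 (.lc 3 11 (.lc 0 0 (.lc 0 4 (.lc 0 0 (.lc 1 0 (.lc 0 0 (.lc 0 0 .stop))))))))))))))))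
 (.lc 1 2 (.lc 1 2 (.lc 1 2 (.lc 1 2 (.lc 3 0 (.lc 3 10 (.lc 2 2 (.lc 2 2 (.lc 2 2 .stop))))))))))
 (.lc 3 0 (.lc 0 2 (.lc 3 10 (.node [128,149] 8 0 .stop
 (.node [138,149] 9 5 (.lc 2 4 (.lc 1 2 (.lc 1 2 (.lc 1 2 (.node [66] 8 10 (.lc 0 2 .stop)
 (.lc 2 2 (.lc 2 2 .stop)))))))
 (.lc 3 0 (.lc 3 10 (.lc 4 10 (.lc 4 0 (.lc 4 11 .stop)))))))))))
 (.lc 2 5 (.lc 2 5 (.lc 2 5 (.lc 3 0 (.lc 3 9 (.lc 2 5 (.lc 2 5 (.lc 2 5 (.lc 2 5 (.lc 2 5 (.lc 2 5 (.lc 2 5 (.lc 2 5 (.lc 2 5 (.lc 1 4 (.lc 1 4 (.lc 2 5 (.lc 2 5 (.lc 3 5 (.lc 3 5 (.lc 3 5 (.lc 3 5 (.lc 3 5 (.node [84,121,144] 0 5 .stop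
 (.node [84,112,149] 7 0 .stop
 (.node [84,122,149] 8 7 (.node [138] 9 5 (.node [66] 10 9 (.lc 1 4 (.lc 1 4 (.lc 1 2 (.lc 1 2 (.lc 0 0 (.lc 0 11 (.lc 2 4 (.lc 2 4 (.lc 2 4 (.lc 0 0 (.lc 1 2 (.lc 1 9 (.lc 1 0 (.lc 1 0 .stop))))))))))))))
 (.lc 1 2 (.lc 1 2 (.lc 1 2 (.lc 1 2 (.lc 3 0 (.lc 3 11 (.lc 2 2 (.lc 2 2 (.lc 2 2 .stop))))))))))
 (.lc 3 0 (.lc 0 2 (.lc 3 11 (.lc 1 9 (.lc 1 9 (.lc 3 0 (.lc 3 11 (.lc 4 11 (.lc 4 0 (.lc 4 12 .stop)))))))))))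
 (.lc 3 5 (.lc 3 5 (.lc 3 5 (.lc 3 5 (.lc 3 5 (.lc 3 5 (.lc 3 5 (.lc 3 5 (.lc 3 5 (.lc 3 5 (.lc 3 5 (.lc 3 5 (.lc 3 5 (.lc 3 5 (.lc 3 5 (.lc 4 5 (.lc 4 5 (.lc 4 5 (.lc 4 5 (.lc 4 5 .stop)))))))))))))))))))))))))))))))))))))))))))))))))))))))
 (.lc 0 0 (.lc 3 5 (.lc 0 0 (.lc 3 5 (.lc 0 0 (.lc 3 5 (.lc 0 0 (.lc 4 5 .stop)))))))))))))))))))))))))))))))
 (.node [54,101,84,64] 3 6 (.node [55,101,84,64] 3 7 (.node [118] 6 5 (.node [84,97] 6 1 (.lc 0 1 .stop)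
 (.node [84,104] 7 6 (.node [120] 5 4 (.node [64,81] 5 1 .stop
 (.node [64,89] 8 5 (.far [1,4112,2,8208,8224,8192,4112,513] 4096 (.lc 3 1 (.lc 3 10 (.lc 1 4 (.lc 3 10 (.lc 4 11 .stop))))))
 (.lc 2 0 (.lc 2 0 (.lc 3 4 (.conf [64,148] (.lc 2 0 (.lc 2 0 (.lc 2 0 (.lc 2 0 (.lc 2 0 (.lc 2 0 (.lc 3 4 (.lc 3 4 (.lc 3 0 (.lc 4 4 (.lc 3 0 (.lc 3 0 (.lc 3 0 (.lc 3 0 (.lc 3 0 (.lc 3 0 (.lc 4 0 .stop)))))))))))))))))))))))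
 (.lc 3 9 (.lc 3 1 (.lc 1 5 (.lc 3 9 (.lc 4 10 .stop))))))
 (.lc 2 4 (.lc 2 4 (.lc 3 3 (.lc 3 3 (.conf [84,133] (.lc 2 4 (.lc 2 4 (.lc 2 4 (.lc 2 4 (.lc 3 3 (.lc 3 4 (.lc 4 3 (.lc 3 4 (.lc 3 4 (.lc 3 4 (.lc 3 4 (.lc 4 4 .stop)))))))))))))))))))
 (.lc 2 6 (.node [118,135] 6 5 (.node [84,104,135] 6 8 (.lc 0 3 .stop)
 (.node [84,105] 7 6 (.node [121] 5 4 (.node [64,88,135] 5 8 .stop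
 (.node [64,90] 9 5 (.far [1,4112,2,8208,8224,8192,4112,513] 4096 (.lc 3 8 (.lc 3 11 (.lc 1 4 (.lc 3 11 (.lc 4 12 .stop))))))
 (.lc 2 0 (.lc 2 0 (.lc 2 0 (.lc 3 4 (.conf [64,164] (.lc 2 0 (.lc 2 0 (.lc 2 0 (.lc 2 0 (.lc 2 0 (.lc 2 0 (.lc 3 4 (.lc 3 4 (.lc 3 0 (.lc 4 4 (.lc 3 0 (.lc 3 0 (.lc 3 0 (.lc 3 0 (.lc 3 0 (.lc 3 0 (.lc 3 0 (.lc 4 0 .stop)))))))))))))))))))))))))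
 (.lc 3 10 (.lc 3 3 (.lc 1 5 (.lc 3 10 (.lc 4 11 .stop))))))
 (.lc 2 4 (.lc 2 4 (.lc 2 4 (.lc 3 3 (.lc 3 3 (.conf [84,149] (.lc 2 4 (.lc 2 4 (.lc 2 4 (.lc 2 4 (.lc 3 3 (.lc 3 4 (.lc 4 3 (.lc 3 4 (.lc 3 4 (.lc 3 4 (.lc 3 4 (.lc 4 4 .stop))))))))))))))))))))
 (.lc 2 6 (.lc 3 6 .stop)))))
 (.conf [56,101] (.conf [49,101] (.conf [101,118] (.conf [56,101] (.node [49,101,118,84,64] 6 5 (.node [84,117] 5 4 (.lc 0 7 (.lc 1 0 (.lc 1 7 (.lc 3 9 (.lc 1 4 (.lc 2 0 (.lc 2 0 (.lc 0 7 (.lc 3 9 (.lc 1 4 (.node [64,120] 8 4 (.conf [1,128] (.lc 0 7 (.lc 0 7 (.lc 0 7 (.conf [1,144] (.lc 1 7 .stop))))))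
 (.lc 2 0 (.lc 4 10 (.lc 3 0 (.lc 0 9 (.lc 0 9 (.lc 1 8 (.node [64,121,132] 8 4 (.conf [1,128] (.lc 0 7 (.lc 0 7 (.lc 0 7 (.lc 3 10 (.lc 1 7 .stop))))))
 (.lc 0 10 .stop)))))))))))))))))))
 (.lc 2 4 (.node [84,120] 7 8 (.lc 0 0 (.lc 2 9 (.lc 1 0 (.lc 3 10 (.lc 0 9 (.lc 3 10 (.lc 1 8 (.lc 0 0 (.lc 3 10 (.conf [8,133] (.lc 0 4 (.lc 0 9 (.lc 0 0 (.lc 0 4 (.lc 0 9 (.lc 4 11 (.lc 0 0 (.lc 0 10 (.lc 0 0 (.lc 0 9 (.lc 0 10 (.lc 0 0 (.lc 0 0 (.lc 0 4 (.lc 0 10 (.lc 2 8 (.lc 0 10 (.lc 0 0 (.lc 0 11 .stop)))))))))))))))))))))))))))))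
 (.lc 2 4 (.lc 3 4 .stop)))))
 (.conf [49,101] (.conf [57,101] (.conf [49,101] (.node [49,101,118,135,84,64] 6 5 (.node [84] 5 4 (.lc 1 0 (.lc 1 0 (.lc 1 4 (.lc 3 9 (.lc 3 10 (.lc 2 0 (.lc 2 0 (.lc 2 0 (.lc 3 8 (.lc 3 10 (.lc 0 5 (.node [64,121] 9 4 (.conf [1,144] (.lc 0 8 (.conf [1,160] (.lc 1 0 .stop))))
 (.lc 2 0 (.lc 4 11 (.lc 3 0 (.lc 0 10 (.lc 0 10 (.lc 0 5 (.node [64,122,148] 9 4 (.conf [1,144] (.lc 0 8 (.lc 3 11 (.lc 1 0 .stop))))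
 (.lc 0 11 .stop))))))))))))))))))))
 (.lc 2 4 (.node [84,121] 8 7 (.lc 0 0 (.lc 1 9 (.lc 1 5 (.lc 1 7 (.lc 0 0 (.lc 2 9 (.lc 2 9 (.lc 0 0 (.node [138,149] 9 5 (.lc 1 4 (.lc 1 0 (.lc 2 4 (.node [64] 10 4 (.conf [1,160] (.lc 0 8 (.lc 3 11 .stop)))
 (.node [64,171] 11 4 (.conf [1,176] (.lc 0 8 (.lc 3 12 .stop)))
 .stop)))))
 (.lc 0 0 (.lc 3 10 (.lc 1 0 (.lc 2 9 (.node [139,149,169] 9 5 (.lc 1 4 (.lc 1 0 (.lc 2 4 (.node [64] 10 4 (.lc 2 0 (.conf [1,176] .stop))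
 (.lc 0 12 .stop)))))
 (.lc 3 9 (.lc 4 11 (.lc 1 0 (.lc 4 11 (.lc 1 9 (.lc 0 0 (.lc 4 11 (.lc 5 12 .stop))))))))))))))))))))))
 (.lc 2 4 (.lc 3 4 .stop)))))
 (.node [49,101,118,135,84,64] 7 6 (.node [84] 7 5 (.lc 1 4 (.lc 1 0 (.lc 2 4 (.lc 2 4 (.lc 3 9 (.lc 1 0 (.lc 2 4 (.lc 4 10 (.lc 3 4 (.lc 2 0 (.lc 0 9 (.node [64,148,137] 9 4 (.conf [1,144] (.lc 0 8 (.lc 3 10 .stop)))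
 (.lc 0 10 .stop)))))))))))))
 (.lc 1 4 (.lc 1 4 (.lc 3 9 (.lc 2 4 .stop)))))
 (.node [49,101,118,135,84,64] 7 6 (.node [84] 7 5 (.lc 1 4 (.lc 1 0 (.lc 2 4 (.lc 2 4 (.lc 3 9 (.lc 1 0 (.lc 2 4 (.lc 4 10 (.lc 3 4 (.lc 2 0 (.node [64,137] 8 9 (.lc 0 9 (.lc 0 0 (.lc 0 10 (.lc 0 10 (.lc 0 10 (.lc 0 11 .stop))))))
 (.lc 0 9 (.node [64,138,148] 8 10 (.lc 0 10 (.lc 0 0 (.lc 0 11 (.lc 0 11 (.lc 0 11 (.lc 0 12 .stop))))))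
 .stop)))))))))))))
 (.lc 1 4 (.lc 1 4 (.lc 3 9 (.lc 2 4 .stop)))))
 (.node [49,101,118,135,152,84,64] 7 6 (.node [84] 7 5 (.lc 1 4 (.lc 1 0 (.lc 2 4 (.lc 2 4 (.lc 3 10 (.lc 1 0 (.lc 2 4 (.lc 4 11 (.lc 3 4 (.lc 2 0 (.node [64,138] 9 8 (.node [154] 10 4 (.conf [1,160] (.lc 0 9 (.lc 3 11 .stop)))
 (.lc 3 11 (.node [155,164] 10 4 (.lc 2 0 (.conf [1,176] .stop))
 (.lc 3 11 (.lc 4 12 .stop)))))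
 (.lc 0 10 (.node [64,139,164] 9 8 (.node [155] 10 4 (.conf [1,160] (.lc 0 9 (.lc 3 12 .stop)))
 (.lc 3 12 (.lc 1 10 (.lc 3 12 (.lc 4 13 .stop)))))
 .stop)))))))))))))
 (.lc 1 4 (.lc 1 4 (.lc 3 10 (.lc 2 4 .stop)))))
 .stop)))))))))))))
 (.asm [55,118,101,84,66] 8 .stop))))))))))))))))))))))))))

theorem t1 : kNode2 awTt FTt 3 2 (check tyTt awTt triet FTt [s2, s14, s16, s17, s18, s19, s21, s22, s23] c1) (fun _ _ _ => true) 0 s1 Pl.nil s1 =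
    true := by
  decide +kernel

end Chk
end Pool.Agent.Lib.MP_ba95e8_co
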