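import Pool.Agent.Lib.MP_ba95e8_co.ChkTab
import Pool.Agent.Lib.MP_ba95e8_co.ChkStates

/-!
Deltahedral domes: part 10 of the case analysis.
-/

namespace Pool.Agent.Lib.MP_ba95e8_co
namespace Chk

/-- certificate number 10 -/
def c10 : Cert := (.node [66,80,49,101] 5 0 (.node [96] 6 0 (.lc 2 0 (.node [66] 6 4 (.node [32,98] 1 6 .stop
 (.far [16,4096,0,16,0,16,4096] 0 .stop))
 (.lc 3 7 .stop)))
 (.far [4112,4112,4096,16,4112,256] 0 .stop))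
 (.lc 1 2 (.node [66,87,49,101] 6 5 (.node [103] 1 6 (.node [] 6 7 (.node [96,116] 7 4 (.lc 2 0 (.lc 1 2 (.node [66,120] 7 8 (.node [8] 8 4 (.node [32] 8 2 (.far [4096,0,4096,0,1,0,257,0,4096,0,0,257] 4096 (.node [137] 0 8 .stop
 (.node [138,169,138,146] 8 10 .stop
 .stop)))
 (.node [32,137,146,66] 8 9 .stop
 (.far [16,0,16,0,0,0,16,0,16,4096] 0 (.far [1,0,1,0,0,0,1,0,1,256] 0 (.node [32,138,169,66,146] 8 10 .stop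
 .stop)))))
 (.far [1,257,0,0,1,4096,4096,0,0,257] 4096 (.far [4112,4112,1,0,256,256] 17 (.far [257,257,16,0,4096,4096] 0 (.far [257,257,16,0,4096,4096] 0 (.node [41,132,152,112] 4 2 .stop
 .stop))))))
 (.lc 3 0 (.conf [32,66] (.lc 2 2 (.conf [8,112] (.lc 2 2 (.lc 2 2 (.node [66,132,152,66,121] 7 9 (.far [4112,4112,1,0,256,256] 0 (.lc 2 8 (.far [4112,4112,1,0,256,256] 17 (.lc 2 8 (.lc 2 8 (.lc 3 8 .stop))))))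
 (.lc 3 0 (.conf [32,66] (.far [1,4096,4096] 256 (.lc 2 2 (.conf [32,66] .stop)))))))))))))))
 (.node [32,98,116] 6 2 (.far [1,257,0,257,0,4096,0,0,257] 4096 .stop)
 (.lc 1 4 (.node [104,116] 6 8 (.node [] 7 4 (.lc 1 2 (.lc 2 4 (.node [66,121] 8 7 (.node [] 9 4 (.node [32] 8 9 (.node [146] 9 2 (.far [4096,1,0,257,0,0,1,0,257,0,4096,0,0,257] 4096 .stop)
 (.node [130] 8 2 (.far [1,257,0,257,0,0,1,0,257,0,4096,0,0,257] 4096 .stop)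
 (.node [138,146] 9 2 (.node [] 8 10 (.node [] 10 2 (.far [4096,1,0,257,0,257,0,0,1,0,257,0,4096,0,0,257] 4096 .stop)
 (.far [257,0,257,0,257,0,16,4096] 0 .stop))
 (.far [4096,1,0,257,0,0,1,0,257,0,4096,0,0,257] 4096 (.far [4112,1,4112,256,256] 0 .stop)))
 (.far [1,0,257,0,0,1,0,257,0,4096,0,0,257] 4096 (.conf [146,162,32] (.far [257,0,257,0,0,1,0,257,0,4096,0,0,257] 4096 (.conf [128,146,169] (.far [16,257,4096,4096] 17 (.node [139,169,186,139,146] 10 9 (.far [16,16,257,4096,4096] 0 (.lc 3 0 (.lc 3 12 .stop)))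
 (.far [257,0,257,0,16,4096] 0 (.far [1,0,0,0,4096,0,4096] 256 (.far [1,4112,256,256] 0 .stop))))))))))))
 (.far [257,1,4096,0,1,0,257,0,4096,0,0,257] 4096 (.node [32,154,162,66] 8 9 (.node [138,162] 8 10 (.node [] 10 2 (.far [4096,1,257,0,257,0,0,1,0,257,0,4096,0,0,257] 4096 .stop)
 (.lc 2 2 .stop))
 (.lc 3 0 (.far [16,256,4096,4112,0,0,0,0,16,0,16,4096] 0 .stop)))
 (.far [16,0,16,0,0,0,0,16,0,16,4096] 0 (.far [1,0,1,0,0,0,0,1,0,1,256] 0 (.node [32,155,186,66,162] 8 9 (.far [1,4096,256,257,0,0,0,0,1,0,1,256] 0 (.lc 3 0 (.lc 1 10 .stop)))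
 .stop))))))
 (.conf [130,148,116] (.conf [138,148,169] (.far [16,257,0,16,0,4096,4096] 0 (.far [1,4112,0,1,0,256,256] 0 (.conf [139,148,116] .stop))))))
 (.lc 3 4 (.conf [32,66] (.lc 2 2 (.conf [116,137,148] (.lc 2 2 (.lc 2 2 (.lc 3 4 (.node [66,148,169,66,122,135] 8 7 (.far [1,4112,0,1,0,256,256] 0 (.lc 3 2 (.lc 3 11 (.lc 1 9 (.lc 3 11 (.lc 4 12 .stop))))))
 (.conf [32,66] (.lc 3 4 (.conf [32,66] (.conf [32,66] (.lc 2 2 (.node [116,137,148] 9 4 (.far [1,1,0,0,0,0,1,0,1,256] 0 (.lc 3 0 (.lc 3 10 (.node [32,162] 8 9 (.node [154] 10 2 .stop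
 (.lc 2 10 .stop))
 (.lc 3 10 (.lc 4 11 .stop))))))
 (.lc 4 4 (.conf [32,66] (.lc 3 2 (.conf [116,148,66] (.conf [32,66] (.conf [32,66] (.lc 0 0 (.conf [32,66] (.conf [32,66] .stop))))))))))))))))))))))))))
 (.far [1,257,0,257,0,4096,0,0,257] 4096 (.node [135,152,96] 8 7 (.node [32,116,130,152] 8 2 .stop
 (.lc 1 4 (.node [116,138,152] 9 8 (.node [154] 7 4 (.node [66] 10 4 (.node [32,162] 9 10 (.node [] 9 2 (.far [1,256,257,4096,0,1,0,1,0,257,0,4096,0,0,257] 4096 .stop)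
 (.lc 3 11 .stop))
 (.lc 3 4 (.lc 0 2 (.far [16,16,0,0,0,0,0,0,16,0,16,4096] 0 (.lc 0 2 (.lc 0 11 .stop))))))
 (.conf [32,66] (.lc 2 2 (.far [4112,0,1,0,1,0,256,256] 0 (.conf [32,66] (.conf [32,66] .stop))))))
 (.lc 1 7 (.lc 1 7 (.lc 1 7 (.far [1,4112,4096,16,1,4096,4112,1,256] 0 (.lc 2 7 .stop))))))
 (.lc 1 2 (.lc 2 4 (.conf [134,167,116] (.lc 2 4 (.conf [139,186] (.lc 2 4 (.lc 2 4 (.conf [134,146] (.lc 2 4 (.conf [134,154] (.lc 3 4 (.lc 3 4 (.conf [134,155] (.lc 2 2 (.lc 3 4 (.lc 3 4 (.lc 3 4 (.lc 4 4 .stop)))))))))))))))))))))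
 (.far [4112,4112,1,4096,4112,1,256] 17 (.far [4112,4112,1,4096,4112,1,256] 0 (.far [257,257,16,256,257,16,4096] 0 (.far [257,257,16,256,257,16,4096] 0 (.node [41,135,152,96] 4 2 (.far [1,16,4112,0,4096,4112,0,16,4096] 17 (.lc 3 2 (.lc 1 8 .stop)))
 (.node [135,152,169,96] 8 7 (.node [32,116,130,152,169] 8 2 .stop
 (.lc 1 4 (.node [116,139,152,169] 9 8 (.far [16,257,256,1,16,256,257,16,4096] 0 (.lc 3 2 (.lc 3 12 (.lc 1 7 (.lc 3 12 (.lc 4 13 .stop))))))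
 (.lc 1 2 (.lc 2 4 (.conf [134,155] (.lc 2 4 (.conf [140,203] (.lc 2 4 (.lc 2 4 (.node [32,134,146,169,116] 2 7 (.lc 0 2 .stop)
 (.lc 2 4 (.node [134,155,169,116] 10 9 (.conf [171,183] (.lc 3 2 (.lc 3 12 (.lc 1 7 (.lc 3 12 (.lc 4 13 .stop))))))
 (.lc 3 4 (.lc 3 4 (.conf [134,183,116] (.lc 2 2 (.lc 3 4 (.lc 3 4 (.lc 3 4 (.lc 4 4 .stop)))))))))))))))))))))
 .stop)))))))))
 (.lc 2 4 (.lc 2 4 (.lc 2 4 (.lc 2 4 (.lc 3 0 (.lc 3 0 (.far [4112,1,4096,4112,1,256] 17 (.lc 2 4 (.far [4112,1,4096,4112,1,256] 0 (.node [116,135,152,105] 6 9 (.far [4112,4112,1,4096,4112,1,256] 0 (.lc 2 8 (.lc 2 8 (.far [4112,4112,1,4096,4112,1,256] 17 (.far [4112,4112,1,4096,4112,1,256] 0 (.lc 2 8 (.lc 2 8 (.lc 3 8 (.lc 3 8 .stop)))))))))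
 (.lc 2 4 (.lc 2 4 (.lc 2 4 (.lc 2 4 (.lc 3 0 (.lc 3 0 (.lc 3 0 (.lc 3 0 (.lc 3 0 (.lc 3 4 (.lc 3 4 (.lc 3 4 (.lc 4 0 (.lc 4 0 (.lc 4 0 (.lc 4 0 (.lc 4 0 (.lc 4 0 (.lc 4 0 (.lc 4 0 (.lc 4 0 (.lc 5 0 (.lc 5 0 .stop)))))))))))))))))))))))))))))))))))))
 (.lc 1 1 (.node [24] 1 8 (.node [] 6 7 (.node [96,116] 6 0 (.lc 0 0 .stop)
 (.node [32,98,116] 6 2 .stop
 (.lc 1 4 (.node [97,135] 8 7 (.node [116,128] 7 4 (.node [4,66] 0 4 (.far [257,4096,1,1,0,0,257,0,4096,0,0,257] 4096 .stop)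
 (.far [1,0,0,0,0,1,4096,4096,0,0,257] 4096 (.lc 2 2 (.conf [32,66] .stop))))
 (.node [32,116,130] 2 7 (.lc 0 2 .stop)
 (.lc 1 4 (.node [116,137] 7 4 (.node [66] 8 9 (.node [] 9 4 (.node [32,146] 9 2 (.far [4096,0,1,0,257,1,0,0,257,0,4096,0,0,257] 4096 .stop)
 (.far [257,0,4096,1,1,0,0,257,0,4096,0,0,257] 4096 (.far [4112,1,256,256] 17 (.far [16,0,16,0,0,0,0,0,16,0,16,4096] 0 (.far [1,0,1,0,0,0,0,0,1,0,1,256] 0 .stop)))))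
 (.far [1,0,257,1,0,0,257,0,4096,0,0,257] 4096 (.node [148,169,128] 9 4 (.far [4112,4096,256,16,256,1,256] 0 .stop)
 (.far [4112,0,4112,256,1,256] 17 (.far [4112,0,4112,256,1,256] 0 (.far [257,0,257,4096,16,4096] 0 (.far [257,0,257,4096,16,4096] 0 (.node [42,148,169,128] 9 4 .stop
 (.node [148,169,186,128] 9 4 (.lc 0 2 .stop)
 .stop)))))))))
 (.conf [32,66] (.lc 2 2 (.far [4112,1,1,0,0,256,256] 0 (.conf [32,66] (.conf [32,66] (.conf [32,66] .stop)))))))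
 (.lc 2 4 (.lc 1 2 (.lc 2 4 (.lc 3 0 (.lc 3 0 (.far [4112,256,1,256] 17 (.lc 2 4 (.far [4112,256,1,256] 0 (.node [116,151,169,116,138] 7 4 (.far [257,16,16,0,0,4096,4096] 0 (.lc 2 2 (.lc 2 2 (.lc 0 11 (.lc 2 2 (.lc 3 2 (.lc 3 2 .stop)))))))
 (.lc 2 4 (.lc 2 4 (.lc 3 0 (.lc 2 4 (.lc 3 0 (.lc 3 4 (.lc 3 4 (.lc 3 4 (.lc 4 0 (.lc 4 0 (.lc 2 2 (.lc 3 4 (.lc 3 4 (.lc 3 4 .stop)))))))))))))))))))))))))))
 (.node [105,116] 8 6 (.node [] 7 4 (.node [66,112] 0 4 (.far [257,1,0,0,0,0,1,4096,4096,0,0,257] 4096 .stop)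
 (.lc 1 2 (.lc 2 4 (.node [66,122] 9 7 (.node [] 10 4 (.node [32] 9 10 (.node [144,162] 9 0 (.node [] 10 2 (.far [4096,0,1,0,257,0,0,1,0,0,257,0,4096,0,0,257] 4096 .stop)
 .stop)
 (.node [146] 9 2 (.far [4112,4112,0,4112,0,256,256] 0 .stop)
 (.node [138,162] 8 10 (.far [16,16,257,4096,4096] 17 .stop)
 (.node [155,162] 8 9 (.node [139] 11 10 (.node [] 8 11 (.node [178] 11 2 (.far [1,0,257,0,1,0,257,0,0,1,0,0,257,0,4096,0,0,257] 4096 .stop)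
 (.far [1,0,256,257,0,257,0,0,1,0,0,257,0,4096,0,0,257] 4096 (.far [4112,0,4112,0,0,0,0,4112,0,1,256] 0 .stop)))
 (.far [257,0,1,0,257,0,0,1,0,0,257,0,4096,0,0,257] 4096 (.far [16,0,16,257,4096,4096] 17 (.far [1,0,1,4112,256,256] 0 (.far [1,0,1,4112,256,256] 0 (.node [188,192,8,162] 8 11 .stop
 .stop))))))
 (.conf [128,150,186] (.far [16,257,0,257,0,4096,4096] 0 (.far [16,257,0,257,0,4096,4096] 0 (.far [1,4112,0,4112,0,256,256] 0 (.conf [128,150,186] .stop))))))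
 (.far [1,0,257,0,0,1,0,0,257,0,4096,0,0,257] 4096 (.conf [162,178,32] (.node [150,162,128] 0 10 (.far [256,0,257,1,4096,0,1,0,0,257,0,4096,0,0,257] 4096 .stop)
 (.conf [150,162,186] (.far [4112,0,4112,0,256,256] 0 (.far [16,257,4096,4096] 17 (.node [156,186,203,156,162] 8 9 (.far [1,4112,0,4112,0,256,256] 0 (.lc 3 0 (.lc 1 11 (.lc 1 11 (.lc 3 0 (.lc 4 0 .stop))))))
 (.far [1,0,257,0,0,1,0,0,257,0,4096,0,0,257] 4096 (.node [150,162,130] 8 2 (.far [257,1,0,0,0,257,0,16,4096] 0 .stop)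
 (.node [128,150,162] 0 10 (.far [1,1,4112,256,256] 0 .stop)
 (.conf [128,150,162] (.conf [162,176,155] (.far [4096,4112,16,256,256,256] 0 (.conf [150,162,186] (.far [4096,4112,16,256,256,256] 0 (.far [1,0,0,0,257,0,4112,4096] 256 (.far [256,257,1,4096,4096,4096] 17 .stop)))))))))))))))))))))
 (.far [257,1,4096,0,1,0,0,257,0,4096,0,0,257] 4096 (.node [32,171,178,66] 9 10 (.node [155,178] 9 11 (.node [139] 11 2 (.far [1,0,0,257,1,4096,0,1,0,0,257,0,4096,0,0,257] 4096 (.lc 3 2 (.node [188,192,8,188] 8 11 .stop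
 .stop)))
 (.lc 2 2 (.far [4112,4112,0,4112,0,256,256] 0 (.lc 2 2 (.lc 2 2 (.lc 3 2 .stop))))))
 (.lc 3 6 (.far [16,256,4096,4112,0,0,0,0,0,16,0,16,4096] 0 (.lc 4 6 .stop))))
 (.far [16,0,16,0,0,0,0,0,16,0,16,4096] 17 (.far [16,0,16,0,0,0,0,0,16,0,16,4096] 0 (.far [1,0,1,0,0,0,0,0,1,0,1,256] 0 (.far [1,0,1,0,0,0,0,0,1,0,1,256] 0 (.node [171,176,8,66] 9 10 (.far [1,4096,256,257,0,0,0,0,0,1,0,1,256] 0 (.lc 3 6 (.lc 1 0 .stop)))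
 (.node [32,172,203,66,178] 9 10 (.far [1,4096,256,257,0,0,0,0,0,1,0,1,256] 0 (.lc 3 6 (.lc 1 11 (.lc 4 6 .stop))))
 .stop)))))))))
 (.conf [144,164,116] (.conf [146,164,116] (.conf [155,164,186] (.far [16,257,0,16,0,0,4096,4096] 0 (.far [1,4112,0,1,0,0,256,256] 0 (.conf [144,164,116] (.conf [156,164,116] .stop))))))))
 (.far [1,0,0,0,0,1,4096,4096,0,0,257] 4096 (.lc 3 4 (.conf [32,66] (.lc 2 2 (.conf [116,154,164] (.lc 2 2 (.lc 2 2 (.lc 2 2 (.lc 3 4 (.node [66,164,186,66,123,151] 9 7 (.far [1,4112,0,1,0,0,256,256] 0 (.lc 3 0 (.lc 3 2 (.lc 3 12 (.lc 1 10 (.lc 3 12 (.lc 4 0 (.lc 4 13 .stop))))))))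
 (.conf [32,66] (.lc 3 4 (.conf [32,66] (.conf [32,66] (.node [116,144,66] 0 4 (.far [257,1,1,4096,4112,4096] 256 .stop)
 (.lc 2 2 (.node [116,154,164] 8 9 (.node [138,164] 10 4 (.far [1,0,1,0,0,0,0,0,1,0,1,256] 0 (.lc 3 0 (.lc 3 11 (.far [1,1,4096,256,258,0,0,514,0,8192,0,16,513] 4096 (.node [32,178] 8 10 (.node [171,178] 10 11 (.node [178] 11 2 .stop
 (.lc 2 2 .stop))
 (.lc 2 4 (.far [4112,0,4112,0,4112,0,1,256] 0 (.conf [171,202] (.lc 2 4 (.lc 3 4 .stop))))))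
 (.lc 3 0 (.lc 3 11 (.lc 4 11 (.lc 4 12 .stop)))))))))
 (.lc 3 0 (.far [4112,0,4112,0,1,256] 0 (.far [16,257,4096,4112,0,0,4096,4096] 0 (.lc 3 0 (.lc 4 0 (.lc 4 0 .stop)))))))
 (.lc 4 4 (.conf [32,66] (.lc 4 4 (.conf [32,66] (.lc 3 2 (.lc 3 2 (.conf [116,164,66] (.far [1,1,4096,4112,4096] 256 (.conf [32,66] (.conf [32,66] (.conf [32,66] (.conf [32,66] (.conf [32,66] (.conf [32,66] (.conf [32,66] .stop))))))))))))))))))))))))))))))))))))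
 (.conf [130,151,97] (.conf [138,151,169] (.lc 3 0 (.far [16,257,0,16,256,257,16,4096] 0 (.far [1,4112,0,1,4096,4112,1,256] 0 (.conf [139,151,97] .stop)))))))
 (.lc 2 4 (.lc 2 4 (.lc 2 4 (.lc 2 4 (.lc 2 4 (.lc 2 4 (.lc 3 1 (.lc 3 1 (.node [39,96,116] 4 2 (.lc 2 2 .stop)
 (.lc 2 4 (.far [4112,0,1,4096,4112,1,256] 0 (.node [116,151,169,106,134] 8 6 (.far [1,4112,0,1,4096,4112,1,256] 0 (.lc 3 2 (.lc 3 11 (.lc 3 0 (.lc 1 9 (.lc 3 11 (.lc 4 12 .stop)))))))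
 (.lc 2 4 (.lc 2 4 (.lc 2 4 (.lc 2 4 (.lc 2 4 (.lc 2 4 (.lc 3 1 (.lc 3 1 (.lc 3 1 (.lc 3 1 (.lc 3 1 (.lc 3 1 (.lc 3 4 (.lc 3 4 (.lc 3 4 (.lc 3 4 (.lc 4 1 (.lc 4 1 (.lc 4 1 (.lc 4 1 (.lc 4 1 (.lc 4 1 (.lc 4 1 (.lc 4 1 (.lc 4 1 (.lc 5 1 .stop)))))))))))))))))))))))))))))))))))))))))))
 (.node [120,134,120] 7 8 .stop
 (.node [134,152] 8 6 (.node [32,103,130,152] 8 2 .stop
 (.lc 1 1 (.node [103,138,152] 6 7 (.node [116] 8 10 (.node [154] 9 10 (.lc 2 0 (.node [32,167] 2 10 (.lc 0 2 .stop)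
 (.lc 1 6 (.node [167] 10 7 (.node [116] 7 4 (.node [66] 11 4 (.node [32,178] 9 11 (.node [146] 9 2 (.far [1,256,257,4096,1,0,0,1,0,0,0,257,0,4096,0,0,257] 4096 .stop)
 (.lc 3 0 (.far [16,257,4096,4096,4096] 17 (.lc 3 0 .stop))))
 (.node [32,180,66,146] 9 2 (.far [1,257,4096,1,0,0,1,0,0,0,257,0,4096,0,0,257] 4096 .stop)
 (.far [16,16,0,0,0,0,0,0,0,0,16,0,16,4096] 0 (.lc 0 0 .stop))))
 (.conf [32,66] (.lc 2 2 (.far [4112,1,0,0,1,0,0,0,256,256] 0 (.conf [32,66] (.conf [32,66] .stop))))))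
 (.conf [116,166,180] (.far [4112,1,1,256,256] 0 (.conf [32,66] .stop))))
 (.lc 2 6 (.lc 3 4 (.lc 3 2 (.lc 3 12 (.lc 3 0 (.node [167,186,203,167] 10 7 (.far [257,16,16,4096,4096] 0 (.lc 2 4 (.lc 0 13 (.lc 3 4 .stop))))
 (.lc 2 6 (.lc 3 2 (.lc 1 4 (.lc 3 11 (.lc 3 11 (.lc 3 2 (.lc 3 11 (.lc 3 12 (.lc 3 6 (.lc 4 2 (.lc 4 13 (.lc 2 4 (.lc 4 12 (.lc 1 2 (.lc 4 11 (.lc 4 2 (.lc 5 11 .stop)))))))))))))))))))))))))))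
 (.lc 2 7 (.lc 2 7 (.node [155,186] 11 10 (.node [32,167,178] 2 10 (.lc 0 2 .stop)
 (.far [16,16,4096,4096] 0 (.node [167,188] 10 7 (.far [257,16,16,4096,4096] 0 (.lc 0 4 (.lc 0 13 (.lc 0 2 .stop))))
 (.conf [188,199] (.lc 3 0 (.lc 3 4 (.lc 3 2 (.lc 3 13 (.conf [167,202] (.far [16,16,4112,4096,0,0,4096,4096] 0 (.lc 3 2 (.lc 1 4 (.lc 3 12 (.lc 3 12 (.lc 3 2 (.lc 3 12 (.lc 3 13 (.conf [32,66] (.lc 4 2 (.lc 4 14 (.lc 2 4 (.lc 4 13 (.lc 1 2 (.lc 4 12 (.lc 4 2 (.lc 5 12 .stop))))))))))))))))))))))))))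
 (.lc 2 7 (.lc 3 7 .stop))))))
 (.lc 2 4 (.lc 2 4 (.lc 2 4 (.far [4112,1,0,1,4096,4112,1,256] 0 (.far [4112,1,0,1,4096,4112,1,256] 0 (.lc 2 4 (.lc 2 4 (.lc 3 4 (.lc 3 4 (.lc 3 4 .stop)))))))))))
 (.lc 2 1 (.lc 2 1 (.conf [129,166,103] (.lc 2 1 (.conf [139,186] (.lc 2 1 (.lc 2 1 (.lc 2 1 (.conf [129,146] (.lc 2 1 (.conf [129,154] (.lc 3 1 (.lc 3 1 (.conf [129,155] (.lc 3 1 (.lc 3 1 (.lc 3 1 (.lc 3 1 (.lc 4 1 .stop))))))))))))))))))))))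
 (.node [152,134] 6 7 (.node [32,98,116] 6 2 .stop
 (.lc 1 4 (.node [97,135] 8 7 (.node [32,116,130,152] 8 2 .stop
 (.lc 1 4 (.far [257,4096,16,4096] 0 (.node [116,138,152] 9 8 (.far [16,257,4096,16,4096] 0 (.lc 3 2 (.lc 3 11 (.lc 1 7 (.lc 3 11 (.lc 4 12 .stop))))))
 (.lc 1 2 (.lc 2 4 (.lc 2 4 (.lc 3 1 (.lc 2 4 (.conf [116,154,167] (.conf [139,186] (.lc 2 4 (.lc 2 4 (.lc 3 1 (.lc 2 4 (.lc 3 1 (.lc 3 4 (.lc 3 4 (.lc 3 4 (.lc 4 1 (.lc 2 2 (.lc 3 4 (.lc 3 4 (.lc 3 4 (.lc 4 4 .stop)))))))))))))))))))))))))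
 (.node [105,151,152,134] 6 9 (.lc 0 1 .stop)
 (.node [106,116] 8 6 (.node [138] 7 4 (.lc 1 2 (.node [148,152,138] 7 9 .stop
 (.lc 2 4 (.node [66,123] 10 7 (.node [] 11 4 (.node [32] 8 10 (.far [257,0,0,0,257,0,16,4096] 0 (.node [139,178,152] 8 11 .stop
 (.node [140,171,152] 9 8 (.far [16,257,0,0,0,257,0,16,4096] 0 (.lc 3 13 (.lc 1 10 (.lc 3 13 (.lc 4 14 .stop)))))
 (.conf [129,166] (.conf [140,203] (.conf [129,156,202] (.conf [156,171,202] (.conf [141,220] (.node [130,166,178,152,130] 8 2 .stop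
 (.far [256,0,257,0,1,4096,16,4096] 0 (.conf [129,155] (.conf [129,156] (.conf [129,157] (.conf [129,156] (.conf [129,146] .stop)))))))))))))))
 (.conf [9,176] (.node [32,152,185,138,66,146] 11 9 (.lc 2 2 .stop)
 (.node [32,188,194,66] 10 11 (.node [194] 10 12 (.node [140,152] 8 12 (.far [257,4096,0,0,0,0,257,0,16,4096] 0 (.lc 0 13 .stop))
 (.lc 2 2 (.conf [129,156] (.lc 2 2 (.lc 2 2 (.lc 3 2 .stop))))))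
 (.lc 3 6 (.far [16,256,4096,4112,0,0,0,0,0,16,0,16,4096] 0 (.lc 4 6 .stop))))
 (.far [16,0,16,0,0,0,0,0,16,0,16,4096] 0 (.far [1,0,1,0,0,0,0,0,1,0,1,256] 0 (.conf [1,152] (.node [32,189,220,66,194] 10 11 (.far [1,4096,256,257,0,0,0,0,0,1,0,1,256] 0 (.lc 3 6 (.lc 1 12 (.lc 4 6 .stop))))
 .stop))))))))
 (.conf [162,180,116] (.conf [169,180,116] (.conf [172,180,203] (.far [16,257,0,16,0,0,4096,4096] 0 (.far [1,4112,0,1,0,0,256,256] 0 (.conf [173,180,116] .stop)))))))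
 (.lc 3 4 (.conf [32,66] (.lc 2 2 (.conf [116,171,180] (.lc 2 2 (.lc 2 2 (.lc 3 4 (.node [66,180,203,66,124] 10 7 (.far [1,4112,0,1,0,0,256,256] 0 (.lc 3 2 (.lc 3 9 (.lc 3 13 (.lc 1 11 (.lc 3 13 (.lc 4 14 .stop)))))))
 (.conf [32,66] (.conf [32,66] (.lc 3 4 (.conf [32,66] (.conf [32,66] (.lc 2 2 (.node [116,152,169,138,66] 9 4 (.lc 3 8 .stop)
 (.node [116,171,180,138] 8 10 (.node [139,152] 11 4 (.far [1,0,1,0,0,0,0,0,1,0,1,256] 0 (.lc 3 0 (.lc 3 9 (.lc 3 12 (.node [32,194] 8 11 (.far [257,0,257,0,257,0,16,4096] 0 (.lc 0 12 (.lc 0 12 (.lc 0 13 (.lc 2 4 (.lc 0 13 .stop))))))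
 (.lc 3 12 (.lc 4 9 (.lc 4 13 .stop))))))))
 (.lc 3 1 (.conf [155,180] (.conf [140,203] (.lc 3 1 (.lc 4 1 .stop))))))
 (.conf [32,66] (.lc 4 4 (.conf [32,66] (.lc 3 2 (.conf [116,180,66] (.conf [32,66] (.conf [32,66] (.conf [32,66] (.conf [32,66] (.conf [32,66] (.conf [32,66] (.conf [32,66] .stop))))))))))))))))))))))))))))))))
 (.lc 3 2 (.lc 3 11 (.lc 3 1 (.far [16,257,0,16,256,257,16,4096] 0 (.lc 3 11 (.lc 4 12 .stop)))))))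
 (.lc 2 4 (.lc 2 4 (.lc 2 4 (.lc 2 4 (.lc 2 4 (.lc 2 4 (.lc 3 1 (.lc 3 1 (.lc 2 4 (.lc 0 10 (.node [116,167,186,107,134,152] 8 6 (.far [1,4112,0,1,4096,4112,1,256] 0 (.lc 3 2 (.lc 3 12 (.lc 3 1 (.lc 1 10 (.lc 3 12 (.lc 4 13 .stop)))))))
 (.lc 2 4 (.lc 2 4 (.lc 2 4 (.lc 2 4 (.lc 2 4 (.lc 2 4 (.lc 3 1 (.lc 3 1 (.lc 3 1 (.lc 3 1 (.lc 3 1 (.lc 3 1 (.lc 3 4 (.lc 3 4 (.lc 3 4 (.lc 4 1 (.lc 4 1 (.lc 4 1 (.lc 4 1 (.lc 4 1 (.lc 4 1 (.lc 4 1 (.lc 4 1 (.lc 5 1 .stop))))))))))))))))))))))))))))))))))))))))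
 (.far [257,257,1,4112,4097,256,0,257] 16 (.node [134,152,169] 8 6 (.node [32,103,130,152,169] 8 2 .stop
 (.lc 1 1 (.node [103,139,152,169] 9 8 (.far [16,257,256,1,1,4112,4097,256,0,257] 16 (.lc 3 2 (.lc 3 7 (.lc 3 12 (.lc 1 6 (.lc 3 12 (.lc 4 13 .stop)))))))
 (.lc 2 1 (.lc 2 1 (.conf [129,155] (.lc 2 1 (.conf [140,203] (.lc 2 1 (.lc 2 1 (.lc 2 1 (.node [32,129,146,169,103] 2 6 .stop
 (.lc 2 1 (.node [129,155,169,103] 10 9 (.conf [171,182] (.lc 3 2 (.lc 3 7 (.lc 3 12 (.lc 1 6 (.lc 3 12 (.lc 4 13 .stop)))))))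
 (.lc 3 1 (.lc 3 1 (.conf [129,182,103] (.lc 3 1 (.lc 3 1 (.lc 3 1 (.lc 3 1 (.lc 4 1 .stop))))))))))))))))))))))
 .stop))))))
 (.lc 2 7 (.lc 2 7 (.lc 2 1 (.node [134] 6 7 (.node [32,98,116,134] 6 2 .stop
 (.lc 1 4 (.node [97,135] 8 7 (.node [32,116,130] 8 2 (.far [1,257,1,0,257,0,4096,0,0,257] 4096 .stop)
 (.lc 1 4 (.node [116,137] 7 4 (.node [66] 8 9 (.node [] 9 4 (.node [32,146] 9 2 (.far [4096,0,1,0,257,1,0,257,0,4096,0,0,257] 4096 .stop)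
 (.far [257,0,4096,1,1,0,257,0,4096,0,0,257] 4096 (.conf [1,144] (.far [16,0,16,0,0,0,0,16,0,16,4096] 0 (.conf [1,144] .stop)))))
 (.lc 2 4 (.lc 2 4 (.far [4112,4112,4096,0,257,0,16,1,256] 17 (.far [4112,4112,4096,0,257,0,16,1,256] 0 (.lc 2 4 (.lc 2 4 (.lc 3 4 (.lc 3 4 .stop)))))))))
 (.conf [32,66] (.lc 2 2 (.far [4112,1,1,0,256,256] 0 (.conf [32,66] (.conf [32,66] (.conf [32,66] .stop)))))))
 (.lc 1 2 (.lc 2 4 (.lc 3 0 (.lc 3 0 (.lc 2 4 (.conf [138,169] (.lc 2 4 (.lc 2 4 (.lc 3 0 (.lc 2 4 (.lc 3 0 (.lc 3 4 (.lc 3 4 (.lc 4 0 (.lc 4 0 (.lc 2 2 (.lc 3 4 (.lc 3 4 (.lc 3 4 .stop))))))))))))))))))))))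
 (.node [105,116,134] 8 6 (.node [137] 7 4 (.node [66,112] 0 4 (.far [257,1,0,0,0,1,4096,4096,0,0,257] 4096 .stop)
 (.lc 1 2 (.lc 2 4 (.node [66,122] 9 7 (.node [154] 10 4 (.node [32] 8 9 (.lc 1 6 (.node [139,154] 9 10 (.node [162] 8 11 (.node [] 11 10 (.node [178] 11 2 (.far [1,257,0,1,0,0,257,0,0,1,0,257,0,4096,0,0,257] 4096 .stop)
 (.far [257,0,1,0,0,257,0,0,1,0,257,0,4096,0,0,257] 4096 (.conf [1,176] (.conf [1,176] .stop))))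
 (.lc 2 10 (.lc 2 10 (.far [4112,4112,4096,0,4096,4112,0,0,257,0,16,1,256] 0 (.lc 2 10 (.lc 3 10 .stop))))))
 (.conf [162,178,32] (.far [4112,1,0,4112,0,256,256] 0 (.conf [8,176] .stop))))
 (.lc 2 6 (.conf [128,154,185] (.conf [140,203] (.lc 2 6 (.lc 2 6 (.far [257,0,0,0,256,257,0,257,0,4096,0,0,257] 4096 (.lc 2 6 (.node [128,154] 11 9 (.far [1,1,0,4112,0,256,256] 0 (.lc 3 2 (.lc 3 12 .stop)))
 (.lc 3 6 (.conf [128,154,185] (.lc 3 6 (.lc 3 6 (.lc 3 6 (.lc 3 6 .stop))))))))))))))))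
 (.far [257,1,4096,0,1,0,257,0,4096,0,0,257] 4096 (.node [32,171,178,66] 9 10 (.node [178] 8 9 (.node [139] 8 11 (.node [178] 11 2 (.far [4096,1,256,257,0,257,0,0,1,0,257,0,4096,0,0,257] 4096 .stop)
 (.lc 2 2 (.far [4112,4096,4112,0,4096,4112,0,0,257,0,16,1,256] 0 .stop)))
 (.lc 1 2 (.lc 1 2 (.far [1,4112,0,4112,0,256,256] 0 (.lc 2 2 .stop)))))
 (.lc 3 6 (.far [16,256,4096,4112,0,0,0,0,16,0,16,4096] 0 (.lc 4 6 .stop))))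
 (.far [16,0,16,0,0,0,0,16,0,16,4096] 17 (.far [16,0,16,0,0,0,0,16,0,16,4096] 0 (.conf [8,160] (.far [1,0,1,0,0,0,0,1,0,1,256] 0 (.conf [8,176] (.node [32,172,203,66,178] 9 10 (.far [1,4096,256,257,0,0,0,0,1,0,1,256] 0 (.lc 3 6 (.lc 1 11 (.lc 4 6 .stop))))
 .stop)))))))))
 (.conf [144,164,116] (.conf [146,164,116] (.conf [155,164,186] (.far [16,257,0,16,0,4096,4096] 0 (.far [1,4112,0,1,0,256,256] 0 (.conf [8,144] (.conf [156,164,116] .stop))))))))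
 (.far [1,0,0,0,1,4096,4096,0,0,257] 4096 (.lc 3 4 (.conf [32,66] (.lc 2 2 (.conf [116,154,164] (.lc 2 2 (.lc 2 2 (.lc 2 2 (.lc 3 4 (.node [66,164,186,66,123] 9 7 (.far [1,4112,0,1,0,256,256] 0 (.lc 3 0 (.lc 3 2 (.lc 3 12 (.lc 1 10 (.lc 3 12 (.lc 4 0 (.lc 4 13 .stop))))))))
 (.conf [32,66] (.lc 3 4 (.conf [32,66] (.conf [32,66] (.node [116,144,137,66] 0 4 (.lc 2 8 .stop)
 (.lc 2 2 (.node [116,154,164,137] 8 9 (.node [138] 10 4 (.far [1,0,1,0,0,0,0,1,0,1,256] 0 (.lc 3 0 (.lc 3 11 (.far [1,1,4096,256,258,0,514,0,8192,0,16,513] 4096 (.node [32,178] 8 10 (.node [171,178] 10 11 (.node [178] 11 2 .stop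
 (.lc 2 2 .stop))
 (.lc 2 4 (.far [4112,0,4096,4112,0,0,257,0,16,1,256] 0 (.conf [171,202] (.lc 2 4 (.lc 3 4 .stop))))))
 (.lc 3 0 (.lc 3 11 (.lc 4 11 (.lc 4 12 .stop)))))))))
 (.lc 3 0 (.conf [139,186] (.lc 3 0 (.lc 4 0 (.lc 4 0 .stop))))))
 (.lc 4 4 (.conf [32,66] (.lc 4 4 (.conf [32,66] (.lc 3 2 (.lc 3 2 (.conf [116,164,66] (.conf [8,144] (.conf [32,66] (.conf [32,66] (.conf [32,66] (.conf [32,66] (.conf [32,66] (.conf [32,66] (.conf [32,66] .stop))))))))))))))))))))))))))))))))))))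
 (.lc 3 2 (.lc 3 10 (.lc 1 7 (.lc 3 10 (.lc 4 11 .stop))))))
 (.lc 2 4 (.lc 2 4 (.lc 2 4 (.lc 2 4 (.lc 3 1 (.lc 2 4 (.conf [116,137,151] (.conf [106,169] (.lc 2 4 (.lc 2 4 (.lc 2 4 (.lc 3 1 (.lc 3 1 (.lc 3 1 (.lc 3 1 (.lc 3 1 (.lc 3 4 (.lc 3 4 (.lc 4 1 (.lc 4 1 (.lc 4 1 (.lc 4 1 (.lc 4 1 (.lc 4 1 (.lc 4 1 (.lc 5 1 .stop))))))))))))))))))))))))))))))
 (.lc 2 1 (.lc 2 1 (.node [134] 6 7 (.node [32,98,116,134] 6 2 .stop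
 (.lc 1 4 (.far [257,16,256,257,16,4096] 0 (.node [105,116,134] 8 6 (.far [16,257,16,256,257,16,4096] 0 (.lc 3 2 (.lc 3 10 (.lc 1 7 (.lc 3 10 (.lc 4 11 .stop))))))
 (.lc 2 4 (.lc 2 4 (.lc 2 4 (.lc 2 4 (.lc 3 1 (.lc 2 4 (.conf [116,137,151] (.conf [106,169] (.lc 2 4 (.lc 2 4 (.lc 2 4 (.lc 3 1 (.lc 3 1 (.lc 3 1 (.lc 3 1 (.lc 3 1 (.lc 3 4 (.lc 3 4 (.lc 4 1 (.lc 4 1 (.lc 4 1 (.lc 4 1 (.lc 4 1 (.lc 4 1 (.lc 4 1 (.lc 5 1 .stop))))))))))))))))))))))))))))))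
 (.node [25,152,134] 1 9 (.node [152] 6 7 (.node [96,116] 6 0 .stop
 (.node [32,98,116] 6 2 (.lc 0 0 .stop)
 (.lc 1 4 (.far [257,0,16,256,257,16,4096] 0 (.node [106,116] 8 6 (.far [16,257,0,16,256,257,16,4096] 0 (.lc 3 0 (.lc 3 2 (.lc 3 11 (.lc 1 7 (.lc 3 11 (.lc 4 0 (.lc 4 12 .stop))))))))
 (.lc 2 4 (.lc 2 4 (.lc 2 4 (.lc 2 4 (.lc 2 4 (.lc 2 4 (.lc 2 4 (.lc 3 1 (.node [39,96,116] 6 0 .stop
 (.lc 2 4 (.lc 0 10 (.conf [107,186] (.lc 2 4 (.lc 2 4 (.lc 2 4 (.lc 2 4 (.lc 2 4 (.lc 3 1 (.lc 3 1 (.lc 3 1 (.lc 3 1 (.lc 3 1 (.lc 3 1 (.lc 3 1 (.lc 3 4 (.lc 3 4 (.lc 3 4 (.lc 3 4 (.lc 3 4 (.lc 4 1 (.lc 4 1 (.lc 4 1 (.lc 4 1 (.lc 4 1 (.lc 4 1 (.lc 4 1 (.lc 4 1 (.lc 4 1 (.lc 4 1 (.lc 4 1 (.lc 4 1 (.lc 4 1 (.lc 5 1 (.lc 5 1 (.lc 5 1 .stop))))))))))))))))))))))))))))))))))))))))))))))))))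
 (.lc 2 8 (.lc 2 8 (.node [152,169,152,134] 8 6 (.node [32,103,130] 2 6 .stop
 (.lc 1 1 (.lc 0 9 (.node [103,139] 6 7 (.far [257,16,0,16,256,257,16,4096] 0 (.lc 2 4 (.lc 2 4 (.lc 2 4 (.lc 0 12 (.lc 2 4 (.lc 3 4 .stop)))))))
 (.lc 2 1 (.lc 3 0 (.lc 2 1 (.lc 2 1 (.lc 2 1 (.lc 3 2 (.lc 3 10 (.lc 3 12 (.lc 2 1 (.conf [103,182] (.lc 2 1 (.lc 2 1 (.lc 2 1 (.lc 2 1 (.lc 2 1 (.lc 2 1 (.lc 2 1 (.lc 3 10 (.lc 3 11 (.lc 3 2 (.lc 2 1 (.lc 3 11 (.lc 3 12 (.lc 3 1 (.lc 1 1 (.lc 3 1 (.lc 4 13 (.lc 3 1 (.lc 3 1 (.lc 3 1 (.lc 3 1 (.lc 3 1 (.lc 3 1 (.lc 3 1 (.lc 3 1 (.lc 3 1 (.lc 3 1 (.lc 1 1 (.lc 4 1 .stop)))))))))))))))))))))))))))))))))))))))))))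
 (.lc 2 8 (.lc 3 8 .stop))))))
 (.lc 2 7 (.lc 2 7 (.lc 2 7 (.lc 2 1 (.node [] 6 7 (.node [32,98,116] 6 2 .stop
 (.lc 1 4 (.far [4112,1,4096,4112,1,256] 4097 (.node [105,116] 8 6 (.far [1,4112,1,4096,4112,1,256] 4097 (.conf [130,151,97] (.conf [138,151,97] (.node [151,169,97] 9 7 (.node [32,116,146,169] 9 2 .stop
 (.lc 1 4 (.node [116,155,169] 10 9 (.node [171] 7 4 (.node [66] 11 4 (.node [32,178] 10 11 (.node [162] 10 2 .stop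
 (.lc 3 8 .stop))
 (.lc 3 4 (.far [16,16,0,0,0,0,0,0,16,0,16,4096] 0 (.lc 0 8 .stop))))
 (.conf [32,66] (.lc 2 2 (.far [4112,0,1,0,1,0,256,256] 0 (.conf [32,66] (.conf [32,66] .stop))))))
 (.lc 3 2 (.lc 3 12 (.lc 1 7 (.lc 3 12 (.lc 4 13 .stop))))))
 (.lc 1 2 (.lc 2 4 (.conf [150,171] (.lc 2 4 (.conf [156,203] (.lc 2 4 (.lc 2 4 (.node [32,150,162,138,116] 2 7 (.lc 0 2 .stop)
 (.lc 2 4 (.node [150,171,138,116] 8 10 (.node [139] 11 7 (.far [1,0,1,0,1,0,256,256] 0 (.lc 3 2 (.conf [32,66] (.lc 1 2 (.lc 3 12 (.lc 4 12 .stop))))))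
 (.lc 3 2 (.lc 3 12 (.lc 1 7 (.lc 3 12 (.lc 4 13 .stop))))))
 (.lc 3 4 (.lc 3 4 (.conf [150,183,116] (.lc 2 2 (.lc 3 4 (.lc 3 4 (.lc 3 4 (.lc 4 4 .stop)))))))))))))))))))))
 (.far [1,4112,1,4096,4112,1,256] 4097 (.conf [139,151,97] .stop))))))
 (.lc 2 4 (.lc 2 4 (.lc 2 4 (.lc 2 4 (.lc 3 1 (.lc 2 4 (.far [4112,1,4096,4112,1,256] 4097 (.node [116,151,169,106] 6 10 (.far [4112,4112,1,4096,4112,1,256] 4097 (.lc 0 2 (.lc 0 11 (.lc 0 11 (.lc 2 9 (.lc 0 12 .stop))))))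
 (.lc 2 4 (.lc 2 4 (.lc 2 4 (.lc 3 1 (.lc 3 1 (.lc 3 1 (.lc 3 1 (.lc 3 1 (.lc 3 4 (.lc 3 4 (.lc 4 1 (.lc 4 1 (.lc 4 1 (.lc 4 1 (.lc 4 1 (.lc 4 1 (.lc 4 1 (.lc 5 1 .stop))))))))))))))))))))))))))))))
 (.lc 3 7 (.lc 3 7 (.lc 3 1 (.node [134,152] 6 7 (.node [32,98,116,134,152] 6 2 .stop
 (.lc 1 4 (.node [97,135,152] 8 7 (.node [32,116,130] 8 2 .stop
 (.lc 1 4 (.node [116,138] 9 8 (.far [16,257,1,4112,256,257,16,4096] 0 (.lc 3 2 (.lc 3 11 (.lc 1 7 (.lc 3 11 (.lc 4 12 .stop))))))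
 (.lc 1 2 (.lc 2 4 (.lc 3 6 (.lc 2 4 (.conf [139,186] (.lc 2 4 (.lc 2 4 (.lc 3 6 (.lc 2 4 (.lc 3 6 (.lc 3 4 (.lc 3 4 (.lc 4 6 (.lc 2 2 (.lc 3 4 (.lc 3 4 (.lc 3 4 (.lc 4 4 .stop)))))))))))))))))))))
 (.node [106,116,134,152] 8 6 (.node [138] 9 8 (.node [32,138,146] 2 8 .stop
 (.node [138,155] 8 10 (.far [257,16,256,257,4112,256,257,16,4096] 0 (.lc 2 7 (.lc 2 7 (.lc 0 12 (.lc 2 7 (.lc 3 7 .stop))))))
 (.conf [134,155] (.conf [138,146] (.conf [138,156] (.conf [138,184] (.lc 1 7 (.lc 1 7 (.node [32,134,146,167] 9 2 (.far [257,256,257,0,4096] 4097 .stop)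
 (.lc 1 6 (.node [134,155,167] 9 11 (.far [257,256,257,0,4096] 4097 (.lc 2 10 (.node [43,186] 4 2 (.far [1,16,4096,4096,4112,0,4096,4112,0,16,4096] 17 (.lc 3 2 (.lc 1 10 .stop)))
 (.lc 2 10 (.lc 2 10 (.lc 3 10 .stop))))))
 (.conf [138,155] (.conf [138,146] (.conf [138,156] (.lc 2 7 (.conf [138,157] (.conf [134,167,186] (.lc 2 7 (.lc 2 7 (.lc 2 7 (.lc 2 7 (.lc 2 7 (.lc 3 7 .stop)))))))))))))))))))))))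
 (.lc 3 2 (.lc 3 11 (.lc 1 7 (.lc 3 11 (.lc 4 12 .stop))))))
 (.lc 2 4 (.lc 2 4 (.lc 2 4 (.lc 2 4 (.lc 3 1 (.lc 2 4 (.conf [116,138,167] (.conf [107,186] (.lc 2 4 (.lc 2 4 (.lc 2 4 (.lc 3 1 (.lc 3 1 (.lc 3 1 (.lc 3 1 (.lc 3 1 (.lc 3 4 (.lc 3 4 (.lc 4 1 (.lc 4 1 (.lc 4 1 (.lc 4 1 (.lc 4 1 (.lc 4 1 (.lc 4 1 (.lc 5 1 .stop))))))))))))))))))))))))))))))
 (.lc 3 7 (.lc 3 7 (.lc 3 7 (.lc 4 7 .stop))))))))))))))))))))))))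
 (.lc 1 4 (.lc 1 4 (.lc 1 4 (.lc 1 4 (.lc 1 4 (.far [1,4112,4096,16,4112,256] 0 (.far [1,4112,4096,16,4112,256] 0 (.lc 2 4 (.lc 2 4 (.lc 2 4 (.lc 2 4 .stop))))))))))))
 (.lc 2 2 (.lc 2 2 (.lc 2 2 (.node [83,96,49,66] 0 4 (.far [257,4096,4096,0,0,257] 4096 .stop)
 (.lc 2 2 (.node [83,116,49,66,103] 7 4 (.lc 1 2 (.lc 0 0 (.lc 1 2 (.lc 2 2 (.lc 1 0 (.lc 0 6 (.lc 2 2 (.lc 1 0 (.lc 1 0 (.lc 2 2 (.lc 2 2 (.lc 2 2 (.lc 1 0 (.lc 1 0 (.lc 2 2 (.lc 2 2 (.lc 1 0 (.lc 1 0 (.lc 2 2 (.lc 1 0 (.lc 2 2 (.lc 3 0 (.lc 1 0 (.lc 2 2 (.lc 2 2 (.lc 2 0 (.lc 2 0 (.lc 3 2 (.lc 2 0 (.lc 2 0 (.lc 3 2 (.lc 3 2 (.lc 3 2 (.lc 3 2 (.lc 2 0 (.lc 2 0 (.lc 2 0 (.lc 2 0 (.lc 2 0 (.lc 3 0 (.lc 3 0 .stop)))))))))))))))))))))))))))))))))))))))))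
 (.conf [87,112] (.lc 2 2 (.lc 2 2 (.node [66,80,116,49,101] 5 0 .stop
 (.conf [88,135] (.lc 2 2 (.lc 2 2 (.lc 2 2 (.lc 2 2 (.lc 2 2 (.conf [83,96] (.lc 2 2 (.conf [83,103] (.lc 3 2 (.lc 3 2 (.lc 3 2 (.lc 3 2 (.conf [83,103] (.lc 3 2 (.lc 3 2 (.conf [83,96] (.conf [83,104] (.lc 3 2 (.lc 3 2 (.lc 3 2 (.lc 3 2 (.lc 3 2 (.lc 3 2 (.lc 3 2 (.lc 3 2 (.lc 3 2 (.lc 4 2 (.lc 4 2 (.lc 4 2 (.lc 4 2 .stop))))))))))))))))))))))))))))))))))))))))))))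

theorem t10 : kNode2 awTt FTt 5 4 (check tyTt awTt triet FTt [] c10) (fun _ _ _ => true) 0 s10 Pl.nil s10 =
    true := by
  decide +kernel

end Chk
end Pool.Agent.Lib.MP_ba95e8_co
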