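import Pool.Agent.Lib.MP_ba95e8_co.ChkTab
import Pool.Agent.Lib.MP_ba95e8_co.ChkStates

/-!
Deltahedral domes: part 11 of the case analysis.
-/

namespace Pool.Agent.Lib.MP_ba95e8_co
namespace Chk

/-- certificate number 11 -/
def c11 : Cert := (.node [116] 0 7 (.far [257,1,257,0,4096,0,0,257] 4096 (.lc 1 0 (.node [116] 7 4 (.node [66] 8 4 (.node [] 6 0 (.far [4112,0,0,0,4112,4112,0,257] 0 (.node [104,130] 6 8 .stop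
 .stop))
 (.node [137,146,66] 0 8 .stop
 (.far [16,16,0,0,0,16,0,16,4096] 0 (.far [1,1,0,0,0,1,0,1,256] 0 (.node [138,169,66,146] 0 8 .stop
 .stop)))))
 (.conf [66,112,130] (.lc 2 2 (.far [4112,1,1,256,256] 0 (.far [257,16,16,4096,4096] 0 (.conf [66,112,137] .stop))))))
 (.lc 1 2 (.conf [112,132,66] (.lc 2 0 (.node [116,135,116] 7 4 (.far [257,256,0,1,4096,4096,0,0,257] 4096 (.lc 0 9 .stop))
 (.lc 2 0 (.node [116,135,40,116] 7 4 (.far [257,16,16,4096,4096] 0 (.lc 0 9 .stop))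
 (.node [116,135,152,116] 7 4 (.far [257,16,16,4096,4096] 0 (.lc 2 2 (.lc 2 2 (.lc 0 10 (.lc 2 2 (.lc 3 2 .stop))))))
 (.far [257,1,257,0,4096,0,0,257] 4096 (.lc 1 2 (.lc 1 2 (.node [116] 7 4 (.far [4112,1,1,256,256] 17 (.far [4112,1,1,256,256] 17 .stop))
 (.node [116,135,152,41,116] 7 4 (.node [132] 4 2 .stop
 (.lc 0 10 .stop))
 .stop)))))))))))))))
 (.lc 2 1 (.node [116] 4 2 (.far [1,0,0,0,0,0,1,1] 4096 (.lc 2 2 (.node [72,128,72] 7 4 (.far [1,4112,0,0,1,0,1,256] 0 (.lc 1 0 .stop))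
 .stop)))
 (.lc 1 4 (.node [116] 1 6 (.far [257,0,0,0,1,0,0,257] 16 (.far [1,4112,4112,0,257] 0 (.node [104] 6 8 (.far [4112,1,4112,4112,0,257] 0 (.conf [135,144,97] (.conf [135,146,97] (.conf [135,154,97] (.far [4112,1,4112,4112,0,257] 0 (.far [4112,1,4112,4112,0,257] 0 (.node [135,97] 0 8 (.far [257,4112,1,4112,4096,4112,1,256,0,257] 4096 (.far [256,0,0,1,257,0,4096,0,0,257] 4096 (.conf [135,168] (.lc 2 4 .stop))))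
 (.node [135,168,97] 8 7 (.node [116,128,168] 8 0 (.node [160] 0 7 (.far [16,0,16,0,0,16,4096,4096] 0 .stop)
 (.lc 0 1 (.lc 0 11 .stop)))
 (.node [116,130,168] 8 2 (.lc 0 0 .stop)
 (.lc 1 4 (.node [116,139,168] 10 8 (.node [171] 7 4 (.node [66] 11 4 (.node [178] 10 11 (.node [162] 10 2 (.far [4112,4096,4112,256,0,16,1,0,256] 0 .stop)
 (.far [16,257,4096,4096,4096] 17 (.lc 3 8 (.lc 4 8 .stop))))
 (.lc 3 4 (.far [16,16,0,0,0,0,0,0,16,0,16,4096] 17 (.far [16,16,0,0,0,0,0,0,16,0,16,4096] 0 (.lc 0 8 .stop)))))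
 (.conf [66,116,178] (.far [4112,0,1,0,0,1,256,256] 0 (.lc 2 2 (.far [4112,0,1,0,0,1,256,256] 0 (.far [257,0,16,0,0,16,4096,4096] 0 (.conf [66,116,176] (.conf [66,116,188] .stop))))))))
 (.lc 3 0 (.lc 3 2 (.lc 3 12 (.lc 1 7 (.lc 1 7 (.lc 3 0 (.lc 3 12 (.lc 4 12 (.lc 4 0 (.lc 4 0 (.lc 4 13 .stop))))))))))))
 (.lc 2 4 (.lc 1 2 (.lc 2 4 (.conf [134,160] (.conf [134,171] (.conf [139,176] (.node [116,128,168] 2 7 (.lc 0 2 .stop)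
 (.lc 2 4 (.node [116,128,183,168,116] 8 0 .stop
 (.conf [140,203] (.lc 2 4 (.lc 2 4 (.node [134,160,154,116] 0 7 (.far [1,1,0,0,1,256,256] 0 (.far [257,1,0,0,1,256,257,0,1,256] 0 (.far [256,0,0,0,0,1,4096,4096,0,0,257] 4096 (.lc 1 2 .stop))))
 (.node [134,162,154,116] 2 7 (.lc 0 2 .stop)
 (.lc 2 4 (.node [134,171,154,116] 9 10 (.node [155] 11 7 (.far [1,0,1,0,0,1,256,256] 0 (.lc 3 2 (.node [32,66] 11 2 (.far [1,256,0,0,0,0,0,1,4096,4096,0,0,257] 4096 (.lc 3 2 (.node [188,192,188] 9 11 (.far [1,4112,4096,256,257,0,0,1,256,256] 0 (.lc 3 1 (.lc 1 0 .stop)))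
 .stop)))
 (.lc 3 0 (.lc 1 2 (.lc 3 12 (.lc 4 0 (.lc 4 12 .stop))))))))
 (.lc 3 0 (.lc 3 2 (.lc 3 12 (.lc 1 7 (.lc 1 7 (.lc 3 0 (.lc 3 12 (.lc 4 12 (.lc 4 0 (.lc 4 0 (.lc 4 13 .stop))))))))))))
 (.lc 3 4 (.lc 3 4 (.node [134,171,176,154,116] 0 7 (.far [16,16,257,16,256,1,4096,4112,4112,4096] 0 .stop)
 (.node [134,160,154,116] 2 7 (.lc 0 2 .stop)
 (.lc 3 4 (.conf [134,183,116] (.conf [134,183,116] (.lc 3 4 (.lc 2 2 (.lc 3 4 (.lc 3 4 (.lc 3 4 (.lc 4 4 (.lc 4 4 .stop))))))))))))))))))))))))))))))))))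
 (.conf [135,154,97] (.conf [135,144,97] (.conf [135,144,97] (.conf [135,155,97] .stop))))))))))))
 (.lc 2 1 (.lc 2 1 (.node [97,135] 8 7 (.node [116,130] 8 2 (.far [4096,0,1,4112,4112,0,257] 256 .stop)
 (.lc 1 4 (.node [116,137] 7 4 (.node [66] 8 9 (.far [4112,0,4112,257,16,4112,0,257] 0 (.lc 2 4 (.lc 2 4 (.far [4112,0,4112,257,16,4112,0,257] 17 (.far [4112,0,4112,257,16,4112,0,257] 0 (.lc 2 4 (.lc 2 4 (.lc 3 4 (.lc 3 4 .stop)))))))))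
 (.conf [66,116,146] (.lc 2 2 (.far [4112,1,0,1,256,256] 0 (.far [257,16,0,16,4096,4096] 0 (.conf [8,144] (.conf [66,116,154] .stop)))))))
 (.lc 1 2 (.lc 2 4 (.lc 3 0 (.lc 3 0 (.lc 2 4 (.conf [138,169] (.lc 2 4 (.lc 2 4 (.lc 3 0 (.lc 2 4 (.lc 3 0 (.lc 3 4 (.lc 3 4 (.lc 4 0 (.lc 4 0 (.lc 2 2 (.lc 3 4 (.lc 3 4 (.lc 3 4 .stop))))))))))))))))))))))
 (.node [97,135,152] 1 9 (.node [] 8 7 (.node [116,128] 8 0 (.lc 0 0 .stop)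
 (.node [116,130] 8 2 .stop
 (.lc 1 4 (.node [116,138] 9 8 (.far [1,4112,0,257,16,4112,0,257] 0 (.lc 1 7 (.lc 1 7 (.lc 3 0 (.lc 1 7 (.far [1,4112,0,257,16,4112,0,257] 0 (.lc 2 7 .stop)))))))
 (.lc 1 2 (.lc 2 4 (.lc 3 6 (.lc 3 6 (.node [116,128] 2 7 (.lc 0 2 .stop)
 (.lc 2 4 (.conf [139,186] (.lc 2 4 (.lc 2 4 (.lc 3 6 (.lc 2 4 (.lc 3 6 (.lc 3 4 (.lc 3 4 (.lc 3 4 (.lc 4 6 (.lc 2 2 (.lc 3 4 (.lc 3 4 (.lc 3 4 (.lc 4 4 .stop)))))))))))))))))))))))))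
 (.lc 2 8 (.node [169] 8 7 (.node [116,130] 8 2 .stop
 (.lc 1 4 (.node [138,167,169] 8 10 (.lc 0 1 .stop)
 (.node [116,139] 9 8 (.far [1,4112,0,257,16,4112,0,257] 0 (.lc 3 2 (.lc 3 12 (.lc 3 1 (.lc 1 7 (.lc 3 12 (.lc 4 13 .stop)))))))
 (.lc 1 2 (.lc 2 4 (.lc 3 6 (.lc 3 6 (.lc 2 4 (.conf [140,203] (.lc 2 4 (.lc 2 4 (.lc 3 6 (.lc 2 4 (.lc 3 6 (.lc 3 4 (.lc 3 4 (.lc 4 6 (.lc 2 2 (.lc 3 4 (.lc 3 4 (.lc 3 4 (.lc 4 4 .stop)))))))))))))))))))))))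
 (.lc 2 8 (.lc 3 8 .stop)))))
 (.node [104,150,104] 9 6 (.node [152] 7 4 (.node [66,112] 0 4 (.far [257,1,0,0,0,1,4096,4096,0,0,257] 4096 .stop)
 (.lc 1 2 (.lc 2 4 (.node [66,122] 8 7 (.node [138] 10 4 (.node [] 9 8 (.lc 1 6 (.node [138,155] 8 10 (.node [162] 9 11 (.far [4112,4112,4096,0,4112,0,0,257,16,4112,0,257] 0 (.lc 2 10 (.lc 2 10 (.far [4112,4112,4096,0,4112,0,0,257,16,4112,0,257] 0 (.lc 2 10 (.lc 3 10 .stop))))))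
 (.conf [162,178,32] (.far [4112,1,0,4112,0,256,0,256] 0 (.conf [9,176] .stop))))
 (.lc 2 6 (.conf [144,184,138] (.conf [156,203] (.lc 2 6 (.lc 2 6 (.far [257,0,0,0,256,0,257,257,0,4096,0,0,257] 4096 (.lc 2 6 (.node [144,138] 11 8 (.far [1,1,0,4112,0,256,0,256] 0 (.lc 3 2 (.lc 3 12 .stop)))
 (.lc 3 6 (.conf [144,184,138] (.lc 3 6 (.lc 3 6 (.lc 3 6 (.lc 3 6 .stop))))))))))))))))
 (.far [257,1,4096,0,0,1,257,0,4096,0,0,257] 4096 (.node [171,178,66] 8 10 (.node [178] 9 8 (.node [155] 9 11 (.far [4112,4096,4112,0,4112,0,0,257,16,4112,0,257] 0 (.lc 2 2 (.far [4112,4096,4112,0,4112,0,0,257,16,4112,0,257] 0 .stop)))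
 (.lc 1 2 (.lc 1 2 (.far [1,4112,0,4112,0,256,0,256] 0 (.lc 2 2 .stop)))))
 (.lc 3 6 (.far [16,256,4096,4112,0,0,0,0,16,0,16,4096] 0 (.lc 4 6 .stop))))
 (.far [16,0,16,0,0,0,0,16,0,16,4096] 17 (.far [16,0,16,0,0,0,0,16,0,16,4096] 0 (.conf [9,160] (.far [1,0,1,0,0,0,0,1,0,1,256] 0 (.conf [9,176] (.node [172,203,66,178] 8 10 (.far [1,4096,256,257,0,0,0,0,1,0,1,256] 0 (.lc 3 6 (.lc 1 11 (.lc 4 6 .stop))))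
 .stop)))))))))
 (.conf [128,164,116] (.conf [130,164,116] (.conf [139,164,186] (.far [16,257,0,0,16,4096,4096] 0 (.far [1,4112,0,0,1,256,256] 0 (.conf [9,128] (.conf [140,164,116] .stop))))))))
 (.far [1,0,0,0,1,4096,4096,0,0,257] 4096 (.lc 3 4 (.conf [66,122,162] (.lc 2 2 (.conf [116,138,164] (.lc 2 2 (.lc 2 2 (.lc 2 2 (.lc 3 4 (.node [66,164,186,66,123] 8 7 (.far [1,4112,0,0,1,256,256] 0 (.lc 3 0 (.lc 3 2 (.lc 3 12 (.lc 1 10 (.lc 3 12 (.lc 4 0 (.lc 4 13 .stop))))))))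
 (.far [1,0,0,0,1,4096,4096,0,0,257] 4096 (.lc 3 4 (.node [32,66,122] 7 10 (.far [257,257,0,0,16,4096,4096] 0 (.lc 2 2 (.lc 2 2 (.node [139,186,152] 9 8 (.node [155] 9 11 (.far [4112,4112,0,0,4096,257,4112,4112,0,257] 0 (.lc 2 8 (.conf [186,203] (.lc 2 8 (.lc 3 8 .stop)))))
 (.lc 3 0 (.lc 1 10 (.lc 3 0 (.lc 4 0 .stop)))))
 (.lc 2 2 (.lc 3 2 .stop))))))
 (.node [66,116,130] 8 2 (.far [1,1,1,4096,4096] 256 (.lc 2 2 (.node [138] 9 8 (.far [16,257,1,4096,0,4096] 0 (.conf [144,162,130] (.conf [155,186] (.far [1,4112,16,256,257,256,16,256,257] 0 (.conf [144,162,130] .stop)))))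
 (.lc 3 2 (.node [138,160,138,152] 9 8 (.far [1,4096,0,256,0,257,257,0,4096,0,0,257] 4096 (.lc 1 0 .stop))
 (.lc 3 2 (.lc 3 2 (.conf [9,160] (.node [139,186,139,162,152] 9 8 (.node [155,186,162] 9 11 (.far [4112,4112,0,0,4096,257,4112,4112,0,257] 0 (.lc 2 8 (.conf [186,203] (.lc 1 2 (.lc 2 2 .stop)))))
 (.lc 3 0 (.lc 1 10 (.lc 3 0 (.lc 4 0 .stop)))))
 (.node [9,138] 9 8 (.far [16,257,1,4096,0,4096] 17 (.conf [155,186] .stop))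
 (.lc 3 2 (.conf [9,160] .stop))))))))))))
 (.node [116,128,152,66] 0 4 (.lc 2 9 .stop)
 (.lc 2 2 (.node [116,138,164,152] 9 8 (.node [154] 10 4 (.far [1,0,1,0,0,0,0,1,0,1,256] 0 (.lc 3 0 (.lc 3 11 (.far [1,1,4096,256,0,258,514,0,8192,0,16,513] 4096 (.node [32,178] 9 10 (.far [4112,0,4112,0,4096,257,4112,4112,0,257] 0 (.lc 2 4 (.far [4112,0,4112,0,4096,257,4112,4112,0,257] 0 (.conf [171,202] (.lc 2 4 (.lc 3 4 .stop))))))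
 (.lc 3 0 (.lc 3 11 (.lc 4 11 (.lc 4 12 .stop)))))))))
 (.lc 3 0 (.conf [155,186] (.lc 3 0 (.lc 4 0 (.lc 4 0 .stop))))))
 (.lc 4 4 (.conf [9,160] (.lc 4 4 (.conf [66,123,186] (.lc 3 2 (.lc 3 2 (.conf [116,164,66] (.conf [9,128] (.conf [66,162,32] (.far [1,1,4096,4096] 256 (.node [66,138,162,152] 9 8 (.far [16,257,4096,0,4112,4096,4096] 0 (.lc 3 0 (.conf [155,186] (.lc 3 0 (.lc 4 0 .stop)))))
 (.far [256,0,0,16,4096,4112,0,16,4096] 17 (.conf [116,138,162] (.conf [9,160] (.node [66,139,186,152,162] 9 8 (.node [155] 9 11 (.far [4112,4112,0,4096,257,4112,4112,0,257] 0 (.lc 2 8 (.conf [186,203] (.lc 1 2 (.lc 2 2 .stop)))))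
 (.lc 3 0 (.lc 1 10 (.lc 3 0 (.lc 4 0 .stop)))))
 .stop))))))))))))))))))))))))))))))))))))
 (.lc 1 7 (.lc 1 7 (.lc 1 7 (.lc 3 10 (.lc 2 7 .stop))))))
 (.node [26,104,150,169,104] 9 6 (.node [152] 1 10 (.node [] 10 9 (.lc 2 0 (.node [152,162] 2 9 .stop
 (.node [152,171] 9 8 (.far [4112,1,0,4096,257,4112,4112,0,257] 0 (.lc 2 7 (.lc 2 7 (.lc 2 7 (.lc 0 12 (.lc 2 7 (.lc 3 7 (.lc 3 7 .stop))))))))
 (.lc 3 0 (.conf [171,184] (.conf [152,185] (.conf [152,185] (.lc 3 0 (.lc 3 0 (.conf [152,185] (.lc 1 7 (.lc 1 7 (.lc 1 7 (.conf [150,162] (.lc 1 6 (.conf [150,171] (.node [152,171,178] 2 9 .stop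
 (.far [257,0,0,257,0,0,0,257,257,256] 0 (.node [152,172,203] 10 12 (.node [203] 9 8 (.far [4112,4112,1,1,4112,513] 0 (.lc 2 7 (.lc 2 7 (.lc 0 13 (.lc 2 7 (.lc 3 7 .stop))))))
 (.lc 2 11 (.lc 2 11 (.lc 2 11 (.node [203] 2 12 (.node [203] 4 12 .stop
 (.lc 2 2 .stop))
 (.conf [203,220] (.lc 2 11 (.lc 2 11 (.lc 3 11 (.lc 3 11 .stop))))))))))
 (.lc 2 7 (.lc 2 7 (.lc 2 7 (.conf [152,185] (.conf [150,172] (.lc 2 7 (.lc 2 7 (.lc 2 7 (.lc 2 7 (.lc 2 7 (.lc 3 7 .stop))))))))))))))))))))))))))))))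
 (.lc 2 9 (.lc 2 9 (.node [186] 10 9 (.node [152,162] 2 9 .stop
 (.lc 2 1 (.node [152,172] 9 8 (.far [4112,1,0,4096,257,4112,4112,0,257] 0 (.lc 2 7 (.lc 2 7 (.lc 2 7 (.lc 0 13 (.lc 2 7 (.lc 3 7 .stop)))))))
 (.lc 3 1 (.conf [172,200] (.lc 3 2 (.lc 3 13 (.lc 3 1 (.conf [152,201] (.lc 1 7 (.lc 1 7 (.lc 1 7 (.lc 3 2 (.lc 1 6 (.lc 3 12 (.lc 3 12 (.lc 3 2 (.lc 3 13 (.lc 2 7 (.lc 2 7 (.lc 4 14 (.lc 4 13 (.lc 2 7 (.lc 2 7 (.lc 2 7 (.lc 2 7 (.lc 2 7 (.lc 3 7 .stop))))))))))))))))))))))))))))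
 (.lc 2 9 (.lc 3 9 .stop))))))
 (.lc 1 7 (.lc 1 7 (.lc 1 7 (.lc 1 7 (.lc 1 7 (.lc 3 0 (.lc 3 11 (.lc 2 7 (.lc 2 7 (.lc 2 7 (.lc 2 7 .stop))))))))))))
 (.node [97,135] 8 7 (.node [116,130] 8 2 (.far [1,257,0,1,257,0,4096,0,0,257] 4096 .stop)
 (.lc 1 4 (.node [116,137] 7 4 (.node [66] 8 9 (.node [9] 9 4 (.node [146] 0 9 (.far [257,0,1,0,257,0,1,257,0,4096,0,0,257] 4096 .stop)
 (.lc 3 0 (.far [16,0,16,0,0,0,0,16,0,16,4096] 0 .stop)))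
 (.lc 2 4 (.far [4112,0,4112,1,4128,8208,4112,257,256] 17 (.lc 2 4 (.lc 2 4 (.lc 3 4 .stop))))))
 (.conf [66,116,146] (.lc 2 2 (.far [4112,1,0,1,256,256] 0 (.far [257,16,0,16,4096,4096] 0 (.conf [66,116,154] .stop))))))
 (.lc 1 2 (.lc 2 4 (.lc 3 0 (.lc 3 0 (.lc 2 4 (.conf [138,169] (.lc 2 4 (.lc 2 4 (.lc 3 0 (.lc 3 4 (.lc 3 4 (.lc 4 0 (.lc 2 2 (.lc 3 4 (.lc 3 4 .stop))))))))))))))))))
 (.node [97,135,152] 8 7 (.node [116,128] 8 0 (.node [144] 0 7 (.far [16,0,16,0,16,4096,4096] 0 .stop)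
 (.lc 0 10 .stop))
 (.node [116,130] 8 2 (.lc 0 0 .stop)
 (.lc 1 4 (.node [116,138] 9 8 (.node [154] 7 4 (.node [66] 10 4 (.node [162] 9 10 (.node [146] 9 2 .stop
 (.far [16,257,4096,4096,4096] 17 .stop))
 (.lc 3 4 (.far [16,16,0,0,0,0,0,16,0,16,4096] 17 (.far [16,16,0,0,0,0,0,16,0,16,4096] 0 .stop))))
 (.conf [66,116,162] (.far [4112,0,1,0,1,256,256] 0 (.lc 2 2 (.far [4112,0,1,0,1,256,256] 0 (.far [257,0,16,0,16,4096,4096] 0 (.conf [66,116,160] (.conf [66,116,171] .stop))))))))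
 (.lc 3 0 (.lc 3 2 (.lc 3 11 (.lc 1 7 (.lc 1 7 (.lc 3 0 (.lc 3 11 (.lc 4 11 (.lc 4 0 (.lc 4 0 (.lc 4 12 .stop))))))))))))
 (.lc 2 4 (.lc 1 2 (.lc 2 4 (.lc 3 6 (.lc 3 6 (.conf [138,160] (.node [116,128] 2 7 (.lc 0 2 .stop)
 (.lc 2 4 (.node [116,128,167,116] 8 0 .stop
 (.conf [139,186] (.lc 2 4 (.lc 2 4 (.lc 3 6 (.lc 3 6 (.lc 2 4 (.lc 3 6 (.lc 3 4 (.lc 3 4 (.lc 4 6 (.lc 4 6 (.lc 3 4 (.lc 4 6 (.lc 4 6 (.lc 3 4 (.lc 2 2 (.lc 3 4 (.lc 3 4 (.lc 3 4 (.lc 4 4 (.lc 4 4 .stop))))))))))))))))))))))))))))))))))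
 (.node [104,150,104] 9 6 (.node [152] 7 4 (.lc 1 2 (.lc 2 4 (.node [66,122] 8 7 (.node [138] 10 4 (.node [] 9 8 (.lc 1 6 (.node [138,155] 8 10 (.node [162] 9 11 (.node [11] 11 10 (.node [178] 11 2 (.far [1,257,0,1,0,0,257,0,0,0,1,257,0,4096,0,0,257] 4096 .stop)
 (.lc 3 0 .stop))
 (.lc 2 10 (.lc 2 10 .stop)))
 (.conf [162,178,32] (.far [4112,1,0,4112,0,256,0,256] 0 .stop)))
 (.lc 2 6 (.conf [11,184] (.conf [156,203] (.lc 2 6 (.lc 2 6 (.conf [1,144] (.lc 3 6 (.lc 3 6 (.lc 3 6 (.lc 3 6 .stop))))))))))))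
 (.conf [9,160] (.node [171,178,66] 8 10 (.node [178] 9 8 (.node [155] 9 11 (.node [11] 11 2 (.far [4096,1,256,257,0,257,0,0,0,1,257,0,4096,0,0,257] 4096 .stop)
 (.lc 2 2 .stop))
 (.lc 1 2 (.lc 1 2 .stop)))
 (.lc 3 6 (.far [16,256,4096,4112,0,0,0,0,16,0,16,4096] 0 .stop)))
 (.far [16,0,16,0,0,0,0,16,0,16,4096] 0 (.far [1,0,1,0,0,0,0,1,0,1,256] 0 (.node [172,203,66,178] 8 10 (.far [1,4096,256,257,0,0,0,0,1,0,1,256] 0 (.lc 3 6 (.lc 1 11 .stop)))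
 .stop))))))
 (.conf [130,164,116] (.conf [139,164,186] (.far [16,257,0,0,16,4096,4096] 0 (.far [1,4112,0,0,1,256,256] 0 (.conf [140,164,116] .stop))))))
 (.lc 3 4 (.conf [66,122,162] (.lc 2 2 (.conf [116,138,164] (.lc 2 2 (.lc 2 2 (.lc 3 4 (.node [66,164,186,66,123] 8 7 (.far [1,4112,0,0,1,256,256] 0 (.lc 3 2 (.lc 3 12 (.lc 1 10 (.lc 3 12 (.lc 4 13 .stop))))))
 (.far [1,0,0,0,1,4096,4096,0,0,257] 4096 (.lc 3 4 (.node [32,66,122] 7 10 (.far [257,257,0,0,16,4096,4096] 0 (.lc 2 2 (.node [139,186,152] 9 8 (.node [155] 9 11 (.node [11] 11 10 .stop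
 (.lc 2 8 .stop))
 (.lc 3 0 (.lc 1 10 .stop)))
 (.lc 2 2 (.lc 3 2 .stop)))))
 (.node [66,116,130] 8 2 (.far [1,1,1,4096,4096] 256 (.lc 2 2 (.node [138] 9 8 (.far [16,257,1,4096,0,4096] 0 (.conf [10,162] (.conf [155,186] .stop)))
 (.lc 3 2 (.conf [9,160] (.lc 3 2 (.lc 3 2 (.node [139,186,139,162,152] 9 8 (.node [155,186,162] 9 11 (.node [11] 11 10 .stop
 (.lc 1 2 .stop))
 (.lc 3 0 (.lc 1 10 .stop)))
 (.lc 3 2 .stop)))))))))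
 (.lc 2 2 (.node [116,138,164,152] 9 8 (.node [154] 10 4 (.far [1,0,1,0,0,0,0,1,0,1,256] 0 (.lc 3 0 (.lc 3 11 (.node [32,178] 9 10 (.node [171,178] 10 11 .stop
 (.lc 2 4 .stop))
 (.lc 3 11 (.lc 4 12 .stop))))))
 (.lc 3 0 (.conf [155,186] (.lc 4 0 .stop))))
 (.lc 4 4 (.conf [66,123,186] (.lc 3 2 (.conf [116,164,66] (.conf [66,162,32] (.conf [9,128] (.node [66,138,162,152] 9 8 (.far [16,257,4096,0,4112,4096,4096] 0 (.lc 3 0 (.conf [155,186] .stop)))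
 (.conf [116,138,162] (.node [66,139,186,152,162] 9 8 (.node [155] 9 11 (.node [11] 11 10 .stop
 (.lc 1 2 .stop))
 (.lc 3 0 (.lc 1 10 .stop)))
 .stop))))))))))))))))))))))))))
 (.lc 1 7 (.lc 1 7 (.lc 1 7 (.lc 3 10 (.lc 2 7 .stop))))))
 (.node [104,150,169,104] 9 6 (.node [152] 10 9 (.node [152,160] 0 9 (.node [135] 10 0 (.node [168] 10 8 .stop
 .stop)
 (.lc 1 7 (.lc 1 7 (.lc 1 7 (.far [1,1,4097,1,8224,8208,4112,257,256] 17 (.lc 2 7 .stop))))))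
 (.node [152,162] 2 9 .stop
 (.node [152,171] 9 8 (.node [135] 1 10 (.node [171] 10 11 (.node [184] 11 8 (.lc 2 0 (.node [135,178] 2 8 (.far [16,16,0,0,16,0,4096,0,4096] 0 .stop)
 (.lc 1 6 (.node [135,188] 8 7 (.node [116] 7 4 (.node [66] 11 12 (.node [196] 12 4 .stop
 (.far [4112,0,0,4112,1,0,256,256] 17 .stop))
 (.conf [66,116,194] (.lc 2 2 (.far [4112,1,0,0,0,0,0,0,0,1,256,256] 0 (.far [257,16,0,0,0,0,0,0,0,16,4096,4096] 0 (.conf [66,116,205] .stop))))))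
 (.conf [116,134,196] (.far [4112,1,0,0,1,0,256,0,256] 0 (.conf [116,134,194] .stop))))
 (.conf [134,188,199] (.far [257,0,0,1,0,256,0,257,257,0,4096,0,0,257] 4096 (.conf [176,200,12] (.lc 3 0 (.node [135,200,220,135,189] 8 7 (.far [257,16,0,0,16,0,4096,0,4096] 0 (.lc 2 4 (.lc 0 14 (.lc 3 4 .stop))))
 (.node [116,134,180] 11 4 (.far [257,257,16,0,4096,4096,0,0,1,257,0,4096,0,0,257] 4096 .stop)
 (.node [134,176,7] 0 7 (.far [256,0,0,0,0,0,0,0,0,1,4096,4096,0,0,257] 4096 .stop)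
 (.far [257,0,0,1,0,256,0,257,257,0,4096,0,0,257] 4096 (.far [16,0,0,16,0,4096,0,4112,4096,4096] 0 (.conf [176,200,135] (.far [4096,1,0,257,256,256,0,256] 17 (.far [256,256,256,0,0,0,0,1,258,4096,8192,0,0,514] 4112 .stop))))))))))))))))
 (.lc 2 8 (.lc 2 8 (.far [4112,1,4112,4096,4112,256] 17 (.far [4112,1,4112,4096,4112,256] 0 (.lc 2 8 (.lc 2 8 (.lc 3 8 (.lc 3 8 .stop)))))))))
 (.node [28,171] 10 11 (.node [184] 1 12 (.node [203] 12 11 (.lc 2 0 (.node [184,194] 2 11 .stop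
 (.lc 1 8 (.node [184,205] 11 8 (.node [135] 8 7 (.node [116] 12 13 (.node [215] 13 7 .stop
 (.far [4112,0,0,4112,1,256,256] 17 (.far [4112,0,0,4112,1,256,256] 0 .stop)))
 (.conf [116,134,212] (.far [4112,1,0,0,0,0,1,0,256,0,256] 0 (.conf [116,134,210] .stop))))
 (.conf [134,184,215] (.far [4112,1,0,1,0,256,256] 0 .stop)))
 (.lc 3 0 (.conf [184,205,216] (.far [257,0,1,0,257,256,256,0,257,257,0,4096,0,0,257] 4096 (.conf [192,219,184] (.lc 3 0 (.lc 3 0 (.node [184,219,237,184,206] 11 8 (.far [257,16,0,16,0,4096,4096] 0 (.lc 2 6 (.lc 0 15 .stop)))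
 (.node [134,184,199] 12 7 .stop
 (.node [184,192,135] 0 8 (.far [1,257,0,0,0,1,0,256,0,256] 0 (.far [1,257,0,0,0,1,0,256,0,256] 17 (.far [1,513,16,4096,4096,2,0,512,0,513,256,256] 17 .stop)))
 (.far [257,0,1,0,257,256,256,0,257,257,0,4096,0,0,257] 4096 (.lc 2 8 (.node [192,184] 13 11 (.far [1,1,0,1,0,256,256] 0 (.lc 3 7 (.lc 3 14 .stop)))
 (.conf [192,219,184] (.conf [192,219,184] (.far [4096,1,257,256,256,256] 17 (.conf [184,216,135] (.far [1,0,1,0,257,256,256,0,256] 0 .stop)))))))))))))))))))))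
 (.lc 2 11 (.node [203,220] 12 11 (.node [184,194] 12 2 .stop
 (.lc 1 8 (.lc 2 1 (.node [184,206] 11 8 (.node [135] 8 7 (.node [116] 12 14 (.far [257,0,0,257,16,4096,4096] 0 (.lc 0 15 .stop))
 (.conf [116,134,228] (.far [4112,1,0,0,0,0,1,0,256,0,256] 0 (.conf [116,134,226] .stop))))
 (.conf [134,184,231] (.far [4112,1,0,1,0,256,256] 0 .stop)))
 (.lc 3 1 (.conf [206,232] (.conf [184,222,235] (.lc 3 1 (.conf [207,254] (.node [134,184,199] 12 7 .stop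
 (.far [256,16,4112,4096,4096,4096] 0 (.lc 0 2 (.lc 2 8 (.lc 0 14 (.lc 0 15 (.lc 0 14 (.lc 0 7 .stop)))))))))))))))))
 (.lc 2 11 (.lc 3 11 .stop)))))
 (.lc 2 8 (.lc 2 8 (.lc 2 8 (.lc 0 0 (.lc 0 13 (.lc 2 8 (.lc 2 8 (.lc 3 8 (.lc 3 8 (.lc 3 8 (.lc 3 8 .stop))))))))))))
 (.lc 2 1 (.lc 2 1 (.conf [171,202] (.conf [171,202] (.conf [171,202] (.lc 2 1 (.lc 2 1 (.lc 2 1 (.node [171] 10 11 (.far [4112,1,4112,4096,4112,256] 4097 (.lc 2 8 (.lc 2 8 (.lc 0 13 (.lc 2 8 (.lc 3 8 .stop))))))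
 (.lc 3 1 (.lc 3 1 (.conf [171,202] (.lc 3 1 (.lc 3 1 (.lc 3 1 (.lc 4 1 .stop))))))))))))))))))
 (.lc 2 7 (.lc 2 7 (.lc 2 7 (.lc 0 0 (.lc 0 12 (.lc 2 7 (.lc 2 7 (.lc 3 7 (.lc 3 7 (.lc 3 7 (.lc 3 7 .stop))))))))))))
 (.conf [150,160] (.conf [150,171] (.conf [152,171] (.conf [152,160] (.conf [152,160] (.conf [152,162] (.conf [152,172] (.conf [171,176] (.node [152,160] 2 9 .stop
 (.conf [152,185] (.conf [152,185] (.lc 1 7 (.lc 1 7 (.lc 1 7 (.node [150,160,135] 10 0 (.node [] 0 8 (.far [257,16,1] 256 (.lc 1 0 (.node [135] 8 7 (.far [4112,1,0,257,256,0,256] 0 (.conf [116,128,180] (.far [4112,1,0,257,256,0,256] 0 (.conf [116,128,178] .stop))))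
 (.lc 2 0 (.lc 2 0 (.node [135,184,135] 8 7 (.far [257,256,0,0,0,0,1,257,0,4096,0,0,257] 4096 (.lc 2 4 (.lc 0 12 .stop)))
 (.node [135,184,43,135] 8 7 (.far [257,256,0,0,0,0,1,257,0,4096,0,0,257] 4096 (.lc 2 4 (.lc 0 12 .stop)))
 (.node [135,184,203,135] 8 7 (.node [183] 11 7 (.node [180,203] 11 4 (.lc 0 2 .stop)
 (.far [16,16,0,0,0,0,0,16,4096,4096] 0 (.far [1,1,0,0,0,0,0,1,256,256] 0 (.conf [66,116,183] .stop))))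
 (.lc 2 4 (.lc 0 13 (.lc 3 4 .stop))))
 (.lc 2 0 (.lc 2 0 (.far [257,0,257,256,0,257,256,257,0,1,256] 0 (.lc 2 0 (.node [135] 8 7 (.far [4112,1,0,257,256,0,256] 17 (.conf [116,128,180] (.far [4112,1,0,257,256,0,256] 17 .stop)))
 (.lc 3 0 (.lc 3 0 (.node [135,184,203,44,135] 8 7 (.node [183] 11 7 (.node [180,203] 11 4 .stop
 (.far [1,1,0,0,0,0,0,1,256,256] 0 .stop))
 (.lc 2 4 (.lc 0 13 .stop)))
 (.lc 2 4 (.lc 3 0 (.lc 1 2 (.lc 3 0 .stop))))))))))))))))))))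
 .stop)
 (.node [150,162,135] 10 2 .stop
 (.lc 1 6 (.node [150,171,135] 1 10 (.node [27] 1 11 (.node [184] 11 8 (.lc 2 0 (.node [135,178] 2 8 (.node [66,116,130] 11 2 (.far [257,0,257,16,4096,1] 0 .stop)
 .stop)
 (.lc 1 6 (.node [135,188] 8 7 (.far [4112,1,0,0,257,256,0,256] 0 (.conf [116,134,196] (.far [4112,1,0,0,257,256,0,256] 0 (.conf [116,134,194] .stop))))
 (.lc 2 6 (.lc 2 6 (.lc 3 0 (.lc 3 0 (.lc 3 0 (.lc 3 0 (.node [135,200,220,135,189] 8 7 (.node [199] 12 7 (.node [196,220] 12 4 (.lc 0 2 .stop)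
 (.far [16,16,0,0,0,0,0,0,16,4096,4096] 0 (.far [1,1,0,0,0,0,0,0,1,256,256] 0 (.conf [66,116,199] .stop))))
 (.lc 2 4 (.lc 0 14 (.lc 3 4 .stop))))
 (.lc 2 6 (.lc 2 6 (.lc 3 0 (.lc 2 6 (.lc 3 0 (.lc 3 6 (.lc 4 0 (.lc 4 0 (.lc 3 6 (.lc 3 6 (.lc 3 6 (.lc 4 6 .stop)))))))))))))))))))))))
 (.lc 2 8 (.node [184,203] 11 8 (.node [135,178] 11 2 .stop
 (.lc 1 6 (.lc 2 1 (.node [135,189] 12 11 (.far [16,257,16,4096,1] 0 (.lc 3 2 (.lc 3 14 (.lc 1 8 (.lc 3 14 (.lc 4 15 .stop))))))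
 (.lc 2 6 (.lc 2 6 (.lc 3 1 (.lc 3 1 (.conf [190,237] (.lc 2 6 (.lc 2 6 (.lc 3 1 (.lc 2 6 (.lc 3 1 (.lc 3 6 (.lc 4 1 (.lc 3 6 (.lc 3 6 (.lc 4 6 .stop)))))))))))))))))))
 (.lc 2 8 (.lc 3 8 .stop)))))
 (.lc 1 8 (.lc 1 8 (.lc 1 8 (.far [1,4096,4112,256] 4097 (.lc 2 8 .stop))))))
 (.conf [152,171] (.conf [152,160] (.conf [152,171] (.conf [152,162] (.conf [152,160] (.conf [152,172] (.lc 2 7 (.lc 2 7 (.lc 2 7 (.lc 2 7 (.conf [152,172] (.conf [152,171] (.conf [152,172] (.conf [152,160] (.conf [152,160] (.conf [152,173] (.node [150,171,176,135] 0 8 (.far [257,1,1,1,4112,4096,4112,1,256,0,257] 4096 (.lc 2 0 (.node [135,200,44,135] 8 7 (.far [257,256,0,0,0,1,257,0,4096,0,0,257] 4096 (.lc 2 4 (.lc 0 13 .stop)))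
 (.lc 3 0 .stop))))
 (.node [150,160,135] 1 10 (.far [1,4096,4112,256] 17 .stop)
 (.conf [150,184,135] (.conf [150,184,135] (.lc 2 7 (.lc 2 7 (.lc 2 7 (.lc 2 7 (.lc 2 7 (.lc 2 7 (.lc 2 7 (.lc 2 7 (.lc 2 7 (.lc 2 7 (.lc 2 7 (.lc 3 7 (.lc 3 7 (.lc 3 7 (.lc 3 7 (.lc 3 7 (.lc 3 7 .stop))))))))))))))))))))))))))))))))))))))))))))))))))))))))))
 (.lc 1 7 (.lc 1 7 (.lc 1 7 (.lc 1 7 (.lc 1 7 (.lc 3 0 (.lc 3 11 (.lc 2 7 (.lc 2 7 (.lc 2 7 (.lc 2 7 .stop))))))))))))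
 (.lc 2 1 (.lc 2 1 (.lc 2 1 (.lc 2 1 (.far [1,4112,4112,0,257] 4097 (.conf [97,135,152] (.node [104] 9 6 (.far [1,1,4112,4112,0,257] 4097 (.conf [135,146,97] (.conf [135,154,97] (.node [135,168,97] 8 7 (.node [116,130,168] 8 2 .stop
 (.lc 1 4 (.node [116,139,168] 10 8 (.far [1,4112,1,1,4128,8208,4112,257,256] 4097 (.lc 3 2 (.lc 3 12 (.lc 1 7 (.lc 3 12 (.lc 4 13 .stop))))))
 (.lc 1 2 (.lc 2 4 (.conf [134,171] (.lc 2 4 (.conf [140,203] (.lc 2 4 (.lc 2 4 (.node [134,162,154,116] 2 7 (.lc 0 2 .stop)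
 (.lc 2 4 (.node [134,171,154,116] 9 10 (.node [155] 11 7 (.far [1,0,1,0,0,1,256,256] 0 (.lc 3 2 (.far [1,1,4096,257,1,0,16,256,257,257,256] 4097 (.lc 1 2 (.lc 3 12 (.lc 4 12 .stop))))))
 (.lc 3 2 (.lc 3 12 (.lc 1 7 (.lc 3 12 (.lc 4 13 .stop))))))
 (.lc 3 4 (.lc 3 4 (.conf [134,183,116] (.lc 2 2 (.lc 3 4 (.lc 3 4 (.lc 3 4 (.lc 4 4 .stop)))))))))))))))))))))
 (.far [1,1,4112,4112,0,257] 4097 (.conf [135,155,97] .stop))))))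
 (.node [26,104,169,150] 9 6 (.far [1,1,4112,4112,0,257] 0 (.lc 3 0 (.lc 3 2 (.lc 3 11 (.node [135] 0 1 .stop
 (.node [135,184] 1 10 (.node [169] 8 7 (.node [116,128,184] 8 0 .stop
 (.node [116,130,184] 8 2 (.lc 0 0 .stop)
 (.lc 1 4 (.node [116,140,184] 11 8 (.far [1,4112,0,1,1,4128,8208,4112,257,256] 0 (.lc 3 0 (.lc 3 2 (.lc 3 13 (.lc 1 7 (.lc 3 13 (.lc 4 0 (.lc 4 14 .stop))))))))
 (.lc 1 2 (.lc 2 4 (.conf [134,188] (.node [116,128,184] 2 7 (.lc 0 2 .stop)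
 (.lc 2 4 (.conf [141,220] (.lc 2 4 (.lc 2 4 (.node [134,176,155,169,116] 0 7 (.far [257,1,4112,1,1,4096,0,0,257,257,256] 256 .stop)
 (.node [134,178,155,169,116] 2 7 (.lc 0 2 .stop)
 (.lc 2 4 (.node [134,188,155,169,116] 9 11 (.node [156] 12 7 (.far [1,0,1,0,0,0,1,256,256] 0 (.lc 3 2 (.far [1,1,4096,0,257,1,0,16,256,257,257,256] 0 (.lc 1 2 (.lc 3 13 (.lc 4 0 (.lc 4 13 .stop)))))))
 (.lc 3 0 (.lc 3 2 (.lc 3 13 (.lc 1 7 (.lc 3 13 (.lc 4 0 (.lc 4 14 .stop))))))))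
 (.lc 3 4 (.lc 3 4 (.node [134,176,155,169,116] 2 7 (.lc 0 2 .stop)
 (.lc 3 4 (.conf [134,199,116] (.lc 2 2 (.lc 3 4 (.lc 3 4 (.lc 3 4 (.lc 4 4 (.lc 4 4 .stop)))))))))))))))))))))))))))
 (.lc 2 9 (.lc 2 9 (.node [169,202,169,155,184,135] 8 7 (.node [116,130] 8 2 .stop
 (.lc 1 4 (.lc 0 10 (.node [116,141] 11 8 (.far [1,4112,0,1,1,4128,8208,4112,257,256] 0 (.lc 3 2 (.lc 3 12 (.lc 3 14 (.lc 1 7 (.lc 3 14 (.lc 4 15 .stop)))))))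
 (.lc 1 2 (.lc 2 4 (.lc 3 6 (.lc 2 4 (.conf [142,237] (.lc 2 4 (.lc 2 4 (.lc 3 6 (.lc 2 4 (.lc 3 6 (.lc 3 6 (.lc 3 4 (.lc 3 4 (.lc 4 6 (.lc 2 2 (.lc 3 4 (.lc 3 4 (.lc 3 4 (.lc 4 4 .stop)))))))))))))))))))))))
 (.lc 2 9 (.lc 3 9 .stop))))))
 (.lc 3 0 (.lc 3 11 (.lc 4 11 (.lc 4 0 (.lc 4 0 (.lc 4 12 .stop))))))))))))
 (.lc 3 1 (.lc 3 1 (.node [97,135,152] 8 7 (.node [116,130] 8 2 .stop
 (.lc 1 4 (.node [116,138] 9 8 (.far [1,4112,1,4128,8208,4112,257,256] 4097 (.lc 3 2 (.lc 3 11 (.lc 1 7 (.lc 3 11 (.lc 4 12 .stop))))))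
 (.lc 1 2 (.lc 2 4 (.lc 3 6 (.lc 2 4 (.conf [139,186] (.lc 2 4 (.lc 2 4 (.lc 3 6 (.lc 2 4 (.lc 3 6 (.lc 3 4 (.lc 3 4 (.lc 4 6 (.lc 2 2 (.lc 3 4 (.lc 3 4 (.lc 3 4 (.lc 4 4 .stop)))))))))))))))))))))
 (.node [97,135,152,169] 1 10 (.node [169] 8 7 (.node [116,128] 8 0 .stop
 (.node [116,130] 8 2 (.lc 0 0 .stop)
 (.lc 1 4 (.node [116,139] 9 8 (.far [1,4112,0,1,4128,8208,4112,257,256] 0 (.lc 3 0 (.lc 3 2 (.lc 3 12 (.lc 1 7 (.lc 3 12 (.lc 4 0 (.lc 4 13 .stop))))))))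
 (.lc 1 2 (.lc 2 4 (.lc 3 6 (.node [116,128] 2 7 (.lc 0 2 .stop)
 (.lc 2 4 (.conf [140,203] (.lc 2 4 (.lc 2 4 (.lc 3 6 (.lc 3 6 (.lc 2 4 (.lc 3 6 (.lc 3 4 (.lc 3 4 (.lc 4 6 (.lc 3 4 (.lc 4 6 (.lc 2 2 (.lc 3 4 (.lc 3 4 (.lc 3 4 (.lc 4 4 (.lc 4 4 .stop)))))))))))))))))))))))))))
 (.lc 2 9 (.conf [169,186] (.lc 2 9 (.lc 3 9 .stop)))))
 (.node [104,150,169,104] 9 6 (.node [152] 10 9 (.node [152,162] 2 9 .stop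
 (.node [152,171] 9 8 (.far [4112,1,4097,1,8224,8208,4112,257,256] 4097 (.lc 2 7 (.lc 2 7 (.lc 0 12 (.lc 2 7 (.lc 3 7 .stop))))))
 (.conf [150,171] (.conf [152,162] (.conf [152,172] (.conf [152,185] (.lc 1 7 (.lc 1 7 (.node [150,162,135] 10 2 (.far [257,256,257,4096] 4097 .stop)
 (.lc 1 6 (.node [150,171,135] 10 11 (.far [257,256,257,4096] 4097 (.lc 2 8 (.node [184] 2 11 (.far [4112,16,4096,4096,0,4112,4096,4112,0,16,4096] 17 (.lc 2 8 (.lc 2 8 .stop)))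
 (.lc 2 8 (.lc 2 8 (.lc 3 8 .stop))))))
 (.conf [152,171] (.conf [152,162] (.conf [152,172] (.lc 2 7 (.conf [152,173] (.conf [150,184,135] (.lc 2 7 (.lc 2 7 (.lc 2 7 (.lc 2 7 (.lc 2 7 (.lc 3 7 .stop)))))))))))))))))))))))
 (.lc 1 7 (.lc 1 7 (.lc 1 7 (.lc 3 11 (.lc 2 7 .stop))))))
 (.node [27,104,150,169,186,104,169,150] 9 6 (.node [152] 1 11 (.node [186] 11 10 (.node [169,178] 11 2 (.far [16,4112,4112,1,4096,4112,4112,0,256,0,0,4112] 1 .stop)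
 (.node [169,184] 11 8 .stop
 (.node [169,188] 11 12 (.far [4112,4112,8208,1,4096,4112,4112,0,256,0,0,4112] 257 (.lc 2 10 (.lc 2 10 (.lc 2 10 (.far [4112,4112,8208,1,4096,4112,4112,0,256,0,0,4112] 4098 (.far [4112,4112,8208,1,4096,4112,4112,0,256,0,0,4112] 257 (.lc 2 10 (.lc 2 10 (.lc 3 10 (.lc 3 10 .stop))))))))))
 (.lc 2 9 (.lc 2 9 (.lc 2 9 (.lc 2 9 (.lc 3 0 (.lc 3 0 (.conf [169,202] (.lc 2 9 (.lc 2 9 (.lc 2 9 (.lc 2 9 (.lc 2 9 (.lc 2 9 (.lc 2 9 (.lc 3 0 (.lc 3 0 (.lc 3 0 (.lc 3 9 (.lc 4 0 (.lc 4 0 (.lc 3 9 (.lc 3 9 (.lc 3 9 (.lc 3 9 (.lc 3 9 (.lc 3 9 (.lc 3 9 (.lc 3 9 (.lc 3 9 (.lc 3 9 (.lc 3 9 (.lc 4 9 (.lc 4 9 .stop))))))))))))))))))))))))))))))))))))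
 (.lc 2 10 (.lc 2 10 (.conf [186,203] (.lc 2 10 (.lc 3 10 .stop))))))
 (.lc 1 7 (.lc 1 7 (.lc 1 7 (.lc 1 7 (.lc 1 7 (.lc 3 0 (.lc 3 12 (.lc 2 7 (.lc 2 7 (.lc 2 7 (.lc 2 7 .stop))))))))))))
 (.lc 3 1 (.lc 3 1 (.lc 3 1 (.lc 3 1 (.lc 3 1 (.lc 3 1 (.lc 4 1 (.lc 4 1 .stop)))))))))))))))))))))))))))))))))))
 (.lc 3 1 (.lc 2 4 (.lc 2 4 (.lc 2 4 (.lc 2 4 (.lc 3 1 (.lc 2 4 (.lc 3 8 (.lc 3 0 (.lc 3 2 (.lc 3 0 (.lc 3 2 (.lc 3 9 (.lc 3 1 (.node [116,128] 0 7 (.node [116] 7 4 (.lc 1 2 .stop)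
 (.lc 1 2 (.lc 2 0 (.node [116,151,41,116] 7 4 (.far [257,16,16,4096,4096] 0 (.lc 0 10 .stop))
 (.far [16,16,4096,4112,0,16,4096] 0 .stop)))))
 (.node [116] 2 7 (.lc 0 2 .stop)
 (.lc 2 4 (.node [116,135] 0 8 (.node [135] 8 7 (.node [116,129] 1 7 .stop
 (.lc 1 4 (.node [116,137] 2 8 (.node [151] 9 7 (.far [16,0,16,0,16,4096,4096] 0 (.lc 3 10 .stop))
 (.lc 1 7 (.lc 1 7 .stop)))
 (.conf [137,148] (.lc 2 4 (.lc 3 0 (.conf [116,151] (.lc 1 2 (.lc 1 2 .stop)))))))))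
 (.far [16,16,4096,4112,0,16,4096] 0 (.node [135,152] 8 7 (.node [116,151] 9 7 (.far [16,16,0,16,4096,4096] 0 (.lc 3 10 .stop))
 (.lc 2 4 (.conf [116,167] .stop)))
 (.conf [135,152] (.node [135,152] 8 7 (.conf [116,151] (.lc 2 4 (.lc 0 10 .stop)))
 (.node [135,152,169,42] 8 7 (.conf [116,151] (.lc 2 4 (.lc 0 11 .stop)))
 .stop))))))
 (.lc 3 1 (.node [116,135,152] 8 7 (.node [116,128] 0 7 (.far [16,16,16,4096,4096] 0 (.far [4112,16,16,4096,4112,0,16,4096] 0 (.far [16,16,16,4096,4096] 0 (.lc 1 2 .stop))))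
 (.node [116,129] 1 7 .stop
 (.node [116,130] 2 7 (.lc 0 2 .stop)
 (.lc 1 4 (.node [116,138] 7 4 (.far [257,16,16,4096,4096] 0 (.lc 0 2 (.lc 0 0 (.lc 2 2 (.lc 0 11 (.far [257,16,16,4096,4096] 0 (.lc 0 0 (.lc 0 11 .stop))))))))
 (.node [116,128,152,66] 0 4 (.far [16,16,16,4096,4112,0,16,4096] 0 .stop)
 (.lc 1 2 (.conf [66,138,164] (.lc 3 1 (.lc 3 10 (.lc 3 0 (.lc 2 4 (.lc 3 0 (.lc 3 1 (.lc 3 2 (.lc 3 11 (.node [116,129] 1 6 .stop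
 (.node [116,138,160,138,152] 0 7 (.far [16,16,16,4096,4096] 0 .stop)
 (.node [116,128] 2 7 (.lc 0 2 .stop)
 (.lc 2 4 (.conf [116,167] (.conf [116,167] (.far [16,16,4096,4112,0,16,4096] 0 (.lc 3 0 (.lc 3 1 (.lc 1 2 (.lc 3 10 (.lc 3 1 (.lc 3 10 (.lc 3 10 (.lc 3 0 (.lc 3 10 (.lc 2 4 (.lc 1 2 (.lc 2 4 (.lc 3 0 (.lc 3 11 (.far [16,16,4096,4112,0,16,4096] 17 (.conf [32,138,162] (.lc 4 10 (.lc 4 11 (.lc 4 10 (.lc 3 4 (.lc 3 4 (.lc 4 1 (.lc 4 11 (.lc 4 0 (.lc 4 0 (.lc 4 12 (.lc 4 1 (.lc 4 10 (.lc 2 2 (.lc 2 2 (.lc 4 0 (.lc 4 11 (.lc 4 0 (.lc 4 10 (.lc 4 0 (.lc 4 10 (.lc 5 10 (.lc 5 11 .stop)))))))))))))))))))))))))))))))))))))))))))))))))))))))))))))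
 (.lc 3 1 (.lc 2 4 (.lc 2 4 (.lc 2 4 (.lc 3 1 (.lc 2 4 (.lc 2 4 (.lc 3 8 (.lc 3 0 (.lc 3 8 (.lc 3 0 (.lc 3 2 (.lc 3 9 (.lc 3 8 (.lc 3 0 (.lc 3 8 (.lc 3 0 (.lc 1 2 (.lc 3 8 (.lc 3 0 (.lc 3 9 (.lc 3 4 (.lc 3 4 (.lc 4 1 (.lc 3 4 (.lc 3 4 (.lc 3 4 (.lc 4 1 (.lc 3 4 (.lc 4 9 (.lc 4 8 (.lc 4 0 (.lc 4 8 (.lc 4 9 (.lc 4 0 (.lc 4 0 (.lc 4 10 (.lc 4 9 (.lc 4 8 (.lc 4 9 (.lc 4 9 (.lc 4 0 (.lc 4 0 (.lc 4 10 (.lc 4 9 (.lc 4 8 (.lc 4 9 (.lc 4 0 (.lc 4 9 (.lc 4 0 (.lc 4 10 (.lc 4 9 (.lc 4 8 (.lc 4 9 (.lc 4 0 (.lc 4 0 (.lc 4 2 (.lc 4 10 (.lc 5 10 (.lc 5 9 (.lc 5 10 (.lc 5 9 (.lc 5 10 (.lc 5 0 (.lc 5 0 (.lc 5 11 .stop)))))))))))))))))))))))))))))))))))))))))))))))))))))))))))))))))))))))))))))))))))))))))))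

theorem t11 : kNode2 awTt FTt 6 7 (check tyTt awTt triet FTt [] c11) (fun _ _ _ => true) 0 s11 Pl.nil s11 =
    true := by
  decide +kernel

end Chk
end Pool.Agent.Lib.MP_ba95e8_co
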