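import Pool.Agent.Lib.MP_ba95e8_co.ChkTab
import Pool.Agent.Lib.MP_ba95e8_co.ChkStates

/-!
Deltahedral domes: part 13 of the case analysis.
-/

namespace Pool.Agent.Lib.MP_ba95e8_co
namespace Chk

/-- certificate number 13 -/
def c13 : Cert := (.node [101] 5 4 (.node [66,80] 0 4 (.far [257,1,4112,4096,0,257] 4096 .stop)
 (.node [66,81] 1 4 .stop
 (.node [66,87] 7 4 (.node [114] 6 5 (.node [] 0 5 (.far [257,1,0,0,4112,1,0,257] 4096 (.far [1,1,0,4112,0,257] 0 (.node [87] 5 7 (.far [4112,1,1,0,4112,0,257] 0 (.lc 2 2 (.lc 2 2 (.far [4112,1,1,0,4112,0,257] 0 (.lc 2 2 (.lc 3 2 .stop))))))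
 (.lc 2 0 (.lc 2 0 (.node [87,133,40,87] 5 7 (.far [257,256,0,0,257,4112,4096,0,257] 4096 (.lc 2 2 (.lc 2 2 (.lc 0 9 (.lc 2 2 (.lc 3 2 .stop))))))
 (.lc 1 2 (.node [87,133,152,87] 5 7 (.node [135] 0 9 (.far [257,257,256,0,0,257,4112,4096,0,257] 4096 (.far [4112,0,4112,256] 0 (.lc 2 8 (.lc 2 8 (.lc 2 8 .stop)))))
 (.lc 2 2 (.lc 2 2 (.lc 0 10 (.lc 2 2 (.lc 3 2 .stop))))))
 (.lc 2 0 (.lc 2 0 (.lc 1 2 (.lc 3 0 .stop))))))))))))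
 (.lc 2 1 (.lc 1 4 (.node [] 5 7 (.node [80,114] 5 0 (.far [4112,4112,1,0,4112,0,257] 0 (.far [4096,0,1,0,0,4112,1,0,257] 16 (.far [4112,4112,1,0,4112,0,257] 0 (.far [4112,4112,1,0,4112,0,257] 0 (.node [] 1 6 (.lc 0 1 .stop)
 (.far [4112,4112,1,0,4112,0,257,257,1] 16 .stop))))))
 (.node [81,114] 5 1 .stop
 (.lc 1 2 (.far [4112,1,0,4112,0,257] 0 (.node [89,114] 8 5 (.far [1,4112,1,0,4112,0,257] 0 (.conf [128,151,84] (.conf [129,151,84] (.conf [138,151,84] (.node [151,84] 0 9 (.far [257,1,4112,1,0,4112,0,257,257,1] 4096 (.lc 1 2 (.lc 1 2 .stop)))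
 (.node [151,169,84] 9 7 (.node [114,144,169] 9 0 (.node [160] 0 7 (.far [257,0,1,0,1,0,0,257,4112,4096,0,257] 4096 .stop)
 (.lc 0 1 (.lc 0 1 (.lc 0 11 (.far [257,257,16,258,16,16,513,0,4112,4096] 4097 (.lc 0 11 .stop))))))
 (.node [114,145,169] 9 1 .stop
 (.lc 1 2 (.node [114,155,169] 10 9 (.node [171] 11 7 (.node [178] 11 2 (.far [1,257,0,1,0,1,0,0,257,4112,4096,0,257] 4096 (.lc 3 2 (.node [188,192,188] 10 11 (.far [1,4112,4112,256,256] 0 (.lc 3 8 (.lc 1 0 (.lc 3 8 (.lc 4 8 .stop)))))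
 (.lc 0 8 .stop))))
 (.far [257,0,1,0,1,0,0,257,4112,4096,0,257] 4096 (.far [16,0,16,0,16,0,257,4096] 17 (.far [1,0,1,0,1,0,4112,256] 0 (.far [1,0,1,0,1,0,4112,256] 0 (.node [188,192,114] 10 11 (.far [1,4096,256,257,0,1,0,4112,256] 0 (.lc 3 8 (.lc 1 0 (.lc 3 8 (.lc 4 8 .stop)))))
 .stop))))))
 (.lc 3 0 (.lc 3 1 (.lc 3 12 (.lc 1 7 (.lc 1 7 (.lc 3 0 (.lc 3 12 (.lc 4 1 (.lc 4 12 (.lc 4 0 (.lc 4 13 .stop))))))))))))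
 (.lc 2 2 (.lc 2 2 (.conf [149,160] (.conf [149,171] (.node [114,145,169] 9 1 .stop
 (.conf [155,176] (.lc 2 2 (.node [114,144,183,169,114] 9 0 (.lc 0 1 .stop)
 (.conf [156,203] (.lc 2 2 (.lc 2 2 (.node [149,160,138,114] 0 7 (.far [1,1,0,1,0,4112,256] 0 .stop)
 (.node [149,161,138,114] 1 7 .stop
 (.lc 2 2 (.node [149,171,138,114] 8 10 (.node [139] 11 7 (.far [1,0,1,0,1,0,4112,256] 0 (.lc 3 0 (.far [1,1,4096,257,0,1,4112,16,0,257,257,1] 4096 (.lc 3 0 (.lc 3 12 (.lc 4 12 .stop))))))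
 (.lc 3 0 (.lc 3 1 (.lc 3 12 (.lc 1 7 (.lc 1 7 (.lc 3 0 (.lc 3 12 (.lc 4 1 (.lc 4 12 (.lc 4 0 (.lc 4 13 .stop))))))))))))
 (.lc 3 2 (.node [149,161,138,114] 10 1 .stop
 (.node [149,171,176,138,114] 0 7 (.far [1,4096,1,4112,1,4096,4112,0,257,256] 0 .stop)
 (.lc 3 2 (.conf [149,183,114] (.conf [149,183,114] (.lc 3 2 (.lc 3 2 (.lc 3 2 (.lc 3 2 (.lc 4 2 .stop))))))))))))))))))))))))))))))
 (.far [1,4112,1,0,4112,0,257] 0 (.far [1,4112,1,0,4112,0,257] 0 (.conf [129,151,84] (.conf [138,151,84] (.conf [128,151,84] (.conf [139,151,84] .stop))))))))))))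
 (.lc 2 2 (.lc 2 2 (.lc 2 2 (.lc 2 2 (.lc 2 2 (.lc 2 2 (.lc 2 2 (.lc 2 2 (.lc 3 4 (.lc 3 4 (.node [81,114] 5 1 .stop
 (.far [4112,1,0,4112,0,257] 0 (.node [89,114,144,89] 0 7 (.lc 1 0 .stop)
 (.lc 2 2 (.node [80,114,151] 5 0 (.far [4112,4112,1,0,4112,0,257] 0 .stop)
 (.far [4112,1,0,4112,0,257] 0 (.node [114,151,169,90] 5 10 (.far [4112,4112,1,0,4112,0,257] 0 (.lc 0 0 (.lc 0 1 (.lc 0 11 (.lc 0 0 (.lc 0 11 (.lc 2 9 (.lc 2 9 (.lc 0 1 (.lc 0 11 (.lc 0 0 (.lc 0 12 .stop))))))))))))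
 (.lc 2 2 (.lc 2 2 (.lc 2 2 (.lc 2 2 (.lc 2 2 (.lc 2 2 (.lc 2 2 (.lc 3 4 (.lc 3 4 (.lc 3 4 (.lc 3 4 (.lc 3 4 (.lc 3 4 (.lc 3 4 (.lc 3 2 (.lc 3 2 (.lc 3 2 (.lc 3 2 (.lc 3 2 (.lc 3 2 (.lc 3 2 (.lc 3 2 (.lc 3 2 (.lc 3 2 (.lc 4 4 (.lc 4 4 (.lc 4 4 (.lc 4 4 (.lc 4 4 (.lc 4 4 (.lc 4 4 (.lc 4 4 (.lc 4 4 (.lc 4 4 (.lc 4 4 (.lc 4 4 (.lc 4 4 (.lc 4 4 (.lc 4 4 (.lc 4 4 (.lc 4 4 (.lc 4 4 (.lc 4 4 (.lc 5 4 (.lc 5 4 (.lc 5 4 (.lc 5 4 (.lc 5 4 (.lc 5 4 .stop)))))))))))))))))))))))))))))))))))))))))))))))))))))))))))))))))))))))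
 (.lc 2 7 (.lc 2 7 (.lc 2 7 (.lc 2 7 (.lc 2 7 (.lc 2 7 (.lc 3 8 (.lc 2 4 (.lc 2 4 (.lc 3 0 (.lc 3 9 (.lc 3 1 (.node [128] 8 0 (.node [129] 6 8 (.node [103,129] 6 7 .stop
 (.node [105,129] 1 6 (.node [152] 8 1 (.lc 0 1 .stop)
 (.lc 1 8 .stop))
 (.conf [129,152] .stop)))
 (.node [135,113] 8 7 .stop
 (.node [137,145] 6 8 (.node [105,145] 1 6 (.lc 0 1 .stop)
 (.conf [106,169] .stop))
 (.node [137,145,137] 1 6 (.lc 1 8 (.lc 2 8 .stop))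
 (.node [137,145] 6 8 (.conf [105,145] (.lc 1 1 .stop))
 (.node [138,169,145] 6 8 (.conf [106,169] (.lc 1 9 .stop))
 .stop))))))
 (.lc 2 4 (.lc 2 4 (.lc 2 4 (.node [133] 0 8 (.node [133] 2 8 (.far [4112,256,0,257,1,4112,4096,0,257] 4096 (.conf [133,152] (.lc 1 4 .stop)))
 (.node [133,120] 7 8 (.lc 0 4 .stop)
 (.conf [120,133] (.conf [120,133] (.node [133,152,41] 8 5 (.conf [87,149] (.lc 2 4 (.lc 2 4 (.lc 0 10 (.lc 2 4 (.lc 3 4 .stop))))))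
 (.conf [121,133,152] .stop))))))
 (.lc 3 1 (.node [133,152] 5 7 (.node [80,114,133,152] 5 0 (.node [128] 8 0 (.node [129,152] 9 8 (.node [145] 1 6 .stop
 (.lc 3 10 .stop))
 (.node [135,152] 8 7 .stop
 (.conf [128,145] (.conf [138,161] (.far [1,4096,0,1,0,0,4112,1,0,257] 16 (.far [1,1,256] 0 (.far [4096,4112,4112,1,0,4112,0,257,257,1] 16 .stop)))))))
 (.lc 0 1 (.lc 0 1 (.lc 0 10 (.node [129] 1 6 .stop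
 (.lc 0 10 .stop))))))
 (.node [81,114,133,152] 5 1 .stop
 (.lc 1 2 (.node [84,135,152] 8 7 (.node [114,128] 8 0 (.node [144] 0 7 (.far [257,0,1,1,0,0,257,4112,4096,0,257] 4096 .stop)
 (.lc 0 1 (.lc 0 1 (.lc 0 10 (.far [257,257,258,16,16,513,0,4112,4096] 4097 (.lc 0 10 .stop))))))
 (.node [114,129] 8 1 .stop
 (.lc 1 2 (.node [114,138] 9 8 (.node [154] 10 7 (.node [162] 10 2 (.far [1,257,0,1,1,0,0,257,4112,4096,0,257] 4096 (.lc 3 2 (.node [171,176,171] 9 10 (.far [1,4112,4112,256,256] 0 (.lc 3 6 (.lc 1 0 (.lc 0 1 .stop))))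
 .stop)))
 (.far [257,0,1,1,0,0,257,4112,4096,0,257] 4096 (.far [16,0,16,16,0,257,4096] 17 (.far [1,0,1,1,0,4112,256] 0 (.far [1,0,1,1,0,4112,256] 0 (.node [171,176,114] 9 10 (.far [1,4096,256,257,1,0,4112,256] 0 (.lc 3 6 (.lc 1 0 (.lc 0 1 .stop))))
 .stop))))))
 (.lc 3 0 (.lc 3 1 (.lc 3 11 (.lc 1 7 (.lc 1 7 (.lc 3 0 (.lc 3 11 (.lc 4 1 (.lc 4 11 (.lc 4 0 (.lc 4 12 .stop))))))))))))
 (.lc 2 2 (.lc 2 2 (.lc 3 5 (.lc 3 5 (.node [114,129] 8 1 .stop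
 (.conf [138,160] (.lc 2 2 (.node [114,128,167,114] 8 0 (.lc 0 1 .stop)
 (.conf [139,186] (.lc 2 2 (.lc 2 2 (.lc 3 5 (.lc 3 5 (.lc 2 2 (.lc 3 5 (.lc 3 2 (.lc 4 5 (.lc 4 5 (.lc 3 2 (.lc 4 5 (.lc 4 5 (.lc 3 2 (.lc 3 2 (.lc 3 2 (.lc 3 2 (.lc 4 2 .stop))))))))))))))))))))))))))))))
 (.node [90,114,133,152] 8 5 (.node [138] 6 9 (.node [96,152] 6 0 (.node [] 9 8 (.node [138,155] 8 10 (.node [167] 9 11 (.node [186] 11 10 (.lc 1 5 (.node [167,188] 10 7 (.node [114] 11 12 .stop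
 (.conf [114,165,194] (.far [4112,1,0,1,0,0,0,256,256] 0 .stop)))
 (.conf [165,188,199] (.node [167,202,220,167,189] 10 7 (.far [257,16,0,16,0,0,0,4096,4096] 0 (.lc 2 2 (.lc 0 14 .stop)))
 (.node [114,165,178] 11 2 (.far [257,257,16,4096,4096] 0 .stop)
 (.far [257,4112,4096,4096,16,4096] 256 .stop))))))
 (.lc 2 10 (.lc 2 10 .stop)))
 (.lc 2 7 (.lc 0 12 (.lc 2 7 (.lc 3 7 .stop)))))
 (.conf [133,155] (.conf [138,144] (.conf [138,184] (.lc 1 7 (.node [133,144,167] 0 10 (.far [257,1,16,4096] 256 (.lc 1 2 (.lc 2 0 (.lc 2 0 .stop))))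
 (.conf [138,144] (.lc 2 7 (.lc 2 7 (.lc 2 7 .stop))))))))))
 .stop)
 (.node [97,152,138] 9 8 (.node [138,144] 0 8 (.node [167] 9 0 (.node [] 10 7 (.lc 1 2 (.node [114,171] 7 2 (.node [] 10 11 .stop
 (.far [4112,1,0,0,0,0,0,1,0,4112,256] 0 .stop))
 (.conf [114,171,178] (.lc 2 2 (.node [114,183,203,114,172] 10 12 .stop
 (.lc 3 0 (.far [1,16,257,4096] 256 .stop)))))))
 .stop)
 (.lc 1 7 (.lc 1 7 .stop)))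
 (.node [138,155] 8 10 (.node [167] 9 11 (.node [186] 1 11 (.node [186] 11 10 (.node [167] 10 7 (.node [114] 7 2 (.far [4096,4096,4096,1,4096,0,0,4096,0,0,0,0,0,4096,0,0,257] 4096 .stop)
 (.far [1,4112,1,4096,16,0,4096,4096,4096,0,0,0,4096,0,0,257] 4096 (.lc 2 2 (.far [257,16,0,0,16,0,0,4096,4096] 0 .stop))))
 (.node [165,176,114] 0 7 (.far [257,1,0,4112,4096,4096,4096,0,0,0,0,0,4096,0,0,257] 4096 .stop)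
 (.far [4112,1,1,256,256] 0 (.far [256,16,16,4112,4096,0,4096,4096] 0 .stop))))
 (.node [177,167] 10 7 (.node [114] 7 2 (.far [4096,4096,1,4096,0,0,4096,0,0,0,0,0,4096,0,0,257] 4096 .stop)
 (.far [1,0,4112,4112,4096,4096,4096,4096,0,0,0,4096,0,0,257] 4096 (.lc 2 2 (.far [257,16,16,4112,4096,0,4096,4096] 0 .stop))))
 (.node [186,203,186] 11 10 (.far [257,16,16,4096,4096] 0 (.lc 2 5 (.lc 0 13 .stop)))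
 .stop)))
 (.lc 2 10 (.far [4112,4112,4096,1,4112,0,256] 4097 (.lc 2 10 (.lc 2 10 (.lc 3 10 .stop))))))
 (.lc 2 7 (.lc 2 7 (.lc 0 0 (.lc 0 12 (.lc 2 7 (.lc 2 7 (.lc 3 7 (.lc 3 7 (.lc 3 7 .stop))))))))))
 (.lc 2 5 (.lc 2 5 (.lc 3 1 (.lc 3 1 (.conf [155,176] (.conf [138,184] (.conf [138,184] (.lc 2 5 (.lc 2 5 (.lc 2 5 (.lc 3 1 (.lc 3 5 (.lc 3 5 (.lc 3 5 (.lc 4 1 (.lc 3 5 (.lc 3 5 (.lc 3 5 (.lc 3 5 (.lc 4 5 .stop))))))))))))))))))))))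
 (.node [106,152] 6 10 .stop
 (.node [107,152] 6 11 (.node [185] 9 8 (.node [138,144] 0 8 (.node [167] 9 0 .stop
 (.lc 1 7 (.lc 1 7 .stop)))
 (.node [138,156] 11 9 (.node [188] 8 10 (.node [167] 11 12 (.node [176,202] 11 0 (.node [] 12 10 (.node [167] 10 7 (.far [257,16,0,0,16,0,0,0,0,4096,4096] 0 .stop)
 (.far [256,0,16,4112,4096,4096,0,0,4096,4096] 0 .stop))
 .stop)
 (.lc 2 1 (.lc 1 8 (.node [189,202] 12 10 (.node [167] 10 7 (.node [114] 11 13 (.node [215] 13 7 .stop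
 (.far [4112,0,0,4112,0,4112,0,1,256] 4097 .stop))
 (.conf [114,165,210] (.far [4112,1,0,1,0,0,0,0,256,256] 0 (.far [4112,1,0,1,0,0,0,0,256,256] 0 (.conf [114,165,208] .stop)))))
 (.conf [165,200,215] (.far [4112,1,256,256,256] 0 (.far [4112,1,256,256,256] 0 .stop))))
 (.node [200,167,176] 0 10 (.far [16,16,4112,4096,4096,0,0,4096,4096] 0 .stop)
 (.conf [200,218,167] (.node [177,202] 12 10 (.node [167] 10 7 (.far [257,16,0,16,0,0,0,0,4096,4096] 0 .stop)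
 (.far [256,256,4112,1,4096,16,4096,4096,4096] 0 .stop))
 (.conf [177,202,220] (.lc 3 1 (.node [189,202,208,189] 0 12 .stop
 (.node [176,202,220,202] 11 0 (.far [4112,4112,0,4112,0,1,256] 0 .stop)
 (.node [190,220,237,190,202] 12 10 (.far [257,16,4096,4096,4096] 0 (.lc 2 5 (.lc 0 0 (.lc 0 15 .stop))))
 (.node [165,200,114] 11 7 .stop
 (.node [177,200,26] 1 10 .stop
 (.node [177,202] 12 10 (.far [4112,1,256,256,256] 0 (.far [4096,1,257,256,256,0,0,256,256] 0 (.far [4112,1,256,256,256] 0 (.far [4112,1,513,272,512,1,256,256,256] 17 .stop))))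
 (.conf [177,202,220] (.far [4096,256,16,256,1,256] 4097 .stop)))))))))))))))))
 (.lc 2 7 (.lc 2 7 (.lc 0 0 (.lc 0 13 (.lc 2 7 (.lc 2 7 (.lc 3 7 (.lc 3 7 (.lc 3 7 .stop))))))))))
 (.lc 3 0 (.lc 3 10 (.lc 3 13 (.lc 1 8 (.lc 1 8 (.lc 3 0 (.lc 3 13 (.lc 4 13 (.lc 4 0 (.lc 4 14 .stop)))))))))))
 (.conf [133,144] (.conf [133,156] (.conf [138,150] (.conf [138,150] (.conf [156,192] (.conf [138,200] (.conf [138,200] (.lc 1 7 (.lc 1 7 (.node [133,150,167] 11 10 (.node [167,176] 0 10 (.far [1,1,257,0,0,256,256] 0 (.far [257,1,257,0,0,256,257,0,4112,256] 0 (.far [256,0,4096,4112,4096,4096,4096,0,0,0,4096,0,0,257] 4096 (.lc 1 2 .stop))))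
 (.lc 2 1 (.lc 1 5 (.node [167,188] 10 7 (.far [4112,1,257,0,0,256,256] 0 (.conf [114,165,194] (.far [4112,1,257,0,0,256,256] 0 (.far [4112,1,257,0,0,256,256] 0 (.conf [114,165,192] .stop)))))
 (.lc 2 5 (.lc 2 5 (.lc 3 1 (.lc 3 1 (.lc 3 1 (.node [167,188,192,188] 0 10 (.far [16,16,16,0,16,0,1,4112,256,257,0,4112,4096] 0 .stop)
 (.node [167,176,202,167] 11 0 (.node [] 10 7 (.node [199] 12 7 (.node [194] 12 2 (.far [1,257,4096,4112,4096,0,4096,0,0,0,0,0,0,4096,0,0,257] 4096 .stop)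
 (.far [257,4096,4112,4096,0,4096,0,0,0,0,0,0,4096,0,0,257] 4096 .stop))
 (.lc 2 2 (.lc 0 13 .stop)))
 .stop)
 (.node [167,202,220,167,189] 10 7 (.node [199] 12 7 (.node [194,220] 12 2 (.lc 0 0 .stop)
 (.far [16,16,0,0,0,0,0,16,0,257,4096] 17 (.far [1,1,0,0,0,0,0,1,0,4112,256] 0 (.far [4096,4112,1,1,0,1,0,16,257,4096,4112,0,257,256] 0 .stop))))
 (.lc 2 2 (.lc 0 0 (.lc 0 14 (.lc 3 2 .stop)))))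
 (.lc 2 5 (.lc 2 5 (.lc 3 1 (.lc 3 5 (.lc 4 1 (.lc 3 5 .stop))))))))))))))))))
 (.lc 0 0 (.lc 0 12 (.lc 2 7 (.lc 2 7 (.lc 2 7 (.lc 0 12 (.lc 0 0 (.lc 0 13 (.lc 0 0 (.lc 0 12 (.lc 2 7 (.lc 2 7 (.lc 2 7 (.lc 2 7 (.lc 3 7 (.lc 3 7 (.lc 3 7 .stop)))))))))))))))))))))))))))))
 (.lc 2 9 (.lc 2 9 (.lc 2 9 (.far [4112,4112,1,4112,4096,0,4112,1,256] 4097 (.far [4112,4112,1,4112,4096,0,4112,1,256] 0 (.lc 2 9 (.lc 2 9 (.lc 3 9 (.lc 3 9 .stop))))))))))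
 (.lc 2 8 (.lc 2 8 (.lc 2 8 (.lc 2 8 (.lc 2 8 (.lc 2 8 (.lc 2 8 (.lc 2 8 (.lc 2 8 (.lc 3 1 (.lc 3 1 (.far [4112,1,4112,4096,0,4112,1,256] 4097 (.conf [107,176] (.node [96,152,185,152,138] 6 0 (.far [4112,4112,1,4112,4096,0,4112,1,256] 0 .stop)
 (.conf [27,152,185] (.conf [108,203] (.lc 2 8 (.lc 2 8 (.lc 2 8 (.lc 2 8 (.lc 2 8 (.lc 2 8 (.lc 2 8 (.lc 2 8 (.lc 3 1 (.lc 3 1 (.lc 3 1 (.lc 3 1 (.lc 3 1 (.lc 3 1 (.lc 3 8 (.lc 3 8 (.lc 3 8 (.lc 3 8 (.lc 3 8 (.lc 3 8 (.lc 4 1 (.lc 4 1 (.lc 4 1 (.lc 4 1 (.lc 4 1 (.lc 4 1 (.lc 4 1 (.lc 4 1 (.lc 4 1 (.lc 4 1 (.lc 4 1 (.lc 4 1 (.lc 5 1 (.lc 5 1 .stop))))))))))))))))))))))))))))))))))))))))))))))))))))))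
 (.lc 3 0 (.lc 3 1 (.lc 3 11 (.lc 1 7 (.lc 1 7 (.lc 3 0 (.lc 3 11 (.lc 4 1 (.lc 4 11 (.lc 4 0 (.lc 4 12 .stop))))))))))))
 (.lc 2 2 (.lc 2 2 (.lc 2 2 (.lc 2 2 (.lc 2 2 (.lc 2 2 (.lc 2 2 (.lc 2 2 (.lc 3 4 (.lc 3 4 (.node [81,114,133,152] 5 1 .stop
 (.node [114,128,152] 8 0 (.lc 0 1 .stop)
 (.conf [90,160] (.lc 2 2 (.node [80,114,167,133,152] 5 0 (.lc 0 1 .stop)
 (.conf [114,138,167] (.conf [91,186] (.lc 2 2 (.lc 2 2 (.lc 2 2 (.lc 2 2 (.lc 2 2 (.lc 2 2 (.lc 2 2 (.lc 3 4 (.lc 3 4 (.lc 3 4 (.lc 3 4 (.lc 3 4 (.lc 3 4 (.lc 3 4 (.lc 3 2 (.lc 3 2 (.lc 3 2 (.lc 3 2 (.lc 3 2 (.lc 3 2 (.lc 3 2 (.lc 3 2 (.lc 3 2 (.lc 3 2 (.lc 4 4 (.lc 4 4 (.lc 4 4 (.lc 4 4 (.lc 4 4 (.lc 4 4 (.lc 4 4 (.lc 4 4 (.lc 4 4 (.lc 4 4 (.lc 4 4 (.lc 4 4 (.lc 4 4 (.lc 4 4 (.lc 4 4 (.lc 4 4 (.lc 4 4 (.lc 4 4 (.lc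 4 4 (.lc 5 4 (.lc 5 4 (.lc 5 4 (.lc 5 4 (.lc 5 4 (.lc 5 4 .stop)))))))))))))))))))))))))))))))))))))))))))))))))))))))))))))))))))))))
 (.lc 2 7 (.lc 2 7 (.lc 2 7 (.lc 2 7 (.lc 2 7 (.lc 2 7 (.lc 2 7 (.lc 2 7 (.lc 2 7 (.lc 3 8 (.lc 3 0 (.lc 2 4 (.lc 2 4 (.lc 3 0 (.lc 3 9 (.lc 3 7 (.lc 3 7 (.lc 3 7 (.lc 3 7 (.lc 3 7 (.lc 3 7 (.lc 4 9 (.lc 3 4 (.lc 3 4 (.lc 3 4 (.lc 4 9 (.lc 4 0 (.lc 4 10 (.lc 3 7 (.lc 3 7 (.lc 3 7 (.lc 3 7 (.lc 3 7 (.lc 3 7 (.lc 3 7 (.lc 3 7 (.lc 3 7 (.lc 3 7 (.lc 3 7 (.lc 3 7 (.lc 3 7 (.lc 3 7 (.lc 4 7 (.lc 4 7 (.lc 4 7 (.lc 4 7 (.lc 4 7 .stop))))))))))))))))))))))))))))))))))))))))))))))))))))))))))))))))))))))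
 (.lc 3 0 (.lc 3 8 (.far [16,16,257,256,1,4096] 0 (.far [16,16,257,256,1,4096] 0 (.lc 3 0 (.lc 3 8 (.lc 4 8 (.lc 4 9 .stop)))))))))
 (.lc 2 2 (.lc 2 2 (.node [66,81] 0 4 (.far [256,0,0,0,1,1] 4096 .stop)
 (.node [66,87,112] 0 4 (.far [256,0,0,0,1,1] 4096 .stop)
 (.conf [66,116] (.conf [66,116] (.conf [66,116] (.node [66,81] 5 1 (.lc 2 1 .stop)
 (.conf [87,112] (.conf [66,116] (.conf [66,116] (.lc 2 2 (.lc 2 2 (.lc 2 2 (.lc 2 2 (.node [66,81] 5 1 .stop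
 (.node [66,87,112] 0 4 (.far [257,1,4112,4096,0,257] 4096 .stop)
 (.node [66,87,113] 1 4 .stop
 (.node [66,80] 5 0 (.node [81] 6 5 (.lc 2 1 .stop)
 (.lc 3 0 (.conf [88,129] .stop)))
 (.node [66,88,135] 7 4 (.far [1,1,4112,4096,16,256] 0 (.lc 3 0 (.lc 3 9 (.node [] 6 5 (.lc 2 1 (.node [88] 5 8 (.far [4112,1,1,4096,4112,1,256,257] 4096 (.lc 2 7 (.lc 2 7 (.lc 0 10 (.lc 2 7 (.lc 3 7 .stop))))))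
 (.lc 2 4 (.lc 2 4 (.lc 3 10 (.lc 3 1 (.conf [88,149] (.lc 2 4 (.lc 2 4 (.lc 2 4 (.lc 3 10 (.lc 3 4 (.lc 3 4 (.lc 4 11 (.lc 3 4 (.lc 3 4 (.lc 3 4 (.lc 4 4 .stop))))))))))))))))))
 (.node [32,146] 9 2 (.node [144] 6 5 (.node [88] 0 5 .stop
 (.lc 2 1 (.node [88] 5 8 (.far [4112,1,1,1,1,8224,4097,256,514] 8192 (.lc 2 7 (.lc 2 7 (.lc 2 7 (.lc 0 11 (.lc 2 7 (.lc 3 7 (.lc 3 7 .stop))))))))
 (.lc 2 4 (.lc 2 4 (.lc 3 0 (.lc 3 11 (.lc 3 1 (.lc 3 1 (.conf [88,165] (.lc 2 4 (.lc 2 4 (.lc 2 4 (.lc 2 4 (.lc 2 4 (.lc 3 10 (.lc 3 0 (.lc 3 11 (.lc 3 4 (.lc 3 4 (.lc 3 4 (.lc 4 12 (.lc 3 4 (.lc 3 4 (.lc 3 4 (.lc 3 4 (.lc 3 4 (.lc 3 4 (.lc 4 4 .stop)))))))))))))))))))))))))))))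
 (.lc 3 6 (.lc 3 8 (.lc 3 10 (.node [154,160,154] 7 9 (.lc 1 10 (.lc 1 10 (.lc 2 4 (.lc 1 10 (.lc 3 4 (.conf [123,186] (.lc 3 6 (.lc 3 1 (.lc 3 6 (.lc 3 12 (.lc 0 5 (.lc 3 4 (.lc 2 10 (.lc 1 0 (.lc 1 0 (.lc 3 4 (.lc 1 0 (.lc 3 1 (.lc 3 6 (.lc 3 11 (.lc 0 5 (.lc 3 11 (.lc 3 11 (.lc 3 12 (.lc 0 5 (.lc 4 4 (.lc 2 0 (.lc 1 5 (.lc 0 5 (.lc 4 13 (.lc 0 5 (.lc 4 12 (.lc 0 5 (.lc 4 11 (.lc 4 11 (.lc 4 12 (.lc 4 6 (.lc 4 1 (.lc 4 6 (.lc 4 12 (.lc 1 5 (.lc 0 5 (.lc 5 13 .stop)))))))))))))))))))))))))))))))))))))))))))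
 (.lc 3 10 (.lc 4 11 .stop)))))))
 (.lc 3 0 (.lc 3 9 (.lc 4 9 (.lc 4 10 .stop)))))))))
 (.lc 3 2 (.lc 3 2 (.node [66,87,113] 7 1 (.far [16,4112,1,256] 4097 (.lc 1 5 (.lc 1 5 (.lc 3 8 (.lc 2 5 .stop)))))
 (.node [66,88,135,112] 0 4 (.far [256,0,0,0,1,1] 4096 .stop)
 (.conf [66,116] (.conf [66,116] (.conf [66,116] (.conf [66,116] (.lc 3 2 (.lc 3 2 (.lc 3 2 (.lc 3 2 (.lc 3 2 (.lc 3 2 (.lc 4 2 (.lc 4 2 .stop)))))))))))))))))))))))))))))))))))))))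
 (.lc 0 0 (.node [101,118] 7 6 (.node [101,112] 0 6 (.far [16,16,256,257,257,4096] 0 (.lc 1 4 (.lc 1 4 (.lc 1 4 (.node [] 4 2 .stop
 (.lc 2 4 .stop))))))
 (.node [101,114] 2 6 .stop
 (.node [101,120] 6 5 (.far [257,16,256,257,257,4096] 0 (.lc 2 4 (.lc 2 4 (.lc 2 4 (.lc 0 0 (.lc 0 9 (.lc 2 4 (.lc 2 4 (.lc 3 4 (.lc 3 4 (.lc 3 4 (.lc 3 4 .stop))))))))))))
 (.lc 2 3 (.lc 2 3 (.node [101,120,128] 0 6 (.lc 1 4 .stop)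
 (.far [257,4096,0,0,257] 4096 (.conf [101,134] (.conf [101,134] (.conf [101,134] (.conf [120,128] (.node [101,112] 2 6 .stop
 (.conf [101,134] (.conf [101,134] (.lc 1 4 (.lc 1 4 (.lc 1 4 (.lc 2 3 (.lc 2 3 (.lc 2 3 (.node [101,120,128] 0 6 (.node [] 8 0 (.node [129] 1 7 .stop
 (.far [16,257,4096] 0 (.lc 1 4 (.lc 1 4 (.lc 3 9 (.lc 3 9 (.lc 2 4 .stop)))))))
 (.lc 1 4 (.lc 1 4 (.lc 1 4 (.node [] 4 2 .stop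
 (.lc 2 4 .stop))))))
 (.far [257,4096,0,0,257] 4096 (.node [101,120,130] 2 6 .stop
 (.node [101,112] 7 0 .stop
 (.node [101,121,152] 8 6 (.node [] 5 4 (.node [66,80] 0 4 (.far [256,0,0,0,0,0,1,1] 4096 .stop)
 (.lc 2 4 (.node [66,89] 9 4 .stop
 (.node [66,90] 10 4 (.node [162] 7 9 (.node [112,152] 7 0 (.node [] 9 8 (.lc 1 5 (.node [133,154] 9 10 (.far [272,4112,0,16,513,1,1,4096,0,4112,4096] 17 .stop)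
 (.node [133,155] 9 11 (.node [184] 11 8 (.far [16,0,16,0,0,0,0,257,4096] 0 (.node [133,168] 10 8 (.far [16,16,0,16,0,0,0,0,257,4096] 0 .stop)
 (.node [133,188] 8 5 (.far [257,16,0,16,0,0,0,0,257,4096] 0 (.lc 2 4 (.lc 1 2 (.node [205,213,90] 5 10 (.node [218] 12 13 (.node [206,218] 11 12 (.node [190] 13 10 (.node [162] 11 14 .stop
 (.lc 2 2 (.lc 0 15 .stop)))
 (.lc 1 13 .stop))
 (.conf [206,213] (.conf [200,218] (.conf [218,237] (.lc 1 2 (.node [200,213,162] 11 10 .stop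
 .stop))))))
 (.lc 2 2 (.lc 0 14 (.lc 2 2 (.lc 3 2 .stop)))))
 (.lc 2 4 (.lc 3 4 .stop))))))
 (.lc 2 5 (.lc 2 5 (.lc 1 4 (.lc 3 2 (.lc 3 10 (.lc 3 13 (.lc 1 4 (.node [133,200,220,133] 8 5 (.far [257,16,0,16,0,0,0,0,257,4096] 0 (.lc 2 4 (.lc 2 4 (.lc 0 14 (.lc 2 4 (.lc 3 4 .stop))))))
 (.lc 1 4 (.lc 2 5 (.lc 2 5 (.lc 0 2 (.lc 3 12 (.lc 3 12 (.lc 3 13 (.lc 2 4 (.lc 2 4 (.lc 4 14 (.lc 3 5 (.lc 3 5 (.lc 2 4 (.lc 2 4 (.lc 3 4 .stop))))))))))))))))))))))))))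
 (.lc 2 8 (.lc 2 8 (.lc 3 8 .stop))))
 (.conf [155,186] (.conf [156,203] (.lc 3 0 (.lc 1 4 (.conf [133,184] (.node [133,146,168] 10 8 (.lc 0 4 .stop)
 (.node [133,154,184] 9 10 (.node [] 5 10 (.node [184] 8 5 .stop
 (.lc 1 8 .stop))
 .stop)
 (.node [133,156,184] 8 5 (.node [181] 11 5 (.far [1,1,0,0,0,0,4112,256,0,0,257] 0 (.lc 1 2 (.lc 1 2 (.lc 3 5 (.lc 2 2 .stop)))))
 (.lc 2 4 (.lc 2 4 (.lc 0 13 (.lc 2 4 (.lc 3 4 .stop))))))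
 (.lc 3 0 (.lc 3 0 (.lc 3 0 (.lc 3 0 (.conf [157,220] (.lc 4 0 (.lc 4 0 (.lc 4 0 (.lc 4 0 (.lc 4 0 (.lc 4 0 (.lc 5 0 .stop)))))))))))))))))))))))
 .stop)
 (.node [122,152] 7 10 .stop
 (.node [123,152] 1 7 (.node [27] 1 11 (.node [185] 11 9 (.lc 2 0 (.node [152,169] 10 9 .stop
 (.node [152,188] 9 8 (.node [133] 11 12 (.node [200] 12 8 (.lc 2 0 (.far [16,0,16,0,0,0,0,0,0,257,4096] 0 (.node [133,168] 12 10 (.far [4112,4112,1,256,256] 17 .stop)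
 (.node [133,205] 8 5 (.far [257,16,0,16,0,0,0,0,0,0,257,4096] 0 (.lc 2 4 (.lc 1 2 (.node [222,229,90] 12 13 (.node [222,229] 13 14 .stop
 (.far [257,0,257,16,4096,4096] 0 .stop))
 (.lc 2 4 (.lc 3 4 .stop))))))
 (.lc 2 5 (.lc 2 5 (.lc 3 0 (.lc 1 4 (.node [133,216,237,133,206] 8 5 (.far [257,16,0,16,0,0,0,0,0,0,257,4096] 0 (.lc 2 4 (.lc 2 4 (.lc 0 15 (.lc 2 4 (.lc 3 4 .stop))))))
 (.lc 1 4 (.lc 2 5 (.lc 3 0 (.lc 2 4 (.lc 4 0 (.lc 2 4 .stop)))))))))))))))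
 (.far [1,257,256,0,0,0,0,0,0,257,4096,0,0,257] 4096 (.node [200,172,176] 10 12 (.lc 0 4 .stop)
 (.node [200,220,176] 12 8 (.node [133,216] 13 8 (.far [16,16,0,16,0,0,0,0,0,0,257,4096] 0 (.lc 1 4 (.lc 1 4 (.lc 0 2 (.lc 3 14 (.lc 2 4 .stop))))))
 (.lc 2 5 (.far [4112,4096,256,16,1,256,256] 0 (.lc 2 4 .stop))))
 (.far [4112,0,4112,1,256,256] 0 (.far [257,0,257,16,4096,4096] 0 (.far [256,0,0,16,4112,0,257,1,0,0,16,4096] 0 (.node [200,220,237,176] 12 8 (.far [257,256,4096,1,16,4096,4096] 0 (.lc 2 5 (.lc 0 15 (.lc 2 4 .stop))))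
 .stop))))))))
 (.lc 0 0 (.lc 0 10 (.lc 0 13 (.lc 0 13 (.far [257,16,0,32,513,1,1,16,256,32,4097,256] 0 (.lc 0 14 .stop)))))))
 (.lc 2 7 (.lc 2 7 (.lc 3 0 (.lc 3 0 (.conf [152,201] (.lc 2 7 (.lc 2 7 (.lc 2 7 (.lc 2 7 (.lc 3 0 (.lc 3 0 (.lc 3 0 (.lc 3 7 (.lc 3 7 (.lc 4 0 (.lc 4 0 (.lc 3 7 (.lc 3 7 (.lc 3 7 (.lc 3 7 (.lc 3 7 (.lc 4 7 (.lc 4 7 .stop))))))))))))))))))))))))))
 (.node [133,185,139] 8 11 .stop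
 (.node [185,171] 10 11 .stop
 (.node [185,203] 11 9 (.node [152] 9 8 (.node [133] 12 8 (.lc 2 0 (.far [16,16,0,0,0,0,0,0,257,4096] 0 (.node [133,168] 12 10 (.far [4112,4112,256,16,1,256,256] 17 .stop)
 (.node [133,205] 8 5 (.far [257,16,16,0,0,0,0,0,0,257,4096] 0 (.lc 2 4 (.lc 1 2 (.node [222,229,90] 12 13 (.node [222,229] 13 14 .stop
 (.far [257,0,257,4096,1,16,4096,4096] 0 .stop))
 (.lc 2 4 (.lc 3 4 .stop))))))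
 (.lc 2 5 (.lc 2 5 (.lc 3 0 (.lc 1 4 (.node [133,216,237,133] 8 5 (.far [257,16,16,0,0,0,0,0,0,257,4096] 0 (.lc 2 4 (.lc 2 4 (.lc 0 15 (.lc 2 4 (.lc 3 4 .stop))))))
 (.lc 1 4 (.lc 2 5 (.lc 3 0 (.lc 2 4 (.lc 4 0 (.lc 2 4 .stop)))))))))))))))
 (.lc 0 10 (.lc 0 13 (.lc 0 13 (.far [257,16,0,32,513,1,1,16,256,32,4097,256] 0 (.lc 0 14 .stop))))))
 (.lc 2 7 (.conf [152,217] (.lc 2 7 (.lc 3 7 .stop)))))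
 (.node [185,203,185] 11 9 (.node [152,186] 11 10 .stop
 (.lc 2 1 (.node [152,189] 9 8 (.node [133] 11 13 (.far [257,0,257,16,4096,4096] 0 (.lc 0 10 (.lc 0 14 (.lc 0 14 (.lc 2 8 (.lc 0 15 .stop))))))
 (.lc 0 10 (.lc 0 12 (.lc 0 14 (.lc 0 14 (.far [257,16,0,32,513,1,1,16,256,32,4097,256] 0 (.lc 0 15 .stop)))))))
 (.lc 2 7 (.lc 2 7 (.lc 3 1 (.lc 3 1 (.conf [152,217] (.lc 2 7 (.lc 2 7 (.lc 2 7 (.lc 2 7 (.lc 3 1 (.lc 3 1 (.lc 3 7 (.lc 3 7 (.lc 4 1 (.lc 3 7 (.lc 3 7 (.lc 3 7 (.lc 3 7 (.lc 4 7 .stop))))))))))))))))))))))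
 (.far [257,257,0,16,16,0,0,1,256,1,1] 16 (.node [185,203,220] 11 9 (.far [257,256,1,4096,16,16,0,0,1,256,1,1] 16 (.lc 2 7 (.lc 0 14 (.lc 2 7 (.lc 3 7 .stop)))))
 .stop)))))))
 (.lc 1 9 (.lc 1 9 (.lc 1 9 (.far [1,4112,0,0,1,1,4097,16,4112,256] 4097 (.lc 2 9 .stop))))))
 (.lc 2 8 (.lc 2 8 (.lc 2 8 (.lc 2 8 (.lc 2 8 (.lc 2 8 (.lc 2 8 (.lc 3 1 (.lc 3 1 (.conf [123,176] (.conf [152,185] (.conf [152,185] (.lc 2 8 (.lc 2 8 (.lc 2 8 (.lc 2 8 (.lc 2 8 (.lc 2 8 (.lc 3 1 (.lc 3 1 (.lc 3 1 (.lc 3 1 (.lc 3 8 (.lc 3 8 (.lc 3 8 (.lc 3 8 (.lc 3 8 (.lc 4 1 (.lc 4 1 (.lc 4 1 (.lc 4 1 (.lc 4 1 (.lc 4 1 (.lc 5 1 .stop)))))))))))))))))))))))))))))))))))))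
 (.lc 3 0 (.lc 3 8 (.lc 3 9 (.lc 3 11 (.node [160] 7 9 (.node [122,152] 7 10 (.far [4096,0,4112,16,0,0,1,256] 17 .stop)
 (.node [123,152] 1 7 (.node [27] 1 11 (.far [257,257,0,16,16,0,0,1,256,1,1] 16 (.far [1,257,0,4112,16,0,0,1,256] 17 (.node [171,185] 10 11 (.far [4112,16,4112,0,0,257,0,0,16,4096] 0 (.lc 0 4 .stop))
 (.far [1,257,0,4112,16,0,0,1,256] 17 (.far [257,257,0,16,16,0,0,1,256,1,1] 16 (.node [172,185] 5 10 (.far [1,16,4112,0,0,257,0,0,16,4096] 0 (.lc 3 4 (.lc 0 12 (.lc 1 11 (.lc 3 4 (.lc 4 4 .stop))))))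
 .stop))))))
 (.lc 1 9 (.lc 1 9 (.lc 2 9 .stop))))
 (.lc 2 8 (.lc 2 8 (.lc 2 8 (.lc 3 1 (.conf [152,185] (.lc 2 8 (.lc 2 8 (.lc 2 8 (.lc 3 1 (.lc 3 1 (.lc 3 1 (.lc 3 1 (.lc 3 8 (.lc 4 1 (.lc 4 1 (.lc 4 1 (.lc 4 1 (.lc 4 1 (.lc 4 1 (.lc 5 1 .stop))))))))))))))))))))))
 (.node [32,171,178] 11 2 (.node [176] 10 11 (.lc 2 4 (.node [133,168,176] 8 11 (.lc 0 0 .stop)
 (.node [169,176] 9 11 .stop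
 (.node [172,176] 12 11 (.far [1,1,4096,256,0,0,0,0,0,1,1] 4096 (.lc 3 1 (.lc 3 8 (.lc 3 9 (.lc 3 13 (.node [205,208] 1 7 (.node [28,121] 12 7 .stop
 (.node [121,208,215] 13 7 (.lc 1 8 .stop)
 (.node [30,121] 1 14 (.conf [222,231] .stop)
 (.lc 2 1 (.conf [121,215] (.lc 0 0 (.conf [121,231] (.lc 2 1 (.lc 2 1 (.lc 2 1 (.lc 3 1 (.lc 3 1 (.lc 3 1 .stop)))))))))))))
 (.lc 3 13 (.lc 1 0 (.lc 4 14 .stop)))))))))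
 (.lc 2 0 (.lc 1 11 (.conf [176,203] (.conf [176,203] (.conf [176,203] (.lc 0 4 (.lc 1 11 (.conf [176,203] (.lc 2 0 (.lc 3 4 (.lc 2 0 (.lc 2 0 (.lc 2 0 (.lc 2 0 (.lc 2 0 (.lc 2 0 (.lc 2 0 (.lc 0 8 (.node [133,172,176,200] 8 11 (.lc 0 0 .stop)
 (.node [133,155] 10 8 (.lc 0 4 .stop)
 (.node [155,176,201] 9 11 .stop
 (.node [173,176,220] 5 10 (.node [93,220] 5 13 (.far [4112,4112,0,0,0,4112,256,0,0,257] 0 (.lc 0 12 (.lc 0 14 (.lc 2 5 (.lc 0 14 .stop)))))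
 (.lc 3 4 (.lc 0 13 (.lc 1 12 (.lc 3 4 (.lc 4 4 .stop))))))
 (.lc 0 4 (.lc 1 0 (.lc 3 0 (.lc 2 11 (.lc 1 12 (.conf [176,203] (.lc 1 0 (.lc 3 0 (.lc 3 0 (.lc 0 8 (.lc 3 0 (.lc 3 0 (.lc 3 0 (.lc 3 0 (.lc 3 0 (.lc 1 0 (.lc 3 0 (.lc 3 0 (.lc 3 0 (.lc 1 1 (.lc 2 0 (.lc 1 12 (.lc 4 0 .stop)))))))))))))))))))))))))))))))))))))))))))))))))
 (.lc 3 8 (.lc 3 9 (.lc 3 12 (.conf [188,192] (.lc 3 12 (.lc 1 0 (.lc 4 13 .stop))))))))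
 (.lc 3 0 (.lc 3 11 (.lc 4 11 (.lc 1 2 (.lc 4 12 .stop))))))))))))
 (.lc 2 2 (.lc 2 2 (.lc 2 2 (.node [66,81] 5 1 .stop
 (.node [66,89,144] 9 0 (.lc 0 1 .stop)
 (.node [66,90,160] 0 4 (.far [256,0,0,0,0,0,1,1] 4096 .stop)
 (.conf [66,164] (.conf [66,164] (.conf [66,164] (.lc 3 4 (.conf [90,160] (.conf [66,164] (.lc 3 4 (.conf [66,164] (.lc 2 2 (.lc 2 2 (.lc 2 2 (.lc 2 2 (.lc 2 2 (.lc 2 2 (.lc 2 2 (.node [66,90,160] 0 4 (.far [256,0,0,0,0,0,1,1] 4096 .stop)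
 (.lc 0 8 (.node [66,80,148] 9 4 .stop
 (.node [66,90,169] 9 4 .stop
 (.node [66,80] 5 0 .stop
 (.node [66,91,186] 5 11 (.node [186] 10 4 (.far [1,4112,1,256,0,0,257,256] 0 (.lc 3 0 (.lc 3 9 (.lc 3 12 (.node [] 8 11 (.lc 2 5 (.node [140,186] 11 10 (.far [4112,1,0,4096,4112,256,0,0,257] 0 (.lc 0 9 (.lc 0 13 (.lc 0 13 (.node [160,218] 9 8 (.far [16,0,257,0,4096,0,257,4096] 0 (.lc 3 14 (.lc 1 13 (.lc 3 13 (.lc 3 14 (.lc 4 15 .stop))))))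
 (.lc 0 14 .stop))))))
 (.lc 3 5 (.lc 2 5 (.lc 3 5 (.lc 3 5 (.conf [186,203] (.lc 3 5 (.lc 2 5 (.lc 3 5 (.lc 3 5 (.lc 4 5 (.lc 3 5 (.lc 4 5 (.lc 4 5 (.lc 4 5 (.lc 4 5 (.lc 5 5 .stop))))))))))))))))))
 (.node [32,194] 8 11 (.node [128,186] 8 0 (.far [257,257,0,4096,0,257,4096] 0 (.lc 0 1 (.lc 0 13 .stop)))
 (.lc 2 5 (.node [140,186,194] 8 12 .stop
 (.node [141,186] 11 10 (.far [4112,1,0,4096,4112,256,0,0,257] 0 (.lc 2 12 (.lc 2 12 (.lc 2 12 (.lc 0 0 (.lc 2 4 (.lc 0 14 (.lc 2 12 (.lc 2 12 (.lc 3 12 (.lc 3 12 (.lc 3 12 .stop))))))))))))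
 (.lc 2 5 (.lc 3 5 (.lc 1 4 (.lc 2 5 (.lc 3 5 (.lc 3 5 (.lc 3 5 (.conf [141,208] (.conf [186,219] (.lc 3 5 (.conf [186,219] (.lc 1 12 (.lc 3 5 (.lc 1 12 (.lc 3 5 (.lc 3 5 (.lc 3 5 (.lc 3 5 (.lc 4 5 (.lc 2 12 (.lc 2 12 (.lc 4 5 (.lc 2 12 (.lc 4 5 (.lc 4 5 (.lc 4 5 (.lc 4 5 (.lc 4 5 (.lc 4 5 (.lc 4 5 (.lc 4 5 (.lc 4 5 (.lc 4 5 (.lc 5 5 (.lc 5 5 (.lc 5 5 .stop))))))))))))))))))))))))))))))))))))))))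
 (.lc 3 0 (.lc 3 12 (.lc 4 12 (.lc 4 13 .stop))))))))))
 (.lc 0 0 (.lc 0 2 (.lc 0 12 (.lc 0 0 (.lc 0 12 (.lc 2 10 (.lc 0 5 (.lc 2 10 (.lc 0 12 (.lc 0 0 (.lc 0 0 (.lc 0 13 .stop)))))))))))))
 (.lc 3 2 (.lc 3 2 (.lc 3 2 (.lc 3 2 (.node [66,91,186,160] 0 4 (.far [256,0,0,0,0,0,1,1] 4096 .stop)
 (.conf [66,164] (.conf [66,164] (.conf [66,164] (.lc 3 2 (.lc 3 2 (.lc 3 2 (.lc 3 2 (.lc 3 2 (.lc 3 2 (.lc 3 2 (.lc 3 2 (.lc 3 2 (.lc 3 2 (.lc 4 2 (.lc 4 2 .stop)))))))))))))))))))))))))))))))))))))))))))))))))))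
 (.lc 1 4 (.lc 1 4 (.lc 1 4 (.lc 1 4 (.lc 1 4 (.lc 3 0 (.lc 3 10 (.lc 2 4 (.lc 2 4 (.lc 2 4 (.lc 2 4 .stop))))))))))))
 (.lc 2 4 (.lc 2 4 (.lc 2 4 (.lc 2 4 (.node [101,121,152,128] 0 6 (.lc 1 4 .stop)
 (.node [101,120,128] 2 6 .stop
 (.conf [101,134] (.conf [101,134] (.conf [101,134] (.conf [101,134] (.lc 3 3 (.lc 3 3 (.lc 3 3 (.lc 3 3 (.lc 2 4 (.lc 2 4 (.lc 2 4 (.lc 2 4 (.lc 2 4 (.lc 2 4 (.lc 2 4 (.lc 2 4 (.lc 2 4 (.lc 2 4 (.lc 3 4 (.lc 3 4 (.lc 3 4 (.lc 3 4 (.lc 3 4 (.lc 3 4 .stop)))))))))))))))))))))))))))))))))))))))))))))))))))))))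
 (.lc 0 0 (.conf [101,118] (.lc 0 0 (.node [101,118] 7 6 (.node [101,112] 0 6 (.far [16,16,257,513,257,4096] 0 (.lc 1 4 (.lc 1 4 (.lc 1 4 (.node [] 4 2 .stop
 (.lc 2 4 .stop))))))
 (.node [101,114] 2 6 .stop
 (.node [101,120] 6 5 (.far [257,16,257,513,257,4096] 0 (.lc 2 4 (.lc 2 4 (.lc 2 4 (.lc 0 0 (.lc 0 9 (.lc 2 4 (.lc 2 4 (.lc 3 4 (.lc 3 4 (.lc 3 4 (.lc 3 4 .stop))))))))))))
 (.lc 2 3 (.lc 2 3 (.lc 3 8 (.lc 3 0 (.lc 3 0 (.lc 3 2 (.lc 3 9 (.conf [120,128] (.node [101,112] 2 6 .stop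
 (.conf [101,134] (.conf [101,134] (.lc 1 4 (.lc 1 4 (.lc 1 4 (.lc 2 3 (.lc 2 3 (.lc 2 3 (.lc 3 8 (.lc 3 0 (.lc 3 8 (.lc 3 0 (.lc 3 9 (.lc 2 4 (.lc 2 4 (.lc 2 4 (.lc 2 4 (.lc 4 9 (.lc 4 8 (.lc 4 9 (.lc 4 0 (.lc 4 0 (.lc 4 10 (.lc 3 3 (.lc 3 3 (.lc 3 3 (.lc 3 3 (.lc 2 4 (.lc 2 4 (.lc 2 4 (.lc 2 4 (.lc 2 4 (.lc 2 4 (.lc 2 4 (.lc 2 4 (.lc 2 4 (.lc 2 4 (.lc 3 4 (.lc 3 4 (.lc 3 4 (.lc 3 4 (.lc 3 4 (.lc 3 4 .stop)))))))))))))))))))))))))))))))))))))))))))))))))))))))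
 (.lc 0 0 (.node [101,118,135] 7 6 (.node [101,112] 0 6 (.far [16,16,272,1,257,4096] 0 (.lc 1 4 (.lc 1 4 (.lc 1 4 (.node [] 4 2 .stop
 (.lc 2 4 .stop))))))
 (.node [101,114] 2 6 .stop
 (.node [101,121] 6 5 (.far [257,16,272,1,257,4096] 0 (.lc 2 4 (.lc 2 4 (.lc 2 4 (.lc 0 0 (.lc 0 10 (.lc 2 4 (.lc 2 4 (.lc 3 4 (.lc 3 4 (.lc 3 4 (.lc 3 4 .stop))))))))))))
 (.lc 2 3 (.lc 2 3 (.lc 3 9 (.lc 3 0 (.lc 3 0 (.lc 3 2 (.lc 3 10 (.conf [121,144] (.node [101,112] 2 6 .stop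
 (.conf [101,150] (.conf [101,150] (.lc 1 4 (.lc 1 4 (.lc 1 4 (.lc 2 3 (.lc 2 3 (.lc 2 3 (.lc 3 9 (.lc 3 0 (.lc 3 9 (.lc 3 0 (.lc 3 10 (.lc 2 4 (.lc 2 4 (.lc 2 4 (.lc 2 4 (.lc 4 10 (.lc 4 9 (.lc 4 10 (.lc 4 0 (.lc 4 0 (.lc 4 11 (.lc 3 3 (.lc 3 3 (.lc 3 3 (.lc 3 3 (.lc 2 4 (.lc 2 4 (.lc 2 4 (.lc 2 4 (.lc 2 4 (.lc 2 4 (.lc 2 4 (.lc 2 4 (.lc 2 4 (.lc 2 4 (.lc 3 4 (.lc 3 4 (.lc 3 4 (.lc 3 4 (.lc 3 4 (.lc 3 4 .stop)))))))))))))))))))))))))))))))))))))))))))))))))))))))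
 .stop)))))))))

theorem t13 : kNode2 awTt FTt 3 6 (check tyTt awTt triet FTt [] c13) (fun _ _ _ => true) 0 s13 Pl.nil s13 =
    true := by
  decide +kernel

end Chk
end Pool.Agent.Lib.MP_ba95e8_co
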