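import Pool.Agent.Lib.MP_ba95e8_co.ChkTab
import Pool.Agent.Lib.MP_ba95e8_co.ChkStates

/-!
Deltahedral domes: part 14 of the case analysis.
-/

namespace Pool.Agent.Lib.MP_ba95e8_co
namespace Chk

/-- certificate number 14 -/
def c14 : Cert := (.node [48,84,66] 3 0 (.node [16,48,84,66] 5 4 (.node [66,86] 5 6 (.node [100] 4 2 (.lc 2 2 (.node [32] 7 2 (.far [4096,0,4096,0,16,4096] 256 .stop)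
 (.lc 3 8 (.lc 3 2 (.node [32,114,135] 7 2 (.lc 3 6 .stop)
 (.lc 3 8 (.lc 4 9 .stop)))))))
 (.lc 2 4 .stop))
 (.conf [87,118] (.lc 3 0 (.conf [66,100] (.node [66,87,100] 5 7 (.far [257,257,257,256,1,4096] 0 (.lc 2 6 .stop))
 (.lc 3 0 (.conf [88,135] (.lc 4 0 .stop))))))))
 (.node [54] 0 5 (.node [84,66] 6 5 (.node [66,100] 3 6 (.node [100] 6 4 (.node [] 4 2 (.node [32,71] 1 4 (.node [] 7 2 .stop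
 (.far [16,257,16,0,4112,16,0,16,4096] 0 .stop))
 (.node [32,114,135,72] 4 8 (.far [4112,4112,1,0,257,1,0,1,256] 0 (.lc 2 7 .stop))
 .stop))
 (.lc 2 2 (.far [4112,1,4112,256,256] 0 (.lc 2 2 (.lc 3 2 .stop)))))
 (.far [4112,1,4096,4096,0,16,256] 0 .stop))
 (.lc 3 1 (.lc 3 7 (.node [66] 1 3 (.far [256,4112,256,256] 0 .stop)
 (.node [66,116] 3 6 (.far [257,16,256,256,0,1,4096] 0 (.node [96,116,48] 7 4 (.node [66,120] 4 2 (.far [257,16,0,16,16,0,16,4097] 0 (.lc 0 9 .stop))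
 (.lc 2 2 (.lc 3 1 (.conf [66,132] .stop))))
 (.lc 1 4 (.conf [103,134] (.lc 1 4 (.lc 2 4 .stop))))))
 (.lc 3 1 (.lc 3 7 (.lc 4 7 (.lc 4 1 (.lc 4 8 .stop))))))))))
 (.node [66,80,100,54,66] 3 6 (.lc 1 4 (.lc 2 4 .stop))
 (.conf [84,117] (.conf [66,80] (.conf [66,80] .stop)))))
 (.node [55,118,55,96] 0 5 (.far [257,16,4096] 0 (.lc 0 4 (.lc 0 8 (.conf [66,80] (.lc 0 8 .stop)))))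
 .stop)))
 (.conf [49,84] (.node [54,84,66] 5 4 (.node [80,54,66] 5 0 (.node [96] 0 4 (.lc 1 0 (.node [100] 3 6 (.node [49,100] 6 4 (.node [20,66] 4 2 .stop
 (.far [4112,1,256,256,0,256] 0 .stop))
 (.node [55,100] 6 4 (.node [66] 4 2 (.node [32] 3 7 (.node [114] 7 2 .stop
 (.far [4112,0,4112,4096,16,0,16,0,16,256] 0 .stop))
 (.far [4112,4096,1,0,0,0,257,256] 0 .stop))
 (.lc 2 0 (.far [4112,1,256,256,0,256] 0 (.far [4112,1,256,256,0,256] 0 .stop))))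
 (.lc 3 1 (.far [4112,0,4112,4112,4096,16,256] 0 (.node [56,118,135,56,100] 6 4 (.far [257,16,4096,4096,0,4096] 0 (.lc 2 0 (.lc 0 1 (.lc 0 9 .stop))))
 (.lc 3 1 (.lc 4 1 .stop)))))))
 (.lc 2 2 (.far [4112,1,256] 0 (.lc 2 2 (.lc 3 2 .stop))))))
 (.lc 0 1 (.lc 0 1 (.lc 0 7 (.node [97] 3 6 (.lc 1 1 (.node [55,97] 1 3 (.far [16,257,257,257,256,1,4096] 4097 (.far [16,257,257,257,256,1,4096] 4097 .stop))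
 (.lc 2 1 (.node [97,118,135,56] 3 8 (.node [135] 6 1 .stop
 (.lc 2 7 .stop))
 (.lc 2 1 (.lc 3 1 .stop))))))
 (.lc 0 7 .stop))))))
 (.node [81,54,66] 5 1 (.node [97] 1 4 (.node [] 6 1 (.lc 2 1 .stop)
 (.node [100] 1 3 (.lc 2 0 (.lc 3 0 .stop))
 (.lc 2 2 (.lc 2 2 (.node [116] 6 1 (.lc 2 1 .stop)
 (.far [4112,1,256] 0 (.lc 2 2 (.lc 2 2 (.lc 3 2 (.lc 3 2 .stop))))))))))
 (.lc 0 7 .stop))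
 (.node [87,54,66] 6 5 (.asm [103] 0 (.lc 3 0 (.lc 3 1 (.lc 3 8 (.lc 1 4 (.lc 1 4 (.lc 1 4 (.lc 3 0 (.lc 3 1 (.lc 3 8 (.lc 4 1 (.lc 4 8 (.lc 4 8 (.lc 4 0 (.lc 4 1 (.lc 4 9 .stop))))))))))))))))
 (.node [66,81,54] 5 1 (.node [97] 6 1 (.lc 2 1 .stop)
 (.lc 0 7 .stop))
 (.conf [87,112] (.conf [87,113] (.node [66,80,116,54] 5 0 (.lc 0 1 .stop)
 (.node [66,81,116,54] 5 1 .stop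
 (.conf [88,135] (.node [66,83,96,54] 0 4 (.node [64] 3 6 (.far [4112,257,4096,4096,0,257] 4096 (.node [55,96] 3 7 (.far [4112,4112,257,4096,4096,0,257] 4096 (.node [118,135,49] 6 0 (.node [24] 6 1 .stop
 (.lc 0 7 .stop))
 (.far [4112,4112,257,4096,4096,0,257] 4096 (.node [118,135,49] 6 0 (.node [97] 7 6 .stop
 (.lc 0 7 (.conf [24,145] .stop)))
 (.node [118,135,152,49] 6 0 (.node [25,152,135,118] 6 1 .stop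
 (.conf [16,152] .stop))
 .stop)))))
 (.lc 2 0 (.lc 2 0 (.lc 3 1 (.far [4112,257,4096,4096,0,257] 4096 (.node [56,96,118,135,56] 3 8 (.far [4112,4112,257,4096,4096,0,257] 4096 (.lc 2 7 (.far [4112,4112,257,4096,4096,0,257] 4096 (.lc 2 7 (.lc 3 7 .stop)))))
 (.lc 2 0 (.lc 2 0 (.lc 3 1 (.lc 0 0 (.lc 3 1 (.lc 3 0 (.lc 3 0 (.lc 4 1 (.lc 4 1 (.lc 4 1 (.lc 4 1 (.lc 5 1 .stop)))))))))))))))))))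
 .stop)
 (.node [66,83,97,54] 1 4 (.node [66] 6 1 (.lc 2 1 .stop)
 (.lc 2 2 (.node [66,116] 6 1 (.lc 2 1 .stop)
 (.lc 2 2 (.lc 3 2 .stop)))))
 (.node [83,116,66,103,54] 3 6 (.lc 2 0 (.node [103] 6 7 (.lc 2 0 (.lc 0 7 (.lc 2 8 (.lc 0 0 (.lc 3 8 (.lc 1 7 (.lc 3 0 (.lc 0 8 (.lc 3 9 (.lc 3 1 (.lc 0 8 (.lc 0 0 (.lc 3 8 (.lc 3 0 (.lc 0 8 (.lc 3 9 (.lc 2 4 (.lc 3 8 (.lc 3 0 (.lc 0 8 (.lc 3 9 (.lc 3 1 (.lc 0 8 (.lc 0 0 (.lc 0 8 (.lc 4 9 (.lc 0 0 (.lc 4 9 (.lc 4 0 (.lc 0 9 (.lc 4 10 (.lc 0 0 (.lc 0 9 (.lc 0 0 (.lc 0 9 (.lc 0 0 (.lc 0 9 (.lc 4 1 (.lc 0 9 (.lc 0 0 (.lc 0 10 .stop)))))))))))))))))))))))))))))))))))))))))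
 (.lc 2 7 (.lc 2 8 (.lc 0 0 (.lc 3 8 (.lc 3 0 (.lc 2 7 (.lc 3 9 (.lc 0 0 (.lc 3 1 (.lc 3 1 (.lc 0 0 (.lc 3 8 (.lc 3 0 (.lc 2 3 (.lc 3 8 (.lc 3 0 (.node [103,134] 6 7 (.lc 2 0 (.node [116] 8 7 (.lc 1 4 (.lc 1 4 (.lc 1 2 (.lc 1 2 (.lc 2 4 (.lc 0 9 (.lc 2 4 (.lc 2 4 (.lc 2 4 (.lc 1 2 (.lc 1 2 (.lc 0 4 (.lc 0 0 (.lc 2 2 (.lc 2 2 (.lc 2 2 (.lc 0 0 (.lc 0 0 (.lc 0 0 (.lc 2 2 (.lc 0 9 (.lc 0 0 .stop))))))))))))))))))))))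
 (.lc 2 9 (.lc 2 4 (.lc 3 9 (.lc 1 7 (.lc 3 0 (.lc 2 4 (.lc 3 10 (.lc 3 3 (.lc 3 3 (.lc 0 0 (.lc 3 9 (.lc 3 0 (.lc 0 9 (.lc 3 10 (.lc 2 4 (.lc 3 9 (.lc 3 0 (.lc 2 4 (.lc 3 10 (.lc 3 3 (.lc 3 3 (.lc 3 3 (.lc 3 3 (.lc 3 4 (.lc 4 10 (.lc 3 4 (.lc 4 10 (.lc 4 0 (.lc 3 4 (.lc 4 11 (.lc 4 3 (.lc 4 3 (.lc 4 3 (.lc 4 3 (.lc 2 7 (.lc 4 3 (.lc 4 3 (.lc 4 3 (.lc 4 3 (.lc 4 3 (.lc 4 3 (.lc 4 3 (.lc 4 3 (.lc 5 3 (.lc 5 3 (.lc 5 3 (.lc 5 3 .stop)))))))))))))))))))))))))))))))))))))))))))))))))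
 (.lc 3 9 (.lc 0 0 (.lc 3 8 (.lc 3 0 (.lc 2 7 (.lc 3 9 (.lc 0 0 (.lc 3 1 (.lc 0 0 (.lc 3 1 (.lc 3 1 (.lc 4 9 (.lc 0 0 (.lc 4 9 (.lc 4 0 (.lc 3 7 (.lc 4 10 (.lc 0 0 (.lc 4 1 (.lc 0 0 (.lc 4 1 (.lc 0 0 (.lc 4 1 (.lc 0 0 (.lc 4 1 (.lc 0 0 (.lc 4 1 (.lc 0 0 (.lc 5 1 .stop))))))))))))))))))))))))))))))))))))))))))))))))
 (.node [81,54,66] 5 1 (.node [97] 6 1 (.lc 2 1 .stop)
 (.lc 0 7 .stop))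
 (.conf [87,112] (.conf [87,113] (.conf [80,116,66] (.conf [81,116,66] (.conf [88,135] (.node [66,81,54] 5 1 (.node [97] 4 2 (.node [32,70] 4 6 .stop
 (.node [32,71] 0 4 (.far [16,257,257,256,16,4096] 4097 (.lc 1 2 .stop))
 (.conf [72,135] .stop)))
 (.lc 0 7 (.lc 0 7 (.node [19,103,113,19] 1 3 (.node [115] 7 3 .stop
 (.lc 0 8 .stop))
 (.lc 0 8 .stop)))))
 (.node [66,87,54] 0 4 .stop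
 (.node [66,87,54] 1 4 (.node [19,66] 4 2 (.node [] 5 7 (.far [257,257,16,257,16,4097] 0 (.lc 0 8 (.lc 0 8 (.lc 2 1 (.lc 0 9 .stop)))))
 .stop)
 (.conf [66,100] (.conf [66,132] .stop)))
 (.node [66,80,116,54] 5 0 (.node [96] 0 7 (.far [257,0,1,0,1,1] 4096 (.far [4112,1,256] 0 (.lc 2 4 (.conf [116,135] (.lc 2 4 (.lc 2 4 (.lc 3 4 .stop)))))))
 (.lc 0 1 (.lc 0 1 (.lc 0 8 (.node [97] 7 4 (.node [66,118] 6 4 .stop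
 (.node [66,120] 4 2 (.far [257,16,257,257,16,4097] 4097 (.lc 0 9 .stop))
 (.lc 2 2 (.lc 3 1 (.lc 3 6 (.lc 3 9 (.conf [66,132] (.lc 2 2 (.lc 2 2 (.lc 3 8 (.lc 3 9 (.lc 4 10 (.lc 3 2 .stop)))))))))))))
 (.lc 0 8 .stop))))))
 (.node [66,81,116,54] 5 1 (.node [97] 1 7 (.node [116] 6 1 (.lc 2 1 .stop)
 (.far [4112,1,256] 0 (.lc 2 4 (.lc 2 4 (.conf [116,135] (.conf [116,135] (.lc 2 4 (.lc 2 4 (.lc 3 4 (.lc 3 4 .stop))))))))))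
 (.lc 0 8 .stop))
 (.node [66,88,116,54] 5 8 (.node [104] 7 4 (.node [66,112] 0 4 (.far [16,16,257,257,16,4097] 0 .stop)
 (.node [66,113] 1 4 .stop
 (.node [66,118] 6 4 .stop
 (.node [66,121] 4 2 (.far [257,16,257,257,16,4097] 0 (.lc 0 0 (.lc 0 0 (.lc 0 10 (.far [257,16,257,257,16,4097] 17 (.lc 0 10 .stop))))))
 (.lc 2 2 (.lc 2 2 (.lc 3 1 (.lc 3 6 (.lc 3 9 (.lc 3 6 (.lc 3 9 (.lc 3 0 (.lc 3 1 (.lc 3 6 (.lc 3 10 (.node [66,113] 4 2 (.far [257,16,257,257,16,4097] 4097 .stop)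
 (.conf [121,144] (.conf [121,145] (.conf [66,148] (.conf [66,148] (.conf [66,148] (.lc 2 2 (.lc 2 2 (.lc 2 2 (.lc 2 2 (.lc 3 1 (.lc 3 9 (.lc 3 9 (.lc 3 0 (.lc 3 1 (.lc 3 9 (.lc 3 0 (.lc 3 1 (.lc 3 10 (.lc 3 2 (.lc 4 9 (.lc 4 10 (.lc 4 10 (.lc 4 1 (.lc 4 10 (.lc 4 10 (.lc 4 0 (.lc 4 1 (.lc 4 11 (.lc 3 2 (.lc 3 2 (.lc 3 2 (.lc 3 2 (.lc 3 2 (.lc 4 2 .stop))))))))))))))))))))))))))))))))))))))))))))))))))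
 (.lc 0 0 (.lc 0 1 (.lc 0 9 (.lc 0 0 (.lc 0 1 (.lc 0 9 (.lc 2 7 (.lc 2 7 (.lc 2 7 (.lc 0 1 (.lc 0 9 (.lc 0 9 (.lc 0 0 (.lc 0 1 (.lc 0 10 .stop))))))))))))))))
 (.conf [66,83] (.conf [66,83] (.conf [66,83] (.node [66,83,96,54] 6 0 (.lc 2 1 (.lc 2 7 (.lc 3 7 (.lc 1 0 (.lc 0 7 (.lc 3 7 (.lc 3 8 (.lc 3 7 (.lc 1 0 (.lc 1 0 (.lc 4 8 .stop)))))))))))
 (.node [66,83,97,54] 6 1 (.lc 2 7 (.lc 3 8 .stop))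
 (.node [66,83,103,54] 3 6 (.lc 2 0 (.lc 1 7 (.lc 2 8 (.lc 3 0 (.node [116] 7 4 (.node [66,112] 0 4 (.far [1,1,0,1,1,257] 0 (.lc 1 2 (.lc 2 2 .stop)))
 (.conf [20,113] (.conf [32,66] (.node [66,120,132] 4 2 (.lc 2 0 (.conf [32,130] (.lc 2 9 (.lc 2 0 (.lc 2 0 (.lc 3 2 (.lc 3 2 (.lc 0 0 (.lc 3 9 (.lc 0 9 (.lc 3 10 (.lc 2 0 (.lc 2 0 (.lc 2 0 (.lc 3 2 (.lc 3 2 (.lc 3 0 (.lc 3 0 (.lc 4 2 (.lc 4 2 (.lc 3 0 (.lc 3 0 (.lc 3 0 (.lc 4 0 .stop))))))))))))))))))))))))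
 (.lc 0 0 (.lc 2 2 (.lc 2 2 (.lc 2 2 (.lc 3 8 (.lc 1 0 (.lc 3 0 (.lc 3 9 (.lc 0 0 (.node [66,120,128] 0 4 (.node [] 1 7 (.node [128] 1 8 .stop
 (.lc 1 8 (.lc 2 1 (.conf [25,128,152] (.lc 2 8 (.lc 2 1 (.lc 3 1 .stop)))))))
 .stop)
 (.lc 1 0 (.node [66,112,132] 7 0 (.node [] 4 2 (.node [130] 8 2 .stop
 (.lc 2 9 (.lc 3 2 (.conf [32,137,146] (.lc 3 10 (.lc 3 2 (.lc 4 2 .stop)))))))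
 .stop)
 (.node [66,121,132,152] 4 2 (.lc 2 0 (.node [130,152] 8 2 (.node [128] 9 8 (.far [1,4096,4112,1,0,1,1,257,1] 4096 (.lc 3 1 (.lc 3 10 (.conf [154,160] (.lc 3 10 (.lc 4 11 .stop))))))
 (.lc 3 2 (.conf [138,160] (.lc 3 2 (.lc 4 2 .stop)))))
 (.lc 2 10 (.lc 2 0 (.lc 2 0 (.lc 3 2 (.lc 3 2 (.node [128,152] 9 8 (.conf [1,144] (.lc 3 1 (.lc 3 10 .stop)))
 (.lc 3 10 (.conf [32,138,162] (.lc 3 11 (.lc 2 0 (.lc 2 0 (.lc 2 0 (.lc 3 2 (.lc 3 2 (.lc 3 0 (.lc 3 0 (.lc 4 2 (.lc 4 2 (.lc 3 0 (.lc 3 0 (.lc 3 0 (.lc 4 0 .stop))))))))))))))))))))))))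
 (.lc 2 2 (.lc 2 2 (.lc 2 2 (.lc 2 2 (.lc 2 2 (.lc 2 2 (.lc 2 2 (.lc 2 2 (.lc 3 8 (.lc 3 0 (.lc 3 8 (.lc 3 0 (.lc 3 9 (.lc 3 2 (.lc 0 0 (.lc 3 2 (.lc 3 2 (.lc 3 2 (.lc 4 9 (.lc 2 0 (.lc 4 9 (.lc 4 0 (.lc 4 10 (.lc 3 2 (.lc 3 2 (.lc 3 2 (.lc 3 2 (.lc 3 2 (.lc 3 2 (.lc 3 2 (.lc 3 2 (.lc 3 2 (.lc 3 2 (.lc 3 2 (.lc 3 2 (.lc 4 2 (.lc 4 2 (.lc 4 2 (.lc 4 2 (.lc 4 2 .stop)))))))))))))))))))))))))))))))))))))))))))))))))))))))))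
 (.lc 3 8 (.lc 0 0 (.lc 3 1 (.lc 0 0 (.lc 3 8 (.lc 3 0 (.lc 2 7 (.lc 3 9 (.lc 3 0 (.lc 1 4 (.lc 3 8 (.lc 3 1 (.lc 0 0 (.lc 3 1 (.lc 0 0 (.lc 4 8 (.lc 4 0 (.lc 2 4 (.lc 4 9 (.lc 0 0 (.lc 4 1 (.lc 0 0 (.lc 4 1 (.lc 0 0 (.lc 4 1 (.lc 0 0 (.lc 4 1 (.lc 0 0 (.lc 5 1 .stop))))))))))))))))))))))))))))))))))
 (.conf [87,113] (.conf [88,135] (.conf [88,135] (.node [66,81,116,54] 5 1 (.node [97] 6 1 (.lc 2 1 .stop)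
 (.lc 0 8 .stop))
 (.conf [88,128] (.conf [88,129] (.node [66,80,116,135,54] 5 0 (.lc 0 1 .stop)
 (.node [66,81,116,135,54] 5 1 .stop
 (.conf [89,152] (.node [66,83,97,54] 3 6 (.lc 2 7 (.lc 3 8 .stop))
 (.node [66,83,103,112,54] 7 0 (.node [113] 6 7 (.lc 2 8 (.lc 3 8 (.lc 0 8 (.lc 3 9 (.lc 3 8 (.node [] 4 2 (.far [4096,256,256,4096,4096] 256 (.node [32,72,130] 8 2 .stop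
 (.lc 3 9 (.node [32,73,130,152,130] 8 2 .stop
 (.lc 3 9 (.lc 4 10 .stop))))))
 (.lc 4 9 .stop)))))))
 (.lc 1 0 (.lc 3 8 (.node [120,129] 6 7 (.lc 2 9 (.lc 3 9 (.lc 0 9 (.lc 3 10 (.lc 3 9 (.lc 0 8 (.lc 4 10 (.lc 0 9 .stop))))))))
 (.lc 3 8 (.lc 4 9 .stop))))))
 (.node [66,83,103,113,54] 1 3 (.lc 1 6 (.lc 2 4 (.lc 2 6 (.lc 3 4 .stop))))
 (.node [66,96,116,54,66] 6 0 (.lc 2 1 (.lc 1 0 (.lc 3 8 (.lc 1 0 .stop))))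
 (.node [66,97,116,54,66] 6 1 .stop
 (.node [66,104,116,54,66] 3 6 (.lc 2 0 (.lc 1 8 (.lc 2 9 (.lc 3 0 (.lc 1 7 (.lc 3 9 (.lc 0 0 (.lc 3 1 (.lc 0 0 (.lc 3 9 (.lc 3 0 (.lc 2 8 (.lc 3 10 (.lc 3 0 (.node [135] 8 7 (.lc 0 7 (.lc 0 0 (.lc 0 9 (.lc 0 0 (.lc 0 9 (.lc 2 4 (.lc 0 9 (.lc 0 0 (.lc 0 10 .stop)))))))))
 (.lc 3 9 (.lc 3 1 (.lc 0 0 (.lc 3 1 (.lc 0 0 (.lc 4 9 (.lc 4 0 (.node [135,152] 9 8 (.node [116] 9 7 (.lc 1 4 (.lc 1 4 (.lc 1 2 (.lc 1 2 (.lc 2 4 (.lc 0 10 (.lc 2 4 (.lc 2 4 (.lc 2 4 (.lc 1 2 (.lc 1 2 (.lc 0 4 (.lc 0 0 (.lc 2 2 (.lc 2 2 (.lc 2 2 (.lc 0 0 (.lc 0 0 (.lc 0 0 (.lc 2 2 (.lc 0 10 (.lc 0 0 .stop))))))))))))))))))))))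
 (.lc 1 4 (.lc 1 4 (.lc 1 4 (.lc 1 4 (.lc 3 0 (.lc 3 10 (.lc 2 4 (.lc 2 4 (.lc 2 4 .stop))))))))))
 (.lc 4 10 (.lc 0 0 (.lc 4 1 (.lc 0 0 (.lc 4 1 (.lc 0 0 (.lc 4 1 (.lc 0 0 (.lc 4 1 (.lc 0 0 (.lc 5 1 .stop))))))))))))))))))))))))))))))))))
 (.conf [66,83] (.conf [66,83] (.conf [66,83] (.conf [66,83] (.conf [66,83] (.conf [66,83] (.conf [66,83] (.conf [66,83] (.conf [66,83] (.conf [66,83] (.conf [66,83] (.conf [66,83] (.conf [66,83] (.conf [66,83] (.conf [66,83] (.conf [66,83] (.conf [66,83] (.conf [66,83] (.conf [66,83] (.conf [66,83] (.conf [66,83] (.conf [66,83] (.conf [66,83] (.conf [66,83] (.conf [66,83] (.conf [66,83] (.conf [66,83] .stop))))))))))))))))))))))))))))))))))))))))))))))))))))))))))))))))))))))))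
 (.lc 0 0 (.conf [84,96,54] (.node [84,101,66,48] 3 0 (.node [16] 6 5 (.node [66] 4 2 (.lc 2 2 (.node [32,71] 7 2 (.lc 0 4 .stop)
 (.lc 3 8 (.lc 3 2 (.node [32,114,135,32,72,100] 7 2 (.lc 0 4 .stop)
 (.lc 3 8 (.lc 4 9 .stop)))))))
 (.node [66,103] 4 2 (.lc 2 8 (.conf [32,130] (.lc 3 9 (.lc 0 8 (.lc 0 9 .stop)))))
 (.far [16,257,256,1,4096] 0 (.far [1,4112,4096,16,256] 0 (.node [66,104,116] 6 8 (.lc 2 9 (.lc 3 10 (.lc 3 10 (.lc 3 10 (.conf [40,135] (.lc 4 11 .stop))))))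
 .stop)))))
 .stop)
 (.node [49,84,101,66] 6 5 (.node [66] 4 2 (.node [64] 6 4 (.far [1,4096,257,4096,0,257] 4096 (.lc 0 4 (.node [64,103] 7 4 (.far [1,1,4096,257,4096,0,257] 4096 (.lc 0 6 (.node [120,128,64] 1 6 (.lc 2 7 (.lc 2 8 (.lc 2 9 (.lc 3 9 (.lc 3 0 (.lc 3 8 (.lc 3 9 (.lc 3 8 (.lc 3 10 (.lc 3 8 (.lc 4 9 .stop)))))))))))
 (.node [128,120] 1 6 (.lc 2 7 (.lc 2 8 (.lc 2 9 (.lc 3 8 (.lc 3 9 (.lc 3 0 (.lc 3 9 (.lc 3 10 (.lc 3 9 (.lc 4 10 .stop))))))))))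
 (.far [1,1,4096,257,4096,0,257] 4096 (.node [121,152,64,128] 1 6 (.lc 2 7 (.lc 2 8 (.lc 2 9 (.lc 2 10 (.lc 3 10 (.lc 3 0 (.lc 3 9 (.lc 3 8 (.lc 3 11 (.lc 3 9 (.lc 4 10 .stop)))))))))))
 .stop))))))
 (.lc 0 0 (.lc 2 0 (.lc 3 7 (.lc 3 8 (.lc 0 0 (.node [64,103,112] 6 7 (.lc 0 7 (.lc 2 8 (.lc 3 9 (.lc 0 8 (.lc 3 9 (.lc 0 8 (.lc 3 9 (.lc 0 8 (.lc 4 10 (.lc 0 9 .stop))))))))))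
 (.node [64,104,116,135,64] 7 4 (.node [112] 1 6 (.node [104] 6 8 .stop
 (.lc 2 8 (.lc 2 9 (.lc 3 9 (.lc 3 0 (.lc 3 0 (.lc 3 9 (.lc 3 10 (.lc 2 1 (.lc 3 9 (.lc 3 0 (.lc 4 10 (.lc 4 0 .stop)))))))))))))
 (.lc 0 6 (.lc 3 9 (.node [121,144,121,135] 6 8 (.lc 0 8 (.lc 0 0 (.node [106,135] 1 6 (.lc 2 10 (.lc 3 11 .stop))
 (.lc 2 7 (.lc 2 7 (.lc 0 10 (.conf [107,186] (.lc 0 10 (.lc 2 7 (.lc 2 7 (.lc 0 9 (.lc 0 10 (.lc 3 7 (.lc 0 0 (.lc 0 11 .stop)))))))))))))))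
 (.lc 3 9 (.lc 4 10 .stop))))))
 (.lc 2 0 (.lc 2 0 (.lc 2 0 (.lc 3 7 (.lc 3 8 (.lc 3 0 (.lc 4 8 (.lc 4 9 (.lc 3 0 (.lc 3 0 (.lc 3 0 (.lc 4 0 .stop))))))))))))))))))))))
 (.lc 1 0 (.lc 1 0 (.lc 2 0 (.lc 2 0 (.lc 3 7 (.lc 2 0 (.lc 3 2 (.node [71,112] 4 7 (.far [4112,4096,257,4096,0,257] 4096 (.node [72,112,100] 6 4 (.far [1,4112,4096,257,4096,0,257] 4096 (.lc 3 9 (.lc 1 7 (.lc 3 9 (.lc 4 10 .stop)))))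
 (.lc 0 8 (.lc 2 0 (.lc 3 2 (.lc 0 8 (.conf [73,152] (.lc 2 0 (.lc 2 0 (.lc 1 7 (.lc 3 2 (.lc 3 2 (.lc 0 9 (.lc 3 0 (.lc 4 2 (.lc 4 2 (.lc 4 2 (.lc 4 2 (.lc 5 2 .stop)))))))))))))))))))
 (.lc 2 0 (.lc 2 0 (.lc 2 0 (.lc 2 0 (.lc 2 0 (.lc 3 7 (.lc 2 0 (.lc 3 0 (.lc 3 0 (.lc 4 8 (.lc 3 0 (.lc 3 0 (.lc 3 0 (.lc 3 0 (.lc 4 0 .stop))))))))))))))))))))))))
 (.node [66,96] 0 4 (.lc 1 2 (.lc 2 2 .stop))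
 (.node [66,103] 4 2 (.lc 2 0 (.lc 1 0 (.lc 2 0 (.far [4096,257,4096,0,257] 4096 (.lc 2 0 (.lc 3 8 (.lc 2 0 (.lc 2 0 (.lc 2 0 (.lc 0 0 (.lc 2 0 (.lc 3 0 (.lc 0 8 (.lc 3 0 (.lc 3 0 (.lc 3 0 (.lc 3 0 (.lc 4 0 .stop))))))))))))))))))
 (.far [16,256,1,4096] 0 (.far [16,256,1,4096] 0 (.far [1,4096,16,256] 0 (.far [1,4096,16,256] 0 (.node [66,103,112] 0 4 .stop
 (.node [66,96,116] 6 0 .stop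
 (.node [66,104,116] 6 8 (.lc 2 0 (.lc 2 9 (.lc 3 9 (.lc 1 8 (.lc 3 0 (.lc 3 10 (.lc 2 7 (.lc 0 9 (.lc 3 9 (.lc 3 0 (.lc 3 10 (.lc 3 9 (.lc 3 0 (.lc 3 10 (.node [135] 8 7 (.node [116] 7 4 (.lc 1 2 (.lc 1 0 (.lc 0 9 (.lc 2 2 (.far [1,1,0,257,4096,0,257] 4096 .stop)))))
 (.lc 1 7 (.lc 2 4 (.node [116,151] 7 4 (.lc 1 2 (.lc 1 0 (.lc 2 2 (.lc 2 2 (.lc 1 0 (.lc 2 2 (.lc 3 2 (.lc 2 0 .stop))))))))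
 (.lc 2 4 (.lc 3 4 .stop))))))
 (.lc 0 9 (.lc 0 0 (.lc 4 10 (.lc 4 10 (.lc 4 0 (.lc 4 11 (.lc 0 0 (.lc 0 0 (.lc 0 0 (.node [135,152] 9 8 (.node [116] 7 4 (.lc 1 2 (.lc 1 0 (.lc 2 2 (.lc 2 2 (.lc 1 0 (.lc 1 0 (.lc 2 2 (.lc 1 1 (.lc 2 0 .stop)))))))))
 (.lc 1 4 (.lc 1 4 (.lc 3 10 (.lc 2 4 .stop)))))
 (.lc 0 10 (.lc 0 0 .stop)))))))))))))))))))))))))))
 .stop))))))))))
 (.conf [55,84,101,118] (.node [54,84,96,66] 0 5 .stop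
 (.conf [48,84,101] (.conf [55,84,101] (.lc 0 0 (.node [54,84,96,66,54,84] 0 5 .stop
 (.node [84,101,66,84,48] 3 0 (.lc 0 0 .stop)
 (.conf [49,84] (.node [55,84,118,66,55,84] 3 7 (.lc 2 0 (.node [118] 7 6 (.lc 1 5 (.lc 1 5 (.lc 1 5 (.lc 0 2 (.lc 3 8 (.lc 3 0 (.lc 3 0 (.lc 3 8 (.lc 3 0 (.lc 0 2 (.lc 3 9 (.lc 2 5 (.lc 0 4 (.lc 0 8 (.lc 0 2 (.lc 2 5 (.lc 1 2 (.lc 1 2 (.lc 2 5 (.lc 0 2 (.lc 2 5 (.lc 3 4 (.lc 3 8 (.lc 1 2 (.lc 1 6 (.lc 1 2 (.lc 3 0 (.lc 3 4 (.lc 3 9 (.far [1,4096,0,0,257] 16 (.lc 0 4 (.lc 0 8 (.lc 0 0 (.lc 0 4 (.lc 0 8 (.lc 1 2 (.lc 0 2 (.lc 4 9 (.lc 2 2 (.lc 1 0 (.lc 2 2 (.lc 2 2 (.lc 0 2 (.lc 4 9 (.lc 1 2 (.lc 1 2 (.lc 4 0 (.lc 0 2 (.lc 4 10 (.lc 0 0 (.lc 0 8 (.lc 0 0 (.lc 0 4 (.lc 0 9 (.lc 0 0 (.lc 0 8 (.lc 0 0 (.lc 0 4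 (.lc 0 9 (.lc 0 0 (.lc 0 8 (.lc 0 0 (.lc 0 4 (.lc 0 9 (.lc 2 2 (.lc 0 8 (.node [101,134] 6 5 (.lc 1 4 (.lc 0 4 (.lc 2 4 (.lc 1 2 (.lc 2 2 .stop)))))
 (.lc 0 4 (.lc 0 9 (.lc 0 0 (.lc 0 9 (.lc 0 0 (.lc 0 9 (.lc 0 0 (.lc 0 4 (.lc 0 10 .stop))))))))))))))))))))))))))))))))))))))))))))))))))))))))))))))))))))))))))))
 (.lc 2 8 (.lc 0 0 (.lc 3 8 (.lc 3 0 (.lc 2 6 (.lc 3 9 (.lc 0 0 (.lc 3 1 (.lc 0 0 (.lc 3 8 (.lc 3 0 (.node [118,135] 8 7 (.lc 1 6 (.lc 1 6 (.lc 1 6 (.lc 1 5 (.lc 0 2 (.lc 1 5 (.lc 2 6 (.lc 2 6 (.lc 1 2 (.lc 1 7 (.lc 1 2 (.lc 2 6 (.lc 2 6 (.lc 2 6 (.lc 0 2 (.lc 2 6 (.lc 1 2 (.lc 1 2 (.lc 2 6 (.lc 0 2 (.lc 2 6 (.node [101,128] 0 6 (.lc 0 4 (.lc 0 2 .stop))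
 (.node [66,101,132] 4 6 .stop
 (.node [101,137] 6 5 (.lc 1 4 (.node [148,66] 8 9 (.lc 2 0 (.lc 2 10 (.lc 1 2 (.lc 1 2 (.lc 2 4 (.lc 0 10 (.lc 3 10 (.lc 3 0 (.lc 3 11 (.lc 1 2 (.lc 1 2 (.lc 0 4 (.lc 0 0 (.lc 2 2 (.lc 2 2 (.lc 2 2 (.lc 0 0 (.lc 0 0 (.lc 0 0 (.lc 2 2 (.lc 0 10 (.lc 0 0 .stop))))))))))))))))))))))
 (.lc 2 4 (.lc 2 4 (.lc 1 2 (.lc 2 2 (.lc 2 2 .stop)))))))
 (.lc 1 5 (.lc 1 5 (.lc 1 5 (.lc 0 2 (.lc 2 6 (.lc 2 6 (.lc 2 6 (.lc 2 6 (.lc 2 6 (.lc 0 2 (.lc 2 6 (.lc 0 2 (.node [101,137,144] 0 6 .stop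
 (.lc 1 2 (.lc 1 2 (.node [101,128,150] 8 0 .stop
 (.lc 0 2 (.node [101,138,150] 6 5 (.lc 1 4 (.lc 0 4 (.lc 2 4 (.lc 2 4 (.lc 1 2 (.lc 2 2 (.lc 2 2 .stop)))))))
 (.lc 1 2 (.lc 0 2 (.lc 3 6 (.lc 2 2 (.lc 1 0 (.lc 2 2 (.lc 2 2 (.lc 0 2 (.lc 3 6 (.lc 1 2 (.lc 1 2 (.lc 3 6 (.lc 0 2 (.lc 3 6 (.lc 0 2 (.lc 2 5 (.lc 1 2 (.lc 1 2 (.lc 2 5 (.lc 0 2 (.lc 2 5 (.lc 0 2 (.lc 4 9 (.lc 4 0 (.lc 4 0 (.lc 4 9 (.lc 4 0 (.lc 0 2 (.lc 4 10 (.lc 4 4 (.lc 4 9 (.lc 1 2 (.lc 1 6 (.lc 1 2 (.lc 4 0 (.lc 4 4 (.lc 4 10 (.lc 1 2 (.lc 0 2 (.lc 5 10 (.lc 2 2 (.lc 1 0 (.lc 2 2 (.lc 2 2 (.lc 0 2 (.lc 5 10 (.lc 1 2 (.lc 1 2 (.lc 5 0 (.lc 0 2 (.lc 5 11 .stop)))))))))))))))))))))))))))))))))))))))))))))))))))))))))))))))))))))))))))))))))))))))))))))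
 (.lc 3 9 (.lc 0 0 (.lc 3 8 (.lc 3 0 (.lc 2 6 (.lc 3 9 (.lc 0 0 (.lc 3 1 (.lc 0 0 (.lc 3 1 (.lc 4 9 (.lc 0 0 (.lc 4 9 (.lc 4 0 (.lc 3 6 (.lc 4 10 (.lc 0 0 (.lc 4 1 (.lc 0 0 (.lc 4 1 (.lc 0 0 (.lc 4 1 (.lc 0 0 (.lc 4 1 (.lc 0 0 (.lc 5 1 .stop))))))))))))))))))))))))))))))))))))))))
 (.conf [16,49] (.node [84,66,54] 0 5 .stop
 (.node [84,101,66,48] 3 0 (.node [16] 6 5 (.far [16,257,257,257,4096] 0 (.lc 3 7 (.far [16,257,257,257,4096] 0 (.lc 3 7 (.lc 4 8 .stop)))))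
 (.lc 2 7 (.lc 3 8 .stop)))
 (.node [49,84,101,66] 6 5 (.far [16,257,257,4096] 0 (.lc 3 0 (.lc 3 7 (.far [16,257,257,4096] 0 (.far [16,257,257,4096] 0 (.lc 3 0 (.lc 3 7 (.lc 4 7 (.lc 4 0 (.lc 4 8 .stop))))))))))
 (.node [84,101,66,55] 6 5 (.node [100,66] 3 7 (.lc 2 0 (.far [257,16,257,257,4096] 0 (.lc 2 8 (.lc 0 0 (.lc 3 8 (.lc 3 0 (.lc 2 6 (.lc 3 9 (.lc 3 1 (.lc 3 1 (.lc 0 0 (.lc 3 8 (.lc 3 0 (.node [118,135] 7 6 (.lc 1 4 (.lc 1 4 (.lc 1 4 (.node [66,112] 0 4 (.node [] 7 0 .stop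
 .stop)
 (.lc 3 3 (.conf [121,148] (.lc 2 4 (.lc 2 4 (.lc 2 4 (.lc 2 4 (.lc 2 4 (.lc 2 4 (.lc 2 4 (.lc 2 4 (.lc 1 2 (.lc 1 2 (.lc 1 2 (.lc 3 0 (.lc 1 2 (.lc 3 9 (.lc 2 4 (.lc 2 4 (.lc 2 4 (.lc 2 4 (.lc 2 2 (.lc 2 2 (.lc 2 2 (.lc 2 2 (.lc 2 2 (.lc 3 4 (.lc 3 4 (.lc 3 4 (.lc 3 4 (.lc 4 9 (.lc 2 2 (.lc 4 0 (.lc 4 10 (.lc 2 2 (.lc 2 2 (.lc 2 2 (.lc 2 2 (.lc 2 2 (.lc 2 2 (.lc 3 2 (.lc 3 2 (.lc 3 2 (.lc 3 2 .stop)))))))))))))))))))))))))))))))))))))))))))))))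
 (.lc 3 9 (.lc 2 6 (.lc 3 8 (.lc 3 0 (.lc 2 6 (.lc 3 9 (.lc 3 1 (.lc 3 1 (.lc 0 0 (.lc 3 1 (.lc 4 9 (.lc 0 0 (.lc 4 9 (.lc 4 0 (.lc 3 6 (.lc 4 10 (.lc 0 0 (.lc 4 1 (.lc 0 0 (.lc 4 1 (.lc 0 0 (.lc 4 1 (.lc 4 1 (.lc 4 1 (.lc 0 0 (.lc 5 1 .stop))))))))))))))))))))))))))))))))))))))))
 (.lc 3 0 (.lc 3 1 (.lc 3 8 (.node [66,96] 0 4 .stop
 (.node [66,97] 1 4 (.lc 2 3 (.lc 3 3 (.lc 3 3 .stop)))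
 (.node [66,104] 6 8 (.lc 2 0 (.lc 2 1 (.lc 2 9 (.lc 3 1 (.lc 3 9 (.lc 3 9 (.lc 3 0 (.lc 3 0 (.lc 3 1 (.lc 3 10 (.node [112,132] 0 8 (.lc 1 4 (.node [] 3 7 (.far [257,0,0,16,257,257,4096] 0 (.lc 2 9 (.lc 2 0 (.lc 3 10 (.lc 3 1 (.node [112,151] 7 0 .stop
 (.lc 3 10 (.lc 2 0 (.lc 3 10 (.lc 3 1 (.lc 0 0 (.lc 3 1 (.lc 3 0 (.lc 4 11 (.lc 4 1 (.lc 4 1 (.lc 4 1 (.lc 4 1 (.lc 5 1 .stop)))))))))))))))))))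
 .stop))
 (.node [113,132] 1 8 (.lc 1 4 (.lc 1 2 (.lc 2 4 .stop)))
 (.conf [121,152] (.lc 3 1 (.lc 3 9 (.lc 3 9 (.lc 3 0 (.lc 3 1 (.lc 3 10 (.lc 3 1 (.lc 3 9 (.lc 3 9 (.lc 3 0 (.lc 3 1 (.lc 3 10 (.lc 2 4 (.lc 2 4 (.lc 2 4 (.lc 0 0 (.lc 0 1 (.lc 0 9 (.lc 4 9 (.lc 4 10 (.lc 4 10 (.lc 4 1 (.lc 4 10 (.lc 4 10 (.lc 4 0 (.lc 4 1 (.lc 4 11 (.lc 0 1 (.lc 0 9 (.lc 0 9 (.lc 0 0 (.lc 0 1 (.lc 0 10 (.lc 0 1 (.lc 0 9 (.lc 0 9 (.lc 0 0 (.lc 0 0 (.lc 0 1 (.lc 0 10 (.lc 0 1 (.lc 0 9 (.lc 0 9 (.lc 0 0 (.lc 0 1 (.lc 0 10 (.lc 3 4 (.lc 3 4 (.lc 3 4 (.lc 3 4 (.lc 3 4 (.lc 3 4 (.lc 0 9 (.lc 0 10 (.lc 0 10 (.lc 0 1 (.lc 0 10 (.lc 0 10 (.lc 0 0 (.lc 0 1 (.lc 0 11 .stop))))))))))))))))))))))))))))))))))))))))))))))))))))))))))))))))))))))))))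
 (.lc 3 0 (.lc 3 1 (.lc 3 8 (.lc 4 1 (.lc 4 8 (.lc 4 8 (.lc 4 0 (.lc 4 1 (.lc 4 9 .stop))))))))))))))))
 (.conf [54,84] (.conf [48,84] (.conf [55,84] (.node [54,84,96,66] 0 5 (.node [84] 3 6 (.node [96] 6 0 (.far [16,0,257,4096] 0 (.conf [71,100] (.conf [104,135] .stop)))
 (.lc 2 0 (.lc 2 0 (.conf [96,118] (.conf [96,134] (.lc 2 0 (.lc 2 0 (.lc 3 0 (.lc 3 0 (.lc 3 0 .stop))))))))))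
 (.lc 2 0 (.conf [84,117] (.lc 2 0 (.lc 3 0 .stop)))))
 (.node [48,84,66] 3 0 (.lc 0 0 .stop)
 (.node [55,84,118,66] 3 7 (.node [118] 7 6 (.node [101,112] 7 0 (.node [] 6 5 (.lc 2 0 (.node [84] 5 4 (.far [4112,1,0,0,4112,1,272,256] 0 (.lc 0 9 (.lc 0 9 (.node [66,148] 9 4 (.node [66,154] 4 2 (.node [32] 10 2 (.far [1,1,0,0,0,4112,4112,4096,4112,4096,257] 4096 (.node [166,104] 10 6 .stop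
 (.far [1,1,0,0,0,16,4112,0,4112,4096] 256 (.lc 1 0 .stop))))
 (.lc 0 0 (.lc 0 11 .stop)))
 (.lc 2 2 (.lc 3 11 (.conf [66,164] (.lc 2 2 (.lc 2 2 (.lc 2 2 (.lc 3 11 (.lc 4 12 (.lc 3 2 (.lc 3 2 (.lc 3 2 .stop))))))))))))
 (.lc 0 10 .stop)))))
 (.lc 2 3 (.lc 3 9 (.conf [84,133] (.lc 2 3 (.lc 2 3 (.lc 2 3 (.lc 3 9 (.lc 3 3 (.lc 4 10 (.lc 3 3 (.lc 3 3 (.lc 3 3 (.lc 4 3 .stop)))))))))))))))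
 .stop)
 (.node [101,116] 7 4 (.node [70] 5 4 .stop
 (.node [70] 5 4 .stop
 (.node [24,70,132] 5 4 .stop
 .stop)))
 (.node [101,120] 7 8 (.node [134] 6 5 (.node [84] 0 5 (.far [1,1,0,0,4112,1,272,256] 0 (.node [66,148] 0 9 (.far [257,256,0,0,0,0,0,1,1] 4096 (.far [4112,4112,256] 0 (.lc 0 0 (.lc 0 0 (.lc 1 9 (.lc 2 4 (.lc 2 4 (.lc 0 0 .stop))))))))
 .stop))
 (.lc 2 5 (.node [84] 5 4 (.far [4112,1,0,0,4112,1,272,256] 0 (.lc 0 0 (.lc 0 8 (.lc 0 10 (.lc 0 0 (.lc 0 10 (.node [66] 0 4 .stop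
 (.node [66,164] 10 4 (.node [66,160] 0 4 (.far [256,0,0,0,4112,4112,4096,4112,4096,257] 4096 .stop)
 (.node [66,168] 8 4 .stop
 (.node [66,171] 4 2 (.node [32] 11 2 (.far [1,1,0,0,0,4112,4112,4096,4112,4096,257] 4096 (.node [184,128] 11 8 .stop
 (.node [154,185,144] 11 9 .stop
 (.node [188,192] 10 11 (.far [1,4096,257,256,0,0,4112,4112,4096,4112,4096,257] 4096 (.lc 3 4 (.conf [173,220] (.lc 3 4 (.lc 4 4 .stop)))))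
 (.node [188,192,188] 10 11 (.node [168,188] 8 11 .stop
 (.lc 1 2 (.node [173,188] 9 10 (.node [157] 13 11 (.far [1,0,1,4112,256,256] 0 (.lc 1 0 (.lc 1 0 (.lc 1 0 (.lc 3 14 (.lc 2 0 .stop))))))
 (.lc 1 11 (.lc 1 11 (.lc 1 11 (.lc 1 11 (.far [1,4112,0,8224,4097,4096,1,257,257,16,258,512] 0 (.lc 2 11 .stop)))))))
 (.lc 2 2 (.lc 3 4 (.lc 3 4 (.lc 2 2 (.conf [188,219] (.lc 2 2 (.lc 2 2 (.lc 3 4 (.lc 3 4 (.lc 3 4 (.lc 3 4 (.lc 3 2 (.lc 4 4 (.lc 4 4 (.lc 4 4 (.lc 4 4 (.lc 4 4 (.lc 4 4 (.lc 5 4 .stop))))))))))))))))))))))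
 (.far [1,1,0,0,0,4112,4112,4096,4112,4096,257] 4096 (.node [189,220,192] 10 11 (.far [1,4096,257,256,0,0,4112,4112,4096,4112,4096,257] 4096 (.lc 3 4 (.lc 1 12 (.lc 3 4 (.lc 4 4 .stop)))))
 .stop)))))))
 (.lc 0 0 (.lc 0 0 (.lc 0 12 (.far [257,16,257,16,0,0,257,16,4097,4096] 0 (.lc 0 12 .stop))))))
 (.lc 2 2 (.lc 2 2 (.lc 3 1 (.lc 3 8 (.lc 3 11 (.lc 1 4 (.lc 3 0 (.lc 3 8 (.lc 3 12 (.conf [171,176] (.conf [66,180] (.conf [66,180] (.lc 2 2 (.lc 2 2 (.lc 2 2 (.lc 2 2 (.lc 3 11 (.lc 3 8 (.lc 3 0 (.lc 3 11 (.lc 3 0 (.lc 3 12 (.lc 3 2 (.lc 4 8 (.lc 4 12 (.lc 4 12 (.lc 4 0 (.lc 4 13 (.lc 3 2 (.lc 3 2 (.lc 3 2 (.lc 3 2 (.lc 3 2 (.lc 4 2 .stop)))))))))))))))))))))))))))))))))))))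
 (.lc 0 10 (.lc 0 0 (.lc 0 11 .stop)))))))))))
 (.lc 2 3 (.lc 2 3 (.lc 2 3 (.lc 3 1 (.lc 3 9 (.lc 3 0 (.lc 3 10 (.lc 3 5 (.node [84,144] 0 5 .stop
 (.conf [84,149] (.lc 3 5 (.conf [84,149] (.lc 2 3 (.lc 2 3 (.lc 2 3 (.lc 2 3 (.lc 2 3 (.lc 3 9 (.lc 3 0 (.lc 3 10 (.lc 3 3 (.lc 3 3 (.lc 3 3 (.lc 3 3 (.lc 3 3 (.lc 4 10 (.lc 4 10 (.lc 4 0 (.lc 4 11 (.lc 3 3 (.lc 3 3 (.lc 3 3 (.lc 3 3 (.lc 3 3 (.lc 3 3 (.lc 3 3 (.lc 3 3 (.lc 3 3 (.lc 3 3 (.lc 4 3 (.lc 4 3 (.lc 4 3 (.lc 4 3 .stop))))))))))))))))))))))))))))))))))))))))))))))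
 (.lc 2 6 (.lc 2 6 (.lc 2 6 (.node [134] 6 5 (.lc 2 5 (.node [84] 5 4 (.far [4112,1,0,0,4112,1,272,256] 0 (.lc 0 8 (.lc 0 10 (.lc 0 10 (.node [66,164] 10 4 (.node [66,168] 8 4 (.far [256,0,0,0,16,4112,0,4112,4096] 4097 .stop)
 (.node [66,171] 4 2 (.node [32] 11 2 (.far [1,1,0,0,0,16,4112,0,4112,4096] 256 (.far [257,1,0,0,0,16,4112,0,4112,4096] 4097 (.node [134,184] 11 8 (.far [16,4096,0,0,0,0,16,4096] 256 (.lc 1 5 .stop))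
 (.far [257,1,0,0,0,16,4112,0,4112,4096] 4097 (.far [1,1,0,0,0,16,4112,0,4112,4096] 256 (.far [1,1,0,0,0,16,4112,0,4112,4096] 256 .stop))))))
 (.lc 0 0 (.lc 0 12 (.lc 0 8 .stop))))
 (.lc 2 2 (.lc 1 4 (.lc 3 8 (.lc 3 12 (.conf [66,180] (.lc 2 2 (.lc 2 2 (.lc 2 2 (.lc 2 2 (.lc 3 8 (.lc 3 11 (.lc 3 12 (.lc 3 2 (.lc 4 13 (.lc 3 2 (.lc 3 2 (.lc 3 2 (.lc 3 2 (.lc 3 2 (.lc 4 2 .stop))))))))))))))))))))))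
 (.lc 0 11 .stop))))))
 (.lc 2 3 (.lc 2 3 (.lc 3 10 (.lc 3 5 (.conf [84,149] (.lc 2 3 (.lc 2 3 (.lc 2 3 (.lc 3 10 (.lc 3 3 (.lc 3 3 (.lc 4 11 (.lc 3 3 (.lc 3 3 (.lc 3 3 (.lc 4 3 .stop))))))))))))))))))
 (.node [72] 1 4 .stop
 (.node [25,134,152] 1 9 (.node [152] 9 8 (.node [134,148] 9 4 (.node [72] 5 4 (.node [88] 5 8 (.lc 0 5 .stop)
 (.lc 3 3 .stop))
 (.lc 2 8 (.far [16,4112,0,16,4112,0,4112,4096] 17 (.node [72,164] 5 4 (.node [88] 5 8 (.lc 0 5 .stop)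
 (.lc 3 3 .stop))
 (.lc 2 8 .stop)))))
 (.lc 1 6 (.node [134,154] 9 10 (.node [168] 6 5 (.lc 2 5 (.node [84,165] 10 5 .stop
 (.node [84] 5 4 (.far [4112,1,4112,4112,8208,16,4112,0,4096,16,16] 257 (.lc 0 10 (.lc 0 12 (.lc 0 12 (.node [66,196] 12 4 (.node [66,202] 10 4 (.far [256,0,0,0,16,4112,0,16,4112,0,4112,4096] 0 .stop)
 (.node [66,205] 4 2 (.node [32] 13 2 (.far [1,1,0,0,0,0,0,4112,16,4112,0,4112,4096] 256 (.far [257,1,0,0,0,16,4112,0,16,4112,0,4112,4096] 0 (.far [1,1,0,0,0,256,0,16,4112,4112,4096,4112,4096,257] 4096 (.far [4096,0,0,0,0,4096,0,4096] 256 (.far [1,1,0,0,0,0,0,4112,16,4112,0,4112,4096] 256 (.far [1,1,0,0,0,16,4112,4112,16,4112,0,4112,4096] 256 .stop))))))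
 (.lc 0 0 (.lc 0 14 (.lc 0 10 .stop))))
 (.lc 2 2 (.lc 1 4 (.lc 3 10 (.lc 3 14 (.conf [66,212] (.lc 2 2 (.lc 2 2 (.lc 2 2 (.lc 2 2 (.lc 3 10 (.lc 3 13 (.lc 3 14 (.lc 3 2 (.lc 4 15 (.lc 3 2 (.lc 3 2 (.lc 3 2 (.lc 3 2 (.lc 3 2 (.lc 4 2 .stop))))))))))))))))))))))
 (.lc 0 13 .stop))))))
 (.lc 2 3 (.lc 3 10 (.lc 3 12 (.lc 3 5 (.conf [84,181] (.lc 2 3 (.lc 2 3 (.lc 2 3 (.lc 2 3 (.lc 2 3 (.lc 3 10 (.lc 3 11 (.lc 3 12 (.lc 3 3 (.lc 3 3 (.lc 4 13 (.lc 3 3 (.lc 3 3 (.lc 3 3 (.lc 3 3 (.lc 3 3 (.lc 3 3 (.lc 4 3 .stop))))))))))))))))))))))))))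
 (.lc 2 8 (.lc 2 8 (.lc 2 8 (.lc 2 8 (.node [74] 5 4 (.lc 1 2 (.lc 2 2 (.lc 2 2 (.lc 2 2 (.lc 3 2 .stop)))))
 (.node [168,186] 6 5 (.lc 2 5 (.node [84,165] 10 5 (.lc 0 4 .stop)
 (.node [84,181,186] 11 5 .stop
 (.node [84] 5 4 (.far [4112,1,4112,4112,8208,16,4112,0,4096,16,16] 257 (.lc 0 10 (.lc 0 11 (.lc 0 13 (.lc 0 13 (.node [66,212] 4 2 (.node [32,74] 4 10 .stop
 (.node [75,178,186] 4 11 (.lc 0 10 .stop)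
 (.node [32,78] 14 2 (.conf [186,235] .stop)
 (.conf [75,186] (.lc 3 2 (.lc 1 2 (.conf [79,254] (.lc 3 2 (.lc 3 2 (.lc 3 2 (.lc 4 2 (.lc 4 2 (.lc 4 2 .stop)))))))))))))
 (.lc 2 4 (.lc 0 14 .stop))))))))
 (.lc 2 3 (.lc 3 10 (.lc 3 10 (.lc 3 11 (.lc 3 13 (.lc 3 5 (.lc 1 5 (.conf [84,197] (.lc 2 3 (.lc 2 3 (.lc 2 3 (.lc 2 3 (.lc 2 3 (.lc 2 3 (.lc 2 3 (.lc 3 12 (.lc 3 10 (.lc 3 12 (.lc 3 13 (.lc 3 3 (.lc 3 3 (.lc 3 3 (.lc 4 12 (.lc 4 10 (.lc 4 14 (.lc 3 3 (.lc 3 3 (.lc 3 3 (.lc 3 3 (.lc 3 3 (.lc 3 3 (.lc 3 3 (.lc 3 3 (.lc 3 3 (.lc 3 3 (.lc 4 3 (.lc 4 3 (.lc 4 3 .stop))))))))))))))))))))))))))))))))))))))))))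
 (.lc 2 8 (.lc 2 8 (.lc 2 10 (.lc 3 8 (.lc 3 8 (.lc 3 8 .stop)))))))))))))
 (.conf [154,164] (.conf [88,134] (.conf [74,148] (.conf [155,186] (.lc 3 0 (.lc 1 5 (.lc 3 0 (.conf [72,134] (.lc 1 5 (.lc 1 5 (.conf [74,148] (.conf [134,168] (.lc 1 8 (.node [72,154] 4 8 .stop
 (.node [134,148,168] 9 4 (.far [257,257,256,4096,0,4096,0,0,257] 16 (.lc 2 10 (.far [256,0,16,16,4112,0,4112,4096] 0 (.node [74,180] 5 4 (.lc 1 2 (.lc 2 2 (.lc 2 2 (.lc 2 2 (.lc 3 2 .stop)))))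
 (.lc 2 10 .stop)))))
 (.node [134,155,168] 10 8 (.node [166] 9 11 (.far [257,16,257,16,16,4096] 0 (.lc 2 10 (.lc 2 10 (.lc 2 10 (.node [75] 5 4 (.lc 1 2 (.lc 2 2 (.lc 2 2 .stop)))
 (.node [203] 6 5 (.lc 2 5 (.node [84,107,186,203] 11 5 (.lc 0 4 .stop)
 (.node [84,197,203] 12 5 .stop
 (.node [84,109] 10 6 (.far [16,257,0,4096,0,0,0,16,0,4096] 0 (.lc 3 6 (.conf [77,164] (.conf [174,237] (.lc 3 6 (.lc 4 6 (.lc 4 6 .stop)))))))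
 (.lc 2 3 (.lc 3 5 (.lc 3 5 (.lc 0 10 (.conf [84,213] (.lc 2 3 (.lc 2 3 (.lc 2 3 (.lc 2 3 (.lc 2 3 (.lc 3 5 (.lc 3 3 (.lc 3 3 (.lc 3 3 (.lc 4 5 (.lc 3 3 (.lc 3 3 (.lc 3 3 (.lc 4 3 .stop)))))))))))))))))))))))
 (.lc 2 10 (.lc 2 10 (.lc 2 11 (.lc 3 10 (.lc 3 10 (.lc 3 10 .stop))))))))))))
 (.lc 1 5 (.lc 1 5 (.lc 1 5 (.lc 1 5 (.lc 1 5 (.lc 3 4 (.lc 3 12 (.lc 2 5 (.lc 2 5 (.lc 2 5 .stop)))))))))))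
 (.lc 3 0 (.lc 3 0 (.lc 3 0 (.lc 3 0 (.lc 3 0 (.lc 2 6 (.lc 3 0 (.conf [155,186] (.conf [155,180] (.conf [75,148] (.conf [156,203] (.lc 2 8 (.lc 4 0 (.lc 2 5 (.lc 2 5 (.lc 4 0 (.lc 4 0 (.lc 4 0 (.lc 4 0 (.lc 4 0 (.lc 4 0 (.lc 4 0 (.lc 2 8 (.lc 4 0 (.lc 4 0 (.lc 4 0 (.lc 4 0 (.lc 2 8 (.lc 4 0 (.lc 4 0 (.lc 4 0 (.lc 5 0 (.lc 2 10 (.lc 5 0 (.lc 5 0 (.lc 5 0 .stop)))))))))))))))))))))))))))))))))))))))))))))))))))))))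
 (.lc 2 8 (.lc 2 8 (.lc 2 8 (.conf [73,152] (.conf [152,169] (.lc 2 8 (.lc 2 8 (.lc 3 8 (.lc 3 8 (.lc 3 8 .stop)))))))))))
 (.lc 2 6 (.lc 2 6 (.lc 2 6 (.lc 3 6 (.lc 3 6 (.lc 3 6 (.lc 3 6 (.lc 3 6 .stop)))))))))))))))
 (.conf [64,116] (.conf [120,128] (.node [101,112] 2 6 (.node [101] 6 5 .stop
 (.lc 0 8 .stop))
 (.node [101,112,70] 0 4 (.node [] 7 0 (.node [] 5 4 (.node [70,88] 4 6 (.node [101] 6 5 (.lc 0 4 .stop)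
 (.lc 0 9 .stop))
 (.conf [70,132] .stop))
 .stop)
 .stop)
 (.conf [120,132] (.node [101,112,134] 7 0 (.node [] 6 5 (.node [84,105] 8 6 (.far [16,257,257,256,16,1] 0 (.lc 1 5 (.lc 1 5 (.lc 1 5 (.lc 1 5 (.node [73] 5 4 (.lc 1 2 .stop)
 (.node [138,169] 9 5 (.far [1,1,4096,4112,4096,4096,0,16,256] 0 (.lc 3 11 (.lc 3 5 (.node [66,180] 10 9 (.lc 1 5 (.node [155,172] 9 11 (.node [180] 8 10 (.node [141,172] 0 8 .stop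
 (.lc 2 8 (.conf [172,218] (.lc 2 8 (.lc 3 8 .stop)))))
 (.lc 2 4 (.lc 0 13 (.lc 2 4 (.lc 3 4 .stop)))))
 (.conf [172,203] (.lc 2 5 (.lc 3 13 (.lc 2 5 (.conf [155,201] (.lc 1 4 (.lc 3 12 (.lc 2 5 (.lc 3 13 (.lc 2 4 (.lc 3 5 (.lc 4 14 (.lc 4 13 (.lc 4 13 (.lc 4 13 (.lc 5 14 .stop))))))))))))))))))
 (.lc 3 11 (.lc 4 12 .stop))))))
 (.lc 2 5 (.lc 2 5 (.lc 2 5 .stop))))))))))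
 (.lc 2 3 (.lc 3 5 (.conf [84,149] (.lc 2 3 (.lc 2 3 (.lc 3 5 (.lc 3 3 (.lc 4 5 (.lc 3 3 (.lc 3 3 (.lc 3 3 (.lc 4 3 .stop)))))))))))))
 .stop)
 (.conf [72,116] (.conf [121,152] (.lc 3 1 (.lc 3 1 (.lc 3 1 (.conf [64,116] (.conf [120,128] (.conf [70,101] (.conf [70,101] (.conf [101,134] (.conf [72,116] (.conf [101,134] (.node [101,116] 7 4 (.node [64] 4 0 (.far [4112,1,256] 0 .stop)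
 (.node [24,64,132] 4 0 .stop
 .stop))
 (.node [101,120] 0 6 (.node [101] 2 6 .stop
 (.lc 1 6 .stop))
 (.node [70,112] 0 4 (.lc 1 6 .stop)
 (.lc 1 6 (.node [70,120] 5 4 .stop
 (.node [101,112,134] 7 0 (.node [] 6 5 (.node [84,105] 8 6 (.far [16,257,257,257,16,258] 0 (.lc 3 4 (.lc 3 10 (.lc 1 5 (.lc 1 5 (.lc 3 4 (.lc 3 10 (.lc 4 10 (.lc 4 4 (.lc 4 11 .stop))))))))))
 (.lc 2 3 (.lc 3 5 (.conf [84,149] (.lc 2 3 (.lc 2 3 (.lc 3 5 (.lc 3 3 (.lc 4 5 (.lc 3 3 (.lc 3 3 (.lc 3 3 (.lc 4 3 .stop)))))))))))))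
 .stop)
 (.node [101,116,134] 7 4 (.node [72] 5 4 (.lc 1 2 (.lc 2 2 (.lc 2 2 .stop)))
 (.node [72] 5 4 (.lc 1 2 (.lc 2 2 .stop))
 (.node [25,72,148] 5 4 (.lc 1 2 (.lc 2 2 (.lc 2 2 .stop)))
 .stop)))
 (.node [101,121,134] 7 9 (.node [] 6 5 (.node [84,96] 0 5 (.far [1,1,0,0,4112,1,272,256] 0 (.node [66,164] 6 0 (.lc 0 10 .stop)
 .stop))
 (.node [84,106] 8 6 (.far [16,257,257,257,16,258] 0 (.lc 3 0 (.lc 3 4 (.lc 3 11 (.lc 1 5 (.lc 1 5 (.lc 1 5 (.lc 3 0 (.lc 3 4 (.lc 3 11 (.lc 4 4 (.lc 4 11 (.lc 4 0 (.lc 4 11 (.lc 4 0 (.lc 4 4 (.lc 4 12 .stop)))))))))))))))))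
 (.lc 2 3 (.lc 2 3 (.lc 3 5 (.lc 3 5 (.conf [106,160] (.conf [84,165] (.conf [84,165] (.lc 2 3 (.lc 2 3 (.lc 2 3 (.lc 3 5 (.lc 3 5 (.lc 3 3 (.lc 3 3 (.lc 3 3 (.lc 4 5 (.lc 4 5 (.lc 4 5 (.lc 3 3 (.lc 3 3 (.lc 3 3 (.lc 3 3 (.lc 3 3 (.lc 3 3 (.lc 4 3 (.lc 4 3 (.lc 4 3 .stop)))))))))))))))))))))))))))))
 (.lc 2 8 (.lc 2 8 (.lc 2 8 (.node [] 6 5 (.node [84,106] 8 6 (.node [138] 10 5 (.far [1,0,1,0,0,4112,1,272,256] 0 (.lc 3 9 (.lc 3 11 (.node [66,180] 8 10 (.lc 1 5 (.node [140,171] 10 11 (.far [4112,1,4112,256,256] 0 (.lc 2 4 (.lc 2 4 (.lc 0 13 (.lc 2 4 (.lc 3 4 .stop))))))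
 (.lc 2 5 (.lc 3 6 (.lc 3 6 (.lc 2 5 (.conf [171,202] (.lc 2 5 (.lc 3 6 (.lc 3 6 (.lc 3 6 (.lc 3 5 (.lc 4 6 (.lc 4 6 (.lc 4 6 (.lc 4 6 (.lc 4 6 (.lc 5 6 .stop))))))))))))))))))
 (.lc 3 11 (.lc 4 12 .stop))))))
 (.lc 3 4 (.lc 3 11 (.lc 1 5 (.lc 1 5 (.lc 3 4 (.lc 3 11 (.lc 4 11 (.lc 4 4 (.lc 4 12 .stop))))))))))
 (.lc 2 3 (.lc 3 5 (.conf [84,165] (.lc 2 3 (.lc 2 3 (.lc 3 5 (.lc 3 3 (.lc 4 5 (.lc 3 3 (.lc 3 3 (.lc 3 3 (.lc 4 3 .stop)))))))))))))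
 (.node [73] 1 4 .stop
 (.node [26,169] 1 10 (.node [169] 6 5 (.node [84,96] 0 5 .stop
 (.node [84,107] 8 6 (.node [139] 11 5 (.far [1,0,1,0,0,0,4112,1,272,256] 0 (.lc 3 0 (.lc 3 9 (.lc 3 12 (.node [66,196] 8 11 (.node [128,188] 0 11 .stop
 (.lc 1 5 (.node [141,188] 11 12 (.far [4112,1,4112,256,256] 0 (.lc 2 4 (.lc 2 4 (.lc 2 4 (.lc 0 14 (.lc 2 4 (.lc 3 4 .stop)))))))
 (.lc 2 5 (.lc 3 6 (.lc 3 6 (.lc 2 5 (.conf [188,219] (.lc 2 5 (.lc 2 5 (.lc 3 6 (.lc 3 6 (.lc 3 6 (.lc 3 6 (.lc 3 5 (.lc 4 6 (.lc 4 6 (.lc 4 6 (.lc 4 6 (.lc 4 6 (.lc 4 6 (.lc 5 6 .stop))))))))))))))))))))))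
 (.lc 3 12 (.lc 4 13 .stop)))))))
 (.lc 3 0 (.lc 3 4 (.lc 3 12 (.lc 1 5 (.lc 1 5 (.lc 3 4 (.lc 3 12 (.lc 4 12 (.lc 4 4 (.lc 4 13 .stop)))))))))))
 (.lc 2 3 (.lc 3 5 (.conf [84,181] (.lc 2 3 (.lc 2 3 (.lc 2 3 (.lc 3 5 (.lc 3 5 (.lc 3 3 (.lc 4 5 (.lc 3 3 (.lc 3 3 (.lc 3 3 (.lc 3 3 (.lc 4 3 .stop)))))))))))))))))
 (.lc 2 9 (.lc 2 9 (.lc 2 9 (.conf [74,169] (.node [169,186,169] 6 5 (.lc 0 10 (.node [84,108] 8 6 (.node [140] 10 9 (.lc 2 4 (.lc 1 7 (.lc 2 12 (.lc 2 13 (.lc 2 8 (.lc 2 8 (.lc 2 8 (.lc 2 8 (.lc 2 8 (.conf [73,152] (.conf [152,217] (.lc 3 13 (.lc 1 6 (.lc 3 4 (.lc 3 14 (.lc 1 9 (.lc 2 8 (.lc 2 8 (.lc 2 8 (.lc 2 8 (.lc 2 8 (.lc 2 8 (.lc 2 8 (.lc 2 8 (.lc 0 4 (.lc 2 7 (.lc 0 12 (.lc 0 13 (.lc 3 8 (.lc 3 8 (.lc 3 8 (.lc 3 8 (.lc 0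 13 (.lc 2 6 (.lc 0 4 (.lc 0 14 (.lc 3 8 (.lc 3 8 (.lc 3 8 (.lc 3 8 (.lc 3 8 (.lc 2 9 (.lc 3 8 (.lc 3 8 (.lc 3 8 (.lc 3 8 (.lc 3 8 (.lc 3 8 (.lc 3 8 (.lc 3 8 (.lc 4 8 (.lc 4 8 (.lc 4 8 (.lc 4 8 .stop))))))))))))))))))))))))))))))))))))))))))))))))))))))
 (.lc 3 4 (.lc 3 11 (.lc 3 13 (.lc 1 5 (.lc 1 5 (.lc 3 4 (.lc 3 13 (.lc 4 13 (.lc 4 4 (.lc 4 14 .stop)))))))))))
 (.lc 2 3 (.lc 3 5 (.conf [84,197] (.lc 2 3 (.lc 2 3 (.lc 2 3 (.lc 3 5 (.lc 3 5 (.lc 3 3 (.lc 4 5 (.lc 3 3 (.lc 3 3 (.lc 3 3 (.lc 3 3 (.lc 4 3 .stop)))))))))))))))))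
 (.lc 2 9 (.lc 2 9 (.lc 3 9 (.lc 3 9 (.lc 3 9 .stop)))))))))))
 (.lc 2 8 (.lc 2 8 (.lc 2 8 (.lc 3 8 (.lc 3 8 (.lc 3 8 (.lc 3 8 (.lc 3 8 .stop)))))))))))))))
 (.lc 3 1 (.lc 3 1 (.lc 3 1 (.lc 3 1 (.lc 3 1 (.lc 3 1 (.conf [120,132] (.conf [72,116] (.conf [121,152] (.conf [120,128] (.lc 2 6 (.node [70,112,132] 7 0 (.node [] 5 4 .stop
 .stop)
 (.conf [121,152] (.conf [64,116] (.conf [121,144] (.node [72,101,112] 0 4 (.lc 1 8 .stop)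
 (.conf [121,148] (.node [101,112,134,152] 7 0 (.node [] 6 5 (.node [84,106] 8 6 (.far [16,257,257,272,16,4096] 0 (.lc 3 4 (.lc 3 11 (.lc 1 5 (.lc 1 5 (.lc 3 4 (.lc 3 11 (.lc 4 11 (.lc 4 4 (.lc 4 12 .stop))))))))))
 (.lc 2 3 (.lc 3 5 (.conf [84,165] (.lc 2 3 (.lc 2 3 (.lc 3 5 (.lc 3 3 (.lc 4 5 (.lc 3 3 (.lc 3 3 (.lc 3 3 (.lc 4 3 .stop)))))))))))))
 .stop)
 (.conf [73,116] (.conf [122,169] (.lc 4 1 (.lc 4 1 (.lc 4 1 (.lc 4 1 (.lc 4 1 (.lc 4 1 (.lc 4 1 (.lc 4 1 (.lc 4 1 (.lc 4 1 (.lc 4 1 (.lc 4 1 (.lc 4 1 (.lc 4 1 (.lc 4 1 (.lc 4 1 (.lc 4 1 (.lc 4 1 (.lc 4 1 (.lc 4 1 (.lc 5 1 (.lc 5 1 (.lc 5 1 (.lc 5 1 (.lc 5 1 (.lc 5 1 (.lc 5 1 .stop))))))))))))))))))))))))))))))))))))))))))))))))))))))))))))))))))))))))))))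
 (.lc 0 0 (.lc 2 6 (.lc 0 0 (.conf [118,135] (.lc 0 0 (.lc 2 6 (.lc 0 0 (.lc 3 6 .stop)))))))))
 (.conf [84,118,55] (.lc 0 0 (.conf [84,112,55] (.node [84,101,118,66,48] 3 0 (.node [16] 6 5 (.far [16,257,256,1,4096] 0 (.lc 3 8 (.far [16,257,256,1,4096] 0 (.lc 3 8 (.lc 4 9 .stop)))))
 .stop)
 (.node [49,84,101,118,66] 6 5 (.far [16,256,1,4096] 0 (.lc 3 0 (.lc 3 8 (.far [16,256,1,4096] 0 (.far [16,256,1,4096] 0 (.lc 3 0 (.lc 3 8 (.lc 4 8 (.lc 4 0 (.lc 4 9 .stop))))))))))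
 (.conf [56,84,101,118,135] (.node [55,84,118,66,96] 0 5 .stop
 (.conf [55,84,101] (.conf [48,84,101] (.conf [56,84,101] (.conf [55,84] (.conf [55,84] (.conf [48,84] (.conf [56,84] (.conf [55,84] (.conf [55,84] (.conf [48,84] (.conf [56,84] (.conf [55,84] (.conf [55,84] (.conf [48,84] (.conf [56,84] (.conf [56,84] (.conf [56,84] (.conf [56,84] (.conf [48,84] (.conf [57,84] .stop))))))))))))))))))))))))))))))))))))))))))))))))))))))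

theorem t14 : kNode2 awTt FTt 3 5 (check tyTt awTt triet FTt [s15] c14) (fun _ _ _ => true) 0 s14 Pl.nil s14 =
    true := by
  decide +kernel

end Chk
end Pool.Agent.Lib.MP_ba95e8_co
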