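import Pool.Agent.Lib.MP_ba95e8_co.ChkTab
import Pool.Agent.Lib.MP_ba95e8_co.ChkStates

/-!
Deltahedral domes: part 15 of the case analysis.
-/

namespace Pool.Agent.Lib.MP_ba95e8_co
namespace Chk

/-- certificate number 15 -/
def c15 : Cert := (.node [48,103] 3 0 (.lc 0 0 .stop)
 (.node [49,103] 4 2 (.far [1,4112,0,0,4112,4096,257] 4096 (.lc 2 2 (.node [32] 8 2 (.far [1,1,4112,0,0,4112,4096,257] 4096 (.node [112,135,112] 8 7 .stop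
 (.node [137,144] 4 8 (.node [22,65,137,144] 1 8 .stop
 (.lc 2 2 (.node [74,137,144] 7 4 (.node [122] 10 8 (.far [1,1,4096,4096,0,4112,1,4096,4096,0,257] 4096 (.lc 3 1 (.lc 3 11 (.node [144,185] 10 11 (.node [22,161,185] 10 1 (.lc 1 1 .stop)
 (.far [4112,4112,256,256] 0 (.node [172,185] 7 10 (.far [1,4112,4112,256,256] 0 (.lc 1 11 (.lc 1 11 (.lc 2 11 .stop))))
 (.lc 2 9 (.lc 2 9 (.lc 2 9 (.lc 2 9 (.conf [185,203] (.conf [185,203] (.lc 2 9 (.lc 2 9 (.lc 2 9 (.lc 2 9 (.lc 2 9 (.lc 0 4 (.lc 2 9 (.far [4112,4112,16,256,0,0,0,256,256] 0 (.lc 3 9 (.lc 3 9 (.conf [27,97] (.lc 3 9 (.lc 1 1 (.lc 3 9 (.lc 0 4 (.lc 3 9 (.lc 4 9 .stop))))))))))))))))))))))))))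
 (.lc 3 11 (.lc 4 12 .stop))))))
 (.lc 3 1 (.lc 3 9 (.lc 3 11 (.far [16,257,0,257,0,16,256,16,4096] 0 (.far [16,257,0,257,0,16,256,16,4096] 0 (.lc 3 9 (.lc 3 11 (.lc 4 11 (.lc 4 9 (.lc 4 12 .stop)))))))))))
 (.lc 3 2 (.conf [130,169,74] (.lc 3 2 (.lc 3 2 (.conf [137,168] (.conf [130,144] (.lc 3 2 (.conf [130,144] (.lc 3 2 (.lc 3 2 (.lc 3 2 (.lc 4 2 (.conf [130,144] (.lc 4 2 (.lc 4 2 (.lc 4 2 (.lc 4 2 (.lc 4 2 (.lc 5 2 .stop))))))))))))))))))))))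
 (.node [144,137] 7 4 (.node [22,72,113] 1 4 .stop
 (.lc 2 4 (.node [66,137] 7 8 (.node [22,113,137,144] 1 8 .stop
 (.lc 2 4 (.far [1,256,4112,256] 0 (.node [122,137,144] 8 9 (.far [4112,1,256,4112,256] 0 (.lc 2 0 (.lc 2 0 (.lc 0 11 (.lc 2 0 (.lc 3 0 .stop))))))
 (.lc 2 2 (.lc 0 1 (.lc 3 4 (.lc 3 4 (.lc 3 4 (.conf [122,144,169] (.conf [137,168] (.lc 2 2 (.lc 3 4 (.lc 2 2 (.lc 3 4 (.lc 3 4 (.lc 4 4 (.lc 3 2 (.lc 4 4 (.lc 4 4 (.lc 4 4 (.lc 4 4 (.lc 0 1 (.lc 4 4 (.lc 5 4 .stop)))))))))))))))))))))))))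
 (.node [72,144,148,137] 9 4 (.lc 0 2 .stop)
 (.node [72,122] 4 8 (.node [137] 6 7 (.lc 2 1 (.node [144,151,137] 9 7 .stop
 (.lc 1 4 (.node [107,122] 7 10 (.node [] 6 11 (.node [27] 10 8 (.far [1,0,0,0,1,0,4112,256] 0 (.node [137,184,144] 11 8 .stop
 (.node [137,172,144] 8 9 (.far [4112,1,0,0,0,1,0,4112,256] 0 (.lc 2 0 (.lc 0 13 (.lc 2 0 (.lc 3 0 .stop)))))
 (.conf [130,144,201] (.conf [130,164] (.conf [137,200] (.conf [144,172,201] (.conf [137,200] (.conf [130,144] (.conf [130,144] (.far [4096,0,1,0,257,256,4112,256] 0 (.node [137,164,177,144,137] 1 8 .stop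
 (.conf [130,144] (.conf [130,144] (.conf [130,144] .stop)))))))))))))))
 (.conf [11,186] (.node [25,144,186,137,97,155] 9 11 (.lc 3 0 .stop)
 (.node [28,186,203,97] 11 10 (.node [202] 12 10 (.node [137,144] 12 8 (.far [1,256,0,0,0,0,1,0,4112,256] 0 (.lc 1 0 .stop))
 (.lc 3 9 (.conf [130,144] (.lc 3 9 (.lc 3 13 (.lc 4 13 .stop))))))
 (.lc 2 4 (.far [4112,4096,256,16,0,0,0,0,1,4112,0,256] 0 (.lc 3 4 .stop))))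
 (.far [4112,0,4112,0,0,0,0,1,4112,0,256] 0 (.far [257,0,257,0,0,0,0,16,257,0,4096] 0 (.conf [1,155] (.node [29,186,203,220,97] 11 10 (.far [257,256,4096,1,0,0,0,0,16,257,0,4096] 0 (.lc 2 4 (.lc 0 14 (.lc 3 4 .stop))))
 .stop))))))))
 (.conf [168,177,116] (.conf [168,185,116] (.conf [168,188,202] (.far [4112,1,0,4112,0,0,0,256,256] 0 (.far [257,16,0,257,0,0,0,4096,4096] 0 (.conf [168,189,116] .stop)))))))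
 (.lc 3 1 (.conf [116,168,186] (.lc 2 4 (.conf [27,97] (.lc 3 1 (.lc 2 4 (.lc 3 1 (.node [108,183,203,108,122] 7 10 (.far [257,16,0,257,0,0,0,4096,4096] 0 (.lc 2 8 (.lc 2 8 (.lc 2 8 (.lc 0 13 (.lc 2 8 (.lc 3 8 .stop)))))))
 (.lc 3 1 (.node [116,144,168,137,105] 6 9 (.lc 2 10 .stop)
 (.node [116,168,186,137] 10 8 (.node [137,144] 6 11 (.far [257,0,257,0,0,0,0,16,257,0,4096] 0 (.lc 2 8 (.lc 2 8 (.lc 2 8 (.node [28,203] 11 8 (.far [1,0,1,0,1,0,4112,256] 0 (.lc 1 0 (.lc 1 0 (.lc 1 0 (.lc 3 6 (.lc 2 0 .stop))))))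
 (.lc 2 8 (.lc 3 8 (.lc 3 8 .stop))))))))
 (.lc 2 2 (.conf [144,185] (.conf [137,200] (.lc 2 2 (.lc 3 2 .stop))))))
 (.conf [26,97] (.conf [16,97] (.conf [25,97] (.lc 2 4 (.conf [27,97] (.lc 4 1 (.conf [116,203,108] (.conf [16,97] (.lc 3 4 (.conf [28,97] (.conf [27,97] (.conf [16,97] (.conf [25,97] (.conf [27,97] (.conf [27,97] (.conf [16,97] (.conf [28,97] .stop))))))))))))))))))))))))))))))))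
 (.lc 2 9 (.lc 2 9 (.lc 2 2 (.far [4112,1,0,4112,0,1,4096,1,256] 0 (.lc 2 9 (.lc 3 9 .stop)))))))
 (.lc 2 2 (.lc 2 2 (.lc 3 1 (.lc 3 10 (.lc 3 0 (.lc 3 1 (.lc 3 9 (.lc 3 11 (.lc 3 4 (.lc 1 9 (.node [72,164,186,72,137,144] 4 8 (.far [257,16,0,257,0,16,256,16,4096] 0 (.lc 2 9 (.lc 2 9 (.lc 2 2 (.lc 0 12 (.lc 2 9 (.lc 3 9 .stop)))))))
 (.lc 2 2 (.lc 2 2 (.lc 2 2 (.lc 2 2 (.lc 2 2 (.lc 2 2 (.lc 3 1 (.lc 3 10 (.lc 3 9 (.lc 3 10 (.lc 3 10 (.lc 3 11 (.lc 3 2 (.lc 3 2 (.lc 4 11 (.lc 4 1 (.lc 4 12 (.lc 3 2 (.lc 3 2 (.lc 3 2 (.lc 3 2 (.lc 3 2 (.lc 3 2 (.lc 4 2 .stop))))))))))))))))))))))))))))))))))))))))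
 (.far [1,1,4112,0,0,4112,4096,257] 4096 (.node [138,169,144] 4 8 (.node [22,65,138,169,144] 1 8 .stop
 (.lc 2 2 (.node [75,138,169,144] 8 10 (.far [4112,1,4096,257,4112,0,0,4112,4096,257] 4096 (.lc 2 9 (.lc 2 9 (.lc 2 9 (.lc 0 12 (.lc 2 9 (.lc 3 9 .stop)))))))
 (.lc 3 2 (.conf [130,169] (.lc 3 2 (.lc 3 2 (.conf [138,184] (.node [22,130,169,144,65] 4 1 .stop
 (.lc 3 2 (.node [130,169,144,75] 10 9 (.conf [144,185] (.lc 2 0 (.lc 2 0 (.lc 2 0 (.lc 0 12 (.lc 2 0 (.lc 3 0 .stop)))))))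
 (.lc 3 2 (.lc 3 2 (.lc 3 2 (.lc 4 2 (.conf [130,203,76] (.lc 4 2 (.lc 4 2 (.lc 4 2 (.lc 4 2 (.lc 4 2 (.lc 5 2 .stop))))))))))))))))))))))
 .stop))))))
 (.lc 3 2 (.node [128] 7 4 (.node [22,72,113,128] 1 4 .stop
 (.lc 2 4 (.far [1,4096,4112,1,4096,4096,0,257] 4096 (.node [72,121,128] 4 8 (.far [4112,1,4096,4112,1,4096,4096,0,257] 4096 (.lc 2 0 (.lc 2 0 (.lc 0 10 (.lc 2 0 (.lc 3 0 .stop))))))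
 (.lc 2 2 (.lc 3 1 (.lc 3 9 (.lc 3 1 (.lc 3 10 (.lc 3 4 (.conf [121,128,152] (.conf [72,148] (.lc 2 2 (.lc 2 2 (.lc 2 2 (.lc 2 2 (.lc 2 2 (.lc 3 9 (.lc 3 9 (.lc 3 10 (.lc 3 2 (.lc 3 2 (.lc 4 10 (.lc 4 11 (.lc 3 2 (.lc 3 2 (.lc 3 2 (.lc 3 2 (.lc 3 2 (.lc 4 2 .stop))))))))))))))))))))))))))))))
 (.lc 3 8 (.lc 3 9 (.lc 3 2 (.node [128] 7 4 (.node [22,72,113,128] 1 4 .stop
 (.lc 2 4 (.far [1,4112,0,1,4096,1,256] 0 (.node [72,121,128] 4 8 (.far [4112,1,4112,0,1,4096,1,256] 0 (.lc 2 0 (.lc 2 0 (.lc 0 10 (.lc 2 0 (.lc 3 0 .stop))))))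
 (.lc 2 2 (.lc 3 1 (.lc 3 9 (.lc 3 1 (.lc 3 10 (.lc 3 4 (.conf [121,128,152] (.conf [72,148] (.lc 2 2 (.lc 2 2 (.lc 2 2 (.lc 2 2 (.lc 2 2 (.lc 3 9 (.lc 3 9 (.lc 3 10 (.lc 3 2 (.lc 3 2 (.lc 4 10 (.lc 4 11 (.lc 3 2 (.lc 3 2 (.lc 3 2 (.lc 3 2 (.lc 3 2 (.lc 4 2 .stop))))))))))))))))))))))))))))))
 (.lc 3 2 (.node [32,130,152] 8 2 (.node [128] 7 4 (.node [73,112] 0 4 .stop
 (.node [22,73,113] 1 4 (.lc 1 8 .stop)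
 (.lc 2 4 (.far [1,0,4112,0,1,4096,1,256] 0 (.node [73,122] 4 9 (.far [4112,1,0,4112,0,1,4096,1,256] 0 (.lc 2 8 (.lc 2 8 (.lc 2 8 (.lc 0 11 (.lc 2 8 (.lc 3 8 (.lc 3 8 .stop))))))))
 (.lc 2 2 (.lc 3 1 (.lc 3 0 (.lc 3 1 (.lc 3 10 (.lc 3 0 (.lc 3 1 (.lc 3 11 (.node [22,73,113] 0 4 .stop
 (.lc 3 4 (.lc 1 8 (.conf [73,164] (.lc 2 2 (.lc 2 2 (.lc 2 2 (.lc 2 2 (.lc 2 2 (.lc 2 2 (.lc 2 2 (.lc 3 1 (.lc 3 10 (.lc 3 10 (.lc 3 10 (.lc 3 11 (.lc 3 2 (.lc 3 2 (.lc 3 2 (.lc 4 10 (.lc 4 1 (.lc 4 11 (.lc 4 1 (.lc 4 12 (.lc 3 2 (.lc 3 2 (.lc 3 2 (.lc 3 2 (.lc 3 2 (.lc 3 2 (.lc 3 2 (.lc 3 2 (.lc 3 2 (.lc 3 2 (.lc 4 2 (.lc 4 2 (.lc 4 2 .stop))))))))))))))))))))))))))))))))))))))))))))))))))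
 (.lc 3 7 (.lc 3 10 (.node [138,160,138,152] 4 9 (.node [22,65,152] 4 1 .stop
 (.lc 2 2 (.lc 0 0 (.node [75,152] 7 4 (.far [1,4112,0,4112,0,1,4096,1,256] 0 (.lc 3 1 (.lc 3 10 (.lc 3 12 (.lc 1 9 (.lc 3 12 (.lc 4 13 .stop)))))))
 (.lc 2 8 (.lc 3 2 (.lc 2 8 (.lc 3 2 (.lc 2 8 (.lc 3 2 (.lc 2 8 (.lc 3 2 (.lc 3 2 (.conf [76,203] (.lc 2 8 (.lc 2 8 (.lc 2 8 (.lc 3 2 (.lc 2 8 (.lc 2 8 (.lc 3 2 (.lc 3 2 (.lc 3 2 (.lc 3 2 (.lc 3 2 (.lc 3 2 (.lc 3 2 (.lc 1 1 (.lc 4 2 (.lc 3 8 (.lc 4 2 (.lc 4 2 (.lc 4 2 (.lc 4 2 (.lc 4 2 (.lc 4 2 (.lc 4 2 (.lc 4 2 (.lc 4 2 (.lc 4 2 (.lc 4 2 (.lc 2 1 (.lc 5 2 .stop)))))))))))))))))))))))))))))))))))))))))))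
 (.lc 3 10 (.lc 4 11 .stop))))))
 (.lc 3 2 (.node [] 7 4 (.node [22,72,113] 1 4 .stop
 (.lc 2 4 (.far [16,257,0,16,256,16,4096] 17 (.node [72,121] 4 8 (.far [257,16,257,0,16,256,16,4096] 17 (.conf [128,145,66] (.conf [128,154,66] (.node [154,168,66] 7 9 (.node [22,113,154,168] 1 9 .stop
 (.lc 2 4 (.node [123,154,168] 9 10 (.far [4112,1,4112,258,4112,257,0,2,257,258,4097] 4096 (.lc 2 8 (.lc 2 8 (.lc 0 12 (.lc 2 8 (.lc 3 8 .stop))))))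
 (.conf [148,168] (.lc 0 1 (.lc 3 4 (.lc 3 4 (.conf [154,185] (.node [22,148,168,128,113] 7 1 (.lc 0 1 .stop)
 (.lc 3 4 (.node [148,168,128,123] 10 8 (.node [128] 7 11 (.far [257,0,257,0,257,0,0,4096,4096] 0 (.lc 2 8 (.conf [27,97] (.lc 0 1 (.lc 2 8 (.lc 3 8 .stop))))))
 (.lc 2 0 (.lc 2 0 (.lc 0 12 (.lc 2 0 (.lc 3 0 .stop))))))
 (.lc 3 4 (.lc 3 4 (.lc 4 4 (.conf [148,203,124] (.lc 4 4 (.lc 4 4 (.lc 4 4 (.lc 0 1 (.lc 4 4 (.lc 5 4 .stop)))))))))))))))))))))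
 (.far [257,16,257,0,16,256,16,4096] 17 (.conf [128,155,66] .stop))))))
 (.lc 2 2 (.lc 3 1 (.lc 3 9 (.lc 3 1 (.lc 3 10 (.lc 3 4 (.far [16,257,0,16,256,16,4096] 17 (.node [72,148,169,72] 9 4 (.far [16,16,257,0,16,256,16,4096] 17 (.lc 1 0 (.lc 1 0 (.lc 1 0 (.lc 3 11 (.lc 2 0 .stop))))))
 (.lc 2 2 (.lc 2 2 (.lc 2 2 (.lc 2 2 (.lc 2 2 (.lc 3 9 (.lc 3 9 (.lc 3 10 (.lc 3 2 (.lc 3 2 (.lc 4 10 (.lc 4 11 (.lc 3 2 (.lc 3 2 (.lc 3 2 (.lc 3 2 (.lc 3 2 (.lc 4 2 .stop))))))))))))))))))))))))))))))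
 (.lc 3 8 (.lc 3 8 (.lc 3 9 (.lc 4 2 (.node [128,152] 7 4 (.node [22,73,113,152,128] 1 4 .stop
 (.lc 2 4 (.node [66,152,128] 7 9 (.node [22,113,152] 1 9 .stop
 (.lc 2 4 (.node [122,152] 9 8 (.far [4112,1,257,16,0,1,4096,1,256] 0 (.lc 2 0 (.lc 2 0 (.lc 0 11 (.lc 2 0 (.lc 3 0 .stop))))))
 (.lc 2 4 (.lc 0 1 (.lc 3 4 (.lc 3 4 (.conf [152,169] (.lc 1 0 (.lc 3 4 (.lc 1 0 (.lc 3 4 (.lc 3 4 (.lc 4 4 (.lc 2 0 (.lc 4 4 (.lc 4 4 (.lc 4 4 (.lc 0 1 (.lc 4 4 (.lc 5 4 .stop)))))))))))))))))))))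
 (.node [73,122,152,128] 4 9 (.node [152] 9 8 (.node [22,128,145] 9 1 .stop
 (.node [128,155] 10 9 (.far [1,4112,4096,1,16,0,1,4096,1,256] 0 (.lc 3 1 (.lc 3 12 (.lc 1 8 (.lc 3 12 (.lc 4 13 .stop))))))
 (.conf [128,155] (.conf [128,156] (.conf [128,148] (.conf [128,184] (.conf [128,150] (.conf [128,145] (.conf [128,156] (.node [22,128,148,161] 1 8 (.far [1,4096,1,0,256] 17 .stop)
 (.lc 0 4 (.node [128,148,171] 11 8 (.far [1,4096,1,0,256] 17 (.lc 3 1 (.node [22,177] 1 6 (.far [257,4112,256,256,16,0,1,16,256,256] 4097 (.lc 2 1 (.lc 0 12 .stop)))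
 (.lc 3 1 (.lc 3 12 (.lc 4 12 .stop))))))
 (.lc 0 1 (.lc 0 11 (.conf [128,157] (.lc 0 12 (.lc 0 11 (.lc 0 12 (.lc 0 6 (.lc 0 1 (.lc 0 12 (.conf [148,172,203] (.lc 0 13 .stop)))))))))))))))))))))))
 (.lc 2 8 (.lc 2 8 (.lc 0 11 (.lc 2 8 (.lc 3 8 .stop))))))
 (.lc 2 2 (.lc 3 1 (.lc 3 10 (.lc 3 1 (.lc 3 11 (.lc 3 4 (.conf [122,152,169] (.conf [73,164] (.lc 2 2 (.lc 2 2 (.lc 2 2 (.lc 2 2 (.lc 2 2 (.lc 3 10 (.lc 3 10 (.lc 3 11 (.lc 3 2 (.lc 3 2 (.lc 4 11 (.lc 4 12 (.lc 3 2 (.lc 3 2 (.lc 3 2 (.lc 3 2 (.lc 3 2 (.lc 4 2 .stop))))))))))))))))))))))))))))))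
 (.lc 4 9 (.lc 4 10 (.lc 4 9 (.lc 4 9 (.lc 4 9 (.lc 5 10 .stop))))))))))))))))))))))))
 (.lc 1 3 (.node [56,103] 3 8 (.node [] 4 2 (.far [1,4112,4112,0,0,4112,4096,257] 4096 (.lc 2 2 (.node [130,134] 8 2 .stop
 (.node [32] 9 2 (.far [1,1,4112,4112,0,0,4112,4096,257] 4096 (.node [112,151,112] 9 7 .stop
 (.node [128,134,152,128] 9 8 (.far [16,4096,0,4112,4096,0,0,0,0,257] 4096 (.conf [99,128] .stop))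
 (.node [154,160] 4 9 (.node [65,154,160] 1 9 .stop
 (.lc 2 2 (.node [72,134,154,160] 8 9 (.far [4112,16,0,4112,1,257,0,0,257,256] 0 .stop)
 (.node [75,154,160] 7 4 (.node [123] 11 9 (.far [1,1,4096,4096,0,4112,4112,1,4096,4096,0,257] 4096 (.lc 3 1 (.lc 3 8 (.lc 3 12 (.node [160,202] 11 12 (.node [177,202] 11 1 .stop
 (.far [4112,4112,256,256] 0 (.node [134,184,202] 11 8 (.far [4112,4112,4112,256,256] 0 .stop)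
 (.node [189,202] 7 11 (.far [1,4112,4112,256,256] 0 (.lc 1 12 (.lc 1 12 (.lc 2 12 .stop))))
 (.lc 2 10 (.lc 2 10 (.lc 2 10 (.lc 2 10 (.lc 2 10 (.lc 2 10 (.conf [202,220] (.conf [134,184] (.conf [202,220] (.lc 2 10 (.lc 2 10 (.lc 2 10 (.lc 2 10 (.lc 2 10 (.lc 2 10 (.lc 2 10 (.lc 0 4 (.lc 2 10 (.lc 2 10 (.far [4112,4112,16,256,0,0,0,0,256,256] 0 (.lc 3 10 (.lc 3 10 (.lc 3 10 (.lc 3 10 (.conf [140,202] (.lc 3 10 (.lc 1 3 (.lc 3 10 (.lc 3 10 (.lc 0 4 (.lc 3 10 (.lc 4 10 .stop))))))))))))))))))))))))))))))))))))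
 (.lc 3 12 (.lc 4 8 (.lc 4 13 .stop))))))))
 (.lc 3 1 (.lc 3 8 (.lc 3 10 (.lc 3 12 (.far [16,257,0,257,0,0,16,256,16,4096] 0 (.far [16,257,0,257,0,0,16,256,16,4096] 0 (.lc 3 10 (.lc 3 12 (.lc 4 8 (.lc 4 12 (.lc 4 10 (.lc 4 13 .stop)))))))))))))
 (.lc 3 2 (.conf [146,186,75] (.lc 3 2 (.far [16,0,4112,1,257,0,0,257,256] 0 (.lc 3 2 (.conf [154,185] (.conf [146,160] (.lc 3 2 (.conf [146,160] (.conf [146,160] (.lc 3 2 (.lc 3 2 (.lc 3 2 (.lc 3 2 (.conf [146,160] (.lc 4 2 (.conf [146,160] (.lc 4 2 (.lc 4 2 (.lc 4 2 (.lc 4 2 (.lc 4 2 (.lc 4 2 (.lc 4 2 (.lc 5 2 (.lc 5 2 .stop))))))))))))))))))))))))))))))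
 (.node [160,154] 7 4 (.node [73,113] 1 4 .stop
 (.lc 2 4 (.node [73,120,134] 8 4 (.lc 1 10 .stop)
 (.node [66,154] 7 9 (.node [113,154,160] 1 9 .stop
 (.lc 2 4 (.node [120,134,154,160] 8 9 (.lc 1 0 .stop)
 (.far [1,256,4112,256] 0 (.node [123,154,160] 9 10 (.far [4112,1,256,4112,256] 0 (.lc 2 0 (.lc 2 0 (.lc 2 0 (.lc 0 12 (.lc 2 0 (.lc 3 0 (.lc 3 0 .stop))))))))
 (.lc 2 2 (.lc 0 3 (.lc 3 4 (.lc 3 4 (.far [16,4112,0,0,1,257,16,256,256] 0 (.lc 3 4 (.conf [123,160,186] (.conf [154,185] (.lc 2 2 (.lc 3 4 (.lc 2 2 (.lc 2 2 (.lc 3 4 (.lc 3 4 (.lc 3 2 (.lc 4 4 (.lc 3 2 (.lc 4 4 (.lc 4 4 (.lc 4 4 (.lc 4 4 (.lc 0 3 (.lc 4 4 (.lc 5 4 .stop)))))))))))))))))))))))))))))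
 (.node [73,160,164,154] 10 4 (.lc 0 2 .stop)
 (.node [73,123] 4 9 (.node [154] 6 7 (.node [97,123] 6 1 (.lc 0 1 .stop)
 (.lc 2 3 (.node [160,167,154] 10 7 .stop
 (.lc 1 4 (.node [108,123] 7 11 (.node [] 8 6 (.node [] 11 9 (.node [154,177,160] 1 9 .stop
 (.far [1,0,0,0,1,0,4112,256] 0 (.node [154,201,160] 12 9 .stop
 (.node [154,189,160] 9 10 (.far [4112,1,0,0,0,1,0,4112,256] 0 (.lc 2 0 (.lc 2 0 (.lc 0 14 (.lc 2 0 (.lc 3 0 .stop))))))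
 (.conf [146,160,218] (.conf [146,180] (.conf [154,217] (.conf [160,189,218] (.conf [154,217] (.conf [146,160] (.conf [146,160] (.conf [146,160] (.far [4096,0,1,0,257,256,4112,256] 0 (.node [154,180,198,160,137,154] 8 9 (.lc 1 0 .stop)
 (.conf [146,160] (.far [4112,256,257,256,256,256] 0 (.conf [146,160] (.conf [146,160] (.conf [146,160] .stop)))))))))))))))))))
 (.conf [138,172,203] (.conf [141,203,220] (.lc 3 1 (.far [16,0,257,0,0,0,0,0,16,257,0,4096] 0 (.far [1,0,4112,0,0,0,0,0,1,4112,0,256] 0 (.conf [142,203,99] .stop)))))))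
 (.conf [185,193,116] (.conf [185,200,116] (.conf [185,202,116] (.conf [185,205,219] (.far [4112,1,0,4112,0,0,0,0,256,256] 0 (.far [257,16,0,257,0,0,0,0,4096,4096] 0 (.conf [185,200,116] (.conf [185,206,116] .stop)))))))))
 (.lc 3 3 (.conf [116,185,203] (.lc 0 1 (.lc 2 4 (.conf [99,123,199] (.lc 3 3 (.lc 2 4 (.lc 3 3 (.node [109,199,220,109,123,134] 7 11 (.far [257,16,0,257,0,0,0,0,4096,4096] 0 (.lc 2 9 (.lc 2 9 (.lc 2 9 (.lc 2 9 (.lc 0 14 (.lc 2 9 (.lc 3 9 (.lc 3 9 .stop)))))))))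
 (.node [116,185,154,97] 6 1 (.lc 0 1 .stop)
 (.lc 3 3 (.node [116,160,185,154,106] 6 10 .stop
 (.node [116,185,203,154] 11 9 (.node [154,160] 6 12 (.far [257,0,257,0,0,0,0,0,16,257,0,4096] 0 (.lc 2 9 (.lc 2 9 (.node [141,220] 12 9 (.far [1,0,1,0,1,0,4112,256] 0 (.lc 1 0 (.lc 1 0 (.lc 1 0 (.lc 3 6 (.lc 2 0 .stop))))))
 (.lc 0 1 (.lc 2 9 (.lc 3 9 .stop)))))))
 (.lc 2 2 (.conf [160,202] (.conf [154,217] (.lc 2 2 (.lc 3 2 .stop))))))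
 (.node [99,116,139,185] 8 11 (.far [257,1,0,0,0,0,16,4096] 0 (.far [1,257,256,256] 0 (.node [138,160,171,154] 10 11 (.far [1,1,257,256,256] 0 .stop)
 (.node [140,185] 11 9 (.far [4112,1,257,256,256] 0 (.conf [160,202] (.conf [160,202] (.conf [154,217] (.conf [146,160] (.conf [146,160] .stop))))))
 (.lc 2 4 (.lc 2 4 (.lc 2 4 (.lc 3 1 (.conf [146,160] (.node [28,129,185,203,28,185,154] 11 9 (.node [154,160] 12 9 (.far [1,1,0,0,1,0,4112,256] 0 (.lc 1 0 .stop))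
 (.lc 2 2 (.lc 0 10 (.lc 0 13 (.lc 2 2 (.lc 3 2 .stop))))))
 (.node [141,203,220,141,185,154] 11 9 (.node [154,201,160,220] 12 9 (.far [1,1,0,0,1,0,4112,256] 0 (.lc 1 0 (.lc 1 0 (.lc 3 9 (.lc 2 0 .stop)))))
 (.lc 2 2 (.lc 0 10 (.lc 0 14 (.lc 2 2 (.lc 3 2 .stop))))))
 (.lc 2 4 (.lc 3 1 (.lc 3 1 (.lc 3 1 (.lc 3 1 (.lc 3 1 (.lc 3 4 (.lc 3 4 (.lc 4 1 (.lc 4 1 (.lc 4 1 (.lc 4 1 (.lc 4 1 (.lc 4 1 (.lc 4 1 (.lc 5 1 .stop)))))))))))))))))))))))))))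
 (.node [99,123,138,160,154] 10 7 .stop
 (.lc 2 4 (.node [99,123,140] 12 7 (.far [1,1,0,4112,0,0,0,0,256,256] 0 (.lc 3 1 (.lc 3 10 (.lc 3 13 (.node [185,219,154] 11 9 (.node [154,160] 13 9 (.far [1,1,0,0,1,0,4112,256] 0 (.lc 1 0 (.lc 1 0 (.lc 0 10 (.lc 2 0 .stop)))))
 (.lc 2 2 (.lc 0 10 (.lc 0 14 (.lc 2 2 (.lc 3 2 .stop))))))
 (.lc 3 13 (.lc 4 14 .stop)))))))
 (.lc 4 3 (.conf [116,220,109] (.lc 3 4 (.conf [99,123,199] (.conf [116,185,203] (.conf [138,171,185] (.conf [140,185,203] (.lc 0 1 (.conf [99,140,203] (.node [99,141,185,203,154] 11 9 (.node [154,160] 12 9 (.far [1,1,0,1,0,4112,256] 0 (.lc 1 0 (.lc 1 0 (.lc 3 9 (.lc 2 0 .stop)))))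
 (.lc 2 2 (.lc 0 10 (.lc 0 14 (.lc 2 2 (.lc 3 2 .stop))))))
 .stop))))))))))))))))))))))))))))))))
 (.lc 2 10 (.lc 2 10 (.lc 2 10 (.lc 2 2 (.far [4112,1,0,4112,0,0,1,4096,1,256] 0 (.lc 2 10 (.lc 3 10 (.lc 3 10 .stop)))))))))
 (.lc 2 2 (.lc 2 2 (.lc 3 8 (.lc 3 1 (.lc 3 8 (.lc 3 11 (.lc 3 0 (.lc 3 1 (.lc 3 8 (.lc 3 10 (.lc 3 12 (.far [16,0,0,1,257,16,256,256] 0 (.lc 3 4 (.lc 1 10 (.node [73,180,203,73,154,160] 4 9 (.far [257,16,0,257,0,0,16,256,16,4096] 0 (.lc 2 10 (.lc 2 10 (.lc 2 10 (.lc 2 2 (.lc 0 13 (.lc 2 10 (.lc 3 10 (.lc 3 10 .stop)))))))))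
 (.lc 2 2 (.lc 2 2 (.lc 2 2 (.lc 2 2 (.lc 2 2 (.lc 2 2 (.lc 2 2 (.lc 2 2 (.lc 3 1 (.lc 3 8 (.lc 3 11 (.lc 3 11 (.lc 3 10 (.lc 3 11 (.lc 3 11 (.lc 3 12 (.lc 3 2 (.lc 3 2 (.lc 3 2 (.lc 4 11 (.lc 4 8 (.lc 4 12 (.lc 4 1 (.lc 4 8 (.lc 4 13 (.lc 3 2 (.lc 3 2 (.lc 3 2 (.lc 3 2 (.lc 3 2 (.lc 3 2 (.lc 3 2 (.lc 3 2 (.lc 3 2 (.lc 3 2 (.lc 3 2 (.lc 4 2 (.lc 4 2 (.lc 4 2 .stop))))))))))))))))))))))))))))))))))))))))))))))))))))))))))))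
 (.far [1,1,4112,4112,0,0,4112,4096,257] 4096 (.node [155,186,160] 4 9 (.node [65,155,186,160] 1 9 .stop
 (.lc 2 2 (.node [72,134,155,186,160] 8 9 (.lc 1 10 .stop)
 (.node [76,155,186,160] 9 11 (.far [4112,1,4096,257,4112,4112,0,0,4112,4096,257] 4096 (.lc 2 10 (.lc 2 10 (.lc 2 10 (.lc 2 10 (.lc 0 13 (.lc 2 10 (.lc 3 10 (.lc 3 10 .stop)))))))))
 (.lc 3 2 (.conf [146,186] (.lc 3 2 (.far [16,0,4112,1,257,0,0,257,256] 0 (.lc 3 2 (.conf [155,201] (.node [146,186,160,65] 4 1 (.lc 0 8 .stop)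
 (.lc 3 2 (.node [134,146,186,160,72] 8 11 (.lc 1 0 .stop)
 (.node [146,186,160,76] 11 10 (.conf [160,202] (.lc 2 0 (.lc 2 0 (.lc 2 0 (.lc 2 0 (.lc 0 13 (.lc 2 0 (.lc 3 0 (.lc 3 0 .stop)))))))))
 (.lc 3 2 (.lc 3 2 (.lc 3 2 (.lc 3 2 (.conf [134,146,72] (.lc 4 2 (.conf [146,220,77] (.lc 4 2 (.lc 4 2 (.lc 4 2 (.lc 4 2 (.lc 4 2 (.lc 4 2 (.lc 4 2 (.lc 5 2 (.lc 5 2 .stop))))))))))))))))))))))))))))))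
 .stop)))))))
 (.lc 3 2 (.node [144] 7 4 (.node [73,113,144] 1 4 .stop
 (.lc 2 4 (.node [73,120,134,144] 8 4 (.lc 1 0 .stop)
 (.far [1,4096,4112,4112,1,4096,4096,0,257] 4096 (.node [73,122,144] 4 9 (.far [4112,1,4096,4112,4112,1,4096,4096,0,257] 4096 (.lc 2 0 (.lc 2 0 (.lc 2 0 (.lc 0 11 (.lc 2 0 (.lc 3 0 (.lc 3 0 .stop))))))))
 (.lc 2 2 (.lc 3 8 (.lc 3 1 (.lc 3 8 (.lc 3 10 (.lc 3 1 (.lc 3 8 (.lc 3 11 (.far [16,0,1,257,16,256,256] 0 (.lc 3 4 (.conf [122,144,169] (.conf [73,164] (.lc 2 2 (.lc 2 2 (.lc 2 2 (.lc 2 2 (.lc 2 2 (.lc 2 2 (.lc 2 2 (.lc 3 8 (.lc 3 10 (.lc 3 10 (.lc 3 10 (.lc 3 11 (.lc 3 2 (.lc 3 2 (.lc 3 2 (.lc 4 10 (.lc 4 8 (.lc 4 11 (.lc 4 8 (.lc 4 12 (.lc 3 2 (.lc 3 2 (.lc 3 2 (.lc 3 2 (.lc 3 2 (.lc 3 2 (.lc 3 2 (.lc 3 2 (.lc 3 2 (.lc 3 2 (.lc 4 2 (.lc 4 2 (.lc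 4 2 .stop))))))))))))))))))))))))))))))))))))))))))))))))))
 (.lc 3 8 (.lc 3 9 (.lc 3 6 (.lc 3 8 (.lc 3 10 (.lc 3 2 (.node [144] 7 4 (.node [73,113,144] 1 4 .stop
 (.lc 2 4 (.node [73,120,134,144] 8 4 (.lc 1 0 .stop)
 (.far [1,4112,0,0,1,4096,1,256] 0 (.node [73,122,144] 4 9 (.far [4112,1,4112,0,0,1,4096,1,256] 0 (.lc 2 0 (.lc 2 0 (.lc 2 0 (.lc 0 11 (.lc 2 0 (.lc 3 0 (.lc 3 0 .stop))))))))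
 (.lc 2 2 (.lc 3 8 (.lc 3 1 (.lc 3 8 (.lc 3 10 (.lc 3 1 (.lc 3 8 (.lc 3 11 (.far [16,0,1,257,16,256,256] 0 (.lc 3 4 (.conf [122,144,169] (.conf [73,164] (.lc 2 2 (.lc 2 2 (.lc 2 2 (.lc 2 2 (.lc 2 2 (.lc 2 2 (.lc 2 2 (.lc 3 8 (.lc 3 10 (.lc 3 10 (.lc 3 10 (.lc 3 11 (.lc 3 2 (.lc 3 2 (.lc 3 2 (.lc 4 10 (.lc 4 8 (.lc 4 11 (.lc 4 8 (.lc 4 12 (.lc 3 2 (.lc 3 2 (.lc 3 2 (.lc 3 2 (.lc 3 2 (.lc 3 2 (.lc 3 2 (.lc 3 2 (.lc 3 2 (.lc 3 2 (.lc 4 2 (.lc 4 2 (.lc 4 2 .stop))))))))))))))))))))))))))))))))))))))))))))))))))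
 (.lc 3 2 (.node [32,146,169] 9 2 (.node [144] 7 4 (.node [74,112] 0 4 .stop
 (.node [74,113] 1 4 (.lc 1 9 .stop)
 (.lc 2 4 (.node [74,120,134] 8 4 (.lc 1 9 .stop)
 (.far [1,0,4112,0,0,1,4096,1,256] 0 (.node [74,123] 4 10 (.far [4112,1,0,4112,0,0,1,4096,1,256] 0 (.lc 2 9 (.lc 2 9 (.lc 2 9 (.lc 2 9 (.lc 0 12 (.lc 2 9 (.lc 3 9 (.lc 3 9 (.lc 3 9 .stop))))))))))
 (.lc 2 2 (.lc 3 1 (.lc 3 8 (.lc 3 0 (.lc 3 1 (.lc 3 8 (.lc 3 11 (.lc 3 0 (.lc 3 1 (.lc 3 8 (.lc 3 12 (.node [74,113] 0 4 .stop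
 (.far [16,0,0,1,257,16,256,256] 0 (.lc 3 4 (.lc 1 9 (.conf [74,180] (.lc 2 2 (.lc 2 2 (.lc 2 2 (.lc 2 2 (.lc 2 2 (.lc 2 2 (.lc 2 2 (.lc 2 2 (.lc 2 2 (.lc 3 1 (.lc 3 11 (.lc 3 8 (.lc 3 11 (.lc 3 11 (.lc 3 11 (.lc 3 12 (.lc 3 2 (.lc 3 2 (.lc 3 2 (.lc 3 2 (.lc 4 8 (.lc 4 11 (.lc 4 11 (.lc 4 1 (.lc 4 8 (.lc 4 12 (.lc 4 1 (.lc 4 8 (.lc 4 13 (.lc 3 2 (.lc 3 2 (.lc 3 2 (.lc 3 2 (.lc 3 2 (.lc 3 2 (.lc 3 2 (.lc 3 2 (.lc 3 2 (.lc 3 2 (.lc 3 2 (.lc 3 2 (.lc 3 2 (.lc 3 2 (.lc 3 2 (.lc 4 2 (.lc 4 2 (.lc 4 2 (.lc 4 2 (.lc 4 2 (.lc 4 2 .stop))))))))))))))))))))))))))))))))))))))))))))))))))))))))))))))))))))))))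
 (.lc 3 7 (.lc 3 8 (.lc 3 11 (.node [155,176,155,169] 4 10 (.node [65,169] 4 1 (.lc 0 8 .stop)
 (.lc 2 2 (.node [72,134,169] 4 8 .stop
 (.lc 0 0 (.node [76,169] 7 4 (.far [1,4112,0,4112,0,0,1,4096,1,256] 0 (.lc 3 1 (.lc 3 8 (.lc 3 11 (.lc 3 13 (.lc 1 10 (.lc 3 13 (.lc 4 8 (.lc 4 14 .stop)))))))))
 (.lc 2 9 (.lc 3 2 (.lc 2 9 (.lc 2 9 (.lc 3 2 (.lc 2 9 (.lc 3 2 (.lc 2 9 (.lc 3 2 (.lc 2 9 (.lc 3 2 (.conf [72,134] (.lc 3 2 (.conf [77,220] (.lc 2 9 (.lc 2 9 (.lc 2 9 (.lc 2 9 (.lc 3 2 (.lc 2 9 (.lc 2 9 (.lc 2 9 (.lc 3 2 (.lc 3 2 (.lc 3 2 (.lc 3 2 (.lc 3 2 (.lc 3 2 (.lc 3 2 (.lc 3 2 (.lc 3 2 (.lc 4 2 (.lc 3 9 (.lc 1 1 (.lc 3 9 (.lc 4 2 (.lc 3 9 (.lc 4 2 (.lc 4 2 (.lc 4 2 (.lc 4 2 (.lc 4 2 (.lc 4 2 (.lc 4 2 (.lc 4 2 (.lc 4 2 (.lc 4 2 (.lc 4 2 (.lc 4 2 (.lc 4 2 (.lc 4 2 (.lc 4 2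 (.lc 4 2 (.lc 4 2 (.lc 5 2 (.lc 2 1 (.lc 5 2 (.lc 5 2 .stop)))))))))))))))))))))))))))))))))))))))))))))))))))))))))))))))
 (.lc 3 11 (.lc 4 12 .stop)))))))
 (.lc 3 2 (.node [128,134] 4 8 (.far [1,257,0,16,0,0,4112,4096] 17 (.lc 3 2 .stop))
 (.node [] 7 4 (.node [73,113] 1 4 .stop
 (.lc 2 4 (.node [73,120,134] 8 4 (.far [4112,16,0,1,257,16,256,256] 0 .stop)
 (.far [16,257,0,0,16,256,16,4096] 17 (.node [73,122] 4 9 (.far [257,16,257,0,0,16,256,16,4096] 17 (.conf [144,161,66] (.conf [144,168,66] (.conf [144,171,66] (.node [171,185,66] 7 10 (.node [113,171,185] 1 10 .stop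
 (.lc 2 4 (.node [120,134,171,185] 8 10 (.lc 1 9 .stop)
 (.node [124,171,185] 10 11 (.far [4112,1,4112,258,4112,257,257,0,2,257,258,4097] 4096 (.lc 2 9 (.lc 2 9 (.lc 2 9 (.lc 0 13 (.lc 2 9 (.lc 3 9 (.lc 3 9 .stop))))))))
 (.conf [164,185] (.lc 0 3 (.lc 3 4 (.far [16,0,4112,0,1,257,16,256,256] 0 (.lc 3 4 (.conf [171,202] (.node [164,185,144,113] 7 1 .stop
 (.lc 3 4 (.node [134,164,185,144,120] 7 8 (.lc 0 3 .stop)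
 (.node [164,185,144,124] 11 9 (.node [144] 7 12 (.far [257,0,257,0,257,0,0,0,4096,4096] 0 (.lc 2 9 (.far [4112,4112,4096,16,0,4112,4112,4096,257,0,1,256,257] 4096 (.lc 0 3 (.lc 2 9 (.lc 3 9 .stop))))))
 (.lc 2 0 (.lc 2 0 (.lc 2 0 (.lc 0 13 (.lc 2 0 (.lc 3 0 (.lc 3 0 .stop))))))))
 (.lc 3 4 (.lc 3 4 (.conf [134,164,120] (.lc 4 4 (.conf [164,220,125] (.lc 4 4 (.lc 4 4 (.lc 4 4 (.lc 0 3 (.lc 4 4 (.lc 5 4 .stop)))))))))))))))))))))))))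
 (.far [257,16,257,0,0,16,256,16,4096] 17 (.conf [144,168,66] (.conf [144,172,66] .stop))))))))
 (.lc 2 2 (.lc 3 8 (.lc 3 1 (.lc 3 8 (.lc 3 10 (.lc 3 1 (.lc 3 8 (.lc 3 11 (.far [16,0,1,257,16,256,256] 0 (.lc 3 4 (.far [16,257,0,0,16,256,16,4096] 17 (.node [73,164,186,73] 10 4 (.far [16,16,257,0,0,16,256,16,4096] 17 (.lc 1 0 (.lc 1 0 (.lc 1 0 (.lc 1 0 (.lc 3 12 (.lc 2 0 (.lc 2 0 .stop))))))))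
 (.lc 2 2 (.lc 2 2 (.lc 2 2 (.lc 2 2 (.lc 2 2 (.lc 2 2 (.lc 2 2 (.lc 3 8 (.lc 3 10 (.lc 3 10 (.lc 3 10 (.lc 3 11 (.lc 3 2 (.lc 3 2 (.lc 3 2 (.lc 4 10 (.lc 4 8 (.lc 4 11 (.lc 4 8 (.lc 4 12 (.lc 3 2 (.lc 3 2 (.lc 3 2 (.lc 3 2 (.lc 3 2 (.lc 3 2 (.lc 3 2 (.lc 3 2 (.lc 3 2 (.lc 3 2 (.lc 4 2 (.lc 4 2 (.lc 4 2 .stop))))))))))))))))))))))))))))))))))))))))))))))))))
 (.lc 3 8 (.lc 3 9 (.lc 3 9 (.lc 3 9 (.lc 3 10 (.lc 4 2 (.node [144,169] 7 4 (.node [74,113,169,144] 1 4 .stop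
 (.lc 2 4 (.node [74,120,134,169,144] 8 4 (.lc 1 9 .stop)
 (.node [66,169,144] 7 10 (.node [113,169] 1 10 .stop
 (.lc 2 4 (.node [120,134,169] 8 10 (.lc 1 0 .stop)
 (.node [123,169] 10 9 (.far [4112,1,257,16,0,0,1,4096,1,256] 0 (.lc 2 0 (.lc 2 0 (.lc 2 0 (.lc 0 12 (.lc 2 0 (.lc 3 0 (.lc 3 0 .stop))))))))
 (.lc 2 4 (.lc 0 3 (.lc 3 4 (.far [16,4112,0,1,257,16,256,256] 0 (.lc 3 4 (.conf [169,186] (.lc 1 0 (.lc 3 4 (.lc 1 0 (.lc 1 0 (.lc 3 4 (.lc 3 4 (.lc 2 0 (.lc 4 4 (.lc 2 0 (.lc 4 4 (.lc 4 4 (.lc 4 4 (.lc 0 3 (.lc 4 4 (.lc 5 4 .stop)))))))))))))))))))))))))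
 (.node [74,123,169,144] 4 10 (.node [169] 10 9 (.node [144,161] 10 1 (.lc 0 8 .stop)
 (.node [134,144,168] 10 8 .stop
 (.node [144,172] 11 10 (.far [1,4112,4096,1,16,0,0,1,4096,1,256] 0 (.lc 3 1 (.lc 3 8 (.lc 3 13 (.lc 1 9 (.lc 3 13 (.lc 4 8 (.lc 4 14 .stop))))))))
 (.conf [134,168] (.conf [144,172] (.conf [144,172] (.conf [144,173] (.conf [144,164] (.conf [134,168] (.conf [144,201] (.conf [144,168] (.conf [137,144] (.conf [144,161] (.conf [144,168] (.conf [144,173] (.node [144,164,177] 1 9 (.far [1,4096,1,0,256] 17 .stop)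
 (.lc 0 4 (.node [134,144,164,184] 8 9 (.far [4112,256,256,16,0,1,257,16,256,256] 4097 .stop)
 (.node [144,164,188] 12 9 (.far [1,4096,1,0,256] 17 (.lc 3 1 (.node [193] 12 1 (.far [16,4112,256,256,16,0,1,257,16,256,256] 4097 (.lc 3 13 (.far [16,4112,256,256,16,0,1,257,16,256,256] 4097 (.lc 3 13 (.lc 4 14 .stop)))))
 (.lc 3 1 (.lc 3 13 (.lc 4 8 (.lc 4 13 .stop)))))))
 (.lc 0 1 (.lc 0 8 (.lc 0 12 (.conf [144,172] (.conf [134,168] (.conf [144,174] (.lc 0 8 (.lc 0 13 (.lc 0 8 (.lc 0 12 (.lc 0 12 (.lc 0 13 (.lc 0 8 (.lc 0 6 (.lc 0 1 (.lc 0 8 (.lc 0 13 (.conf [134,164,184] (.conf [164,189,220] (.lc 0 12 (.lc 0 8 (.lc 0 14 .stop)))))))))))))))))))))))))))))))))))))))))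
 (.lc 2 9 (.lc 2 9 (.lc 2 9 (.lc 0 12 (.lc 2 9 (.lc 3 9 (.lc 3 9 .stop))))))))
 (.lc 2 2 (.lc 3 8 (.lc 3 1 (.lc 3 8 (.lc 3 11 (.lc 3 1 (.lc 3 8 (.lc 3 12 (.far [16,0,1,257,16,256,256] 0 (.lc 3 4 (.conf [123,169,186] (.conf [74,180] (.lc 2 2 (.lc 2 2 (.lc 2 2 (.lc 2 2 (.lc 2 2 (.lc 2 2 (.lc 2 2 (.lc 3 8 (.lc 3 11 (.lc 3 11 (.lc 3 11 (.lc 3 12 (.lc 3 2 (.lc 3 2 (.lc 3 2 (.lc 4 11 (.lc 4 8 (.lc 4 12 (.lc 4 8 (.lc 4 13 (.lc 3 2 (.lc 3 2 (.lc 3 2 (.lc 3 2 (.lc 3 2 (.lc 3 2 (.lc 3 2 (.lc 3 2 (.lc 3 2 (.lc 3 2 (.lc 4 2 (.lc 4 2 (.lc 4 2 .stop))))))))))))))))))))))))))))))))))))))))))))))))))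
 (.lc 4 10 (.lc 4 11 (.lc 4 10 (.lc 4 9 (.lc 4 10 (.lc 4 6 (.lc 4 8 (.lc 4 10 (.lc 5 11 .stop))))))))))))))))))))))))))))))))))
 (.lc 0 0 (.node [120,134,49,120] 7 8 .stop
 (.node [134,152,49] 8 6 (.node [103,128,152] 8 0 (.node [144] 0 6 (.lc 0 7 .stop)
 (.far [4112,4112,4096,16,1,4112,4096,16,256] 0 .stop))
 (.node [70,132,152] 8 4 .stop
 (.lc 1 3 (.node [103,138,152] 9 8 (.node [154] 6 7 (.node [116] 9 10 (.node [167] 0 10 (.node [116] 0 7 .stop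
 (.lc 0 2 .stop))
 (.lc 2 1 (.node [74] 4 10 (.lc 0 4 .stop)
 (.lc 1 6 (.node [167] 10 7 (.node [116] 7 4 (.node [] 4 2 (.far [1,0,0,0,0,1,4112,4096,16,0,0,4112,4096,257] 4096 (.node [66,178] 11 2 .stop
 (.node [32,76] 11 4 (.node [188] 9 11 (.node [156] 1 9 (.node [28] 12 2 .stop
 (.far [1,4096,4112,0,256,16,0,256,0,16,1,256] 4097 .stop))
 (.lc 3 1 (.far [16,257,0,4096,4096,4096] 0 (.far [16,257,0,4096,4096,4096] 0 (.lc 4 1 .stop)))))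
 (.conf [180,194,66] (.far [16,257,256,16,0,256,0,16,0,16,0,0,4112,4096] 0 (.far [16,257,256,16,0,256,0,16,0,16,0,0,4112,4096] 0 .stop))))
 (.node [76,192,76] 11 4 (.far [1,4096,4096,4096,1,0,257,0,4096,0,0,0,0,0,257] 4096 (.lc 3 4 (.lc 1 0 .stop)))
 (.lc 3 2 (.lc 3 2 (.node [76,192,76] 11 4 (.far [1,4112,4096,1,0,4096,0,1,0,1,0,0,257,256] 0 (.lc 3 4 (.lc 1 0 .stop)))
 (.node [32,194,220,77] 11 4 (.far [1,4112,4096,1,0,4096,0,1,0,1,0,0,257,256] 0 (.lc 3 4 (.lc 1 12 (.lc 1 12 .stop))))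
 (.far [257,256,16,0,256,0,16,0,16,0,0,4112,4096] 17 (.node [76] 11 4 (.far [16,257,256,16,0,256,0,16,0,16,0,0,4112,4096] 17 (.conf [180,192,66] (.far [16,257,256,16,0,256,0,16,0,16,0,0,4112,4096] 17 .stop)))
 (.lc 3 2 (.lc 3 2 (.node [77,220,77,192] 11 4 (.node [189,220] 11 13 (.node [220,192] 9 13 .stop
 (.far [257,257,0,4096,4096,4096] 0 .stop))
 (.lc 3 4 (.lc 1 12 .stop)))
 (.lc 4 2 (.lc 4 2 .stop)))))))))))))))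
 (.lc 2 2 (.lc 2 2 (.far [4112,1,0,1,0,0,0,0,256,256] 0 (.far [4112,1,0,1,0,0,0,0,256,256] 0 (.lc 2 2 (.lc 2 2 (.lc 3 2 (.lc 3 2 (.lc 3 2 .stop))))))))))
 (.lc 2 4 (.far [4112,1,256,256,256] 0 (.lc 1 2 (.far [4112,1,256,256,256] 0 (.lc 1 2 (.lc 2 2 (.lc 2 2 .stop))))))))
 (.lc 2 6 (.lc 0 2 (.lc 2 6 (.lc 3 4 (.lc 3 11 (.lc 1 10 (.lc 1 4 (.lc 3 0 (.lc 3 4 (.lc 3 12 (.lc 3 1 (.node [167,176] 0 10 .stop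
 (.lc 0 2 (.node [167,186,167] 10 7 (.far [257,16,4096,4096,4096] 0 (.lc 2 4 (.lc 1 2 (.lc 0 12 (.lc 1 2 (.lc 2 2 .stop))))))
 (.node [167,186,203,167] 10 7 (.far [257,16,4096,4096,4096] 0 (.lc 2 4 (.lc 0 0 (.lc 1 2 (.lc 0 13 (.lc 1 2 (.lc 2 2 (.lc 2 2 .stop))))))))
 (.lc 1 4 (.lc 3 0 (.lc 1 4 (.lc 3 11 (.lc 3 11 (.lc 3 0 (.lc 3 0 (.lc 3 11 (.lc 3 0 (.lc 0 2 (.lc 3 11 (.lc 3 0 (.lc 3 12 (.lc 1 2 (.lc 1 2 (.lc 4 12 (.lc 2 10 (.lc 1 2 (.lc 1 2 (.lc 4 12 (.lc 4 0 (.lc 4 13 (.lc 4 11 (.lc 1 2 (.lc 1 2 (.lc 4 0 (.lc 4 12 (.lc 2 4 (.lc 2 4 (.lc 1 2 (.lc 1 2 (.lc 2 2 (.lc 2 2 (.lc 2 2 .stop))))))))))))))))))))))))))))))))))))))))))))))))))))))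
 (.conf [116,160,99] (.conf [116,171,183] (.far [4112,0,1,0,1,4112,0,256] 0 (.lc 1 2 (.far [4112,0,1,0,1,4112,0,256] 0 (.far [257,0,16,0,16,257,0,4096] 0 (.lc 1 7 (.far [257,0,16,0,16,257,0,4096] 0 (.conf [116,171,99] (.conf [116,160,99] (.conf [116,172,99] .stop))))))))))))
 (.lc 1 6 (.lc 1 6 (.lc 1 6 (.lc 1 6 (.lc 1 6 (.lc 1 6 (.far [1,4112,4096,16,1,4112,4096,16,256] 0 (.far [1,4112,4096,16,1,4112,4096,16,256] 0 (.lc 2 6 (.lc 0 2 (.lc 2 6 (.lc 2 6 .stop)))))))))))))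
 (.lc 2 3 (.lc 0 2 (.lc 2 3 (.node [131,144,103] 0 6 .stop
 (.lc 2 3 (.conf [131,166,103] (.conf [138,160] (.lc 2 3 (.lc 2 3 (.node [103,128,166,152,103] 8 0 .stop
 (.conf [139,186] (.lc 2 3 (.lc 2 3 (.lc 2 3 (.conf [131,144] (.conf [131,148] (.lc 2 3 (.conf [131,154] (.lc 3 3 (.lc 3 3 (.lc 3 3 (.conf [131,154] (.lc 3 3 (.lc 3 3 (.conf [131,144] (.conf [131,155] (.lc 3 3 (.lc 1 2 (.lc 3 3 (.lc 3 3 (.lc 3 3 (.lc 3 3 (.lc 3 3 (.lc 4 3 (.lc 4 3 (.lc 4 3 .stop))))))))))))))))))))))))))))))))))))))))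
 (.lc 0 0 (.far [4112,4112,1,4112,4096,16,256] 0 (.lc 0 0 (.far [257,257,16,257,256,1,4096] 0 (.lc 0 0 (.node [134,152,169,49] 8 6 (.node [103,128,152,169] 8 0 (.far [257,257,256,1,16,257,256,1,4096] 0 (.lc 0 11 .stop))
 (.node [70,132,152,169] 8 4 .stop
 (.lc 1 3 (.node [103,139,152,169] 9 8 (.far [16,257,256,1,16,257,256,1,4096] 0 (.lc 3 0 (.lc 3 4 (.lc 3 7 (.lc 3 12 (.lc 1 6 (.lc 1 6 (.lc 3 0 (.lc 3 12 (.lc 4 12 (.lc 0 2 (.lc 4 0 (.lc 4 13 .stop)))))))))))))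
 (.lc 2 3 (.lc 0 2 (.lc 2 3 (.conf [131,144] (.lc 2 3 (.conf [131,155] (.conf [139,176] (.lc 2 3 (.lc 2 3 (.node [103,128,182,152,169,103] 8 0 .stop
 (.conf [140,203] (.lc 2 3 (.lc 2 3 (.lc 2 3 (.node [131,144,169,103] 0 6 (.far [1,1,0,1,4112,0,256] 0 (.far [256,0,0,0,256,257,0,1,1] 4096 (.node [116,183] 9 0 (.lc 0 11 .stop)
 .stop)))
 (.node [131,148,169,70] 4 6 (.lc 0 4 .stop)
 (.lc 2 3 (.node [131,155,169,103] 10 9 (.conf [171,182] (.lc 3 0 (.lc 3 4 (.lc 3 7 (.lc 3 12 (.lc 1 6 (.lc 1 6 (.lc 3 0 (.lc 3 12 (.lc 4 12 (.lc 0 2 (.lc 4 0 (.lc 4 13 .stop)))))))))))))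
 (.lc 3 3 (.lc 3 3 (.lc 3 3 (.node [131,155,176,169,103] 0 6 .stop
 (.lc 3 3 (.lc 3 3 (.conf [131,182,103] (.conf [131,182,103] (.lc 3 3 (.lc 1 2 (.lc 3 3 (.lc 3 3 (.lc 3 3 (.lc 3 3 (.lc 3 3 (.lc 4 3 (.lc 4 3 (.lc 4 3 .stop))))))))))))))))))))))))))))))))))))))))
 .stop))))))))))
 (.lc 0 0 (.lc 2 7 (.lc 2 7 (.lc 2 7 (.lc 2 7 (.lc 3 1 (.lc 3 1 (.lc 3 1 (.lc 0 0 (.node [56,103,128,56] 0 6 (.node [38] 2 6 .stop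
 (.lc 1 6 (.far [257,0,256,257,0,1,1] 4096 .stop)))
 (.lc 2 3 (.lc 2 3 (.lc 2 3 (.node [48,103,134] 3 0 (.lc 0 0 .stop)
 (.far [4112,1,4112,4096,16,256] 0 (.node [103,134,152,57] 3 9 (.far [4112,4112,1,4112,4096,16,256] 0 (.lc 0 0 (.lc 2 8 (.lc 2 8 (.lc 0 0 (.far [4112,4112,1,4112,4096,16,256] 0 (.lc 0 0 (.lc 2 8 (.lc 0 0 (.lc 3 8 .stop))))))))))
 (.lc 2 7 (.lc 2 7 (.lc 2 7 (.lc 2 7 (.lc 2 7 (.lc 3 1 (.lc 3 1 (.lc 0 0 (.lc 3 1 (.lc 3 1 (.lc 3 7 (.lc 0 0 (.lc 3 7 (.lc 3 7 (.lc 3 7 (.lc 3 7 (.lc 0 0 (.lc 4 1 (.lc 0 0 (.lc 4 1 (.lc 0 0 (.lc 4 1 (.lc 0 0 (.lc 4 1 (.lc 4 1 (.lc 4 1 (.lc 0 0 (.lc 5 1 .stop))))))))))))))))))))))))))))))))))))))))))))))))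

theorem t15 : kNode2 awTt FTt 3 6 (check tyTt awTt triet FTt [] c15) (fun _ _ _ => true) 0 s15 Pl.nil s15 =
    true := by
  decide +kernel

end Chk
end Pool.Agent.Lib.MP_ba95e8_co
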