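import Pool.Agent.Lib.MP_ba95e8_co.ChkTab
import Pool.Agent.Lib.MP_ba95e8_co.ChkStates

/-!
Deltahedral domes: part 16 of the case analysis.
-/

namespace Pool.Agent.Lib.MP_ba95e8_co
namespace Chk

/-- certificate number 16 -/
def c16 : Cert := (.node [48,84,66] 3 0 (.far [4112,4112,4112,256] 0 (.node [54] 0 5 (.node [84,66] 5 4 (.node [66,100] 3 6 (.far [4112,4112,4096,4096,0,16,256] 0 (.far [4112,4112,4096,4096,0,16,256] 0 .stop))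
 (.lc 2 2 (.lc 2 2 (.lc 0 1 (.lc 0 7 (.lc 2 2 (.lc 2 2 (.lc 3 2 (.lc 3 2 (.lc 3 2 .stop))))))))))
 (.conf [66,80] (.conf [84,117] (.far [257,16,4096] 0 (.node [66,80,116,103,54] 3 6 (.lc 1 7 (.lc 1 4 (.lc 2 7 (.node [116] 7 4 .stop
 (.far [4112,4112,4096,16,4112,256] 0 .stop)))))
 .stop)))))
 (.node [55,118,55,96] 0 5 (.far [257,16,4096] 0 (.lc 0 4 (.lc 0 8 (.far [257,16,4096] 0 (.lc 0 8 .stop)))))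
 .stop)))
 (.conf [49,84] (.node [54,84,66] 5 4 (.node [66,80,54] 5 0 (.node [96] 0 4 (.node [66] 6 4 (.node [32] 3 6 .stop
 (.far [16,256,256,0,16,4096] 0 .stop))
 (.conf [66,116] .stop))
 (.lc 0 1 (.lc 0 1 (.lc 0 7 (.node [97] 3 6 (.lc 1 1 (.node [55,97] 1 3 (.far [1,4112,0,0,4112,4112,256] 0 (.node [118,135,24] 6 1 (.far [16,256,257,256,0,256] 4097 (.lc 1 7 .stop))
 .stop))
 (.lc 2 1 (.node [97,118,135,56] 3 8 (.far [4112,4112,0,0,4112,4112,256] 0 (.lc 2 7 .stop))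
 (.lc 2 1 (.lc 3 1 .stop))))))
 (.lc 0 7 .stop))))))
 (.node [66,81,54] 5 1 (.node [97] 1 4 (.far [8224,257,272,16,4112,16] 257 (.node [66] 6 4 (.node [32] 3 6 .stop
 (.far [16,256,256,0,16,4096] 17 (.far [16,256,256,0,16,4096] 0 .stop)))
 (.conf [66,116] (.conf [66,116] .stop))))
 (.lc 0 7 .stop))
 (.node [66,87,54] 6 5 (.node [103] 3 6 (.node [48,103] 3 0 (.lc 0 0 .stop)
 (.far [4112,0,0,4112,4112,256] 0 (.lc 1 3 (.node [56,103] 3 8 (.far [4112,4112,0,0,4112,4112,256] 0 (.lc 0 0 (.node [120,134,49,120] 7 8 .stop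
 (.node [134,152,49] 8 6 (.node [103,128,152] 8 0 (.far [4112,4112,4096,16,0,0,4112,4112,256] 0 (.far [4112,4112,4096,16,0,0,4112,4112,256] 0 .stop))
 (.node [103,130,152] 8 2 (.far [4096,0,4096,0,0,0,0,0,257] 4096 .stop)
 (.lc 1 3 (.node [103,138,152] 9 8 (.far [1,4112,4096,16,0,0,4112,4112,256] 0 (.lc 1 6 (.lc 1 6 (.lc 1 6 (.lc 1 6 (.lc 1 6 (.lc 1 6 (.far [1,4112,4096,16,0,0,4112,4112,256] 0 (.far [1,4112,4096,16,0,0,4112,4112,256] 0 (.lc 2 6 (.lc 2 6 (.lc 2 6 (.lc 2 6 .stop)))))))))))))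
 (.lc 2 3 (.lc 2 3 (.node [131,144,103] 0 6 (.conf [39,116] .stop)
 (.lc 2 3 (.conf [131,166,103] (.conf [138,160] (.node [38,128,152] 2 6 .stop
 (.lc 2 3 (.lc 2 3 (.node [103,128,166,152,103] 8 0 .stop
 (.conf [139,186] (.lc 2 3 (.lc 2 3 (.lc 2 3 (.lc 2 3 (.conf [131,144] (.conf [131,146] (.lc 2 3 (.conf [131,154] (.lc 3 3 (.lc 3 3 (.lc 3 3 (.lc 3 3 (.conf [131,154] (.conf [131,144] (.lc 3 3 (.lc 3 3 (.conf [131,144] (.conf [131,155] (.lc 3 3 (.lc 3 3 (.lc 3 3 (.lc 3 3 (.lc 3 3 (.lc 3 3 (.lc 3 3 (.lc 4 3 (.lc 4 3 (.lc 4 3 (.lc 4 3 .stop))))))))))))))))))))))))))))))))))))))))))))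
 (.lc 0 0 (.far [4112,4112,0,0,4112,4112,256] 0 (.lc 0 0 (.node [134,152,49] 8 6 (.node [103,128,152] 8 0 (.node [144] 0 6 (.conf [39,116] .stop)
 (.lc 0 10 .stop))
 (.node [103,130,152] 8 2 (.lc 0 0 .stop)
 (.lc 1 3 (.node [103,138,152] 9 8 (.node [154] 6 7 (.node [116] 9 10 (.node [144,167] 9 0 (.far [272,4112,0,4112,0,256,0,0,0,0,0,4112] 257 .stop)
 (.node [146,167] 9 2 .stop
 (.lc 1 6 (.node [155,167] 10 7 (.node [116] 7 4 (.node [66] 9 11 (.node [27] 11 4 .stop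
 (.far [4112,0,4112,4096,256,0,16,1,256] 4097 (.far [4112,0,4112,4096,256,0,16,1,256] 0 .stop)))
 (.lc 2 2 (.far [4112,1,0,1,0,0,0,0,256,256] 0 (.conf [66,196] (.lc 2 2 (.lc 3 2 (.lc 3 2 .stop)))))))
 (.lc 2 4 (.far [4112,1,256,256,256] 0 (.far [4112,1,256,256,256] 0 (.lc 2 2 .stop)))))
 (.lc 2 6 (.lc 2 6 (.lc 3 1 (.lc 3 1 (.conf [155,176] (.node [42,144] 2 10 (.lc 0 2 .stop)
 (.node [144,167,186,167] 9 0 (.far [4112,4112,0,4096,4112,1,256] 0 .stop)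
 (.conf [156,203] (.lc 1 4 (.lc 3 1 (.lc 3 1 (.lc 3 1 (.lc 3 1 (.lc 1 2 (.lc 4 1 (.lc 4 1 (.lc 4 1 (.lc 4 1 (.lc 2 4 .stop)))))))))))))))))))))))
 (.conf [116,160,99] (.conf [116,161,99] (.conf [116,162,99] (.conf [116,171,183] (.far [4112,0,1,0,1,4112,0,256] 0 (.far [4112,0,1,0,1,4112,0,256] 0 (.far [257,0,16,0,16,257,0,4096] 0 (.far [257,0,16,0,16,257,0,4096] 0 (.conf [25,161] (.conf [116,171,99] (.conf [39,116] (.conf [116,160,99] (.conf [116,172,99] .stop))))))))))))))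
 (.lc 3 0 (.lc 3 2 (.lc 3 7 (.lc 3 11 (.lc 1 6 (.lc 1 6 (.lc 3 0 (.lc 3 11 (.lc 4 11 (.lc 4 0 (.lc 4 0 (.lc 4 12 .stop)))))))))))))
 (.lc 2 3 (.lc 2 3 (.conf [131,144] (.lc 2 3 (.conf [131,154] (.conf [138,160] (.node [38,128,152] 2 6 .stop
 (.lc 2 3 (.lc 2 3 (.node [103,128,166,152,103] 8 0 .stop
 (.conf [139,186] (.lc 2 3 (.lc 2 3 (.lc 2 3 (.lc 2 3 (.node [131,144,103] 0 6 (.far [1,1,0,1,4112,0,256] 0 (.node [116] 7 4 .stop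
 (.conf [39,116] (.node [116,167] 9 0 (.far [32,0,8224,0,32,1,4112,8208,4112,16] 257 .stop)
 (.far [1,1,0,1,4112,0,256] 17 (.conf [42,167] .stop))))))
 (.node [131,146,103] 2 6 .stop
 (.lc 2 3 (.node [131,154,103] 10 6 (.far [1,1,0,1,4112,0,256] 0 (.lc 3 0 (.lc 3 1 (.lc 3 2 (.lc 3 11 (.node [116,160] 0 7 (.lc 1 2 .stop)
 (.node [116,183] 9 10 (.node [26] 7 4 (.node [66] 11 4 (.node [32] 10 11 (.node [162] 10 2 .stop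
 (.far [16,257,1,0,4096,0,0,0,4096,4096] 17 .stop))
 (.lc 3 4 (.far [16,16,0,0,0,0,0,16,256,16,4096] 17 (.conf [188,194] .stop))))
 (.lc 2 2 (.lc 0 0 (.lc 0 12 (.lc 2 2 (.lc 3 2 (.lc 3 2 .stop)))))))
 (.lc 2 11 (.lc 2 11 (.far [4112,0,4112,1,256] 4097 (.lc 2 6 (.conf [171,202] (.lc 2 11 (.lc 2 11 (.lc 3 11 (.lc 3 11 .stop))))))))))
 (.lc 3 0 (.lc 3 11 (.lc 4 1 (.lc 4 11 (.lc 4 0 (.lc 4 0 (.lc 4 12 .stop))))))))))))))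
 (.lc 3 3 (.lc 3 3 (.lc 3 3 (.lc 3 3 (.node [131,154,160,103] 0 6 (.conf [39,116] .stop)
 (.node [38,131,144] 2 6 .stop
 (.lc 3 3 (.lc 3 3 (.conf [131,166,103] (.conf [131,166,103] (.lc 3 3 (.lc 3 3 (.lc 3 3 (.lc 3 3 (.lc 3 3 (.lc 3 3 (.lc 3 3 (.lc 4 3 (.lc 4 3 (.lc 4 3 (.lc 4 3 .stop))))))))))))))))))))))))))))))))))))))))))))
 (.lc 0 0 (.node [134,152,169,49] 8 6 (.node [103,128,152,169] 8 0 (.far [4112,4112,4112,4128,1,4112,8208,4112,256] 0 (.lc 0 11 .stop))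
 (.node [103,130,152,169] 8 2 (.lc 0 0 .stop)
 (.lc 1 3 (.node [103,139,152,169] 9 8 (.far [1,4112,4112,4128,1,4112,8208,4112,256] 0 (.lc 3 0 (.lc 3 2 (.lc 3 7 (.lc 3 12 (.lc 1 6 (.lc 1 6 (.lc 3 0 (.lc 3 12 (.lc 4 12 (.lc 4 0 (.lc 4 0 (.lc 4 13 .stop)))))))))))))
 (.lc 2 3 (.lc 2 3 (.conf [131,144] (.lc 2 3 (.conf [131,155] (.conf [139,176] (.node [38,128,152,169] 2 6 .stop
 (.lc 2 3 (.lc 2 3 (.node [103,128,182,152,169,103] 8 0 .stop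
 (.conf [140,203] (.lc 2 3 (.lc 2 3 (.lc 2 3 (.lc 2 3 (.node [131,144,169,103] 0 6 (.far [1,1,0,1,4112,0,256] 0 (.node [116] 10 9 .stop
 (.conf [39,116] (.node [116,183] 9 0 (.lc 0 11 .stop)
 (.far [1,1,0,1,4112,0,256] 17 (.conf [43,183] .stop))))))
 (.node [131,146,169,103] 2 6 .stop
 (.lc 2 3 (.node [131,155,169,103] 10 9 (.conf [171,182] (.lc 3 0 (.lc 3 2 (.lc 3 7 (.lc 3 12 (.lc 1 6 (.lc 1 6 (.lc 3 0 (.lc 3 12 (.lc 4 12 (.lc 4 0 (.lc 4 0 (.lc 4 13 .stop)))))))))))))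
 (.lc 3 3 (.lc 3 3 (.lc 3 3 (.lc 3 3 (.node [131,155,176,169,103] 0 6 (.conf [39,116] .stop)
 (.node [38,131,144,169] 2 6 .stop
 (.lc 3 3 (.lc 3 3 (.conf [131,182,103] (.conf [131,182,103] (.lc 3 3 (.lc 3 3 (.lc 3 3 (.lc 3 3 (.lc 3 3 (.lc 3 3 (.lc 3 3 (.lc 4 3 (.lc 4 3 (.lc 4 3 (.lc 4 3 .stop))))))))))))))))))))))))))))))))))))))))))))
 .stop))))))))))
 (.lc 0 0 (.lc 2 7 (.lc 2 7 (.lc 2 7 (.lc 2 7 (.lc 3 1 (.lc 3 1 (.lc 3 1 (.lc 0 0 (.node [56,103,128,56] 0 6 (.node [103] 3 8 (.far [4112,257,4096,0,0,0,0,257] 4096 (.lc 2 0 (.lc 2 0 (.far [4112,257,4096,0,0,0,0,257] 4096 (.lc 2 0 (.lc 3 0 .stop))))))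
 (.node [39,96] 2 7 .stop
 (.lc 2 0 (.conf [41,150] (.node [96,116] 7 4 .stop
 (.conf [41,151] .stop))))))
 (.lc 2 3 (.lc 2 3 (.lc 2 3 (.node [48,103,134] 3 0 (.lc 0 0 .stop)
 (.far [4112,0,0,4112,4112,256] 0 (.node [103,134,152,57] 3 9 (.far [4112,4112,0,0,4112,4112,256] 0 (.lc 0 0 (.lc 2 8 (.lc 2 8 (.lc 0 0 (.far [4112,4112,0,0,4112,4112,256] 0 (.lc 0 0 (.lc 2 8 (.lc 0 0 (.lc 3 8 .stop))))))))))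
 (.lc 2 7 (.lc 2 7 (.lc 2 7 (.lc 2 7 (.lc 2 7 (.lc 3 1 (.lc 3 1 (.lc 0 0 (.lc 3 1 (.lc 3 1 (.lc 3 7 (.lc 0 0 (.lc 3 7 (.lc 3 7 (.lc 3 7 (.lc 3 7 (.lc 0 0 (.lc 4 1 (.lc 0 0 (.lc 4 1 (.lc 0 0 (.lc 4 1 (.lc 0 0 (.lc 4 1 (.lc 4 1 (.lc 4 1 (.lc 0 0 (.lc 5 1 .stop))))))))))))))))))))))))))))))))))))))))))))))))
 (.lc 3 0 (.lc 3 1 (.lc 3 8 (.lc 1 4 (.lc 1 4 (.lc 1 4 (.lc 3 0 (.lc 3 1 (.lc 3 8 (.lc 4 1 (.lc 4 8 (.lc 4 8 (.lc 4 0 (.lc 4 1 (.lc 4 9 .stop))))))))))))))))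
 (.conf [66,81] (.conf [66,87] (.conf [66,87] (.conf [66,80] (.conf [66,81] (.conf [66,88] (.conf [66,83] (.conf [66,83] (.conf [66,83] (.node [66,81,54] 5 1 (.node [97] 6 1 (.lc 2 1 .stop)
 (.lc 0 7 .stop))
 (.conf [87,112] (.conf [87,113] (.conf [66,116] (.conf [66,116] (.conf [66,116] (.conf [66,81] (.conf [66,87] (.conf [66,87] (.conf [66,80] (.conf [66,81] (.conf [66,88] (.node [66,83,96,54] 0 4 (.node [] 3 6 (.lc 1 0 (.far [4112,257,4096,4096,0,257] 4096 (.node [55,96] 3 7 (.far [4112,4112,257,4096,4096,0,257] 4096 (.lc 0 0 (.node [118,135,49] 7 6 (.lc 1 0 (.node [96,121,135] 8 7 (.far [1,4112,4096,16,257,4096,4096,0,257] 4096 (.lc 1 6 (.lc 1 6 (.far [1,4112,4096,16,257,4096,4096,0,257] 4096 (.lc 2 6 .stop)))))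
 (.lc 2 0 (.conf [115,150,96] (.conf [122,169] (.lc 2 0 (.lc 2 0 (.conf [115,137] (.conf [115,138] (.lc 3 0 .stop))))))))))
 (.far [4112,4112,257,4096,4096,0,257] 4096 (.node [118,135,49] 7 6 (.lc 1 0 (.node [96,121,135] 8 7 (.node [137] 6 0 (.far [257,0,16,0,16,0,1,4096] 0 (.far [512,16,272,257,256,0,0,0,0,4112] 257 (.conf [24,145] (.node [154,160] 8 9 (.node [138] 8 10 (.node [26] 10 0 (.far [512,272,4112,0,4112,0,256,0,0,0,0,0,4112] 257 .stop)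
 (.lc 2 0 (.conf [160,186] .stop)))
 (.lc 3 1 (.lc 1 0 (.lc 3 1 (.lc 4 1 .stop)))))
 (.far [257,0,16,0,16,0,1,4096] 4097 (.conf [24,161] .stop))))))
 (.lc 3 10 (.lc 1 6 (.lc 3 10 (.lc 4 11 .stop)))))
 (.lc 2 0 (.conf [115,137] (.conf [122,169] (.lc 2 0 (.lc 2 0 (.node [115,137,96] 9 6 (.node [144] 8 9 (.node [25] 1 9 (.lc 1 0 (.node [144] 9 0 .stop
 (.node [144,169,186,144] 10 9 .stop
 .stop)))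
 (.lc 2 0 (.conf [144,169] (.lc 2 0 (.lc 3 0 .stop)))))
 (.lc 3 1 (.far [16,16,257,256,4112,257,0,0,4112] 1 (.lc 3 1 (.lc 3 10 (.lc 4 10 .stop))))))
 (.conf [115,150,96] (.lc 3 0 .stop))))))))))
 (.node [118,135,152,49] 7 6 (.lc 1 0 (.node [96,122,135,152] 8 7 (.node [138] 6 0 (.far [257,0,16,0,16,0,1,4096] 0 (.conf [25,161] (.node [171,176] 8 10 (.far [1,4112,257,1,4112,4096,1,4112,0,16,256] 0 (.lc 3 7 (.lc 1 0 (.lc 3 7 (.lc 4 7 .stop)))))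
 (.lc 1 8 .stop))))
 (.lc 3 11 (.lc 1 6 (.lc 3 11 (.lc 4 12 .stop)))))
 (.lc 2 0 (.conf [115,138] (.conf [123,186] (.lc 2 0 (.lc 2 0 (.node [115,138,152,96] 9 8 (.conf [154,166] (.lc 3 11 (.lc 1 6 (.lc 3 11 (.lc 4 12 .stop)))))
 (.conf [115,166,96] (.lc 3 0 .stop))))))))))
 .stop))))))
 (.lc 2 0 (.lc 2 0 (.lc 0 0 (.lc 3 1 (.lc 0 0 (.far [4112,257,4096,4096,0,257] 4096 (.node [56,96,118,135,56] 3 8 (.far [4112,4112,257,4096,4096,0,257] 4096 (.lc 0 0 (.lc 2 7 (.far [4112,4112,257,4096,4096,0,257] 4096 (.lc 2 7 (.lc 3 7 .stop))))))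
 (.lc 2 0 (.lc 2 0 (.lc 3 1 (.lc 0 0 (.lc 3 1 (.lc 3 0 (.lc 3 0 (.lc 4 1 (.lc 4 1 (.lc 4 1 (.lc 4 1 (.lc 5 1 .stop))))))))))))))))))))))
 .stop)
 (.node [66,83,97,54] 1 4 .stop
 (.node [66,83,103,54] 7 4 (.node [32,114,54] 3 6 (.node [48,103] 3 0 (.lc 0 0 .stop)
 (.lc 2 1 (.lc 1 3 (.node [56,103] 3 8 (.far [4112,4112,0,0,4112,4112,256] 0 (.lc 0 0 (.node [120,134,49,120] 6 7 (.far [1,0,0,4112,257] 0 (.node [96] 7 8 .stop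
 .stop))
 (.node [134,152,49] 6 7 (.node [96,114] 6 0 (.far [257,257,0,16,0,1,4096] 0 (.conf [131,144] .stop))
 (.lc 1 2 (.lc 2 3 (.node [105,114,152] 6 9 .stop
 (.node [106,114] 8 6 (.far [16,257,0,16,0,1,4096] 0 (.conf [131,167,99] (.far [16,257,0,16,0,1,4096] 0 (.conf [139,186] (.conf [131,154] (.conf [131,144] (.conf [131,155] .stop)))))))
 (.lc 2 2 (.lc 2 2 (.lc 2 2 (.lc 2 2 (.lc 3 3 (.lc 2 2 (.lc 2 2 (.lc 2 2 (.lc 2 2 (.lc 3 3 (.lc 3 3 (.node [114,144,152,134] 6 9 .stop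
 (.node [106,114,160,106,134,152] 8 6 (.node [138,160] 10 0 (.node [161] 8 10 .stop
 (.lc 0 8 .stop))
 (.lc 3 3 (.lc 1 0 (.lc 3 3 (.lc 4 3 .stop)))))
 (.lc 2 2 (.node [96,151,152,134] 0 9 .stop
 (.lc 3 3 (.node [151,152,169,134] 9 7 (.lc 2 8 (.lc 3 8 .stop))
 (.node [96,114,167] 6 0 .stop
 (.node [152,154,167,134] 6 9 .stop
 (.node [114,167,186,107,134,152] 8 6 (.node [139,186,167] 8 11 (.far [4112,4096,4112,4096,0,1,4112,0,16,256] 0 (.lc 2 6 (.far [4112,4096,4112,4096,0,1,4112,0,16,256] 0 (.conf [186,203] (.lc 1 7 (.lc 2 7 (.lc 2 7 .stop)))))))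
 (.lc 3 3 (.lc 1 10 (.lc 1 10 (.lc 3 3 (.lc 4 3 (.lc 4 3 .stop)))))))
 (.lc 2 2 (.lc 3 3 (.lc 2 2 (.lc 2 2 (.lc 2 2 (.lc 2 2 (.lc 2 2 (.lc 3 3 (.lc 2 2 (.lc 2 2 (.lc 3 3 (.lc 3 3 (.lc 3 3 (.lc 3 2 (.lc 4 3 (.lc 3 2 (.lc 3 2 (.lc 3 2 (.lc 3 2 (.lc 3 2 (.lc 3 2 (.lc 3 2 (.lc 3 2 (.lc 3 2 (.lc 4 3 (.lc 3 2 (.lc 3 2 (.lc 3 2 (.lc 3 2 (.lc 4 3 (.lc 4 3 (.lc 4 3 (.lc 4 3 (.lc 4 3 (.lc 4 3 (.lc 4 3 (.lc 4 3 (.lc 4 3 (.lc 5 3 (.lc 5 3 (.lc 5 3 .stop))))))))))))))))))))))))))))))))))))))))))))))))))))))))))))))))))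
 (.lc 0 0 (.far [4112,4112,0,0,4112,4112,256] 0 (.lc 0 0 (.node [134,152,49] 6 7 (.node [96,114] 6 0 (.far [257,257,0,16,0,1,4096] 0 (.node [131,144,96] 9 0 (.node [] 7 2 (.lc 2 0 (.node [122] 0 7 .stop
 (.node [123,186,123,162] 7 11 .stop
 .stop)))
 .stop)
 .stop))
 (.node [97,114] 6 1 .stop
 (.lc 1 2 (.lc 2 3 (.node [151,152,134] 6 9 .stop
 (.node [106,114] 8 6 (.far [16,257,0,16,0,1,4096] 0 (.conf [131,154] (.far [16,257,0,16,0,1,4096] 0 (.conf [139,186] (.node [131,154,99] 9 10 (.node [26] 7 2 (.node [112] 10 7 (.far [1,4112,0,0,1,0,0,4112,257] 0 (.lc 3 1 (.lc 3 1 (.node [171,176,171] 10 11 (.node [176] 1 11 .stop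
 (.lc 2 0 .stop))
 (.lc 3 1 .stop)))))
 (.lc 2 2 (.node [123] 10 7 (.far [1,4112,0,0,1,0,0,4112,257] 0 (.lc 3 1 (.node [160,178,114] 10 0 (.node [] 11 2 .stop
 .stop)
 (.node [178,203,114] 10 12 (.node [203] 11 2 (.node [176,203] 12 11 (.node [192] 1 12 (.far [8208,4112,0,16,4112,0,257,256,256,256,0,0,0,0,0,4112] 257 .stop)
 (.lc 3 1 (.conf [205,208] .stop)))
 (.conf [178,192] (.conf [189,208] .stop)))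
 (.lc 2 11 (.far [4112,4096,4112,1,257,0,0,1,4112,256,256] 4097 (.lc 2 11 (.lc 2 11 (.lc 3 11 .stop))))))
 (.lc 4 1 .stop)))))
 (.node [123,176,123] 10 7 (.far [1,4096,4112,4096,4096,4096,0,0,0,0,0,257] 4096 (.lc 3 1 (.lc 1 0 .stop)))
 (.lc 3 2 (.lc 3 2 (.node [123,176,123] 10 7 (.far [1,4112,0,0,1,0,0,4112,257] 0 (.lc 3 1 (.lc 1 0 .stop)))
 (.node [124,203,124,178] 10 7 (.far [1,4112,0,0,1,0,0,4112,257] 0 (.lc 3 1 (.lc 1 11 (.lc 1 11 (.lc 4 1 .stop)))))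
 (.lc 3 2 (.node [123] 10 7 (.node [171] 1 10 (.far [16,257,0,16,4096,4096] 0 (.far [16,257,0,16,4096,4096] 0 (.lc 1 0 .stop)))
 (.lc 3 1 (.node [176,203,114] 10 12 (.far [257,256,257,16,4112,0,0,16,257,4096,4096] 17 (.lc 2 11 (.lc 2 11 .stop)))
 .stop)))
 (.lc 3 2 (.node [124,203,124,176] 10 7 (.node [203] 10 12 (.far [257,257,0,16,4096,4096] 0 (.far [257,257,0,16,4096,4096] 0 .stop))
 (.lc 3 1 (.lc 1 11 .stop)))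
 (.lc 4 2 .stop)))))))))))))
 (.lc 2 7 (.lc 2 7 (.far [4112,4112,0,1,256] 4097 (.conf [167,186] (.lc 2 7 (.lc 2 7 (.lc 3 7 (.lc 3 7 .stop)))))))))
 (.conf [131,167,99] (.conf [131,167,99] .stop)))))))
 (.lc 2 2 (.lc 2 2 (.lc 2 2 (.lc 2 2 (.lc 2 2 (.lc 3 3 (.lc 2 2 (.lc 2 2 (.lc 2 2 (.lc 3 3 (.lc 3 3 (.node [25,114] 6 1 .stop
 (.node [106,114,160,106,134,152] 8 6 (.node [138,160] 10 0 (.node [161] 8 10 .stop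
 (.lc 0 8 (.conf [25,177] .stop)))
 (.lc 3 3 (.lc 1 0 (.lc 3 3 (.lc 4 3 .stop)))))
 (.lc 0 8 (.lc 2 2 (.lc 3 3 (.node [96,114,167] 6 0 .stop
 (.node [114,167,186,107,134,152] 8 6 (.node [139,186,167] 8 11 (.node [155] 9 11 (.node [154] 9 10 (.node [26] 10 7 (.node [114] 1 7 .stop
 (.far [4112,1,257,1,256,256] 4097 .stop))
 (.lc 2 7 (.far [4112,4112,16,4112,0,1,256] 4097 (.conf [167,202] .stop))))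
 (.lc 3 1 (.lc 1 7 (.lc 1 7 (.lc 3 1 (.lc 4 1 (.lc 4 1 .stop)))))))
 (.lc 0 10 (.lc 0 0 (.lc 0 12 (.lc 1 7 (.lc 0 0 (.lc 0 12 .stop)))))))
 (.lc 3 3 (.lc 1 10 (.lc 1 10 (.lc 3 3 (.lc 4 3 (.lc 4 3 .stop)))))))
 (.lc 2 2 (.lc 3 3 (.lc 2 2 (.lc 2 2 (.lc 2 2 (.lc 2 2 (.lc 2 2 (.lc 3 3 (.lc 2 2 (.lc 2 2 (.lc 3 3 (.lc 3 3 (.lc 3 3 (.lc 3 2 (.lc 3 2 (.lc 4 3 (.lc 3 2 (.lc 3 2 (.lc 3 2 (.lc 3 2 (.lc 3 2 (.lc 4 3 (.lc 3 2 (.lc 3 2 (.lc 4 3 (.lc 4 3 (.lc 4 3 (.lc 4 3 (.lc 4 3 (.lc 4 3 (.lc 4 3 (.lc 4 3 (.lc 4 3 (.lc 5 3 (.lc 5 3 (.lc 5 3 .stop))))))))))))))))))))))))))))))))))))))))))))))))))))))))))))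
 (.lc 0 0 (.node [134,152,169,49] 6 7 (.node [96,114] 6 0 (.far [257,257,0,16,0,1,4096] 0 (.far [4112,4112,4112,4096,1,4112,0,16,256] 0 .stop))
 (.lc 1 2 (.lc 2 3 (.node [151,152,134,169] 6 9 .stop
 (.node [167,169,152,134] 6 10 .stop
 (.node [107,114] 8 6 (.far [16,257,0,16,0,1,4096] 0 (.conf [131,155] (.far [16,257,0,16,0,1,4096] 0 (.conf [140,203] (.far [1,4112,4112,4096,1,4112,0,16,256] 0 (.conf [131,183,99] (.conf [131,183,99] .stop)))))))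
 (.lc 2 2 (.lc 2 2 (.lc 2 2 (.lc 3 3 (.lc 2 2 (.lc 2 2 (.lc 2 2 (.lc 2 2 (.lc 2 2 (.lc 2 2 (.lc 3 3 (.lc 3 3 (.node [107,114,176,107,134,152,169] 8 6 (.node [139,176] 11 0 (.node [26] 8 11 .stop
 (.lc 0 9 .stop))
 (.lc 3 3 (.lc 1 0 (.lc 3 3 (.lc 4 3 .stop)))))
 (.lc 2 2 (.lc 3 3 (.lc 0 8 (.node [96,114,183] 6 0 .stop
 (.node [114,183,203,108,134,152,169] 8 6 (.node [140,203,183] 8 12 (.node [156] 9 12 (.far [1,4096,1,4112,4112,4096,1,4112,0,16,256] 0 (.lc 3 8 (.lc 1 7 (.lc 1 7 (.lc 3 8 (.lc 4 8 (.lc 4 8 .stop)))))))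
 (.lc 0 11 (.lc 0 0 (.lc 0 13 (.lc 1 7 (.lc 0 0 (.lc 0 13 .stop)))))))
 (.lc 3 3 (.lc 1 11 (.lc 1 11 (.lc 3 3 (.lc 4 3 (.lc 4 3 .stop)))))))
 (.lc 2 2 (.lc 3 3 (.lc 2 2 (.lc 2 2 (.lc 2 2 (.lc 2 2 (.lc 2 2 (.lc 3 3 (.lc 2 2 (.lc 2 2 (.lc 2 2 (.lc 3 3 (.lc 3 3 (.lc 3 3 (.lc 3 2 (.lc 4 3 (.lc 3 2 (.lc 3 2 (.lc 3 2 (.lc 3 2 (.lc 3 2 (.lc 4 3 (.lc 3 2 (.lc 3 2 (.lc 3 2 (.lc 4 3 (.lc 4 3 (.lc 4 3 (.lc 4 3 (.lc 4 3 (.lc 4 3 (.lc 4 3 (.lc 4 3 (.lc 4 3 (.lc 5 3 (.lc 5 3 (.lc 5 3 .stop)))))))))))))))))))))))))))))))))))))))))))))))))))))))))))))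
 .stop))))))))))
 (.lc 0 0 (.lc 2 7 (.lc 2 7 (.lc 3 1 (.lc 2 7 (.lc 0 0 (.lc 3 1 (.lc 3 1 (.lc 0 0 (.node [56,103,128,56] 0 6 (.node [103] 6 7 (.lc 1 2 .stop)
 (.lc 2 0 .stop))
 (.lc 2 3 (.lc 3 1 (.lc 2 3 (.node [48,103,134] 3 0 (.lc 0 0 .stop)
 (.lc 3 1 (.node [103,134,152,57] 3 9 (.far [4112,4112,0,0,4112,4112,256] 0 (.lc 0 0 (.lc 2 8 (.lc 2 8 (.lc 0 0 (.far [4112,4112,0,0,4112,4112,256] 0 (.lc 0 0 (.lc 2 8 (.lc 0 0 (.lc 3 8 .stop))))))))))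
 (.lc 0 0 (.lc 2 7 (.lc 2 7 (.lc 3 1 (.lc 2 7 (.lc 0 0 (.lc 3 1 (.lc 0 0 (.lc 3 1 (.lc 3 1 (.lc 3 7 (.lc 0 0 (.lc 3 7 (.lc 3 7 (.lc 4 1 (.lc 3 7 (.lc 0 0 (.lc 4 1 (.lc 0 0 (.lc 4 1 (.lc 0 0 (.lc 4 1 (.lc 0 0 (.lc 4 1 (.lc 0 0 (.lc 4 1 (.lc 0 0 (.lc 5 1 .stop))))))))))))))))))))))))))))))))))))))))))))))))
 (.conf [32,112,54,103] (.conf [32,120,54,103] (.far [16,256,16,4096] 17 (.conf [32,120,130] (.far [1,4096,1,256] 0 (.conf [32,130] (.conf [32,120,54,103] (.conf [32,121,130,152] .stop)))))))))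
 (.conf [66,83] (.conf [66,83] (.conf [66,83] (.conf [66,87] (.conf [66,88] (.conf [66,88] (.conf [66,81] (.conf [66,88] (.conf [66,88] (.conf [66,80] (.conf [66,81] (.conf [66,89] (.conf [66,83] (.conf [66,83] (.conf [66,83] (.conf [66,83] (.conf [66,83] (.conf [66,83] (.node [66,97,54] 4 2 (.far [4112,4096,1,256] 0 .stop)
 (.node [66,103,112,54] 0 4 (.far [1,4096,1,256] 0 .stop)
 (.node [66,103,113,54] 1 4 .stop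
 (.node [66,96,116,54] 6 0 (.lc 2 1 (.lc 1 0 (.lc 3 8 (.lc 1 0 .stop))))
 (.node [66,97,116,54] 6 1 .stop
 (.node [66,104,135,54] 7 4 (.lc 0 0 (.lc 1 0 (.lc 1 0 (.lc 1 0 (.lc 1 0 (.far [1,4096,1,256] 0 (.lc 1 0 (.lc 2 0 (.lc 2 0 .stop)))))))))
 (.node [66,97,54] 4 2 (.node [] 3 6 (.lc 2 7 (.lc 3 8 .stop))
 .stop)
 (.node [66,103,112,54] 0 4 (.node [] 3 6 (.lc 1 7 (.lc 2 8 (.node [112] 1 7 (.far [16,16,0,1,4096] 0 (.node [24,112,135] 1 8 .stop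
 (.lc 2 0 (.node [25,112,135,152,135] 1 9 .stop
 (.lc 2 0 (.lc 3 0 .stop))))))
 (.lc 3 8 (.lc 3 1 (.lc 2 7 (.lc 3 9 (.lc 1 0 (.lc 3 8 (.lc 3 1 (.lc 3 1 (.lc 2 0 (.lc 4 9 (.lc 4 1 (.lc 4 1 (.lc 4 1 (.lc 4 1 (.lc 5 1 .stop))))))))))))))))))
 .stop)
 (.node [66,103,113,54] 1 4 .stop
 (.node [66,96,116,54] 6 0 (.lc 2 1 (.lc 2 8 (.lc 2 7 (.lc 1 0 (.lc 0 8 (.lc 3 8 (.lc 3 9 (.lc 2 7 (.lc 2 7 (.lc 1 0 (.lc 3 7 .stop)))))))))))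
 (.node [66,97,116,54] 6 1 (.lc 2 8 (.lc 3 9 .stop))
 (.node [66,104,116,54] 7 4 (.lc 0 0 (.lc 1 0 (.lc 1 0 (.lc 1 0 (.lc 1 0 (.lc 3 0 (.lc 1 0 (.lc 2 0 (.lc 2 0 .stop)))))))))
 (.node [66,83,97,54] 4 2 (.far [257,256,16,4096] 4097 .stop)
 (.node [66,83,103,112,103,54] 0 4 (.far [16,256,16,4096] 0 .stop)
 (.node [66,83,103,113,103,54] 1 4 .stop
 (.node [66,83,96,116,54] 7 4 (.conf [32,114] (.lc 3 8 (.conf [32,120,130] (.lc 3 8 (.lc 4 9 .stop)))))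
 (.node [66,83,97,116,54] 1 7 (.lc 2 3 (.lc 3 3 (.lc 3 3 (.lc 3 3 (.lc 4 3 .stop)))))
 (.node [66,83,104,135,104,54] 7 4 (.lc 0 0 (.lc 1 0 (.lc 1 0 (.lc 1 0 (.lc 1 0 (.lc 3 0 (.lc 1 0 (.lc 2 0 (.lc 2 0 .stop)))))))))
 (.node [66,103,113,54] 4 2 (.node [] 3 6 (.lc 2 8 (.lc 3 8 (.lc 3 9 (.lc 3 8 (.lc 4 9 .stop)))))
 .stop)
 (.node [66,104,135,54,112] 0 4 (.node [] 3 6 (.lc 1 8 (.lc 2 9 (.lc 1 7 (.lc 3 9 (.lc 3 1 (.lc 2 8 (.lc 3 10 (.node [135] 8 7 (.lc 0 7 (.lc 0 9 (.lc 0 9 (.lc 0 9 (.lc 0 10 .stop)))))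
 (.lc 3 9 (.lc 3 1 (.lc 3 1 (.node [135,152] 9 8 (.node [112] 9 7 (.lc 1 0 (.lc 0 10 (.lc 2 0 (.far [256,16,16,0,1,4096] 0 .stop))))
 (.lc 1 0 (.lc 1 0 (.lc 3 10 (.lc 2 0 .stop)))))
 (.lc 4 10 (.lc 4 1 (.lc 4 1 (.lc 4 1 (.lc 4 1 (.lc 5 1 .stop))))))))))))))))))
 .stop)
 (.node [66,104,135,54,113] 1 4 .stop
 (.node [66,97,116,54] 7 4 (.lc 0 0 (.lc 1 0 (.lc 1 0 (.lc 1 0 (.lc 2 0 .stop)))))
 (.node [66,104,116,128,54] 7 4 (.lc 0 0 (.lc 1 0 (.lc 1 0 (.lc 1 0 (.lc 2 0 .stop)))))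
 (.node [66,104,116,129,54] 1 3 (.lc 1 6 (.lc 2 7 (.lc 2 6 (.lc 3 7 .stop))))
 (.node [66,96,116,135,54] 6 0 (.lc 2 1 (.lc 1 0 (.lc 3 9 (.lc 1 0 .stop))))
 (.node [66,97,116,135,54] 6 1 .stop
 (.node [66,105,116,135,54] 7 4 (.lc 0 0 (.lc 1 0 (.lc 1 0 (.lc 1 0 (.lc 1 0 (.lc 3 0 (.lc 1 0 (.lc 2 0 (.lc 2 0 .stop)))))))))
 .stop))))))))))))))))))))))))))))))))))))))))))))))))))))))))))))))))))))))))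
 (.lc 0 0 (.conf [84,96,54] (.node [84,101,66,48] 3 0 (.node [16] 5 4 (.far [4112,4112,4096,16,256] 0 (.lc 2 2 (.far [4112,4112,4096,16,256] 0 (.lc 2 2 (.lc 3 2 .stop)))))
 .stop)
 (.node [49,84,101,66] 5 4 (.far [4112,4096,16,256] 0 (.lc 2 2 (.lc 2 2 (.far [4112,4096,16,256] 0 (.far [4112,4096,16,256] 0 (.lc 2 2 (.lc 2 2 (.lc 3 2 (.lc 3 2 (.lc 3 2 .stop))))))))))
 (.conf [55,84,101,118] (.node [54,84,96,66] 0 5 .stop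
 (.conf [48,84,101] (.conf [55,84,101] (.lc 0 0 (.node [54,96,54,84,66] 0 5 .stop
 (.node [84,101,84,66,48] 3 0 (.lc 0 0 .stop)
 (.conf [49,84] (.node [55,118,55,84,66] 3 7 (.lc 2 0 (.far [4112,4112,4112,256] 0 (.lc 2 8 (.lc 0 0 (.lc 3 8 (.lc 3 0 (.lc 2 6 (.lc 3 9 (.lc 0 0 (.lc 3 1 (.lc 0 0 (.lc 3 8 (.lc 3 0 (.far [4112,4112,4112,256] 0 (.lc 3 9 (.lc 0 0 (.lc 3 8 (.lc 3 0 (.lc 2 6 (.lc 3 9 (.lc 0 0 (.lc 3 1 (.lc 0 0 (.lc 3 1 (.lc 4 9 (.lc 0 0 (.lc 4 9 (.lc 4 0 (.lc 3 6 (.lc 4 10 (.lc 0 0 (.lc 4 1 (.lc 0 0 (.lc 4 1 (.lc 0 0 (.lc 4 1 (.lc 0 0 (.lc 4 1 (.lc 0 0 (.lc 5 1 .stop))))))))))))))))))))))))))))))))))))))))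
 (.conf [16,49] (.node [84,66,54] 0 5 .stop
 (.node [84,101,66,48] 3 0 (.node [16] 6 5 (.node [66] 6 4 (.lc 1 2 (.lc 3 7 (.lc 2 2 (.lc 2 2 (.lc 1 0 (.far [1,257,4112,4096,0,257] 4096 (.lc 2 0 .stop)))))))
 (.lc 1 2 (.lc 1 2 (.lc 3 7 (.lc 2 2 .stop)))))
 (.lc 2 7 (.lc 3 8 .stop)))
 (.node [49,84,101,66] 6 5 (.node [66] 6 4 (.lc 1 2 (.lc 1 2 (.lc 3 0 (.lc 1 0 (.lc 2 2 (.lc 0 7 (.lc 2 2 (.lc 2 2 (.lc 2 2 (.lc 1 0 (.lc 1 0 (.lc 0 0 (.lc 0 7 (.lc 2 0 (.lc 2 0 (.lc 0 0 (.lc 0 8 .stop)))))))))))))))))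
 (.lc 1 2 (.lc 1 2 (.lc 1 2 (.lc 1 2 (.lc 3 0 (.lc 3 7 (.lc 2 2 (.lc 2 2 (.lc 2 2 .stop))))))))))
 (.node [84,101,66,55] 6 5 (.node [66] 6 4 (.lc 1 2 (.lc 1 2 (.lc 1 2 (.lc 3 0 (.lc 3 8 (.lc 2 2 (.lc 2 2 (.lc 2 2 (.lc 2 2 (.lc 2 2 (.lc 2 2 (.lc 2 2 (.lc 2 2 (.lc 2 2 (.lc 3 0 (.lc 1 0 (.node [32] 3 7 (.lc 2 0 (.node [114] 7 2 (.lc 2 0 (.lc 2 8 (.lc 3 8 (.lc 3 8 (.lc 3 9 (.lc 3 8 (.lc 4 9 .stop)))))))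
 (.lc 2 8 (.lc 0 0 (.lc 3 8 (.lc 3 0 (.lc 2 2 (.lc 3 9 (.lc 3 1 (.lc 3 1 (.lc 0 0 (.lc 3 8 (.lc 3 0 (.far [4112,0,1,4112,4112,256] 0 (.lc 3 9 (.lc 2 2 (.lc 3 8 (.lc 3 0 (.lc 2 2 (.lc 3 9 (.lc 3 1 (.lc 3 1 (.lc 0 0 (.lc 3 1 (.lc 4 9 (.lc 0 0 (.lc 4 9 (.lc 4 0 (.lc 3 2 (.lc 4 10 (.lc 0 0 (.lc 4 1 (.lc 0 0 (.lc 4 1 (.lc 0 0 (.lc 4 1 (.lc 4 1 (.lc 4 1 (.lc 0 0 (.lc 5 1 .stop))))))))))))))))))))))))))))))))))))))))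
 (.lc 2 2 (.lc 2 2 (.lc 2 2 (.lc 4 8 (.lc 2 0 (.lc 3 2 (.lc 3 2 (.lc 3 2 (.lc 3 2 (.lc 3 2 (.lc 3 2 (.lc 0 0 (.lc 0 8 (.lc 0 0 (.lc 2 0 (.far [256,0,16,4096] 17 (.lc 2 0 (.lc 0 8 (.lc 3 0 .stop))))))))))))))))))))))))))))))))))))
 (.lc 1 2 (.lc 1 2 (.lc 1 2 (.lc 1 2 (.lc 1 2 (.lc 1 2 (.lc 3 0 (.lc 3 1 (.lc 3 8 (.lc 2 2 (.lc 2 2 (.lc 2 2 (.lc 2 2 (.lc 2 2 (.lc 2 2 .stop))))))))))))))))
 (.conf [54,84] (.conf [48,84] (.conf [55,84] (.node [54,84,96,66] 0 5 (.node [84] 5 4 (.node [66,116] 3 6 (.far [4112,4112,1,1,272,256] 0 (.lc 2 0 (.lc 2 0 (.conf [96,134] (.lc 2 0 (.lc 3 0 .stop))))))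
 (.lc 2 2 (.lc 2 2 (.lc 0 1 (.lc 0 8 (.lc 2 2 (.lc 2 2 (.lc 3 2 (.lc 3 2 (.lc 3 2 .stop))))))))))
 (.lc 2 0 (.conf [84,117] (.lc 1 2 (.lc 2 2 .stop)))))
 (.node [48,84,66] 3 0 (.lc 0 0 .stop)
 (.node [55,84,118,66] 3 7 (.node [118] 5 4 (.node [66,80] 5 0 (.far [4112,4112,4112,1,272,256] 0 (.lc 0 1 (.lc 0 1 (.lc 0 8 (.node [] 1 7 .stop
 (.lc 0 8 .stop))))))
 (.node [66,81] 5 1 .stop
 (.node [66,88] 6 5 (.far [1,4112,4112,1,272,256] 0 (.lc 3 0 (.lc 3 1 (.lc 3 9 (.lc 1 4 (.lc 1 4 (.lc 3 0 (.lc 3 9 (.lc 4 1 (.lc 4 9 (.lc 4 0 (.lc 4 10 .stop))))))))))))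
 (.lc 2 2 (.lc 2 2 (.lc 2 2 (.lc 2 2 (.lc 2 2 (.lc 3 3 (.lc 3 3 (.node [66,81] 5 1 .stop
 (.conf [88,128] (.conf [66,132] (.conf [66,132] (.lc 2 2 (.lc 2 2 (.lc 2 2 (.lc 2 2 (.lc 2 2 (.lc 2 2 (.lc 2 2 (.lc 2 2 (.lc 3 3 (.lc 3 3 (.lc 3 3 (.lc 3 2 (.lc 3 2 (.lc 3 2 (.lc 3 2 (.lc 3 2 (.lc 3 2 (.lc 4 3 (.lc 4 3 (.lc 4 3 (.lc 4 3 (.lc 3 2 (.lc 3 2 (.lc 3 2 (.lc 3 2 (.lc 3 2 (.lc 3 2 (.lc 3 2 (.lc 3 2 (.lc 3 2 (.lc 3 2 (.lc 3 2 (.lc 3 2 (.lc 3 2 (.lc 3 2 (.lc 4 2 (.lc 4 2 (.lc 4 2 (.lc 4 2 (.lc 4 2 (.lc 4 2 .stop)))))))))))))))))))))))))))))))))))))))))))))))))))))))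
 (.lc 0 0 (.lc 2 6 (.lc 0 0 (.conf [118,135] (.lc 0 0 (.lc 2 6 (.lc 0 0 (.lc 3 6 .stop)))))))))
 (.conf [84,118,55] (.lc 0 0 (.conf [84,112,55] (.node [84,101,118,66,48] 3 0 (.node [16] 6 5 (.far [1,4112,4112,4112,256] 0 (.lc 1 2 (.lc 1 2 (.lc 3 8 (.lc 2 2 .stop)))))
 .stop)
 (.node [49,84,101,118,66] 6 5 (.far [1,4112,4112,256] 0 (.lc 1 2 (.lc 1 2 (.lc 1 2 (.lc 1 2 (.lc 3 0 (.lc 3 8 (.lc 2 2 (.lc 2 2 (.lc 2 2 .stop))))))))))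
 (.conf [56,84,101,118,135] (.node [55,84,118,66,96] 0 5 .stop
 (.conf [55,84,101] (.conf [48,84,101] (.conf [56,84,101] (.conf [55,84] (.conf [55,84] (.conf [48,84] (.conf [56,84] (.conf [55,84] (.conf [55,84] (.conf [48,84] (.conf [56,84] (.conf [55,84] (.conf [55,84] (.conf [48,84] (.conf [56,84] (.conf [56,84] (.conf [56,84] (.conf [56,84] (.conf [48,84] (.conf [57,84] .stop))))))))))))))))))))))))))))))))))))))))))))))))))))))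

theorem t16 : kNode2 awTt FTt 3 5 (check tyTt awTt triet FTt [] c16) (fun _ _ _ => true) 0 s16 Pl.nil s16 =
    true := by
  decide +kernel

end Chk
end Pool.Agent.Lib.MP_ba95e8_co
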