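import Pool.Agent.Lib.MP_ba95e8_co.ChkTab
import Pool.Agent.Lib.MP_ba95e8_co.ChkStates

/-!
Deltahedral domes: part 17 of the case analysis.
-/

namespace Pool.Agent.Lib.MP_ba95e8_co
namespace Chk

/-- certificate number 17 -/
def c17 : Cert := (.far [257,257,4096] 17 (.node [] 3 5 (.far [257,257,257,4096] 17 (.node [54] 3 6 (.far [257,257,257,257,4096] 17 (.node [101,118,84,49] 6 5 (.lc 1 3 (.node [84,104,118] 7 6 (.far [16,257,256,1,257,257,4096] 17 (.lc 1 5 (.lc 1 5 (.lc 1 5 (.node [121,152] 7 9 (.node [64,116,152] 7 4 (.far [4112,4112,1,4112,1,256] 4097 .stop)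
 (.node [122,152] 1 7 (.far [1,4112,1,4112,1,256] 0 (.lc 1 9 (.lc 1 9 (.lc 2 9 .stop))))
 (.lc 2 8 (.lc 2 8 (.lc 2 8 (.lc 3 1 (.conf [152,169] (.lc 2 8 (.lc 2 8 (.lc 2 8 (.lc 3 1 (.lc 3 1 (.lc 3 1 (.lc 3 1 (.lc 3 8 (.lc 4 1 (.lc 4 1 (.lc 4 1 (.lc 4 1 (.lc 4 1 (.lc 4 1 (.lc 5 1 .stop))))))))))))))))))))))
 (.lc 2 5 .stop))))))
 (.lc 2 4 (.lc 2 3 (.conf [99,133,84] (.lc 2 3 (.conf [105,152] (.lc 2 4 (.lc 2 4 (.lc 2 3 (.conf [99,120] (.lc 3 4 (.lc 3 3 (.conf [99,121] (.lc 3 4 (.lc 3 4 (.lc 3 4 (.lc 4 4 .stop))))))))))))))))))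
 (.node [118,101] 7 6 (.node [64,101,116] 4 6 (.lc 0 3 .stop)
 (.lc 1 3 (.node [101,120] 1 7 (.node [120,101] 0 7 (.lc 1 6 .stop)
 (.node [20,64,120,101] 4 7 (.lc 1 6 .stop)
 (.node [21,84,120,101] 5 7 .stop
 (.node [25,120,101] 7 8 (.far [257,16,257,8208,4112,4112,4112,513] 4096 (.lc 2 6 (.lc 2 6 (.lc 2 6 (.lc 0 10 (.lc 2 6 (.lc 3 6 (.lc 3 6 .stop))))))))
 (.conf [25,113] (.conf [71,120] (.conf [120,151] (.conf [71,120] (.conf [20,64] (.conf [120,151] (.far [257,257,4096,0,0,0,257] 16 (.conf [20,113] (.conf [21,113] (.conf [25,113] (.conf [16,113] (.far [4112,0,4112,4112,4112,4096,257] 4096 (.conf [72,134] (.conf [20,64] (.conf [26,113] (.conf [120,151] (.conf [16,113] (.conf [16,113] (.conf [16,113] (.conf [16,113] (.conf [16,113] .stop)))))))))))))))))))))))))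
 (.conf [70,120,132] (.conf [101,121,152] (.conf [70,101] (.lc 2 3 (.conf [72,101,134] (.conf [101,121,134,152] (.lc 2 3 (.node [101,134,101,121,49,84] 8 6 (.lc 1 5 (.conf [84,133] (.lc 1 5 (.lc 1 3 (.lc 2 3 (.lc 2 5 (.lc 1 4 (.lc 2 5 (.lc 2 5 (.lc 1 4 (.lc 2 5 (.lc 1 4 (.lc 1 3 (.lc 2 3 (.lc 2 5 (.lc 1 3 (.lc 3 10 (.lc 2 5 (.lc 2 4 (.lc 2 4 (.lc 3 5 (.lc 2 3 (.lc 3 3 (.lc 2 4 (.lc 2 4 (.lc 3 4 .stop))))))))))))))))))))))))))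
 (.node [70,101,112] 4 6 (.lc 0 3 .stop)
 (.node [64,101,116,134] 7 4 (.far [1,257,4096,0,0,16,256] 0 (.lc 3 1 (.lc 3 1 .stop)))
 (.node [101,121,134,84] 8 6 (.node [133] 8 5 (.lc 1 3 (.node [84,138] 9 8 (.far [16,257,256,16,16,4096] 0 (.lc 1 5 (.lc 1 5 (.lc 1 5 (.node [155,186] 10 5 (.node [164] 7 9 (.node [124,155] 9 11 (.far [4112,1,0,1,4112,4112,258] 0 (.lc 2 10 (.lc 0 13 (.lc 2 10 (.lc 3 10 .stop)))))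
 (.lc 2 7 (.lc 3 1 (.conf [155,201] (.lc 2 7 (.lc 3 1 (.lc 3 1 (.lc 3 7 (.lc 4 1 (.lc 4 1 .stop))))))))))
 (.lc 3 12 (.lc 3 5 (.far [16,0,16,4096,0,0,16,4096] 0 (.lc 3 12 (.lc 4 13 .stop))))))
 (.lc 2 5 .stop))))))
 (.lc 2 3 (.lc 2 3 (.lc 3 5 (.lc 2 3 (.conf [139,186] (.lc 2 3 (.lc 2 3 (.lc 2 3 (.lc 3 5 (.lc 3 3 (.lc 3 3 (.lc 4 5 (.lc 3 3 (.lc 3 3 (.lc 3 3 (.lc 4 3 .stop))))))))))))))))))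
 (.lc 1 4 (.lc 1 4 (.lc 1 3 (.lc 3 10 (.lc 2 4 .stop))))))
 (.conf [101,112] (.conf [101,120] (.conf [101,116] (.conf [101,121] (.conf [70,120,132] (.lc 1 3 (.lc 2 3 (.node [121,152,101,84] 7 9 (.conf [25,152] (.lc 2 8 (.lc 2 8 (.lc 3 8 .stop))))
 (.conf [101,122,169] (.lc 3 3 (.conf [101,122,134,152,169] (.conf [101,121] (.conf [101,122] (.conf [101,120] (.conf [101,121] (.conf [101,122] (.conf [101,112] (.conf [101,116] (.conf [101,122] (.conf [101,123] .stop))))))))))))))))))))))))))))))))))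
 (.far [257,257,257,257,4096] 17 (.node [101,118,135,84,49] 7 6 (.node [64,101,116,135] 4 6 (.lc 0 3 .stop)
 (.node [101,121,135] 6 5 (.far [257,16,256,1,257,257,4096] 17 (.lc 2 4 (.lc 2 3 (.lc 0 10 (.lc 2 4 (.lc 3 4 .stop))))))
 (.lc 1 3 (.conf [99,121] (.conf [70,101] (.conf [101,116] (.conf [101,122] (.conf [101,150] (.lc 1 4 (.lc 1 3 (.node [99,121,135,84] 8 7 (.conf [137,149] (.lc 3 4 (.lc 3 10 (.lc 1 5 (.lc 3 10 (.lc 4 11 .stop))))))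
 (.conf [101,121] (.conf [101,122] (.lc 2 4 (.conf [101,123] (.lc 2 3 (.conf [99,149,84] (.lc 2 4 (.lc 2 4 (.lc 3 4 .stop))))))))))))))))))))
 .stop)))))
 (.node [84,101,64,49] 5 4 (.lc 1 0 (.node [64,87,49,101] 6 5 (.far [16,257,256,1,257,4096] 17 (.lc 1 4 (.lc 1 4 (.node [104,135] 6 8 (.node [105,135] 1 6 (.far [1,4112,1,4112,1,256] 0 (.lc 1 8 (.lc 1 8 .stop)))
 (.lc 2 7 (.lc 3 1 (.conf [135,152] (.lc 2 7 (.lc 3 1 (.lc 3 1 (.lc 3 1 (.lc 3 7 (.lc 4 1 (.lc 4 1 (.lc 4 1 .stop))))))))))))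
 (.lc 2 4 .stop)))))
 (.lc 2 0 (.node [83,116,49,64,103] 7 4 (.conf [1,112] (.lc 1 0 (.lc 2 0 (.lc 0 6 (.lc 2 0 (.lc 2 0 (.lc 0 6 (.lc 0 6 (.lc 2 0 (.lc 3 8 (.lc 2 0 (.lc 3 0 (.lc 3 0 (.lc 1 6 .stop))))))))))))))
 (.conf [88,135] (.lc 2 0 (.lc 2 0 (.lc 2 0 (.conf [83,103] (.lc 3 0 (.conf [83,104] (.lc 3 0 (.lc 3 0 (.lc 3 0 (.lc 4 0 .stop)))))))))))))))
 (.conf [84,118,55] (.conf [49,84,101] (.node [101,84] 6 5 (.conf [83,100] (.node [84,103,49,64] 1 6 (.node [103,84,49,64] 0 6 (.lc 0 7 .stop)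
 (.node [20,64,103,84,49] 4 6 .stop
 (.node [24,103,84,49,64] 6 7 (.far [257,16,257,8208,4112,4112,513] 4096 (.lc 2 5 (.lc 2 5 (.lc 0 9 (.lc 2 5 (.lc 3 5 .stop))))))
 (.conf [24,97] (.lc 3 0 (.lc 3 0 (.lc 1 6 (.conf [103,134] (.conf [117,84,7,64] (.conf [20,97] (.conf [24,97] (.lc 3 0 (.lc 3 0 (.lc 1 7 (.conf [25,97] (.lc 4 0 (.lc 4 0 (.lc 4 0 (.lc 4 0 (.lc 4 0 (.lc 5 0 .stop)))))))))))))))))))))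
 (.conf [84,104,135] (.conf [64,83] (.conf [84,104,117,135] (.conf [64,83] (.node [84,117,84,104,49,64] 7 5 (.far [16,16,16,4096] 0 (.lc 1 4 (.lc 2 3 (.lc 1 0 (.lc 2 4 (.lc 1 0 (.lc 2 4 (.lc 1 0 (.lc 1 0 (.lc 2 3 (.lc 3 9 (.lc 2 4 (.lc 2 0 (.lc 2 0 (.lc 3 4 (.lc 3 3 (.lc 2 0 (.lc 2 0 (.lc 3 0 .stop)))))))))))))))))))
 (.node [84,104,117,49,64] 7 5 (.node [116,64] 7 4 (.lc 1 0 (.node [64,121] 8 7 (.far [16,257,256,16,16,4096] 0 (.lc 1 4 (.lc 1 4 (.node [138,169] 4 0 (.far [4112,0,1,256,0,0,1,256] 17 (.lc 0 1 (.lc 0 11 .stop)))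
 (.lc 2 4 .stop)))))
 (.lc 2 0 (.lc 3 4 (.conf [122,169] (.lc 2 0 (.lc 2 0 (.lc 2 0 (.lc 3 4 (.lc 4 4 (.lc 3 0 (.lc 3 0 .stop))))))))))))
 (.lc 1 0 (.lc 1 0 (.lc 3 9 (.lc 2 0 .stop)))))
 (.conf [84,104] (.conf [83,116,64] (.node [104,135,84,49,64] 6 8 (.conf [24,135] (.lc 0 0 (.lc 2 7 (.lc 1 1 .stop))))
 (.conf [84,105,152] (.conf [64,83] (.conf [84,105,117,135,152] (.conf [84,105] (.conf [84,105] (.conf [84,105] (.conf [84,106] .stop))))))))))))))))))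
 (.node [55,118,55,101] 3 7 (.node [118] 7 6 (.node [64,101,116] 7 4 (.far [16,4112,0,16,4112,4096] 256 .stop)
 (.node [101,120] 7 8 (.far [4112,4112,8208,4112,4112,4112,513] 4096 (.lc 2 6 (.lc 2 6 (.lc 2 6 (.far [4112,4112,8208,4112,4112,4112,513] 4096 (.lc 2 6 (.lc 3 6 (.lc 3 6 .stop))))))))
 (.conf [101,120] (.conf [101,121] (.conf [101,113] (.conf [101,134] (.conf [70,101] (.conf [101,116] (.conf [101,121] (.far [1,4096,0,0,0,257] 16 (.node [64,101,113,20] 4 6 (.lc 0 3 .stop)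
 (.node [101,113,84,24] 6 5 (.node [84] 8 5 (.lc 2 1 (.lc 1 3 (.node [84,137] 5 4 (.far [257,16,16,0,0,16,4096] 0 (.conf [64,83,154] (.node [154,164,64,83] 1 8 (.far [257,0,0,0,1,4096,0,0,0,257] 16 (.lc 1 1 (.node [164,168,154] 10 8 .stop
 (.node [137] 8 9 (.far [4112,1,0,4112,256,257] 0 (.conf [149,164] (.conf [154,201] (.node [149,164,186,129] 10 4 (.node [64] 11 4 (.node [176] 1 11 (.far [1,4112,256,256,256] 0 .stop)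
 (.lc 3 1 .stop))
 (.lc 2 0 (.lc 0 12 .stop)))
 (.conf [149,188,129] .stop)))))
 (.lc 2 1 (.node [137,184,11,137,154,164] 8 9 (.node [154,185] 11 9 (.far [1,1,0,4112,258,8192,8192,8192,0,16,4112,513] 4096 (.lc 1 4 .stop))
 (.lc 2 5 (.lc 0 12 (.lc 2 5 (.lc 3 5 .stop)))))
 (.lc 2 1 (.node [137,184,203,137,154,164] 8 9 (.node [154,185,203] 11 9 (.far [1,1,0,4112,258,8192,8192,8192,0,16,4112,513] 4096 (.lc 1 4 (.lc 1 4 (.lc 3 8 (.lc 2 4 .stop)))))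
 (.lc 2 5 (.lc 0 13 (.lc 2 5 (.lc 3 5 .stop)))))
 (.lc 2 1 (.lc 2 1 (.far [257,0,0,257,257,0,1,257,256] 17 (.lc 3 1 (.lc 2 8 (.lc 3 1 .stop))))))))))))))
 (.far [257,16,16,0,0,16,4096] 0 (.conf [64,83,155] .stop)))))
 (.lc 2 3 (.lc 2 3 (.lc 3 10 (.lc 2 3 (.node [84,149,169,84,64] 5 4 (.far [257,16,16,0,0,16,4096] 0 (.lc 2 0 (.lc 0 11 (.lc 2 0 (.lc 3 0 .stop)))))
 (.lc 2 3 (.lc 2 3 (.lc 1 0 (.lc 2 3 (.lc 2 3 (.lc 3 10 (.lc 3 3 (.lc 3 3 (.lc 4 11 (.lc 3 3 (.lc 3 3 (.lc 3 3 (.lc 4 3 .stop)))))))))))))))))))))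
 (.lc 2 4 (.lc 2 3 (.lc 0 9 (.lc 2 4 (.lc 3 4 .stop))))))
 (.conf [101,113] (.conf [101,113] (.conf [101,113] (.conf [101,122] (.conf [70,101] (.conf [101,113] (.far [1,1,257,257,256] 17 (.conf [101,132,70] (.conf [25,101,134,152] (.conf [70,101] (.node [101,113,134,84,8] 6 5 (.conf [84,133] (.lc 2 4 (.lc 2 3 (.lc 0 9 (.lc 2 4 (.lc 3 4 .stop))))))
 (.conf [72,101,134] (.node [25,101,113,134,152,84] 6 5 (.conf [84,133] (.lc 2 4 (.lc 2 3 (.lc 0 10 (.lc 2 4 (.lc 3 4 .stop))))))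
 (.conf [70,101] (.conf [113,152,25] (.conf [72,101,134] (.conf [26,101,134,152,169] .stop)))))))))))))))))))))))))))))
 (.lc 2 6 (.node [118,135,118,101,84] 8 7 (.lc 1 6 (.lc 1 6 (.lc 1 5 (.lc 2 6 (.lc 2 6 (.lc 2 6 (.lc 2 6 (.conf [101,132,70] (.node [101,137] 6 5 (.conf [84,149] (.lc 2 4 (.lc 2 3 (.conf [84,165] (.lc 2 4 (.lc 3 4 .stop))))))
 (.lc 1 5 (.lc 1 5 (.lc 2 6 (.lc 2 6 (.node [101,138,150] 6 5 (.conf [84,149] (.lc 2 4 (.lc 2 3 (.lc 0 11 (.lc 2 4 (.lc 3 4 .stop))))))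
 (.lc 3 6 (.lc 2 5 (.lc 4 9 (.lc 4 10 (.lc 4 0 (.lc 4 4 (.lc 4 10 (.lc 5 11 .stop))))))))))))))))))))))
 (.lc 2 6 (.lc 3 6 .stop)))))
 (.far [257,257,257,4096] 17 (.node [84,101,64,55] 3 7 (.far [257,257,257,257,4096] 17 (.lc 2 6 (.node [135] 6 5 (.node [84,104,135] 8 5 .stop
 (.node [84,105] 5 4 (.node [64] 7 6 (.lc 2 3 (.node [105,122] 6 9 (.node [148] 7 10 (.far [257,257,256,257,256,256,0,1,257,4096] 17 (.lc 1 6 (.node [123,169,135] 8 7 (.far [16,257,257,256,257,256,256,0,1,257,4096] 17 (.lc 3 12 (.lc 1 10 (.lc 3 12 (.lc 4 13 .stop)))))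
 (.lc 2 9 (.lc 2 9 (.lc 3 3 (.conf [139,169,186] (.conf [124,203] (.lc 2 9 (.lc 2 9 (.lc 3 3 (.lc 3 3 (.lc 3 3 (.lc 3 9 (.lc 3 9 (.lc 4 3 (.lc 4 3 (.lc 4 3 (.lc 4 3 (.lc 5 3 .stop))))))))))))))))))))
 (.lc 2 4 (.lc 2 4 (.lc 0 11 (.lc 2 4 (.lc 3 4 .stop))))))
 (.lc 2 5 (.lc 2 5 (.lc 3 11 (.lc 3 3 (.conf [105,166] (.lc 2 5 (.lc 2 5 (.lc 2 5 (.lc 2 5 (.lc 3 11 (.lc 3 5 (.lc 3 5 (.lc 4 12 (.lc 3 5 (.lc 3 5 (.lc 3 5 (.lc 4 5 .stop)))))))))))))))))))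
 (.lc 2 0 (.lc 2 0 (.lc 0 10 (.lc 2 0 (.lc 3 0 .stop))))))
 (.conf [83,105] (.conf [84,104] (.conf [84,106] (.conf [84,149] (.lc 1 0 (.lc 1 0 (.lc 1 0 (.conf [104,132] (.node [83,105,118,135,64] 7 6 (.node [121] 9 4 (.lc 1 0 (.lc 2 4 (.node [132,135] 8 4 (.node [16,135] 8 7 (.lc 1 3 .stop)
 .stop)
 (.node [64,154] 4 0 (.far [4112,1,0,257,0,0,1,256] 17 (.conf [24,161] (.far [4112,1,0,257,0,0,1,256] 17 (.conf [16,135] .stop))))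
 (.lc 2 0 (.lc 2 0 (.lc 3 8 (.lc 3 11 (.lc 0 3 (.node [64,164,186,64] 10 4 (.node [160] 7 9 (.lc 2 3 (.lc 1 4 (.node [124,155] 9 11 (.far [4112,1,1,4096,256,256,0,0,1,256] 17 (.lc 2 10 (.lc 2 10 (.lc 0 13 (.lc 2 10 (.lc 3 10 .stop))))))
 (.lc 3 3 (.lc 2 4 (.lc 3 3 (.lc 3 3 (.lc 3 3 (.lc 2 4 (.lc 3 3 (.conf [155,201] (.lc 3 3 (.lc 2 4 (.lc 3 3 (.lc 3 3 (.lc 3 3 (.lc 4 3 (.lc 3 4 (.lc 4 3 (.lc 4 3 (.lc 4 3 (.lc 4 3 (.lc 4 3 (.lc 5 3 .stop))))))))))))))))))))))))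
 (.lc 3 1 (.lc 3 12 (.lc 4 8 .stop))))
 (.lc 2 0 (.lc 2 0 (.lc 2 0 (.lc 2 0 (.lc 2 0 (.lc 3 8 (.lc 3 10 (.lc 3 11 (.lc 3 0 (.lc 3 0 (.lc 4 12 (.lc 3 0 (.lc 3 0 (.lc 3 0 (.lc 3 0 (.lc 3 0 (.lc 4 0 .stop)))))))))))))))))))))))))))
 (.lc 3 10 (.lc 3 3 (.lc 1 4 (.lc 3 10 (.lc 4 11 .stop))))))
 (.conf [84,104] (.conf [84,105] (.conf [84,106] (.lc 2 0 (.conf [84,107] (.conf [83,148,64] (.lc 2 0 (.lc 2 0 (.lc 2 0 (.lc 2 0 (.lc 2 0 (.lc 3 0 .stop)))))))))))))))))))))))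
 (.lc 2 6 (.lc 3 6 .stop)))))
 (.node [49,84,101,64] 5 4 (.lc 1 0 (.node [64,87] 6 5 (.far [16,257,256,1,257,4096] 0 (.lc 1 4 (.lc 1 4 (.node [104,135] 6 8 (.node [105,135] 1 6 (.far [1,4112,1,4112,257,256] 0 (.lc 1 8 (.lc 1 8 (.lc 1 8 (.far [1,4112,1,4112,257,256] 0 (.lc 2 8 .stop))))))
 (.lc 2 7 (.lc 3 1 (.conf [135,152] (.lc 2 7 (.lc 3 1 (.lc 3 1 (.lc 3 1 (.lc 3 1 (.lc 3 7 (.lc 4 1 (.lc 4 1 (.lc 4 1 (.lc 4 1 (.lc 4 1 (.lc 4 1 (.lc 5 1 .stop)))))))))))))))))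
 (.lc 2 4 .stop)))))
 (.lc 2 0 (.lc 3 3 (.conf [88,135] (.lc 2 0 (.lc 2 0 (.lc 2 0 (.lc 3 3 (.lc 3 0 (.lc 4 3 (.lc 3 0 (.lc 3 0 (.lc 3 0 (.lc 4 0 .stop)))))))))))))))
 (.node [49,84,64] 5 4 (.lc 1 0 (.lc 2 3 (.node [64] 6 5 (.far [1,4112,1,256] 0 (.node [87] 5 7 (.far [4112,1,4112,1,256] 0 (.conf [116,137,83] (.far [4112,1,4112,1,256] 0 (.node [116,151,83] 7 4 (.lc 1 0 (.node [64,104,118,151] 7 6 .stop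
 (.node [64,122,151] 9 7 (.far [16,257,257,16,258,16,4097,257,4096] 0 (.lc 3 6 (.lc 3 11 (.lc 1 4 (.lc 3 11 (.lc 4 12 .stop))))))
 (.lc 2 0 (.conf [116,154] (.conf [123,186] (.lc 2 0 (.lc 2 0 (.lc 2 0 (.node [104,116,150,64] 6 4 (.lc 0 0 .stop)
 (.node [116,154,137,64] 8 9 (.node [138] 10 4 (.far [1,0,1,0,0,1,0,1,256] 17 (.lc 3 1 (.lc 3 11 (.lc 1 0 .stop))))
 (.lc 3 11 (.lc 3 5 (.lc 1 4 (.lc 3 11 (.lc 4 12 .stop))))))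
 (.lc 1 0 (.conf [116,164,64] (.lc 3 0 (.lc 3 0 (.lc 2 0 .stop))))))))))))))))
 (.conf [116,138,83] .stop)))))
 (.lc 2 3 (.lc 3 8 (.lc 3 9 (.node [83,116,135] 7 4 (.lc 1 0 (.node [64,121] 8 7 (.far [16,257,16,258,16,4097,257,4096] 0 (.lc 3 10 (.lc 1 4 (.lc 3 10 (.lc 4 11 .stop)))))
 (.lc 2 0 (.lc 3 4 (.conf [122,169] (.lc 2 0 (.lc 2 0 (.lc 2 0 (.lc 3 4 (.lc 4 4 (.lc 3 0 (.lc 3 0 .stop))))))))))))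
 (.node [87,133,152,87] 8 5 (.node [135] 9 8 (.node [135,154] 8 7 (.far [257,16,272,16,514,16,4097,257,4096] 0 (.lc 2 4 (.lc 0 11 (.lc 2 4 (.lc 3 4 .stop)))))
 (.conf [133,154] (.conf [135,155] (.conf [135,168] (.lc 1 4 (.lc 1 4 (.node [133,154,105,116] 6 9 (.node [106] 10 7 (.lc 1 4 (.lc 2 6 (.node [116,171] 7 4 (.far [4112,1,0,257,256,0,256] 0 (.conf [64,116,176] (.far [4112,1,0,257,256,0,256] 0 .stop)))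
 (.lc 2 4 (.lc 2 4 (.lc 3 12 (.node [116,183,203,116] 7 4 (.node [180] 11 4 (.far [1,1,0,0,0,0,0,1,0,1,256] 17 (.far [1,1,0,0,0,0,0,1,0,1,256] 17 .stop))
 (.lc 2 0 (.lc 0 13 .stop)))
 (.lc 2 4 (.lc 1 0 (.lc 2 4 (.lc 2 4 (.lc 3 12 (.lc 4 13 (.lc 3 4 (.lc 3 4 (.lc 3 4 .stop))))))))))))))))
 (.lc 3 11 (.lc 1 7 (.lc 3 11 (.lc 4 12 .stop)))))
 (.conf [135,155] (.lc 2 4 (.conf [135,156] (.conf [133,167,116] (.lc 2 4 (.lc 2 4 (.lc 3 4 .stop))))))))))))))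
 (.lc 1 4 (.lc 1 4 (.lc 3 10 (.lc 2 4 .stop)))))
 (.lc 2 3 (.lc 2 3 (.lc 3 8 (.lc 3 9 (.lc 3 3 (.lc 4 9 (.lc 4 10 (.lc 3 3 (.lc 3 3 (.lc 3 3 (.lc 4 3 .stop))))))))))))))))))
 (.lc 2 0 (.lc 2 0 (.lc 3 8 (.lc 3 3 (.node [64,116,135] 5 8 (.far [4112,4112,1,256] 0 (.node [89,135] 6 5 (.far [1,4112,4112,1,256] 0 (.lc 3 10 (.lc 1 8 (.lc 3 10 (.lc 4 11 .stop)))))
 (.lc 0 9 (.lc 2 7 (.lc 3 3 (.lc 0 9 (.conf [90,169] (.lc 2 7 (.lc 2 7 (.lc 3 3 (.lc 3 3 (.lc 0 10 (.lc 3 7 (.lc 4 3 (.lc 4 3 (.lc 4 3 (.lc 4 3 (.lc 5 3 .stop))))))))))))))))))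
 (.lc 2 0 (.lc 2 0 (.lc 2 0 (.lc 2 0 (.lc 3 8 (.lc 3 0 (.lc 3 0 (.lc 4 9 (.lc 3 0 (.lc 3 0 (.lc 3 0 (.lc 4 0 .stop))))))))))))))))))))
 (.node [84,101,118,64,49] 6 5 (.node [84,104,49,118] 5 4 (.far [257,16,256,1,257,4096] 17 (.lc 2 0 (.lc 0 9 (.lc 2 0 (.lc 3 0 .stop)))))
 (.conf [83,104] (.conf [84,105] (.conf [84,133] (.lc 1 0 (.lc 1 0 (.node [83,104,49,118,64] 7 6 (.far [16,256,16,4096] 0 (.lc 3 9 (.far [16,256,16,4096] 0 (.lc 3 9 (.lc 4 10 .stop)))))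
 (.conf [84,105] (.lc 2 0 (.conf [84,106] (.node [83,105,152,49,118,64] 7 6 (.node [121] 7 9 (.lc 2 10 (.lc 3 10 (.lc 0 10 (.lc 3 11 (.lc 3 10 (.lc 0 8 (.lc 0 0 (.lc 4 11 (.lc 0 0 (.lc 0 10 .stop))))))))))
 (.lc 3 10 (.lc 1 8 (.lc 3 10 (.lc 4 11 .stop)))))
 (.lc 2 0 (.lc 2 0 (.lc 3 0 .stop))))))))))))))
 (.conf [84,135,56] (.conf [49,84,101] (.conf [49,84,101,118] (.node [49,84,101,118,64] 6 5 (.node [84,104] 5 4 (.node [64] 6 8 (.lc 1 4 (.node [105,132] 7 6 (.far [1,4112,4112,4096,1,256] 0 (.lc 1 8 (.lc 1 8 (.far [1,4112,4112,4096,1,256] 0 (.lc 2 8 .stop)))))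
 (.lc 2 4 (.lc 3 5 (.conf [106,169] (.lc 2 4 (.lc 3 5 (.lc 3 5 (.lc 3 5 (.lc 3 4 (.lc 4 5 (.lc 4 5 (.lc 4 5 (.lc 4 5 (.lc 5 5 .stop)))))))))))))))
 (.lc 2 0 (.lc 0 9 (.lc 2 0 (.lc 3 0 .stop)))))
 (.lc 2 3 (.lc 3 9 (.conf [84,133] (.lc 1 0 (.lc 1 0 (.lc 2 3 (.lc 3 9 (.lc 2 0 (.lc 4 10 (.lc 3 3 (.lc 2 0 (.lc 2 0 (.lc 3 0 .stop))))))))))))))
 (.node [49,84,101,118,64] 6 5 (.node [84,104] 5 4 (.far [257,16,256,1,257,4096] 17 (.lc 2 0 (.lc 0 9 (.lc 2 0 (.lc 3 0 .stop)))))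
 (.lc 2 3 (.lc 3 9 (.conf [84,133] (.lc 1 0 (.lc 1 0 (.lc 2 3 (.lc 3 9 (.lc 2 0 (.lc 4 10 (.lc 3 3 (.lc 2 0 (.lc 2 0 (.lc 3 0 .stop))))))))))))))
 (.node [49,84,101,118,135,64] 6 5 (.node [84,105] 5 4 (.node [64] 7 6 (.node [105,122] 6 9 (.node [148] 8 7 (.node [122,139] 7 10 (.far [257,16,514,272,514,512,16,4097,257,4096] 17 (.lc 2 9 (.lc 0 12 (.lc 2 9 (.lc 3 9 .stop)))))
 (.lc 2 6 (.lc 3 12 (.conf [122,183] (.lc 2 6 (.lc 2 6 (.lc 2 6 (.lc 3 12 (.lc 3 6 (.lc 4 13 (.lc 3 6 (.lc 3 6 (.lc 3 6 (.lc 4 6 .stop))))))))))))))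
 (.lc 2 4 (.lc 0 11 (.lc 2 4 (.lc 3 4 .stop)))))
 (.lc 2 5 (.lc 3 11 (.conf [105,166] (.lc 2 5 (.lc 2 5 (.lc 2 5 (.lc 3 11 (.lc 3 5 (.lc 4 12 (.lc 3 5 (.lc 3 5 (.lc 3 5 (.lc 4 5 .stop))))))))))))))
 (.lc 2 0 (.lc 0 10 (.lc 2 0 (.lc 3 0 .stop)))))
 (.lc 2 3 (.lc 3 10 (.conf [84,149] (.lc 1 0 (.lc 1 0 (.lc 2 3 (.lc 3 10 (.lc 2 0 (.lc 4 11 (.lc 3 3 (.lc 2 0 (.lc 2 0 (.lc 3 0 .stop))))))))))))))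
 .stop))))))))))))))))))
 (.conf [49,64] (.node [64,84,101,54,64] 3 6 (.node [101] 6 5 (.lc 2 7 (.lc 2 4 (.lc 0 7 (.lc 3 8 (.lc 2 4 (.lc 2 4 (.lc 0 7 (.lc 0 0 (.lc 0 7 (.lc 3 4 (.lc 0 8 (.lc 0 8 (.lc 0 0 (.lc 0 8 (.lc 0 8 (.lc 0 9 .stop))))))))))))))))
 (.lc 2 7 (.lc 2 5 (.lc 3 8 (.lc 3 1 (.node [101,118] 7 6 (.lc 1 5 (.node [84,120] 5 4 (.lc 1 0 (.lc 1 0 (.conf [1,128] (.lc 3 9 (.lc 2 0 (.lc 2 0 (.lc 2 0 (.lc 0 7 (.lc 0 7 (.lc 3 9 (.lc 2 0 (.lc 3 0 (.lc 4 10 (.lc 1 7 .stop))))))))))))))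
 (.lc 2 5 (.lc 2 5 (.lc 1 4 (.lc 3 8 (.lc 2 5 (.lc 2 4 (.lc 3 5 (.lc 4 9 (.lc 2 4 (.lc 2 4 (.lc 3 4 .stop)))))))))))))
 (.lc 3 8 (.lc 2 5 (.lc 3 8 (.lc 3 1 (.lc 3 1 (.lc 3 5 (.lc 4 9 (.lc 4 1 (.lc 4 1 (.lc 4 1 (.lc 4 1 (.lc 5 1 .stop))))))))))))))))))
 (.conf [54,64,84] (.node [49,64,84,64] 5 4 (.lc 2 0 (.lc 1 0 (.lc 2 0 (.lc 2 0 (.lc 2 0 (.lc 2 0 (.lc 2 0 (.conf [1,96] (.lc 2 0 (.lc 3 0 (.lc 3 0 (.lc 3 0 (.lc 3 0 (.lc 3 0 (.lc 4 0 .stop)))))))))))))))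
 (.node [84,101,54] 3 6 (.node [49,101,84] 6 5 (.node [84,103,49] 6 7 (.far [4112,4112,8208,4112,4112,513] 4096 (.lc 2 5 (.lc 2 5 (.far [4112,4112,8208,4112,4112,513] 4096 (.lc 2 5 (.lc 3 5 .stop))))))
 (.conf [84,104] (.conf [84,97] (.conf [84,117] (.conf [84,104] (.conf [84,97,49,64,5] (.conf [97,49,23] (.conf [84,97] (.conf [84,97] (.conf [84,105] (.conf [84,97] (.conf [24,84,117,135] (.conf [97,117,49,64,7] (.conf [97,49,24] (.conf [97,135,24] (.conf [25,84,117,135,152] .stop))))))))))))))))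
 (.node [55,101,84] 3 7 (.node [118] 6 5 (.node [84,97] 6 1 (.lc 0 1 .stop)
 (.node [84,104] 7 6 (.far [1,4112,8224,8208,4112,4112,513] 4096 (.lc 3 9 (.lc 3 1 (.lc 1 5 (.lc 3 9 (.lc 4 10 .stop))))))
 (.conf [84,97] (.conf [84,104] (.conf [84,105] (.lc 0 1 (.conf [84,99] (.conf [84,133] (.conf [84,97] (.conf [84,105] (.lc 0 1 (.node [84,99,120,64] 5 4 (.node [64] 7 8 (.lc 2 1 (.lc 1 4 (.node [121,132] 7 9 (.far [257,257,0,1,16,4096] 0 (.far [1,257,0,1,4112,4096,0,0,257] 16 (.node [26,152,169,113] 1 10 (.far [257,1,257,0,1,4112,4096,0,0,257] 16 (.lc 2 9 (.lc 2 9 .stop)))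
 (.node [26,169,152] 1 10 (.node [169] 8 4 (.lc 2 4 (.node [64,139] 4 0 .stop
 (.lc 3 4 (.lc 3 4 (.node [64,180,203,64,140,152,169] 4 0 .stop
 (.lc 3 4 (.lc 4 4 .stop)))))))
 (.lc 2 9 (.lc 2 9 .stop)))
 (.far [257,257,0,1,16,4096] 0 (.node [27,152,169,186,113,169,152] 1 11 (.node [186] 8 4 (.lc 2 4 (.node [164] 8 10 .stop
 (.node [64,140] 9 8 (.far [1,4112,0,0,1,256,257] 0 (.lc 3 7 (.conf [157,220] (.lc 3 7 (.lc 4 7 .stop)))))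
 (.lc 3 4 (.lc 3 4 (.node [64,196,220,64] 9 8 (.far [1,4112,0,0,1,256,257] 0 (.lc 3 7 (.lc 1 12 (.lc 3 7 (.lc 4 7 .stop)))))
 (.lc 3 4 (.lc 4 4 .stop))))))))
 (.lc 2 10 (.lc 2 10 .stop)))
 .stop))))))
 (.lc 3 1 (.lc 3 1 (.lc 2 4 (.lc 3 1 (.lc 3 1 (.node [132,152,169,122] 7 10 (.node [169] 8 4 (.lc 1 0 (.lc 2 4 (.node [64,139] 9 8 (.node [155] 11 4 (.node [176] 10 9 (.node [155,172] 9 11 (.far [257,16,32,272,512,0,16,4112,4112,0,0,16,4097,1] 4096 (.lc 0 13 .stop))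
 (.conf [152,172] (.conf [155,161] (.conf [155,201] (.node [152,161,176] 1 11 (.far [1,257,4112,256,256] 0 .stop)
 (.lc 2 0 .stop))))))
 (.node [177,155,169,64] 11 1 (.lc 0 8 .stop)
 (.far [1,1,4096,4112,4096,0,0,4096,0,0,16,256] 0 .stop)))
 (.lc 3 12 (.lc 1 4 (.lc 3 12 (.lc 4 13 .stop)))))
 (.lc 2 0 (.lc 2 0 (.lc 3 4 (.lc 3 4 (.conf [140,203] (.lc 2 0 (.lc 2 0 (.lc 2 0 (.lc 3 4 (.lc 4 4 (.lc 3 0 (.lc 3 0 .stop)))))))))))))))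
 (.lc 2 9 (.lc 2 9 (.conf [27,169,186] (.lc 2 9 (.lc 3 9 .stop))))))
 (.lc 3 1 (.lc 2 4 (.lc 3 1 (.lc 3 1 (.lc 3 1 (.lc 3 1 (.lc 3 1 (.lc 4 1 (.lc 3 4 (.lc 2 0 (.lc 4 1 (.lc 4 1 (.lc 4 1 (.lc 4 1 (.lc 4 1 (.lc 5 1 .stop)))))))))))))))))))))))))
 (.lc 2 0 (.lc 2 0 (.lc 0 9 (.lc 2 0 (.lc 3 0 .stop))))))
 (.lc 0 8 (.conf [84,106] (.lc 0 9 (.lc 0 9 (.lc 0 9 (.lc 0 1 (.conf [99,121,152] (.lc 0 10 .stop))))))))))))))))))))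
 (.lc 2 6 (.node [118,135] 6 5 (.node [84,104,135] 6 8 (.lc 0 3 .stop)
 (.node [84,105] 7 6 (.far [1,4112,8224,8208,4112,4112,513] 4096 (.lc 3 10 (.lc 3 3 (.lc 1 5 (.lc 3 10 (.lc 4 11 .stop))))))
 (.conf [21,84] (.conf [84,105] (.conf [84,106] (.lc 0 3 (.conf [84,99] (.conf [84,149] (.conf [84,104] (.conf [84,106] (.lc 0 3 (.node [84,99,121,64] 5 4 (.node [64] 7 9 (.lc 1 4 (.lc 2 3 (.node [122,148] 8 7 (.far [16,257,0,1,16,4096] 0 (.lc 3 11 (.lc 1 9 (.lc 3 11 (.lc 4 12 .stop)))))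
 (.lc 3 3 (.lc 2 4 (.lc 3 3 (.lc 3 3 (.conf [123,186] (.lc 3 3 (.lc 2 4 (.lc 3 3 (.lc 3 3 (.lc 3 3 (.lc 4 3 (.lc 3 4 (.lc 4 3 (.lc 4 3 (.lc 4 3 (.lc 4 3 (.lc 5 3 .stop))))))))))))))))))))
 (.lc 2 0 (.lc 2 0 (.lc 0 10 (.lc 2 0 (.lc 3 0 .stop))))))
 (.lc 0 9 (.conf [84,107] (.lc 0 10 (.lc 0 10 (.lc 0 10 (.lc 0 3 (.conf [99,122,169] (.lc 0 11 .stop))))))))))))))))))))
 (.lc 2 6 (.lc 3 6 .stop)))))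
 (.node [101,118,84,49,64] 6 5 (.node [84,117] 5 4 (.lc 1 0 (.lc 2 8 (.lc 2 0 (.conf [64,132] (.lc 3 9 (.lc 2 0 (.lc 2 0 (.lc 2 0 (.lc 2 0 (.lc 0 8 (.lc 3 0 (.lc 0 9 (.lc 3 0 (.lc 3 0 (.lc 3 0 (.lc 4 0 .stop))))))))))))))))
 (.lc 2 4 (.node [84,120] 5 4 (.lc 1 0 (.lc 2 9 (.lc 2 0 (.conf [64,148] (.lc 3 10 (.lc 2 0 (.lc 2 0 (.lc 2 0 (.lc 0 9 (.lc 3 0 (.lc 0 10 (.lc 3 0 (.lc 3 0 (.lc 3 0 (.lc 4 0 .stop)))))))))))))))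
 (.lc 2 4 (.lc 3 4 .stop)))))
 (.conf [56,101] (.conf [49,101,118] (.node [101,118,101,49,64] 7 6 (.lc 1 5 (.lc 1 4 (.lc 2 5 (.lc 2 5 (.node [84,120] 5 4 (.far [257,16,16,4096] 0 (.lc 2 0 (.node [64,137] 7 8 (.lc 2 10 (.lc 3 10 (.lc 0 10 (.lc 3 11 (.lc 3 10 (.lc 0 9 (.lc 0 0 (.lc 4 11 (.lc 0 0 (.lc 0 10 .stop))))))))))
 (.lc 2 0 (.lc 3 0 .stop)))))
 (.lc 1 4 (.lc 2 5 (.node [84,121,133] 5 4 (.far [257,16,16,4096] 0 (.lc 2 0 (.lc 0 10 (.lc 2 0 (.lc 3 0 .stop)))))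
 (.lc 3 5 (.lc 2 4 (.lc 4 9 (.lc 4 9 (.lc 5 10 .stop)))))))))))))
 (.conf [56,135] (.node [101,118,84,49,64] 7 6 (.far [16,257,257,257,4096] 17 (.lc 1 4 (.lc 1 4 (.lc 3 8 (.lc 2 4 .stop)))))
 (.conf [56,101] (.conf [49,101] (.node [49,101,84] 6 5 (.node [84,104] 7 6 (.node [133] 5 4 (.lc 1 0 (.node [64,87,120] 5 7 (.lc 0 5 .stop)
 (.node [64,89] 8 5 (.far [1,4112,1,4096,1,256] 0 (.lc 3 10 (.lc 3 5 (.lc 1 4 (.lc 3 10 (.lc 4 11 .stop))))))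
 (.conf [87,120] (.conf [89,151] (.conf [90,169] (.lc 3 4 (.lc 3 4 (.conf [64,148] (.node [64,87,120,148] 5 7 (.lc 0 5 .stop)
 (.node [64,90,148] 9 4 (.node [144] 8 5 (.node [138] 10 9 (.node [120,144,167] 7 9 .stop
 (.lc 2 5 (.node [144,171] 9 0 .stop
 (.conf [144,185] (.conf [144,185] (.lc 3 5 (.conf [144,185] (.lc 2 0 (.node [120,144,167] 10 7 (.lc 0 5 .stop)
 (.node [120,144,171,183] 7 9 .stop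
 (.node [144,172,203] 8 10 (.node [203] 8 12 (.node [203] 7 12 (.far [1,1,257,4112,256,0,256] 0 (.lc 3 1 (.node [185,219,125] 11 9 .stop
 .stop)))
 (.lc 2 8 (.conf [203,220] (.lc 2 8 (.lc 3 8 .stop)))))
 (.lc 3 5 (.lc 3 5 (.lc 1 11 (.lc 3 5 (.lc 4 5 .stop))))))
 (.conf [144,185] (.lc 1 0 .stop)))))))))))))
 (.lc 3 11 (.lc 3 5 (.lc 1 9 (.lc 3 11 (.lc 4 12 .stop))))))
 (.lc 3 1 (.lc 3 11 (.lc 1 0 .stop))))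
 (.lc 3 4 (.lc 3 4 (.lc 2 0 (.lc 3 4 (.conf [91,186] (.lc 4 4 (.lc 4 4 (.lc 4 4 (.lc 4 4 (.lc 4 4 (.lc 5 4 .stop))))))))))))))))))))))
 (.lc 3 9 (.lc 1 5 (.lc 3 9 (.lc 4 10 .stop)))))
 (.lc 2 4 (.lc 3 3 (.conf [84,133] (.lc 2 4 (.lc 2 4 (.lc 3 3 (.lc 3 4 (.lc 4 3 (.lc 3 4 (.lc 3 4 (.lc 3 4 (.lc 4 4 .stop)))))))))))))
 (.node [101,118,135,84,49,64] 7 6 (.node [84] 5 4 (.lc 1 0 (.lc 2 8 (.lc 2 9 (.lc 2 0 (.lc 2 0 (.lc 2 0 (.lc 0 9 (.lc 3 10 (.lc 2 0 (.lc 2 0 (.lc 2 0 (.lc 1 4 (.lc 3 0 (.conf [64,148] (.lc 3 0 (.lc 3 0 (.lc 3 0 (.lc 4 0 .stop))))))))))))))))))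
 (.lc 1 4 (.lc 1 4 (.lc 3 9 (.lc 2 4 .stop)))))
 (.conf [57,101] (.conf [49,101,118] (.conf [49,101] (.conf [49,101] (.conf [49,101] (.conf [49,101] .stop))))))))))))))))))
 (.conf [49,64] (.node [64,84,54] 5 4 (.node [64,81,54] 1 4 (.node [] 3 6 (.far [257,0,0,257,257,4096] 17 (.node [55] 1 3 (.far [16,257,0,0,257,257,4096] 17 (.far [16,257,0,0,257,257,4096] 17 .stop))
 (.lc 2 5 (.lc 3 1 (.node [56,135,56,118] 3 8 (.node [135] 5 1 (.node [135,118] 5 8 .stop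
 (.conf [87,118] .stop))
 (.lc 2 7 .stop))
 (.lc 2 5 (.lc 2 5 (.lc 3 1 (.lc 3 5 (.lc 4 1 .stop))))))))))
 .stop)
 (.node [64,87,54] 4 0 (.node [112] 5 7 (.node [81,112] 5 1 (.far [4112,4112,4112,4096,1,256] 17 (.far [4112,4112,4112,4096,1,256] 17 .stop))
 (.node [88,112] 6 5 (.far [1,4112,4112,4096,1,256] 17 (.lc 1 7 (.lc 1 7 (.lc 1 7 (.lc 1 7 (.far [1,4112,4112,4096,1,256] 17 (.far [1,4112,4112,4096,1,256] 17 (.lc 2 7 (.lc 2 7 (.lc 2 7 .stop))))))))))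
 (.lc 2 0 (.lc 2 0 (.lc 2 0 (.lc 3 4 (.lc 3 4 (.conf [88,129] (.node [81,112,135] 5 1 .stop
 (.conf [89,152] (.lc 2 0 (.lc 2 0 (.lc 2 0 (.lc 3 4 (.lc 3 4 (.lc 3 4 (.lc 3 4 (.lc 3 0 (.lc 3 0 (.lc 3 0 (.lc 3 0 (.lc 4 4 (.lc 4 4 (.lc 4 4 (.lc 4 4 (.lc 4 4 (.lc 4 4 (.lc 4 4 (.lc 4 4 (.lc 4 4 (.lc 4 4 (.lc 4 4 (.lc 4 4 (.lc 5 4 (.lc 5 4 (.lc 5 4 (.lc 5 4 .stop)))))))))))))))))))))))))))))))))))))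
 (.lc 0 1 (.lc 0 1 (.lc 0 8 (.node [113] 5 7 (.lc 1 1 (.node [88,113] 6 5 (.node [104] 3 6 (.far [257,16,257,514,272,256,0,4112] 257 (.lc 1 3 (.node [57] 1 3 (.far [16,257,16,257,514,272,256,0,4112] 257 (.far [256,257,0,0,256,16,257] 4097 (.far [16,257,16,257,514,272,256,0,4112] 257 (.far [256,257,16,256,256,16,256] 4097 .stop))))
 (.lc 2 8 (.lc 2 8 (.lc 3 1 (.lc 3 1 (.lc 2 3 (.node [58,169,58,150] 3 10 (.node [169] 7 1 (.node [169,150] 7 10 (.lc 1 6 .stop)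
 (.far [16,1,257,0,0,256,16,257] 4097 (.conf [138,169] (.conf [137,150] .stop))))
 (.lc 2 9 (.lc 2 9 (.lc 3 9 .stop))))
 (.lc 2 8 (.lc 2 8 (.lc 3 1 (.lc 3 1 (.lc 3 1 (.lc 3 8 (.lc 4 1 (.lc 4 1 .stop)))))))))))))))))
 (.lc 1 7 (.lc 1 7 (.node [105,152] 3 6 (.far [257,0,0,0,0,257,257,4096] 17 (.node [58,105] 6 9 (.far [4112,1,1,4112,0,4112,258] 0 (.lc 2 8 (.lc 0 11 (.lc 2 8 (.lc 3 8 .stop)))))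
 (.lc 2 3 (.lc 3 1 (.conf [105,166] (.lc 2 3 (.lc 2 3 (.lc 3 1 (.lc 3 1 (.lc 3 3 (.lc 4 1 (.lc 4 1 .stop))))))))))))
 (.lc 2 7 .stop)))))
 (.lc 2 1 (.lc 3 4 (.conf [89,152] (.lc 2 1 (.lc 3 4 (.lc 3 4 (.lc 3 4 (.lc 3 1 (.lc 4 4 (.lc 4 4 (.lc 4 4 (.lc 4 4 (.lc 5 4 .stop)))))))))))))))
 (.lc 0 8 .stop))))))
 (.conf [64,81] (.conf [64,87] (.conf [64,87] (.conf [64,81] (.conf [64,88] (.conf [87,113] (.conf [64,116] (.conf [64,116] (.conf [64,81] (.far [257,0,1,1] 16 (.node [64,87,54,1] 6 5 (.far [1,4096,1,256] 17 (.lc 1 0 (.lc 1 0 (.lc 1 0 (.lc 1 0 (.far [1,4096,1,256] 17 (.conf [112,135] (.lc 2 0 (.lc 2 0 (.lc 2 0 .stop))))))))))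
 (.conf [64,87] (.conf [64,81] (.conf [64,88] (.conf [64,87] (.conf [64,88] (.conf [64,88] (.conf [64,81] (.conf [64,89] (.node [64,87,113,54] 5 7 (.far [4112,4096,1,256] 17 (.lc 2 1 (.far [4112,4096,1,256] 17 (.lc 2 1 (.lc 3 1 .stop)))))
 (.conf [64,112,1] (.node [64,87,113,54] 5 7 (.far [4112,1,1,257,1] 33 (.lc 2 1 (.far [4112,1,1,257,1] 33 (.lc 2 1 (.lc 3 1 .stop)))))
 (.node [64,87,113,54] 6 5 (.node [103] 3 6 (.conf [49,103,22] (.lc 1 3 (.node [56,103,113] 1 3 (.far [16,257,0,0,257,257,4096] 17 (.far [256,257,16,16,256] 4097 (.lc 0 8 (.far [16,257,0,0,257,257,4096] 17 (.lc 0 8 (.lc 0 9 .stop))))))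
 (.lc 2 7 (.lc 3 1 (.lc 2 3 (.node [57,103,134,152,113,57] 3 9 (.node [152] 7 1 (.far [1,256,0,0,257,0,1,4096] 0 (.lc 3 8 (.far [16,1,257,16,16,256] 4097 (.lc 3 10 (.lc 4 10 .stop)))))
 (.lc 2 8 (.lc 1 9 (.lc 1 9 (.lc 2 8 (.lc 1 10 .stop))))))
 (.lc 2 7 (.lc 2 7 (.lc 3 1 (.lc 3 1 (.lc 3 7 (.lc 4 1 .stop)))))))))))))
 (.node [104,113,54] 3 6 (.lc 1 8 (.lc 2 9 (.lc 3 9 (.lc 3 1 (.lc 3 10 (.lc 1 7 (.lc 3 9 (.lc 3 1 (.lc 4 10 (.lc 4 1 .stop))))))))))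
 (.far [16,256,16,4096] 256 (.node [104,135,54,113] 3 6 (.lc 1 8 (.lc 2 9 (.lc 3 9 (.lc 3 1 (.lc 3 10 (.conf [24,135] (.lc 3 9 (.lc 3 1 (.lc 4 10 (.lc 4 1 .stop))))))))))
 (.node [105,113,135,54] 3 6 (.lc 1 9 (.lc 2 10 (.lc 3 10 (.lc 3 1 (.lc 3 11 (.conf [25,152] (.lc 3 10 (.lc 3 1 (.lc 4 11 (.lc 4 1 .stop))))))))))
 .stop)))))
 (.node [64,88,135,54,113] 5 8 (.node [135,104,54] 3 6 (.conf [22,104] (.lc 2 7 (.lc 2 8 (.lc 2 9 (.lc 0 0 (.lc 3 9 (.lc 3 10 (.lc 0 0 (.lc 3 1 (.lc 0 0 (.lc 3 7 (.lc 3 10 (.lc 0 0 (.lc 2 8 (.lc 3 7 (.lc 3 10 (.lc 0 0 (.lc 3 1 (.lc 0 0 (.lc 0 0 (.lc 4 11 (.lc 0 0 (.lc 0 0 (.lc 0 0 (.lc 0 0 (.lc 4 1 (.lc 0 0 .stop)))))))))))))))))))))))))))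
 (.lc 2 7 (.node [105,135,54] 3 6 (.lc 1 9 (.lc 2 7 (.lc 2 10 (.lc 3 10 (.lc 0 0 (.lc 3 1 (.lc 0 0 (.lc 3 11 (.conf [25,152] (.lc 3 7 (.lc 3 10 (.lc 3 1 (.lc 0 0 (.lc 0 0 (.lc 4 11 (.lc 0 0 (.lc 0 0 (.lc 0 0 (.lc 0 0 (.lc 4 1 (.lc 0 0 .stop)))))))))))))))))))))
 (.lc 2 7 (.lc 3 7 .stop)))))
 .stop))))))))))))))))))))))))))
 (.node [54,64,84] 3 6 (.node [101] 5 4 (.node [64,81] 1 4 (.node [] 5 1 (.lc 2 1 .stop)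
 .stop)
 (.node [64,87] 4 0 (.node [112] 6 5 (.lc 2 1 (.lc 1 4 (.node [] 5 7 (.node [81,112] 5 1 .stop
 (.far [4112,1,0,4112,0,257] 0 (.node [89,112] 8 5 (.far [1,4112,1,0,4112,0,257] 0 (.conf [129,151,84] (.conf [138,151,84] (.node [151,169,84] 9 7 (.node [112,145,169] 9 1 .stop
 (.node [112,155,169] 10 9 (.far [1,4112,1,4128,1,4112,8208,0,257,256] 17 (.lc 3 1 (.lc 3 12 (.lc 1 7 (.lc 3 12 (.lc 4 13 .stop))))))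
 (.lc 2 0 (.conf [149,171] (.conf [156,203] (.node [149,161,138,112] 1 7 (.far [1,1,0,1,0,256,256] 0 .stop)
 (.node [149,171,138,112] 8 10 (.node [139] 11 7 (.lc 3 1 .stop)
 (.lc 3 1 (.lc 3 12 (.lc 1 7 (.lc 3 12 (.lc 4 13 .stop))))))
 (.conf [149,183,112] (.lc 3 0 .stop)))))))))
 (.far [1,4112,1,0,4112,0,257] 0 (.conf [139,151,84] .stop))))))
 (.lc 2 0 (.lc 2 0 (.lc 2 0 (.lc 2 0 (.lc 3 4 (.far [4112,1,0,4112,0,257] 0 (.node [112,151,169,90] 5 10 (.far [4112,4112,1,0,4112,0,257] 0 (.lc 0 1 (.lc 0 11 (.lc 0 11 (.lc 2 9 (.lc 0 12 .stop))))))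
 (.lc 2 0 (.lc 2 0 (.lc 2 0 (.lc 3 4 (.lc 3 4 (.lc 3 4 (.lc 3 4 (.lc 3 0 (.lc 3 0 (.lc 4 4 (.lc 4 4 (.lc 4 4 (.lc 4 4 (.lc 4 4 (.lc 4 4 (.lc 5 4 .stop))))))))))))))))))))))))))
 (.lc 2 7 (.lc 2 7 (.lc 2 4 (.lc 3 9 (.lc 2 4 (.lc 2 4 (.lc 3 1 (.node [133,152] 5 7 (.node [81,112,133,152] 5 1 .stop
 (.node [84,135,152] 8 7 (.node [112,129] 8 1 .stop
 (.node [112,138] 9 8 (.far [1,4112,4128,1,4112,8208,0,257,256] 17 (.lc 3 1 (.lc 3 11 (.lc 1 7 (.lc 3 11 (.lc 4 12 .stop))))))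
 (.lc 2 0 (.lc 3 5 (.conf [139,186] (.lc 3 5 (.lc 3 5 (.lc 4 5 (.lc 3 0 .stop)))))))))
 (.node [90,112,133,152] 8 5 (.node [138] 6 9 (.node [97,152,138] 9 8 (.node [138,155] 8 10 (.far [4112,1,0,4097,8224,1,4112,8208,0,257,256] 17 (.lc 2 7 (.lc 0 12 (.lc 2 7 (.lc 3 7 .stop)))))
 (.lc 2 5 (.lc 3 1 (.conf [138,184] (.lc 2 5 (.lc 2 5 (.lc 3 5 (.lc 3 5 .stop))))))))
 (.node [106,152] 6 10 .stop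
 (.node [107,152] 6 11 (.node [185] 9 8 (.node [138,156] 11 9 (.far [16,257,0,16,2,8224,4097,4112,8208,0,257,256] 17 (.lc 3 10 (.lc 3 13 (.lc 1 8 (.lc 3 13 (.lc 4 14 .stop))))))
 (.conf [133,156] (.conf [138,150] (.conf [138,200] (.lc 1 7 (.node [133,150,167] 11 10 (.lc 2 1 (.lc 1 5 (.node [167,188] 10 7 (.far [4112,1,257,0,0,256,256] 0 (.far [4112,1,257,0,0,256,256] 0 .stop))
 (.lc 2 5 (.lc 3 1 (.node [167,202,220,167,189] 10 7 (.node [199] 12 7 .stop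
 (.lc 0 14 .stop))
 (.lc 2 5 (.lc 3 5 .stop))))))))
 (.lc 0 12 (.lc 2 7 (.lc 0 13 (.lc 0 12 (.lc 2 7 (.lc 2 7 (.lc 3 7 .stop)))))))))))))
 (.lc 2 9 (.lc 2 9 (.far [4112,4112,1,4112,4096,0,4112,1,256] 0 (.lc 2 9 (.lc 3 9 .stop))))))
 (.lc 2 8 (.lc 2 8 (.lc 2 8 (.lc 2 8 (.lc 3 1 (.conf [27,152,185] (.conf [108,203] (.lc 2 8 (.lc 2 8 (.lc 2 8 (.lc 2 8 (.lc 3 1 (.lc 3 1 (.lc 3 1 (.lc 3 1 (.lc 3 8 (.lc 3 8 (.lc 4 1 (.lc 4 1 (.lc 4 1 (.lc 4 1 (.lc 4 1 (.lc 4 1 (.lc 4 1 (.lc 5 1 .stop))))))))))))))))))))))))))))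
 (.lc 3 1 (.lc 3 11 (.lc 1 7 (.lc 3 11 (.lc 4 12 .stop))))))
 (.lc 2 0 (.lc 2 0 (.lc 2 0 (.lc 2 0 (.lc 3 4 (.conf [112,138,167] (.conf [91,186] (.lc 2 0 (.lc 2 0 (.lc 2 0 (.lc 3 4 (.lc 3 4 (.lc 3 4 (.lc 3 4 (.lc 3 0 (.lc 3 0 (.lc 4 4 (.lc 4 4 (.lc 4 4 (.lc 4 4 (.lc 4 4 (.lc 4 4 (.lc 5 4 .stop))))))))))))))))))))))))))
 (.lc 2 7 (.lc 2 7 (.lc 2 7 (.lc 2 4 (.lc 3 9 (.lc 3 7 (.lc 3 7 (.lc 3 4 (.lc 4 10 (.lc 3 7 (.lc 3 7 (.lc 3 7 (.lc 4 7 .stop))))))))))))))))))))))))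
 (.lc 0 1 (.lc 0 1 (.lc 0 8 (.far [257,16,257,256,1,4096] 4097 (.lc 0 8 .stop))))))
 (.lc 2 0 (.lc 2 0 (.conf [64,116] (.conf [64,116] (.conf [64,116] (.lc 2 0 (.lc 2 0 (.lc 2 0 (.node [64,87,113] 1 4 (.far [257,1,4112,4096,0,257] 16 .stop)
 (.node [64,88,135] 7 4 (.far [1,1,4112,4096,16,256] 0 (.lc 3 1 (.node [] 1 6 (.node [118] 6 5 (.node [88,105] 5 8 (.far [4112,1,4112,257,1,4128,4097,0,257] 16 (.lc 2 7 (.lc 0 10 (.lc 2 7 (.lc 3 7 .stop)))))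
 (.lc 2 4 (.conf [88,149] (.lc 2 4 (.lc 3 4 .stop)))))
 (.lc 2 5 (.lc 0 9 (.lc 2 5 (.lc 2 5 (.lc 3 5 .stop))))))
 (.lc 3 1 (.lc 3 9 (.lc 4 9 .stop))))))
 (.lc 3 0 (.conf [64,116] (.lc 3 0 (.lc 3 0 (.lc 3 0 (.lc 3 0 (.lc 4 0 .stop)))))))))))))))))))
 (.node [101,118] 7 6 (.node [101,120] 6 5 (.far [257,16,256,257,257,4096] 17 (.lc 2 4 (.lc 0 9 (.lc 2 4 (.lc 3 4 .stop)))))
 (.lc 2 3 (.conf [101,134] (.conf [101,134] (.lc 1 4 (.lc 2 3 (.node [101,121,152] 8 6 (.node [] 5 4 (.lc 2 4 (.node [64,89] 9 4 .stop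
 (.node [64,90] 4 0 (.node [160] 7 9 (.node [122,152] 7 10 .stop
 (.node [123,152] 1 7 (.far [16,257,0,0,16,16,272,1,257,4096] 17 (.lc 1 9 .stop))
 (.lc 2 8 (.lc 2 8 (.lc 2 8 (.lc 3 1 (.conf [152,185] (.lc 2 8 (.lc 2 8 (.lc 3 1 (.lc 3 1 (.lc 3 8 (.lc 4 1 (.lc 4 1 .stop))))))))))))))
 (.lc 0 1 (.lc 0 11 .stop)))
 (.lc 2 0 (.lc 2 0 (.conf [64,164] (.conf [64,164] (.lc 3 4 (.conf [64,164] (.lc 2 0 (.lc 2 0 (.lc 2 0 (.lc 2 0 (.lc 0 8 (.node [64,90,169] 9 4 .stop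
 (.node [64,91,186] 5 11 (.node [186] 10 4 (.far [1,4112,1,256,0,0,257,256] 17 (.lc 3 1 (.lc 3 12 .stop)))
 (.lc 0 12 (.lc 0 12 (.lc 0 5 (.lc 2 10 (.lc 0 13 .stop))))))
 (.conf [64,164] (.lc 3 0 (.lc 3 0 (.lc 3 0 (.lc 4 0 .stop)))))))))))))))))))))
 (.lc 1 4 (.lc 1 4 (.lc 3 10 (.lc 2 4 .stop)))))
 (.lc 2 4 (.conf [101,134] (.lc 3 3 (.lc 2 4 (.lc 2 4 (.lc 3 4 .stop)))))))))))))
 (.conf [101,118] (.node [101,118] 7 6 (.node [101,120] 6 5 (.far [257,16,257,513,257,4096] 17 (.lc 2 4 (.lc 0 9 (.lc 2 4 (.lc 3 4 .stop)))))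
 (.lc 2 3 (.lc 3 9 (.conf [101,134] (.lc 1 4 (.lc 2 3 (.lc 3 9 (.lc 2 4 (.lc 4 10 (.lc 3 3 (.lc 2 4 (.lc 2 4 (.lc 3 4 .stop)))))))))))))
 (.node [101,118,135] 7 6 (.node [101,121] 6 5 (.far [257,16,272,1,257,4096] 17 (.lc 2 4 (.lc 0 10 (.lc 2 4 (.lc 3 4 .stop)))))
 (.lc 2 3 (.lc 3 10 (.conf [101,150] (.lc 1 4 (.lc 2 3 (.lc 3 10 (.lc 2 4 (.lc 4 11 (.lc 3 3 (.lc 2 4 (.lc 2 4 (.lc 3 4 .stop)))))))))))))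
 .stop)))))
 (.node [54,64,101] 3 6 (.node [101] 6 5 (.node [84,103] 6 7 (.far [257,257,256,257,257,4096] 17 (.lc 2 5 (.lc 2 5 (.node [24,117,135] 1 8 (.node [135] 8 7 (.node [117,132] 8 4 (.far [272,4112,16,16,4112,0,4112,4097,1] 4096 .stop)
 (.lc 1 5 (.node [117,137] 0 8 (.lc 0 9 .stop)
 (.conf [137,148] (.conf [138,169] (.lc 1 7 (.lc 1 4 (.conf [117,151] (.node [117,132,151] 8 4 (.far [257,257,256,4096,0,4096,0,0,257] 16 .stop)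
 (.node [117,138,151] 9 7 (.node [149] 8 10 (.lc 1 10 .stop)
 (.lc 1 4 (.lc 1 4 (.lc 0 0 (.lc 3 11 (.lc 2 4 .stop))))))
 (.lc 3 0 (.conf [139,186] (.lc 1 9 .stop)))))))))))))
 (.lc 2 7 (.lc 1 8 (.lc 1 8 (.lc 2 7 (.lc 1 9 .stop))))))
 (.lc 2 5 (.lc 3 5 .stop))))))
 (.conf [104,135] (.lc 3 1 (.conf [84,117] (.node [84,104,117] 6 8 (.far [257,257,256,257,257,4096] 17 (.lc 2 7 (.lc 2 7 (.node [25,152] 1 9 (.node [152] 5 4 (.node [90] 7 5 (.far [16,257,257,257,257,16,258,514,2] 4163 (.lc 3 11 (.lc 1 4 (.lc 3 11 (.lc 4 12 .stop)))))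
 (.lc 2 0 (.lc 3 4 (.conf [91,186] (.lc 2 0 (.lc 2 0 (.lc 3 4 (.lc 3 0 (.lc 4 4 (.lc 3 0 (.lc 3 0 (.lc 3 0 (.lc 4 0 .stop)))))))))))))
 (.lc 2 8 (.lc 1 9 (.lc 1 9 (.lc 2 8 (.lc 1 10 .stop))))))
 (.lc 2 7 (.lc 3 7 .stop))))))
 (.lc 3 1 (.lc 3 1 (.lc 3 1 (.lc 3 1 (.conf [105,152] (.lc 4 1 (.lc 4 1 (.lc 4 1 (.lc 4 1 (.lc 4 1 (.lc 5 1 .stop))))))))))))))))
 (.lc 2 5 (.conf [101,118] (.lc 2 5 (.lc 3 5 .stop)))))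
 (.conf [49,64] (.node [64,118,55,64,84,101] 3 7 (.node [118] 7 6 (.lc 1 5 (.lc 3 9 (.lc 0 8 (.lc 2 5 (.lc 3 9 (.conf [6,101] (.lc 0 8 (.lc 0 0 (.lc 0 8 (.lc 4 10 (.lc 0 9 (.lc 0 9 (.lc 0 0 (.lc 0 9 (.lc 0 9 (.lc 0 10 .stop))))))))))))))))
 (.lc 2 8 (.lc 2 6 (.lc 3 9 (.lc 3 1 (.node [118,135] 8 7 (.lc 1 6 (.lc 1 5 (.lc 2 6 (.lc 2 6 (.node [101,137] 6 5 (.node [84] 5 4 (.lc 1 0 (.lc 3 10 (.lc 2 0 (.lc 2 0 (.lc 0 8 (.conf [1,144] (.lc 2 0 (.lc 3 0 (.lc 0 10 (.lc 1 8 .stop))))))))))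
 (.lc 2 4 (.node [84,154] 8 9 (.lc 2 11 (.lc 3 11 (.lc 0 11 (.lc 3 12 (.lc 3 11 (.lc 0 10 (.lc 0 0 (.lc 4 12 (.lc 0 0 (.lc 0 11 .stop))))))))))
 (.lc 2 4 (.lc 3 4 .stop)))))
 (.lc 1 5 (.lc 2 6 (.node [101,138,150] 9 6 (.node [84] 5 4 (.lc 1 0 (.lc 1 0 (.lc 3 11 (.lc 2 0 (.lc 2 0 (.lc 0 8 (.lc 0 0 (.lc 2 0 (.lc 3 0 (.conf [1,160] .stop))))))))))
 (.lc 1 4 (.lc 1 4 (.lc 3 11 (.lc 2 4 .stop)))))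
 (.lc 3 6 (.lc 2 5 (.lc 4 10 (.lc 4 10 (.lc 5 11 .stop)))))))))))))
 (.lc 3 9 (.lc 2 6 (.lc 3 9 (.lc 3 1 (.lc 3 1 (.lc 3 6 (.lc 4 10 (.lc 4 1 (.lc 4 1 (.lc 4 1 (.lc 4 1 (.lc 5 1 .stop))))))))))))))))))
 (.conf [55,64,84] (.conf [55,64,84,101] (.conf [55,84,101,118] (.conf [55,101,118] (.node [56,64,84,101,118] 3 8 (.node [135] 8 7 (.node [118,137] 8 9 (.node [151] 7 6 (.node [101,122] 9 7 (.node [154] 6 5 (.node [84,107] 10 6 (.far [16,257,32,513,514,512,272,1,257,4096] 17 (.lc 3 12 (.lc 1 5 (.lc 3 12 (.lc 4 13 .stop)))))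
 (.lc 2 4 (.lc 3 5 (.conf [84,181] (.lc 2 4 (.lc 2 4 (.lc 2 4 (.lc 3 5 (.lc 3 4 (.lc 4 5 (.lc 3 4 (.lc 3 4 (.lc 3 4 (.lc 4 4 .stop))))))))))))))
 (.lc 3 11 (.lc 1 6 (.lc 3 11 (.lc 4 12 .stop)))))
 (.lc 2 5 (.lc 3 6 (.conf [101,166] (.lc 2 5 (.lc 2 5 (.lc 2 5 (.lc 3 6 (.lc 3 5 (.lc 4 6 (.lc 3 5 (.lc 3 5 (.lc 3 5 (.lc 4 5 .stop))))))))))))))
 (.lc 2 7 (.lc 2 7 (.node [26,151,169] 1 10 (.node [169] 10 9 (.node [151,165] 10 5 .stop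
 (.node [151,166] 10 6 .stop
 (.lc 1 7 (.node [151,171] 0 10 .stop
 (.conf [171,181] (.lc 0 4 (.conf [171,182] (.conf [172,203] (.lc 0 4 (.lc 0 5 (.conf [151,185] (.lc 1 9 (.lc 1 9 (.node [91,165,185] 10 5 .stop
 (.node [107,166,185] 10 6 .stop
 (.node [151,172,185] 9 7 (.node [118] 11 7 (.node [101] 11 6 (.far [257,257,1,16,0,16,4096] 0 (.lc 2 5 (.conf [101,214] (.lc 1 4 (.lc 2 4 .stop)))))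
 (.lc 1 5 (.lc 1 5 (.lc 3 7 (.lc 2 5 .stop)))))
 (.lc 2 6 (.lc 0 13 (.lc 1 5 (.lc 2 5 .stop)))))
 (.lc 3 0 (.lc 1 4 (.lc 0 4 (.conf [173,220] (.lc 1 0 .stop)))))))))))))))))))))
 (.lc 2 9 (.lc 2 9 (.lc 1 0 .stop))))
 (.lc 2 7 (.lc 3 7 .stop))))))
 (.lc 2 6 (.lc 3 1 (.conf [118,151] (.lc 2 6 (.lc 2 6 (.lc 2 6 (.lc 3 1 (.lc 3 1 (.lc 3 6 (.lc 4 1 (.lc 3 6 (.lc 3 6 (.lc 3 6 (.lc 3 6 (.lc 4 6 .stop))))))))))))))))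
 (.lc 2 7 (.conf [135,152] (.lc 2 7 (.lc 3 7 .stop)))))
 .stop))))))))))))))))))

theorem t17 : kNode2 awTt FTt 3 4 (check tyTt awTt triet FTt [] c17) (fun _ _ _ => true) 0 s17 Pl.nil s17 =
    true := by
  decide +kernel

end Chk
end Pool.Agent.Lib.MP_ba95e8_co
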