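import Pool.Agent.Lib.MP_ba95e8_co.ChkTab
import Pool.Agent.Lib.MP_ba95e8_co.ChkStates

/-!
Deltahedral domes: part 18 of the case analysis.
-/

namespace Pool.Agent.Lib.MP_ba95e8_co
namespace Chk

/-- certificate number 18 -/
def c18 : Cert := (.node [64,84] 5 4 (.node [64,81,53] 1 4 (.far [1,1,4096,1,1] 4096 .stop)
 (.node [64,86,53] 6 4 (.far [1,1,4096,1,1] 4096 (.lc 3 1 (.lc 3 7 (.far [16,16,256,16,16] 1 (.node [103,112] 3 5 (.lc 2 1 (.lc 1 3 (.node [112,117] 6 7 (.lc 2 4 .stop)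
 (.node [] 5 6 (.node [81,103] 5 1 (.far [4112,4112,1,0,4112,0,256] 0 (.far [4112,4112,1,0,4112,0,256] 0 .stop))
 (.lc 1 4 (.far [4112,1,0,4112,0,256] 0 (.node [89,103] 8 5 (.far [1,4112,1,0,4112,0,256] 0 (.conf [129,150,83] (.conf [135,150,83] (.conf [138,150,83] (.node [150,83] 1 9 .stop
 (.node [150,169,83] 9 6 (.node [103,145,169] 1 6 (.far [1,1,0,1,0,4112,256] 0 (.lc 1 0 .stop))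
 (.lc 1 4 (.node [103,155,169] 10 9 (.far [16,257,16,258,16,16,513,257,4096] 0 (.lc 3 1 (.lc 3 7 (.lc 3 12 (.lc 1 6 (.lc 1 6 (.lc 3 1 (.lc 3 12 (.lc 4 12 (.lc 4 1 (.lc 4 13 .stop)))))))))))
 (.lc 2 4 (.lc 2 4 (.conf [149,161] (.lc 2 4 (.conf [149,171] (.conf [155,177] (.lc 2 4 (.lc 2 4 (.conf [103,182] (.conf [103,182] (.lc 2 4 (.lc 2 4 (.lc 2 4 (.node [103,149,161,138] 1 6 (.far [1,1,0,1,0,4112,256] 0 (.lc 1 0 .stop))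
 (.lc 2 4 (.node [103,149,171,138] 8 10 (.node [139] 11 6 (.far [1,0,1,0,1,0,4112,256] 0 (.lc 1 0 (.lc 1 0 (.lc 1 0 (.lc 1 0 (.lc 3 1 (.lc 3 12 (.lc 2 0 (.lc 2 0 (.lc 2 0 .stop))))))))))
 (.lc 3 1 (.lc 3 7 (.lc 3 12 (.lc 1 6 (.lc 1 6 (.lc 3 1 (.lc 3 12 (.lc 4 12 (.lc 4 1 (.lc 4 13 .stop)))))))))))
 (.lc 3 4 (.lc 3 4 (.lc 3 4 (.node [103,149,171,177,138] 1 6 .stop
 (.lc 3 4 (.lc 3 4 (.conf [103,182] (.conf [103,182] (.lc 3 4 (.lc 3 4 (.lc 3 4 (.lc 3 4 (.lc 3 4 (.lc 3 4 (.lc 4 4 (.lc 4 4 (.lc 4 4 .stop))))))))))))))))))))))))))))))))))))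
 (.far [1,4112,1,0,4112,0,256] 0 (.far [1,4112,1,0,4112,0,256] 0 (.conf [138,150,83] (.conf [129,150,83] (.conf [139,150,83] .stop)))))))))))
 (.lc 2 7 (.lc 2 7 (.lc 2 7 (.lc 2 7 (.lc 2 7 (.lc 3 3 (.lc 3 3 (.lc 3 3 (.far [4112,1,0,4112,0,256] 0 (.node [89,103,145,89] 1 6 .stop
 (.lc 2 4 (.lc 2 4 (.lc 2 4 (.node [81,103,150] 5 1 .stop
 (.far [4112,1,0,4112,0,256] 0 (.node [103,150,169,90] 5 10 (.far [4112,4112,1,0,4112,0,256] 0 (.lc 0 1 (.lc 0 7 (.lc 0 11 (.lc 0 1 (.lc 0 11 (.lc 2 9 (.lc 2 9 (.lc 0 11 (.lc 0 1 (.lc 0 12 .stop)))))))))))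
 (.lc 2 7 (.lc 2 7 (.lc 2 7 (.lc 2 7 (.lc 2 7 (.lc 3 3 (.lc 3 3 (.lc 3 3 (.lc 3 3 (.lc 3 3 (.lc 3 7 (.lc 3 7 (.lc 3 7 (.lc 3 7 (.lc 3 7 (.lc 3 7 (.lc 3 7 (.lc 4 3 (.lc 4 3 (.lc 4 3 (.lc 4 3 (.lc 4 3 (.lc 4 3 (.lc 4 3 (.lc 4 3 (.lc 4 3 (.lc 4 3 (.lc 4 3 (.lc 4 3 (.lc 4 3 (.lc 4 3 (.lc 5 3 (.lc 5 3 (.lc 5 3 (.lc 5 3 .stop)))))))))))))))))))))))))))))))))))))))))))))))))))))))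
 (.lc 3 1 (.lc 2 6 (.lc 3 1 (.lc 2 6 (.lc 3 8 (.lc 3 7 (.lc 3 9 (.lc 3 1 (.lc 2 3 (.lc 3 1 (.node [133,152] 5 6 (.node [81,103,133,152] 5 1 (.node [129] 8 1 (.node [134,152] 8 6 (.lc 1 0 .stop)
 (.lc 0 0 (.conf [103,150] (.lc 1 0 .stop))))
 (.lc 0 10 .stop))
 (.lc 1 4 (.node [83,134,152] 8 6 (.node [103,129] 1 6 (.far [1,1,1,0,4112,256] 0 (.lc 1 0 .stop))
 (.lc 1 4 (.node [103,138] 9 8 (.far [16,257,258,16,16,513,257,4096] 0 (.lc 3 1 (.lc 3 7 (.lc 3 11 (.lc 1 6 (.lc 1 6 (.lc 3 1 (.lc 3 11 (.lc 4 11 (.lc 4 1 (.lc 4 12 .stop)))))))))))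
 (.lc 2 4 (.lc 2 4 (.lc 3 5 (.lc 2 4 (.lc 3 5 (.conf [138,161] (.lc 2 4 (.lc 2 4 (.conf [103,166] (.conf [103,166] (.lc 2 4 (.lc 2 4 (.lc 2 4 (.lc 3 5 (.lc 2 4 (.lc 3 5 (.lc 3 4 (.lc 3 4 (.lc 3 4 (.lc 4 5 (.lc 3 4 (.lc 3 4 (.lc 4 5 (.lc 4 5 (.lc 3 4 (.lc 3 4 (.lc 3 4 (.lc 3 4 (.lc 3 4 (.lc 3 4 (.lc 4 4 (.lc 4 4 (.lc 4 4 .stop))))))))))))))))))))))))))))))))))))
 (.node [90,103,133,152] 8 5 (.node [138] 6 7 (.node [97,112] 6 1 (.far [4112,4112,0,1,0,4112,256] 0 (.conf [57,163] (.far [4112,4112,0,1,0,4112,256] 0 (.lc 1 8 .stop))))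
 (.node [105,151,152,138,112] 6 9 .stop
 (.lc 2 4 (.node [107,112] 6 11 (.far [4112,4112,0,1,0,4112,256] 0 (.lc 2 7 (.lc 2 7 (.lc 2 7 (.far [4112,4112,0,1,0,4112,256] 0 (.far [4112,4112,0,1,0,4112,256] 0 (.lc 2 7 (.lc 2 7 (.lc 3 7 (.lc 3 7 (.lc 3 7 .stop)))))))))))
 (.lc 3 4 (.lc 2 0 (.lc 2 0 (.lc 2 0 (.lc 3 4 (.lc 2 0 (.lc 2 0 (.lc 3 4 (.lc 2 0 (.node [100,112,161] 10 1 (.far [16,4112,0,0,0,4096,0,4096,0,257] 4096 (.lc 0 8 .stop))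
 (.conf [100,112,183] (.lc 3 4 (.conf [107,177] (.node [97,112,183,112] 6 1 .stop
 (.lc 3 4 (.conf [108,203] (.lc 2 0 (.lc 2 0 (.lc 3 4 (.lc 2 0 (.lc 2 0 (.lc 2 0 (.lc 2 0 (.lc 3 4 (.lc 2 0 (.lc 2 0 (.lc 2 0 (.lc 2 0 (.lc 2 0 (.node [100,112,161,138,152] 10 1 (.far [4112,4112,256,257,0,4112,256] 0 (.lc 0 5 .stop))
 (.node [100,112,152,169,138] 10 9 .stop
 (.node [100,112,171,138,152] 8 10 (.far [1,4112,256,257,0,4112,256] 0 (.lc 3 5 (.node [129,183] 8 1 .stop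
 (.conf [140,203] (.lc 3 5 (.lc 4 5 (.lc 4 5 .stop)))))))
 (.lc 3 0 (.lc 4 4 (.lc 3 0 (.lc 4 4 (.lc 3 0 (.lc 3 0 (.lc 4 4 (.lc 3 0 (.node [100,112,171,177,138,152] 1 7 .stop
 (.conf [100,112,183] (.conf [100,112,183] (.lc 3 0 (.lc 3 0 (.lc 3 0 (.lc 3 0 (.lc 3 0 (.lc 3 0 (.lc 3 0 (.lc 3 0 (.lc 3 0 (.lc 3 0 (.lc 3 0 (.lc 3 0 (.lc 3 0 (.lc 3 0 (.lc 3 0 (.lc 3 0 (.lc 4 0 (.lc 4 0 (.lc 4 0 (.lc 4 0 (.lc 4 0 .stop))))))))))))))))))))))))))))))))))))))))))))))))))))))))))))))))))))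
 (.lc 3 1 (.lc 3 7 (.lc 3 11 (.lc 1 6 (.lc 1 6 (.lc 3 1 (.lc 3 11 (.lc 4 11 (.lc 4 1 (.lc 4 12 .stop)))))))))))
 (.lc 2 7 (.lc 2 7 (.lc 2 7 (.lc 2 7 (.lc 2 7 (.lc 3 3 (.lc 3 3 (.lc 3 3 (.node [103,129,152,57] 8 1 .stop
 (.conf [90,161] (.lc 2 4 (.lc 2 4 (.lc 2 4 (.node [81,103,166,133,152] 5 1 .stop
 (.conf [103,138,166] (.conf [91,186] (.lc 2 7 (.lc 2 7 (.lc 2 7 (.lc 2 7 (.lc 2 7 (.lc 3 3 (.lc 3 3 (.lc 3 3 (.lc 3 3 (.lc 3 3 (.lc 3 7 (.lc 3 7 (.lc 3 7 (.lc 3 7 (.lc 3 7 (.lc 3 7 (.lc 3 7 (.lc 4 3 (.lc 4 3 (.lc 4 3 (.lc 4 3 (.lc 4 3 (.lc 4 3 (.lc 4 3 (.lc 4 3 (.lc 4 3 (.lc 4 3 (.lc 4 3 (.lc 4 3 (.lc 4 3 (.lc 4 3 (.lc 5 3 (.lc 5 3 (.lc 5 3 (.lc 5 3 .stop)))))))))))))))))))))))))))))))))))))))))))))))))))))))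
 (.lc 3 1 (.lc 2 6 (.lc 2 6 (.lc 3 8 (.lc 3 7 (.lc 3 9 (.lc 3 7 (.lc 3 8 (.lc 3 8 (.lc 3 9 (.lc 4 1 (.lc 3 6 (.lc 4 9 (.lc 4 10 (.lc 4 9 (.lc 4 10 (.lc 4 9 (.lc 4 10 (.lc 4 7 (.lc 4 10 (.lc 5 11 .stop))))))))))))))))))))))))))))))))))))
 (.lc 3 1 (.lc 3 7 (.lc 4 7 (.lc 4 8 .stop)))))))))
 (.node [64,81] 3 5 (.conf [49,81,16] (.node [81,101,54] 5 1 (.far [4112,1,4112,4112,256] 4097 (.lc 2 7 (.lc 3 1 (.far [4112,1,4112,4112,256] 4097 (.lc 3 8 (.lc 3 1 (.lc 4 1 .stop)))))))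
 (.lc 2 1 (.lc 3 7 (.node [81,101,118,55] 5 1 (.node [97,118] 6 1 .stop
 (.lc 2 8 (.lc 3 1 (.node [104,129,118,55] 7 6 (.far [1,4112,1,4112,4112,256] 4097 (.lc 3 9 (.lc 1 1 (.lc 3 9 (.lc 4 10 .stop)))))
 (.lc 3 9 (.lc 3 1 (.lc 4 1 .stop)))))))
 (.lc 2 1 (.lc 3 7 (.lc 3 7 (.lc 3 1 (.lc 4 8 (.lc 4 8 (.lc 4 8 (.lc 4 8 (.lc 5 9 .stop))))))))))))))
 (.node [64,86,96,86,53] 3 5 (.lc 1 6 (.lc 0 0 (.lc 1 6 (.lc 2 6 (.lc 2 6 (.lc 3 7 (.lc 3 8 (.far [4096,4096,4096,0,257] 4096 (.conf [55,118] (.lc 2 6 (.lc 2 6 (.lc 2 6 (.lc 2 6 (.lc 3 8 (.lc 3 7 (.lc 3 8 (.lc 3 6 (.lc 3 6 (.lc 4 8 (.lc 4 9 (.lc 4 9 (.lc 4 9 (.lc 4 9 (.lc 5 10 .stop))))))))))))))))))))))))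
 (.node [64,86,97,53] 1 4 (.node [] 6 1 (.node [] 3 5 (.node [55,86] 5 6 (.far [4112,1,0,1,4096,4112,257] 0 (.lc 0 8 (.lc 0 8 (.node [99,134] 6 3 .stop
 (.lc 0 9 .stop)))))
 (.conf [86,117] .stop))
 (.lc 3 7 (.far [16,0,4112,0,16,256] 0 (.lc 3 7 (.lc 4 8 .stop)))))
 .stop)
 (.conf [64,100] (.conf [64,100] (.conf [64,86,97] (.conf [64,100] (.conf [64,100] (.node [64,81] 3 5 (.far [256,256,256,0,4112] 1 (.node [81,101,54] 5 1 (.node [97] 3 6 (.far [256,1,0,256,256,0,4112] 1 (.node [55,97] 1 3 (.far [16,257,257,256,256,256,0,4112] 1 (.far [16,257,257,256,256,256,0,4112] 1 .stop))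
 (.lc 2 1 (.node [56,97,135,56,118] 3 8 (.node [135] 6 1 .stop
 (.lc 2 7 .stop))
 (.lc 2 1 (.lc 3 1 .stop))))))
 (.lc 2 7 (.node [103,113,54] 7 1 (.far [1,4096,1,0,0,257,4096] 0 (.lc 3 8 .stop))
 (.lc 3 8 (.lc 3 1 (.far [4112,1,4112,4112,256] 0 (.lc 3 8 (.far [257,16,257,257,4096] 0 (.lc 3 8 (.lc 3 1 (.lc 3 1 (.node [104,113,135,54,19,113] 1 3 (.node [115] 3 6 .stop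
 (.lc 0 9 .stop))
 (.lc 4 9 (.lc 4 1 (.lc 4 1 (.lc 4 1 (.lc 4 1 (.lc 5 1 .stop))))))))))))))))))
 (.lc 2 1 (.lc 3 7 (.node [81,101,118,55] 6 5 (.far [16,16,257,257,4096] 0 (.lc 1 1 (.lc 2 1 (.node [104,129,118,55] 7 6 (.far [16,16,16,257,257,4096] 0 (.lc 3 9 (.far [16,16,16,257,257,4096] 0 (.lc 3 9 (.lc 4 10 .stop)))))
 (.lc 2 1 (.conf [104,129] (.lc 2 1 (.lc 2 1 (.lc 2 1 (.node [104,129,118,55] 7 6 (.node [120] 3 7 (.lc 1 8 (.lc 2 9 (.lc 3 9 (.lc 3 1 (.lc 3 10 (.far [256,256,256,0,256,256,0,4112] 1 .stop))))))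
 (.lc 3 9 (.lc 1 1 (.lc 3 9 (.lc 4 10 .stop)))))
 (.lc 2 1 (.lc 3 1 (.node [105,152,118,129,55] 7 6 (.far [16,16,16,257,257,4096] 0 (.lc 3 10 (.lc 1 8 (.lc 3 10 (.lc 4 11 .stop)))))
 (.lc 3 1 (.lc 3 1 (.lc 3 1 (.lc 3 1 (.lc 4 1 .stop))))))))))))))))))
 (.lc 2 1 (.lc 3 7 (.lc 3 7 (.lc 3 1 (.lc 4 8 (.lc 4 8 (.lc 4 8 (.lc 4 8 (.lc 5 9 .stop))))))))))))))
 (.node [64,86] 3 5 (.conf [49,86] (.node [83,54,96] 3 6 (.far [257,257,0,0,257,4096] 0 (.lc 2 7 (.lc 2 0 (.lc 3 8 (.lc 3 1 (.node [96,118] 6 0 .stop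
 (.lc 3 8 (.lc 2 0 (.lc 3 8 (.lc 3 1 (.lc 0 0 (.lc 3 1 (.lc 3 0 (.lc 4 9 (.lc 4 1 (.lc 4 1 (.lc 4 1 (.lc 4 1 (.lc 5 1 .stop)))))))))))))))))))
 (.node [86,117,55] 5 6 (.lc 2 1 (.node [118] 3 7 (.conf [49,118] (.conf [54,115] (.node [56,118,96] 3 8 (.far [257,257,0,257,0,0,257,4096] 0 (.node [104,135,118,49,104] 6 8 .stop
 (.node [135,152,118,49] 8 7 (.lc 1 3 (.node [118,138,152] 7 6 (.node [96] 8 10 (.far [257,0,257,256,1,0,257,0,0,257,4096] 0 (.lc 2 6 (.node [155,186] 11 10 (.far [16,16,4096,4096] 0 (.node [166,188] 10 6 (.far [257,16,16,4096,4096] 0 (.lc 0 13 .stop))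
 (.conf [188,198] (.lc 3 13 (.conf [166,202] (.lc 3 12 (.lc 3 12 (.lc 3 13 (.lc 4 14 (.lc 4 13 .stop))))))))))
 (.lc 2 6 (.lc 3 6 .stop)))))
 (.lc 2 0 (.lc 2 0 (.far [4112,1,0,1,256,256] 0 (.far [4112,1,0,1,256,256] 0 (.lc 2 0 (.lc 2 0 (.lc 3 0 (.lc 3 0 (.lc 3 0 .stop))))))))))
 (.lc 2 3 (.lc 1 0 (.conf [131,167,118] (.lc 1 0 (.conf [139,186] (.lc 1 0 (.lc 2 3 (.lc 2 3 (.conf [131,154] (.lc 2 0 (.lc 2 0 (.conf [131,155] (.lc 3 3 (.lc 2 0 (.lc 2 0 (.lc 3 0 .stop))))))))))))))))))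
 (.node [152,135] 7 6 (.node [115,134] 8 6 (.far [257,4096,16,4096] 0 (.node [96,138,152] 9 8 (.far [16,257,4096,16,4096] 0 (.lc 3 11 (.lc 1 6 (.lc 3 11 (.lc 4 12 .stop)))))
 (.lc 3 3 (.conf [96,154,166] (.conf [139,186] (.lc 3 3 (.lc 4 3 .stop)))))))
 (.node [121,150,152,135] 7 9 (.lc 0 3 .stop)
 (.node [96,122] 8 7 (.node [138] 9 8 (.far [16,257,0,16,4096] 0 (.node [138,155] 11 8 (.far [16,16,257,0,16,4096] 0 (.lc 3 12 (.far [16,16,257,0,16,4096] 0 (.lc 3 12 (.lc 4 13 .stop)))))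
 (.conf [131,155,186] (.conf [131,166] (.conf [138,156] (.conf [131,166] (.conf [138,184] (.node [131,155,166] 10 6 (.far [257,16,1,4096,16,4096] 0 (.node [188,198,96] 12 6 .stop
 .stop))
 (.lc 1 6 (.conf [131,155] (.conf [131,155,186,115,166] (.conf [138,156] (.conf [131,156,203] (.conf [131,166] (.conf [138,157] (.conf [131,156] (.conf [131,156] (.conf [131,156] (.conf [131,157] .stop)))))))))))))))))))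
 (.lc 3 11 (.lc 3 3 (.far [16,257,0,16,4096,4096] 0 (.lc 3 11 (.lc 4 12 .stop))))))
 (.lc 2 0 (.lc 2 0 (.lc 2 0 (.lc 2 0 (.lc 3 3 (.lc 3 3 (.lc 0 10 (.node [96,166,186,123,135,152] 8 7 (.far [1,4112,0,1,256,256] 0 (.lc 3 12 (.lc 3 3 (.lc 1 10 (.lc 3 12 (.lc 4 13 .stop))))))
 (.lc 2 0 (.lc 2 0 (.lc 2 0 (.lc 2 0 (.lc 2 0 (.lc 2 0 (.lc 3 3 (.lc 3 0 (.lc 3 0 (.lc 4 3 (.lc 3 0 (.lc 3 0 (.lc 3 0 (.lc 3 0 (.lc 4 0 .stop))))))))))))))))))))))))))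
 (.far [257,257,0,257,0,0,257,4096] 0 (.node [135,152,169,118,49] 8 7 (.lc 1 3 (.node [118,139,152,169] 9 8 (.far [16,257,256,1,0,257,0,0,257,4096] 0 (.lc 3 6 (.lc 3 12 (.lc 1 7 (.lc 3 12 (.lc 4 13 .stop))))))
 (.lc 2 3 (.lc 1 0 (.conf [131,155] (.lc 1 0 (.conf [140,203] (.lc 1 0 (.lc 2 3 (.lc 2 3 (.node [131,155,169,118] 10 9 (.conf [171,183] (.lc 3 6 (.lc 3 12 (.lc 1 7 (.lc 3 12 (.lc 4 13 .stop))))))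
 (.lc 2 0 (.lc 2 0 (.conf [131,183,118] (.lc 3 3 (.lc 2 0 (.lc 2 0 (.lc 3 0 .stop))))))))))))))))))
 .stop))))))
 (.lc 2 6 (.lc 2 6 (.lc 3 1 (.lc 3 1 (.lc 1 0 (.lc 1 0 (.conf [49,118] (.node [57,118,152,96,57,135] 3 9 (.node [152] 7 6 (.node [96,113] 7 1 .stop
 (.far [257,0,16,4096,4096] 0 (.node [96,122] 8 7 (.far [16,257,0,16,4096,4096] 0 (.lc 3 1 (.lc 3 11 (.lc 1 6 (.lc 3 11 (.lc 4 12 .stop))))))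
 (.lc 2 0 (.lc 2 0 (.lc 2 0 (.lc 2 0 (.lc 3 3 (.lc 0 10 (.conf [123,186] (.lc 2 0 (.lc 2 0 (.lc 2 0 (.lc 2 0 (.lc 2 0 (.lc 3 3 (.lc 3 3 (.lc 3 0 (.lc 3 0 (.lc 4 3 (.lc 3 0 (.lc 3 0 (.lc 3 0 (.lc 3 0 (.lc 3 0 (.lc 4 0 .stop))))))))))))))))))))))))))
 (.lc 2 8 (.lc 2 8 (.node [152,169,152,135,118] 8 7 (.lc 1 3 (.lc 0 9 (.node [118,139] 7 6 (.far [257,16,0,16,4096,4096] 0 (.lc 2 0 (.lc 2 0 (.lc 0 12 (.lc 2 0 (.lc 3 0 .stop))))))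
 (.lc 2 3 (.lc 1 0 (.lc 1 0 (.lc 3 10 (.lc 3 12 (.lc 1 0 (.conf [118,183] (.lc 1 0 (.lc 1 0 (.lc 2 3 (.lc 2 3 (.lc 1 7 (.lc 2 3 (.lc 3 11 (.lc 3 12 (.lc 2 0 (.lc 2 0 (.lc 4 13 (.lc 3 3 (.lc 1 6 (.lc 2 0 (.lc 2 0 (.lc 2 0 (.lc 2 0 (.lc 3 0 .stop))))))))))))))))))))))))))))
 (.lc 2 8 (.lc 3 8 .stop))))))
 (.lc 2 6 (.lc 2 6 (.lc 3 1 (.lc 3 1 (.lc 3 1 (.lc 3 6 (.lc 3 6 (.lc 4 1 (.lc 4 1 (.lc 4 1 (.lc 4 1 (.lc 4 1 (.lc 5 1 .stop))))))))))))))))))))))))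
 (.lc 2 8 (.lc 2 0 (.lc 3 8 (.lc 3 1 (.lc 2 0 (.lc 3 9 (.lc 3 3 (.lc 3 3 (.far [4112,1,4112,4112,256] 0 (.lc 3 8 (.lc 3 1 (.far [4112,1,4112,4112,256] 0 (.lc 3 9 (.lc 2 0 (.lc 3 8 (.lc 3 1 (.lc 2 0 (.lc 3 9 (.lc 3 3 (.lc 3 3 (.lc 3 3 (.lc 3 3 (.lc 3 0 (.lc 4 9 (.lc 3 0 (.lc 4 9 (.lc 4 1 (.lc 3 0 (.lc 4 10 (.lc 4 3 (.lc 4 3 (.lc 4 3 (.lc 4 3 (.lc 4 3 (.lc 4 3 (.lc 4 3 (.lc 4 3 (.lc 4 3 (.lc 4 3 (.lc 4 3 (.lc 4 3 (.lc 5 3 (.lc 5 3 (.lc 5 3 (.lc 5 3 .stop)))))))))))))))))))))))))))))))))))))))))))))))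
 (.lc 2 6 (.lc 2 6 (.lc 3 7 (.lc 3 8 (.lc 1 0 (.lc 1 0 (.conf [49,86] (.node [86,117,135,56] 7 5 (.lc 1 6 (.far [16,16,257,257,4096] 0 (.lc 1 6 (.lc 2 3 (.lc 2 3 (.lc 2 6 (.lc 1 0 (.lc 1 0 (.lc 2 6 (.lc 2 6 (.lc 2 6 (.lc 1 0 (.lc 1 0 (.lc 2 6 (.lc 2 6 (.lc 2 3 (.lc 2 3 (.lc 2 3 (.lc 2 3 (.lc 2 6 (.node [113,135,56] 7 1 .stop
 (.node [121,150,135,96,56] 8 7 (.node [137] 3 8 (.lc 1 9 (.lc 2 6 (.lc 2 10 (.lc 1 6 (.lc 3 10 (.lc 3 1 (.lc 2 9 (.lc 3 11 (.lc 3 6 (.lc 3 1 (.lc 3 1 (.lc 3 1 (.lc 1 0 (.lc 4 10 (.lc 4 1 (.lc 4 1 (.lc 4 1 (.lc 4 1 (.lc 5 1 .stop)))))))))))))))))))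
 (.lc 3 1 (.lc 3 10 (.lc 1 6 (.lc 1 6 (.lc 3 1 (.lc 3 10 (.lc 4 10 (.lc 4 1 (.lc 4 11 .stop))))))))))
 (.lc 2 6 (.lc 2 6 (.lc 3 3 (.lc 3 3 (.lc 3 3 (.lc 3 6 (.lc 2 0 (.lc 2 0 (.lc 2 0 (.lc 3 6 (.lc 3 6 (.lc 3 6 (.lc 3 3 (.lc 3 3 (.lc 3 3 (.lc 3 3 (.lc 3 3 (.lc 3 3 (.lc 3 3 (.lc 3 3 (.lc 3 3 (.lc 4 3 (.lc 4 3 (.lc 4 3 (.lc 4 3 .stop)))))))))))))))))))))))))))))))))))))))))))))))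
 (.lc 2 6 (.lc 2 6 (.lc 3 8 (.lc 3 7 (.lc 3 8 (.lc 3 6 (.lc 3 6 (.lc 4 8 (.lc 4 9 (.lc 4 9 (.lc 4 9 (.lc 4 9 (.lc 5 10 .stop))))))))))))))))))))))))
 (.conf [64,81] (.conf [64,86] (.node [64,86,97,53] 1 4 (.far [257,1,0,1,1] 16 .stop)
 (.node [64,81,53] 5 1 .stop
 (.node [64,87,118,53] 6 4 (.far [1,1,4096,1,1] 4096 (.lc 3 1 (.lc 3 8 (.node [] 3 5 (.lc 2 1 (.node [87] 5 7 (.far [4112,1,1,1,4112,258,2] 4112 (.lc 2 6 (.lc 0 9 (.lc 2 6 (.lc 3 6 .stop)))))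
 (.lc 2 3 (.lc 3 9 (.conf [87,133] (.lc 3 1 (.lc 2 3 (.lc 3 8 (.lc 3 9 (.lc 3 3 (.lc 4 10 (.lc 4 9 (.lc 4 9 (.lc 4 9 (.lc 5 10 .stop)))))))))))))))
 (.node [128] 3 5 (.lc 2 1 (.node [87,128,133] 8 5 .stop
 (.node [87] 5 7 (.node [118,151] 7 6 (.node [104,113] 7 1 (.far [4112,4112,4096,1,0,4112,0,256] 0 (.lc 0 10 (.lc 0 3 .stop)))
 (.lc 1 4 (.node [104,122] 9 7 (.far [1,4112,4096,1,0,4112,0,256] 0 (.lc 3 1 (.lc 3 8 (.lc 3 11 (.lc 1 6 (.lc 1 6 (.lc 3 1 (.lc 3 11 (.lc 4 11 (.lc 4 1 (.lc 4 12 .stop)))))))))))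
 (.lc 2 8 (.lc 2 8 (.lc 2 8 (.lc 3 5 (.lc 2 4 (.lc 3 5 (.conf [122,161] (.lc 2 4 (.lc 2 4 (.conf [104,166] (.conf [104,166] (.lc 2 8 (.lc 2 8 (.lc 2 8 (.lc 2 8 (.lc 2 8 (.lc 2 8 (.lc 2 8 (.lc 3 5 (.lc 2 4 (.lc 3 5 (.lc 3 8 (.lc 3 8 (.lc 3 8 (.lc 3 8 (.lc 4 5 (.lc 3 4 (.lc 3 4 (.lc 4 5 (.lc 4 5 (.lc 3 8 (.lc 3 8 (.lc 3 8 (.lc 3 8 (.lc 3 8 (.lc 3 8 (.lc 3 8 (.lc 3 8 (.lc 3 8 (.lc 3 8 (.lc 4 8 (.lc 4 8 (.lc 4 8 (.lc 4 8 .stop)))))))))))))))))))))))))))))))))))))))))))))))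
 (.lc 2 6 (.lc 2 6 (.lc 2 6 (.lc 0 1 (.lc 0 10 (.lc 2 6 (.lc 2 6 (.lc 3 6 (.lc 3 6 (.lc 3 6 .stop)))))))))))
 (.lc 3 1 (.lc 2 3 (.lc 3 8 (.lc 3 10 (.lc 3 1 (.conf [87,149] (.lc 3 1 (.lc 2 3 (.lc 2 3 (.lc 3 8 (.lc 3 9 (.lc 3 9 (.lc 3 10 (.lc 4 1 (.lc 3 3 (.lc 4 11 (.lc 4 10 (.lc 4 9 (.lc 4 10 (.lc 4 8 (.lc 4 10 (.lc 5 11 .stop)))))))))))))))))))))))))
 (.lc 3 1 (.lc 3 8 (.lc 4 8 (.lc 4 9 .stop)))))))))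
 (.node [64,86,97,86,53] 3 5 (.lc 0 1 (.lc 1 6 (.lc 2 6 (.lc 3 7 (.lc 3 8 (.conf [55,118] (.lc 2 6 (.lc 2 6 (.lc 3 8 (.lc 3 7 (.lc 3 8 (.lc 3 6 (.lc 4 8 (.lc 4 9 (.lc 4 9 (.lc 4 9 (.lc 4 9 (.lc 5 10 .stop))))))))))))))))))
 (.node [64,87,118,87,96,53] 3 5 (.lc 1 7 (.lc 0 6 (.lc 1 7 (.lc 2 7 (.lc 2 7 (.lc 3 8 (.lc 3 9 (.node [49,118] 7 6 (.lc 0 6 (.lc 0 8 .stop))
 (.conf [56,135] (.lc 2 7 (.lc 2 7 (.lc 2 7 (.lc 2 7 (.lc 3 9 (.lc 3 8 (.lc 3 9 (.lc 3 7 (.lc 3 7 (.lc 4 9 (.lc 4 10 (.lc 4 10 (.lc 4 10 (.lc 4 10 (.lc 5 11 .stop))))))))))))))))))))))))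
 (.node [64,87,118,53,97] 1 4 (.node [19] 6 1 (.far [16,0,4112,0,16,256] 0 (.lc 1 5 (.lc 1 5 (.lc 3 8 (.lc 2 5 .stop)))))
 .stop)
 (.conf [64,100] (.conf [64,100] (.conf [64,100] (.conf [64,86] (.conf [64,87] (.conf [64,86] (.conf [64,87] (.conf [64,86] (.conf [64,87] (.conf [64,87] (.conf [64,88] .stop)))))))))))))))))))))))))))))))
 (.node [32,70,84] 6 2 (.node [96] 4 6 (.lc 1 0 (.node [65,96,84,53] 4 1 (.far [4112,4112,1,4096,1,1] 4096 (.far [4112,4112,1,4096,1,1] 4096 .stop))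
 (.node [71,96,84,53] 5 4 (.far [1,4112,1,4096,1,1] 4096 (.lc 1 6 (.lc 1 6 (.lc 1 6 (.lc 1 6 (.lc 1 6 (.far [1,4112,1,4096,1,1] 4096 (.far [1,4112,1,4096,1,1] 4096 (.lc 2 6 (.lc 2 6 (.lc 2 6 (.lc 2 6 .stop))))))))))))
 (.lc 2 0 (.lc 2 0 (.lc 2 0 (.lc 2 0 (.node [66,81,96] 1 6 (.lc 1 0 .stop)
 (.conf [66,96,118] (.lc 2 0 (.lc 2 0 (.conf [71,113] (.node [65,96,118,84,53] 4 1 .stop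
 (.conf [72,135] (.lc 2 0 (.lc 2 0 (.lc 2 0 (.lc 2 0 (.lc 2 0 (.lc 2 0 (.conf [66,81] (.conf [66,87] (.lc 3 0 (.lc 3 0 (.lc 3 0 (.lc 3 0 (.lc 3 0 (.lc 3 0 (.conf [66,87] (.conf [66,81] (.conf [66,88] (.lc 3 0 (.lc 3 0 (.lc 3 0 (.lc 3 0 (.lc 3 0 (.lc 3 0 (.lc 3 0 (.lc 3 0 (.lc 3 0 (.lc 4 0 (.lc 4 0 (.lc 4 0 (.lc 4 0 .stop))))))))))))))))))))))))))))))))))))))))))))
 (.lc 3 7 (.node [103,112] 4 6 (.node [65,103,84,53] 4 1 (.node [81] 5 1 (.lc 0 1 (.node [103] 5 6 (.far [1,256,0,1,4112,256] 0 (.lc 3 1 (.lc 0 7 (.lc 1 0 (.lc 0 7 (.lc 0 8 .stop))))))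
 (.lc 3 7 (.lc 0 0 (.lc 3 7 (.lc 3 8 (.lc 4 8 .stop)))))))
 (.node [88,129] 8 1 (.node [22,131] 1 6 .stop
 (.far [16,16,4096] 0 (.lc 3 7 (.lc 3 9 (.lc 3 7 (.conf [22,53] (.lc 0 0 (.lc 3 9 (.lc 1 1 (.lc 3 9 (.lc 4 10 (.lc 1 0 .stop))))))))))))
 .stop))
 (.lc 1 2 (.node [72,103,84,53] 5 4 (.node [88] 6 7 (.node [97,112] 6 1 (.far [4112,4112,0,1,4112,256] 0 (.node [131,53] 8 3 (.lc 0 3 .stop)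
 (.far [4112,4112,0,1,4112,256] 0 (.far [4112,4112,0,1,4112,256] 0 (.far [257,0,16,256,0,0,16,256] 0 (.far [256,0,16,256,0,0,16,256] 0 .stop))))))
 (.node [99,112] 6 3 .stop
 (.node [101,112] 6 5 (.lc 0 4 .stop)
 (.lc 2 2 (.node [105,112] 6 9 (.far [4112,4112,0,1,4112,256] 0 (.lc 2 7 (.lc 2 7 (.lc 2 7 (.far [4112,4112,0,1,4112,256] 0 (.far [4112,4112,0,1,4112,256] 0 (.lc 2 7 (.lc 1 9 (.lc 2 7 (.lc 3 7 (.lc 3 7 (.lc 3 7 (.lc 3 7 .stop)))))))))))))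
 (.lc 2 0 (.lc 3 2 (.lc 2 0 (.lc 0 8 (.lc 3 2 (.lc 2 0 (.lc 2 0 (.lc 2 0 (.lc 2 0 (.lc 3 2 (.lc 2 0 (.node [98,112,129] 8 1 (.far [16,4112,0,0,4096,0,0,257] 4096 (.far [16,4112,0,0,4096,0,0,257] 4096 .stop))
 (.lc 1 7 (.conf [98,112,151] (.conf [53,99] (.lc 3 2 (.conf [105,145] (.lc 1 7 (.node [97,112,151,112] 6 1 (.lc 2 9 .stop)
 (.lc 3 2 (.conf [106,169] (.lc 2 0 (.lc 2 0 (.lc 3 2 (.lc 2 0 (.lc 1 7 (.lc 1 7 (.lc 2 0 (.lc 2 0 (.lc 2 0 (.lc 3 2 (.lc 2 0 (.lc 2 0 (.lc 2 0 (.lc 2 0 (.lc 2 0 (.node [98,112,129] 8 1 (.far [4112,4112,256,257,4112,256] 0 (.lc 0 9 .stop))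
 (.node [98,112,131] 8 3 (.lc 0 3 .stop)
 (.node [98,112,137] 5 8 (.far [1,4112,256,257,4112,256] 0 (.lc 3 1 (.lc 3 10 (.node [151] 1 9 (.far [4112,16,257,4112,0,256,0,16,16] 1 (.lc 1 0 .stop))
 (.lc 0 9 (.node [151,169] 9 7 (.node [112,145] 1 7 (.far [1,1,0,1,0,1,272,256] 34 .stop)
 (.node [112,147] 3 7 (.lc 0 0 .stop)
 (.node [112,155] 10 9 (.far [16,257,16,258,4096,4096] 0 (.lc 3 1 (.lc 3 3 (.lc 3 12 (.lc 1 7 (.lc 1 7 (.lc 3 1 (.lc 3 12 (.lc 4 3 (.lc 4 12 (.lc 4 1 (.lc 4 13 .stop))))))))))))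
 (.lc 2 0 (.lc 2 0 (.lc 3 7 (.lc 3 7 (.conf [53,147] (.conf [155,177] (.conf [112,183] (.conf [112,183] (.lc 2 0 (.lc 2 0 (.lc 3 7 (.lc 3 7 (.lc 3 7 (.lc 1 0 (.lc 3 0 (.lc 4 7 (.lc 4 7 (.lc 4 7 (.lc 4 7 (.lc 3 0 (.lc 3 0 (.lc 3 0 (.lc 3 0 (.lc 2 0 (.lc 4 0 .stop))))))))))))))))))))))))))))
 (.lc 3 1 (.lc 3 10 (.lc 4 10 (.lc 4 1 (.lc 4 11 .stop)))))))))))
 (.lc 4 2 (.lc 3 0 (.lc 4 2 (.lc 3 0 (.lc 2 7 (.lc 3 0 (.lc 4 2 (.lc 3 0 (.lc 1 9 (.lc 3 0 (.lc 4 2 (.lc 3 0 (.far [4112,0,0,4096,0,0,257] 4096 (.node [98,112,137,145] 1 7 .stop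
 (.conf [98,112,151] (.conf [98,112,151] (.lc 3 0 (.lc 3 0 (.lc 3 0 (.lc 3 0 (.lc 3 0 (.lc 3 0 (.lc 3 0 (.lc 3 0 (.lc 3 0 (.lc 3 0 (.lc 3 0 (.lc 1 1 (.lc 3 0 (.lc 3 0 (.lc 1 9 (.lc 3 0 (.lc 4 0 (.lc 4 0 (.lc 4 0 (.lc 4 0 (.lc 4 0 (.lc 4 0 .stop))))))))))))))))))))))))))))))))))))))))))))))))))))))))))))))))))))))))))))))))))
 (.lc 1 6 (.lc 1 6 (.lc 1 6 (.lc 1 6 (.lc 1 6 (.node [81] 5 1 .stop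
 (.node [89,152] 3 5 (.lc 2 1 (.node [89,112,117] 7 5 .stop
 (.node [89] 5 9 (.far [4112,1,1,4112,0,4112,258] 0 (.lc 2 8 (.lc 2 8 (.lc 2 8 (.lc 0 1 (.lc 0 11 (.lc 2 8 (.lc 2 8 (.lc 3 8 (.lc 3 8 (.lc 3 8 .stop)))))))))))
 (.lc 3 1 (.lc 2 3 (.lc 3 0 (.lc 3 7 (.lc 3 11 (.lc 3 1 (.conf [89,165] (.lc 3 1 (.lc 2 3 (.lc 2 3 (.lc 3 7 (.lc 3 10 (.lc 3 7 (.lc 3 10 (.lc 3 11 (.lc 4 1 (.lc 3 3 (.lc 4 12 (.lc 4 11 (.lc 4 7 (.lc 4 10 (.lc 4 11 (.lc 4 0 (.lc 4 7 (.lc 4 11 (.lc 5 12 .stop)))))))))))))))))))))))))))))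
 (.lc 2 6 (.lc 2 6 (.lc 2 6 .stop)))))))))))
 (.lc 2 7 (.lc 2 7 (.lc 2 7 (.node [66,81,103] 1 6 .stop
 (.lc 2 2 (.conf [66,103,134] (.conf [72,129] (.lc 2 2 (.lc 2 2 (.node [65,103,134,84,53] 4 1 .stop
 (.conf [73,152] (.lc 2 7 (.lc 2 7 (.lc 2 7 (.lc 2 7 (.lc 2 7 (.conf [66,81] (.lc 2 2 (.conf [66,88] (.lc 3 7 (.lc 3 7 (.lc 3 7 (.lc 3 7 (.conf [66,88] (.lc 3 2 (.lc 3 2 (.conf [66,81] (.conf [66,89] (.lc 3 7 (.lc 3 7 (.lc 3 7 (.lc 3 7 (.lc 3 7 (.lc 3 7 (.lc 3 7 (.lc 3 7 (.lc 3 7 (.lc 4 7 (.lc 4 7 (.lc 4 7 (.lc 4 7 .stop))))))))))))))))))))))))))))))))))))))))))))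
 (.lc 3 7 (.lc 4 8 .stop)))))
 (.node [32,70,96,84,70] 4 6 (.lc 2 1 (.lc 2 7 (.lc 3 7 (.lc 3 1 (.lc 3 8 (.node [81,96] 1 6 .stop
 (.node [87,118,87,53] 7 6 (.lc 1 0 (.lc 0 5 (.lc 1 0 (.lc 1 1 (.node [120,128] 5 7 (.lc 2 1 (.lc 1 8 (.lc 2 9 (.lc 3 1 (.lc 0 8 (.lc 3 9 (.lc 3 9 (.lc 3 1 (.lc 3 10 (.lc 3 9 (.lc 3 1 (.lc 0 9 (.lc 3 10 (.lc 3 1 (.lc 1 0 (.lc 3 9 (.lc 3 1 (.lc 3 9 (.lc 3 9 (.lc 3 1 (.lc 3 10 (.lc 4 9 (.lc 4 1 (.lc 0 9 (.lc 4 10 (.lc 4 10 (.lc 4 10 (.lc 4 1 (.lc 4 11 (.lc 4 9 (.lc 4 1 (.lc 4 10 (.lc 4 9 (.lc 4 1 (.lc 4 10 (.lc 4 9 (.lc 4 1 (.lc 4 10 (.lc 5 10 (.lc 5 10 (.lc 5 1 (.lc 5 11 .stop))))))))))))))))))))))))))))))))))))))))))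
 (.lc 2 0 (.lc 2 0 (.lc 2 0 (.lc 0 5 (.lc 2 0 (.lc 0 5 (.lc 2 0 (.lc 2 0 (.lc 2 0 (.node [113] 5 7 (.lc 1 1 (.lc 2 8 (.lc 3 8 (.lc 3 9 (.lc 0 8 (.lc 3 9 (.lc 0 1 (.lc 3 8 (.lc 3 8 (.lc 3 9 (.lc 4 9 (.lc 4 10 (.lc 4 9 (.lc 4 9 (.lc 4 9 (.lc 5 10 .stop))))))))))))))))
 (.lc 0 5 (.node [120,128] 5 7 (.lc 2 1 (.lc 1 8 (.lc 2 9 (.lc 3 1 (.lc 0 8 (.lc 3 9 (.lc 3 9 (.lc 3 1 (.lc 3 10 (.lc 3 9 (.lc 3 1 (.lc 0 9 (.lc 3 10 (.lc 3 1 (.conf [56,128] (.lc 3 9 (.lc 3 1 (.lc 3 9 (.lc 3 9 (.lc 3 1 (.lc 3 10 (.lc 4 9 (.lc 4 1 (.lc 0 9 (.lc 4 10 (.lc 4 10 (.lc 4 10 (.lc 4 1 (.lc 4 11 (.lc 4 9 (.lc 4 1 (.lc 4 10 (.lc 4 9 (.lc 4 1 (.lc 4 10 (.lc 4 9 (.lc 4 1 (.lc 4 10 (.lc 5 10 (.lc 5 10 (.lc 5 1 (.lc 5 11 .stop))))))))))))))))))))))))))))))))))))))))))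
 (.lc 1 1 (.lc 0 5 (.lc 3 8 (.lc 0 5 (.lc 2 0 (.lc 1 5 (.lc 2 0 (.lc 2 0 (.lc 1 0 (.node [120,129] 5 7 (.lc 1 8 (.lc 2 9 (.lc 0 8 (.lc 3 9 (.lc 3 10 (.lc 0 9 (.lc 3 10 (.lc 1 1 (.lc 3 9 (.lc 3 9 (.lc 3 10 (.lc 0 9 (.lc 4 10 (.lc 4 11 (.lc 4 10 (.lc 4 10 (.lc 4 10 (.lc 5 11 .stop))))))))))))))))))
 (.node [121,152,128] 5 7 (.lc 2 1 (.lc 1 9 (.lc 2 10 (.lc 3 1 (.lc 0 9 (.lc 3 10 (.lc 3 10 (.lc 3 1 (.lc 3 11 (.lc 3 10 (.lc 3 1 (.lc 0 10 (.lc 3 11 (.lc 3 1 (.lc 1 8 (.lc 3 10 (.lc 3 1 (.lc 3 10 (.lc 3 10 (.lc 3 1 (.lc 3 11 (.lc 4 10 (.lc 4 1 (.lc 0 10 (.lc 4 11 (.lc 4 11 (.lc 4 11 (.lc 4 1 (.lc 4 12 (.lc 4 10 (.lc 4 1 (.lc 4 11 (.lc 4 10 (.lc 4 1 (.lc 4 11 (.lc 4 10 (.lc 4 1 (.lc 4 11 (.lc 5 11 (.lc 5 11 (.lc 5 1 (.lc 5 12 .stop))))))))))))))))))))))))))))))))))))))))))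
 (.lc 1 5 (.lc 3 0 (.lc 0 5 (.lc 3 0 (.lc 3 0 (.lc 3 0 (.lc 2 1 (.lc 2 1 (.lc 4 9 (.lc 0 5 (.lc 4 8 (.lc 1 5 (.lc 4 9 (.lc 1 0 (.lc 4 8 (.lc 0 5 (.lc 4 9 (.lc 2 0 (.lc 5 9 (.lc 5 10 .stop))))))))))))))))))))))))))))))))))))))))))))))))
 (.lc 3 7 (.lc 3 1 (.lc 3 8 (.lc 3 7 (.lc 3 1 (.lc 3 8 (.lc 2 0 (.lc 2 0 (.lc 0 1 (.lc 0 7 (.lc 4 8 (.lc 4 8 (.lc 4 1 (.lc 4 9 (.lc 0 7 (.lc 0 1 (.lc 0 8 (.lc 0 7 (.lc 0 1 (.lc 0 8 (.lc 0 7 (.lc 0 1 (.lc 0 8 (.lc 3 0 (.lc 3 0 (.lc 3 0 (.lc 0 8 (.lc 0 8 (.lc 0 1 (.lc 0 9 .stop)))))))))))))))))))))))))))))))))))))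
 (.node [70,96,84,53] 5 4 (.far [1,4096,1,1] 4096 (.node [81,96,53] 5 1 (.lc 2 7 (.lc 3 8 .stop))
 (.node [87,96,53] 3 5 (.lc 2 1 (.lc 1 7 (.lc 3 1 (.node [56,135,56] 7 6 (.lc 1 0 (.lc 1 0 (.lc 1 0 (.lc 3 1 (.conf [1,128] (.lc 3 9 (.lc 2 0 (.lc 2 0 (.lc 2 0 (.lc 2 0 (.lc 2 0 (.lc 2 0 (.lc 2 0 (.lc 2 0 (.lc 3 1 (.lc 3 1 (.lc 3 9 (.lc 2 0 (.lc 2 0 (.lc 2 0 (.far [4112,1,4112,4112,256] 0 (.lc 4 9 (.lc 3 0 (.lc 3 0 (.lc 3 0 (.lc 3 0 (.lc 4 9 (.lc 4 10 (.lc 4 9 (.lc 4 9 (.lc 5 10 .stop)))))))))))))))))))))))))))))))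
 (.lc 3 9 (.lc 3 1 (.lc 2 7 (.lc 3 1 (.lc 1 6 (.lc 3 8 (.lc 3 9 (.lc 4 1 (.lc 2 6 (.lc 4 10 (.lc 4 9 (.lc 4 9 (.lc 4 9 (.lc 5 10 .stop))))))))))))))))))
 (.node [81,96] 1 6 .stop
 (.node [96,118,87,53] 7 6 (.lc 1 0 (.lc 1 0 (.lc 1 0 (.lc 3 1 (.lc 3 8 (.lc 2 0 (.lc 2 0 (.lc 2 0 (.lc 2 0 (.lc 2 0 (.lc 0 5 (.lc 2 0 (.lc 2 0 (.lc 2 0 (.lc 3 1 (.node [113] 5 7 (.conf [19,81] (.lc 3 8 (.conf [19,88,129] (.lc 3 8 (.lc 4 9 .stop)))))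
 (.node [1,53,115] 7 3 (.lc 1 0 .stop)
 (.node [1,120] 5 7 (.conf [88,128] (.lc 3 1 (.lc 3 9 (.lc 1 0 (.lc 0 8 (.lc 1 0 (.lc 3 1 (.lc 3 9 (.lc 4 9 (.lc 4 1 (.lc 4 10 .stop)))))))))))
 (.lc 0 5 (.lc 2 0 (.lc 2 0 (.lc 2 0 (.lc 2 0 (.lc 1 0 (.lc 4 8 (.lc 1 5 (.lc 3 0 (.lc 0 5 (.lc 3 0 (.lc 3 0 (.lc 3 0 (.lc 1 0 (.node [120,129] 5 7 (.node [88] 5 8 (.lc 1 1 (.lc 2 9 (.lc 3 9 (.lc 3 3 (.lc 0 9 (.lc 3 10 (.lc 1 0 (.lc 0 1 (.lc 0 9 (.lc 0 10 .stop))))))))))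
 (.lc 3 9 (.lc 0 8 (.lc 1 1 (.lc 3 9 (.lc 4 10 .stop))))))
 (.conf [1,128] (.lc 1 0 (.node [120,129] 5 7 (.node [88] 5 8 (.lc 1 1 (.lc 2 9 (.lc 3 9 (.lc 3 3 (.lc 0 9 (.lc 3 10 (.lc 0 1 (.lc 1 3 (.lc 0 1 (.lc 0 9 (.lc 2 3 (.lc 0 10 .stop))))))))))))
 (.lc 3 9 (.lc 0 8 (.lc 1 1 (.lc 3 9 (.lc 4 10 .stop))))))
 (.lc 1 0 (.node [120,129] 5 7 (.far [16,256,4096,1] 256 (.lc 3 9 (.lc 0 8 (.far [16,256,4096,1] 256 (.lc 3 9 (.lc 4 10 .stop))))))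
 (.lc 2 0 (.node [121,152,129] 5 7 (.node [89] 5 9 (.lc 1 8 (.lc 2 10 (.lc 0 8 (.lc 3 10 (.lc 3 3 (.lc 0 10 (.lc 3 11 (.far [4112,4112,4112,4112,4112,256] 0 (.lc 3 10 (.lc 3 3 (.lc 0 10 (.lc 0 10 (.lc 4 11 (.lc 0 11 (.lc 0 10 (.lc 0 10 (.lc 4 3 (.lc 0 11 .stop))))))))))))))))))
 (.lc 3 10 (.lc 0 9 (.lc 1 8 (.lc 3 10 (.lc 4 11 .stop))))))
 .stop))))))))))))))))))))))))))))))))))))))))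
 (.far [1,4096,1,1] 4096 (.far [1,4096,1,1] 4096 (.node [87,96,113,53] 1 6 .stop
 (.node [81,96,118,53] 5 1 .stop
 (.node [88,96,118,53] 3 5 (.lc 2 1 (.lc 1 8 (.lc 3 1 (.lc 1 7 (.lc 3 10 (.lc 3 1 (.lc 2 8 (.lc 3 1 (.node [57,135] 8 7 (.far [4112,1,4112,0,256] 0 (.lc 2 6 (.lc 2 6 (.far [4112,1,4112,0,256] 0 (.far [4112,1,4112,0,256] 0 (.lc 2 6 (.lc 2 6 (.lc 3 6 (.lc 3 6 (.lc 3 6 .stop))))))))))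
 (.lc 3 9 (.lc 3 10 (.lc 4 1 (.node [58,135,169,58] 9 8 (.node [118] 7 6 (.lc 1 0 (.lc 1 0 (.lc 1 0 (.lc 3 1 (.lc 3 11 (.lc 2 0 (.lc 2 0 (.lc 2 0 (.lc 2 0 (.lc 2 0 (.lc 3 1 (.lc 0 0 (.lc 2 0 (.lc 4 11 (.lc 3 0 (.lc 3 0 (.conf [1,160] (.lc 0 1 (.far [4112,1,1,4112,4112,256] 0 .stop)))))))))))))))))))
 (.lc 1 6 (.lc 1 6 (.lc 1 6 (.lc 1 6 (.lc 3 1 (.lc 3 11 (.lc 2 6 (.lc 2 6 (.lc 2 6 .stop))))))))))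
 (.lc 4 11 (.lc 4 10 (.lc 4 10 (.lc 4 10 (.lc 5 11 .stop))))))))))))))))))
 .stop))))))))))
 (.conf [32,71] (.node [70,96,84,70] 4 6 (.lc 2 1 (.lc 2 7 (.lc 3 7 (.lc 3 1 (.lc 3 8 (.node [81,96] 1 6 .stop
 (.node [87,118,87,53] 7 6 (.lc 1 0 (.lc 0 5 (.lc 1 0 (.node [113] 5 7 (.lc 1 1 (.lc 2 8 (.lc 3 8 (.lc 3 9 (.lc 0 8 (.lc 3 9 (.lc 1 0 (.lc 3 8 (.lc 3 9 (.lc 4 10 (.lc 4 9 .stop)))))))))))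
 (.conf [1,128] (.lc 2 0 (.lc 2 0 (.lc 2 0 (.lc 0 5 (.lc 2 0 (.lc 0 5 (.lc 2 0 (.lc 2 0 (.lc 2 0 (.lc 1 1 (.lc 3 1 (.lc 0 5 (.lc 3 8 (.lc 0 5 (.lc 2 0 (.lc 1 5 (.lc 2 0 (.lc 2 0 (.lc 2 1 (.lc 2 1 (.lc 1 5 (.lc 3 0 (.lc 0 5 (.lc 3 0 (.lc 3 0 (.lc 3 0 (.lc 1 0 (.lc 4 8 (.lc 4 9 (.lc 2 1 (.lc 2 1 (.lc 2 1 (.lc 2 1 (.lc 3 1 (.lc 3 1 .stop))))))))))))))))))))))))))))))))))))))))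
 (.lc 3 7 (.lc 3 1 (.lc 3 8 (.lc 3 7 (.lc 3 1 (.lc 3 8 (.lc 2 0 (.lc 2 0 (.lc 0 1 (.lc 0 7 (.lc 4 8 (.lc 4 8 (.lc 4 1 (.lc 4 9 (.lc 0 7 (.lc 0 1 (.lc 0 8 (.lc 0 7 (.lc 0 1 (.lc 0 8 (.lc 0 7 (.lc 0 1 (.lc 0 8 (.lc 3 0 (.lc 3 0 (.lc 3 0 (.lc 0 8 (.lc 0 8 (.lc 0 1 (.lc 0 9 .stop)))))))))))))))))))))))))))))))))))))
 (.conf [32,98] (.node [32,70,84] 5 4 (.node [70,81,53] 1 4 (.node [] 5 1 (.lc 0 1 (.node [96] 1 3 (.lc 2 0 (.lc 3 0 .stop))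
 (.lc 3 7 (.far [16,257,4096] 0 (.lc 3 7 (.lc 4 8 .stop))))))
 (.lc 1 0 .stop))
 (.node [70,87,53] 4 6 (.node [118] 3 5 (.lc 2 1 (.node [96,101] 6 5 (.lc 0 4 .stop)
 (.lc 1 3 (.node [56] 5 7 (.node [81,118] 5 1 (.far [4112,4112,1,0,4112,0,256] 0 (.far [4112,4112,1,0,4112,0,256] 0 .stop))
 (.lc 1 4 (.far [4112,1,0,4112,0,256] 0 (.node [89,118] 8 5 (.far [1,4112,1,0,4112,0,256] 0 (.conf [129,151,83] (.conf [134,151,83] (.conf [138,151,83] (.node [151,83] 1 9 (.far [4112,16,257,16,257,256,257,4112,16] 1 (.conf [105,151] .stop))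
 (.node [151,169,83] 9 7 (.node [118,145,169] 9 1 (.far [257,257,16,258,16,257,513,257,4096] 17 (.lc 0 3 (.lc 0 11 .stop)))
 (.lc 1 4 (.node [118,155,169] 10 9 (.far [16,257,16,258,16,257,513,257,4096] 17 (.lc 3 1 (.lc 3 6 (.lc 3 12 (.lc 1 7 (.lc 1 7 (.lc 3 1 (.lc 3 12 (.lc 4 12 (.lc 4 1 (.lc 4 13 .stop)))))))))))
 (.lc 2 4 (.lc 2 4 (.conf [149,161] (.lc 2 4 (.conf [149,171] (.conf [155,177] (.lc 2 4 (.lc 2 4 (.node [118,145,183,169,118,96] 9 1 .stop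
 (.conf [156,203] (.lc 2 4 (.lc 2 4 (.lc 2 4 (.node [149,161,118] 1 7 (.far [1,1,0,1,0,256,256] 0 (.node [96,182] 10 1 (.lc 0 11 .stop)
 (.lc 1 0 .stop)))
 (.lc 2 4 (.node [149,171,118] 8 10 (.node [139] 11 7 (.far [1,0,1,0,1,0,256,256] 0 (.lc 3 1 (.lc 3 12 (.node [96,177] 1 6 (.far [4112,16,16,256,4112,0,16,1,0,257,4112,16] 1 .stop)
 (.node [96,198] 12 6 (.node [192] 11 12 (.node [177,192] 11 1 (.node [129] 1 12 (.far [1,0,1,4096,256,0,0,0,0,0,1,0,256] 17 .stop)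
 (.lc 1 1 (.lc 0 3 (.lc 0 3 .stop))))
 (.lc 2 7 (.node [189,192] 8 11 (.node [141] 13 12 (.lc 3 1 .stop)
 (.lc 3 3 (.lc 1 12 (.lc 1 12 (.lc 4 3 .stop)))))
 (.lc 2 0 (.lc 3 7 (.lc 3 7 (.conf [189,209] (.conf [192,220] (.conf [192,220] (.lc 0 3 (.lc 0 3 .stop)))))))))))
 (.lc 3 1 (.far [16,16,16,256,4112,0,16,4096,1,1,4096] 4097 (.lc 3 1 (.lc 3 13 (.lc 4 13 .stop))))))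
 (.lc 3 1 (.lc 3 12 (.lc 4 12 (.lc 4 1 (.lc 4 13 .stop))))))))))
 (.lc 3 1 (.lc 3 6 (.lc 3 12 (.lc 1 7 (.lc 1 7 (.lc 3 1 (.lc 3 12 (.lc 4 12 (.lc 4 1 (.lc 4 13 .stop)))))))))))
 (.lc 3 4 (.lc 3 4 (.lc 3 4 (.node [149,171,177,118] 1 7 .stop
 (.lc 3 4 (.lc 3 4 (.conf [149,183,118] (.conf [149,183,118] (.lc 3 4 (.lc 3 4 (.lc 3 4 (.lc 3 4 (.lc 3 4 (.lc 3 4 (.lc 4 4 (.lc 4 4 (.lc 4 4 .stop))))))))))))))))))))))))))))))))))))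
 (.far [1,4112,1,0,4112,0,256] 0 (.far [1,4112,1,0,4112,0,256] 0 (.conf [138,151,83] (.conf [129,151,83] (.conf [139,151,83] .stop)))))))))))
 (.lc 2 6 (.lc 2 6 (.lc 2 6 (.lc 2 6 (.lc 2 6 (.lc 2 6 (.lc 3 3 (.lc 3 3 (.lc 3 3 (.far [4112,1,0,4112,0,256] 0 (.node [89,118,145,89] 1 7 (.node [19,118,145] 5 9 (.far [4112,0,4112,1,0,4112,0,256] 0 (.lc 0 6 (.lc 0 10 (.lc 0 10 (.lc 2 1 (.lc 0 11 .stop))))))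
 (.lc 1 0 .stop))
 (.lc 2 4 (.lc 2 4 (.lc 2 4 (.node [81,118,151] 5 1 .stop
 (.far [4112,1,0,4112,0,256] 0 (.node [118,151,169,90] 5 10 (.far [4112,4112,1,0,4112,0,256] 0 (.lc 0 1 (.lc 0 6 (.lc 0 11 (.lc 0 1 (.lc 0 11 (.lc 2 9 (.lc 2 9 (.lc 0 11 (.lc 0 1 (.lc 0 12 .stop)))))))))))
 (.lc 2 6 (.lc 2 6 (.lc 2 6 (.lc 2 6 (.lc 2 6 (.lc 3 3 (.lc 3 3 (.lc 3 3 (.lc 3 3 (.lc 3 3 (.lc 3 6 (.lc 3 6 (.lc 3 6 (.lc 3 6 (.lc 3 6 (.lc 3 6 (.lc 3 6 (.lc 4 3 (.lc 4 3 (.lc 4 3 (.lc 4 3 (.lc 4 3 (.lc 4 3 (.lc 4 3 (.lc 4 3 (.lc 4 3 (.lc 4 3 (.lc 4 3 (.lc 4 3 (.lc 4 3 (.lc 4 3 (.lc 4 3 (.lc 5 3 (.lc 5 3 (.lc 5 3 (.lc 5 3 .stop)))))))))))))))))))))))))))))))))))))))))))))))))))))))))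
 (.lc 0 0 (.lc 3 1 (.lc 2 7 (.lc 3 1 (.lc 2 7 (.lc 3 0 (.lc 3 8 (.lc 3 6 (.lc 3 9 (.lc 3 1 (.lc 2 3 (.lc 3 1 (.node [57,152,133] 5 7 (.node [81,118] 5 1 (.node [129] 8 1 (.node [135,152] 8 7 (.lc 0 6 .stop)
 (.conf [96,134] (.far [1,1,256] 0 (.conf [96,150] .stop))))
 (.lc 0 10 .stop))
 (.lc 1 4 (.node [83,135,152] 8 7 (.node [118,129] 8 1 (.far [257,257,258,16,257,513,257,4096] 17 (.lc 0 10 .stop))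
 (.lc 1 4 (.node [118,138] 9 8 (.far [16,257,258,16,257,513,257,4096] 17 (.lc 3 1 (.lc 3 6 (.lc 3 11 (.lc 1 7 (.lc 1 7 (.lc 3 1 (.lc 3 11 (.lc 4 11 (.lc 4 1 (.lc 4 12 .stop)))))))))))
 (.lc 2 4 (.lc 2 4 (.lc 3 5 (.lc 2 4 (.lc 3 5 (.conf [138,161] (.lc 2 4 (.lc 2 4 (.node [118,129,167,118,96] 8 1 .stop
 (.conf [139,186] (.lc 2 4 (.lc 2 4 (.lc 2 4 (.lc 3 5 (.lc 2 4 (.lc 3 5 (.lc 3 4 (.lc 3 4 (.lc 3 4 (.lc 4 5 (.lc 3 4 (.lc 3 4 (.lc 4 5 (.lc 4 5 (.lc 3 4 (.lc 3 4 (.lc 3 4 (.lc 3 4 (.lc 3 4 (.lc 3 4 (.lc 4 4 (.lc 4 4 (.lc 4 4 .stop))))))))))))))))))))))))))))))))))))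
 (.node [90,118] 8 5 (.node [138] 3 9 (.lc 2 1 (.node [54,96,152] 3 6 (.lc 0 0 .stop)
 (.node [58,152] 3 10 .stop
 (.node [59,152] 3 11 (.node [185] 9 8 (.node [138,145] 1 8 .stop
 (.node [96,138,150] 6 8 .stop
 (.node [138,156] 11 9 (.far [1,4112,0,1,32,514,272,257,513,257,4096] 17 (.lc 3 6 (.lc 3 10 (.lc 3 13 (.lc 3 1 (.lc 1 8 (.lc 3 13 (.lc 4 14 .stop))))))))
 (.conf [133,156] (.lc 0 1 (.conf [138,147] (.conf [138,200] (.lc 1 7 (.lc 1 7 (.lc 1 7 (.node [133,147,167] 11 10 (.lc 2 1 (.node [96,106] 6 10 (.lc 0 4 .stop)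
 (.lc 1 5 (.node [167,188] 10 7 (.far [4112,1,257,0,0,256,256] 0 (.conf [116,165,198] (.lc 2 4 (.far [4112,1,257,0,0,256,256] 0 (.far [257,16,16,0,16,0,1,4112,1,257,257,4096] 17 (.conf [116,165,205] .stop))))))
 (.lc 2 5 (.lc 1 4 (.lc 2 5 (.lc 3 1 (.lc 2 5 (.lc 3 1 (.node [167,202,220,167,189] 10 7 (.node [199] 12 7 (.node [198,220] 12 6 (.far [257,272,256,16,16,0,16,0,0,4112,4097,1,257,4096] 17 (.lc 2 0 (.lc 0 14 (.lc 3 0 .stop))))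
 (.conf [96,116,199] (.conf [206,230] (.far [1,1,0,0,0,0,0,1,0,256,256] 0 (.conf [96,116,199] .stop)))))
 (.lc 2 4 (.lc 2 4 (.lc 0 14 (.lc 2 4 (.lc 3 4 .stop))))))
 (.lc 2 5 (.lc 2 5 (.lc 3 1 (.lc 3 1 (.lc 2 5 (.lc 3 1 (.lc 3 5 (.lc 3 5 (.lc 4 1 (.lc 3 5 (.lc 4 1 (.lc 2 4 (.lc 3 5 (.lc 3 5 (.lc 3 5 (.lc 4 5 .stop)))))))))))))))))))))))))))
 (.lc 0 6 (.lc 0 12 (.lc 2 7 (.lc 0 13 (.lc 0 12 (.lc 2 7 (.lc 2 7 (.lc 2 7 (.lc 2 7 (.lc 3 7 .stop)))))))))))))))))))))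
 (.lc 0 0 (.lc 2 9 (.lc 2 9 (.lc 2 9 (.far [4112,4112,1,4112,4096,0,4112,0,16,256] 0 (.lc 2 9 (.lc 0 0 (.lc 3 9 .stop)))))))))
 (.lc 0 0 (.lc 3 1 (.lc 2 8 (.lc 2 8 (.lc 3 1 (.lc 2 8 (.lc 3 1 (.lc 2 8 (.conf [49,152,185] (.lc 3 1 (.conf [60,203] (.lc 2 8 (.lc 2 8 (.lc 3 1 (.lc 2 8 (.lc 2 8 (.lc 2 8 (.lc 0 0 (.lc 2 8 (.lc 2 8 (.lc 2 8 (.lc 0 0 (.node [49,96,105,152,138] 6 9 (.far [257,1,16,257,256,256,256] 0 (.conf [152,169] .stop))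
 (.node [49,152,169,138] 10 9 .stop
 (.node [49,152,138] 9 8 (.node [96,138,150] 6 8 .stop
 (.node [138,156] 8 10 (.far [257,16,0,272,514,16,257,513,257,4096] 17 (.lc 2 7 (.lc 2 7 (.lc 2 7 (.lc 0 11 (.lc 0 13 (.lc 2 7 (.lc 2 7 (.lc 3 7 (.lc 3 7 (.lc 3 7 .stop)))))))))))
 (.lc 2 5 (.lc 3 3 (.conf [138,200] (.lc 2 5 (.lc 2 5 (.lc 2 5 (.lc 3 3 (.lc 3 3 (.lc 3 5 (.lc 4 3 (.lc 3 5 (.lc 3 5 (.lc 3 5 (.lc 3 5 (.lc 4 5 .stop)))))))))))))))))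
 (.lc 0 0 (.lc 3 8 (.lc 4 1 (.lc 3 8 (.lc 0 0 (.conf [49,152,185] (.lc 0 0 (.lc 3 8 (.lc 3 8 (.lc 3 8 (.lc 3 8 (.lc 0 0 (.lc 3 8 (.lc 0 0 (.lc 3 8 (.lc 3 8 (.lc 3 8 (.lc 0 0 (.lc 3 8 (.lc 4 8 (.lc 0 0 (.lc 4 8 .stop)))))))))))))))))))))))))))))))))))))))))))))))))))
 (.lc 3 1 (.lc 3 6 (.lc 3 11 (.lc 1 7 (.lc 1 7 (.lc 3 1 (.lc 3 11 (.lc 4 11 (.lc 4 1 (.lc 4 12 .stop)))))))))))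
 (.lc 2 6 (.lc 2 6 (.lc 2 6 (.lc 2 6 (.lc 2 6 (.lc 2 6 (.lc 3 3 (.lc 3 3 (.lc 3 3 (.lc 0 1 (.conf [90,161] (.lc 2 4 (.lc 2 4 (.lc 2 4 (.node [81,118,167] 5 1 .stop
 (.lc 0 10 (.conf [91,186] (.lc 2 6 (.lc 2 6 (.lc 2 6 (.lc 2 6 (.lc 2 6 (.lc 3 3 (.lc 3 3 (.lc 3 3 (.lc 3 3 (.lc 3 3 (.lc 3 6 (.lc 3 6 (.lc 3 6 (.lc 3 6 (.lc 3 6 (.lc 3 6 (.lc 3 6 (.lc 4 3 (.lc 4 3 (.lc 4 3 (.lc 4 3 (.lc 4 3 (.lc 4 3 (.lc 4 3 (.lc 4 3 (.lc 4 3 (.lc 4 3 (.lc 4 3 (.lc 4 3 (.lc 4 3 (.lc 4 3 (.lc 4 3 (.lc 5 3 (.lc 5 3 (.lc 5 3 (.lc 5 3 .stop)))))))))))))))))))))))))))))))))))))))))))))))))))))))))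
 (.lc 2 7 (.lc 3 1 (.lc 2 7 (.lc 2 7 (.lc 3 0 (.lc 3 8 (.lc 3 6 (.lc 3 9 (.lc 3 8 (.lc 3 6 (.lc 3 8 (.lc 3 9 (.lc 0 0 (.lc 4 1 (.lc 3 7 (.lc 4 9 (.lc 4 10 (.lc 4 9 (.lc 4 10 (.lc 4 8 (.lc 4 9 (.lc 4 10 (.lc 4 0 (.lc 4 6 (.lc 4 10 (.lc 5 11 .stop)))))))))))))))))))))))))))))))))))))))))))
 (.lc 2 0 (.lc 2 0 (.lc 0 1 (.lc 0 8 (.lc 2 0 (.lc 2 0 (.lc 3 0 (.lc 3 0 (.lc 3 0 .stop))))))))))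
 (.node [66,81,96] 5 1 (.lc 0 1 .stop)
 (.node [66,118,87,96,53] 3 5 (.lc 2 1 (.lc 0 6 (.lc 1 7 (.lc 0 0 (.lc 3 1 (.lc 2 7 (.lc 3 8 (.lc 3 9 (.lc 3 1 (.conf [56,135] (.lc 3 1 (.lc 2 7 (.lc 3 1 (.lc 2 7 (.lc 3 9 (.lc 3 8 (.lc 3 9 (.lc 4 1 (.lc 3 7 (.lc 4 9 (.lc 4 10 (.lc 4 10 (.lc 4 10 (.lc 4 10 (.lc 5 11 .stop)))))))))))))))))))))))))
 (.node [70,87,113,53] 1 4 .stop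
 (.conf [70,116] (.conf [70,116] (.conf [70,87,113] (.conf [70,116] (.conf [70,116] (.node [66,81,96] 1 6 (.lc 1 0 (.lc 2 0 .stop))
 (.node [66,87,96] 7 6 (.lc 1 0 (.lc 1 0 (.lc 1 0 (.node [113] 5 7 (.conf [81,113] (.conf [83,113] (.node [88,113,135,53] 3 5 (.lc 2 1 (.conf [56,135] (.lc 1 8 (.lc 2 3 (.lc 3 9 (.lc 3 10 (.lc 1 7 (.lc 2 8 (.lc 3 1 (.lc 2 3 (.lc 3 9 (.lc 3 9 (.lc 3 10 (.lc 3 3 (.lc 4 10 (.lc 4 11 (.lc 4 10 (.lc 4 10 (.lc 4 10 (.lc 5 11 .stop))))))))))))))))))))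
 (.lc 0 8 (.lc 2 1 (.lc 3 9 (.lc 0 8 (.node [89,113,135,152,53] 3 5 (.lc 2 1 (.node [152,135] 3 9 (.lc 2 1 (.node [58,152] 9 8 (.far [4112,1,258,4112,16,4128,4112,512] 256 (.lc 2 7 (.lc 0 11 (.lc 2 7 (.lc 3 7 .stop)))))
 (.lc 2 3 (.lc 3 1 (.conf [152,169] (.lc 3 1 (.lc 1 7 (.lc 3 1 (.lc 2 7 (.lc 4 1 .stop))))))))))
 (.lc 1 9 (.lc 2 3 (.lc 3 10 (.lc 3 11 (.conf [58,152,169] (.lc 2 9 (.lc 3 1 (.lc 2 3 (.lc 3 10 (.lc 3 10 (.lc 3 11 (.lc 3 3 (.lc 4 11 (.lc 4 12 (.lc 4 11 (.lc 4 11 (.lc 4 11 (.lc 5 12 .stop))))))))))))))))))))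
 (.lc 2 1 (.lc 2 1 (.lc 3 9 (.lc 3 8 (.lc 3 9 (.lc 0 9 (.lc 3 1 (.lc 4 10 (.lc 4 10 (.lc 4 10 (.lc 4 10 (.lc 5 11 .stop))))))))))))))))))))
 (.conf [1,128] (.lc 2 0 (.lc 2 0 (.lc 2 0 (.lc 2 0 (.lc 2 0 (.lc 2 0 (.lc 2 0 (.lc 2 0 (.lc 2 0 (.node [113] 5 7 (.conf [81,113] (.conf [83,113] (.node [88,113,135,53] 3 5 (.lc 2 1 (.conf [56,135] (.lc 1 8 (.lc 3 1 (.lc 2 3 (.lc 3 9 (.lc 3 10 (.lc 3 1 (.lc 1 7 (.lc 3 1 (.lc 2 8 (.lc 3 1 (.lc 2 3 (.lc 3 9 (.lc 3 9 (.lc 3 10 (.lc 4 1 (.lc 3 3 (.lc 4 10 (.lc 4 11 (.lc 4 10 (.lc 4 10 (.lc 4 10 (.lc 5 11 .stop))))))))))))))))))))))))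
 (.lc 0 8 (.lc 2 1 (.lc 3 8 (.lc 3 9 (.conf [19,113] (.lc 0 8 (.node [89,113,135,152,53] 3 5 (.lc 2 1 (.node [152,135] 3 9 (.lc 2 1 (.node [58,152] 9 8 (.far [4112,1,258,4112,16,4128,4112,512] 256 (.lc 2 7 (.lc 2 7 (.lc 0 11 (.lc 2 7 (.lc 3 7 .stop))))))
 (.lc 3 1 (.lc 2 3 (.lc 3 1 (.lc 3 1 (.conf [152,169] (.lc 3 1 (.lc 1 7 (.lc 3 1 (.lc 3 1 (.lc 4 1 (.lc 2 7 (.lc 4 1 (.lc 4 1 (.lc 4 1 (.lc 4 1 (.lc 5 1 .stop))))))))))))))))))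
 (.lc 1 9 (.lc 3 1 (.lc 2 3 (.lc 3 10 (.lc 3 11 (.lc 3 1 (.conf [58,152,169] (.lc 3 1 (.lc 2 9 (.lc 3 1 (.lc 2 3 (.lc 3 10 (.lc 3 10 (.lc 3 11 (.lc 4 1 (.lc 3 3 (.lc 4 11 (.lc 4 12 (.lc 4 11 (.lc 4 11 (.lc 4 11 (.lc 5 12 .stop))))))))))))))))))))))))
 (.lc 2 1 (.lc 2 1 (.lc 3 9 (.lc 3 8 (.lc 3 9 (.lc 0 9 (.lc 3 1 (.lc 4 9 (.lc 4 10 (.lc 4 10 (.lc 4 10 (.lc 4 10 (.lc 5 11 .stop)))))))))))))))))))))))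
 (.lc 3 1 (.lc 3 3 (.lc 3 8 (.lc 2 0 (.lc 2 0 (.lc 2 0 (.lc 2 0 (.lc 2 0 (.lc 1 0 (.node [120,129,120,87,53] 5 7 (.lc 1 8 (.lc 2 8 (.lc 2 9 (.lc 0 9 (.lc 3 10 (.lc 3 9 (.lc 3 10 (.lc 0 8 (.lc 3 9 (.lc 0 9 (.lc 3 10 (.lc 2 8 (.lc 3 10 (.lc 3 10 (.lc 3 9 (.lc 3 10 (.lc 0 10 (.lc 4 11 (.lc 4 10 (.lc 4 11 (.lc 4 11 (.lc 4 11 (.lc 4 11 (.lc 5 12 .stop))))))))))))))))))))))))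
 (.lc 3 0 (.lc 3 0 (.lc 3 0 (.lc 3 0 (.lc 3 0 (.lc 3 0 (.lc 1 0 (.lc 4 8 (.lc 4 9 (.lc 4 3 (.lc 4 8 (.lc 1 0 (.lc 4 8 (.lc 2 0 (.lc 5 9 .stop))))))))))))))))))))))))))))))))))))))))
 (.conf [66,81] (.conf [66,87] (.node [70,87,113,53] 1 4 (.node [] 7 1 (.node [22,115] 3 5 (.node [54,87,96] 6 5 .stop
 (.node [56,87] 5 7 (.far [4112,1,0,1,1,4112,258,2] 8192 (.lc 0 9 .stop))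
 (.conf [87,133] .stop)))
 (.far [16,257,4096] 0 (.lc 3 8 (.lc 3 8 (.conf [22,53] (.conf [120,134] (.lc 3 8 (.lc 3 8 (.lc 4 9 (.lc 4 9 .stop))))))))))
 (.lc 1 0 .stop))
 (.node [70,81,53] 5 1 .stop
 (.node [70,88,135,53] 4 6 (.node [] 3 5 (.lc 2 1 (.node [54,88,96] 6 5 .stop
 (.node [57,88] 5 8 (.far [4112,1,4112,1,4112,258,2] 8192 (.lc 2 7 (.lc 2 7 (.lc 2 7 (.lc 0 1 (.lc 0 10 (.lc 2 7 (.lc 2 7 (.lc 3 7 (.lc 3 7 (.lc 3 7 .stop)))))))))))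
 (.lc 3 1 (.lc 2 3 (.lc 3 0 (.lc 3 6 (.lc 3 10 (.lc 3 1 (.conf [88,149] (.lc 3 1 (.lc 2 3 (.lc 2 3 (.lc 3 6 (.lc 3 9 (.lc 3 9 (.lc 3 10 (.lc 4 1 (.lc 3 3 (.lc 4 11 (.lc 4 10 (.lc 4 9 (.lc 4 10 (.lc 4 0 (.lc 4 6 (.lc 4 10 (.lc 5 11 .stop)))))))))))))))))))))))))))
 (.lc 2 0 (.lc 2 0 (.lc 0 1 (.lc 0 9 (.lc 2 0 (.lc 2 0 (.lc 3 0 (.lc 3 0 (.lc 3 0 .stop))))))))))
 (.node [66,87,96,113,87,53] 1 6 .stop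
 (.node [66,81,96,118] 1 7 (.conf [7,118] (.lc 2 6 .stop))
 (.node [66,88,96,135,88,53] 7 6 (.lc 1 0 (.lc 0 5 (.lc 1 0 (.lc 3 1 (.lc 3 9 (.lc 2 0 (.lc 2 0 (.lc 2 0 (.lc 0 5 (.lc 2 0 (.lc 0 5 (.lc 2 0 (.lc 2 0 (.lc 2 0 (.lc 3 1 (.node [113] 8 7 (.conf [19,129] (.lc 3 3 (.lc 3 9 (.lc 0 5 (.conf [19,145] (.lc 0 5 (.lc 3 9 (.lc 1 5 (.lc 4 10 .stop)))))))))
 (.lc 0 5 (.node [1,121] 8 7 (.conf [137,144] (.lc 3 1 (.lc 0 5 (.lc 3 10 (.lc 1 0 (.lc 1 0 (.lc 3 1 (.lc 3 10 (.lc 0 5 (.lc 4 10 (.lc 4 1 (.lc 4 11 .stop))))))))))))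
 (.lc 0 5 (.lc 2 0 (.lc 1 5 (.lc 2 0 (.lc 2 0 (.lc 1 0 (.lc 4 9 (.lc 1 5 (.lc 3 0 (.lc 0 5 (.lc 3 0 (.lc 3 0 (.lc 3 0 (.lc 1 0 (.node [121,145] 8 7 (.node [137] 8 9 (.lc 0 5 (.lc 2 10 (.lc 1 0 (.lc 3 10 (.lc 1 9 (.lc 0 10 (.lc 3 11 (.lc 1 0 (.lc 0 1 (.lc 0 10 (.lc 2 0 (.lc 0 11 (.lc 0 10 .stop)))))))))))))
 (.lc 0 5 (.lc 3 10 (.lc 1 1 (.lc 3 10 (.lc 4 11 .stop))))))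
 (.conf [1,144] (.lc 0 5 (.node [121,145] 8 7 (.node [137] 8 9 (.lc 0 5 (.lc 2 10 (.lc 0 5 (.lc 3 10 (.lc 1 9 (.lc 0 10 (.lc 3 11 (.lc 3 3 (.lc 1 3 (.lc 0 1 (.lc 0 10 (.lc 1 5 (.lc 2 3 (.lc 0 11 (.lc 0 10 (.lc 2 3 (.lc 2 3 (.lc 3 3 .stop))))))))))))))))))
 (.lc 0 5 (.lc 3 10 (.lc 1 1 (.lc 3 10 (.lc 4 11 .stop))))))
 (.lc 1 0 (.node [121,145] 8 7 (.node [137,145] 5 8 (.lc 1 9 (.lc 2 10 (.lc 0 9 (.lc 3 10 (.lc 3 11 (.lc 0 10 (.lc 3 11 (.lc 1 1 (.lc 3 10 (.lc 3 1 (.lc 3 10 (.lc 3 11 (.lc 0 10 (.lc 4 11 (.lc 4 12 (.lc 4 11 (.lc 4 11 (.lc 4 11 (.lc 5 12 .stop)))))))))))))))))))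
 (.lc 0 5 (.lc 3 10 (.node [138,145] 5 8 (.lc 1 10 (.lc 2 11 (.lc 0 10 (.lc 3 11 (.lc 3 12 (.lc 0 11 (.lc 3 12 (.lc 1 9 (.lc 3 11 (.lc 3 11 (.lc 3 12 (.lc 0 11 (.lc 4 12 (.lc 4 13 (.lc 4 12 (.lc 4 12 (.lc 4 12 (.lc 5 13 .stop))))))))))))))))))
 (.lc 3 10 (.lc 4 11 .stop))))))
 (.lc 2 0 (.node [122,169,145] 8 7 (.node [138] 8 10 (.lc 0 5 (.lc 2 11 (.lc 3 11 (.lc 1 10 (.lc 0 11 (.lc 3 12 (.lc 0 5 (.lc 3 11 (.lc 0 9 (.lc 0 11 (.lc 4 12 (.lc 0 12 (.lc 0 11 (.lc 0 11 (.lc 1 9 (.lc 0 11 (.lc 0 12 .stop)))))))))))))))))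
 (.lc 0 5 (.lc 3 11 (.lc 1 9 (.lc 3 11 (.lc 4 12 .stop))))))
 .stop))))))))))))))))))))))))))))))))))))))))
 (.node [70,88,135,53,113] 1 4 .stop
 (.conf [70,116] (.conf [70,116] (.conf [70,116] (.conf [66,87] (.conf [66,81] (.conf [66,88] (.conf [66,87] (.conf [66,81] (.conf [66,88] (.conf [66,87] (.conf [66,81] (.conf [66,88] (.conf [66,88] (.conf [66,88] (.conf [66,81] (.conf [66,89] .stop)))))))))))))))))))))))))))))))))))))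
 (.conf [32,70] (.node [70,96,84,53] 4 6 (.far [4112,4096,1,1] 4096 (.lc 2 0 (.lc 2 0 (.far [4112,1,1,1] 4096 (.far [4112,1,1,1] 4096 (.lc 2 0 (.lc 2 0 (.lc 3 0 (.lc 3 0 (.lc 3 0 .stop))))))))))
 (.conf [32,71] (.node [32,71,118,84,71,96] 4 7 (.lc 2 1 (.lc 2 8 (.lc 3 8 (.lc 3 1 (.lc 3 9 (.node [81,118] 1 7 .stop
 (.node [88,135,88,53] 8 7 (.lc 1 6 (.lc 0 5 (.lc 1 6 (.lc 1 0 (.lc 1 0 (.lc 2 6 (.lc 2 6 (.lc 2 6 (.lc 0 5 (.lc 2 6 (.lc 0 5 (.lc 2 6 (.lc 2 6 (.lc 2 6 (.node [96,129] 1 6 (.lc 2 3 .stop)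
 (.lc 0 5 (.node [96,137] 9 6 (.conf [1,144] (.node [145] 8 9 (.lc 0 5 (.lc 2 10 (.lc 0 5 (.lc 3 10 (.lc 1 9 (.lc 0 10 (.lc 3 11 (.lc 3 3 (.lc 1 3 (.lc 0 1 (.lc 0 10 (.lc 1 5 (.lc 2 3 (.lc 0 11 (.lc 0 10 (.lc 2 3 (.lc 2 3 (.lc 3 3 .stop))))))))))))))))))
 (.node [145] 8 9 (.lc 2 1 (.lc 0 5 (.lc 2 10 (.lc 1 5 (.lc 3 11 (.lc 1 9 (.lc 0 10 (.lc 1 0 (.lc 3 11 (.lc 0 5 (.lc 3 11 (.lc 2 1 (.lc 0 10 (.lc 0 1 (.lc 0 10 (.lc 4 12 (.lc 0 11 (.lc 0 11 (.lc 0 11 (.lc 1 10 (.lc 0 11 (.lc 0 12 .stop))))))))))))))))))))))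
 (.node [145] 8 9 (.lc 0 5 (.lc 2 10 (.lc 1 0 (.lc 3 10 (.lc 1 9 (.lc 0 10 (.lc 3 11 (.lc 1 0 (.lc 0 1 (.lc 0 10 (.lc 2 0 (.lc 0 11 (.lc 0 10 .stop)))))))))))))
 (.conf [1,160] (.lc 1 0 (.node [154,161] 8 9 (.lc 0 5 (.lc 2 11 (.lc 3 11 (.lc 1 9 (.lc 0 11 (.lc 3 12 (.lc 0 5 (.lc 3 11 (.lc 0 10 (.lc 0 11 (.lc 4 12 (.lc 0 12 (.lc 0 11 (.lc 0 11 (.lc 1 10 (.lc 0 11 (.lc 0 12 .stop)))))))))))))))))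
 .stop)))))))
 (.lc 1 0 (.lc 0 5 (.lc 1 0 (.lc 0 5 (.lc 2 6 (.lc 1 5 (.lc 2 6 (.lc 2 6 (.lc 0 5 (.node [96,137,145] 1 6 (.lc 2 3 .stop)
 (.node [96,129,150] 8 1 (.lc 1 9 (.lc 2 9 .stop))
 (.node [96,138,150] 9 6 (.conf [1,144] (.lc 3 1 (.node [145] 5 8 (.lc 1 10 (.lc 2 11 (.lc 0 10 (.lc 3 11 (.lc 3 12 (.lc 0 11 (.lc 3 12 (.lc 1 9 (.lc 3 11 (.lc 3 11 (.lc 3 12 (.lc 0 11 (.lc 4 12 (.lc 4 13 (.lc 4 12 (.lc 4 12 (.lc 4 12 (.lc 5 13 .stop))))))))))))))))))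
 (.lc 3 1 (.lc 3 11 (.lc 1 0 (.lc 4 11 .stop)))))))
 (.lc 1 5 (.lc 3 6 (.lc 0 5 (.lc 3 6 (.lc 3 6 (.lc 3 6 (.lc 0 5 (.lc 2 0 (.lc 2 0 (.lc 2 0 (.lc 0 5 (.lc 4 9 (.lc 1 5 (.lc 4 1 (.lc 4 10 (.lc 4 3 (.lc 4 9 (.lc 4 1 (.lc 0 5 (.lc 4 10 (.lc 1 5 (.lc 5 10 (.lc 0 5 (.lc 5 10 (.lc 5 1 (.lc 5 11 .stop)))))))))))))))))))))))))))))))))))))))))))))))))))))))
 (.lc 3 8 (.lc 3 1 (.lc 3 9 (.lc 3 8 (.lc 3 1 (.lc 3 9 (.lc 2 6 (.lc 2 6 (.lc 0 1 (.lc 0 8 (.lc 4 9 (.lc 4 9 (.lc 4 1 (.lc 4 10 (.lc 0 8 (.lc 0 1 (.lc 0 9 (.lc 0 8 (.lc 0 1 (.lc 0 9 (.lc 0 8 (.lc 0 1 (.lc 0 9 (.lc 3 6 (.lc 3 6 (.lc 3 6 (.lc 0 9 (.lc 0 9 (.lc 0 1 (.lc 0 10 .stop)))))))))))))))))))))))))))))))))))))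
 (.node [71,118,84,96,53] 4 7 (.far [4112,4096,1,1] 4096 (.lc 2 6 (.lc 2 6 (.far [4112,4096,1,1] 4096 (.far [4112,4096,1,1] 4096 (.lc 2 6 (.lc 2 6 (.lc 3 6 (.lc 3 6 (.lc 3 6 .stop))))))))))
 (.conf [32,72] (.conf [32,71] (.conf [32,71] (.conf [32,71] (.conf [32,72] .stop))))))))))))))))))

theorem t18 : kNode2 awTt FTt 4 2 (check tyTt awTt triet FTt [] c18) (fun _ _ _ => true) 0 s18 Pl.nil s18 =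
    true := by
  decide +kernel

end Chk
end Pool.Agent.Lib.MP_ba95e8_co
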