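import Pool.Agent.Lib.MP_ba95e8_co.ChkTab
import Pool.Agent.Lib.MP_ba95e8_co.ChkStates

/-!
Deltahedral domes: part 19 of the case analysis.
-/

namespace Pool.Agent.Lib.MP_ba95e8_co
namespace Chk

/-- certificate number 19 -/
def c19 : Cert := (.node [48,84] 3 0 (.lc 0 0 .stop)
 (.node [54,84] 3 6 (.asm [101] 0 (.lc 0 0 (.lc 2 5 (.lc 0 0 (.node [101,118] 6 5 (.node [96] 6 0 (.node [100] 6 4 (.far [257,257,257,16,4096] 0 (.lc 2 0 (.lc 0 8 .stop)))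
 (.lc 2 0 (.node [104] 7 6 (.far [16,257,257,16,4096] 0 (.lc 3 4 (.lc 3 9 (.lc 1 0 (.lc 1 0 (.lc 3 4 (.lc 3 9 (.lc 4 9 (.lc 4 4 (.lc 4 10 .stop))))))))))
 (.conf [64,116] (.conf [96,120,128] (.lc 3 0 (.conf [104,132] (.conf [72,100] (.lc 3 0 (.conf [105,152] (.lc 0 4 (.lc 0 8 (.lc 0 8 (.lc 0 4 (.lc 0 9 .stop)))))))))))))))
 (.lc 1 3 (.lc 2 3 (.node [104] 7 6 (.node [104,112] 0 6 (.far [16,16,257,16,4096] 0 (.far [256,0,257,4112,4096,0,257] 4096 (.far [16,16,257,16,4096] 0 (.far [16,16,257,16,4096] 0 (.lc 0 0 .stop)))))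
 (.node [104,116] 4 6 (.far [16,16,257,16,4096] 0 (.far [16,16,257,16,4096] 0 (.far [16,16,257,16,4096] 0 .stop)))
 (.lc 1 3 (.node [104,121] 9 6 (.far [16,16,257,16,4096] 0 (.lc 3 0 (.lc 3 4 (.lc 3 10 (.far [16,16,257,16,4096] 0 (.far [16,16,257,16,4096] 0 (.far [16,16,257,16,4096] 0 (.lc 3 0 (.lc 3 4 (.lc 3 10 (.lc 4 4 (.lc 4 10 (.lc 4 0 (.lc 4 10 (.lc 4 0 (.lc 4 4 (.lc 4 11 .stop)))))))))))))))))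
 (.node [99,112,133] 7 0 .stop
 (.conf [72,116] (.conf [99,121,152] (.lc 3 4 (.lc 3 9 (.lc 3 0 (.lc 3 2 (.lc 3 9 (.lc 2 3 (.lc 2 3 (.lc 2 3 (.lc 3 0 (.lc 3 4 (.lc 3 10 (.conf [64,116] (.node [104,121,144,121] 0 6 .stop
 (.conf [70,104] (.conf [70,104] (.lc 2 3 (.lc 2 3 (.lc 2 3 (.conf [104,150] (.conf [73,116] (.conf [104,150] (.node [99,112,133] 7 0 (.node [116] 7 4 (.far [257,257,257,257,16,4096] 0 .stop)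
 (.node [121] 0 8 (.far [257,0,1,0,4096,0,0,257] 4096 (.far [4112,1,256] 0 (.lc 2 0 (.lc 0 0 (.conf [72,133] (.conf [133,168] (.lc 1 2 .stop)))))))
 (.conf [121,148] (.conf [73,116] (.conf [122,169] .stop)))))
 (.node [99,116,133] 5 4 (.node [66,80] 0 4 (.far [1,1,0,0,0,0,257] 0 (.far [1,1,16,0,16,4112,1] 0 .stop))
 (.node [66,89] 7 4 (.far [1,0,257,257,0,1,256] 0 (.lc 1 0 .stop))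
 (.node [66,89,144] 0 4 (.far [256,0,0,0,4112,4112,4096,257] 4096 .stop)
 (.node [66,80,148] 5 0 .stop
 (.node [66,148,169] 7 4 (.lc 1 8 (.lc 1 0 .stop))
 .stop)))))
 (.node [99,121,133] 8 5 (.node [84,128] 8 0 (.far [257,257,16,1,16,4096] 0 (.conf [23,145] (.node [64,66] 4 0 (.far [16,16,4096] 0 .stop)
 (.node [154,160] 0 5 (.lc 1 2 .stop)
 .stop))))
 (.lc 1 3 (.node [84,138] 5 4 (.far [257,16,0,16,0,16,1] 0 (.lc 2 2 (.lc 2 2 (.lc 2 2 (.node [160] 10 0 (.node [23] 8 10 .stop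
 .stop)
 (.node [148,169] 9 8 .stop
 (.node [171,180] 8 10 (.far [257,0,257,16,1,16,4096] 0 (.lc 2 5 (.node [144,171] 0 10 .stop
 (.conf [171,202] (.lc 2 5 (.lc 3 5 (.lc 3 5 .stop)))))))
 (.lc 2 2 (.lc 2 2 (.lc 2 2 (.lc 3 2 (.lc 3 2 (.lc 3 2 (.lc 3 2 (.lc 3 2 (.lc 3 2 (.lc 3 2 .stop)))))))))))))))))
 (.lc 2 3 (.lc 2 3 (.lc 3 5 (.lc 1 2 (.lc 3 5 (.conf [138,160] (.lc 1 2 (.lc 1 2 (.node [84,128,165] 8 0 .stop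
 (.conf [139,186] (.lc 1 2 (.lc 1 2 (.lc 2 3 (.lc 3 5 (.lc 2 3 (.lc 3 5 (.lc 2 2 (.lc 2 2 (.lc 2 2 (.lc 4 5 (.lc 2 2 (.lc 2 2 (.lc 4 5 (.lc 4 5 (.lc 3 3 (.lc 3 3 (.lc 2 2 (.lc 2 2 (.lc 2 2 (.lc 2 2 (.lc 3 2 (.lc 3 2 (.lc 3 2 .stop))))))))))))))))))))))))))))))))))))
 (.lc 3 0 (.lc 3 4 (.lc 3 9 (.lc 3 4 (.lc 3 9 (.lc 3 0 (.lc 3 0 (.lc 3 9 (.lc 2 3 (.lc 2 3 (.lc 2 3 (.lc 3 0 (.lc 3 4 (.lc 3 10 (.conf [64,116] (.conf [99,121,144] (.node [66,72,99,112,133] 0 4 (.far [16,16,0,16,4112,4096] 0 .stop)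
 (.conf [72,121,148] (.node [99,112,133,152] 7 0 .stop
 (.conf [73,116] (.conf [99,122,169] (.lc 4 9 (.lc 4 4 (.lc 4 10 (.lc 4 9 (.lc 1 0 (.lc 4 0 (.lc 4 10 (.lc 3 3 (.lc 3 3 (.lc 3 3 (.lc 3 3 (.lc 3 3 (.lc 3 3 (.lc 3 3 (.lc 4 4 (.lc 4 10 (.lc 4 0 (.lc 4 10 (.lc 4 0 (.lc 4 4 (.lc 4 11 (.lc 4 4 (.lc 4 9 (.lc 4 0 (.lc 4 9 (.lc 4 0 (.lc 4 4 (.lc 4 10 (.lc 4 4 (.lc 4 9 (.lc 4 0 (.lc 4 0 (.lc 4 9 (.lc 4 0 (.lc 4 4 (.lc 4 10 (.lc 4 4 (.lc 4 9 (.lc 4 0 (.lc 4 2 (.lc 4 9 (.lc 4 0 (.lc 4 4 (.lc 4 10 (.lc 5 9 (.lc 5 4 (.lc 5 10 (.lc 5 9 (.lc 1 0 (.lc 5 0 (.lc 5 10 (.lc 5 4 (.lc 5 10 (.lc 5 0 (.lc 5 10 (.lc 5 0 (.lc 5 4 (.lc 5 11 .stop))))))))))))))))))))))))))))))))))))))))))))))))))))))))))))))))))))))))))))))))))))))))))))))))))))))))))))))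
 (.lc 2 4 (.lc 2 4 (.lc 2 4 (.lc 2 4 (.lc 2 4 (.lc 3 8 (.lc 1 2 (.lc 1 2 (.lc 3 0 (.lc 3 9 (.lc 3 3 (.node [104,128] 8 0 (.node [23,129,118] 8 1 (.node [118] 6 8 .stop
 (.lc 1 6 (.lc 1 6 .stop)))
 (.conf [118,135] (.conf [16,118] (.conf [23,65] (.node [118,135] 8 7 (.lc 0 3 .stop)
 (.conf [23,145] (.conf [16,118] (.conf [16,118] .stop))))))))
 (.lc 1 2 (.lc 1 2 (.lc 1 2 (.node [96,133] 6 0 .stop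
 (.lc 3 3 (.node [105,152,133] 7 6 (.node [105,112] 0 6 (.node [152] 7 0 (.node [121,152,133] 7 9 .stop
 (.conf [120,133] .stop))
 (.lc 1 8 (.lc 1 8 (.lc 1 8 (.lc 0 0 .stop)))))
 (.node [105,116] 4 6 (.node [66,152] 5 4 .stop
 (.lc 1 8 (.lc 1 8 .stop)))
 (.lc 1 3 (.node [105,122] 6 9 (.node [152] 8 5 (.node [84,128] 0 5 (.far [16,16,0,0,16,0,16,1] 0 (.lc 1 2 .stop))
 (.far [16,0,0,16,0,16,1] 0 (.node [84,138] 10 5 .stop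
 (.node [84,139] 5 4 (.far [257,16,0,0,16,0,16,1] 0 (.lc 2 2 (.lc 2 2 (.lc 2 2 (.lc 0 0 (.lc 0 12 (.lc 2 2 (.lc 2 2 (.lc 3 2 (.lc 3 2 (.lc 3 2 .stop)))))))))))
 (.lc 2 3 (.lc 2 3 (.lc 3 1 (.lc 3 10 (.lc 3 11 (.lc 1 2 (.lc 1 2 (.lc 1 2 (.lc 3 0 (.lc 3 10 (.lc 3 12 (.node [84,139,176,139,152] 0 5 .stop
 (.lc 1 2 (.lc 1 2 (.conf [84,181] (.conf [84,181] (.lc 1 2 (.lc 1 2 (.lc 1 2 (.lc 2 3 (.lc 2 3 (.lc 2 3 (.lc 3 11 (.lc 3 0 (.lc 3 11 (.lc 3 10 (.lc 3 0 (.lc 3 11 (.lc 3 0 (.lc 3 12 (.lc 2 2 (.lc 2 2 (.lc 2 2 (.lc 4 12 (.lc 2 2 (.lc 2 2 (.lc 2 2 (.lc 4 12 (.lc 4 0 (.lc 4 13 (.lc 3 3 (.lc 3 3 (.lc 3 3 (.lc 2 2 (.lc 2 2 (.lc 2 2 (.lc 2 2 (.lc 2 2 (.lc 2 2 (.lc 2 2 (.lc 2 2 (.lc 2 2 (.lc 2 2 (.lc 2 2 (.lc 2 2 (.lc 3 2 (.lc 3 2 (.lc 3 2 (.lc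 3 2 .stop)))))))))))))))))))))))))))))))))))))))))))))))))))))))))))))))
 (.lc 2 8 (.lc 2 8 (.lc 2 8 (.lc 0 0 (.lc 0 4 (.lc 0 11 (.lc 2 8 (.lc 2 8 (.lc 2 8 (.lc 3 8 (.lc 3 8 (.lc 3 8 (.lc 3 8 (.lc 3 8 (.lc 3 8 (.lc 3 8 .stop)))))))))))))))))
 (.node [99,112,152,133] 7 0 .stop
 (.conf [73,116] (.conf [99,122,169] (.lc 3 4 (.lc 3 10 (.lc 3 0 (.lc 3 2 (.lc 3 10 (.lc 2 3 (.lc 2 3 (.lc 2 3 (.lc 3 0 (.lc 3 4 (.lc 3 11 (.conf [64,116] (.node [105,122,160,122] 0 6 .stop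
 (.conf [70,105] (.conf [70,105] (.lc 2 3 (.lc 2 3 (.lc 2 3 (.conf [105,166] (.conf [74,116] (.conf [105,166] (.lc 1 8 (.lc 1 8 (.lc 1 8 (.lc 3 0 (.lc 3 4 (.lc 3 10 (.lc 3 4 (.lc 3 10 (.lc 3 0 (.lc 3 0 (.lc 3 10 (.lc 2 3 (.lc 2 3 (.lc 2 3 (.lc 3 0 (.lc 3 4 (.lc 3 11 (.lc 2 8 (.lc 2 8 (.lc 2 8 (.lc 2 8 (.lc 2 8 (.lc 2 8 (.lc 2 8 (.lc 4 10 (.lc 4 4 (.lc 4 11 (.lc 4 10 (.lc 1 0 (.lc 4 0 (.lc 4 11 (.lc 3 3 (.lc 3 3 (.lc 3 3 (.lc 3 3 (.lc 3 3 (.lc 3 3 (.lc 3 3 (.lc 4 4 (.lc 4 11 (.lc 4 0 (.lc 4 11 (.lc 4 0 (.lc 4 4 (.lc 4 12 (.lc 4 4 (.lc 4 10 (.lc 4 0 (.lc 4 10 (.lc 4 0 (.lc 4 4 (.lc 4 11 (.lc 4 4 (.lc 4 10 (.lc 4 0 (.lc 4 0 (.lc 4 10 (.lc 4 0 (.lc 4 4 (.lc 4 11 (.lc 4 4 (.lc 4 10 (.lc 4 0 (.lc 4 2 (.lc 4 10 (.lc 4 0 (.lc 4 4 (.lc 4 11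 (.lc 5 10 (.lc 5 4 (.lc 5 11 (.lc 5 10 (.lc 1 0 (.lc 5 0 (.lc 5 11 (.lc 5 4 (.lc 5 11 (.lc 5 0 (.lc 5 11 (.lc 5 0 (.lc 5 4 (.lc 5 12 .stop))))))))))))))))))))))))))))))))))))))))))))))))))))))))))))))))))))))))))))))))))))))))))))))))))))))))))))))
 (.lc 2 4 (.lc 2 4 (.lc 2 4 (.lc 2 4 (.lc 2 4 (.lc 2 4 (.lc 2 4 (.lc 2 4 (.lc 3 8 (.lc 2 3 (.lc 2 3 (.lc 3 0 (.lc 3 9 (.lc 3 4 (.lc 3 4 (.lc 3 4 (.lc 3 4 (.lc 3 4 (.lc 3 4 (.lc 3 4 (.lc 4 9 (.lc 2 2 (.lc 2 2 (.lc 2 2 (.lc 4 9 (.lc 4 0 (.lc 4 10 (.lc 3 4 (.lc 3 4 (.lc 3 4 (.lc 3 4 (.lc 3 4 (.lc 3 4 (.lc 3 4 (.lc 3 4 (.lc 3 4 (.lc 3 4 (.lc 3 4 (.lc 3 4 (.lc 4 4 (.lc 4 4 (.lc 4 4 (.lc 4 4 (.lc 4 4 .stop))))))))))))))))))))))))))))))))))))))))))))))))))))))))))))))))))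
 (.lc 0 0 (.lc 2 5 (.lc 0 0 (.lc 3 5 .stop)))))))))
 (.conf [54,96] (.node [48,84,101] 3 0 (.lc 0 0 .stop)
 (.conf [55,118] (.lc 0 0 (.node [49,84,101,84,66] 6 5 (.lc 1 4 (.lc 2 4 (.lc 1 4 (.lc 2 4 (.lc 2 4 (.lc 2 4 (.lc 2 4 (.lc 1 2 (.lc 1 2 (.lc 2 4 (.lc 2 4 (.lc 2 4 (.lc 1 2 (.lc 1 2 (.lc 2 4 (.lc 2 4 (.lc 2 4 (.lc 2 4 (.lc 2 4 (.lc 2 4 (.lc 2 4 (.lc 2 4 (.lc 2 4 (.node [66,96] 6 0 (.node [] 4 2 (.far [4096,0,257,4096,0,257] 4096 (.node [32,71,114] 7 2 .stop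
 (.lc 3 8 (.node [32,72,114,135,114] 7 2 .stop
 (.lc 3 8 (.lc 4 9 .stop))))))
 .stop)
 (.node [66,116,66] 6 7 (.lc 0 7 (.lc 0 0 (.lc 0 8 (.lc 0 0 (.lc 0 8 (.lc 2 4 (.lc 0 8 (.lc 0 0 (.lc 0 9 .stop)))))))))
 (.lc 2 4 (.lc 2 4 (.lc 3 4 (.lc 3 4 (.lc 3 4 (.lc 3 4 (.lc 3 4 (.lc 2 2 (.lc 2 2 (.lc 2 2 (.lc 3 4 (.lc 3 4 (.lc 3 4 (.lc 3 4 (.lc 3 4 (.lc 3 4 (.lc 3 4 (.lc 3 4 (.lc 3 4 (.lc 3 4 (.lc 3 4 (.lc 3 4 (.lc 3 4 (.lc 3 4 (.lc 3 4 (.lc 4 4 (.lc 4 4 (.lc 4 4 (.lc 4 4 (.lc 4 4 .stop)))))))))))))))))))))))))))))))))))))))))))))))))))))))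
 (.conf [54,96] (.conf [48,84,101] (.conf [55,84,101] (.node [54,84] 0 5 .stop
 (.node [48,84,101] 3 0 (.lc 0 0 .stop)
 (.node [55,84,101] 3 7 (.node [] 6 5 (.node [84,96] 0 5 (.far [16,16,257,257,513,4096] 0 (.lc 1 2 .stop))
 (.node [84,97] 1 5 (.lc 1 2 .stop)
 (.node [84,104] 5 4 (.far [257,16,257,257,513,4096] 0 (.lc 2 2 (.lc 2 2 (.lc 2 2 (.lc 0 0 (.lc 0 9 (.lc 2 2 (.lc 2 2 (.lc 3 2 (.lc 3 2 (.lc 3 2 (.lc 3 2 .stop))))))))))))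
 (.lc 2 3 (.lc 2 3 (.lc 3 1 (.lc 3 8 (.lc 3 0 (.lc 3 1 (.lc 3 9 (.node [84,97] 6 1 .stop
 (.conf [104,128] (.conf [84,133] (.conf [84,133] (.lc 1 2 (.lc 1 2 (.lc 1 2 (.lc 2 3 (.lc 2 3 (.lc 2 3 (.lc 3 1 (.lc 3 8 (.lc 3 8 (.lc 3 0 (.lc 3 9 (.lc 2 2 (.lc 2 2 (.lc 2 2 (.lc 2 2 (.lc 4 8 (.lc 4 9 (.lc 4 1 (.lc 4 9 (.lc 4 0 (.lc 4 10 (.lc 3 3 (.lc 3 3 (.lc 3 3 (.lc 3 3 (.lc 2 2 (.lc 2 2 (.lc 2 2 (.lc 2 2 (.lc 2 2 (.lc 2 2 (.lc 2 2 (.lc 2 2 (.lc 2 2 (.lc 2 2 (.lc 3 2 (.lc 3 2 (.lc 3 2 (.lc 3 2 (.lc 3 2 (.lc 3 2 .stop)))))))))))))))))))))))))))))))))))))))))))))))))))))))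
 (.lc 0 0 (.lc 2 6 (.lc 0 0 (.node [135] 6 5 (.node [84,96] 0 5 (.node [] 6 0 (.far [1,16,256,0,0,257,1] 16 (.node [100] 6 4 (.far [257,256,256,0,0,16,1] 0 (.lc 2 0 (.lc 0 9 .stop)))
 (.lc 3 0 (.conf [16,135] (.conf [105,148] (.lc 3 0 (.lc 4 0 .stop)))))))
 (.lc 1 2 .stop))
 (.node [84,104,135] 8 5 .stop
 (.node [84,105] 5 4 (.node [148] 7 6 (.node [105,112] 0 6 (.far [16,16,257,256,0,16,1] 0 (.lc 1 4 (.lc 1 4 .stop)))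
 (.node [66,105,116] 4 6 (.lc 0 4 .stop)
 (.lc 2 3 (.node [105,122] 6 9 (.far [257,16,257,256,0,16,1] 0 (.lc 2 4 (.lc 2 4 (.lc 2 4 (.lc 0 0 (.lc 2 4 (.lc 0 11 (.lc 2 4 (.lc 2 4 (.lc 3 4 (.lc 3 4 (.lc 3 4 .stop))))))))))))
 (.lc 2 5 (.lc 2 5 (.lc 2 5 (.lc 2 5 (.lc 3 4 (.lc 3 10 (.lc 3 2 (.lc 3 0 (.lc 3 4 (.lc 3 11 (.lc 3 3 (.conf [122,160] (.conf [105,166] (.lc 3 3 (.conf [105,166] (.lc 2 5 (.lc 2 5 (.lc 2 5 (.lc 2 5 (.lc 2 5 (.lc 2 5 (.lc 3 10 (.lc 3 0 (.lc 3 0 (.lc 3 10 (.lc 3 0 (.lc 3 11 (.lc 3 5 (.lc 3 5 (.lc 3 5 (.lc 3 5 (.lc 3 5 (.lc 4 11 (.lc 1 0 (.lc 4 11 (.lc 4 0 (.lc 4 12 (.lc 3 5 (.lc 3 5 (.lc 3 5 (.lc 3 5 (.lc 3 5 (.lc 3 5 (.lc 3 5 (.lc 3 5 (.lc 3 5 (.lc 3 5 (.lc 3 5 (.lc 3 5 (.lc 4 5 (.lc 4 5 (.lc 4 5 (.lc 4 5 .stop)))))))))))))))))))))))))))))))))))))))))))))))))))))))))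
 (.lc 2 2 (.lc 2 2 (.lc 2 2 (.lc 0 0 (.lc 0 10 (.lc 2 2 (.lc 2 2 (.lc 3 2 (.lc 3 2 (.lc 3 2 .stop)))))))))))
 (.lc 2 3 (.lc 2 3 (.lc 3 1 (.lc 3 8 (.lc 3 9 (.lc 3 0 (.lc 3 8 (.lc 3 10 (.conf [105,144] (.conf [84,149] (.conf [84,149] (.lc 1 2 (.lc 1 2 (.lc 1 2 (.lc 2 3 (.lc 2 3 (.lc 2 3 (.lc 3 9 (.lc 3 8 (.lc 3 0 (.lc 3 9 (.lc 3 0 (.lc 3 10 (.lc 2 2 (.lc 2 2 (.lc 2 2 (.lc 4 8 (.lc 4 10 (.lc 4 10 (.lc 4 0 (.lc 4 11 (.lc 3 3 (.lc 3 3 (.lc 3 3 (.lc 2 2 (.lc 2 2 (.lc 2 2 (.lc 2 2 (.lc 2 2 (.lc 2 2 (.lc 2 2 (.lc 2 2 (.lc 2 2 (.lc 2 2 (.lc 2 2 (.lc 2 2 (.lc 3 2 (.lc 3 2 (.lc 3 2 (.lc 3 2 (.lc 3 2 .stop))))))))))))))))))))))))))))))))))))))))))))))))))))))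
 (.lc 0 0 (.lc 2 6 (.lc 0 0 (.lc 3 6 .stop)))))))))
 (.lc 0 0 (.conf [49,84] (.lc 0 0 (.node [49,84] 6 5 (.node [84] 0 5 (.node [] 0 4 (.lc 1 0 (.node [66] 6 4 (.far [257,4096,0,257,4096] 0 (.far [1,1,256,0,0,257] 0 (.node [66,103] 4 2 (.far [4112,1,1,256,0,0,257] 0 (.far [4112,1,1,256,0,0,257] 0 .stop))
 (.conf [64,103,114] (.conf [96,116,23] (.node [66,116,135,66,104] 4 2 (.node [114] 1 6 (.node [135] 7 2 .stop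
 (.lc 1 7 .stop))
 (.lc 0 9 .stop))
 .stop))))))
 (.conf [66,103,116] (.far [4112,4112,256] 0 (.far [257,257,4096] 0 (.node [66,104,116] 6 8 (.node [135] 7 4 (.node [114] 7 2 .stop
 (.lc 3 9 .stop))
 (.lc 2 7 .stop))
 .stop))))))
 (.lc 1 4 (.lc 2 0 (.lc 1 2 (.lc 2 4 (.lc 1 2 (.lc 2 2 .stop)))))))
 (.node [83,100,66] 4 2 (.node [64,100] 6 4 (.far [1,4112,256,0,257] 0 (.lc 1 0 (.lc 1 0 (.lc 0 0 (.lc 2 0 (.lc 3 7 (.lc 2 0 (.lc 0 0 (.node [103,112] 1 6 (.node [112] 1 7 .stop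
 (.lc 1 7 (.lc 2 1 (.conf [24,112,135] (.lc 2 7 (.lc 2 1 (.lc 3 1 .stop)))))))
 (.lc 2 0 (.lc 2 0 (.lc 2 0 (.lc 2 0 (.lc 3 7 (.lc 2 0 (.lc 3 0 (.lc 4 8 (.lc 3 0 (.lc 3 0 (.lc 3 0 (.lc 3 0 (.lc 4 0 .stop))))))))))))))))))))))
 (.conf [32,66] (.node [32,71,114,100] 7 2 (.node [] 6 4 (.lc 1 7 (.lc 1 7 (.conf [103,112] (.lc 1 7 (.lc 2 2 (.lc 2 2 (.lc 3 8 (.lc 2 7 (.lc 2 7 (.lc 0 0 (.node [112,135] 8 7 (.far [1,1,4096,4112,256,0,257,1] 4096 (.lc 3 1 (.lc 3 9 (.conf [137,144] (.lc 3 9 (.lc 4 10 .stop))))))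
 (.lc 2 7 (.lc 2 2 (.lc 2 2 (.lc 2 2 (.lc 2 2 (.lc 2 7 (.lc 3 0 (.lc 3 8 (.lc 2 7 (.lc 3 2 (.lc 4 9 (.lc 3 7 (.lc 3 2 (.lc 3 2 (.lc 3 2 (.lc 3 2 (.lc 4 2 .stop))))))))))))))))))))))))))))
 (.lc 0 4 (.lc 3 8 (.node [128] 6 4 (.lc 1 7 (.conf [103,120] (.lc 1 7 (.lc 1 7 (.lc 2 2 (.lc 2 2 (.lc 3 9 (.lc 2 7 (.lc 2 7 (.lc 2 7 (.lc 1 8 (.lc 2 7 (.lc 2 2 (.lc 2 2 (.lc 2 2 (.lc 2 2 (.lc 3 8 (.lc 3 9 (.lc 2 7 (.lc 2 7 (.lc 3 2 (.lc 4 10 (.lc 3 7 (.lc 3 2 (.lc 3 2 (.lc 3 2 (.lc 3 2 (.lc 4 2 .stop))))))))))))))))))))))))))))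
 (.lc 3 8 (.lc 4 9 .stop))))))
 (.lc 2 0 (.lc 2 0 (.lc 3 7 (.lc 3 8 (.lc 0 0 (.node [71,112,100] 6 4 (.lc 1 7 (.conf [103,112] (.lc 1 7 (.lc 2 2 (.lc 3 8 (.lc 2 7 (.node [112,135] 8 7 (.conf [1,128] (.lc 3 1 (.lc 3 9 .stop)))
 (.lc 2 7 (.lc 2 2 (.lc 2 2 (.lc 2 2 (.lc 3 8 (.lc 2 7 (.lc 3 2 (.lc 4 9 (.lc 3 7 (.lc 3 2 (.lc 3 2 (.lc 3 2 (.lc 4 2 .stop))))))))))))))))))))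
 (.lc 0 7 (.node [32,72,114,135,100,114] 7 2 (.node [112] 4 8 (.lc 2 0 (.conf [104,135] (.lc 2 9 (.lc 0 0 (.lc 3 9 (.lc 0 9 (.lc 3 10 (.lc 3 2 (.lc 0 9 (.lc 3 10 (.lc 3 1 (.lc 3 0 (.lc 2 7 (.lc 3 10 (.lc 3 2 (.lc 3 2 (.lc 3 2 (.lc 3 2 (.lc 3 2 (.lc 0 10 (.lc 4 11 (.lc 4 2 (.lc 4 2 (.lc 4 2 (.lc 4 2 (.lc 4 2 (.lc 1 0 (.lc 4 2 (.lc 5 2 .stop)))))))))))))))))))))))))))))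
 (.lc 0 4 (.lc 3 9 (.conf [121,144] (.lc 3 9 (.lc 4 10 .stop))))))
 (.lc 2 0 (.lc 2 0 (.lc 2 0 (.lc 3 7 (.lc 3 8 (.lc 3 0 (.lc 3 0 (.lc 4 8 (.lc 4 9 (.lc 3 0 (.lc 3 0 (.lc 3 0 (.lc 4 0 .stop))))))))))))))))))))))))
 (.node [84,117] 5 4 (.lc 2 0 (.node [116] 6 7 (.node [116,66,96] 6 0 (.lc 2 0 (.node [64] 4 0 (.node [112] 6 4 .stop
 .stop)
 (.node [104] 1 6 (.far [16,257,257,0,257,4096] 0 (.far [16,257,257,0,257,4096] 0 .stop))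
 (.node [105,152,105,128] 1 6 (.node [152] 0 1 .stop
 (.lc 1 8 .stop))
 .stop))))
 (.lc 2 1 (.node [116,66,100] 6 4 (.lc 1 2 (.lc 1 2 (.lc 2 2 (.lc 1 2 (.lc 2 2 (.lc 2 2 (.lc 2 2 (.lc 2 2 (.lc 0 0 (.lc 2 2 (.lc 1 0 (.lc 2 2 (.lc 2 2 (.lc 1 0 (.lc 0 0 (.lc 2 0 (.lc 0 0 .stop)))))))))))))))))
 (.node [116,66,104] 7 4 (.node [66,112] 7 0 (.node [] 0 4 (.lc 1 0 (.node [66] 8 4 (.far [1,1,0,1,0,1,0,0,257] 0 .stop)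
 (.far [4112,1,256] 0 .stop)))
 (.far [4096,0,1,0,257,1,0,257] 16 (.far [4112,4112,1,256,256] 0 .stop)))
 (.lc 1 2 (.node [116,132] 6 8 (.node [96] 6 0 (.far [257,257,0,257,0,257,4096] 0 .stop)
 (.lc 2 1 (.lc 1 4 (.node [105] 1 6 (.far [16,257,0,257,0,257,4096] 0 (.lc 3 0 (.far [16,257,0,257,0,257,4096] 0 (.far [16,257,0,257,0,257,4096] 0 (.lc 3 0 (.lc 4 0 .stop))))))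
 (.lc 0 0 (.lc 2 4 (.lc 2 4 (.lc 2 4 (.lc 2 4 (.lc 3 1 (.lc 3 1 (.lc 0 0 (.node [105,144,105] 1 6 (.node [144] 0 1 .stop
 (.lc 1 0 .stop))
 (.node [96,152] 6 0 (.node [] 8 4 (.lc 1 2 (.far [257,0,16,4096,4096] 0 (.node [66,138,152] 9 8 (.far [16,257,0,16,4096,4096] 0 (.lc 3 11 (.lc 1 4 (.lc 3 11 (.lc 4 12 .stop)))))
 (.lc 2 2 (.lc 2 2 (.lc 3 4 (.conf [66,154,164] (.conf [139,186] (.lc 2 2 (.lc 2 2 (.lc 3 4 (.lc 4 4 (.lc 3 2 .stop)))))))))))))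
 .stop)
 (.node [106,169,106,152] 1 6 (.node [169] 1 10 (.node [169,152] 10 9 (.node [152] 9 8 (.far [16,0,0,0,16,4096,4096] 0 (.node [132,155] 8 4 (.far [257,16,0,0,0,16,4096,4096] 0 (.lc 2 2 (.lc 0 12 .stop)))
 (.lc 2 4 (.lc 3 0 (.conf [132,184] (.lc 1 2 (.lc 2 4 (.lc 3 0 (.lc 1 0 (.lc 1 0 (.lc 2 2 (.lc 1 0 .stop))))))))))))
 (.lc 2 8 (.lc 2 8 (.conf [152,185] (.lc 2 8 (.lc 3 8 .stop))))))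
 (.conf [152,161] (.conf [169,186] (.far [257,256,257,0,257,0,257,1,0,257] 16 (.far [256,16,257,0,257,0,257,4096,0,257] 16 .stop)))))
 (.lc 3 0 (.lc 1 9 (.lc 1 9 (.lc 3 0 (.lc 4 0 .stop))))))
 (.lc 3 1 (.lc 2 4 (.lc 2 4 (.lc 3 1 (.lc 2 4 (.lc 3 1 (.lc 3 1 (.lc 0 0 (.lc 3 4 (.lc 0 0 (.lc 3 4 (.lc 3 4 (.lc 3 4 (.lc 0 0 (.lc 0 0 (.lc 0 0 (.lc 4 1 (.lc 4 1 (.lc 0 0 .stop))))))))))))))))))))))))))))))))))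
 (.node [66,121] 8 7 (.node [] 4 2 (.node [64] 9 4 (.far [1,4112,0,1,0,1,0,0,257] 0 (.far [257,0,1,4096,1,0,257,1,0,257] 16 (.node [154,160,64] 8 9 (.far [1,4096,4112,256,257,0,1,0,0,257] 0 (.lc 3 11 (.node [160,186] 8 11 (.far [4112,4112,0,0,4112,0,256] 0 (.node [140,186] 6 8 (.far [1,4112,4112,0,0,4112,0,256] 0 (.lc 1 11 (.lc 1 11 .stop)))
 (.lc 2 10 (.lc 2 10 (.conf [186,203] (.conf [186,203] (.lc 2 10 (.lc 2 10 (.lc 0 1 (.lc 2 10 (.node [97,134,186] 1 11 (.lc 1 0 .stop)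
 (.lc 3 10 (.lc 3 10 (.lc 3 10 .stop))))))))))))))
 (.lc 3 11 (.lc 4 12 .stop)))))
 (.lc 3 4 (.node [160,154] 9 10 (.far [4112,4112,0,256,256] 0 (.node [155,160] 9 11 (.far [4112,4112,4112,0,256,256] 0 (.lc 2 10 (.far [4112,4112,4112,0,256,256] 0 (.lc 2 10 (.lc 3 10 .stop)))))
 (.conf [139,148] (.conf [156,160] (.conf [148,160,186] (.conf [139,148] (.conf [156,203] (.conf [148,160,186,116,139] (.conf [156,160] (.lc 0 6 (.conf [148,160] (.node [139,148,160] 6 8 (.far [1,4112,4112,0,16,256,256] 0 (.lc 3 1 (.node [186,203,108] 6 12 (.node [203] 1 12 .stop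
 (.lc 2 11 .stop))
 .stop)))
 (.conf [140,148] (.conf [157,160] (.conf [148,160,186] (.conf [148,160] (.conf [148,160] (.conf [148,160] (.conf [148,160] .stop)))))))))))))))))))
 (.far [1,4112,0,1,0,1,0,0,257] 0 (.node [155,186,64,160] 9 11 (.far [4112,4096,4112,256,257,0,1,0,0,257] 0 (.lc 0 12 (.lc 0 12 (.lc 2 10 (.lc 0 13 .stop)))))
 .stop)))))))
 (.node [32,72,137] 4 8 (.lc 0 4 .stop)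
 (.lc 2 2 (.node [32,74] 9 4 (.far [1,4112,0,1,0,1,0,0,257] 0 (.conf [144,162,66] (.conf [155,162,186] (.node [162,66,144] 2 0 .stop
 (.lc 3 4 (.node [162,186,66,155] 10 2 (.node [160,186] 11 10 (.far [1,4096,1,4112,0,1,0,1,0,0,257,1] 4096 (.lc 3 1 (.lc 3 8 (.lc 3 12 (.conf [188,192] (.lc 3 12 (.lc 4 13 .stop)))))))
 (.conf [162,176] (.conf [172,192] (.far [1,1,4096,1,4096,1,0,257,1,0,257] 4096 (.far [4096,1,4112,0,1,0,1,0,0,257,1] 4096 .stop)))))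
 (.far [1,4112,0,1,0,1,0,0,257] 0 (.far [1,4112,0,1,0,1,0,0,257] 0 (.conf [155,162,66] (.conf [144,162,66] (.conf [156,162,66] .stop)))))))))))
 (.lc 2 0 (.lc 2 0 (.far [4096,1,4096,1,0,257,1,0,257] 4096 (.lc 0 4 (.conf [66,154,162] (.lc 3 2 (.node [74,160,74,148] 9 4 (.far [1,4112,0,1,0,1,0,0,257] 0 (.lc 3 11 (.lc 3 4 (.lc 1 0 (.lc 3 11 (.lc 4 12 .stop))))))
 (.lc 3 2 (.node [32,162,186,75,148] 9 4 (.far [1,4112,0,1,0,1,0,0,257] 0 (.lc 3 0 (.lc 3 12 (.lc 1 10 (.lc 3 4 (.lc 1 10 (.lc 3 0 (.lc 3 12 (.lc 4 12 (.lc 4 0 (.lc 4 13 .stop)))))))))))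
 (.lc 2 0 (.lc 2 0 (.lc 2 0 (.lc 2 0 (.far [1,1,4096,1,0,257,1,0,257] 4096 (.node [66,154,162] 8 9 (.far [1,4112,256,257,0,1,0,0,257] 0 (.lc 3 0 (.lc 3 11 (.node [162] 2 0 .stop
 (.node [162,186] 10 2 (.far [1,0,1,1,4096,1,0,257,1,0,257] 4096 (.lc 3 2 (.conf [172,192] (.lc 3 2 (.lc 4 2 .stop)))))
 (.lc 3 0 (.lc 3 11 (.lc 4 11 (.lc 4 0 (.lc 4 12 .stop))))))))))
 (.lc 3 0 (.lc 3 0 (.far [4096,1,4096,1,0,257,1,0,257] 4096 (.conf [66,162,32] (.lc 3 0 (.lc 3 0 (.lc 3 0 (.lc 3 0 (.lc 4 0 .stop))))))))))))))))))))))))))))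
 (.conf [128,148,116] (.conf [138,148,116] (.far [16,257,16,4096,4096] 0 (.far [16,257,16,4096,4096] 0 (.far [1,4112,1,256,256] 0 (.far [1,4112,1,256,256] 0 (.conf [138,148,116] (.conf [128,148,116] (.conf [139,148,116] .stop))))))))))
 (.lc 2 2 (.lc 2 2 (.lc 2 2 (.lc 2 2 (.lc 2 2 (.lc 3 4 (.lc 3 4 (.far [4112,1,256,256] 0 (.node [66,121,144,121] 0 4 (.lc 1 0 .stop)
 (.lc 1 0 (.node [66,112,148] 7 0 .stop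
 (.far [4112,1,256,256] 0 (.node [66,148,169,122] 7 10 (.far [4112,4112,1,256,256] 0 (.lc 0 0 (.lc 0 11 (.lc 0 0 (.lc 0 11 (.lc 2 9 (.lc 2 9 (.lc 0 11 (.lc 0 0 (.lc 0 12 .stop))))))))))
 (.lc 2 2 (.lc 2 2 (.lc 2 2 (.lc 2 2 (.lc 2 2 (.lc 2 2 (.lc 2 2 (.lc 2 2 (.lc 3 4 (.lc 2 2 (.lc 3 4 (.lc 3 2 (.lc 3 2 (.lc 3 2 (.lc 3 2 (.lc 3 2 (.lc 3 2 (.lc 3 2 (.lc 4 4 (.lc 2 0 (.lc 4 4 (.lc 4 4 (.lc 3 2 (.lc 3 2 (.lc 3 2 (.lc 3 2 (.lc 3 2 (.lc 3 2 (.lc 3 2 (.lc 3 2 (.lc 3 2 (.lc 3 2 (.lc 4 2 (.lc 4 2 (.lc 4 2 (.lc 4 2 .stop)))))))))))))))))))))))))))))))))))))))))))))))))))))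
 (.lc 0 0 (.lc 2 4 (.lc 2 4 (.lc 2 4 (.lc 2 4 (.lc 3 8 (.lc 1 2 (.lc 1 2 (.lc 3 0 (.lc 3 9 (.lc 0 0 (.node [104,116,128,66,104] 8 0 (.node [129] 8 1 .stop
 (.conf [22,137,145] .stop))
 (.lc 1 2 (.lc 1 2 (.node [116,135,66,96] 6 0 (.lc 2 0 .stop)
 (.node [105,116,152,66,105,135] 8 7 (.node [116,128] 0 7 (.far [16,16,16,4096,4096] 0 (.lc 1 2 (.lc 0 0 .stop)))
 (.far [16,16,4096,4096] 0 (.node [116,138] 7 4 (.far [257,16,16,4096,4096] 0 (.lc 2 2 (.lc 2 2 (.lc 0 0 (.lc 0 11 (.lc 2 2 (.lc 2 2 (.lc 3 2 (.lc 3 2 (.lc 3 2 .stop))))))))))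
 (.lc 2 4 (.lc 2 4 (.lc 3 1 (.lc 3 10 (.lc 1 2 (.lc 1 2 (.lc 3 0 (.lc 3 11 (.node [116,138,160,138,152] 0 7 .stop
 (.lc 1 2 (.lc 1 2 (.conf [116,167] (.conf [116,167] (.lc 1 2 (.lc 1 2 (.lc 2 4 (.lc 1 2 (.lc 2 4 (.lc 3 10 (.lc 3 0 (.lc 3 0 (.lc 3 10 (.lc 3 0 (.lc 3 11 (.lc 2 2 (.lc 2 2 (.lc 2 2 (.lc 4 11 (.lc 2 2 (.lc 2 2 (.lc 2 2 (.lc 4 11 (.lc 4 0 (.lc 4 12 (.lc 3 4 (.lc 1 0 (.lc 3 4 (.lc 3 4 (.lc 2 2 (.lc 2 2 (.lc 2 2 (.lc 2 2 (.lc 2 2 (.lc 2 2 (.lc 2 2 (.lc 3 2 (.lc 3 2 (.lc 3 2 (.lc 3 2 .stop))))))))))))))))))))))))))))))))))))))))))))))))))))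
 (.lc 3 1 (.lc 2 4 (.lc 2 4 (.lc 3 1 (.lc 2 4 (.lc 3 8 (.lc 3 0 (.lc 3 0 (.lc 3 9 (.lc 3 8 (.lc 3 0 (.lc 3 0 (.lc 3 8 (.lc 3 0 (.lc 3 9 (.lc 3 4 (.lc 0 0 (.lc 3 4 (.lc 3 4 (.lc 3 4 (.lc 4 9 (.lc 2 2 (.lc 2 2 (.lc 2 2 (.lc 4 9 (.lc 4 0 (.lc 4 10 (.lc 4 9 (.lc 4 8 (.lc 4 9 (.lc 4 0 (.lc 4 10 (.lc 4 9 (.lc 4 9 (.lc 4 0 (.lc 4 0 (.lc 4 10 (.lc 4 9 (.lc 4 9 (.lc 4 0 (.lc 4 10 (.lc 5 10 (.lc 5 10 (.lc 5 10 (.lc 5 0 (.lc 5 11 .stop))))))))))))))))))))))))))))))))))))))))))))))))))))))))))))))))))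
 (.lc 2 8 (.lc 2 2 (.lc 2 2 (.lc 2 2 (.lc 2 2 (.lc 2 2 (.lc 3 3 (.lc 3 3 (.far [4112,1,1,16,256] 0 (.lc 3 8 (.lc 3 0 (.far [4112,1,1,16,256] 0 (.lc 3 9 (.lc 2 2 (.lc 2 2 (.lc 2 2 (.lc 2 2 (.lc 2 2 (.lc 2 2 (.lc 2 2 (.lc 3 3 (.lc 3 3 (.lc 3 2 (.lc 3 2 (.lc 3 2 (.lc 3 2 (.lc 3 2 (.lc 3 2 (.lc 3 2 (.lc 4 3 (.lc 4 3 (.lc 4 3 (.lc 3 2 (.lc 3 2 (.lc 3 2 (.lc 3 2 (.lc 3 2 (.lc 3 2 (.lc 3 2 (.lc 3 2 (.lc 3 2 (.lc 4 2 (.lc 4 2 (.lc 4 2 (.lc 4 2 .stop)))))))))))))))))))))))))))))))))))))))))))))))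
 (.lc 2 4 (.lc 2 4 (.lc 2 4 (.lc 3 7 (.lc 1 2 (.lc 1 2 (.lc 3 0 (.lc 3 8 (.node [84,112] 0 5 .stop
 (.lc 1 2 (.lc 1 2 (.node [84,117] 0 7 (.node [39,117] 2 7 (.node [117] 7 5 (.lc 0 2 .stop)
 (.conf [117,135] .stop))
 (.lc 0 0 (.lc 0 0 (.lc 2 5 (.lc 2 5 (.lc 0 0 .stop))))))
 (.node [84,117,135] 7 5 (.lc 1 4 (.far [16,16,16,1,4096] 0 (.lc 1 4 (.lc 2 3 (.lc 2 3 (.lc 2 4 (.lc 1 2 (.lc 1 2 (.lc 2 4 (.lc 2 4 (.lc 2 4 (.lc 1 2 (.lc 1 2 (.lc 2 4 (.lc 2 4 (.lc 1 2 (.lc 1 2 (.lc 2 3 (.lc 2 3 (.lc 2 4 (.node [112,135,104] 7 0 .stop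
 (.node [121,148,135,66,104] 8 7 (.node [137] 8 9 (.lc 2 0 (.lc 2 10 (.lc 3 0 (.lc 3 10 (.lc 2 4 (.lc 2 4 (.lc 3 10 (.lc 3 0 (.lc 3 11 (.lc 1 2 (.lc 1 2 (.node [66] 6 4 (.lc 1 2 (.lc 1 2 (.lc 2 2 (.lc 1 2 (.lc 2 2 (.lc 2 2 (.lc 2 2 (.lc 2 2 (.lc 0 0 (.lc 2 2 (.lc 1 0 (.lc 2 2 (.lc 2 2 (.lc 1 0 (.lc 0 0 (.lc 2 0 (.lc 0 0 .stop)))))))))))))))))
 (.lc 0 0 (.lc 0 10 (.lc 2 2 (.lc 2 2 (.lc 2 2 (.lc 0 10 (.lc 0 0 (.lc 0 11 (.lc 0 0 (.lc 0 10 (.lc 2 2 (.lc 2 2 (.lc 2 2 (.lc 2 2 (.lc 3 2 (.lc 3 2 (.lc 3 2 .stop)))))))))))))))))))))))))))))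
 (.lc 3 0 (.lc 3 10 (.lc 1 4 (.lc 1 4 (.lc 3 0 (.lc 3 10 (.lc 4 10 (.lc 4 0 (.lc 4 11 .stop))))))))))
 (.lc 2 4 (.lc 2 4 (.lc 2 2 (.lc 2 2 (.lc 2 2 (.lc 3 4 (.lc 2 2 (.lc 2 2 (.lc 2 2 (.lc 3 4 (.lc 3 4 (.lc 3 4 (.lc 3 3 (.lc 3 3 (.lc 3 3 (.lc 2 2 (.lc 2 2 (.lc 2 2 (.lc 2 2 (.lc 2 2 (.lc 2 2 (.lc 3 2 (.lc 3 2 (.lc 3 2 (.lc 3 2 .stop)))))))))))))))))))))))))))))))))))))))))))))))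
 (.lc 2 4 (.lc 2 4 (.lc 2 4 (.lc 2 4 (.lc 2 4 (.lc 2 4 (.lc 3 7 (.lc 3 0 (.lc 3 7 (.lc 3 0 (.lc 3 8 (.lc 3 4 (.lc 3 4 (.lc 3 4 (.lc 3 4 (.lc 4 8 (.lc 2 2 (.lc 2 2 (.lc 2 2 (.lc 4 8 (.lc 4 0 (.lc 4 9 (.lc 3 4 (.lc 3 4 (.lc 3 4 (.lc 3 4 (.lc 3 4 (.lc 3 4 (.lc 3 4 (.lc 3 4 (.lc 3 4 (.lc 3 4 (.lc 3 4 (.lc 3 4 (.lc 4 4 (.lc 4 4 (.lc 4 4 (.lc 4 4 (.lc 4 4 .stop)))))))))))))))))))))))))))))))))))))))))))))))))))))))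
 (.conf [55,118] (.conf [55,112] (.node [48,84,101,118] 3 0 (.lc 0 0 .stop)
 (.conf [56,135] (.lc 0 0 (.node [49,84,101,118,84,66] 6 5 (.lc 1 4 (.lc 2 4 (.lc 1 4 (.lc 2 4 (.lc 2 4 (.lc 2 4 (.lc 2 4 (.lc 1 2 (.lc 1 2 (.lc 2 4 (.lc 2 4 (.lc 2 4 (.lc 1 2 (.lc 1 2 (.lc 2 4 (.lc 2 4 (.lc 2 4 (.lc 2 4 (.lc 2 4 (.lc 2 4 (.lc 2 4 (.lc 2 4 (.lc 2 4 (.node [66,96] 6 0 .stop
 (.node [66,132,66] 7 6 (.node [120] 7 8 (.lc 2 0 (.lc 2 9 (.lc 1 2 (.lc 1 2 (.lc 2 4 (.lc 0 9 (.lc 3 9 (.lc 3 0 (.lc 3 10 (.lc 1 2 (.lc 1 2 (.lc 0 4 (.lc 0 0 (.lc 2 2 (.lc 2 2 (.lc 2 2 (.lc 0 0 (.lc 0 0 (.lc 0 0 (.lc 2 2 (.lc 0 9 (.lc 0 0 .stop))))))))))))))))))))))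
 (.lc 3 0 (.lc 3 9 (.lc 1 4 (.lc 1 4 (.lc 3 0 (.lc 3 9 (.lc 4 9 (.lc 4 0 (.lc 4 10 .stop))))))))))
 (.lc 2 4 (.lc 2 4 (.lc 3 4 (.lc 3 4 (.lc 3 4 (.lc 3 4 (.lc 3 4 (.lc 2 2 (.lc 2 2 (.lc 2 2 (.lc 3 4 (.lc 3 4 (.lc 3 4 (.lc 3 4 (.lc 3 4 (.lc 3 4 (.lc 3 4 (.lc 3 4 (.lc 3 4 (.lc 3 4 (.lc 3 4 (.lc 3 4 (.lc 3 4 (.lc 3 4 (.lc 3 4 (.lc 4 4 (.lc 4 4 (.lc 4 4 (.lc 4 4 (.lc 4 4 .stop)))))))))))))))))))))))))))))))))))))))))))))))))))))))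
 (.lc 0 0 (.conf [49,84] (.lc 0 0 (.conf [49,84] (.lc 0 0 (.conf [49,84] (.lc 0 0 (.conf [49,84] .stop)))))))))))))))))))))))))))))))

theorem t19 : kNode2 awTt FTt 3 5 (check tyTt awTt triet FTt [s20] c19) (fun _ _ _ => true) 0 s19 Pl.nil s19 =
    true := by
  decide +kernel

end Chk
end Pool.Agent.Lib.MP_ba95e8_co
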