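import Pool.Agent.Lib.MP_ba95e8_co.ChkTab
import Pool.Agent.Lib.MP_ba95e8_co.ChkStates

/-!
Deltahedral domes: part 2 of the case analysis.
-/

namespace Pool.Agent.Lib.MP_ba95e8_co
namespace Chk

/-- certificate number 2 -/
def c2 : Cert := (.node [] 3 0 (.node [16,48,66] 4 2 (.far [4096,4112,4096,0,257] 4096 (.node [69] 0 4 (.node [64,82] 5 2 (.far [4096,257,0,4112,4096,0,257] 4096 (.node [86] 2 0 .stop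
 (.lc 3 7 (.node [87,98,118] 6 2 .stop
 (.lc 3 7 (.lc 4 8 .stop))))))
 (.node [69] 4 5 (.node [] 5 2 (.lc 2 2 (.node [] 2 0 (.far [16,0,0,257,0,16,4096] 256 .stop)
 (.conf [88,114,135] (.lc 3 2 (.node [114,135,32,88] 7 2 (.conf [101,118] .stop)
 (.node [88,135,101,32] 5 8 (.node [135] 7 2 .stop
 (.lc 0 9 (.lc 0 9 (.lc 2 7 (.lc 0 10 .stop)))))
 (.conf [89,114,32] .stop)))))))
 (.conf [82,103,64] (.far [4112,1,4112,0,1,256] 0 (.far [257,16,257,0,16,4096] 0 (.conf [82,104,64] .stop)))))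
 (.lc 2 0 (.far [16,257,0,16,4096] 0 (.node [69,100,118,69] 6 4 (.far [16,16,257,0,16,4096] 0 (.lc 1 2 (.lc 1 2 (.lc 3 8 (.lc 2 2 .stop)))))
 (.lc 2 0 (.lc 3 0 .stop)))))))
 (.node [32,70,101,82] 5 2 (.node [] 0 4 .stop
 (.node [87,112,101] 4 6 (.lc 2 7 (.lc 2 8 (.lc 3 8 (.lc 3 9 (.lc 3 0 (.lc 3 9 (.lc 1 6 (.lc 3 7 (.lc 3 9 (.lc 3 0 (.lc 4 10 (.lc 4 0 .stop))))))))))))
 .stop))
 (.lc 3 6 (.node [70,82,101] 4 6 (.far [4112,4112,0,1,256] 0 (.node [71,101,82] 4 7 (.far [4112,4112,4112,0,1,256] 0 (.lc 2 6 .stop))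
 (.conf [72,101] (.lc 3 0 (.conf [72,135] (.node [101,118,82] 7 6 (.node [82] 7 5 (.lc 1 2 (.lc 3 8 (.lc 2 2 (.far [1,257,4096,0,4112,4096,0,257] 4096 .stop))))
 (.lc 1 2 (.lc 1 2 (.lc 3 8 (.lc 2 2 .stop)))))
 (.conf [72,101] (.lc 3 0 (.conf [73,101] (.lc 4 0 .stop))))))))))
 (.node [32,70,82,101] 5 2 (.node [80] 0 4 .stop
 (.lc 3 7 .stop))
 (.lc 3 6 (.lc 3 6 (.node [32,71,82,101,118] 5 2 (.node [80] 4 7 (.node [72,118,101,80] 0 4 .stop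
 (.conf [73,118] (.conf [118,135] (.conf [73,118] (.conf [74,118] .stop)))))
 (.lc 3 8 .stop))
 (.lc 4 7 (.lc 4 7 (.lc 4 7 (.lc 4 7 (.lc 5 8 .stop))))))))))))))
 (.node [53] 3 5 (.node [] 0 4 (.lc 1 0 (.node [] 5 4 (.node [66] 1 4 .stop
 (.node [82] 5 2 .stop
 (.node [66,86] 5 6 (.node [] 6 4 (.node [] 6 2 (.node [103] 1 6 (.node [] 7 2 .stop
 (.far [16,257,257,16,4096] 0 .stop))
 (.node [104,135,104,114] 6 8 (.far [4112,4112,4112,1,256] 0 (.lc 2 7 .stop))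
 .stop))
 (.node [103,114,64] 6 7 (.node [114] 7 2 .stop
 (.far [257,256,16,4112,16,0,0,16,4096] 0 .stop))
 (.far [16,0,16,16,0,0,16,4096] 0 (.far [1,0,1,1,0,0,1,256] 0 (.node [104,135,64,114] 6 8 (.far [4112,4096,1,257,1,0,0,1,256] 0 (.lc 2 7 .stop))
 .stop)))))
 (.node [23,100,118,80] 6 4 (.node [98] 7 6 (.node [114] 1 7 .stop
 (.far [1,4112,4096,16,256,1,256] 0 .stop))
 (.node [100,114,64] 7 2 .stop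
 (.conf [104,130] (.conf [100,114] (.conf [100,120] .stop)))))
 (.far [4112,4112,256,1,256] 0 (.far [257,257,4096,16,4096] 0 (.node [24,100,118,135,80,118,100] 6 4 (.node [98] 7 6 (.far [16,257,256,1,4096,16,4096] 0 (.lc 3 9 .stop))
 (.lc 3 4 (.conf [105,146] (.lc 3 4 (.lc 4 4 .stop)))))
 .stop)))))
 (.conf [64,86,98] (.conf [80,100,22] (.far [16,16,0,0,16,4096] 0 (.far [4112,256,1,256] 0 (.node [66,100,118,66,87] 5 7 (.far [4112,4112,256,1,256] 0 (.lc 2 6 (.conf [24,118,135] (.lc 2 6 (.lc 3 6 .stop)))))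
 (.node [64,86,32] 5 6 (.far [257,257,4096,16,4096] 0 (.lc 2 2 (.node [23,118] 1 7 .stop
 (.lc 2 2 (.lc 3 2 .stop)))))
 (.node [80,22,66] 6 4 (.far [1,1,1,0,0,1,256] 0 (.lc 3 7 (.node [32,114] 7 2 .stop
 (.lc 3 7 (.lc 4 8 .stop)))))
 (.conf [64,87,118] (.conf [80,100,66] .stop))))))))))))
 (.conf [66,86,100] (.far [4112,0,1,256] 0 (.far [257,0,16,4096] 0 (.node [66,87,100] 5 7 (.far [4112,16,1,257,256] 0 (.lc 2 6 (.conf [118,135] (.lc 2 6 (.lc 3 6 .stop)))))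
 .stop))))))
 (.node [80,101,48] 5 0 (.node [84,101] 5 4 (.node [66,100] 6 4 (.node [] 1 6 (.node [23,98] 6 2 (.node [] 1 7 .stop
 (.far [4112,1,4112,16,4112,1,256] 0 .stop))
 (.node [24,118,135,98] 7 6 (.far [16,16,257,1,257,16,4096] 0 (.lc 3 9 .stop))
 .stop))
 (.lc 3 7 (.far [16,16,4096,0,0,16,4096] 0 (.lc 3 7 (.lc 4 8 .stop)))))
 (.lc 2 0 (.far [16,4096,0,0,16,4096] 0 (.far [4112,4096,4096,0,16,4112,256] 0 (.lc 2 0 (.lc 3 0 .stop))))))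
 (.conf [66,100] (.conf [87,116] (.conf [80,100] (.conf [80,103] .stop)))))
 (.far [4112,4112,4112,4112,256] 0 (.far [257,257,257,257,4096] 0 (.node [80,101,118,48] 5 0 (.node [84,101,118] 5 4 (.far [257,256,256,0,1,257,4096] 0 (.lc 2 0 (.lc 0 2 (.lc 0 8 (.lc 2 0 (.lc 3 0 .stop))))))
 (.conf [66,100] (.conf [88,132] (.far [1,0,1,256] 0 (.conf [66,104,132] .stop)))))
 .stop)))))
 (.node [54,101,54,80] 3 6 (.far [4112,4112,4112,4112,256] 0 (.lc 2 5 (.far [4112,4112,4112,4112,256] 0 (.lc 2 5 (.lc 3 5 .stop)))))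
 .stop)))
 (.node [49,66] 4 2 (.far [1,0,1,1] 4096 (.node [69,82] 1 4 (.lc 1 5 (.node [82] 5 2 (.far [1,1,4096,4096,0,257] 4096 (.node [86] 6 2 (.far [1,1,1,4096,4096,0,257] 4096 (.node [103,112,86] 5 6 (.lc 2 1 (.node [88,103,112] 6 7 (.far [4112,1,4096,257,1,4096,4096,0,257] 4096 (.lc 0 9 (.lc 0 9 (.node [112,151] 1 5 (.node [137] 1 8 (.node [137] 8 9 .stop
 (.lc 1 7 .stop))
 (.lc 1 9 (.lc 1 9 .stop)))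
 (.lc 0 10 .stop)))))
 (.conf [98,135,88] (.lc 3 1 (.conf [103,134] (.lc 3 1 (.conf [98,112] (.lc 3 1 (.conf [98,112] (.lc 4 1 .stop))))))))))
 (.node [112,103] 1 5 (.node [5,86,103] 0 5 .stop
 (.node [81,103] 1 6 .stop
 (.node [86,112,117,103] 7 5 (.lc 0 2 .stop)
 (.node [86,103] 5 6 (.node [103] 1 8 (.node [8] 0 8 (.far [257,1,257,256,16,256] 17 (.conf [121,134,152] .stop))
 (.conf [120,134] (.conf [1,120] (.conf [120,134] (.conf [9,152] (.conf [1,121] .stop))))))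
 (.lc 2 7 (.lc 2 2 (.far [4112,1,0,4112,256,256] 0 (.lc 2 7 (.lc 3 7 .stop))))))
 (.lc 2 1 (.lc 2 1 (.far [257,16,16,256,256] 17 (.conf [8,133] (.lc 1 7 (.conf [1,117] (.node [86,133,152,86,103,112] 5 6 (.far [257,16,0,257,4096,4096] 0 (.lc 2 7 (.lc 2 2 (.lc 0 10 (.lc 2 7 (.lc 3 7 .stop))))))
 (.lc 2 1 (.far [257,16,16,256,256] 17 (.lc 3 1 (.conf [1,120] .stop)))))))))))))))
 (.far [1,1,1,4096,4096,0,257] 4096 (.node [104,135,86,112] 5 6 (.lc 2 1 (.node [89,104,135,112] 6 8 (.far [4112,1,4096,257,1,4096,4096,0,257] 4096 (.lc 2 7 (.lc 0 10 (.lc 2 7 (.lc 3 7 .stop)))))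
 (.conf [98,135] (.lc 3 1 (.conf [104,150] (.lc 3 1 (.node [98,135,112,89] 8 7 (.conf [112,151] (.lc 2 0 (.lc 0 10 (.lc 2 0 (.lc 3 0 .stop)))))
 (.lc 3 1 (.conf [98,169,90] (.lc 4 1 .stop))))))))))
 .stop)))))
 (.node [86,96] 1 5 (.far [1,4096,257,0,4096,0,257] 4096 (.node [86,96] 5 6 (.far [4112,1,4096,257,0,4096,0,257] 4096 (.lc 2 0 (.lc 0 8 (.lc 2 0 (.lc 3 0 .stop)))))
 (.lc 2 1 (.node [96,118] 7 6 (.far [16,16,257,4096,4096] 17 (.lc 3 8 (.far [16,16,257,4096,4096] 17 (.lc 3 8 (.lc 4 9 .stop)))))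
 (.conf [86,117] (.lc 2 1 (.lc 3 1 .stop)))))))
 (.lc 3 6 (.lc 3 7 (.node [86,96] 1 5 (.far [1,4112,256,256] 0 (.node [86,96] 5 6 (.far [4112,1,4112,256,256] 0 (.lc 2 0 (.lc 0 8 (.lc 2 0 (.lc 3 0 .stop)))))
 (.lc 2 1 (.node [96,118] 7 6 (.conf [1,112] (.lc 3 8 .stop))
 (.conf [86,117] (.lc 2 1 (.lc 3 1 .stop)))))))
 (.node [87,98,118] 6 2 (.node [96,118] 5 7 (.node [80,118] 5 0 (.far [4112,4112,0,4112,256,256] 0 .stop)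
 (.far [4112,0,4112,256,256] 0 (.node [88,118] 1 5 (.far [1,4112,0,4112,256,256] 0 (.lc 1 7 (.lc 1 7 (.lc 1 7 (.far [1,4112,1,4096] 256 (.lc 2 7 .stop))))))
 (.lc 2 6 (.lc 2 6 (.lc 2 6 (.lc 3 1 (.lc 3 1 (.far [16,1,4096] 256 (.conf [89,152] (.lc 2 6 (.lc 2 6 (.lc 2 6 (.lc 2 6 (.lc 3 1 (.lc 3 1 (.lc 3 1 (.lc 3 6 (.lc 3 6 (.lc 4 1 (.lc 4 1 (.lc 4 1 (.lc 4 1 (.lc 4 1 (.lc 5 1 .stop)))))))))))))))))))))))))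
 (.node [104,128,118] 7 6 (.node [120,128] 5 7 (.lc 1 8 (.lc 2 9 (.lc 3 9 (.lc 3 1 (.lc 3 10 (.lc 1 0 (.lc 3 9 (.lc 3 1 (.lc 3 1 (.lc 4 10 (.lc 4 1 (.lc 4 1 .stop))))))))))))
 (.lc 3 9 (.node [121,128] 5 7 (.lc 1 9 (.lc 2 10 (.lc 3 10 (.lc 3 1 (.lc 3 11 (.lc 1 8 (.lc 3 10 (.lc 3 1 (.lc 3 1 (.lc 4 11 (.lc 4 1 (.lc 4 1 .stop))))))))))))
 (.lc 3 9 (.lc 4 10 .stop)))))
 (.node [104,128,104,118,87] 5 7 (.lc 2 1 (.lc 0 0 (.node [89,118] 1 5 (.far [1,4112,0,4112,256,256] 0 (.lc 1 7 (.lc 1 7 (.lc 0 1 .stop))))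
 (.lc 3 1 (.lc 2 6 (.lc 2 6 (.lc 3 1 (.conf [90,169] (.lc 2 6 (.lc 3 1 (.lc 2 6 (.lc 2 6 (.lc 3 1 (.lc 3 1 (.lc 3 1 (.lc 3 1 (.lc 1 1 (.lc 3 6 (.lc 1 1 (.lc 1 1 (.lc 4 1 (.lc 4 1 (.lc 1 1 (.lc 4 1 (.lc 1 1 .stop)))))))))))))))))))))))))
 (.node [104,128,118] 7 6 (.far [1,1,1,1,4096,4096,0,257] 4096 (.lc 3 9 (.lc 1 0 (.lc 3 9 (.lc 4 10 .stop)))))
 (.node [105,152,118,128] 7 6 (.node [121] 5 7 (.lc 1 9 (.lc 2 8 (.lc 2 10 (.lc 3 10 (.lc 3 1 (.lc 3 11 (.lc 3 8 (.lc 3 1 (.lc 3 1 (.lc 4 10 (.lc 4 1 (.lc 4 1 .stop))))))))))))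
 (.lc 3 10 (.lc 1 8 (.lc 3 10 (.lc 4 11 .stop)))))
 .stop)))))
 (.node [86] 1 5 (.far [16,257,4096,4096] 17 (.node [86] 5 6 (.far [257,16,257,4096,4096] 17 (.conf [96,120,81] (.node [120,134,81] 1 7 (.node [120,134] 7 8 .stop
 (.far [257,0,257,0,257,0,4096,0,257] 16 .stop))
 (.far [257,16,257,4096,4096] 17 (.conf [96,121,81] .stop)))))
 (.lc 2 1 (.far [16,257,4096,4096] 17 (.node [86,117,135,86] 7 5 (.far [16,16,257,4096,4096] 17 (.lc 1 0 (.lc 1 0 (.lc 3 9 (.lc 2 0 .stop)))))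
 (.lc 2 1 (.lc 3 1 .stop)))))))
 (.lc 3 6 (.lc 3 6 (.lc 3 7 (.node [87,96,118] 1 5 (.node [81,118,96] 1 7 .stop
 (.node [87,118,96] 5 7 (.node [118,135] 1 8 (.node [8] 8 7 (.node [118,137,96] 7 6 (.far [4112,1,0,4096,1,16,256,256] 0 (.lc 2 0 (.lc 0 10 (.lc 2 0 (.lc 3 0 .stop)))))
 (.conf [96,117] (.conf [118,151] (.node [96,117,137] 6 0 .stop
 (.conf [117,138,169] .stop)))))
 (.conf [104,135] (.lc 1 8 (.lc 1 8 (.conf [9,152] (.lc 1 9 .stop))))))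
 (.lc 2 6 (.lc 0 9 (.lc 2 6 (.lc 3 6 .stop)))))
 (.lc 2 1 (.node [118,135,96] 8 7 (.far [16,16,257,4096,4096] 17 (.lc 1 0 (.lc 1 0 (.lc 3 9 (.lc 2 0 .stop)))))
 (.conf [87,133] (.lc 2 1 (.lc 3 1 .stop)))))))
 (.lc 4 7 (.lc 4 8 (.lc 4 7 (.lc 4 7 (.lc 4 7 (.lc 5 8 .stop))))))))))))))))))
 (.lc 1 5 (.lc 2 1 (.lc 2 1 (.node [82] 5 2 (.node [86] 5 6 (.node [] 6 2 (.lc 2 0 .stop)
 (.lc 2 2 (.far [4112,4112,257,16,1,256] 0 (.lc 2 2 (.lc 3 2 .stop)))))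
 (.conf [87,118] .stop))
 (.lc 3 6 (.lc 2 5 (.lc 3 7 (.far [16,257,16,4096] 0 (.far [16,257,16,4096] 0 (.lc 2 5 (.lc 2 5 (.lc 2 1 (.lc 2 1 (.lc 2 1 (.lc 3 6 (.far [1,4112,1,256] 4097 (.lc 3 6 (.lc 2 5 (.lc 3 7 (.lc 3 1 (.lc 3 1 (.node [82,101] 6 5 (.node [82,103] 5 2 (.far [257,16,4112,1,16,4096] 0 (.lc 0 8 .stop))
 (.lc 2 2 (.lc 3 8 (.conf [82,117] (.lc 2 2 (.lc 3 8 (.lc 4 9 (.lc 3 2 .stop))))))))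
 (.lc 4 7 (.lc 3 5 (.lc 4 8 (.lc 3 1 (.lc 4 7 (.lc 3 1 (.lc 4 7 (.lc 3 1 (.lc 4 7 (.lc 4 1 (.lc 5 8 .stop)))))))))))))))))))))))))))))))))))
 (.node [69,80] 4 5 (.far [4112,4096,4096,0,257] 4096 (.lc 2 6 (.lc 0 6 (.lc 3 7 (.lc 3 1 (.lc 0 6 (.lc 3 7 (.node [80,101] 6 5 (.far [16,257,257,16,4096] 17 (.lc 3 7 (.far [16,257,257,16,4096] 17 (.lc 3 7 (.lc 4 8 .stop)))))
 (.lc 3 7 (.lc 3 1 (.lc 0 6 (.lc 0 7 (.lc 4 8 (.lc 0 7 (.lc 0 7 (.lc 0 7 (.lc 4 1 (.lc 0 8 .stop))))))))))))))))))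
 (.lc 2 0 (.lc 3 5 (.lc 3 6 (.node [69,80] 4 5 (.far [4112,4112,1,256] 0 (.lc 2 6 (.lc 0 6 (.lc 3 7 (.lc 3 1 (.lc 0 6 (.lc 3 7 (.node [80,101] 6 5 (.conf [1,96] (.lc 3 7 .stop))
 (.lc 3 7 (.lc 3 1 (.lc 0 6 (.lc 0 7 (.lc 4 8 (.lc 0 7 (.lc 0 7 (.lc 0 7 (.lc 4 1 (.lc 0 8 .stop))))))))))))))))))
 (.node [70,101,82] 4 6 (.lc 2 0 (.far [4112,4112,1,256] 0 (.lc 2 7 (.node [101,82] 6 5 (.far [4112,4112,4112,1,256] 4097 (.lc 2 2 (.far [4112,4112,4112,1,256] 4097 (.lc 2 2 (.lc 3 2 .stop)))))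
 (.lc 3 7 (.lc 3 0 (.lc 0 7 (.lc 3 8 (.lc 3 1 (.lc 3 1 (.far [4112,4112,1,256] 4097 (.lc 3 7 (.lc 3 0 (.lc 0 7 (.lc 3 8 (.node [101,82] 6 5 (.conf [5,82] (.lc 2 2 .stop))
 (.lc 3 7 (.lc 3 0 (.node [101,118,82] 7 6 (.node [82] 7 5 (.lc 1 2 (.lc 1 2 (.lc 3 0 (.lc 3 8 (.lc 2 2 (.lc 2 2 (.lc 2 2 (.lc 2 2 (.lc 2 2 (.lc 3 0 (.lc 2 2 (.lc 4 8 (.lc 3 2 .stop)))))))))))))
 (.lc 1 2 (.lc 1 2 (.lc 1 2 (.lc 1 2 (.lc 3 0 (.lc 3 8 (.lc 2 2 (.lc 2 2 (.lc 2 2 .stop))))))))))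
 (.lc 3 8 (.lc 3 1 (.lc 3 1 (.lc 3 1 (.lc 0 7 (.lc 4 8 (.node [101,118,82] 7 6 (.far [1,4112,4112,1,256] 4097 (.lc 1 2 (.lc 1 2 (.lc 3 8 (.lc 2 2 .stop)))))
 (.lc 4 8 (.lc 4 0 (.lc 0 8 (.lc 4 9 (.lc 4 1 (.lc 0 8 (.lc 4 1 (.lc 0 8 (.lc 4 1 (.lc 0 8 (.lc 4 1 (.lc 4 1 (.lc 5 1 (.lc 0 9 .stop))))))))))))))))))))))))))))))))))))))))
 (.node [69,80] 1 4 (.far [16,257,16,4096] 17 (.lc 1 5 (.lc 2 1 (.lc 3 6 (.lc 3 7 (.far [16,257,16,4096] 17 (.lc 2 5 (.lc 2 1 (.lc 3 6 (.lc 3 6 (.lc 3 7 (.lc 3 1 (.lc 4 7 (.lc 4 8 (.lc 4 7 (.lc 4 7 (.lc 4 7 (.lc 5 8 .stop))))))))))))))))))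
 (.lc 2 0 (.lc 3 5 (.lc 2 0 (.lc 3 5 (.lc 3 6 (.node [70,101,80] 4 6 (.node [101,80] 6 5 (.node [80,103] 1 6 (.far [1,4112,4096,16,1,256] 0 (.lc 1 5 .stop))
 (.lc 2 0 (.lc 3 1 (.conf [80,117] (.lc 2 0 (.lc 2 0 (.lc 3 0 (.lc 3 0 .stop))))))))
 (.lc 2 7 (.lc 0 7 (.lc 3 8 (.lc 3 1 (.lc 0 7 (.lc 3 8 (.node [101,118,80] 7 6 (.far [16,257,257,16,4096] 17 (.lc 1 0 (.lc 1 0 (.lc 3 8 (.lc 2 0 .stop)))))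
 (.lc 3 8 (.lc 3 1 (.lc 0 7 (.lc 0 8 (.lc 4 9 (.lc 0 8 (.lc 0 8 (.lc 0 8 (.lc 4 1 (.lc 0 9 .stop))))))))))))))))))
 (.lc 3 0 (.lc 4 6 (.lc 4 7 (.lc 4 6 (.lc 3 0 (.lc 4 6 (.lc 3 0 (.lc 4 6 (.lc 3 0 (.lc 5 7 (.lc 4 0 .stop))))))))))))))))))))))))))
 (.asm [] 0 (.lc 0 0 (.node [66,80,53,66,80] 0 4 (.lc 1 2 (.lc 2 2 .stop))
 (.node [66,84,48] 3 0 (.node [16,48,66,84] 5 4 (.node [66,86] 6 4 (.node [98] 0 5 (.far [257,0,0,0,1,257,1] 4096 (.lc 2 6 .stop))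
 (.lc 3 7 (.far [16,16,257,256,1,4096] 0 (.lc 3 7 (.lc 4 8 .stop)))))
 (.lc 2 2 (.conf [66,100] (.conf [66,100] (.lc 2 2 (.lc 2 2 (.node [66,87,118] 6 4 (.far [1,1,4112,4096,16,256] 0 (.lc 3 8 (.node [32,130] 8 2 .stop
 (.lc 3 8 (.lc 4 9 .stop)))))
 (.lc 3 2 (.conf [66,100] (.lc 3 2 (.lc 3 2 (.lc 3 2 (.lc 4 2 .stop)))))))))))))
 .stop)
 (.conf [49,66] (.node [66,84,101,54,66] 3 6 (.lc 2 0 (.node [101] 6 5 (.lc 2 0 (.lc 0 0 (.lc 2 7 (.lc 2 4 (.lc 1 5 (.lc 1 0 (.lc 2 4 (.lc 2 4 (.node [84] 5 4 (.lc 1 2 (.lc 1 2 (.lc 0 1 (.lc 1 0 (.lc 2 2 (.lc 2 2 (.lc 1 0 (.lc 1 0 (.lc 1 0 (.lc 2 2 (.lc 2 0 (.lc 3 2 (.lc 2 0 (.lc 2 0 (.lc 2 0 (.lc 3 0 .stop))))))))))))))))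
 (.lc 0 7 (.lc 3 7 (.lc 1 5 (.lc 3 0 (.lc 3 8 (.lc 2 4 (.lc 1 5 (.lc 2 4 (.lc 0 0 (.lc 2 4 (.lc 2 4 (.lc 0 7 (.lc 0 0 (.lc 0 7 (.lc 3 4 (.lc 2 5 (.lc 3 4 (.lc 1 7 (.lc 3 4 (.lc 3 4 (.lc 0 0 (.lc 0 8 (.lc 0 0 (.lc 0 8 (.lc 0 0 (.lc 0 8 (.lc 3 4 (.lc 0 8 (.lc 0 0 (.lc 0 9 .stop)))))))))))))))))))))))))))))))))))))))
 (.lc 2 7 (.lc 0 0 (.lc 3 7 (.lc 3 0 (.lc 2 5 (.lc 3 8 (.lc 0 0 (.lc 3 1 (.lc 0 0 (.lc 3 7 (.lc 3 0 (.node [101,118] 7 6 (.lc 1 5 (.lc 0 0 (.lc 1 5 (.node [84,112] 7 0 .stop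
 (.node [84,120] 5 4 (.lc 1 2 (.lc 1 2 (.lc 1 2 (.lc 3 0 (.lc 1 0 (.lc 1 0 (.lc 0 7 (.lc 2 2 (.lc 2 2 (.lc 2 2 (.lc 2 2 (.lc 2 2 (.lc 2 2 (.lc 2 2 (.lc 2 2 (.lc 1 0 (.lc 1 0 (.lc 1 0 (.lc 3 0 (.lc 1 0 (.lc 2 2 (.lc 2 2 (.lc 2 2 (.lc 2 0 (.lc 2 0 (.lc 2 0 (.lc 2 0 (.lc 3 2 (.lc 3 2 (.lc 3 2 (.lc 3 2 (.lc 4 9 (.lc 2 0 (.lc 2 0 (.lc 2 0 (.lc 2 0 (.lc 2 0 (.lc 3 0 (.lc 3 0 .stop)))))))))))))))))))))))))))))))))))))))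
 (.lc 2 5 (.lc 1 6 (.lc 2 5 (.lc 0 0 (.lc 2 5 (.lc 2 5 (.lc 1 6 (.lc 2 5 (.lc 2 5 (.lc 1 4 (.lc 0 0 (.lc 1 4 (.lc 3 0 (.lc 0 0 (.lc 3 8 (.lc 2 5 (.lc 1 6 (.lc 1 0 (.lc 2 5 (.lc 2 5 (.lc 2 4 (.lc 1 5 (.lc 2 4 (.lc 2 4 (.lc 3 5 (.lc 2 6 (.lc 3 5 (.lc 1 8 (.lc 3 5 (.lc 3 5 (.lc 4 8 (.lc 1 5 (.lc 4 0 (.lc 4 9 (.lc 2 4 (.lc 1 5 (.lc 1 0 (.lc 2 4 (.lc 2 4 (.lc 2 4 (.lc 1 5 (.lc 2 4 (.lc 0 0 (.lc 2 4 (.lc 3 4 (.lc 2 5 (.lc 3 4 (.lc 1 8 (.lc 3 4 (.lc 3 4 .stop)))))))))))))))))))))))))))))))))))))))))))))))))))))))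
 (.lc 3 8 (.lc 0 0 (.lc 3 7 (.lc 3 0 (.lc 2 5 (.lc 3 8 (.lc 0 0 (.lc 3 1 (.lc 0 0 (.lc 3 1 (.lc 4 8 (.lc 0 0 (.lc 4 8 (.lc 4 0 (.lc 3 5 (.lc 4 9 (.lc 0 0 (.lc 4 1 (.lc 0 0 (.lc 4 1 (.lc 0 0 (.lc 4 1 (.lc 0 0 (.lc 4 1 (.lc 0 0 (.lc 5 1 .stop))))))))))))))))))))))))))))))))))))))))
 (.node [53,66,80] 0 4 (.lc 1 0 .stop)
 (.conf [48,66,84] (.conf [54,66,84] (.lc 0 0 (.node [80,53] 5 0 (.node [81,53] 3 5 (.node [54,81] 3 6 (.far [4112,4112,0,4112,4112,256] 0 (.lc 2 5 (.far [4112,4112,0,4112,4112,256] 0 (.lc 2 5 (.lc 3 5 .stop)))))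
 (.conf [81,101] .stop))
 (.node [86,97,53] 3 5 (.node [54,97] 3 6 (.lc 1 1 .stop)
 (.conf [55,118] .stop))
 (.node [86,97,86,53] 3 5 (.lc 2 7 (.lc 3 7 (.lc 3 8 (.lc 3 7 (.lc 4 8 .stop)))))
 (.node [86,97,53] 3 5 (.conf [54,97] (.lc 1 1 .stop))
 (.node [87,118,53,97] 3 5 (.conf [55,118] (.lc 1 6 .stop))
 .stop)))))
 (.node [84,66] 0 5 (.node [84,66] 5 4 (.node [66,81,48] 5 1 .stop
 (.node [66,86,48] 2 5 (.node [100] 2 6 (.lc 1 2 .stop)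
 (.lc 1 4 .stop))
 (.conf [86,97] (.node [66,81,100,48] 5 1 .stop
 (.conf [87,118] (.conf [86,97] (.conf [66,100] (.conf [66,100] (.node [66,86,48] 1 4 .stop
 (.node [66,81,100,48] 5 1 .stop
 (.node [66,87,100,48] 6 4 (.node [98] 2 5 .stop
 (.lc 3 8 .stop))
 (.conf [87,118] (.conf [87,113] (.node [66,81,100,118,48] 5 1 .stop
 (.conf [88,135] .stop)))))))))))))))
 (.node [84,101,66,48] 5 4 (.node [66] 2 6 (.lc 1 2 .stop)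
 (.lc 2 2 (.lc 2 2 (.node [97,38,66] 1 4 .stop
 (.conf [103,116,38,66] (.lc 2 2 (.lc 2 2 (.lc 3 2 (.lc 3 2 (.lc 3 2 .stop))))))))))
 (.conf [101,38,84,66] (.node [84,101,66,48] 5 4 (.far [257,257,1,257,1] 4096 (.lc 2 2 (.lc 2 2 (.lc 0 1 (.lc 0 7 (.lc 2 2 (.lc 2 2 (.lc 3 2 (.lc 3 2 (.lc 3 2 .stop))))))))))
 (.node [84,101,118,66,39,48,66] 5 4 (.conf [66,100] (.lc 2 2 (.lc 2 2 (.lc 0 1 (.lc 0 8 (.lc 2 2 (.lc 2 2 (.lc 3 2 (.lc 3 2 (.lc 3 2 .stop))))))))))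
 .stop)))))
 (.far [4112,4112,256] 0 (.node [84,101,54] 3 6 (.node [48,101,84] 3 0 (.lc 0 0 .stop)
 (.far [4112,4112,4112,256] 0 (.node [55,101,84] 3 7 (.far [4112,4112,4112,4112,256] 0 (.lc 0 0 (.lc 2 6 (.lc 0 0 (.far [4112,4112,4112,4112,256] 0 (.lc 0 0 (.lc 2 6 (.lc 0 0 (.lc 3 6 .stop)))))))))
 (.lc 0 0 (.conf [55,101] (.conf [48,101] (.node [101,118,84,49,66] 6 5 (.far [4112,4096,16,4112,256] 0 (.lc 2 4 (.lc 1 0 (.lc 2 4 (.far [4112,4096,16,4112,256] 0 (.far [4112,4096,16,4112,256] 0 (.lc 2 4 (.lc 2 4 (.lc 3 4 (.lc 2 5 (.lc 3 4 (.lc 3 4 .stop))))))))))))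
 (.conf [56,101] (.lc 0 0 (.conf [49,101,118] (.lc 0 0 (.conf [55,112] (.node [48,101,118,101,84,66] 3 0 (.lc 0 0 .stop)
 (.far [4112,4112,4112,256] 0 (.conf [56,135] (.lc 0 0 (.conf [55,101] (.conf [48,101] (.node [101,118,84,49,66] 7 6 (.node [84] 5 4 (.lc 2 0 (.lc 2 1 (.lc 0 0 (.lc 2 8 (.lc 2 2 (.lc 2 2 (.lc 2 2 (.lc 2 2 (.lc 2 2 (.lc 0 0 (.lc 1 0 (.lc 0 8 (.lc 3 1 (.lc 3 8 (.lc 1 0 (.lc 1 0 (.lc 3 0 (.lc 3 9 (.lc 2 2 (.lc 2 2 (.lc 2 2 (.lc 2 2 (.lc 2 2 (.lc 2 2 (.lc 2 2 (.node [20] 1 4 (.lc 1 2 (.lc 1 2 (.lc 2 2 (.lc 2 2 (.lc 2 2 (.lc 2 2 (.lc 3 2 .stop)))))))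
 (.lc 3 2 (.lc 3 2 (.lc 3 2 (.lc 3 2 (.lc 3 2 (.lc 3 2 (.far [4112,0,1,256] 4097 (.lc 1 8 (.lc 3 2 (.lc 1 8 (.lc 3 2 (.lc 3 2 (.lc 3 2 (.lc 3 2 (.lc 3 2 (.lc 4 2 (.lc 1 9 .stop)))))))))))))))))))))))))))))))))))))))))))
 (.lc 1 4 (.lc 0 0 (.lc 1 4 (.lc 1 4 (.lc 1 4 (.lc 3 0 (.lc 3 8 (.lc 2 4 (.lc 1 5 (.lc 2 4 (.lc 2 4 .stop))))))))))))
 (.conf [56,101] (.lc 0 0 (.conf [49,101] (.lc 0 0 (.node [49,101,84] 6 5 (.node [84,96] 6 0 (.far [4112,4112,1,272,4112,256] 0 (.lc 0 8 .stop))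
 (.node [84,98] 6 2 (.lc 0 0 .stop)
 (.node [84,104] 7 6 (.far [1,4112,1,272,4112,256] 0 (.lc 3 0 (.lc 3 2 (.lc 3 9 (.lc 1 5 (.lc 1 5 (.lc 3 0 (.lc 3 9 (.lc 4 9 (.lc 4 0 (.lc 4 0 (.lc 4 10 .stop))))))))))))
 (.lc 2 4 (.lc 2 4 (.lc 2 4 (.lc 2 4 (.lc 2 4 (.lc 3 3 (.lc 3 3 (.conf [104,128] (.node [84,96] 2 5 .stop
 (.conf [84,133] (.conf [84,133] (.lc 2 4 (.lc 2 4 (.lc 2 4 (.lc 2 4 (.lc 2 4 (.lc 2 4 (.lc 2 4 (.lc 2 4 (.lc 3 3 (.lc 3 3 (.lc 3 3 (.lc 3 4 (.lc 3 4 (.lc 3 4 (.lc 3 4 (.lc 3 4 (.lc 3 4 (.lc 4 3 (.lc 4 3 (.lc 4 3 (.lc 4 3 (.lc 3 4 (.lc 3 4 (.lc 3 4 (.lc 3 4 (.lc 3 4 (.lc 3 4 (.lc 3 4 (.lc 3 4 (.lc 3 4 (.lc 3 4 (.lc 3 4 (.lc 3 4 (.lc 3 4 (.lc 3 4 (.lc 4 4 (.lc 4 4 (.lc 4 4 (.lc 4 4 (.lc 4 4 (.lc 4 4 .stop)))))))))))))))))))))))))))))))))))))))))))))))))))))))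
 (.conf [56,101] (.lc 0 0 (.conf [56,101] (.conf [48,101] (.node [101,118,135,84,49,66] 7 6 (.far [1,4112,4112,4112,256] 0 (.lc 1 4 (.lc 0 0 (.lc 1 4 (.lc 1 4 (.lc 1 4 (.lc 3 0 (.lc 3 9 (.lc 2 4 (.lc 1 5 (.lc 2 4 (.lc 2 4 .stop))))))))))))
 (.conf [57,101] (.lc 0 0 (.conf [49,101,118] (.lc 0 0 (.conf [49,101] (.lc 0 0 (.conf [49,101] (.lc 0 0 (.conf [49,101] (.lc 0 0 (.conf [49,101] .stop))))))))))))))))))))))))))))))))))))))))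
 (.conf [16,49] (.node [66,53] 0 4 .stop
 (.node [66,84,48] 3 0 (.far [257,257,257,4096] 0 (.node [54] 0 5 (.far [257,0,1,257,1] 4096 (.far [4112,1,256] 0 (.lc 2 4 (.lc 2 4 (.conf [117,39,84,66] (.far [4112,1,256] 0 (.lc 2 4 (.lc 2 4 (.lc 3 4 (.lc 3 4 .stop))))))))))
 (.node [55,118,55,96] 3 7 (.node [118] 0 5 (.far [257,0,0,1,257,1] 4096 (.node [84] 7 6 (.node [101,114,84,66] 2 6 (.lc 0 2 .stop)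
 (.node [101,120,84,66] 6 5 (.node [84] 5 4 (.node [66] 7 8 (.node [132] 8 4 .stop
 (.far [4112,0,4112,4096,256,1,256] 0 .stop))
 (.lc 2 2 (.lc 0 9 (.lc 2 2 (.lc 3 2 .stop)))))
 (.lc 2 0 (.lc 0 9 (.lc 2 2 .stop))))
 (.conf [84,96] (.conf [101,113] (.conf [101,134] (.conf [66,80] (.conf [84,96] (.conf [101,113] (.conf [96,114] (.conf [101,113] (.conf [84,96] (.conf [66,80] .stop))))))))))))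
 (.lc 2 4 (.lc 2 4 (.conf [133,40,84,66] (.lc 0 8 (.lc 2 4 (.lc 2 4 (.lc 3 4 (.lc 3 4 .stop))))))))))
 (.lc 2 6 (.node [118,135,118,96] 6 0 (.lc 0 8 (.far [1,4112,4096,16,4112,256] 0 (.lc 1 0 (.lc 1 4 (.lc 1 4 (.lc 1 0 (.lc 1 4 (.lc 3 8 (.lc 1 8 (.lc 3 9 (.lc 2 0 (.lc 2 4 .stop))))))))))))
 (.lc 2 6 (.lc 3 6 .stop)))))
 .stop)))
 (.conf [49,66] (.asm [66,84,54] 1 (.node [53,66,80] 0 4 (.node [66] 3 5 (.node [80] 5 0 (.lc 2 0 (.far [1,0,4112,257] 0 (.lc 3 7 (.node [100,118] 6 4 (.node [98] 7 6 (.node [114] 7 2 .stop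
 (.lc 3 8 .stop))
 (.lc 3 0 (.conf [104,130] (.lc 3 0 (.lc 4 0 .stop)))))
 (.lc 3 7 (.lc 4 8 .stop))))))
 (.node [80,101] 6 4 (.node [98] 0 6 (.far [256,256,0,0,0,1,1] 4096 .stop)
 (.node [32,103,114] 0 6 .stop
 .stop))
 (.node [80,117] 5 0 (.far [1,0,4112,257] 0 (.lc 3 0 (.conf [88,134] (.lc 3 0 (.lc 4 0 .stop)))))
 (.conf [80,101] (.conf [80,117] (.node [100,101] 6 4 .stop
 (.node [80,117] 5 0 (.far [1,0,4112,257] 0 (.lc 3 0 (.conf [88,134] (.lc 3 0 (.lc 4 0 .stop)))))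
 (.node [100,101,118] 6 4 (.lc 0 2 .stop)
 (.node [80,100,103] 6 4 .stop
 (.node [80,117,135] 5 0 (.far [1,0,4112,257] 0 (.lc 3 0 (.conf [89,150] (.lc 3 0 (.lc 4 0 .stop)))))
 .stop))))))))))
 (.conf [66,100] .stop))
 (.node [48,66,84] 3 0 (.lc 0 0 .stop)
 (.asm [54,66,84] 2 (.node [53,66,80] 3 5 (.node [80] 5 0 (.node [86] 0 4 (.lc 1 0 (.far [257,16,0,4096] 0 (.lc 2 2 (.node [103,116] 5 6 (.node [103] 6 7 (.node [116] 1 7 .stop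
 (.lc 2 4 .stop))
 (.lc 2 0 (.conf [103,134] (.lc 2 0 (.lc 3 0 .stop)))))
 (.lc 2 2 (.lc 3 2 .stop))))))
 (.conf [87,118] .stop))
 (.lc 2 0 (.conf [80,101] (.lc 2 0 (.lc 3 0 .stop)))))
 (.node [48,66] 3 0 (.lc 0 0 .stop)
 (.node [54,66,101] 3 6 (.node [101] 6 5 (.node [84,96] 6 0 (.node [] 5 4 (.lc 2 0 (.lc 1 2 (.node [] 4 2 (.far [1,0,0,0,0,0,1,1] 4096 (.far [4112,1,0,0,0,1,256] 0 (.node [72] 7 4 (.far [1,4112,1,0,0,0,1,256] 0 (.conf [121,130,66] (.node [130,152,66] 9 8 (.node [130,154] 8 2 (.node [162] 10 2 (.far [2,4097,1,1,4096,1,4112,4112,8208,4096,0,514] 8192 (.node [165,87] 10 5 .stop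
 (.far [2,4097,1,1,4096,1,272,4112,16,4096] 512 (.lc 1 0 .stop))))
 (.lc 0 0 (.lc 0 11 .stop)))
 (.conf [130,154] (.conf [130,155] (.conf [130,168] (.conf [130,144] (.far [257,1,4096,1,16,4112,0,4096] 256 (.node [130,154,121,32] 7 9 (.node [122] 10 2 (.far [1,1,1,257,0,1,16,4112,0,4096] 256 (.lc 3 5 (.lc 3 11 .stop)))
 (.lc 3 11 (.lc 1 2 (.lc 3 11 (.lc 4 12 .stop)))))
 (.conf [130,155] (.conf [130,156] (.conf [130,162,32] (.far [1,1,4112,1,256,0,16,1,256] 256 (.far [257,1,4096,1,0,16,0,4096] 0 .stop))))))))))))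
 (.far [1,4112,1,0,0,0,1,256] 0 (.conf [122,130,66] .stop)))))
 (.far [4096,1,16,4112,0,4096] 256 (.node [72,128,72] 4 8 (.far [4112,4096,1,16,4112,0,4096] 256 (.lc 0 9 (.lc 0 9 (.lc 2 0 (.lc 0 10 .stop)))))
 (.node [66,120,130] 8 2 (.far [1,4096,1,16,4112,0,4096] 256 (.lc 3 5 (.lc 3 9 .stop)))
 (.node [32,73,152,73,130] 4 9 (.node [152,121] 8 2 (.far [1,4112,4096,1,16,4112,0,4096] 256 (.lc 3 5 (.lc 3 10 (.lc 1 0 .stop))))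
 (.lc 0 10 (.lc 0 10 (.lc 2 8 (.lc 0 11 .stop)))))
 (.lc 3 2 (.far [4112,1,0,0,0,1,256] 0 (.node [73,152,73,130] 4 9 (.far [4112,4112,1,0,0,0,1,256] 0 (.lc 0 10 (.lc 0 10 (.lc 2 8 (.lc 0 11 .stop)))))
 (.node [66,120,130,120] 8 2 (.far [1,4112,1,0,0,4112,1,256,257] 4096 (.lc 0 7 (.lc 3 9 .stop)))
 (.node [32,73,130,152] 4 9 (.node [] 8 2 (.far [1,4112,4112,1,0,0,4112,1,256,257] 4096 (.lc 3 5 (.lc 3 10 (.lc 1 0 .stop))))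
 (.lc 2 8 (.node [122,169] 8 2 (.far [1,4112,4112,1,256,0,16,1,256] 256 (.lc 3 5 (.lc 3 11 .stop)))
 (.lc 2 8 (.lc 3 8 .stop)))))
 (.lc 3 2 (.lc 3 2 (.lc 3 2 (.lc 3 2 (.node [66,121,152,130] 8 2 (.far [1,4112,1,256,0,16,1,256] 256 (.lc 3 5 (.lc 3 10 .stop)))
 (.node [32,74,130,152,169,74,152,130] 4 10 (.node [169,122] 8 2 (.far [1,4112,4112,1,256,0,16,1,256] 256 (.lc 3 5 (.lc 3 11 (.lc 1 0 .stop))))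
 (.lc 0 11 (.lc 0 11 (.lc 2 9 (.lc 0 12 .stop)))))
 (.lc 4 2 (.lc 4 2 (.lc 4 2 (.lc 4 2 (.lc 4 2 (.lc 5 2 .stop))))))))))))))))))))))))
 (.lc 2 2 (.lc 2 2 (.lc 3 8 (.lc 2 2 (.lc 2 2 (.node [116,135] 5 8 (.node [80,135,116] 7 4 (.node [114] 8 7 (.node [114,137] 7 2 (.node [146] 8 9 .stop
 (.lc 0 10 .stop))
 (.lc 2 2 (.conf [114,151] (.lc 2 2 .stop))))
 (.node [66,121] 9 4 (.node [146] 8 7 (.node [121,138] 7 9 (.node [146] 8 10 .stop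
 (.lc 2 2 (.lc 0 11 (.lc 2 2 (.lc 3 2 .stop)))))
 (.lc 2 4 (.conf [121,167] (.lc 2 4 (.lc 3 4 .stop)))))
 (.lc 3 10 (.far [16,16,257,256,0,16,0,4112,4096] 0 (.lc 3 10 (.lc 4 11 .stop)))))
 (.lc 2 2 (.lc 3 9 (.lc 3 10 (.conf [121,146] (.conf [66,148] (.lc 2 2 (.lc 2 2 (.lc 3 9 (.lc 3 10 (.lc 3 2 (.lc 4 10 (.lc 4 11 (.lc 3 2 (.lc 3 2 (.lc 3 2 (.lc 4 2 .stop))))))))))))))))))
 (.node [82,135,116] 5 2 (.far [4096,0,0,4112,4096,4096,0,0,257] 4096 .stop)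
 (.node [89,135,116] 5 9 (.node [152] 7 4 (.node [66,114,135] 8 7 (.node [114,138] 9 8 (.node [154] 10 7 (.node [162] 10 2 (.far [4096,0,0,0,0,4096,0,0,16,4096] 256 .stop)
 (.lc 3 11 .stop))
 (.lc 3 11 (.lc 1 7 (.lc 3 11 (.lc 4 12 .stop)))))
 (.lc 2 2 (.lc 3 5 (.conf [114,167] (.lc 2 2 (.lc 3 5 (.lc 4 5 (.lc 3 2 .stop))))))))
 (.node [66,121] 9 4 .stop
 (.node [66,122] 10 4 (.node [162] 8 7 (.node [122,139] 9 8 (.node [155] 7 10 (.node [162] 11 10 (.lc 1 2 (.lc 2 7 (.node [162,188] 9 11 (.node [156] 12 10 (.node [] 9 12 .stop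
 (.far [1,0,1,1,0,0,4112,256] 0 .stop))
 (.far [16,257,4096,4096,4096] 0 .stop))
 (.conf [162,188,194] (.conf [183,202,156] (.node [162,202,220,162,189] 9 11 (.far [1,4112,256,256,256] 0 (.lc 1 12 .stop))
 (.node [162,183,32] 9 2 (.far [257,1,0,257,0,0,0,16,4096] 0 .stop)
 (.far [257,4096,1,4096,0,0,16,4096] 0 .stop))))))))
 (.lc 2 2 (.lc 0 12 (.lc 2 2 (.lc 3 2 .stop)))))
 (.lc 3 10 (.lc 3 12 (.lc 1 7 (.lc 3 12 (.lc 4 13 .stop))))))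
 (.conf [116,139] (.conf [122,133] (.conf [122,183] (.lc 1 2 (.node [116,133,154] 9 10 (.lc 1 2 (.node [155,162] 10 2 (.far [4112,1,257,4112,256] 0 (.far [4112,1,257,4112,256] 0 .stop))
 (.lc 2 2 (.lc 3 0 (.node [156,186,203,156,162] 11 10 (.node [178] 9 12 .stop
 (.lc 3 13 .stop))
 (.lc 3 0 (.lc 3 0 .stop)))))))
 (.lc 0 11 (.lc 2 2 (.lc 0 12 (.lc 0 11 (.lc 0 11 (.lc 2 2 (.lc 0 12 .stop)))))))))))))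
 (.lc 3 9 (.lc 3 11 (.far [16,16,257,257,256,0,16,0,4112,4096] 0 (.lc 3 11 (.lc 4 12 .stop))))))
 (.lc 2 2 (.lc 3 9 (.lc 3 10 (.lc 3 9 (.lc 3 11 (.conf [32,122,162] (.conf [66,164] (.lc 2 2 (.lc 2 2 (.lc 2 2 (.lc 2 2 (.lc 3 10 (.lc 3 10 (.lc 3 11 (.lc 3 2 (.lc 4 11 (.lc 4 12 (.lc 3 2 (.lc 3 2 (.lc 3 2 (.lc 3 2 (.lc 3 2 (.lc 3 2 (.lc 4 2 .stop)))))))))))))))))))))))))))
 (.lc 2 8 (.node [152] 4 2 (.node [73] 4 9 (.far [4112,4096,16,4112,4096] 17 (.lc 0 10 .stop))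
 (.lc 3 2 (.lc 0 9 (.conf [74,169] (.lc 3 2 (.lc 4 2 .stop))))))
 (.lc 2 8 (.lc 2 8 (.lc 3 8 .stop))))))
 (.node [135,116] 8 7 (.conf [39,116] (.lc 2 4 .stop))
 (.conf [89,135] (.conf [90,135] (.lc 3 0 (.lc 3 0 (.node [80,135,116] 2 8 .stop
 (.conf [90,169] (.node [135,116] 2 8 .stop
 (.node [135,152,116] 9 8 (.far [16,257,257,0,16,0,4096] 0 (.lc 1 4 (.lc 1 4 (.lc 1 4 (.lc 3 10 (.lc 2 4 .stop))))))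
 (.conf [82,135] (.conf [90,135] (.lc 3 0 (.lc 3 0 (.lc 3 0 (.node [135,152,116] 9 8 (.far [16,257,257,0,16,4112,4096,0,257] 4096 (.lc 1 4 (.lc 1 4 (.lc 3 10 (.lc 2 4 .stop)))))
 (.conf [91,135] (.lc 4 0 (.lc 4 0 (.lc 4 0 (.lc 4 0 (.lc 4 0 (.lc 5 0 .stop)))))))))))))))))))))))))
 (.lc 2 2 (.lc 2 2 (.lc 2 2 (.lc 2 2 (.lc 3 8 (.lc 3 2 (.lc 3 2 (.lc 4 9 (.lc 3 2 (.lc 3 2 (.lc 3 2 (.lc 4 2 .stop)))))))))))))))))))))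
 .stop)
 (.node [84,98] 6 2 .stop
 (.node [84,103] 6 7 (.node [117] 5 4 (.node [] 0 4 (.far [1,1,0,0,0,1,256] 0 (.node [66,116] 0 7 (.far [4096,0,257,0,16,0,4096] 0 .stop)
 (.node [66] 4 2 (.far [4112,1,1,0,0,0,1,256] 0 (.node [114,135,64,114] 7 2 .stop
 (.node [32,137,146,64] 2 0 .stop
 (.far [4112,1,1,0,0,0,1,256] 0 (.node [32,146,137] 2 0 .stop
 (.node [32,138,146,169,64,138,146] 2 0 .stop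
 .stop))))))
 (.node [66,132,152,66] 8 4 (.node [130] 0 9 (.far [257,16,256,0,0,0,0,0,1,1] 4096 (.far [4112,0,4112,256] 0 (.lc 0 0 (.lc 0 0 (.lc 1 9 (.lc 2 8 (.lc 2 8 (.lc 0 0 .stop))))))))
 (.lc 3 7 (.lc 3 10 (.conf [32,138,162] (.lc 3 10 (.lc 4 11 .stop))))))
 .stop))))
 (.lc 1 2 (.lc 2 4 (.node [] 7 5 (.node [88,112] 0 5 (.far [16,16,257,0,16,0,4096] 0 (.far [256,0,257,0,0,4112,1,0,257] 4096 (.far [16,16,257,0,16,0,4096] 0 (.far [16,16,257,0,16,0,4096] 0 (.far [16,16,257,0,16,4112,4096,0,257] 4096 (.far [16,16,257,0,16,4112,4096,0,257] 4096 .stop))))))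
 (.lc 2 1 (.node [88,114] 2 5 .stop
 (.far [16,257,0,16,0,4096] 0 (.node [88,121] 5 8 (.far [257,16,257,0,16,0,4096] 0 (.conf [132,144,84] (.conf [132,146,84] (.conf [132,154,84] (.node [144,84] 9 0 (.node [145] 9 1 (.lc 0 1 .stop)
 (.lc 0 1 (.lc 0 1 .stop)))
 (.node [154,168,84] 7 9 (.node [112,154,168] 0 9 (.node [168] 7 0 (.node [] 10 8 (.node [132,162] 10 2 (.far [4096,0,4112,257,4096,0,0,0,4096,0,4096,0,0,257] 4096 .stop)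
 (.lc 1 4 (.node [132,171] 0 10 (.lc 1 8 .stop)
 (.conf [171,178] (.conf [172,203] (.lc 3 0 (.lc 1 2 (.conf [132,184] (.node [132,162,184] 10 2 (.far [1,257,16,0,4112,4096,4096] 256 .stop)
 (.node [132,172,184] 8 4 (.node [180] 11 4 (.far [1,1,0,0,0,0,0,0,1,0,0,0,1,256] 0 (.lc 3 4 (.conf [189,210] (.lc 3 4 (.lc 4 4 .stop)))))
 (.lc 2 2 (.lc 2 2 (.lc 0 13 (.lc 2 2 (.lc 3 2 .stop))))))
 (.lc 3 0 (.conf [173,220] (.lc 4 0 .stop)))))))))))))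
 .stop)
 (.lc 1 8 (.lc 1 8 (.lc 1 8 (.far [1,1,4112,258,4112,4112,4097,1,256] 17 (.lc 2 8 .stop))))))
 (.lc 2 1 (.node [114,154,168] 2 9 .stop
 (.node [123,154,168] 9 10 (.node [168] 7 11 (.node [186] 1 11 (.node [186] 11 10 (.node [168] 10 8 (.node [132] 0 8 (.far [257,4096,4096,1,4096,0,0,0,0,0,4096,0,4096,0,0,257] 4096 (.lc 2 0 (.lc 1 2 (.node [132,200,132] 8 4 (.far [257,16,16,0,0,0,0,0,16,0,4096] 0 (.lc 0 13 .stop))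
 (.lc 1 2 .stop)))))
 (.far [1,0,0,4112,0,4112,4096,4096,0,4096,0,4096,0,0,257] 4096 (.far [4112,4096,1,1,0,257,256,256] 17 (.far [257,256,16,16,0,4112,4096,4096] 0 (.far [257,256,16,16,0,4112,4096,4096] 0 (.node [132,200] 8 4 (.far [257,272,16,0,0,16,0,16,0,4096] 17 (.lc 0 13 .stop))
 .stop))))))
 (.lc 2 8 (.far [4112,1,1,256,256] 17 (.conf [168,202] (.lc 2 8 (.lc 3 8 (.lc 3 8 .stop)))))))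
 (.lc 2 1 (.node [186,203,186] 11 10 (.far [257,16,16,4096,4096] 0 (.lc 2 8 (.lc 0 13 (.lc 2 8 (.lc 3 8 .stop)))))
 (.lc 2 8 .stop))))
 (.node [186,113] 11 10 (.node [168] 10 8 (.node [132] 0 8 (.far [257,4096,4096,4096,0,0,0,0,0,4096,0,4096,0,0,257] 4096 (.lc 2 0 (.lc 1 2 (.node [132,200,132] 8 4 (.far [257,16,16,0,0,0,0,16,0,4096] 0 (.lc 0 13 .stop))
 (.lc 1 2 .stop)))))
 (.far [1,4112,4096,256,16,4096,4096,0,4096,0,4096,0,0,257] 4096 (.far [4112,1,0,4096,1,256,256] 17 (.far [257,16,0,256,16,4096,4096] 0 (.far [257,16,0,256,16,4096,4096] 0 (.node [132,200] 8 4 (.far [257,272,16,0,16,0,16,0,4096] 17 (.lc 0 13 .stop))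
 .stop))))))
 (.lc 2 8 (.far [4112,4096,256,16,0,4112,0,1,256] 17 (.conf [168,202] (.lc 2 8 (.lc 3 8 (.lc 3 8 .stop)))))))
 (.far [4112,0,4112,0,4112,0,1,256] 4097 (.far [257,0,257,0,257,0,16,4096] 0 (.far [257,0,257,0,257,0,16,4096] 0 (.node [186,203,113] 11 10 (.far [257,256,4096,1,0,257,0,16,4096] 0 (.lc 2 8 (.lc 0 13 (.lc 2 8 (.lc 3 8 .stop)))))
 .stop))))))
 (.lc 2 8 (.lc 2 8 (.lc 2 8 (.lc 0 0 (.lc 0 12 (.lc 2 8 (.lc 2 8 (.lc 3 8 (.lc 3 8 (.lc 3 8 (.lc 3 8 .stop))))))))))))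
 (.conf [149,168] (.conf [149,168] (.lc 3 1 (.lc 3 1 (.lc 3 1 (.node [123,154,176,168,123] 0 9 (.lc 1 8 .stop)
 (.node [112,154,168] 2 9 .stop
 (.conf [154,185] (.conf [154,185] (.node [149,168,132,112] 7 0 (.far [257,257,0,257,0,16,4096] 0 .stop)
 (.lc 3 1 (.node [149,168,132,114] 7 2 .stop
 (.node [149,168,132,123] 10 8 (.node [132] 7 11 (.far [257,0,257,0,257,0,16,4096] 0 (.lc 2 8 (.node [184] 11 8 (.lc 2 0 (.node [132,178] 2 8 (.far [16,16,0,16,0,16,0,4096] 0 .stop)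
 (.lc 1 4 (.node [132,188] 8 4 (.far [257,16,0,16,0,16,0,4096] 0 (.lc 2 2 (.conf [66,132,194] (.node [205,212,66] 11 12 (.node [205,212] 12 13 (.lc 2 4 .stop)
 (.far [4112,0,4112,4096,256,16,0,4112,0,1,256] 17 (.far [257,257,256,16,4112,4096,16,0,4096] 4097 (.far [256,257,16,256,256,16,0,4112,1,256,16,16,4096] 0 .stop))))
 (.lc 2 2 (.lc 3 2 .stop))))))
 (.lc 2 4 (.lc 2 4 (.lc 3 0 (.lc 3 0 (.lc 3 0 (.lc 1 2 (.node [132,200,220,132,189] 8 4 (.far [257,16,0,16,0,16,0,4096] 0 (.lc 2 2 (.lc 2 2 (.lc 0 14 (.lc 2 2 (.lc 3 2 .stop))))))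
 (.lc 1 2 (.lc 2 4 (.lc 3 0 (.lc 2 2 (.lc 2 2 (.lc 2 2 (.lc 4 0 (.lc 3 4 (.lc 2 2 (.lc 2 2 .stop)))))))))))))))))))))
 (.lc 2 8 (.lc 2 8 (.lc 3 8 .stop))))))
 (.lc 2 4 (.lc 2 4 (.lc 2 4 (.lc 0 0 (.lc 0 12 (.lc 2 4 (.lc 2 4 (.lc 3 4 (.lc 3 4 (.lc 3 4 (.lc 3 4 .stop))))))))))))
 (.lc 3 1 (.lc 3 1 (.lc 4 1 (.conf [149,176,123] (.node [149,168,132,112] 2 10 .stop
 (.node [149,168,186,132,112] 7 0 (.far [257,256,257,16,257,256,16,16,4096] 0 .stop)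
 (.conf [149,203,124] (.lc 4 1 (.lc 4 1 (.lc 4 1 (.lc 4 1 (.lc 4 1 (.lc 5 1 .stop))))))))))))))))))))))))))))))
 (.far [257,16,257,0,16,0,4096] 0 (.far [257,16,257,0,16,0,4096] 0 (.conf [132,154,84] (.conf [132,144,84] (.conf [132,144,84] (.conf [132,155,84] .stop))))))))))))
 (.lc 2 4 (.lc 2 4 (.lc 3 9 (.lc 3 0 (.lc 3 0 (.lc 3 2 (.lc 3 9 (.lc 3 0 (.lc 3 2 (.lc 3 10 (.lc 3 1 (.node [88,121,144] 0 5 (.far [16,16,257,0,16,0,4096] 0 .stop)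
 (.node [88,112] 2 5 .stop
 (.far [16,257,0,16,0,4096] 0 (.far [16,257,0,16,0,4096] 0 (.node [88,112,149,88] 7 0 (.lc 2 0 .stop)
 (.node [88,149,169,88] 9 5 (.far [16,16,257,0,16,0,4096] 0 (.lc 1 4 (.lc 1 4 (.lc 1 4 (.lc 1 4 (.lc 1 4 (.lc 3 0 (.lc 3 11 (.lc 2 4 (.lc 2 4 (.lc 2 4 (.lc 2 4 .stop))))))))))))
 (.lc 2 4 (.lc 2 4 (.lc 2 4 (.lc 2 4 (.lc 2 4 (.lc 2 4 (.lc 2 4 (.lc 3 9 (.lc 3 0 (.lc 3 9 (.lc 3 0 (.lc 3 9 (.lc 3 0 (.lc 3 10 (.lc 3 4 (.lc 3 4 (.lc 3 4 (.lc 3 4 (.lc 3 4 (.lc 4 10 (.lc 4 9 (.lc 4 9 (.lc 4 0 (.lc 4 0 (.lc 4 10 (.lc 4 10 (.lc 4 0 (.lc 4 0 (.lc 4 11 (.lc 3 4 (.lc 3 4 (.lc 3 4 (.lc 3 4 (.lc 3 4 (.lc 3 4 (.lc 3 4 (.lc 3 4 (.lc 3 4 (.lc 3 4 (.lc 3 4 (.lc 3 4 (.lc 3 4 (.lc 3 4 (.lc 4 4 (.lc 4 4 (.lc 4 4 (.lc 4 4 (.lc 4 4 (.lc 4 4 .stop)))))))))))))))))))))))))))))))))))))))))))))))))))))))))))))))))))))))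
 (.lc 2 2 (.lc 2 2 (.lc 2 2 (.lc 2 2 (.lc 2 2 (.lc 3 1 (.lc 3 8 (.lc 2 2 (.lc 2 2 (.lc 3 0 (.lc 3 9 (.lc 3 4 (.node [128] 8 0 (.node [129] 8 1 (.node [135] 5 8 (.lc 0 1 .stop)
 (.conf [137,151] (.lc 0 4 .stop)))
 (.node [135,117] 8 7 (.lc 0 4 .stop)
 (.conf [117,135] (.conf [117,135] (.node [137,145,23] 5 8 (.conf [89,145] (.lc 3 4 (.lc 3 4 (.lc 1 1 (.lc 3 4 (.lc 4 4 .stop))))))
 (.conf [117,137,151] .stop))))))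
 (.lc 2 2 (.lc 2 2 (.lc 2 2 (.node [132] 0 8 (.node [132] 8 4 (.node [66,135] 7 4 .stop
 (.node [66,137] 4 2 (.far [4112,1,257,1,0,0,4112,1,256,257] 4096 (.lc 0 10 .stop))
 (.conf [66,148] .stop)))
 (.node [132,120] 7 8 .stop
 (.node [132,152] 8 4 (.node [66,148] 4 2 (.lc 0 2 .stop)
 (.conf [66,164] .stop))
 (.node [132,152,132] 4 2 (.lc 2 9 (.lc 3 10 .stop))
 (.node [132,152] 8 4 (.conf [66,148] (.lc 0 10 .stop))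
 (.node [132,152,169] 8 4 (.conf [66,148] (.lc 0 11 .stop))
 .stop))))))
 (.lc 3 4 (.node [132,152] 7 5 (.node [89,112,152,132] 0 5 (.node [152] 0 9 (.far [257,257,1,0,4112,4096,4096,0,0,257] 4096 (.node [152,132] 7 9 .stop
 (.conf [132,144] (.conf [152,169] (.far [257,257,1,0,4112,4096,4096,0,0,257] 4096 (.far [257,257,4096] 0 (.far [256,16,16,257,0,16,4112,4096,0,257] 4096 .stop)))))))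
 (.lc 1 8 (.lc 1 8 (.lc 1 8 (.node [152] 4 2 .stop
 (.lc 2 8 .stop))))))
 (.lc 2 1 (.node [89,114,152,132] 2 5 .stop
 (.node [84,152,132] 7 9 (.node [112,152] 0 9 (.node [132] 7 0 (.node [] 8 4 (.node [130] 8 2 (.far [4096,0,4112,257,4096,0,0,4096,0,4096,0,0,257] 4096 .stop)
 (.node [66,138] 0 8 (.lc 1 4 .stop)
 (.lc 2 2 (.lc 3 0 (.conf [138,162] (.conf [66,164] (.lc 2 2 (.lc 2 2 (.lc 3 2 .stop)))))))))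
 .stop)
 (.lc 1 4 (.lc 1 4 (.lc 1 4 (.far [1,1,258,4112,4112,4097,1,256] 17 (.lc 2 4 .stop))))))
 (.lc 2 1 (.node [114,152] 2 9 .stop
 (.node [122,152] 9 8 (.node [132] 7 10 (.node [168] 1 10 (.node [168] 10 8 (.node [132] 8 4 (.node [66] 0 4 (.far [257,4096,4096,1,4096,0,0,0,0,4096,0,4096,0,0,257] 4096 .stop)
 (.lc 2 2 (.far [4112,4096,1,1,0,257,256,256] 17 (.lc 2 2 .stop))))
 (.lc 2 4 (.far [4112,1,1,256,256] 17 (.conf [132,184] (.lc 2 2 .stop)))))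
 (.lc 2 1 (.node [168,186,168] 10 8 (.far [257,16,16,4096,4096] 0 (.lc 2 4 (.lc 0 12 (.lc 2 2 .stop))))
 .stop)))
 (.node [168,113] 10 8 (.node [132] 8 4 (.node [66] 0 4 (.far [257,4096,4096,4096,0,0,0,0,4096,0,4096,0,0,257] 4096 .stop)
 (.lc 2 2 (.far [4112,1,0,4096,1,256,256] 17 (.lc 2 2 .stop))))
 (.lc 2 4 (.far [4112,4096,256,16,4112,0,1,256] 17 (.conf [132,184] (.lc 2 2 .stop)))))
 (.far [4112,0,4112,4112,0,1,256] 4097 (.far [257,0,257,257,0,16,4096] 0 (.far [257,0,257,257,0,16,4096] 0 (.node [168,186,113] 10 8 (.far [257,256,4096,1,257,0,16,4096] 0 (.lc 2 4 (.lc 0 12 (.lc 2 2 .stop))))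
 .stop))))))
 (.lc 2 4 (.lc 2 4 (.lc 2 4 (.lc 0 0 (.lc 0 11 (.lc 2 4 (.lc 2 4 (.lc 3 4 (.lc 3 4 (.lc 3 4 (.lc 3 4 .stop))))))))))))
 (.lc 2 5 (.lc 2 5 (.lc 3 1 (.lc 3 1 (.lc 3 1 (.node [122,152,160,122] 0 9 (.lc 1 4 .stop)
 (.node [112,152] 2 9 .stop
 (.conf [152,169] (.conf [152,169] (.lc 1 4 (.lc 3 1 (.lc 1 4 (.lc 1 4 (.lc 3 1 (.lc 3 1 (.lc 4 1 (.lc 2 4 (.lc 2 4 (.lc 2 4 (.lc 2 4 (.lc 4 1 (.lc 4 1 (.lc 4 1 (.lc 4 1 (.lc 4 1 (.lc 5 1 .stop))))))))))))))))))))))))))))))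
 (.node [89,122,152,132] 5 9 (.node [152] 8 4 (.node [66,128] 0 4 (.far [257,1,4112,1,4096,4112,4096,4096,0,0,257] 4096 .stop)
 (.node [66,130,152] 9 8 (.node [130,144] 0 8 (.far [256,0,257,4112,1,4096,4112,4096,4096,0,0,257] 4096 .stop)
 (.node [130,155] 10 9 (.node [171] 11 8 (.node [178] 11 2 (.far [1,257,1,4096,0,4096,1,0,4112,4096,4096,0,0,257] 4096 (.far [4096,0,257,0,0,4096,1,0,4112,4096,4096,0,0,257] 4096 (.node [188,192,188] 10 11 (.far [1,4112,4112,256,256] 0 (.lc 3 5 (.lc 1 0 .stop)))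
 .stop)))
 (.lc 3 0 (.far [16,16,256,257,16,0,4096] 17 (.lc 3 0 (.lc 3 12 (.lc 4 12 .stop))))))
 (.lc 3 0 (.lc 3 12 (.lc 1 8 (.lc 1 8 (.lc 3 0 (.lc 3 12 (.lc 4 12 (.lc 4 0 (.lc 4 13 .stop))))))))))
 (.lc 2 2 (.lc 2 2 (.lc 3 5 (.lc 3 5 (.conf [155,176] (.conf [130,184] (.conf [130,184] (.lc 2 2 (.lc 2 2 (.lc 3 5 (.lc 3 5 (.lc 3 2 (.lc 4 5 (.lc 4 5 (.lc 4 5 (.lc 3 2 (.lc 3 2 (.lc 3 2 (.lc 3 2 (.lc 4 2 .stop))))))))))))))))))))))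
 (.node [66,138] 10 4 .stop
 (.node [66,139] 11 4 (.node [178] 9 8 (.node [139,144] 0 8 (.node [178] 9 0 .stop
 (.lc 1 2 (.lc 1 2 .stop)))
 (.node [139,156] 10 9 (.node [172] 8 11 (.node [178] 12 11 (.node [178,192] 0 11 (.far [257,1,4096,1,4096,0,0,4096,1,0,4112,4096,4096,0,0,257] 4096 .stop)
 (.lc 1 2 (.lc 2 8 (.node [178,205] 10 12 (.node [173] 7 10 (.node [125] 13 11 (.node [210] 7 13 .stop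
 (.far [16,0,0,16,16,0,0,257,4096] 17 .stop))
 (.conf [113,165,219] (.far [16,257,0,0,257,0,0,0,4096,4096] 0 (.far [16,257,0,0,257,0,0,0,4096,4096] 0 (.conf [113,165,219] .stop)))))
 (.conf [165,200,219] (.far [16,257,4096,4096,4096] 0 (.far [16,257,4096,4096,4096] 0 .stop))))
 (.far [1,4096,1,4096,0,0,4096,1,0,4112,4096,4096,0,0,257] 4096 (.conf [178,205,210] (.node [200,160,178] 10 0 (.far [4112,4112,256,16,256,0,0,256,256] 0 .stop)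
 (.conf [200,219,173] (.node [178,205,208,205] 0 11 (.far [16,16,16,0,0,257,4096] 0 .stop)
 (.lc 2 2 (.node [178,192,219,178] 12 0 .stop
 (.node [178,219,237,178,206] 10 12 (.far [1,4112,256,256,256] 0 (.lc 3 5 (.lc 1 13 (.lc 1 13 .stop))))
 (.far [1,4096,1,4096,0,0,4096,1,0,4112,4096,4096,0,0,257] 4096 (.node [178,200,32] 10 2 .stop
 (.node [165,200,123] 7 11 .stop
 (.conf [178,205,208] (.far [256,4112,4096,4096,257,4096] 17 .stop)))))))))))))))))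
 (.lc 2 2 (.lc 2 2 (.lc 0 0 (.lc 0 13 (.lc 2 2 (.lc 2 2 (.lc 3 2 (.lc 3 2 (.lc 3 2 .stop))))))))))
 (.lc 3 0 (.lc 3 11 (.lc 3 13 (.lc 1 8 (.lc 1 8 (.lc 3 0 (.lc 3 13 (.lc 4 13 (.lc 4 0 (.lc 4 14 .stop)))))))))))
 (.conf [132,144] (.conf [132,156] (.conf [139,149] (.conf [139,149] (.conf [156,192] (.conf [139,200] (.conf [139,200] (.lc 1 2 (.lc 1 2 (.node [132,149,171] 10 11 (.node [160,178] 10 0 (.far [257,257,1,0,0,4096,4096] 0 (.far [1,257,1,0,0,4096,1,0,16,4096] 0 (.node [113,160] 11 2 (.far [4096,16,4096] 256 .stop)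
 (.lc 0 1 .stop))))
 (.lc 1 2 (.lc 2 5 (.node [172,178] 7 10 (.far [16,257,1,0,0,4096,4096] 0 (.conf [113,165,203] (.far [16,257,1,0,0,4096,4096] 0 (.far [16,257,1,0,0,4096,4096] 0 (.conf [113,165,203] .stop)))))
 (.lc 2 2 (.lc 2 2 (.lc 3 5 (.lc 3 5 (.node [172,178,192,172] 0 11 (.far [256,0,4096,257,4096,4096,1,0,4112,4096,4096,0,0,257] 4096 .stop)
 (.lc 2 2 (.node [160,178,203,178] 10 0 (.far [4112,4112,4112,0,4112,0,257,16,4096,1,1,256] 0 .stop)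
 (.node [173,203,220,173,178] 7 10 (.node [220] 7 13 (.node [220,203] 1 13 (.lc 1 11 .stop)
 (.far [4112,4112,0,0,0,0,0,4112,0,1,256] 4097 (.far [257,257,0,0,0,0,0,257,0,16,4096] 0 (.far [256,16,257,257,0,257,0,4112,1,256,16,16,4096] 0 .stop))))
 (.lc 3 1 (.lc 1 12 (.lc 1 12 (.lc 4 1 .stop)))))
 (.lc 2 2 (.lc 3 5 (.lc 3 5 (.lc 3 2 (.lc 4 5 (.lc 4 5 .stop))))))))))))))))))
 (.lc 0 0 (.lc 0 12 (.lc 2 2 (.lc 2 2 (.lc 2 2 (.lc 0 12 (.lc 0 0 (.lc 0 13 (.lc 0 0 (.lc 0 12 (.lc 0 0 (.lc 0 12 (.lc 2 2 (.lc 2 2 (.lc 0 12 (.lc 0 0 (.lc 0 13 .stop)))))))))))))))))))))))))))))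
 (.lc 3 0 (.lc 3 10 (.lc 3 12 (.far [16,16,257,16,256,0,16,0,4112,4096] 17 (.far [16,16,257,16,256,0,16,0,4112,4096] 0 (.lc 3 0 (.lc 3 12 (.lc 4 12 (.lc 4 13 .stop))))))))))
 (.lc 2 2 (.lc 2 2 (.lc 3 1 (.lc 3 10 (.lc 3 11 (.lc 3 0 (.lc 3 10 (.lc 3 11 (.lc 3 0 (.lc 3 10 (.lc 3 12 (.node [66,139,176,139,152] 0 4 (.far [16,16,257,16,256,0,16,0,4112,4096] 0 .stop)
 (.far [16,257,16,256,0,16,0,4112,4096] 17 (.conf [32,139,178] (.conf [66,180] (.conf [66,180] (.lc 2 2 (.lc 2 2 (.lc 2 2 (.lc 2 2 (.lc 2 2 (.lc 2 2 (.lc 3 11 (.lc 3 0 (.lc 3 11 (.lc 3 10 (.lc 3 0 (.lc 3 11 (.lc 3 0 (.lc 3 12 (.lc 3 2 (.lc 3 2 (.lc 4 12 (.lc 4 11 (.lc 4 12 (.lc 4 12 (.lc 4 0 (.lc 4 13 (.lc 3 2 (.lc 3 2 (.lc 3 2 (.lc 3 2 (.lc 3 2 (.lc 3 2 (.lc 3 2 (.lc 3 2 (.lc 3 2 (.lc 3 2 (.lc 4 2 (.lc 4 2 .stop))))))))))))))))))))))))))))))))))))))))))))))))))))))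
 (.lc 2 8 (.lc 2 8 (.lc 2 8 (.lc 0 0 (.lc 0 11 (.lc 2 8 (.lc 2 8 (.lc 3 8 (.lc 3 8 (.lc 3 8 (.lc 3 8 .stop))))))))))))
 (.lc 2 4 (.lc 2 4 (.lc 3 10 (.lc 3 0 (.lc 3 0 (.lc 3 2 (.lc 3 10 (.lc 3 0 (.lc 3 2 (.lc 3 11 (.lc 3 1 (.node [89,122,160,152,132] 0 5 (.lc 1 8 .stop)
 (.node [89,112,152,132] 2 5 .stop
 (.node [112,152,132] 0 9 (.lc 1 4 .stop)
 (.conf [122,152,169] (.conf [89,165] (.conf [89,165] (.lc 2 4 (.lc 2 4 (.lc 2 4 (.lc 2 4 (.lc 2 4 (.lc 2 4 (.lc 2 4 (.lc 3 10 (.lc 3 0 (.lc 3 10 (.lc 3 0 (.lc 3 10 (.lc 3 0 (.lc 3 11 (.lc 3 4 (.lc 3 4 (.lc 3 4 (.lc 3 4 (.lc 3 4 (.lc 4 11 (.lc 4 10 (.lc 4 10 (.lc 4 0 (.lc 4 0 (.lc 4 11 (.lc 4 11 (.lc 4 0 (.lc 4 0 (.lc 4 12 (.lc 3 4 (.lc 3 4 (.lc 3 4 (.lc 3 4 (.lc 3 4 (.lc 3 4 (.lc 3 4 (.lc 3 4 (.lc 3 4 (.lc 3 4 (.lc 3 4 (.lc 3 4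 (.lc 3 4 (.lc 3 4 (.lc 4 4 (.lc 4 4 (.lc 4 4 (.lc 4 4 (.lc 4 4 (.lc 4 4 .stop)))))))))))))))))))))))))))))))))))))))))))))))))))))))))))))))))))))))
 (.lc 2 2 (.lc 2 2 (.lc 2 2 (.lc 2 2 (.lc 2 2 (.lc 2 2 (.lc 2 2 (.lc 2 2 (.lc 2 2 (.lc 2 2 (.lc 3 8 (.lc 2 2 (.lc 2 2 (.lc 3 0 (.lc 3 9 (.lc 3 2 (.lc 3 2 (.lc 3 2 (.lc 3 2 (.lc 3 2 (.lc 3 2 (.lc 3 2 (.lc 4 9 (.lc 3 2 (.lc 3 2 (.lc 4 9 (.lc 4 0 (.lc 4 10 (.lc 3 2 (.lc 3 2 (.lc 3 2 (.lc 3 2 (.lc 3 2 (.lc 3 2 (.lc 3 2 (.lc 3 2 (.lc 3 2 (.lc 3 2 (.lc 3 2 (.lc 3 2 (.lc 3 2 (.lc 3 2 (.lc 4 2 (.lc 4 2 (.lc 4 2 (.lc 4 2 (.lc 4 2 .stop))))))))))))))))))))))))))))))))))))))))))))))))))))))))))))))))))))))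
 (.lc 2 5 (.lc 2 5 (.far [4112,4112,4096,4112,4112,256] 4097 (.far [4112,4112,4096,4112,4112,256] 0 (.lc 2 5 (.lc 2 5 (.lc 3 5 (.lc 3 5 .stop)))))))))
 (.conf [103,112] (.far [1,0,257,257,1] 4096 (.conf [103,114] (.node [84,96,117] 6 0 (.node [] 5 4 (.lc 1 2 (.node [88] 7 5 (.far [16,257,257,256,16,1] 0 (.lc 1 4 (.lc 1 4 (.lc 1 4 (.node [121,152] 7 9 (.node [114,152] 7 2 (.far [4096,0,0,0,0,1,0,257,257,1] 4096 .stop)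
 (.node [122,152] 0 7 (.lc 1 9 .stop)
 (.lc 2 8 (.lc 2 8 (.lc 2 8 (.lc 3 0 (.conf [152,169] (.lc 2 8 (.lc 2 8 (.lc 3 0 (.lc 3 8 (.lc 4 0 .stop))))))))))))
 (.lc 2 4 .stop))))))
 (.lc 2 2 (.lc 2 2 (.lc 3 4 (.lc 2 2 (.conf [89,152] (.lc 2 2 (.lc 2 2 (.lc 2 2 (.lc 3 4 (.lc 3 2 (.lc 3 2 (.lc 4 4 (.lc 3 2 (.lc 3 2 (.lc 3 2 (.lc 4 2 .stop))))))))))))))))))
 .stop)
 (.conf [104,135] (.lc 3 1 (.lc 3 1 (.conf [103,112] (.node [84,96] 2 5 (.lc 0 2 .stop)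
 (.conf [84,117] (.conf [84,117] (.node [84,103] 0 5 (.node [84] 5 4 (.lc 1 2 .stop)
 (.lc 1 2 (.conf [84,133] .stop)))
 (.far [1,0,257,257,1] 4096 (.node [84,96,117] 6 0 (.far [1,257,0,257,257,1] 16 .stop)
 (.node [84,98,117] 6 2 .stop
 (.node [84,104,117] 6 8 (.far [257,257,256,257,257,4096] 0 (.lc 2 7 (.lc 2 7 (.node [] 5 4 (.lc 1 2 (.node [89] 7 5 (.far [16,257,257,257,16,258,514,2] 4112 (.lc 3 2 (.lc 3 10 (.lc 1 4 (.lc 3 10 (.lc 4 11 .stop))))))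
 (.lc 2 2 (.lc 2 2 (.lc 3 4 (.lc 2 2 (.conf [90,169] (.lc 2 2 (.lc 2 2 (.lc 2 2 (.lc 3 4 (.lc 3 2 (.lc 3 2 (.lc 4 4 (.lc 3 2 (.lc 3 2 (.lc 3 2 (.lc 4 2 .stop))))))))))))))))))
 (.node [25,152] 1 9 (.node [152] 5 4 (.node [80] 5 0 .stop
 (.lc 1 2 (.node [90] 7 5 (.far [16,257,257,257,257,16,258,514,2] 4112 (.lc 3 0 (.lc 3 2 (.lc 3 11 (.lc 1 4 (.lc 3 11 (.lc 4 0 (.lc 4 12 .stop))))))))
 (.lc 2 2 (.lc 2 2 (.lc 2 2 (.lc 3 4 (.lc 2 2 (.lc 2 2 (.conf [91,186] (.lc 2 2 (.lc 2 2 (.lc 2 2 (.lc 2 2 (.lc 2 2 (.lc 3 4 (.lc 2 2 (.lc 3 4 (.lc 3 2 (.lc 3 2 (.lc 3 2 (.lc 4 4 (.lc 3 2 (.lc 3 2 (.lc 3 2 (.lc 3 2 (.lc 3 2 (.lc 3 2 (.lc 4 2 .stop)))))))))))))))))))))))))))))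
 (.lc 2 8 (.lc 2 8 (.lc 2 8 (.node [152,169,152] 9 8 (.lc 2 2 (.lc 2 4 (.lc 1 6 (.lc 2 11 (.lc 2 7 (.lc 2 7 (.lc 2 7 (.lc 2 7 (.lc 1 5 (.conf [135,184] (.lc 1 8 (.lc 1 5 (.lc 3 12 (.lc 1 8 (.lc 2 7 (.lc 2 7 (.lc 2 7 (.lc 2 7 (.lc 2 7 (.lc 2 7 (.lc 0 2 (.lc 0 4 (.lc 2 6 (.lc 0 11 (.lc 2 8 (.lc 1 11 (.lc 3 7 (.lc 2 8 (.lc 2 5 (.lc 0 12 (.lc 3 7 (.lc 3 7 (.lc 3 7 (.lc 3 7 (.lc 2 8 (.lc 3 7 (.lc 3 7 (.lc 3 7 (.lc 2 8 (.lc 3 7 (.lc 3 8 (.lc 2 11 (.lc 4 7 .stop)))))))))))))))))))))))))))))))))))))))))))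
 (.lc 2 8 (.lc 3 8 .stop)))))))
 (.lc 2 7 (.lc 2 7 (.lc 3 7 (.lc 3 7 .stop)))))))))
 (.lc 3 1 (.lc 3 1 (.lc 3 1 (.lc 3 1 (.conf [104,135] (.conf [103,112] (.conf [104,128] (.node [84,96,117] 2 7 (.far [4112,16,0,4112,4096] 17 (.lc 0 8 (.lc 0 8 (.lc 2 5 (.lc 0 9 .stop)))))
 (.node [84,96,117,135] 6 0 (.node [] 5 4 (.lc 1 2 (.node [89] 7 5 (.far [16,257,257,272,16,4096] 0 (.lc 3 2 (.lc 3 10 (.lc 1 4 (.lc 3 10 (.lc 4 11 .stop))))))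
 (.lc 2 2 (.lc 2 2 (.lc 3 4 (.lc 2 2 (.conf [90,169] (.lc 2 2 (.lc 2 2 (.lc 2 2 (.lc 3 4 (.lc 3 2 (.lc 3 2 (.lc 4 4 (.lc 3 2 (.lc 3 2 (.lc 3 2 (.lc 4 2 .stop))))))))))))))))))
 .stop)
 (.conf [105,152] (.lc 4 1 (.lc 4 1 (.lc 4 1 (.lc 4 1 (.lc 4 1 (.lc 4 1 (.lc 4 1 (.lc 4 1 (.lc 5 1 (.lc 5 1 .stop)))))))))))))))))))))))))))))))))))))))
 (.lc 0 0 (.lc 2 5 (.lc 0 0 (.conf [101,118] (.lc 0 0 (.lc 2 5 (.lc 0 0 (.lc 3 5 .stop)))))))))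
 (.node [66,101,54,66,101,80] 0 4 .stop
 (.lc 0 0 (.node [66,96,54,66,84,96] 0 5 (.lc 0 5 (.lc 0 7 (.lc 0 7 (.lc 0 7 (.lc 0 8 .stop)))))
 (.node [66,84,101,48] 3 0 (.node [16,48,66,84,101] 5 4 (.node [66,87] 7 4 (.far [16,16,257,256,1,4096] 0 (.lc 3 8 (.far [16,16,257,256,1,4096] 0 (.lc 3 8 (.lc 4 9 .stop)))))
 (.lc 2 2 (.lc 3 8 (.conf [66,116] (.lc 2 2 (.lc 2 2 (.lc 3 8 (.lc 3 2 (.lc 4 9 (.lc 3 2 (.lc 3 2 (.lc 3 2 (.lc 4 2 .stop)))))))))))))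
 .stop)
 (.conf [49,66] (.node [66,118,55,66,84,101] 3 7 (.lc 2 0 (.node [118] 7 6 (.lc 1 5 (.lc 0 0 (.lc 1 5 (.lc 3 8 (.lc 1 6 (.lc 1 0 (.lc 3 0 (.lc 3 9 (.lc 2 5 (.lc 0 8 (.lc 2 5 (.lc 1 6 (.lc 2 5 (.lc 2 5 (.lc 3 8 (.lc 1 6 (.lc 3 0 (.lc 0 0 (.lc 3 9 (.far [1,4096,0,0,257] 16 (.lc 0 8 (.lc 0 0 (.lc 0 8 (.lc 4 9 (.lc 2 6 (.lc 4 9 (.lc 1 8 (.lc 4 0 (.lc 4 10 (.lc 0 0 (.lc 0 9 (.lc 0 0 (.lc 0 9 (.lc 0 0 (.lc 0 9 (.node [101,134] 8 6 (.node [84] 5 4 (.lc 1 2 (.lc 1 0 (.lc 2 2 (.lc 2 2 (.lc 1 0 (.lc 1 0 (.lc 1 0 (.lc 2 2 (.lc 2 0 (.lc 1 1 (.lc 2 0 (.lc 2 0 .stop))))))))))))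
 (.lc 0 0 (.lc 1 4 (.lc 1 4 (.lc 3 9 (.lc 2 4 .stop))))))
 (.lc 0 9 (.lc 0 0 (.lc 0 10 .stop)))))))))))))))))))))))))))))))))))))))
 (.lc 2 8 (.lc 0 0 (.lc 3 8 (.lc 3 0 (.lc 2 6 (.lc 3 9 (.lc 0 0 (.lc 3 1 (.lc 0 0 (.lc 3 8 (.lc 3 0 (.node [118,135] 8 7 (.lc 1 6 (.lc 0 0 (.lc 1 6 (.lc 1 5 (.lc 1 5 (.lc 2 6 (.lc 1 7 (.lc 2 6 (.lc 0 0 (.lc 2 6 (.lc 2 6 (.lc 1 7 (.lc 2 6 (.lc 2 6 (.node [101,128] 0 6 (.conf [5,84] (.lc 3 1 (.lc 0 5 (.lc 1 4 (.lc 3 1 (.lc 4 1 .stop))))))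
 (.lc 0 0 (.node [101,137] 6 5 (.far [4112,1,4096,16,4112,256] 0 (.lc 2 4 (.lc 1 0 (.lc 2 4 (.far [4112,1,4096,16,4112,256] 0 (.far [4112,1,4096,16,4112,256] 0 (.lc 2 4 (.lc 2 4 (.lc 3 4 (.lc 2 5 (.lc 3 4 (.lc 3 4 .stop))))))))))))
 (.lc 1 5 (.lc 0 0 (.lc 1 5 (.lc 2 6 (.lc 1 7 (.lc 1 0 (.lc 2 6 (.lc 2 6 (.node [101,137,144] 0 6 (.lc 0 5 .stop)
 (.lc 1 6 (.node [101,128,150] 8 0 .stop
 (.node [101,138,150] 9 6 (.node [84] 5 4 (.lc 1 2 (.lc 1 2 (.lc 1 2 (.lc 3 0 (.lc 1 0 (.lc 2 2 (.lc 2 2 (.lc 2 2 (.lc 2 2 (.lc 2 2 (.lc 1 0 (.lc 1 0 (.lc 1 0 (.lc 1 0 (.lc 2 2 (.lc 2 0 (.lc 2 0 (.lc 3 2 (.lc 3 2 (.lc 2 0 (.lc 2 0 (.lc 2 0 (.lc 2 0 (.lc 3 0 (.lc 3 0 .stop)))))))))))))))))))))))))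
 (.lc 1 4 (.lc 0 0 (.lc 1 4 (.lc 1 4 (.lc 1 4 (.lc 3 0 (.lc 3 11 (.lc 2 4 (.lc 1 5 (.lc 2 4 (.lc 2 4 .stop))))))))))))
 (.lc 3 6 (.lc 2 7 (.lc 3 6 (.lc 1 9 (.lc 3 6 (.lc 3 6 (.lc 2 5 (.lc 1 6 (.lc 2 5 (.lc 2 5 (.lc 4 9 (.lc 1 6 (.lc 1 0 (.lc 4 0 (.lc 4 10 (.lc 4 9 (.lc 1 6 (.lc 4 0 (.lc 0 0 (.lc 4 10 (.lc 5 10 (.lc 2 6 (.lc 5 10 (.lc 1 9 (.lc 5 0 (.lc 5 11 .stop)))))))))))))))))))))))))))))))))))))))))))))))))))))))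
 (.lc 3 9 (.lc 0 0 (.lc 3 8 (.lc 3 0 (.lc 2 6 (.lc 3 9 (.lc 0 0 (.lc 3 1 (.lc 0 0 (.lc 3 1 (.lc 4 9 (.lc 0 0 (.lc 4 9 (.lc 4 0 (.lc 3 6 (.lc 4 10 (.lc 0 0 (.lc 4 1 (.lc 0 0 (.lc 4 1 (.lc 0 0 (.lc 4 1 (.lc 0 0 (.lc 4 1 (.lc 0 0 (.lc 5 1 .stop))))))))))))))))))))))))))))))))))))))))
 (.node [54,66,101,80] 3 6 (.node [101] 0 4 (.lc 1 0 .stop)
 (.lc 2 5 (.conf [101,118] (.lc 2 5 (.lc 3 5 .stop)))))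
 (.conf [54,66,84] (.conf [48,66,84] (.conf [55,66,84] (.node [54,66,101,80] 0 4 (.node [7,66] 3 6 (.node [101] 5 0 (.lc 1 7 (.node [87] 7 4 (.far [1,1,0,4096,1,256] 0 (.lc 3 8 (.node [32,120,130] 8 2 .stop
 (.lc 3 8 (.lc 4 9 .stop)))))
 (.lc 2 7 (.lc 3 8 (.lc 2 7 (.lc 1 4 (.lc 2 7 (.lc 3 8 (.lc 3 7 (.lc 4 9 .stop))))))))))
 (.lc 2 5 (.lc 2 5 (.conf [101,118] (.conf [101,134] (.lc 2 5 (.lc 2 5 (.lc 3 5 (.lc 3 5 (.lc 3 5 .stop))))))))))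
 (.conf [66,116] .stop))
 (.node [54,66,84,96] 3 6 (.node [96] 6 0 .stop
 (.lc 2 0 (.conf [96,118] (.lc 2 0 (.lc 3 0 .stop)))))
 (.conf [48,66,84,101] (.conf [55,66,84,101] (.node [54,66,101,80] 0 4 .stop
 (.node [54,66,84,96] 3 6 (.node [96] 6 0 (.node [5,103] 0 5 (.lc 2 1 (.node [84] 6 7 (.far [257,257,256,16,1] 0 (.lc 2 5 (.node [24,117,135] 1 8 .stop
 (.lc 2 5 (.lc 3 5 .stop)))))
 (.lc 3 1 (.lc 2 4 (.lc 3 1 (.lc 0 8 (.lc 3 1 (.lc 2 4 (.lc 4 1 (.lc 3 4 .stop))))))))))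
 (.conf [5,112] .stop))
 (.lc 2 0 (.conf [96,118] (.lc 2 0 (.lc 3 0 .stop)))))
 (.node [48,66,84,101] 3 0 (.lc 0 0 .stop)
 (.conf [55,84,101,118] (.conf [54,80,101] (.node [54,66,84,96] 0 5 (.node [84] 3 6 (.node [96] 5 4 (.node [66,81] 1 4 .stop
 (.node [66,87] 4 2 (.far [257,16,257,0,256,1,4096] 0 (.lc 0 8 .stop))
 (.conf [66,116] .stop)))
 (.node [96,118] 5 4 (.node [66,87] 5 7 (.node [116] 7 4 (.far [256,256,0,0,256,0,1,1] 4096 .stop)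
 .stop)
 (.node [66,88] 4 2 (.node [130] 2 5 (.lc 0 2 .stop)
 (.lc 0 7 (.lc 0 9 .stop)))
 (.conf [66,116] (.conf [87,120] (.conf [66,132] .stop)))))
 (.conf [96,118] (.node [96,118] 5 4 (.node [66,81] 1 4 .stop
 (.node [66,87] 5 7 .stop
 (.node [66,88] 4 2 (.far [257,16,257,0,256,1,4096] 0 (.lc 0 9 .stop))
 (.lc 0 6 (.conf [66,132] .stop)))))
 (.node [96,118,135] 5 4 (.node [66,87] 5 7 .stop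
 (.node [66,88] 5 8 .stop
 (.node [66,89] 4 2 (.node [146] 2 5 (.lc 0 2 .stop)
 (.lc 0 10 .stop))
 (.lc 0 6 (.conf [66,148] .stop)))))
 .stop)))))
 (.lc 2 4 (.conf [84,117] (.lc 2 4 (.lc 3 4 .stop)))))
 (.node [48,66,84,101] 3 0 (.lc 0 0 .stop)
 (.conf [55,101,118] (.node [55,66,118,101,80] 0 4 .stop
 (.node [55,66,84,118,96] 3 7 (.node [118] 0 5 (.node [84] 5 4 (.node [66,81] 1 4 .stop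
 (.node [66,88] 4 2 (.node [130] 2 5 (.lc 0 2 .stop)
 (.lc 0 9 .stop))
 (.conf [66,132] .stop)))
 (.lc 2 4 (.conf [84,133] (.lc 2 4 (.lc 3 4 .stop)))))
 (.lc 2 6 (.conf [118,135] (.lc 2 6 (.lc 3 6 .stop)))))
 (.node [55,66,84,101,112] 3 7 (.node [112] 7 0 .stop
 (.lc 2 0 (.conf [112,135] (.lc 2 0 (.lc 3 0 .stop)))))
 (.node [48,66,84,101,118] 3 0 (.lc 0 0 .stop)
 (.node [56,66,84,101,118] 3 8 (.node [135] 8 7 (.node [118,128] 8 0 (.node [] 7 6 (.node [101,114] 7 2 (.far [4096,0,4112,4096,4096,0,0,257] 4096 .stop)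
 (.node [101,121] 7 9 (.node [150] 6 5 (.node [84,98] 6 2 .stop
 (.node [84,106] 9 6 (.node [154] 5 4 (.node [66,91] 10 5 (.node [171] 11 4 (.node [178] 10 11 (.lc 1 2 (.lc 2 5 (.node [172,178] 9 10 (.node [156] 12 11 (.node [] 9 12 .stop
 (.far [1,0,1,4112,256,256] 0 .stop))
 (.far [16,257,0,257,0,4096,4096] 0 .stop))
 (.conf [178,194,32] (.conf [165,178,203] (.node [173,203,220,173,178] 9 10 (.far [1,4112,0,4112,0,256,256] 0 (.lc 1 12 .stop))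
 (.node [165,178,32] 9 2 (.far [257,1,0,0,0,257,0,16,4096] 0 .stop)
 (.far [257,0,257,0,1,4096,16,4096] 0 .stop))))))))
 (.lc 3 12 (.far [16,32,513,32,512,257,272,0,16,0,4112,4096] 0 (.lc 3 12 (.lc 4 13 .stop)))))
 (.lc 3 2 (.lc 3 12 (.lc 1 4 (.lc 3 12 (.lc 4 13 .stop))))))
 (.lc 2 2 (.lc 3 4 (.conf [66,180] (.lc 2 2 (.lc 2 2 (.lc 3 4 (.lc 3 2 (.lc 4 4 (.lc 3 2 (.lc 3 2 (.lc 3 2 (.lc 4 2 .stop)))))))))))))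
 (.lc 3 2 (.lc 3 11 (.lc 1 5 (.lc 3 11 (.lc 4 12 .stop))))))
 (.lc 2 4 (.lc 2 4 (.lc 3 5 (.conf [84,165] (.lc 2 4 (.lc 2 4 (.lc 2 4 (.lc 2 4 (.lc 3 5 (.lc 3 5 (.lc 3 4 (.lc 4 5 (.lc 3 4 (.lc 3 4 (.lc 3 4 (.lc 3 4 (.lc 3 4 (.lc 4 4 .stop))))))))))))))))))))
 (.lc 2 6 (.node [150] 4 2 (.node [73] 4 9 (.far [4112,4097,272,4112,0,16,0,4112,4096] 17 (.lc 0 10 .stop))
 (.lc 3 2 (.conf [74,169] (.lc 3 2 (.lc 4 2 .stop)))))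
 (.lc 2 6 (.lc 2 6 (.lc 3 6 .stop))))))
 (.lc 2 5 (.lc 2 5 (.lc 3 0 (.lc 3 0 (.conf [101,150] (.lc 2 5 (.lc 2 5 (.lc 2 5 (.lc 2 5 (.lc 3 0 (.lc 3 5 (.lc 4 0 (.lc 3 5 (.lc 3 5 (.lc 3 5 (.lc 3 5 (.lc 4 5 .stop)))))))))))))))))))
 .stop)
 (.node [118,130] 8 2 .stop
 (.node [118,137] 8 9 (.node [151] 7 6 (.node [101,112] 7 0 (.node [144] 0 6 (.far [257,4112,4096,4112,4096,4096,0,0,257] 4096 (.node [101] 9 6 .stop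
 (.lc 2 0 (.conf [101,166] (.lc 1 4 (.lc 1 4 (.lc 2 4 .stop)))))))
 (.lc 0 10 (.lc 0 1 .stop)))
 (.node [101,114] 7 2 (.lc 0 0 .stop)
 (.node [101,122] 9 7 (.node [154] 6 5 (.node [84,96] 6 0 (.node [160] 0 5 (.far [257,4112,4096,1,4096,4112,4096,4096,0,0,257] 4096 (.node [84] 10 5 .stop
 (.conf [84,181] (.lc 1 2 .stop))))
 (.lc 0 1 (.lc 0 11 .stop)))
 (.node [84,98] 6 2 (.lc 0 0 .stop)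
 (.node [84,107] 10 6 (.node [171] 5 4 (.node [66,80] 0 4 (.far [257,1,16,257,16,256,0,16,4112,4096,0,257] 4096 .stop)
 (.node [66,92] 11 5 (.node [188] 12 4 (.node [194] 11 12 (.node [176,194] 11 0 (.node [160] 10 0 (.far [4112,256,0,0,0,0,4112,0,256,256] 0 .stop)
 (.far [16,4112,0,4112,0,16,256,256,256] 0 .stop))
 (.lc 1 2 (.lc 2 5 (.node [189,194] 10 11 (.node [173] 9 10 (.node [157] 13 12 (.node [210] 9 13 .stop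
 (.far [16,0,0,16,257,4096,4096] 17 .stop))
 (.conf [145,166,220] (.far [16,257,0,0,0,0,257,0,4096,4096] 0 (.far [16,257,0,0,0,0,257,0,4096,4096] 0 (.conf [145,166,220] .stop)))))
 (.conf [166,181,220] (.far [16,257,0,257,0,4096,4096] 0 (.far [16,257,0,257,0,4096,4096] 0 .stop))))
 (.far [1,0,257,0,1,4096,1,4096,4112,4096,4096,0,0,257] 4096 (.conf [194,210,32] (.node [181,194,160] 10 0 (.far [4112,4112,0,4112,0,16,256,256,256] 0 .stop)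
 (.conf [181,194,220] (.node [189,194,208,189] 0 12 (.far [16,16,257,4096,4096] 0 .stop)
 (.lc 2 2 (.node [176,194,220,194] 11 0 .stop
 (.node [190,220,237,190,194] 10 11 (.far [1,4112,0,4112,0,256,256] 0 (.lc 3 6 (.lc 1 13 (.lc 1 13 .stop))))
 (.far [1,0,257,0,1,4096,1,4096,4112,4096,4096,0,0,257] 4096 (.node [181,194,32] 10 2 .stop
 (.node [166,181,194] 9 12 .stop
 (.conf [194,208,189] (.far [256,257,1,4096,4096,4096] 17 .stop)))))))))))))))))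
 (.lc 3 0 (.lc 3 13 (.far [16,32,513,32,512,16,272,0,16,0,4112,4096] 17 (.far [16,32,513,32,512,16,272,0,16,0,4112,4096] 0 (.lc 3 0 (.lc 3 13 (.lc 4 13 (.lc 4 14 .stop)))))))))
 (.lc 3 0 (.lc 3 2 (.lc 3 13 (.lc 1 4 (.lc 1 4 (.lc 3 0 (.lc 3 13 (.lc 4 13 (.lc 4 0 (.lc 4 0 (.lc 4 14 .stop))))))))))))
 (.lc 2 2 (.lc 2 2 (.lc 3 4 (.lc 3 4 (.conf [92,192] (.conf [66,196] (.conf [66,196] (.lc 2 2 (.lc 2 2 (.lc 2 2 (.lc 3 4 (.lc 3 4 (.lc 3 2 (.lc 3 2 (.lc 4 4 (.lc 4 4 (.lc 4 4 (.lc 3 2 (.lc 3 2 (.lc 3 2 (.lc 3 2 (.lc 3 2 (.lc 3 2 (.lc 4 2 (.lc 4 2 .stop)))))))))))))))))))))))))))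
 (.lc 3 0 (.lc 3 2 (.lc 3 12 (.lc 1 5 (.lc 1 5 (.lc 3 0 (.lc 3 12 (.lc 4 12 (.lc 4 0 (.lc 4 0 (.lc 4 13 .stop))))))))))))
 (.lc 2 4 (.lc 2 4 (.lc 2 4 (.lc 2 4 (.lc 2 4 (.lc 3 5 (.lc 3 5 (.conf [107,176] (.node [84,96] 2 5 .stop
 (.conf [84,181] (.conf [84,181] (.lc 2 4 (.lc 2 4 (.lc 2 4 (.lc 2 4 (.lc 2 4 (.lc 2 4 (.lc 2 4 (.lc 2 4 (.lc 2 4 (.lc 2 4 (.lc 3 5 (.lc 3 5 (.lc 3 5 (.lc 3 4 (.lc 3 4 (.lc 3 4 (.lc 3 4 (.lc 3 4 (.lc 3 4 (.lc 4 5 (.lc 4 5 (.lc 4 5 (.lc 4 5 (.lc 3 4 (.lc 3 4 (.lc 3 4 (.lc 3 4 (.lc 3 4 (.lc 3 4 (.lc 3 4 (.lc 3 4 (.lc 3 4 (.lc 3 4 (.lc 3 4 (.lc 3 4 (.lc 3 4 (.lc 3 4 (.lc 3 4 (.lc 4 4 (.lc 4 4 (.lc 4 4 (.lc 4 4 (.lc 4 4 (.lc 4 4 .stop))))))))))))))))))))))))))))))))))))))))))))))))))))))))))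
 (.lc 3 0 (.lc 3 2 (.lc 3 11 (.lc 1 6 (.lc 1 6 (.lc 3 0 (.lc 3 11 (.lc 4 11 (.lc 4 0 (.lc 4 0 (.lc 4 12 .stop))))))))))))
 (.lc 2 5 (.lc 2 5 (.lc 2 5 (.lc 2 5 (.lc 2 5 (.lc 3 6 (.lc 3 6 (.conf [122,160] (.node [101,112] 2 6 .stop
 (.conf [101,166] (.conf [101,166] (.lc 2 5 (.lc 2 5 (.lc 2 5 (.lc 2 5 (.lc 2 5 (.lc 2 5 (.lc 2 5 (.lc 2 5 (.lc 2 5 (.lc 2 5 (.lc 3 6 (.lc 3 6 (.lc 3 6 (.lc 3 5 (.lc 3 5 (.lc 3 5 (.lc 3 5 (.lc 3 5 (.lc 3 5 (.lc 4 6 (.lc 4 6 (.lc 4 6 (.lc 4 6 (.lc 3 5 (.lc 3 5 (.lc 3 5 (.lc 3 5 (.lc 3 5 (.lc 3 5 (.lc 3 5 (.lc 3 5 (.lc 3 5 (.lc 3 5 (.lc 3 5 (.lc 3 5 (.lc 3 5 (.lc 3 5 (.lc 3 5 (.lc 4 5 (.lc 4 5 (.lc 4 5 (.lc 4 5 (.lc 4 5 (.lc 4 5 .stop))))))))))))))))))))))))))))))))))))))))))))))))))))))))))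
 (.lc 2 7 (.lc 2 7 (.node [151] 7 6 (.node [101,114] 7 2 .stop
 (.node [101,122] 9 7 (.node [154] 6 5 (.node [84,98] 6 2 .stop
 (.node [84,107] 10 6 (.far [1,4112,2,8208,8224,8192,4097,16,4112,256] 8194 (.lc 3 2 (.lc 3 12 (.lc 1 5 (.lc 3 12 (.lc 4 13 .stop))))))
 (.lc 2 4 (.lc 2 4 (.lc 3 5 (.conf [84,181] (.lc 2 4 (.lc 2 4 (.lc 2 4 (.lc 2 4 (.lc 2 4 (.lc 2 4 (.lc 3 5 (.lc 3 5 (.lc 3 4 (.lc 4 5 (.lc 3 4 (.lc 3 4 (.lc 3 4 (.lc 3 4 (.lc 3 4 (.lc 3 4 (.lc 4 4 .stop)))))))))))))))))))))))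
 (.lc 3 2 (.lc 3 11 (.lc 1 6 (.lc 3 11 (.lc 4 12 .stop))))))
 (.lc 2 5 (.lc 2 5 (.lc 3 6 (.conf [101,166] (.lc 2 5 (.lc 2 5 (.lc 2 5 (.lc 2 5 (.lc 2 5 (.lc 2 5 (.lc 3 6 (.lc 3 6 (.lc 3 5 (.lc 4 6 (.lc 3 5 (.lc 3 5 (.lc 3 5 (.lc 3 5 (.lc 3 5 (.lc 3 5 (.lc 4 5 .stop)))))))))))))))))))))))
 (.node [26,151,169] 1 10 (.node [169] 10 9 (.node [151,162] 10 2 (.far [1,257,0,4096,0,4096,0,0,257] 4096 .stop)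
 (.node [151,165] 10 5 .stop
 (.node [151,166] 10 6 (.lc 1 4 .stop)
 (.lc 1 7 (.node [151,171] 10 11 (.node [185] 9 7 (.node [118,146] 2 7 .stop
 (.lc 2 7 (.node [118,156] 7 6 (.far [4112,1,257,257,16,8208,4096,4097,16,4112,256] 0 (.lc 2 5 (.lc 2 5 (.lc 2 5 (.lc 0 13 (.lc 2 5 (.lc 3 5 .stop)))))))
 (.lc 2 6 (.lc 2 6 (.lc 3 7 (.lc 3 7 (.conf [118,199] (.lc 1 5 (.lc 1 5 (.lc 1 5 (.lc 2 6 (.lc 3 7 (.lc 3 7 (.lc 2 5 (.lc 2 5 (.lc 4 7 (.lc 3 6 (.lc 2 5 (.lc 2 5 (.lc 2 5 (.lc 3 5 .stop))))))))))))))))))))))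
 (.lc 2 9 (.lc 2 9 (.lc 2 9 (.lc 2 9 (.far [4112,4112,4096,256,0,256,0,0,4112] 1 (.node [185,203] 9 7 (.node [118,146] 2 7 .stop
 (.lc 2 7 (.node [118,199,203] 12 7 .stop
 (.node [118,157] 7 6 (.node [101] 11 9 (.far [16,0,257,0,16,0,16,4096] 0 (.lc 3 2 (.lc 3 5 (.lc 3 14 (.lc 3 9 (.far [16,0,257,0,16,0,16,4096] 0 (.lc 3 14 (.lc 4 15 .stop))))))))
 (.lc 2 5 (.lc 2 5 (.lc 2 5 (.lc 2 5 (.lc 0 14 (.lc 2 5 (.lc 3 5 (.lc 3 5 .stop)))))))))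
 (.lc 2 6 (.lc 2 6 (.lc 3 7 (.lc 3 7 (.lc 3 7 (.conf [118,215] (.lc 1 5 (.lc 1 5 (.lc 1 5 (.lc 1 5 (.lc 2 6 (.lc 3 7 (.lc 3 7 (.lc 2 5 (.lc 2 5 (.lc 4 7 (.lc 3 6 (.lc 2 5 (.lc 2 5 (.lc 2 5 (.lc 2 5 (.lc 3 5 .stop))))))))))))))))))))))))))
 (.lc 2 9 (.lc 2 9 (.lc 1 4 (.lc 3 9 (.lc 3 9 .stop))))))))))))
 (.conf [171,178] (.conf [73,151] (.conf [171,181] (.lc 0 4 (.conf [171,182] (.conf [172,203] (.lc 3 0 (.lc 3 0 (.lc 0 4 (.lc 0 5 (.conf [151,185] (.lc 1 9 (.lc 1 9 (.node [151,162,185] 10 2 (.far [1,257,0,4096,0,4096,0,0,257] 4096 .stop)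
 (.node [91,165,185] 10 5 .stop
 (.node [107,166,185] 10 6 (.lc 1 4 .stop)
 (.node [151,172,185] 9 7 (.node [118] 11 7 (.node [101] 11 6 (.far [257,257,1,16,0,16,4096] 0 (.lc 2 5 (.conf [101,214] (.lc 1 4 (.lc 2 4 .stop)))))
 (.lc 1 5 (.lc 1 5 (.lc 3 7 (.lc 2 5 .stop)))))
 (.lc 2 6 (.lc 0 13 (.lc 1 5 (.lc 2 5 .stop)))))
 (.lc 3 0 (.lc 3 0 (.lc 3 0 (.lc 3 0 (.lc 3 0 (.lc 3 0 (.lc 3 0 (.lc 2 7 (.lc 3 0 (.lc 1 2 (.lc 1 4 (.lc 0 4 (.conf [173,220] (.lc 1 4 (.lc 1 5 (.lc 4 0 (.lc 4 0 (.lc 4 0 (.lc 4 0 (.lc 4 0 (.lc 4 0 (.lc 1 4 (.lc 4 0 (.lc 4 0 (.lc 4 0 (.lc 2 9 (.lc 2 9 (.lc 4 0 (.lc 4 0 (.lc 4 0 (.lc 4 0 (.lc 1 4 (.lc 4 0 (.lc 4 0 (.lc 2 2 (.lc 2 4 (.lc 2 4 (.lc 1 4 (.lc 5 0 (.lc 5 0 .stop))))))))))))))))))))))))))))))))))))))))))))))))))))))))))))))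
 (.lc 2 9 (.lc 2 9 (.lc 2 9 (.conf [169,186] (.lc 2 9 (.lc 1 4 (.lc 3 9 .stop))))))))
 (.lc 2 7 (.lc 2 7 (.lc 3 7 (.lc 3 7 .stop)))))))))
 (.lc 2 6 (.lc 2 6 (.lc 2 6 (.lc 2 6 (.lc 2 6 (.lc 3 1 (.lc 3 1 (.conf [137,144] (.node [118,128] 2 7 .stop
 (.conf [118,151] (.conf [118,151] (.lc 2 6 (.lc 2 6 (.lc 2 6 (.lc 2 6 (.lc 2 6 (.lc 2 6 (.lc 2 6 (.lc 3 1 (.lc 3 1 (.lc 3 6 (.lc 3 6 (.lc 3 6 (.lc 3 6 (.lc 3 6 (.lc 3 6 (.lc 4 1 (.lc 4 1 (.lc 3 6 (.lc 3 6 (.lc 3 6 (.lc 3 6 (.lc 3 6 (.lc 3 6 (.lc 4 6 (.lc 4 6 .stop)))))))))))))))))))))))))))))))))))))))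
 (.lc 0 0 (.lc 2 7 (.lc 0 0 (.conf [135,152] (.lc 0 0 (.lc 2 7 (.lc 0 0 (.lc 3 7 .stop)))))))))
 .stop))))))))))))))))))))))))))))))))))))))))))))))))))))))

theorem t2 : kNode2 awTt FTt 3 4 (check tyTt awTt triet FTt [s3, s12, s13] c2) (fun _ _ _ => true) 0 s2 Pl.nil s2 =
    true := by
  decide +kernel

end Chk
end Pool.Agent.Lib.MP_ba95e8_co
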