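import Pool.Agent.Lib.MP_ba95e8_co.ChkTab
import Pool.Agent.Lib.MP_ba95e8_co.ChkStates

/-!
Deltahedral domes: part 20 of the case analysis.
-/

namespace Pool.Agent.Lib.MP_ba95e8_co
namespace Chk

/-- certificate number 20 -/
def c20 : Cert := (.node [96] 6 0 (.lc 2 0 (.node [100] 6 4 (.node [64,66] 4 0 (.node [] 5 4 .stop
 (.far [4096,0,0,16,0,16,1] 0 .stop))
 (.far [4112,4112,4112,1,256] 0 .stop))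
 (.node [103] 0 5 (.node [84] 5 4 (.far [257,16,0,16,0,16,1] 0 (.lc 2 2 (.lc 2 2 (.node [120,132,80] 6 7 (.lc 1 4 .stop)
 (.lc 2 2 (.lc 3 2 .stop))))))
 (.lc 2 0 (.lc 1 2 (.far [4112,1,256] 0 (.lc 1 2 (.lc 2 2 .stop))))))
 (.node [64,66,116,103] 4 0 (.far [16,16,4096] 0 .stop)
 (.node [66,71,100,112] 6 4 .stop
 (.node [104,135,104,112] 6 8 (.far [4112,4112,4112,1,256] 0 (.lc 2 7 (.lc 2 7 (.conf [72,135] (.conf [25,135,152] (.lc 2 7 (.lc 2 7 (.lc 3 7 (.lc 3 7 (.lc 3 7 .stop))))))))))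
 .stop))))))
 (.lc 2 1 (.lc 1 3 (.node [103] 5 4 (.node [80] 5 0 (.far [257,257,16,0,16,1] 0 (.node [113,80] 6 7 (.node [66,71,113] 4 7 .stop
 (.node [104,113] 7 1 (.far [257,16,1,257,4112,0,16,1] 0 (.lc 0 9 .stop))
 (.conf [113,135] .stop)))
 (.node [113,22,80] 1 6 .stop
 (.node [120,128,80] 8 0 (.node [129] 7 8 (.node [66,116,129] 7 4 .stop
 (.node [121,129] 6 7 (.node [105] 9 8 (.node [145] 1 6 (.lc 0 1 .stop)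
 (.lc 3 10 .stop))
 (.lc 3 1 (.lc 1 8 .stop)))
 (.conf [121,128] (.conf [117,129] (.conf [129,152] (.lc 0 1 .stop))))))
 (.far [16,16,4096] 0 (.lc 3 6 (.lc 3 9 (.lc 3 9 (.node [137,145,22,137,120] 1 6 (.lc 0 6 (.lc 2 1 (.conf [103,166] .stop)))
 (.conf [66,137,148] (.lc 3 9 (.lc 3 9 (.lc 4 10 (.lc 4 10 .stop)))))))))))
 (.far [257,257,16,0,16,1] 4097 (.node [120,129,22,80] 1 6 (.far [257,256,0,16,1,256] 4097 (.lc 0 9 .stop))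
 .stop))))))
 (.node [81] 5 1 .stop
 (.far [257,16,0,16,1] 0 (.node [88] 7 5 (.far [16,257,16,0,16,1] 0 (.conf [112,132,83] (.conf [113,132,83] (.conf [121,132,83] (.far [16,257,16,0,16,1] 0 (.far [16,257,16,0,16,1] 0 (.node [112,83] 7 0 (.node [113] 6 7 (.lc 2 1 .stop)
 (.lc 0 1 (.conf [121,145] (.lc 0 1 .stop))))
 (.node [121,152,83] 6 7 (.node [96,121,152] 0 7 (.node [152] 6 0 (.node [] 9 8 (.lc 1 4 (.node [132,154] 0 9 .stop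
 (.conf [155,186] (.lc 2 4 (.conf [132,168] (.node [132,155,168,66] 10 8 (.node [164] 9 11 .stop
 (.lc 1 2 (.lc 1 2 (.lc 3 12 (.lc 2 2 .stop)))))
 (.lc 3 0 (.conf [156,203] .stop))))))))
 .stop)
 (.lc 1 8 (.lc 1 8 (.lc 0 0 .stop))))
 (.lc 2 1 (.node [66,71,121,152] 4 7 .stop
 (.node [106,121,152] 7 9 (.node [152] 6 10 (.node [169] 10 9 (.node [152,160] 0 9 (.node [132] 10 0 (.node [] 0 8 (.far [257,4112,257,4096,4096,0,0,0,0,0,4096,0,0,257] 4096 (.lc 0 0 .stop))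
 .stop)
 (.far [256,0,4112,0,4112,257,0,4096,4096,0,0,257] 4096 (.far [16,16,0,256,16,257,0,4096] 0 .stop)))
 (.lc 2 1 (.node [66,73,152] 4 9 (.lc 0 4 .stop)
 (.node [152,171] 9 8 (.node [132] 10 11 (.node [184] 1 11 (.node [184] 11 8 (.node [132] 8 4 (.far [257,16,0,0,16,0,0,0,0,4096,4096] 0 (.lc 1 0 (.far [257,16,0,0,16,0,0,0,0,4096,4096] 0 .stop)))
 (.lc 2 4 (.far [4112,1,1,256,256] 0 (.far [4112,1,1,256,256] 0 (.lc 2 4 (.lc 3 4 .stop))))))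
 (.lc 2 1 (.node [184,203,184] 11 8 (.far [257,16,16,4096,4096] 0 (.lc 2 4 (.lc 0 4 (.lc 0 13 (.lc 2 4 (.lc 3 4 .stop))))))
 (.lc 2 4 .stop))))
 (.node [184,161] 11 8 (.node [132] 8 4 (.far [257,16,0,16,0,0,0,0,4096,4096] 0 (.lc 1 0 (.far [257,16,0,16,0,0,0,0,4096,4096] 0 .stop)))
 (.lc 2 4 (.far [4112,4096,256,16,1,256,256] 0 (.far [4112,4096,256,16,1,256,256] 0 (.lc 2 4 (.lc 3 4 .stop))))))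
 (.far [4112,0,4112,1,256,256] 4097 (.far [257,0,257,16,4096,4096] 0 (.far [257,0,257,16,4096,4096] 0 (.node [184,203,161] 11 8 (.far [257,256,4096,1,16,4096,4096] 0 (.lc 2 4 (.lc 0 4 (.lc 0 13 (.lc 2 4 (.lc 3 4 .stop))))))
 .stop))))))
 (.lc 0 0 (.lc 0 12 (.lc 0 0 (.lc 2 4 (.lc 0 12 (.far [257,16,0,256,16,257,0,4096] 0 (.far [257,16,0,256,16,257,0,4096] 0 (.lc 0 12 (.lc 0 0 (.lc 0 13 .stop)))))))))))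
 (.lc 2 7 (.lc 1 4 (.lc 2 7 (.lc 3 1 (.lc 3 1 (.lc 3 1 (.node [152,171,176,171] 0 9 .stop
 (.conf [152,185] (.conf [152,185] (.lc 2 7 (.lc 2 7 (.lc 2 7 (.lc 2 7 (.lc 3 1 (.lc 3 7 (.lc 3 7 (.lc 3 7 (.lc 3 7 (.lc 4 1 (.lc 3 7 (.lc 3 7 (.lc 3 7 (.lc 3 7 (.lc 4 7 .stop))))))))))))))))))))))))))))
 (.node [169,97] 10 9 (.node [152] 9 8 (.node [132] 0 8 (.far [257,4096,4096,4096,0,0,0,0,0,4096,0,0,257] 4096 (.lc 0 0 .stop))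
 (.far [1,4112,4096,256,16,257,0,4096,4096,0,0,257] 4096 (.far [257,16,0,256,16,257,0,4096] 0 .stop)))
 (.lc 2 7 (.conf [152,185] (.lc 2 7 (.lc 3 7 .stop)))))
 (.node [66,169,74,97] 4 10 .stop
 (.node [132,169,97,138] 8 10 .stop
 (.node [169,186,97] 10 9 (.node [152] 9 8 (.node [132] 1 11 (.node [184] 11 8 (.node [132] 8 4 (.far [257,16,0,16,0,0,0,0,4096,4096] 0 (.lc 1 0 (.far [257,16,0,16,0,0,0,0,4096,4096] 0 .stop)))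
 (.lc 2 4 (.far [4112,1,256,16,1,256,256] 0 (.far [4112,1,256,16,1,256,256] 0 (.lc 2 4 (.lc 3 4 .stop))))))
 (.lc 2 1 (.node [184,203] 11 8 (.far [257,16,4096,1,16,4096,4096] 0 (.lc 2 4 (.lc 0 4 (.lc 0 13 (.lc 2 4 (.lc 3 4 .stop))))))
 (.lc 2 4 .stop))))
 (.lc 0 0 (.lc 0 12 (.lc 0 0 (.lc 2 4 (.lc 0 12 (.far [257,16,0,256,16,257,0,4096] 0 (.far [257,16,0,256,16,257,0,4096] 0 (.lc 0 12 (.lc 0 0 (.lc 0 13 .stop)))))))))))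
 (.lc 2 7 (.far [4112,4096,256,16,0,0,4112,1,256] 0 (.conf [152,201] (.lc 2 7 (.lc 3 7 (.lc 3 7 .stop)))))))
 (.far [4112,0,4112,0,0,4112,1,256] 4097 (.far [4112,0,4112,0,0,4112,1,256] 0 (.far [257,0,257,0,0,257,16,4096] 0 (.far [257,0,257,0,0,257,16,4096] 0 (.lc 2 10 (.node [169,186,97] 10 9 (.far [257,256,4096,1,0,0,257,16,4096] 0 (.lc 2 7 (.lc 0 12 (.lc 2 7 (.lc 3 7 .stop)))))
 (.node [169,186,203,97] 10 9 (.far [257,256,4096,1,0,0,257,16,4096] 0 (.lc 2 7 (.lc 0 0 (.lc 0 13 (.lc 2 7 (.lc 3 7 (.lc 3 7 .stop)))))))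
 .stop))))))))))))
 (.lc 2 8 (.lc 2 8 (.lc 2 8 (.lc 2 8 (.lc 0 0 (.lc 0 11 (.lc 2 8 (.lc 2 8 (.lc 3 8 (.lc 3 8 (.lc 3 8 (.lc 3 8 .stop)))))))))))))
 (.conf [117,152] (.lc 3 1 (.conf [117,152] (.lc 3 1 (.lc 3 1 (.lc 3 1 (.node [106,121,160,152,106] 0 7 .stop
 (.conf [121,167] (.lc 3 1 (.conf [121,167] (.node [117,152,132,96] 6 0 (.far [257,257,0,0,257,16,4096] 0 .stop)
 (.lc 3 1 (.node [66,117,152,73] 6 4 .stop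
 (.node [117,152,132,106] 9 8 (.node [132] 6 10 (.far [257,0,257,0,0,257,16,4096] 0 (.lc 2 8 (.lc 2 8 (.lc 2 8 (.node [168] 10 8 (.lc 2 0 (.lc 1 4 (.node [132,171] 8 4 (.far [257,16,0,16,0,4096,4096] 0 (.conf [66,132,188] (.node [188,196,66] 10 11 (.node [188,196] 11 12 .stop
 (.far [257,257,256,16,4112,4096,4096,4096] 4097 .stop))
 (.far [257,16,0,16,0,4096,4096] 0 (.conf [66,132,189] .stop)))))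
 (.lc 2 4 (.lc 2 4 (.lc 3 0 (.lc 2 4 (.node [132,184,203,132,172,66] 10 12 (.far [4112,4112,4096,256,16,0,0,4112,1,256] 0 (.lc 2 11 (.lc 2 11 (.lc 1 0 .stop))))
 (.lc 2 4 (.lc 2 4 (.lc 2 4 (.lc 3 0 (.lc 3 4 (.lc 1 0 (.lc 3 4 .stop)))))))))))))))
 (.node [27,168,186] 1 11 (.node [186] 11 10 (.node [66,168,180] 4 10 (.lc 0 4 .stop)
 (.lc 1 6 (.node [168,188] 10 8 (.node [132] 11 12 (.node [200] 12 8 (.far [16,0,16,0,0,0,16,0,4096,4096] 0 (.conf [66,132,192] (.far [16,0,16,0,0,0,16,0,4096,4096] 0 .stop)))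
 (.lc 2 8 (.lc 2 8 (.lc 2 8 (.far [4112,0,4112,1,513,257,256,256,257,0,272,4112,1,4096] 0 (.lc 2 8 (.lc 1 0 (.lc 3 8 .stop))))))))
 (.lc 2 4 (.lc 2 4 (.lc 0 13 (.lc 2 4 (.lc 3 4 .stop))))))
 (.lc 1 4 (.lc 2 6 (.lc 3 0 (.lc 1 4 (.conf [168,202] (.lc 1 4 (.lc 2 6 (.lc 3 0 (.lc 3 0 (.lc 2 6 (.lc 3 0 (.lc 2 4 (.lc 1 0 (.lc 2 4 (.lc 4 0 (.lc 2 4 (.lc 3 6 (.lc 2 4 (.lc 2 4 (.lc 3 4 .stop)))))))))))))))))))))))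
 (.lc 2 10 (.lc 2 10 (.conf [186,203] (.lc 2 10 (.lc 3 10 .stop))))))
 (.lc 2 8 (.lc 2 8 (.lc 3 8 (.lc 3 8 .stop))))))))))
 (.lc 2 4 (.lc 2 4 (.lc 2 4 (.lc 0 0 (.lc 2 4 (.lc 0 11 (.lc 2 4 (.lc 2 4 (.lc 3 4 (.lc 3 4 (.lc 3 4 (.lc 3 4 .stop)))))))))))))
 (.lc 3 1 (.lc 3 1 (.lc 3 1 (.lc 3 1 (.lc 4 1 (.conf [117,160,106] (.node [117,152,169,132,96] 6 0 (.far [1,256,16,257,16,0,16,1,1] 16 .stop)
 (.lc 4 1 (.conf [117,186,107] (.lc 4 1 (.lc 4 1 (.lc 4 1 (.lc 4 1 (.lc 4 1 (.lc 4 1 (.lc 4 1 (.lc 4 1 (.lc 4 1 (.lc 5 1 (.lc 5 1 .stop))))))))))))))))))))))))))))))))))))))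
 (.conf [113,132,83] (.conf [121,132,83] (.conf [112,132,83] (.conf [122,132,83] .stop))))))))))))
 (.lc 2 2 (.lc 2 2 (.lc 2 2 (.lc 2 2 (.lc 2 2 (.lc 2 2 (.lc 2 2 (.lc 2 2 (.lc 3 3 (.lc 3 3 (.node [81] 5 1 .stop
 (.node [83,112] 7 0 (.node [113] 6 7 (.lc 2 1 .stop)
 (.lc 0 1 (.conf [120,129] (.lc 0 1 .stop))))
 (.node [88,128,88] 5 8 (.node [128] 8 0 (.node [129] 7 8 (.node [113] 1 6 (.lc 1 1 .stop)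
 (.lc 3 5 (.lc 3 9 .stop)))
 (.node [128,113] 7 1 (.lc 0 1 .stop)
 (.conf [137,145] (.lc 0 1 (.lc 0 9 .stop)))))
 (.lc 0 1 (.lc 0 9 (.lc 0 9 (.lc 2 0 (.lc 0 10 .stop))))))
 (.node [80,132] 5 0 (.node [113,22,80] 1 6 .stop
 .stop)
 (.node [83,120,132] 6 7 (.node [96,120] 0 7 (.node [132] 6 0 (.node [] 8 4 (.lc 1 2 (.node [66,137] 0 8 .stop
 (.conf [138,169] (.lc 1 0 (.conf [66,148] (.node [66,138,148] 9 4 (.node [146] 8 10 .stop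
 (.lc 3 11 .stop))
 (.conf [139,186] .stop)))))))
 .stop)
 (.lc 1 4 (.lc 1 4 .stop)))
 (.lc 2 1 (.node [105,120] 7 8 (.node [132] 6 9 (.node [152] 9 8 (.node [132,144] 0 8 (.node [66] 9 0 (.node [] 0 4 (.far [257,4112,257,4096,4096,0,0,0,0,4096,0,0,257] 4096 .stop)
 .stop)
 (.far [16,16,0,256,16,4096,4096] 0 (.lc 0 0 .stop)))
 (.lc 2 1 (.node [132,154] 8 4 (.node [66] 9 10 (.node [164] 1 10 (.node [164] 10 4 (.node [66] 4 2 (.far [4096,4096,1,4096,0,0,4096,0,0,0,0,4096,0,0,257] 4096 .stop)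
 (.lc 2 2 (.lc 1 0 (.far [4112,1,1,256,256] 0 (.lc 1 0 .stop)))))
 (.lc 2 1 (.node [164,186,164] 10 4 (.far [257,16,16,4096,4096] 0 (.lc 2 2 (.lc 0 12 .stop)))
 .stop)))
 (.node [164,145] 10 4 (.node [66] 4 2 (.far [4096,4096,4096,0,0,4096,0,0,0,0,4096,0,0,257] 4096 .stop)
 (.lc 2 2 (.lc 1 0 (.far [4112,4096,256,16,1,256,256] 0 (.lc 1 0 .stop)))))
 (.far [4112,0,4112,1,256,256] 4097 (.far [257,0,257,16,4096,4096] 0 (.far [257,0,257,16,4096,4096] 0 (.node [164,186,145] 10 4 (.far [257,256,4096,1,16,4096,4096] 0 (.lc 2 2 (.lc 0 12 .stop)))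
 .stop))))))
 (.lc 0 0 (.lc 0 11 (.lc 0 0 (.lc 0 11 (.far [257,16,0,256,16,4096,4096] 0 (.far [257,16,0,256,16,4096,4096] 0 (.lc 0 11 (.lc 0 0 (.lc 0 12 .stop))))))))))
 (.lc 2 4 (.lc 2 4 (.lc 3 1 (.lc 3 1 (.lc 3 1 (.node [132,154,160,154] 0 8 .stop
 (.conf [132,168] (.conf [132,168] (.lc 2 4 (.lc 2 4 (.lc 2 4 (.lc 2 4 (.lc 3 1 (.lc 3 4 (.lc 3 4 (.lc 3 4 (.lc 3 4 (.lc 4 1 (.lc 3 4 (.lc 3 4 (.lc 3 4 (.lc 3 4 (.lc 4 4 .stop))))))))))))))))))))))))))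
 (.node [152,97] 9 8 (.node [132] 8 4 (.node [66] 0 4 (.far [257,4096,4096,4096,0,0,0,0,4096,0,0,257] 4096 .stop)
 (.lc 1 0 (.far [257,16,0,256,16,4096,4096] 0 .stop)))
 (.lc 2 4 (.conf [132,168] (.lc 2 4 (.lc 3 4 .stop)))))
 (.node [66,152,73,97] 4 9 .stop
 (.node [152,169,97] 9 8 (.node [132] 8 4 (.node [66] 1 10 (.node [164] 10 4 (.node [66] 4 2 (.far [4096,1,0,4096,4096,4096,0,0,0,0,4096,0,0,257] 4096 .stop)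
 (.lc 2 2 (.lc 1 0 (.far [4112,1,256,16,1,256,256] 0 (.lc 1 0 .stop)))))
 (.lc 2 1 (.node [164,186] 10 4 (.far [257,16,4096,1,16,4096,4096] 0 (.lc 2 2 (.lc 0 12 .stop)))
 .stop)))
 (.lc 0 0 (.lc 0 11 (.lc 0 0 (.lc 0 11 (.far [257,16,0,256,16,4096,4096] 0 (.far [257,16,0,256,16,4096,4096] 0 (.lc 0 11 (.lc 0 0 (.lc 0 12 .stop))))))))))
 (.lc 2 4 (.far [4112,4096,256,16,0,4112,1,256] 0 (.conf [132,184] (.lc 2 4 (.lc 3 4 (.lc 3 4 .stop)))))))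
 (.far [4112,0,4112,0,4112,1,256] 4097 (.far [4112,0,4112,0,4112,1,256] 0 (.far [257,0,257,0,257,16,4096] 0 (.far [257,0,257,0,257,16,4096] 0 (.node [152,169,97] 9 8 (.far [257,256,4096,1,0,257,16,4096] 0 (.lc 2 4 (.lc 0 11 (.lc 2 4 (.lc 3 4 .stop)))))
 (.node [152,169,186,97] 9 8 (.far [257,256,4096,1,0,257,16,4096] 0 (.lc 2 4 (.lc 0 0 (.lc 0 12 (.lc 2 4 (.lc 3 4 (.lc 3 4 .stop)))))))
 .stop))))))))))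
 (.lc 2 4 (.lc 2 4 (.lc 2 4 (.lc 0 0 (.lc 0 10 (.lc 2 4 (.lc 2 4 (.lc 3 4 (.lc 3 4 (.lc 3 4 (.lc 3 4 .stop))))))))))))
 (.lc 2 5 (.lc 3 1 (.lc 2 5 (.lc 3 1 (.lc 3 1 (.lc 3 1 (.node [105,120,144,105] 0 7 .stop
 (.conf [120,151] (.lc 3 1 (.conf [120,151] (.lc 2 5 (.lc 3 1 (.lc 2 5 (.lc 3 1 (.lc 3 1 (.lc 3 1 (.lc 4 1 (.lc 3 5 (.lc 3 5 (.lc 4 1 (.lc 3 5 (.lc 4 1 (.lc 4 1 (.lc 4 1 (.lc 4 1 (.lc 4 1 (.lc 4 1 (.lc 4 1 (.lc 4 1 (.lc 5 1 (.lc 5 1 .stop))))))))))))))))))))))))))))))))))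
 (.node [89,152,89,132] 5 9 (.node [152] 9 8 (.node [132,144] 9 0 (.node [112] 0 8 (.far [257,4112,4096,4096,0,1,4112,4096,0,257] 4096 (.node [132] 7 8 .stop
 (.lc 0 0 (.lc 2 0 .stop))))
 (.lc 0 1 (.lc 0 1 (.lc 0 10 (.far [257,257,513,257,32,257,272,1,4096] 4097 (.lc 0 10 .stop))))))
 (.node [132,145] 9 1 .stop
 (.node [132,154] 7 9 (.node [122] 8 4 (.node [66,128] 8 0 (.node [160] 0 4 (.far [257,4112,4096,1,4096,4096,0,1,4112,4096,0,257] 4096 (.node [66] 10 4 .stop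
 .stop))
 (.lc 0 1 (.lc 0 1 (.lc 0 11 (.far [257,257,16,256,16,4096] 4097 (.lc 0 11 .stop))))))
 (.node [66,129] 8 1 .stop
 (.lc 1 2 (.node [66,139] 10 8 (.node [171] 11 4 (.node [66,176] 0 4 (.far [257,1,1,4096,1,4096,4096,0,1,4112,4096,0,257] 4096 .stop)
 (.node [66,177] 1 4 .stop
 (.node [66,32] 11 2 (.far [1,257,1,4096,1,4096,4096,0,1,4112,4096,0,257] 4096 (.lc 3 2 (.node [188,192,188] 10 11 (.far [1,4112,4112,256,256] 0 (.lc 3 7 (.lc 1 0 .stop)))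
 .stop)))
 (.lc 2 4 (.node [66,188] 4 2 (.node [32] 12 2 (.far [1,4096,1,1,4096,1,4096,4096,0,1,4112,4096,0,257] 4096 (.node [205,208,32] 11 12 (.far [1,4096,0,257,1,4096,1,4096,4096,0,1,4112,4096,0,257] 4096 (.lc 3 4 (.node [208,237,190] 10 11 (.far [1,4112,0,0,4112,256,256] 0 (.lc 3 7 (.lc 1 13 .stop)))
 .stop)))
 (.node [208,205] 11 12 (.node [177,205,208] 1 12 .stop
 (.lc 2 4 (.far [1,4112,256,256] 0 (.node [190,205,208] 10 11 (.node [174] 7 10 (.node [126] 14 12 (.far [1,0,0,1,4112,256,256] 0 (.lc 1 0 .stop))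
 (.conf [117,167,236] (.far [16,257,0,0,0,0,257,0,4096,4096] 0 (.conf [117,167,236] .stop))))
 (.conf [167,180,236] (.far [16,257,0,0,257,4096,4096] 0 .stop)))
 (.conf [190,208,237] (.conf [180,194] (.conf [205,236] (.conf [190,208,237] (.conf [205,236] (.conf [194,208] (.lc 3 4 (.conf [194,208] (.far [4096,4112,256,16,256,256] 0 (.node [167,180,205,208] 7 12 .stop
 (.conf [194,208] (.conf [194,208] (.conf [194,208] .stop)))))))))))))))))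
 (.far [1,4096,1,1,4096,1,4096,4096,0,1,4112,4096,0,257] 4096 (.node [206,237,32,208] 11 12 (.far [1,4096,0,257,1,4096,1,4096,4096,0,1,4112,4096,0,257] 4096 (.lc 3 4 (.lc 1 13 .stop)))
 .stop)))))
 (.lc 2 0 (.far [4112,1,1,4096,1,4096,4096,0,1,0,1,256] 0 (.far [4112,1,1,4096,1,4096,4096,0,1,0,1,256] 0 (.lc 2 0 (.lc 3 0 .stop))))))
 (.lc 2 2 (.lc 2 2 (.lc 3 1 (.lc 3 12 (.lc 3 6 (.lc 1 0 (.lc 3 0 (.lc 3 1 (.lc 3 13 (.node [66,177] 4 2 (.far [257,16,16,256,16,256,256,0,16,0,16,4096] 4097 .stop)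
 (.node [66,188,192] 0 4 (.far [16,16,16,256,16,256,256,0,16,0,16,4096] 0 .stop)
 (.lc 1 0 (.node [66,176,196,66] 4 2 (.far [257,16,16,256,16,256,256,0,16,0,16,4096] 0 (.lc 0 13 .stop))
 (.node [66,196,220,66] 4 2 (.far [257,16,16,256,16,256,256,0,16,0,16,4096] 0 (.lc 2 0 (.lc 0 0 (.lc 0 14 (.lc 2 0 (.lc 3 0 .stop))))))
 (.lc 1 0 (.lc 2 2 (.lc 2 2 (.lc 3 1 (.lc 3 12 (.lc 3 12 (.lc 3 0 (.lc 3 12 (.lc 3 0 (.lc 3 13 (.lc 2 0 (.lc 4 12 (.lc 4 13 (.lc 2 0 (.lc 4 1 (.lc 4 13 (.lc 4 0 (.lc 4 14 (.lc 3 2 (.lc 3 2 (.lc 2 0 (.lc 2 0 (.lc 3 0 .stop))))))))))))))))))))))))))))))))))))))))))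
 (.lc 3 0 (.lc 3 1 (.lc 3 12 (.lc 1 4 (.lc 1 4 (.lc 3 0 (.lc 3 12 (.lc 4 1 (.lc 4 12 (.lc 4 0 (.lc 4 13 .stop))))))))))))
 (.node [66,129] 8 1 .stop
 (.conf [139,176] (.conf [139,177] (.node [66,128,180] 8 0 (.lc 0 1 .stop)
 (.conf [140,203] (.lc 3 4 (.lc 3 4 (.node [66,129] 8 1 .stop
 (.conf [139,176] (.lc 1 0 (.conf [66,180] (.conf [66,180] (.node [66,129] 8 1 (.far [257,257,16,256,16,4096] 0 (.lc 0 6 (.lc 0 11 .stop)))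
 (.node [66,139] 0 4 (.far [256,0,16,257,513,257,32,0,32,4097,1] 4096 .stop)
 (.node [66,134] 8 6 .stop
 (.node [66,128,180] 8 0 (.far [257,257,16,256,16,4096] 0 (.lc 0 1 (.lc 0 1 (.lc 0 12 (.far [257,257,16,256,16,4096] 4097 (.lc 0 12 .stop))))))
 (.node [66,129,180] 8 1 .stop
 (.node [66,140,180] 11 4 (.node [178] 10 8 (.far [16,0,257,16,256,16,4096] 0 (.lc 3 0 (.lc 3 1 (.lc 3 13 (.lc 1 11 (.lc 1 11 (.lc 3 0 (.lc 3 13 (.lc 4 1 (.lc 4 13 (.lc 4 0 (.lc 4 14 .stop))))))))))))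
 (.lc 1 0 (.lc 1 0 (.lc 3 0 (.lc 3 13 (.lc 2 0 .stop))))))
 (.lc 3 4 (.lc 3 4 (.lc 3 4 (.lc 3 4 (.lc 3 4 (.lc 3 4 (.lc 2 2 (.lc 3 4 (.conf [139,177] (.conf [140,203] (.node [66,129,180] 8 1 .stop
 (.conf [140,192] (.node [66,128,180,203] 8 0 (.lc 0 1 .stop)
 (.conf [141,220] (.lc 4 4 (.lc 4 4 (.lc 2 0 (.lc 4 4 (.lc 4 4 (.lc 4 4 (.lc 4 4 (.lc 4 4 (.lc 4 4 (.lc 4 4 (.lc 4 4 (.lc 4 4 (.lc 4 4 (.lc 4 4 (.lc 4 4 (.lc 4 4 (.lc 4 4 (.lc 4 4 (.lc 4 4 (.lc 4 4 (.lc 5 4 (.lc 5 4 (.lc 5 4 (.lc 5 4 (.lc 5 4 (.lc 5 4 .stop))))))))))))))))))))))))))))))))))))))))))))))))))))))))))))))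
 (.lc 3 0 (.lc 3 1 (.lc 3 11 (.lc 1 8 (.lc 1 8 (.lc 3 0 (.lc 3 11 (.lc 4 1 (.lc 4 11 (.lc 4 0 (.lc 4 12 .stop))))))))))))
 (.conf [132,145] (.conf [132,154] (.conf [132,154] (.conf [132,144] (.conf [132,144] (.conf [132,155] (.conf [132,149] (.conf [132,149] (.node [132,145] 9 1 .stop
 (.conf [154,160] (.conf [132,168] (.conf [132,168] (.conf [132,145] (.conf [132,154] (.conf [132,150] (.conf [132,144] (.conf [132,145] (.conf [132,155] (.node [132,149,66,112] 0 8 (.node [66] 7 0 (.far [1,0,1,4096,0,1,4112,4096,0,257] 16 (.far [1,4112,257] 0 (.lc 0 1 (.lc 3 0 (.node [122,161,22,122] 6 7 (.node [161] 1 6 .stop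
 (.lc 1 1 .stop))
 (.lc 3 0 .stop))))))
 (.lc 1 2 (.lc 0 0 .stop)))
 (.node [132,149,66,113] 1 8 (.lc 1 2 .stop)
 (.lc 0 5 (.node [132,149,66,122] 8 4 (.node [66] 7 10 (.node [112,164] 7 0 (.far [257,257,0,1,4096,0,4096] 0 (.far [1,257,0,1,4096,0,1,16,4096] 0 (.node [97,112] 10 4 (.lc 2 0 (.lc 1 2 (.node [66,171] 4 2 (.node [32] 10 11 (.far [4112,0,4112,0,1,256,257] 0 (.node [178,203,12] 11 2 .stop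
 .stop))
 (.lc 2 0 (.far [4112,1,0,0,4096,4096,4096,0,1,0,1,256] 0 .stop)))
 (.lc 2 2 (.lc 2 2 (.lc 1 0 (.lc 3 0 (.lc 1 0 (.node [66,180,203,66,172] 4 2 (.far [257,16,0,0,256,256,256,0,16,0,16,4096] 0 (.lc 2 0 (.lc 0 13 .stop)))
 (.lc 1 0 (.lc 2 2 (.lc 2 2 .stop))))))))))))
 (.lc 0 1 .stop))))
 (.node [113,164] 7 1 (.lc 0 1 .stop)
 (.lc 1 4 (.lc 2 5 (.node [123,164] 6 7 (.far [16,257,0,1,4096,0,4096] 0 (.conf [97,117,186] (.far [16,257,0,1,4096,0,4096] 0 (.lc 3 1 (.far [16,257,0,1,4096,0,4096] 0 (.node [27,97,117] 1 11 (.node [186] 10 4 (.node [66,160] 0 4 (.far [257,1,0,0,0,4096,4096,4096,0,1,4112,4096,0,257] 4096 .stop)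
 (.lc 1 2 (.lc 2 4 (.node [66,172] 11 10 (.far [1,4112,0,0,1,256,257] 0 (.conf [176,196,164] (.conf [176,196,164] (.node [196,220,189] 11 13 (.node [220] 12 4 (.node [194,220] 12 2 (.lc 0 0 .stop)
 (.lc 2 0 .stop))
 (.lc 2 12 (.lc 2 12 (.far [4112,4096,4112,1,257,0,256,256,256,0,256] 0 (.lc 2 12 (.lc 3 12 .stop))))))
 (.far [1,4112,0,0,1,256,257] 0 (.conf [176,196,164] .stop))))))
 (.lc 2 2 (.lc 2 2 (.lc 3 4 (.lc 3 4 (.lc 3 4 (.lc 1 0 (.node [66,196,220,66,173] 11 10 (.far [1,4112,0,0,1,256,257] 0 (.lc 3 0 (.lc 3 0 (.lc 1 12 (.lc 3 0 (.lc 4 0 .stop))))))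
 (.lc 1 0 (.lc 2 2 (.lc 3 4 (.lc 2 0 (.lc 2 0 (.lc 2 0 (.lc 4 4 (.lc 3 2 (.lc 2 0 (.lc 2 0 .stop)))))))))))))))))))))
 (.node [186,203] 11 10 (.far [257,256,1,4096,0,0,0,0,0,4096,0,0,257] 16 (.lc 2 4 (.node [205,218] 10 4 (.node [212] 13 4 (.node [210] 13 2 (.lc 0 0 .stop)
 (.lc 2 0 .stop))
 (.lc 2 2 (.lc 0 14 .stop)))
 .stop)))
 (.node [186,203,186] 10 4 (.lc 1 2 (.lc 2 4 (.node [196,203] 10 12 (.lc 0 1 .stop)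
 (.node [66,173] 11 10 (.far [1,4112,0,0,1,256,257] 0 (.conf [205,212] (.lc 3 1 (.conf [190,237] (.lc 0 13 (.lc 0 14 .stop))))))
 (.lc 2 2 (.lc 3 4 (.lc 3 4 (.lc 3 4 (.node [66,212,237,66,174] 11 10 (.far [1,4112,0,0,1,256,257] 0 (.lc 3 1 (.lc 3 1 (.lc 1 13 (.lc 3 1 (.lc 4 1 .stop))))))
 (.lc 1 0 (.lc 2 2 (.lc 3 4 (.lc 2 0 (.lc 4 4 (.lc 3 2 .stop)))))))))))))))
 (.far [257,257,0,0,0,0,0,257,4112,4096,0,257] 16 (.node [186,203,220] 11 10 (.far [257,272,4096,4096,0,0,0,0,0,4096,0,0,257] 16 (.lc 2 4 (.lc 0 14 .stop)))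
 .stop)))))
 (.conf [97,117,186] (.conf [97,117,186] .stop))))))))
 (.lc 2 4 (.lc 2 4 (.lc 3 5 (.lc 2 4 (.lc 2 4 (.lc 2 4 (.lc 2 4 (.lc 3 5 (.lc 0 1 (.lc 3 5 (.node [113,164] 7 1 (.lc 0 1 .stop)
 (.node [123,164,176,123] 6 7 (.node [176] 11 0 (.node [177] 6 11 (.node [] 10 4 (.lc 1 2 (.node [66,172] 4 2 (.node [32] 0 10 .stop
 (.far [4112,1,0,0,0,0,4096,4096,4096,0,1,0,1,256] 0 .stop))
 (.lc 2 2 (.lc 1 0 (.node [66,196,220,66,173] 4 2 (.far [257,16,0,0,0,0,256,256,256,0,16,0,16,4096] 0 (.lc 0 14 .stop))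
 (.lc 1 0 (.lc 2 2 .stop)))))))
 .stop)
 (.node [176,97] 10 4 (.lc 1 2 (.node [66,172] 4 2 (.node [32] 0 10 .stop
 (.far [4112,1,0,0,0,4096,4096,4096,0,1,0,1,256] 0 .stop))
 (.lc 2 2 (.lc 1 0 (.node [66,196,220,66,173] 4 2 (.far [257,16,0,0,0,256,256,256,0,16,0,16,4096] 0 (.lc 0 14 .stop))
 (.lc 1 0 (.lc 2 2 .stop)))))))
 (.conf [188,193] .stop)))
 (.lc 3 1 (.lc 3 1 (.lc 1 0 (.lc 3 1 (.lc 4 1 .stop))))))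
 (.lc 3 5 (.node [112,164,186] 7 0 (.far [4112,4112,4112,4112,0,16,257,4096,1,16,256] 0 .stop)
 (.node [164,186,203,124] 6 7 (.node [203] 6 12 (.node [203,186] 12 11 (.node [186] 1 11 (.node [186] 11 10 (.node [164] 10 4 (.node [66] 4 2 (.far [4096,4096,4096,1,4096,4096,0,0,0,0,0,0,0,4096,0,0,257] 4096 .stop)
 (.lc 2 2 (.lc 1 0 (.lc 1 0 .stop))))
 (.lc 2 4 (.conf [164,218] (.lc 1 0 .stop))))
 (.lc 2 1 (.conf [186,219] .stop)))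
 (.lc 2 10 (.far [4112,8208,4096,4112,4112,4112,0,16,0,4097,257,16,256] 4097 (.lc 2 10 (.lc 2 10 (.lc 3 10 .stop))))))
 (.conf [186,198] (.far [4112,4112,0,0,0,0,0,4112,1,256] 4097 (.conf [203,220] (.far [257,257,0,0,0,0,0,257,16,4096] 0 (.far [256,16,257,257,257,0,1,4112,256,16,1,4096] 0 (.conf [29,186,219] .stop)))))))
 (.lc 3 1 (.lc 1 11 (.lc 3 1 (.lc 1 11 (.lc 3 1 (.lc 4 1 (.lc 4 1 .stop))))))))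
 (.lc 2 4 (.lc 3 5 (.lc 2 4 (.lc 0 1 (.lc 2 4 (.lc 2 4 (.lc 3 5 (.lc 2 4 (.lc 3 5 (.lc 0 1 (.lc 3 5 (.lc 3 5 (.lc 4 5 (.lc 3 4 (.lc 3 4 (.lc 3 4 (.lc 3 4 (.lc 4 5 (.lc 3 4 (.lc 3 4 (.lc 4 5 (.lc 4 5 (.lc 4 5 (.lc 4 5 (.lc 4 5 (.lc 4 5 (.lc 0 1 (.lc 4 5 (.lc 4 5 (.lc 0 1 (.lc 4 5 (.lc 5 5 (.lc 5 5 .stop)))))))))))))))))))))))))))))))))))))))))))))))))))))
 (.lc 2 2 (.lc 2 2 (.lc 2 2 (.lc 0 0 (.lc 0 11 (.lc 2 2 (.lc 2 2 (.lc 3 2 (.lc 3 2 (.lc 3 2 (.lc 3 2 .stop))))))))))))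
 (.lc 0 0 (.lc 0 1 (.lc 0 10 (.conf [132,154] (.conf [132,155] (.conf [132,145] (.conf [132,155] (.conf [132,144] (.conf [132,156] (.lc 0 1 (.lc 0 10 (.lc 0 0 (.lc 0 11 (.lc 0 1 (.lc 0 10 (.lc 0 10 (.lc 0 0 (.lc 0 0 (.lc 0 11 (.lc 0 1 (.lc 0 10 (.lc 0 0 (.lc 0 1 (.lc 0 11 (.node [132,149,66,113] 8 4 (.far [257,256,16,4096] 4097 (.lc 1 0 (.lc 2 2 .stop)))
 (.conf [149,160,122] (.lc 0 5 (.node [132,149,168,66,112] 7 0 (.far [1,257,257,257,16,0,16,1,1] 16 (.lc 0 1 (.lc 3 0 (.node [123,177,22,123] 6 7 (.node [177] 1 6 .stop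
 (.lc 1 1 .stop))
 (.lc 3 0 .stop)))))
 (.conf [149,186,123] (.lc 0 10 (.lc 0 11 (.lc 0 1 (.lc 0 11 (.lc 0 0 (.lc 0 12 .stop))))))))))))))))))))))))))))))))))))))))))))))))))))))))))))
 (.lc 0 0 (.lc 0 1 (.lc 0 10 (.lc 0 0 (.lc 0 10 (.lc 2 8 (.lc 2 8 (.lc 0 1 (.lc 0 10 (.lc 0 0 (.lc 0 11 .stop))))))))))))
 (.lc 2 2 (.lc 2 2 (.lc 2 2 (.lc 2 2 (.lc 2 2 (.lc 2 2 (.lc 2 2 (.lc 2 2 (.lc 2 2 (.lc 2 2 (.lc 3 3 (.lc 3 3 (.lc 3 3 (.lc 3 2 (.lc 3 2 (.lc 3 2 (.lc 3 2 (.lc 3 2 (.lc 3 2 (.lc 3 2 (.lc 3 2 (.lc 3 2 (.lc 3 2 (.lc 4 3 (.lc 4 3 (.lc 4 3 (.lc 4 3 (.lc 3 2 (.lc 3 2 (.lc 3 2 (.lc 3 2 (.lc 3 2 (.lc 3 2 (.lc 3 2 (.lc 3 2 (.lc 3 2 (.lc 3 2 (.lc 3 2 (.lc 3 2 (.lc 3 2 (.lc 3 2 (.lc 4 2 (.lc 4 2 (.lc 4 2 (.lc 4 2 (.lc 4 2 (.lc 4 2 .stop)))))))))))))))))))))))))))))))))))))))))))))))))))))))))))))))))))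
 (.lc 2 4 (.lc 2 4 (.lc 2 4 (.lc 2 4 (.lc 2 4 (.lc 3 7 (.lc 1 2 (.lc 1 2 (.lc 3 0 (.lc 3 8 (.lc 3 1 (.node [103,112] 7 0 (.node [113] 6 7 (.node [100,113] 6 4 (.far [4112,4112,0,4112,1,256] 0 .stop)
 (.node [104,113] 7 1 (.far [257,16,272,4112,257,256,0,4112] 257 (.lc 0 4 (.lc 0 9 .stop)))
 (.conf [71,113] (.conf [72,100] (.conf [113,135] .stop)))))
 (.node [116,65] 7 4 (.node [65,66] 6 4 (.far [4112,256,0,4112,1,256] 0 .stop)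
 .stop)
 (.node [120,129] 6 7 (.node [104,129] 1 6 (.lc 0 1 .stop)
 (.conf [72,100] (.conf [105,152] .stop)))
 (.conf [65,116] (.conf [120,129] (.conf [65,116] (.node [120,129] 6 7 (.conf [104,129] (.lc 1 1 (.lc 1 1 .stop)))
 (.conf [65,120,132] (.conf [72,116] (.node [121,129,152,22,129] 6 7 (.conf [105,152] (.lc 1 8 (.lc 1 8 .stop)))
 .stop))))))))))
 (.lc 1 2 (.lc 1 2 (.lc 1 2 (.node [96,117] 6 0 (.lc 2 0 .stop)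
 (.lc 3 1 (.node [104,135,117] 6 8 (.node [96,135] 6 0 (.far [4112,4112,4112,1,256] 0 .stop)
 (.lc 2 1 (.node [100,135] 6 4 (.far [4112,4112,4112,1,256] 0 (.far [4112,4112,4112,1,256] 4097 (.far [4112,4112,4112,1,256] 0 .stop)))
 (.node [105,135] 6 9 (.far [4112,4112,4112,1,256] 0 (.lc 2 8 (.lc 2 8 (.lc 2 8 (.far [4112,4112,4112,1,256] 4097 (.far [4112,4112,4112,1,256] 0 (.far [4112,4112,4112,1,256] 0 (.lc 2 8 (.lc 2 8 (.lc 2 8 (.lc 3 8 (.lc 3 8 (.lc 3 8 (.lc 3 8 (.lc 3 8 .stop)))))))))))))))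
 (.lc 3 1 (.lc 2 7 (.lc 2 7 (.lc 2 7 (.lc 2 7 (.lc 3 1 (.lc 2 7 (.lc 2 7 (.lc 3 1 (.lc 2 7 (.lc 2 7 (.node [97,135,117] 7 5 (.far [16,0,16,0,16,1] 0 (.node [84,121] 5 4 (.far [257,16,0,16,0,16,1] 0 (.lc 2 2 (.lc 0 10 (.lc 2 2 (.lc 3 2 .stop)))))
 (.lc 2 3 (.lc 1 2 (.lc 3 10 (.lc 1 2 (.conf [84,149] (.lc 1 2 (.lc 2 3 (.lc 3 9 (.lc 3 10 (.lc 2 2 (.lc 2 2 (.lc 4 11 (.lc 3 3 (.lc 2 2 (.lc 2 2 (.lc 3 2 .stop))))))))))))))))))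
 (.conf [72,135] (.conf [97,135,152] (.lc 3 1 (.conf [64,100] (.conf [105,144] (.conf [72,135] (.lc 3 1 (.conf [72,135] (.node [96,135,152,135,117] 6 0 (.far [4112,4112,4112,1,256] 0 .stop)
 (.lc 3 1 (.conf [73,100] (.conf [106,169] (.lc 3 1 (.lc 2 7 (.lc 2 7 (.lc 2 7 (.lc 3 1 (.lc 2 7 (.lc 2 7 (.lc 2 7 (.lc 3 1 (.lc 2 7 (.lc 2 7 (.lc 2 7 (.lc 2 7 (.lc 2 7 (.node [97,135,117] 7 5 (.node [84,112] 0 5 .stop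
 (.far [16,0,16,0,16,1] 0 (.node [84,121] 5 4 (.far [257,16,0,16,0,16,1] 0 (.lc 2 2 (.lc 2 2 (.lc 0 10 (.lc 2 2 (.lc 3 2 .stop))))))
 (.lc 2 3 (.lc 1 2 (.lc 1 2 (.lc 3 0 (.lc 3 10 (.lc 1 2 (.conf [84,149] (.lc 1 2 (.lc 1 2 (.lc 2 3 (.lc 2 3 (.lc 3 9 (.lc 3 9 (.lc 3 10 (.lc 2 2 (.lc 2 2 (.lc 4 11 (.lc 3 3 (.lc 2 2 (.lc 2 2 (.lc 2 2 (.lc 2 2 (.lc 3 2 .stop))))))))))))))))))))))))))
 (.node [20,97,135,117] 1 4 (.node [66,72] 5 4 .stop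
 (.node [66,72,148,72] 5 4 .stop
 .stop))
 (.node [25,97,135,117] 1 9 (.node [152] 9 8 (.lc 2 0 (.node [135] 4 8 (.far [1,1,0,1,272,1,256] 0 (.lc 1 5 .stop))
 (.node [135] 8 7 (.far [4112,1,0,1,272,1,256] 0 (.lc 2 5 (.lc 2 5 (.lc 2 5 (.lc 0 4 (.lc 0 11 (.lc 2 5 (.lc 2 5 (.lc 3 5 (.lc 3 5 (.lc 3 5 .stop)))))))))))
 (.lc 2 6 (.lc 2 6 (.lc 2 6 (.lc 3 2 (.lc 3 10 (.lc 3 4 (.lc 3 11 (.lc 3 0 (.conf [72,135] (.lc 3 0 (.conf [135,168] (.conf [135,168] (.lc 1 5 (.lc 1 5 (.lc 1 5 (.lc 2 6 (.lc 2 6 (.lc 3 10 (.lc 3 4 (.lc 3 11 (.lc 2 5 (.lc 2 5 (.lc 2 5 (.lc 2 5 (.lc 2 5 (.lc 4 11 (.lc 4 11 (.lc 4 4 (.lc 4 12 (.lc 3 6 (.lc 3 6 (.lc 3 6 (.lc 2 5 (.lc 2 5 (.lc 2 5 (.lc 2 5 (.lc 2 5 (.lc 2 5 (.lc 2 5 (.lc 3 5 (.lc 3 5 (.lc 3 5 (.lc 3 5 .stop))))))))))))))))))))))))))))))))))))))))))))))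
 (.node [152,73] 5 4 (.far [257,0,0,16,0,16,1] 0 (.far [1,256,0,0,0,0,257,1] 16 (.node [66,90] 4 9 (.far [4112,1,256,0,0,0,0,257,1] 16 (.lc 2 1 (.conf [66,171] (.lc 1 5 .stop))))
 (.lc 2 2 (.lc 2 2 (.lc 3 3 (.lc 0 10 (.conf [91,186] (.lc 2 2 (.lc 3 3 (.lc 3 3 (.lc 4 3 (.lc 3 2 .stop)))))))))))))
 (.node [152,121] 7 5 (.lc 2 9 (.lc 1 2 .stop))
 (.node [152,169] 9 8 (.node [135,148] 4 8 (.far [1,1,0,1,272,1,256] 0 (.lc 1 5 (.lc 1 5 .stop)))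
 (.node [135,155] 8 7 (.far [4112,1,0,1,272,1,256] 0 (.lc 2 5 (.lc 2 5 (.lc 2 5 (.lc 0 4 (.lc 0 10 (.lc 0 12 (.lc 2 5 (.lc 2 5 (.lc 2 5 (.lc 3 5 (.lc 3 5 (.lc 3 5 (.lc 3 5 (.lc 3 5 (.lc 3 5 (.lc 3 5 .stop)))))))))))))))))
 (.lc 2 6 (.lc 2 6 (.lc 3 1 (.lc 3 1 (.conf [72,135] (.conf [75,148] (.conf [135,184] (.lc 1 5 (.lc 1 5 (.lc 2 6 (.lc 3 1 (.lc 3 1 (.lc 2 5 (.lc 2 5 (.lc 2 5 (.lc 4 1 (.lc 4 1 (.lc 4 1 (.lc 3 6 (.lc 3 6 (.lc 2 5 (.lc 2 5 (.lc 2 5 (.lc 2 5 (.lc 3 5 (.lc 3 5 (.lc 3 5 .stop)))))))))))))))))))))))))))))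
 (.node [66,73,152] 5 4 (.far [1,16,4112,4112,0,16,1] 0 (.lc 3 3 (.lc 0 9 (.conf [90,169] (.lc 3 3 (.lc 4 3 .stop))))))
 (.node [152,169,152] 9 8 (.node [135,148] 4 8 (.far [1,1,0,1,272,1,256] 0 (.lc 1 5 .stop))
 (.lc 2 1 (.node [135,155] 8 7 (.far [4112,1,0,1,272,1,256] 0 (.lc 2 5 (.lc 2 5 (.lc 2 5 (.lc 0 4 (.lc 0 12 (.lc 2 5 (.lc 2 5 (.lc 3 5 (.lc 3 5 (.lc 3 5 .stop)))))))))))
 (.lc 2 6 (.lc 2 6 (.lc 2 6 (.lc 3 2 (.lc 3 11 (.lc 3 4 (.lc 3 12 (.lc 3 1 (.conf [72,135] (.conf [135,184] (.lc 3 1 (.conf [135,184] (.lc 1 5 (.lc 1 5 (.lc 1 5 (.lc 2 6 (.lc 2 6 (.lc 3 11 (.lc 3 4 (.lc 3 12 (.lc 2 5 (.lc 2 5 (.lc 2 5 (.lc 2 5 (.lc 2 5 (.lc 4 12 (.lc 4 12 (.lc 4 4 (.lc 4 13 (.lc 3 6 (.lc 3 6 (.lc 3 6 (.lc 2 5 (.lc 2 5 (.lc 2 5 (.lc 2 5 (.lc 2 5 (.lc 2 5 (.lc 2 5 (.lc 3 5 (.lc 3 5 (.lc 3 5 (.lc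 3 5 .stop))))))))))))))))))))))))))))))))))))))))))))))
 (.node [66,73,152] 5 4 (.far [1,257,0,0,0,0,257,1] 16 (.lc 3 3 .stop))
 (.node [152,169] 9 8 (.node [135,148] 4 8 (.far [1,1,0,1,272,1,256] 0 (.lc 1 5 .stop))
 (.node [135,155] 10 9 (.far [16,257,257,258,0,4096,0,0,257] 16 (.lc 3 4 (.lc 3 7 (.lc 3 12 (.lc 1 8 (.lc 1 8 (.lc 3 4 (.lc 3 12 (.lc 4 12 (.lc 4 4 (.lc 4 13 .stop)))))))))))
 (.lc 2 6 (.lc 2 6 (.lc 3 1 (.lc 3 1 (.conf [72,135] (.conf [75,148] (.conf [135,184] (.lc 1 5 (.lc 1 5 (.lc 2 6 (.lc 3 1 (.lc 3 1 (.lc 2 5 (.lc 2 5 (.lc 2 5 (.lc 4 1 (.lc 4 1 (.lc 4 1 (.lc 3 6 (.lc 3 6 (.lc 2 5 (.lc 2 5 (.lc 2 5 (.lc 2 5 (.lc 3 5 (.lc 3 5 (.lc 3 5 .stop)))))))))))))))))))))))))))))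
 (.node [66,73,152,164] 5 4 (.far [1,256,0,0,0,0,257,1] 16 (.lc 3 3 .stop))
 (.node [66,74,152] 5 4 (.far [1,16,4112,4112,0,16,1] 0 (.lc 3 3 (.lc 0 10 (.lc 1 9 (.lc 3 3 (.lc 4 3 .stop))))))
 (.node [152,169,186] 9 8 (.node [135,148] 4 8 (.far [1,1,0,1,272,1,256] 0 (.lc 1 5 .stop))
 (.node [135,156] 10 9 (.far [16,257,272,4096,0,4096,0,0,257] 16 (.lc 3 4 (.lc 3 7 (.lc 3 13 (.lc 1 8 (.lc 1 8 (.lc 3 4 (.lc 3 13 (.lc 4 13 (.lc 4 4 (.lc 4 14 .stop)))))))))))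
 (.lc 2 6 (.lc 2 6 (.lc 3 1 (.lc 3 1 (.conf [72,135] (.conf [76,148] (.conf [135,200] (.lc 1 5 (.lc 1 5 (.lc 2 6 (.lc 3 1 (.lc 3 1 (.lc 2 5 (.lc 2 5 (.lc 2 5 (.lc 4 1 (.lc 4 1 (.lc 4 1 (.lc 3 6 (.lc 3 6 (.lc 2 5 (.lc 2 5 (.lc 2 5 (.lc 2 5 (.lc 3 5 (.lc 3 5 (.lc 3 5 .stop)))))))))))))))))))))))))))))
 .stop)))))))))))
 (.lc 3 7 (.lc 3 7 (.lc 3 7 (.lc 4 1 (.lc 3 7 (.lc 1 0 (.lc 3 7 (.lc 4 1 (.lc 3 7 (.lc 4 1 (.lc 3 7 (.lc 3 7 (.lc 3 7 (.lc 4 1 (.lc 3 7 (.lc 3 7 (.lc 4 1 (.lc 3 7 (.lc 3 7 (.conf [72,135] (.conf [72,135] (.conf [97,135,152] (.conf [73,135,152] (.conf [97,135,152] (.lc 3 7 (.lc 3 7 (.lc 3 7 (.lc 3 7 (.lc 3 7 (.lc 3 7 (.lc 3 7 (.lc 3 7 (.lc 3 7 (.lc 3 7 (.lc 3 7 (.lc 3 7 (.lc 3 7 (.lc 3 7 (.lc 3 7 (.lc 4 7 (.lc 4 7 (.lc 4 7 (.lc 4 7 (.lc 4 7 (.lc 4 7 (.lc 4 7 .stop)))))))))))))))))))))))))))))))))))))))))))))))))))))))))))))))))))))))))))))))))))))))))))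
 (.lc 2 4 (.lc 2 4 (.lc 2 4 (.lc 2 4 (.lc 2 4 (.lc 2 4 (.lc 2 4 (.lc 2 4 (.lc 3 7 (.lc 2 3 (.lc 2 3 (.lc 3 0 (.lc 3 8 (.lc 3 4 (.lc 3 4 (.lc 3 4 (.lc 3 4 (.lc 3 4 (.lc 3 4 (.lc 4 8 (.lc 2 2 (.lc 2 2 (.lc 2 2 (.lc 4 8 (.lc 4 0 (.lc 4 9 (.lc 3 4 (.lc 3 4 (.lc 3 4 (.lc 3 4 (.lc 3 4 (.lc 3 4 (.lc 3 4 (.lc 3 4 (.lc 3 4 (.lc 3 4 (.lc 3 4 (.lc 3 4 (.lc 4 4 (.lc 4 4 (.lc 4 4 (.lc 4 4 (.lc 4 4 .stop)))))))))))))))))))))))))))))))))))))))))))))))))))))))))))))))))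

theorem t20 : kNode2 awTt FTt 6 5 (check tyTt awTt triet FTt [] c20) (fun _ _ _ => true) 0 s20 Pl.nil s20 =
    true := by
  decide +kernel

end Chk
end Pool.Agent.Lib.MP_ba95e8_co
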