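import Pool.Agent.Lib.MP_ba95e8_co.ChkTab
import Pool.Agent.Lib.MP_ba95e8_co.ChkStates

/-!
Deltahedral domes: part 21 of the case analysis.
-/

namespace Pool.Agent.Lib.MP_ba95e8_co
namespace Chk

/-- certificate number 21 -/
def c21 : Cert := (.node [48,84,66] 3 0 (.lc 0 0 .stop)
 (.node [54,84,66] 3 6 (.node [101] 6 5 (.node [84,96] 0 5 (.node [66] 0 4 (.lc 1 0 (.node [100] 6 4 (.node [66] 4 2 .stop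
 (.far [4112,256,0,4112,1,256] 0 .stop))
 (.lc 2 2 .stop)))
 (.far [16,16,257,256,257,4096] 0 .stop))
 (.lc 2 1 (.node [84,103] 5 4 (.node [66] 7 4 (.node [112] 7 0 (.node [113] 6 7 (.lc 2 1 .stop)
 (.lc 2 0 (.node [120] 6 7 (.node [104] 6 8 (.node [] 0 4 (.far [16,0,0,0,16,16,0,0,0,4096] 0 (.node [66,132] 8 4 .stop
 .stop))
 (.node [128,152,97] 8 0 .stop
 (.far [4112,4112,0,0,0,4112,1,256] 0 (.far [257,257,0,0,0,257,16,4096] 0 (.node [128,152,169,97] 8 0 .stop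
 .stop)))))
 (.conf [97,112,128] (.lc 3 1 (.far [16,257,257,4096,4096] 0 (.far [1,4112,4112,256,256] 0 (.conf [97,112,128] .stop))))))
 (.lc 3 0 (.node [120,129,120] 6 7 (.node [129] 6 8 .stop
 (.lc 1 1 .stop))
 (.lc 0 1 (.conf [112,128,104] (.lc 3 0 (.node [120,129,22,120] 6 7 (.far [1,4112,4112,256,256] 0 (.lc 1 1 .stop))
 (.node [121,152,121,128] 6 7 (.far [1,4112,4112,256,256] 0 (.lc 3 1 (.lc 3 1 (.lc 1 8 (.lc 3 1 (.lc 4 1 .stop))))))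
 (.lc 0 1 (.node [120] 6 7 (.far [16,257,257,4096,4096] 4097 (.far [16,257,257,4096,4096] 4097 .stop))
 (.lc 0 1 (.far [4096,0,0,0,4096,0,0,257] 16 (.node [121,129,152,22,121,129] 6 7 (.node [152] 1 6 .stop
 (.lc 1 8 .stop))
 .stop)))))))))))))))
 (.node [113] 1 6 (.node [103] 6 7 (.node [113] 7 1 .stop
 (.far [4112,1,0,0,4112,1,256] 17 (.far [4112,1,0,0,4112,1,256] 0 .stop)))
 (.lc 1 1 (.node [103,134,103] 6 7 (.far [257,16,0,0,257,16,4096] 0 (.lc 0 9 .stop))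
 .stop)))
 (.lc 1 2 (.lc 2 4 (.node [120] 4 2 (.far [1,0,0,0,0,0,1,1] 4096 (.far [257,16,16,0,0,0,4096] 0 (.node [73] 8 4 (.far [16,257,16,16,0,0,0,4096] 0 (.conf [128,146,66] (.conf [129,146,66] (.conf [138,146,66] (.far [16,257,16,16,0,0,0,4096] 0 (.far [16,257,16,16,0,0,0,4096] 0 (.node [128,66] 8 0 (.node [129] 7 8 (.node [113] 7 1 (.lc 0 1 .stop)
 (.lc 0 1 (.lc 3 4 (.lc 3 4 .stop))))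
 (.node [128,113] 7 1 (.lc 0 1 .stop)
 (.conf [138,161] (.lc 0 4 .stop))))
 (.node [138,169,66] 7 8 (.node [112,138,169] 0 8 (.node [169] 7 0 (.far [4112,0,4112,0,0,4112,256,256] 0 .stop)
 (.lc 1 9 (.lc 1 9 .stop)))
 (.node [113,138,169] 1 8 (.lc 1 9 .stop)
 (.lc 2 4 (.node [123,138,169] 8 10 (.node [169] 6 7 (.node [107] 6 11 (.node [186] 11 10 (.node [169] 1 10 (.far [16,256,16,4096,0,4112,257,0,4096] 0 .stop)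
 (.far [4112,1,256,256,256] 4097 (.lc 2 8 (.lc 3 8 .stop))))
 (.lc 2 6 (.far [4112,4112,0,0,0,0,0,0,4112,1,256] 4097 (.far [4112,4112,0,0,0,0,0,0,4112,1,256] 0 (.lc 2 8 .stop)))))
 (.conf [97,116,186] (.far [16,0,257,0,0,257,4096,4096] 0 (.lc 3 1 (.far [16,0,257,0,0,257,4096,4096] 0 (.far [1,0,4112,0,0,4112,256,256] 0 (.conf [97,116,186] (.conf [97,116,186] .stop))))))))
 (.lc 2 9 (.lc 2 9 (.lc 2 9 (.lc 0 0 (.lc 0 12 (.lc 2 9 (.lc 2 9 (.lc 3 9 (.lc 3 9 (.lc 3 9 (.lc 3 9 .stop))))))))))))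
 (.conf [132,169] (.conf [132,169] (.lc 3 4 (.lc 0 1 (.lc 3 4 (.node [113,138,169] 7 1 (.lc 0 1 .stop)
 (.node [123,138,176,169,123] 0 8 .stop
 (.lc 3 4 (.conf [138,184] (.conf [138,184] (.node [132,169,146,112] 7 0 (.far [257,257,0,0,257,4096,4096] 0 (.far [1,257,0,0,257,4096,1,16,4096] 0 (.node [97] 10 9 (.node [9] 0 9 (.lc 1 0 .stop)
 (.lc 2 2 (.lc 2 2 .stop)))
 (.lc 0 1 .stop))))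
 (.node [132,169,146,113] 7 1 (.lc 0 1 .stop)
 (.lc 3 4 (.node [132,169,146,123] 10 9 (.node [146] 7 11 (.far [257,0,257,0,0,257,4096,4096] 0 (.lc 2 9 (.node [27,97] 1 11 (.node [185] 11 9 (.node [146] 9 2 (.far [257,16,0,0,16,0,4096,4096] 0 .stop)
 (.lc 2 2 (.lc 2 2 (.far [4112,1,4096,256,16,0,0,4112,256,256] 0 (.lc 2 2 .stop)))))
 (.lc 2 1 (.node [185,203,185] 11 9 (.far [257,16,256,4096,1,0,0,257,4096,4096] 0 (.lc 2 2 (.lc 0 13 .stop)))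
 .stop)))
 (.lc 2 9 (.lc 0 1 (.lc 2 9 (.lc 3 9 (.lc 3 9 .stop))))))))
 (.lc 2 2 (.lc 2 2 (.lc 2 2 (.lc 0 0 (.lc 0 12 (.lc 2 2 (.lc 2 2 (.lc 3 2 (.lc 3 2 (.lc 3 2 (.lc 3 2 .stop))))))))))))
 (.lc 3 4 (.lc 3 4 (.node [132,169,146,113] 7 1 (.lc 0 1 .stop)
 (.conf [132,176,123] (.lc 4 4 (.node [132,169,186,146,112] 7 0 (.far [4112,4112,1,4112,4096,257,256,1,257,256] 0 .stop)
 (.conf [132,203,124] (.lc 4 4 (.lc 4 4 (.lc 4 4 (.lc 4 4 (.lc 4 4 (.lc 0 1 (.lc 4 4 (.lc 5 4 (.lc 5 4 .stop))))))))))))))))))))))))))))))))))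
 (.conf [129,146,66] (.conf [138,146,66] (.conf [128,146,66] (.conf [139,146,66] .stop))))))))))))
 (.far [4096,1,4096,1,4112,4096,0,257] 4096 (.node [73,144,73] 4 9 (.far [4112,4096,1,4096,1,4112,4096,0,257] 4096 (.lc 0 1 (.lc 0 10 (.lc 0 10 (.lc 2 0 (.lc 0 11 .stop))))))
 (.node [66,137,146] 9 2 (.far [1,4096,1,4096,1,4112,4096,0,257] 4096 (.lc 3 10 (.node [160] 7 8 (.node [113,137] 1 8 .stop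
 (.lc 2 4 (.node [137,160,168] 10 8 (.lc 0 2 .stop)
 (.node [123,137] 8 9 (.far [257,16,0,1,4112,16,0,0,0,4096] 0 (.lc 2 10 (.lc 2 10 (.lc 2 2 (.lc 0 12 (.lc 2 10 (.lc 3 10 .stop)))))))
 (.lc 2 4 (.lc 2 4 (.lc 0 1 (.lc 3 4 (.lc 3 4 (.conf [137,184] (.lc 2 4 (.lc 3 4 (.lc 2 4 (.lc 3 4 (.lc 3 4 (.lc 4 4 (.lc 3 4 (.lc 4 4 (.lc 4 4 (.lc 4 4 (.lc 0 1 (.lc 4 4 (.lc 5 4 .stop)))))))))))))))))))))))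
 (.lc 3 10 (.lc 4 11 .stop)))))
 (.node [32,74,169,74,146] 4 10 (.node [169] 9 2 (.far [1,4112,4096,1,4096,1,4112,4096,0,257] 4096 (.lc 3 8 (.lc 3 11 (.node [176] 10 9 (.node [155,161] 10 1 .stop
 (.lc 1 2 (.node [155,172] 8 10 (.far [16,257,0,256,1,16,16,0,0,0,4096] 0 (.lc 3 1 (.lc 3 11 (.lc 3 13 (.lc 1 9 (.lc 3 13 (.lc 4 14 .stop)))))))
 (.lc 2 11 (.lc 2 11 (.lc 2 2 (.conf [155,201] (.lc 2 2 (.conf [155,201] (.lc 2 11 (.lc 2 11 (.lc 2 11 (.lc 2 11 (.lc 0 4 (.lc 2 11 (.lc 0 1 (.lc 0 11 (.lc 0 12 (.lc 3 11 (.lc 0 12 (.lc 0 13 (.lc 0 12 (.lc 0 13 (.lc 0 6 (.lc 0 1 (.lc 0 13 (.lc 3 11 (.lc 0 14 .stop))))))))))))))))))))))))))))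
 (.lc 3 11 (.lc 4 12 .stop))))))
 (.lc 0 0 (.lc 0 1 (.lc 0 11 (.lc 0 0 (.lc 0 11 (.lc 2 9 (.lc 2 9 (.lc 0 1 (.lc 0 11 (.lc 0 0 (.lc 0 12 .stop))))))))))))
 (.lc 3 2 (.lc 3 2 (.far [4096,1,4096,1,4112,4096,0,257] 4096 (.node [73,144,73] 4 9 (.far [4112,4096,1,4096,1,4112,4096,0,257] 4096 (.lc 0 1 (.lc 0 10 (.lc 0 10 (.lc 2 0 (.lc 0 11 .stop))))))
 (.node [66,137,146] 7 8 (.node [112,137] 0 8 (.node [146] 7 0 (.far [4112,0,4112,0,4112,256,256] 0 .stop)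
 (.lc 1 2 .stop))
 (.node [113,137] 1 8 (.lc 1 2 .stop)
 (.lc 2 4 (.node [122,137] 8 9 (.node [146] 6 7 (.node [106] 6 10 (.node [169] 10 9 (.node [146] 1 9 .stop
 (.far [4112,1,256,256,256] 4097 .stop))
 (.lc 2 6 (.far [4112,4112,0,0,0,0,0,4112,1,256] 4097 (.far [4112,4112,0,0,0,0,0,4112,1,256] 0 .stop))))
 (.conf [97,116,169] (.far [16,0,257,0,257,4096,4096] 0 (.lc 3 1 (.far [16,0,257,0,257,4096,4096] 0 (.far [1,0,4112,0,4112,256,256] 0 (.conf [97,116,169] (.conf [97,116,169] .stop))))))))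
 (.lc 2 2 (.lc 2 2 (.lc 2 2 (.lc 0 0 (.lc 0 11 (.lc 2 2 (.lc 2 2 (.lc 3 2 (.lc 3 2 (.lc 3 2 (.lc 3 2 .stop))))))))))))
 (.lc 2 4 (.lc 2 4 (.lc 3 4 (.lc 0 1 (.lc 3 4 (.node [113,137] 7 1 (.lc 0 1 .stop)
 (.node [122,137,160,122] 0 8 .stop
 (.lc 3 4 (.conf [137,168] (.conf [137,168] (.lc 2 4 (.lc 2 4 (.lc 3 4 (.lc 2 4 (.lc 3 4 (.lc 3 4 (.lc 3 4 (.lc 3 4 (.lc 4 4 (.lc 3 4 (.lc 3 4 (.lc 4 4 (.lc 4 4 (.lc 4 4 (.lc 4 4 (.lc 4 4 (.lc 0 1 (.lc 4 4 (.lc 5 4 (.lc 5 4 .stop))))))))))))))))))))))))))))))))))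
 (.node [74,169,74,146] 4 10 (.node [169] 10 9 (.node [146,160] 10 0 (.node [128] 0 9 (.node [146] 8 9 .stop
 .stop)
 (.lc 0 1 (.lc 0 1 (.lc 0 11 (.far [257,257,513,257,32,272,16,0,16,4096] 4097 (.lc 0 11 .stop))))))
 (.node [146,161] 10 1 .stop
 (.node [146,171] 8 10 (.node [139] 9 2 (.far [1,0,0,4112,4096,1,4096,1,4112,4096,0,257] 4096 (.node [32,156] 11 9 (.node [188] 12 2 (.far [1,1,4096,1,4096,4096,0,1,4096,1,4112,4096,0,257] 4096 (.lc 3 13 (.node [205,208] 11 12 (.node [177,205] 1 12 .stop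
 (.lc 2 8 (.lc 1 2 (.node [190,205] 8 11 (.node [142] 7 8 (.node [126] 14 12 (.far [1,0,0,1,4112,256,256] 0 (.lc 1 0 .stop))
 (.conf [116,132,236] (.far [16,257,0,0,0,0,257,0,4096,0,4096] 0 (.conf [116,132,236] .stop))))
 (.conf [132,184,236] (.far [16,257,0,257,0,4096,4096] 0 .stop)))
 (.conf [190,208,237] (.lc 2 2 (.conf [205,236] (.lc 2 2 (.conf [205,236] (.lc 1 0 (.lc 3 8 (.lc 1 0 (.far [4096,4112,16,256,256,256] 0 (.node [132,184,205] 7 12 .stop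
 (.lc 2 0 (.lc 2 0 (.lc 2 0 .stop)))))))))))))))))
 (.lc 3 13 (.lc 4 14 .stop)))))
 (.lc 3 0 (.lc 3 1 (.lc 3 13 (.lc 1 2 (.lc 1 2 (.lc 3 0 (.lc 3 13 (.lc 4 1 (.lc 4 13 (.lc 4 0 (.lc 4 14 .stop))))))))))))
 (.conf [156,192] (.lc 3 2 (.lc 3 2 (.conf [156,192] (.conf [32,194] (.node [156] 11 9 (.far [16,257,16,256,16,4096] 17 (.lc 3 1 (.lc 3 13 (.lc 1 0 (.lc 3 13 (.lc 4 14 .stop))))))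
 (.lc 3 2 (.lc 3 2 (.lc 3 2 (.conf [157,220] (.lc 4 2 (.lc 4 2 (.lc 4 2 (.lc 4 2 (.lc 4 2 (.lc 5 2 .stop))))))))))))))))))
 (.lc 3 0 (.lc 3 1 (.lc 3 12 (.lc 1 9 (.lc 1 9 (.lc 3 0 (.lc 3 12 (.lc 4 1 (.lc 4 12 (.lc 4 0 (.lc 4 13 .stop))))))))))))
 (.conf [146,161] (.conf [146,171] (.conf [146,171] (.conf [146,160] (.conf [146,172] (.conf [146,164] (.conf [146,164] (.node [146,161] 10 1 .stop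
 (.conf [171,176] (.conf [146,185] (.conf [146,185] (.conf [146,161] (.conf [146,171] (.conf [146,166] (.conf [146,160] (.conf [146,161] (.conf [146,172] (.node [146,164,128] 0 9 (.far [257,4096,4096,0,1,4096,1,4112,4096,0,257] 4096 .stop)
 (.node [146,164,129] 1 9 .stop
 (.lc 0 4 (.node [146,164,139] 9 2 (.node [32] 11 2 (.far [1,4096,4096,4096,0,1,4096,1,4112,4096,0,257] 4096 (.lc 3 12 (.node [188,192] 8 11 (.node [129,188] 1 11 .stop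
 (.lc 2 4 (.lc 1 2 (.node [141,188] 11 12 (.far [4112,1,4112,256,257] 0 (.lc 2 0 (.lc 2 0 (.lc 0 14 (.lc 2 0 (.lc 3 0 .stop))))))
 (.lc 2 2 (.lc 3 4 (.lc 3 4 (.lc 2 2 (.conf [188,219] (.lc 2 2 (.lc 3 4 (.lc 2 2 (.lc 3 4 (.lc 3 4 (.lc 3 2 (.lc 4 4 (.lc 4 4 (.lc 4 4 (.lc 5 4 .stop)))))))))))))))))))
 (.lc 3 12 (.lc 4 13 .stop)))))
 (.lc 0 0 (.lc 0 0 (.lc 0 12 (.far [257,256,16,4096] 17 (.lc 0 12 .stop))))))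
 (.lc 0 0 (.lc 0 1 (.lc 0 11 (.conf [146,171] (.conf [146,172] (.conf [146,161] (.conf [146,172] (.conf [146,160] (.conf [146,173] (.lc 0 1 (.lc 0 11 (.lc 0 0 (.lc 0 12 (.lc 0 1 (.lc 0 11 (.lc 0 11 (.lc 0 0 (.lc 0 12 (.lc 0 1 (.lc 0 11 (.lc 0 6 (.lc 0 0 (.lc 0 1 (.lc 0 12 (.node [146,164,129] 9 2 (.far [257,256,16,4096] 4097 .stop)
 (.conf [164,176,139] (.node [146,164,185,128] 8 0 (.far [1,257,257,257,16,256,16,0,16,1,1] 16 (.lc 3 0 (.node [140,193,22,140] 7 8 (.node [193] 11 9 (.conf [32,178] (.lc 3 13 .stop))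
 (.lc 3 4 (.lc 1 1 .stop)))
 (.lc 4 0 .stop))))
 (.conf [164,203,140] (.lc 0 11 (.lc 0 12 (.lc 0 1 (.lc 0 12 (.lc 0 0 (.lc 0 13 .stop))))))))))))))))))))))))))))))))))))))))))))))))))))))))))
 (.lc 0 0 (.lc 0 1 (.lc 0 11 (.lc 0 0 (.lc 0 11 (.lc 2 9 (.lc 2 9 (.lc 0 1 (.lc 0 11 (.lc 0 0 (.lc 0 12 .stop))))))))))))
 (.far [257,16,16,0,0,0,4096] 17 (.node [73] 4 9 (.far [257,257,16,16,0,0,0,4096] 17 (.conf [129,144,66] (.conf [138,144,66] (.node [138,169,66] 7 8 (.node [113,138,169] 1 8 .stop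
 (.lc 2 4 (.node [123,138,169] 8 10 (.far [257,16,257,257,4128,272,16,0,16,4096] 17 (.lc 2 9 (.lc 2 9 (.lc 0 12 (.lc 2 9 (.lc 3 9 .stop))))))
 (.conf [132,169] (.lc 0 1 (.lc 3 4 (.lc 3 4 (.conf [138,184] (.node [132,169,144,113] 7 1 (.lc 0 1 .stop)
 (.lc 3 4 (.node [132,169,144,123] 10 9 (.node [144] 7 11 (.far [257,0,257,0,0,257,4096,4096] 0 (.lc 2 9 (.far [257,257,256,1,257,0,4112,4096,16,4112,4096] 17 (.lc 0 1 (.lc 2 9 (.lc 3 9 .stop))))))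
 (.lc 2 0 (.lc 2 0 (.lc 0 12 (.lc 2 0 (.lc 3 0 .stop))))))
 (.lc 3 4 (.lc 3 4 (.lc 4 4 (.conf [132,203,124] (.lc 4 4 (.lc 4 4 (.lc 4 4 (.lc 0 1 (.lc 4 4 (.lc 5 4 .stop)))))))))))))))))))))
 (.far [257,257,16,16,0,0,0,4096] 17 (.conf [139,144,66] .stop))))))
 (.conf [66,137,146] (.node [32,74,146,169] 4 10 (.far [257,257,16,16,0,0,0,4096] 0 (.lc 2 9 (.lc 2 9 (.lc 2 9 (.node [128] 2 0 .stop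
 (.node [139,186] 9 2 (.node [144] 7 8 (.node [112,139,186] 0 8 .stop
 (.node [113,139,186] 1 8 (.lc 1 10 .stop)
 (.lc 2 4 (.node [124,139,186] 8 11 (.far [257,16,0,257,257,4128,272,16,0,16,4096] 0 (.lc 2 10 (.lc 2 10 (.lc 2 10 (.lc 0 13 (.lc 2 10 (.lc 3 10 (.lc 3 10 .stop))))))))
 (.conf [132,186] (.lc 0 1 (.lc 3 4 (.node [113,139,186] 7 1 (.lc 0 1 .stop)
 (.lc 3 4 (.conf [139,200] (.node [132,186,169,112,144] 7 0 (.far [257,257,0,257,257,256,4112,4096,16,4112,4096] 0 .stop)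
 (.node [132,186,169,113,144] 7 1 (.lc 0 1 .stop)
 (.lc 3 4 (.node [132,186,169,124,144] 11 10 (.node [169] 7 12 (.far [257,0,257,0,0,0,257,4096,4096] 0 (.lc 2 10 (.far [257,257,256,0,1,257,0,4112,4096,16,4112,4096] 0 (.lc 0 1 (.lc 2 10 (.lc 3 10 (.lc 3 10 .stop)))))))
 (.lc 2 9 (.lc 2 9 (.lc 2 9 (.lc 0 13 (.lc 2 9 (.lc 3 9 (.lc 3 9 .stop))))))))
 (.lc 3 4 (.lc 3 4 (.node [132,186,169,113,144] 7 1 (.lc 0 1 .stop)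
 (.lc 4 4 (.conf [132,220,125] (.lc 4 4 (.lc 4 4 (.lc 4 4 (.lc 4 4 (.lc 0 1 (.lc 4 4 (.lc 5 4 (.lc 5 4 .stop)))))))))))))))))))))))))))
 (.lc 3 11 (.lc 3 12 (.node [156,192,156,169,186,139] 7 8 (.node [113,139] 1 8 .stop
 (.lc 2 4 (.lc 0 0 (.node [125,139] 8 11 (.far [257,16,0,257,257,4128,272,16,0,16,4096] 0 (.lc 2 10 (.lc 2 10 (.lc 2 10 (.lc 0 14 (.lc 2 10 (.lc 3 10 .stop)))))))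
 (.lc 2 4 (.lc 0 1 (.lc 3 4 (.lc 3 4 (.conf [139,216] (.lc 2 4 (.lc 3 4 (.lc 2 4 (.lc 2 4 (.lc 3 4 (.lc 3 4 (.lc 4 4 (.lc 3 4 (.lc 4 4 (.lc 4 4 (.lc 4 4 (.lc 0 1 (.lc 4 4 (.lc 5 4 .stop)))))))))))))))))))))))
 (.lc 3 12 (.lc 4 13 .stop))))))
 (.lc 2 9 (.lc 2 9 (.lc 3 9 (.lc 3 9 (.lc 3 9 (.lc 3 9 .stop))))))))))))
 (.lc 3 2 (.lc 3 2 (.lc 3 2 (.lc 3 2 (.node [66,137,144] 7 8 (.node [113,137] 1 8 .stop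
 (.lc 2 4 (.node [122,137] 8 9 (.far [257,16,257,4128,272,16,0,16,4096] 17 (.lc 2 0 (.lc 2 0 (.lc 0 11 (.lc 2 0 (.lc 3 0 .stop))))))
 (.lc 2 4 (.lc 0 1 (.lc 3 4 (.lc 3 4 (.conf [137,168] (.lc 2 4 (.lc 3 4 (.lc 2 4 (.lc 3 4 (.lc 3 4 (.lc 4 4 (.lc 3 4 (.lc 4 4 (.lc 4 4 (.lc 4 4 (.lc 0 1 (.lc 4 4 (.lc 5 4 .stop)))))))))))))))))))))
 (.node [74,169,74,144] 4 10 (.node [169] 10 9 (.node [144,161] 10 1 .stop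
 (.node [144,171] 8 10 (.far [16,257,513,257,32,272,16,0,16,4096] 17 (.lc 3 1 (.lc 3 12 (.lc 1 9 (.lc 3 12 (.lc 4 13 .stop))))))
 (.conf [144,171] (.conf [144,172] (.conf [144,164] (.conf [144,185] (.conf [144,166] (.conf [144,161] (.conf [144,172] (.node [144,164,129] 1 9 (.far [1,4096,1,256] 17 .stop)
 (.lc 0 4 (.node [144,164,139] 11 9 (.far [1,4096,1,256] 17 (.lc 3 1 (.node [177] 11 1 (.far [16,4112,256,256,0,16,256,16,1,256] 4097 (.lc 3 7 (.lc 3 12 .stop)))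
 (.lc 3 1 (.lc 3 12 (.lc 4 12 .stop))))))
 (.lc 0 1 (.lc 0 11 (.conf [144,173] (.lc 0 12 (.lc 0 11 (.lc 0 12 (.lc 0 6 (.lc 0 1 (.lc 0 12 (.conf [164,203,140] (.lc 0 13 .stop)))))))))))))))))))))))
 (.lc 0 1 (.lc 0 11 (.lc 0 11 (.lc 2 9 (.lc 0 12 .stop))))))
 (.node [66,138,169,146] 9 2 (.node [144] 7 8 (.node [112,138] 0 8 .stop
 (.node [113,138] 1 8 (.lc 1 9 .stop)
 (.lc 2 4 (.node [123,138] 8 10 (.far [257,16,0,257,4128,272,16,0,16,4096] 0 (.lc 2 9 (.lc 2 9 (.lc 2 9 (.lc 0 12 (.lc 2 9 (.lc 3 9 (.lc 3 9 .stop))))))))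
 (.lc 2 4 (.lc 0 1 (.lc 3 4 (.node [113,138] 7 1 (.lc 0 1 .stop)
 (.lc 3 4 (.conf [138,184] (.lc 2 4 (.lc 2 4 (.lc 3 4 (.lc 2 4 (.lc 3 4 (.lc 3 4 (.lc 3 4 (.lc 4 4 (.lc 3 4 (.lc 4 4 (.lc 4 4 (.lc 4 4 (.lc 4 4 (.lc 0 1 (.lc 4 4 (.lc 5 4 (.lc 5 4 .stop)))))))))))))))))))))))))))
 (.lc 3 11 (.conf [155,176] (.lc 3 11 (.lc 4 12 .stop)))))
 (.node [32,75,146,169,186,75,169,146] 4 11 (.node [186] 9 2 (.node [144] 11 10 (.node [169,176] 11 0 (.lc 0 1 .stop)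
 (.node [169,177] 11 1 .stop
 (.node [169,188] 8 11 (.far [16,257,0,513,257,32,272,16,0,16,4096] 0 (.lc 3 0 (.lc 3 1 (.lc 3 13 (.lc 1 10 (.lc 3 13 (.lc 4 1 (.lc 4 14 .stop))))))))
 (.lc 2 9 (.lc 2 9 (.lc 2 9 (.lc 2 9 (.lc 3 4 (.node [169,177] 11 1 .stop
 (.conf [169,202] (.lc 2 9 (.lc 2 9 (.lc 2 9 (.lc 2 9 (.lc 2 9 (.lc 2 9 (.lc 2 9 (.lc 0 4 (.lc 2 9 (.lc 0 0 (.lc 0 1 (.lc 0 12 (.lc 3 9 (.lc 3 9 (.lc 3 9 (.lc 0 1 (.lc 0 13 (.lc 0 1 (.lc 0 12 (.lc 0 12 (.lc 0 13 (.lc 0 1 (.lc 0 6 (.lc 0 0 (.lc 0 1 (.lc 0 13 (.lc 3 9 (.lc 3 9 (.lc 0 12 (.lc 0 1 (.lc 0 14 .stop)))))))))))))))))))))))))))))))))))))))))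
 (.lc 3 8 (.lc 3 12 (.conf [156,192] (.lc 3 12 (.lc 4 13 .stop))))))
 (.lc 0 0 (.lc 0 1 (.lc 0 12 (.lc 0 0 (.lc 0 12 (.lc 2 10 (.lc 2 10 (.lc 0 1 (.lc 0 12 (.lc 0 0 (.lc 0 13 .stop))))))))))))
 (.lc 4 2 (.lc 4 2 (.lc 4 2 (.lc 4 2 (.lc 4 2 (.lc 4 2 (.lc 4 2 (.lc 4 2 (.lc 5 2 (.lc 5 2 .stop)))))))))))))))))))))))))))))))))))
 (.lc 2 2 (.lc 2 2 (.lc 2 2 (.lc 2 2 (.lc 2 2 (.lc 2 2 (.lc 3 1 (.lc 3 8 (.lc 2 2 (.lc 2 2 (.lc 3 0 (.lc 3 1 (.lc 3 9 (.node [113] 7 1 (.lc 0 1 .stop)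
 (.node [120,128] 8 0 (.node [129] 7 8 (.node [114,129] 7 2 .stop
 (.lc 2 4 (.node [121,129] 8 1 (.far [257,16,272,4112,256,16,257,256,0,4112] 257 (.lc 0 6 (.lc 0 10 .stop)))
 (.lc 3 4 (.lc 2 0 (.conf [129,152] (.conf [129,152] (.lc 0 1 (.lc 0 1 .stop)))))))))
 (.far [4112,16,256,16,1,256] 0 (.node [137,145] 7 8 (.node [121,145] 7 9 (.far [4112,4112,0,4112,256,256] 0 (.lc 2 1 .stop))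
 (.lc 3 4 (.conf [122,169] .stop)))
 (.conf [137,145] (.node [137,145] 7 8 (.conf [121,145] (.lc 3 4 (.lc 1 1 .stop)))
 (.node [138,145,169,22,145] 7 8 (.conf [122,169] (.lc 3 4 (.lc 1 9 .stop)))
 .stop))))))
 (.lc 3 4 (.lc 2 2 (.lc 2 2 (.node [112,132] 7 0 (.node [113] 6 7 (.lc 2 1 .stop)
 (.lc 0 1 (.lc 3 0 (.node [121,145,22,121] 6 7 (.far [1,4112,4112,256,256] 0 (.lc 1 1 .stop))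
 (.far [4112,4112,256,16,1,256] 0 .stop)))))
 (.node [121,152,132] 7 9 (.node [112,152] 7 0 (.far [4112,4112,4112,256,256] 0 (.far [16,4112,4112,256,16,1,256] 0 (.far [4112,4112,4112,256,256] 0 (.lc 0 1 .stop))))
 (.node [113,152] 7 1 (.lc 0 1 .stop)
 (.node [114,152] 7 2 .stop
 (.lc 2 4 (.node [122,152] 6 7 (.far [1,4112,4112,256,256] 0 (.lc 1 9 (.lc 1 9 (.lc 3 1 (.lc 1 9 (.far [1,4112,4112,256,256] 0 (.lc 2 9 (.lc 2 9 .stop))))))))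
 (.lc 2 8 (.lc 2 8 (.lc 3 4 (.lc 2 8 (.lc 2 8 (.lc 2 8 (.lc 2 8 (.lc 2 8 (.node [116,152,132,96] 6 0 (.far [4112,4112,4112,256,16,1,256] 0 .stop)
 (.lc 0 1 (.conf [106,152,169] (.node [113,152] 7 1 (.lc 0 1 .stop)
 (.conf [122,160] (.lc 3 4 (.node [112,152] 4 2 .stop
 (.node [112,152,169,152,132] 7 0 (.far [4112,4112,4112,256,256] 0 .stop)
 (.conf [123,186] (.lc 2 8 (.lc 3 4 (.lc 2 8 (.lc 0 1 (.lc 2 8 (.lc 2 8 (.lc 2 8 (.lc 2 8 (.lc 3 4 (.lc 2 8 (.lc 2 8 (.lc 0 1 (.lc 2 8 (.lc 2 8 (.far [4112,4112,256,16,1,256] 0 (.lc 4 4 (.lc 3 8 (.lc 3 8 (.lc 3 8 (.lc 3 8 (.lc 3 8 (.lc 4 4 (.lc 3 8 (.lc 3 8 (.lc 3 8 (.far [4112,4112,256,16,1,256] 4097 (.conf [26,152,169] (.lc 3 8 (.lc 3 8 (.lc 3 8 (.lc 3 8 (.lc 0 1 (.lc 3 8 (.lc 3 8 (.lc 3 8 (.lc 0 1 (.lc 3 8 (.lc 4 8 (.lc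 4 8 .stop)))))))))))))))))))))))))))))))))))))))))))))))))))))))))))))
 (.lc 2 2 (.lc 2 2 (.lc 2 2 (.lc 2 2 (.lc 2 2 (.lc 2 2 (.lc 2 2 (.lc 2 2 (.lc 2 2 (.lc 2 2 (.lc 2 2 (.lc 2 2 (.lc 2 2 (.lc 2 2 (.lc 3 1 (.lc 3 8 (.lc 3 8 (.lc 2 2 (.lc 2 2 (.lc 3 0 (.lc 3 9 (.lc 3 2 (.lc 3 2 (.lc 3 2 (.lc 3 2 (.lc 3 2 (.lc 3 2 (.lc 3 2 (.lc 3 2 (.lc 4 8 (.lc 4 9 (.lc 3 2 (.lc 3 2 (.lc 4 1 (.lc 4 9 (.lc 4 0 (.lc 4 10 (.lc 3 2 (.lc 3 2 (.lc 3 2 (.lc 3 2 (.lc 3 2 (.lc 3 2 (.lc 3 2 (.lc 3 2 (.lc 3 2 (.lc 3 2 (.lc 3 2 (.lc 3 2 (.lc 3 2 (.lc 3 2 (.lc 3 2 (.lc 3 2 (.lc 3 2 (.lc 3 2 (.lc 3 2 (.lc 3 2 (.lc 3 2 (.lc 4 2 (.lc 4 2 (.lc 4 2 (.lc 4 2 (.lc 4 2 (.lc 4 2 (.lc 4 2 (.lc 4 2 .stop)))))))))))))))))))))))))))))))))))))))))))))))))))))))))))))))))))))))))))))))))))))))))))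
 (.lc 0 0 (.lc 0 1 (.lc 0 8 (.lc 0 0 (.lc 0 8 (.far [257,16,257,256,257,4096] 0 (.far [257,16,257,256,257,4096] 0 (.lc 0 1 (.lc 0 8 (.lc 0 0 (.lc 0 9 .stop))))))))))))
 (.lc 2 3 (.lc 2 3 (.lc 2 3 (.lc 3 7 (.lc 3 0 (.lc 3 8 (.lc 3 1 (.node [84,103,112] 0 5 .stop
 (.conf [84,117] (.lc 3 1 (.conf [84,117] (.lc 2 3 (.lc 2 3 (.lc 2 3 (.lc 2 3 (.lc 2 3 (.lc 3 7 (.lc 3 0 (.lc 3 8 (.lc 3 3 (.lc 3 3 (.lc 3 3 (.lc 3 3 (.lc 3 3 (.lc 4 8 (.lc 4 8 (.lc 4 0 (.lc 4 9 (.lc 3 3 (.lc 3 3 (.lc 3 3 (.lc 3 3 (.lc 3 3 (.lc 3 3 (.lc 3 3 (.lc 3 3 (.lc 3 3 (.lc 4 3 (.lc 4 3 (.lc 4 3 (.lc 4 3 .stop))))))))))))))))))))))))))))))))))))))))))))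
 (.lc 0 0 (.lc 2 5 (.lc 0 0 (.node [101,118] 6 5 (.node [84,96] 0 5 (.far [1,1,4112,4096,4112,256] 0 (.node [66,132] 0 8 (.far [257,256,0,0,0,257,1] 4096 (.far [4112,4112,256] 0 (.lc 2 4 (.lc 2 4 (.lc 2 4 (.lc 1 8 (.conf [132,152] (.lc 0 0 (.lc 2 4 (.lc 2 4 (.lc 1 9 (.lc 3 4 .stop))))))))))))
 .stop))
 (.lc 2 3 (.node [84,104] 5 4 (.far [4112,1,4112,4096,4112,256] 0 (.lc 0 0 (.lc 0 7 (.lc 0 9 (.lc 0 0 (.lc 0 9 (.node [66] 0 4 .stop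
 (.node [66,148] 9 4 (.node [66,144] 0 4 (.far [16,16,257,16,0,16,258] 0 .stop)
 (.node [66,118,151] 7 4 .stop
 (.node [66,154] 4 2 (.far [257,16,257,16,0,16,258] 0 (.lc 0 0 (.lc 0 7 (.lc 0 11 (.lc 0 0 (.lc 0 11 (.far [257,16,257,16,0,16,258] 17 (.far [257,16,257,16,0,16,258] 0 (.lc 0 11 (.lc 0 12 .stop))))))))))
 (.lc 2 2 (.lc 2 2 (.lc 3 1 (.lc 3 7 (.lc 3 10 (.lc 1 4 (.lc 3 0 (.lc 3 7 (.lc 3 11 (.conf [154,160] (.conf [66,164] (.conf [66,164] (.lc 2 2 (.lc 2 2 (.lc 2 2 (.lc 2 2 (.lc 2 2 (.lc 2 2 (.lc 3 10 (.lc 3 7 (.lc 3 0 (.lc 3 10 (.lc 3 0 (.lc 3 11 (.lc 3 2 (.lc 3 2 (.lc 4 7 (.lc 4 11 (.lc 4 11 (.lc 4 0 (.lc 4 12 (.lc 3 2 (.lc 3 2 (.lc 3 2 (.lc 3 2 (.lc 3 2 (.lc 3 2 (.lc 3 2 (.lc 3 2 (.lc 3 2 (.lc 3 2 (.lc 4 2 (.lc 4 2 .stop))))))))))))))))))))))))))))))))))))))))))))))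
 (.lc 0 9 (.lc 0 0 (.lc 0 10 .stop)))))))))))
 (.lc 2 3 (.lc 2 3 (.lc 2 3 (.lc 3 8 (.lc 3 0 (.lc 3 9 (.lc 3 3 (.node [84,104,128] 0 5 .stop
 (.conf [84,133] (.lc 3 3 (.conf [84,133] (.lc 2 3 (.lc 2 3 (.lc 2 3 (.lc 2 3 (.lc 2 3 (.lc 3 8 (.lc 3 0 (.lc 3 9 (.lc 3 3 (.lc 3 3 (.lc 3 3 (.lc 3 3 (.lc 3 3 (.lc 4 9 (.lc 4 9 (.lc 4 0 (.lc 4 10 (.lc 3 3 (.lc 3 3 (.lc 3 3 (.lc 3 3 (.lc 3 3 (.lc 3 3 (.lc 3 3 (.lc 3 3 (.lc 3 3 (.lc 4 3 (.lc 4 3 (.lc 4 3 (.lc 4 3 .stop))))))))))))))))))))))))))))))))))))))))))))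
 (.lc 0 0 (.lc 2 5 (.lc 0 0 (.lc 3 5 .stop)))))))))
 (.conf [54,84] (.conf [48,84] (.conf [55,84] (.lc 0 0 (.conf [49,84] (.conf [54,96] (.conf [84,101] (.conf [84,101] (.conf [54,84] (.conf [48,84] (.conf [55,84] (.lc 0 0 (.node [49,84,101] 6 5 (.node [66] 6 4 (.node [66,96] 0 4 (.far [16,16,4096,0,4096] 0 (.node [66,96] 4 2 (.far [257,16,16,4096,0,4096] 0 (.node [32,120,130,64] 2 0 .stop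
 (.node [120,130,64] 0 7 (.node [120,130] 6 7 (.lc 1 2 .stop)
 (.far [257,0,257,4096] 0 .stop))
 (.far [257,16,16,4096,0,4096] 0 (.node [32,121,130,152,64,121,130] 2 0 .stop
 .stop)))))
 (.node [66,116,135,96,66] 7 4 (.far [16,16,16,4096,0,4096] 0 (.lc 3 9 (.conf [32,121,146] (.lc 3 9 (.lc 4 10 .stop)))))
 .stop)))
 (.lc 2 1 (.lc 1 2 (.node [66,103] 4 2 (.far [1,0,0,0,1,1] 4096 (.conf [32,66] (.node [72,103] 7 4 (.far [16,257,16,4096,0,4096] 0 (.conf [112,130,66] (.conf [113,130,66] (.conf [121,130,66] (.far [16,257,16,4096,0,4096] 0 (.far [16,257,16,4096,0,4096] 0 (.node [112,66] 7 0 (.node [113] 6 7 (.lc 2 1 .stop)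
 (.lc 0 1 (.conf [121,145] (.lc 0 1 .stop))))
 (.node [121,152,66] 6 7 (.node [96,121,152] 0 7 (.node [152] 6 0 (.far [4112,0,4112,0,0,4112,4112,257] 0 .stop)
 (.lc 1 8 (.lc 1 8 .stop)))
 (.lc 2 1 (.node [106,121,152] 7 9 (.node [152] 1 6 (.far [1,0,4112,0,0,4112,4112,257] 0 (.node [169] 10 9 (.far [4112,257,256,16,0,0,4112,4112,257] 0 (.lc 2 7 (.conf [152,185] (.lc 2 7 (.lc 3 7 .stop)))))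
 (.node [130,169,138] 8 10 .stop
 (.node [169,186] 10 9 (.far [4112,257,256,16,0,0,4112,4112,257] 0 (.lc 2 7 (.far [4112,257,256,16,0,0,4112,4112,257] 0 (.conf [152,201] (.lc 2 7 (.lc 3 7 (.lc 3 7 .stop)))))))
 (.node [169] 10 9 (.node [9] 9 8 .stop
 (.lc 2 7 .stop))
 (.node [169,186] 10 9 (.node [152] 9 8 (.node [130] 11 8 (.node [24,130] 1 8 .stop
 (.far [4112,256,16,256,256,256] 4097 .stop))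
 (.lc 0 1 (.far [257,16,0,256,16,257,0,4096] 0 (.conf [188,200] (.lc 0 1 .stop)))))
 (.lc 2 7 (.lc 0 0 (.lc 0 12 (.lc 2 7 (.lc 3 7 (.lc 3 7 .stop)))))))
 (.far [1,0,4112,0,0,4112,4112,257] 4097 (.far [1,0,4112,0,0,4112,4112,257] 0 (.node [169,186] 10 9 (.far [4112,1,16,4112,1,4112,4096,16,257,256] 4097 (.lc 2 7 (.lc 0 12 (.lc 2 7 (.lc 3 7 .stop)))))
 (.node [169,186,203] 10 9 (.far [4112,1,16,4112,1,4112,4096,16,257,256] 0 (.lc 2 7 (.lc 0 0 (.lc 0 13 (.lc 2 7 (.lc 3 7 (.lc 3 7 .stop)))))))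
 .stop))))))))))
 (.lc 2 8 (.lc 2 8 (.lc 2 8 (.lc 0 0 (.lc 0 11 (.lc 2 8 (.lc 2 8 (.lc 3 8 (.lc 3 8 (.lc 3 8 (.lc 3 8 .stop))))))))))))
 (.conf [116,152] (.lc 3 1 (.conf [116,152] (.lc 3 1 (.lc 3 1 (.lc 3 1 (.node [106,121,160,152] 0 7 .stop
 (.conf [121,167] (.lc 3 1 (.conf [121,167] (.node [116,152,130,96] 6 0 (.far [4096,0,0,0,0,0,1,0,257] 16 .stop)
 (.lc 3 1 (.node [116,152,130,106] 9 8 (.node [130] 6 10 (.node [168] 10 8 (.node [130,160] 0 8 (.far [16,16,0,16,0,4096,4096] 0 .stop)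
 (.lc 2 1 (.lc 1 2 (.node [130,171] 8 2 (.far [257,16,0,16,0,4096,4096] 0 (.far [4096,1,0,4096,1,0,0,257,257,4096,0,257] 4096 (.far [4096,1,0,4096,1,0,0,257,257,4096,0,257] 4096 (.node [188,194,32] 10 11 (.far [4112,0,4112,1,256,256] 0 (.far [4112,0,4112,1,256,256] 4097 (.node [184,194,28] 12 2 .stop
 (.far [4112,4112,4096,1,257,256,256,256] 4097 .stop))))
 (.far [257,16,0,16,0,4096,4096] 17 (.node [188,192,130] 10 11 (.far [4112,0,4112,1,256,256] 0 (.far [257,257,256,16,4112,4096,4096,4096] 17 .stop))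
 .stop))))))
 (.lc 2 2 (.lc 2 2 (.lc 3 1 (.lc 3 1 (.lc 3 1 (.node [130,171,176,171] 0 8 (.far [16,16,0,16,0,4096,4096] 0 .stop)
 (.lc 2 2 (.node [130,160,184,130] 10 0 (.far [4112,4112,1,256,256] 0 .stop)
 (.node [130,184,203,130,172] 10 12 (.far [4112,4112,1,256,256] 0 (.lc 2 11 (.far [4112,4112,1,256,256] 4097 (.lc 2 11 (.lc 2 11 (.lc 3 11 .stop))))))
 (.lc 2 2 (.lc 3 1 (.lc 3 2 (.lc 4 1 .stop)))))))))))))))))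
 (.lc 2 8 (.lc 2 8 (.far [4112,4112,4096,4096,4112,0,16,257,256] 4097 (.far [4112,4112,4096,4096,4112,0,16,257,256] 0 (.lc 2 8 (.lc 2 8 (.lc 3 8 (.lc 3 8 .stop)))))))))
 (.lc 2 2 (.lc 2 2 (.lc 2 2 (.lc 0 0 (.lc 0 11 (.lc 2 2 (.lc 2 2 (.lc 3 2 (.lc 3 2 (.lc 3 2 (.lc 3 2 .stop))))))))))))
 (.lc 3 1 (.lc 3 1 (.lc 3 1 (.lc 4 1 (.conf [116,160,106] (.node [116,152,169,130,96] 6 0 (.far [4112,4112,1,4112,4096,16,257,256] 0 .stop)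
 (.lc 4 1 (.conf [116,186,107] (.lc 4 1 (.lc 4 1 (.lc 4 1 (.lc 4 1 (.lc 4 1 (.lc 4 1 (.lc 4 1 (.lc 4 1 (.lc 5 1 (.lc 5 1 .stop))))))))))))))))))))))))))))))))))
 (.conf [113,130,66] (.conf [121,130,66] (.conf [112,130,66] (.conf [122,130,66] .stop))))))))))))
 (.conf [32,66] (.node [72,128,103,72] 4 8 (.far [4112,4096,1,257,4096,0,257] 4096 (.lc 0 1 (.lc 0 9 (.lc 0 9 (.lc 2 0 (.lc 0 10 .stop))))))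
 (.conf [32,66] (.node [32,73,152,103,73,130] 4 9 (.node [152] 8 2 (.far [1,4112,4096,1,257,4096,0,257] 4096 (.lc 3 7 (.lc 3 10 (.node [160] 9 8 (.node [138,145] 9 1 .stop
 (.lc 1 2 (.node [138,155] 7 9 (.far [16,257,0,256,1,16,4096,0,4096] 0 (.lc 3 1 (.lc 3 10 (.lc 3 12 (.lc 1 8 (.lc 3 12 (.lc 4 13 .stop)))))))
 (.lc 2 10 (.lc 2 10 (.lc 2 2 (.conf [138,184] (.lc 2 2 (.conf [138,184] (.lc 2 10 (.lc 2 10 (.lc 2 10 (.lc 2 10 (.lc 0 4 (.lc 2 10 (.lc 0 1 (.lc 0 10 (.lc 0 11 (.lc 3 10 (.lc 0 11 (.lc 0 12 (.lc 0 11 (.lc 0 12 (.lc 0 1 (.lc 0 12 (.lc 1 1 (.lc 3 10 (.lc 0 13 .stop))))))))))))))))))))))))))))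
 (.lc 3 10 (.lc 4 11 .stop))))))
 (.lc 0 0 (.lc 0 1 (.lc 0 10 (.lc 0 0 (.lc 0 10 (.lc 2 8 (.lc 2 8 (.lc 0 1 (.lc 0 10 (.lc 0 0 (.lc 0 11 .stop))))))))))))
 (.lc 3 2 (.lc 3 2 (.far [4096,1,257,4096,0,257] 4096 (.node [72,128,103,72] 4 8 (.far [4112,4096,1,257,4096,0,257] 4096 (.lc 0 1 (.lc 0 9 (.lc 0 9 (.lc 2 0 (.lc 0 10 .stop))))))
 (.conf [32,66] (.node [73,152,103,73,130] 4 9 (.node [152] 9 8 (.node [130,144] 9 0 (.node [112] 0 8 (.node [130] 7 8 .stop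
 .stop)
 (.lc 0 1 (.lc 0 1 (.lc 0 10 (.node [113] 1 6 (.lc 1 1 .stop)
 (.lc 0 10 .stop))))))
 (.node [130,145] 9 1 .stop
 (.node [130,154] 7 9 (.node [122] 8 2 (.far [1,0,0,4112,4096,1,257,4096,0,257] 4096 (.node [32,139] 10 8 (.node [171] 11 2 (.far [1,1,4096,1,4096,4096,0,1,257,4096,0,257] 4096 (.lc 3 12 (.node [188,192] 11 12 (.node [177,192] 11 1 .stop
 (.lc 2 2 (.node [189,192] 10 11 (.far [1,4112,4112,256,256] 0 (.lc 1 12 (.lc 1 12 .stop)))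
 (.lc 2 0 (.lc 3 2 (.lc 2 0 (.conf [173,192,220] (.conf [190,237] (.lc 2 0 (.lc 2 0 (.lc 3 2 (.lc 2 0 (.lc 2 0 (.lc 0 7 (.lc 2 0 (.far [4112,4112,16,256,256,256] 0 (.lc 3 0 (.lc 3 0 (.lc 3 0 (.lc 3 0 (.lc 2 1 .stop)))))))))))))))))))))
 (.lc 3 12 (.lc 4 13 .stop)))))
 (.lc 3 0 (.lc 3 1 (.lc 3 12 (.lc 1 2 (.lc 1 2 (.lc 3 0 (.lc 3 12 (.lc 4 1 (.lc 4 12 (.lc 4 0 (.lc 4 13 .stop))))))))))))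
 (.conf [139,176] (.lc 3 2 (.lc 3 2 (.conf [139,176] (.conf [32,178] (.node [139] 10 8 (.far [16,257,16,256,16,4096] 17 (.lc 3 1 (.lc 3 12 (.lc 1 0 (.lc 3 12 (.lc 4 13 .stop))))))
 (.lc 3 2 (.lc 3 2 (.lc 3 2 (.conf [140,203] (.lc 4 2 (.lc 4 2 (.lc 4 2 (.lc 4 2 (.lc 4 2 (.lc 5 2 .stop))))))))))))))))))
 (.lc 3 0 (.lc 3 1 (.lc 3 11 (.lc 1 8 (.lc 1 8 (.lc 3 0 (.lc 3 11 (.lc 4 1 (.lc 4 11 (.lc 4 0 (.lc 4 12 .stop))))))))))))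
 (.conf [130,145] (.conf [130,154] (.conf [130,154] (.conf [130,144] (.conf [130,155] (.conf [130,148] (.conf [130,148] (.node [130,145] 9 1 .stop
 (.conf [154,160] (.conf [130,168] (.conf [130,168] (.conf [130,145] (.conf [130,154] (.conf [130,150] (.conf [130,144] (.conf [130,145] (.conf [130,155] (.node [130,148,112] 0 8 (.far [257,4096,4096,0,1,257,4096,0,257] 4096 .stop)
 (.node [130,148,113] 1 8 .stop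
 (.lc 0 4 (.node [130,148,122] 8 2 (.node [32] 10 2 (.far [1,4096,4096,4096,0,1,257,4096,0,257] 4096 (.lc 3 11 (.node [171,176] 7 10 (.node [113,171] 1 10 .stop
 (.lc 2 4 (.lc 1 2 (.node [124,171] 10 11 (.far [4112,1,4112,256,257] 0 (.lc 2 0 (.lc 2 0 (.lc 0 13 (.lc 2 0 (.lc 3 0 .stop))))))
 (.lc 2 2 (.lc 0 1 (.lc 3 4 (.lc 3 4 (.lc 0 1 (.lc 2 2 (.conf [171,202] (.lc 2 2 (.lc 3 4 (.lc 2 2 (.lc 3 4 (.lc 0 1 (.lc 0 1 (.lc 3 2 (.lc 0 1 (.lc 0 1 (.lc 0 1 (.lc 0 1 (.lc 0 1 (.lc 4 4 (.lc 0 1 .stop)))))))))))))))))))))))))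
 (.lc 3 11 (.lc 4 12 .stop)))))
 (.lc 0 0 (.lc 0 0 (.lc 0 11 (.far [257,256,16,4096] 17 (.lc 0 11 .stop))))))
 (.lc 0 0 (.lc 0 1 (.lc 0 10 (.conf [130,154] (.conf [130,155] (.conf [130,145] (.conf [130,155] (.conf [130,144] (.conf [130,156] (.lc 0 1 (.lc 0 10 (.lc 0 0 (.lc 0 11 (.lc 0 1 (.lc 0 10 (.lc 0 10 (.lc 0 0 (.lc 0 11 (.lc 0 1 (.lc 0 10 (.lc 0 0 (.lc 0 1 (.lc 0 11 (.node [130,148,113] 8 2 (.far [257,256,16,4096] 4097 .stop)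
 (.conf [148,160,122] (.lc 1 1 (.node [130,148,168,112] 7 0 (.node [113] 10 8 (.conf [32,162] (.lc 3 11 .stop))
 (.lc 0 1 (.lc 0 1 (.node [123,177,123] 6 7 (.node [177] 1 6 .stop
 (.lc 1 1 .stop))
 (.lc 0 1 .stop)))))
 (.conf [148,186,123] (.lc 0 10 (.lc 0 11 (.lc 0 1 (.lc 0 11 (.lc 0 0 (.lc 0 12 .stop))))))))))))))))))))))))))))))))))))))))))))))))))))))))))
 (.lc 0 0 (.lc 0 1 (.lc 0 10 (.lc 0 0 (.lc 0 10 (.lc 2 8 (.lc 2 8 (.lc 0 1 (.lc 0 10 (.lc 0 0 (.lc 0 11 .stop))))))))))))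
 (.conf [32,66] (.node [72,103] 4 8 (.far [257,257,16,4096,0,4096] 17 (.conf [113,128,66] (.conf [121,128,66] (.node [121,152,66] 6 7 (.lc 2 1 (.node [106,121,152] 7 9 (.node [152] 1 6 (.far [1,0,4112,0,0,4112,4112,257] 0 (.node [169,10] 10 9 .stop
 (.node [128,169,138] 8 10 .stop
 (.node [169,186] 10 9 (.far [4112,257,256,16,0,0,4112,4112,257] 0 (.lc 2 7 (.conf [152,201] (.lc 2 7 (.lc 3 7 .stop)))))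
 (.node [169,186] 10 9 (.far [257,16,1,257,257,257,256,1,4112,4096] 17 (.lc 2 7 (.lc 0 12 (.lc 2 7 (.lc 3 7 .stop)))))
 (.far [1,0,4112,0,0,4112,4112,257] 0 (.lc 1 10 (.node [169,186,203] 10 9 (.node [152] 9 8 (.node [128] 11 8 (.far [257,4096,1,4096,4096,4096] 0 (.lc 2 0 (.lc 0 13 .stop)))
 (.lc 0 9 (.lc 0 9 (.conf [189,216] (.lc 0 9 .stop)))))
 (.lc 2 7 (.lc 0 13 (.lc 2 7 (.lc 3 7 .stop)))))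
 .stop))))))))
 (.lc 2 8 (.lc 2 8 (.lc 0 11 (.lc 2 8 (.lc 3 8 .stop))))))
 (.lc 3 1 (.conf [116,152] (.lc 3 1 (.lc 3 1 (.conf [121,167] (.lc 3 1 (.node [116,152,128,106] 9 8 (.node [128] 6 10 (.far [257,257,256,1,257,0,1,4112,4096] 17 (.lc 2 8 (.lc 2 8 (.node [27,168,186] 1 11 (.node [186] 11 10 (.lc 1 6 (.node [168,188] 10 8 (.far [4112,1,0,4096,256,16,0,0,4112,4112,257] 0 (.lc 0 13 .stop))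
 (.lc 2 6 (.lc 1 0 (.conf [168,202] (.lc 1 0 .stop))))))
 (.lc 2 10 (.lc 2 10 .stop)))
 (.lc 2 8 (.lc 3 8 .stop))))))
 (.lc 2 0 (.lc 2 0 (.lc 0 11 (.lc 2 0 (.lc 3 0 .stop))))))
 (.lc 3 1 (.lc 3 1 (.lc 3 1 (.lc 4 1 (.conf [116,186,107] (.lc 4 1 (.lc 4 1 (.lc 4 1 (.lc 4 1 (.lc 4 1 (.lc 5 1 .stop))))))))))))))))))))
 (.far [257,257,16,4096,0,4096] 17 (.conf [122,128,66] .stop))))))
 (.conf [32,66] (.node [32,73,130,152,103] 4 9 (.far [257,257,16,4096,0,4096] 0 (.lc 2 8 (.lc 2 8 (.lc 2 8 (.node [112] 2 0 .stop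
 (.node [122,169] 8 2 (.node [128] 6 7 (.node [96,122,169] 0 7 .stop
 (.lc 2 1 (.node [107,122,169] 7 10 (.node [169] 1 6 (.far [1,0,4112,0,0,0,4112,4112,257] 0 (.node [186] 11 10 (.far [4112,257,256,16,0,0,0,4112,4112,257] 0 (.lc 1 8 .stop))
 (.node [152,186,128,155] 9 11 .stop
 (.node [186,203] 11 10 (.far [4112,257,256,16,0,0,0,4112,4112,257] 0 (.lc 2 7 (.conf [169,218] (.lc 1 8 (.lc 2 8 .stop)))))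
 (.node [186,11,128] 11 10 .stop
 (.node [186,203] 11 10 (.far [257,16,1,257,0,257,257,256,1,4112,4096] 0 (.lc 2 7 (.lc 0 13 (.lc 1 8 (.lc 2 8 .stop)))))
 (.far [1,0,4112,0,0,0,4112,4112,257] 4097 (.far [1,0,4112,0,0,0,4112,4112,257] 0 (.node [186,203,12,128] 11 10 (.node [169] 10 9 (.node [152] 12 9 (.lc 1 0 .stop)
 (.lc 2 8 .stop))
 (.lc 2 7 (.lc 0 13 (.lc 1 8 (.lc 2 8 .stop)))))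
 (.node [186,203,220] 11 10 (.node [169] 10 9 (.node [152] 12 9 (.far [257,4096,1,4096,4096,4096] 0 (.lc 2 4 (.lc 0 14 (.lc 3 4 .stop))))
 (.lc 2 8 (.lc 0 10 (.lc 2 8 (.lc 3 8 .stop)))))
 (.lc 2 7 (.lc 0 14 (.lc 1 8 (.lc 2 8 .stop)))))
 .stop))))))))))
 (.lc 2 9 (.lc 2 9 (.lc 2 9 (.lc 0 12 (.lc 2 9 (.lc 3 9 (.lc 3 9 .stop))))))))
 (.lc 3 1 (.conf [116,169] (.lc 3 1 (.lc 3 1 (.lc 3 1 (.lc 3 1 (.conf [122,183] (.node [116,169,152,96,128] 6 0 (.far [257,257,0,257,257,256,1,4112,4096] 0 .stop)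
 (.lc 3 1 (.node [116,169,152,107,128] 10 9 (.node [152] 6 11 (.far [257,257,256,0,1,257,0,1,4112,4096] 0 (.lc 2 9 (.lc 2 9 (.node [185] 9 8 (.lc 2 4 (.node [128,156] 11 9 (.far [16,257,4112,16,4112,1,16,4096,4112,4112,257] 256 (.lc 1 8 .stop))
 (.lc 2 0 (.lc 3 4 (.conf [128,200] (.lc 2 0 .stop))))))
 (.node [28,185,203] 1 12 (.node [203] 12 11 (.lc 1 6 (.node [185,205] 11 9 (.far [4112,1,0,4096,256,16,0,0,0,4112,4112,257] 0 (.lc 2 4 (.lc 0 14 .stop)))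
 (.lc 2 6 (.lc 3 0 (.conf [185,219] (.lc 1 4 (.lc 2 6 (.lc 3 0 (.lc 1 0 (.lc 1 0 (.lc 1 0 .stop)))))))))))
 (.lc 2 11 (.lc 2 11 (.conf [203,220] (.lc 2 11 (.lc 3 11 .stop))))))
 (.lc 2 9 (.lc 2 9 (.lc 3 9 (.lc 3 9 .stop)))))))))
 (.lc 2 8 (.lc 2 8 (.lc 2 8 (.lc 0 12 (.lc 2 8 (.lc 3 8 (.lc 3 8 .stop))))))))
 (.lc 3 1 (.lc 3 1 (.lc 3 1 (.lc 4 1 (.lc 4 1 (.conf [116,203,108] (.lc 4 1 (.lc 4 1 (.lc 4 1 (.lc 4 1 (.lc 4 1 (.lc 4 1 (.lc 4 1 (.lc 4 1 (.lc 5 1 (.lc 5 1 .stop)))))))))))))))))))))))))))))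
 (.lc 3 10 (.lc 3 11 (.node [139,176,139,152,169,122] 6 7 (.lc 2 1 (.lc 0 0 (.node [108,122] 7 10 (.node [169] 1 6 (.far [1,0,4112,0,0,0,4112,4112,257] 0 (.conf [12,202] (.lc 0 8 (.lc 0 0 (.node [202,220] 12 10 (.far [4112,257,256,16,0,0,0,4112,4112,257] 0 (.lc 2 7 (.conf [169,234] (.lc 1 8 (.lc 2 8 .stop)))))
 (.node [202,220] 12 10 (.far [257,16,1,257,0,257,257,256,1,4112,4096] 0 (.lc 2 7 (.lc 0 14 (.lc 1 8 (.lc 2 8 .stop)))))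
 (.far [1,0,4112,0,0,0,4112,4112,257] 0 (.lc 0 1 (.node [202,220,237] 12 10 (.node [169] 10 9 (.node [152] 13 9 (.lc 1 8 (.lc 1 11 (.lc 2 8 (.lc 3 4 .stop))))
 (.lc 2 8 (.lc 0 10 (.lc 2 8 (.lc 3 8 .stop)))))
 (.lc 2 7 (.lc 0 15 (.lc 1 8 (.lc 2 8 .stop)))))
 .stop)))))))))
 (.lc 2 9 (.lc 2 9 (.lc 2 9 (.lc 0 13 (.lc 2 9 (.lc 3 9 .stop)))))))
 (.lc 3 1 (.lc 2 4 (.lc 3 1 (.lc 3 1 (.conf [122,199] (.lc 3 1 (.lc 2 4 (.lc 2 4 (.lc 3 1 (.lc 3 1 (.lc 3 1 (.lc 3 1 (.lc 4 1 (.lc 3 4 (.lc 1 1 (.lc 4 1 (.lc 4 1 (.lc 4 1 (.lc 4 1 (.lc 4 1 (.lc 4 1 (.lc 1 1 (.lc 5 1 .stop))))))))))))))))))))))))))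
 (.lc 3 11 (.lc 4 12 .stop))))))
 (.lc 2 8 (.lc 2 8 (.lc 3 8 (.lc 3 8 (.lc 3 8 (.lc 3 8 .stop))))))))))))
 (.lc 3 2 (.lc 3 2 (.lc 3 2 (.lc 3 2 (.conf [32,66] (.node [73,152,103,73,128] 4 9 (.node [152] 9 8 (.node [128,145] 9 1 .stop
 (.node [128,154] 7 9 (.node [122] 10 8 (.node [128,161] 1 8 (.far [1,1,1,4096,1,256] 17 .stop)
 (.lc 2 7 (.node [128,171] 8 0 (.far [4112,1,1,4096,1,256] 17 (.lc 0 1 (.lc 0 1 (.lc 0 12 (.node [] 1 6 (.far [257,256,16,16,256,256,0,16,4112,257] 4097 (.lc 2 1 (.node [188,198,103] 6 7 (.far [257,256,256,16,16,256,256,0,256] 4097 (.lc 2 4 (.lc 0 13 .stop)))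
 .stop)))
 (.lc 0 12 .stop))))))
 (.lc 2 0 (.lc 2 0 (.lc 3 6 (.lc 3 1 (.lc 3 12 (.conf [128,184] (.lc 2 0 (.lc 2 0 (.lc 2 0 (.lc 3 11 (.lc 3 12 (.lc 3 0 (.lc 4 13 (.lc 3 0 (.lc 3 0 (.lc 3 0 (.lc 3 0 (.lc 3 0 (.lc 4 0 .stop))))))))))))))))))))))
 (.lc 3 1 (.lc 3 11 (.lc 1 8 (.lc 3 11 (.lc 4 12 .stop))))))
 (.conf [128,154] (.conf [128,155] (.conf [128,148] (.conf [128,168] (.conf [128,150] (.conf [128,145] (.conf [128,155] (.node [128,148,113] 1 8 (.far [1,4096,1,256] 17 .stop)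
 (.lc 0 4 (.node [128,148,122] 10 8 (.far [1,4096,1,256] 17 (.lc 3 1 (.node [161] 1 6 (.far [257,4112,256,256,0,16,4112,257] 4097 (.lc 0 11 (.lc 2 1 .stop)))
 (.lc 3 1 (.lc 3 11 (.lc 4 11 .stop))))))
 (.lc 0 1 (.lc 0 10 (.conf [128,156] (.lc 0 11 (.lc 0 10 (.lc 0 11 (.lc 0 1 (.lc 0 11 (.lc 1 1 (.conf [148,186,123] (.lc 0 12 .stop)))))))))))))))))))))))
 (.lc 0 1 (.lc 0 10 (.lc 0 10 (.lc 2 8 (.lc 0 11 .stop))))))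
 (.conf [32,66] (.node [32,74,130,152,169,103,74,152,130] 4 10 (.node [169] 8 2 (.node [128] 10 9 (.node [152,160] 10 0 (.lc 0 1 .stop)
 (.node [152,161] 10 1 .stop
 (.node [152,171] 7 10 (.node [123] 9 8 (.node [128,145] 1 8 (.far [4112,16,0,0,16,257,256,16,4112,256,0,4112] 1 .stop)
 (.node [128,156] 11 9 (.far [1,4112,1,4096,0,1,256] 0 (.lc 3 0 (.lc 3 1 (.lc 3 13 (.lc 1 8 (.lc 3 13 (.lc 4 1 (.lc 4 14 .stop))))))))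
 (.lc 2 0 (.lc 2 0 (.lc 3 8 (.conf [128,200] (.lc 2 0 (.lc 2 0 (.lc 2 0 (.lc 3 8 (.lc 3 8 (.lc 3 0 (.lc 3 0 (.lc 4 8 (.lc 3 0 (.lc 3 0 (.lc 3 0 (.lc 3 0 (.lc 3 0 (.lc 3 0 (.lc 4 0 (.lc 4 0 .stop))))))))))))))))))))))
 (.lc 3 0 (.lc 3 1 (.lc 3 12 (.lc 1 9 (.lc 3 12 (.lc 4 1 (.lc 4 13 .stop))))))))
 (.lc 2 8 (.lc 2 8 (.lc 2 8 (.lc 2 8 (.lc 3 4 (.node [152,161] 10 1 .stop
 (.conf [152,185] (.lc 2 8 (.lc 2 8 (.lc 2 8 (.lc 2 8 (.lc 2 8 (.lc 2 8 (.lc 2 8 (.lc 0 4 (.lc 2 8 (.lc 0 0 (.lc 0 1 (.lc 0 11 (.lc 3 8 (.lc 3 8 (.lc 3 8 (.lc 0 1 (.lc 0 12 (.lc 0 1 (.lc 0 11 (.lc 0 11 (.lc 0 12 (.lc 0 1 (.lc 0 0 (.lc 0 1 (.lc 0 12 (.lc 3 8 (.lc 1 1 (.lc 3 8 (.lc 0 11 (.lc 0 1 (.lc 0 13 .stop)))))))))))))))))))))))))))))))))))))))))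
 (.lc 3 7 (.lc 3 11 (.conf [139,176] (.lc 3 11 (.lc 4 12 .stop))))))
 (.lc 0 0 (.lc 0 1 (.lc 0 11 (.lc 0 0 (.lc 0 11 (.lc 2 9 (.lc 2 9 (.lc 0 1 (.lc 0 11 (.lc 0 0 (.lc 0 12 .stop))))))))))))
 (.lc 4 2 (.lc 4 2 (.lc 4 2 (.lc 4 2 (.lc 4 2 (.lc 4 2 (.lc 4 2 (.lc 4 2 (.lc 5 2 (.lc 5 2 .stop)))))))))))))))))))))))))))))))))))
 (.lc 2 2 (.lc 2 2 (.lc 2 2 (.lc 2 2 (.lc 2 2 (.lc 3 7 (.lc 2 2 (.lc 2 2 (.lc 3 0 (.lc 3 8 (.lc 3 1 (.node [66,103,112] 0 4 (.far [16,16,4096,0,4096] 0 .stop)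
 (.lc 2 2 (.lc 2 2 (.node [66,96,116] 6 0 (.far [4112,4112,4112,257] 0 .stop)
 (.lc 3 1 (.node [66,116,135] 6 8 (.node [96,135,66] 6 0 (.far [4112,4112,4112,4112,257] 0 .stop)
 (.conf [24,97] (.node [32,98,135] 6 2 .stop
 (.node [105,135,66] 1 6 (.far [1,4112,4112,4112,257] 0 (.lc 1 8 (.lc 1 8 (.lc 1 8 (.lc 1 8 (.far [1,4112,4112,4112,257] 4097 (.far [1,4112,4112,4112,257] 0 (.lc 2 8 (.lc 2 8 .stop)))))))))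
 (.lc 2 7 (.lc 2 7 (.lc 2 7 (.lc 2 7 (.lc 2 7 (.lc 2 7 (.lc 2 7 (.lc 3 1 (.lc 3 1 (.conf [16,97] (.conf [105,144] (.node [40,96,135] 4 2 .stop
 (.node [96,135,152,66,135,116] 6 0 (.far [4112,4112,4112,4112,257] 0 .stop)
 (.conf [25,97] (.conf [106,169] (.lc 2 7 (.lc 2 7 (.lc 2 7 (.lc 2 7 (.lc 2 7 (.lc 2 7 (.lc 2 7 (.lc 3 1 (.lc 3 1 (.lc 3 1 (.lc 3 1 (.lc 3 7 (.lc 3 7 (.lc 3 7 (.lc 3 7 (.lc 3 7 (.lc 3 7 (.lc 3 7 (.lc 3 7 (.lc 4 1 (.lc 4 1 (.lc 4 1 (.lc 4 1 (.lc 4 1 (.lc 4 1 (.lc 4 1 (.lc 4 1 (.lc 5 1 (.lc 5 1 .stop))))))))))))))))))))))))))))))))))))))))))))))))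
 (.lc 2 2 (.lc 2 2 (.lc 2 2 (.lc 2 2 (.lc 2 2 (.lc 2 2 (.lc 2 2 (.lc 2 2 (.lc 3 7 (.lc 2 2 (.lc 2 2 (.lc 3 0 (.lc 3 8 (.lc 3 2 (.lc 3 2 (.lc 3 2 (.lc 3 2 (.lc 3 2 (.lc 3 2 (.lc 4 8 (.lc 3 2 (.lc 3 2 (.lc 4 8 (.lc 4 0 (.lc 4 9 (.lc 3 2 (.lc 3 2 (.lc 3 2 (.lc 3 2 (.lc 3 2 (.lc 3 2 (.lc 3 2 (.lc 3 2 (.lc 3 2 (.lc 3 2 (.lc 3 2 (.lc 3 2 (.lc 4 2 (.lc 4 2 (.lc 4 2 (.lc 4 2 (.lc 4 2 .stop)))))))))))))))))))))))))))))))))))))))))))))))))))))))))))))))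
 (.node [66,96] 0 4 (.lc 1 2 (.lc 2 2 .stop))
 (.node [66,103] 6 7 (.lc 2 0 (.lc 0 0 (.lc 2 8 (.lc 3 8 (.lc 1 7 (.lc 1 0 (.lc 3 0 (.lc 3 9 (.node [116] 7 4 (.lc 1 2 (.lc 1 2 (.lc 0 1 (.lc 1 0 (.lc 2 2 (.lc 2 2 (.lc 1 0 (.lc 1 0 (.lc 1 0 (.lc 2 2 (.lc 2 0 (.lc 3 2 (.lc 2 0 (.lc 2 0 (.lc 2 0 (.lc 3 0 .stop))))))))))))))))
 (.lc 0 8 (.lc 3 8 (.lc 1 7 (.lc 3 0 (.lc 3 9 (.lc 3 8 (.lc 1 7 (.lc 3 0 (.lc 0 0 (.lc 3 9 (.lc 2 4 (.lc 0 8 (.lc 0 0 (.lc 0 8 (.lc 4 9 (.lc 2 7 (.lc 4 9 (.lc 1 8 (.lc 4 0 (.lc 4 10 (.lc 0 0 (.lc 0 9 (.lc 0 0 (.lc 0 9 (.lc 0 0 (.lc 0 9 (.lc 3 4 (.lc 0 9 (.lc 0 0 (.lc 0 10 .stop)))))))))))))))))))))))))))))))))))))))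
 (.far [16,256,257,4096] 0 (.far [16,256,257,4096] 0 (.far [1,4096,4112,256] 0 (.far [1,4096,4112,256] 0 (.node [66,103,112] 0 4 .stop
 (.node [66,96,116] 6 0 .stop
 (.node [66,104,116] 6 8 (.lc 2 0 (.lc 0 0 (.lc 2 9 (.lc 3 9 (.lc 1 8 (.lc 1 0 (.lc 3 0 (.lc 3 10 (.lc 2 7 (.lc 0 9 (.lc 3 9 (.lc 1 8 (.lc 3 0 (.lc 3 10 (.lc 3 9 (.lc 1 8 (.lc 3 0 (.lc 0 0 (.lc 3 10 (.far [1,0,1,0,257] 16 (.lc 0 9 (.lc 0 0 (.lc 0 9 (.lc 4 10 (.lc 2 8 (.lc 4 10 (.lc 1 9 (.lc 4 0 (.lc 4 11 (.lc 0 0 (.lc 0 10 (.lc 0 0 (.lc 0 10 (.lc 0 0 (.lc 0 10 (.node [135,152] 9 8 (.node [116] 7 4 (.lc 1 2 (.lc 1 0 (.lc 2 2 (.lc 2 2 (.lc 1 0 (.lc 1 0 (.lc 1 0 (.lc 2 2 (.lc 2 0 (.lc 1 1 (.lc 2 0 (.lc 2 0 .stop))))))))))))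
 (.lc 0 0 (.lc 1 4 (.lc 1 4 (.lc 3 10 (.lc 2 4 .stop))))))
 (.lc 0 10 (.lc 0 0 (.lc 0 11 .stop)))))))))))))))))))))))))))))))))))))))
 .stop))))))))))
 (.lc 0 0 (.conf [49,84] (.conf [55,84] (.conf [55,84] (.conf [48,84] (.conf [56,84] (.lc 0 0 (.conf [49,84] (.lc 0 0 (.node [49,84,101,118] 6 5 (.far [1,4096,4112,256] 0 (.node [66,96] 0 4 (.lc 1 2 (.lc 1 2 (.lc 2 2 .stop)))
 (.node [66,104] 7 6 (.lc 1 8 (.lc 0 0 (.lc 1 8 (.node [112,132] 7 0 .stop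
 (.node [121,132] 8 4 (.lc 1 2 (.lc 1 2 (.lc 1 2 (.lc 3 0 (.lc 1 0 (.lc 1 0 (.lc 0 7 (.lc 2 2 (.lc 2 2 (.lc 2 2 (.lc 2 2 (.lc 2 2 (.lc 2 2 (.lc 2 2 (.lc 2 2 (.lc 1 0 (.lc 1 0 (.lc 1 0 (.lc 3 0 (.lc 1 0 (.lc 2 2 (.lc 2 2 (.lc 2 2 (.lc 2 0 (.lc 2 0 (.lc 2 0 (.lc 2 0 (.lc 3 2 (.lc 3 2 (.lc 3 2 (.lc 3 2 (.lc 4 10 (.lc 2 0 (.lc 2 0 (.lc 2 0 (.lc 2 0 (.lc 2 0 (.lc 3 0 (.lc 3 0 .stop)))))))))))))))))))))))))))))))))))))))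
 (.lc 2 8 (.lc 1 6 (.lc 2 8 (.lc 0 0 (.lc 2 8 (.lc 2 8 (.lc 1 6 (.lc 2 8 (.lc 2 8 (.lc 1 4 (.lc 0 0 (.lc 1 4 (.lc 3 0 (.lc 0 0 (.lc 3 9 (.lc 2 8 (.lc 1 6 (.lc 1 0 (.lc 2 8 (.lc 2 8 (.lc 2 4 (.lc 1 8 (.lc 2 4 (.lc 2 4 (.lc 3 8 (.lc 2 6 (.lc 3 8 (.lc 1 9 (.lc 3 8 (.lc 3 8 (.lc 4 9 (.lc 1 8 (.lc 4 0 (.lc 4 10 (.lc 4 9 (.lc 1 8 (.lc 1 0 (.lc 4 0 (.lc 4 10 (.lc 4 9 (.lc 1 8 (.lc 4 0 (.lc 0 0 (.lc 4 10 (.lc 5 10 (.lc 2 8 (.lc 5 10 (.lc 1 9 (.lc 5 0 (.lc 5 11 .stop)))))))))))))))))))))))))))))))))))))))))))))))))))))))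
 (.node [66,96] 0 4 .stop
 (.node [66,104] 8 4 (.lc 1 2 (.lc 1 2 (.lc 1 2 (.lc 3 0 (.lc 1 0 (.lc 0 7 (.lc 2 2 (.lc 2 2 (.lc 2 2 (.lc 2 2 (.lc 2 2 (.lc 2 2 (.lc 2 2 (.lc 2 2 (.lc 1 0 (.lc 1 0 (.lc 1 0 (.far [257,0,0,1,1] 4096 (.lc 1 0 (.lc 1 0 (.lc 2 2 (.lc 1 4 (.lc 2 2 (.lc 2 2 (.lc 2 2 (.lc 2 2 (.lc 2 0 (.lc 2 0 (.lc 1 0 (.lc 3 2 (.lc 3 2 (.lc 3 2 (.lc 3 2 (.node [137,144] 6 8 (.far [1,1,257,4096,0,257] 4096 (.lc 3 10 (.lc 3 5 (.lc 1 0 (.lc 3 10 (.lc 4 11 .stop))))))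
 (.lc 2 0 (.lc 2 0 (.lc 2 0 (.lc 2 0 (.lc 2 0 (.lc 2 0 (.lc 2 0 (.lc 2 0 (.lc 3 0 (.lc 3 0 .stop))))))))))))))))))))))))))))))))))))))))))))
 (.far [1,4096,4112,256] 0 (.far [1,4096,4112,256] 0 (.node [66,104,128] 0 4 .stop
 (.node [66,96,132] 6 0 .stop
 (.node [66,105,132] 7 6 (.lc 1 9 (.lc 0 0 (.lc 1 9 (.lc 1 8 (.lc 1 8 (.lc 2 9 (.lc 1 6 (.lc 2 9 (.lc 0 0 (.lc 2 9 (.lc 2 9 (.lc 1 6 (.lc 2 9 (.lc 2 9 (.node [112,152] 0 9 (.conf [8,132] (.lc 3 1 (.lc 0 8 (.lc 1 4 (.lc 3 1 (.lc 4 1 .stop))))))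
 (.lc 0 0 (.node [122,152] 9 8 (.far [4112,1,4096,1,4112,256] 0 (.lc 2 4 (.lc 1 0 (.lc 2 4 (.far [4112,1,4096,1,4112,256] 0 (.far [4112,1,4096,1,4112,256] 0 (.lc 2 4 (.lc 2 4 (.lc 3 4 (.lc 2 8 (.lc 3 4 (.lc 3 4 .stop))))))))))))
 (.lc 3 0 (.lc 0 0 (.lc 3 10 (.lc 2 9 (.lc 1 6 (.lc 1 0 (.lc 2 9 (.lc 2 9 (.node [122,152,160] 0 9 (.lc 0 8 .stop)
 (.lc 1 9 (.node [112,152,169] 7 0 .stop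
 (.node [123,152,169] 10 9 (.node [132] 8 4 (.lc 1 2 (.lc 1 2 (.lc 1 2 (.lc 3 0 (.lc 1 0 (.lc 2 2 (.lc 2 2 (.lc 2 2 (.lc 2 2 (.lc 2 2 (.lc 1 0 (.lc 1 0 (.lc 1 0 (.lc 1 0 (.lc 2 2 (.lc 2 0 (.lc 2 0 (.lc 3 2 (.lc 3 2 (.lc 2 0 (.lc 2 0 (.lc 2 0 (.lc 2 0 (.lc 3 0 (.lc 3 0 .stop)))))))))))))))))))))))))
 (.lc 1 4 (.lc 0 0 (.lc 1 4 (.lc 1 4 (.lc 1 4 (.lc 3 0 (.lc 3 12 (.lc 2 4 (.lc 1 8 (.lc 2 4 (.lc 2 4 .stop))))))))))))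
 (.lc 3 9 (.lc 2 6 (.lc 3 9 (.lc 1 10 (.lc 3 9 (.lc 3 9 (.lc 4 10 (.lc 1 9 (.lc 4 0 (.lc 4 11 (.lc 4 10 (.lc 1 9 (.lc 1 0 (.lc 4 0 (.lc 4 11 (.lc 4 10 (.lc 1 9 (.lc 4 0 (.lc 0 0 (.lc 4 11 (.lc 5 11 (.lc 2 9 (.lc 5 11 (.lc 1 10 (.lc 5 0 (.lc 5 12 .stop)))))))))))))))))))))))))))))))))))))))))))))))))))))))
 .stop))))))))))
 (.lc 0 0 (.node [49,84,101,118] 6 5 (.node [100,66] 6 4 (.lc 2 0 (.lc 0 0 (.lc 2 8 (.lc 2 2 (.lc 2 2 (.lc 2 2 (.node [66,112] 0 4 (.far [257,4096,0,1,0,257] 4096 .stop)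
 (.lc 1 0 (.node [66,132,120] 8 4 (.lc 1 2 (.lc 0 0 (.lc 1 2 (.lc 2 2 (.lc 1 0 (.lc 0 7 (.lc 2 2 (.lc 1 0 (.lc 1 0 (.lc 2 2 (.lc 2 2 (.lc 2 2 (.lc 1 0 (.lc 1 0 (.lc 2 2 (.lc 2 2 (.lc 1 0 (.lc 1 0 (.lc 2 2 (.lc 1 0 (.lc 2 2 (.lc 3 0 (.lc 1 0 (.lc 2 2 (.lc 2 2 (.lc 2 0 (.lc 2 0 (.lc 3 2 (.lc 2 0 (.lc 2 0 (.lc 3 2 (.lc 3 2 (.lc 3 2 (.lc 3 2 (.lc 2 0 (.lc 2 0 (.lc 2 0 (.lc 2 0 (.lc 2 0 (.lc 3 0 (.lc 3 0 .stop)))))))))))))))))))))))))))))))))))))))))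
 (.lc 3 8 (.lc 1 0 (.lc 1 0 (.lc 3 0 (.lc 3 9 (.lc 2 2 (.lc 2 2 (.lc 2 2 (.lc 2 2 (.lc 2 2 (.lc 0 0 (.lc 1 0 (.lc 0 8 (.lc 3 2 (.lc 3 2 (.lc 3 2 (.lc 3 2 (.lc 0 8 (.lc 2 0 (.lc 2 0 (.lc 0 0 (.lc 0 9 (.lc 3 2 (.lc 3 2 (.lc 3 2 (.lc 3 2 (.lc 3 2 (.lc 3 2 (.lc 3 2 (.lc 3 2 (.lc 3 2 (.lc 4 2 (.lc 4 2 (.lc 4 2 (.lc 4 2 .stop))))))))))))))))))))))))))))))))))))))))))))
 (.lc 3 0 (.lc 3 8 (.node [66,96] 0 4 .stop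
 (.node [66,104] 6 8 (.lc 2 0 (.lc 0 0 (.lc 2 9 (.lc 3 9 (.lc 1 8 (.lc 1 0 (.lc 3 0 (.lc 3 10 (.node [112,132] 0 8 (.lc 0 8 (.lc 0 9 (.far [257,4096,0,1,0,257] 4096 .stop)))
 (.node [121,152,121] 8 4 (.lc 1 2 (.lc 1 2 (.lc 3 0 (.lc 1 0 (.lc 2 2 (.lc 2 2 (.lc 2 2 (.lc 2 2 (.lc 2 2 (.lc 1 0 (.lc 1 0 (.lc 1 0 (.lc 2 2 (.lc 2 2 (.lc 2 0 (.lc 2 0 (.lc 3 2 (.lc 3 2 (.lc 3 2 (.lc 0 0 (.lc 2 0 (.lc 2 0 (.lc 2 0 (.lc 2 0 (.lc 2 0 (.lc 3 0 (.lc 3 0 .stop)))))))))))))))))))))))))))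
 (.lc 3 9 (.lc 1 8 (.lc 3 0 (.lc 3 10 (.lc 3 9 (.lc 1 8 (.lc 3 0 (.lc 0 0 (.lc 3 10 (.lc 2 4 (.lc 1 0 (.lc 2 4 (.lc 0 0 (.lc 1 0 (.lc 0 9 (.lc 4 10 (.lc 2 8 (.lc 4 10 (.lc 1 9 (.lc 4 0 (.lc 4 11 (.lc 0 9 (.lc 2 8 (.lc 0 0 (.lc 0 10 (.lc 0 9 (.lc 2 8 (.lc 2 0 (.lc 0 0 (.lc 0 10 (.lc 0 9 (.lc 2 8 (.lc 0 0 (.lc 1 0 (.lc 0 10 (.lc 3 4 (.lc 2 8 (.lc 3 4 (.lc 3 4 (.lc 0 10 (.lc 3 8 (.lc 0 10 (.lc 2 9 (.lc 0 0 (.lc 0 11 .stop)))))))))))))))))))))))))))))))))))))))))))))))))))))))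
 (.lc 3 0 (.lc 3 8 (.lc 4 8 (.lc 4 0 (.lc 4 9 .stop))))))))))
 (.lc 0 0 (.node [49,84,101,118] 6 5 (.far [16,256,257,4096] 0 (.lc 3 0 (.lc 3 8 (.far [16,256,257,4096] 0 (.far [16,256,257,4096] 0 (.lc 3 0 (.lc 3 8 (.lc 4 8 (.lc 4 0 (.lc 4 9 .stop))))))))))
 (.lc 0 0 (.node [49,84,101,118,135] 6 5 (.node [100,66] 7 6 (.lc 1 4 (.lc 0 0 (.lc 1 4 (.lc 3 0 (.lc 0 0 (.lc 3 9 (.lc 2 4 (.lc 1 6 (.lc 2 4 (.lc 0 0 (.lc 2 4 (.lc 2 4 (.lc 1 6 (.lc 2 4 (.lc 2 4 (.lc 1 2 (.lc 1 2 (.node [66,112] 7 0 (.conf [4,128] (.lc 0 9 .stop))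
 (.lc 0 0 (.node [66,121] 8 7 (.node [137] 9 4 (.lc 1 2 (.lc 0 0 (.lc 1 2 (.lc 1 2 (.lc 2 2 (.lc 1 0 (.lc 0 8 (.lc 2 2 (.lc 1 0 (.lc 1 0 (.lc 2 2 (.lc 2 2 (.lc 2 2 (.lc 1 0 (.lc 1 0 (.lc 2 2 (.lc 2 2 (.lc 1 0 (.lc 1 0 (.lc 1 0 (.lc 2 2 (.lc 1 0 (.lc 2 2 (.lc 3 0 (.lc 1 0 (.lc 2 2 (.lc 2 2 (.lc 2 0 (.lc 2 0 (.lc 3 2 (.lc 2 0 (.lc 2 0 (.lc 3 2 (.lc 3 2 (.lc 3 2 (.lc 3 2 (.lc 2 0 (.lc 2 0 (.lc 2 0 (.lc 2 0 (.lc 2 0 (.lc 3 0 (.lc 3 0 .stop)))))))))))))))))))))))))))))))))))))))))))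
 (.lc 3 0 (.lc 0 0 (.lc 3 10 (.node [128,148] 8 0 .stop
 (.node [138,148] 9 4 (.lc 1 2 (.lc 0 0 (.lc 1 2 (.lc 2 2 (.lc 1 0 (.lc 2 2 (.lc 1 0 (.lc 2 2 (.lc 2 2 (.lc 1 0 (.lc 1 0 (.lc 2 2 (.lc 2 2 (.lc 1 0 (.lc 1 0 (.lc 1 0 (.lc 2 2 (.lc 1 0 (.lc 2 2 (.lc 2 0 (.lc 2 0 (.lc 3 2 (.lc 2 0 (.lc 2 0 (.lc 3 2 (.lc 3 2 (.lc 3 2 (.lc 2 0 (.lc 2 0 (.lc 2 0 (.lc 2 0 (.lc 2 0 (.lc 3 0 (.lc 3 0 .stop))))))))))))))))))))))))))))))))))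
 (.lc 3 0 (.lc 3 10 (.lc 4 10 (.lc 1 9 (.lc 4 0 (.lc 4 11 .stop))))))))))))
 (.lc 2 4 (.lc 1 6 (.lc 1 0 (.lc 2 4 (.lc 2 4 (.lc 2 2 (.lc 2 2 (.lc 2 2 (.lc 3 4 (.lc 2 6 (.lc 3 4 (.lc 1 9 (.lc 3 4 (.lc 3 4 (.node [66,121,144] 0 4 (.far [256,0,0,0,1,1] 4096 .stop)
 (.lc 1 0 (.lc 1 0 (.node [66,112,148] 7 0 .stop
 (.node [66,122,148] 8 7 (.node [138] 8 10 (.lc 2 0 (.lc 0 0 (.lc 2 11 (.lc 3 0 (.lc 3 11 (.lc 2 9 (.lc 0 11 (.lc 3 11 (.lc 1 10 (.lc 3 0 (.lc 3 12 (.lc 3 0 (.lc 0 0 (.lc 3 11 (.lc 0 9 (.lc 0 0 (.lc 4 11 (.lc 1 9 (.lc 4 0 (.lc 4 12 (.lc 0 0 (.lc 0 0 (.lc 0 0 (.node [148] 9 4 (.lc 1 2 (.lc 2 2 (.lc 1 0 (.lc 1 0 .stop))))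
 (.lc 0 11 (.lc 0 0 .stop))))))))))))))))))))))))))
 (.lc 3 0 (.lc 0 0 (.lc 3 11 (.lc 1 9 (.lc 1 9 (.lc 3 0 (.lc 3 11 (.lc 4 11 (.lc 1 10 (.lc 4 0 (.lc 4 12 .stop))))))))))))
 (.lc 2 2 (.lc 2 2 (.lc 2 2 (.lc 2 2 (.lc 2 2 (.lc 2 2 (.lc 3 2 (.lc 3 2 (.lc 3 2 (.lc 3 2 .stop)))))))))))))))))))))))))))))))))))))))))))))))))
 (.lc 3 0 (.lc 3 9 (.node [66,96] 0 4 .stop
 (.node [66,105] 7 6 (.lc 1 9 (.lc 0 0 (.lc 1 9 (.lc 3 0 (.lc 3 10 (.lc 2 9 (.lc 1 6 (.lc 2 9 (.lc 0 0 (.lc 2 9 (.lc 2 9 (.lc 1 6 (.lc 2 9 (.lc 2 9 (.lc 3 0 (.lc 0 0 (.lc 3 10 (.node [112,148] 7 0 (.conf [9,128] (.lc 0 10 .stop))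
 (.lc 0 0 (.node [122,148] 8 7 (.node [138] 9 4 (.lc 1 2 (.lc 1 2 (.lc 3 0 (.lc 1 0 (.lc 2 2 (.lc 2 2 (.lc 2 2 (.lc 2 2 (.lc 2 2 (.lc 1 0 (.lc 1 0 (.lc 1 0 (.lc 2 2 (.lc 2 2 (.lc 2 0 (.lc 2 0 (.lc 3 2 (.lc 3 2 (.lc 3 2 (.lc 0 0 (.lc 2 0 (.lc 2 0 (.lc 2 0 (.lc 2 0 (.lc 2 0 (.lc 3 0 (.lc 3 0 .stop)))))))))))))))))))))))))))
 (.lc 3 0 (.lc 0 0 (.lc 3 11 (.node [128,169] 8 0 .stop
 (.node [139,169] 10 9 (.lc 1 4 (.lc 0 0 (.lc 1 4 (.lc 1 2 (.lc 1 2 (.lc 2 4 (.lc 2 4 (.lc 2 4 (.lc 1 9 (.lc 2 4 (.lc 2 4 (.lc 0 0 (.lc 1 2 (.lc 2 4 (.lc 1 0 (.lc 2 4 (.lc 1 0 (.lc 1 0 (.lc 3 4 (.lc 2 9 (.lc 3 4 (.lc 3 4 (.lc 2 2 (.lc 2 2 (.lc 1 0 (.lc 1 0 (.lc 2 0 (.lc 2 0 .stop))))))))))))))))))))))))))))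
 (.lc 3 0 (.lc 3 11 (.lc 4 11 (.lc 1 10 (.lc 4 0 (.lc 4 12 .stop))))))))))))
 (.lc 2 9 (.lc 1 6 (.lc 1 0 (.lc 2 9 (.lc 2 9 (.lc 4 10 (.lc 1 9 (.lc 4 0 (.lc 4 11 (.lc 3 9 (.lc 2 6 (.lc 3 9 (.lc 1 10 (.lc 3 9 (.lc 3 9 (.node [122,148,160] 0 9 (.lc 0 9 (.lc 0 11 (.far [256,0,0,0,1,1] 4096 .stop)))
 (.lc 1 9 (.node [112,148,169] 7 0 .stop
 (.node [123,148,169] 8 7 (.node [139] 9 4 (.lc 1 2 (.lc 1 2 (.lc 3 0 (.lc 1 0 (.lc 2 2 (.lc 2 2 (.lc 2 2 (.lc 2 2 (.lc 2 2 (.lc 1 0 (.lc 1 0 (.lc 1 0 (.lc 2 2 (.lc 2 2 (.lc 2 0 (.lc 2 0 (.lc 3 2 (.lc 3 2 (.lc 3 2 (.lc 0 0 (.lc 2 0 (.lc 2 0 (.lc 2 0 (.lc 2 0 (.lc 2 0 (.lc 3 0 (.lc 3 0 .stop)))))))))))))))))))))))))))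
 (.lc 3 0 (.lc 0 0 (.lc 3 12 (.lc 1 10 (.lc 1 10 (.lc 3 0 (.lc 3 12 (.lc 4 12 (.lc 1 11 (.lc 4 0 (.lc 4 13 .stop))))))))))))
 (.lc 2 4 (.lc 1 9 (.lc 1 0 (.lc 2 4 (.lc 2 4 (.lc 2 4 (.lc 1 9 (.lc 2 4 (.lc 0 0 (.lc 2 4 (.lc 3 4 (.lc 2 9 (.lc 3 4 (.lc 1 10 (.lc 3 4 (.lc 3 4 .stop)))))))))))))))))))))))))))))))))))))))))))))))))))))))
 (.lc 3 0 (.lc 3 9 (.lc 4 9 (.lc 4 0 (.lc 4 10 .stop))))))))))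
 .stop)))))))))))))))))))))))))))))))

theorem t21 : kNode2 awTt FTt 3 5 (check tyTt awTt triet FTt [] c21) (fun _ _ _ => true) 0 s21 Pl.nil s21 =
    true := by
  decide +kernel

end Chk
end Pool.Agent.Lib.MP_ba95e8_co
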