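import Pool.Agent.Lib.MP_ba95e8_co.ChkTab
import Pool.Agent.Lib.MP_ba95e8_co.ChkStates

/-!
Deltahedral domes: part 22 of the case analysis.
-/

namespace Pool.Agent.Lib.MP_ba95e8_co
namespace Chk

/-- certificate number 22 -/
def c22 : Cert := (.lc 2 0 (.lc 2 7 (.lc 3 7 (.lc 3 0 (.lc 3 8 (.lc 0 0 (.lc 2 5 (.lc 3 7 (.lc 3 0 (.lc 3 8 (.lc 3 7 (.lc 3 0 (.lc 3 8 (.lc 0 0 (.node [101,118] 7 6 (.far [16,256,257,4096] 0 (.node [84,112] 0 5 (.lc 1 4 (.conf [8,132] (.lc 2 4 (.lc 1 2 (.lc 2 2 .stop)))))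
 (.node [84,120] 5 4 (.lc 2 0 (.lc 0 7 (.lc 2 9 (.lc 0 7 (.lc 2 2 (.lc 1 7 (.lc 2 2 (.lc 2 2 (.node [66,128] 0 4 .stop
 (.node [66,137] 7 8 (.lc 2 0 (.lc 2 9 (.lc 2 10 (.lc 3 10 (.lc 1 8 (.lc 3 0 (.lc 3 11 (.lc 2 9 (.lc 0 9 (.lc 0 10 (.lc 3 10 (.lc 3 0 (.lc 3 10 (.lc 3 0 (.lc 3 11 (.lc 3 10 (.lc 3 0 (.lc 3 11 (.lc 2 9 (.lc 0 10 (.lc 0 0 (.lc 0 9 (.lc 0 10 (.lc 4 11 (.lc 4 11 (.lc 4 0 (.lc 4 12 (.lc 0 0 (.lc 0 10 (.lc 0 0 (.lc 0 11 (.lc 0 0 (.lc 0 11 (.lc 0 0 (.lc 0 11 (.lc 3 9 (.lc 0 11 (.lc 0 0 (.lc 0 12 .stop)))))))))))))))))))))))))))))))))))))))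
 (.lc 0 7 (.lc 3 9 (.lc 3 0 (.lc 3 10 (.lc 0 7 (.lc 2 2 (.lc 2 2 (.lc 0 7 (.lc 2 2 (.lc 2 2 (.lc 1 7 (.lc 2 2 (.lc 0 0 (.lc 1 7 (.lc 0 9 (.lc 1 7 (.lc 3 2 (.lc 0 7 (.lc 3 2 (.lc 3 2 (.lc 3 2 (.lc 1 7 (.lc 0 9 (.lc 0 0 (.lc 0 10 (.lc 1 7 (.lc 3 2 (.lc 2 7 (.lc 3 2 (.lc 3 2 (.lc 1 7 (.lc 3 2 (.lc 3 2 (.lc 1 7 (.lc 3 2 (.lc 1 7 (.lc 3 2 (.lc 3 2 (.lc 3 2 (.lc 2 7 (.lc 4 2 (.lc 1 7 (.lc 4 2 (.lc 4 2 (.lc 4 2 .stop)))))))))))))))))))))))))))))))))))))))))))))))))))))))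
 (.far [16,256,257,4096] 0 (.far [16,256,257,4096] 0 (.node [84,112] 7 0 .stop
 (.node [84,120] 7 8 (.lc 2 0 (.lc 0 2 (.lc 2 9 (.lc 3 9 (.lc 1 8 (.lc 1 2 (.lc 1 2 (.lc 3 0 (.lc 3 10 (.lc 2 5 (.lc 0 9 (.lc 3 9 (.lc 3 0 (.lc 3 10 (.lc 0 2 (.lc 3 9 (.lc 0 0 (.lc 3 0 (.lc 0 2 (.lc 3 10 (.far [1,0,1,0,257] 16 (.lc 0 4 (.lc 0 9 (.lc 0 0 (.lc 0 4 (.lc 0 9 (.lc 4 10 (.lc 1 0 (.lc 4 10 (.lc 4 0 (.lc 4 11 (.lc 0 0 (.lc 0 10 (.lc 0 0 (.lc 0 9 (.lc 0 0 (.lc 0 10 (.lc 0 0 (.lc 0 4 (.lc 0 10 (.node [133,152] 8 5 (.far [257,257,257,4096,0,257] 16 (.lc 2 4 (.lc 1 2 (.lc 0 10 (.lc 2 4 (.lc 3 4 .stop))))))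
 (.lc 0 10 (.lc 0 0 (.lc 0 11 .stop))))))))))))))))))))))))))))))))))))))))))))
 (.node [84,120,128] 0 5 .stop
 (.node [84,112,133] 7 0 .stop
 (.node [84,121,133] 7 9 (.lc 2 0 (.lc 0 2 (.lc 2 10 (.lc 3 10 (.lc 1 9 (.lc 1 2 (.lc 1 2 (.lc 3 0 (.lc 3 11 (.lc 2 8 (.lc 0 10 (.lc 3 10 (.lc 3 0 (.lc 3 11 (.lc 0 2 (.lc 3 10 (.lc 0 0 (.lc 3 0 (.lc 0 2 (.lc 3 11 (.far [1,0,1,0,257] 16 (.lc 0 4 (.lc 0 10 (.lc 0 0 (.lc 0 4 (.lc 0 10 (.lc 4 11 (.lc 1 0 (.lc 4 11 (.lc 4 0 (.lc 4 12 (.lc 0 0 (.lc 0 11 (.lc 0 0 (.lc 0 10 (.lc 0 0 (.lc 0 11 (.lc 0 0 (.lc 0 4 (.lc 0 11 (.node [152,169] 10 9 (.far [16,257,256,0,257,1] 16 (.lc 0 2 (.lc 1 5 (.lc 1 5 (.lc 3 11 (.lc 2 5 .stop))))))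
 (.lc 0 11 (.lc 0 0 (.lc 0 12 .stop))))))))))))))))))))))))))))))))))))))))))))
 .stop))))))))))
 (.lc 0 0 (.lc 2 5 (.lc 4 8 (.lc 4 8 (.lc 4 0 (.lc 4 9 (.lc 0 0 (.lc 3 5 (.lc 0 0 (.node [101,118,135] 7 6 (.node [84] 8 7 (.node [117,128] 0 7 (.lc 0 7 (.lc 0 2 (.conf [5,84] (.lc 1 5 (.lc 0 2 (.lc 2 0 (.lc 3 1 (.lc 3 1 (.lc 0 0 (.lc 1 4 (.lc 2 5 (.lc 1 4 (.lc 3 1 (.lc 2 4 (.lc 4 1 .stop)))))))))))))))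
 (.lc 0 2 (.lc 1 5 (.node [117,137] 1 8 (.lc 1 9 (.lc 2 4 (.lc 2 5 (.lc 2 10 (.far [256,257,0,1,0,257] 16 (.lc 3 10 (.lc 3 0 (.lc 3 4 (.lc 2 9 (.lc 3 11 (.far [257,257,0,1,0,257] 16 (.lc 3 4 (.lc 3 5 (.lc 3 10 (.lc 3 0 (.lc 3 0 (.lc 3 0 (.lc 3 0 (.lc 4 4 (.far [256,257,0,1,0,257] 16 (.lc 4 11 (.lc 4 0 (.lc 4 0 (.lc 4 0 (.lc 4 0 (.lc 4 0 (.lc 4 0 (.lc 4 0 (.lc 5 0 (.lc 5 0 .stop))))))))))))))))))))))))))))))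
 (.lc 2 5 (.lc 1 7 (.lc 1 2 (.lc 1 2 (.lc 2 5 (.lc 2 5 (.lc 0 2 (.lc 3 9 (.lc 0 0 (.lc 1 4 (.lc 1 4 (.lc 3 0 (.lc 0 2 (.lc 3 10 (.node [117,137,144] 0 7 (.lc 0 7 (.lc 0 0 .stop))
 (.lc 1 4 (.lc 1 4 (.node [117,128,151] 8 0 .stop
 (.node [117,138,151] 9 7 (.lc 1 5 (.lc 0 2 (.node [84] 9 5 (.lc 1 4 (.lc 2 4 (.lc 1 4 (.lc 2 4 (.lc 2 4 (.lc 2 4 (.lc 1 2 (.lc 2 4 (.lc 2 4 (.lc 1 2 (.lc 1 2 (.lc 2 4 (.lc 2 4 (.lc 1 2 (.lc 1 2 (.lc 2 4 (.lc 2 4 (.node [66] 8 10 (.lc 0 2 .stop)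
 (.lc 2 4 (.lc 2 2 (.lc 2 2 (.lc 2 2 (.lc 3 4 (.lc 2 2 (.lc 2 2 (.lc 3 4 (.lc 3 4 (.lc 3 4 (.lc 3 4 (.lc 2 2 (.lc 2 2 (.lc 2 2 (.lc 2 2 (.lc 3 2 (.lc 3 2 (.lc 3 2 .stop))))))))))))))))))))))))))))))))))))
 (.lc 1 5 (.lc 2 5 (.lc 0 2 (.lc 2 5 (.lc 0 2 (.lc 2 5 (.lc 0 0 (.lc 1 4 (.lc 1 4 (.lc 2 5 (.lc 0 2 (.lc 2 5 (.lc 2 5 (.lc 1 4 (.lc 1 4 (.lc 2 5 (.lc 2 5 (.lc 1 4 (.lc 1 4 (.lc 2 5 (.lc 1 4 (.lc 2 5 (.lc 2 5 (.lc 1 7 (.lc 1 2 (.lc 1 2 (.lc 3 0 (.lc 0 2 (.lc 3 11 (.lc 2 5 (.lc 2 5 (.lc 2 4 (.lc 2 4 (.lc 2 4 (.lc 3 5 (.lc 1 0 (.lc 2 4 (.lc 2 4 (.lc 2 4 (.lc 3 5 (.lc 3 5 (.lc 3 5 (.lc 3 5 (.lc 1 2 (.lc 1 2 (.lc 3 5 (.lc 3 5 (.lc 2 4 (.lc 2 4 (.lc 2 4 (.lc 2 4 (.lc 2 4 (.lc 2 4 (.lc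 3 4 (.lc 3 4 (.lc 3 4 (.lc 3 4 .stop))))))))))))))))))))))))))))))))))))))))))))))))))))))))))))
 (.lc 0 2 (.lc 2 5 (.lc 0 0 (.lc 2 5 (.lc 0 2 (.lc 2 5 (.lc 0 2 (.lc 2 5 (.lc 1 7 (.lc 1 2 (.lc 0 0 (.lc 1 2 (.lc 2 5 (.lc 0 2 (.lc 2 5 (.lc 3 9 (.lc 1 7 (.lc 1 2 (.lc 1 2 (.lc 2 5 (.lc 0 2 (.lc 2 5 (.lc 3 0 (.lc 3 10 (.lc 3 5 (.lc 1 0 (.lc 3 5 (.lc 3 5 (.lc 3 5 (.lc 4 10 (.lc 1 0 (.lc 2 4 (.lc 2 4 (.lc 2 4 (.lc 4 10 (.lc 4 0 (.lc 4 11 (.lc 3 5 (.lc 2 7 (.lc 2 2 (.lc 1 0 (.lc 2 2 (.lc 2 2 (.lc 3 5 (.lc 3 5 (.lc 3 5 (.lc 1 2 (.lc 3 5 (.lc 3 5 (.lc 1 0 (.lc 3 5 (.lc 1 9 (.lc 1 2 (.lc 1 2 (.lc 3 5 (.lc 3 5 (.lc 0 2 (.lc 3 5 (.lc 1 0 (.lc 0 2 (.lc 3 5 (.lc 0 0 (.lc 3 5 (.lc 0 2 (.lc 3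 5 (.lc 4 5 (.lc 2 0 (.lc 4 5 (.lc 1 0 (.lc 4 5 (.lc 4 5 (.lc 4 5 .stop)))))))))))))))))))))))))))))))))))))))))))))))))))))))))))))))))))))))))))))))))))))))))))))))
 (.node [84,112] 0 5 (.lc 1 4 (.lc 1 4 (.conf [9,148] (.lc 2 4 (.lc 1 2 (.lc 1 2 (.lc 2 2 .stop)))))))
 (.node [84,121] 8 7 (.lc 1 9 (.lc 0 2 (.lc 1 9 (.node [128,149] 8 0 .stop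
 (.node [138,149] 9 5 (.lc 1 4 (.lc 1 4 (.lc 1 4 (.lc 3 0 (.node [66] 8 10 (.lc 0 2 .stop)
 (.lc 3 11 (.lc 0 8 (.lc 2 4 (.lc 2 4 (.lc 2 4 (.lc 2 4 (.lc 2 4 (.lc 2 4 (.lc 2 4 (.lc 2 4 (.lc 1 2 (.lc 1 2 (.lc 1 2 (.lc 3 0 (.lc 3 11 (.lc 2 4 (.lc 2 4 (.lc 2 4 (.lc 2 2 (.lc 2 2 (.lc 2 2 (.lc 2 2 (.lc 2 2 (.lc 3 4 (.lc 3 4 (.lc 3 4 (.lc 3 4 (.lc 4 11 (.lc 4 0 (.lc 4 12 (.lc 2 2 (.lc 2 2 (.lc 2 2 (.lc 0 8 (.lc 2 2 (.lc 2 2 (.lc 2 2 (.lc 3 2 (.lc 3 2 (.lc 3 2 (.lc 3 2 .stop))))))))))))))))))))))))))))))))))))))))))))))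
 (.lc 0 2 (.lc 2 9 (.lc 0 0 (.lc 2 9 (.lc 0 2 (.lc 2 9 (.lc 2 9 (.lc 2 9 (.lc 2 9 (.lc 1 5 (.lc 0 2 (.lc 1 5 (.lc 3 0 (.lc 0 2 (.lc 3 10 (.lc 2 9 (.lc 1 7 (.lc 1 2 (.lc 1 2 (.lc 2 9 (.lc 2 9 (.lc 2 5 (.lc 2 5 (.lc 2 5 (.lc 3 9 (.lc 1 0 (.lc 3 9 (.lc 3 9 (.lc 3 9 (.lc 4 10 (.lc 4 0 (.lc 4 11 (.lc 4 10 (.lc 1 9 (.lc 1 2 (.lc 1 2 (.lc 4 0 (.lc 4 11 (.lc 0 2 (.lc 4 10 (.lc 0 0 (.lc 4 0 (.lc 0 2 (.lc 4 11 (.lc 5 11 (.lc 1 0 (.lc 5 11 (.lc 5 0 (.lc 5 12 .stop))))))))))))))))))))))))))))))))))))))))))))))))))))))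
 (.node [84,112] 0 5 .stop
 (.node [84,121] 9 5 (.lc 1 4 (.lc 1 4 (.lc 1 4 (.lc 3 0 (.lc 3 10 (.lc 0 8 (.lc 2 4 (.lc 2 4 (.lc 2 4 (.lc 2 4 (.lc 2 4 (.lc 2 4 (.lc 2 4 (.lc 2 4 (.lc 1 2 (.lc 1 2 (.lc 1 2 (.node [66,144] 9 0 (.conf [4,112] (.lc 0 10 .stop))
 (.lc 0 7 (.node [66,154] 7 9 (.node [122] 8 7 (.lc 1 10 (.node [138] 10 4 (.lc 1 2 (.lc 1 2 (.lc 1 2 (.lc 3 0 (.lc 1 0 (.lc 2 2 (.lc 2 2 (.lc 2 2 (.lc 2 2 (.lc 2 2 (.lc 1 0 (.lc 1 0 (.lc 1 4 (.lc 2 0 (.lc 1 0 (.lc 2 0 .stop))))))))))))))))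
 (.lc 1 10 (.lc 2 6 (.lc 2 6 (.lc 2 10 (.lc 3 0 (.lc 3 11 (.lc 2 10 (.lc 2 10 (.lc 2 10 (.lc 1 4 (.lc 1 4 (.lc 2 10 (.lc 2 10 (.lc 2 6 (.lc 2 6 (.lc 2 6 (.lc 0 2 (.lc 2 6 (.lc 2 10 (.lc 1 7 (.lc 3 0 (.lc 3 11 (.lc 2 10 (.lc 2 10 (.lc 3 6 (.lc 3 6 (.lc 3 6 (.lc 3 10 (.lc 4 11 (.lc 4 0 (.lc 4 12 (.lc 3 10 (.lc 3 10 (.lc 3 10 (.lc 3 6 (.lc 3 6 (.lc 3 6 (.lc 3 6 (.lc 1 10 (.lc 3 6 (.lc 3 6 (.lc 3 6 (.lc 3 6 (.lc 3 6 (.lc 4 6 (.lc 4 6 (.lc 4 6 (.lc 4 6 .stop))))))))))))))))))))))))))))))))))))))))))))))))))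
 (.lc 3 0 (.lc 3 11 (.node [112,164] 7 0 .stop
 (.lc 3 6 (.node [123,164] 10 4 (.lc 1 2 (.lc 1 2 (.lc 1 2 (.lc 3 0 (.lc 1 0 (.lc 2 2 (.lc 2 2 (.lc 2 2 (.lc 2 2 (.lc 2 2 (.lc 1 0 (.lc 1 0 (.lc 2 2 (.lc 2 2 (.lc 2 2 (.lc 2 0 (.lc 3 2 (.lc 3 2 (.lc 3 2 (.far [1,1,1,257,4096,0,257] 4096 (.lc 2 0 (.lc 2 0 (.lc 2 0 (.lc 3 0 .stop))))))))))))))))))))))))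
 (.lc 3 0 (.lc 3 11 (.lc 4 11 (.lc 4 0 (.lc 4 12 .stop)))))))))))
 (.lc 2 4 (.lc 1 5 (.lc 2 4 (.lc 2 4 (.lc 2 4 (.lc 2 4 (.lc 2 2 (.lc 2 2 (.lc 2 2 (.lc 1 0 (.lc 3 4 (.lc 3 4 (.lc 3 4 (.lc 3 4 (.node [66,154,160] 0 4 .stop
 (.node [66,144,164] 9 0 .stop
 (.node [66,155,164] 7 9 (.node [123] 7 11 (.lc 2 0 (.lc 1 10 (.lc 2 12 (.lc 3 0 (.lc 0 10 (.lc 3 12 (.lc 3 6 (.lc 3 6 (.lc 0 0 (.lc 3 12 (.lc 3 0 (.lc 0 12 (.lc 3 13 (.lc 3 0 (.node [138] 8 10 (.lc 0 2 .stop)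
 (.lc 3 12 (.lc 3 6 (.lc 3 6 (.lc 3 6 (.lc 0 0 (.lc 4 12 (.lc 4 0 (.lc 0 12 (.lc 4 13 (.lc 4 6 (.lc 4 6 (.lc 4 6 (.lc 4 6 (.lc 4 6 (.lc 4 6 (.lc 4 6 (.lc 4 6 (.lc 4 6 (.lc 5 6 (.lc 5 6 (.lc 5 6 .stop))))))))))))))))))))))))))))))))))))
 (.lc 3 0 (.lc 3 12 (.lc 1 10 (.lc 3 6 (.lc 1 10 (.lc 3 0 (.lc 3 12 (.lc 4 12 (.lc 4 0 (.lc 4 13 .stop)))))))))))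
 (.lc 2 2 (.lc 1 4 (.lc 2 2 (.lc 2 2 (.lc 2 2 (.lc 2 2 (.lc 0 8 (.lc 2 2 (.lc 2 2 (.lc 2 2 (.lc 2 2 (.lc 2 2 (.lc 1 0 (.lc 3 2 (.lc 3 2 (.lc 3 2 (.lc 3 2 .stop))))))))))))))))))))))))))))))))))))))))))))))))))))))
 (.node [84,112] 7 0 .stop
 (.node [84,121] 8 7 (.lc 1 9 (.lc 0 2 (.lc 1 9 (.lc 1 5 (.lc 1 5 (.lc 0 2 (.lc 2 9 (.lc 0 0 (.lc 2 9 (.lc 0 2 (.lc 2 9 (.lc 2 9 (.lc 2 9 (.lc 2 9 (.node [128,149] 0 9 (.conf [5,84] (.lc 1 4 .stop))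
 (.lc 0 2 (.node [138,149] 9 5 (.node [84] 8 10 (.lc 2 0 (.lc 0 2 (.lc 0 4 (.lc 2 11 (.lc 3 11 (.lc 1 10 (.lc 1 2 (.lc 1 2 (.lc 3 0 (.lc 3 12 (.far [257,0,257,0,1,0,257] 16 (.lc 0 11 (.lc 3 11 (.lc 0 2 (.lc 3 0 (.lc 3 12 (.lc 0 2 (.lc 3 11 (.lc 0 0 (.lc 3 0 (.lc 0 2 (.lc 3 12 (.lc 2 5 (.lc 0 4 (.lc 0 11 (.lc 0 0 (.lc 4 12 (.lc 1 0 (.lc 4 12 (.lc 4 0 (.lc 4 13 (.lc 0 0 (.lc 0 0 (.lc 0 0 (.lc 0 0 (.lc 3 5 (.lc 0 12 (.lc 0 0 .stop))))))))))))))))))))))))))))))))))))))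
 (.lc 2 4 (.lc 2 4 (.node [84,160] 0 5 .stop
 (.lc 1 2 (.node [84,171] 8 10 (.lc 2 0 (.lc 0 2 (.lc 2 12 (.lc 3 0 (.lc 3 12 (.lc 2 11 (.lc 0 12 (.lc 3 12 (.lc 3 0 (.lc 3 13 (.lc 3 0 (.lc 0 2 (.lc 3 12 (.lc 0 11 (.lc 0 0 (.lc 4 12 (.lc 4 0 (.lc 4 13 (.lc 0 0 (.lc 0 0 (.lc 0 0 (.far [257,0,257,0,1,0,257] 16 (.lc 0 12 (.lc 0 0 .stop))))))))))))))))))))))))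
 (.lc 2 4 (.lc 2 4 (.lc 3 4 (.lc 3 4 (.lc 3 4 .stop)))))))))))
 (.lc 3 0 (.lc 0 2 (.lc 3 10 (.lc 2 9 (.lc 1 7 (.lc 1 2 (.lc 1 2 (.lc 2 9 (.lc 2 9 (.node [138,149,160] 0 9 .stop
 (.node [128,149,169] 8 0 .stop
 (.node [139,149,169] 9 5 (.node [84] 10 5 (.lc 1 4 (.lc 2 4 (.lc 1 4 (.lc 2 4 (.lc 2 4 (.lc 2 4 (.lc 1 2 (.lc 2 4 (.lc 2 4 (.lc 1 2 (.lc 1 2 (.lc 2 4 (.lc 2 4 (.lc 1 2 (.lc 1 2 (.lc 2 4 (.lc 2 4 (.node [66] 8 11 (.lc 0 2 .stop)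
 (.lc 2 4 (.lc 2 2 (.lc 2 2 (.lc 2 2 (.lc 3 4 (.lc 2 2 (.lc 2 2 (.lc 3 4 (.lc 3 4 (.lc 3 4 (.lc 3 4 (.lc 2 2 (.lc 2 2 (.lc 2 2 (.lc 2 2 (.lc 3 2 (.lc 3 2 (.lc 3 2 .stop))))))))))))))))))))))))))))))))))))
 (.lc 2 4 (.lc 2 4 (.lc 0 0 (.lc 1 2 (.lc 0 12 (.lc 2 4 (.lc 2 4 (.lc 3 4 (.lc 3 4 (.lc 3 4 .stop)))))))))))
 (.lc 3 9 (.lc 1 0 (.lc 3 9 (.lc 3 9 (.lc 3 9 (.lc 4 10 (.lc 4 0 (.lc 4 11 (.lc 4 10 (.lc 1 9 (.lc 1 2 (.lc 1 2 (.lc 4 0 (.lc 4 11 (.lc 0 2 (.lc 4 10 (.lc 0 0 (.lc 4 0 (.lc 0 2 (.lc 4 11 (.lc 5 11 (.lc 1 0 (.lc 5 11 (.lc 5 0 (.lc 5 12 .stop))))))))))))))))))))))))))))))))))))))))))))))))))))))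
 (.node [84,121,144] 0 5 .stop
 (.node [84,112,149] 7 0 .stop
 (.node [84,122,149] 8 7 (.lc 1 10 (.lc 0 2 (.lc 1 10 (.lc 1 9 (.lc 1 9 (.lc 0 2 (.lc 2 10 (.lc 0 0 (.lc 2 10 (.lc 0 2 (.lc 2 10 (.lc 2 10 (.lc 2 10 (.lc 2 10 (.node [128,169] 0 10 (.conf [9,149] (.lc 3 1 (.lc 1 5 (.lc 4 1 .stop))))
 (.lc 0 2 (.node [139,169] 10 9 (.node [149] 9 5 (.lc 1 4 (.lc 1 4 (.lc 3 0 (.lc 3 12 (.lc 2 4 (.lc 2 4 (.lc 2 4 (.lc 2 4 (.lc 2 4 (.lc 1 2 (.lc 1 2 (.node [66] 8 11 (.lc 2 0 (.lc 0 2 (.lc 2 12 (.lc 1 2 (.lc 1 2 (.lc 2 4 (.lc 0 12 (.lc 3 12 (.lc 3 0 (.lc 3 13 (.lc 0 0 (.lc 0 4 (.lc 0 0 (.lc 1 0 (.lc 0 0 (.lc 0 0 .stop))))))))))))))))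
 (.lc 2 4 (.lc 2 4 (.lc 2 2 (.lc 2 2 (.lc 2 2 (.lc 3 4 (.lc 3 4 (.lc 3 4 (.lc 0 0 (.lc 0 12 (.lc 2 2 (.lc 2 2 (.lc 2 2 (.lc 2 2 (.lc 3 2 (.lc 3 2 (.lc 3 2 .stop)))))))))))))))))))))))))))))
 (.lc 2 5 (.lc 1 2 (.lc 2 5 (.node [149,176] 0 9 (.lc 0 9 (.lc 0 0 .stop))
 (.node [149,188] 8 11 (.lc 2 0 (.lc 0 2 (.lc 2 13 (.lc 3 0 (.lc 3 13 (.lc 2 12 (.lc 0 13 (.lc 3 13 (.lc 3 0 (.lc 3 14 (.lc 3 0 (.lc 0 2 (.lc 3 13 (.lc 0 12 (.lc 0 0 (.lc 4 13 (.lc 4 0 (.lc 4 14 (.lc 0 0 (.lc 0 0 (.lc 0 0 (.far [257,0,257,0,1,0,257] 16 (.lc 0 13 (.lc 0 0 .stop))))))))))))))))))))))))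
 (.lc 2 5 (.lc 2 5 (.lc 3 5 (.lc 3 5 (.lc 3 5 .stop)))))))))))
 (.lc 3 0 (.lc 0 2 (.lc 3 11 (.lc 2 10 (.lc 1 7 (.lc 1 2 (.lc 1 2 (.lc 2 10 (.lc 2 10 (.node [139,169,176] 0 10 .stop
 (.node [128,169,186] 8 0 .stop
 (.node [140,169,186] 11 10 (.node [149] 9 5 (.lc 1 4 (.lc 1 4 (.lc 1 4 (.lc 3 0 (.lc 3 13 (.lc 2 4 (.lc 2 4 (.lc 2 4 (.lc 2 4 (.lc 2 4 (.lc 1 2 (.lc 1 2 (.lc 1 2 (.lc 0 4 (.lc 2 4 (.lc 2 2 (.lc 2 2 (.lc 2 2 (.lc 3 4 (.lc 3 4 (.node [66] 8 12 (.lc 0 2 .stop)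
 (.lc 2 2 (.lc 2 2 (.lc 2 2 (.lc 3 2 (.lc 3 2 .stop))))))))))))))))))))))))))
 (.lc 1 5 (.lc 0 2 (.lc 1 5 (.lc 1 5 (.lc 1 5 (.lc 3 0 (.lc 3 13 (.lc 2 5 (.lc 2 5 (.lc 2 5 .stop)))))))))))
 (.lc 3 10 (.lc 1 0 (.lc 3 10 (.lc 3 10 (.lc 3 10 (.lc 4 11 (.lc 4 0 (.lc 4 12 (.lc 4 11 (.lc 1 10 (.lc 1 2 (.lc 1 2 (.lc 4 0 (.lc 4 12 (.lc 0 2 (.lc 4 11 (.lc 0 0 (.lc 4 0 (.lc 0 2 (.lc 4 12 (.lc 5 12 (.lc 1 0 (.lc 5 12 (.lc 5 0 (.lc 5 13 .stop))))))))))))))))))))))))))))))))))))))))))))))))))))))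
 .stop))))))))))
 (.lc 0 0 (.node [101,118,135] 7 6 (.node [84] 7 5 (.lc 2 0 (.lc 1 4 (.lc 2 9 (.lc 2 4 (.lc 2 4 (.lc 2 4 (.node [84,128] 0 5 .stop
 (.lc 1 2 (.node [84,149,137] 9 5 (.lc 1 4 (.node [66] 8 9 (.lc 2 0 (.lc 0 9 (.lc 2 10 (.lc 1 2 (.lc 1 2 (.lc 3 10 (.lc 3 0 (.lc 3 11 (.lc 0 0 (.lc 3 10 (.lc 3 0 (.lc 3 11 (.lc 0 0 (.lc 1 2 (.lc 1 2 (.lc 3 10 (.lc 1 9 (.lc 3 0 (.lc 3 11 (.lc 1 0 (.lc 4 11 (.lc 4 11 (.lc 4 0 (.lc 4 12 (.lc 2 2 (.lc 2 2 (.lc 2 2 (.lc 4 0 (.lc 1 0 (.lc 1 0 (.lc 2 0 .stop)))))))))))))))))))))))))))))))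
 (.lc 1 4 (.lc 2 4 (.lc 2 4 (.lc 0 8 (.lc 2 4 (.lc 1 2 (.lc 1 2 (.lc 2 4 (.lc 2 4 (.lc 2 4 (.lc 1 2 (.lc 1 2 (.lc 2 4 (.lc 2 4 (.lc 1 2 (.lc 1 2 (.lc 2 4 (.lc 2 4 (.lc 2 4 (.lc 3 0 (.lc 3 10 (.lc 2 4 (.lc 2 4 (.lc 2 2 (.lc 2 2 (.lc 2 2 (.lc 3 4 (.lc 2 2 (.lc 2 2 (.lc 2 2 (.lc 3 4 (.lc 3 4 (.lc 3 4 (.lc 3 4 (.lc 3 4 (.lc 3 4 (.lc 2 2 (.lc 2 2 (.lc 2 2 (.lc 0 8 (.lc 2 2 (.lc 2 2 (.lc 2 2 (.lc 3 2 (.lc 3 2 (.lc 3 2 (.lc 3 2 .stop)))))))))))))))))))))))))))))))))))))))))))))))))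
 (.lc 3 9 (.lc 1 2 (.lc 1 2 (.lc 3 0 (.lc 3 10 (.lc 2 4 (.lc 2 4 (.lc 2 4 (.lc 2 4 (.lc 2 4 (.lc 0 0 (.lc 2 4 (.lc 0 9 (.lc 3 4 (.lc 3 4 (.lc 3 4 (.lc 3 4 (.lc 0 9 (.lc 2 2 (.lc 2 2 (.lc 0 0 (.lc 0 10 (.lc 3 4 (.lc 3 4 (.lc 3 4 (.lc 3 4 (.lc 3 4 (.lc 3 4 (.lc 3 4 (.lc 3 4 (.lc 3 4 (.lc 4 4 (.lc 4 4 (.lc 4 4 (.lc 4 4 .stop))))))))))))))))))))))))))))))))))))))))))))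
 (.lc 3 0 (.lc 3 9 (.node [84,112] 0 5 .stop
 (.node [84,121] 7 9 (.lc 2 0 (.lc 0 2 (.lc 2 10 (.lc 3 10 (.lc 1 9 (.lc 1 2 (.lc 1 2 (.lc 3 0 (.lc 3 11 (.node [128,149] 0 9 (.lc 0 9 (.lc 0 0 .stop))
 (.node [138,169,138] 9 5 (.lc 1 4 (.lc 1 4 (.lc 3 0 (.lc 3 11 (.lc 2 4 (.lc 2 4 (.lc 2 4 (.lc 2 4 (.lc 2 4 (.lc 1 2 (.lc 1 2 (.node [66] 10 4 (.lc 1 2 (.lc 1 2 (.lc 3 0 (.lc 1 0 (.lc 2 2 (.lc 2 2 (.lc 2 2 (.lc 2 2 (.lc 2 2 (.lc 1 0 (.lc 1 0 (.lc 2 2 (.lc 2 2 (.lc 2 0 (.lc 3 2 (.lc 3 2 (.lc 3 2 (.lc 0 0 (.lc 2 0 (.lc 2 0 (.lc 2 0 (.lc 3 0 .stop))))))))))))))))))))))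
 (.lc 2 4 (.lc 2 4 (.lc 2 2 (.lc 2 2 (.lc 2 2 (.lc 3 4 (.lc 3 4 (.lc 3 4 (.lc 0 0 (.lc 0 11 (.lc 2 2 (.lc 2 2 (.lc 2 2 (.lc 2 2 (.lc 3 2 (.lc 3 2 (.lc 3 2 .stop)))))))))))))))))))))))))))))
 (.lc 3 10 (.lc 3 0 (.lc 3 11 (.lc 0 2 (.lc 3 10 (.lc 0 0 (.lc 3 0 (.lc 0 2 (.lc 3 11 (.lc 2 5 (.lc 1 2 (.lc 2 5 (.lc 0 0 (.lc 1 2 (.lc 0 10 (.lc 4 11 (.lc 1 0 (.lc 4 11 (.lc 4 0 (.lc 4 12 (.lc 0 10 (.lc 0 0 (.lc 0 11 (.lc 0 10 (.lc 2 9 (.lc 2 2 (.lc 2 2 (.lc 0 0 (.lc 0 11 (.lc 1 2 (.lc 0 10 (.lc 1 0 (.lc 0 0 (.lc 1 2 (.lc 0 11 (.lc 3 5 (.lc 3 5 (.lc 3 5 (.lc 0 11 (.lc 2 0 (.lc 0 11 (.lc 0 0 (.lc 0 12 .stop))))))))))))))))))))))))))))))))))))))))))))))))))))))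
 (.lc 3 0 (.lc 3 9 (.lc 4 9 (.lc 4 0 (.lc 4 10 .stop))))))))))
 (.lc 0 0 (.node [101,118,135] 7 6 (.far [16,256,257,4096] 0 (.lc 3 0 (.lc 3 9 (.far [16,256,257,4096] 0 (.far [16,256,257,4096] 0 (.lc 3 0 (.lc 3 9 (.lc 4 9 (.lc 4 0 (.lc 4 10 .stop))))))))))
 (.lc 0 0 (.node [101,118,135,152] 7 6 (.node [84] 8 7 (.lc 1 5 (.lc 0 2 (.lc 1 5 (.lc 3 0 (.lc 0 2 (.lc 3 10 (.lc 0 2 (.lc 2 5 (.lc 0 0 (.lc 2 5 (.lc 0 2 (.lc 2 5 (.lc 2 5 (.lc 2 5 (.lc 2 5 (.lc 1 4 (.lc 1 4 (.node [84,128] 8 0 (.conf [5,144] (.lc 0 10 .stop))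
 (.lc 1 4 (.node [84,138] 9 8 (.node [154] 10 5 (.lc 1 4 (.node [66] 9 10 (.lc 2 0 (.lc 0 2 (.lc 2 11 (.lc 1 2 (.lc 1 2 (.lc 2 4 (.lc 0 11 (.lc 3 11 (.lc 3 0 (.lc 3 12 (.lc 0 0 (.lc 0 4 (.lc 0 0 (.lc 1 0 (.lc 0 0 (.lc 0 0 .stop))))))))))))))))
 (.lc 1 4 (.lc 1 4 (.lc 2 4 (.lc 2 4 (.lc 0 9 (.lc 2 4 (.lc 1 2 (.lc 1 2 (.lc 2 4 (.lc 2 4 (.lc 2 4 (.lc 1 2 (.lc 1 2 (.lc 2 4 (.lc 2 4 (.lc 1 2 (.lc 1 2 (.lc 1 2 (.lc 2 4 (.lc 2 4 (.lc 2 4 (.lc 3 0 (.lc 3 11 (.lc 2 4 (.lc 2 4 (.lc 2 2 (.lc 2 2 (.lc 2 2 (.lc 3 4 (.lc 2 2 (.lc 2 2 (.lc 2 2 (.lc 3 4 (.lc 3 4 (.lc 3 4 (.lc 3 4 (.lc 3 4 (.lc 3 4 (.lc 2 2 (.lc 2 2 (.lc 2 2 (.lc 0 9 (.lc 2 2 (.lc 2 2 (.lc 2 2 (.lc 3 2 (.lc 3 2 (.lc 3 2 (.lc 3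 2 .stop)))))))))))))))))))))))))))))))))))))))))))))))))))
 (.lc 3 0 (.lc 0 2 (.lc 3 11 (.node [144,165] 9 0 .stop
 (.node [155,165] 10 5 (.lc 1 4 (.lc 2 4 (.lc 1 4 (.lc 2 4 (.lc 2 4 (.lc 2 4 (.lc 1 2 (.lc 2 4 (.lc 2 4 (.lc 1 2 (.lc 1 2 (.lc 2 4 (.lc 2 4 (.lc 1 2 (.lc 1 2 (.lc 2 4 (.lc 2 4 (.node [66] 9 11 (.lc 0 2 .stop)
 (.lc 2 4 (.lc 2 2 (.lc 2 2 (.lc 2 2 (.lc 3 4 (.lc 2 2 (.lc 2 2 (.lc 3 4 (.lc 3 4 (.lc 3 4 (.lc 3 4 (.lc 2 2 (.lc 2 2 (.lc 2 2 (.lc 2 2 (.lc 3 2 (.lc 3 2 (.lc 3 2 .stop))))))))))))))))))))))))))))))))))))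
 (.lc 3 0 (.lc 3 11 (.lc 4 11 (.lc 4 0 (.lc 4 12 .stop)))))))))))
 (.lc 2 5 (.lc 1 7 (.lc 1 2 (.lc 1 2 (.lc 2 5 (.lc 2 5 (.lc 2 4 (.lc 2 4 (.lc 2 4 (.lc 3 5 (.lc 1 0 (.lc 3 5 (.lc 3 5 (.lc 3 5 (.node [84,138,160] 0 5 .stop
 (.lc 1 2 (.lc 1 2 (.node [84,128,165] 8 0 .stop
 (.node [84,139,165] 9 8 (.node [155] 9 11 (.lc 2 0 (.lc 0 2 (.lc 2 12 (.lc 3 0 (.lc 3 12 (.lc 2 10 (.lc 0 12 (.lc 3 12 (.lc 3 0 (.lc 3 13 (.lc 3 0 (.lc 0 2 (.lc 3 12 (.lc 0 10 (.lc 0 0 (.lc 4 12 (.lc 4 0 (.lc 4 13 (.lc 0 0 (.lc 0 0 (.lc 0 0 (.far [257,256,256,256,0,257,1] 16 (.lc 0 12 (.lc 0 0 .stop))))))))))))))))))))))))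
 (.lc 3 0 (.lc 0 2 (.lc 3 12 (.lc 1 10 (.lc 1 10 (.lc 3 0 (.lc 3 12 (.lc 4 12 (.lc 4 0 (.lc 4 13 .stop)))))))))))
 (.lc 2 4 (.lc 2 4 (.lc 2 4 (.lc 2 4 (.lc 2 4 (.lc 2 4 (.lc 3 4 (.lc 3 4 (.lc 3 4 (.lc 3 4 .stop)))))))))))))))))))))))))))))))))))))))))))))))))
 (.lc 3 0 (.lc 3 10 (.node [84,112] 0 5 .stop
 (.node [84,122] 8 7 (.lc 1 10 (.lc 0 2 (.lc 1 10 (.lc 3 0 (.lc 3 11 (.lc 0 2 (.lc 2 10 (.lc 0 0 (.lc 2 10 (.lc 0 2 (.lc 2 10 (.lc 2 10 (.lc 2 10 (.lc 2 10 (.lc 3 0 (.lc 0 2 (.lc 3 11 (.node [128,165] 8 0 (.conf [10,144] (.lc 0 11 .stop))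
 (.lc 0 2 (.node [139,165] 9 8 (.node [155] 10 5 (.lc 1 4 (.lc 1 4 (.lc 3 0 (.lc 3 12 (.lc 2 4 (.lc 2 4 (.lc 2 4 (.lc 2 4 (.lc 2 4 (.lc 1 2 (.lc 1 2 (.node [66] 11 4 (.lc 1 2 (.lc 1 2 (.lc 1 2 (.lc 3 0 (.lc 1 0 (.lc 2 2 (.lc 2 2 (.lc 2 2 (.lc 2 2 (.lc 2 2 (.lc 1 0 (.lc 1 0 (.lc 1 4 (.lc 2 0 (.lc 1 0 (.lc 2 0 .stop))))))))))))))))
 (.lc 2 4 (.lc 2 4 (.lc 2 2 (.lc 2 2 (.lc 2 2 (.lc 3 4 (.lc 3 4 (.lc 3 4 (.lc 0 0 (.lc 0 12 (.lc 2 2 (.lc 2 2 (.lc 2 2 (.lc 2 2 (.lc 3 2 (.lc 3 2 (.lc 3 2 .stop)))))))))))))))))))))))))))))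
 (.lc 3 0 (.lc 0 2 (.lc 3 12 (.node [144,186] 9 0 .stop
 (.node [156,186] 11 10 (.lc 1 5 (.lc 0 2 (.lc 1 5 (.lc 1 4 (.lc 1 4 (.lc 2 5 (.lc 2 5 (.lc 2 5 (.lc 2 5 (.lc 2 5 (.lc 3 4 (.lc 1 4 (.lc 2 5 (.lc 1 2 (.lc 2 5 (.lc 1 2 (.lc 1 2 (.lc 3 5 (.lc 3 5 (.lc 3 5 (.lc 2 4 (.lc 2 4 (.node [66] 9 12 (.lc 0 2 .stop)
 (.lc 1 2 (.lc 2 2 (.lc 2 2 .stop))))))))))))))))))))))))))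
 (.lc 3 0 (.lc 3 12 (.lc 4 12 (.lc 4 0 (.lc 4 13 .stop)))))))))))
 (.lc 2 10 (.lc 1 7 (.lc 1 2 (.lc 1 2 (.lc 2 10 (.lc 2 10 (.lc 4 11 (.lc 4 0 (.lc 4 12 (.lc 3 10 (.lc 1 0 (.lc 3 10 (.lc 3 10 (.lc 3 10 (.node [139,165,176] 0 10 (.lc 0 10 (.lc 0 0 .stop))
 (.node [128,165,186] 8 0 .stop
 (.node [140,165,186] 9 8 (.node [156] 10 5 (.lc 1 4 (.lc 1 4 (.lc 3 0 (.lc 3 13 (.lc 2 4 (.lc 2 4 (.lc 2 4 (.lc 2 4 (.lc 2 4 (.lc 1 2 (.lc 1 2 (.node [66] 12 11 (.lc 1 4 (.lc 1 4 (.lc 1 2 (.lc 1 2 (.lc 0 0 (.lc 0 13 (.lc 2 4 (.lc 2 4 (.lc 2 4 (.lc 0 0 (.lc 1 2 (.lc 1 11 (.lc 1 0 (.lc 1 0 .stop))))))))))))))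
 (.lc 2 4 (.lc 2 4 (.lc 2 2 (.lc 2 2 (.lc 2 2 (.lc 3 4 (.lc 3 4 (.lc 3 4 (.lc 0 0 (.lc 0 13 (.lc 2 2 (.lc 2 2 (.lc 2 2 (.lc 2 2 (.lc 3 2 (.lc 3 2 (.lc 3 2 .stop)))))))))))))))))))))))))))))
 (.lc 3 0 (.lc 0 2 (.lc 3 13 (.lc 1 11 (.lc 1 11 (.lc 3 0 (.lc 3 13 (.lc 4 13 (.lc 4 0 (.lc 4 14 .stop)))))))))))
 (.lc 2 5 (.lc 1 10 (.lc 1 2 (.lc 1 2 (.lc 2 5 (.lc 2 5 (.lc 0 2 (.lc 2 5 (.lc 0 0 (.lc 2 5 (.lc 0 2 (.lc 2 5 (.lc 3 5 (.lc 1 0 (.lc 3 5 (.lc 3 5 (.lc 3 5 .stop))))))))))))))))))))))))))))))))))))))))))))))))))))))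
 (.lc 3 0 (.lc 3 10 (.lc 4 10 (.lc 4 0 (.lc 4 11 .stop))))))))))
 .stop)))))))))))))))))))))))))))))))

theorem t22 : kNode2 awTt FTt 3 6 (check tyTt awTt triet FTt [] c22) (fun _ _ _ => true) 0 s22 Pl.nil s22 =
    true := by
  decide +kernel

end Chk
end Pool.Agent.Lib.MP_ba95e8_co
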