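import Pool.Agent.Lib.MP_ba95e8_co.ChkTab
import Pool.Agent.Lib.MP_ba95e8_co.ChkStates

/-!
Deltahedral domes: part 23 of the case analysis.
-/

namespace Pool.Agent.Lib.MP_ba95e8_co
namespace Chk

/-- certificate number 23 -/
def c23 : Cert := (.node [48,118,101,84,66] 3 0 (.lc 0 0 .stop)
 (.node [56,118,101,84,66] 3 8 (.node [135] 7 6 (.node [101,112] 7 0 (.node [128] 0 6 (.node [101] 8 6 (.lc 1 4 .stop)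
 (.lc 1 4 .stop))
 (.lc 0 9 (.lc 0 1 .stop)))
 (.node [101,113] 7 1 (.lc 0 1 .stop)
 (.node [101,121] 8 7 (.node [137] 6 5 (.node [84,96] 6 0 (.node [144] 0 5 (.node [84] 9 5 .stop
 (.lc 1 2 .stop))
 (.lc 0 1 (.lc 0 1 (.lc 0 10 (.node [145] 9 1 (.lc 0 1 .stop)
 (.lc 0 10 .stop))))))
 (.node [84,97] 6 1 .stop
 (.node [84,106] 9 6 (.node [154] 5 4 (.node [66,80] 5 0 (.node [160] 0 4 (.node [66] 10 4 .stop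
 .stop)
 (.lc 0 1 (.lc 0 1 (.lc 0 11 (.far [257,257,32,513,32,512,257,272,1,4096] 4097 (.lc 0 11 .stop))))))
 (.node [66,81] 5 1 .stop
 (.node [66,91] 10 5 (.node [171] 4 2 (.far [1,32,514,48,769,32,528,0,32,4097,1] 4096 (.node [32,76] 11 4 (.node [188] 12 2 (.far [1,1,4096,1,4096,1,4096,1,4096,4112,4096,0,257] 4096 (.lc 3 13 (.node [205,208] 11 12 (.node [177,205] 1 12 .stop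
 (.lc 2 4 (.lc 1 2 (.node [190,205] 10 11 (.node [174] 9 10 (.node [158] 14 12 (.far [1,0,0,1,4112,256,256] 0 (.lc 1 0 .stop))
 (.conf [150,165,236] (.far [16,257,0,0,0,0,257,0,4096,4096] 0 (.conf [150,165,236] .stop))))
 (.conf [165,180,236] (.far [16,257,0,257,0,4096,4096] 0 .stop)))
 (.conf [190,208,237] (.lc 2 2 (.conf [205,236] (.lc 2 2 (.conf [205,236] (.lc 1 0 (.lc 3 4 (.lc 1 0 (.far [4096,4112,16,256,256,256] 0 (.node [165,180,205] 9 12 .stop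
 (.lc 2 0 (.lc 2 0 (.lc 2 0 .stop)))))))))))))))))
 (.lc 3 13 (.lc 4 14 .stop)))))
 (.lc 3 0 (.lc 3 1 (.lc 3 13 (.lc 1 2 (.lc 1 2 (.lc 3 0 (.lc 3 13 (.lc 4 1 (.lc 4 13 (.lc 4 0 (.lc 4 14 .stop))))))))))))
 (.lc 2 0 (.lc 3 2 (.lc 3 2 (.conf [76,192] (.conf [32,194] (.lc 2 0 (.lc 2 0 (.lc 3 2 (.lc 3 2 (.lc 3 0 (.lc 4 2 (.lc 4 2 (.lc 3 0 (.lc 3 0 (.lc 3 0 (.lc 4 0 .stop))))))))))))))))))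
 (.lc 3 0 (.lc 3 1 (.lc 3 12 (.lc 1 4 (.lc 1 4 (.lc 3 0 (.lc 3 12 (.lc 4 1 (.lc 4 12 (.lc 4 0 (.lc 4 13 .stop))))))))))))
 (.lc 2 2 (.lc 2 2 (.lc 2 2 (.lc 2 2 (.lc 2 2 (.lc 3 4 (.lc 3 4 (.node [66,81] 5 1 .stop
 (.conf [91,176] (.conf [66,180] (.conf [66,180] (.lc 2 2 (.lc 2 2 (.lc 2 2 (.lc 2 2 (.lc 2 2 (.lc 2 2 (.lc 2 2 (.lc 2 2 (.lc 2 2 (.lc 2 2 (.lc 3 4 (.lc 3 4 (.lc 3 4 (.lc 3 2 (.lc 3 2 (.lc 3 2 (.lc 3 2 (.lc 3 2 (.lc 3 2 (.lc 4 4 (.lc 4 4 (.lc 4 4 (.lc 4 4 (.lc 3 2 (.lc 3 2 (.lc 3 2 (.lc 3 2 (.lc 3 2 (.lc 3 2 (.lc 3 2 (.lc 3 2 (.lc 3 2 (.lc 3 2 (.lc 3 2 (.lc 3 2 (.lc 3 2 (.lc 3 2 (.lc 3 2 (.lc 4 2 (.lc 4 2 (.lc 4 2 (.lc 4 2 (.lc 4 2 (.lc 4 2 .stop))))))))))))))))))))))))))))))))))))))))))))))))))))))))))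
 (.lc 3 0 (.lc 3 1 (.lc 3 11 (.lc 1 5 (.lc 1 5 (.lc 3 0 (.lc 3 11 (.lc 4 1 (.lc 4 11 (.lc 4 0 (.lc 4 12 .stop))))))))))))
 (.lc 2 4 (.lc 2 4 (.lc 2 4 (.lc 2 4 (.lc 2 4 (.lc 3 5 (.lc 3 5 (.node [84,97] 6 1 .stop
 (.conf [106,160] (.conf [84,165] (.conf [84,165] (.lc 2 4 (.lc 2 4 (.lc 2 4 (.lc 2 4 (.lc 2 4 (.lc 2 4 (.lc 2 4 (.lc 2 4 (.lc 2 4 (.lc 2 4 (.lc 3 5 (.lc 3 5 (.lc 3 5 (.lc 3 4 (.lc 3 4 (.lc 3 4 (.lc 3 4 (.lc 3 4 (.lc 3 4 (.lc 4 5 (.lc 4 5 (.lc 4 5 (.lc 4 5 (.lc 3 4 (.lc 3 4 (.lc 3 4 (.lc 3 4 (.lc 3 4 (.lc 3 4 (.lc 3 4 (.lc 3 4 (.lc 3 4 (.lc 3 4 (.lc 3 4 (.lc 3 4 (.lc 3 4 (.lc 3 4 (.lc 3 4 (.lc 4 4 (.lc 4 4 (.lc 4 4 (.lc 4 4 (.lc 4 4 (.lc 4 4 .stop))))))))))))))))))))))))))))))))))))))))))))))))))))))))))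
 (.lc 3 0 (.lc 3 10 (.lc 1 6 (.lc 3 1 (.lc 1 6 (.lc 3 0 (.lc 3 10 (.lc 4 10 (.lc 4 0 (.lc 4 11 .stop)))))))))))
 (.lc 2 5 (.lc 2 5 (.lc 2 5 (.lc 2 5 (.lc 2 5 (.lc 3 3 (.lc 3 3 (.lc 3 3 (.node [101,113] 7 1 (.lc 0 1 .stop)
 (.conf [121,144] (.conf [101,150] (.conf [101,150] (.lc 2 5 (.lc 2 5 (.lc 2 5 (.lc 2 5 (.lc 2 5 (.lc 2 5 (.lc 2 5 (.lc 2 5 (.lc 3 3 (.lc 3 3 (.lc 3 5 (.lc 3 5 (.lc 3 5 (.lc 3 5 (.lc 3 5 (.lc 3 5 (.lc 4 3 (.lc 4 3 (.lc 4 3 (.lc 3 5 (.lc 3 5 (.lc 3 5 (.lc 3 5 (.lc 3 5 (.lc 3 5 (.lc 3 5 (.lc 3 5 (.lc 3 5 (.lc 3 5 (.lc 3 5 (.lc 4 5 (.lc 4 5 (.lc 4 5 (.lc 4 5 .stop)))))))))))))))))))))))))))))))))))))))))))))))))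
 (.lc 0 0 (.lc 2 7 (.lc 0 0 (.node [135,152] 7 6 (.node [101,112] 7 0 (.node [128] 0 6 (.node [101] 8 6 (.lc 1 4 .stop)
 (.lc 1 6 (.lc 1 4 (.lc 2 4 .stop))))
 (.lc 0 10 .stop))
 (.node [101,121,152] 7 9 (.lc 0 3 .stop)
 (.node [101,122] 8 7 (.node [138] 6 5 (.node [84,96] 6 0 (.node [160] 0 5 (.node [84] 10 5 .stop
 (.lc 1 2 .stop))
 (.lc 0 1 (.lc 0 11 (.lc 0 9 .stop))))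
 (.node [84,105,152] 6 9 .stop
 (.node [84,107] 10 6 (.node [171] 5 4 (.node [66,80] 5 0 (.far [4112,4112,2,8208,2,8192,4112,4097,16,256] 0 (.lc 0 1 (.lc 0 12 (.lc 0 9 .stop))))
 (.node [66,89,152] 5 9 .stop
 (.node [66,92] 11 5 (.far [1,4112,2,8208,2,8192,4112,4097,16,256] 0 (.lc 3 0 (.lc 3 9 (.lc 3 13 (.lc 1 4 (.lc 1 4 (.lc 3 0 (.lc 3 13 (.lc 4 13 (.lc 4 0 (.lc 4 14 .stop)))))))))))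
 (.lc 2 2 (.lc 2 2 (.lc 2 2 (.lc 2 2 (.lc 2 2 (.lc 2 2 (.lc 3 4 (.lc 3 4 (.conf [92,192] (.conf [66,196] (.conf [66,196] (.lc 2 2 (.lc 2 2 (.lc 2 2 (.lc 2 2 (.lc 2 2 (.lc 2 2 (.lc 2 2 (.lc 2 2 (.lc 2 2 (.lc 2 2 (.lc 2 2 (.lc 3 4 (.lc 3 4 (.lc 3 4 (.lc 3 2 (.lc 3 2 (.lc 3 2 (.lc 3 2 (.lc 3 2 (.lc 4 4 (.lc 4 4 (.lc 4 4 (.lc 3 2 (.lc 3 2 (.lc 3 2 (.lc 3 2 (.lc 3 2 (.lc 3 2 (.lc 3 2 (.lc 3 2 (.lc 3 2 (.lc 3 2 (.lc 3 2 (.lc 3 2 (.lc 3 2 (.lc 3 2 (.lc 3 2 (.lc 3 2 (.lc 4 2 (.lc 4 2 (.lc 4 2 (.lc 4 2 (.lc 4 2 .stop)))))))))))))))))))))))))))))))))))))))))))))))))))))))))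
 (.lc 3 0 (.lc 3 9 (.lc 3 12 (.lc 1 5 (.lc 1 5 (.lc 3 0 (.lc 3 12 (.lc 4 12 (.lc 4 0 (.lc 4 13 .stop)))))))))))
 (.lc 2 4 (.lc 2 4 (.lc 2 4 (.lc 2 4 (.lc 2 4 (.lc 2 4 (.lc 3 5 (.lc 3 5 (.conf [107,176] (.conf [84,181] (.conf [84,181] (.lc 2 4 (.lc 2 4 (.lc 2 4 (.lc 2 4 (.lc 2 4 (.lc 2 4 (.lc 2 4 (.lc 2 4 (.lc 2 4 (.lc 2 4 (.lc 2 4 (.lc 3 5 (.lc 3 5 (.lc 3 5 (.lc 3 4 (.lc 3 4 (.lc 3 4 (.lc 3 4 (.lc 3 4 (.lc 4 5 (.lc 4 5 (.lc 4 5 (.lc 3 4 (.lc 3 4 (.lc 3 4 (.lc 3 4 (.lc 3 4 (.lc 3 4 (.lc 3 4 (.lc 3 4 (.lc 3 4 (.lc 3 4 (.lc 3 4 (.lc 3 4 (.lc 3 4 (.lc 3 4 (.lc 3 4 (.lc 3 4 (.lc 4 4 (.lc 4 4 (.lc 4 4 (.lc 4 4 (.lc 4 4 .stop)))))))))))))))))))))))))))))))))))))))))))))))))))))))))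
 (.lc 3 0 (.lc 3 11 (.lc 1 6 (.lc 3 3 (.lc 1 6 (.lc 3 0 (.lc 3 11 (.lc 4 11 (.lc 4 0 (.lc 4 12 .stop)))))))))))
 (.lc 2 5 (.lc 2 5 (.lc 2 5 (.lc 2 5 (.lc 2 5 (.lc 2 5 (.lc 3 3 (.lc 3 3 (.lc 3 3 (.conf [122,160] (.conf [101,166] (.conf [101,166] (.lc 2 5 (.lc 2 5 (.lc 2 5 (.lc 2 5 (.lc 2 5 (.lc 2 5 (.lc 2 5 (.lc 2 5 (.lc 2 5 (.lc 3 3 (.lc 3 3 (.lc 3 5 (.lc 3 5 (.lc 3 5 (.lc 3 5 (.lc 3 5 (.lc 4 3 (.lc 4 3 (.lc 4 3 (.lc 3 5 (.lc 3 5 (.lc 3 5 (.lc 3 5 (.lc 3 5 (.lc 3 5 (.lc 3 5 (.lc 3 5 (.lc 3 5 (.lc 3 5 (.lc 3 5 (.lc 4 5 (.lc 4 5 (.lc 4 5 (.lc 4 5 .stop)))))))))))))))))))))))))))))))))))))))))))))))))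
 (.lc 0 0 (.lc 2 7 (.lc 0 0 (.lc 3 7 .stop)))))))))
 (.conf [56,118] (.conf [48,118] (.conf [57,118] (.lc 0 0 (.conf [49,118] (.conf [56,128] (.conf [118,135] (.conf [118,135] (.conf [56,118] (.conf [48,118] (.conf [57,118] (.lc 0 0 (.node [49,118,135,101,84,66] 7 6 (.node [101,134] 6 5 (.lc 1 4 (.lc 0 8 (.lc 1 4 (.lc 0 8 (.lc 3 9 (.lc 1 8 (.lc 3 0 (.lc 3 10 (.lc 2 4 (.lc 1 5 (.lc 2 4 (.lc 0 8 (.lc 2 4 (.lc 2 4 (.lc 2 4 (.lc 0 8 (.lc 3 9 (.lc 3 0 (.lc 0 8 (.lc 3 10 (.node [84,128] 0 5 (.conf [4,66] (.lc 1 2 .stop))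
 (.lc 1 5 (.node [84,137] 5 4 (.node [66] 8 9 (.lc 2 0 (.lc 0 9 (.lc 0 2 (.lc 2 10 (.lc 0 0 (.lc 3 10 (.lc 1 9 (.lc 3 0 (.lc 0 10 (.lc 3 11 (.lc 3 1 (.lc 0 10 (.lc 0 0 (.lc 3 10 (.lc 3 0 (.lc 0 10 (.lc 3 11 (.lc 2 4 (.lc 3 10 (.lc 3 0 (.lc 0 10 (.lc 3 11 (.lc 3 1 (.lc 0 10 (.lc 0 0 (.lc 0 4 (.lc 0 10 (.lc 4 11 (.lc 0 0 (.lc 4 11 (.lc 4 0 (.lc 0 11 (.lc 4 12 (.lc 0 0 (.lc 0 11 (.lc 0 0 (.lc 0 11 (.lc 0 0 (.lc 0 11 (.lc 4 1 (.lc 0 11 (.lc 0 0 (.lc 0 12 .stop)))))))))))))))))))))))))))))))))))))))))))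
 (.lc 2 2 (.lc 1 8 (.lc 2 2 (.node [66,144] 0 4 .stop
 (.node [66,154] 8 9 (.lc 2 0 (.lc 0 9 (.lc 2 11 (.lc 3 0 (.lc 0 10 (.lc 3 11 (.lc 3 1 (.lc 0 11 (.lc 0 0 (.lc 3 11 (.lc 3 0 (.lc 0 11 (.lc 3 12 (.lc 3 0 (.lc 0 10 (.lc 3 11 (.lc 0 10 (.lc 0 0 (.lc 0 11 (.lc 0 0 (.lc 4 11 (.lc 4 0 (.lc 0 11 (.lc 4 12 (.lc 0 0 (.lc 0 12 (.lc 0 0 (.lc 0 11 (.lc 0 0 (.lc 0 11 (.lc 4 1 (.lc 0 11 (.lc 0 0 (.lc 0 12 .stop))))))))))))))))))))))))))))))))))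
 (.lc 2 2 (.lc 2 2 (.lc 1 8 (.lc 3 2 (.lc 3 2 (.lc 3 2 .stop))))))))))))
 (.lc 2 4 (.lc 2 4 (.lc 1 8 (.lc 4 10 (.lc 0 8 (.lc 4 10 (.lc 4 0 (.lc 4 11 (.lc 3 4 (.lc 3 4 (.lc 3 4 (.lc 0 9 (.lc 0 0 (.lc 0 10 (.lc 0 9 (.lc 0 0 (.lc 0 10 (.lc 1 0 (.node [84,137,144] 0 5 .stop
 (.node [84,128,149] 8 0 (.far [4096,0,0,1,0,257] 16 .stop)
 (.lc 1 9 (.node [84,138,149] 9 5 (.node [66] 8 10 (.lc 2 0 (.lc 0 10 (.lc 2 11 (.lc 0 0 (.lc 3 11 (.lc 1 10 (.lc 3 0 (.lc 0 11 (.lc 3 12 (.lc 3 1 (.lc 0 11 (.lc 0 0 (.lc 3 11 (.lc 3 0 (.lc 0 11 (.lc 3 12 (.lc 2 9 (.lc 3 11 (.lc 3 0 (.lc 0 11 (.lc 3 12 (.lc 3 1 (.lc 0 11 (.lc 0 0 (.lc 0 11 (.lc 4 12 (.lc 0 0 (.lc 4 12 (.lc 4 0 (.lc 0 12 (.lc 4 13 (.lc 0 0 (.lc 0 12 (.lc 0 0 (.lc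 0 12 (.lc 0 0 (.lc 0 12 (.lc 4 1 (.lc 0 12 (.lc 0 0 (.lc 0 13 .stop)))))))))))))))))))))))))))))))))))))))))
 (.lc 1 2 (.lc 0 8 (.lc 1 2 (.lc 1 2 (.lc 1 2 (.lc 3 0 (.lc 3 11 (.lc 0 8 (.lc 2 2 (.lc 2 2 (.lc 2 2 .stop))))))))))))
 (.lc 0 10 (.lc 0 10 (.lc 0 0 (.lc 0 11 .stop)))))))))))))))))))))))))))))))))))))))))))))))))
 (.lc 2 5 (.lc 2 5 (.node [101,128] 0 6 .stop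
 (.node [101,137] 8 9 (.lc 2 0 (.lc 0 2 (.lc 0 4 (.lc 2 10 (.lc 3 10 (.lc 1 9 (.lc 1 2 (.lc 1 2 (.lc 1 4 (.lc 0 2 (.lc 1 4 (.lc 3 0 (.lc 3 11 (.lc 2 6 (.lc 0 10 (.lc 3 10 (.lc 0 2 (.lc 3 0 (.lc 3 11 (.lc 0 2 (.lc 0 4 (.lc 3 10 (.lc 0 0 (.lc 1 9 (.lc 3 0 (.lc 0 2 (.lc 0 4 (.lc 3 11 (.far [1,0,1,0,257] 16 (.lc 0 4 (.lc 0 5 (.lc 0 10 (.lc 0 0 (.lc 0 4 (.lc 0 5 (.lc 0 10 (.lc 0 2 (.lc 4 11 (.lc 1 0 (.lc 1 2 (.lc 1 2 (.lc 4 11 (.lc 0 2 (.lc 4 0 (.lc 4 12 (.lc 0 4 (.lc 0 0 (.lc 0 11 (.lc 0 0 (.lc 0 10 (.lc 0 0 (.lc 0 4 (.lc 0 10 (.lc 0 0 (.lc 0 11 (.lc 0 4 (.lc 0 0 (.lc 0 4 (.lc 0 5 (.lc 0 11 (.lc 0 4 (.node [150,169] 9 6 (.lc 1 5 (.lc 1 4 (.lc 2 5 (.far [257,257,4096,4096,0,257] 16 (.lc 0 11 .stop)))))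
 (.lc 0 11 (.lc 0 0 (.lc 0 10 (.lc 0 4 (.lc 0 0 (.lc 0 12 .stop))))))))))))))))))))))))))))))))))))))))))))))))))))))))))))))))))))
 (.lc 2 5 (.lc 2 5 (.lc 3 5 (.lc 3 5 (.lc 3 5 .stop))))))))))
 (.lc 0 0 (.conf [49,118] (.conf [57,118] (.conf [57,118] (.conf [48,118] (.conf [58,118] (.lc 0 0 (.conf [49,118] (.lc 0 0 (.node [49,118,135,152,101,84,66] 7 6 (.node [101] 6 5 (.lc 1 4 (.lc 1 4 (.lc 1 4 (.lc 3 10 (.lc 1 5 (.lc 3 0 (.lc 3 10 (.lc 3 0 (.lc 3 11 (.lc 2 4 (.lc 2 4 (.lc 2 4 (.lc 2 4 (.lc 2 4 (.lc 2 4 (.lc 0 9 (.lc 3 9 (.lc 3 10 (.lc 3 0 (.lc 3 9 (.lc 3 11 (.node [84,128] 0 5 (.conf [4,66] (.lc 1 2 .stop))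
 (.lc 0 6 (.node [84,138] 5 4 (.node [66] 8 10 (.lc 2 0 (.lc 0 2 (.node [154] 9 10 (.lc 2 0 (.lc 0 2 (.lc 2 11 (.lc 1 2 (.lc 1 2 (.lc 2 4 (.lc 0 11 (.lc 3 11 (.lc 3 0 (.lc 3 12 (.lc 0 0 (.lc 0 4 (.lc 0 0 (.lc 1 0 (.lc 0 0 (.lc 0 0 .stop))))))))))))))))
 (.lc 2 11 (.lc 0 0 (.lc 3 11 (.lc 1 10 (.lc 3 0 (.lc 0 11 (.lc 3 12 (.lc 3 6 (.lc 3 6 (.lc 0 0 (.lc 3 11 (.lc 3 0 (.lc 0 11 (.lc 3 12 (.lc 2 4 (.lc 3 11 (.lc 3 0 (.lc 2 4 (.lc 3 12 (.lc 3 6 (.lc 3 6 (.lc 3 6 (.lc 1 2 (.lc 3 6 (.lc 0 11 (.lc 4 12 (.lc 0 0 (.lc 4 12 (.lc 4 0 (.lc 0 12 (.lc 4 13 (.lc 4 6 (.lc 4 6 (.lc 4 6 (.lc 4 6 (.lc 2 10 (.lc 4 6 (.lc 4 6 (.lc 4 6 (.lc 4 6 (.lc 4 6 (.lc 4 6 (.lc 4 6 (.lc 4 6 (.lc 5 6 (.lc 5 6 (.lc 5 6 (.lc 5 6 .stop)))))))))))))))))))))))))))))))))))))))))))))))))))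
 (.lc 2 2 (.lc 2 2 (.lc 2 2 (.node [66,160] 0 4 .stop
 (.node [66,171] 8 10 (.lc 2 0 (.lc 1 11 (.lc 2 12 (.lc 3 0 (.lc 0 11 (.lc 3 12 (.lc 3 6 (.lc 3 6 (.lc 0 0 (.lc 3 12 (.lc 3 0 (.lc 0 12 (.lc 3 13 (.lc 3 0 (.node [155] 9 11 (.lc 0 2 .stop)
 (.lc 3 12 (.lc 3 6 (.lc 3 6 (.lc 3 6 (.lc 0 0 (.lc 4 12 (.lc 4 0 (.lc 0 12 (.lc 4 13 (.lc 4 6 (.lc 4 6 (.lc 4 6 (.lc 4 6 (.lc 4 6 (.lc 4 6 (.lc 4 6 (.lc 4 6 (.lc 4 6 (.lc 5 6 (.lc 5 6 (.lc 5 6 .stop))))))))))))))))))))))))))))))))))))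
 (.lc 2 2 (.lc 2 2 (.lc 3 2 (.lc 3 2 (.lc 3 2 .stop)))))))))))
 (.lc 2 4 (.lc 2 4 (.lc 1 0 (.lc 4 11 (.lc 4 11 (.lc 4 0 (.lc 4 12 (.lc 3 4 (.lc 3 4 (.lc 3 4 (.lc 0 10 (.lc 0 0 (.lc 0 11 (.lc 0 10 (.lc 0 0 (.lc 0 11 (.lc 0 6 (.node [84,138,160] 0 5 .stop
 (.node [84,128,165] 8 0 .stop
 (.lc 0 6 (.node [84,139,165] 10 5 (.node [66] 9 8 (.lc 1 11 (.node [155] 11 10 (.lc 1 4 (.lc 1 4 (.lc 1 2 (.lc 1 2 (.lc 0 0 (.lc 0 12 (.lc 2 4 (.lc 2 4 (.lc 2 4 (.lc 0 0 (.lc 1 2 (.lc 1 10 (.lc 1 0 (.lc 1 0 .stop))))))))))))))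
 (.lc 1 11 (.lc 2 6 (.lc 2 6 (.lc 2 11 (.lc 3 0 (.lc 3 12 (.lc 2 11 (.lc 2 11 (.lc 2 11 (.lc 1 10 (.lc 1 10 (.lc 2 11 (.lc 2 11 (.lc 2 6 (.lc 2 6 (.lc 2 6 (.lc 2 6 (.lc 2 11 (.lc 1 8 (.lc 3 0 (.lc 3 12 (.lc 2 11 (.lc 2 11 (.lc 3 6 (.lc 3 6 (.lc 3 6 (.lc 3 11 (.lc 4 12 (.lc 4 0 (.lc 4 13 (.lc 3 11 (.lc 3 11 (.lc 3 11 (.lc 3 6 (.lc 3 6 (.lc 3 6 (.lc 3 6 (.lc 1 11 (.lc 3 6 (.lc 3 6 (.lc 3 6 (.lc 3 6 (.lc 3 6 (.lc 4 6 (.lc 4 6 (.lc 4 6 (.lc 4 6 .stop)))))))))))))))))))))))))))))))))))))))))))))))))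
 (.lc 1 2 (.lc 1 2 (.lc 1 2 (.lc 1 2 (.lc 1 2 (.lc 3 0 (.lc 3 12 (.lc 2 2 (.lc 2 2 (.lc 2 2 .stop)))))))))))
 (.lc 0 11 (.lc 0 11 (.lc 0 0 (.lc 0 12 .stop)))))))))))))))))))))))))))))))))))))))))))))))))
 (.lc 2 5 (.lc 2 5 (.node [101,128] 0 6 .stop
 (.node [101,138] 9 8 (.lc 1 10 (.lc 0 2 (.lc 0 4 (.lc 1 10 (.lc 1 6 (.lc 1 6 (.lc 0 2 (.lc 0 4 (.lc 2 10 (.lc 0 0 (.lc 1 8 (.lc 2 10 (.lc 0 2 (.lc 0 4 (.lc 2 10 (.lc 2 10 (.lc 0 2 (.lc 2 10 (.lc 2 10 (.node [144,166] 0 10 (.lc 0 5 (.conf [5,84] .stop))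
 (.lc 0 2 (.lc 0 4 (.node [155,166] 10 6 (.lc 1 5 (.lc 1 4 (.lc 2 5 (.lc 2 5 (.node [84] 11 5 (.node [66] 9 11 (.lc 2 0 (.lc 0 2 (.lc 2 12 (.lc 1 2 (.lc 1 2 (.lc 2 4 (.lc 0 12 (.lc 3 12 (.lc 3 0 (.lc 3 13 (.lc 0 0 (.lc 0 4 (.lc 0 0 (.lc 1 0 (.lc 0 0 (.lc 0 0 .stop))))))))))))))))
 (.lc 1 2 (.lc 1 2 (.lc 1 2 (.lc 1 2 (.lc 3 0 (.lc 3 12 (.lc 2 2 (.lc 2 2 (.lc 2 2 .stop))))))))))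
 (.node [84,176] 0 5 .stop
 (.node [84,188] 12 5 (.node [66] 11 12 (.lc 2 0 (.lc 2 13 (.lc 1 2 (.lc 1 2 (.lc 0 0 (.lc 0 13 (.lc 3 13 (.lc 3 0 (.lc 3 14 (.lc 0 0 (.lc 1 2 (.lc 1 12 (.lc 1 0 (.lc 1 0 .stop))))))))))))))
 (.lc 1 2 (.lc 1 2 (.lc 1 2 (.lc 1 2 (.lc 3 0 (.lc 3 13 (.lc 2 2 (.lc 2 2 (.lc 2 2 .stop))))))))))
 .stop)))))))
 (.lc 3 0 (.lc 0 2 (.lc 0 4 (.lc 3 11 (.lc 2 10 (.lc 1 8 (.lc 1 2 (.lc 1 2 (.lc 1 4 (.lc 0 2 (.lc 1 4 (.lc 2 10 (.lc 2 10 (.node [155,166,176] 0 10 .stop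
 (.lc 0 2 (.node [144,166,186] 9 0 .stop
 (.node [156,166,186] 10 6 (.lc 1 5 (.lc 1 4 (.lc 2 5 (.lc 2 5 (.node [84] 11 5 (.lc 2 4 (.lc 1 2 (.lc 1 2 (.lc 1 2 (.node [66] 9 12 (.lc 0 2 .stop)
 (.lc 2 2 (.lc 2 2 .stop)))))))
 (.lc 0 0 (.lc 0 13 .stop)))))))
 (.lc 0 2 (.lc 3 10 (.lc 1 0 (.lc 1 2 (.lc 1 2 (.lc 3 10 (.lc 0 2 (.lc 3 10 (.lc 3 10 (.lc 4 11 (.lc 0 2 (.lc 4 0 (.lc 4 12 (.lc 4 11 (.lc 1 10 (.lc 1 2 (.lc 1 2 (.lc 1 4 (.lc 0 2 (.lc 1 4 (.lc 4 0 (.lc 4 12 (.lc 0 2 (.lc 0 4 (.lc 4 11 (.lc 0 0 (.lc 1 10 (.lc 4 0 (.lc 0 2 (.lc 0 4 (.lc 4 12 (.lc 0 2 (.lc 5 12 (.lc 1 0 (.lc 1 2 (.lc 1 2 (.lc 5 12 (.lc 0 2 (.lc 5 0 (.lc 5 13 .stop))))))))))))))))))))))))))))))))))))))))))))))))))))))))))))))))))))))))))))))))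
 (.lc 2 5 (.lc 2 5 (.lc 3 5 (.lc 3 5 (.lc 3 5 .stop))))))))))
 (.lc 0 0 (.node [49,118,135,152,101,84,66] 8 7 (.node [101] 8 6 (.lc 1 5 (.lc 1 5 (.lc 1 4 (.lc 1 4 (.lc 2 5 (.lc 2 5 (.lc 2 5 (.lc 2 5 (.lc 2 5 (.lc 3 0 (.lc 3 10 (.lc 1 4 (.lc 2 5 (.lc 2 5 (.lc 4 10 (.lc 4 0 (.lc 4 11 (.lc 3 5 (.lc 3 5 (.lc 3 5 (.lc 2 4 (.lc 2 4 (.lc 0 0 (.lc 0 10 (.node [84,144] 0 5 .stop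
 (.node [84,165,154] 10 5 (.node [66] 9 10 (.lc 2 0 (.lc 0 10 (.lc 2 11 (.lc 1 2 (.lc 1 2 (.lc 3 11 (.lc 3 0 (.lc 3 12 (.lc 0 0 (.lc 3 11 (.lc 3 0 (.lc 3 12 (.lc 0 0 (.lc 1 2 (.lc 1 2 (.lc 3 11 (.lc 1 10 (.lc 3 0 (.lc 3 12 (.lc 1 0 (.lc 4 12 (.lc 4 12 (.lc 4 0 (.lc 4 13 (.lc 2 2 (.lc 2 2 (.lc 2 2 (.lc 4 0 (.lc 1 0 (.lc 1 0 (.lc 2 0 .stop)))))))))))))))))))))))))))))))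
 (.lc 1 2 (.lc 1 2 (.lc 1 2 (.lc 1 2 (.lc 3 0 (.lc 3 11 (.lc 2 2 (.lc 2 2 (.lc 2 2 .stop))))))))))
 (.lc 0 10 (.lc 0 0 (.lc 0 11 .stop)))))))))))))))))))))))))))))
 (.lc 1 5 (.lc 1 5 (.lc 1 5 (.lc 1 5 (.lc 3 0 (.lc 3 10 (.lc 2 5 (.lc 2 5 (.lc 2 5 .stop))))))))))
 (.lc 0 0 (.node [49,118,135,152,101,84,66] 8 7 (.node [101] 8 6 (.lc 1 5 (.lc 1 5 (.lc 1 4 (.lc 1 4 (.lc 2 5 (.lc 2 5 (.lc 2 5 (.lc 2 5 (.lc 2 5 (.lc 3 0 (.lc 3 10 (.lc 1 4 (.lc 2 5 (.lc 2 5 (.lc 4 10 (.lc 4 0 (.lc 4 11 (.lc 3 5 (.lc 3 5 (.lc 3 5 (.lc 2 4 (.lc 2 4 (.node [84,144] 0 5 (.conf [4,66] (.lc 1 2 .stop))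
 (.node [84,154] 5 4 (.node [66] 9 10 (.lc 0 10 (.lc 0 0 (.lc 0 11 (.lc 0 0 (.lc 0 11 (.lc 2 4 (.lc 0 11 (.lc 0 0 (.lc 0 12 .stop)))))))))
 (.lc 2 2 (.lc 1 9 (.lc 2 2 (.node [66,160] 9 10 (.lc 0 10 (.lc 0 0 (.lc 0 11 .stop)))
 (.node [66,171] 9 10 (.lc 0 10 (.lc 0 11 (.lc 0 0 (.lc 0 12 (.lc 0 11 (.lc 0 0 (.lc 0 12 .stop)))))))
 (.lc 2 2 (.lc 2 2 (.lc 1 9 (.lc 3 2 (.lc 3 2 (.lc 3 2 .stop))))))))))))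
 (.lc 0 0 (.lc 0 10 (.node [84,154,160] 0 5 .stop
 (.node [84,144,165] 9 0 (.node [] 10 5 (.node [66] 10 4 (.lc 1 2 (.lc 1 0 (.lc 2 2 (.far [1,257,0,1,257,4096,0,257] 4096 .stop))))
 (.lc 1 2 (.lc 1 2 (.lc 3 11 (.lc 2 2 .stop)))))
 .stop)
 (.node [84,155,165] 9 11 (.lc 0 11 (.lc 0 0 (.lc 0 4 (.lc 0 12 (.lc 0 0 (.lc 0 12 (.lc 2 10 (.lc 0 12 (.lc 0 0 (.lc 0 13 .stop))))))))))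
 .stop)))))))))))))))))))))))))))))
 (.lc 1 5 (.lc 1 5 (.lc 1 5 (.lc 1 5 (.lc 3 0 (.lc 3 10 (.lc 2 5 (.lc 2 5 (.lc 2 5 .stop))))))))))
 (.lc 0 0 (.node [49,118,135,152,169,101,84,66] 8 7 (.node [101] 8 6 (.lc 1 5 (.lc 1 5 (.lc 1 4 (.lc 1 4 (.lc 2 5 (.lc 2 5 (.lc 2 5 (.lc 2 5 (.lc 2 5 (.lc 3 0 (.lc 3 11 (.lc 1 4 (.lc 2 5 (.lc 2 5 (.lc 4 11 (.lc 4 0 (.lc 4 12 (.lc 3 5 (.lc 3 5 (.lc 3 5 (.lc 2 4 (.lc 2 4 (.node [84,144] 0 5 (.conf [4,66] (.lc 1 2 .stop))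
 (.node [84,155] 10 9 (.node [171] 11 5 (.node [66] 10 11 (.lc 2 0 (.lc 0 2 (.lc 2 12 (.lc 1 2 (.lc 1 2 (.lc 2 4 (.lc 0 12 (.lc 3 12 (.lc 3 0 (.lc 3 13 (.lc 0 0 (.lc 0 4 (.lc 0 0 (.lc 1 0 (.lc 0 0 (.lc 0 0 .stop))))))))))))))))
 (.lc 1 2 (.lc 1 2 (.lc 1 2 (.lc 1 2 (.lc 3 0 (.lc 3 12 (.lc 2 2 (.lc 2 2 (.lc 2 2 .stop))))))))))
 (.lc 3 0 (.lc 0 2 (.lc 3 12 (.node [160,181] 10 0 .stop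
 (.node [172,181] 11 5 (.lc 2 4 (.lc 1 2 (.lc 1 2 (.lc 1 2 (.node [66] 10 12 (.lc 0 2 .stop)
 (.lc 2 2 (.lc 2 2 .stop)))))))
 (.lc 3 0 (.lc 3 12 (.lc 4 12 (.lc 4 0 (.lc 4 13 .stop)))))))))))
 (.lc 0 0 (.lc 0 11 (.node [84,155,176] 0 5 .stop
 (.node [84,144,181] 9 0 .stop
 (.node [84,156,181] 10 9 (.node [172] 11 5 (.node [66] 12 11 (.lc 1 4 (.lc 1 4 (.lc 1 2 (.lc 1 2 (.lc 0 0 (.lc 0 13 (.lc 2 4 (.lc 2 4 (.lc 2 4 (.lc 0 0 (.lc 1 2 (.lc 1 11 (.lc 1 0 (.lc 1 0 .stop))))))))))))))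
 (.lc 1 2 (.lc 1 2 (.lc 1 2 (.lc 1 2 (.lc 3 0 (.lc 3 13 (.lc 2 2 (.lc 2 2 (.lc 2 2 .stop))))))))))
 (.lc 3 0 (.lc 0 2 (.lc 3 13 (.lc 1 11 (.lc 1 11 (.lc 3 0 (.lc 3 13 (.lc 4 13 (.lc 4 0 (.lc 4 14 .stop)))))))))))
 .stop)))))))))))))))))))))))))))))
 (.lc 1 5 (.lc 1 5 (.lc 1 5 (.lc 1 5 (.lc 3 0 (.lc 3 11 (.lc 2 5 (.lc 2 5 (.lc 2 5 .stop))))))))))
 .stop)))))))))))))))))))))))))))))))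

theorem t23 : kNode2 awTt FTt 3 7 (check tyTt awTt triet FTt [] c23) (fun _ _ _ => true) 0 s23 Pl.nil s23 =
    true := by
  decide +kernel

end Chk
end Pool.Agent.Lib.MP_ba95e8_co
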