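import Pool.Agent.Lib.MP_ba95e8_co.ChkTab
import Pool.Agent.Lib.MP_ba95e8_co.ChkStates

/-!
Deltahedral domes: part 25 of the case analysis.
-/

namespace Pool.Agent.Lib.MP_ba95e8_co
namespace Chk

/-- certificate number 25 -/
def c25 : Cert := (.node [64,83,50] 4 0 (.lc 0 0 .stop)
 (.asm [70,83,50] 0 (.conf [70,83] (.conf [64,83] (.conf [71,83] (.lc 0 0 (.node [65,83,101,83,50] 6 5 (.node [83,96] 0 5 (.lc 1 3 (.conf [3,50] (.lc 1 3 (.lc 1 2 (.lc 2 0 (.lc 3 1 (.lc 1 2 (.lc 2 3 (.lc 2 3 (.lc 1 2 (.lc 3 1 (.lc 3 1 (.lc 3 1 (.lc 2 2 (.lc 4 1 .stop)))))))))))))))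
 (.node [83,98] 2 5 (.lc 2 0 .stop)
 (.lc 1 3 (.node [83,103] 5 3 (.lc 2 0 (.lc 1 2 (.node [50] 7 3 (.lc 1 2 (.conf [32,114] (.lc 1 2 (.lc 1 2 (.lc 2 2 (.lc 2 2 (.lc 2 2 (.lc 3 0 (.lc 3 8 (.lc 2 2 (.lc 2 2 (.lc 2 2 (.far [16,256,16,256,0,4096] 17 (.conf [32,130] (.lc 2 2 (.lc 2 2 (.lc 2 2 (.lc 2 2 (.lc 2 2 (.lc 2 2 (.lc 2 2 (.lc 2 2 (.lc 3 0 (.lc 3 8 (.lc 2 2 (.lc 2 2 (.lc 3 2 (.lc 3 2 (.lc 3 2 (.lc 4 8 (.lc 4 9 (.lc 3 2 (.lc 3 2 (.lc 3 2 (.lc 3 2 (.lc 3 2 (.lc 3 2 (.lc 3 2 (.lc 3 2 (.lc 3 2 (.lc 4 2 (.lc 4 2 .stop))))))))))))))))))))))))))))))))))))))))))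
 (.lc 2 8 (.lc 2 2 (.lc 2 2 (.lc 2 2 (.lc 2 2 (.lc 2 2 (.lc 3 3 (.lc 2 2 (.lc 3 3 (.node [50,112] 0 3 (.node [] 6 7 (.lc 2 8 (.lc 0 8 (.lc 3 9 (.far [4096,0,16,0,257,256] 0 (.lc 0 8 (.lc 0 9 .stop))))))
 .stop)
 (.lc 3 8 (.lc 2 2 (.lc 2 2 (.lc 2 2 (.lc 3 0 (.node [50,120] 6 7 (.lc 2 0 (.lc 2 2 (.lc 2 9 (.lc 3 0 (.lc 3 9 (.lc 2 8 (.lc 0 9 (.lc 3 9 (.lc 3 0 (.lc 3 0 (.lc 3 10 (.lc 3 0 (.lc 3 2 (.lc 3 9 (.lc 0 8 (.lc 0 0 (.lc 0 9 (.lc 4 9 (.lc 4 0 (.lc 4 0 (.lc 4 10 (.lc 0 0 (.lc 0 10 (.lc 0 0 (.lc 0 9 (.lc 0 0 (.lc 0 9 (.node [131] 8 3 (.lc 1 2 (.lc 2 2 (.far [4112,4096,16,0,257,256] 17 (.lc 2 2 .stop))))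
 (.lc 0 9 (.lc 0 0 (.lc 0 10 .stop)))))))))))))))))))))))))))))))
 (.lc 3 9 (.lc 2 2 (.lc 2 2 (.lc 2 2 (.lc 2 2 (.lc 2 2 (.lc 2 2 (.lc 2 2 (.lc 3 3 (.lc 2 2 (.lc 3 3 (.lc 3 2 (.lc 3 2 (.lc 3 2 (.lc 3 2 (.lc 3 2 (.lc 3 2 (.lc 3 2 (.lc 4 3 (.lc 3 2 (.lc 3 2 (.lc 4 3 (.lc 4 3 (.lc 3 2 (.lc 3 2 (.lc 3 2 (.lc 3 2 (.lc 3 2 (.lc 3 2 (.lc 3 2 (.lc 3 2 (.lc 3 2 (.lc 4 2 (.lc 4 2 (.lc 4 2 (.lc 4 2 .stop)))))))))))))))))))))))))))))))))))))))))))))))))))))))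
 (.lc 2 3 (.lc 2 3 (.lc 2 3 (.lc 2 3 (.lc 2 3 (.lc 3 7 (.lc 3 0 (.lc 1 2 (.lc 1 2 (.lc 3 0 (.lc 3 2 (.lc 3 8 (.node [83,103,112] 0 5 (.lc 1 3 (.lc 1 2 (.lc 2 3 .stop)))
 (.conf [37,83] (.lc 1 2 (.lc 1 2 (.node [83,96,117] 6 0 .stop
 (.node [83,104,117] 7 5 (.lc 1 3 (.lc 1 3 (.node [50] 7 3 (.lc 1 2 (.lc 2 2 (.lc 1 2 (.lc 2 2 (.lc 2 2 (.lc 2 2 (.lc 0 2 (.lc 2 2 (.lc 2 2 (.lc 3 0 (.lc 3 9 (.lc 2 2 (.lc 2 2 (.lc 2 2 (.lc 2 2 (.lc 2 2 (.lc 2 2 (.conf [32,130] (.lc 2 2 (.lc 3 2 (.lc 3 2 (.lc 3 2 (.far [16,4112,16,256,0,4096] 17 (.conf [32,146] (.lc 3 2 (.lc 3 2 (.lc 3 2 (.lc 3 2 (.lc 3 2 (.lc 3 2 (.lc 3 2 (.lc 3 2 (.lc 4 2 (.lc 4 2 .stop))))))))))))))))))))))))))))))))))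
 (.lc 1 3 (.lc 2 3 (.lc 1 2 (.lc 2 3 (.lc 2 3 (.lc 2 3 (.lc 1 2 (.lc 1 2 (.lc 2 3 (.lc 2 3 (.lc 2 3 (.lc 2 3 (.lc 2 3 (.lc 1 2 (.lc 1 2 (.lc 2 3 (.lc 2 3 (.lc 1 2 (.lc 1 2 (.lc 2 3 (.lc 1 2 (.lc 2 3 (.lc 2 3 (.lc 2 3 (.lc 2 3 (.lc 3 0 (.lc 1 2 (.lc 3 9 (.lc 2 3 (.lc 2 3 (.lc 2 2 (.lc 2 2 (.lc 2 2 (.lc 3 3 (.lc 3 3 (.lc 2 2 (.lc 2 2 (.lc 2 2 (.lc 3 3 (.lc 3 3 (.lc 3 3 (.lc 3 3 (.lc 3 3 (.lc 2 2 (.lc 2 2 (.lc 3 3 (.lc 3 3 (.lc 2 2 (.lc 2 2 (.lc 2 2 (.lc 2 2 (.lc 2 2 (.lc 2 2 (.lc 3 2 (.lc 3 2 (.lc 3 2 (.lc 3 2 .stop))))))))))))))))))))))))))))))))))))))))))))))))))))))))))))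
 (.lc 2 3 (.lc 2 3 (.lc 2 3 (.lc 2 3 (.lc 2 3 (.lc 2 3 (.lc 2 3 (.lc 2 3 (.lc 2 3 (.lc 2 3 (.lc 2 3 (.lc 3 7 (.lc 3 0 (.lc 3 7 (.lc 2 3 (.lc 1 2 (.lc 2 3 (.lc 3 0 (.lc 3 8 (.lc 3 3 (.lc 3 3 (.lc 3 3 (.lc 3 3 (.lc 3 3 (.lc 3 3 (.lc 4 8 (.lc 4 7 (.lc 2 2 (.lc 2 2 (.lc 2 2 (.lc 4 8 (.lc 4 0 (.lc 4 0 (.lc 4 9 (.lc 3 3 (.lc 3 3 (.lc 3 3 (.lc 3 3 (.lc 3 3 (.lc 3 3 (.lc 3 3 (.lc 3 3 (.lc 3 3 (.lc 3 3 (.lc 3 3 (.lc 3 3 (.lc 3 3 (.lc 3 3 (.lc 3 3 (.lc 3 3 (.lc 3 3 (.lc 3 3 (.lc 3 3 (.lc 3 3 (.lc 3 3 (.lc 4 3 (.lc 4 3 (.lc 4 3 (.lc 4 3 (.lc 4 3 (.lc 4 3 (.lc 4 3 (.lc 4 3 .stop)))))))))))))))))))))))))))))))))))))))))))))))))))))))))))))))))))))))))))))))))))))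
 (.conf [70,96] (.node [64,83,101,50] 4 0 (.lc 0 0 .stop)
 (.conf [71,118] (.conf [70,83] (.conf [64,83] (.conf [71,83] (.lc 0 0 (.node [65,83,101,50] 5 3 (.lc 2 0 (.lc 1 2 (.lc 2 7 (.lc 2 2 (.lc 2 2 (.lc 2 2 (.node [50,96] 0 3 (.node [] 6 0 (.far [4112,0,4112,257,256] 0 .stop)
 .stop)
 (.lc 2 2 (.node [50,115,103] 7 3 (.lc 1 2 (.conf [32,114] (.lc 1 2 (.lc 2 2 (.lc 2 2 (.lc 2 2 (.lc 3 0 (.lc 3 8 (.lc 2 2 (.lc 2 2 (.lc 2 2 (.far [16,256,256,0,4096] 17 (.conf [32,130] (.lc 2 2 (.lc 2 2 (.lc 2 2 (.lc 2 2 (.lc 2 2 (.lc 2 2 (.lc 2 2 (.lc 3 0 (.lc 3 8 (.lc 2 2 (.lc 2 2 (.lc 3 2 (.lc 3 2 (.lc 3 2 (.lc 4 8 (.lc 4 9 (.lc 3 2 (.lc 3 2 (.lc 3 2 (.lc 3 2 (.lc 3 2 (.lc 3 2 (.lc 3 2 (.lc 3 2 (.lc 3 2 (.lc 4 2 (.lc 4 2 .stop))))))))))))))))))))))))))))))))))))))))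
 (.lc 3 7 (.lc 2 2 (.lc 2 2 (.lc 3 0 (.lc 3 8 (.lc 2 2 (.lc 2 2 (.lc 2 2 (.lc 2 2 (.lc 2 2 (.lc 0 0 (.lc 2 2 (.lc 0 7 (.lc 3 2 (.lc 3 2 (.lc 3 2 (.lc 3 2 (.lc 0 7 (.lc 3 2 (.lc 3 2 (.lc 0 0 (.lc 0 8 (.lc 3 2 (.lc 3 2 (.lc 3 2 (.lc 3 2 (.lc 3 2 (.lc 3 2 (.lc 3 2 (.lc 3 2 (.lc 3 2 (.lc 4 2 (.lc 4 2 (.lc 4 2 (.lc 4 2 .stop))))))))))))))))))))))))))))))))))))))))))))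
 (.lc 0 0 (.node [65,83] 5 3 (.node [50,80] 0 3 (.far [257,1,0,1,1] 4096 (.node [50,80] 6 3 (.node [98,101] 0 6 (.far [257,0,257,1,0,1,1] 4096 (.lc 0 0 .stop))
 (.conf [32,114] .stop))
 (.node [50,80] 5 0 (.node [87] 6 5 (.far [1,4112,0,4112,1,256] 0 (.lc 3 2 (.lc 3 8 (.node [115,135,80] 7 3 (.lc 0 2 .stop)
 (.lc 3 8 (.lc 4 9 .stop))))))
 (.lc 3 0 (.lc 3 0 (.far [16,257,4096] 0 (.lc 3 0 (.lc 4 0 .stop))))))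
 (.node [99,101,118,50] 6 3 .stop
 (.node [101,103,115,50] 0 6 (.lc 0 0 .stop)
 (.node [50,115,135,80,50] 7 3 (.node [114] 0 8 (.node [135] 7 2 .stop
 (.far [4112,0,4112,256] 0 (.lc 0 0 (.lc 0 0 (.lc 2 7 (.lc 0 0 (.lc 2 7 (.lc 2 7 (.lc 0 0 .stop)))))))))
 (.lc 3 6 (.lc 3 9 (.conf [32,98] (.conf [32,146] (.lc 3 6 (.lc 3 9 (.lc 4 9 (.lc 4 6 (.lc 4 10 .stop))))))))))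
 .stop))))))
 (.lc 1 2 (.lc 2 3 (.node [50,87] 6 5 (.node [87,50] 0 5 (.far [1,1,4112,1,256] 0 (.far [256,0,257,0,1,1] 4096 (.far [256,0,257,0,1,1] 4096 (.node [115,135,80] 0 8 (.far [257,256,0,257,0,1,1] 4096 (.far [4112,4112,256] 0 (.lc 2 7 (.lc 2 7 (.lc 2 7 (.node [135,152,135,115] 3 2 (.lc 0 8 (.lc 3 2 (.conf [58,169] .stop)))
 (.conf [105,135,152] (.lc 2 7 (.lc 2 7 (.lc 3 7 (.lc 3 7 .stop)))))))))))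
 (.far [1,1,4112,1,256] 17 (.node [115,135,80] 3 2 (.node [135] 7 3 .stop
 (.lc 1 7 .stop))
 .stop))))))
 (.node [87,50] 2 5 .stop
 (.far [1,4112,1,256] 0 (.node [87,50] 5 7 (.far [4112,1,4112,1,256] 0 (.conf [115,128,83] (.conf [115,130,83] (.conf [115,137,83] (.far [4112,1,4112,1,256] 0 (.far [4112,1,4112,1,256] 0 (.node [115,83] 0 7 (.node [115] 7 3 (.lc 1 2 .stop)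
 (.lc 1 2 (.conf [115,151] (.lc 1 2 .stop))))
 (.node [115,151,83] 7 3 (.node [50,112,151] 7 0 (.node [144] 0 3 (.far [257,0,1,0,0,1,0,1,1] 4096 .stop)
 (.lc 1 6 (.lc 0 10 (.lc 2 0 .stop))))
 (.lc 1 2 (.node [50,104,118,151] 7 6 .stop
 (.node [50,122,151] 9 7 (.node [154] 3 2 (.node [162] 9 10 (.node [144,162] 9 0 (.node [128] 0 10 (.far [256,0,0,4096,0,1,0,0,1,0,1,1] 4096 .stop)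
 (.lc 1 6 (.far [4112,4112,0,4096,4112,1,0,256] 0 .stop)))
 (.lc 1 2 (.node [104,106,150] 9 6 (.lc 0 5 .stop)
 (.node [155,162] 8 9 (.node [139] 11 10 (.node [178] 11 2 (.far [1,256,0,0,4096,0,1,0,0,1,0,1,1] 4096 (.lc 3 2 (.node [188,192,188] 8 11 (.far [1,4112,4112,256,256] 0 (.lc 3 5 (.lc 1 0 (.lc 1 0 (.lc 3 5 (.lc 4 5 .stop))))))
 (.lc 0 5 .stop))))
 (.far [257,0,1,0,256,257,0,0,1,0,1,1] 4096 (.far [16,0,16,4096,4096,4096] 17 (.far [1,0,1,256,256,256] 0 (.far [1,0,1,256,256,256] 0 (.node [188,192,162] 8 11 (.far [1,4096,256,257,256,256,256] 0 (.lc 3 5 (.lc 1 0 (.lc 1 0 (.lc 3 5 (.lc 4 5 .stop))))))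
 .stop))))))
 (.lc 1 10 (.lc 1 10 (.lc 1 10 (.lc 3 5 (.lc 1 10 (.far [1,4112,0,4096,4112,1,0,256] 0 (.far [1,4112,0,4096,4112,1,0,256] 0 (.lc 2 10 (.lc 2 10 (.lc 2 10 .stop)))))))))))
 (.lc 2 2 (.lc 2 2 (.lc 3 7 (.lc 0 5 (.lc 3 7 (.conf [155,176] (.lc 2 2 (.node [144,162,186,162] 9 0 .stop
 (.conf [156,203] (.lc 2 2 (.lc 3 7 (.lc 3 7 (.lc 3 7 (.lc 3 7 (.lc 3 2 (.lc 4 7 (.lc 4 7 (.lc 4 7 (.lc 4 7 (.lc 4 7 (.lc 4 7 (.lc 4 7 (.lc 4 7 (.lc 5 7 .stop))))))))))))))))))))))))))))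
 (.far [4096,0,1,0,0,1,0,1,1] 4096 (.node [32,104,166] 10 6 .stop
 (.node [32,137,168] 10 8 .stop
 (.node [32,171] 9 10 (.node [155] 8 9 (.node [139] 11 2 (.far [1,0,0,4096,0,1,0,0,1,0,1,1] 4096 (.lc 3 2 (.node [188,192] 8 11 (.far [1,4112,256,257,256,256,256] 0 (.lc 3 5 (.lc 1 0 (.lc 1 0 (.lc 3 5 (.lc 4 5 .stop))))))
 (.lc 0 5 .stop))))
 (.lc 1 2 (.lc 1 2 (.lc 1 2 (.lc 3 5 (.lc 1 2 (.far [1,4112,0,4096,4112,1,0,256] 0 (.far [1,4112,0,4096,4112,1,0,256] 0 (.lc 2 2 (.lc 2 2 (.lc 2 2 .stop)))))))))))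
 (.lc 3 7 (.far [16,1,4112,0,257,16,257,16,4096,4096] 0 (.conf [156,203] (.lc 3 7 (.lc 4 7 (.lc 4 7 .stop)))))))
 (.far [4096,0,1,0,0,1,0,1,1] 4096 (.far [4112,1,4096,4112,1,4112,1,256,256] 0 (.far [257,16,256,257,16,257,16,4096,4096] 0 (.conf [32,178] (.node [171,176] 9 10 (.far [1,16,257,0,4112,1,4112,1,256,256] 0 (.lc 3 7 (.lc 1 0 (.lc 3 7 (.lc 4 7 .stop)))))
 (.lc 1 9 (.conf [32,178] .stop))))))))))))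
 (.lc 3 0 (.lc 3 2 (.lc 3 6 (.lc 3 11 (.lc 1 3 (.lc 1 3 (.lc 3 0 (.lc 3 11 (.lc 4 11 (.lc 4 0 (.lc 4 0 (.lc 4 12 .stop)))))))))))))
 (.lc 2 2 (.lc 2 2 (.conf [115,144] (.lc 2 2 (.conf [115,154] (.conf [122,160] (.lc 2 2 (.lc 2 2 (.node [50,112,163,151] 7 0 .stop
 (.conf [123,186] (.lc 2 2 (.lc 2 2 (.lc 2 2 (.lc 2 2 (.node [115,144,137,50] 0 3 (.far [1,1,4112,1,4096,1,0,256] 0 .stop)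
 (.lc 2 2 (.node [104,115,150,50] 6 3 .stop
 (.node [115,154,137,50] 8 9 (.node [138] 10 3 (.far [1,1,4096,4096,1,0,1,0,256] 0 (.lc 3 0 (.lc 3 6 (.lc 3 11 (.far [1,1,4096,4096,1,0,1,257,257] 4096 (.conf [32,178] (.lc 3 0 (.lc 3 11 (.lc 4 11 (.lc 4 12 .stop))))))))))
 (.lc 3 0 (.lc 3 2 (.lc 3 11 (.lc 1 3 (.lc 3 5 (.lc 1 3 (.lc 3 0 (.lc 3 11 (.lc 4 11 (.lc 4 0 (.lc 4 0 (.lc 4 12 .stop)))))))))))))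
 (.lc 3 2 (.lc 3 2 (.node [115,154,160,137,50] 0 3 (.far [1,4096,4112,1,4112,1,256,256] 0 .stop)
 (.lc 3 2 (.lc 3 2 (.conf [115,163,50] (.conf [115,163,50] (.lc 3 2 (.lc 3 2 (.lc 3 2 (.lc 3 2 (.lc 3 2 (.lc 3 2 (.lc 3 2 (.lc 4 2 (.lc 4 2 .stop))))))))))))))))))))))))))))))))))))))
 (.conf [115,137,83] (.conf [115,128,83] (.conf [115,128,83] (.conf [115,138,83] .stop))))))))))))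
 (.lc 2 3 (.lc 2 3 (.conf [87,104] (.conf [87,96] (.node [83,96,115,50] 6 0 (.lc 2 8 (.lc 3 9 .stop))
 (.node [83,98,115,50] 3 2 (.lc 2 0 (.lc 3 8 .stop))
 (.node [83,104,115,50] 7 3 (.lc 1 2 (.lc 2 2 (.lc 1 2 (.lc 2 2 (.lc 2 2 (.lc 2 2 (.conf [32,130] (.lc 2 2 (.lc 2 2 (.lc 3 0 (.lc 3 9 (.lc 2 2 (.lc 2 2 (.lc 2 2 (.lc 2 2 (.lc 2 2 (.lc 2 2 (.lc 0 2 (.lc 2 2 (.lc 3 2 (.lc 3 2 (.lc 3 2 (.lc 0 0 (.lc 0 9 (.lc 3 2 (.lc 3 2 (.lc 3 2 (.lc 3 2 (.lc 3 2 (.lc 3 2 (.lc 3 2 (.lc 3 2 (.lc 4 2 (.lc 4 2 .stop))))))))))))))))))))))))))))))))))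
 (.conf [87,96] (.conf [87,98] (.conf [87,105] (.node [87,128,50] 0 5 (.far [256,0,257,0,1,1] 4096 .stop)
 (.node [87,50] 2 5 .stop
 (.node [83,96,115,50] 0 7 (.lc 1 3 (.far [256,0,1,0,1,1] 4096 (.lc 2 3 (.lc 1 2 .stop))))
 (.node [83,104,135,50,104] 7 3 (.lc 1 2 (.lc 2 2 (.lc 1 2 (.lc 2 2 (.lc 2 2 (.lc 2 2 (.lc 0 2 (.lc 2 2 (.lc 2 2 (.lc 3 0 (.lc 3 9 (.lc 2 2 (.lc 2 2 (.lc 2 2 (.lc 2 2 (.lc 2 2 (.lc 2 2 (.conf [32,130] (.lc 2 2 (.lc 3 2 (.lc 3 2 (.lc 3 2 (.far [4096,1,4112,1,256,256] 0 (.conf [32,146] (.lc 3 2 (.lc 3 2 (.lc 3 2 (.lc 3 2 (.lc 3 2 (.lc 3 2 (.lc 3 2 (.lc 3 2 (.lc 4 2 (.lc 4 2 .stop))))))))))))))))))))))))))))))))))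
 (.node [87,133,50,87] 8 5 (.node [135] 0 8 (.node [135] 8 7 (.far [257,256,256,0,257,0,1,1] 4096 (.lc 1 2 (.lc 2 3 .stop)))
 (.far [256,256,0,257,0,1,1] 4096 (.conf [135,152] (.lc 1 3 (.lc 2 3 .stop)))))
 (.lc 1 3 (.lc 1 3 (.lc 1 3 (.lc 3 9 (.lc 2 3 .stop))))))
 (.node [87,133,152,50,87] 8 5 (.node [135] 9 8 (.node [135,144] 0 8 (.node [115] 9 0 (.lc 0 6 (.node [151] 9 7 .stop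
 (.lc 1 0 (.lc 3 0 .stop))))
 (.lc 1 3 (.lc 1 3 (.lc 1 3 (.node [115] 3 2 (.lc 2 2 .stop)
 (.lc 2 3 .stop))))))
 (.node [135,146] 2 8 .stop
 (.node [135,154] 8 7 (.node [115] 6 9 (.node [96,154] 0 9 (.node [167] 6 0 (.node [96] 10 7 (.node [115,162] 2 7 (.lc 0 2 .stop)
 (.lc 1 3 (.node [115,171] 7 3 (.node [50] 3 2 (.node [] 10 11 (.far [257,0,0,257,0,4096,0,4096,4096] 0 .stop)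
 (.node [32,188,50] 10 11 .stop
 (.far [4112,4096,1,257,0,257,4096,1,0,257,0,4096,0,256] 0 (.conf [32,194] (.conf [32,194] .stop)))))
 (.lc 2 2 (.lc 2 2 (.far [4112,1,0,0,0,1,0,256,0,256] 0 (.lc 2 2 (.lc 3 2 .stop))))))
 (.lc 1 2 (.conf [115,171,179] (.far [257,0,0,0,1,0,256,0,257,0,1,1] 4096 (.lc 1 2 (.node [115,183,203,115,172] 7 3 (.far [257,16,0,0,0,16,0,4096,0,4096] 0 (.lc 2 2 (.lc 2 2 (.lc 0 13 (.lc 2 2 (.lc 3 2 .stop))))))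
 (.lc 1 2 (.lc 2 2 (.lc 2 2 .stop)))))))))))
 (.node [106] 6 10 .stop
 .stop))
 (.lc 1 7 (.lc 1 7 (.lc 1 7 (.far [1,1,4112,4096,4112,256] 17 (.lc 2 7 .stop))))))
 (.lc 0 9 (.node [98,154] 2 9 .stop
 (.node [107,154] 9 10 (.node [167] 6 11 (.node [96,186] 6 0 (.node [] 11 10 (.lc 2 0 (.node [167,178] 2 10 (.lc 0 2 .stop)
 (.lc 1 7 (.node [167,188] 10 7 (.node [115] 7 3 (.node [50] 11 12 (.node [195] 12 3 .stop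
 (.far [4112,0,0,4112,0,1,256,256] 17 .stop))
 (.lc 2 2 (.lc 2 2 (.far [4112,1,0,0,0,0,0,1,0,256,0,256] 0 (.lc 2 2 (.lc 3 2 .stop))))))
 (.conf [115,167,195] (.far [4112,1,0,0,1,0,256,256] 0 (.lc 2 2 .stop))))
 (.conf [167,188,199] (.far [257,0,0,1,0,257,256,256,0,257,0,1,1] 4096 (.conf [176,202,12] (.lc 3 0 (.node [167,202,220,167,189] 10 7 (.far [257,16,0,0,16,0,4096,4096] 0 (.lc 2 3 (.lc 0 14 (.lc 2 2 .stop))))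
 (.node [115,167,179] 11 3 (.far [257,272,1,256,16,0,4096,4096,0,0,2,0,2,2] 4112 .stop)
 (.node [167,176,7] 0 7 (.lc 1 2 .stop)
 (.far [257,0,0,1,0,257,256,256,0,257,0,1,1] 4096 (.lc 1 2 (.conf [176,202,167] (.far [4096,0,1,257,256,256,256] 17 (.lc 2 2 .stop))))))))))))))))
 .stop)
 (.lc 0 11 (.node [98,186] 6 2 .stop
 (.lc 1 6 (.node [108,186] 1 6 (.lc 2 12 (.lc 3 0 (.far [16,257,257,256,257,256,256,0,257,4112,4096] 0 (.lc 3 13 (.lc 3 0 (.lc 4 0 .stop))))))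
 (.lc 0 0 (.lc 2 10 (.lc 2 10 (.lc 2 10 (.lc 2 10 (.lc 2 10 (.lc 2 10 (.lc 3 1 (.lc 0 12 (.lc 0 0 (.node [108,186,192,108] 1 6 (.lc 2 12 (.lc 3 13 .stop))
 (.node [96,186] 3 2 (.far [1,16,4112,4096,0,4112,16,16,257,16,4096,4096] 0 (.lc 4 2 .stop))
 (.node [96,186,203] 6 0 (.far [4112,4112,4112,4096,4112,4096,4096,0,4112,257,256] 0 .stop)
 (.node [186,203,220,109] 1 6 (.lc 2 13 (.lc 3 0 (.lc 1 12 (.lc 3 14 (.lc 3 0 (.lc 4 0 .stop))))))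
 (.lc 2 10 (.lc 2 10 (.lc 2 10 (.lc 2 10 (.lc 0 12 (.lc 2 10 (.lc 2 10 (.lc 3 1 (.lc 0 12 (.lc 0 0 (.lc 3 10 (.lc 3 10 (.lc 0 0 (.lc 3 10 (.lc 3 10 (.lc 3 10 (.lc 3 10 (.lc 0 0 (.lc 0 0 (.lc 0 0 (.lc 4 1 (.lc 0 13 (.lc 0 0 .stop))))))))))))))))))))))))))))))))))))))))))
 (.lc 2 7 (.lc 2 7 (.lc 2 7 (.lc 0 0 (.lc 0 12 (.lc 2 7 (.lc 2 7 (.lc 3 7 (.lc 3 7 (.lc 3 7 (.lc 3 7 .stop))))))))))))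
 (.lc 2 6 (.lc 2 6 (.node [107,154,176] 0 9 (.lc 1 7 .stop)
 (.far [257,0,0,16,256,257,0,1,1] 4096 (.conf [154,185] (.conf [154,185] (.conf [154,185] (.lc 0 0 (.conf [107,176] (.node [96,154] 2 9 .stop
 (.conf [154,185] (.conf [154,185] (.lc 2 6 (.lc 0 10 (.lc 2 6 (.lc 2 6 (.lc 2 6 (.lc 2 6 (.lc 2 6 (.lc 2 6 (.node [107,154,176] 0 9 (.far [1,1,4112,4096,4112,256] 0 (.lc 1 7 (.lc 1 7 (.lc 1 7 (.far [1,1,4112,4096,4112,256] 17 (.lc 2 7 .stop))))))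
 (.far [257,0,0,16,256,257,0,1,1] 4096 (.node [107,154,178] 2 9 .stop
 (.conf [32,98] (.node [96,154] 6 0 (.node [] 9 10 (.far [4112,0,1,4112,4096,4112,256] 0 (.lc 2 7 (.lc 2 7 (.lc 0 12 (.lc 2 7 (.lc 3 7 .stop))))))
 .stop)
 (.node [108,154,203] 6 12 (.lc 0 12 (.lc 0 0 (.lc 0 0 (.lc 2 11 (.lc 0 13 (.lc 0 0 .stop))))))
 (.lc 0 0 (.lc 3 6 (.lc 3 6 (.lc 3 6 (.lc 3 6 (.node [108,154,203,176] 0 9 (.lc 1 7 .stop)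
 (.node [107,154,176] 2 9 .stop
 (.conf [154,185] (.conf [154,185] (.conf [154,185] (.conf [154,185] (.lc 3 6 (.lc 3 6 (.lc 3 6 (.lc 3 6 (.lc 3 6 (.lc 3 6 (.lc 3 6 (.lc 3 6 (.lc 3 6 (.lc 3 6 (.lc 3 6 (.lc 3 6 (.lc 3 6 (.lc 3 6 (.lc 3 6 (.lc 4 6 (.lc 4 6 (.lc 4 6 (.lc 4 6 (.lc 4 6 (.lc 4 6 .stop))))))))))))))))))))))))))))))))))))))))))))))))))))))))))))))
 (.lc 2 3 (.lc 2 3 (.lc 2 3 (.lc 0 0 (.lc 0 11 (.lc 2 3 (.lc 2 3 (.lc 3 3 (.lc 3 3 (.lc 3 3 (.lc 3 3 .stop))))))))))))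
 (.conf [133,144] (.conf [133,154] (.lc 0 6 (.conf [135,154] (.conf [135,144] (.conf [135,144] (.conf [135,146] (.conf [135,155] (.conf [154,160] (.node [135,144] 2 8 .stop
 (.conf [135,168] (.conf [135,168] (.lc 1 3 (.lc 1 3 (.lc 1 3 (.node [133,144,105,115] 9 0 (.node [96] 0 7 (.far [257,0,257,256,0,257,0,1,1] 4096 (.far [257,16,1] 0 (.lc 1 2 (.lc 1 2 (.node [115,167,115] 7 3 (.far [257,256,0,0,0,0,1,0,1,1] 4096 (.lc 0 11 .stop))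
 (.lc 1 2 .stop))))))
 (.lc 0 10 (.lc 1 0 .stop)))
 (.node [133,146,105,115] 9 2 (.lc 0 0 .stop)
 (.lc 1 3 (.node [133,154,105,115] 6 9 (.node [106] 10 7 (.node [115,160] 0 7 (.far [1,1,0,257,256,0,256] 0 (.lc 1 2 (.lc 1 2 (.lc 1 2 .stop))))
 (.node [115,162] 2 7 (.lc 0 2 .stop)
 (.lc 1 3 (.lc 2 6 (.node [115,171] 7 3 (.far [4112,1,0,257,256,0,256] 0 (.lc 2 2 (.far [4112,1,0,257,256,0,256] 0 (.lc 2 2 (.far [4112,1,0,257,256,0,256] 0 (.lc 2 2 (.lc 3 2 (.lc 3 2 .stop))))))))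
 (.lc 2 3 (.lc 1 2 (.lc 2 3 (.lc 0 6 (.lc 3 11 (.lc 3 0 (.lc 1 2 (.lc 3 0 (.lc 3 2 (.lc 3 12 (.node [115,171,176] 0 7 (.lc 1 2 .stop)
 (.node [115,160] 2 7 (.lc 0 2 .stop)
 (.lc 1 2 (.node [115,160,183,115] 7 3 (.node [179] 0 11 (.node [179] 11 3 (.far [257,256,1,0,0,0,0,0,1,0,1,1] 4096 .stop)
 (.far [256,1,0,0,0,0,0,1,0,1,1] 4096 (.conf [179,203] .stop)))
 (.lc 2 2 (.lc 2 2 (.lc 0 12 (.lc 2 2 (.lc 3 2 .stop))))))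
 (.node [115,183,203,115] 7 3 (.node [179] 11 3 (.node [178,203] 12 11 (.node [194] 12 2 (.far [1,256,257,1,0,0,0,0,0,1,0,1,1] 4096 (.lc 3 2 (.conf [205,208] .stop)))
 (.lc 3 0 (.far [16,256,257,16,16,16,0,4112,1,16,4096,4096] 17 (.lc 3 0 (.lc 3 13 (.lc 4 13 .stop))))))
 (.conf [179,194] (.node [176,203] 12 11 (.node [192] 10 12 (.lc 2 6 (.node [173,192] 6 10 (.node [109] 13 12 .stop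
 (.lc 0 13 (.lc 1 12 .stop)))
 (.lc 3 6 (.conf [192,220] (.lc 1 12 (.lc 1 0 .stop))))))
 (.lc 0 6 (.lc 3 13 .stop)))
 (.conf [32,210] (.far [1,4096,1,1,1,0,257,0,1,0,256] 0 (.far [1,4096,1,1,1,0,257,0,1,257,257] 4096 (.conf [32,210] .stop)))))))
 (.lc 2 2 (.lc 0 0 (.lc 2 2 (.lc 0 13 (.lc 2 2 (.lc 3 2 (.lc 3 2 .stop))))))))
 (.lc 1 2 (.lc 2 3 (.lc 1 2 (.lc 2 3 (.lc 3 11 (.lc 3 0 (.lc 3 11 (.lc 2 3 (.lc 1 2 (.lc 2 3 (.lc 3 0 (.lc 3 12 (.lc 2 2 (.lc 2 2 (.lc 4 12 (.lc 4 11 (.lc 2 2 (.lc 2 2 (.lc 4 12 (.lc 4 0 (.lc 4 0 (.lc 4 13 (.lc 3 3 (.lc 2 2 (.lc 2 2 (.lc 3 3 (.lc 3 3 (.lc 2 2 (.lc 2 2 (.lc 2 2 (.lc 2 2 (.lc 3 2 (.lc 3 2 .stop)))))))))))))))))))))))))))))))))))))))))))))))))))))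
 (.lc 3 0 (.lc 3 2 (.lc 3 11 (.lc 1 7 (.lc 1 7 (.lc 3 0 (.lc 3 11 (.lc 4 11 (.lc 4 0 (.lc 4 0 (.lc 4 12 .stop))))))))))))
 (.conf [135,154] (.conf [135,144] (.conf [135,154] (.conf [32,146] (.conf [135,144] (.conf [135,155] (.lc 2 3 (.lc 2 3 (.lc 2 3 (.lc 2 3 (.conf [135,155] (.conf [135,154] (.conf [135,155] (.conf [135,144] (.conf [135,144] (.conf [135,156] (.node [133,154,160,105,115] 0 7 (.node [115] 6 9 (.conf [106,160] (.lc 3 11 (.lc 1 0 (.lc 3 11 (.lc 4 12 .stop)))))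
 (.lc 1 2 (.lc 1 2 (.node [115,183,115] 7 3 (.far [257,256,0,0,0,1,0,1,1] 4096 (.lc 0 12 .stop))
 (.lc 1 2 .stop)))))
 (.node [133,144,105,115] 6 9 (.far [1,4096,4112,256] 17 (.lc 0 0 (.lc 3 10 .stop)))
 (.lc 1 2 (.conf [133,167,115] (.conf [133,167,115] (.lc 2 3 (.lc 2 3 (.lc 2 3 (.lc 2 3 (.lc 2 3 (.lc 0 6 (.lc 2 3 (.lc 2 3 (.lc 2 3 (.lc 2 3 (.lc 2 3 (.lc 3 3 (.lc 3 3 (.lc 3 3 (.lc 3 3 (.lc 3 3 (.lc 3 3 .stop))))))))))))))))))))))))))))))))))))))))))))))))))))))))))))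
 (.lc 1 3 (.lc 1 3 (.lc 1 3 (.lc 1 3 (.lc 1 3 (.lc 3 0 (.lc 3 10 (.lc 2 3 (.lc 2 3 (.lc 2 3 (.lc 2 3 .stop))))))))))))
 (.lc 2 3 (.lc 2 3 (.lc 2 3 (.lc 2 3 (.lc 2 3 (.lc 2 3 (.conf [87,104] (.conf [87,96] (.conf [87,104] (.far [1,4112,1,256] 0 (.far [1,4112,1,256] 0 (.conf [87,96] (.conf [87,105] (.lc 3 3 (.lc 3 3 (.lc 3 3 (.lc 3 3 (.conf [87,105] (.conf [87,104] (.node [83,104,115,128,50] 0 7 (.lc 1 3 (.far [256,0,1,0,1,1] 4096 (.lc 2 3 (.lc 1 2 .stop))))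
 (.conf [83,115,50,39] (.node [83,96,115,135,50] 6 0 .stop
 (.node [83,105,115,135,50] 7 3 (.lc 1 2 (.lc 2 2 (.lc 1 2 (.lc 2 2 (.lc 2 2 (.lc 2 2 (.lc 0 2 (.lc 2 2 (.lc 2 2 (.lc 3 0 (.lc 3 10 (.lc 2 2 (.lc 2 2 (.lc 2 2 (.lc 2 2 (.lc 2 2 (.lc 2 2 (.conf [32,130] (.lc 2 2 (.lc 3 2 (.lc 3 2 (.lc 3 2 (.far [4096,1,4112,1,256,256] 0 (.conf [32,162] (.lc 3 2 (.lc 3 2 (.lc 3 2 (.lc 3 2 (.lc 3 2 (.lc 3 2 (.lc 3 2 (.lc 3 2 (.lc 4 2 (.lc 4 2 .stop))))))))))))))))))))))))))))))))))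
 (.conf [87,105] (.conf [87,96] (.conf [87,96] (.conf [87,106] (.lc 3 3 (.lc 3 3 (.lc 3 3 (.lc 3 3 (.lc 3 3 (.lc 3 3 (.lc 3 3 (.lc 3 3 (.lc 3 3 (.lc 3 3 (.lc 3 3 (.lc 3 3 (.lc 3 3 (.lc 3 3 (.lc 4 3 (.lc 4 3 (.lc 4 3 (.lc 4 3 (.lc 4 3 (.lc 4 3 .stop)))))))))))))))))))))))))))))))))))))))))))))))))))))))))))))))))))
 (.lc 2 2 (.lc 2 2 (.lc 2 2 (.lc 2 2 (.lc 2 2 (.lc 3 7 (.lc 2 2 (.lc 2 2 (.lc 3 0 (.lc 3 8 (.lc 3 3 (.node [50,87,112] 0 3 (.node [48,87,101,112] 5 7 (.far [4112,0,4112,1,256] 0 (.lc 2 8 (.lc 2 0 (.lc 3 9 (.lc 3 3 (.far [4112,0,4112,1,256] 0 (.lc 3 9 (.lc 2 0 (.lc 3 9 (.lc 3 3 (.lc 3 3 (.lc 3 0 (.lc 4 10 (.lc 4 3 (.lc 4 3 (.lc 4 3 (.lc 4 3 (.lc 5 3 .stop))))))))))))))))))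
 .stop)
 (.lc 2 2 (.lc 2 2 (.lc 2 2 (.node [50,80,115] 5 0 .stop
 (.lc 3 3 (.node [50,115,135] 5 8 (.node [80,135,50] 5 0 (.far [4112,4112,4112,1,256] 0 (.lc 0 9 .stop))
 (.node [82,135,50] 5 2 (.lc 0 0 .stop)
 (.far [4112,4112,1,256] 0 (.node [89,135,50] 6 5 (.far [1,4112,4112,1,256] 0 (.lc 3 0 (.lc 3 2 (.lc 3 10 (.lc 1 8 (.lc 1 8 (.lc 3 0 (.lc 3 10 (.lc 4 10 (.lc 4 0 (.lc 4 0 (.lc 4 11 .stop))))))))))))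
 (.lc 2 7 (.lc 2 7 (.lc 2 7 (.lc 2 7 (.lc 2 7 (.lc 2 7 (.lc 2 7 (.lc 2 7 (.lc 3 3 (.lc 3 3 (.far [4112,4112,1,256] 0 (.conf [89,144] (.node [80,135,50] 3 2 .stop
 (.node [80,135,152,50,135,115] 5 0 .stop
 (.far [4112,4112,1,256] 0 (.conf [90,169] (.lc 2 7 (.lc 2 7 (.lc 2 7 (.lc 2 7 (.lc 2 7 (.lc 2 7 (.lc 2 7 (.lc 3 3 (.lc 3 3 (.lc 3 3 (.lc 3 3 (.lc 3 3 (.lc 3 3 (.lc 3 7 (.lc 3 7 (.lc 3 7 (.lc 3 7 (.lc 3 7 (.lc 3 7 (.lc 3 7 (.lc 3 7 (.lc 3 7 (.lc 3 7 (.lc 4 3 (.lc 4 3 (.lc 4 3 (.lc 4 3 (.lc 4 3 (.lc 4 3 (.lc 4 3 (.lc 4 3 (.lc 4 3 (.lc 4 3 (.lc 4 3 (.lc 4 3 (.lc 4 3 (.lc 4 3 (.lc 4 3 (.lc 4 3 (.lc 4 3 (.lc 4 3 (.lc 5 3 (.lc 5 3 (.lc 5 3 (.lc 5 3 (.lc 5 3 (.lc 5 3 .stop)))))))))))))))))))))))))))))))))))))))))))))))))))))))))))))))))))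
 (.lc 2 2 (.lc 2 2 (.lc 2 2 (.lc 2 2 (.lc 2 2 (.lc 2 2 (.lc 2 2 (.lc 2 2 (.lc 3 7 (.lc 2 2 (.lc 2 2 (.lc 3 0 (.lc 3 8 (.lc 3 2 (.lc 3 2 (.lc 3 2 (.lc 3 2 (.lc 3 2 (.lc 3 2 (.lc 3 2 (.lc 4 8 (.lc 3 2 (.lc 3 2 (.lc 4 8 (.lc 4 0 (.lc 4 9 (.lc 3 2 (.lc 3 2 (.lc 3 2 (.lc 3 2 (.lc 3 2 (.lc 3 2 (.lc 3 2 (.lc 3 2 (.lc 3 2 (.lc 3 2 (.lc 3 2 (.lc 3 2 (.lc 4 2 (.lc 4 2 (.lc 4 2 (.lc 4 2 (.lc 4 2 .stop)))))))))))))))))))))))))))))))))))))))))))))))))))))))))))))))))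
 (.conf [71,83] (.conf [71,83] (.conf [64,83] (.conf [72,83] (.lc 0 0 (.node [65,83,101,118,83,50] 6 5 (.node [83,96] 0 5 (.lc 1 3 (.conf [3,50] (.lc 1 3 (.lc 1 2 (.lc 2 0 (.lc 3 1 (.lc 1 2 (.lc 2 3 (.lc 2 3 (.lc 1 2 (.lc 3 1 (.lc 3 1 (.lc 3 1 (.lc 2 2 (.lc 4 1 .stop)))))))))))))))
 (.node [83,98] 2 5 (.lc 2 0 .stop)
 (.lc 1 3 (.node [83,104] 7 6 (.lc 1 8 (.lc 1 8 (.lc 0 2 (.lc 1 8 (.lc 3 0 (.lc 3 9 (.lc 0 2 (.lc 2 8 (.lc 2 8 (.lc 1 6 (.lc 2 8 (.lc 2 8 (.lc 0 2 (.lc 2 8 (.lc 2 8 (.lc 2 8 (.lc 1 6 (.lc 2 8 (.lc 2 8 (.lc 3 0 (.lc 3 2 (.lc 0 2 (.lc 3 9 (.node [112,133] 7 0 (.far [257,256,257,4096] 0 .stop)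
 (.node [114,133] 7 2 .stop
 (.lc 0 2 (.node [121,133] 1 7 (.lc 2 9 (.lc 3 0 (.far [16,256,257,4096] 0 (.lc 3 10 (.lc 3 0 (.lc 4 0 .stop))))))
 (.lc 2 8 (.lc 2 8 (.lc 2 8 (.lc 1 2 (.lc 2 8 (.lc 1 2 (.lc 2 8 (.lc 2 8 (.lc 4 9 (.lc 4 0 (.lc 1 8 (.lc 4 0 (.lc 4 10 (.lc 3 8 (.lc 3 8 (.lc 2 6 (.lc 2 6 (.lc 3 8 (.lc 3 8 (.lc 1 9 (.lc 3 8 (.lc 3 8 (.node [121,133,144] 7 9 (.lc 0 9 (.lc 0 10 .stop))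
 (.conf [40,133] (.lc 1 8 (.node [112,133,152] 7 0 (.node [] 8 5 (.lc 1 3 (.node [50] 8 3 (.lc 2 2 (.lc 1 2 (.lc 1 2 (.lc 2 2 (.lc 2 2 (.lc 3 3 (.lc 2 2 (.lc 0 2 (.lc 3 10 (.lc 2 2 (.lc 2 2 (.lc 2 2 (.lc 2 2 (.lc 2 2 (.lc 3 3 (.lc 2 2 (.lc 3 2 (.lc 3 2 (.lc 4 3 (.lc 3 2 (.lc 3 2 (.lc 3 2 (.lc 3 2 (.lc 4 2 .stop))))))))))))))))))))))))
 (.lc 1 3 (.lc 1 3 (.lc 1 2 (.lc 2 3 (.lc 2 3 (.lc 1 2 (.lc 2 3 (.lc 2 3 (.lc 1 2 (.lc 1 2 (.lc 2 3 (.lc 2 3 (.lc 1 2 (.lc 1 2 (.lc 1 2 (.lc 2 3 (.lc 2 3 (.lc 1 2 (.lc 3 10 (.lc 2 3 (.lc 2 2 (.lc 2 2 (.lc 2 2 (.lc 3 3 (.lc 2 2 (.lc 3 3 (.lc 2 2 (.lc 2 2 (.lc 3 2 .stop)))))))))))))))))))))))))))))))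
 .stop)
 (.node [122,133,152] 7 10 (.lc 0 10 (.lc 0 0 (.lc 0 0 (.lc 2 9 (.lc 0 11 (.lc 0 0 .stop))))))
 (.node [121,133,144] 0 8 (.lc 1 5 (.lc 0 2 (.lc 1 5 (.lc 1 3 (.lc 0 2 (.lc 1 3 (.lc 3 1 (.lc 3 1 (.lc 1 8 (.lc 2 5 (.lc 2 5 (.lc 1 3 (.lc 3 1 (.lc 3 1 (.lc 3 1 (.lc 1 2 (.lc 4 1 (.lc 4 1 (.lc 4 1 (.lc 4 1 .stop))))))))))))))))))))
 (.far [257,257,1,257,257] 4096 (.node [121,133,146] 2 8 (.lc 2 0 (.lc 3 0 (.lc 3 0 .stop)))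
 (.lc 1 2 (.conf [32,114] (.lc 1 2 (.node [112,133,152] 7 0 (.node [] 8 5 (.lc 1 3 (.lc 2 3 (.lc 1 3 (.lc 1 2 (.lc 2 3 (.lc 1 2 (.lc 2 3 (.lc 1 2 (.lc 2 3 (.lc 1 2 (.lc 2 3 (.lc 2 3 (.lc 0 3 (.lc 2 3 (.lc 2 2 (.lc 2 2 (.lc 3 3 (.lc 2 2 (.lc 3 3 (.lc 2 2 (.lc 2 2 (.lc 3 2 .stop))))))))))))))))))))))
 .stop)
 (.node [122,133,169] 7 10 (.lc 0 10 (.lc 0 0 (.lc 0 0 (.lc 2 9 (.lc 0 11 (.lc 0 0 .stop))))))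
 (.lc 0 2 (.node [121,133,144] 0 8 (.lc 1 5 (.lc 1 3 (.lc 1 8 (.lc 2 5 .stop))))
 (.conf [40,133] (.lc 1 8 (.node [112,133,152] 7 0 (.far [257,256,257,4096] 0 .stop)
 (.node [114,133,152] 7 2 .stop
 (.lc 0 2 (.node [122,133,152] 1 7 (.lc 2 10 (.lc 3 0 (.far [16,256,257,4096] 0 (.lc 3 11 (.lc 3 0 (.lc 4 0 .stop))))))
 (.node [122,133,169,144] 0 8 (.lc 1 5 (.lc 1 3 (.lc 1 8 (.lc 2 5 .stop))))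
 (.conf [40,133] (.lc 2 8 (.lc 2 8 (.node [122,133,152,160] 7 10 (.lc 0 10 (.lc 0 11 .stop))
 (.conf [41,152] (.lc 1 9 (.node [112,133,152,169] 7 0 (.node [] 8 5 (.lc 1 3 (.lc 2 3 (.lc 1 3 (.lc 1 2 (.lc 2 3 (.lc 1 2 (.lc 2 3 (.lc 1 2 (.lc 2 3 (.lc 1 2 (.lc 2 3 (.lc 2 3 (.node [50] 9 3 (.lc 1 2 (.lc 2 2 (.lc 0 2 (.lc 2 2 (.lc 2 2 (.lc 3 2 .stop))))))
 (.lc 2 3 (.lc 2 2 (.lc 2 2 (.lc 3 3 (.lc 2 2 (.lc 3 3 (.lc 2 2 (.lc 2 2 (.lc 3 2 .stop))))))))))))))))))))))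
 .stop)
 (.node [123,133,152,169] 7 11 (.lc 0 11 (.lc 0 0 (.lc 0 0 (.lc 2 10 (.lc 0 12 (.lc 0 0 .stop))))))
 .stop)))))))))))))))))))))))))))))))))))))))))))))))))))))))))))))))))))))))))))))))
 (.lc 2 3 (.lc 2 3 (.lc 2 3 (.lc 2 3 (.lc 2 3 (.lc 3 8 (.lc 3 0 (.lc 1 2 (.lc 1 2 (.lc 3 0 (.lc 3 2 (.lc 3 9 (.node [83,104,128] 0 5 (.lc 1 3 (.lc 1 2 (.lc 2 3 .stop)))
 (.conf [37,83] (.lc 1 2 (.lc 1 2 (.node [83,96,133] 6 0 .stop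
 (.node [83,105,133] 8 5 (.lc 1 3 (.lc 1 3 (.node [50] 8 3 (.lc 1 2 (.lc 2 2 (.lc 1 2 (.lc 1 2 (.lc 2 2 (.lc 2 2 (.lc 2 2 (.lc 0 2 (.lc 2 2 (.lc 2 2 (.lc 3 0 (.lc 3 10 (.lc 2 2 (.lc 2 2 (.lc 2 2 (.lc 2 2 (.lc 2 2 (.lc 2 2 (.lc 2 2 (.conf [32,146] (.lc 2 2 (.lc 2 2 (.lc 3 2 (.lc 3 2 (.lc 3 2 (.node [144] 6 9 (.lc 2 0 (.conf [1,112] .stop))
 (.conf [32,162] (.lc 3 2 (.lc 3 2 (.lc 3 2 (.lc 3 2 (.lc 3 2 (.lc 3 2 (.lc 3 2 (.lc 3 2 (.lc 3 2 (.lc 4 2 (.lc 4 2 .stop))))))))))))))))))))))))))))))))))))))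
 (.lc 1 3 (.lc 2 3 (.lc 1 2 (.lc 2 3 (.lc 2 3 (.lc 2 3 (.lc 1 2 (.lc 1 2 (.lc 2 3 (.lc 2 3 (.lc 2 3 (.lc 2 3 (.lc 2 3 (.lc 1 2 (.lc 1 2 (.lc 2 3 (.lc 2 3 (.lc 1 2 (.lc 1 2 (.lc 2 3 (.lc 1 2 (.lc 2 3 (.lc 2 3 (.lc 2 3 (.lc 2 3 (.lc 3 0 (.lc 1 2 (.lc 3 10 (.lc 2 3 (.lc 2 3 (.lc 2 2 (.lc 2 2 (.lc 2 2 (.lc 3 3 (.lc 3 3 (.lc 2 2 (.lc 2 2 (.lc 2 2 (.lc 3 3 (.lc 3 3 (.lc 3 3 (.lc 3 3 (.lc 3 3 (.lc 2 2 (.lc 2 2 (.lc 3 3 (.lc 3 3 (.lc 2 2 (.lc 2 2 (.lc 2 2 (.lc 2 2 (.lc 2 2 (.lc 2 2 (.lc 3 2 (.lc 3 2 (.lc 3 2 (.lc 3 2 .stop))))))))))))))))))))))))))))))))))))))))))))))))))))))))))))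
 (.lc 2 3 (.lc 2 3 (.lc 2 3 (.lc 2 3 (.lc 2 3 (.lc 2 3 (.lc 2 3 (.lc 2 3 (.lc 2 3 (.lc 2 3 (.lc 2 3 (.lc 3 8 (.lc 3 0 (.lc 3 8 (.lc 2 3 (.lc 1 2 (.lc 2 3 (.lc 3 0 (.lc 3 9 (.lc 3 3 (.lc 3 3 (.lc 3 3 (.lc 3 3 (.lc 3 3 (.lc 3 3 (.lc 4 9 (.lc 4 8 (.lc 2 2 (.lc 2 2 (.lc 2 2 (.lc 4 9 (.lc 4 0 (.lc 4 0 (.lc 4 10 (.lc 3 3 (.lc 3 3 (.lc 3 3 (.lc 3 3 (.lc 3 3 (.lc 3 3 (.lc 3 3 (.lc 3 3 (.lc 3 3 (.lc 3 3 (.lc 3 3 (.lc 3 3 (.lc 3 3 (.lc 3 3 (.lc 3 3 (.lc 3 3 (.lc 3 3 (.lc 3 3 (.lc 3 3 (.lc 3 3 (.lc 3 3 (.lc 4 3 (.lc 4 3 (.lc 4 3 (.lc 4 3 (.lc 4 3 (.lc 4 3 (.lc 4 3 (.lc 4 3 .stop)))))))))))))))))))))))))))))))))))))))))))))))))))))))))))))))))))))))))))))))))))))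
 (.lc 0 0 (.node [65,83,101,118,50] 5 3 (.lc 2 0 (.lc 1 2 (.lc 2 8 (.lc 2 2 (.lc 2 2 (.lc 2 2 (.node [50,96] 0 3 (.far [1,4096,4096,0,256] 0 .stop)
 (.lc 2 2 (.node [50,104] 8 3 (.lc 1 2 (.conf [32,130] (.lc 1 2 (.lc 1 2 (.lc 2 2 (.lc 2 2 (.lc 2 2 (.lc 2 2 (.lc 3 0 (.lc 0 6 (.lc 3 9 (.lc 2 2 (.lc 2 2 (.lc 2 2 (.lc 2 2 (.node [128] 6 8 (.lc 0 8 (.lc 2 9 (.conf [1,112] (.lc 3 9 (.lc 3 10 (.lc 2 0 (.lc 3 10 (.lc 3 9 (.lc 3 10 (.lc 4 11 (.lc 4 10 .stop)))))))))))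
 (.conf [32,146] (.lc 2 2 (.lc 2 2 (.lc 2 2 (.lc 2 2 (.lc 2 2 (.lc 2 2 (.lc 2 2 (.lc 2 2 (.lc 2 2 (.lc 3 0 (.lc 3 9 (.lc 2 2 (.lc 2 2 (.lc 2 2 (.lc 2 2 (.lc 3 2 (.lc 3 2 (.lc 3 2 (.lc 4 9 (.lc 4 10 (.lc 3 2 (.lc 3 2 (.lc 3 2 (.lc 3 2 (.lc 3 2 (.lc 3 2 (.lc 3 2 (.lc 3 2 (.lc 3 2 (.lc 3 2 (.lc 3 2 (.lc 3 2 (.lc 4 2 (.lc 4 2 .stop)))))))))))))))))))))))))))))))))))))))))))))))))))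
 (.lc 3 8 (.lc 2 2 (.lc 2 2 (.lc 3 0 (.lc 3 9 (.lc 2 2 (.lc 2 2 (.lc 2 2 (.lc 2 2 (.lc 2 2 (.lc 0 0 (.lc 2 2 (.lc 0 8 (.lc 3 2 (.lc 3 2 (.lc 3 2 (.lc 3 2 (.lc 0 8 (.lc 3 2 (.lc 3 2 (.lc 0 0 (.lc 0 9 (.lc 3 2 (.lc 3 2 (.lc 3 2 (.lc 3 2 (.lc 3 2 (.lc 3 2 (.lc 3 2 (.lc 3 2 (.lc 3 2 (.lc 4 2 (.lc 4 2 (.lc 4 2 (.lc 4 2 .stop))))))))))))))))))))))))))))))))))))))))))))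
 (.lc 0 0 (.node [65,83,101,118,50] 6 5 (.lc 1 3 (.lc 1 3 (.lc 1 3 (.lc 3 0 (.lc 1 2 (.lc 3 8 (.lc 2 3 (.lc 2 3 (.lc 2 3 (.lc 2 3 (.lc 2 3 (.lc 2 3 (.lc 2 3 (.lc 2 3 (.lc 2 3 (.lc 1 2 (.lc 1 2 (.node [50,96] 6 0 (.far [4112,4096,1,256] 0 (.conf [3,128] .stop))
 (.lc 1 2 (.node [50,104] 7 6 (.far [1,4096,1,256] 0 (.node [112,131] 7 0 (.lc 2 9 (.lc 3 10 .stop))
 (.node [114,131] 3 2 (.lc 2 0 (.lc 3 9 .stop))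
 (.node [121,131] 8 3 (.lc 1 2 (.lc 2 2 (.lc 1 2 (.lc 2 2 (.lc 2 2 (.lc 2 2 (.conf [32,146] (.lc 2 2 (.lc 2 2 (.lc 3 0 (.lc 3 10 (.lc 2 2 (.lc 2 2 (.lc 2 2 (.lc 2 2 (.lc 2 2 (.lc 2 2 (.lc 0 2 (.lc 2 2 (.lc 3 2 (.lc 3 2 (.lc 3 2 (.lc 0 0 (.lc 0 10 (.lc 3 2 (.lc 3 2 (.lc 3 2 (.lc 3 2 (.lc 3 2 (.lc 3 2 (.lc 3 2 (.lc 3 2 (.lc 4 2 (.lc 4 2 .stop))))))))))))))))))))))))))))))))))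
 (.node [112,131] 0 8 (.lc 1 3 (.far [256,0,257,0,1,1] 4096 (.lc 2 3 (.lc 1 2 .stop))))
 (.node [121,152,121] 8 3 (.lc 1 2 (.lc 2 2 (.lc 1 2 (.lc 2 2 (.lc 2 2 (.lc 2 2 (.lc 0 2 (.lc 2 2 (.lc 2 2 (.lc 3 0 (.lc 3 10 (.lc 2 2 (.lc 2 2 (.lc 2 2 (.lc 2 2 (.lc 2 2 (.lc 2 2 (.conf [32,146] (.lc 2 2 (.lc 3 2 (.lc 3 2 (.lc 3 2 (.far [4096,1,4096,1,256,256] 0 (.conf [32,162] (.lc 3 2 (.lc 3 2 (.lc 3 2 (.lc 3 2 (.lc 3 2 (.lc 3 2 (.lc 3 2 (.lc 3 2 (.lc 4 2 (.lc 4 2 .stop))))))))))))))))))))))))))))))))))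
 (.far [1,4096,1,256] 0 (.far [1,4096,1,256] 0 (.node [121,131,144] 0 8 (.lc 1 3 (.far [256,0,257,0,1,1] 4096 (.lc 2 3 (.lc 1 2 .stop))))
 (.conf [40,131] (.node [112,131,152] 7 0 .stop
 (.node [122,131,152] 8 3 (.lc 1 2 (.lc 2 2 (.lc 1 2 (.lc 2 2 (.lc 2 2 (.lc 2 2 (.lc 0 2 (.lc 2 2 (.lc 2 2 (.lc 3 0 (.lc 3 11 (.lc 2 2 (.lc 2 2 (.lc 2 2 (.lc 2 2 (.lc 2 2 (.lc 2 2 (.conf [32,146] (.lc 2 2 (.lc 3 2 (.lc 3 2 (.lc 3 2 (.far [4096,1,4096,1,256,256] 0 (.conf [32,178] (.lc 3 2 (.lc 3 2 (.lc 3 2 (.lc 3 2 (.lc 3 2 (.lc 3 2 (.lc 3 2 (.lc 3 2 (.lc 4 2 (.lc 4 2 .stop))))))))))))))))))))))))))))))))))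
 .stop))))))))))))
 (.lc 2 3 (.lc 2 3 (.lc 2 3 (.lc 2 3 (.lc 2 3 (.lc 2 2 (.lc 2 2 (.lc 2 2 (.lc 3 3 (.lc 3 3 (.lc 3 3 (.lc 3 3 (.lc 3 3 (.lc 3 3 (.node [50,104,128] 0 3 (.node [] 6 8 (.far [4112,0,4096,1,256] 0 (.lc 2 0 (.far [4112,0,4096,1,256] 0 (.lc 2 0 (.lc 3 0 .stop)))))
 .stop)
 (.lc 2 2 (.lc 2 2 (.node [50,96,131] 6 0 .stop
 (.node [50,105,131] 6 9 (.far [4112,4096,1,256] 0 (.lc 2 8 (.lc 2 8 (.lc 2 8 (.far [4112,4096,1,256] 0 (.far [4112,4096,1,256] 0 (.lc 2 8 (.lc 2 8 (.lc 3 8 (.lc 3 8 (.lc 3 8 (.lc 3 8 .stop))))))))))))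
 (.lc 2 2 (.lc 2 2 (.lc 2 2 (.lc 2 2 (.lc 2 2 (.lc 2 2 (.lc 3 2 (.lc 3 2 (.lc 3 2 (.lc 3 2 .stop)))))))))))))))))))))))))))))))))))))))))))))))))
 (.lc 0 0 (.node [65,83,101,118,50] 6 5 (.lc 1 3 (.lc 1 3 (.lc 1 3 (.lc 3 0 (.lc 1 2 (.lc 3 8 (.lc 2 3 (.lc 2 3 (.lc 2 3 (.lc 2 3 (.lc 2 3 (.lc 2 3 (.lc 2 3 (.lc 2 3 (.lc 2 3 (.lc 1 2 (.lc 1 2 (.node [50,96] 6 0 (.conf [3,112] (.lc 0 8 .stop))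
 (.lc 1 2 (.node [50,104] 7 6 (.node [120] 8 3 (.lc 1 2 (.conf [32,130] (.lc 1 2 (.lc 1 2 (.lc 2 2 (.lc 2 2 (.lc 2 2 (.lc 3 0 (.lc 3 9 (.lc 2 2 (.lc 2 2 (.lc 2 2 (.far [16,16,16,256,0,4096] 17 (.conf [32,146] (.lc 2 2 (.lc 2 2 (.lc 2 2 (.lc 2 2 (.lc 2 2 (.lc 2 2 (.lc 2 2 (.lc 2 2 (.lc 3 0 (.lc 3 9 (.lc 2 2 (.lc 2 2 (.lc 3 2 (.lc 3 2 (.lc 3 2 (.lc 4 9 (.lc 4 10 (.lc 3 2 (.lc 3 2 (.lc 3 2 (.lc 3 2 (.lc 3 2 (.lc 3 2 (.lc 3 2 (.lc 3 2 (.lc 3 2 (.lc 4 2 (.lc 4 2 .stop))))))))))))))))))))))))))))))))))))))))))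
 (.lc 3 0 (.lc 3 2 (.lc 3 9 (.node [112,131] 7 0 .stop
 (.node [121,131] 8 3 (.lc 1 2 (.lc 2 2 (.lc 1 2 (.lc 2 2 (.lc 2 2 (.lc 2 2 (.lc 0 2 (.lc 2 2 (.lc 2 2 (.lc 3 0 (.lc 3 10 (.lc 2 2 (.lc 2 2 (.lc 2 2 (.lc 2 2 (.lc 2 2 (.lc 2 2 (.conf [32,146] (.lc 2 2 (.lc 3 2 (.lc 3 2 (.lc 3 2 (.far [16,16,16,256,0,4096] 17 (.conf [32,162] (.lc 3 2 (.lc 3 2 (.lc 3 2 (.lc 3 2 (.lc 3 2 (.lc 3 2 (.lc 3 2 (.lc 3 2 (.lc 4 2 (.lc 4 2 .stop))))))))))))))))))))))))))))))))))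
 (.lc 3 0 (.lc 3 9 (.lc 4 9 (.lc 4 0 (.lc 4 0 (.lc 4 10 .stop))))))))))))
 (.lc 2 3 (.lc 2 3 (.lc 2 3 (.lc 2 3 (.lc 2 3 (.lc 2 2 (.lc 2 2 (.lc 2 2 (.lc 3 3 (.lc 3 3 (.lc 3 3 (.lc 3 3 (.lc 3 3 (.lc 3 3 (.node [50,104,128] 0 3 (.node [] 7 6 (.node [120] 7 8 (.lc 2 9 (.lc 0 9 (.lc 3 10 (.far [4096,0,0,4096,257,256] 0 (.lc 0 9 (.lc 0 10 .stop))))))
 (.lc 3 9 (.lc 1 0 (.lc 3 9 (.lc 4 10 .stop)))))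
 .stop)
 (.lc 2 2 (.lc 2 2 (.node [50,96,131] 6 0 .stop
 (.node [50,105,131] 7 6 (.node [121] 7 9 (.lc 2 0 (.lc 2 2 (.lc 2 10 (.lc 3 0 (.lc 3 10 (.lc 2 8 (.lc 0 10 (.lc 3 10 (.lc 3 0 (.lc 3 0 (.lc 3 11 (.lc 3 0 (.lc 3 2 (.lc 3 10 (.lc 0 8 (.lc 0 0 (.lc 0 10 (.lc 4 10 (.lc 4 0 (.lc 4 0 (.lc 4 11 (.lc 0 0 (.lc 0 11 (.lc 0 0 (.lc 0 10 (.lc 0 0 (.lc 0 10 (.node [131] 8 3 (.lc 1 2 (.lc 2 2 (.far [4112,4096,0,4112,257,256] 17 (.lc 2 2 .stop))))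
 (.lc 0 10 (.lc 0 0 (.lc 0 11 .stop)))))))))))))))))))))))))))))))
 (.lc 3 0 (.lc 3 2 (.lc 3 10 (.lc 1 8 (.lc 1 8 (.lc 3 0 (.lc 3 10 (.lc 4 10 (.lc 4 0 (.lc 4 0 (.lc 4 11 .stop))))))))))))
 (.lc 2 2 (.lc 2 2 (.lc 2 2 (.lc 2 2 (.lc 2 2 (.lc 2 2 (.lc 3 2 (.lc 3 2 (.lc 3 2 (.lc 3 2 .stop)))))))))))))))))))))))))))))))))))))))))))))))))
 (.lc 0 0 (.node [65,83,101,118,135,50] 6 5 (.lc 1 3 (.lc 1 3 (.lc 1 3 (.lc 3 0 (.lc 1 2 (.lc 3 9 (.lc 2 3 (.lc 2 3 (.lc 2 3 (.lc 2 3 (.lc 2 3 (.lc 2 3 (.lc 2 3 (.lc 2 3 (.lc 2 3 (.lc 1 2 (.lc 1 2 (.node [50,96] 6 0 (.conf [3,112] (.lc 0 9 .stop))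
 (.lc 1 2 (.node [50,105] 7 6 (.node [121] 9 3 (.lc 1 2 (.conf [32,146] (.lc 1 2 (.lc 1 2 (.lc 1 2 (.lc 2 2 (.lc 2 2 (.lc 2 2 (.lc 2 2 (.lc 3 0 (.lc 0 7 (.lc 3 10 (.lc 2 2 (.lc 2 2 (.lc 2 2 (.lc 2 2 (.node [144] 7 9 (.lc 2 0 (.lc 2 10 (.lc 3 10 (.lc 0 10 (.lc 3 11 (.lc 0 0 (.conf [1,128] (.lc 2 0 (.lc 3 0 (.lc 3 0 .stop))))))))))
 (.conf [32,162] (.lc 2 2 (.lc 2 2 (.lc 2 2 (.lc 2 2 (.lc 2 2 (.lc 2 2 (.lc 2 2 (.lc 2 2 (.lc 2 2 (.lc 2 2 (.lc 2 2 (.lc 3 0 (.lc 3 10 (.lc 2 2 (.lc 2 2 (.lc 2 2 (.lc 2 2 (.lc 3 2 (.lc 3 2 (.lc 3 2 (.lc 3 2 (.lc 4 10 (.lc 4 11 (.lc 3 2 (.lc 3 2 (.lc 3 2 (.lc 3 2 (.lc 3 2 (.lc 3 2 (.lc 3 2 (.lc 3 2 (.lc 3 2 (.lc 3 2 (.lc 3 2 (.lc 3 2 (.lc 4 2 (.lc 4 2 .stop)))))))))))))))))))))))))))))))))))))))))))))))))))))))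
 (.lc 3 0 (.lc 3 2 (.lc 3 10 (.node [112,147] 7 0 .stop
 (.node [122,147] 9 3 (.lc 1 2 (.lc 2 2 (.lc 1 2 (.lc 1 2 (.lc 2 2 (.lc 2 2 (.lc 2 2 (.lc 0 2 (.lc 2 2 (.lc 2 2 (.lc 3 0 (.lc 3 11 (.lc 2 2 (.lc 2 2 (.lc 2 2 (.lc 2 2 (.lc 2 2 (.lc 2 2 (.lc 2 2 (.conf [32,162] (.lc 2 2 (.lc 2 2 (.lc 3 2 (.lc 3 2 (.lc 3 2 (.node [160] 7 10 (.lc 2 0 (.conf [1,128] .stop))
 (.conf [32,178] (.lc 3 2 (.lc 3 2 (.lc 3 2 (.lc 3 2 (.lc 3 2 (.lc 3 2 (.lc 3 2 (.lc 3 2 (.lc 3 2 (.lc 4 2 (.lc 4 2 .stop))))))))))))))))))))))))))))))))))))))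
 (.lc 3 0 (.lc 3 10 (.lc 4 10 (.lc 4 0 (.lc 4 0 (.lc 4 11 .stop))))))))))))
 (.lc 2 3 (.lc 2 3 (.lc 2 3 (.lc 2 3 (.lc 2 3 (.lc 2 2 (.lc 2 2 (.lc 2 2 (.lc 3 3 (.lc 3 3 (.lc 3 3 (.lc 3 3 (.lc 3 3 (.lc 3 3 (.node [50,105,144] 0 3 (.node [] 7 6 (.far [1,1,1,4096,0,256] 0 (.lc 3 10 (.lc 1 0 (.lc 3 10 (.lc 4 11 .stop)))))
 .stop)
 (.lc 2 2 (.lc 2 2 (.node [50,96,147] 6 0 .stop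
 (.node [50,106,147] 7 6 (.node [122] 7 10 (.lc 2 0 (.lc 2 2 (.lc 2 11 (.lc 3 0 (.lc 3 11 (.lc 0 0 (.lc 0 11 (.lc 3 11 (.lc 3 0 (.lc 3 0 (.lc 3 12 (.lc 3 0 (.lc 3 2 (.lc 3 11 (.lc 0 9 (.lc 2 9 (.lc 2 9 (.lc 2 9 (.lc 4 11 (.lc 4 0 (.lc 4 0 (.lc 4 12 (.lc 3 9 (.lc 3 9 (.lc 3 9 (.lc 3 9 (.lc 2 3 (.lc 2 3 (.node [128,147] 8 0 (.node [] 9 3 (.lc 0 3 (.lc 0 1 (.lc 0 1 (.lc 2 2 .stop))))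
 .stop)
 (.node [130,147] 8 2 .stop
 (.node [139,147] 9 3 (.lc 1 2 (.lc 2 2 (.lc 2 2 (.conf [32,178] (.lc 2 2 (.lc 2 2 (.lc 3 2 (.lc 3 2 .stop))))))))
 (.lc 0 0 (.lc 0 11 (.node [139,147,176] 0 9 (.lc 1 2 .stop)
 (.conf [41,147] (.node [128,147,185] 8 0 (.node [] 9 3 (.lc 1 2 (.lc 2 2 (.lc 0 2 (.lc 2 2 (.lc 2 2 (.lc 3 2 .stop))))))
 .stop)
 (.node [140,147,185] 9 3 (.lc 1 2 (.lc 2 2 (.lc 2 2 (.lc 0 2 (.lc 2 2 (.lc 2 2 (.lc 3 2 (.lc 3 2 .stop))))))))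
 .stop)))))))))))))))))))))))))))))))))))))
 (.lc 3 0 (.lc 3 2 (.lc 3 11 (.lc 1 9 (.lc 1 9 (.lc 3 0 (.lc 3 11 (.lc 4 11 (.lc 4 0 (.lc 4 0 (.lc 4 12 .stop))))))))))))
 (.lc 2 2 (.lc 2 2 (.lc 2 2 (.lc 2 2 (.lc 2 2 (.lc 2 2 (.lc 3 2 (.lc 3 2 (.lc 3 2 (.lc 3 2 .stop)))))))))))))))))))))))))))))))))))))))))))))))))
 .stop)))))))))))))))))))))))))))))))

theorem t25 : kNode2 awTt FTt 4 5 (check tyTt awTt triet FTt [s26] c25) (fun _ _ _ => true) 0 s25 Pl.nil s25 =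
    true := by
  decide +kernel

end Chk
end Pool.Agent.Lib.MP_ba95e8_co
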