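import Pool.Agent.Lib.MP_ba95e8_co.ChkTab
import Pool.Agent.Lib.MP_ba95e8_co.ChkStates

/-!
Deltahedral domes: part 26 of the case analysis.
-/

namespace Pool.Agent.Lib.MP_ba95e8_co
namespace Chk

/-- certificate number 26 -/
def c26 : Cert := (.node [] 5 3 (.node [80] 5 0 (.node [22,81] 6 5 (.lc 2 1 .stop)
 (.lc 2 0 (.node [87] 6 5 (.node [103] 0 3 (.far [257,0,0,1,0,0,1,1] 4096 (.node [50] 3 2 (.node [114] 6 7 (.node [98] 6 2 .stop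
 .stop)
 (.node [112,48,98] 6 2 .stop
 (.conf [32,130] .stop)))
 (.far [4112,0,1,256] 0 .stop)))
 (.conf [98,112,80] (.conf [104,112,135] (.lc 3 1 (.far [16,257,257,0,16,4096] 0 (.far [1,4112,4112,0,1,256] 0 (.conf [105,112,80] .stop)))))))
 (.node [22,87,113,87] 6 5 (.node [113] 6 7 (.node [98,113] 2 7 .stop
 (.node [104,113] 7 1 (.node [22] 1 6 (.lc 0 1 .stop)
 (.lc 0 9 .stop))
 (.conf [113,135] .stop)))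
 (.lc 3 2 (.lc 3 8 (.lc 1 1 (.lc 3 8 (.lc 4 9 .stop))))))
 (.lc 0 1 (.conf [80,103,112] (.node [22,87,113,87] 6 5 (.far [1,4112,4112,0,1,256] 0 (.lc 3 2 (.lc 3 8 (.lc 1 1 (.lc 3 8 (.lc 4 9 .stop))))))
 (.lc 3 0 (.node [88,135,88,112,101] 6 5 (.far [1,4112,4112,0,1,256] 0 (.lc 3 2 (.lc 3 9 (.lc 3 1 (.lc 1 7 (.lc 3 9 (.lc 4 10 .stop)))))))
 (.lc 3 0 (.node [22,87] 1 6 (.node [101] 6 5 (.lc 2 1 .stop)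
 (.lc 2 5 (.far [4112,1,257,16,4112,4096] 0 (.lc 2 5 (.lc 3 5 .stop)))))
 (.lc 0 1 (.node [80,103,112] 6 7 (.node [112] 7 0 (.lc 2 0 (.far [1,0,1,256] 0 (.lc 3 8 .stop)))
 (.node [112,135] 0 1 .stop
 (.conf [112,135] (.far [257,257,257,16,4112,4096] 0 (.node [112,135,152] 0 1 .stop
 .stop)))))
 (.node [22,88,135,88,113] 6 5 (.node [135] 1 6 (.far [257,16,256,0,1,256] 4097 (.lc 0 9 .stop))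
 (.lc 3 2 (.lc 3 9 (.lc 1 7 (.lc 3 9 (.lc 4 10 .stop))))))
 (.node [80,104,112,135,3,112] 0 3 (.lc 2 1 (.far [4112,4096,16,0,1,256] 0 (.lc 0 9 .stop)))
 .stop)))))))))))))))
 (.lc 1 2 (.lc 2 3 (.node [87] 3 2 (.far [1,0,257,257,257,4097] 4096 (.node [54,98,101] 3 6 .stop
 (.node [50,114] 5 7 (.node [80] 5 0 (.node [96] 6 0 (.node [96,80] 7 2 (.far [4096,0,0,1,0,257,0,0,1,1] 4096 (.node [120] 0 7 .stop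
 (.node [121,152,121,130] 7 9 .stop
 .stop)))
 (.node [103,114] 6 7 .stop
 .stop))
 (.far [4112,4112,0,4112,0,1,256] 0 (.lc 0 1 .stop)))
 (.node [22,81] 5 1 (.lc 0 1 .stop)
 (.lc 1 2 (.lc 2 3 (.node [88] 6 5 (.node [104] 7 2 (.far [1,0,0,4096,1,0,0,1,1] 4096 (.node [114,130] 8 2 (.far [1,4096,0,1,0,257,0,0,1,1] 4096 (.lc 3 2 (.node [137,144,137] 6 8 (.far [1,4112,256,256,256] 0 (.lc 3 1 (.lc 1 0 (.lc 1 0 (.lc 3 1 (.lc 4 1 .stop))))))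
 .stop)))
 (.node [121] 8 7 (.node [] 9 2 (.far [1,1,4096,0,1,0,257,0,0,1,1] 4096 (.node [154,160] 8 9 (.far [1,4096,257,0,0,1,0,257,0,0,1,1] 4096 (.lc 3 5 (.node [160,186,139] 6 8 (.far [1,4112,0,4112,0,256,256] 0 (.lc 3 1 (.lc 1 10 (.lc 1 10 (.lc 3 1 (.lc 4 1 .stop))))))
 (.lc 4 5 .stop))))
 (.node [160,154] 8 9 (.node [22,129,154,160] 1 9 .stop
 (.node [105,154,160] 6 9 (.lc 1 0 .stop)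
 (.far [1,4112,256,256] 0 (.node [139,154,160] 9 10 (.far [4112,1,4112,256,256] 0 (.lc 2 0 (.lc 2 0 (.lc 0 12 (.lc 2 0 (.lc 3 0 .stop))))))
 (.conf [139,160,186] (.conf [25,97] (.conf [133,146] (.conf [154,185] (.conf [25,97] (.conf [139,160,186] (.conf [154,185] (.conf [146,160] (.conf [146,160] (.conf [146,160] (.far [4096,4112,16,256,256,256] 0 (.conf [25,97] (.conf [26,97] (.conf [146,160] (.conf [26,97] (.conf [27,97] (.conf [26,97] (.conf [26,97] (.conf [26,97] (.conf [146,160] (.conf [27,97] .stop)))))))))))))))))))))))))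
 (.far [1,1,4096,0,1,0,257,0,0,1,1] 4096 (.node [155,186,160] 8 9 (.far [1,4096,257,0,0,1,0,257,0,0,1,1] 4096 (.lc 3 5 (.lc 1 10 (.lc 4 5 .stop))))
 .stop)))))
 (.conf [128,146,114] (.conf [129,146,114] (.conf [138,146,169] (.far [16,257,0,16,4096,4096] 0 (.far [16,257,0,16,4096,4096] 0 (.far [1,4112,0,1,256,256] 0 (.far [1,4112,0,1,256,256] 0 (.conf [129,146,114] (.conf [138,146,114] (.conf [128,146,114] (.conf [139,146,114] .stop))))))))))))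
 (.far [4096,0,1,0,257,0,0,1,1] 4096 (.node [121,144,121] 8 7 (.far [1,4096,0,1,0,257,0,0,1,1] 4096 (.lc 3 1 (.lc 3 10 (.lc 1 0 (.lc 3 10 (.lc 4 11 .stop))))))
 (.lc 3 2 (.lc 3 2 (.far [4112,0,1,256,256] 0 (.node [121,144,121] 8 7 (.far [1,4112,0,1,256,256] 0 (.lc 3 1 (.lc 3 10 (.lc 1 0 (.lc 3 10 (.lc 4 11 .stop))))))
 (.far [4112,0,1,256,256] 0 (.node [122,169,122,146] 8 7 (.far [1,4112,0,1,256,256] 0 (.lc 3 0 (.lc 3 1 (.lc 3 11 (.lc 1 9 (.lc 1 9 (.lc 3 0 (.lc 3 11 (.lc 4 1 (.lc 4 11 (.lc 4 0 (.lc 4 12 .stop))))))))))))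
 (.far [257,0,16,4096,4096] 17 (.node [121] 8 7 (.far [16,257,0,16,4096,4096] 17 (.conf [129,144,114] (.conf [138,144,169] (.far [16,257,0,16,4096,4096] 17 (.node [138,169,114] 6 8 (.far [1,1,4112,256,258,256,513,0,0,1,1] 4096 (.lc 3 1 (.lc 1 9 (.lc 1 9 (.lc 3 1 (.lc 4 1 .stop))))))
 (.conf [139,144,114] .stop))))))
 (.lc 3 2 (.lc 3 2 (.lc 3 2 (.node [137,144] 6 8 (.far [1,16,256,257,256,256] 0 (.lc 3 1 (.lc 1 0 (.lc 1 0 (.lc 3 1 (.lc 4 1 .stop))))))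
 (.node [122,169,122,144] 8 7 (.node [169] 8 10 (.node [22,129,169,144] 1 10 .stop
 (.lc 2 5 (.node [139,169,144] 10 9 (.far [4112,1,257,16,0,1,256,256] 0 (.lc 2 0 (.lc 2 0 (.lc 0 12 (.lc 2 0 (.lc 3 0 .stop))))))
 (.conf [144,167] (.lc 3 5 (.lc 3 5 (.lc 3 5 (.conf [169,186] (.node [22,144,167,129] 8 1 (.lc 0 1 .stop)
 (.lc 3 5 (.node [144,167,139] 8 11 (.far [257,257,257,0,4096,4096] 0 (.lc 2 9 (.conf [27,97] (.lc 2 9 (.lc 2 9 (.lc 3 9 .stop))))))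
 (.lc 3 5 (.lc 3 5 (.lc 4 5 (.conf [167,203,140] (.lc 4 5 (.lc 4 5 (.lc 4 5 (.lc 4 5 (.lc 4 5 (.lc 5 5 .stop)))))))))))))))))))))
 (.lc 3 1 (.lc 3 11 (.lc 1 9 (.lc 3 11 (.lc 4 12 .stop))))))
 (.lc 4 2 (.lc 4 2 (.lc 4 2 (.lc 4 2 (.lc 4 2 (.lc 5 2 .stop))))))))))))))))))))))))
 (.conf [96,135,83] (.conf [105,135,152] (.far [16,257,0,257,0,16,4096] 0 (.lc 3 1 (.far [16,257,0,257,0,16,4096] 0 (.far [1,4112,0,4112,0,1,256] 0 (.far [1,4112,0,4112,0,1,256] 0 (.conf [105,135,83] (.conf [96,135,83] (.conf [106,135,83] .stop)))))))))))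
 (.lc 2 2 (.lc 3 3 (.lc 2 2 (.lc 2 2 (.lc 2 2 (.lc 3 3 (.lc 2 2 (.lc 3 3 (.lc 3 3 (.lc 3 3 (.node [22,81] 5 1 (.lc 0 1 .stop)
 (.lc 3 3 (.node [88,128,88,101] 6 5 (.far [1,4112,0,4112,0,1,256] 0 (.lc 3 9 (.lc 3 1 (.lc 1 0 (.lc 3 9 (.lc 4 10 .stop))))))
 (.lc 2 2 (.node [80,135] 5 0 .stop
 (.lc 3 3 (.node [89,152,89,135,101] 6 5 (.far [1,4112,0,4112,0,1,256] 0 (.lc 3 0 (.lc 3 10 (.lc 1 8 (.lc 3 1 (.lc 1 8 (.lc 3 0 (.lc 3 10 (.lc 4 10 (.lc 4 0 (.lc 4 11 .stop)))))))))))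
 (.lc 2 2 (.lc 3 3 (.lc 2 2 (.lc 3 3 (.lc 2 2 (.lc 2 2 (.lc 3 3 (.lc 2 2 (.lc 3 3 (.lc 3 3 (.lc 3 3 (.lc 3 3 (.lc 3 3 (.lc 3 3 (.lc 3 2 (.lc 4 3 (.lc 3 2 (.lc 3 2 (.lc 4 3 (.lc 3 2 (.lc 3 2 (.lc 4 3 (.lc 3 2 (.lc 4 3 (.lc 4 3 (.lc 4 3 (.lc 4 3 (.lc 4 3 (.lc 4 3 (.lc 4 3 (.lc 4 3 (.lc 4 3 (.lc 4 3 (.lc 4 3 (.lc 4 3 (.lc 4 3 (.lc 4 3 (.lc 4 3 (.lc 5 3 (.lc 5 3 (.lc 5 3 (.lc 5 3 .stop))))))))))))))))))))))))))))))))))))))))))))))))))))))))))))))))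
 (.node [56] 7 3 (.asm [] 0 (.conf [112,130,50] (.conf [118,130,50] (.conf [121,130,50] (.far [16,257,16,257,257,256,4096] 0 (.far [16,257,16,257,257,256,4096] 0 (.far [1,4112,1,4112,4112,4096,256] 0 (.far [1,4112,1,4112,4112,4096,256] 0 (.conf [121,130,50] (.conf [112,130,50] (.conf [122,130,50] .stop)))))))))))
 (.far [4096,1,0,0,1,1] 4096 (.node [56,128,56] 3 8 (.far [4112,4096,1,0,0,1,1] 4096 (.lc 0 6 (.lc 0 9 (.lc 0 9 (.lc 2 0 (.lc 0 10 .stop))))))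
 (.node [32,50,101,118] 6 2 .stop
 (.node [32,56,98,101,134,56] 6 2 .stop
 (.node [32,50,120] 8 2 (.far [1,4096,1,0,0,1,1] 4096 (.lc 3 6 (.lc 3 9 (.node [144] 5 7 (.node [22,81,120] 1 7 .stop
 (.lc 2 3 (.node [120,144,151] 9 7 (.lc 0 2 .stop)
 (.node [90,120] 7 8 (.node [137] 6 5 (.node [106] 10 8 (.node [22,137,161,144] 1 8 .stop
 (.lc 2 5 (.far [1,0,4096,1,4112,256,256] 0 (.node [137,171,144] 8 9 (.far [4112,1,0,4096,1,4112,256,256] 0 (.lc 2 0 (.lc 2 0 (.lc 0 12 (.lc 2 0 (.lc 3 0 .stop))))))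
 (.lc 2 2 (.lc 3 5 (.lc 3 5 (.lc 3 5 (.lc 3 5 (.conf [144,171,185] (.conf [137,184] (.lc 2 2 (.lc 2 2 (.lc 2 2 (.lc 2 2 (.lc 3 5 (.lc 3 2 (.lc 3 2 (.lc 4 5 (.lc 4 5 (.lc 3 2 (.lc 3 2 (.lc 3 2 (.lc 3 2 (.lc 4 2 .stop)))))))))))))))))))))))))
 (.conf [105,154,168] (.conf [107,168,186] (.lc 3 1 (.far [16,0,257,0,0,257,0,16,4096] 0 (.far [1,0,4112,0,0,4112,0,1,256] 0 (.conf [108,168,83] .stop)))))))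
 (.lc 2 9 (.lc 2 9 (.lc 2 9 (.lc 2 2 (.lc 0 11 (.lc 2 9 (.lc 3 9 (.lc 3 9 .stop)))))))))
 (.lc 3 3 (.lc 2 3 (.lc 2 3 (.lc 3 3 (.lc 3 3 (.lc 3 3 (.conf [120,167] (.lc 2 3 (.lc 3 3 (.lc 2 3 (.lc 3 3 (.lc 3 3 (.lc 3 3 (.lc 4 3 (.lc 3 3 (.lc 4 3 (.lc 4 3 (.lc 4 3 (.lc 4 3 (.lc 4 3 (.lc 4 3 (.lc 5 3 .stop))))))))))))))))))))))))))
 (.lc 3 9 (.lc 4 10 .stop))))))
 (.node [32,57,152,57] 3 9 (.node [152] 8 2 (.far [1,4112,4096,1,0,0,1,1] 4096 (.lc 3 6 (.lc 3 7 (.lc 3 10 (.node [160] 9 8 (.node [22,138,145] 9 1 (.lc 1 5 .stop)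
 (.node [101,138,150] 9 6 .stop
 (.lc 1 2 (.node [138,155] 7 9 (.node [123] 11 8 (.node [22,138,177,160] 1 8 .stop
 (.node [101,104,138,160] 6 8 (.lc 1 0 .stop)
 (.lc 2 7 (.far [1,1,4096,4112,1,256] 0 (.node [138,188,160] 8 10 (.far [4112,1,1,4096,4112,1,256] 0 (.lc 2 0 (.lc 2 0 (.lc 2 0 (.lc 0 13 (.lc 2 0 (.lc 3 0 (.lc 3 0 .stop))))))))
 (.lc 2 2 (.lc 3 6 (.lc 3 5 (.lc 3 1 (.lc 3 6 (.lc 3 12 (.lc 3 1 (.lc 3 6 (.lc 3 13 (.conf [24,101] (.conf [160,188,202] (.conf [138,200] (.lc 2 2 (.lc 2 2 (.lc 2 2 (.lc 2 2 (.lc 2 2 (.lc 2 2 (.lc 2 2 (.lc 3 6 (.lc 3 12 (.lc 3 12 (.lc 3 12 (.lc 3 13 (.lc 3 2 (.lc 3 2 (.lc 4 12 (.lc 4 6 (.lc 4 13 (.lc 4 6 (.lc 4 14 (.lc 3 2 (.lc 3 2 (.lc 3 2 (.lc 3 2 (.lc 3 2 (.lc 3 2 (.lc 3 2 (.lc 3 2 (.lc 3 2 (.lc 3 2 (.lc 3 2 (.lc 4 2 (.lc 4 2 (.lc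 4 2 .stop))))))))))))))))))))))))))))))))))))))))))))))))))
 (.lc 3 1 (.lc 3 6 (.lc 3 10 (.lc 3 12 (.lc 1 8 (.lc 3 12 (.lc 4 6 (.lc 4 13 .stop)))))))))
 (.lc 2 10 (.lc 2 10 (.lc 2 10 (.lc 2 10 (.lc 2 2 (.conf [138,184] (.conf [24,101] (.lc 2 2 (.conf [138,184] (.lc 2 10 (.lc 2 10 (.lc 2 10 (.lc 2 10 (.lc 2 10 (.lc 2 10 (.lc 0 3 (.lc 2 10 (.lc 2 10 (.lc 0 1 (.lc 0 6 (.lc 0 10 (.lc 0 11 (.lc 3 10 (.lc 3 10 (.lc 3 10 (.lc 0 6 (.lc 0 11 (.lc 0 12 (.lc 0 6 (.lc 0 11 (.lc 0 11 (.lc 0 12 (.lc 0 6 (.lc 0 1 (.lc 0 6 (.lc 0 12 (.lc 3 10 (.lc 0 3 (.lc 3 10 (.lc 0 11 (.lc 0 6 (.lc 0 13 .stop))))))))))))))))))))))))))))))))))))))))))))))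
 (.lc 3 10 (.lc 4 11 .stop)))))))
 (.lc 0 0 (.lc 0 6 (.lc 0 10 (.lc 0 0 (.lc 0 10 (.lc 2 8 (.lc 2 8 (.lc 0 10 (.lc 0 0 (.lc 0 11 .stop)))))))))))
 (.lc 3 2 (.lc 3 2 (.far [4096,1,0,0,1,1] 4096 (.node [56,128,56] 3 8 (.far [4112,4096,1,0,0,1,1] 4096 (.lc 0 6 (.lc 0 9 (.lc 0 9 (.lc 2 0 (.lc 0 10 .stop))))))
 (.far [4112,1,4112,4112,4096,256] 0 (.node [57,152,57,130] 3 9 (.far [4112,4112,1,4112,4112,4096,256] 0 (.lc 0 0 (.lc 0 6 (.lc 0 10 (.lc 0 0 (.lc 0 10 (.lc 2 8 (.lc 2 8 (.lc 0 10 (.lc 0 0 (.lc 0 11 .stop)))))))))))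
 (.node [54,96,101] 3 6 .stop
 (.far [257,16,257,257,256,4096] 17 (.node [56] 3 8 (.far [257,257,16,257,257,256,4096] 17 (.conf [118,128,50] (.conf [121,128,50] (.node [121,152,50] 5 7 (.node [22,81,121,152] 1 7 .stop
 (.lc 2 3 (.node [90,121,152] 7 9 (.far [4112,1,4112,4112,258,4112,4112,4097,257] 4096 (.lc 2 8 (.lc 2 8 (.lc 2 8 (.lc 0 11 (.lc 2 8 (.lc 3 8 (.lc 3 8 .stop))))))))
 (.lc 3 3 (.conf [115,152] (.lc 3 3 (.lc 3 3 (.lc 3 3 (.conf [121,167] (.node [22,115,152,128,81] 5 1 (.lc 0 1 .stop)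
 (.lc 3 3 (.node [115,152,128,90] 9 8 (.node [128] 5 10 (.far [257,0,257,0,0,257,0,16,4096] 0 (.lc 2 8 (.node [107,186] 6 11 (.far [4112,4112,4112,4096,16,4112,0,4096,1,257,257] 4096 (.lc 2 10 (.lc 2 10 (.conf [186,203] (.lc 2 10 (.lc 3 10 .stop))))))
 (.lc 0 1 (.lc 2 8 (.lc 3 8 .stop))))))
 (.lc 2 0 (.lc 2 0 (.lc 2 0 (.lc 0 11 (.lc 2 0 (.lc 3 0 (.lc 3 0 .stop))))))))
 (.lc 3 3 (.lc 3 3 (.lc 4 3 (.conf [115,186,91] (.lc 4 3 (.lc 4 3 (.lc 4 3 (.lc 4 3 (.lc 4 3 (.lc 5 3 .stop))))))))))))))))))))))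
 (.far [257,257,16,257,257,256,4096] 17 (.conf [122,128,50] .stop))))))
 (.conf [32,130] (.conf [32,130] (.conf [32,130] (.lc 3 2 (.lc 3 2 (.lc 3 2 (.lc 3 2 (.lc 3 2 (.lc 3 2 (.node [50,120,128] 5 7 (.node [22,81,120] 1 7 .stop
 (.lc 2 3 (.node [89,120] 7 8 (.far [4112,1,4112,258,4112,4112,4097,257] 4096 (.lc 2 0 (.lc 2 0 (.lc 2 0 (.lc 0 10 (.lc 2 0 (.lc 3 0 (.lc 3 0 .stop))))))))
 (.lc 3 3 (.lc 2 3 (.lc 3 3 (.lc 3 3 (.lc 3 3 (.conf [120,151] (.lc 2 3 (.lc 3 3 (.lc 2 3 (.lc 3 3 (.lc 3 3 (.lc 4 3 (.lc 3 3 (.lc 4 3 (.lc 4 3 (.lc 4 3 (.lc 4 3 (.lc 4 3 (.lc 5 3 .stop))))))))))))))))))))))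
 (.node [57,152,57,128] 3 9 (.node [152] 9 8 (.node [22,128,145] 9 1 (.lc 1 5 .stop)
 (.node [101,128,150] 9 6 .stop
 (.node [128,154] 7 9 (.far [1,4112,8208,4112,2,4112,4112,4097,257] 4096 (.lc 3 1 (.lc 3 6 (.lc 3 11 (.lc 1 8 (.lc 3 11 (.lc 4 6 (.lc 4 12 .stop))))))))
 (.conf [24,101] (.conf [128,154] (.conf [128,154] (.conf [128,155] (.conf [128,147] (.conf [24,101] (.conf [128,168] (.conf [128,150] (.conf [104,128] (.conf [128,145] (.conf [128,150] (.conf [128,155] (.node [22,128,147,113] 1 8 (.far [1,4096,1,256] 17 .stop)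
 (.lc 0 3 (.node [101,128,147,104] 6 8 (.far [4112,256,256,0,16,1,257,256] 4097 .stop)
 (.node [128,147,122] 10 8 (.far [1,4096,1,256] 17 (.lc 3 1 (.node [22,161] 10 1 (.far [16,4112,256,256,0,16,1,257,256] 4097 (.lc 1 5 (.lc 1 5 (.lc 3 11 (.lc 2 5 .stop)))))
 (.lc 3 1 (.lc 3 11 (.lc 4 6 (.lc 4 11 .stop)))))))
 (.lc 0 1 (.lc 0 6 (.lc 0 10 (.conf [24,101] (.conf [26,101] (.conf [128,156] (.lc 0 6 (.lc 0 11 (.lc 0 6 (.lc 0 10 (.lc 0 10 (.lc 0 11 (.lc 0 6 (.lc 0 1 (.lc 0 6 (.lc 0 11 (.conf [24,101] (.lc 0 3 (.conf [147,186,123] (.lc 0 10 (.lc 0 6 (.lc 0 12 .stop)))))))))))))))))))))))))))))))))))))))))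
 (.lc 0 6 (.lc 0 10 (.lc 0 10 (.lc 2 8 (.lc 0 11 .stop))))))
 (.conf [32,130] (.conf [32,130] (.lc 4 2 (.lc 4 2 (.lc 4 2 (.lc 4 2 (.lc 4 2 (.lc 4 2 (.lc 4 2 (.lc 4 2 (.lc 4 2 (.lc 4 2 (.lc 4 2 (.lc 5 2 (.lc 5 2 .stop)))))))))))))))))))))))))))))))))))))))))))))
 (.lc 2 2 (.lc 2 2 (.lc 2 2 (.lc 2 2 (.lc 2 2 (.lc 3 7 (.lc 2 2 (.lc 2 2 (.lc 3 0 (.lc 3 8 (.lc 3 3 (.node [87,112] 7 0 (.node [22,113] 5 7 (.node [82,113] 5 2 .stop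
 (.lc 2 3 (.node [88,113] 7 1 (.far [257,16,272,4112,0,0,16,16] 257 (.lc 0 6 (.lc 1 5 (.lc 0 9 (.lc 1 5 (.lc 2 5 .stop))))))
 (.lc 2 0 (.conf [83,104,135] (.lc 3 3 (.conf [113,135] (.lc 3 3 (.lc 0 1 (.node [98,113] 6 2 .stop
 (.node [104,113] 8 7 (.far [1,1,4112,272,0,1,256] 0 (.lc 3 9 .stop))
 (.conf [113,135] .stop))))))))))))
 (.far [4112,16,1,257,256] 0 (.node [22,120,129] 5 7 (.node [88,129] 5 8 (.far [4112,4112,0,4112,0,1,256] 0 (.lc 2 1 (.lc 2 1 (.far [4112,4112,0,4112,0,1,256] 0 (.lc 2 1 (.lc 3 1 .stop))))))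
 (.lc 3 3 (.lc 3 3 (.conf [89,152] (.lc 3 3 (.lc 4 3 .stop))))))
 (.conf [16,101] (.conf [120,129] (.conf [101,118] (.node [22,120,129] 5 7 (.conf [88,129] (.lc 3 3 (.lc 3 3 (.lc 1 1 (.lc 3 3 (.lc 4 3 .stop))))))
 (.conf [16,101] (.node [22,121,152,129] 5 7 (.conf [89,152] (.lc 3 3 (.lc 3 3 (.lc 1 8 (.lc 3 3 (.lc 4 3 .stop))))))
 .stop)))))))))
 (.lc 2 2 (.lc 2 2 (.lc 2 2 (.node [80,115] 5 0 (.node [22,81] 6 5 (.lc 2 1 .stop)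
 (.lc 0 1 (.node [22,88,129,88] 6 5 (.far [1,4112,4112,0,1,256] 0 (.lc 3 2 (.lc 3 9 (.lc 1 1 (.lc 3 9 (.lc 4 10 .stop))))))
 .stop)))
 (.lc 3 3 (.node [88,135,115] 5 8 (.node [80,135] 5 0 (.far [4112,4112,4112,0,1,256] 0 (.far [4112,4112,4112,0,1,256] 0 (.lc 0 1 .stop)))
 (.node [22,81,135] 5 1 (.lc 0 1 .stop)
 (.node [82,135] 5 2 (.far [4112,4112,4112,0,1,256] 0 .stop)
 (.lc 2 3 (.node [89,135] 5 9 (.far [4112,4112,4112,0,1,256] 0 (.lc 2 8 (.lc 2 8 (.lc 2 8 (.far [4112,4112,4112,0,1,256] 0 (.far [4112,4112,4112,0,1,256] 0 (.lc 2 8 (.lc 0 1 (.lc 2 8 (.lc 3 8 (.lc 3 8 (.lc 3 8 (.lc 3 8 .stop)))))))))))))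
 (.lc 2 7 (.lc 3 3 (.lc 2 7 (.lc 2 7 (.lc 2 7 (.lc 3 3 (.lc 2 7 (.lc 2 7 (.lc 3 3 (.lc 2 7 (.node [83,96,135,115] 6 0 (.far [4112,4112,4112,1,257,256] 0 .stop)
 (.lc 0 1 (.conf [83,105,152] (.node [22,81,135] 5 1 (.lc 0 1 .stop)
 (.lc 3 3 (.conf [89,144] (.node [80,135] 3 2 .stop
 (.node [80,135,152,135,115] 5 0 .stop
 (.lc 3 3 (.conf [90,169] (.lc 2 7 (.lc 3 3 (.lc 2 7 (.lc 3 3 (.lc 2 7 (.lc 2 7 (.lc 2 7 (.lc 2 7 (.lc 3 3 (.lc 2 7 (.lc 2 7 (.lc 0 1 (.lc 2 7 (.lc 2 7 (.node [83,96,135,115] 6 0 (.far [4112,4112,4112,1,257,256] 0 .stop)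
 (.node [83,98,135,115] 6 2 .stop
 (.node [83,105,135,115] 6 9 (.far [4112,4112,4112,1,257,256] 0 (.node [152] 9 8 (.node [135,146] 2 8 .stop
 (.node [135,154] 8 7 (.far [4112,1,0,1,272,0,1,256] 0 (.lc 2 3 (.lc 2 3 (.lc 2 3 (.lc 0 11 (.lc 2 3 (.lc 3 3 (.lc 3 3 .stop))))))))
 (.lc 2 5 (.lc 3 0 (.lc 3 0 (.conf [135,168] (.lc 1 3 (.lc 1 3 (.lc 2 5 (.lc 3 0 (.lc 3 0 (.lc 2 3 (.lc 4 0 (.lc 4 0 (.lc 3 5 (.lc 3 5 (.lc 2 3 (.lc 2 3 (.lc 2 3 (.lc 2 3 (.lc 3 3 (.lc 3 3 .stop))))))))))))))))))))))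
 (.node [152,121] 1 7 .stop
 (.node [152,169] 1 10 (.node [] 9 8 (.node [135,144] 0 8 (.lc 1 3 .stop)
 (.node [135,146] 2 8 .stop
 (.node [135,155] 10 9 (.far [16,257,0,256,1,0,16,4096] 0 (.lc 1 8 (.lc 1 8 (.lc 1 8 (.lc 3 0 (.lc 1 8 (.node [172,203] 10 12 (.node [203] 8 7 (.far [4112,0,0,1,0,0,1,272,0,1,256] 0 (.lc 2 3 (.lc 2 3 (.lc 0 13 (.lc 2 3 (.lc 3 3 .stop))))))
 (.lc 2 11 (.lc 2 11 (.lc 2 11 (.far [4112,1,4112,1,4097,256,0,1,256] 17 (.conf [203,220] (.lc 2 11 (.lc 2 11 (.lc 3 11 (.lc 3 11 .stop))))))))))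
 (.lc 2 8 .stop))))))))
 (.lc 2 5 (.lc 3 6 (.lc 3 6 (.node [135,144] 2 8 .stop
 (.conf [135,184] (.lc 1 3 (.lc 1 3 (.lc 1 3 (.lc 2 5 (.lc 3 6 (.lc 3 6 (.lc 2 3 (.lc 2 3 (.lc 4 6 (.lc 3 5 (.lc 2 3 (.lc 2 3 (.lc 2 3 (.lc 2 3 (.lc 3 3 .stop)))))))))))))))))))))))
 (.lc 2 9 (.lc 2 9 (.node [186] 9 8 (.node [135,146] 2 8 .stop
 (.node [135,155,186] 9 11 (.lc 0 1 .stop)
 (.node [135,156] 10 9 (.far [16,257,0,256,1,0,16,4096] 0 (.lc 3 2 (.lc 3 7 (.lc 3 13 (.lc 3 1 (.lc 1 8 (.lc 3 13 (.lc 4 14 .stop))))))))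
 (.lc 2 5 (.lc 3 6 (.lc 3 6 (.conf [135,200] (.lc 1 3 (.lc 1 3 (.lc 1 3 (.lc 2 5 (.lc 3 6 (.lc 3 6 (.lc 2 3 (.lc 4 6 (.lc 3 5 (.lc 2 3 (.lc 2 3 (.lc 2 3 (.lc 2 3 (.lc 3 3 .stop)))))))))))))))))))))
 (.lc 2 9 (.lc 3 9 .stop))))))
 (.far [4112,4112,4112,1,257,256] 4097 (.conf [152,169] (.node [152] 9 8 (.node [135,146] 2 8 .stop
 (.node [135,154] 8 7 (.far [4112,1,0,1,272,0,1,256] 0 (.lc 2 3 (.lc 2 3 (.lc 0 11 (.lc 2 3 (.lc 3 3 .stop))))))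
 (.lc 2 5 (.lc 3 0 (.lc 3 0 (.conf [135,168] (.lc 1 3 (.lc 1 3 (.lc 2 5 (.lc 3 0 (.lc 2 3 (.lc 4 0 (.lc 3 5 (.lc 2 3 (.lc 2 3 (.lc 2 3 (.lc 3 3 .stop)))))))))))))))))
 (.node [152,169] 9 8 (.node [135,144] 0 8 (.far [1,1,0,1,272,0,1,256] 0 (.lc 1 3 (.lc 1 3 (.lc 1 3 (.far [1,1,0,1,272,0,1,256] 17 (.lc 2 3 .stop))))))
 (.node [135,146] 2 8 .stop
 (.node [135,155] 10 9 (.far [16,257,257,258,0,16,4096] 0 (.lc 3 0 (.lc 3 2 (.lc 3 7 (.lc 3 12 (.lc 1 8 (.lc 1 8 (.lc 3 0 (.lc 3 12 (.lc 4 12 (.lc 4 0 (.lc 4 0 (.lc 4 13 .stop)))))))))))))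
 (.lc 2 5 (.lc 2 5 (.lc 3 6 (.lc 3 6 (.conf [155,176] (.node [135,144] 2 8 .stop
 (.conf [135,184] (.conf [135,184] (.lc 1 3 (.lc 1 3 (.lc 1 3 (.lc 2 5 (.lc 3 6 (.lc 3 6 (.lc 3 6 (.lc 2 3 (.lc 2 3 (.lc 2 3 (.lc 2 3 (.lc 4 6 (.lc 4 6 (.lc 4 6 (.lc 4 6 (.lc 3 5 (.lc 3 5 (.lc 2 3 (.lc 2 3 (.lc 2 3 (.lc 2 3 (.lc 2 3 (.lc 3 3 (.lc 3 3 (.lc 3 3 (.lc 3 3 .stop)))))))))))))))))))))))))))))))))))))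
 (.node [152,169] 9 8 (.node [135,146] 2 8 .stop
 (.node [135,155] 10 9 (.far [16,257,272,4096,0,16,4096] 4097 (.lc 3 2 (.lc 3 7 (.lc 3 12 (.lc 1 8 (.lc 3 12 (.lc 4 13 .stop)))))))
 (.lc 2 5 (.lc 3 6 (.conf [135,184] (.lc 1 3 (.lc 1 3 (.lc 2 5 (.lc 3 6 (.lc 3 6 (.lc 2 3 (.lc 4 6 (.lc 3 5 (.lc 2 3 (.lc 2 3 (.lc 2 3 (.lc 3 3 .stop)))))))))))))))))
 (.node [152,169,186] 1 11 (.node [186] 9 8 (.node [135,144] 0 8 (.lc 1 3 .stop)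
 (.node [135,146] 2 8 .stop
 (.node [135,156] 10 9 (.far [16,257,0,272,4096,0,16,4096] 0 (.lc 3 0 (.lc 3 2 (.lc 3 7 (.lc 3 13 (.lc 1 8 (.lc 3 13 (.lc 4 0 (.lc 4 14 .stop)))))))))
 (.lc 2 5 (.lc 3 6 (.node [135,144] 2 8 .stop
 (.conf [135,200] (.lc 1 3 (.lc 1 3 (.lc 1 3 (.lc 2 5 (.lc 3 6 (.lc 3 6 (.lc 3 6 (.lc 2 3 (.lc 2 3 (.lc 4 6 (.lc 4 6 (.lc 3 5 (.lc 2 3 (.lc 2 3 (.lc 2 3 (.lc 2 3 (.lc 3 3 (.lc 3 3 .stop)))))))))))))))))))))))))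
 (.lc 2 10 (.lc 2 10 (.conf [186,203] (.lc 2 10 (.lc 3 10 .stop))))))
 .stop))))))))))
 (.lc 3 7 (.lc 4 3 (.lc 3 7 (.lc 4 3 (.lc 3 7 (.lc 3 7 (.lc 4 3 (.lc 3 7 (.lc 3 7 (.lc 3 7 (.lc 4 3 (.lc 3 7 (.node [83,105,135,144,115] 0 8 (.far [257,4096,0,0,1,257,1] 4096 (.lc 2 0 (.conf [135,168] (.lc 1 3 (.lc 2 3 .stop)))))
 (.node [83,96,135,115] 3 2 .stop
 (.conf [83,135,152] (.conf [83,135,152] (.lc 3 7 (.lc 3 7 (.lc 3 7 (.lc 3 7 (.lc 3 7 (.lc 3 7 (.lc 3 7 (.lc 3 7 (.lc 3 7 (.lc 3 7 (.lc 0 1 (.lc 3 7 (.lc 3 7 (.lc 3 7 (.lc 0 1 (.lc 3 7 (.lc 4 7 (.lc 4 7 (.lc 4 7 (.lc 4 7 (.lc 4 7 (.lc 4 7 .stop))))))))))))))))))))))))))))))))))))))))))))))))))))))))))))))))))))))))))))))))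
 (.lc 2 2 (.lc 2 2 (.lc 2 2 (.lc 2 2 (.lc 2 2 (.lc 2 2 (.lc 2 2 (.lc 2 2 (.lc 3 7 (.lc 2 2 (.lc 2 2 (.lc 3 0 (.lc 3 8 (.lc 3 2 (.lc 3 2 (.lc 3 2 (.lc 3 2 (.lc 3 2 (.lc 3 2 (.lc 3 2 (.lc 4 8 (.lc 3 2 (.lc 3 2 (.lc 4 8 (.lc 4 0 (.lc 4 9 (.lc 3 2 (.lc 3 2 (.lc 3 2 (.lc 3 2 (.lc 3 2 (.lc 3 2 (.lc 3 2 (.lc 3 2 (.lc 3 2 (.lc 3 2 (.lc 3 2 (.lc 3 2 (.lc 4 2 (.lc 4 2 (.lc 4 2 (.lc 4 2 (.lc 4 2 .stop)))))))))))))))))))))))))))))))))))))))))))))))))))))))))))))))))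
 (.lc 0 0 (.lc 2 5 (.lc 0 0 (.node [118] 5 3 (.node [80] 5 0 (.node [23,118] 5 1 .stop
 (.lc 2 0 (.node [112,118] 7 0 (.far [257,1,257,16,4112,4096] 0 .stop)
 (.node [88] 6 5 (.node [104] 0 3 (.far [1,1,4112,4096,4112,4096,0,256] 0 (.node [50] 3 2 (.far [4112,4096,1,4096,0,4112,4096,0,256] 0 (.far [16,0,257,0,0,4112,4096,0,256] 0 (.conf [32,146] (.conf [32,114] .stop))))
 (.far [4112,0,1,256] 0 .stop)))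
 (.lc 3 2 (.lc 3 9 (.lc 3 4 (.far [16,257,257,0,16,4096] 0 (.lc 3 9 (.lc 4 10 .stop)))))))
 (.far [1,257,16,4112,4096] 0 (.conf [23,129] (.lc 0 4 (.conf [80,104,128] (.lc 1 0 (.lc 3 0 (.node [89,152,89,128,101,118] 6 5 (.far [1,4112,4112,0,1,256] 0 (.lc 3 2 (.lc 3 10 (.lc 3 4 (.lc 1 8 (.lc 3 10 (.lc 4 11 .stop)))))))
 (.lc 1 0 (.lc 0 8 (.lc 2 0 (.lc 0 9 .stop)))))))))))))))
 (.lc 1 2 (.lc 2 3 (.node [115,118] 7 6 (.lc 0 3 .stop)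
 (.asm [88] 1 (.lc 2 2 (.lc 2 2 (.lc 2 2 (.lc 2 2 (.lc 2 2 (.lc 2 2 (.lc 2 2 (.lc 3 7 (.lc 3 8 (.lc 2 2 (.lc 2 2 (.lc 2 2 (.lc 3 0 (.lc 3 7 (.lc 3 9 (.lc 3 3 (.node [88,128] 8 0 (.node [23,129,118] 8 1 (.node [135,118] 5 8 (.far [16,257,272,4112,0,0,16,16] 257 (.lc 0 4 .stop))
 (.lc 1 6 (.lc 1 6 .stop)))
 (.lc 1 0 (.lc 1 0 (.node [118,135] 8 7 .stop
 (.conf [23,145] (.lc 2 0 .stop))))))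
 (.lc 2 2 (.lc 2 2 (.lc 2 2 (.node [80,131] 5 0 (.node [23,118] 5 1 .stop
 (.lc 1 0 .stop))
 (.lc 3 3 (.node [89,152,131] 5 9 (.node [80,152] 5 0 (.far [4112,4112,4112,0,1,256] 0 (.lc 0 10 .stop))
 (.node [82,152] 5 2 (.lc 0 0 .stop)
 (.lc 2 3 (.node [87,118,121,152,131] 5 7 (.lc 0 4 .stop)
 (.node [90,152] 5 10 (.far [4112,4112,4112,0,1,256] 0 (.lc 0 0 (.lc 0 2 (.lc 0 11 (.lc 0 0 (.lc 0 11 (.lc 2 9 (.lc 0 4 (.lc 2 9 (.lc 0 11 (.lc 0 0 (.lc 0 0 (.lc 0 12 .stop)))))))))))))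
 (.lc 3 3 (.lc 2 8 (.lc 2 8 (.lc 2 8 (.lc 3 3 (.lc 2 8 (.lc 2 8 (.lc 2 8 (.lc 2 8 (.lc 3 3 (.lc 2 8 (.node [83,96,152,131] 6 0 .stop
 (.lc 0 4 (.conf [83,106,169] (.lc 3 3 (.conf [90,160] (.node [80,152] 3 2 .stop
 (.node [80,152,169,152,131] 5 0 .stop
 (.lc 3 3 (.conf [91,186] (.lc 2 8 (.lc 3 3 (.lc 2 8 (.lc 2 8 (.lc 2 8 (.lc 3 3 (.lc 2 8 (.lc 2 8 (.lc 3 3 (.lc 2 8 (.lc 2 8 (.lc 2 8 (.lc 2 8 (.lc 0 4 (.lc 2 8 (.lc 0 0 (.lc 0 2 (.lc 0 10 (.lc 1 0 (.lc 4 3 (.lc 3 8 (.lc 4 3 (.lc 3 8 (.lc 4 3 (.lc 3 8 (.lc 3 8 (.lc 3 8 (.lc 4 3 (.lc 3 8 (.lc 0 10 (.lc 0 0 (.lc 0 0 (.lc 0 11 (.lc 0 10 (.lc 0 0 (.lc 0 10 (.lc 0 0 (.lc 0 11 (.lc 0 10 (.lc 0 0 (.lc 0 0 (.lc 0 2 (.lc 0 11 (.lc 0 4 (.lc 3 8 (.lc 3 8 (.lc 3 8 (.lc 0 4 (.lc 3 8 (.lc 0 11 (.lc 0 10 (.lc 0 11 (.lc 0 0 (.lc 0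 0 (.lc 0 12 .stop))))))))))))))))))))))))))))))))))))))))))))))))))))))))))))))))))))))))))))))))
 (.lc 2 2 (.lc 2 2 (.lc 2 2 (.lc 2 2 (.lc 2 2 (.lc 2 2 (.lc 2 2 (.lc 2 2 (.lc 2 2 (.lc 2 2 (.lc 2 2 (.lc 2 2 (.lc 2 2 (.lc 2 2 (.lc 2 2 (.lc 3 8 (.lc 2 2 (.lc 2 2 (.lc 3 0 (.lc 3 8 (.lc 3 0 (.lc 3 9 (.lc 3 2 (.lc 3 2 (.lc 3 2 (.lc 3 2 (.lc 3 2 (.lc 3 2 (.lc 3 2 (.lc 4 9 (.lc 3 2 (.lc 3 2 (.lc 4 9 (.lc 4 0 (.lc 4 10 (.lc 3 2 (.lc 3 2 (.lc 3 2 (.lc 3 2 (.lc 3 2 (.lc 3 2 (.lc 3 2 (.lc 3 2 (.lc 3 2 (.lc 3 2 (.lc 3 2 (.lc 3 2 (.lc 3 2 (.lc 3 2 (.lc 3 2 (.lc 3 2 (.lc 3 2 (.lc 3 2 (.lc 3 2 (.lc 3 2 (.lc 3 2 (.lc 4 2 (.lc 4 2 (.lc 4 2 (.lc 4 2 (.lc 4 2 .stop)))))))))))))))))))))))))))))))))))))))))))))))))))))))))))))))))))))))))))))))))))))))))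
 (.lc 0 0 (.lc 2 5 (.lc 0 0 (.lc 3 5 .stop)))))))))

theorem t26 : kNode2 awTt FTt 4 6 (check tyTt awTt triet FTt [s27, s28] c26) (fun _ _ _ => true) 0 s26 Pl.nil s26 =
    true := by
  decide +kernel

end Chk
end Pool.Agent.Lib.MP_ba95e8_co
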