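import Pool.Agent.Lib.MP_ba95e8_co.ChkTab
import Pool.Agent.Lib.MP_ba95e8_co.ChkStates

/-!
Deltahedral domes: part 27 of the case analysis.
-/

namespace Pool.Agent.Lib.MP_ba95e8_co
namespace Chk

/-- certificate number 27 -/
def c27 : Cert := (.node [87,96] 0 5 (.node [] 6 0 (.node [96,80] 7 8 (.lc 1 2 (.node [121] 0 7 .stop
 (.conf [130,152,169] (.lc 2 2 (.node [122,169,122,130,152] 7 10 .stop
 (.node [130,152,122] 9 8 (.node [146] 7 10 .stop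
 (.lc 3 11 .stop))
 (.conf [130,186,123] .stop)))))))
 (.node [103,120] 6 7 (.far [16,4096,4096,0,257,0,4096] 0 .stop)
 (.far [16,257,4096] 0 .stop)))
 (.far [256,0,0,0,257,0,0,1,1] 4096 (.far [16,16,0,0,257,0,16,4096] 0 .stop)))
 (.lc 2 1 (.lc 1 3 (.node [87,104,130] 8 5 (.lc 0 3 .stop)
 (.node [87,105] 5 7 (.node [] 6 9 (.node [96] 6 0 (.node [] 9 7 (.node [120] 7 8 .stop
 (.node [152] 9 8 (.node [130] 0 8 (.far [257,1,257,0,0,1,0,0,0,257,0,0,1,1] 4096 .stop)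
 (.conf [130,144,115] (.far [4112,4112,0,1,256,256] 17 (.conf [130,144,115] .stop))))
 (.node [120,154] 7 8 (.node [] 9 10 (.node [] 10 8 (.node [162] 10 2 (.far [4096,0,1,0,257,0,0,1,0,0,0,257,0,0,1,1] 4096 .stop)
 (.node [130,171] 0 10 .stop
 (.conf [130,171,178] (.far [257,0,4096,1,0,0,1,0,0,0,257,0,0,1,1] 4096 (.node [130,184,203,130,172] 10 12 .stop
 (.far [257,16,4096,4096] 0 (.far [1,4096,0,0,16,4096] 256 .stop)))))))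
 (.far [1,0,257,0,0,1,0,0,0,257,0,0,1,1] 4096 (.far [257,0,257,0,16,4096,4096] 0 .stop)))
 (.conf [130,171,184] (.far [4112,1,0,0,1,0,4112,0,256] 0 (.far [257,16,0,0,16,0,257,0,4096] 0 (.conf [130,172,115] .stop)))))
 (.conf [115,130,168] (.conf [130,144,8] (.conf [144,167,10] (.far [16,0,0,16,0,257,0,4096] 0 (.node [120,167,186,120,155,130] 7 8 (.far [257,16,0,0,16,0,257,0,4096] 0 (.lc 2 2 (.lc 0 12 (.lc 2 2 (.lc 3 2 .stop)))))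
 (.far [257,0,16,4096,4096] 0 (.node [115,130,154] 9 10 (.far [257,257,0,16,4096,4096] 0 (.lc 2 8 (.lc 2 8 .stop)))
 (.node [115,130,144,8] 0 8 (.far [257,1,16,4096] 256 .stop)
 (.far [257,0,0,1,0,0,0,257,0,0,1,1] 4096 (.conf [115,155,186] (.lc 2 2 (.conf [144,168,10] .stop)))))))))))))))
 .stop)
 (.conf [25,97] (.lc 1 5 (.node [104,130,137] 6 8 .stop
 (.node [106] 6 10 (.node [26] 9 7 (.node [120,144] 0 7 (.node [] 9 0 .stop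
 (.far [16,16,0,0,16,0,257,0,4096] 0 (.lc 1 2 .stop)))
 (.node [152] 9 8 (.node [130] 10 8 (.node [162] 10 2 .stop
 (.far [16,16,4096,0,0,0,0,4096,4096] 17 .stop))
 (.conf [130,149,162] (.far [4112,4112,0,1,256,256] 0 (.far [4112,4112,0,1,256,256] 0 (.conf [130,149,160] .stop)))))
 (.node [120] 10 7 (.node [168] 10 8 (.node [130] 1 8 .stop
 (.far [4112,4112,256,1,256] 4097 .stop))
 (.conf [130,161,24] (.far [16,16,0,0,16,0,257,0,4096] 0 (.far [16,16,0,0,16,0,257,0,4096] 0 (.conf [130,161,115] .stop)))))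
 (.node [120,155] 10 9 (.node [] 7 8 (.node [] 10 11 (.node [160,184] 10 0 (.node [] 11 8 (.node [130] 0 8 (.far [257,1,0,0,4096,0,1,0,0,1,0,0,0,257,0,0,1,1] 4096 .stop)
 (.far [1,0,0,4096,0,1,0,0,1,0,0,0,257,0,0,1,1] 4096 (.far [4112,0,1,256,256,256] 17 (.far [257,0,16,4096,4096,4096] 0 .stop))))
 .stop)
 (.node [184] 1 11 .stop
 (.node [130,168] 10 8 .stop
 (.node [172,184] 11 8 (.node [130] 10 12 (.node [] 12 8 (.node [194] 1 12 .stop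
 (.far [16,0,16,0,16,0,0,0,0,0,0,4096,4096] 17 .stop))
 (.node [200,161] 12 8 (.far [4112,4096,256,16,0,4112,0,1,256] 17 .stop)
 (.far [4112,0,4112,0,4112,0,1,256] 4097 (.far [257,0,257,0,257,0,16,4096] 0 (.far [257,0,257,0,257,0,16,4096] 0 (.node [200,220,161] 12 8 .stop
 .stop))))))
 (.conf [130,183,194] (.far [4112,1,256,256,256] 0 (.far [4112,1,256,256,256] 0 (.conf [130,183,192] .stop)))))
 (.node [183,130,160] 0 8 (.far [257,1,0,256,257,0,0,1,0,0,0,257,0,0,1,1] 4096 .stop)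
 (.conf [183,200,130] (.node [161,184] 11 8 (.node [130] 8 2 (.far [4096,1,0,4096,0,1,0,0,1,0,0,0,257,0,0,1,1] 4096 .stop)
 (.far [1,0,4096,0,1,0,0,1,0,0,0,257,0,0,1,1] 4096 (.far [4112,4096,256,16,256,1,256] 17 (.far [257,256,4096,1,4096,16,4096] 0 .stop))))
 (.conf [161,184,203] (.far [4112,0,4112,0,1,256] 4097 (.node [172,184,192,172] 0 11 (.far [16,16,4096,4096,4096] 0 .stop)
 (.node [160,184,203,184] 10 0 (.far [4112,4112,0,4112,0,1,256] 0 .stop)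
 (.node [173,203,220,173,184] 11 8 (.far [257,16,4096,4096,4096] 0 (.lc 2 2 (.lc 0 0 (.lc 0 14 (.lc 3 2 .stop)))))
 (.node [130,183,162] 10 2 .stop
 (.node [161,183,130] 1 8 .stop
 (.node [161,184] 11 8 (.far [4112,1,256,256,256] 0 (.far [4097,4096,1,0,0,0,0,0,0,256,256] 256 (.far [4112,1,256,256,256] 17 (.far [4112,1,256,256,256] 0 (.far [1,0,4096,0,1,0,0,1,0,0,0,257,0,0,1,1] 4096 .stop)))))
 (.far [16,4112,4096,4096,0,0,0,0,4096,4096] 17 (.conf [161,184,203] (.far [4096,256,16,256,1,256] 4097 .stop))))))))))))))))))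
 (.conf [130,176,115] (.conf [130,188,200] (.far [4112,0,1,0,0,1,0,4112,0,256] 0 (.far [4112,0,1,0,0,1,0,4112,0,256] 0 (.far [257,0,16,0,0,16,0,257,0,4096] 0 (.far [257,0,16,0,0,16,0,257,0,4096] 0 (.conf [130,188,115] (.conf [130,176,115] (.conf [130,189,115] .stop))))))))))
 (.conf [160,183,149] (.conf [168,183,139] (.conf [172,183,203] (.far [16,257,0,16,4096,4096] 0 (.far [16,257,0,16,4096,4096] 0 (.far [1,4112,0,1,256,256] 0 (.far [1,4112,0,1,256,256] 0 (.conf [172,183,149] (.conf [160,183,149] (.conf [173,183,149] .stop)))))))))))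
 (.node [115,130,144] 9 0 .stop
 (.conf [115,130,168] (.conf [115,130,184] (.node [149,160,120] 0 7 .stop
 (.conf [130,149,168] (.conf [149,171,183] (.far [4112,0,1,256,256] 0 (.node [120,155,176,155,169] 0 7 .stop
 (.far [16,0,0,16,0,257,0,4096] 0 (.conf [130,115,149,83] (.far [16,0,0,16,0,257,0,4096] 0 (.node [120,144,183,120,130] 9 0 .stop
 (.far [4112,0,1,256,256] 0 (.node [120,183,203,120,156,130,169] 10 9 (.far [1,4112,0,1,256,256] 0 (.lc 3 0 (.lc 3 8 (.lc 3 13 (.lc 1 11 (.lc 1 11 (.lc 3 0 (.lc 3 13 (.lc 4 13 (.lc 4 0 (.lc 4 14 .stop)))))))))))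
 (.node [115,130,144] 9 0 (.far [257,257,0,16,4096,4096] 0 (.node [171,176,144] 0 8 (.far [257,0,1,0,0,1,0,0,0,257,0,0,1,1] 4096 .stop)
 (.lc 0 1 .stop)))
 (.far [257,0,16,4096,4096] 0 (.node [115,130,155] 9 11 (.far [257,257,0,16,4096,4096] 0 (.lc 2 8 (.lc 2 8 (.node [160,149] 10 0 (.node [] 11 8 (.node [178] 11 2 (.far [1,257,0,0,1,0,0,1,0,0,0,257,0,0,1,1] 4096 .stop)
 (.far [1,257,257,258,16,4128,8192,8192,256,256] 0 .stop))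
 .stop)
 (.node [172,203,149] 11 8 (.node [178] 10 12 (.node [203] 11 2 (.far [1,0,257,0,1,0,0,1,0,0,0,257,0,0,1,1] 4096 (.lc 3 2 (.conf [189,208] .stop)))
 (.lc 2 11 (.far [4112,16,4112,4128,1,258,512,512,4096,4096] 4097 (.lc 2 11 (.lc 2 11 (.lc 3 11 .stop))))))
 (.lc 3 0 (.far [16,0,16,0,0,16,0,1,4096,4096] 17 (.lc 3 0 (.lc 3 13 (.lc 4 13 .stop))))))
 (.lc 2 8 (.lc 2 8 (.lc 3 8 (.lc 3 8 (.lc 3 8 .stop))))))))))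
 (.node [115,130,149,168] 10 8 (.node [130,160] 0 8 (.far [1,1,257,0,0,0,0,256,256] 0 .stop)
 (.far [257,1,16,4096] 0 (.far [1,257,0,0,0,0,256,256] 0 (.node [130,171] 1 10 (.far [16,257,1,16,4096] 0 (.far [256,257,257,0,0,1,0,0,0,257,0,0,1,1] 16 (.far [16,257,1,16,4096] 0 (.far [16,257,1,16,4096] 0 (.node [] 11 8 (.far [1,0,1,257,0,0,0,0,256,256] 0 (.lc 3 0 (.far [1,0,1,257,0,0,0,0,256,256] 0 .stop)))
 (.far [16,257,1,16,4096,1,0,0,0,257,0,0,1,1] 16 .stop))))))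
 (.lc 2 2 (.lc 2 2 (.lc 3 1 (.lc 3 1 (.node [130,161] 8 2 (.far [4096,1,1,0,1,258,256,0,0,514,0,0,2,2] 4112 .stop)
 (.node [130,171,176,171] 0 8 (.far [256,0,0,0,0,0,0,1,4096,1,0,0,1,1] 4096 .stop)
 (.far [1,257,0,0,1,0,256,256,257,0,0,1,1] 4096 (.node [130,160,184,130] 10 0 (.node [] 11 8 (.node [178] 11 2 .stop
 (.lc 3 12 .stop))
 .stop)
 (.node [130,184,203,130,172] 10 12 (.node [203] 11 8 (.node [178] 1 12 (.node [203,178] 12 11 (.node [178] 11 2 (.far [4096,1,0,0,257,257,1,16,4096,1,0,0,0,257,0,0,1,1] 4096 .stop)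
 (.lc 2 2 (.conf [178,219] .stop)))
 (.conf [178,193] (.conf [203,220] .stop)))
 (.lc 3 0 (.far [16,257,256,4096,16,4096,0,0,4096,4096] 17 (.lc 3 0 (.lc 3 13 (.lc 4 13 .stop))))))
 (.lc 2 11 (.node [203] 11 8 (.far [1,4112,4096,256,1,256,0,0,256,256] 4097 (.lc 3 0 (.lc 3 13 .stop)))
 (.lc 2 11 (.lc 2 11 (.lc 3 11 .stop))))))
 (.lc 2 2 (.lc 3 1 (.lc 3 2 (.lc 4 1 .stop)))))))))))))))))
 (.node [149,160,120] 0 7 (.far [1,1,0,0,1,0,4112,0,256] 0 (.node [130,184,112] 10 0 (.node [] 11 8 (.node [178] 11 2 .stop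
 (.lc 3 12 .stop))
 .stop)
 (.lc 1 2 .stop)))
 (.far [1,0,0,1,0,4112,0,256] 0 (.node [149,171,120] 11 7 (.far [1,1,0,0,1,0,4112,0,256] 0 (.lc 3 0 (.lc 3 12 (.node [130,115] 0 8 (.far [257,1,1,0,1,258,256,4112,0,513,0,0,1,1] 4096 .stop)
 (.node [130,200,115] 10 11 (.node [188] 12 8 (.node [194] 1 11 (.node [188] 11 12 (.node [194] 12 2 (.far [4096,4096,1,0,1,0,257,0,0,1,0,0,0,257,0,0,1,1] 4096 .stop)
 (.lc 2 2 (.conf [194,220] .stop)))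
 (.lc 2 1 (.conf [188,219] .stop)))
 (.lc 3 0 (.far [16,4112,16,4128,1,256,32,0,258,4096,8192] 17 (.lc 3 0 (.lc 3 13 (.lc 4 13 .stop))))))
 (.lc 2 12 (.far [4112,0,4112,1,257,256,256] 4097 (.lc 2 12 (.lc 2 12 (.lc 3 12 .stop))))))
 (.lc 3 0 (.lc 3 12 (.lc 4 12 (.lc 4 0 (.lc 4 13 .stop))))))))))
 (.conf [115,149,160] (.conf [115,155,176] (.node [115,130,144,184] 9 0 .stop
 (.conf [115,149,171] (.conf [115,156,203] (.node [149,171,176,120] 0 7 .stop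
 (.conf [130,149,115] (.conf [130,149,115] (.conf [149,183,120] (.conf [149,183,120] (.far [4096,0,1,257,256,4112,0,256] 0 (.conf [115,130,184] (.node [115,130,149,160] 0 8 (.far [1,1,0,0,1,0,16,256,256] 0 .stop)
 (.conf [130,171,184] (.far [256,0,16,4112,4096,257,0,4096] 0 (.conf [149,171,184] (.node [115,130,149,171,176] 0 8 (.far [256,0,0,0,0,0,1,4096,1,0,0,1,1] 4096 .stop)
 (.node [115,130,149,160,184] 10 0 (.node [] 11 8 (.node [178] 11 2 .stop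
 (.lc 3 12 .stop))
 .stop)
 (.node [115,130,149,172,184] 10 12 (.node [203] 11 8 (.node [178] 1 12 (.node [203] 12 11 (.node [178] 11 2 (.far [1,257,16,257,256,1,16,4096,1,0,0,0,257,0,0,1,1] 4096 .stop)
 (.lc 2 2 (.conf [178,219] .stop)))
 (.lc 2 1 (.conf [203,220] .stop)))
 (.lc 3 0 (.far [16,257,256,16,4128,8224,8192,258,4096,8192] 17 (.lc 3 0 (.lc 3 13 (.lc 4 13 .stop))))))
 (.lc 2 11 (.node [203] 11 8 (.far [1,4112,4096,1,258,514,512,4128,256,512] 4097 (.lc 3 0 (.lc 3 13 .stop)))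
 (.lc 2 11 (.lc 2 11 (.lc 3 11 .stop))))))
 .stop))))))))))))))))))))))))))))))))))))))))))))
 (.node [169,97,151] 10 9 (.lc 1 5 (.node [130,137,168] 10 8 (.far [16,4112,0,16,4112,4096,1,4096,4096] 17 .stop)
 (.node [151,171] 9 7 (.node [120] 10 11 (.node [] 11 7 (.node [184] 11 8 (.node [8,130] 0 8 (.far [257,1,257,0,1,0,0,0,1,0,0,0,257,0,0,1,1] 4096 .stop)
 (.far [1,257,0,1,0,0,0,1,0,0,0,257,0,0,1,1] 4096 (.far [4112,4112,1,256,256] 17 (.far [257,257,16,4096,4096] 0 .stop))))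
 (.conf [8,176] (.far [16,0,16,0,0,0,16,0,257,0,4096] 0 .stop)))
 (.lc 2 7 (.lc 2 7 (.lc 2 7 (.far [4112,0,4112,4096,16,0,4112,0,0,0,1,256] 0 (.lc 2 7 (.lc 3 7 (.lc 3 7 .stop))))))))
 (.conf [115,130,184] (.far [4112,1,0,1,256,256] 0 (.far [4112,1,0,1,256,256] 0 (.far [257,16,0,16,4096,4096] 0 (.conf [115,149,188] .stop))))))
 (.lc 2 5 (.lc 2 5 (.conf [160,185,151] (.lc 2 5 (.conf [172,203] (.lc 2 5 (.lc 2 5 (.far [257,0,1,257,256,0,0,257,0,0,1,1] 4096 (.lc 2 5 (.node [130,137,160,151] 8 9 (.far [1,1,0,1,256,256] 0 .stop)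
 (.node [160,151] 11 9 (.far [1,1,0,1,256,256] 0 (.lc 3 8 (.node [115,130,149] 11 8 (.node [178] 11 2 (.far [1,257,256,0,0,0,1,0,0,0,257,0,0,1,1] 4096 .stop)
 (.far [1,256,0,0,0,1,0,16,256,256] 0 .stop))
 (.lc 3 8 (.lc 3 12 (.lc 4 12 .stop))))))
 (.lc 3 5 (.lc 3 5 (.conf [137,151,160] (.conf [160,185,151] (.lc 3 5 (.lc 3 5 (.lc 3 5 (.lc 3 5 (.lc 4 5 .stop)))))))))))))))))))))))
 (.node [130,138,169,97,138,151] 1 8 .stop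
 (.node [27,169,186,97,151] 1 11 (.node [] 10 9 (.node [151,160] 10 0 (.lc 0 0 .stop)
 (.lc 1 5 (.node [130,137,168] 10 8 .stop
 (.node [151,172] 11 10 (.node [188] 9 7 (.node [120] 12 7 (.node [200] 11 12 (.node [130,184] 11 8 (.far [4112,4096,4112,256,0,16,1,1,256] 17 .stop)
 (.lc 3 0 (.lc 4 0 .stop)))
 (.lc 3 7 (.far [16,16,0,0,0,0,0,16,0,257,0,4096] 0 (.lc 0 0 .stop))))
 (.conf [115,130,200] (.far [4112,0,1,0,0,1,256,256] 0 (.far [4112,0,1,0,0,1,256,256] 0 (.far [257,0,16,0,0,16,4096,4096] 0 (.conf [115,149,205] .stop))))))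
 (.lc 1 9 (.lc 1 9 (.lc 3 0 (.lc 1 9 (.far [1,4112,0,4096,16,0,4112,0,0,0,1,256] 0 (.lc 2 9 .stop)))))))
 (.lc 2 5 (.lc 2 5 (.lc 0 0 (.conf [188,201] (.lc 2 5 (.conf [173,220] (.lc 2 5 (.lc 2 5 (.lc 2 5 (.conf [166,184] (.conf [166,188] (.lc 3 5 (.lc 3 5 (.conf [166,189] (.lc 3 5 (.lc 3 5 (.lc 3 5 (.lc 3 5 (.lc 4 5 .stop)))))))))))))))))))))))
 (.lc 2 10 (.lc 2 10 (.node [203] 10 9 (.lc 1 5 (.node [130,137,168] 10 8 .stop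
 (.node [172,201,203] 10 12 (.lc 0 1 .stop)
 (.node [151,173] 11 10 (.node [189] 9 7 (.node [120] 13 7 (.node [216] 11 13 (.node [130,184,203] 11 8 .stop
 (.lc 3 1 .stop))
 (.lc 3 7 (.far [16,16,0,0,0,0,0,16,0,257,0,4096] 0 (.lc 0 1 .stop))))
 (.conf [115,130,216] (.far [4112,0,1,0,0,1,256,256] 0 (.far [4112,0,1,0,0,1,256,256] 0 (.far [257,0,16,0,0,16,4096,4096] 0 (.conf [115,149,222] .stop))))))
 (.lc 3 8 (.lc 3 14 (.lc 3 1 (.lc 1 9 (.lc 3 14 (.lc 4 15 .stop)))))))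
 (.lc 2 5 (.lc 2 5 (.lc 0 1 (.conf [189,217] (.lc 2 5 (.conf [174,237] (.lc 2 5 (.lc 2 5 (.lc 2 5 (.lc 0 8 (.lc 0 13 (.lc 3 5 (.lc 3 5 (.lc 0 14 (.lc 3 5 (.lc 3 5 (.lc 3 5 (.lc 3 5 (.lc 4 5 .stop)))))))))))))))))))))))
 (.lc 2 10 (.lc 3 10 .stop))))))
 (.far [4112,4112,0,4112,0,0,0,1,256] 4097 (.far [4112,4112,0,4112,0,0,0,1,256] 0 (.far [257,257,0,257,0,0,0,16,4096] 0 (.far [257,257,0,257,0,0,0,16,4096] 0 (.node [169,186,97,151] 10 9 (.lc 1 5 (.node [130,137,168,186] 10 8 .stop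
 (.node [151,172,186] 11 10 (.far [16,257,256,1,0,257,0,0,0,16,4096] 0 (.lc 3 8 (.lc 3 13 (.lc 1 9 (.lc 3 13 (.lc 4 14 .stop))))))
 (.lc 2 5 (.lc 2 5 (.conf [166,188] (.lc 2 5 (.conf [173,220] (.lc 2 5 (.lc 2 5 (.lc 2 5 (.node [130,166,184,137] 8 9 (.far [1,1,0,1,256,256] 0 .stop)
 (.node [166,188,151] 12 9 (.far [1,1,0,1,256,256] 0 (.lc 3 8 (.far [16,16,256,16,8208,4097,257,0,4096,16,4096] 0 (.lc 3 8 (.lc 3 13 (.lc 4 13 .stop))))))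
 (.lc 3 5 (.lc 3 5 (.conf [166,201,151] (.lc 3 5 (.lc 3 5 (.lc 3 5 (.lc 3 5 (.lc 4 5 .stop)))))))))))))))))))))
 (.node [28,169,186,203,97,186,151,169] 1 12 (.node [203] 10 9 (.node [151,160] 10 0 .stop
 (.lc 1 5 (.node [130,137,168] 10 8 .stop
 (.node [151,173] 11 10 (.far [16,257,0,256,1,0,257,0,0,0,16,4096] 0 (.lc 3 0 (.lc 3 8 (.lc 3 14 (.lc 1 9 (.lc 3 14 (.lc 4 15 .stop)))))))
 (.lc 2 5 (.lc 2 5 (.lc 3 6 (.lc 2 5 (.conf [174,237] (.lc 2 5 (.lc 2 5 (.lc 3 6 (.lc 2 5 (.lc 3 6 (.lc 3 6 (.lc 3 5 (.lc 3 5 (.lc 4 6 (.lc 3 5 (.lc 3 5 (.lc 3 5 (.lc 3 5 (.lc 4 5 .stop)))))))))))))))))))))))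
 (.lc 2 11 (.lc 2 11 (.conf [203,220] (.lc 2 11 (.lc 3 11 .stop))))))
 .stop))))))))))
 (.conf [16,97] (.conf [151,160,106] (.far [1,257,256,0,0,257,0,0,1,1] 4096 (.node [130,151,96,137] 0 8 (.far [257,1,257,256,0,0,257,0,0,1,1] 4096 .stop)
 (.conf [24,97] (.conf [151,168,106] (.node [151,169,96] 6 0 (.node [] 9 7 (.node [120,167] 10 7 (.node [] 0 10 (.far [257,0,0,0,1,257,256,0,0,257,0,0,1,1] 4096 (.lc 2 0 (.far [16,257,1,0,16,4096,4096] 0 (.lc 2 0 .stop))))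
 (.lc 3 11 (.far [16,16,0,0,16,0,257,0,4096] 0 (.lc 3 11 (.lc 4 12 .stop)))))
 (.lc 2 3 (.far [16,0,0,16,0,257,0,4096] 0 (.far [4112,4112,4096,256,16,0,0,0,1,256] 0 (.lc 2 3 (.lc 3 3 .stop))))))
 .stop)
 (.conf [26,97] (.conf [151,169,186] (.node [97,151] 0 9 (.far [257,4096,0,0,1,4112,1,4096,0,1,257] 4096 (.node [144,120] 0 7 .stop
 (.node [130,137,151] 8 9 (.node [] 8 2 (.far [4096,16,256,0,1,0,0,0,257,0,0,1,1] 4096 .stop)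
 .stop)
 (.node [151] 9 7 (.node [120] 7 8 (.node [] 10 8 (.node [162] 10 2 (.far [1,257,4096,1,0,0,1,0,0,0,257,0,0,1,1] 4096 .stop)
 (.node [130,171] 8 2 (.node [] 10 11 .stop
 (.far [4112,1,1,0,0,0,0,0,256,256] 0 .stop))
 (.conf [130,171,178] (.far [257,4096,1,0,0,1,0,0,0,257,0,0,1,1] 4096 (.node [130,184,203,130,172] 10 12 .stop
 (.far [257,4096,4096,4096] 0 (.far [257,4096,1,0,4112,4096,4096] 256 .stop)))))))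
 (.conf [130,171,184] (.far [4112,1,0,0,1,0,4112,0,256] 0 (.far [257,16,0,0,16,0,257,0,4096] 0 (.conf [130,172,115] .stop)))))
 (.conf [115,130,168] (.far [16,0,0,16,0,257,0,4096] 0 (.far [4112,1,4096,256,16,0,0,0,1,256] 0 (.far [257,16,256,4096,1,0,0,0,16,4096] 0 (.conf [115,144,171] .stop))))))
 (.lc 2 0 (.lc 2 0 (.node [137,151] 8 9 (.lc 0 3 .stop)
 (.node [151,169,42,151,130] 9 7 (.far [257,256,0,1,0,0,0,257,0,0,1,1] 4096 (.lc 2 3 (.lc 0 8 (.lc 0 11 (.lc 2 3 (.lc 3 3 .stop))))))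
 (.far [16,256,4096,1,0,0,0,16,4096] 0 (.far [4112,256,4112,1,1,4096,4096,16,4096] 17 (.node [151,169,186,151] 9 7 (.far [257,16,256,4096,1,0,0,0,16,4096] 0 (.lc 2 3 (.lc 0 8 (.lc 0 12 (.lc 2 3 (.lc 3 3 .stop))))))
 (.lc 2 0 (.lc 2 0 (.node [151] 8 9 (.far [257,4096,0,0,0,4096,4096] 17 .stop)
 (.lc 3 0 (.far [4112,256,4112,1,1,4096,4096,16,4096] 0 (.lc 1 2 .stop)))))))))))))))))
 (.conf [26,97] (.conf [16,97] (.node [106,160,106,151] 6 10 (.far [4112,4112,0,4112,0,0,0,1,256] 0 (.lc 2 0 (.lc 2 0 (.conf [27,160,186] (.lc 2 0 (.lc 3 0 .stop))))))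
 (.lc 2 5 (.node [96,169,151] 6 0 (.far [4112,4112,0,4112,0,0,0,1,256] 0 .stop)
 (.conf [26,97] (.node [107,186,107,151,169] 6 11 (.far [4112,4112,0,4112,0,0,0,1,256] 0 (.lc 2 10 (.lc 2 10 (.lc 2 10 (.far [4112,4112,0,4112,0,0,0,1,256] 4097 (.conf [28,186,203] (.lc 2 10 (.lc 2 10 (.lc 3 10 (.lc 3 10 .stop))))))))))
 (.conf [97,151] (.node [128,130,151,104] 6 8 .stop
 (.node [151,106] 0 9 .stop
 (.node [137,151,98] 8 9 (.lc 0 3 .stop)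
 (.node [151,169,96] 6 0 (.far [257,257,0,257,0,0,0,16,4096] 0 .stop)
 (.conf [26,97] (.node [130,151,169,104] 6 8 .stop
 (.node [151,169,107] 9 7 (.node [120,167] 10 7 (.node [168] 10 8 (.node [130,184] 6 11 (.far [257,0,0,0,257,0,257,0,0,0,16,4096] 0 (.lc 2 8 (.lc 2 8 (.node [16] 11 8 (.node [178] 11 2 (.far [1,257,0,1,257,1,0,1,0,0,0,257,0,0,1,1] 4096 .stop)
 (.lc 3 0 (.far [16,0,16,4096,0,0,0,0,4096,4096] 17 (.lc 3 0 .stop))))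
 (.node [28,203] 11 8 (.node [178,203] 11 2 (.lc 0 0 .stop)
 (.far [16,0,16,4096,0,0,0,0,4096,4096] 17 (.lc 3 6 (.lc 4 6 .stop))))
 (.lc 2 8 (.lc 2 8 (.lc 3 8 (.lc 3 8 .stop)))))))))
 (.lc 2 2 (.far [4112,4112,16,1,256,256] 0 (.far [4112,4112,16,1,256,256] 0 (.lc 3 2 .stop)))))
 (.lc 3 7 (.far [16,16,0,16,0,257,0,4096] 0 (.conf [172,200] (.lc 3 7 (.lc 4 7 (.lc 4 7 .stop)))))))
 (.lc 2 3 (.lc 0 0 (.lc 0 8 (.lc 0 12 (.lc 2 3 (.lc 3 3 (.lc 3 3 .stop))))))))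
 (.far [257,257,256,0,0,257,0,0,1,1] 16 (.conf [24,97] (.conf [26,97] (.conf [16,97] (.lc 2 5 (.conf [24,97] (.conf [26,97] (.conf [151,186,107] (.far [16,4112,4096,1,4096,4096] 17 (.conf [16,97] (.conf [151,176,107] (.node [151,169,186,96] 6 0 (.node [] 9 7 (.far [257,257,256,4096,1,0,0,0,16,4096] 0 (.lc 2 3 (.lc 0 8 (.lc 0 12 (.lc 2 3 (.lc 3 3 .stop))))))
 .stop)
 (.conf [27,97] (.conf [151,203,108] (.lc 3 5 (.conf [16,97] (.conf [27,97] (.conf [16,97] (.conf [26,97] (.conf [16,97] (.conf [27,97] (.conf [16,97] (.conf [24,97] (.conf [27,97] (.far [257,257,256,0,0,257,0,0,1,1] 16 (.conf [27,97] (.conf [16,97] (.conf [28,97] .stop))))))))))))))))))))))))))))))))))))))))))))))))))))))))))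
 (.conf [120,144,83] (.conf [120,145,83] (.conf [120,154,167] (.far [4112,1,0,0,4112,0,1,256] 0 (.lc 2 3 (.far [4112,1,0,0,4112,0,1,256] 0 (.far [257,16,0,0,257,0,16,4096] 0 (.far [257,16,0,0,257,0,16,4096] 0 (.conf [120,145,83] (.conf [120,154,83] (.conf [120,144,83] (.conf [120,155,83] .stop)))))))))))))
 (.node [83,96,120] 6 0 (.node [96] 0 7 (.far [257,0,1,0,0,0,0,1,257,1] 4096 (.lc 2 0 .stop))
 .stop)
 (.lc 3 1 (.lc 1 3 (.conf [83,105,151] (.node [104,128,130,87] 8 0 (.far [4112,4112,257,0,1,0,16,4096] 0 .stop)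
 (.node [105,144,87] 0 5 .stop
 (.lc 2 3 (.lc 2 3 (.conf [98,133,32] (.conf [96,149,87] (.conf [104,137,149] (.conf [106,149,169] (.lc 3 1 (.node [87,105,144,105] 0 5 .stop
 (.lc 2 3 (.lc 2 3 (.lc 2 3 (.node [87,149,87,96,120] 6 0 (.lc 2 0 .stop)
 (.lc 3 1 (.node [87,149,169,87,106,120] 5 7 (.far [257,16,0,0,257,0,16,4096] 0 (.lc 2 8 (.lc 2 8 (.lc 2 8 (.lc 0 0 (.lc 2 3 (.lc 0 11 (.lc 2 8 (.lc 2 8 (.lc 3 8 (.lc 3 8 (.lc 3 8 (.lc 3 8 .stop)))))))))))))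
 (.node [83,96,120,130] 0 7 (.node [] 6 0 (.far [257,0,257,0,0,0,16,4096] 0 (.far [1,4112,256] 0 .stop))
 (.lc 1 2 (.lc 1 2 .stop)))
 (.lc 3 1 (.node [83,105,120,130] 7 8 (.node [152] 6 9 (.node [96] 6 0 (.far [257,257,0,257,0,0,0,16,4096] 0 .stop)
 (.conf [25,97] (.lc 1 6 (.node [106] 6 10 (.far [257,257,0,257,0,0,0,16,4096] 0 (.far [1,257,0,257,0,0,257,0,0,1,1] 16 (.node [27,169,186] 1 11 (.far [257,1,257,0,257,0,0,257,0,0,1,1] 16 (.lc 2 10 (.node [203] 9 8 (.lc 1 2 (.lc 2 6 (.node [130,155,186,169,203] 9 11 .stop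
 (.node [200,203] 9 12 .stop
 (.node [130,157] 10 9 (.far [1,4112,0,0,1,256,256] 0 (.conf [189,216] (.conf [174,237] (.lc 0 13 (.lc 0 14 .stop)))))
 (.lc 2 2 (.lc 3 6 (.lc 3 6 (.lc 0 10 (.node [130,216,237,130,158,169] 10 9 (.far [1,4112,0,0,1,256,256] 0 (.lc 3 6 (.lc 1 13 (.lc 3 6 (.lc 4 6 .stop)))))
 (.lc 2 2 (.lc 2 2 (.lc 3 6 (.lc 3 2 (.lc 4 6 (.lc 3 2 .stop))))))))))))))))
 (.lc 2 10 (.lc 3 10 .stop)))))
 (.node [16] 9 8 (.lc 1 2 (.far [4112,0,1,256,256] 0 (.node [130,155] 10 9 (.far [1,4112,0,1,256,256] 0 (.conf [172,184,203] (.node [184,203,150,172] 11 8 (.node [178,203] 11 2 .stop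
 (.far [1,0,1,0,0,1,0,256,256] 0 .stop))
 (.far [1,4112,0,1,256,256] 0 (.conf [173,184,150] .stop)))))
 (.lc 2 2 (.lc 2 2 (.lc 3 6 (.far [4112,0,1,256,256] 0 (.node [130,184,203,130,156,169] 10 9 (.far [1,4112,0,1,256,256] 0 (.lc 3 13 (.lc 1 11 (.lc 3 13 (.lc 4 14 .stop)))))
 (.lc 2 2 (.lc 2 2 (.lc 2 2 (.lc 3 6 (.lc 4 6 (.lc 3 2 (.lc 3 2 .stop)))))))))))))))
 (.node [27,186,169] 1 11 (.node [186] 9 8 (.node [130,144] 0 8 (.far [257,1,0,0,0,1,0,257,0,1,0,0,1,1] 4096 .stop)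
 (.lc 1 2 (.far [4112,0,0,1,256,256] 0 (.node [130,156] 10 9 (.far [1,4112,0,0,1,256,256] 0 (.lc 3 0 (.lc 3 13 (.node [200,220,173,186] 12 8 (.node [194,220] 12 2 (.lc 0 0 .stop)
 (.far [16,0,16,0,0,0,16,0,4096,4096] 17 (.far [1,0,1,0,0,0,1,0,256,256] 0 (.far [4096,1,4112,0,0,1,256,256,16,256,256] 0 .stop))))
 (.lc 3 13 (.lc 4 14 .stop))))))
 (.lc 2 2 (.lc 2 2 (.lc 2 2 (.lc 3 6 (.lc 2 2 (.lc 0 12 (.node [130,200,220,130,157,169,186] 10 9 (.far [1,4112,0,0,1,256,256] 0 (.lc 3 0 (.lc 3 14 (.lc 1 12 (.lc 3 14 (.lc 4 15 .stop))))))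
 (.lc 2 2 (.lc 2 2 (.lc 3 6 (.lc 2 2 (.lc 3 6 (.lc 3 2 (.lc 3 2 (.lc 3 2 (.lc 4 6 (.lc 3 2 (.lc 3 2 (.lc 3 2 (.lc 3 2 (.lc 4 2 .stop)))))))))))))))))))))))))
 (.lc 2 10 (.node [186,203,186,169] 9 8 (.lc 1 2 (.far [4112,0,0,1,256,256] 0 (.lc 0 11 (.node [130,157] 10 9 (.far [1,4112,0,0,1,256,256] 0 (.lc 3 12 (.lc 3 14 (.lc 1 8 (.lc 3 14 (.lc 4 15 .stop))))))
 (.lc 2 2 (.lc 2 2 (.lc 3 6 (.lc 0 13 (.conf [158,237] (.lc 2 2 (.lc 2 2 (.lc 2 2 (.lc 3 6 (.lc 3 6 (.lc 1 1 (.lc 4 6 (.lc 3 2 (.lc 3 2 (.lc 2 1 .stop)))))))))))))))))))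
 (.lc 2 10 (.lc 3 10 .stop)))))
 (.far [257,257,0,257,0,0,0,16,4096] 0 (.far [257,257,0,257,0,0,0,16,4096] 0 (.far [257,257,257,256,256,257,257,256,0,1,4097] 16 (.node [28,169,186,203,186,169] 1 12 (.far [257,257,257,257,256,256,257,257,256,0,1,4097] 16 (.lc 2 11 (.conf [203,220] (.lc 2 11 (.lc 3 11 .stop)))))
 .stop)))))))))
 (.lc 2 8 (.lc 2 8 (.lc 2 8 (.lc 2 8 (.lc 2 8 (.lc 2 8 (.lc 3 1 (.lc 3 1 (.conf [16,97] (.node [106,160,106] 6 10 (.node [160] 10 0 .stop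
 (.lc 2 0 (.conf [27,160,186] (.lc 2 0 (.lc 3 0 .stop)))))
 (.node [96,169] 6 0 (.node [] 9 8 (.lc 1 2 (.node [150,168] 10 8 (.node [162] 10 2 (.far [4096,0,4112,0,1,256,256,0,0,257,0,0,1,1] 4096 .stop)
 (.lc 3 0 .stop))
 (.node [130,155,169] 10 9 (.node [171] 11 8 (.node [178] 11 2 (.lc 3 2 .stop)
 (.far [1,0,1,0,0,1,0,256,256] 0 .stop))
 (.lc 3 12 (.lc 1 8 (.lc 3 12 (.lc 4 13 .stop)))))
 (.lc 2 2 (.lc 2 2 (.lc 3 6 (.conf [130,171,184] (.conf [156,203] (.lc 2 2 (.lc 2 2 (.lc 3 6 (.lc 4 6 (.lc 3 2 .stop)))))))))))))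
 .stop)
 (.conf [26,97] (.node [107,186,107,169] 6 11 (.node [186] 9 8 (.node [130,144] 9 0 (.node [160] 0 8 (.far [257,0,1,0,0,1,0,257,0,1,0,0,1,1] 4096 .stop)
 (.lc 0 1 (.lc 0 12 .stop)))
 (.lc 1 2 (.node [150,168,186] 10 8 (.node [162] 10 2 .stop
 (.far [16,16,0,0,16,0,4096,4096] 17 .stop))
 (.node [130,156] 10 9 (.node [172] 12 8 (.node [194] 12 2 (.far [1,257,0,1,0,0,1,0,257,0,1,0,0,1,1] 4096 (.lc 3 2 (.node [205,208,205,172,186] 10 12 (.far [1,4112,4112,256,256] 0 (.lc 3 9 (.lc 1 0 .stop)))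
 .stop)))
 (.far [257,0,1,0,0,1,0,257,0,1,0,0,1,1] 4096 (.far [16,0,16,0,0,16,0,4096,4096] 17 (.far [1,0,1,0,0,1,0,256,256] 0 (.far [1,0,1,0,0,1,0,256,256] 0 (.node [205,208,172,186,130] 10 12 (.far [1,4096,256,257,0,0,1,0,256,256] 0 (.lc 3 9 (.lc 1 0 .stop)))
 .stop))))))
 (.lc 3 0 (.lc 3 13 (.lc 1 8 (.lc 1 8 (.lc 3 0 (.lc 3 13 (.lc 4 13 (.lc 4 0 (.lc 4 14 .stop))))))))))
 (.lc 2 2 (.lc 2 2 (.lc 2 2 (.lc 3 6 (.lc 3 6 (.lc 0 0 (.conf [156,192] (.lc 2 2 (.node [130,144,200,130] 9 0 .stop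
 (.lc 0 12 (.conf [157,220] (.lc 2 2 (.lc 2 2 (.lc 3 6 (.lc 2 2 (.lc 3 6 (.lc 3 2 (.lc 3 2 (.lc 4 6 (.lc 3 2 (.lc 4 6 (.lc 4 6 (.lc 3 2 (.lc 3 2 (.lc 3 2 (.lc 3 2 (.lc 4 2 .stop)))))))))))))))))))))))))))))))
 (.lc 2 10 (.lc 2 10 (.node [186] 9 8 (.lc 1 2 (.far [4112,4112,4096,256,16,0,0,0,1,256] 4097 (.node [130,156] 10 9 (.far [1,4112,4112,4096,256,16,0,0,0,1,256] 4097 (.lc 3 13 (.lc 1 8 (.lc 3 13 (.lc 4 14 .stop)))))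
 (.lc 2 2 (.lc 2 2 (.lc 3 6 (.lc 0 12 (.conf [157,220] (.lc 2 2 (.lc 2 2 (.lc 2 2 (.lc 3 6 (.lc 4 6 (.lc 3 2 (.lc 3 2 .stop)))))))))))))))
 (.conf [28,186,203] (.lc 2 10 (.lc 2 10 (.lc 3 10 (.lc 3 10 .stop)))))))))
 (.lc 2 8 (.lc 2 8 (.lc 2 8 (.lc 2 8 (.lc 2 8 (.lc 3 1 (.lc 3 1 (.lc 3 1 (.lc 3 1 (.lc 3 1 (.lc 3 8 (.lc 3 8 (.lc 3 8 (.lc 3 8 (.lc 3 8 (.lc 3 8 (.lc 4 1 (.lc 4 1 (.lc 4 1 (.lc 4 1 (.lc 4 1 (.lc 4 1 (.lc 4 1 (.lc 4 1 (.lc 5 1 (.lc 5 1 .stop)))))))))))))))))))))))))))))))))))))))))))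
 (.lc 2 2 (.lc 2 2 (.lc 2 2 (.far [4112,1,4112,0,16,0,1,256] 0 (.far [4112,1,4112,0,16,0,1,256] 0 (.lc 2 2 (.lc 2 2 (.lc 3 2 (.lc 3 2 (.lc 3 2 (.lc 3 2 .stop))))))))))))
 (.node [83,96,120] 6 0 (.node [] 0 7 (.far [257,16,1] 256 (.far [1,0,257,4112,0,256] 0 (.node [120] 7 8 (.far [4112,1,0,257,4112,0,256] 0 (.conf [130,154,168] (.far [4112,1,0,257,4112,0,256] 0 (.node [130,168,112] 10 8 (.node [162] 10 2 .stop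
 (.lc 3 11 .stop))
 (.conf [130,155,112] .stop)))))
 (.lc 2 0 (.lc 2 0 (.node [120,151,41,120] 7 8 (.far [257,256,0,0,257,0,1,0,0,1,1] 4096 (.lc 2 2 (.lc 0 10 (.lc 2 2 (.lc 3 2 .stop)))))
 (.node [130,152] 9 8 (.node [146] 9 2 .stop
 (.lc 3 10 .stop))
 (.node [120,151,169,120,130] 7 8 (.node [152] 9 8 (.lc 1 2 (.node [130,155,169] 10 9 (.node [171] 11 8 (.node [178] 11 2 (.lc 0 0 .stop)
 (.far [1,0,1,1,0,0,0,256,256] 0 .stop))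
 (.lc 3 12 (.lc 1 8 (.lc 3 12 (.lc 4 13 .stop)))))
 (.lc 2 2 (.conf [151,171] (.conf [156,203] (.lc 2 2 (.lc 2 2 (.node [151,171,130] 0 10 .stop
 (.conf [151,184,130] (.lc 3 2 .stop))))))))))
 (.lc 2 2 (.lc 0 11 (.lc 2 2 (.lc 3 2 .stop)))))
 (.lc 2 0 (.lc 2 0 (.lc 1 2 (.lc 3 0 .stop))))))))))))
 .stop)
 (.lc 1 3 (.node [83,105,120] 6 9 (.node [151] 9 7 (.node [120] 0 7 (.far [1,1,0,257,4112,0,256] 0 (.node [130,168,112] 10 8 (.node [162] 2 0 .stop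
 (.lc 3 11 .stop))
 (.lc 1 2 .stop)))
 (.lc 2 1 (.far [1,0,257,4112,0,256] 0 (.node [120] 7 8 (.far [4112,1,0,257,4112,0,256] 0 (.conf [130,160,115] (.conf [130,171,184] (.far [4112,1,0,257,4112,0,256] 0 (.far [4112,1,0,257,4112,0,256] 0 (.node [130,115] 0 8 (.far [256,0,0,0,0,1,4096,1,0,0,1,1] 4096 .stop)
 (.node [130,184,115] 11 8 (.node [178] 11 2 (.far [1,256,0,0,0,0,1,4096,1,0,0,1,1] 4096 (.lc 3 2 (.conf [188,192] (.lc 3 2 (.lc 4 2 .stop)))))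
 (.lc 3 0 (.far [16,257,16,4112,8208,258,4096,8192,1,256] 17 (.lc 3 0 (.lc 3 12 (.lc 4 12 .stop))))))
 (.conf [130,171,115] (.conf [130,160,115] (.conf [130,172,115] .stop))))))))))
 (.lc 2 3 (.lc 2 3 (.lc 3 10 (.lc 3 0 (.lc 3 10 (.lc 3 0 (.lc 3 11 (.lc 3 1 (.node [120,160] 0 7 .stop
 (.node [130] 0 8 (.far [256,0,0,0,1,4096,1,0,0,1,1] 4096 .stop)
 (.node [130,168] 10 8 (.node [162] 10 2 (.far [1,256,0,0,0,1,4096,1,0,0,1,1] 4096 (.lc 3 2 (.conf [171,176] .stop)))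
 (.lc 3 0 (.far [16,16,4112,8208,258,4096,8192,1,256] 17 (.lc 3 0 (.lc 3 11 (.lc 4 11 .stop))))))
 (.node [120,167,120,130] 7 8 (.node [168] 0 10 (.far [257,4112,1,0,257,4112,0,256,0,1,257,1] 4096 (.lc 1 2 (.lc 1 2 .stop)))
 (.lc 2 2 (.lc 0 11 (.lc 2 2 (.lc 3 2 .stop)))))
 (.node [120,167,186,120,130] 7 8 (.node [168] 10 8 (.node [130,160,186] 10 0 (.node [176] 0 8 (.far [257,0,1,1,0,0,0,257,0,1,0,0,1,1] 4096 .stop)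
 (.lc 0 1 (.lc 0 12 .stop)))
 (.lc 1 2 (.node [130,172,186] 11 10 (.node [188] 12 8 (.node [194] 12 2 (.far [1,257,0,1,1,0,0,0,257,0,1,0,0,1,1] 4096 (.lc 3 2 (.node [205,208,205] 11 12 (.far [1,4112,4112,256,256] 0 (.lc 3 9 (.lc 1 0 .stop)))
 .stop)))
 (.far [257,0,1,1,0,0,0,257,0,1,0,0,1,1] 4096 (.far [16,0,16,16,0,0,0,4096,4096] 17 (.far [1,0,1,1,0,0,0,256,256] 0 (.far [1,0,1,1,0,0,0,256,256] 0 (.node [205,208,130] 11 12 (.far [1,4096,256,257,1,0,0,0,256,256] 0 (.lc 3 9 (.lc 1 0 .stop)))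
 .stop))))))
 (.lc 3 0 (.lc 3 13 (.lc 1 8 (.lc 1 8 (.lc 3 0 (.lc 3 13 (.lc 4 13 (.lc 4 0 (.lc 4 14 .stop))))))))))
 (.lc 2 2 (.lc 2 2 (.conf [167,176] (.conf [167,188] (.conf [172,192] (.lc 2 2 (.node [130,160,200,186,130] 10 0 .stop
 (.conf [173,220] (.lc 2 2 (.lc 2 2 (.node [167,176,130] 0 8 (.far [1,1,1,0,0,0,256,256] 0 .stop)
 (.lc 2 2 (.node [167,188,130] 9 11 (.node [156] 12 8 (.far [1,0,1,1,0,0,0,256,256] 0 (.lc 3 0 (.far [1,1,4096,0,257,0,257,16,256,256,0,1,257,1] 4096 (.lc 3 0 (.lc 3 13 (.lc 4 13 .stop))))))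
 (.lc 3 1 (.lc 1 8 (.lc 1 8 (.lc 4 1 .stop)))))
 (.lc 3 2 (.node [167,188,192,130] 0 8 (.far [1,4096,4112,1,257,513,4128,256,512,16,4096] 0 .stop)
 (.lc 3 2 (.conf [167,200,130] (.conf [167,200,130] (.lc 3 2 (.lc 3 2 (.lc 3 2 (.lc 3 2 (.lc 4 2 .stop))))))))))))))))))))))))))
 (.lc 2 2 (.lc 2 2 (.lc 0 0 (.lc 0 12 (.lc 2 2 (.lc 2 2 (.lc 3 2 (.lc 3 2 (.lc 3 2 .stop))))))))))
 (.lc 2 3 (.lc 2 3 (.lc 2 3 (.lc 2 3 (.lc 2 3 (.lc 2 3 (.lc 3 10 (.lc 3 0 (.lc 3 0 (.lc 3 10 (.lc 3 0 (.lc 3 11 (.lc 3 3 (.lc 3 3 (.lc 3 3 (.lc 3 3 (.lc 4 11 (.lc 4 10 (.lc 4 0 (.lc 4 11 (.lc 4 11 (.lc 4 0 (.lc 4 12 (.lc 3 3 (.lc 3 3 (.lc 3 3 (.lc 3 3 (.lc 3 3 (.lc 3 3 (.lc 3 3 (.lc 3 3 (.lc 3 3 (.lc 3 3 (.lc 4 3 (.lc 4 3 (.lc 4 3 (.lc 4 3 .stop))))))))))))))))))))))))))))))))))))))))))))))))))))))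
 (.node [151] 9 7 (.far [1,0,257,4112,0,256] 0 (.node [120,154] 9 10 (.far [257,257,272,1,0,0,0,16,4096] 4097 (.lc 2 7 (.lc 2 7 (.lc 2 7 (.node [186] 7 8 (.far [4112,0,1,0,257,4112,0,256] 0 (.lc 0 12 (.lc 0 12 (.lc 0 7 (.node [130,200,172,186] 12 8 (.node [194] 12 2 .stop
 (.lc 3 13 .stop))
 (.lc 0 13 .stop))))))
 (.lc 2 7 (.lc 3 7 (.lc 3 7 .stop))))))))
 (.lc 2 3 (.lc 3 0 (.lc 3 0 (.conf [154,168] (.conf [155,186] (.lc 2 3 (.lc 2 3 (.lc 3 0 (.lc 3 0 (.lc 3 0 (.lc 3 3 (.lc 4 0 (.lc 4 0 (.lc 3 3 (.lc 3 3 (.lc 3 3 (.lc 3 3 (.lc 4 3 .stop))))))))))))))))))))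
 (.node [130,151,137] 1 8 .stop
 (.node [151,169] 1 10 (.node [] 9 7 (.node [120,144] 9 0 (.lc 0 0 .stop)
 (.far [1,0,0,257,4112,0,256] 0 (.node [120,155] 10 9 (.far [16,257,0,256,257,0,0,0,16,4096] 0 (.lc 1 7 (.lc 1 7 (.lc 3 0 (.lc 1 7 (.node [172,203] 10 12 (.node [203] 7 8 (.far [4112,0,0,1,0,0,257,4112,0,256] 0 (.lc 0 13 (.lc 0 13 (.node [130,216,115] 13 8 (.node [210] 13 2 (.far [1,256,0,0,0,0,0,0,0,1,4096,1,0,0,1,1] 4096 (.lc 1 0 .stop))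
 (.lc 3 0 (.lc 3 14 .stop)))
 (.lc 0 14 .stop)))))
 (.lc 2 11 (.lc 2 11 (.lc 2 11 (.conf [203,220] (.lc 2 11 (.lc 3 11 (.lc 3 11 .stop))))))))
 (.lc 2 7 .stop)))))))
 (.lc 2 3 (.lc 3 6 (.lc 3 6 (.lc 3 6 (.conf [155,184] (.conf [156,203] (.lc 2 3 (.lc 2 3 (.lc 2 3 (.lc 3 6 (.lc 3 6 (.lc 3 3 (.lc 4 6 (.lc 4 6 (.lc 3 3 (.lc 3 3 (.lc 3 3 (.lc 3 3 (.lc 4 3 .stop))))))))))))))))))))))
 (.lc 2 9 (.lc 2 9 (.node [186] 9 7 (.far [1,0,0,257,4112,0,256] 0 (.node [120,155,183,186] 9 11 (.lc 0 1 .stop)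
 (.node [120,156] 10 9 (.far [16,257,0,256,257,0,0,0,16,4096] 0 (.lc 3 8 (.lc 3 13 (.lc 3 1 (.lc 1 7 (.lc 3 13 (.lc 4 14 .stop)))))))
 (.lc 2 3 (.lc 3 6 (.lc 3 6 (.lc 3 6 (.conf [156,200] (.conf [157,220] (.lc 2 3 (.lc 2 3 (.lc 2 3 (.lc 3 6 (.lc 3 6 (.lc 3 3 (.lc 4 6 (.lc 4 6 (.lc 3 3 (.lc 3 3 (.lc 3 3 (.lc 3 3 (.lc 4 3 .stop))))))))))))))))))))))
 (.lc 2 9 (.lc 3 9 .stop))))))
 (.far [4112,4096,0,0,4112,1,257,256] 4097 (.conf [151,169] (.far [257,256,0,0,257,16,4112,4096] 0 (.far [257,256,0,0,257,16,4112,4096] 0 (.node [151,169] 9 7 (.far [1,0,257,4112,0,256] 0 (.node [120,155] 10 9 (.far [16,257,272,1,0,0,0,16,4096] 4097 (.lc 3 8 (.lc 3 12 (.lc 1 7 (.lc 3 12 (.lc 4 13 .stop))))))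
 (.lc 2 3 (.lc 3 6 (.lc 3 6 (.conf [155,184] (.conf [156,203] (.lc 2 3 (.lc 2 3 (.lc 3 6 (.lc 3 6 (.lc 3 3 (.lc 4 6 (.lc 4 6 (.lc 3 3 (.lc 3 3 (.lc 3 3 (.lc 4 3 .stop))))))))))))))))))
 (.node [151,169,186] 1 11 (.node [186] 9 7 (.node [120,144] 9 0 .stop
 (.far [1,0,0,257,4112,0,256] 0 (.node [120,156] 10 9 (.far [16,257,0,272,1,0,0,0,16,4096] 0 (.lc 3 0 (.lc 3 8 (.lc 3 13 (.lc 1 7 (.lc 3 13 (.lc 4 14 .stop)))))))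
 (.lc 2 3 (.lc 3 6 (.lc 3 6 (.conf [156,200] (.conf [157,220] (.lc 2 3 (.lc 2 3 (.lc 2 3 (.lc 3 6 (.lc 3 6 (.lc 3 6 (.lc 3 3 (.lc 4 6 (.lc 4 6 (.lc 3 3 (.lc 3 3 (.lc 3 3 (.lc 3 3 (.lc 4 3 .stop))))))))))))))))))))))
 (.lc 2 10 (.lc 2 10 (.conf [186,203] (.lc 2 10 (.lc 3 10 .stop))))))
 .stop))))))))))
 (.node [105,144,87] 0 5 (.far [1,1,0,0,4112,0,1,256] 0 (.far [256,0,0,0,257,0,0,1,1] 4096 (.node [120,167,130] 10 7 (.node [168] 0 10 (.far [257,0,256,0,0,0,257,0,0,1,1] 4096 (.node [154] 6 9 (.node [154] 9 10 .stop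
 (.conf [154,185] .stop))
 (.lc 1 2 (.lc 0 8 (.lc 0 11 (.lc 1 2 .stop))))))
 (.lc 1 2 (.lc 1 2 (.lc 1 2 (.lc 1 2 (.lc 3 11 (.lc 2 2 .stop)))))))
 .stop)))
 (.far [257,0,0,0,0,1,257,1] 4096 (.lc 2 3 (.lc 2 3 (.lc 2 3 (.node [96,130,133,87] 8 5 (.lc 0 3 .stop)
 (.node [105,130,152,87] 8 5 (.lc 0 3 .stop)
 (.node [96,87] 6 0 (.node [] 9 5 (.far [1,0,1,0,0,4112,0,1,256] 0 (.lc 3 10 (.node [120,167,130] 10 7 (.node [168] 10 8 (.lc 1 2 (.node [130,171] 9 10 (.node [155] 11 8 (.node [178] 11 2 (.lc 0 0 .stop)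
 (.far [1,0,1,256,0,0,0,256,256] 0 .stop))
 (.lc 1 8 (.lc 1 8 (.far [1,4112,4096,256,0,0,4112,0,256] 0 (.lc 2 8 .stop)))))
 (.lc 2 2 (.lc 3 7 (.conf [172,203] (.lc 2 2 (.lc 2 2 (.lc 3 7 (.lc 4 7 (.lc 3 2 .stop))))))))))
 (.lc 1 2 (.lc 1 2 (.lc 3 11 (.lc 2 2 .stop)))))
 (.lc 1 3 (.lc 3 10 (.lc 4 11 .stop))))))
 .stop)
 (.node [106,169,87] 6 10 (.node [169] 9 5 (.far [1,0,1,0,0,4112,0,1,256] 0 (.lc 3 0 (.lc 3 11 (.node [120,130] 0 7 .stop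
 (.node [120,183,130] 11 7 (.node [184] 11 8 (.node [130,176] 11 0 (.node [144] 0 8 (.far [257,4112,4096,0,256,0,0,0,0,257,0,0,1,1] 4096 .stop)
 (.lc 0 1 (.lc 0 12 .stop)))
 (.lc 1 2 (.node [130,188] 9 11 (.node [156] 12 8 (.node [194] 12 2 (.far [1,257,1,4096,0,256,0,0,0,0,257,0,0,1,1] 4096 (.lc 3 2 (.node [205,208,205] 9 12 (.far [1,4112,4112,256,256] 0 (.lc 3 5 (.lc 1 0 .stop)))
 .stop)))
 (.far [257,1,4096,0,256,0,0,0,0,257,0,0,1,1] 4096 (.far [16,0,16,4096,0,0,0,4096,4096] 17 (.far [1,0,1,256,0,0,0,256,256] 0 (.far [1,0,1,256,0,0,0,256,256] 0 (.node [205,208,130] 9 12 (.far [1,4096,256,257,256,0,0,0,256,256] 0 (.lc 3 5 (.lc 1 0 .stop)))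
 .stop))))))
 (.lc 3 0 (.lc 3 13 (.lc 1 8 (.lc 1 8 (.lc 3 0 (.lc 3 13 (.lc 4 13 (.lc 4 0 (.lc 4 14 .stop))))))))))
 (.lc 2 2 (.lc 2 2 (.lc 3 7 (.lc 3 7 (.conf [188,192] (.lc 2 2 (.node [130,176,200,130] 11 0 .stop
 (.conf [189,220] (.lc 2 2 (.lc 2 2 (.lc 0 0 (.lc 2 2 (.lc 0 12 (.lc 3 2 (.lc 0 12 (.lc 3 2 (.lc 0 0 (.lc 0 13 (.lc 3 2 (.lc 3 2 (.lc 3 2 (.lc 3 2 (.lc 4 2 .stop))))))))))))))))))))))))))
 (.lc 1 2 (.lc 1 2 (.lc 1 2 (.lc 1 2 (.lc 3 0 (.lc 3 12 (.lc 2 2 (.lc 2 2 (.lc 2 2 .stop))))))))))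
 (.lc 3 0 (.lc 1 3 (.lc 3 11 (.lc 4 11 (.lc 4 0 (.lc 4 12 .stop)))))))))))
 (.lc 2 9 (.lc 2 9 (.lc 2 9 (.lc 2 9 (.node [169] 9 5 (.far [1,0,1,0,0,4112,0,1,256] 0 (.lc 3 11 (.node [120,183,130] 11 7 (.far [1,1,4112,1,4112,0,4128,1,258,512] 4097 (.lc 1 2 (.lc 1 2 (.lc 3 12 (.lc 2 2 .stop)))))
 (.lc 1 3 (.lc 3 11 (.lc 4 12 .stop))))))
 (.conf [169,186] (.lc 2 9 (.lc 2 9 (.lc 3 9 (.lc 3 9 (.lc 3 9 .stop))))))))))))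
 (.lc 4 1 (.conf [83,105,144] (.node [83,96,120,151,130] 6 0 (.far [257,256,0,0,257,16,4112,4096] 0 .stop)
 (.lc 4 1 (.conf [83,106,169] (.node [106,169,87,144] 0 5 .stop
 (.lc 3 3 (.lc 3 3 (.lc 3 3 (.conf [96,133,87] (.conf [106,149,87] (.conf [96,149,87] (.conf [107,149,87] (.node [83,105,120,144] 0 7 (.far [257,1,0,0,0,0,1,257,1] 4096 (.lc 2 0 .stop))
 (.lc 2 3 (.lc 2 3 (.conf [83,120,151] (.conf [83,120,151] (.node [105,120,144,130] 0 7 (.far [1,1,4112,0,16,0,1,256] 0 (.lc 1 2 (.lc 3 1 .stop)))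
 (.far [257,0,0,257,0,0,1,1] 4096 (.node [96,120,151,130] 6 0 (.node [] 7 8 (.far [4112,0,1,4112,0,16,0,1,256] 0 (.lc 2 2 (.far [4112,0,1,4112,0,16,0,1,256] 0 (.lc 2 2 (.lc 3 2 .stop)))))
 .stop)
 (.conf [120,151,169] (.node [105,120,144,130] 0 7 .stop
 (.node [96,120,151,130] 6 0 (.far [257,256,0,0,257,16,4112,4096] 0 .stop)
 (.conf [106,151,169] (.node [106,120,169,130,144] 0 7 .stop
 (.node [106,120,151,160,130] 9 7 (.node [152] 0 9 (.node [152] 2 9 (.lc 0 2 .stop)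
 (.lc 1 2 (.lc 1 2 .stop)))
 (.lc 1 2 (.lc 1 2 (.lc 1 2 (.lc 3 11 (.lc 2 2 .stop))))))
 (.node [96,120,151,169,130] 6 0 (.node [] 9 7 (.node [152] 9 8 (.lc 1 2 (.node [130,155] 10 9 (.node [171] 11 8 (.node [178] 11 2 (.lc 0 0 .stop)
 (.far [1,0,1,256,0,0,256,256] 0 .stop))
 (.lc 3 12 (.lc 1 8 (.lc 3 12 (.lc 4 13 .stop)))))
 (.lc 2 2 (.lc 3 7 (.conf [156,203] (.lc 2 2 (.lc 2 2 (.lc 3 7 (.lc 4 7 (.lc 3 2 .stop))))))))))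
 (.lc 1 2 (.lc 1 2 (.lc 3 11 (.lc 2 2 .stop)))))
 .stop)
 (.node [107,120,151,169,130] 9 7 (.node [152] 6 11 (.node [186] 9 8 (.node [130,144] 9 0 (.node [160] 0 8 (.far [257,0,1,0,256,0,257,0,1,0,0,1,1] 4096 .stop)
 (.lc 0 1 (.lc 0 12 .stop)))
 (.lc 1 2 (.node [130,156] 10 9 (.node [172] 12 8 (.node [194] 12 2 (.far [1,257,0,1,0,256,0,257,0,1,0,0,1,1] 4096 (.lc 3 2 (.node [205,208,205] 10 12 (.far [1,4112,4112,256,256] 0 (.lc 3 9 (.lc 1 0 .stop)))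
 .stop)))
 (.far [257,0,1,0,256,0,257,0,1,0,0,1,1] 4096 (.far [16,0,16,0,4096,0,4096,4096] 17 (.far [1,0,1,0,256,0,256,256] 0 (.far [1,0,1,0,256,0,256,256] 0 (.node [205,208,130] 10 12 (.far [1,4096,256,257,0,256,0,256,256] 0 (.lc 3 9 (.lc 1 0 .stop)))
 .stop))))))
 (.lc 3 0 (.lc 3 13 (.lc 1 8 (.lc 1 8 (.lc 3 0 (.lc 3 13 (.lc 4 13 (.lc 4 0 (.lc 4 14 .stop))))))))))
 (.lc 2 2 (.lc 2 2 (.lc 3 7 (.lc 3 7 (.conf [156,192] (.lc 2 2 (.node [130,144,200,130] 9 0 .stop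
 (.conf [157,220] (.lc 2 2 (.lc 2 2 (.lc 3 7 (.lc 2 2 (.lc 3 7 (.lc 3 2 (.lc 4 7 (.lc 3 2 (.lc 4 7 (.lc 4 7 (.lc 3 2 (.lc 3 2 (.lc 3 2 (.lc 3 2 (.lc 4 2 .stop))))))))))))))))))))))))))
 (.lc 2 10 (.lc 2 10 (.node [186] 9 8 (.lc 1 2 (.node [130,156] 10 9 (.far [1,4112,4112,4097,1,8224,0,32,1,258,512] 4097 (.lc 3 13 (.lc 1 8 (.lc 3 13 (.lc 4 14 .stop)))))
 (.lc 2 2 (.lc 3 7 (.conf [157,220] (.lc 2 2 (.lc 2 2 (.lc 2 2 (.lc 3 7 (.lc 4 7 (.lc 3 2 (.lc 3 2 .stop))))))))))))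
 (.conf [186,203] (.lc 2 10 (.lc 2 10 (.lc 3 10 (.lc 3 10 .stop)))))))))
 (.lc 1 2 (.lc 1 2 (.lc 1 2 (.lc 1 2 (.lc 1 2 (.lc 3 0 (.lc 3 12 (.lc 2 2 (.lc 2 2 (.lc 2 2 (.lc 2 2 .stop))))))))))))
 .stop)))))))))))))))))))))))))))))))))))))))))))))))))))))))))))))))))))))

theorem t27 : kNode2 awTt FTt 6 5 (check tyTt awTt triet FTt [] c27) (fun _ _ _ => true) 0 s27 Pl.nil s27 =
    true := by
  decide +kernel

end Chk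
end Pool.Agent.Lib.MP_ba95e8_co
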