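import Pool.Agent.Lib.MP_ba95e8_co.ChkTab
import Pool.Agent.Lib.MP_ba95e8_co.ChkStates

/-!
Deltahedral domes: part 28 of the case analysis.
-/

namespace Pool.Agent.Lib.MP_ba95e8_co
namespace Chk

/-- certificate number 28 -/
def c28 : Cert := (.node [48] 8 3 (.far [1,4096,1,0,0,1,1] 4096 (.node [96,101,134,118,48,96] 8 6 .stop
 (.node [112,118,135,48,112] 8 7 (.lc 1 0 (.lc 2 0 (.lc 0 3 .stop)))
 (.node [137,144,48] 5 8 (.lc 2 3 (.node [118,120,137,144] 7 8 .stop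
 (.node [90,137,144] 8 9 (.far [4112,1,4096,4096,257,0,0,1,1] 4096 (.lc 0 6 (.lc 0 7 (.lc 0 11 (.lc 0 11 (.node [144,185] 6 5 (.node [106] 10 11 (.far [4112,256,256,256] 0 (.node [118,167,185] 10 7 (.far [4112,4112,256,256,256] 0 .stop)
 (.node [172,185] 6 10 (.far [1,4112,256,256,256] 0 (.lc 1 11 (.lc 1 11 (.lc 1 11 (.conf [100,124] (.lc 2 11 .stop))))))
 (.lc 2 9 (.lc 2 9 (.lc 2 9 (.lc 2 9 (.conf [100,165] (.conf [108,203] (.conf [100,123] (.conf [185,203] (.lc 2 9 (.lc 2 9 (.lc 2 9 (.lc 2 9 (.lc 2 9 (.lc 2 9 (.node [100,123,165] 11 9 (.node [144,188] 7 11 (.far [1,4112,1,256,258,256] 0 (.lc 3 1 (.lc 1 9 .stop)))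
 (.lc 3 7 (.conf [144,201] (.lc 0 1 (.lc 1 0 .stop)))))
 (.lc 3 9 (.lc 3 9 (.conf [100,124] (.lc 3 9 (.lc 3 9 (.lc 3 9 (.lc 3 9 (.lc 4 9 .stop))))))))))))))))))))))))))
 (.lc 3 12 (.lc 3 4 (.lc 1 11 (.lc 3 11 (.lc 3 12 (.lc 4 13 .stop)))))))
 (.lc 0 6 (.lc 0 12 .stop))))))))
 (.lc 3 3 (.conf [131,169,90] (.lc 3 3 (.lc 3 3 (.lc 3 3 (.conf [137,168] (.lc 3 3 (.conf [131,144] (.conf [131,144] (.lc 3 3 (.lc 3 3 (.lc 4 3 (.conf [131,144] (.lc 4 3 (.lc 4 3 (.lc 4 3 (.lc 4 3 (.lc 4 3 (.lc 5 3 .stop))))))))))))))))))))))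
 (.node [144,137] 6 5 (.lc 2 4 (.lc 1 3 (.node [144,149,137] 9 5 (.lc 0 3 .stop)
 (.node [88,106] 5 8 (.node [137] 8 9 (.node [118,121,135,144] 8 7 .stop
 (.far [4112,1,0,4112,0,256] 0 (.node [139,144] 8 11 (.far [4112,4112,1,0,4112,0,256] 0 (.lc 2 9 (.lc 2 9 (.far [4112,4112,1,0,4112,0,256] 0 (.lc 2 9 (.lc 3 9 .stop))))))
 (.conf [25,118] (.conf [121,144] (.conf [121,144] (.conf [131,171] (.conf [140,144] (.conf [131,144,185] (.conf [131,171] (.conf [140,203] (.conf [106,121] (.conf [135,144] (.conf [131,144,185,83,171] (.conf [140,144] (.lc 0 5 (.conf [121,144] (.conf [131,144] (.node [118,131,144,167] 10 7 (.lc 1 9 .stop)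
 (.node [131,144,171] 6 10 (.far [1,4112,257,256,4112,0,256] 0 (.lc 3 4 (.conf [123,185] (.conf [108,203] (.lc 3 4 (.lc 4 4 .stop))))))
 (.conf [131,172] (.conf [141,144] (.conf [131,144,185] (.conf [25,118] (.conf [121,144] (.conf [131,144] (.conf [131,144] (.conf [131,144] (.lc 0 5 (.conf [131,144] (.conf [131,144] .stop)))))))))))))))))))))))))))))))
 (.lc 2 9 (.lc 2 9 (.lc 2 3 (.far [4112,1,0,0,4112,0,1,256] 0 (.lc 2 9 (.lc 3 9 .stop)))))))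
 (.lc 3 4 (.lc 1 3 (.conf [83,106,168] (.lc 2 3 (.lc 3 9 (.lc 3 11 (.lc 2 3 (.lc 2 3 (.lc 3 4 (.node [88,165,186,88,107,118,137,144] 5 8 (.far [257,16,0,0,257,0,16,4096] 0 (.lc 2 9 (.lc 2 9 (.lc 2 3 (.lc 0 12 (.lc 2 9 (.lc 3 9 .stop)))))))
 (.lc 3 4 (.lc 1 9 (.lc 3 9 (.lc 3 10 (.lc 2 3 (.lc 2 3 (.lc 3 10 (.lc 3 11 (.lc 4 4 (.lc 2 9 (.lc 3 3 (.lc 4 12 (.lc 4 10 (.lc 4 11 (.lc 4 11 (.lc 4 11 (.lc 5 12 .stop)))))))))))))))))))))))))))))))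
 (.far [1,4096,1,0,0,1,1] 4096 (.conf [101,112] (.node [138,169,48,144] 5 8 (.lc 2 3 (.node [118,120,138,169,144] 7 8 .stop
 (.node [91,138,169,144] 8 10 (.far [4112,1,4096,4096,257,0,0,1,1] 4096 (.lc 2 9 (.lc 2 9 (.lc 2 9 (.lc 0 12 (.lc 2 9 (.lc 3 9 (.lc 3 9 .stop))))))))
 (.lc 3 3 (.conf [131,169] (.lc 3 3 (.lc 3 3 (.lc 3 3 (.conf [138,184] (.lc 3 3 (.conf [122,169] (.node [131,169,144,91] 10 9 (.conf [144,185] (.lc 2 0 (.lc 2 0 (.lc 2 0 (.lc 0 12 (.lc 2 0 (.lc 3 0 (.lc 3 0 .stop))))))))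
 (.lc 3 3 (.lc 3 3 (.lc 4 3 (.conf [131,203,92] (.lc 4 3 (.lc 4 3 (.lc 4 3 (.lc 4 3 (.lc 4 3 (.lc 5 3 .stop))))))))))))))))))))))
 .stop))))))))
 (.node [54,98,101,118] 3 6 .stop
 (.node [55,114,118] 3 7 (.far [4096,0,1,16,4112,4096] 0 .stop)
 (.far [4112,1,4112,4112,4096,256] 0 (.node [57] 8 3 (.far [1,4112,1,4112,4112,4096,256] 0 (.conf [128,146,50] (.conf [134,146,50] (.conf [135,146,50] (.conf [138,146,50] (.node [146,50] 0 9 .stop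
 (.node [146,169,50] 10 9 (.node [146,160] 0 9 (.node [] 8 10 (.lc 2 3 (.node [101,134,160,118] 6 10 .stop
 (.node [118,135,160] 7 10 (.lc 0 0 .stop)
 (.node [139,160] 11 10 (.node [176] 8 11 (.far [4112,0,4112,0,0,4112,0,256] 0 (.node [101,107,118] 8 6 (.lc 0 3 .stop)
 (.node [118,123] 8 7 .stop
 (.node [140,176] 5 8 (.far [1,4112,0,4112,0,0,4112,0,256] 0 (.conf [83,108,203] (.lc 3 3 (.node [203,220,93,101,118] 6 5 (.far [1,4112,0,0,0,0,0,0,0,4112,0,1,256] 0 (.lc 3 14 (.lc 3 4 (.lc 1 12 (.lc 3 14 (.lc 4 15 .stop))))))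
 (.lc 0 12 (.lc 0 13 .stop))))))
 (.lc 2 0 (.lc 2 0 (.lc 2 0 (.lc 2 0 (.lc 2 0 (.lc 2 0 (.lc 0 3 (.lc 3 3 (.lc 1 11 (.conf [101,123] (.node [176,203,220,141] 5 8 (.far [1,4112,0,4112,0,0,4112,0,256] 0 (.lc 3 3 (.lc 3 3 (.lc 1 12 (.lc 3 3 (.lc 4 3 .stop))))))
 (.lc 0 3 (.lc 2 0 (.lc 2 0 (.lc 2 0 (.lc 2 0 (.lc 2 0 (.lc 0 3 (.lc 3 3 (.lc 3 3 (.lc 3 3 (.lc 3 0 (.lc 1 12 (.lc 3 0 (.lc 3 0 (.lc 1 12 (.lc 1 12 (.lc 1 4 (.lc 4 3 (.lc 0 3 (.lc 4 3 (.lc 1 13 .stop))))))))))))))))))))))))))))))))))))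
 (.lc 3 1 (.lc 3 12 (.lc 1 0 .stop))))
 (.lc 2 0 (.conf [101,134] (.conf [160,186] (.conf [160,186] (.conf [160,186] (.lc 1 10 (.conf [101,122] (.conf [160,186] (.lc 2 0 (.lc 2 0 (.lc 2 0 (.lc 2 0 (.lc 2 0 (.conf [26,118] (.node [101,139,160,182,118] 6 10 .stop
 (.node [101,122,134] 8 6 (.lc 0 3 .stop)
 (.node [118,139,160,183] 7 10 (.lc 0 0 .stop)
 (.node [140,160,203] 5 8 (.node [203] 5 12 (.node [203] 6 12 (.far [1,1,257,4112,0,0,4112,0,256] 0 (.lc 3 4 (.conf [123,186] (.conf [109,219] (.lc 3 4 (.lc 4 4 .stop))))))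
 (.lc 0 11 (.lc 0 13 (.lc 2 5 (.lc 0 13 .stop)))))
 (.lc 3 3 (.lc 3 3 (.lc 1 11 (.lc 3 3 (.lc 4 3 .stop))))))
 (.lc 1 0 (.conf [101,122] (.conf [101,123] (.conf [160,186] (.lc 1 0 (.lc 3 0 (.lc 3 0 (.lc 3 0 (.lc 3 0 (.lc 1 0 (.lc 2 0 .stop)))))))))))))))))))))))))))))))))
 .stop)
 (.node [101,146,166,118] 6 9 .stop
 (.node [118,146,167] 7 9 .stop
 (.node [146,171] 9 2 (.node [178] 11 2 (.node [176] 10 11 (.lc 1 0 (.node [101,107,166,118] 10 6 .stop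
 (.node [118,123,167] 10 7 (.far [4112,4112,0,4112,4096,256,256] 0 .stop)
 (.node [172,176] 8 10 (.node [140] 12 11 (.node [192] 8 12 (.lc 1 0 (.far [4112,0,4112,0,0,0,0,4112,0,256] 0 (.node [101,108,118] 8 6 (.lc 0 3 .stop)
 (.node [118,124] 8 7 .stop
 (.node [141,192] 5 8 (.far [1,4112,0,4112,0,0,0,0,4112,0,256] 0 (.conf [83,109,220] (.lc 3 3 (.node [220,237,94,101,118] 13 12 (.node [208,237] 14 13 .stop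
 (.far [1,0,1,4112,256,256] 0 .stop))
 (.lc 0 13 (.lc 0 14 .stop))))))
 (.lc 2 0 (.lc 0 3 (.lc 3 3 (.lc 1 12 (.conf [101,124] (.node [142,220,237,142,192] 5 8 (.far [1,4112,0,4112,0,0,0,0,4112,0,256] 0 (.lc 3 3 (.lc 3 3 (.lc 1 13 (.lc 3 3 (.lc 4 3 .stop))))))
 (.lc 2 0 (.lc 3 3 (.lc 3 3 (.lc 1 0 (.lc 1 13 (.lc 1 0 .stop)))))))))))))))))
 (.conf [23,193] (.node [101,198,118,96,176] 12 6 (.lc 0 3 .stop)
 (.node [118,199,112,176] 12 7 .stop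
 (.node [205,208,176] 8 12 (.node [208] 8 13 (.far [4112,4112,0,4112,0,0,0,0,4112,0,256] 0 (.lc 2 0 (.lc 1 13 (.lc 0 3 (.lc 2 0 (.lc 1 14 .stop))))))
 (.lc 3 3 (.far [16,256,4096,4112,257,4096,4096] 0 (.lc 1 13 .stop))))
 (.far [16,0,16,257,4096,4096] 0 (.far [1,0,1,4112,256,256] 0 (.lc 1 0 (.conf [101,112] (.node [206,237,176,208] 8 12 (.far [1,4096,256,257,4112,256,256] 0 (.lc 3 3 (.lc 1 13 (.lc 1 14 .stop))))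
 .stop))))))))))
 (.lc 1 11 (.lc 1 11 (.lc 1 11 (.lc 1 11 (.lc 1 11 (.far [1,4112,0,4112,4096,256,256] 0 (.lc 2 11 (.lc 2 11 .stop)))))))))
 (.lc 2 0 (.lc 3 8 (.lc 3 8 (.lc 2 0 (.conf [101,123] (.conf [173,220] (.lc 2 0 (.lc 2 0 (.lc 2 0 (.lc 2 0 (.lc 3 8 (.lc 3 8 (.lc 3 8 (.lc 3 8 (.lc 3 8 (.lc 1 0 (.lc 3 0 (.lc 3 0 (.lc 4 8 (.lc 4 8 (.lc 4 8 (.lc 4 8 (.lc 4 8 (.lc 4 8 (.lc 4 8 (.lc 4 8 (.lc 4 8 (.lc 2 0 (.lc 5 8 (.lc 5 8 .stop))))))))))))))))))))))))))))))))))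
 (.node [101,182,118,96] 11 6 .stop
 (.node [118,183,112] 11 7 .stop
 (.node [184,128] 11 8 .stop
 (.node [188,192] 10 11 (.node [172] 8 10 (.node [140] 8 12 (.lc 1 0 (.far [4112,4112,0,0,0,0,4112,0,256] 0 (.node [101,108,118] 8 6 (.lc 0 3 .stop)
 (.node [118,124] 8 7 .stop
 (.node [141,192] 5 8 (.far [1,4112,4112,0,0,0,0,4112,0,256] 0 (.conf [83,109,220] (.lc 3 3 (.node [220,237,94,101,118] 13 12 (.node [208,237] 14 13 .stop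
 (.far [1,0,1,256,257,4112,256,256] 0 .stop))
 (.lc 0 13 (.lc 0 14 .stop))))))
 (.lc 2 0 (.lc 0 3 (.lc 3 3 (.lc 1 12 (.conf [101,124] (.node [192,220,237,142] 5 8 (.far [1,4112,4112,0,0,0,0,4112,0,256] 0 (.lc 3 3 (.lc 3 3 (.lc 1 13 (.lc 3 3 (.lc 4 3 .stop))))))
 (.lc 2 0 (.lc 3 3 (.lc 3 3 (.lc 1 0 (.lc 1 13 (.lc 1 0 .stop)))))))))))))))))
 (.lc 1 0 (.lc 1 0 (.lc 1 0 (.lc 1 0 (.far [1,4112,0,4112,4096,256,256] 0 (.lc 2 0 (.lc 2 0 .stop))))))))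
 (.lc 3 8 (.conf [173,220] (.lc 3 8 (.lc 4 8 .stop)))))
 (.node [188,192,188] 10 11 (.node [101,166,188,118] 6 11 (.lc 0 12 .stop)
 (.node [118,167,188] 7 11 .stop
 (.lc 1 2 (.node [173,188] 8 10 (.node [141] 13 11 (.far [1,0,1,4112,256,256] 0 (.lc 1 0 (.lc 1 0 (.lc 1 0 (.lc 1 0 (.lc 3 14 (.lc 2 0 (.lc 2 0 .stop))))))))
 (.lc 1 11 (.lc 1 11 (.lc 1 11 (.lc 1 11 (.lc 1 11 (.far [1,4112,0,4112,4096,256,256] 0 (.lc 2 11 (.lc 2 11 .stop)))))))))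
 (.lc 2 2 (.lc 3 8 (.lc 3 8 (.conf [101,123] (.lc 2 2 (.conf [188,219] (.lc 2 2 (.lc 2 2 (.lc 2 2 (.lc 3 8 (.lc 3 8 (.lc 3 8 (.lc 3 8 (.lc 3 8 (.lc 3 2 (.lc 3 2 (.lc 4 8 (.lc 4 8 (.lc 4 8 (.lc 4 8 (.lc 4 8 (.lc 4 8 (.lc 4 8 (.lc 4 8 (.lc 5 8 (.lc 5 8 .stop))))))))))))))))))))))))))))))
 (.node [188,192] 10 11 (.far [1,1,1,257,1,4096,1,0,0,1,1] 4096 (.lc 3 8 (.lc 1 0 (.lc 3 8 (.lc 4 8 .stop)))))
 (.conf [101,112] (.node [189,220,192] 10 11 (.node [173] 10 13 (.node [141] 8 13 (.far [1,1,257,4112,256,256] 0 (.lc 3 3 (.lc 1 0 (.lc 1 12 .stop))))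
 (.lc 2 10 (.conf [220,237] (.lc 1 0 (.lc 2 0 .stop)))))
 (.lc 3 8 (.lc 1 12 (.lc 3 8 (.lc 4 8 .stop)))))
 .stop)))))))))
 (.lc 0 0 (.lc 0 0 (.lc 0 12 (.node [176] 8 10 (.lc 2 3 (.node [101,134,171,118] 6 10 (.lc 0 11 .stop)
 (.node [118,135,171] 7 10 .stop
 (.node [140,171] 10 11 (.far [257,16,257,256,4096,4096] 17 (.lc 2 0 (.lc 2 0 (.lc 2 0 (.lc 0 13 (.lc 2 0 (.lc 3 0 (.lc 3 0 .stop))))))))
 (.lc 2 8 (.conf [101,134] (.conf [171,202] (.conf [171,202] (.conf [171,202] (.lc 1 10 (.conf [101,122] (.conf [171,202] (.lc 3 3 (.lc 2 8 (.lc 2 8 (.lc 2 8 (.lc 2 8 (.lc 2 8 (.lc 2 8 (.lc 2 8 (.conf [26,118] (.node [101,140,171,198,118] 6 10 (.lc 0 11 .stop)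
 (.node [101,122,134] 8 6 (.lc 0 3 .stop)
 (.node [118,140,171,199] 7 10 .stop
 (.node [141,171,220] 5 8 (.node [220] 5 13 (.node [220] 6 13 (.far [1,1,257,4112,0,0,4112,0,256] 0 (.lc 3 4 (.conf [124,202] (.conf [110,236] (.lc 3 4 (.lc 4 4 .stop))))))
 (.lc 0 12 (.lc 0 14 (.lc 2 5 (.lc 0 14 .stop)))))
 (.lc 3 3 (.lc 3 3 (.lc 1 12 (.lc 3 3 (.lc 4 3 .stop))))))
 (.lc 1 11 (.lc 3 8 (.lc 3 8 (.conf [101,122] (.conf [101,124] (.conf [171,202] (.lc 3 8 (.lc 3 8 (.lc 3 8 (.lc 3 8 (.lc 3 8 (.lc 3 8 (.lc 3 8 (.lc 3 8 (.lc 3 8 (.lc 3 8 (.lc 3 8 (.lc 4 8 (.lc 4 8 (.lc 4 8 .stop)))))))))))))))))))))))))))))))))))))))))))))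
 (.lc 0 12 .stop))))))
 (.conf [146,160] (.conf [146,171] (.conf [23,161] (.conf [146,166] (.conf [112,167] (.conf [146,171] (.lc 1 9 (.conf [121,146] (.conf [146,160] (.conf [146,166] (.conf [123,167] (.conf [146,172] (.conf [171,176] (.conf [101,121] (.conf [146,185] (.conf [146,185] (.conf [146,160] (.far [257,1,4096,1,0,0,1,1] 4096 (.node [101,146,166,118,32] 10 6 .stop
 (.conf [114,167] (.node [146,171,32] 8 10 (.node [139] 11 2 (.far [1,1,1,257,0,1,0,0,1,1] 4096 (.lc 3 6 (.lc 3 7 (.lc 3 12 (.node [188,192] 8 11 (.lc 2 3 (.node [101,107,188,118] 6 11 (.lc 0 12 .stop)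
 (.node [118,123,188] 7 11 .stop
 (.lc 1 2 (.node [141,188] 11 12 (.node [192] 5 8 (.far [1,0,4112,0,4112,0,4112,0,256] 0 (.conf [83,109,220] (.lc 3 3 (.node [220,237,192,94,101,118] 13 12 (.node [192] 5 14 (.far [4112,0,4112,0,0,0,0,0,0,0,4112,0,1,256] 0 (.lc 0 15 .stop))
 (.lc 2 0 (.lc 0 15 .stop)))
 (.lc 0 13 (.lc 0 14 .stop))))))
 (.lc 2 0 (.lc 2 0 (.lc 2 0 (.lc 0 14 (.lc 2 0 (.lc 3 0 (.lc 3 0 .stop))))))))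
 (.lc 2 2 (.lc 0 3 (.lc 3 3 (.lc 3 3 (.lc 1 11 (.conf [101,123] (.lc 2 2 (.conf [188,219] (.lc 3 3 (.lc 2 2 (.lc 2 2 (.lc 2 2 (.lc 3 3 (.lc 3 3 (.lc 1 12 (.lc 3 2 (.lc 3 2 (.lc 1 12 (.lc 1 13 (.lc 1 12 (.lc 4 3 (.lc 0 3 (.lc 4 3 (.lc 1 13 .stop)))))))))))))))))))))))))))))
 (.lc 3 12 (.lc 4 6 (.lc 4 13 .stop))))))))
 (.lc 3 0 (.lc 3 6 (.lc 3 7 (.lc 3 12 (.lc 1 2 (.lc 1 2 (.lc 3 0 (.lc 3 12 (.lc 4 12 (.lc 4 6 (.lc 4 0 (.lc 4 13 .stop)))))))))))))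
 (.conf [146,171] (.conf [25,118] (.conf [146,160] (.conf [146,171] (.conf [146,160] (.conf [101,166] (.conf [146,171] (.conf [146,160] (.conf [146,172] (.conf [146,171] (.lc 1 0 (.conf [101,112] (.conf [146,172] (.conf [101,121] (.conf [101,121] (.conf [146,172] (.conf [101,123] (.conf [146,160] (.conf [146,173] (.node [146,171,176] 8 10 (.conf [139,176] (.lc 3 6 (.lc 3 7 (.lc 3 12 (.lc 1 0 (.lc 3 12 (.lc 4 6 (.lc 4 13 .stop))))))))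
 (.conf [101,114] (.conf [146,178,32] (.node [146,171,176] 8 10 (.conf [139,176] (.lc 3 6 (.lc 3 7 (.lc 3 12 (.lc 1 0 (.lc 3 12 (.lc 4 6 (.lc 4 13 .stop))))))))
 (.node [101,146,166,118,96] 10 6 .stop
 (.conf [112,167] (.node [146,171,176] 8 10 (.far [16,256,4096,4096] 17 (.lc 3 6 (.lc 3 7 (.lc 3 12 (.conf [140,203] (.lc 3 12 (.lc 4 6 (.lc 4 13 .stop))))))))
 (.conf [101,112] (.node [146,172,203,176] 8 10 (.conf [140,203] (.lc 3 6 (.lc 3 7 (.lc 3 13 (.lc 1 11 (.lc 3 13 (.lc 4 6 (.lc 4 14 .stop))))))))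
 .stop)))))))))))))))))))))))))))))))))))))))))))))))))))))
 (.far [1,4112,1,4112,4112,4096,256] 0 (.far [1,4112,1,4112,4112,4096,256] 0 (.conf [138,146,50] (.conf [101,121] (.conf [128,146,50] (.conf [139,146,50] .stop)))))))))))))
 (.far [4096,1,0,0,1,1] 4096 (.node [57,144,57] 3 9 (.far [4112,4096,1,0,0,1,1] 4096 (.lc 0 6 (.lc 0 7 (.lc 0 10 (.lc 0 10 (.lc 2 0 (.lc 0 6 (.lc 0 11 .stop))))))))
 (.node [32,50,101,134,118] 6 2 (.lc 0 0 .stop)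
 (.node [32,57,98,101,150,118,57] 6 2 (.lc 0 0 .stop)
 (.node [101,114,54] 3 6 .stop
 (.node [32,50,118,135] 7 2 .stop
 (.node [32,114,118,151,57] 7 2 .stop
 (.node [32,50,137] 9 2 (.far [1,4096,1,0,0,1,1] 4096 (.lc 3 6 (.lc 3 7 (.lc 3 10 (.node [160] 5 8 (.lc 2 3 (.node [118,120,137] 7 8 .stop
 (.node [137,160,168] 10 8 (.lc 0 2 .stop)
 (.node [91,137] 8 9 (.far [4112,1,0,16,257,4112,4112,4096,256] 0 (.lc 2 10 (.lc 2 10 (.lc 2 10 (.lc 2 2 (.lc 0 12 (.lc 2 10 (.lc 3 10 (.lc 3 10 .stop)))))))))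
 (.lc 3 3 (.lc 2 3 (.lc 2 3 (.lc 3 3 (.lc 3 3 (.lc 3 3 (.conf [137,184] (.lc 3 3 (.lc 2 3 (.lc 2 3 (.lc 3 3 (.lc 3 3 (.lc 3 3 (.lc 4 3 (.lc 3 3 (.lc 4 3 (.lc 4 3 (.lc 4 3 (.lc 4 3 (.lc 4 3 (.lc 4 3 (.lc 5 3 .stop))))))))))))))))))))))))))
 (.lc 3 10 (.lc 4 6 (.lc 4 11 .stop))))))))
 (.node [32,58,169,58] 3 10 (.node [169] 9 2 (.far [1,4112,4096,1,0,0,1,1] 4096 (.lc 3 6 (.lc 3 7 (.lc 3 8 (.lc 3 11 (.node [176] 10 9 (.node [101,155,166,118] 10 6 .stop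
 (.node [118,155,167] 10 7 (.lc 0 6 .stop)
 (.lc 1 2 (.node [155,172] 8 10 (.far [1,4112,0,4096,16,1,4112,4112,4096,256] 0 (.lc 3 6 (.lc 3 7 (.lc 3 11 (.lc 3 13 (.lc 1 9 (.lc 3 13 (.lc 4 6 (.lc 4 14 .stop)))))))))
 (.lc 2 11 (.lc 2 11 (.lc 2 11 (.lc 2 11 (.lc 2 11 (.lc 2 2 (.conf [155,201] (.conf [101,121] (.lc 2 2 (.conf [155,201] (.lc 1 9 (.lc 2 11 (.lc 2 11 (.lc 2 11 (.lc 2 11 (.lc 0 3 (.lc 2 11 (.lc 2 11 (.lc 2 11 (.lc 0 6 (.lc 0 7 (.lc 0 11 (.lc 0 12 (.lc 3 11 (.lc 3 11 (.lc 3 11 (.lc 0 6 (.lc 0 12 (.lc 0 13 (.lc 0 7 (.lc 0 12 (.lc 0 6 (.lc 0 12 (.lc 0 13 (.lc 0 6 (.lc 0 6 (.lc 0 7 (.lc 0 13 (.lc 2 9 (.lc 3 11 (.lc 3 11 (.lc 0 12 (.lc 0 6 (.lc 0 14 .stop))))))))))))))))))))))))))))))))))))))))))))))))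
 (.lc 3 11 (.lc 4 6 (.lc 4 12 .stop)))))))))
 (.lc 0 0 (.lc 0 6 (.lc 0 7 (.lc 0 11 (.lc 0 0 (.lc 0 11 (.lc 2 9 (.lc 2 9 (.lc 0 11 (.lc 0 6 (.lc 0 0 (.lc 0 12 .stop)))))))))))))
 (.lc 3 2 (.lc 3 2 (.far [4096,1,0,0,1,1] 4096 (.node [57,144,57] 3 9 (.far [4112,4096,1,0,0,1,1] 4096 (.lc 0 6 (.lc 0 7 (.lc 0 10 (.lc 0 10 (.lc 2 0 (.lc 0 6 (.lc 0 11 .stop))))))))
 (.conf [101,114] (.far [4112,1,4112,4112,4096,256] 0 (.node [58,169,58,146] 3 10 (.far [4112,4112,1,4112,4112,4096,256] 0 (.lc 0 0 (.lc 0 6 (.lc 0 7 (.lc 0 11 (.lc 0 0 (.lc 0 11 (.lc 2 9 (.lc 2 9 (.lc 0 11 (.lc 0 6 (.lc 0 0 (.lc 0 12 .stop)))))))))))))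
 (.node [54,96,101,118] 3 6 .stop
 (.node [55,112,118] 3 7 (.far [4096,0,1,16,4112,4096] 0 .stop)
 (.node [50,128] 5 8 (.lc 1 0 (.lc 2 3 (.node [118,120] 5 7 (.lc 0 4 .stop)
 (.node [89] 6 5 (.node [105] 8 0 (.far [16,0,0,256,16,0,0,16,16] 1 (.node [112,118,135] 8 7 .stop
 (.far [4112,0,1,256,256] 17 (.node [138] 9 8 (.far [1,4112,0,1,256,256] 17 (.conf [151,160,122] (.conf [155,160,186] (.node [160,186,128] 9 11 (.far [4112,4112,0,256,256] 0 (.node [118,123,151,186,160] 9 7 (.far [4112,4112,4112,0,256,256] 0 .stop)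
 (.node [156,186] 6 9 (.far [1,4112,4112,0,256,256] 0 (.lc 1 11 (.lc 1 11 (.lc 1 11 (.conf [100,124] (.lc 2 11 .stop))))))
 (.lc 2 10 (.lc 2 10 (.lc 2 10 (.lc 2 10 (.conf [100,149] (.conf [108,203] (.conf [100,123] (.conf [157,220] (.lc 2 10 (.lc 2 10 (.lc 2 10 (.lc 2 10 (.lc 2 10 (.lc 2 10 (.node [100,123,149,186,160] 11 10 (.node [160,188] 7 11 (.far [1,4112,1,272,0,256,256] 0 (.lc 3 1 (.lc 1 10 .stop)))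
 (.lc 3 7 (.conf [160,202] (.lc 0 1 (.lc 1 0 .stop)))))
 (.lc 3 10 (.lc 3 10 (.conf [100,124] (.lc 3 10 (.lc 3 10 (.lc 3 10 (.lc 3 10 (.lc 4 10 .stop))))))))))))))))))))))))))
 (.far [1,4112,0,1,256,256] 17 (.conf [156,160,128] .stop))))))
 (.node [118,135] 8 7 .stop
 (.conf [23,145] (.conf [23,161] (.lc 3 0 (.lc 1 0 (.far [4112,0,1,256,256] 17 (.node [139,186,139,160] 9 8 (.far [1,4112,0,1,256,256] 17 (.lc 3 7 (.lc 3 12 (.lc 1 10 (.lc 3 12 (.lc 4 13 .stop))))))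
 (.lc 1 0 (.lc 3 0 (.lc 3 0 (.lc 3 0 (.lc 3 0 (.lc 2 0 (.lc 2 0 (.lc 2 0 (.lc 4 0 (.lc 4 0 (.lc 4 0 (.lc 2 0 (.lc 2 0 (.lc 3 0 .stop)))))))))))))))))))))))))
 (.lc 3 10 (.lc 3 4 (.far [16,257,0,257,0,16,4096] 0 (.lc 3 10 (.lc 4 11 .stop))))))
 (.lc 2 0 (.lc 2 0 (.lc 3 3 (.lc 2 0 (.lc 3 3 (.lc 3 3 (.lc 3 3 (.node [90,169,90,152,101,118] 6 5 (.far [1,4112,0,4112,0,1,256] 0 (.lc 3 11 (.lc 3 4 (.lc 1 9 (.lc 3 11 (.lc 4 12 .stop))))))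
 (.lc 3 3 (.lc 3 3 (.lc 2 0 (.lc 2 0 (.lc 3 3 (.lc 3 3 (.lc 3 3 (.lc 3 3 (.lc 4 3 (.lc 3 0 (.lc 4 3 (.lc 4 3 (.lc 4 3 (.lc 4 3 (.lc 4 3 (.lc 5 3 .stop))))))))))))))))))))))))))))
 (.node [57] 3 9 (.node [] 6 5 (.lc 2 4 (.lc 1 3 (.node [88,105,144] 9 5 (.lc 0 3 .stop)
 (.node [88,106] 5 8 (.node [] 7 6 (.node [106,121,144] 9 6 .stop
 (.far [16,0,257,0,0,0,16,4096] 0 (.node [106,123] 11 6 (.far [16,16,0,257,0,0,0,16,4096] 0 (.lc 3 9 (.lc 3 12 (.far [16,16,0,257,0,0,0,16,4096] 0 (.lc 3 12 (.lc 4 13 .stop))))))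
 (.conf [100,123,186] (.conf [106,112] (.conf [100,168] (.conf [100,168] (.conf [106,121] (.conf [106,124] (.conf [100,168] (.conf [106,182] (.node [100,121,144,168] 9 10 (.conf [131,144] .stop)
 (.node [100,123,168] 10 8 (.far [257,16,4096,1,0,0,0,16,4096] 0 (.lc 2 3 (.far [16,0,16,0,4096,0,4096] 0 (.node [188,200,137,144] 12 8 (.far [16,16,0,16,0,4096,0,4096] 0 (.lc 1 0 (.lc 1 0 (.lc 3 13 (.lc 2 0 .stop)))))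
 (.lc 2 3 (.lc 3 3 .stop))))))
 (.lc 1 5 (.conf [100,121] (.conf [100,123] (.conf [106,121] (.conf [106,123] (.conf [100,123,186,83,168] (.conf [106,124] (.conf [100,124,203] (.conf [100,168] (.conf [106,125] (.lc 2 5 (.conf [100,124] (.conf [100,123] (.conf [100,124] (.conf [100,112] (.conf [100,121] (.conf [100,124] (.conf [100,125] .stop)))))))))))))))))))))))))))))))
 (.conf [137,167,83] (.conf [137,171,184] (.lc 2 3 (.far [4112,1,0,0,4112,0,1,256] 0 (.far [257,16,0,0,257,0,16,4096] 0 (.conf [137,172,83] .stop)))))))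
 (.lc 3 4 (.lc 1 3 (.conf [83,106,168] (.lc 2 3 (.lc 3 0 (.lc 3 9 (.lc 3 11 (.lc 2 3 (.lc 2 3 (.lc 3 4 (.node [88,165,186,88,107,118,137] 5 8 (.far [257,16,0,0,257,0,16,4096] 0 (.lc 2 9 (.lc 2 9 (.lc 2 3 (.lc 0 12 (.lc 2 9 (.lc 3 9 .stop)))))))
 (.lc 3 4 (.node [83,106,137,144] 8 9 (.node [169] 6 10 (.far [257,0,257,0,0,0,16,4096] 0 (.lc 1 6 (.node [107,118] 7 6 (.far [16,257,0,257,0,0,0,16,4096] 0 (.lc 3 12 (.lc 1 10 (.lc 3 12 (.lc 4 13 .stop)))))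
 (.lc 2 9 (.lc 2 9 (.lc 3 4 (.node [123,186] 7 11 (.conf [27,186] (.lc 0 0 (.lc 2 10 .stop)))
 (.conf [108,203] (.lc 2 9 (.lc 2 9 (.lc 3 4 (.lc 3 4 (.lc 3 4 (.lc 3 9 (.lc 3 9 (.lc 4 4 (.lc 4 4 (.lc 4 4 (.lc 4 4 (.lc 5 4 .stop))))))))))))))))))))
 (.lc 2 0 (.lc 2 0 (.far [4112,1,256,0,16,0,1,256] 0 (.lc 2 0 (.lc 3 0 .stop))))))
 (.lc 3 9 (.lc 3 10 (.lc 2 3 (.lc 2 3 (.lc 3 10 (.lc 3 11 (.lc 4 4 (.conf [83,107,186] (.lc 3 3 (.lc 4 12 (.lc 4 10 (.lc 4 11 (.lc 4 11 (.lc 4 11 (.lc 5 12 .stop))))))))))))))))))))))))))))))))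
 (.conf [134,144,50] (.conf [135,144,50] (.conf [138,144,50] (.node [138,169,50] 5 8 (.lc 2 3 (.node [118,120,138,169] 7 8 .stop
 (.node [91,138,169] 8 10 (.far [4112,1,4112,4112,258,4112,4112,4097,257] 4096 (.lc 2 9 (.lc 2 9 (.lc 2 9 (.lc 0 12 (.lc 2 9 (.lc 3 9 (.lc 3 9 .stop))))))))
 (.lc 3 3 (.conf [131,169] (.lc 3 3 (.lc 3 3 (.lc 3 3 (.conf [138,184] (.lc 3 3 (.conf [122,169] (.node [131,169,144,91] 10 9 (.node [144] 5 11 (.far [257,0,257,0,0,257,0,16,4096] 0 (.lc 0 12 (.lc 0 12 (.lc 0 4 (.lc 2 9 (.lc 0 13 .stop))))))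
 (.lc 2 0 (.lc 2 0 (.lc 2 0 (.lc 0 12 (.lc 2 0 (.lc 3 0 (.lc 3 0 .stop))))))))
 (.lc 3 3 (.lc 3 3 (.lc 4 3 (.conf [131,203,92] (.lc 4 3 (.lc 4 3 (.lc 4 3 (.lc 4 3 (.lc 4 3 (.lc 5 3 .stop))))))))))))))))))))))
 (.node [144,169,50] 10 9 (.node [101,144,166,118] 6 9 .stop
 (.node [118,144,167] 7 9 (.lc 0 0 .stop)
 (.node [144,171] 9 0 (.node [176] 8 10 (.lc 2 3 (.node [101,134,171,118] 6 10 (.lc 0 11 .stop)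
 (.node [118,135,171] 7 10 .stop
 (.node [140,171] 10 11 (.far [4112,1,4112,4096,1,256] 17 (.lc 2 0 (.lc 2 0 (.lc 2 0 (.lc 0 13 (.lc 2 0 (.lc 3 0 (.lc 3 0 .stop))))))))
 (.lc 2 8 (.conf [101,134] (.conf [171,202] (.conf [171,202] (.conf [171,202] (.lc 1 10 (.conf [101,122] (.conf [171,202] (.lc 3 3 (.lc 2 8 (.lc 2 8 (.lc 2 8 (.lc 2 8 (.lc 2 8 (.lc 2 8 (.conf [26,118] (.node [101,140,171,198,118] 6 10 (.lc 0 11 .stop)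
 (.far [257,0,0,1,257,0,256,0,0,4096] 17 (.node [118,140,171,199] 7 10 .stop
 (.node [141,171,220] 5 8 (.node [220] 5 13 (.node [220] 6 13 (.far [1,1,257,4112,0,0,256,0,256] 0 (.lc 3 4 (.conf [124,202] (.conf [110,236] (.lc 3 4 (.lc 4 4 .stop))))))
 (.lc 0 12 (.lc 0 14 (.lc 2 5 (.lc 0 14 .stop)))))
 (.lc 3 3 (.lc 3 3 (.lc 1 12 (.lc 3 3 (.lc 4 3 .stop))))))
 (.lc 1 11 (.lc 3 8 (.lc 3 8 (.conf [101,122] (.conf [101,124] (.conf [171,202] (.lc 3 8 (.lc 3 8 (.lc 3 8 (.lc 3 8 (.lc 3 8 (.lc 3 8 (.lc 3 8 (.lc 3 8 (.lc 3 8 (.lc 3 8 (.lc 3 8 (.lc 4 8 (.lc 4 8 (.lc 4 8 .stop))))))))))))))))))))))))))))))))))))))))))))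
 (.lc 0 1 (.lc 0 12 (.lc 2 0 .stop))))
 (.conf [144,171] (.lc 1 9 (.conf [121,144] (.conf [144,166] (.conf [123,167] (.conf [144,172] (.conf [101,121] (.conf [144,185] (.conf [144,161] (.conf [23,161] (.node [101,144,166,118,1] 10 6 .stop
 (.conf [112,167] (.node [144,171,1] 8 10 (.far [1,4096,1,256] 17 (.lc 3 6 (.lc 3 7 (.lc 3 12 (.lc 1 0 (.lc 3 12 (.lc 4 6 (.lc 4 13 .stop))))))))
 (.conf [25,118] (.conf [144,171] (.conf [101,166] (.conf [144,171] (.conf [144,172] (.lc 1 0 (.conf [101,121] (.conf [101,123] (.conf [144,173] (.lc 1 0 (.conf [101,112] (.conf [144,176,1] (.node [118,144,167] 10 7 (.lc 1 5 .stop)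
 (.conf [23,177] (.lc 1 0 (.lc 2 0 .stop))))))))))))))))))))))))))))))))
 (.conf [101,121] (.conf [139,144,50] .stop))))))))
 (.conf [32,114] (.conf [32,146] (.conf [32,146] (.conf [32,146] (.conf [32,146] (.lc 3 2 (.lc 3 2 (.lc 3 2 (.lc 3 2 (.lc 3 2 (.lc 3 2 (.lc 3 2 (.lc 3 2 (.conf [101,112] (.node [50,137,144] 5 8 (.lc 2 3 (.node [118,120,137] 7 8 .stop
 (.node [90,137] 8 9 (.far [4112,1,16,257,4112,4112,4096,256] 0 (.lc 2 0 (.lc 2 0 (.lc 2 0 (.lc 0 11 (.lc 2 0 (.lc 3 0 (.lc 3 0 .stop))))))))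
 (.lc 3 3 (.lc 2 3 (.lc 3 3 (.lc 3 3 (.lc 3 3 (.conf [137,168] (.lc 3 3 (.lc 2 3 (.lc 2 3 (.lc 3 3 (.lc 3 3 (.lc 4 3 (.lc 3 3 (.lc 4 3 (.lc 4 3 (.lc 4 3 (.lc 4 3 (.lc 4 3 (.lc 5 3 .stop))))))))))))))))))))))
 (.node [58,169,58,144] 3 10 (.node [169] 10 9 (.node [101,144,166,118] 10 6 .stop
 (.node [118,144,167] 10 7 (.lc 0 6 .stop)
 (.node [144,171] 8 10 (.far [1,4112,4096,16,1,4112,4112,4096,256] 0 (.lc 3 6 (.lc 3 7 (.lc 3 12 (.lc 1 9 (.lc 3 12 (.lc 4 6 (.lc 4 13 .stop))))))))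
 (.conf [25,118] (.conf [144,171] (.conf [101,121,144] (.conf [121,144] (.conf [144,172] (.conf [144,163] (.conf [101,121] (.conf [144,185] (.lc 1 9 (.conf [144,166] (.conf [144,166] (.conf [144,167] (.conf [144,172] (.lc 0 3 (.node [101,144,163,118,105] 6 9 .stop
 (.conf [121,144] (.node [144,163,139] 11 9 (.far [1,4096,1,256] 17 (.lc 3 1 (.lc 3 12 (.lc 1 0 .stop))))
 (.lc 0 6 (.lc 0 7 (.lc 0 11 (.conf [101,121] (.conf [101,123] (.conf [144,173] (.lc 0 6 (.lc 0 12 (.lc 0 7 (.lc 0 11 (.lc 0 6 (.lc 0 11 (.lc 0 12 (.lc 0 6 (.lc 0 6 (.lc 0 7 (.lc 0 12 (.lc 2 9 (.conf [101,121] (.conf [163,203,140] (.lc 0 11 (.lc 0 6 (.lc 0 13 .stop)))))))))))))))))))))))))))))))))))))))))))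
 (.lc 0 6 (.lc 0 7 (.lc 0 11 (.lc 0 11 (.lc 2 9 (.lc 0 6 (.lc 0 12 .stop))))))))
 (.conf [32,114] (.conf [32,114] (.conf [101,121] (.conf [32,146] (.conf [32,146] (.lc 4 2 (.lc 4 2 (.lc 4 2 (.lc 4 2 (.lc 4 2 (.lc 4 2 (.lc 4 2 (.lc 4 2 (.lc 4 2 (.lc 4 2 (.lc 4 2 (.lc 4 2 (.lc 4 2 (.lc 4 2 (.lc 4 2 (.lc 4 2 (.lc 4 2 (.lc 4 2 (.lc 5 2 (.lc 5 2 (.lc 5 2 (.lc 5 2 (.lc 5 2 .stop)))))))))))))))))))))))))))))))))))))))))))))))))))))))))))))))))))))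

theorem t28 : kNode2 awTt FTt 3 2 (check tyTt awTt triet FTt [] c28) (fun _ _ _ => true) 0 s28 Pl.nil s28 =
    true := by
  decide +kernel

end Chk
end Pool.Agent.Lib.MP_ba95e8_co
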