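import Pool.Agent.Lib.MP_ba95e8_co.ChkTab
import Pool.Agent.Lib.MP_ba95e8_co.ChkStates

/-!
Deltahedral domes: part 29 of the case analysis.
-/

namespace Pool.Agent.Lib.MP_ba95e8_co
namespace Chk

/-- certificate number 29 -/
def c29 : Cert := (.node [50,64] 0 3 (.node [50,64] 4 0 (.lc 0 0 (.node [83] 5 3 (.node [] 1 4 (.node [64,82] 1 5 .stop
 (.node [69] 4 5 (.node [82] 6 5 (.node [32] 6 2 (.node [103] 1 6 (.node [] 7 2 .stop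
 (.far [16,257,257,4096,4096] 0 .stop))
 (.node [104,135,104,114] 6 8 (.far [4112,4112,4112,256,256] 0 (.lc 2 7 .stop))
 .stop))
 (.node [103,114,80] 6 7 (.node [114] 7 2 .stop
 (.far [257,256,4112,4096,257,4096,4096] 0 .stop))
 (.far [16,16,0,257,4096,4096] 0 (.far [1,1,0,4112,256,256] 0 (.node [104,135,80,114] 6 8 (.far [4112,4096,257,256,4112,256,256] 0 (.lc 2 7 .stop))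
 .stop)))))
 (.far [4112,1,1,4096,4096,0,256] 0 .stop))
 (.lc 2 0 (.node [23,69,100,69] 4 5 (.node [82,101] 6 5 (.node [32,98] 7 6 (.node [114] 1 7 .stop
 (.far [1,4096,0,257,4096,0,0,0,256] 0 .stop))
 (.node [32,100,114] 1 7 .stop
 (.conf [104,130] (.conf [100,114] (.conf [100,120] .stop)))))
 (.lc 0 8 .stop))
 (.node [69,100,118,69] 4 5 (.far [257,16,16,256,256,0,4096] 0 (.lc 0 8 .stop))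
 (.lc 2 0 (.conf [22,101] (.conf [23,118] (.conf [24,135] (.lc 3 0 .stop))))))))))
 (.lc 3 6 (.node [98] 1 4 (.far [16,16,256,256,0,4096] 0 (.node [98,100] 6 4 (.far [256,0,4112,256,256] 0 .stop)
 (.node [69] 4 5 (.far [257,16,16,256,256,0,4096] 0 (.conf [98,118] (.conf [98,118] (.conf [86,133] (.conf [80,98] (.conf [80,98] .stop))))))
 (.lc 2 0 (.lc 2 0 (.node [80,98] 1 6 .stop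
 (.node [22,98,103,116,69] 1 6 .stop
 (.node [24,69,116,69] 4 5 (.node [86,117,98] 7 5 (.far [1,1,0,4112,256,256] 0 (.lc 1 2 (.lc 1 2 (.lc 3 4 (.lc 2 2 .stop)))))
 (.lc 2 0 (.lc 0 6 (.lc 0 9 (.lc 2 0 (.lc 3 0 .stop))))))
 (.conf [80,98] (.node [69,116,135,69] 4 5 (.far [257,16,16,256,256,0,4096] 0 (.lc 2 0 (.lc 0 6 (.lc 0 9 (.lc 2 0 (.lc 3 0 .stop))))))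
 (.lc 2 0 (.lc 2 0 (.lc 2 0 (.conf [64,80] (.conf [23,117] (.conf [23,118] (.conf [24,135] (.lc 3 0 (.conf [80,98] (.conf [25,152] (.lc 3 0 (.lc 3 0 (.lc 3 0 (.lc 3 0 (.lc 4 0 .stop)))))))))))))))))))))))))
 (.lc 3 6 (.lc 4 7 .stop)))))
 (.lc 3 6 (.far [16,257,4096] 0 (.lc 3 6 (.lc 4 7 .stop))))))
 (.conf [50,83] .stop))
 (.asm [50,69] 0 (.node [50,69,80,69] 0 3 (.node [] 4 5 (.lc 1 0 (.lc 2 6 (.lc 0 6 (.lc 3 7 (.lc 3 7 (.lc 0 6 (.lc 3 7 (.conf [22,101] (.lc 3 7 (.lc 3 7 (.lc 3 7 (.lc 0 7 (.lc 4 8 (.lc 4 8 (.lc 4 8 (.lc 4 8 (.lc 4 8 (.lc 5 9 .stop))))))))))))))))))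
 .stop)
 (.node [50,64,83] 5 3 (.node [82] 4 0 (.lc 0 0 .stop)
 (.node [86,98] 0 5 .stop
 (.node [86,98,86] 0 5 .stop
 (.node [86,98] 0 5 .stop
 (.node [87,118,98] 0 5 .stop
 .stop)))))
 (.node [50,70,101,70] 5 3 (.node [82] 6 5 (.node [82,96] 0 5 (.far [257,1,0,1,257] 4096 (.lc 1 2 (.lc 2 2 .stop)))
 (.node [82,97] 1 5 (.lc 2 4 (.lc 3 4 .stop))
 (.lc 0 0 (.node [82,103] 4 6 (.lc 2 0 (.lc 1 7 (.lc 2 8 (.lc 3 0 (.lc 0 7 (.lc 3 8 (.lc 3 8 (.lc 3 0 (.lc 3 9 (.lc 0 0 (.lc 3 8 (.lc 3 0 (.lc 0 8 (.lc 3 9 (.lc 3 0 (.conf [23,117] (.lc 3 8 (.lc 3 0 (.lc 3 8 (.lc 3 8 (.lc 3 0 (.lc 3 9 (.lc 0 0 (.lc 4 8 (.lc 4 0 (.lc 0 8 (.lc 4 9 (.lc 4 9 (.lc 4 9 (.lc 4 0 (.lc 4 10 (.lc 4 8 (.lc 4 0 (.lc 4 9 (.lc 4 8 (.lc 4 0 (.lc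 4 9 (.lc 4 8 (.lc 4 0 (.lc 4 9 (.lc 5 9 (.lc 5 9 (.lc 5 0 (.lc 5 10 .stop))))))))))))))))))))))))))))))))))))))))))))
 (.lc 2 2 (.lc 2 2 (.lc 2 2 (.lc 2 2 (.lc 2 2 (.lc 3 1 (.lc 3 7 (.lc 1 0 (.lc 1 0 (.lc 3 0 (.lc 3 1 (.lc 3 8 (.conf [20,97] (.node [82,103,112] 0 5 (.node [] 4 6 (.lc 1 7 (.lc 2 8 (.lc 0 7 (.lc 3 8 (.lc 3 9 (.lc 0 8 (.lc 3 9 (.lc 1 0 (.lc 3 8 (.lc 3 8 (.lc 3 9 (.lc 0 8 (.lc 4 9 (.lc 4 10 (.lc 4 9 (.lc 4 9 (.lc 4 9 (.lc 5 10 .stop))))))))))))))))))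
 .stop)
 (.lc 1 0 (.lc 1 0 (.node [82,96,117] 6 0 (.lc 2 1 (.lc 1 0 (.lc 3 8 .stop)))
 (.node [82,104,117] 7 5 (.lc 1 2 (.lc 1 2 (.lc 0 0 (.lc 1 2 (.lc 2 2 (.lc 1 0 (.lc 2 2 (.lc 2 2 (.lc 1 0 (.lc 1 0 (.lc 2 2 (.lc 2 2 (.lc 2 2 (.lc 2 2 (.lc 2 2 (.lc 1 0 (.lc 1 0 (.lc 2 2 (.lc 2 2 (.lc 1 0 (.lc 1 0 (.lc 2 2 (.lc 1 0 (.lc 2 2 (.lc 2 2 (.lc 2 2 (.lc 3 0 (.lc 1 0 (.lc 2 2 (.lc 2 2 (.lc 2 0 (.lc 2 0 (.lc 3 2 (.lc 3 2 (.lc 2 0 (.lc 2 0 (.lc 3 2 (.lc 3 2 (.lc 3 2 (.lc 3 2 (.lc 3 2 (.lc 2 0 (.lc 2 0 (.lc 2 0 (.lc 2 0 (.lc 2 0 (.lc 3 0 (.lc 3 0 .stop))))))))))))))))))))))))))))))))))))))))))))))))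
 (.lc 2 2 (.lc 2 2 (.lc 2 2 (.lc 2 2 (.lc 2 2 (.lc 2 2 (.lc 2 2 (.lc 2 2 (.lc 2 2 (.lc 2 2 (.lc 2 2 (.lc 3 1 (.lc 3 7 (.lc 3 7 (.lc 2 2 (.lc 1 0 (.lc 3 0 (.lc 3 8 (.lc 3 2 (.lc 3 2 (.lc 3 2 (.lc 3 2 (.lc 3 2 (.lc 3 2 (.lc 4 7 (.lc 4 8 (.lc 2 0 (.lc 2 0 (.lc 4 1 (.lc 4 8 (.lc 4 0 (.lc 4 9 (.lc 3 2 (.lc 3 2 (.lc 3 2 (.lc 3 2 (.lc 3 2 (.lc 3 2 (.lc 3 2 (.lc 3 2 (.lc 3 2 (.lc 3 2 (.lc 3 2 (.lc 3 2 (.lc 3 2 (.lc 3 2 (.lc 3 2 (.lc 3 2 (.lc 3 2 (.lc 3 2 (.lc 3 2 (.lc 3 2 (.lc 3 2 (.lc 4 2 (.lc 4 2 (.lc 4 2 (.lc 4 2 (.lc 4 2 (.lc 4 2 (.lc 4 2 (.lc 4 2 .stop)))))))))))))))))))))))))))))))))))))))))))))))))))))))))))))))))))))))))))))))))))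
 (.node [80] 6 5 (.lc 1 0 (.lc 1 0 (.lc 1 1 (.node [103,112] 4 6 (.lc 1 7 (.lc 2 8 (.lc 0 7 (.lc 3 8 (.lc 3 9 (.lc 0 8 (.lc 3 9 (.lc 1 0 (.lc 3 8 (.lc 3 8 (.lc 3 9 (.lc 0 8 (.lc 4 9 (.lc 4 10 (.lc 4 9 (.lc 4 9 (.lc 4 9 (.lc 5 10 .stop))))))))))))))))))
 (.lc 2 0 (.lc 2 0 (.lc 2 0 (.node [97] 4 6 (.lc 2 7 (.lc 3 8 (.lc 3 8 (.lc 3 8 (.lc 4 9 .stop)))))
 (.node [103,112] 4 6 (.lc 1 7 (.lc 2 8 (.lc 0 7 (.lc 3 8 (.lc 3 9 (.lc 0 8 (.lc 3 9 (.conf [23,112] (.lc 3 8 (.lc 3 8 (.lc 3 9 (.lc 0 8 (.lc 4 9 (.lc 4 10 (.lc 4 9 (.lc 4 9 (.lc 4 9 (.lc 5 10 .stop))))))))))))))))))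
 (.lc 1 1 (.lc 3 7 (.lc 2 0 (.lc 2 0 (.conf [20,113] (.node [104,135,112] 4 6 (.lc 1 8 (.lc 2 9 (.lc 0 8 (.lc 3 9 (.lc 3 10 (.lc 0 9 (.lc 3 10 (.lc 1 7 (.lc 3 9 (.lc 3 9 (.lc 3 10 (.lc 0 9 (.lc 4 10 (.lc 4 11 (.lc 4 10 (.lc 4 10 (.lc 4 10 (.lc 5 11 .stop))))))))))))))))))
 (.lc 3 0 (.lc 2 1 (.lc 4 8 (.lc 4 7 (.lc 4 8 (.lc 4 7 (.lc 4 8 (.lc 5 8 (.lc 5 9 .stop))))))))))))))))))))))))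
 (.node [87,114] 6 5 (.lc 1 7 (.lc 1 7 (.lc 1 7 (.node [96,114] 6 0 (.lc 2 1 (.lc 1 0 (.lc 3 8 .stop)))
 (.node [104,135,114] 4 6 (.lc 2 0 (.lc 1 8 (.lc 2 9 (.lc 3 0 (.lc 0 8 (.lc 3 9 (.lc 3 9 (.lc 3 0 (.lc 3 10 (.lc 0 0 (.lc 3 9 (.lc 3 0 (.lc 0 9 (.lc 3 10 (.lc 3 0 (.lc 1 7 (.lc 3 9 (.lc 3 0 (.lc 3 9 (.lc 3 9 (.lc 3 0 (.lc 3 10 (.lc 0 0 (.lc 4 9 (.lc 4 0 (.lc 0 9 (.lc 4 10 (.lc 4 10 (.lc 4 10 (.lc 4 0 (.lc 4 11 (.lc 4 9 (.lc 4 0 (.lc 4 10 (.lc 4 9 (.lc 4 0 (.lc 4 10 (.lc 4 9 (.lc 4 0 (.lc 4 10 (.lc 5 10 (.lc 5 10 (.lc 5 0 (.lc 5 11 .stop))))))))))))))))))))))))))))))))))))))))))))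
 (.lc 2 7 (.lc 2 7 (.lc 2 7 (.lc 2 7 (.lc 2 7 (.lc 2 7 (.lc 2 7 (.lc 2 7 (.lc 2 7 (.lc 1 2 (.lc 1 2 (.lc 1 2 (.lc 3 0 (.lc 3 1 (.lc 3 8 (.lc 2 7 (.lc 2 7 (.lc 2 7 (.lc 2 7 (.lc 2 7 (.lc 2 2 (.lc 2 2 (.lc 2 2 (.lc 2 2 (.lc 3 7 (.lc 3 7 (.lc 3 7 (.lc 3 7 (.lc 3 7 (.lc 3 7 (.lc 4 1 (.lc 4 8 (.lc 4 0 (.lc 4 9 (.lc 4 1 (.lc 4 8 (.lc 4 8 (.lc 4 0 (.lc 4 9 (.lc 4 1 (.lc 4 8 (.lc 4 0 (.lc 4 1 (.lc 4 9 (.lc 5 8 (.lc 5 9 (.lc 5 1 (.lc 5 9 (.lc 5 0 (.lc 5 10 .stop)))))))))))))))))))))))))))))))))))))))))))))))))))))))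
 (.node [80] 6 5 (.lc 1 0 (.node [80,97] 1 5 (.lc 2 4 .stop)
 (.node [80,103] 4 6 (.lc 1 7 (.lc 2 8 (.lc 0 7 (.lc 3 8 (.lc 3 9 (.lc 0 8 (.lc 3 9 (.conf [23,117] (.lc 3 8 (.lc 3 8 (.lc 3 9 (.lc 0 8 (.lc 4 9 (.lc 4 10 (.lc 4 9 (.lc 4 9 (.lc 4 9 (.lc 5 10 .stop))))))))))))))))))
 (.lc 2 0 (.lc 2 0 (.lc 2 0 (.lc 3 1 (.lc 3 8 (.lc 2 0 (.node [80,104,117] 7 5 (.conf [1,112] (.lc 1 0 (.lc 1 0 (.lc 2 0 (.lc 2 0 (.lc 3 1 (.lc 2 0 (.lc 2 0 (.conf [20,113] (.lc 2 0 (.lc 2 0 (.lc 2 0 (.lc 2 0 (.lc 3 1 (.lc 3 9 (.lc 2 0 (.lc 2 0 (.lc 3 0 (.lc 4 9 (.lc 3 0 (.lc 3 0 (.lc 3 0 (.lc 3 0 (.lc 3 0 (.lc 4 0 .stop)))))))))))))))))))))))))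
 (.lc 2 0 (.lc 2 0 (.lc 2 0 (.lc 2 0 (.lc 2 0 (.lc 2 0 (.lc 2 0 (.lc 3 7 (.lc 3 8 (.lc 3 0 (.lc 3 0 (.lc 4 9 (.lc 3 0 (.lc 3 0 (.lc 3 0 (.lc 3 0 (.lc 3 0 (.lc 3 0 (.lc 4 0 .stop)))))))))))))))))))))))))))))
 (.node [87,114] 6 5 (.node [87,96] 0 5 (.conf [7,114] (.lc 1 7 (.lc 2 0 (.lc 1 2 (.lc 2 7 (.lc 2 0 (.lc 3 0 .stop)))))))
 (.node [87,97] 1 5 (.lc 2 4 (.lc 3 4 (.lc 3 4 (.lc 3 4 (.lc 3 4 (.lc 4 4 .stop))))))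
 (.lc 1 3 (.node [87,104] 5 7 (.lc 2 0 (.lc 2 1 (.node [114] 4 6 (.lc 2 0 (.lc 1 8 (.lc 2 9 (.lc 3 0 (.lc 0 8 (.lc 3 9 (.lc 3 9 (.lc 3 0 (.lc 3 10 (.lc 0 0 (.lc 3 9 (.lc 3 0 (.lc 0 9 (.lc 3 10 (.lc 3 0 (.lc 1 7 (.lc 3 9 (.lc 3 0 (.lc 3 7 (.lc 3 9 (.lc 3 9 (.lc 3 0 (.lc 3 10 (.lc 0 0 (.lc 4 9 (.lc 4 0 (.lc 0 9 (.lc 4 10 (.lc 4 10 (.lc 4 10 (.lc 4 0 (.lc 4 11 (.lc 4 9 (.lc 4 0 (.lc 4 10 (.lc 4 9 (.lc 4 0 (.lc 4 10 (.lc 4 9 (.lc 4 0 (.lc 4 10 (.lc 5 10 (.lc 5 10 (.lc 5 0 (.lc 5 11 .stop)))))))))))))))))))))))))))))))))))))))))))))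
 (.lc 2 9 (.lc 3 1 (.lc 2 2 (.lc 3 9 (.lc 2 2 (.lc 3 9 (.lc 3 0 (.lc 2 2 (.lc 3 10 (.lc 3 3 (.lc 3 3 (.lc 3 1 (.node [114,128] 0 7 .stop
 (.lc 3 9 (.lc 3 0 (.node [114,137] 6 8 (.lc 2 0 (.lc 2 1 (.lc 2 10 (.lc 3 0 (.lc 3 10 (.lc 0 0 (.lc 1 8 (.lc 0 10 (.lc 3 1 (.lc 3 10 (.lc 3 0 (.lc 3 11 (.lc 3 0 (.lc 3 1 (.lc 3 10 (.lc 0 9 (.lc 0 0 (.lc 0 10 (.lc 4 1 (.lc 4 10 (.lc 4 0 (.lc 4 11 (.lc 0 10 (.lc 0 0 (.lc 0 11 (.lc 0 0 (.lc 0 10 (.lc 0 0 (.lc 0 10 (.lc 0 0 (.lc 1 9 (.lc 0 10 (.lc 0 10 (.lc 0 0 (.lc 0 11 .stop)))))))))))))))))))))))))))))))))))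
 (.lc 3 10 (.lc 3 1 (.lc 2 2 (.lc 3 9 (.lc 3 0 (.lc 3 1 (.lc 2 2 (.lc 3 10 (.lc 3 3 (.lc 3 3 (.lc 3 3 (.lc 3 3 (.lc 3 3 (.lc 3 3 (.lc 3 2 (.lc 4 9 (.lc 3 2 (.lc 4 10 (.lc 4 1 (.lc 3 2 (.lc 4 10 (.lc 4 0 (.lc 3 2 (.lc 4 11 (.lc 4 3 (.lc 4 3 (.lc 4 3 (.lc 4 3 (.lc 4 3 (.lc 4 3 (.lc 4 3 (.lc 4 3 (.lc 4 3 (.lc 4 3 (.lc 4 3 (.lc 4 3 (.lc 4 3 (.lc 4 3 (.lc 4 3 (.lc 4 3 (.lc 4 3 (.lc 4 3 (.lc 5 3 (.lc 5 3 (.lc 5 3 (.lc 5 3 (.lc 5 3 (.lc 5 3 .stop)))))))))))))))))))))))))))))))))))))))))))))))))))))))))))))))))))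
 (.lc 2 7 (.lc 2 7 (.lc 2 7 (.lc 2 7 (.lc 2 7 (.lc 3 1 (.lc 3 8 (.lc 2 3 (.lc 2 3 (.lc 2 3 (.lc 3 0 (.lc 3 1 (.lc 3 9 (.conf [20,97] (.node [87,104,128] 0 5 .stop
 (.lc 2 3 (.lc 2 3 (.node [87,96,133] 6 0 (.lc 2 1 (.lc 1 0 (.lc 3 9 .stop)))
 (.node [87,105,133] 5 7 (.lc 2 0 (.lc 2 1 (.node [114] 8 7 (.lc 1 2 (.lc 1 2 (.lc 0 6 (.lc 1 2 (.lc 3 0 (.lc 1 0 (.lc 2 2 (.lc 2 2 (.lc 2 2 (.lc 2 2 (.lc 1 7 (.lc 2 2 (.lc 2 2 (.lc 1 0 (.lc 1 0 (.lc 2 2 (.lc 2 2 (.lc 1 6 (.lc 2 2 (.lc 2 0 (.lc 3 2 (.lc 3 2 (.lc 2 7 (.lc 3 2 (.lc 3 2 (.far [1,4096,1,0,1,257] 4096 (.lc 2 0 (.lc 2 0 (.lc 2 0 (.lc 3 0 .stop))))))))))))))))))))))))))))))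
 (.lc 2 10 (.lc 3 1 (.lc 2 2 (.lc 3 10 (.lc 2 2 (.lc 3 10 (.lc 3 0 (.lc 2 2 (.lc 3 11 (.lc 3 3 (.lc 3 3 (.lc 3 1 (.lc 0 0 (.lc 3 10 (.lc 3 0 (.lc 0 10 (.lc 3 11 (.lc 3 1 (.lc 2 2 (.lc 3 10 (.lc 3 0 (.lc 3 1 (.lc 2 2 (.lc 3 11 (.lc 3 3 (.lc 3 3 (.lc 3 3 (.lc 3 3 (.lc 3 3 (.lc 3 3 (.lc 3 2 (.lc 4 10 (.lc 3 2 (.lc 4 11 (.lc 4 1 (.lc 3 2 (.lc 4 11 (.lc 4 0 (.lc 3 2 (.lc 4 12 (.lc 4 3 (.lc 4 3 (.lc 4 3 (.lc 4 3 (.lc 4 3 (.lc 4 3 (.lc 4 3 (.lc 4 3 (.lc 4 3 (.lc 4 3 (.lc 4 3 (.lc 4 3 (.lc 4 3 (.lc 4 3 (.lc 4 3 (.lc 4 3 (.lc 4 3 (.lc 4 3 (.lc 5 3 (.lc 5 3 (.lc 5 3 (.lc 5 3 (.lc 5 3 (.lc 5 3 .stop)))))))))))))))))))))))))))))))))))))))))))))))))))))))))))))))))))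
 (.lc 2 7 (.lc 2 7 (.lc 2 7 (.lc 2 7 (.lc 2 7 (.lc 2 7 (.lc 2 7 (.lc 2 7 (.lc 2 7 (.lc 2 7 (.lc 2 7 (.lc 3 1 (.lc 3 8 (.lc 3 8 (.lc 2 3 (.lc 2 3 (.lc 3 0 (.lc 3 9 (.lc 3 7 (.lc 3 7 (.lc 3 7 (.lc 3 7 (.lc 3 7 (.lc 3 7 (.lc 4 8 (.lc 4 9 (.lc 3 3 (.lc 3 3 (.lc 3 3 (.lc 3 3 (.lc 4 1 (.lc 4 9 (.lc 4 0 (.lc 4 10 (.lc 3 7 (.lc 3 7 (.lc 3 7 (.lc 3 7 (.lc 3 7 (.lc 3 7 (.lc 3 7 (.lc 3 7 (.lc 3 7 (.lc 3 7 (.lc 3 7 (.lc 3 7 (.lc 3 7 (.lc 3 7 (.lc 3 7 (.lc 3 7 (.lc 3 7 (.lc 3 7 (.lc 3 7 (.lc 3 7 (.lc 3 7 (.lc 4 7 (.lc 4 7 (.lc 4 7 (.lc 4 7 (.lc 4 7 (.lc 4 7 (.lc 4 7 (.lc 4 7 .stop))))))))))))))))))))))))))))))))))))))))))))))))))))))))))))))))))))))))))))))))))))))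
 (.node [80] 6 5 (.lc 1 0 (.lc 1 0 (.conf [20,97] (.conf [1,112] (.lc 2 0 (.lc 2 0 (.lc 2 0 (.lc 1 1 (.lc 3 1 (.lc 3 7 (.lc 2 0 (.lc 2 0 (.lc 2 1 (.lc 3 0 (.lc 4 7 (.lc 4 8 (.lc 2 1 (.lc 2 1 (.lc 3 1 .stop)))))))))))))))))))
 (.node [87,114] 6 5 (.lc 1 7 (.lc 1 7 (.lc 1 7 (.lc 1 2 (.lc 1 2 (.lc 2 7 (.lc 2 7 (.lc 2 7 (.lc 2 7 (.lc 2 7 (.lc 2 7 (.lc 2 7 (.lc 2 7 (.lc 2 7 (.node [96,114] 0 7 (.far [257,1,0,1,257] 4096 .stop)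
 (.node [97,114] 1 7 .stop
 (.node [104,114] 8 7 (.lc 0 0 (.lc 1 0 (.lc 1 0 (.lc 1 0 (.lc 1 0 (.far [257,1,0,1,257] 4096 (.lc 1 0 (.lc 2 0 (.lc 2 0 .stop)))))))))
 (.lc 3 0 (.lc 3 1 (.lc 3 8 (.lc 2 7 (.lc 2 7 (.lc 2 7 (.lc 2 7 (.lc 2 7 (.conf [20,97] (.node [104,114,128] 0 7 (.node [] 4 6 (.lc 1 8 (.lc 2 9 (.lc 0 8 (.lc 3 9 (.lc 3 10 (.lc 0 9 (.lc 3 10 (.lc 1 0 (.lc 3 9 (.lc 3 9 (.lc 3 10 (.lc 0 9 (.lc 4 10 (.lc 4 11 (.lc 4 10 (.lc 4 10 (.lc 4 10 (.lc 5 11 .stop))))))))))))))))))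
 .stop)
 (.node [96,114,135] 6 0 (.lc 2 1 (.lc 1 0 (.lc 3 9 .stop)))
 (.node [105,114,135] 8 7 (.lc 0 0 (.lc 1 0 (.lc 1 0 (.lc 1 0 (.lc 1 0 (.lc 3 0 (.lc 1 0 (.lc 2 0 (.lc 2 0 .stop)))))))))
 (.lc 3 7 (.lc 3 7 (.lc 3 7 (.lc 3 7 (.lc 3 7 (.lc 3 7 (.lc 4 1 (.lc 4 8 (.lc 4 0 (.lc 4 9 (.lc 4 1 (.lc 4 8 (.lc 4 8 (.lc 4 0 (.lc 4 9 (.lc 4 1 (.lc 4 8 (.lc 4 0 (.lc 4 1 (.lc 4 9 (.lc 5 8 (.lc 5 9 (.lc 5 1 (.lc 5 9 (.lc 5 0 (.lc 5 10 .stop)))))))))))))))))))))))))))))))))))))))))))))))))))))))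
 (.node [87,112] 6 5 (.lc 1 7 (.lc 1 7 (.lc 1 0 (.lc 2 7 (.lc 2 7 (.lc 2 7 (.node [97,112] 1 7 (.lc 2 4 .stop)
 (.node [104,112] 8 7 (.conf [1,128] (.node [129] 6 8 (.lc 2 9 (.lc 3 9 (.lc 0 9 (.lc 3 10 (.lc 1 0 (.lc 0 9 (.lc 0 10 .stop)))))))
 (.conf [20,129] (.conf [20,129] (.conf [1,144] (.lc 1 0 (.conf [20,145] .stop)))))))
 (.lc 3 1 (.lc 3 8 (.lc 2 7 (.lc 2 7 (.node [105,112,135] 8 7 (.conf [1,128] (.lc 3 1 (.conf [20,129] (.lc 3 1 (.lc 3 10 (.lc 1 0 (.lc 4 10 .stop)))))))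
 (.lc 3 7 (.lc 4 9 (.lc 4 8 (.lc 4 9 (.lc 4 1 (.lc 4 9 (.lc 5 10 .stop))))))))))))))))))))
 (.node [88,135,114] 6 5 (.lc 1 8 (.lc 1 8 (.lc 1 8 (.lc 1 7 (.lc 1 7 (.lc 2 8 (.lc 2 8 (.lc 2 8 (.lc 2 8 (.lc 2 8 (.lc 2 8 (.lc 2 8 (.lc 2 8 (.lc 2 8 (.node [96,135] 0 8 (.conf [7,114] (.lc 1 2 .stop))
 (.node [97,135] 1 8 (.lc 3 4 .stop)
 (.node [105,135] 8 7 (.node [114] 6 9 (.lc 2 0 (.lc 2 1 (.lc 2 7 (.lc 2 10 (.lc 3 1 (.lc 3 10 (.lc 3 10 (.lc 1 9 (.lc 3 0 (.lc 3 11 (.lc 0 0 (.lc 1 9 (.lc 0 10 (.lc 3 1 (.lc 3 10 (.lc 3 0 (.lc 3 11 (.lc 3 1 (.lc 3 10 (.lc 3 0 (.lc 3 1 (.lc 3 11 (.lc 0 0 (.lc 2 7 (.lc 0 10 (.lc 0 0 (.lc 0 7 (.lc 0 10 (.lc 4 10 (.lc 4 11 (.lc 4 1 (.lc 4 11 (.lc 4 0 (.lc 4 12 (.lc 0 10 (.lc 0 0 (.lc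 0 11 (.lc 0 10 (.lc 0 0 (.lc 0 11 (.lc 0 10 (.lc 0 0 (.lc 0 11 (.lc 1 0 (.lc 0 10 (.lc 0 0 (.lc 1 10 (.lc 0 11 (.lc 0 11 (.lc 0 11 (.lc 0 0 (.lc 0 12 .stop))))))))))))))))))))))))))))))))))))))))))))))))))))
 (.lc 2 2 (.lc 2 2 (.lc 1 6 (.lc 2 2 (.node [114,144] 0 7 .stop
 (.node [114,154] 6 9 (.lc 2 0 (.lc 2 1 (.lc 2 11 (.lc 3 0 (.lc 3 11 (.lc 0 0 (.lc 1 9 (.lc 0 11 (.lc 3 1 (.lc 3 11 (.lc 3 0 (.lc 3 12 (.lc 3 0 (.lc 3 1 (.lc 3 11 (.lc 0 10 (.lc 0 0 (.lc 0 11 (.lc 4 1 (.lc 4 11 (.lc 4 0 (.lc 4 12 (.lc 0 11 (.lc 0 0 (.lc 0 12 (.lc 0 0 (.lc 0 11 (.lc 0 0 (.lc 0 11 (.lc 0 0 (.lc 1 10 (.lc 0 11 (.lc 0 11 (.lc 0 0 (.lc 0 12 .stop)))))))))))))))))))))))))))))))))))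
 (.lc 2 2 (.lc 2 2 (.lc 3 2 (.lc 3 2 (.lc 2 7 (.lc 3 2 (.lc 3 2 .stop))))))))))))))
 (.lc 3 0 (.lc 3 1 (.lc 3 9 (.lc 2 8 (.lc 2 8 (.lc 2 8 (.lc 2 8 (.lc 2 8 (.conf [20,97] (.node [105,135,144] 0 8 .stop
 (.node [96,135,152] 6 0 (.lc 2 1 (.lc 1 0 (.lc 3 10 .stop)))
 (.node [106,135,152] 9 8 (.node [114] 9 7 (.lc 1 2 (.lc 1 2 (.lc 0 6 (.lc 1 2 (.lc 3 0 (.lc 1 0 (.lc 2 2 (.lc 2 2 (.lc 2 2 (.lc 2 2 (.lc 1 7 (.lc 2 2 (.lc 2 2 (.lc 1 0 (.lc 1 0 (.lc 2 2 (.lc 2 2 (.lc 1 6 (.lc 2 2 (.lc 2 0 (.lc 3 2 (.lc 3 2 (.lc 2 7 (.lc 3 2 (.lc 3 2 (.far [1,257,1,0,1,257] 4096 (.lc 2 0 (.lc 2 0 (.lc 2 0 (.lc 3 0 .stop))))))))))))))))))))))))))))))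
 (.lc 1 2 (.lc 1 2 (.lc 0 6 (.lc 1 2 (.lc 1 2 (.lc 1 2 (.lc 3 0 (.lc 3 11 (.lc 2 2 (.lc 2 2 (.lc 1 7 (.lc 2 2 (.lc 2 2 .stop))))))))))))))
 (.lc 3 8 (.lc 3 8 (.lc 3 8 (.lc 3 8 (.lc 3 8 (.lc 3 8 (.lc 4 1 (.lc 4 9 (.lc 4 0 (.lc 4 10 (.lc 4 1 (.lc 4 9 (.lc 4 9 (.lc 4 0 (.lc 4 10 (.lc 4 1 (.lc 4 9 (.lc 4 0 (.lc 4 1 (.lc 4 10 (.lc 5 9 (.lc 5 10 (.lc 5 1 (.lc 5 10 (.lc 5 0 (.lc 5 11 .stop)))))))))))))))))))))))))))))))))))))))))))))))))))))))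
 .stop)))))))))
 (.node [50,69,80] 0 3 .stop
 (.node [50,83,50,64] 4 0 (.lc 2 6 (.lc 3 7 .stop))
 (.node [50,83,50,70] 5 3 (.lc 1 2 (.lc 1 2 (.node [80] 6 5 (.lc 1 0 (.lc 1 0 (.conf [20,97] (.conf [1,112] (.lc 2 0 (.lc 2 0 (.lc 2 0 (.node [97] 4 6 (.lc 2 7 (.lc 3 8 (.lc 3 8 (.lc 3 8 (.lc 4 9 .stop)))))
 (.lc 3 1 (.lc 3 7 (.lc 2 0 (.lc 2 0 (.conf [20,113] (.lc 3 0 (.lc 4 7 (.lc 4 8 (.lc 4 7 (.lc 4 7 (.lc 5 8 .stop)))))))))))))))))))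
 (.node [87,114] 5 7 (.lc 2 0 (.lc 2 1 (.lc 2 8 (.lc 3 1 (.lc 3 8 (.lc 3 8 (.lc 3 0 (.lc 3 9 (.node [96,114] 0 7 .stop
 (.node [104,114] 4 6 (.lc 2 0 (.lc 2 8 (.lc 2 9 (.lc 3 9 (.lc 3 0 (.lc 3 10 (.lc 0 0 (.conf [24,135] (.lc 2 8 (.lc 3 9 (.lc 3 0 (.lc 3 9 (.lc 3 0 (.lc 3 10 (.lc 3 9 (.lc 3 0 (.lc 3 10 (.lc 0 0 (.lc 2 8 (.lc 0 0 (.lc 1 7 (.lc 2 8 (.lc 4 10 (.lc 4 10 (.lc 4 0 (.lc 4 11 (.lc 0 0 (.conf [25,152] (.lc 0 0 (.lc 3 8 (.lc 0 0 (.lc 3 8 (.lc 0 0 (.lc 3 8 (.lc 0 0 (.lc 3 8 (.lc 0 0 (.lc 4 8 .stop))))))))))))))))))))))))))))))))))))))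
 (.lc 3 1 (.lc 3 8 (.lc 3 0 (.lc 3 9 (.lc 3 1 (.lc 3 8 (.lc 3 0 (.lc 3 1 (.lc 3 9 (.lc 2 2 (.lc 2 2 (.lc 2 2 (.lc 0 0 (.lc 0 1 (.lc 0 8 (.lc 4 8 (.lc 4 9 (.lc 4 1 (.lc 4 9 (.lc 4 0 (.lc 4 10 (.lc 0 1 (.lc 0 8 (.lc 0 0 (.lc 0 9 (.lc 0 1 (.lc 0 8 (.lc 0 8 (.lc 0 0 (.lc 0 9 (.lc 0 1 (.lc 0 8 (.lc 0 0 (.lc 0 1 (.lc 0 9 (.lc 3 2 (.lc 3 2 (.lc 3 2 (.lc 3 2 (.lc 0 8 (.lc 0 9 (.lc 0 1 (.lc 0 9 (.lc 0 0 (.lc 0 10 .stop)))))))))))))))))))))))))))))))))))))))))))))))))))))))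
 (.lc 2 2 (.lc 2 2 (.lc 2 2 (.lc 2 2 (.lc 2 2 (.lc 2 2 (.node [80] 6 5 (.lc 1 0 (.lc 1 0 (.conf [20,97] (.node [103,112] 4 6 (.lc 2 7 (.lc 2 8 (.lc 3 9 (.conf [23,112] (.lc 2 7 (.lc 3 8 (.lc 3 9 (.lc 3 9 (.lc 2 7 (.lc 1 0 (.lc 2 7 (.lc 4 10 (.conf [24,135] (.lc 3 7 (.lc 3 7 (.lc 3 7 (.lc 3 7 (.lc 4 7 .stop))))))))))))))))))
 (.lc 2 0 (.lc 2 0 (.lc 2 0 (.node [97] 4 6 (.lc 2 7 (.lc 3 8 (.lc 3 8 (.lc 3 8 (.lc 4 9 .stop)))))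
 (.node [103,112] 4 6 (.lc 2 7 (.lc 2 8 (.lc 3 9 (.lc 1 0 (.lc 2 7 (.lc 3 8 (.lc 3 9 (.lc 3 9 (.lc 2 7 (.far [16,257,257,1,1] 4096 (.lc 2 7 (.lc 4 10 (.lc 2 0 (.lc 3 7 (.lc 3 7 (.lc 3 7 (.lc 3 7 (.lc 4 7 .stop))))))))))))))))))
 (.lc 3 1 (.lc 3 7 (.lc 2 0 (.lc 2 0 (.conf [20,113] (.node [104,135,112] 4 6 (.lc 2 8 (.lc 2 9 (.lc 3 10 (.conf [24,135] (.lc 2 8 (.lc 3 9 (.lc 3 10 (.lc 3 10 (.lc 2 8 (.lc 1 7 (.lc 2 8 (.lc 4 11 (.conf [25,152] (.lc 3 8 (.lc 3 8 (.lc 3 8 (.lc 3 8 (.lc 4 8 .stop))))))))))))))))))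
 (.lc 3 0 (.lc 4 7 (.lc 4 8 (.lc 4 7 (.lc 4 8 (.lc 4 7 (.lc 4 8 (.lc 5 8 (.lc 5 9 .stop))))))))))))))))))))))))
 (.node [87,114] 6 5 (.lc 1 7 (.lc 1 7 (.lc 1 7 (.node [96,114] 6 0 (.lc 2 1 (.lc 3 8 (.lc 1 0 (.lc 3 8 (.lc 3 8 (.lc 4 9 .stop))))))
 (.node [104,135,114] 4 6 (.lc 2 0 (.lc 2 8 (.lc 2 9 (.lc 3 9 (.lc 3 0 (.lc 3 10 (.lc 0 0 (.conf [24,135] (.lc 2 8 (.lc 3 9 (.lc 3 0 (.lc 3 9 (.lc 3 0 (.lc 3 10 (.lc 3 9 (.lc 3 0 (.lc 3 10 (.lc 0 0 (.lc 2 8 (.lc 0 0 (.lc 1 7 (.lc 2 8 (.lc 4 10 (.lc 4 10 (.lc 4 0 (.lc 4 11 (.lc 0 0 (.conf [25,152] (.lc 0 0 (.lc 3 8 (.lc 0 0 (.lc 3 8 (.lc 0 0 (.lc 3 8 (.lc 0 0 (.lc 3 8 (.lc 0 0 (.lc 4 8 .stop))))))))))))))))))))))))))))))))))))))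
 (.lc 2 7 (.lc 2 7 (.lc 2 7 (.lc 2 7 (.lc 2 7 (.lc 2 7 (.lc 2 7 (.lc 2 7 (.lc 2 7 (.node [96,114] 0 7 (.lc 1 2 (.lc 2 2 .stop))
 (.node [97,114] 1 4 (.lc 1 6 (.lc 2 6 .stop))
 (.node [104,114] 4 6 (.lc 2 0 (.lc 2 8 (.lc 2 9 (.lc 3 9 (.lc 3 0 (.lc 3 10 (.lc 0 0 (.lc 1 7 (.lc 2 8 (.lc 3 9 (.lc 3 0 (.lc 3 9 (.lc 3 0 (.lc 3 10 (.lc 3 9 (.lc 3 0 (.lc 3 10 (.lc 0 0 (.lc 2 8 (.lc 0 0 (.conf [24,135] (.lc 2 8 (.lc 4 10 (.lc 4 10 (.lc 4 0 (.lc 4 11 (.lc 0 0 (.lc 2 7 (.lc 0 0 (.lc 3 8 (.lc 0 0 (.lc 3 8 (.lc 0 0 (.lc 3 8 (.lc 0 0 (.lc 3 8 (.lc 0 0 (.lc 4 8 .stop))))))))))))))))))))))))))))))))))))))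
 (.lc 3 0 (.lc 3 1 (.lc 3 8 (.lc 2 7 (.lc 2 7 (.lc 2 7 (.lc 2 7 (.lc 2 7 (.conf [20,97] (.node [104,114,128] 0 7 .stop
 (.node [96,114,135] 6 0 (.lc 2 1 (.lc 3 9 (.lc 1 0 (.lc 3 9 (.lc 3 9 (.lc 4 10 .stop))))))
 (.node [105,114,135] 4 6 (.lc 2 0 (.lc 2 9 (.lc 2 10 (.lc 3 10 (.lc 3 0 (.lc 3 11 (.lc 0 0 (.conf [25,152] (.lc 2 9 (.lc 3 10 (.lc 3 0 (.lc 3 10 (.lc 3 0 (.lc 3 11 (.lc 3 10 (.lc 3 0 (.lc 3 11 (.lc 0 0 (.lc 2 9 (.lc 0 0 (.lc 1 8 (.lc 2 9 (.lc 4 11 (.lc 4 11 (.lc 4 0 (.lc 4 12 (.lc 0 0 (.conf [26,169] (.lc 0 0 (.lc 3 9 (.lc 0 0 (.lc 3 9 (.lc 0 0 (.lc 3 9 (.lc 0 0 (.lc 3 9 (.lc 0 0 (.lc 4 9 .stop))))))))))))))))))))))))))))))))))))))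
 (.lc 3 7 (.lc 3 7 (.lc 3 7 (.lc 3 7 (.lc 3 7 (.lc 3 7 (.lc 4 1 (.lc 4 8 (.lc 4 0 (.lc 4 9 (.lc 4 1 (.lc 4 8 (.lc 4 8 (.lc 4 0 (.lc 4 9 (.lc 4 1 (.lc 4 8 (.lc 4 0 (.lc 4 1 (.lc 4 9 (.lc 5 8 (.lc 5 9 (.lc 5 1 (.lc 5 9 (.lc 5 0 (.lc 5 10 .stop)))))))))))))))))))))))))))))))))))))))))))))))))))))))
 (.lc 3 0 (.lc 3 7 (.lc 2 2 (.lc 2 2 (.lc 2 2 (.node [87,112] 5 7 (.lc 2 1 (.lc 2 8 (.lc 3 8 (.lc 3 9 (.node [104,112] 4 6 (.lc 2 8 (.lc 2 9 (.lc 3 10 (.conf [24,135] (.lc 2 8 (.lc 3 9 (.lc 3 10 (.lc 3 10 (.lc 0 0 (.lc 2 8 (.lc 0 0 (.lc 1 7 (.lc 2 8 (.lc 4 11 (.conf [25,152] (.lc 3 8 (.lc 3 8 (.lc 0 0 (.lc 3 8 (.lc 3 8 (.lc 4 8 .stop)))))))))))))))))))))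
 (.lc 3 9 (.lc 3 1 (.lc 3 9 (.lc 2 0 (.lc 2 0 (.lc 0 1 (.lc 0 8 (.lc 4 10 (.lc 0 9 (.lc 0 8 (.lc 0 9 (.lc 0 1 (.lc 0 9 (.lc 3 0 (.lc 0 10 .stop))))))))))))))))))))
 (.node [88,135,114] 5 8 (.lc 2 0 (.lc 2 1 (.lc 2 9 (.lc 3 1 (.lc 3 9 (.lc 3 9 (.lc 3 0 (.lc 3 10 (.node [96,135] 0 8 .stop
 (.node [105,135] 4 6 (.lc 2 0 (.lc 2 7 (.lc 2 9 (.lc 2 10 (.lc 3 10 (.lc 3 0 (.lc 3 10 (.lc 3 0 (.lc 3 11 (.lc 0 0 (.conf [25,152] (.lc 2 9 (.lc 3 10 (.lc 3 0 (.lc 3 10 (.lc 3 0 (.lc 3 11 (.lc 3 7 (.lc 3 10 (.lc 3 0 (.lc 3 7 (.lc 3 11 (.lc 0 0 (.lc 2 9 (.lc 2 9 (.lc 0 0 (.lc 2 9 (.lc 1 8 (.lc 2 9 (.lc 4 11 (.lc 4 11 (.lc 4 0 (.lc 4 12 (.lc 0 0 (.conf [26,169] (.lc 0 0 (.lc 3 9 (.lc 0 0 (.lc 3 9 (.lc 0 0 (.lc 3 9 (.lc 0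 0 (.lc 3 9 (.lc 3 9 (.lc 0 0 (.lc 3 9 (.lc 0 0 (.lc 4 9 .stop))))))))))))))))))))))))))))))))))))))))))))))))
 (.lc 3 1 (.lc 3 9 (.lc 3 0 (.lc 3 10 (.lc 3 1 (.lc 3 9 (.lc 3 0 (.lc 3 1 (.lc 3 10 (.lc 2 7 (.lc 2 7 (.lc 2 7 (.lc 0 0 (.lc 0 1 (.lc 0 9 (.lc 4 9 (.lc 4 10 (.lc 4 1 (.lc 4 10 (.lc 4 0 (.lc 4 11 (.lc 0 1 (.lc 0 9 (.lc 0 0 (.lc 0 10 (.lc 0 1 (.lc 0 9 (.lc 0 9 (.lc 0 0 (.lc 0 10 (.lc 0 1 (.lc 0 9 (.lc 0 0 (.lc 0 1 (.lc 0 10 (.lc 3 7 (.lc 3 7 (.lc 3 7 (.lc 3 7 (.lc 0 9 (.lc 0 10 (.lc 0 1 (.lc 0 10 (.lc 0 0 (.lc 0 11 .stop)))))))))))))))))))))))))))))))))))))))))))))))))))))))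
 (.lc 3 2 (.lc 3 2 (.lc 3 2 (.lc 3 2 (.lc 4 7 (.lc 4 8 (.lc 4 7 (.lc 4 8 (.lc 4 7 (.lc 4 8 (.lc 5 8 (.lc 5 9 .stop)))))))))))))))))))))))))))))))
 (.node [50,69,80,69,50] 0 3 .stop
 (.node [50,64,83,50] 0 5 (.lc 1 3 (.node [83,101] 5 3 (.lc 1 2 (.lc 2 2 .stop))
 (.lc 2 3 (.node [83,101] 5 3 (.lc 1 2 (.lc 2 2 .stop))
 (.node [83,101,118] 5 3 (.lc 1 2 (.lc 2 2 .stop))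
 .stop)))))
 (.node [50,83,101,50,70] 5 3 (.lc 1 2 (.lc 1 2 (.node [80] 6 5 (.lc 1 0 (.lc 1 0 (.lc 3 1 (.lc 3 7 (.lc 2 0 (.lc 2 0 (.lc 2 0 (.lc 3 1 (.node [97] 4 6 (.lc 0 0 .stop)
 (.node [1,103] 4 6 (.conf [71,112] (.lc 3 8 (.lc 3 1 (.lc 1 0 (.lc 3 8 (.lc 4 9 .stop))))))
 (.lc 2 0 (.lc 2 0 (.lc 4 7 (.lc 3 0 (.conf [20,113] (.conf [1,112] (.node [103,113] 4 6 (.node [71] 4 7 (.lc 2 8 (.lc 3 9 .stop))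
 (.lc 3 8 (.lc 1 1 (.lc 3 8 (.lc 4 9 .stop)))))
 (.node [20,103] 4 6 (.conf [71,113] (.lc 3 8 (.lc 1 1 (.lc 3 8 (.lc 4 9 .stop)))))
 (.conf [20,113] .stop)))))))))))))))))))
 (.node [87,114] 6 5 (.lc 1 7 (.lc 1 7 (.lc 1 7 (.lc 3 0 (.lc 3 8 (.lc 2 7 (.lc 2 7 (.lc 2 7 (.lc 2 7 (.lc 2 7 (.lc 2 7 (.lc 2 7 (.lc 2 7 (.lc 2 7 (.lc 3 0 (.lc 3 1 (.lc 3 8 (.node [96,114] 6 0 (.conf [7,64] (.lc 0 8 (.lc 2 7 .stop)))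
 (.node [97,114] 6 1 (.lc 1 7 .stop)
 (.node [104,114] 4 6 (.node [72] 8 7 (.lc 1 2 (.lc 1 2 (.lc 0 7 (.lc 1 2 (.far [1,1,1,0,257,257] 4096 (.lc 1 0 (.lc 2 2 (.lc 2 2 (.lc 2 2 (.lc 2 2 (.lc 2 2 (.lc 2 2 (.lc 2 2 (.lc 0 1 (.lc 2 2 (.lc 2 2 (.lc 1 0 (.lc 1 0 (.lc 3 0 (.lc 1 0 (.lc 2 2 (.lc 2 2 (.lc 2 2 (.lc 2 2 (.lc 2 2 (.lc 2 0 (.lc 2 0 (.lc 3 2 (.lc 3 2 (.lc 3 2 (.lc 3 2 (.lc 3 2 (.lc 3 2 (.lc 4 9 (.lc 2 0 (.lc 2 0 (.lc 2 0 (.lc 2 0 (.lc 2 0 (.lc 3 0 (.lc 3 0 .stop)))))))))))))))))))))))))))))))))))))))))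
 (.lc 3 0 (.lc 3 9 (.node [64,135] 4 0 (.lc 0 0 .stop)
 (.lc 3 1 (.node [73,135] 8 7 (.lc 1 2 (.lc 1 2 (.lc 1 2 (.lc 3 0 (.lc 1 0 (.lc 2 2 (.lc 2 2 (.lc 2 2 (.lc 2 2 (.lc 2 2 (.lc 2 2 (.lc 1 0 (.lc 1 0 (.lc 1 0 (.lc 2 2 (.lc 2 2 (.lc 2 2 (.lc 2 0 (.lc 2 0 (.lc 3 2 (.lc 3 2 (.lc 3 2 (.lc 3 2 (.far [1,1,1,0,257,257] 4096 (.lc 2 0 (.lc 2 0 (.lc 2 0 (.lc 2 0 (.lc 2 0 (.lc 3 0 (.lc 3 0 .stop)))))))))))))))))))))))))))))))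
 (.lc 3 0 (.lc 3 9 (.lc 4 9 (.lc 4 0 (.lc 4 10 .stop)))))))))))
 (.lc 2 7 (.lc 2 7 (.lc 2 7 (.lc 2 7 (.lc 2 7 (.lc 4 1 (.lc 4 8 (.lc 4 0 (.lc 4 9 (.lc 3 7 (.lc 3 7 (.lc 3 7 (.lc 3 7 (.lc 3 7 (.lc 3 7 (.conf [20,97] (.node [104,114,128] 0 7 .stop
 (.node [96,114,135] 6 0 .stop
 (.node [105,114,135] 4 6 (.node [73] 4 9 (.lc 2 0 (.lc 1 8 (.lc 2 10 (.lc 3 0 (.lc 1 7 (.lc 3 10 (.lc 0 0 (.lc 3 1 (.lc 0 0 (.lc 3 10 (.lc 3 0 (.lc 2 8 (.lc 3 11 (.lc 3 0 (.conf [24,135] (.lc 3 10 (.lc 3 1 (.lc 0 0 (.lc 3 1 (.lc 0 0 (.lc 4 10 (.lc 4 0 (.conf [26,168] (.lc 4 11 (.lc 0 0 (.lc 4 1 (.lc 0 0 (.lc 4 1 (.lc 0 0 (.lc 4 1 (.lc 0 0 (.lc 4 1 (.lc 0 0 (.lc 5 1 .stop))))))))))))))))))))))))))))))))))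
 (.lc 3 0 (.lc 3 10 (.lc 1 8 (.lc 3 1 (.lc 1 8 (.lc 3 0 (.lc 3 10 (.lc 4 10 (.lc 4 0 (.lc 4 11 .stop)))))))))))
 (.lc 2 2 (.lc 2 2 (.lc 2 2 (.lc 2 2 (.lc 2 2 (.lc 2 2 (.lc 2 2 (.lc 2 2 (.lc 2 2 (.lc 2 2 (.lc 3 2 (.lc 3 2 (.lc 3 2 (.lc 3 2 (.lc 3 2 (.lc 3 2 .stop)))))))))))))))))))))))))))))))))))))))))))))))))))))))
 (.lc 2 2 (.lc 2 2 (.lc 2 2 (.lc 2 2 (.lc 2 2 (.lc 2 2 (.node [80] 6 5 (.lc 1 0 (.lc 1 0 (.lc 3 1 (.lc 3 7 (.lc 2 0 (.lc 2 0 (.lc 2 0 (.lc 3 1 (.lc 3 7 (.far [257,257,1,1] 16 (.node [103,112] 4 6 (.far [16,256,257,4096] 0 (.lc 3 8 (.lc 3 1 (.far [16,256,257,4096] 0 (.lc 3 8 (.lc 4 9 .stop))))))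
 (.lc 2 0 (.lc 2 0 (.lc 4 7 (.lc 4 8 (.lc 3 0 (.conf [20,113] (.node [104,135,112] 4 6 (.node [72] 4 8 (.lc 1 7 (.lc 2 9 (.lc 1 0 (.lc 3 9 (.lc 3 1 (.lc 2 7 (.lc 3 10 (.conf [23,112] (.lc 3 9 (.lc 3 1 (.lc 3 1 (.conf [25,151] (.lc 4 10 (.lc 4 1 (.lc 4 1 (.lc 4 1 (.lc 4 1 (.lc 5 1 .stop))))))))))))))))))
 (.lc 3 9 (.lc 3 1 (.lc 1 7 (.lc 3 9 (.lc 4 10 .stop))))))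
 (.node [103,113] 4 6 (.node [71] 4 7 (.lc 2 8 (.lc 3 9 .stop))
 (.lc 3 8 (.lc 1 1 (.lc 3 8 (.lc 4 9 .stop)))))
 (.node [104,135,112] 4 6 (.node [72] 4 8 (.lc 1 7 (.lc 2 9 (.far [256,0,257,256,0,4096] 17 (.lc 3 9 (.lc 3 1 (.lc 2 7 (.lc 3 10 (.lc 1 0 (.lc 3 9 (.lc 3 1 (.lc 3 1 (.lc 2 0 (.lc 4 10 (.lc 4 1 (.lc 4 1 (.lc 4 1 (.lc 4 1 (.lc 5 1 .stop))))))))))))))))))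
 (.lc 3 9 (.lc 3 1 (.lc 1 7 (.lc 3 9 (.lc 4 10 .stop))))))
 (.node [20,103] 4 6 (.conf [71,113] (.lc 3 8 (.lc 1 1 (.lc 3 8 (.lc 4 9 .stop)))))
 (.node [104,135,112] 4 6 (.far [16,256,257,4096] 0 (.lc 3 9 (.lc 3 1 (.far [16,256,257,4096] 0 (.lc 3 9 (.lc 4 10 .stop))))))
 (.conf [20,113] (.node [105,152,135,112] 4 6 (.node [73] 4 9 (.lc 1 8 (.lc 2 10 (.lc 1 7 (.lc 3 10 (.lc 3 1 (.lc 2 8 (.lc 3 11 (.conf [24,135] (.lc 3 10 (.lc 3 1 (.lc 3 1 (.conf [26,168] (.lc 4 11 (.lc 4 1 (.lc 4 1 (.lc 4 1 (.lc 4 1 (.lc 5 1 .stop))))))))))))))))))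
 (.lc 3 10 (.lc 3 1 (.lc 1 8 (.lc 3 10 (.lc 4 11 .stop))))))
 .stop))))))))))))))))))))))))
 (.node [87,114] 6 5 (.lc 1 7 (.lc 1 7 (.lc 1 7 (.lc 3 0 (.lc 3 8 (.lc 2 7 (.lc 2 7 (.lc 2 7 (.lc 2 7 (.lc 2 7 (.lc 2 7 (.lc 2 7 (.lc 2 7 (.lc 2 7 (.lc 3 0 (.lc 3 1 (.lc 3 8 (.node [96,114] 6 0 (.far [257,256,257,4096] 0 (.lc 0 8 (.lc 1 0 .stop)))
 (.node [97,114] 6 1 (.lc 1 7 .stop)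
 (.node [104,114] 4 6 (.far [16,256,257,4096] 0 (.lc 3 0 (.lc 3 9 (.far [16,256,257,4096] 0 (.lc 3 1 (.far [16,256,257,4096] 0 (.lc 3 0 (.lc 3 9 (.lc 4 9 (.lc 4 0 (.lc 4 10 .stop)))))))))))
 (.lc 2 7 (.lc 2 7 (.lc 2 7 (.lc 2 7 (.lc 2 7 (.lc 4 1 (.lc 4 8 (.lc 4 0 (.lc 4 9 (.lc 3 7 (.lc 3 7 (.lc 3 7 (.lc 3 7 (.lc 3 7 (.lc 3 7 (.conf [20,97] (.node [104,114,128] 4 6 (.node [72] 8 0 (.lc 2 1 (.lc 1 0 (.lc 3 9 (.lc 1 0 .stop))))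
 (.lc 3 9 (.lc 3 1 (.lc 1 0 (.lc 3 9 (.lc 4 10 .stop))))))
 (.node [96,114,135,114] 6 0 .stop
 (.node [105,114,135,114] 4 6 (.node [73] 4 9 (.lc 2 0 (.lc 1 8 (.lc 2 10 (.lc 3 0 (.lc 1 7 (.lc 3 10 (.lc 0 0 (.lc 3 1 (.lc 0 0 (.lc 3 10 (.lc 3 0 (.lc 2 8 (.lc 3 11 (.lc 3 0 (.conf [24,135] (.lc 3 10 (.lc 3 1 (.lc 0 0 (.lc 3 1 (.lc 0 0 (.lc 4 10 (.lc 4 0 (.conf [26,168] (.lc 4 11 (.lc 0 0 (.lc 4 1 (.lc 0 0 (.lc 4 1 (.lc 0 0 (.lc 4 1 (.lc 0 0 (.lc 4 1 (.lc 0 0 (.lc 5 1 .stop))))))))))))))))))))))))))))))))))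
 (.lc 3 0 (.lc 3 10 (.lc 1 8 (.lc 3 1 (.lc 1 8 (.lc 3 0 (.lc 3 10 (.lc 4 10 (.lc 4 0 (.lc 4 11 .stop)))))))))))
 (.conf [20,97] (.node [104,114,128] 0 7 (.lc 0 6 (.lc 1 2 (.lc 2 2 .stop)))
 (.node [104,114,129] 1 7 (.lc 2 4 (.lc 3 4 .stop))
 (.node [96,114,135] 6 0 .stop
 (.node [105,114,152] 4 6 (.node [73] 4 9 (.lc 2 0 (.lc 1 8 (.lc 2 10 (.lc 3 0 (.conf [24,135] (.lc 3 10 (.lc 0 0 (.lc 3 1 (.lc 0 0 (.lc 3 10 (.lc 3 0 (.lc 2 8 (.lc 3 11 (.lc 3 0 (.lc 1 7 (.lc 3 10 (.lc 3 1 (.lc 0 0 (.lc 3 1 (.lc 0 0 (.lc 4 10 (.lc 4 0 (.lc 2 7 (.lc 4 11 (.lc 0 0 (.lc 4 1 (.lc 0 0 (.lc 4 1 (.lc 0 0 (.lc 4 1 (.lc 0 0 (.lc 4 1 (.lc 0 0 (.lc 5 1 .stop))))))))))))))))))))))))))))))))))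
 (.lc 3 0 (.lc 3 10 (.lc 1 8 (.lc 3 1 (.lc 1 8 (.lc 3 0 (.lc 3 10 (.lc 4 10 (.lc 4 0 (.lc 4 11 .stop)))))))))))
 (.far [257,257,1,1] 16 (.node [104,114,128] 0 7 .stop
 (.node [96,114,135] 6 0 (.conf [8,64] (.lc 0 9 (.lc 2 8 .stop)))
 (.node [97,114,135] 6 1 (.lc 1 8 .stop)
 (.node [105,114,135] 4 6 (.far [16,256,257,4096] 0 (.lc 3 0 (.lc 3 10 (.far [16,256,257,4096] 0 (.lc 3 1 (.far [16,256,257,4096] 0 (.lc 3 0 (.lc 3 10 (.lc 4 10 (.lc 4 0 (.lc 4 11 .stop)))))))))))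
 (.conf [20,129] (.node [105,114,152,128] 0 7 .stop
 (.conf [20,97] (.node [105,114,135,144] 4 6 (.node [73] 9 0 (.lc 2 1 (.lc 1 0 (.lc 3 10 (.lc 1 0 .stop))))
 (.lc 3 10 (.lc 3 1 (.lc 1 0 (.lc 3 10 (.lc 4 11 .stop))))))
 (.node [96,114,135,152] 6 0 .stop
 (.node [106,114,135,152] 4 6 (.node [74] 4 10 (.lc 2 0 (.lc 1 9 (.lc 2 11 (.lc 3 0 (.lc 1 8 (.lc 3 11 (.lc 0 0 (.lc 3 1 (.lc 0 0 (.lc 3 11 (.lc 3 0 (.lc 2 9 (.lc 3 12 (.lc 3 0 (.conf [25,152] (.lc 3 11 (.lc 3 1 (.lc 0 0 (.lc 3 1 (.lc 0 0 (.lc 4 11 (.lc 4 0 (.conf [27,185] (.lc 4 12 (.lc 0 0 (.lc 4 1 (.lc 0 0 (.lc 4 1 (.lc 0 0 (.lc 4 1 (.lc 0 0 (.lc 4 1 (.lc 0 0 (.lc 5 1 .stop))))))))))))))))))))))))))))))))))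
 (.lc 3 0 (.lc 3 11 (.lc 1 9 (.lc 3 1 (.lc 1 9 (.lc 3 0 (.lc 3 11 (.lc 4 11 (.lc 4 0 (.lc 4 12 .stop)))))))))))
 .stop)))))))))))))))))))))))))))))))))))))))))))))))))))))))
 (.lc 3 0 (.lc 3 7 (.lc 2 2 (.lc 2 2 (.lc 2 2 (.node [87,112] 6 5 (.lc 1 7 (.lc 1 7 (.lc 3 8 (.lc 2 7 (.lc 2 7 (.lc 2 7 (.lc 3 1 (.lc 3 8 (.node [97,112] 6 1 (.lc 1 7 .stop)
 (.node [104,112] 4 6 (.node [72] 8 7 (.lc 1 0 (.lc 0 7 (.lc 1 0 (.conf [20,129] (.conf [1,144] (.lc 2 0 (.lc 2 0 (.lc 0 1 (.lc 2 0 (.lc 1 1 (.lc 3 1 (.lc 3 9 (.lc 2 0 (.lc 2 0 (.lc 2 1 (.lc 2 1 (.lc 3 0 (.lc 4 9 (.lc 4 10 (.lc 2 1 (.lc 2 1 (.lc 3 1 .stop))))))))))))))))))))))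
 (.lc 3 9 (.lc 3 1 (.node [73,135] 8 7 (.lc 1 0 (.lc 1 0 (.lc 3 1 (.lc 3 10 (.lc 2 0 (.lc 2 0 (.lc 1 1 (.lc 0 0 (.lc 2 0 (.lc 2 0 (.lc 2 1 (.lc 3 0 (.conf [20,145] (.conf [1,160] (.lc 2 1 (.lc 2 1 (.lc 3 1 .stop)))))))))))))))))
 (.lc 3 9 (.lc 4 10 .stop))))))
 (.lc 2 7 (.lc 2 7 (.lc 4 9 (.lc 3 7 (.node [105,112,135] 4 6 (.node [73] 4 9 (.lc 1 8 (.lc 2 10 (.lc 1 7 (.lc 3 10 (.lc 3 1 (.lc 2 8 (.lc 3 11 (.conf [24,135] (.lc 3 10 (.lc 3 1 (.lc 0 0 (.lc 3 1 (.conf [26,168] (.lc 4 11 (.lc 4 1 (.lc 4 1 (.lc 0 0 (.lc 4 1 (.lc 4 1 (.lc 5 1 .stop))))))))))))))))))))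
 (.lc 3 10 (.lc 3 1 (.lc 1 8 (.lc 3 10 (.lc 4 11 .stop))))))
 (.lc 2 0 (.lc 2 0 (.lc 2 0 (.lc 2 0 (.lc 3 0 .stop))))))))))))))))))))
 (.node [88,135,114] 6 5 (.lc 1 8 (.lc 1 8 (.lc 1 8 (.lc 3 0 (.lc 3 9 (.lc 2 8 (.lc 2 8 (.lc 2 8 (.lc 2 8 (.lc 2 8 (.lc 2 8 (.lc 2 8 (.lc 2 8 (.lc 2 8 (.lc 3 0 (.lc 3 1 (.lc 3 9 (.node [96,135] 6 0 (.conf [8,64] (.lc 0 9 (.lc 2 8 .stop)))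
 (.node [97,135] 6 1 (.lc 1 8 .stop)
 (.node [105,135] 4 6 (.node [73] 9 8 (.lc 1 7 (.lc 1 7 (.lc 0 8 (.lc 1 7 (.lc 1 2 (.lc 1 2 (.lc 2 7 (.lc 2 7 (.lc 2 7 (.lc 2 7 (.lc 2 7 (.lc 2 7 (.lc 2 7 (.lc 0 1 (.lc 2 7 (.lc 2 7 (.node [114,144] 0 7 (.far [1,1,0,257,256] 0 .stop)
 (.node [114,145] 1 7 .stop
 (.lc 0 7 (.node [114,154] 7 2 (.lc 1 0 (.lc 2 0 (.far [4112,1,0,257,256] 0 (.lc 2 0 (.lc 2 0 (.lc 3 0 .stop))))))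
 (.lc 1 2 (.lc 1 2 (.lc 1 2 (.lc 2 7 (.lc 2 7 (.lc 2 7 (.lc 2 7 (.lc 2 7 (.conf [20,145] (.node [114,154,160] 0 7 (.node [] 4 9 (.lc 1 10 (.lc 2 10 (.lc 2 11 (.lc 2 4 (.lc 3 11 (.lc 3 1 (.lc 3 1 (.lc 1 0 (.lc 3 11 (.lc 2 10 (.lc 3 12 (.lc 2 4 (.lc 3 11 (.lc 3 1 (.lc 3 1 (.lc 3 1 (.lc 3 4 (.lc 4 12 (.lc 4 1 (.lc 4 1 (.lc 4 1 (.lc 4 1 (.lc 4 1 (.lc 5 1 .stop))))))))))))))))))))))))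
 .stop)
 (.lc 0 1 (.node [114,144,167] 9 0 (.lc 2 1 (.lc 1 0 (.lc 1 0 (.lc 3 11 (.lc 1 0 .stop)))))
 (.node [114,155,167] 10 7 (.lc 0 0 (.lc 1 0 (.lc 1 0 (.lc 3 0 (.lc 1 0 (.lc 2 0 .stop))))))
 (.lc 3 7 (.lc 3 7 (.lc 3 7 (.lc 3 7 (.lc 3 7 (.lc 3 7 (.lc 2 2 (.lc 2 2 (.lc 2 2 (.lc 2 2 (.lc 4 1 (.lc 4 10 (.lc 4 10 (.lc 4 0 (.lc 4 11 (.lc 4 1 (.lc 4 10 (.lc 4 0 (.lc 4 1 (.lc 4 11 (.lc 5 10 (.lc 5 11 (.lc 5 1 (.lc 5 11 (.lc 5 0 (.lc 5 12 .stop)))))))))))))))))))))))))))))))))))))))))))))))))))))))))))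
 (.lc 3 0 (.lc 3 7 (.lc 3 10 (.node [64,152] 4 0 (.lc 0 0 .stop)
 (.lc 3 1 (.node [74,152] 9 8 (.lc 1 7 (.lc 1 7 (.lc 1 7 (.lc 1 2 (.lc 1 2 (.lc 2 7 (.lc 2 7 (.lc 2 7 (.lc 2 7 (.lc 2 7 (.lc 2 7 (.lc 3 0 (.lc 3 1 (.lc 3 11 (.lc 1 2 (.lc 2 7 (.lc 2 7 (.lc 2 7 (.lc 4 1 (.lc 4 11 (.lc 4 0 (.lc 4 12 (.lc 3 7 (.lc 3 7 (.lc 3 7 (.lc 3 7 (.lc 2 2 (.lc 2 2 (.node [114,160] 0 7 (.far [1,1,0,257,256] 0 .stop)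
 (.node [114,161] 1 7 .stop
 (.node [114,171] 4 10 (.lc 2 11 (.lc 3 1 (.lc 3 0 (.conf [27,183] (.lc 3 12 (.lc 3 1 (.lc 0 0 (.lc 4 1 .stop))))))))
 (.lc 0 0 (.lc 0 11 (.conf [20,161] (.node [114,171,176] 0 7 (.node [] 4 10 (.lc 2 11 (.lc 3 1 (.lc 1 0 (.lc 3 12 (.lc 3 1 (.lc 4 1 .stop))))))
 .stop)
 (.node [114,160,183] 10 0 (.lc 1 0 .stop)
 (.node [114,172,183] 4 10 (.lc 2 12 (.lc 3 1 (.lc 3 0 (.lc 1 11 (.lc 3 13 (.lc 3 1 (.lc 0 0 (.lc 4 1 .stop))))))))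
 .stop)))))))))))))))))))))))))))))))))))))
 (.lc 3 0 (.lc 3 10 (.lc 4 10 (.lc 4 0 (.lc 4 11 .stop))))))))))))
 (.lc 2 8 (.lc 2 8 (.lc 2 8 (.lc 2 8 (.lc 2 8 (.lc 4 1 (.lc 4 9 (.lc 4 0 (.lc 4 10 (.lc 3 8 (.lc 3 8 (.lc 3 8 (.lc 3 8 (.lc 3 8 (.lc 3 8 (.conf [20,97] (.node [105,135,144] 0 8 .stop
 (.node [96,135,152] 6 0 .stop
 (.node [106,135,152] 4 6 (.node [74] 4 10 (.lc 2 0 (.lc 1 9 (.lc 2 7 (.lc 2 11 (.lc 3 0 (.lc 1 8 (.lc 3 11 (.lc 0 0 (.lc 3 1 (.lc 0 0 (.lc 3 11 (.lc 3 0 (.lc 2 9 (.lc 3 12 (.lc 3 0 (.conf [25,152] (.lc 3 7 (.lc 3 11 (.lc 3 1 (.lc 0 0 (.lc 3 1 (.lc 3 1 (.lc 0 0 (.lc 4 11 (.lc 4 0 (.conf [27,185] (.lc 4 12 (.lc 0 0 (.lc 4 1 (.lc 0 0 (.lc 4 1 (.lc 0 0 (.lc 4 1 (.lc 4 1 (.lc 0 0 (.lc 4 1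 (.lc 0 0 (.lc 5 1 .stop))))))))))))))))))))))))))))))))))))))
 (.lc 3 0 (.lc 3 7 (.lc 3 11 (.lc 1 9 (.lc 3 1 (.lc 1 9 (.lc 3 0 (.lc 3 11 (.lc 4 11 (.lc 4 0 (.lc 4 12 .stop))))))))))))
 (.lc 2 7 (.lc 2 7 (.lc 2 7 (.lc 2 7 (.lc 2 7 (.lc 2 7 (.lc 2 7 (.lc 2 7 (.lc 2 7 (.lc 2 7 (.lc 3 7 (.lc 3 7 (.lc 3 7 (.lc 3 7 (.lc 3 7 (.lc 3 7 .stop)))))))))))))))))))))))))))))))))))))))))))))))))))))))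
 (.lc 3 2 (.lc 3 2 (.lc 3 2 (.lc 3 2 (.lc 4 7 (.lc 4 8 (.lc 4 7 (.lc 4 8 (.lc 4 7 (.lc 4 8 (.lc 5 8 (.lc 5 9 .stop)))))))))))))))))))))))))))))))
 (.node [50,69] 0 3 (.node [] 4 5 (.far [257,16,257,1] 4096 (.node [70,101] 1 4 (.far [16,257,16,257,1] 4096 (.lc 1 6 (.lc 2 1 (.node [23,101,80] 1 7 (.lc 2 6 .stop)
 (.lc 2 6 (.far [16,257,16,257,1] 4096 (.lc 2 6 (.lc 2 1 (.lc 2 1 (.conf [23,118] (.lc 2 6 (.lc 3 1 (.conf [24,135] (.lc 3 6 (.lc 3 1 (.lc 3 1 (.lc 3 1 (.lc 4 1 .stop))))))))))))))))))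
 (.lc 2 0 (.lc 2 0 (.lc 3 7 (.conf [22,65] (.node [71,118,101] 4 7 (.node [118,101] 7 6 (.node [101,120] 1 7 (.far [16,257,513,257,272,257,4097] 4096 (.lc 1 6 .stop))
 (.lc 2 5 (.lc 3 1 (.conf [101,134] (.lc 2 5 (.lc 2 5 (.lc 3 5 (.lc 3 5 .stop))))))))
 (.lc 2 8 (.node [24,118,101,80] 7 6 (.conf [101,134] (.lc 2 5 (.lc 0 9 (.lc 2 5 (.lc 3 5 .stop)))))
 (.lc 3 9 (.lc 3 1 (.conf [24,135] (.lc 3 9 (.node [118,135,101,80] 8 7 (.far [16,257,257,16,257,1] 4096 (.lc 1 5 (.lc 1 5 (.lc 3 9 (.lc 2 5 .stop)))))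
 (.lc 3 9 (.lc 3 1 (.lc 3 1 (.conf [25,152] (.lc 4 10 (.lc 4 1 (.lc 4 1 (.lc 4 1 (.lc 4 1 (.lc 5 1 .stop))))))))))))))))))
 (.lc 2 0 (.lc 2 0 (.lc 3 7 (.lc 3 7 (.lc 3 0 (.lc 3 0 (.lc 4 8 (.lc 4 8 (.lc 4 8 (.lc 4 8 (.lc 5 9 .stop))))))))))))))))))
 .stop)
 (.node [50,64,83] 5 3 (.node [82] 0 5 (.lc 1 2 (.lc 2 2 .stop))
 (.lc 3 6 (.node [86,98] 0 5 (.lc 1 6 (.node [98,118,7,64] 4 0 (.lc 1 7 (.lc 0 6 (.lc 3 8 (.node [118,135] 7 6 (.lc 1 2 (.lc 1 0 (.lc 2 2 .stop)))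
 (.lc 3 8 (.lc 4 9 .stop))))))
 (.lc 2 6 (.lc 1 2 (.lc 2 2 .stop)))))
 (.lc 3 6 (.lc 4 7 .stop)))))
 (.node [50,70,83] 5 3 (.node [82] 6 5 (.lc 1 2 (.lc 1 2 (.lc 1 2 (.far [1,0,1,257] 4096 (.lc 1 0 (.lc 2 2 (.lc 2 2 (.lc 2 2 (.lc 2 2 (.lc 2 2 (.lc 2 2 (.lc 2 2 (.lc 2 2 (.lc 2 2 (.lc 1 0 (.lc 1 0 (.lc 3 0 (.lc 1 0 (.lc 2 2 (.lc 2 2 (.lc 2 2 (.lc 2 2 (.lc 2 2 (.lc 2 0 (.lc 2 0 (.lc 3 2 (.lc 3 2 (.lc 3 2 (.lc 3 2 (.lc 3 2 (.lc 3 2 (.lc 4 7 (.lc 2 0 (.lc 2 0 (.lc 2 0 (.lc 2 0 (.lc 2 0 (.lc 3 0 (.lc 3 0 .stop)))))))))))))))))))))))))))))))))))))))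
 (.lc 3 0 (.lc 3 7 (.node [80] 6 5 (.lc 1 0 (.lc 1 0 (.node [97] 1 4 (.conf [65,97,16] .stop)
 (.conf [1,112] (.lc 2 0 (.lc 2 0 (.lc 2 0 (.node [97] 4 6 (.conf [65,97,16] (.node [71,97,118] 1 4 (.far [16,257,0,16,257,1] 4130 (.lc 1 7 (.lc 2 1 (.lc 1 6 (.lc 2 7 (.lc 2 1 (.lc 3 1 .stop)))))))
 (.lc 2 1 (.lc 3 8 (.node [72,97,118,135] 1 4 (.node [135,118] 6 1 .stop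
 (.lc 1 8 (.lc 2 1 (.node [135,152,118] 9 8 (.far [16,16,257,0,16,257,1] 4130 (.lc 1 6 (.lc 1 6 (.lc 3 10 (.lc 2 6 .stop)))))
 (.lc 2 8 (.lc 2 1 (.lc 3 1 .stop)))))))
 (.lc 2 1 (.lc 3 8 (.lc 3 8 (.lc 3 1 (.lc 4 9 (.lc 4 9 (.lc 4 9 (.lc 4 9 (.lc 5 10 .stop))))))))))))))
 (.lc 3 1 (.lc 3 7 (.lc 2 0 (.lc 2 0 (.conf [113,20,103,70] (.lc 3 0 (.lc 4 7 (.lc 4 8 (.lc 4 7 (.lc 4 7 (.lc 5 8 .stop)))))))))))))))))))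
 (.node [87,114] 5 7 (.lc 2 0 (.lc 2 1 (.lc 2 8 (.lc 3 1 (.lc 3 8 (.lc 3 8 (.lc 3 0 (.lc 3 9 (.node [96,114] 0 7 .stop
 (.node [104,135,104,70] 8 7 (.lc 1 2 (.lc 1 2 (.lc 0 6 (.lc 1 2 (.far [1,4096,0,1,257] 4096 (.lc 1 0 (.lc 2 2 (.lc 0 6 (.lc 2 2 (.lc 1 7 (.lc 2 2 (.lc 2 2 (.lc 0 6 (.lc 2 2 (.lc 2 2 (.lc 2 2 (.lc 1 7 (.lc 2 2 (.lc 2 2 (.lc 1 0 (.lc 3 0 (.lc 1 0 (.lc 2 2 (.lc 2 2 (.lc 0 6 (.lc 2 2 (.lc 1 6 (.lc 1 6 (.lc 2 2 (.lc 2 2 (.lc 2 0 (.lc 1 0 (.lc 3 2 (.lc 3 2 (.lc 2 7 (.lc 3 2 (.lc 3 2 (.lc 1 9 (.lc 3 2 (.lc 3 2 (.lc 4 9 (.lc 2 0 (.lc 2 0 (.lc 2 0 (.lc 3 0 .stop)))))))))))))))))))))))))))))))))))))))))))))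
 (.lc 3 1 (.lc 3 8 (.lc 3 0 (.lc 3 9 (.lc 3 1 (.lc 3 8 (.lc 3 0 (.lc 3 1 (.lc 3 9 (.lc 2 2 (.lc 2 2 (.lc 2 2 (.lc 0 0 (.lc 0 1 (.lc 0 8 (.lc 4 8 (.lc 4 9 (.lc 4 1 (.lc 4 9 (.lc 4 0 (.lc 4 10 (.lc 0 1 (.lc 0 8 (.lc 0 0 (.lc 0 9 (.lc 0 1 (.lc 0 8 (.lc 0 8 (.lc 0 0 (.lc 0 9 (.lc 0 1 (.lc 0 8 (.lc 0 0 (.lc 0 1 (.lc 0 9 (.lc 3 2 (.lc 3 2 (.lc 3 2 (.lc 3 2 (.lc 0 8 (.lc 0 9 (.lc 0 1 (.lc 0 9 (.lc 0 0 (.lc 0 10 .stop)))))))))))))))))))))))))))))))))))))))))))))))))))))))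
 (.lc 3 0 (.lc 3 7 (.lc 4 7 (.lc 4 8 .stop)))))))))
 (.conf [50,69] (.conf [50,64] (.conf [50,70] (.node [50,69,80] 0 3 (.node [50,69,80] 5 0 (.node [81] 6 3 (.node [] 4 5 (.node [70,81,98] 6 5 .stop
 (.node [71,81] 1 4 (.far [1,4112,1,0,1,1,513] 4096 (.lc 1 5 .stop))
 (.conf [81,117] .stop)))
 (.lc 3 7 (.node [114] 4 5 (.node [70,81,103,114] 6 5 .stop
 (.node [71,81,114] 7 5 .stop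
 (.node [72,81] 1 4 (.node [133] 5 1 (.lc 0 1 .stop)
 (.lc 1 5 .stop))
 (.conf [81,101] (.conf [81,133] .stop)))))
 (.lc 3 7 (.lc 4 8 .stop)))))
 (.far [16,257,4096] 0 (.lc 3 7 (.lc 3 7 (.conf [87,113] (.conf [87,118] (.lc 3 7 (.lc 3 7 (.lc 4 8 (.lc 4 8 .stop))))))))))
 (.conf [50,99] .stop))
 (.node [50,64] 4 0 .stop
 (.node [50,70,101] 4 6 (.node [64,101,50] 4 0 (.lc 0 0 .stop)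
 (.node [71,101,50] 1 4 (.node [118] 7 6 (.node [101,112] 0 6 (.node [83] 0 5 (.far [257,256,0,0,0,257,257] 4096 (.node [117] 7 5 (.node [83] 5 3 .stop
 .stop)
 (.lc 2 3 (.lc 1 2 (.node [133] 5 3 (.far [257,16,4096,0,0,0,4096] 0 (.node [50,89,133] 3 2 (.far [4112,1,0,0,0,1,4112,1,513] 4096 (.lc 2 0 (.lc 2 0 (.lc 0 10 (.lc 2 0 (.lc 3 0 .stop))))))
 (.lc 3 0 (.conf [50,147] (.conf [50,147] (.lc 3 0 (.lc 4 0 .stop)))))))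
 (.lc 2 3 (.lc 2 3 (.lc 3 3 .stop))))))))
 (.far [256,0,0,0,257,257] 4096 (.far [256,0,0,0,257,257] 4096 (.node [83,133] 0 8 (.far [257,256,0,0,0,257,257] 4096 (.far [4112,4112,256] 0 (.lc 2 5 (.lc 2 5 (.conf [133,152] (.lc 2 5 (.lc 2 5 (.lc 3 5 .stop))))))))
 (.node [83] 5 3 (.node [50] 3 2 (.far [4112,1,0,0,1,4112,1,513] 4096 (.lc 0 9 .stop))
 (.lc 3 9 (.conf [50,131] (.lc 3 9 (.lc 4 10 .stop)))))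
 (.node [83,133] 5 3 (.node [50,89] 8 5 (.far [16,257,8208,16,0,16,4096] 17 (.lc 3 10 (.lc 1 3 (.lc 3 10 (.lc 4 11 .stop)))))
 (.lc 3 3 (.conf [50,147] (.lc 3 3 (.lc 4 3 .stop)))))
 .stop))))))
 (.lc 2 1 (.node [101,114] 2 6 (.node [83] 3 2 (.far [1,16,16,16,256,257,1] 4096 (.conf [56,128] .stop))
 (.node [83,133] 3 2 (.far [1,16,16,16,256,257,1] 4096 (.lc 1 0 (.conf [57,144] (.lc 2 0 .stop))))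
 .stop))
 (.node [101,120] 6 5 (.node [83] 5 3 (.node [50] 0 3 (.far [257,1,0,0,0,0,1,257] 4096 .stop)
 (.lc 2 3 (.node [50] 9 3 (.far [1,1,0,0,1,4112,1,513] 4096 (.lc 3 0 (.lc 3 8 (.lc 3 10 (.far [1,1,0,0,1,4112,1,513] 4096 (.node [162] 8 5 (.node [89,128] 0 5 (.far [16,16,0,257,16,0,0,0,4096] 0 (.lc 1 10 .stop))
 (.lc 2 5 (.far [16,0,257,16,0,0,0,4096] 0 (.node [89,162,165] 10 5 (.lc 0 3 .stop)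
 (.node [89,139] 5 9 (.far [257,16,0,257,16,0,0,0,4096] 0 (.lc 2 10 (.lc 2 10 (.node [176,83,154,162] 11 0 (.node [177] 11 1 (.lc 0 5 .stop)
 (.lc 0 5 .stop))
 (.lc 2 3 (.node [188,201,154,162] 8 11 (.node [128,188,201] 0 11 (.node [201] 8 0 (.far [4112,0,4112,0,4112,0,0,256,256] 0 .stop)
 (.lc 1 9 (.lc 1 9 (.lc 0 0 .stop))))
 (.lc 2 5 (.node [162,171,188,201] 10 11 .stop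
 (.node [141,188,201] 11 12 (.node [201] 7 8 (.node [125] 7 13 (.node [220] 13 12 .stop
 (.far [4112,4112,0,0,0,0,0,0,0,4112,256,256] 4097 .stop))
 (.conf [113,133,220] (.far [16,0,257,0,257,0,0,4096,4096] 0 (.far [16,0,257,0,257,0,0,4096,4096] 0 (.conf [113,133,220] .stop)))))
 (.lc 2 9 (.lc 2 9 (.lc 2 9 (.lc 0 0 (.lc 0 14 (.lc 2 9 (.lc 2 9 (.lc 3 9 (.lc 3 9 (.lc 3 9 .stop)))))))))))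
 (.conf [181,201] (.conf [181,201] (.lc 3 5 (.lc 3 5 (.node [141,188,208,201,141] 0 11 .stop
 (.conf [188,219] (.conf [188,219] (.node [181,201,128] 8 0 (.far [257,257,0,257,0,0,4096,4096] 0 (.far [1,257,0,257,0,0,4096,1,4096,4096] 0 (.node [113] 12 9 (.node [9] 9 10 .stop
 (.lc 2 3 .stop))
 (.lc 0 1 .stop))))
 (.lc 3 5 (.conf [172,201] (.node [181,201,141] 12 9 (.node [154] 8 13 (.far [257,0,257,0,257,0,0,4096,4096] 0 (.lc 2 9 (.lc 2 9 (.lc 2 9 (.lc 3 9 .stop)))))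
 (.lc 2 3 (.lc 0 0 (.lc 2 3 (.lc 0 14 (.lc 2 3 (.lc 3 3 (.lc 3 3 .stop))))))))
 (.lc 3 5 (.lc 3 5 (.conf [181,208,141] (.node [181,201,220,128] 8 0 (.far [4112,4112,4112,4096,0,4112,257,256,256,257,256] 0 .stop)
 (.conf [181,237,142] (.lc 4 5 (.lc 4 5 (.lc 4 5 (.lc 4 5 (.lc 5 5 .stop)))))))))))))))))))))))))
 (.lc 2 10 (.lc 2 10 (.lc 3 10 (.lc 3 10 (.lc 3 10 .stop)))))))))))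
 (.lc 2 3 (.lc 2 3 (.lc 2 3 (.lc 3 1 (.lc 3 10 (.lc 3 11 (.lc 3 0 (.lc 3 11 (.lc 3 2 (.lc 3 0 (.lc 3 10 (.lc 3 12 (.node [89,139,176] 0 5 .stop
 (.lc 1 10 (.lc 1 10 (.node [89,128,181,89,154,162] 8 0 (.node [129] 8 1 (.lc 0 1 .stop)
 (.lc 0 1 (.lc 3 0 (.far [4112,4112,0,0,256,16,256,256] 0 .stop))))
 (.node [89,181,203,89,154,162] 5 9 (.far [257,16,0,257,16,0,0,0,4096] 0 (.lc 2 10 (.lc 2 10 (.lc 0 0 (.lc 2 3 (.lc 0 13 (.lc 2 10 (.lc 2 10 (.lc 3 10 (.lc 3 10 (.lc 3 10 .stop)))))))))))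
 (.lc 2 3 (.lc 2 3 (.lc 2 3 (.lc 2 3 (.lc 2 3 (.lc 2 3 (.lc 3 11 (.lc 3 0 (.lc 3 0 (.lc 3 10 (.lc 3 11 (.lc 3 0 (.lc 3 11 (.lc 3 0 (.lc 3 12 (.lc 3 3 (.lc 3 3 (.lc 3 3 (.lc 4 12 (.lc 4 11 (.lc 4 0 (.lc 4 12 (.lc 1 0 (.lc 4 12 (.lc 4 0 (.lc 4 13 (.lc 3 3 (.lc 3 3 (.lc 3 3 (.lc 3 3 (.lc 3 3 (.lc 3 3 (.lc 3 3 (.lc 3 3 (.lc 3 3 (.lc 3 3 (.lc 3 3 (.lc 3 3 (.lc 4 3 (.lc 4 3 (.lc 4 3 (.lc 4 3 .stop))))))))))))))))))))))))))))))))))))))))))))))))))))))))))))))))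
 (.lc 3 0 (.lc 3 10 (.lc 4 10 (.lc 4 11 .stop))))))))))
 (.lc 2 2 (.lc 2 2 (.lc 2 2 (.lc 3 9 (.lc 3 0 (.lc 3 10 (.lc 3 3 (.node [50,144] 0 3 (.far [256,0,257,16,16,256,257,1] 4096 .stop)
 (.conf [50,147] (.lc 3 3 (.conf [50,147] (.lc 2 2 (.lc 2 2 (.lc 2 2 (.lc 2 2 (.lc 2 2 (.lc 3 9 (.lc 3 0 (.lc 3 10 (.lc 3 2 (.lc 3 2 (.lc 3 2 (.lc 3 2 (.lc 4 10 (.lc 4 10 (.lc 4 0 (.lc 4 11 (.lc 3 2 (.lc 3 2 (.lc 3 2 (.lc 3 2 (.lc 3 2 (.lc 3 2 (.lc 4 2 (.lc 4 2 .stop))))))))))))))))))))))))))))))))))))))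
 (.lc 0 0 (.lc 0 2 (.lc 0 9 (.lc 0 0 (.lc 0 2 (.lc 0 9 (.node [83] 0 5 (.node [83] 5 3 .stop
 (.conf [83,149] (.lc 1 2 .stop)))
 (.node [83] 3 2 (.far [1,257,16,16,256,257,1] 4096 (.conf [57,144] .stop))
 (.node [83,149] 5 3 (.node [50,80] 0 3 (.far [257,1,0,0,0,0,1,257] 4096 .stop)
 (.node [50,90] 9 5 (.far [16,257,257,16,0,16,258] 0 (.lc 3 0 (.lc 3 2 (.lc 3 11 (.lc 1 3 (.lc 1 3 (.lc 1 3 (.lc 3 0 (.lc 3 2 (.lc 3 11 (.lc 4 11 (.lc 4 0 (.lc 4 11 (.lc 4 0 (.lc 4 2 (.lc 4 12 .stop))))))))))))))))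
 (.lc 2 2 (.lc 2 2 (.lc 3 3 (.lc 3 3 (.conf [90,160] (.conf [50,163] (.conf [50,163] (.lc 2 2 (.lc 2 2 (.lc 2 2 (.lc 3 3 (.lc 3 3 (.lc 3 2 (.lc 3 2 (.lc 4 3 (.lc 4 3 (.lc 4 3 (.lc 3 2 (.lc 3 2 (.lc 3 2 (.lc 3 2 (.lc 3 2 (.lc 3 2 (.lc 4 2 (.lc 4 2 .stop)))))))))))))))))))))))))))
 (.lc 0 9 (.lc 0 0 (.lc 0 9 (.lc 0 0 (.lc 0 2 (.lc 0 10 .stop))))))))))))))))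
 (.lc 2 4 (.lc 2 4 (.lc 2 4 (.lc 3 8 (.lc 3 0 (.lc 3 8 (.lc 3 0 (.lc 3 2 (.lc 3 9 (.lc 3 1 (.node [101,120,128] 0 6 (.far [256,0,0,0,257,257] 4096 .stop)
 (.node [101,112] 2 6 (.node [37] 3 2 .stop
 (.conf [40,133] .stop))
 (.node [101,120,130] 2 6 .stop
 (.conf [101,134] (.conf [101,134] (.conf [101,134] (.lc 2 4 (.lc 2 4 (.lc 2 4 (.lc 2 4 (.lc 2 4 (.lc 2 4 (.lc 2 4 (.lc 3 8 (.lc 3 0 (.lc 3 8 (.lc 3 0 (.lc 3 2 (.lc 3 9 (.lc 3 4 (.lc 3 4 (.lc 3 4 (.lc 3 4 (.lc 3 4 (.lc 3 4 (.lc 3 4 (.lc 4 9 (.lc 4 8 (.lc 4 9 (.lc 4 9 (.lc 4 0 (.lc 4 9 (.lc 4 0 (.lc 4 2 (.lc 4 10 (.lc 3 4 (.lc 3 4 (.lc 3 4 (.lc 3 4 (.lc 3 4 (.lc 3 4 (.lc 3 4 (.lc 3 4 (.lc 3 4 (.lc 3 4 (.lc 3 4 (.lc 3 4 (.lc 3 4 (.lc 3 4 (.lc 3 4 (.lc 3 4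 (.lc 3 4 (.lc 3 4 (.lc 4 4 (.lc 4 4 (.lc 4 4 (.lc 4 4 (.lc 4 4 (.lc 4 4 (.lc 4 4 (.lc 4 4 (.lc 4 4 .stop))))))))))))))))))))))))))))))))))))))))))))))))))))))))))))))))))))))))))))
 (.lc 3 0 (.lc 1 6 (.lc 3 0 (.lc 1 6 (.lc 3 0 (.conf [24,135] (.lc 4 0 (.lc 2 6 .stop)))))))))
 (.conf [71,101] (.conf [64,101] (.conf [72,101] (.lc 0 0 (.conf [65,101] (.conf [71,112] (.conf [101,118] (.conf [101,118] (.conf [71,101] (.conf [64,101] (.conf [72,101] (.lc 0 0 (.node [65,101,50,23] 7 6 (.conf [83,117] (.lc 3 0 (.lc 3 2 (.lc 3 8 (.node [83,112] 0 5 (.lc 1 3 (.lc 2 3 (.far [16,16,256,0,4096] 0 .stop)))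
 (.node [83,114] 3 2 (.lc 2 0 (.lc 3 8 .stop))
 (.conf [120,133] (.lc 3 0 (.lc 3 2 (.lc 3 8 (.lc 4 8 (.lc 4 0 (.lc 4 8 (.lc 4 0 (.lc 4 2 (.lc 4 9 .stop))))))))))))))))
 (.lc 0 0 (.conf [65,101] (.conf [72,101] (.conf [72,101] (.conf [64,101] (.conf [73,101] (.lc 0 0 (.conf [65,101] (.lc 0 0 (.conf [24,135] (.lc 0 0 (.node [24,65,101,118,50] 7 6 (.node [83] 1 8 (.far [257,16,257,257,257] 16 (.lc 1 3 (.lc 2 7 (.node [135,152] 8 7 (.lc 1 5 (.lc 1 5 (.lc 1 5 (.node [83,130] 2 5 .stop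
 (.lc 3 1 (.conf [138,165] (.lc 2 5 (.lc 2 5 (.lc 2 5 (.lc 2 5 (.lc 2 5 (.lc 2 5 (.lc 2 5 (.lc 2 5 (.lc 1 3 (.lc 1 3 (.lc 1 3 (.lc 3 2 (.lc 0 2 (.lc 3 10 (.lc 2 5 (.lc 1 7 (.lc 2 5 (.lc 2 5 (.lc 2 3 (.lc 2 3 (.lc 2 3 (.lc 2 3 (.lc 2 3 (.lc 3 5 (.lc 3 5 (.lc 3 5 (.lc 3 5 (.lc 4 10 (.lc 2 3 (.lc 4 2 (.lc 4 11 (.lc 2 3 (.lc 2 3 (.lc 2 3 (.lc 2 3 (.lc 2 3 (.lc 2 3 (.lc 3 3 (.lc 3 3 (.lc 3 3 (.lc 3 3 .stop)))))))))))))))))))))))))))))))))))))))))))))))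
 (.lc 2 7 (.lc 3 7 .stop))))))
 (.lc 3 0 (.lc 3 2 (.lc 3 9 (.node [83,112] 0 1 .stop
 (.node [83,114] 3 2 (.lc 2 0 (.lc 3 8 (.lc 3 9 .stop)))
 (.node [83,121] 1 8 (.far [257,16,257,257,257] 16 (.lc 2 7 (.lc 2 7 (.node [135,168] 5 3 (.lc 1 2 (.lc 1 2 (.lc 1 2 (.lc 3 11 (.lc 2 2 (.lc 2 2 (.lc 2 2 (.lc 3 0 (.lc 3 8 (.lc 3 10 (.lc 3 11 (.lc 0 2 (.lc 2 2 (.lc 2 2 (.lc 2 2 (.lc 4 10 (.lc 4 8 (.lc 4 12 (.lc 3 2 (.lc 3 2 (.node [155,178] 7 9 (.lc 2 11 (.lc 1 2 (.lc 3 12 (.lc 0 11 (.lc 0 12 .stop)))))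
 (.conf [10,144] (.lc 1 7 (.conf [154,162] (.node [155,178] 7 9 (.lc 2 11 (.conf [139,178] (.lc 3 12 (.lc 0 11 (.lc 0 12 .stop)))))
 (.lc 0 11 (.lc 1 8 (.lc 1 7 (.node [156,203,178] 7 9 (.lc 2 12 (.lc 1 11 (.lc 3 13 (.lc 0 12 (.lc 0 13 .stop)))))
 .stop)))))))))))))))))))))))))))))
 (.lc 2 7 (.lc 3 7 .stop))))))
 (.lc 3 0 (.lc 3 2 (.lc 3 9 (.lc 4 9 (.lc 4 0 (.lc 4 9 (.lc 4 0 (.lc 4 2 (.lc 4 10 .stop))))))))))))))))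
 (.lc 0 0 (.conf [65,135,24] (.lc 0 0 (.conf [25,152] .stop)))))))))))))))))))))))))))))))
 (.node [50,70,101,70,80] 0 3 (.node [] 4 6 (.lc 1 5 (.lc 2 7 (.lc 0 7 (.lc 3 8 (.lc 3 8 (.lc 0 7 (.lc 3 8 (.conf [23,118] (.lc 3 8 (.lc 3 8 (.lc 3 8 (.lc 0 8 (.lc 4 9 (.lc 4 9 (.lc 4 9 (.lc 4 9 (.lc 4 9 (.lc 5 10 .stop))))))))))))))))))
 .stop)
 (.node [50,70,83,96,70] 5 3 (.node [82] 0 5 .stop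
 (.lc 3 7 (.node [87,114] 0 5 .stop
 (.lc 3 7 (.lc 4 8 .stop)))))
 (.node [50,64,83,101] 5 3 (.node [82] 0 6 (.lc 0 6 (.lc 0 7 (.lc 0 7 (.lc 0 7 (.lc 0 8 .stop)))))
 (.lc 3 7 (.node [87,114] 0 6 (.lc 0 6 (.lc 0 0 (.lc 0 0 (.lc 2 5 (.lc 0 8 (.lc 0 0 .stop))))))
 (.lc 3 7 (.lc 4 8 .stop)))))
 (.node [50,71,83,118,71] 5 3 (.node [82] 6 5 (.lc 1 2 (.lc 1 2 (.lc 1 2 (.lc 3 0 (.lc 1 0 (.lc 2 2 (.lc 2 2 (.lc 2 2 (.lc 2 2 (.lc 2 2 (.lc 2 2 (.lc 2 2 (.lc 2 2 (.lc 2 2 (.lc 1 0 (.lc 1 0 (.node [96] 7 6 (.far [1,1,0,1,257] 4096 (.lc 3 1 (.lc 3 8 (.conf [20,113] (.node [120,128] 4 7 (.lc 1 8 (.lc 2 9 (.lc 0 8 (.lc 3 9 (.lc 3 10 (.lc 0 9 (.lc 3 10 (.lc 1 0 (.lc 3 9 (.lc 3 9 (.lc 3 10 (.lc 0 9 (.lc 4 10 (.lc 4 11 (.lc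 4 10 (.lc 4 10 (.lc 4 10 (.lc 5 11 .stop))))))))))))))))))
 (.lc 3 1 (.lc 3 8 (.lc 4 8 (.lc 4 9 .stop)))))))))
 (.lc 1 0 (.lc 2 2 (.lc 2 2 (.lc 2 2 (.lc 2 2 (.lc 2 2 (.lc 2 0 (.lc 2 0 (.lc 3 2 (.lc 3 2 (.lc 3 2 (.lc 3 2 (.lc 3 2 (.lc 3 2 (.node [104,128] 7 6 (.far [1,1,0,1,257] 4096 (.lc 3 1 (.lc 3 9 (.lc 1 0 (.lc 3 9 (.lc 4 10 .stop))))))
 (.lc 2 0 (.lc 2 0 (.lc 2 0 (.lc 2 0 (.lc 2 0 (.lc 3 0 (.lc 3 0 .stop)))))))))))))))))))))))))))))))))))))))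
 (.lc 3 0 (.lc 3 8 (.node [80] 6 5 (.lc 1 0 (.lc 1 0 (.lc 3 1 (.lc 3 8 (.lc 2 0 (.lc 2 0 (.lc 2 0 (.lc 3 1 (.node [97] 7 6 (.conf [20,113] (.lc 3 8 .stop))
 (.node [1,104] 7 6 (.conf [120,128] (.lc 3 1 (.lc 3 9 (.lc 1 0 (.lc 3 9 (.lc 4 10 .stop))))))
 (.lc 2 0 (.lc 2 0 (.lc 4 8 (.lc 3 0 (.conf [20,129] (.conf [1,128] (.node [104,129] 7 6 (.node [120] 7 8 (.lc 2 9 (.lc 3 9 (.lc 0 9 (.lc 3 10 (.lc 1 0 (.lc 0 9 (.lc 0 10 .stop)))))))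
 (.lc 3 9 (.lc 1 1 (.lc 3 9 (.lc 4 10 .stop)))))
 (.node [20,104] 7 6 (.conf [120,129] (.lc 3 9 (.lc 1 1 (.lc 3 9 (.lc 4 10 .stop)))))
 (.conf [20,129] .stop)))))))))))))))))))
 (.node [88,130] 6 5 (.lc 1 8 (.lc 1 8 (.lc 1 8 (.lc 3 0 (.lc 3 9 (.lc 2 8 (.lc 2 8 (.lc 2 8 (.lc 2 8 (.lc 2 8 (.lc 2 8 (.lc 2 8 (.lc 2 8 (.lc 2 8 (.lc 3 0 (.lc 3 1 (.lc 3 9 (.node [96,130] 6 0 (.conf [8,112] (.lc 2 8 (.lc 0 1 (.lc 0 9 (.lc 2 8 (.lc 3 8 .stop))))))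
 (.node [97,130] 6 1 .stop
 (.node [105,130] 7 6 (.node [121] 9 8 (.lc 1 2 (.lc 1 2 (.lc 0 7 (.lc 0 8 (.lc 1 2 (.far [1,1,1,0,1,257] 4096 (.lc 1 0 (.lc 2 2 (.lc 0 7 (.lc 2 2 (.lc 1 8 (.lc 2 2 (.lc 2 2 (.lc 0 7 (.lc 2 2 (.lc 2 2 (.lc 2 2 (.lc 1 8 (.lc 1 8 (.lc 2 2 (.lc 2 2 (.lc 1 0 (.lc 3 0 (.lc 1 0 (.lc 2 2 (.lc 2 2 (.lc 0 7 (.lc 2 2 (.lc 1 7 (.lc 1 7 (.lc 2 2 (.lc 2 2 (.lc 2 0 (.lc 1 0 (.lc 3 2 (.lc 3 2 (.lc 2 8 (.lc 3 2 (.lc 3 2 (.lc 1 10 (.lc 3 2 (.lc 3 2 (.lc 4 10 (.lc 2 0 (.lc 2 0 (.lc 2 0 (.lc 3 0 .stop)))))))))))))))))))))))))))))))))))))))))))))))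
 (.lc 3 0 (.lc 3 1 (.lc 3 10 (.node [112,152] 7 0 (.lc 2 1 (.lc 1 0 (.lc 3 10 .stop)))
 (.node [122,152] 9 8 (.lc 1 2 (.lc 1 2 (.lc 0 7 (.lc 1 2 (.lc 3 0 (.lc 1 0 (.lc 2 2 (.lc 2 2 (.lc 2 2 (.lc 2 2 (.lc 1 8 (.lc 2 2 (.lc 2 2 (.lc 1 0 (.lc 1 0 (.lc 2 2 (.lc 2 2 (.lc 1 7 (.lc 2 2 (.lc 2 0 (.lc 3 2 (.lc 3 2 (.lc 2 8 (.lc 3 2 (.lc 3 2 (.far [1,1,1,0,1,257] 4096 (.lc 2 0 (.lc 2 0 (.lc 2 0 (.lc 3 0 .stop))))))))))))))))))))))))))))))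
 (.lc 3 0 (.lc 3 10 (.lc 4 1 (.lc 4 10 (.lc 4 0 (.lc 4 11 .stop))))))))))))
 (.lc 2 8 (.lc 2 8 (.lc 2 8 (.lc 2 8 (.lc 2 8 (.lc 4 1 (.lc 4 9 (.lc 4 0 (.lc 4 10 (.lc 3 8 (.lc 3 8 (.lc 3 8 (.lc 3 8 (.lc 3 8 (.lc 3 8 (.conf [20,97] (.node [105,130,144] 0 8 .stop
 (.node [96,130,152] 6 0 (.lc 0 1 .stop)
 (.node [106,130,152] 7 6 (.node [122] 7 10 (.lc 2 0 (.lc 2 1 (.lc 2 11 (.lc 3 0 (.lc 3 11 (.lc 0 0 (.lc 1 10 (.lc 0 11 (.lc 3 1 (.lc 3 11 (.lc 3 0 (.lc 3 12 (.lc 3 0 (.lc 3 1 (.lc 3 11 (.lc 0 9 (.lc 0 0 (.lc 0 11 (.lc 4 1 (.lc 4 11 (.lc 4 0 (.lc 4 12 (.lc 0 11 (.lc 0 0 (.lc 0 12 (.lc 0 0 (.lc 0 11 (.lc 0 0 (.lc 0 11 (.lc 0 0 (.lc 1 9 (.lc 0 11 (.lc 0 11 (.lc 0 0 (.lc 0 12 .stop)))))))))))))))))))))))))))))))))))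
 (.lc 3 0 (.lc 3 1 (.lc 3 11 (.lc 1 9 (.lc 1 9 (.lc 3 0 (.lc 3 11 (.lc 4 1 (.lc 4 11 (.lc 4 0 (.lc 4 12 .stop))))))))))))
 (.lc 2 2 (.lc 2 2 (.lc 2 2 (.lc 2 2 (.lc 2 2 (.lc 2 2 (.lc 2 2 (.lc 2 2 (.lc 2 2 (.lc 2 2 (.lc 3 2 (.lc 3 2 (.lc 3 2 (.lc 3 2 (.lc 3 2 (.lc 3 2 .stop)))))))))))))))))))))))))))))))))))))))))))))))))))))))
 (.lc 3 0 (.lc 3 8 (.lc 4 8 (.lc 4 9 .stop)))))))))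
 (.node [50,70,101,80] 0 3 .stop
 (.node [50,83,50,70,96] 0 5 (.lc 1 3 (.node [83,117] 5 3 (.lc 1 2 (.lc 2 2 .stop))
 (.lc 2 3 (.node [83,117] 5 3 (.lc 1 2 (.lc 2 2 .stop))
 (.node [83,117,135] 5 3 (.lc 1 2 (.lc 2 2 .stop))
 .stop)))))
 (.node [50,83,101,50,64] 4 0 .stop
 (.node [50,83,101,50,71] 4 7 (.lc 2 0 (.lc 2 8 (.lc 3 8 (.lc 3 0 (.lc 3 9 (.lc 0 0 (.lc 2 6 (.lc 3 8 (.lc 3 0 (.lc 3 9 (.lc 3 8 (.lc 3 0 (.lc 3 9 (.lc 0 0 (.node [24,118] 7 6 (.conf [101,134] (.lc 2 5 (.lc 2 5 (.lc 2 5 (.lc 0 0 (.lc 0 2 (.lc 0 9 (.lc 2 5 (.lc 2 5 (.lc 2 5 (.lc 3 5 (.lc 3 5 (.lc 3 5 (.lc 3 5 (.lc 3 5 (.lc 3 5 .stop))))))))))))))))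
 (.lc 0 0 (.lc 2 6 (.lc 4 9 (.lc 4 9 (.lc 4 0 (.lc 4 10 (.lc 0 0 (.lc 3 6 (.lc 0 0 (.conf [25,152] (.lc 0 0 (.node [25,118,135] 8 7 (.node [101] 1 9 (.node [152] 9 8 (.lc 1 6 (.lc 1 6 (.lc 0 3 (.lc 1 6 (.lc 1 5 (.lc 1 5 (.lc 1 5 (.lc 0 3 (.lc 2 6 (.lc 0 2 (.lc 2 6 (.lc 0 3 (.lc 2 6 (.lc 2 6 (.lc 2 6 (.lc 2 6 (.lc 2 6 (.lc 2 6 (.lc 0 3 (.lc 1 5 (.lc 1 5 (.lc 2 6 (.lc 1 8 (.lc 1 3 (.lc 1 3 (.lc 2 6 (.lc 2 6 (.lc 4 0 (.node [83,146] 2 5 .stop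
 (.conf [154,165] (.lc 3 6 (.lc 2 8 (.lc 3 6 (.lc 3 6 (.lc 3 6 (.lc 2 5 (.lc 2 5 (.lc 2 5 (.lc 1 3 (.lc 1 3 (.lc 4 2 (.lc 4 10 (.lc 5 10 (.lc 5 2 (.lc 5 11 .stop)))))))))))))))))))))))))))))))))))))))))))))
 (.lc 1 3 (.lc 2 8 (.node [152,169] 9 8 (.lc 1 6 (.lc 0 3 (.lc 1 6 (.lc 1 6 (.lc 1 5 (.lc 1 5 (.lc 1 5 (.lc 0 3 (.lc 2 6 (.lc 0 2 (.lc 2 6 (.lc 0 3 (.lc 2 6 (.lc 2 6 (.lc 2 6 (.lc 2 6 (.lc 2 6 (.lc 2 6 (.lc 0 3 (.lc 1 5 (.lc 1 5 (.lc 2 6 (.lc 1 8 (.lc 1 3 (.lc 1 3 (.lc 2 6 (.lc 2 6 (.node [83,146] 2 5 .stop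
 (.lc 4 1 (.conf [155,181] (.lc 3 6 (.lc 2 8 (.lc 3 6 (.lc 3 6 (.lc 3 6 (.lc 2 5 (.lc 2 5 (.lc 2 5 (.lc 1 3 (.lc 1 3 (.lc 4 2 (.lc 4 11 (.lc 5 11 (.lc 5 2 (.lc 5 12 .stop)))))))))))))))))))))))))))))))))))))))))))))
 (.lc 2 8 (.lc 3 8 .stop))))))
 (.lc 1 5 (.lc 1 5 (.lc 1 5 (.lc 1 5 (.lc 1 5 (.lc 1 5 (.lc 3 0 (.lc 3 2 (.lc 3 10 (.lc 2 5 (.lc 2 5 (.lc 2 5 (.lc 2 5 (.lc 2 5 (.lc 2 5 .stop))))))))))))))))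
 (.lc 0 0 (.conf [25,152] (.lc 0 0 (.conf [26,169] .stop)))))))))))))))))))))))))))))))
 (.conf [50,70] (.conf [50,70] (.conf [50,64] (.conf [50,71] (.conf [50,70] (.conf [50,70] (.conf [50,64] (.conf [50,71] (.conf [50,70] (.conf [50,70] (.conf [50,64] (.conf [50,71] (.conf [50,71] (.conf [50,71] (.conf [50,71] (.conf [50,64] (.conf [50,72] .stop)))))))))))))))))))))))))))))))))))))))))))))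

theorem t29 : kNode2 awTt FTt 4 3 (check tyTt awTt triet FTt [s30] c29) (fun _ _ _ => true) 0 s29 Pl.nil s29 =
    true := by
  decide +kernel

end Chk
end Pool.Agent.Lib.MP_ba95e8_co
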