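import Pool.Agent.Lib.MP_ba95e8_co.ChkTab
import Pool.Agent.Lib.MP_ba95e8_co.ChkStates

/-!
Deltahedral domes: part 3 of the case analysis.
-/

namespace Pool.Agent.Lib.MP_ba95e8_co
namespace Chk

/-- certificate number 3 -/
def c3 : Cert := (.node [48] 3 0 (.lc 0 0 .stop)
 (.asm [] 0 (.node [54] 3 6 (.asm [] 1 (.lc 0 0 (.node [101,118,84,49] 6 5 (.node [84,96,118] 6 0 (.node [112] 7 0 (.lc 2 0 (.node [84] 7 5 (.node [116] 1 7 (.node [66] 1 4 .stop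
 .stop)
 (.lc 3 0 (.far [16,4096,0,16,0,16,4096] 0 .stop)))
 (.lc 3 4 (.far [16,16,4096] 0 (.lc 1 0 (.lc 3 8 (.lc 4 8 .stop)))))))
 (.far [4112,4112,4096,16,4112,4112,256] 0 .stop))
 (.node [84,98,118] 6 2 (.far [4096,0,4096,0,0,0,257] 4096 .stop)
 (.lc 1 3 (.node [84,104,118] 7 6 (.asm [120] 2 (.lc 1 5 (.lc 1 5 (.lc 1 5 (.lc 1 5 (.lc 1 5 (.lc 1 5 (.far [1,4112,4096,16,4112,4112,256] 0 (.far [1,4112,4096,16,4112,4112,256] 0 (.lc 2 5 (.lc 2 5 (.lc 2 5 (.lc 2 5 (.lc 2 5 .stop))))))))))))))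
 (.lc 2 4 (.lc 2 4 (.lc 2 4 (.lc 2 4 (.lc 2 4 (.node [99,112,84] 0 5 (.far [257,4096,4096,0,0,0,257] 4096 (.lc 1 2 (.node [84,133,40,84] 5 4 (.far [257,256,0,0,0,1,257,1] 4096 (.lc 2 2 (.lc 0 9 (.lc 2 2 (.lc 3 2 .stop)))))
 .stop)))
 (.lc 2 3 (.conf [99,133,84] (.conf [104,128] (.node [84,96,118] 7 6 (.far [1,4112,4096,16,4112,4112,256] 17 (.far [1,4112,4096,16,4112,4112,256] 0 .stop))
 (.lc 2 3 (.lc 2 3 (.node [84,96,133,118] 6 0 .stop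
 (.conf [105,152] (.lc 2 4 (.lc 2 4 (.lc 2 4 (.lc 2 4 (.lc 2 4 (.lc 2 4 (.lc 2 4 (.lc 2 4 (.conf [99,112] (.conf [99,114] (.lc 2 3 (.conf [99,120] (.lc 3 4 (.lc 3 4 (.lc 3 4 (.lc 3 4 (.lc 3 4 (.lc 3 4 (.conf [99,120] (.conf [99,112] (.lc 3 3 (.lc 3 3 (.conf [99,112] (.conf [99,121] (.lc 3 4 (.lc 3 4 (.lc 3 4 (.lc 3 4 (.lc 3 4 (.lc 3 4 (.lc 3 4 (.lc 3 4 (.lc 3 4 (.lc 3 4 (.lc 3 4 (.lc 3 4 (.lc 3 4 (.lc 3 4 (.lc 4 4 (.lc 4 4 (.lc 4 4 (.lc 4 4 (.lc 4 4 (.lc 4 4 .stop))))))))))))))))))))))))))))))))))))))))))))))))))))))))))))))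
 (.lc 0 0 (.far [4112,4112,4112,4112,256] 0 (.lc 0 0 (.far [257,257,257,257,4096] 0 (.lc 0 0 (.node [101,118,135,84,49] 7 6 (.node [101,112,135] 0 6 (.far [16,16,256,1,257,257,4096] 0 (.lc 1 4 (.lc 1 4 (.lc 1 4 (.node [84] 2 5 (.lc 0 2 .stop)
 (.lc 2 4 .stop))))))
 (.node [101,114,135] 2 6 .stop
 (.node [66,101,116,135] 4 6 (.lc 0 3 .stop)
 (.node [101,121,135] 6 5 (.far [257,16,256,1,257,257,4096] 0 (.lc 2 4 (.lc 2 4 (.lc 2 4 (.lc 0 0 (.lc 2 3 (.lc 0 10 (.lc 2 4 (.lc 2 4 (.lc 3 4 (.lc 3 4 (.lc 3 4 (.lc 3 4 .stop)))))))))))))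
 (.conf [99,112] (.lc 1 3 (.conf [99,121] (.conf [101,116] (.conf [101,121] (.conf [101,112] (.conf [70,101] (.conf [101,112] (.conf [101,114] (.conf [101,116] (.conf [101,122] (.conf [121,144] (.node [101,112,135] 2 6 .stop
 (.conf [70,101] (.conf [101,150] (.conf [101,150] (.lc 1 4 (.lc 1 4 (.lc 1 4 (.node [99,112,135,84] 7 0 (.far [257,256,16,4096] 0 (.lc 0 9 .stop))
 (.node [99,114,135,84] 7 2 (.lc 0 0 .stop)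
 (.lc 1 3 (.node [99,121,135,84] 8 7 (.conf [137,149] (.lc 3 0 (.lc 3 2 (.lc 3 4 (.lc 3 10 (.lc 1 5 (.lc 1 5 (.lc 3 0 (.lc 3 10 (.lc 4 10 (.lc 4 0 (.lc 4 2 (.lc 4 0 (.lc 4 11 .stop))))))))))))))
 (.conf [101,121] (.conf [101,112] (.conf [101,121] (.conf [101,112] (.conf [101,114] (.conf [101,121] (.conf [101,112] (.conf [101,122] (.lc 2 4 (.lc 2 4 (.lc 2 4 (.lc 2 4 (.conf [101,122] (.conf [101,121] (.conf [70,101] (.conf [70,101] (.conf [101,122] (.conf [101,112] (.conf [101,114] (.conf [101,112] (.conf [101,123] (.node [99,121,144,135,84] 0 5 (.node [84] 8 7 (.far [1,257,1,4096,0,0,0,257] 4096 (.lc 3 4 (.lc 3 10 (.lc 1 0 (.lc 3 10 (.lc 4 11 .stop))))))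
 (.lc 1 2 (.node [84,165,42,84] 8 7 (.node [137] 5 4 (.far [257,0,256,0,0,0,1,257,1] 4096 (.lc 2 2 (.lc 0 11 (.lc 2 2 (.lc 3 2 .stop)))))
 (.lc 3 4 (.lc 3 10 (.lc 3 11 (.lc 1 0 (.lc 3 11 (.lc 4 12 .stop)))))))
 .stop)))
 (.node [99,112,135,84] 8 7 (.conf [1,128] (.lc 3 9 .stop))
 (.lc 2 3 (.lc 2 3 (.conf [99,149,84] (.conf [99,149,84] (.lc 2 4 (.lc 2 4 (.lc 2 4 (.lc 2 4 (.lc 2 4 (.lc 2 4 (.lc 2 4 (.lc 2 4 (.lc 2 4 (.lc 2 4 (.lc 3 4 (.lc 3 4 (.lc 3 4 (.lc 3 4 (.lc 3 4 (.lc 3 4 .stop))))))))))))))))))))))))))))))))))))))))))))))))))))))))))))))))))))))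
 .stop)))))))))
 (.lc 0 0 (.conf [84,96,54] (.node [84,101,66,48] 3 0 (.lc 0 0 .stop)
 (.asm [84,101,66,49] 3 (.conf [84,118,55] (.conf [16,49] (.conf [49,84,101] (.lc 0 0 (.node [54,96,54] 3 6 (.far [4112,4112,4112,4112,256] 0 (.lc 2 0 (.far [4112,4112,4112,4112,256] 0 (.lc 2 0 (.lc 3 0 .stop)))))
 (.node [48,101,84] 3 0 (.lc 0 0 .stop)
 (.far [4112,4112,4112,256] 0 (.node [55,118,55,101] 3 7 (.far [4112,4112,4112,4112,256] 0 (.lc 0 0 (.lc 2 6 (.lc 0 0 (.far [4112,4112,4112,4112,256] 0 (.lc 0 0 (.lc 2 6 (.lc 0 0 (.lc 3 6 .stop)))))))))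
 (.conf [16,49,84] (.node [84,66,54] 0 5 (.node [84] 3 6 (.far [257,0,257,257,257,4096] 0 (.lc 2 0 (.node [118] 5 4 (.lc 1 2 .stop)
 (.lc 2 0 (.lc 3 0 .stop)))))
 (.lc 1 2 (.conf [84,117] .stop)))
 (.node [84,101,66,48] 3 0 (.lc 0 0 .stop)
 (.far [257,257,257,4096] 0 (.node [84,101,66,55] 3 7 (.far [257,257,257,257,4096] 0 (.lc 0 0 (.lc 2 6 (.lc 0 0 (.node [135] 6 5 (.node [84,96] 0 5 (.node [66] 6 0 (.node [24,135] 6 1 .stop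
 (.node [100] 6 4 (.lc 0 2 .stop)
 (.conf [16,135] (.lc 3 0 .stop))))
 (.lc 1 2 (.lc 1 2 .stop)))
 (.node [84,98] 2 5 (.lc 0 2 .stop)
 (.node [84,104,135] 8 5 .stop
 (.node [84,105] 5 4 (.node [66] 7 6 (.node [105,112] 0 6 (.node [148] 7 0 (.node [121,135] 7 9 .stop
 (.lc 3 0 .stop))
 (.lc 1 4 (.lc 1 4 (.lc 1 4 (.far [1,1,4112,4096,0,1,256] 17 (.lc 2 4 .stop))))))
 (.node [105,114] 2 6 .stop
 (.lc 2 3 (.node [105,122] 6 9 (.node [148] 7 10 (.node [112,169,135] 7 0 (.node [128] 8 0 (.node [138] 8 10 .stop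
 .stop)
 (.lc 0 11 .stop))
 (.node [114,169,135] 7 2 (.lc 0 0 .stop)
 (.node [115,138] 8 10 (.node [128,169] 8 0 (.node [] 10 9 (.node [148] 9 4 (.far [257,16,0,0,0,16,0,4096,4096] 0 .stop)
 (.far [4112,0,1,1,256,256] 17 (.far [256,0,16,16,4112,4096,4096,4096] 0 .stop)))
 .stop)
 (.node [130,169] 8 2 .stop
 (.lc 1 6 (.node [139,169] 1 8 (.node [27] 10 9 (.node [148] 1 11 (.node [185] 11 9 .stop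
 (.node [185,203,185] 11 9 .stop
 .stop))
 (.conf [148,166,180] (.far [4112,0,1,1,256,256] 0 (.far [4112,0,1,1,256,256] 0 (.conf [148,166,178] .stop)))))
 (.lc 1 10 (.lc 1 10 (.lc 1 10 (.far [1,4112,4128,4112,8208,0,4112,1,256] 4097 (.lc 2 10 .stop))))))
 (.lc 2 6 (.lc 2 6 (.lc 3 1 (.lc 3 1 (.conf [139,176] (.node [128,169] 2 10 (.far [16,16,16,4096,4096] 17 .stop)
 (.node [128,169,186,169] 8 0 (.far [4112,4112,4128,4112,8208,0,4112,1,256] 0 .stop)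
 (.conf [140,203] (.lc 2 6 (.lc 3 1 (.lc 3 1 (.lc 3 6 (.lc 4 1 (.lc 4 1 .stop))))))))))))))))))
 (.lc 1 6 (.node [123,169,135] 8 7 (.node [139] 10 9 (.node [148,160] 0 9 (.node [66] 0 4 (.far [257,257,1,1,4112,4096,4096,0,0,4096,0,0,0,257] 4096 .stop)
 (.far [256,0,1,4112,4112,4096,4096,4096,4096,0,0,0,257] 4096 (.far [16,16,0,0,16,0,4096,4096] 0 (.lc 1 2 .stop))))
 (.node [148,162] 2 9 (.lc 0 2 .stop)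
 (.lc 1 4 (.lc 2 6 (.node [148,172] 9 4 (.node [66] 11 10 (.node [188] 12 4 (.node [194] 11 12 (.node [178] 11 2 .stop
 (.far [16,257,4096,4096,4096] 17 .stop))
 (.node [196,66,178] 11 2 .stop
 (.far [16,0,16,0,0,0,0,0,16,0,0,0,16,4096] 17 (.far [16,0,16,0,0,0,0,0,16,0,0,0,16,4096] 0 .stop))))
 (.conf [176,196,166] (.conf [178,196,166] (.conf [189,196,220] (.far [16,0,257,0,16,4096,4096] 0 (.far [16,0,257,0,16,4096,4096] 0 (.far [1,0,4112,0,1,256,256] 0 (.far [1,0,4112,0,1,256,256] 0 (.conf [189,196,166] (.conf [176,196,166] (.conf [176,196,166] (.conf [190,196,166] .stop))))))))))))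
 (.conf [66,148,194] (.far [4112,1,0,0,1,0,256,256] 0 (.lc 2 2 (.far [4112,1,0,0,1,0,256,256] 0 (.far [257,16,0,0,16,0,4096,4096] 0 (.conf [66,148,192] (.conf [66,148,205] .stop))))))))
 (.node [148,160,66] 0 4 (.far [257,1,1,4112,4096,4096,0,0,4096,0,0,0,257] 4096 .stop)
 (.lc 1 2 (.lc 3 6 (.conf [148,172,196] (.node [166,176,148] 0 9 (.far [16,256,0,16,4112,4096,4096,4096] 0 .stop)
 (.conf [166,188,201] (.lc 3 6 (.node [148,172,192,172] 0 9 (.far [16,16,0,0,16,0,4096,4096] 0 .stop)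
 (.node [148,160] 2 9 (.lc 0 2 .stop)
 (.lc 2 4 (.node [148,160,201,148] 10 0 .stop
 (.lc 3 6 (.node [148,201,220,148,173] 9 4 (.far [257,16,0,0,16,0,4096,4096] 0 (.lc 2 2 (.lc 0 0 (.lc 2 2 (.lc 0 14 (.lc 2 2 (.lc 3 2 (.lc 3 2 .stop))))))))
 (.node [66,148,32] 10 2 (.far [257,257,0,16,4096,4096] 0 (.far [4096,0,1,4096,0,0,0,0,4096,0,0,0,257] 4096 (.far [4096,0,1,4096,0,0,0,0,4096,0,0,0,257] 4096 (.node [188,194,139] 8 11 (.node [140] 8 12 (.node [28] 12 2 .stop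
 (.far [4112,4112,0,0,4097,8224,4112,8208,0,4112,1,256] 4097 .stop))
 (.lc 3 1 (.lc 1 2 (.lc 1 2 (.lc 4 1 .stop)))))
 (.far [257,257,0,16,4096,4096] 17 (.node [188,192,139] 8 11 (.far [16,257,257,4096,4128,8208,8192,4096,4096] 17 (.lc 3 1 (.lc 1 0 .stop)))
 .stop))))))
 (.node [148,166,180] 11 4 (.far [1,257,0,0,0,0,1,0,0,0,1,256] 0 (.lc 3 4 (.far [1,1,2,8208,4096,4096,0,0,8192,0,0,16,513] 4096 (.node [32,188,194,188,139] 8 11 (.node [140] 8 12 (.node [28] 12 2 .stop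
 (.far [4112,4112,0,0,4097,8224,4112,8208,0,4112,1,256] 4097 .stop))
 (.lc 3 1 (.lc 1 2 (.lc 1 2 (.lc 4 1 .stop)))))
 .stop))))
 (.node [166,176,139,148] 0 9 (.far [1,1,0,0,1,0,256,256] 0 (.far [257,1,0,0,1,0,257,256,0,0,1,256] 0 (.far [256,0,1,4112,4112,4096,4096,4096,4096,0,0,0,257] 4096 (.lc 1 2 .stop))))
 (.node [166,178,139,148] 2 9 (.lc 0 2 .stop)
 (.lc 2 4 (.node [166,188,201,139] 8 11 (.node [140] 12 9 (.far [1,0,1,0,0,1,0,256,256] 0 (.lc 3 2 (.node [66,32] 8 12 (.node [28] 1 12 .stop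
 (.far [4112,0,4097,8224,257,0,272,16,0,4112,1,256] 4097 .stop))
 (.lc 3 0 (.lc 1 2 (.lc 3 13 (.lc 4 0 (.lc 4 13 .stop))))))))
 (.lc 3 1 (.far [16,257,4096,4112,4096,4096] 0 (.conf [141,220] (.lc 4 1 .stop)))))
 (.far [16,0,0,16,0,4112,4096,0,0,16,4096] 17 (.lc 4 6 (.conf [148,172,194] (.node [166,188,192,139,148] 0 9 (.far [16,16,0,16,4128,4096,8208,8192,0,0,16,4096] 0 .stop)
 (.node [166,176,139,148] 2 9 (.lc 0 2 .stop)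
 (.lc 3 4 (.conf [166,201,148] (.conf [166,201,148] (.far [4096,0,1,257,256,256,256] 0 (.lc 2 2 (.conf [148,196,66] (.conf [66,178,32] (.far [256,0,16,4112,4096,4096,4096] 0 (.far [1,2,8208,4096,4096,0,0,8192,0,0,16,513] 4096 (.node [66,148,188,194,139,32] 8 11 (.node [140] 8 12 (.node [28] 12 2 .stop
 (.far [4112,4112,0,4097,8224,4112,8208,0,4112,1,256] 4097 .stop))
 (.lc 3 1 (.lc 1 2 (.lc 1 2 (.lc 4 1 .stop)))))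
 .stop)))))))))))))))))))))))))))))))))))))))
 (.lc 3 0 (.lc 3 2 (.lc 3 12 (.lc 1 10 (.lc 1 10 (.lc 3 0 (.lc 3 12 (.lc 4 12 (.lc 4 0 (.lc 4 0 (.lc 4 13 .stop))))))))))))
 (.lc 2 9 (.lc 2 9 (.lc 2 9 (.lc 2 9 (.lc 2 9 (.lc 2 9 (.lc 2 9 (.lc 2 9 (.lc 2 9 (.lc 3 3 (.lc 3 3 (.far [4112,4112,4096,4112,4096,4096,0,16,4112,256] 0 (.conf [123,176] (.node [112,169,135] 8 7 (.far [1,4112,4112,4096,4112,4096,4096,0,16,4112,256] 0 (.lc 3 11 .stop))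
 (.node [112,169,186,135] 7 0 .stop
 (.conf [139,169,186] (.conf [124,203] (.lc 2 9 (.lc 2 9 (.lc 2 9 (.lc 2 9 (.lc 2 9 (.lc 2 9 (.lc 2 9 (.lc 3 3 (.lc 3 3 (.lc 3 3 (.lc 3 3 (.lc 3 3 (.lc 3 3 (.lc 3 3 (.lc 3 9 (.lc 3 9 (.lc 3 9 (.lc 3 9 (.lc 3 9 (.lc 3 9 (.lc 3 9 (.lc 3 9 (.lc 3 9 (.lc 3 9 (.lc 4 3 (.lc 4 3 (.lc 4 3 (.lc 4 3 (.lc 4 3 (.lc 4 3 (.lc 4 3 (.lc 4 3 (.lc 4 3 (.lc 4 3 (.lc 4 3 (.lc 4 3 (.lc 4 3 (.lc 4 3 (.lc 4 3 (.lc 4 3 (.lc 4 3 (.lc 4 3 (.lc 4 3 (.lc 5 3 (.lc 5 3 (.lc 5 3 (.lc 5 3 (.lc 5 3 (.lc 5 3 .stop)))))))))))))))))))))))))))))))))))))))))))))))))))))))))))))))))))))))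
 (.lc 2 4 (.lc 2 4 (.lc 2 4 (.lc 2 4 (.lc 0 0 (.lc 0 11 (.lc 2 4 (.lc 2 4 (.lc 3 4 (.lc 3 4 (.lc 3 4 (.lc 3 4 .stop)))))))))))))
 (.lc 2 5 (.lc 2 5 (.lc 2 5 (.lc 3 10 (.lc 3 0 (.lc 3 0 (.lc 3 2 (.lc 3 11 (.lc 3 3 (.conf [122,160] (.node [105,112] 2 6 .stop
 (.conf [105,166] (.lc 3 3 (.conf [105,166] (.lc 2 5 (.lc 2 5 (.lc 2 5 (.lc 2 5 (.lc 2 5 (.lc 2 5 (.lc 2 5 (.lc 2 5 (.lc 3 10 (.lc 3 0 (.lc 3 10 (.lc 3 2 (.lc 3 0 (.lc 3 11 (.lc 3 5 (.lc 3 5 (.lc 3 5 (.lc 3 5 (.lc 3 5 (.lc 3 5 (.lc 4 11 (.lc 4 10 (.lc 4 11 (.lc 4 0 (.lc 4 0 (.lc 4 12 (.lc 3 5 (.lc 3 5 (.lc 3 5 (.lc 3 5 (.lc 3 5 (.lc 3 5 (.lc 3 5 (.lc 3 5 (.lc 3 5 (.lc 3 5 (.lc 3 5 (.lc 3 5 (.lc 3 5 (.lc 3 5 (.lc 3 5 (.lc 4 5 (.lc 4 5 (.lc 4 5 (.lc 4 5 (.lc 4 5 (.lc 4 5 .stop)))))))))))))))))))))))))))))))))))))))))))))))))))))))))))))))))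
 (.lc 2 2 (.lc 2 2 (.lc 2 2 (.lc 0 0 (.lc 2 2 (.lc 0 10 (.lc 2 2 (.lc 2 2 (.lc 3 2 (.lc 3 2 (.lc 3 2 .stop))))))))))))
 (.conf [83,96] (.lc 1 2 (.conf [83,105] (.conf [24,97] (.conf [84,104] (.conf [84,105] (.conf [84,96] (.conf [84,96] (.conf [84,98] (.conf [84,104] (.conf [84,106] (.conf [105,144] (.node [84,96] 2 5 (.lc 0 2 .stop)
 (.conf [84,149] (.conf [84,149] (.lc 1 2 (.lc 1 2 (.lc 1 2 (.node [83,96,118,135,66] 6 0 (.node [112] 0 4 (.lc 1 0 (.far [257,16,1] 0 (.lc 0 0 .stop)))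
 (.lc 0 9 .stop))
 (.lc 1 2 (.conf [104,132] (.node [83,105,118,135,66] 7 6 (.node [121] 9 4 (.node [66,144] 0 4 (.far [1,1,0,257,0,0,1,256] 0 .stop)
 (.lc 1 2 (.lc 2 4 (.node [132,135] 8 4 .stop
 (.node [66,154] 10 4 (.far [1,1,0,257,0,0,1,256] 0 (.far [257,1,1,1,4112,4096,0,0,257] 4096 (.node [130,135,168,66,130] 8 2 .stop
 (.node [32,171,178,66] 11 2 (.far [1,257,1,1,1,4112,4096,0,0,257] 4096 (.lc 3 8 (.lc 3 12 (.node [192] 7 9 (.lc 2 3 (.lc 1 4 (.node [123,154,188,171,192] 7 11 (.lc 0 12 .stop)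
 (.node [124,192,201] 7 12 .stop
 (.node [125,154] 9 10 (.far [257,16,0,0,257,4096,1] 0 (.conf [188,219] (.conf [171,234] (.lc 1 12 (.lc 2 12 .stop)))))
 (.lc 3 3 (.lc 2 4 (.lc 3 3 (.lc 2 4 (.lc 1 9 (.lc 3 3 (.conf [126,237] (.lc 2 4 (.lc 3 3 (.lc 3 3 (.lc 3 3 (.lc 3 3 (.lc 3 3 (.lc 4 3 (.lc 3 4 (.lc 4 3 (.lc 4 3 (.lc 4 3 (.lc 4 3 (.lc 4 3 (.lc 4 3 (.lc 5 3 .stop)))))))))))))))))))))))))))
 (.lc 3 12 (.lc 4 13 .stop))))))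
 (.node [] 7 9 (.lc 2 3 (.lc 1 4 (.node [123,154] 8 7 (.node [139] 9 10 (.far [257,0,16,0,257,4096,1] 0 (.conf [160,188,202] (.node [188,202,139,160] 8 11 (.far [1,4112,258,4096,1,4096,0,0,8192,0,0,16,513] 4096 (.lc 3 1 (.lc 1 10 .stop)))
 (.far [257,0,16,0,257,4096,1] 0 (.conf [160,189,148] .stop)))))
 (.lc 3 10 (.lc 3 12 (.lc 1 9 (.lc 3 12 (.lc 4 13 .stop))))))
 (.lc 3 3 (.lc 2 4 (.lc 3 3 (.lc 3 3 (.lc 3 3 (.lc 2 4 (.lc 3 3 (.conf [124,203] (.lc 3 3 (.lc 2 4 (.lc 3 3 (.lc 3 3 (.lc 3 3 (.lc 4 3 (.lc 3 4 (.lc 4 3 (.lc 4 3 (.lc 4 3 (.lc 4 3 (.lc 4 3 (.lc 5 3 .stop))))))))))))))))))))))))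
 (.node [32,178,171] 11 2 (.node [176] 7 9 (.node [112,154] 7 0 .stop
 (.lc 2 3 (.lc 1 4 (.node [124,154] 8 7 (.node [140] 9 10 (.far [257,0,16,0,0,257,4096,1] 0 (.lc 2 11 (.lc 2 11 (.node [205,218,140,171,176] 8 12 (.far [1,4112,258,4096,1,1,4096,0,0,8192,0,0,16,513] 4096 (.lc 3 1 (.lc 1 10 (.lc 4 1 .stop))))
 (.lc 2 11 (.lc 3 11 .stop))))))
 (.lc 3 0 (.lc 3 10 (.lc 3 13 (.lc 1 9 (.lc 3 13 (.lc 4 14 .stop)))))))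
 (.lc 3 3 (.lc 2 4 (.lc 3 3 (.lc 3 3 (.lc 3 3 (.lc 2 4 (.lc 3 3 (.conf [125,220] (.lc 2 4 (.lc 3 3 (.lc 2 4 (.lc 3 3 (.lc 3 3 (.lc 3 3 (.lc 3 3 (.lc 4 3 (.lc 3 4 (.lc 4 3 (.lc 4 3 (.lc 4 3 (.lc 4 3 (.lc 4 3 (.lc 4 3 (.lc 5 3 .stop))))))))))))))))))))))))))))
 (.lc 3 8 (.lc 3 12 (.node [188,192,188,171] 7 9 (.lc 2 3 (.lc 1 4 (.lc 0 0 (.node [125,154] 9 10 (.far [257,16,0,0,257,4096,1] 0 (.lc 2 11 (.lc 2 11 (.lc 2 11 (.lc 0 14 (.lc 2 11 (.lc 3 11 .stop)))))))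
 (.lc 3 3 (.lc 2 4 (.lc 3 3 (.lc 3 3 (.lc 3 3 (.lc 2 4 (.lc 3 3 (.conf [154,217] (.lc 3 3 (.lc 2 4 (.lc 2 4 (.lc 3 3 (.lc 3 3 (.lc 3 3 (.lc 3 3 (.lc 4 3 (.lc 3 4 (.lc 4 3 (.lc 4 3 (.lc 4 3 (.lc 4 3 (.lc 4 3 (.lc 4 3 (.lc 5 3 .stop))))))))))))))))))))))))))))
 (.lc 3 12 (.lc 4 13 .stop))))))
 (.far [1,1,0,257,0,0,1,256] 0 (.far [1,1,0,257,0,0,1,256] 0 (.node [171,176,66] 7 9 (.lc 2 3 (.lc 1 4 (.node [123,176,185,171] 7 11 .stop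
 (.node [124,154] 9 10 (.far [257,16,0,257,4096,1] 0 (.conf [164,176] (.conf [171,218] (.far [257,16,0,257,4096,1] 0 (.conf [176,205,219] .stop)))))
 (.lc 3 3 (.lc 2 4 (.lc 3 3 (.lc 2 4 (.lc 3 3 (.conf [125,220] (.lc 2 4 (.lc 3 3 (.lc 3 3 (.lc 3 3 (.lc 3 3 (.lc 4 3 (.lc 3 4 (.lc 4 3 (.lc 4 3 (.lc 4 3 (.lc 4 3 (.lc 4 3 (.lc 5 3 .stop)))))))))))))))))))))))
 (.node [32,172,178,203,66,172,178] 11 2 (.node [176] 7 9 (.node [112,154] 7 0 .stop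
 (.lc 2 3 (.lc 1 4 (.node [124,201] 7 12 .stop
 (.node [125,154] 9 10 (.far [257,16,0,0,257,4096,1] 0 (.lc 2 4 (.conf [172,234] (.lc 2 4 (.lc 3 4 .stop)))))
 (.lc 3 3 (.lc 2 4 (.lc 3 3 (.lc 2 4 (.lc 3 3 (.conf [126,237] (.lc 2 4 (.lc 3 3 (.lc 3 3 (.lc 3 3 (.lc 3 3 (.lc 3 3 (.lc 4 3 (.lc 3 4 (.lc 4 3 (.lc 4 3 (.lc 4 3 (.lc 4 3 (.lc 4 3 (.lc 5 3 .stop)))))))))))))))))))))))))
 (.lc 3 8 (.lc 3 13 (.conf [189,208] (.lc 3 13 (.lc 4 14 .stop))))))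
 .stop))))))))))
 (.lc 2 2 (.lc 2 2 (.lc 3 1 (.lc 3 8 (.lc 3 10 (.lc 2 2 (.lc 2 2 (.lc 2 2 (.lc 3 0 (.lc 3 8 (.lc 3 11 (.node [66,154,160] 0 4 (.far [256,0,0,0,0,0,0,1,1] 4096 .stop)
 (.lc 2 2 (.lc 2 2 (.lc 0 3 (.node [66,144,164,66] 9 0 (.node [24,135] 9 1 .stop
 (.conf [16,135] .stop))
 (.node [66,164,186,66] 10 4 (.node [162] 7 9 (.node [112,155] 7 0 (.node [128] 0 9 .stop
 (.lc 0 12 .stop))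
 (.lc 2 3 (.lc 1 4 (.node [124,155] 9 11 (.node [186] 7 12 (.node [140] 11 10 (.node [162,176] 0 10 (.far [256,0,4112,4112,4096,257,4096,0,0,4096,0,0,0,257] 4096 .stop)
 (.node [162,189] 12 11 (.node [205] 8 12 (.node [141] 13 10 (.node [210] 8 13 .stop
 (.far [16,0,16,256,0,16,0,257,4096] 17 .stop))
 (.conf [29,129] (.far [16,257,0,16,4096,4096] 0 (.conf [142,237] (.conf [16,129] .stop)))))
 (.lc 3 7 (.lc 1 10 (.lc 1 10 .stop))))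
 (.conf [162,176] (.conf [162,189] (.conf [162,185] (.conf [162,185] (.conf [189,208] (.conf [162,218] (.conf [162,218] (.conf [162,176] (.node [162,185,194] 12 2 .stop
 (.lc 0 7 (.conf [162,189] (.far [256,0,16,0,257,4096] 17 .stop))))))))))))))
 (.lc 0 0 (.lc 0 13 (.lc 0 0 (.lc 0 13 (.lc 2 11 (.lc 2 11 (.lc 0 13 (.lc 0 0 (.lc 0 14 .stop))))))))))
 (.lc 2 10 (.lc 2 10 (.lc 2 10 (.lc 0 0 (.lc 0 13 (.lc 2 10 (.lc 2 10 (.lc 3 10 (.lc 3 10 (.lc 3 10 .stop)))))))))))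
 (.lc 2 4 (.lc 3 3 (.lc 2 4 (.lc 3 3 (.lc 3 3 (.lc 3 3 (.lc 3 3 (.conf [124,192] (.lc 2 4 (.lc 3 3 (.lc 2 4 (.conf [155,201] (.lc 3 3 (.conf [155,201] (.lc 2 4 (.lc 3 3 (.lc 2 4 (.lc 3 3 (.lc 3 3 (.lc 3 3 (.lc 3 3 (.lc 4 3 (.lc 3 4 (.lc 3 4 (.lc 4 3 (.lc 3 4 (.lc 4 3 (.lc 4 3 (.lc 4 3 (.lc 4 3 (.lc 4 3 (.lc 4 3 (.lc 4 3 (.lc 4 3 (.lc 4 3 (.lc 4 3 (.lc 4 3 (.lc 5 3 (.lc 5 3 (.lc 5 3 .stop))))))))))))))))))))))))))))))))))))))))))))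
 (.lc 3 0 (.lc 3 8 (.lc 3 12 (.node [160] 7 9 (.lc 2 3 (.lc 1 4 (.node [124,155] 9 11 (.far [257,16,16,256,4096,4096,0,0,16,4096] 17 (.lc 2 10 (.lc 2 10 (.lc 0 13 (.lc 2 10 (.lc 3 10 .stop))))))
 (.lc 3 3 (.lc 2 4 (.lc 3 3 (.lc 3 3 (.lc 3 3 (.lc 2 4 (.lc 3 3 (.conf [155,201] (.lc 3 3 (.lc 2 4 (.lc 3 3 (.lc 3 3 (.lc 3 3 (.lc 4 3 (.lc 3 4 (.lc 4 3 (.lc 4 3 (.lc 4 3 (.lc 4 3 (.lc 4 3 (.lc 5 3 .stop))))))))))))))))))))))))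
 (.conf [32,172,194] (.lc 3 0 (.lc 3 12 (.lc 4 12 (.lc 4 13 .stop))))))))))
 (.lc 2 2 (.lc 2 2 (.lc 2 2 (.lc 2 2 (.lc 2 2 (.lc 2 2 (.lc 2 2 (.lc 3 10 (.lc 3 8 (.lc 2 2 (.lc 2 2 (.lc 3 0 (.lc 3 10 (.lc 3 0 (.lc 3 11 (.lc 3 2 (.lc 3 2 (.lc 3 2 (.lc 4 8 (.lc 4 11 (.lc 3 2 (.lc 3 2 (.lc 4 11 (.lc 4 0 (.lc 4 12 (.lc 3 2 (.lc 3 2 (.lc 3 2 (.lc 3 2 (.lc 3 2 (.lc 3 2 (.lc 3 2 (.lc 3 2 (.lc 3 2 (.lc 4 2 (.lc 4 2 .stop))))))))))))))))))))))))))))))))))))))))))))))))))))))))))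
 (.lc 3 0 (.lc 3 2 (.lc 3 10 (.lc 1 4 (.lc 3 3 (.lc 1 4 (.lc 3 0 (.lc 3 10 (.lc 4 10 (.lc 4 0 (.lc 4 0 (.lc 4 11 .stop)))))))))))))
 (.conf [84,105] (.conf [84,104] (.conf [84,96] (.conf [84,105] (.conf [84,96] (.conf [84,105] (.conf [84,96] (.conf [84,106] (.lc 2 2 (.lc 2 2 (.lc 2 2 (.conf [84,104] (.conf [84,106] (.conf [84,105] (.conf [84,106] (.conf [84,96] (.conf [84,96] (.conf [84,107] (.node [83,105,144,118,135,66] 0 4 (.lc 1 0 .stop)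
 (.lc 2 2 (.lc 2 2 (.conf [83,148,66] (.conf [83,148,66] (.lc 2 2 (.lc 2 2 (.lc 2 2 (.lc 2 2 (.lc 2 2 (.lc 2 2 (.lc 2 2 (.lc 2 2 (.lc 2 2 (.lc 2 2 (.lc 2 2 (.lc 2 2 (.lc 3 2 (.lc 3 2 (.lc 3 2 (.lc 3 2 (.lc 3 2 .stop))))))))))))))))))))))))))))))))))))))))))))))))))))))))))))))))))
 (.lc 0 0 (.lc 2 6 (.lc 0 0 (.lc 3 6 .stop)))))))))
 (.conf [16,49] (.node [49,84,101,66] 5 4 (.node [66,80] 5 0 (.node [96] 6 0 (.lc 2 0 (.node [66] 6 4 (.node [98] 1 6 .stop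
 (.far [16,4096,0,16,0,16,4096] 0 .stop))
 (.lc 3 7 .stop)))
 (.far [4112,4112,4096,16,4112,256] 0 .stop))
 (.lc 1 2 (.node [66,87] 6 5 (.asm [103] 4 (.lc 1 4 (.lc 1 4 (.lc 1 4 (.lc 1 4 (.lc 1 4 (.far [1,4112,4096,16,4112,256] 0 (.far [1,4112,4096,16,4112,256] 0 (.lc 2 4 (.lc 2 4 (.lc 2 4 (.lc 2 4 .stop))))))))))))
 (.lc 2 2 (.lc 2 2 (.lc 2 2 (.lc 3 3 (.lc 2 2 (.lc 3 3 (.conf [87,112] (.lc 2 2 (.lc 2 2 (.node [66,80,116] 5 0 .stop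
 (.conf [88,135] (.lc 2 2 (.lc 2 2 (.lc 2 2 (.lc 2 2 (.lc 2 2 (.lc 3 3 (.lc 2 2 (.lc 3 3 (.lc 3 2 (.lc 3 2 (.lc 3 2 (.lc 3 2 (.lc 4 3 (.lc 3 2 (.lc 3 2 (.lc 4 3 (.lc 4 3 (.lc 3 2 (.lc 3 2 (.lc 3 2 (.lc 3 2 (.lc 3 2 (.lc 3 2 (.lc 3 2 (.lc 3 2 (.lc 3 2 (.lc 4 2 (.lc 4 2 (.lc 4 2 (.lc 4 2 .stop))))))))))))))))))))))))))))))))))))))))))))
 (.lc 0 0 (.node [49,84,66] 5 4 (.node [66] 0 4 (.lc 1 0 (.node [66] 6 4 (.node [98,101] 0 6 (.far [256,256,0,0,0,0,1,1] 4096 (.far [256,0,0,4112,1,256] 0 .stop))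
 (.far [16,16,16,0,16,4096] 0 .stop))
 (.node [66] 5 0 (.node [87] 6 5 (.far [1,4112,0,4112,1,256] 0 (.lc 3 2 (.lc 3 8 (.node [116,135,80] 7 4 (.lc 0 2 .stop)
 (.lc 3 8 (.lc 4 9 .stop))))))
 (.lc 3 0 (.lc 0 7 (.far [16,257,4096] 0 (.lc 3 0 (.lc 4 0 .stop))))))
 (.node [100,101,118,66] 6 4 .stop
 (.node [101,103,116,66] 0 6 (.far [4112,4112,256] 0 .stop)
 (.node [66,116,135,66] 7 4 (.far [16,16,16,0,16,4096] 0 (.lc 3 6 (.lc 3 9 (.conf [98,118] (.conf [32,121,146] (.lc 3 6 (.lc 3 9 (.lc 4 9 (.lc 4 6 (.lc 4 10 .stop))))))))))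
 .stop))))))
 (.lc 1 2 (.lc 2 3 (.node [66] 6 5 (.node [87] 0 5 (.far [1,1,4112,1,256] 0 (.far [256,0,257,0,1,257,1] 4096 (.far [256,0,257,0,1,257,1] 4096 (.node [116,135,80] 0 8 (.far [257,256,0,257,0,1,257,1] 4096 (.far [4112,4112,256] 0 (.lc 2 7 (.lc 2 7 (.lc 2 7 (.node [135,152,41,135,116] 4 2 (.lc 0 8 (.lc 3 2 (.conf [74,169] .stop)))
 (.conf [105,135,152] (.lc 2 7 (.lc 2 7 (.lc 3 7 (.lc 3 7 .stop)))))))))))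
 (.far [1,1,4112,1,256] 17 (.node [116,135,40,80] 4 2 (.far [1,4096,0,4112,0,16,4096] 17 (.lc 1 7 .stop))
 .stop))))))
 (.node [87] 2 5 .stop
 (.far [1,4112,1,256] 0 (.node [87] 5 7 (.far [4112,1,4112,1,256] 0 (.conf [116,128,83] (.conf [116,130,83] (.conf [116,137,83] (.far [4112,1,4112,1,256] 0 (.far [4112,1,4112,1,256] 0 (.node [116,83] 0 7 (.far [257,4112,1,4112,1,256,0,257] 4096 (.lc 1 2 (.conf [116,151] (.lc 1 2 .stop))))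
 (.node [116,151,83] 7 4 (.node [66,112,151] 7 0 (.node [144] 0 4 (.far [257,4112,4096,4112,1,4112,1,256,0,257] 4096 .stop)
 (.lc 0 1 (.lc 0 10 (.lc 2 0 .stop))))
 (.lc 1 2 (.node [66,104,118,151] 7 6 .stop
 (.node [66,122,151] 9 7 (.node [154] 10 4 (.node [162] 9 10 (.node [144,162] 9 0 (.node [128] 0 10 (.far [257,0,1,0,257,0,4112,1,4112,1,256,0,257] 4096 .stop)
 (.node [129,22] 8 1 (.lc 0 1 .stop)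
 (.far [4112,4112,0,4096,4112,1,0,256] 0 .stop)))
 (.lc 1 2 (.node [104,106,150] 9 6 (.lc 0 5 .stop)
 (.node [155,162] 8 9 (.node [139] 11 10 (.node [178] 11 2 (.far [1,257,0,1,0,257,0,4112,1,4112,1,256,0,257] 4096 (.lc 3 2 (.node [188,192,188] 8 11 (.far [1,4112,4112,256,256] 0 (.lc 3 5 (.lc 1 0 (.lc 1 0 (.lc 3 5 (.lc 4 5 .stop))))))
 (.lc 0 5 .stop))))
 (.far [257,0,1,0,257,0,4112,1,4112,1,256,0,257] 4096 (.far [16,0,16,257,4096,4096] 17 (.far [1,0,1,4112,256,256] 0 (.far [1,0,1,4112,256,256] 0 (.node [188,192,162] 8 11 (.far [1,4096,256,257,4112,256,256] 0 (.lc 3 5 (.lc 1 0 (.lc 1 0 (.lc 3 5 (.lc 4 5 .stop))))))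
 .stop))))))
 (.lc 1 10 (.lc 1 10 (.lc 1 10 (.lc 3 5 (.lc 1 10 (.far [1,4112,0,4096,4112,1,0,256] 0 (.far [1,4112,0,4096,4112,1,0,256] 0 (.lc 2 10 (.lc 2 10 (.lc 2 10 .stop)))))))))))
 (.lc 2 2 (.lc 2 2 (.lc 3 7 (.lc 0 5 (.lc 3 7 (.conf [155,176] (.lc 2 2 (.node [144,162,186,162] 9 0 .stop
 (.conf [156,203] (.lc 2 2 (.lc 3 7 (.lc 3 7 (.lc 3 7 (.lc 3 7 (.lc 3 2 (.lc 4 7 (.lc 4 7 (.lc 4 7 (.lc 4 7 (.lc 4 7 (.lc 4 7 (.lc 4 7 (.lc 4 7 (.lc 5 7 .stop))))))))))))))))))))))))))))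
 (.far [257,1,4096,4112,1,4112,1,256,0,257] 4096 (.node [104,166,66,98] 10 6 .stop
 (.node [137,168,66,130] 10 8 .stop
 (.node [171,178,66] 9 10 (.node [155] 8 9 (.node [139] 11 2 (.far [1,0,0,257,1,4096,4112,1,4112,1,256,0,257] 4096 (.lc 3 2 (.node [188,192] 8 11 (.far [1,4112,256,257,4112,256,256] 0 (.lc 3 5 (.lc 1 0 (.lc 1 0 (.lc 3 5 (.lc 4 5 .stop))))))
 (.lc 0 5 .stop))))
 (.lc 1 2 (.lc 1 2 (.lc 1 2 (.lc 3 5 (.lc 1 2 (.far [1,4112,0,4096,4112,1,0,256] 0 (.far [1,4112,0,4096,4112,1,0,256] 0 (.lc 2 2 (.lc 2 2 (.lc 2 2 .stop)))))))))))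
 (.lc 3 7 (.far [16,256,4096,4112,0,0,16,0,16,4096] 0 (.conf [156,203] (.lc 3 7 (.lc 4 7 (.lc 4 7 .stop)))))))
 (.far [16,0,16,0,0,16,0,16,4096] 17 (.far [16,0,16,0,0,16,0,16,4096] 0 (.far [1,0,1,0,0,1,0,1,256] 0 (.far [1,0,1,0,0,1,0,1,256] 0 (.node [171,176,66] 9 10 (.far [1,4096,256,257,0,0,1,0,1,256] 0 (.lc 3 7 (.lc 1 0 (.lc 3 7 (.lc 4 7 .stop)))))
 (.lc 0 9 (.node [172,203,66,178] 9 10 (.far [1,4096,256,257,0,0,1,0,1,256] 0 (.lc 3 7 (.lc 1 11 (.lc 1 11 (.lc 3 7 (.lc 4 7 (.lc 4 7 .stop)))))))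
 .stop))))))))))))
 (.lc 3 0 (.lc 3 2 (.lc 3 6 (.lc 3 11 (.lc 1 4 (.lc 1 4 (.lc 3 0 (.lc 3 11 (.lc 4 11 (.lc 4 0 (.lc 4 0 (.lc 4 12 .stop)))))))))))))
 (.lc 2 2 (.lc 2 2 (.conf [116,144] (.lc 2 2 (.conf [116,154] (.conf [122,160] (.lc 2 2 (.lc 2 2 (.node [66,112,164,151,66] 7 0 .stop
 (.conf [123,186] (.lc 2 2 (.lc 2 2 (.lc 2 2 (.lc 2 2 (.node [116,144,137,66] 0 4 (.far [1,1,0,0,1,0,1,256] 0 .stop)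
 (.lc 2 2 (.node [104,116,150,66] 6 4 .stop
 (.node [116,154,137,66] 8 9 (.node [138] 10 4 (.far [1,0,1,0,0,1,0,1,256] 0 (.lc 3 0 (.lc 3 6 (.lc 3 11 (.far [1,1,4096,4096,1,0,1,257,256,257] 4096 (.node [32,171,178] 11 2 (.far [1,1,1,4096,4096,1,0,1,257,256,257] 4096 (.lc 3 6 (.lc 3 12 (.conf [188,192] (.lc 3 12 (.lc 4 13 .stop))))))
 (.lc 3 0 (.lc 3 11 (.lc 4 11 (.lc 4 12 .stop))))))))))
 (.lc 3 0 (.lc 3 2 (.lc 3 11 (.lc 1 4 (.lc 3 5 (.lc 1 4 (.lc 3 0 (.lc 3 11 (.lc 4 11 (.lc 4 0 (.lc 4 0 (.lc 4 12 .stop)))))))))))))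
 (.lc 3 2 (.lc 3 2 (.node [116,154,160,137,66] 0 4 (.far [257,4096,4112,1,4112,1,256,0,257] 4096 .stop)
 (.lc 3 2 (.lc 3 2 (.conf [116,164,66] (.conf [116,164,66] (.lc 3 2 (.lc 3 2 (.lc 3 2 (.lc 3 2 (.lc 3 2 (.lc 3 2 (.lc 3 2 (.lc 4 2 (.lc 4 2 .stop))))))))))))))))))))))))))))))))))))))
 (.conf [116,137,83] (.conf [116,128,83] (.conf [116,128,83] (.conf [116,138,83] .stop))))))))))))
 (.lc 2 3 (.lc 2 3 (.lc 3 8 (.lc 3 0 (.lc 3 0 (.lc 3 2 (.lc 3 8 (.lc 3 0 (.lc 3 2 (.lc 3 9 (.node [87,128] 0 5 (.far [256,0,257,0,1,257,1] 4096 .stop)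
 (.node [87] 2 5 .stop
 (.node [83,116] 0 7 (.far [257,1,4112,1,256,0,257] 4096 (.lc 1 2 (.conf [116,135] (.lc 1 2 .stop))))
 (.node [83,116,135] 7 4 (.node [66,112] 7 0 (.node [128] 0 4 (.far [257,4112,4096,1,4112,1,256,0,257] 4096 .stop)
 (.lc 0 1 (.lc 0 9 .stop)))
 (.lc 1 2 (.node [66,121] 8 7 (.node [137] 9 4 (.node [146] 8 9 (.node [128,146] 8 0 (.node [96] 0 9 (.far [257,0,1,0,257,0,1,4112,1,256,0,257] 4096 .stop)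
 (.far [4112,4112,0,4096,4112,256,256] 0 (.lc 1 0 .stop)))
 (.lc 1 2 (.node [138,146] 6 8 (.node [106] 10 9 (.node [162] 10 2 (.far [1,257,0,1,0,257,0,1,4112,1,256,0,257] 4096 (.lc 3 2 (.node [171,176,171] 6 10 (.far [1,4112,4112,256,256] 0 (.lc 3 1 (.lc 1 0 .stop)))
 .stop)))
 (.far [257,0,1,0,257,0,1,4112,1,256,0,257] 4096 (.far [16,0,16,257,4096,4096] 17 (.far [1,0,1,4112,256,256] 0 (.far [1,0,1,4112,256,256] 0 (.node [171,176,146] 6 10 (.far [1,4096,256,257,4112,256,256] 0 (.lc 3 1 (.lc 1 0 .stop)))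
 .stop))))))
 (.lc 1 9 (.lc 1 9 (.lc 1 9 (.lc 1 9 (.far [1,4112,0,4096,4112,256,256] 0 (.far [1,4112,0,4096,4112,256,256] 0 (.lc 2 9 (.lc 2 9 (.lc 2 9 .stop))))))))))
 (.lc 2 2 (.lc 2 2 (.lc 3 6 (.lc 3 6 (.conf [138,160] (.lc 2 2 (.node [128,146,169,146] 8 0 .stop
 (.conf [139,186] (.lc 2 2 (.lc 3 6 (.lc 3 6 (.lc 3 6 (.lc 3 6 (.lc 3 2 (.lc 4 6 (.lc 4 6 (.lc 4 6 (.lc 4 6 (.lc 4 6 (.lc 4 6 (.lc 4 6 (.lc 4 6 (.lc 5 6 .stop))))))))))))))))))))))))))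
 (.far [257,1,4096,1,4112,1,256,0,257] 4096 (.node [104,150,66,98] 9 6 .stop
 (.node [154,162,66] 8 9 (.node [138] 6 8 (.node [106] 10 2 (.far [1,0,0,257,1,4096,1,4112,1,256,0,257] 4096 (.lc 3 2 (.node [171,176] 6 10 (.far [1,4112,256,257,4112,256,256] 0 (.lc 3 1 (.lc 1 0 .stop)))
 .stop)))
 (.lc 1 2 (.lc 1 2 (.lc 1 2 (.lc 1 2 (.far [1,4112,0,4096,4112,256,256] 0 (.far [1,4112,0,4096,4112,256,256] 0 (.lc 2 2 (.lc 2 2 (.lc 2 2 .stop))))))))))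
 (.lc 3 6 (.far [16,256,4096,4112,0,16,0,16,4096] 0 (.conf [139,186] (.lc 3 6 (.lc 4 6 (.lc 4 6 .stop)))))))
 (.far [16,0,16,0,16,0,16,4096] 17 (.far [16,0,16,0,16,0,16,4096] 0 (.far [1,0,1,0,1,0,1,256] 0 (.far [1,0,1,0,1,0,1,256] 0 (.node [154,160,66] 8 9 (.far [1,4096,256,257,0,1,0,1,256] 0 (.lc 3 6 (.lc 1 0 (.lc 3 6 (.lc 4 6 .stop)))))
 (.node [155,186,66,162] 8 9 (.far [1,4096,256,257,0,1,0,1,256] 0 (.lc 3 6 (.lc 1 10 (.lc 1 10 (.lc 3 6 (.lc 4 6 (.lc 4 6 .stop)))))))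
 .stop))))))))))
 (.lc 3 0 (.lc 3 2 (.lc 3 10 (.lc 1 4 (.lc 1 4 (.lc 3 0 (.lc 3 10 (.lc 4 10 (.lc 4 0 (.lc 4 0 (.lc 4 11 .stop))))))))))))
 (.lc 2 2 (.lc 2 2 (.lc 3 4 (.lc 2 2 (.lc 3 4 (.conf [121,144] (.lc 2 2 (.lc 2 2 (.node [66,112,148,66] 7 0 .stop
 (.conf [122,169] (.lc 2 2 (.lc 2 2 (.lc 2 2 (.lc 3 4 (.lc 2 2 (.lc 3 4 (.lc 3 2 (.lc 3 2 (.lc 4 4 (.lc 3 2 (.lc 3 2 (.lc 4 4 (.lc 4 4 (.lc 3 2 (.lc 3 2 (.lc 3 2 (.lc 3 2 (.lc 3 2 (.lc 3 2 (.lc 4 2 (.lc 4 2 .stop))))))))))))))))))))))))))))))))))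
 (.node [87,133,87] 8 5 (.node [135] 0 8 (.far [257,1,1,4112,1,256,0,257] 4096 (.far [256,256,0,257,0,1,257,1] 4096 (.conf [135,152] (.lc 1 4 (.lc 2 4 .stop)))))
 (.lc 1 4 (.lc 1 4 (.lc 1 4 (.lc 3 9 (.lc 2 4 .stop))))))
 (.node [87,133,152,87] 8 5 (.node [135] 9 8 (.node [135,144] 0 8 (.node [116] 9 0 (.node [22,145] 9 1 (.lc 0 1 .stop)
 (.node [151] 9 7 .stop
 (.lc 1 0 (.lc 3 0 .stop))))
 (.lc 1 4 (.lc 1 4 (.lc 1 4 (.far [1,1,4097,1,8224,1,272,4112,256] 0 (.lc 2 4 .stop))))))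
 (.node [135,146] 2 8 .stop
 (.node [135,154] 8 7 (.node [116] 6 9 (.node [96,154] 0 9 (.node [167] 6 0 (.node [96] 10 7 (.node [116,162] 2 7 (.lc 0 2 .stop)
 (.lc 1 4 (.node [116,171] 7 4 (.node [66] 10 11 (.far [257,0,257,0,4096,0,4096,4096] 0 .stop)
 (.conf [66,116,178] (.lc 2 2 (.far [4112,1,0,0,0,1,0,256,0,256] 0 (.far [257,16,0,0,0,16,0,4096,0,4096] 0 (.conf [66,116,188] .stop))))))
 (.lc 1 2 (.conf [116,171,180] (.far [257,257,0,257,4096,1,0,257,0,4096,0,0,257] 4096 (.lc 2 4 (.node [116,183,203,116,172] 7 4 (.far [257,16,0,0,0,16,0,4096,0,4096] 0 (.lc 2 2 (.lc 2 2 (.lc 0 13 (.lc 2 2 (.lc 3 2 .stop))))))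
 (.node [66,116,162] 10 2 (.far [257,257,0,4096,0,4096,4096] 0 .stop)
 (.conf [116,171,178] (.far [257,16,1,4096,4096,4096] 256 .stop)))))))))))
 (.node [106] 6 10 .stop
 .stop))
 (.lc 1 7 (.lc 1 7 (.lc 1 7 (.far [1,1,4112,4096,4112,256] 17 (.lc 2 7 .stop))))))
 (.lc 2 1 (.node [98,154] 2 9 .stop
 (.node [107,154] 9 10 (.node [167] 6 11 (.node [96,186] 6 0 (.node [] 11 10 (.lc 2 0 (.node [167,178] 2 10 (.far [16,16,0,0,16,0,4096,4096] 0 .stop)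
 (.lc 1 7 (.node [167,188] 10 7 (.node [116] 7 4 (.node [66] 11 12 (.node [196] 12 4 .stop
 (.far [4112,0,0,4112,0,1,256,256] 17 .stop))
 (.conf [66,116,194] (.lc 2 2 (.far [4112,1,0,0,0,0,0,1,0,256,0,256] 0 (.far [257,16,0,0,0,0,0,16,0,4096,0,4096] 0 (.conf [66,116,205] .stop))))))
 (.conf [116,167,196] (.far [4112,1,0,0,1,0,256,256] 0 (.conf [116,167,194] .stop))))
 (.conf [167,188,199] (.far [514,256,0,4097,1,0,257,0,257,0,4096,0,0,257] 4352 (.conf [176,202,12] (.lc 3 0 (.node [167,202,220,167,189] 10 7 (.far [257,16,0,0,16,0,4096,4096] 0 (.lc 2 4 (.lc 0 14 (.lc 3 4 .stop))))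
 (.node [116,167,180] 11 4 (.far [257,257,257,256,4096,1,4096,1,0,257,0,4096,0,0,257] 4096 .stop)
 (.node [167,176,7] 0 7 (.far [512,0,256,0,257,16,0,257,2,4097,8192,4096,0,0,257] 4352 .stop)
 (.far [514,256,0,4097,1,0,257,0,257,0,4096,0,0,257] 4352 (.far [16,0,0,16,0,4112,4096,4096,0,4096] 0 (.conf [176,202,167] (.far [4096,0,1,257,256,256,256] 17 (.far [256,257,256,0,0,4096,1,1,1,4096,4096,0,0,257] 4096 .stop))))))))))))))))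
 .stop)
 (.node [97,27] 1 11 (.node [186] 11 10 (.node [167] 10 7 (.node [116] 7 4 (.far [257,16,0,0,0,0,0,16,0,4096,0,4096] 0 .stop)
 (.far [4112,1,0,0,1,0,256,256] 17 (.far [256,16,0,0,16,0,4112,4096,4096,0,4096] 0 .stop)))
 (.node [167,176,116] 0 7 (.far [16,4112,1,1,256,256,16,0,4096,0,4096] 0 .stop)
 (.far [4112,1,1,256,256] 17 (.far [4112,1,1,256,256] 0 .stop))))
 (.lc 2 1 (.node [186,203,186] 11 10 (.far [257,16,16,4096,4096] 0 (.lc 2 7 (.lc 0 13 .stop)))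
 .stop)))
 (.node [98,186] 6 2 .stop
 (.lc 1 6 (.node [108,186] 1 6 (.node [28] 1 12 (.node [] 12 11 (.node [186] 11 10 (.node [167] 10 7 .stop
 (.far [4112,1,0,0,1,256,256] 17 .stop))
 (.node [186,194] 2 11 .stop
 (.lc 1 6 (.node [186,205] 11 10 (.node [167] 10 7 (.node [116] 12 13 (.node [215] 13 7 .stop
 (.far [4112,0,0,4112,1,256,256] 17 (.far [4112,0,0,4112,1,256,256] 0 .stop)))
 (.conf [116,167,212] (.far [4112,1,0,0,0,0,1,0,256,256] 0 (.conf [116,167,210] .stop))))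
 (.conf [167,182,215] (.far [4112,1,0,0,1,256,256] 0 .stop)))
 (.node [182,192,16,167] 0 10 .stop
 (.conf [182,205,218] (.far [257,0,16,258,257,513,0,257,0,257,0,4096,0,0,257] 4096 (.conf [192,219,186] (.far [4112,1,256,256] 17 (.far [4112,1,256,256] 0 (.node [186,219,237,186,206] 11 10 (.far [257,16,0,0,16,4096,4096] 0 (.lc 2 7 (.lc 0 15 .stop)))
 (.node [167,182,199] 12 7 .stop
 (.node [182,192,167] 0 10 (.far [1,257,0,0,0,1,0,256,256] 0 (.far [1,257,0,0,0,1,0,256,256] 17 (.far [1,513,16,4096,4096,2,0,513,512,256,0,256] 17 .stop)))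
 (.far [257,0,16,258,257,513,0,257,0,257,0,4096,0,0,257] 4096 (.lc 2 6 (.node [192,186] 13 11 (.far [1,1,0,0,1,256,256] 0 (.lc 3 7 (.lc 3 14 .stop)))
 (.conf [192,219,186] (.conf [192,219,186] (.far [4096,1,256,257,256,256] 17 (.conf [182,218,167] (.far [1,0,0,1,257,256,256,256] 0 .stop)))))))))))))))))))))
 (.node [203,220,16] 12 11 (.node [219] 13 11 (.node [167] 13 10 (.node [116] 13 7 .stop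
 .stop)
 (.lc 3 7 (.lc 3 14 .stop)))
 (.lc 2 6 (.node [222,235,186] 11 10 (.far [257,16,0,0,16,4096,4096] 0 (.lc 2 7 (.lc 0 15 .stop)))
 .stop)))
 (.node [220,203] 12 11 (.node [186,194,220] 12 2 .stop
 (.lc 1 6 (.far [257,16,4096,4096] 0 (.node [186,206,220] 11 10 (.node [167] 10 7 (.node [116] 12 14 (.far [257,0,0,257,16,4096,4096] 0 (.lc 0 15 .stop))
 (.conf [116,167,228] (.far [4112,1,0,0,0,0,1,0,256,256] 0 (.conf [116,167,226] .stop))))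
 (.conf [167,182,231] (.far [4112,1,0,0,1,256,256] 0 .stop)))
 (.conf [182,193] (.conf [206,234] (.conf [186,222,235] (.conf [186,222,235] (.conf [207,254] (.node [167,182,199,220] 12 7 .stop
 (.far [256,16,4096,4112,4096,4096] 0 (.conf [193,210] (.lc 2 6 (.conf [193,222] (.conf [193,223] (.conf [193,222] (.conf [193,215] .stop)))))))))))))))))
 (.far [257,272,514,257,513,0,257,0,257,0,4096,0,0,257] 16 (.node [203,220,237,16] 12 11 (.far [257,256,16,258,257,513,0,257,0,257,0,4096,0,0,257] 16 (.lc 2 6 (.lc 0 15 .stop)))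
 .stop)))))
 (.lc 3 0 (.far [16,257,257,256,257,256,256,0,257,4112,4096] 0 (.far [16,257,257,256,257,256,256,0,257,4112,4096] 0 (.lc 3 0 (.lc 4 0 .stop))))))
 (.lc 0 0 (.lc 2 10 (.lc 2 10 (.lc 2 10 (.lc 2 10 (.lc 2 10 (.lc 2 10 (.lc 3 1 (.lc 3 1 (.lc 0 0 (.node [108,186,192,108] 1 6 (.far [1,4112,4112,4096,4112,4096,4096,0,4112,257,256] 0 (.lc 1 0 .stop))
 (.node [96,186] 2 11 (.far [4112,16,4112,4096,4112,4096,4096,0,4112,0,16,4096] 17 (.conf [66,178,32] .stop))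
 (.node [96,186,203] 6 0 (.far [4112,4112,4112,4096,4112,4096,4096,0,4112,257,256] 0 .stop)
 (.node [186,203,220,109] 1 6 (.far [1,4112,4112,4096,4112,4096,4096,0,4112,257,256] 0 (.lc 3 0 (.lc 1 12 (.lc 1 12 (.lc 3 0 (.lc 4 0 .stop))))))
 (.lc 2 10 (.lc 2 10 (.lc 2 10 (.lc 2 10 (.lc 2 10 (.lc 2 10 (.lc 2 10 (.lc 3 1 (.lc 3 1 (.lc 0 0 (.lc 3 10 (.lc 3 10 (.lc 0 0 (.lc 3 10 (.lc 3 10 (.lc 3 10 (.lc 3 10 (.lc 0 0 (.lc 0 0 (.lc 0 0 (.lc 4 1 (.lc 4 1 (.lc 0 0 .stop))))))))))))))))))))))))))))))))))))))))))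
 (.lc 2 7 (.lc 2 7 (.lc 2 7 (.lc 0 0 (.lc 0 12 (.lc 2 7 (.lc 2 7 (.lc 3 7 (.lc 3 7 (.lc 3 7 (.lc 3 7 .stop))))))))))))
 (.lc 2 6 (.lc 2 6 (.node [107,154,176] 0 9 (.lc 1 7 .stop)
 (.far [257,4112,1,4096,257,4112,1,256,0,257] 4096 (.conf [154,185] (.conf [154,185] (.conf [154,185] (.lc 0 0 (.conf [107,176] (.node [96,154] 2 9 .stop
 (.conf [154,185] (.conf [154,185] (.lc 2 6 (.lc 3 1 (.lc 2 6 (.lc 2 6 (.lc 2 6 (.lc 2 6 (.lc 2 6 (.lc 2 6 (.node [107,154,176] 0 9 (.far [1,1,4112,4096,4112,256] 0 (.lc 1 7 (.lc 1 7 (.lc 1 7 (.far [1,1,4112,4096,4112,256] 17 (.lc 2 7 .stop))))))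
 (.far [257,4112,1,4096,257,4112,1,256,0,257] 4096 (.node [107,154,178] 2 9 .stop
 (.node [98,154] 4 9 .stop
 (.node [96,154] 6 0 (.node [] 9 10 (.far [4112,0,1,4112,4096,4112,256] 0 (.lc 2 7 (.lc 2 7 (.lc 0 12 (.lc 2 7 (.lc 3 7 .stop))))))
 .stop)
 (.node [108,154,203] 6 12 (.node [203] 9 10 (.far [4112,0,1,4112,4096,4112,256] 0 (.lc 2 7 (.lc 2 7 (.lc 2 7 (.lc 0 0 (.lc 0 13 (.lc 2 7 (.lc 2 7 (.lc 3 7 (.lc 3 7 (.lc 3 7 (.lc 3 7 .stop))))))))))))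
 (.lc 0 0 (.lc 0 0 (.lc 2 11 (.lc 2 11 (.lc 0 0 .stop))))))
 (.lc 0 0 (.lc 3 6 (.lc 3 6 (.lc 3 6 (.lc 3 6 (.node [108,154,203,176] 0 9 (.lc 1 7 .stop)
 (.node [107,154,176] 2 9 .stop
 (.conf [154,185] (.conf [154,185] (.conf [154,185] (.conf [154,185] (.lc 3 6 (.lc 3 6 (.lc 3 6 (.lc 3 6 (.lc 3 6 (.lc 3 6 (.lc 3 6 (.lc 3 6 (.lc 3 6 (.lc 3 6 (.lc 3 6 (.lc 3 6 (.lc 3 6 (.lc 3 6 (.lc 3 6 (.lc 4 6 (.lc 4 6 (.lc 4 6 (.lc 4 6 (.lc 4 6 (.lc 4 6 .stop))))))))))))))))))))))))))))))))))))))))))))))))))))))))))))))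
 (.lc 2 4 (.lc 2 4 (.lc 2 4 (.lc 0 0 (.lc 0 11 (.lc 2 4 (.lc 2 4 (.lc 3 4 (.lc 3 4 (.lc 3 4 (.lc 3 4 .stop))))))))))))
 (.conf [133,144] (.conf [133,154] (.conf [135,145] (.conf [135,154] (.conf [135,144] (.conf [135,144] (.conf [135,146] (.conf [135,155] (.conf [154,160] (.node [135,144] 2 8 .stop
 (.conf [135,168] (.conf [135,168] (.lc 1 4 (.lc 1 4 (.lc 1 4 (.node [133,144,105,116] 9 0 (.node [96] 0 7 (.far [257,4112,1,0,257,0,1,0,0,257] 4096 (.far [257,16,1] 0 (.lc 1 2 (.lc 2 0 (.node [116,167,42,116] 7 4 (.far [257,256,0,0,0,0,1,0,1,257,1] 4096 (.lc 0 11 .stop))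
 (.lc 2 0 .stop))))))
 (.lc 0 10 (.lc 1 0 .stop)))
 (.node [133,146,105,116] 9 2 (.lc 0 0 .stop)
 (.lc 1 4 (.node [133,154,105,116] 6 9 (.node [106] 10 7 (.node [116,160] 0 7 (.far [1,1,0,257,256,0,256] 0 (.far [257,1,0,257,256,0,257,0,1,256] 0 (.far [256,0,0,0,0,0,1,0,1,257,1] 4096 (.lc 1 2 .stop))))
 (.node [116,162] 2 7 (.lc 0 2 .stop)
 (.lc 1 4 (.lc 2 6 (.node [116,171] 7 4 (.far [4112,1,0,257,256,0,256] 0 (.conf [66,116,178] (.far [4112,1,0,257,256,0,256] 0 (.lc 2 2 (.far [4112,1,0,257,256,0,256] 0 (.node [32,66,116] 11 2 (.far [1,1,0,0,0,0,0,1,0,1,257,1] 4096 (.node [188,192] 10 11 (.far [1,4096,0,257,1,1,0,257,0,1,0,0,257] 4096 (.lc 3 6 (.node [192,220] 6 10 (.far [1,4096,4096,0,0,256,256,256,0,257,0,1,257,1] 4096 (.lc 3 1 (.lc 1 12 .stop)))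
 .stop)))
 (.node [188,192,188] 6 10 (.lc 2 1 (.lc 1 6 (.node [192,202] 12 10 (.lc 0 2 .stop)
 (.node [109,171] 10 11 (.far [257,16,0,0,257,4096,1] 0 (.conf [192,220] (.lc 2 2 (.conf [188,235] (.lc 1 0 (.lc 2 0 .stop))))))
 (.lc 2 6 (.lc 2 6 (.lc 3 1 (.lc 2 6 (.node [110,218,237,110,171] 10 11 (.far [257,16,0,0,257,4096,1] 0 (.lc 2 2 (.lc 2 2 (.lc 0 15 (.lc 2 2 (.lc 3 2 .stop))))))
 (.lc 2 6 (.lc 3 1 (.lc 0 0 (.lc 3 6 (.lc 0 0 (.lc 4 1 .stop)))))))))))))))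
 (.far [1,1,0,0,0,0,0,1,0,1,257,1] 4096 (.node [189,220,192] 10 11 (.far [1,4096,0,257,1,1,0,257,0,1,0,0,257] 4096 (.lc 3 6 (.lc 1 12 .stop)))
 .stop)))))
 (.conf [66,116,176] (.conf [66,116,188] .stop))))))))
 (.lc 2 4 (.lc 1 2 (.lc 2 4 (.lc 3 1 (.lc 3 11 (.lc 3 0 (.lc 2 4 (.lc 3 0 (.lc 3 2 (.lc 3 12 (.node [116,171,176] 0 7 (.far [256,0,0,0,0,0,1,0,1,257,1] 4096 .stop)
 (.node [116,160] 2 7 (.lc 0 2 .stop)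
 (.lc 2 4 (.node [116,160,183,116] 7 4 (.node [180] 0 11 (.far [257,4112,1,1,1,0,257,16,1,256,0,257] 4096 (.far [256,1,0,0,0,0,0,1,0,1,257,1] 4096 (.conf [180,203] .stop)))
 (.lc 2 2 (.lc 2 2 (.lc 0 12 (.lc 2 2 (.lc 3 2 .stop))))))
 (.node [116,183,203,116] 7 4 (.node [180] 11 4 (.node [178,203] 12 11 (.node [194] 12 2 (.far [1,257,0,4112,1,1,1,0,257,16,1,256,0,257] 4096 (.lc 3 2 (.conf [205,208] .stop)))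
 (.lc 3 0 (.far [16,272,256,16,16,16,0,4112,0,16,4112,4097,4096] 0 (.lc 3 0 (.lc 3 13 (.lc 4 13 .stop))))))
 (.conf [180,194] (.far [16,16,0,0,0,0,0,16,0,16,4096] 17 (.conf [189,210] (.far [1,1,0,0,0,0,0,1,0,1,256] 0 (.far [1,4096,1,1,1,0,257,0,1,257,256,257] 4096 (.conf [32,205,210] .stop)))))))
 (.lc 2 2 (.lc 0 0 (.lc 2 2 (.lc 0 13 (.lc 2 2 (.lc 3 2 (.lc 3 2 .stop))))))))
 (.lc 2 4 (.lc 2 4 (.lc 1 2 (.lc 2 4 (.lc 3 11 (.lc 3 0 (.lc 3 11 (.lc 2 4 (.lc 1 2 (.lc 2 4 (.lc 3 0 (.lc 3 12 (.lc 3 4 (.lc 3 4 (.lc 4 12 (.lc 4 11 (.lc 3 4 (.lc 3 4 (.lc 4 12 (.lc 4 0 (.lc 4 0 (.lc 4 13 (.lc 3 4 (.lc 2 2 (.lc 2 2 (.lc 3 4 (.lc 3 4 (.lc 3 4 (.lc 3 4 (.lc 3 4 (.lc 3 4 (.lc 4 4 (.lc 4 4 .stop)))))))))))))))))))))))))))))))))))))))))))))))))))))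
 (.lc 3 0 (.lc 3 2 (.lc 3 11 (.lc 1 7 (.lc 1 7 (.lc 3 0 (.lc 3 11 (.lc 4 11 (.lc 4 0 (.lc 4 0 (.lc 4 12 .stop))))))))))))
 (.conf [135,154] (.conf [135,144] (.conf [135,154] (.conf [135,146] (.conf [135,144] (.conf [135,155] (.lc 2 4 (.lc 2 4 (.lc 2 4 (.lc 2 4 (.conf [135,155] (.conf [135,154] (.conf [135,155] (.conf [135,144] (.conf [135,144] (.conf [135,156] (.node [133,154,160,105,116] 0 7 (.far [257,1,1,1,4112,1,256,0,257] 4096 (.lc 1 2 (.lc 2 0 (.node [116,183,43,116] 7 4 (.far [257,256,0,0,0,1,0,1,257,1] 4096 (.lc 0 12 .stop))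
 (.lc 2 0 .stop)))))
 (.node [133,144,105,116] 6 9 (.far [1,4096,4112,256] 17 (.lc 0 0 (.lc 3 10 .stop)))
 (.lc 2 4 (.conf [133,167,116] (.conf [133,167,116] (.lc 2 4 (.lc 2 4 (.lc 2 4 (.lc 2 4 (.lc 2 4 (.lc 2 4 (.lc 2 4 (.lc 2 4 (.lc 2 4 (.lc 2 4 (.lc 2 4 (.lc 3 4 (.lc 3 4 (.lc 3 4 (.lc 3 4 (.lc 3 4 (.lc 3 4 .stop))))))))))))))))))))))))))))))))))))))))))))))))))))))))))))
 (.lc 1 4 (.lc 1 4 (.lc 1 4 (.lc 1 4 (.lc 1 4 (.lc 3 0 (.lc 3 10 (.lc 2 4 (.lc 2 4 (.lc 2 4 (.lc 2 4 .stop))))))))))))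
 (.lc 2 3 (.lc 2 3 (.lc 2 3 (.lc 2 3 (.lc 2 3 (.lc 2 3 (.lc 3 8 (.lc 3 0 (.lc 3 8 (.lc 3 0 (.lc 3 8 (.lc 3 0 (.lc 3 9 (.lc 3 3 (.lc 3 3 (.lc 3 3 (.lc 3 3 (.lc 4 9 (.lc 4 8 (.lc 4 8 (.lc 4 0 (.lc 4 0 (.lc 4 9 (.lc 4 9 (.lc 4 0 (.lc 4 0 (.lc 4 10 (.lc 3 3 (.lc 3 3 (.lc 3 3 (.lc 3 3 (.lc 3 3 (.lc 3 3 (.lc 3 3 (.lc 3 3 (.lc 3 3 (.lc 3 3 (.lc 3 3 (.lc 3 3 (.lc 3 3 (.lc 3 3 (.lc 4 3 (.lc 4 3 (.lc 4 3 (.lc 4 3 (.lc 4 3 (.lc 4 3 .stop)))))))))))))))))))))))))))))))))))))))))))))))))))))))))))))))))))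
 (.lc 2 2 (.lc 2 2 (.lc 2 2 (.lc 2 2 (.lc 2 2 (.lc 3 7 (.lc 2 2 (.lc 2 2 (.lc 3 0 (.lc 3 8 (.lc 3 3 (.node [66,112] 0 4 (.lc 1 0 .stop)
 (.lc 2 2 (.lc 2 2 (.lc 2 2 (.node [66,116] 0 7 (.node [116] 7 4 (.node [66,118] 6 4 (.far [16,16,0,16,0,16,4096] 0 .stop)
 (.node [66,120] 2 7 (.node [132] 4 2 (.lc 0 2 .stop)
 (.lc 1 4 (.lc 1 4 .stop)))
 (.conf [66,100] (.conf [104,118] (.conf [66,132] .stop)))))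
 (.node [116,103] 6 7 (.node [100,101] 6 4 (.far [16,4096,0,16,0,16,4096] 0 .stop)
 .stop)
 (.node [116,135] 7 4 (.node [66,132] 4 2 (.lc 0 2 .stop)
 (.conf [66,100] (.conf [66,148] .stop)))
 (.conf [103,116] (.conf [116,135] (.conf [103,116] (.node [116,135] 7 4 (.conf [66,132] (.lc 0 6 (.lc 0 9 .stop)))
 (.conf [103,116] (.conf [104,116,135] (.node [116,135,152,41] 7 4 (.conf [66,132] (.lc 0 6 (.lc 0 10 .stop)))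
 .stop))))))))))
 (.lc 3 3 (.node [66,116,135] 5 8 (.node [80,135] 5 0 (.far [4112,4112,4112,1,256] 0 (.lc 0 9 .stop))
 (.node [82,135] 5 2 (.lc 0 0 .stop)
 (.far [4112,4112,1,256] 0 (.node [89,135] 6 5 (.far [1,4112,4112,1,256] 0 (.lc 3 0 (.lc 3 2 (.lc 3 10 (.lc 1 8 (.lc 1 8 (.lc 3 0 (.lc 3 10 (.lc 4 10 (.lc 4 0 (.lc 4 0 (.lc 4 11 .stop))))))))))))
 (.lc 0 0 (.lc 2 7 (.lc 2 7 (.lc 0 2 (.lc 2 7 (.lc 2 7 (.lc 0 9 (.lc 2 7 (.lc 3 3 (.lc 3 3 (.lc 0 0 (.conf [89,144] (.node [80,135] 6 5 (.far [1,4112,4112,1,256] 17 (.lc 3 9 .stop))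
 (.node [80,135,152,135,116] 5 0 .stop
 (.lc 0 9 (.conf [90,169] (.lc 2 7 (.lc 2 7 (.lc 2 7 (.lc 2 7 (.lc 2 7 (.lc 2 7 (.lc 2 7 (.lc 3 3 (.lc 3 3 (.lc 3 3 (.lc 3 3 (.lc 3 3 (.lc 3 3 (.lc 0 9 (.lc 3 7 (.lc 0 0 (.lc 3 7 (.lc 0 0 (.lc 3 7 (.lc 3 7 (.lc 3 7 (.lc 0 10 (.lc 3 7 (.lc 4 3 (.lc 4 3 (.lc 4 3 (.lc 4 3 (.lc 4 3 (.lc 4 3 (.lc 4 3 (.lc 4 3 (.lc 4 3 (.lc 4 3 (.lc 4 3 (.lc 4 3 (.lc 4 3 (.lc 4 3 (.lc 4 3 (.lc 4 3 (.lc 4 3 (.lc 4 3 (.lc 5 3 (.lc 5 3 (.lc 5 3 (.lc 5 3 (.lc 5 3 (.lc 5 3 .stop)))))))))))))))))))))))))))))))))))))))))))))))))))))))))))))))))))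
 (.lc 2 2 (.lc 2 2 (.lc 2 2 (.lc 2 2 (.lc 2 2 (.lc 2 2 (.lc 2 2 (.lc 2 2 (.lc 3 7 (.lc 2 2 (.lc 2 2 (.lc 3 0 (.lc 3 8 (.lc 3 2 (.lc 3 2 (.lc 3 2 (.lc 3 2 (.lc 3 2 (.lc 3 2 (.lc 3 2 (.lc 4 8 (.lc 3 2 (.lc 3 2 (.lc 4 8 (.lc 4 0 (.lc 4 9 (.lc 3 2 (.lc 3 2 (.lc 3 2 (.lc 3 2 (.lc 3 2 (.lc 3 2 (.lc 3 2 (.lc 3 2 (.lc 3 2 (.lc 3 2 (.lc 3 2 (.lc 3 2 (.lc 4 2 (.lc 4 2 (.lc 4 2 (.lc 4 2 (.lc 4 2 .stop)))))))))))))))))))))))))))))))))))))))))))))))))))))))))))))))))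
 (.conf [84,118,55] (.lc 0 0 (.conf [84,112,55] (.node [84,101,118,66,48] 3 0 (.lc 0 0 .stop)
 (.node [84,101,118,66,49] 6 5 (.node [84,96,49,118] 0 5 (.far [16,16,256,1,257,4096] 0 (.lc 1 2 (.lc 1 2 .stop)))
 (.node [32,84,98,49,118] 2 5 (.lc 0 2 .stop)
 (.node [84,104,49,118] 5 4 (.far [257,16,256,1,257,4096] 0 (.lc 2 2 (.lc 2 2 (.lc 0 0 (.lc 2 2 (.lc 0 9 (.lc 2 2 (.lc 2 2 (.lc 3 2 (.lc 3 2 (.lc 3 2 .stop)))))))))))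
 (.conf [83,96] (.lc 1 2 (.conf [83,104] (.conf [84,104] (.conf [84,96] (.conf [84,96] (.conf [84,98] (.conf [84,105] (.conf [104,128] (.node [37,84,96,49,118] 2 5 (.lc 0 2 .stop)
 (.conf [84,133] (.conf [84,133] (.lc 1 2 (.lc 1 2 (.node [83,96,49,118,66] 6 0 (.conf [4,112] (.lc 0 8 .stop))
 (.lc 1 2 (.node [83,104,49,118,66] 7 6 (.far [16,256,16,4096] 0 (.lc 3 0 (.lc 0 0 (.lc 3 9 (.far [16,256,16,4096] 0 (.far [16,256,16,4096] 0 (.lc 3 0 (.lc 3 9 (.lc 4 9 (.lc 1 8 (.lc 4 0 (.lc 4 10 .stop))))))))))))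
 (.conf [84,104] (.conf [84,96] (.conf [84,104] (.conf [84,96] (.conf [84,105] (.lc 2 2 (.lc 2 2 (.lc 2 2 (.conf [84,105] (.conf [84,104] (.conf [84,105] (.conf [84,96] (.conf [84,96] (.conf [84,106] (.node [83,104,128,49,118,66] 0 4 (.far [256,0,0,0,1,1] 4096 .stop)
 (.lc 2 2 (.lc 2 2 (.node [83,96,49,118,66,132] 6 0 .stop
 (.node [83,105,152,49,118,66] 7 6 (.node [121] 7 9 (.lc 2 0 (.lc 0 0 (.lc 2 10 (.lc 3 0 (.lc 3 10 (.lc 2 8 (.lc 0 10 (.lc 3 10 (.lc 1 9 (.lc 3 0 (.lc 3 11 (.lc 3 0 (.lc 0 0 (.lc 3 10 (.lc 0 8 (.lc 0 0 (.lc 4 10 (.lc 1 8 (.lc 4 0 (.lc 4 11 (.lc 0 0 (.lc 0 0 (.lc 0 0 (.far [256,16,256,16,4096] 0 (.lc 0 10 (.lc 0 0 .stop))))))))))))))))))))))))))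
 (.lc 3 0 (.lc 0 0 (.lc 3 10 (.lc 1 8 (.lc 1 8 (.lc 3 0 (.lc 3 10 (.lc 4 10 (.lc 1 9 (.lc 4 0 (.lc 4 11 .stop))))))))))))
 (.lc 2 2 (.lc 2 2 (.lc 2 2 (.lc 2 2 (.lc 2 2 (.lc 2 2 (.lc 3 2 (.lc 3 2 (.lc 3 2 (.lc 3 2 .stop)))))))))))))))))))))))))))))))))))))))))))))))))
 (.conf [84,135,56] (.lc 0 0 (.conf [49,84,101] (.lc 0 0 (.conf [49,84,101,118] (.lc 0 0 (.node [49,84,101,118,66] 6 5 (.node [84,96] 0 5 (.node [66] 6 0 (.node [100] 6 4 (.far [4112,4096,4096,0,1,256] 0 .stop)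
 (.lc 3 0 .stop))
 (.lc 1 2 (.lc 1 2 .stop)))
 (.node [84,98] 2 5 (.lc 0 2 .stop)
 (.node [84,104] 5 4 (.node [66] 6 8 (.node [96,132] 6 0 (.far [4112,4112,4112,4096,1,256] 0 (.far [4112,4112,4112,4096,1,256] 0 .stop))
 (.node [98,132] 6 2 (.far [4112,4112,4112,4096,1,256] 0 .stop)
 (.lc 1 4 (.node [105,132] 7 6 (.far [1,4112,4112,4096,1,256] 0 (.lc 1 8 (.lc 1 8 (.lc 1 8 (.lc 1 8 (.lc 1 8 (.far [1,4112,4112,4096,1,256] 0 (.far [1,4112,4112,4096,1,256] 0 (.lc 2 8 (.lc 2 8 (.lc 2 8 (.lc 2 8 .stop))))))))))))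
 (.lc 2 4 (.lc 2 4 (.lc 2 4 (.lc 2 4 (.lc 2 4 (.lc 3 5 (.lc 3 5 (.conf [105,144] (.node [96,132] 7 6 (.far [1,4112,4112,4096,1,256] 17 (.far [1,4112,4112,4096,1,256] 17 .stop))
 (.lc 2 4 (.node [96,132,152] 6 0 .stop
 (.conf [106,169] (.lc 2 4 (.lc 2 4 (.lc 2 4 (.lc 2 4 (.lc 2 4 (.lc 3 5 (.lc 3 5 (.lc 3 5 (.lc 3 5 (.lc 3 5 (.lc 3 5 (.lc 3 5 (.lc 3 4 (.lc 3 4 (.lc 3 4 (.lc 3 4 (.lc 3 4 (.lc 3 4 (.lc 4 5 (.lc 4 5 (.lc 4 5 (.lc 4 5 (.lc 4 5 (.lc 4 5 (.lc 4 5 (.lc 4 5 (.lc 4 5 (.lc 4 5 (.lc 4 5 (.lc 4 5 (.lc 4 5 (.lc 4 5 (.lc 4 5 (.lc 4 5 (.lc 4 5 (.lc 4 5 (.lc 4 5 (.lc 5 5 (.lc 5 5 (.lc 5 5 (.lc 5 5 (.lc 5 5 (.lc 5 5 .stop)))))))))))))))))))))))))))))))))))))))))))))))))))))))))))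
 (.lc 2 2 (.lc 2 2 (.lc 0 0 (.lc 2 2 (.lc 0 9 (.lc 2 2 (.lc 2 2 (.lc 3 2 (.lc 3 2 (.lc 3 2 .stop)))))))))))
 (.lc 2 3 (.lc 1 2 (.lc 2 3 (.lc 3 8 (.lc 3 0 (.lc 3 0 (.lc 3 2 (.lc 3 9 (.conf [104,128] (.node [84,96] 2 5 (.lc 0 2 .stop)
 (.conf [84,133] (.conf [84,133] (.lc 1 2 (.lc 1 2 (.lc 2 3 (.lc 1 2 (.lc 2 3 (.lc 3 8 (.lc 3 0 (.lc 3 8 (.lc 3 0 (.lc 3 9 (.lc 2 2 (.lc 2 2 (.lc 2 2 (.lc 4 9 (.lc 4 8 (.lc 4 9 (.lc 4 0 (.lc 4 0 (.lc 4 10 (.lc 3 3 (.lc 2 2 (.lc 2 2 (.lc 3 3 (.lc 3 3 (.lc 2 2 (.lc 2 2 (.lc 2 2 (.lc 2 2 (.lc 2 2 (.lc 2 2 (.lc 3 2 (.lc 3 2 (.lc 3 2 (.lc 3 2 .stop)))))))))))))))))))))))))))))))))))))))))))))))))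
 (.conf [16,49] (.node [49,84,101,118,66] 6 5 (.node [84,96] 0 5 (.far [16,16,256,1,257,4096] 0 (.lc 1 2 (.lc 1 2 .stop)))
 (.node [84,98] 2 5 (.lc 0 2 .stop)
 (.node [84,104] 5 4 (.far [257,16,256,1,257,4096] 0 (.lc 2 2 (.lc 2 2 (.lc 0 0 (.lc 2 2 (.lc 0 9 (.lc 2 2 (.lc 2 2 (.lc 3 2 (.lc 3 2 (.lc 3 2 .stop)))))))))))
 (.lc 2 3 (.lc 1 2 (.lc 2 3 (.lc 3 8 (.lc 3 0 (.lc 3 0 (.lc 3 2 (.lc 3 9 (.conf [104,128] (.node [84,96] 2 5 (.lc 0 2 .stop)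
 (.conf [84,133] (.conf [84,133] (.lc 1 2 (.lc 1 2 (.lc 2 3 (.lc 1 2 (.lc 2 3 (.lc 3 8 (.lc 3 0 (.lc 3 8 (.lc 3 0 (.lc 3 9 (.lc 2 2 (.lc 2 2 (.lc 2 2 (.lc 4 9 (.lc 4 8 (.lc 4 9 (.lc 4 0 (.lc 4 0 (.lc 4 10 (.lc 3 3 (.lc 2 2 (.lc 2 2 (.lc 3 3 (.lc 3 3 (.lc 2 2 (.lc 2 2 (.lc 2 2 (.lc 2 2 (.lc 2 2 (.lc 2 2 (.lc 3 2 (.lc 3 2 (.lc 3 2 (.lc 3 2 .stop)))))))))))))))))))))))))))))))))))))))))))))))))
 (.lc 0 0 (.node [49,84,101,118,135,66] 6 5 (.node [84,96] 0 5 (.node [66] 6 0 (.node [100] 6 4 (.lc 0 2 .stop)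
 (.lc 3 0 .stop))
 (.lc 1 2 (.lc 1 2 .stop)))
 (.node [84,98] 2 5 (.lc 0 2 .stop)
 (.node [84,105] 5 4 (.node [66] 7 6 (.node [105,112] 0 6 (.node [148] 7 0 (.node [121] 7 9 .stop
 (.lc 3 0 .stop))
 (.lc 1 4 (.lc 1 4 (.lc 1 4 (.node [148] 2 9 (.lc 0 2 .stop)
 (.lc 2 4 .stop))))))
 (.node [105,114] 2 6 .stop
 (.node [105,122] 6 9 (.node [148] 8 7 (.node [122,128] 0 7 (.node [169] 8 0 (.node [138] 8 10 .stop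
 .stop)
 (.lc 1 9 (.lc 1 9 (.lc 1 9 (.far [1,1,8224,4097,8224,8192,1,272,4112,256] 17 (.lc 2 9 .stop))))))
 (.node [122,130] 2 7 .stop
 (.node [122,139] 7 10 (.node [169] 1 8 (.node [139] 8 11 (.node [186] 11 10 (.lc 2 0 (.node [169,178] 2 10 (.far [16,16,0,0,16,0,4096,4096] 0 .stop)
 (.lc 1 6 (.node [169,188] 10 9 (.node [148] 9 4 (.node [66] 11 12 (.node [196] 12 4 .stop
 (.far [4112,0,0,4112,1,0,256,256] 17 .stop))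
 (.conf [66,148,194] (.lc 2 2 (.far [4112,1,0,0,0,0,0,1,0,256,256] 0 (.far [257,16,0,0,0,0,0,16,0,4096,4096] 0 (.conf [66,148,205] .stop))))))
 (.conf [148,166,196] (.far [4112,1,0,0,1,0,256,256] 0 (.conf [148,166,194] .stop))))
 (.conf [166,188,201] (.far [514,0,4112,2,0,257,513,0,257,4096,0,0,257] 4352 (.conf [176,202,12] (.lc 3 0 (.node [169,202,220,169,189] 10 9 (.far [257,16,0,0,16,0,4096,4096] 0 (.lc 2 4 (.lc 0 14 (.lc 3 4 .stop))))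
 (.node [148,166,180] 11 4 (.far [257,257,256,16,1,0,1,257,0,257,4096,0,0,257] 4096 .stop)
 (.node [166,176,9] 0 9 (.far [256,0,257,16,257,256,0,257,4096,1,4096,0,0,257] 4096 .stop)
 (.far [514,0,4112,2,0,257,513,0,257,4096,0,0,257] 4352 (.far [16,0,0,16,0,4112,4096,4096,4096] 0 (.conf [176,202,169] (.far [4096,1,0,257,256,256,256] 17 (.far [256,256,16,0,0,4096,1,4096,1,4096,0,0,257] 4096 .stop))))))))))))))))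
 (.lc 2 10 (.lc 2 10 (.far [4112,1,8224,4097,8224,8192,4112,8208,257,256] 17 (.far [4112,1,8224,4097,8224,8192,4112,8208,257,256] 0 (.lc 2 10 (.lc 2 10 (.lc 3 10 (.lc 3 10 .stop)))))))))
 (.node [28,139] 8 11 (.node [186] 1 12 (.node [203] 12 11 (.lc 2 0 (.node [186,194] 2 11 .stop
 (.lc 1 7 (.node [186,205] 11 10 (.node [169] 10 9 (.node [148] 12 13 (.node [217] 13 9 .stop
 (.far [4112,0,0,4112,1,256,256] 17 (.far [4112,0,0,4112,1,256,256] 0 .stop)))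
 (.conf [148,166,212] (.far [4112,1,0,0,0,0,1,0,256,256] 0 (.conf [148,166,210] .stop))))
 (.conf [166,183,217] (.far [4112,1,0,1,0,256,256] 0 .stop)))
 (.lc 3 0 (.conf [183,205,218] (.far [257,0,258,16,514,512,257,513,0,257,4096,0,0,257] 4096 (.conf [192,219,186] (.lc 3 0 (.lc 3 0 (.node [186,219,237,186,206] 11 10 (.far [257,16,0,16,0,4096,4096] 0 (.lc 2 6 (.lc 0 15 .stop)))
 (.node [166,183,201] 12 9 .stop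
 (.node [183,192,169] 0 10 (.far [1,257,0,0,0,1,0,256,256] 0 (.far [1,257,0,0,0,1,0,256,256] 17 (.far [1,513,16,4096,4096,2,0,513,512,256,256] 17 .stop)))
 (.far [257,0,258,16,514,512,257,513,0,257,4096,0,0,257] 4096 (.lc 2 7 (.node [192,186] 13 11 (.far [1,1,0,1,0,256,256] 0 (.lc 3 9 (.lc 3 14 .stop)))
 (.conf [192,219,186] (.conf [192,219,186] (.far [4096,1,257,256,256,256] 17 (.conf [183,218,169] (.far [1,0,1,0,257,256,256,256] 0 .stop)))))))))))))))))))))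
 (.lc 2 11 (.node [203,220] 12 11 (.node [186,194] 12 2 .stop
 (.lc 1 7 (.lc 2 1 (.node [186,206] 11 10 (.node [169] 10 9 (.node [148] 12 14 (.far [257,0,0,257,16,4096,4096] 0 (.lc 0 15 .stop))
 (.conf [148,166,228] (.far [4112,1,0,0,0,0,1,0,256,256] 0 (.conf [148,166,226] .stop))))
 (.conf [166,183,233] (.far [4112,1,0,1,0,256,256] 0 .stop)))
 (.lc 3 1 (.conf [206,234] (.conf [186,222,235] (.lc 3 1 (.conf [207,254] (.node [166,183,201] 12 9 .stop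
 (.far [256,16,4112,4096,4096,4096] 0 (.lc 0 2 (.lc 2 7 (.lc 0 14 (.lc 0 15 (.lc 0 14 (.lc 0 9 .stop)))))))))))))))))
 (.lc 2 11 (.lc 3 11 .stop)))))
 (.lc 2 10 (.lc 2 10 (.lc 2 10 (.lc 0 0 (.lc 0 13 (.lc 2 10 (.lc 2 10 (.lc 3 10 (.lc 3 10 (.lc 3 10 (.lc 3 10 .stop))))))))))))
 (.lc 2 1 (.lc 2 1 (.lc 3 0 (.conf [139,200] (.conf [139,200] (.lc 2 1 (.lc 2 1 (.lc 3 0 (.lc 3 0 (.lc 3 1 (.lc 3 1 (.lc 4 0 (.lc 4 0 (.lc 4 0 (.lc 4 0 (.lc 5 0 .stop))))))))))))))))))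
 (.lc 2 9 (.lc 2 9 (.lc 2 9 (.lc 0 0 (.lc 0 12 (.lc 2 9 (.lc 2 9 (.lc 3 9 (.lc 3 9 (.lc 3 9 (.lc 3 9 .stop))))))))))))
 (.lc 2 6 (.lc 2 6 (.lc 3 11 (.lc 3 0 (.lc 3 0 (.lc 3 2 (.lc 3 12 (.conf [139,176] (.node [122,128] 2 7 .stop
 (.conf [122,183] (.conf [122,183] (.lc 2 6 (.lc 2 6 (.lc 2 6 (.lc 2 6 (.lc 2 6 (.lc 2 6 (.lc 2 6 (.lc 3 11 (.lc 3 0 (.lc 3 11 (.lc 3 2 (.lc 3 0 (.lc 3 12 (.lc 3 6 (.lc 3 6 (.lc 3 6 (.lc 3 6 (.lc 4 12 (.lc 4 11 (.lc 4 12 (.lc 4 0 (.lc 4 0 (.lc 4 13 (.lc 3 6 (.lc 3 6 (.lc 3 6 (.lc 3 6 (.lc 3 6 (.lc 3 6 (.lc 3 6 (.lc 3 6 (.lc 3 6 (.lc 3 6 (.lc 3 6 (.lc 3 6 (.lc 3 6 (.lc 3 6 (.lc 3 6 (.lc 4 6 (.lc 4 6 (.lc 4 6 (.lc 4 6 (.lc 4 6 (.lc 4 6 .stop))))))))))))))))))))))))))))))))))))))))))))))))))))))))))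
 (.lc 2 4 (.lc 2 4 (.lc 2 4 (.lc 0 0 (.lc 0 11 (.lc 2 4 (.lc 2 4 (.lc 3 4 (.lc 3 4 (.lc 3 4 (.lc 3 4 .stop))))))))))))
 (.lc 2 5 (.lc 2 5 (.lc 3 10 (.lc 3 0 (.lc 3 0 (.lc 3 2 (.lc 3 11 (.conf [122,160] (.node [105,112] 2 6 .stop
 (.conf [105,166] (.conf [105,166] (.lc 2 5 (.lc 2 5 (.lc 2 5 (.lc 2 5 (.lc 2 5 (.lc 2 5 (.lc 2 5 (.lc 3 10 (.lc 3 0 (.lc 3 10 (.lc 3 2 (.lc 3 0 (.lc 3 11 (.lc 3 5 (.lc 3 5 (.lc 3 5 (.lc 3 5 (.lc 4 11 (.lc 4 10 (.lc 4 11 (.lc 4 0 (.lc 4 0 (.lc 4 12 (.lc 3 5 (.lc 3 5 (.lc 3 5 (.lc 3 5 (.lc 3 5 (.lc 3 5 (.lc 3 5 (.lc 3 5 (.lc 3 5 (.lc 3 5 (.lc 3 5 (.lc 3 5 (.lc 3 5 (.lc 3 5 (.lc 3 5 (.lc 4 5 (.lc 4 5 (.lc 4 5 (.lc 4 5 (.lc 4 5 (.lc 4 5 .stop))))))))))))))))))))))))))))))))))))))))))))))))))))))))))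
 (.lc 2 2 (.lc 2 2 (.lc 0 0 (.lc 2 2 (.lc 0 10 (.lc 2 2 (.lc 2 2 (.lc 3 2 (.lc 3 2 (.lc 3 2 .stop)))))))))))
 (.lc 2 3 (.lc 1 2 (.lc 2 3 (.lc 3 9 (.lc 3 0 (.lc 3 0 (.lc 3 2 (.lc 3 10 (.conf [105,144] (.node [84,96] 2 5 (.lc 0 2 .stop)
 (.conf [84,149] (.conf [84,149] (.lc 1 2 (.lc 1 2 (.lc 2 3 (.lc 1 2 (.lc 2 3 (.lc 3 9 (.lc 3 0 (.lc 3 9 (.lc 3 0 (.lc 3 10 (.lc 2 2 (.lc 2 2 (.lc 2 2 (.lc 4 10 (.lc 4 9 (.lc 4 10 (.lc 4 0 (.lc 4 0 (.lc 4 11 (.lc 3 3 (.lc 2 2 (.lc 2 2 (.lc 3 3 (.lc 3 3 (.lc 2 2 (.lc 2 2 (.lc 2 2 (.lc 2 2 (.lc 2 2 (.lc 2 2 (.lc 3 2 (.lc 3 2 (.lc 3 2 (.lc 3 2 .stop)))))))))))))))))))))))))))))))))))))))))))))))))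
 .stop))))))))))))))))))))))))))))))))))))))))

theorem t3 : kNode2 awTt FTt 3 5 (check tyTt awTt triet FTt [s4, s6, s9, s10, s11] c3) (fun _ _ _ => true) 0 s3 Pl.nil s3 =
    true := by
  decide +kernel

end Chk
end Pool.Agent.Lib.MP_ba95e8_co
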