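import Pool.Agent.Lib.MP_ba95e8_co.ChkTab
import Pool.Agent.Lib.MP_ba95e8_co.ChkStates

/-!
Deltahedral domes: part 30 of the case analysis.
-/

namespace Pool.Agent.Lib.MP_ba95e8_co
namespace Chk

/-- certificate number 30 -/
def c30 : Cert := (.node [50,80,69] 0 3 (.far [257,1,1,257] 4096 .stop)
 (.node [50,86,69] 6 3 (.asm [] 0 (.lc 3 0 (.lc 3 7 (.node [] 4 5 (.lc 2 1 (.lc 1 3 (.node [86] 1 4 (.lc 2 0 (.node [71,96,100] 6 4 .stop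
 (.far [16,257,16,16,256,4096] 17 (.node [71] 4 7 (.far [257,16,257,16,16,256,4096] 17 (.conf [117,134,65] (.conf [117,137,65] (.node [137,151,65] 8 9 (.node [96,134,151] 8 6 (.far [16,4112,16,0,4112,257,1,4096] 256 .stop)
 (.node [138,151] 1 8 (.node [169] 1 10 (.far [8224,8208,4112,4112,4096,4112,0,0,4112,4112] 257 (.node [169,106] 6 10 (.far [2,8192,16,272,4112,4096,4112,0,0,4112,4112] 257 (.lc 1 7 .stop))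
 (.far [4112,4096,4112,16,0,4112,257,1,4096] 256 (.node [106,169] 6 10 .stop
 (.node [169,186,11] 10 9 (.node [151] 11 9 (.node [117] 11 7 .stop
 (.conf [188,199] .stop))
 (.lc 2 7 (.lc 0 12 (.lc 2 7 (.lc 3 7 .stop)))))
 (.far [16,4112,0,0,4112,0,256,0,0,4096] 0 .stop))))))
 (.lc 1 9 (.lc 1 9 (.lc 2 9 .stop))))
 (.conf [96,134] (.conf [138,151] (.conf [139,151] (.conf [129,151] (.conf [151,169] (.conf [105,151] (.conf [134,151] (.conf [139,151] (.node [129,151,9] 9 7 (.lc 1 7 .stop)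
 (.node [96,129,151,22] 6 9 .stop
 (.node [129,151,26] 9 7 (.node [117] 1 10 (.node [167] 10 7 (.lc 1 4 (.node [96,103] 6 7 (.lc 0 3 .stop)
 (.node [117,171] 7 5 (.far [257,16,0,16,0,16,0,4096] 0 (.conf [83,96,182] (.lc 2 3 (.node [188,197,86,96] 10 11 .stop
 (.far [257,16,0,16,0,16,0,4096] 0 (.conf [83,116,188] .stop))))))
 (.lc 1 3 (.lc 2 4 (.lc 3 0 (.lc 2 4 (.node [117,183,203,117,172] 7 5 (.far [257,16,0,16,0,16,0,4096] 0 (.lc 2 3 (.lc 2 3 (.lc 0 13 (.lc 2 3 (.lc 3 3 .stop))))))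
 (.lc 2 4 (.lc 3 4 .stop))))))))))
 (.lc 2 7 (.node [106] 6 10 (.far [4112,16,4112,4112,16,0,4112,0,257,4096] 0 (.lc 0 3 (.lc 0 3 (.lc 0 3 .stop))))
 (.lc 2 7 (.lc 2 7 (.lc 3 7 .stop))))))
 (.lc 2 5 (.lc 2 5 (.lc 0 11 (.lc 2 5 (.lc 3 5 .stop))))))
 (.conf [129,151] (.conf [140,151] (.conf [105,151] (.far [1,257,256,257,4112,16,256] 17 (.conf [105,151] (.node [129,151,169,10] 9 7 (.conf [117,167] (.lc 2 5 (.lc 2 5 (.lc 0 11 (.lc 2 5 (.lc 3 5 .stop))))))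
 (.conf [105,151] (.conf [129,186,27] (.conf [106,151,169] .stop))))))))))))))))))))))
 (.far [257,16,257,16,16,256,4096] 17 (.conf [117,138,65] .stop))))))
 (.lc 2 1 (.lc 3 0 (.lc 3 0 (.node [22,65,96,117] 1 6 (.far [1,256,257,4112,16,256] 17 .stop)
 (.node [24,65,117] 1 8 (.node [] 7 5 (.lc 1 3 (.node [86,121] 8 7 (.far [16,257,0,4112,1,16,16,256,4096] 17 (.lc 1 5 (.lc 1 5 (.lc 1 5 (.node [138,169] 8 10 (.lc 2 9 .stop)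
 (.lc 2 5 .stop))))))
 (.lc 2 3 (.lc 2 3 (.lc 3 4 (.lc 2 3 (.conf [122,169] (.lc 2 3 (.lc 2 3 (.lc 2 3 (.lc 3 4 (.lc 3 3 (.lc 3 3 (.lc 4 4 (.lc 3 3 (.lc 3 3 (.lc 3 3 (.lc 4 3 .stop))))))))))))))))))
 (.lc 2 7 (.node [104] 5 6 (.far [1,16,4096,4112,0,257,4096] 0 (.lc 1 7 (.lc 3 3 .stop)))
 (.lc 2 7 (.lc 2 7 (.lc 3 7 .stop))))))
 (.lc 3 0 (.node [22,71,96,104,132,71] 1 6 (.far [4096,0,0,4112,16,16,4112] 1 .stop)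
 (.node [25,71,132,71] 8 4 (.node [135] 1 9 (.node [] 9 8 (.node [96,135,150] 6 8 .stop
 (.node [135,154] 8 7 (.far [257,16,4112,257,8208,0,16,16,16,8208] 1 (.lc 2 5 (.lc 2 5 (.lc 0 11 (.lc 2 5 (.lc 3 5 .stop))))))
 (.conf [154,167] (.conf [135,168] (.conf [135,168] (.conf [135,168] (.lc 1 5 (.lc 1 5 (.lc 1 4 (.conf [132,150] (.conf [132,154] (.far [4112,0,0,4112,0,16,256,0,4096] 17 (.node [96,135,154,166] 6 8 .stop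
 (.node [135,155,186] 9 11 (.lc 2 10 .stop)
 (.lc 2 5 (.conf [135,168] (.lc 2 4 (.conf [132,155] (.lc 2 5 (.lc 2 5 (.lc 2 5 (.lc 2 5 (.lc 3 5 .stop)))))))))))))))))))))))
 (.lc 2 8 (.node [105] 5 6 (.far [1,16,1,4096,4112,0,257,4096] 0 (.lc 3 3 (.lc 3 3 (.lc 1 8 (.lc 3 3 (.lc 4 3 .stop))))))
 (.lc 2 8 (.lc 2 8 (.lc 3 8 .stop))))))
 (.lc 1 5 (.lc 1 5 (.lc 1 5 (.lc 3 10 (.lc 2 5 .stop))))))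
 (.lc 3 0 (.far [16,257,16,16,256,4096] 0 (.node [71,132,152,71] 8 4 (.far [16,16,257,16,16,256,4096] 17 (.lc 1 5 (.lc 1 5 (.lc 1 5 (.lc 3 10 (.lc 2 5 .stop))))))
 (.lc 3 0 (.lc 2 1 (.lc 2 1 (.lc 3 0 (.lc 2 1 (.lc 2 1 (.lc 3 0 (.conf [24,134] (.conf [24,135] (.conf [25,152] (.lc 4 0 (.lc 3 1 (.lc 4 0 (.conf [25,152] (.lc 4 0 (.conf [26,169] (.lc 4 0 (.lc 3 1 (.lc 4 0 (.lc 3 1 (.lc 3 1 (.lc 4 0 (.lc 4 0 (.lc 3 1 (.lc 3 1 (.lc 5 0 (.lc 4 1 .stop))))))))))))))))))))))))))))))))))))))))))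
 (.lc 0 0 (.lc 3 1 (.lc 2 6 (.lc 3 7 (.lc 3 8 (.lc 3 1 (.lc 2 3 (.lc 3 1 (.node [86,117,135] 7 5 (.node [86,113] 1 5 .stop
 (.lc 1 3 (.node [86,121] 9 5 (.far [16,16,16,0,257,4096] 0 (.lc 3 1 (.lc 3 10 (.far [16,16,16,0,257,4096] 0 (.lc 3 10 (.lc 4 11 .stop))))))
 (.conf [83,96,150] (.lc 2 3 (.lc 2 3 (.lc 3 1 (.lc 3 10 (.lc 2 3 (.conf [86,149] (.node [83,96,113,135] 1 6 (.far [4096,0,0,4112,16,16,4112] 1 .stop)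
 (.node [83,96,121,135] 9 6 (.node [144] 7 9 (.node [113] 7 1 .stop
 (.node [122] 8 7 (.far [16,257,0,257,16,0,257,4096] 0 (.lc 3 1 (.lc 3 11 (.lc 1 9 (.lc 3 11 (.lc 4 12 .stop))))))
 (.lc 2 0 (.lc 2 0 (.lc 3 5 (.conf [123,186] (.lc 2 0 (.lc 2 0 (.lc 3 5 (.lc 3 5 (.lc 3 5 (.lc 3 5 (.lc 3 0 (.lc 4 5 (.lc 4 5 (.lc 4 5 (.lc 4 5 (.lc 4 5 (.lc 4 5 (.lc 5 5 .stop))))))))))))))))))))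
 (.node [145] 7 9 (.node [122,145] 8 7 (.far [16,257,0,257,16,0,257,4096] 0 (.lc 3 11 (.lc 1 9 (.lc 3 11 (.lc 4 12 .stop)))))
 (.lc 2 1 (.lc 3 5 (.conf [145,169] (.lc 3 5 (.lc 3 5 (.lc 4 5 (.lc 4 5 .stop))))))))
 (.far [16,16,16,257,1,4096] 256 (.far [4096,0,0,4112,16,16,4112] 1 (.node [154,160] 7 9 (.node [113,154] 7 1 .stop
 (.node [123,154] 9 10 (.far [4112,1,1,258,0,4112,256] 17 (.lc 2 0 (.lc 2 0 (.lc 2 0 (.lc 0 12 (.lc 2 0 (.lc 3 0 .stop)))))))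
 (.lc 2 6 (.lc 3 5 (.conf [154,185] (.lc 2 6 (.lc 2 6 (.lc 3 5 (.lc 3 5 (.lc 3 5 (.lc 3 6 (.lc 4 5 (.lc 4 5 (.lc 4 5 (.lc 4 5 (.lc 4 5 (.lc 5 5 .stop)))))))))))))))))
 (.node [154,161] 1 4 (.far [257,4096,0,0,4096,0,0,256] 0 (.lc 2 1 (.lc 1 7 (.lc 0 11 (.lc 2 1 (.lc 3 1 .stop))))))
 .stop))))))
 (.lc 1 0 (.lc 3 1 (.lc 3 9 (.lc 3 1 (.lc 3 9 (.lc 2 3 (.lc 3 10 (.conf [83,122,169] (.lc 3 3 (.lc 4 11 (.lc 2 0 (.lc 4 10 (.lc 4 9 (.lc 4 10 (.lc 4 1 (.lc 4 10 (.lc 5 11 .stop)))))))))))))))))))))))))))))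
 (.lc 3 1 (.lc 2 6 (.lc 3 8 (.lc 3 7 (.lc 3 8 (.lc 4 1 (.lc 3 6 (.lc 4 8 (.lc 4 9 (.lc 4 9 (.lc 4 9 (.lc 4 9 (.lc 5 10 .stop)))))))))))))))))))))))))
 (.node [114] 4 5 (.node [86] 0 5 (.far [257,1,0,0,257,257] 4096 (.lc 1 0 (.node [114,117] 0 7 (.far [1,257,1,16,16,256] 0 .stop)
 (.node [86] 5 6 (.node [103] 4 0 (.lc 0 0 (.node [72] 1 4 (.far [16,256,257,256,0,16,256,0,4096] 0 (.far [4112,0,1,0,0,16,256,0,4096] 0 (.conf [25,152] (.conf [23,114] .stop))))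
 (.far [16,0,257,4096] 0 .stop)))
 (.lc 2 7 (.lc 2 7 (.lc 2 3 (.far [4112,1,1,0,4112,256] 0 (.lc 2 7 (.lc 3 7 .stop)))))))
 (.lc 1 3 (.conf [80,103,134] (.far [257,1,16,16,256] 0 (.conf [40,133] (.lc 2 0 (.lc 0 0 (.node [86,133,152,86,103,114] 5 6 (.far [257,16,16,0,257,4096] 0 (.lc 2 7 (.lc 2 7 (.lc 2 3 (.lc 0 10 (.lc 2 7 (.lc 3 7 .stop)))))))
 (.lc 1 7 (.lc 0 0 (.lc 2 7 (.lc 0 0 .stop)))))))))))))))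
 (.lc 2 1 (.lc 1 3 (.node [114,117] 6 7 (.lc 0 3 .stop)
 (.node [86] 1 4 (.lc 2 0 (.node [72,100,103,114] 6 4 .stop
 (.node [72,114,116] 7 4 (.far [256,0,257,4112,16,256] 0 .stop)
 (.far [16,257,16,16,256,4096] 0 (.node [72] 4 8 (.far [257,16,257,16,16,256,4096] 0 (.conf [133,144,65] (.conf [133,150,65] (.conf [133,151,65] (.conf [133,154,65] (.node [144,65] 9 0 .stop
 (.node [154,168,65] 9 10 (.node [144,168] 9 0 (.far [272,4112,4112,4096,4112,0,0,4112,4112] 257 .stop)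
 (.node [103,150,168,114] 9 6 .stop
 (.node [114,151,168] 9 7 .stop
 (.node [155,168] 1 9 (.node [186] 1 11 (.far [8224,8208,4112,4112,4096,4112,0,0,4112,4112] 257 (.node [103,186,114,107] 6 11 .stop
 (.node [114,186,123] 7 11 .stop
 (.node [186,139] 8 11 .stop
 (.node [186,203] 11 10 (.far [8224,8192,16,272,4112,4096,4112,0,0,4112,4112] 257 (.lc 2 8 (.conf [168,218] (.lc 2 8 (.lc 3 8 .stop)))))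
 (.far [8224,8208,4112,4112,4096,4112,0,0,4112,4112] 257 (.node [186,203] 11 10 (.node [168] 12 10 (.node [133] 12 8 (.node [133] 8 5 (.far [257,16,4096,0,0,0,0,16,0,4096] 0 (.lc 1 7 .stop))
 (.lc 2 4 (.far [4112,4112,16,1,256,256] 0 (.lc 1 7 .stop))))
 (.lc 3 0 (.conf [205,216] (.lc 3 0 (.lc 4 0 .stop)))))
 (.lc 2 8 (.lc 0 13 (.lc 2 8 (.lc 3 8 .stop)))))
 (.conf [107,114] (.node [186,203,220] 11 10 (.node [168] 12 10 (.node [133] 12 8 (.far [257,257,1,16,4096,4096] 0 (.lc 2 4 (.lc 0 14 (.lc 1 7 .stop))))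
 (.lc 3 10 (.conf [206,232] (.lc 3 10 (.lc 4 10 .stop)))))
 (.lc 2 8 (.lc 0 14 (.lc 2 8 (.lc 3 8 .stop)))))
 .stop)))))))))
 (.lc 1 10 (.lc 1 10 (.lc 1 10 (.node [186] 10 8 (.lc 1 4 (.node [103,133,166,114] 10 6 (.lc 1 2 .stop)
 (.node [114,133,167] 10 7 .stop
 (.node [133,172] 11 10 (.far [1,4112,1,4096,256,256] 4097 (.lc 3 6 (.lc 3 7 (.lc 3 13 (.lc 1 8 (.lc 3 13 (.lc 4 7 (.lc 4 14 .stop))))))))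
 (.conf [104,133] (.conf [172,198] (.conf [172,199] (.conf [173,220] (.lc 3 8 (.lc 0 7 (.conf [104,114] (.conf [133,200] (.node [104,114,133] 6 8 (.lc 0 3 .stop)
 (.conf [32,120] (.node [103,133,166,200,114] 10 6 (.lc 1 2 .stop)
 (.node [114,133,167,200] 10 7 .stop
 (.node [133,173,200] 8 5 (.node [197] 12 5 (.node [198] 12 6 (.far [257,257,1,16,0,0,16,0,4096] 0 (.lc 2 3 (.conf [114,215] (.conf [103,230] (.lc 2 3 (.lc 3 3 .stop))))))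
 (.lc 1 7 (.lc 1 7 (.lc 3 5 (.lc 2 7 .stop)))))
 (.lc 2 3 (.lc 2 3 (.lc 0 14 (.lc 2 3 (.lc 3 3 .stop))))))
 (.lc 3 8 (.lc 3 8 (.lc 3 8 (.lc 3 8 (.lc 2 4 (.lc 3 8 (.lc 3 8 (.lc 3 8 (.conf [104,114] (.conf [108,114] (.conf [174,237] (.lc 1 7 (.lc 4 8 (.lc 4 8 (.lc 4 8 (.lc 4 8 (.lc 4 8 (.lc 4 8 (.lc 4 8 (.lc 4 8 (.lc 4 8 (.lc 4 8 (.lc 4 8 (.lc 4 8 (.lc 4 8 (.lc 5 8 (.lc 5 8 (.lc 5 8 .stop)))))))))))))))))))))))))))))))))))))))))))))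
 (.lc 2 10 .stop))))))
 (.conf [155,168] (.conf [42,168] (.lc 0 7 (.conf [144,168] (.conf [114,151] (.conf [155,168] (.conf [122,168] (.conf [122,168] (.conf [144,168] (.conf [156,168] (.conf [145,168] (.conf [145,168] (.conf [155,176] (.conf [106,114] (.conf [168,186] (.conf [168,186] (.conf [150,168] (.conf [151,168] (.conf [155,168] (.conf [106,168] (.conf [32,122] (.conf [144,168] (.conf [150,168] (.conf [151,168] (.conf [156,168] (.node [145,168] 10 8 (.node [133] 8 5 (.lc 2 0 (.lc 1 3 (.node [114,117] 8 7 (.lc 1 0 .stop)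
 (.node [86,139] 0 8 (.far [16,257,16,0,16,0,4096] 0 (.conf [43,181] (.far [16,257,16,0,16,0,4096] 0 (.lc 0 0 .stop))))
 (.lc 1 3 (.conf [83,103,182] (.lc 2 3 (.lc 3 0 (.lc 2 3 (.node [86,181,203,86,103,114] 5 6 (.far [257,16,0,0,0,0,16,0,257,4096] 0 (.lc 2 7 (.lc 2 3 (.lc 0 13 (.lc 2 7 (.lc 3 7 .stop))))))
 (.lc 1 7 (.lc 1 7 (.lc 3 0 (.lc 3 0 (.lc 2 7 (.lc 1 0 (.lc 2 7 .stop)))))))))))))))))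
 (.lc 2 5 (.lc 2 5 (.lc 2 5 (.lc 2 5 (.conf [133,184] (.lc 2 5 (.lc 3 5 (.lc 1 0 (.lc 3 5 .stop))))))))))
 (.node [103,145,168,114,22] 6 10 .stop
 (.conf [122,168] (.node [145,168,27] 10 8 (.node [133] 1 11 (.node [184] 11 8 (.lc 2 0 (.lc 1 4 (.node [103,104,114] 6 8 (.lc 0 3 .stop)
 (.node [114,120] 7 8 .stop
 (.node [133,188] 8 5 (.far [257,16,0,16,0,16,0,4096] 0 (.conf [83,103,198] (.lc 2 3 (.node [205,213,86,103,114] 11 12 (.far [4112,0,4112,1,256,257] 0 (.conf [200,213] (.conf [205,236] (.node [200,213,176] 13 5 .stop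
 (.far [4112,4112,4096,1,257,257,1,0,256] 0 .stop)))))
 (.lc 1 7 (.lc 2 7 .stop))))))
 (.lc 2 4 (.lc 1 3 (.lc 2 4 (.lc 3 0 (.lc 0 7 (.conf [104,114] (.lc 3 0 (.node [133,200,220,133,189] 8 5 (.far [257,16,0,16,0,16,0,4096] 0 (.lc 2 3 (.lc 2 3 (.lc 0 14 (.lc 2 3 (.lc 3 3 .stop))))))
 (.lc 2 4 (.lc 2 4 (.lc 3 0 (.lc 2 4 (.lc 3 0 (.lc 3 0 (.lc 3 0 (.lc 1 7 (.lc 1 7 (.lc 1 7 (.lc 4 0 (.lc 1 0 (.lc 4 0 (.lc 2 3 (.lc 3 4 (.lc 3 4 (.lc 1 7 (.lc 2 7 .stop)))))))))))))))))))))))))))))))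
 (.lc 2 8 (.lc 2 8 (.lc 2 8 (.node [184,203] 11 8 (.lc 1 4 (.node [103,104,182,114] 11 6 (.lc 1 2 .stop)
 (.node [114,120,183] 11 7 .stop
 (.lc 2 1 (.node [133,189] 12 11 (.node [205] 8 5 (.far [257,0,16,0,16,0,16,0,4096] 0 (.conf [83,103,214] (.lc 2 3 (.node [222,229,205,86,103,114] 12 13 (.far [1,4112,258,4096,8192,0,0,0,0,16,0,0,4112,4112] 257 (.lc 3 0 (.lc 1 5 .stop)))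
 (.lc 1 7 (.lc 2 7 .stop))))))
 (.lc 3 6 (.lc 3 7 (.lc 3 14 (.lc 1 8 (.lc 3 14 (.lc 4 7 (.lc 4 15 .stop))))))))
 (.lc 1 3 (.lc 2 4 (.lc 2 4 (.lc 3 1 (.lc 0 7 (.conf [104,114] (.lc 3 1 (.conf [190,237] (.lc 2 4 (.lc 2 4 (.lc 2 4 (.lc 3 1 (.lc 3 1 (.lc 3 1 (.lc 1 7 (.lc 1 7 (.lc 1 7 (.lc 4 1 (.lc 4 1 (.lc 2 3 (.lc 3 4 (.lc 3 4 (.lc 1 7 (.lc 2 7 .stop)))))))))))))))))))))))))))))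
 (.lc 2 8 (.lc 3 8 (.lc 3 8 .stop))))))))
 (.lc 2 5 (.lc 2 5 (.lc 2 5 (.lc 2 5 (.lc 0 0 (.lc 0 12 (.lc 2 5 (.lc 2 5 (.lc 3 5 (.lc 3 5 (.lc 3 5 (.lc 3 5 .stop)))))))))))))
 (.conf [145,168] (.conf [96,114] (.conf [156,168] (.conf [106,114] (.conf [106,114] (.lc 1 0 (.conf [156,168] (.conf [107,114] (.conf [144,168] (.conf [157,168] (.conf [145,168] (.node [103,145,168,114,106] 6 10 .stop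
 (.conf [122,168] (.node [145,168,186] 10 8 (.far [4112,4096,256,256] 4097 (.lc 2 5 (.lc 2 5 (.lc 2 5 (.conf [133,200] (.lc 2 5 (.lc 3 5 (.lc 3 5 .stop))))))))
 (.node [145,168,186] 10 8 (.conf [133,184] (.lc 2 5 (.lc 2 5 (.lc 2 5 (.lc 0 12 (.lc 2 5 (.lc 3 5 (.lc 3 5 .stop))))))))
 (.conf [106,114] (.node [145,168,186] 10 8 (.conf [133,184] (.lc 2 5 (.lc 2 5 (.lc 2 5 (.lc 0 12 (.lc 2 5 (.lc 3 5 (.lc 3 5 .stop))))))))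
 (.conf [145,203,28] (.conf [106,114] (.node [145,168,186,203] 10 8 (.conf [133,184] (.lc 2 5 (.lc 2 5 (.lc 2 5 (.lc 0 13 (.lc 2 5 (.lc 3 5 (.lc 3 5 .stop))))))))
 .stop)))))))))))))))))))))))))))))))))))))))))))))))))))))
 (.far [257,16,257,16,16,256,4096] 0 (.far [257,16,257,16,16,256,4096] 0 (.conf [133,154,65] (.conf [104,114] (.conf [133,144,65] (.conf [133,155,65] .stop)))))))))))))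
 (.lc 3 0 (.lc 2 1 (.node [100,114,72] 6 4 .stop
 (.lc 3 0 (.node [22,65,103,133,114] 1 6 (.lc 1 2 .stop)
 (.node [23,65,114,133] 1 7 .stop
 (.node [25,65,133] 1 9 (.node [] 8 5 (.node [86,128] 8 0 (.lc 0 0 .stop)
 (.lc 1 3 (.node [114,117,135] 8 7 .stop
 (.node [86,138] 9 8 (.far [16,257,0,4112,1,16,16,256,4096] 0 (.lc 1 5 (.lc 1 5 (.lc 1 5 (.lc 3 0 (.lc 1 5 (.node [155,186] 9 11 (.far [4112,1,4112,1,513,256] 0 (.lc 2 10 (.lc 2 10 (.lc 2 10 (.lc 2 10 (.conf [186,203] (.lc 2 10 (.lc 3 10 (.lc 1 0 (.lc 3 10 .stop))))))))))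
 (.lc 2 5 (.lc 2 5 .stop)))))))))
 (.lc 2 3 (.lc 2 3 (.lc 3 4 (.lc 2 3 (.lc 3 4 (.lc 2 3 (.conf [139,186] (.lc 2 3 (.lc 2 3 (.lc 2 3 (.lc 2 3 (.lc 3 4 (.lc 3 4 (.lc 3 3 (.lc 3 3 (.lc 4 4 (.lc 3 3 (.lc 3 3 (.lc 3 3 (.lc 3 3 (.lc 3 3 (.lc 4 3 .stop))))))))))))))))))))))))))
 (.lc 2 8 (.lc 2 8 (.lc 2 8 (.node [169] 8 5 (.lc 1 3 (.node [114,117,135] 8 7 .stop
 (.node [138,165,169] 8 10 (.lc 0 1 .stop)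
 (.node [86,139] 9 8 (.far [16,257,0,4112,1,16,16,256,4096] 0 (.lc 3 6 (.lc 3 7 (.lc 3 12 (.lc 3 1 (.lc 1 5 (.lc 3 12 (.lc 4 7 (.lc 4 13 .stop)))))))))
 (.lc 2 3 (.lc 2 3 (.lc 2 3 (.lc 3 4 (.lc 3 4 (.lc 2 3 (.conf [140,203] (.lc 2 3 (.lc 2 3 (.lc 2 3 (.lc 2 3 (.lc 3 4 (.lc 3 4 (.lc 3 3 (.lc 3 3 (.lc 4 4 (.lc 3 3 (.lc 3 3 (.lc 3 3 (.lc 3 3 (.lc 3 3 (.lc 4 3 .stop))))))))))))))))))))))))))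
 (.lc 2 8 (.lc 3 8 (.lc 3 8 .stop))))))))
 (.lc 3 0 (.node [22,72,103,105,148,114,72] 1 6 (.lc 1 2 .stop)
 (.node [23,114,121,148,72] 1 7 .stop
 (.node [26,72,148,72] 9 4 (.node [152] 1 10 (.node [] 10 9 (.lc 2 0 (.node [103,152,166,114] 6 9 .stop
 (.node [114,152,167] 7 9 (.lc 1 5 .stop)
 (.node [152,171] 9 8 (.far [257,16,0,256,4112,257,16,16,256,4096] 0 (.lc 2 5 (.lc 2 5 (.lc 2 5 (.lc 2 5 (.lc 0 12 (.lc 2 5 (.lc 3 5 (.lc 3 5 .stop)))))))))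
 (.lc 3 0 (.conf [171,184] (.conf [105,152] (.conf [32,121] (.conf [152,185] (.conf [152,185] (.conf [152,185] (.conf [105,114] (.lc 3 0 (.conf [152,185] (.lc 1 5 (.lc 1 5 (.lc 1 5 (.lc 1 5 (.lc 1 4 (.conf [148,166] (.conf [148,167] (.conf [148,171] (.lc 0 7 (.conf [114,167] (.node [103,152,171,182,114] 6 9 .stop
 (.node [114,152,171,183] 7 9 (.lc 3 2 .stop)
 (.node [152,172,203] 10 12 (.node [203] 9 8 (.far [4112,4112,1,1,4112,513] 0 (.lc 2 5 (.lc 2 5 (.lc 2 5 (.lc 0 13 (.lc 2 5 (.lc 3 5 (.lc 3 5 .stop))))))))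
 (.lc 2 11 (.lc 2 11 (.lc 2 11 (.lc 2 11 (.lc 2 11 (.conf [203,220] (.lc 2 11 (.lc 3 11 (.lc 1 0 (.lc 3 11 .stop)))))))))))
 (.lc 2 5 (.lc 2 5 (.lc 2 5 (.conf [105,114] (.conf [107,114] (.conf [152,185] (.lc 0 7 (.conf [104,114] (.conf [148,172] (.lc 2 5 (.lc 2 5 (.lc 2 5 (.lc 2 5 (.lc 2 5 (.lc 2 5 (.lc 2 5 (.lc 2 5 (.lc 2 5 (.lc 3 5 (.lc 3 5 (.lc 3 5 .stop))))))))))))))))))))))))))))))))))))))))))))))))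
 (.lc 2 9 (.lc 2 9 (.lc 2 9 (.lc 2 9 (.node [186] 10 9 (.node [103,152,166,114] 6 9 .stop
 (.node [114,152,167] 7 9 (.lc 1 5 .stop)
 (.lc 2 1 (.node [152,172] 9 8 (.far [257,16,0,256,4112,257,16,16,256,4096] 0 (.lc 2 5 (.lc 2 5 (.lc 2 5 (.lc 2 5 (.lc 0 13 (.lc 2 5 (.lc 3 5 (.lc 3 5 .stop)))))))))
 (.lc 3 1 (.conf [172,200] (.lc 3 7 (.lc 3 2 (.lc 3 6 (.lc 3 7 (.lc 3 13 (.conf [105,114] (.lc 3 1 (.conf [152,201] (.lc 1 5 (.lc 1 5 (.lc 1 5 (.lc 1 5 (.lc 1 4 (.lc 3 6 (.lc 3 7 (.lc 3 12 (.lc 0 7 (.lc 3 7 (.lc 3 12 (.lc 3 12 (.lc 3 13 (.lc 2 5 (.lc 2 5 (.lc 2 5 (.lc 4 12 (.lc 4 7 (.lc 4 14 (.lc 0 7 (.lc 4 7 (.lc 4 13 (.lc 2 5 (.lc 2 5 (.lc 2 5 (.lc 2 5 (.lc 2 5 (.lc 2 5 (.lc 2 5 (.lc 2 5 (.lc 2 5 (.lc 3 5 (.lc 3 5 (.lc 3 5 .stop))))))))))))))))))))))))))))))))))))))))))))))))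
 (.lc 2 9 (.lc 3 9 (.lc 3 9 .stop)))))))))
 (.lc 1 5 (.lc 1 5 (.lc 1 5 (.lc 1 5 (.lc 1 5 (.lc 1 5 (.lc 3 0 (.lc 3 11 (.lc 2 5 (.lc 2 5 (.lc 2 5 (.lc 2 5 .stop)))))))))))))
 (.conf [100,114] (.lc 3 0 (.far [16,257,16,16,256,4096] 0 (.lc 3 0 (.node [72,148,169,72] 9 4 (.far [16,16,257,16,16,256,4096] 0 (.lc 1 5 (.lc 1 5 (.lc 1 5 (.lc 1 5 (.lc 1 5 (.lc 1 5 (.lc 3 0 (.lc 3 11 (.lc 2 5 (.lc 2 5 (.lc 2 5 (.lc 2 5 .stop)))))))))))))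
 (.lc 3 0 (.lc 2 1 (.lc 2 1 (.lc 2 1 (.lc 3 0 (.lc 2 1 (.lc 2 1 (.lc 2 1 (.lc 3 0 (.conf [23,114] (.conf [25,150] (.lc 3 0 (.conf [25,151] (.lc 3 0 (.conf [25,152] (.lc 3 0 (.conf [26,169] (.lc 3 1 (.lc 4 0 (.lc 3 1 (.lc 4 0 (.conf [100,114] (.conf [23,114] (.lc 4 0 (.conf [26,169] (.conf [23,114] (.lc 4 0 (.conf [27,186] (.lc 3 1 (.lc 4 0 (.lc 3 1 (.lc 4 0 (.lc 3 1 (.lc 3 1 (.lc 4 0 (.lc 3 1 (.lc 4 0 (.lc 3 1 (.lc 3 1 (.lc 4 0 (.lc 3 1 (.lc 3 1 (.lc 3 1 (.lc 5 0 (.lc 4 1 (.lc 4 1 (.lc 5 0 (.lc 4 1 .stop)))))))))))))))))))))))))))))))))))))))))))))))))))))))))))))))))))))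
 (.lc 0 0 (.lc 2 6 (.lc 2 6 (.lc 3 1 (.lc 2 6 (.lc 2 6 (.lc 3 1 (.lc 2 6 (.lc 3 7 (.lc 3 8 (.lc 3 0 (.lc 3 8 (.lc 3 0 (.lc 3 7 (.lc 3 9 (.lc 0 0 (.node [86,128] 0 5 (.node [37,114] 2 5 .stop
 (.lc 0 0 .stop))
 (.lc 2 3 (.lc 3 1 (.lc 2 3 (.node [86,133] 0 8 (.node [40,133,114] 2 8 (.node [133,120] 8 5 (.node [86] 7 5 (.lc 0 3 .stop)
 (.lc 1 3 .stop))
 (.lc 0 5 (.lc 0 9 .stop)))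
 (.lc 0 0 (.lc 0 0 (.node [120,133] 7 8 .stop
 (.conf [41,152] (.lc 0 0 .stop))))))
 (.lc 3 1 (.node [86,133,152] 8 5 (.node [86,128] 0 5 (.far [16,16,16,0,257,4096] 0 (.lc 1 7 .stop))
 (.node [86,129] 1 5 (.lc 1 7 .stop)
 (.lc 1 3 (.node [86,114,117,135,152] 7 5 (.lc 0 3 .stop)
 (.node [86,138] 10 5 (.far [16,16,16,0,257,4096] 0 (.lc 1 7 (.lc 1 7 (.lc 1 7 (.lc 1 7 (.lc 1 7 (.lc 3 0 (.lc 1 3 (.lc 3 11 (.lc 2 7 (.lc 2 7 (.lc 2 7 (.lc 2 7 .stop)))))))))))))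
 (.node [83,103,128,152] 0 6 .stop
 (.lc 1 3 (.conf [83,103,166] (.lc 3 1 (.lc 3 7 (.lc 3 10 (.lc 2 3 (.lc 2 3 (.lc 2 3 (.lc 3 2 (.lc 3 0 (.lc 3 1 (.lc 3 7 (.lc 3 11 (.node [86,129] 1 4 .stop
 (.node [86,138,160,138,152] 0 5 .stop
 (.lc 2 3 (.lc 2 3 (.conf [86,165] (.conf [86,165] (.lc 1 7 (.lc 1 7 (.lc 1 7 (.lc 3 0 (.lc 3 1 (.lc 1 3 (.lc 3 10 (.lc 3 1 (.lc 3 10 (.lc 3 10 (.lc 3 0 (.lc 2 3 (.lc 2 3 (.lc 2 3 (.lc 3 0 (.lc 3 10 (.lc 3 0 (.lc 3 11 (.lc 2 7 (.lc 2 7 (.lc 2 7 (.lc 2 7 (.lc 4 10 (.lc 4 11 (.lc 3 3 (.lc 3 3 (.lc 3 3 (.lc 3 3 (.lc 1 0 (.lc 4 1 (.lc 4 11 (.lc 4 0 (.lc 4 12 (.lc 4 1 (.lc 4 10 (.lc 2 3 (.lc 2 3 (.lc 4 0 (.lc 4 11 (.lc 2 7 (.lc 2 7 (.lc 2 7 (.lc 2 7 (.lc 2 7 (.lc 2 7 (.lc 2 7 (.lc 2 7 (.lc 2 7 (.lc 2 7 (.lc 3 7 (.lc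 3 7 (.lc 3 7 (.lc 3 7 (.lc 3 7 (.lc 3 7 .stop))))))))))))))))))))))))))))))))))))))))))))))))))))))))))))))))))))))))))))))))
 (.lc 0 0 (.lc 2 6 (.lc 2 6 (.lc 2 6 (.lc 3 1 (.lc 2 6 (.lc 2 6 (.lc 3 7 (.lc 3 8 (.lc 3 0 (.lc 3 8 (.lc 3 0 (.lc 3 7 (.lc 3 9 (.lc 3 8 (.lc 3 0 (.lc 3 7 (.lc 3 8 (.lc 3 0 (.lc 3 8 (.lc 3 0 (.lc 3 9 (.lc 3 6 (.lc 0 0 (.lc 3 6 (.lc 3 6 (.lc 4 1 (.lc 3 6 (.lc 4 9 (.lc 4 8 (.lc 4 0 (.lc 4 9 (.lc 4 9 (.lc 4 0 (.lc 4 10 (.lc 4 9 (.lc 4 8 (.lc 4 0 (.lc 4 9 (.lc 4 9 (.lc 4 0 (.lc 4 10 (.lc 4 8 (.lc 4 9 (.lc 4 9 (.lc 4 0 (.lc 4 9 (.lc 4 0 (.lc 4 10 (.lc 4 7 (.lc 4 9 (.lc 4 7 (.lc 4 9 (.lc 4 0 (.lc 4 7 (.lc 4 10 (.lc 5 10 (.lc 5 10 (.lc 5 10 (.lc 5 0 (.lc 5 11 .stop)))))))))))))))))))))))))))))))))))))))))))))))))))))))))))))))))))))))))))))))))))))))))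
 (.lc 3 0 (.lc 3 7 (.lc 4 7 (.lc 4 8 .stop)))))))))
 (.far [1,1,257] 4096 (.node [50,86,98,86,69] 5 6 (.node [80,98] 5 0 (.lc 2 1 (.conf [6,64] (.lc 2 7 (.lc 2 6 (.lc 1 0 (.lc 3 0 (.lc 3 7 (.lc 0 7 (.lc 3 8 (.lc 2 6 (.lc 2 6 (.lc 2 6 (.lc 0 7 (.lc 3 6 (.lc 0 8 .stop)))))))))))))))
 (.node [81,98] 5 1 (.lc 1 6 .stop)
 (.lc 2 3 (.node [87,98] 4 5 (.lc 1 7 (.lc 2 1 (.node [71] 4 7 (.lc 2 0 (.conf [23,118] (.lc 2 6 (.lc 2 8 (.lc 0 0 (.lc 3 8 (.lc 3 0 (.lc 2 6 (.lc 3 9 (.lc 0 0 (.lc 3 1 (.lc 0 0 (.lc 3 8 (.lc 3 0 (.conf [24,135] (.lc 3 9 (.lc 0 0 (.lc 3 8 (.lc 3 0 (.lc 2 6 (.lc 3 9 (.lc 0 0 (.lc 3 1 (.lc 0 0 (.lc 3 1 (.lc 3 1 (.lc 4 9 (.lc 0 0 (.lc 4 9 (.lc 4 0 (.lc 3 6 (.lc 4 10 (.lc 0 0 (.lc 4 1 (.lc 0 0 (.lc 4 1 (.lc 0 0 (.lc 4 1 (.lc 0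 0 (.lc 4 1 (.lc 0 0 (.lc 5 1 .stop))))))))))))))))))))))))))))))))))))))))))
 (.lc 1 7 (.lc 2 3 (.lc 3 1 (.lc 2 3 (.lc 3 8 (.lc 3 0 (.lc 3 8 (.lc 3 0 (.lc 3 9 (.lc 0 0 (.lc 2 7 (.node [64,118] 4 0 (.lc 0 0 .stop)
 (.lc 3 1 (.node [72,118] 7 6 (.lc 1 2 (.lc 1 2 (.lc 1 2 (.lc 3 0 (.lc 1 0 (.lc 2 2 (.lc 2 2 (.lc 2 2 (.lc 2 2 (.lc 2 2 (.lc 2 2 (.lc 1 0 (.lc 1 0 (.lc 1 0 (.lc 2 2 (.lc 2 2 (.lc 2 2 (.lc 2 0 (.lc 2 0 (.lc 3 2 (.lc 3 2 (.lc 3 2 (.lc 3 2 (.far [1,1,4096,0,257,257] 4096 (.lc 2 0 (.lc 2 0 (.lc 2 0 (.lc 2 0 (.lc 2 0 (.lc 3 0 (.lc 3 0 .stop)))))))))))))))))))))))))))))))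
 (.lc 2 7 (.lc 3 1 (.lc 2 7 (.lc 2 3 (.lc 3 1 (.lc 2 3 (.lc 3 0 (.lc 3 8 (.lc 3 8 (.lc 3 0 (.lc 3 8 (.lc 3 0 (.lc 3 9 (.lc 0 0 (.lc 3 3 (.lc 3 3 (.lc 4 1 (.lc 3 3 (.lc 4 9 (.lc 4 8 (.lc 4 0 (.lc 4 9 (.lc 4 9 (.lc 4 0 (.lc 4 10 (.lc 4 8 (.lc 4 0 (.lc 4 9 (.lc 4 8 (.lc 4 0 (.lc 4 9 (.lc 4 8 (.lc 4 0 (.lc 4 9 (.lc 5 9 (.lc 5 9 (.lc 5 0 (.lc 5 10 .stop)))))))))))))))))))))))))))))))))))))))))))))))))))))))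
 (.lc 2 2 (.lc 0 0 (.lc 2 2 (.lc 2 2 (.lc 2 2 (.lc 0 7 (.lc 2 2 (.lc 3 1 (.lc 3 7 (.lc 3 0 (.lc 3 1 (.lc 3 8 (.conf [20,81] (.lc 0 0 (.node [87,98,112] 0 6 .stop
 (.node [80,98,118] 5 0 (.lc 2 1 (.lc 1 0 (.lc 3 8 .stop)))
 (.lc 0 7 (.node [88,98,118] 5 8 (.lc 2 0 (.lc 2 1 (.node [72] 4 8 (.lc 2 0 (.lc 1 7 (.lc 2 9 (.lc 3 0 (.lc 1 6 (.lc 3 9 (.lc 0 0 (.lc 3 1 (.lc 0 0 (.lc 3 9 (.lc 3 0 (.lc 2 7 (.lc 3 10 (.lc 3 0 (.conf [23,118] (.lc 3 9 (.lc 3 1 (.lc 0 0 (.lc 3 1 (.lc 0 0 (.lc 4 9 (.lc 4 0 (.conf [25,151] (.lc 4 10 (.lc 0 0 (.lc 4 1 (.lc 0 0 (.lc 4 1 (.lc 0 0 (.lc 4 1 (.lc 0 0 (.lc 4 1 (.lc 0 0 (.lc 5 1 .stop))))))))))))))))))))))))))))))))))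
 (.lc 2 9 (.lc 3 1 (.lc 0 0 (.lc 3 9 (.lc 3 9 (.lc 3 0 (.lc 0 9 (.lc 3 10 (.lc 3 3 (.lc 0 1 (.lc 3 3 (.lc 3 1 (.lc 0 0 (.lc 3 9 (.lc 3 0 (.lc 0 9 (.lc 3 10 (.lc 3 1 (.lc 2 7 (.lc 3 9 (.lc 0 1 (.lc 3 0 (.lc 3 1 (.lc 2 7 (.lc 3 10 (.lc 3 3 (.lc 0 1 (.lc 3 3 (.lc 0 0 (.lc 0 9 (.lc 4 9 (.lc 0 9 (.lc 4 10 (.lc 4 1 (.lc 0 0 (.lc 4 10 (.lc 4 0 (.lc 0 10 (.lc 4 11 (.lc 0 9 (.lc 0 0 (.lc 0 10 (.lc 0 9 (.lc 0 0 (.lc 0 10 (.lc 0 9 (.lc 0 0 (.lc 0 10 (.lc 1 0 (.lc 4 3 (.lc 4 3 (.lc 0 1 (.lc 4 3 (.lc 0 10 (.lc 0 10 (.lc 0 0 (.lc 0 11 .stop))))))))))))))))))))))))))))))))))))))))))))))))))))))))))))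
 (.lc 2 2 (.lc 3 3 (.lc 2 2 (.lc 0 1 (.lc 2 2 (.lc 2 2 (.lc 3 3 (.lc 2 2 (.lc 3 1 (.lc 3 7 (.lc 3 7 (.lc 3 0 (.lc 3 1 (.lc 3 8 (.lc 3 1 (.lc 3 7 (.lc 3 7 (.lc 3 0 (.lc 3 8 (.lc 3 2 (.lc 0 7 (.lc 3 2 (.lc 3 2 (.lc 0 0 (.lc 3 2 (.lc 3 2 (.lc 0 8 (.lc 3 2 (.lc 4 7 (.lc 4 8 (.lc 4 1 (.lc 4 8 (.lc 4 0 (.lc 4 9 (.lc 4 7 (.lc 4 8 (.lc 4 8 (.lc 4 1 (.lc 4 8 (.lc 4 0 (.lc 4 9 (.lc 4 7 (.lc 4 8 (.lc 4 1 (.lc 4 8 (.lc 4 8 (.lc 4 0 (.lc 4 9 (.lc 4 7 (.lc 4 8 (.lc 4 1 (.lc 4 8 (.lc 4 0 (.lc 4 1 (.lc 4 9 (.lc 5 8 (.lc 5 9 (.lc 5 8 (.lc 5 9 (.lc 5 1 (.lc 5 9 (.lc 5 0 (.lc 5 10 .stop)))))))))))))))))))))))))))))))))))))))))))))))))))))))))))))))))))))))))))))))))))))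
 (.conf [50,86] (.conf [50,80] (.conf [50,87] (.node [50,86,96,69] 0 3 (.node [] 4 5 (.lc 2 1 (.lc 1 3 (.node [86] 5 6 (.node [81,96] 5 1 .stop
 (.lc 2 3 (.node [88,96] 5 8 (.far [4112,4112,1,0,4112,256] 0 (.lc 2 6 (.lc 2 6 (.far [4112,4112,1,0,4112,256] 0 (.lc 2 6 (.lc 3 6 .stop))))))
 (.lc 3 3 (.lc 2 0 (.lc 3 3 (.lc 2 0 (.conf [83,96,134] (.lc 3 3 (.conf [89,152] (.lc 2 0 (.lc 3 3 (.lc 2 0 (.lc 2 0 (.lc 2 0 (.node [83,96,113] 1 4 .stop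
 (.node [83,96,120] 4 7 (.lc 2 1 (.node [73,120] 7 8 (.far [4112,1,4112,257,0,4112,256] 0 (.lc 0 1 (.lc 0 10 (.lc 0 10 (.node [134,168] 1 4 (.far [16,257,256,257,0,16,256,0,4096] 0 (.lc 1 10 (.lc 1 10 (.lc 1 4 (.conf [27,185] (.lc 2 10 .stop))))))
 (.lc 0 11 .stop))))))
 (.lc 3 1 (.lc 2 4 (.lc 3 1 (.lc 3 1 (.conf [120,151] (.lc 3 1 (.lc 2 4 (.lc 3 1 (.lc 3 1 (.lc 4 1 (.lc 3 4 (.lc 4 1 (.lc 4 1 (.lc 4 1 (.lc 4 1 (.lc 5 1 .stop))))))))))))))))))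
 (.lc 4 3 (.lc 3 0 (.conf [83,96,134] (.lc 3 0 (.lc 3 0 (.lc 3 0 (.lc 3 0 (.lc 3 0 (.lc 4 0 .stop))))))))))))))))))))))))))
 (.lc 3 1 (.lc 2 6 (.lc 3 7 (.lc 3 8 (.lc 3 1 (.lc 2 3 (.lc 3 1 (.node [86,117,135] 5 6 (.node [81,96] 5 1 .stop
 (.lc 2 3 (.node [89,96] 7 5 (.node [121] 4 8 (.node [65,135,121] 8 7 (.node [121,138] 7 9 (.node [150] 8 10 (.node [169] 1 10 .stop
 (.lc 2 9 .stop))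
 (.lc 2 6 (.lc 0 11 (.lc 2 6 (.lc 3 6 .stop)))))
 (.lc 2 5 (.lc 3 1 (.conf [121,167] (.lc 2 5 (.lc 2 5 (.lc 3 5 (.lc 3 5 .stop))))))))
 (.node [73,135] 4 9 .stop
 (.node [74,135] 1 4 (.node [168] 8 7 (.node [121,139] 10 8 (.node [171] 7 9 (.node [150] 9 6 (.lc 2 5 (.node [96,156] 6 0 .stop
 (.lc 3 5 (.conf [96,198] (.lc 3 5 .stop)))))
 (.lc 2 6 (.lc 0 12 (.lc 2 6 (.lc 3 6 .stop)))))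
 (.lc 3 9 (.lc 3 12 (.lc 1 7 (.lc 3 12 (.lc 4 13 .stop))))))
 (.conf [117,139] (.conf [121,132] (.conf [121,183] (.lc 1 6 (.node [117,132,150] 10 9 (.lc 2 1 (.lc 1 5 (.node [150,171] 9 6 (.far [4112,1,257,0,0,256,256] 0 (.conf [96,198] .stop))
 (.lc 2 5 (.lc 3 1 (.node [150,185,203,150,172,96] 9 6 (.node [96,182,203] 10 12 (.node [203] 11 6 .stop
 (.lc 2 11 .stop))
 (.lc 0 13 .stop))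
 (.lc 2 5 (.lc 3 5 .stop))))))))
 (.lc 0 11 (.lc 2 6 (.lc 0 12 (.lc 0 11 (.lc 2 6 (.lc 2 6 (.lc 3 6 .stop)))))))))))))
 (.lc 1 8 (.lc 1 8 (.lc 1 8 (.conf [27,186] (.lc 2 8 .stop))))))
 (.lc 2 7 (.lc 2 7 (.lc 2 7 (.lc 2 7 (.lc 3 1 (.conf [26,168] (.conf [75,186] (.lc 2 7 (.lc 2 7 (.lc 2 7 (.lc 2 7 (.lc 3 1 (.lc 3 1 (.lc 3 1 (.lc 3 1 (.lc 3 7 (.lc 3 7 (.lc 4 1 (.lc 4 1 (.lc 4 1 (.lc 4 1 (.lc 4 1 (.lc 4 1 (.lc 4 1 (.lc 5 1 .stop))))))))))))))))))))))))))))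
 (.lc 3 1 (.lc 3 10 (.lc 1 6 (.lc 3 10 (.lc 4 11 .stop))))))
 (.lc 3 3 (.lc 2 0 (.lc 3 3 (.lc 2 0 (.conf [83,96,150] (.lc 3 3 (.conf [90,169] (.lc 2 0 (.lc 3 3 (.lc 2 0 (.lc 2 0 (.lc 2 0 (.lc 0 1 (.lc 0 9 (.lc 4 3 (.lc 3 0 (.lc 0 10 (.lc 3 0 (.lc 3 0 (.lc 3 0 (.lc 3 0 (.lc 3 0 (.lc 4 0 .stop))))))))))))))))))))))))))
 (.lc 3 1 (.lc 2 6 (.lc 3 8 (.lc 3 7 (.lc 3 8 (.lc 4 1 (.lc 3 6 (.lc 4 8 (.lc 4 9 (.lc 4 9 (.lc 4 9 (.lc 4 9 (.lc 5 10 .stop))))))))))))))))))))))))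
 .stop)
 (.conf [50,99] (.conf [50,99] (.far [1,1,257] 4096 (.node [50,86] 4 5 (.node [64,86] 4 0 (.lc 0 0 (.node [70,86] 4 6 (.node [96,98] 6 0 (.node [] 5 6 .stop
 (.lc 0 0 .stop))
 (.conf [23,118] .stop))
 (.node [71,86] 0 5 (.node [86] 5 6 (.far [257,16,0,16,257,4096] 0 (.lc 2 2 (.lc 2 2 (.node [120,134,80] 4 7 (.lc 1 6 .stop)
 (.lc 2 2 (.lc 3 2 .stop))))))
 (.lc 2 0 (.lc 2 0 (.far [4112,1,256] 0 (.lc 2 0 (.lc 3 0 .stop))))))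
 (.node [96,98,118,71] 6 0 (.lc 0 0 .stop)
 (.node [98,103,112,70] 4 6 .stop
 (.node [72,135,86,72,112] 4 8 (.node [135] 7 0 (.node [113] 7 1 .stop
 (.far [16,0,16,4096] 0 (.lc 1 0 (.lc 1 0 (.lc 3 6 (.lc 3 9 (.lc 1 0 (.lc 3 9 (.lc 2 0 .stop)))))))))
 (.lc 2 7 (.lc 2 7 (.conf [22,104] (.conf [25,152] (.lc 2 7 (.lc 2 7 (.lc 3 7 (.lc 3 7 (.lc 3 7 .stop))))))))))
 .stop))))))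
 (.lc 2 1 (.lc 1 3 (.node [71,86] 5 6 (.node [80,71] 5 0 (.far [257,257,16,257,4096] 0 (.node [113,80] 1 4 (.node [22,71,98] 1 6 .stop
 (.node [24,71] 4 7 (.node [113] 7 1 (.lc 0 1 .stop)
 (.conf [113,151] .stop))
 (.conf [25,152] .stop)))
 (.node [113,80] 1 4 .stop
 (.node [120,128,80] 8 0 (.node [129] 7 8 (.node [98,118,129] 7 6 .stop
 (.node [121,129] 4 7 (.node [73] 1 4 (.node [152] 8 1 (.lc 0 1 .stop)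
 (.far [16,256,257,1,1,257,0,257,1,1] 16 .stop))
 (.lc 3 1 (.lc 1 8 .stop)))
 (.conf [121,128] (.conf [116,129] (.conf [129,152] (.lc 0 1 .stop))))))
 (.far [16,16,4096] 0 (.lc 1 0 (.lc 3 9 (.lc 3 9 (.node [137,145,137,120] 1 4 (.lc 0 4 (.lc 2 1 (.conf [71,164] .stop)))
 (.conf [98,137,150] (.lc 3 9 (.lc 3 9 (.lc 4 10 (.lc 4 10 .stop)))))))))))
 (.far [257,257,16,257,4096] 4097 (.node [120,129,80] 1 4 (.node [132] 4 7 .stop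
 (.lc 0 9 .stop))
 .stop))))))
 (.node [81,71] 5 1 .stop
 (.far [257,16,257,4096] 0 (.node [88,71] 7 5 (.far [16,257,16,257,4096] 0 (.conf [112,134,83] (.conf [113,134,83] (.conf [121,134,83] (.far [16,257,16,257,4096] 0 (.far [16,257,16,257,4096] 0 (.node [112,83] 7 0 (.node [113] 4 7 (.lc 2 1 .stop)
 (.lc 1 0 (.conf [121,145] (.lc 1 0 .stop))))
 (.node [121,152,83] 4 7 (.node [64,121,152] 0 7 (.node [152] 4 0 (.lc 0 0 .stop)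
 (.lc 0 9 (.lc 1 8 (.lc 0 0 .stop))))
 (.lc 2 1 (.node [70,98,121,152] 6 7 .stop
 (.node [74,121,152] 7 9 (.node [152] 1 4 (.node [169] 10 9 (.node [152,160] 0 9 (.node [134] 10 0 (.node [] 0 8 (.lc 0 8 (.lc 0 0 .stop))
 .stop)
 (.lc 0 8 (.far [16,16,0,256,16,257,0,4096] 0 .stop)))
 (.lc 2 1 (.node [98,105,152] 6 9 (.lc 0 5 .stop)
 (.node [152,171] 9 8 (.node [134] 10 11 (.node [184] 1 11 (.node [184] 11 8 (.node [134] 8 6 (.far [257,16,0,0,16,0,0,0,0,4096,4096] 0 (.lc 1 0 (.far [257,16,0,0,16,0,0,0,0,4096,4096] 0 .stop)))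
 (.lc 2 5 (.far [4112,1,1,256,256] 0 (.far [4112,1,1,256,256] 0 (.lc 2 5 (.lc 3 5 .stop))))))
 (.lc 2 1 (.node [184,203,184] 11 8 (.far [257,16,16,4096,4096] 0 (.lc 2 5 (.lc 0 6 (.lc 0 13 (.lc 2 5 (.lc 3 5 .stop))))))
 (.lc 2 5 .stop))))
 (.node [184,161] 11 8 (.node [134] 8 6 (.far [257,16,0,16,0,0,0,0,4096,4096] 0 (.lc 1 0 (.far [257,16,0,16,0,0,0,0,4096,4096] 0 .stop)))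
 (.lc 2 5 (.far [4112,4096,256,16,256,256,256] 0 (.far [4112,4096,256,16,256,256,256] 0 (.lc 2 5 (.lc 3 5 .stop))))))
 (.far [4112,0,4112,256,256,256] 4097 (.far [257,0,257,4096,4096,4096] 0 (.far [257,0,257,4096,4096,4096] 0 (.node [184,203,161] 11 8 (.far [257,256,4096,1,4096,4096,4096] 0 (.lc 2 5 (.lc 0 6 (.lc 0 13 (.lc 2 5 (.lc 3 5 .stop))))))
 .stop))))))
 (.lc 0 0 (.lc 0 12 (.lc 0 0 (.lc 2 5 (.lc 0 12 (.far [257,16,0,256,16,257,0,4096] 0 (.far [257,16,0,256,16,257,0,4096] 0 (.lc 0 12 (.lc 0 0 (.lc 0 13 .stop)))))))))))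
 (.lc 2 7 (.lc 1 5 (.lc 2 7 (.lc 3 1 (.lc 3 1 (.lc 3 1 (.node [152,171,176,171] 0 9 .stop
 (.conf [152,185] (.conf [152,185] (.lc 2 7 (.lc 2 7 (.lc 2 7 (.lc 2 7 (.lc 3 1 (.lc 3 7 (.lc 3 7 (.lc 3 7 (.lc 3 7 (.lc 4 1 (.lc 3 7 (.lc 3 7 (.lc 3 7 (.lc 3 7 (.lc 4 7 .stop))))))))))))))))))))))))))))
 (.lc 3 0 (.node [22,98,169] 6 10 .stop
 (.node [24,134,169] 8 10 .stop
 (.node [27,169] 10 9 (.node [152] 9 8 (.node [134] 1 11 (.node [184] 11 8 (.node [134] 8 6 (.far [257,16,0,16,0,0,0,0,4096,4096] 0 (.lc 1 0 (.far [257,16,0,16,0,0,0,0,4096,4096] 0 .stop)))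
 (.lc 2 5 (.far [4112,1,256,16,256,256,256] 0 (.far [4112,1,256,16,256,256,256] 0 (.lc 2 5 (.lc 3 5 .stop))))))
 (.lc 2 1 (.node [184,203] 11 8 (.far [257,16,4096,1,4096,4096,4096] 0 (.lc 2 5 (.lc 0 6 (.lc 0 13 (.lc 2 5 (.lc 3 5 .stop))))))
 (.lc 2 5 .stop))))
 (.lc 0 0 (.lc 0 12 (.lc 0 0 (.lc 2 5 (.lc 0 12 (.far [257,16,0,256,16,257,0,4096] 0 (.far [257,16,0,256,16,257,0,4096] 0 (.lc 0 12 (.lc 0 0 (.lc 0 13 .stop)))))))))))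
 (.lc 2 7 (.far [4112,257,16,0,1,4112,1,4112,256,256] 0 (.conf [152,201] (.lc 2 7 (.lc 3 7 (.lc 3 7 .stop)))))))
 (.lc 3 0 (.far [16,257,256,16,257,16,257,4096,4096] 0 (.lc 3 0 (.conf [27,186] (.lc 1 10 (.lc 4 0 (.conf [28,203] .stop))))))))))))
 (.lc 2 8 (.lc 2 8 (.lc 2 8 (.lc 2 8 (.lc 0 0 (.lc 0 11 (.lc 2 8 (.lc 2 8 (.lc 3 8 (.lc 3 8 (.lc 3 8 (.lc 3 8 .stop)))))))))))))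
 (.conf [116,152] (.lc 3 1 (.conf [116,152] (.lc 0 0 (.lc 3 1 (.lc 0 0 (.node [74,121,160,152] 0 7 .stop
 (.conf [121,167] (.lc 3 1 (.conf [121,167] (.node [116,152,134,64] 4 0 (.lc 0 0 .stop)
 (.lc 3 1 (.node [98,116,152,70] 4 6 .stop
 (.node [116,152,134,74] 9 8 (.node [134] 4 10 (.far [257,257,256,256,257,0,257,0,4096] 0 (.lc 0 0 (.lc 2 8 (.lc 2 8 (.lc 0 0 (.conf [27,186] (.lc 0 0 (.lc 2 8 (.lc 0 0 (.lc 3 8 .stop))))))))))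
 (.lc 2 6 (.lc 2 6 (.lc 2 6 (.lc 0 0 (.lc 2 5 (.lc 0 11 (.lc 2 6 (.lc 2 6 (.lc 3 6 (.lc 3 6 (.lc 3 6 (.lc 3 6 .stop)))))))))))))
 (.lc 3 1 (.lc 0 0 (.lc 3 1 (.lc 3 1 (.lc 0 0 (.conf [116,160,74] (.node [116,152,169,134,64] 4 0 (.lc 0 0 .stop)
 (.lc 4 1 (.conf [116,186,75] (.lc 0 0 (.lc 4 1 (.lc 0 0 (.lc 4 1 (.lc 0 0 (.lc 4 1 (.lc 4 1 (.lc 0 0 (.lc 4 1 (.lc 0 0 (.lc 5 1 .stop))))))))))))))))))))))))))))))))))))))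
 (.conf [113,134,83] (.conf [121,134,83] (.conf [112,134,83] (.conf [122,134,83] .stop))))))))))))
 (.conf [81,98] (.node [83,98,112,71] 0 6 (.lc 1 2 (.lc 2 2 .stop))
 (.conf [88,98] (.node [83,98,113,71] 1 4 (.lc 1 7 (.lc 2 7 .stop))
 (.conf [88,98] (.conf [80,98] (.node [83,98,120,71] 4 7 (.lc 2 0 (.lc 1 8 (.lc 2 9 (.lc 3 0 (.conf [24,134] (.lc 3 9 (.lc 0 0 (.lc 3 1 (.lc 0 0 (.lc 3 9 (.lc 3 0 (.lc 2 8 (.lc 3 10 (.lc 3 0 (.lc 1 6 (.lc 3 9 (.lc 3 1 (.lc 0 0 (.lc 3 1 (.lc 0 0 (.lc 4 9 (.lc 4 0 (.lc 2 6 (.lc 4 10 (.lc 0 0 (.lc 4 1 (.lc 0 0 (.lc 4 1 (.lc 0 0 (.lc 4 1 (.lc 0 0 (.lc 4 1 (.lc 0 0 (.lc 5 1 .stop))))))))))))))))))))))))))))))))))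
 (.conf [89,98] (.lc 3 3 (.lc 3 3 (.node [81,71] 5 1 .stop
 (.node [83,98,112,71] 7 0 (.lc 2 1 (.lc 1 0 (.lc 3 8 (.lc 1 0 .stop))))
 (.node [88,128,71,88] 5 8 (.node [128] 8 0 (.node [129] 7 8 (.node [113] 1 4 (.lc 1 1 .stop)
 (.lc 0 1 (.lc 3 9 .stop)))
 (.node [128,113] 1 4 (.lc 1 1 .stop)
 (.conf [137,145] (.lc 0 1 (.lc 0 9 .stop)))))
 (.lc 0 1 (.lc 0 9 (.lc 0 9 (.lc 2 0 (.lc 0 10 .stop))))))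
 (.node [80,134,71] 5 0 (.node [113,80] 1 4 .stop
 .stop)
 (.node [83,98,134,71,98] 4 7 (.lc 2 0 (.lc 1 8 (.lc 2 9 (.lc 3 0 (.lc 1 6 (.lc 3 9 (.lc 0 0 (.lc 3 1 (.lc 0 0 (.lc 3 9 (.lc 3 0 (.lc 2 8 (.lc 3 10 (.lc 3 0 (.conf [24,134] (.lc 3 9 (.lc 3 1 (.lc 0 0 (.lc 3 1 (.lc 0 0 (.lc 4 9 (.lc 4 0 (.conf [25,152] (.lc 4 10 (.lc 0 0 (.lc 4 1 (.lc 0 0 (.lc 4 1 (.lc 0 0 (.lc 4 1 (.lc 0 0 (.lc 4 1 (.lc 0 0 (.lc 5 1 .stop))))))))))))))))))))))))))))))))))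
 (.node [89,152,71,89,134] 5 9 (.node [152] 9 8 (.node [134,144] 9 0 (.node [112] 0 8 (.lc 0 8 (.node [134] 7 8 .stop
 (.lc 0 0 (.lc 2 0 .stop))))
 (.lc 0 1 (.lc 0 1 (.lc 0 10 (.node [113] 1 4 (.lc 1 1 .stop)
 (.lc 0 10 .stop))))))
 (.node [134,145] 9 1 .stop
 (.node [134,154] 7 9 (.node [122] 8 6 (.node [98,128] 8 0 (.node [160] 0 6 (.far [257,4112,4096,1,4096,4096,0,1,0,257,257] 4096 (.node [98] 10 6 .stop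
 .stop))
 (.lc 0 1 (.lc 0 1 (.lc 0 11 (.far [257,257,16,256,16,4096] 4097 (.lc 0 11 .stop))))))
 (.node [98,129] 8 1 .stop
 (.lc 0 0 (.node [98,139] 10 8 (.node [171] 11 6 (.node [98,176] 0 6 (.far [257,1,1,4096,1,4096,4096,0,1,0,257,257] 4096 .stop)
 (.node [98,177] 1 6 .stop
 (.lc 0 0 (.lc 2 6 (.node [98,188] 6 2 (.lc 1 0 (.lc 2 0 (.far [4112,1,1,4096,1,4096,4096,0,1,16,256] 0 (.lc 2 0 (.lc 2 0 (.lc 3 0 .stop))))))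
 (.lc 2 2 (.lc 1 0 (.lc 3 1 (.lc 3 12 (.lc 3 4 (.lc 1 0 (.lc 3 0 (.lc 3 1 (.lc 3 13 (.node [98,177] 1 4 (.far [514,8224,16,272,0,16,0,16,0,4112,16,16] 257 (.lc 3 1 .stop))
 (.node [98,188,192] 0 6 (.far [16,16,16,256,16,256,256,0,16,1,4096] 0 .stop)
 (.lc 1 0 (.node [98,176,198,98] 6 2 (.lc 1 0 (.lc 2 0 .stop))
 (.node [98,198,220,98] 6 2 (.lc 1 0 (.lc 2 0 (.lc 0 0 (.lc 2 0 (.lc 2 0 (.lc 3 0 .stop))))))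
 (.lc 1 0 (.lc 2 2 (.lc 1 0 (.lc 3 1 (.lc 3 12 (.lc 3 12 (.lc 3 0 (.lc 1 0 (.lc 3 0 (.lc 3 13 (.lc 2 0 (.lc 4 12 (.lc 4 13 (.lc 2 0 (.lc 4 1 (.lc 4 13 (.lc 4 0 (.lc 4 14 (.lc 3 2 (.lc 2 0 (.lc 2 0 (.lc 2 0 (.lc 3 0 .stop))))))))))))))))))))))))))))))))))))))))))
 (.lc 3 0 (.lc 3 1 (.lc 3 12 (.lc 1 6 (.lc 1 6 (.lc 3 0 (.lc 3 12 (.lc 4 1 (.lc 4 12 (.lc 4 0 (.lc 4 13 .stop))))))))))))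
 (.node [98,129] 8 1 .stop
 (.conf [139,176] (.conf [139,177] (.node [98,128,182] 8 0 (.lc 0 1 .stop)
 (.conf [140,203] (.lc 3 6 (.lc 3 6 (.node [98,129] 8 1 .stop
 (.conf [139,176] (.lc 1 0 (.conf [98,182] (.conf [98,182] (.node [98,129] 6 2 (.far [1,0,0,0,0,0,0,1,1,257] 4096 .stop)
 (.node [98,139] 0 6 (.far [256,0,0,0,0,0,0,1,1,257] 4096 .stop)
 (.conf [22,98] (.node [98,128,182] 8 0 (.far [257,257,16,256,16,4096] 0 (.lc 0 1 (.lc 0 1 (.lc 0 12 (.far [257,257,16,256,16,4096] 4097 (.lc 0 12 .stop))))))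
 (.node [98,129,182] 8 1 .stop
 (.node [98,140,182] 11 6 (.lc 0 0 (.lc 1 0 (.lc 1 0 (.lc 3 0 (.lc 1 0 (.lc 2 0 .stop))))))
 (.lc 3 6 (.lc 3 6 (.lc 3 6 (.lc 3 6 (.lc 3 6 (.lc 3 6 (.lc 1 0 (.lc 3 6 (.conf [139,177] (.conf [140,203] (.node [98,129,182] 8 1 .stop
 (.conf [140,192] (.node [98,128,182,203] 8 0 (.lc 0 1 .stop)
 (.conf [141,220] (.lc 4 6 (.lc 4 6 (.lc 2 0 (.lc 4 6 (.lc 4 6 (.lc 4 6 (.lc 4 6 (.lc 4 6 (.lc 4 6 (.lc 4 6 (.lc 4 6 (.lc 4 6 (.lc 4 6 (.lc 4 6 (.lc 4 6 (.lc 4 6 (.lc 4 6 (.lc 4 6 (.lc 4 6 (.lc 4 6 (.lc 5 6 (.lc 5 6 (.lc 5 6 (.lc 5 6 (.lc 5 6 (.lc 5 6 .stop))))))))))))))))))))))))))))))))))))))))))))))))))))))))))))))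
 (.lc 3 0 (.lc 3 1 (.lc 3 11 (.lc 1 8 (.lc 1 8 (.lc 3 0 (.lc 3 11 (.lc 4 1 (.lc 4 11 (.lc 4 0 (.lc 4 12 .stop))))))))))))
 (.conf [134,145] (.conf [134,154] (.conf [134,154] (.lc 1 8 (.conf [134,144] (.conf [134,155] (.conf [134,149] (.conf [134,149] (.node [134,145] 9 1 .stop
 (.conf [154,160] (.conf [134,168] (.conf [134,168] (.conf [134,145] (.conf [134,154] (.conf [24,134] (.conf [134,144] (.conf [134,145] (.conf [134,155] (.node [134,149,98,112] 0 8 (.node [98] 7 0 (.far [1,0,1,4096,0,1,0,257,257] 16 (.far [1,4112,257] 0 (.lc 1 0 (.lc 1 0 (.node [122,161,122] 4 7 (.node [161] 1 4 .stop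
 (.lc 1 1 .stop))
 (.lc 1 0 .stop))))))
 (.lc 1 2 (.lc 0 0 .stop)))
 (.node [134,149,98,113] 1 8 (.lc 1 2 .stop)
 (.lc 0 4 (.node [134,149,98,122] 8 6 (.node [98] 7 10 (.node [112,166] 7 0 (.far [257,257,0,1,4096,0,4096] 0 (.lc 1 0 (.lc 1 0 (.lc 1 0 .stop))))
 (.node [113,166] 7 1 (.lc 0 1 .stop)
 (.lc 2 4 (.lc 1 6 (.node [123,166] 4 7 (.far [16,257,0,1,4096,0,4096] 0 (.lc 3 1 (.far [16,257,0,1,4096,0,4096] 0 (.lc 3 1 (.far [16,257,0,1,4096,0,4096] 0 (.lc 3 1 (.lc 0 0 (.lc 4 1 .stop))))))))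
 (.lc 2 6 (.lc 2 6 (.lc 0 1 (.lc 2 6 (.lc 1 10 (.lc 2 6 (.lc 2 6 (.lc 3 4 (.lc 0 1 (.lc 3 4 (.node [113,166] 7 1 (.lc 0 1 .stop)
 (.node [123,166,176,123] 4 7 (.node [176] 11 0 (.node [177] 4 11 (.node [] 10 6 (.lc 0 0 (.node [98,172] 6 2 (.lc 1 0 (.lc 2 0 .stop))
 (.lc 1 0 (.lc 1 0 (.node [98,198,220,98,173] 6 2 (.lc 1 0 (.lc 2 0 .stop))
 (.lc 1 0 (.lc 2 2 .stop)))))))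
 .stop)
 (.lc 1 0 (.conf [188,193] .stop)))
 (.lc 3 1 (.lc 3 1 (.lc 1 0 (.lc 3 1 (.lc 4 1 .stop))))))
 (.lc 0 1 (.node [112,166,186] 7 0 (.lc 1 0 .stop)
 (.node [166,186,203,124] 4 7 (.node [203] 4 12 (.node [203,186] 12 11 (.node [186] 1 11 (.node [186] 11 10 (.node [166] 10 6 (.node [98] 6 2 (.far [4096,4096,4096,1,4096,1,257,0,0,0,0,0,257,0,257,257] 4096 .stop)
 (.lc 2 2 (.lc 1 0 (.lc 1 0 .stop))))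
 (.lc 2 6 (.conf [166,218] (.lc 1 0 .stop))))
 (.lc 2 1 (.conf [186,219] .stop)))
 (.lc 2 10 (.far [4112,4096,1,4112,4112,4112,0,16,257,4112,256,256] 4097 (.lc 2 10 (.lc 2 10 (.lc 3 10 .stop))))))
 (.conf [186,196] (.lc 0 0 (.conf [29,220] (.far [257,256,257,257,257,0,1,0,257,0,4096] 0 (.lc 0 0 (.conf [29,219] .stop)))))))
 (.lc 3 1 (.lc 1 11 (.lc 3 1 (.lc 1 11 (.lc 3 1 (.lc 0 0 (.lc 4 1 .stop))))))))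
 (.lc 2 6 (.lc 3 4 (.lc 2 6 (.lc 0 1 (.lc 2 6 (.lc 2 6 (.lc 3 4 (.lc 2 6 (.lc 3 4 (.lc 0 1 (.lc 3 4 (.lc 0 1 (.lc 1 0 (.lc 3 6 (.lc 3 6 (.lc 3 6 (.lc 3 6 (.lc 0 1 (.lc 3 6 (.lc 3 6 (.lc 1 0 (.lc 0 1 (.lc 1 0 (.lc 0 1 (.lc 1 0 (.lc 0 1 (.lc 1 0 (.lc 4 4 (.lc 4 4 (.lc 0 1 (.lc 4 4 (.lc 1 0 (.lc 0 1 .stop)))))))))))))))))))))))))))))))))))))))))))))))))))))
 (.lc 2 2 (.lc 2 2 (.lc 2 2 (.lc 0 0 (.lc 0 11 (.lc 2 2 (.lc 2 2 (.lc 3 2 (.lc 3 2 (.lc 3 2 (.lc 3 2 .stop))))))))))))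
 (.lc 0 0 (.lc 0 1 (.lc 0 10 (.conf [134,154] (.conf [134,155] (.conf [134,145] (.conf [134,155] (.conf [134,144] (.conf [134,156] (.lc 0 1 (.lc 0 10 (.lc 0 0 (.lc 0 11 (.lc 0 1 (.lc 0 10 (.lc 0 10 (.lc 2 8 (.lc 0 0 (.lc 0 11 (.lc 0 1 (.lc 0 10 (.lc 0 0 (.lc 0 1 (.lc 0 11 (.node [134,149,98,113] 8 6 (.far [257,256,16,4096] 4097 (.lc 1 0 (.lc 2 2 .stop)))
 (.conf [149,160,122] (.lc 1 1 (.node [134,149,168,98,112] 7 0 (.node [113] 8 6 (.conf [98,166] (.lc 2 2 (.lc 0 11 (.lc 2 2 (.lc 3 2 .stop)))))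
 (.lc 1 0 (.lc 1 0 (.node [123,177,123] 4 7 (.node [177] 1 4 .stop
 (.lc 1 1 .stop))
 (.lc 1 0 .stop)))))
 (.conf [149,186,123] (.lc 0 10 (.lc 0 11 (.lc 0 1 (.lc 0 11 (.lc 0 0 (.lc 0 12 .stop))))))))))))))))))))))))))))))))))))))))))))))))))))))))))))
 (.lc 0 0 (.lc 0 1 (.lc 0 10 (.lc 0 0 (.lc 0 10 (.lc 2 8 (.lc 2 8 (.lc 0 1 (.lc 0 10 (.lc 0 0 (.lc 0 11 .stop))))))))))))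
 (.conf [81,98] (.far [257,16,257,4096] 0 (.conf [88,98] (.conf [80,98] (.conf [81,98] (.far [257,16,257,4096] 0 (.conf [89,98] (.lc 3 3 (.lc 3 3 (.lc 3 3 (.lc 3 3 (.lc 3 3 (.lc 3 3 (.conf [83,113,71,20] (.conf [88,98] (.node [83,98,120,128,71] 0 6 .stop
 (.conf [89,98] (.conf [81,98] (.node [83,98,112,134,71] 7 0 (.lc 2 1 (.lc 1 0 (.lc 3 9 (.lc 1 0 .stop))))
 (.conf [89,98] (.conf [80,98] (.node [83,98,121,134,71] 4 7 (.lc 2 0 (.lc 1 9 (.lc 2 10 (.lc 3 0 (.lc 1 8 (.lc 3 10 (.lc 0 0 (.lc 3 1 (.lc 0 0 (.lc 3 10 (.lc 3 0 (.lc 2 9 (.lc 3 11 (.lc 3 0 (.conf [25,152] (.lc 3 10 (.lc 3 1 (.lc 0 0 (.lc 3 1 (.lc 0 0 (.lc 4 10 (.lc 4 0 (.conf [26,169] (.lc 4 11 (.lc 0 0 (.lc 4 1 (.lc 0 0 (.lc 4 1 (.lc 0 0 (.lc 4 1 (.lc 0 0 (.lc 4 1 (.lc 0 0 (.lc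 5 1 .stop))))))))))))))))))))))))))))))))))
 (.conf [90,98] (.lc 4 3 (.lc 4 3 (.lc 4 3 (.lc 4 3 (.lc 4 3 (.lc 4 3 (.lc 4 3 (.lc 4 3 (.lc 4 3 (.lc 4 3 (.lc 4 3 (.lc 4 3 (.lc 4 3 (.lc 4 3 (.lc 4 3 (.lc 4 3 (.lc 4 3 (.lc 4 3 (.lc 5 3 (.lc 5 3 (.lc 5 3 (.lc 5 3 (.lc 5 3 (.lc 5 3 .stop)))))))))))))))))))))))))))))))))))))))))))))))))))))))))))))))))))
 (.lc 0 0 (.lc 2 6 (.lc 2 6 (.lc 3 1 (.lc 2 6 (.lc 3 7 (.lc 3 0 (.lc 3 7 (.lc 3 0 (.lc 3 8 (.lc 0 0 (.node [71,86,112] 0 5 .stop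
 (.lc 2 3 (.lc 3 1 (.lc 2 3 (.node [64,86,117] 4 0 (.lc 0 0 .stop)
 (.lc 3 1 (.node [86,117,135] 7 5 (.node [86,112,72] 0 5 (.far [16,16,16,257,4096] 0 (.lc 1 2 .stop))
 (.node [86,113,72] 1 5 (.lc 1 2 .stop)
 (.far [16,16,257,4096] 0 (.node [86,121,72] 5 6 (.far [257,16,16,257,4096] 0 (.lc 2 2 (.lc 2 2 (.lc 2 2 (.lc 0 0 (.lc 0 10 (.lc 2 2 (.lc 2 2 (.lc 3 2 (.lc 3 2 (.lc 3 2 (.lc 3 2 .stop))))))))))))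
 (.lc 2 3 (.lc 2 3 (.lc 3 1 (.lc 3 9 (.lc 3 0 (.lc 3 1 (.lc 3 9 (.lc 3 0 (.lc 3 1 (.lc 3 10 (.node [86,113,72] 1 4 .stop
 (.node [86,121,144,72,121,135] 0 5 .stop
 (.far [16,16,257,4096] 0 (.far [16,16,257,4096] 0 (.conf [86,149] (.conf [86,149] (.lc 2 3 (.lc 2 3 (.lc 2 3 (.lc 2 3 (.lc 2 3 (.lc 2 3 (.lc 3 1 (.lc 3 9 (.lc 3 9 (.lc 3 0 (.lc 3 9 (.lc 3 0 (.lc 3 10 (.lc 3 3 (.lc 3 3 (.lc 3 3 (.lc 3 3 (.lc 4 9 (.lc 4 10 (.lc 4 1 (.lc 4 9 (.lc 4 0 (.lc 4 10 (.lc 4 1 (.lc 4 10 (.lc 4 0 (.lc 4 11 (.lc 3 3 (.lc 3 3 (.lc 3 3 (.lc 3 3 (.lc 3 3 (.lc 3 3 (.lc 3 3 (.lc 3 3 (.lc 3 3 (.lc 3 3 (.lc 3 3 (.lc 3 3 (.lc 3 3 (.lc 3 3 (.lc 4 3 (.lc 4 3 (.lc 4 3 (.lc 4 3 (.lc 4 3 (.lc 4 3 .stop)))))))))))))))))))))))))))))))))))))))))))))))))))))))))))))))))))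
 (.lc 0 0 (.lc 2 6 (.lc 2 6 (.lc 3 1 (.lc 2 6 (.lc 3 7 (.lc 3 0 (.lc 3 8 (.lc 3 7 (.lc 3 0 (.lc 3 7 (.lc 3 0 (.lc 3 8 (.lc 3 6 (.lc 0 0 (.lc 3 6 (.lc 3 6 (.lc 4 1 (.lc 3 6 (.lc 4 8 (.lc 4 7 (.lc 4 0 (.lc 4 8 (.lc 4 8 (.lc 4 0 (.lc 4 9 (.lc 4 8 (.lc 4 8 (.lc 4 0 (.lc 4 9 (.lc 4 8 (.lc 4 8 (.lc 4 0 (.lc 4 9 (.lc 4 8 (.lc 4 8 (.lc 4 0 (.lc 4 9 (.lc 5 9 (.lc 5 9 (.lc 5 9 (.lc 5 0 (.lc 5 10 .stop)))))))))))))))))))))))))))))))))))))))))))))))))))))))))))))))))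
 (.far [257,1,257] 4096 (.node [50,86,98,69] 4 5 (.lc 1 6 (.lc 2 1 (.lc 1 6 (.node [64,98] 4 0 (.lc 0 0 .stop)
 (.lc 3 1 (.node [71,118,98] 4 7 (.lc 2 0 (.conf [23,118] (.lc 2 8 (.lc 0 0 (.lc 3 8 (.lc 3 0 (.lc 2 6 (.lc 3 9 (.lc 0 0 (.lc 3 1 (.lc 0 0 (.lc 3 8 (.lc 3 0 (.conf [24,135] (.lc 3 9 (.lc 0 0 (.lc 3 8 (.lc 3 0 (.lc 2 6 (.lc 3 9 (.lc 0 0 (.lc 3 1 (.lc 0 0 (.lc 3 1 (.lc 4 9 (.lc 0 0 (.lc 4 9 (.lc 4 0 (.lc 3 6 (.lc 4 10 (.lc 0 0 (.lc 4 1 (.lc 0 0 (.lc 4 1 (.lc 0 0 (.lc 4 1 (.lc 0 0 (.lc 4 1 (.lc 0 0 (.lc 5 1 .stop))))))))))))))))))))))))))))))))))))))))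
 (.lc 3 7 (.lc 3 0 (.lc 3 8 (.lc 0 0 (.lc 2 6 (.lc 2 6 (.lc 3 1 (.lc 2 6 (.lc 1 2 (.lc 3 1 (.lc 1 2 (.lc 3 0 (.lc 3 7 (.lc 3 7 (.lc 3 0 (.lc 3 8 (.lc 0 0 (.lc 2 2 (.lc 2 2 (.lc 4 1 (.lc 2 2 (.lc 4 8 (.lc 4 8 (.lc 4 0 (.lc 4 9 (.lc 4 7 (.lc 4 0 (.lc 4 8 (.lc 4 7 (.lc 4 0 (.lc 4 8 (.lc 4 7 (.lc 4 0 (.lc 4 8 (.lc 5 8 (.lc 5 8 (.lc 5 0 (.lc 5 9 .stop))))))))))))))))))))))))))))))))))))))))))))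
 (.conf [50,86] (.conf [50,80] (.conf [50,87] (.node [50,86,96,86,69] 5 6 (.node [81,96] 5 1 (.lc 1 6 .stop)
 (.lc 2 3 (.node [87,96] 4 5 (.lc 2 1 (.node [71] 4 7 (.conf [23,118] (.lc 2 6 (.lc 2 8 (.lc 0 0 (.lc 2 6 (.lc 3 9 (.lc 3 1 (.conf [24,135] (.lc 3 9 (.lc 2 6 (.lc 3 9 (.lc 0 0 (.lc 3 1 (.lc 0 0 (.lc 3 1 (.lc 3 1 (.lc 3 6 (.lc 4 10 (.lc 1 1 (.lc 4 1 (.lc 4 1 (.lc 0 0 (.lc 4 1 (.lc 4 1 (.lc 5 1 .stop)))))))))))))))))))))))))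
 (.lc 1 7 (.lc 3 1 (.lc 2 3 (.lc 3 8 (.lc 3 9 (.lc 3 1 (.node [72,118] 7 6 (.lc 1 0 (.lc 1 0 (.lc 3 1 (.lc 3 9 (.lc 2 0 (.lc 2 0 (.lc 1 1 (.lc 0 0 (.lc 2 0 (.lc 2 0 (.lc 2 1 (.lc 3 0 (.conf [20,129] (.conf [1,144] (.lc 2 1 (.lc 2 1 (.lc 3 1 .stop)))))))))))))))))
 (.lc 3 1 (.lc 2 7 (.lc 3 1 (.lc 2 3 (.lc 3 8 (.lc 3 8 (.lc 3 9 (.lc 4 1 (.lc 3 3 (.lc 4 9 (.lc 4 10 (.lc 4 9 (.lc 4 9 (.lc 4 9 (.lc 5 10 .stop))))))))))))))))))))))))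
 (.lc 2 0 (.lc 0 7 (.lc 2 0 (.lc 3 1 (.lc 3 8 (.lc 0 7 (.node [88,96,118] 5 8 (.lc 2 1 (.node [72] 4 8 (.lc 1 7 (.lc 2 9 (.lc 1 6 (.lc 3 9 (.lc 3 1 (.lc 2 7 (.lc 3 10 (.conf [23,118] (.lc 3 9 (.lc 3 1 (.lc 0 0 (.lc 3 1 (.conf [25,151] (.lc 4 10 (.lc 4 1 (.lc 4 1 (.lc 0 0 (.lc 4 1 (.lc 4 1 (.lc 5 1 .stop))))))))))))))))))))
 (.lc 2 9 (.lc 3 9 (.lc 0 9 (.lc 3 10 (.lc 0 1 (.lc 3 3 (.lc 0 9 (.lc 3 10 (.lc 0 1 (.lc 3 1 (.lc 2 7 (.lc 3 10 (.lc 0 1 (.lc 3 3 (.lc 0 9 (.lc 0 10 (.lc 4 11 (.lc 0 10 (.lc 0 10 (.lc 0 10 (.lc 0 1 (.lc 4 3 (.lc 0 11 .stop)))))))))))))))))))))))))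
 (.lc 0 1 (.lc 2 0 (.lc 3 3 (.lc 2 0 (.lc 3 7 (.lc 3 1 (.lc 3 8 (.lc 3 7 (.lc 3 8 (.lc 0 8 (.lc 3 0 (.lc 4 9 (.lc 4 8 (.lc 4 9 (.lc 4 8 (.lc 4 9 (.lc 4 1 (.lc 4 9 (.lc 5 10 .stop)))))))))))))))))))))))))))))
 (.node [50,87,118,87,98,69] 5 7 (.node [80,118] 5 0 (.lc 2 1 (.conf [7,64] (.lc 2 8 (.lc 2 7 (.lc 1 0 (.lc 3 0 (.lc 3 8 (.lc 0 8 (.lc 3 9 (.lc 2 7 (.lc 2 7 (.lc 2 7 (.lc 0 8 (.lc 3 7 (.lc 0 9 .stop)))))))))))))))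
 (.node [81,118] 5 1 (.lc 1 7 .stop)
 (.lc 2 3 (.node [88,118] 7 6 (.lc 1 2 (.lc 1 2 (.lc 0 5 (.lc 1 2 (.lc 3 1 (.lc 3 9 (.lc 0 5 (.lc 3 9 (.lc 1 5 (.lc 1 5 (.lc 3 0 (.lc 3 10 (.lc 2 2 (.lc 2 2 (.lc 2 2 (.lc 2 2 (.lc 0 5 (.lc 2 2 (.lc 2 2 (.lc 3 1 (.lc 0 5 (.lc 3 9 (.lc 3 4 (.lc 3 0 (.lc 3 1 (.lc 0 5 (.lc 3 10 (.node [98,128] 0 6 (.far [1,4096,1,256] 0 .stop)
 (.node [98,129] 1 6 .stop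
 (.lc 1 5 (.node [98,137] 6 2 (.lc 1 0 (.lc 2 0 (.far [4112,4096,1,256] 0 (.lc 2 0 (.lc 2 0 (.lc 3 0 .stop))))))
 (.lc 2 2 (.lc 2 2 (.lc 1 5 (.lc 2 2 (.lc 1 0 (.lc 4 9 (.lc 4 10 (.lc 1 5 (.lc 4 1 (.lc 4 10 (.lc 0 5 (.lc 4 0 (.lc 4 11 (.lc 3 2 (.lc 3 2 (.lc 1 5 (.lc 3 2 (.lc 3 2 (.conf [20,129] (.node [98,137,144] 0 6 (.far [1,4096,1,256] 0 .stop)
 (.lc 1 5 (.node [98,137,145] 1 6 .stop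
 (.lc 2 5 (.lc 2 5 (.node [98,128,150] 8 0 (.lc 2 1 (.lc 0 1 (.lc 1 0 (.lc 3 10 .stop))))
 (.node [98,138,169] 6 2 (.lc 1 0 (.lc 2 0 (.far [4112,4096,1,256] 0 (.lc 2 0 (.lc 2 0 (.lc 3 0 .stop))))))
 (.far [1,1,257,1,1] 16 (.lc 1 5 (.node [98,137,144] 0 6 (.node [] 5 8 (.lc 2 1 (.lc 1 9 (.lc 2 10 (.lc 0 9 (.lc 3 10 (.lc 0 1 (.lc 3 3 (.lc 0 10 (.lc 3 11 (.lc 3 1 (.lc 1 0 (.lc 3 10 (.lc 3 3 (.lc 0 10 (.lc 0 10 (.lc 4 11 (.lc 0 11 (.lc 0 10 (.lc 0 10 (.lc 0 1 (.lc 4 3 (.lc 0 11 .stop))))))))))))))))))))))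
 .stop)
 (.conf [22,98] (.node [98,128,150] 8 0 (.lc 2 1 (.lc 0 5 (.lc 2 10 (.lc 2 9 (.lc 2 9 (.lc 0 1 (.lc 1 0 (.lc 0 10 (.lc 1 0 (.lc 3 10 (.lc 3 11 (.lc 2 9 (.lc 2 9 (.lc 2 9 (.lc 0 3 (.lc 3 9 (.lc 3 9 (.lc 1 10 (.lc 3 9 (.lc 3 9 .stop))))))))))))))))))))
 (.node [98,129,150] 8 1 (.lc 1 9 (.lc 2 9 (.lc 2 9 .stop)))
 (.lc 1 5 (.node [98,138,150] 9 6 (.lc 0 0 (.lc 1 0 (.lc 1 0 (.lc 3 0 (.lc 1 0 (.lc 2 0 .stop))))))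
 (.conf [20,129] (.node [98,137,144] 0 6 (.node [] 5 8 (.lc 2 1 (.node [72] 4 8 (.lc 1 9 (.lc 2 9 (.lc 2 10 (.lc 2 4 (.lc 3 10 (.lc 3 1 (.lc 3 1 (.lc 1 0 (.lc 3 10 (.lc 2 9 (.lc 3 11 (.lc 2 4 (.lc 3 10 (.lc 3 1 (.lc 3 1 (.lc 3 1 (.lc 3 4 (.lc 4 11 (.lc 4 1 (.lc 4 1 (.lc 4 1 (.lc 4 1 (.lc 4 1 (.lc 5 1 .stop))))))))))))))))))))))))
 (.lc 2 9 (.lc 2 10 (.lc 3 10 (.lc 0 10 (.lc 3 11 (.lc 0 1 (.lc 3 3 (.lc 3 3 (.lc 0 9 (.lc 3 10 (.lc 0 10 (.lc 3 11 (.lc 0 1 (.lc 3 1 (.lc 2 9 (.lc 3 11 (.lc 0 1 (.lc 3 3 (.lc 0 9 (.lc 0 10 (.lc 0 11 (.lc 4 12 (.lc 0 10 (.lc 0 11 (.lc 0 11 (.lc 0 11 (.lc 0 1 (.lc 4 3 (.lc 0 12 .stop)))))))))))))))))))))))))))))))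
 .stop)
 (.lc 1 5 (.node [98,128,150] 9 6 (.lc 0 0 (.lc 1 0 .stop))
 (.node [98,138,150] 9 6 (.lc 0 0 (.lc 1 0 (.lc 1 0 (.lc 3 0 (.lc 1 0 (.lc 2 0 .stop))))))
 (.lc 2 0 (.conf [20,145] (.node [98,138,169,144] 0 6 (.node [] 5 8 (.lc 2 1 (.lc 1 10 (.lc 2 11 (.lc 0 10 (.lc 3 11 (.lc 0 1 (.lc 3 3 (.lc 0 11 (.lc 3 12 (.lc 3 1 (.node [74] 4 10 (.lc 2 9 (.lc 3 1 (.lc 1 0 (.lc 3 11 (.lc 3 1 (.lc 4 1 .stop))))))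
 (.lc 3 11 (.lc 3 3 (.lc 0 11 (.lc 0 11 (.lc 4 12 (.lc 0 12 (.lc 0 11 (.lc 0 11 (.lc 0 1 (.lc 4 3 (.lc 0 12 .stop))))))))))))))))))))))
 .stop)
 (.lc 2 5 (.conf [20,129] (.node [98,138,150,160] 9 6 (.lc 0 0 (.lc 1 0 .stop))
 (.lc 1 5 (.node [98,128,150,169] 8 0 (.lc 2 1 (.lc 0 1 (.lc 1 0 (.lc 3 11 .stop))))
 (.node [98,139,150,169] 9 6 (.lc 0 0 (.lc 1 0 (.lc 1 0 (.lc 3 0 (.lc 1 0 (.lc 2 0 .stop))))))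
 .stop)))))))))))))))))))))))))))))))))))))))))))))))))))))))))))))))))))))))))))))))
 (.lc 2 6 (.lc 0 0 (.lc 2 6 (.lc 2 6 (.lc 2 6 (.lc 0 8 (.lc 2 6 (.lc 3 1 (.lc 3 8 (.lc 3 0 (.lc 3 1 (.lc 3 9 (.conf [20,81] (.lc 0 0 (.node [88,118,128] 0 7 .stop
 (.node [80,118,135] 5 0 (.lc 2 1 (.lc 1 0 (.lc 3 9 .stop)))
 (.lc 0 8 (.node [89,118,135] 5 9 (.lc 2 0 (.lc 2 1 (.node [73] 4 9 (.lc 2 0 (.lc 1 8 (.lc 2 6 (.lc 2 10 (.lc 3 0 (.lc 1 7 (.lc 3 10 (.lc 0 0 (.lc 3 1 (.lc 0 0 (.lc 3 10 (.lc 3 0 (.lc 2 8 (.lc 3 11 (.lc 3 0 (.conf [24,135] (.lc 3 6 (.lc 3 10 (.lc 3 1 (.lc 0 0 (.lc 3 1 (.lc 3 1 (.lc 0 0 (.lc 4 10 (.lc 4 0 (.conf [26,168] (.lc 4 11 (.lc 0 0 (.lc 4 1 (.lc 0 0 (.lc 4 1 (.lc 0 0 (.lc 4 1 (.lc 4 1 (.lc 0 0 (.lc 4 1 (.lc 0 0 (.lc 5 1 .stop))))))))))))))))))))))))))))))))))))))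
 (.lc 2 10 (.lc 3 1 (.lc 0 0 (.lc 3 10 (.lc 3 10 (.lc 3 0 (.lc 0 10 (.lc 3 11 (.lc 3 3 (.lc 0 1 (.lc 3 3 (.lc 3 1 (.lc 0 0 (.lc 3 10 (.lc 3 0 (.lc 0 10 (.lc 3 11 (.lc 3 1 (.lc 2 8 (.lc 3 10 (.lc 0 1 (.lc 3 0 (.lc 3 1 (.lc 2 8 (.lc 3 11 (.lc 3 3 (.lc 0 1 (.lc 3 3 (.lc 0 0 (.lc 0 10 (.lc 4 10 (.lc 0 10 (.lc 4 11 (.lc 4 1 (.lc 0 0 (.lc 4 11 (.lc 4 0 (.lc 0 11 (.lc 4 12 (.lc 0 10 (.lc 0 0 (.lc 0 11 (.lc 0 10 (.lc 0 0 (.lc 0 11 (.lc 0 10 (.lc 0 0 (.lc 0 11 (.lc 1 0 (.lc 4 3 (.lc 4 3 (.lc 0 1 (.lc 4 3 (.lc 0 11 (.lc 0 11 (.lc 0 0 (.lc 0 12 .stop))))))))))))))))))))))))))))))))))))))))))))))))))))))))))))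
 (.lc 2 6 (.lc 3 3 (.lc 2 6 (.lc 0 1 (.lc 2 6 (.lc 2 6 (.lc 3 3 (.lc 2 6 (.lc 3 1 (.lc 3 8 (.lc 3 8 (.lc 3 0 (.lc 3 1 (.lc 3 9 (.lc 3 1 (.lc 3 8 (.lc 3 8 (.lc 3 0 (.lc 3 9 (.lc 3 6 (.lc 0 8 (.lc 3 6 (.lc 3 6 (.lc 0 0 (.lc 3 6 (.lc 3 6 (.lc 0 9 (.lc 3 6 (.lc 4 8 (.lc 4 9 (.lc 4 1 (.lc 4 9 (.lc 4 0 (.lc 4 10 (.lc 4 8 (.lc 4 9 (.lc 4 9 (.lc 4 1 (.lc 4 9 (.lc 4 0 (.lc 4 10 (.lc 4 8 (.lc 4 9 (.lc 4 1 (.lc 4 9 (.lc 4 9 (.lc 4 0 (.lc 4 10 (.lc 4 8 (.lc 4 9 (.lc 4 1 (.lc 4 9 (.lc 4 0 (.lc 4 1 (.lc 4 10 (.lc 5 9 (.lc 5 10 (.lc 5 9 (.lc 5 10 (.lc 5 1 (.lc 5 10 (.lc 5 0 (.lc 5 11 .stop)))))))))))))))))))))))))))))))))))))))))))))))))))))))))))))))))))))))))))))))))))))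
 (.conf [50,87] (.conf [50,87] (.conf [50,80] (.conf [50,88] (.far [1,1,257] 4096 (.node [50,87,118,69,98] 5 7 (.lc 2 0 (.lc 2 1 (.lc 2 8 (.lc 3 1 (.lc 3 8 (.lc 3 8 (.lc 3 0 (.lc 3 9 (.lc 2 6 (.lc 0 1 (.lc 2 6 (.lc 3 1 (.lc 3 8 (.lc 3 0 (.lc 3 9 (.lc 3 1 (.lc 3 8 (.lc 3 0 (.lc 3 1 (.lc 3 9 (.node [64,118] 0 7 (.conf [6,98] (.lc 1 2 .stop))
 (.lc 0 1 (.node [72,118] 7 6 (.node [98] 4 8 (.lc 2 0 (.conf [24,134] (.lc 2 6 (.lc 2 9 (.lc 0 0 (.lc 3 9 (.lc 3 0 (.lc 2 6 (.lc 3 10 (.lc 0 0 (.lc 3 1 (.lc 0 0 (.lc 3 9 (.lc 3 0 (.conf [25,152] (.lc 3 10 (.lc 0 0 (.lc 3 9 (.lc 3 0 (.lc 2 6 (.lc 3 10 (.lc 0 0 (.lc 3 1 (.lc 0 0 (.lc 3 1 (.lc 3 1 (.lc 4 10 (.lc 0 0 (.lc 4 10 (.lc 4 0 (.lc 3 6 (.lc 4 11 (.lc 0 0 (.lc 4 1 (.lc 0 0 (.lc 4 1 (.lc 0 0 (.lc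 4 1 (.lc 0 0 (.lc 4 1 (.lc 0 0 (.lc 5 1 .stop))))))))))))))))))))))))))))))))))))))))))
 (.lc 2 2 (.lc 2 2 (.lc 2 2 (.node [98,128] 0 6 .stop
 (.node [98,137] 4 8 (.lc 2 0 (.lc 1 9 (.lc 2 10 (.lc 3 0 (.lc 1 6 (.lc 3 10 (.lc 0 0 (.lc 3 1 (.lc 0 0 (.lc 3 10 (.lc 3 0 (.lc 2 9 (.lc 3 11 (.lc 3 0 (.conf [25,150] (.lc 3 10 (.lc 3 1 (.lc 0 0 (.lc 3 1 (.lc 0 0 (.lc 4 10 (.lc 4 0 (.conf [26,169] (.lc 4 11 (.lc 0 0 (.lc 4 1 (.lc 0 0 (.lc 4 1 (.lc 0 0 (.lc 4 1 (.lc 0 0 (.lc 4 1 (.lc 0 0 (.lc 5 1 .stop))))))))))))))))))))))))))))))))))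
 (.lc 2 2 (.lc 2 2 (.lc 3 2 (.lc 3 2 (.lc 3 2 (.lc 3 2 .stop))))))))))))
 (.lc 0 0 (.lc 0 8 (.lc 4 8 (.lc 4 9 (.lc 4 1 (.lc 4 9 (.lc 4 0 (.lc 4 10 (.lc 0 8 (.lc 0 0 (.lc 0 9 (.lc 0 8 (.lc 0 0 (.lc 0 9 (.lc 0 8 (.lc 0 0 (.lc 0 9 (.lc 1 0 (.node [72,118,128] 0 7 .stop
 (.node [64,118,135] 4 0 (.lc 0 0 .stop)
 (.lc 0 1 (.node [73,118,135] 8 7 (.node [98] 8 6 (.lc 1 2 (.lc 1 2 (.lc 1 2 (.lc 3 0 (.lc 1 0 (.lc 2 2 (.lc 2 2 (.lc 2 2 (.lc 2 2 (.lc 2 2 (.lc 2 2 (.lc 1 0 (.lc 1 0 (.lc 1 0 (.lc 2 2 (.lc 2 2 (.lc 2 2 (.lc 2 0 (.lc 2 0 (.lc 3 2 (.lc 3 2 (.lc 3 2 (.lc 3 2 (.far [1,257,4096,0,257,257] 4096 (.lc 2 0 (.lc 2 0 (.lc 2 0 (.lc 2 0 (.lc 2 0 (.lc 3 0 (.lc 3 0 .stop)))))))))))))))))))))))))))))))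
 (.lc 1 2 (.lc 1 2 (.lc 1 2 (.lc 1 2 (.lc 1 2 (.lc 3 0 (.lc 3 10 (.lc 2 2 (.lc 2 2 (.lc 2 2 (.lc 2 2 .stop))))))))))))
 (.lc 0 9 (.lc 0 9 (.lc 0 0 (.lc 0 10 .stop)))))))))))))))))))))))))))))))))))))))))))))))))
 (.far [1,1,257] 4096 (.node [50,87,118,69,98] 5 7 (.lc 2 0 (.lc 2 1 (.lc 2 8 (.lc 3 1 (.lc 3 8 (.lc 3 8 (.lc 3 0 (.lc 3 9 (.lc 2 6 (.lc 0 1 (.lc 2 6 (.lc 3 1 (.lc 3 8 (.lc 3 0 (.lc 3 9 (.lc 3 1 (.lc 3 8 (.lc 3 0 (.lc 3 1 (.lc 3 9 (.node [64,118] 0 7 (.far [16,256,257,4096] 0 (.conf [8,134] .stop))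
 (.lc 0 1 (.node [72,118] 8 7 (.far [16,256,257,4096] 0 (.node [98,128] 0 6 (.lc 1 2 (.lc 2 2 .stop))
 (.node [98,129] 1 4 (.lc 1 8 (.lc 2 8 .stop))
 (.node [98,137] 4 8 (.lc 2 0 (.lc 1 9 (.lc 2 10 (.lc 3 0 (.conf [25,150] (.lc 3 10 (.lc 0 0 (.lc 3 1 (.lc 0 0 (.lc 3 10 (.lc 3 0 (.lc 2 9 (.lc 3 11 (.lc 3 0 (.lc 1 6 (.lc 3 10 (.lc 3 1 (.lc 0 0 (.lc 3 1 (.lc 0 0 (.lc 4 10 (.lc 4 0 (.lc 2 6 (.lc 4 11 (.lc 0 0 (.lc 4 1 (.lc 0 0 (.lc 4 1 (.lc 0 0 (.lc 4 1 (.lc 0 0 (.lc 4 1 (.lc 0 0 (.lc 5 1 .stop))))))))))))))))))))))))))))))))))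
 (.far [16,256,257,4096] 0 (.far [16,256,257,4096] 0 (.node [98,128] 8 0 (.lc 2 1 (.lc 1 0 (.lc 3 9 (.lc 1 0 .stop))))
 (.node [98,150,98] 4 8 (.lc 2 0 (.lc 1 9 (.lc 2 10 (.lc 3 0 (.lc 1 6 (.lc 3 10 (.lc 0 0 (.lc 3 1 (.lc 0 0 (.lc 3 10 (.lc 3 0 (.lc 2 9 (.lc 3 11 (.lc 3 0 (.conf [25,150] (.lc 3 10 (.lc 3 1 (.lc 0 0 (.lc 3 1 (.lc 0 0 (.lc 4 10 (.lc 4 0 (.conf [26,169] (.lc 4 11 (.lc 0 0 (.lc 4 1 (.lc 0 0 (.lc 4 1 (.lc 0 0 (.lc 4 1 (.lc 0 0 (.lc 4 1 (.lc 0 0 (.lc 5 1 .stop))))))))))))))))))))))))))))))))))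
 (.conf [20,129] (.node [98,137,144] 0 6 .stop
 (.node [98,128,150] 8 0 (.lc 2 1 (.lc 1 0 (.lc 3 10 (.lc 1 0 .stop))))
 (.node [98,138,150] 4 8 (.lc 2 0 (.lc 1 10 (.lc 2 11 (.lc 3 0 (.lc 1 9 (.lc 3 11 (.lc 0 0 (.lc 3 1 (.lc 0 0 (.lc 3 11 (.lc 3 0 (.lc 2 10 (.lc 3 12 (.lc 3 0 (.conf [26,169] (.lc 3 11 (.lc 3 1 (.lc 0 0 (.lc 3 1 (.lc 0 0 (.lc 4 11 (.lc 4 0 (.conf [27,186] (.lc 4 12 (.lc 0 0 (.lc 4 1 (.lc 0 0 (.lc 4 1 (.lc 0 0 (.lc 4 1 (.lc 0 0 (.lc 4 1 (.lc 0 0 (.lc 5 1 .stop))))))))))))))))))))))))))))))))))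
 .stop))))))))))))
 (.lc 0 0 (.lc 0 8 (.lc 4 8 (.lc 4 9 (.lc 4 1 (.lc 4 9 (.lc 4 0 (.lc 4 10 (.lc 0 8 (.lc 0 0 (.lc 0 9 (.lc 0 8 (.lc 0 0 (.lc 0 9 (.lc 0 8 (.lc 0 0 (.lc 0 9 (.lc 1 0 (.node [72,118,128] 0 7 .stop
 (.node [64,118,135] 4 0 (.lc 0 0 .stop)
 (.lc 0 1 (.node [73,118,135] 8 7 (.far [16,256,257,4096] 0 (.lc 3 0 (.lc 3 1 (.lc 3 10 (.far [16,256,257,4096] 0 (.far [16,256,257,4096] 0 (.lc 3 0 (.lc 3 10 (.lc 4 1 (.lc 4 10 (.lc 4 0 (.lc 4 11 .stop))))))))))))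
 (.lc 0 9 (.lc 0 9 (.lc 0 0 (.lc 0 10 .stop)))))))))))))))))))))))))))))))))))))))))))))))))
 (.node [50,86,96,69] 4 5 (.lc 2 1 (.lc 1 6 (.lc 3 1 (.node [71,118,96] 4 7 (.conf [23,118] (.lc 2 8 (.lc 0 0 (.lc 2 6 (.lc 3 9 (.lc 3 1 (.conf [24,135] (.lc 3 9 (.lc 2 6 (.lc 3 9 (.lc 0 0 (.lc 3 1 (.lc 0 0 (.lc 3 1 (.lc 3 6 (.lc 4 10 (.lc 4 1 (.lc 4 1 (.lc 0 0 (.lc 4 1 (.lc 4 1 (.lc 5 1 .stop))))))))))))))))))))))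
 (.lc 3 8 (.lc 3 1 (.lc 2 6 (.lc 3 1 (.lc 1 0 (.lc 3 7 (.lc 3 8 (.lc 4 1 (.lc 2 0 (.lc 4 9 (.lc 4 8 (.lc 4 8 (.lc 4 8 (.lc 5 9 .stop))))))))))))))))))
 (.node [50,87,118,69,98] 4 5 (.lc 1 7 (.lc 2 1 (.lc 1 7 (.node [64,118] 4 0 (.lc 0 0 .stop)
 (.lc 3 1 (.node [72,118] 4 8 (.lc 2 0 (.conf [24,135] (.lc 2 6 (.lc 2 9 (.lc 0 0 (.lc 3 9 (.lc 3 0 (.lc 1 2 (.lc 3 9 (.lc 3 0 (.lc 2 7 (.lc 3 10 (.lc 0 0 (.lc 3 1 (.lc 0 0 (.lc 3 9 (.lc 3 0 (.conf [25,152] (.lc 3 10 (.lc 0 0 (.lc 3 6 (.lc 3 9 (.lc 3 0 (.lc 2 7 (.lc 3 6 (.lc 3 10 (.lc 0 0 (.lc 3 1 (.lc 3 1 (.lc 0 0 (.lc 3 1 (.lc 3 1 (.lc 4 10 (.lc 0 0 (.lc 4 10 (.lc 4 0 (.lc 3 7 (.lc 4 11 (.lc 0 0 (.lc 4 1 (.lc 0 0 (.lc 4 1 (.lc 0 0 (.lc 4 1 (.lc 0 0 (.lc 4 1 (.lc 4 1 (.lc 0 0 (.lc 4 1 (.lc 0 0 (.lc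 5 1 .stop)))))))))))))))))))))))))))))))))))))))))))))))))))
 (.lc 3 8 (.lc 3 0 (.lc 3 9 (.lc 0 0 (.lc 2 7 (.lc 2 7 (.lc 3 1 (.lc 2 7 (.lc 1 6 (.lc 3 1 (.lc 1 6 (.lc 3 0 (.lc 3 8 (.lc 3 8 (.lc 3 0 (.lc 3 9 (.lc 0 0 (.lc 2 6 (.lc 2 6 (.lc 4 1 (.lc 2 6 (.lc 4 9 (.lc 4 9 (.lc 4 0 (.lc 4 10 (.lc 4 8 (.lc 4 0 (.lc 4 9 (.lc 4 8 (.lc 4 0 (.lc 4 9 (.lc 4 8 (.lc 4 0 (.lc 4 9 (.lc 5 9 (.lc 5 9 (.lc 5 0 (.lc 5 10 .stop))))))))))))))))))))))))))))))))))))))))))))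
 (.node [50,87,118,69,96] 5 7 (.lc 2 1 (.lc 2 8 (.lc 3 8 (.lc 3 9 (.lc 0 1 (.lc 2 6 (.lc 3 9 (.lc 3 1 (.lc 3 9 (.lc 0 1 (.node [72,118] 7 6 (.node [96] 4 8 (.conf [24,134] (.lc 2 6 (.lc 2 9 (.lc 0 0 (.lc 2 6 (.lc 3 10 (.lc 3 1 (.conf [25,152] (.lc 3 10 (.lc 2 6 (.lc 3 10 (.lc 0 0 (.lc 3 1 (.lc 0 0 (.lc 3 1 (.lc 3 1 (.lc 3 6 (.lc 4 11 (.lc 1 1 (.lc 4 1 (.lc 4 1 (.lc 0 0 (.lc 4 1 (.lc 4 1 (.lc 5 1 .stop)))))))))))))))))))))))))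
 (.lc 2 0 (.lc 2 0 (.node [96,137] 4 8 (.lc 1 9 (.lc 2 10 (.lc 1 6 (.lc 3 10 (.lc 3 1 (.lc 2 9 (.lc 3 11 (.conf [25,150] (.lc 3 10 (.lc 3 1 (.lc 0 0 (.lc 3 1 (.conf [26,169] (.lc 4 11 (.lc 4 1 (.lc 4 1 (.lc 0 0 (.lc 4 1 (.lc 4 1 (.lc 5 1 .stop))))))))))))))))))))
 (.lc 2 0 (.lc 3 0 .stop))))))
 (.lc 0 8 (.lc 4 10 (.lc 0 9 (.lc 0 9 (.lc 0 9 (.lc 0 1 (.node [73,118,135] 8 7 (.node [96] 8 6 (.lc 1 0 (.lc 1 0 (.lc 3 1 (.lc 3 10 (.lc 2 0 (.lc 2 0 (.lc 1 1 (.lc 0 0 (.lc 2 0 (.lc 2 0 (.lc 2 1 (.lc 3 0 (.conf [20,145] (.conf [1,160] (.lc 2 1 (.lc 2 1 (.lc 3 1 .stop)))))))))))))))))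
 (.lc 1 0 (.lc 1 0 (.lc 1 0 (.lc 3 10 (.lc 2 0 .stop))))))
 (.lc 0 10 .stop)))))))))))))))))))
 (.node [50,88,135,69,118,98] 5 8 (.lc 2 0 (.lc 2 1 (.lc 2 9 (.lc 3 1 (.lc 3 9 (.lc 3 9 (.lc 3 0 (.lc 3 10 (.lc 2 7 (.lc 0 1 (.lc 2 7 (.lc 3 1 (.lc 3 9 (.lc 3 0 (.lc 3 10 (.lc 3 1 (.lc 3 9 (.lc 3 0 (.lc 3 1 (.lc 3 10 (.node [64,135] 0 8 (.conf [7,118] (.lc 1 6 .stop))
 (.lc 0 1 (.node [73,135] 8 7 (.node [118] 4 9 (.lc 2 0 (.conf [25,151] (.lc 2 6 (.lc 2 7 (.lc 2 10 (.lc 0 0 (.lc 3 10 (.lc 3 0 (.lc 1 2 (.lc 3 10 (.lc 3 0 (.lc 2 7 (.lc 3 11 (.lc 0 0 (.lc 3 1 (.lc 0 0 (.lc 3 10 (.lc 3 6 (.lc 3 0 (.conf [26,169] (.lc 3 11 (.lc 0 0 (.lc 3 6 (.lc 3 10 (.lc 3 0 (.lc 2 7 (.lc 3 6 (.lc 3 11 (.lc 0 0 (.lc 3 1 (.lc 3 1 (.lc 0 0 (.lc 3 1 (.lc 3 1 (.lc 3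 1 (.lc 4 11 (.lc 0 0 (.lc 4 11 (.lc 4 0 (.lc 3 7 (.lc 4 12 (.lc 4 1 (.lc 0 0 (.lc 4 1 (.lc 0 0 (.lc 4 1 (.lc 0 0 (.lc 4 1 (.lc 0 0 (.lc 4 1 (.lc 4 1 (.lc 0 0 (.lc 4 1 (.lc 0 0 (.lc 5 1 .stop)))))))))))))))))))))))))))))))))))))))))))))))))))))))
 (.lc 2 6 (.lc 2 6 (.lc 2 6 (.node [118,144] 0 7 .stop
 (.node [118,154] 4 9 (.lc 2 0 (.lc 1 10 (.lc 2 6 (.lc 2 11 (.lc 3 0 (.lc 1 7 (.lc 3 11 (.lc 0 0 (.lc 3 1 (.lc 0 0 (.lc 3 11 (.lc 3 0 (.lc 2 10 (.lc 3 12 (.lc 3 0 (.conf [26,167] (.lc 3 6 (.lc 3 11 (.lc 3 1 (.lc 0 0 (.lc 3 1 (.lc 3 1 (.lc 0 0 (.lc 4 11 (.lc 4 0 (.conf [27,186] (.lc 4 12 (.lc 0 0 (.lc 4 1 (.lc 0 0 (.lc 4 1 (.lc 0 0 (.lc 4 1 (.lc 4 1 (.lc 0 0 (.lc 4 1 (.lc 0 0 (.lc 5 1 .stop))))))))))))))))))))))))))))))))))))))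
 (.lc 2 6 (.lc 2 6 (.lc 3 6 (.lc 3 6 (.lc 3 6 (.lc 3 6 .stop))))))))))))
 (.lc 0 0 (.lc 0 9 (.lc 4 9 (.lc 4 10 (.lc 4 1 (.lc 4 10 (.lc 4 0 (.lc 4 11 (.lc 0 9 (.lc 0 0 (.lc 0 10 (.lc 0 9 (.lc 0 0 (.lc 0 10 (.lc 0 9 (.lc 0 0 (.lc 0 10 (.lc 1 0 (.node [73,135,144] 0 8 .stop
 (.node [64,135,152] 4 0 (.lc 0 0 .stop)
 (.lc 0 1 (.node [74,135,152] 9 8 (.node [118] 9 7 (.lc 1 6 (.lc 1 6 (.lc 1 6 (.lc 1 2 (.lc 1 2 (.lc 2 6 (.lc 2 6 (.lc 2 6 (.lc 2 6 (.lc 2 6 (.lc 2 6 (.lc 3 0 (.lc 3 1 (.lc 3 11 (.lc 1 2 (.lc 2 6 (.lc 2 6 (.lc 2 6 (.lc 4 1 (.lc 4 11 (.lc 4 0 (.lc 4 12 (.lc 3 6 (.lc 3 6 (.lc 3 6 (.lc 3 6 (.lc 2 2 (.lc 2 2 (.node [98,160] 0 6 (.far [257,1,257,4096,0,257,257] 4096 .stop)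
 (.node [98,161] 1 6 .stop
 (.node [98,171] 4 10 (.lc 2 11 (.lc 3 1 (.lc 3 0 (.conf [27,182] (.lc 3 12 (.lc 3 1 (.lc 0 0 (.lc 4 1 .stop))))))))
 (.lc 0 0 (.lc 0 11 (.conf [20,161] (.node [98,171,176] 0 6 (.node [] 4 10 (.lc 2 11 (.lc 3 1 (.lc 1 0 (.lc 3 12 (.lc 3 1 (.lc 4 1 .stop))))))
 .stop)
 (.node [98,160,182] 10 0 (.lc 1 0 .stop)
 (.node [98,172,182] 4 10 (.lc 2 12 (.lc 3 1 (.lc 3 0 (.lc 1 11 (.lc 3 13 (.lc 3 1 (.lc 0 0 (.lc 4 1 .stop))))))))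
 .stop)))))))))))))))))))))))))))))))))))))
 (.lc 1 6 (.lc 1 6 (.lc 1 6 (.lc 1 6 (.lc 1 6 (.lc 3 0 (.lc 3 11 (.lc 2 6 (.lc 2 6 (.lc 2 6 (.lc 2 6 .stop))))))))))))
 (.lc 0 10 (.lc 0 10 (.lc 0 0 (.lc 0 11 .stop)))))))))))))))))))))))))))))))))))))))))))))))))
 .stop)))))))))))))))))))))))))))))))

theorem t30 : kNode2 awTt FTt 5 3 (check tyTt awTt triet FTt [s31] c30) (fun _ _ _ => true) 0 s30 Pl.nil s30 =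
    true := by
  decide +kernel

end Chk
end Pool.Agent.Lib.MP_ba95e8_co
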