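import Pool.Agent.Lib.MP_ba95e8_co.ChkTab
import Pool.Agent.Lib.MP_ba95e8_co.ChkStates

/-!
Deltahedral domes: part 31 of the case analysis.
-/

namespace Pool.Agent.Lib.MP_ba95e8_co
namespace Chk

/-- certificate number 31 -/
def c31 : Cert := (.node [86] 0 5 (.far [257,1,0,0,257,257] 4096 (.lc 1 0 (.node [86] 5 6 (.node [98] 4 0 (.lc 0 0 (.node [71] 1 4 (.node [118] 7 6 (.node [98] 1 6 .stop
 .stop)
 (.node [112,64,98] 1 6 .stop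
 (.conf [24,135] .stop)))
 (.far [16,0,257,4096] 0 .stop)))
 (.conf [98,113,80] (.conf [98,120,134] (.lc 2 2 (.far [4112,1,1,0,4112,256] 0 (.far [257,16,16,0,257,4096] 0 (.conf [98,121,80] .stop)))))))
 (.lc 1 2 (.conf [80,98,118] (.node [39,86,117,86] 5 6 (.far [257,256,0,0,257,1,257] 4096 (.lc 2 2 (.lc 2 2 (.lc 0 8 (.lc 2 2 (.lc 3 2 .stop))))))
 (.lc 2 0 (.node [39,86,117,86] 5 6 (.far [257,16,16,0,257,4096] 0 (.lc 2 2 (.lc 2 2 (.lc 0 8 (.lc 2 2 (.lc 3 2 .stop))))))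
 (.node [86,117,135,86,98] 5 6 (.far [257,16,16,0,257,4096] 0 (.lc 2 2 (.lc 2 2 (.lc 2 2 (.lc 0 9 (.lc 2 2 (.lc 3 2 .stop)))))))
 (.node [80,98,118] 7 6 (.node [114] 0 7 (.lc 1 0 (.far [257,0,257,4096] 0 (.lc 2 2 .stop)))
 (.node [120,130] 2 0 .stop
 (.conf [120,130] (.far [1,1,1,4112,16,256] 0 (.node [121,152,130] 2 0 .stop
 .stop)))))
 (.lc 1 2 (.lc 2 0 (.node [39,86] 6 2 (.node [103] 5 6 (.lc 1 2 .stop)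
 (.lc 3 8 (.far [16,257,1,4112,16,256] 0 (.lc 3 8 (.lc 4 9 .stop)))))
 (.node [80,98,118,135,8] 4 0 (.lc 1 8 (.far [16,256,4112,0,257,4096] 0 (.lc 1 7 .stop)))
 (.node [40,86,117,135,86] 5 6 (.node [118] 6 2 (.far [1,4112,4096,0,257,4096] 17 (.lc 1 7 .stop))
 (.lc 2 2 (.lc 2 2 (.lc 0 9 (.lc 2 2 (.lc 3 2 .stop))))))
 .stop)))))))))))))))
 (.lc 2 1 (.lc 1 3 (.node [86] 1 4 (.lc 2 0 (.node [71,98,100] 6 4 .stop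
 (.node [65,117] 7 5 (.node [86] 0 5 (.node [98] 0 6 (.far [257,257,1,0,1,0,0,257,257] 4096 (.node [98,118] 7 6 .stop
 .stop))
 (.far [16,16,0,16,0,257,4096] 0 (.lc 1 2 .stop)))
 (.lc 2 1 (.node [32,86] 2 5 (.lc 0 2 .stop)
 (.lc 1 3 (.node [86] 5 6 (.node [98] 1 7 (.node [120] 7 8 (.node [] 8 6 (.node [98] 0 6 (.far [257,4096,1,0,0,257,0,1,0,0,257,257] 4096 .stop)
 (.conf [32,98] (.node [98,137] 8 9 (.node [] 9 6 (.node [32] 9 2 (.far [4096,0,4096,0,1,0,0,257,0,1,0,0,257,257] 4096 (.node [154] 0 9 .stop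
 (.node [155,186,155,162] 9 11 .stop
 .stop)))
 (.node [154,162,98] 9 10 .stop
 (.far [16,0,16,0,0,16,0,0,0,257,4096] 0 (.far [1,0,1,0,0,1,0,0,0,4112,256] 0 (.node [155,186,98,162] 9 11 .stop
 .stop)))))
 (.far [1,257,0,0,4096,1,0,1,0,0,257,257] 4096 (.far [4112,4112,1,0,256,256] 17 (.far [257,257,16,0,4096,4096] 0 (.far [257,257,16,0,4096,4096] 0 (.node [42,150,169,128] 6 2 .stop
 .stop))))))
 (.far [1,0,0,4096,1,0,1,0,0,257,257] 4096 (.conf [32,98] (.conf [32,98] (.conf [128,150,9] (.conf [32,98] (.conf [32,98] (.node [98,150,169,98,138] 8 10 (.far [4112,4112,1,0,256,256] 0 (.lc 2 9 (.far [4112,4112,1,0,256,256] 17 (.lc 2 9 (.lc 2 9 (.lc 3 9 .stop))))))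
 (.conf [32,98] (.conf [32,98] (.far [1,4096,4096] 256 (.conf [98,128] (.conf [32,98] .stop)))))))))))))))
 (.far [1,0,0,257,0,1,0,0,257,257] 4096 (.node [134,152,112] 8 6 (.node [98,150] 9 6 (.node [32] 0 9 (.far [257,0,0,1,0,0,257,0,1,0,0,257,257] 4096 .stop)
 (.lc 3 10 (.far [16,16,0,0,16,0,0,0,257,4096] 0 (.lc 3 10 (.lc 4 11 .stop)))))
 (.lc 2 2 (.conf [32,98] (.far [4112,4096,1,256,16,256,256] 0 (.lc 2 2 (.lc 3 2 .stop))))))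
 (.far [4112,1,0,4112,256,256] 17 (.far [4112,1,0,4112,256,256] 0 (.far [257,16,0,257,4096,4096] 0 (.far [257,16,0,257,4096,4096] 0 (.node [41,134,152,112] 8 6 (.far [257,256,16,4096,1,4096,4096] 0 (.lc 0 10 .stop))
 (.node [134,152,169,112] 8 6 (.far [257,256,16,4096,1,4096,4096] 0 (.lc 2 2 (.lc 0 2 (.lc 0 11 (.lc 2 2 (.lc 3 2 .stop))))))
 .stop)))))))))
 (.node [113,134] 1 8 (.node [134] 8 6 (.node [98] 6 2 (.far [4096,4096,1,256,0,257,0,1,0,0,257,257] 4096 .stop)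
 (.far [1,0,0,4096,1,0,1,0,0,257,257] 4096 (.conf [32,98] (.far [4112,1,256,256,256] 0 (.conf [32,98] .stop)))))
 (.lc 2 1 (.node [134,152,134] 8 6 (.far [257,16,4096,4096,4096] 0 (.lc 2 2 (.lc 0 2 (.lc 0 10 (.lc 2 2 (.lc 3 2 .stop))))))
 .stop)))
 (.node [120] 7 8 (.node [] 1 9 (.node [] 8 6 (.node [98,128] 0 6 (.far [257,1,0,0,0,4096,1,0,1,0,0,257,257] 4096 .stop)
 (.conf [32,98] (.node [98,150] 9 6 (.far [4112,256,1,256,256] 17 .stop)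
 (.node [98,138] 9 8 (.node [154] 9 10 (.node [] 10 6 (.node [32,162] 10 2 (.far [4096,0,1,257,0,0,1,0,0,257,0,1,0,0,257,257] 4096 .stop)
 (.far [257,0,1,4096,0,1,0,0,257,0,1,0,0,257,257] 4096 (.far [4112,1,256,256] 17 (.far [16,0,0,16,0,0,0,16,0,0,0,257,4096] 0 (.far [1,0,0,1,0,0,0,1,0,0,0,4112,256] 0 .stop)))))
 (.far [1,257,0,0,1,0,0,257,0,1,0,0,257,257] 4096 (.node [166,186,144] 10 6 (.far [4112,4096,16,256,1,256,256] 0 .stop)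
 (.far [4112,4112,0,1,256,256] 17 (.far [4112,4112,0,1,256,256] 0 (.far [257,257,0,16,4096,4096] 0 (.far [257,257,0,16,4096,4096] 0 (.node [43,166,186,144] 10 6 .stop
 (.node [166,186,203,144] 10 6 (.lc 0 2 .stop)
 .stop)))))))))
 (.conf [144,166,133] (.far [4112,0,1,256,256] 0 (.far [16,257,0,16,0,4096,4096] 0 (.far [1,4112,0,1,0,256,256] 0 (.conf [144,166,133] (.conf [144,166,133] .stop)))))))
 (.far [1,0,0,0,4096,1,0,1,0,0,257,257] 4096 (.conf [32,98] (.node [133,144,98] 0 6 (.far [257,4096,0,1,0,0,257,0,1,0,0,257,257] 4096 .stop)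
 (.conf [32,98] (.conf [133,154,166] (.far [4112,0,1,0,256,256] 0 (.conf [32,98] (.conf [32,98] (.node [98,166,186,98,139,152] 9 8 (.far [1,4112,0,1,0,256,256] 0 (.lc 3 0 (.lc 1 10 (.lc 1 10 (.lc 3 0 (.lc 4 0 (.lc 4 0 .stop)))))))
 (.conf [32,98] (.conf [32,98] (.conf [32,98] (.conf [32,98] (.node [133,144,98] 0 6 (.far [257,4096,4096] 256 .stop)
 (.conf [32,98] (.conf [32,98] (.conf [32,98] (.conf [32,98] (.conf [133,166,98] (.far [1,4112,4096,4096] 256 (.conf [32,98] (.conf [32,98] (.conf [32,98] .stop)))))))))))))))))))))))))))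
 (.node [152,169] 9 8 (.node [168] 10 8 (.node [98] 10 6 (.node [32,162] 0 10 (.far [256,257,257,1,0,1,0,0,257,0,1,0,0,257,257] 4096 .stop)
 (.lc 3 0 (.far [4112,4112,16,1,256,256] 17 (.far [16,4096,0,0,0,0,16,0,0,0,257,4096] 0 (.lc 3 0 .stop)))))
 (.lc 3 2 (.conf [32,98] (.lc 3 2 (.lc 3 11 (.lc 4 11 .stop))))))
 (.lc 2 5 (.node [171,184,134] 8 6 (.far [257,16,0,16,0,4096,4096] 0 (.lc 2 2 (.lc 0 2 (.lc 0 12 (.lc 2 2 (.lc 3 2 .stop))))))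
 (.lc 3 5 .stop))))
 (.node [169,152] 9 8 (.node [32,134,146,169] 9 2 .stop
 (.node [98,150,169] 9 6 (.lc 0 2 .stop)
 (.far [257,16,4096,4096] 0 (.node [134,155,169] 10 9 (.far [16,257,16,4096,4096] 0 (.lc 3 2 (.lc 3 12 (.lc 1 8 (.lc 3 12 (.lc 4 13 .stop))))))
 (.conf [32,98] (.conf [133,145] (.conf [155,182] (.conf [134,171,184] (.conf [32,98] (.conf [134,171,184] (.conf [156,203] (.conf [32,98] (.far [256,16,4112,4096,4096,4096] 0 (.conf [145,162] (.conf [145,166] (.conf [145,171] (.conf [32,98] (.conf [32,98] (.conf [32,98] (.conf [145,172] (.conf [32,98] (.conf [145,171] (.conf [32,98] (.conf [32,98] (.conf [32,98] .stop)))))))))))))))))))))))))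
 (.far [257,257,256,0,257,0,1,0,0,257,257] 16 (.node [152,169,186] 9 8 (.far [257,256,1,0,0,257,0,1,0,0,257,257] 16 (.lc 2 5 (.lc 0 12 (.lc 3 5 .stop))))
 .stop)))))
 (.conf [134,144,113] (.conf [134,146,113] (.conf [134,154,168] (.far [4112,1,0,4112,256,256] 0 (.far [4112,1,0,4112,256,256] 0 (.far [257,16,0,257,4096,4096] 0 (.far [257,16,0,257,4096,4096] 0 (.conf [134,154,113] (.conf [134,144,113] (.conf [134,144,113] (.conf [134,155,113] .stop))))))))))))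
 (.lc 2 1 (.lc 2 1 (.node [134] 8 6 (.node [98] 6 2 (.far [4096,1,0,4096,1,0,1,0,0,257,257] 4096 .stop)
 (.lc 2 2 (.conf [32,98] (.far [4112,257,256,16,256,256] 0 (.lc 2 2 .stop)))))
 (.node [120,151,120] 7 8 (.node [152] 9 8 (.node [32,134,146] 9 2 (.far [1,257,1,0,0,257,0,1,0,0,257,257] 4096 .stop)
 (.lc 1 5 (.node [134,154] 8 6 (.node [98] 9 10 (.node [] 10 6 (.node [32,162] 10 2 (.far [4096,0,1,0,257,1,0,0,257,0,1,0,0,257,257] 4096 .stop)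
 (.far [257,0,4096,1,1,0,0,257,0,1,0,0,257,257] 4096 (.conf [1,160] (.far [16,0,16,0,0,0,16,0,0,0,257,4096] 0 (.conf [1,160] .stop)))))
 (.lc 2 6 (.lc 2 6 (.far [4112,0,4112,16,257,0,4112,256,256] 17 (.far [4112,0,4112,16,257,0,4112,256,256] 0 (.lc 2 6 (.lc 2 6 (.lc 3 6 (.lc 3 6 .stop)))))))))
 (.conf [32,98] (.conf [32,98] (.far [4112,1,1,0,256,256] 0 (.conf [32,98] (.conf [32,98] (.conf [32,98] .stop)))))))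
 (.lc 2 5 (.lc 2 5 (.conf [1,144] (.conf [144,168,134] (.lc 2 5 (.conf [155,186] (.lc 2 5 (.lc 2 5 (.far [257,1,0,0,257,0,1,0,0,257,257] 4096 (.lc 2 5 (.node [144,134] 10 8 (.far [1,1,1,0,256,256] 0 (.lc 3 2 (.conf [32,98] (.lc 3 2 (.lc 3 11 (.lc 4 11 .stop))))))
 (.lc 3 5 (.lc 3 5 (.conf [144,168,134] (.conf [144,168,134] (.lc 3 5 (.lc 3 5 (.lc 3 5 (.lc 3 5 .stop))))))))))))))))))))))
 (.lc 2 6 (.lc 2 6 (.lc 0 10 (.lc 2 6 (.lc 3 6 .stop))))))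
 (.far [16,0,257,4096,4096] 0 (.far [16,0,257,4096,4096] 0 (.node [120,151,120] 7 8 (.far [257,16,0,257,4096,4096] 0 (.lc 2 6 (.lc 2 6 (.lc 0 10 (.lc 2 6 (.lc 3 6 .stop))))))
 (.node [120,151,169,120] 7 8 (.far [257,16,0,257,4096,4096] 0 (.lc 2 6 (.lc 2 6 (.lc 2 6 (.lc 0 0 (.lc 0 11 (.lc 2 6 (.lc 2 6 (.lc 3 6 (.lc 3 6 (.lc 3 6 (.lc 3 6 .stop))))))))))))
 (.lc 2 1 (.lc 2 1 (.lc 2 1 (.far [1,0,4112,256,256] 4097 (.node [120] 7 8 (.far [4112,1,0,4112,256,256] 4097 (.conf [134,146,113] (.conf [134,154,168] (.far [4112,1,0,4112,256,256] 4097 (.node [134,168,113] 8 6 (.node [98,166] 10 6 (.node [32,162] 9 10 (.node [146] 9 2 (.far [1,257,0,0,1,0,0,257,0,1,0,0,257,257] 4096 .stop)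
 (.lc 3 0 (.far [1,4112,16,1,0,256,256] 0 .stop)))
 (.lc 3 6 (.conf [171,178] (.lc 3 6 (.lc 4 6 .stop)))))
 (.lc 2 2 (.lc 0 2 (.lc 0 11 (.lc 2 2 (.lc 3 2 .stop))))))
 (.conf [134,155,113] .stop))))))
 (.lc 3 1 (.lc 3 1 (.node [134,152] 8 6 (.far [257,4112,4096,1,4096,4096] 0 (.lc 2 2 (.lc 0 2 (.lc 0 10 (.lc 2 2 (.lc 3 2 .stop))))))
 (.node [120,151,169,120] 7 8 (.node [152] 9 8 (.node [32,134,146,169] 9 2 .stop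
 (.lc 1 5 (.node [134,155,169] 10 9 (.far [16,257,1,4112,0,257,4096,4096] 0 (.lc 3 2 (.lc 3 12 (.lc 1 8 (.lc 3 12 (.lc 4 13 .stop))))))
 (.lc 2 5 (.lc 2 5 (.conf [151,171] (.lc 2 5 (.conf [156,203] (.lc 2 5 (.lc 2 5 (.node [32,151,162,134] 2 8 (.lc 0 2 .stop)
 (.lc 2 5 (.node [151,171,134] 11 8 (.far [1,1,1,0,256,256] 0 (.lc 3 2 (.conf [32,98] (.lc 3 2 (.lc 3 12 (.lc 4 12 .stop))))))
 (.lc 3 5 (.lc 3 5 (.conf [151,184,134] (.lc 3 5 (.lc 3 5 (.lc 3 5 (.lc 3 5 (.lc 4 5 .stop)))))))))))))))))))))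
 (.lc 2 6 (.lc 2 6 (.lc 0 11 (.lc 2 6 (.lc 3 6 .stop))))))
 (.lc 3 1 (.lc 3 1 (.lc 3 1 (.lc 4 1 .stop))))))))))))))))))))))))
 (.conf [98,128,83] (.conf [98,137,150] (.far [4112,1,0,1,0,4112,256] 0 (.lc 2 2 (.far [4112,1,0,1,0,4112,256] 0 (.far [257,16,0,16,0,257,4096] 0 (.far [257,16,0,16,0,257,4096] 0 (.conf [98,137,83] (.conf [98,128,83] (.conf [98,138,83] .stop)))))))))))
 (.lc 2 3 (.lc 2 3 (.lc 2 3 (.lc 3 8 (.lc 3 0 (.lc 2 3 (.lc 2 3 (.lc 3 0 (.lc 3 2 (.lc 3 9 (.lc 3 1 (.node [86,128] 0 5 .stop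
 (.node [37,86] 2 5 (.lc 0 2 .stop)
 (.lc 2 3 (.lc 2 3 (.node [86,133,86,98] 5 6 (.far [257,16,0,16,0,257,4096] 0 (.lc 2 2 (.lc 2 2 (.lc 0 9 (.lc 2 2 (.lc 3 2 .stop))))))
 (.node [86,133,152,86,98] 5 6 (.far [257,16,0,16,0,257,4096] 0 (.lc 2 2 (.lc 2 2 (.lc 0 0 (.lc 2 2 (.lc 0 10 (.lc 2 2 (.lc 2 2 (.lc 3 2 (.lc 3 2 (.lc 3 2 .stop)))))))))))
 (.lc 2 3 (.lc 2 3 (.lc 2 3 (.lc 2 3 (.lc 2 3 (.lc 2 3 (.lc 3 8 (.lc 3 0 (.lc 3 8 (.lc 2 3 (.lc 2 3 (.lc 2 3 (.lc 3 0 (.lc 3 9 (.lc 3 3 (.lc 3 3 (.lc 3 3 (.lc 3 3 (.lc 4 9 (.lc 4 8 (.lc 3 3 (.lc 3 3 (.lc 3 3 (.lc 4 9 (.lc 4 0 (.lc 4 0 (.lc 4 10 (.lc 3 3 (.lc 3 3 (.lc 3 3 (.lc 3 3 (.lc 3 3 (.lc 3 3 (.lc 3 3 (.lc 3 3 (.lc 3 3 (.lc 3 3 (.lc 3 3 (.lc 4 3 (.lc 4 3 (.lc 4 3 (.lc 4 3 .stop))))))))))))))))))))))))))))))))))))))))))))))))))))))))))))))))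
 (.node [71] 4 7 (.asm [] 0 (.conf [117,128,65] (.conf [117,134,65] (.conf [117,137,65] (.far [4112,1,4112,1,1,4096,256] 0 (.far [4112,1,4112,1,1,4096,256] 0 (.far [257,16,257,16,16,256,4096] 0 (.far [257,16,257,16,16,256,4096] 0 (.conf [117,137,65] (.conf [117,128,65] (.conf [117,138,65] .stop)))))))))))
 (.lc 3 0 (.lc 2 1 (.lc 3 0 (.node [22,65,98,117] 1 6 .stop
 (.node [24,65,117] 1 8 (.node [] 7 5 (.node [86,112] 7 0 (.lc 0 0 .stop)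
 (.node [32,86,114] 7 2 .stop
 (.lc 1 3 (.node [86,121] 8 7 (.node [137] 5 6 (.node [98] 8 9 (.node [128,150] 9 6 (.node [6,98] 0 6 (.far [257,1,0,4096,0,1,0,0,1,0,0,257,257] 4096 .stop)
 (.far [1,0,4096,0,1,0,0,1,0,0,257,257] 4096 (.conf [32,98] (.conf [32,98] .stop))))
 (.node [32,130,150] 8 2 (.far [1,257,0,256,257,0,0,1,0,0,257,257] 4096 .stop)
 (.lc 1 5 (.node [138,150] 9 6 (.node [98] 8 10 (.node [] 10 6 (.node [32,162] 10 2 (.far [1,257,0,1,0,4096,0,1,0,0,1,0,0,257,257] 4096 .stop)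
 (.far [257,0,1,0,4096,0,1,0,0,1,0,0,257,257] 4096 (.far [4112,1,256,256] 17 (.far [16,0,16,0,16,0,0,0,0,0,257,4096] 0 (.far [1,0,1,0,1,0,0,0,0,0,4112,256] 0 .stop)))))
 (.far [1,257,256,4096,0,1,0,0,1,0,0,257,257] 4096 (.node [166,186,128] 10 6 (.far [4112,4096,16,0,256,0,16,1,256,256] 0 .stop)
 (.far [4112,4112,4096,256,0,16,1,256,256] 17 (.far [4112,4112,4096,256,0,16,1,256,256] 0 (.far [257,257,256,4096,0,1,16,4096,4096] 0 (.far [257,257,256,4096,0,1,16,4096,4096] 0 (.node [43,166,186,128] 10 6 .stop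
 (.node [166,186,203,128] 10 6 (.lc 0 2 .stop)
 .stop)))))))))
 (.conf [32,98] (.conf [32,98] (.far [4112,1,256,256,256] 0 (.conf [32,98] (.conf [32,98] (.conf [32,98] .stop)))))))
 (.lc 2 5 (.lc 2 5 (.lc 2 5 (.lc 3 0 (.lc 3 0 (.far [4112,0,4096,4112,1,256,256] 17 (.lc 2 5 (.far [4112,0,4096,4112,1,256,256] 0 (.node [139,169,186,139,150] 9 6 (.far [257,16,4096,4096,4096] 0 (.lc 2 2 (.lc 0 2 (.lc 0 12 (.lc 2 2 (.lc 3 2 (.lc 3 2 .stop)))))))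
 (.lc 2 5 (.lc 3 0 (.lc 3 0 (.lc 3 0 (.lc 3 0 (.lc 3 5 (.lc 3 5 (.lc 4 0 (.lc 4 0 (.lc 4 0 (.lc 4 0 (.lc 4 0 (.lc 4 0 (.lc 4 0 .stop)))))))))))))))))))))))))))
 (.conf [98,144,83] (.conf [98,154,166] (.lc 2 2 (.far [4112,0,1,0,0,1,0,4112,256] 0 (.far [257,0,16,0,0,16,0,257,4096] 0 (.conf [98,155,83] .stop)))))))
 (.lc 1 5 (.lc 1 5 (.lc 1 5 (.lc 3 0 (.lc 1 5 (.far [1,4112,0,257,16,1,1,4096,256] 0 (.lc 2 5 (.lc 2 5 .stop)))))))))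
 (.lc 2 3 (.lc 2 3 (.lc 3 4 (.lc 2 3 (.lc 3 4 (.node [37,86,112] 2 5 (.lc 0 2 .stop)
 (.lc 2 3 (.conf [122,169] (.lc 2 3 (.lc 2 3 (.lc 2 3 (.lc 3 4 (.lc 2 3 (.lc 3 4 (.lc 3 3 (.lc 3 3 (.lc 4 4 (.lc 3 3 (.lc 3 3 (.lc 3 3 (.lc 3 3 (.lc 3 3 (.lc 4 3 .stop)))))))))))))))))))))))))))
 (.lc 2 7 (.lc 2 7 (.node [152] 7 5 (.node [32,86,114] 7 2 .stop
 (.lc 1 3 (.node [121,149,152] 7 9 (.lc 0 1 .stop)
 (.node [86,122] 8 7 (.node [138] 5 6 (.node [98] 8 10 (.node [32,130,166,152] 8 2 .stop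
 (.lc 1 5 (.far [257,0,256,257,16,4096,4096] 0 (.node [139,166,152] 9 8 (.far [16,257,0,256,257,16,4096,4096] 0 (.lc 3 2 (.lc 3 12 (.lc 1 10 (.lc 3 12 (.lc 4 13 .stop))))))
 (.lc 2 5 (.lc 2 5 (.lc 2 5 (.lc 3 1 (.lc 2 5 (.conf [155,166,186] (.conf [140,203] (.lc 2 5 (.lc 3 1 (.lc 3 1 (.lc 3 1 (.lc 3 1 (.lc 3 5 (.lc 3 5 (.lc 4 1 (.lc 4 1 (.lc 4 1 (.lc 4 1 (.lc 4 1 (.lc 4 1 (.lc 5 1 .stop)))))))))))))))))))))))))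
 (.conf [98,150,169] (.conf [98,171,182] (.lc 2 2 (.far [4112,0,1,0,0,1,0,4112,256] 0 (.far [257,0,16,0,0,16,0,257,4096] 0 (.conf [98,172,83] .stop)))))))
 (.lc 3 2 (.lc 3 6 (.lc 3 11 (.lc 3 1 (.lc 1 5 (.lc 3 11 (.lc 4 2 (.lc 4 12 .stop)))))))))
 (.lc 2 3 (.lc 2 3 (.lc 2 3 (.lc 3 4 (.lc 3 4 (.lc 2 3 (.conf [123,186] (.lc 2 3 (.lc 2 3 (.lc 2 3 (.lc 3 4 (.lc 2 3 (.lc 3 4 (.lc 3 3 (.lc 3 3 (.lc 4 4 (.lc 3 3 (.lc 3 3 (.lc 3 3 (.lc 3 3 (.lc 3 3 (.lc 4 3 .stop))))))))))))))))))))))))))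
 (.lc 2 7 (.lc 3 7 .stop))))))
 (.lc 3 0 (.node [22,71,98,104,132,71] 1 6 .stop
 (.node [25,71,132,71] 8 4 (.node [135] 1 9 (.node [] 9 8 (.lc 2 0 (.node [32,135,146] 2 8 (.lc 0 7 .stop)
 (.node [98,135,150] 6 8 .stop
 (.node [135,154] 8 7 (.node [117] 9 10 (.node [144,167] 10 7 (.lc 2 0 (.node [32,117,162] 2 7 .stop
 (.lc 1 4 (.node [98,103] 6 7 (.lc 0 3 .stop)
 (.node [117,171] 7 5 (.node [86] 10 11 (.node [11] 11 5 (.node [182] 11 6 (.conf [32,98] .stop)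
 (.far [16,0,16,0,0,0,0,0,0,0,16,0,257,4096] 0 .stop))
 (.far [1,257,256,0,0,0,0,0,0,1,0,0,257,257] 4096 (.far [4112,0,4112,1,256,256] 17 (.far [257,0,257,16,4096,4096] 0 (.far [257,0,257,16,4096,4096] 0 (.conf [32,107] (.node [44,181,203,160] 11 5 (.lc 0 6 .stop)
 .stop)))))))
 (.conf [83,98,182] (.lc 2 3 (.far [4112,1,0,1,0,0,256,0,256] 0 (.far [257,16,0,16,0,0,4096,0,4096] 0 (.conf [83,116,188] .stop))))))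
 (.lc 1 3 (.conf [116,171,181] (.far [257,0,1,0,0,256,0,257,0,0,257,257] 4096 (.conf [11,160] (.lc 3 0 (.lc 2 4 (.conf [32,103] (.node [117,183,203,117,172] 7 5 (.far [257,16,0,16,0,0,4096,0,4096] 0 (.lc 2 3 (.lc 2 3 (.lc 0 13 (.lc 2 3 (.lc 3 3 .stop))))))
 (.node [83,98,116] 10 6 (.far [257,257,16,4096,4096] 0 (.lc 2 2 (.conf [32,98] (.lc 2 2 .stop))))
 (.conf [5,160] (.conf [1,160] (.conf [116,171,182] (.conf [32,103] (.conf [1,160] (.conf [1,160] (.conf [6,160] .stop)))))))))))))))))))))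
 (.node [32,146,167] 9 2 (.far [1,257,257,256,0,256,0,257,0,0,257,257] 4096 .stop)
 (.node [98,106,150] 9 6 (.far [4112,4112,4112,4096,1,4112,256] 17 .stop)
 (.lc 1 7 (.node [155,167] 9 11 (.node [] 10 7 (.node [32,117,162] 2 7 .stop
 (.lc 1 4 (.node [98,103] 6 7 (.lc 0 3 .stop)
 (.lc 2 7 (.node [117,172] 7 5 (.node [86] 11 10 (.node [] 12 5 (.node [198] 11 12 (.node [98,182] 11 6 (.far [4112,4112,0,4112,0,0,1,256] 17 .stop)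
 (.conf [32,98] (.conf [32,98] .stop)))
 (.conf [98,182,197] (.far [16,0,16,0,0,0,0,0,0,0,0,16,0,257,4096] 0 .stop)))
 (.conf [178,197,167] (.conf [182,197,108] (.conf [189,197,220] (.far [16,0,257,0,16,4096,4096] 0 (.far [1,0,4112,0,1,256,256] 0 (.conf [32,108] (.conf [190,197,167] .stop))))))))
 (.conf [83,98,198] (.lc 2 3 (.far [4112,1,0,0,1,0,0,256,0,256] 0 (.far [257,16,0,0,16,0,0,4096,0,4096] 0 (.conf [83,116,205] .stop))))))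
 (.lc 1 3 (.lc 3 7 (.conf [116,172,197] (.conf [167,188,199] (.lc 2 4 (.conf [32,103] (.lc 3 7 (.node [117,199,220,117,173,186] 7 5 (.far [257,16,0,0,16,0,0,4096,0,4096] 0 (.lc 2 3 (.lc 2 3 (.lc 0 14 (.lc 2 3 (.lc 3 3 .stop))))))
 (.node [83,98,116] 10 6 (.far [257,257,0,16,4096,4096] 0 (.lc 2 2 (.conf [32,98] (.node [188,198,98] 12 6 (.node [194] 11 12 (.node [194] 12 2 (.far [4096,1,0,257,257,0,16,4096,4096,0,0,0,1,0,0,257,257] 4096 .stop)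
 (.lc 2 2 (.lc 2 2 .stop)))
 (.lc 3 0 (.lc 3 13 (.conf [205,210] (.lc 3 13 (.lc 4 14 .stop))))))
 (.lc 2 2 (.lc 3 2 .stop))))))
 (.node [116,167,181] 11 5 (.far [1,257,0,0,0,0,0,0,0,1,0,4112,256] 0 (.lc 3 0 (.node [98,198,188] 11 12 (.node [198] 12 6 (.node [194] 12 2 (.far [4096,0,4096,0,256,1,256,0,0,0,0,0,1,0,0,257,257] 4096 .stop)
 (.lc 3 0 (.conf [205,210] .stop)))
 (.lc 2 6 (.far [4112,4096,256,1,256,0,0,0,0,0,1,0,4112,256] 17 (.lc 2 6 (.lc 2 6 (.lc 3 6 .stop))))))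
 .stop)))
 (.node [32,167,178,117] 2 7 .stop
 (.lc 2 4 (.node [98,167,182,103] 6 7 (.lc 0 3 .stop)
 (.node [167,188,199] 12 7 (.far [1,1,0,0,1,0,0,256,0,256] 0 (.lc 3 6 (.node [83,98] 11 12 (.node [198] 12 6 (.node [194] 12 2 (.far [1,257,0,256,0,0,0,0,0,0,0,0,1,0,0,257,257] 4096 .stop)
 (.lc 3 0 (.conf [205,210] .stop)))
 (.lc 2 6 (.far [4112,0,4112,1,257,256,256] 17 (.lc 2 6 (.lc 2 6 (.lc 3 6 .stop))))))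
 (.lc 1 3 (.lc 3 13 (.lc 4 13 .stop))))))
 (.lc 4 7 (.conf [116,172,198] (.lc 3 4 (.conf [32,103] (.conf [167,199,117] (.lc 2 3 (.conf [116,197,86] (.conf [83,98,182] (.conf [98,167,182] (.node [98,116,188] 11 12 (.node [198] 12 6 (.node [194] 12 2 (.far [1,257,257,257,16,4112,4096,4096,0,0,0,1,0,0,257,257] 4096 .stop)
 (.lc 3 0 (.conf [205,210] .stop)))
 (.lc 2 6 (.far [4112,4096,1,258,514,512,0,512,0,513,0,4112,256] 17 (.lc 2 6 (.lc 2 6 (.lc 3 6 .stop))))))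
 .stop)))))))))))))))))))))))))))))
 (.far [1,257,257,256,0,256,0,257,0,0,257,257] 4096 (.node [98,107,186,107,144] 6 11 (.node [98,186] 5 11 (.lc 1 7 .stop)
 (.lc 2 7 .stop))
 (.node [186,203,144] 11 10 (.node [32,167,178,203] 11 2 .stop
 (.node [98,106,182,203] 11 6 (.far [4112,4112,4096,16,4112,4096,1,4112,256] 0 .stop)
 (.lc 1 7 (.node [167,189,203] 12 11 (.node [205] 10 7 (.node [117] 13 7 (.node [86] 13 5 (.lc 0 6 .stop)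
 (.far [16,16,0,0,0,0,16,0,0,4096,0,4096] 0 (.lc 0 5 (.lc 0 6 .stop))))
 (.conf [116,167,213] (.far [4112,0,1,0,1,256,256] 0 (.conf [116,167,214] .stop))))
 (.lc 1 10 (.lc 1 10 (.lc 1 10 (.lc 1 10 (.far [1,4112,4096,16,4112,4096,1,4112,256] 0 (.lc 2 10 (.lc 2 10 .stop))))))))
 (.lc 2 7 (.conf [185,218,167] (.conf [32,106] (.conf [190,237] (.lc 2 7 (.lc 2 7 (.conf [185,194] (.conf [185,198] (.lc 2 7 (.conf [185,205] (.lc 3 7 (.conf [32,106] (.conf [185,206] (.lc 3 7 (.lc 3 7 (.lc 4 7 .stop))))))))))))))))))))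
 (.far [4112,4112,4112,4096,1,4112,256] 17 (.far [4112,4112,4112,4096,1,4112,256] 0 (.far [257,257,257,256,16,257,4096] 0 (.far [257,257,257,256,16,257,4096] 0 (.conf [32,107] (.node [44,186,203,144] 6 2 (.far [1,16,4112,4112,4096,0,4096,0,4112,257,1,4096] 17 (.lc 3 13 (.lc 1 11 (.lc 3 13 (.lc 4 14 .stop)))))
 (.node [186,203,220,144] 11 10 (.node [32,167,178,203,220] 11 2 .stop
 (.node [98,106,182,203,220] 11 6 (.lc 0 2 .stop)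
 (.lc 1 7 (.node [167,190,203,220] 10 7 (.node [117] 7 5 (.node [86] 11 14 (.far [257,0,257,256,256,0,1,0,16,257,4096] 0 (.lc 0 15 .stop))
 (.conf [83,98,230] (.lc 2 3 (.far [4112,1,0,0,0,1,0,0,256,0,256] 0 (.far [257,16,0,0,0,16,0,0,4096,0,4096] 0 (.conf [83,116,239] .stop))))))
 (.conf [116,167,229] (.far [4112,1,0,1,256,256] 0 (.conf [116,167,230] .stop))))
 (.lc 2 7 (.conf [185,206] (.conf [32,106] (.conf [191,254] (.lc 2 7 (.lc 2 7 (.node [32,185,194,220,167] 2 10 .stop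
 (.node [98,185,198,220,106] 6 10 (.far [16,16,256,16,4096,4096,16,1,4096,4096] 0 .stop)
 (.lc 2 7 (.node [185,206,220,167] 14 10 (.far [1,1,0,1,256,256] 0 (.lc 3 5 (.lc 3 15 (.lc 4 6 .stop))))
 (.lc 3 7 (.conf [32,106] (.conf [185,234,167] (.lc 3 7 (.lc 3 7 (.lc 4 7 .stop))))))))))))))))))))
 .stop)))))))))))
 (.lc 2 7 (.lc 2 7 (.lc 2 7 (.lc 2 7 (.lc 2 7 (.lc 2 7 (.lc 2 7 (.lc 2 7 (.lc 3 0 (.lc 3 0 (.far [4112,4112,4096,1,4112,256] 17 (.conf [32,106] (.far [4112,4112,4096,1,4112,256] 0 (.node [167,186,203,156] 9 12 (.far [4112,4112,4112,4096,1,4112,256] 0 (.lc 2 11 (.lc 2 11 (.lc 2 11 (.far [4112,4112,4112,4096,1,4112,256] 17 (.far [4112,4112,4112,4096,1,4112,256] 0 (.lc 2 11 (.lc 2 11 (.lc 3 11 (.lc 3 11 (.lc 3 11 .stop)))))))))))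
 (.lc 2 7 (.lc 2 7 (.lc 2 7 (.lc 2 7 (.lc 2 7 (.lc 2 7 (.lc 3 0 (.lc 3 0 (.lc 3 0 (.lc 3 0 (.lc 3 0 (.lc 3 0 (.lc 3 0 (.lc 3 7 (.lc 3 7 (.lc 3 7 (.lc 3 7 (.lc 3 7 (.lc 3 7 (.lc 4 0 (.lc 4 0 (.lc 4 0 (.lc 4 0 (.lc 4 0 (.lc 4 0 (.lc 4 0 (.lc 4 0 (.lc 4 0 (.lc 4 0 (.lc 4 0 (.lc 4 0 (.lc 4 0 (.lc 4 0 (.lc 4 0 (.lc 5 0 (.lc 5 0 (.lc 5 0 .stop))))))))))))))))))))))))))))))))))))))))))))))))))))))))
 (.lc 2 5 (.lc 2 5 (.lc 2 5 (.lc 2 5 (.lc 0 11 (.lc 2 5 (.lc 3 5 (.lc 3 5 (.lc 3 5 .stop))))))))))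
 (.lc 3 0 (.conf [154,167] (.conf [32,104] (.conf [135,168] (.conf [135,168] (.conf [135,168] (.lc 3 0 (.conf [32,104] (.lc 3 0 (.conf [135,168] (.lc 1 5 (.lc 1 5 (.lc 1 5 (.lc 1 5 (.conf [132,146] (.lc 1 4 (.conf [132,150] (.conf [132,154] (.node [32,135,154,162] 2 8 (.lc 0 7 .stop)
 (.node [98,135,150] 5 8 (.lc 0 4 .stop)
 (.node [32,135,146] 9 2 (.far [4096,0,1,16,256,257,0,0,257,257] 4096 .stop)
 (.node [98,135,154,166] 6 8 .stop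
 (.node [135,155,186] 9 11 (.node [186] 8 7 (.far [4112,4112,1,1,4112,513] 0 (.lc 2 5 (.lc 2 5 (.lc 2 5 (.lc 0 12 (.lc 2 5 (.lc 3 5 (.lc 3 5 .stop))))))))
 (.lc 2 10 (.lc 2 10 (.lc 2 10 (.lc 2 10 (.node [43,186] 2 11 (.node [186] 6 11 (.node [168] 10 8 (.far [1,0,0,4112,1,1,4112,513] 17 (.lc 1 5 (.lc 1 5 (.lc 3 12 (.lc 2 5 .stop)))))
 (.lc 3 2 (.far [16,256,0,257,0,0,257,0,4096,0,0,256] 0 (.lc 4 2 .stop))))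
 (.lc 0 10 (.lc 0 12 (.lc 2 2 (.lc 0 12 .stop)))))
 (.conf [186,203] (.lc 2 10 (.lc 2 10 (.lc 3 10 (.lc 3 10 (.lc 3 10 .stop))))))))))))
 (.lc 2 5 (.lc 2 5 (.lc 2 5 (.lc 2 5 (.conf [32,104] (.conf [32,106] (.conf [135,168] (.lc 2 4 (.conf [32,103] (.conf [132,155] (.lc 2 5 (.lc 2 5 (.lc 2 5 (.lc 2 5 (.lc 2 5 (.lc 2 5 (.lc 2 5 (.lc 2 5 (.lc 3 5 (.lc 3 5 (.lc 3 5 .stop))))))))))))))))))))))))))))))))))))))))))))))))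
 (.lc 2 8 (.lc 2 8 (.lc 2 8 (.node [169] 9 8 (.node [32,135,146] 2 8 (.lc 0 7 .stop)
 (.node [98,135,150] 6 8 .stop
 (.lc 2 1 (.node [135,155] 8 7 (.node [117] 9 11 (.node [32,146,183,169] 9 2 .stop
 (.node [98,107,150,169] 9 6 (.lc 0 2 .stop)
 (.lc 1 7 (.far [257,257,256,16,257,4096] 0 (.node [156,183,169] 10 9 (.far [16,257,257,256,16,257,4096] 0 (.lc 3 2 (.lc 3 6 (.lc 3 13 (.lc 1 11 (.lc 3 13 (.lc 4 2 (.lc 4 14 .stop))))))))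
 (.lc 2 7 (.lc 2 7 (.lc 2 7 (.lc 2 7 (.lc 2 7 (.lc 2 7 (.lc 2 7 (.lc 2 7 (.lc 3 1 (.conf [32,107] (.conf [172,183,203] (.conf [157,220] (.lc 2 7 (.lc 2 7 (.lc 2 7 (.lc 2 7 (.lc 2 7 (.lc 3 1 (.lc 3 1 (.lc 3 1 (.lc 3 1 (.lc 3 1 (.lc 3 1 (.lc 3 1 (.lc 3 7 (.lc 3 7 (.lc 3 7 (.lc 3 7 (.lc 3 7 (.lc 4 1 (.lc 4 1 (.lc 4 1 (.lc 4 1 (.lc 4 1 (.lc 4 1 (.lc 4 1 (.lc 4 1 (.lc 4 1 (.lc 4 1 (.lc 4 1 (.lc 4 1 (.lc 4 1 (.lc 5 1 (.lc 5 1 (.lc 5 1 .stop))))))))))))))))))))))))))))))))))))))))))))))))))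
 (.lc 2 5 (.lc 2 5 (.lc 2 5 (.lc 2 5 (.lc 0 12 (.lc 2 5 (.lc 3 5 (.lc 3 5 .stop)))))))))
 (.lc 3 1 (.conf [155,183] (.lc 3 2 (.lc 3 2 (.lc 3 6 (.lc 3 12 (.conf [32,104] (.lc 3 1 (.conf [135,184] (.lc 1 5 (.lc 1 5 (.lc 1 5 (.lc 1 5 (.lc 3 2 (.lc 1 4 (.lc 3 6 (.lc 3 11 (.lc 3 11 (.lc 3 6 (.lc 3 2 (.lc 3 11 (.lc 3 12 (.lc 2 5 (.lc 2 5 (.lc 2 5 (.lc 4 11 (.lc 4 2 (.lc 4 13 (.lc 2 4 (.lc 4 2 (.lc 4 12 (.lc 2 5 (.lc 2 5 (.lc 2 5 (.lc 2 5 (.lc 2 5 (.lc 2 5 (.lc 2 5 (.lc 2 5 (.lc 3 5 (.lc 3 5 (.lc 3 5 .stop))))))))))))))))))))))))))))))))))))))))))))))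
 (.lc 2 8 (.lc 3 8 .stop)))))))
 (.lc 1 5 (.lc 1 5 (.lc 1 5 (.lc 1 5 (.lc 1 5 (.lc 3 0 (.lc 3 10 (.lc 2 5 (.lc 2 5 (.lc 2 5 .stop)))))))))))
 (.lc 3 0 (.far [16,257,16,16,256,4096] 0 (.lc 3 0 (.node [71,132,152,71] 8 4 (.far [16,16,257,16,16,256,4096] 0 (.lc 1 5 (.lc 1 5 (.lc 1 5 (.lc 1 5 (.lc 1 5 (.lc 3 0 (.lc 3 10 (.lc 2 5 (.lc 2 5 (.lc 2 5 .stop)))))))))))
 (.lc 3 0 (.lc 2 1 (.lc 2 1 (.lc 3 0 (.lc 2 1 (.lc 2 1 (.lc 3 0 (.conf [24,134] (.lc 3 0 (.conf [24,135] (.lc 3 0 (.conf [25,152] (.lc 4 0 (.lc 3 1 (.lc 4 0 (.conf [25,152] (.lc 4 0 (.conf [26,169] (.lc 4 0 (.lc 3 1 (.lc 4 0 (.lc 3 1 (.lc 4 0 (.lc 3 1 (.lc 4 0 (.lc 3 1 (.lc 3 1 (.lc 5 0 (.lc 4 1 .stop)))))))))))))))))))))))))))))))))))))))))))))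
 (.lc 0 0 (.lc 2 6 (.lc 2 6 (.lc 3 1 (.lc 2 6 (.lc 3 7 (.lc 3 0 (.lc 3 7 (.lc 3 0 (.lc 3 8 (.lc 0 0 (.node [86,112] 0 5 (.node [37,86] 5 6 (.lc 1 2 .stop)
 (.lc 1 2 (.node [40,86,133,86] 5 6 (.far [257,16,16,0,257,4096] 0 (.lc 2 2 (.lc 2 2 (.lc 0 9 (.lc 2 2 (.lc 3 2 .stop))))))
 .stop)))
 (.lc 2 3 (.lc 3 1 (.lc 2 3 (.node [86,117] 0 7 (.node [39,117] 7 5 (.node [86,113] 1 5 .stop
 (.lc 1 3 (.node [86,120] 2 7 (.node [133] 8 5 (.far [16,0,16,0,16,0,257,4096] 0 (.lc 3 1 (.lc 3 9 (.far [16,0,16,0,16,0,257,4096] 0 (.lc 3 9 (.lc 4 10 .stop))))))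
 (.lc 1 5 (.lc 0 8 (.lc 1 5 (.lc 0 8 (.lc 0 9 .stop))))))
 (.conf [83,98,134] (.lc 3 0 (.lc 2 3 (.conf [86,133] (.node [98,113] 1 6 .stop
 (.node [98,120] 7 8 (.far [257,257,16,16,0,257,4096] 0 (.lc 2 6 .stop))
 (.lc 1 2 (.lc 2 3 (.conf [121,152] .stop))))))))))))
 (.far [16,16,257,1,4096] 0 (.node [40,117,135] 7 5 (.node [86,133] 8 5 (.far [16,16,0,16,0,257,4096] 0 (.lc 3 1 (.lc 3 9 (.far [16,16,0,16,0,257,4096] 0 (.lc 3 9 (.lc 4 10 .stop))))))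
 (.lc 2 3 (.lc 2 3 (.conf [86,149] (.lc 2 3 (.lc 3 3 .stop))))))
 (.conf [32,103] (.conf [117,135] (.conf [103,117] (.node [40,117,135] 7 5 (.conf [86,133] (.lc 2 3 (.lc 2 3 (.lc 0 9 (.lc 2 3 (.lc 3 3 .stop))))))
 (.conf [32,104] (.node [41,117,135,152] 7 5 (.conf [86,133] (.lc 2 3 (.lc 2 3 (.lc 0 10 (.lc 2 3 (.lc 3 3 .stop))))))
 .stop)))))))))
 (.lc 3 1 (.node [86,117,135] 7 5 (.node [86,112] 0 5 (.far [16,16,16,0,257,4096] 0 (.far [16,16,16,0,257,4096] 0 (.lc 1 2 .stop)))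
 (.node [86,113] 1 5 (.far [16,16,16,0,257,4096] 0 .stop)
 (.node [32,86,114] 2 5 (.lc 0 2 .stop)
 (.lc 1 3 (.node [86,121] 9 5 (.far [16,16,16,0,257,4096] 0 (.lc 3 0 (.lc 3 1 (.lc 3 10 (.far [16,16,16,0,257,4096] 0 (.far [16,16,16,0,257,4096] 0 (.lc 3 0 (.lc 1 2 (.lc 3 10 (.lc 4 1 (.lc 4 10 (.lc 4 0 (.lc 4 11 .stop)))))))))))))
 (.node [83,98,112,135] 0 6 (.far [16,16,16,257,1,4096] 0 .stop)
 (.lc 1 2 (.conf [83,98,150] (.lc 3 1 (.lc 3 9 (.lc 3 0 (.lc 2 3 (.lc 2 3 (.lc 2 3 (.lc 3 0 (.lc 3 1 (.lc 3 2 (.lc 3 10 (.node [86,113] 1 4 .stop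
 (.node [86,121,144,121,135] 0 5 .stop
 (.node [37,86,112] 2 5 (.lc 0 2 .stop)
 (.lc 2 3 (.lc 2 3 (.conf [86,149] (.conf [86,149] (.node [83,98,112,135] 0 6 (.far [16,16,16,257,1,4096] 0 .stop)
 (.node [83,98,113,135] 1 6 .stop
 (.node [83,98,121,135] 9 6 (.far [16,16,16,257,1,4096] 0 (.node [144] 7 9 (.node [113,144] 7 1 .stop
 (.node [122,144] 8 7 (.far [16,257,0,257,16,0,257,4096] 0 (.lc 3 0 (.lc 3 1 (.lc 3 11 (.lc 1 9 (.lc 3 11 (.lc 4 1 (.lc 4 12 .stop))))))))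
 (.lc 2 0 (.lc 2 0 (.lc 3 5 (.conf [144,169] (.lc 2 0 (.lc 2 0 (.lc 3 5 (.lc 3 5 (.lc 3 5 (.lc 3 0 (.lc 3 0 (.lc 4 5 (.lc 4 5 (.lc 4 5 (.lc 4 5 (.lc 4 5 (.lc 4 5 (.lc 4 5 (.lc 5 5 (.lc 5 5 .stop))))))))))))))))))))))
 (.node [152,130] 8 2 .stop
 (.node [154,162] 10 2 (.node [] 7 9 (.node [112,154] 7 0 (.lc 0 1 .stop)
 (.node [113,154] 7 1 .stop
 (.node [123,154] 9 10 (.far [4112,1,0,4096,257,0,4112,256] 0 (.lc 0 1 (.lc 0 8 (.lc 0 12 (.lc 2 0 (.lc 0 12 (.node [160,202] 12 10 (.node [192] 8 7 (.far [16,0,0,257,0,0,257,16,0,257,4096] 0 (.lc 3 1 (.lc 3 13 (.lc 1 12 (.lc 3 13 (.lc 4 14 .stop))))))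
 (.lc 3 1 (.lc 3 8 (.lc 3 13 (.far [16,257,16,257,513,4096,0,257,4096] 4097 (.conf [205,208] (.lc 3 1 (.lc 3 13 (.lc 4 13 (.lc 4 14 .stop))))))))))
 (.lc 0 13 .stop))))))))
 (.lc 2 6 (.lc 2 6 (.lc 3 5 (.node [113,154] 7 1 .stop
 (.conf [154,185] (.lc 2 6 (.lc 2 6 (.lc 3 5 (.lc 3 5 (.lc 3 5 (.lc 3 5 (.lc 3 6 (.lc 4 5 (.lc 4 5 (.lc 4 5 (.lc 4 5 (.lc 4 5 (.lc 4 5 (.lc 4 5 (.lc 5 5 .stop)))))))))))))))))))))))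
 (.lc 3 8 (.lc 3 11 (.node [176] 7 9 (.node [113,154] 7 1 .stop
 (.node [123,154,176] 11 9 (.lc 0 2 .stop)
 (.node [124,154] 9 10 (.far [4112,1,0,4096,257,0,4112,256] 0 (.lc 2 11 (.lc 2 11 (.lc 2 11 (.lc 2 2 (.lc 0 13 (.lc 2 11 (.lc 3 11 .stop))))))))
 (.lc 2 6 (.lc 2 6 (.lc 3 5 (.conf [154,201] (.lc 2 6 (.lc 2 6 (.lc 3 5 (.lc 3 5 (.lc 3 5 (.lc 3 5 (.lc 3 6 (.lc 4 5 (.lc 4 5 (.lc 4 5 (.lc 4 5 (.lc 4 5 (.lc 4 5 (.lc 5 5 .stop)))))))))))))))))))))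
 (.lc 3 11 (.lc 4 12 .stop))))))
 (.far [16,16,16,257,1,4096] 17 (.conf [154,162] (.node [144] 7 9 (.node [113,144] 7 1 .stop
 (.node [122,144] 8 7 (.far [16,257,0,257,16,0,257,4096] 0 (.lc 3 1 (.lc 3 11 (.lc 1 9 (.lc 3 11 (.lc 4 12 .stop))))))
 (.lc 2 0 (.lc 2 0 (.lc 3 5 (.conf [144,169] (.lc 2 0 (.lc 3 5 (.lc 3 5 (.lc 3 5 (.lc 3 0 (.lc 4 5 (.lc 4 5 (.lc 4 5 (.lc 4 5 (.lc 4 5 (.lc 5 5 .stop)))))))))))))))))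
 (.node [154,162] 7 9 (.node [112,154] 7 0 (.far [257,257,0,257,16,0,257,4096] 0 (.lc 0 1 (.lc 0 1 (.lc 0 11 (.far [257,257,0,257,16,0,257,4096] 4097 (.lc 0 11 .stop))))))
 (.node [113,154] 7 1 .stop
 (.node [123,154] 9 10 (.far [4112,1,1,258,0,4112,256] 0 (.lc 2 2 (.lc 2 2 (.lc 2 2 (.lc 2 2 (.lc 0 0 (.lc 0 12 (.lc 2 2 (.lc 2 2 (.lc 3 2 (.lc 3 2 (.lc 3 2 (.lc 3 2 .stop)))))))))))))
 (.lc 2 6 (.lc 2 6 (.lc 3 5 (.lc 3 5 (.node [113,154] 7 1 .stop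
 (.conf [123,176] (.conf [154,185] (.conf [154,185] (.lc 2 6 (.lc 2 6 (.lc 2 6 (.lc 3 5 (.lc 3 5 (.lc 3 5 (.lc 3 5 (.lc 3 6 (.lc 3 6 (.lc 3 6 (.lc 3 6 (.lc 4 5 (.lc 4 5 (.lc 4 5 (.lc 4 5 (.lc 4 5 (.lc 4 5 (.lc 4 5 (.lc 4 5 (.lc 4 5 (.lc 4 5 (.lc 4 5 (.lc 5 5 (.lc 5 5 (.lc 5 5 (.lc 5 5 .stop)))))))))))))))))))))))))))))))))))))
 (.node [154,160] 7 9 (.node [113,154] 7 1 .stop
 (.node [123,154] 9 10 (.far [4112,1,8208,256,0,4112,256] 17 (.lc 2 0 (.lc 2 0 (.lc 2 0 (.lc 0 12 (.lc 2 0 (.lc 3 0 .stop)))))))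
 (.lc 2 6 (.lc 3 5 (.conf [154,185] (.lc 2 6 (.lc 2 6 (.lc 3 5 (.lc 3 5 (.lc 3 5 (.lc 3 6 (.lc 4 5 (.lc 4 5 (.lc 4 5 (.lc 4 5 (.lc 4 5 (.lc 5 5 .stop)))))))))))))))))
 (.node [155,186,162] 10 2 (.node [160] 7 9 (.node [112,155] 7 0 (.lc 0 1 .stop)
 (.node [113,155] 7 1 .stop
 (.node [124,155] 9 11 (.far [4112,1,0,8208,256,0,4112,256] 0 (.lc 2 10 (.lc 2 10 (.lc 2 10 (.lc 2 10 (.lc 0 13 (.lc 2 10 (.lc 3 10 (.lc 3 10 .stop)))))))))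
 (.lc 2 6 (.lc 3 5 (.node [113,155] 7 1 .stop
 (.conf [155,201] (.lc 2 6 (.lc 2 6 (.lc 2 6 (.lc 3 5 (.lc 3 5 (.lc 3 5 (.lc 3 5 (.lc 3 6 (.lc 3 6 (.lc 4 5 (.lc 4 5 (.lc 4 5 (.lc 4 5 (.lc 4 5 (.lc 4 5 (.lc 4 5 (.lc 5 5 (.lc 5 5 .stop)))))))))))))))))))))))))
 (.lc 3 8 (.lc 3 12 (.conf [172,192] (.lc 3 12 (.lc 4 13 .stop))))))
 .stop))))))))))
 (.lc 3 0 (.lc 3 1 (.lc 1 2 (.lc 3 9 (.lc 3 1 (.lc 3 9 (.lc 3 9 (.lc 3 0 (.lc 3 9 (.lc 2 3 (.lc 2 3 (.lc 2 3 (.lc 3 0 (.lc 3 10 (.node [83,98,113,135] 1 4 .stop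
 (.conf [83,121,144] (.node [83,98,112,150,135] 7 0 (.far [1,256,0,0,257,1,257] 16 (.lc 3 0 (.conf [122,161] (.lc 3 0 (.lc 4 0 .stop)))))
 (.conf [83,122,169] (.lc 4 9 (.lc 4 10 (.lc 4 9 (.lc 3 3 (.lc 3 3 (.lc 3 3 (.lc 3 3 (.lc 4 1 (.lc 4 10 (.lc 4 0 (.lc 4 0 (.lc 4 11 (.lc 4 1 (.lc 4 9 (.lc 2 2 (.lc 2 2 (.lc 4 0 (.lc 4 10 (.lc 4 1 (.lc 4 9 (.lc 4 9 (.lc 4 0 (.lc 4 10 (.lc 4 1 (.lc 4 9 (.lc 4 0 (.lc 4 1 (.lc 4 10 (.lc 5 9 (.lc 5 10 (.lc 5 1 (.lc 5 10 (.lc 5 0 (.lc 5 11 .stop))))))))))))))))))))))))))))))))))))))))))))))))))))))))))))))))))))))))))))))))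
 (.lc 0 0 (.lc 2 6 (.lc 2 6 (.lc 3 1 (.lc 2 6 (.lc 3 7 (.lc 3 0 (.lc 3 8 (.lc 3 7 (.lc 3 0 (.lc 3 7 (.lc 3 0 (.lc 3 8 (.lc 3 6 (.lc 0 0 (.lc 3 6 (.lc 3 6 (.lc 4 1 (.lc 3 6 (.lc 4 8 (.lc 4 7 (.lc 4 0 (.lc 4 8 (.lc 4 8 (.lc 4 0 (.lc 4 9 (.lc 4 8 (.lc 4 8 (.lc 4 0 (.lc 4 9 (.lc 4 8 (.lc 4 8 (.lc 4 0 (.lc 4 9 (.lc 4 8 (.lc 4 8 (.lc 4 0 (.lc 4 9 (.lc 5 9 (.lc 5 9 (.lc 5 9 (.lc 5 0 (.lc 5 10 .stop)))))))))))))))))))))))))))))))))))))))))))))))))))))))))))))))))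

theorem t31 : kNode2 awTt FTt 4 5 (check tyTt awTt triet FTt [s32] c31) (fun _ _ _ => true) 0 s31 Pl.nil s31 =
    true := by
  decide +kernel

end Chk
end Pool.Agent.Lib.MP_ba95e8_co
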