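import Pool.Agent.Lib.MP_ba95e8_co.ChkTab
import Pool.Agent.Lib.MP_ba95e8_co.ChkStates

/-!
Deltahedral domes: part 32 of the case analysis.
-/

namespace Pool.Agent.Lib.MP_ba95e8_co
namespace Chk

/-- certificate number 32 -/
def c32 : Cert := (.node [80,98] 5 0 (.node [] 0 6 (.far [257,4112,4096,0,0,1,0,0,257,257] 4096 (.node [98,118] 7 6 (.far [4112,256,256,0,1,0,256] 0 .stop)
 (.far [4112,1,256] 0 .stop)))
 (.node [113,24,80] 7 1 (.lc 0 1 .stop)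
 (.far [4112,4112,0,0,1,0,4112,256] 0 .stop)))
 (.lc 1 2 (.lc 2 3 (.node [88,98,135] 5 8 (.lc 0 4 .stop)
 (.node [89,98] 7 5 (.node [] 9 6 (.node [98] 0 6 (.far [257,1,1,4096,0,0,1,0,0,257,257] 4096 .stop)
 (.conf [32,98] (.lc 2 5 (.node [98,134,135] 8 6 .stop
 (.node [98] 10 6 (.node [32] 7 9 (.node [112,154] 7 0 (.node [] 0 9 .stop
 (.far [4112,4112,0,0,4112,0,1,0,256] 0 (.lc 0 1 .stop)))
 (.node [154] 8 9 (.node [138] 8 10 (.node [162] 1 10 .stop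
 (.far [4112,4112,256,0,0,0,0,256,256] 4097 .stop))
 (.conf [129,149,162] (.far [16,16,0,257,4096,4096] 0 (.far [16,16,0,257,4096,4096] 0 (.conf [129,149,162] .stop)))))
 (.node [122] 7 10 (.node [162] 8 10 (.node [130] 8 2 .stop
 (.far [16,16,4096,257,4096] 17 .stop))
 (.conf [130,162,32] (.far [4112,4112,0,0,4112,0,1,0,256] 0 (.far [4112,4112,0,0,4112,0,1,0,256] 0 (.conf [128,162,116] .stop)))))
 (.node [123,154] 9 10 (.node [] 8 7 (.node [] 11 10 (.node [162,176] 0 10 (.far [257,1,0,4096,1,0,0,257,0,0,0,1,0,0,257,257] 4096 .stop)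
 (.node [178] 11 2 .stop
 (.node [138,162] 8 10 .stop
 (.node [162,188] 8 11 (.node [140] 12 10 (.node [] 8 12 (.node [194] 12 2 .stop
 (.far [4112,0,4112,0,4112,0,0,0,0,0,0,256,256] 4097 .stop))
 (.far [257,1,4096,256,0,257,0,0,257,0,0,0,1,0,0,257,257] 4096 (.far [16,0,16,0,16,0,257,4096] 17 (.far [1,0,1,0,1,0,4112,256] 0 (.far [1,0,1,0,1,0,4112,256] 0 (.node [205,208,162] 8 12 .stop
 .stop))))))
 (.conf [129,183,202] (.far [16,257,4096,4096,4096] 0 (.far [16,257,4096,4096,4096] 0 (.conf [129,183,202] .stop)))))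
 (.far [1,0,4096,1,0,0,257,0,0,0,1,0,0,257,257] 4096 (.conf [162,188,194] (.node [183,128,162] 8 0 (.node [] 0 10 (.far [257,0,4096,256,0,257,0,0,257,0,0,0,1,0,0,257,257] 4096 .stop)
 .stop)
 (.conf [183,202,140] (.node [162,188,192,188] 0 10 (.far [16,16,0,16,0,257,4096] 0 .stop)
 (.far [16,0,16,0,257,4096] 17 (.node [162,176,202,162] 11 0 (.far [4112,4112,256,256,256] 0 .stop)
 (.node [162,202,220,162,189] 8 11 (.far [1,4112,256,256,256] 0 (.lc 3 1 (.lc 1 12 (.lc 1 12 (.lc 4 1 .stop)))))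
 (.far [1,0,4096,1,0,0,257,0,0,0,1,0,0,257,257] 4096 (.node [162,183,130] 8 2 .stop
 (.node [129,183,162] 1 10 .stop
 (.conf [162,188,192] (.far [4112,16,256,256,0,0,0,0,256,256] 4097 (.far [256,4096,4112,4096,257,4096] 17 .stop))))))))))))))))))
 (.conf [128,186,116] (.conf [140,186,203] (.far [16,0,257,0,0,257,0,16,0,4096] 0 (.far [16,0,257,0,0,257,0,16,0,4096] 0 (.far [1,0,4112,0,0,4112,0,1,0,256] 0 (.far [1,0,4112,0,0,4112,0,1,0,256] 0 (.conf [140,186,116] (.conf [128,186,116] (.conf [141,186,116] .stop))))))))))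
 (.conf [162,176,149] (.conf [162,184,138] (.conf [162,188,202] (.far [4112,1,0,4112,256,256] 0 (.far [4112,1,0,4112,256,256] 0 (.far [257,16,0,257,4096,4096] 0 (.far [257,16,0,257,4096,4096] 0 (.conf [162,188,149] (.conf [162,176,149] (.conf [162,189,149] .stop)))))))))))
 (.node [149,162,112] 7 0 .stop
 (.conf [138,149,162] (.conf [149,162,186] (.node [116,128,154] 0 9 .stop
 (.conf [116,138,162] (.conf [116,139,185] (.far [4112,0,0,4112,0,1,0,256] 0 (.node [123,154,176,123,135] 0 9 .stop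
 (.far [16,0,257,4096,4096] 0 (.conf [138,116,149,83] (.far [16,0,257,4096,4096] 0 (.node [112,154,185,154,162] 7 0 .stop
 (.far [4112,0,0,4112,0,1,0,256] 0 (.node [124,185,203,124,154,135,162] 9 10 (.far [257,16,0,257,4096,4096] 0 (.lc 2 2 (.lc 2 2 (.lc 2 2 (.lc 0 0 (.lc 0 13 (.lc 2 2 (.lc 2 2 (.lc 3 2 (.lc 3 2 (.lc 3 2 .stop)))))))))))
 (.node [149,162,112] 7 0 (.far [257,257,0,0,257,0,16,0,4096] 0 (.node [139,176,112] 0 10 (.far [257,0,1,0,0,257,0,0,0,1,0,0,257,257] 4096 .stop)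
 (.lc 0 1 .stop)))
 (.far [257,0,0,257,0,16,0,4096] 0 (.node [149,162,123] 7 11 (.far [257,257,0,0,257,0,16,0,4096] 0 (.lc 2 10 (.lc 2 10 (.node [128,116] 8 0 (.node [] 11 10 (.node [178] 11 2 (.far [1,257,0,0,1,0,0,257,0,0,0,1,0,0,257,257] 4096 .stop)
 (.far [1,0,0,1,4112,16,256,256] 0 .stop))
 .stop)
 (.node [140,203,116] 11 10 (.node [178] 8 12 (.node [203] 11 2 (.far [1,0,257,0,1,0,0,257,0,0,0,1,0,0,257,257] 4096 (.lc 3 2 (.conf [189,208] .stop)))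
 (.lc 2 11 (.far [4112,16,4112,4128,257,4096,8224,0,258,256,512] 4097 (.lc 2 11 (.lc 2 11 (.lc 3 11 .stop))))))
 (.lc 3 0 (.far [16,0,16,257,1,4096,4096] 17 (.lc 3 0 (.lc 3 13 (.lc 4 13 .stop))))))
 (.lc 2 10 (.lc 2 10 (.lc 3 10 (.lc 3 10 (.lc 3 10 .stop))))))))))
 (.node [116,138,149,162] 8 10 (.node [128,162] 8 0 (.far [257,257,1,0,0,0,0,4096,4096] 0 .stop)
 (.far [257,1,0,0,0,0,4096,4096] 0 (.far [1,257,4112,256] 0 (.node [139,162] 10 2 (.far [4112,1,257,4112,256] 0 (.far [4096,1,257,0,0,257,0,0,0,1,0,0,257,257] 4096 (.far [4112,1,257,4112,256] 0 (.far [4112,1,257,4112,256] 0 (.far [4112,1,257,4112,256,257,0,0,0,1,0,0,257,257] 4096 (.far [4112,1,257,4112,256,257,0,0,0,1,0,0,257,257] 4096 .stop))))))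
 (.lc 2 2 (.lc 2 2 (.lc 3 1 (.lc 3 1 (.node [129,162] 10 2 (.far [4096,1,257,0,257,258,4096,0,0,2,0,0,514,514] 4112 .stop)
 (.node [139,162,176,139] 0 10 (.far [256,0,0,257,1,1,4096,0,0,1,0,0,257,257] 4096 .stop)
 (.far [1,257,4112,256,257,0,0,0,1,0,0,257,257] 4096 (.node [128,162,186,162] 8 0 (.node [] 11 10 (.node [178] 11 2 .stop
 (.lc 3 12 .stop))
 .stop)
 (.node [140,186,203,140,162] 11 10 (.node [178] 8 12 (.node [203] 11 2 (.far [1,0,256,0,0,257,1,1,4096,0,0,1,0,0,257,257] 4096 (.conf [178,192] (.conf [189,208] .stop)))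
 (.lc 2 11 (.far [4112,1,4096,256,4112,256,0,0,256,256] 4097 (.lc 2 11 (.lc 2 11 (.lc 3 11 .stop))))))
 (.lc 3 0 (.node [176] 8 12 (.far [257,16,256,4096,257,4096,0,0,4096,4096] 17 (.lc 2 11 (.lc 2 11 .stop)))
 (.lc 3 0 (.lc 3 13 (.lc 4 13 .stop))))))
 (.lc 2 2 (.lc 3 1 (.lc 3 2 (.lc 4 1 .stop)))))))))))))))))
 (.node [116,128,154] 0 9 (.far [1,1,0,4112,256,256] 0 (.node [162,186,144] 8 0 (.node [] 11 10 (.node [178] 11 2 .stop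
 (.lc 3 12 .stop))
 .stop)
 (.lc 1 2 .stop)))
 (.far [1,0,4112,256,256] 0 (.node [116,139,154] 11 9 (.far [1,1,0,4112,256,256] 0 (.lc 3 0 (.lc 3 12 (.node [162,149] 0 10 (.far [256,0,0,257,1,1,4096,0,0,1,0,0,257,257] 4096 .stop)
 (.node [162,202,149] 8 11 (.node [188] 12 10 (.node [194] 12 2 (.far [1,256,0,0,0,257,1,1,4096,0,0,1,0,0,257,257] 4096 (.lc 3 2 (.conf [205,208] .stop)))
 (.lc 3 0 (.far [16,4112,16,4128,257,258,8192,8192,256,256] 17 (.lc 3 0 (.lc 3 13 (.lc 4 13 .stop))))))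
 (.lc 2 12 (.far [4112,0,4112,0,0,4112,0,257,256,256] 4097 (.lc 2 12 (.lc 2 12 (.lc 3 12 .stop))))))
 (.lc 3 0 (.lc 3 12 (.lc 4 12 (.lc 4 0 (.lc 4 13 .stop))))))))))
 (.conf [128,149,116] (.conf [149,176,123] (.node [149,162,186,112] 7 0 .stop
 (.conf [139,149,116] (.conf [149,203,124] (.node [116,139,154,176] 0 9 .stop
 (.conf [116,149,162] (.conf [116,149,162] (.conf [116,154,185] (.conf [116,154,185] (.far [4096,0,4112,16,256,1,0,256] 0 (.conf [149,162,186] (.node [116,128,149,162] 8 0 (.far [257,257,0,0,257,0,4112,4096,4096] 0 .stop)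
 (.conf [139,162,186] (.far [256,0,257,1,4096,16,0,4096] 0 (.conf [116,139,186] (.node [116,139,149,162,176] 0 10 (.far [256,0,257,1,1,4096,0,0,1,0,0,257,257] 4096 .stop)
 (.node [116,128,149,162,186] 8 0 (.node [] 11 10 (.node [178] 11 2 .stop
 (.lc 3 12 .stop))
 .stop)
 (.node [116,140,149,162,186] 11 10 (.node [178] 8 12 (.node [203] 11 2 (.far [1,0,256,0,257,1,1,4096,0,0,1,0,0,257,257] 4096 (.lc 3 2 (.conf [189,208] .stop)))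
 (.lc 2 11 (.far [4112,1,4096,4112,4128,32,512,258,256,512] 4097 (.lc 2 11 (.lc 2 11 (.lc 3 11 .stop))))))
 (.lc 3 0 (.node [176] 8 12 (.far [257,16,256,257,258,2,8192,4128,4096,8192] 17 (.lc 2 11 (.lc 2 11 .stop)))
 (.lc 3 0 (.lc 3 13 (.lc 4 13 .stop))))))
 .stop))))))))))))))))))))))))))))))))))))))))))))
 (.far [257,1,1,4096,0,0,1,0,0,257,257] 4096 (.node [130,135,168,98,130,154] 8 2 .stop
 (.node [32,171,178,98,154] 11 2 (.far [1,257,1,1,4096,0,0,1,0,0,257,257] 4096 (.lc 3 8 (.lc 3 12 (.node [192] 9 10 (.lc 2 5 (.node [135,138,171] 8 10 .stop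
 (.node [171,192,202] 12 10 (.lc 0 2 .stop)
 (.node [157,171] 10 11 (.node [188] 7 9 (.node [125] 7 13 (.node [219] 13 11 (.node [139,188,192] 8 11 .stop
 (.lc 2 2 .stop))
 (.lc 2 7 (.far [4112,4112,0,0,0,0,0,4112,0,1,0,256] 0 (.lc 2 2 .stop))))
 (.conf [116,141,219] (.far [16,0,257,0,0,257,4096,4096] 0 (.far [16,0,257,0,0,257,4096,4096] 0 (.far [1,0,4112,0,0,4112,256,256] 0 (.conf [116,149,219] .stop))))))
 (.lc 2 12 (.lc 2 12 (.lc 2 2 (.lc 0 14 (.lc 2 12 (.lc 3 12 .stop)))))))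
 (.lc 1 2 (.conf [188,219] (.lc 3 5 (.lc 3 5 (.lc 3 5 (.conf [171,218] (.lc 3 5 (.lc 1 12 (.lc 1 12 (.lc 3 5 (.lc 3 5 (.lc 4 5 (.lc 2 12 (.lc 4 5 (.lc 4 5 (.lc 4 5 (.lc 4 5 (.lc 4 5 (.lc 5 5 .stop)))))))))))))))))))))))
 (.lc 3 12 (.lc 4 13 .stop))))))
 (.far [16,16,0,16,0,0,0,257,4096] 17 (.far [16,16,0,16,0,0,0,257,4096] 0 (.far [1,1,0,1,0,0,0,4112,256] 0 (.far [1,1,0,1,0,0,0,4112,256] 0 (.node [171,176,98,154] 9 10 (.lc 2 5 (.node [135,138,171,176] 8 10 .stop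
 (.node [156,171,176] 10 11 (.far [4112,1,4096,257,0,1,0,0,0,4112,256] 0 (.lc 2 0 (.lc 2 0 (.lc 0 13 (.lc 2 0 (.lc 3 0 .stop))))))
 (.conf [166,176] (.lc 3 5 (.lc 3 5 (.lc 3 5 (.conf [171,202] (.lc 3 5 (.node [135,166,176,139] 9 8 (.far [257,257,0,257,4096,4096] 0 .stop)
 (.node [166,176,156] 9 12 (.far [257,257,0,257,4096,4096] 0 (.lc 2 11 (.far [4112,4112,4096,4112,272,513,1,0,256,4112,256] 0 (.lc 2 11 (.lc 2 11 (.lc 3 11 .stop))))))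
 (.lc 3 5 (.lc 3 5 (.lc 4 5 (.conf [166,220,157] (.lc 4 5 (.lc 4 5 (.lc 4 5 (.lc 4 5 (.lc 4 5 (.lc 5 5 .stop)))))))))))))))))))))
 (.node [32,172,178,203,98,172,178,154] 11 2 (.node [176] 9 10 (.node [144,172] 0 10 .stop
 (.lc 2 5 (.node [135,138,172] 8 10 .stop
 (.node [157,172] 10 12 (.far [4112,1,0,4096,257,0,1,0,0,0,4112,256] 0 (.lc 2 11 (.lc 2 11 (.lc 2 11 (.lc 0 14 (.lc 2 11 (.lc 3 11 .stop)))))))
 (.lc 2 6 (.lc 3 5 (.lc 3 5 (.lc 3 5 (.conf [172,218] (.lc 2 6 (.lc 3 5 (.lc 2 6 (.lc 2 6 (.lc 3 5 (.lc 3 5 (.lc 4 5 (.lc 3 6 (.lc 4 5 (.lc 4 5 (.lc 4 5 (.lc 4 5 (.lc 4 5 (.lc 5 5 .stop)))))))))))))))))))))))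
 (.lc 3 8 (.lc 3 13 (.conf [189,208] (.lc 3 13 (.lc 4 14 .stop))))))
 .stop))))))))))
 (.far [1,1,4096,0,0,1,0,0,257,257] 4096 (.conf [32,98] (.node [145,24,98,135] 9 1 .stop
 (.node [135,152,98,128] 8 0 (.node [135] 9 8 (.lc 0 4 .stop)
 .stop)
 (.node [154,160,98] 0 6 (.far [256,0,0,0,257,16,257,256,0,257,1] 4096 .stop)
 (.conf [32,98] (.conf [32,98] (.conf [32,98] (.conf [144,166,98] (.conf [152,166,98] (.conf [155,166,186] (.node [98,160,154] 0 6 (.far [16,16,0,16,0,0,0,257,4096] 0 .stop)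
 (.conf [32,98] (.conf [32,98] (.lc 3 5 (.node [98,166,98,144] 10 6 (.far [16,16,0,16,0,0,0,257,4096] 0 (.lc 3 8 (.lc 3 11 (.conf [32,171,178] (.lc 3 11 (.lc 4 12 .stop))))))
 (.node [98,166,186,98,155] 10 6 (.far [16,16,0,16,0,0,0,257,4096] 0 (.lc 3 0 (.lc 3 8 (.lc 3 12 (.far [16,16,0,16,0,0,0,257,4096] 17 (.conf [32,172,194] (.lc 3 0 (.lc 3 12 (.lc 4 12 (.lc 4 13 .stop))))))))))
 (.conf [32,98] (.lc 3 5 (.conf [32,98] (.conf [32,98] (.far [257,1,4096,0,0,1,0,0,257,257] 4096 (.conf [32,98] (.conf [32,98] (.node [154,160,98] 0 6 (.far [1,1,0,1,0,0,0,4112,256] 0 .stop)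
 (.node [135,152,98] 9 8 (.lc 0 4 .stop)
 (.conf [98,144] (.conf [32,98] (.node [134,135,144,98] 8 6 .stop
 (.node [135,154,168,98] 8 6 .stop
 (.node [144,98] 9 0 .stop
 (.node [155,186,98] 7 9 (.node [123,186] 7 11 (.node [186] 8 11 (.node [138,166] 10 6 (.far [1,0,0,0,1,0,1,0,0,0,4112,256] 0 (.lc 3 0 (.lc 3 12 (.far [1,1,8208,4096,4096,0,0,4097,1,257,4096,0,257,513] 4096 (.node [32,194] 8 10 (.node [172,194] 1 10 (.lc 1 2 .stop)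
 (.far [4112,0,4112,256,0,0,0,0,256,256] 4097 (.lc 2 6 (.lc 3 6 .stop))))
 (.lc 3 0 (.lc 3 12 (.lc 4 12 (.lc 4 13 .stop)))))))))
 (.lc 3 1 (.far [16,16,4112,257,4096,4096] 0 (.far [16,16,4112,257,4096,4096] 0 (.lc 4 1 .stop)))))
 (.lc 2 7 (.far [4112,4112,0,4112,0,1,0,256] 0 (.conf [186,203] (.lc 2 7 (.lc 3 7 (.lc 3 7 .stop)))))))
 (.lc 3 4 (.lc 1 10 (.lc 1 10 (.lc 1 10 (.lc 3 4 (.lc 4 4 (.lc 4 4 .stop))))))))
 (.conf [32,98] (.lc 4 5 (.conf [32,98] (.far [4112,16,256,257,256,256] 4097 (.node [155,186,98,160] 0 6 (.far [256,0,0,0,257,16,257,256,0,257,1] 4096 .stop)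
 (.conf [32,98] (.conf [32,98] (.conf [155,166,98] (.conf [144,166,98] (.conf [156,166,98] (.far [1,1,4096,0,0,1,0,0,257,257] 4096 (.conf [32,98] (.conf [32,98] (.conf [32,98] (.conf [32,98] (.conf [32,98] (.conf [32,98] (.conf [32,98] (.conf [32,98] (.conf [32,98] (.conf [32,98] .stop))))))))))))))))))))))))))))))))))))))))))))))))))))))))))
 (.conf [112,150,83] (.conf [114,150,83] (.conf [122,150,169] (.far [16,257,0,0,16,0,257,4096] 0 (.lc 3 4 (.far [16,257,0,0,16,0,257,4096] 0 (.far [1,4112,0,0,1,0,4112,256] 0 (.far [1,4112,0,0,1,0,4112,256] 0 (.conf [122,150,83] (.conf [112,150,83] (.conf [112,150,83] (.conf [123,150,83] .stop)))))))))))))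
 (.lc 3 3 (.conf [98,144,89] (.conf [98,135,22] (.node [98,134,135,80] 0 8 (.far [16,16,1,0,257,0,4112,256] 0 .stop)
 (.conf [98,134,152] (.node [98,150,80] 5 0 .stop
 (.lc 3 3 (.conf [98,150,169] (.node [83,98,112] 0 6 (.far [257,4096,0,0,1,0,0,257,257] 4096 .stop)
 (.lc 2 2 (.lc 0 4 (.conf [83,98,150] (.lc 3 3 (.node [89,144,89,98,117] 0 6 (.lc 1 0 .stop)
 (.lc 2 2 (.lc 3 3 (.lc 2 2 (.node [80,98,150,98] 5 0 .stop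
 (.lc 3 3 (.node [90,150,169,90,98,117] 7 5 (.far [1,4112,0,0,1,0,4112,256] 0 (.lc 3 0 (.lc 3 2 (.lc 3 11 (.lc 1 9 (.lc 3 4 (.lc 1 9 (.lc 3 0 (.lc 3 11 (.lc 4 11 (.lc 4 0 (.lc 4 0 (.lc 4 12 .stop)))))))))))))
 (.node [98,81] 5 1 .stop
 (.lc 3 3 (.node [98,128,135,88] 5 8 (.lc 0 4 .stop)
 (.node [98,89] 0 6 (.far [256,0,257,16,257,256,0,257,1] 4096 .stop)
 (.lc 3 3 (.node [98,150,80] 5 0 (.far [257,257,0,0,16,0,257,4096] 0 (.node [113,24] 7 1 (.lc 0 1 .stop)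
 (.node [122,160,135] 7 10 (.node [160] 10 0 (.node [161] 10 1 (.lc 0 1 .stop)
 (.node [150] 9 6 (.node [146] 10 9 .stop
 (.conf [155,178] .stop))
 (.lc 0 1 (.lc 1 6 (.lc 1 6 (.lc 0 1 .stop))))))
 (.lc 0 2 (.lc 0 9 (.lc 0 11 (.lc 0 11 (.lc 2 0 (.lc 0 12 .stop)))))))
 .stop)))
 (.lc 3 3 (.node [98,135,150,88] 5 8 (.lc 0 4 .stop)
 (.node [98,150,169] 9 6 (.node [146] 5 10 (.far [257,0,257,0,0,16,0,257,4096] 0 (.lc 2 9 (.lc 2 9 (.node [112,135] 7 0 .stop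
 (.node [123,186,135] 7 11 (.node [186] 8 11 (.node [128,186] 0 11 (.node [169] 8 0 (.node [] 10 9 (.node [146,172] 0 10 .stop
 (.lc 2 2 (.conf [146,201] (.lc 2 2 (.lc 2 2 .stop)))))
 .stop)
 (.lc 1 9 (.lc 1 9 .stop)))
 (.lc 2 1 (.node [140,186] 11 10 (.node [169] 8 12 (.node [202] 1 12 (.node [202] 12 10 (.node [169] 10 9 (.node [146] 9 2 (.far [4096,4096,1,0,0,1,0,0,4096,0,0,0,0,1,0,0,257,257] 4096 .stop)
 (.lc 2 2 (.lc 2 2 .stop)))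
 (.lc 2 5 (.conf [169,218] (.lc 2 2 .stop))))
 (.lc 2 1 (.node [202,220,202] 12 10 (.far [257,16,16,4096,4096] 0 (.lc 2 5 (.lc 0 14 .stop)))
 .stop)))
 (.node [202,129] 12 10 (.node [169] 10 9 (.node [146] 9 2 (.far [4096,4096,1,0,1,0,0,4096,0,0,0,0,1,0,0,257,257] 4096 .stop)
 (.lc 2 2 (.lc 2 2 .stop)))
 (.lc 2 5 (.conf [169,218] (.lc 2 2 .stop))))
 (.far [4112,0,4112,256,0,0,0,256,256] 4097 (.far [257,0,257,4096,0,0,0,4096,4096] 0 (.far [257,0,257,4096,0,0,0,4096,4096] 0 (.node [202,220,129] 12 10 (.far [257,256,4096,1,4096,0,0,0,4096,4096] 0 (.lc 2 5 (.lc 0 14 .stop)))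
 .stop))))))
 (.lc 2 9 (.lc 2 9 (.lc 0 0 (.lc 0 13 (.lc 2 9 (.lc 2 9 (.lc 3 9 (.lc 3 9 (.lc 3 9 .stop))))))))))
 (.lc 2 7 (.lc 2 7 (.lc 3 1 (.lc 3 1 (.lc 3 1 (.node [140,186,192,140] 0 11 .stop
 (.conf [186,203] (.conf [186,203] (.lc 1 9 (.lc 3 1 (.lc 1 9 (.lc 3 1 (.lc 3 1 (.lc 4 1 (.lc 2 9 (.lc 2 9 (.lc 2 9 (.lc 4 1 (.lc 4 1 (.lc 4 1 (.lc 4 1 (.lc 4 1 (.lc 5 1 .stop))))))))))))))))))))))))))
 (.lc 0 0 (.lc 0 12 (.lc 0 0 (.lc 0 12 (.lc 2 10 (.lc 2 10 (.lc 0 12 (.lc 0 0 (.lc 0 13 .stop))))))))))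
 (.lc 2 9 (.lc 0 4 (.lc 2 9 (.lc 3 9 (.lc 3 9 (.lc 3 9 .stop)))))))))))
 (.lc 3 0 (.lc 3 7 (.lc 3 8 (.lc 3 11 (.node [144] 5 10 (.far [257,0,257,0,0,16,0,257,4096] 0 (.lc 2 9 (.node [123,186,135] 7 11 (.far [257,257,16,257,16,0,4128,257,258,8192] 17 (.lc 0 12 (.lc 0 12 (.lc 2 10 (.lc 0 13 .stop)))))
 (.lc 0 4 (.lc 2 9 (.lc 3 9 .stop))))))
 (.conf [155,178] (.lc 3 0 (.lc 3 11 (.lc 4 11 (.lc 4 7 (.lc 4 12 .stop))))))))))))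
 (.node [83,98,112] 0 6 (.far [257,4096,0,0,1,0,0,257,257] 4096 .stop)
 (.lc 0 4 (.node [83,98,121] 9 6 (.node [146] 7 9 (.node [112] 7 0 (.far [257,257,0,1,16,0,4096] 0 (.node [138,160,112] 8 10 (.node [160] 0 1 .stop
 (.lc 2 0 .stop))
 (.lc 0 1 .stop)))
 (.lc 1 2 (.far [257,0,1,16,0,4096] 0 (.node [122] 8 7 (.far [16,257,0,1,16,0,4096] 0 (.conf [128,169,116] (.conf [139,169,186] (.far [16,257,0,1,16,0,4096] 0 (.far [16,257,0,1,16,0,4096] 0 (.node [128,116] 8 0 (.node [] 9 2 (.far [4112,0,0,1,4112,257] 0 (.node [155] 10 9 (.far [1,4112,0,0,1,4112,257] 0 (.conf [172,178,203] (.node [178,203,172] 11 2 .stop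
 (.far [1,4112,0,0,1,4112,257] 0 (.conf [173,178,146] .stop)))))
 (.lc 3 2 (.far [4112,0,0,1,4112,257] 0 (.node [156,203,156,178,169] 10 9 (.far [1,4112,0,0,1,4112,257] 0 (.lc 3 13 (.lc 1 11 (.lc 3 13 (.lc 4 14 .stop)))))
 (.lc 3 2 (.lc 3 2 (.lc 4 2 .stop))))))))
 .stop)
 (.node [139,186,116] 8 11 (.node [186] 1 11 (.node [186] 11 10 (.node [169] 9 2 (.far [1,0,0,0,0,0,257,4096,0,0,1,0,0,257,257] 4096 (.far [4112,0,0,0,0,1,4112,257] 0 (.node [156] 10 9 (.far [1,4112,0,0,0,0,1,4112,257] 0 (.lc 3 0 (.node [194,220,146] 10 13 (.node [220] 12 2 (.far [4096,4096,0,0,4096,4096] 256 .stop)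
 (.lc 2 12 .stop))
 .stop)))
 (.lc 0 0 (.node [156,192,156] 10 9 (.far [1,4096,4112,4096,0,4096,4096] 256 (.lc 1 0 .stop))
 (.lc 3 2 (.lc 3 2 (.lc 0 0 (.node [157,220,157,194] 10 9 (.far [1,4112,0,0,0,0,1,4112,257] 0 (.lc 3 0 (.lc 1 12 .stop)))
 (.far [4097,272,16,16,4096,4096,257,4096,0,0,1,0,0,257,257] 4096 (.lc 3 2 (.lc 3 2 .stop))))))))))))
 (.far [1,0,0,257,0,0,0,1,0,257,0,0,257,257] 4096 (.node [169,202] 10 9 (.far [257,256,16,16,1,4096] 0 (.lc 2 2 (.node [205,217] 13 9 (.node [210] 13 2 (.lc 0 0 .stop)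
 (.lc 3 14 .stop))
 .stop)))
 (.conf [169,202] (.far [257,16,256,257,0,0,0,4096,4096] 0 (.node [169,202,220] 10 9 (.far [257,272,16,16,4096,4096] 0 (.lc 2 2 (.lc 0 14 .stop)))
 .stop))))))
 (.lc 2 1 (.conf [186,203] (.lc 2 1 (.lc 3 1 .stop)))))
 (.lc 2 10 (.far [4112,1,4112,16,272,258,256,512,257,4096] 4097 (.lc 2 10 (.lc 2 10 (.lc 3 10 .stop))))))
 (.conf [139,169,116] (.conf [128,169,116] (.conf [140,169,116] .stop))))))))))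
 (.lc 2 2 (.lc 2 2 (.lc 2 2 (.lc 2 2 (.lc 2 2 (.lc 3 4 (.lc 3 4 (.node [128] 8 0 (.node [] 9 2 (.far [1,0,0,257,4096,0,0,1,0,0,257,257] 4096 (.node [154] 0 9 .stop
 (.node [155,186,155,162] 0 9 .stop
 .stop)))
 .stop)
 (.node [122,160,122,135] 8 7 (.node [160] 10 0 (.node [161] 10 1 (.lc 0 1 .stop)
 (.lc 0 1 (.lc 0 1 .stop)))
 (.lc 3 11 (.lc 1 0 (.lc 3 11 (.lc 4 12 .stop)))))
 (.lc 2 2 (.node [112,169] 7 0 .stop
 (.node [138,169] 8 10 (.node [169] 1 10 (.node [169] 10 9 (.node [146] 9 2 (.far [1,0,0,0,0,257,4096,0,0,1,0,0,257,257] 4096 .stop)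
 (.lc 2 2 (.far [4112,1,4096,256,0,0,256,256] 17 (.conf [146,185] (.lc 2 2 .stop)))))
 (.lc 2 1 (.conf [169,186] .stop)))
 (.lc 2 9 (.far [4112,4112,16,272,258,256,512,257,4096] 4097 (.lc 2 9 (.lc 2 9 (.lc 3 9 .stop))))))
 (.node [123,186,123,169,135] 8 7 (.node [186] 8 11 (.node [128,186,169] 0 11 (.node [169] 8 0 (.node [] 10 9 (.node [162] 10 2 (.far [1,256,0,0,0,0,0,257,4096,0,0,1,0,0,257,257] 4096 .stop)
 (.node [146,172] 9 2 (.node [194] 10 12 .stop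
 (.lc 0 13 .stop))
 (.lc 2 2 (.lc 3 0 (.conf [146,201] (.lc 2 2 .stop))))))
 .stop)
 (.lc 1 9 (.lc 1 9 .stop)))
 (.lc 2 1 (.node [140,186,169] 11 10 (.node [169] 8 12 (.node [202] 1 12 (.node [202] 12 10 (.node [169] 10 9 (.node [146] 9 2 (.far [1,0,0,0,0,0,0,0,0,257,4096,0,0,1,0,0,257,257] 4096 .stop)
 (.lc 2 2 (.far [4112,4096,1,1,0,257,256,256] 17 (.lc 2 2 .stop))))
 (.lc 2 9 (.conf [169,218] (.lc 2 2 .stop))))
 (.lc 2 1 (.node [202,220,202] 12 10 (.far [257,16,16,4096,4096] 0 (.lc 2 9 (.lc 0 14 .stop)))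
 .stop)))
 (.node [202,129] 12 10 (.node [169] 10 9 (.node [146] 9 2 (.far [1,0,0,0,0,0,0,0,257,4096,0,0,1,0,0,257,257] 4096 .stop)
 (.lc 2 2 (.far [4112,1,0,4096,1,256,256] 17 (.lc 2 2 .stop))))
 (.lc 2 9 (.conf [169,218] (.lc 2 2 .stop))))
 (.far [4112,0,4112,4112,0,0,0,256,256] 4097 (.far [257,0,257,257,0,0,0,4096,4096] 0 (.far [257,0,257,257,0,0,0,4096,4096] 0 (.node [202,220,129] 12 10 (.far [257,256,4096,1,257,0,0,0,4096,4096] 0 (.lc 2 9 (.lc 0 14 .stop)))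
 .stop))))))
 (.lc 2 9 (.lc 2 9 (.lc 0 0 (.lc 0 13 (.lc 2 9 (.lc 2 9 (.lc 3 9 (.lc 3 9 (.lc 3 9 .stop))))))))))
 (.conf [169,183] (.conf [169,183] (.lc 3 1 (.lc 3 1 (.lc 3 1 (.node [140,186,192,169,140] 0 11 .stop
 (.conf [186,203] (.conf [186,203] (.node [169,183,128] 8 0 (.far [257,257,257,0,0,0,4096,4096] 0 .stop)
 (.lc 3 1 (.node [169,183,140] 10 9 (.node [146] 8 12 (.far [257,0,257,257,0,0,0,4096,4096] 0 (.lc 2 9 (.node [201] 12 9 (.node [194] 12 2 (.far [1,256,0,0,0,0,0,257,4096,0,0,1,0,0,257,257] 4096 .stop)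
 (.lc 3 0 (.lc 3 0 (.lc 3 0 .stop))))
 (.lc 2 9 (.lc 2 9 (.lc 3 9 .stop))))))
 (.lc 2 2 (.lc 0 0 (.lc 0 13 (.lc 3 2 .stop)))))
 (.lc 3 1 (.lc 3 1 (.lc 4 1 (.conf [183,192,140] (.node [169,183,202,128] 8 0 (.far [257,256,16,257,1,4097,4128,4096,8192,4112,256] 0 .stop)
 (.conf [183,220,141] (.lc 4 1 (.lc 4 1 (.lc 4 1 (.lc 4 1 (.lc 4 1 (.lc 5 1 .stop))))))))))))))))))))))))))
 (.lc 3 0 (.lc 3 12 (.lc 1 10 (.lc 1 10 (.lc 3 0 (.lc 3 12 (.lc 4 12 (.lc 4 0 (.lc 4 13 .stop))))))))))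
 (.lc 2 2 (.lc 2 2 (.lc 2 2 (.lc 2 2 (.lc 2 2 (.lc 2 2 (.lc 3 4 (.lc 3 4 (.lc 3 4 (.lc 3 4 (.lc 3 4 (.lc 3 4 (.lc 3 2 (.lc 3 2 (.lc 3 2 (.lc 3 2 (.lc 3 2 (.lc 3 2 (.lc 3 2 (.lc 4 4 (.lc 4 4 (.lc 4 4 (.lc 4 4 (.lc 4 4 (.lc 4 4 (.lc 4 4 (.lc 4 4 (.lc 4 4 (.lc 4 4 (.lc 4 4 (.lc 4 4 (.lc 4 4 (.lc 4 4 (.lc 5 4 (.lc 5 4 (.lc 5 4 (.lc 5 4 .stop))))))))))))))))))))))))))))))))))))))))))))))))))))))
 (.far [257,4096,0,0,1,0,0,257,257] 4096 (.node [135,152,130] 8 2 .stop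
 (.node [154,162] 10 2 (.far [1,257,4096,0,0,1,0,0,257,257] 4096 (.lc 3 8 (.lc 3 11 (.node [176] 7 9 (.far [257,0,0,1,16,0,4096] 0 (.node [123,154,176,185] 11 9 (.lc 0 2 .stop)
 (.node [124,154] 9 10 (.far [4112,1,0,4096,257,0,0,0,4112,256] 0 (.lc 2 11 (.lc 2 11 (.lc 2 2 (.lc 0 13 (.lc 2 11 (.lc 3 11 .stop)))))))
 (.lc 2 6 (.lc 2 6 (.lc 2 6 (.lc 3 4 (.conf [154,201] (.conf [154,201] (.lc 2 6 (.lc 2 6 (.lc 3 4 (.lc 3 4 (.lc 3 4 (.lc 3 6 (.lc 3 6 (.lc 4 4 (.lc 4 4 (.lc 4 4 (.lc 4 4 (.lc 4 4 (.lc 5 4 .stop))))))))))))))))))))))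
 (.lc 3 11 (.lc 4 12 .stop))))))
 (.far [16,256,0,0,16,257,1,4096] 17 (.conf [154,162] (.far [1,4096,0,0,1,4112,16,256] 0 (.far [1,4096,0,0,1,4112,16,256] 0 (.node [154,160] 7 9 (.far [257,0,1,16,0,4096] 0 (.node [123,154] 9 10 (.far [4112,1,8208,257,0,0,0,4112,256] 17 (.lc 2 0 (.lc 2 0 (.lc 0 12 (.lc 2 0 (.lc 3 0 .stop))))))
 (.lc 2 6 (.lc 2 6 (.lc 3 4 (.conf [154,185] (.conf [154,185] (.lc 2 6 (.lc 2 6 (.lc 3 4 (.lc 3 4 (.lc 3 6 (.lc 3 6 (.lc 4 4 (.lc 4 4 (.lc 4 4 (.lc 4 4 (.lc 5 4 .stop))))))))))))))))))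
 (.node [155,186,162] 10 2 (.node [160] 7 9 (.node [112,155] 0 9 .stop
 (.far [257,0,0,1,16,0,4096] 0 (.node [124,155] 9 11 (.far [4112,1,0,8208,257,0,0,0,4112,256] 0 (.lc 2 10 (.lc 2 10 (.lc 2 10 (.lc 0 13 (.lc 2 10 (.lc 3 10 .stop)))))))
 (.lc 2 6 (.lc 2 6 (.lc 3 4 (.conf [155,201] (.conf [155,201] (.lc 2 6 (.lc 2 6 (.lc 2 6 (.lc 3 4 (.lc 3 4 (.lc 3 4 (.lc 3 6 (.lc 3 6 (.lc 4 4 (.lc 4 4 (.lc 4 4 (.lc 4 4 (.lc 4 4 (.lc 5 4 .stop))))))))))))))))))))))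
 (.lc 3 8 (.lc 3 12 (.conf [172,192] (.lc 3 12 (.lc 4 13 .stop))))))
 .stop))))))))))
 (.node [83,98,112,135] 7 0 (.node [] 0 6 (.far [1,0,1,0,0,0,4112,256] 0 (.far [257,16,4096] 0 .stop))
 (.lc 0 9 (.lc 0 1 .stop)))
 (.lc 2 2 (.node [83,98,121,135] 8 7 (.node [150] 9 6 (.node [98] 0 6 (.far [1,1,0,1,0,0,0,4112,256] 0 .stop)
 (.conf [32,98] (.lc 2 6 (.node [98] 10 6 (.far [1,1,0,1,0,0,0,4112,256] 0 (.far [257,1,0,1,0,0,1,0,0,257,257] 4096 (.node [32,171,178] 11 2 (.far [1,257,1,0,1,0,0,1,0,0,257,257] 4096 (.lc 3 12 (.node [192] 8 9 (.lc 2 1 (.lc 1 6 (.node [139,154,188,171,192] 11 9 .stop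
 (.node [192,201] 12 9 .stop
 (.node [141,154] 9 10 (.far [257,16,0,0,257,4096,4096] 0 (.conf [188,219] (.conf [171,234] (.lc 1 12 (.lc 2 12 .stop)))))
 (.lc 2 6 (.lc 3 1 (.lc 2 6 (.lc 1 9 (.node [142,217,237,142,154,171] 9 10 (.far [257,16,0,0,257,4096,4096] 0 (.lc 2 6 (.lc 0 15 (.lc 2 6 (.lc 3 6 .stop)))))
 (.lc 2 6 (.lc 3 1 (.lc 3 1 (.lc 3 6 (.lc 4 1 (.lc 4 1 .stop))))))))))))))))
 (.lc 3 12 (.lc 4 13 .stop)))))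
 (.far [1,1,1,4096,4096,1,1,4096,0,257,513] 4096 (.node [32,178,171] 11 2 (.far [1,1,1,1,4096,4096,1,1,4096,0,257,513] 4096 (.lc 3 12 (.node [188,192,188,171] 8 9 (.lc 2 1 (.far [16,0,0,257,4096,4096] 0 (.lc 0 0 (.node [141,154] 9 10 (.far [257,16,0,0,257,4096,4096] 0 (.lc 2 11 (.lc 2 11 (.lc 0 14 (.lc 2 11 (.lc 3 11 .stop))))))
 (.lc 2 6 (.lc 3 1 (.lc 3 1 (.lc 1 11 (.conf [154,217] (.lc 3 1 (.lc 2 6 (.lc 2 6 (.lc 3 1 (.lc 3 1 (.lc 3 6 (.lc 1 1 (.lc 4 1 (.lc 4 1 (.lc 1 1 .stop)))))))))))))))))))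
 (.lc 3 12 (.lc 4 13 .stop)))))
 (.far [1,1,0,1,0,0,0,4112,256] 0 (.far [1,1,0,1,0,0,0,4112,256] 0 (.far [1,1,1,4096,4096,1,1,4096,0,257,513] 4096 (.node [32,172,178,203,172,178] 11 2 (.far [1,1,1,1,4096,4096,1,1,4096,0,257,513] 4096 (.lc 3 13 (.conf [189,208] (.lc 3 13 (.lc 4 14 .stop)))))
 .stop)))))))))
 (.lc 2 2 (.lc 2 2 (.lc 3 1 (.lc 3 10 (.lc 3 0 (.lc 3 10 (.lc 3 0 (.lc 3 11 (.node [98,160] 0 6 (.far [256,0,0,0,257,16,257,256,0,257,1] 4096 .stop)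
 (.conf [32,98] (.conf [32,98] (.node [98,166,98] 10 6 (.node [162] 0 10 .stop
 (.lc 3 11 (.conf [32,171,178] (.lc 3 11 (.lc 4 12 .stop)))))
 (.node [98,166,186,98] 10 6 (.node [162] 8 9 (.node [128,155] 0 9 (.node [186] 8 0 (.node [] 11 10 (.node [162,188] 10 2 (.node [194] 11 12 .stop
 (.lc 0 13 .stop))
 (.conf [162,188] (.conf [162,202] (.far [1,16,257,4096] 256 .stop))))
 .stop)
 (.lc 1 10 (.lc 1 10 .stop)))
 (.lc 2 1 (.node [150,186,162] 8 11 (.node [186] 1 11 .stop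
 (.far [4112,4112,0,0,4112,0,256,256] 4097 .stop))
 (.node [140,155] 9 11 (.node [186] 8 12 (.node [203] 1 12 (.node [203] 12 11 (.node [186,162] 11 10 (.node [162] 10 2 (.far [4096,1,0,0,0,257,16,0,257,4096,4096,0,0,1,0,0,257,257] 4096 .stop)
 (.lc 2 2 (.lc 2 2 .stop)))
 (.conf [162,185] (.conf [186,219] (.far [16,0,0,16,0,257,4096] 17 .stop))))
 (.lc 2 1 (.node [203,220,203,186,162] 12 11 (.far [257,16,16,4096,4096] 0 (.lc 2 9 (.lc 0 14 .stop)))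
 .stop)))
 (.node [203,186,129,162] 12 11 (.node [186] 11 10 (.node [162] 10 2 (.far [4096,1,0,0,257,16,0,257,4096,4096,0,0,1,0,0,257,257] 4096 .stop)
 (.lc 2 2 (.lc 2 2 .stop)))
 (.lc 2 9 (.conf [186,219] (.lc 2 2 .stop))))
 (.far [4112,0,4112,0,0,4112,0,256,256] 4097 (.far [257,0,257,0,0,257,0,4096,4096] 0 (.far [257,0,257,0,0,257,0,4096,4096] 0 (.node [203,220,186,129,162] 12 11 (.far [257,256,4096,1,0,0,257,0,4096,4096] 0 (.lc 2 9 (.lc 0 14 .stop)))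
 .stop))))))
 (.lc 2 10 (.lc 2 10 (.lc 0 0 (.lc 0 13 (.lc 2 10 (.lc 2 10 (.lc 3 10 (.lc 3 10 (.lc 3 10 .stop))))))))))
 (.lc 2 6 (.lc 2 6 (.lc 3 1 (.lc 3 1 (.lc 3 1 (.lc 3 1 (.node [140,155,192,140] 0 9 .stop
 (.lc 1 10 (.lc 1 10 (.conf [155,201] (.conf [155,201] (.lc 2 6 (.lc 3 1 (.lc 2 6 (.lc 3 1 (.lc 3 1 (.lc 4 1 (.lc 3 6 (.lc 3 6 (.lc 3 6 (.lc 4 1 (.lc 4 1 (.lc 4 1 (.lc 4 1 (.lc 4 1 (.lc 4 1 (.lc 5 1 .stop)))))))))))))))))))))))))))))))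
 (.lc 3 0 (.lc 3 12 (.node [160] 8 9 (.lc 2 1 (.far [16,16,256,4096,4112,0,0,0,257,4096] 17 (.node [140,155] 9 11 (.far [257,16,16,256,4096,4112,0,0,0,257,4096] 17 (.lc 2 10 (.lc 0 13 (.lc 2 10 (.lc 3 10 .stop)))))
 (.lc 2 6 (.lc 3 1 (.lc 3 1 (.lc 1 10 (.conf [155,201] (.lc 3 1 (.lc 2 6 (.lc 3 1 (.lc 3 1 (.lc 3 6 (.lc 4 1 (.lc 4 1 .stop)))))))))))))))
 (.conf [32,172,194] (.lc 3 0 (.lc 3 12 (.lc 4 12 (.lc 4 13 .stop)))))))))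
 (.lc 2 2 (.lc 2 2 (.lc 2 2 (.lc 2 2 (.lc 2 2 (.lc 3 10 (.lc 3 0 (.lc 3 10 (.lc 3 0 (.lc 3 11 (.lc 3 2 (.lc 3 2 (.lc 4 11 (.lc 4 10 (.lc 4 11 (.lc 4 11 (.lc 4 0 (.lc 4 12 (.lc 3 2 (.lc 3 2 (.lc 3 2 (.lc 3 2 (.lc 3 2 (.lc 3 2 (.lc 4 2 (.lc 4 2 .stop)))))))))))))))))))))))))))))))))))))))))))
 (.lc 3 0 (.lc 3 2 (.lc 3 10 (.far [16,257,16,0,4112,0,257,4096] 0 (.far [16,257,16,0,4112,0,257,4096] 0 (.lc 3 0 (.lc 3 10 (.lc 4 10 (.lc 4 0 (.lc 4 0 (.lc 4 11 .stop))))))))))))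
 (.conf [98,135,88] (.lc 4 3 (.conf [98,169,90] (.lc 4 3 (.conf [98,160,90] (.node [98,150,169,80] 5 0 .stop
 (.lc 4 3 (.conf [98,186,91] (.node [83,98,121,144,135] 0 6 (.far [1,4096,0,0,1,4112,16,256] 0 .stop)
 (.lc 3 2 (.lc 3 2 (.conf [83,98,150] (.conf [83,98,150] (.node [98,121,144,135] 0 6 (.far [1,4096,0,0,1,4112,16,256] 0 .stop)
 (.node [98,112,150,135] 7 0 .stop
 (.conf [98,150,169] (.far [1,0,0,1,0,0,257,257] 16 (.node [98,121,144,135] 0 6 (.far [256,0,257,16,257,256,0,257,1] 4096 .stop)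
 (.node [98,112,150,135] 7 0 (.far [257,257,16,0,4112,0,257,4096] 0 (.lc 0 10 (.lc 2 9 .stop)))
 (.conf [122,150,169] (.lc 0 4 (.conf [83,121,144] (.node [83,98,112,150] 7 0 (.far [1,257,0,0,0,0,257,1,257] 16 (.lc 3 0 .stop))
 (.lc 0 4 (.conf [83,122,169] (.node [98,122,169,135,144] 0 6 (.far [256,0,257,16,257,256,0,257,1] 4096 .stop)
 (.node [98,122,150,160,135] 7 10 (.node [160] 10 0 (.node [161] 10 1 (.lc 0 1 .stop)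
 (.lc 0 1 (.lc 0 1 .stop)))
 (.lc 0 2 (.lc 0 11 (.lc 0 11 (.lc 2 0 (.lc 0 12 .stop))))))
 (.node [98,112,150,169,135] 7 0 .stop
 (.node [98,123,150,169,135] 7 11 (.node [186] 9 6 (.node [146] 8 11 (.node [128,186] 0 11 (.node [169] 8 0 (.node [] 10 9 (.node [146,172] 9 2 (.node [194] 10 12 .stop
 (.lc 0 13 .stop))
 (.lc 2 2 (.conf [146,201] (.lc 2 2 .stop))))
 .stop)
 (.lc 1 9 (.lc 1 9 .stop)))
 (.lc 2 1 (.node [140,186] 11 10 (.node [169] 8 12 (.node [202] 1 12 (.node [202] 12 10 (.node [169] 10 9 (.node [146] 9 2 (.far [4097,1,0,4112,16,0,4112,257,16,4096,0,0,1,0,0,257,257] 4352 .stop)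
 (.lc 2 2 (.lc 2 2 .stop)))
 (.lc 2 9 (.conf [169,218] (.lc 2 2 .stop))))
 (.lc 2 1 (.node [202,220,202] 12 10 (.far [257,16,16,4096,4096] 0 (.lc 2 9 (.lc 0 14 .stop)))
 .stop)))
 (.node [202,129] 12 10 (.node [169] 10 9 (.node [146] 9 2 (.far [4097,1,0,16,0,4112,257,16,4096,0,0,1,0,0,257,257] 4352 .stop)
 (.lc 2 2 (.lc 2 2 .stop)))
 (.lc 2 9 (.conf [169,218] (.lc 2 2 .stop))))
 (.far [4112,0,4112,0,256,0,256,256] 4097 (.far [257,0,257,0,4096,0,4096,4096] 0 (.far [257,0,257,0,4096,0,4096,4096] 0 (.node [202,220,129] 12 10 (.far [257,256,4096,1,0,4096,0,4096,4096] 0 (.lc 2 9 (.lc 0 14 .stop)))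
 .stop))))))
 (.lc 2 9 (.lc 2 9 (.lc 0 0 (.lc 0 13 (.lc 2 9 (.lc 2 9 (.lc 3 9 (.lc 3 9 (.lc 3 9 .stop))))))))))
 (.lc 2 7 (.lc 2 7 (.lc 3 1 (.lc 3 1 (.lc 3 1 (.node [140,186,192,140] 0 11 .stop
 (.conf [186,203] (.conf [186,203] (.lc 1 9 (.lc 3 1 (.lc 1 9 (.lc 3 1 (.lc 3 1 (.lc 4 1 (.lc 2 9 (.lc 2 9 (.lc 2 9 (.lc 4 1 (.lc 4 1 (.lc 4 1 (.lc 4 1 (.lc 4 1 (.lc 5 1 .stop))))))))))))))))))))))))))
 (.lc 3 0 (.lc 3 12 (.node [144] 8 11 (.lc 2 1 (.node [140,186] 11 10 (.far [257,16,16,513,257,32,0,8224,257,258,8192] 17 (.lc 2 9 (.lc 0 13 (.lc 2 9 (.lc 3 9 .stop)))))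
 (.lc 2 7 (.lc 3 1 (.conf [186,203] (.lc 3 1 (.lc 1 9 (.lc 3 1 (.lc 3 1 (.lc 2 9 (.lc 4 1 (.lc 4 1 .stop))))))))))))
 (.conf [156,194] (.lc 3 0 (.lc 3 12 (.lc 4 12 (.lc 4 13 .stop)))))))))
 (.lc 0 0 (.lc 0 2 (.lc 0 12 (.lc 0 0 (.lc 0 12 (.lc 2 10 (.lc 2 10 (.lc 0 12 (.lc 0 0 (.lc 0 0 (.lc 0 13 .stop))))))))))))
 .stop)))))))))))))))))))))))))))))))))))))))))))))))))))))))))))))))))))))

theorem t32 : kNode2 awTt FTt 5 6 (check tyTt awTt triet FTt [] c32) (fun _ _ _ => true) 0 s32 Pl.nil s32 =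
    true := by
  decide +kernel

end Chk
end Pool.Agent.Lib.MP_ba95e8_co
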