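import Pool.Agent.Lib.MP_ba95e8_co.ChkTab
import Pool.Agent.Lib.MP_ba95e8_co.ChkStates

/-!
Deltahedral domes: part 33 of the case analysis.
-/

namespace Pool.Agent.Lib.MP_ba95e8_co
namespace Chk

/-- certificate number 33 -/
def c33 : Cert := (.node [50,64] 0 3 (.node [50,64] 4 0 (.node [69] 4 5 (.node [] 5 3 (.node [82] 5 2 .stop
 (.far [16,257,256,256,0,4096] 0 .stop))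
 (.lc 2 3 (.node [101] 5 3 (.far [1,4112,4096,4096,0,256] 0 (.lc 3 0 (.node [80,98] 6 2 .stop
 (.conf [87,114] (.lc 3 0 (.lc 4 0 .stop))))))
 (.lc 2 3 (.lc 3 3 .stop)))))
 (.conf [70,101] .stop))
 (.conf [50,83] .stop))
 (.asm [50,69] 0 (.conf [50,69] (.conf [50,64] (.conf [50,70] (.conf [50,69] (.conf [50,64] (.conf [50,70] (.node [69,80,69,50] 0 3 .stop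
 (.node [50,83,50,64] 4 0 .stop
 (.node [50,83,50,70] 4 6 (.lc 2 0 (.lc 2 7 (.lc 3 7 (.lc 3 0 (.lc 3 8 (.lc 0 0 (.node [101,118] 7 6 (.lc 1 5 (.lc 1 5 (.lc 1 5 (.lc 1 3 (.lc 1 3 (.lc 1 3 (.lc 2 5 (.lc 2 5 (.lc 2 5 (.lc 2 5 (.lc 2 5 (.lc 2 5 (.lc 2 5 (.lc 2 5 (.lc 2 5 (.lc 2 5 (.lc 2 5 (.lc 2 5 (.node [83,112] 0 5 (.lc 0 2 (.lc 3 1 (.far [4112,16,256,0,4096] 17 .stop)))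
 (.node [83,114] 2 5 .stop
 (.node [83,120] 5 3 (.lc 1 2 (.node [130] 7 8 (.lc 2 0 (.lc 2 9 (.lc 3 0 (.lc 1 0 (.lc 2 2 (.lc 0 9 (.lc 3 9 (.lc 3 0 (.lc 3 10 (.lc 1 0 (.lc 1 0 (.lc 0 0 (.lc 0 9 (.lc 2 0 (.lc 2 0 (.lc 0 0 (.lc 0 10 .stop)))))))))))))))))
 (.lc 2 2 (.lc 2 2 (.far [257,16,256,0,4096] 0 (.far [256,16,256,0,4096] 17 (.far [256,16,256,0,4096] 0 .stop)))))))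
 (.lc 1 3 (.lc 1 3 (.lc 1 3 (.lc 2 5 (.lc 2 5 (.lc 2 5 (.lc 2 5 (.lc 2 5 (.lc 2 5 (.node [83,120,128] 0 5 (.far [4112,16,256,0,4096] 17 .stop)
 (.node [83,112] 5 3 .stop
 (.node [83,120,130] 2 5 .stop
 (.node [83,112,133] 7 0 .stop
 (.node [83,114,133] 3 2 (.lc 2 0 (.lc 1 0 (.lc 3 9 (.lc 2 0 .stop))))
 (.node [83,121,133] 5 3 (.lc 1 2 (.lc 0 2 (.lc 2 2 (.lc 2 2 (.far [257,16,256,0,4096] 0 (.lc 0 0 (.lc 0 10 .stop)))))))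
 (.lc 3 5 (.lc 3 5 (.lc 3 5 (.lc 3 5 (.lc 3 5 (.lc 3 5 (.lc 3 5 (.lc 3 5 (.lc 3 5 (.lc 2 3 (.lc 2 3 (.lc 2 3 (.lc 2 3 (.lc 2 3 (.lc 2 3 (.lc 4 8 (.lc 4 0 (.lc 4 8 (.lc 4 0 (.lc 4 2 (.lc 4 9 (.lc 4 8 (.lc 4 0 (.lc 4 8 (.lc 4 0 (.lc 4 2 (.lc 4 9 (.lc 5 9 (.lc 5 8 (.lc 5 9 (.lc 5 9 (.lc 5 0 (.lc 5 9 (.lc 5 0 (.lc 5 2 (.lc 5 10 .stop))))))))))))))))))))))))))))))))))))))))))))))))))))))))))))))))))))))))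
 (.lc 3 7 (.lc 3 0 (.lc 3 8 (.lc 3 7 (.lc 3 0 (.lc 3 8 (.lc 0 0 (.lc 2 5 (.lc 0 0 (.node [101,118] 6 5 (.lc 1 3 (.lc 1 3 (.lc 1 3 (.lc 3 8 (.lc 3 0 (.lc 3 8 (.lc 3 0 (.lc 3 2 (.lc 3 9 (.lc 2 3 (.lc 2 3 (.lc 2 3 (.lc 2 3 (.lc 2 3 (.lc 2 3 (.lc 2 3 (.lc 2 3 (.lc 2 3 (.lc 3 8 (.lc 3 0 (.lc 3 8 (.lc 3 0 (.lc 3 2 (.lc 3 9 (.node [83,112] 0 5 (.lc 0 2 (.far [257,4096,1,0,256] 0 (.node [] 1 7 (.lc 1 0 (.lc 2 8 (.lc 3 9 (.lc 3 9 (.lc 3 9 (.lc 4 10 .stop))))))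
 .stop)))
 (.node [83,114] 2 5 .stop
 (.node [83,120] 5 3 (.lc 1 2 (.far [4096,4096,1,0,256] 0 (.lc 2 2 (.lc 2 2 (.node [130] 7 8 (.node [112,130] 7 0 (.far [257,257,0,1,4096] 0 (.node [121,130] 1 7 (.lc 2 9 (.lc 3 10 .stop))
 (.node [122,169,130,122,144] 1 7 (.lc 2 10 (.lc 3 11 .stop))
 .stop)))
 (.lc 0 8 (.lc 0 0 (.node [121,130] 8 2 (.node [128,121] 9 8 (.far [1,4112,1,256,257] 0 (.lc 0 7 (.node [154,160,128] 1 7 (.lc 2 9 (.lc 2 10 (.lc 2 11 (.lc 3 11 (.lc 3 0 (.lc 3 10 (.lc 3 11 (.lc 3 10 (.lc 3 12 (.lc 3 10 (.lc 4 11 .stop)))))))))))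
 (.node [160,154] 1 7 (.lc 2 9 (.lc 2 10 (.lc 2 11 (.lc 3 10 (.lc 3 11 (.lc 3 0 (.lc 3 11 (.lc 3 12 (.lc 3 11 (.lc 4 12 .stop))))))))))
 (.far [1,4112,1,256,257] 0 (.node [155,186,128,160] 1 7 (.lc 2 9 (.lc 2 10 (.lc 2 11 (.lc 2 12 (.lc 3 12 (.lc 3 0 (.lc 3 11 (.lc 3 10 (.lc 3 13 (.lc 3 11 (.lc 4 12 .stop)))))))))))
 .stop))))))
 (.lc 1 0 (.lc 1 0 (.lc 2 0 (.lc 2 0 (.lc 3 2 (.lc 2 0 (.far [4112,1,256,257] 0 (.node [138,160,121,138] 8 10 (.far [4112,4112,1,256,257] 0 (.lc 0 11 (.lc 0 11 (.lc 2 0 (.lc 0 12 .stop)))))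
 (.lc 2 0 (.lc 2 0 (.lc 2 0 (.lc 2 0 (.lc 2 0 (.lc 3 2 (.lc 2 0 (.lc 3 0 (.lc 3 0 (.lc 4 2 (.lc 3 0 (.lc 3 0 (.lc 3 0 (.lc 3 0 (.lc 4 0 .stop))))))))))))))))))))))))
 (.lc 0 0 (.lc 2 2 (.lc 2 2 (.lc 2 2 (.lc 3 9 (.lc 1 0 (.lc 3 0 (.lc 3 10 (.lc 0 0 (.node [121,130,144] 0 8 (.node [128,121,144] 7 9 (.lc 0 9 (.lc 2 10 (.lc 3 11 (.lc 0 10 (.lc 3 11 (.lc 0 10 (.lc 3 11 (.lc 0 10 (.lc 4 12 (.lc 0 11 .stop))))))))))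
 .stop)
 (.lc 1 0 (.node [112,130,152] 7 0 (.node [112,130,152] 9 8 (.lc 0 0 (.lc 1 2 (.lc 1 0 (.lc 2 2 (.lc 2 2 (.lc 1 0 (.lc 1 0 (.lc 2 2 (.lc 3 2 (.lc 2 0 .stop))))))))))
 .stop)
 (.node [130,152,169] 9 8 (.node [130,144,122] 0 8 (.node [] 1 7 (.node [122] 7 10 .stop
 (.lc 2 10 (.lc 2 11 (.lc 3 11 (.lc 3 0 (.lc 3 0 (.lc 3 11 (.lc 3 12 (.lc 2 1 (.lc 3 11 (.lc 3 0 (.lc 4 12 (.lc 4 0 .stop)))))))))))))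
 .stop)
 (.lc 0 0 (.node [130,155,122] 8 2 (.lc 1 0 (.lc 2 0 (.lc 0 0 (.lc 2 0 (.lc 2 0 (.lc 3 0 .stop))))))
 (.lc 2 2 (.lc 1 0 (.lc 0 7 (.lc 3 11 (.lc 1 0 (.lc 3 0 (.lc 3 12 (.node [130,155,176,122,155,169] 0 8 (.node [] 7 10 (.lc 0 10 (.lc 0 0 (.node [124,169] 1 7 (.lc 2 12 (.lc 3 13 .stop))
 (.lc 2 9 (.lc 2 9 (.lc 0 12 (.conf [125,220] (.lc 0 12 (.lc 2 9 (.lc 2 9 (.lc 0 11 (.lc 0 12 (.lc 3 9 (.lc 0 0 (.lc 0 13 .stop)))))))))))))))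
 .stop)
 (.lc 1 0 (.conf [130,184] (.conf [130,184] (.lc 1 0 (.lc 2 2 (.lc 1 0 (.lc 3 11 (.lc 3 0 (.lc 1 0 (.lc 3 0 (.lc 3 12 (.lc 2 0 (.lc 4 12 (.lc 2 0 (.lc 4 12 (.lc 4 0 (.lc 4 13 (.lc 3 2 (.lc 2 0 (.lc 2 0 (.lc 2 0 (.lc 3 0 .stop)))))))))))))))))))))))))))))))))
 (.lc 3 1 (.lc 2 2 (.lc 2 2 (.lc 0 9 (.lc 2 2 (.lc 3 9 (.lc 3 0 (.lc 3 10 (.lc 3 9 (.lc 3 0 (.lc 1 0 (.lc 3 0 (.lc 3 10 (.lc 3 2 (.lc 0 0 (.lc 3 2 (.lc 3 2 (.lc 3 2 (.lc 4 10 (.lc 2 0 (.lc 4 10 (.lc 4 0 (.lc 4 11 (.lc 4 10 (.lc 4 10 (.lc 4 0 (.lc 4 11 (.lc 4 10 (.lc 4 10 (.lc 4 0 (.lc 4 11 (.lc 4 10 (.lc 4 10 (.lc 4 0 (.lc 4 11 (.lc 5 11 (.lc 5 11 (.lc 5 11 (.lc 5 0 (.lc 5 12 .stop)))))))))))))))))))))))))))))))))))))))))))))))))))))))))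
 (.far [4112,4096,1,256,256] 0 (.far [4112,4096,1,256,256] 0 .stop)))))))
 (.lc 2 3 (.lc 2 3 (.lc 2 3 (.lc 4 9 (.lc 4 8 (.lc 4 9 (.lc 4 9 (.lc 4 0 (.lc 4 9 (.lc 4 0 (.lc 4 2 (.lc 4 10 (.lc 3 3 (.lc 3 3 (.lc 3 3 (.lc 3 3 (.lc 3 3 (.lc 3 3 (.node [83,120,128] 0 5 (.lc 0 2 (.lc 3 1 (.far [1,4096,1,256,256] 0 .stop)))
 (.far [1,1,257,257] 4096 (.node [83,120,130] 2 5 .stop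
 (.node [83,112,133] 7 0 .stop
 (.node [83,114,133] 3 2 (.lc 2 0 (.lc 1 0 (.lc 3 9 (.lc 2 0 .stop))))
 (.node [83,121,152] 5 3 (.lc 1 2 (.far [4096,4096,1,0,256] 0 (.lc 2 2 (.lc 2 2 (.far [4112,4096,1,256,256] 0 (.far [4112,4096,1,256,256] 0 (.far [4112,4096,1,256,256] 0 .stop)))))))
 (.node [83,120,128] 0 5 (.node [] 1 7 (.lc 2 9 (.lc 3 9 (.lc 3 10 (.lc 3 9 (.lc 4 10 .stop)))))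
 .stop)
 (.far [1,1,257,257] 4096 (.node [83,120,130] 2 5 .stop
 (.node [83,112,133] 5 3 (.lc 1 2 (.lc 0 2 (.lc 2 2 (.node [130] 7 0 (.lc 2 9 (.lc 3 10 .stop))
 (.lc 0 9 .stop)))))
 (.node [83,114,133] 3 2 (.lc 2 0 (.lc 1 0 (.lc 2 9 (.lc 3 9 (.lc 2 0 (.lc 3 9 (.lc 2 0 (.lc 3 10 (.lc 3 9 (.lc 2 0 (.lc 4 10 (.lc 3 0 .stop))))))))))))
 (.node [83,121,133] 5 3 (.lc 1 2 (.lc 0 2 (.lc 2 2 (.lc 2 2 (.node [130] 8 2 (.lc 2 0 (.lc 1 0 (.lc 2 0 (.far [4096,0,1,1,257,257] 4096 (.lc 2 0 (.lc 3 10 (.lc 2 0 (.lc 2 0 (.lc 2 0 (.lc 0 0 (.lc 2 0 (.lc 3 0 (.lc 0 10 (.lc 3 0 (.lc 3 0 (.lc 3 0 (.lc 3 0 (.lc 4 0 .stop))))))))))))))))))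
 (.lc 0 0 (.lc 0 10 .stop)))))))
 (.node [83,120,128,120] 0 5 (.far [16,256,16,4096,4096] 0 .stop)
 (.node [83,112] 5 3 .stop
 (.node [83,120,130,120] 2 5 .stop
 (.node [83,112,133] 5 3 (.lc 1 2 (.lc 0 2 (.lc 2 2 (.far [257,256,16,4096,4096] 0 (.lc 0 9 .stop)))))
 (.node [83,114,133] 3 2 (.lc 2 0 (.lc 1 0 (.lc 3 9 (.lc 2 0 .stop))))
 (.node [83,121,152,121] 5 3 (.lc 1 2 (.lc 0 2 (.lc 2 2 (.lc 2 2 (.far [257,256,16,4096,4096] 0 (.lc 0 0 (.lc 0 10 .stop)))))))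
 (.node [83,121,152,128] 0 5 (.node [] 7 9 (.lc 2 10 (.lc 3 11 (.lc 0 10 (.lc 3 11 (.lc 3 11 (.lc 0 10 (.lc 4 12 (.lc 0 11 .stop))))))))
 .stop)
 (.node [83,120,128] 5 3 .stop
 (.node [83,121,152,130] 2 5 .stop
 (.node [83,121,133,144] 5 3 (.lc 1 2 (.lc 0 2 (.lc 2 2 (.node [130] 0 8 .stop
 (.lc 0 10 .stop)))))
 (.node [83,112,133] 5 3 (.lc 1 2 (.lc 2 2 .stop))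
 (.node [83,121,133,146] 3 2 (.lc 2 0 (.lc 1 0 (.lc 3 10 (.lc 2 0 .stop))))
 (.node [83,112,133,152] 7 0 .stop
 (.node [83,114,133,152] 3 2 (.lc 2 0 (.lc 1 0 (.lc 3 10 (.lc 2 0 .stop))))
 (.node [83,122,133,152] 5 3 (.lc 1 2 (.lc 0 2 (.lc 2 2 (.lc 2 2 (.node [130] 9 8 (.lc 1 2 (.lc 1 2 (.lc 3 0 (.lc 1 0 (.lc 0 7 (.lc 2 2 (.lc 2 2 (.lc 2 2 (.lc 2 2 (.lc 2 2 (.lc 2 2 (.lc 1 0 (.node [144] 10 9 (.far [1,1,0,1,1,257,257] 4096 (.lc 0 7 (.lc 3 11 (.node [171,176] 7 10 (.lc 2 12 (.lc 3 12 (.lc 0 12 (.lc 3 13 (.lc 3 12 (.lc 0 11 (.lc 4 13 (.lc 0 12 .stop))))))))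
 (.lc 3 11 (.lc 4 12 .stop))))))
 (.lc 1 0 (.lc 2 2 (.lc 2 2 (.lc 2 2 (.lc 2 0 (.lc 3 2 (.lc 3 2 (.lc 3 2 (.lc 3 2 (.node [155,176] 10 9 (.far [1,1,0,1,1,257,257] 4096 (.lc 3 12 (.lc 1 0 (.lc 3 12 (.lc 4 13 .stop)))))
 (.lc 2 0 (.lc 2 0 (.lc 2 0 (.lc 3 0 .stop)))))))))))))))))))))))))))
 (.lc 0 0 (.lc 0 11 .stop)))))))
 .stop))))))))))))))))))))))))))))))))))))))))))))))))))))))))))))))))))))))))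
 (.lc 4 8 (.lc 4 8 (.lc 4 0 (.lc 4 9 (.lc 0 0 (.node [101,118,135] 7 6 (.lc 1 5 (.lc 1 5 (.lc 1 5 (.lc 1 3 (.lc 1 3 (.lc 1 3 (.lc 2 5 (.lc 2 5 (.lc 2 5 (.lc 2 5 (.lc 2 5 (.lc 2 5 (.lc 2 5 (.lc 2 5 (.lc 2 5 (.lc 2 5 (.lc 2 5 (.lc 2 5 (.node [83,112] 0 5 (.lc 0 2 (.lc 3 1 (.far [16,16,16,4096,4096] 0 .stop)))
 (.node [83,114] 2 5 .stop
 (.node [83,121] 5 3 (.lc 1 2 (.far [4096,1,4096,0,256] 0 (.lc 2 2 (.lc 2 2 (.far [257,16,16,4096,4096] 0 (.node [144] 7 9 (.lc 2 10 (.lc 3 10 (.lc 0 10 (.lc 3 11 (.lc 0 0 (.lc 2 0 (.lc 3 0 (.conf [1,160] .stop))))))))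
 (.node [154,162] 7 9 (.lc 2 0 (.lc 2 11 (.lc 3 0 (.lc 3 11 (.lc 0 0 (.lc 0 11 (.lc 3 11 (.lc 3 0 (.lc 3 12 (.lc 3 0 (.lc 3 11 (.lc 0 10 (.lc 2 10 (.lc 2 10 (.lc 4 11 (.lc 4 0 (.lc 4 12 (.lc 3 10 (.lc 3 10 (.lc 3 10 (.lc 2 2 (.lc 2 2 (.node [128,162] 8 0 (.far [257,257,0,257,4096] 0 .stop)
 (.node [139,162] 10 2 (.lc 1 0 (.lc 2 0 (.far [4112,1,256,256] 0 (.lc 2 0 (.lc 2 0 (.lc 3 0 .stop))))))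
 (.lc 0 0 (.lc 0 11 (.node [139,162,176] 0 10 (.node [] 8 11 (.lc 0 11 (.lc 0 12 .stop))
 .stop)
 (.node [128,162,186] 8 0 (.node [] 11 10 (.lc 0 0 (.lc 1 0 .stop))
 .stop)
 (.node [140,162,186] 11 10 (.lc 0 0 (.lc 1 0 (.lc 1 0 (.lc 3 0 (.lc 1 0 (.lc 2 0 .stop))))))
 .stop)))))))))))))))))))))))))))))
 .stop)))))))
 (.lc 1 3 (.lc 1 3 (.lc 1 3 (.lc 2 5 (.lc 2 5 (.lc 2 5 (.lc 2 5 (.lc 2 5 (.lc 2 5 (.node [83,121,144] 0 5 (.far [16,16,16,4096,4096] 0 .stop)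
 (.node [83,112] 5 3 .stop
 (.node [83,121,146] 2 5 .stop
 (.node [83,112,149] 7 0 .stop
 (.node [83,114,149] 3 2 (.lc 2 0 (.lc 1 0 (.lc 3 10 (.lc 2 0 .stop))))
 (.node [83,122,149] 5 3 (.lc 1 2 (.lc 0 2 (.lc 2 2 (.lc 2 2 (.far [257,16,16,4096,4096] 0 (.lc 0 0 (.lc 0 11 .stop)))))))
 (.lc 3 5 (.lc 3 5 (.lc 3 5 (.lc 3 5 (.lc 3 5 (.lc 3 5 (.lc 3 5 (.lc 3 5 (.lc 3 5 (.lc 2 3 (.lc 2 3 (.lc 2 3 (.lc 2 3 (.lc 2 3 (.lc 2 3 (.lc 4 9 (.lc 4 0 (.lc 4 9 (.lc 4 0 (.lc 4 2 (.lc 4 10 (.lc 4 9 (.lc 4 0 (.lc 4 9 (.lc 4 0 (.lc 4 2 (.lc 4 10 (.lc 5 10 (.lc 5 9 (.lc 5 10 (.lc 5 10 (.lc 5 0 (.lc 5 10 (.lc 5 0 (.lc 5 2 (.lc 5 11 .stop))))))))))))))))))))))))))))))))))))))))))))))))))))))))))))))))))))))))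
 (.lc 0 0 (.lc 3 5 (.lc 0 0 (.lc 3 5 (.lc 0 0 (.lc 3 5 (.lc 0 0 (.lc 4 5 .stop)))))))))))))))))))))))))))))))
 (.conf [50,69] (.conf [50,64] (.conf [50,70] (.node [50,69,80] 0 3 (.node [] 4 5 (.node [80] 5 0 (.lc 2 0 (.node [1,86] 1 5 (.lc 1 0 (.node [86] 5 6 (.far [257,16,257,16,0,1] 0 (.conf [96,120,80] (.node [120,134,80] 7 8 (.node [121,134] 1 7 (.node [152] 1 9 (.lc 1 9 .stop)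
 (.lc 1 8 .stop))
 (.conf [122,134] (.conf [113,134] (.conf [134,152] (.conf [122,134] (.node [113,134,96,25] 8 6 (.node [96] 1 9 .stop
 (.lc 2 0 (.lc 0 10 (.lc 2 0 (.lc 3 0 .stop)))))
 (.conf [123,134] (.conf [113,169,26] .stop))))))))
 (.far [257,16,257,16,0,1] 0 (.conf [96,121,80] .stop)))))
 (.lc 2 0 (.lc 2 0 (.node [24,86,117,135,86] 7 5 (.node [118,96] 1 8 (.lc 2 7 .stop)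
 (.lc 1 0 (.lc 1 0 (.lc 3 9 (.lc 2 0 .stop)))))
 (.lc 2 0 (.node [86,117,135,86] 7 5 (.far [16,16,257,16,0,1] 0 (.lc 1 0 (.lc 1 0 (.lc 3 9 (.lc 2 0 .stop)))))
 (.lc 2 0 (.lc 2 0 (.lc 2 0 (.node [24,86,135,117] 7 5 (.node [] 1 8 (.lc 2 7 .stop)
 (.lc 3 9 (.node [96,150] 1 8 .stop
 (.lc 3 9 (.lc 4 10 .stop)))))
 (.lc 3 0 (.lc 3 0 (.node [25,86,117,135,152,86,135,117] 7 5 (.node [118,96] 1 9 (.lc 2 8 .stop)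
 (.lc 1 0 (.lc 1 0 (.lc 3 10 (.lc 2 0 .stop)))))
 (.lc 3 0 (.lc 3 0 (.lc 3 0 (.lc 4 0 .stop))))))))))))))))))
 (.lc 3 7 (.node [1,87,118,96] 5 7 (.lc 2 0 (.node [88,118] 5 8 (.node [135] 7 6 (.node [96,121] 8 7 (.node [137] 6 0 (.far [32,1,4112,0,1,272,257,0,16,4112] 257 (.lc 3 0 .stop))
 (.lc 3 10 (.lc 1 6 (.lc 3 10 (.lc 4 11 .stop)))))
 (.conf [96,122] (.conf [96,117] (.conf [96,150] (.conf [96,122] (.lc 0 1 (.node [96,117,137] 6 0 .stop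
 (.lc 0 9 (.conf [96,123] (.lc 0 10 (.lc 0 10 (.lc 0 10 (.conf [117,138,169] (.lc 0 11 .stop))))))))))))))
 (.lc 2 7 (.node [25,135,152] 1 9 (.lc 1 9 .stop)
 (.lc 2 7 (.lc 3 7 .stop)))))
 (.lc 3 0 (.lc 2 6 (.lc 3 0 (.lc 3 0 (.conf [89,152] (.lc 3 0 (.lc 2 6 (.lc 3 0 (.lc 3 0 (.lc 4 0 (.lc 3 6 (.lc 4 0 (.lc 4 0 (.lc 4 0 (.lc 4 0 (.lc 5 0 .stop))))))))))))))))))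
 (.lc 3 7 (.lc 4 8 .stop))))))
 (.node [80,101] 6 5 (.lc 1 0 (.lc 1 1 (.lc 2 0 (.lc 2 0 (.lc 1 1 (.lc 2 0 (.lc 3 0 (.lc 2 1 .stop))))))))
 (.far [4112,1,4096,256] 0 (.far [257,16,256,4096] 0 (.node [80,101,118] 6 5 (.lc 1 0 (.lc 1 1 (.lc 2 0 (.lc 2 0 (.lc 1 1 (.lc 2 0 (.lc 3 0 (.lc 2 1 .stop))))))))
 .stop)))))
 .stop)
 (.node [50,64,83] 4 0 (.lc 0 0 .stop)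
 (.asm [50,70,83] 1 (.conf [50,69] (.conf [50,64] (.conf [50,70] (.conf [50,70] (.conf [50,70] (.conf [50,64] (.conf [50,71] (.conf [50,70] (.conf [50,70] (.conf [50,64] (.conf [50,71] (.node [50,70,101,80] 0 3 (.node [] 4 6 (.far [4112,1,4096,256] 0 (.lc 2 5 (.far [4112,1,4096,256] 0 (.lc 2 5 (.lc 3 5 .stop)))))
 .stop)
 (.node [50,70,83,96] 4 6 (.node [96] 6 0 .stop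
 (.lc 2 0 (.node [96,118] 6 0 .stop
 (.lc 2 0 (.lc 3 0 .stop)))))
 (.node [50,64,83,101] 4 0 (.lc 0 0 .stop)
 (.node [50,71,83,101] 4 7 (.node [118] 5 3 (.far [1,4112,4096,256] 0 (.node [80] 7 6 (.lc 1 5 (.lc 1 5 (.lc 3 8 (.lc 3 9 (.lc 2 5 (.lc 0 8 (.lc 2 5 (.lc 3 0 (.lc 3 9 (.node [101] 6 5 .stop
 (.lc 0 8 (.lc 0 0 (.lc 0 8 (.lc 4 10 (.lc 0 0 (.lc 0 9 (.lc 0 0 (.lc 0 9 (.lc 0 0 (.lc 0 9 (.conf [8,134] (.lc 0 9 (.lc 0 0 (.lc 0 10 .stop))))))))))))))))))))))))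
 (.node [88,130] 7 6 (.lc 1 5 (.lc 1 5 (.lc 1 5 (.lc 3 8 (.lc 3 9 (.lc 3 0 (.lc 3 0 (.lc 3 9 (.lc 3 0 (.lc 3 8 (.lc 3 10 (.lc 2 5 (.lc 0 8 (.lc 0 9 (.lc 2 5 (.lc 2 5 (.lc 2 5 (.lc 2 5 (.lc 2 5 (.lc 2 5 (.lc 2 5 (.lc 3 8 (.lc 3 9 (.lc 3 0 (.lc 3 2 (.lc 3 9 (.lc 3 0 (.lc 3 8 (.lc 3 10 (.node [101] 6 5 (.lc 1 8 (.node [130] 8 2 (.far [4096,1,0,0,4112,1,257] 4096 (.node [32,137,146] 9 2 .stop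
 (.lc 3 10 (.node [32,138,146,169,146] 9 2 .stop
 (.lc 3 10 (.lc 4 11 .stop))))))
 (.lc 2 8 (.lc 1 2 (.lc 2 2 .stop)))))
 (.lc 0 8 (.lc 0 9 (.lc 0 0 (.lc 0 8 (.lc 0 9 (.lc 4 9 (.lc 4 8 (.lc 4 10 (.lc 4 9 (.lc 1 0 (.lc 4 0 (.lc 4 10 (.lc 4 8 (.lc 4 10 (.lc 4 0 (.lc 4 10 (.lc 4 0 (.lc 4 8 (.lc 4 11 (.lc 0 0 (.lc 0 9 (.lc 0 0 (.lc 0 8 (.lc 0 10 (.lc 0 0 (.lc 0 9 (.lc 0 0 (.lc 0 8 (.lc 0 10 (.lc 0 0 (.lc 0 9 (.lc 0 0 (.lc 0 8 (.lc 0 10 (.lc 2 2 (.lc 0 9 (.node [101,150] 6 5 (.lc 1 8 (.lc 0 8 (.lc 2 8 (.lc 1 2 (.lc 2 2 .stop)))))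
 (.lc 0 8 (.lc 0 10 (.lc 0 0 (.lc 0 10 (.lc 0 0 (.lc 0 10 (.lc 0 0 (.lc 0 8 (.lc 0 11 .stop))))))))))))))))))))))))))))))))))))))))))))))))))))))))))))))))))))))))))))
 (.node [80] 7 6 (.lc 1 5 (.lc 3 9 (.lc 0 8 (.lc 2 5 (.lc 3 9 (.conf [6,101] (.lc 0 8 (.lc 0 0 (.lc 0 8 (.lc 4 10 (.lc 0 9 (.lc 0 9 (.lc 0 0 (.lc 0 9 (.lc 0 9 (.lc 0 10 .stop))))))))))))))))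
 (.node [88,130] 7 6 (.lc 1 5 (.lc 1 5 (.lc 1 5 (.lc 3 9 (.lc 1 6 (.lc 3 0 (.lc 3 9 (.lc 3 0 (.lc 3 10 (.lc 2 5 (.lc 0 9 (.lc 2 5 (.lc 2 5 (.lc 2 5 (.lc 3 8 (.lc 3 9 (.lc 0 0 (.lc 3 0 (.lc 3 8 (.lc 3 10 (.node [101] 6 5 (.far [257,256,0,16,1] 0 (.lc 2 8 (.lc 2 3 (.node [88,149] 5 8 (.node [130] 9 8 (.lc 1 2 (.lc 1 0 (.lc 2 2 (.far [1,4096,1,0,0,4112,1,257] 4096 .stop))))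
 (.lc 2 10 (.lc 2 2 (.lc 3 11 (.lc 3 3 (.lc 0 10 (.lc 3 11 (.lc 2 2 (.lc 3 11 (.lc 3 3 (.lc 3 3 (.lc 3 2 (.lc 4 12 (.lc 4 3 (.lc 4 3 (.lc 4 3 (.lc 4 3 (.lc 5 3 .stop))))))))))))))))))
 (.lc 2 8 (.lc 3 8 .stop))))))
 (.lc 0 8 (.lc 0 9 (.lc 0 0 (.lc 0 8 (.lc 0 9 (.lc 4 10 (.lc 1 0 (.lc 4 10 (.lc 4 0 (.lc 4 11 (.lc 0 0 (.lc 0 10 (.lc 0 0 (.lc 0 9 (.lc 0 0 (.lc 0 10 (.lc 0 0 (.lc 0 8 (.lc 0 10 (.node [101,150] 6 5 (.far [257,256,0,16,1] 0 (.lc 2 8 (.lc 2 3 (.lc 0 10 (.lc 2 8 (.lc 3 8 .stop))))))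
 (.lc 0 10 (.lc 0 0 (.lc 0 11 .stop))))))))))))))))))))))))))))))))))))))))))))
 (.far [1,4112,4096,256] 0 (.far [1,4112,4096,256] 0 (.node [88,128] 7 6 (.lc 1 5 (.lc 1 5 (.lc 3 9 (.lc 3 10 (.lc 0 9 (.lc 2 5 (.lc 3 0 (.lc 3 8 (.lc 3 10 (.conf [6,101] (.lc 0 8 (.lc 0 9 (.lc 0 0 (.lc 0 8 (.lc 0 9 (.lc 4 11 (.lc 0 0 (.lc 0 10 (.lc 0 0 (.lc 0 9 (.lc 0 10 (.lc 0 0 (.lc 0 0 (.lc 0 8 (.lc 0 10 (.lc 2 6 (.lc 0 10 (.lc 0 0 (.lc 0 11 .stop)))))))))))))))))))))))))))))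
 (.node [89,152,130] 7 6 (.lc 1 5 (.lc 1 5 (.lc 1 5 (.lc 1 5 (.lc 3 10 (.lc 1 6 (.lc 3 0 (.lc 3 10 (.lc 3 0 (.lc 3 8 (.lc 3 10 (.lc 3 0 (.lc 3 11 (.lc 2 5 (.lc 0 10 (.lc 2 5 (.lc 2 5 (.lc 2 5 (.lc 2 5 (.lc 3 8 (.lc 3 9 (.lc 3 10 (.lc 0 0 (.lc 3 8 (.lc 3 0 (.lc 3 8 (.lc 3 9 (.lc 3 11 (.node [101] 6 5 (.lc 1 9 (.lc 1 8 (.lc 2 9 (.far [257,256,0,16,1] 0 (.node [152,169] 10 9 (.node [130] 10 8 (.lc 1 2 (.lc 1 0 (.lc 2 2 (.far [1,257,1,0,0,4112,1,257] 4096 .stop))))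
 (.lc 1 2 (.lc 1 2 (.lc 3 11 (.lc 2 2 .stop)))))
 .stop)))))
 (.lc 0 8 (.lc 0 9 (.lc 0 10 (.lc 0 0 (.lc 0 8 (.lc 0 9 (.lc 0 10 (.lc 4 8 (.lc 4 11 (.lc 1 0 (.lc 4 0 (.lc 4 10 (.lc 4 11 (.lc 4 8 (.lc 4 0 (.lc 4 12 (.lc 0 8 (.lc 0 0 (.lc 0 11 (.lc 0 0 (.lc 0 10 (.lc 0 0 (.lc 0 8 (.lc 0 10 (.lc 0 0 (.lc 0 11 (.lc 0 8 (.lc 0 0 (.lc 0 8 (.lc 0 9 (.lc 0 11 (.lc 0 8 (.node [101,166] 6 5 (.lc 1 9 (.lc 1 8 (.lc 2 9 (.far [257,256,0,16,1] 0 (.lc 0 11 .stop)))))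
 (.lc 0 11 (.lc 0 0 (.lc 0 10 (.lc 0 8 (.lc 0 0 (.lc 0 12 .stop))))))))))))))))))))))))))))))))))))))))))))))))))))))))))))))))))))
 .stop)))))))))
 (.lc 0 0 (.lc 2 6 (.lc 0 0 (.node [118,135] 5 3 (.far [1,4112,4096,256] 0 (.node [80] 8 7 (.lc 1 6 (.lc 1 6 (.lc 1 5 (.lc 2 6 (.lc 2 6 (.lc 2 6 (.node [101,128] 0 6 .stop
 (.node [101,137] 6 5 (.lc 1 0 (.node [144] 8 9 (.lc 2 10 (.lc 1 1 (.lc 0 10 (.lc 3 11 (.far [256,1,0,0,16,1] 0 .stop)))))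
 (.lc 2 0 (.far [257,16,0,16,1] 0 (.far [256,16,256,256,0,4096] 0 .stop)))))
 (.lc 1 5 (.lc 1 5 (.lc 2 6 (.lc 2 6 (.node [101,138,150] 6 5 (.lc 1 0 (.lc 0 0 (.lc 2 0 (.far [257,16,0,16,1] 0 (.lc 0 11 .stop)))))
 (.lc 3 6 (.lc 2 5 (.lc 4 9 (.lc 4 10 (.lc 4 0 (.lc 4 10 (.lc 5 11 .stop))))))))))))))))))))
 (.lc 0 7 (.node [89,146] 8 7 (.lc 1 6 (.lc 1 6 (.lc 1 6 (.lc 1 5 (.lc 1 5 (.lc 1 5 (.lc 2 6 (.lc 2 6 (.lc 2 6 (.lc 2 6 (.lc 2 6 (.lc 2 6 (.lc 2 6 (.lc 2 6 (.lc 2 6 (.lc 2 6 (.lc 2 6 (.lc 2 6 (.lc 2 6 (.lc 2 6 (.lc 2 6 (.node [101,128] 0 6 (.lc 0 9 (.lc 0 2 .stop))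
 (.node [101,137,146] 9 6 .stop
 (.node [101,138] 6 5 (.lc 1 9 (.node [169,146] 8 10 (.lc 2 0 (.lc 2 11 (.lc 3 0 (.lc 3 11 (.lc 2 9 (.lc 0 11 (.lc 3 11 (.lc 3 0 (.lc 3 12 (.lc 3 0 (.lc 3 11 (.lc 0 9 (.lc 0 0 (.lc 4 11 (.lc 4 0 (.lc 4 12 (.lc 0 0 (.lc 0 0 (.lc 0 0 (.lc 2 2 (.lc 0 11 (.lc 0 0 .stop))))))))))))))))))))))
 (.lc 2 9 (.lc 2 9 (.lc 1 2 (.lc 2 2 (.lc 2 2 .stop)))))))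
 (.lc 1 5 (.lc 1 5 (.lc 1 5 (.lc 2 6 (.lc 2 6 (.lc 2 6 (.lc 2 6 (.lc 2 6 (.lc 2 6 (.lc 2 6 (.lc 2 6 (.lc 0 2 (.node [101,138,160] 0 6 .stop
 (.lc 1 2 (.lc 1 2 (.node [101,128,166] 8 0 .stop
 (.lc 0 2 (.node [101,139,166] 6 5 (.lc 1 9 (.lc 0 9 (.lc 2 9 (.lc 2 9 (.lc 1 2 (.lc 2 2 (.lc 2 2 .stop)))))))
 (.lc 3 6 (.lc 3 6 (.lc 3 6 (.lc 3 6 (.lc 1 0 (.lc 3 6 (.lc 3 6 (.lc 3 6 (.lc 3 6 (.lc 3 6 (.lc 3 6 (.lc 3 6 (.lc 3 6 (.lc 3 6 (.lc 2 5 (.lc 2 5 (.lc 2 5 (.lc 2 5 (.lc 2 5 (.lc 2 5 (.lc 2 5 (.lc 4 9 (.lc 4 10 (.lc 4 0 (.lc 4 0 (.lc 4 10 (.lc 4 0 (.lc 4 9 (.lc 4 11 (.lc 4 9 (.lc 4 10 (.lc 4 0 (.lc 4 2 (.lc 4 10 (.lc 4 0 (.lc 4 9 (.lc 4 11 (.lc 5 10 (.lc 5 9 (.lc 5 11 (.lc 5 10 (.lc 1 0 (.lc 5 0 (.lc 5 11 (.lc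 5 9 (.lc 5 11 (.lc 5 0 (.lc 5 11 (.lc 5 0 (.lc 5 9 (.lc 5 12 .stop)))))))))))))))))))))))))))))))))))))))))))))))))))))))))))))))))))))))))))))))))))))))))))))
 (.node [80] 8 7 (.lc 1 6 (.lc 1 5 (.lc 2 6 (.lc 2 6 (.node [101,137] 6 5 (.far [257,16,0,16,1] 0 (.lc 2 0 (.node [80,154] 8 9 (.lc 2 11 (.lc 3 11 (.lc 0 11 (.lc 3 12 (.lc 3 11 (.lc 0 10 (.lc 0 0 (.lc 4 12 (.lc 0 0 (.lc 0 11 .stop))))))))))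
 (.lc 2 0 (.lc 3 0 .stop)))))
 (.lc 1 5 (.lc 2 6 (.node [101,138,150] 6 5 (.far [257,16,0,16,1] 0 (.lc 2 0 (.lc 0 11 (.lc 2 0 (.lc 3 0 .stop)))))
 (.lc 3 6 (.lc 2 5 (.lc 4 10 (.lc 4 10 (.lc 5 11 .stop)))))))))))))
 (.node [89,146] 8 7 (.lc 1 6 (.lc 1 6 (.lc 1 6 (.lc 1 5 (.lc 1 5 (.lc 2 6 (.lc 2 6 (.lc 0 0 (.lc 2 6 (.lc 2 6 (.lc 2 6 (.lc 2 6 (.lc 2 6 (.lc 2 6 (.node [101,128] 0 6 (.conf [5,89] (.lc 1 9 .stop))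
 (.lc 0 2 (.node [101,138] 6 5 (.far [257,16,0,16,1] 0 (.lc 2 9 (.lc 2 9 (.node [89,160] 0 5 .stop
 (.lc 2 3 (.node [89,171] 8 10 (.lc 2 0 (.lc 2 9 (.lc 2 12 (.lc 3 0 (.lc 3 12 (.lc 2 11 (.lc 0 12 (.lc 3 12 (.lc 3 0 (.lc 3 13 (.lc 3 0 (.lc 3 9 (.lc 3 12 (.lc 0 11 (.lc 0 0 (.lc 4 12 (.lc 4 0 (.lc 4 13 (.lc 0 0 (.lc 0 0 (.lc 0 0 (.far [256,257,16,0,16,1] 0 (.lc 0 12 (.lc 0 0 .stop))))))))))))))))))))))))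
 (.lc 2 9 (.lc 2 9 (.lc 3 9 (.lc 3 9 (.lc 3 9 .stop)))))))))))
 (.lc 1 5 (.lc 1 5 (.lc 1 5 (.lc 2 6 (.lc 1 7 (.lc 2 6 (.lc 2 6 (.lc 2 6 (.lc 2 6 (.node [101,138,160] 0 6 .stop
 (.node [101,128,166] 8 0 .stop
 (.node [101,139,166] 6 5 (.far [257,16,0,16,1] 0 (.lc 2 9 (.lc 2 9 (.lc 0 0 (.lc 2 3 (.lc 0 12 (.lc 2 9 (.lc 2 9 (.lc 3 9 (.lc 3 9 (.lc 3 9 .stop)))))))))))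
 (.lc 3 6 (.lc 1 0 (.lc 3 6 (.lc 3 6 (.lc 3 6 (.lc 2 5 (.lc 2 5 (.lc 2 5 (.lc 4 10 (.lc 1 6 (.lc 4 0 (.lc 4 10 (.lc 4 0 (.lc 4 11 (.lc 4 9 (.lc 4 10 (.lc 0 0 (.lc 4 0 (.lc 4 9 (.lc 4 11 (.lc 5 11 (.lc 1 0 (.lc 5 11 (.lc 5 0 (.lc 5 12 .stop))))))))))))))))))))))))))))))))))))))))))))))))))))))
 (.far [1,4112,4096,256] 0 (.far [1,4112,4096,256] 0 (.node [89,144] 8 7 (.lc 1 6 (.lc 1 6 (.lc 1 5 (.lc 2 6 (.lc 2 6 (.lc 2 6 (.lc 2 6 (.lc 0 0 (.node [101,138] 6 5 (.lc 1 9 (.lc 1 0 (.lc 2 9 (.far [257,16,0,16,1] 0 (.node [144,171] 11 9 (.conf [1,176] (.lc 0 8 (.lc 3 12 .stop)))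
 .stop)))))
 (.lc 1 5 (.lc 1 5 (.lc 2 6 (.lc 2 6 (.node [101,139,166] 6 5 (.lc 1 9 (.lc 1 0 (.lc 2 9 (.far [257,16,0,16,1] 0 (.lc 0 12 .stop)))))
 (.lc 3 6 (.lc 2 5 (.lc 4 10 (.lc 4 11 (.lc 4 0 (.lc 4 9 (.lc 4 11 (.lc 5 12 .stop))))))))))))))))))))))
 (.node [90,169,146] 8 7 (.lc 1 6 (.lc 1 6 (.lc 1 6 (.lc 1 6 (.lc 1 5 (.lc 1 5 (.lc 2 6 (.lc 2 6 (.lc 2 6 (.lc 0 0 (.lc 2 6 (.lc 2 6 (.lc 2 6 (.lc 2 6 (.lc 2 6 (.lc 2 6 (.lc 2 6 (.lc 2 6 (.lc 2 6 (.node [101,128] 0 6 (.lc 0 10 (.conf [10,169] .stop))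
 (.lc 0 2 (.lc 0 9 (.node [101,139] 6 5 (.lc 1 10 (.lc 1 9 (.lc 2 10 (.lc 2 10 (.far [257,16,0,16,1] 0 (.node [169,176] 0 10 .stop
 (.node [169,188] 12 10 (.node [146] 11 12 (.lc 2 0 (.lc 2 13 (.lc 1 2 (.lc 1 2 (.lc 0 0 (.lc 0 13 (.lc 3 13 (.lc 3 0 (.lc 3 14 (.lc 0 0 (.lc 0 9 (.lc 1 12 (.lc 1 0 (.lc 1 0 .stop))))))))))))))
 (.lc 1 2 (.lc 1 2 (.lc 1 2 (.lc 1 2 (.lc 3 0 (.lc 3 13 (.lc 2 2 (.lc 2 2 (.lc 2 2 .stop))))))))))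
 .stop)))))))
 (.lc 1 5 (.lc 1 5 (.lc 1 5 (.lc 1 5 (.lc 2 6 (.lc 1 7 (.lc 2 6 (.lc 2 6 (.lc 2 6 (.lc 2 6 (.lc 2 6 (.lc 2 6 (.lc 2 6 (.node [101,139,176] 0 6 .stop
 (.lc 0 2 (.node [101,128,182] 8 0 .stop
 (.node [101,140,182] 6 5 (.lc 1 10 (.lc 1 9 (.lc 2 10 (.lc 2 10 (.far [257,16,0,16,1] 0 (.lc 0 0 (.lc 0 13 .stop)))))))
 (.lc 3 6 (.lc 3 6 (.lc 1 0 (.lc 3 6 (.lc 3 6 (.lc 3 6 (.lc 3 6 (.lc 3 6 (.lc 3 6 (.lc 2 5 (.lc 2 5 (.lc 2 5 (.lc 2 5 (.lc 4 11 (.lc 1 6 (.lc 4 0 (.lc 4 11 (.lc 4 0 (.lc 4 9 (.lc 4 11 (.lc 4 0 (.lc 4 12 (.lc 4 9 (.lc 4 10 (.lc 4 11 (.lc 0 0 (.lc 4 9 (.lc 4 0 (.lc 4 9 (.lc 4 10 (.lc 4 12 (.lc 5 9 (.lc 5 12 (.lc 1 0 (.lc 5 0 (.lc 5 11 (.lc 5 12 (.lc 5 9 (.lc 5 0 (.lc 5 13 .stop))))))))))))))))))))))))))))))))))))))))))))))))))))))))))))))))))))))))))))))))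
 .stop))))))))))
 (.lc 0 0 (.lc 2 6 (.lc 0 0 (.lc 3 6 .stop)))))))))
 (.node [50,70,101,80] 0 3 (.node [] 4 6 (.node [101] 6 5 (.lc 2 7 (.lc 2 0 (.lc 0 7 (.lc 3 8 (.lc 2 0 (.lc 0 7 (.lc 0 7 (.lc 3 0 (.lc 0 8 (.lc 0 8 (.lc 0 8 (.lc 0 8 (.lc 0 9 .stop)))))))))))))
 (.lc 2 5 (.node [101,118] 7 6 (.lc 1 5 (.node [80,133,80] 7 8 (.lc 2 9 (.lc 3 10 (.lc 0 9 (.lc 3 10 (.lc 3 10 (.lc 0 9 (.lc 4 11 (.lc 0 10 .stop))))))))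
 (.lc 2 5 (.lc 2 5 (.lc 1 0 (.lc 3 8 (.lc 2 5 (.lc 2 0 (.lc 3 5 (.lc 4 9 (.lc 2 0 (.lc 2 0 (.lc 3 0 .stop)))))))))))))
 (.lc 2 5 (.lc 3 5 .stop)))))
 .stop)
 (.node [50,70,83,96] 4 6 (.node [96] 6 0 (.lc 2 7 (.lc 3 8 .stop))
 (.lc 2 0 (.node [96,118] 6 0 (.lc 2 8 (.conf [5,128] (.lc 3 9 (.lc 0 8 (.lc 0 9 .stop)))))
 (.lc 2 0 (.lc 3 0 .stop)))))
 (.node [50,64,83,101] 4 0 (.lc 0 0 .stop)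
 (.node [50,71,83,118] 4 7 (.node [118] 5 3 (.node [82] 7 6 (.lc 2 0 (.lc 0 0 (.lc 2 8 (.lc 2 5 (.lc 1 6 (.lc 1 0 (.lc 2 5 (.lc 2 5 (.node [101] 6 5 (.lc 1 2 (.lc 1 2 (.lc 0 1 (.lc 1 0 (.lc 2 2 (.lc 2 2 (.lc 1 0 (.lc 1 0 (.lc 1 0 (.lc 2 2 (.lc 2 0 (.lc 3 2 (.lc 2 0 (.lc 2 0 (.lc 2 0 (.lc 3 0 .stop))))))))))))))))
 (.lc 0 8 (.lc 3 8 (.lc 1 6 (.lc 3 0 (.lc 3 9 (.lc 2 5 (.lc 1 6 (.lc 2 5 (.lc 0 0 (.lc 2 5 (.lc 2 5 (.lc 0 8 (.lc 0 0 (.lc 0 8 (.lc 3 5 (.lc 2 6 (.lc 3 5 (.lc 1 8 (.lc 3 5 (.lc 3 5 (.lc 0 0 (.lc 0 9 (.lc 0 0 (.lc 0 9 (.lc 0 0 (.lc 0 9 (.lc 3 5 (.lc 0 9 (.lc 0 0 (.lc 0 10 .stop)))))))))))))))))))))))))))))))))))))))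
 (.lc 3 0 (.lc 3 8 (.node [80] 7 6 (.lc 2 8 (.lc 2 5 (.lc 0 8 (.lc 3 9 (.lc 2 5 (.lc 2 5 (.lc 0 8 (.lc 0 0 (.lc 0 8 (.lc 3 5 (.lc 0 9 (.lc 0 9 (.lc 0 0 (.lc 0 9 (.lc 0 9 (.lc 0 10 .stop))))))))))))))))
 (.node [88,130] 5 8 (.lc 2 0 (.lc 0 7 (.lc 2 9 (.lc 0 7 (.lc 3 9 (.lc 1 7 (.lc 3 0 (.lc 3 10 (.node [96,130] 0 8 .stop
 (.node [105,130] 7 6 (.lc 1 9 (.lc 2 9 (.lc 1 9 (.lc 2 9 (.lc 1 6 (.lc 2 9 (.lc 2 9 (.lc 2 9 (.lc 0 9 (.lc 0 10 (.lc 2 9 (.lc 3 0 (.lc 3 10 (.lc 2 9 (.lc 2 9 (.lc 2 9 (.lc 2 9 (.lc 2 9 (.lc 2 9 (.lc 0 10 (.lc 0 0 (.lc 0 9 (.lc 0 10 (.lc 3 9 (.lc 3 9 (.lc 3 9 (.lc 3 9 (.lc 0 0 (.lc 0 10 (.lc 0 0 (.lc 0 11 (.lc 0 0 (.lc 0 11 (.lc 0 0 (.lc 0 11 (.lc 3 9 (.lc 0 11 (.lc 0 0 (.lc 0 12 .stop)))))))))))))))))))))))))))))))))))))))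
 (.lc 0 7 (.lc 3 9 (.lc 3 0 (.lc 3 10 (.lc 0 7 (.lc 3 9 (.lc 3 0 (.lc 0 7 (.lc 3 10 (.lc 2 2 (.lc 1 7 (.lc 2 2 (.lc 0 0 (.lc 1 7 (.lc 0 9 (.lc 1 7 (.lc 4 10 (.lc 0 7 (.lc 4 10 (.lc 4 0 (.lc 4 11 (.lc 1 7 (.lc 0 9 (.lc 0 0 (.lc 0 10 (.lc 1 7 (.lc 0 9 (.lc 2 7 (.lc 0 0 (.lc 0 10 (.lc 1 7 (.lc 0 9 (.lc 0 0 (.lc 1 7 (.lc 0 10 (.lc 1 7 (.lc 3 2 (.lc 3 2 (.lc 3 2 (.lc 2 7 (.lc 0 10 (.lc 1 7 (.lc 0 10 (.lc 0 0 (.lc 0 11 .stop)))))))))))))))))))))))))))))))))))))))))))))))))))))))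
 (.lc 3 0 (.lc 3 8 (.lc 4 8 (.lc 4 9 .stop)))))))))
 (.lc 0 0 (.lc 2 6 (.lc 0 0 (.node [118,135] 5 3 (.node [82] 8 7 (.lc 1 6 (.lc 0 0 (.lc 1 6 (.node [101,128] 8 0 .stop
 (.node [101,137] 6 5 (.lc 1 2 (.lc 1 2 (.lc 1 2 (.lc 3 0 (.lc 1 0 (.lc 1 0 (.lc 0 8 (.lc 2 2 (.lc 2 2 (.lc 2 2 (.lc 2 2 (.lc 2 2 (.lc 2 2 (.lc 2 2 (.lc 2 2 (.lc 1 0 (.lc 1 0 (.lc 1 0 (.lc 3 0 (.lc 1 0 (.lc 2 2 (.lc 2 2 (.lc 2 2 (.lc 2 0 (.lc 2 0 (.lc 2 0 (.lc 2 0 (.lc 3 2 (.lc 3 2 (.lc 3 2 (.lc 3 2 (.lc 4 10 (.lc 2 0 (.lc 2 0 (.lc 2 0 (.lc 2 0 (.lc 2 0 (.lc 3 0 (.lc 3 0 .stop)))))))))))))))))))))))))))))))))))))))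
 (.lc 2 6 (.lc 1 7 (.lc 2 6 (.lc 0 0 (.lc 2 6 (.lc 2 6 (.lc 1 7 (.lc 2 6 (.lc 2 6 (.lc 1 5 (.lc 0 0 (.lc 1 5 (.lc 3 0 (.lc 0 0 (.lc 3 9 (.lc 2 6 (.lc 1 7 (.lc 1 0 (.lc 2 6 (.lc 2 6 (.lc 2 5 (.lc 1 6 (.lc 2 5 (.lc 2 5 (.lc 3 6 (.lc 2 7 (.lc 3 6 (.lc 1 9 (.lc 3 6 (.lc 3 6 (.lc 4 9 (.lc 1 6 (.lc 4 0 (.lc 4 10 (.lc 2 5 (.lc 1 6 (.lc 1 0 (.lc 2 5 (.lc 2 5 (.lc 2 5 (.lc 1 6 (.lc 2 5 (.lc 0 0 (.lc 2 5 (.lc 3 5 (.lc 2 6 (.lc 3 5 (.lc 1 9 (.lc 3 5 (.lc 3 5 .stop)))))))))))))))))))))))))))))))))))))))))))))))))))))))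
 (.lc 3 0 (.lc 3 8 (.lc 3 9 (.node [80] 8 7 (.lc 1 6 (.node [101,137] 6 5 (.lc 1 0 (.lc 1 0 (.conf [1,144] (.lc 3 10 (.lc 2 0 (.lc 2 0 (.lc 2 0 (.lc 0 8 (.lc 0 8 (.lc 3 10 (.lc 2 0 (.lc 3 0 (.lc 4 11 (.lc 1 8 .stop))))))))))))))
 (.lc 2 6 (.lc 2 6 (.lc 1 5 (.lc 3 9 (.lc 2 6 (.lc 2 5 (.lc 3 6 (.lc 4 10 (.lc 2 5 (.lc 2 5 (.lc 3 5 .stop)))))))))))))
 (.node [89,146] 8 7 (.lc 1 6 (.lc 1 6 (.lc 1 6 (.node [101,128] 8 0 .stop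
 (.node [101,138] 6 5 (.lc 1 9 (.lc 1 9 (.lc 1 9 (.lc 3 0 (.node [146] 10 9 (.lc 0 9 .stop)
 (.lc 3 11 (.lc 0 8 (.lc 2 9 (.lc 2 9 (.lc 2 9 (.lc 2 9 (.lc 2 9 (.lc 2 9 (.lc 2 9 (.lc 2 9 (.lc 3 0 (.lc 1 2 (.lc 3 11 (.lc 3 0 (.lc 3 11 (.lc 2 9 (.lc 2 9 (.lc 2 9 (.lc 2 2 (.lc 4 11 (.lc 4 0 (.lc 2 2 (.lc 4 12 (.lc 3 9 (.lc 3 9 (.lc 3 9 (.lc 3 9 (.lc 4 11 (.lc 4 0 (.lc 4 12 (.lc 4 11 (.lc 4 0 (.lc 4 12 (.lc 0 8 (.lc 4 11 (.lc 4 0 (.lc 4 12 (.lc 5 12 (.lc 5 12 (.lc 5 0 (.lc 5 13 .stop))))))))))))))))))))))))))))))))))))))))))))))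
 (.lc 2 6 (.lc 2 6 (.lc 0 0 (.lc 2 6 (.lc 2 6 (.lc 2 6 (.lc 2 6 (.lc 2 6 (.lc 2 6 (.lc 1 5 (.lc 1 5 (.lc 1 5 (.lc 3 0 (.lc 3 9 (.lc 3 10 (.lc 2 6 (.lc 1 7 (.lc 2 6 (.lc 2 6 (.lc 2 6 (.lc 2 6 (.lc 2 5 (.lc 2 5 (.lc 2 5 (.lc 3 6 (.lc 1 0 (.lc 3 6 (.lc 3 6 (.lc 3 6 (.lc 4 10 (.lc 4 0 (.lc 4 11 (.lc 2 5 (.lc 1 6 (.lc 2 5 (.lc 2 5 (.lc 2 5 (.lc 2 5 (.lc 2 5 (.lc 2 5 (.lc 0 0 (.lc 2 5 (.lc 2 5 (.lc 2 5 (.lc 3 5 (.lc 1 0 (.lc 3 5 (.lc 3 5 (.lc 3 5 .stop))))))))))))))))))))))))))))))))))))))))))))))))))))))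
 (.lc 3 0 (.lc 3 9 (.lc 4 9 (.lc 4 10 .stop))))))))))
 (.lc 0 0 (.lc 2 6 (.lc 0 0 (.lc 3 6 .stop)))))))))
 (.node [50,70,101,80] 0 3 (.node [] 4 6 (.far [257,16,256,4096] 0 (.node [101,118] 6 5 (.lc 2 8 (.lc 2 0 (.node [80,133,120] 8 5 (.lc 1 0 (.lc 2 0 (.lc 2 0 (.lc 0 7 (.lc 2 0 (.lc 3 0 .stop))))))
 (.lc 3 9 (.lc 2 0 (.lc 2 0 (.lc 0 8 (.lc 3 0 (.lc 0 9 (.lc 3 0 (.lc 3 0 (.lc 3 0 (.lc 4 0 .stop)))))))))))))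
 (.node [101,118] 7 6 (.lc 1 4 (.node [101,120] 6 5 (.far [257,16,256,272,257,4097] 4096 (.lc 2 9 (.lc 2 0 (.lc 2 0 (.lc 3 4 (.node [80,137] 7 8 (.lc 2 10 (.lc 3 10 (.lc 0 10 (.lc 3 11 (.lc 3 10 (.lc 0 9 (.lc 4 11 (.lc 0 10 .stop))))))))
 (.lc 3 10 (.lc 2 0 (.lc 2 0 (.lc 2 0 (.lc 3 4 (.lc 3 0 (.lc 3 0 (.lc 4 4 (.lc 3 0 (.lc 3 0 (.lc 3 0 (.lc 4 0 .stop))))))))))))))))))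
 (.lc 2 5 (.lc 1 0 (.lc 3 9 (.lc 1 0 (.node [101,121,134] 8 6 (.far [16,16,256,272,257,4097] 4096 (.lc 1 5 (.lc 2 4 (.lc 1 0 (.lc 2 5 (.lc 1 0 (.lc 2 5 (.lc 1 0 (.lc 2 4 (.lc 3 10 (.lc 2 5 (.lc 2 0 (.lc 2 0 (.lc 3 5 (.lc 3 4 (.lc 2 0 (.lc 2 0 (.lc 3 0 .stop))))))))))))))))))
 (.lc 2 5 (.lc 2 5 (.lc 2 4 (.lc 3 9 (.lc 3 5 (.lc 2 0 (.lc 4 10 (.lc 3 5 (.lc 3 5 (.lc 3 5 (.lc 4 5 .stop))))))))))))))))))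
 (.far [257,16,256,4096] 0 (.node [101,118,135] 7 6 (.lc 1 5 (.lc 3 9 (.lc 2 5 (.lc 2 5 (.lc 1 0 (.node [80,121] 8 7 (.far [16,256,256,16,257,4096] 0 (.lc 3 10 (.far [16,256,256,16,257,4096] 0 (.lc 3 10 (.lc 4 11 .stop)))))
 (.lc 2 5 (.lc 2 0 (.lc 3 5 (.node [80,122,149] 8 7 (.node [138] 8 10 (.lc 2 11 (.lc 3 11 (.lc 0 11 (.lc 3 12 (.lc 3 11 (.lc 0 9 (.lc 4 12 (.lc 0 11 .stop))))))))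
 (.lc 3 11 (.lc 1 9 (.lc 3 11 (.lc 4 12 .stop)))))
 (.lc 2 0 (.lc 2 0 (.lc 3 0 .stop)))))))))))))
 .stop)))))
 .stop)
 (.node [50,70,83,96] 5 3 (.node [82] 0 5 .stop
 (.lc 3 7 (.node [87,114] 0 5 .stop
 (.lc 3 7 (.lc 4 8 .stop)))))
 (.node [50,64,83,101] 4 0 (.lc 0 0 .stop)
 (.node [50,71,83,101] 5 3 (.node [82] 4 7 (.far [257,16,256,4096] 0 (.lc 0 0 (.node [118,135] 7 6 (.lc 2 0 (.lc 0 0 (.lc 2 9 (.lc 2 5 (.lc 1 6 (.lc 1 0 (.lc 2 5 (.lc 2 5 (.node [101,128] 0 6 (.lc 0 6 (.lc 0 9 (.node [] 1 8 (.far [16,257,1,4112,0,1,257] 4096 (.node [25,128,152] 1 9 .stop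
 (.lc 2 0 (.node [26,128,152,169,152] 1 10 .stop
 (.lc 2 0 (.lc 3 0 .stop))))))
 .stop)))
 (.node [101,150,137] 6 5 (.lc 1 2 (.lc 1 2 (.lc 3 0 (.lc 1 0 (.lc 2 2 (.lc 2 2 (.lc 2 2 (.lc 2 2 (.lc 2 2 (.lc 1 0 (.lc 1 0 (.lc 1 0 (.lc 2 2 (.lc 2 2 (.lc 2 0 (.lc 2 0 (.lc 3 2 (.lc 3 2 (.lc 3 2 (.lc 0 0 (.lc 2 0 (.lc 2 0 (.lc 2 0 (.lc 2 0 (.lc 2 0 (.lc 3 0 (.lc 3 0 .stop)))))))))))))))))))))))))))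
 (.lc 3 9 (.lc 1 6 (.lc 3 0 (.lc 3 10 (.lc 2 5 (.lc 1 6 (.lc 2 5 (.lc 0 0 (.lc 2 5 (.lc 2 5 (.lc 1 0 (.lc 2 5 (.lc 0 0 (.lc 1 0 (.lc 0 9 (.lc 3 5 (.lc 2 6 (.lc 3 5 (.lc 1 9 (.lc 3 5 (.lc 3 5 (.lc 0 9 (.lc 2 6 (.lc 0 0 (.lc 0 10 (.lc 3 5 (.lc 2 6 (.lc 2 0 (.lc 3 5 (.lc 3 5 (.lc 3 5 (.lc 2 6 (.lc 3 5 (.lc 1 0 (.lc 3 5 (.lc 3 5 (.lc 2 6 (.lc 3 5 (.lc 3 5 (.lc 4 5 (.lc 3 6 (.lc 4 5 (.lc 2 9 (.lc 4 5 (.lc 4 5 .stop)))))))))))))))))))))))))))))))))))))))))))))))))))))))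
 (.lc 0 0 (.node [118,135] 6 5 (.lc 1 2 (.lc 1 2 (.lc 1 2 (.lc 3 0 (.lc 1 0 (.lc 0 8 (.lc 2 2 (.lc 2 2 (.lc 2 2 (.lc 2 2 (.lc 2 2 (.lc 2 2 (.lc 2 2 (.lc 2 2 (.lc 1 0 (.lc 1 0 (.lc 1 0 (.node [96] 7 6 (.far [1,4096,0,4112,257] 0 (.lc 3 9 (.lc 3 4 (.node [121,144] 8 7 (.node [137] 8 9 (.lc 2 10 (.lc 0 10 (.lc 3 11 (.far [256,0,1,1,4112,0,1,257] 4096 .stop))))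
 (.lc 1 9 (.lc 2 4 (.lc 3 10 (.lc 2 9 (.lc 1 0 (.lc 2 9 (.lc 2 4 (.lc 2 4 (.lc 3 10 (.lc 2 9 (.lc 3 4 (.lc 4 11 (.lc 3 9 (.lc 3 4 (.lc 3 4 (.lc 3 4 (.lc 4 4 .stop))))))))))))))))))
 (.lc 3 9 (.lc 4 10 .stop))))))
 (.lc 1 0 (.lc 1 0 (.lc 2 2 (.lc 1 5 (.lc 2 2 (.lc 2 2 (.lc 2 2 (.lc 2 2 (.lc 2 0 (.lc 2 0 (.lc 1 0 (.lc 3 2 (.lc 3 2 (.lc 3 2 (.lc 3 2 (.node [105,144] 7 6 (.far [1,4096,0,4112,257] 0 (.lc 3 10 (.lc 3 4 (.lc 1 0 (.lc 3 10 (.lc 4 11 .stop))))))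
 (.lc 2 0 (.lc 2 0 (.lc 2 0 (.lc 2 0 (.lc 2 0 (.lc 2 0 (.lc 2 0 (.lc 2 0 (.lc 3 0 (.lc 3 0 .stop))))))))))))))))))))))))))))))))))))))))))))
 (.lc 0 0 (.far [257,16,256,4096] 0 (.lc 0 0 (.node [118,135,152] 8 7 (.lc 1 6 (.lc 0 0 (.lc 1 6 (.lc 3 0 (.lc 3 10 (.lc 2 6 (.lc 1 7 (.lc 2 6 (.lc 0 0 (.lc 2 6 (.lc 2 6 (.lc 1 7 (.lc 2 6 (.lc 2 6 (.lc 1 5 (.lc 0 0 (.lc 1 5 (.node [101,128] 8 0 (.conf [6,144] (.lc 0 10 .stop))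
 (.lc 0 0 (.node [101,138] 9 8 (.far [16,256,256,16,257,4096] 0 (.lc 3 0 (.lc 0 0 (.lc 3 11 (.far [16,256,256,16,257,4096] 0 (.far [16,256,256,16,257,4096] 0 (.lc 3 0 (.lc 3 11 (.lc 4 11 (.lc 1 10 (.lc 4 0 (.lc 4 12 .stop))))))))))))
 (.lc 2 6 (.lc 1 7 (.lc 1 0 (.lc 2 6 (.lc 2 6 (.lc 2 5 (.lc 1 6 (.lc 2 5 (.lc 2 5 (.lc 3 6 (.lc 2 7 (.lc 3 6 (.lc 1 10 (.lc 3 6 (.lc 3 6 (.node [101,138,160] 0 6 (.lc 0 6 (.lc 0 11 (.node [] 9 8 (.node [154] 9 10 (.lc 2 11 (.lc 0 11 (.lc 3 12 (.far [256,0,257,257,4112,0,1,257] 4096 .stop))))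
 (.lc 3 11 (.lc 1 0 (.lc 3 11 (.lc 4 12 .stop)))))
 .stop)))
 (.lc 1 6 (.node [101,128,166] 8 0 .stop
 (.node [101,139,166] 9 8 (.node [155] 6 5 (.lc 1 2 (.lc 1 2 (.lc 3 0 (.lc 1 0 (.lc 2 2 (.lc 2 2 (.lc 2 2 (.lc 2 2 (.lc 2 2 (.lc 1 0 (.lc 1 0 (.lc 1 0 (.lc 2 2 (.lc 2 2 (.lc 2 0 (.lc 2 0 (.lc 3 2 (.lc 3 2 (.lc 3 2 (.lc 0 0 (.lc 2 0 (.lc 2 0 (.lc 2 0 (.lc 2 0 (.lc 2 0 (.lc 3 0 (.lc 3 0 .stop)))))))))))))))))))))))))))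
 (.lc 3 0 (.lc 0 0 (.lc 3 12 (.lc 1 10 (.lc 1 10 (.lc 3 0 (.lc 3 12 (.lc 4 12 (.lc 1 11 (.lc 4 0 (.lc 4 13 .stop))))))))))))
 (.lc 2 5 (.lc 1 6 (.lc 1 0 (.lc 2 5 (.lc 2 5 (.lc 2 5 (.lc 1 6 (.lc 2 5 (.lc 0 0 (.lc 2 5 (.lc 3 5 (.lc 2 6 (.lc 3 5 (.lc 1 10 (.lc 3 5 (.lc 3 5 .stop)))))))))))))))))))))))))))))))))))))))))))))))))))))))
 .stop)))))))))
 (.lc 3 0 (.lc 3 8 (.node [80] 4 7 (.far [257,16,256,4096] 17 (.lc 0 0 (.node [118,135] 7 6 (.lc 2 9 (.lc 2 5 (.node [101,150,137] 6 5 (.lc 1 0 (.lc 3 10 (.lc 2 0 (.lc 2 0 (.lc 0 8 (.conf [1,144] (.lc 2 0 (.lc 3 0 (.lc 0 10 (.lc 1 8 .stop))))))))))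
 (.lc 3 10 (.lc 2 5 (.lc 2 5 (.lc 0 9 (.lc 3 5 (.lc 0 10 (.lc 3 5 (.lc 3 5 (.lc 3 5 (.lc 4 5 .stop)))))))))))))
 (.node [118,135] 6 5 (.lc 1 0 (.lc 1 0 (.lc 3 9 (.lc 2 0 (.lc 2 0 (.lc 2 0 (.lc 0 8 (.lc 0 8 (.lc 0 7 (.node [1,105] 7 6 (.conf [121,144] (.lc 3 10 (.lc 3 4 (.lc 1 0 (.lc 3 10 (.lc 4 11 .stop))))))
 (.lc 1 5 (.lc 2 0 (.lc 2 0 (.lc 1 0 (.lc 3 0 (.lc 1 0 (.conf [1,144] (.node [104] 6 8 (.lc 0 4 .stop)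
 (.lc 1 8 (.lc 1 0 (.lc 2 0 .stop)))))))))))))))))))))
 (.far [257,16,256,4096] 17 (.node [118,135,152] 8 7 (.lc 1 6 (.lc 3 10 (.lc 2 6 (.lc 2 6 (.lc 1 5 (.node [101,138] 9 8 (.far [16,256,256,16,257,4096] 17 (.lc 3 11 (.far [16,256,256,16,257,4096] 17 (.lc 3 11 (.lc 4 12 .stop)))))
 (.lc 2 6 (.lc 2 5 (.lc 3 6 (.node [101,139,166] 9 8 (.node [155] 6 5 (.lc 1 0 (.lc 3 12 (.lc 2 0 (.lc 2 0 (.lc 0 9 (.conf [1,160] (.lc 2 0 (.lc 3 0 (.lc 0 12 (.lc 1 9 .stop))))))))))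
 (.lc 3 12 (.lc 1 10 (.lc 3 12 (.lc 4 13 .stop)))))
 (.lc 2 5 (.lc 2 5 (.lc 3 5 .stop)))))))))))))
 .stop))))))
 (.node [88,130] 4 7 (.far [257,16,256,4096] 0 (.lc 0 0 (.lc 1 2 (.node [118,151] 7 6 (.lc 2 0 (.lc 2 8 (.lc 2 10 (.lc 2 5 (.lc 1 6 (.lc 2 5 (.lc 2 5 (.lc 2 5 (.lc 2 5 (.node [101,144] 0 6 (.lc 0 6 (.lc 0 0 .stop))
 (.node [101,166,154] 6 5 (.lc 1 8 (.lc 1 8 (.lc 3 0 (.lc 3 11 (.lc 2 8 (.lc 2 8 (.lc 2 8 (.lc 2 8 (.lc 2 8 (.lc 3 0 (.lc 3 11 (.node [130] 10 8 (.lc 1 2 (.lc 1 2 (.lc 3 0 (.lc 1 0 (.lc 2 2 (.lc 2 2 (.lc 2 2 (.lc 2 2 (.lc 2 2 (.lc 1 0 (.lc 1 0 (.lc 2 2 (.lc 2 2 (.lc 2 0 (.lc 3 2 (.lc 3 2 (.lc 3 2 (.lc 0 0 (.lc 2 0 (.lc 2 0 (.lc 2 0 (.lc 3 0 .stop))))))))))))))))))))))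
 (.lc 2 8 (.lc 2 8 (.lc 4 11 (.lc 4 0 (.lc 4 12 (.lc 3 8 (.lc 3 8 (.lc 3 8 (.lc 0 0 (.lc 0 11 (.lc 2 2 (.lc 2 2 (.lc 2 2 (.lc 2 2 (.lc 3 2 (.lc 3 2 (.lc 3 2 .stop)))))))))))))))))))))))))))))
 (.lc 3 10 (.lc 3 0 (.lc 3 11 (.lc 2 5 (.lc 2 5 (.lc 0 0 (.lc 2 5 (.lc 2 5 (.lc 2 5 (.lc 2 5 (.lc 2 5 (.lc 2 5 (.lc 0 0 (.lc 1 2 (.lc 0 10 (.lc 3 5 (.lc 1 0 (.lc 3 5 (.lc 3 5 (.lc 3 5 (.lc 0 10 (.lc 0 0 (.lc 0 11 (.lc 3 5 (.lc 2 6 (.lc 3 5 (.lc 3 5 (.lc 3 5 (.lc 3 5 (.lc 3 5 (.lc 3 5 (.lc 1 0 (.lc 3 5 (.lc 3 5 (.lc 3 5 (.lc 3 5 (.lc 3 5 (.lc 3 5 (.lc 4 5 (.lc 2 0 (.lc 4 5 (.lc 4 5 (.lc 4 5 .stop))))))))))))))))))))))))))))))))))))))))))))))))))))))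
 (.lc 0 0 (.node [118,151] 6 5 (.lc 1 8 (.lc 1 8 (.lc 1 8 (.lc 3 0 (.lc 3 10 (.lc 0 9 (.lc 2 8 (.lc 2 8 (.lc 2 8 (.lc 2 8 (.lc 2 8 (.lc 2 8 (.lc 2 8 (.lc 2 8 (.lc 3 0 (.lc 3 9 (.lc 3 10 (.node [96,130] 6 0 (.conf [8,112] (.lc 0 10 .stop))
 (.lc 0 7 (.node [106,130] 7 6 (.far [1,4096,0,4112,257] 0 (.lc 3 0 (.lc 3 11 (.node [112,168] 7 0 .stop
 (.lc 3 4 (.node [123,168] 10 8 (.lc 1 2 (.lc 1 2 (.lc 1 2 (.lc 3 0 (.lc 1 0 (.lc 2 2 (.lc 2 2 (.lc 2 2 (.lc 2 2 (.lc 2 2 (.lc 1 0 (.lc 1 0 (.lc 2 2 (.lc 2 2 (.lc 2 2 (.lc 2 0 (.lc 3 2 (.lc 3 2 (.lc 3 2 (.far [4096,1,4096,0,4112,257] 0 (.lc 2 0 (.lc 2 0 (.lc 2 0 (.lc 3 0 .stop))))))))))))))))))))))))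
 (.lc 3 0 (.lc 3 11 (.lc 4 11 (.lc 4 0 (.lc 4 12 .stop)))))))))))
 (.lc 2 8 (.lc 1 5 (.lc 2 8 (.lc 2 8 (.lc 2 8 (.lc 2 8 (.lc 4 10 (.lc 4 0 (.lc 4 11 (.lc 1 0 (.lc 3 8 (.lc 3 8 (.lc 3 8 (.lc 3 8 (.node [106,130,160] 0 8 .stop
 (.node [96,130,168] 6 0 .stop
 (.node [107,130,168] 7 6 (.far [1,4096,0,4112,257] 0 (.lc 3 0 (.lc 3 12 (.lc 1 10 (.lc 3 4 (.lc 1 10 (.lc 3 0 (.lc 3 12 (.lc 4 12 (.lc 4 0 (.lc 4 13 .stop)))))))))))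
 (.lc 2 2 (.lc 1 8 (.lc 2 2 (.lc 2 2 (.lc 2 2 (.lc 2 2 (.lc 0 9 (.lc 2 2 (.lc 2 2 (.lc 2 2 (.lc 2 2 (.lc 2 2 (.lc 1 0 (.lc 3 2 (.lc 3 2 (.lc 3 2 (.lc 3 2 .stop))))))))))))))))))))))))))))))))))))))))))))))))))))))
 (.lc 0 0 (.far [257,16,256,4096] 0 (.lc 0 0 (.node [118,151,169] 9 7 (.lc 1 6 (.lc 1 6 (.lc 1 6 (.lc 3 0 (.lc 3 11 (.lc 2 6 (.lc 2 6 (.lc 0 0 (.lc 2 6 (.lc 2 6 (.lc 2 6 (.lc 2 6 (.lc 2 6 (.lc 2 6 (.lc 1 5 (.lc 1 5 (.lc 1 5 (.node [101,144] 9 0 (.conf [6,160] (.lc 0 11 .stop))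
 (.lc 0 2 (.node [101,155] 10 9 (.far [16,256,256,16,257,4096] 0 (.lc 3 0 (.lc 0 2 (.lc 3 12 (.far [16,256,256,16,257,4096] 0 (.far [16,256,256,16,257,4096] 0 (.lc 3 0 (.lc 3 12 (.lc 4 12 (.lc 4 0 (.lc 4 13 .stop)))))))))))
 (.lc 2 6 (.lc 1 7 (.lc 2 6 (.lc 2 6 (.lc 2 6 (.lc 2 6 (.lc 2 5 (.lc 2 5 (.lc 2 5 (.lc 3 6 (.lc 1 0 (.lc 3 6 (.lc 3 6 (.lc 3 6 (.node [101,155,176] 0 6 (.lc 0 6 (.lc 0 0 .stop))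
 (.node [101,144,182] 9 0 .stop
 (.node [101,156,182] 10 9 (.node [172] 6 5 (.lc 1 8 (.lc 1 8 (.lc 3 0 (.lc 3 13 (.lc 2 8 (.lc 2 8 (.lc 2 8 (.lc 2 8 (.lc 2 8 (.lc 3 0 (.lc 3 13 (.node [130] 12 11 (.lc 1 8 (.lc 1 8 (.lc 1 2 (.lc 1 2 (.lc 0 0 (.lc 0 13 (.lc 2 8 (.lc 2 8 (.lc 2 8 (.lc 0 0 (.lc 1 2 (.lc 1 11 (.lc 1 0 (.lc 1 0 .stop))))))))))))))
 (.lc 2 8 (.lc 2 8 (.lc 4 13 (.lc 4 0 (.lc 4 14 (.lc 3 8 (.lc 3 8 (.lc 3 8 (.lc 0 0 (.lc 0 13 (.lc 2 2 (.lc 2 2 (.lc 2 2 (.lc 2 2 (.lc 3 2 (.lc 3 2 (.lc 3 2 .stop)))))))))))))))))))))))))))))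
 (.lc 3 0 (.lc 0 2 (.lc 3 13 (.lc 1 11 (.lc 1 11 (.lc 3 0 (.lc 3 13 (.lc 4 13 (.lc 4 0 (.lc 4 14 .stop)))))))))))
 (.lc 2 5 (.lc 1 6 (.lc 2 5 (.lc 2 5 (.lc 2 5 (.lc 2 5 (.lc 2 5 (.lc 2 5 (.lc 0 0 (.lc 2 5 (.lc 2 5 (.lc 2 5 (.lc 3 5 (.lc 1 0 (.lc 3 5 (.lc 3 5 (.lc 3 5 .stop))))))))))))))))))))))))))))))))))))))))))))))))))))))
 .stop))))))))))
 (.lc 3 0 (.lc 3 8 (.lc 4 8 (.lc 4 9 .stop)))))))))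
 (.node [50,71,118,101,80] 0 3 (.node [] 4 7 (.node [118] 7 6 (.lc 1 5 (.lc 3 9 (.lc 0 8 (.lc 2 5 (.lc 3 9 (.lc 0 8 (.lc 0 8 (.lc 4 10 (.lc 0 9 (.lc 0 9 (.lc 0 9 (.lc 0 9 (.lc 0 10 .stop)))))))))))))
 (.lc 2 6 (.node [118,135] 8 7 (.lc 1 6 (.lc 1 5 (.lc 2 6 (.lc 2 6 (.node [101,137] 6 5 (.node [80] 8 9 (.lc 0 0 (.lc 2 10 (.lc 3 11 (.lc 0 10 (.lc 3 11 (.lc 3 11 (.lc 0 10 (.lc 4 12 (.lc 0 11 .stop)))))))))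
 (.lc 2 0 (.node [80,154] 8 9 (.lc 2 11 (.lc 3 11 (.lc 0 11 (.lc 3 12 (.lc 3 11 (.lc 0 10 (.lc 4 12 (.lc 0 11 .stop))))))))
 (.lc 2 0 (.lc 3 0 .stop)))))
 (.lc 1 5 (.lc 2 6 (.node [101,138,150] 9 6 (.node [80] 9 5 (.lc 1 0 (.lc 2 0 (.lc 2 0 (.lc 2 0 (.lc 3 0 .stop)))))
 (.lc 1 0 (.lc 1 0 (.lc 3 11 (.lc 2 0 .stop)))))
 (.lc 3 6 (.lc 2 5 (.lc 4 10 (.lc 4 10 (.lc 5 11 .stop)))))))))))))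
 (.lc 2 6 (.lc 3 6 .stop)))))
 .stop)
 (.node [50,71,83,118,96] 4 7 (.node [118] 5 3 (.node [82] 0 5 .stop
 (.lc 3 8 (.node [88,130] 0 5 .stop
 (.lc 3 8 (.lc 4 9 .stop)))))
 (.lc 2 6 (.node [118,135] 5 3 (.node [82] 0 5 .stop
 (.lc 3 8 (.lc 3 9 (.node [89,146] 0 5 .stop
 (.lc 3 9 (.lc 4 10 .stop))))))
 (.lc 2 6 (.lc 3 6 .stop)))))
 (.node [50,71,83,101,112] 4 7 (.node [112] 7 0 .stop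
 (.lc 2 0 (.node [112,135] 7 0 .stop
 (.lc 2 0 (.lc 3 0 .stop)))))
 (.node [50,64,83,101,118] 4 0 (.lc 0 0 .stop)
 (.node [50,72,83,101,118] 4 8 (.node [135] 5 3 (.node [82] 8 7 (.lc 1 6 (.lc 0 0 (.lc 1 6 (.lc 3 9 (.lc 1 7 (.lc 1 0 (.lc 3 0 (.lc 3 10 (.lc 2 6 (.lc 0 9 (.lc 2 6 (.lc 1 7 (.lc 2 6 (.lc 2 6 (.lc 3 9 (.lc 1 7 (.lc 3 0 (.lc 0 0 (.lc 3 10 (.node [118] 7 6 (.node [101] 6 5 (.lc 1 2 (.lc 1 0 (.lc 0 9 (.lc 2 2 (.lc 1 0 (.far [1,1,0,0,4112,1,257] 4096 (.lc 2 0 .stop)))))))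
 (.lc 1 6 (.lc 2 5 (.lc 1 6 (.node [101,150] 6 5 (.lc 1 2 (.lc 1 0 (.lc 2 2 (.lc 2 2 (.lc 1 0 (.lc 1 0 (.lc 2 2 (.lc 2 0 (.lc 3 2 (.lc 2 0 (.lc 2 0 (.lc 2 0 (.lc 3 0 .stop)))))))))))))
 (.lc 1 6 (.lc 2 5 (.lc 1 9 (.lc 3 5 .stop)))))))))
 (.lc 0 9 (.lc 0 0 (.lc 0 9 (.lc 4 10 (.lc 2 7 (.lc 4 10 (.lc 1 9 (.lc 4 0 (.lc 4 11 (.lc 0 0 (.lc 0 10 (.lc 0 0 (.lc 0 10 (.lc 0 0 (.lc 0 10 (.node [118,151] 9 7 (.node [101] 6 5 (.lc 1 2 (.lc 1 0 (.lc 2 2 (.lc 2 2 (.lc 1 0 (.lc 1 0 (.lc 1 0 (.lc 2 2 (.lc 2 0 (.lc 1 1 (.lc 2 0 (.lc 2 0 .stop))))))))))))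
 (.lc 0 0 (.lc 1 5 (.lc 1 5 (.lc 3 10 (.lc 2 5 .stop))))))
 (.lc 0 10 (.lc 0 0 (.lc 0 11 .stop)))))))))))))))))))))))))))))))))))))))
 (.lc 3 0 (.lc 3 9 (.node [80] 8 7 (.lc 1 6 (.lc 3 10 (.lc 0 9 (.lc 2 6 (.lc 3 10 (.conf [7,118] (.lc 0 9 (.lc 0 0 (.lc 0 9 (.lc 4 11 (.lc 0 10 (.lc 0 10 (.lc 0 0 (.lc 0 10 (.lc 0 10 (.lc 0 11 .stop))))))))))))))))
 (.node [89,146] 8 7 (.lc 1 6 (.lc 1 6 (.lc 1 6 (.lc 3 10 (.lc 1 7 (.lc 3 0 (.lc 3 10 (.lc 3 0 (.lc 3 11 (.lc 2 6 (.lc 0 10 (.lc 2 6 (.lc 2 6 (.lc 2 6 (.lc 3 9 (.lc 3 10 (.lc 0 0 (.lc 3 0 (.lc 3 9 (.lc 3 11 (.node [118] 7 6 (.far [257,257,16,0,257,1] 16 (.lc 1 6 (.lc 2 5 (.lc 2 5 (.node [101,166] 6 5 (.lc 1 9 (.lc 3 11 (.lc 2 9 (.lc 2 9 (.lc 3 11 (.node [146] 10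 9 (.lc 1 2 (.lc 1 0 (.lc 2 2 (.far [1,1,1,0,0,4112,1,257] 4096 .stop))))
 (.lc 2 9 (.lc 4 12 (.lc 3 9 (.lc 0 11 (.lc 2 2 (.lc 2 2 (.lc 3 2 .stop)))))))))))))
 (.lc 2 5 (.lc 1 0 (.lc 3 5 .stop))))))))
 (.lc 0 9 (.lc 0 10 (.lc 0 0 (.lc 0 9 (.lc 0 10 (.lc 4 11 (.lc 1 0 (.lc 4 11 (.lc 4 0 (.lc 4 12 (.lc 0 0 (.lc 0 11 (.lc 0 0 (.lc 0 10 (.lc 0 0 (.lc 0 11 (.lc 0 0 (.lc 0 9 (.lc 0 11 (.node [118,167] 10 7 (.far [16,257,16,0,257,1] 16 (.lc 1 5 (.lc 1 5 (.lc 1 5 (.lc 3 11 (.lc 2 5 .stop))))))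
 (.lc 0 11 (.lc 0 0 (.lc 0 12 .stop))))))))))))))))))))))))))))))))))))))))))))
 (.lc 3 0 (.lc 3 9 (.lc 4 9 (.lc 4 10 .stop)))))))))
 (.lc 0 0 (.lc 2 7 (.lc 0 0 (.node [135,152] 5 3 (.node [82] 9 8 (.lc 1 7 (.lc 0 0 (.lc 1 7 (.lc 1 6 (.lc 1 6 (.lc 2 7 (.lc 1 8 (.lc 2 7 (.lc 0 0 (.lc 2 7 (.lc 2 7 (.lc 1 8 (.lc 2 7 (.lc 2 7 (.node [118,144] 0 7 (.conf [6,101] (.lc 3 1 (.lc 0 6 (.lc 1 5 (.lc 3 1 (.lc 4 1 .stop))))))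
 (.lc 0 0 (.node [118,154] 7 6 (.node [101] 6 5 (.lc 1 2 (.lc 1 2 (.lc 3 0 (.lc 1 0 (.lc 2 2 (.lc 2 2 (.lc 2 2 (.lc 2 2 (.lc 2 2 (.lc 1 0 (.lc 1 0 (.lc 1 0 (.lc 2 2 (.lc 2 2 (.lc 2 0 (.lc 2 0 (.lc 3 2 (.lc 3 2 (.lc 3 2 (.lc 0 0 (.lc 2 0 (.lc 2 0 (.lc 2 0 (.lc 2 0 (.lc 2 0 (.lc 3 0 (.lc 3 0 .stop)))))))))))))))))))))))))))
 (.lc 2 5 (.lc 1 0 (.lc 2 5 (.node [101,160] 0 6 (.lc 0 6 (.lc 0 11 (.node [] 9 10 (.lc 2 11 (.lc 0 11 (.lc 3 12 (.far [256,257,1,0,0,4112,1,257] 4096 .stop))))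
 .stop)))
 (.node [101,171] 9 10 (.lc 2 0 (.lc 0 0 (.lc 2 12 (.lc 3 0 (.lc 3 12 (.lc 2 11 (.lc 0 12 (.lc 3 12 (.lc 1 10 (.lc 3 0 (.lc 3 13 (.lc 3 0 (.lc 0 0 (.lc 3 12 (.lc 0 11 (.lc 0 0 (.lc 4 12 (.lc 1 11 (.lc 4 0 (.lc 4 13 (.lc 0 0 (.lc 0 0 (.lc 0 0 (.node [182] 11 6 (.lc 1 5 (.lc 1 6 (.lc 1 0 .stop)))
 (.lc 0 12 (.lc 0 0 .stop))))))))))))))))))))))))))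
 (.lc 2 5 (.lc 2 5 (.lc 3 5 (.lc 2 6 (.lc 3 5 (.lc 3 5 .stop))))))))))))
 (.lc 1 6 (.lc 0 0 (.lc 1 6 (.lc 2 7 (.lc 1 8 (.lc 1 0 (.lc 2 7 (.lc 2 7 (.node [118,154,160] 0 7 (.lc 0 6 .stop)
 (.lc 1 7 (.node [118,144,167] 9 0 .stop
 (.node [118,155,167] 10 7 (.node [101] 6 5 (.lc 1 2 (.lc 1 2 (.lc 1 2 (.lc 3 0 (.lc 1 0 (.lc 2 2 (.lc 2 2 (.lc 2 2 (.lc 2 2 (.lc 2 2 (.lc 1 0 (.lc 1 0 (.lc 1 0 (.lc 1 0 (.lc 2 2 (.lc 2 0 (.lc 2 0 (.lc 3 2 (.lc 3 2 (.lc 2 0 (.lc 2 0 (.lc 2 0 (.lc 2 0 (.lc 3 0 (.lc 3 0 .stop)))))))))))))))))))))))))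
 (.lc 1 5 (.lc 0 0 (.lc 1 5 (.lc 1 5 (.lc 1 5 (.lc 3 0 (.lc 3 12 (.lc 2 5 (.lc 1 6 (.lc 2 5 (.lc 2 5 .stop))))))))))))
 (.lc 3 7 (.lc 2 8 (.lc 3 7 (.lc 1 10 (.lc 3 7 (.lc 3 7 (.lc 2 6 (.lc 1 7 (.lc 2 6 (.lc 2 6 (.lc 4 10 (.lc 1 7 (.lc 1 0 (.lc 4 0 (.lc 4 11 (.lc 4 10 (.lc 1 7 (.lc 4 0 (.lc 0 0 (.lc 4 11 (.lc 5 11 (.lc 2 7 (.lc 5 11 (.lc 1 10 (.lc 5 0 (.lc 5 12 .stop)))))))))))))))))))))))))))))))))))))))))))))))))))))))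
 (.lc 3 0 (.lc 3 9 (.lc 3 10 (.node [80] 9 8 (.lc 1 7 (.lc 1 6 (.lc 2 7 (.lc 2 7 (.node [118,154] 7 6 (.node [101] 6 5 (.lc 1 0 (.lc 3 11 (.lc 2 0 (.lc 2 0 (.lc 0 9 (.conf [1,160] (.lc 2 0 (.lc 3 0 (.lc 0 11 (.lc 1 9 .stop))))))))))
 (.lc 2 5 (.node [101,171] 9 10 (.lc 2 12 (.lc 3 12 (.lc 0 12 (.lc 3 13 (.lc 3 12 (.lc 0 11 (.lc 0 0 (.lc 4 13 (.lc 0 0 (.lc 0 12 .stop))))))))))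
 (.lc 2 5 (.lc 3 5 .stop)))))
 (.lc 1 6 (.lc 2 7 (.node [118,155,167] 10 7 (.node [101] 6 5 (.lc 1 0 (.lc 1 0 (.lc 3 12 (.lc 2 0 (.lc 2 0 (.lc 0 9 (.lc 0 0 (.lc 2 0 (.lc 3 0 (.conf [1,176] .stop))))))))))
 (.lc 1 5 (.lc 1 5 (.lc 3 12 (.lc 2 5 .stop)))))
 (.lc 3 7 (.lc 2 6 (.lc 4 11 (.lc 4 11 (.lc 5 12 .stop)))))))))))))
 (.node [90,162] 9 8 (.lc 1 7 (.lc 1 7 (.lc 1 7 (.lc 1 6 (.lc 1 6 (.lc 2 7 (.lc 2 7 (.lc 0 0 (.lc 2 7 (.lc 2 7 (.lc 2 7 (.lc 2 7 (.lc 2 7 (.lc 2 7 (.node [118,144] 0 7 (.conf [6,101] (.lc 3 1 (.lc 1 5 (.lc 4 1 .stop))))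
 (.lc 0 2 (.node [118,155] 7 6 (.node [101] 6 5 (.lc 1 10 (.lc 1 10 (.lc 3 0 (.lc 3 12 (.lc 2 10 (.lc 2 10 (.lc 2 10 (.lc 2 10 (.lc 2 10 (.lc 3 0 (.lc 3 12 (.node [162] 11 10 (.lc 1 2 (.lc 0 10 (.lc 1 2 (.lc 3 0 (.lc 1 0 (.lc 0 0 (.lc 0 12 (.lc 2 2 (.lc 2 2 (.lc 2 2 (.lc 1 0 (.lc 1 0 (.lc 1 10 (.lc 2 0 (.lc 1 0 (.lc 2 0 .stop))))))))))))))))
 (.lc 2 10 (.lc 2 10 (.lc 4 12 (.lc 4 0 (.lc 4 13 (.lc 3 10 (.lc 3 10 (.lc 3 10 (.lc 0 0 (.lc 0 12 (.lc 2 2 (.lc 2 2 (.lc 2 2 (.lc 2 2 (.lc 3 2 (.lc 3 2 (.lc 3 2 .stop)))))))))))))))))))))))))))))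
 (.lc 2 5 (.lc 2 5 (.lc 2 5 (.node [101,176] 0 6 (.lc 0 6 (.lc 0 0 .stop))
 (.node [101,188] 9 11 (.lc 2 0 (.lc 2 10 (.lc 2 13 (.lc 3 0 (.lc 3 13 (.lc 2 12 (.lc 0 13 (.lc 3 13 (.lc 3 0 (.lc 3 14 (.lc 3 0 (.lc 3 10 (.lc 3 13 (.lc 0 12 (.lc 0 0 (.lc 4 13 (.lc 4 0 (.lc 4 14 (.lc 0 0 (.lc 0 0 (.lc 0 0 (.far [257,257,256,16,0,257,1] 16 (.lc 0 13 (.lc 0 0 .stop))))))))))))))))))))))))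
 (.lc 2 5 (.lc 2 5 (.lc 3 5 (.lc 3 5 (.lc 3 5 .stop)))))))))))
 (.lc 1 6 (.lc 1 6 (.lc 1 6 (.lc 2 7 (.lc 1 8 (.lc 2 7 (.lc 2 7 (.lc 2 7 (.lc 2 7 (.node [118,155,176] 0 7 .stop
 (.node [118,144,183] 9 0 .stop
 (.node [118,156,183] 11 7 (.node [101] 6 5 (.lc 1 10 (.lc 1 10 (.lc 1 10 (.lc 3 0 (.lc 3 13 (.lc 2 10 (.lc 2 10 (.lc 2 10 (.lc 2 10 (.lc 2 10 (.lc 3 0 (.lc 3 12 (.lc 3 13 (.lc 0 10 (.lc 2 10 (.lc 4 13 (.lc 4 0 (.lc 4 14 (.lc 3 10 (.lc 3 10 (.node [162] 12 10 (.lc 0 10 .stop)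
 (.lc 2 2 (.lc 2 2 (.lc 2 2 (.lc 3 2 (.lc 3 2 .stop))))))))))))))))))))))))))
 (.lc 1 5 (.lc 1 5 (.lc 1 5 (.lc 1 5 (.lc 1 5 (.lc 3 0 (.lc 3 13 (.lc 2 5 (.lc 2 5 (.lc 2 5 .stop)))))))))))
 (.lc 3 7 (.lc 1 0 (.lc 3 7 (.lc 3 7 (.lc 3 7 (.lc 2 6 (.lc 2 6 (.lc 2 6 (.lc 4 11 (.lc 1 7 (.lc 4 0 (.lc 4 11 (.lc 4 0 (.lc 4 12 (.lc 4 10 (.lc 4 11 (.lc 0 0 (.lc 4 0 (.lc 4 10 (.lc 4 12 (.lc 5 12 (.lc 1 0 (.lc 5 12 (.lc 5 0 (.lc 5 13 .stop))))))))))))))))))))))))))))))))))))))))))))))))))))))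
 (.lc 3 0 (.lc 3 10 (.lc 4 10 (.lc 4 11 .stop))))))))))
 (.lc 0 0 (.lc 2 7 (.lc 0 0 (.lc 3 7 .stop)))))))))
 .stop)))))))))))))))))))))))))))))))))))))))))))))

theorem t33 : kNode2 awTt FTt 4 3 (check tyTt awTt triet FTt [s34, s36] c33) (fun _ _ _ => true) 0 s33 Pl.nil s33 =
    true := by
  decide +kernel

end Chk
end Pool.Agent.Lib.MP_ba95e8_co
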