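import Pool.Agent.Lib.MP_ba95e8_co.ChkTab
import Pool.Agent.Lib.MP_ba95e8_co.ChkStates

/-!
Deltahedral domes: part 34 of the case analysis.
-/

namespace Pool.Agent.Lib.MP_ba95e8_co
namespace Chk

/-- certificate number 34 -/
def c34 : Cert := (.node [64,83,50] 4 0 (.lc 0 0 .stop)
 (.node [70,83,50] 4 6 (.node [] 5 3 (.node [50,80] 0 3 (.node [] 6 5 (.lc 1 0 (.lc 2 1 (.node [80,103] 7 5 (.node [] 6 7 (.conf [23,97] (.node [104] 6 8 (.node [24] 8 7 (.lc 2 1 (.node [112] 7 0 .stop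
 (.lc 3 1 (.conf [138,151,169] (.node [112,151,169,112,138] 9 7 .stop
 (.node [138,169,112] 8 10 (.node [169] 9 7 .stop
 (.lc 2 9 .stop))
 (.conf [139,151,112] .stop)))))))
 (.node [25,135,152,97,112] 1 9 .stop
 (.far [4112,4112,0,4112,0,0,1,256] 0 (.far [257,257,0,257,0,0,16,4096] 0 (.node [26,135,152,169,97,152,112,135] 1 10 .stop
 .stop)))))
 (.conf [24,97] (.conf [112,135,152] (.conf [24,97] (.conf [24,97] (.node [105,152,105,112,135] 6 9 (.far [4112,4112,0,4112,0,0,1,256] 0 (.lc 2 8 (.conf [26,152,169] (.lc 2 8 (.lc 3 8 .stop)))))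
 (.conf [24,97] (.node [112,135,105] 8 7 (.lc 3 1 .stop)
 (.conf [24,97] (.lc 2 0 (.conf [24,97] (.conf [25,97] (.conf [112,169,106] (.conf [25,97] (.conf [25,97] (.conf [25,97] (.conf [25,97] (.conf [26,97] .stop)))))))))))))))))))
 (.far [4112,16,4096,0,0,16,4112,16] 1 (.far [16,16,0,257,0,16,4096] 4097 (.far [4096,0,257,4096] 256 (.far [1,1,0,4112,0,1,256] 0 (.far [4112,16,257,1,0,16,4096] 256 .stop))))))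
 (.lc 3 1 (.conf [80,103,112] (.conf [104,117,135] (.lc 2 0 (.lc 3 1 (.node [80,117,135,80,104] 7 5 (.far [16,16,0,257,0,16,4096] 0 (.lc 3 1 (.far [16,16,0,257,0,16,4096] 4097 (.lc 3 1 (.lc 3 9 (.lc 4 9 .stop))))))
 (.lc 3 1 (.node [80,103,112] 6 7 (.node [112] 7 0 (.lc 2 0 .stop)
 (.node [112,135] 1 8 .stop
 (.conf [112,135] (.far [257,256,0,257,16,4112,4096] 0 (.node [112,135,152] 1 9 .stop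
 .stop)))))
 (.lc 2 0 (.node [104,135,80] 6 8 (.node [135] 7 5 (.far [1,0,1,0,4112,0,1,256] 0 (.lc 3 1 (.lc 3 9 .stop)))
 (.lc 2 7 (.lc 2 7 (.conf [135,152] (.lc 2 7 (.lc 3 7 .stop))))))
 (.conf [105,117,80] (.conf [80,112,1] .stop)))))))))))))))
 .stop)
 (.lc 2 3 (.node [50,87] 7 3 (.asm [] 0 (.lc 3 0 (.lc 3 6 (.lc 3 8 (.far [16,16,257,257,256,4096] 17 (.far [16,16,257,257,256,4096] 0 (.lc 3 0 (.lc 3 8 (.lc 4 8 (.lc 4 9 .stop))))))))))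
 (.lc 2 2 (.lc 2 2 (.lc 2 2 (.lc 3 7 (.lc 3 0 (.lc 3 8 (.lc 3 3 (.node [50,87,112] 0 3 (.far [16,16,257,257,256,4096] 0 .stop)
 (.conf [50,115] (.lc 3 3 (.conf [50,115] (.lc 2 2 (.lc 2 2 (.lc 2 2 (.lc 2 2 (.lc 2 2 (.lc 3 7 (.lc 3 0 (.lc 3 8 (.lc 3 2 (.lc 3 2 (.lc 3 2 (.lc 3 2 (.lc 4 8 (.lc 4 8 (.lc 4 0 (.lc 4 9 (.lc 3 2 (.lc 3 2 (.lc 3 2 (.lc 3 2 (.lc 3 2 (.lc 3 2 (.lc 4 2 (.lc 4 2 .stop))))))))))))))))))))))))))))))))))))))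
 (.lc 0 0 (.lc 2 5 (.lc 0 0 (.node [118] 5 3 (.node [50,80] 0 3 (.far [1,1,4112,4112,4096,256] 0 .stop)
 (.lc 2 3 (.node [50,115,118] 7 3 .stop
 (.node [50,88] 8 3 (.far [1,1,4112,4112,4096,256] 0 (.lc 3 0 (.lc 3 6 (.lc 3 7 (.lc 3 9 (.node [] 6 5 (.lc 2 4 (.lc 1 3 (.node [88,105] 5 8 (.node [128] 7 6 (.far [16,0,257,0,0,16,4096] 0 (.node [105,122] 10 6 (.far [16,16,0,257,0,0,16,4096] 0 (.lc 3 11 (.far [16,16,0,257,0,0,16,4096] 0 (.lc 3 11 (.lc 4 12 .stop)))))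
 (.conf [100,122,169] (.conf [100,152] (.conf [105,123] (.conf [100,152] (.conf [105,166] (.node [100,122,152] 9 8 (.far [257,16,4096,1,0,0,16,4096] 0 (.lc 2 0 (.node [171,184,128] 11 8 (.node [176] 10 11 (.node [172,176] 7 10 (.far [1,4112,0,4112,258,256,256] 0 (.lc 3 1 (.lc 1 11 .stop)))
 (.lc 3 7 (.conf [176,203] (.lc 0 1 (.lc 1 0 .stop)))))
 (.lc 3 1 (.lc 3 12 .stop)))
 .stop)))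
 (.lc 1 5 (.conf [100,122] (.conf [100,122,169,83,152] (.conf [105,123] (.conf [100,123,186] (.conf [100,152] (.conf [105,124] (.conf [100,123] (.conf [100,123] (.conf [100,123] (.conf [100,124] .stop)))))))))))))))))))
 (.conf [128,151,83] (.conf [128,154,168] (.far [4112,1,0,4112,0,1,256] 0 (.far [257,16,0,257,0,16,4096] 0 (.conf [128,155,83] .stop))))))
 (.lc 3 4 (.conf [83,105,152] (.lc 2 3 (.lc 3 10 (.lc 2 3 (.lc 2 3 (.lc 3 4 (.node [88,149,169,88,106,118,128] 5 8 (.far [257,16,0,257,0,16,4096] 0 (.lc 2 0 (.lc 2 0 (.lc 0 11 (.lc 2 0 (.lc 3 0 .stop))))))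
 (.lc 3 4 (.node [83,105,128] 9 8 (.far [1,1,4112,16,0,1,256] 17 (.conf [23,145] (.far [1,1,4112,16,0,1,256] 17 (.lc 1 0 .stop))))
 (.lc 3 0 (.lc 3 9 (.lc 2 3 (.lc 3 10 (.lc 4 4 (.conf [83,106,169] (.lc 3 3 (.lc 4 11 (.lc 4 10 (.lc 4 10 (.lc 4 10 (.lc 5 11 .stop)))))))))))))))))))))))))
 (.node [146] 6 5 (.node [88,96] 0 5 (.node [137] 6 0 (.node [104,137,118,146] 6 8 (.lc 0 9 .stop)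
 (.conf [105,146] (.conf [96,120] (.conf [96,121] .stop))))
 (.lc 1 9 .stop))
 (.lc 2 4 (.lc 1 3 (.node [146,149] 9 5 (.lc 0 3 .stop)
 (.node [88,106] 5 8 (.node [137] 8 9 (.node [128,146] 8 0 (.far [4112,4112,1,0,4112,256] 0 (.conf [23,161] (.far [4112,4112,1,0,4112,256] 0 (.lc 2 0 .stop))))
 (.node [118,121,135,146] 8 7 .stop
 (.far [4112,1,0,4112,256] 0 (.node [139,146] 8 11 (.far [4112,4112,1,0,4112,256] 0 (.lc 2 9 (.lc 2 9 (.lc 2 9 (.far [4112,4112,1,0,4112,256] 0 (.far [4112,4112,1,0,4112,256] 0 (.lc 2 9 (.lc 2 9 (.lc 3 9 (.lc 3 9 (.lc 3 9 .stop)))))))))))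
 (.conf [131,160] (.conf [139,146] (.conf [25,118] (.conf [121,146] (.conf [121,146] (.conf [121,146] (.conf [128,146] (.conf [131,171] (.conf [140,146] (.node [131,146,160] 10 0 (.far [32,8224,0,0,8208,16,0,0,16,16] 257 (.lc 1 0 .stop))
 (.conf [131,146,185] (.conf [131,160] (.conf [139,176] (.node [128,146,185,146] 8 0 .stop
 (.conf [131,171] (.conf [140,203] (.conf [129,146] (.conf [135,146] (.node [131,146,83,160] 0 9 (.node [] 6 10 (.far [257,0,0,0,257,0,0,16,4096] 0 (.node [107,160,118] 7 6 (.far [16,257,0,0,0,257,0,0,16,4096] 0 (.lc 3 12 (.lc 1 10 (.lc 3 12 (.lc 4 13 .stop)))))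
 (.conf [100,123,186] (.conf [123,160,186] (.conf [108,203] (.conf [100,123] (.conf [100,124] .stop)))))))
 .stop)
 (.conf [139,146] (.conf [106,121] (.conf [128,146] (.conf [135,146] (.conf [131,146,185,83,171] (.conf [140,146] (.conf [131,146] (.lc 0 5 (.conf [121,146] (.conf [131,146] (.node [131,146,160] 10 0 (.far [4112,4112,257,256,4112,256] 0 (.lc 0 4 .stop))
 (.node [118,131,146,167] 10 7 (.lc 1 9 .stop)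
 (.node [131,146,171] 6 10 (.far [1,4112,257,256,4112,256] 0 (.lc 3 4 (.node [96,185,118] 6 0 .stop
 (.conf [123,185] (.conf [108,203] (.lc 3 4 (.lc 4 4 (.lc 4 4 .stop))))))))
 (.lc 1 0 (.conf [131,171] (.conf [140,146] (.conf [131,160] (.conf [140,146] (.conf [128,146] (.conf [131,172] (.conf [141,146] (.node [131,146,171,176] 0 9 .stop
 (.conf [131,146,185] (.conf [131,146,185] (.conf [131,146] (.conf [25,118] (.conf [121,146] (.conf [121,146] (.conf [131,146] (.conf [131,146] (.conf [131,146] (.conf [131,146] (.conf [131,146] (.conf [131,146] (.conf [131,146] (.conf [131,146] (.conf [131,146] (.lc 0 5 (.conf [131,146] (.conf [131,146] (.lc 2 0 (.conf [131,146] (.conf [131,146] (.conf [131,146] (.conf [131,146] .stop))))))))))))))))))))))))))))))))))))))))))))))))))))))))))))))))))))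
 (.lc 2 9 (.lc 2 9 (.lc 2 9 (.far [4112,1,0,4112,0,1,256] 0 (.lc 2 3 (.far [4112,1,0,4112,0,1,256] 0 (.lc 2 9 (.lc 2 9 (.lc 3 9 (.lc 3 9 (.lc 3 9 .stop))))))))))))
 (.node [83,96,137] 6 0 .stop
 (.lc 3 4 (.lc 1 3 (.conf [83,106,168] (.lc 3 9 (.lc 3 10 (.lc 2 3 (.lc 2 3 (.lc 3 2 (.lc 3 0 (.lc 3 9 (.lc 3 11 (.lc 3 4 (.node [88,106,160,106,118] 0 5 .stop
 (.lc 2 3 (.lc 2 3 (.lc 2 3 (.node [88,165,88,96,118,137,146] 6 0 .stop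
 (.lc 3 4 (.node [88,165,186,88,107,118,137,146] 5 8 (.far [257,16,0,257,0,16,4096] 0 (.lc 2 9 (.lc 2 9 (.lc 2 9 (.lc 0 0 (.lc 2 3 (.lc 0 12 (.lc 2 9 (.lc 2 9 (.lc 3 9 (.lc 3 9 (.lc 3 9 .stop))))))))))))
 (.lc 1 9 (.lc 3 4 (.lc 1 9 (.lc 3 0 (.lc 3 9 (.lc 3 10 (.lc 3 10 (.lc 3 0 (.lc 2 3 (.lc 2 3 (.lc 2 3 (.lc 3 0 (.lc 3 10 (.lc 3 0 (.lc 3 11 (.lc 4 4 (.lc 2 9 (.lc 2 9 (.lc 4 4 (.lc 2 9 (.lc 4 11 (.lc 3 3 (.lc 3 3 (.lc 3 3 (.lc 1 0 (.lc 4 11 (.lc 4 0 (.lc 4 12 (.lc 4 10 (.lc 4 0 (.lc 4 10 (.lc 4 0 (.lc 4 11 (.lc 4 10 (.lc 4 0 (.lc 4 11 (.lc 4 10 (.lc 4 0 (.lc 4 11 (.lc 5 11 (.lc 5 11 (.lc 5 0 (.lc 5 12 .stop))))))))))))))))))))))))))))))))))))))))))))))))))))))))))))))))))))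
 (.lc 3 0 (.lc 3 9 (.lc 4 9 (.lc 4 6 (.lc 4 10 .stop))))))))))))
 (.lc 2 2 (.lc 2 2 (.lc 2 2 (.lc 3 7 (.lc 3 8 (.lc 3 0 (.lc 3 7 (.lc 3 9 (.lc 3 3 (.node [50,88,128] 0 3 (.node [] 5 8 (.lc 2 3 (.node [87,118,120,128] 5 7 (.lc 0 4 .stop)
 (.node [89,128] 5 9 (.far [4112,4112,0,4112,0,1,256] 0 (.lc 0 10 (.lc 0 10 (.lc 0 4 (.lc 2 8 (.lc 0 11 .stop))))))
 (.lc 2 0 (.lc 2 0 (.lc 3 3 (.lc 2 0 (.lc 0 4 (.conf [83,105,152] (.lc 3 3 (.conf [90,169] (.lc 3 3 (.lc 3 3 (.lc 2 0 (.lc 2 0 (.lc 0 4 (.lc 2 0 (.lc 0 9 (.lc 4 3 (.lc 3 0 (.lc 0 10 (.lc 0 10 (.lc 0 10 (.lc 0 4 (.lc 3 0 (.lc 0 11 .stop))))))))))))))))))))))))))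
 .stop)
 (.conf [50,131] (.lc 3 3 (.conf [50,131] (.lc 2 2 (.lc 2 2 (.lc 2 2 (.lc 2 2 (.lc 2 2 (.lc 2 2 (.lc 2 2 (.lc 3 8 (.lc 3 0 (.lc 3 8 (.lc 3 0 (.lc 3 9 (.lc 3 2 (.lc 3 2 (.lc 3 2 (.lc 3 2 (.lc 4 9 (.lc 4 9 (.lc 4 0 (.lc 4 10 (.lc 3 2 (.lc 3 2 (.lc 3 2 (.lc 3 2 (.lc 3 2 (.lc 3 2 (.lc 3 2 (.lc 3 2 (.lc 3 2 (.lc 4 2 (.lc 4 2 .stop))))))))))))))))))))))))))))))))))))))))))))))))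
 (.lc 0 0 (.lc 2 5 (.lc 0 0 (.lc 3 5 .stop)))))))))
 (.conf [70,83] (.conf [64,83] (.conf [71,83] (.lc 0 0 (.node [65,83,101,50] 5 3 (.lc 1 2 (.lc 1 2 (.lc 1 2 (.node [80] 6 5 (.conf [1,96] (.lc 1 0 (.lc 2 0 (.lc 2 0 (.lc 2 0 (.lc 2 0 (.lc 3 7 (.lc 2 0 (.lc 3 0 (.lc 3 0 .stop))))))))))
 (.lc 3 3 (.node [87,114] 6 5 (.lc 1 7 (.node [103] 6 7 (.lc 2 0 (.lc 2 8 (.lc 3 0 (.lc 1 0 (.lc 2 2 (.lc 0 8 (.lc 3 8 (.lc 3 0 (.lc 3 9 (.lc 1 0 (.lc 1 0 (.lc 0 0 (.lc 0 8 (.lc 2 0 (.lc 2 0 (.lc 0 0 (.lc 0 9 .stop)))))))))))))))))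
 (.lc 1 7 (.lc 2 3 (.lc 2 3 (.lc 2 7 (.lc 3 0 (.lc 3 8 (.lc 2 7 (.lc 2 7 (.lc 2 7 (.lc 1 2 (.lc 1 2 (.lc 2 7 (.lc 2 7 (.lc 2 3 (.lc 2 3 (.lc 2 3 (.lc 2 3 (.lc 2 7 (.lc 3 0 (.lc 3 8 (.lc 2 7 (.lc 2 7 (.lc 3 3 (.lc 3 3 (.lc 3 3 (.lc 3 7 (.lc 4 8 (.lc 4 0 (.lc 4 9 (.lc 3 7 (.lc 3 7 (.lc 3 7 (.lc 3 3 (.lc 3 3 (.lc 3 3 (.lc 3 3 (.lc 3 3 (.lc 3 3 (.lc 3 3 (.lc 3 3 (.lc 3 3 (.lc 4 3 (.lc 4 3 (.lc 4 3 (.lc 4 3 .stop)))))))))))))))))))))))))))))))))))))))))))))))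
 (.lc 2 2 (.lc 2 2 (.lc 2 2 (.lc 2 2 (.lc 2 2 (.lc 2 2 (.lc 2 2 (.lc 2 2 (.node [80] 6 5 (.far [16,256,256,0,4096] 17 (.lc 1 0 (.lc 2 0 (.lc 3 7 (.lc 2 0 (.far [16,256,256,0,4096] 17 (.lc 2 0 (.lc 2 0 (.lc 2 0 (.lc 3 7 (.lc 2 0 (.lc 3 0 (.lc 4 8 (.lc 3 0 (.lc 3 0 (.lc 3 0 (.lc 3 0 (.lc 4 0 .stop))))))))))))))))))
 (.lc 3 3 (.node [87,114] 6 5 (.lc 1 7 (.far [16,257,256,0,4096] 0 (.lc 1 7 (.lc 2 3 (.lc 2 3 (.lc 2 7 (.lc 3 0 (.lc 3 8 (.lc 2 7 (.lc 2 7 (.lc 2 7 (.far [16,257,256,0,4096] 0 (.far [16,257,256,0,4096] 0 (.lc 2 7 (.lc 2 7 (.lc 2 3 (.lc 2 3 (.lc 2 3 (.lc 2 3 (.lc 2 7 (.lc 3 0 (.lc 3 8 (.lc 2 7 (.lc 2 7 (.lc 3 3 (.lc 3 3 (.lc 3 3 (.lc 3 7 (.lc 4 8 (.lc 4 0 (.lc 4 9 (.lc 3 7 (.lc 3 7 (.lc 3 7 (.lc 3 3 (.lc 3 3 (.lc 3 3 (.lc 3 3 (.lc 3 3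 (.lc 3 3 (.lc 3 3 (.lc 3 3 (.lc 3 3 (.lc 4 3 (.lc 4 3 (.lc 4 3 (.lc 4 3 .stop)))))))))))))))))))))))))))))))))))))))))))))))
 (.lc 3 0 (.lc 3 7 (.lc 2 2 (.lc 2 2 (.lc 2 2 (.lc 4 3 (.node [87,112] 6 5 (.far [16,256,256,0,4096] 17 (.lc 1 7 (.lc 2 3 (.lc 3 8 (.lc 2 7 (.lc 1 0 (.lc 2 7 (.lc 2 3 (.lc 2 3 (.lc 3 8 (.lc 2 7 (.lc 3 3 (.lc 4 9 (.lc 3 7 (.lc 3 3 (.lc 3 3 (.lc 3 3 (.lc 4 3 .stop))))))))))))))))))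
 (.lc 4 3 (.node [88,135,114] 6 5 (.lc 1 8 (.far [16,256,256,0,4096] 0 (.lc 1 8 (.lc 2 3 (.lc 2 3 (.lc 2 8 (.lc 3 0 (.lc 3 9 (.lc 2 8 (.lc 2 8 (.lc 2 8 (.lc 1 7 (.lc 1 7 (.lc 2 8 (.lc 2 8 (.lc 2 3 (.lc 2 3 (.lc 2 3 (.lc 2 3 (.lc 2 8 (.lc 3 0 (.lc 3 9 (.lc 2 8 (.lc 2 8 (.lc 3 3 (.lc 3 3 (.lc 3 3 (.lc 3 8 (.lc 4 9 (.lc 4 0 (.lc 4 10 (.lc 3 8 (.lc 3 8 (.lc 3 8 (.lc 3 3 (.lc 3 3 (.lc 3 3 (.lc 3 3 (.lc 3 3 (.lc 3 3 (.lc 3 3 (.lc 3 3 (.lc 3 3 (.lc 4 3 (.lc 4 3 (.lc 4 3 (.lc 4 3 .stop)))))))))))))))))))))))))))))))))))))))))))))))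
 (.lc 3 2 (.lc 3 2 (.lc 3 2 (.lc 3 2 (.lc 4 7 (.lc 4 8 (.lc 4 7 (.lc 4 8 (.lc 4 7 (.lc 4 8 (.lc 5 8 (.lc 5 9 .stop))))))))))))))))))))))))))))))))))))))
 (.conf [70,96] (.node [64,83,101,50] 4 0 (.lc 0 0 .stop)
 (.conf [71,118] (.conf [70,83] (.conf [64,83] (.conf [71,83] (.lc 0 0 (.node [65,83,101,50] 5 3 (.lc 1 2 (.lc 1 2 (.lc 3 0 (.lc 3 7 (.lc 2 2 (.lc 2 2 (.lc 2 2 (.lc 2 2 (.lc 2 2 (.lc 3 0 (.lc 3 7 (.node [98] 6 2 (.far [1,257,0,1,1] 4096 (.node [103,114] 1 6 (.lc 1 7 (.node [114] 7 2 (.far [1,0,1,257,0,1,1] 4096 (.node [120] 8 2 (.far [1,1,0,1,257,0,1,1] 4096 (.node [137,144,120] 7 8 (.lc 2 1 (.node [122,137,144] 8 9 (.far [4112,1,4096,257,0,1,257,0,1,1] 4096 (.lc 0 11 (.lc 0 11 (.node [144,185] 1 7 (.node [171] 1 10 (.node [171] 10 11 .stop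
 (.lc 1 9 .stop))
 (.lc 1 11 (.lc 1 11 .stop)))
 (.lc 0 12 .stop)))))
 (.conf [130,169,122] (.lc 3 1 (.conf [137,168] (.lc 3 1 (.conf [130,144] (.lc 3 1 (.conf [130,144] (.lc 4 1 .stop))))))))))
 (.node [144,137] 1 7 (.node [7,120,137] 0 7 .stop
 (.node [113,137] 1 8 .stop
 (.node [120,144,151,137] 9 7 (.lc 0 2 .stop)
 (.node [120,137] 7 8 (.node [137] 1 10 (.node [10] 0 10 (.far [257,1,257,256,16,256] 17 (.conf [155,168,186] .stop))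
 (.conf [154,168] (.conf [1,154] (.conf [154,168] (.conf [11,186] (.conf [1,155] .stop))))))
 (.lc 2 9 (.lc 2 2 (.far [4112,1,0,4112,256,256] 0 (.lc 2 9 (.lc 3 9 .stop))))))
 (.lc 2 1 (.lc 2 1 (.far [257,16,16,256,256] 17 (.conf [10,167] (.lc 1 9 (.conf [1,151] (.node [120,167,186,120,137,144] 7 8 (.far [257,16,0,257,4096,4096] 0 (.lc 2 9 (.lc 2 2 (.lc 0 12 (.lc 2 9 (.lc 3 9 .stop))))))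
 (.lc 2 1 (.far [257,16,16,256,256] 17 (.lc 3 1 (.conf [1,154] .stop)))))))))))))))
 (.far [1,1,0,1,257,0,1,1] 4096 (.node [138,169,120,144] 7 8 (.lc 2 1 (.node [123,138,169,144] 8 10 (.far [4112,1,4096,257,0,1,257,0,1,1] 4096 (.lc 2 9 (.lc 0 12 (.lc 2 9 (.lc 3 9 .stop)))))
 (.conf [130,169] (.lc 3 1 (.conf [138,184] (.lc 3 1 (.node [130,169,144,123] 10 9 (.conf [144,185] (.lc 2 0 (.lc 0 12 (.lc 2 0 (.lc 3 0 .stop)))))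
 (.lc 3 1 (.conf [130,203,124] (.lc 4 1 .stop))))))))))
 .stop)))))
 (.node [120,128] 1 7 (.far [1,4096,256,257,257,0,1,1] 4096 (.node [120,128] 7 8 (.far [4112,1,4096,256,257,257,0,1,1] 4096 (.lc 2 0 (.lc 0 10 (.lc 2 0 (.lc 3 0 .stop)))))
 (.lc 2 1 (.node [128,152] 9 8 (.far [16,16,257,4096,4096] 17 (.lc 3 10 (.far [16,16,257,4096,4096] 17 (.lc 3 10 (.lc 4 11 .stop)))))
 (.conf [120,151] (.lc 2 1 (.lc 3 1 .stop)))))))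
 (.lc 3 8 (.lc 3 9 (.node [120,128] 1 7 (.far [1,4112,256,256] 0 (.node [120,128] 7 8 (.far [4112,1,4112,256,256] 0 (.lc 2 0 (.lc 0 10 (.lc 2 0 (.lc 3 0 .stop)))))
 (.lc 2 1 (.node [128,152] 9 8 (.conf [1,144] (.lc 3 10 .stop))
 (.conf [120,151] (.lc 2 1 (.lc 3 1 .stop)))))))
 (.node [121,130,152] 8 2 (.node [128,152] 7 9 (.node [112,152] 7 0 (.far [4112,4112,0,4112,256,256] 0 .stop)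
 (.far [4112,0,4112,256,256] 0 (.node [122,152] 1 7 (.far [1,4112,0,4112,256,256] 0 (.lc 1 9 (.lc 1 9 (.lc 1 9 (.far [1,4112,1,4096] 256 (.lc 2 9 .stop))))))
 (.lc 2 8 (.lc 2 8 (.lc 2 8 (.lc 3 1 (.lc 3 1 (.far [16,1,4096] 256 (.conf [123,186] (.lc 2 8 (.lc 2 8 (.lc 2 8 (.lc 2 8 (.lc 3 1 (.lc 3 1 (.lc 3 1 (.lc 3 8 (.lc 3 8 (.lc 4 1 (.lc 4 1 (.lc 4 1 (.lc 4 1 (.lc 4 1 (.lc 5 1 .stop)))))))))))))))))))))))))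
 (.node [138,160,152] 9 8 (.node [154,160] 7 9 (.lc 1 10 (.lc 2 11 (.lc 3 11 (.lc 3 1 (.lc 3 12 (.lc 1 0 (.lc 3 11 (.lc 3 1 (.lc 3 1 (.lc 4 12 (.lc 4 1 (.lc 4 1 .stop))))))))))))
 (.lc 3 11 (.node [155,160] 7 9 (.lc 1 11 (.lc 2 12 (.lc 3 12 (.lc 3 1 (.lc 3 13 (.lc 1 10 (.lc 3 12 (.lc 3 1 (.lc 3 1 (.lc 4 13 (.lc 4 1 (.lc 4 1 .stop))))))))))))
 (.lc 3 11 (.lc 4 12 .stop)))))
 (.node [138,160,138,152,121] 7 9 (.lc 2 1 (.lc 0 0 (.node [123,152] 1 7 (.far [1,4112,0,4112,256,256] 0 (.lc 1 9 (.lc 1 9 (.lc 0 1 .stop))))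
 (.lc 3 1 (.lc 2 8 (.lc 2 8 (.lc 3 1 (.conf [124,203] (.lc 2 8 (.lc 3 1 (.lc 2 8 (.lc 2 8 (.lc 3 1 (.lc 3 1 (.lc 3 1 (.lc 3 1 (.lc 1 1 (.lc 3 8 (.lc 1 1 (.lc 1 1 (.lc 4 1 (.lc 4 1 (.lc 1 1 (.lc 4 1 (.lc 1 1 .stop)))))))))))))))))))))))))
 (.node [138,160,152] 9 8 (.far [1,1,1,0,1,257,0,1,1] 4096 (.lc 3 11 (.lc 1 0 (.lc 3 11 (.lc 4 12 .stop)))))
 (.node [139,186,152,160] 9 8 (.node [155] 7 9 (.lc 1 11 (.lc 2 10 (.lc 2 12 (.lc 3 12 (.lc 3 1 (.lc 3 13 (.lc 3 10 (.lc 3 1 (.lc 3 1 (.lc 4 12 (.lc 4 1 (.lc 4 1 .stop))))))))))))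
 (.lc 3 12 (.lc 1 10 (.lc 3 12 (.lc 4 13 .stop)))))
 .stop)))))
 (.node [120] 1 7 (.far [16,257,4096,4096] 17 (.node [120] 7 8 (.far [257,16,257,4096,4096] 17 (.conf [128,154,113] (.node [154,168,113] 1 9 (.node [154,168] 9 10 .stop
 (.far [257,257,256,257,0,1,257,0,1,1] 33 .stop))
 (.far [257,16,257,4096,4096] 17 (.conf [128,155,113] .stop)))))
 (.lc 2 1 (.far [16,257,4096,4096] 17 (.node [120,151,169,120] 9 7 (.far [16,16,257,4096,4096] 17 (.lc 1 0 (.lc 1 0 (.lc 3 11 (.lc 2 0 .stop)))))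
 (.lc 2 1 (.lc 3 1 .stop)))))))
 (.lc 3 8 (.lc 3 8 (.lc 3 9 (.node [121,128,152] 1 7 (.node [113,152,128] 1 9 .stop
 (.node [121,152,128] 7 9 (.node [152,169] 1 10 (.node [10] 10 9 (.node [152,171,128] 9 8 (.far [4112,1,0,4096,1,16,256,256] 0 (.lc 2 0 (.lc 0 12 (.lc 2 0 (.lc 3 0 .stop)))))
 (.conf [128,151] (.conf [152,185] (.node [128,151,171] 8 0 .stop
 (.conf [151,172,203] .stop)))))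
 (.conf [138,169] (.lc 1 10 (.lc 1 10 (.conf [11,186] (.lc 1 11 .stop))))))
 (.lc 2 8 (.lc 0 11 (.lc 2 8 (.lc 3 8 .stop)))))
 (.lc 2 1 (.node [152,169,128] 10 9 (.far [16,16,257,4096,4096] 17 (.lc 1 0 (.lc 1 0 (.lc 3 11 (.lc 2 0 .stop)))))
 (.conf [121,167] (.lc 2 1 (.lc 3 1 .stop)))))))
 (.lc 4 9 (.lc 4 10 (.lc 4 9 (.lc 4 9 (.lc 4 9 (.lc 5 10 .stop))))))))))))))))))
 (.lc 1 7 (.lc 2 1 (.lc 2 1 (.node [114] 7 2 (.node [120] 7 8 (.node [] 8 2 (.lc 2 0 .stop)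
 (.lc 2 2 (.far [4112,4112,257,16,16,257,256] 0 (.lc 2 2 (.lc 3 2 .stop)))))
 (.conf [121,152] .stop))
 (.lc 3 8 (.lc 2 7 (.lc 3 9 (.far [16,257,1,4112,4096] 0 (.far [16,257,1,4112,4096] 0 (.lc 2 7 (.lc 2 7 (.lc 2 1 (.lc 2 1 (.lc 2 1 (.lc 3 8 (.far [1,4112,16,257,256] 4097 (.lc 3 8 (.lc 2 7 (.lc 3 9 (.lc 3 1 (.lc 3 1 (.node [114,135] 8 7 (.node [114,137] 7 2 (.far [257,16,4112,1,1,4112,4096] 0 (.lc 0 10 .stop))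
 (.lc 2 2 (.lc 3 10 (.conf [114,151] (.lc 2 2 (.lc 3 10 (.lc 4 11 (.lc 3 2 .stop))))))))
 (.lc 4 9 (.lc 3 7 (.lc 4 10 (.lc 3 1 (.lc 4 9 (.lc 3 1 (.lc 4 9 (.lc 3 1 (.lc 4 9 (.lc 4 1 (.lc 5 10 .stop)))))))))))))))))))))))))))))))))))
 (.node [103,112] 6 7 (.far [4112,4096,0,1,257,257] 4096 (.lc 2 8 (.lc 0 8 (.lc 3 9 (.lc 3 1 (.lc 0 8 (.lc 3 9 (.node [112,135] 8 7 (.far [16,257,257,1,4112,4096] 17 (.lc 3 9 (.far [16,257,257,1,4112,4096] 17 (.lc 3 9 (.lc 4 10 .stop)))))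
 (.lc 3 9 (.lc 3 1 (.lc 0 8 (.lc 0 9 (.lc 4 10 (.lc 0 9 (.lc 0 9 (.lc 0 9 (.lc 4 1 (.lc 0 10 .stop))))))))))))))))))
 (.lc 2 0 (.lc 3 7 (.lc 3 8 (.node [103,112] 6 7 (.far [4112,4112,16,257,256] 0 (.lc 2 8 (.lc 0 8 (.lc 3 9 (.lc 3 1 (.lc 0 8 (.lc 3 9 (.node [112,135] 8 7 (.conf [1,128] (.lc 3 9 .stop))
 (.lc 3 9 (.lc 3 1 (.lc 0 8 (.lc 0 9 (.lc 4 10 (.lc 0 9 (.lc 0 9 (.lc 0 9 (.lc 4 1 (.lc 0 10 .stop))))))))))))))))))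
 (.node [104,135,114] 6 8 (.lc 2 0 (.far [4112,4112,16,257,256] 0 (.lc 2 9 (.node [135,114] 8 7 (.far [4112,4112,4112,16,257,256] 4097 (.lc 2 2 (.far [4112,4112,4112,16,257,256] 4097 (.lc 2 2 (.lc 3 2 .stop)))))
 (.lc 3 9 (.lc 3 0 (.lc 0 9 (.lc 3 10 (.lc 3 1 (.lc 3 1 (.far [4112,4112,16,257,256] 4097 (.lc 3 9 (.lc 3 0 (.lc 0 9 (.lc 3 10 (.node [135,114] 8 7 (.conf [7,114] (.lc 2 2 .stop))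
 (.lc 3 9 (.lc 3 0 (.node [135,152,114] 9 8 (.node [114] 9 7 (.lc 1 2 (.lc 1 2 (.lc 3 0 (.lc 3 10 (.lc 2 2 (.lc 2 2 (.lc 2 2 (.lc 2 2 (.lc 2 2 (.lc 3 0 (.lc 2 2 (.lc 4 10 (.lc 3 2 .stop)))))))))))))
 (.lc 1 2 (.lc 1 2 (.lc 1 2 (.lc 1 2 (.lc 3 0 (.lc 3 10 (.lc 2 2 (.lc 2 2 (.lc 2 2 .stop))))))))))
 (.lc 3 10 (.lc 3 1 (.lc 3 1 (.lc 3 1 (.lc 0 9 (.lc 4 10 (.node [135,152,114] 9 8 (.far [1,4112,4112,16,257,256] 4097 (.lc 1 2 (.lc 1 2 (.lc 3 10 (.lc 2 2 .stop)))))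
 (.lc 4 10 (.lc 4 0 (.lc 0 10 (.lc 4 11 (.lc 4 1 (.lc 0 10 (.lc 4 1 (.lc 0 10 (.lc 4 1 (.lc 0 10 (.lc 4 1 (.lc 4 1 (.lc 5 1 (.lc 0 11 .stop))))))))))))))))))))))))))))))))))))))))
 (.node [103,112] 1 6 (.far [16,257,1,4112,4096] 17 (.lc 1 7 (.lc 2 1 (.lc 3 8 (.lc 3 9 (.far [16,257,1,4112,4096] 17 (.lc 2 7 (.lc 2 1 (.lc 3 8 (.lc 3 8 (.lc 3 9 (.lc 3 1 (.lc 4 9 (.lc 4 10 (.lc 4 9 (.lc 4 9 (.lc 4 9 (.lc 5 10 .stop))))))))))))))))))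
 (.lc 2 0 (.lc 3 7 (.lc 2 0 (.lc 3 7 (.lc 3 8 (.node [104,135,112] 6 8 (.node [135,112] 8 7 (.node [112,137] 1 8 (.far [1,4112,4096,16,16,257,256] 0 (.lc 1 7 .stop))
 (.lc 2 0 (.lc 3 1 (.conf [112,151] (.lc 2 0 (.lc 2 0 (.lc 3 0 (.lc 3 0 .stop))))))))
 (.lc 2 9 (.lc 0 9 (.lc 3 10 (.lc 3 1 (.lc 0 9 (.lc 3 10 (.node [135,152,112] 9 8 (.far [16,257,257,1,4112,4096] 17 (.lc 1 0 (.lc 1 0 (.lc 3 10 (.lc 2 0 .stop)))))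
 (.lc 3 10 (.lc 3 1 (.lc 0 9 (.lc 0 10 (.lc 4 11 (.lc 0 10 (.lc 0 10 (.lc 0 10 (.lc 4 1 (.lc 0 11 .stop))))))))))))))))))
 (.lc 3 0 (.lc 4 8 (.lc 4 9 (.lc 4 8 (.lc 3 0 (.lc 4 8 (.lc 3 0 (.lc 4 8 (.lc 3 0 (.lc 5 9 (.lc 4 0 .stop))))))))))))))))))))))))))
 (.lc 2 2 (.lc 2 2 (.lc 4 7 (.lc 4 8 (.lc 3 2 (.lc 3 2 (.lc 3 2 (.lc 0 0 (.lc 0 7 (.lc 0 0 (.lc 0 7 (.far [256,256,0,4096] 17 (.far [256,256,0,4096] 0 (.lc 0 7 (.lc 0 8 .stop)))))))))))))))))))))))))))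
 (.lc 0 0 (.node [65,50,83,101] 5 3 (.lc 1 2 (.lc 1 2 (.lc 1 2 (.node [80] 6 5 (.far [1,4096,1,0,256] 0 (.lc 1 0 (.lc 2 0 (.lc 2 0 (.lc 2 0 (.lc 2 0 (.conf [1,112] (.lc 2 0 (.lc 3 0 (.lc 3 0 .stop))))))))))
 (.lc 3 3 (.node [87,114] 5 7 (.lc 2 0 (.far [4112,4096,1,0,256] 0 (.lc 2 8 (.lc 2 2 (.lc 3 8 (.lc 3 0 (.lc 2 2 (.lc 3 9 (.lc 3 3 (.lc 3 3 (.far [4112,4096,1,0,256] 0 (.lc 3 8 (.lc 3 0 (.far [4112,4096,1,0,256] 0 (.lc 3 9 (.lc 2 2 (.lc 3 8 (.lc 3 0 (.lc 2 2 (.lc 3 9 (.lc 3 3 (.lc 3 3 (.lc 3 3 (.lc 3 3 (.lc 3 2 (.lc 4 9 (.lc 3 2 (.lc 4 9 (.lc 4 0 (.lc 3 2 (.lc 4 10 (.lc 4 3 (.lc 4 3 (.lc 4 3 (.lc 4 3 (.lc 4 3 (.lc 4 3 (.lc 4 3 (.lc 4 3 (.lc 4 3 (.lc 4 3 (.lc 4 3 (.lc 4 3 (.lc 5 3 (.lc 5 3 (.lc 5 3 (.lc 5 3 .stop)))))))))))))))))))))))))))))))))))))))))))))))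
 (.lc 2 2 (.lc 2 2 (.lc 2 2 (.lc 2 2 (.lc 2 2 (.lc 2 2 (.lc 2 2 (.lc 2 2 (.node [80] 6 5 (.node [96] 1 6 (.lc 1 0 (.lc 2 7 (.lc 3 8 (.lc 3 8 (.lc 3 8 (.lc 4 9 .stop))))))
 (.lc 1 0 (.lc 2 0 (.node [103,112] 1 6 (.lc 2 8 (.lc 3 8 (.lc 3 9 (.lc 3 8 (.lc 4 9 .stop)))))
 (.lc 2 0 (.far [16,257,16,4096,4096] 0 (.lc 2 0 (.lc 2 0 (.lc 2 0 (.far [1,4112,1,256,256] 0 (.lc 2 0 (.lc 3 0 (.node [104,135,112] 6 8 (.lc 2 9 (.lc 3 10 (.lc 0 9 (.lc 3 10 (.lc 3 10 (.lc 0 9 (.lc 4 11 (.lc 0 10 .stop))))))))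
 (.lc 3 0 (.lc 3 0 (.lc 3 0 (.lc 3 0 (.lc 4 0 .stop))))))))))))))))))
 (.lc 3 3 (.node [87,114] 6 5 (.lc 1 7 (.node [103] 7 2 (.node [112] 6 7 (.far [1,4112,256,256] 0 (.lc 0 7 (.node [112,104] 8 7 (.far [1,1,4112,256,256] 0 (.lc 0 6 (.node [137,144,112] 1 6 (.lc 2 8 (.lc 2 9 (.lc 2 10 (.lc 3 10 (.lc 3 0 (.lc 3 9 (.lc 3 10 (.lc 3 9 (.lc 3 11 (.lc 3 9 (.lc 4 10 .stop)))))))))))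
 (.node [144,137] 1 6 (.lc 2 8 (.lc 2 9 (.lc 2 10 (.lc 3 9 (.lc 3 10 (.lc 3 0 (.lc 3 10 (.lc 3 11 (.lc 3 10 (.lc 4 11 .stop))))))))))
 (.far [1,1,4112,256,256] 0 (.node [138,169,112,144] 1 6 (.lc 2 8 (.lc 2 9 (.lc 2 10 (.lc 2 11 (.lc 3 11 (.lc 3 0 (.lc 3 10 (.lc 3 9 (.lc 3 12 (.lc 3 10 (.lc 4 11 .stop)))))))))))
 .stop))))))
 (.lc 0 0 (.lc 2 0 (.lc 3 8 (.lc 3 9 (.lc 0 0 (.node [112,104,128] 6 8 (.lc 0 8 (.lc 2 9 (.lc 3 10 (.lc 0 9 (.lc 3 10 (.lc 0 9 (.lc 3 10 (.lc 0 9 (.lc 4 11 (.lc 0 10 .stop))))))))))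
 (.node [112,135,152,105,112] 8 7 (.node [128] 1 6 (.node [105] 6 9 .stop
 (.lc 2 9 (.lc 2 10 (.lc 3 10 (.lc 3 0 (.lc 3 0 (.lc 3 10 (.lc 3 11 (.lc 2 1 (.lc 3 10 (.lc 3 0 (.lc 4 11 (.lc 4 0 .stop)))))))))))))
 (.lc 0 6 (.lc 3 10 (.node [138,160,138,152] 6 9 (.lc 0 9 (.lc 0 0 (.node [107,152] 1 6 (.lc 2 11 (.lc 3 12 .stop))
 (.lc 2 8 (.lc 2 8 (.lc 0 11 (.conf [108,203] (.lc 0 11 (.lc 2 8 (.lc 2 8 (.lc 0 10 (.lc 0 11 (.lc 3 8 (.lc 0 0 (.lc 0 12 .stop)))))))))))))))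
 (.lc 3 10 (.lc 4 11 .stop))))))
 (.lc 3 1 (.lc 2 0 (.lc 3 8 (.lc 3 8 (.lc 3 9 (.lc 3 0 (.lc 4 9 (.lc 4 10 (.lc 4 9 (.lc 4 9 (.lc 4 9 (.lc 5 10 .stop))))))))))))))))))))))
 (.lc 1 0 (.lc 1 0 (.lc 2 0 (.lc 2 0 (.lc 3 8 (.lc 2 0 (.lc 0 0 (.node [120,128] 7 8 (.far [4112,4112,256,256] 0 (.node [121,128,103] 6 7 (.far [1,4112,4112,256,256] 0 (.lc 3 10 (.lc 1 8 (.lc 3 10 (.lc 4 11 .stop)))))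
 (.lc 0 9 (.lc 2 0 (.lc 3 2 (.lc 0 9 (.conf [122,169] (.lc 2 0 (.lc 2 0 (.lc 1 8 (.lc 3 2 (.lc 0 9 (.lc 0 10 (.lc 3 0 (.lc 0 10 (.lc 0 10 (.lc 0 10 (.lc 4 2 (.lc 0 11 .stop)))))))))))))))))))
 (.lc 2 0 (.lc 2 0 (.lc 2 0 (.lc 2 0 (.lc 2 0 (.lc 3 8 (.lc 2 0 (.lc 3 0 (.lc 3 0 (.lc 4 9 (.lc 3 0 (.lc 3 0 (.lc 3 0 (.lc 3 0 (.lc 4 0 .stop))))))))))))))))))))))))
 (.lc 1 7 (.lc 2 3 (.lc 2 3 (.lc 2 7 (.node [96,114] 6 0 (.lc 2 8 (.lc 3 9 .stop))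
 (.node [104,114] 7 2 (.lc 2 0 (.lc 1 0 (.lc 2 0 (.far [4096,257,0,1,257,257] 4096 (.lc 2 0 (.lc 3 9 (.lc 2 0 (.lc 2 0 (.lc 2 0 (.lc 0 0 (.lc 2 0 (.lc 3 0 (.lc 0 9 (.lc 3 0 (.lc 3 0 (.lc 3 0 (.lc 3 0 (.lc 4 0 .stop))))))))))))))))))
 (.lc 2 7 (.lc 2 7 (.lc 2 7 (.far [16,257,16,4096,4096] 0 (.far [16,257,16,4096,4096] 0 (.lc 2 7 (.lc 2 7 (.lc 2 3 (.lc 2 3 (.lc 2 3 (.lc 2 3 (.lc 2 7 (.far [1,4112,1,256,256] 0 (.far [1,4112,1,256,256] 0 (.lc 2 7 (.lc 2 7 (.lc 3 3 (.lc 3 3 (.lc 3 3 (.lc 3 7 (.node [104,114,128] 0 7 .stop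
 (.node [96,114,135] 6 0 .stop
 (.node [105,114,135] 8 7 (.lc 1 2 (.lc 1 2 (.lc 3 0 (.lc 1 0 (.lc 0 6 (.lc 2 2 (.lc 2 2 (.lc 2 2 (.lc 2 2 (.lc 2 2 (.lc 2 2 (.lc 1 0 (.node [128] 9 8 (.far [1,1,257,0,1,257,257] 4096 (.lc 0 6 (.lc 3 10 (.node [154,160] 6 9 (.lc 2 11 (.lc 3 11 (.lc 0 11 (.lc 3 12 (.lc 3 11 (.lc 0 10 (.lc 4 12 (.lc 0 11 .stop))))))))
 (.lc 3 10 (.lc 4 11 .stop))))))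
 (.lc 1 0 (.lc 2 2 (.lc 2 2 (.lc 2 2 (.lc 2 0 (.lc 3 2 (.lc 3 2 (.lc 3 2 (.lc 3 2 (.node [138,160] 9 8 (.far [1,1,257,0,1,257,257] 4096 (.lc 3 11 (.lc 1 0 (.lc 3 11 (.lc 4 12 .stop)))))
 (.lc 2 0 (.lc 2 0 (.lc 2 0 (.lc 3 0 .stop)))))))))))))))))))))))))))
 (.lc 3 7 (.lc 3 7 (.lc 3 7 (.lc 3 3 (.lc 3 3 (.lc 3 3 (.lc 3 3 (.lc 3 3 (.lc 3 3 (.lc 3 3 (.lc 3 3 (.lc 3 3 (.lc 4 3 (.lc 4 3 (.lc 4 3 (.lc 4 3 .stop)))))))))))))))))))))))))))))))))))))))))))))))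
 (.lc 3 0 (.lc 3 7 (.lc 2 2 (.lc 2 2 (.lc 2 2 (.lc 4 3 (.node [87,112] 5 7 (.far [4112,4112,1,256,256] 0 (.lc 2 8 (.lc 2 0 (.lc 3 9 (.lc 3 3 (.far [4112,4112,1,256,256] 0 (.lc 3 9 (.lc 2 0 (.lc 3 9 (.lc 3 3 (.lc 3 3 (.lc 3 0 (.lc 4 10 (.lc 4 3 (.lc 4 3 (.lc 4 3 (.lc 4 3 (.lc 5 3 .stop))))))))))))))))))
 (.lc 4 3 (.node [88,135,114] 5 8 (.lc 2 0 (.far [4112,4112,1,256,256] 0 (.lc 2 9 (.lc 2 7 (.lc 3 9 (.lc 3 0 (.lc 2 7 (.lc 3 10 (.lc 3 3 (.lc 3 3 (.far [4112,4112,1,256,256] 0 (.lc 3 9 (.lc 3 0 (.far [4112,4112,1,256,256] 0 (.lc 3 10 (.lc 2 7 (.lc 3 9 (.lc 3 0 (.lc 2 7 (.lc 3 10 (.lc 3 3 (.lc 3 3 (.lc 3 3 (.lc 3 3 (.lc 3 7 (.lc 4 10 (.lc 3 7 (.lc 4 10 (.lc 4 0 (.lc 3 7 (.lc 4 11 (.lc 4 3 (.lc 4 3 (.lc 4 3 (.lc 4 3 (.lc 4 3 (.lc 4 3 (.lc 4 3 (.lc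 4 3 (.lc 4 3 (.lc 4 3 (.lc 4 3 (.lc 4 3 (.lc 5 3 (.lc 5 3 (.lc 5 3 (.lc 5 3 .stop)))))))))))))))))))))))))))))))))))))))))))))))
 (.lc 3 2 (.lc 3 2 (.lc 3 2 (.lc 3 2 (.lc 4 7 (.lc 4 8 (.lc 4 7 (.lc 4 8 (.lc 4 7 (.lc 4 8 (.lc 5 8 (.lc 5 9 .stop))))))))))))))))))))))))))))))))))))))
 (.conf [71,83] (.conf [71,83] (.conf [64,83] (.conf [72,83] (.lc 0 0 (.node [65,83,101,118,50] 5 3 (.lc 1 2 (.lc 1 2 (.lc 1 2 (.node [80] 6 5 (.conf [1,96] (.lc 1 0 (.lc 2 0 (.lc 2 0 (.lc 2 0 (.lc 2 0 (.lc 3 8 (.lc 2 0 (.lc 3 0 (.lc 3 0 .stop))))))))))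
 (.lc 3 3 (.node [88,130] 6 5 (.lc 1 8 (.far [1,4096,4096,0,256] 0 (.lc 1 8 (.lc 2 3 (.lc 2 3 (.lc 2 8 (.lc 3 0 (.lc 3 9 (.lc 2 8 (.lc 2 8 (.lc 2 8 (.lc 1 2 (.lc 1 2 (.lc 2 8 (.lc 2 8 (.lc 2 3 (.lc 2 3 (.lc 2 3 (.lc 2 3 (.lc 2 8 (.lc 3 0 (.lc 3 9 (.lc 2 8 (.lc 2 8 (.lc 3 3 (.lc 3 3 (.lc 3 3 (.lc 3 8 (.lc 4 9 (.lc 4 0 (.lc 4 10 (.lc 3 8 (.lc 3 8 (.lc 3 8 (.lc 3 3 (.lc 3 3 (.lc 3 3 (.lc 3 3 (.lc 3 3 (.lc 3 3 (.lc 3 3 (.lc 3 3 (.lc 3 3 (.lc 4 3 (.lc 4 3 (.lc 4 3 (.lc 4 3 .stop)))))))))))))))))))))))))))))))))))))))))))))))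
 (.lc 2 2 (.lc 2 2 (.lc 2 2 (.lc 2 2 (.lc 2 2 (.lc 2 2 (.lc 2 2 (.lc 2 2 (.node [80] 6 5 (.far [16,257,16,4096,4096] 0 (.lc 1 0 (.lc 2 0 (.lc 3 8 (.lc 2 0 (.far [16,257,16,4096,4096] 0 (.lc 2 0 (.lc 2 0 (.lc 2 0 (.lc 3 8 (.lc 2 0 (.lc 3 0 (.lc 4 9 (.lc 3 0 (.lc 3 0 (.lc 3 0 (.lc 3 0 (.lc 4 0 .stop))))))))))))))))))
 (.lc 3 3 (.node [88,130] 6 5 (.lc 1 8 (.far [16,257,16,4096,4096] 0 (.lc 1 8 (.lc 2 3 (.lc 2 3 (.lc 2 8 (.lc 3 0 (.lc 3 9 (.lc 2 8 (.lc 2 8 (.lc 2 8 (.far [16,257,16,4096,4096] 0 (.far [16,257,16,4096,4096] 0 (.lc 2 8 (.lc 2 8 (.lc 2 3 (.lc 2 3 (.lc 2 3 (.lc 2 3 (.lc 2 8 (.lc 3 0 (.lc 3 9 (.lc 2 8 (.lc 2 8 (.lc 3 3 (.lc 3 3 (.lc 3 3 (.lc 3 8 (.lc 4 9 (.lc 4 0 (.lc 4 10 (.lc 3 8 (.lc 3 8 (.lc 3 8 (.lc 3 3 (.lc 3 3 (.lc 3 3 (.lc 3 3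 (.lc 3 3 (.lc 3 3 (.lc 3 3 (.lc 3 3 (.lc 3 3 (.lc 4 3 (.lc 4 3 (.lc 4 3 (.lc 4 3 .stop)))))))))))))))))))))))))))))))))))))))))))))))
 (.lc 3 0 (.lc 3 8 (.lc 2 2 (.lc 2 2 (.lc 2 2 (.lc 4 3 (.node [88,128] 6 5 (.node [104] 6 8 (.lc 2 9 (.lc 3 9 (.lc 0 9 (.lc 3 10 (.lc 0 0 (.lc 2 0 (.lc 3 0 (.conf [1,144] .stop))))))))
 (.lc 1 8 (.lc 2 3 (.lc 3 9 (.lc 2 8 (.lc 1 0 (.lc 2 8 (.lc 2 3 (.lc 2 3 (.lc 3 9 (.lc 2 8 (.lc 3 3 (.lc 4 10 (.lc 3 8 (.lc 3 3 (.lc 3 3 (.lc 3 3 (.lc 4 3 .stop))))))))))))))))))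
 (.lc 4 3 (.node [89,152,130] 6 5 (.lc 1 9 (.node [105] 6 9 (.lc 2 0 (.lc 2 10 (.lc 3 0 (.lc 3 10 (.lc 0 0 (.lc 0 10 (.lc 3 10 (.lc 3 0 (.lc 3 11 (.lc 3 0 (.lc 3 10 (.lc 0 8 (.lc 2 8 (.lc 2 8 (.lc 4 10 (.lc 4 0 (.lc 4 11 (.lc 3 8 (.lc 3 8 (.lc 3 8 (.lc 2 2 (.lc 2 2 (.node [112,130] 7 0 (.far [257,257,257,0,4096] 0 .stop)
 (.node [122,130] 8 2 (.lc 1 0 (.lc 2 0 (.far [4112,1,256,256] 0 (.lc 2 0 (.lc 2 0 (.lc 3 0 .stop))))))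
 (.lc 0 0 (.lc 0 10 (.node [122,130,160] 0 8 (.node [] 7 10 (.lc 0 10 (.lc 0 11 .stop))
 .stop)
 (.node [112,130,168] 7 0 (.node [] 10 8 (.lc 0 0 (.lc 1 0 .stop))
 .stop)
 (.node [123,130,168] 10 8 (.lc 0 0 (.lc 1 0 (.lc 1 0 (.lc 3 0 (.lc 1 0 (.lc 2 0 .stop))))))
 .stop)))))))))))))))))))))))))))))
 (.lc 1 9 (.lc 2 3 (.lc 2 3 (.lc 2 9 (.lc 3 0 (.lc 3 10 (.lc 2 9 (.lc 2 9 (.lc 2 9 (.lc 1 8 (.lc 1 8 (.lc 2 9 (.lc 2 9 (.lc 2 3 (.lc 2 3 (.lc 2 3 (.lc 2 3 (.lc 2 9 (.lc 3 0 (.lc 3 10 (.lc 2 9 (.lc 2 9 (.lc 3 3 (.lc 3 3 (.lc 3 3 (.lc 3 9 (.lc 4 10 (.lc 4 0 (.lc 4 11 (.lc 3 9 (.lc 3 9 (.lc 3 9 (.lc 3 3 (.lc 3 3 (.lc 3 3 (.lc 3 3 (.lc 3 3 (.lc 3 3 (.lc 3 3 (.lc 3 3 (.lc 3 3 (.lc 4 3 (.lc 4 3 (.lc 4 3 (.lc 4 3 .stop)))))))))))))))))))))))))))))))))))))))))))))))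
 (.lc 3 2 (.lc 3 2 (.lc 3 2 (.lc 3 2 (.lc 4 8 (.lc 4 9 (.lc 4 8 (.lc 4 9 (.lc 4 8 (.lc 4 9 (.lc 5 9 (.lc 5 10 .stop))))))))))))))))))))))))))))))))))))))
 (.lc 0 0 (.node [65,83,101,118,50] 5 3 (.lc 1 2 (.lc 1 2 (.lc 3 0 (.lc 3 8 (.lc 2 2 (.lc 2 2 (.lc 2 2 (.lc 2 2 (.lc 2 2 (.lc 3 0 (.lc 3 8 (.far [4096,4096,0,256] 0 (.lc 2 2 (.lc 2 2 (.lc 4 8 (.lc 4 9 (.lc 3 2 (.lc 3 2 (.lc 3 2 (.lc 0 0 (.lc 0 8 (.lc 0 0 (.lc 0 8 (.node [96] 7 6 (.lc 2 0 (.lc 1 0 (.lc 2 0 (.lc 2 0 (.lc 2 0 (.lc 2 0 (.lc 2 0 (.conf [1,128] (.lc 2 0 (.lc 3 0 (.lc 3 0 (.lc 3 0 (.lc 3 0 (.lc 3 0 (.lc 4 0 .stop)))))))))))))))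
 (.node [104,130] 7 6 (.lc 1 8 (.lc 2 8 (.lc 1 8 (.lc 2 8 (.lc 2 8 (.lc 2 8 (.lc 2 8 (.node [112,130] 7 0 (.node [] 8 2 (.far [4096,0,257,0,1,257,257] 4096 .stop)
 .stop)
 (.node [121,130] 8 2 (.lc 1 0 (.lc 2 0 (.far [4096,257,0,1,257,257] 4096 (.lc 2 0 (.lc 2 0 (.lc 3 0 .stop))))))
 (.lc 2 8 (.lc 2 8 (.lc 2 8 (.lc 3 0 (.lc 3 9 (.lc 2 8 (.lc 2 8 (.lc 2 8 (.lc 2 8 (.lc 2 8 (.lc 2 8 (.lc 2 8 (.lc 2 8 (.lc 2 8 (.lc 1 2 (.lc 1 2 (.lc 2 8 (.lc 2 8 (.lc 3 8 (.lc 3 8 (.lc 3 8 (.lc 3 8 (.lc 3 8 (.node [121,130,144] 0 8 (.node [] 7 9 (.lc 0 9 (.lc 0 10 .stop))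
 .stop)
 (.node [112,130,152] 7 0 (.node [] 9 8 (.lc 0 0 (.lc 1 0 .stop))
 .stop)
 (.node [122,130,152] 9 8 (.lc 0 0 (.lc 1 0 (.lc 1 0 (.lc 3 0 (.lc 1 0 (.lc 2 0 .stop))))))
 (.lc 3 8 (.lc 3 8 (.lc 3 8 (.lc 3 8 (.lc 3 8 (.lc 3 8 (.lc 3 8 (.lc 3 8 (.lc 3 8 (.lc 3 8 (.lc 3 8 (.lc 3 8 (.lc 3 8 (.lc 3 8 (.lc 3 8 (.lc 4 8 (.lc 4 8 (.lc 4 8 (.lc 4 8 (.lc 4 8 .stop)))))))))))))))))))))))))))))))))))))))))))))))))))))))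
 (.lc 0 8 (.lc 0 9 .stop)))))))))))))))))))))))))))
 (.lc 0 0 (.node [65,83,101,118,50] 5 3 (.lc 1 2 (.lc 1 2 (.lc 3 0 (.lc 3 8 (.lc 2 2 (.lc 2 2 (.lc 2 2 (.lc 2 2 (.lc 2 2 (.lc 3 0 (.lc 3 8 (.lc 0 2 (.lc 2 2 (.lc 2 2 (.lc 4 8 (.lc 4 9 (.lc 3 2 (.lc 3 2 (.lc 3 2 (.node [96] 7 6 (.far [1,4096,1,0,256] 0 (.conf [1,128] .stop))
 (.node [104,130] 6 8 (.far [4112,4096,1,0,256] 0 (.lc 2 2 (.lc 2 2 (.far [4112,4096,1,0,256] 0 (.far [4112,4096,1,0,256] 0 (.lc 2 2 (.lc 2 2 (.lc 3 2 (.lc 3 2 (.lc 3 2 .stop))))))))))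
 (.node [96] 7 6 (.node [112] 1 7 (.lc 1 0 (.lc 2 8 (.lc 3 9 (.lc 3 9 (.lc 3 9 (.lc 4 10 .stop))))))
 (.node [120,128] 1 7 (.lc 2 9 (.lc 3 9 (.lc 3 10 (.lc 3 9 (.lc 4 10 .stop)))))
 (.far [16,257,16,4096,4096] 0 (.far [1,4112,1,256,256] 0 (.node [121,152,128] 7 9 (.lc 2 10 (.lc 3 11 (.lc 0 10 (.lc 3 11 (.lc 3 11 (.lc 0 10 (.lc 4 12 (.lc 0 11 .stop))))))))
 .stop)))))
 (.node [104,130] 7 6 (.node [120] 8 2 (.node [128] 7 8 (.far [1,4096,256,257,0,1,1] 4096 (.lc 0 8 (.node [128,121] 9 8 (.far [1,1,4096,256,257,0,1,1] 4096 (.lc 0 7 (.node [154,160,128] 1 7 (.lc 2 9 (.lc 2 10 (.lc 2 11 (.lc 3 11 (.lc 3 0 (.lc 3 10 (.lc 3 11 (.lc 3 10 (.lc 3 12 (.lc 3 10 (.lc 4 11 .stop)))))))))))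
 (.node [160,154] 1 7 (.lc 2 9 (.lc 2 10 (.lc 2 11 (.lc 3 10 (.lc 3 11 (.lc 3 0 (.lc 3 11 (.lc 3 12 (.lc 3 11 (.lc 4 12 .stop))))))))))
 (.far [1,1,4096,256,257,0,1,1] 4096 (.node [155,186,128,160] 1 7 (.lc 2 9 (.lc 2 10 (.lc 2 11 (.lc 2 12 (.lc 3 12 (.lc 3 0 (.lc 3 11 (.lc 3 10 (.lc 3 13 (.lc 3 11 (.lc 4 12 .stop)))))))))))
 .stop))))))
 (.lc 0 0 (.lc 2 0 (.lc 3 9 (.lc 3 10 (.lc 0 0 (.node [128,121,144] 7 9 (.lc 0 9 (.lc 2 10 (.lc 3 11 (.lc 0 10 (.lc 3 11 (.lc 0 10 (.lc 3 11 (.lc 0 10 (.lc 4 12 (.lc 0 11 .stop))))))))))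
 (.node [128,152,169,122,128] 9 8 (.node [144] 1 7 (.node [122] 7 10 .stop
 (.lc 2 10 (.lc 2 11 (.lc 3 11 (.lc 3 0 (.lc 3 0 (.lc 3 11 (.lc 3 12 (.lc 2 1 (.lc 3 11 (.lc 3 0 (.lc 4 12 (.lc 4 0 .stop)))))))))))))
 (.lc 0 7 (.lc 3 11 (.node [155,176,155,169] 7 10 (.lc 0 10 (.lc 0 0 (.node [124,169] 1 7 (.lc 2 12 (.lc 3 13 .stop))
 (.lc 2 9 (.lc 2 9 (.lc 0 12 (.conf [125,220] (.lc 0 12 (.lc 2 9 (.lc 2 9 (.lc 0 11 (.lc 0 12 (.lc 3 9 (.lc 0 0 (.lc 0 13 .stop)))))))))))))))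
 (.lc 3 11 (.lc 4 12 .stop))))))
 (.lc 3 1 (.lc 2 0 (.lc 3 9 (.lc 3 9 (.lc 3 10 (.lc 3 0 (.lc 4 10 (.lc 4 11 (.lc 4 10 (.lc 4 10 (.lc 4 10 (.lc 5 11 .stop))))))))))))))))))))))
 (.lc 1 0 (.lc 1 0 (.lc 2 0 (.lc 2 0 (.lc 3 9 (.lc 2 0 (.lc 0 0 (.node [137,144] 8 9 (.far [4112,4096,256,257,0,1,1] 4096 (.node [138,144,120] 7 8 (.far [1,4112,4096,256,257,0,1,1] 4096 (.lc 3 11 (.lc 1 9 (.lc 3 11 (.lc 4 12 .stop)))))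
 (.lc 0 10 (.lc 2 0 (.lc 3 2 (.lc 0 10 (.conf [139,186] (.lc 2 0 (.lc 2 0 (.lc 1 9 (.lc 3 2 (.lc 0 10 (.lc 0 11 (.lc 3 0 (.lc 0 11 (.lc 0 11 (.lc 0 11 (.lc 4 2 (.lc 0 12 .stop)))))))))))))))))))
 (.lc 2 0 (.lc 2 0 (.lc 2 0 (.lc 2 0 (.lc 2 0 (.lc 3 9 (.lc 2 0 (.lc 3 0 (.lc 3 0 (.lc 4 10 (.lc 3 0 (.lc 3 0 (.lc 3 0 (.lc 3 0 (.lc 4 0 .stop))))))))))))))))))))))))
 (.node [112,130] 7 0 (.lc 2 9 (.lc 3 10 .stop))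
 (.node [121,130] 8 2 (.lc 2 0 (.lc 1 0 (.lc 2 0 (.far [4096,257,0,1,257,257] 4096 (.lc 2 0 (.lc 3 10 (.lc 2 0 (.lc 2 0 (.lc 2 0 (.lc 0 0 (.lc 2 0 (.lc 3 0 (.lc 0 10 (.lc 3 0 (.lc 3 0 (.lc 3 0 (.lc 3 0 (.lc 4 0 .stop))))))))))))))))))
 (.far [16,257,16,4096,4096] 0 (.far [16,257,16,4096,4096] 0 (.far [1,4112,1,256,256] 0 (.far [1,4112,1,256,256] 0 (.node [121,130,144] 0 8 .stop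
 (.node [112,130,152] 7 0 .stop
 (.node [122,130,152] 9 8 (.lc 1 2 (.lc 1 2 (.lc 3 0 (.lc 1 0 (.lc 0 7 (.lc 2 2 (.lc 2 2 (.lc 2 2 (.lc 2 2 (.lc 2 2 (.lc 2 2 (.lc 1 0 (.node [144] 10 9 (.far [1,1,257,0,1,257,257] 4096 (.lc 0 7 (.lc 3 11 (.node [171,176] 7 10 (.lc 2 12 (.lc 3 12 (.lc 0 12 (.lc 3 13 (.lc 3 12 (.lc 0 11 (.lc 4 13 (.lc 0 12 .stop))))))))
 (.lc 3 11 (.lc 4 12 .stop))))))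
 (.lc 1 0 (.lc 2 2 (.lc 2 2 (.lc 2 2 (.lc 2 0 (.lc 3 2 (.lc 3 2 (.lc 3 2 (.lc 3 2 (.node [155,176] 10 9 (.far [1,1,257,0,1,257,257] 4096 (.lc 3 12 (.lc 1 0 (.lc 3 12 (.lc 4 13 .stop)))))
 (.lc 2 0 (.lc 2 0 (.lc 2 0 (.lc 3 0 .stop)))))))))))))))))))))))))))
 .stop))))))))))
 (.lc 0 0 (.lc 0 8 (.node [104,128] 6 8 (.far [4112,4112,1,256,256] 0 (.lc 2 0 (.far [4112,4112,1,256,256] 0 (.lc 2 0 (.lc 3 0 .stop)))))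
 (.node [105,152,130] 6 9 (.far [4112,4112,1,256,256] 0 (.lc 2 8 (.lc 2 8 (.far [4112,4112,1,256,256] 0 (.far [4112,4112,1,256,256] 0 (.lc 2 8 (.lc 2 8 (.lc 3 8 (.lc 3 8 (.lc 3 8 .stop))))))))))
 .stop)))))))))))))))))))))))))))
 (.lc 0 0 (.node [65,83,101,118,50] 5 3 (.lc 1 2 (.lc 1 2 (.lc 3 0 (.lc 3 8 (.lc 2 2 (.lc 2 2 (.lc 2 2 (.lc 2 2 (.lc 2 2 (.lc 3 0 (.lc 3 8 (.lc 0 2 (.lc 2 2 (.lc 2 2 (.lc 4 8 (.lc 4 9 (.lc 3 2 (.lc 3 2 (.lc 3 2 (.node [96] 7 6 (.conf [1,112] (.lc 3 8 .stop))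
 (.node [104,130] 7 6 (.node [120] 7 8 (.lc 2 0 (.lc 2 9 (.lc 3 0 (.lc 1 0 (.lc 2 2 (.lc 0 9 (.lc 3 9 (.lc 3 0 (.lc 3 10 (.lc 1 0 (.lc 1 0 (.lc 0 0 (.lc 0 9 (.lc 2 0 (.lc 2 0 (.lc 0 0 (.lc 0 10 .stop)))))))))))))))))
 (.lc 3 0 (.lc 3 9 (.lc 1 2 (.lc 1 2 (.lc 3 0 (.lc 3 9 (.lc 4 9 (.lc 4 0 (.lc 4 10 .stop))))))))))
 (.node [96] 7 6 (.far [16,257,256,0,4096] 0 (.lc 3 8 (.far [16,257,256,0,4096] 0 (.lc 3 8 (.lc 4 9 .stop)))))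
 (.node [104,130] 7 6 (.far [16,257,256,0,4096] 0 (.lc 3 0 (.lc 3 9 (.far [16,257,256,0,4096] 0 (.far [16,257,256,0,4096] 0 (.lc 3 0 (.lc 3 9 (.lc 4 9 (.lc 4 0 (.lc 4 10 .stop))))))))))
 (.lc 0 0 (.lc 0 8 (.node [104,128] 7 6 (.far [16,256,256,0,4096] 17 (.lc 3 9 (.lc 1 0 (.lc 3 9 (.lc 4 10 .stop)))))
 (.node [105,152,130] 7 6 (.far [16,256,256,0,4096] 0 (.lc 3 0 (.lc 3 10 (.lc 1 8 (.lc 1 8 (.lc 3 0 (.lc 3 10 (.lc 4 10 (.lc 4 0 (.lc 4 11 .stop))))))))))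
 .stop)))))))))))))))))))))))))))
 (.lc 0 0 (.node [65,83,101,118,135,50] 5 3 (.lc 1 2 (.lc 1 2 (.lc 3 0 (.lc 3 9 (.lc 2 2 (.lc 2 2 (.lc 2 2 (.lc 2 2 (.lc 2 2 (.lc 3 0 (.lc 3 9 (.lc 0 2 (.lc 2 2 (.lc 2 2 (.lc 4 9 (.lc 4 10 (.lc 3 2 (.lc 3 2 (.lc 3 2 (.node [96] 7 6 (.conf [1,112] (.lc 3 9 .stop))
 (.node [105,146] 7 6 (.far [1,4096,4096,0,256] 0 (.lc 3 0 (.lc 3 10 (.lc 1 2 (.lc 1 2 (.lc 3 0 (.lc 3 10 (.lc 4 10 (.lc 4 0 (.lc 4 11 .stop))))))))))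
 (.node [96] 7 6 (.far [16,257,16,4096,4096] 0 (.lc 3 9 (.far [16,257,16,4096,4096] 0 (.lc 3 9 (.lc 4 10 .stop)))))
 (.node [105,146] 7 6 (.far [16,257,16,4096,4096] 0 (.lc 3 0 (.lc 3 10 (.far [16,257,16,4096,4096] 0 (.far [16,257,16,4096,4096] 0 (.lc 3 0 (.lc 3 10 (.lc 4 10 (.lc 4 0 (.lc 4 11 .stop))))))))))
 (.lc 0 0 (.lc 0 9 (.node [105,144] 7 6 (.node [121] 7 9 (.lc 2 10 (.lc 3 10 (.lc 0 10 (.lc 3 11 (.lc 0 0 (.lc 2 0 (.lc 3 0 (.conf [1,160] .stop))))))))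
 (.lc 3 10 (.lc 1 0 (.lc 3 10 (.lc 4 11 .stop)))))
 (.node [106,169,146] 7 6 (.node [122] 7 10 (.lc 2 0 (.lc 2 11 (.lc 3 0 (.lc 3 11 (.lc 0 0 (.lc 0 11 (.lc 3 11 (.lc 3 0 (.lc 3 12 (.lc 3 0 (.lc 3 11 (.lc 0 9 (.lc 2 9 (.lc 2 9 (.lc 4 11 (.lc 4 0 (.lc 4 12 (.lc 3 9 (.lc 3 9 (.lc 3 9 (.lc 2 2 (.lc 2 2 (.node [128,146] 8 0 (.node [] 9 2 (.far [4096,0,1,257,0,1,257,257] 4096 .stop)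
 .stop)
 (.node [139,146] 9 2 (.lc 1 0 (.lc 2 0 (.far [4096,1,257,0,1,257,257] 4096 (.lc 2 0 (.lc 2 0 (.lc 3 0 .stop))))))
 (.lc 0 0 (.lc 0 11 (.node [139,146,176] 0 9 (.node [] 8 11 (.lc 0 11 (.lc 0 12 .stop))
 .stop)
 (.node [128,146,185] 8 0 (.node [] 11 9 (.lc 0 0 (.lc 1 0 .stop))
 .stop)
 (.node [140,146,185] 11 9 (.lc 0 0 (.lc 1 0 (.lc 1 0 (.lc 3 0 (.lc 1 0 (.lc 2 0 .stop))))))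
 .stop)))))))))))))))))))))))))))))
 (.lc 3 0 (.lc 3 11 (.lc 1 9 (.lc 1 9 (.lc 3 0 (.lc 3 11 (.lc 4 11 (.lc 4 0 (.lc 4 12 .stop))))))))))
 .stop)))))))))))))))))))))))))))
 .stop)))))))))))))))))))))))))))))))

theorem t34 : kNode2 awTt FTt 4 5 (check tyTt awTt triet FTt [s35] c34) (fun _ _ _ => true) 0 s34 Pl.nil s34 =
    true := by
  decide +kernel

end Chk
end Pool.Agent.Lib.MP_ba95e8_co
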