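import Pool.Agent.Lib.MP_ba95e8_co.ChkTab
import Pool.Agent.Lib.MP_ba95e8_co.ChkStates

/-!
Deltahedral domes: part 35 of the case analysis.
-/

namespace Pool.Agent.Lib.MP_ba95e8_co
namespace Chk

/-- certificate number 35 -/
def c35 : Cert := (.node [87,96] 0 5 (.node [114] 6 0 (.far [32,2,8192,1,8208,0,0,16,16] 257 (.node [103,114] 6 7 .stop
 .stop))
 (.far [16,16,0,257,0,16,4096] 0 (.lc 1 2 .stop)))
 (.lc 2 1 (.node [32,87,98] 2 5 (.lc 0 2 .stop)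
 (.lc 1 3 (.node [87,104] 5 7 (.node [114] 8 7 (.node [114] 0 7 (.node [] 6 8 (.node [96] 6 0 (.far [16,4096,4097,4096,0,0,8208,16,0,0,16,16] 1 .stop)
 (.conf [24,97] (.node [105,128] 9 8 (.node [] 6 9 (.node [25] 1 9 (.far [4096,0,4096,0,4097,4096,0,0,8208,16,0,0,16,16] 1 (.node [144] 9 0 .stop
 (.node [144,169,186,144] 10 9 .stop
 .stop)))
 (.node [144,169,97] 10 9 .stop
 (.far [4112,0,4112,0,0,0,4112,0,0,1,256] 0 (.far [257,0,257,0,0,0,257,0,0,16,4096] 0 (.node [144,169,186,97] 10 9 .stop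
 .stop)))))
 (.far [8224,32,0,0,8224,8192,1,8208,0,0,16,16] 257 (.far [16,16,0,257,4096,4096] 4097 (.far [4096,0,257,4096] 256 (.far [1,1,0,4112,256,256] 0 (.far [4112,16,257,1,4096,4096] 256 .stop))))))
 (.conf [16,97] (.conf [128,144,1] (.far [8224,0,0,8224,8192,1,8208,0,0,16,16] 257 (.conf [25,97] (.conf [16,97] (.conf [25,97] (.node [106,152,169,106,128] 9 8 (.far [16,16,0,257,4096,4096] 0 (.lc 3 1 (.far [16,16,0,257,4096,4096] 4097 (.lc 3 1 (.lc 3 11 (.lc 4 11 .stop))))))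
 (.conf [97,128] (.asm [97,128] 0 (.conf [16,97] (.conf [25,97] (.conf [26,97] .stop)))))))))))))))
 .stop)
 (.node [22,114] 1 7 .stop
 (.conf [32,114] (.lc 2 5 (.node [114] 9 7 (.node [32] 6 8 (.node [96,137] 6 0 (.far [32,8224,0,0,8224,8192,1,8208,0,0,16,16] 257 .stop)
 (.conf [24,97] (.node [105] 6 9 (.node [25,146] 9 2 .stop
 (.far [4112,4112,0,0,0,4112,0,0,1,256] 4097 (.far [4112,4112,0,0,0,4112,0,0,1,256] 0 .stop)))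
 (.node [106,137] 8 9 (.node [] 6 10 (.node [26] 10 9 (.node [146,160] 0 9 (.node [] 1 10 (.far [4096,4097,4096,0,0,0,8192,0,0,0,8208,16,0,0,16,16] 1 .stop)
 .stop)
 (.node [146] 1 9 .stop
 (.node [162] 10 2 .stop
 (.node [146,171] 9 2 (.node [] 10 11 (.node [] 11 2 (.node [176] 1 11 (.far [4096,4128,0,32,0,0,0,0,8192,0,0,0,8208,16,0,0,16,16] 1 .stop)
 (.node [188,192,188] 1 11 .stop
 .stop))
 (.far [32,8224,8192,0,0,0,8192,0,0,0,8208,16,0,0,16,16] 257 (.far [4112,0,4112,1,256,256] 4097 (.far [257,0,257,16,4096,4096] 0 (.far [257,0,257,16,4096,4096] 0 (.far [32,8224,8192,0,0,0,8192,0,0,0,8208,16,0,0,16,16] 257 .stop))))))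
 (.node [176,146] 10 11 (.node [176] 1 11 (.far [8192,0,32,0,0,0,0,8192,0,0,0,8208,16,0,0,16,16] 257 .stop)
 (.conf [1,176] (.far [257,0,257,16,4096,4096] 0 .stop)))
 (.far [4112,1,0,1,0,4112,256] 0 (.far [4112,1,0,1,0,4112,256] 0 (.far [257,16,0,16,0,257,4096] 17 (.node [188,192,146] 10 11 (.node [188,192] 1 11 .stop
 (.far [257,0,257,16,4096,4096] 0 .stop))
 .stop))))))
 (.node [146,160] 10 0 (.far [32,8192,0,0,0,8192,0,0,0,8208,16,0,0,16,16] 257 .stop)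
 (.conf [146,171,178] (.far [8224,0,32,0,2,8192,0,0,8208,16,0,0,16,16] 257 (.conf [161,185,27] (.far [4112,1,256,256] 4097 (.node [146,171,176,171] 0 9 (.far [16,16,0,16,0,257,4096] 0 .stop)
 (.far [16,0,16,0,257,4096] 17 (.node [146,160,185,146] 10 0 (.far [4112,4112,1,256,256] 0 .stop)
 (.node [146,185,203,146,172] 10 12 (.far [4112,4112,1,256,256] 0 (.lc 2 11 (.far [4112,4112,1,256,256] 4097 (.lc 2 11 (.lc 2 11 (.lc 3 11 .stop))))))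
 (.node [146,160] 10 0 (.far [257,257,16,4096,4096] 0 .stop)
 (.far [8224,0,32,0,2,8192,0,0,8208,16,0,0,16,16] 257 (.conf [146,171,176] (.conf [161,185,146] .stop)))))))))))))))))
 (.far [32,8224,8192,2,8192,0,0,8208,16,0,0,16,16] 257 (.node [169,186,97] 10 9 (.node [146,185] 11 9 (.node [] 1 11 (.far [8224,2,2,32,8192,8192,8192,0,0,0,8208,16,0,0,16,16] 257 (.far [8224,2,2,32,8192,8192,8192,0,0,0,8208,16,0,0,16,16] 257 .stop))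
 (.lc 3 0 (.far [16,16,0,16,0,257,4096] 17 (.lc 3 0 (.lc 3 12 (.lc 4 12 .stop))))))
 (.lc 2 2 (.far [4112,4096,256,16,0,0,0,4112,0,0,1,256] 0 (.far [4112,4096,256,16,0,0,0,4112,0,0,1,256] 0 (.lc 3 2 .stop)))))
 (.far [4112,0,4112,0,0,0,4112,0,0,1,256] 4097 (.far [4112,0,4112,0,0,0,4112,0,0,1,256] 0 (.far [257,0,257,0,0,0,257,0,0,16,4096] 0 (.far [257,0,257,0,0,0,257,0,0,16,4096] 0 (.far [32,8224,8192,2,8192,0,0,8208,16,0,0,16,16] 257 (.node [169,186,203,97] 10 9 (.far [257,256,4096,1,0,0,0,257,0,0,16,4096] 0 (.lc 2 2 (.lc 0 0 (.lc 0 13 (.lc 3 2 .stop)))))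
 .stop)))))))))
 (.conf [146,160,133] (.conf [146,161,133] (.conf [146,171,185] (.far [4112,1,0,4112,256,256] 0 (.far [4112,1,0,4112,256,256] 0 (.far [257,16,0,257,4096,4096] 0 (.far [257,16,0,257,4096,4096] 0 (.conf [146,161,133] (.conf [146,171,133] (.conf [146,160,133] (.conf [146,172,133] .stop))))))))))))
 (.node [133,146,96] 6 0 (.far [32,8192,2,8192,0,0,8208,16,0,0,16,16] 257 .stop)
 (.conf [25,97] (.conf [133,146,169] (.far [8224,0,0,8224,8192,1,8208,0,0,16,16] 257 (.conf [25,97] (.conf [26,97] (.conf [16,97] (.node [106,137,160,106] 0 8 .stop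
 (.far [16,0,257,4096,4096] 0 (.conf [25,97] (.far [16,0,257,4096,4096] 0 (.node [96,137,168,137,146] 6 0 (.far [4112,4112,0,0,0,4112,0,0,1,256] 0 .stop)
 (.conf [26,97] (.node [107,168,186,107,137,146] 8 9 (.far [257,16,0,257,4096,4096] 0 (.lc 2 2 (.lc 2 2 (.lc 2 2 (.lc 0 0 (.lc 0 12 (.lc 2 2 (.lc 2 2 (.lc 3 2 (.lc 3 2 (.lc 3 2 (.lc 3 2 .stop))))))))))))
 (.node [133,146,96] 6 0 (.far [257,257,0,0,0,257,0,0,16,4096] 0 .stop)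
 (.conf [25,97] (.node [133,146,106] 6 10 (.far [257,257,0,0,0,257,0,0,16,4096] 0 (.lc 2 9 (.lc 2 9 (.far [8224,8224,0,8224,8256,8192,3,16400,8192,0,16,528] 257 (.node [27,186] 10 9 (.node [162] 10 2 (.node [160,186] 11 10 (.node [176] 1 11 .stop
 (.lc 3 12 (.conf [188,192] (.lc 3 12 (.lc 4 13 .stop)))))
 (.lc 3 2 (.far [4112,4112,4096,16,0,0,0,4112,0,0,1,256] 0 (.conf [172,192] (.lc 3 2 (.lc 4 2 .stop))))))
 (.lc 3 0 (.far [16,0,16,257,1,4096,4096] 17 (.lc 3 0 (.lc 3 12 (.lc 4 12 .stop))))))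
 (.lc 2 9 (.lc 2 9 (.lc 3 9 (.lc 3 9 .stop)))))))))
 (.conf [25,97] (.conf [16,97] (.conf [25,97] (.conf [26,97] (.conf [16,97] (.conf [133,160,106] (.node [133,146,169,96] 6 0 (.far [257,256,0,257,4096,1,0,0,16,4096] 0 .stop)
 (.conf [26,97] (.conf [133,186,107] (.conf [16,97] (.conf [26,97] (.conf [16,97] (.conf [27,97] (.conf [16,97] (.conf [26,97] (.conf [16,97] (.conf [26,97] (.far [256,0,257,4096,1,0,0,16,4096] 0 (.conf [26,97] (.conf [16,97] (.conf [27,97] .stop))))))))))))))))))))))))))))))))))))))))))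
 (.node [144,114] 8 9 (.node [22,129,144] 1 9 (.far [8192,0,8192,0,0,0,8208,16,0,0,16,16] 257 .stop)
 (.lc 2 5 (.node [138,144] 6 8 (.node [106] 10 9 (.node [] 6 10 (.node [26,160] 1 10 (.far [8192,0,8192,0,0,8192,0,0,0,8208,16,0,0,16,16] 257 .stop)
 (.far [32,2,8192,8192,8192,0,0,0,8208,16,0,0,16,16] 257 (.conf [1,160] (.far [4112,0,4112,0,0,0,0,4112,0,0,1,256] 0 (.conf [1,160] .stop)))))
 (.lc 3 1 (.lc 3 11 (.far [16,0,16,513,4096] 256 (.far [16,0,16,256,4112,16,0,257,4096] 0 (.lc 3 1 (.lc 3 11 (.lc 4 11 (.lc 4 12 .stop)))))))))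
 (.conf [26,97] (.conf [26,97] (.far [16,257,0,257,4096,4096] 0 (.conf [26,97] (.conf [16,97] (.conf [27,97] .stop)))))))
 (.conf [1,144] (.conf [144,160,138] (.lc 3 5 (.lc 3 5 (.lc 3 5 (.conf [144,169] (.far [32,0,8224,32,0,1,8208,0,0,16,16] 257 (.lc 3 5 (.node [144,138] 8 10 (.far [257,257,0,257,4096,4096] 0 (.lc 2 0 (.conf [26,97] (.lc 2 0 (.lc 2 0 (.lc 3 0 .stop))))))
 (.lc 3 5 (.lc 3 5 (.lc 4 5 (.conf [144,161,138] (.conf [144,186,139] (.lc 4 5 (.lc 4 5 (.lc 4 5 (.lc 4 5 (.lc 4 5 .stop))))))))))))))))))))))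
 (.node [32,154,162,114] 10 2 (.node [] 8 9 (.node [128,154] 0 9 (.lc 0 0 .stop)
 (.node [22,129,154] 1 9 .stop
 (.lc 2 5 (.node [139,154] 9 10 (.node [160] 6 8 (.node [107] 6 11 (.node [27,186] 11 10 (.node [160] 1 10 (.far [8224,32,0,0,32,0,0,8192,0,0,0,8208,16,0,0,16,16] 257 .stop)
 (.lc 2 0 (.far [4112,1,256,256,256] 4097 (.lc 2 0 .stop))))
 (.lc 2 6 (.far [16,4096,0,4112,1,257,4096] 256 (.far [4112,4112,0,0,0,0,0,0,4112,0,0,1,256] 0 (.lc 2 0 .stop)))))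
 (.conf [27,97] (.conf [27,97] (.far [16,0,257,0,0,257,4096,4096] 0 (.conf [27,97] (.conf [16,97] (.conf [28,97] .stop)))))))
 (.lc 0 1 (.lc 0 12 (.lc 2 0 (.lc 0 12 (.far [257,16,0,256,4112,16,0,257,4096] 0 (.lc 0 13 .stop)))))))
 (.lc 1 0 (.conf [160,186] (.lc 3 5 (.lc 3 5 (.far [16,1,257,4096] 256 (.lc 3 5 (.conf [154,185] (.conf [151,160] (.lc 3 5 (.conf [151,160] (.lc 3 5 (.lc 3 5 (.lc 4 5 (.conf [151,160] (.lc 4 5 (.lc 4 5 (.lc 4 5 (.lc 4 5 (.lc 4 5 (.lc 4 5 (.lc 5 5 .stop)))))))))))))))))))))))))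
 (.lc 3 11 (.node [176] 8 9 (.node [22,129,154] 1 9 .stop
 (.lc 2 5 (.node [154,176,185] 11 9 (.lc 0 2 .stop)
 (.node [140,154] 9 10 (.node [171] 6 8 (.node [108] 6 12 (.node [28,202] 12 10 (.node [171,176] 1 10 .stop
 (.lc 2 2 .stop))
 (.lc 2 6 (.far [4112,4112,0,0,0,0,0,0,4112,0,0,1,256] 0 (.lc 2 2 .stop))))
 (.conf [28,97] (.conf [28,97] (.far [16,0,257,0,0,257,4096,4096] 0 (.conf [28,97] (.conf [29,97] .stop))))))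
 (.lc 2 11 (.lc 2 11 (.lc 2 2 (.lc 0 13 (.lc 2 11 (.lc 3 11 .stop)))))))
 (.lc 1 2 (.conf [171,202] (.lc 3 5 (.lc 3 5 (.lc 3 5 (.conf [154,201] (.lc 1 11 (.lc 3 5 (.lc 1 11 (.lc 3 5 (.lc 3 5 (.lc 4 5 (.lc 2 11 (.lc 4 5 (.lc 4 5 (.lc 4 5 (.lc 4 5 (.lc 4 5 (.lc 5 5 .stop)))))))))))))))))))))))
 (.lc 3 11 (.lc 4 12 .stop)))))
 (.far [16,16,16,0,257,4096] 17 (.far [16,16,16,0,257,4096] 0 (.far [1,1,1,0,4112,256] 0 (.far [1,1,1,0,4112,256] 0 (.node [154,160,114] 8 9 (.node [22,129,154,160] 1 9 .stop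
 (.lc 2 5 (.node [139,154,160] 9 10 (.far [4112,1,4096,257,1,0,4112,256] 0 (.lc 2 0 (.lc 2 0 (.lc 0 12 (.lc 2 0 (.lc 3 0 .stop))))))
 (.conf [151,160] (.lc 3 5 (.lc 3 5 (.lc 3 5 (.conf [154,185] (.node [22,151,160,129] 8 1 (.lc 0 1 .stop)
 (.lc 3 5 (.node [151,160,139] 8 11 (.far [257,257,0,257,4096,4096] 0 (.lc 2 10 (.conf [27,97] (.lc 2 10 (.lc 2 10 (.lc 3 10 .stop))))))
 (.lc 3 5 (.lc 3 5 (.lc 4 5 (.conf [151,203,140] (.lc 4 5 (.lc 4 5 (.lc 4 5 (.lc 4 5 (.lc 4 5 (.lc 5 5 .stop)))))))))))))))))))))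
 (.node [32,155,162,186,114,155,162] 10 2 (.node [160] 8 9 (.node [128,155] 0 9 .stop
 (.node [22,129,155] 1 9 (.lc 1 10 .stop)
 (.lc 2 5 (.node [140,155] 9 11 (.far [4112,1,0,4096,257,1,0,4112,256] 0 (.lc 2 10 (.lc 2 10 (.lc 2 10 (.lc 0 13 (.lc 2 10 (.lc 3 10 (.lc 3 10 .stop))))))))
 (.lc 2 7 (.lc 3 5 (.lc 3 5 (.far [32,0,0,8224,32,0,1,8208,0,0,16,16] 257 (.lc 3 5 (.conf [155,201] (.lc 2 7 (.lc 2 7 (.lc 3 5 (.lc 2 7 (.lc 3 5 (.lc 3 5 (.lc 3 7 (.lc 4 5 (.lc 3 7 (.lc 4 5 (.lc 4 5 (.lc 4 5 (.lc 4 5 (.lc 4 5 (.lc 4 5 (.lc 5 5 (.lc 5 5 .stop)))))))))))))))))))))))))))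
 (.lc 3 12 (.conf [172,192] (.lc 3 12 (.lc 4 13 .stop)))))
 .stop)))))))))
 (.node [114,128] 6 8 (.node [128,96] 6 0 (.far [32,8192,8192,0,0,8208,16,0,0,16,16] 257 .stop)
 (.conf [24,97] (.node [105,128] 8 0 (.node [] 6 9 (.node [25] 1 9 (.far [8192,0,32,0,8192,0,0,8208,16,0,0,16,16] 257 (.node [144] 9 0 .stop
 (.node [144,169,186,144] 10 9 .stop
 .stop)))
 (.node [144,169,97] 10 9 .stop
 (.far [4112,0,4112,0,0,4112,0,0,1,256] 0 (.far [257,0,257,0,0,257,0,0,16,4096] 0 (.node [144,169,186,97] 10 9 .stop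
 .stop)))))
 (.far [512,32,0,8224,8192,1,8208,0,0,16,16] 257 (.far [16,0,4097,1,0,4112,256] 256 (.far [4112,1,4096,257,256,4112,256] 0 (.far [257,16,257,4096,4096] 256 (.far [256,16,1,4096,4096] 256 .stop))))))
 (.lc 2 0 (.lc 2 0 (.far [8224,0,8224,8192,1,8208,0,0,16,16] 257 (.conf [25,97] (.conf [16,97] (.conf [25,97] (.node [128,152,169,106] 9 8 (.far [16,16,256,4112,4096,257,4096] 0 (.lc 3 1 (.far [16,16,257,4096,4096] 256 (.lc 3 1 (.lc 3 11 (.lc 4 11 .stop))))))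
 (.lc 2 0 (.lc 2 0 (.conf [16,97] (.conf [25,97] (.conf [26,97] .stop)))))))))))))))
 (.conf [32,114] (.far [8224,32,0,1,8208,0,0,16,16] 257 (.node [137,144,114] 0 7 (.node [] 6 8 (.node [105,144] 6 9 (.node [25] 9 0 (.far [256,16,4096,4097,4096,0,0,8208,16,0,0,16,16] 1 .stop)
 (.lc 2 0 (.far [4112,4112,0,0,0,4112,0,0,1,256] 0 (.lc 2 0 (.lc 3 0 .stop)))))
 (.lc 3 1 (.conf [25,97] (.far [16,16,256,4112,4096,257,4096] 0 (.lc 3 1 (.lc 4 1 .stop))))))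
 .stop)
 (.conf [32,114] (.conf [32,114] (.conf [128,151,114] (.conf [129,151,114] (.conf [138,151,169] (.far [32,32,0,1,8208,0,0,16,16] 257 (.node [114,144,137] 0 7 (.far [16,16,16,0,257,4096] 0 .stop)
 (.lc 3 5 (.conf [32,114] (.conf [32,114] (.node [114,151,114] 9 7 (.far [16,16,16,0,257,4096] 0 (.lc 3 10 (.conf [32,154,162] (.lc 3 10 (.lc 4 11 .stop)))))
 (.node [114,151,169,114] 9 7 (.far [16,16,16,0,257,4096] 0 (.lc 3 0 (.lc 3 11 (.far [16,16,16,0,257,4096] 17 (.conf [32,155,178] (.lc 3 0 (.lc 3 11 (.lc 4 11 (.lc 4 12 .stop)))))))))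
 (.conf [32,114] (.lc 3 5 (.conf [32,114] (.far [257,1,0,256,257,0,0,1,1] 4096 (.conf [32,114] (.far [8224,32,0,1,8208,0,0,16,16] 257 (.node [137,144,114] 0 7 (.far [1,1,1,0,4112,256] 0 .stop)
 (.node [22,137,145,114] 1 7 .stop
 (.conf [114,128] (.conf [32,114] (.node [128,114] 8 0 (.lc 0 1 .stop)
 (.node [138,169,114] 6 8 (.node [106,169] 6 10 (.node [26,169] 9 7 (.far [1,0,0,1,1,0,4112,256] 0 (.lc 3 0 (.lc 3 11 (.node [32] 10 9 (.node [144] 1 9 (.far [8192,0,8192,0,0,0,0,0,8208,16,0,0,16,16] 257 .stop)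
 (.lc 2 0 (.far [257,0,16,4112,257,4096,4096] 0 .stop)))
 (.node [32,178] 10 9 (.node [155] 1 9 (.far [8224,32,0,0,0,8224,32,0,1,8208,0,0,16,16] 257 (.lc 2 1 (.far [16,16,256,0,0,4112,16,0,257,4096] 0 (.conf [155,201] (.lc 2 1 (.lc 3 1 .stop))))))
 (.lc 2 11 (.far [4112,0,1,257,4112,256,256] 4097 (.lc 2 11 (.lc 2 11 (.lc 3 11 .stop))))))
 (.lc 3 0 (.lc 3 11 (.lc 4 11 (.lc 4 12 .stop)))))))))
 (.lc 2 6 (.far [4112,4112,0,0,4112,0,0,1,256] 4097 (.conf [169,186] (.lc 2 6 (.lc 3 6 (.lc 3 6 .stop)))))))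
 (.lc 3 1 (.lc 1 9 (.lc 1 9 (.lc 1 9 (.lc 3 1 (.lc 4 1 (.lc 4 1 .stop))))))))
 (.conf [32,114] (.conf [32,114] (.far [8224,32,0,1,8208,0,0,16,16] 257 (.node [138,169,114,144] 0 7 (.node [] 6 8 (.far [1,1,4096,257,256,4112,256] 0 (.lc 3 1 (.lc 1 9 (.lc 1 9 (.lc 3 1 (.lc 4 1 .stop))))))
 .stop)
 (.conf [32,114] (.conf [32,114] (.conf [129,151,114] (.conf [138,151,114] (.conf [128,151,114] (.conf [139,151,114] (.node [114,137,144] 6 8 (.far [1,4096,257,256,4112,256] 0 (.lc 3 1 (.lc 1 0 (.lc 1 0 (.lc 3 1 (.lc 4 1 .stop))))))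
 (.conf [32,114] (.conf [32,114] (.conf [32,114] (.conf [32,114] (.conf [32,114] (.conf [32,114] (.conf [32,114] .stop)))))))))))))))))))))))))))))))))))))))))))))))))))
 (.conf [114,128,83] (.conf [114,129,83] (.conf [114,137,151] (.far [4112,1,0,4112,0,1,256] 0 (.lc 2 2 (.far [4112,1,0,4112,0,1,256] 0 (.far [257,16,0,257,0,16,4096] 0 (.far [257,16,0,257,0,16,4096] 0 (.conf [114,129,83] (.conf [114,137,83] (.conf [114,128,83] (.conf [114,138,83] .stop)))))))))))))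
 (.node [83,96,114] 6 0 (.far [32,8192,1,8208,0,0,16,16] 257 .stop)
 (.lc 3 1 (.lc 1 2 (.conf [83,104,135] (.node [104,128,87] 0 5 .stop
 (.node [37,96,87] 2 5 (.lc 0 2 .stop)
 (.lc 2 3 (.lc 2 3 (.conf [96,133,87] (.conf [98,133,87] (.conf [105,133,152] (.lc 3 1 (.node [87,104,128,104] 0 5 .stop
 (.node [37,87,96] 2 5 (.lc 0 2 .stop)
 (.lc 2 3 (.lc 2 3 (.lc 2 3 (.node [87,133,87,96,114] 6 0 (.lc 2 0 .stop)
 (.lc 3 1 (.node [87,133,152,87,105,114] 5 7 (.far [257,16,0,257,0,16,4096] 0 (.lc 2 2 (.lc 2 2 (.lc 2 2 (.lc 0 0 (.lc 2 2 (.lc 0 10 (.lc 2 2 (.lc 2 2 (.lc 3 2 (.lc 3 2 (.lc 3 2 (.lc 3 2 .stop)))))))))))))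
 (.node [83,96,114] 0 7 (.node [] 6 0 (.far [257,0,257,0,0,16,4096] 0 (.node [104] 6 8 (.far [257,257,0,257,0,0,16,4096] 0 (.node [25,128,152] 1 9 .stop
 (.node [25,152,128] 1 9 .stop
 (.far [257,257,0,257,0,0,16,4096] 0 (.node [26,128,152,169,152,128] 1 10 .stop
 .stop)))))
 (.node [105,152,105,128] 6 9 (.node [152] 9 8 (.node [128,154] 1 9 (.node [168] 1 10 .stop
 (.lc 1 8 .stop))
 (.conf [128,155] (.conf [128,145] (.conf [128,168] (.conf [128,155] (.node [128,145,26] 8 0 .stop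
 (.conf [128,156] (.conf [145,186,27] .stop))))))))
 (.lc 2 8 (.conf [26,152,169] (.lc 2 8 (.lc 3 8 .stop)))))
 .stop)))
 .stop)
 (.lc 3 1 (.node [83,104,114] 8 7 (.node [130] 6 8 (.node [96] 6 0 (.far [257,257,0,257,0,0,16,4096] 0 .stop)
 (.conf [24,97] (.lc 1 2 (.node [105] 6 9 (.far [257,257,0,257,0,0,16,4096] 0 (.node [16,152] 9 8 (.lc 1 2 (.node [130,154] 8 2 (.far [4112,1,0,1,4112,256] 0 (.far [4096,1,0,1,16,256,256,257,0,0,1,1] 4096 (.conf [9,160] (.far [4112,1,0,1,4112,256] 0 (.node [9] 0 9 (.lc 0 0 .stop)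
 (.conf [9,176] .stop))))))
 (.lc 2 2 (.lc 2 2 (.conf [144,168,130] (.conf [155,186] (.lc 2 2 (.lc 2 2 (.node [144,130] 10 8 (.far [1,1,0,1,4112,256] 0 (.lc 3 11 .stop))
 (.conf [144,168,130] .stop))))))))))
 (.node [26,152,169] 1 10 (.node [] 9 8 (.node [130,144] 9 0 (.lc 0 0 .stop)
 (.lc 1 2 (.node [130,155] 10 9 (.far [16,257,0,256,1,0,257,0,0,16,4096] 0 (.lc 1 8 (.lc 3 0 (.lc 1 8 (.node [172,203] 10 12 (.far [4112,1,4112,1,1,256] 0 (.lc 2 11 (.lc 2 11 (.conf [203,220] (.lc 2 11 (.lc 3 11 .stop))))))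
 (.lc 2 8 .stop))))))
 (.lc 2 2 (.lc 2 2 (.lc 0 0 (.conf [171,184] (.lc 2 2 (.conf [156,203] (.lc 2 2 (.lc 2 2 (.lc 2 2 (.conf [150,171] (.lc 3 2 (.conf [150,172] (.lc 3 2 (.lc 3 2 .stop)))))))))))))))))
 (.lc 2 9 (.node [186] 9 8 (.lc 1 2 (.node [155,184,186] 9 11 (.lc 0 1 .stop)
 (.node [130,156] 10 9 (.far [16,257,0,256,1,0,257,0,0,16,4096] 0 (.lc 3 13 (.lc 3 1 (.lc 1 8 (.lc 3 13 (.lc 4 14 .stop))))))
 (.lc 2 2 (.lc 0 1 (.conf [172,200] (.conf [157,220] (.lc 2 2 (.lc 2 2 (.lc 2 2 (.lc 0 12 (.lc 3 2 (.lc 0 13 (.lc 3 2 .stop))))))))))))))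
 (.lc 2 9 (.lc 3 9 .stop)))))
 (.far [8224,8224,2,8192,8193,8208,8192,0,16,528] 257 (.node [26,169,152] 1 10 (.far [8224,8224,8224,2,8192,8193,8208,8192,0,16,528] 257 (.lc 2 9 (.far [8224,8224,8224,2,8192,8193,8208,8192,0,16,528] 257 (.lc 2 9 (.lc 3 9 .stop)))))
 (.far [257,257,0,257,0,0,16,4096] 0 (.far [257,257,0,257,0,0,16,4096] 0 (.node [16,152,169] 9 8 (.lc 1 2 (.node [130,155,169] 10 9 (.far [16,257,256,1,0,257,0,0,16,4096] 0 (.lc 3 12 (.lc 1 8 (.lc 3 12 (.lc 4 13 .stop)))))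
 (.lc 2 2 (.conf [150,171] (.conf [156,203] (.lc 2 2 (.lc 2 2 (.node [150,171,130] 11 8 (.far [1,1,0,1,4112,256] 0 (.lc 3 0 (.lc 3 12 .stop)))
 (.conf [150,184,130] (.lc 3 2 .stop))))))))))
 (.node [27,152,169,186,169,152] 1 11 (.node [186] 9 8 (.node [130,144] 9 0 .stop
 (.lc 1 2 (.node [130,156] 10 9 (.far [16,257,0,256,1,0,257,0,0,16,4096] 0 (.lc 3 0 (.lc 3 13 (.lc 1 8 (.lc 3 13 (.lc 4 14 .stop))))))
 (.lc 2 2 (.lc 2 2 (.lc 3 6 (.lc 2 2 (.conf [157,220] (.lc 2 2 (.lc 2 2 (.lc 3 6 (.lc 2 2 (.lc 3 6 (.lc 3 2 (.lc 3 2 (.lc 4 6 (.lc 3 2 (.lc 3 2 (.lc 3 2 (.lc 3 2 (.lc 4 2 .stop)))))))))))))))))))))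
 (.lc 2 10 (.conf [186,203] (.lc 2 10 (.lc 3 10 .stop)))))
 .stop)))))))))
 (.lc 2 2 (.lc 2 2 (.lc 2 2 (.lc 2 2 (.lc 2 2 (.lc 3 1 (.lc 3 1 (.conf [16,97] (.node [105,144,105] 6 9 (.node [144] 9 0 .stop
 (.lc 2 0 (.conf [26,144,169] (.lc 2 0 (.lc 3 0 .stop)))))
 (.lc 2 2 (.node [96,152] 6 0 (.far [512,0,0,0,16,16,512,0,16,8208] 257 .stop)
 (.conf [25,97] (.node [106,169,106,152] 6 10 (.node [169] 9 8 (.node [130,144] 0 8 (.node [] 10 9 (.node [144,171] 1 10 (.node [185] 11 9 (.node [176] 1 11 (.lc 1 0 .stop)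
 (.lc 3 12 .stop))
 (.lc 1 9 (.lc 1 9 .stop)))
 (.conf [144,171] (.conf [144,161] (.conf [144,185] (.asm [144,161] 1 .stop)))))
 .stop)
 (.node [130,146,169] 9 2 (.node [144] 10 9 (.node [160] 1 10 (.far [4096,4096,4128,8192,0,0,8192,0,8208,16,0,0,16,16] 1 .stop)
 (.lc 3 1 (.conf [171,176] (.lc 3 1 .stop))))
 (.lc 3 2 (.conf [155,176] .stop)))
 (.node [130,155] 8 2 (.node [178] 11 2 (.node [176] 10 9 (.node [155,160] 0 9 (.lc 0 0 .stop)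
 (.node [155,172] 9 11 (.node [176] 10 12 (.node [203] 12 11 (.node [192] 1 12 (.far [4096,4096,0,0,0,4128,32,0,0,0,8192,0,8208,16,0,0,16,16] 1 .stop)
 (.far [8208,1,256,256,4128,32,0,0,0,8192,0,8208,16,0,0,16,16] 1 (.far [16,0,16,0,257,4096,4096] 0 .stop)))
 (.lc 2 11 (.far [16,4112,4096,1,4096,4096] 256 (.lc 2 11 (.lc 2 11 (.lc 3 11 .stop))))))
 (.lc 2 0 (.lc 2 0 (.lc 0 13 (.lc 2 0 (.lc 3 0 .stop))))))
 (.lc 1 0 (.conf [152,172] (.conf [155,161] (.conf [155,161] (.conf [155,201] (.lc 1 0 (.node [152,161,176] 1 11 (.far [1,257,4112,256,256] 0 .stop)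
 (.conf [155,161] (.lc 2 0 (.conf [155,161] (.lc 2 0 (.lc 2 0 (.lc 2 0 .stop)))))))))))))))
 (.node [188,192,155,169] 9 11 (.node [156] 10 9 (.node [172] 10 12 (.node [192] 1 12 (.far [8192,0,0,0,8224,32,0,0,0,8192,0,8208,16,0,0,16,16] 257 .stop)
 (.lc 2 0 (.lc 2 0 (.lc 2 0 .stop))))
 (.lc 3 1 (.lc 1 0 .stop)))
 (.lc 3 8 (.conf [157,220] .stop)))
 (.node [188,192,188] 10 9 (.node [155,172,192] 10 12 (.far [4096,0,16,256,16,1,256] 17 .stop)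
 (.node [155,173] 9 11 (.node [188] 13 11 (.far [1,1,0,4112,256,256] 0 (.lc 1 0 (.lc 1 0 (.lc 3 14 (.lc 2 0 .stop)))))
 (.lc 2 2 (.lc 2 2 (.lc 0 14 (.lc 2 2 (.lc 3 2 .stop))))))
 (.lc 1 2 (.conf [152,173] (.conf [155,161] (.conf [155,217] (.lc 1 2 (.node [152,161,188] 1 11 .stop
 (.conf [155,161] (.lc 2 2 (.conf [155,161] (.lc 2 2 .stop))))))))))))
 (.node [188,192,155,169] 9 11 (.far [1,1,258,256,0,0,512,0,513,1,0,0,1,1] 4096 (.lc 3 8 (.lc 1 0 .stop)))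
 (.node [189,220,155,169,192] 9 11 (.node [157] 10 9 (.node [173] 10 13 .stop
 (.lc 0 0 .stop))
 (.lc 3 8 (.lc 1 12 .stop)))
 .stop)))))
 (.lc 0 0 (.lc 0 0 (.lc 0 12 (.far [257,16,257,256,257,1,0,0,16,4096] 17 (.lc 0 12 .stop))))))
 (.lc 2 2 (.lc 2 2 (.lc 3 1 (.lc 3 11 (.lc 3 0 (.lc 3 0 (.lc 3 12 (.node [130,155,176,155,169] 0 8 (.far [16,16,257,256,257,1,0,0,16,4096] 0 .stop)
 (.far [16,257,256,257,1,0,0,16,4096] 17 (.conf [130,184] (.conf [130,184] (.lc 2 2 (.lc 2 2 (.lc 2 2 (.lc 3 11 (.lc 3 0 (.lc 3 11 (.lc 3 0 (.lc 3 12 (.lc 3 2 (.lc 4 12 (.lc 4 11 (.lc 4 12 (.lc 4 0 (.lc 4 13 (.lc 3 2 (.lc 3 2 (.lc 3 2 (.lc 3 2 (.lc 4 2 .stop)))))))))))))))))))))))))))))))))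
 (.lc 2 9 (.lc 2 9 (.far [8224,8224,2,8192,8193,8208,8192,0,16,528] 257 (.conf [27,169,186] (.lc 2 9 (.lc 2 9 (.lc 3 9 (.lc 3 9 .stop)))))))))
 (.lc 2 2 (.lc 2 2 (.lc 2 2 (.lc 2 2 (.lc 2 2 (.lc 3 1 (.lc 3 1 (.lc 3 1 (.lc 3 1 (.lc 3 2 (.lc 3 2 (.lc 3 2 (.lc 3 2 (.lc 3 2 (.lc 3 2 (.lc 4 1 (.lc 4 1 (.lc 4 1 (.lc 4 1 (.lc 4 1 (.lc 4 1 (.lc 4 1 (.lc 4 1 (.lc 5 1 (.lc 5 1 .stop))))))))))))))))))))))))))))))))))))))))))
 (.node [128] 6 8 (.conf [24,97] (.node [105,128] 9 8 (.far [1,1,8208,256,4112,256] 17 (.lc 3 1 (.lc 3 10 (.far [16,16,16,4128,258,4097,0,32,8208,16] 1 (.node [160] 6 9 (.far [257,0,257,0,257,0,0,16,4096] 0 (.lc 2 10 (.lc 2 6 (.node [27,154,185,154,160] 1 11 (.lc 2 9 .stop)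
 (.lc 2 10 (.lc 3 10 .stop))))))
 (.lc 3 1 (.lc 3 10 (.lc 4 10 (.lc 4 11 .stop)))))))))
 (.lc 2 0 (.lc 2 0 (.lc 3 1 (.conf [25,97] (.conf [128,152] (.lc 2 0 (.lc 2 0 (.lc 3 1 (.lc 3 1 (.lc 3 0 (.lc 4 1 .stop)))))))))))))
 (.node [137,146] 9 2 (.node [] 6 8 (.node [96,137] 0 8 (.lc 0 0 .stop)
 (.conf [24,97] (.node [106,137] 8 9 (.far [4112,1,0,4096,257,4112,256] 0 (.lc 0 1 (.lc 0 11 (.lc 2 0 (.lc 0 11 (.node [144,185] 11 9 (.node [176] 6 10 (.far [257,0,0,257,0,0,257,0,0,16,4096] 0 (.lc 2 11 (.lc 2 11 (.node [28,171,202,171] 1 12 (.far [4112,4112,1,4112,4096,4128,12320,32,4096,0,1,272,4112,16] 1 (.lc 2 10 (.lc 2 10 .stop)))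
 (.lc 2 11 (.lc 3 11 .stop))))))
 (.lc 3 1 (.lc 3 12 (.far [16,257,16,257,513,4096,257,4096] 4097 (.conf [188,192] (.lc 3 1 (.lc 3 12 (.lc 4 12 (.lc 4 13 .stop)))))))))
 (.lc 0 12 .stop)))))))
 (.lc 2 6 (.lc 2 6 (.lc 2 6 (.lc 3 1 (.lc 3 1 (.conf [16,97] (.conf [26,97] (.conf [137,168] (.lc 2 6 (.lc 2 6 (.lc 3 1 (.lc 3 1 (.lc 3 1 (.lc 3 6 (.lc 3 6 (.lc 4 1 (.lc 4 1 (.lc 4 1 (.lc 4 1 (.lc 4 1 (.lc 4 1 (.lc 5 1 .stop)))))))))))))))))))))))))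
 (.lc 3 10 (.node [160] 6 8 (.conf [24,97] (.node [106,137,160,168] 10 8 (.lc 0 2 .stop)
 (.node [107,137] 8 9 (.far [4112,1,0,4096,257,4112,256] 0 (.lc 2 10 (.lc 2 10 (.lc 2 2 (.lc 0 12 (.lc 2 10 (.lc 3 10 .stop)))))))
 (.lc 2 6 (.lc 2 6 (.lc 2 6 (.lc 3 1 (.conf [27,97] (.conf [137,184] (.lc 2 6 (.lc 2 6 (.lc 3 1 (.lc 3 1 (.lc 3 1 (.lc 3 1 (.lc 3 6 (.lc 3 6 (.lc 4 1 (.lc 4 1 (.lc 4 1 (.lc 4 1 (.lc 4 1 (.lc 4 1 (.lc 5 1 .stop))))))))))))))))))))))))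
 (.lc 3 10 (.lc 4 11 .stop)))))
 (.far [16,16,257,1,0,16,4096] 17 (.conf [137,146] (.far [1,1,4112,16,0,1,256] 0 (.far [1,1,4112,16,0,1,256] 0 (.node [137,144] 6 8 (.conf [24,97] (.node [106,137] 8 9 (.far [4112,1,8208,256,4112,256] 17 (.lc 2 0 (.lc 2 0 (.lc 0 11 (.lc 2 0 (.lc 3 0 .stop))))))
 (.lc 2 6 (.lc 2 6 (.lc 3 1 (.conf [26,97] (.conf [137,168] (.lc 2 6 (.lc 2 6 (.lc 3 1 (.lc 3 1 (.lc 3 6 (.lc 3 6 (.lc 4 1 (.lc 4 1 (.lc 4 1 (.lc 4 1 (.lc 5 1 .stop))))))))))))))))))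
 (.node [138,169,146] 9 2 (.node [144] 6 8 (.node [96,138] 0 8 .stop
 (.conf [24,97] (.node [107,138] 8 10 (.far [4112,1,0,8208,256,4112,256] 0 (.lc 2 9 (.lc 2 9 (.lc 2 9 (.lc 0 12 (.lc 2 9 (.lc 3 9 (.lc 3 9 .stop))))))))
 (.lc 2 6 (.lc 2 6 (.lc 3 1 (.lc 3 1 (.conf [16,97] (.conf [27,97] (.conf [138,184] (.lc 2 6 (.lc 2 6 (.lc 2 6 (.lc 3 1 (.lc 3 1 (.lc 3 1 (.lc 3 6 (.lc 3 6 (.lc 3 6 (.lc 4 1 (.lc 4 1 (.lc 4 1 (.lc 4 1 (.lc 4 1 (.lc 4 1 (.lc 4 1 (.lc 4 1 (.lc 5 1 (.lc 5 1 .stop)))))))))))))))))))))))))))))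
 (.lc 3 11 (.conf [155,176] (.lc 3 11 (.lc 4 12 .stop)))))
 .stop)))))))))
 (.node [83,96,114] 6 0 (.far [32,8192,1,8208,0,0,16,16] 257 .stop)
 (.lc 1 2 (.node [83,104,114] 6 8 (.node [135] 8 7 (.node [114] 0 7 (.far [1,1,0,257,4112,256] 0 .stop)
 (.lc 2 1 (.conf [32,114] (.node [114] 9 7 (.far [1,1,0,257,4112,256] 0 (.far [257,1,0,257,16,256,0,1,257,1] 4096 (.node [32,154,162] 10 2 (.far [1,257,1,0,257,16,256,0,1,257,1] 4096 (.lc 3 11 (.node [176] 8 9 (.lc 2 1 (.node [154,176,185] 11 9 (.lc 0 2 .stop)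
 (.node [140,154] 9 10 (.far [4112,1,0,4096,257,0,257,4112,256] 0 (.lc 2 11 (.lc 2 2 (.lc 0 13 (.lc 2 11 (.lc 3 11 .stop))))))
 (.lc 1 2 (.conf [171,202] (.lc 3 1 (.conf [154,201] (.lc 3 1 (.lc 1 11 (.lc 3 1 (.lc 3 1 (.lc 2 11 (.lc 4 1 (.lc 4 1 .stop))))))))))))))
 (.lc 3 11 (.lc 4 12 .stop)))))
 (.node [32] 1 8 (.far [8224,0,0,32,8192,1,8208,0,0,16,16] 257 (.far [16,0,257,16,1] 0 (.node [137] 8 9 (.far [257,16,0,257,16,1] 0 (.conf [144,171,185] (.node [171,185,129,144] 1 10 (.far [8224,0,8224,0,0,32,8192,1,8208,0,0,16,16] 257 (.node [161,185,11] 11 9 (.lc 1 0 .stop)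
 .stop))
 (.far [257,16,0,257,16,1] 0 (.conf [144,172,129] .stop)))))
 (.lc 2 1 (.lc 2 1 (.node [137,168,10,137] 8 9 (.node [169] 9 0 .stop
 (.lc 2 0 (.lc 0 11 (.lc 2 0 (.lc 3 0 .stop)))))
 (.far [16,0,257,16,1] 0 (.node [137,168,186,137,144] 8 9 (.far [257,16,0,257,16,1] 0 (.lc 2 0 (.lc 0 12 (.lc 2 0 (.lc 3 0 .stop)))))
 (.lc 2 1 (.lc 2 1 (.lc 1 0 (.lc 3 1 .stop))))))))))))
 (.node [32,162,154] 10 2 (.node [160] 9 10 (.lc 2 7 (.node [155,160] 11 10 (.node [176] 9 11 (.lc 1 0 (.far [4112,0,4112,0,4112,256] 0 (.node [156,176] 8 9 (.far [1,4112,0,4112,0,4112,256] 0 (.lc 3 1 (.node [203,220,141] 8 13 (.node [220] 1 13 (.far [8224,32,8192,8224,0,8224,0,8192,0,0,0,8208,16,0,0,16,16] 257 (.lc 1 0 .stop))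
 (.lc 2 12 (.lc 2 12 .stop)))
 .stop)))
 (.lc 0 1 (.lc 2 0 (.lc 3 7 (.node [176,203,220,157] 8 9 (.far [1,4112,0,4112,0,4112,256] 0 (.lc 3 1 (.lc 1 12 .stop)))
 (.lc 2 0 (.lc 2 0 (.lc 3 7 (.lc 3 7 (.lc 0 1 (.lc 3 0 (.lc 0 1 (.lc 0 1 (.lc 4 7 .stop))))))))))))))))
 (.lc 3 1 (.lc 3 12 (.far [16,16,257,4097,1,257,513,8224,512,16,4096] 0 (.lc 3 12 (.lc 4 13 .stop))))))
 (.conf [155,176] (.conf [160,186] (.conf [160,186] (.far [32,0,8192,0,0,0,8208,16,0,0,16,16] 257 (.lc 3 7 (.node [160,155] 9 11 (.node [139,176] 8 11 (.far [257,4096,0,0,0,257,16,1] 0 (.lc 2 0 .stop))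
 (.lc 2 12 (.lc 0 1 (.lc 3 13 (.lc 3 7 (.lc 3 13 (.lc 2 0 (.lc 3 13 (.lc 3 7 (.lc 3 7 (.lc 0 1 (.lc 4 14 (.lc 0 1 (.lc 4 7 .stop))))))))))))))
 (.conf [145,160] (.conf [155,160] (.node [156,160,203] 8 9 (.node [203] 8 12 (.far [257,257,0,0,0,257,16,1] 0 (.far [8224,8224,0,0,0,8224,2,32,1,1,0,32,8208,16] 257 (.lc 2 8 (.lc 3 8 .stop))))
 (.lc 3 1 (.lc 1 11 (.lc 4 1 .stop))))
 (.lc 0 1 (.conf [156,203] (.conf [160,186] (.conf [156,160] (.conf [155,160] (.conf [156,160] (.conf [156,160] (.conf [157,160] .stop)))))))))))))))))))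
 (.lc 3 11 (.node [171,176,171,154] 9 10 (.lc 2 7 (.lc 1 11 (.conf [156,203] (.lc 3 13 (.lc 2 11 (.lc 3 7 (.lc 1 0 (.lc 3 12 (.lc 3 13 (.lc 2 0 (.lc 4 14 (.lc 4 13 (.lc 4 13 (.lc 4 13 (.lc 5 14 .stop)))))))))))))))
 (.lc 3 11 (.lc 4 12 .stop)))))
 (.far [1,1,0,257,4112,256] 0 (.far [1,1,0,257,4112,256] 0 (.node [32,154,160] 8 9 (.lc 2 1 (.node [139,154,160] 9 10 (.far [4112,1,4096,257,0,257,4112,256] 0 (.lc 2 0 (.lc 0 12 (.lc 2 0 (.lc 3 0 .stop)))))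
 (.conf [151,160] (.lc 3 1 (.conf [154,185] (.lc 3 1 (.node [151,160,139] 8 11 (.far [257,257,0,257,16,1] 0 (.lc 2 10 (.lc 2 10 .stop)))
 (.lc 3 1 (.conf [151,203,140] (.lc 4 1 .stop))))))))))
 (.node [32,155,162,186,155,162] 10 2 (.node [160] 8 9 (.node [128,155] 0 9 .stop
 (.lc 2 1 (.node [140,155] 9 11 (.far [4112,1,0,4096,257,0,257,4112,256] 0 (.lc 2 10 (.lc 2 10 (.lc 0 13 (.lc 2 10 (.lc 3 10 .stop))))))
 (.lc 2 7 (.lc 3 1 (.lc 3 1 (.lc 3 1 (.conf [155,201] (.lc 2 7 (.lc 3 1 (.lc 2 7 (.lc 3 1 (.lc 3 1 (.lc 4 1 (.lc 3 7 (.lc 4 1 (.lc 4 1 (.lc 4 1 (.lc 4 1 (.lc 4 1 (.lc 5 1 .stop)))))))))))))))))))))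
 (.lc 3 12 (.conf [172,192] (.lc 3 12 (.lc 4 13 .stop)))))
 .stop)))))))))
 (.lc 2 2 (.lc 2 2 (.lc 3 9 (.lc 3 0 (.lc 3 9 (.lc 3 0 (.lc 3 10 (.lc 3 1 (.node [114,144] 0 7 (.node [] 1 8 (.node [129,144] 1 9 .stop
 (.node [137,144] 8 9 (.node [144,169] 1 10 .stop
 (.lc 2 0 (.lc 0 11 (.lc 2 0 (.lc 3 0 .stop)))))
 (.lc 2 1 (.far [16,16,256,16,4096,257,4096] 0 (.conf [137,168] (.lc 2 1 (.lc 3 1 .stop)))))))
 .stop)
 (.conf [32,114] (.conf [32,114] (.node [114,151,114] 9 7 (.node [146] 0 9 .stop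
 (.lc 3 10 (.conf [32,154,162] (.lc 3 10 (.lc 4 11 .stop)))))
 (.node [114,151,169,114] 9 7 (.node [146] 8 10 (.node [128,169] 8 0 (.far [32,8224,2,8192,0,0,8208,16,0,0,16,16] 257 .stop)
 (.node [129,169,146] 1 10 (.far [8224,32,2,8192,0,0,8208,16,0,0,16,16] 257 (.lc 2 1 (.conf [169,186] .stop)))
 (.node [139,169] 1 8 (.node [186] 1 11 (.far [8224,8192,8224,2,8192,0,0,8208,16,0,0,16,16] 257 (.node [186,203,169,146] 11 10 (.far [8224,8192,0,32,2,8192,0,0,8208,16,0,0,16,16] 257 (.lc 2 8 (.conf [169,218] .stop)))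
 (.far [8224,8192,8224,2,8192,0,0,8208,16,0,0,16,16] 257 (.node [186,203,169,146] 11 10 (.node [169] 10 9 (.node [146] 12 9 (.far [4112,256,16,1,256,256] 17 .stop)
 (.lc 0 0 (.lc 3 2 .stop)))
 (.lc 2 8 (.lc 0 13 .stop)))
 (.node [186,203,220,169,146] 11 10 (.node [169] 10 9 (.node [146] 12 9 .stop
 (.lc 0 10 .stop))
 (.lc 2 8 (.lc 0 14 .stop)))
 .stop)))))
 (.lc 1 10 (.lc 1 10 (.lc 1 10 (.far [1,4112,1,4096,1,256,4112,256] 4097 (.lc 2 10 .stop))))))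
 (.lc 2 9 (.lc 2 9 (.lc 2 9 (.lc 2 9 (.lc 2 9 (.lc 3 1 (.lc 3 1 (.far [4112,1,4096,1,256,4112,256] 4097 (.conf [139,176] (.node [128,169,186,169,146] 8 0 (.far [4112,4112,1,4096,1,256,4112,256] 0 .stop)
 (.conf [140,203] (.lc 2 9 (.lc 2 9 (.lc 2 9 (.lc 2 9 (.lc 2 9 (.lc 3 1 (.lc 3 1 (.lc 3 1 (.lc 3 9 (.lc 3 9 (.lc 3 9 (.lc 3 9 (.lc 3 9 (.lc 4 1 (.lc 4 1 (.lc 4 1 (.lc 4 1 (.lc 4 1 (.lc 5 1 .stop)))))))))))))))))))))))))))))))))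
 (.lc 3 0 (.lc 3 11 (.node [144] 8 10 (.far [257,16,256,16,4096,257,4096] 17 (.node [139,169] 1 8 (.far [16,257,16,256,16,4096,257,4096] 17 (.lc 1 10 (.lc 1 10 .stop)))
 (.lc 2 9 (.lc 2 9 (.lc 3 1 (.conf [140,203] (.lc 2 9 (.lc 2 9 (.lc 3 1 (.lc 3 1 (.lc 3 1 (.lc 3 9 (.lc 4 1 (.lc 4 1 .stop))))))))))))))
 (.conf [32,155,178] (.lc 3 0 (.lc 3 11 (.lc 4 11 (.lc 4 12 .stop)))))))))
 (.lc 2 2 (.lc 2 2 (.lc 2 2 (.lc 2 2 (.lc 3 9 (.lc 3 0 (.lc 3 9 (.lc 3 0 (.lc 3 10 (.lc 3 2 (.lc 3 2 (.lc 4 10 (.lc 4 9 (.lc 4 10 (.lc 4 10 (.lc 4 0 (.lc 4 11 (.lc 3 2 (.lc 3 2 (.lc 3 2 (.lc 3 2 (.lc 3 2 (.lc 3 2 (.lc 4 2 (.lc 4 2 .stop))))))))))))))))))))))))))))))))))))))))))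
 (.far [32,8192,1,8208,0,0,16,16] 257 (.node [135,152] 1 9 (.far [8224,32,8192,1,8208,0,0,16,16] 257 (.lc 2 8 (.far [8224,32,8192,1,8208,0,0,16,16] 257 (.lc 2 8 (.lc 3 8 .stop)))))
 (.far [4112,4096,0,4112,1,257,256] 4097 (.conf [135,152] (.far [257,256,0,257,16,4112,4096] 0 (.far [257,256,0,257,16,4112,4096] 0 (.far [32,8192,1,8208,0,0,16,16] 257 (.node [135,152,169] 1 10 (.far [8224,32,8192,1,8208,0,0,16,16] 257 (.lc 2 9 (.conf [169,186] (.lc 2 9 (.lc 3 9 .stop)))))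
 .stop)))))))))
 (.node [104,128,87] 0 5 (.far [1,1,0,4112,0,1,256] 0 (.node [114,151] 9 7 (.node [146] 0 9 (.node [137] 6 8 (.node [137] 8 9 .stop
 (.conf [137,168] .stop))
 (.lc 0 10 .stop))
 (.lc 3 8 (.lc 3 10 (.conf [154,162] (.lc 3 10 (.lc 4 11 .stop))))))
 (.lc 1 2 .stop)))
 (.node [37,96,87] 2 5 (.lc 0 2 .stop)
 (.node [32,104,130,87] 2 5 (.lc 0 2 .stop)
 (.lc 2 3 (.lc 2 3 (.lc 2 3 (.node [96,87] 6 0 (.far [512,0,16,16,512,0,16,8208] 257 .stop)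
 (.node [105,152,87] 6 9 (.node [152] 8 5 (.far [1,0,1,0,4112,0,1,256] 0 (.lc 3 0 (.lc 3 10 (.node [114] 0 7 (.node [] 9 8 (.node [128,154] 1 9 (.node [168] 1 10 .stop
 (.lc 1 8 .stop))
 (.conf [155,186] (.lc 3 1 (.conf [128,168] (.node [128,155,168] 10 8 .stop
 (.lc 3 1 (.lc 2 0 (.conf [156,203] (.lc 4 1 .stop)))))))))
 .stop)
 (.node [114,167] 10 7 (.node [162] 9 8 (.node [138,144] 9 0 (.far [272,4112,1,1,16,4096,4096,4112,0,0,16,16] 257 .stop)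
 (.lc 1 5 (.node [138,155] 1 9 (.node [184] 1 11 (.far [8224,8208,4112,1,1,16,4096,4096,4112,0,0,16,16] 257 (.node [184,203] 11 8 (.far [8224,8192,16,272,1,1,16,4096,4096,4112,0,0,16,16] 257 (.lc 2 5 (.conf [138,216] .stop)))
 (.far [8224,8208,4112,1,1,16,4096,4096,4112,0,0,16,16] 257 (.node [184,203] 11 8 (.node [138] 8 10 (.node [162] 12 10 (.far [4112,256,16,1,256,256] 17 .stop)
 (.lc 0 0 (.lc 3 2 .stop)))
 (.lc 2 5 (.lc 0 13 .stop)))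
 (.node [184,203,220] 11 8 (.node [138] 8 10 (.node [162] 12 10 .stop
 (.lc 0 8 .stop))
 (.lc 2 5 (.lc 0 14 .stop)))
 .stop)))))
 (.lc 1 8 (.lc 1 8 (.lc 1 8 (.far [1,4112,0,0,4096,4112,0,0,1,256] 4097 (.lc 2 8 .stop))))))
 (.lc 2 10 (.lc 2 10 (.lc 2 10 (.lc 2 10 (.lc 3 1 (.lc 3 1 (.conf [155,176] (.conf [138,184] (.conf [138,184] (.lc 2 10 (.lc 2 10 (.lc 2 10 (.lc 2 10 (.lc 2 10 (.lc 3 1 (.lc 3 10 (.lc 3 10 (.lc 3 10 (.lc 3 10 (.lc 4 1 (.lc 3 10 (.lc 3 10 (.lc 3 10 (.lc 3 10 (.lc 4 10 .stop))))))))))))))))))))))))))))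
 (.lc 3 0 (.lc 3 11 (.far [16,16,257,16,257,258,16,4128,8192] 17 (.conf [171,178] (.lc 3 0 (.lc 3 11 (.lc 4 11 (.lc 4 12 .stop)))))))))
 (.lc 3 0 (.lc 1 2 (.lc 3 10 (.lc 4 10 (.lc 4 0 (.lc 4 11 .stop)))))))))))
 (.lc 2 8 (.lc 2 8 (.lc 2 8 (.node [152] 8 5 (.far [1,0,1,0,4112,0,1,256] 0 (.lc 3 10 (.node [114,167] 10 7 (.far [1,1,4112,1,4112,4128,1,258,512] 4097 (.lc 3 0 (.lc 3 11 (.conf [171,178] (.lc 3 11 (.lc 4 12 .stop))))))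
 (.lc 1 2 (.lc 3 10 (.lc 4 11 .stop))))))
 (.conf [152,169] (.lc 2 8 (.lc 2 8 (.lc 3 8 (.lc 3 8 .stop))))))))))
 (.lc 4 1 (.conf [83,104,128] (.node [83,96,114,135] 6 0 (.far [257,256,0,257,16,4112,4096] 0 .stop)
 (.lc 4 1 (.conf [83,105,152] (.node [105,152,87,128] 0 5 .stop
 (.node [37,104,128,87] 2 5 (.lc 0 2 .stop)
 (.lc 3 3 (.lc 3 3 (.lc 3 3 (.conf [105,133,87] (.conf [96,133,87] (.conf [96,133,87] (.conf [106,133,87] (.node [83,104,114,128] 0 7 (.far [1,1,4112,16,0,1,256] 0 .stop)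
 (.lc 2 2 (.lc 2 2 (.conf [83,114,135] (.conf [83,114,135] (.node [104,114,128] 0 7 (.far [1,1,4112,16,0,1,256] 0 .stop)
 (.node [96,114,135] 6 0 (.far [512,0,16,16,512,0,16,8208] 257 .stop)
 (.conf [114,135,152] (.node [104,114,128] 0 7 (.node [] 6 8 (.far [257,0,256,0,257,16,4112,4096] 0 (.node [128,152] 1 9 .stop
 (.conf [128,152] (.far [257,0,256,0,257,16,4112,4096] 0 (.node [128,152,169] 1 10 .stop
 .stop)))))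
 .stop)
 (.node [96,114,135] 6 0 (.far [257,256,0,257,16,4112,4096] 0 .stop)
 (.conf [105,135,152] (.node [105,114,152,128] 0 7 (.node [] 6 9 (.node [152] 9 8 (.node [128,154] 1 9 (.node [168] 1 10 .stop
 (.lc 1 8 .stop))
 (.lc 2 0 (.lc 3 1 (.conf [128,168] (.lc 2 0 (.lc 2 0 (.lc 3 0 (.lc 3 0 .stop))))))))
 (.lc 2 8 (.conf [152,169] (.lc 2 8 (.lc 3 8 .stop)))))
 .stop)
 (.node [105,114,135,144] 8 7 (.node [130] 0 8 .stop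
 (.lc 3 10 (.conf [138,162] (.lc 3 10 (.lc 4 11 .stop)))))
 (.node [96,114,135,152] 6 0 (.far [512,0,16,16,512,0,16,8208] 257 .stop)
 (.node [106,114,135,152] 8 7 (.node [130] 6 10 (.node [169] 10 9 (.node [152,160] 10 0 (.far [272,4112,16,1,4096,4096,4112,0,0,16,16] 257 .stop)
 (.node [152,171] 1 10 (.node [185] 1 11 (.far [8224,8208,4112,16,1,4096,4096,4112,0,0,16,16] 257 (.node [185,203] 11 9 (.far [8224,8192,16,272,16,1,4096,4096,4112,0,0,16,16] 257 (.lc 2 8 (.conf [152,217] .stop)))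
 (.far [8224,8208,4112,16,1,4096,4096,4112,0,0,16,16] 257 (.node [185,203] 11 9 (.node [152] 9 8 (.node [130] 12 8 (.far [4112,256,16,1,256,256] 17 .stop)
 (.lc 0 0 (.lc 3 2 .stop)))
 (.lc 2 8 (.lc 0 13 .stop)))
 (.node [185,203,220] 11 9 (.node [152] 9 8 (.node [130] 12 8 .stop
 (.lc 0 9 .stop))
 (.lc 2 8 (.lc 0 14 .stop)))
 .stop)))))
 (.lc 1 9 (.lc 1 9 (.lc 1 9 (.far [1,4112,8208,1,4096,4112,4128,2,514,512] 4097 (.lc 2 9 .stop))))))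
 (.lc 2 8 (.lc 2 8 (.lc 2 8 (.lc 2 8 (.lc 3 1 (.lc 3 1 (.conf [171,176] (.conf [152,185] (.conf [152,185] (.lc 2 8 (.lc 2 8 (.lc 2 8 (.lc 2 8 (.lc 2 8 (.lc 3 1 (.lc 3 8 (.lc 3 8 (.lc 3 8 (.lc 3 8 (.lc 4 1 (.lc 3 8 (.lc 3 8 (.lc 3 8 (.lc 3 8 (.lc 4 8 .stop)))))))))))))))))))))))))))
 (.lc 2 9 (.lc 2 9 (.far [8224,2,8192,8193,8208,8192,0,16,528] 257 (.conf [169,186] (.lc 2 9 (.lc 2 9 (.lc 3 9 (.lc 3 9 .stop)))))))))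
 (.lc 3 0 (.lc 3 11 (.node [128] 6 10 (.node [169] 10 9 (.node [152,171] 1 10 (.far [16,257,513,16,256,257,258,32,8224,8192] 17 (.lc 1 9 (.lc 1 9 .stop)))
 (.lc 2 8 (.lc 3 1 (.conf [152,185] (.lc 2 8 (.lc 2 8 (.lc 2 8 (.lc 3 1 (.lc 3 8 (.lc 3 8 (.lc 3 8 .stop)))))))))))
 (.lc 2 9 (.lc 2 9 (.conf [169,186] (.lc 2 9 (.lc 3 9 .stop))))))
 (.conf [139,178] (.lc 3 0 (.lc 3 11 (.lc 4 11 (.lc 4 12 .stop)))))))))
 .stop))))))))))))))))))))))))))))))))))))))))))))))))))))))))))))))))))))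

theorem t35 : kNode2 awTt FTt 6 5 (check tyTt awTt triet FTt [f1, f2] c35) (fun _ _ _ => true) 0 s35 Pl.nil s35 =
    true := by
  decide +kernel

end Chk
end Pool.Agent.Lib.MP_ba95e8_co
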