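import Pool.Agent.Lib.MP_ba95e8_co.ChkTab
import Pool.Agent.Lib.MP_ba95e8_co.ChkStates

/-!
Deltahedral domes: part 37 of the case analysis.
-/

namespace Pool.Agent.Lib.MP_ba95e8_co
namespace Chk

/-- certificate number 37 -/
def c37 : Cert := (.node [80,103] 7 5 (.far [1,4112,1,4112,0,257] 0 (.node [113,80] 6 7 (.node [104,113] 7 1 (.far [4112,1,4096,4112,257,4112,0,257] 0 (.lc 0 9 .stop))
 (.conf [113,135] .stop))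
 (.node [120,128,80] 6 7 (.lc 2 1 (.node [105,120,128] 7 8 (.far [4112,1,4096,4112,257,4112,0,257] 0 (.lc 0 1 (.lc 0 10 (.lc 0 10 (.node [128,168] 1 6 (.far [16,0,257,0,0,257,0,16,1] 0 (.lc 1 10 (.lc 1 10 (.lc 1 6 (.node [27,154,185,154] 1 11 .stop
 (.lc 2 10 .stop))))))
 (.lc 0 11 .stop))))))
 (.lc 3 1 (.conf [117,152,105] (.lc 3 1 (.lc 3 1 (.conf [120,151] (.lc 3 1 (.conf [117,128] (.lc 3 1 (.lc 3 1 (.lc 4 1 (.conf [117,128] (.lc 4 1 (.lc 4 1 (.lc 4 1 (.lc 4 1 (.lc 5 1 .stop))))))))))))))))))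
 (.far [16,256,16,1,0,4112,16] 1 (.node [128,120] 1 6 (.lc 1 1 (.node [128,134,120] 8 6 (.lc 0 5 .stop)
 (.node [103] 6 7 (.far [257,16,0,0,257,0,16,1] 0 (.lc 2 8 (.lc 2 5 (.node [154,167,97,120,128] 7 8 (.lc 2 5 (.node [123,128] 10 7 (.node [171] 9 10 (.node [156,171] 10 11 (.node [184] 9 12 (.node [203] 1 12 .stop
 (.lc 2 11 .stop))
 (.lc 2 8 (.lc 0 13 (.lc 2 8 (.lc 3 8 .stop)))))
 (.conf [156,167] (.conf [145,171] (.conf [171,202] (.lc 1 8 (.node [145,167,184] 1 11 (.lc 2 1 .stop)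
 (.lc 2 8 (.lc 2 8 .stop))))))))
 (.lc 3 12 (.lc 1 8 (.lc 3 12 (.lc 4 13 .stop)))))
 (.lc 3 5 (.lc 2 0 (.conf [117,128,184] (.lc 3 5 (.conf [124,203] (.lc 3 5 (.lc 2 0 (.lc 2 0 (.lc 0 11 (.lc 4 5 (.lc 3 0 (.lc 0 12 (.lc 3 0 (.lc 3 0 (.lc 3 0 (.lc 4 0 .stop))))))))))))))))))
 (.lc 2 8 (.lc 3 8 .stop))))))
 (.lc 2 1 (.lc 2 1 (.lc 2 1 (.node [134,103,120] 8 6 (.lc 0 5 .stop)
 (.node [128,137,150,120,103,137] 1 8 (.lc 1 9 .stop)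
 (.node [26,103,150,169,103,120,128] 6 7 (.node [151] 1 10 (.lc 2 9 .stop)
 (.lc 2 8 (.lc 2 5 (.lc 0 11 (.lc 2 8 (.lc 3 8 .stop))))))
 (.lc 2 1 (.node [103,150,169,103,120,128] 6 7 (.far [257,16,0,0,257,0,16,1] 0 (.lc 2 8 (.lc 2 5 (.lc 0 11 (.lc 2 8 (.lc 3 8 .stop))))))
 (.lc 2 1 (.lc 2 1 (.lc 2 1 (.lc 2 1 (.lc 2 1 (.node [128,134,152,120,134] 8 6 (.lc 0 5 .stop)
 (.node [26,103,169,150] 9 6 (.node [120] 1 10 (.lc 2 9 .stop)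
 (.lc 1 8 (.lc 1 8 (.lc 1 5 (.lc 3 11 (.lc 2 8 .stop))))))
 (.lc 3 1 (.lc 3 1 (.node [27,103,150,169,186,103,169,120,128,150] 9 6 (.node [151] 1 11 (.lc 2 10 .stop)
 (.lc 1 8 (.lc 1 8 (.lc 1 5 (.lc 3 12 (.lc 2 8 .stop))))))
 (.lc 3 1 (.lc 3 1 (.lc 3 1 (.lc 3 1 (.lc 4 1 .stop))))))))))))))))))))))))))
 (.far [4096,4096] 256 (.far [1,4112,1,4112,0,257] 0 (.node [120,129,80] 1 6 (.far [257,4096,4112,0,4112,1,256] 0 (.lc 0 9 .stop))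
 (.node [121,152,80,128] 6 7 (.lc 2 1 (.node [106,121,152,128] 7 9 (.far [4112,1,4096,4112,257,4112,0,257] 0 (.lc 2 8 (.lc 2 8 (.lc 0 11 (.lc 2 8 (.lc 3 8 .stop))))))
 (.lc 3 1 (.conf [117,152] (.lc 3 1 (.lc 3 1 (.conf [121,167] (.lc 3 1 (.node [117,152,128,106] 9 8 (.conf [128,168] (.lc 2 0 (.lc 2 0 (.lc 0 11 (.lc 2 0 (.lc 3 0 .stop))))))
 (.lc 3 1 (.lc 3 1 (.lc 4 1 (.conf [117,186,107] (.lc 4 1 (.lc 4 1 (.lc 4 1 (.lc 4 1 (.lc 5 1 .stop))))))))))))))))))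
 .stop)))))))))
 (.conf [32,82] (.node [88,103] 7 5 (.far [1,4112,1,4112,0,257] 0 (.conf [112,130,82] (.conf [113,130,82] (.conf [121,130,82] (.node [130,82] 0 8 .stop
 (.node [130,152,82] 9 8 (.node [130,144] 0 8 (.node [] 7 9 (.node [113,144] 1 9 (.far [8208,16,0,4112,4112,0,16,1,0,4112,16] 257 .stop)
 (.lc 2 5 (.node [122,144] 10 9 (.node [160] 7 10 (.node [113,160] 7 1 (.lc 0 1 .stop)
 (.far [4112,0,4112,0,0,4112,0,256] 0 (.node [123,160] 6 7 (.far [1,4112,0,4112,0,0,4112,0,256] 0 (.lc 3 1 (.lc 3 1 (.node [186,203,108] 6 12 (.node [203] 12 11 (.node [186,205] 11 10 (.node [160] 12 13 (.node [218] 13 10 .stop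
 (.lc 2 10 .stop))
 (.lc 0 14 .stop))
 (.conf [183,205] (.conf [186,193] (.conf [186,219] (.node [183,193,26] 1 10 (.far [1,257,0,0,1,4112,256] 0 .stop)
 (.lc 2 0 .stop))))))
 (.lc 2 11 (.conf [29,203,220] (.lc 2 11 (.lc 3 11 .stop)))))
 (.lc 3 1 (.lc 4 1 .stop))))))
 (.lc 0 1 (.lc 2 0 (.lc 2 0 (.lc 0 1 (.lc 3 5 (.lc 0 1 (.node [160,186,203,124] 6 7 (.far [1,4112,0,4112,0,0,4112,0,256] 0 (.lc 3 1 (.lc 3 1 (.lc 1 11 (.lc 3 1 (.lc 4 1 .stop))))))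
 (.lc 0 1 (.lc 2 0 (.lc 2 0 (.lc 2 0 (.lc 0 1 (.lc 3 5 (.lc 0 1 (.lc 0 1 (.lc 3 0 (.lc 0 1 (.lc 0 1 (.lc 0 1 (.lc 0 1 (.lc 4 5 (.lc 0 1 .stop)))))))))))))))))))))))))
 (.lc 3 1 (.far [16,16,256,0,4096,4096] 256 (.lc 3 1 (.lc 3 11 (.lc 4 11 .stop))))))
 (.lc 2 0 (.lc 2 0 (.conf [144,169] (.conf [144,169] (.lc 0 1 (.conf [144,169] (.lc 2 0 (.lc 2 0 (.lc 2 0 (.node [122,144,161] 1 9 (.far [1,1,1,4096,256,256] 0 .stop)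
 (.node [123,144,186] 6 7 (.node [186] 6 11 (.far [257,257,0,0,0,0,0,257,0,16,1] 0 (.lc 2 6 (.conf [186,203] (.lc 2 6 (.lc 3 6 .stop)))))
 (.lc 3 1 (.lc 3 1 (.lc 1 10 (.lc 3 1 (.lc 4 1 .stop))))))
 (.lc 0 1 (.lc 3 0 (.conf [144,169] (.lc 3 0 (.lc 3 0 (.lc 3 0 (.lc 3 0 (.lc 4 0 .stop))))))))))))))))))))))
 .stop)
 (.node [130,145] 1 8 .stop
 (.node [130,154] 8 2 (.node [162] 10 2 (.node [160] 9 10 (.lc 1 0 (.node [145,160] 9 1 .stop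
 (.node [155,160] 7 9 (.node [123] 11 10 (.node [176] 7 11 (.lc 1 0 (.node [113,176] 7 1 (.lc 0 1 .stop)
 (.far [4112,0,4112,0,0,0,0,4112,0,256] 0 (.node [124,176] 6 7 (.far [1,4112,0,4112,0,0,0,0,4112,0,256] 0 (.lc 3 1 (.lc 3 1 (.node [203,220,109] 12 11 (.node [192,220] 6 13 (.node [220] 13 12 (.lc 3 1 .stop)
 (.lc 2 12 (.conf [220,237] (.lc 2 12 (.lc 3 12 .stop)))))
 (.far [16,0,16,257,4096,4096] 4097 (.far [1,0,1,4112,256,256] 0 (.far [4112,0,16,1,4096,4096,4096] 256 .stop))))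
 (.lc 3 1 (.lc 4 1 .stop))))))
 (.lc 2 0 (.lc 2 0 (.lc 0 1 (.lc 3 5 (.lc 2 0 (.lc 0 1 (.node [125,203,220,125,176] 6 7 (.far [1,4112,0,4112,0,0,0,0,4112,0,256] 0 (.lc 3 1 (.lc 3 1 (.lc 1 12 (.lc 3 1 (.lc 4 1 .stop))))))
 (.lc 2 0 (.lc 3 5 (.lc 0 1 (.lc 0 1 (.lc 3 0 (.lc 0 1 (.lc 0 1 (.lc 0 1 (.lc 0 1 (.lc 0 1 .stop)))))))))))))))))))))
 (.far [8224,16,272,0,0,4112,4112,0,16,1,0,4112,16] 257 (.node [188,192,160] 7 11 (.node [192] 7 12 (.far [4112,4112,0,4112,0,0,0,0,4112,0,256] 0 (.lc 0 1 (.lc 0 1 (.lc 0 1 (.lc 2 0 (.lc 0 1 .stop))))))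
 (.lc 3 5 (.far [16,256,4096,4112,257,4096,4096] 0 (.lc 0 1 .stop))))
 (.far [16,0,16,257,4096,4096] 4097 (.far [16,0,16,257,4096,4096] 0 (.far [4096,0,0,4096] 256 (.far [1,0,1,4112,256,256] 0 (.far [4112,0,16,1,4096,4096] 256 (.node [189,220,160,192] 7 11 (.far [1,4096,256,257,4112,256,256] 0 (.lc 3 5 (.lc 1 12 (.lc 0 1 .stop))))
 .stop)))))))))
 (.lc 1 10 (.lc 1 10 (.lc 1 10 (.lc 1 10 (.far [1,4112,0,4112,4096,256,256] 0 (.lc 2 10 (.lc 2 10 .stop))))))))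
 (.lc 2 0 (.lc 2 0 (.lc 3 7 (.lc 3 7 (.lc 2 0 (.lc 2 0 (.conf [156,203] (.lc 2 0 (.lc 2 0 (.lc 3 7 (.lc 3 7 (.lc 3 7 (.lc 3 7 (.lc 3 0 (.lc 3 0 (.lc 4 7 (.lc 4 7 (.lc 4 7 (.lc 4 7 (.lc 4 7 (.lc 4 7 (.lc 4 7 (.lc 4 7 (.lc 4 7 (.lc 5 7 (.lc 5 7 .stop)))))))))))))))))))))))))))))
 (.node [167,112] 10 7 .stop
 (.node [171,176] 9 10 (.node [155] 7 9 (.node [123] 7 11 (.lc 1 0 (.node [113,176] 7 1 (.lc 0 1 .stop)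
 (.far [4112,4112,0,0,0,0,4112,0,256] 0 (.node [124,176] 6 7 (.far [1,4112,4112,0,0,0,0,4112,0,256] 0 (.lc 3 1 (.lc 3 1 (.node [203,220,109] 12 11 (.node [192,220] 6 13 (.node [220] 13 12 (.lc 3 1 .stop)
 (.lc 2 12 (.conf [220,237] (.lc 2 12 (.lc 3 12 .stop)))))
 (.far [16,0,16,4096,4096,1] 256 (.far [1,0,1,256,257,4112,256,256] 0 (.far [4112,0,16,4096,4096,4096] 256 .stop))))
 (.lc 3 1 (.lc 4 1 .stop))))))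
 (.lc 2 0 (.lc 2 0 (.lc 0 1 (.lc 3 5 (.lc 2 0 (.lc 0 1 (.node [176,203,220,125] 6 7 (.far [1,4112,4112,0,0,0,0,4112,0,256] 0 (.lc 3 1 (.lc 3 1 (.lc 1 12 (.lc 3 1 (.lc 4 1 .stop))))))
 (.lc 2 0 (.lc 3 5 (.lc 0 1 (.lc 0 1 (.lc 3 0 (.lc 0 1 (.lc 0 1 (.lc 0 1 (.lc 0 1 (.lc 0 1 .stop)))))))))))))))))))))
 (.lc 1 0 (.lc 1 0 (.lc 1 0 (.far [1,4112,0,4112,4096,256,256] 0 (.lc 2 0 .stop))))))
 (.lc 3 7 (.conf [156,203] (.lc 3 7 (.lc 4 7 .stop)))))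
 (.node [171,176,171] 9 10 (.node [145,171] 1 10 .stop
 (.lc 1 2 (.node [156,171] 7 9 (.node [124] 12 10 (.far [1,0,1,4112,256,256] 0 (.lc 1 0 (.lc 1 0 (.lc 1 0 (.lc 3 13 (.lc 2 0 .stop))))))
 (.lc 1 10 (.lc 1 10 (.lc 1 10 (.lc 1 10 (.far [1,4112,0,4112,4096,256,256] 0 (.lc 2 10 .stop)))))))
 (.lc 2 2 (.lc 3 7 (.lc 3 7 (.lc 2 2 (.conf [171,202] (.lc 2 2 (.lc 2 2 (.lc 3 7 (.lc 3 7 (.lc 3 7 (.lc 3 7 (.lc 3 2 (.lc 4 7 (.lc 4 7 (.lc 4 7 (.lc 4 7 (.lc 4 7 (.lc 4 7 (.lc 5 7 .stop))))))))))))))))))))))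
 (.node [171,176] 9 10 (.far [1,1,1,257,1,4096,1,16,0,257,1] 4096 (.lc 3 7 (.lc 1 0 (.lc 3 7 (.lc 4 7 .stop)))))
 (.node [172,203,176] 9 10 (.node [156] 9 12 (.node [124] 7 12 (.far [1,1,257,4112,256,256] 0 (.lc 3 5 (.lc 1 0 (.lc 0 1 .stop))))
 (.lc 2 9 (.conf [203,220] (.lc 1 0 (.lc 2 0 .stop)))))
 (.lc 3 7 (.lc 1 11 (.lc 3 7 (.lc 4 7 .stop)))))
 .stop))))))
 (.lc 0 0 (.lc 0 0 (.lc 0 11 (.node [160] 7 9 (.node [113,154] 1 9 .stop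
 (.lc 2 5 (.node [123,154] 9 10 (.far [257,16,257,256,4096,4096] 17 (.lc 2 0 (.lc 2 0 (.lc 0 12 (.lc 2 0 (.lc 3 0 .stop))))))
 (.lc 2 7 (.conf [154,185] (.conf [154,185] (.lc 0 1 (.conf [154,185] (.lc 2 7 (.lc 3 5 (.lc 2 7 (.lc 2 7 (.lc 2 7 (.lc 2 7 (.far [4112,257,16,4112,0,16,1,0,4112,16] 1 (.node [123,154,177] 1 9 .stop
 (.node [124,154,203] 6 7 (.node [203] 6 12 (.far [257,257,0,0,0,0,0,257,0,16,1] 0 (.lc 2 6 (.conf [203,220] (.lc 2 6 (.lc 3 6 .stop)))))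
 (.lc 3 1 (.lc 3 1 (.lc 1 11 (.lc 3 1 (.lc 4 1 .stop))))))
 (.lc 0 1 (.lc 3 7 (.conf [154,185] (.lc 3 7 (.lc 3 7 (.lc 3 7 (.lc 3 7 (.lc 3 7 (.lc 3 7 (.lc 4 7 .stop)))))))))))))))))))))))))))
 (.lc 0 11 .stop))))))
 (.conf [130,144] (.conf [130,154] (.conf [130,145] (.conf [130,154] (.conf [130,150] (.conf [130,144] (.conf [130,145] (.conf [130,155] (.node [130,145] 9 1 (.node [150] 9 6 (.lc 0 5 .stop)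
 (.lc 1 1 .stop))
 (.conf [154,160] (.conf [130,168] (.conf [130,168] (.conf [130,144] (.far [257,1,4096,1,16,0,257,1] 4096 (.node [130,154,32] 7 9 (.node [122] 10 2 (.far [1,1,1,257,0,1,16,0,257,1] 4096 (.lc 3 11 (.node [171,176] 7 10 (.node [113,171] 1 10 .stop
 (.lc 2 5 (.lc 1 2 (.node [124,171] 10 11 (.node [176] 6 7 (.far [1,0,4112,0,4112,0,4112,0,256] 0 (.lc 3 1 (.lc 3 1 (.node [203,220,176,109] 12 11 (.node [176] 6 13 (.node [219] 13 11 (.far [4112,1,16,256,256,256] 4097 .stop)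
 (.conf [219,237] .stop))
 (.lc 2 0 (.lc 0 14 (.lc 3 0 .stop))))
 (.lc 3 1 (.lc 4 1 .stop))))))
 (.lc 2 0 (.lc 2 0 (.lc 0 13 (.lc 2 0 (.lc 3 0 .stop))))))
 (.lc 2 2 (.lc 0 1 (.lc 3 5 (.lc 3 5 (.lc 0 1 (.lc 2 2 (.conf [171,202] (.lc 2 2 (.lc 3 5 (.lc 2 2 (.lc 3 5 (.lc 0 1 (.lc 0 1 (.lc 3 2 (.lc 0 1 (.lc 0 1 (.lc 0 1 (.lc 0 1 (.lc 0 1 (.lc 4 5 (.lc 0 1 .stop)))))))))))))))))))))))))
 (.lc 3 11 (.lc 4 12 .stop)))))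
 (.lc 3 0 (.lc 3 1 (.lc 3 11 (.lc 1 2 (.lc 1 2 (.lc 3 0 (.lc 3 11 (.lc 4 1 (.lc 4 11 (.lc 4 0 (.lc 4 12 .stop))))))))))))
 (.conf [130,145] (.conf [130,154] (.conf [130,154] (.conf [130,144] (.conf [130,155] (.conf [130,154] (.conf [130,154] (.conf [130,155] (.conf [130,145] (.conf [130,155] (.conf [130,144] (.conf [130,156] (.node [130,154,160] 7 9 (.conf [122,160] (.lc 3 1 (.lc 3 11 (.lc 1 0 (.lc 3 11 (.lc 4 12 .stop))))))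
 (.conf [130,162,32] (.node [130,154,160] 7 9 (.conf [122,160] (.lc 3 1 (.lc 3 11 (.lc 1 0 (.lc 3 11 (.lc 4 12 .stop))))))
 (.node [130,154,160] 7 9 (.far [16,256,4096,4096] 17 (.lc 3 1 (.lc 3 11 (.conf [123,186] (.lc 3 11 (.lc 4 12 .stop))))))
 (.node [130,155,186,160] 7 9 (.conf [123,186] (.lc 3 1 (.lc 3 12 (.lc 1 10 (.lc 3 12 (.lc 4 13 .stop))))))
 .stop)))))))))))))))))))))))))))))))))))
 (.far [1,4112,1,4112,0,257] 0 (.far [1,4112,1,4112,0,257] 0 (.conf [113,130,82] (.conf [121,130,82] (.conf [112,130,82] (.conf [122,130,82] .stop))))))))))))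
 (.conf [32,82] (.node [88,128,103,88] 5 8 (.far [4112,4096,1,16,0,257,1] 4096 (.lc 0 1 (.lc 0 9 (.lc 0 9 (.lc 2 0 (.lc 0 10 .stop))))))
 (.conf [32,82] (.node [32,89,152,103,89,130] 5 9 (.node [152] 8 2 (.far [1,4112,4096,1,16,0,257,1] 4096 (.lc 3 7 (.lc 3 10 (.node [160] 9 8 (.node [138,145] 9 1 .stop
 (.lc 1 2 (.node [138,155] 7 9 (.far [1,4112,0,4096,16,1,4112,0,257] 0 (.lc 3 1 (.lc 3 10 (.lc 3 12 (.lc 1 8 (.lc 3 12 (.lc 4 13 .stop)))))))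
 (.lc 2 10 (.lc 2 10 (.lc 2 2 (.conf [138,184] (.lc 2 2 (.conf [138,184] (.lc 2 10 (.lc 2 10 (.lc 2 10 (.lc 2 10 (.lc 0 5 (.lc 2 10 (.lc 0 1 (.lc 0 10 (.lc 0 11 (.lc 3 10 (.lc 0 11 (.lc 0 12 (.lc 0 11 (.lc 0 12 (.lc 0 1 (.lc 0 12 (.lc 1 1 (.lc 3 10 (.lc 0 13 .stop))))))))))))))))))))))))))))
 (.lc 3 10 (.lc 4 11 .stop))))))
 (.lc 0 0 (.lc 0 1 (.lc 0 10 (.lc 0 0 (.lc 0 10 (.lc 2 8 (.lc 2 8 (.lc 0 1 (.lc 0 10 (.lc 0 0 (.lc 0 11 .stop))))))))))))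
 (.lc 3 2 (.lc 3 2 (.far [4112,1,4112,0,257] 0 (.node [88,128,103,88] 5 8 (.far [4112,4112,1,4112,0,257] 0 (.lc 0 1 (.lc 0 9 (.lc 0 9 (.lc 2 0 (.lc 0 10 .stop))))))
 (.conf [32,82] (.node [89,152,103,89,130] 5 9 (.far [4112,4112,1,4112,0,257] 0 (.lc 0 0 (.lc 0 1 (.lc 0 10 (.lc 0 0 (.lc 0 10 (.lc 2 8 (.lc 2 8 (.lc 0 1 (.lc 0 10 (.lc 0 0 (.lc 0 11 .stop))))))))))))
 (.conf [32,82] (.node [88,103] 5 8 (.node [] 1 6 (.far [4112,257,257,16,256,513,16,8208] 1 (.lc 1 1 (.node [128,134] 8 6 (.lc 0 5 .stop)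
 (.node [103] 6 7 (.far [257,16,0,0,257,0,16,1] 0 (.conf [120,154,167] (.lc 2 5 (.node [154,167,97,120] 10 7 (.far [16,16,0,4096,0,4096] 0 (.node [120,171] 11 7 (.far [16,16,16,0,4096,0,4096] 0 (.lc 3 12 (.far [16,16,16,0,4096,0,4096] 0 (.lc 3 12 (.lc 4 13 .stop)))))
 (.conf [117,128,184] (.lc 3 11 (.lc 3 12 (.conf [117,128] (.conf [120,183] (.node [117,128,171,154] 11 8 (.node [176] 9 10 (.node [156,171] 10 11 (.far [257,16,0,257,16,0,4096,0,4096] 0 (.lc 2 0 (.lc 0 13 (.lc 2 0 (.lc 3 0 .stop)))))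
 (.lc 2 7 (.lc 3 1 (.conf [171,202] (.lc 2 7 (.lc 3 1 (.lc 3 7 (.lc 4 1 .stop))))))))
 (.far [4112,16,256,16,257,257,16,256,513,16,8208] 1 (.far [1,1,4096,1,0,16,0,4112,1,256] 0 .stop)))
 (.lc 1 0 (.lc 3 11 (.lc 3 11 (.lc 3 12 (.conf [117,172,203] (.lc 4 12 (.lc 4 13 (.lc 4 12 (.lc 4 12 (.lc 4 12 (.lc 5 13 .stop)))))))))))))))))))
 (.far [257,16,0,0,257,0,16,1] 0 (.conf [120,155,97] .stop))))))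
 (.lc 2 1 (.lc 2 1 (.lc 2 1 (.lc 2 1 (.node [134,103] 8 6 (.lc 0 5 .stop)
 (.node [103,150,9,103,120] 6 7 (.node [151] 9 7 (.lc 1 5 (.node [120,154] 0 9 (.lc 0 10 .stop)
 (.lc 2 5 (.lc 2 5 (.conf [155,186] (.lc 2 5 (.lc 2 5 (.lc 3 5 .stop))))))))
 (.lc 2 8 (.lc 2 5 (.lc 0 10 (.lc 2 8 (.lc 3 8 .stop))))))
 (.node [103,128,137,150,103,137] 1 8 (.far [4096,0,257,256,16,1,0,4112,16] 1 .stop)
 (.node [26,103,150,169,103,120] 6 7 (.node [151] 1 10 (.node [] 9 7 (.lc 1 5 (.node [120,155] 10 9 (.far [16,257,0,1,4112,0,0,257,0,16,1] 0 (.lc 1 7 (.lc 1 7 (.lc 1 7 (.node [172,203] 10 12 (.lc 2 11 .stop)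
 (.lc 2 7 .stop))))))
 (.lc 2 5 (.lc 2 5 (.conf [171,183] (.lc 2 5 (.conf [156,203] (.lc 2 5 (.lc 2 5 (.lc 2 5 (.conf [150,171] (.lc 3 5 (.lc 3 5 (.conf [150,172] (.lc 3 5 (.lc 3 5 (.lc 3 5 (.lc 4 5 .stop))))))))))))))))))
 (.lc 2 9 (.node [138] 7 8 (.far [1,16,4112,4096,4096,0,4096] 0 (.lc 1 9 (.lc 3 5 .stop)))
 (.lc 2 9 (.lc 2 9 (.lc 3 9 .stop))))))
 (.lc 2 8 (.lc 2 5 (.lc 0 11 (.lc 2 8 (.lc 3 8 .stop))))))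
 (.lc 2 1 (.far [4112,4112,4096,1,0,16,1] 256 (.node [103,150,169,103,120] 6 7 (.far [257,16,0,0,257,0,16,1] 0 (.lc 2 8 (.lc 2 5 (.lc 0 11 (.lc 2 8 (.lc 3 8 .stop))))))
 (.lc 2 1 (.lc 2 1 (.lc 2 1 (.lc 2 1 (.lc 2 1 (.lc 2 1 (.lc 2 1 (.node [1,103] 8 6 (.lc 0 5 .stop)
 (.node [25,128,134,152,134] 8 6 (.lc 0 5 .stop)
 (.node [26,103,169,150] 9 6 (.node [] 1 10 (.node [169] 10 9 (.lc 1 6 (.node [128,151,168] 10 8 (.far [4112,4112,8208,1,4096,0,0,4112,1,0,4112,16] 257 .stop)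
 (.node [151,171] 0 10 (.lc 1 9 .stop)
 (.conf [171,184] (.conf [172,203] (.conf [137,151] (.lc 2 6 (.conf [151,185] (.node [128,151,168,185] 10 8 (.far [1,257,0,0,257,0,16,0,4112,1,256] 0 .stop)
 (.node [151,172,185] 9 7 (.node [120,183] 11 7 (.node [184] 11 8 (.far [257,257,1,16,0,257,4096] 0 (.node [205,216,128] 10 12 .stop
 .stop))
 (.lc 3 7 (.conf [189,216] (.lc 3 7 (.lc 4 7 .stop)))))
 (.lc 2 5 (.lc 0 8 (.lc 0 13 (.lc 2 5 (.lc 3 5 .stop))))))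
 (.conf [151,160] (.conf [173,220] (.conf [151,160] .stop)))))))))))))
 (.lc 2 9 (.conf [138,169] (.lc 2 9 (.lc 2 9 (.lc 3 9 .stop))))))
 (.lc 3 11 (.node [120,183,128] 11 7 (.node [184] 1 10 (.far [257,16,16,16,4096,0,258,0,4128,2,257] 16 (.lc 2 9 (.lc 2 9 .stop)))
 (.lc 1 0 (.lc 1 0 (.lc 1 0 (.lc 3 12 (.lc 2 0 .stop))))))
 (.lc 1 5 (.lc 3 11 (.lc 4 12 .stop))))))
 (.lc 3 1 (.lc 3 1 (.far [4112,0,1,0,257,16,4096] 0 (.node [27,103,150,169,186,103,169,120,150] 9 6 (.node [151] 1 11 (.node [186] 9 7 (.lc 1 5 (.node [120,156] 10 9 (.far [16,257,0,256,4112,0,0,257,0,16,1] 0 (.lc 3 8 (.lc 3 13 (.lc 1 7 (.lc 3 13 (.lc 4 14 .stop))))))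
 (.lc 2 5 (.lc 2 5 (.lc 3 6 (.lc 2 5 (.conf [157,220] (.lc 2 5 (.lc 2 5 (.lc 2 5 (.lc 3 6 (.lc 3 5 (.lc 3 5 (.lc 4 6 (.lc 3 5 (.lc 3 5 (.lc 3 5 (.lc 4 5 .stop))))))))))))))))))
 (.lc 2 10 (.conf [139,186] (.lc 2 10 (.lc 2 10 (.lc 3 10 .stop))))))
 (.lc 1 8 (.lc 1 8 (.lc 1 5 (.lc 3 12 (.lc 2 8 .stop))))))
 (.lc 3 1 (.lc 3 1 (.lc 3 1 (.lc 3 1 (.lc 3 1 (.lc 4 1 .stop)))))))))))))))))))))))))))))))))))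
 (.conf [113,128,82] (.conf [121,128,82] (.node [121,152,82] 6 7 (.lc 2 1 (.node [106,121,152] 7 9 (.far [4112,1,4112,4112,258,4128,0,514,1] 4096 (.lc 2 8 (.lc 2 8 (.lc 0 11 (.lc 2 8 (.lc 3 8 .stop))))))
 (.lc 3 1 (.conf [117,152] (.lc 3 1 (.lc 3 1 (.conf [121,167] (.lc 3 1 (.node [117,152,128,106] 9 8 (.node [128] 6 10 (.far [257,0,257,0,0,257,0,16,1] 0 (.lc 2 8 (.lc 2 8 (.node [27,168,186] 1 11 (.node [186] 11 10 (.lc 1 6 (.node [168,188] 10 8 (.far [257,16,4112,16,4096,4096,4112,4112,1,4112,0,257] 256 (.lc 0 13 .stop))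
 (.lc 2 6 (.lc 1 0 (.conf [168,202] (.lc 1 0 .stop))))))
 (.lc 2 10 (.lc 2 10 .stop)))
 (.lc 2 8 (.lc 3 8 .stop))))))
 (.lc 2 0 (.lc 2 0 (.lc 0 11 (.lc 2 0 (.lc 3 0 .stop))))))
 (.lc 3 1 (.lc 3 1 (.lc 3 1 (.lc 4 1 (.conf [117,186,107] (.lc 4 1 (.lc 4 1 (.lc 4 1 (.lc 4 1 (.lc 4 1 (.lc 5 1 .stop))))))))))))))))))))
 (.node [128,152,82] 9 8 (.node [128,145] 1 8 (.far [4096,0,257,256,16,1,0,4112,16] 1 .stop)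
 (.node [128,154] 8 0 (.node [160] 7 9 (.node [113,154] 1 9 .stop
 (.lc 2 5 (.node [123,154] 9 10 (.far [4112,1,4112,4096,1,256] 17 (.lc 2 0 (.lc 2 0 (.lc 0 12 (.lc 2 0 (.lc 3 0 .stop))))))
 (.lc 2 7 (.conf [154,185] (.conf [154,185] (.lc 0 1 (.conf [154,185] (.lc 2 7 (.lc 3 5 (.lc 2 7 (.lc 2 7 (.lc 2 7 (.node [123,154,177] 1 9 .stop
 (.node [124,154,203] 6 7 (.node [203] 6 12 (.far [257,257,0,0,0,0,0,257,0,16,1] 0 (.lc 2 6 (.conf [203,220] (.lc 2 6 (.lc 3 6 .stop)))))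
 (.lc 3 1 (.lc 3 1 (.lc 1 11 (.lc 3 1 (.lc 4 1 .stop))))))
 (.lc 0 1 (.lc 3 7 (.conf [154,185] (.lc 3 7 (.lc 3 7 (.lc 3 7 (.lc 3 7 (.lc 3 7 (.lc 4 7 .stop))))))))))))))))))))))))
 (.lc 0 1 (.lc 0 1 (.lc 0 11 (.far [257,16,257,258,16,513,0,4112,16] 1 (.lc 0 11 .stop))))))
 (.conf [128,145] (.conf [128,154] (.conf [128,150] (.conf [128,145] (.conf [128,155] (.conf [128,168] (.conf [128,145] (.far [4112,257,256,16,1,0,4112,16] 1 (.node [128,154,1] 7 9 (.far [1,4096,1,256] 17 (.lc 3 1 (.lc 3 11 (.lc 1 0 (.lc 3 11 (.lc 4 12 .stop))))))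
 (.conf [128,154] (.conf [128,155] (.conf [128,154] (.conf [128,156] (.far [4112,257,256,16,1,0,4112,16] 1 (.conf [128,160,1] (.node [128,154,161] 7 9 (.conf [122,161] (.lc 3 11 (.lc 1 1 (.lc 3 11 (.lc 4 12 .stop)))))
 (.far [257,0,1,0,257,16,4096] 0 (.node [128,154,161] 7 9 (.node [122,161] 1 6 (.far [4112,0,257,0,1,0,257,16,4096] 0 (.lc 0 11 (.lc 2 1 .stop)))
 (.lc 3 11 (.conf [123,186] (.lc 3 11 (.lc 4 12 .stop)))))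
 (.node [128,155,186,161] 7 9 (.conf [123,186] (.lc 3 12 (.lc 1 10 (.lc 3 12 (.lc 4 13 .stop)))))
 .stop)))))))))))))))))))))
 (.conf [122,128,82] .stop))))))
 (.conf [32,82] (.node [32,89,130,152,103] 5 9 (.node [] 8 2 (.node [128] 9 8 (.node [128,145] 1 8 (.far [4112,16,16,257,256,16,1,0,4112,16] 1 .stop)
 (.lc 2 5 (.node [128,154] 10 8 (.node [160] 9 10 (.lc 1 0 (.node [145,160] 9 1 .stop
 (.far [4112,0,4112,0,1,256] 0 (.node [155,160] 7 9 (.far [1,4112,0,4112,0,1,256] 0 (.conf [113,149,186] (.conf [124,149,186] (.node [186,203,149] 11 10 (.lc 1 0 (.node [160,177,203] 11 1 .stop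
 (.node [160,189,203] 12 11 (.node [205] 13 10 (.node [208] 7 12 (.node [113,205] 7 1 (.lc 0 1 .stop)
 (.far [4112,0,0,0,4112,0,0,0,0,256,0,256] 0 (.node [126,205] 12 13 (.node [208] 7 14 (.far [4112,0,4112,0,0,0,4112,0,0,0,0,256,0,256] 0 (.lc 0 1 (.lc 0 1 (.lc 0 1 (.lc 2 13 (.lc 0 1 .stop))))))
 (.lc 0 15 .stop))
 (.lc 2 7 (.lc 0 1 (.conf [205,236] (.lc 0 1 (.conf [205,236] (.lc 2 7 (.lc 0 1 (.lc 0 1 (.lc 0 1 .stop))))))))))))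
 (.far [8224,16,272,16,256,0,0,0,256,0,16,1,0,4112,16] 257 (.far [16,0,16,0,16,257,4096] 4097 (.far [1,0,1,0,1,4112,256] 0 (.far [1,0,1,0,1,4112,256] 0 (.far [4112,0,16,0,16,1,4096,4096] 256 .stop))))))
 (.lc 3 1 (.lc 3 14 (.lc 1 10 (.lc 3 14 (.lc 4 15 .stop))))))
 (.lc 2 0 (.lc 2 0 (.conf [185,205] (.lc 2 0 (.conf [190,237] (.lc 2 0 (.lc 2 0 (.lc 2 0 (.node [185,193,160] 1 10 (.far [1,1,0,1,4112,256] 0 .stop)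
 (.node [185,205,160] 7 12 (.node [125] 13 10 (.far [1,0,1,0,1,4112,256] 0 (.lc 3 1 (.far [16,16,256,4112,0,256,0,256,256,0,16,1,0,4112,16] 1 (.lc 3 1 (.lc 3 14 (.lc 4 14 .stop))))))
 (.lc 3 5 (.lc 1 10 (.lc 0 1 .stop))))
 (.lc 3 0 (.lc 3 0 (.conf [185,218,160] (.lc 3 0 (.lc 3 0 (.lc 3 0 (.lc 3 0 (.lc 4 0 .stop)))))))))))))))))))))
 (.far [1,4112,0,4112,0,1,256] 0 (.conf [125,149,186] .stop))))))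
 (.lc 2 0 (.lc 2 0 (.lc 2 0 (.lc 2 0 (.lc 3 5 (.lc 2 0 (.far [4112,0,4112,0,1,256] 0 (.node [160,186,203,156] 7 9 (.far [1,4112,0,4112,0,1,256] 0 (.lc 3 1 (.lc 3 13 (.lc 1 11 (.lc 3 13 (.lc 4 14 .stop))))))
 (.lc 2 0 (.lc 2 0 (.lc 2 0 (.lc 2 0 (.lc 3 5 (.lc 0 5 (.lc 3 5 (.lc 3 5 (.lc 3 5 (.lc 3 5 (.lc 3 0 (.lc 3 0 (.lc 4 5 (.lc 4 5 (.lc 4 5 (.lc 4 5 (.lc 4 5 (.lc 4 5 (.lc 1 1 (.lc 4 5 (.lc 5 5 .stop)))))))))))))))))))))))))))))))))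
 (.lc 3 1 (.lc 3 7 (.lc 3 11 (.far [16,16,256,0,16,0,4096,0,0,16] 1 (.node [171,176] 9 10 (.node [145,171] 9 1 .stop
 (.far [4112,0,4112,0,1,256] 0 (.lc 1 8 (.node [156,171] 10 11 (.node [161,176] 10 1 .stop
 (.node [167,176] 10 7 .stop
 (.lc 2 8 (.node [173,176] 10 13 (.far [4112,4112,1,4112,256] 0 (.lc 2 11 (.lc 2 11 (.lc 2 11 (.far [4112,4112,1,4112,256] 0 (.lc 2 11 (.lc 3 11 .stop)))))))
 (.lc 3 8 (.lc 2 0 (.lc 2 0 (.lc 3 8 (.lc 2 0 (.lc 3 8 (.lc 2 0 (.conf [168,176,219] (.lc 3 8 (.conf [174,237] (.lc 2 0 (.lc 2 0 (.lc 2 0 (.lc 3 8 (.lc 2 0 (.lc 2 0 (.lc 2 0 (.lc 2 0 (.node [168,176,193] 1 11 .stop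
 (.node [168,176,199] 7 9 .stop
 (.node [168,176,205] 9 12 (.far [4112,0,4112,0,4112,0,1,256] 0 (.lc 2 9 (.conf [205,236] (.lc 2 9 (.lc 3 9 .stop)))))
 (.lc 1 1 (.lc 4 8 (.lc 3 0 (.conf [168,176,219] (.lc 3 0 (.lc 3 0 (.lc 3 0 (.lc 3 0 (.lc 3 0 (.lc 3 0 (.lc 3 0 (.lc 3 0 (.lc 3 0 (.lc 2 1 (.lc 4 0 .stop))))))))))))))))))))))))))))))))))))))))
 (.lc 2 11 (.lc 2 11 (.lc 2 11 (.lc 2 11 (.lc 3 5 (.lc 3 5 (.lc 2 8 (.lc 2 8 (.far [4112,0,4112,0,1,256] 0 (.node [171,202,220,157] 7 9 (.far [1,4112,0,4112,0,1,256] 0 (.lc 3 1 (.lc 3 11 (.lc 3 14 (.lc 1 12 (.lc 3 14 (.lc 4 15 .stop)))))))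
 (.lc 2 11 (.lc 2 11 (.lc 2 11 (.lc 2 11 (.lc 3 5 (.lc 0 5 (.lc 3 5 (.lc 3 5 (.lc 3 5 (.lc 3 5 (.lc 3 11 (.lc 3 11 (.lc 4 5 (.lc 4 5 (.lc 4 5 (.lc 4 5 (.lc 4 5 (.lc 4 5 (.lc 1 1 (.lc 4 5 (.lc 5 5 .stop)))))))))))))))))))))))))))))))))))
 (.lc 3 1 (.lc 3 11 (.lc 4 11 (.lc 4 12 .stop))))))))))
 (.far [16,16,257,256,16,1,0,4112,16] 1 (.lc 3 5 (.conf [154,160] (.node [128,150,103] 9 6 (.lc 0 5 .stop)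
 (.conf [128,168] (.conf [128,168] (.lc 3 5 (.conf [128,168] (.far [16,16,257,256,16,1,0,4112,16] 1 (.lc 3 5 (.node [128,154,121] 9 10 (.lc 2 1 (.node [122,160] 7 10 (.node [113,160] 7 1 (.lc 0 1 .stop)
 (.node [117,106] 6 10 (.far [257,4096,0,0,0,0,0,257,0,16,1] 0 (.lc 2 0 (.node [27,160,186,160] 11 10 .stop
 .stop)))
 (.node [123,160] 6 7 (.node [107] 1 6 (.far [16,257,0,0,0,0,0,0,257,0,16,1] 0 (.node [186,203,97] 11 10 (.far [257,4112,1,4096,0,0,0,0,0,257,0,16,1] 0 (.node [205,218,160] 13 10 .stop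
 .stop))
 (.far [16,257,0,0,0,0,0,0,257,0,16,1] 0 (.node [28,203,186] 1 12 .stop
 (.node [186,203,220,97] 11 10 (.far [257,4112,1,4096,0,0,0,0,0,257,0,16,1] 0 (.lc 0 14 .stop))
 .stop)))))
 (.lc 3 1 (.lc 3 1 (.far [16,257,4096,0,0,4096,0,4096] 0 (.lc 3 1 (.lc 4 1 .stop))))))
 (.lc 0 1 (.lc 2 0 (.lc 2 0 (.lc 0 1 (.lc 3 5 (.lc 0 1 (.node [160,186,203,124] 6 7 (.far [1,4112,256,0,0,256,0,256] 0 (.lc 3 1 (.lc 3 1 (.lc 1 11 (.lc 3 1 (.lc 4 1 .stop))))))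
 (.lc 0 1 (.lc 2 0 (.lc 2 0 (.lc 2 0 (.lc 0 1 (.lc 3 5 (.lc 0 1 (.lc 0 1 (.lc 3 0 (.lc 0 1 (.lc 0 1 (.lc 0 1 (.lc 0 1 (.lc 4 5 (.lc 0 1 .stop)))))))))))))))))))))))))
 (.lc 2 11 (.lc 2 0 (.lc 3 11 (.lc 2 0 (.lc 3 12 (.lc 3 5 (.far [4112,4112,4112,1,256] 0 (.lc 3 12 (.lc 3 6 (.lc 3 1 (.lc 2 0 (.lc 3 12 (.lc 3 5 (.lc 0 5 (.lc 3 5 (.lc 3 5 (.lc 3 5 (.lc 3 0 (.lc 4 13 (.lc 4 5 (.lc 4 5 (.lc 4 5 (.lc 4 5 (.lc 4 5 (.lc 1 1 (.lc 4 5 (.lc 5 5 .stop)))))))))))))))))))))))))))))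
 (.conf [128,145] (.conf [128,154] (.node [128,154,161] 1 8 (.node [] 9 10 (.far [4112,1,1,4112,1,258] 0 (.lc 0 11 (.lc 0 11 (.lc 2 1 (.lc 0 12 .stop)))))
 .stop)
 (.node [128,155,186] 9 11 (.node [186] 10 8 (.far [1,4112,1,4112,1,258] 0 (.lc 3 1 (.lc 3 12 (.node [] 1 6 (.node [103] 6 7 (.far [257,256,4096,0,0,4112,257,257,256] 0 (.lc 2 5 (.lc 2 5 .stop)))
 (.lc 2 1 (.lc 0 12 .stop)))
 (.node [192] 7 11 (.node [113,186] 1 11 .stop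
 (.lc 2 5 (.node [186,192,203] 12 11 (.lc 0 8 .stop)
 (.node [125,186] 11 10 (.far [4112,1,0,4096,4112,0,1,256] 0 (.lc 2 12 (.lc 2 12 (.lc 2 8 (.lc 0 14 (.lc 2 12 (.lc 3 12 .stop)))))))
 (.lc 1 8 (.lc 2 7 (.lc 0 1 (.lc 3 5 (.lc 0 1 (.conf [186,219] (.lc 1 12 (.lc 3 5 (.lc 1 12 (.lc 3 5 (.lc 0 1 (.lc 0 1 (.lc 2 12 (.lc 0 1 (.lc 0 1 (.lc 0 1 (.lc 0 1 (.lc 4 5 (.lc 0 1 .stop)))))))))))))))))))))))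
 (.lc 3 1 (.lc 3 12 (.lc 4 12 (.lc 4 13 .stop)))))))))
 (.lc 0 0 (.lc 0 1 (.lc 0 12 (.lc 0 12 (.lc 2 10 (.lc 0 1 (.lc 0 13 .stop))))))))
 (.lc 4 5 (.conf [154,161] (.lc 4 5 (.conf [155,186] (.conf [128,168] (.conf [128,154] (.conf [128,155] (.conf [128,154] (.conf [128,155] (.conf [128,150] (.conf [128,154] (.conf [128,155] (.conf [128,155] (.conf [128,156] .stop))))))))))))))))))))))))))))))))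
 (.lc 3 7 (.lc 3 10 (.node [138,160,138,152,121] 9 8 (.lc 1 10 (.lc 1 10 (.lc 1 10 (.lc 3 5 (.conf [155,186] (.lc 2 10 (.lc 2 10 (.lc 2 10 (.lc 2 10 (.lc 2 10 (.lc 1 0 (.lc 3 5 (.lc 1 0 (.lc 3 1 (.lc 3 11 (.lc 2 10 (.lc 2 10 (.lc 4 5 (.lc 2 0 (.lc 3 10 (.lc 4 12 (.lc 4 11 (.lc 4 12 (.lc 4 6 (.lc 4 1 (.lc 4 12 (.lc 5 13 .stop)))))))))))))))))))))))))))
 (.lc 3 10 (.lc 4 11 .stop))))))
 (.lc 2 8 (.lc 2 8 (.lc 2 8 (.node [112] 2 0 .stop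
 (.node [122,169] 8 2 (.node [128] 6 7 (.node [96,122,169] 0 7 .stop
 (.lc 2 1 (.node [107,122,169] 7 10 (.far [4112,1,1,4112,4112,258,4128,0,514,1] 4096 (.lc 2 9 (.lc 2 9 (.lc 2 9 (.lc 0 12 (.lc 2 9 (.lc 3 9 (.lc 3 9 .stop))))))))
 (.lc 3 1 (.conf [117,169] (.lc 3 1 (.lc 3 1 (.lc 3 1 (.lc 3 1 (.conf [122,183] (.node [117,169,152,96,128] 6 0 (.far [257,257,0,0,0,257,0,16,1] 0 .stop)
 (.lc 3 1 (.node [117,169,152,107,128] 10 9 (.node [152] 6 11 (.far [257,0,257,0,0,0,257,0,16,1] 0 (.lc 2 9 (.lc 2 9 (.node [185] 9 8 (.lc 2 5 (.node [128,156] 11 9 (.far [1,4112,0,4096,1,0,0,16,257,4112,0,257] 0 (.lc 1 8 .stop))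
 (.lc 2 0 (.lc 3 5 (.conf [128,200] (.lc 2 0 .stop))))))
 (.node [28,185,203] 1 12 (.node [203] 12 11 (.lc 1 6 (.node [185,205] 11 9 (.far [257,16,4112,16,4096,4096,1,4112,4112,1,4112,0,257] 256 (.lc 2 5 (.lc 0 14 .stop)))
 (.lc 2 6 (.lc 3 0 (.conf [185,219] (.lc 1 5 (.lc 2 6 (.lc 3 0 (.lc 1 0 (.lc 1 0 (.lc 1 0 .stop)))))))))))
 (.lc 2 11 (.lc 2 11 (.conf [203,220] (.lc 2 11 (.lc 3 11 .stop))))))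
 (.lc 2 9 (.lc 2 9 (.lc 3 9 (.lc 3 9 .stop)))))))))
 (.lc 2 8 (.lc 2 8 (.lc 2 8 (.lc 0 12 (.lc 2 8 (.lc 3 8 (.lc 3 8 .stop))))))))
 (.lc 3 1 (.lc 3 1 (.lc 3 1 (.lc 4 1 (.lc 4 1 (.conf [117,203,108] (.lc 4 1 (.lc 4 1 (.lc 4 1 (.lc 4 1 (.lc 4 1 (.lc 4 1 (.lc 4 1 (.lc 4 1 (.lc 5 1 (.lc 5 1 .stop)))))))))))))))))))))))))))))
 (.lc 3 10 (.lc 3 11 (.node [139,176,139,152,169,122] 6 7 (.lc 2 1 (.lc 0 0 (.node [108,122] 7 10 (.node [169] 1 6 (.far [16,0,257,0,0,0,257,0,16,1] 0 (.conf [12,202] (.lc 0 8 (.lc 0 0 (.node [202,220] 12 10 (.far [257,4112,4096,1,0,0,0,257,0,16,1] 0 (.lc 2 7 (.conf [169,234] (.lc 1 8 (.lc 2 8 .stop)))))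
 (.far [16,0,257,0,0,0,257,0,16,1] 0 (.node [29,202,220,202] 1 13 (.node [13] 13 12 (.lc 0 8 (.lc 1 6 (.lc 0 0 (.node [202,222] 12 10 (.far [257,16,0,4096,4096,4096] 0 (.lc 2 7 (.lc 0 15 (.lc 1 8 (.lc 2 8 .stop)))))
 (.lc 2 6 (.lc 3 0 (.lc 0 8 (.conf [202,236] (.lc 1 7 (.lc 1 8 .stop))))))))))
 (.lc 0 1 (.lc 0 1 (.lc 2 12 (.lc 2 12 (.lc 0 1 .stop))))))
 (.lc 0 1 (.node [202,220,237] 12 10 (.far [257,4112,4096,1,0,0,0,257,0,16,1] 0 (.lc 2 7 (.lc 0 15 (.lc 1 8 (.lc 2 8 .stop)))))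
 .stop)))))))))
 (.lc 2 9 (.lc 2 9 (.lc 2 9 (.lc 0 13 (.lc 2 9 (.lc 3 9 .stop)))))))
 (.lc 3 1 (.lc 2 5 (.lc 3 1 (.lc 3 1 (.conf [122,199] (.lc 3 1 (.lc 2 5 (.lc 2 5 (.lc 3 1 (.lc 3 1 (.lc 3 1 (.lc 3 1 (.lc 4 1 (.lc 3 5 (.lc 1 1 (.lc 4 1 (.lc 4 1 (.lc 4 1 (.lc 4 1 (.lc 4 1 (.lc 4 1 (.lc 1 1 (.lc 5 1 .stop))))))))))))))))))))))))))
 (.lc 3 11 (.lc 4 12 .stop))))))
 (.lc 2 8 (.lc 2 8 (.lc 3 8 (.lc 3 8 (.lc 3 8 (.lc 3 8 .stop))))))))))))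
 (.lc 3 2 (.lc 3 2 (.lc 3 2 (.lc 3 2 (.conf [32,82] (.node [89,152,103,89,128] 5 9 (.node [152] 9 8 (.node [128,145] 9 1 .stop
 (.node [128,154] 7 9 (.far [1,4112,4096,16,1,4112,0,257] 0 (.lc 3 1 (.lc 3 11 (.lc 1 8 (.lc 3 11 (.lc 4 12 .stop))))))
 (.conf [128,154] (.conf [128,155] (.conf [128,149] (.conf [128,168] (.conf [128,150] (.conf [128,145] (.conf [128,155] (.node [128,149,113] 1 8 (.far [1,4096,1,256] 17 .stop)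
 (.lc 0 5 (.node [128,149,122] 10 8 (.far [1,4096,1,256] 17 (.lc 3 1 (.node [161] 1 6 (.far [257,4096,0,0,16,0,4112,1,256] 0 (.lc 0 11 (.lc 2 1 .stop)))
 (.lc 3 1 (.lc 3 11 (.lc 4 11 .stop))))))
 (.lc 0 1 (.lc 0 10 (.conf [128,156] (.lc 0 11 (.lc 0 10 (.lc 0 11 (.lc 0 1 (.lc 0 11 (.lc 1 1 (.conf [149,186,123] (.lc 0 12 .stop)))))))))))))))))))))))
 (.lc 0 1 (.lc 0 10 (.lc 0 10 (.lc 2 8 (.lc 0 11 .stop))))))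
 (.conf [32,82] (.node [32,90,130,152,169,103,90,152,130] 5 10 (.node [169] 8 2 (.node [128] 10 9 (.node [152,160] 10 0 (.lc 0 1 .stop)
 (.node [152,161] 10 1 .stop
 (.node [152,171] 7 10 (.far [1,4112,0,4096,16,1,4112,0,257] 0 (.lc 3 0 (.lc 3 1 (.lc 3 12 (.lc 1 9 (.lc 3 12 (.lc 4 1 (.lc 4 13 .stop))))))))
 (.lc 2 8 (.lc 2 8 (.lc 2 8 (.lc 2 8 (.lc 3 5 (.far [16,1,4112,4112,1,4112,0,257] 256 (.conf [152,185] (.lc 2 8 (.lc 2 8 (.lc 2 8 (.lc 2 8 (.lc 2 8 (.lc 2 8 (.lc 2 8 (.lc 0 5 (.lc 2 8 (.lc 0 0 (.lc 0 1 (.lc 0 11 (.lc 3 8 (.lc 3 8 (.lc 3 8 (.lc 0 1 (.lc 0 12 (.lc 0 1 (.lc 0 11 (.lc 0 11 (.lc 0 12 (.lc 0 1 (.lc 0 0 (.lc 0 1 (.lc 0 12 (.lc 3 8 (.lc 1 1 (.lc 3 8 (.lc 0 11 (.lc 0 1 (.lc 0 13 .stop)))))))))))))))))))))))))))))))))))))))))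
 (.lc 3 7 (.lc 3 11 (.conf [139,176] (.lc 3 11 (.lc 4 12 .stop))))))
 (.lc 0 0 (.lc 0 1 (.lc 0 11 (.lc 0 0 (.lc 0 11 (.lc 2 9 (.lc 2 9 (.lc 0 1 (.lc 0 11 (.lc 0 0 (.lc 0 12 .stop))))))))))))
 (.lc 4 2 (.lc 4 2 (.lc 4 2 (.lc 4 2 (.lc 4 2 (.lc 4 2 (.lc 4 2 (.lc 4 2 (.lc 5 2 (.lc 5 2 .stop)))))))))))))))))))))))))))))))))))

theorem t37 : kNode2 awTt FTt 5 2 (check tyTt awTt triet FTt [] c37) (fun _ _ _ => true) 0 s37 Pl.nil s37 =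
    true := by
  decide +kernel

end Chk
end Pool.Agent.Lib.MP_ba95e8_co
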