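import Pool.Agent.Lib.MP_ba95e8_co.ChkTab
import Pool.Agent.Lib.MP_ba95e8_co.ChkStates

/-!
Deltahedral domes: part 38 of the case analysis.
-/

namespace Pool.Agent.Lib.MP_ba95e8_co
namespace Chk

/-- certificate number 38 -/
def c38 : Cert := (.node [50,64] 0 3 (.node [50,64] 4 0 (.lc 0 0 (.node [83] 5 3 (.node [32,82] 5 2 (.node [86] 4 5 (.node [70] 1 4 (.far [1,4096,4112,4096,0,0,0,257] 4096 (.node [98,118,64] 6 2 .stop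
 (.node [98,118,64] 6 2 .stop
 (.far [1,4096,4112,4096,0,0,0,257] 4096 (.node [98,118,135,64] 6 2 .stop
 .stop)))))
 (.lc 3 0 (.conf [64,80,98] (.far [16,257,257,4096,4096] 0 (.lc 3 0 (.lc 4 0 .stop))))))
 (.node [87,118,87,98] 4 5 (.far [1,4112,4112,256,256] 0 (.lc 3 0 (.lc 3 0 (.lc 1 6 (.lc 3 0 (.lc 4 0 .stop))))))
 .stop))
 (.lc 3 6 (.conf [32,98] (.lc 3 6 (.lc 4 7 .stop)))))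
 (.lc 3 6 (.far [16,257,4096] 0 (.lc 3 6 (.lc 4 7 .stop))))))
 (.conf [50,83] .stop))
 (.node [50,69] 3 2 (.node [48,69] 5 3 (.far [1,4096,1,1] 4096 (.lc 3 6 (.node [86,96] 4 5 (.lc 2 1 (.lc 1 3 (.node [86] 5 6 (.node [81,96] 5 1 (.far [4112,4112,1,4112,0,256] 0 (.far [4112,4112,1,4112,0,256] 0 .stop))
 (.lc 2 3 (.node [88,96] 5 8 (.far [4112,4112,1,4112,0,256] 0 (.lc 2 6 (.lc 2 6 (.far [4112,4112,1,4112,0,256] 0 (.far [4112,4112,1,4112,0,256] 0 (.lc 2 6 (.lc 2 6 (.lc 3 6 (.lc 3 6 (.lc 3 6 .stop))))))))))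
 (.lc 3 3 (.lc 2 0 (.lc 2 0 (.lc 3 3 (.lc 2 0 (.node [83,96,113] 1 4 (.lc 1 1 .stop)
 (.conf [83,96,134] (.lc 3 3 (.conf [88,129] (.node [81,96,134,96] 5 1 .stop
 (.lc 3 3 (.conf [89,152] (.lc 3 3 (.lc 2 0 (.lc 2 0 (.lc 3 3 (.lc 2 0 (.lc 2 0 (.lc 2 0 (.node [83,96,113] 1 4 (.node [71] 1 6 .stop
 (.node [71,132,152] 1 6 .stop
 .stop))
 (.node [83,96,120] 4 7 (.lc 2 1 (.node [73,120] 7 8 (.far [4112,1,4112,257,4112,0,256] 0 (.lc 0 1 (.lc 0 10 (.lc 0 1 (.lc 0 10 (.node [134] 1 4 (.lc 0 1 .stop)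
 (.node [134,168] 1 4 (.far [1,0,4112,0,4112,0,0,4112,256] 0 (.lc 1 10 (.lc 1 10 (.lc 1 4 (.far [1,0,4112,0,4112,0,0,4112,256] 0 (.lc 2 10 .stop))))))
 (.lc 0 10 (.lc 0 1 (.lc 0 11 .stop))))))))))
 (.lc 3 1 (.lc 2 4 (.lc 3 1 (.lc 3 1 (.conf [120,151] (.lc 3 1 (.lc 2 4 (.lc 3 1 (.lc 3 1 (.lc 4 1 (.lc 3 4 (.lc 4 1 (.lc 4 1 (.lc 4 1 (.lc 4 1 (.lc 5 1 .stop))))))))))))))))))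
 (.lc 4 3 (.lc 3 0 (.lc 4 3 (.lc 3 0 (.lc 3 0 (.lc 4 3 (.lc 3 0 (.node [83,96,120,129] 1 4 (.far [514,8224,0,8192,8208,0,257] 4096 (.lc 0 9 .stop))
 (.conf [83,96,134] (.conf [83,96,134] (.lc 3 0 (.lc 3 0 (.lc 3 0 (.lc 3 0 (.lc 3 0 (.lc 3 0 (.lc 3 0 (.lc 3 0 (.lc 3 0 (.lc 4 0 (.lc 4 0 (.lc 4 0 (.lc 4 0 .stop)))))))))))))))))))))))))))))))))))))))))))))))
 (.lc 3 1 (.lc 2 6 (.lc 3 7 (.lc 3 8 (.lc 3 1 (.lc 2 3 (.lc 3 1 (.node [86,117,135] 5 6 (.node [81,96] 5 1 (.node [113] 1 4 .stop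
 (.lc 0 9 .stop))
 (.lc 2 3 (.node [89,96] 7 5 (.node [121] 4 8 (.far [4112,1,4112,4096,4096,4112,0,257] 4096 (.node [73,135] 4 9 .stop
 (.node [74,135] 4 10 (.far [4112,4112,1,4112,4096,4096,4112,0,257] 4096 (.lc 2 8 (.lc 2 8 (.far [8224,8224,2,8224,8192,8192,8208,0,257] 4096 (.lc 2 8 (.lc 3 8 .stop))))))
 (.lc 2 7 (.lc 2 7 (.lc 2 7 (.lc 2 7 (.lc 3 1 (.conf [65,135,168] (.conf [75,186] (.lc 2 7 (.lc 2 7 (.lc 2 7 (.lc 2 7 (.lc 3 1 (.lc 3 1 (.lc 3 1 (.lc 3 1 (.lc 3 7 (.lc 3 7 (.lc 4 1 (.lc 4 1 (.lc 4 1 (.lc 4 1 (.lc 4 1 (.lc 4 1 (.lc 4 1 (.lc 5 1 .stop))))))))))))))))))))))))))))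
 (.lc 3 1 (.lc 3 10 (.lc 1 6 (.lc 1 6 (.lc 3 1 (.lc 3 10 (.lc 4 10 (.lc 4 1 (.lc 4 11 .stop))))))))))
 (.lc 3 3 (.lc 2 0 (.lc 2 0 (.lc 3 3 (.lc 2 0 (.node [83,96,113,135] 1 4 .stop
 (.conf [83,96,150] (.lc 3 3 (.conf [89,145] (.node [81,96,150,96] 5 1 .stop
 (.lc 3 3 (.conf [90,169] (.lc 3 3 (.lc 2 0 (.lc 2 0 (.lc 3 3 (.lc 2 0 (.lc 2 0 (.lc 2 0 (.lc 0 1 (.lc 0 9 (.lc 4 3 (.lc 3 0 (.lc 4 3 (.lc 3 0 (.lc 3 0 (.lc 4 3 (.lc 3 0 (.lc 0 9 (.lc 0 1 (.lc 0 10 (.lc 3 0 (.lc 3 0 (.lc 3 0 (.lc 3 0 (.lc 3 0 (.lc 3 0 (.lc 3 0 (.lc 3 0 (.lc 3 0 (.lc 4 0 (.lc 4 0 (.lc 4 0 (.lc 4 0 .stop)))))))))))))))))))))))))))))))))))))))))))))))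
 (.lc 3 1 (.lc 2 6 (.lc 3 8 (.lc 3 7 (.lc 3 8 (.lc 4 1 (.lc 3 6 (.lc 4 8 (.lc 4 9 (.lc 4 9 (.lc 4 9 (.lc 4 9 (.lc 5 10 .stop))))))))))))))))))))))))
 (.lc 3 6 (.lc 4 7 .stop)))))
 (.node [32,54,69] 5 3 (.asm [86] 0 (.lc 3 0 (.lc 3 7 (.lc 1 2 (.lc 1 2 (.lc 3 0 (.lc 3 7 (.lc 4 7 (.lc 4 0 (.lc 4 8 .stop))))))))))
 (.conf [54,96] (.conf [55,118] (.far [4096,1,1] 4096 (.conf [32,98] (.conf [54,96] (.conf [32,98] (.node [54,69] 3 6 (.node [86] 4 5 (.lc 2 1 (.lc 1 3 (.node [86] 1 4 (.lc 2 0 (.node [71,96,100] 6 4 .stop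
 (.far [1,4112,0,0,4112,256] 0 (.node [71] 4 7 (.far [4112,1,4112,0,0,4112,256] 0 (.conf [117,134,65] (.conf [117,137,65] (.far [4112,1,4112,0,0,4112,256] 0 (.node [117,151,65] 7 5 (.node [86,113,151] 7 1 .stop
 (.lc 1 3 (.node [86,122,151] 9 7 (.far [16,257,257,16,258,257,257,513,4096] 0 (.lc 3 1 (.lc 3 6 (.lc 3 11 (.lc 1 5 (.lc 3 11 (.lc 4 12 .stop)))))))
 (.lc 2 3 (.lc 2 3 (.conf [116,154] (.lc 2 3 (.conf [123,186] (.lc 2 3 (.lc 2 3 (.lc 2 3 (.node [116,145,137,86] 1 5 .stop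
 (.lc 2 3 (.node [116,154,137,86] 8 9 (.node [138] 10 5 (.far [1,0,1,0,0,1,256,0,256] 0 (.lc 3 1 (.lc 3 11 (.node [96,182] 11 6 (.node [176] 10 11 (.node [161,176] 10 1 (.lc 0 1 .stop)
 (.lc 2 5 (.node [172,176] 8 10 (.node [140] 12 11 (.lc 3 1 .stop)
 (.lc 3 1 (.lc 3 1 (.lc 1 11 (.lc 3 1 (.lc 4 1 .stop))))))
 (.lc 2 0 (.lc 0 1 (.lc 3 5 (.lc 0 1 (.conf [176,203] (.lc 0 1 (.lc 0 1 (.lc 0 1 .stop)))))))))))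
 (.lc 3 1 (.far [16,16,16,256,256,16,0,1,258,0,4112] 1 (.lc 3 1 (.lc 3 12 (.lc 4 12 .stop))))))
 (.lc 3 11 (.lc 4 12 .stop))))))
 (.lc 3 6 (.lc 3 11 (.lc 3 1 (.lc 1 5 (.lc 3 11 (.lc 4 12 .stop)))))))
 (.lc 3 3 (.lc 3 3 (.conf [116,165,86] (.lc 3 3 (.lc 3 3 (.lc 3 3 (.lc 3 3 (.lc 4 3 .stop))))))))))))))))))))))
 (.conf [117,138,65] .stop))))))
 (.lc 2 1 (.lc 3 0 (.lc 3 0 (.node [65,96,117,103] 6 7 .stop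
 (.node [65,117,135] 7 5 (.lc 1 3 (.node [86,121] 8 7 (.far [1,4112,257,16,0,0,4112,256] 0 (.lc 1 5 (.lc 1 5 (.lc 1 5 (.far [1,4112,257,16,0,0,4112,256] 0 (.lc 2 5 .stop))))))
 (.lc 2 3 (.lc 2 3 (.lc 3 4 (.lc 2 3 (.conf [122,169] (.lc 2 3 (.lc 2 3 (.lc 2 3 (.lc 3 4 (.lc 3 3 (.lc 3 3 (.lc 4 4 (.lc 3 3 (.lc 3 3 (.lc 3 3 (.lc 4 3 .stop))))))))))))))))))
 (.lc 3 0 (.node [71,96,104,132,71,104] 6 8 (.far [257,257,0,16,4112,0,257] 4096 (.lc 2 4 (.conf [83,96] (.lc 0 3 (.lc 2 4 (.lc 3 4 .stop))))))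
 (.node [71,132,152,71] 8 4 (.node [135] 8 7 (.lc 1 4 (.node [96,103,134,152] 8 6 .stop
 (.node [117,138,152] 9 8 (.far [1,4112,4096,257,4112,0,0,4112,256] 0 (.lc 1 7 (.lc 1 7 (.lc 1 7 (.far [1,4112,4096,257,4112,0,0,4112,256] 0 (.lc 2 7 .stop))))))
 (.lc 2 5 (.lc 2 5 (.conf [132,167,117] (.lc 2 4 (.conf [139,186] (.lc 2 5 (.lc 2 5 (.lc 2 5 (.lc 2 5 (.lc 2 5 (.lc 2 4 (.conf [132,150] (.conf [132,154] (.lc 3 5 (.lc 3 4 (.conf [132,155] (.lc 3 5 (.lc 3 5 (.lc 3 5 (.lc 3 5 (.lc 3 5 (.lc 3 5 (.lc 4 5 .stop))))))))))))))))))))))))))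
 (.lc 1 5 (.lc 1 5 (.lc 1 5 (.lc 3 10 (.lc 2 5 .stop))))))
 (.lc 3 0 (.node [65,117,135] 7 5 (.lc 1 3 (.node [86,121] 8 7 (.far [16,257,16,258,257,257,513,4096] 0 (.lc 3 6 (.lc 3 10 (.lc 1 5 (.lc 3 10 (.lc 4 11 .stop))))))
 (.lc 2 3 (.lc 2 3 (.lc 3 4 (.lc 2 3 (.conf [122,169] (.lc 2 3 (.lc 2 3 (.lc 2 3 (.lc 3 4 (.lc 3 3 (.lc 3 3 (.lc 4 4 (.lc 3 3 (.lc 3 3 (.lc 3 3 (.lc 4 3 .stop))))))))))))))))))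
 (.node [71,132,152,71] 8 4 (.node [135] 9 8 (.node [96,135,150] 6 8 .stop
 (.node [135,154] 8 7 (.far [257,16,272,16,514,257,257,513,4096] 0 (.lc 2 5 (.lc 2 5 (.lc 0 11 (.lc 2 5 (.lc 3 5 .stop))))))
 (.conf [132,154] (.conf [104,135] (.conf [135,150] (.conf [135,155] (.conf [135,168] (.lc 1 5 (.lc 1 5 (.lc 1 4 (.node [96,132,150,103] 9 6 (.far [4112,4096,4112,256] 4097 .stop)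
 (.node [132,154,117] 9 10 (.node [26] 10 7 (.lc 2 1 (.lc 1 4 (.node [96,103] 6 7 (.lc 0 3 .stop)
 (.node [117,171] 7 5 (.far [4112,1,0,257,256,0,256] 0 (.conf [83,96,182] (.lc 2 3 (.far [4112,1,0,257,256,0,256] 0 (.far [257,16,257,16,0,4112,1,1,257,257,4096] 0 (.conf [83,116,188] .stop))))))
 (.lc 1 3 (.lc 2 4 (.lc 2 4 (.lc 3 0 (.lc 3 6 (.lc 3 12 (.lc 2 4 (.node [117,183,203,117] 7 5 (.node [181] 11 5 (.node [182,203] 11 6 (.far [257,272,256,16,257,16,0,4112,0,4097,257,1,4096] 0 (.lc 2 0 (.lc 0 13 .stop)))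
 (.conf [96,198] (.conf [189,214] (.far [1,1,0,0,0,0,0,1,256,0,256] 0 (.conf [96,205,214] .stop)))))
 (.lc 2 3 (.lc 2 3 (.lc 0 13 (.lc 2 3 (.lc 3 3 .stop))))))
 (.lc 2 4 (.lc 1 3 (.lc 2 4 (.lc 1 3 (.lc 2 4 (.lc 3 11 (.lc 3 12 (.lc 3 4 (.lc 3 4 (.lc 4 13 (.lc 2 3 (.lc 3 4 (.lc 3 4 (.lc 3 4 (.lc 4 4 .stop)))))))))))))))))))))))))))
 (.lc 2 7 (.lc 2 7 (.lc 2 7 (.conf [167,186] (.lc 2 7 (.lc 3 7 (.lc 3 7 .stop))))))))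
 (.conf [96,150] (.conf [135,154] (.conf [135,155] (.lc 2 5 (.conf [135,156] (.lc 2 4 (.conf [132,167,117] (.lc 2 5 (.lc 2 5 (.lc 2 5 (.lc 2 5 (.lc 2 5 (.lc 3 5 .stop)))))))))))))))))))))))))
 (.lc 1 5 (.lc 1 5 (.lc 1 5 (.lc 3 10 (.lc 2 5 .stop))))))
 (.lc 3 0 (.lc 2 1 (.lc 2 1 (.lc 3 0 (.lc 2 1 (.lc 2 1 (.lc 3 0 (.node [71,96,100,134,100] 6 4 .stop
 (.conf [65,117,135] (.node [71,152,132] 8 4 (.far [1,1,4112,0,0,4112,256] 0 (.conf [103,134] (.conf [117,138,65] (.node [117,167,65] 7 5 (.lc 1 3 (.node [121,149,152,167] 7 9 .stop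
 (.node [86,123,167] 10 7 (.node [171] 5 6 (.node [96] 10 11 (.lc 1 5 (.node [152,155,169] 10 9 (.lc 0 4 .stop)
 (.node [172,182] 8 10 (.node [140] 11 6 (.node [96] 12 6 (.far [1,1,0,0,1,0,0,0,0,0,1,256] 17 .stop)
 (.conf [96,181,192] (.far [4112,0,1,256,256,256] 0 .stop)))
 (.lc 3 13 (.lc 3 4 (.lc 1 11 (.lc 3 13 (.lc 4 14 .stop))))))
 (.lc 2 5 (.lc 0 4 (.lc 3 7 (.conf [173,220] (.lc 2 5 (.lc 3 7 (.lc 0 6 (.lc 0 12 (.lc 0 13 (.lc 0 12 (.lc 0 0 .stop))))))))))))))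
 (.conf [96,134,184] (.conf [96,150,185] (.conf [96,188,198] (.far [4112,0,1,0,0,1,256,0,256] 0 (.far [257,0,16,0,0,16,4096,0,4096] 0 (.lc 1 10 (.conf [96,189,83] .stop))))))))
 (.lc 3 6 (.lc 3 9 (.lc 3 12 (.lc 1 5 (.lc 3 12 (.lc 4 13 .stop)))))))
 (.lc 2 3 (.lc 2 3 (.conf [116,171] (.lc 2 3 (.conf [124,203] (.lc 2 3 (.lc 2 3 (.lc 2 3 (.lc 2 3 (.conf [149,169] (.node [116,171,138,152,86] 8 10 (.node [139] 11 5 (.far [1,0,1,0,0,1,256,0,256] 0 (.lc 3 9 (.lc 3 12 (.node [96,198] 12 6 (.far [1,1,1,4096,257,1,0,256,16,16,256] 0 (.lc 3 1 (.lc 3 13 (.lc 4 9 .stop))))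
 (.lc 3 12 (.lc 4 13 .stop))))))
 (.lc 3 6 (.lc 3 12 (.lc 3 4 (.lc 1 5 (.lc 3 12 (.lc 4 13 .stop)))))))
 (.lc 3 3 (.lc 3 3 (.conf [116,181,86] (.lc 3 3 (.lc 3 3 (.lc 3 3 (.lc 3 3 (.lc 4 3 .stop))))))))))))))))))))))
 (.far [1,1,4112,0,0,4112,256] 0 (.conf [117,139,65] .stop))))))
 (.lc 4 0 (.lc 3 1 (.lc 4 0 (.node [65,117,135,152] 7 5 (.lc 1 3 (.node [86,122] 8 7 (.node [138] 5 6 (.node [96] 8 10 (.lc 1 5 (.node [139,166] 9 8 (.far [16,257,0,256,257,4096,4096] 0 (.lc 3 12 (.lc 1 10 (.lc 3 12 (.lc 4 13 .stop)))))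
 (.lc 2 5 (.lc 3 7 (.conf [140,203] (.lc 2 5 (.lc 3 7 (.lc 3 7 (.lc 3 7 (.lc 4 7 (.lc 4 7 (.lc 4 7 .stop))))))))))))
 (.conf [96,150,169] (.conf [96,171,182] (.far [4112,0,1,0,1,256,0,256] 0 (.far [257,0,16,0,16,4096,0,4096] 0 (.conf [96,172,83] .stop))))))
 (.lc 3 6 (.lc 3 11 (.lc 1 5 (.lc 3 11 (.lc 4 12 .stop))))))
 (.lc 2 3 (.lc 2 3 (.lc 3 4 (.lc 2 3 (.conf [123,186] (.lc 2 3 (.lc 2 3 (.lc 2 3 (.lc 3 4 (.lc 3 3 (.lc 3 3 (.lc 4 4 (.lc 3 3 (.lc 3 3 (.lc 3 3 (.lc 4 3 .stop))))))))))))))))))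
 (.lc 4 0 (.node [71,132,152,169,71] 8 4 (.node [135] 9 8 (.node [96,135,150,169] 6 8 .stop
 (.node [135,155,169] 8 7 (.node [117] 10 9 (.node [96,155,166] 6 9 .stop
 (.node [155,172] 9 11 (.far [257,16,257,256,257,4096] 0 (.lc 2 7 (.lc 2 7 (.lc 0 13 (.lc 2 7 (.lc 3 7 .stop))))))
 (.lc 2 8 (.lc 3 0 (.lc 3 6 (.lc 3 13 (.conf [155,201] (.lc 2 8 (.lc 2 8 (.lc 2 8 (.lc 2 8 (.lc 2 8 (.lc 3 6 (.lc 3 12 (.lc 3 13 (.lc 3 8 (.lc 4 14 (.lc 3 8 (.lc 3 8 (.lc 3 8 (.lc 3 8 (.lc 3 8 (.lc 3 8 (.lc 3 8 (.lc 4 8 .stop)))))))))))))))))))))))))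
 (.lc 2 5 (.lc 2 5 (.lc 0 12 (.lc 2 5 (.lc 3 5 .stop))))))
 (.conf [132,155] (.conf [104,135] (.conf [135,150] (.conf [135,156] (.conf [135,184] (.lc 1 5 (.lc 1 5 (.lc 1 4 (.node [96,132,150,169,103] 9 6 .stop
 (.node [132,155,169,117] 10 9 (.conf [171,183] (.lc 3 6 (.lc 3 12 (.lc 1 7 (.lc 3 12 (.lc 4 13 .stop))))))
 (.conf [96,150] (.conf [135,155] (.conf [135,156] (.lc 2 5 (.conf [135,157] (.lc 2 4 (.conf [132,183,117] (.lc 2 5 (.lc 2 5 (.lc 2 5 (.lc 2 5 (.lc 2 5 (.lc 3 5 .stop)))))))))))))))))))))))))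
 (.lc 1 5 (.lc 1 5 (.lc 1 5 (.lc 3 11 (.lc 2 5 .stop))))))
 (.lc 4 0 (.lc 3 1 (.lc 4 0 (.lc 3 1 (.lc 3 1 (.lc 4 0 (.lc 4 0 (.lc 3 1 (.lc 3 1 (.lc 5 0 (.lc 4 1 .stop))))))))))))))))))))))))))))))))))))))))))
 (.lc 0 0 (.lc 3 1 (.lc 2 6 (.lc 3 7 (.lc 3 8 (.lc 3 1 (.lc 2 3 (.lc 3 1 (.node [86,117,135] 7 5 (.node [86,113] 1 5 (.far [16,16,16,4096,0,4096] 0 (.far [16,16,16,4096,0,4096] 0 (.lc 1 0 .stop)))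
 (.lc 1 3 (.node [86,121] 9 5 (.far [16,16,16,4096,0,4096] 0 (.lc 3 1 (.lc 3 10 (.far [16,16,16,4096,0,4096] 0 (.far [16,16,16,4096,0,4096] 0 (.lc 3 1 (.lc 3 10 (.lc 4 10 (.lc 4 1 (.lc 4 11 .stop))))))))))
 (.node [83,96,113,135] 1 4 (.far [257,0,0,0,0,0,257] 16 (.lc 2 1 .stop))
 (.conf [83,96,150] (.lc 3 9 (.lc 2 3 (.lc 2 3 (.lc 3 1 (.lc 3 10 (.node [86,121,145,121,135] 1 5 .stop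
 (.lc 2 3 (.lc 2 3 (.conf [86,149] (.conf [86,149] (.node [83,96,113,135] 1 6 (.far [4096,0,0,257,256,16,16] 1 .stop)
 (.node [83,96,121,135] 9 6 (.node [144] 7 9 (.node [113] 7 1 (.far [257,257,0,257,16,4096,0,4096] 0 (.lc 0 10 .stop))
 (.node [122] 8 7 (.far [16,257,0,257,16,4096,0,4096] 0 (.lc 3 1 (.lc 3 11 (.lc 1 9 (.lc 1 9 (.lc 3 1 (.lc 3 11 (.lc 4 11 (.lc 4 1 (.lc 4 12 .stop))))))))))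
 (.lc 2 0 (.lc 2 0 (.lc 2 0 (.lc 3 5 (.lc 3 5 (.conf [122,161] (.node [113,169] 7 1 .stop
 (.conf [123,186] (.lc 2 0 (.lc 2 0 (.lc 2 0 (.lc 3 5 (.lc 3 5 (.lc 3 5 (.lc 3 5 (.lc 3 0 (.lc 3 0 (.lc 3 0 (.lc 3 0 (.lc 4 5 (.lc 4 5 (.lc 4 5 (.lc 4 5 (.lc 4 5 (.lc 4 5 (.lc 4 5 (.lc 4 5 (.lc 4 5 (.lc 4 5 (.lc 4 5 (.lc 4 5 (.lc 5 5 (.lc 5 5 (.lc 5 5 (.lc 5 5 .stop)))))))))))))))))))))))))))))))))))))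
 (.node [145] 7 9 (.node [122,145] 8 7 (.far [16,257,0,257,16,4096,0,4096] 0 (.lc 3 1 (.lc 3 11 (.lc 1 9 (.lc 3 11 (.lc 4 12 .stop))))))
 (.lc 2 1 (.lc 3 5 (.conf [145,169] (.lc 2 1 (.lc 3 5 (.lc 3 5 (.lc 3 1 (.lc 4 5 (.lc 4 5 (.lc 4 5 (.lc 4 5 (.lc 5 5 .stop)))))))))))))
 (.far [16,16,16,4112,4096,4096] 256 (.far [4096,0,0,257,256,16,16] 1 (.node [154,160] 7 9 (.node [113,154] 7 1 (.far [257,257,0,257,16,4096,0,4096] 0 (.lc 0 11 .stop))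
 (.node [123,154] 9 10 (.far [4112,1,1,258,0,1,256] 17 (.lc 2 0 (.lc 2 0 (.lc 2 0 (.lc 0 1 (.lc 0 12 (.lc 2 0 (.lc 2 0 (.lc 3 0 (.lc 3 0 (.lc 3 0 .stop)))))))))))
 (.lc 2 6 (.lc 2 6 (.lc 3 5 (.lc 3 5 (.conf [123,177] (.conf [154,185] (.conf [154,185] (.lc 2 6 (.lc 2 6 (.lc 3 5 (.lc 3 5 (.lc 3 5 (.lc 3 6 (.lc 3 6 (.lc 3 6 (.lc 4 5 (.lc 4 5 (.lc 4 5 (.lc 4 5 (.lc 4 5 (.lc 4 5 (.lc 4 5 (.lc 4 5 (.lc 4 5 (.lc 5 5 (.lc 5 5 (.lc 5 5 .stop)))))))))))))))))))))))))))))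
 (.node [154,161] 7 9 (.node [123,154] 9 10 (.far [4112,1,8208,256,0,1,256] 4114 (.lc 2 1 (.lc 2 1 (.lc 0 12 (.lc 2 1 (.lc 3 1 .stop))))))
 (.lc 2 6 (.lc 3 5 (.conf [154,185] (.lc 2 6 (.lc 3 5 (.lc 3 5 (.lc 3 6 (.lc 4 5 (.lc 4 5 (.lc 4 5 (.lc 4 5 (.lc 5 5 .stop)))))))))))))
 .stop))))))
 (.lc 1 0 (.lc 3 1 (.lc 3 9 (.lc 3 1 (.lc 3 9 (.lc 2 3 (.lc 2 3 (.lc 3 1 (.lc 3 10 (.conf [83,121,145] (.node [83,96,113,150,135] 1 4 (.far [257,0,0,0,0,0,257] 16 (.lc 2 1 .stop))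
 (.conf [83,122,169] (.lc 4 10 (.lc 3 3 (.lc 3 3 (.lc 3 3 (.lc 4 10 (.lc 4 1 (.lc 4 11 (.lc 2 0 (.lc 4 9 (.lc 4 1 (.lc 4 10 (.lc 4 9 (.lc 4 1 (.lc 4 10 (.lc 4 9 (.lc 4 1 (.lc 4 10 (.lc 5 10 (.lc 5 10 (.lc 5 1 (.lc 5 11 .stop))))))))))))))))))))))))))))))))))))))))))))))))))
 (.lc 3 1 (.lc 2 6 (.lc 3 8 (.lc 3 7 (.lc 3 8 (.lc 4 1 (.lc 3 6 (.lc 4 8 (.lc 4 9 (.lc 4 9 (.lc 4 9 (.lc 4 9 (.lc 5 10 .stop)))))))))))))))))))))))))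
 (.lc 0 7 (.lc 0 7 (.lc 2 0 (.lc 0 8 .stop)))))
 (.conf [32,98] (.far [4096,1,1] 4096 (.conf [32,50] (.far [1,1,1] 4096 (.node [32,50,86,69] 4 5 (.lc 1 6 (.lc 2 1 (.lc 1 6 (.node [64,98] 4 0 (.lc 0 0 .stop)
 (.lc 3 1 (.conf [98,118] (.lc 3 7 (.lc 3 0 (.lc 3 8 (.lc 0 0 (.lc 2 6 (.lc 2 6 (.lc 3 1 (.lc 2 6 (.lc 1 2 (.lc 3 1 (.lc 1 2 (.lc 3 0 (.lc 3 7 (.lc 3 7 (.lc 3 0 (.lc 3 8 (.lc 0 0 (.lc 2 2 (.lc 2 2 (.lc 4 1 (.lc 2 2 (.lc 4 8 (.lc 4 8 (.lc 4 0 (.lc 4 9 (.lc 4 7 (.lc 4 0 (.lc 4 8 (.lc 4 7 (.lc 4 0 (.lc 4 8 (.lc 4 7 (.lc 4 0 (.lc 4 8 (.lc 5 8 (.lc 5 8 (.lc 5 0 (.lc 5 9 .stop))))))))))))))))))))))))))))))))))))))))))))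
 (.conf [55,118] (.conf [32,98] (.far [4096,1,1] 4096 (.conf [32,98] (.far [4096,1,1] 4096 (.conf [32,50] (.node [50,86,96,69] 4 5 (.lc 2 1 (.lc 1 6 (.lc 3 1 (.node [71,118,96] 4 7 (.far [4112,4096,4112,0,257] 4096 (.lc 2 8 (.lc 0 0 (.lc 2 6 (.lc 3 9 (.lc 3 1 (.far [4112,4096,4112,0,257] 4096 (.lc 3 9 (.lc 2 6 (.lc 3 9 (.lc 0 0 (.lc 3 1 (.lc 0 0 (.lc 3 1 (.lc 3 6 (.lc 4 10 (.lc 4 1 (.lc 4 1 (.lc 0 0 (.lc 4 1 (.lc 4 1 (.lc 5 1 .stop))))))))))))))))))))))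
 (.lc 3 8 (.lc 3 1 (.lc 2 6 (.lc 3 1 (.lc 1 0 (.lc 3 7 (.lc 3 8 (.lc 4 1 (.lc 2 0 (.lc 4 9 (.lc 4 8 (.lc 4 8 (.lc 4 8 (.lc 5 9 .stop))))))))))))))))))
 (.conf [32,50] (.node [50,86,96,86,69] 5 6 (.node [81,96] 5 1 (.lc 1 6 (.lc 2 7 (.lc 3 8 .stop)))
 (.lc 2 3 (.node [87,96] 4 5 (.lc 2 1 (.node [71] 4 7 (.far [4112,4096,4112,4112,0,257] 4096 (.lc 2 6 (.lc 2 8 (.lc 0 0 (.lc 2 6 (.lc 3 9 (.lc 3 1 (.far [4112,4096,4112,4112,0,257] 4096 (.lc 3 9 (.lc 2 6 (.lc 3 9 (.lc 0 0 (.lc 3 1 (.lc 0 0 (.lc 3 1 (.lc 3 1 (.lc 3 6 (.lc 4 10 (.lc 1 1 (.lc 4 1 (.lc 4 1 (.lc 0 0 (.lc 4 1 (.lc 4 1 (.lc 5 1 .stop)))))))))))))))))))))))))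
 (.lc 1 7 (.lc 3 1 (.lc 2 3 (.lc 3 8 (.lc 3 9 (.lc 3 1 (.node [72,118] 7 6 (.lc 1 0 (.lc 1 0 (.lc 3 1 (.lc 3 9 (.lc 2 0 (.lc 2 0 (.lc 2 0 (.lc 2 0 (.lc 2 0 (.lc 1 1 (.lc 0 0 (.lc 2 0 (.lc 2 0 (.lc 2 1 (.lc 3 0 (.lc 3 0 (.lc 3 0 (.node [129] 4 8 (.lc 0 0 .stop)
 (.conf [1,144] (.lc 2 1 (.lc 2 1 (.lc 3 1 .stop))))))))))))))))))))))
 (.lc 3 1 (.lc 2 7 (.lc 3 1 (.lc 2 3 (.lc 3 8 (.lc 3 8 (.lc 3 9 (.lc 4 1 (.lc 3 3 (.lc 4 9 (.lc 4 10 (.lc 4 9 (.lc 4 9 (.lc 4 9 (.lc 5 10 .stop))))))))))))))))))))))))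
 (.lc 2 0 (.lc 2 0 (.lc 0 7 (.lc 2 0 (.lc 3 7 (.lc 3 1 (.lc 3 8 (.node [87,96,113] 1 6 .stop
 (.node [81,96,118] 5 1 (.lc 1 7 .stop)
 (.lc 0 7 (.node [88,96,118] 5 8 (.lc 2 1 (.node [72] 4 8 (.lc 1 7 (.lc 2 9 (.lc 1 6 (.lc 3 9 (.lc 3 1 (.lc 2 7 (.lc 3 10 (.far [4112,16,4112,4112,0,257] 4096 (.lc 3 9 (.lc 3 1 (.lc 0 0 (.lc 3 1 (.far [4112,16,4112,4112,0,257] 4096 (.lc 4 10 (.lc 4 1 (.lc 4 1 (.lc 0 0 (.lc 4 1 (.lc 4 1 (.lc 5 1 .stop))))))))))))))))))))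
 (.lc 2 9 (.lc 3 9 (.lc 3 1 (.lc 0 9 (.lc 3 10 (.lc 0 1 (.lc 3 3 (.lc 3 9 (.lc 3 1 (.lc 0 9 (.lc 3 10 (.lc 0 1 (.lc 3 9 (.lc 3 1 (.lc 2 7 (.lc 3 10 (.lc 0 1 (.lc 3 3 (.lc 0 9 (.lc 4 10 (.lc 4 10 (.lc 4 1 (.lc 0 10 (.lc 4 11 (.lc 0 10 (.lc 0 10 (.lc 0 10 (.lc 0 1 (.lc 4 3 (.lc 0 11 .stop))))))))))))))))))))))))))))))))
 (.lc 0 1 (.lc 2 0 (.lc 2 0 (.lc 3 3 (.lc 2 0 (.lc 3 7 (.lc 3 1 (.lc 3 8 (.lc 3 7 (.lc 3 1 (.lc 3 8 (.lc 3 0 (.lc 3 0 (.lc 3 0 (.lc 0 8 (.lc 3 0 (.lc 4 8 (.lc 4 8 (.lc 4 1 (.lc 4 9 (.lc 4 8 (.lc 4 8 (.lc 4 1 (.lc 4 9 (.lc 4 8 (.lc 4 8 (.lc 4 1 (.lc 4 9 (.lc 4 8 (.lc 4 8 (.lc 4 1 (.lc 4 9 (.lc 5 9 (.lc 5 9 (.lc 5 9 (.lc 5 1 (.lc 5 10 .stop)))))))))))))))))))))))))))))))))))))))))))))))))))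
 (.conf [32,50] (.node [50,87,118,69,96] 5 7 (.lc 2 1 (.lc 2 8 (.lc 3 8 (.lc 3 1 (.lc 3 9 (.lc 0 1 (.lc 2 6 (.lc 3 8 (.lc 3 1 (.lc 3 9 (.lc 3 8 (.lc 3 1 (.lc 3 9 (.lc 0 1 (.node [72,118] 7 6 (.node [96] 4 8 (.far [4112,4112,4112,4112,0,257] 4096 (.lc 2 6 (.lc 2 9 (.lc 0 0 (.lc 2 6 (.lc 3 10 (.lc 3 1 (.far [4112,4112,4112,4112,0,257] 4096 (.lc 3 10 (.lc 2 6 (.lc 3 10 (.lc 0 0 (.lc 3 1 (.lc 0 0 (.lc 3 1 (.lc 3 1 (.lc 3 6 (.lc 4 11 (.lc 1 1 (.lc 4 1 (.lc 4 1 (.lc 0 0 (.lc 4 1 (.lc 4 1 (.lc 5 1 .stop)))))))))))))))))))))))))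
 (.lc 2 0 (.lc 2 0 (.node [96,129] 1 4 (.lc 1 8 .stop)
 (.node [96,137] 4 8 (.lc 1 9 (.lc 2 10 (.lc 1 6 (.lc 3 10 (.lc 3 1 (.lc 2 9 (.lc 3 11 (.far [4112,4112,4112,4112,0,257] 4096 (.lc 3 10 (.lc 3 1 (.lc 0 0 (.lc 3 1 (.far [4112,4112,4112,4112,0,257] 4096 (.lc 4 11 (.lc 4 1 (.lc 4 1 (.lc 0 0 (.lc 4 1 (.lc 4 1 (.lc 5 1 .stop))))))))))))))))))))
 (.lc 2 0 (.lc 2 0 (.lc 3 0 (.lc 3 0 (.lc 3 0 .stop))))))))))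
 (.lc 0 8 (.lc 4 9 (.lc 4 9 (.lc 4 1 (.lc 4 10 (.lc 0 9 (.lc 0 9 (.lc 0 9 (.lc 0 1 (.node [73,118,135] 8 7 (.node [96] 8 6 (.lc 1 0 (.lc 1 0 (.lc 3 1 (.lc 3 10 (.lc 2 0 (.lc 2 0 (.lc 2 0 (.lc 2 0 (.lc 2 0 (.lc 1 1 (.lc 0 0 (.lc 2 0 (.lc 2 0 (.lc 2 1 (.lc 3 0 (.lc 3 0 (.lc 3 0 (.node [145] 4 9 (.lc 0 0 .stop)
 (.conf [1,160] (.lc 2 1 (.lc 2 1 (.lc 3 1 .stop))))))))))))))))))))))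
 (.lc 1 0 (.lc 1 0 (.lc 1 0 (.lc 1 0 (.lc 3 1 (.lc 3 10 (.lc 2 0 (.lc 2 0 (.lc 2 0 .stop))))))))))
 (.lc 0 10 .stop))))))))))))))))))))))))))
 (.conf [32,50] .stop))))))))))))))))))))))))))
 (.node [50,69,80,69] 0 3 (.node [] 4 5 (.lc 1 0 (.lc 2 6 (.node [80,101] 6 5 (.lc 0 1 (.lc 1 1 .stop))
 (.lc 3 7 (.lc 3 7 (.lc 2 0 (.lc 3 7 (.node [80,101] 6 5 (.lc 0 1 (.lc 1 1 .stop))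
 (.lc 3 7 (.lc 3 7 (.lc 3 7 (.node [80,101,118] 6 5 (.lc 0 1 (.lc 1 1 .stop))
 (.lc 4 8 (.lc 4 8 (.lc 4 8 (.lc 4 8 (.lc 4 8 (.lc 5 9 .stop))))))))))))))))))
 .stop)
 (.node [50,64,83] 5 3 (.node [32,82] 0 5 (.lc 1 0 .stop)
 (.node [32,86] 2 0 .stop
 (.conf [32,98] (.conf [32,98] (.conf [32,98] .stop)))))
 (.node [50,70,101,70] 5 3 (.conf [32,82] (.node [80] 6 5 (.lc 1 0 (.lc 1 0 (.lc 1 1 (.node [103,112] 4 6 (.lc 1 7 (.lc 2 8 (.far [4096,4096,4096,0,257] 4096 (.lc 3 8 (.lc 3 9 (.lc 2 7 (.lc 3 9 (.lc 1 0 (.lc 3 8 (.lc 3 8 (.lc 3 9 (.lc 2 0 (.lc 4 9 (.lc 4 10 (.lc 4 9 (.lc 4 9 (.lc 4 9 (.lc 5 10 .stop))))))))))))))))))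
 (.lc 2 0 (.lc 2 0 (.lc 2 0 (.lc 2 0 (.lc 2 0 (.lc 2 0 (.node [97] 4 6 (.lc 2 7 (.lc 3 8 (.lc 3 8 (.lc 3 8 (.lc 4 9 .stop)))))
 (.node [103,112] 4 6 (.lc 1 7 (.lc 2 8 (.node [112] 1 7 (.lc 1 0 (.lc 2 8 (.lc 3 9 (.lc 3 9 (.lc 3 9 (.lc 4 10 .stop))))))
 (.lc 3 8 (.lc 3 9 (.lc 2 7 (.lc 3 9 (.far [257,257,16,257,4096] 0 (.lc 3 8 (.lc 3 8 (.lc 3 9 (.far [256,257,256,1,4096] 0 (.lc 4 9 (.lc 4 10 (.lc 4 9 (.lc 4 9 (.lc 4 9 (.lc 5 10 .stop))))))))))))))))))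
 (.lc 1 1 (.lc 3 7 (.lc 2 0 (.lc 2 0 (.lc 2 0 (.node [103,113] 4 6 (.lc 2 8 (.lc 3 8 (.lc 3 9 (.lc 3 9 (.lc 3 8 (.lc 3 8 (.lc 3 9 (.lc 4 9 (.lc 4 10 (.lc 4 9 (.lc 4 9 (.lc 4 9 (.lc 5 10 .stop)))))))))))))
 (.node [104,135,112] 4 6 (.lc 1 8 (.lc 2 9 (.far [4096,4112,4096,16,256] 0 (.lc 3 9 (.lc 3 10 (.lc 2 8 (.lc 3 10 (.lc 1 7 (.lc 3 9 (.lc 3 9 (.lc 3 10 (.lc 2 7 (.lc 4 10 (.lc 4 11 (.lc 4 10 (.lc 4 10 (.lc 4 10 (.lc 5 11 .stop))))))))))))))))))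
 (.lc 3 0 (.lc 3 0 (.lc 3 0 (.lc 3 0 (.lc 2 1 (.lc 4 8 (.lc 4 7 (.lc 4 8 (.lc 4 7 (.lc 4 8 (.lc 5 8 (.lc 5 9 .stop)))))))))))))))))))))))))))))))
 (.node [32,87] 7 2 (.node [112] 5 7 (.lc 2 0 (.lc 2 1 (.lc 2 8 (.lc 3 8 (.lc 3 1 (.lc 3 9 (.lc 2 0 (.node [97,112] 1 7 (.lc 2 4 .stop)
 (.conf [112,135] (.lc 3 1 (.lc 3 8 (.lc 3 8 (.lc 3 1 (.lc 3 9 (.lc 3 8 (.lc 3 1 (.lc 3 9 (.lc 2 0 (.lc 2 0 (.lc 0 0 (.lc 0 1 (.lc 0 8 (.lc 4 9 (.lc 4 9 (.lc 4 1 (.lc 4 10 (.lc 0 1 (.lc 0 8 (.lc 0 8 (.lc 0 1 (.lc 0 9 (.lc 0 8 (.lc 0 1 (.lc 0 9 (.lc 0 8 (.lc 0 1 (.lc 0 9 (.lc 3 0 (.lc 3 0 (.lc 3 0 (.lc 0 9 (.lc 0 9 (.lc 0 1 (.lc 0 10 .stop))))))))))))))))))))))))))))))))))))))))))))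
 (.lc 0 5 (.lc 3 8 (.node [120,128] 5 7 (.lc 2 1 (.lc 2 8 (.lc 2 9 (.lc 3 9 (.lc 3 1 (.lc 3 10 (.node [97,120] 1 7 .stop
 (.lc 2 2 (.conf [120,151] (.lc 3 9 (.lc 3 1 (.lc 3 9 (.lc 3 1 (.lc 3 10 (.lc 3 9 (.lc 3 1 (.lc 3 10 (.lc 2 8 (.lc 2 8 (.lc 0 1 (.lc 0 8 (.lc 0 9 (.lc 4 10 (.lc 4 10 (.lc 4 1 (.lc 4 11 (.lc 0 9 (.lc 0 1 (.lc 0 9 (.lc 0 1 (.lc 0 10 (.lc 0 9 (.lc 0 1 (.lc 0 10 (.lc 0 9 (.lc 0 1 (.lc 0 10 (.lc 3 8 (.lc 3 8 (.lc 3 8 (.lc 0 10 (.lc 0 10 (.lc 0 1 (.lc 0 11 .stop))))))))))))))))))))))))))))))))))))))))))))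
 (.lc 3 8 (.lc 4 9 .stop))))))
 (.node [80] 6 5 (.lc 1 0 (.node [80,97] 1 5 (.lc 2 4 (.lc 1 0 (.lc 2 0 .stop)))
 (.node [80,103] 4 6 (.lc 1 7 (.lc 2 8 (.far [4096,4112,0,16,256] 0 (.lc 3 8 (.lc 3 9 (.lc 2 7 (.lc 3 9 (.far [257,257,16,257,4096] 0 (.lc 3 8 (.lc 3 8 (.lc 3 9 (.node [117,135] 7 5 (.lc 2 0 (.lc 1 0 (.lc 2 0 (.lc 2 0 (.lc 2 0 (.lc 2 0 (.conf [1,128] (.lc 2 0 (.lc 3 0 (.lc 3 0 .stop))))))))))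
 (.lc 4 9 (.lc 4 10 (.lc 4 9 (.lc 4 9 (.lc 4 9 (.lc 5 10 .stop))))))))))))))))))
 (.lc 2 0 (.lc 2 0 (.lc 2 0 (.lc 2 0 (.lc 3 7 (.lc 3 1 (.lc 3 8 (.lc 2 0 (.node [80,103,113] 1 5 (.lc 2 4 .stop)
 (.node [80,97,117] 6 1 .stop
 (.node [80,104,117] 7 5 (.conf [1,112] (.lc 1 0 (.lc 1 0 (.lc 2 0 (.lc 2 0 (.lc 3 1 (.lc 2 0 (.lc 2 0 (.lc 2 0 (.node [113] 4 6 (.lc 1 8 (.lc 2 9 (.lc 3 9 (.lc 3 10 (.lc 3 10 (.lc 1 7 (.lc 3 9 (.lc 3 9 (.lc 3 10 (.lc 4 10 (.lc 4 11 (.lc 4 10 (.lc 4 10 (.lc 4 10 (.lc 5 11 .stop)))))))))))))))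
 (.lc 2 0 (.lc 2 0 (.lc 2 0 (.lc 2 0 (.lc 2 0 (.lc 2 0 (.lc 3 1 (.lc 3 9 (.lc 2 0 (.lc 2 0 (.lc 2 0 (.lc 3 0 (.lc 4 9 (.lc 3 0 (.lc 3 0 (.lc 3 0 (.lc 3 0 (.lc 3 0 (.lc 3 0 (.lc 3 0 (.lc 3 0 (.lc 4 0 .stop))))))))))))))))))))))))))))))))
 (.lc 2 0 (.lc 2 0 (.lc 2 0 (.lc 2 0 (.lc 2 0 (.lc 2 0 (.lc 2 0 (.lc 2 0 (.lc 3 7 (.lc 3 1 (.lc 3 8 (.lc 3 0 (.lc 3 0 (.lc 3 0 (.lc 3 0 (.lc 3 0 (.lc 4 8 (.lc 4 8 (.lc 4 1 (.lc 4 9 (.lc 3 0 (.lc 3 0 (.lc 3 0 (.lc 3 0 (.lc 3 0 (.lc 3 0 (.lc 3 0 (.lc 3 0 (.lc 3 0 (.lc 3 0 (.lc 3 0 (.lc 3 0 (.lc 4 0 (.lc 4 0 (.lc 4 0 (.lc 4 0 (.lc 4 0 .stop)))))))))))))))))))))))))))))))))))))))))))))))))))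
 (.conf [32,114] (.node [80] 6 5 (.lc 1 0 (.lc 1 0 (.node [97] 4 6 (.lc 2 7 (.lc 3 8 (.lc 3 8 (.lc 3 8 (.lc 4 9 .stop)))))
 (.conf [1,112] (.lc 2 0 (.lc 2 0 (.lc 2 0 (.lc 2 0 (.lc 2 0 (.lc 2 0 (.lc 1 1 (.lc 3 1 (.lc 3 7 (.lc 2 0 (.lc 2 0 (.lc 2 0 (.lc 2 1 (.lc 3 0 (.lc 3 0 (.lc 3 0 (.lc 3 0 (.lc 4 7 (.lc 4 8 (.lc 2 1 (.lc 2 1 (.lc 3 1 .stop))))))))))))))))))))))))))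
 (.conf [32,114] (.node [87,112] 6 5 (.lc 1 7 (.lc 1 7 (.lc 1 0 (.lc 1 0 (.lc 2 7 (.lc 2 7 (.lc 2 7 (.lc 2 7 (.lc 2 7 (.lc 2 7 (.node [97,112] 1 7 (.lc 2 4 .stop)
 (.node [104,112] 8 7 (.conf [1,128] (.node [129] 6 8 (.lc 2 9 (.lc 3 9 (.lc 0 9 (.lc 3 10 (.lc 1 4 (.far [4096,4096,0,4112,256] 17 (.lc 0 9 (.lc 2 4 (.lc 0 10 .stop)))))))))
 (.node [129] 6 8 (.lc 2 1 (.lc 2 9 (.lc 3 10 (.lc 1 0 (.lc 0 9 (.lc 3 10 (.lc 3 10 (.lc 0 9 (.lc 0 9 (.lc 4 11 (.lc 0 10 (.lc 0 10 (.lc 0 10 (.lc 0 10 (.lc 0 11 .stop)))))))))))))))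
 (.node [129] 6 8 (.lc 2 9 (.lc 3 9 (.lc 0 9 (.lc 3 10 (.lc 1 0 (.lc 0 9 (.lc 0 10 .stop)))))))
 (.conf [1,144] (.lc 1 0 (.node [137,145] 6 8 (.lc 2 10 (.lc 3 10 (.lc 0 10 (.lc 3 11 (.lc 3 10 (.lc 0 9 (.lc 0 10 (.lc 4 11 (.lc 0 11 (.lc 0 10 (.lc 0 10 (.lc 0 10 (.lc 0 11 .stop)))))))))))))
 .stop)))))))
 (.lc 3 1 (.lc 3 8 (.lc 2 7 (.lc 2 7 (.lc 2 7 (.node [104,112,129] 1 7 (.lc 2 4 .stop)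
 (.node [97,112,135] 6 1 .stop
 (.node [105,112,135] 8 7 (.conf [1,128] (.lc 3 1 (.node [129] 4 6 (.lc 1 9 (.lc 2 10 (.lc 3 10 (.lc 3 11 (.lc 3 11 (.lc 1 8 (.lc 3 10 (.lc 3 10 (.lc 3 11 (.lc 4 11 (.lc 4 12 (.lc 4 11 (.lc 4 11 (.lc 4 11 (.lc 5 12 .stop)))))))))))))))
 (.lc 3 1 (.lc 3 10 (.lc 1 0 (.lc 4 10 .stop)))))))
 (.lc 3 7 (.lc 3 7 (.lc 3 7 (.lc 3 7 (.lc 4 8 (.lc 4 1 (.lc 4 9 (.lc 4 8 (.lc 4 1 (.lc 4 9 (.lc 4 8 (.lc 4 1 (.lc 4 9 (.lc 5 9 (.lc 5 9 (.lc 5 1 (.lc 5 10 .stop)))))))))))))))))))))))))))))))))))))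
 (.conf [32,114] .stop)))))))))
 (.node [50,69,80] 0 3 .stop
 (.node [50,83,50,64] 4 0 (.lc 2 6 (.lc 3 7 .stop))
 (.node [50,83,50,70] 5 3 (.lc 1 2 (.lc 1 2 (.node [80] 6 5 (.lc 1 0 (.lc 1 0 (.node [97] 4 6 (.lc 2 7 (.lc 3 8 (.lc 3 8 (.lc 3 8 (.lc 4 9 .stop)))))
 (.conf [1,112] (.lc 2 0 (.lc 2 0 (.lc 2 0 (.lc 2 0 (.lc 2 0 (.lc 2 0 (.node [97] 4 6 (.lc 2 7 (.lc 3 8 (.lc 3 8 (.lc 3 8 (.lc 4 9 .stop)))))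
 (.lc 3 1 (.lc 3 7 (.lc 2 0 (.lc 2 0 (.lc 2 0 (.node [103,113] 4 6 (.lc 2 7 (.lc 2 8 (.lc 3 9 (.lc 3 8 (.lc 3 9 (.lc 3 9 (.lc 4 10 .stop)))))))
 (.lc 3 0 (.lc 3 0 (.lc 3 0 (.lc 3 0 (.lc 4 7 (.lc 4 8 (.lc 4 7 (.lc 4 7 (.lc 5 8 .stop))))))))))))))))))))))))))
 (.conf [32,114] (.lc 2 2 (.lc 2 2 (.lc 2 2 (.lc 2 2 (.lc 2 2 (.lc 2 2 (.node [80] 6 5 (.lc 1 0 (.lc 1 0 (.node [97] 4 6 (.lc 2 7 (.lc 3 8 (.lc 3 8 (.lc 3 8 (.lc 4 9 .stop)))))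
 (.node [103,112] 4 6 (.lc 2 7 (.lc 2 8 (.lc 3 9 (.far [4096,4096,4096,0,257] 4096 (.lc 2 7 (.lc 3 8 (.lc 3 9 (.lc 3 9 (.lc 2 7 (.lc 1 0 (.lc 2 7 (.lc 4 10 (.far [4096,4096,4096,0,257] 4096 (.lc 3 7 (.lc 3 7 (.lc 3 7 (.lc 3 7 (.lc 4 7 .stop))))))))))))))))))
 (.lc 2 0 (.lc 2 0 (.lc 2 0 (.lc 2 0 (.lc 2 0 (.lc 2 0 (.node [97] 4 6 (.lc 2 7 (.lc 3 8 (.lc 3 8 (.lc 3 8 (.lc 4 9 .stop)))))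
 (.node [103,112] 4 6 (.lc 2 7 (.lc 2 8 (.lc 3 9 (.lc 1 0 (.lc 2 7 (.lc 3 8 (.lc 3 9 (.lc 3 9 (.lc 2 7 (.node [112] 1 7 (.far [16,4096,4096,4096,0,257] 4096 (.node [24,112,135] 1 8 .stop
 (.lc 2 0 (.node [25,112,135,152,135] 1 9 .stop
 (.lc 2 0 (.lc 3 0 .stop))))))
 (.lc 2 7 (.lc 4 10 (.lc 2 0 (.lc 3 7 (.lc 3 7 (.lc 3 7 (.lc 3 7 (.lc 4 7 .stop))))))))))))))))))
 (.lc 3 1 (.lc 3 7 (.lc 2 0 (.lc 2 0 (.lc 2 0 (.node [103,113] 4 6 (.lc 2 7 (.lc 2 8 (.lc 3 9 (.lc 3 8 (.lc 3 9 (.lc 3 9 (.lc 4 10 .stop)))))))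
 (.node [104,135,112] 4 6 (.lc 2 8 (.lc 2 9 (.lc 3 10 (.node [135] 8 7 (.lc 0 7 (.lc 0 9 (.lc 0 9 (.lc 0 9 (.lc 0 10 .stop)))))
 (.lc 2 8 (.lc 3 9 (.lc 3 10 (.lc 3 10 (.lc 2 8 (.lc 1 7 (.lc 2 8 (.lc 4 11 (.node [135,152] 9 8 (.node [112] 9 7 (.lc 1 0 (.lc 0 10 (.lc 2 0 (.far [256,0,4096,4096,4096,0,257] 4096 .stop))))
 (.lc 1 0 (.lc 1 0 (.lc 3 10 (.lc 2 0 .stop)))))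
 (.lc 3 8 (.lc 3 8 (.lc 3 8 (.lc 3 8 (.lc 4 8 .stop))))))))))))))))))
 (.lc 3 0 (.lc 3 0 (.lc 3 0 (.lc 3 0 (.lc 4 7 (.lc 4 8 (.lc 4 7 (.lc 4 8 (.lc 4 7 (.lc 4 8 (.lc 5 8 (.lc 5 9 .stop)))))))))))))))))))))))))))))))
 (.lc 1 0 (.lc 3 0 (.lc 3 7 (.lc 2 2 (.lc 2 2 (.lc 2 2 (.node [87,112] 5 7 (.lc 2 1 (.lc 2 8 (.lc 3 8 (.lc 3 1 (.lc 3 9 (.node [97,112] 1 4 (.lc 1 6 .stop)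
 (.node [104,112] 4 6 (.lc 2 8 (.lc 2 9 (.lc 3 10 (.far [4096,4112,4096,0,257] 4096 (.lc 2 8 (.lc 3 9 (.lc 3 10 (.lc 3 10 (.lc 0 0 (.lc 2 8 (.lc 0 0 (.lc 1 7 (.lc 2 8 (.lc 4 11 (.far [4096,4112,4096,0,257] 4096 (.lc 3 8 (.lc 3 8 (.lc 0 0 (.lc 3 8 (.lc 3 8 (.lc 4 8 .stop)))))))))))))))))))))
 (.lc 3 8 (.lc 3 1 (.lc 3 9 (.lc 3 8 (.lc 3 1 (.lc 3 9 (.lc 2 0 (.lc 2 0 (.lc 0 1 (.lc 0 8 (.lc 4 9 (.lc 4 9 (.lc 4 1 (.lc 4 10 (.lc 0 8 (.lc 0 1 (.lc 0 9 (.lc 0 8 (.lc 0 1 (.lc 0 9 (.lc 0 8 (.lc 0 1 (.lc 0 9 (.lc 3 0 (.lc 3 0 (.lc 3 0 (.lc 0 9 (.lc 0 9 (.lc 0 1 (.lc 0 10 .stop)))))))))))))))))))))))))))))))))))))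
 (.lc 2 0 (.lc 3 2 (.lc 3 2 (.lc 3 2 (.lc 3 2 (.lc 4 7 (.lc 4 8 (.lc 4 7 (.lc 2 0 (.lc 4 7 (.lc 2 0 (.lc 5 8 (.lc 3 0 .stop)))))))))))))))))))))))))))))))
 (.node [50,69,80,69,50] 0 3 .stop
 (.node [50,64,83,50] 0 5 (.lc 1 3 (.node [38,83] 5 3 (.lc 1 2 (.lc 2 2 .stop))
 (.lc 2 3 (.node [83,101] 5 3 (.lc 1 2 (.lc 2 2 .stop))
 (.conf [39,118] .stop)))))
 (.node [50,83,101,50,70] 5 3 (.lc 1 2 (.lc 1 2 (.node [80] 6 5 (.lc 1 0 (.lc 1 0 (.lc 3 1 (.lc 3 7 (.lc 2 0 (.lc 2 0 (.lc 2 0 (.lc 2 0 (.lc 2 0 (.lc 2 0 (.lc 3 1 (.node [97] 4 6 (.lc 2 1 .stop)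
 (.node [1,103] 4 6 (.conf [71,112] (.lc 3 8 (.lc 3 1 (.lc 1 0 (.lc 3 8 (.lc 4 9 .stop))))))
 (.lc 2 0 (.lc 2 0 (.lc 2 0 (.lc 4 7 (.lc 3 0 (.lc 3 0 (.lc 3 0 (.lc 3 0 (.node [103,113] 4 6 (.node [71] 4 7 (.lc 2 8 (.lc 3 9 .stop))
 (.lc 3 8 (.lc 1 1 (.lc 3 8 (.lc 4 9 .stop)))))
 (.conf [1,112] (.node [103,113] 4 6 (.node [71] 4 7 (.lc 2 8 (.lc 3 9 .stop))
 (.lc 3 8 (.lc 1 1 (.lc 3 8 (.lc 4 9 .stop)))))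
 (.node [103,113] 4 6 (.far [16,256,257,4096] 256 (.lc 3 8 (.far [16,256,257,4096] 256 (.lc 3 8 (.lc 4 9 .stop)))))
 (.node [104,135,113] 4 6 (.node [72] 4 8 (.lc 2 9 (.lc 3 9 (.lc 3 10 (.lc 3 9 (.lc 4 10 .stop)))))
 (.lc 3 9 (.lc 1 7 (.lc 3 9 (.lc 4 10 .stop)))))
 .stop))))))))))))))))))))))))))
 (.conf [32,114] (.lc 2 2 (.lc 2 2 (.lc 2 2 (.lc 2 2 (.lc 2 2 (.lc 2 2 (.node [80] 6 5 (.lc 1 0 (.lc 1 0 (.lc 3 1 (.lc 3 7 (.lc 2 0 (.lc 2 0 (.lc 2 0 (.lc 2 0 (.lc 2 0 (.lc 2 0 (.lc 3 1 (.lc 3 7 (.far [257,257,1,1] 16 (.node [103,112] 4 6 (.far [16,256,257,4096] 0 (.lc 3 8 (.lc 3 1 (.far [16,256,257,4096] 0 (.lc 3 8 (.lc 4 9 .stop))))))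
 (.lc 2 0 (.lc 2 0 (.lc 2 0 (.lc 4 7 (.lc 4 8 (.lc 3 0 (.lc 3 0 (.lc 3 0 (.lc 3 0 (.node [103,113] 4 6 (.node [71] 4 7 (.lc 2 8 (.lc 3 9 .stop))
 (.lc 3 8 (.lc 1 1 (.lc 3 8 (.lc 4 9 .stop)))))
 (.node [104,135,112] 4 6 (.node [72] 4 8 (.lc 1 7 (.lc 2 9 (.lc 1 0 (.lc 3 9 (.lc 3 1 (.lc 2 7 (.lc 3 10 (.far [4112,4096,4096,4096,0,257] 4096 (.lc 3 9 (.lc 3 1 (.lc 3 1 (.far [4112,4096,4096,4096,0,257] 4096 (.lc 4 10 (.lc 4 1 (.lc 4 1 (.lc 4 1 (.lc 4 1 (.lc 5 1 .stop))))))))))))))))))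
 (.lc 3 9 (.lc 3 1 (.lc 1 7 (.lc 3 9 (.lc 4 10 .stop))))))
 (.node [103,113] 4 6 (.node [71] 4 7 (.lc 2 8 (.lc 3 9 .stop))
 (.lc 3 8 (.lc 1 1 (.lc 3 8 (.lc 4 9 .stop)))))
 (.node [104,135,112] 4 6 (.node [72] 4 8 (.lc 1 7 (.lc 2 9 (.node [112] 1 7 (.far [16,16,4096,1] 0 (.node [25,112,151] 1 9 .stop
 (.lc 2 0 (.node [26,112,151,169,151] 1 10 .stop
 (.lc 2 0 (.lc 3 0 .stop))))))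
 (.lc 3 9 (.lc 3 1 (.lc 2 7 (.lc 3 10 (.lc 1 0 (.lc 3 9 (.lc 3 1 (.lc 3 1 (.lc 2 0 (.lc 4 10 (.lc 4 1 (.lc 4 1 (.lc 4 1 (.lc 4 1 (.lc 5 1 .stop))))))))))))))))))
 (.lc 3 9 (.lc 3 1 (.lc 1 7 (.lc 3 9 (.lc 4 10 .stop))))))
 (.node [103,113] 4 6 (.far [16,256,257,4096] 4097 (.lc 3 8 (.far [32,512,514,8192] 257 (.lc 3 8 (.lc 4 9 .stop)))))
 (.node [104,135,112] 4 6 (.far [16,256,257,4096] 0 (.lc 3 9 (.lc 3 1 (.far [16,256,257,4096] 0 (.lc 3 9 (.lc 4 10 .stop))))))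
 (.node [104,135,113] 4 6 (.node [72] 4 8 (.lc 2 9 (.lc 3 9 (.lc 3 10 (.lc 3 9 (.lc 4 10 .stop)))))
 (.lc 3 9 (.lc 1 7 (.lc 3 9 (.lc 4 10 .stop)))))
 (.node [105,152,135,112] 4 6 (.node [73] 4 9 (.lc 1 8 (.lc 2 10 (.lc 1 7 (.lc 3 10 (.lc 3 1 (.lc 2 8 (.lc 3 11 (.node [135] 8 7 (.lc 0 7 (.lc 0 10 (.lc 0 10 (.lc 0 10 (.lc 0 11 .stop)))))
 (.lc 3 10 (.lc 3 1 (.lc 3 1 (.node [135,168] 10 8 (.node [112] 10 7 (.lc 1 0 (.lc 0 11 (.lc 2 0 (.far [256,16,16,4096,1] 0 .stop))))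
 (.lc 1 0 (.lc 1 0 (.lc 3 11 (.lc 2 0 .stop)))))
 (.lc 4 11 (.lc 4 1 (.lc 4 1 (.lc 4 1 (.lc 4 1 (.lc 5 1 .stop))))))))))))))))))
 (.lc 3 10 (.lc 3 1 (.lc 1 8 (.lc 3 10 (.lc 4 11 .stop))))))
 .stop)))))))))))))))))))))))))))))))
 (.lc 1 0 (.lc 3 0 (.lc 3 7 (.lc 2 2 (.lc 2 2 (.lc 2 2 (.node [87,112] 6 5 (.lc 1 7 (.lc 1 7 (.lc 3 1 (.lc 3 8 (.lc 2 7 (.lc 2 7 (.lc 2 7 (.lc 2 7 (.lc 2 7 (.lc 2 7 (.lc 3 1 (.lc 3 8 (.node [97,112] 6 1 (.lc 1 7 .stop)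
 (.node [104,112] 4 6 (.node [72] 8 7 (.lc 1 0 (.lc 0 7 (.lc 1 0 (.node [129] 4 8 (.lc 0 0 (.lc 2 9 (.lc 3 10 .stop)))
 (.conf [1,144] (.lc 2 0 (.lc 2 0 (.lc 2 0 (.lc 0 1 (.lc 2 0 (.lc 2 0 (.lc 2 0 (.lc 1 1 (.lc 3 1 (.lc 3 9 (.lc 2 0 (.lc 2 0 (.lc 2 0 (.lc 2 1 (.lc 2 1 (.lc 3 0 (.lc 3 0 (.lc 3 0 (.lc 3 0 (.lc 4 9 (.lc 4 10 (.lc 2 1 (.lc 2 1 (.lc 3 1 .stop)))))))))))))))))))))))))))))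
 (.lc 3 9 (.lc 3 1 (.node [73,135] 8 7 (.lc 1 0 (.lc 1 0 (.lc 3 1 (.lc 3 10 (.lc 2 0 (.lc 2 0 (.lc 2 0 (.lc 2 0 (.lc 2 0 (.lc 1 1 (.lc 0 0 (.lc 2 0 (.lc 2 0 (.lc 2 1 (.lc 3 0 (.lc 3 0 (.lc 3 0 (.node [145] 4 9 (.lc 0 0 .stop)
 (.conf [1,160] (.lc 2 1 (.lc 2 1 (.lc 3 1 .stop))))))))))))))))))))))
 (.lc 3 9 (.lc 4 10 .stop))))))
 (.lc 2 7 (.lc 2 7 (.lc 2 7 (.lc 4 8 (.lc 4 1 (.lc 4 9 (.lc 3 7 (.lc 3 7 (.lc 3 7 (.lc 3 7 (.node [104,112,129] 1 7 .stop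
 (.node [97,112,135] 6 1 (.lc 1 8 .stop)
 (.node [105,112,135] 4 6 (.node [73] 4 9 (.lc 1 8 (.lc 2 10 (.lc 1 7 (.lc 3 10 (.lc 3 1 (.lc 2 8 (.lc 3 11 (.far [4112,4096,4096,4096,0,257] 4096 (.lc 3 10 (.lc 3 1 (.lc 0 0 (.lc 3 1 (.far [4112,4096,4096,4096,0,257] 4096 (.lc 4 11 (.lc 4 1 (.lc 4 1 (.lc 0 0 (.lc 4 1 (.lc 4 1 (.lc 5 1 .stop))))))))))))))))))))
 (.lc 3 10 (.lc 3 1 (.lc 1 8 (.lc 3 10 (.lc 4 11 .stop))))))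
 (.lc 2 0 (.lc 2 0 (.lc 2 0 (.lc 2 0 (.lc 2 0 (.lc 2 0 (.lc 3 0 (.lc 3 0 (.lc 3 0 (.lc 3 0 .stop)))))))))))))))))))))))))))))))))))))
 (.lc 2 0 (.lc 3 2 (.lc 3 2 (.lc 3 2 (.lc 3 2 (.lc 4 7 (.lc 4 8 (.lc 4 7 (.lc 2 0 (.lc 4 7 (.lc 2 0 (.lc 5 8 (.lc 3 0 .stop)))))))))))))))))))))))))))))))
 (.node [50,69] 0 3 (.node [] 4 5 (.node [65,80] 5 0 (.far [4112,1,0,256] 0 .stop)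
 (.node [70,101] 1 4 (.node [101] 6 5 (.node [97,80] 1 5 (.far [1,1,0,1,0,256] 0 (.lc 1 0 (.lc 2 0 .stop)))
 (.node [103,80] 5 0 (.node [81] 5 1 (.far [4112,4112,1,0,1,0,256] 0 (.far [4112,4112,1,0,1,0,256] 0 .stop))
 (.far [4096,1,1,4096,0,0,257] 16 (.lc 3 0 (.node [88,129,88] 5 8 (.far [4112,4112,1,0,1,0,256] 0 (.lc 0 9 (.lc 0 9 (.lc 2 1 (.lc 0 10 .stop)))))
 (.far [1,1,1,4096,0,0,257] 16 (.far [4096,1,1,4096,0,0,257] 16 .stop))))))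
 (.lc 2 0 (.lc 2 0 (.lc 3 8 (.conf [23,97] (.node [80,104,117,135,80] 6 8 (.far [4112,4112,256,256] 0 (.node [105,135] 6 9 (.far [4112,4112,4112,256,256] 0 (.lc 2 8 (.far [4112,4112,4112,256,256] 0 (.lc 2 8 (.lc 3 8 .stop)))))
 (.lc 2 7 (.lc 2 7 (.lc 3 1 (.conf [25,135,152] (.conf [106,169] (.lc 2 7 (.lc 2 7 (.lc 3 1 (.lc 3 1 (.lc 3 7 (.lc 3 7 (.lc 4 1 (.lc 4 1 (.lc 4 1 (.lc 4 1 (.lc 5 1 .stop))))))))))))))))))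
 (.lc 2 0 (.lc 2 0 (.lc 2 0 (.lc 3 8 (.lc 3 0 (.lc 3 0 (.lc 4 9 (.lc 3 0 (.lc 3 0 (.lc 3 0 (.lc 4 0 .stop))))))))))))))))))
 (.lc 1 6 (.lc 2 1 (.node [101,118,80] 6 5 (.node [80,104] 7 6 (.node [120] 1 7 (.lc 1 1 (.node [25] 1 9 .stop
 (.lc 2 8 (.lc 2 1 (.node [26,169,151] 1 10 .stop
 (.lc 2 8 (.lc 2 8 (.lc 3 8 .stop))))))))
 (.lc 1 5 (.lc 1 5 (.far [1,4112,257,16,1,4112,256] 0 (.lc 2 5 .stop)))))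
 (.lc 2 0 (.lc 3 4 (.conf [105,152] (.lc 2 0 (.lc 2 0 (.lc 3 4 (.lc 3 0 (.lc 4 4 (.lc 3 0 (.lc 3 0 (.lc 3 0 (.lc 4 0 .stop)))))))))))))
 (.lc 2 6 (.far [16,257,16,257,4096] 0 (.lc 2 6 (.lc 2 1 (.lc 2 1 (.far [1,4112,1,4112,256] 0 (.lc 2 6 (.lc 3 1 (.node [101,118,135,80] 7 6 (.node [101,121] 6 5 (.far [257,16,4112,1,16,257,4096] 0 (.lc 2 0 (.lc 0 10 (.lc 2 0 (.lc 3 0 .stop)))))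
 (.lc 2 4 (.lc 3 10 (.conf [101,150] (.lc 1 0 (.lc 2 4 (.lc 3 10 (.lc 2 0 (.lc 4 11 (.lc 3 4 (.lc 2 0 (.lc 2 0 (.lc 3 0 .stop)))))))))))))
 (.lc 3 6 (.lc 3 1 (.lc 3 1 (.lc 3 1 (.lc 4 1 .stop))))))))))))))))))
 (.lc 2 0 (.lc 2 0 (.lc 3 7 (.far [4112,1,4112,256] 0 (.node [71,118,101] 4 7 (.far [4112,4112,1,4112,256] 0 (.lc 2 8 (.node [118,135,101,80] 7 6 (.far [4112,4096,16,1,4112,256] 0 (.lc 2 5 (.far [4112,4096,16,1,4112,256] 0 (.lc 2 5 (.lc 3 5 .stop)))))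
 (.lc 3 9 (.lc 3 1 (.conf [118,135] (.lc 3 9 (.node [118,135,101,80] 8 7 (.node [101] 6 5 (.lc 2 1 (.lc 2 9 (.lc 2 0 (.lc 2 0 (.lc 0 9 (.lc 3 10 (.lc 2 0 (.lc 2 0 (.lc 2 0 (.node [21] 1 5 (.far [1,1,256,0,1,0,256] 0 (.lc 1 0 (.lc 2 0 .stop)))
 (.lc 3 0 (.lc 1 9 (.lc 1 9 (.lc 3 0 (.lc 3 0 (.lc 1 10 .stop))))))))))))))))
 (.lc 1 5 (.lc 1 5 (.lc 3 9 (.lc 2 5 .stop)))))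
 (.lc 3 9 (.lc 3 1 (.lc 3 1 (.node [118,135,152,101,80] 8 7 (.far [1,4112,4112,1,4112,256] 0 (.lc 1 5 (.lc 1 5 (.lc 3 10 (.lc 2 5 .stop)))))
 (.lc 4 10 (.lc 4 1 (.lc 4 1 (.lc 4 1 (.lc 4 1 (.lc 5 1 .stop))))))))))))))))))
 (.lc 2 0 (.lc 2 0 (.lc 3 7 (.lc 3 7 (.lc 3 0 (.lc 3 0 (.lc 4 8 (.lc 4 8 (.lc 4 8 (.lc 4 8 (.lc 5 9 .stop))))))))))))))))))
 .stop)
 (.node [50,64,83] 5 3 (.conf [32,82] (.lc 3 6 (.conf [32,98] (.lc 3 6 (.lc 4 7 .stop)))))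
 (.node [50,70,83] 5 3 (.conf [32,82] (.lc 3 0 (.lc 3 7 (.node [80] 6 5 (.lc 1 0 (.lc 1 0 (.node [97] 4 6 (.conf [65,97,16] (.node [71,97,118] 1 4 (.far [16,257,0,16,257,4096] 17 (.lc 1 7 (.lc 2 1 (.lc 1 6 (.lc 2 7 (.lc 2 1 (.lc 3 1 .stop)))))))
 (.lc 2 1 (.lc 3 8 (.node [72,97,118,135] 1 4 (.node [135,118] 6 1 .stop
 (.lc 1 8 (.lc 2 1 (.node [135,152,118] 9 8 (.far [16,16,257,0,16,257,4096] 17 (.lc 1 6 (.lc 1 6 (.lc 3 10 (.lc 2 6 .stop)))))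
 (.lc 2 8 (.lc 2 1 (.lc 3 1 .stop)))))))
 (.lc 2 1 (.lc 3 8 (.lc 3 8 (.lc 3 1 (.lc 4 9 (.lc 4 9 (.lc 4 9 (.lc 4 9 (.lc 5 10 .stop))))))))))))))
 (.conf [1,112] (.lc 2 0 (.lc 2 0 (.lc 2 0 (.lc 2 0 (.lc 2 0 (.lc 2 0 (.node [97] 4 6 (.far [1,4112,4112,256] 17 (.node [71,97,118] 1 4 (.far [16,257,0,16,257,4096] 17 (.lc 1 7 (.lc 2 1 (.lc 1 6 (.lc 2 7 (.lc 1 6 (.lc 2 7 (.lc 2 1 (.lc 2 1 (.node [118,135] 6 1 (.lc 2 8 (.lc 3 9 .stop))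
 (.lc 2 7 (.lc 3 1 (.lc 2 6 (.lc 3 7 (.lc 3 1 (.lc 3 1 (.lc 3 1 (.lc 4 1 .stop))))))))))))))))))
 (.lc 2 1 (.lc 3 8 (.node [72,97,118,135] 7 6 (.node [113,135] 4 8 (.node [135] 7 1 .stop
 (.lc 2 9 (.lc 3 10 (.lc 3 1 (.lc 3 10 (.lc 2 7 (.lc 3 10 (.lc 3 1 (.lc 4 11 (.lc 4 1 .stop))))))))))
 (.lc 1 1 (.lc 2 1 (.node [121,145,135] 8 7 (.node [137,145] 1 4 (.lc 1 8 (.lc 2 8 (.lc 2 1 .stop)))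
 (.lc 3 10 (.node [138,145] 1 4 (.lc 1 8 (.lc 2 8 .stop))
 (.lc 3 10 (.lc 4 11 .stop)))))
 (.lc 2 1 (.conf [121,145] (.lc 2 1 (.lc 2 1 (.lc 2 1 (.node [121,145,135] 8 7 (.far [1,1,1,4112,4112,256] 17 (.lc 3 10 (.lc 1 1 (.lc 3 10 (.lc 4 11 .stop)))))
 (.lc 2 1 (.lc 3 1 (.node [122,169,135,145] 8 7 (.node [138] 1 4 (.lc 1 8 (.lc 2 1 (.lc 2 8 .stop)))
 (.lc 3 11 (.lc 1 9 (.lc 3 11 (.lc 4 12 .stop)))))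
 (.lc 3 1 (.lc 3 1 (.lc 3 1 (.lc 3 1 (.lc 4 1 .stop))))))))))))))))))
 (.lc 2 1 (.lc 3 8 (.lc 3 8 (.lc 3 1 (.lc 4 9 (.lc 4 9 (.lc 4 9 (.lc 4 9 (.lc 5 10 .stop))))))))))))))
 (.lc 3 1 (.lc 3 7 (.lc 2 0 (.lc 2 0 (.lc 2 0 (.node [103,113,103,70] 4 6 (.lc 2 7 (.lc 2 8 (.lc 3 9 (.lc 3 8 (.lc 3 9 (.lc 3 8 (.lc 3 9 (.lc 3 9 (.lc 3 9 (.lc 3 8 (.lc 3 9 (.lc 4 10 (.lc 4 9 (.lc 4 10 (.lc 4 10 (.lc 4 10 (.lc 4 10 (.lc 5 11 .stop))))))))))))))))))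
 (.lc 3 0 (.lc 3 0 (.lc 3 0 (.lc 3 0 (.lc 4 7 (.lc 4 8 (.lc 4 7 (.lc 4 7 (.lc 5 8 .stop))))))))))))))))))))))))))
 (.conf [32,114] (.lc 3 0 (.lc 3 7 (.lc 4 7 (.lc 4 8 .stop)))))))))
 (.conf [50,69] (.conf [50,64] (.conf [50,70] (.node [50,69,80] 0 3 (.node [50,69,80] 5 0 (.node [81] 3 2 (.node [32,98] 4 5 (.node [70,81] 6 5 .stop
 (.node [71,81] 1 4 (.far [1,4112,4112,0,1,1,258] 8192 (.lc 1 5 (.lc 1 5 (.lc 1 5 (.far [1,4112,4112,0,1,1,258] 8192 (.lc 2 5 .stop))))))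
 (.conf [81,117] .stop)))
 (.lc 0 7 (.lc 0 7 (.conf [32,114] (.lc 0 8 .stop)))))
 (.far [16,257,4096] 0 (.lc 3 7 (.lc 3 7 (.conf [87,113] (.conf [87,118] (.lc 3 7 (.lc 3 7 (.lc 4 8 (.lc 4 8 .stop))))))))))
 (.conf [50,99] .stop))
 (.node [50,64] 4 0 .stop
 (.node [50,70,101] 4 6 (.node [64,101,50] 4 0 (.lc 0 0 .stop)
 (.node [71,101,50] 4 7 (.node [118] 7 6 (.node [101,112] 0 6 (.far [1,1,4112,4096,4112,256] 0 (.far [256,0,0,0,257,1] 4096 (.conf [37,83] (.node [83,133] 0 8 (.far [257,256,0,0,0,257,1] 4096 (.far [4112,4112,256] 0 (.lc 2 5 (.lc 2 5 (.conf [41,152] (.lc 2 5 (.lc 2 5 (.lc 3 5 .stop))))))))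
 (.far [1,1,4112,4096,4112,256] 0 (.conf [40,133] .stop))))))
 (.lc 2 1 (.node [101,114] 2 6 .stop
 (.node [101,120] 6 5 (.far [4112,1,4112,4096,4112,256] 0 (.lc 0 0 (.lc 0 1 (.lc 0 2 (.lc 0 9 (.lc 0 0 (.lc 0 9 (.node [83] 0 5 (.node [83] 5 3 .stop
 (.conf [41,149] (.lc 1 2 .stop)))
 (.node [83,149] 5 3 (.node [50,80] 0 3 (.far [257,1,0,0,0,0,1,1] 4096 .stop)
 (.node [50,90] 9 5 (.far [16,257,257,16,0,16,258] 0 (.lc 3 0 (.lc 3 1 (.lc 3 2 (.lc 3 11 (.lc 1 3 (.lc 1 3 (.lc 3 0 (.lc 3 11 (.lc 4 1 (.lc 4 11 (.lc 4 0 (.lc 4 0 (.lc 4 12 .stop))))))))))))))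
 (.lc 2 2 (.lc 2 2 (.lc 3 3 (.lc 3 3 (.conf [90,160] (.conf [50,163] (.conf [50,163] (.lc 2 2 (.lc 2 2 (.lc 2 2 (.lc 3 3 (.lc 3 3 (.lc 3 2 (.lc 3 2 (.lc 4 3 (.lc 4 3 (.lc 4 3 (.lc 3 2 (.lc 3 2 (.lc 3 2 (.lc 3 2 (.lc 3 2 (.lc 3 2 (.lc 4 2 (.lc 4 2 .stop)))))))))))))))))))))))))))
 (.lc 0 1 (.lc 0 9 (.lc 0 0 (.lc 0 0 (.lc 0 10 .stop))))))))))))))
 (.lc 2 4 (.lc 2 4 (.lc 2 4 (.lc 3 8 (.lc 3 0 (.lc 3 0 (.lc 3 2 (.lc 3 9 (.lc 3 1 (.node [101,120,128] 0 6 (.conf [37,83] .stop)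
 (.node [38,112] 2 6 .stop
 (.conf [101,134] (.lc 3 1 (.conf [101,134] (.lc 2 4 (.lc 2 4 (.lc 2 4 (.lc 2 4 (.lc 2 4 (.lc 2 4 (.lc 2 4 (.lc 3 8 (.lc 3 0 (.lc 3 8 (.lc 3 0 (.lc 3 9 (.lc 3 4 (.lc 3 4 (.lc 3 4 (.lc 3 4 (.lc 3 4 (.lc 3 4 (.lc 4 9 (.lc 4 8 (.lc 4 9 (.lc 4 0 (.lc 4 0 (.lc 4 10 (.lc 3 4 (.lc 3 4 (.lc 3 4 (.lc 3 4 (.lc 3 4 (.lc 3 4 (.lc 3 4 (.lc 3 4 (.lc 3 4 (.lc 3 4 (.lc 3 4 (.lc 3 4 (.lc 3 4 (.lc 3 4 (.lc 4 4 (.lc 4 4 (.lc 4 4 (.lc 4 4 (.lc 4 4 (.lc 4 4 .stop))))))))))))))))))))))))))))))))))))))))))))))))))))))))))))))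
 (.lc 0 0 (.lc 2 6 (.lc 0 0 (.node [118,135] 7 6 (.node [101,112] 0 6 (.far [1,1,4112,4096,4112,256] 0 (.far [256,0,0,0,257,1] 4096 (.conf [37,83] (.node [83,149] 0 9 (.far [257,256,0,0,0,257,1] 4096 (.far [4112,4112,256] 0 (.lc 2 5 (.lc 2 5 (.lc 2 5 (.lc 2 5 (.lc 1 9 (.conf [42,169] (.lc 0 0 (.lc 2 5 (.lc 2 5 (.lc 1 10 (.lc 3 5 .stop)))))))))))))
 (.far [1,1,4112,4096,4112,256] 0 (.conf [41,149] .stop))))))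
 (.node [101,114] 2 6 .stop
 (.lc 2 4 (.node [101,121] 6 5 (.far [4112,1,4112,4096,4112,256] 0 (.lc 0 0 (.lc 0 2 (.lc 0 8 (.lc 0 10 (.lc 0 0 (.lc 0 10 (.node [83] 0 5 (.node [83] 5 3 .stop
 (.conf [42,165] (.lc 1 2 .stop)))
 (.node [83,165] 5 3 (.node [50,80] 0 3 (.far [257,1,0,0,0,0,1,1] 4096 .stop)
 (.node [50,88,135] 5 8 .stop
 (.node [50,91] 10 5 (.far [16,257,257,16,0,16,258] 0 (.lc 3 0 (.lc 3 2 (.lc 3 8 (.lc 3 12 (.lc 1 3 (.lc 1 3 (.lc 3 0 (.lc 3 12 (.lc 4 12 (.lc 4 0 (.lc 4 0 (.lc 4 13 .stop)))))))))))))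
 (.lc 2 2 (.lc 2 2 (.lc 3 3 (.lc 3 3 (.conf [91,176] (.conf [50,179] (.conf [50,179] (.lc 2 2 (.lc 2 2 (.lc 2 2 (.lc 2 2 (.lc 3 3 (.lc 3 3 (.lc 3 3 (.lc 3 2 (.lc 3 2 (.lc 4 3 (.lc 4 3 (.lc 4 3 (.lc 3 2 (.lc 3 2 (.lc 3 2 (.lc 3 2 (.lc 3 2 (.lc 3 2 (.lc 3 2 (.lc 4 2 (.lc 4 2 .stop)))))))))))))))))))))))))))))))
 (.lc 0 10 (.lc 0 0 (.lc 0 0 (.lc 0 11 .stop)))))))))))))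
 (.lc 2 4 (.lc 2 4 (.lc 2 4 (.lc 3 9 (.lc 3 0 (.lc 3 0 (.lc 3 2 (.lc 3 10 (.lc 3 4 (.node [101,121,144] 0 6 (.conf [37,83] .stop)
 (.node [38,112] 2 6 .stop
 (.conf [101,150] (.lc 3 4 (.conf [101,150] (.lc 2 4 (.lc 2 4 (.lc 2 4 (.lc 2 4 (.lc 2 4 (.lc 2 4 (.lc 2 4 (.lc 3 9 (.lc 3 0 (.lc 3 9 (.lc 3 0 (.lc 3 10 (.lc 3 4 (.lc 3 4 (.lc 3 4 (.lc 3 4 (.lc 3 4 (.lc 3 4 (.lc 4 10 (.lc 4 9 (.lc 4 10 (.lc 4 0 (.lc 4 0 (.lc 4 11 (.lc 3 4 (.lc 3 4 (.lc 3 4 (.lc 3 4 (.lc 3 4 (.lc 3 4 (.lc 3 4 (.lc 3 4 (.lc 3 4 (.lc 3 4 (.lc 3 4 (.lc 3 4 (.lc 3 4 (.lc 3 4 (.lc 4 4 (.lc 4 4 (.lc 4 4 (.lc 4 4 (.lc 4 4 (.lc 4 4 .stop))))))))))))))))))))))))))))))))))))))))))))))))))))))))))))))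
 (.lc 0 0 (.lc 2 6 (.lc 0 0 (.lc 3 6 .stop)))))))))
 (.conf [71,101] (.conf [64,101] (.conf [72,101] (.lc 0 0 (.conf [65,101] (.conf [71,112] (.conf [101,118] (.conf [101,118] (.conf [71,101] (.conf [64,101] (.conf [72,101] (.lc 0 0 (.node [65,101,118,50] 7 6 (.far [1,4096,4112,256] 0 (.node [83,112] 0 5 (.lc 1 3 (.lc 1 3 (.lc 1 2 (.lc 3 1 (.lc 2 3 (.lc 2 3 (.far [257,257,4096,0,257] 4096 (.lc 3 1 (.lc 4 1 .stop)))))))))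
 (.node [83,114] 3 2 (.lc 2 0 (.lc 3 8 .stop))
 (.node [83,120] 5 3 (.lc 1 2 (.lc 1 2 (.lc 3 0 (.lc 3 9 (.lc 2 2 (.lc 2 2 (.lc 2 2 (.lc 2 2 (.lc 2 2 (.lc 3 0 (.lc 1 0 (.conf [32,130] (.lc 2 2 (.lc 2 2 (.lc 4 9 (.lc 2 0 (.lc 3 2 (.lc 3 2 (.lc 3 2 (.lc 0 0 (.lc 0 9 (.lc 0 0 (.lc 2 0 (.far [4096,257,4096,0,257] 4096 (.lc 2 0 (.lc 0 9 (.lc 3 0 .stop)))))))))))))))))))))))))))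
 (.node [83,112] 0 5 (.lc 1 3 (.lc 2 3 (.far [256,0,0,1,1] 4096 .stop)))
 (.node [83,133,120] 5 3 (.lc 1 2 (.lc 1 2 (.lc 3 0 (.lc 3 9 (.lc 2 2 (.lc 2 2 (.lc 2 2 (.lc 2 2 (.lc 2 2 (.lc 3 0 (.lc 1 0 (.lc 0 2 (.lc 2 2 (.lc 2 2 (.lc 4 9 (.lc 2 0 (.lc 3 2 (.lc 3 2 (.lc 3 2 (.far [1,0,0,1,1] 4096 (.conf [32,146] (.far [1,0,0,1,1] 4096 (.lc 2 0 (.lc 0 0 (.lc 2 0 (.node [137,144] 7 8 (.far [1,4096,257,4096,0,257] 4096 (.lc 3 10 (.lc 0 9 (.lc 1 0 (.lc 3 10 (.lc 4 11 .stop))))))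
 (.lc 3 0 .stop)))))))))))))))))))))))))))
 (.far [1,4096,4112,256] 0 (.far [1,4096,4112,256] 0 (.node [83,120,128] 0 5 (.lc 1 3 (.lc 2 3 (.far [256,0,0,1,1] 4096 .stop)))
 (.conf [37,83] (.node [83,112,133] 7 0 .stop
 (.node [83,121,133] 5 3 (.lc 1 2 (.lc 1 2 (.lc 3 0 (.lc 3 10 (.lc 2 2 (.lc 2 2 (.lc 2 2 (.lc 2 2 (.lc 2 2 (.lc 3 0 (.lc 1 0 (.lc 0 2 (.lc 2 2 (.lc 2 2 (.lc 4 10 (.lc 2 0 (.lc 3 2 (.lc 3 2 (.lc 3 2 (.far [1,0,0,1,1] 4096 (.conf [32,162] (.far [1,0,0,1,1] 4096 (.lc 2 0 (.lc 0 0 (.lc 2 0 (.node [138,160] 9 8 (.far [1,4096,257,4096,0,257] 4096 (.lc 0 7 (.lc 3 11 (.lc 1 0 (.lc 3 11 (.lc 4 12 .stop))))))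
 (.lc 3 0 .stop)))))))))))))))))))))))))))
 .stop))))))))))))
 (.lc 0 0 (.conf [65,101] (.conf [72,101] (.conf [72,101] (.conf [64,101] (.conf [73,101] (.lc 0 0 (.conf [65,101] (.lc 0 0 (.node [65,101,118,135,50] 7 6 (.far [1,4096,4112,256] 0 (.node [83,112] 0 5 (.lc 1 3 (.lc 1 3 (.lc 1 3 (.lc 1 2 (.lc 3 1 (.lc 2 3 (.lc 2 3 (.far [257,257,4096,0,257] 4096 (.lc 3 1 (.lc 3 1 (.lc 4 1 .stop)))))))))))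
 (.node [83,114] 3 2 (.lc 2 0 (.lc 3 9 .stop))
 (.node [83,121] 5 3 (.lc 1 2 (.lc 1 2 (.lc 1 2 (.lc 3 0 (.lc 3 10 (.lc 2 2 (.lc 2 2 (.lc 2 2 (.lc 2 2 (.lc 2 2 (.lc 3 0 (.lc 1 0 (.lc 1 0 (.conf [32,146] (.lc 2 2 (.lc 2 2 (.lc 2 2 (.lc 4 10 (.lc 2 0 (.lc 3 2 (.lc 3 2 (.lc 3 2 (.lc 0 0 (.lc 0 10 (.lc 0 0 (.lc 2 0 (.lc 2 0 (.far [4096,257,4096,0,257] 4096 (.lc 2 0 (.lc 0 10 (.lc 3 0 .stop)))))))))))))))))))))))))))))))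
 (.node [83,112] 0 5 (.lc 1 3 (.lc 2 3 (.far [256,0,0,1,1] 4096 .stop)))
 (.node [83,121] 5 3 (.lc 1 2 (.lc 1 2 (.lc 1 2 (.lc 3 0 (.lc 3 10 (.lc 2 2 (.lc 2 2 (.lc 2 2 (.lc 2 2 (.lc 2 2 (.lc 3 0 (.lc 1 0 (.lc 1 0 (.lc 0 2 (.lc 2 2 (.lc 2 2 (.lc 2 2 (.lc 4 10 (.lc 2 0 (.lc 3 2 (.lc 3 2 (.lc 3 2 (.far [1,0,0,1,1] 4096 (.conf [32,162] (.far [1,0,0,1,1] 4096 (.lc 2 0 (.lc 2 0 (.lc 0 0 (.lc 2 0 (.node [154,160] 7 9 (.far [1,4096,257,4096,0,257] 4096 (.lc 3 11 (.lc 3 6 (.lc 1 0 (.lc 3 11 (.lc 4 12 .stop))))))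
 (.lc 3 0 .stop)))))))))))))))))))))))))))))))
 (.far [1,4096,4112,256] 0 (.far [1,4096,4112,256] 0 (.node [83,121,144] 0 5 (.lc 1 3 (.lc 2 3 (.far [256,0,0,1,1] 4096 .stop)))
 (.conf [37,83] (.node [83,112,149] 7 0 .stop
 (.node [83,122,149] 5 3 (.lc 1 2 (.lc 1 2 (.lc 1 2 (.lc 3 0 (.lc 3 11 (.lc 2 2 (.lc 2 2 (.lc 2 2 (.lc 2 2 (.lc 2 2 (.lc 3 0 (.lc 1 0 (.lc 1 0 (.lc 0 2 (.lc 2 2 (.lc 2 2 (.lc 2 2 (.lc 4 11 (.lc 2 0 (.lc 3 2 (.lc 3 2 (.lc 3 2 (.far [1,0,0,1,1] 4096 (.conf [32,178] (.far [1,0,0,1,1] 4096 (.lc 2 0 (.lc 2 0 (.lc 0 0 (.lc 2 0 (.node [155,176] 10 9 (.far [1,4096,257,4096,0,257] 4096 (.lc 0 7 (.lc 3 12 (.lc 1 0 (.lc 3 12 (.lc 4 13 .stop))))))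
 (.lc 3 0 .stop)))))))))))))))))))))))))))))))
 .stop))))))))))))
 (.lc 0 0 (.node [65,101,118,135,50] 7 6 (.node [83] 5 3 (.lc 1 2 (.lc 1 2 (.lc 1 2 (.lc 1 2 (.far [1,0,0,1,1] 4096 (.lc 0 7 (.conf [32,146] (.lc 2 2 (.lc 2 2 (.lc 2 2 (.lc 2 2 (.lc 2 2 (.lc 2 2 (.lc 2 2 (.lc 2 2 (.lc 2 2 (.lc 2 2 (.lc 2 2 (.lc 2 2 (.lc 2 2 (.lc 2 2 (.lc 2 2 (.far [1,0,0,1,1] 4096 (.lc 1 0 (.lc 1 0 (.lc 1 0 (.lc 3 0 (.lc 3 8 (.lc 3 9 (.lc 2 2 (.lc 2 2 (.lc 2 2 (.lc 2 2 (.lc 2 2 (.lc 2 2 (.lc 2 2 (.lc 0 7 (.node [89,144] 7 5 (.lc 2 9 (.lc 1 9 (.lc 2 3 (.lc 1 0 (.lc 2 9 (.lc 3 10 (.lc 2 9 (.lc 2 3 (.lc 2 3 (.lc 0 9 (.lc 2 9 (.lc 3 3 (.lc 0 10 (.lc 3 9 (.lc 3 3 (.lc 3 3 (.lc 3 3 (.lc 4 3 .stop))))))))))))))))))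
 (.lc 2 0 (.lc 2 0 (.lc 2 0 (.lc 2 0 (.lc 3 2 (.lc 3 2 (.lc 3 2 (.lc 3 2 (.lc 3 2 (.lc 3 2 (.lc 3 2 (.lc 3 2 (.lc 3 2 (.lc 3 2 (.lc 3 2 (.lc 3 2 (.lc 3 2 (.lc 4 8 (.lc 4 9 (.lc 4 9 (.lc 4 8 (.lc 4 10 (.lc 4 8 (.lc 4 9 (.lc 2 0 (.lc 2 0 (.lc 2 0 (.lc 4 8 (.lc 4 9 (.lc 2 0 (.lc 2 0 (.lc 2 0 (.lc 5 9 (.lc 5 8 (.lc 5 10 (.lc 3 0 (.lc 3 0 (.lc 3 0 (.lc 3 0 .stop)))))))))))))))))))))))))))))))))))))))))))))))))))))))))))))))))))))))))))))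
 (.lc 3 0 (.lc 3 2 (.lc 3 9 (.node [83,112] 0 5 (.lc 1 3 (.lc 2 3 (.lc 2 3 (.far [256,0,0,1,1] 4096 .stop))))
 (.node [83,121] 5 3 (.lc 1 2 (.lc 1 2 (.lc 1 2 (.lc 3 0 (.lc 3 8 (.lc 3 10 (.lc 2 2 (.lc 2 2 (.lc 2 2 (.lc 2 2 (.lc 2 2 (.lc 2 2 (.lc 2 2 (.lc 2 2 (.lc 2 2 (.lc 2 2 (.lc 3 0 (.lc 1 0 (.lc 1 0 (.lc 0 2 (.lc 2 2 (.lc 2 2 (.lc 2 2 (.lc 4 8 (.lc 4 10 (.lc 2 0 (.lc 2 0 (.lc 2 0 (.lc 3 2 (.lc 3 2 (.lc 3 2 (.lc 3 2 (.lc 3 2 (.lc 3 2 (.lc 3 2 (.far [1,0,0,1,1] 4096 (.lc 1 7 (.conf [32,162] (.far [1,0,0,1,1] 4096 (.lc 2 0 (.lc 2 0 (.lc 0 0 (.lc 2 0 (.lc 2 0 (.lc 1 7 (.node [154,160] 7 9 (.lc 2 10 (.lc 1 0 (.lc 3 11 (.lc 0 10 (.lc 0 11 .stop)))))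
 (.lc 3 0 (.lc 3 0 (.lc 3 0 .stop)))))))))))))))))))))))))))))))))))))))))))))))))
 (.lc 3 0 (.lc 3 9 (.lc 4 9 (.lc 4 0 (.lc 4 0 (.lc 4 10 .stop))))))))))))
 (.lc 0 0 (.node [65,101,118,135,50] 7 6 (.node [83] 5 3 (.lc 1 2 (.lc 1 2 (.lc 1 2 (.lc 1 2 (.far [1,0,0,1,1] 4096 (.conf [32,146] (.lc 2 2 (.lc 2 2 (.lc 2 2 (.lc 2 2 (.lc 2 2 (.lc 2 2 (.lc 2 2 (.lc 2 2 (.lc 2 2 (.far [1,0,0,1,1] 4096 (.lc 1 0 (.lc 1 0 (.lc 1 0 (.lc 3 0 (.lc 3 8 (.lc 3 9 (.lc 2 2 (.lc 2 2 (.lc 2 2 (.lc 2 2 (.lc 2 2 (.node [89,144] 7 5 (.lc 2 9 (.lc 1 9 (.lc 2 3 (.lc 0 9 (.lc 2 9 (.lc 3 10 (.lc 2 9 (.lc 2 3 (.lc 2 3 (.far [1,4096,257,4096,0,257] 4096 (.lc 2 9 (.lc 3 3 (.lc 2 0 (.lc 3 9 (.lc 3 3 (.lc 3 3 (.lc 3 3 (.lc 4 3 .stop))))))))))))))))))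
 (.lc 2 0 (.lc 2 0 (.lc 3 2 (.lc 3 2 (.lc 3 2 (.lc 3 2 (.lc 4 9 (.lc 4 10 (.lc 4 9 (.lc 2 0 (.lc 2 0 (.lc 4 8 (.lc 4 9 (.lc 2 0 (.lc 2 0 (.lc 5 10 (.lc 3 0 .stop)))))))))))))))))))))))))))))))))))))))))))))
 (.lc 3 0 (.lc 3 2 (.lc 3 9 (.node [83,112] 0 5 (.lc 1 3 (.lc 2 3 (.far [256,0,0,1,1] 4096 .stop)))
 (.node [83,121] 5 3 (.lc 1 2 (.lc 1 2 (.lc 1 2 (.lc 3 0 (.lc 3 10 (.lc 2 2 (.lc 2 2 (.lc 2 2 (.lc 2 2 (.lc 2 2 (.lc 3 0 (.lc 1 0 (.lc 1 0 (.lc 0 2 (.lc 2 2 (.lc 2 2 (.lc 2 2 (.lc 4 10 (.lc 2 0 (.lc 3 2 (.lc 3 2 (.lc 3 2 (.far [1,0,0,1,1] 4096 (.conf [32,162] (.far [1,0,0,1,1] 4096 (.lc 2 0 (.lc 2 0 (.lc 0 0 (.lc 2 0 (.node [154,160] 7 9 (.lc 2 10 (.lc 0 10 (.lc 3 11 (.far [1,4096,257,4096,0,257] 4096 (.lc 2 0 .stop)))))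
 (.lc 3 0 .stop)))))))))))))))))))))))))))))))
 (.lc 3 0 (.lc 3 9 (.lc 4 9 (.lc 4 0 (.lc 4 0 (.lc 4 10 .stop))))))))))))
 (.lc 0 0 (.node [65,101,118,135,152,50] 7 6 (.node [83] 5 3 (.lc 1 2 (.lc 1 2 (.lc 1 2 (.lc 1 2 (.lc 1 2 (.far [1,0,0,1,1] 4096 (.conf [32,162] (.lc 2 2 (.lc 2 2 (.lc 2 2 (.lc 2 2 (.lc 2 2 (.lc 2 2 (.lc 2 2 (.lc 2 2 (.lc 2 2 (.lc 2 2 (.lc 2 2 (.lc 2 2 (.lc 2 2 (.far [1,0,0,1,1] 4096 (.lc 1 0 (.lc 1 0 (.lc 1 0 (.lc 1 0 (.lc 3 0 (.lc 3 8 (.lc 3 9 (.lc 3 10 (.lc 2 2 (.lc 2 2 (.lc 2 2 (.lc 2 2 (.lc 2 2 (.lc 2 2 (.lc 2 2 (.lc 2 2 (.node [90,160] 7 5 (.lc 2 10 (.lc 1 10 (.lc 2 3 (.lc 0 10 (.lc 2 10 (.lc 3 11 (.lc 2 10 (.lc 2 3 (.lc 2 3 (.far [1,4096,257,4096,0,257] 4096 (.lc 2 10 (.lc 3 3 (.lc 2 0 (.lc 3 10 (.lc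 3 3 (.lc 3 3 (.lc 3 3 (.lc 4 3 .stop))))))))))))))))))
 (.lc 2 0 (.lc 2 0 (.lc 2 0 (.lc 3 2 (.lc 3 2 (.lc 3 2 (.lc 3 2 (.lc 3 2 (.lc 3 2 (.lc 3 2 (.lc 3 2 (.lc 4 10 (.lc 4 8 (.lc 4 11 (.lc 4 10 (.lc 2 0 (.lc 2 0 (.lc 2 0 (.lc 2 0 (.lc 4 8 (.lc 4 9 (.lc 4 10 (.lc 2 0 (.lc 2 0 (.lc 2 0 (.lc 2 0 (.lc 5 8 (.lc 5 11 (.lc 3 0 (.lc 3 0 (.lc 3 0 .stop)))))))))))))))))))))))))))))))))))))))))))))))))))))))))))))))))))))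
 (.lc 3 0 (.lc 3 2 (.lc 3 10 (.node [83,112] 0 5 (.lc 1 3 (.lc 2 3 (.far [256,0,0,1,1] 4096 .stop)))
 (.node [83,122] 5 3 (.lc 1 2 (.lc 1 2 (.lc 1 2 (.lc 1 2 (.lc 3 0 (.lc 3 11 (.lc 2 2 (.lc 2 2 (.lc 2 2 (.lc 2 2 (.lc 2 2 (.lc 2 2 (.lc 3 0 (.lc 1 0 (.lc 1 0 (.lc 1 0 (.lc 0 2 (.lc 2 2 (.lc 2 2 (.lc 2 2 (.lc 2 2 (.lc 4 11 (.lc 2 0 (.lc 2 0 (.lc 3 2 (.lc 3 2 (.lc 3 2 (.lc 3 2 (.far [1,0,0,1,1] 4096 (.conf [32,178] (.far [1,0,0,1,1] 4096 (.lc 2 0 (.lc 2 0 (.lc 2 0 (.lc 0 0 (.lc 2 0 (.node [171,176] 7 10 (.lc 2 11 (.lc 0 11 (.lc 3 12 (.far [1,4096,257,4096,0,257] 4096 (.lc 2 0 .stop)))))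
 (.lc 3 0 (.lc 3 0 .stop)))))))))))))))))))))))))))))))))))))))
 (.lc 3 0 (.lc 3 10 (.lc 4 10 (.lc 4 0 (.lc 4 0 (.lc 4 11 .stop))))))))))))
 .stop)))))))))))))))))))))))))))))))
 (.node [50,70,101,70,80] 0 3 (.node [] 4 6 (.lc 1 5 (.lc 2 7 (.node [101,118] 6 5 (.far [4112,4096,0,16,256] 0 (.lc 2 0 (.far [4112,4096,0,16,256] 0 (.lc 2 0 (.lc 3 0 .stop)))))
 (.lc 3 8 (.lc 3 8 (.lc 2 5 (.lc 3 8 (.node [101,118] 7 6 (.node [80] 7 5 (.lc 1 0 (.lc 0 8 (.lc 2 0 (.far [4096,0,1,0,256] 0 (.lc 0 8 (.lc 0 9 .stop))))))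
 (.lc 1 0 (.lc 1 0 (.lc 3 8 (.lc 2 0 .stop)))))
 (.lc 3 8 (.lc 3 8 (.lc 3 8 (.node [101,118,135] 7 6 (.far [1,4112,1,4112,256] 0 (.lc 1 0 (.lc 1 0 (.lc 3 9 (.lc 2 0 .stop)))))
 (.lc 4 9 (.lc 4 9 (.lc 4 9 (.lc 4 9 (.lc 4 9 (.lc 5 10 .stop))))))))))))))))))
 .stop)
 (.node [50,70,83,96,70] 5 3 (.conf [32,82] (.lc 3 7 (.conf [32,114] (.lc 3 7 (.lc 4 8 .stop)))))
 (.node [50,64,83,101] 5 3 (.conf [32,82] (.lc 3 7 (.conf [32,114] (.lc 3 7 (.lc 4 8 .stop)))))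
 (.node [50,71,83,118,71] 5 3 (.conf [32,82] (.lc 3 0 (.lc 3 8 (.node [80] 6 5 (.lc 1 0 (.lc 1 0 (.lc 3 1 (.lc 3 8 (.lc 2 0 (.lc 2 0 (.lc 2 0 (.lc 2 0 (.lc 2 0 (.lc 2 0 (.lc 3 1 (.node [97] 7 6 (.conf [20,113] (.lc 1 4 (.lc 1 4 (.lc 3 8 (.lc 2 4 .stop)))))
 (.node [1,104] 7 6 (.conf [120,128] (.lc 3 1 (.lc 3 9 (.lc 1 0 (.lc 1 0 (.lc 3 1 (.lc 3 9 (.lc 4 9 (.lc 4 1 (.lc 4 10 .stop))))))))))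
 (.lc 2 0 (.lc 2 0 (.lc 2 0 (.lc 4 8 (.lc 3 0 (.lc 3 0 (.lc 3 0 (.lc 3 0 (.node [104,129] 7 6 (.node [120] 7 8 (.lc 2 9 (.lc 3 9 (.lc 0 9 (.lc 3 10 (.lc 1 0 (.lc 0 9 (.lc 0 10 .stop)))))))
 (.lc 3 9 (.lc 1 1 (.lc 3 9 (.lc 4 10 .stop)))))
 (.conf [1,128] (.node [104,129] 7 6 (.node [120] 7 8 (.lc 2 9 (.lc 3 9 (.lc 0 9 (.lc 3 10 (.lc 1 4 (.far [4096,0,4112,4112,256] 17 (.lc 0 9 (.lc 2 4 (.lc 0 10 .stop)))))))))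
 (.lc 3 9 (.lc 1 1 (.lc 3 9 (.lc 4 10 .stop)))))
 (.node [104,129] 7 6 (.node [120,129] 4 7 (.lc 1 8 (.lc 2 9 (.lc 0 0 (.lc 3 9 (.lc 3 10 (.lc 3 10 (.lc 3 9 (.lc 3 9 (.lc 3 10 (.lc 4 10 (.lc 4 11 (.lc 4 10 (.lc 4 10 (.lc 4 10 (.lc 5 11 .stop)))))))))))))))
 (.lc 3 9 (.node [121,129] 4 7 (.lc 1 9 (.lc 2 10 (.lc 3 10 (.lc 3 11 (.lc 3 11 (.lc 1 8 (.lc 3 10 (.lc 3 10 (.lc 3 11 (.lc 4 11 (.lc 4 12 (.lc 4 11 (.lc 4 11 (.lc 4 11 (.lc 5 12 .stop)))))))))))))))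
 (.lc 3 9 (.lc 4 10 .stop)))))
 (.node [105,152,129] 7 6 (.node [121] 7 9 (.lc 2 10 (.lc 3 10 (.lc 0 10 (.lc 3 11 (.lc 3 10 (.lc 0 8 (.lc 0 10 (.lc 4 11 (.lc 0 11 (.lc 0 10 (.lc 0 10 (.lc 0 10 (.lc 0 11 .stop)))))))))))))
 (.lc 3 10 (.lc 1 8 (.lc 3 10 (.lc 4 11 .stop)))))
 .stop))))))))))))))))))))))))))
 (.conf [32,130] (.lc 3 0 (.lc 3 8 (.lc 4 8 (.lc 4 9 .stop)))))))))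
 (.node [50,70,101,80] 0 3 .stop
 (.node [50,83,50,70,96] 0 5 (.lc 1 3 (.node [39,83] 5 3 (.lc 1 2 (.lc 2 2 .stop))
 (.lc 2 3 (.node [83,117] 5 3 (.lc 1 2 (.lc 2 2 .stop))
 (.conf [40,135] .stop)))))
 (.node [50,83,101,50,64] 4 0 .stop
 (.node [50,83,101,50,71] 4 7 (.lc 2 0 (.lc 2 8 (.lc 3 8 (.lc 3 0 (.lc 3 9 (.lc 0 0 (.lc 2 6 (.lc 3 8 (.lc 3 0 (.lc 3 9 (.lc 3 8 (.lc 3 0 (.lc 3 9 (.lc 0 0 (.node [118,135] 7 6 (.far [4112,4096,4112,256] 0 (.lc 2 5 (.lc 2 5 (.lc 2 5 (.far [4112,4096,4112,256] 0 (.far [4112,4096,4112,256] 0 (.lc 2 5 (.lc 2 5 (.lc 3 5 (.lc 3 5 (.lc 3 5 (.lc 3 5 .stop))))))))))))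
 (.lc 0 0 (.lc 2 6 (.lc 4 9 (.lc 4 9 (.lc 4 0 (.lc 4 10 (.lc 0 0 (.lc 3 6 (.lc 0 0 (.node [118,135,152] 7 6 (.far [4112,4096,4112,256] 0 (.lc 2 5 (.lc 2 5 (.lc 2 5 (.far [4112,4096,4112,256] 0 (.far [4112,4096,4112,256] 0 (.lc 2 5 (.lc 2 5 (.lc 3 5 (.lc 3 5 (.lc 3 5 (.lc 3 5 .stop))))))))))))
 (.lc 0 0 (.node [118,135,152] 8 7 (.node [101] 8 6 (.lc 1 5 (.lc 1 5 (.lc 1 5 (.lc 1 3 (.lc 1 3 (.lc 2 5 (.lc 2 5 (.lc 2 5 (.lc 2 5 (.lc 2 5 (.lc 2 5 (.lc 3 0 (.lc 3 2 (.lc 3 10 (.lc 1 3 (.lc 2 5 (.lc 2 5 (.lc 2 5 (.lc 4 10 (.lc 4 0 (.lc 4 0 (.lc 4 11 (.lc 3 5 (.lc 3 5 (.lc 3 5 (.lc 3 5 (.lc 2 3 (.lc 2 3 (.lc 0 0 (.lc 0 2 (.lc 0 10 (.node [83,144] 0 5 (.node [] 1 9 (.far [16,257,1,257,4096,0,257] 4096 (.node [26,144,169] 1 10 .stop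
 (.lc 2 0 (.node [27,144,169,186,169] 1 11 .stop
 (.lc 2 0 (.lc 3 0 .stop))))))
 .stop)
 (.node [83,165,154] 5 3 (.lc 1 2 (.lc 0 2 (.lc 2 2 (.lc 2 2 (.lc 1 0 (.lc 0 0 (.lc 2 0 .stop)))))))
 (.lc 0 10 (.lc 0 0 (.lc 0 0 (.lc 0 11 .stop)))))))))))))))))))))))))))))))))))))
 (.lc 1 5 (.lc 1 5 (.lc 1 5 (.lc 1 5 (.lc 1 5 (.lc 3 0 (.lc 3 10 (.lc 2 5 (.lc 2 5 (.lc 2 5 (.lc 2 5 .stop))))))))))))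
 (.lc 0 0 (.node [118,135,152] 8 7 (.node [101] 8 6 (.lc 1 5 (.lc 1 5 (.lc 1 5 (.lc 1 3 (.lc 1 3 (.lc 2 5 (.lc 2 5 (.lc 2 5 (.lc 2 5 (.lc 2 5 (.lc 2 5 (.lc 3 0 (.lc 3 2 (.lc 3 10 (.lc 1 3 (.lc 2 5 (.lc 2 5 (.lc 2 5 (.lc 4 10 (.lc 4 0 (.lc 4 0 (.lc 4 11 (.lc 3 5 (.lc 3 5 (.lc 3 5 (.lc 3 5 (.lc 2 3 (.lc 2 3 (.node [83,144] 0 5 (.lc 0 2 (.lc 3 1 (.far [257,1,257,4096,0,257] 4096 .stop)))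
 (.node [83,146] 2 5 .stop
 (.node [83,154] 5 3 (.lc 1 2 (.conf [32,162] (.lc 2 2 (.lc 2 2 (.lc 1 0 (.far [4096,1,257,4096,0,257] 4096 (.lc 2 0 .stop)))))))
 (.lc 0 0 (.lc 0 10 (.node [83,154,160] 0 5 (.node [] 9 10 (.lc 0 10 (.lc 0 11 (.lc 0 11 (.lc 0 11 (.lc 0 12 .stop)))))
 .stop)
 (.conf [37,83] (.node [83,144,165] 9 0 (.node [] 5 3 (.lc 1 2 (.lc 0 2 (.lc 2 2 (.lc 1 0 (.lc 2 0 .stop)))))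
 .stop)
 (.node [83,155,165] 5 3 (.lc 1 2 (.lc 0 2 (.lc 2 2 (.lc 2 2 (.lc 1 0 (.lc 0 0 (.lc 2 0 .stop)))))))
 .stop)))))))))))))))))))))))))))))))))))))
 (.lc 1 5 (.lc 1 5 (.lc 1 5 (.lc 1 5 (.lc 1 5 (.lc 3 0 (.lc 3 10 (.lc 2 5 (.lc 2 5 (.lc 2 5 (.lc 2 5 .stop))))))))))))
 (.lc 0 0 (.node [118,135,152,169] 8 7 (.node [101] 8 6 (.lc 1 5 (.lc 1 5 (.lc 1 5 (.lc 1 3 (.lc 1 3 (.lc 2 5 (.lc 2 5 (.lc 2 5 (.lc 2 5 (.lc 2 5 (.lc 2 5 (.lc 3 0 (.lc 3 2 (.lc 3 11 (.lc 1 3 (.lc 2 5 (.lc 2 5 (.lc 2 5 (.lc 4 11 (.lc 4 0 (.lc 4 0 (.lc 4 12 (.lc 3 5 (.lc 3 5 (.lc 3 5 (.lc 3 5 (.lc 2 3 (.lc 2 3 (.node [83,144] 0 5 (.lc 0 2 (.lc 3 1 (.far [257,1,257,4096,0,257] 4096 .stop)))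
 (.node [83,146] 2 5 .stop
 (.node [83,155] 5 3 (.lc 1 2 (.conf [32,178] (.lc 2 2 (.lc 2 2 (.lc 1 0 (.far [4096,1,257,4096,0,257] 4096 (.lc 2 0 .stop)))))))
 (.lc 0 0 (.lc 0 11 (.node [83,155,176] 0 5 (.node [] 10 9 (.node [171] 10 11 (.lc 2 12 (.lc 0 12 (.lc 3 13 (.far [256,0,257,1,257,4096,0,257] 4096 .stop))))
 (.lc 3 12 (.lc 1 0 (.lc 3 12 (.lc 4 13 .stop)))))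
 .stop)
 (.conf [37,83] (.node [83,144,181] 9 0 .stop
 (.node [83,156,181] 5 3 (.lc 1 2 (.lc 0 2 (.lc 2 2 (.lc 2 2 (.lc 1 0 (.lc 0 0 (.lc 2 0 .stop)))))))
 .stop)))))))))))))))))))))))))))))))))))))
 (.lc 1 5 (.lc 1 5 (.lc 1 5 (.lc 1 5 (.lc 1 5 (.lc 3 0 (.lc 3 11 (.lc 2 5 (.lc 2 5 (.lc 2 5 (.lc 2 5 .stop))))))))))))
 .stop)))))))))))))))))))))))))))))))
 (.conf [50,70] (.conf [50,70] (.conf [50,64] (.conf [50,71] (.conf [50,70] (.conf [50,70] (.conf [50,64] (.conf [50,71] (.conf [50,70] (.conf [50,70] (.conf [50,64] (.conf [50,71] (.conf [50,71] (.conf [50,71] (.conf [50,71] (.conf [50,64] (.conf [50,72] .stop)))))))))))))))))))))))))))))))))))))))))))))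

theorem t38 : kNode2 awTt FTt 4 3 (check tyTt awTt triet FTt [s39] c38) (fun _ _ _ => true) 0 s38 Pl.nil s38 =
    true := by
  decide +kernel

end Chk
end Pool.Agent.Lib.MP_ba95e8_co
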