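import Pool.Agent.Lib.MP_ba95e8_co.ChkTab
import Pool.Agent.Lib.MP_ba95e8_co.ChkStates

/-!
Deltahedral domes: part 39 of the case analysis.
-/

namespace Pool.Agent.Lib.MP_ba95e8_co
namespace Chk

/-- certificate number 39 -/
def c39 : Cert := (.node [86] 0 5 (.far [257,1,0,0,257,1] 4096 (.lc 1 0 (.node [86] 5 6 (.node [98] 4 0 (.lc 0 0 (.node [71] 4 7 (.far [4112,4096,4112,4096,0,4096,4112,0,257] 4096 (.far [4096,0,16,0,0,4096,4112,0,257] 4096 (.far [4112,4096,4112,4096,0,4096,4112,0,257] 4096 .stop)))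
 (.far [16,0,257,4096] 0 .stop)))
 (.conf [98,113,80] (.conf [98,120,134] (.far [4112,1,1,4112,0,256] 0 (.far [4112,1,1,4112,0,256] 0 (.far [257,16,16,257,0,4096] 0 (.far [257,16,16,257,0,4096] 0 (.conf [98,120,80] (.conf [98,113,80] (.conf [98,121,80] .stop))))))))))
 (.lc 1 2 (.conf [80,98,118] (.node [86,117,86] 5 6 (.far [257,256,0,257,0,1,1] 4096 (.lc 2 2 (.lc 2 2 (.lc 0 1 (.lc 0 8 (.lc 2 2 (.lc 2 2 (.lc 3 2 (.lc 3 2 (.lc 3 2 .stop))))))))))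
 (.lc 2 0 (.node [86,117,135,86] 5 6 (.far [257,16,16,257,0,4096] 0 (.lc 2 2 (.lc 2 2 (.lc 0 1 (.lc 0 9 (.lc 2 2 (.lc 2 2 (.lc 3 2 (.lc 3 2 (.lc 3 2 .stop))))))))))
 (.node [80,98,118] 7 6 (.node [114] 2 0 (.lc 0 0 .stop)
 (.far [1,1,1,16,256,256] 0 .stop))
 (.lc 1 2 (.lc 2 0 (.node [80,98,118,135,8] 4 0 (.lc 1 8 (.far [16,256,4112,257,0,4096] 0 (.lc 1 7 .stop)))
 .stop))))))))))))
 (.lc 2 1 (.lc 1 3 (.node [86] 1 4 (.lc 2 0 (.node [71,100] 6 4 .stop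
 (.far [1,4112,0,0,4112,256] 0 (.node [71] 4 7 (.far [4112,1,4112,0,0,4112,256] 0 (.conf [117,128,65] (.conf [117,134,65] (.conf [117,137,65] (.far [4112,1,4112,0,0,4112,256] 0 (.far [4112,1,4112,0,0,4112,256] 0 (.node [117,65] 0 7 (.far [257,4112,1,4112,1,4112,4096,257] 4096 (.lc 1 7 .stop))
 (.node [117,151,65] 7 5 (.node [86,112,151] 7 0 (.node [144] 0 5 .stop
 (.lc 0 1 (.lc 0 1 (.lc 0 10 (.far [257,257,257,16,258,16,257,513,4096] 4097 (.lc 0 10 .stop))))))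
 (.node [86,113,151] 7 1 .stop
 (.lc 1 3 (.node [86,122,151] 9 7 (.node [154] 5 6 (.node [98] 9 10 (.node [144,166] 9 0 (.node [128] 0 10 (.lc 1 2 .stop)
 (.far [4112,4112,0,4096,4112,1,0,256] 0 (.lc 0 1 .stop)))
 (.node [145,166] 9 1 (.lc 0 1 .stop)
 (.lc 1 5 (.node [155,166] 8 9 (.node [139] 10 6 (.node [98] 6 2 (.node [178] 8 11 .stop
 (.far [257,16,0,0,16,0,0,0,0,0,4096,4096] 17 .stop))
 (.lc 2 2 (.far [4112,0,1,256,256,256] 0 (.far [4112,0,1,256,256,256] 0 (.lc 3 2 .stop)))))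
 (.lc 1 10 (.lc 1 10 (.lc 1 10 (.lc 3 1 (.lc 1 10 (.far [1,4112,0,4096,4112,1,0,256] 0 (.far [1,4112,0,4096,4112,1,0,256] 0 (.lc 2 10 (.lc 2 10 (.lc 2 10 .stop)))))))))))
 (.lc 2 5 (.lc 2 5 (.lc 3 7 (.lc 0 1 (.lc 3 7 (.node [145,166] 9 1 (.lc 0 1 .stop)
 (.conf [155,176] (.node [144,166,186,166] 9 0 .stop
 (.conf [156,203] (.lc 1 2 (.lc 3 7 (.lc 3 7 (.lc 3 7 (.lc 3 7 (.lc 2 2 (.lc 4 7 (.lc 4 7 (.lc 4 7 (.lc 4 7 (.lc 4 7 (.lc 2 2 (.lc 3 2 .stop))))))))))))))))))))))))))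
 (.conf [98,160,83] (.conf [98,161,83] (.conf [98,134,168] (.conf [98,171,182] (.far [4112,0,1,0,0,1,4112,0,256] 0 (.far [4112,0,1,0,0,1,4112,0,256] 0 (.far [257,0,16,0,0,16,257,0,4096] 0 (.far [257,0,16,0,0,16,257,0,4096] 0 (.conf [98,161,83] (.conf [98,171,83] (.lc 1 9 (.conf [98,160,83] (.conf [98,172,83] .stop))))))))))))))
 (.lc 3 0 (.lc 3 1 (.lc 3 6 (.lc 3 11 (.lc 1 5 (.lc 1 5 (.lc 3 0 (.lc 3 11 (.lc 4 1 (.lc 4 11 (.lc 4 0 (.lc 4 12 .stop)))))))))))))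
 (.lc 2 3 (.lc 2 3 (.conf [116,144] (.lc 2 3 (.conf [116,154] (.node [86,113,151] 7 1 .stop
 (.conf [122,160] (.lc 2 3 (.lc 2 3 (.node [86,112,165,151,86] 7 0 (.lc 0 1 .stop)
 (.conf [123,186] (.lc 2 3 (.lc 2 3 (.lc 2 3 (.lc 2 3 (.node [116,144,137,86] 0 5 (.far [1,1,0,0,1,4112,0,256] 0 (.node [98,166] 9 0 (.lc 0 10 .stop)
 (.lc 1 2 .stop)))
 (.node [116,145,137,86] 1 5 (.node [24,98] 9 1 (.lc 0 1 .stop)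
 .stop)
 (.lc 2 3 (.node [116,154,137,86] 8 9 (.node [138] 10 5 (.far [1,0,1,0,0,1,4112,0,256] 0 (.lc 3 0 (.lc 3 1 (.lc 3 11 (.node [98,160] 0 6 (.far [257,1,1,4096,4096,1,0,4096,4112,0,257] 4096 .stop)
 (.node [98,182] 11 6 (.node [178] 11 2 (.far [1,257,1,1,4096,4096,1,0,4096,4112,0,257] 4096 (.lc 3 2 (.conf [188,192] .stop)))
 (.lc 3 0 (.far [16,16,16,256,256,16,0,257,1,1,4096] 0 (.lc 3 0 (.lc 3 12 (.lc 4 12 .stop))))))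
 (.lc 3 0 (.lc 3 11 (.lc 4 1 (.lc 4 11 (.lc 4 0 (.lc 4 12 .stop))))))))))))
 (.lc 3 0 (.lc 3 6 (.lc 3 11 (.lc 1 5 (.lc 3 1 (.lc 1 5 (.lc 3 0 (.lc 3 11 (.lc 4 11 (.lc 4 0 (.lc 4 12 .stop))))))))))))
 (.lc 3 3 (.lc 3 3 (.lc 3 3 (.lc 3 3 (.node [116,145,24,86] 9 1 (.lc 0 1 .stop)
 (.node [116,154,160,137,86] 0 5 .stop
 (.lc 3 3 (.lc 3 3 (.conf [116,165,86] (.conf [116,165,86] (.lc 3 3 (.lc 3 3 (.lc 3 3 (.lc 3 3 (.lc 3 3 (.lc 3 3 (.lc 3 3 (.lc 4 3 (.lc 4 3 (.lc 4 3 (.lc 4 3 .stop))))))))))))))))))))))))))))))))))))))))))))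
 (.conf [117,137,65] (.conf [117,128,65] (.conf [117,138,65] .stop)))))))))))
 (.lc 3 0 (.lc 2 1 (.lc 3 0 (.node [65,117,103] 6 7 .stop
 (.node [65,117,135] 7 5 (.node [86,112] 7 0 (.far [4112,4112,257,16,0,0,4112,256] 0 (.far [4112,4112,257,16,0,0,4112,256] 0 .stop))
 (.lc 1 3 (.node [86,121] 8 7 (.far [1,4112,257,16,0,0,4112,256] 0 (.lc 1 5 (.lc 1 5 (.lc 1 5 (.lc 1 5 (.lc 1 5 (.far [1,4112,257,16,0,0,4112,256] 0 (.far [1,4112,257,16,0,0,4112,256] 0 (.lc 2 5 (.lc 2 5 (.lc 2 5 .stop)))))))))))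
 (.lc 2 3 (.lc 2 3 (.lc 3 4 (.lc 2 3 (.lc 3 4 (.conf [121,144] (.lc 2 3 (.lc 2 3 (.node [86,112,149,86] 7 0 .stop
 (.conf [122,169] (.lc 2 3 (.lc 2 3 (.lc 2 3 (.lc 3 4 (.lc 2 3 (.lc 3 4 (.lc 3 3 (.lc 3 3 (.lc 3 3 (.lc 4 4 (.lc 3 3 (.lc 3 3 (.lc 4 4 (.lc 4 4 (.lc 3 3 (.lc 3 3 (.lc 3 3 (.lc 3 3 (.lc 3 3 (.lc 3 3 (.lc 4 3 (.lc 4 3 (.lc 4 3 .stop))))))))))))))))))))))))))))))))))))
 (.lc 3 0 (.node [71,104,132,71,104] 6 8 (.far [257,257,0,4096,4112,0,257] 4096 (.lc 2 4 (.conf [83,98] (.lc 2 4 (.lc 0 3 (.lc 2 4 (.lc 3 4 (.lc 3 4 .stop))))))))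
 (.node [71,132,152,71] 8 4 (.node [135] 8 7 (.node [117,128,152] 8 0 (.far [4112,4112,4096,257,4112,0,0,4112,256] 0 (.far [4112,4112,4096,257,4112,0,0,4112,256] 0 .stop))
 (.lc 1 4 (.node [103,134,152] 8 6 .stop
 (.node [117,138,152] 9 8 (.far [1,4112,4096,257,4112,0,0,4112,256] 0 (.lc 1 7 (.lc 1 7 (.lc 1 7 (.lc 1 7 (.lc 1 7 (.far [1,4112,4096,257,4112,0,0,4112,256] 0 (.far [1,4112,4096,257,4112,0,0,4112,256] 0 (.lc 2 7 (.lc 2 7 (.lc 2 7 .stop)))))))))))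
 (.lc 2 5 (.lc 2 5 (.lc 2 5 (.lc 2 5 (.lc 2 5 (.lc 2 5 (.node [132,144,117] 0 7 (.far [257,4096,0,257,0,0,0,0,257] 4096 (.lc 1 7 .stop))
 (.conf [132,167,117] (.conf [138,160] (.lc 2 4 (.node [117,128,167,152] 8 0 .stop
 (.conf [139,186] (.lc 2 5 (.lc 2 5 (.lc 1 7 (.lc 2 5 (.lc 2 5 (.lc 2 5 (.lc 2 5 (.lc 2 5 (.lc 2 5 (.conf [132,144] (.lc 2 4 (.conf [132,150] (.conf [132,154] (.lc 3 5 (.lc 2 7 (.lc 3 5 (.lc 3 5 (.lc 3 5 (.conf [132,154] (.lc 3 4 (.conf [132,144] (.conf [132,155] (.lc 3 5 (.lc 3 5 (.lc 3 5 (.lc 3 5 (.lc 3 5 (.lc 3 5 (.lc 3 5 (.lc 3 5 (.lc 2 7 (.lc 3 5 (.lc 3 5 (.lc 3 5 (.lc 3 5 (.lc 3 5 (.lc 3 5 (.lc 4 5 (.lc 3 7 (.lc 4 5 (.lc 4 5 (.lc 4 5 .stop))))))))))))))))))))))))))))))))))))))))))))))))))))))))))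
 (.lc 1 5 (.lc 1 5 (.lc 1 5 (.lc 1 5 (.lc 1 5 (.lc 3 0 (.lc 3 10 (.lc 2 5 (.lc 2 5 (.lc 2 5 .stop)))))))))))
 (.lc 3 0 (.node [65,117,135] 7 5 (.node [86,112] 7 0 (.node [128] 0 5 .stop
 (.lc 0 9 .stop))
 (.lc 1 3 (.node [86,121] 8 7 (.node [137] 5 6 (.node [98] 8 9 (.node [128,150] 8 0 (.node [] 9 6 (.node [98] 6 2 (.far [8208,8192,4112,4097,0,257,0,257,0,0,16,0,257] 4096 .stop)
 (.lc 2 2 (.lc 2 2 (.lc 2 2 .stop))))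
 .stop)
 (.lc 1 5 (.node [138,150] 9 6 (.node [98] 8 10 (.node [26] 6 2 (.node [162] 10 2 .stop
 (.far [257,0,16,0,16,0,0,0,0,4096,4096] 17 .stop))
 (.lc 2 6 (.lc 2 6 (.far [4112,4112,4096,256,0,16,256,256] 4097 (.far [4112,4112,4096,256,0,16,256,256] 0 (.lc 2 6 (.lc 2 6 (.lc 3 6 (.lc 3 6 .stop)))))))))
 (.lc 2 2 (.far [4112,1,256,256,256] 0 (.far [4112,1,256,256,256] 0 (.lc 3 2 .stop)))))
 (.lc 2 5 (.lc 2 5 (.lc 3 1 (.lc 3 1 (.conf [138,160] (.node [128,150,169,150] 8 0 (.far [4112,4112,0,4096,4112,256,256] 0 .stop)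
 (.conf [139,186] (.lc 1 2 (.lc 3 1 (.lc 3 1 (.lc 3 1 (.lc 3 1 (.lc 2 2 (.lc 4 1 (.lc 4 1 (.lc 4 1 (.lc 4 1 .stop))))))))))))))))))))
 (.conf [98,144,83] (.conf [98,145,83] (.conf [98,154,166] (.far [4112,0,1,0,1,4112,0,256] 0 (.far [4112,0,1,0,1,4112,0,256] 0 (.far [257,0,16,0,16,257,0,4096] 0 (.far [257,0,16,0,16,257,0,4096] 0 (.conf [24,145] (.conf [98,154,83] (.conf [98,144,83] (.conf [98,155,83] .stop))))))))))))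
 (.lc 3 0 (.lc 3 6 (.lc 3 10 (.lc 1 5 (.lc 1 5 (.lc 3 0 (.lc 3 10 (.lc 4 10 (.lc 4 0 (.lc 4 11 .stop)))))))))))
 (.lc 2 3 (.lc 2 3 (.lc 3 4 (.lc 2 3 (.lc 3 4 (.conf [121,144] (.lc 2 3 (.lc 2 3 (.node [86,112,149,86] 7 0 .stop
 (.conf [122,169] (.lc 2 3 (.lc 2 3 (.lc 2 3 (.lc 3 4 (.lc 2 3 (.lc 3 4 (.lc 3 3 (.lc 3 3 (.lc 3 3 (.lc 4 4 (.lc 3 3 (.lc 3 3 (.lc 4 4 (.lc 4 4 (.lc 3 3 (.lc 3 3 (.lc 3 3 (.lc 3 3 (.lc 3 3 (.lc 3 3 (.lc 4 3 (.lc 4 3 (.lc 4 3 .stop))))))))))))))))))))))))))))))))))))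
 (.lc 3 0 (.node [71,132,152,71] 8 4 (.node [135] 9 8 (.node [135,144] 0 8 (.node [117] 9 0 (.node [151] 9 7 .stop
 .stop)
 (.lc 1 5 (.lc 1 5 (.lc 1 7 .stop))))
 (.node [135,150] 6 8 .stop
 (.node [135,154] 8 7 (.node [117] 9 10 (.node [144,167] 9 0 (.node [] 10 7 (.lc 2 0 (.lc 1 4 (.node [103] 6 7 (.lc 0 3 .stop)
 (.node [117,171] 7 5 (.node [86] 10 11 (.node [] 11 5 (.node [182] 11 6 (.lc 2 2 .stop)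
 (.far [16,0,16,0,0,0,0,0,0,0,16,257,0,4096] 0 .stop))
 (.far [1,257,256,0,0,0,0,0,0,1,0,0,257,1] 4096 (.far [257,0,257,0,16,4096,4096] 0 (.lc 2 11 .stop))))
 (.conf [83,98,182] (.lc 2 3 (.far [4112,1,0,0,1,0,256,0,256] 0 (.far [257,16,0,0,16,0,4096,0,4096] 0 (.conf [83,116,188] .stop))))))
 (.lc 1 3 (.conf [116,171,181] (.conf [160,183,11] (.lc 2 4 (.node [117,183,203,117,172] 7 5 (.far [257,16,0,0,16,0,4096,0,4096] 0 (.lc 2 3 (.lc 2 3 (.lc 0 13 (.lc 2 3 (.lc 3 3 .stop))))))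
 (.node [83,98,116] 10 6 (.far [257,257,0,16,4096,4096] 0 (.lc 2 2 (.lc 2 2 (.lc 2 2 .stop))))
 (.node [116,160,5] 0 5 .stop
 (.far [257,0,0,1,0,256,0,257,0,0,257,1] 4096 (.conf [116,171,182] (.lc 2 7 (.conf [98,160,6] .stop)))))))))))))))
 .stop)
 (.node [106,150] 9 6 .stop
 (.lc 1 7 (.node [155,167] 1 9 (.node [27] 10 7 (.node [117,160] 0 7 (.node [86] 0 5 .stop
 (.far [16,16,0,0,16,0,4096,0,4096] 0 .stop))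
 (.lc 1 4 (.node [103] 6 7 (.lc 0 3 .stop)
 (.lc 2 7 (.node [117,172] 7 5 (.node [86] 11 10 (.node [188] 12 5 (.node [98] 11 12 (.node [98] 11 6 .stop
 .stop)
 (.conf [98,182,197] (.far [16,0,16,0,0,0,0,0,0,0,16,257,0,4096] 0 (.far [16,0,16,0,0,0,0,0,0,0,16,257,0,4096] 0 .stop))))
 (.conf [176,197,167] (.conf [182,197,108] (.conf [189,197,220] (.far [16,0,257,0,16,4096,4096] 0 (.far [16,0,257,0,16,4096,4096] 0 (.far [1,0,4112,0,1,256,256] 0 (.far [1,0,4112,0,1,256,256] 0 (.conf [189,197,167] (.conf [176,197,167] (.conf [190,197,167] .stop)))))))))))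
 (.conf [83,98,198] (.far [4112,1,0,0,1,0,256,0,256] 0 (.lc 2 3 (.far [4112,1,0,0,1,0,256,0,256] 0 (.far [257,16,0,0,16,0,4096,0,4096] 0 (.conf [83,116,192] (.conf [83,116,205] .stop))))))))
 (.node [116,160,86] 0 5 .stop
 (.lc 1 3 (.lc 3 7 (.conf [116,172,197] (.node [167,176,117] 0 7 .stop
 (.conf [167,188,199] (.lc 3 7 (.node [117,172,192,172] 0 7 .stop
 (.lc 2 4 (.node [117,160,199,117] 10 0 .stop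
 (.lc 3 7 (.node [117,199,220,117,173] 7 5 (.far [257,16,0,0,16,0,4096,0,4096] 0 (.lc 2 3 (.lc 0 0 (.lc 2 3 (.lc 0 14 (.lc 2 3 (.lc 3 3 (.lc 3 3 .stop))))))))
 (.node [83,98,116] 10 6 (.far [257,257,0,16,4096,4096] 0 (.lc 2 2 (.node [98,176] 11 0 (.node [] 6 2 (.far [8208,0,8192,0,1,4097,0,257,0,257,0,0,16,0,257] 4096 .stop)
 .stop)
 (.node [188,198] 12 6 (.node [194] 11 12 (.node [194] 1 12 .stop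
 (.far [4112,0,4112,4112,256,258,513,512,256,0,256] 4097 .stop))
 (.lc 3 0 (.far [16,256,1,0,16,4096,4096,0,0,0,4096,4096] 17 (.lc 3 0 (.lc 3 13 (.lc 4 13 .stop))))))
 (.lc 3 2 .stop)))))
 (.node [116,167,181] 11 5 (.far [1,257,0,0,0,0,0,0,1,4112,0,256] 0 (.lc 3 1 (.node [98,176] 0 6 (.far [257,1,1,1,4096,4096,1,0,257,0,4096,4112,0,257] 4096 .stop)
 (.node [98,198] 11 12 (.node [198] 12 6 (.node [194] 1 12 .stop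
 (.far [16,8224,8208,16,512,513,256,256,0,0,0,4096,4096] 17 .stop))
 (.lc 2 6 (.far [4112,4096,256,256,256,0,0,0,0,1,4112,0,256] 4097 (.lc 2 6 (.lc 2 6 (.lc 3 6 .stop))))))
 (.lc 4 1 .stop)))))
 (.node [167,176,117] 0 7 (.far [1,1,0,0,1,0,256,0,256] 0 (.node [83,98] 0 6 (.far [258,512,0,16,257,0,257,2,4097,8192,0,16,0,257] 4096 .stop)
 .stop))
 (.lc 2 4 (.node [167,182,103] 6 7 (.lc 0 3 .stop)
 (.node [167,188,199] 12 7 (.far [1,1,0,0,1,0,256,0,256] 0 (.lc 3 6 (.node [83,98] 11 12 (.node [198] 12 6 (.node [194] 1 12 .stop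
 (.far [16,257,4097,258,4096,4096,2,0,512,0,512,4096,4096] 17 .stop))
 (.lc 2 6 (.far [4112,0,4112,256,257,256,256] 4097 (.lc 2 6 (.lc 2 6 (.lc 3 6 .stop))))))
 (.lc 3 0 (.lc 1 3 (.lc 3 13 (.lc 4 0 (.lc 4 13 .stop))))))))
 (.far [16,0,0,16,0,4096,0,4112,257,0,4096] 0 (.lc 4 7 (.conf [116,172,198] (.node [167,188,192,117] 0 7 .stop
 (.lc 3 4 (.conf [167,199,117] (.conf [167,199,117] (.far [4096,0,1,257,256,256,0,256] 0 (.lc 2 3 (.conf [116,197,86] (.conf [83,98,182] (.conf [98,167,182] (.node [98,116,176] 0 6 (.far [257,1,1,4096,4096,1,0,257,0,4096,4112,0,257] 4096 .stop)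
 (.node [98,116,188] 11 12 (.node [198] 12 6 (.node [194] 1 12 .stop
 (.far [16,8224,8208,512,515,770,768,512,0,512,4096,4096] 17 .stop))
 (.lc 2 6 (.far [4112,4096,256,258,514,512,512,0,513,4112,0,256] 4097 (.lc 2 6 (.lc 2 6 (.lc 3 6 .stop))))))
 .stop)))))))))))))))))))))))))))))))))))))
 (.lc 1 10 (.lc 1 10 (.lc 1 10 (.lc 1 10 (.lc 1 10 (.far [1,4112,4112,4096,4112,256] 4097 (.far [1,4112,4112,4096,4112,256] 0 (.lc 2 10 (.lc 2 10 .stop))))))))))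
 (.lc 2 7 (.lc 2 7 (.lc 2 7 (.lc 2 7 (.lc 2 7 (.lc 2 7 (.lc 2 7 (.lc 3 1 (.lc 3 1 (.conf [155,176] (.node [144,167,186] 9 0 (.far [4112,4112,4112,4096,4112,256] 0 .stop)
 (.conf [156,203] (.lc 2 7 (.lc 2 7 (.lc 1 10 (.lc 2 7 (.lc 2 7 (.lc 2 7 (.lc 3 1 (.lc 3 1 (.lc 3 1 (.lc 3 1 (.lc 3 1 (.lc 3 1 (.lc 3 1 (.lc 3 7 (.lc 2 10 (.lc 3 7 (.lc 3 7 (.lc 3 7 (.lc 4 1 (.lc 4 1 (.lc 4 1 (.lc 4 1 (.lc 4 1 (.lc 4 1 (.lc 4 1 (.lc 4 1 (.lc 4 1 (.lc 4 1 (.lc 4 1 (.lc 4 1 (.lc 5 1 (.lc 5 1 .stop))))))))))))))))))))))))))))))))))))))))))))))))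
 (.lc 2 5 (.lc 2 5 (.lc 2 5 (.lc 0 0 (.lc 0 11 (.lc 2 5 (.lc 2 5 (.lc 3 5 (.lc 3 5 (.lc 3 5 .stop)))))))))))
 (.conf [132,144] (.conf [132,154] (.conf [135,150] (.conf [135,154] (.lc 1 8 (.conf [135,144] (.conf [135,150] (.conf [135,155] (.conf [154,160] (.conf [135,168] (.conf [135,168] (.lc 1 5 (.lc 1 5 (.lc 1 5 (.node [132,144,117] 9 0 (.node [] 0 7 (.far [257,16,1] 256 (.lc 1 0 (.node [103] 6 7 (.lc 0 3 .stop)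
 (.node [117] 7 5 (.far [4112,1,0,257,256,0,256] 0 (.conf [83,98,166] (.lc 2 3 (.far [4112,1,0,257,256,0,256] 0 (.node [83,98,112] 10 6 (.node [162] 10 2 (.far [4112,4112,256,256] 0 .stop)
 (.far [1,1,0,0,0,0,0,1,16,256,256] 0 .stop))
 (.conf [83,112,171] .stop))))))
 (.lc 1 3 (.lc 2 0 (.lc 1 7 (.node [117,167,117] 7 5 (.far [257,256,0,0,0,0,1,0,0,257,1] 4096 (.lc 2 3 (.lc 2 3 (.lc 0 11 (.lc 2 3 (.lc 3 3 .stop))))))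
 (.lc 2 0 (.lc 1 7 (.node [117,167,186,117] 7 5 (.node [165] 10 5 (.node [166,186] 10 6 (.node [182] 11 6 (.node [178] 11 2 (.far [4096,1,4096,0,0,257,4112,1,0,257,0,0,16,0,257] 4096 .stop)
 (.lc 3 0 .stop))
 (.lc 2 2 (.lc 0 12 .stop)))
 (.conf [98,182] (.conf [172,198] (.far [1,1,0,0,0,0,0,1,4112,0,256] 0 (.conf [98,188,198] .stop)))))
 (.lc 2 3 (.lc 2 3 (.lc 0 12 (.lc 2 3 (.lc 3 3 .stop))))))
 (.lc 2 0 (.lc 2 0 (.far [257,0,257,256,0,257,16,256,256] 0 (.lc 3 0 (.lc 1 10 (.lc 1 2 .stop)))))))))))))))))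
 .stop)
 (.lc 1 4 (.node [132,150,103] 9 6 .stop
 (.node [132,154,117] 9 10 (.node [26] 10 7 (.node [117,160] 0 7 (.far [1,1,0,257,256,0,256] 0 (.node [83,98,112] 0 6 (.far [257,257,1,4112,1,0,257,0,4096,4112,0,257] 4096 .stop)
 .stop))
 (.lc 2 1 (.lc 1 4 (.node [103] 6 7 (.lc 0 3 .stop)
 (.node [117,171] 7 5 (.far [4112,1,0,257,256,0,256] 0 (.conf [83,98,182] (.far [4112,1,0,257,256,0,256] 0 (.lc 2 3 (.far [4112,1,0,257,256,0,256] 0 (.node [83,98,116] 11 6 (.node [178] 11 2 (.far [1,257,4096,1,4112,1,0,257,0,4096,4112,0,257] 4096 (.lc 3 2 (.node [188,192,188] 10 11 (.far [1,4112,4112,256,256] 0 (.lc 3 1 (.lc 1 0 .stop)))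
 .stop)))
 (.far [257,4096,1,4112,1,0,257,0,4096,4112,0,257] 4096 (.far [16,16,0,0,0,0,0,16,1,4096,4096] 17 (.far [1,1,0,0,0,0,0,1,16,256,256] 0 (.far [1,1,0,0,0,0,0,1,16,256,256] 0 (.node [188,192] 10 11 (.far [1,8208,256,256,0,0,0,0,0,256,256] 17 (.lc 3 1 (.lc 1 0 .stop)))
 .stop))))))
 (.conf [83,116,176] (.conf [83,116,188] .stop))))))))
 (.lc 2 4 (.lc 1 3 (.lc 2 4 (.lc 3 6 (.lc 3 11 (.lc 2 4 (.lc 1 7 (.lc 3 0 (.lc 3 6 (.lc 3 12 (.lc 3 1 (.node [117,171,176] 0 7 .stop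
 (.lc 2 4 (.node [117,160,183,117] 7 5 (.node [181] 0 11 (.far [257,4112,1,4112,1,0,257,16,1,4112,4096,257] 4096 (.lc 1 11 .stop))
 (.lc 2 3 (.lc 2 3 (.lc 0 12 (.lc 2 3 (.lc 3 3 .stop))))))
 (.node [117,183,203,117] 7 5 (.node [181] 11 5 (.node [182,203] 11 6 (.node [198] 12 6 (.node [194] 12 2 .stop
 (.far [16,16,4096,0,0,0,0,0,0,0,4096,4096] 17 .stop))
 (.lc 2 2 (.lc 0 0 (.lc 0 13 (.lc 3 2 .stop)))))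
 (.conf [98,198] (.far [16,16,0,0,0,0,0,16,257,0,4096] 0 (.conf [189,214] (.far [1,1,0,0,0,0,0,1,4112,0,256] 0 (.conf [98,181,83] (.conf [98,205,214] .stop)))))))
 (.lc 2 3 (.lc 0 0 (.lc 2 3 (.lc 0 13 (.lc 2 3 (.lc 3 3 (.lc 3 3 .stop))))))))
 (.lc 2 4 (.lc 2 4 (.lc 1 3 (.lc 2 4 (.lc 3 11 (.lc 3 0 (.lc 2 4 (.lc 1 3 (.lc 2 4 (.lc 3 0 (.lc 3 11 (.lc 3 0 (.lc 3 12 (.lc 3 4 (.lc 3 4 (.lc 4 12 (.lc 3 4 (.lc 3 4 (.lc 2 7 (.lc 4 12 (.lc 4 0 (.lc 4 13 (.lc 3 4 (.lc 2 3 (.lc 2 3 (.lc 3 4 (.lc 3 4 (.lc 3 4 (.lc 3 4 (.lc 3 4 (.lc 3 4 (.lc 4 4 (.lc 4 4 (.lc 4 4 .stop))))))))))))))))))))))))))))))))))))))))))))))))))))))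
 (.lc 2 7 (.lc 2 7 (.lc 2 7 (.far [4112,4096,4112,256] 4097 (.conf [167,186] (.lc 2 7 (.lc 2 7 (.lc 3 7 (.lc 3 7 .stop))))))))))
 (.conf [135,154] (.conf [135,144] (.conf [98,150] (.conf [135,144] (.conf [135,154] (.conf [135,144] (.conf [135,155] (.lc 2 5 (.lc 2 5 (.lc 2 5 (.conf [135,155] (.lc 2 8 (.conf [135,155] (.conf [135,144] (.conf [135,156] (.node [132,154,160,117] 0 7 (.far [257,1,1,1,4112,1,4112,4096,257] 4096 (.lc 1 7 .stop))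
 (.lc 2 4 (.conf [132,167,117] (.conf [132,167,117] (.lc 2 5 (.lc 2 5 (.lc 2 5 (.lc 2 5 (.lc 2 5 (.lc 2 5 (.lc 2 5 (.lc 2 5 (.lc 1 7 (.lc 2 5 (.lc 2 5 (.lc 2 5 (.lc 3 5 (.lc 2 7 (.lc 3 5 (.lc 3 5 (.lc 3 5 .stop)))))))))))))))))))))))))))))))))))))))))))))))))))))))))
 (.lc 1 5 (.lc 1 5 (.lc 1 5 (.lc 1 5 (.lc 1 5 (.lc 3 0 (.lc 3 10 (.lc 2 5 (.lc 2 5 (.lc 2 5 .stop)))))))))))
 (.lc 3 0 (.lc 2 1 (.lc 2 1 (.lc 3 0 (.lc 2 1 (.lc 2 1 (.lc 3 0 (.node [71,100,134,100] 6 4 .stop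
 (.lc 3 0 (.conf [65,117,135] (.lc 3 0 (.node [71,152,132] 8 4 (.far [1,1,4112,0,0,4112,256] 0 (.conf [117,128,65] (.conf [103,134] (.conf [117,138,65] (.node [117,65] 0 7 (.far [257,1,1,4112,1,4112,4096,257] 4096 (.lc 1 7 .stop))
 (.node [117,167,65] 7 5 (.node [86,112,167] 7 0 (.far [4112,4112,1,1,4128,1,4112,8208,256] 0 (.lc 0 1 (.lc 0 11 (.lc 0 9 .stop))))
 (.lc 1 3 (.node [121,149,152,167] 7 9 .stop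
 (.node [86,123,167] 10 7 (.far [1,4112,1,1,4128,1,4112,8208,256] 0 (.lc 3 0 (.lc 3 6 (.lc 3 9 (.lc 3 12 (.lc 1 5 (.lc 1 5 (.lc 3 0 (.lc 3 12 (.lc 4 12 (.lc 4 0 (.lc 4 13 .stop))))))))))))
 (.lc 2 3 (.lc 2 3 (.conf [116,160] (.lc 2 3 (.conf [116,171] (.conf [123,176] (.lc 2 3 (.lc 2 3 (.node [86,112,181,167,86] 7 0 .stop
 (.conf [124,203] (.lc 2 3 (.lc 2 3 (.lc 2 3 (.lc 2 3 (.node [116,160,138,152,86] 0 5 (.far [1,1,0,0,1,4112,0,256] 0 (.node [98,182] 10 0 (.lc 0 11 .stop)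
 (.lc 1 2 .stop)))
 (.lc 2 3 (.conf [149,169] (.node [116,171,138,152,86] 8 10 (.node [139] 11 5 (.far [1,0,1,0,0,1,4112,0,256] 0 (.lc 3 0 (.lc 3 9 (.lc 3 12 (.node [98,176] 0 6 (.far [257,1,1,4096,257,1,0,4096,4112,0,257] 4096 .stop)
 (.node [98,198] 12 6 (.far [1,1,1,4096,257,1,0,4112,16,16,256] 0 (.lc 3 0 (.node [192] 11 12 (.lc 2 5 (.node [152,185,192] 11 9 (.lc 0 4 .stop)
 (.node [189,192] 8 11 (.node [141] 8 13 (.far [4112,4096,4112,0,4096,0,0,0,257,0,4096,4112,0,257] 4096 (.lc 0 14 (.lc 0 14 (.lc 2 12 (.lc 0 15 .stop)))))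
 (.lc 3 4 (.lc 3 4 (.lc 1 12 (.lc 3 4 (.lc 4 4 .stop))))))
 (.lc 2 0 (.lc 0 4 (.lc 3 5 (.lc 0 4 (.conf [192,220] (.lc 2 0 (.lc 3 5 (.lc 0 4 (.lc 3 0 (.lc 0 4 (.lc 0 4 .stop))))))))))))))
 (.lc 3 0 (.lc 3 13 (.lc 4 13 .stop))))))
 (.lc 3 0 (.lc 3 12 (.lc 4 12 (.lc 4 0 (.lc 4 13 .stop)))))))))))
 (.lc 3 0 (.lc 3 6 (.lc 3 12 (.lc 1 5 (.lc 3 4 (.lc 1 5 (.lc 3 0 (.lc 3 12 (.lc 4 12 (.lc 4 0 (.lc 4 13 .stop))))))))))))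
 (.lc 3 3 (.lc 3 3 (.lc 3 3 (.node [116,171,176,138,152,86] 0 5 .stop
 (.lc 3 3 (.lc 3 3 (.conf [116,181,86] (.conf [116,181,86] (.lc 3 3 (.lc 3 3 (.lc 3 3 (.lc 3 3 (.lc 3 3 (.lc 3 3 (.lc 3 3 (.lc 4 3 (.lc 4 3 (.lc 4 3 .stop))))))))))))))))))))))))))))))))))))))))
 (.far [1,1,4112,0,0,4112,256] 0 (.far [1,1,4112,0,0,4112,256] 0 (.conf [117,138,65] (.conf [117,128,65] (.conf [117,139,65] .stop)))))))))))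
 (.lc 4 0 (.lc 3 1 (.lc 4 0 (.node [65,117,135,152] 7 5 (.node [86,112] 7 0 (.far [4112,4112,1,4128,1,4112,8208,256] 0 (.lc 0 10 .stop))
 (.lc 1 3 (.node [86,122] 8 7 (.far [1,4112,1,4128,1,4112,8208,256] 0 (.lc 3 0 (.lc 3 6 (.lc 3 11 (.lc 1 5 (.lc 1 5 (.lc 3 0 (.lc 3 11 (.lc 4 11 (.lc 4 0 (.lc 4 12 .stop)))))))))))
 (.lc 2 3 (.lc 2 3 (.lc 3 4 (.lc 2 3 (.lc 3 4 (.conf [122,160] (.lc 2 3 (.lc 2 3 (.node [86,112,165,86] 7 0 .stop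
 (.conf [123,186] (.lc 2 3 (.lc 2 3 (.lc 2 3 (.lc 3 4 (.lc 2 3 (.lc 3 4 (.lc 3 3 (.lc 3 3 (.lc 3 3 (.lc 4 4 (.lc 3 3 (.lc 3 3 (.lc 4 4 (.lc 4 4 (.lc 3 3 (.lc 3 3 (.lc 3 3 (.lc 3 3 (.lc 3 3 (.lc 3 3 (.lc 4 3 (.lc 4 3 (.lc 4 3 .stop))))))))))))))))))))))))))))))))))))
 (.lc 4 0 (.node [71,132,152,169,71] 8 4 (.node [135] 9 8 (.node [135,144,169] 0 8 (.far [1,1,4097,1,8224,1,4112,8208,256] 0 (.lc 1 5 (.lc 1 5 (.lc 1 7 .stop))))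
 (.node [135,150,169] 6 8 .stop
 (.node [135,155,169] 8 7 (.far [4112,1,4097,1,8224,1,4112,8208,256] 0 (.lc 2 5 (.lc 2 5 (.lc 2 5 (.lc 0 0 (.lc 0 12 (.lc 2 5 (.lc 2 5 (.lc 3 5 (.lc 3 5 (.lc 3 5 .stop)))))))))))
 (.conf [132,144] (.conf [132,155] (.conf [135,150] (.conf [135,155] (.lc 1 8 (.conf [135,144] (.conf [135,150] (.conf [135,156] (.conf [155,176] (.conf [135,184] (.conf [135,184] (.lc 1 5 (.lc 1 5 (.lc 1 5 (.node [132,144,169,117] 9 0 (.far [257,256,257,4096] 0 (.lc 0 11 .stop))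
 (.lc 1 4 (.node [132,150,169,103] 9 6 .stop
 (.node [132,155,169,117] 10 9 (.conf [171,183] (.lc 3 0 (.lc 3 6 (.lc 3 12 (.lc 1 7 (.lc 1 7 (.lc 3 0 (.lc 3 12 (.lc 4 12 (.lc 4 0 (.lc 4 13 .stop)))))))))))
 (.conf [135,155] (.conf [135,144] (.conf [98,150] (.conf [135,144] (.conf [135,155] (.conf [135,144] (.conf [135,156] (.lc 2 5 (.lc 2 5 (.lc 2 5 (.conf [135,156] (.lc 2 8 (.conf [135,156] (.conf [135,144] (.conf [135,157] (.node [132,155,176,169,117] 0 7 (.far [257,1,1,1,4112,1,4112,4096,257] 4096 (.lc 1 7 .stop))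
 (.lc 2 4 (.conf [132,183,117] (.conf [132,183,117] (.lc 2 5 (.lc 2 5 (.lc 2 5 (.lc 2 5 (.lc 2 5 (.lc 2 5 (.lc 2 5 (.lc 2 5 (.lc 1 7 (.lc 2 5 (.lc 2 5 (.lc 2 5 (.lc 3 5 (.lc 2 7 (.lc 3 5 (.lc 3 5 (.lc 3 5 .stop)))))))))))))))))))))))))))))))))))))))))))))))))))))))))
 (.lc 1 5 (.lc 1 5 (.lc 1 5 (.lc 1 5 (.lc 1 5 (.lc 3 0 (.lc 3 11 (.lc 2 5 (.lc 2 5 (.lc 2 5 .stop)))))))))))
 (.lc 4 0 (.lc 3 1 (.lc 4 0 (.lc 3 1 (.lc 4 0 (.lc 3 1 (.lc 4 0 (.lc 3 1 (.lc 3 1 (.lc 5 0 (.lc 4 1 .stop)))))))))))))))))))))))))))))))))))))))))))))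
 (.lc 0 0 (.lc 2 6 (.lc 2 6 (.lc 3 1 (.lc 2 6 (.lc 3 7 (.lc 3 0 (.lc 3 7 (.lc 3 0 (.lc 3 8 (.lc 0 0 (.node [86,112] 0 5 (.node [86] 2 5 (.lc 0 2 .stop)
 (.lc 1 2 .stop))
 (.lc 2 3 (.lc 3 1 (.lc 2 3 (.node [86,117] 0 7 (.node [117] 2 7 (.far [4112,16,16,1,4096,4096] 0 (.lc 0 8 (.lc 0 2 .stop)))
 (.far [16,16,1,4096,4096] 0 (.lc 1 7 (.lc 1 7 (.node [117,135] 7 5 (.conf [86,133] (.lc 2 3 (.lc 0 1 (.lc 2 3 (.lc 0 9 (.lc 2 3 (.lc 3 3 (.lc 3 3 .stop))))))))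
 (.lc 1 8 .stop))))))
 (.lc 3 1 (.node [86,117,135] 7 5 (.node [86,112] 0 5 (.far [16,16,16,257,0,4096] 0 (.far [16,16,16,257,0,4096] 0 (.lc 1 2 .stop)))
 (.node [86,113] 1 5 (.far [16,16,16,257,0,4096] 0 (.node [98] 1 4 .stop
 (.far [16,16,16,257,0,4096] 0 (.far [16,16,16,257,0,4096] 0 (.node [98] 1 4 .stop
 (.node [98,150] 9 6 (.far [16,4112,16,16,1,4096,4096] 0 (.lc 3 10 .stop))
 .stop))))))
 (.lc 1 3 (.node [86,121] 9 5 (.far [16,16,16,257,0,4096] 0 (.lc 3 0 (.lc 3 1 (.lc 3 10 (.far [16,16,16,257,0,4096] 0 (.far [16,16,16,257,0,4096] 0 (.far [16,16,16,257,0,4096] 0 (.lc 3 0 (.lc 3 1 (.lc 3 10 (.lc 4 1 (.lc 4 10 (.lc 4 10 (.lc 4 0 (.lc 4 1 (.lc 4 11 .stop))))))))))))))))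
 (.node [83,98,112,135] 0 6 (.lc 1 0 .stop)
 (.node [83,98,113,135] 1 4 (.far [257,0,0,0,0,0,257] 16 (.lc 2 1 (.lc 1 7 (.conf [72,148] (.lc 2 1 (.lc 3 1 .stop))))))
 (.conf [83,98,150] (.lc 3 1 (.lc 3 9 (.lc 3 9 (.lc 2 3 (.lc 2 3 (.lc 2 3 (.lc 3 0 (.lc 3 1 (.lc 3 10 (.node [86,113] 0 5 (.far [16,16,16,257,0,4096] 4097 (.far [16,16,16,257,0,4096] 4097 (.lc 1 2 .stop)))
 (.node [86,121,144,121,135] 0 5 .stop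
 (.node [86,121,145,121,135] 1 5 (.lc 3 4 .stop)
 (.lc 2 3 (.lc 2 3 (.lc 2 3 (.conf [86,149] (.conf [86,149] (.conf [86,149] (.node [83,98,112,135] 0 6 (.far [16,16,16,1,4096,4096] 0 .stop)
 (.node [83,98,113,135] 1 6 .stop
 (.node [83,98,121,135] 9 6 (.far [16,16,16,1,4096,4096] 0 (.node [144] 7 9 (.node [113,144] 7 1 (.far [257,257,0,257,16,257,0,4096] 0 (.lc 0 10 .stop))
 (.node [122,144] 8 7 (.far [16,257,0,257,16,257,0,4096] 0 (.lc 3 0 (.lc 3 1 (.lc 3 11 (.lc 1 9 (.lc 1 9 (.lc 3 1 (.lc 3 11 (.lc 4 1 (.lc 4 11 (.lc 4 1 (.lc 4 12 .stop))))))))))))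
 (.lc 2 0 (.lc 2 0 (.lc 3 5 (.lc 3 5 (.conf [122,161] (.conf [144,169] (.conf [144,169] (.lc 2 0 (.lc 2 0 (.lc 3 5 (.lc 3 5 (.lc 3 5 (.lc 3 0 (.lc 3 0 (.lc 4 5 (.lc 4 5 (.lc 4 5 (.lc 4 5 (.lc 4 5 (.lc 4 5 (.lc 4 5 (.lc 4 5 (.lc 4 5 (.lc 5 5 (.lc 5 5 .stop)))))))))))))))))))))))))))
 (.far [16,16,16,1,4096,4096] 17 (.node [144] 7 9 (.node [113,144] 7 1 (.far [257,257,0,257,16,257,0,4096] 0 (.lc 0 10 .stop))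
 (.node [122,144] 8 7 (.far [16,257,0,257,16,257,0,4096] 0 (.lc 3 1 (.lc 3 11 (.lc 1 9 (.lc 1 9 (.lc 3 1 (.lc 3 11 (.lc 4 11 (.lc 4 1 (.lc 4 12 .stop))))))))))
 (.lc 2 0 (.lc 2 0 (.lc 3 5 (.lc 3 5 (.conf [122,161] (.conf [144,169] (.conf [144,169] (.lc 2 0 (.lc 3 5 (.lc 3 5 (.lc 3 5 (.lc 3 0 (.lc 4 5 (.lc 4 5 (.lc 4 5 (.lc 4 5 (.lc 4 5 (.lc 4 5 (.lc 4 5 (.lc 5 5 .stop))))))))))))))))))))))
 (.node [154,162] 10 2 (.node [160] 9 10 (.node [145,160] 9 1 (.far [4112,4112,0,1,258,0,256,256] 0 (.lc 0 5 .stop))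
 (.node [152,160] 9 8 .stop
 (.node [155,160] 7 9 (.far [1,4112,0,1,258,0,256,256] 0 (.lc 3 5 (.lc 1 10 (.lc 1 10 (.lc 3 5 (.lc 4 5 (.lc 4 5 .stop)))))))
 (.lc 2 0 (.lc 2 0 (.lc 3 6 (.lc 3 6 (.conf [155,177] (.conf [160,186] (.conf [160,186] (.lc 2 0 (.lc 2 0 (.lc 2 0 (.lc 3 6 (.lc 0 5 (.lc 3 0 (.lc 3 0 (.lc 0 5 (.lc 0 5 (.lc 0 5 (.lc 0 5 (.lc 4 6 (.lc 4 6 (.lc 0 5 (.lc 0 5 .stop)))))))))))))))))))))))))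
 (.lc 3 8 (.lc 3 11 (.conf [171,176] (.lc 3 11 (.lc 4 12 .stop))))))
 (.node [154,160] 7 9 (.node [113,154] 7 1 (.far [257,257,0,257,16,257,0,4096] 0 (.lc 0 11 .stop))
 (.node [123,154] 9 10 (.far [4112,1,8208,256,0,256,256] 17 (.lc 2 0 (.lc 2 0 (.lc 2 0 (.lc 0 1 (.lc 0 12 (.lc 2 0 (.lc 2 0 (.lc 3 0 (.lc 3 0 (.lc 3 0 .stop)))))))))))
 (.lc 2 6 (.lc 2 6 (.lc 3 5 (.lc 3 5 (.conf [123,177] (.conf [154,185] (.conf [154,185] (.lc 2 6 (.lc 2 6 (.lc 3 5 (.lc 3 5 (.lc 3 5 (.lc 3 6 (.lc 3 6 (.lc 3 6 (.lc 4 5 (.lc 4 5 (.lc 4 5 (.lc 4 5 (.lc 4 5 (.lc 4 5 (.lc 4 5 (.lc 4 5 (.lc 4 5 (.lc 5 5 (.lc 5 5 (.lc 5 5 .stop)))))))))))))))))))))))))))))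
 .stop))))))
 (.lc 3 0 (.lc 3 1 (.lc 1 2 (.lc 3 9 (.lc 3 1 (.lc 3 9 (.lc 3 9 (.lc 3 0 (.lc 2 3 (.lc 2 3 (.lc 2 3 (.lc 3 0 (.lc 3 1 (.lc 3 10 (.node [83,98,113,135] 6 2 (.far [257,16,16,1,4096,4096] 4097 .stop)
 (.conf [83,121,144] (.conf [83,121,145] (.node [83,98,112,150,135] 7 0 (.far [1,256,0,257,0,1,1] 16 (.lc 3 0 (.conf [122,161] (.lc 3 0 (.lc 4 0 .stop)))))
 (.node [83,98,113,150,135] 1 4 (.far [257,0,0,0,0,0,257] 16 (.lc 2 1 (.lc 1 7 (.conf [72,164] (.lc 2 1 (.lc 3 1 .stop))))))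
 (.conf [83,122,169] (.lc 4 9 (.lc 4 10 (.lc 4 10 (.lc 3 3 (.lc 3 3 (.lc 3 3 (.lc 3 3 (.lc 3 3 (.lc 3 3 (.lc 4 1 (.lc 4 10 (.lc 4 10 (.lc 4 0 (.lc 4 1 (.lc 4 11 (.lc 4 1 (.lc 4 9 (.lc 4 9 (.lc 2 2 (.lc 4 0 (.lc 4 1 (.lc 4 10 (.lc 4 1 (.lc 4 9 (.lc 4 9 (.lc 4 0 (.lc 4 1 (.lc 4 10 (.lc 4 1 (.lc 4 9 (.lc 4 9 (.lc 4 0 (.lc 4 1 (.lc 4 10 (.lc 5 9 (.lc 5 10 (.lc 5 10 (.lc 5 1 (.lc 5 10 (.lc 5 10 (.lc 5 0 (.lc 5 1 (.lc 5 11 .stop)))))))))))))))))))))))))))))))))))))))))))))))))))))))))))))))))))))))))))))))))))))))))))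
 (.lc 0 0 (.lc 2 6 (.lc 2 6 (.lc 3 1 (.lc 2 6 (.lc 3 7 (.lc 3 0 (.lc 3 8 (.lc 3 7 (.lc 3 0 (.lc 3 7 (.lc 3 0 (.lc 3 8 (.lc 3 6 (.lc 0 0 (.lc 3 6 (.lc 3 6 (.lc 4 1 (.lc 3 6 (.lc 4 8 (.lc 4 7 (.lc 4 0 (.lc 4 8 (.lc 4 8 (.lc 4 0 (.lc 4 9 (.lc 4 8 (.lc 4 8 (.lc 4 0 (.lc 4 9 (.lc 4 8 (.lc 4 8 (.lc 4 0 (.lc 4 9 (.lc 4 8 (.lc 4 8 (.lc 4 0 (.lc 4 9 (.lc 5 9 (.lc 5 9 (.lc 5 9 (.lc 5 0 (.lc 5 10 .stop)))))))))))))))))))))))))))))))))))))))))))))))))))))))))))))))))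

theorem t39 : kNode2 awTt FTt 4 5 (check tyTt awTt triet FTt [] c39) (fun _ _ _ => true) 0 s39 Pl.nil s39 =
    true := by
  decide +kernel

end Chk
end Pool.Agent.Lib.MP_ba95e8_co
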