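import Pool.Agent.Lib.MP_ba95e8_co.ChkTab
import Pool.Agent.Lib.MP_ba95e8_co.ChkStates

/-!
Deltahedral domes: part 4 of the case analysis.
-/

namespace Pool.Agent.Lib.MP_ba95e8_co
namespace Chk

/-- certificate number 4 -/
def c4 : Cert := (.node [] 0 4 (.far [257,1,4112,4096,0,257] 4096 (.node [66] 5 0 (.node [] 6 4 (.node [] 6 2 (.lc 2 0 (.node [] 2 0 .stop
 (.conf [104,114,135] (.node [114,135,32,104] 7 2 .stop
 (.node [104,135,32] 6 8 .stop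
 (.conf [105,114,32] .stop))))))
 (.node [32,103,114,64] 7 2 .stop
 (.far [16,0,16,16,0,16,4096] 0 (.far [1,0,1,1,0,1,256] 0 (.node [32,104,114,135,64,104,114] 7 2 .stop
 .stop)))))
 (.node [86] 5 6 (.node [] 6 4 (.node [98] 6 2 .stop
 (.far [16,0,0,16,16,0,16,4096] 0 .stop))
 (.node [23,100,118,80] 6 4 (.far [4112,4096,0,16,16,1,256] 0 .stop)
 (.far [4112,4112,0,4112,1,256] 0 (.far [257,257,0,257,16,4096] 0 (.node [24,100,118,135,80] 6 4 (.lc 0 2 .stop)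
 .stop)))))
 (.far [16,257,4096] 0 .stop)))
 (.node [66,100,118,66] 6 4 (.far [16,16,16,0,16,4096] 0 (.lc 3 8 (.conf [32,104,130] (.lc 3 8 (.lc 4 9 .stop)))))
 .stop)))
 (.node [81,49,66] 1 4 (.lc 1 2 (.lc 1 2 (.lc 2 2 (.lc 2 2 (.lc 2 2 (.lc 2 2 (.lc 3 2 .stop)))))))
 (.node [66,82,49] 5 2 (.lc 2 0 (.lc 2 6 (.lc 3 6 (.lc 3 6 (.lc 3 7 (.lc 3 6 (.lc 4 7 .stop)))))))
 (.node [] 5 6 (.node [80] 5 0 (.node [] 6 4 (.lc 2 0 (.node [] 6 2 (.far [4096,0,4112,4096,0,4096,0,0,257] 4096 (.node [103] 6 7 (.node [] 7 2 (.lc 2 0 .stop)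
 (.far [257,257,257,0,16,4096] 0 .stop))
 (.node [104,135,104,114] 6 8 (.far [4112,4112,4112,0,1,256] 0 (.lc 2 7 .stop))
 .stop)))
 (.node [66] 7 4 (.node [] 6 7 (.node [] 7 2 (.far [4096,4096,0,0,4112,4096,0,4096,0,0,257] 4096 (.node [120] 0 7 .stop
 (.node [121,152,121,130] 7 9 .stop
 .stop)))
 (.lc 1 2 (.node [104] 6 8 (.node [] 8 7 (.node [] 8 2 (.far [4096,0,4096,0,0,0,4112,4096,0,4096,0,0,257] 4096 .stop)
 (.node [114] 7 2 (.node [] 9 2 .stop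
 (.far [4112,1,0,1,4112,256] 0 .stop))
 (.conf [114,137,146] (.conf [138,151,169] (.node [114,151,169,114,138] 9 7 (.far [16,16,0,16,257,4096] 0 (.lc 3 11 .stop))
 (.lc 3 0 (.node [114,137,32] 8 9 .stop
 (.far [1,0,1,4112,256] 0 (.node [138,169,114] 8 10 .stop
 (.conf [139,151,114] (.conf [114,146,32] .stop)))))))))))
 (.far [1,257,0,257,4112,4112,4096,4096,0,0,257] 4096 (.far [257,257,0,257,0,16,4096] 0 .stop)))
 (.conf [114,135,152] (.lc 2 2 (.conf [96,114,135] (.lc 2 2 (.node [105,152,105,114,135] 6 9 (.far [4112,4112,0,4112,0,1,256] 0 (.lc 2 8 (.lc 2 8 .stop)))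
 (.far [257,0,257,0,16,4096] 0 (.node [114,135,105] 8 7 (.node [130] 6 9 (.far [257,0,257,0,257,0,16,4096] 0 (.lc 2 8 .stop))
 (.lc 3 0 (.lc 3 10 .stop)))
 (.node [96,114,8] 8 7 (.node [130] 8 2 (.lc 2 0 .stop)
 (.far [1,4096,4112,16,0,1,256] 0 .stop))
 (.lc 2 2 (.conf [114,169,106] (.conf [96,152,9] .stop))))))))))))))
 (.far [257,1,4112,4112,4096,4096,0,0,257] 4096 (.node [32,120,130,66,103] 8 2 (.far [1,257,1,4112,4112,4096,4096,0,0,257] 4096 (.lc 3 6 (.lc 3 9 .stop)))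
 (.far [16,16,0,0,16,0,16,4096] 0 (.far [1,1,0,0,1,0,1,256] 0 (.node [32,121,130,152,66,121,130,103] 8 2 (.node [128] 6 7 (.node [106,121] 7 9 (.far [4112,1,0,4096,257,0,0,1,0,1,256] 0 (.lc 2 8 (.lc 0 11 (.lc 2 8 (.lc 3 8 .stop)))))
 (.lc 2 4 (.conf [121,167] (.lc 2 4 (.lc 3 4 .stop)))))
 (.lc 3 6 (.lc 3 10 .stop)))
 .stop))))))
 (.lc 3 0 (.conf [66,103,114] (.node [103,114,66,49] 6 7 (.node [114] 7 2 (.lc 2 0 .stop)
 (.far [257,256,0,16,4112,0,16,4096] 0 .stop))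
 (.conf [104,116,135] (.lc 3 0 (.conf [114,103,66,49,80] (.node [66,116,135,66,104] 7 4 (.far [16,16,0,0,16,0,16,4096] 0 (.lc 3 0 (.lc 3 9 (.conf [32,121,146] (.lc 3 9 (.lc 4 10 .stop))))))
 (.lc 3 0 (.conf [66,49,32] (.conf [66,49,32] (.far [1,0,0,1,0,1,256] 0 (.node [104,135,66] 6 8 (.node [135] 7 4 (.far [1,0,1,0,0,1,0,1,256] 0 (.lc 3 9 (.node [32,146] 9 2 .stop
 (.lc 3 9 (.lc 4 10 .stop)))))
 (.lc 2 7 (.node [135] 4 2 .stop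
 (.lc 2 7 (.lc 2 7 (.lc 3 7 .stop))))))
 (.conf [66,104,135] (.node [104,135,66,114,49] 6 8 (.far [4112,4096,0,1,257,0,1,256] 0 (.lc 2 7 .stop))
 (.conf [105,116,66] (.conf [66,114,32] (.conf [66,49,32] (.conf [104,114,135] (.conf [66,49,32] .stop))))))))))))))))))))))
 .stop)
 (.node [] 6 4 (.node [66] 0 4 (.far [257,1,4112,4096,4096,0,0,257] 4096 .stop)
 (.conf [66,97] (.node [] 6 2 (.far [1,257,4112,4096,4096,0,0,257] 4096 (.node [103] 1 6 (.node [] 7 2 (.far [1,1,4096,0,4096,0,4096,0,0,257] 4096 (.node [120,128,32] 1 7 .stop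
 (.node [128,120] 1 7 .stop
 (.far [1,1,4096,0,4096,0,4096,0,0,257] 4096 (.node [121,152,32,128] 1 7 .stop
 .stop)))))
 (.node [114,97] 7 2 .stop
 (.far [16,257,257,16,4096] 0 (.far [16,257,257,16,4096] 0 (.far [1,4112,4112,1,256] 4097 (.node [114,135,97] 7 2 .stop
 .stop))))))
 (.node [103,112,103] 6 7 (.far [4112,4096,0,4096,0,4096,0,0,257] 4096 (.lc 2 0 .stop))
 (.node [103,112,103] 6 7 (.far [4112,4112,4112,1,256] 0 (.lc 2 0 .stop))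
 (.node [104,135,104,114] 6 8 (.far [4112,4112,4112,1,256] 0 (.lc 2 7 (.far [4112,4112,4112,1,256] 4097 (.lc 2 7 (.lc 2 7 (.lc 3 7 .stop))))))
 (.node [103] 6 7 (.far [257,257,257,16,4096] 17 (.far [257,257,257,16,4096] 17 .stop))
 (.node [104,135,104,112] 6 8 (.node [135] 1 8 .stop
 (.lc 2 7 .stop))
 .stop)))))))
 (.node [66] 7 4 (.node [] 6 7 (.node [96] 6 0 (.node [] 7 2 (.far [4096,4112,4096,0,0,4096,0,4096,0,0,257] 4096 (.node [120] 7 8 (.node [] 8 2 (.lc 2 0 .stop)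
 (.far [257,257,0,16,257,4096] 0 .stop))
 (.node [121,152,121,130] 7 9 (.far [4112,4112,0,1,4112,256] 0 (.lc 2 8 .stop))
 .stop)))
 .stop)
 (.node [] 1 7 (.node [114] 7 2 (.far [4096,1,4096,0,0,4096,0,4096,0,0,257] 4096 .stop)
 (.node [114,135,114] 8 7 (.far [16,16,16,257,4096] 0 (.lc 3 9 .stop))
 .stop))
 (.lc 1 2 (.node [104] 1 6 (.node [] 1 8 (.node [] 8 7 (.node [114] 7 2 (.far [4096,4096,1,257,0,0,0,4096,0,4096,0,0,257] 4096 .stop)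
 (.node [130] 8 2 (.far [4096,0,1,257,0,0,0,4096,0,4096,0,0,257] 4096 .stop)
 (.node [114,137] 7 2 (.node [] 8 9 (.node [] 9 2 (.far [4096,4096,0,0,1,257,0,0,0,4096,0,4096,0,0,257] 4096 .stop)
 (.node [146,169,128] 9 2 .stop
 (.far [4112,0,4112,1,256,256] 0 (.far [257,0,257,16,4096,4096] 0 (.node [146,169,186,128] 9 2 .stop
 .stop)))))
 (.far [4096,1,0,1,4096,0,0,4096,0,4096,0,0,257] 4096 (.far [4112,1,0,0,1,4112,256] 0 (.far [4112,1,0,0,1,4112,256] 0 (.far [257,16,0,0,16,257,4096] 17 (.node [154,160,8,114] 8 9 .stop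
 .stop))))))
 (.far [1,0,1,4096,0,0,4096,0,4096,0,0,257] 4096 (.conf [114,137,146] (.far [257,0,1,4096,0,0,4096,0,4096,0,0,257] 4096 (.conf [128,151,114] (.far [4112,1,256,256] 17 (.far [4112,1,256,256] 0 (.node [114,151,169,114,138] 8 10 (.far [4112,4112,1,256,256] 0 (.lc 2 9 (.lc 2 9 (.far [4112,4112,1,256,256] 0 (.lc 2 9 (.lc 3 9 .stop))))))
 (.far [257,16,4096,4096] 0 (.far [1,4096] 256 (.far [1,0,0,1,4112,256] 0 (.node [128,114] 9 7 (.far [1,1,0,0,1,4112,256] 0 (.lc 3 10 .stop))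
 (.conf [128,151,114] .stop)))))))))))))))
 (.node [135,152,16] 8 7 (.node [114,151] 9 7 (.node [] 9 2 (.far [4096,0,0,1,257,0,0,0,4096,0,4096,0,0,257] 4096 .stop)
 (.lc 3 0 (.lc 3 10 .stop)))
 (.lc 2 2 (.node [154,167,114] 10 7 (.far [16,16,0,0,16,257,4096] 0 (.lc 3 0 (.lc 3 11 .stop)))
 .stop)))
 (.node [152,135] 8 7 (.node [130,152] 8 2 .stop
 (.far [257,16,4096,4096] 0 (.node [114,138,152] 9 8 (.far [16,257,16,4096,4096] 0 (.lc 3 11 (.lc 1 7 (.lc 3 11 (.lc 4 12 .stop)))))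
 (.conf [114,129] (.conf [138,162] (.conf [114,154,167] (.conf [114,154,167] (.conf [139,186] (.far [256,16,4096,4112,257,4096] 0 (.conf [129,146] (.conf [129,154] (.conf [129,155] (.conf [129,154] .stop)))))))))))))
 (.far [257,257,0,0,0,4096,0,4096,0,0,257] 16 (.node [135,152,169,16] 8 7 (.far [257,256,1,4096,0,0,4096,0,4096,0,0,257] 16 (.lc 2 2 (.lc 0 11 .stop)))
 .stop)))))
 (.node [135,97,114] 8 7 (.lc 1 2 (.node [114,137] 8 9 (.node [] 9 7 (.node [146] 9 2 (.far [4096,0,4096,0,257,0,0,0,4096,0,4096,0,0,257] 4096 .stop)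
 (.lc 3 0 (.far [1,0,1,0,1,4112,256] 0 .stop)))
 (.lc 2 7 (.lc 2 7 (.far [4112,4112,257,16,0,4112,1,256] 0 (.lc 2 7 (.lc 3 7 .stop))))))
 (.lc 2 2 (.lc 2 2 (.conf [128,151,114] (.conf [138,169] (.lc 2 2 (.lc 2 2 (.node [128,114] 9 7 (.far [1,1,0,1,4112,256] 0 (.lc 3 10 .stop))
 (.conf [128,151,114] .stop))))))))))
 (.far [16,257,0,257,16,4096] 0 (.far [16,257,0,257,16,4096] 0 (.far [1,4112,0,4112,1,256] 4097 (.node [135,152,97,114] 8 7 (.lc 1 2 (.node [114,138,152] 9 8 (.far [16,257,4112,1,0,257,16,4096] 0 (.lc 3 11 (.lc 1 7 (.lc 3 11 (.lc 4 12 .stop)))))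
 (.lc 2 2 (.conf [134,154] (.conf [139,186] (.lc 2 2 (.lc 2 2 (.node [134,154,114] 10 7 (.far [1,1,0,1,4112,256] 0 (.lc 3 0 (.lc 3 11 .stop)))
 (.conf [134,167,114] (.lc 3 2 .stop))))))))))
 .stop))))))
 (.node [114,97,81,49,32] 7 2 (.far [4096,4096,0,0,4096,0,4096,0,0,257] 4096 .stop)
 (.conf [114,128,104] (.node [114,135,96] 6 0 (.node [] 8 7 (.node [130] 8 2 (.lc 2 0 .stop)
 (.far [1,4112,4096,4112,16,1,256] 0 .stop))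
 .stop)
 (.conf [114,135,152] (.conf [97,81,16] (.conf [97,114,135] (.far [4112,0,4112,1,256] 4097 (.node [104,128,104,114] 6 8 (.far [4112,4112,0,4112,1,256] 0 (.lc 2 0 .stop))
 (.lc 2 2 (.node [96,135,114] 6 0 (.far [4112,4112,0,4112,1,256] 0 .stop)
 (.node [105,152,105,114,135] 6 9 (.far [4112,4112,0,4112,1,256] 0 (.lc 2 8 (.far [4112,4112,0,4112,1,256] 4097 (.lc 2 8 (.lc 2 8 (.lc 3 8 .stop))))))
 (.far [257,0,257,16,4096] 0 (.node [114,104] 0 7 (.far [256,0,257,1,4112,4096,4096,0,0,257] 4096 .stop)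
 (.node [114,135,96] 6 0 (.far [257,257,0,257,16,4096] 0 .stop)
 (.far [257,0,257,16,4096] 0 (.node [114,135,105] 8 7 (.node [130] 6 9 (.far [257,0,257,0,257,16,4096] 0 (.lc 2 8 (.node [] 8 2 (.far [2,4112,513,4112,257,4096,4096,0,4096,0,0,257] 4352 (.lc 3 2 .stop))
 (.lc 2 8 (.lc 2 8 (.lc 3 8 .stop))))))
 (.lc 3 0 (.node [128] 6 9 (.far [257,0,257,0,257,16,4096] 0 (.lc 2 8 (.lc 2 8 .stop)))
 (.lc 3 0 (.lc 3 10 (.lc 4 10 .stop))))))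
 (.conf [97,81,16] (.conf [97,81,24] (.conf [97,81,16] (.conf [114,152,105] (.node [114,135,97,81,49,32] 8 7 (.far [16,256,257,1,16,4096] 0 (.lc 3 9 .stop))
 (.conf [114,144,105] (.node [114,135,152,96] 6 0 (.node [] 8 7 (.far [16,257,256,257,1,16,4096] 0 (.lc 3 10 .stop))
 .stop)
 (.conf [114,169,106] (.conf [97,114,135] (.conf [97,81,16] (.conf [97,81,16] (.conf [97,81,16] (.conf [97,152,25] (.conf [97,81,16] .stop))))))))))))))))))))))))))))))))))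
 (.far [257,1,4112,4096,4096,0,0,257] 4096 (.node [32,120,130,66,103] 8 2 (.far [1,257,1,4112,4096,4096,0,0,257] 4096 (.lc 3 9 (.node [144] 6 7 (.lc 2 1 (.node [120,144,151] 9 7 (.lc 0 2 .stop)
 (.node [106,120] 7 8 (.node [137] 6 10 (.node [168] 1 10 (.node [10] 10 8 .stop
 (.conf [1,154] .stop))
 (.conf [10,168] (.far [257,0,257,0,0,257,16,4096] 0 (.conf [1,154] .stop))))
 (.lc 2 9 (.lc 2 2 (.lc 0 11 (.lc 2 9 (.lc 3 9 .stop))))))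
 (.lc 1 2 (.conf [137,168] (.lc 3 1 (.conf [120,167] (.lc 3 1 (.lc 1 9 (.lc 3 1 (.lc 3 1 (.lc 2 9 (.lc 4 1 (.lc 4 1 .stop))))))))))))))
 (.lc 3 9 (.lc 4 10 .stop)))))
 (.far [16,16,0,16,0,16,4096] 17 (.far [16,16,0,16,0,16,4096] 0 (.far [1,1,0,1,0,1,256] 0 (.far [1,1,0,1,0,1,256] 0 (.node [120,128,66,103] 6 7 (.lc 2 1 (.node [105,120,128] 7 8 (.far [4112,1,4096,257,0,1,0,1,256] 0 (.lc 2 0 (.lc 0 10 (.lc 2 0 (.lc 3 0 .stop)))))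
 (.conf [116,128] (.lc 3 1 (.conf [120,151] (.lc 3 1 (.node [116,128,105] 6 9 (.far [257,257,0,257,16,4096] 0 (.lc 2 8 (.lc 2 8 .stop)))
 (.lc 3 1 (.conf [116,169,106] (.lc 4 1 .stop))))))))))
 (.node [32,121,130,152,66,121,130,103] 8 2 (.node [128] 6 7 (.node [96,121] 0 7 .stop
 (.lc 2 1 (.node [106,121] 7 9 (.far [4112,1,0,4096,257,0,1,0,1,256] 0 (.lc 2 8 (.lc 2 8 (.lc 0 11 (.lc 2 8 (.lc 3 8 .stop))))))
 (.lc 2 4 (.lc 3 1 (.lc 3 1 (.lc 3 1 (.conf [121,167] (.lc 2 4 (.lc 3 1 (.lc 2 4 (.lc 3 1 (.lc 3 1 (.lc 4 1 (.lc 3 4 (.lc 4 1 (.lc 4 1 (.lc 4 1 (.lc 4 1 (.lc 4 1 (.lc 5 1 .stop)))))))))))))))))))))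
 (.lc 3 10 (.conf [138,160] (.lc 3 10 (.lc 4 11 .stop)))))
 .stop)))))))))
 (.conf [66,96,81] (.conf [66,103,114] (.conf [103,81,66] (.conf [96,81,66] (.conf [103,81,66] (.conf [96,116,66] (.conf [104,116,135] (.conf [66,97] (.node [66,112,103] 0 4 (.far [16,16,0,16,0,16,4096] 0 .stop)
 (.far [16,0,16,0,16,4096] 17 (.conf [32,114,103,66,49,81] (.node [66,116,66,96] 7 4 (.far [16,16,0,16,0,16,4096] 0 (.lc 3 8 (.conf [32,120,130] (.lc 3 8 (.lc 4 9 .stop)))))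
 (.node [66,116,135,66,104] 7 4 (.far [16,16,0,16,0,16,4096] 0 (.lc 3 0 (.lc 3 9 (.far [16,16,0,16,0,16,4096] 17 (.conf [32,121,146] (.lc 3 0 (.lc 3 9 (.lc 4 9 (.lc 4 10 .stop)))))))))
 (.conf [66,96,81] (.conf [66,103,81] (.conf [66,96,81] (.conf [66,103,81] (.conf [103,81,66] (.conf [96,81,66] (.conf [103,81,66] (.conf [96,81,66] (.conf [104,81,66] (.conf [66,103,112] (.conf [66,104,135] (.conf [104,81,66] (.conf [103,81,66] (.conf [104,81,66] (.conf [104,116,66] (.conf [96,116,66] (.conf [105,116,66] (.conf [66,103,81] (.conf [66,104,81] (.conf [66,103,81] (.conf [66,104,81] (.conf [66,103,81] (.conf [104,114,135] (.conf [66,104,81] (.conf [66,105,81] .stop))))))))))))))))))))))))))))))))))))))))))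
 (.node [82] 5 2 .stop
 (.asm [87] 0 (.node [100,81,49,66] 6 4 (.conf [32,66] (.node [66,103,81,49] 6 7 (.node [] 7 4 (.node [32,114] 7 2 (.far [4096,0,4096,0,4096,0,4096,0,0,257] 4096 (.node [120] 7 8 (.node [8] 8 2 (.lc 2 0 .stop)
 (.far [257,257,257,16,4096] 0 .stop))
 (.node [121,152,121,130] 7 9 (.far [4112,4112,4112,1,256] 0 (.lc 2 8 .stop))
 .stop)))
 (.node [32,120,130] 7 8 (.node [130] 8 2 (.lc 2 0 .stop)
 (.far [257,256,16,4112,0,16,0,16,4096] 0 .stop))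
 (.lc 3 0 (.far [16,0,16,0,16,0,16,4096] 0 (.far [1,0,1,0,1,0,1,256] 0 (.node [32,121,152,130] 7 9 (.far [4112,4096,1,257,0,1,0,1,256] 0 (.lc 2 8 .stop))
 .stop))))))
 (.lc 2 4 (.lc 2 4 (.far [4112,4112,4096,16,1,256] 17 (.far [4112,4112,4096,16,1,256] 0 (.lc 2 4 (.lc 2 4 (.lc 3 4 (.lc 3 4 .stop)))))))))
 (.lc 2 2 (.conf [32,66] (.conf [96,116,66] (.conf [32,66] (.conf [104,135] (.lc 2 2 (.lc 2 2 (.conf [66,49,81,16] (.conf [96,81,66] (.lc 3 2 (.conf [96,116,66] .stop)))))))))))))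
 (.conf [100,112,87] (.far [1,257,4112,4096,0,257] 4096 (.conf [100,114,87] (.node [100,118,80,66] 5 0 (.node [] 6 4 (.lc 1 2 (.node [66,104,118] 7 6 (.node [120] 8 4 (.node [130] 7 8 (.lc 1 2 (.node [130] 8 2 (.node [] 9 2 .stop
 (.far [4112,1,4112,256,256] 0 .stop))
 (.lc 2 2 (.lc 3 10 (.node [130,152,169,130] 9 8 (.far [16,16,257,4096,4096] 0 (.lc 3 11 .stop))
 (.lc 3 0 (.lc 3 9 (.lc 3 9 (.lc 3 10 (.lc 4 11 (.lc 4 10 .stop)))))))))))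
 (.node [32,137,146,66] 7 8 (.node [146] 9 2 .stop
 (.lc 3 10 (.far [16,256,4096,4112,0,0,16,0,16,4096] 0 (.lc 3 10 (.lc 4 11 .stop)))))
 (.lc 0 2 (.far [16,0,16,0,0,16,0,16,4096] 0 (.far [1,0,1,0,0,1,0,1,256] 0 (.node [32,138,169,66,146] 8 10 (.far [4112,4096,256,257,0,0,1,0,1,256] 0 (.lc 0 11 (.lc 0 11 (.lc 2 9 (.lc 0 12 .stop)))))
 .stop))))))
 (.lc 1 4 (.lc 1 4 (.lc 1 4 (.far [1,4112,4112,4096,16,1,256] 0 (.lc 2 4 .stop))))))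
 (.lc 2 2 (.lc 2 2 (.conf [100,132,66] (.lc 2 2 (.conf [105,152] (.lc 2 2 (.lc 2 2 (.lc 2 2 (.conf [100,120] (.lc 3 2 (.lc 3 2 (.conf [100,121] (.lc 3 2 (.lc 3 2 (.lc 3 2 (.lc 4 2 .stop))))))))))))))))))
 .stop)
 (.node [23,100,118,81,49,66] 1 7 (.node [] 6 4 (.node [66,96,81,49] 6 0 (.lc 0 0 .stop)
 (.conf [32,66] (.node [66,104,81,49] 7 6 (.node [120] 8 4 (.node [32,130] 7 8 (.node [112,130] 8 2 (.far [4096,1,0,257,0,0,4096,0,4096,0,0,257] 4096 .stop)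
 (.lc 1 2 (.node [121,130] 8 2 (.node [] 7 9 (.node [] 9 2 (.far [4096,1,0,257,0,257,0,0,4096,0,4096,0,0,257] 4096 .stop)
 (.node [146,169,112] 9 2 .stop
 (.far [4112,4112,4096,4112,0,16,1,1,256] 0 (.far [257,257,256,257,0,1,16,16,4096] 0 (.node [146,169,186,112] 9 2 .stop
 .stop)))))
 (.far [4096,1,0,257,0,0,4096,0,4096,0,0,257] 4096 (.far [4112,1,4112,256,256] 0 (.far [4112,1,4112,256,256] 0 (.far [257,16,257,4096,4096] 17 (.node [154,160,7,130] 7 9 .stop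
 .stop))))))
 (.lc 2 2 (.lc 2 2 (.lc 3 0 (.lc 3 0 (.lc 2 2 (.far [4112,0,4096,4112,1,1,256] 0 (.node [122,152,169,122,130] 9 8 (.far [16,16,257,4096,4096] 0 (.lc 3 0 (.far [16,16,257,4096,4096] 17 (.lc 3 0 (.lc 3 11 (.lc 4 11 .stop))))))
 (.lc 2 2 (.lc 3 0 (.lc 3 0 (.lc 3 0 (.lc 4 0 .stop)))))))))))))))
 (.far [257,1,4096,0,4096,0,4096,0,0,257] 4096 (.node [32,137,146] 7 8 (.node [121,146] 7 9 (.node [] 9 2 (.far [4096,1,257,0,257,0,0,4096,0,4096,0,0,257] 4096 .stop)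
 (.lc 2 2 (.far [4112,4112,0,4096,4112,1,1,256] 0 (.lc 2 2 (.lc 3 2 .stop)))))
 (.lc 3 0 (.far [4112,0,4096,4112,1,1,256] 0 (.far [16,256,4096,4112,0,0,16,0,16,4096] 0 (.lc 3 0 (.lc 4 0 .stop))))))
 (.far [16,0,16,0,0,16,0,16,4096] 17 (.far [16,0,16,0,0,16,0,16,4096] 0 (.far [1,0,1,0,0,1,0,1,256] 0 (.far [1,0,1,0,0,1,0,1,256] 0 (.node [32,137,144,7] 7 8 (.far [1,4096,256,257,0,0,1,0,1,256] 0 (.lc 1 0 .stop))
 (.node [32,138,169,146] 7 8 (.far [1,4096,256,257,0,0,1,0,1,256] 0 (.lc 3 0 (.lc 1 9 (.lc 1 9 (.lc 3 0 (.lc 4 0 .stop))))))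
 .stop)))))))))
 (.lc 1 4 (.lc 1 4 (.lc 3 0 (.lc 1 4 (.far [1,4112,0,4096,16,1,256] 0 (.lc 2 4 .stop)))))))
 (.lc 2 2 (.lc 2 2 (.lc 0 0 (.conf [32,66] (.conf [120,132] (.conf [32,66] (.conf [32,66] (.conf [105,152] (.lc 2 2 (.lc 2 2 (.lc 2 2 (.conf [32,66] (.conf [100,120] (.lc 3 2 (.lc 3 2 (.conf [32,66] (.conf [100,121] (.lc 3 2 (.lc 3 2 (.lc 3 2 (.lc 3 2 (.lc 4 2 .stop)))))))))))))))))))))))))
 (.lc 2 6 (.node [135] 6 4 (.conf [32,66] (.node [104,132,135,81,49] 6 8 (.lc 0 1 .stop)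
 (.node [66,105,81,49] 7 6 (.node [121] 9 4 (.node [32,146] 7 9 (.lc 1 2 (.far [257,0,256,257,16,16,4096] 0 (.node [122,146,135] 8 7 (.far [16,257,0,256,257,16,16,4096] 0 (.lc 3 11 (.lc 1 9 (.lc 3 11 (.lc 4 12 .stop)))))
 (.lc 2 2 (.lc 2 2 (.lc 3 1 (.conf [138,146,169] (.conf [123,186] (.lc 3 1 (.lc 3 1 (.lc 3 1 (.lc 4 1 (.lc 4 1 .stop)))))))))))))
 (.conf [8,144] (.node [32,135,152,130] 9 8 (.lc 1 2 .stop)
 (.node [32,154,162] 7 9 (.node [122,135] 7 10 (.far [257,257,0,256,257,16,16,4096] 0 (.lc 0 11 (.lc 0 11 (.lc 2 2 (.lc 0 12 .stop)))))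
 (.lc 3 1 (.conf [138,162] (.conf [123,186] (.lc 3 1 (.lc 4 1 .stop))))))
 (.far [16,0,16,0,0,16,0,16,4096] 0 (.far [1,0,1,0,0,1,0,1,256] 0 (.conf [1,135] (.node [32,155,186,162] 7 9 (.far [1,4096,256,257,0,0,1,0,1,256] 0 (.lc 3 1 (.lc 1 10 (.lc 1 10 (.lc 3 1 (.lc 4 1 .stop))))))
 .stop))))))))
 (.lc 3 2 (.lc 3 10 (.lc 3 1 (.lc 1 4 (.lc 3 10 (.lc 4 11 .stop)))))))
 (.lc 2 2 (.conf [32,66] (.lc 0 1 (.conf [121,148] (.conf [32,66] (.conf [106,169] (.lc 2 2 (.lc 2 2 (.lc 2 2 (.lc 2 2 (.lc 0 2 (.lc 0 9 (.lc 3 2 (.lc 3 2 (.lc 0 9 (.lc 0 10 (.lc 3 2 (.lc 3 2 (.lc 3 2 (.lc 3 2 (.lc 4 2 .stop))))))))))))))))))))))))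
 (.lc 2 6 (.lc 3 6 .stop)))))
 (.conf [100,135,88] (.node [81,100,49,66] 6 4 (.lc 2 0 (.lc 1 2 (.node [66] 4 2 (.node [] 0 6 (.far [257,0,0,4096,0,4096,0,0,257] 4096 (.node [96,114] 0 7 (.far [257,257,0,0,4096,0,4096,0,0,257] 4096 .stop)
 (.node [103] 6 7 (.node [] 8 7 (.node [] 8 2 (.far [4096,0,0,257,0,0,4096,0,4096,0,0,257] 4096 .stop)
 (.node [114] 7 2 (.node [] 9 2 .stop
 (.far [4112,1,1,0,256,256] 0 .stop))
 (.conf [114,137,146] (.conf [138,151,169] (.node [114,151,169,114,138] 9 7 (.far [16,16,16,0,4096,4096] 0 (.lc 3 11 .stop))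
 (.lc 3 0 (.node [114,137,146] 8 9 .stop
 (.far [1,1,0,256,256] 0 (.node [138,169,114] 8 10 .stop
 (.conf [139,151,114] (.conf [114,146,32] .stop)))))))))))
 (.conf [114,137,151] (.far [4112,1,0,4112,4096,16,1,256] 0 (.far [257,16,0,257,256,1,16,4096] 0 (.conf [114,138,96] .stop)))))
 (.lc 2 0 (.lc 2 0 (.node [103,134,40,103] 6 7 (.far [257,256,0,257,0,1,4112,4096,0,257] 4096 (.lc 2 2 (.lc 0 9 (.lc 2 2 (.lc 3 2 .stop)))))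
 (.far [16,0,257,256,1,16,4096] 0 (.node [103,134,152,103,114] 6 7 (.far [257,16,0,257,256,1,16,4096] 0 (.lc 2 2 (.lc 0 10 (.lc 2 2 (.lc 3 2 .stop)))))
 (.lc 2 0 (.lc 2 0 (.lc 1 2 (.lc 3 0 .stop))))))))))))
 (.far [4096,1,0,1,4112,4096,0,257] 4096 (.node [32,120,130] 8 2 (.far [1,4096,1,0,1,4112,4096,0,257] 4096 (.lc 3 6 (.lc 3 9 .stop)))
 (.far [4112,1,0,1,0,1,256] 0 (.far [257,16,0,16,0,16,4096] 0 (.node [32,121,130,152,121,130] 8 2 (.node [128] 6 7 (.node [106,121] 7 9 (.far [4112,1,0,16,257,0,1,0,1,256] 0 (.lc 2 8 (.lc 0 11 (.lc 2 8 (.lc 3 8 .stop)))))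
 (.lc 2 4 (.conf [121,167] (.lc 2 4 (.lc 3 4 .stop)))))
 (.lc 3 6 (.lc 3 10 .stop)))
 .stop))))))
 (.lc 2 2 (.lc 2 2 (.lc 2 2 (.lc 3 8 (.lc 2 2 (.lc 2 2 (.node [66,116,135] 7 4 (.far [16,16,0,16,0,16,4096] 0 (.lc 3 0 (.lc 3 9 (.conf [32,121,146] (.lc 3 9 (.lc 4 10 .stop))))))
 (.lc 2 2 (.lc 2 2 (.lc 2 2 (.lc 2 2 (.lc 3 8 (.lc 3 2 (.lc 3 2 (.lc 4 9 (.lc 3 2 (.lc 3 2 (.lc 3 2 (.lc 4 2 .stop))))))))))))))))))))))
 (.conf [81,100,118] (.far [4112,4112,1,256] 4097 (.node [87,112,87] 5 7 (.far [4112,4112,4112,1,256] 0 (.lc 2 0 (.conf [24,112,135] (.lc 2 0 (.lc 3 0 .stop)))))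
 (.node [80] 5 0 (.far [4112,4112,4112,1,256] 17 .stop)
 (.node [80,118,100] 5 0 (.far [4112,4112,4112,1,256] 0 .stop)
 (.far [4112,4112,1,256] 0 (.node [88,135,88,118] 5 8 (.far [4112,4112,4112,1,256] 0 (.lc 2 7 (.lc 2 7 (.far [4112,4112,4112,1,256] 4097 (.conf [25,135,152] (.lc 2 7 (.lc 2 7 (.lc 3 7 (.lc 3 7 .stop)))))))))
 (.far [257,257,16,4096] 0 (.node [100,87,66] 0 6 (.node [100] 6 4 (.lc 1 2 .stop)
 (.lc 1 2 (.conf [100,134] (.lc 1 2 .stop))))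
 (.far [1,257,4112,4096,0,257] 4096 (.node [100,118,80,66] 5 0 (.far [257,257,257,16,4096] 0 .stop)
 (.far [257,257,16,4096] 0 (.node [100,118,82,66] 5 2 .stop
 (.node [100,118,88,66] 5 8 (.far [257,257,257,16,4096] 0 (.lc 2 7 (.lc 2 7 (.node [] 6 4 (.lc 1 2 (.node [66,105,118] 7 6 (.node [121] 9 4 (.node [146] 7 9 (.lc 1 2 (.node [122,146] 8 7 (.node [138] 10 9 (.node [162] 10 2 (.far [2,514,1,4097,0,257,0,4112,4096,0,4096,0,0,257] 4352 (.lc 3 2 (.lc 0 0 (.lc 0 0 .stop))))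
 (.far [514,1,4097,0,257,0,4112,4096,0,4096,0,0,257] 4352 (.far [1,0,1,4112,256,256] 0 .stop)))
 (.lc 1 9 (.lc 1 9 (.far [1,4112,0,4096,4112,0,1,256] 0 (.lc 2 9 .stop)))))
 (.lc 2 2 (.lc 3 6 (.conf [123,186] (.lc 2 2 (.lc 3 6 (.lc 3 6 (.lc 3 6 (.lc 4 6 (.lc 4 6 (.lc 4 6 .stop))))))))))))
 (.far [514,1,4097,4112,4112,4096,4096,0,0,257] 4352 (.node [32,135,152,66,130] 9 8 .stop
 (.node [32,154,162,66] 7 9 (.node [122] 8 7 (.node [138] 10 2 (.far [2,1,4112,514,4097,8192,4112,4096,0,4096,0,0,257] 4352 (.lc 3 2 (.lc 0 0 (.lc 0 0 .stop))))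
 (.lc 1 2 (.lc 1 2 (.far [1,4112,0,4096,4112,0,1,256] 0 (.lc 2 2 .stop)))))
 (.lc 3 6 (.conf [123,186] (.lc 3 6 (.lc 4 6 .stop)))))
 (.far [16,0,16,0,0,16,0,16,4096] 0 (.far [1,0,1,0,0,1,0,1,256] 0 (.lc 0 7 (.node [32,155,186,66,162] 7 9 (.far [1,4096,256,257,0,0,1,0,1,256] 0 (.lc 3 6 (.lc 1 10 (.lc 3 6 (.lc 4 6 .stop)))))
 .stop))))))))
 (.lc 3 2 (.lc 3 10 (.lc 1 4 (.lc 3 10 (.lc 4 11 .stop))))))
 (.lc 2 2 (.lc 2 2 (.conf [100,121] (.lc 2 2 (.conf [106,169] (.lc 2 2 (.lc 2 2 (.lc 2 2 (.lc 2 2 (.node [100,121,135,66] 8 7 (.node [137] 9 4 (.far [1,0,1,0,0,1,0,1,256] 0 (.lc 3 0 (.lc 3 10 (.node [32,154,162] 10 2 (.node [160] 9 10 (.lc 2 4 (.node [155,160] 8 9 (.node [139] 11 10 .stop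
 (.lc 1 10 .stop))
 (.lc 0 0 (.lc 3 4 (.conf [160,186] (.lc 0 0 .stop))))))
 (.lc 3 8 (.lc 3 11 .stop)))
 (.lc 3 10 (.lc 4 11 .stop))))))
 (.lc 3 2 (.lc 3 10 (.lc 1 4 (.lc 3 10 (.lc 4 11 .stop))))))
 (.lc 3 2 (.lc 3 2 (.conf [100,148,66] (.lc 3 2 (.lc 3 2 (.lc 3 2 (.lc 3 2 (.lc 4 2 .stop))))))))))))))))))))
 (.node [25,152] 1 9 (.node [152] 6 4 (.node [66,96,118] 6 0 .stop
 (.lc 1 2 (.node [66,106,118] 7 6 (.node [122] 10 4 (.node [162] 7 10 (.node [112,162] 7 0 .stop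
 (.lc 1 2 (.node [123,162] 8 7 (.node [139] 11 10 (.node [178] 11 2 (.far [2,514,1,4097,0,257,0,4112,4112,4096,0,4096,0,0,257] 4352 (.lc 3 2 (.node [188,192,9,188,152] 8 11 (.far [1,4112,4112,256,256] 0 (.lc 3 5 (.lc 1 0 .stop)))
 (.lc 0 5 .stop))))
 (.far [514,1,4097,0,257,0,4112,4112,4096,0,4096,0,0,257] 4352 (.far [16,0,16,257,4096,4096] 17 (.far [1,0,1,4112,256,256] 0 (.far [1,0,1,4112,256,256] 0 (.node [188,192,9,162,152] 8 11 (.far [1,4096,256,257,4112,256,256] 0 (.lc 3 5 (.lc 1 0 .stop)))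
 .stop))))))
 (.lc 3 0 (.lc 3 12 (.lc 1 10 (.lc 3 12 (.lc 4 13 .stop))))))
 (.lc 2 2 (.lc 2 2 (.lc 3 6 (.lc 2 2 (.conf [124,203] (.lc 2 2 (.lc 3 6 (.lc 3 6 (.lc 3 6 (.lc 3 6 (.lc 3 2 (.lc 4 6 (.lc 4 6 (.lc 4 6 (.lc 4 6 (.lc 4 6 (.lc 4 6 (.lc 5 6 .stop)))))))))))))))))))))
 (.far [514,1,4097,4112,4112,4112,4096,4096,0,0,257] 4352 (.node [32,135,168,152,66,130] 10 8 .stop
 (.node [32,171,178,66] 7 10 (.node [123] 8 7 (.node [139] 11 2 (.far [2,1,4112,514,4097,8192,4112,4112,4096,0,4096,0,0,257] 4352 (.lc 3 2 (.node [188,192,9,152] 8 11 (.far [1,4112,256,257,4112,256,256] 0 (.lc 3 5 (.lc 1 0 .stop)))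
 (.lc 0 5 .stop))))
 (.lc 3 0 (.lc 3 12 (.lc 1 2 (.lc 3 12 (.lc 4 13 .stop))))))
 (.lc 3 6 (.conf [124,203] (.lc 3 6 (.lc 4 6 .stop)))))
 (.far [16,0,16,0,0,0,16,0,16,4096] 17 (.far [16,0,16,0,0,0,16,0,16,4096] 0 (.far [1,0,1,0,0,0,1,0,1,256] 0 (.far [1,0,1,0,0,0,1,0,1,256] 0 (.node [171,176,9,66,152] 7 10 (.far [1,4096,256,257,0,0,0,1,0,1,256] 0 (.lc 3 6 (.lc 1 0 (.lc 3 6 (.lc 4 6 .stop)))))
 (.node [32,172,203,66,178] 7 10 (.far [1,4096,256,257,0,0,0,1,0,1,256] 0 (.lc 3 6 (.lc 1 11 (.lc 3 6 (.lc 4 6 .stop)))))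
 .stop))))))))))
 (.lc 3 0 (.lc 3 2 (.lc 3 11 (.lc 1 4 (.lc 3 11 (.lc 4 0 (.lc 4 12 .stop))))))))
 (.lc 2 2 (.lc 2 2 (.lc 2 2 (.conf [100,122] (.lc 2 2 (.lc 2 2 (.conf [107,186] (.lc 2 2 (.lc 2 2 (.lc 2 2 (.node [100,112,135,152,66] 0 4 (.far [257,1,4112,16,4112,4096] 256 .stop)
 (.lc 2 2 (.node [100,122,135,152,66] 8 7 (.node [138] 10 4 (.far [1,0,1,0,0,0,1,0,1,256] 0 (.lc 3 0 (.lc 3 11 (.node [160] 9 8 (.lc 1 5 (.node [138,155] 8 10 (.node [160] 9 11 .stop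
 (.lc 0 12 .stop))
 (.lc 2 5 (.lc 2 5 (.conf [138,184] (.lc 2 5 .stop))))))
 (.node [32,171,178] 11 2 (.node [176] 10 11 (.lc 2 4 (.node [172,176] 8 10 (.node [140] 9 8 (.node [156] 12 11 (.far [1,1,4096,4096,4096,0,0,0,0,4096,0,0,4096,0,0,257] 4096 (.lc 3 8 .stop))
 (.lc 3 0 (.lc 1 11 .stop)))
 (.lc 3 5 (.lc 1 11 .stop)))
 (.lc 2 0 (.lc 3 4 (.conf [176,203] (.lc 2 0 (.lc 3 4 (.lc 0 5 (.lc 0 5 (.lc 0 5 (.lc 0 5 .stop)))))))))))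
 (.lc 3 9 (.lc 3 12 (.conf [188,192] (.lc 3 12 (.lc 4 13 .stop))))))
 (.lc 3 0 (.lc 3 11 (.lc 4 11 (.lc 4 12 .stop)))))))))
 (.lc 3 0 (.lc 3 2 (.lc 3 11 (.lc 1 4 (.lc 3 11 (.lc 4 0 (.lc 4 12 .stop))))))))
 (.lc 3 2 (.lc 3 2 (.lc 3 2 (.lc 3 2 (.conf [100,164,66] (.lc 3 2 (.lc 3 2 (.lc 3 2 (.lc 3 2 (.lc 3 2 (.lc 3 2 (.lc 4 2 (.lc 4 2 .stop)))))))))))))))))))))))))))))
 (.lc 2 8 (.lc 2 8 (.node [152,169,152,135,118,100] 6 4 (.lc 1 2 (.lc 0 9 (.node [66,107] 7 6 (.node [123] 11 4 (.node [178] 7 11 (.lc 1 2 (.lc 0 9 (.node [124,178] 8 7 (.node [140] 12 11 (.node [194] 12 2 (.far [1,257,0,1,0,257,0,4112,4112,4112,4112,1,256] 256 (.lc 1 1 .stop))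
 (.conf [10,192] (.far [1,0,1,4112,256,256] 0 (.lc 1 1 .stop))))
 (.lc 3 10 (.lc 3 13 (.lc 1 11 (.lc 3 13 (.lc 4 14 .stop))))))
 (.lc 2 2 (.lc 3 6 (.conf [125,220] (.lc 2 2 (.lc 3 6 (.lc 3 6 (.lc 3 6 (.lc 3 6 (.lc 1 1 (.lc 4 6 (.lc 4 6 (.lc 4 6 (.lc 2 1 .stop))))))))))))))))
 (.conf [10,176] (.lc 0 7 (.lc 0 9 (.node [32,188,194,66] 7 11 (.node [124] 8 7 (.node [140] 12 2 (.far [1,0,0,257,1,4096,4112,4112,4112,4112,1,256] 256 (.lc 1 1 .stop))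
 (.lc 3 10 (.lc 3 13 (.lc 1 2 (.lc 3 13 (.lc 4 14 .stop))))))
 (.lc 3 6 (.conf [125,220] (.lc 3 6 (.lc 4 6 .stop)))))
 (.far [16,0,16,0,0,0,16,0,16,4096] 0 (.far [1,0,1,0,0,0,1,0,1,256] 0 (.lc 1 1 (.node [32,189,220,66,194] 7 11 (.far [1,4096,256,257,0,0,0,1,0,1,256] 0 (.lc 3 6 (.lc 1 12 (.lc 3 6 (.lc 4 6 .stop)))))
 .stop)))))))))
 (.lc 3 2 (.lc 3 10 (.lc 3 12 (.lc 1 4 (.lc 3 12 (.lc 4 13 .stop)))))))
 (.lc 2 2 (.lc 2 2 (.lc 3 4 (.lc 2 2 (.conf [108,203] (.lc 2 2 (.lc 2 2 (.lc 2 2 (.lc 2 2 (.lc 2 2 (.lc 3 4 (.lc 3 4 (.lc 1 1 (.lc 3 2 (.lc 3 2 (.lc 4 4 (.lc 3 2 (.lc 3 2 (.lc 3 2 (.lc 3 2 (.lc 3 2 (.lc 2 1 (.lc 4 2 .stop))))))))))))))))))))))))))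
 (.lc 2 8 (.lc 3 8 .stop))))))
 (.lc 2 7 (.lc 2 7 (.lc 3 7 (.lc 3 7 .stop)))))))))
 (.far [1,0,4096,0,0,257] 16 (.conf [81,49,23] (.conf [81,49,16] (.conf [81,49,23] (.conf [100,135,88] (.conf [100,112,87] (.node [100,118,81,49,66] 6 4 (.conf [32,66] (.node [66,104,81,118,49] 7 6 (.far [16,257,256,1,16,4096] 0 (.lc 3 2 (.lc 3 9 (.lc 1 4 (.lc 3 9 (.lc 4 10 .stop))))))
 (.lc 2 2 (.conf [32,66] (.conf [100,120] (.conf [32,66] (.conf [105,152] (.lc 2 2 (.lc 2 2 (.conf [32,66] (.conf [100,81,66] (.lc 3 2 (.conf [32,66] (.conf [100,132,66] (.lc 3 2 (.lc 3 2 (.lc 3 2 (.lc 4 2 .stop))))))))))))))))))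
 (.conf [100,128,88] (.node [100,118,66,39,80] 4 2 (.far [1,16,4112,0,16,4096] 17 (.lc 1 6 .stop))
 (.node [100,118,135,80,66] 5 0 (.node [] 6 4 (.lc 1 2 (.node [66,105,118,135] 7 6 (.far [16,257,257,256,1,16,4096] 0 (.lc 3 2 (.lc 3 10 (.lc 1 4 (.lc 3 10 (.lc 4 11 .stop))))))
 (.lc 2 2 (.lc 2 2 (.conf [100,121] (.lc 2 2 (.conf [106,169] (.lc 2 2 (.lc 2 2 (.lc 2 2 (.node [100,121,135,66] 8 7 (.conf [137,148] (.lc 3 2 (.lc 3 10 (.lc 1 4 (.lc 3 10 (.lc 4 11 .stop))))))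
 (.lc 3 2 (.lc 3 2 (.conf [100,148,66] (.lc 3 2 (.lc 3 2 (.lc 3 2 (.lc 4 2 .stop))))))))))))))))))
 .stop)
 (.node [24,100,118,135,81,118,66,100,81,49] 1 8 (.node [135] 6 4 (.node [66,96] 6 0 .stop
 (.lc 1 2 (.node [66,105] 7 6 (.far [16,257,0,256,1,16,4096] 0 (.lc 3 0 (.lc 3 2 (.lc 3 10 (.lc 1 4 (.lc 3 10 (.lc 4 0 (.lc 4 11 .stop))))))))
 (.lc 2 2 (.lc 2 2 (.lc 2 2 (.lc 3 4 (.lc 2 2 (.lc 2 2 (.conf [106,169] (.lc 2 2 (.lc 2 2 (.lc 2 2 (.lc 3 4 (.lc 2 2 (.lc 3 4 (.lc 3 2 (.lc 3 2 (.lc 3 2 (.lc 3 2 (.lc 4 4 (.lc 3 2 (.lc 3 2 (.lc 3 2 (.lc 3 2 (.lc 3 2 (.lc 3 2 (.lc 4 2 (.lc 4 2 .stop)))))))))))))))))))))))))))))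
 (.lc 2 7 (.conf [135,152] (.lc 2 7 (.lc 3 7 .stop)))))
 (.conf [100,152,89] (.conf [81,100,118] (.conf [81,100,118] (.conf [81,49,16] (.conf [81,100,118,135] (.conf [81,49,16] (.conf [81,49,24] (.far [257,257,4112,4096,0,257] 16 (.conf [81,135,24] (.conf [81,49,16] (.conf [81,49,25] .stop))))))))))))))))))))))))))))))))))))))))))))))))
 (.conf [66,81] (.conf [66,86,96] (.conf [66,80,49] (.conf [22,81] (.conf [66,87,118] (.conf [86,49,66] (.conf [66,80] (.conf [32,66] (.conf [80,100,66] (.conf [87,100,118] (.far [4112,1,256] 4097 (.node [96,86,66] 6 0 (.node [97,86] 5 6 (.node [82,97] 5 2 .stop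
 (.node [87,97] 6 1 (.far [257,16,272,4112,257,256,0,4112] 257 (.lc 0 8 .stop))
 (.conf [97,118] .stop)))
 (.node [103,113,86] 5 6 (.node [87,113] 1 5 (.lc 0 1 .stop)
 (.conf [88,135] .stop))
 (.node [103,113,103,86,49,66] 1 5 (.lc 1 6 (.lc 2 6 .stop))
 (.node [103,113,86] 5 6 (.conf [87,113] (.lc 1 1 .stop))
 (.node [104,113,135,21,113,86] 5 6 (.conf [88,135] (.lc 1 7 .stop))
 .stop)))))
 (.far [16,0,16,4096] 17 (.conf [32,66] (.node [100,66,80] 0 6 (.node [100,66] 6 4 (.node [66,97] 1 4 .stop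
 (.node [66,103] 2 6 (.node [116] 4 2 (.lc 0 2 .stop)
 (.lc 1 4 .stop))
 (.conf [66,116] .stop)))
 (.node [100,118,66] 6 4 (.node [66,116] 4 2 (.lc 0 2 .stop)
 (.conf [66,132] .stop))
 (.node [100,118,100,66,49,80] 4 2 (.lc 2 7 (.lc 3 8 .stop))
 (.node [100,118,66] 6 4 (.conf [66,116] (.lc 0 8 .stop))
 (.node [100,118,135,40,66] 6 4 (.conf [66,116] (.lc 0 9 .stop))
 .stop)))))
 (.conf [22,81] (.node [100,118,66,87] 5 7 (.node [80,118,100] 5 0 (.far [4112,4112,4112,1,256] 0 .stop)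
 (.far [4112,4112,1,256] 0 (.node [82,118,100] 5 2 .stop
 (.node [88,118,100] 5 8 (.far [4112,4112,4112,1,256] 0 (.lc 2 7 (.lc 2 7 (.far [4112,4112,4112,1,256] 4097 (.far [4112,4112,4112,1,256] 0 (.lc 2 7 (.lc 2 7 (.lc 3 7 (.lc 3 7 .stop)))))))))
 (.conf [81,118,49,66,100] (.conf [88,118] (.conf [80,118] (.conf [88,118] (.conf [80,118] (.conf [81,118,49,66,100] (.conf [89,118] (.node [81,118,49,66,100] 6 4 (.far [16,0,16,0,16,4096] 0 (.node [66,104] 8 4 (.far [16,16,0,16,0,16,4096] 0 (.lc 3 0 (.lc 3 9 (.far [16,16,0,16,0,16,4096] 0 (.lc 3 9 (.lc 4 10 .stop))))))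
 (.lc 2 2 (.lc 3 0 (.lc 3 8 (.lc 3 9 (.conf [104,130] (.conf [66,132] (.lc 2 2 (.lc 2 2 (.lc 2 2 (.lc 2 2 (.lc 3 8 (.lc 3 9 (.lc 3 2 (.lc 4 9 (.lc 4 10 (.lc 3 2 (.lc 3 2 (.lc 3 2 (.lc 3 2 (.lc 4 2 .stop))))))))))))))))))))))
 (.conf [81,118,135] (.far [4112,4112,1,256] 4097 (.conf [88,128] (.node [80,118,100] 2 7 .stop
 (.node [80,118,135,118,100,66] 5 0 (.far [4112,4112,4112,1,256] 0 .stop)
 (.conf [24,118,135] (.conf [89,152] (.conf [81,118,49,66,100] (.conf [88,118] (.conf [80,118] (.conf [80,118] (.conf [81,118,49,66,100] (.conf [82,118] (.conf [89,118] (.conf [81,118] (.conf [81,118] (.conf [81,49,16] (.conf [81,49,24] (.conf [89,118] (.conf [88,118] (.conf [81,118,49,66,100] (.conf [89,118] (.conf [80,118] (.conf [80,118] (.conf [81,118,49,66,100] (.conf [90,118] (.conf [81,118,135] (.conf [81,118,135] (.conf [81,118] (.conf [81,118]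 (.conf [81,118] (.conf [81,118] (.conf [81,118] (.conf [81,118] (.conf [81,118] (.conf [81,118] .stop))))))))))))))))))))))))))))))))))))))))))))))))
 (.conf [66,81] (.conf [66,86,49] (.conf [66,80,49] (.conf [66,81] (.conf [66,87,49] (.conf [66,86,49] (.conf [66,80,49] (.conf [66,87,49] (.conf [86,49,66] (.conf [66,80] (.conf [66,86] (.conf [80,49,66] (.conf [87,49,66] (.conf [66,87,118] (.conf [66,81] (.conf [66,87,112] (.conf [66,80,49] (.conf [23,81] (.conf [66,88,135] (.conf [87,49,66] (.conf [66,86] (.conf [32,66] (.conf [87,100,66] (.conf [80,100,66] (.conf [88,100,66] (.conf [66,87,49] (.conf [66,87,49] (.conf [66,100,118] (.conf [66,100,118] (.conf [66,87,49] (.conf [66,87,49] (.conf [66,80,49] (.conf [66,100,118,135] (.conf [87,96,118] (.conf [66,87,49] (.conf [66,80,49] (.conf [88,118,135] (.conf [66,88,49] (.conf [66,88,49]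 (.conf [66,88,49] (.conf [66,80,49] (.conf [66,89,49] .stop)))))))))))))))))))))))))))))))))))))))))))))))))))))))))))))))

theorem t4 : kNode2 awTt FTt 5 4 (check tyTt awTt triet FTt [s5] c4) (fun _ _ _ => true) 0 s4 Pl.nil s4 =
    true := by
  decide +kernel

end Chk
end Pool.Agent.Lib.MP_ba95e8_co
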