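import Pool.Agent.Lib.MP_ba95e8_co.ChkTab
import Pool.Agent.Lib.MP_ba95e8_co.ChkStates

/-!
Deltahedral domes: part 40 of the case analysis.
-/

namespace Pool.Agent.Lib.MP_ba95e8_co
namespace Chk

/-- certificate number 40 -/
def c40 : Cert := (.node [] 0 3 (.far [1,1,257] 4096 (.node [] 4 0 (.lc 0 0 (.node [] 4 5 (.far [257,257,0,257,1] 4096 (.node [70] 1 4 (.far [16,257,257,0,257,1] 4096 (.node [23,101,64,83] 1 7 .stop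
 (.far [16,257,257,0,257,1] 4096 (.conf [23,118] (.conf [24,135] .stop)))))
 (.node [22,83,64,50] 5 3 (.far [257,256,0,1,1,1] 4096 (.lc 2 0 (.lc 2 0 (.node [103,115] 7 3 (.node [114] 1 6 .stop
 (.lc 3 8 (.conf [32,130] (.lc 3 8 (.lc 4 9 .stop)))))
 (.lc 2 0 (.lc 3 0 .stop))))))
 (.conf [83,101,118] (.conf [64,83,101] (.conf [22,101] (.node [71,118,71,83,101] 4 7 (.node [118] 6 5 (.node [83,98] 2 5 (.far [16,16,0,16,4096,4096] 0 .stop)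
 (.far [16,0,16,4096,4096] 0 (.node [83,104] 5 3 (.far [257,16,0,16,4096,4096] 0 (.lc 0 2 (.lc 0 2 (.lc 0 9 (.far [257,16,0,16,4096,4096] 0 (.lc 0 9 .stop))))))
 (.node [80,98,118,48,64] 6 2 .stop
 (.conf [50,104,131] (.lc 3 2 (.lc 3 2 (.lc 3 9 (.conf [48,80] (.conf [83,133] (.node [48,80,98,118] 7 6 (.node [98,120] 6 2 (.far [257,16,257,0,16,4096,4096] 0 (.lc 0 9 .stop))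
 (.lc 2 2 (.lc 3 1 (.conf [98,134] .stop))))
 (.lc 3 2 (.lc 3 8 (.lc 3 8 (.lc 3 2 (.lc 3 8 (.lc 3 9 (.conf [32,130] (.lc 4 8 (.lc 4 10 (.lc 4 8 (.lc 4 9 (.lc 4 8 (.lc 4 8 (.lc 5 9 .stop)))))))))))))))))))))))))
 (.lc 2 6 (.conf [24,135] (.lc 2 6 (.lc 3 6 .stop)))))
 (.far [257,257,0,257,1] 4096 (.node [83,101,71] 5 3 (.node [50,99] 6 3 (.far [1,1,0,0,1,1,257] 4096 (.lc 3 3 (.conf [32,130] (.lc 3 3 (.lc 4 3 .stop)))))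
 (.lc 2 0 (.lc 0 2 (.lc 0 8 (.lc 2 0 (.lc 3 0 .stop))))))
 (.node [64,83,101] 5 3 (.far [257,256,0,1,1,1] 4096 (.lc 2 0 (.conf [32,98] (.node [103,115,50] 7 3 (.node [114] 6 7 (.node [104,114] 1 6 (.far [1,4112,0,4112,257,256,256] 0 (.lc 1 7 .stop))
 (.lc 2 2 (.lc 3 1 (.conf [114,135] .stop))))
 (.lc 3 8 (.conf [32,130] (.lc 3 8 (.lc 4 9 .stop)))))
 (.lc 2 0 (.lc 3 0 .stop))))))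
 (.node [22,64,83,50] 1 6 .stop
 (.conf [23,118] (.conf [83,135,72] (.conf [64,83,101] (.conf [23,118] (.node [23,64,83,101] 5 3 (.node [50,99] 6 3 (.far [1,1,0,0,1,1,257] 4096 (.lc 3 3 (.conf [32,130] (.lc 3 3 (.lc 4 3 .stop)))))
 (.lc 2 0 (.lc 0 2 (.lc 0 8 (.lc 2 0 (.lc 3 0 .stop))))))
 (.conf [64,118,23] (.conf [24,135] .stop))))))))))))))))))
 (.conf [70,83,101] (.far [16,257,4096] 0 (.far [1,4112,256] 0 (.node [71,118,101,83] 4 7 (.node [118] 5 3 (.far [1,4112,4096,4096,0,256] 0 (.node [50,88] 6 5 (.far [16,257,0,4112,1,4096] 0 (.lc 3 2 (.lc 3 9 (.lc 1 3 (.lc 3 9 (.lc 4 10 .stop))))))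
 (.lc 2 0 (.lc 3 0 (.lc 3 0 (.conf [32,130] (.conf [89,152] (.lc 2 0 (.lc 2 0 (.lc 3 0 (.lc 3 0 (.lc 3 0 (.lc 4 0 (.lc 4 0 (.lc 3 0 (.lc 3 0 (.lc 3 0 (.lc 4 0 .stop))))))))))))))))))
 (.lc 2 6 (.conf [24,135] (.lc 2 6 (.lc 3 6 .stop)))))
 .stop))))))
 (.conf [50,83,101] (.node [83,101,50] 0 6 (.node [1,101,83] 5 3 (.node [48,82,64,101] 5 2 .stop
 (.node [50,87] 7 3 (.node [114] 2 6 (.node [101,87] 6 5 .stop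
 (.conf [101,134] (.lc 0 2 .stop)))
 (.lc 3 8 .stop))
 (.conf [48,87,114] (.lc 3 8 (.conf [50,115] (.lc 3 7 (.lc 3 7 (.lc 3 8 (.lc 4 9 (.lc 4 8 .stop))))))))))
 (.far [4112,4112,256] 0 (.node [101,118,83,50,64] 6 5 (.node [83,117] 3 2 (.lc 2 7 (.lc 3 8 (.lc 3 0 .stop)))
 (.lc 2 3 (.lc 2 3 (.lc 2 3 (.node [83,120] 3 2 (.lc 2 7 (.lc 3 8 .stop))
 (.lc 2 3 (.lc 1 0 (.lc 3 3 .stop))))))))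
 (.conf [71,101,118] (.node [101,118,39,101,83,50] 3 2 (.lc 0 6 (.lc 3 0 (.lc 3 0 (.conf [56,135] (.lc 3 0 (.lc 4 0 .stop))))))
 (.conf [71,101,118] (.node [101,118,83,50,64] 7 6 (.far [16,257,257,1,257] 4096 (.lc 1 3 (.lc 1 3 (.lc 1 3 (.lc 1 3 (.lc 3 8 (.lc 0 0 (.lc 2 3 .stop))))))))
 (.node [101,118,83,71,50] 7 6 (.node [83] 4 7 (.lc 1 5 (.lc 2 8 (.lc 1 3 (.lc 3 8 (.lc 3 0 (.lc 2 5 (.lc 3 9 (.lc 3 0 (.lc 3 0 (.lc 4 0 (.lc 4 0 .stop)))))))))))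
 (.lc 1 3 (.lc 1 3 (.lc 1 3 (.lc 1 3 (.lc 3 8 (.lc 2 3 .stop)))))))
 (.node [101,118,135,83,50,64] 7 6 (.node [83] 3 2 (.lc 2 8 (.lc 3 0 (.lc 3 9 .stop)))
 (.lc 1 3 (.lc 1 3 (.lc 1 3 (.lc 1 3 (.lc 3 9 (.lc 0 0 (.lc 2 3 .stop))))))))
 (.conf [72,101,118,135] .stop))))))))))
 (.node [50,83,101] 5 3 (.node [82] 0 6 (.far [257,0,257,1,257] 4096 (.far [257,0,257,4096] 0 (.lc 2 5 (.node [71,118] 4 7 (.node [118] 7 6 (.lc 1 0 (.node [101,120] 1 7 (.far [16,257,256,4096,0,0,257,1] 4096 (.lc 1 6 .stop))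
 (.lc 2 5 (.lc 3 1 (.conf [101,134] (.lc 2 5 (.lc 2 5 (.lc 3 5 (.lc 3 5 .stop)))))))))
 (.lc 2 6 (.conf [24,135] (.lc 2 6 (.lc 3 6 .stop)))))
 (.lc 2 5 (.lc 2 5 (.lc 3 5 .stop)))))))
 (.lc 3 7 (.conf [32,114] (.lc 3 7 (.lc 4 8 .stop)))))
 (.node [50,83,101,118,7,64] 5 3 (.node [82] 0 7 (.lc 2 1 (.node [118] 4 7 (.lc 2 0 (.node [72,118] 7 6 (.far [4112,1,4096,0,16,256] 0 (.lc 2 5 (.lc 2 5 (.lc 0 9 (.lc 2 5 (.lc 3 5 .stop))))))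
 (.lc 3 0 (.lc 2 0 (.lc 3 0 (.lc 3 0 (.conf [118,135] (.lc 3 0 (.lc 1 5 (.lc 3 0 (.lc 3 0 (.lc 4 0 (.lc 2 5 (.lc 4 0 (.lc 4 0 (.lc 4 0 (.lc 4 0 (.lc 5 0 .stop))))))))))))))))))
 (.lc 0 8 (.lc 0 8 (.lc 3 1 (.lc 2 6 (.lc 0 9 .stop)))))))
 (.lc 3 8 (.conf [32,130] (.lc 3 8 (.lc 4 9 .stop)))))
 .stop))))))
 (.asm [] 0 (.node [50,69,80,69,50] 0 3 (.lc 1 2 (.lc 2 2 .stop))
 (.node [50,64,83] 4 0 (.lc 0 0 .stop)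
 (.node [50,70,101,70,50] 5 3 (.lc 1 2 (.lc 1 2 (.node [80] 6 5 (.lc 2 0 (.lc 1 0 (.lc 1 0 (.lc 2 0 (.lc 2 0 (.lc 1 1 (.lc 2 0 (.lc 2 0 (.lc 1 1 (.lc 2 0 (.lc 2 0 (.lc 2 0 (.lc 2 0 (.lc 2 0 (.lc 2 0 (.conf [20,97] (.conf [1,112] (.lc 2 0 (.lc 2 0 (.lc 3 0 (.lc 2 1 (.lc 3 0 (.lc 3 0 (.lc 3 0 (.lc 3 0 (.lc 3 0 (.lc 3 0 (.lc 3 0 (.lc 4 0 .stop)))))))))))))))))))))))))))))
 (.conf [32,114] (.lc 2 2 (.lc 2 2 (.lc 2 2 (.lc 2 2 (.lc 2 2 (.lc 2 2 (.node [80] 6 5 (.lc 2 0 (.lc 1 0 (.lc 1 0 (.lc 2 0 (.lc 2 0 (.far [257,0,1,257] 16 (.node [103,112] 4 6 (.far [16,256,257,4096] 0 (.lc 3 8 (.lc 3 1 (.far [16,256,257,4096] 0 (.lc 3 8 (.lc 4 9 .stop))))))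
 (.lc 2 0 (.lc 2 0 (.lc 3 1 (.lc 3 7 (.lc 2 0 (.lc 2 0 (.lc 2 0 (.lc 2 0 (.lc 2 0 (.lc 2 0 (.lc 1 1 (.far [1,4096,1,257] 4096 (.lc 2 0 (.lc 2 0 (.lc 3 0 (.conf [20,113] (.node [104,135,112] 4 6 (.node [72] 4 8 (.lc 1 7 (.lc 2 9 (.lc 1 0 (.lc 3 9 (.lc 3 1 (.lc 2 7 (.lc 3 10 (.conf [23,112] (.lc 3 9 (.lc 3 1 (.lc 3 1 (.conf [25,151] (.lc 4 10 (.lc 4 1 (.lc 4 1 (.lc 4 1 (.lc 4 1 (.lc 5 1 .stop))))))))))))))))))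
 (.lc 3 9 (.lc 3 1 (.lc 1 7 (.lc 3 9 (.lc 4 10 .stop))))))
 (.lc 3 0 (.lc 3 0 (.lc 3 0 (.lc 3 0 (.lc 3 0 (.lc 3 0 (.lc 3 0 (.lc 4 0 .stop))))))))))))))))))))))))))))))))
 (.node [32,87] 7 2 (.node [112] 5 7 (.lc 2 0 (.lc 2 1 (.lc 0 7 (.lc 2 8 (.lc 2 0 (.lc 3 8 (.lc 2 0 (.lc 3 9 (.lc 3 1 (.lc 3 8 (.lc 3 1 (.lc 3 9 (.lc 3 1 (.lc 2 0 (.lc 3 8 (.conf [112,135] (.lc 3 9 (.lc 3 1 (.lc 0 8 (.lc 3 9 (.lc 3 8 (.lc 3 1 (.lc 3 9 (.lc 3 1 (.lc 3 8 (.lc 3 8 (.lc 3 9 (.lc 3 0 (.lc 4 10 (.lc 4 8 (.lc 4 9 (.lc 4 10 (.lc 4 9 (.lc 4 10 (.lc 4 9 (.lc 4 10 (.lc 4 1 (.lc 4 10 (.lc 5 11 .stop)))))))))))))))))))))))))))))))))))))))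
 (.lc 0 5 (.lc 3 8 (.node [120,128] 5 7 (.lc 2 1 (.lc 0 7 (.lc 2 8 (.lc 2 9 (.lc 2 8 (.lc 3 9 (.lc 2 8 (.lc 3 10 (.lc 3 1 (.lc 3 9 (.lc 3 1 (.lc 3 10 (.lc 2 2 (.lc 3 9 (.conf [120,151] (.lc 3 10 (.lc 3 1 (.lc 0 9 (.lc 3 10 (.lc 3 9 (.lc 3 1 (.lc 3 10 (.lc 3 9 (.lc 3 9 (.lc 3 10 (.lc 3 8 (.lc 4 11 (.lc 4 10 (.lc 4 11 (.lc 4 10 (.lc 4 11 (.lc 4 10 (.lc 4 11 (.lc 4 1 (.lc 4 11 (.lc 5 12 .stop))))))))))))))))))))))))))))))))))))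
 (.lc 3 8 (.lc 4 9 .stop))))))
 (.lc 3 0 (.lc 3 7 (.lc 2 2 (.lc 2 2 (.lc 2 2 (.node [87,112] 6 5 (.lc 1 7 (.lc 2 7 (.lc 1 7 (.lc 2 7 (.lc 2 7 (.node [97,112] 6 1 (.lc 1 7 .stop)
 (.node [104,112] 4 6 (.node [72] 8 7 (.conf [1,128] (.lc 3 1 (.conf [20,129] (.lc 3 1 (.lc 3 9 (.lc 4 9 .stop))))))
 (.lc 3 9 (.lc 3 1 (.node [73,135] 8 7 (.lc 2 0 (.lc 3 1 (.conf [1,144] (.conf [20,145] .stop))))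
 (.lc 3 9 (.lc 4 10 .stop))))))
 (.lc 2 7 (.lc 2 7 (.lc 3 8 (.lc 2 7 (.lc 2 7 (.lc 2 7 (.lc 2 7 (.lc 2 7 (.lc 2 7 (.lc 2 7 (.lc 1 0 (.lc 2 7 (.lc 3 7 (.node [105,112,135] 4 6 (.node [73] 8 7 (.conf [1,128] (.lc 3 1 (.conf [20,129] (.lc 3 1 (.lc 3 10 (.lc 4 10 .stop))))))
 (.lc 3 10 (.lc 3 1 (.lc 1 8 (.lc 3 10 (.lc 4 11 .stop))))))
 (.lc 3 7 (.lc 3 7 (.lc 3 7 (.lc 3 7 (.lc 3 7 (.lc 3 7 (.lc 3 7 (.lc 4 7 .stop)))))))))))))))))))))))))))))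
 (.conf [32,114] (.lc 3 2 (.lc 3 2 (.lc 3 2 (.lc 3 2 (.lc 4 7 (.lc 4 8 (.lc 4 7 (.lc 4 8 (.lc 4 7 (.lc 4 8 (.lc 5 8 (.lc 5 9 .stop)))))))))))))))))))))))))))))))
 (.node [69,80,50] 0 3 (.lc 1 0 .stop)
 (.node [64,83,50,64,83] 4 0 (.lc 2 6 (.lc 3 7 .stop))
 (.node [70,83,101,50,70] 4 6 (.lc 2 0 (.lc 2 7 (.lc 3 7 (.lc 3 0 (.lc 3 8 (.lc 0 0 (.conf [23,118] (.lc 3 7 (.lc 3 0 (.lc 3 8 (.lc 3 7 (.lc 3 0 (.lc 3 8 (.lc 0 0 (.lc 2 5 (.lc 0 0 (.node [23,101] 1 7 (.node [118] 7 6 (.lc 1 5 (.lc 1 5 (.lc 0 3 (.lc 1 5 (.lc 2 5 (.lc 2 5 (.lc 2 5 (.lc 2 5 (.lc 3 2 (.lc 3 8 (.lc 2 5 (.lc 2 5 (.lc 2 5 (.lc 3 0 (.conf [120,133] (.lc 2 5 (.lc 2 5 (.lc 2 5 (.lc 2 5 (.lc 2 5 (.lc 2 5 (.lc 2 5 (.lc 2 5 (.lc 2 5 (.lc 2 5 (.lc 1 3 (.lc 2 5 (.lc 3 5 (.lc 3 5 (.lc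 3 5 (.lc 4 9 (.lc 3 5 (.lc 3 5 (.lc 3 5 (.lc 3 5 (.lc 3 5 (.lc 3 5 (.lc 3 5 (.lc 4 5 .stop)))))))))))))))))))))))))))))))))))))))
 (.lc 1 3 (.lc 2 6 (.node [118,135] 7 6 (.lc 1 5 (.lc 0 3 (.lc 1 5 (.lc 1 5 (.lc 2 5 (.lc 2 5 (.lc 2 5 (.lc 2 5 (.lc 3 2 (.lc 3 9 (.lc 2 5 (.lc 2 5 (.lc 3 1 (.conf [121,149] (.lc 2 5 (.lc 2 5 (.lc 2 5 (.lc 2 5 (.lc 2 5 (.lc 2 5 (.lc 2 5 (.lc 2 5 (.lc 2 5 (.lc 1 3 (.lc 2 5 (.lc 3 5 (.lc 3 5 (.lc 4 10 (.lc 3 5 (.lc 3 5 (.lc 3 5 (.lc 3 5 (.lc 3 5 (.lc 3 5 (.lc 3 5 (.lc 4 5 .stop))))))))))))))))))))))))))))))))))))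
 (.lc 2 6 (.lc 3 6 .stop))))))
 (.lc 4 8 (.lc 4 8 (.lc 4 0 (.lc 4 9 (.lc 0 0 (.conf [24,135] (.lc 0 0 (.lc 3 5 (.lc 0 0 (.lc 3 5 (.lc 0 0 (.lc 3 5 (.lc 0 0 (.lc 4 5 .stop)))))))))))))))))))))))))))))))
 (.node [80,69] 5 0 (.node [81,69] 4 5 (.node [70,81] 5 1 (.node [97] 1 4 (.lc 0 1 .stop)
 (.lc 0 7 .stop))
 (.conf [81,101] (.conf [81,101] (.node [71,81,118] 4 7 (.node [118] 5 1 .stop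
 (.lc 2 6 .stop))
 (.conf [81,101] .stop)))))
 (.node [86,97,69] 4 5 (.node [70] 1 4 (.lc 0 1 .stop)
 (.lc 3 7 (.conf [97,118,20,71] (.lc 3 7 (.lc 4 8 .stop)))))
 (.conf [97,20,86,69] (.node [86,97,69] 4 5 (.far [1,1,257,257] 16 (.lc 3 7 (.lc 1 1 (.lc 3 7 (.lc 4 8 .stop)))))
 (.node [87,97,118,20,97,69] 4 5 (.conf [71,118] (.lc 3 8 (.lc 1 6 (.lc 3 8 (.lc 4 9 .stop)))))
 .stop)))))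
 (.node [83,50] 0 5 (.node [83,50] 5 3 (.node [50,86] 2 5 (.node [99] 3 2 (.lc 0 2 .stop)
 (.lc 1 3 .stop))
 (.conf [87,118] (.conf [50,99] (.node [50,87,99] 6 3 (.node [98] 2 5 .stop
 (.lc 3 8 .stop))
 (.conf [88,135] .stop)))))
 (.node [83,101,50] 5 3 (.node [50] 3 2 (.lc 0 2 .stop)
 (.lc 2 2 (.conf [103,115,38,50] (.lc 2 2 (.lc 3 2 .stop)))))
 (.conf [101,38,83,50] (.node [83,101,50] 5 3 (.far [257,257,1,257] 4096 (.lc 2 2 (.lc 0 7 (.lc 2 2 (.lc 3 2 .stop)))))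
 (.node [83,101,118,39,50] 5 3 (.conf [50,99] (.lc 2 2 (.lc 0 8 (.lc 2 2 (.lc 3 2 .stop)))))
 .stop)))))
 (.node [83,101,50] 4 6 (.node [64,101,83] 4 0 (.lc 0 0 (.node [71] 0 6 (.node [101,83] 6 5 (.node [83] 2 5 .stop
 (.lc 2 3 (.lc 2 3 .stop)))
 (.node [101,83] 6 5 (.node [83,117] 4 7 (.node [117] 7 5 (.node [83] 1 5 .stop
 .stop)
 (.conf [24,135] .stop))
 (.lc 2 3 (.lc 2 3 (.lc 2 3 (.lc 0 8 (.lc 2 3 (.lc 3 3 .stop)))))))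
 (.conf [83,96] (.conf [83,96] (.conf [101,134] (.conf [101,134] (.far [257,0,1,257,257] 4096 (.far [257,16,4096] 0 (.node [83,96,133,40] 5 3 (.conf [50,131] (.lc 2 2 (.lc 2 2 (.lc 0 7 (.lc 0 9 (.lc 2 2 (.lc 2 2 (.lc 3 2 (.lc 3 2 (.lc 3 2 .stop))))))))))
 (.node [83,96,133,50,120,71] 4 7 (.lc 1 8 (.lc 1 5 (.lc 2 8 (.far [257,257,256,1,257,1] 4096 (.conf [25,152] .stop)))))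
 .stop))))))))))
 (.node [72,135,72,112] 0 6 (.node [101,83] 6 5 (.node [83] 4 8 (.node [135] 2 5 .stop
 (.lc 2 7 (.conf [25,152] (.lc 2 7 (.lc 3 7 .stop)))))
 (.lc 2 3 .stop))
 (.far [257,16,4096] 0 (.conf [83,96] (.lc 0 5 (.conf [101,150] (.lc 0 9 (.far [257,0,1,257,257] 4096 (.far [257,16,4096] 0 (.node [83,96,149,41] 5 3 (.conf [50,147] (.lc 2 2 (.lc 2 2 (.lc 2 2 (.lc 0 10 (.lc 2 2 (.lc 3 2 (.lc 3 2 .stop))))))))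
 (.lc 0 9 .stop))))))))))
 .stop)))
 (.conf [65,101] (.asm [71,101,83] 1 (.conf [16,65] (.conf [101,112,71] (.node [101,118,83,64,50] 4 0 (.lc 0 0 .stop)
 (.conf [23,65] (.conf [72,101,118,135] (.node [71,101,112,83] 0 6 (.node [101] 6 5 (.node [83] 4 7 (.node [112] 2 5 .stop
 (.node [24,112] 2 5 .stop
 (.conf [24,135] (.node [112,135] 2 5 .stop
 (.conf [25,152] .stop)))))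
 (.lc 2 3 .stop))
 (.lc 2 0 (.conf [101,134] (.lc 1 3 (.lc 2 3 .stop)))))
 (.conf [64,101,118] (.conf [72,101,118] (.conf [16,65] (.node [71,112,71,101,50] 0 6 (.lc 1 5 (.lc 1 3 (.lc 2 5 (.node [83] 5 3 (.lc 0 0 .stop)
 (.conf [40,133] .stop)))))
 (.node [101,118,101,83,64,50] 4 0 (.lc 0 0 .stop)
 (.conf [23,65] (.node [72,135,72,101,50] 4 8 (.lc 2 0 (.conf [24,135] (.lc 2 9 (.lc 0 0 (.lc 3 9 (.lc 3 0 (.lc 2 7 (.lc 3 10 (.lc 0 0 (.lc 3 1 (.lc 0 0 (.lc 3 9 (.lc 3 0 (.conf [25,152] (.lc 3 10 (.lc 0 0 (.lc 3 9 (.lc 3 0 (.lc 2 7 (.lc 3 10 (.lc 0 0 (.lc 3 1 (.lc 0 0 (.lc 3 1 (.lc 4 10 (.lc 0 0 (.lc 4 10 (.lc 4 0 (.lc 3 7 (.lc 4 11 (.lc 0 0 (.lc 4 1 (.lc 0 0 (.lc 4 1 (.lc 0 0 (.lc 4 1 (.lc 0 0 (.lc 4 1 (.lc 0 0 (.lc 5 1 .stop))))))))))))))))))))))))))))))))))))))))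
 (.lc 0 0 (.node [101,83,71,50] 0 6 (.lc 1 3 .stop)
 (.node [101,118,83,64,50] 4 0 (.lc 0 0 (.lc 2 8 (.lc 3 9 .stop)))
 (.conf [65,118,23] (.node [101,118,83,72,50] 7 6 (.node [83] 7 5 (.lc 1 3 (.lc 1 3 (.lc 1 3 (.lc 1 3 (.lc 3 0 (.lc 1 2 (.lc 3 9 (.lc 2 3 (.lc 2 3 (.lc 2 3 (.lc 2 3 (.lc 2 3 (.lc 2 3 (.lc 2 3 (.lc 1 2 (.lc 1 2 (.node [50] 4 8 (.lc 2 0 (.conf [24,131] (.lc 2 9 (.lc 2 3 (.lc 3 9 (.lc 3 0 (.lc 2 3 (.lc 3 10 (.lc 0 0 (.lc 3 1 (.node [16,131] 8 3 (.lc 1 2 (.lc 2 2 (.lc 1 2 (.lc 2 2 (.lc 2 2 (.lc 3 0 (.lc 2 2 (.far [1,0,257,256,0,1,257] 4096 (.lc 3 9 (.lc 2 2 (.lc 2 2 (.lc 2 2 (.lc 2 2 (.lc 3 0 (.lc 3 2 .stop)))))))))))))))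
 (.lc 3 9 (.lc 3 0 (.conf [25,152] (.lc 3 10 (.lc 0 0 (.lc 3 9 (.lc 3 0 (.lc 2 3 (.lc 3 10 (.lc 0 0 (.lc 3 1 (.lc 3 1 (.lc 3 1 (.lc 4 10 (.lc 3 3 (.lc 4 10 (.lc 4 0 (.lc 3 3 (.lc 4 11 (.lc 4 1 (.lc 4 1 (.lc 4 1 (.lc 4 1 (.lc 4 1 (.lc 4 1 (.lc 0 0 (.lc 4 1 (.lc 5 1 (.lc 5 1 .stop))))))))))))))))))))))))))))))))))))))))
 (.lc 2 3 (.lc 2 3 (.lc 2 3 (.lc 2 3 (.lc 2 2 (.lc 2 2 (.lc 2 2 (.lc 3 3 (.lc 3 3 (.lc 3 3 (.lc 3 3 (.lc 3 3 (.lc 0 0 (.lc 2 2 (.lc 0 9 (.lc 2 2 (.lc 2 2 (.lc 2 2 (.lc 2 2 (.lc 3 2 (.lc 3 2 (.lc 3 2 .stop)))))))))))))))))))))))))))))))))))))))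
 (.lc 1 3 (.lc 1 3 (.lc 1 3 (.lc 1 3 (.lc 1 3 (.lc 1 3 (.lc 3 0 (.lc 3 9 (.lc 2 3 (.lc 2 3 (.lc 2 3 (.lc 2 3 (.lc 2 3 .stop))))))))))))))
 (.conf [71,101] (.conf [64,101] (.conf [72,101] (.node [71,101,112,83] 0 6 (.node [101] 6 5 (.node [83] 4 7 (.node [112] 2 5 .stop
 (.lc 2 0 (.conf [24,135] (.lc 2 0 (.lc 3 0 .stop)))))
 (.lc 2 3 .stop))
 (.node [101] 6 5 (.node [83,133] 4 7 (.node [112] 7 0 (.far [16,0,0,257,4096] 0 (.conf [121,152] .stop))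
 (.lc 2 0 (.lc 2 0 (.conf [25,151] (.lc 2 0 (.lc 3 0 .stop))))))
 (.lc 2 3 (.lc 2 3 (.lc 2 3 (.lc 0 9 (.lc 2 3 (.lc 3 3 .stop)))))))
 (.lc 2 0 (.lc 2 0 (.conf [101,134] (.conf [101,134] (.conf [101,134] (.lc 1 3 (.lc 1 3 (.lc 2 0 (.node [101] 6 5 (.node [83,133] 4 7 (.node [112] 2 8 (.far [257,4112,0,257,1,0,256] 0 (.lc 0 9 (.lc 0 9 (.far [257,4112,0,257,1,0,256] 0 (.lc 0 10 .stop)))))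
 (.lc 2 0 (.lc 2 0 (.conf [25,151] (.lc 2 0 (.lc 3 0 .stop))))))
 (.lc 2 3 (.lc 2 3 (.lc 0 9 (.lc 2 3 (.lc 3 3 .stop))))))
 (.lc 2 3 (.lc 2 3 (.conf [101,134] (.lc 3 0 (.lc 2 3 (.lc 2 3 (.lc 3 3 .stop))))))))))))))))))
 (.node [64,101,83] 4 0 (.lc 0 0 .stop)
 (.node [72,101,135,83] 4 8 (.node [135] 6 5 (.node [83,96] 6 0 (.node [] 0 5 (.node [83] 5 3 (.lc 1 2 .stop)
 (.node [83] 7 5 (.far [1,4096,4096,0,0,1,256] 0 (.lc 3 0 (.conf [121,147] .stop)))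
 (.lc 1 2 (.lc 2 0 (.conf [83,149] (.lc 0 9 (.lc 2 0 (.lc 3 0 .stop))))))))
 (.lc 0 1 (.lc 0 9 .stop)))
 (.node [83,98] 6 2 (.lc 0 0 .stop)
 (.node [83,105] 7 6 (.node [149] 8 7 (.node [121,128] 8 0 (.far [32,8224,1,4112,4112,8208,4112,16] 257 .stop)
 (.node [121,130] 8 2 .stop
 (.node [50,121,131] 8 3 .stop
 (.lc 1 6 (.node [121,138] 1 8 (.node [167] 1 10 (.far [8224,8192,8224,1,4112,4112,8208,4112,16] 257 (.node [167,154] 9 10 (.conf [118,149] .stop)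
 (.node [167,186] 10 7 (.far [8224,8192,0,32,1,4112,4112,8208,4112,16] 257 (.lc 2 6 (.far [16,0,0,16,257,0,0,4096] 0 (.far [8224,8192,0,32,1,4112,4112,8208,4112,16] 257 (.lc 2 6 (.lc 3 6 .stop))))))
 (.far [8224,8192,8224,1,4112,4112,8208,4112,16] 257 (.node [167,186] 10 7 (.node [183] 11 7 (.far [16,16,0,0,16,257,0,0,4096] 0 (.lc 3 0 (.conf [188,201] (.lc 3 0 (.lc 4 0 (.lc 4 0 .stop))))))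
 (.lc 2 6 (.lc 0 9 (.lc 0 12 (.lc 2 6 (.lc 3 6 .stop))))))
 (.node [167,186,203] 10 7 (.node [183] 11 7 (.far [16,16,0,0,16,257,0,0,4096] 0 (.lc 3 7 (.conf [189,217] (.lc 3 7 (.lc 4 7 .stop)))))
 (.lc 2 6 (.lc 0 9 (.lc 0 13 (.lc 2 6 (.lc 3 6 .stop))))))
 .stop))))))
 (.lc 1 7 (.lc 1 7 (.lc 1 7 (.far [2,8224,1,4112,12304,8208,4112,528] 257 (.lc 2 7 .stop))))))
 (.conf [138,160] (.node [121,128] 2 7 (.node [41] 2 9 (.far [257,256,0,257,0,4112,1,0,256] 0 (.lc 0 10 (.lc 0 2 .stop)))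
 (.lc 3 0 (.lc 0 9 (.lc 1 5 (.lc 3 0 (.lc 4 0 .stop))))))
 (.conf [138,162] (.node [50,121,128,55] 0 3 (.lc 1 7 .stop)
 (.node [32,121,55] 8 2 .stop
 (.conf [138,163] (.conf [87,121] (.node [121,128,167] 8 0 (.node [] 7 9 (.far [257,257,256,257,0,16,1] 0 (.lc 2 5 (.lc 2 5 (.lc 2 5 (.node [171,185] 9 5 (.node [83,146] 9 2 .stop
 (.lc 2 5 (.node [83,156] 11 9 (.far [16,257,16,0,0,4096,4096] 0 (.lc 3 2 (.lc 3 3 (.lc 3 13 (.lc 1 5 (.lc 3 13 (.lc 1 12 (.lc 4 14 .stop))))))))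
 (.lc 1 2 (.lc 2 3 (.lc 2 3 (.lc 3 5 (.lc 3 5 (.conf [83,197] (.lc 2 3 (.lc 2 3 (.lc 2 3 (.lc 3 5 (.lc 3 5 (.lc 3 3 (.lc 3 3 (.lc 4 5 (.lc 2 2 (.lc 3 3 (.lc 3 3 (.lc 3 3 (.lc 4 3 .stop))))))))))))))))))))))
 (.lc 2 5 (.lc 2 9 (.lc 3 5 .stop))))))))
 .stop)
 (.conf [139,186] (.lc 3 1 (.lc 2 6 (.lc 3 1 (.conf [138,160] (.node [121,128] 2 7 (.node [55] 1 8 (.far [4096,4112,4128,1,4112,0,8208,4112,4112] 1 .stop)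
 (.lc 0 9 (.lc 0 9 (.lc 0 10 (.lc 2 2 (.lc 0 10 .stop))))))
 (.lc 1 7 (.lc 2 6 (.lc 2 6 (.conf [121,167] (.conf [121,167] (.node [48,50,121,131] 8 3 .stop
 (.node [121,138] 0 7 (.lc 1 5 .stop)
 (.node [121,128,39] 2 7 (.lc 0 9 .stop)
 (.lc 1 7 (.node [121,128,167] 8 0 (.node [] 10 7 (.far [16,257,257,257,0,16,258] 0 (.lc 1 5 (.lc 1 5 (.lc 1 5 (.lc 1 5 (.lc 3 11 (.lc 1 9 (.lc 2 5 .stop))))))))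
 .stop)
 (.node [121,130,167] 8 2 .stop
 (.node [50,121,131,167] 8 3 .stop
 (.node [121,139,167] 10 7 (.node [169] 8 11 (.far [257,16,257,257,0,16,258] 0 (.lc 2 10 (.node [] 10 9 (.node [149,162] 10 2 .stop
 (.node [50,57,163] 10 3 (.conf [32,178] .stop)
 (.lc 1 5 (.node [149,172] 9 5 (.node [83] 11 10 (.far [16,0,257,0,256,16,257,0,0,4096] 0 (.lc 1 5 (.lc 1 5 (.lc 1 5 (.lc 1 5 (.node [189,220] 12 5 (.far [1,1,4096,4096,0,0,1,0,0,0,257,256] 0 (.lc 3 5 (.lc 0 3 (.conf [206,227] (.lc 3 5 (.lc 4 5 .stop))))))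
 (.lc 1 12 (.lc 2 5 .stop))))))))
 (.lc 2 3 (.conf [83,213] (.lc 2 3 (.lc 3 3 .stop)))))
 (.lc 2 5 (.lc 3 7 (.lc 1 9 (.lc 1 3 (.conf [173,220] (.lc 1 3 (.lc 2 5 (.lc 3 7 (.lc 3 7 (.lc 2 5 (.lc 3 7 (.lc 2 3 (.lc 2 9 (.lc 2 3 (.lc 4 7 (.lc 3 5 (.lc 2 3 (.lc 2 3 (.lc 3 3 .stop)))))))))))))))))))))))
 (.lc 2 10 (.lc 2 10 (.lc 3 10 .stop))))))
 (.lc 1 5 (.lc 1 5 (.lc 1 5 (.lc 1 5 (.lc 1 5 (.lc 1 5 (.lc 3 0 (.lc 3 12 (.lc 2 5 (.lc 2 5 (.lc 1 9 (.lc 2 5 (.lc 2 5 .stop))))))))))))))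
 (.lc 3 1 (.lc 3 1 (.lc 3 1 (.conf [139,186] (.conf [138,160] (.lc 2 7 (.lc 2 7 (.conf [139,176] (.node [121,128,167,42] 10 7 (.node [169] 2 10 (.node [169] 10 9 (.far [257,16,256,16,257,0,0,4096] 17 (.lc 0 2 (.lc 0 2 .stop)))
 (.lc 0 9 (.lc 0 11 .stop)))
 (.lc 1 5 (.lc 1 5 (.lc 1 5 (.lc 3 11 (.lc 2 5 .stop))))))
 (.lc 1 10 (.node [121,128,167,186] 8 0 (.node [] 10 7 (.far [16,257,272,257,0,16,4096] 0 (.lc 1 5 (.lc 1 5 (.lc 1 5 (.lc 1 5 (.lc 3 12 (.lc 1 9 (.lc 2 5 .stop))))))))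
 .stop)
 (.conf [140,203] (.lc 3 6 (.lc 4 1 (.lc 4 1 (.lc 4 1 (.lc 4 1 (.lc 4 1 (.lc 5 1 .stop)))))))))))))))))))))))))))))))))))))))))))))))))))
 (.lc 3 0 (.lc 3 2 (.lc 3 10 (.lc 1 5 (.lc 1 5 (.lc 3 0 (.lc 3 10 (.lc 4 10 (.lc 4 0 (.lc 4 0 (.lc 4 11 .stop))))))))))))
 (.lc 2 3 (.lc 2 3 (.lc 2 3 (.lc 2 3 (.lc 2 3 (.lc 3 4 (.lc 3 4 (.conf [105,144] (.node [83,96] 2 5 .stop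
 (.conf [83,149] (.conf [83,149] (.lc 2 3 (.lc 2 3 (.lc 2 3 (.lc 2 3 (.lc 2 3 (.lc 2 3 (.lc 2 3 (.lc 2 3 (.lc 2 3 (.lc 3 4 (.lc 3 4 (.lc 3 4 (.lc 3 3 (.lc 3 3 (.lc 3 3 (.lc 3 3 (.lc 3 3 (.lc 3 3 (.lc 4 4 (.lc 4 4 (.lc 4 4 (.lc 4 4 (.lc 3 3 (.lc 3 3 (.lc 3 3 (.lc 3 3 (.lc 3 3 (.lc 3 3 (.lc 3 3 (.lc 3 3 (.lc 3 3 (.lc 3 3 (.lc 3 3 (.lc 3 3 (.lc 3 3 (.lc 3 3 (.lc 3 3 (.lc 4 3 (.lc 4 3 (.lc 4 3 (.lc 4 3 (.lc 4 3 (.lc 4 3 .stop)))))))))))))))))))))))))))))))))))))))))))))))))))))))))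
 (.lc 0 0 (.lc 2 7 (.lc 0 0 (.conf [25,152] (.lc 0 0 (.lc 2 7 (.lc 0 0 (.lc 3 7 .stop)))))))))
 (.conf [101,135,72] (.conf [16,65] (.conf [101,128,72] (.node [101,118,135,83,64,50] 4 0 (.lc 0 0 .stop)
 (.conf [24,65] (.conf [73,101,118,135,152] (.node [72,101,135,83,112] 0 6 (.node [101] 6 5 (.node [83] 4 8 (.node [135] 2 5 .stop
 (.lc 2 7 (.conf [25,152] (.lc 2 7 (.lc 3 7 .stop)))))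
 (.lc 2 3 .stop))
 (.lc 2 0 (.conf [101,150] (.lc 1 3 (.lc 2 3 .stop)))))
 (.conf [72,101,118] (.conf [64,101,118] (.conf [73,101,118] (.conf [72,101] (.conf [72,101] (.conf [64,101] (.conf [73,101] (.conf [72,101] (.conf [72,101] (.conf [64,101] (.conf [73,101] (.conf [72,101] (.conf [72,101] (.conf [64,101] (.conf [73,101] (.conf [73,101] (.conf [73,101] (.conf [73,101] (.conf [64,101] (.conf [74,101] .stop))))))))))))))))))))))))))))))))))))))))))))))))))))))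
 (.node [50,69] 0 3 .stop
 (.node [50,64,83] 4 0 (.lc 0 0 (.node [] 0 5 (.far [257,0,1,257] 4096 (.far [4112,1,256] 0 (.lc 2 3 (.lc 2 3 (.conf [117,39,83,50] (.far [4112,1,256] 0 (.lc 2 3 (.lc 2 3 (.lc 3 3 (.lc 3 3 .stop))))))))))
 (.lc 3 7 (.node [96,118,5,71] 0 5 (.far [257,0,1,257] 4096 (.node [101,118] 5 3 (.node [50,87,118,101] 5 7 .stop
 (.node [50,88,101,118] 6 5 (.node [104] 7 6 (.node [120] 8 3 (.far [1,0,1,4096,1,0,1,257] 4096 (.lc 3 3 (.conf [32,146] .stop)))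
 (.lc 3 1 (.lc 3 2 (.lc 3 9 (.lc 1 3 (.lc 3 9 (.lc 4 10 .stop)))))))
 (.lc 3 0 (.lc 1 3 (.lc 3 0 (.lc 4 0 .stop)))))
 (.conf [50,88] (.conf [50,80] (.conf [50,131] (.conf [50,87] (.conf [50,88] (.conf [80,98] (.conf [50,80] (.conf [50,89] (.conf [50,80] (.conf [50,114,32] (.conf [96,114] (.conf [80,104] (.conf [32,130] .stop)))))))))))))))
 (.lc 2 3 (.lc 2 3 (.conf [133,40,83,50] (.conf [83,104,133] (.lc 2 3 (.lc 2 3 (.lc 3 3 (.lc 3 3 .stop))))))))))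
 (.lc 3 7 (.lc 4 8 .stop))))))
 (.node [50,70,83] 5 3 (.node [50,80,70] 0 3 (.node [] 6 5 (.node [80,97] 1 5 (.far [257,1,0,0,1,257] 16 .stop)
 (.node [80,103] 7 5 (.far [3,3,516,12289,4098,514] 8192 (.lc 3 1 (.node [113] 1 4 (.node [116] 4 6 (.lc 1 4 (.node [72] 7 4 (.far [16,257,256,4112,16,0,0,256] 4097 (.far [16,257,256,4112,16,0,0,256] 4097 .stop))
 (.lc 2 7 (.node [73,152,73,134] 7 4 (.node [152] 6 7 .stop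
 (.lc 1 8 .stop))
 (.lc 2 7 (.lc 3 7 .stop))))))
 (.lc 2 6 (.far [4112,256,0,16,256,0,4096] 0 (.lc 2 6 (.lc 3 6 .stop)))))
 (.lc 3 1 (.lc 3 8 (.lc 4 8 .stop))))))
 (.lc 2 0 (.lc 2 0 (.conf [80,117] (.conf [80,117] (.conf [80,117] (.lc 2 0 (.lc 2 0 (.lc 2 0 (.node [80,103,113] 1 5 (.far [257,1,0,0,1,257] 16 .stop)
 (.node [80,104,135] 7 5 (.far [3,3,516,12289,4098,514] 8192 (.lc 3 1 (.far [1,1,1,4096,1,257] 16 (.lc 3 1 (.lc 3 9 (.lc 4 9 .stop))))))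
 (.lc 3 0 (.conf [80,117] (.lc 3 0 (.lc 3 0 (.lc 3 0 (.lc 3 0 (.lc 4 0 .stop)))))))))))))))))))
 .stop)
 (.node [50,87,70] 3 2 (.node [114] 5 7 (.node [80,114] 5 0 (.far [4112,4112,4112,4096,1,257] 4096 (.far [4096,0,0,0,1,257] 16 (.far [4096,0,0,0,1,257] 16 (.far [4112,4112,4112,4096,1,257] 4096 (.node [97] 1 4 (.lc 1 1 .stop)
 (.far [4112,4112,4112,4096,1,257] 16 .stop))))))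
 (.node [81,114] 5 1 .stop
 (.lc 1 2 (.node [88,114] 6 5 (.far [1,4112,4112,4096,1,257] 4096 (.lc 1 7 (.lc 1 7 (.lc 1 7 (.lc 1 7 (.lc 1 7 (.far [1,4112,4112,4096,1,257] 4096 (.far [1,4112,4112,4096,1,257] 4096 (.lc 2 7 (.lc 2 7 (.lc 2 7 (.lc 2 7 .stop))))))))))))
 (.lc 2 2 (.lc 2 2 (.lc 2 2 (.lc 2 2 (.lc 2 2 (.lc 3 3 (.lc 3 3 (.node [81,114] 5 1 .stop
 (.conf [88,128] (.lc 2 2 (.node [80,114,135] 5 0 (.far [4096,0,0,0,1,257] 16 .stop)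
 (.conf [89,152] (.lc 2 2 (.lc 2 2 (.lc 2 2 (.lc 2 2 (.lc 2 2 (.lc 3 3 (.lc 3 3 (.lc 3 3 (.lc 3 3 (.lc 3 3 (.lc 3 3 (.lc 3 3 (.lc 3 2 (.lc 3 2 (.lc 3 2 (.lc 3 2 (.lc 3 2 (.lc 3 2 (.lc 4 3 (.lc 4 3 (.lc 4 3 (.lc 4 3 (.lc 4 3 (.lc 4 3 (.lc 4 3 (.lc 4 3 (.lc 4 3 (.lc 4 3 (.lc 4 3 (.lc 4 3 (.lc 4 3 (.lc 4 3 (.lc 4 3 (.lc 4 3 (.lc 4 3 (.lc 4 3 (.lc 4 3 (.lc 5 3 (.lc 5 3 (.lc 5 3 (.lc 5 3 (.lc 5 3 (.lc 5 3 .stop)))))))))))))))))))))))))))))))))))))))))))))))))))))))))))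
 (.lc 0 0 (.lc 0 8 (.lc 0 0 (.lc 0 8 (.node [112] 5 7 (.lc 1 0 (.node [81,112] 5 1 .stop
 (.node [88,112] 6 5 (.far [1,4112,4112,4096,1,257] 4096 (.lc 1 7 (.lc 1 7 (.lc 1 7 (.far [1,4112,4112,4096,1,257] 4096 (.lc 2 7 .stop))))))
 (.lc 2 0 (.lc 2 0 (.lc 3 3 (.lc 2 0 (.conf [89,152] (.lc 2 0 (.lc 2 0 (.lc 3 3 (.lc 3 3 (.lc 3 3 (.lc 3 3 (.lc 3 3 (.lc 3 0 (.lc 4 3 (.lc 4 3 (.lc 4 3 (.lc 4 3 (.lc 4 3 (.lc 4 3 (.lc 4 3 (.lc 5 3 .stop))))))))))))))))))))))))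
 (.conf [32,130] (.lc 0 8 (.lc 0 9 .stop)))))))))
 (.conf [50,80] (.conf [50,87] (.conf [50,87] (.conf [50,80] (.conf [50,88] (.conf [87,112] (.conf [50,115] (.conf [50,115] (.conf [50,80] (.conf [50,87] (.node [50,80] 6 5 (.far [1,1,1,257] 4096 (.far [257,0,1,257] 16 (.node [103,112,70] 4 6 (.lc 2 1 (.lc 1 7 (.lc 3 1 (.node [72,135,112] 4 8 (.conf [24,135] (.lc 2 9 (.lc 2 7 (.lc 3 10 (.lc 3 1 (.conf [25,152] (.lc 3 10 (.lc 2 7 (.lc 3 10 (.lc 3 1 (.lc 3 1 (.lc 3 7 (.lc 4 11 (.lc 4 1 (.lc 4 1 (.lc 4 1 (.lc 4 1 (.lc 5 1 .stop))))))))))))))))))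
 (.lc 3 9 (.lc 3 1 (.lc 2 7 (.lc 3 1 (.lc 1 0 (.lc 3 8 (.lc 3 9 (.lc 4 1 (.lc 2 0 (.lc 4 10 (.lc 4 9 (.lc 4 9 (.lc 4 9 (.lc 5 10 .stop))))))))))))))))))
 (.node [97] 1 4 (.lc 1 1 .stop)
 (.node [103,112,103,70] 4 6 (.lc 2 1 (.lc 1 4 (.node [72,103] 6 7 (.lc 2 1 (.far [4112,1,4112,0,256] 0 (.lc 2 9 (.lc 2 0 (.lc 3 9 (.lc 2 0 (.lc 3 10 (.lc 3 4 (.far [4112,1,4112,0,256] 0 (.lc 3 10 (.lc 3 1 (.lc 2 0 (.lc 3 10 (.lc 3 4 (.lc 3 4 (.lc 3 4 (.lc 3 4 (.lc 3 0 (.lc 4 11 (.lc 4 4 (.lc 4 4 (.lc 4 4 (.lc 4 4 (.lc 4 4 (.lc 4 4 (.lc 5 4 .stop))))))))))))))))))))))))))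
 (.lc 3 1 (.lc 2 7 (.lc 3 8 (.lc 3 9 (.lc 3 1 (.lc 2 4 (.lc 3 1 (.node [73,103,134] 6 7 (.lc 2 1 (.node [112] 8 7 (.lc 1 0 (.lc 1 0 (.lc 3 1 (.lc 2 0 (.lc 2 0 (.lc 2 0 (.lc 2 0 (.lc 3 0 (.conf [20,145] .stop)))))))))
 (.lc 2 10 (.lc 2 0 (.lc 3 10 (.lc 2 0 (.lc 3 11 (.lc 3 4 (.lc 0 10 (.lc 3 11 (.lc 3 1 (.lc 2 0 (.lc 3 11 (.lc 3 4 (.lc 3 4 (.lc 3 4 (.lc 3 4 (.lc 3 0 (.lc 4 12 (.lc 4 4 (.lc 4 4 (.lc 4 4 (.lc 4 4 (.lc 4 4 (.lc 4 4 (.lc 5 4 .stop))))))))))))))))))))))))))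
 (.lc 3 1 (.lc 2 7 (.lc 3 9 (.lc 3 8 (.lc 3 9 (.lc 4 1 (.lc 3 7 (.lc 4 9 (.lc 4 10 (.lc 4 10 (.lc 4 10 (.lc 4 10 (.lc 5 11 .stop))))))))))))))))))))))))
 (.conf [97,70,20] (.far [2,4097,2,257] 4096 (.conf [103,113,70,20] (.node [104,135,70,112] 4 6 (.lc 2 1 (.lc 1 8 (.lc 3 1 (.lc 1 7 (.lc 3 10 (.lc 3 1 (.lc 2 8 (.lc 3 1 (.node [73,135] 8 7 (.far [4112,1,4112,0,256] 0 (.lc 2 0 (.lc 2 0 (.far [4112,1,4112,0,256] 0 (.lc 2 0 (.lc 3 0 .stop))))))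
 (.lc 3 9 (.lc 3 10 (.lc 4 1 (.node [74,135,152] 9 8 (.node [112] 9 7 (.lc 1 0 (.lc 1 0 (.lc 3 1 (.lc 2 0 (.lc 2 0 (.lc 2 0 (.lc 2 0 (.lc 3 0 (.conf [20,161] .stop)))))))))
 (.lc 1 0 (.lc 1 0 (.lc 1 0 (.lc 3 11 (.lc 2 0 .stop))))))
 (.lc 4 11 (.lc 4 10 (.lc 4 10 (.lc 4 10 (.lc 5 11 .stop))))))))))))))))))
 .stop)))))))))
 (.node [50,87,32] 6 5 (.far [1,4096,1,257] 4096 (.lc 1 2 (.lc 1 2 (.lc 1 2 (.lc 1 2 (.lc 1 2 (.far [1,4096,1,257] 4096 (.conf [114,135] (.lc 2 2 (.lc 2 2 (.lc 2 2 (.lc 2 2 .stop))))))))))))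
 (.conf [50,87] (.conf [50,80] (.conf [50,88] (.conf [50,87] (.conf [50,88] (.conf [50,88] (.conf [50,88] (.conf [50,80] (.conf [50,89] (.node [50,87,112] 5 7 (.far [8224,4097,2,257] 4096 (.lc 2 0 (.lc 2 0 (.far [8224,4097,2,257] 4096 (.lc 2 0 (.lc 3 0 .stop))))))
 (.conf [50,114,32] (.node [50,87,112] 5 7 (.far [4112,1,1,257] 4096 (.lc 2 0 (.lc 2 0 (.far [4112,1,1,257] 4096 (.lc 2 0 (.lc 3 0 .stop))))))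
 (.node [32,50,88,135] 5 8 (.node [135,104,70] 7 2 (.far [1,4112,1,1,257] 4096 (.lc 0 8 (.lc 3 9 (.node [121,144] 8 7 (.lc 2 1 (.lc 0 6 (.lc 1 2 (.lc 2 10 (.lc 0 6 (.lc 2 9 (.lc 1 6 (.lc 2 9 (.lc 1 7 (.lc 2 2 (.conf [121,167] (.lc 0 6 (.lc 2 2 (.lc 3 11 (.lc 2 9 (.lc 2 9 (.lc 0 6 (.lc 2 9 (.lc 2 9 (.lc 0 4 (.lc 2 9 (.lc 0 1 (.lc 0 9 (.lc 0 10 (.lc 1 6 (.lc 0 6 (.lc 3 9 (.lc 0 10 (.lc 0 11 (.lc 0 10 (.lc 0 11 (.lc 0 1 (.lc 0 11 (.lc 1 10 (.lc 3 9 (.lc 0 12 .stop))))))))))))))))))))))))))))))))))))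
 (.lc 3 9 (.lc 4 10 .stop))))))
 (.lc 2 7 (.lc 2 7 (.lc 2 7 (.node [96,135,70] 2 0 .stop
 (.node [105,135,70] 7 2 (.far [1,4112,1,1,257] 4096 (.lc 3 9 (.lc 3 10 (.node [122,160] 8 7 (.lc 2 1 (.lc 0 6 (.lc 1 2 (.lc 2 11 (.lc 0 6 (.lc 2 10 (.lc 1 6 (.lc 2 10 (.lc 2 2 (.conf [122,183] (.lc 0 6 (.lc 2 2 (.lc 3 12 (.lc 2 10 (.lc 2 10 (.lc 0 6 (.lc 2 10 (.lc 2 10 (.lc 1 6 (.lc 2 10 (.lc 0 1 (.lc 1 6 (.lc 2 2 (.lc 0 11 (.lc 1 6 (.lc 0 6 (.lc 3 10 (.lc 1 6 (.lc 3 2 (.lc 0 12 (.lc 1 6 (.lc 3 10 (.lc 2 6 (.lc 3 10 (.lc 3 10 (.lc 3 10 (.lc 1 6 (.lc 3 10 (.lc 1 6 (.lc 3 10 (.lc 2 6 (.lc 1 6 (.lc 4 10 .stop)))))))))))))))))))))))))))))))))))))))))))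
 (.lc 3 10 (.lc 4 11 .stop))))))
 (.lc 2 7 (.lc 2 7 (.lc 3 7 (.lc 3 7 (.lc 3 7 (.lc 3 7 .stop))))))))))))
 (.node [50,87,112] 6 5 (.far [1,4096,1,257] 4096 (.node [97,112,70] 6 1 .stop
 (.node [104,112,70] 4 6 (.lc 2 1 (.lc 1 8 (.lc 3 1 (.node [73,135] 8 7 (.lc 1 0 (.lc 1 0 (.lc 1 0 (.lc 3 1 (.conf [1,144] (.lc 3 10 (.lc 2 0 (.lc 2 0 (.lc 2 0 (.lc 2 0 (.lc 3 1 (.lc 3 1 (.lc 3 10 (.lc 2 0 (.lc 2 0 (.conf [20,145] (.lc 4 10 (.lc 3 0 (.lc 4 10 (.lc 4 11 (.lc 4 10 (.lc 4 10 (.lc 5 11 .stop)))))))))))))))))))))))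
 (.lc 3 10 (.lc 3 1 (.lc 2 8 (.lc 3 1 (.lc 1 7 (.lc 3 9 (.lc 3 10 (.lc 4 1 (.lc 2 7 (.lc 4 11 (.lc 4 10 (.lc 4 10 (.lc 4 10 (.lc 5 11 .stop))))))))))))))))))
 (.node [112,135,104,70] 8 7 (.lc 1 0 (.lc 0 6 (.lc 1 0 (.lc 3 1 (.lc 3 9 (.lc 2 0 (.lc 2 0 (.lc 0 6 (.lc 2 0 (.lc 0 6 (.lc 2 0 (.lc 3 1 (.node [129] 6 8 (.conf [20,97] (.lc 3 9 .stop))
 (.lc 0 6 (.node [1,137] 6 8 (.conf [105,144] (.lc 3 1 (.lc 3 10 (.lc 0 9 (.lc 1 0 (.lc 3 10 (.lc 4 11 .stop)))))))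
 (.lc 0 6 (.lc 2 0 (.lc 1 6 (.lc 2 0 (.lc 1 0 (.lc 4 9 (.lc 1 6 (.lc 0 6 (.lc 3 0 (.lc 1 0 (.conf [20,145] (.conf [1,144] (.lc 1 0 (.node [137,145] 6 8 (.far [1,1,257,0,1,257] 16 (.lc 3 10 (.lc 0 9 (.lc 1 1 (.lc 3 10 (.lc 4 11 .stop))))))
 (.lc 1 0 (.node [20,137] 6 8 (.conf [105,145] (.lc 3 10 (.lc 0 9 (.lc 1 1 (.lc 3 10 (.lc 4 11 .stop))))))
 (.lc 2 0 (.conf [20,145] .stop)))))))))))))))))))))))))))))))))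
 (.far [1,4096,1,257] 4096 (.node [105,112,135,70] 4 6 (.lc 2 1 (.lc 1 9 (.lc 3 1 (.lc 1 8 (.lc 3 11 (.lc 3 1 (.lc 2 9 (.lc 3 1 (.node [74,152] 9 8 (.far [4112,1,4112,0,256] 0 (.lc 2 7 (.lc 2 7 (.far [4112,1,4112,0,256] 0 (.lc 2 7 (.lc 3 7 .stop))))))
 (.lc 3 10 (.lc 3 11 (.lc 4 1 (.node [75,152,169] 10 9 (.node [135] 8 7 (.lc 1 0 (.lc 1 0 (.lc 1 0 (.lc 3 1 (.lc 3 12 (.lc 2 0 (.lc 2 0 (.lc 3 1 (.lc 0 0 (.lc 2 0 (.lc 4 12 (.lc 3 0 (.conf [1,176] (.lc 0 1 (.conf [20,177] .stop)))))))))))))))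
 (.lc 1 7 (.lc 1 7 (.lc 1 7 (.lc 3 12 (.lc 2 7 .stop))))))
 (.lc 4 12 (.lc 4 11 (.lc 4 11 (.lc 4 11 (.lc 5 12 .stop))))))))))))))))))
 .stop))))))
 (.conf [32,114] (.node [50,88,135,112] 5 8 (.far [4112,4096,1,257] 4096 (.lc 2 7 (.lc 2 7 (.far [4112,4096,1,257] 4096 (.lc 2 7 (.lc 3 7 .stop))))))
 (.conf [32,114] .stop)))))))))))))))))))))))))))))))
 (.node [50,69,80] 0 3 (.node [50,69,80] 5 0 (.far [1,0,257,257] 16 (.far [1,4112,257] 0 (.lc 3 7 (.lc 3 7 (.node [6,113] 1 4 (.far [4112,1,0,257,1] 16 (.conf [69,100] (.conf [69,132] .stop)))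
 (.node [99,118] 6 3 (.node [98] 7 6 (.far [1,4096,1,4112,257,257] 4096 (.lc 3 8 .stop))
 (.lc 3 0 (.conf [32,130] (.lc 3 0 (.lc 4 0 .stop)))))
 (.lc 3 7 (.lc 3 7 (.lc 4 8 (.lc 4 8 .stop))))))))))
 (.conf [50,99] .stop))
 (.node [50,64,83] 4 0 (.node [70,50,83] 0 5 (.far [257,0,257,257] 4096 (.far [257,16,1] 0 (.lc 2 3 (.lc 2 3 (.node [1,117] 3 2 (.far [16,257,0,257,257] 4096 (.conf [54,103] (.conf [56,135] .stop)))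
 (.node [103,117] 4 6 (.node [103] 6 7 (.far [257,256,257,16,1,1] 4096 (.lc 2 5 .stop))
 (.lc 2 0 (.conf [24,134] (.lc 2 0 (.lc 3 0 .stop)))))
 (.lc 2 3 (.lc 2 3 (.lc 3 3 (.lc 3 3 .stop))))))))))
 (.conf [71,118] .stop))
 (.asm [50,70,83] 2 (.node [69,80,50] 0 3 (.lc 1 0 (.node [] 5 0 (.far [1,0,257,257] 16 (.far [16,257,4096] 0 (.lc 3 7 (.lc 3 7 (.conf [113,20,87,69] (.far [16,257,4096] 0 (.lc 3 7 (.lc 3 7 (.lc 4 8 (.lc 4 8 .stop))))))))))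
 (.lc 2 2 (.node [99,118,7,50] 5 0 (.far [1,0,257,257] 16 (.node [118,99] 4 5 (.node [70,87,99,118] 6 5 .stop
 (.node [72,87,118,99] 5 7 (.node [118] 7 6 (.node [99] 4 8 (.far [257,0,257,256,257,0,257,1] 4096 (.lc 2 4 (.conf [25,152] .stop)))
 (.lc 2 3 (.lc 2 3 (.lc 2 3 (.lc 0 9 (.lc 2 3 (.lc 3 3 .stop)))))))
 (.lc 2 0 (.lc 0 9 (.lc 1 3 (.lc 2 3 .stop)))))
 (.conf [72,80] (.conf [65,87] (.conf [87,133] (.conf [70,80] (.conf [80,118] (.conf [65,87] (.conf [65,87] (.conf [72,80] (.conf [65,87] (.conf [80,118] (.conf [99,112] (.conf [65,99,22] (.conf [24,134] .stop)))))))))))))))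
 (.lc 3 8 (.lc 3 8 (.conf [129,20,88,69] (.conf [88,118,135] (.lc 3 8 (.lc 3 8 (.lc 4 9 (.lc 4 9 .stop))))))))))
 (.lc 2 2 (.lc 3 2 .stop))))))
 (.node [64,50] 4 0 .stop
 (.node [70,101,50] 4 6 (.node [64,101,50] 4 0 (.lc 0 0 .stop)
 (.node [71,101,50] 1 4 (.node [118] 7 6 (.node [101,112] 0 6 (.far [16,16,16,256,257,1] 4096 (.far [256,0,0,0,257,257] 4096 (.far [256,0,0,0,257,257] 4096 (.far [16,16,16,256,257,1] 4096 (.far [16,16,16,256,257,1] 4096 (.far [16,16,16,256,257,1] 4096 .stop))))))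
 (.lc 2 1 (.node [101,114] 2 6 .stop
 (.node [101,120] 6 5 (.far [257,16,16,256,257,1] 4096 (.lc 0 0 (.lc 0 2 (.lc 0 9 (.lc 0 0 (.lc 0 9 (.far [257,16,16,256,257,1] 4096 (.far [257,16,16,256,257,1] 4096 (.lc 0 9 (.lc 0 0 (.lc 0 0 (.lc 0 10 .stop))))))))))))
 (.lc 2 4 (.lc 2 4 (.lc 3 8 (.lc 3 0 (.lc 3 0 (.lc 3 2 (.lc 3 9 (.lc 3 1 (.node [101,120,128] 0 6 (.far [256,0,0,0,257,257] 4096 .stop)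
 (.node [101,112] 2 6 .stop
 (.conf [101,134] (.conf [101,134] (.lc 2 4 (.lc 2 4 (.lc 2 4 (.lc 2 4 (.lc 2 4 (.lc 2 4 (.lc 2 4 (.lc 3 8 (.lc 3 0 (.lc 3 8 (.lc 3 0 (.lc 3 9 (.lc 3 4 (.lc 3 4 (.lc 3 4 (.lc 3 4 (.lc 3 4 (.lc 4 9 (.lc 4 8 (.lc 4 9 (.lc 4 0 (.lc 4 0 (.lc 4 10 (.lc 3 4 (.lc 3 4 (.lc 3 4 (.lc 3 4 (.lc 3 4 (.lc 3 4 (.lc 3 4 (.lc 3 4 (.lc 3 4 (.lc 3 4 (.lc 3 4 (.lc 3 4 (.lc 3 4 (.lc 3 4 (.lc 4 4 (.lc 4 4 (.lc 4 4 (.lc 4 4 (.lc 4 4 (.lc 4 4 .stop)))))))))))))))))))))))))))))))))))))))))))))))))))))))))))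
 (.lc 3 0 (.lc 1 6 (.lc 3 0 (.lc 1 6 (.lc 3 0 (.conf [24,135] (.lc 4 0 (.lc 2 6 .stop)))))))))
 (.conf [71,101] (.conf [64,101] (.conf [72,101] (.lc 0 0 (.conf [65,101] (.conf [71,112] (.conf [101,118] (.conf [101,118] (.conf [71,101] (.conf [64,101] (.conf [72,101] (.lc 0 0 (.node [65,101,23] 7 6 (.far [16,256,257,1] 4096 (.lc 3 0 (.lc 3 2 (.lc 3 8 (.far [16,256,257,1] 4096 (.conf [120,133] (.lc 3 0 (.lc 3 8 (.lc 4 8 (.lc 4 0 (.lc 4 0 (.lc 4 9 .stop))))))))))))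
 (.lc 0 0 (.conf [65,101] (.conf [72,101] (.conf [72,101] (.conf [64,101] (.conf [73,101] (.lc 0 0 (.conf [65,101] (.lc 0 0 (.conf [24,135] (.lc 0 0 (.node [24,65,101,118] 7 6 (.node [117,83,50] 1 8 (.far [257,16,257,257,257] 16 (.lc 1 3 (.lc 2 7 (.node [135,152] 8 7 (.lc 1 5 (.lc 0 2 (.lc 1 5 (.lc 1 5 (.lc 0 2 (.lc 3 1 (.conf [138,165] (.lc 1 7 (.lc 2 5 (.lc 0 2 (.lc 2 5 (.lc 1 7 (.lc 2 5 (.lc 2 5 (.lc 1 3 (.lc 1 3 (.lc 1 3 (.lc 3 2 (.lc 1 3 (.lc 3 10 (.lc 2 5 (.lc 2 5 (.lc 1 2 (.lc 2 5 (.lc 2 3 (.lc 2 3 (.lc 2 7 (.lc 1 10 (.lc 3 5 (.lc 1 2 (.lc 4 11 (.lc 2 3 (.lc 2 3 (.lc 2 3 (.lc 2 3 (.lc 3 3 .stop))))))))))))))))))))))))))))))))))))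
 (.lc 2 7 (.lc 3 7 .stop))))))
 (.lc 3 0 (.lc 3 2 (.lc 3 9 (.node [83,112,50] 0 1 .stop
 (.node [83,121,50] 1 8 (.far [257,16,256,257,1] 16 (.lc 2 7 (.lc 2 7 (.node [135,168] 8 7 (.lc 1 9 (.lc 0 2 (.lc 1 9 (.lc 1 9 (.lc 3 1 (.conf [139,185] (.lc 1 7 (.lc 2 9 (.lc 0 2 (.lc 2 9 (.lc 1 7 (.lc 2 9 (.lc 2 9 (.lc 1 5 (.lc 0 2 (.lc 3 1 (.lc 1 5 (.lc 3 2 (.lc 0 2 (.lc 3 11 (.lc 2 9 (.lc 2 9 (.lc 1 2 (.lc 2 9 (.lc 1 9 (.lc 4 1 (.lc 2 5 (.lc 2 7 (.lc 1 11 (.lc 3 9 (.lc 1 9 (.lc 4 12 (.lc 4 11 (.lc 4 2 (.lc 1 2 (.lc 4 12 (.lc 1 9 (.lc 4 2 (.lc 0 2 (.lc 4 12 (.lc 2 9 (.lc 1 11 (.lc 5 13 .stop)))))))))))))))))))))))))))))))))))))))))))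
 (.lc 2 7 (.lc 3 7 .stop))))))
 (.lc 3 0 (.lc 3 9 (.lc 4 9 (.lc 4 0 (.lc 4 0 (.lc 4 10 .stop))))))))))))
 (.lc 0 0 (.conf [65,135,24] (.lc 0 0 (.conf [25,152] .stop)))))))))))))))))))))))))))))))
 (.node [50,70,101,70,80,50] 0 3 .stop
 (.node [50,70,96,70,50,83] 0 5 (.node [83] 5 3 (.lc 1 2 (.lc 2 2 .stop))
 (.lc 2 3 (.conf [39,117] (.lc 2 3 (.lc 3 3 .stop)))))
 (.node [50,64,83,101] 4 0 (.lc 0 0 .stop)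
 (.node [50,71,118,71,101,50] 5 3 (.lc 1 2 (.lc 1 2 (.lc 3 0 (.lc 3 8 (.lc 2 2 (.lc 2 2 (.lc 2 2 (.lc 2 2 (.lc 2 2 (.lc 2 2 (.lc 3 0 (.lc 3 8 (.node [80] 6 5 (.node [96] 7 6 (.lc 1 0 (.lc 1 0 (.lc 3 1 (.lc 1 1 (.lc 2 0 (.lc 2 0 (.lc 2 0 (.lc 1 1 (.far [257,257,0,1,257] 16 (.lc 1 1 (.lc 2 0 (.lc 2 0 (.lc 2 1 (.lc 3 0 (.conf [20,129] (.lc 2 1 (.lc 2 1 (.lc 2 1 (.lc 3 1 .stop)))))))))))))))))))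
 (.lc 3 1 (.lc 3 8 (.conf [20,97] (.node [104,128] 7 6 (.lc 1 8 (.lc 1 8 (.lc 3 9 (.lc 2 8 (.lc 2 8 (.lc 2 8 (.lc 3 1 (.lc 3 9 (.node [113,128] 7 1 (.lc 1 8 .stop)
 (.node [121,128] 4 7 (.far [1,4096,4112,0,256] 0 (.lc 3 10 (.lc 3 1 (.node [74,152] 9 8 (.lc 1 0 (.lc 1 0 (.lc 3 1 (.lc 2 0 (.lc 2 0 (.lc 2 0 (.lc 2 0 (.lc 3 0 (.conf [20,161] .stop)))))))))
 (.lc 3 10 (.lc 4 11 .stop))))))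
 (.lc 2 8 (.lc 2 8 (.lc 4 10 (.lc 3 8 (.node [122,128,152] 4 7 (.far [1,4096,4112,0,256] 0 (.lc 3 11 (.lc 3 1 (.lc 1 9 (.lc 3 11 (.lc 4 12 .stop))))))
 (.lc 2 0 (.lc 2 0 (.lc 2 0 (.lc 2 0 (.lc 3 0 .stop))))))))))))))))))))
 (.lc 3 1 (.lc 3 8 (.lc 4 8 (.lc 4 9 .stop)))))))))
 (.node [32,88] 6 5 (.conf [104,130] (.lc 3 0 (.lc 3 1 (.lc 3 9 (.lc 1 2 (.lc 1 2 (.lc 3 0 (.lc 3 9 (.lc 4 1 (.lc 4 9 (.lc 4 0 (.lc 4 10 .stop))))))))))))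
 (.lc 2 2 (.lc 2 2 (.lc 2 2 (.lc 4 8 (.lc 4 9 (.lc 3 2 (.lc 3 2 (.lc 3 2 (.lc 3 2 (.node [88,128] 6 5 (.node [104] 6 8 (.lc 2 1 (.lc 2 9 (.lc 3 1 (.lc 3 9 (.lc 0 9 (.lc 3 10 (.lc 1 1 (.lc 0 0 (.lc 2 0 (.lc 2 0 (.lc 2 1 (.lc 3 0 (.conf [20,113] (.conf [1,144] (.lc 2 1 (.lc 2 1 (.lc 3 1 .stop)))))))))))))))))
 (.lc 3 1 (.lc 3 9 (.lc 1 0 (.lc 3 9 (.lc 4 10 .stop))))))
 (.conf [32,130] (.node [88,128] 6 5 (.node [104] 6 8 (.lc 2 1 (.lc 2 9 (.lc 1 1 (.lc 3 9 (.lc 0 9 (.lc 3 10 (.lc 3 1 (.lc 3 9 (.lc 0 0 (.lc 2 0 (.lc 2 0 (.lc 4 9 (.lc 4 10 (.lc 3 0 (.lc 2 1 (.far [4096,1,4096,1,257] 4096 (.far [1,257,0,1,257] 16 (.node [121,144] 4 7 (.far [16,257,257,257,4096] 0 (.lc 3 10 (.lc 3 1 (.far [16,257,257,257,4096] 0 (.lc 3 10 (.lc 4 11 .stop))))))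
 (.lc 0 1 (.lc 0 9 (.conf [20,145] (.node [122,169,144] 4 7 (.node [74] 4 10 (.lc 1 9 (.lc 2 11 (.lc 1 0 (.lc 3 11 (.lc 3 1 (.lc 2 9 (.lc 3 12 (.conf [25,144] (.lc 3 11 (.lc 3 1 (.lc 3 1 (.conf [27,185] (.lc 4 12 (.lc 4 1 (.lc 4 1 (.lc 4 1 (.lc 4 1 (.lc 5 1 .stop))))))))))))))))))
 (.lc 3 11 (.lc 3 1 (.lc 1 9 (.lc 3 11 (.lc 4 12 .stop))))))
 .stop))))))))))))))))))))))
 (.lc 3 1 (.lc 3 9 (.lc 1 0 (.lc 3 9 (.lc 4 10 .stop))))))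
 (.node [32,89,152] 6 5 (.node [105] 8 2 (.node [128] 9 8 (.lc 1 0 (.lc 2 1 (.lc 0 7 (.lc 0 6 (.lc 2 10 (.lc 0 7 (.lc 2 0 (.lc 0 6 (.lc 1 7 (.lc 1 6 (.lc 2 0 (.lc 0 0 (.lc 0 10 (.lc 2 0 (.lc 2 0 (.lc 0 7 (.lc 1 8 (.lc 3 11 (.lc 2 0 (.lc 1 8 (.lc 2 0 (.lc 0 7 (.lc 0 6 (.lc 2 0 (.lc 0 1 (.lc 0 10 (.lc 1 8 (.lc 1 7 (.lc 2 8 (.lc 0 7 (.lc 1 10 (.lc 3 0 (.lc 3 0 (.conf [128,168] (.lc 3 0 (.lc 3 0 (.lc 1 10 (.lc 0 11 (.lc 4 0 .stop)))))))))))))))))))))))))))))))))))))))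
 (.lc 0 6 (.lc 3 10 (.node [138,160] 9 8 (.lc 2 1 (.lc 0 7 (.lc 0 6 (.lc 1 2 (.lc 2 11 (.lc 0 7 (.lc 2 10 (.lc 0 6 (.lc 1 7 (.lc 1 6 (.lc 2 10 (.lc 0 10 (.lc 0 11 (.lc 0 7 (.lc 1 8 (.lc 2 2 (.lc 3 12 (.lc 2 10 (.lc 1 8 (.lc 2 10 (.lc 0 7 (.lc 0 6 (.lc 2 10 (.lc 0 1 (.lc 0 11 (.lc 1 8 (.lc 1 7 (.lc 2 8 (.lc 0 7 (.lc 1 11 (.lc 3 10 (.lc 3 2 (.conf [138,184] (.lc 3 10 (.lc 3 10 (.lc 1 11 (.lc 0 12 (.lc 4 10 .stop))))))))))))))))))))))))))))))))))))))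
 (.lc 3 10 (.lc 4 11 .stop))))))
 (.lc 3 0 (.lc 3 1 (.lc 3 10 (.lc 1 8 (.lc 1 8 (.lc 3 0 (.lc 3 10 (.lc 4 1 (.lc 4 10 (.lc 4 0 (.lc 4 11 .stop))))))))))))
 (.node [88,128] 6 5 (.node [104,128] 7 6 (.lc 1 8 (.lc 1 8 (.lc 3 9 (.lc 2 8 (.lc 2 8 (.lc 2 8 (.lc 3 1 (.lc 3 9 (.lc 1 0 (.node [113,128] 7 1 (.lc 1 8 .stop)
 (.node [121,128] 4 7 (.far [1,4096,4112,0,256] 0 (.lc 3 10 (.lc 3 1 (.node [74,152] 9 8 (.lc 2 0 (.lc 1 0 (.lc 1 0 (.lc 2 0 (.lc 2 0 (.lc 2 0 (.lc 3 1 (.lc 2 0 (.lc 2 0 (.lc 2 0 (.conf [1,160] (.lc 2 0 (.lc 2 0 (.lc 3 0 (.conf [20,161] (.lc 3 0 (.lc 3 0 (.lc 3 0 (.lc 3 0 (.lc 3 0 (.lc 4 0 .stop)))))))))))))))))))))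
 (.lc 3 10 (.lc 4 11 .stop))))))
 (.lc 2 8 (.lc 2 8 (.lc 2 8 (.lc 4 10 (.lc 3 8 (.lc 2 0 (.node [122,128,152] 4 7 (.far [1,4096,4112,0,256] 0 (.lc 3 11 (.lc 3 1 (.lc 1 9 (.lc 3 11 (.lc 4 12 .stop))))))
 (.lc 2 0 (.lc 2 0 (.lc 2 0 (.lc 2 0 (.lc 3 0 .stop)))))))))))))))))))))))
 (.lc 3 1 (.lc 3 9 (.node [105,128] 9 8 (.lc 1 0 (.lc 0 7 (.lc 0 6 (.lc 1 0 (.lc 3 1 (.lc 3 10 (.lc 2 0 (.lc 1 8 (.lc 2 0 (.lc 0 7 (.lc 0 6 (.lc 2 0 (.lc 0 7 (.lc 1 8 (.lc 2 0 (.lc 3 1 (.node [145] 6 9 (.lc 2 1 (.conf [20,113] .stop))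
 (.lc 0 7 (.lc 0 6 (.node [1,154] 6 9 (.lc 2 10 (.lc 0 10 (.lc 3 11 (.conf [122,160] (.lc 2 0 .stop)))))
 (.lc 0 7 (.lc 2 0 (.lc 0 6 (.lc 1 7 (.lc 1 6 (.lc 2 0 (.lc 1 0 (.lc 4 10 (.lc 1 7 (.lc 2 8 (.lc 0 7 (.lc 1 10 (.lc 3 0 (.lc 1 0 (.conf [20,161] (.lc 1 0 (.conf [1,160] (.lc 1 0 (.node [154,161] 6 9 (.lc 2 10 (.lc 0 10 (.lc 3 11 (.far [1,1,257,0,1,257] 16 (.lc 2 1 .stop)))))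
 (.lc 1 0 (.lc 0 6 (.node [20,154] 6 9 (.lc 2 10 (.lc 0 10 (.lc 3 11 (.conf [122,161] (.lc 2 1 .stop)))))
 (.lc 2 0 (.conf [20,161] .stop))))))))))))))))))))))))))))))))))))))))))))
 (.lc 3 9 (.lc 4 10 .stop))))))
 (.conf [32,130] (.node [89,152,128] 6 5 (.node [105] 6 9 (.lc 2 1 (.lc 2 10 (.lc 3 10 (.lc 0 10 (.lc 3 11 (.lc 3 1 (.lc 3 10 (.lc 0 8 (.lc 2 8 (.lc 2 8 (.lc 4 11 (.lc 3 8 (.lc 2 0 (.node [113,128] 7 1 (.lc 1 8 .stop)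
 (.node [122,128] 4 7 (.node [74] 10 8 (.conf [1,160] (.lc 3 1 (.conf [20,161] (.lc 3 1 (.lc 3 11 (.lc 4 11 .stop))))))
 (.lc 3 11 (.lc 3 1 (.node [75,168] 10 8 (.lc 2 0 (.lc 3 1 (.conf [1,176] (.conf [20,177] .stop))))
 (.lc 3 11 (.lc 4 12 .stop))))))
 (.lc 0 10 (.node [123,128,168] 4 7 (.node [75] 10 8 (.conf [1,160] (.lc 3 1 (.conf [20,161] (.lc 3 1 (.lc 3 12 (.lc 4 12 .stop))))))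
 (.lc 3 12 (.lc 3 1 (.lc 1 10 (.lc 3 12 (.lc 4 13 .stop))))))
 .stop)))))))))))))))))
 (.lc 3 1 (.lc 3 10 (.lc 1 8 (.lc 3 10 (.lc 4 11 .stop))))))
 (.conf [32,130] .stop)))))))))))))))))))))))))))))))
 (.node [70,101,50,80] 0 3 (.lc 1 0 .stop)
 (.node [70,83,50,70,83,96] 0 5 (.lc 1 3 (.node [39,83] 5 3 (.conf [50,115] (.lc 2 2 (.lc 0 8 (.lc 2 2 (.lc 3 2 .stop)))))
 (.lc 2 3 (.node [83,117] 5 3 (.far [257,257,1,257] 4096 (.lc 2 2 (.lc 0 8 (.lc 2 2 (.lc 3 2 .stop)))))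
 (.conf [40,135] .stop)))))
 (.node [64,83,50,64,83,101] 4 0 .stop
 (.node [71,83,50,71,83,101] 4 7 (.lc 2 0 (.lc 2 8 (.lc 3 8 (.lc 3 0 (.lc 3 9 (.lc 0 0 (.lc 2 6 (.lc 3 8 (.lc 3 0 (.lc 3 9 (.lc 3 8 (.lc 3 0 (.lc 3 9 (.lc 0 0 (.node [24,118] 7 6 (.conf [101,134] (.lc 2 5 (.lc 2 5 (.lc 2 5 (.lc 0 0 (.lc 0 9 (.lc 2 5 (.lc 2 5 (.lc 3 5 (.lc 3 5 (.lc 3 5 (.lc 3 5 .stop))))))))))))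
 (.lc 0 0 (.lc 2 6 (.lc 4 9 (.lc 4 9 (.lc 4 0 (.lc 4 10 (.lc 0 0 (.lc 3 6 (.lc 0 0 (.conf [25,152] (.lc 0 0 (.node [25,118,135] 8 7 (.node [101] 1 9 (.node [152] 9 8 (.lc 1 6 (.lc 1 6 (.lc 0 2 (.lc 0 3 (.lc 1 6 (.lc 1 5 (.lc 1 5 (.lc 1 8 (.lc 1 8 (.lc 2 6 (.lc 0 2 (.lc 0 3 (.lc 2 6 (.lc 2 6 (.lc 1 8 (.lc 0 2 (.lc 2 6 (.lc 2 6 (.lc 0 3 (.lc 1 5 (.lc 1 5 (.lc 2 6 (.lc 2 6 (.lc 1 2 (.lc 0 2 (.lc 1 3 (.lc 2 6 (.lc 4 0 (.conf [154,165] (.lc 2 8 (.lc 1 2 (.lc 1 10 (.lc 0 2 (.lc 3 6 (.lc 2 5 (.lc 1 3 (.lc 4 2 (.lc 4 10 (.lc 5 11 .stop)))))))))))))))))))))))))))))))))))))))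
 (.lc 1 3 (.lc 2 8 (.node [152,169] 9 8 (.lc 1 6 (.lc 0 2 (.lc 0 3 (.lc 1 6 (.lc 1 6 (.lc 1 5 (.lc 1 5 (.lc 1 8 (.lc 1 8 (.lc 2 6 (.lc 0 2 (.lc 0 3 (.lc 2 6 (.lc 1 8 (.lc 0 2 (.lc 2 6 (.lc 2 6 (.lc 0 3 (.lc 1 5 (.lc 1 5 (.lc 2 6 (.lc 2 6 (.lc 1 2 (.lc 0 2 (.lc 1 3 (.lc 2 6 (.lc 4 1 (.conf [155,181] (.lc 2 8 (.lc 1 2 (.lc 1 11 (.lc 0 2 (.lc 3 6 (.lc 2 5 (.lc 1 3 (.lc 4 2 (.lc 4 11 (.lc 5 12 .stop))))))))))))))))))))))))))))))))))))))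
 (.lc 2 8 (.lc 3 8 .stop))))))
 (.lc 1 5 (.lc 1 5 (.lc 1 5 (.lc 1 5 (.lc 1 5 (.lc 3 0 (.lc 3 10 (.lc 2 5 (.lc 2 5 (.lc 2 5 (.lc 2 5 .stop))))))))))))
 (.lc 0 0 (.conf [25,152] (.lc 0 0 (.conf [26,169] .stop)))))))))))))))))))))))))))))))
 (.node [50,70,101,80] 0 3 (.node [7,50,70,101,80] 5 0 (.lc 1 7 (.node [87] 7 3 (.far [1,1,4096,1,257] 4096 (.lc 3 8 (.conf [32,130] (.lc 3 8 (.lc 4 9 .stop)))))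
 (.lc 2 7 (.lc 3 8 (.lc 2 7 (.lc 1 3 (.lc 2 7 (.lc 3 8 (.lc 3 7 (.lc 4 9 .stop))))))))))
 (.conf [50,115] .stop))
 (.node [50,70,83,96] 6 0 (.node [97] 4 6 (.node [71,97,50,83] 1 4 (.node [118] 6 1 (.lc 0 1 .stop)
 (.lc 1 6 .stop))
 (.conf [97,118] .stop))
 (.lc 3 7 (.conf [113,20,103,70] (.lc 3 7 (.lc 4 8 .stop)))))
 (.node [50,83,101,83,50,64] 4 0 .stop
 (.node [50,83,101,118,71,50] 4 7 (.lc 2 0 (.lc 2 8 (.lc 3 8 (.lc 3 0 (.lc 3 9 (.lc 0 0 (.lc 2 6 (.lc 3 8 (.lc 3 0 (.lc 3 9 (.lc 3 8 (.lc 3 0 (.lc 3 9 (.lc 0 0 (.node [24,118] 7 6 (.conf [101,134] (.lc 2 5 (.lc 2 5 (.lc 2 5 (.lc 0 0 (.lc 0 9 (.lc 2 5 (.lc 2 5 (.lc 3 5 (.lc 3 5 (.lc 3 5 (.lc 3 5 .stop))))))))))))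
 (.lc 0 0 (.lc 2 6 (.lc 4 9 (.lc 4 9 (.lc 4 0 (.lc 4 10 (.lc 0 0 (.lc 3 6 (.lc 0 0 (.conf [25,152] (.lc 0 0 (.node [25,118,135] 8 7 (.node [101] 1 9 (.node [152] 9 8 (.lc 1 6 (.lc 1 6 (.lc 0 3 (.lc 1 6 (.lc 1 5 (.lc 1 5 (.lc 1 3 (.lc 0 2 (.lc 1 3 (.lc 2 6 (.lc 0 3 (.lc 2 6 (.lc 2 6 (.lc 1 3 (.lc 1 3 (.lc 2 6 (.lc 0 3 (.lc 2 6 (.conf [83,149] (.lc 1 5 (.lc 1 5 (.lc 0 3 (.lc 2 6 (.lc 1 8 (.lc 1 3 (.lc 0 3 (.lc 2 6 (.lc 1 3 (.lc 1 3 (.lc 2 8 (.lc 2 3 (.lc 1 3 (.lc 0 3 (.lc 3 6 (.lc 2 5 (.lc 4 10 (.lc 1 3 (.lc 1 3 (.lc 2 3 .stop)))))))))))))))))))))))))))))))))))))))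
 (.lc 1 3 (.lc 2 8 (.lc 1 3 (.node [152,169] 9 8 (.lc 1 6 (.lc 0 3 (.lc 1 6 (.lc 1 6 (.lc 1 5 (.lc 1 5 (.lc 1 3 (.lc 0 2 (.lc 1 3 (.lc 2 6 (.lc 0 3 (.lc 2 6 (.lc 1 3 (.lc 1 3 (.lc 0 3 (.lc 2 6 (.lc 2 6 (.conf [83,149] (.lc 1 5 (.lc 1 5 (.lc 0 3 (.lc 2 6 (.lc 1 8 (.lc 1 3 (.lc 0 3 (.lc 2 6 (.lc 1 3 (.lc 1 3 (.lc 2 8 (.lc 2 3 (.lc 1 3 (.lc 0 3 (.lc 3 6 (.lc 2 5 (.lc 4 11 (.lc 1 3 (.lc 1 3 (.lc 2 3 .stop))))))))))))))))))))))))))))))))))))))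
 (.lc 1 3 (.lc 2 8 (.lc 2 3 (.lc 1 3 (.lc 3 8 .stop))))))))))
 (.lc 1 5 (.lc 1 5 (.lc 1 5 (.lc 1 5 (.lc 1 5 (.lc 3 0 (.lc 3 10 (.lc 2 5 (.lc 2 5 (.lc 2 5 (.lc 2 5 .stop))))))))))))
 (.lc 0 0 (.conf [25,152] (.lc 0 0 (.conf [26,169] .stop)))))))))))))))))))))))))))))))
 (.node [50,70,101,80] 0 3 .stop
 (.node [50,70,83,96] 0 5 (.far [257,1,257] 4096 (.node [7,83] 6 0 (.lc 1 7 (.node [103] 4 6 (.node [72,103,50,83] 6 7 (.far [257,16,256,257,1] 0 (.lc 2 5 (.lc 2 5 (.lc 2 5 (.lc 0 9 (.lc 2 5 (.lc 3 5 .stop)))))))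
 (.conf [72,96] (.conf [65,103] (.conf [103,134] (.lc 1 5 (.far [256,257,0,257,1] 4096 (.conf [65,103] (.lc 2 5 (.conf [65,103] (.conf [24,135] (.lc 2 5 (.lc 2 5 (.lc 3 5 .stop)))))))))))))
 (.lc 2 7 (.lc 3 8 (.lc 2 7 (.lc 1 5 (.lc 2 7 (.lc 3 8 (.lc 3 7 (.lc 4 9 .stop))))))))))
 (.lc 2 3 (.lc 2 3 (.lc 3 1 (.conf [117,39,83,50] (.conf [8,135] (.lc 2 3 (.lc 2 3 (.lc 3 1 (.lc 3 1 (.lc 3 3 (.lc 3 3 (.lc 4 1 (.lc 4 1 (.lc 4 1 (.lc 4 1 (.lc 5 1 .stop))))))))))))))))))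
 (.node [50,64,83,101] 4 0 .stop
 (.node [50,83,101,118,71,101,50] 4 7 (.lc 2 0 (.lc 2 8 (.lc 3 8 (.lc 3 0 (.lc 3 9 (.lc 0 0 (.lc 2 6 (.lc 3 8 (.lc 3 0 (.lc 3 9 (.lc 3 8 (.lc 3 0 (.lc 3 9 (.lc 0 0 (.node [24,118] 8 7 (.conf [101,134] (.lc 3 0 (.lc 3 2 (.lc 3 9 (.far [16,256,257,1] 4096 (.conf [137,150] (.lc 3 0 (.lc 3 9 (.lc 4 9 (.lc 4 0 (.lc 4 0 (.lc 4 10 .stop))))))))))))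
 (.lc 0 0 (.lc 2 6 (.lc 4 9 (.lc 4 9 (.lc 4 0 (.lc 4 10 (.lc 0 0 (.lc 3 6 (.lc 0 0 (.conf [25,152] (.lc 0 0 (.node [25,118,135] 8 7 (.node [101] 1 9 (.far [257,16,257,257,257] 16 (.lc 1 3 (.lc 1 5 (.lc 2 8 (.node [152,169] 9 8 (.lc 1 6 (.lc 0 3 (.lc 1 6 (.lc 1 6 (.lc 0 3 (.lc 3 1 (.conf [155,182] (.lc 0 2 (.lc 2 6 (.lc 0 3 (.lc 2 6 (.lc 2 6 (.lc 2 6 (.lc 1 5 (.lc 1 5 (.lc 1 5 (.lc 3 2 (.lc 1 5 (.lc 3 11 (.lc 2 6 (.lc 1 8 (.lc 1 3 (.lc 2 6 (.lc 2 5 (.lc 2 5 (.lc 3 6 (.lc 3 6 (.lc 1 3 (.lc 4 12 (.lc 2 5 (.lc 2 5 (.lc 2 5 (.lc 2 5 (.lc 3 5 .stop))))))))))))))))))))))))))))))))))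
 (.lc 2 8 (.lc 1 3 (.lc 3 8 .stop))))))))
 (.lc 3 0 (.lc 3 2 (.lc 3 10 (.node [101,128] 0 1 .stop
 (.node [101,138] 1 9 (.far [257,16,256,257,1] 16 (.lc 1 3 (.lc 2 8 (.lc 2 8 (.node [152,185] 9 8 (.lc 1 10 (.lc 0 3 (.lc 1 10 (.lc 1 10 (.lc 3 1 (.conf [156,202] (.lc 0 2 (.lc 2 10 (.lc 0 3 (.lc 2 10 (.lc 2 10 (.lc 2 10 (.lc 1 6 (.lc 0 3 (.lc 3 1 (.lc 1 6 (.lc 3 2 (.lc 0 3 (.lc 3 12 (.lc 2 10 (.lc 1 8 (.lc 1 3 (.lc 2 10 (.lc 4 1 (.lc 2 6 (.lc 3 10 (.lc 3 10 (.lc 4 13 (.lc 4 12 (.lc 1 10 (.lc 1 3 (.lc 4 13 (.lc 0 2 (.lc 4 2 (.lc 0 3 (.lc 4 13 (.lc 5 2 (.lc 5 14 .stop))))))))))))))))))))))))))))))))))))))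
 (.lc 2 8 (.lc 3 8 .stop)))))))
 (.lc 3 0 (.lc 3 10 (.lc 4 10 (.lc 4 0 (.lc 4 0 (.lc 4 11 .stop))))))))))))
 (.lc 0 0 (.conf [25,152] (.lc 0 0 (.conf [26,169] .stop)))))))))))))))))))))))))))))))
 (.node [70,80,101,70,80,50] 0 3 .stop
 (.node [50,70,83,96] 0 5 (.node [83] 5 3 (.node [50,87,70,96] 3 2 (.node [114] 2 5 (.lc 0 2 .stop)
 (.lc 0 8 .stop))
 (.conf [50,115] .stop))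
 (.lc 2 3 (.conf [117,39,83,50] (.lc 2 3 (.lc 3 3 .stop)))))
 (.node [50,64,83,101] 4 0 (.node [6,71,50,83,101] 0 6 (.lc 2 1 (.node [101] 4 7 (.far [257,257,256,257,1] 4096 (.lc 2 6 (.conf [24,135] (.lc 2 6 (.lc 3 6 .stop)))))
 (.lc 3 1 (.lc 2 5 (.lc 3 1 (.lc 0 8 (.lc 3 1 (.lc 2 5 (.lc 4 1 (.lc 3 5 .stop))))))))))
 (.conf [6,112] .stop))
 (.node [71,101,118,71,101,50] 5 3 (.lc 1 2 (.lc 1 2 (.lc 3 0 (.lc 3 8 (.lc 2 2 (.lc 2 2 (.lc 2 2 (.lc 2 2 (.lc 2 2 (.lc 2 2 (.lc 3 0 (.lc 3 8 (.node [80] 6 5 (.node [96] 7 6 (.lc 1 0 (.lc 1 0 (.conf [20,113] (.lc 1 1 (.lc 2 0 (.lc 2 0 (.lc 2 0 (.lc 1 1 (.lc 3 1 (.lc 1 1 (.lc 2 0 (.lc 2 0 (.lc 2 1 (.lc 3 0 (.lc 4 8 (.lc 2 1 (.lc 2 1 (.lc 2 1 (.lc 3 1 .stop)))))))))))))))))))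
 (.lc 3 1 (.lc 3 8 (.conf [20,97] (.node [104,128] 6 8 (.lc 2 1 (.lc 2 9 (.lc 3 9 (.lc 3 10 (.node [121,128] 4 7 (.lc 2 9 (.lc 2 10 (.lc 3 11 (.conf [25,152] (.lc 2 9 (.lc 3 10 (.lc 3 11 (.lc 3 11 (.lc 2 9 (.lc 1 8 (.lc 2 9 (.lc 4 12 (.conf [26,169] (.lc 3 9 (.lc 3 9 (.lc 3 9 (.lc 3 9 (.lc 4 9 .stop))))))))))))))))))
 (.lc 3 10 (.lc 3 1 (.lc 3 10 (.lc 2 0 (.lc 2 0 (.lc 0 1 (.lc 0 9 (.lc 4 11 (.lc 0 10 (.lc 0 9 (.lc 0 10 (.lc 0 1 (.lc 0 10 (.lc 3 0 (.lc 0 11 .stop))))))))))))))))))))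
 (.lc 3 1 (.lc 3 8 (.lc 4 8 (.lc 4 9 .stop)))))))))
 (.node [32,88] 6 5 (.conf [104,130] (.lc 3 0 (.lc 3 1 (.lc 3 9 (.lc 1 2 (.lc 1 2 (.lc 3 0 (.lc 3 9 (.lc 4 1 (.lc 4 9 (.lc 4 0 (.lc 4 10 .stop))))))))))))
 (.lc 2 2 (.lc 2 2 (.lc 2 2 (.lc 4 8 (.lc 4 9 (.lc 3 2 (.lc 3 2 (.lc 3 2 (.lc 3 2 (.node [88,128] 6 5 (.node [104] 6 8 (.lc 2 1 (.lc 2 9 (.lc 3 1 (.lc 3 9 (.lc 2 0 (.lc 3 10 (.lc 1 1 (.conf [1,112] (.lc 0 1 (.lc 0 9 (.lc 2 1 (.lc 0 10 (.lc 0 1 (.lc 0 9 (.lc 2 1 (.lc 2 1 (.lc 3 1 .stop)))))))))))))))))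
 (.lc 3 1 (.lc 3 9 (.lc 1 0 (.lc 3 9 (.lc 4 10 .stop))))))
 (.conf [32,130] (.node [88,128] 6 5 (.node [104] 6 8 (.lc 2 1 (.lc 2 9 (.lc 1 1 (.lc 3 9 (.lc 2 0 (.lc 3 10 (.lc 3 1 (.lc 3 9 (.far [4096,0,4096,257,257] 4096 (.lc 0 1 (.lc 0 9 (.lc 4 9 (.lc 4 10 (.lc 0 10 (.lc 2 1 (.lc 0 9 (.lc 0 1 (.lc 0 9 (.conf [20,113] (.node [121,144] 4 7 (.lc 2 9 (.lc 2 10 (.lc 3 11 (.conf [25,144] (.lc 2 9 (.lc 3 10 (.lc 3 11 (.lc 3 11 (.lc 2 9 (.lc 1 0 (.lc 2 9 (.lc 4 12 (.conf [26,169] (.lc 3 9 (.lc 3 9 (.lc 3 9 (.lc 3 9 (.lc 4 9 .stop))))))))))))))))))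
 (.lc 0 9 (.lc 0 10 .stop))))))))))))))))))))))
 (.lc 3 1 (.lc 3 9 (.lc 1 0 (.lc 3 9 (.lc 4 10 .stop))))))
 (.node [32,89,152] 6 5 (.node [105] 8 2 (.node [128] 9 8 (.lc 1 0 (.lc 2 1 (.lc 0 6 (.lc 2 10 (.lc 0 6 (.lc 2 0 (.lc 1 8 (.lc 1 6 (.lc 0 6 (.lc 2 0 (.lc 0 0 (.lc 0 10 (.lc 2 0 (.lc 0 6 (.lc 2 0 (.lc 1 6 (.lc 0 6 (.lc 3 11 (.lc 0 7 (.lc 1 6 (.lc 1 6 (.lc 2 0 (.lc 0 6 (.lc 2 0 (.lc 0 1 (.lc 0 10 (.conf [120,128] (.lc 0 6 (.lc 2 6 (.lc 1 6 (.lc 0 6 (.lc 3 0 (.lc 1 0 (.lc 1 10 (.lc 1 1 (.lc 1 10 (.lc 3 0 (.lc 0 11 (.lc 1 11 .stop)))))))))))))))))))))))))))))))))))))))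
 (.lc 0 6 (.lc 3 10 (.lc 0 6 (.node [138,160] 9 8 (.lc 2 1 (.lc 0 6 (.lc 1 2 (.lc 2 11 (.lc 0 6 (.lc 2 10 (.lc 1 8 (.lc 1 6 (.lc 0 6 (.lc 2 10 (.lc 0 10 (.lc 0 11 (.lc 1 6 (.lc 0 6 (.lc 2 2 (.lc 0 6 (.lc 3 12 (.lc 0 7 (.lc 1 6 (.lc 1 6 (.lc 2 10 (.lc 0 6 (.lc 2 10 (.lc 0 1 (.lc 0 11 (.conf [120,138] (.lc 0 6 (.lc 2 6 (.lc 1 6 (.lc 0 6 (.lc 3 10 (.lc 1 10 (.lc 1 11 (.lc 1 1 (.lc 1 11 (.lc 3 10 (.lc 0 12 (.lc 1 12 .stop))))))))))))))))))))))))))))))))))))))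
 (.lc 0 6 (.lc 3 10 (.lc 1 6 (.lc 0 6 (.lc 4 11 .stop))))))))))
 (.lc 3 0 (.lc 3 1 (.lc 3 10 (.lc 1 8 (.lc 1 8 (.lc 3 0 (.lc 3 10 (.lc 4 1 (.lc 4 10 (.lc 4 0 (.lc 4 11 .stop))))))))))))
 (.node [88,128] 6 5 (.node [104,128] 6 8 (.lc 2 0 (.lc 2 1 (.lc 2 9 (.lc 3 9 (.lc 3 10 (.node [121,128] 9 8 (.conf [1,144] (.lc 1 0 (.lc 1 0 (.lc 2 0 (.lc 2 0 (.lc 3 1 (.lc 0 7 (.lc 2 0 (.lc 2 0 (.conf [20,145] (.lc 2 0 (.lc 2 0 (.lc 2 0 (.lc 2 0 (.lc 3 1 (.lc 3 10 (.lc 2 0 (.lc 2 0 (.lc 3 0 (.lc 4 10 (.lc 3 0 (.lc 3 0 (.lc 3 0 (.lc 3 0 (.lc 1 0 (.lc 3 0 (.lc 4 0 .stop)))))))))))))))))))))))))))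
 (.lc 3 1 (.lc 3 10 (.lc 3 1 (.lc 3 10 (.lc 2 0 (.lc 2 0 (.lc 0 0 (.lc 0 1 (.lc 0 9 (.lc 4 11 (.lc 0 1 (.lc 0 10 (.lc 0 9 (.lc 0 10 (.lc 0 1 (.lc 0 10 (.lc 3 0 (.lc 0 11 .stop))))))))))))))))))))))))
 (.lc 3 1 (.lc 3 9 (.node [105,128] 9 8 (.lc 1 0 (.lc 0 6 (.lc 1 0 (.lc 3 1 (.lc 0 6 (.lc 3 10 (.lc 0 7 (.lc 1 6 (.lc 1 6 (.lc 2 0 (.lc 0 6 (.lc 2 0 (.lc 1 6 (.lc 0 6 (.lc 2 0 (.lc 3 1 (.node [145] 6 9 (.lc 2 1 (.lc 0 1 .stop))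
 (.lc 0 6 (.node [1,154] 6 9 (.lc 2 10 (.lc 1 0 (.lc 3 11 (.lc 0 10 (.lc 0 11 .stop)))))
 (.lc 0 6 (.lc 2 0 (.lc 1 8 (.lc 1 6 (.lc 0 6 (.lc 2 0 (.lc 0 6 (.lc 4 10 (.lc 0 6 (.lc 2 6 (.lc 1 6 (.lc 0 6 (.lc 3 0 (.lc 0 6 (.conf [20,161] (.lc 1 6 (.lc 0 6 (.conf [1,160] (.lc 0 6 (.node [154,161] 6 9 (.lc 2 10 (.lc 1 1 (.lc 3 11 (.lc 0 10 (.lc 0 11 .stop)))))
 (.lc 1 0 (.lc 0 6 (.node [20,154] 6 9 (.lc 2 10 (.lc 1 1 (.lc 3 11 (.lc 0 10 (.lc 0 11 .stop)))))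
 (.lc 2 0 (.lc 1 6 (.lc 0 6 (.conf [20,161] .stop))))))))))))))))))))))))))))))))))))))))))))))
 (.lc 3 9 (.lc 4 10 .stop))))))
 (.conf [32,130] (.node [89,152,128] 6 5 (.node [105] 6 9 (.lc 2 1 (.lc 2 10 (.lc 3 10 (.lc 2 8 (.lc 3 11 (.lc 3 1 (.lc 3 10 (.lc 1 0 (.lc 0 1 (.lc 0 10 (.lc 4 11 (.lc 0 11 (.lc 0 10 (.lc 0 1 (.lc 0 10 (.node [122,128] 10 8 (.conf [1,160] (.lc 3 1 (.conf [20,161] (.lc 3 1 (.lc 3 11 (.lc 4 11 .stop))))))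
 (.lc 0 11 .stop)))))))))))))))))
 (.lc 3 1 (.lc 3 10 (.lc 1 8 (.lc 3 10 (.lc 4 11 .stop))))))
 (.conf [32,130] .stop)))))))))))))))))))))))))))))))
 (.node [50,71,118,101,80] 0 3 .stop
 (.node [50,71,83,118,96] 0 5 (.node [83] 5 3 (.node [50,88,71,118,96] 3 2 (.node [130] 2 5 (.lc 0 2 .stop)
 (.lc 0 9 .stop))
 (.conf [50,131] .stop))
 (.lc 2 3 (.conf [133,40,83,50] (.lc 2 3 (.lc 3 3 .stop)))))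
 (.node [50,71,83,101,112] 0 6 (.node [101,83,50,71,112] 6 5 (.node [83,97] 6 1 .stop
 (.node [83,104] 2 6 (.node [133] 3 2 (.far [16,256,257,257,1,257] 4096 (.conf [57,152] (.lc 3 2 .stop)))
 (.lc 1 5 .stop))
 (.lc 2 3 (.lc 2 3 (.lc 3 0 (.conf [83,133] (.lc 2 3 (.lc 2 3 (.lc 2 3 (.lc 3 3 (.lc 3 3 .stop)))))))))))
 (.node [101,83,50,71,112,40] 6 5 (.conf [83,133] (.lc 2 3 (.lc 2 3 (.lc 0 9 (.lc 2 3 (.lc 3 3 .stop))))))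
 (.conf [101,134] (.node [101,134,83,50,71,112] 8 6 (.far [16,257,1,257] 4096 (.lc 1 3 (.lc 1 3 (.lc 1 3 (.lc 3 9 (.lc 2 3 .stop))))))
 (.conf [101,152,83,41,50] .stop)))))
 (.node [50,64,83,101,118] 4 0 .stop
 (.node [50,72,83,101,118] 4 8 (.node [64,135,50,83,101] 4 0 (.lc 0 0 .stop)
 (.node [73,135,50,83,101] 1 4 (.node [152] 8 7 (.node [118,128] 8 0 (.node [144] 0 7 (.node [118] 7 6 (.far [257,256,257,257,16,256,257,1] 4096 (.lc 2 5 .stop))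
 (.node [118] 9 7 .stop
 (.lc 2 0 (.conf [118,167] (.lc 1 5 (.lc 1 5 (.lc 2 5 .stop)))))))
 (.lc 0 10 (.lc 0 1 .stop)))
 (.node [118,130] 8 2 (.lc 0 0 .stop)
 (.node [118,138] 9 8 (.node [154] 7 6 (.node [101,112] 7 0 (.node [160] 0 6 (.far [257,0,1,16,257,16,256,257,1] 4096 (.node [101] 10 6 .stop
 (.lc 2 0 (.conf [101,182] (.lc 1 3 (.lc 1 3 (.lc 2 3 .stop)))))))
 (.lc 0 1 (.lc 0 11 .stop)))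
 (.node [101,114] 7 2 (.lc 0 0 .stop)
 (.node [101,123] 10 7 (.node [171] 6 5 (.node [83,96] 6 0 (.far [257,257,32,513,32,512,16,272,1,1] 4096 (.lc 0 1 (.lc 0 12 .stop)))
 (.node [83,98] 6 2 (.lc 0 0 .stop)
 (.node [83,108] 11 6 (.far [16,257,32,513,32,512,16,272,1,1] 4096 (.lc 3 0 (.lc 3 2 (.lc 3 13 (.lc 1 5 (.lc 1 5 (.lc 3 0 (.lc 3 13 (.lc 4 13 (.lc 4 0 (.lc 4 0 (.lc 4 14 .stop))))))))))))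
 (.lc 2 3 (.lc 2 3 (.lc 2 3 (.lc 2 3 (.lc 2 3 (.lc 3 5 (.lc 3 5 (.conf [108,192] (.node [83,96] 3 2 .stop
 (.conf [83,197] (.conf [83,197] (.lc 2 3 (.lc 2 3 (.lc 2 3 (.lc 2 3 (.lc 2 3 (.lc 2 3 (.lc 2 3 (.lc 2 3 (.lc 2 3 (.lc 2 3 (.lc 3 5 (.lc 3 5 (.lc 3 5 (.lc 3 3 (.lc 3 3 (.lc 3 3 (.lc 3 3 (.lc 3 3 (.lc 3 3 (.lc 4 5 (.lc 4 5 (.lc 4 5 (.lc 4 5 (.lc 3 3 (.lc 3 3 (.lc 3 3 (.lc 3 3 (.lc 3 3 (.lc 3 3 (.lc 3 3 (.lc 3 3 (.lc 3 3 (.lc 3 3 (.lc 3 3 (.lc 3 3 (.lc 3 3 (.lc 3 3 (.lc 3 3 (.lc 4 3 (.lc 4 3 (.lc 4 3 (.lc 4 3 (.lc 4 3 (.lc 4 3 .stop))))))))))))))))))))))))))))))))))))))))))))))))))))))))))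
 (.lc 3 0 (.lc 3 2 (.lc 3 12 (.lc 1 6 (.lc 1 6 (.lc 3 0 (.lc 3 12 (.lc 4 12 (.lc 4 0 (.lc 4 0 (.lc 4 13 .stop))))))))))))
 (.lc 2 5 (.lc 2 5 (.lc 2 5 (.lc 2 5 (.lc 2 5 (.lc 3 6 (.lc 3 6 (.conf [123,176] (.node [101,112] 3 2 .stop
 (.conf [101,182] (.conf [101,182] (.lc 2 5 (.lc 2 5 (.lc 2 5 (.lc 2 5 (.lc 2 5 (.lc 2 5 (.lc 2 5 (.lc 2 5 (.lc 2 5 (.lc 2 5 (.lc 3 6 (.lc 3 6 (.lc 3 6 (.lc 3 5 (.lc 3 5 (.lc 3 5 (.lc 3 5 (.lc 3 5 (.lc 3 5 (.lc 4 6 (.lc 4 6 (.lc 4 6 (.lc 4 6 (.lc 3 5 (.lc 3 5 (.lc 3 5 (.lc 3 5 (.lc 3 5 (.lc 3 5 (.lc 3 5 (.lc 3 5 (.lc 3 5 (.lc 3 5 (.lc 3 5 (.lc 3 5 (.lc 3 5 (.lc 3 5 (.lc 3 5 (.lc 4 5 (.lc 4 5 (.lc 4 5 (.lc 4 5 (.lc 4 5 (.lc 4 5 .stop))))))))))))))))))))))))))))))))))))))))))))))))))))))))))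
 (.lc 3 0 (.lc 3 2 (.lc 3 11 (.lc 1 7 (.lc 1 7 (.lc 3 0 (.lc 3 11 (.lc 4 11 (.lc 4 0 (.lc 4 0 (.lc 4 12 .stop))))))))))))
 (.lc 2 6 (.lc 2 6 (.lc 2 6 (.lc 2 6 (.lc 2 6 (.lc 3 4 (.lc 3 4 (.conf [138,160] (.node [118,128] 3 2 .stop
 (.conf [118,167] (.conf [118,167] (.lc 2 6 (.lc 2 6 (.lc 2 6 (.lc 2 6 (.lc 2 6 (.lc 2 6 (.lc 2 6 (.lc 2 6 (.lc 2 6 (.lc 2 6 (.lc 3 4 (.lc 3 4 (.lc 3 4 (.lc 3 6 (.lc 3 6 (.lc 3 6 (.lc 3 6 (.lc 3 6 (.lc 3 6 (.lc 4 4 (.lc 4 4 (.lc 4 4 (.lc 4 4 (.lc 3 6 (.lc 3 6 (.lc 3 6 (.lc 3 6 (.lc 3 6 (.lc 3 6 (.lc 3 6 (.lc 3 6 (.lc 3 6 (.lc 3 6 (.lc 3 6 (.lc 3 6 (.lc 3 6 (.lc 3 6 (.lc 3 6 (.lc 4 6 (.lc 4 6 (.lc 4 6 (.lc 4 6 (.lc 4 6 (.lc 4 6 .stop))))))))))))))))))))))))))))))))))))))))))))))))))))))))))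
 (.lc 3 0 (.lc 1 8 (.lc 3 0 (.lc 1 8 (.lc 3 0 (.conf [26,169] (.lc 4 0 (.lc 2 8 .stop)))))))))
 (.conf [73,135] (.conf [64,135] (.conf [74,135] (.lc 0 0 (.conf [65,135] (.conf [73,144] (.conf [135,152] (.conf [135,152] (.conf [73,135] (.conf [64,135] (.conf [74,135] (.lc 0 0 (.node [65,135,50,83,101,25] 8 7 (.conf [118,151] (.lc 2 6 (.lc 2 6 (.lc 2 6 (.lc 0 0 (.lc 0 10 (.lc 2 6 (.lc 2 6 (.lc 3 6 (.lc 3 6 (.lc 3 6 (.lc 3 6 .stop))))))))))))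
 (.lc 0 0 (.conf [65,135] (.conf [74,135] (.conf [74,135] (.conf [64,135] (.conf [75,135] (.lc 0 0 (.conf [65,135] (.lc 0 0 (.conf [26,169] (.lc 0 0 (.node [26,65,135,152,50,83,101] 9 8 (.node [118] 1 10 (.node [169] 10 9 (.lc 1 7 (.lc 1 7 (.lc 0 3 (.lc 0 5 (.lc 1 7 (.lc 1 6 (.lc 1 6 (.lc 0 2 (.lc 1 9 (.lc 2 7 (.lc 0 3 (.lc 0 5 (.lc 2 7 (.lc 2 7 (.lc 0 3 (.lc 2 7 (.lc 2 7 (.lc 0 5 (.lc 1 6 (.lc 1 6 (.lc 2 7 (.lc 1 9 (.lc 1 3 (.lc 0 3 (.lc 1 5 (.lc 2 7 (.lc 4 0 (.conf [171,182] (.lc 3 7 (.lc 1 3 (.lc 0 3 (.lc 3 7 (.lc 2 6 (.lc 1 5 (.lc 4 2 (.lc 4 11 (.lc 5 12 .stop)))))))))))))))))))))))))))))))))))))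
 (.lc 1 3 (.lc 1 5 (.lc 2 9 (.node [169,186] 10 9 (.lc 1 7 (.lc 0 3 (.lc 0 5 (.lc 1 7 (.lc 1 7 (.lc 1 6 (.lc 1 6 (.lc 0 2 (.lc 1 9 (.lc 2 7 (.lc 0 3 (.lc 0 5 (.lc 2 7 (.lc 0 3 (.lc 2 7 (.lc 2 7 (.lc 0 5 (.lc 1 6 (.lc 1 6 (.lc 2 7 (.lc 1 9 (.lc 1 3 (.lc 0 3 (.lc 1 5 (.lc 2 7 (.lc 4 1 (.conf [172,198] (.lc 3 7 (.lc 1 3 (.lc 0 3 (.lc 3 7 (.lc 2 6 (.lc 1 5 (.lc 4 2 (.lc 4 12 (.lc 5 13 .stop))))))))))))))))))))))))))))))))))))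
 (.lc 2 9 (.lc 1 3 (.lc 3 9 .stop))))))))
 (.lc 1 6 (.lc 1 6 (.lc 1 6 (.lc 1 6 (.lc 1 6 (.lc 3 0 (.lc 3 11 (.lc 2 6 (.lc 2 6 (.lc 2 6 (.lc 2 6 .stop))))))))))))
 (.lc 0 0 (.conf [65,169,26] (.lc 0 0 (.conf [27,186] .stop)))))))))))))))))))))))))))))))
 .stop)))))))))))))))))))))))))))))))))))))))))))))

theorem t40 : kNode2 awTt FTt 4 3 (check tyTt awTt triet FTt [s41, s43, s44] c40) (fun _ _ _ => true) 0 s40 Pl.nil s40 =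
    true := by
  decide +kernel

end Chk
end Pool.Agent.Lib.MP_ba95e8_co
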