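import Pool.Agent.Lib.MP_ba95e8_co.ChkTab
import Pool.Agent.Lib.MP_ba95e8_co.ChkStates

/-!
Deltahedral domes: part 41 of the case analysis.
-/

namespace Pool.Agent.Lib.MP_ba95e8_co
namespace Chk

/-- certificate number 41 -/
def c41 : Cert := (.node [] 5 3 (.far [1,4112,1,257] 4096 (.node [48] 6 3 (.far [1,1,4112,1,257] 4096 (.node [103,112,86,48] 5 6 (.node [81,103,112] 1 6 .stop
 (.lc 2 3 (.node [88,103,112] 6 7 (.far [4112,1,4096,257,4112,1,257] 4096 (.lc 0 1 (.lc 0 4 (.lc 0 9 (.lc 0 9 (.node [112,151] 9 7 (.node [112,145] 1 7 (.far [16,16,257,16,513,4096] 0 .stop)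
 (.node [69,112,148] 4 7 .stop
 (.node [112,154] 7 0 (.lc 0 1 .stop)
 (.lc 2 0 (.lc 3 4 (.lc 3 5 (.lc 3 1 (.lc 3 4 (.lc 3 11 (.conf [69,148] (.conf [112,167] (.lc 2 0 (.lc 3 4 (.lc 3 10 (.lc 3 10 (.lc 3 11 (.lc 4 10 (.lc 4 4 (.lc 4 12 (.lc 3 0 (.lc 3 0 .stop)))))))))))))))))))))
 (.lc 0 4 (.lc 0 10 .stop))))))))
 (.lc 3 3 (.conf [99,135,88] (.lc 3 1 (.lc 3 9 (.lc 3 3 (.conf [103,134] (.conf [99,112] (.lc 3 3 (.conf [99,112] (.lc 3 1 (.lc 3 8 (.lc 3 8 (.lc 3 9 (.lc 4 3 (.conf [99,112] (.lc 4 10 (.lc 4 9 (.lc 4 8 (.lc 4 9 (.lc 4 1 (.lc 4 9 (.lc 5 10 .stop)))))))))))))))))))))))))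
 (.node [112,103] 6 7 (.node [97,112] 6 1 (.node [100] 6 4 (.lc 0 3 .stop)
 (.far [16,4112,4096,0,4112,0,256] 0 .stop))
 (.node [69,100,112] 6 4 (.lc 0 3 .stop)
 (.lc 2 3 (.node [104,112] 7 0 (.node [113,104] 7 1 (.far [257,257,16,4097,1,8208,1,257] 4096 (.lc 0 4 (.lc 0 4 (.lc 0 9 (.far [257,256,16,4096,0,4096] 256 (.lc 0 9 .stop))))))
 (.node [112,129,104] 8 1 (.far [1,257,0,1,1,4096,1,1] 4096 (.lc 3 9 (.node [69,148,137,104] 9 4 (.far [16,16,4112,0,16,16,0,256] 0 (.lc 1 6 (.lc 1 6 (.lc 3 10 (.lc 2 6 .stop)))))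
 (.lc 1 1 (.lc 3 9 (.lc 4 10 .stop))))))
 (.conf [16,69] (.conf [121,145] (.far [1,1,257,1,0,1,257] 16 (.conf [16,69] (.node [112,137,145,104,20,48,69] 1 4 (.node [148] 8 9 (.lc 2 5 (.lc 2 10 (.lc 1 1 (.lc 3 10 (.lc 1 9 (.lc 0 10 (.lc 3 11 (.lc 1 1 (.lc 0 4 (.lc 0 3 (.lc 2 1 (.lc 1 10 (.lc 2 1 .stop)))))))))))))
 (.lc 2 5 (.lc 2 1 (.lc 0 10 (.lc 2 5 (.lc 3 5 .stop))))))
 .stop)))))))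
 (.conf [69,100] (.lc 3 3 (.conf [112,129,104] (.conf [71,104,132] (.lc 3 3 (.conf [105,112,135,152] (.node [100,112,69] 6 4 (.lc 0 3 .stop)
 (.conf [97,112,135] (.conf [72,112,135] (.conf [105,112,135] (.conf [69,100] (.lc 3 3 (.node [105,152,105,112,48,86] 6 9 (.lc 2 1 (.lc 2 4 (.conf [89,152] (.lc 2 10 (.lc 3 4 (.lc 0 1 (.lc 3 10 (.lc 3 10 (.lc 0 10 (.lc 3 11 (.lc 0 3 (.lc 3 3 (.lc 3 4 (.lc 0 10 (.lc 3 11 (.lc 3 4 (.lc 0 3 (.lc 3 1 (.lc 3 4 (.lc 2 8 (.lc 3 11 (.lc 3 3 (.lc 0 3 (.lc 3 3 (.lc 0 1 (.lc 0 10 (.lc 4 10 (.lc 4 4 (.lc 0 11 (.lc 4 12 (.lc 0 11 (.lc 0 10 (.lc 0 11 (.lc 0 1 (.lc 0 11 (.lc 0 3 (.lc 4 3 (.lc 0 12 .stop))))))))))))))))))))))))))))))))))))))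
 (.conf [23,112] (.lc 0 3 (.node [112,135,97,86] 6 1 (.lc 2 4 (.lc 3 9 .stop))
 (.conf [72,112,135] (.lc 3 3 (.node [112,135,105,86] 8 7 (.lc 3 1 .stop)
 (.conf [100,112] (.conf [104,112] (.conf [104,112] (.conf [97,112] (.conf [100,112] (.conf [105,112] (.node [69,100,112] 6 4 (.lc 0 3 .stop)
 (.node [104,112,129,86] 1 7 .stop
 (.node [69,104,112,132] 4 7 (.far [257,1,256,0,257,0,4096] 0 (.lc 0 0 (.conf [25,151] .stop)))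
 (.node [105,112,152,86] 6 9 (.node [152] 5 9 (.node [81,152] 1 9 .stop
 (.lc 2 3 (.node [90,152] 9 8 (.far [4112,1,4096,4112,4112,256] 0 (.lc 0 1 (.lc 0 4 (.lc 0 11 (.lc 0 11 (.node [135,184] 5 10 (.node [171] 8 7 (.node [112,129] 1 7 (.far [1,1,0,0,0,4112,1,272,256] 0 .stop)
 (.node [112,140] 11 8 (.far [16,257,0,257,16,16,258] 0 (.lc 3 1 (.lc 3 13 (.lc 1 7 (.lc 3 13 (.lc 4 14 .stop))))))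
 (.lc 2 0 (.lc 3 7 (.conf [112,199] (.lc 3 7 (.lc 3 7 (.lc 4 7 (.lc 3 0 .stop)))))))))
 (.lc 2 11 (.lc 2 5 (.far [4112,0,4112,256,0,0,4112,0,256] 0 (.lc 0 1 (.lc 2 11 (.lc 3 11 .stop)))))))
 (.lc 0 4 (.lc 0 12 .stop))))))))
 (.lc 3 3 (.lc 2 5 (.lc 0 1 (.lc 3 3 (.lc 3 3 (.conf [152,169] (.lc 2 5 (.lc 3 3 (.lc 2 5 (.lc 3 3 (.lc 3 3 (.lc 4 3 (.lc 3 5 (.lc 4 3 (.lc 4 3 (.lc 4 3 (.lc 0 1 (.lc 4 3 (.lc 5 3 .stop))))))))))))))))))))))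
 (.lc 0 1 (.lc 0 10 (.lc 0 10 (.lc 0 3 (.lc 2 8 (.lc 0 11 .stop)))))))
 (.conf [23,112] (.conf [69,100] (.lc 4 3 (.conf [106,112,135,152,169] (.far [4112,4096,0,4112,0,256] 0 (.conf [24,135] (.conf [106,112,135] (.conf [104,112] (.conf [105,112] (.conf [105,112] (.conf [100,112] (.conf [106,112] (.conf [23,112] (.conf [100,112] (.conf [105,112] (.conf [105,112] (.conf [106,112] (.conf [23,112] (.conf [100,112] (.conf [97,112] (.conf [100,112] (.conf [106,112] (.conf [23,112] (.conf [105,112] (.conf [100,112] (.conf [107,112] .stop)))))))))))))))))))))))))))))))))))))))))))))))))))))))))))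
 (.far [2,2,8208,2,257] 4096 (.node [104,135,86,48,112] 6 8 (.node [97,135,112] 6 1 .stop
 (.node [69,100,135,112] 6 4 (.lc 0 3 .stop)
 (.node [105,135,112] 5 6 (.far [2,8224,12304,513,8208,1,257] 4096 (.lc 3 1 (.lc 3 10 (.lc 3 3 (.lc 1 8 (.lc 3 10 (.lc 4 11 .stop)))))))
 (.conf [69,100] (.conf [105,135] (.conf [105,135] (.conf [106,135] (.lc 0 3 (.conf [99,135] (.conf [69,100] (.conf [135,152] (.conf [24,135] (.conf [97,135] (.conf [100,135] (.conf [106,135] (.node [99,135,112,81] 1 8 .stop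
 (.lc 0 3 (.node [99,135,112,89] 8 7 (.conf [112,151] (.lc 2 0 (.lc 2 0 (.lc 2 0 (.lc 0 10 (.lc 2 0 (.lc 3 0 (.lc 3 0 .stop))))))))
 (.lc 0 1 (.lc 0 9 (.conf [24,135] (.conf [69,100] (.conf [107,135] (.lc 0 10 (.lc 0 9 (.lc 0 10 (.lc 0 1 (.lc 0 10 (.lc 0 3 (.conf [99,169,90] (.lc 0 11 .stop)))))))))))))))))))))))))))))))
 .stop)))))
 (.conf [48,86,96] (.node [86,96,69,48] 4 5 (.lc 2 1 (.node [71,86,48,96] 5 6 (.far [4112,1,4096,4112,257,257] 4096 (.lc 0 1 (.lc 0 8 (.lc 0 8 (.node [96,134] 8 6 (.node [96,129] 1 6 (.far [16,16,257,16,513,0,4096] 0 .stop)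
 (.node [96,137] 6 0 (.lc 0 1 .stop)
 (.lc 2 0 (.lc 3 4 (.lc 3 1 (.lc 3 10 (.conf [96,150] (.lc 2 0 (.lc 3 9 (.lc 3 10 (.lc 4 11 (.lc 3 0 .stop))))))))))))
 (.lc 0 9 .stop))))))
 (.lc 3 1 (.node [83,118,48,71,96] 4 7 (.conf [23,118] (.lc 2 8 (.lc 2 6 (.lc 3 9 (.lc 3 1 (.conf [24,135] (.lc 3 9 (.lc 2 6 (.lc 3 9 (.lc 3 1 (.lc 3 1 (.lc 3 6 (.lc 4 10 (.lc 4 1 (.lc 4 1 (.lc 4 1 (.lc 4 1 (.lc 5 1 .stop))))))))))))))))))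
 (.lc 3 8 (.lc 3 1 (.conf [86,117] (.lc 3 1 (.conf [83,96] (.lc 3 7 (.lc 3 8 (.lc 4 1 (.conf [83,96] (.lc 4 9 (.lc 4 8 (.lc 4 8 (.lc 4 8 (.lc 5 9 .stop))))))))))))))))))
 (.conf [87,99,48] (.node [96,86] 5 6 (.node [81,96,48,69] 5 1 (.far [4112,4112,4112,0,256] 0 .stop)
 (.conf [83,96] (.node [87,96,48,69] 6 0 (.node [97,87,48,69] 6 1 (.far [257,257,16,4097,8208,1,257] 4096 (.lc 0 4 (.lc 1 5 (.lc 0 8 (.lc 1 5 (.lc 2 5 .stop))))))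
 (.node [96,113,87,69] 1 4 (.far [4112,257,0,1,4096,1,1] 4096 (.lc 2 5 (.lc 0 8 (.lc 2 5 (.lc 3 5 .stop)))))
 (.lc 1 0 (.conf [104,129] (.far [1,1,257,0,1,257] 16 (.lc 2 0 (.conf [120,129,87,20,69] .stop)))))))
 (.conf [96,113,87] (.conf [71,83] (.conf [88,96,118,135] (.conf [81,96,118] (.conf [88,96,118] (.conf [71,83] (.node [88,135,88,96,48,69] 5 8 (.lc 2 1 (.far [4112,4112,4112,0,256] 0 (.lc 2 9 (.lc 3 9 (.lc 0 9 (.lc 3 10 (.lc 0 1 (.lc 3 3 (.lc 0 9 (.lc 3 10 (.lc 0 1 (.lc 3 1 (.lc 2 7 (.lc 3 10 (.lc 0 1 (.lc 3 3 (.lc 0 9 (.lc 0 10 (.lc 4 11 (.lc 0 10 (.lc 0 10 (.lc 0 10 (.lc 0 1 (.lc 4 3 (.lc 0 11 .stop)))))))))))))))))))))))))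
 (.conf [22,65] (.node [96,118,81,48,69] 5 1 (.far [1,257,256,257,0,4096] 0 .stop)
 (.conf [83,118,71] (.node [96,118,88,48,69] 7 6 (.lc 3 1 .stop)
 (.conf [87,96] (.conf [81,96] (.conf [88,96] (.node [87,96,113,48,69] 1 6 .stop
 (.node [88,96,135,48,69] 5 8 (.node [135,72] 4 8 (.lc 2 1 (.node [73,135] 8 7 (.far [4112,1,4096,4112,4112,0,256] 0 (.lc 0 1 (.lc 0 10 (.lc 0 10 (.node [118,167] 1 4 (.far [16,257,256,0,257,256,257,0,4096] 0 (.lc 1 10 (.lc 1 10 (.lc 1 4 (.conf [27,185] (.lc 2 10 .stop))))))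
 (.lc 0 11 .stop))))))
 (.lc 3 1 (.lc 2 4 (.lc 3 1 (.lc 3 1 (.conf [135,152] (.lc 3 1 (.lc 2 4 (.lc 3 1 (.lc 3 1 (.lc 4 1 (.lc 3 4 (.lc 4 1 (.lc 4 1 (.lc 4 1 (.lc 4 1 (.lc 5 1 .stop))))))))))))))))))
 (.lc 0 9 (.lc 0 9 (.lc 0 1 (.lc 2 7 (.lc 0 10 .stop))))))
 (.conf [72,83] (.conf [89,96,118,135,152] (.conf [89,96,118] (.conf [88,96] (.conf [89,96] (.conf [88,96] (.conf [89,96] (.conf [81,96] (.conf [89,96] (.conf [90,96] .stop)))))))))))))))))))))))))))))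
 (.node [48,99,118,48] 6 3 (.node [96] 7 6 (.node [96,113] 1 6 (.far [1,1,4097,1,8208,1,257] 4096 .stop)
 (.node [69,96,116] 4 6 (.lc 0 0 .stop)
 (.node [96,120] 8 6 (.far [1,1,4097,1,8208,1,257] 4096 (.lc 3 1 (.far [16,16,272,16,513,16,4112] 1 (.lc 3 1 (.lc 3 9 (.lc 4 4 (.lc 4 9 .stop)))))))
 (.conf [96,113] (.conf [96,120] (.conf [96,116] (.conf [96,113] (.conf [96,116] (.conf [96,121] (.conf [69,116] (.conf [96,134] (.conf [96,113] (.far [257,257,1,0,1,257] 16 (.node [69,96,116,1] 7 4 (.lc 0 3 .stop)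
 (.node [96,120,87,1] 5 7 (.node [88] 5 8 (.node [81,128] 5 1 (.lc 0 1 .stop)
 (.lc 2 3 (.node [89,128] 4 5 (.far [1,4112,4112,0,0,4112,0,256] 0 (.conf [74,83,152] (.lc 3 1 (.node [152,169,74,83] 8 0 (.far [1,0,0,1,1,0,257,0,1,257] 16 (.lc 3 0 (.node [139,177,20,139,152,169] 9 8 (.node [155,177] 9 11 (.far [4112,4112,0,1,4128,8192,8192,8192,0,8208,257,257] 4096 (.lc 0 12 .stop))
 (.lc 3 5 (.lc 1 1 (.lc 3 5 (.lc 4 5 .stop)))))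
 (.lc 4 0 .stop))))
 (.far [1,4112,4112,0,0,4112,0,256] 0 (.conf [75,83,152] .stop))))))
 (.lc 2 0 (.lc 3 3 (.lc 2 0 (.lc 0 1 (.lc 3 3 (.lc 3 3 (.node [128,152,169,90,69] 4 5 (.far [1,4112,4112,0,0,4112,0,256] 0 (.lc 3 11 (.lc 3 1 (.lc 1 9 (.lc 3 11 (.lc 4 12 .stop))))))
 (.lc 0 1 (.lc 2 0 (.lc 3 3 (.lc 2 0 (.lc 0 1 (.lc 3 3 (.lc 3 3 (.lc 4 3 (.lc 3 0 (.lc 4 3 (.lc 4 3 (.lc 4 3 (.lc 0 1 (.lc 4 3 (.lc 5 3 .stop)))))))))))))))))))))))))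
 (.lc 3 1 (.lc 3 9 (.lc 3 3 (.lc 1 0 (.lc 3 9 (.lc 4 10 .stop)))))))
 (.conf [69,116] (.conf [96,120] (.conf [96,120] (.conf [96,121] (.conf [16,69] (.conf [96,120] (.conf [96,120] (.conf [69,116] (.conf [96,122] (.conf [16,69] (.far [1,1,1,4112,1,257] 16 (.conf [96,128,1] (.lc 1 0 (.far [1,1,1,4112,1,257] 16 (.conf [16,69,116] (.node [96,120,129,87] 5 7 (.far [16,256,257,4096] 4097 (.lc 3 9 (.lc 3 3 (.conf [89,152] (.lc 3 9 (.lc 4 10 .stop))))))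
 (.conf [16,69] (.node [96,121,129,152,87,20,129] 5 7 (.conf [89,152] (.lc 3 10 (.lc 3 3 (.lc 1 8 (.lc 3 10 (.lc 4 11 .stop))))))
 .stop)))))))))))))))))))))))))))))))))
 (.lc 3 8 (.node [104,128,104,118,87] 7 6 (.lc 1 8 (.lc 1 8 (.lc 1 8 (.lc 3 9 (.lc 2 8 (.lc 2 8 (.lc 2 8 (.lc 2 8 (.lc 2 8 (.lc 2 8 (.lc 3 1 (.lc 3 4 (.lc 3 9 (.node [113,128] 7 1 .stop
 (.conf [116,128,72] (.node [121,128] 5 7 (.conf [89,152] (.lc 3 1 (.lc 3 10 (.lc 3 3 (.conf [90,169] (.lc 3 10 (.lc 4 11 .stop)))))))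
 (.lc 2 8 (.lc 2 8 (.lc 2 8 (.lc 2 8 (.lc 4 4 (.lc 4 10 (.lc 3 8 (.lc 3 8 (.lc 3 8 (.conf [69,116] (.node [122,128,152] 5 7 (.conf [90,169] (.lc 3 1 (.lc 3 11 (.lc 3 3 (.lc 1 9 (.lc 3 11 (.lc 4 12 .stop)))))))
 (.lc 2 0 (.lc 2 0 (.lc 2 0 (.lc 2 0 (.lc 2 0 (.lc 2 0 (.lc 2 0 (.lc 2 0 (.lc 3 0 (.lc 3 0 (.lc 3 0 .stop))))))))))))))))))))))))))))))))))))))
 (.lc 3 8 (.lc 4 9 .stop)))))
 (.node [48,86,69] 4 5 (.lc 2 1 (.lc 1 3 (.node [71] 5 6 (.node [81] 5 1 .stop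
 (.far [257,16,257,0,4096] 0 (.node [88] 7 5 (.far [16,257,16,257,0,4096] 0 (.conf [113,134,83] (.conf [121,134,83] (.far [16,257,16,257,0,4096] 0 (.node [121,152,83] 4 7 (.lc 2 1 (.node [70,96,121,152] 6 7 .stop
 (.node [74,121,152] 7 9 (.far [4112,1,1,4112,258,4112,4112,513,257] 4096 (.lc 2 8 (.lc 2 8 (.lc 2 8 (.lc 0 11 (.lc 2 8 (.lc 3 8 .stop)))))))
 (.lc 3 1 (.conf [116,152] (.lc 3 1 (.lc 3 1 (.conf [121,167] (.lc 3 1 (.node [96,116,152,70] 4 6 .stop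
 (.node [116,152,134,74] 9 8 (.node [134] 4 10 (.far [257,257,256,256,257,0,257,257,0,4096] 0 (.lc 2 8 (.lc 2 8 (.conf [27,186] (.lc 2 8 (.lc 3 8 .stop))))))
 (.lc 2 6 (.lc 2 6 (.lc 2 5 (.lc 0 11 (.lc 2 6 (.lc 3 6 .stop)))))))
 (.lc 3 1 (.lc 3 1 (.lc 3 1 (.lc 4 1 (.conf [116,186,75] (.lc 4 1 (.lc 4 1 (.lc 4 1 (.lc 4 1 (.lc 4 1 (.lc 5 1 .stop))))))))))))))))))))))
 (.conf [122,134,83] .stop))))))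
 (.lc 2 0 (.lc 2 0 (.lc 2 0 (.lc 2 0 (.lc 3 3 (.node [83,120,134] 4 7 (.lc 2 1 (.node [73,120] 7 8 (.far [4112,1,4112,258,4112,4112,513,257] 4096 (.lc 2 6 (.lc 2 6 (.lc 0 10 (.lc 2 6 (.lc 3 6 .stop))))))
 (.lc 3 1 (.lc 2 4 (.lc 3 1 (.lc 3 1 (.conf [120,151] (.lc 3 1 (.lc 2 4 (.lc 3 1 (.lc 3 1 (.lc 4 1 (.lc 3 4 (.lc 4 1 (.lc 4 1 (.lc 4 1 (.lc 4 1 (.lc 5 1 .stop))))))))))))))))))
 (.node [89,152,89,134] 5 9 (.node [152] 9 8 (.node [134,145] 9 1 .stop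
 (.node [134,154] 7 9 (.far [1,4112,8208,4112,2,4112,4112,513,257] 4096 (.lc 3 1 (.lc 3 11 (.lc 1 8 (.lc 3 11 (.lc 4 12 .stop))))))
 (.conf [134,154] (.conf [134,155] (.conf [134,149] (.conf [134,168] (.conf [24,134] (.conf [134,145] (.conf [134,155] (.node [134,149,96,113] 1 8 .stop
 (.lc 0 4 (.node [134,149,96,122] 8 6 (.node [96] 7 10 (.node [113,166] 7 1 (.lc 0 1 .stop)
 (.lc 2 4 (.lc 1 6 (.node [123,166] 4 7 (.far [16,257,0,1,4096,0,4096] 0 (.conf [65,116,186] (.lc 3 1 (.far [16,257,0,1,4096,0,4096] 0 (.node [27,65,116] 1 11 .stop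
 (.conf [65,116,186] .stop))))))
 (.lc 3 4 (.lc 2 6 (.lc 2 6 (.lc 0 1 (.lc 3 4 (.lc 3 4 (.node [166,186,203,124] 4 7 (.node [203] 4 12 (.far [257,257,0,0,0,0,0,257,0,0,257,1] 4096 (.conf [186,196] (.conf [29,220] (.far [257,256,257,257,257,0,1,0,257,257,0,4096] 0 (.conf [29,219] .stop)))))
 (.lc 3 1 (.lc 3 1 (.lc 1 11 (.lc 3 1 (.lc 4 1 .stop))))))
 (.lc 0 1 (.lc 2 6 (.lc 3 4 (.lc 2 6 (.lc 0 1 (.lc 3 4 (.lc 3 4 (.lc 4 4 (.lc 3 6 (.lc 4 4 (.lc 4 4 (.lc 4 4 (.lc 0 1 (.lc 4 4 (.lc 5 4 .stop))))))))))))))))))))))))))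
 (.lc 2 0 (.lc 2 0 (.lc 0 11 (.lc 2 0 (.lc 3 0 .stop))))))
 (.lc 0 1 (.lc 0 10 (.conf [134,156] (.lc 0 11 (.lc 0 10 (.lc 0 11 (.lc 0 1 (.lc 0 11 (.lc 0 4 (.conf [149,186,123] (.lc 0 12 .stop)))))))))))))))))))))))
 (.lc 0 1 (.lc 0 10 (.lc 0 10 (.lc 2 8 (.lc 0 11 .stop))))))
 (.lc 2 0 (.lc 2 0 (.lc 2 0 (.lc 3 3 (.lc 3 3 (.lc 3 3 (.lc 3 3 (.lc 3 0 (.lc 3 0 (.lc 4 3 (.lc 4 3 (.lc 4 3 (.lc 4 3 (.lc 4 3 (.lc 4 3 (.lc 5 3 .stop))))))))))))))))))))))))))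
 (.lc 3 1 (.lc 2 6 (.lc 3 7 (.lc 3 8 (.lc 3 1 (.lc 2 3 (.lc 3 1 (.node [72,135,117] 7 5 (.node [86,113] 1 5 .stop
 (.far [16,16,257,0,4096] 0 (.node [86,121] 5 6 (.far [257,16,16,257,0,4096] 0 (.lc 2 0 (.lc 2 0 (.lc 0 10 (.lc 2 0 (.lc 3 0 .stop))))))
 (.lc 2 3 (.lc 1 0 (.lc 1 0 (.lc 3 1 (.lc 3 10 (.lc 1 0 (.conf [86,149] (.lc 2 3 (.lc 2 3 (.lc 2 3 (.lc 2 3 (.lc 3 9 (.lc 3 9 (.lc 3 10 (.lc 3 3 (.lc 2 0 (.lc 4 11 (.lc 3 3 (.lc 3 3 (.lc 3 3 (.lc 3 3 (.lc 3 3 (.lc 4 3 .stop))))))))))))))))))))))))))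
 (.lc 3 1 (.lc 2 6 (.lc 3 8 (.lc 3 7 (.lc 3 8 (.lc 4 1 (.lc 3 6 (.lc 4 8 (.lc 4 9 (.lc 4 9 (.lc 4 9 (.lc 4 9 (.lc 5 10 .stop))))))))))))))))))))))))
 (.node [48,86,96,69] 4 5 (.lc 2 1 (.node [71,86] 5 6 (.far [12336,3,16400,16416,770,514] 8192 (.lc 0 1 (.lc 0 8 (.lc 0 8 (.node [96,134] 8 6 (.node [96,129] 1 6 (.far [16,16,257,16,513,0,4096] 0 .stop)
 (.node [96,137] 6 0 (.far [257,16,257,16,513,0,4096] 0 (.lc 0 1 (.lc 0 1 (.lc 0 10 (.far [257,16,257,16,513,0,4096] 4097 (.lc 0 10 .stop))))))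
 (.lc 2 0 (.lc 2 0 (.lc 3 4 (.lc 3 1 (.lc 3 10 (.conf [96,150] (.lc 2 0 (.lc 2 0 (.lc 2 0 (.lc 3 9 (.lc 3 10 (.lc 3 0 (.lc 4 11 (.lc 3 0 (.lc 3 0 (.lc 3 0 (.lc 1 0 (.lc 3 0 (.lc 4 0 .stop)))))))))))))))))))))
 (.lc 0 9 .stop))))))
 (.lc 3 1 (.lc 2 3 (.lc 3 8 (.lc 3 1 (.conf [86,117] (.lc 3 1 (.lc 2 3 (.lc 3 7 (.lc 3 8 (.lc 4 1 (.lc 3 3 (.lc 4 9 (.lc 4 8 (.lc 4 8 (.lc 4 8 (.lc 5 9 .stop))))))))))))))))))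
 (.far [2,8208,2,257] 4096 (.node [87,118,69,48] 6 3 (.far [2,2,8208,2,257] 4096 (.lc 3 8 (.node [128] 5 7 (.node [81,118] 5 1 (.lc 0 1 .stop)
 (.node [88,118,128] 5 8 .stop
 (.node [89,118] 4 5 (.node [73] 7 6 (.node [104,113] 7 1 .stop
 (.lc 1 3 (.node [104,122] 9 7 (.node [154] 10 6 (.node [104,161,128] 1 6 .stop
 (.far [1,1,4096,1,4096,4096,0,4112,257,257] 4096 (.lc 2 6 (.node [104,171,128] 6 8 (.far [4112,1,1,4096,1,4096,4096,0,4112,257,257] 4096 (.lc 2 0 (.lc 2 0 (.lc 0 12 (.lc 2 0 (.lc 3 0 .stop))))))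
 (.lc 2 3 (.lc 3 4 (.lc 3 1 (.lc 3 11 (.lc 3 1 (.lc 3 12 (.conf [128,171,184] (.conf [104,182] (.lc 2 3 (.lc 2 3 (.lc 2 3 (.lc 2 3 (.lc 2 3 (.lc 3 11 (.lc 3 11 (.lc 3 12 (.lc 3 3 (.lc 4 12 (.lc 4 13 (.lc 3 3 (.lc 3 3 (.lc 3 3 (.lc 3 3 (.lc 3 3 (.lc 3 3 (.lc 4 3 .stop))))))))))))))))))))))))))))))
 (.lc 3 1 (.lc 3 8 (.lc 3 11 (.lc 1 6 (.lc 3 11 (.lc 4 12 .stop)))))))
 (.lc 2 8 (.lc 2 8 (.lc 2 3 (.lc 3 5 (.lc 2 3 (.conf [104,166] (.lc 2 8 (.lc 2 8 (.lc 2 8 (.lc 2 8 (.lc 2 8 (.lc 2 8 (.lc 3 5 (.lc 2 3 (.lc 3 5 (.lc 3 8 (.lc 3 3 (.lc 4 5 (.lc 3 8 (.lc 3 8 (.lc 3 8 (.lc 3 8 (.lc 3 8 (.lc 3 8 (.lc 4 8 .stop))))))))))))))))))))))))))))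
 (.lc 3 8 (.lc 3 10 (.lc 3 1 (.lc 1 7 (.lc 3 10 (.lc 4 11 .stop)))))))
 (.conf [89,118] (.conf [89,118] (.conf [90,118] (.lc 0 1 (.conf [83,118] (.conf [118,151] (.conf [81,118] (.conf [88,118] (.conf [90,118] (.lc 0 1 (.conf [118,135] (.node [83,118,104,128,73] 7 6 (.node [104] 4 9 (.lc 2 1 (.lc 1 4 (.node [128,137] 4 8 .stop
 (.node [74,150] 1 4 (.far [16,257,257,257,16,256,257,0,4096] 0 (.node [24,128,138,169,65] 1 8 (.lc 1 10 .stop)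
 (.node [27,169,65] 1 11 (.lc 2 10 .stop)
 (.far [16,257,257,257,16,256,257,0,4096] 0 (.conf [27,186] (.conf [28,203] .stop))))))
 (.lc 3 1 (.lc 2 6 (.lc 3 1 (.lc 2 6 (.lc 3 1 (.lc 1 3 (.lc 3 1 (.node [150,169,186,75] 4 11 (.node [186] 9 6 (.lc 1 3 (.lc 2 4 (.node [104,156] 10 9 (.far [16,257,257,256,4096,4096,0,0,0,257,1] 4096 (.lc 3 8 (.lc 3 13 (.lc 1 6 (.lc 3 13 (.lc 4 14 .stop))))))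
 (.lc 2 3 (.lc 2 3 (.lc 2 3 (.lc 3 4 (.lc 2 3 (.lc 2 3 (.lc 3 4 (.conf [104,198] (.lc 2 3 (.lc 2 3 (.lc 2 3 (.lc 2 3 (.lc 3 4 (.lc 3 3 (.lc 3 3 (.lc 3 3 (.lc 4 4 (.lc 3 3 (.lc 3 3 (.lc 3 3 (.lc 4 3 .stop))))))))))))))))))))))))
 (.lc 2 10 (.lc 2 10 (.conf [28,203] (.lc 2 10 (.lc 3 10 .stop))))))
 (.lc 3 1 (.lc 2 6 (.lc 2 6 (.lc 3 1 (.lc 3 1 (.lc 3 1 (.lc 3 1 (.lc 3 1 (.lc 4 1 (.lc 3 6 (.lc 4 1 (.lc 4 1 (.lc 4 1 (.lc 4 1 (.lc 0 0 (.lc 4 1 (.lc 4 1 (.lc 4 1 (.lc 5 1 .stop)))))))))))))))))))))))))))))))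
 (.lc 2 8 (.lc 2 8 (.lc 2 3 (.lc 0 10 (.lc 2 8 (.lc 3 8 .stop)))))))
 (.lc 0 8 (.lc 0 9 (.conf [91,118] (.lc 0 10 (.lc 0 9 (.lc 0 10 (.lc 0 8 (.lc 0 10 (.lc 0 1 (.conf [83,169,74] (.lc 0 11 .stop))))))))))))))))))))))))))
 (.lc 3 8 (.lc 4 9 .stop)))))
 (.conf [48,87,118] (.node [87,118,69,48,96] 5 7 (.node [81,118,48,96] 5 1 (.lc 0 1 .stop)
 (.node [88,118,48,96] 4 5 (.far [2,8224,12304,8208,513,257] 4096 (.lc 3 9 (.lc 3 1 (.lc 1 7 (.lc 3 9 (.lc 4 10 .stop))))))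
 (.conf [88,118] (.conf [89,118] (.lc 0 1 (.conf [83,118] (.conf [118,135] (.conf [81,118] (.conf [89,118] (.lc 0 1 (.node [83,118,48,96,72] 7 6 (.far [4112,4096,4112,0,256] 0 (.lc 2 0 (.lc 2 0 (.far [4112,4096,4112,0,256] 0 (.lc 2 0 (.lc 3 0 .stop))))))
 (.lc 0 8 (.conf [90,118] (.lc 0 9 (.lc 0 9 (.lc 0 9 (.lc 0 1 (.node [83,118,135,48,96,73] 8 7 (.node [96] 8 6 (.lc 1 0 (.lc 1 0 (.lc 3 1 (.lc 2 0 (.lc 2 0 (.lc 2 0 (.lc 2 0 (.lc 3 0 (.conf [20,145] .stop)))))))))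
 (.lc 1 0 (.lc 1 0 (.lc 1 0 (.lc 3 10 (.lc 2 0 .stop))))))
 (.lc 0 10 .stop)))))))))))))))))))
 (.conf [88,99,48] (.node [48,87,118,69,96] 5 7 (.node [81,118] 5 1 (.lc 0 1 .stop)
 (.node [88,118] 4 5 (.far [3,12336,16400,16416,770,514] 8192 (.lc 3 9 (.lc 3 1 (.lc 1 7 (.lc 3 9 (.lc 4 10 .stop))))))
 (.lc 2 6 (.lc 2 6 (.lc 0 1 (.lc 3 3 (.conf [118,135] (.lc 2 6 (.lc 2 6 (.lc 0 1 (.lc 3 3 (.lc 0 8 (.lc 3 6 (.lc 0 9 (.lc 0 9 (.lc 0 9 (.lc 0 1 (.lc 4 3 (.lc 0 10 .stop)))))))))))))))))))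
 (.node [48,87,118,69,96] 5 7 (.node [81,118] 5 1 (.lc 0 1 .stop)
 (.node [88,118] 4 5 (.node [72] 8 7 (.node [118,129] 1 7 .stop
 (.lc 2 4 (.node [118,137] 7 6 (.far [257,16,16,256,257,0,4096] 0 (.lc 0 1 (.lc 0 10 (.lc 0 10 (.far [257,16,16,256,257,0,4096] 0 (.lc 0 11 .stop))))))
 (.lc 2 5 (.lc 3 1 (.lc 3 10 (.lc 3 4 (.conf [118,151] (.lc 2 5 (.lc 2 5 (.lc 2 5 (.lc 2 5 (.lc 2 5 (.lc 3 9 (.lc 3 10 (.lc 3 5 (.lc 3 5 (.lc 4 11 (.lc 3 5 (.lc 3 5 (.lc 3 5 (.lc 3 5 (.lc 3 5 (.lc 4 5 .stop))))))))))))))))))))))))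
 (.lc 3 9 (.lc 3 1 (.lc 1 7 (.lc 3 9 (.lc 4 10 .stop))))))
 (.lc 2 6 (.lc 2 6 (.lc 0 1 (.lc 3 3 (.conf [118,135] (.lc 2 6 (.lc 2 6 (.lc 0 1 (.lc 3 3 (.lc 0 8 (.lc 3 6 (.lc 0 9 (.lc 0 9 (.lc 0 9 (.lc 0 1 (.lc 4 3 (.lc 0 10 .stop)))))))))))))))))))
 (.conf [48,87,96,118] (.node [48,88,135,69,118,96] 5 8 (.node [81,135] 5 1 (.lc 0 1 .stop)
 (.node [89,135] 4 5 (.node [73] 8 7 (.node [118,129] 8 1 .stop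
 (.node [118,138] 9 8 (.node [154] 7 6 (.node [96,113] 7 1 .stop
 (.node [96,123] 10 7 (.far [1,4112,2,8208,2,8192,4112,4112,513,257] 4113 (.lc 3 1 (.lc 3 12 (.lc 1 6 (.lc 3 12 (.lc 4 13 .stop))))))
 (.lc 2 0 (.lc 2 0 (.lc 3 6 (.conf [96,182] (.lc 2 0 (.lc 2 0 (.lc 2 0 (.lc 2 0 (.lc 2 0 (.lc 2 0 (.lc 3 6 (.lc 3 6 (.lc 3 0 (.lc 4 6 (.lc 3 0 (.lc 3 0 (.lc 3 0 (.lc 3 0 (.lc 3 0 (.lc 3 0 (.lc 4 0 .stop)))))))))))))))))))))))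
 (.lc 3 1 (.lc 3 11 (.lc 1 7 (.lc 3 11 (.lc 4 12 .stop))))))
 (.lc 2 6 (.lc 2 6 (.lc 3 5 (.conf [118,167] (.lc 2 6 (.lc 2 6 (.lc 2 6 (.lc 2 6 (.lc 2 6 (.lc 2 6 (.lc 3 5 (.lc 3 5 (.lc 3 6 (.lc 4 5 (.lc 3 6 (.lc 3 6 (.lc 3 6 (.lc 3 6 (.lc 3 6 (.lc 3 6 (.lc 4 6 .stop)))))))))))))))))))))))
 (.lc 3 10 (.lc 3 1 (.lc 1 8 (.lc 3 10 (.lc 4 11 .stop))))))
 (.lc 2 7 (.lc 2 7 (.lc 0 1 (.lc 3 3 (.conf [135,152] (.lc 2 7 (.lc 2 7 (.lc 0 1 (.lc 3 3 (.lc 0 9 (.lc 3 7 (.lc 0 10 (.lc 0 10 (.lc 0 10 (.lc 0 1 (.lc 4 3 (.lc 0 11 .stop)))))))))))))))))))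
 .stop))))))))))))))))))
 (.far [4112,1,257] 4096 (.asm [] 0 (.conf [50,80] (.node [96,54] 3 6 (.far [4112,4096,1,257] 4096 (.node [55,96] 3 7 (.far [4112,4112,4096,1,257] 4096 (.lc 2 6 (.far [4112,4112,4096,1,257] 4096 (.lc 2 6 (.lc 3 6 .stop)))))
 (.conf [87,96,118] (.conf [56,96] (.conf [50,87,118] (.far [4112,4096,1,257] 4096 (.conf [56,135] (.node [96,118,50,87,69] 7 6 (.far [1,4112,4112,1,257] 4096 (.lc 3 1 (.lc 0 5 (.lc 3 8 (.conf [20,113] (.node [120,128] 5 7 (.lc 1 8 (.lc 0 7 (.lc 1 8 (.lc 0 8 (.conf [89,152] (.lc 3 1 (.lc 3 10 (.lc 0 9 (.lc 2 8 (.lc 1 0 (.lc 0 8 (.lc 1 0 (.lc 3 1 (.lc 3 9 (.lc 3 9 (.lc 3 10 (.lc 0 9 (.lc 2 0 (.lc 4 11 (.lc 4 10 (.lc 4 9 (.lc 4 10 (.lc 4 1 (.lc 4 10 (.lc 5 11 .stop)))))))))))))))))))))))))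
 (.lc 3 1 (.lc 3 8 (.lc 1 0 (.lc 4 8 (.lc 4 9 .stop)))))))))))
 (.conf [56,96] (.conf [50,96] (.node [50,87,96,69] 4 5 (.node [64,87] 0 5 .stop
 (.lc 2 1 (.node [72,87] 5 7 (.far [4112,1,4112,4096,257,257] 4096 (.lc 0 0 (.lc 0 1 (.lc 0 9 (.lc 0 9 (.node [118,151] 7 6 (.node [96,113] 1 6 (.far [257,1,0,0,1,0,1,257] 16 .stop)
 (.node [96,122] 9 7 (.far [16,257,257,16,258,0,4096] 0 (.lc 3 0 (.lc 3 1 (.lc 3 11 (.lc 1 6 (.lc 3 11 (.lc 4 1 (.lc 4 12 .stop))))))))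
 (.lc 2 0 (.lc 2 0 (.lc 3 5 (.conf [96,166] (.lc 2 0 (.lc 2 0 (.lc 2 0 (.lc 3 5 (.lc 3 5 (.lc 3 0 (.lc 3 0 (.lc 4 5 (.lc 3 0 (.lc 3 0 (.lc 3 0 (.lc 3 0 (.lc 3 0 (.lc 3 0 (.lc 4 0 (.lc 4 0 .stop))))))))))))))))))))))
 (.lc 0 1 (.lc 0 10 .stop))))))))
 (.lc 3 1 (.lc 2 3 (.lc 3 0 (.lc 3 9 (.lc 0 0 (.lc 3 1 (.conf [87,133] (.lc 2 3 (.lc 3 1 (.lc 2 3 (.lc 3 0 (.lc 3 8 (.lc 3 8 (.lc 3 9 (.lc 0 0 (.lc 4 1 (.lc 3 3 (.lc 4 10 (.lc 4 9 (.lc 4 8 (.lc 4 9 (.lc 4 0 (.lc 4 9 (.lc 5 10 .stop)))))))))))))))))))))))))))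
 (.conf [88,96,118,135] (.conf [57,96] (.conf [50,96,118] (.conf [50,96] (.conf [50,96] (.conf [50,96] (.conf [50,96] .stop))))))))))))))))))
 (.conf [32,50] (.node [32,118,55] 6 2 (.node [] 3 7 (.node [48,118] 3 0 .stop
 (.far [4112,1,4096,1,257] 4096 (.node [56,118] 3 8 (.far [4112,4112,1,4096,1,257] 4096 (.lc 2 7 (.lc 2 7 (.far [4112,4112,1,4096,1,257] 4096 (.lc 2 7 (.lc 3 7 .stop))))))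
 (.conf [80,118,50] (.conf [56,118] (.conf [88,118,135] (.conf [57,118] (.conf [50,88,135] (.far [4112,1,4096,1,257] 4096 (.conf [57,152] (.conf [48,118] (.node [118,135,96,50,88,69] 7 6 (.conf [96,134] (.lc 2 0 (.lc 1 5 (.lc 2 0 (.lc 2 0 (.lc 0 9 (.lc 2 0 (.lc 2 6 (.lc 3 0 .stop)))))))))
 (.conf [57,118] (.conf [50,118] (.conf [50,118] (.node [50,80,118,69] 5 0 (.node [81] 4 5 (.lc 2 1 .stop)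
 (.lc 1 0 (.conf [88,129] .stop)))
 (.node [50,88,118,69] 7 6 (.lc 1 0 (.node [96,113] 7 1 (.lc 0 4 .stop)
 (.node [96,116] 7 4 .stop
 (.node [96,121] 8 7 (.far [1,4112,1,0,272,1,257] 4096 (.lc 3 0 (.lc 3 1 (.lc 3 4 (.lc 3 10 (.lc 1 6 (.lc 3 10 (.lc 4 1 (.lc 4 4 (.lc 4 11 .stop))))))))))
 (.conf [69,116] (.conf [121,145] (.conf [121,148] (.conf [122,169] (.lc 2 0 (.lc 3 3 (.lc 2 0 (.lc 2 0 (.conf [69,116] (.conf [96,150] (.conf [22,96] (.node [96,113,150] 7 1 (.lc 0 4 .stop)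
 (.node [96,116,150] 7 4 .stop
 (.node [96,122,150] 9 6 (.node [144] 8 7 (.far [1,1,4112,1,4112,272,1,257] 4096 (.lc 3 1 (.lc 3 4 (.lc 3 11 (.lc 1 9 (.lc 3 11 (.lc 4 4 (.lc 4 12 .stop))))))))
 (.lc 3 1 (.lc 3 4 (.lc 3 8 (.lc 3 11 (.node [145] 9 1 (.node [148] 9 4 (.node [164] 4 5 (.far [257,16,4096,0,0,0,0,0,257,1] 4096 (.lc 2 3 (.lc 0 11 (.lc 2 3 (.lc 3 3 .stop)))))
 (.lc 2 1 (.far [4112,4096,0,1,0,0,1,0,4096] 0 (.far [4112,4096,0,1,0,0,1,0,4096] 0 (.lc 3 1 .stop)))))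
 (.lc 3 1 (.conf [132,152] (.conf [155,180] (.lc 3 1 (.lc 4 1 (.lc 4 1 .stop)))))))
 (.conf [128,152] (.conf [155,176] (.lc 3 1 (.lc 3 8 (.lc 3 11 (.lc 1 0 (.lc 4 8 (.lc 4 11 (.lc 4 11 (.lc 4 8 (.lc 4 12 .stop)))))))))))))))))
 (.lc 3 3 (.lc 3 3 (.lc 3 3 (.lc 2 0 (.lc 3 3 (.lc 3 3 (.lc 3 3 (.conf [22,96] (.conf [69,116] (.conf [123,186] (.lc 3 0 (.lc 3 0 (.lc 4 3 (.lc 4 3 (.lc 4 3 (.lc 4 3 (.lc 4 3 (.lc 4 3 (.lc 4 3 (.lc 4 3 (.lc 4 3 (.lc 4 3 (.lc 4 3 (.lc 4 3 (.lc 5 3 (.lc 5 3 (.lc 5 3 .stop)))))))))))))))))))))))))))))))))))))))))))))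
 (.conf [89,118,135,152] (.conf [58,118] (.conf [50,118,135] (.conf [50,118] (.conf [50,118] (.conf [50,118] (.conf [50,118] (.conf [50,118] (.conf [50,118] .stop))))))))))))))))))))))))))
 (.lc 3 5 (.lc 3 8 (.node [80,83,55] 6 5 .stop
 (.node [128] 3 7 (.node [50,118,87,69] 7 6 (.node [104,113,50,69] 7 1 .stop
 (.node [69,104,116,50] 7 4 (.lc 0 3 .stop)
 (.lc 1 2 (.node [104,121,50,69] 5 7 (.far [1,4112,4096,0,16,1,257] 4096 (.lc 3 1 (.lc 3 8 (.lc 3 10 (.lc 0 9 (.lc 1 6 (.lc 3 10 (.lc 4 11 .stop))))))))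
 (.lc 0 5 (.lc 2 8 (.lc 2 8 (.lc 2 8 (.lc 1 6 (.lc 2 2 (.conf [104,150] (.lc 0 5 (.lc 2 2 (.conf [104,150] (.lc 2 8 (.lc 2 8 (.lc 2 8 (.lc 2 8 (.lc 2 8 (.lc 0 3 (.lc 2 8 (.lc 0 1 (.lc 0 8 (.lc 0 9 (.lc 1 5 (.lc 0 5 (.lc 3 8 (.lc 0 9 (.lc 0 10 (.lc 0 9 (.lc 0 10 (.lc 0 1 (.lc 0 10 (.lc 1 9 (.lc 3 8 (.lc 0 11 .stop))))))))))))))))))))))))))))))))))))
 (.node [56,128,135,118] 3 8 .stop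
 (.node [57,118] 3 9 (.node [151] 7 6 (.node [104,113] 7 1 (.lc 0 4 .stop)
 (.node [69,104,116] 7 4 .stop
 (.node [89,104,117] 7 5 (.lc 0 3 .stop)
 (.lc 1 2 (.node [104,122] 9 7 (.far [1,4112,4112,4096,0,16,1,257] 4096 (.lc 3 1 (.lc 3 4 (.lc 3 8 (.lc 3 11 (.lc 3 3 (.lc 1 6 (.lc 3 11 (.lc 4 4 (.lc 4 12 .stop))))))))))
 (.lc 2 8 (.lc 2 8 (.lc 2 8 (.lc 2 8 (.lc 2 8 (.lc 2 8 (.lc 0 3 (.lc 2 2 (.conf [104,166] (.conf [69,116] (.conf [70,104] (.lc 2 2 (.conf [104,166] (.lc 2 8 (.lc 2 8 (.lc 2 8 (.lc 2 8 (.lc 2 8 (.lc 2 8 (.lc 2 8 (.lc 2 8 (.lc 2 8 (.lc 2 8 (.lc 0 1 (.lc 0 4 (.lc 2 2 (.lc 0 10 (.lc 3 8 (.lc 3 8 (.lc 3 8 (.lc 3 8 (.lc 3 8 (.lc 0 4 (.lc 3 2 (.lc 0 11 (.lc 3 8 (.lc 3 8 (.lc 3 8 (.lc 3 8 (.lc 3 8 (.lc 3 8 (.lc 3 8 (.lc 3 8 (.lc 3 8 (.lc 3 8 (.lc 3 8 (.lc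 4 8 (.lc 4 8 (.lc 4 8 .stop))))))))))))))))))))))))))))))))))))))))))))))))))))))
 (.lc 2 7 (.lc 2 7 (.node [90,169,69,50] 7 6 (.node [104,113] 7 1 (.lc 0 4 .stop)
 (.node [104,116] 7 4 .stop
 (.lc 1 2 (.node [104,122,169,90] 7 10 (.lc 0 3 .stop)
 (.node [104,123] 9 7 (.far [1,4112,4112,4096,0,16,1,257] 4096 (.lc 3 1 (.lc 3 4 (.lc 3 8 (.lc 3 12 (.lc 3 3 (.lc 1 6 (.lc 3 12 (.lc 4 4 (.lc 4 13 .stop))))))))))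
 (.lc 2 8 (.lc 2 8 (.lc 2 8 (.lc 2 8 (.lc 2 8 (.lc 2 8 (.lc 2 2 (.lc 0 3 (.conf [104,182] (.conf [69,116] (.lc 2 2 (.conf [104,182] (.lc 2 8 (.lc 1 6 (.lc 2 8 (.lc 2 8 (.lc 2 8 (.lc 2 8 (.lc 2 8 (.lc 2 8 (.lc 2 8 (.lc 2 8 (.lc 0 1 (.lc 0 4 (.lc 2 2 (.lc 0 11 (.lc 3 8 (.lc 2 6 (.lc 3 8 (.lc 3 8 (.lc 0 4 (.lc 3 2 (.lc 0 12 (.lc 3 8 (.lc 3 8 (.lc 3 8 (.lc 3 8 (.lc 3 8 (.lc 3 8 (.lc 3 8 (.lc 3 8 (.lc 3 8 (.lc 3 8 (.lc 3 8 (.lc 4 8 (.lc 4 8 (.lc 4 8 .stop))))))))))))))))))))))))))))))))))))))))))))))))))))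
 (.lc 2 7 (.lc 3 7 .stop))))))
 (.conf [50,88,135] (.conf [57,118] (.conf [89,118,151] (.conf [58,118] (.conf [50,89,151] (.node [50,89,69,50,118,104,128] 7 6 (.lc 2 1 (.lc 0 5 (.lc 1 2 (.lc 2 10 (.lc 0 5 (.lc 2 8 (.lc 1 5 (.lc 2 8 (.lc 2 2 (.conf [104,166] (.lc 0 5 (.lc 2 2 (.lc 3 11 (.lc 2 8 (.lc 2 8 (.lc 0 5 (.lc 2 8 (.lc 2 8 (.lc 1 5 (.lc 2 8 (.lc 0 1 (.lc 1 5 (.lc 2 2 (.lc 0 10 (.lc 1 5 (.lc 0 5 (.lc 3 8 (.lc 1 5 (.lc 3 2 (.lc 0 11 (.lc 1 5 (.lc 3 8 (.lc 2 5 (.lc 3 8 (.lc 3 8 (.lc 3 8 (.lc 1 5 (.lc 3 8 (.lc 1 5 (.lc 3 8 (.lc 2 5 (.lc 1 5 (.lc 4 8 .stop)))))))))))))))))))))))))))))))))))))))))))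
 (.conf [58,169] (.conf [48,118] (.node [118,151,104,128,50,89,69] 7 6 (.conf [104,150] (.lc 2 8 (.lc 1 5 (.lc 2 8 (.lc 2 2 (.lc 0 10 (.lc 2 8 (.lc 2 6 (.lc 3 8 .stop)))))))))
 (.conf [56,118] (.conf [58,118] (.conf [50,118] (.conf [50,118] (.node [50,88,118,128,69] 8 7 .stop
 (.node [50,89,118,69] 7 6 (.node [104,113] 7 1 (.lc 0 4 .stop)
 (.node [104,116] 7 4 .stop
 (.lc 1 2 (.node [104,122] 9 7 (.far [1,4112,1,0,272,1,257] 4096 (.lc 3 1 (.lc 3 4 (.lc 3 8 (.lc 3 11 (.lc 1 6 (.lc 3 11 (.lc 4 4 (.lc 4 12 .stop)))))))))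
 (.lc 2 8 (.lc 2 8 (.lc 2 8 (.lc 2 8 (.lc 2 2 (.lc 3 3 (.conf [69,116] (.lc 2 2 (.conf [104,166] (.lc 2 8 (.lc 2 8 (.lc 2 8 (.lc 2 8 (.lc 2 8 (.lc 2 8 (.lc 2 8 (.lc 3 3 (.lc 3 3 (.lc 2 2 (.lc 3 3 (.lc 3 8 (.lc 3 8 (.lc 3 8 (.lc 4 3 (.lc 3 2 (.lc 4 3 (.lc 3 8 (.lc 3 8 (.lc 3 8 (.lc 3 8 (.lc 3 8 (.lc 3 8 (.lc 3 8 (.lc 3 8 (.lc 3 8 (.lc 3 8 (.lc 4 8 (.lc 4 8 (.lc 4 8 .stop)))))))))))))))))))))))))))))))))))))))))))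
 (.conf [90,118,151,169] (.conf [59,118] (.conf [50,118,151] (.conf [50,118] (.conf [50,118] (.conf [1,80] (.conf [50,118] (.conf [50,118] (.conf [50,118] (.conf [50,118] .stop))))))))))))))))))))))))))))
 (.lc 3 5 (.lc 3 8 (.lc 4 8 (.lc 4 5 (.lc 4 9 .stop))))))))))
 (.node [54,96] 3 6 (.far [4112,4096,1,257] 4096 (.lc 0 7 (.lc 0 7 (.node [96,118] 7 6 (.node [96,113] 1 6 (.far [1,1,4112,8208,1,257] 4096 .stop)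
 (.node [69,96,116] 4 6 (.lc 0 0 .stop)
 (.node [96,120] 6 0 (.far [4112,1,4112,8208,1,257] 4096 (.lc 0 1 (.lc 0 1 (.lc 0 9 (.far [257,16,257,513,16,4112] 1 (.lc 0 4 (.lc 0 9 .stop)))))))
 (.lc 2 0 (.lc 2 0 (.lc 3 4 (.lc 3 1 (.lc 3 4 (.lc 3 9 (.conf [69,116] (.conf [96,134] (.lc 2 0 (.lc 2 0 (.lc 2 0 (.lc 2 0 (.lc 3 4 (.lc 3 8 (.lc 3 8 (.lc 3 9 (.lc 3 0 (.lc 3 0 (.lc 4 8 (.lc 4 4 (.lc 4 10 (.lc 3 0 (.lc 3 0 (.lc 3 0 (.lc 1 0 (.lc 3 0 (.lc 3 0 (.lc 3 0 (.lc 4 0 (.lc 4 0 .stop)))))))))))))))))))))))))))))))))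
 (.lc 0 8 .stop)))))
 (.conf [55,98,118] (.conf [50,80] (.node [96,54] 3 6 (.far [4112,4112,1,257] 4096 (.node [55,96] 3 7 (.far [4112,4112,4112,1,257] 4096 (.lc 2 6 (.far [8224,8224,8208,2,257] 4096 (.lc 2 6 (.lc 3 6 .stop)))))
 (.conf [87,96,118] (.conf [56,96] (.conf [50,87,118] (.far [8224,8208,2,257] 4096 (.conf [56,135] (.node [96,118,50,87,69] 7 6 (.conf [1,112] (.lc 3 1 (.conf [20,113] (.lc 3 1 (.lc 3 8 (.lc 1 0 (.lc 4 8 .stop)))))))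
 (.conf [56,96] (.conf [50,96] (.node [50,87,96,69] 4 5 (.lc 2 1 (.node [72,87] 5 7 (.far [4112,1,4112,4112,257,257] 4096 (.lc 0 1 (.lc 0 9 (.lc 0 9 (.node [118,151] 7 6 (.node [96,113] 1 6 (.far [257,1,0,0,1,0,1,257] 16 .stop)
 (.node [96,122] 9 7 (.far [16,257,257,16,258,0,4096] 0 (.lc 3 1 (.lc 3 11 (.lc 1 6 (.lc 3 11 (.lc 4 12 .stop))))))
 (.lc 2 0 (.lc 2 0 (.lc 3 5 (.conf [96,166] (.lc 2 0 (.lc 2 0 (.lc 3 5 (.lc 3 5 (.lc 3 0 (.lc 4 5 (.lc 3 0 (.lc 3 0 (.lc 3 0 (.lc 3 0 (.lc 4 0 .stop)))))))))))))))))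
 (.lc 0 10 .stop))))))
 (.lc 3 1 (.lc 2 3 (.lc 3 9 (.lc 3 1 (.conf [87,133] (.lc 3 1 (.lc 2 3 (.lc 3 8 (.lc 3 9 (.lc 4 1 (.lc 3 3 (.lc 4 10 (.lc 4 9 (.lc 4 9 (.lc 4 9 (.lc 5 10 .stop))))))))))))))))))
 (.conf [88,96,118,135] (.conf [57,96] (.conf [50,96,118] (.conf [50,96] (.conf [50,96] (.conf [50,96] (.conf [50,96] .stop))))))))))))))))))
 (.conf [50,86] (.node [98,118,32,55] 3 7 (.node [48,118,98] 3 0 (.far [4112,4112,4112,1,257] 4096 (.far [4112,4112,4112,1,257] 4096 .stop))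
 (.far [4112,4112,1,257] 4096 (.node [56,118,98] 3 8 (.far [4112,4112,4112,1,257] 4096 (.lc 2 7 (.lc 2 7 (.far [4112,4112,4112,1,257] 4096 (.far [4112,4112,4112,1,257] 4096 (.lc 2 7 (.lc 2 7 (.lc 3 7 (.lc 3 7 (.lc 3 7 .stop))))))))))
 (.conf [50,80] (.conf [56,118] (.conf [48,118] (.conf [50,88] (.conf [57,118] (.node [50,80,118,69,98] 0 7 .stop
 (.conf [50,88,135] (.conf [50,80] (.conf [56,128] (.node [48,118,135,118,98] 3 0 .stop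
 (.conf [50,88] (.conf [57,152] (.node [50,118,69,98] 0 7 .stop
 (.conf [56,118] (.conf [48,118] (.node [50,118,135,98,88,69] 8 7 (.far [1,4112,4112,1,257] 4096 (.lc 1 2 (.lc 1 2 (.lc 0 5 (.lc 1 2 (.lc 1 2 (.lc 1 2 (.lc 3 0 (.lc 3 9 (.lc 2 2 (.lc 2 2 (.lc 1 6 (.lc 2 2 (.lc 2 2 .stop))))))))))))))
 (.conf [57,118] (.conf [50,118] (.conf [50,118] (.node [50,80,118,69,98] 5 0 (.node [81] 4 5 (.lc 2 1 .stop)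
 (.node [86,96] 5 6 .stop
 (.node [88] 0 7 (.far [257,16,4096] 0 (.lc 2 0 (.conf [118,151] (.lc 1 2 (.lc 2 2 .stop)))))
 (.conf [88,129] (.lc 1 0 (.lc 3 0 (.conf [88,129] (.conf [89,152] (.node [86,97] 5 6 .stop
 (.node [88] 4 5 (.far [1,4112,4112,4112,257,257] 16 (.lc 3 6 (.lc 3 9 (.lc 1 1 (.lc 3 9 (.lc 4 10 .stop))))))
 (.lc 1 0 (.lc 0 6 (.lc 0 8 (.conf [89,152] (.lc 0 9 .stop)))))))))))))))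
 (.node [50,88,118,69,98] 7 6 (.node [98,112] 7 0 (.far [4112,4112,1,272,1,257] 4096 (.lc 0 1 (.lc 0 1 (.lc 0 9 (.far [4112,4112,1,272,1,257] 16 (.lc 2 0 (.lc 0 9 .stop)))))))
 (.node [98,113] 7 1 (.lc 0 4 .stop)
 (.node [98,116] 7 4 .stop
 (.node [98,121] 8 7 (.far [1,4112,1,272,1,257] 4096 (.lc 3 0 (.lc 3 1 (.lc 3 4 (.lc 3 10 (.lc 1 6 (.lc 1 6 (.lc 3 0 (.lc 3 10 (.lc 4 1 (.lc 4 10 (.lc 4 4 (.lc 4 0 (.lc 4 11 .stop))))))))))))))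
 (.lc 2 2 (.lc 2 2 (.lc 2 2 (.lc 2 2 (.lc 2 2 (.lc 2 2 (.lc 2 2 (.lc 2 2 (.lc 3 3 (.lc 3 3 (.node [98,113] 7 1 (.lc 0 4 .stop)
 (.conf [121,144] (.conf [69,116] (.conf [98,150] (.conf [98,150] (.lc 2 2 (.lc 2 2 (.lc 2 2 (.lc 2 2 (.lc 2 2 (.lc 2 2 (.lc 2 2 (.lc 2 2 (.lc 2 2 (.lc 2 2 (.lc 2 2 (.lc 2 2 (.lc 3 3 (.lc 3 3 (.lc 3 3 (.lc 3 3 (.lc 1 0 (.lc 3 2 (.lc 3 2 (.lc 3 2 (.lc 3 2 (.lc 3 2 (.lc 3 2 (.lc 3 2 (.lc 3 2 (.lc 4 3 (.lc 4 3 (.lc 4 3 (.lc 4 3 (.lc 4 3 (.lc 3 2 (.lc 3 2 (.lc 3 2 (.lc 3 2 (.lc 3 2 (.lc 3 2 (.lc 3 2 (.lc 3 2 (.lc 3 2 (.lc 3 2 (.lc 3 2 (.lc 3 2 (.lc 3 2 (.lc 3 2 (.lc 3 2 (.lc 3 2 (.lc 3 2 (.lc 3 2 (.lc 3 2 (.lc 3 2 (.lc 3 2 (.lc 2 0 (.lc 4 2 (.lc 4 2 (.lc 4 2 (.lc 4 2 (.lc 4 2 (.lc 4 2 (.lc 4 2 (.lc 4 2 .stop)))))))))))))))))))))))))))))))))))))))))))))))))))))))))))))))))))))))))))))))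
 (.conf [50,88] (.conf [57,118] (.conf [50,80] (.conf [57,118] (.conf [48,118] (.conf [50,89] (.conf [58,118] (.node [50,88,118,128,69,98] 0 7 .stop
 (.conf [50,118,135] (.conf [50,118,135] (.conf [50,118] (.conf [50,118] (.conf [50,118] (.conf [50,118] (.conf [50,118] (.conf [50,118] (.conf [50,118] (.conf [50,118] (.conf [50,118] (.conf [50,118] (.conf [50,118] (.conf [50,118] (.conf [50,118] .stop)))))))))))))))))))))))))))))))))))))))))))))))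
 (.far [4112,1,257] 4096 (.node [] 3 6 (.far [4112,4112,1,257] 4096 (.node [55] 5 3 (.far [1,4112,4112,1,257] 4096 (.conf [88,118,50] (.node [118,135,96,50] 8 7 (.node [118,129] 1 7 .stop
 (.node [69,118,132] 4 7 (.lc 1 0 .stop)
 (.node [118,137] 7 6 (.node [96] 5 8 (.node [81,137] 1 8 .stop
 (.lc 2 3 (.node [90,137] 8 9 (.node [150] 5 10 (.node [81,169] 5 1 (.lc 0 1 .stop)
 (.far [4112,0,4112,0,0,4112,0,0,256] 0 (.lc 1 5 (.node [91,169] 4 5 (.far [1,4112,0,4112,0,0,4112,0,0,256] 0 (.conf [76,83,186] (.lc 3 1 (.node [186,203,76,83] 11 10 (.node [169,177,203] 11 1 .stop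
 (.lc 1 5 (.node [169,189,203] 12 11 (.node [205] 10 9 (.node [150] 13 9 (.node [96] 13 6 .stop
 .stop)
 (.conf [150,165,214] (.far [4112,0,1,0,1,256,256] 0 .stop)))
 (.lc 3 1 (.lc 3 14 (.lc 1 10 (.lc 3 14 (.lc 4 15 .stop))))))
 (.lc 2 5 (.conf [181,205] (.conf [190,237] (.lc 2 5 (.lc 2 5 (.node [181,193,169] 1 10 .stop
 (.lc 2 5 (.node [181,205,169] 4 12 (.node [77] 13 10 (.far [1,0,1,0,1,256,256] 0 (.lc 3 6 (.lc 3 14 .stop)))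
 (.lc 3 1 (.lc 3 1 (.lc 1 10 (.lc 3 1 (.lc 4 1 .stop))))))
 (.conf [181,218,169] (.lc 3 5 (.lc 3 5 .stop))))))))))))))
 (.far [1,4112,0,4112,0,0,4112,0,0,256] 0 (.conf [77,83,186] .stop))))))
 (.lc 2 9 (.lc 2 9 (.lc 2 9 (.lc 2 9 (.lc 0 1 (.lc 3 3 (.far [4112,0,4112,0,0,4112,0,0,256] 0 (.node [169,186,203,92,69] 4 5 (.far [1,4112,0,4112,0,0,4112,0,0,256] 0 (.lc 3 13 (.lc 3 1 (.lc 1 11 (.lc 3 13 (.lc 4 14 .stop))))))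
 (.lc 0 1 (.lc 2 9 (.lc 2 9 (.lc 2 9 (.lc 0 1 (.lc 3 3 (.lc 3 3 (.lc 3 3 (.lc 3 9 (.lc 3 9 (.lc 4 3 (.lc 4 3 (.lc 4 3 (.lc 0 1 (.lc 4 3 (.lc 5 3 .stop))))))))))))))))))))))))))))
 (.lc 2 6 (.lc 2 6 (.lc 2 6 (.lc 0 11 (.lc 2 6 (.lc 3 6 (.lc 3 6 .stop))))))))
 (.lc 3 3 (.lc 2 5 (.conf [137,168] (.conf [137,168] (.lc 3 3 (.conf [137,168] (.lc 2 5 (.lc 3 3 (.lc 2 5 (.lc 2 5 (.lc 2 5 (.lc 2 5 (.far [4112,257,16,4112,1,257,16,4112] 1 (.node [90,137,161,69] 1 8 .stop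
 (.node [91,137,186,69] 5 11 (.node [186] 8 9 (.far [4112,0,1,4112,4096,256,256] 0 (.lc 2 6 (.lc 2 6 (.lc 0 12 (.lc 2 6 (.lc 3 6 .stop))))))
 (.lc 0 9 (.lc 0 12 (.lc 0 12 (.lc 0 1 (.lc 2 10 (.lc 0 13 .stop)))))))
 (.lc 4 3 (.lc 3 5 (.conf [137,168] (.lc 3 5 (.lc 3 5 (.lc 3 5 (.lc 3 5 (.lc 3 5 (.lc 3 5 (.lc 4 5 .stop))))))))))))))))))))))))))))
 (.lc 2 0 (.lc 2 0 (.lc 2 0 (.lc 0 10 (.lc 2 0 (.lc 3 0 (.lc 3 0 .stop))))))))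
 (.conf [115,137] (.conf [118,132] (.conf [118,129] (.conf [118,132] (.conf [118,138] (.conf [69,132] (.conf [118,151] (.lc 1 0 (.lc 1 0 (.lc 1 0 (.lc 1 0 (.node [115,129,88,96] 8 1 .stop
 (.node [69,115,132,70] 8 4 (.lc 0 3 .stop)
 (.node [115,137,88,96] 5 8 (.node [89] 9 6 (.lc 1 0 (.node [96,145] 1 6 (.far [1,1,0,257,0,1,256] 17 .stop)
 (.node [69,70] 4 6 (.lc 0 0 .stop)
 (.lc 2 5 (.node [96,154] 6 0 (.far [4112,1,0,257,0,1,256] 17 (.far [4096,1,1,1,257,0,0,1,257] 16 (.far [4112,1,0,257,0,1,256] 17 (.far [4112,1,0,257,0,1,256] 17 (.node [] 1 4 (.node [] 5 9 (.lc 2 3 (.lc 1 5 (.node [91,154] 9 10 (.far [257,16,0,0,257,4096,1] 0 (.conf [161,180,69] (.node [188,202,164] 10 4 (.far [4112,4096,1,256,16,0,256,256,0,1,256] 17 (.lc 0 13 .stop))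
 .stop)))
 (.lc 3 3 (.lc 2 5 (.lc 3 3 (.lc 3 3 (.lc 3 3 (.node [92,185,203,92,154,69,164] 9 10 (.far [257,16,0,0,257,4096,1] 0 (.lc 2 1 (.lc 0 13 .stop)))
 (.lc 3 3 (.lc 3 3 (.lc 3 3 .stop))))))))))))
 (.conf [69,171,180] (.far [4112,1,0,0,0,0,0,1,0,4096] 0 (.far [257,16,0,0,0,0,0,16,0,256] 0 (.conf [69,172,16] .stop)))))
 (.conf [16,69] (.far [4112,1,1,1,257,0,16,1,257] 16 .stop)))))))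
 (.lc 2 0 (.lc 2 0 (.lc 2 0 (.lc 3 4 (.lc 3 1 (.lc 3 4 (.lc 3 11 (.lc 2 0 (.node [22,69] 1 6 (.node [] 9 4 (.lc 0 3 .stop)
 .stop)
 (.lc 0 3 (.node [96,166,186,96] 10 6 (.node [160] 5 9 (.node [81,155] 1 9 .stop
 (.lc 2 3 (.lc 1 5 (.node [92,155] 9 11 (.far [4112,1,1,4096,256,256,0,1,256] 17 (.lc 2 10 (.lc 2 10 (.lc 2 10 (.lc 0 13 (.lc 2 10 (.lc 3 10 (.lc 3 10 .stop))))))))
 (.lc 3 3 (.lc 2 5 (.lc 0 1 (.lc 3 3 (.lc 3 3 (.lc 3 3 (.lc 2 5 (.lc 3 3 (.conf [155,201] (.lc 2 5 (.lc 3 3 (.lc 2 5 (.lc 3 3 (.lc 3 3 (.lc 3 3 (.lc 4 3 (.lc 3 5 (.lc 4 3 (.lc 4 3 (.lc 4 3 (.lc 4 3 (.lc 0 1 (.lc 4 3 (.lc 5 3 .stop))))))))))))))))))))))))))))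
 (.lc 3 1 (.node [161] 10 1 (.node [164,186] 10 4 (.node [69,180] 11 4 (.far [16,256,0,0,16,16,16,4112,0,0,256] 0 (.lc 1 3 (.lc 1 3 .stop)))
 (.lc 2 1 (.lc 0 12 .stop)))
 (.conf [69,180] (.conf [172,196] (.far [1,256,0,0,0,0,0,1,0,4096] 0 (.conf [69,188,196] .stop)))))
 (.lc 3 1 (.lc 3 12 (.lc 4 4 (.lc 4 12 .stop)))))))
 (.lc 2 0 (.lc 2 0 (.lc 2 0 (.lc 2 0 (.lc 2 0 (.lc 2 0 (.lc 3 4 (.lc 3 10 (.lc 3 10 (.lc 3 11 (.lc 3 0 (.lc 3 0 (.lc 3 0 (.lc 3 0 (.lc 4 10 (.lc 4 4 (.lc 4 12 (.lc 3 0 (.lc 3 0 (.lc 3 0 (.lc 1 0 (.lc 3 0 (.lc 3 0 (.lc 3 0 (.lc 4 0 (.lc 4 0 .stop))))))))))))))))))))))))))))))))))))))))))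
 (.lc 3 1 (.lc 3 10 (.lc 3 3 (.lc 1 6 (.lc 3 10 (.lc 4 11 .stop)))))))
 (.conf [118,129] (.conf [69,132] (.conf [118,137] (.conf [118,137] (.conf [118,138] (.lc 2 0 (.lc 2 0 (.conf [118,137] (.conf [69,132] (.conf [118,139] (.lc 2 0 (.conf [69,132] (.conf [115,150,96] (.lc 2 0 (.lc 2 0 (.lc 2 0 (.lc 2 0 (.lc 2 0 (.lc 2 0 (.lc 2 0 (.lc 2 0 (.lc 3 0 (.lc 3 0 (.lc 3 0 .stop)))))))))))))))))))))))))))))))))))))))))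
 (.far [1,4112,4112,1,257] 4096 (.conf [89,118,50] .stop)))))
 (.node [87,96,50,87,96,69] 4 5 (.lc 2 1 (.lc 1 7 (.lc 3 1 (.node [72,118] 7 6 (.lc 1 0 (.lc 1 0 (.lc 1 0 (.lc 3 1 (.conf [1,128] (.lc 3 9 (.lc 2 0 (.lc 2 0 (.lc 2 0 (.lc 2 0 (.lc 3 1 (.lc 3 1 (.lc 3 9 (.lc 2 0 (.lc 2 0 (.conf [20,129] (.lc 4 9 (.lc 3 0 (.lc 4 9 (.lc 4 10 (.lc 4 9 (.lc 4 9 (.lc 5 10 .stop)))))))))))))))))))))))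
 (.lc 3 9 (.lc 3 1 (.lc 2 7 (.lc 3 1 (.lc 1 6 (.lc 3 8 (.lc 3 9 (.lc 4 1 (.lc 2 6 (.lc 4 10 (.lc 4 9 (.lc 4 9 (.lc 4 9 (.lc 5 10 .stop))))))))))))))))))
 (.conf [96,135,56] (.conf [50,87,118] (.far [4112,4112,1,257] 4096 (.node [56,135,56,118] 3 8 (.far [4112,4112,4112,1,257] 4096 (.lc 0 9 (.lc 0 9 (.lc 2 7 (.lc 0 10 .stop)))))
 (.node [96,118,50,69] 7 6 (.node [96,113,50,69] 1 6 (.far [4112,16,257,257,16,4112] 1 .stop)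
 (.node [69,96,116,50] 4 6 (.lc 0 0 .stop)
 (.node [96,120,50,69] 6 0 (.node [128] 5 7 (.node [81,120] 1 7 .stop
 (.lc 2 3 (.node [89,120] 7 8 (.far [4112,1,4112,4096,1,256] 17 (.lc 2 0 (.lc 2 0 (.lc 2 0 (.lc 0 10 (.lc 2 0 (.lc 1 5 (.lc 3 0 .stop))))))))
 (.lc 0 8 (.lc 2 5 (.conf [120,151] (.conf [120,151] (.lc 0 9 (.conf [120,151] (.lc 2 5 (.lc 3 3 (.lc 2 5 (.lc 2 5 (.lc 2 5 (.node [89,120,145,69] 1 7 .stop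
 (.node [90,120,169,69] 5 10 (.node [169,74] 7 8 (.far [4112,0,1,4112,4096,1,256] 17 (.lc 2 0 (.lc 2 0 (.lc 0 11 (.lc 2 0 (.lc 3 0 .stop))))))
 (.lc 0 8 (.lc 0 11 (.lc 0 11 (.lc 0 1 (.lc 2 9 (.lc 0 12 .stop)))))))
 (.lc 0 9 (.lc 3 5 (.conf [120,151] (.lc 3 5 (.lc 3 5 (.lc 3 5 (.lc 3 5 (.lc 3 5 (.lc 4 5 .stop)))))))))))))))))))))))))
 (.lc 0 1 (.lc 0 1 (.lc 0 9 (.far [257,16,257,258,16,4112] 1 (.lc 2 0 (.lc 0 9 .stop)))))))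
 (.conf [96,113] (.conf [96,120] (.conf [96,116] (.conf [96,113] (.conf [96,116] (.conf [96,121] (.lc 0 5 (.conf [96,134] (.conf [96,113] (.node [96,113,50,87,69] 5 7 (.conf [20,81] (.lc 3 8 .stop))
 (.conf [69,96,50,87] (.node [96,120,50,87,1,69] 5 7 (.conf [88,128] (.lc 3 1 (.lc 3 9 (.lc 0 8 (.lc 1 0 (.lc 3 9 (.lc 4 10 .stop)))))))
 (.lc 0 5 (.conf [96,120] (.conf [96,120] (.conf [96,121] (.lc 1 0 (.conf [96,120] (.lc 1 5 (.lc 0 5 (.conf [96,122] (.lc 1 0 (.conf [96,129,50,87,20,69] (.conf [96,128,1] (.lc 1 0 (.node [96,120,129,50,87,69] 5 7 (.far [1,1,4096,0,1,257] 16 (.lc 3 9 (.lc 0 8 (.lc 1 1 (.lc 3 9 (.lc 4 10 .stop))))))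
 (.lc 1 0 (.node [96,120,50,87,69,20] 5 7 (.conf [88,129] (.lc 3 9 (.lc 0 8 (.lc 1 1 (.lc 3 9 (.lc 4 10 .stop))))))
 (.lc 2 0 (.conf [96,129,50,87,20,69] .stop)))))))))))))))))))))))))))))))))
 (.node [96,118,56] 3 8 (.node [] 7 6 (.node [96,113] 1 6 (.far [4112,16,257,257,257,16,4112] 1 .stop)
 (.node [69,96,116] 4 6 (.lc 0 0 .stop)
 (.node [88,96,117] 5 6 .stop
 (.node [96,121] 6 0 (.node [144] 8 7 (.node [121,129] 1 7 .stop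
 (.node [69,121,132] 4 7 (.lc 1 0 .stop)
 (.lc 2 3 (.node [121,138] 7 9 (.far [4112,1,4112,4096,0,1,256] 17 (.lc 2 0 (.lc 2 0 (.lc 2 0 (.lc 2 0 (.lc 0 11 (.lc 2 0 (.lc 3 0 (.lc 3 0 (.lc 3 0 .stop))))))))))
 (.lc 2 6 (.lc 2 6 (.far [257,0,0,0,1,257,0,4096] 0 (.conf [121,167] (.conf [121,167] (.conf [121,167] (.conf [69,132] (.lc 3 3 (.conf [121,167] (.lc 2 6 (.lc 2 6 (.lc 2 6 (.lc 2 6 (.lc 2 6 (.lc 2 6 (.lc 2 6 (.far [257,0,0,0,1,257,0,4096] 0 (.node [121,138,161,88] 1 7 .stop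
 (.node [69,121,138,164] 4 7 (.lc 1 0 .stop)
 (.node [121,139,186,88] 8 11 (.node [186] 7 9 (.far [4112,4112,1,0,4112,1,258] 0 (.lc 2 0 (.lc 2 0 (.lc 2 0 (.lc 0 12 (.lc 2 0 (.lc 3 0 (.lc 3 0 .stop))))))))
 (.lc 0 1 (.lc 0 9 (.lc 0 12 (.lc 0 12 (.lc 0 3 (.lc 2 10 (.lc 0 13 .stop))))))))
 (.lc 3 6 (.lc 3 6 (.lc 3 6 (.node [23,69,138] 1 7 .stop
 (.conf [26,167] (.conf [121,167] (.lc 3 6 (.lc 3 6 (.lc 3 6 (.lc 3 6 (.lc 3 6 (.lc 3 6 (.lc 3 6 (.lc 3 6 (.lc 3 6 (.lc 3 6 (.lc 4 6 (.lc 4 6 (.lc 4 6 .stop)))))))))))))))))))))))))))))))))))))))))))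
 (.lc 0 1 (.lc 0 1 (.lc 0 10 (.far [257,16,257,257,258,16,4112] 1 (.lc 0 4 (.lc 0 10 .stop)))))))
 (.conf [96,113] (.conf [96,121] (.conf [96,116] (.conf [70,96] (.conf [96,113] (.conf [96,116] (.conf [96,117] (.conf [96,122] (.conf [69,116] (.conf [70,96] (.conf [96,150] (.conf [96,113] (.node [96,113,135] 8 7 (.far [1,4096,0,1,256] 17 (.lc 1 0 (.lc 1 0 (.lc 3 4 (.lc 3 9 (.lc 2 0 .stop))))))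
 (.node [69,96,116,135,1] 7 4 .stop
 (.node [88,96,117,1] 7 5 (.lc 0 3 .stop)
 (.node [96,121,135,1] 8 7 (.far [1,4096,0,1,256] 17 (.lc 3 1 (.lc 3 4 (.lc 3 10 (.lc 3 3 (.lc 1 0 (.lc 3 10 (.lc 4 4 (.lc 4 11 .stop)))))))))
 (.conf [69,116] (.conf [96,121] (.conf [88,117] (.conf [96,121] (.conf [96,121] (.conf [96,122] (.conf [16,69] (.conf [96,121] (.conf [96,121] (.conf [70,96] (.conf [69,116] (.conf [88,117] (.conf [96,123] (.conf [16,69] (.node [96,121,145,135,20,69] 8 7 (.conf [137,145] (.lc 3 4 (.lc 3 10 (.lc 3 3 (.lc 1 1 (.lc 3 10 (.lc 4 11 .stop)))))))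
 (.conf [88,117] (.conf [96,144,1] (.lc 1 0 (.node [96,121,145,135] 8 7 (.conf [137,145] (.lc 3 4 (.lc 3 10 (.lc 3 3 (.lc 1 1 (.lc 3 10 (.lc 4 11 .stop)))))))
 (.conf [16,69,116] (.node [88,96,117,81] 7 5 (.lc 0 3 .stop)
 (.node [96,121,145,135] 8 7 (.node [137,145] 9 1 (.far [1,0,257,0,0,1,0,4096] 0 (.lc 3 10 (.node [69,164] 10 4 (.far [16,16,16,16,257,256,0,256] 4097 (.lc 1 8 (.lc 1 8 (.lc 3 11 (.lc 2 8 .stop)))))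
 (.lc 1 1 (.lc 3 10 (.lc 4 11 .stop))))))
 (.lc 3 4 (.lc 3 10 (.lc 3 3 (.conf [138,169] (.lc 3 10 (.lc 4 11 .stop)))))))
 (.conf [16,69] (.node [96,122,145,169,135,20,145,69] 8 7 (.conf [138,169] (.lc 3 4 (.lc 3 11 (.lc 3 3 (.lc 1 9 (.lc 3 11 (.lc 4 12 .stop)))))))
 .stop))))))))))))))))))))))))))))))))))))))))))))
 (.lc 2 7 (.node [89,152,69,50] 7 6 (.node [96,113] 1 6 (.node [] 7 1 (.node [116] 7 4 (.far [4112,4112,1,4096,0,1,256] 17 (.lc 0 10 .stop))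
 (.lc 3 1 (.conf [122,164] (.lc 3 1 (.lc 4 1 .stop)))))
 .stop)
 (.node [96,116] 4 6 (.lc 0 0 .stop)
 (.node [96,121,152,89] 9 6 .stop
 (.node [96,122] 6 0 (.node [160] 8 7 (.node [122,129] 1 7 .stop
 (.node [122,132] 4 7 (.lc 1 0 .stop)
 (.lc 2 3 (.node [122,139] 7 10 (.far [4112,1,4112,4096,0,1,256] 17 (.lc 2 0 (.lc 2 0 (.lc 2 0 (.lc 2 0 (.lc 0 12 (.lc 2 0 (.lc 3 0 (.lc 3 0 .stop)))))))))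
 (.lc 2 6 (.lc 2 6 (.lc 3 4 (.lc 3 1 (.lc 3 4 (.lc 3 12 (.conf [69,132] (.lc 3 3 (.conf [122,183] (.lc 2 6 (.lc 2 6 (.lc 2 6 (.lc 2 6 (.lc 2 6 (.lc 2 6 (.lc 2 6 (.lc 3 4 (.lc 3 11 (.lc 3 11 (.lc 3 12 (.lc 3 6 (.lc 3 6 (.lc 3 6 (.lc 4 11 (.lc 4 4 (.lc 4 13 (.lc 3 6 (.lc 3 6 (.lc 3 6 (.lc 3 6 (.lc 3 6 (.lc 3 6 (.lc 3 6 (.lc 3 6 (.lc 3 6 (.lc 3 6 (.lc 4 6 (.lc 4 6 (.lc 4 6 .stop)))))))))))))))))))))))))))))))))))))))))))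
 (.lc 0 1 (.lc 0 1 (.lc 0 11 (.node [161] 1 4 (.node [69] 7 10 (.lc 1 1 (.node [121,152,154,89] 7 9 (.lc 0 3 .stop)
 (.node [123,164] 8 7 (.node [139] 10 4 (.far [4112,0,1,256,256,256] 4097 (.lc 2 1 (.far [4112,0,1,256,256,256] 4097 (.lc 3 1 .stop))))
 (.lc 3 12 (.lc 3 3 (.lc 1 10 (.lc 3 12 (.lc 4 13 .stop))))))
 (.lc 2 1 (.lc 3 6 (.lc 3 6 (.conf [124,203] (.lc 1 1 (.lc 3 6 (.lc 3 6 (.lc 3 6 (.lc 2 1 (.lc 4 6 (.lc 4 6 .stop))))))))))))))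
 (.conf [69,132,168] (.conf [69,148,169] (.conf [69,171,180] (.far [4112,1,0,0,0,1,0,4096] 0 (.far [257,16,0,0,0,16,0,256] 0 (.lc 1 7 (.conf [69,172,16] .stop))))))))
 (.lc 2 0 (.lc 0 11 .stop)))))))
 (.conf [96,113] (.conf [96,122] (.conf [96,116] (.lc 1 6 (.conf [96,113] (.conf [96,116] (.conf [96,121] (.conf [96,123] (.conf [69,116] (.conf [96,166] (.conf [96,113] (.node [96,113] 8 7 (.far [1,4096,0,1,256] 17 (.lc 1 0 (.lc 1 0 (.lc 3 4 (.lc 3 10 (.lc 2 0 .stop))))))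
 (.node [96,116,1] 7 4 .stop
 (.conf [121,144] (.node [96,122,1] 8 7 (.far [1,4096,0,1,256] 17 (.lc 3 1 (.lc 3 4 (.lc 3 11 (.lc 3 3 (.lc 1 0 (.lc 3 11 (.lc 4 4 (.lc 4 12 .stop)))))))))
 (.conf [69,116] (.conf [96,122] (.conf [96,122] (.conf [96,121] (.conf [96,122] (.conf [96,123] (.lc 1 0 (.conf [96,122] (.conf [96,122] (.lc 2 6 (.conf [69,116] (.conf [96,124] (.lc 1 0 (.node [96,122,161,20] 8 7 (.conf [138,161] (.lc 3 4 (.lc 3 11 (.lc 3 3 (.lc 1 1 (.lc 3 11 (.lc 4 12 .stop)))))))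
 (.conf [96,160,1] (.lc 1 0 (.node [96,122,161] 8 7 (.conf [138,161] (.lc 3 4 (.lc 3 11 (.lc 3 3 (.lc 1 1 (.lc 3 11 (.lc 4 12 .stop)))))))
 (.lc 1 0 (.conf [121,145] (.node [96,122,161] 8 7 (.node [138,161] 10 1 (.far [1,0,257,0,0,1,0,4096] 0 (.lc 3 9 (.lc 3 11 (.node [69,180,89,152] 4 5 (.node [89] 11 5 (.far [1,4096,1,0,257,4112,4112,4096,1,1] 4096 (.lc 1 8 (.lc 1 8 .stop)))
 (.lc 2 3 (.lc 0 12 (.lc 2 3 (.lc 3 3 .stop)))))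
 (.lc 3 11 (.lc 4 12 .stop))))))
 (.lc 3 4 (.lc 3 11 (.lc 3 3 (.conf [139,186] (.lc 3 11 (.lc 4 12 .stop)))))))
 (.lc 2 0 (.node [96,123,161,186,20,161] 8 7 (.conf [139,186] (.lc 3 4 (.lc 3 12 (.lc 3 3 (.lc 1 10 (.lc 3 12 (.lc 4 13 .stop)))))))
 .stop)))))))))))))))))))))))))))))))))))))))))
 (.lc 2 7 (.lc 3 7 .stop)))))
 (.node [50,87,96,69] 7 6 (.node [96,113] 1 6 (.far [257,1,4096,0,1,257] 16 .stop)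
 (.node [96,116] 4 6 (.lc 0 0 .stop)
 (.node [96,120] 6 0 (.far [4112,1,4096,16,1,257] 4096 (.lc 0 1 (.lc 0 1 (.lc 0 9 (.node [129] 1 4 (.node [69] 7 8 (.lc 1 1 (.lc 2 5 (.node [132] 8 4 (.far [4112,1,256,256,256] 4097 (.lc 2 1 (.lc 2 1 (.far [4112,1,256,256,256] 4097 (.lc 2 1 (.lc 3 1 .stop))))))
 (.lc 2 1 (.lc 3 10 (.lc 0 9 (.node [132,152,169,132] 8 4 (.node [148] 9 4 (.far [16,256,16,0,0,4112,256,0,256] 0 (.lc 1 7 (.lc 1 7 (.node [148,165] 7 10 (.lc 0 3 .stop)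
 (.lc 2 7 .stop)))))
 (.lc 2 1 (.lc 2 1 (.lc 0 11 (.lc 2 1 (.lc 3 1 .stop))))))
 (.lc 1 1 (.lc 3 9 (.lc 3 9 (.lc 3 10 (.lc 4 11 (.lc 4 10 .stop)))))))))))))
 (.conf [69,137,148] (.lc 2 1 (.far [4112,1,0,0,1,0,4096] 0 (.lc 1 4 (.far [257,16,0,0,16,0,256] 0 (.conf [69,138,16] .stop)))))))
 (.lc 2 0 (.lc 0 9 .stop)))))))
 (.lc 2 0 (.lc 2 0 (.far [257,4096,0,1,1] 4096 (.conf [96,134] (.conf [96,134] (.conf [96,134] (.conf [69,116] (.conf [96,134] (.lc 2 0 (.lc 2 0 (.lc 2 0 (.lc 2 0 (.far [257,4096,0,1,1] 4096 (.node [96,120,129] 1 6 (.far [257,1,4096,0,1,257] 16 .stop)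
 (.node [96,120,132] 4 6 (.lc 0 0 .stop)
 (.node [96,121,152] 8 6 (.far [1,1,4096,16,1,257] 4096 (.lc 3 1 (.far [1,1,4096,16,1,257] 16 (.lc 3 1 (.lc 3 10 (.lc 1 0 (.lc 4 10 .stop)))))))
 (.lc 1 0 (.lc 3 0 (.node [22,69,120] 1 6 (.far [257,1,4096,0,1,1] 16 .stop)
 (.conf [24,134] (.conf [96,134] (.lc 1 0 (.lc 3 0 (.lc 3 0 (.lc 1 0 (.lc 3 0 (.lc 1 0 (.lc 3 0 (.lc 2 0 (.lc 4 0 .stop)))))))))))))))))))))))))))))))))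
 (.node [50,87,96,69] 4 5 (.lc 2 1 (.node [72,87] 5 7 (.far [4112,1,4112,4112,257,257] 4096 (.lc 0 1 (.lc 0 9 (.lc 0 9 (.node [118,151] 7 6 (.lc 1 0 (.node [113] 7 1 .stop
 (.node [122] 9 7 (.far [16,257,257,16,258,0,4096] 0 (.lc 3 1 (.lc 3 11 (.lc 1 6 (.lc 3 11 (.lc 4 12 .stop))))))
 (.lc 2 0 (.lc 2 0 (.lc 3 5 (.lc 2 0 (.conf [123,186] (.lc 2 0 (.lc 2 0 (.lc 2 0 (.lc 2 0 (.lc 2 0 (.lc 2 0 (.lc 3 5 (.lc 3 5 (.lc 3 0 (.lc 3 0 (.lc 4 5 (.lc 3 0 (.lc 3 0 (.lc 3 0 (.lc 3 0 (.lc 3 0 (.lc 3 0 (.lc 4 0 .stop))))))))))))))))))))))))))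
 (.lc 0 10 .stop))))))
 (.lc 3 1 (.lc 2 3 (.lc 3 9 (.lc 3 1 (.conf [87,133] (.lc 3 1 (.lc 2 3 (.lc 3 8 (.lc 3 9 (.lc 4 1 (.lc 3 3 (.lc 4 10 (.lc 4 9 (.lc 4 9 (.lc 4 9 (.lc 5 10 .stop))))))))))))))))))
 (.node [88,96,50,88,96,118,69] 7 6 (.lc 1 0 (.lc 0 5 (.lc 1 0 (.lc 3 1 (.lc 3 9 (.lc 2 0 (.lc 2 0 (.lc 0 5 (.lc 2 0 (.lc 0 5 (.lc 2 0 (.lc 3 1 (.node [113] 8 7 (.conf [20,129] (.lc 1 0 (.lc 1 0 (.lc 1 0 (.lc 3 9 (.lc 2 0 .stop))))))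
 (.lc 0 5 (.node [1,121] 8 7 (.conf [137,144] (.lc 3 1 (.lc 0 5 (.lc 3 10 (.lc 1 0 (.lc 3 10 (.lc 0 5 (.lc 4 11 .stop))))))))
 (.lc 0 5 (.lc 2 0 (.lc 1 5 (.lc 2 0 (.lc 1 0 (.lc 4 9 (.lc 1 5 (.lc 0 5 (.lc 3 0 (.lc 1 0 (.conf [20,145] (.conf [1,144] (.lc 1 0 (.node [121,145] 8 7 (.far [1,1,4096,0,1,257] 16 (.lc 0 5 (.lc 3 10 (.lc 1 1 (.lc 3 10 (.lc 4 11 .stop))))))
 (.lc 1 0 (.node [20,121] 8 7 (.conf [137,145] (.lc 0 5 (.lc 3 10 (.lc 1 1 (.lc 3 10 (.lc 4 11 .stop))))))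
 (.lc 2 0 (.conf [20,145] .stop)))))))))))))))))))))))))))))))))
 (.conf [96,152,57] (.conf [50,96,118] (.conf [50,96,118,135] (.conf [50,88,118,135] (.conf [50,88,135] (.node [50,89,96,118,135,69] 7 6 (.node [96,113] 1 6 (.node [] 7 1 (.node [116] 7 4 (.far [4112,4096,257,1,4096,0,1,1] 16 (.lc 0 10 .stop))
 (.lc 3 1 (.conf [122,164] (.lc 3 1 (.lc 4 1 .stop)))))
 .stop)
 (.node [96,116] 4 6 (.lc 0 0 .stop)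
 (.node [96,122] 6 0 (.node [160] 8 7 (.node [122,129] 1 7 .stop
 (.node [122,132] 4 7 (.lc 1 0 .stop)
 (.node [122,139] 7 10 (.node [160] 9 8 (.node [139,145] 1 8 .stop
 (.node [139,148] 4 8 (.lc 1 10 .stop)
 (.node [139,156] 8 11 (.far [4112,1,8224,4097,8224,8192,1,272,1,257] 4096 (.lc 2 10 (.lc 2 10 (.lc 2 10 (.lc 0 13 (.lc 2 10 (.lc 3 10 (.lc 3 10 .stop))))))))
 (.lc 2 7 (.lc 3 4 (.lc 3 1 (.lc 3 4 (.lc 3 13 (.conf [69,148] (.conf [139,200] (.lc 2 7 (.lc 2 7 (.lc 2 7 (.lc 2 7 (.lc 2 7 (.lc 2 7 (.lc 2 7 (.lc 3 4 (.lc 3 12 (.lc 3 12 (.lc 3 13 (.lc 3 7 (.lc 3 7 (.lc 4 12 (.lc 4 4 (.lc 4 14 (.lc 3 7 (.lc 3 7 (.lc 3 7 (.lc 3 7 (.lc 3 7 (.lc 3 7 (.lc 3 7 (.lc 3 7 (.lc 3 7 (.lc 3 7 (.lc 4 7 (.lc 4 7 (.lc 4 7 .stop)))))))))))))))))))))))))))))))))))))))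
 (.lc 2 0 (.lc 2 0 (.lc 2 0 (.lc 0 12 (.lc 2 0 (.lc 3 0 (.lc 3 0 .stop))))))))
 (.lc 2 6 (.lc 3 4 (.lc 3 1 (.lc 3 4 (.lc 3 12 (.conf [69,132] (.conf [122,183] (.lc 2 6 (.lc 2 6 (.lc 2 6 (.lc 2 6 (.lc 2 6 (.lc 2 6 (.lc 3 4 (.lc 3 11 (.lc 3 11 (.lc 3 12 (.lc 3 6 (.lc 3 6 (.lc 4 11 (.lc 4 4 (.lc 4 13 (.lc 3 6 (.lc 3 6 (.lc 3 6 (.lc 3 6 (.lc 3 6 (.lc 3 6 (.lc 3 6 (.lc 3 6 (.lc 3 6 (.lc 3 6 (.lc 4 6 (.lc 4 6 (.lc 4 6 .stop))))))))))))))))))))))))))))))))))))))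
 (.lc 0 1 (.lc 0 1 (.lc 0 11 (.node [161] 1 4 (.node [69] 7 10 (.lc 1 1 (.node [123,164] 8 7 (.node [139] 10 4 (.far [4112,0,1,256,256,256] 4097 (.lc 2 1 (.far [4112,0,1,256,256,256] 4097 (.lc 3 1 .stop))))
 (.lc 3 12 (.lc 1 10 (.lc 3 12 (.lc 4 13 .stop)))))
 (.lc 2 1 (.lc 3 6 (.conf [124,203] (.lc 3 6 (.lc 3 6 (.lc 3 6 (.lc 4 6 (.lc 4 6 .stop))))))))))
 (.conf [69,132,168] (.conf [69,148,169] (.conf [69,171,180] (.far [4112,1,0,0,1,0,4096] 0 (.far [257,16,0,0,16,0,256] 0 (.lc 1 7 (.conf [69,172,16] .stop))))))))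
 (.lc 2 0 (.lc 0 11 .stop)))))))
 (.lc 2 0 (.lc 2 0 (.lc 3 4 (.lc 3 1 (.lc 3 4 (.lc 3 11 (.conf [69,116] (.conf [96,166] (.lc 2 0 (.lc 2 0 (.lc 2 0 (.lc 2 0 (.lc 3 4 (.lc 3 10 (.lc 3 10 (.lc 3 11 (.lc 1 0 (.lc 3 0 (.lc 4 10 (.lc 4 4 (.lc 4 12 (.lc 1 0 (.lc 3 0 (.lc 3 0 (.lc 1 0 (.lc 3 0 (.lc 1 0 (.lc 3 0 (.lc 2 0 (.lc 4 0 .stop)))))))))))))))))))))))))))))))))
 .stop))))))))))))))))))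
 (.conf [32,50] (.conf [32,98] (.node [54,96] 3 6 (.far [4112,4096,1,257] 4096 (.lc 0 7 (.lc 0 7 (.node [96,118] 7 6 (.node [96,113] 1 6 (.node [] 7 1 (.far [1,16,256,0,257,0,4096] 0 (.conf [120,132] .stop))
 .stop)
 (.node [69,96,116] 4 6 (.lc 0 0 .stop)
 (.node [96,120] 8 6 (.node [128] 5 7 (.node [81,120] 1 7 .stop
 (.lc 2 3 (.node [89,120] 7 8 (.far [257,16,16,256,16,1] 0 (.lc 2 0 (.lc 2 0 (.lc 2 0 (.lc 0 10 (.lc 2 0 (.lc 3 0 (.lc 3 0 .stop))))))))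
 (.lc 3 3 (.lc 2 5 (.conf [120,151] (.conf [120,151] (.lc 3 3 (.conf [120,151] (.lc 2 5 (.lc 3 3 (.lc 2 5 (.lc 2 5 (.lc 2 5 (.lc 2 5 (.far [4112,16,16,256,257,16,4112] 1 (.node [89,120,145,69] 1 7 .stop
 (.node [90,120,169,69] 5 10 (.node [169] 7 8 (.far [4112,4112,1,0,4112,258,0,256] 0 (.lc 2 0 (.lc 2 0 (.lc 0 11 (.lc 2 0 (.lc 3 0 .stop))))))
 (.lc 0 8 (.lc 0 11 (.lc 0 11 (.lc 0 1 (.lc 2 9 (.lc 0 12 .stop)))))))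
 (.lc 4 3 (.lc 3 5 (.conf [120,151] (.lc 3 5 (.lc 3 5 (.lc 3 5 (.lc 3 5 (.lc 3 5 (.lc 3 5 (.lc 4 5 .stop))))))))))))))))))))))))))))
 (.lc 3 1 (.lc 3 4 (.lc 3 9 (.far [16,16,257,513,16,4112] 1 (.node [137,144] 5 7 (.node [81,120] 1 7 .stop
 (.lc 2 3 (.node [89,120,144] 9 7 (.lc 0 6 .stop)
 (.node [90,120] 7 8 (.far [257,16,16,256,16,1] 0 (.lc 2 9 (.lc 2 9 (.lc 2 9 (.lc 2 6 (.lc 0 11 (.lc 2 9 (.lc 3 9 (.lc 3 9 .stop)))))))))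
 (.lc 3 3 (.lc 2 5 (.lc 2 5 (.conf [120,167] (.conf [120,167] (.conf [120,167] (.lc 3 3 (.conf [120,167] (.lc 2 5 (.lc 3 3 (.lc 2 5 (.lc 2 5 (.lc 2 5 (.lc 2 5 (.node [90,120,161,69] 1 7 .stop
 (.node [90,120,144,169,69] 9 7 (.lc 0 6 .stop)
 (.node [91,120,186,69] 5 11 (.node [186] 7 8 (.far [4112,4112,1,0,4112,258,0,256] 0 (.lc 2 9 (.lc 2 9 (.lc 2 6 (.lc 0 12 (.lc 2 9 (.lc 3 9 .stop)))))))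
 (.lc 0 8 (.lc 0 9 (.lc 0 12 (.lc 0 12 (.lc 0 1 (.lc 2 10 (.lc 0 9 (.lc 0 13 .stop)))))))))
 (.lc 4 3 (.lc 3 5 (.conf [120,167] (.lc 3 5 (.lc 3 5 (.lc 3 5 (.lc 3 5 (.lc 3 5 (.lc 3 5 (.lc 4 5 .stop)))))))))))))))))))))))))))))))
 (.lc 3 1 (.lc 3 9 (.lc 4 4 (.lc 4 9 (.lc 4 10 .stop)))))))))))
 (.lc 2 0 (.lc 2 0 (.lc 3 4 (.lc 3 1 (.lc 3 4 (.lc 3 9 (.conf [69,116] (.conf [96,134] (.lc 2 0 (.lc 2 0 (.lc 2 0 (.lc 2 0 (.lc 2 0 (.lc 2 0 (.lc 3 4 (.lc 3 8 (.lc 3 8 (.lc 3 9 (.lc 3 0 (.lc 3 0 (.lc 3 0 (.lc 4 8 (.lc 4 4 (.lc 4 10 (.lc 3 0 (.lc 3 0 (.lc 3 0 (.lc 1 0 (.lc 3 0 (.lc 3 0 (.lc 3 0 (.lc 3 0 (.lc 3 0 (.lc 3 0 (.lc 3 0 (.lc 4 0 (.lc 4 0 (.lc 4 0 .stop)))))))))))))))))))))))))))))))))))))))))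
 (.lc 0 8 .stop)))))
 (.node [32,55,118] 3 7 (.node [118,87] 6 2 (.far [1,4112,4096,1,257] 4096 (.lc 3 5 (.lc 3 8 (.node [104,128] 7 6 (.node [104] 1 6 .stop
 (.node [69,70] 4 6 (.far [257,1,0,0,257,0,4096] 0 (.node [98,128,69] 7 4 (.lc 0 3 .stop)
 (.lc 2 2 (.conf [25,150] (.lc 1 0 (.lc 2 0 .stop))))))
 (.lc 2 3 (.lc 1 2 (.node [104] 5 7 (.node [81,121] 1 7 .stop
 (.lc 2 3 (.node [121,128,135] 8 7 .stop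
 (.far [16,257,0,16,1] 0 (.node [90,121] 7 9 (.far [257,16,257,0,16,1] 0 (.conf [150,161,115] (.conf [150,164,73] (.conf [150,168,115] (.conf [150,171,115] (.node [171,185,115] 5 10 (.node [81,171,185] 1 10 .stop
 (.lc 2 3 (.node [128,138,171,185] 8 10 .stop
 (.node [92,171,185] 10 11 (.far [4112,1,4112,258,4112,0,4097,16,1,257] 4096 (.lc 2 9 (.lc 2 9 (.lc 2 9 (.lc 2 9 (.lc 0 13 (.lc 2 9 (.lc 3 9 (.lc 3 9 .stop)))))))))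
 (.lc 3 3 (.conf [165,185] (.lc 0 1 (.lc 3 3 (.lc 3 3 (.conf [171,202] (.node [165,185,81] 5 1 (.lc 0 1 .stop)
 (.lc 3 3 (.conf [139,185] (.node [165,185,92] 11 9 (.node [150] 5 12 (.far [257,0,257,0,257,0,0,4096,0,4096] 0 (.lc 2 9 (.lc 2 9 (.node [77,220] 4 13 (.node [220] 13 12 (.node [128,201,216] 8 12 (.lc 1 6 .stop)
 (.lc 1 5 (.node [201,222] 12 9 (.node [150] 13 14 (.far [257,0,257,256,4096,0,0,0,0,0,0,0,0,257,1] 4096 (.lc 2 9 (.lc 2 9 (.lc 3 9 .stop))))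
 (.lc 2 6 (.lc 0 15 (.lc 1 0 .stop))))
 (.lc 2 5 (.lc 3 1 (.conf [201,236] (.lc 1 6 (.lc 2 5 (.lc 3 1 (.lc 0 0 (.lc 4 1 .stop)))))))))))
 (.lc 0 0 (.lc 2 12 (.lc 2 12 (.conf [30,237] (.lc 2 12 (.lc 0 0 (.lc 3 12 .stop))))))))
 (.lc 0 1 (.lc 2 9 (.lc 3 9 .stop)))))))
 (.lc 2 6 (.lc 2 6 (.lc 2 6 (.lc 2 6 (.lc 0 13 (.lc 2 6 (.lc 3 6 (.lc 3 6 .stop)))))))))
 (.lc 3 3 (.lc 3 3 (.lc 3 3 (.lc 4 3 (.conf [165,220,93] (.lc 4 3 (.lc 4 3 (.lc 4 3 (.lc 4 3 (.lc 0 1 (.lc 4 3 (.lc 5 3 .stop))))))))))))))))))))))))))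
 (.far [257,16,257,0,16,1] 0 (.conf [25,150] (.conf [150,172,115] .stop)))))))))
 (.lc 3 3 (.lc 2 3 (.lc 3 0 (.lc 3 1 (.lc 3 8 (.lc 3 10 (.lc 3 1 (.lc 3 8 (.lc 3 11 (.lc 3 3 (.far [16,257,0,16,1] 0 (.lc 3 3 (.node [91,167,186,121] 10 7 (.far [16,16,257,0,16,1] 0 (.lc 1 6 (.lc 1 6 (.lc 1 6 (.lc 1 6 (.lc 1 6 (.lc 3 12 (.lc 2 6 (.lc 2 6 .stop)))))))))
 (.lc 2 3 (.lc 3 3 (.lc 2 3 (.lc 2 3 (.lc 3 1 (.lc 3 8 (.lc 3 10 (.lc 3 1 (.lc 3 10 (.lc 3 10 (.lc 3 10 (.lc 3 11 (.lc 4 3 (.lc 3 3 (.lc 4 1 (.lc 4 11 (.lc 4 12 (.lc 4 11 (.lc 4 1 (.lc 4 10 (.lc 4 10 (.lc 4 11 (.lc 4 0 (.lc 4 1 (.lc 4 8 (.lc 4 11 (.lc 5 1 (.lc 5 12 .stop))))))))))))))))))))))))))))))))))))))))))))))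
 (.lc 2 8 (.lc 0 1 (.lc 2 8 (.lc 2 8 (.lc 0 9 (.lc 2 8 (.lc 3 4 (.lc 2 2 (.lc 2 2 (.lc 2 2 (.lc 3 1 (.lc 3 4 (.lc 3 10 (.node [22,69] 7 4 (.lc 0 3 .stop)
 (.lc 0 8 (.lc 2 2 (.lc 0 9 (.node [104,150,169] 5 7 (.node [81,122] 1 7 .stop
 (.lc 2 3 (.node [122,128,135] 8 7 .stop
 (.node [115,169,150] 5 10 (.node [81,169] 1 10 .stop
 (.lc 2 3 (.node [128,138,169] 8 10 .stop
 (.node [91,169] 10 9 (.far [4112,1,258,4112,0,4097,16,1,257] 4096 (.lc 2 6 (.lc 2 6 (.lc 2 6 (.lc 2 6 (.lc 0 12 (.lc 2 6 (.lc 3 6 (.lc 3 6 .stop)))))))))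
 (.lc 3 3 (.lc 2 5 (.lc 0 1 (.lc 3 3 (.lc 3 3 (.conf [169,186] (.lc 1 6 (.lc 3 3 (.lc 1 6 (.lc 1 6 (.lc 3 3 (.lc 3 3 (.lc 3 3 (.lc 4 3 (.lc 2 6 (.lc 4 3 (.lc 4 3 (.lc 4 3 (.lc 4 3 (.lc 0 1 (.lc 4 3 (.lc 5 3 .stop))))))))))))))))))))))))))
 (.node [91,122] 7 10 (.node [169] 6 8 (.node [97,128] 6 1 (.lc 0 4 .stop)
 (.node [69,100,128] 6 4 .stop
 (.lc 2 2 (.node [107,128] 6 11 .stop
 (.node [108,128] 9 6 (.far [1,4112,4112,1,4096,4112,1,256] 0 (.lc 3 1 (.lc 3 4 (.lc 3 11 (.lc 3 13 (.lc 1 8 (.lc 3 13 (.lc 4 4 (.lc 4 14 .stop)))))))))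
 (.lc 2 0 (.lc 3 2 (.lc 2 0 (.lc 3 2 (.lc 2 0 (.lc 2 0 (.lc 3 2 (.lc 2 0 (.lc 3 2 (.lc 2 0 (.conf [98,128,200] (.conf [69,100] (.lc 3 2 (.conf [109,220] (.lc 2 0 (.lc 2 0 (.lc 2 0 (.lc 2 0 (.lc 3 2 (.lc 2 0 (.lc 2 0 (.lc 2 0 (.lc 2 0 (.lc 2 0 (.lc 2 0 (.lc 0 1 (.lc 0 4 (.lc 0 11 (.lc 0 12 (.lc 4 2 (.lc 3 0 (.lc 3 0 (.lc 3 0 (.lc 4 2 (.lc 3 0 (.lc 0 4 (.lc 0 13 (.lc 3 0 (.lc 3 0 (.lc 3 0 (.lc 3 0 (.lc 3 0 (.lc 3 0 (.lc 3 0 (.lc 3 0 (.lc 3 0 (.lc 3 0 (.lc 3 0 (.lc 3 0 (.lc 3 0 (.lc 3 0 (.lc 4 0 (.lc 4 0 (.lc 4 0 (.lc 4 0 .stop))))))))))))))))))))))))))))))))))))))))))))))))))))))))))))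
 (.lc 2 9 (.lc 2 9 (.lc 2 9 (.lc 2 9 (.lc 0 12 (.lc 2 9 (.lc 3 9 (.lc 3 9 .stop)))))))))
 (.lc 3 3 (.lc 2 3 (.lc 3 0 (.lc 3 1 (.lc 3 8 (.lc 3 11 (.lc 3 1 (.lc 3 8 (.lc 3 12 (.lc 3 3 (.lc 1 9 (.lc 3 3 (.conf [122,183] (.lc 2 3 (.lc 3 3 (.lc 2 3 (.lc 2 3 (.lc 3 1 (.lc 3 8 (.lc 3 11 (.lc 3 1 (.lc 3 11 (.lc 3 11 (.lc 3 11 (.lc 3 12 (.lc 4 3 (.lc 3 3 (.lc 4 1 (.lc 4 12 (.lc 4 13 (.lc 4 12 (.lc 4 1 (.lc 4 11 (.lc 4 11 (.lc 4 12 (.lc 4 0 (.lc 4 1 (.lc 4 8 (.lc 4 12 (.lc 5 1 (.lc 5 13 .stop))))))))))))))))))))))))))))))))))))))))))))))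
 (.lc 2 8 (.lc 0 3 (.lc 2 8 (.lc 2 8 (.lc 2 8 (.lc 2 8 (.lc 2 8 (.lc 2 8 (.lc 2 8 (.lc 2 8 (.lc 2 8 (.lc 2 8 (.lc 3 4 (.lc 3 9 (.lc 3 9 (.lc 2 2 (.lc 3 10 (.lc 3 8 (.lc 3 8 (.lc 0 10 (.lc 3 8 (.lc 4 9 (.lc 3 2 (.lc 3 2 (.lc 4 4 (.lc 4 11 (.lc 3 8 (.lc 3 8 (.lc 3 8 (.lc 3 8 (.lc 3 8 (.lc 3 8 (.lc 3 8 (.lc 3 8 (.lc 3 8 (.lc 3 8 (.lc 3 8 (.lc 3 8 (.lc 3 8 (.lc 3 8 (.lc 3 8 (.lc 4 8 (.lc 4 8 (.lc 4 8 (.lc 4 8 .stop))))))))))))))))))))))))))))))))))))))))))))))))))))))))))))))))))))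
 (.lc 3 8 (.lc 4 9 .stop))))))
 (.lc 0 0 (.lc 0 8 (.lc 0 0 (.lc 0 8 (.node [118] 2 0 .stop
 (.node [118,135] 6 2 (.node [96] 7 6 (.lc 1 0 (.node [96,113] 7 1 (.lc 0 4 .stop)
 (.node [69,70,116] 7 4 .stop
 (.node [96,121] 8 7 (.node [137] 5 8 (.node [80,137] 0 8 .stop
 (.node [81,137] 1 8 (.lc 1 6 .stop)
 (.lc 2 3 (.node [90,137] 8 9 (.far [257,16,256,257,0,16,1] 0 (.lc 2 6 (.lc 2 6 (.lc 2 6 (.lc 2 6 (.lc 0 11 (.lc 2 6 (.lc 3 6 (.lc 3 6 (.lc 3 6 .stop))))))))))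
 (.lc 3 3 (.lc 2 5 (.far [8224,16,257,0,272,1,16,4112] 257 (.conf [137,168] (.conf [137,168] (.conf [137,168] (.far [16,0,0,1,16,4096] 256 (.lc 3 3 (.conf [137,168] (.lc 2 5 (.lc 2 5 (.lc 3 3 (.lc 2 5 (.lc 2 5 (.lc 2 5 (.lc 2 5 (.lc 2 5 (.far [8224,16,257,0,272,1,16,4112] 257 (.node [90,137,160,69] 0 8 .stop
 (.node [90,137,161,69] 1 8 (.lc 1 6 .stop)
 (.node [80,137,69] 6 8 (.lc 0 6 .stop)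
 (.node [91,137,186,69] 5 11 (.node [186] 8 9 (.far [4112,4112,1,4112,0,0,258,0,256] 0 (.lc 2 6 (.lc 2 6 (.lc 2 6 (.lc 0 12 (.lc 2 6 (.lc 3 6 (.lc 3 6 .stop))))))))
 (.lc 0 0 (.lc 0 9 (.lc 0 12 (.lc 0 12 (.lc 0 1 (.lc 2 10 (.lc 0 13 .stop))))))))
 (.lc 3 5 (.lc 4 3 (.lc 3 5 (.far [4112,0,0,1,16,4096] 256 (.conf [137,168] (.conf [137,168] (.lc 3 5 (.lc 3 5 (.lc 3 5 (.lc 3 5 (.lc 3 5 (.lc 3 5 (.lc 3 5 (.lc 3 5 (.lc 3 5 (.lc 3 5 (.lc 3 5 (.lc 4 5 (.lc 4 5 (.lc 4 5 .stop))))))))))))))))))))))))))))))))))))))))))))))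
 (.lc 3 0 (.lc 3 1 (.lc 3 4 (.lc 3 10 (.lc 1 6 (.lc 3 10 (.lc 4 1 (.lc 4 4 (.lc 4 11 .stop))))))))))
 (.lc 2 0 (.lc 2 0 (.lc 2 0 (.lc 2 0 (.lc 2 0 (.lc 3 3 (.lc 2 0 (.lc 2 0 (.conf [69,116] (.conf [122,169] (.lc 2 0 (.lc 2 0 (.lc 2 0 (.lc 2 0 (.lc 2 0 (.lc 2 0 (.lc 2 0 (.lc 2 0 (.lc 3 3 (.lc 3 3 (.lc 3 3 (.lc 3 0 (.lc 3 0 (.lc 3 0 (.lc 3 0 (.lc 3 0 (.lc 4 3 (.lc 4 3 (.lc 3 0 (.lc 3 0 (.lc 3 0 (.lc 3 0 (.lc 3 0 (.lc 3 0 (.lc 3 0 (.lc 3 0 (.lc 3 0 (.lc 3 0 (.lc 4 0 (.lc 4 0 (.lc 4 0 .stop)))))))))))))))))))))))))))))))))))))))))))))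
 (.lc 3 5 (.lc 3 8 (.lc 3 9 (.node [105,144] 7 6 (.node [105,113] 7 1 (.lc 0 4 .stop)
 (.node [69,70,116] 7 4 .stop
 (.lc 1 2 (.node [105,122] 8 7 (.node [138] 5 8 (.node [81,138] 1 8 .stop
 (.lc 2 3 (.node [89,138,144] 9 8 .stop
 (.node [91,138] 8 10 (.far [257,16,256,257,0,16,1] 0 (.lc 2 6 (.lc 2 6 (.lc 2 6 (.lc 2 6 (.lc 0 12 (.lc 2 6 (.lc 3 6 (.lc 3 6 .stop)))))))))
 (.lc 3 3 (.lc 2 5 (.conf [1,80] (.conf [138,184] (.conf [138,184] (.conf [138,184] (.lc 3 3 (.conf [138,184] (.lc 2 5 (.lc 3 3 (.lc 2 5 (.lc 2 5 (.lc 2 5 (.lc 2 5 (.lc 2 5 (.lc 2 5 (.far [8224,16,257,0,272,1,16,4112] 257 (.node [91,138,177,69] 1 8 .stop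
 (.lc 0 0 (.node [91,138,144,185,69] 9 8 .stop
 (.node [92,138,203,69] 5 12 (.node [203] 8 10 (.far [4112,4112,1,4112,0,0,258,0,256] 0 (.lc 2 6 (.lc 2 6 (.lc 2 6 (.lc 0 13 (.lc 2 6 (.lc 3 6 .stop)))))))
 (.lc 0 9 (.lc 0 10 (.lc 0 13 (.lc 0 13 (.lc 0 1 (.lc 2 11 (.lc 0 14 .stop))))))))
 (.lc 4 3 (.lc 3 5 (.conf [1,152] (.conf [138,184] (.lc 3 5 (.lc 3 5 (.lc 3 5 (.lc 3 5 (.lc 3 5 (.lc 3 5 (.lc 3 5 (.lc 3 5 (.lc 3 5 (.lc 3 5 (.lc 4 5 (.lc 4 5 .stop)))))))))))))))))))))))))))))))))))))))))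
 (.lc 3 1 (.lc 3 4 (.lc 3 9 (.lc 3 11 (.lc 1 6 (.lc 3 11 (.lc 4 4 (.lc 4 12 .stop)))))))))
 (.lc 2 9 (.lc 2 9 (.lc 2 9 (.lc 2 9 (.lc 2 2 (.lc 3 3 (.conf [69,116] (.lc 2 2 (.conf [123,186] (.lc 2 9 (.lc 2 9 (.lc 2 9 (.lc 2 9 (.lc 2 9 (.lc 2 9 (.lc 2 9 (.lc 3 3 (.lc 3 3 (.lc 2 2 (.lc 3 3 (.lc 3 9 (.lc 3 9 (.lc 3 9 (.lc 4 3 (.lc 3 2 (.lc 4 3 (.lc 3 9 (.lc 3 9 (.lc 3 9 (.lc 3 9 (.lc 3 9 (.lc 3 9 (.lc 3 9 (.lc 3 9 (.lc 3 9 (.lc 3 9 (.lc 4 9 (.lc 4 9 (.lc 4 9 .stop)))))))))))))))))))))))))))))))))))))))))))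
 (.lc 3 9 (.lc 4 8 (.lc 4 10 .stop))))))))
 (.lc 0 8 (.lc 0 0 (.lc 0 9 .stop))))))))))
 (.node [54,96] 3 6 (.far [4112,1,1,257] 4096 (.lc 0 7 (.lc 0 7 (.lc 2 0 (.lc 0 8 .stop)))))
 (.node [55,118,32] 3 7 (.node [118,87] 5 7 (.node [80,118] 0 7 (.far [1,1,4096,4112,1,257] 4096 (.node [98,134] 0 8 (.node [134] 6 2 .stop
 (.far [4112,4112,256] 0 (.lc 2 6 (.conf [72,134] (.lc 0 0 (.lc 2 6 (.lc 2 6 (.lc 3 6 .stop))))))))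
 .stop))
 (.node [81,118] 1 7 (.node [98] 5 1 (.lc 0 1 .stop)
 .stop)
 (.lc 2 3 (.node [88,118] 7 6 (.far [4112,1,4096,4112,1,257] 4096 (.lc 0 0 (.lc 0 1 (.lc 0 4 (.lc 0 9 (.lc 0 0 (.lc 0 9 (.node [98] 0 6 .stop
 (.node [98,150] 9 6 (.node [98,144] 0 6 (.far [16,16,257,16,16,258] 0 .stop)
 (.node [98,145] 1 6 .stop
 (.node [69,98,148] 4 6 .stop
 (.node [98,154] 6 2 (.far [257,16,257,16,16,258] 0 (.lc 0 0 (.lc 0 0 (.lc 0 11 (.far [257,16,257,16,16,258] 17 (.lc 0 11 .stop))))))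
 (.lc 2 2 (.lc 2 2 (.lc 3 1 (.lc 3 4 (.lc 3 10 (.lc 3 4 (.lc 3 5 (.lc 3 0 (.lc 3 1 (.lc 3 4 (.lc 3 11 (.node [98,145] 9 1 (.node [148] 9 4 (.node [69,132] 8 4 (.lc 0 3 .stop)
 (.far [4112,4096,0,1,0,0,257,0,4096] 0 (.lc 2 1 .stop)))
 (.lc 3 1 (.conf [154,164] (.lc 3 1 (.lc 4 1 .stop)))))
 (.conf [154,160] (.conf [69,148] (.conf [98,166] (.conf [98,166] (.lc 2 2 (.lc 2 2 (.lc 2 2 (.lc 3 1 (.lc 3 10 (.lc 3 4 (.lc 3 10 (.lc 3 0 (.lc 3 10 (.lc 3 0 (.lc 3 11 (.lc 3 2 (.lc 4 4 (.lc 4 10 (.lc 4 11 (.lc 4 10 (.lc 4 1 (.lc 4 11 (.lc 4 4 (.lc 4 0 (.lc 4 12 (.lc 3 2 (.lc 3 2 (.lc 3 2 (.lc 3 2 (.lc 4 2 .stop))))))))))))))))))))))))))))))))))))))))))))))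
 (.lc 0 1 (.lc 0 9 (.lc 0 4 (.lc 0 0 (.lc 0 10 .stop))))))))))))))
 (.lc 2 3 (.lc 3 3 (.lc 2 3 (.lc 3 1 (.lc 3 8 (.lc 3 0 (.lc 3 1 (.lc 3 9 (.node [81,118] 7 6 (.node [98] 5 1 (.lc 0 1 .stop)
 (.node [98,134] 5 1 (.lc 0 1 .stop)
 .stop))
 (.lc 3 3 (.node [88,118,128] 0 7 .stop
 (.conf [118,135] (.lc 3 3 (.conf [118,135] (.lc 2 3 (.lc 2 3 (.lc 3 3 (.lc 2 3 (.lc 3 0 (.lc 3 1 (.lc 3 8 (.lc 3 1 (.lc 3 8 (.lc 3 8 (.lc 3 0 (.lc 3 9 (.lc 3 3 (.lc 4 3 (.lc 3 3 (.lc 3 3 (.lc 4 3 (.lc 3 3 (.lc 4 8 (.lc 4 9 (.lc 4 1 (.lc 4 9 (.lc 4 0 (.lc 4 10 (.lc 4 1 (.lc 4 8 (.lc 4 0 (.lc 4 9 (.lc 4 1 (.lc 4 8 (.lc 4 8 (.lc 4 0 (.lc 4 9 (.lc 4 1 (.lc 4 8 (.lc 4 0 (.lc 4 1 (.lc 4 9 (.lc 5 8 (.lc 5 9 (.lc 5 1 (.lc 5 9 (.lc 5 0 (.lc 5 10 .stop))))))))))))))))))))))))))))))))))))))))))))))))))))))))))))))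
 (.lc 0 0 (.lc 0 8 (.lc 0 0 (.lc 0 8 (.lc 2 6 (.lc 2 6 (.lc 0 8 (.lc 0 0 (.lc 0 9 .stop))))))))))
 (.conf [50,86] (.node [96,118,55] 3 7 (.far [4112,4112,1,257] 4096 (.node [56,118,96] 3 8 (.far [4112,4112,4112,1,257] 4096 (.lc 2 7 (.far [4112,4112,4112,1,257] 4096 (.lc 2 7 (.lc 3 7 .stop)))))
 (.conf [88,118,135] (.conf [57,118] (.conf [50,88,135] (.far [4112,4112,1,257] 4096 (.conf [57,152] (.node [118,135,96,50,88,69] 8 7 (.far [1,4112,4112,1,257] 4096 (.lc 1 0 (.lc 0 5 (.lc 1 0 (.lc 1 0 (.lc 3 9 (.lc 1 6 (.lc 2 0 .stop))))))))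
 (.conf [57,118] (.conf [50,118] (.node [50,88,118,69,96] 7 6 (.node [96,113] 7 1 (.lc 0 4 .stop)
 (.node [96,116] 7 4 .stop
 (.node [96,121] 8 7 (.far [1,4112,1,272,1,257] 4096 (.lc 3 1 (.lc 3 4 (.lc 3 10 (.lc 1 6 (.lc 3 10 (.lc 4 4 (.lc 4 11 .stop))))))))
 (.lc 2 0 (.lc 2 0 (.lc 2 0 (.lc 2 0 (.lc 3 3 (.conf [69,116] (.conf [96,150] (.lc 2 0 (.lc 2 0 (.lc 2 0 (.lc 2 0 (.lc 2 0 (.lc 2 0 (.lc 2 0 (.lc 3 3 (.lc 3 3 (.lc 3 3 (.lc 3 0 (.lc 3 0 (.lc 3 0 (.lc 4 3 (.lc 4 3 (.lc 3 0 (.lc 3 0 (.lc 3 0 (.lc 3 0 (.lc 3 0 (.lc 3 0 (.lc 3 0 (.lc 3 0 (.lc 3 0 (.lc 3 0 (.lc 4 0 (.lc 4 0 (.lc 4 0 .stop))))))))))))))))))))))))))))))))))))))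
 (.conf [89,118,135,152] (.conf [58,118] (.conf [50,118,135] (.conf [50,118] (.conf [50,118] (.conf [50,118] (.conf [50,118] .stop))))))))))))))))))
 (.conf [32,50] (.conf [32,98] (.node [55,118,96] 3 7 (.far [4112,8208,1,257] 4096 (.lc 0 8 (.lc 0 8 (.lc 2 6 (.lc 0 9 .stop)))))
 (.conf [56,98,32] (.node [55,118,96] 3 7 (.far [4112,4096,1,257] 4096 (.lc 0 8 (.lc 0 8 (.lc 2 6 (.lc 0 9 .stop)))))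
 (.node [32,56,135,118] 3 8 (.node [135,88] 6 2 (.far [1,4112,4096,1,257] 4096 (.lc 3 5 (.lc 3 9 (.node [144] 8 7 (.node [118,129] 8 1 .stop
 (.node [69,118,132] 8 4 (.lc 0 3 .stop)
 (.node [118,137,144] 8 9 .stop
 (.node [118,138] 5 8 (.node [90] 7 6 (.node [105,113] 7 1 (.lc 0 4 .stop)
 (.node [69,105,116] 7 4 .stop
 (.lc 1 2 (.node [105,123] 10 7 (.far [16,257,16,256,0,16,1] 0 (.lc 3 1 (.lc 3 4 (.lc 3 9 (.lc 3 12 (.lc 1 6 (.lc 3 12 (.lc 4 4 (.lc 4 13 .stop)))))))))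
 (.lc 2 9 (.lc 2 9 (.lc 2 9 (.lc 2 9 (.lc 2 2 (.lc 3 6 (.conf [69,116] (.lc 2 2 (.conf [105,182] (.lc 2 9 (.lc 2 9 (.lc 2 9 (.lc 2 9 (.lc 2 9 (.lc 2 9 (.lc 2 9 (.lc 2 9 (.lc 2 9 (.lc 3 6 (.lc 3 6 (.lc 2 2 (.lc 3 6 (.lc 3 9 (.lc 3 9 (.lc 3 9 (.lc 4 6 (.lc 3 2 (.lc 4 6 (.lc 3 9 (.lc 3 9 (.lc 3 9 (.lc 3 9 (.lc 3 9 (.lc 3 9 (.lc 3 9 (.lc 3 9 (.lc 3 9 (.lc 3 9 (.lc 3 9 (.lc 4 9 (.lc 4 9 (.lc 4 9 .stop))))))))))))))))))))))))))))))))))))))))))))))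
 (.lc 3 1 (.lc 3 9 (.lc 3 11 (.lc 3 3 (.lc 1 7 (.lc 3 11 (.lc 4 12 .stop))))))))
 (.lc 2 6 (.lc 2 6 (.lc 2 6 (.lc 2 6 (.lc 2 6 (.lc 2 6 (.lc 0 3 (.lc 3 3 (.conf [69,132] (.conf [118,167] (.lc 2 6 (.lc 2 6 (.lc 2 6 (.lc 2 6 (.lc 2 6 (.lc 2 6 (.lc 2 6 (.lc 0 3 (.lc 2 6 (.lc 2 6 (.lc 0 1 (.lc 0 9 (.lc 0 10 (.lc 3 6 (.lc 3 6 (.lc 3 6 (.lc 3 6 (.lc 0 11 (.lc 0 1 (.lc 0 10 (.lc 0 10 (.lc 0 11 (.lc 0 0 (.lc 0 1 (.lc 0 9 (.lc 0 11 (.lc 0 3 (.lc 3 6 (.lc 0 1 (.lc 0 12 .stop))))))))))))))))))))))))))))))))))))))))))))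
 (.lc 3 9 (.lc 4 10 .stop))))))
 (.lc 0 0 (.lc 0 9 (.lc 0 0 (.lc 0 9 (.lc 2 7 (.lc 2 7 (.lc 0 9 (.lc 0 0 (.lc 0 10 .stop))))))))))
 (.node [55,118,96] 3 7 (.node [118,87] 5 7 (.node [81,118] 1 7 .stop
 (.lc 2 3 (.node [88,118] 7 6 (.far [4112,1,4096,4112,1,257] 4096 (.lc 0 1 (.lc 0 4 (.lc 0 9 (.lc 0 9 (.node [96,150] 9 6 (.node [96,145] 1 6 (.far [16,16,257,16,16,258] 17 .stop)
 (.node [69,96,148] 4 6 (.lc 0 0 .stop)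
 (.node [96,154] 6 0 (.far [257,16,257,16,16,258] 17 (.lc 0 1 (.lc 0 1 (.lc 0 11 (.far [257,16,257,16,16,258] 4114 (.lc 0 4 (.lc 0 11 .stop)))))))
 (.lc 2 0 (.lc 2 0 (.lc 3 4 (.lc 3 5 (.lc 3 1 (.lc 3 4 (.lc 3 11 (.conf [69,148] (.conf [96,166] (.lc 2 0 (.lc 2 0 (.lc 2 0 (.lc 2 0 (.lc 3 4 (.lc 3 10 (.lc 3 10 (.lc 3 11 (.lc 3 0 (.lc 3 0 (.lc 4 10 (.lc 4 4 (.lc 4 12 (.lc 3 0 (.lc 3 0 (.lc 3 0 (.lc 1 0 (.lc 3 0 (.lc 3 0 (.lc 3 0 (.lc 4 0 (.lc 4 0 .stop))))))))))))))))))))))))))))))))))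
 (.lc 0 4 (.lc 0 10 .stop))))))))
 (.lc 3 3 (.lc 2 3 (.lc 3 1 (.lc 3 9 (.lc 3 3 (.conf [118,135] (.lc 2 3 (.lc 3 3 (.lc 2 3 (.lc 3 1 (.lc 3 8 (.lc 3 8 (.lc 3 9 (.lc 4 3 (.lc 3 3 (.lc 4 10 (.lc 4 9 (.lc 4 8 (.lc 4 9 (.lc 4 1 (.lc 4 9 (.lc 5 10 .stop)))))))))))))))))))))))))
 (.lc 0 8 (.lc 0 8 (.lc 2 6 (.lc 0 9 .stop)))))
 (.conf [32,98] (.conf [55,96,118] (.conf [32,98] (.node [56,135,118,96] 3 8 (.node [135,88] 8 7 (.node [118,129] 8 1 .stop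
 (.node [69,118,132] 8 4 (.lc 0 3 .stop)
 (.node [118,137] 5 8 (.far [1,4112,4096,4112,1,257] 4096 (.lc 3 1 (.lc 3 10 (.lc 3 3 (.lc 1 7 (.lc 3 10 (.lc 4 11 .stop)))))))
 (.lc 2 6 (.lc 2 6 (.lc 2 6 (.lc 2 6 (.lc 0 3 (.lc 3 3 (.conf [69,132] (.conf [118,151] (.lc 2 6 (.lc 2 6 (.lc 2 6 (.lc 2 6 (.lc 2 6 (.lc 0 3 (.lc 2 6 (.lc 0 1 (.lc 0 9 (.lc 3 6 (.lc 3 6 (.lc 3 6 (.lc 0 10 (.lc 0 9 (.lc 0 10 (.lc 0 1 (.lc 0 10 (.lc 0 3 (.lc 3 6 (.lc 0 11 .stop)))))))))))))))))))))))))))))))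
 (.lc 0 9 (.lc 0 9 (.lc 2 7 (.lc 0 10 .stop)))))
 (.conf [32,98] .stop)))))))))))))))))))))))))))))))))))

theorem t41 : kNode2 awTt FTt 3 2 (check tyTt awTt triet FTt [s42] c41) (fun _ _ _ => true) 0 s41 Pl.nil s41 =
    true := by
  decide +kernel

end Chk
end Pool.Agent.Lib.MP_ba95e8_co
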