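import Pool.Agent.Lib.MP_ba95e8_co.ChkTab
import Pool.Agent.Lib.MP_ba95e8_co.ChkStates

/-!
Deltahedral domes: part 42 of the case analysis.
-/

namespace Pool.Agent.Lib.MP_ba95e8_co
namespace Chk

/-- certificate number 42 -/
def c42 : Cert := (.node [54] 0 3 (.far [1,1,4112,1,257] 4096 (.node [98,118,48] 0 7 (.node [118] 6 2 .stop
 (.far [4112,4112,256] 0 (.lc 2 6 (.conf [88,118,135] (.lc 0 0 (.lc 2 6 (.lc 2 6 (.lc 3 6 .stop))))))))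
 .stop))
 (.far [1,4112,1,257] 4096 (.node [54] 3 6 (.far [4112,1,4112,1,257] 4096 (.conf [98,112,50] (.conf [98,120,50] (.far [4112,1,4112,1,257] 4096 (.far [4112,1,4112,1,257] 4096 (.node [98,50] 0 6 .stop
 (.node [98,134,50] 8 6 (.node [98,128] 0 6 (.far [257,1,4112,1,4112,1,257] 4096 .stop)
 (.node [98,129] 1 6 .stop
 (.node [69,98,132] 4 6 .stop
 (.node [87,98,133] 5 6 .stop
 (.node [98,137] 6 2 (.node [146] 9 2 (.far [1,4096,1,4112,1,4112,1,257] 4096 (.node [87,149,80] 9 5 .stop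
 (.node [120,151,112] 9 7 .stop
 (.node [154,160] 8 9 (.far [1,4096,0,257,4112,1,4112,1,257] 4096 (.lc 3 6 (.conf [139,186] (.lc 3 6 (.lc 4 6 .stop)))))
 (.node [154,160,154] 8 9 (.node [129,154] 1 9 .stop
 (.node [69,132,154] 4 9 (.lc 1 0 .stop)
 (.node [87,133,154] 5 9 (.lc 1 0 .stop)
 (.lc 1 2 (.node [139,154] 7 8 (.node [123] 11 9 (.far [1,0,1,4112,256,256] 0 (.lc 1 0 (.lc 1 0 (.lc 1 0 (.lc 1 0 (.lc 1 0 (.lc 3 12 (.lc 2 0 (.lc 2 0 (.lc 2 0 .stop))))))))))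
 (.lc 1 9 (.lc 1 9 (.lc 1 9 (.lc 1 9 (.lc 3 3 (.lc 1 9 (.far [1,4112,0,4112,4096,1,0,256] 0 (.lc 2 9 (.lc 2 9 .stop))))))))))
 (.lc 2 2 (.lc 0 3 (.lc 3 6 (.lc 3 6 (.conf [69,132] (.conf [87,133] (.lc 2 2 (.conf [154,185] (.lc 2 2 (.lc 2 2 (.lc 2 2 (.lc 2 2 (.lc 3 6 (.lc 3 6 (.lc 3 6 (.lc 3 6 (.lc 3 6 (.lc 3 2 (.lc 3 2 (.lc 3 2 (.lc 4 6 (.lc 4 6 (.lc 4 6 (.lc 4 6 (.lc 4 6 (.lc 4 6 (.lc 4 6 (.lc 0 3 (.lc 4 6 (.lc 5 6 (.lc 5 6 .stop))))))))))))))))))))))))))))))))))))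
 (.far [1,4096,1,4112,1,4112,1,257] 4096 (.lc 0 8 (.node [155,186,160] 8 9 (.far [1,4096,0,257,4112,1,4112,1,257] 4096 (.lc 3 6 (.lc 1 10 (.lc 3 6 (.lc 4 6 .stop)))))
 .stop))))))))
 (.lc 0 0 (.lc 0 0 (.lc 0 10 (.node [144] 7 8 (.node [113,137] 1 8 .stop
 (.node [69,116,137] 4 8 (.lc 1 0 .stop)
 (.lc 2 3 (.node [122,137] 8 9 (.far [257,16,257,256,16,0,4096] 17 (.lc 2 0 (.lc 2 0 (.lc 2 0 (.lc 2 0 (.lc 0 11 (.lc 2 0 (.lc 3 0 (.lc 3 0 (.lc 3 0 .stop))))))))))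
 (.lc 3 3 (.lc 2 6 (.node [24,116,69] 1 8 .stop
 (.conf [137,168] (.conf [137,168] (.conf [137,168] (.conf [69,116] (.lc 3 3 (.conf [137,168] (.lc 2 6 (.lc 2 6 (.lc 3 3 (.lc 2 6 (.lc 2 6 (.lc 2 6 (.lc 2 6 (.lc 2 6 (.far [4112,257,16,256,16,1,16,4112] 1 (.node [69,116,137] 7 4 (.lc 0 3 .stop)
 (.node [122,137,161,87] 1 8 .stop
 (.node [69,122,137,164] 4 8 (.lc 1 0 .stop)
 (.node [123,137,186,87] 7 11 (.node [186] 8 9 (.far [4112,4112,1,0,4112,258,256] 0 (.lc 2 0 (.lc 2 0 (.lc 2 0 (.lc 0 12 (.lc 2 0 (.lc 3 0 (.lc 3 0 .stop))))))))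
 (.lc 0 1 (.lc 0 9 (.lc 0 12 (.lc 0 12 (.lc 0 3 (.lc 2 10 (.lc 0 13 .stop))))))))
 (.lc 3 6 (.lc 4 3 (.lc 3 6 (.far [4112,0,0,16,0,4112,0,256] 0 (.conf [26,168] (.conf [137,168] (.lc 3 6 (.lc 3 6 (.lc 3 6 (.lc 3 6 (.lc 3 6 (.lc 3 6 (.lc 3 6 (.lc 3 6 (.lc 3 6 (.lc 3 6 (.lc 3 6 (.lc 4 6 (.lc 4 6 (.lc 4 6 .stop))))))))))))))))))))))))))))))))))))))))))))))
 (.lc 0 10 .stop))))))
 (.conf [98,128] (.conf [98,137] (.conf [98,129] (.conf [98,132] (.conf [98,133] (.conf [98,137] (.conf [98,132] (.conf [70,98] (.conf [98,128] (.conf [98,129] (.conf [98,132] (.conf [98,133] (.conf [98,138] (.node [98,129] 8 1 (.node [132] 8 4 (.node [69,116] 7 4 (.lc 0 3 .stop)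
 (.far [4112,4096,0,1,0,257,0,4096] 0 .stop))
 (.lc 3 1 (.conf [137,148] (.lc 3 1 (.lc 4 1 .stop)))))
 (.conf [137,144] (.conf [69,132] (.conf [70,98] (.conf [98,150] (.conf [98,150] (.conf [98,128] (.far [257,4112,1,4096,1,257] 4096 (.node [87,98,133,32] 8 5 (.lc 0 3 .stop)
 (.node [98,137,120,32] 7 8 (.node [121] 9 2 (.far [1,1,1,4096,1,0,1,257] 4096 (.lc 3 5 (.lc 3 10 (.node [154,160] 7 9 (.node [113,154] 1 9 .stop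
 (.node [69,73,154] 4 9 (.lc 1 0 .stop)
 (.lc 2 3 (.lc 1 2 (.node [123,154] 9 10 (.node [160] 7 11 (.far [4112,0,4112,0,4112,0,256,256] 0 (.conf [81,115,186] (.conf [92,115,186] (.far [4112,0,4112,0,4112,0,256,256] 0 (.lc 0 3 (.node [186,203,160,92] 11 10 (.far [4112,4112,16,4112,4096,4096,4096,0,257,16,1,257] 4096 (.lc 2 0 (.lc 0 13 (.lc 3 0 .stop))))
 (.conf [93,115,186] .stop)))))))
 (.lc 2 0 (.lc 2 0 (.lc 2 0 (.lc 2 0 (.lc 0 12 (.lc 2 0 (.lc 3 0 (.lc 3 0 (.lc 3 0 .stop))))))))))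
 (.lc 3 3 (.lc 2 2 (.lc 0 3 (.lc 3 3 (.lc 3 3 (.far [16,0,4096,4096,0,0,16,0,256] 0 (.lc 3 3 (.lc 2 2 (.lc 3 3 (.conf [154,185] (.lc 2 2 (.lc 2 2 (.lc 3 3 (.lc 2 2 (.lc 3 3 (.lc 3 3 (.lc 3 3 (.lc 3 3 (.lc 3 2 (.lc 4 3 (.lc 3 2 (.lc 4 3 (.lc 4 3 (.lc 4 3 (.lc 4 3 (.lc 4 3 (.lc 0 3 (.lc 4 3 (.lc 5 3 .stop))))))))))))))))))))))))))))))))))
 (.lc 3 10 (.lc 4 11 .stop))))))
 (.lc 3 0 (.lc 3 1 (.lc 3 4 (.lc 3 10 (.lc 1 2 (.lc 3 3 (.lc 1 2 (.lc 3 0 (.lc 3 10 (.lc 4 1 (.lc 4 10 (.lc 4 4 (.lc 4 0 (.lc 4 11 .stop)))))))))))))))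
 (.conf [98,129] (.conf [98,137] (.conf [69,132] (.conf [98,137] (.conf [98,128] (.conf [87,133] (.conf [98,137] (.conf [98,128] (.conf [98,137] (.conf [98,128] (.conf [98,138] (.conf [98,137] (.conf [16,69] (.conf [98,137] (.conf [87,133] (.conf [98,138] (.conf [98,137] (.conf [70,98] (.conf [70,98] (.conf [98,129] (.conf [98,138] (.conf [69,132] (.conf [87,133] (.conf [98,128] (.conf [98,139] (.far [1,4112,1,4112,1,257] 4096 (.conf [98,146,32] (.far [1,4112,1,4112,1,257] 4096 (.node [87,98,133,80] 8 5 (.lc 0 3 .stop)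
 (.node [98,137,144,120] 7 8 (.far [16,256,16,0,4096] 17 (.lc 3 1 (.lc 3 4 (.lc 3 10 (.lc 3 3 (.conf [122,169] (.lc 3 10 (.lc 4 4 (.lc 4 11 .stop)))))))))
 (.node [98,138,169,120,144] 7 8 (.conf [122,169] (.lc 3 1 (.lc 3 4 (.lc 3 11 (.lc 3 3 (.lc 1 9 (.lc 3 11 (.lc 4 4 (.lc 4 12 .stop)))))))))
 .stop)))))))))))))))))))))))))))))))))))))))))))))))))))))))))))
 (.conf [98,120,50] (.conf [98,112,50] (.conf [98,121,50] .stop))))))))))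
 (.node [50,80,98,69] 5 0 (.node [] 4 5 (.lc 2 1 (.node [71,81] 5 1 (.far [4112,1,4096,0,0,257,257] 16 (.far [4112,1,4096,0,0,257,257] 16 .stop))
 (.lc 3 8 (.node [72,117,135,81] 7 5 (.node [113] 1 4 .stop
 (.lc 3 9 .stop))
 (.lc 3 8 (.lc 4 9 .stop))))))
 (.lc 3 7 (.node [113,20] 1 4 (.far [257,16,4096,4112,0,256] 4097 (.lc 2 5 (.lc 2 5 (.conf [69,120,132] (.lc 2 5 (.lc 3 5 .stop))))))
 (.lc 3 7 (.lc 4 8 .stop)))))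
 (.conf [50,87,118] (.node [87,112,69,54] 0 3 .stop
 (.conf [80,50,98,32] (.conf [87,50,98,32] (.conf [80,115,54] (.conf [88,115,54] (.node [54,112,87] 0 3 .stop
 (.node [98,50,69] 0 6 .stop
 (.node [98,118,50,69] 7 6 (.node [98,112,50,69] 0 6 (.far [257,1,1,4112,1,257] 4096 .stop)
 (.node [98,113,50,69] 1 6 .stop
 (.node [69,98,116,50] 4 6 .stop
 (.node [98,120,50,69] 6 2 (.node [130] 8 2 (.far [1,4096,1,1,4112,1,257] 4096 (.node [87,133,69,80] 8 5 .stop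
 (.node [137,144] 7 8 (.far [1,4096,0,257,1,4112,1,257] 4096 (.lc 3 5 (.conf [122,169] (.lc 3 5 (.lc 4 5 .stop)))))
 (.node [137,144,137] 7 8 (.node [113,137] 1 8 .stop
 (.node [69,116,137] 4 8 (.lc 1 0 .stop)
 (.lc 1 2 (.node [122,137] 5 7 (.node [90] 10 8 (.far [1,0,1,4112,256,256] 0 (.lc 1 0 (.lc 1 0 (.lc 1 0 (.lc 1 0 (.lc 3 11 (.lc 0 5 (.lc 2 0 .stop))))))))
 (.lc 1 8 (.lc 1 8 (.lc 1 8 (.lc 0 10 (.lc 1 8 (.far [1,4112,0,4112,4096,256,256] 0 (.lc 2 8 .stop))))))))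
 (.lc 2 2 (.lc 1 8 (.lc 3 5 (.lc 3 5 (.lc 0 5 (.lc 2 2 (.conf [137,168] (.lc 2 2 (.lc 2 2 (.lc 2 2 (.lc 3 5 (.lc 3 5 (.lc 3 5 (.lc 3 5 (.lc 0 5 (.lc 3 2 (.lc 4 5 (.lc 4 5 (.lc 4 5 (.lc 4 5 (.lc 4 5 (.lc 1 9 (.lc 4 5 (.lc 5 5 .stop))))))))))))))))))))))))))))
 (.far [1,4096,1,1,4112,1,257] 4096 (.node [138,169,144] 7 8 (.far [1,4096,0,257,1,4112,1,257] 4096 (.lc 3 5 (.lc 1 9 (.lc 3 5 (.lc 4 5 .stop)))))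
 .stop))))))
 (.lc 0 0 (.lc 0 0 (.lc 0 9 (.node [128] 5 7 (.node [81,120] 1 7 .stop
 (.lc 2 3 (.node [89,120] 7 8 (.far [257,16,257,256,4096,4096] 17 (.lc 2 0 (.lc 2 0 (.lc 2 0 (.lc 0 10 (.lc 2 0 (.lc 1 5 (.lc 3 0 .stop))))))))
 (.lc 0 8 (.lc 2 5 (.conf [120,151] (.conf [120,151] (.lc 0 9 (.conf [120,151] (.lc 2 5 (.lc 3 3 (.lc 2 5 (.lc 2 5 (.lc 2 5 (.lc 2 5 (.far [4112,257,16,4112,1,16,4112] 1 (.node [89,120,145,69] 1 7 .stop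
 (.node [90,120,169,69] 5 10 (.node [169,74] 7 8 (.far [4112,4112,1,0,4112,272,0,256] 0 (.lc 2 0 (.lc 2 0 (.lc 0 11 (.lc 2 0 (.lc 3 0 .stop))))))
 (.lc 0 8 (.lc 0 11 (.lc 0 11 (.lc 0 1 (.lc 2 9 (.lc 0 12 .stop)))))))
 (.lc 0 9 (.lc 3 5 (.conf [120,151] (.lc 3 5 (.lc 3 5 (.lc 3 5 (.lc 3 5 (.lc 3 5 (.lc 3 5 (.lc 4 5 .stop))))))))))))))))))))))))))))
 (.lc 0 9 .stop))))))
 (.conf [98,112] (.conf [98,120] (.conf [98,113] (.conf [98,116] (.conf [98,120] (.conf [98,116] (.conf [98,112] (.conf [98,113] (.conf [98,116] (.conf [98,121] (.node [98,113,50,69] 7 1 (.node [116,69] 7 4 (.lc 1 1 .stop)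
 (.lc 1 5 .stop))
 (.conf [120,128] (.lc 0 5 (.conf [98,134] (.conf [98,134] (.conf [98,112] (.conf [98,50,32] (.conf [98,50,32] (.conf [98,113] (.conf [98,120] (.lc 0 5 (.conf [98,120] (.conf [98,112] (.conf [98,120] (.conf [98,112] (.conf [98,121] (.conf [98,120] (.lc 1 0 (.conf [98,120] (.conf [98,121] (.lc 1 5 (.conf [98,113] (.conf [98,121] (.lc 0 5 (.conf [98,112] (.conf [98,122] (.conf [98,50,32] (.conf [98,130,32] (.conf [98,50,32] (.conf [98,50,32] (.conf [98,50,32] .stop)))))))))))))))))))))))))))))))))))))))))))))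
 (.node [54,115,54] 7 3 (.node [118,98] 0 7 (.far [257,1,1,4112,1,257] 4096 (.lc 1 2 .stop))
 (.lc 1 2 (.lc 1 2 (.lc 3 8 (.lc 2 2 .stop)))))
 (.node [54,115,135,54] 7 3 (.node [118,98] 8 7 (.node [118,128] 0 7 (.node [98] 8 0 (.node [129] 5 8 (.node [81] 5 1 (.lc 0 1 .stop)
 (.far [1,4112,1,4096,4112,256] 0 .stop))
 (.node [134] 8 6 .stop
 (.lc 3 0 (.conf [16,69] (.conf [137,145] (.lc 3 0 (.lc 3 0 (.lc 4 0 .stop))))))))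
 (.lc 1 2 (.lc 1 2 .stop)))
 (.node [118,129] 1 7 (.lc 1 2 .stop)
 (.node [69,118,132] 4 7 (.lc 1 2 .stop)
 (.node [118,137] 7 6 (.node [98] 5 8 (.node [80,137] 0 8 (.node [150] 5 0 (.node [81] 4 5 (.lc 2 1 .stop)
 (.node [89] 5 9 .stop
 (.lc 0 1 (.node [90,161,20,90] 4 5 (.far [1,4112,0,4112,0,0,0,4112,0,256] 0 (.lc 3 11 (.lc 1 1 (.lc 3 11 (.lc 4 12 .stop)))))
 (.lc 3 0 .stop)))))
 (.lc 1 6 (.lc 1 6 .stop)))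
 (.node [81,137] 1 8 (.lc 1 6 .stop)
 (.lc 2 3 (.node [90,137] 8 9 (.node [150] 5 10 (.node [80,169] 5 0 (.far [4112,4112,0,4112,0,0,0,4112,0,256] 0 (.far [4112,4112,0,4112,0,0,0,4112,0,256] 0 (.lc 0 1 .stop)))
 (.node [81,169] 5 1 (.lc 0 1 .stop)
 (.far [4112,0,4112,0,0,0,4112,0,256] 0 (.lc 1 5 (.node [91,169] 4 5 (.far [1,4112,0,4112,0,0,0,4112,0,256] 0 (.conf [64,83,186] (.conf [76,83,186] (.node [186,83,64] 0 11 (.far [257,1,4112,4112,4096,4112,4096,4096,0,4112,257,257] 4096 .stop)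
 (.lc 3 1 (.node [186,203,76,83] 11 10 (.node [169,176,203] 11 0 (.node [192] 0 10 .stop
 (.lc 0 1 (.lc 0 1 (.lc 0 13 (.far [257,257,16,258,257,513,0,257,0,257,0,4096] 4097 (.lc 0 13 .stop))))))
 (.node [169,177,203] 11 1 .stop
 (.lc 1 5 (.node [169,189,203] 12 11 (.node [205] 10 9 (.node [150] 13 9 (.node [98] 13 6 .stop
 .stop)
 (.conf [150,165,214] (.far [4112,0,1,0,1,256,256] 0 (.far [4112,0,1,0,1,256,256] 0 .stop))))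
 (.lc 3 0 (.lc 3 1 (.lc 3 14 (.lc 1 10 (.lc 1 10 (.lc 3 0 (.lc 3 14 (.lc 4 1 (.lc 4 14 (.lc 4 0 (.lc 4 15 .stop))))))))))))
 (.lc 2 5 (.lc 2 5 (.conf [181,192] (.conf [181,205] (.node [169,177,203] 11 1 .stop
 (.conf [189,208] (.node [169,176,218,203,169] 11 0 (.lc 0 1 .stop)
 (.conf [190,237] (.lc 2 5 (.lc 2 5 (.node [181,192,169] 0 10 (.far [1,1,0,1,256,256] 0 (.far [4096,0,0,0,16,0,4112,4096,4096,0,4096] 17 .stop))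
 (.node [181,193,169] 1 10 .stop
 (.lc 2 5 (.node [181,205,169] 4 12 (.node [77] 13 10 (.far [1,0,1,0,1,256,256] 0 (.lc 3 6 (.lc 3 0 (.lc 3 14 .stop))))
 (.lc 3 1 (.lc 1 10 (.lc 3 1 (.lc 1 10 (.lc 3 1 (.lc 0 0 (.lc 4 1 .stop))))))))
 (.node [181,193,20,169] 12 1 (.lc 0 1 .stop)
 (.node [181,205,208,169] 0 10 .stop
 (.conf [181,218,169] (.conf [181,218,169] (.lc 3 5 (.lc 3 5 (.lc 3 5 .stop)))))))))))))))))))))))))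
 (.far [1,4112,0,4112,0,0,0,4112,0,256] 0 (.far [1,4112,0,4112,0,0,0,4112,0,256] 0 (.conf [76,83,186] (.conf [64,83,186] (.conf [77,83,186] .stop)))))))))))
 (.lc 2 9 (.lc 2 9 (.lc 2 9 (.lc 2 9 (.lc 2 9 (.lc 2 9 (.lc 2 9 (.lc 2 9 (.lc 3 3 (.lc 0 1 (.lc 3 3 (.node [81,169] 5 1 (.lc 0 1 .stop)
 (.far [4112,0,4112,0,0,0,4112,0,256] 0 (.node [91,169,176,91,69] 0 10 (.node [169] 2 10 (.far [16,16,16,4096,4096] 0 .stop)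
 (.far [16,16,4112,4096,4096,4096] 0 .stop))
 (.node [80,169,186] 5 0 .stop
 (.far [4112,0,4112,0,0,0,4112,0,256] 0 (.node [169,186,203,92,69] 4 5 (.far [1,4112,0,4112,0,0,0,4112,0,256] 0 (.lc 3 0 (.lc 3 13 (.lc 1 11 (.lc 3 1 (.lc 1 11 (.lc 3 0 (.lc 3 13 (.lc 4 13 (.lc 4 0 (.lc 4 14 .stop)))))))))))
 (.lc 2 9 (.lc 2 9 (.lc 2 9 (.lc 0 1 (.lc 2 9 (.lc 2 9 (.lc 2 9 (.lc 2 9 (.lc 3 3 (.lc 0 1 (.lc 3 3 (.lc 3 3 (.lc 3 3 (.lc 3 3 (.lc 3 9 (.lc 3 9 (.lc 3 9 (.lc 3 9 (.lc 3 9 (.lc 3 9 (.lc 3 9 (.lc 3 9 (.lc 3 9 (.lc 4 3 (.lc 4 3 (.lc 4 3 (.lc 4 3 (.lc 4 3 (.lc 4 3 (.lc 4 3 (.lc 4 3 (.lc 4 3 (.lc 0 1 (.lc 4 3 (.lc 4 3 (.lc 0 1 (.lc 4 3 (.lc 5 3 (.lc 5 3 (.lc 5 3 (.lc 5 3 .stop)))))))))))))))))))))))))))))))))))))))))))))))))))))))))))))))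
 (.lc 2 6 (.lc 2 6 (.lc 2 6 (.lc 2 6 (.lc 0 0 (.lc 0 11 (.lc 2 6 (.lc 2 6 (.lc 3 6 (.lc 3 6 (.lc 3 6 (.lc 3 6 (.lc 3 6 .stop))))))))))))))
 (.lc 2 5 (.lc 3 3 (.lc 2 5 (.node [81,137,69] 5 1 (.lc 0 1 .stop)
 (.node [90,137,160,69] 0 8 .stop
 (.conf [137,168] (.conf [137,168] (.conf [137,168] (.node [81,137] 5 1 (.lc 0 1 .stop)
 (.lc 3 3 (.conf [90,160] (.conf [137,168] (.lc 3 3 (.conf [137,168] (.lc 2 5 (.lc 2 5 (.lc 3 3 (.lc 2 5 (.lc 2 5 (.lc 2 5 (.lc 2 5 (.lc 2 5 (.node [81,137,20] 5 1 (.lc 0 1 .stop)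
 (.node [90,137,160,69] 0 8 (.far [1,1,4112,4096,4112,256] 0 (.lc 1 6 (.lc 1 6 .stop)))
 (.node [90,137,161,69] 1 8 (.lc 1 6 .stop)
 (.far [257,4112,1,4096,257,4112,1,257] 4096 (.node [80,137,69] 5 0 .stop
 (.node [91,137,186,69] 5 11 (.node [186] 8 9 (.far [4112,0,1,4112,4096,4112,256] 0 (.lc 2 6 (.lc 2 6 (.lc 2 6 (.lc 0 0 (.lc 0 12 (.lc 2 6 (.lc 2 6 (.lc 3 6 (.lc 3 6 (.lc 3 6 (.lc 3 6 .stop))))))))))))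
 (.lc 0 0 (.lc 0 9 (.lc 0 12 (.lc 0 0 (.lc 0 12 (.lc 2 10 (.lc 0 1 (.lc 2 10 (.lc 0 12 (.lc 0 0 (.lc 0 13 .stop))))))))))))
 (.lc 3 5 (.lc 4 3 (.lc 3 5 (.lc 3 5 (.lc 4 3 (.lc 3 5 (.node [90,137,161,20] 5 10 (.node [161] 1 4 .stop
 (.lc 0 9 (.lc 0 11 (.lc 0 11 (.lc 2 1 (.lc 0 12 .stop))))))
 (.node [91,137,186,69,160] 0 8 .stop
 (.conf [137,168] (.conf [137,168] (.conf [137,168] (.conf [137,168] (.lc 3 5 (.lc 3 5 (.lc 3 5 (.lc 3 5 (.lc 3 5 (.lc 3 5 (.lc 3 5 (.lc 3 5 (.lc 3 5 (.lc 3 5 (.lc 3 5 (.lc 3 5 (.lc 3 5 (.lc 3 5 (.lc 3 5 (.lc 4 5 (.lc 4 5 (.lc 4 5 (.lc 4 5 (.lc 4 5 (.lc 4 5 .stop)))))))))))))))))))))))))))))))))))))))))))))))))))))))))))))))))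
 (.lc 2 2 (.lc 2 2 (.lc 2 2 (.lc 2 2 (.lc 0 0 (.lc 0 10 (.lc 2 2 (.lc 2 2 (.lc 3 2 (.lc 3 2 (.lc 3 2 (.lc 3 2 (.lc 3 2 .stop))))))))))))))
 (.conf [115,128] (.conf [115,137] (.conf [118,129] (.conf [118,132] (.conf [118,137] (.conf [118,132] (.conf [118,128] (.conf [118,129] (.conf [118,132] (.conf [118,138] (.node [118,129] 8 1 (.node [132] 8 4 (.lc 0 3 .stop)
 (.conf [137,148] .stop))
 (.conf [137,144] (.conf [69,132] (.conf [118,151] (.conf [118,151] (.lc 1 2 (.lc 1 2 (.lc 1 2 (.lc 1 2 (.node [115,128,88,98] 8 0 (.node [80] 0 6 (.lc 1 0 (.far [257,16,1] 0 (.lc 0 0 .stop)))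
 (.lc 0 1 (.lc 0 1 (.lc 0 9 (.far [257,256,257,4096] 4097 (.lc 0 9 .stop))))))
 (.node [115,129,88,98] 8 1 .stop
 (.lc 1 2 (.node [69,115,132,70] 8 4 (.lc 0 3 .stop)
 (.node [115,137,88,98] 5 8 (.node [89] 9 6 (.node [98,144] 0 6 (.far [1,1,0,257,256,0,256] 0 .stop)
 (.node [98,145] 1 6 .stop
 (.lc 1 2 (.node [69,70] 4 6 .stop
 (.lc 2 5 (.node [98,154] 6 2 (.far [4112,1,0,257,256,0,256] 0 (.far [4096,1,1,1,0,257,0,1,257] 4096 (.far [4112,1,0,257,256,0,256] 0 (.far [4112,1,0,257,256,0,256] 0 (.far [4112,1,1,1,0,257,16,1,257] 4096 (.far [4112,1,1,1,0,257,16,1,257] 4096 .stop))))))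
 (.lc 2 2 (.lc 2 2 (.lc 3 1 (.lc 3 4 (.lc 3 10 (.lc 3 4 (.lc 2 2 (.lc 3 0 (.lc 3 1 (.lc 3 4 (.lc 3 11 (.node [98,145] 9 1 (.node [148] 5 9 (.lc 2 3 .stop)
 (.node [69,164,16] 5 9 (.node [164] 4 5 .stop
 (.lc 1 4 .stop))
 (.lc 1 1 .stop)))
 (.node [98,154,160] 0 6 (.node [] 5 9 (.node [81,154] 1 9 .stop
 (.lc 2 3 (.lc 1 5 (.node [91,154] 9 10 (.node [160] 5 11 (.far [4112,0,4112,0,0,4112,0,0,4112,0,256] 0 (.conf [76,83,186] (.far [4112,0,4112,0,0,4112,0,0,4112,0,256] 0 (.lc 0 1 (.node [186,203,160,76] 11 10 (.far [4112,4112,4128,4096,258,8192,0,0,0,0,16,257,257] 4096 (.lc 0 13 .stop))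
 (.conf [77,83,186] .stop))))))
 (.lc 2 0 (.lc 2 0 (.lc 2 0 (.lc 0 12 (.lc 2 0 (.lc 3 0 (.lc 3 0 .stop))))))))
 (.lc 3 3 (.lc 2 5 (.lc 0 1 (.lc 3 3 (.lc 3 3 (.lc 3 3 (.lc 2 5 (.lc 3 3 (.conf [154,185] (.lc 2 5 (.lc 3 3 (.lc 2 5 (.lc 3 3 (.lc 3 3 (.lc 3 3 (.lc 4 3 (.lc 3 5 (.lc 4 3 (.lc 4 3 (.lc 4 3 (.lc 4 3 (.lc 0 1 (.lc 4 3 (.lc 5 3 .stop))))))))))))))))))))))))))))
 .stop)
 (.node [22,69] 1 6 .stop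
 (.lc 2 2 (.lc 0 3 (.node [98,144,166,98] 9 0 (.node [145] 5 9 (.node [81] 5 1 (.lc 0 1 .stop)
 (.lc 0 1 .stop))
 (.lc 3 0 (.conf [16,69] (.node [155,177,20,155] 5 9 (.node [177] 5 11 (.far [4112,4112,0,0,4112,0,0,4112,0,256] 0 (.conf [177,203] .stop))
 (.lc 3 3 (.lc 3 3 (.lc 1 1 (.lc 3 3 (.lc 4 3 .stop))))))
 .stop))))
 (.node [98,166,186,98] 10 6 (.node [162] 10 2 (.node [160,186] 11 10 (.far [1,4096,1,1,1,1,0,257,16,1,257] 4096 (.lc 3 1 (.lc 3 4 (.lc 3 12 (.far [16,256,16,16,16,16,0,4112,1,16,4112] 1 (.conf [188,192] (.lc 3 1 (.lc 3 12 (.lc 4 4 (.lc 4 12 (.lc 4 13 .stop)))))))))))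
 (.conf [162,176] (.conf [172,192] (.far [1,257,1,1,1,0,257,0,1,257] 4096 (.far [4096,1,1,1,1,0,257,16,1,257] 4096 .stop)))))
 (.lc 3 0 (.node [160] 5 9 (.node [81,155] 1 9 .stop
 (.lc 2 3 (.lc 1 5 (.node [92,155] 9 11 (.far [257,16,16,256,4096,4096,4096,0,4096] 17 (.lc 2 10 (.lc 2 10 (.lc 2 10 (.lc 0 13 (.lc 2 10 (.lc 3 10 (.lc 3 10 .stop))))))))
 (.lc 3 3 (.lc 2 5 (.lc 0 1 (.lc 3 3 (.lc 3 3 (.lc 3 3 (.lc 2 5 (.lc 3 3 (.conf [155,201] (.lc 2 5 (.lc 3 3 (.lc 2 5 (.lc 3 3 (.lc 3 3 (.lc 3 3 (.lc 4 3 (.lc 3 5 (.lc 4 3 (.lc 4 3 (.lc 4 3 (.lc 4 3 (.lc 0 1 (.lc 4 3 (.lc 5 3 .stop))))))))))))))))))))))))))))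
 (.lc 3 0 (.lc 3 12 (.lc 4 12 .stop))))))
 (.lc 2 2 (.lc 2 2 (.lc 2 2 (.lc 3 1 (.lc 3 10 (.lc 3 4 (.lc 3 10 (.lc 2 2 (.lc 2 2 (.lc 3 0 (.lc 3 10 (.lc 3 0 (.lc 3 11 (.lc 3 2 (.lc 4 4 (.lc 4 10 (.lc 4 11 (.lc 4 10 (.lc 3 2 (.lc 4 1 (.lc 4 11 (.lc 4 4 (.lc 4 0 (.lc 4 12 (.lc 3 2 (.lc 3 2 (.lc 3 2 (.lc 3 2 (.lc 4 2 .stop)))))))))))))))))))))))))))))))))))))))))))))))))))))
 (.lc 3 0 (.lc 3 1 (.lc 3 10 (.lc 1 6 (.lc 3 3 (.lc 1 6 (.lc 3 0 (.lc 3 10 (.lc 4 1 (.lc 4 10 (.lc 4 0 (.lc 4 11 .stop)))))))))))))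
 (.conf [118,129] (.conf [118,137] (.conf [69,132] (.conf [118,137] (.conf [118,128] (.conf [118,128] (.conf [118,137] (.conf [118,128] (.conf [118,138] (.lc 2 2 (.lc 2 2 (.lc 2 2 (.lc 2 2 (.lc 2 2 (.conf [16,69] (.conf [118,137] (.conf [118,138] (.conf [118,137] (.conf [118,129] (.conf [118,138] (.conf [69,132] (.conf [118,128] (.conf [118,139] (.node [115,129,88,20,98] 8 1 .stop
 (.node [115,137,144,88,98] 0 6 (.lc 1 0 .stop)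
 (.conf [69,132] (.lc 2 2 (.conf [115,150,98] (.conf [115,150,98] (.lc 2 2 (.lc 2 2 (.lc 2 2 (.lc 2 2 (.lc 2 2 (.lc 2 2 (.lc 2 2 (.lc 2 2 (.lc 2 2 (.lc 2 2 (.lc 2 2 (.lc 2 2 (.lc 2 2 (.lc 2 2 (.lc 2 2 (.lc 2 2 (.lc 3 2 (.lc 3 2 (.lc 3 2 (.lc 3 2 (.lc 3 2 (.lc 3 2 (.lc 3 2 (.lc 3 2 (.lc 3 2 .stop))))))))))))))))))))))))))))))))))))))))))))))))))))))))))))))))))))))))))))))))))
 (.lc 1 2 (.lc 1 2 (.lc 1 2 (.lc 1 2 (.lc 3 0 (.lc 3 9 (.lc 2 2 (.lc 2 2 (.lc 2 2 .stop))))))))))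
 (.node [50,80,98,69] 0 6 (.node [70,98] 4 6 .stop
 (.node [98] 5 0 (.far [1,0,257,0,1,257] 16 (.far [1,4112,256] 0 (.lc 3 8 (.lc 3 8 (.node [7,129,20] 1 4 (.far [4112,1,0,257,0,1,1] 16 (.lc 2 5 (.lc 2 5 (.conf [116,135] (.conf [69,137,148] (.lc 2 5 (.lc 2 5 (.lc 3 5 (.lc 3 5 (.lc 3 5 .stop))))))))))
 (.lc 0 7 (.node [118,135] 7 6 (.far [1,0,1,1,16,1,257] 4096 (.lc 3 0 .stop))
 (.lc 3 8 (.lc 3 8 (.lc 4 9 (.lc 4 9 .stop)))))))))))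
 (.conf [98,118] .stop)))
 (.node [50,87,98,69] 7 6 (.node [98,112] 0 6 (.far [257,1,1,0,1,257] 4096 .stop)
 (.node [98,113] 1 6 .stop
 (.node [98,116] 4 6 .stop
 (.node [98,120] 6 2 (.far [4112,1,1,16,1,257] 4096 (.lc 0 0 (.lc 0 0 (.lc 0 9 (.far [4112,1,1,16,1,257] 4096 (.lc 0 9 .stop))))))
 (.lc 2 2 (.lc 2 2 (.far [257,1,0,1,257] 16 (.node [98,116,64] 4 0 (.lc 0 0 .stop)
 (.node [98,120,128] 0 6 (.node [] 5 7 (.node [120] 1 7 .stop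
 (.lc 2 3 (.node [120] 7 8 (.far [4112,1,1,4096,257,256] 0 (.lc 0 1 (.lc 0 4 (.lc 0 10 (.lc 0 10 (.node [128,168] 10 8 (.node [128,161] 1 8 (.far [256,0,0,0,0,257,1,0,1,257] 16 .stop)
 (.node [128,164] 4 8 .stop
 (.node [128,171] 8 0 (.lc 0 1 .stop)
 (.lc 2 0 (.lc 3 4 (.lc 1 8 (.lc 3 1 (.lc 3 4 (.lc 3 12 (.conf [69,164] (.conf [128,184] (.lc 2 0 (.lc 3 4 (.lc 3 11 (.lc 3 11 (.lc 3 12 (.lc 4 11 (.lc 4 4 (.lc 4 13 (.lc 1 0 (.lc 3 0 .stop)))))))))))))))))))))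
 (.lc 0 4 (.lc 0 11 .stop))))))))
 (.lc 0 8 (.lc 2 5 (.lc 3 1 (.lc 3 10 (.lc 0 9 (.conf [120,151] (.lc 2 5 (.lc 3 3 (.lc 2 5 (.lc 3 1 (.lc 3 9 (.lc 3 9 (.lc 3 10 (.lc 0 9 (.lc 3 5 (.lc 4 11 (.lc 4 10 (.lc 4 9 (.lc 4 10 (.lc 4 1 (.lc 4 10 (.lc 5 11 .stop)))))))))))))))))))))))))
 .stop)
 (.far [257,1,0,1,1] 4096 (.conf [98,134] (.conf [98,134] (.conf [98,134] (.conf [98,134] (.node [98,113] 7 1 (.node [69] 6 2 (.node [] 5 7 (.lc 0 1 (.node [116] 7 4 (.far [4112,1,0,4112,4112,256] 4097 (.far [4112,1,0,4112,4112,256] 4097 .stop))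
 (.lc 3 9 (.node [116,135,152,116] 7 4 (.node [132] 4 5 .stop
 (.lc 0 10 .stop))
 (.lc 3 9 (.lc 4 10 .stop))))))
 .stop)
 (.lc 3 8 (.node [69,132] 8 4 (.far [16,16,4112,16,0,256] 4097 (.lc 1 7 (.lc 1 7 (.lc 3 9 (.lc 2 7 .stop)))))
 (.lc 3 8 (.lc 4 9 .stop)))))
 (.conf [120,128] (.conf [69,116] (.conf [98,134] (.conf [98,134] (.lc 2 2 (.lc 2 2 (.lc 2 2 (.far [257,1,0,1,257] 16 (.node [98,120,128] 0 6 (.far [257,1,1,0,1,257] 4096 .stop)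
 (.far [257,1,0,1,1] 4096 (.node [98,120,129] 1 6 .stop
 (.node [70,98,112] 4 6 .stop
 (.node [98,120,132] 4 6 .stop
 (.node [98,112] 7 0 (.node [113] 5 7 (.far [1,4096,0,257,0,1,257] 16 (.lc 3 9 .stop))
 (.lc 3 0 (.lc 1 0 (.conf [121,145] (.lc 0 1 (.lc 0 9 .stop))))))
 (.node [98,121,152] 8 6 (.far [1,1,1,16,1,257] 4096 (.lc 3 0 (.far [1,1,1,16,1,257] 4096 (.lc 3 0 (.lc 3 10 (.lc 4 10 .stop))))))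
 (.lc 3 2 (.lc 1 0 (.node [98,120,129,20] 1 4 (.node [132] 6 2 (.far [4112,257,4096,0,16,0,256] 0 .stop)
 (.lc 2 5 (.lc 2 1 (.lc 0 9 (.lc 2 5 (.lc 3 5 .stop))))))
 (.node [98,121,152,128] 0 6 (.node [] 5 7 (.node [121] 1 7 .stop
 (.lc 2 3 (.node [121] 7 9 (.far [4112,1,1,8208,256,256] 0 (.lc 2 8 (.lc 2 8 (.lc 2 8 (.lc 0 11 (.lc 2 8 (.lc 3 8 (.lc 3 8 .stop))))))))
 (.lc 0 9 (.lc 2 5 (.lc 3 1 (.lc 3 11 (.lc 0 10 (.conf [121,167] (.lc 2 5 (.lc 3 3 (.lc 2 5 (.lc 3 1 (.lc 3 10 (.lc 3 10 (.lc 3 11 (.lc 0 10 (.lc 3 5 (.lc 4 12 (.lc 4 11 (.lc 4 10 (.lc 4 11 (.lc 4 1 (.lc 4 11 (.lc 5 12 .stop)))))))))))))))))))))))))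
 .stop)
 (.node [22,69,120] 1 6 .stop
 (.conf [98,134] (.conf [98,134] (.conf [24,134] (.conf [98,134] (.conf [98,134] (.lc 3 2 (.lc 3 2 (.lc 3 2 (.lc 3 2 (.lc 4 2 .stop)))))))))))))))))))))))))))))))))))))))))))))
 (.node [50,80,98,69] 5 0 (.node [81] 4 5 (.lc 2 1 .stop)
 (.node [87] 0 6 (.lc 1 0 (.far [257,16,1] 0 (.lc 2 2 (.lc 2 2 (.node [120,134] 5 7 (.far [4112,0,4112,4096,4112,257,257] 4096 (.lc 0 8 (.lc 0 9 (.lc 2 0 (.lc 0 9 .stop)))))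
 (.lc 2 2 (.lc 3 2 .stop)))))))
 (.conf [87,113] (.lc 1 0 (.lc 3 0 (.conf [87,113] (.conf [88,135] (.node [87] 4 5 (.node [71] 1 4 (.lc 1 1 .stop)
 (.lc 3 8 (.lc 1 1 (.lc 3 8 (.lc 4 9 .stop)))))
 (.lc 1 0 (.lc 0 7 (.conf [88,135] (.lc 0 8 .stop))))))))))))
 (.node [50,87,98,69] 4 5 (.node [64,87] 0 5 (.far [1,1,4096,4112,257,257] 4096 (.node [118] 2 7 .stop
 (.node [118,135] 0 8 (.node [135] 2 8 (.node [135] 8 7 .stop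
 (.lc 0 9 (.lc 0 2 .stop)))
 (.far [4112,4112,256] 0 (.lc 2 7 (.lc 1 8 (.lc 1 8 (.lc 2 7 (.lc 2 7 (.lc 1 9 .stop))))))))
 .stop)))
 (.lc 2 1 (.node [72,87] 5 7 (.far [4112,1,4096,4112,257,257] 4096 (.lc 0 0 (.lc 0 1 (.lc 0 9 (.lc 0 0 (.lc 0 9 (.node [118] 0 7 (.far [257,4112,1,4096,4112,257,257] 4096 (.lc 1 2 .stop))
 (.node [118,151] 7 6 (.node [112] 7 0 (.far [257,257,257,16,513,0,4096] 0 (.lc 0 1 (.lc 0 1 (.lc 0 10 (.far [257,257,257,16,513,0,4096] 4097 (.lc 0 10 .stop))))))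
 (.node [113] 7 1 .stop
 (.lc 1 2 (.node [122] 9 7 (.far [16,257,257,16,513,0,4096] 0 (.lc 3 0 (.lc 3 1 (.lc 3 11 (.lc 1 6 (.lc 1 6 (.lc 3 0 (.lc 3 11 (.lc 4 1 (.lc 4 11 (.lc 4 0 (.lc 4 12 .stop))))))))))))
 (.lc 2 2 (.lc 2 2 (.lc 2 2 (.lc 2 2 (.lc 2 2 (.lc 3 5 (.lc 3 5 (.node [113] 7 1 .stop
 (.conf [122,160] (.lc 2 2 (.node [112,166] 7 0 (.lc 0 1 .stop)
 (.conf [123,186] (.lc 2 2 (.lc 2 2 (.lc 2 2 (.lc 2 2 (.lc 2 2 (.lc 2 2 (.lc 2 2 (.lc 2 2 (.lc 2 2 (.lc 3 5 (.lc 3 5 (.lc 2 2 (.lc 3 5 (.lc 3 2 (.lc 3 2 (.lc 3 2 (.lc 3 2 (.lc 3 2 (.lc 3 2 (.lc 4 5 (.lc 4 5 (.lc 3 2 (.lc 4 5 (.lc 4 5 (.lc 3 2 (.lc 3 2 (.lc 3 2 (.lc 3 2 (.lc 3 2 (.lc 3 2 (.lc 3 2 (.lc 3 2 (.lc 3 2 (.lc 3 2 (.lc 3 2 (.lc 3 2 (.lc 3 2 (.lc 3 2 (.lc 3 2 (.lc 4 2 (.lc 4 2 (.lc 4 2 (.lc 4 2 (.lc 4 2 (.lc 4 2 .stop)))))))))))))))))))))))))))))))))))))))))))))))))))))))))))))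
 (.lc 0 1 (.lc 0 9 (.lc 0 0 (.lc 0 10 .stop))))))))))))
 (.lc 2 3 (.lc 3 1 (.lc 2 3 (.lc 3 8 (.lc 3 0 (.lc 3 9 (.lc 0 0 (.node [72,87,128] 0 5 .stop
 (.conf [87,133] (.lc 3 1 (.conf [87,133] (.lc 2 3 (.lc 3 1 (.lc 2 3 (.lc 3 0 (.lc 3 8 (.lc 3 8 (.lc 3 0 (.lc 3 9 (.lc 0 0 (.lc 3 3 (.lc 3 3 (.lc 4 1 (.lc 3 3 (.lc 4 9 (.lc 4 9 (.lc 4 0 (.lc 4 10 (.lc 4 8 (.lc 4 0 (.lc 4 9 (.lc 4 8 (.lc 4 0 (.lc 4 9 (.lc 4 8 (.lc 4 0 (.lc 4 9 (.lc 5 9 (.lc 5 9 (.lc 5 0 (.lc 5 10 .stop))))))))))))))))))))))))))))))))))))))))))))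
 (.node [87,112,69,54] 0 3 (.far [1,1,4112,1,257] 4096 (.node [98,134,48] 7 0 (.far [1,0,257,0,1,257] 16 (.far [1,4096,257,4112,1,257] 4096 (.lc 1 0 (.lc 3 9 (.lc 3 4 (.lc 3 9 (.lc 1 0 (.node [121,145,20,121,87] 1 4 (.lc 0 4 (.lc 2 5 (.lc 2 5 (.conf [69,154,164] (.lc 2 5 (.lc 3 5 .stop))))))
 (.lc 1 6 (.lc 1 0 (.lc 3 9 (.lc 3 9 (.lc 2 0 (.lc 4 10 (.lc 4 10 .stop)))))))))))))))
 .stop))
 (.far [1,4112,1,257] 4096 (.far [1,4112,1,257] 4096 (.node [80,69,54] 5 0 (.node [81] 4 5 (.lc 2 1 .stop)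
 (.lc 1 0 (.conf [86,97] (.conf [88,129] .stop))))
 (.node [88,135,69,54] 7 3 (.far [1,1,4112,1,257] 4096 (.lc 3 0 (.lc 3 9 (.node [98,50] 0 6 .stop
 (.node [98,150,50] 9 6 (.node [98,144] 0 6 (.far [257,1,1,1,4112,1,257] 4096 .stop)
 (.node [98,145] 1 6 .stop
 (.node [98,148] 4 6 .stop
 (.node [98,135,152,88] 8 6 .stop
 (.node [98,154] 6 2 (.node [162] 10 2 (.far [1,4096,1,1,1,4112,1,257] 4096 (.node [167,112] 10 7 .stop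
 (.node [135,168,88,128] 10 8 .stop
 (.node [171,176] 9 10 (.far [1,4096,0,257,1,1,4112,1,257] 4096 (.lc 3 6 (.conf [156,203] (.lc 0 11 (.lc 0 12 .stop)))))
 (.node [171,176,171] 9 10 (.node [145,171] 1 10 .stop
 (.node [148,171] 4 10 (.lc 1 0 .stop)
 (.node [135,152,171,88] 8 10 .stop
 (.lc 1 2 (.node [156,171] 7 9 (.node [124] 12 10 (.far [1,0,1,4112,256,256] 0 (.lc 1 0 (.lc 1 0 (.lc 1 0 (.lc 1 0 (.lc 1 0 (.lc 3 13 (.lc 2 0 (.lc 2 0 .stop)))))))))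
 (.lc 3 1 (.lc 3 4 (.lc 3 11 (.lc 3 13 (.lc 3 3 (.lc 1 10 (.lc 3 13 (.lc 4 4 (.lc 4 14 .stop))))))))))
 (.lc 2 2 (.lc 0 3 (.lc 3 6 (.lc 3 6 (.conf [69,148] (.lc 2 2 (.conf [171,202] (.lc 2 2 (.lc 2 2 (.lc 2 2 (.lc 2 2 (.lc 3 6 (.lc 0 1 (.lc 0 4 (.lc 0 11 (.lc 0 12 (.lc 3 2 (.lc 3 2 (.lc 0 4 (.lc 0 12 (.lc 0 13 (.lc 0 12 (.lc 0 1 (.lc 0 4 (.lc 0 12 (.lc 0 3 (.lc 4 6 (.lc 0 4 (.lc 0 13 .stop))))))))))))))))))))))))))))))))))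
 (.far [1,4096,1,1,1,4112,1,257] 4096 (.lc 0 9 (.node [172,203,176] 9 10 (.far [1,4096,0,257,1,1,4112,1,257] 4096 (.lc 3 6 (.lc 1 11 (.lc 0 12 (.lc 0 13 .stop)))))
 .stop))))))))
 (.lc 0 0 (.lc 0 0 (.lc 0 11 (.node [160] 7 9 (.node [113,154] 1 9 .stop
 (.node [116,154] 4 9 (.lc 1 0 .stop)
 (.lc 2 3 (.node [123,154] 9 10 (.far [257,16,257,256,4096,0,4096] 17 (.lc 2 0 (.lc 2 0 (.lc 2 0 (.lc 2 0 (.lc 0 12 (.lc 2 0 (.lc 3 0 (.lc 3 0 .stop)))))))))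
 (.lc 3 3 (.lc 2 6 (.lc 3 4 (.lc 3 1 (.lc 3 4 (.lc 3 12 (.conf [69,116] (.lc 3 3 (.conf [154,185] (.lc 2 6 (.lc 2 6 (.lc 3 3 (.lc 2 6 (.lc 3 0 (.lc 3 1 (.lc 3 4 (.lc 3 11 (.lc 3 1 (.lc 3 4 (.lc 3 11 (.lc 3 11 (.lc 3 12 (.lc 3 6 (.lc 4 3 (.lc 3 6 (.lc 4 11 (.lc 4 4 (.lc 4 13 (.lc 4 1 (.lc 4 4 (.lc 4 12 (.lc 4 4 (.lc 4 11 (.lc 4 11 (.lc 4 12 (.lc 4 4 (.lc 4 1 (.lc 4 4 (.lc 4 12 (.lc 5 11 (.lc 5 4 (.lc 5 13 .stop))))))))))))))))))))))))))))))))))))))))))))))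
 (.lc 0 11 .stop))))))
 (.conf [98,144] (.conf [98,154] (.conf [98,145] (.conf [98,148] (.conf [98,152] (.conf [98,154] (.conf [98,148] (.lc 1 6 (.conf [98,144] (.conf [98,145] (.conf [98,148] (.conf [98,152] (.conf [98,155] (.node [98,145] 9 1 (.node [148] 9 4 (.node [116] 7 4 .stop
 (.lc 0 10 .stop))
 (.lc 3 1 (.conf [154,164] (.lc 0 4 (.lc 0 10 .stop)))))
 (.conf [154,160] (.conf [69,148] (.conf [98,166] (.conf [98,166] (.conf [98,144] (.far [257,1,1,4096,1,257] 4096 (.conf [130,152] (.node [98,154,32] 7 9 (.node [122] 10 2 (.far [1,1,1,257,1,0,1,257] 4096 (.lc 3 8 (.lc 3 11 (.node [171,176] 7 10 (.node [113,171] 7 1 (.lc 0 4 .stop)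
 (.node [116,171] 7 4 .stop
 (.lc 2 3 (.lc 1 2 (.node [124,171] 10 11 (.node [176] 7 12 (.far [4112,4112,4096,4096,0,0,0,257,0,1,257] 4096 (.lc 0 1 (.lc 0 4 (.lc 0 13 (.lc 0 13 (.lc 2 11 (.lc 0 4 (.lc 0 14 .stop))))))))
 (.lc 2 0 (.lc 2 0 (.lc 2 0 (.lc 2 0 (.lc 0 13 (.lc 2 0 (.lc 3 0 (.lc 3 0 .stop)))))))))
 (.lc 3 3 (.lc 2 2 (.lc 3 3 (.lc 3 3 (.conf [69,116] (.lc 3 3 (.lc 2 2 (.lc 3 3 (.conf [171,202] (.lc 2 2 (.lc 2 2 (.lc 3 3 (.lc 2 2 (.lc 3 3 (.lc 3 3 (.lc 3 3 (.lc 3 3 (.lc 3 3 (.lc 3 2 (.lc 4 3 (.lc 3 2 (.lc 4 3 (.lc 4 3 (.lc 4 3 (.lc 4 3 (.lc 4 3 (.lc 4 3 (.lc 4 3 (.lc 4 3 (.lc 5 3 (.lc 5 3 .stop))))))))))))))))))))))))))))))))))))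
 (.lc 3 11 (.lc 4 12 .stop))))))
 (.lc 3 0 (.lc 3 1 (.lc 3 4 (.lc 3 11 (.lc 1 2 (.lc 3 3 (.lc 1 2 (.lc 3 0 (.lc 3 11 (.lc 4 1 (.lc 4 11 (.lc 4 4 (.lc 4 0 (.lc 4 12 .stop)))))))))))))))
 (.conf [98,145] (.conf [98,154] (.conf [69,148] (.conf [98,154] (.conf [98,144] (.conf [98,154] (.conf [86,135] (.conf [98,144] (.conf [98,154] (.conf [98,144] (.conf [98,155] (.conf [98,154] (.lc 1 0 (.conf [98,154] (.conf [98,155] (.conf [98,154] (.lc 2 6 (.conf [98,145] (.conf [98,155] (.conf [69,148] (.conf [98,144] (.conf [98,156] (.far [1,1,1,4112,1,257] 4096 (.conf [98,162,32] (.far [1,1,1,4112,1,257] 4096 (.conf [128,152] (.node [98,154,160] 7 9 (.far [16,256,4096,0,4096] 17 (.lc 3 1 (.lc 3 4 (.lc 3 11 (.lc 3 3 (.conf [123,186] (.lc 3 11 (.lc 4 4 (.lc 4 12 .stop)))))))))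
 (.node [98,155,186,160] 7 9 (.conf [123,186] (.lc 3 1 (.lc 3 4 (.lc 3 12 (.lc 3 3 (.lc 1 10 (.lc 3 12 (.lc 4 4 (.lc 4 13 .stop)))))))))
 .stop)))))))))))))))))))))))))))))))))))))))))))))))))))))))
 (.lc 3 0 (.lc 3 9 (.lc 4 9 (.lc 4 0 (.lc 4 10 .stop))))))))))
 (.conf [50,87,112] (.node [50,80,98,118,69] 5 0 (.node [] 7 6 (.node [98,116] 4 6 .stop
 (.node [98,120] 6 2 (.node [130] 8 2 .stop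
 (.lc 0 9 .stop))
 (.lc 2 2 (.lc 3 4 (.lc 3 9 (.conf [98,134] (.lc 2 2 (.lc 3 4 (.lc 3 8 (.lc 3 9 (.lc 4 10 (.lc 3 2 .stop))))))))))))
 (.lc 3 8 (.node [129,20] 1 4 (.node [132] 4 5 (.node [73,88,132] 5 8 (.far [4112,1,0,4096,0,0,257,257] 16 (.lc 0 10 .stop))
 (.conf [88,149] .stop))
 (.lc 2 5 (.lc 2 5 (.conf [69,137,148] (.lc 2 5 (.lc 3 5 .stop))))))
 (.lc 3 8 (.lc 4 9 .stop)))))
 (.conf [50,88,135] (.node [88,135,69,54,112] 0 3 .stop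
 (.conf [87,50,98,32] (.conf [80,50,98,32] (.conf [88,50,98,32] (.conf [88,115,54] (.conf [80,115,54] (.conf [89,115,54] (.node [50,87,98,112,69] 0 6 (.lc 1 0 .stop)
 (.conf [50,98,118] (.conf [50,98,118] (.node [50,87,98,112,69] 0 6 (.node [4,98] 0 4 .stop
 (.node [8,98] 7 0 (.lc 1 8 (.node [120] 8 6 (.far [1,1,4096,257,256] 0 (.lc 3 9 .stop))
 (.lc 2 8 (.lc 2 8 (.lc 3 4 (.lc 3 9 (.lc 2 8 (.lc 2 8 (.lc 1 6 (.lc 2 8 (.lc 2 8 (.lc 3 9 (.lc 3 8 (.lc 3 8 (.lc 4 10 .stop)))))))))))))))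
 (.conf [98,134] .stop)))
 (.node [50,80,98,118,69] 5 0 (.node [81] 4 5 (.lc 2 1 .stop)
 (.lc 1 0 (.conf [88,129] .stop)))
 (.conf [50,98,118,135] (.node [50,87,98,112,69] 0 6 .stop
 (.node [50,80,98,118,69] 5 0 (.node [81] 4 5 (.lc 2 1 .stop)
 (.node [7,88] 0 7 (.lc 2 1 (.node [118] 5 8 (.far [257,257,256,257,0,4096] 0 (.lc 0 9 (.lc 0 9 (.lc 0 1 (.lc 2 7 (.lc 0 10 .stop))))))
 (.lc 2 6 (.lc 2 6 (.lc 0 9 (.lc 3 1 (.lc 2 6 (.lc 3 6 .stop))))))))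
 (.lc 2 7 (.lc 1 0 (.lc 3 0 (.conf [88,129] (.conf [7,128] (.lc 2 7 (.lc 2 7 (.lc 0 8 (.lc 3 7 (.lc 0 9 .stop))))))))))))
 (.conf [50,88,118,135] (.node [50,88,98,135,69,112] 0 6 .stop
 (.node [50,88,98,118,128,69] 0 7 (.node [118] 6 2 .stop
 (.lc 2 6 .stop))
 (.node [50,80,98,118,135,69] 5 0 (.node [81] 4 5 (.lc 2 1 .stop)
 (.lc 1 0 (.conf [89,145] .stop)))
 (.node [50,89,98,118,135,69] 7 6 (.node [98,112] 0 6 (.node [] 8 7 (.node [112,129] 1 7 (.far [1,1,258,4097,1,16,1,257] 4096 .stop)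
 (.node [112,132] 4 7 (.lc 0 0 .stop)
 (.node [112,138] 10 7 (.far [1,1,258,4097,1,16,1,257] 4096 (.lc 3 1 (.node [161] 1 4 (.node [69] 8 10 (.lc 1 1 (.node [139,164] 9 8 (.far [16,257,0,16,256,256,257,4096,4096] 256 (.lc 3 12 (.lc 1 10 (.lc 3 12 (.lc 4 13 .stop)))))
 (.lc 2 1 (.lc 3 7 (.conf [140,203] (.lc 3 7 (.lc 3 7 (.lc 3 7 (.lc 4 7 (.lc 4 7 .stop))))))))))
 (.conf [69,148,169] (.conf [69,171,180] (.far [4112,256,0,16,256,0,1,0,4096] 0 (.far [257,4096,0,1,4096,0,16,0,256] 0 (.conf [69,172,16] .stop))))))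
 (.lc 3 1 (.lc 3 11 (.lc 1 0 (.lc 4 11 .stop)))))))
 (.lc 2 0 (.lc 2 0 (.lc 3 4 (.lc 3 1 (.lc 3 4 (.lc 3 11 (.conf [69,132] (.conf [112,167] (.lc 2 0 (.lc 2 0 (.lc 2 0 (.lc 2 0 (.lc 3 4 (.lc 3 10 (.lc 3 10 (.lc 3 11 (.lc 1 0 (.lc 3 0 (.lc 4 10 (.lc 4 4 (.lc 4 12 (.lc 1 0 (.lc 3 0 (.lc 3 0 (.lc 1 0 (.lc 3 0 (.lc 1 0 (.lc 3 0 (.lc 2 0 (.lc 4 0 .stop)))))))))))))))))))))))))))))))))
 .stop)
 (.node [98,113] 1 6 .stop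
 (.node [98,116] 4 6 .stop
 (.node [98,122] 6 2 (.node [162] 10 2 (.node [160] 7 10 (.lc 1 0 (.node [113,160] 7 1 (.lc 0 4 .stop)
 (.node [74,116] 7 4 .stop
 (.node [123,160] 8 7 (.far [1,4112,1,8208,4097,1,16,1,257] 4096 (.lc 3 0 (.lc 3 1 (.lc 3 4 (.lc 3 12 (.lc 1 10 (.lc 3 12 (.lc 4 1 (.lc 4 4 (.lc 4 13 .stop))))))))))
 (.lc 2 0 (.lc 2 0 (.lc 3 6 (.lc 3 6 (.lc 2 0 (.lc 2 0 (.conf [69,116] (.conf [124,203] (.lc 2 0 (.lc 2 0 (.lc 2 0 (.lc 3 6 (.lc 3 6 (.lc 3 6 (.lc 3 6 (.lc 3 6 (.lc 1 0 (.lc 3 0 (.lc 3 0 (.lc 4 6 (.lc 4 6 (.lc 4 6 (.lc 4 6 (.lc 4 6 (.lc 4 6 (.lc 4 6 (.lc 4 6 (.lc 4 6 (.lc 4 6 (.lc 4 6 (.lc 2 0 (.lc 5 6 (.lc 5 6 .stop)))))))))))))))))))))))))))))))))))))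
 (.node [168,128] 10 8 .stop
 (.node [169,144] 10 9 .stop
 (.node [171,176] 7 10 (.node [123] 8 7 (.far [1,4096,4096,4112,1,1,16,1,257] 4096 (.lc 3 1 (.lc 3 4 (.lc 3 12 (.lc 1 0 (.lc 3 12 (.lc 4 4 (.lc 4 13 .stop))))))))
 (.lc 3 6 (.conf [124,203] (.lc 3 6 (.lc 4 6 .stop)))))
 (.node [171,176,171] 7 10 (.node [113,171] 1 10 .stop
 (.node [116,171] 4 10 (.lc 1 0 .stop)
 (.lc 1 2 (.node [124,171] 8 7 (.node [140] 12 10 (.far [1,0,1,4112,256,256] 0 (.lc 1 0 (.lc 1 0 (.lc 1 0 (.lc 1 0 (.lc 1 0 (.lc 3 13 (.lc 2 0 (.lc 2 0 .stop)))))))))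
 (.lc 3 1 (.lc 3 4 (.lc 3 11 (.lc 3 13 (.lc 1 10 (.lc 3 13 (.lc 4 4 (.lc 4 14 .stop)))))))))
 (.lc 2 2 (.lc 3 6 (.lc 3 6 (.conf [69,116] (.lc 2 2 (.conf [171,202] (.lc 2 2 (.lc 2 2 (.lc 2 2 (.lc 3 6 (.lc 3 6 (.lc 3 6 (.lc 3 6 (.lc 3 6 (.lc 3 2 (.lc 3 2 (.lc 4 6 (.lc 4 6 (.lc 4 6 (.lc 4 6 (.lc 4 6 (.lc 4 6 (.lc 4 6 (.lc 4 6 (.lc 5 6 (.lc 5 6 .stop))))))))))))))))))))))))))))))
 (.node [171,176] 7 10 (.node [123] 7 11 (.far [4112,4096,1,4096,1,1,0,1,257] 4096 (.lc 0 0 (.lc 0 12 (.lc 2 0 (.lc 0 1 (.lc 0 12 .stop))))))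
 (.lc 3 6 (.lc 1 0 (.lc 3 6 (.lc 4 6 .stop)))))
 (.lc 0 7 (.node [172,203,176] 7 10 (.node [124] 7 12 (.far [4112,4096,4096,4112,1,1,16,1,257] 4096 (.lc 0 11 (.lc 0 13 (.lc 1 0 (.lc 0 13 .stop)))))
 (.lc 3 6 (.lc 1 11 (.lc 3 6 (.lc 4 6 .stop)))))
 .stop))))))))
 (.lc 0 0 (.lc 0 0 (.lc 0 11 (.node [160] 8 7 (.node [122,129] 1 7 .stop
 (.node [122,132] 4 7 (.lc 1 0 .stop)
 (.node [122,139] 7 10 (.node [160] 9 8 (.node [139,145] 1 8 .stop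
 (.node [139,148] 4 8 (.lc 1 10 .stop)
 (.node [139,156] 8 11 (.node [186] 5 9 (.node [81,156] 5 1 (.lc 0 1 .stop)
 (.node [93,156] 9 12 (.far [257,16,514,272,514,512,257,513,4096,4096] 17 (.lc 2 11 (.lc 2 11 (.lc 2 11 (.lc 0 14 (.lc 2 11 (.lc 3 11 (.lc 3 11 .stop))))))))
 (.lc 2 5 (.lc 0 1 (.lc 3 3 (.conf [156,217] (.lc 2 5 (.lc 2 5 (.lc 3 3 (.lc 0 13 (.lc 3 5 (.lc 0 14 (.lc 0 13 (.lc 0 13 (.lc 0 1 (.lc 4 3 (.lc 0 14 .stop)))))))))))))))))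
 (.lc 2 10 (.lc 2 10 (.lc 2 10 (.lc 0 13 (.lc 2 10 (.lc 3 10 (.lc 3 10 .stop))))))))
 (.lc 2 7 (.lc 3 4 (.lc 3 1 (.lc 3 4 (.lc 3 13 (.conf [69,148] (.conf [139,200] (.lc 2 7 (.lc 2 7 (.lc 2 7 (.lc 2 7 (.lc 2 7 (.lc 2 7 (.lc 2 7 (.lc 3 1 (.lc 3 4 (.lc 3 12 (.lc 3 12 (.lc 3 13 (.lc 3 7 (.lc 3 7 (.lc 4 12 (.lc 4 4 (.lc 4 14 (.lc 3 7 (.lc 3 7 (.lc 3 7 (.lc 3 7 (.lc 3 7 (.lc 3 7 (.lc 3 7 (.lc 3 7 (.lc 3 7 (.lc 3 7 (.lc 3 7 (.lc 4 7 (.lc 4 7 (.lc 4 7 .stop)))))))))))))))))))))))))))))))))))))))))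
 (.lc 2 0 (.lc 2 0 (.lc 2 0 (.lc 0 12 (.lc 2 0 (.lc 3 0 (.lc 3 0 .stop))))))))
 (.lc 2 6 (.lc 3 4 (.lc 3 1 (.lc 3 4 (.lc 3 12 (.conf [69,132] (.conf [122,183] (.lc 2 6 (.lc 2 6 (.lc 2 6 (.lc 2 6 (.lc 2 6 (.lc 2 6 (.lc 2 6 (.lc 3 1 (.lc 3 4 (.lc 3 11 (.lc 3 11 (.lc 3 12 (.lc 3 6 (.lc 3 6 (.lc 4 11 (.lc 4 4 (.lc 4 13 (.lc 3 6 (.lc 3 6 (.lc 3 6 (.lc 3 6 (.lc 3 6 (.lc 3 6 (.lc 3 6 (.lc 3 6 (.lc 3 6 (.lc 3 6 (.lc 3 6 (.lc 4 6 (.lc 4 6 (.lc 4 6 .stop)))))))))))))))))))))))))))))))))))))))))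
 (.lc 0 11 .stop))))))
 (.lc 2 2 (.lc 2 2 (.lc 3 1 (.lc 3 4 (.lc 3 10 (.lc 3 4 (.lc 3 0 (.lc 3 1 (.lc 3 4 (.lc 3 11 (.node [98,113] 7 1 (.node [116] 7 4 (.node [132] 4 5 .stop
 (.lc 0 10 .stop))
 (.lc 3 1 (.conf [122,164] (.lc 3 1 (.lc 4 1 .stop)))))
 (.conf [122,160] (.conf [69,116] (.conf [98,166] (.conf [98,166] (.lc 2 2 (.lc 2 2 (.lc 2 2 (.lc 3 1 (.lc 3 10 (.lc 3 4 (.lc 3 10 (.lc 3 0 (.lc 3 10 (.lc 3 0 (.lc 3 11 (.lc 3 2 (.lc 1 0 (.lc 4 10 (.lc 4 11 (.lc 4 10 (.lc 4 1 (.lc 4 11 (.lc 4 4 (.lc 4 0 (.lc 4 12 (.lc 3 2 (.lc 3 2 (.lc 3 2 (.lc 3 2 (.lc 4 2 .stop)))))))))))))))))))))))))))))))))))))))))))))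
 .stop)))))))))))))))))))))))))))))))))))))))))))))))

theorem t42 : kNode2 awTt FTt 5 3 (check tyTt awTt triet FTt [] c42) (fun _ _ _ => true) 0 s42 Pl.nil s42 =
    true := by
  decide +kernel

end Chk
end Pool.Agent.Lib.MP_ba95e8_co
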