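import Pool.Agent.Lib.MP_ba95e8_co.ChkTab
import Pool.Agent.Lib.MP_ba95e8_co.ChkStates

/-!
Deltahedral domes: part 43 of the case analysis.
-/

namespace Pool.Agent.Lib.MP_ba95e8_co
namespace Chk

/-- certificate number 43 -/
def c43 : Cert := (.node [83,96,71] 6 0 (.node [112] 0 5 (.node [83] 5 3 (.lc 1 2 .stop)
 (.node [83] 7 5 (.node [50] 4 7 .stop
 (.far [16,256,256,0,16,4096] 0 .stop))
 (.lc 1 2 (.lc 2 0 (.conf [83,133] (.conf [83,133] (.lc 2 0 (.lc 3 0 .stop))))))))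
 (.lc 0 1 (.lc 0 1 (.lc 0 8 (.node [113] 7 1 (.lc 2 1 .stop)
 (.lc 0 8 .stop))))))
 (.node [83,97,71] 6 1 .stop
 (.node [83,98,71] 6 2 (.lc 0 0 .stop)
 (.node [83,104,71] 7 6 (.node [120] 5 3 (.node [50,80] 5 0 (.node [128] 0 3 (.far [258,4112,4097,0,1,0,1,257] 4096 (.node [50] 8 3 (.conf [32,114] .stop)
 (.far [4112,1,256] 0 .stop)))
 (.lc 0 1 (.lc 0 1 (.lc 0 9 (.far [257,257,16,256,16,4096] 4097 (.lc 0 9 .stop))))))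
 (.lc 1 2 (.node [50,87] 5 7 (.lc 0 5 .stop)
 (.node [50,89] 8 5 (.node [137] 4 7 (.node [64,120] 4 0 (.lc 0 0 .stop)
 (.node [65,23] 9 3 (.node [50,144] 0 3 (.far [258,2,0,1,4097,0,1,0,1,257] 4096 .stop)
 (.node [50,32] 9 2 (.far [1,258,0,1,4097,0,1,0,1,257] 4096 (.lc 2 2 (.node [154] 8 9 (.node [138] 7 8 (.node [122] 1 7 (.node [162] 10 2 .stop
 (.far [1,4112,0,0,0,1,0,0,4112,0,256] 4097 .stop))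
 (.lc 3 1 (.far [16,257,0,0,0,257,0,4096,4096] 0 (.far [16,257,0,0,0,257,0,4096,4096] 0 (.lc 4 1 .stop)))))
 (.conf [133,146,162] (.far [16,257,257,0,4096,4096] 0 (.far [16,257,257,0,4096,4096] 0 .stop))))
 (.node [154,160,154] 8 9 (.far [1,4096,1,0,257,1,0,1,0,1,257] 4096 (.lc 3 5 (.lc 1 0 .stop)))
 (.lc 3 2 (.lc 3 2 (.node [154,160,154] 8 9 (.far [1,4112,4112,0,256,256] 0 (.lc 3 5 (.lc 1 0 .stop)))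
 (.node [155,186,155,162] 8 9 (.far [1,4112,4112,0,256,256] 0 (.lc 3 5 (.lc 1 10 (.lc 1 10 .stop))))
 (.lc 3 2 (.node [154] 8 9 (.far [16,257,257,0,4096,4096] 17 (.conf [133,146,160] (.far [16,257,257,0,4096,4096] 17 .stop)))
 (.lc 3 2 (.lc 3 2 (.node [155,186,155,160] 8 9 (.node [186] 8 11 (.node [186,160] 7 11 .stop
 (.far [257,257,0,0,0,257,0,4096,4096] 0 .stop))
 (.lc 3 5 (.lc 1 10 .stop)))
 (.lc 4 2 (.lc 4 2 .stop)))))))))))))))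
 (.lc 2 3 (.node [50,154] 3 2 (.node [] 1 7 (.node [120] 7 8 (.node [137] 8 9 (.node [154] 9 10 .stop
 (.far [257,16,0,0,0,0,257,0,4096,4096] 0 .stop))
 (.node [133,154,112] 0 9 .stop
 (.far [4112,1,0,0,1,0,0,4112,0,256] 0 (.far [16,0,0,257,0,1,4096,4096,4096] 0 .stop))))
 (.lc 1 1 (.node [162,167] 10 7 (.far [16,16,0,0,16,0,0,257,0,4096] 0 .stop)
 (.node [120] 7 8 (.node [137] 8 9 (.node [154] 11 9 (.node [186] 1 11 .stop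
 (.far [16,16,0,0,0,257,0,4096,4096] 0 (.far [16,16,0,0,0,257,0,4096,4096] 0 .stop)))
 (.conf [147,162,186] (.far [4112,1,0,0,0,0,4112,0,256,256] 0 (.lc 2 3 (.far [4112,1,0,0,0,0,4112,0,256,256] 0 (.far [257,16,0,0,0,0,257,0,4096,4096] 0 (.conf [147,176,133] (.conf [147,188,133] .stop))))))))
 (.conf [133,154,185] (.far [4112,1,0,0,1,0,0,4112,0,256] 0 (.far [4112,1,0,0,1,0,0,4112,0,256] 0 (.conf [133,186,113] .stop)))))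
 (.lc 2 1 (.lc 2 1 (.node [120,183,120] 7 8 (.node [184] 11 8 (.node [185] 11 9 (.far [16,4096,0,0,0,257,0,4096,4096] 0 .stop)
 (.conf [162,186] (.far [1,1,0,0,0,0,4112,0,256,256] 0 (.conf [147,176,133] .stop))))
 (.lc 2 5 (.lc 0 12 (.lc 3 5 .stop))))
 (.node [120,183,120] 7 8 (.far [257,16,0,0,16,0,0,257,0,4096] 0 (.lc 2 5 (.lc 0 12 (.lc 3 5 .stop))))
 (.node [120,183,203,120] 7 8 (.far [257,16,0,0,16,0,0,257,0,4096] 0 (.lc 2 5 (.lc 0 0 (.lc 0 13 (.lc 3 5 .stop)))))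
 (.lc 2 1 (.lc 2 1 (.lc 2 1 (.node [162,167] 10 7 (.node [133,147,162] 10 2 (.far [1,0,0,8208,2,0,1,4097,0,1,0,1,257] 4096 .stop)
 .stop)
 (.node [120] 7 8 (.far [4112,1,0,0,1,0,0,4112,0,256] 4097 (.conf [133,154,185] (.far [4112,1,0,0,1,0,0,4112,0,256] 4097 (.conf [133,186,113] .stop))))
 (.lc 3 1 (.node [120,183,203,120] 7 8 (.node [184] 11 8 (.node [185,203] 11 9 (.lc 0 10 .stop)
 (.conf [162,186] (.far [1,1,0,0,0,0,4112,0,256,256] 0 (.conf [162,202] .stop))))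
 (.lc 2 5 (.lc 0 13 (.lc 3 5 .stop))))
 (.lc 3 1 (.lc 3 1 (.lc 4 1 .stop)))))))))))))))))))
 (.far [4096,1,257,1,4096,0,1,257,257,1] 4096 (.node [32,171,50] 11 2 (.far [1,4096,1,257,1,4096,0,1,257,257,1] 4096 (.lc 3 12 (.node [192] 9 10 (.lc 2 3 (.node [171,192,202] 12 10 (.lc 0 2 .stop)
 (.node [157,171] 10 11 (.node [188] 8 9 (.node [141] 8 13 (.node [125] 7 13 .stop
 .stop)
 (.conf [133,147,219] (.far [16,0,257,0,0,257,0,4096,4096] 0 .stop)))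
 (.lc 2 12 (.lc 2 2 (.lc 0 14 (.lc 2 12 (.lc 3 12 .stop))))))
 (.lc 1 2 (.conf [188,219] (.lc 3 3 (.conf [171,218] (.lc 3 3 (.lc 1 12 (.lc 3 3 (.lc 3 3 (.lc 2 12 (.lc 4 3 (.lc 4 3 .stop))))))))))))))
 (.lc 3 12 (.lc 4 13 .stop)))))
 (.far [4112,1,4112,1,4096,1,4096,4096,0,256] 0 (.far [4112,1,4112,1,4096,1,4096,4096,0,256] 0 (.far [257,16,257,16,256,16,256,256,0,4096] 0 (.conf [32,178] (.node [171,176,50] 9 10 (.lc 2 3 (.node [156,171,176] 10 11 (.far [4112,1,16,257,4112,1,4096,1,4096,4096,0,256] 0 (.lc 2 0 (.lc 0 13 (.lc 2 0 (.lc 3 0 .stop)))))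
 (.conf [163,176] (.lc 3 3 (.conf [171,202] (.lc 3 3 (.node [163,176,156] 9 12 (.far [257,257,0,257,0,4096,4096] 0 (.lc 2 11 (.lc 2 11 .stop)))
 (.lc 3 3 (.lc 3 3 (.conf [163,220,157] (.lc 4 3 (.lc 4 3 .stop))))))))))))
 (.conf [32,178] .stop)))))))))
 (.lc 2 2 (.lc 2 2 (.lc 3 10 (.lc 3 0 (.lc 3 10 (.lc 3 0 (.lc 3 11 (.node [50,154,160] 0 3 (.far [16,16,257,16,256,16,256,256,0,4096] 0 .stop)
 (.far [16,257,16,256,16,256,256,0,4096] 0 (.conf [32,162] (.node [50,144,163,50] 9 0 (.node [145] 9 1 (.lc 1 1 .stop)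
 (.lc 1 1 .stop))
 (.node [50,163,186,50] 10 3 (.far [16,16,257,16,256,16,256,256,0,4096] 0 (.lc 3 0 (.lc 3 12 (.far [16,16,257,16,256,16,256,256,0,4096] 0 (.conf [32,194] (.lc 3 0 (.lc 3 12 (.lc 4 12 (.lc 4 13 .stop)))))))))
 (.lc 2 2 (.lc 2 2 (.lc 2 2 (.lc 2 2 (.lc 2 2 (.lc 3 10 (.lc 3 0 (.lc 3 10 (.lc 3 0 (.lc 3 11 (.lc 3 2 (.lc 3 2 (.lc 4 11 (.lc 4 10 (.lc 4 11 (.lc 4 11 (.lc 4 0 (.lc 4 12 (.lc 3 2 (.lc 3 2 (.lc 3 2 (.lc 3 2 (.lc 3 2 (.lc 3 2 (.lc 4 2 (.lc 4 2 .stop))))))))))))))))))))))))))))))))))))))))))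
 (.lc 1 4 (.node [73,120] 4 9 .stop
 (.node [74,120] 1 4 (.node [] 9 3 (.node [50,144] 0 3 (.far [258,2,0,0,1,4097,0,1,0,1,257] 4096 .stop)
 (.node [50,32] 9 2 (.far [1,258,0,0,1,4097,0,1,0,1,257] 4096 (.lc 2 2 (.node [162,167] 9 10 (.far [4112,4112,4112,0,0,256,256] 0 .stop)
 (.node [155] 8 9 (.node [139] 7 8 (.node [123] 7 11 (.node [178] 11 2 .stop
 (.far [4112,4112,0,0,0,0,1,0,0,4112,0,256] 0 (.far [4112,4112,0,0,0,0,1,0,0,4112,0,256] 0 .stop)))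
 (.conf [116,133,178] (.far [16,257,0,0,0,0,257,0,4096,4096] 0 (.lc 3 4 (.far [16,257,0,0,0,0,257,0,4096,4096] 0 (.far [1,4112,0,0,0,0,4112,0,256,256] 0 (.conf [116,133,178] (.conf [116,133,178] .stop))))))))
 (.conf [133,146,178] (.far [16,257,257,0,0,4096,4096] 0 (.far [16,257,257,0,0,4096,4096] 0 (.conf [133,146,178] .stop)))))
 (.node [155,176,155] 8 9 (.far [1,4096,1,0,0,257,1,0,1,0,1,257] 4096 (.lc 3 5 (.lc 1 0 (.lc 4 5 .stop))))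
 (.lc 3 2 (.lc 3 2 (.node [155,176,155] 8 9 (.far [1,4112,4112,0,0,256,256] 0 (.lc 3 5 (.lc 1 0 (.lc 4 5 .stop))))
 (.node [156,203,156,178] 8 9 (.far [1,4112,4112,0,0,256,256] 0 (.lc 3 5 (.lc 1 11 (.lc 1 11 (.lc 4 5 .stop)))))
 (.lc 3 2 (.node [160,167] 9 10 (.far [16,4112,4097,1,4096,0,1,256,257,0,1,513] 4096 .stop)
 (.node [155] 8 9 (.far [16,257,257,0,0,4096,4096] 17 (.conf [133,146,176] (.far [16,257,257,0,0,4096,4096] 17 (.conf [133,146,176] .stop))))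
 (.lc 3 2 (.lc 3 2 (.node [156,203,156,176] 8 9 (.node [203] 8 12 (.node [203,176] 7 12 (.lc 1 0 .stop)
 (.conf [172,203] (.far [257,257,0,0,0,0,257,0,4096,4096] 0 (.conf [171,176] .stop))))
 (.lc 3 5 (.lc 1 11 (.lc 4 5 .stop))))
 (.lc 4 2 (.lc 4 2 (.lc 4 2 (.lc 5 2 .stop)))))))))))))))))))
 (.lc 2 3 (.node [50,154,167] 10 3 .stop
 (.node [50,155] 3 2 (.node [] 8 9 (.node [128,155] 8 0 (.node [112] 7 0 .stop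
 (.far [4112,4112,0,0,0,0,4112,0,256,256] 0 .stop))
 (.lc 2 5 (.node [138,155,167] 10 9 .stop
 (.lc 1 3 (.node [140,155] 7 8 (.node [124] 9 11 (.node [] 7 12 (.node [203] 12 11 (.node [171,178] 10 11 .stop
 .stop)
 (.conf [171,178,199] (.far [4112,0,4112,0,0,0,0,1,0,0,4112,0,256] 0 (.far [4112,0,4112,0,0,0,0,1,0,0,4112,0,256] 0 .stop))))
 (.conf [178,192,147] (.conf [178,202,147] (.conf [178,205,219] (.far [4112,0,1,0,4112,0,0,256,256] 0 (.far [4112,0,1,0,4112,0,0,256,256] 0 (.far [257,0,16,0,257,0,0,4096,4096] 0 (.far [257,0,16,0,257,0,0,4096,4096] 0 (.conf [178,205,147] (.conf [178,192,147] (.conf [178,206,147] .stop)))))))))))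
 (.conf [116,133,201] (.far [16,257,0,0,0,0,257,0,4096,4096] 0 (.lc 3 4 (.far [16,257,0,0,0,0,257,0,4096,4096] 0 (.far [1,4112,0,0,0,0,4112,0,256,256] 0 (.conf [116,133,201] (.conf [116,133,201] .stop))))))))
 (.node [147,178,128] 8 0 .stop
 (.conf [147,178,203] (.node [133,155,112] 7 0 .stop
 (.lc 0 4 (.lc 2 3 (.conf [133,155,201] (.node [140,155,192,140] 0 9 .stop
 (.lc 3 5 (.lc 2 3 (.lc 2 3 (.node [128,155,201,155,178] 8 0 .stop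
 (.node [141,201,220,141,155,178] 7 8 (.far [1,4112,0,0,0,0,4112,0,256,256] 0 (.lc 3 4 (.lc 1 12 (.lc 3 4 (.lc 1 12 (.lc 3 4 (.lc 4 4 (.lc 4 4 .stop))))))))
 (.node [147,178,128] 8 0 (.far [257,257,0,0,0,0,257,0,4096,4096] 0 (.node [116,160] 10 0 (.node [] 0 11 (.far [258,0,0,2,16,0,0,0,513,257,0,1,0,1,257] 4096 .stop)
 .stop)
 .stop))
 (.lc 3 5 (.node [147,167,178,138] 8 10 (.lc 0 4 .stop)
 (.node [147,178,203] 8 12 (.far [257,257,0,0,0,0,257,0,4096,4096] 0 (.lc 2 11 (.node [116,172] 12 11 (.node [194] 10 12 (.node [194] 12 2 .stop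
 (.far [4112,1,513,258,256,256,256,256,514,0,8192,8192] 4097 .stop))
 (.lc 3 0 (.far [16,0,16,4096,1,0,0,4096,4096] 17 (.lc 3 0 (.lc 3 13 (.lc 4 13 .stop))))))
 (.lc 2 11 (.lc 0 4 (.lc 2 11 (.lc 3 11 (.lc 3 11 .stop))))))))
 (.node [133,147,178] 7 11 (.far [257,1,0,0,0,16,0,0,257,0,4096] 0 (.lc 2 2 (.node [160,178] 10 0 (.node [] 0 11 (.far [256,0,0,0,8208,2,0,0,1,4097,0,1,0,1,257] 4096 .stop)
 .stop)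
 (.node [172,203,178] 12 11 (.node [194] 10 12 (.node [194] 12 2 .stop
 (.far [4112,32,272,4112,8192,4097,256,256,4096,4096] 4097 .stop))
 (.lc 3 0 (.far [16,256,4096,4096,4096,0,16,0,0,257,0,4096] 17 (.lc 3 0 (.lc 3 13 (.lc 4 13 .stop))))))
 (.lc 3 2 .stop)))))
 (.node [116,133,169] 10 9 (.far [1,1,0,4112,0,0,256,256] 0 (.lc 3 1 (.node [160,178] 0 11 (.far [256,0,0,8208,2,0,0,1,4097,0,1,0,1,257] 4096 .stop)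
 (.node [178,203,172] 10 12 (.node [203] 12 11 (.node [194] 12 2 .stop
 (.far [16,8224,8208,513,4096,4096,512,512,257,0,4096,4096] 17 .stop))
 (.lc 2 11 (.far [4112,4096,257,0,4112,256,256,256,256] 4097 (.lc 2 11 (.lc 2 11 (.lc 3 11 .stop))))))
 (.lc 4 1 .stop)))))
 (.conf [147,192,140] (.lc 4 5 (.node [147,178,203,128] 8 0 .stop
 (.conf [147,220,141] (.far [4112,0,0,0,1,4112,0,16,256,256] 0 (.lc 3 3 (.conf [133,155,201] (.conf [147,171,178] (.conf [116,171,178] (.far [256,0,257,0,0,1,4096,4096,4096] 0 (.lc 0 4 (.conf [133,203,124] (.node [133,160,178] 10 0 (.node [] 0 11 (.far [256,0,0,8208,2,0,0,1,4097,0,1,0,1,257] 4096 .stop)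
 .stop)
 (.node [133,172,178] 12 11 (.node [194] 10 12 (.node [194] 12 2 .stop
 (.far [4112,32,272,8192,259,256,256,4098,12288,8192,8192] 4097 .stop))
 (.lc 3 0 (.far [16,256,4096,258,0,16,2,8192,4097,8192,4096] 17 (.lc 3 0 (.lc 3 13 (.lc 4 13 .stop))))))
 .stop)))))))))))))))))))))))))))))))))))))
 (.far [4096,1,16,257,1,4096,0,1,257,257,1] 4096 (.node [32,162,167,186,50] 10 2 .stop
 (.node [32,188,50] 12 2 (.far [1,4096,1,16,257,1,4096,0,1,257,257,1] 4096 (.lc 3 10 (.lc 3 13 (.node [208] 9 11 (.lc 2 3 (.node [154,167,188] 10 11 .stop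
 (.node [188,208,219] 13 11 (.lc 0 2 .stop)
 (.node [158,188] 8 9 (.node [142] 7 8 (.node [126] 14 11 (.node [205] 7 14 .stop
 (.lc 1 13 .stop))
 (.conf [116,133,235] (.lc 3 4 (.far [16,257,0,0,0,0,0,0,257,0,4096,4096] 0 (.far [1,4112,0,0,0,0,0,0,4112,0,256,256] 0 (.conf [116,133,235] .stop))))))
 (.conf [133,147,235] (.far [16,257,0,0,257,0,0,4096,4096] 0 (.conf [133,147,235] .stop))))
 (.lc 1 2 (.conf [205,236] (.lc 3 3 (.conf [188,235] (.lc 3 3 (.lc 1 13 (.lc 1 13 (.lc 3 3 (.lc 3 3 (.lc 2 13 (.lc 4 3 (.lc 4 3 (.lc 4 3 (.lc 5 3 .stop))))))))))))))))))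
 (.lc 3 13 (.lc 4 14 .stop))))))
 (.far [4112,1,1,4112,1,4096,1,4096,4096,0,256] 0 (.far [4112,1,1,4112,1,4096,1,4096,4096,0,256] 0 (.far [257,16,16,257,16,256,16,256,256,0,4096] 0 (.conf [32,194] (.node [188,192,50] 9 11 (.lc 2 3 (.node [154,167,188,192] 10 11 .stop
 (.node [157,188,192] 11 12 (.far [4112,1,16,257,1,4112,1,4096,1,4096,4096,0,256] 0 (.lc 2 0 (.lc 2 0 (.lc 0 14 (.lc 2 0 (.lc 3 0 .stop))))))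
 (.conf [179,192] (.lc 3 3 (.conf [188,219] (.lc 3 3 (.node [167,179,192,154] 9 10 (.far [16,4112,16,4112,1,4096,16,256,256,256,0,0,256] 0 .stop)
 (.node [179,192,157] 9 13 (.far [257,257,0,257,0,0,4096,4096] 0 (.lc 2 12 (.lc 2 12 (.lc 3 12 .stop))))
 (.lc 3 3 (.lc 3 3 (.conf [179,237,158] (.lc 4 3 (.lc 4 3 (.lc 4 3 (.lc 5 3 .stop))))))))))))))))
 (.conf [32,194] .stop))))))))))
 (.lc 2 2 (.lc 2 2 (.lc 3 10 (.lc 3 11 (.lc 3 0 (.lc 3 10 (.lc 3 11 (.lc 3 7 (.lc 3 0 (.lc 3 10 (.lc 3 12 (.node [50,155,176] 0 3 (.far [16,16,16,257,16,256,16,256,256,0,4096] 0 .stop)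
 (.far [16,16,257,16,256,16,256,256,0,4096] 0 (.conf [32,178] (.node [50,144,179,50] 9 0 (.node [145] 9 1 .stop
 (.far [16,4112,256,257,16,256,16,256,256] 4097 .stop))
 (.node [50,179,203,50] 11 3 (.far [16,16,16,257,16,256,16,256,256,0,4096] 0 (.lc 3 0 (.lc 3 10 (.lc 3 13 (.far [16,16,16,257,16,256,16,256,256,0,4096] 0 (.conf [32,210] (.lc 3 0 (.lc 3 13 (.lc 4 13 (.lc 4 14 .stop))))))))))
 (.lc 2 2 (.lc 2 2 (.lc 2 2 (.lc 2 2 (.lc 2 2 (.lc 2 2 (.lc 2 2 (.lc 3 11 (.lc 3 0 (.lc 3 11 (.lc 3 0 (.lc 3 11 (.lc 3 0 (.lc 3 12 (.lc 3 2 (.lc 3 2 (.lc 4 12 (.lc 4 11 (.lc 4 12 (.lc 4 12 (.lc 4 0 (.lc 4 13 (.lc 3 2 (.lc 3 2 (.lc 3 2 (.lc 3 2 (.lc 3 2 (.lc 3 2 (.lc 3 2 (.lc 3 2 (.lc 3 2 (.lc 3 2 (.lc 4 2 (.lc 4 2 .stop)))))))))))))))))))))))))))))))))))))))))))))))))))))))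
 (.lc 3 0 (.node [25,154,167,65] 1 9 .stop
 (.node [27,167,65] 1 11 (.node [] 10 7 (.node [120,160] 10 0 (.lc 0 0 .stop)
 (.node [120,162] 10 2 .stop
 (.lc 1 4 (.node [120,169] 10 9 .stop
 (.node [120,172] 11 10 (.node [188] 7 8 (.node [137] 12 8 (.node [147] 11 12 (.node [185] 11 9 .stop
 (.lc 3 0 .stop))
 (.lc 3 7 (.far [16,16,0,0,0,0,0,257,0,4096,4096] 0 (.lc 0 0 .stop))))
 (.conf [133,147,201] (.lc 2 5 (.far [4112,0,1,0,0,1,0,0,4112,0,256] 0 (.far [257,0,16,0,0,16,0,0,257,0,4096] 0 (.conf [133,205,116] .stop))))))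
 (.lc 1 7 (.lc 1 7 (.lc 1 7 (.lc 3 0 (.lc 1 7 (.node [189,220] 11 13 (.far [4112,1,4112,1,513,256] 0 (.lc 2 12 (.lc 2 12 (.lc 2 12 (.far [4112,1,4112,1,513,256] 17 (.conf [220,237] (.lc 2 12 (.lc 2 12 (.lc 3 12 (.lc 3 12 .stop))))))))))
 (.lc 2 7 .stop))))))))
 (.lc 2 4 (.lc 2 4 (.lc 0 0 (.conf [188,199] (.node [120,160] 2 7 .stop
 (.lc 2 4 (.conf [173,220] (.lc 2 4 (.lc 2 4 (.conf [164,178] (.lc 2 4 (.conf [164,185] (.conf [164,188] (.lc 3 4 (.lc 3 4 (.conf [164,189] (.lc 3 4 (.lc 3 4 (.lc 3 4 (.lc 3 4 (.lc 4 4 .stop))))))))))))))))))))))))))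
 (.lc 2 10 (.lc 2 10 (.node [203] 10 7 (.node [120,162] 10 2 .stop
 (.lc 1 4 (.node [120,169] 10 9 .stop
 (.node [172,199,203] 10 12 (.lc 0 1 .stop)
 (.node [120,173] 11 10 (.node [189] 7 8 (.node [137] 13 8 (.node [147] 11 13 (.node [185,203] 11 9 .stop
 (.lc 3 1 .stop))
 (.lc 3 7 (.far [16,16,0,0,0,0,0,257,0,4096,4096] 0 (.lc 0 1 .stop))))
 (.conf [133,147,217] (.lc 2 5 (.far [4112,0,1,0,0,1,0,0,4112,0,256] 0 (.far [257,0,16,0,0,16,0,0,257,0,4096] 0 (.conf [133,222,116] .stop))))))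
 (.lc 3 2 (.lc 3 9 (.lc 3 14 (.lc 3 1 (.lc 1 7 (.lc 3 14 (.lc 4 15 .stop))))))))
 (.lc 2 4 (.lc 2 4 (.lc 0 1 (.conf [189,215] (.lc 2 4 (.conf [174,237] (.lc 2 4 (.lc 2 4 (.lc 0 2 (.lc 2 4 (.lc 0 9 (.lc 0 13 (.lc 3 4 (.lc 3 4 (.lc 0 14 (.lc 3 4 (.lc 3 4 (.lc 3 4 (.lc 3 4 (.lc 4 4 .stop)))))))))))))))))))))))))
 (.lc 2 10 (.lc 3 10 .stop))))))
 (.lc 3 0 (.node [167,186,27] 10 7 (.node [120,160,186] 10 0 (.far [257,257,16,258,1,4112,0,1,514,513,1] 4096 (.lc 0 12 .stop))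
 (.node [120,162,186] 10 2 (.lc 0 0 .stop)
 (.lc 1 4 (.node [120,169,186] 10 9 .stop
 (.node [120,172,186] 11 10 (.far [16,257,16,258,1,4112,0,1,514,513,1] 4096 (.lc 3 0 (.lc 3 2 (.lc 3 9 (.lc 3 13 (.lc 1 7 (.lc 1 7 (.lc 3 0 (.lc 3 13 (.lc 4 13 (.lc 4 0 (.lc 4 0 (.lc 4 14 .stop)))))))))))))
 (.lc 2 4 (.lc 2 4 (.lc 2 4 (.conf [164,176] (.conf [164,188] (.conf [172,192] (.node [120,160,186] 2 7 .stop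
 (.lc 2 4 (.node [120,160,199,186,120] 10 0 .stop
 (.conf [173,220] (.lc 2 4 (.lc 2 4 (.node [164,176,120] 0 7 (.far [1,1,0,1,0,0,4112,0,256] 0 (.far [16,16,16,256,256,257,256,257,0,1,1] 4096 (.far [1,1,0,1,0,0,4112,0,256] 17 (.far [16,16,16,256,256,257,256,257,0,1,1] 4096 .stop))))
 (.node [164,178,120] 2 7 .stop
 (.lc 2 4 (.node [164,185,120] 9 7 (.lc 0 5 .stop)
 (.node [164,188,120] 1 11 (.node [28] 12 7 (.far [1,0,1,0,1,0,0,4112,0,256] 0 (.lc 3 9 (.far [16,16,256,4112,0,256,257,256,257,0,1,1] 4096 (.lc 3 0 (.lc 1 5 (.lc 3 13 (.lc 4 0 (.lc 4 13 .stop))))))))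
 (.lc 1 7 (.lc 1 7 (.lc 1 7 (.far [1,4112,256,256] 4097 (.lc 2 7 .stop))))))
 (.lc 3 4 (.lc 3 4 (.node [164,188,192,120] 0 7 .stop
 (.node [164,176,120] 2 7 .stop
 (.lc 3 4 (.conf [164,199,120] (.conf [164,199,120] (.lc 3 4 (.lc 3 4 (.lc 3 4 (.lc 3 4 (.lc 3 4 (.lc 4 4 (.lc 4 4 .stop))))))))))))))))))))))))))))))))))))
 (.lc 3 0 (.conf [27,186] (.lc 4 0 (.conf [28,203] .stop))))))))))
 (.lc 2 8 (.lc 2 8 (.lc 2 8 (.lc 2 8 (.lc 2 8 (.lc 2 8 (.lc 2 8 (.lc 2 8 (.lc 0 0 (.lc 3 1 (.far [8224,16,257,0,16,8224,8208,272] 257 (.node [74,120,160,74] 0 7 (.node [120] 4 10 (.node [160] 7 8 (.far [257,0,16,16,0,0,257,0,4096] 0 (.far [257,0,16,16,0,0,257,0,4096] 0 .stop))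
 (.lc 2 0 (.lc 2 0 (.conf [27,186] (.lc 2 0 (.lc 3 0 .stop))))))
 (.node [112,137] 2 8 .stop
 (.node [120,183,43,120] 7 8 (.far [257,16,16,0,0,257,0,4096] 0 (.lc 2 5 (.lc 2 5 (.lc 0 12 (.lc 2 5 (.lc 3 5 .stop))))))
 (.far [16,16,257,0,1,4096,4096] 0 .stop))))
 (.lc 2 4 (.node [64,120,167] 4 0 (.lc 0 0 .stop)
 (.conf [26,167] (.node [120,167,186,75] 4 11 (.node [186] 10 7 (.node [120,160] 0 7 (.far [16,16,0,16,0,0,257,0,4096] 0 (.far [16,16,0,16,0,0,257,0,4096] 0 (.node [137] 2 8 .stop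
 (.far [4112,16,0,16,257,0,1,4096,4096] 0 .stop))))
 (.node [120,162] 2 7 .stop
 (.lc 1 4 (.node [120,169] 9 7 (.lc 0 5 .stop)
 (.node [120,172] 7 8 (.far [257,16,0,16,0,0,257,0,4096] 0 (.lc 0 9 (.lc 0 0 (.lc 2 5 (.lc 0 13 (.far [257,16,0,16,0,0,257,0,4096] 0 (.lc 0 0 (.lc 0 13 .stop))))))))
 (.node [116,137,160,186] 0 8 (.far [16,16,0,16,257,0,1,4096,4096] 0 .stop)
 (.lc 1 5 (.conf [116,137,200] (.lc 3 1 (.lc 3 9 (.lc 3 12 (.lc 3 0 (.lc 2 4 (.lc 1 7 (.lc 3 0 (.lc 3 2 (.lc 3 9 (.lc 3 13 (.node [120,172,192,172,186] 0 7 .stop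
 (.node [120,160] 2 7 .stop
 (.lc 2 4 (.conf [120,199] (.conf [120,199] (.far [16,0,16,257,0,1,4096,4096] 0 (.lc 3 0 (.lc 3 2 (.lc 1 5 (.lc 3 12 (.lc 3 12 (.lc 3 0 (.lc 3 12 (.lc 3 2 (.lc 2 4 (.lc 2 4 (.lc 2 4 (.lc 3 0 (.lc 3 12 (.lc 3 0 (.lc 3 13 (.far [16,0,16,257,0,1,4096,4096] 0 (.conf [116,172,201] (.lc 4 13 (.lc 4 12 (.lc 3 4 (.lc 3 4 (.lc 1 2 (.lc 4 13 (.lc 4 0 (.lc 4 0 (.lc 4 14 (.lc 4 12 (.lc 4 0 (.lc 2 5 (.lc 2 5 (.lc 4 0 (.lc 4 13 (.lc 4 0 (.lc 4 12 (.lc 4 0 (.lc 4 2 (.lc 4 12 (.lc 5 12 (.lc 5 0 (.lc 5 0 (.lc 5 13 .stop)))))))))))))))))))))))))))))))))))))))))))))))))))))))))))))))))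
 (.lc 0 0 (.lc 2 10 (.lc 2 10 (.lc 0 0 (.conf [28,203] (.lc 0 0 (.lc 2 10 (.lc 0 0 (.lc 3 10 .stop))))))))))
 (.lc 0 0 (.lc 2 8 (.lc 2 8 (.lc 2 8 (.lc 2 8 (.lc 2 8 (.lc 2 8 (.lc 0 0 (.lc 3 1 (.lc 3 1 (.lc 3 1 (.lc 3 1 (.lc 3 1 (.lc 3 1 (.lc 3 8 (.lc 3 8 (.lc 3 8 (.lc 3 8 (.lc 3 8 (.lc 3 8 (.lc 4 1 (.lc 4 1 (.lc 4 1 (.lc 4 1 (.lc 4 1 (.lc 4 1 (.lc 4 1 (.lc 4 1 (.lc 4 1 (.lc 4 1 (.lc 0 0 (.lc 4 1 (.lc 5 1 (.lc 5 1 .stop)))))))))))))))))))))))))))))))))))))))))))))))))))))))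
 (.lc 3 0 (.lc 3 1 (.lc 3 2 (.lc 3 10 (.lc 1 3 (.lc 3 5 (.lc 1 3 (.lc 3 0 (.lc 3 10 (.lc 4 1 (.lc 4 10 (.lc 4 0 (.lc 4 0 (.lc 4 11 .stop)))))))))))))))
 (.conf [89,144] (.node [50,80,115] 0 7 (.far [16,16,257,0,1,256] 0 .stop)
 (.conf [89,151] (.node [50,80,147] 5 0 (.lc 0 1 .stop)
 (.conf [90,169] (.lc 3 3 (.lc 2 2 (.lc 3 3 (.lc 3 3 (.conf [89,144] (.lc 2 2 (.lc 2 2 (.conf [50,147] (.conf [50,147] (.node [50,87,112] 5 7 (.lc 0 5 .stop)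
 (.node [50,89] 0 3 (.node [] 8 5 (.far [16,0,257,16,256,16,4096] 0 (.lc 3 1 (.lc 3 10 (.lc 3 5 (.lc 1 0 (.lc 3 10 (.lc 4 11 .stop)))))))
 .stop)
 (.node [50,80,147] 5 0 (.far [257,257,16,256,16,4096] 0 (.lc 0 1 (.lc 0 1 (.lc 0 10 (.far [257,257,16,256,16,4096] 4097 (.lc 0 10 .stop))))))
 (.node [50,87,147] 5 7 (.lc 0 5 .stop)
 (.node [50,90,147] 9 3 (.node [146] 8 5 (.far [16,0,257,16,256,16,4096] 0 (.lc 3 0 (.lc 3 1 (.lc 3 11 (.lc 1 9 (.lc 3 5 (.lc 1 9 (.lc 3 0 (.lc 3 11 (.lc 4 1 (.lc 4 11 (.lc 4 0 (.lc 4 12 .stop)))))))))))))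
 (.lc 3 0 (.lc 3 7 (.lc 3 8 (.lc 3 11 (.node [144] 8 5 (.far [16,0,257,16,256,16,4096] 0 (.lc 3 1 (.lc 3 11 (.lc 3 5 (.lc 1 9 (.lc 3 11 (.lc 4 12 .stop)))))))
 (.conf [32,178] (.lc 3 0 (.lc 3 11 (.lc 4 11 (.lc 4 8 (.lc 4 12 .stop))))))))))))
 (.lc 3 3 (.lc 3 3 (.lc 3 3 (.lc 3 3 (.lc 2 2 (.lc 3 3 (.conf [90,169] (.conf [90,160] (.node [50,80,147,169] 5 0 (.lc 0 1 .stop)
 (.conf [91,186] (.lc 4 3 (.lc 3 2 (.lc 3 2 (.lc 4 3 (.lc 4 3 (.lc 4 3 (.lc 4 3 (.lc 4 3 (.lc 4 3 (.lc 4 3 (.lc 4 3 (.lc 4 3 (.lc 4 3 (.lc 4 3 (.lc 4 3 (.lc 4 3 (.lc 5 3 (.lc 5 3 (.lc 5 3 (.lc 5 3 .stop)))))))))))))))))))))))))))))))))))))))))))))))))))))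
 (.lc 3 0 (.lc 3 1 (.lc 3 2 (.lc 3 9 (.lc 1 5 (.lc 1 5 (.lc 3 0 (.lc 3 9 (.lc 4 1 (.lc 4 9 (.lc 4 0 (.lc 4 0 (.lc 4 10 .stop))))))))))))))
 (.conf [83,97] (.conf [83,104] (.conf [83,104] (.conf [83,96] (.conf [83,104] (.conf [83,96] (.conf [83,105] (.conf [83,100] (.conf [83,100] (.node [83,97,71] 6 1 .stop
 (.conf [104,128] (.node [83,96,71] 2 5 .stop
 (.conf [83,133] (.conf [83,133] (.conf [83,97] (.conf [83,104] (.conf [83,96] (.conf [83,96] (.conf [83,97] (.conf [83,98] (.conf [83,105] (.node [83,100,112,50,71] 0 5 (.node [50] 0 3 (.conf [1,48] (.far [4112,4112,257] 0 (.lc 0 8 .stop)))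
 (.lc 1 2 (.lc 1 2 .stop)))
 (.node [83,100,113,50,71] 1 5 .stop
 (.node [83,100,114,50,71] 2 5 (.lc 0 2 .stop)
 (.node [83,100,120,50,71] 5 3 (.node [50] 4 7 (.node [64,120,50] 4 0 (.lc 0 0 .stop)
 (.conf [65,120,23] (.lc 1 4 (.node [73,120,50] 1 4 (.node [] 7 8 (.node [112,131] 7 0 (.far [257,257,0,16,0,1,4096] 0 (.node [154,160,112] 9 10 (.node [160] 0 1 .stop
 (.lc 2 0 .stop))
 (.lc 0 1 .stop)))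
 (.node [114,131] 7 2 (.node [144,114] 1 9 (.far [16,1,257,4112,0,257,257,0,1,1] 4096 .stop)
 .stop)
 (.lc 1 3 (.lc 2 4 (.node [122,131] 9 7 (.far [16,257,0,16,0,1,4096] 0 (.conf [144,168,116] (.conf [146,168,116] (.conf [155,168,186] (.far [16,257,0,16,0,1,4096] 0 (.far [16,257,0,16,0,1,4096] 0 (.node [144,116] 9 0 (.node [] 8 3 (.lc 1 2 (.lc 2 3 (.node [50,139] 10 8 (.far [1,4112,0,0,1,0,0,256,257] 0 (.conf [162,179,131] (.conf [172,179,203] (.node [179,203,172] 11 3 (.node [178,203] 12 11 (.node [194] 12 2 (.lc 3 2 .stop)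
 (.lc 3 13 .stop))
 (.conf [179,194] (.conf [32,210] (.far [1,1,4096,4112,1,4096,257,0,0,0,0,0,256] 0 (.conf [32,210] .stop)))))
 (.far [1,4112,0,0,1,0,0,256,257] 0 (.conf [173,179,131] .stop))))))
 (.lc 2 2 (.lc 2 2 (.lc 2 2 (.lc 3 3 (.lc 2 2 (.lc 2 2 (.lc 3 3 (.node [50,179,203,50,140,168] 10 8 (.far [1,4112,0,0,1,0,0,256,257] 0 (.lc 3 2 (.lc 3 13 (.lc 1 11 (.lc 3 13 (.lc 4 14 .stop))))))
 (.lc 2 2 (.lc 2 2 (.lc 2 2 (.lc 2 2 (.lc 3 3 (.lc 3 2 (.lc 3 2 (.lc 3 2 (.lc 4 3 (.lc 3 2 (.lc 3 2 (.lc 3 2 (.lc 4 2 .stop))))))))))))))))))))))))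
 .stop)
 (.node [155,186,116] 9 11 (.node [186] 1 11 (.node [186] 11 10 (.node [168] 8 3 (.lc 1 2 (.lc 2 3 (.node [50,140] 10 8 (.far [1,4112,0,0,0,0,1,0,0,256,257] 0 (.lc 3 0 (.node [195,220,131] 10 13 (.node [220] 12 3 (.node [194,220] 13 12 (.node [210] 13 2 (.far [4096,1,4096,1,257,0,0,0,0,0,1,0,0,257,257,0,1,257] 4096 .stop)
 (.lc 3 0 .stop))
 (.conf [195,210] (.conf [32,226] .stop)))
 (.lc 2 12 (.far [4112,4096,4112,1,0,0,257,0,0,1,256,256,256] 17 (.lc 2 12 (.lc 2 12 (.lc 3 12 .stop))))))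
 (.lc 4 0 .stop))))
 (.lc 2 2 (.lc 2 2 (.lc 3 3 (.lc 2 2 (.node [50,195,220,50,141] 10 8 (.far [1,4112,0,0,0,0,1,0,0,256,257] 0 (.lc 3 0 (.lc 1 12 (.lc 4 0 .stop))))
 (.lc 2 2 (.lc 2 2 (.lc 2 2 (.lc 2 2 (.lc 3 3 (.lc 3 2 (.lc 3 2 (.lc 3 2 (.lc 3 2 (.lc 3 2 (.lc 3 2 (.lc 3 2 .stop))))))))))))))))))))
 (.far [1,0,257,256,257,4112,0,257,257,0,1,1] 4096 (.node [168,202] 10 8 (.far [257,256,16,16,1,4096] 0 (.lc 2 3 (.node [205,216] 8 3 (.node [211] 13 3 (.node [210] 12 13 (.node [194] 12 2 (.far [1,257,1,4096,1,0,0,0,0,1,0,0,257,257,0,1,257] 4096 .stop)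
 (.lc 3 0 .stop))
 (.lc 3 3 (.conf [32,226] .stop)))
 (.lc 2 2 (.lc 2 2 (.lc 0 14 (.lc 2 2 (.lc 3 2 .stop))))))
 (.lc 2 2 .stop))))
 (.far [4112,1,4096,4112,0,256,256] 17 (.conf [168,202] (.far [257,16,256,257,0,4096,4096] 0 (.far [257,16,256,257,0,4096,4096] 0 (.node [168,202,44] 10 8 (.far [257,272,16,16,4096,4096] 17 (.lc 2 3 (.lc 0 13 .stop)))
 (.node [168,202,220] 10 8 (.far [257,272,16,16,4096,4096] 0 (.lc 2 3 (.lc 0 14 (.lc 2 2 .stop))))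
 .stop)))))))))
 (.lc 2 1 (.conf [186,203] (.lc 2 1 (.lc 3 1 .stop)))))
 (.lc 2 10 (.node [186] 8 3 (.lc 1 2 (.lc 2 3 (.node [50,140] 10 8 (.far [1,4112,0,0,1,0,0,256,257] 0 (.lc 3 2 (.lc 3 13 (.node [195,220,131] 12 3 (.node [194,220] 13 12 (.far [1,4112,1,4128,4112,1,4096,256,258,512,512,512] 4097 (.lc 3 0 (.lc 3 14 .stop)))
 (.conf [195,210] (.conf [32,226] (.far [1,1,4096,4112,1,4096,257,0,0,0,0,0,256] 4097 (.conf [32,226] .stop)))))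
 (.lc 3 13 (.lc 4 14 .stop))))))
 (.lc 2 2 (.lc 2 2 (.lc 2 2 (.lc 3 3 (.lc 2 2 (.lc 2 2 (.lc 3 3 (.node [50,195,220,50,141] 10 8 (.far [1,4112,0,0,1,0,0,256,257] 0 (.lc 3 2 (.lc 3 14 (.lc 1 12 (.lc 3 14 (.lc 4 15 .stop))))))
 (.lc 2 2 (.lc 2 2 (.lc 2 2 (.lc 2 2 (.lc 2 2 (.lc 3 3 (.lc 3 2 (.lc 3 2 (.lc 3 2 (.lc 4 3 (.lc 3 2 (.lc 3 2 (.lc 3 2 (.lc 3 2 (.lc 4 2 .stop))))))))))))))))))))))))))
 (.lc 2 10 (.lc 2 10 (.lc 3 10 .stop))))))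
 (.conf [155,168,116] (.conf [144,168,116] (.conf [144,168,116] (.conf [156,168,116] .stop))))))))))))
 (.lc 3 4 (.lc 2 3 (.lc 2 3 (.lc 3 4 (.lc 2 3 (.lc 2 3 (.lc 3 4 (.lc 2 3 (.lc 3 4 (.lc 3 4 (.lc 3 4 (.node [122,131,160,122,151] 0 8 (.node [131] 8 3 (.lc 1 2 .stop)
 (.lc 1 2 (.lc 1 2 (.node [131,184,43,131] 8 3 (.node [179] 3 2 .stop
 (.lc 0 12 .stop))
 (.lc 1 2 .stop)))))
 (.node [112,131] 3 2 (.lc 2 2 .stop)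
 (.lc 1 2 (.node [112,131,168] 7 0 .stop
 (.lc 3 4 (.node [131,168,186,123,151] 9 7 (.node [186] 8 3 (.node [50,128] 8 0 (.node [160] 0 3 (.node [] 11 10 (.node [160,188] 9 11 (.far [16,257,258,8224,8192,4096,4097,0,0,257,257,0,1,257] 4096 (.lc 3 1 (.lc 1 10 .stop)))
 (.conf [160,183] (.conf [160,202] (.lc 0 1 (.lc 0 1 .stop)))))
 .stop)
 (.lc 0 1 (.lc 0 12 .stop)))
 (.lc 1 2 (.lc 2 3 (.node [50,140] 10 8 (.node [172] 12 3 (.node [194] 11 10 (.node [172,176] 0 10 (.node [194] 11 0 (.lc 0 1 .stop)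
 (.lc 1 2 (.lc 1 2 (.lc 1 2 .stop))))
 (.node [172,189] 10 12 (.node [194] 9 11 (.node [157] 13 12 (.node [210] 9 13 .stop
 (.far [16,0,16,0,257,4096,4096] 17 .stop))
 (.lc 3 1 (.lc 1 12 (.lc 1 12 (.lc 4 1 .stop)))))
 (.lc 2 2 (.lc 0 0 (.lc 0 14 (.lc 3 2 .stop)))))
 (.conf [168,176] (.conf [168,189] (.conf [172,183] (.conf [172,183] (.conf [189,208] (.conf [172,218] (.conf [172,218] (.lc 1 2 (.node [168,183,194] 9 12 .stop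
 (.lc 0 1 (.lc 2 2 (.lc 0 1 .stop))))))))))))))
 (.node [192,172,186,50] 10 12 (.node [160] 11 10 (.far [1,4096,1,1,4096,0,1,0,0,257,257,0,1,257] 4096 (.lc 0 1 .stop))
 (.lc 3 8 (.conf [173,208] .stop)))
 (.node [32,205,172,186,50] 10 12 (.node [173] 11 10 (.node [189] 11 13 (.node [157] 13 2 .stop
 .stop)
 (.lc 3 7 (.lc 1 2 (.lc 1 2 .stop))))
 (.lc 3 8 (.far [16,256,4112,0,16,256,16,256,0,0,0,0,4096] 0 (.conf [174,237] .stop))))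
 (.far [16,16,256,16,256,16,256,0,0,0,0,4096] 0 (.conf [32,210] (.far [1,1,4096,1,4096,1,4096,0,0,0,0,256] 0 (.far [1,1,4096,1,4096,1,4096,0,0,0,0,256] 0 (.node [205,208,172,186,50] 10 12 (.far [1,4096,257,0,1,4096,1,4096,0,0,0,0,256] 0 (.lc 3 8 (.lc 1 0 .stop)))
 (.conf [32,210] .stop)))))))))
 (.lc 3 0 (.lc 3 2 (.lc 3 13 (.lc 1 3 (.lc 1 3 (.lc 3 0 (.lc 3 13 (.lc 4 13 (.lc 4 0 (.lc 4 0 (.lc 4 14 .stop))))))))))))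
 (.lc 2 2 (.lc 2 2 (.lc 2 2 (.lc 3 3 (.lc 2 2 (.lc 3 3 (.lc 3 3 (.conf [140,192] (.lc 2 2 (.lc 2 2 (.lc 2 2 (.node [50,128,195,50] 8 0 .stop
 (.lc 3 3 (.conf [141,220] (.lc 2 2 (.lc 2 2 (.lc 2 2 (.lc 2 2 (.lc 3 3 (.lc 2 2 (.lc 3 3 (.lc 3 2 (.lc 3 2 (.lc 3 2 (.lc 3 2 (.lc 4 3 (.lc 3 2 (.lc 3 2 (.lc 4 3 (.lc 4 3 (.lc 3 2 (.lc 3 2 (.lc 3 2 (.lc 3 2 (.lc 3 2 (.lc 3 2 (.lc 4 2 (.lc 4 2 .stop))))))))))))))))))))))))))))))))))))))))))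
 (.lc 3 0 (.lc 3 2 (.lc 3 12 (.lc 1 10 (.lc 1 10 (.lc 3 0 (.lc 3 12 (.lc 4 12 (.lc 4 0 (.lc 4 0 (.lc 4 13 .stop))))))))))))
 (.lc 2 3 (.lc 3 4 (.lc 2 3 (.lc 2 3 (.lc 2 3 (.lc 2 3 (.lc 3 4 (.lc 2 3 (.lc 3 4 (.lc 3 4 (.lc 3 4 (.lc 3 4 (.lc 3 4 (.lc 3 4 (.lc 3 4 (.lc 3 4 (.lc 4 4 (.lc 3 3 (.lc 4 4 (.lc 3 3 (.lc 4 4 (.lc 3 3 (.lc 3 3 (.lc 3 3 (.lc 4 4 (.lc 3 3 (.lc 4 4 (.lc 4 4 (.lc 2 2 (.lc 4 4 (.lc 4 4 (.lc 4 4 (.lc 4 4 (.lc 4 4 (.lc 4 4 (.lc 4 4 (.lc 4 4 (.lc 4 4 (.lc 4 4 (.lc 4 4 (.lc 4 4 (.lc 4 4 (.lc 4 4 (.lc 4 4 (.lc 4 4 (.lc 4 4 (.lc 5 4 (.lc 5 4 (.lc 5 4 (.lc 5 4 (.lc 5 4 (.lc 5 4 .stop))))))))))))))))))))))))))))))))))))))))))))))))))))))))))))))))))))))))))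
 (.lc 3 0 (.node [24,137,151,65] 1 8 .stop
 (.node [26,151,65] 1 10 (.node [] 7 8 (.node [112,131] 7 0 .stop
 (.node [114,131] 7 2 .stop
 (.lc 1 3 (.lc 2 4 (.node [122,131,169,151] 7 10 .stop
 (.node [123,131] 9 7 (.far [16,257,0,0,16,0,1,4096] 0 (.conf [171,184] (.conf [156,203] (.conf [148,171] (.conf [148,172] .stop)))))
 (.lc 2 3 (.lc 2 3 (.lc 2 3 (.lc 2 3 (.lc 3 4 (.lc 2 3 (.lc 2 3 (.lc 3 4 (.lc 0 9 (.node [112,131] 9 7 .stop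
 (.lc 1 2 (.lc 3 4 (.node [131,184,203,124,151] 9 7 (.node [156,203,184] 10 9 (.node [172] 10 12 (.node [171,184] 10 11 (.node [184] 11 8 (.node [131] 8 3 (.lc 2 2 .stop)
 (.far [4112,1,257,256,256,256] 17 (.lc 2 2 .stop)))
 (.lc 2 8 (.far [4112,4112,4096,4112,0,1,256,256] 17 (.conf [184,219] .stop))))
 (.lc 3 0 (.lc 1 8 (.lc 1 8 (.lc 3 0 (.lc 4 0 (.lc 4 0 .stop)))))))
 (.lc 1 7 (.lc 0 8 (.conf [203,220] (.lc 1 8 .stop)))))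
 (.lc 3 4 (.lc 1 11 (.lc 3 4 (.lc 4 4 .stop)))))
 (.lc 2 3 (.lc 2 3 (.lc 2 3 (.lc 2 3 (.lc 3 4 (.lc 2 3 (.lc 2 3 (.lc 3 4 (.lc 3 4 (.lc 3 4 (.lc 3 4 (.lc 3 3 (.lc 3 3 (.lc 3 3 (.lc 3 3 (.lc 3 3 (.lc 4 4 (.lc 3 3 (.lc 4 4 (.lc 4 4 (.lc 4 4 (.lc 4 4 (.lc 4 4 (.lc 4 4 (.lc 4 4 (.lc 5 4 .stop)))))))))))))))))))))))))))))))))))))))))))))
 (.lc 2 9 (.lc 2 9 (.node [186] 7 8 (.node [114,131] 7 2 .stop
 (.lc 1 3 (.lc 2 4 (.node [122,131,169,151,186] 7 10 .stop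
 (.node [184,186] 7 11 .stop
 (.node [124,131] 9 7 (.far [16,257,0,0,16,0,1,4096] 0 (.conf [172,200] (.conf [157,220] (.lc 0 12 (.lc 0 13 .stop)))))
 (.lc 2 3 (.lc 2 3 (.lc 3 4 (.lc 2 3 (.lc 2 3 (.lc 2 3 (.lc 2 3 (.lc 3 4 (.lc 1 2 (.lc 3 4 (.lc 0 9 (.node [131,200,220,125,151] 9 7 (.node [157,220,200] 10 9 (.node [173] 10 13 (.node [172,186] 10 12 (.far [257,257,256,257,0,16,4096,4096] 0 (.lc 0 8 (.lc 0 14 .stop)))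
 (.lc 3 1 (.lc 1 8 (.lc 1 8 (.lc 3 1 (.lc 4 1 .stop))))))
 (.lc 3 12 (.lc 0 8 (.lc 3 14 (.lc 4 14 .stop)))))
 (.lc 3 4 (.lc 1 12 (.lc 3 4 (.lc 4 4 .stop)))))
 (.lc 2 3 (.lc 2 3 (.lc 2 3 (.lc 3 4 (.lc 2 3 (.lc 2 3 (.lc 2 3 (.lc 3 4 (.lc 3 4 (.lc 3 4 (.lc 3 4 (.lc 3 3 (.lc 3 3 (.lc 4 4 (.lc 3 3 (.lc 3 3 (.lc 4 4 (.lc 4 4 (.lc 4 4 (.lc 4 4 (.lc 4 4 (.lc 4 4 (.lc 5 4 .stop)))))))))))))))))))))))))))))))))))))))))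
 (.lc 2 9 (.lc 3 9 .stop))))))
 (.lc 3 0 (.node [151,169,26] 7 8 (.node [112,131] 7 0 (.far [257,257,0,16,0,1,4096] 0 (.far [257,257,16,256,257,257,0,1,1] 4096 .stop))
 (.node [114,131] 7 2 .stop
 (.lc 1 3 (.lc 2 4 (.node [168,169,151] 7 10 .stop
 (.node [123,131] 9 7 (.far [16,257,0,16,0,1,4096] 0 (.conf [148,171] (.far [16,257,0,16,0,1,4096] 0 (.conf [156,203] (.far [16,257,16,256,257,257,0,1,1] 4096 (.conf [148,184,116] (.conf [148,184,116] .stop)))))))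
 (.lc 2 3 (.lc 2 3 (.lc 2 3 (.lc 2 3 (.lc 2 3 (.lc 3 4 (.lc 2 3 (.lc 2 3 (.lc 2 3 (.lc 3 4 (.lc 3 4 (.node [123,131,176,123,151,169] 9 7 (.node [155,176] 11 0 (.far [1,16,257,16,256,257,257,0,1,1] 16 (.lc 0 9 .stop))
 (.lc 3 4 (.lc 1 0 (.lc 3 4 (.lc 4 4 .stop)))))
 (.node [112,131] 9 7 (.far [16,257,16,256,257,257,0,1,1] 4096 (.far [16,257,16,256,257,257,0,1,1] 4096 .stop))
 (.lc 1 2 (.lc 3 4 (.node [112,131,184] 7 0 .stop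
 (.node [131,184,203,124,151,169] 9 7 (.node [156,203,184] 9 12 (.node [172] 10 12 (.far [16,256,16,257,16,256,257,257,0,1,1] 4096 (.lc 3 1 (.lc 1 8 (.lc 1 8 (.lc 4 1 .stop)))))
 (.lc 0 11 (.lc 0 0 (.lc 0 13 (.lc 1 8 (.lc 0 0 (.lc 0 13 .stop)))))))
 (.lc 3 4 (.lc 1 11 (.lc 1 11 (.lc 3 4 (.lc 4 4 (.lc 4 4 .stop)))))))
 (.lc 2 3 (.lc 3 4 (.lc 2 3 (.lc 2 3 (.lc 2 3 (.lc 2 3 (.lc 2 3 (.lc 3 4 (.lc 2 3 (.lc 2 3 (.lc 3 4 (.lc 3 4 (.lc 3 4 (.lc 3 4 (.lc 3 3 (.lc 4 4 (.lc 3 3 (.lc 3 3 (.lc 3 3 (.lc 3 3 (.lc 4 4 (.lc 3 3 (.lc 3 3 (.lc 4 4 (.lc 4 4 (.lc 4 4 (.lc 4 4 (.lc 4 4 (.lc 4 4 (.lc 4 4 (.lc 4 4 (.lc 4 4 (.lc 4 4 (.lc 4 4 (.lc 5 4 (.lc 5 4 (.lc 5 4 (.lc 5 4 .stop)))))))))))))))))))))))))))))))))))))))))))))))))))))))))))))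
 (.lc 3 0 (.conf [26,169] (.lc 4 0 (.conf [27,186] .stop))))))))))
 (.lc 0 0 (.lc 2 8 (.lc 2 8 (.lc 2 8 (.lc 2 8 (.lc 0 0 (.lc 3 1 (.lc 3 1 (.lc 0 0 (.node [73,120,144,50,73] 0 7 (.node [120] 7 8 (.far [257,16,16,0,1,4096] 0 (.lc 1 2 (.lc 2 3 .stop)))
 (.lc 2 0 (.lc 2 0 (.node [120,167,42,120] 7 8 (.far [257,16,16,0,1,4096] 0 (.lc 2 3 (.lc 2 3 (.lc 0 11 (.lc 2 3 (.lc 3 3 .stop))))))
 (.lc 2 0 (.lc 3 0 .stop))))))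
 (.lc 2 4 (.lc 2 4 (.lc 2 4 (.node [64,120,151,50] 4 0 (.lc 0 0 .stop)
 (.conf [25,151] (.node [74,120,151,169,50,74] 4 10 (.node [169] 7 8 (.node [112,131] 7 0 (.far [257,257,0,16,0,1,4096] 0 (.lc 0 1 (.lc 0 11 .stop)))
 (.node [114,131] 7 2 (.lc 0 0 .stop)
 (.lc 1 3 (.lc 2 4 (.node [123,131] 9 7 (.far [16,257,0,16,0,1,4096] 0 (.lc 3 0 (.lc 3 2 (.lc 3 12 (.lc 1 8 (.lc 1 8 (.lc 3 0 (.lc 3 12 (.lc 4 12 (.lc 4 0 (.lc 4 0 (.lc 4 13 .stop))))))))))))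
 (.lc 3 4 (.lc 2 3 (.lc 2 3 (.lc 3 4 (.lc 2 3 (.lc 2 3 (.lc 3 4 (.lc 2 3 (.lc 3 4 (.lc 3 4 (.lc 3 4 (.conf [123,176] (.node [112,131] 9 7 (.far [16,257,257,256,257,257,0,1,1] 4096 (.lc 3 1 (.lc 3 11 .stop)))
 (.lc 1 2 (.node [112,131,184] 7 0 .stop
 (.lc 3 4 (.conf [124,203] (.lc 2 3 (.lc 3 4 (.lc 2 3 (.lc 2 3 (.lc 2 3 (.lc 2 3 (.lc 3 4 (.lc 2 3 (.lc 3 4 (.lc 3 4 (.lc 3 4 (.lc 3 4 (.lc 3 4 (.lc 3 4 (.lc 3 4 (.lc 4 4 (.lc 3 3 (.lc 4 4 (.lc 3 3 (.lc 4 4 (.lc 3 3 (.lc 3 3 (.lc 3 3 (.lc 4 4 (.lc 3 3 (.lc 4 4 (.lc 4 4 (.lc 2 2 (.lc 4 4 (.lc 4 4 (.lc 4 4 (.lc 4 4 (.lc 4 4 (.lc 4 4 (.lc 4 4 (.lc 4 4 (.lc 4 4 (.lc 4 4 (.lc 4 4 (.lc 4 4 (.lc 4 4 (.lc 4 4 (.lc 4 4 (.lc 4 4 (.lc 4 4 (.lc 5 4 (.lc 5 4 (.lc 5 4 (.lc 5 4 (.lc 5 4 (.lc 5 4 .stop)))))))))))))))))))))))))))))))))))))))))))))))))))))))))))))))))))))))))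
 (.lc 0 0 (.lc 2 9 (.lc 2 9 (.lc 0 0 (.conf [27,186] (.lc 0 0 (.lc 2 9 (.lc 0 0 (.lc 3 9 .stop))))))))))
 (.lc 0 0 (.lc 2 8 (.lc 2 8 (.lc 2 8 (.lc 2 8 (.lc 0 0 (.lc 3 1 (.lc 0 0 (.lc 3 1 (.lc 3 1 (.lc 3 8 (.lc 0 0 (.lc 3 8 (.lc 3 8 (.lc 3 8 (.lc 3 8 (.lc 0 0 (.lc 4 1 (.lc 0 0 (.lc 4 1 (.lc 0 0 (.lc 4 1 (.lc 0 0 (.lc 4 1 (.lc 0 0 (.lc 4 1 (.lc 0 0 (.lc 5 1 .stop))))))))))))))))))))))))))))))))))))))))))))))))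
 (.lc 2 2 (.lc 2 2 (.far [4112,4096,1,256] 0 (.lc 2 2 (.far [4112,4096,1,256] 0 (.lc 2 2 (.lc 2 2 (.lc 3 2 (.lc 3 2 (.lc 3 2 .stop)))))))))))
 (.conf [83,100] (.conf [83,100] (.conf [83,100] (.conf [83,100] (.conf [83,104] (.conf [83,105] (.conf [83,104] (.conf [83,97] (.conf [83,105] (.conf [83,96] (.conf [83,96] (.conf [83,106] (.conf [83,100] (.conf [83,100] (.conf [83,100] (.conf [83,100] (.conf [83,100] (.conf [113,71,20] (.node [83,120,128,71,50] 0 5 (.conf [3,50] (.lc 1 2 (.lc 3 1 .stop)))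
 (.node [83,120,129,71,50] 1 5 .stop
 (.far [1,1,257,257] 4096 (.node [83,120,130,71,50] 2 5 (.lc 2 0 .stop)
 (.node [83,112,133,71,50] 7 0 (.lc 2 1 (.lc 1 0 (.lc 3 9 (.lc 1 0 .stop))))
 (.node [83,121,152,71,50] 5 3 (.far [4112,4096,1,256] 0 (.lc 2 2 (.lc 2 2 (.far [4112,4096,1,256] 0 (.lc 2 2 (.far [4112,4096,1,256] 0 (.lc 2 2 (.lc 2 2 (.lc 3 2 (.lc 3 2 (.lc 3 2 .stop)))))))))))
 (.far [1,1,257,257] 16 (.node [83,120,128,71,50] 0 5 .stop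
 (.conf [83,112,71,37,50] (.node [83,112,133,71,50] 7 0 (.lc 2 1 (.lc 0 2 (.lc 2 9 (.lc 2 8 (.lc 1 0 (.lc 0 9 (.lc 3 9 (.lc 3 10 (.lc 2 8 (.lc 2 8 (.lc 1 0 (.lc 3 8 .stop))))))))))))
 (.node [83,113,133,71,50] 1 4 (.lc 1 7 (.lc 2 7 .stop))
 (.node [83,114,133,71,50] 7 2 (.lc 1 8 (.lc 2 8 .stop))
 (.node [83,121,133,71,50] 5 3 (.node [50] 4 7 (.lc 2 0 (.lc 1 9 (.lc 2 10 (.lc 3 0 (.conf [25,152] (.lc 3 10 (.lc 0 0 (.lc 3 1 (.lc 0 0 (.lc 3 10 (.lc 3 0 (.lc 2 9 (.lc 3 11 (.lc 3 0 (.lc 1 8 (.lc 3 10 (.lc 3 1 (.lc 0 0 (.lc 3 1 (.lc 0 0 (.lc 4 10 (.lc 4 0 (.lc 2 8 (.lc 4 11 (.lc 0 0 (.lc 4 1 (.lc 0 0 (.lc 4 1 (.lc 0 0 (.lc 4 1 (.lc 0 0 (.lc 4 1 (.lc 0 0 (.lc 5 1 .stop))))))))))))))))))))))))))))))))))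
 (.lc 2 2 (.lc 2 2 (.lc 0 0 (.lc 2 2 (.lc 0 10 (.lc 2 2 (.lc 2 2 (.lc 3 2 (.lc 3 2 (.lc 3 2 .stop)))))))))))
 (.node [83,100,113,50,71] 5 3 (.far [257,256,16,4096] 4097 (.lc 2 2 (.lc 2 2 .stop)))
 (.node [83,100,120,128,120,71,50] 0 5 .stop
 (.node [83,100,37,50,71,112] 2 5 (.lc 0 2 .stop)
 (.node [83,100,112,133,50,71] 5 3 (.far [257,256,16,4096] 0 (.lc 2 2 (.lc 2 2 (.lc 0 9 (.lc 2 2 (.lc 3 2 .stop))))))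
 (.node [83,100,121,152,121,71,50] 5 3 (.far [257,256,16,4096] 0 (.lc 2 2 (.lc 2 2 (.lc 0 0 (.lc 2 2 (.lc 0 10 (.lc 2 2 (.lc 2 2 (.lc 3 2 (.lc 3 2 (.lc 3 2 .stop)))))))))))
 (.conf [120,129,71,20] (.node [83,121,152,71,128,50] 0 5 .stop
 (.conf [83,120,71,37,50] (.conf [113,71,20] (.node [83,121,133,144,71,50] 5 3 (.node [50] 0 8 (.lc 1 3 (.node [] 4 7 (.lc 1 9 (.lc 2 10 (.lc 1 0 (.lc 3 10 (.lc 3 1 (.lc 2 9 (.lc 3 11 (.conf [25,144] (.lc 3 10 (.lc 3 1 (.lc 3 1 (.conf [26,169] (.lc 4 11 (.lc 4 1 (.lc 4 1 (.lc 4 1 (.lc 4 1 (.lc 5 1 .stop))))))))))))))))))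
 (.lc 2 3 (.lc 1 2 .stop))))
 (.lc 2 2 (.lc 2 2 (.lc 0 10 (.lc 2 2 (.lc 3 2 .stop))))))
 (.conf [112,133,71,40,50] (.node [83,112,133,152,71,50] 7 0 (.lc 2 1 (.lc 1 0 (.lc 3 10 (.lc 1 0 .stop))))
 (.node [83,122,133,152,71,50] 5 3 (.node [50] 4 7 (.lc 2 0 (.lc 1 10 (.lc 2 11 (.lc 3 0 (.lc 1 9 (.lc 3 11 (.lc 0 0 (.lc 3 1 (.lc 0 0 (.lc 3 11 (.lc 3 0 (.lc 2 10 (.lc 3 12 (.lc 3 0 (.conf [26,169] (.lc 3 11 (.lc 3 1 (.lc 0 0 (.lc 3 1 (.lc 0 0 (.lc 4 11 (.lc 4 0 (.conf [27,186] (.lc 4 12 (.lc 0 0 (.lc 4 1 (.lc 0 0 (.lc 4 1 (.lc 0 0 (.lc 4 1 (.lc 0 0 (.lc 4 1 (.lc 0 0 (.lc 5 1 .stop))))))))))))))))))))))))))))))))))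
 (.lc 2 2 (.lc 2 2 (.lc 0 0 (.lc 2 2 (.lc 0 11 (.lc 2 2 (.lc 2 2 (.lc 3 2 (.lc 3 2 (.lc 3 2 .stop)))))))))))
 .stop)))))))))))))))))))))))))))))))))))))))))))))))))))))))))))))))))))))))))

theorem t43 : kNode2 awTt FTt 6 5 (check tyTt awTt triet FTt [] c43) (fun _ _ _ => true) 0 s43 Pl.nil s43 =
    true := by
  decide +kernel

end Chk
end Pool.Agent.Lib.MP_ba95e8_co
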