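import Pool.Agent.Lib.MP_ba95e8_co.ChkTab
import Pool.Agent.Lib.MP_ba95e8_co.ChkStates

/-!
Deltahedral domes: part 44 of the case analysis.
-/

namespace Pool.Agent.Lib.MP_ba95e8_co
namespace Chk

/-- certificate number 44 -/
def c44 : Cert := (.node [64,101,50] 4 0 (.lc 0 0 .stop)
 (.node [71,101,50] 1 4 (.node [118] 5 3 (.node [50,80] 0 3 (.node [] 6 5 (.lc 1 0 (.lc 2 4 (.node [] 7 6 (.lc 2 1 (.far [16,257,0,0,0,16,1] 0 (.node [104,121] 6 8 (.far [257,16,257,0,0,0,16,1] 0 (.conf [133,154,100] (.node [154,168,100] 7 9 (.lc 2 1 (.node [123,154,168] 9 10 (.far [771,48,771,12384,771,516,4,0,96,16386,514] 8192 (.lc 2 8 (.lc 0 12 (.lc 2 8 (.lc 3 8 .stop)))))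
 (.conf [150,168] (.lc 3 1 (.conf [154,185] (.lc 3 1 (.node [150,168,133,123] 10 8 (.node [133] 7 11 (.far [257,0,257,0,257,0,0,0,4096,4096] 0 (.lc 2 8 (.lc 2 8 .stop)))
 (.lc 2 5 (.lc 0 12 (.lc 2 5 (.lc 3 5 .stop)))))
 (.lc 3 1 (.lc 3 1 (.conf [150,203,124] (.lc 4 1 (.lc 4 1 .stop))))))))))))
 (.far [257,16,257,0,0,0,16,1] 0 (.conf [133,155,100] .stop)))))
 (.lc 2 4 (.lc 3 9 (.lc 3 10 (.far [16,257,0,0,0,16,1] 0 (.node [104,150,169,104] 9 6 (.far [16,16,257,0,0,0,16,1] 0 (.lc 1 5 (.lc 1 5 (.lc 3 11 (.lc 2 5 .stop)))))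
 (.lc 2 4 (.lc 2 4 (.lc 2 4 (.lc 3 9 (.lc 3 10 (.lc 3 4 (.lc 4 10 (.lc 4 11 (.lc 3 4 (.lc 3 4 (.lc 3 4 (.lc 4 4 .stop))))))))))))))))))))
 (.lc 2 0 (.lc 2 0 (.lc 2 0 (.lc 3 9 (.lc 3 4 (.node [133,152] 7 6 (.lc 2 1 (.node [100,152,133] 7 9 (.lc 2 1 (.node [122,152] 9 8 (.far [771,48,12384,771,516,4,0,96,16386,514] 8192 (.lc 2 5 (.lc 0 11 (.lc 2 5 (.lc 3 5 .stop)))))
 (.lc 2 6 (.lc 3 1 (.conf [152,169] (.lc 3 1 (.lc 1 5 (.lc 3 1 (.lc 3 1 (.lc 2 5 (.lc 4 1 (.lc 4 1 .stop))))))))))))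
 (.node [105,122,152,133] 6 9 (.node [152] 8 5 (.node [80,128,152] 9 8 (.node [128,155] 10 9 (.far [48,771,6,48,0,12291,516,24608,0,0,514,514] 8192 (.lc 3 12 (.lc 1 8 (.lc 3 12 (.lc 4 13 .stop)))))
 (.lc 3 6 (.conf [128,184] (.lc 3 6 (.lc 4 6 .stop)))))
 (.node [80,138] 10 5 .stop
 (.node [80,139] 11 5 (.node [176] 9 8 (.node [139,156] 10 9 (.far [48,771,6,6,48,0,12291,516,24608,0,0,514,514] 8192 (.lc 3 11 (.lc 3 13 (.lc 1 8 (.lc 3 13 (.lc 4 14 .stop))))))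
 (.conf [133,156] (.conf [139,150] (.conf [139,200] (.lc 1 0 (.node [133,150,171] 10 11 (.lc 2 6 (.node [172,176] 7 10 (.far [16,257,1,0,0,4096,4096] 0 (.conf [113,166,203] (.far [16,257,1,0,0,4096,4096] 0 .stop)))
 (.lc 3 6 (.node [173,203,220,173,176] 7 10 (.node [220] 7 13 (.node [220,203] 1 13 .stop
 (.far [257,257,0,0,0,0,0,257,0,0,0,4096,4096] 0 .stop))
 (.lc 3 1 (.lc 1 12 .stop)))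
 (.lc 3 6 (.lc 4 6 .stop))))))
 (.lc 0 12 (.lc 2 0 (.lc 0 13 (.lc 0 12 (.lc 0 12 (.lc 2 0 (.lc 0 13 .stop)))))))))))))
 (.lc 3 1 (.lc 3 12 .stop)))
 (.lc 2 0 (.lc 3 1 (.lc 3 10 (.lc 3 12 (.conf [80,181] (.lc 2 0 (.lc 2 0 (.lc 2 0 (.lc 2 0 (.lc 3 11 (.lc 3 10 (.lc 3 11 (.lc 3 12 (.lc 4 13 (.lc 3 0 (.lc 3 0 (.lc 3 0 (.lc 4 0 .stop)))))))))))))))))))))
 (.lc 2 8 (.lc 0 11 (.lc 2 8 (.lc 3 8 .stop)))))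
 (.lc 2 4 (.lc 3 10 (.lc 3 11 (.conf [122,152,169] (.conf [105,166] (.lc 2 4 (.lc 2 4 (.lc 2 4 (.lc 3 10 (.lc 3 11 (.lc 3 4 (.lc 4 11 (.lc 4 12 (.lc 3 4 (.lc 3 4 (.lc 3 4 (.lc 4 4 .stop))))))))))))))))))))
 (.lc 2 0 (.lc 2 0 (.lc 2 0 (.lc 2 0 (.lc 3 9 (.lc 3 0 (.lc 3 0 (.lc 4 10 (.lc 3 0 (.lc 3 0 (.lc 3 0 (.lc 4 0 .stop)))))))))))))))))))))
 .stop)
 (.node [50,87] 7 3 .stop
 (.node [50,88] 3 2 (.node [130] 6 5 (.node [] 0 5 (.far [257,1,0,0,0,0,257,257] 4096 (.node [88,117] 0 7 (.far [4096,0,257,0,0,0,16,1] 0 .stop)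
 (.far [1,1,0,4112,0,0,257] 0 (.node [88] 5 8 (.far [4112,1,1,0,4112,0,0,257] 0 (.lc 2 2 (.lc 2 2 (.far [4112,1,1,0,4112,0,0,257] 0 (.lc 2 2 (.lc 3 2 .stop))))))
 (.lc 2 0 (.lc 2 0 (.node [88,149,41,88] 5 8 (.node [152] 8 2 .stop
 (.lc 2 2 (.lc 2 2 (.lc 0 10 (.lc 2 2 (.lc 3 2 .stop))))))
 (.lc 1 2 (.node [88,149,169,88] 5 8 (.node [152] 0 10 (.node [169] 2 10 (.node [169,152] 8 10 .stop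
 (.lc 0 2 .stop))
 (.far [4112,0,4112,256] 0 (.lc 0 0 (.lc 2 9 (.lc 0 0 (.lc 1 10 (.lc 2 9 (.lc 2 9 (.lc 0 0 .stop)))))))))
 (.lc 2 2 (.lc 2 2 (.lc 0 11 (.lc 2 2 (.lc 3 2 .stop))))))
 (.lc 2 0 (.lc 2 0 (.lc 2 0 (.lc 1 2 (.lc 3 0 .stop))))))))))))))
 (.lc 2 4 (.lc 1 3 (.node [] 7 6 (.node [105,112] 0 6 (.far [16,16,257,0,0,0,16,1] 0 (.far [256,0,257,0,0,0,0,257,257] 4096 (.far [16,16,257,0,0,0,16,1] 0 (.far [4112,16,0,4096,1,0,16,4096] 0 .stop))))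
 (.lc 2 1 (.node [105,120] 8 6 .stop
 (.far [16,257,0,0,0,16,1] 0 (.node [105,122] 6 9 (.far [257,16,257,0,0,0,16,1] 0 (.conf [149,160,100] (.conf [149,168,100] (.conf [149,171,100] (.node [160,100] 10 0 (.far [1,257,16,257,0,0,0,16,1,257] 16 (.lc 0 1 (.lc 0 1 .stop)))
 (.node [171,185,100] 7 10 (.node [112,171,185] 0 10 (.far [16,16,257,4128,257,4112,1,0,32,4097,257] 4096 (.lc 1 9 (.lc 1 9 (.lc 2 9 .stop))))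
 (.lc 2 1 (.node [120,171,185] 8 10 .stop
 (.node [124,171,185] 10 11 (.far [257,16,257,4128,257,4112,1,0,32,4097,257] 4096 (.lc 2 9 (.lc 2 9 (.lc 2 9 (.lc 0 0 (.lc 0 13 (.lc 2 9 (.lc 2 9 (.lc 3 9 (.lc 3 9 (.lc 3 9 .stop)))))))))))
 (.conf [166,185] (.conf [166,185] (.lc 3 1 (.lc 3 1 (.lc 3 1 (.node [124,171,192,185,124] 0 10 .stop
 (.conf [171,202] (.conf [171,202] (.node [166,185,149,112] 7 0 (.far [257,257,0,257,0,0,0,4096,4096] 0 .stop)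
 (.lc 3 1 (.node [166,185,149,120] 7 8 .stop
 (.node [166,185,149,124] 11 9 (.node [149] 7 12 (.far [257,0,257,0,257,0,0,0,4096,4096] 0 (.lc 2 9 (.far [257,257,256,1,0,257,0,0,4112,0,257,1] 16 (.lc 2 9 (.lc 2 9 (.lc 3 9 .stop))))))
 (.lc 2 5 (.lc 2 5 (.lc 2 5 (.lc 0 0 (.lc 0 13 (.lc 2 5 (.lc 2 5 (.lc 3 5 (.lc 3 5 (.lc 3 5 .stop)))))))))))
 (.lc 3 1 (.lc 3 1 (.lc 4 1 (.conf [166,192,124] (.node [166,185,203,149,112] 7 0 (.far [1,256,257,16,257,0,0,0,16,1,257] 16 .stop)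
 (.conf [166,220,125] (.lc 4 1 (.lc 4 1 (.lc 4 1 (.lc 4 1 (.lc 4 1 (.lc 5 1 .stop))))))))))))))))))))))))))))
 (.far [257,16,257,0,0,0,16,1] 0 (.far [257,16,257,0,0,0,16,1] 0 (.conf [149,171,100] (.conf [149,160,100] (.conf [149,172,100] .stop)))))))))))
 (.lc 2 4 (.lc 2 4 (.lc 3 8 (.lc 3 10 (.lc 3 2 (.lc 3 0 (.lc 3 8 (.lc 3 10 (.lc 3 0 (.lc 3 8 (.lc 3 11 (.lc 3 1 (.node [105,122,160] 0 6 .stop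
 (.far [16,257,0,0,0,16,1] 0 (.far [16,257,0,0,0,16,1] 0 (.node [105,112,166,105] 7 0 (.lc 2 0 .stop)
 (.node [105,166,186,105] 10 6 (.far [16,16,257,0,0,0,16,1] 0 (.lc 1 5 (.lc 1 5 (.lc 1 5 (.lc 1 5 (.lc 1 5 (.lc 3 0 (.lc 3 12 (.lc 2 5 (.lc 2 5 (.lc 2 5 .stop)))))))))))
 (.lc 2 4 (.lc 2 4 (.lc 2 4 (.lc 2 4 (.lc 2 4 (.lc 2 4 (.lc 2 4 (.lc 3 10 (.lc 3 0 (.lc 3 0 (.lc 3 10 (.lc 3 0 (.lc 3 10 (.lc 3 0 (.lc 3 11 (.lc 3 4 (.lc 3 4 (.lc 3 4 (.lc 3 4 (.lc 4 11 (.lc 4 0 (.lc 4 10 (.lc 4 0 (.lc 4 11 (.lc 4 11 (.lc 4 0 (.lc 4 12 (.lc 3 4 (.lc 3 4 (.lc 3 4 (.lc 3 4 (.lc 3 4 (.lc 3 4 (.lc 3 4 (.lc 3 4 (.lc 3 4 (.lc 3 4 (.lc 3 4 (.lc 3 4 (.lc 3 4 (.lc 3 4 (.lc 3 4 (.lc 4 4 (.lc 4 4 (.lc 4 4 (.lc 4 4 (.lc 4 4 .stop)))))))))))))))))))))))))))))))))))))))))))))))))))))))))))))))))))))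
 (.lc 2 8 (.lc 2 8 (.lc 2 8 (.lc 2 8 (.lc 2 8 (.lc 2 8 (.lc 3 1 (.lc 3 9 (.lc 2 3 (.lc 2 3 (.lc 3 0 (.lc 3 10 (.lc 3 4 (.node [144] 9 0 (.node [145] 9 1 (.node [151] 6 9 (.lc 0 1 .stop)
 (.conf [154,167] (.lc 0 4 .stop)))
 (.node [151,118] 9 7 (.lc 0 4 .stop)
 (.conf [118,151] (.conf [118,151] (.node [154,161,23] 6 9 (.conf [106,161] (.lc 3 4 (.lc 3 4 (.lc 1 1 (.lc 3 4 (.lc 4 4 .stop))))))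
 (.conf [118,154,167] .stop))))))
 (.lc 2 3 (.lc 2 3 (.lc 2 3 (.node [149] 0 9 (.node [149] 2 9 (.node [149] 9 5 (.lc 0 2 .stop)
 (.conf [149,169] (.lc 1 3 .stop)))
 (.node [149,137] 8 9 (.lc 0 3 .stop)
 (.conf [137,149] (.conf [137,149] (.node [149,169,42] 9 5 (.conf [88,165] (.lc 2 3 (.lc 2 3 (.lc 0 11 (.lc 2 3 (.lc 3 3 .stop))))))
 (.conf [138,149,169] .stop))))))
 (.lc 3 4 (.node [149,169] 7 6 (.node [106,112,169,149] 0 6 (.node [169] 0 10 (.node [169,149] 2 10 (.lc 1 5 .stop)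
 (.node [169,149] 7 10 .stop
 (.conf [138,169] (.far [257,256,0,257,0,0,0,0,257,257] 4096 (.far [257,257,4096] 0 (.conf [137,149] .stop))))))
 (.lc 1 9 (.lc 1 9 (.lc 2 9 .stop))))
 (.lc 2 1 (.node [106,120,169,149] 8 6 .stop
 (.node [100,169,149] 7 10 (.node [112,169] 0 10 (.far [16,16,4128,257,4112,1,0,32,4097,257] 4096 (.lc 1 5 (.lc 1 5 (.lc 2 5 .stop))))
 (.lc 2 1 (.node [120,169] 8 10 .stop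
 (.node [123,169] 10 9 (.far [257,16,4128,257,4112,1,0,32,4097,257] 4096 (.lc 2 5 (.lc 2 5 (.lc 2 5 (.lc 0 0 (.lc 0 12 (.lc 2 5 (.lc 2 5 (.lc 3 5 (.lc 3 5 (.lc 3 5 .stop)))))))))))
 (.lc 2 6 (.lc 2 6 (.lc 3 1 (.lc 3 1 (.lc 3 1 (.node [123,169,176,123] 0 10 .stop
 (.conf [169,186] (.conf [169,186] (.lc 1 5 (.lc 3 1 (.lc 1 5 (.lc 1 5 (.lc 3 1 (.lc 3 1 (.lc 4 1 (.lc 2 5 (.lc 2 5 (.lc 2 5 (.lc 4 1 (.lc 4 1 (.lc 4 1 (.lc 4 1 (.lc 4 1 (.lc 5 1 .stop))))))))))))))))))))))))))))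
 (.node [106,123,169,149] 6 10 (.node [169] 5 8 (.node [80,130] 5 0 (.node [144] 9 0 (.node [145,169] 9 1 .stop
 (.node [152,169] 9 8 .stop
 .stop))
 (.lc 0 1 (.lc 0 12 .stop)))
 (.lc 1 2 (.node [83,152,169] 10 9 (.node [152,160] 0 9 (.far [1,1,4128,0,0,1,4112,8208,0,0,257,257] 4096 (.lc 1 2 (.lc 1 2 (.lc 1 2 .stop))))
 (.node [152,172] 9 8 (.far [4112,1,4128,0,0,1,4112,8208,0,0,257,257] 4096 (.lc 2 2 (.lc 0 0 (.lc 0 13 (.lc 3 2 .stop)))))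
 (.lc 2 5 (.lc 2 5 (.lc 3 6 (.lc 3 6 (.conf [172,192] (.conf [152,201] (.conf [152,201] (.lc 1 2 (.lc 2 5 (.lc 3 6 (.lc 3 6 (.lc 2 2 (.lc 4 6 (.lc 4 6 (.lc 4 6 (.lc 3 5 (.lc 3 5 (.lc 2 2 (.lc 3 2 .stop)))))))))))))))))))))
 (.node [91,130] 5 11 .stop
 (.node [92,130] 9 5 (.node [156] 10 9 (.node [156,160] 0 9 (.far [1,1,4097,8224,0,0,1,4112,8208,0,0,257,257] 4096 (.lc 1 8 (.lc 1 8 .stop)))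
 (.node [156,173] 11 10 (.far [16,257,2,8224,16,0,4097,4112,8208,0,0,257,257] 4096 (.lc 3 0 (.lc 3 12 (.lc 3 14 (.lc 1 9 (.lc 1 9 (.lc 3 0 (.lc 3 14 (.lc 4 14 (.lc 4 0 (.lc 4 15 .stop)))))))))))
 (.conf [149,160] (.conf [149,173] (.conf [156,166] (.conf [156,166] (.conf [173,208] (.conf [156,217] (.conf [156,217] (.lc 1 8 (.lc 1 8 (.node [149,166,188] 11 12 (.node [176,200] 11 0 (.far [257,257,1,0,0,4096,4096] 0 (.far [1,257,1,0,0,4096,1,0,0,0,4096,4096] 0 (.far [1,257,257,257,0,0,0,1,0,0,4112,0,257,1] 16 (.lc 0 1 .stop))))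
 (.lc 2 6 (.lc 1 5 (.node [189,200] 12 8 (.far [4112,1,257,256,256] 0 (.conf [130,197,210] (.far [4112,1,257,256,256] 0 (.far [4112,1,257,256,256] 0 (.conf [130,197,208] .stop)))))
 (.lc 2 5 (.lc 2 5 (.lc 3 6 (.lc 3 6 (.node [189,200,208,189] 0 12 (.node [130,192] 7 11 (.far [16,16,256,4096,4096,4096,4096,4096] 0 (.lc 3 1 (.lc 1 0 .stop)))
 .stop)
 (.node [176,200,220,200] 11 0 (.node [113,176] 12 8 (.far [4112,4112,4096,256,256,256,256,256] 0 (.lc 2 2 (.lc 0 14 .stop)))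
 .stop)
 (.node [190,220,237,190,200] 12 8 (.node [216] 7 11 (.node [237] 13 8 (.node [210,237] 13 2 .stop
 (.far [16,0,16,0,0,0,16,0,0,0,4096,4096] 17 .stop))
 (.lc 3 1 (.lc 1 13 (.lc 1 13 (.lc 4 1 .stop)))))
 (.lc 2 2 (.lc 0 0 (.lc 0 15 (.lc 3 2 .stop)))))
 (.lc 2 5 (.lc 3 6 (.lc 3 6 (.lc 3 5 (.lc 4 6 .stop))))))))))))))))
 (.lc 0 0 (.lc 0 13 (.lc 2 8 (.lc 2 8 (.lc 2 8 (.lc 0 13 (.lc 0 0 (.lc 0 14 (.lc 0 0 (.lc 0 13 (.lc 0 0 (.lc 0 13 (.lc 2 8 (.lc 2 8 (.lc 0 13 (.lc 0 0 (.lc 0 14 .stop)))))))))))))))))))))))))))))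
 (.lc 3 0 (.lc 3 11 (.lc 3 13 (.lc 1 8 (.lc 1 8 (.lc 3 0 (.lc 3 13 (.lc 4 13 (.lc 4 0 (.lc 4 14 .stop)))))))))))
 (.lc 2 2 (.lc 2 2 (.lc 2 2 (.lc 2 2 (.lc 2 2 (.lc 2 2 (.lc 2 2 (.lc 2 2 (.lc 2 2 (.lc 3 3 (.lc 3 3 (.lc 0 0 (.conf [92,192] (.lc 2 2 (.node [80,130,200] 5 0 .stop
 (.lc 0 12 (.conf [93,220] (.lc 2 2 (.lc 2 2 (.lc 2 2 (.lc 2 2 (.lc 2 2 (.lc 2 2 (.lc 2 2 (.lc 2 2 (.lc 3 3 (.lc 3 3 (.lc 3 3 (.lc 3 3 (.lc 3 3 (.lc 3 3 (.lc 3 3 (.lc 3 2 (.lc 3 2 (.lc 3 2 (.lc 3 2 (.lc 3 2 (.lc 3 2 (.lc 3 2 (.lc 4 3 (.lc 4 3 (.lc 4 3 (.lc 4 3 (.lc 4 3 (.lc 4 3 (.lc 4 3 (.lc 4 3 (.lc 4 3 (.lc 4 3 (.lc 4 3 (.lc 4 3 (.lc 4 3 (.lc 4 3 (.lc 4 3 (.lc 4 3 (.lc 4 3 (.lc 4 3 (.lc 4 3 (.lc 5 3 (.lc 5 3 (.lc 5 3 (.lc 5 3 .stop)))))))))))))))))))))))))))))))))))))))))))))))))))))))))))))))))))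
 (.lc 2 9 (.lc 2 9 (.lc 2 9 (.lc 0 0 (.lc 0 12 (.lc 2 9 (.lc 2 9 (.lc 3 9 (.lc 3 9 (.lc 3 9 .stop)))))))))))
 (.lc 2 4 (.lc 2 4 (.lc 3 8 (.lc 3 11 (.lc 3 2 (.lc 3 0 (.lc 3 8 (.lc 3 11 (.lc 3 0 (.lc 3 8 (.lc 3 12 (.lc 3 1 (.node [106,123,176,169,149] 0 6 .stop
 (.node [112,169,149] 0 10 .stop
 (.conf [123,169,186] (.conf [106,182] (.conf [106,182] (.lc 2 4 (.lc 2 4 (.lc 2 4 (.lc 2 4 (.lc 2 4 (.lc 2 4 (.lc 2 4 (.lc 3 11 (.lc 3 0 (.lc 3 0 (.lc 3 11 (.lc 3 0 (.lc 3 11 (.lc 3 0 (.lc 3 12 (.lc 3 4 (.lc 3 4 (.lc 3 4 (.lc 3 4 (.lc 4 12 (.lc 4 0 (.lc 4 11 (.lc 4 0 (.lc 4 12 (.lc 4 12 (.lc 4 0 (.lc 4 13 (.lc 3 4 (.lc 3 4 (.lc 3 4 (.lc 3 4 (.lc 3 4 (.lc 3 4 (.lc 3 4 (.lc 3 4 (.lc 3 4 (.lc 3 4 (.lc 3 4 (.lc 3 4 (.lc 3 4 (.lc 3 4 (.lc 3 4 (.lc 4 4 (.lc 4 4 (.lc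 4 4 (.lc 4 4 (.lc 4 4 .stop)))))))))))))))))))))))))))))))))))))))))))))))))))))))))))))))))))))
 (.lc 2 8 (.lc 2 8 (.lc 2 8 (.lc 2 8 (.lc 2 8 (.lc 2 8 (.lc 2 8 (.lc 2 8 (.lc 2 8 (.lc 2 8 (.lc 2 8 (.lc 3 9 (.lc 3 0 (.lc 2 3 (.lc 2 3 (.lc 3 0 (.lc 3 10 (.lc 3 8 (.lc 3 8 (.lc 3 8 (.lc 3 8 (.lc 3 8 (.lc 3 8 (.lc 3 8 (.lc 4 10 (.lc 3 3 (.lc 3 3 (.lc 3 3 (.lc 4 10 (.lc 4 0 (.lc 4 11 (.lc 3 8 (.lc 3 8 (.lc 3 8 (.lc 3 8 (.lc 3 8 (.lc 3 8 (.lc 3 8 (.lc 3 8 (.lc 3 8 (.lc 3 8 (.lc 3 8 (.lc 3 8 (.lc 3 8 (.lc 3 8 (.lc 3 8 (.lc 3 8 (.lc 4 8 (.lc 4 8 (.lc 4 8 (.lc 4 8 (.lc 4 8 .stop))))))))))))))))))))))))))))))))))))))))))))))))))))))))))))))))))))))))))))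
 (.lc 0 0 (.lc 0 7 (.lc 0 9 (.lc 0 0 (.lc 0 9 (.far [257,16,16,257,256,4096] 0 (.conf [32,146] (.lc 0 9 (.lc 0 10 .stop))))))))))
 (.lc 2 2 (.lc 2 2 (.node [50,87,112] 7 0 (.node [] 5 7 .stop
 .stop)
 (.node [50,88,128] 0 3 (.node [] 6 5 (.lc 2 4 (.node [88] 5 8 (.far [8224,2,258,8192,0,0,514,257] 4096 (.lc 0 7 (.lc 0 10 (.lc 0 10 (.node [128,168] 10 8 (.node [128,167] 7 8 .stop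
 (.node [128,171] 8 0 .stop
 (.lc 1 8 (.lc 3 7 (.lc 3 12 (.conf [128,184] (.lc 2 0 (.lc 3 7 (.lc 3 11 (.lc 3 12 (.lc 4 13 (.lc 3 0 .stop))))))))))))
 (.lc 0 11 .stop))))))
 (.lc 2 3 (.lc 2 3 (.lc 3 10 (.lc 3 4 (.conf [88,149] (.lc 2 3 (.lc 2 3 (.lc 2 3 (.lc 3 10 (.lc 3 3 (.lc 3 3 (.lc 4 11 (.lc 3 3 (.lc 3 3 (.lc 3 3 (.lc 4 3 .stop))))))))))))))))))
 .stop)
 (.conf [50,131] (.conf [50,131] (.conf [50,131] (.conf [88,128] (.conf [50,131] (.conf [50,131] (.lc 2 2 (.lc 2 2 (.lc 2 2 (.lc 2 2 (.lc 2 2 (.lc 2 2 (.node [50,88,128] 0 3 (.far [1,1,1,4112,4096,256] 0 .stop)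
 (.node [50,80,115] 7 3 .stop
 (.node [50,88,135] 7 3 .stop
 (.node [50,80] 5 0 (.node [81] 5 1 .stop
 (.conf [87,118] (.lc 3 0 .stop)))
 (.node [50,89,152] 8 3 (.far [1,1,1,4112,4096,256] 0 (.lc 3 0 (.lc 3 7 (.lc 3 10 (.node [] 6 5 (.lc 2 4 (.node [89] 5 9 (.far [4112,1,1,8208,0,0,257,257] 4096 (.lc 2 8 (.lc 2 8 (.lc 0 11 (.lc 2 8 (.lc 3 8 .stop))))))
 (.lc 2 3 (.lc 2 3 (.lc 3 11 (.lc 3 4 (.conf [89,165] (.lc 2 3 (.lc 2 3 (.lc 2 3 (.lc 3 11 (.lc 3 3 (.lc 3 3 (.lc 4 12 (.lc 3 3 (.lc 3 3 (.lc 3 3 (.lc 4 3 .stop))))))))))))))))))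
 (.conf [32,162] (.lc 3 0 (.lc 3 10 (.lc 4 10 (.lc 4 11 .stop))))))))))
 (.lc 3 2 (.lc 3 2 (.node [50,89,152,128] 0 3 (.node [] 6 5 (.lc 2 4 (.node [89] 5 9 (.far [8224,2,258,16416,0,0,514,257] 4096 (.lc 2 8 (.lc 2 8 (.lc 0 11 (.lc 2 8 (.lc 3 8 .stop))))))
 (.lc 2 3 (.lc 2 3 (.lc 3 11 (.lc 3 4 (.conf [89,165] (.lc 2 3 (.lc 2 3 (.lc 2 3 (.lc 3 11 (.lc 3 3 (.lc 3 3 (.lc 4 12 (.lc 3 3 (.lc 3 3 (.lc 3 3 (.lc 4 3 .stop))))))))))))))))))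
 .stop)
 (.conf [50,131] (.conf [50,131] (.conf [50,131] (.lc 3 2 (.lc 3 2 (.lc 3 2 (.lc 3 2 (.lc 3 2 (.lc 3 2 (.lc 3 2 (.lc 3 2 (.lc 3 2 (.lc 4 2 (.lc 4 2 .stop)))))))))))))))))))))))))))))))))))))))))
 (.lc 3 0 (.lc 1 6 (.lc 3 0 (.lc 1 6 (.lc 3 0 (.conf [24,135] (.lc 4 0 (.lc 2 6 .stop)))))))))
 (.conf [71,112] (.node [64,101,118,50] 4 0 (.lc 0 0 .stop)
 (.conf [72,135] (.lc 0 0 (.conf [65,118,23] (.conf [71,112] (.conf [64,101,118] (.conf [72,101,118] (.node [71,101,50] 0 6 (.node [101] 6 5 (.far [257,256,0,257,257] 4096 (.lc 2 3 .stop))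
 (.lc 2 0 (.conf [101,134] (.lc 1 3 (.lc 2 3 .stop)))))
 (.node [64,101,118,50] 4 0 (.lc 0 0 .stop)
 (.node [72,101,118,50] 4 8 (.node [] 7 6 (.node [101,112] 0 6 (.far [16,16,257,257,513,1] 4096 (.lc 1 3 (.lc 1 3 (.lc 1 3 (.far [16,16,257,257,513,1] 4096 (.lc 2 3 .stop))))))
 (.node [101,114] 2 6 .stop
 (.node [101,121] 6 5 (.far [257,16,257,257,513,1] 4096 (.lc 2 3 (.lc 2 3 (.lc 2 3 (.lc 0 0 (.lc 0 10 (.lc 2 3 (.lc 2 3 (.lc 3 3 (.lc 3 3 (.lc 3 3 (.lc 3 3 .stop))))))))))))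
 (.lc 2 4 (.lc 2 4 (.lc 3 1 (.lc 3 9 (.lc 3 0 (.lc 3 0 (.lc 3 2 (.lc 3 10 (.conf [121,144] (.node [101,112] 2 6 .stop
 (.conf [101,150] (.conf [101,150] (.lc 1 3 (.lc 1 3 (.lc 1 3 (.lc 2 4 (.lc 2 4 (.lc 2 4 (.lc 3 9 (.lc 3 0 (.lc 3 9 (.lc 3 0 (.lc 3 10 (.lc 2 3 (.lc 2 3 (.lc 2 3 (.lc 2 3 (.lc 4 10 (.lc 4 9 (.lc 4 10 (.lc 4 0 (.lc 4 0 (.lc 4 11 (.lc 3 4 (.lc 3 4 (.lc 3 4 (.lc 3 4 (.lc 2 3 (.lc 2 3 (.lc 2 3 (.lc 2 3 (.lc 2 3 (.lc 2 3 (.lc 2 3 (.lc 2 3 (.lc 2 3 (.lc 2 3 (.lc 2 3 (.lc 3 3 (.lc 3 3 (.lc 3 3 (.lc 3 3 (.lc 3 3 (.lc 3 3 .stop)))))))))))))))))))))))))))))))))))))))))))))))))))))))))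
 (.lc 0 0 (.lc 2 7 (.lc 0 0 (.conf [25,152] (.lc 0 0 (.lc 2 7 (.lc 0 0 (.lc 3 7 .stop)))))))))
 (.lc 0 0 (.conf [65,101] (.lc 0 0 (.node [23,65,101,50] 1 7 (.node [] 5 3 (.lc 1 2 (.lc 1 2 (.lc 1 2 (.node [80] 7 6 (.conf [80,100] (.node [101,120,134,80] 6 5 (.conf [80,133] (.lc 2 9 (.lc 2 0 (.lc 2 0 (.lc 3 4 (.node [137,149] 7 8 (.node [122,137] 8 9 (.node [149] 7 10 .stop
 (.lc 2 5 (.lc 0 11 (.lc 2 5 (.lc 3 5 .stop)))))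
 (.lc 2 6 (.conf [137,168] (.lc 2 6 (.lc 3 6 .stop)))))
 (.lc 3 10 (.lc 2 0 (.lc 2 0 (.lc 2 0 (.lc 3 4 (.lc 3 0 (.lc 3 0 (.lc 4 4 (.lc 3 0 (.lc 3 0 (.lc 3 0 (.lc 4 0 .stop))))))))))))))))))
 (.lc 2 5 (.lc 1 0 (.lc 3 9 (.lc 1 0 (.node [101,121,134,152,80,134] 6 5 (.conf [80,133] (.lc 2 10 (.lc 2 0 (.lc 2 0 (.lc 3 4 (.lc 0 10 (.lc 3 11 (.lc 2 0 (.lc 2 0 (.lc 2 0 (.lc 3 4 (.lc 3 0 (.lc 3 0 (.lc 4 4 (.lc 3 0 (.lc 3 0 (.lc 3 0 (.lc 4 0 .stop))))))))))))))))))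
 (.lc 2 5 (.lc 2 5 (.lc 3 8 (.lc 3 9 (.lc 3 5 (.lc 2 0 (.lc 4 10 (.lc 3 5 (.lc 3 5 (.lc 3 5 (.lc 4 5 .stop))))))))))))))))))
 (.conf [32,130] (.lc 2 2 (.lc 2 2 (.lc 2 2 (.lc 2 2 (.lc 2 2 (.lc 2 2 (.node [80] 7 6 (.lc 2 0 (.conf [80,100] (.node [101,120,134,80] 6 5 (.lc 1 0 (.conf [80,133] (.lc 2 9 (.lc 2 0 (.lc 2 0 (.lc 3 4 (.node [137,149] 7 8 (.lc 2 0 (.node [122,137] 8 9 (.node [149] 7 10 (.far [257,0,257,0,257,0,16,4096] 0 (.lc 1 10 (.far [257,0,257,0,257,0,16,4096] 0 .stop)))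
 (.lc 2 5 (.lc 0 11 (.lc 2 5 (.lc 3 5 .stop)))))
 (.lc 2 6 (.lc 3 0 (.conf [137,168] (.lc 3 0 (.lc 2 6 (.lc 3 0 (.lc 3 6 (.lc 4 0 .stop))))))))))
 (.lc 3 10 (.lc 2 0 (.lc 2 0 (.lc 2 0 (.lc 2 0 (.lc 3 4 (.lc 3 0 (.lc 3 0 (.lc 4 4 (.lc 3 0 (.lc 3 0 (.lc 3 0 (.lc 4 0 .stop))))))))))))))))))))
 (.lc 2 5 (.lc 1 0 (.lc 3 9 (.lc 1 0 (.node [101,121,134,152,80,134] 6 5 (.lc 1 0 (.conf [80,133] (.lc 2 10 (.lc 2 0 (.lc 2 0 (.lc 3 4 (.lc 0 10 (.lc 3 11 (.lc 2 0 (.lc 2 0 (.lc 2 0 (.lc 2 0 (.lc 3 4 (.lc 3 0 (.lc 3 0 (.lc 4 4 (.lc 3 0 (.lc 3 0 (.lc 3 0 (.lc 4 0 .stop))))))))))))))))))))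
 (.lc 2 5 (.lc 2 5 (.lc 2 5 (.lc 3 8 (.lc 3 9 (.lc 3 5 (.lc 2 0 (.lc 4 10 (.lc 3 5 (.lc 3 5 (.lc 3 5 (.lc 4 5 .stop))))))))))))))))))))
 (.node [32,87,114,118,101] 7 2 (.node [] 7 6 (.lc 0 3 .stop)
 .stop)
 (.node [32,88] 8 2 (.node [] 7 6 (.lc 2 0 (.conf [88,100] (.node [101,120,128,134] 7 8 (.lc 2 0 .stop)
 (.node [101,121,150,88,128] 6 5 (.lc 1 3 (.conf [88,149] (.lc 2 10 (.lc 2 8 (.lc 2 8 (.lc 2 3 (.lc 3 4 (.lc 2 3 (.lc 2 3 (.node [154,165] 7 9 (.lc 2 0 (.node [120,154] 8 9 .stop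
 (.node [123,154] 9 10 (.node [165] 7 11 (.far [257,0,257,0,257,0,0,16,4096] 0 (.far [1,0,257,0,257,4096,0,4112,4096] 256 (.far [4112,4112,4096,4112,1,256,0,4096,1,16,16] 1 (.far [257,0,257,0,257,0,0,16,4096] 0 (.far [257,0,257,0,257,0,0,16,4096] 0 (.node [140,186,112] 5 8 (.lc 2 12 (.lc 3 3 (.lc 3 13 .stop)))
 .stop))))))
 (.lc 2 5 (.lc 2 5 (.lc 0 12 (.lc 2 5 (.lc 3 5 .stop))))))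
 (.lc 2 6 (.lc 3 0 (.lc 3 0 (.lc 3 0 (.conf [154,185] (.lc 3 0 (.lc 2 6 (.lc 2 6 (.lc 3 0 (.lc 3 0 (.lc 4 0 (.lc 3 6 (.lc 4 0 (.lc 4 0 (.lc 4 0 (.lc 4 0 (.lc 4 0 (.lc 5 0 .stop)))))))))))))))))))))
 (.lc 3 11 (.lc 2 8 (.lc 2 8 (.lc 2 8 (.lc 2 3 (.lc 3 4 (.lc 3 8 (.lc 3 8 (.lc 3 3 (.lc 4 4 (.lc 3 8 (.lc 3 8 (.lc 3 8 (.lc 4 8 .stop))))))))))))))))))))))))
 (.lc 2 5 (.lc 2 5 (.lc 2 5 (.lc 1 8 (.lc 3 8 (.lc 3 10 (.lc 1 8 (.lc 3 0 (.node [101,122,150,169,88,128,150] 6 5 (.lc 1 3 (.conf [88,149] (.lc 2 11 (.lc 2 8 (.lc 2 8 (.lc 2 3 (.lc 3 4 (.lc 2 3 (.lc 2 3 (.lc 0 11 (.lc 3 12 (.lc 2 8 (.lc 2 8 (.lc 2 8 (.lc 2 3 (.lc 3 4 (.lc 3 8 (.lc 3 8 (.lc 3 3 (.lc 4 4 (.lc 3 8 (.lc 3 8 (.lc 3 8 (.lc 4 8 .stop))))))))))))))))))))))))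
 (.lc 2 5 (.lc 2 5 (.lc 2 5 (.lc 2 5 (.lc 2 5 (.lc 2 5 (.lc 2 5 (.lc 3 8 (.lc 3 9 (.lc 3 9 (.lc 3 10 (.lc 3 5 (.lc 3 5 (.lc 2 8 (.lc 4 11 (.lc 3 5 (.lc 3 5 (.lc 3 5 (.lc 3 5 (.lc 3 5 (.lc 3 5 (.lc 4 5 .stop)))))))))))))))))))))))))))))))))))
 (.lc 0 5 (.lc 3 7 (.lc 3 9 (.far [16,16,1,257,256] 17 (.node [144,7,118,101,88,137,144] 7 6 (.lc 1 4 (.node [101,134] 7 8 (.far [1,257,4096,0,4112,4096] 256 (.lc 1 0 .stop))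
 (.node [101,144,150] 7 9 (.lc 2 0 .stop)
 (.node [101,122,166] 6 5 (.lc 1 3 (.lc 2 9 (.conf [88,165] (.lc 2 11 (.lc 2 8 (.lc 2 8 (.lc 2 8 (.lc 2 8 (.lc 2 3 (.lc 3 4 (.lc 2 3 (.lc 2 3 (.node [171,181] 7 10 (.node [120,171] 8 10 .stop
 (.node [144,154,171] 9 10 (.lc 1 5 .stop)
 (.node [124,171] 10 11 (.node [181] 0 7 (.conf [156,203] .stop)
 (.lc 2 5 (.lc 2 5 (.lc 2 5 (.lc 0 13 (.lc 2 5 (.lc 1 0 (.lc 3 5 .stop))))))))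
 (.lc 2 6 (.lc 3 0 (.lc 0 0 (.conf [171,202] (.lc 2 6 (.lc 2 6 (.lc 2 6 (.lc 0 0 (.lc 3 6 (.lc 4 0 .stop)))))))))))))
 (.lc 3 12 (.lc 2 8 (.lc 2 8 (.lc 2 8 (.lc 2 8 (.lc 2 8 (.lc 2 3 (.lc 3 4 (.lc 3 4 (.lc 3 8 (.lc 3 8 (.lc 3 3 (.lc 4 4 (.lc 3 8 (.lc 3 8 (.lc 3 8 (.lc 3 8 (.lc 3 8 (.lc 4 8 .stop))))))))))))))))))))))))))))))))
 (.lc 2 5 (.lc 2 5 (.lc 2 5 (.lc 2 5 (.lc 1 8 (.lc 1 8 (.lc 3 9 (.lc 3 8 (.lc 3 9 (.lc 3 11 (.lc 1 8 (.lc 0 0 (.node [101,123,166,186,166] 6 5 (.lc 1 3 (.lc 2 9 (.conf [88,165] (.lc 2 12 (.lc 2 8 (.lc 2 8 (.lc 2 8 (.lc 2 8 (.lc 2 3 (.lc 3 4 (.lc 2 3 (.lc 2 3 (.lc 0 12 (.lc 3 13 (.lc 2 8 (.lc 2 8 (.lc 2 8 (.lc 2 8 (.lc 2 8 (.lc 2 3 (.lc 3 4 (.lc 3 4 (.lc 3 8 (.lc 3 8 (.lc 3 3 (.lc 4 4 (.lc 3 8 (.lc 3 8 (.lc 3 8 (.lc 3 8 (.lc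 3 8 (.lc 4 8 .stop))))))))))))))))))))))))))))))))
 (.lc 2 5 (.lc 2 5 (.lc 2 5 (.lc 2 5 (.lc 2 5 (.lc 2 5 (.lc 2 5 (.lc 2 5 (.lc 2 5 (.lc 2 5 (.lc 2 5 (.lc 1 3 (.lc 2 4 (.lc 3 9 (.lc 3 10 (.lc 3 10 (.lc 3 11 (.lc 3 5 (.lc 3 5 (.lc 3 5 (.lc 2 8 (.lc 4 10 (.lc 4 9 (.lc 4 12 (.lc 3 5 (.lc 3 5 (.lc 3 5 (.lc 3 5 (.lc 3 5 (.lc 3 5 (.lc 3 5 (.lc 3 5 (.lc 3 5 (.lc 3 5 (.lc 3 5 (.lc 3 5 (.lc 3 5 (.lc 3 5 (.lc 3 5 (.lc 4 5 (.lc 4 5 (.lc 4 5 (.lc 4 5 .stop))))))))))))))))))))))))))))))))))))))))))))))))))))))))))))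
 (.lc 3 7 (.lc 3 9 (.lc 4 9 (.lc 4 10 .stop))))))))))
 (.lc 3 0 (.lc 3 7 (.lc 3 8 (.lc 2 2 (.lc 2 2 (.lc 2 2 (.lc 2 2 (.conf [87,118] (.conf [128,7,88,101,118] (.conf [32,130] (.lc 3 2 (.lc 3 2 (.lc 3 2 (.lc 4 7 (.lc 4 8 (.lc 4 9 (.lc 4 7 (.lc 4 8 (.lc 4 8 (.lc 4 9 (.lc 4 7 (.lc 4 8 (.lc 4 7 (.lc 4 9 (.lc 5 8 (.lc 5 9 (.lc 5 10 .stop)))))))))))))))))))))))))))))))))))))))))
 (.lc 2 6 (.lc 2 6 (.lc 1 3 (.node [135] 5 3 (.lc 1 2 (.lc 1 2 (.lc 1 2 (.conf [32,146] (.lc 2 2 (.lc 2 2 (.lc 2 2 (.lc 2 2 (.lc 2 2 (.lc 2 2 (.far [1,4112,4112,4096] 256 (.node [32,87,114,118,101,135] 7 2 .stop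
 (.node [32,130,135,88,101] 8 2 (.far [257,1,4112,4112,4096] 4097 .stop)
 (.node [32,89] 9 2 (.far [1,1,4112,4112,4096] 256 (.lc 3 8 (.conf [1,135] (.lc 3 8 (.lc 3 10 (.lc 4 10 .stop))))))
 (.lc 3 0 (.lc 3 7 (.lc 3 8 (.lc 3 9 (.lc 2 2 (.lc 2 2 (.lc 2 2 (.lc 2 2 (.lc 2 2 (.conf [1,135] (.conf [87,118] (.conf [32,146] (.lc 3 2 (.lc 3 2 (.lc 3 2 (.lc 4 8 (.lc 4 7 (.lc 4 10 (.lc 4 8 (.lc 4 9 (.lc 4 9 (.lc 4 7 (.lc 4 9 (.lc 4 10 (.lc 4 8 (.lc 4 7 (.lc 4 7 (.lc 4 8 (.lc 4 10 (.lc 5 9 (.lc 5 9 (.lc 5 7 (.lc 5 11 .stop)))))))))))))))))))))))))))))))))))))))))))))))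
 (.lc 1 3 (.lc 2 6 (.lc 2 3 (.lc 1 3 (.lc 3 6 .stop))))))))))
 (.conf [72,135] (.conf [72,128] (.node [64,101,118,135,50] 4 0 (.lc 0 0 .stop)
 (.conf [73,152] (.lc 0 0 (.conf [24,135] (.lc 0 0 (.conf [65,101] (.lc 0 0 (.conf [65,101] (.lc 0 0 (.conf [65,101] (.lc 0 0 (.conf [65,101] .stop)))))))))))))))))))))))))))))))

theorem t44 : kNode2 awTt FTt 4 6 (check tyTt awTt triet FTt [] c44) (fun _ _ _ => true) 0 s44 Pl.nil s44 =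
    true := by
  decide +kernel

end Chk
end Pool.Agent.Lib.MP_ba95e8_co
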