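import Pool.Agent.Lib.MP_ba95e8_co.ChkTab
import Pool.Agent.Lib.MP_ba95e8_co.ChkStates

/-!
Deltahedral domes: part 45 of the case analysis.
-/

namespace Pool.Agent.Lib.MP_ba95e8_co
namespace Chk

/-- certificate number 45 -/
def c45 : Cert := (.node [64,50] 4 0 (.node [69,50] 0 3 (.lc 1 0 (.node [83] 4 5 (.node [21,83] 1 5 (.node [83] 5 3 (.node [50] 3 2 (.far [257,256,16,256,0,0,0,1] 4096 (.node [103,114,48] 1 6 .stop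
 (.node [103,114,48] 1 6 .stop
 (.far [257,256,16,256,0,0,0,1] 4096 (.node [104,135,48,114] 1 6 .stop
 .stop)))))
 (.lc 2 0 (.conf [48,80,98] (.far [4112,1,1,256,256] 0 (.lc 2 0 (.lc 3 0 .stop))))))
 (.node [83,101,118,83] 5 3 (.far [257,16,16,4096,4096] 0 (.lc 2 0 (.lc 2 0 (.lc 0 8 (.lc 2 0 (.lc 3 0 .stop))))))
 .stop))
 (.lc 2 3 (.conf [22,101] (.lc 2 3 (.lc 3 3 .stop)))))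
 (.lc 2 2 (.far [4112,1,256] 0 (.lc 2 2 (.lc 3 2 .stop))))))
 (.conf [70,101] .stop))
 (.node [69,50] 1 4 (.lc 2 0 (.node [22,69,50] 4 5 (.asm [83] 0 (.lc 2 3 (.lc 2 3 (.lc 0 0 (.lc 0 7 (.lc 2 3 (.lc 2 3 (.lc 3 3 (.lc 3 3 (.lc 3 3 .stop))))))))))
 (.lc 3 0 (.conf [22,101] (.lc 3 0 (.conf [69,100] (.lc 3 0 (.conf [69,100] (.lc 3 0 (.node [22,65,83,50] 5 3 (.lc 2 0 (.lc 1 2 (.lc 2 7 (.lc 2 2 (.lc 2 2 (.lc 2 2 (.node [50,96] 0 3 (.far [256,0,0,0,1] 4096 .stop)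
 (.lc 2 2 (.conf [103,115] (.lc 3 7 (.lc 2 2 (.lc 2 2 (.lc 3 0 (.lc 3 8 (.lc 2 2 (.lc 2 2 (.lc 2 2 (.lc 2 2 (.lc 2 2 (.lc 0 0 (.lc 2 2 (.lc 0 7 (.lc 3 2 (.lc 3 2 (.lc 3 2 (.lc 3 2 (.lc 0 7 (.lc 3 2 (.lc 3 2 (.lc 0 0 (.lc 0 8 (.lc 3 2 (.lc 3 2 (.lc 3 2 (.lc 3 2 (.lc 3 2 (.lc 3 2 (.lc 3 2 (.lc 3 2 (.lc 3 2 (.lc 4 2 (.lc 4 2 (.lc 4 2 (.lc 4 2 .stop))))))))))))))))))))))))))))))))))))))))))))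
 (.lc 3 0 (.conf [22,65] (.lc 3 0 (.conf [23,118] (.lc 4 0 (.conf [23,118] (.lc 4 0 (.conf [69,100] (.lc 4 0 (.conf [23,65] (.lc 4 0 (.conf [23,65] (.lc 4 0 (.conf [23,65] (.lc 5 0 (.conf [24,65] .stop))))))))))))))))))))))))))
 (.node [69,80,69,50] 0 3 (.lc 1 2 (.lc 2 2 .stop))
 (.node [50,64,83] 4 0 .stop
 (.node [70,101,70,50] 4 6 (.lc 2 0 (.lc 2 7 (.lc 3 7 (.lc 3 0 (.lc 3 8 (.lc 0 0 (.conf [23,118] (.lc 3 7 (.lc 3 0 (.lc 3 8 (.lc 3 7 (.lc 3 0 (.lc 3 8 (.lc 0 0 (.lc 2 5 (.lc 0 0 (.lc 0 7 (.lc 4 8 (.lc 4 8 (.lc 4 0 (.lc 4 9 (.lc 0 0 (.lc 0 8 (.lc 0 0 (.lc 0 8 (.lc 0 0 (.lc 0 8 (.lc 0 0 (.lc 3 5 (.lc 0 0 (.lc 0 9 .stop)))))))))))))))))))))))))))))))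
 (.node [69,80,50] 4 5 (.node [21,80] 5 0 (.lc 2 0 .stop)
 (.node [22,80] 0 1 .stop
 (.conf [22,101] (.conf [22,101] (.conf [23,118] .stop)))))
 (.node [64,83,50,83] 4 0 (.lc 0 0 .stop)
 (.node [70,83,101,50] 4 6 (.conf [22,101] (.lc 0 0 (.node [23,101] 1 7 (.node [118] 7 6 (.lc 1 5 (.lc 1 5 (.lc 1 5 (.lc 3 0 (.node [83,114] 7 2 (.lc 1 5 .stop)
 (.conf [120,133] (.lc 2 5 (.lc 2 5 (.lc 2 5 (.lc 2 5 (.lc 2 5 (.lc 2 5 (.lc 2 5 (.lc 2 5 (.lc 1 3 (.lc 1 3 (.lc 1 3 (.lc 3 2 (.lc 3 8 (.lc 2 5 (.lc 2 5 (.lc 2 5 (.lc 2 3 (.lc 2 3 (.lc 2 3 (.lc 2 3 (.lc 2 3 (.lc 3 5 (.lc 3 5 (.lc 3 5 (.lc 3 5 (.lc 4 8 (.lc 4 2 (.lc 4 9 (.lc 2 3 (.lc 2 3 (.lc 2 3 (.lc 2 3 (.lc 2 3 (.lc 2 3 (.lc 3 3 (.lc 3 3 (.lc 3 3 (.lc 3 3 .stop))))))))))))))))))))))))))))))))))))))))))))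
 (.lc 1 3 (.lc 2 6 (.node [118,135] 7 6 (.lc 1 5 (.lc 1 5 (.lc 1 5 (.node [83,114] 7 2 .stop
 (.lc 3 1 (.conf [121,149] (.lc 2 5 (.lc 2 5 (.lc 2 5 (.lc 2 5 (.lc 2 5 (.lc 2 5 (.lc 2 5 (.lc 2 5 (.lc 1 3 (.lc 1 3 (.lc 1 3 (.lc 3 2 (.lc 3 9 (.lc 2 5 (.lc 2 5 (.lc 2 5 (.lc 2 3 (.lc 2 3 (.lc 2 3 (.lc 2 3 (.lc 2 3 (.lc 3 5 (.lc 3 5 (.lc 3 5 (.lc 3 5 (.lc 4 9 (.lc 4 2 (.lc 4 10 (.lc 2 3 (.lc 2 3 (.lc 2 3 (.lc 2 3 (.lc 2 3 (.lc 2 3 (.lc 3 3 (.lc 3 3 (.lc 3 3 (.lc 3 3 .stop))))))))))))))))))))))))))))))))))))))))))))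
 (.lc 2 6 (.lc 3 6 .stop))))))
 (.lc 0 0 (.conf [23,118] (.lc 0 0 (.conf [23,118] (.lc 0 0 (.conf [24,135] .stop)))))))))
 (.node [69,80,50,69] 5 0 (.lc 2 1 (.node [20,86] 4 5 (.lc 2 6 (.lc 3 7 .stop))
 (.lc 3 6 (.node [86,97] 4 5 (.lc 2 6 (.lc 3 7 .stop))
 (.conf [20,97] .stop)))))
 (.node [64,83,50,64,83] 4 0 .stop
 (.node [70,83,101,50,70] 4 6 (.lc 2 0 (.lc 2 7 (.lc 3 7 (.lc 3 0 (.lc 3 8 (.lc 0 0 (.conf [23,118] (.lc 3 7 (.lc 3 0 (.lc 3 8 (.lc 3 7 (.lc 3 0 (.lc 3 8 (.lc 0 0 (.lc 2 5 (.lc 0 0 (.lc 0 7 (.lc 4 8 (.lc 4 8 (.lc 4 0 (.lc 4 9 (.lc 0 0 (.lc 0 8 (.lc 0 0 (.lc 0 8 (.lc 0 0 (.lc 0 8 (.lc 0 0 (.lc 3 5 (.lc 0 0 (.lc 0 9 .stop)))))))))))))))))))))))))))))))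
 (.node [50,69] 0 3 .stop
 (.node [50,64,83] 4 0 (.node [70,50,83] 0 5 (.far [257,0,1,257] 4096 (.far [4112,1,256] 0 (.lc 2 3 (.lc 2 3 (.conf [83,117] (.conf [83,117] (.lc 2 3 (.lc 2 3 (.lc 3 3 (.lc 3 3 .stop))))))))))
 (.conf [71,118] .stop))
 (.node [50,70,83] 5 3 (.node [50,80,70] 0 3 (.far [256,0,0,1] 4096 .stop)
 (.node [50,87,70] 7 3 (.node [114] 5 7 (.node [80,114] 5 0 (.far [257,257,16,256,16,4096] 0 (.node [97] 4 6 (.node [72,97] 1 4 (.far [16,257,0,0,16,16,257,258] 8192 (.lc 1 6 .stop))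
 (.conf [97,134] .stop))
 (.conf [20,97] (.node [104,128] 8 0 (.node [129] 6 8 (.node [98,129] 6 2 .stop
 (.node [105,129] 4 6 (.far [1,4112,0,4112,4112,0,4112,258] 0 (.lc 3 1 (.lc 1 8 .stop)))
 (.lc 2 0 (.lc 3 4 (.conf [129,152] .stop)))))
 (.far [16,16,4096] 0 (.lc 1 0 (.lc 3 9 (.conf [20,145] (.lc 3 9 (.lc 3 9 (.lc 4 10 .stop))))))))
 (.far [257,257,16,256,16,4096] 4097 (.conf [20,129] .stop))))))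
 (.node [81,114] 5 1 .stop
 (.lc 1 2 (.node [88,114] 6 5 (.far [16,257,16,256,16,4096] 0 (.lc 1 7 (.lc 1 7 (.lc 1 7 (.lc 1 7 (.lc 1 7 (.lc 1 7 (.node [96] 6 0 (.node [97] 4 6 .stop
 (.conf [20,145] (.lc 1 0 .stop)))
 (.node [105,152] 4 6 (.node [64,105] 4 0 (.lc 0 0 .stop)
 (.node [74,105] 6 9 (.far [4112,1,1,4112,0,4112,258] 0 (.lc 2 8 (.lc 2 8 (.lc 2 8 (.lc 2 8 (.lc 0 0 (.lc 0 11 (.lc 2 8 (.lc 2 8 (.lc 3 8 (.lc 3 8 (.lc 3 8 (.lc 3 8 (.lc 3 8 .stop))))))))))))))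
 (.lc 2 4 (.lc 2 4 (.lc 0 0 (.lc 3 1 (.conf [74,160] (.conf [105,166] (.conf [105,166] (.lc 2 4 (.lc 2 4 (.lc 3 1 (.lc 0 0 (.lc 3 1 (.lc 3 4 (.lc 3 4 (.lc 3 4 (.lc 0 0 (.lc 4 1 (.lc 0 0 (.lc 4 1 (.lc 0 0 (.lc 4 1 (.lc 0 0 (.lc 4 1 (.lc 0 0 (.lc 5 1 .stop)))))))))))))))))))))))))))
 (.lc 2 7 (.lc 2 7 (.lc 2 7 (.lc 2 7 (.lc 2 7 .stop))))))))))))))
 (.lc 2 2 (.lc 2 2 (.lc 2 2 (.lc 2 2 (.lc 2 2 (.lc 3 3 (.lc 3 3 (.lc 3 3 (.node [20,114] 5 1 .stop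
 (.conf [88,128] (.lc 2 2 (.lc 2 2 (.node [80,114,135] 5 0 (.conf [20,97] .stop)
 (.conf [89,152] (.lc 2 2 (.lc 2 2 (.lc 2 2 (.lc 2 2 (.lc 2 2 (.lc 3 3 (.lc 3 3 (.lc 3 3 (.lc 3 3 (.lc 3 3 (.lc 3 3 (.lc 3 3 (.lc 3 2 (.lc 3 2 (.lc 3 2 (.lc 3 2 (.lc 3 2 (.lc 3 2 (.lc 4 3 (.lc 4 3 (.lc 4 3 (.lc 4 3 (.lc 4 3 (.lc 4 3 (.lc 4 3 (.lc 4 3 (.lc 4 3 (.lc 4 3 (.lc 4 3 (.lc 4 3 (.lc 4 3 (.lc 4 3 (.lc 4 3 (.lc 4 3 (.lc 4 3 (.lc 4 3 (.lc 4 3 (.lc 4 3 (.lc 5 3 (.lc 5 3 (.lc 5 3 (.lc 5 3 (.lc 5 3 (.lc 5 3 .stop))))))))))))))))))))))))))))))))))))))))))))))))))))))))))))))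
 (.lc 3 0 (.lc 3 8 (.node [112] 5 7 (.lc 1 0 (.node [81,112] 5 1 .stop
 (.node [88,112] 6 5 (.far [16,257,16,256,16,4096] 0 (.lc 1 7 (.lc 1 7 (.lc 1 7 (.node [105,152] 4 6 (.node [74,105] 6 9 (.far [4112,1,1,4112,0,4112,258] 0 (.lc 2 8 (.lc 2 8 (.lc 0 11 (.lc 2 8 (.lc 3 8 .stop))))))
 (.lc 2 4 (.lc 3 1 (.conf [105,166] (.lc 2 4 (.lc 3 1 (.lc 0 0 (.lc 3 1 (.lc 3 4 (.lc 4 1 (.lc 4 1 (.lc 0 0 (.lc 4 1 (.lc 4 1 (.lc 5 1 .stop)))))))))))))))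
 (.lc 2 7 .stop))))))
 (.lc 2 0 (.lc 2 0 (.lc 3 3 (.lc 2 0 (.conf [89,152] (.lc 2 0 (.lc 2 0 (.lc 3 3 (.lc 3 3 (.lc 3 3 (.lc 3 3 (.lc 3 3 (.lc 3 0 (.lc 4 3 (.lc 4 3 (.lc 4 3 (.lc 4 3 (.lc 4 3 (.lc 4 3 (.lc 4 3 (.lc 5 3 .stop))))))))))))))))))))))))
 (.node [120,130] 5 7 (.node [80,120] 5 0 (.far [257,257,16,256,16,4096] 0 (.node [97] 4 6 (.node [72,97,130] 8 6 .stop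
 (.node [73,97] 1 4 (.far [16,257,0,0,16,16,257,258] 8192 (.lc 1 6 .stop))
 (.conf [97,150] .stop)))
 (.conf [20,97] (.node [105,144] 9 0 (.node [145] 6 9 (.node [104,130,145] 8 9 .stop
 (.node [106,145] 4 6 (.far [1,4112,0,4112,4112,0,4112,258] 0 (.lc 3 1 (.lc 1 9 .stop)))
 (.lc 2 0 (.lc 3 4 (.conf [145,169] .stop)))))
 (.far [16,16,4096] 0 (.lc 1 0 (.lc 3 8 (.lc 3 10 (.lc 3 8 (.conf [20,161] (.lc 0 2 (.lc 3 10 (.lc 1 0 (.lc 3 10 (.lc 4 11 (.lc 1 2 .stop)))))))))))))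
 (.far [257,257,16,256,16,4096] 4097 (.conf [20,145] .stop))))))
 (.node [81,120] 5 1 .stop
 (.lc 1 3 (.node [89,120] 6 5 (.far [16,257,16,256,16,4096] 0 (.lc 1 7 (.lc 1 7 (.lc 1 7 (.lc 1 7 (.lc 1 7 (.lc 1 7 (.node [96] 6 0 (.node [97] 4 6 .stop
 (.conf [20,161] (.lc 1 0 .stop)))
 (.node [106,169] 4 6 (.node [64,106] 4 0 (.lc 0 0 .stop)
 (.node [72,106,130] 8 6 .stop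
 (.node [75,106] 6 10 (.far [4112,1,1,4112,0,4112,258] 0 (.lc 2 9 (.lc 2 9 (.lc 2 9 (.lc 2 9 (.lc 0 0 (.lc 0 12 (.lc 2 9 (.lc 2 9 (.lc 3 9 (.lc 3 9 (.lc 3 9 (.lc 3 9 .stop)))))))))))))
 (.lc 2 4 (.lc 2 4 (.lc 0 0 (.lc 3 1 (.conf [75,176] (.conf [106,182] (.conf [106,182] (.lc 2 4 (.lc 2 4 (.lc 2 4 (.lc 3 1 (.lc 0 0 (.lc 3 1 (.lc 3 1 (.lc 3 4 (.lc 3 4 (.lc 3 4 (.lc 0 0 (.lc 4 1 (.lc 0 0 (.lc 4 1 (.lc 0 0 (.lc 4 1 (.lc 4 1 (.lc 0 0 (.lc 4 1 (.lc 0 0 (.lc 5 1 .stop)))))))))))))))))))))))))))))))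
 (.lc 2 7 (.lc 2 7 (.lc 2 7 (.lc 2 7 .stop)))))))))))))
 (.lc 2 8 (.lc 2 8 (.lc 2 8 (.lc 2 8 (.lc 2 8 (.lc 3 3 (.lc 3 3 (.lc 3 3 (.node [20,120] 5 1 .stop
 (.conf [89,144] (.lc 2 3 (.lc 2 3 (.node [80,120,151] 5 0 (.conf [20,97] .stop)
 (.conf [90,169] (.lc 2 8 (.lc 2 8 (.lc 2 8 (.lc 2 8 (.lc 2 8 (.lc 3 3 (.lc 3 3 (.lc 3 3 (.lc 3 3 (.lc 3 3 (.lc 3 3 (.lc 3 3 (.lc 3 8 (.lc 3 8 (.lc 3 8 (.lc 3 8 (.lc 3 8 (.lc 3 8 (.lc 4 3 (.lc 4 3 (.lc 4 3 (.lc 4 3 (.lc 4 3 (.lc 4 3 (.lc 4 3 (.lc 4 3 (.lc 4 3 (.lc 4 3 (.lc 4 3 (.lc 4 3 (.lc 4 3 (.lc 4 3 (.lc 4 3 (.lc 4 3 (.lc 4 3 (.lc 4 3 (.lc 4 3 (.lc 4 3 (.lc 5 3 (.lc 5 3 (.lc 5 3 (.lc 5 3 (.lc 5 3 (.lc 5 3 .stop))))))))))))))))))))))))))))))))))))))))))))))))))))))))))))))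
 (.lc 3 0 (.lc 3 8 (.lc 4 8 (.lc 4 9 .stop)))))))))
 (.conf [50,80] (.conf [50,87] (.conf [50,87] (.conf [50,80] (.conf [50,88] (.conf [87,112] (.conf [50,115] (.conf [50,115] (.conf [50,80] (.conf [50,87] (.far [257,0,1] 4096 (.node [50,87,114,70] 6 5 (.far [16,256,16,4096] 0 (.node [96,114] 6 0 (.lc 2 1 (.lc 2 8 (.lc 2 7 (.lc 0 8 (.lc 3 8 (.lc 3 9 (.lc 2 7 (.lc 1 0 (.lc 3 7 .stop)))))))))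
 (.node [97,114] 1 4 (.lc 1 6 (.lc 2 6 .stop))
 (.node [104,114] 4 6 (.lc 2 0 (.lc 2 9 (.lc 3 0 (.lc 3 9 (.lc 0 0 (.lc 2 8 (.lc 3 9 (.lc 3 0 (.lc 3 10 (.lc 3 0 (.lc 3 9 (.conf [24,135] (.lc 0 0 (.lc 0 9 (.lc 4 9 (.lc 4 0 (.lc 4 10 (.lc 0 0 (.lc 0 10 (.lc 0 0 (.lc 0 9 (.lc 0 0 (.lc 0 9 (.lc 0 0 (.lc 2 7 (.lc 0 0 (.lc 0 10 .stop)))))))))))))))))))))))))))
 (.far [16,256,16,4096] 0 (.far [16,256,16,4096] 0 (.node [96,114] 6 0 (.lc 2 1 (.lc 3 8 (.lc 1 0 .stop)))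
 (.node [104,135,114] 4 6 (.lc 2 0 (.lc 2 9 (.lc 3 0 (.lc 3 9 (.lc 0 0 (.lc 2 8 (.lc 3 9 (.lc 3 0 (.lc 3 10 (.lc 3 0 (.lc 3 9 (.lc 1 7 (.lc 0 0 (.lc 0 9 (.lc 4 9 (.lc 4 0 (.lc 4 10 (.lc 0 0 (.lc 0 10 (.lc 0 0 (.lc 0 9 (.lc 0 0 (.lc 0 9 (.lc 0 0 (.conf [25,152] (.lc 0 0 (.lc 0 10 .stop)))))))))))))))))))))))))))
 (.conf [20,97] (.node [104,114,128] 0 7 .stop
 (.node [96,114,135] 6 0 (.lc 2 1 (.lc 3 9 (.lc 1 0 .stop)))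
 (.node [105,114,135] 4 6 (.lc 2 0 (.lc 2 10 (.lc 3 0 (.lc 3 10 (.lc 0 0 (.lc 2 9 (.lc 3 10 (.lc 3 0 (.lc 3 11 (.lc 3 0 (.lc 3 10 (.lc 1 8 (.lc 0 0 (.lc 0 10 (.lc 4 10 (.lc 4 0 (.lc 4 11 (.lc 0 0 (.lc 0 11 (.lc 0 0 (.lc 0 10 (.lc 0 0 (.lc 0 10 (.lc 0 0 (.conf [26,169] (.lc 0 0 (.lc 0 11 .stop)))))))))))))))))))))))))))
 .stop))))))))))))
 (.conf [50,87] (.conf [50,80] (.conf [50,88] (.conf [50,87] (.conf [50,88] (.conf [50,88] (.conf [50,88] (.conf [50,80] (.conf [50,89] (.node [50,87,112,70] 5 7 (.far [4112,1,1,257] 4096 (.lc 2 0 (.lc 2 0 (.far [4112,1,1,257] 4096 (.lc 2 0 (.lc 3 0 .stop))))))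
 (.node [50,88,135,70,114] 5 8 (.node [104] 4 6 (.lc 2 0 (.lc 2 7 (.lc 2 8 (.lc 2 9 (.lc 3 9 (.lc 3 0 (.lc 3 9 (.lc 3 0 (.lc 3 10 (.lc 0 0 (.conf [25,150] (.lc 3 9 (.lc 3 7 (.lc 3 0 (.lc 3 10 (.lc 3 7 (.lc 3 9 (.lc 3 0 (.lc 3 7 (.lc 3 10 (.lc 0 0 (.lc 2 8 (.lc 2 8 (.lc 0 0 (.lc 0 7 (.lc 0 8 (.lc 0 9 (.lc 4 10 (.lc 4 10 (.lc 4 0 (.lc 4 11 (.lc 0 7 (.lc 0 0 (.lc 0 10 (.lc 0 0 (.lc 0 9 (.lc 0 0 (.lc 0 10 (.lc 0 0 (.lc 0 7 (.lc 0 10 (.lc 0 0 (.lc 3 8 (.lc 0 0 (.lc 0 11 .stop)))))))))))))))))))))))))))))))))))))))))))))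
 (.lc 2 7 (.lc 2 7 (.lc 2 7 (.node [96,135] 6 0 (.lc 2 1 (.lc 3 9 (.lc 1 0 .stop)))
 (.node [105,135] 4 6 (.lc 2 0 (.lc 2 7 (.lc 2 10 (.lc 3 0 (.lc 3 10 (.lc 0 0 (.lc 2 9 (.lc 3 10 (.lc 3 0 (.lc 3 11 (.lc 3 0 (.lc 3 7 (.lc 3 10 (.lc 1 8 (.lc 0 0 (.lc 0 7 (.lc 0 10 (.lc 4 10 (.lc 4 0 (.lc 4 11 (.lc 0 0 (.lc 0 11 (.lc 0 0 (.lc 0 10 (.lc 0 0 (.lc 0 7 (.lc 0 10 (.lc 0 0 (.conf [26,169] (.lc 0 0 (.lc 0 11 .stop)))))))))))))))))))))))))))))))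
 (.lc 2 7 (.lc 2 7 (.lc 3 7 (.lc 3 7 (.lc 3 7 (.lc 3 7 .stop))))))))))))
 (.node [50,87,112,70] 5 7 (.far [4112,1,1,257] 4096 (.lc 2 0 (.lc 2 0 (.far [4112,1,1,257] 4096 (.lc 2 0 (.lc 3 0 .stop))))))
 (.node [50,88,135,70,114] 5 8 (.node [104] 4 6 (.lc 2 0 (.lc 2 7 (.lc 2 8 (.lc 2 9 (.lc 3 7 (.lc 3 9 (.lc 3 0 (.lc 3 9 (.lc 3 0 (.lc 3 7 (.lc 3 10 (.lc 0 0 (.lc 1 2 (.conf [25,150] (.lc 3 7 (.lc 3 9 (.lc 3 0 (.lc 3 9 (.lc 3 7 (.lc 3 0 (.lc 3 7 (.lc 3 10 (.lc 3 7 (.lc 3 9 (.lc 3 0 (.lc 3 9 (.lc 3 0 (.lc 3 7 (.lc 3 10 (.lc 0 0 (.lc 2 8 (.lc 2 8 (.lc 0 0 (.lc 0 7 (.lc 0 8 (.lc 0 9 (.lc 4 9 (.lc 4 7 (.lc 4 10 (.lc 4 9 (.lc 4 0 (.lc 4 10 (.lc 4 7 (.lc 4 10 (.lc 4 0 (.lc 4 10 (.lc 4 0 (.lc 4 7 (.lc 4 11 (.lc 0 0 (.lc 0 9 (.lc 0 7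 (.lc 0 0 (.lc 0 7 (.lc 0 10 (.lc 0 0 (.lc 0 9 (.lc 0 0 (.lc 0 7 (.lc 0 10 (.lc 0 0 (.lc 0 9 (.lc 0 0 (.lc 0 7 (.lc 0 10 (.lc 0 0 (.lc 3 8 (.lc 0 0 (.lc 3 8 (.lc 3 8 (.lc 0 0 (.lc 0 10 (.lc 0 0 (.lc 0 10 (.lc 0 0 (.lc 0 7 (.lc 0 11 .stop)))))))))))))))))))))))))))))))))))))))))))))))))))))))))))))))))))))))))))))
 (.lc 2 7 (.lc 2 7 (.lc 2 7 (.node [96,135] 6 0 (.lc 2 1 (.lc 3 7 (.lc 3 9 (.lc 1 0 .stop))))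
 (.node [105,135] 4 6 (.lc 2 0 (.lc 2 7 (.lc 2 10 (.lc 3 0 (.lc 3 7 (.lc 3 10 (.lc 0 0 (.lc 2 9 (.lc 2 9 (.lc 3 7 (.lc 3 10 (.lc 3 0 (.lc 3 10 (.lc 3 0 (.lc 3 7 (.lc 3 11 (.lc 3 0 (.lc 3 7 (.lc 3 10 (.lc 1 8 (.lc 0 0 (.lc 0 7 (.lc 0 10 (.lc 4 7 (.lc 4 10 (.lc 4 0 (.lc 4 10 (.lc 4 0 (.lc 4 7 (.lc 4 11 (.lc 0 0 (.lc 0 10 (.lc 0 0 (.lc 0 7 (.lc 0 11 (.lc 0 0 (.lc 0 7 (.lc 0 10 (.lc 0 0 (.lc 0 7 (.lc 0 10 (.lc 0 0 (.lc 1 2 (.conf [26,169] (.lc 0 0 (.lc 0 10 (.lc 0 0 (.lc 0 7 (.lc 0 11 .stop)))))))))))))))))))))))))))))))))))))))))))))))))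
 (.lc 2 7 (.lc 2 7 (.lc 3 7 (.lc 3 7 (.lc 3 7 (.lc 3 7 .stop))))))))))))
 (.node [50,87,112,70] 6 5 (.far [16,256,16,4096] 0 (.node [97,112] 1 4 (.lc 1 6 .stop)
 (.node [104,112] 4 6 (.lc 2 9 (.lc 3 9 (.lc 2 8 (.lc 3 10 (.lc 3 9 (.conf [24,135] (.lc 0 0 (.lc 0 9 (.lc 4 10 (.lc 0 10 (.lc 0 9 (.lc 0 0 (.lc 0 9 (.lc 2 7 (.lc 0 10 .stop)))))))))))))))
 (.far [16,256,16,4096] 0 (.node [104,135,112] 4 6 (.lc 2 9 (.lc 3 9 (.lc 2 8 (.lc 3 10 (.lc 3 9 (.lc 1 7 (.lc 0 0 (.lc 0 9 (.lc 4 10 (.lc 0 10 (.lc 0 9 (.lc 0 0 (.lc 0 9 (.conf [25,152] (.lc 0 10 .stop)))))))))))))))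
 (.node [105,112,135] 4 6 (.lc 2 10 (.lc 3 10 (.lc 2 9 (.lc 3 11 (.lc 3 10 (.lc 1 8 (.lc 0 0 (.lc 0 10 (.lc 4 11 (.lc 0 11 (.lc 0 10 (.lc 0 0 (.lc 0 10 (.conf [26,169] (.lc 0 11 .stop)))))))))))))))
 .stop))))))
 (.node [50,88,135,70,114] 6 5 (.far [16,256,16,4096] 0 (.node [96,135] 6 0 (.lc 2 1 (.lc 2 7 (.lc 2 9 (.lc 2 8 (.lc 0 9 (.lc 3 9 (.lc 3 10 (.lc 2 8 (.lc 2 8 (.lc 1 0 (.lc 3 8 .stop)))))))))))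
 (.node [97,135] 1 4 (.lc 1 6 (.lc 2 6 .stop))
 (.node [105,135] 4 6 (.lc 2 0 (.lc 2 7 (.lc 2 10 (.lc 3 0 (.lc 3 10 (.lc 0 0 (.lc 2 9 (.lc 3 10 (.lc 3 0 (.lc 3 11 (.lc 3 0 (.lc 3 7 (.lc 3 10 (.conf [25,152] (.lc 0 0 (.lc 0 7 (.lc 0 10 (.lc 4 10 (.lc 4 0 (.lc 4 11 (.lc 0 0 (.lc 0 11 (.lc 0 0 (.lc 0 10 (.lc 0 0 (.lc 0 7 (.lc 0 10 (.lc 0 0 (.lc 2 8 (.lc 0 0 (.lc 0 11 .stop)))))))))))))))))))))))))))))))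
 (.far [16,256,16,4096] 0 (.far [16,256,16,4096] 0 (.node [96,135] 6 0 (.lc 2 1 (.lc 3 9 (.lc 1 0 .stop)))
 (.node [105,135] 4 6 (.lc 2 0 (.lc 2 7 (.lc 2 10 (.lc 3 0 (.lc 3 10 (.lc 0 0 (.lc 2 9 (.lc 3 10 (.lc 3 0 (.lc 3 11 (.lc 3 0 (.lc 3 7 (.lc 3 10 (.lc 1 8 (.lc 0 0 (.lc 0 7 (.lc 0 10 (.lc 4 10 (.lc 4 0 (.lc 4 11 (.lc 0 0 (.lc 0 11 (.lc 0 0 (.lc 0 10 (.lc 0 0 (.lc 0 7 (.lc 0 10 (.lc 0 0 (.conf [26,169] (.lc 0 0 (.lc 0 11 .stop)))))))))))))))))))))))))))))))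
 (.conf [20,97] (.node [105,135,144] 0 8 .stop
 (.node [96,135,152] 6 0 (.lc 2 1 (.lc 3 10 (.lc 1 0 .stop)))
 (.node [106,135,152] 4 6 (.lc 2 0 (.lc 2 7 (.lc 2 11 (.lc 3 0 (.lc 3 11 (.lc 0 0 (.lc 2 10 (.lc 3 11 (.lc 3 0 (.lc 3 12 (.lc 3 0 (.lc 3 7 (.lc 3 11 (.lc 1 9 (.lc 0 0 (.lc 0 7 (.lc 0 11 (.lc 4 11 (.lc 4 0 (.lc 4 12 (.lc 0 0 (.lc 0 12 (.lc 0 0 (.lc 0 11 (.lc 0 0 (.lc 0 7 (.lc 0 11 (.lc 0 0 (.conf [27,186] (.lc 0 0 (.lc 0 12 .stop)))))))))))))))))))))))))))))))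
 .stop))))))))))))
 (.node [50,88,135,70,112] 5 8 (.node [104] 4 6 (.lc 2 7 (.lc 2 8 (.lc 2 9 (.lc 3 9 (.lc 3 10 (.conf [25,150] (.lc 3 7 (.lc 3 10 (.lc 3 0 (.lc 3 7 (.lc 3 10 (.lc 0 0 (.lc 2 8 (.lc 2 8 (.lc 0 0 (.lc 0 7 (.lc 0 8 (.lc 0 9 (.lc 4 11 (.lc 0 0 (.lc 0 7 (.lc 0 10 (.lc 0 0 (.lc 0 9 (.lc 0 10 (.lc 0 0 (.lc 0 0 (.lc 0 7 (.lc 0 10 (.lc 0 0 (.lc 3 8 (.lc 0 0 (.lc 0 11 .stop)))))))))))))))))))))))))))))))))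
 (.lc 2 7 (.lc 2 7 (.node [105,135] 4 6 (.lc 2 7 (.lc 2 10 (.lc 3 10 (.lc 2 9 (.lc 3 11 (.lc 3 7 (.lc 3 10 (.lc 1 8 (.lc 0 0 (.lc 0 7 (.lc 0 10 (.lc 4 11 (.lc 0 0 (.lc 0 11 (.lc 0 10 (.lc 0 0 (.lc 0 7 (.lc 0 10 (.conf [26,169] (.lc 0 0 (.lc 0 11 .stop)))))))))))))))))))))
 (.lc 2 7 (.lc 3 7 .stop))))))
 (.node [50,89,152,70,135,114] 5 9 (.node [105] 4 6 (.lc 2 0 (.lc 2 7 (.lc 2 8 (.lc 2 9 (.lc 2 10 (.lc 3 10 (.lc 3 0 (.lc 3 10 (.lc 3 0 (.lc 3 7 (.lc 3 10 (.lc 3 0 (.lc 3 11 (.lc 0 0 (.conf [26,166] (.lc 3 10 (.lc 3 7 (.lc 3 8 (.lc 3 0 (.lc 3 11 (.lc 3 7 (.lc 3 8 (.lc 3 10 (.lc 3 7 (.lc 3 0 (.lc 3 7 (.lc 3 8 (.lc 3 11 (.lc 0 0 (.lc 2 9 (.lc 2 9 (.lc 2 9 (.lc 0 0 (.lc 0 7 (.lc 0 8 (.lc 0 9 (.lc 0 10 (.lc 4 7 (.lc 4 11 (.lc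 4 0 (.lc 4 10 (.lc 4 11 (.lc 4 7 (.lc 4 0 (.lc 4 12 (.lc 0 7 (.lc 0 8 (.lc 0 0 (.lc 0 11 (.lc 0 0 (.lc 0 10 (.lc 0 0 (.lc 0 7 (.lc 0 10 (.lc 0 0 (.lc 0 11 (.lc 0 7 (.lc 0 0 (.lc 0 7 (.lc 0 8 (.lc 0 11 (.lc 3 9 (.lc 0 0 (.lc 3 9 (.lc 0 0 (.lc 0 10 (.lc 0 7 (.lc 0 0 (.lc 0 12 .stop)))))))))))))))))))))))))))))))))))))))))))))))))))))))))))))))))))))
 (.lc 2 8 (.lc 2 8 (.lc 2 8 (.node [96,152] 6 0 (.lc 2 1 (.lc 3 10 (.lc 1 0 .stop)))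
 (.node [106,152] 4 6 (.lc 2 0 (.lc 2 7 (.lc 2 8 (.lc 2 11 (.lc 3 0 (.lc 3 11 (.lc 0 0 (.lc 2 10 (.lc 3 11 (.lc 3 7 (.lc 3 0 (.lc 3 12 (.lc 3 0 (.lc 3 7 (.lc 3 8 (.lc 3 11 (.lc 1 9 (.lc 0 0 (.lc 0 7 (.lc 0 8 (.lc 0 11 (.lc 4 11 (.lc 4 7 (.lc 4 0 (.lc 4 12 (.lc 0 7 (.lc 0 0 (.lc 0 12 (.lc 0 0 (.lc 0 11 (.lc 0 0 (.lc 0 7 (.lc 0 8 (.lc 0 11 (.lc 0 0 (.conf [27,186] (.lc 0 7 (.lc 0 0 (.lc 0 12 .stop)))))))))))))))))))))))))))))))))))))))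
 (.lc 2 8 (.lc 2 8 (.lc 3 8 (.lc 3 8 (.lc 3 8 (.lc 3 8 .stop))))))))))))
 .stop)))))))))))))))))))))))))))))))
 (.conf [50,69] (.conf [50,64] (.conf [50,70] (.node [69,80,50] 4 5 (.conf [21,80] (.lc 2 0 (.conf [22,101] (.lc 2 0 (.lc 3 0 .stop)))))
 (.node [64,50] 4 0 (.lc 0 0 .stop)
 (.node [70,101,50] 4 6 (.conf [22,101] (.lc 0 0 (.lc 2 5 (.lc 0 0 (.conf [23,118] (.lc 0 0 (.lc 2 5 (.lc 0 0 (.lc 3 5 .stop)))))))))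
 (.node [70,101,70,80,50] 0 3 .stop
 (.node [70,96,70,50,83] 0 5 (.node [83] 5 3 (.lc 1 2 (.lc 2 2 .stop))
 (.lc 2 3 (.node [83,117] 5 3 (.lc 1 2 (.lc 2 2 (.lc 2 2 (.lc 2 2 (.lc 3 2 .stop)))))
 (.lc 2 3 (.lc 3 3 .stop)))))
 (.node [50,64,83,101] 4 0 .stop
 (.node [71,118,71,101,50] 4 7 (.lc 2 0 (.lc 2 8 (.lc 3 8 (.lc 3 0 (.lc 3 9 (.lc 0 0 (.conf [24,135] (.lc 3 8 (.lc 3 0 (.lc 3 9 (.lc 3 8 (.lc 3 0 (.lc 3 9 (.lc 0 0 (.lc 2 6 (.lc 0 0 (.lc 0 8 (.lc 4 9 (.lc 4 9 (.lc 4 0 (.lc 4 10 (.lc 0 0 (.lc 0 9 (.lc 0 0 (.lc 0 9 (.lc 0 0 (.lc 0 9 (.lc 0 0 (.lc 3 6 (.lc 0 0 (.lc 0 10 .stop)))))))))))))))))))))))))))))))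
 (.node [70,101,50,80] 4 6 (.conf [22,101] (.lc 2 5 (.conf [23,118] (.lc 2 5 (.lc 3 5 .stop)))))
 (.node [70,83,96,50,83] 4 6 (.conf [22,96] (.lc 2 0 (.conf [23,118] (.lc 2 0 (.lc 3 0 .stop)))))
 (.node [64,83,50,83,101] 4 0 (.lc 0 0 .stop)
 (.node [71,83,118,50,83] 4 7 (.conf [23,118] (.lc 0 0 (.lc 2 6 (.lc 0 0 (.conf [24,135] (.lc 0 0 (.lc 2 6 (.lc 0 0 (.lc 3 6 .stop)))))))))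
 (.conf [50,70] (.conf [50,70] (.conf [50,64] (.conf [50,71] (.conf [50,70] (.conf [50,70] (.conf [50,64] (.conf [50,71] (.conf [50,70] (.conf [50,70] (.conf [50,64] (.conf [50,71] (.conf [50,71] (.conf [50,71] (.conf [50,71] (.conf [50,64] (.conf [50,72] .stop)))))))))))))))))))))))))))))))))))))))))))))

theorem t45 : kNode2 awTt FTt 4 3 (check tyTt awTt triet FTt [s46] c45) (fun _ _ _ => true) 0 s45 Pl.nil s45 =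
    true := by
  decide +kernel

end Chk
end Pool.Agent.Lib.MP_ba95e8_co
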