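import Pool.Agent.Lib.MP_ba95e8_co.ChkTab
import Pool.Agent.Lib.MP_ba95e8_co.ChkStates

/-!
Deltahedral domes: part 46 of the case analysis.
-/

namespace Pool.Agent.Lib.MP_ba95e8_co
namespace Chk

/-- certificate number 46 -/
def c46 : Cert := (.node [80] 5 0 (.node [81] 5 1 (.lc 0 1 .stop)
 (.lc 2 0 (.node [87] 6 5 (.node [103] 0 3 (.far [256,0,0,0,0,0,0,1] 4096 (.node [50] 7 3 (.far [16,256,16,256,0,256,16,0,1] 4096 (.far [256,0,4112,0,0,256,16,0,1] 4096 (.far [16,256,16,256,0,256,16,0,1] 4096 .stop)))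
 (.far [4112,0,1,256] 0 .stop)))
 (.conf [98,112,80] (.conf [104,112,135] (.far [16,257,257,16,0,4096] 0 (.far [16,257,257,16,0,4096] 0 (.far [1,4112,4112,1,0,256] 0 (.far [1,4112,4112,1,0,256] 0 (.conf [104,112,80] (.conf [98,112,80] (.conf [105,112,80] .stop))))))))))
 (.node [87,113,87] 6 5 (.node [113] 1 6 .stop
 (.lc 3 2 (.lc 3 8 (.lc 1 1 (.lc 1 1 (.lc 3 2 (.lc 3 8 (.lc 4 8 (.lc 4 2 (.lc 4 9 .stop))))))))))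
 (.lc 0 1 (.conf [80,103,112] (.lc 3 0 (.node [88,135,88,112] 6 5 (.far [1,4112,4112,1,0,256] 0 (.lc 3 2 (.lc 3 9 (.lc 1 7 (.lc 1 7 (.lc 3 2 (.lc 3 9 (.lc 4 9 (.lc 4 2 (.lc 4 10 .stop))))))))))
 (.lc 3 0 (.lc 0 1 (.node [80,103,112] 6 7 (.node [112] 0 1 (.lc 0 0 .stop)
 (.far [257,257,257,4112,4096,4096] 0 .stop))
 (.node [80,104,112,135,3,112] 0 3 (.lc 2 1 (.far [4112,4096,16,1,0,256] 0 (.lc 0 9 .stop)))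
 .stop))))))))))))
 (.lc 1 2 (.lc 2 3 (.node [87] 3 2 (.far [1,0,0,0,0,1] 4096 (.node [54,98] 3 6 .stop
 (.far [257,16,0,0,16,4096] 0 (.node [56] 7 3 (.far [16,257,16,0,0,16,4096] 0 (.conf [112,130,50] (.conf [118,130,50] (.conf [121,130,50] (.far [16,257,16,0,0,16,4096] 0 (.far [16,257,16,0,0,16,4096] 0 (.node [112,50] 7 0 (.node [113] 7 1 .stop
 (.lc 0 5 .stop))
 (.node [121,152,50] 5 7 (.node [80,121,152] 0 7 (.node [152] 5 0 .stop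
 (.lc 1 8 (.lc 1 8 (.lc 1 8 (.far [1,1,1,4112,258,4112,1,4097,256] 0 (.lc 2 8 .stop))))))
 (.node [82,121,152] 2 7 .stop
 (.lc 2 3 (.node [90,121,152] 7 9 (.node [152] 6 5 (.node [106] 10 9 (.node [152,160] 0 9 (.node [130] 10 0 (.lc 0 1 .stop)
 (.far [16,16,0,256,16,257,0,4096] 0 (.lc 1 2 .stop)))
 (.node [152,162] 2 9 (.lc 0 2 .stop)
 (.lc 2 5 (.node [152,171] 9 8 (.node [130] 6 10 (.node [107] 1 6 (.node [184] 11 8 .stop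
 (.far [1,4112,0,0,4112,0,0,0,0,0,256,256] 4097 .stop))
 (.lc 3 1 (.far [16,0,257,4096,4096,4096] 0 (.far [16,0,257,4096,4096,4096] 0 (.lc 4 1 .stop)))))
 (.lc 0 0 (.lc 0 12 (.lc 0 0 (.lc 2 2 (.lc 0 12 (.far [257,16,0,256,16,257,0,4096] 0 (.far [257,16,0,256,16,257,0,4096] 0 (.lc 0 12 (.lc 0 0 (.lc 0 13 .stop)))))))))))
 (.lc 2 7 (.lc 1 2 (.lc 2 7 (.lc 3 5 (.lc 3 5 (.node [152,171,176,171] 0 9 .stop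
 (.node [152,160] 2 9 (.lc 0 2 .stop)
 (.conf [152,185] (.conf [152,185] (.lc 2 7 (.lc 2 7 (.lc 2 7 (.lc 2 7 (.lc 0 1 (.lc 3 7 (.lc 3 7 (.lc 3 7 (.lc 0 1 (.lc 0 1 (.lc 3 7 (.lc 3 7 (.lc 0 1 .stop))))))))))))))))))))))))))
 (.conf [96,169,83] (.conf [98,169,83] (.conf [104,138,169] (.conf [107,169,186] (.far [16,0,257,0,0,257,16,0,4096] 0 (.far [16,0,257,0,0,257,16,0,4096] 0 (.far [1,0,4112,0,0,4112,1,0,256] 0 (.far [1,0,4112,0,0,4112,1,0,256] 0 (.conf [107,169,83] (.conf [96,169,83] (.lc 1 10 (.conf [96,169,83] (.conf [108,169,83] .stop))))))))))))))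
 (.lc 2 8 (.lc 2 8 (.lc 2 8 (.lc 2 8 (.lc 0 0 (.lc 0 11 (.lc 2 8 (.lc 2 8 (.lc 3 8 (.lc 3 8 (.lc 3 8 (.lc 3 8 .stop)))))))))))))
 (.conf [115,152] (.lc 3 3 (.conf [115,152] (.lc 3 3 (.lc 3 3 (.lc 3 3 (.node [90,121,160,152,90] 0 7 (.lc 1 8 .stop)
 (.node [80,121,152] 2 7 .stop
 (.conf [121,167] (.lc 3 3 (.conf [121,167] (.node [115,152,130,80] 5 0 (.far [257,257,0,0,257,16,0,4096] 0 (.node [106,160] 0 9 (.lc 1 2 .stop)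
 (.lc 0 1 .stop)))
 (.node [115,152,130,82] 5 2 (.far [4096,0,0,0,0,1,0,257,257] 4096 .stop)
 (.lc 3 3 (.node [115,152,130,90] 9 8 (.node [130] 5 10 (.far [257,0,257,0,0,257,16,0,4096] 0 (.lc 2 8 (.lc 2 8 (.lc 2 8 (.node [96,168] 6 0 (.node [] 10 8 (.lc 1 2 (.node [130,171] 0 10 (.far [16,257,0,256,4096,1,0,0,257,16,0,4096] 0 .stop)
 (.lc 2 2 (.lc 2 2 (.lc 2 2 (.node [130,184,203,130,172] 0 10 (.lc 1 11 .stop)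
 (.lc 2 2 (.lc 2 2 (.lc 2 2 (.lc 3 2 .stop))))))))))
 .stop)
 (.node [107,186] 6 11 (.node [186] 1 11 (.node [186] 11 10 (.node [168] 10 8 (.node [130] 0 8 (.far [16,16,0,0,0,0,16,0,4096,4096] 0 .stop)
 (.lc 2 2 (.lc 2 2 (.lc 2 2 .stop))))
 (.lc 2 5 (.far [4112,1,4096,256,0,0,0,0,0,256,256] 17 (.conf [168,202] (.lc 2 2 .stop)))))
 (.lc 2 1 (.conf [186,203] .stop)))
 (.lc 2 10 (.far [4112,4112,4112,4096,4096,4112,0,1,257,257,256] 4097 (.lc 2 10 (.lc 2 10 (.lc 3 10 .stop))))))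
 (.lc 2 8 (.lc 2 8 (.lc 3 8 (.lc 3 8 (.lc 3 8 (.lc 3 8 .stop))))))))))))
 (.lc 2 2 (.lc 2 2 (.lc 2 2 (.lc 0 0 (.lc 2 2 (.lc 0 11 (.lc 2 2 (.lc 2 2 (.lc 3 2 (.lc 3 2 (.lc 3 2 .stop))))))))))))
 (.lc 3 3 (.lc 3 3 (.lc 3 3 (.lc 3 3 (.lc 4 3 (.conf [115,160,90] (.node [115,152,41,80] 2 9 (.lc 0 2 .stop)
 (.node [115,152,169,130,80] 5 0 .stop
 (.lc 4 3 (.conf [115,186,91] (.lc 4 3 (.lc 4 3 (.lc 4 3 (.lc 4 3 (.lc 4 3 (.lc 4 3 (.lc 4 3 (.lc 4 3 (.lc 4 3 (.lc 4 3 (.lc 4 3 (.lc 5 3 (.lc 5 3 (.lc 5 3 (.lc 5 3 .stop))))))))))))))))))))))))))))))))))))))))))))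
 (.conf [121,130,50] (.conf [112,130,50] (.conf [122,130,50] .stop)))))))))))
 (.far [4096,1,0,0,1,257] 4096 (.node [56,128,56] 3 8 (.far [4112,4096,1,0,0,1,257] 4096 (.lc 0 6 (.lc 0 9 (.lc 0 9 (.lc 2 0 (.lc 0 10 .stop))))))
 (.node [50,118,98] 7 6 .stop
 (.node [56,98,134,56,98] 8 6 (.far [1,1,0,256,16,0,1] 4096 (.lc 3 7 (.conf [83,98] (.lc 3 0 (.lc 1 3 (.lc 3 9 (.lc 4 0 (.lc 4 9 .stop))))))))
 (.node [50,120,130] 5 7 (.node [80,120] 0 7 (.far [16,16,1,4112,0,0,16,4096] 0 (.far [16,16,1,4112,0,0,16,4096] 0 .stop))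
 (.lc 2 3 (.node [89,120] 7 8 (.far [257,16,1,4112,0,0,16,4096] 0 (.lc 0 0 (.lc 0 6 (.lc 0 10 (.lc 0 0 (.lc 0 10 (.far [257,16,1,4112,0,0,16,4096] 0 (.far [257,16,1,4112,0,0,16,4096] 0 (.lc 0 10 (.lc 0 0 (.lc 0 11 .stop)))))))))))
 (.lc 2 3 (.lc 3 3 (.lc 2 3 (.lc 3 3 (.lc 3 3 (.lc 3 3 (.node [89,120,144,89] 0 7 .stop
 (.conf [120,151] (.lc 3 3 (.conf [120,151] (.lc 2 3 (.lc 3 3 (.lc 2 3 (.lc 3 3 (.lc 3 3 (.lc 3 3 (.lc 4 3 (.lc 3 3 (.lc 3 3 (.lc 4 3 (.lc 3 3 (.lc 4 3 (.lc 4 3 (.lc 4 3 (.lc 4 3 (.lc 4 3 (.lc 4 3 (.lc 4 3 (.lc 4 3 (.lc 4 3 (.lc 5 3 (.lc 5 3 (.lc 5 3 .stop))))))))))))))))))))))))))))))))))))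
 (.node [57,152,57,130] 3 9 (.node [152] 7 9 (.node [112,152,130] 0 9 (.far [16,16,256,1,16,0,0,16,4096] 0 (.far [16,16,256,1,16,0,0,16,4096] 0 .stop))
 (.lc 2 3 (.node [105,152,130] 6 9 .stop
 (.node [122,152,130] 9 8 (.far [257,16,256,1,16,0,0,16,4096] 0 (.lc 0 0 (.lc 0 6 (.lc 0 11 (.lc 0 0 (.lc 0 11 (.far [257,16,256,1,16,0,0,16,4096] 0 (.far [257,16,256,1,16,0,0,16,4096] 0 (.lc 0 11 (.lc 0 0 (.lc 0 12 .stop)))))))))))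
 (.node [130,147,112] 7 0 (.far [1,256,0,1,0,0,0,0,1] 16 (.lc 0 5 .stop))
 (.conf [147,168,122] (.lc 3 1 (.lc 3 6 (.lc 3 10 (.lc 3 0 (.lc 3 6 (.lc 3 11 (.node [122,152,160,130] 0 9 .stop
 (.lc 3 3 (.conf [152,169] (.conf [152,169] (.conf [130,147] (.lc 3 3 (.conf [130,147] (.conf [130,147] (.lc 3 0 (.lc 3 6 (.lc 3 10 (.lc 3 10 (.lc 0 5 (.lc 3 0 (.lc 3 10 (.lc 3 0 (.lc 3 11 (.conf [130,147] (.lc 4 3 (.conf [130,147] (.conf [130,147] (.lc 0 5 (.lc 4 11 (.lc 4 11 (.lc 4 0 (.lc 4 12 (.lc 4 10 (.lc 4 0 (.lc 4 11 (.lc 4 10 (.lc 0 5 (.lc 4 0 (.lc 4 10 (.lc 4 0 (.lc 4 11 (.lc 4 1 (.lc 4 6 (.lc 4 10 (.lc 4 0 (.lc 4 6 (.lc 4 11 (.lc 0 5 (.lc 5 11 (.lc 5 11 (.lc 5 0 (.lc 5 12 .stop))))))))))))))))))))))))))))))))))))))))))))))))))))))))))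
 (.lc 0 0 (.lc 0 6 (.lc 0 10 (.lc 0 0 (.lc 0 10 (.lc 2 8 (.lc 2 8 (.lc 0 10 (.lc 0 0 (.lc 0 11 .stop)))))))))))
 (.lc 3 2 (.lc 3 2 (.far [4096,1,0,0,1,257] 4096 (.node [56,128,56] 3 8 (.far [4112,4096,1,0,0,1,257] 4096 (.lc 0 6 (.lc 0 9 (.lc 0 9 (.lc 2 0 (.lc 0 10 .stop))))))
 (.node [50,120,130] 5 7 (.node [80,120] 0 7 (.node [130] 5 0 .stop
 (.lc 1 2 .stop))
 (.lc 2 3 (.node [89,120] 7 8 (.node [130] 6 5 (.node [105] 9 8 (.node [130,144] 0 8 (.far [256,0,16,257,256,1,0,256,16,0,1] 4096 .stop)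
 (.lc 2 5 (.node [130,154] 8 2 (.node [32] 6 9 (.node [106] 1 6 (.node [162] 1 10 .stop
 (.far [1,4112,0,0,4112,0,0,0,0,256,256] 4097 .stop))
 (.lc 3 1 (.far [16,0,257,4096,4096,4096] 0 (.far [16,0,257,4096,4096,4096] 0 (.lc 4 1 .stop)))))
 (.lc 0 0 (.lc 0 11 (.lc 0 0 (.lc 0 11 (.far [257,16,0,256,16,4096,4096] 17 (.far [257,16,0,256,16,4096,4096] 0 (.lc 0 11 (.lc 0 12 .stop)))))))))
 (.lc 2 2 (.lc 2 2 (.lc 3 5 (.lc 3 5 (.node [130,154,160,154] 0 8 (.far [16,16,0,256,16,4096,4096] 0 .stop)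
 (.conf [130,168] (.conf [130,168] (.lc 2 2 (.lc 2 2 (.lc 2 2 (.lc 2 2 (.lc 0 1 (.lc 3 2 (.lc 3 2 (.lc 0 1 (.lc 3 2 (.lc 3 2 .stop))))))))))))))))))))
 (.conf [96,152,83] (.conf [98,152,83] (.conf [106,152,169] (.far [16,0,257,0,257,16,0,4096] 0 (.far [16,0,257,0,257,16,0,4096] 0 (.far [1,0,4112,0,4112,1,0,256] 0 (.far [1,0,4112,0,4112,1,0,256] 0 (.conf [106,152,83] (.conf [41,152] (.conf [96,152,83] (.conf [107,152,83] .stop))))))))))))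
 (.lc 2 2 (.lc 2 2 (.lc 2 2 (.lc 0 0 (.lc 0 10 (.lc 2 2 (.lc 2 2 (.lc 3 2 (.lc 3 2 (.lc 3 2 .stop)))))))))))
 (.lc 2 3 (.lc 3 3 (.lc 2 3 (.lc 3 3 (.lc 3 3 (.lc 3 3 (.node [89,120,144,89] 0 7 .stop
 (.conf [120,151] (.lc 3 3 (.conf [120,151] (.lc 2 3 (.lc 3 3 (.lc 2 3 (.lc 3 3 (.lc 3 3 (.lc 3 3 (.lc 4 3 (.lc 3 3 (.lc 3 3 (.lc 4 3 (.lc 3 3 (.lc 4 3 (.lc 4 3 (.lc 4 3 (.lc 4 3 (.lc 4 3 (.lc 4 3 (.lc 4 3 (.lc 4 3 (.lc 4 3 (.lc 5 3 (.lc 5 3 (.lc 5 3 .stop))))))))))))))))))))))))))))))))))))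
 (.node [57,152,57,130] 3 9 (.node [152] 9 8 (.node [130,144] 9 0 (.node [112] 0 8 (.node [130] 7 8 .stop
 .stop)
 (.lc 0 1 (.lc 0 10 (.lc 1 5 .stop))))
 (.node [130,150] 9 6 .stop
 (.node [130,154] 7 9 (.node [122] 10 8 (.node [130,160] 0 8 (.far [257,1,1,4096,4096,0,1,0,0,1,257] 4096 .stop)
 (.node [104,130] 6 8 .stop
 (.lc 2 7 (.node [130,171] 8 2 (.node [32] 7 10 (.node [112,171] 7 0 (.node [80] 5 0 .stop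
 (.far [4112,4112,0,0,4112,0,256,0,256] 0 .stop))
 (.lc 2 3 (.node [106] 7 6 (.lc 0 3 .stop)
 (.lc 1 7 (.node [124,171] 5 7 (.node [92] 10 11 (.node [178] 5 12 (.node [108] 12 11 (.node [107] 6 11 .stop
 .stop)
 (.conf [107,178,197] (.far [4112,0,4112,0,0,0,0,0,0,0,4112,1,0,256] 0 (.far [4112,0,4112,0,0,0,0,0,0,0,4112,1,0,256] 0 .stop))))
 (.conf [178,192,167] (.conf [178,198,107] (.conf [178,205,219] (.far [4112,0,1,0,4112,256,256] 0 (.far [4112,0,1,0,4112,256,256] 0 (.far [257,0,16,0,257,4096,4096] 0 (.far [257,0,16,0,257,4096,4096] 0 (.conf [178,205,167] (.conf [178,192,167] (.conf [178,206,167] .stop)))))))))))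
 (.conf [83,108,202] (.far [16,257,0,0,257,0,4096,0,4096] 0 (.lc 3 3 (.far [16,257,0,0,257,0,4096,0,4096] 0 (.far [1,4112,0,0,4112,0,256,0,256] 0 (.conf [83,115,202] (.conf [83,115,202] .stop))))))))
 (.node [167,178,112] 7 0 .stop
 (.conf [167,178,203] (.node [115,171,80] 5 0 .stop
 (.lc 0 3 (.lc 2 7 (.conf [115,171,202] (.node [124,171,192,124] 0 10 .stop
 (.lc 3 3 (.lc 2 7 (.lc 2 7 (.node [112,171,202,171] 7 0 .stop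
 (.node [125,202,220,125,171] 5 7 (.far [1,4112,0,0,4112,0,256,0,256] 0 (.lc 3 3 (.lc 1 12 (.lc 3 3 (.lc 1 12 (.lc 3 3 (.lc 4 3 (.lc 4 3 .stop))))))))
 (.node [167,178,112] 7 0 (.far [257,257,0,0,257,0,4096,0,4096] 0 (.node [83,96] 6 0 (.node [] 0 11 (.far [512,256,0,0,4097,1,0,1,0,1,0,0,4112,0,1] 4352 .stop)
 .stop)
 .stop))
 (.lc 3 3 (.node [167,178,107] 7 6 (.lc 0 3 .stop)
 (.node [167,178,203] 7 12 (.far [257,257,0,0,257,0,4096,0,4096] 0 (.lc 2 11 (.node [83,108] 12 11 (.node [194] 6 12 (.node [194] 12 2 .stop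
 (.far [4112,1,513,258,256,256,514,0,8192,0,8192,256,256] 4097 .stop))
 (.lc 3 0 (.far [16,0,16,4096,1,4096,4096] 17 (.lc 3 0 (.lc 3 13 (.lc 4 13 .stop))))))
 (.lc 2 11 (.lc 0 3 (.lc 2 11 (.lc 3 11 (.lc 3 11 .stop))))))))
 (.node [115,167,178] 5 11 (.far [257,1,0,0,0,0,0,0,257,16,0,4096] 0 (.lc 2 2 (.node [96,178] 6 0 (.node [] 11 2 (.far [2,256,0,0,4097,1,0,1,0,1,0,0,4112,0,1] 4352 .stop)
 .stop)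
 (.node [108,203] 12 11 (.node [194] 6 12 (.node [194] 12 2 .stop
 (.far [4112,32,272,4112,8192,4097,4096,4096,0,0,0,256,256] 4097 .stop))
 (.lc 3 0 (.far [16,256,4096,4096,4096,0,0,0,0,257,16,0,4096] 17 (.lc 3 0 (.lc 3 13 (.lc 4 13 .stop))))))
 (.lc 3 2 .stop)))))
 (.node [83,106,115] 6 10 (.far [1,1,0,4112,256,256] 0 (.lc 3 1 (.node [96,178] 0 11 (.far [256,0,257,1,0,256,257,0,1,0,256,16,0,1] 4096 .stop)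
 (.node [178,203] 6 12 (.node [203] 12 11 (.node [194] 12 2 .stop
 (.far [16,0,16,16,4096,258,4097,8192,4096,0,4096] 17 .stop))
 (.lc 2 11 (.far [4112,4096,257,0,4112,256,256,0,0,0,256,256] 4097 (.lc 2 11 (.lc 2 11 (.lc 3 11 .stop))))))
 (.lc 4 1 .stop)))))
 (.conf [167,192,124] (.lc 4 3 (.node [167,178,203,112] 7 0 .stop
 (.conf [167,220,125] (.far [4112,0,0,4112,0,256,0,16,1,0,256] 0 (.lc 3 7 (.conf [115,171,202] (.conf [107,167,178] (.conf [83,107,178] (.far [256,0,257,1,4096,4096,0,4096] 0 (.lc 0 3 (.conf [115,203,92] (.node [96,115,178] 6 0 (.node [] 0 11 (.far [512,256,0,4097,1,0,1,0,1,0,0,4112,0,1] 4352 .stop)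
 .stop)
 (.node [108,115,178] 12 11 (.node [194] 6 12 (.node [194] 12 2 .stop
 (.far [4112,32,272,8192,259,4098,12288,8192,0,8192,256,256] 4097 .stop))
 (.lc 3 0 (.far [16,256,4096,258,2,8192,8192,0,4097,16,0,4096] 17 (.lc 3 0 (.lc 3 13 (.lc 4 13 .stop))))))
 .stop)))))))))))))))))))))))))))))))))))))
 (.lc 0 0 (.lc 0 6 (.lc 0 12 (.lc 0 0 (.lc 0 12 (.far [257,16,16,256,16,4096] 17 (.far [257,16,16,256,16,4096] 0 (.lc 0 12 (.lc 0 13 .stop))))))))))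
 (.lc 2 2 (.lc 2 2 (.lc 3 1 (.lc 3 6 (.lc 3 11 (.lc 3 5 (.lc 3 0 (.lc 3 6 (.lc 3 12 (.node [130,171,176] 0 8 (.far [16,16,16,256,16,4096] 0 .stop)
 (.conf [130,184] (.conf [130,184] (.lc 2 2 (.lc 2 2 (.lc 2 2 (.lc 2 2 (.lc 2 2 (.lc 2 2 (.lc 2 2 (.lc 3 11 (.lc 0 5 (.lc 3 0 (.lc 3 11 (.lc 3 0 (.lc 3 12 (.lc 3 2 (.lc 3 2 (.lc 0 5 (.lc 4 12 (.lc 4 12 (.lc 4 0 (.lc 4 13 (.lc 3 2 (.lc 3 2 (.lc 3 2 (.lc 3 2 (.lc 3 2 (.lc 3 2 (.lc 3 2 (.lc 3 2 (.lc 3 2 (.lc 3 2 (.lc 4 2 (.lc 4 2 .stop))))))))))))))))))))))))))))))))))))))))))))))))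
 (.lc 3 0 (.lc 3 6 (.lc 3 11 (.lc 1 8 (.lc 1 8 (.lc 3 0 (.lc 3 11 (.lc 4 11 (.lc 4 0 (.lc 4 12 .stop)))))))))))
 (.conf [130,154] (.lc 0 5 (.conf [130,144] (.conf [130,154] (.conf [130,144] (.conf [130,155] (.conf [130,147] (.conf [130,147] (.conf [154,160] (.conf [130,168] (.conf [130,168] (.conf [130,145] (.conf [130,150] (.conf [130,154] (.conf [104,130] (.conf [130,144] (.conf [130,150] (.conf [130,155] (.node [130,147,112] 0 8 (.far [257,4096,4096,0,1,0,0,1,257] 4096 .stop)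
 (.lc 0 3 (.node [130,147,104] 6 8 .stop
 (.node [130,147,122] 10 8 (.node [32] 7 10 (.node [112,162] 7 0 (.far [257,257,0,1,4096,0,4096] 0 (.node [83,96,112] 6 0 (.node [] 10 2 (.lc 2 0 (.node [171] 0 10 .stop
 (.node [172,203,172,178] 10 12 .stop
 .stop)))
 .stop)
 .stop))
 (.lc 1 2 (.lc 2 3 (.node [106] 7 6 (.lc 0 3 .stop)
 (.node [123,162] 5 7 (.far [16,257,0,1,4096,0,4096] 0 (.conf [83,107,186] (.far [16,257,0,1,4096,0,4096] 0 (.lc 3 3 (.far [16,257,0,1,4096,0,4096] 0 (.node [83,107,115] 6 11 (.node [186] 1 11 (.node [186] 11 10 (.far [257,16,16,4096,4096] 0 (.lc 2 2 (.lc 2 2 (.node [162,202,162] 12 10 (.node [194] 12 2 .stop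
 (.lc 3 13 .stop))
 (.lc 2 2 .stop)))))
 (.lc 2 1 (.node [186,203,186] 11 10 (.far [257,16,16,4096,4096] 0 (.lc 2 2 (.lc 0 13 .stop)))
 .stop)))
 (.node [186] 11 10 (.far [257,272,4096,4096,0,0,0,0,0,4096,4096] 4097 (.lc 2 2 (.lc 2 2 (.node [162,202] 12 10 (.node [194] 12 2 .stop
 (.lc 3 13 .stop))
 (.lc 2 2 .stop)))))
 (.far [4112,4112,0,0,0,0,0,4112,257,256,256] 4097 (.far [257,257,0,0,0,0,0,257,4112,4096,4096] 0 (.far [257,257,0,0,0,0,0,257,4112,4096,4096] 0 (.node [186,203] 11 10 (.far [257,272,4096,4096,0,0,0,0,0,4096,4096] 4097 (.lc 2 2 (.lc 0 13 .stop)))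
 .stop))))))
 (.conf [83,115,186] (.conf [83,115,186] .stop))))))))
 (.lc 2 2 (.lc 0 5 (.lc 2 2 (.lc 3 3 (.lc 2 2 (.lc 2 2 (.lc 2 2 (.lc 3 3 (.lc 0 3 (.lc 3 3 (.node [123,162,176,123] 5 7 (.node [176] 11 0 (.node [177] 5 11 .stop
 (.lc 0 5 .stop))
 (.lc 3 3 (.lc 3 3 (.lc 1 0 (.lc 3 3 (.lc 4 3 .stop))))))
 (.lc 2 2 (.lc 3 3 (.node [112,162,186] 7 0 .stop
 (.node [162,186,203,124] 5 7 (.node [203] 5 12 (.node [203,186] 6 12 (.node [186] 6 11 (.node [186] 1 11 .stop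
 (.far [4112,4112,256,0,0,0,0,0,0,0,256,256] 4097 .stop))
 (.lc 3 1 (.lc 1 10 (.lc 1 10 (.lc 4 1 .stop)))))
 (.conf [107,186] (.far [4112,4112,0,0,0,0,0,4112,1,0,256] 0 (.conf [203,220] (.far [257,257,0,0,0,0,0,257,16,0,4096] 0 (.conf [96,197,83] (.conf [109,186,219] .stop)))))))
 (.lc 3 3 (.lc 1 11 (.lc 3 3 (.lc 1 11 (.lc 3 3 (.lc 4 3 (.lc 4 3 .stop))))))))
 (.lc 2 2 (.lc 3 3 (.lc 2 2 (.lc 2 2 (.lc 0 3 (.lc 2 2 (.lc 3 3 (.lc 2 2 (.lc 2 2 (.lc 3 3 (.lc 0 3 (.lc 3 3 (.lc 3 3 (.lc 0 5 (.lc 4 3 (.lc 3 2 (.lc 3 2 (.lc 4 3 (.lc 3 2 (.lc 3 2 (.lc 4 3 (.lc 4 3 (.lc 4 3 (.lc 4 3 (.lc 4 3 (.lc 4 3 (.lc 0 3 (.lc 4 3 (.lc 4 3 (.lc 0 3 (.lc 4 3 (.lc 5 3 (.lc 5 3 (.lc 5 3 .stop))))))))))))))))))))))))))))))))))))))))))))))))))))))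
 (.lc 3 0 (.lc 3 6 (.lc 3 11 (.far [16,256,16,4096] 17 (.conf [171,178] (.lc 3 0 (.lc 3 11 (.lc 4 11 (.lc 4 12 .stop))))))))))
 (.lc 0 0 (.lc 0 6 (.lc 0 10 (.lc 0 5 (.conf [130,155] (.conf [130,155] (.conf [130,144] (.conf [130,156] (.lc 0 10 (.lc 0 0 (.lc 0 11 (.lc 0 10 (.lc 1 5 (.lc 0 0 (.lc 0 10 (.lc 0 0 (.lc 0 11 (.lc 0 1 (.lc 0 6 (.lc 0 10 (.lc 0 0 (.lc 0 6 (.lc 0 11 (.conf [147,160,122] (.lc 0 3 (.node [130,147,168,112] 7 0 (.far [1,257,257,257,16,257,16,256,1] 16 (.lc 0 5 .stop))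
 (.conf [147,186,123] (.lc 1 5 (.lc 0 11 (.lc 0 11 (.lc 0 0 (.lc 0 12 .stop)))))))))))))))))))))))))))))))))))))))))))))))))))))))))
 (.lc 0 0 (.lc 0 6 (.lc 0 10 (.lc 0 0 (.lc 0 10 (.lc 2 8 (.lc 2 8 (.lc 0 10 (.lc 0 0 (.lc 0 11 .stop)))))))))))
 (.node [54,96] 3 6 .stop
 (.far [257,16,0,0,16,4096] 0 (.node [56] 3 8 (.far [257,257,16,0,0,16,4096] 0 (.conf [118,128,50] (.conf [121,128,50] (.node [121,152,50] 5 7 (.lc 2 3 (.node [90,121,152] 7 9 (.far [257,16,257,257,4128,257,16,272,4096] 0 (.lc 2 8 (.lc 2 8 (.lc 0 11 (.lc 2 8 (.lc 3 8 .stop))))))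
 (.lc 3 3 (.conf [115,152] (.lc 3 3 (.lc 3 3 (.conf [121,167] (.lc 3 3 (.node [115,152,128,90] 9 8 (.node [128] 5 10 (.far [257,0,257,0,0,257,16,0,4096] 0 (.lc 2 8 (.node [107,186] 6 11 (.far [257,257,257,256,1,257,0,16,4112,4112,4096] 0 (.lc 2 10 (.lc 2 10 .stop)))
 (.lc 2 8 (.lc 3 8 .stop)))))
 (.lc 2 0 (.lc 2 0 (.lc 0 11 (.lc 2 0 (.lc 3 0 .stop))))))
 (.lc 3 3 (.lc 3 3 (.lc 4 3 (.conf [115,186,91] (.lc 4 3 (.lc 4 3 (.lc 4 3 (.lc 4 3 (.lc 5 3 .stop))))))))))))))))))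
 (.far [257,257,16,0,0,16,4096] 0 (.conf [122,128,50] .stop))))))
 (.node [54,104,130,104] 3 6 .stop
 (.conf [50,120,130] (.node [57,130,152] 3 9 (.far [257,257,16,0,0,16,4096] 0 (.conf [112,152,50] (.conf [105,152] (.conf [122,152,50] (.node [112,50] 7 0 (.far [1,257,257,16,257,16,256,1] 16 (.lc 0 5 .stop))
 (.node [122,169,50] 5 7 (.node [80,122,169] 0 7 (.far [16,16,257,257,4128,257,16,272,4096] 0 (.lc 1 9 (.lc 1 9 (.lc 2 9 .stop))))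
 (.lc 2 3 (.node [122,130,135,169] 8 7 .stop
 (.node [91,122,169] 7 10 (.far [257,16,257,257,4128,257,16,272,4096] 0 (.lc 2 9 (.lc 2 9 (.lc 2 9 (.lc 2 9 (.lc 0 0 (.lc 0 12 (.lc 2 9 (.lc 2 9 (.lc 3 9 (.lc 3 9 (.lc 3 9 .stop))))))))))))
 (.conf [115,169] (.lc 3 3 (.conf [115,169] (.lc 3 3 (.lc 3 3 (.lc 3 3 (.node [91,122,176,169,91] 0 7 .stop
 (.conf [122,183] (.lc 3 3 (.conf [122,183] (.node [115,169,152,80,130] 5 0 (.far [257,257,0,0,257,16,0,4096] 0 (.node [107,176] 0 10 (.lc 1 8 .stop)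
 (.lc 0 1 .stop)))
 (.lc 3 3 (.conf [138,169] (.node [115,169,152,91,130] 10 9 (.node [152] 5 11 (.far [257,0,257,0,0,257,16,0,4096] 0 (.lc 2 9 (.lc 2 9 (.lc 2 9 (.node [96,185] 6 0 (.far [1,257,257,256,1,257,0,256,16,0,1] 16 .stop)
 (.node [108,203] 6 12 (.far [257,257,257,256,1,257,0,16,4112,4112,4096] 0 (.lc 2 11 (.node [203] 12 11 (.node [130,185,200] 8 11 (.lc 0 3 .stop)
 (.lc 1 5 (.node [185,205] 11 9 (.node [152] 13 9 (.far [16,256,16,0,256,0,0,0,1,0,256,16,0,1] 4096 (.lc 1 2 (.lc 1 2 (.lc 3 14 (.lc 2 2 .stop)))))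
 (.lc 2 3 (.lc 1 2 (.lc 0 14 (.lc 1 2 (.lc 2 2 .stop))))))
 (.lc 0 2 (.lc 2 5 (.lc 3 0 (.lc 0 2 (.conf [185,219] (.lc 1 3 (.lc 2 5 (.lc 3 0 (.lc 1 2 (.lc 4 0 (.lc 1 2 .stop))))))))))))))
 (.lc 2 11 (.lc 2 11 (.lc 3 11 .stop))))))
 (.lc 2 9 (.lc 2 9 (.lc 3 9 (.lc 3 9 (.lc 3 9 .stop)))))))))))
 (.lc 2 8 (.lc 2 8 (.lc 2 8 (.lc 0 0 (.lc 1 2 (.lc 0 12 (.lc 2 8 (.lc 2 8 (.lc 3 8 (.lc 3 8 (.lc 3 8 .stop))))))))))))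
 (.lc 3 3 (.lc 3 3 (.lc 3 3 (.lc 3 3 (.lc 4 3 (.conf [115,176,91] (.node [115,169,186,152,80,130] 5 0 .stop
 (.lc 4 3 (.conf [115,203,92] (.lc 4 3 (.lc 4 3 (.lc 4 3 (.lc 4 3 (.lc 4 3 (.lc 4 3 (.lc 4 3 (.lc 4 3 (.lc 4 3 (.lc 4 3 (.lc 5 3 (.lc 5 3 (.lc 5 3 .stop))))))))))))))))))))))))))))))))))))))))
 (.far [257,257,16,0,0,16,4096] 0 (.far [257,257,16,0,0,16,4096] 0 (.conf [122,152,50] (.conf [112,152,50] (.conf [123,152,50] .stop)))))))))))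
 (.lc 3 2 (.lc 3 2 (.lc 3 2 (.lc 3 2 (.lc 3 2 (.lc 3 2 (.node [50,120,128] 5 7 (.lc 2 3 (.node [89,120] 7 8 (.far [257,16,257,4128,257,16,272,4096] 0 (.lc 2 0 (.lc 2 0 (.lc 0 10 (.lc 2 0 (.lc 3 0 .stop))))))
 (.lc 3 3 (.lc 2 3 (.lc 3 3 (.lc 3 3 (.conf [120,151] (.lc 3 3 (.lc 2 3 (.lc 3 3 (.lc 3 3 (.lc 4 3 (.lc 3 3 (.lc 4 3 (.lc 4 3 (.lc 4 3 (.lc 4 3 (.lc 5 3 .stop))))))))))))))))))
 (.node [57,152,57,128] 3 9 (.node [152] 9 8 (.node [128,150] 9 6 .stop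
 (.node [128,154] 7 9 (.far [16,257,513,257,32,257,16,272,4096] 0 (.lc 3 6 (.lc 3 11 (.lc 1 8 (.lc 3 11 (.lc 4 12 .stop))))))
 (.lc 0 5 (.conf [128,154] (.conf [128,155] (.conf [128,147] (.conf [128,168] (.conf [104,128] (.conf [128,150] (.conf [128,155] (.lc 0 3 (.node [128,147,104] 6 8 (.far [4112,256,256,0,16,257,256,256] 4097 .stop)
 (.node [128,147,122] 10 8 (.far [1,4096,1,256] 17 (.lc 3 1 (.lc 3 11 (.lc 0 5 .stop))))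
 (.lc 0 6 (.lc 0 10 (.conf [128,156] (.lc 0 11 (.lc 1 5 (.lc 0 10 (.lc 0 11 (.lc 0 6 (.lc 0 11 (.lc 0 3 (.conf [147,186,123] (.lc 0 12 .stop)))))))))))))))))))))))))
 (.lc 0 6 (.lc 0 10 (.lc 0 10 (.lc 2 8 (.lc 0 11 .stop))))))
 (.node [50,121,152,130] 5 7 (.node [80,121] 0 7 (.far [16,16,257,4128,257,16,272,4096] 0 (.lc 1 8 .stop))
 (.lc 2 3 (.node [90,121] 7 9 (.far [257,16,257,4128,257,16,272,4096] 0 (.lc 2 8 (.lc 2 8 (.lc 2 8 (.lc 0 0 (.lc 0 11 (.lc 2 8 (.lc 2 8 (.lc 3 8 (.lc 3 8 (.lc 3 8 .stop)))))))))))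
 (.lc 2 3 (.lc 3 3 (.lc 2 3 (.lc 3 3 (.lc 3 3 (.lc 3 3 (.node [90,121,160,90] 0 7 .stop
 (.conf [121,167] (.lc 3 3 (.conf [121,167] (.lc 2 3 (.lc 3 3 (.lc 2 3 (.lc 3 3 (.lc 3 3 (.lc 3 3 (.lc 4 3 (.lc 3 3 (.lc 3 3 (.lc 4 3 (.lc 3 3 (.lc 4 3 (.lc 4 3 (.lc 4 3 (.lc 4 3 (.lc 4 3 (.lc 4 3 (.lc 4 3 (.lc 4 3 (.lc 4 3 (.lc 5 3 (.lc 5 3 (.lc 5 3 .stop))))))))))))))))))))))))))))))))))))
 (.node [58,169,58,152,130] 3 10 (.node [169] 10 9 (.node [152,160,130] 10 0 (.far [257,257,513,257,32,257,16,272,4096] 0 (.lc 0 1 (.lc 0 11 (.lc 1 5 .stop))))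
 (.node [152,166,130] 10 6 .stop
 (.node [152,171,130] 7 10 (.far [16,257,513,257,32,257,16,272,4096] 0 (.lc 3 0 (.lc 3 6 (.lc 3 12 (.lc 1 9 (.lc 1 9 (.lc 3 0 (.lc 3 12 (.lc 4 12 (.lc 4 0 (.lc 4 13 .stop)))))))))))
 (.conf [152,171] (.lc 0 5 (.conf [152,160] (.conf [152,171] (.conf [152,160] (.conf [152,172] (.conf [152,163] (.conf [152,163] (.conf [171,176] (.conf [152,185] (.conf [152,185] (.conf [152,161] (.conf [152,166] (.conf [152,171] (.conf [105,152] (.conf [152,160] (.conf [152,166] (.conf [152,172] (.node [152,163,130,112] 0 9 (.far [1,4096,1,256] 0 (.lc 1 2 .stop))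
 (.lc 0 3 (.node [152,163,130,105] 6 9 .stop
 (.node [152,163,130,123] 9 8 (.conf [130,184] (.lc 2 2 (.lc 2 2 (.lc 2 2 (.lc 0 0 (.lc 0 12 (.lc 2 2 (.lc 2 2 (.lc 3 2 (.lc 3 2 (.lc 3 2 .stop)))))))))))
 (.lc 0 0 (.lc 0 6 (.lc 0 11 (.lc 0 5 (.conf [152,172] (.conf [152,172] (.conf [152,160] (.conf [152,173] (.lc 0 11 (.lc 0 0 (.lc 0 12 (.lc 0 11 (.lc 1 5 (.lc 0 0 (.lc 0 11 (.lc 0 0 (.lc 0 12 (.lc 0 1 (.lc 0 6 (.lc 0 11 (.lc 0 0 (.lc 0 6 (.lc 0 12 (.conf [163,176,123] (.lc 0 3 (.node [152,163,185,130,112] 7 0 (.far [1,257,257,257,16,257,16,256,1] 16 (.lc 0 5 .stop))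
 (.conf [163,203,124] (.lc 1 5 (.lc 0 12 (.lc 0 12 (.lc 0 0 (.lc 0 13 .stop)))))))))))))))))))))))))))))))))))))))))))))))))))))))))
 (.lc 0 0 (.lc 0 6 (.lc 0 11 (.lc 0 0 (.lc 0 11 (.lc 2 9 (.lc 2 9 (.lc 0 11 (.lc 0 0 (.lc 0 12 .stop)))))))))))
 (.lc 4 2 (.lc 4 2 (.lc 4 2 (.lc 4 2 (.lc 4 2 (.lc 4 2 (.lc 4 2 (.lc 4 2 (.lc 4 2 (.lc 4 2 (.lc 4 2 (.lc 5 2 (.lc 5 2 .stop)))))))))))))))))))))))))))))))))))))))))))))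
 (.lc 2 2 (.lc 2 2 (.lc 2 2 (.lc 2 2 (.lc 2 2 (.lc 3 7 (.lc 2 2 (.lc 2 2 (.lc 3 0 (.lc 3 8 (.lc 3 3 (.node [87,112] 7 0 (.node [113] 7 1 (.far [16,4112,16,257,256,256] 0 (.lc 1 5 (.lc 1 1 .stop)))
 (.far [4112,16,257,256,256] 0 (.lc 0 5 (.lc 0 5 (.node [120,129] 5 7 (.conf [88,129] (.lc 3 3 (.lc 1 1 (.lc 3 3 (.lc 1 1 (.lc 3 3 (.lc 4 3 (.lc 4 3 .stop))))))))
 (.lc 1 5 .stop))))))
 (.lc 2 2 (.lc 2 2 (.lc 2 2 (.node [80,115] 5 0 (.node [81] 5 1 (.lc 0 1 .stop)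
 (.lc 0 1 .stop))
 (.lc 3 3 (.node [88,135,115] 5 8 (.node [80,135] 5 0 (.far [4112,4112,4112,1,0,256] 0 (.far [4112,4112,4112,1,0,256] 0 (.lc 0 1 .stop)))
 (.node [82,135] 5 2 (.far [4112,4112,4112,1,0,256] 0 (.far [4096,0,0,1,0,257,257] 4096 (.far [4112,4112,4112,1,0,256] 0 (.far [4112,4112,4112,1,0,256] 0 (.node [96] 3 2 .stop
 (.node [105,144] 6 9 (.far [4112,16,4112,4112,257,256,256] 0 (.lc 2 0 .stop))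
 .stop))))))
 (.lc 2 3 (.node [89,135] 5 9 (.far [4112,4112,4112,1,0,256] 0 (.lc 2 8 (.lc 2 8 (.lc 2 8 (.far [4112,4112,4112,1,0,256] 0 (.far [4112,4112,4112,1,0,256] 0 (.far [4112,4112,4112,1,0,256] 0 (.lc 2 8 (.lc 2 8 (.lc 2 8 (.lc 3 8 (.lc 3 8 (.lc 3 8 (.lc 3 8 (.lc 3 8 (.lc 3 8 .stop))))))))))))))))
 (.lc 3 3 (.lc 2 7 (.lc 2 7 (.lc 3 3 (.lc 2 7 (.lc 2 7 (.lc 2 7 (.lc 3 3 (.lc 2 7 (.node [83,96,135,115] 6 0 (.lc 2 0 .stop)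
 (.node [83,98,135,115] 3 2 (.far [1,0,0,0,0,0,1] 4096 (.lc 3 2 (.lc 0 0 (.conf [57,144] (.lc 3 2 (.lc 4 2 .stop))))))
 (.conf [83,105,152] (.lc 3 3 (.conf [89,144] (.node [80,135] 5 0 (.far [4112,4112,4112,1,0,256] 17 (.far [4112,4112,4112,1,0,256] 17 (.lc 0 1 .stop)))
 (.lc 3 3 (.conf [89,146] (.node [80,135,152,135,115] 5 0 .stop
 (.node [82,135,152,135,115] 5 2 (.lc 2 9 .stop)
 (.lc 3 3 (.conf [90,169] (.lc 2 7 (.lc 3 3 (.lc 2 7 (.lc 2 7 (.lc 3 3 (.lc 2 7 (.lc 2 7 (.lc 2 7 (.lc 3 3 (.lc 2 7 (.lc 2 7 (.lc 0 1 (.lc 2 7 (.lc 2 7 (.node [83,96,135,115] 6 0 (.far [4112,4112,4112,257,256,256] 0 .stop)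
 (.node [83,98,135,115] 6 2 .stop
 (.node [83,105,135,115] 6 9 (.far [4112,4112,4112,257,256,256] 0 (.node [152] 9 8 (.node [135,146] 2 8 (.far [1,1,0,1,272,1,0,256] 0 (.lc 1 3 .stop))
 (.node [135,154] 8 7 (.far [4112,1,0,1,272,1,0,256] 0 (.lc 2 3 (.lc 2 3 (.lc 2 3 (.lc 0 2 (.lc 0 11 (.lc 2 3 (.lc 2 3 (.lc 3 3 (.lc 3 3 (.lc 3 3 (.lc 3 3 .stop))))))))))))
 (.lc 2 5 (.lc 2 5 (.lc 3 0 (.lc 3 0 (.conf [154,162] (.conf [135,168] (.conf [135,168] (.lc 1 3 (.lc 1 3 (.lc 2 5 (.lc 3 0 (.lc 3 0 (.lc 2 3 (.lc 2 3 (.lc 2 3 (.lc 4 0 (.lc 4 0 (.lc 3 5 (.lc 3 5 (.lc 2 3 (.lc 2 3 (.lc 2 3 (.lc 2 3 (.lc 3 3 (.lc 3 3 .stop)))))))))))))))))))))))))))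
 (.far [4112,4112,4112,257,256,256] 4097 (.node [152] 9 8 (.node [135,146] 2 8 (.far [1,1,0,1,272,1,0,256] 0 (.lc 1 3 .stop))
 (.node [135,154] 8 7 (.far [4112,1,0,1,272,1,0,256] 0 (.lc 2 3 (.lc 2 3 (.lc 0 2 (.lc 0 11 (.lc 2 3 (.lc 2 3 (.lc 3 3 (.lc 3 3 (.lc 3 3 .stop))))))))))
 (.lc 2 5 (.lc 2 5 (.lc 3 0 (.lc 3 0 (.conf [154,162] (.conf [135,168] (.conf [135,168] (.lc 1 3 (.lc 1 3 (.lc 2 5 (.lc 3 0 (.lc 2 3 (.lc 2 3 (.lc 2 3 (.lc 4 0 (.lc 3 5 (.lc 2 3 (.lc 2 3 (.lc 2 3 (.lc 3 3 .stop))))))))))))))))))))))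
 (.node [152,169] 1 10 (.node [169] 10 9 (.node [152,162] 2 9 (.far [16,16,0,257,258,0,4096,4096] 0 (.lc 0 3 .stop))
 (.node [152,167] 7 9 .stop
 (.node [152,171] 9 8 (.far [257,16,0,257,258,0,4096,4096] 0 (.lc 2 5 (.lc 0 2 (.lc 0 12 (.lc 1 3 (.lc 2 3 (.lc 2 3 .stop)))))))
 (.lc 2 6 (.lc 2 6 (.lc 3 0 (.lc 3 0 (.conf [171,178] (.conf [152,185] (.conf [152,185] (.lc 1 5 (.lc 2 6 (.lc 3 0 (.lc 3 0 (.lc 3 0 (.lc 1 3 (.lc 1 3 (.lc 4 0 (.lc 4 0 (.lc 3 6 (.lc 3 6 (.lc 2 5 (.lc 1 3 (.lc 2 3 (.lc 2 3 .stop)))))))))))))))))))))))))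
 (.lc 2 9 (.lc 2 9 (.conf [169,186] (.lc 2 9 (.lc 3 9 .stop))))))
 (.node [152,169] 9 8 (.node [135,146] 2 8 (.far [1,1,0,1,272,1,0,256] 0 (.lc 1 3 .stop))
 (.node [135,155] 10 9 (.far [16,257,272,4096,0,4096,4096] 4097 (.lc 3 2 (.lc 3 7 (.lc 3 12 (.lc 1 8 (.lc 1 8 (.lc 3 2 (.lc 3 12 (.lc 4 12 (.lc 4 2 (.lc 4 13 .stop)))))))))))
 (.lc 2 5 (.lc 2 5 (.lc 3 6 (.lc 3 6 (.conf [155,178] (.conf [135,184] (.conf [135,184] (.lc 1 3 (.lc 1 3 (.lc 2 5 (.lc 3 6 (.lc 3 6 (.lc 2 3 (.lc 2 3 (.lc 2 3 (.lc 4 6 (.lc 4 6 (.lc 4 6 (.lc 3 5 (.lc 3 5 (.lc 2 3 (.lc 2 3 (.lc 2 3 (.lc 2 3 (.lc 3 3 (.lc 3 3 (.lc 3 3 .stop)))))))))))))))))))))))))))))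
 .stop))))))
 (.lc 4 3 (.lc 3 7 (.lc 4 3 (.lc 3 7 (.lc 4 3 (.lc 3 7 (.lc 4 3 (.lc 3 7 (.lc 3 7 (.lc 4 3 (.lc 3 7 (.lc 3 7 (.lc 3 7 (.lc 4 3 (.lc 3 7 (.node [83,105,135,144,115] 0 8 (.far [257,4096,0,1,0,257,257] 4096 (.lc 2 0 (.conf [135,168] (.lc 1 3 (.lc 2 3 .stop)))))
 (.node [83,96,135,115] 1 6 (.far [1,4112,4112,257,256,256] 17 .stop)
 (.node [83,105,135,146,115] 3 2 (.far [1,0,0,0,0,0,1] 4096 (.lc 3 2 (.lc 0 0 (.conf [58,160] (.lc 3 2 (.lc 4 2 .stop))))))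
 (.conf [83,135,152] (.conf [83,135,152] (.conf [83,135,152] (.lc 3 7 (.lc 3 7 (.lc 3 7 (.lc 3 7 (.lc 3 7 (.lc 3 7 (.lc 3 7 (.lc 3 7 (.lc 3 7 (.lc 3 7 (.lc 3 7 (.lc 3 7 (.lc 0 1 (.lc 3 7 (.lc 3 7 (.lc 3 7 (.lc 3 7 (.lc 3 7 (.lc 3 7 (.lc 4 7 (.lc 4 7 (.lc 4 7 (.lc 4 7 (.lc 4 7 (.lc 4 7 (.lc 4 7 (.lc 4 7 (.lc 4 7 .stop)))))))))))))))))))))))))))))))))))))))))))))))))))))))))))))))))))))))))))))))))))))))))))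
 (.lc 2 2 (.lc 2 2 (.lc 2 2 (.lc 2 2 (.lc 2 2 (.lc 2 2 (.lc 2 2 (.lc 2 2 (.lc 3 7 (.lc 2 2 (.lc 2 2 (.lc 3 0 (.lc 3 8 (.lc 3 2 (.lc 3 2 (.lc 3 2 (.lc 3 2 (.lc 3 2 (.lc 3 2 (.lc 3 2 (.lc 4 8 (.lc 3 2 (.lc 3 2 (.lc 4 8 (.lc 4 0 (.lc 4 9 (.lc 3 2 (.lc 3 2 (.lc 3 2 (.lc 3 2 (.lc 3 2 (.lc 3 2 (.lc 3 2 (.lc 3 2 (.lc 3 2 (.lc 3 2 (.lc 3 2 (.lc 3 2 (.lc 4 2 (.lc 4 2 (.lc 4 2 (.lc 4 2 (.lc 4 2 .stop)))))))))))))))))))))))))))))))))))))))))))))))))))))))))))))))))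

theorem t46 : kNode2 awTt FTt 5 3 (check tyTt awTt triet FTt [] c46) (fun _ _ _ => true) 0 s46 Pl.nil s46 =
    true := by
  decide +kernel

end Chk
end Pool.Agent.Lib.MP_ba95e8_co
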