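import Pool.Agent.Lib.MP_ba95e8_co.ChkTab
import Pool.Agent.Lib.MP_ba95e8_co.ChkStates

/-!
Deltahedral domes: part 47 of the case analysis.
-/

namespace Pool.Agent.Lib.MP_ba95e8_co
namespace Chk

/-- certificate number 47 -/
def c47 : Cert := (.node [67,80,50] 0 4 (.node [67,50,80] 5 0 (.node [86] 4 3 (.node [50,99] 5 6 (.far [4112,4112,4096,4096,0,256] 0 (.far [4112,4112,4096,4096,0,256] 0 .stop))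
 (.lc 2 2 (.lc 0 7 (.lc 2 2 (.lc 3 2 .stop)))))
 (.conf [87,118] .stop))
 (.conf [50,64] (.conf [67,100] (.node [50,64,80,6] 5 0 (.lc 2 6 (.lc 3 7 .stop))
 (.conf [64,118,80,7] .stop)))))
 (.node [67,86,50] 4 3 (.node [50,64,86] 4 0 (.node [96] 0 3 (.node [50] 6 3 (.node [32] 5 6 .stop
 (.conf [32,114] .stop))
 (.conf [50,115] .stop))
 (.lc 0 7 .stop))
 (.node [50,71,86] 6 4 (.node [103] 5 6 (.node [80,103] 5 0 (.lc 0 0 .stop)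
 (.lc 1 4 (.node [88,103] 5 8 (.far [4112,4112,1,4112,4096,256] 0 (.lc 0 0 (.lc 2 6 (.lc 2 6 (.lc 0 0 (.far [4112,4112,1,4112,4096,256] 0 (.lc 0 0 (.lc 2 6 (.lc 0 0 (.lc 3 6 .stop))))))))))
 (.lc 2 7 (.lc 2 7 (.lc 2 7 (.lc 0 0 (.lc 3 1 (.lc 3 1 (.conf [88,128] (.lc 2 4 (.lc 2 4 (.node [80,103,134] 5 0 (.lc 0 0 .stop)
 (.conf [89,152] (.lc 2 7 (.lc 2 7 (.lc 2 7 (.lc 0 0 (.lc 3 1 (.lc 0 0 (.lc 3 1 (.lc 3 1 (.lc 3 7 (.lc 3 7 (.lc 3 7 (.lc 3 7 (.lc 0 0 (.lc 4 1 (.lc 0 0 (.lc 4 1 (.lc 0 0 (.lc 4 1 (.lc 0 0 (.lc 4 1 (.lc 0 0 (.lc 4 1 (.lc 0 0 (.lc 5 1 .stop))))))))))))))))))))))))))))))))))))))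
 (.lc 3 0 (.lc 3 8 (.lc 1 3 (.lc 1 3 (.lc 3 0 (.lc 3 8 (.lc 4 8 (.lc 4 0 (.lc 4 9 .stop))))))))))
 (.conf [50,71] (.conf [50,64] (.conf [50,72] (.conf [50,67] (.conf [50,67] (.conf [71,112] (.conf [50,115] (.conf [50,115] (.conf [50,71] (.conf [50,64] (.conf [50,72] (.node [50,67,86,96] 0 3 (.node [] 5 6 (.lc 0 1 (.lc 2 7 (.lc 3 8 (.lc 1 1 (.node [96,118] 7 6 (.lc 0 1 (.lc 1 0 (.lc 1 1 (.lc 2 0 (.lc 2 0 (.lc 1 1 (.lc 1 1 (.lc 2 0 (.lc 3 0 (.lc 2 1 .stop))))))))))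
 (.lc 3 8 (.lc 3 8 (.lc 2 0 (.lc 0 0 (.node [96,118] 7 6 (.lc 0 1 (.lc 1 0 (.lc 1 1 (.lc 2 0 (.lc 2 0 (.lc 1 1 (.lc 1 1 (.lc 2 0 (.lc 3 0 (.lc 2 1 .stop))))))))))
 (.lc 4 9 (.node [96,118,135] 7 6 (.lc 0 1 (.lc 1 0 (.lc 1 1 (.lc 2 0 (.lc 2 0 (.lc 1 1 (.lc 1 1 (.lc 2 0 (.lc 3 0 (.lc 2 1 .stop))))))))))
 (.lc 3 0 (.lc 3 0 (.lc 3 0 (.lc 4 0 .stop))))))))))))))))
 .stop)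
 (.node [50,67,86,103] 7 3 (.conf [32,114] (.node [112] 6 7 (.lc 1 0 (.lc 0 7 (.lc 1 0 (.lc 1 1 (.node [104,128] 5 6 (.lc 2 8 (.lc 2 9 (.lc 3 9 (.lc 1 0 (.lc 2 8 (.lc 3 9 (.lc 3 10 (.lc 3 9 (.lc 2 4 (.far [1,4096,4096,0,0,256] 0 (.lc 2 8 (.lc 4 10 (.lc 2 0 (.lc 3 8 (.lc 3 4 (.lc 3 4 (.lc 3 4 (.lc 4 4 .stop))))))))))))))))))
 (.lc 3 8 (.lc 3 1 (.lc 3 9 (.lc 3 4 (.lc 2 0 (.lc 2 0 (.lc 2 0 (.node [97] 5 6 (.lc 2 8 (.lc 3 9 .stop))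
 (.lc 0 0 (.node [104,128] 5 6 (.lc 2 8 (.lc 2 9 (.lc 3 9 (.far [256,257,16,257,0,4096] 17 (.lc 2 8 (.lc 3 9 (.lc 3 10 (.lc 3 9 (.lc 2 4 (.node [128] 1 8 (.lc 1 0 (.lc 2 9 (.lc 3 10 (.lc 3 10 (.lc 3 10 (.lc 4 11 .stop))))))
 (.lc 2 8 (.lc 4 10 (.far [16,257,256,1,4096,4096] 0 (.lc 3 8 (.lc 3 4 (.lc 3 4 (.lc 3 4 (.lc 4 4 .stop))))))))))))))))))
 (.lc 1 1 (.lc 3 8 (.lc 3 8 (.lc 3 1 (.lc 3 9 (.lc 1 0 (.node [104,129] 5 6 (.lc 2 8 (.lc 2 9 (.lc 3 9 (.lc 3 9 (.lc 3 10 (.lc 3 9 (.lc 4 10 .stop)))))))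
 (.node [105,152,128] 5 6 (.lc 2 9 (.lc 2 10 (.lc 3 10 (.lc 1 8 (.lc 2 9 (.lc 3 10 (.lc 3 11 (.lc 3 10 (.lc 2 4 (.far [1,4112,4096,16,256,256] 0 (.lc 2 9 (.lc 4 11 (.lc 2 8 (.lc 3 9 (.lc 3 4 (.lc 3 4 (.lc 3 4 (.lc 4 4 .stop))))))))))))))))))
 (.lc 4 9 (.lc 4 9 (.lc 4 1 (.lc 4 10 (.lc 2 1 (.lc 4 9 (.lc 4 8 (.lc 4 9 (.lc 4 8 (.lc 4 9 (.lc 5 9 (.lc 5 10 .stop)))))))))))))))))))))))))))))))))))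
 (.node [32,120] 8 2 (.node [128] 7 8 (.lc 2 0 (.lc 2 1 (.lc 2 9 (.lc 3 9 (.lc 3 1 (.lc 3 10 (.lc 2 0 (.node [97,128] 6 1 .stop
 (.conf [128,152] (.lc 3 1 (.lc 3 9 (.lc 3 9 (.lc 3 1 (.lc 3 10 (.lc 0 6 (.lc 3 9 (.lc 3 1 (.lc 3 10 (.lc 2 0 (.lc 1 8 (.lc 2 0 (.lc 0 0 (.lc 0 1 (.lc 0 9 (.lc 4 10 (.lc 4 10 (.lc 4 1 (.lc 4 11 (.lc 0 1 (.lc 0 9 (.lc 0 9 (.lc 0 1 (.lc 0 10 (.lc 0 9 (.lc 0 1 (.lc 0 10 (.lc 0 9 (.lc 0 1 (.lc 0 10 (.lc 0 4 (.lc 3 0 (.lc 3 0 (.lc 3 0 (.lc 0 10 (.lc 0 10 (.lc 0 1 (.lc 0 11 .stop)))))))))))))))))))))))))))))))))))))))))))))))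
 (.lc 0 7 (.lc 3 9 (.node [137,144] 7 8 (.lc 2 1 (.lc 2 9 (.lc 2 10 (.lc 3 10 (.lc 3 1 (.lc 3 11 (.node [97,137] 6 1 .stop
 (.lc 2 2 (.conf [137,168] (.lc 3 10 (.lc 3 1 (.lc 3 10 (.lc 3 1 (.lc 3 11 (.lc 0 6 (.lc 3 10 (.lc 3 1 (.lc 3 11 (.lc 2 9 (.lc 1 8 (.lc 2 9 (.lc 0 1 (.lc 0 9 (.lc 0 10 (.lc 4 11 (.lc 4 11 (.lc 4 1 (.lc 4 12 (.lc 0 10 (.lc 0 1 (.lc 0 10 (.lc 0 1 (.lc 0 11 (.lc 0 10 (.lc 0 1 (.lc 0 11 (.lc 0 10 (.lc 0 1 (.lc 0 11 (.lc 0 4 (.lc 3 9 (.lc 3 9 (.lc 3 9 (.lc 0 11 (.lc 0 11 (.lc 0 1 (.lc 0 12 .stop)))))))))))))))))))))))))))))))))))))))))))))))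
 (.lc 3 9 (.lc 4 10 .stop))))))
 (.node [112] 5 6 (.lc 2 7 (.lc 2 8 (.lc 3 9 (.lc 2 4 (.node [103,134] 6 7 (.lc 2 0 (.far [257,256,16,257,0,4096] 17 (.lc 2 9 (.lc 2 0 (.lc 3 10 (.lc 3 4 (.lc 0 9 (.lc 3 10 (.lc 2 0 (.lc 3 10 (.lc 3 4 (.lc 3 4 (.lc 3 4 (.lc 3 0 (.lc 4 11 (.lc 4 4 (.lc 4 4 (.lc 4 4 (.lc 4 4 (.lc 5 4 .stop))))))))))))))))))))
 (.lc 3 8 (.lc 3 9 (.lc 3 9 (.lc 0 0 (.lc 2 7 (.lc 0 0 (.lc 2 4 (.node [103,134] 6 7 (.lc 2 0 (.far [4112,1,0,16,256,256] 0 (.lc 2 9 (.lc 2 0 (.lc 3 10 (.lc 3 4 (.far [4112,1,0,16,256,256] 0 (.lc 3 10 (.lc 2 0 (.lc 3 10 (.lc 3 4 (.lc 3 4 (.lc 3 4 (.lc 3 0 (.lc 4 11 (.lc 4 4 (.lc 4 4 (.lc 4 4 (.lc 4 4 (.lc 5 4 .stop))))))))))))))))))))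
 (.lc 4 10 (.lc 3 4 (.node [103,134,152] 6 7 (.lc 2 0 (.node [112] 8 7 (.lc 2 0 (.lc 1 0 (.lc 2 0 (.lc 2 0 (.lc 2 0 (.lc 2 0 (.conf [1,144] (.lc 2 0 (.lc 3 0 (.lc 3 0 .stop))))))))))
 (.lc 2 10 (.lc 2 0 (.lc 3 11 (.lc 3 4 (.lc 0 10 (.lc 3 11 (.lc 2 0 (.lc 3 11 (.lc 3 4 (.lc 3 4 (.lc 3 4 (.lc 3 0 (.lc 4 12 (.lc 4 4 (.lc 4 4 (.lc 4 4 (.lc 4 4 (.lc 5 4 .stop))))))))))))))))))))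
 (.lc 3 7 (.lc 0 0 (.lc 3 7 (.lc 3 7 (.lc 4 7 .stop)))))))))))))))))))))
 (.conf [32,130] (.node [112] 6 7 (.lc 1 0 (.lc 0 7 (.lc 1 0 (.node [97] 5 6 (.lc 2 8 (.lc 3 9 .stop))
 (.conf [1,128] (.lc 3 8 (.lc 3 1 (.lc 3 9 (.lc 3 4 (.lc 2 0 (.lc 2 0 (.lc 2 0 (.lc 1 1 (.lc 3 1 (.lc 3 8 (.lc 3 8 (.lc 3 1 (.lc 3 9 (.lc 2 1 (.lc 2 1 (.lc 4 9 (.lc 4 9 (.lc 4 1 (.lc 4 10 (.lc 4 8 (.lc 4 9 (.lc 2 1 (.lc 2 1 (.lc 3 1 .stop)))))))))))))))))))))))))))))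
 (.conf [32,130] (.node [120,128] 6 7 (.lc 1 8 (.lc 0 7 (.lc 1 8 (.lc 1 0 (.lc 1 0 (.lc 3 9 (.lc 3 1 (.lc 3 10 (.lc 3 4 (.lc 2 8 (.lc 2 8 (.lc 2 8 (.node [97,128] 1 8 (.lc 2 5 .stop)
 (.lc 0 8 (.node [105,128] 9 8 (.conf [1,144] (.node [145] 6 9 (.lc 0 9 (.lc 2 10 (.far [4096,4096,0,4112,256,256] 17 (.lc 3 10 (.lc 0 10 (.lc 3 11 (.lc 1 5 (.lc 2 5 .stop))))))))
 (.node [145] 6 9 (.lc 2 1 (.lc 0 9 (.lc 2 10 (.lc 3 11 (.lc 0 10 (.lc 1 0 (.lc 3 11 (.lc 0 10 (.lc 3 11 (.lc 0 10 (.lc 1 0 (.lc 4 12 (.lc 0 11 .stop)))))))))))))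
 (.far [1,1,4112,257] 17 (.conf [1,160] (.node [154,161] 6 9 (.lc 0 9 (.lc 2 11 (.lc 3 11 (.lc 0 11 (.lc 3 12 (.lc 0 10 (.lc 3 11 (.lc 0 10 (.lc 4 12 (.lc 0 11 .stop))))))))))
 .stop))))))
 (.lc 3 1 (.lc 3 9 (.lc 3 9 (.lc 3 1 (.lc 3 10 (.lc 4 4 (.node [105,128,145] 1 8 (.lc 2 5 .stop)
 (.node [97,128,152] 6 1 .stop
 (.node [106,128,152] 9 8 (.conf [1,144] (.lc 3 1 (.node [145] 5 6 (.lc 2 10 (.lc 2 11 (.lc 3 11 (.lc 1 9 (.lc 2 10 (.lc 3 11 (.lc 3 12 (.lc 3 11 (.lc 2 4 (.lc 4 12 (.lc 3 4 .stop)))))))))))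
 (.lc 3 1 (.lc 3 11 (.lc 4 11 .stop))))))
 (.lc 4 10 (.lc 4 10 (.lc 4 1 (.lc 4 11 (.lc 4 9 (.lc 4 1 (.lc 4 10 (.lc 4 9 (.lc 4 1 (.lc 4 10 (.lc 4 9 (.lc 4 1 (.lc 4 10 (.lc 5 10 (.lc 5 10 (.lc 5 1 (.lc 5 11 .stop)))))))))))))))))))))))))))))))))))))))))
 (.conf [32,130] .stop)))))))))
 (.conf [50,67] (.conf [50,67] (.conf [50,72] (.conf [50,72] (.conf [50,64] (.conf [50,73] (.conf [50,67] (.conf [50,67] (.conf [50,67] (.node [50,103,112,86] 0 3 (.node [] 5 6 (.lc 2 8 (.lc 3 8 (.lc 2 7 (.lc 3 9 (.lc 3 8 (.lc 1 0 (.lc 2 7 (.lc 4 9 (.lc 3 7 (.lc 2 0 (.node [112,135] 8 7 (.lc 0 1 (.lc 1 1 .stop))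
 (.node [112,135] 8 7 (.lc 0 1 (.lc 1 1 .stop))
 (.node [112,135,152] 8 7 (.lc 0 1 (.lc 1 1 .stop))
 .stop)))))))))))))
 .stop)
 (.node [50,96,115,86] 6 0 (.lc 2 1 (.lc 3 8 (.lc 1 0 .stop)))
 (.node [50,104,135,86] 7 3 (.conf [32,114] (.node [112] 5 6 (.lc 2 0 (.lc 2 9 (.lc 3 9 (.lc 0 0 (.lc 2 8 (.lc 3 10 (.lc 3 0 (.lc 3 9 (.lc 1 7 (.lc 0 0 (.lc 2 8 (.lc 4 10 (.lc 0 0 (.lc 3 8 (.lc 0 0 (.lc 2 7 (.lc 0 0 (.node [135,152] 8 7 (.lc 1 0 (.far [4096,1,4096,0,0,256] 0 (.lc 2 0 (.node [144] 1 9 (.lc 1 0 (.lc 2 10 (.lc 3 11 (.lc 3 11 (.lc 3 11 (.lc 4 12 .stop))))))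
 (.far [4112,1,4096,16,256,256] 0 .stop)))))
 (.lc 0 0 (.node [135,152] 8 7 (.lc 1 0 (.lc 0 0 (.lc 2 0 (.far [257,256,256,1,0,4096] 0 (.lc 0 10 .stop)))))
 (.lc 0 0 (.node [135,152,169] 8 7 (.lc 1 0 (.lc 0 0 (.lc 2 0 (.far [257,16,256,1,4096,4096] 0 (.lc 0 11 .stop)))))
 .stop))))))))))))))))))))))
 (.node [32,121] 9 2 (.node [144] 7 9 (.lc 2 0 (.lc 2 1 (.lc 2 10 (.lc 3 10 (.lc 3 1 (.lc 3 11 (.lc 2 0 (.node [129,144] 1 9 (.lc 2 5 .stop)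
 (.conf [144,169] (.lc 3 1 (.lc 3 10 (.lc 3 10 (.lc 3 1 (.lc 3 11 (.lc 0 6 (.lc 3 10 (.lc 3 1 (.lc 3 11 (.lc 2 0 (.lc 2 0 (.lc 0 0 (.lc 0 1 (.lc 0 10 (.lc 4 11 (.lc 4 11 (.lc 4 1 (.lc 4 12 (.lc 0 1 (.lc 0 10 (.lc 0 10 (.lc 0 1 (.lc 0 11 (.lc 0 10 (.lc 0 1 (.lc 0 11 (.lc 1 6 (.lc 0 10 (.lc 0 1 (.lc 0 11 (.lc 3 0 (.lc 3 0 (.lc 3 0 (.lc 0 11 (.lc 0 11 (.lc 0 1 (.lc 0 12 .stop))))))))))))))))))))))))))))))))))))))))))))))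
 (.lc 0 7 (.lc 3 10 (.node [154,160] 7 9 (.lc 2 1 (.lc 2 10 (.lc 2 11 (.lc 3 11 (.lc 3 1 (.lc 3 12 (.node [129,154] 1 9 .stop
 (.lc 2 2 (.conf [154,185] (.lc 3 11 (.lc 3 1 (.lc 3 11 (.lc 3 1 (.lc 3 12 (.lc 0 6 (.lc 3 11 (.lc 3 1 (.lc 3 12 (.lc 2 10 (.lc 2 10 (.lc 0 1 (.lc 0 10 (.lc 0 11 (.lc 4 12 (.lc 4 12 (.lc 4 1 (.lc 4 13 (.lc 0 11 (.lc 0 1 (.lc 0 11 (.lc 0 1 (.lc 0 12 (.lc 0 11 (.lc 0 1 (.lc 0 12 (.lc 1 6 (.lc 0 11 (.lc 0 1 (.lc 0 12 (.lc 3 10 (.lc 3 10 (.lc 3 10 (.lc 0 12 (.lc 0 12 (.lc 0 1 (.lc 0 13 .stop))))))))))))))))))))))))))))))))))))))))))))))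
 (.lc 3 10 (.lc 4 11 .stop))))))
 (.node [112] 5 6 (.lc 2 9 (.lc 3 9 (.lc 2 8 (.lc 3 10 (.lc 3 9 (.lc 1 7 (.lc 0 0 (.lc 2 8 (.lc 4 10 (.lc 3 8 (.lc 2 7 (.lc 0 0 (.node [135,152] 8 7 (.far [4112,1,0,16,256,256] 0 (.lc 2 0 (.far [4112,1,0,16,256,256] 0 (.lc 2 0 (.lc 3 0 .stop)))))
 (.node [135,152] 8 7 (.far [257,256,16,257,0,4096] 17 (.lc 2 0 (.lc 0 10 (.lc 2 0 (.lc 3 0 .stop)))))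
 (.node [135,152,169] 8 7 (.node [112] 9 7 (.lc 2 0 (.lc 1 0 (.lc 2 0 (.lc 2 0 (.lc 2 0 (.lc 2 0 (.conf [1,160] (.lc 2 0 (.lc 3 0 (.lc 3 0 .stop))))))))))
 (.lc 2 0 (.lc 0 11 (.lc 2 0 (.lc 3 0 .stop)))))
 .stop)))))))))))))))
 (.conf [32,146] (.node [112] 5 6 (.lc 2 9 (.lc 3 9 (.lc 2 8 (.lc 3 10 (.lc 3 9 (.lc 1 7 (.lc 0 0 (.lc 2 8 (.lc 4 10 (.lc 3 8 (.lc 2 7 (.lc 0 0 (.node [135,152] 8 7 (.lc 1 0 (.conf [1,144] (.lc 2 0 .stop)))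
 (.node [135,152] 8 7 (.lc 1 0 (.lc 0 0 (.lc 2 0 .stop)))
 (.node [135,152,169] 8 7 (.lc 1 0 (.lc 0 0 (.lc 2 0 .stop)))
 .stop)))))))))))))))
 (.conf [32,146] (.node [121,144] 5 6 (.lc 2 9 (.lc 2 10 (.lc 3 10 (.lc 2 8 (.lc 3 11 (.lc 3 9 (.lc 3 10 (.lc 1 7 (.lc 0 0 (.lc 2 8 (.lc 2 8 (.lc 4 11 (.lc 0 0 (.lc 3 8 (.lc 2 7 (.lc 0 0 (.lc 1 0 (.node [135,168] 8 7 (.lc 1 9 (.lc 1 0 (.lc 2 9 (.far [4112,1,4096,16,256,256] 0 (.far [4112,1,4096,16,256,256] 0 .stop)))))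
 (.node [135,168] 8 7 (.lc 1 9 (.lc 1 0 (.lc 2 9 (.far [257,256,16,257,0,4096] 17 (.lc 0 11 .stop)))))
 (.lc 0 0 (.node [135,168,186] 8 7 (.lc 1 9 (.lc 1 0 (.lc 2 9 (.node [144] 10 9 (.lc 2 0 (.conf [1,176] .stop))
 (.lc 0 12 .stop)))))
 .stop)))))))))))))))))))))
 (.conf [32,146] .stop)))))))))
 (.node [50,103,112,86] 0 3 (.node [] 5 6 (.lc 2 8 (.lc 3 8 (.lc 2 7 (.lc 3 9 (.lc 3 8 (.node [112] 7 0 (.far [4112,257,0,256,256] 0 .stop)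
 (.lc 2 7 (.lc 4 9 (.lc 3 7 (.far [4096,1,4112,0,256] 0 (.lc 2 0 (.lc 2 0 (.lc 3 0 .stop)))))))))))))
 .stop)
 (.node [50,96,115,86] 6 0 (.lc 2 1 (.lc 2 8 (.lc 2 7 (.lc 0 8 (.lc 3 8 (.lc 3 9 (.lc 2 7 (.lc 1 0 (.lc 3 7 .stop)))))))))
 (.node [50,104,115,86] 7 3 (.conf [32,114] (.lc 3 0 (.lc 3 9 (.node [112] 5 6 (.lc 2 9 (.lc 3 9 (.lc 2 8 (.lc 3 10 (.lc 3 9 (.far [256,16,257,0,4096] 17 (.lc 0 0 (.lc 2 8 (.lc 4 10 (.lc 3 8 (.node [135,152] 8 7 (.lc 1 0 (.lc 1 0 (.conf [1,144] (.lc 3 10 (.lc 2 0 (.lc 2 0 (.lc 2 0 (.lc 3 10 (.lc 2 0 (.lc 3 0 (.lc 4 11 .stop)))))))))))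
 (.lc 0 0 (.lc 2 7 (.lc 2 7 (.lc 3 7 .stop)))))))))))))))
 (.conf [32,146] (.lc 3 0 (.lc 3 9 (.lc 4 9 (.lc 4 10 .stop)))))))))
 (.node [50,67,103,112,86] 0 3 (.node [] 5 6 (.lc 2 7 (.lc 2 8 (.lc 3 9 (.lc 2 4 (.node [103,134] 6 7 (.node [112] 8 7 (.lc 1 0 (.lc 0 9 (.lc 2 0 (.far [4096,0,257,0,256,256] 0 (.lc 0 9 (.lc 0 10 .stop))))))
 (.lc 2 9 (.lc 2 0 (.lc 3 10 (.lc 3 4 (.lc 0 9 (.lc 3 10 (.lc 2 0 (.lc 3 10 (.lc 3 4 (.lc 3 4 (.lc 3 0 (.lc 4 11 (.lc 4 4 (.lc 4 4 (.lc 4 4 (.lc 4 4 (.lc 5 4 .stop))))))))))))))))))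
 (.lc 3 8 (.lc 3 9 (.lc 3 9 (.lc 2 7 (.lc 2 4 (.node [103,134] 6 7 (.far [4112,1,1,4112,0,256] 0 (.lc 2 9 (.lc 2 0 (.lc 3 10 (.lc 3 4 (.far [4112,1,1,4112,0,256] 0 (.lc 3 10 (.lc 2 0 (.lc 3 10 (.lc 3 4 (.lc 3 4 (.lc 3 0 (.lc 4 11 (.lc 4 4 (.lc 4 4 (.lc 4 4 (.lc 4 4 (.lc 5 4 .stop))))))))))))))))))
 (.lc 4 10 (.lc 3 4 (.node [103,134,152] 6 7 (.far [4112,4096,1,4112,0,256] 0 (.lc 2 10 (.lc 2 0 (.lc 3 11 (.lc 3 4 (.lc 0 10 (.lc 3 11 (.lc 2 0 (.lc 3 11 (.lc 3 4 (.lc 3 4 (.lc 3 0 (.lc 4 12 (.lc 4 4 (.lc 4 4 (.lc 4 4 (.lc 4 4 (.lc 5 4 .stop))))))))))))))))))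
 (.lc 3 7 (.lc 3 7 (.lc 3 7 (.lc 4 7 .stop))))))))))))))))))
 .stop)
 (.node [50,67,115,86,96] 7 3 (.conf [32,114] (.lc 3 8 (.conf [32,130] (.lc 3 8 (.lc 4 9 .stop)))))
 (.node [50,67,104,135,86] 7 3 (.conf [32,114] (.lc 3 0 (.lc 3 9 (.node [112] 8 7 (.lc 1 0 (.lc 1 0 (.lc 3 1 (.lc 3 9 (.lc 0 6 (.lc 2 0 (.lc 2 0 (.lc 2 0 (.lc 2 0 (.lc 2 0 (.lc 2 0 (.lc 3 1 (.far [4112,4112,256,16,16] 1 (.node [1,137] 6 8 (.conf [105,144] (.lc 3 1 (.lc 3 10 (.lc 1 0 (.lc 1 0 (.lc 3 1 (.lc 3 10 (.lc 4 10 (.lc 4 1 (.lc 4 11 .stop))))))))))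
 (.lc 2 0 (.lc 2 0 (.lc 2 0 (.lc 4 9 (.lc 3 0 (.lc 3 0 (.lc 3 0 (.lc 3 0 (.far [4112,4112,256,16,16] 1 (.conf [1,144] (.node [137,145] 6 8 (.node [105] 6 9 (.lc 0 9 (.lc 2 10 (.far [4096,0,4112,4112,256,256] 17 (.lc 3 10 (.lc 0 10 (.lc 3 11 (.lc 1 5 (.lc 2 5 .stop))))))))
 (.lc 3 10 (.lc 1 1 (.lc 3 10 (.lc 4 11 .stop)))))
 (.lc 1 0 (.node [137,145] 6 8 (.node [105,145] 5 6 (.lc 2 9 (.lc 2 10 (.lc 3 10 (.lc 2 9 (.lc 3 10 (.lc 3 11 (.lc 3 10 (.lc 0 0 (.lc 0 0 (.lc 4 11 .stop))))))))))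
 (.lc 3 10 (.node [106,145] 5 6 (.lc 2 10 (.lc 2 11 (.lc 3 11 (.lc 1 9 (.lc 2 10 (.lc 3 11 (.lc 3 12 (.lc 3 11 (.lc 2 4 (.lc 4 12 (.lc 3 4 .stop)))))))))))
 (.lc 3 10 (.lc 4 11 .stop)))))
 (.node [138,169,145] 6 8 (.node [106] 6 10 (.lc 0 10 (.lc 2 11 (.lc 3 11 (.lc 0 11 (.lc 3 12 (.lc 0 9 (.lc 3 11 (.lc 0 9 (.lc 4 12 (.lc 0 11 .stop))))))))))
 (.lc 3 11 (.lc 1 9 (.lc 3 11 (.lc 4 12 .stop)))))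
 .stop))))))))))))))))))))))))))))
 (.conf [32,146] (.lc 3 0 (.lc 3 9 (.lc 4 9 (.lc 4 10 .stop)))))))))
 (.node [50,104,135,86,112] 0 3 (.node [] 5 6 (.lc 2 9 (.lc 3 9 (.lc 2 8 (.lc 3 10 (.lc 3 9 (.lc 1 7 (.lc 2 8 (.lc 4 10 (.lc 3 8 (.lc 2 7 (.node [135,152] 8 7 (.far [4112,1,1,4112,0,256] 0 (.lc 2 0 (.far [4112,1,1,4112,0,256] 0 (.lc 2 0 (.lc 3 0 .stop)))))
 (.node [135,152] 9 8 (.node [112] 9 7 (.lc 1 0 (.lc 0 10 (.lc 2 0 (.far [4096,0,257,0,256,256] 0 (.lc 0 10 (.lc 0 11 .stop))))))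
 (.lc 1 0 (.lc 1 0 (.lc 3 10 (.lc 2 0 .stop)))))
 (.node [135,152,169] 9 8 (.far [1,4096,1,4112,0,256] 0 (.lc 1 0 (.lc 1 0 (.lc 3 11 (.lc 2 0 .stop)))))
 .stop)))))))))))))
 .stop)
 (.node [50,104,115,128,86] 7 3 (.conf [32,114] (.lc 3 9 (.conf [32,146] (.lc 3 9 (.lc 4 10 .stop)))))
 (.node [50,96,115,135,86] 6 0 (.lc 2 1 (.lc 3 9 (.lc 1 0 .stop)))
 (.node [50,105,115,135,86] 7 3 (.conf [32,114] (.lc 3 0 (.lc 3 10 (.node [112] 5 6 (.lc 2 10 (.lc 3 10 (.lc 2 9 (.lc 3 11 (.lc 3 10 (.lc 1 8 (.lc 0 0 (.lc 2 9 (.lc 4 11 (.lc 3 9 (.lc 2 8 (.lc 0 0 (.node [152,169] 9 8 (.far [4112,1,0,16,256,256] 0 (.lc 2 7 (.far [4112,1,0,16,256,256] 0 (.lc 2 7 (.lc 3 7 .stop)))))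
 (.node [152,169] 10 9 (.far [16,256,16,257,0,4096] 17 (.lc 1 7 (.lc 1 7 (.lc 3 11 (.lc 2 7 .stop)))))
 (.node [152,169,186] 10 9 (.node [135] 8 7 (.lc 1 0 (.lc 1 0 (.lc 3 12 (.lc 2 0 (.lc 2 0 (.lc 0 11 (.lc 0 0 (.lc 2 0 (.lc 1 0 (.lc 3 0 (.conf [1,176] .stop)))))))))))
 (.lc 1 7 (.lc 1 7 (.lc 3 12 (.lc 2 7 .stop)))))
 .stop)))))))))))))))
 (.conf [32,162] (.lc 3 0 (.lc 3 10 (.lc 4 10 (.lc 4 11 .stop)))))))))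
 .stop)))))))))))))))))))))))))))))))))))))
 (.conf [67,86] (.conf [67,80] (.conf [67,87] (.conf [67,86] (.conf [67,80] (.conf [67,87] (.node [86,96,86,67,50] 0 4 .stop
 (.node [67,100,67,80,50] 5 0 .stop
 (.node [67,100,67,87,50] 5 7 (.lc 2 0 (.lc 2 8 (.lc 3 8 (.lc 3 0 (.lc 3 9 (.lc 0 0 (.node [118,135] 8 7 (.lc 1 6 (.lc 1 6 (.lc 0 2 (.lc 1 6 (.lc 1 4 (.lc 1 4 (.lc 0 2 (.lc 2 6 (.lc 2 6 (.lc 1 7 (.lc 2 6 (.lc 2 6 (.lc 0 2 (.lc 2 6 (.lc 2 6 (.lc 2 6 (.lc 1 7 (.lc 2 6 (.lc 2 6 (.node [100,128] 0 6 (.lc 0 3 (.conf [3,50] .stop))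
 (.node [100,130] 2 6 .stop
 (.lc 0 2 (.node [100,137] 6 4 (.lc 1 3 (.lc 1 2 (.lc 2 3 (.lc 2 3 (.node [50] 9 3 (.conf [32,146] (.lc 3 0 (.lc 3 10 (.far [16,256,16,256,0,4096] 17 (.conf [32,162] (.lc 3 0 (.lc 3 10 (.lc 4 10 (.lc 4 11 .stop)))))))))
 (.node [50,144] 0 3 (.node [] 8 9 (.lc 2 10 (.lc 0 10 (.lc 3 11 (.far [4096,0,16,0,257,256] 0 (.lc 0 10 (.lc 0 11 .stop))))))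
 .stop)
 (.node [50,154] 10 3 (.conf [32,162] (.lc 3 0 (.lc 3 11 (.far [16,256,16,256,0,4096] 17 (.conf [32,178] (.lc 3 0 (.lc 3 11 (.lc 4 11 (.lc 4 12 .stop)))))))))
 .stop)))))))
 (.lc 1 4 (.lc 1 4 (.lc 0 2 (.lc 1 4 (.lc 2 6 (.lc 2 6 (.lc 2 6 (.lc 1 2 (.lc 2 6 (.lc 1 2 (.lc 2 6 (.lc 2 6 (.node [100,137,144] 0 6 .stop
 (.conf [38,100] (.lc 1 6 (.node [100,128,150] 8 0 .stop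
 (.node [100,138,150] 6 4 (.lc 1 3 (.lc 1 2 (.lc 2 3 (.lc 2 3 (.node [50] 9 3 (.lc 2 2 (.lc 0 2 (.lc 3 0 (.lc 3 11 (.conf [32,162] (.far [16,256,16,256,0,4096] 17 (.conf [32,178] .stop)))))))
 (.lc 0 0 (.lc 0 11 .stop)))))))
 (.lc 3 6 (.lc 3 6 (.lc 2 7 (.lc 2 7 (.lc 3 6 (.lc 3 6 (.lc 1 9 (.lc 3 6 (.lc 3 6 (.lc 2 4 (.lc 2 4 (.lc 1 6 (.lc 2 4 (.lc 2 4 (.lc 4 9 (.lc 4 0 (.lc 4 9 (.lc 1 2 (.lc 4 2 (.lc 1 2 (.lc 4 0 (.lc 4 10 (.lc 0 2 (.lc 4 9 (.lc 4 0 (.lc 1 6 (.lc 4 0 (.lc 4 2 (.lc 0 2 (.lc 4 10 (.lc 5 10 (.lc 5 9 (.lc 2 6 (.lc 2 6 (.lc 5 10 (.lc 5 0 (.lc 1 9 (.lc 5 0 (.lc 5 11 .stop)))))))))))))))))))))))))))))))))))))))))))))))))))))))))))))))))))))))))))))))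
 (.lc 3 8 (.lc 3 0 (.lc 3 9 (.lc 3 8 (.lc 3 0 (.lc 3 9 (.lc 0 0 (.lc 2 6 (.lc 0 0 (.node [118,135] 7 6 (.lc 1 4 (.lc 1 4 (.lc 0 2 (.lc 1 4 (.lc 3 9 (.lc 3 0 (.lc 3 9 (.lc 1 2 (.lc 3 2 (.lc 1 2 (.lc 3 0 (.lc 3 10 (.lc 2 4 (.lc 2 4 (.lc 2 4 (.lc 2 4 (.lc 1 6 (.lc 2 4 (.lc 2 4 (.lc 0 2 (.lc 3 9 (.lc 3 0 (.lc 1 6 (.lc 3 0 (.lc 3 2 (.lc 0 2 (.lc 3 10 (.node [100,128] 0 6 (.lc 0 3 (.far [1,4096,1,256,256] 0 .stop))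
 (.node [100,130] 2 6 .stop
 (.lc 1 2 (.node [100,137] 6 4 (.lc 1 3 (.lc 1 2 (.lc 2 3 (.lc 2 3 (.far [4112,4096,1,256,256] 0 (.far [4112,4096,1,256,256] 0 (.far [4112,4096,1,256,256] 0 .stop)))))))
 (.lc 2 4 (.lc 2 4 (.lc 1 2 (.lc 2 4 (.lc 4 10 (.lc 4 9 (.lc 2 6 (.lc 2 6 (.lc 4 10 (.lc 4 0 (.lc 1 9 (.lc 4 0 (.lc 4 11 (.lc 3 4 (.lc 3 4 (.lc 2 6 (.lc 3 4 (.lc 3 4 (.node [100,137,144] 0 6 (.lc 0 3 (.conf [3,50] .stop))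
 (.far [1,1,257,257] 4096 (.node [100,137,146] 2 6 .stop
 (.lc 2 2 (.conf [32,130] (.lc 2 2 (.node [100,128,150] 8 0 .stop
 (.node [100,138,169] 6 4 (.lc 1 3 (.lc 1 2 (.lc 2 3 (.lc 2 3 (.far [4112,4096,1,256,256] 0 (.far [4112,4096,1,256,256] 0 (.far [4112,4096,1,256,256] 0 .stop)))))))
 (.lc 1 2 (.node [100,137,144] 0 6 .stop
 (.conf [38,100] (.lc 2 6 (.node [100,128,150] 6 4 (.lc 1 3 (.lc 1 2 (.lc 2 3 (.node [50] 9 3 (.lc 2 2 (.far [4096,0,1,1,0,256] 0 (.lc 3 10 (.lc 0 1 .stop))))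
 (.lc 0 10 .stop)))))
 (.node [100,130,150] 8 2 (.lc 1 9 (.lc 2 9 .stop))
 (.lc 1 2 (.node [100,138,150] 6 4 (.lc 1 3 (.lc 1 2 (.lc 2 3 (.lc 2 3 (.node [50] 9 3 (.lc 2 2 (.conf [32,162] (.lc 3 0 (.lc 3 11 (.lc 0 2 (.lc 0 0 (.lc 0 11 .stop)))))))
 (.lc 0 0 (.lc 0 11 .stop)))))))
 (.node [100,137,144,137] 0 6 .stop
 (.conf [38,100] (.lc 2 6 (.node [100,128,150] 6 4 (.lc 1 3 (.lc 1 2 (.lc 2 3 (.node [50] 0 9 (.lc 1 3 (.node [] 1 8 (.lc 1 0 (.lc 2 10 (.lc 3 11 (.lc 3 11 (.lc 3 11 (.lc 4 12 .stop))))))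
 (.lc 2 3 .stop)))
 (.lc 0 10 .stop)))))
 (.node [100,138,169,138] 6 4 (.lc 1 3 (.lc 1 2 (.lc 2 3 (.lc 2 3 (.node [50] 9 3 (.lc 2 2 (.lc 0 2 (.lc 3 0 (.lc 3 11 (.conf [32,162] (.far [4096,4112,4096,1,256,256] 0 (.conf [32,178] .stop)))))))
 (.lc 0 0 (.lc 0 11 .stop)))))))
 (.node [100,138,169,144] 0 6 .stop
 (.conf [38,100] (.lc 3 6 (.lc 3 6 (.node [100,138,150,160] 6 4 (.lc 1 3 (.lc 1 2 (.lc 2 3 (.node [50] 0 9 (.lc 1 3 (.far [1,4112,4096,1,256,256] 0 (.lc 2 3 .stop)))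
 (.lc 0 11 .stop)))))
 (.conf [41,150] (.lc 2 9 (.node [100,128,150,169] 8 0 .stop
 (.node [100,139,150,169] 6 4 (.lc 1 3 (.lc 1 2 (.lc 2 3 (.lc 2 3 (.node [50] 9 3 (.lc 2 2 (.lc 0 2 (.lc 3 0 (.lc 3 12 (.conf [32,162] (.far [4096,4112,4096,1,256,256] 0 (.conf [32,194] .stop)))))))
 (.lc 0 0 (.lc 0 12 .stop)))))))
 .stop)))))))))))))))))))))))))))))))))))))))))))))))))))))))))))))))))))))))))))))))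
 (.lc 4 9 (.lc 4 9 (.lc 4 0 (.lc 4 10 (.lc 0 0 (.node [118,135,152] 8 7 (.lc 1 6 (.lc 1 6 (.lc 0 2 (.lc 1 6 (.lc 1 4 (.lc 1 4 (.lc 0 2 (.lc 2 6 (.lc 2 6 (.lc 1 7 (.lc 2 6 (.lc 2 6 (.lc 0 2 (.lc 2 6 (.lc 2 6 (.lc 2 6 (.lc 1 7 (.lc 2 6 (.lc 2 6 (.node [100,128] 0 6 (.lc 0 3 (.conf [3,50] .stop))
 (.node [100,130] 2 6 .stop
 (.lc 0 2 (.node [100,138] 6 4 (.lc 1 3 (.lc 1 2 (.lc 2 3 (.lc 2 3 (.node [50] 10 3 (.conf [32,162] (.lc 3 0 (.lc 0 8 (.lc 3 11 (.node [160] 8 10 (.lc 2 0 (.lc 2 11 (.lc 3 11 (.lc 0 11 (.lc 3 12 (.lc 0 0 (.conf [1,144] (.lc 2 0 (.lc 3 0 (.lc 3 0 .stop))))))))))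
 (.conf [32,178] (.lc 3 0 (.lc 3 11 (.lc 4 11 (.lc 4 12 .stop))))))))))
 (.node [50,160] 0 3 (.far [1,4096,1,4096,0,256] 0 .stop)
 (.node [50,171] 11 3 (.conf [32,178] (.lc 3 0 (.lc 0 8 (.lc 3 12 (.node [176] 10 11 (.lc 0 8 (.lc 2 12 (.lc 3 12 (.lc 0 12 (.lc 3 13 (.lc 0 9 (.lc 0 0 (.lc 1 11 (.lc 1 0 (.lc 3 0 (.conf [1,144] .stop)))))))))))
 (.conf [32,194] (.lc 3 0 (.lc 3 12 (.lc 4 12 (.lc 4 13 .stop))))))))))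
 .stop)))))))
 (.lc 1 4 (.lc 1 4 (.lc 0 2 (.lc 1 4 (.lc 2 6 (.lc 2 6 (.lc 2 6 (.lc 1 2 (.lc 2 6 (.lc 1 2 (.lc 2 6 (.lc 2 6 (.node [100,138,160] 0 6 .stop
 (.conf [38,100] (.lc 1 6 (.node [100,128,166] 8 0 .stop
 (.node [100,139,166] 6 4 (.lc 1 3 (.lc 1 2 (.lc 2 3 (.lc 2 3 (.node [50] 10 3 (.lc 2 2 (.lc 0 2 (.lc 3 0 (.lc 3 12 (.conf [32,178] (.node [176] 8 11 (.lc 2 0 (.conf [1,144] .stop))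
 (.conf [32,194] .stop)))))))
 (.lc 0 0 (.lc 0 12 .stop)))))))
 (.lc 3 6 (.lc 3 6 (.lc 2 7 (.lc 2 7 (.lc 3 6 (.lc 3 6 (.lc 1 10 (.lc 3 6 (.lc 3 6 (.lc 2 4 (.lc 2 4 (.lc 1 6 (.lc 2 4 (.lc 2 4 (.lc 4 10 (.lc 4 0 (.lc 4 10 (.lc 1 2 (.lc 4 2 (.lc 1 2 (.lc 4 0 (.lc 4 11 (.lc 0 2 (.lc 4 10 (.lc 4 0 (.lc 1 6 (.lc 4 0 (.lc 4 2 (.lc 0 2 (.lc 4 11 (.lc 5 11 (.lc 5 10 (.lc 2 6 (.lc 2 6 (.lc 5 11 (.lc 5 0 (.lc 1 10 (.lc 5 0 (.lc 5 12 .stop)))))))))))))))))))))))))))))))))))))))))))))))))))))))))))))))))))))))))))))))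
 (.lc 0 0 (.lc 3 6 (.lc 0 0 (.lc 3 6 (.lc 0 0 (.lc 3 6 (.lc 0 0 (.lc 4 6 .stop)))))))))))))))))))))))))))))))
 (.conf [67,86] (.conf [67,80] (.conf [67,87] (.node [67,86,96,50] 0 4 (.node [50,3] 0 3 (.lc 1 2 (.lc 2 2 .stop))
 (.lc 1 2 .stop))
 (.node [67,80,100,50] 5 0 (.lc 0 0 .stop)
 (.node [67,87,100,50] 4 3 (.node [50,99] 5 7 (.far [4112,4112,4096,256] 0 (.lc 0 0 (.node [118,135] 7 6 (.lc 2 0 (.lc 2 2 (.lc 0 2 (.lc 2 9 (.lc 2 3 (.lc 2 3 (.lc 2 3 (.lc 2 3 (.lc 2 3 (.node [99,128] 0 6 (.lc 1 3 (.node [] 1 8 (.far [16,0,257,16,0,1] 0 (.node [25,128,152] 1 9 .stop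
 (.lc 2 0 (.node [26,128,152,169,152] 1 10 .stop
 (.lc 2 0 (.lc 3 0 .stop))))))
 (.lc 2 3 (.lc 2 0 .stop))))
 (.node [99,150,137] 6 3 (.lc 1 2 (.lc 1 2 (.lc 1 2 (.lc 3 0 (.lc 0 2 (.lc 3 10 (.lc 2 2 (.lc 2 2 (.lc 2 2 (.lc 2 2 (.lc 2 2 (.lc 2 2 (.lc 2 2 (.lc 3 0 (.lc 1 0 (.lc 1 0 (.lc 3 3 (.lc 2 2 (.lc 2 2 (.lc 0 0 (.lc 4 10 (.lc 2 0 (.lc 2 0 (.lc 3 2 (.lc 3 2 (.lc 3 2 (.lc 4 3 (.lc 4 3 (.lc 4 3 (.lc 2 0 (.lc 4 3 (.lc 2 0 (.lc 5 3 (.lc 3 0 .stop))))))))))))))))))))))))))))))))))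
 (.lc 3 9 (.lc 3 0 (.lc 0 0 (.lc 3 0 (.lc 3 10 (.lc 2 3 (.lc 2 3 (.lc 2 3 (.lc 2 3 (.lc 2 3 (.lc 2 3 (.lc 2 3 (.lc 2 3 (.lc 0 0 (.lc 0 2 (.lc 1 2 (.lc 0 9 (.lc 3 3 (.lc 3 3 (.lc 3 3 (.lc 3 3 (.lc 3 3 (.lc 3 3 (.lc 0 9 (.lc 0 0 (.lc 1 0 (.lc 0 0 (.lc 0 10 (.lc 3 3 (.lc 3 3 (.lc 3 3 (.lc 3 3 (.lc 3 3 (.lc 3 3 (.lc 3 3 (.lc 3 3 (.lc 3 3 (.lc 3 3 (.lc 3 3 (.lc 3 3 (.lc 3 3 (.lc 3 3 (.lc 4 3 (.lc 4 3 (.lc 4 3 (.lc 4 3 (.lc 4 3 (.lc 4 3 .stop)))))))))))))))))))))))))))))))))))))))))))))))))))))))))))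
 (.lc 0 0 (.far [4112,4112,4096,256] 0 (.lc 0 0 (.node [118,135] 7 6 (.lc 2 0 (.lc 2 2 (.lc 0 2 (.lc 2 9 (.lc 2 3 (.lc 2 3 (.lc 2 3 (.lc 2 3 (.lc 2 3 (.lc 0 0 (.lc 0 9 (.lc 3 9 (.lc 3 0 (.lc 0 0 (.lc 3 0 (.lc 3 10 (.lc 2 3 (.lc 2 3 (.lc 2 3 (.lc 2 3 (.lc 2 3 (.lc 2 3 (.lc 2 3 (.lc 2 3 (.node [99,128] 8 0 (.far [257,257,16,0,1] 0 .stop)
 (.node [99,130] 8 2 .stop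
 (.lc 1 2 (.node [99,137] 8 9 (.lc 0 9 (.lc 0 0 (.lc 0 10 (.lc 0 0 (.lc 0 10 (.far [257,257,16,0,1] 0 (.lc 0 10 (.lc 0 0 (.lc 0 11 .stop)))))))))
 (.lc 3 3 (.lc 3 3 (.lc 3 3 (.lc 3 3 (.lc 3 3 (.lc 3 3 (.node [99,137,144] 0 6 (.lc 1 3 (.node [] 8 9 (.lc 0 9 (.lc 0 10 (.lc 0 10 (.lc 0 10 (.lc 0 11 .stop)))))
 (.lc 2 3 (.lc 2 0 .stop))))
 (.conf [38,99] (.lc 1 0 (.node [99,128,150] 8 0 (.node [] 6 3 (.lc 1 2 (.lc 1 2 (.lc 0 2 (.lc 3 10 (.lc 2 2 (.lc 2 2 (.lc 2 2 (.lc 1 0 (.lc 1 0 (.lc 3 3 (.lc 2 2 (.lc 2 0 (.lc 2 0 (.lc 3 2 (.lc 4 3 (.lc 2 0 (.lc 2 0 (.lc 3 0 .stop))))))))))))))))))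
 .stop)
 (.node [99,138,150] 8 10 (.lc 0 10 (.lc 0 0 (.lc 0 11 (.lc 0 0 (.lc 0 11 (.lc 2 9 (.lc 0 11 (.lc 0 0 (.lc 0 12 .stop)))))))))
 (.lc 3 3 (.lc 3 3 (.lc 3 3 (.lc 3 3 (.lc 3 3 (.lc 3 3 (.lc 3 3 (.lc 3 3 (.lc 3 3 (.lc 3 3 (.lc 3 3 (.lc 3 3 (.lc 3 3 (.lc 3 3 (.lc 4 3 (.lc 4 3 (.lc 4 3 (.lc 4 3 (.lc 4 3 (.lc 4 3 .stop)))))))))))))))))))))))))))))))))))))))))))))))))))))))))))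
 (.lc 0 0 (.node [118,135,152] 7 6 (.lc 2 0 (.lc 2 2 (.lc 0 2 (.lc 2 10 (.lc 2 3 (.lc 2 3 (.lc 2 3 (.lc 2 3 (.lc 2 3 (.lc 0 0 (.lc 0 10 (.lc 3 10 (.lc 3 0 (.lc 0 0 (.lc 3 0 (.lc 3 11 (.lc 2 3 (.lc 2 3 (.lc 2 3 (.lc 2 3 (.lc 2 3 (.lc 2 3 (.lc 2 3 (.lc 2 3 (.node [99,128] 8 0 (.conf [6,144] (.lc 0 10 .stop))
 (.node [99,130] 8 2 (.lc 2 6 .stop)
 (.lc 1 2 (.node [99,138] 9 8 (.far [16,257,16,0,1] 0 (.lc 3 0 (.lc 3 2 (.lc 3 11 (.far [16,257,16,0,1] 0 (.far [16,257,16,0,1] 0 (.lc 3 0 (.lc 3 11 (.lc 4 11 (.lc 4 0 (.lc 4 0 (.lc 4 12 .stop))))))))))))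
 (.lc 3 3 (.lc 3 3 (.lc 3 3 (.lc 3 3 (.lc 3 3 (.lc 3 3 (.node [99,138,160] 0 6 (.lc 1 3 (.node [] 9 8 (.node [154] 9 10 (.lc 2 11 (.lc 0 11 (.lc 3 12 (.far [256,16,0,257,16,0,1] 0 .stop))))
 (.lc 3 11 (.lc 1 0 (.lc 3 11 (.lc 4 12 .stop)))))
 (.lc 2 3 (.lc 2 0 .stop))))
 (.conf [38,99] (.lc 1 0 (.node [99,128,166] 8 0 .stop
 (.node [99,139,166] 9 8 (.node [155] 6 3 (.lc 1 2 (.lc 1 2 (.lc 1 2 (.lc 3 0 (.lc 0 2 (.lc 3 12 (.lc 2 2 (.lc 2 2 (.lc 2 2 (.lc 2 2 (.lc 2 2 (.lc 2 2 (.lc 2 2 (.lc 3 0 (.lc 1 0 (.lc 1 0 (.lc 3 3 (.lc 2 2 (.lc 2 2 (.lc 0 0 (.lc 4 12 (.lc 2 0 (.lc 2 0 (.lc 3 2 (.lc 3 2 (.lc 3 2 (.lc 4 3 (.lc 4 3 (.lc 4 3 (.lc 2 0 (.lc 4 3 (.lc 2 0 (.lc 5 3 (.lc 3 0 .stop))))))))))))))))))))))))))))))))))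
 (.lc 3 0 (.lc 3 2 (.lc 3 12 (.lc 1 10 (.lc 1 10 (.lc 3 0 (.lc 3 12 (.lc 4 12 (.lc 4 0 (.lc 4 0 (.lc 4 13 .stop))))))))))))
 (.lc 3 3 (.lc 3 3 (.lc 3 3 (.lc 3 3 (.lc 3 3 (.lc 3 3 (.lc 3 3 (.lc 3 3 (.lc 3 3 (.lc 3 3 (.lc 3 3 (.lc 3 3 (.lc 3 3 (.lc 3 3 (.lc 4 3 (.lc 4 3 (.lc 4 3 (.lc 4 3 (.lc 4 3 (.lc 4 3 .stop)))))))))))))))))))))))))))))))))))))))))))))))))))))))))))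
 .stop)))))))))
 (.lc 2 2 (.lc 2 2 (.node [50,96] 0 3 .stop
 (.node [50,104] 5 7 (.far [4112,4112,4096,256] 0 (.lc 0 0 (.lc 1 3 (.node [118,151] 7 6 (.lc 1 8 (.lc 1 8 (.lc 1 8 (.lc 3 0 (.lc 3 10 (.lc 2 8 (.lc 2 8 (.lc 2 8 (.lc 2 8 (.lc 2 8 (.lc 2 8 (.lc 3 0 (.lc 3 2 (.lc 3 10 (.lc 1 3 (.lc 2 8 (.lc 2 8 (.lc 2 8 (.lc 4 10 (.lc 4 0 (.lc 4 0 (.lc 4 11 (.lc 3 8 (.lc 3 8 (.lc 3 8 (.lc 3 8 (.lc 2 3 (.lc 2 3 (.lc 0 0 (.lc 0 2 (.lc 0 10 (.node [131,144] 0 8 (.node [] 1 9 (.far [16,0,257,16,0,1] 0 (.node [26,144,169] 1 10 .stop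
 (.lc 2 0 (.node [27,144,169,186,169] 1 11 .stop
 (.lc 2 0 (.lc 3 0 .stop))))))
 .stop)
 (.node [131,168,154] 8 3 (.lc 1 2 (.lc 0 2 (.lc 2 2 (.lc 2 2 (.lc 1 0 (.lc 0 0 (.lc 2 0 .stop)))))))
 (.lc 0 10 (.lc 0 0 (.lc 0 0 (.lc 0 11 .stop)))))))))))))))))))))))))))))))))))))
 (.lc 0 0 (.far [4112,4112,4096,256] 0 (.lc 0 0 (.node [118,151] 7 6 (.lc 1 8 (.lc 1 8 (.lc 1 8 (.lc 3 0 (.lc 3 10 (.lc 2 8 (.lc 2 8 (.lc 2 8 (.lc 2 8 (.lc 2 8 (.lc 2 8 (.lc 3 0 (.lc 3 2 (.lc 3 10 (.lc 1 3 (.lc 2 8 (.lc 2 8 (.lc 2 8 (.lc 4 10 (.lc 4 0 (.lc 4 0 (.lc 4 11 (.lc 3 8 (.lc 3 8 (.lc 3 8 (.lc 3 8 (.lc 2 3 (.lc 2 3 (.node [131,144] 0 8 (.lc 0 2 (.lc 3 1 (.far [257,1,4112,0,1,257] 4096 .stop)))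
 (.node [131,146] 2 8 .stop
 (.node [131,154] 8 3 (.lc 1 2 (.conf [32,162] (.lc 2 2 (.lc 2 2 (.lc 1 0 (.far [4096,1,4112,0,1,257] 4096 (.lc 2 0 .stop)))))))
 (.lc 0 0 (.lc 0 10 (.node [131,154,160] 0 8 (.node [] 9 10 (.lc 0 10 (.lc 0 11 (.lc 0 11 (.lc 0 11 (.lc 0 12 .stop)))))
 .stop)
 (.conf [40,131] (.node [131,144,168] 9 0 (.node [] 8 3 (.lc 1 2 (.lc 0 2 (.lc 2 2 (.lc 1 0 (.lc 2 0 .stop)))))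
 .stop)
 (.node [131,155,168] 8 3 (.lc 1 2 (.lc 0 2 (.lc 2 2 (.lc 2 2 (.lc 1 0 (.lc 0 0 (.lc 2 0 .stop)))))))
 .stop)))))))))))))))))))))))))))))))))))))
 (.lc 0 0 (.node [118,151,169] 7 6 (.lc 1 8 (.lc 1 8 (.lc 1 8 (.lc 3 0 (.lc 3 11 (.lc 2 8 (.lc 2 8 (.lc 2 8 (.lc 2 8 (.lc 2 8 (.lc 2 8 (.lc 3 0 (.lc 3 2 (.lc 3 11 (.lc 1 3 (.lc 2 8 (.lc 2 8 (.lc 2 8 (.lc 4 11 (.lc 4 0 (.lc 4 0 (.lc 4 12 (.lc 3 8 (.lc 3 8 (.lc 3 8 (.lc 3 8 (.lc 2 3 (.lc 2 3 (.node [131,144] 0 8 (.lc 0 2 (.lc 3 1 (.far [257,1,4112,0,1,257] 4096 .stop)))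
 (.node [131,146] 2 8 .stop
 (.node [131,155] 8 3 (.lc 1 2 (.conf [32,178] (.lc 2 2 (.lc 2 2 (.lc 1 0 (.far [4096,1,4112,0,1,257] 4096 (.lc 2 0 .stop)))))))
 (.lc 0 0 (.lc 0 11 (.node [131,155,176] 0 8 (.node [] 10 9 (.node [171] 10 11 (.lc 2 12 (.lc 0 12 (.lc 3 13 (.far [256,16,0,257,16,0,1] 0 .stop))))
 (.lc 3 12 (.lc 1 0 (.lc 3 12 (.lc 4 13 .stop)))))
 .stop)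
 (.conf [40,131] (.node [131,144,184] 9 0 .stop
 (.node [131,156,184] 8 3 (.lc 1 2 (.lc 0 2 (.lc 2 2 (.lc 2 2 (.lc 1 0 (.lc 0 0 (.lc 2 0 .stop)))))))
 .stop)))))))))))))))))))))))))))))))))))))
 .stop))))))))))
 (.lc 2 2 (.lc 2 2 (.lc 3 2 (.lc 3 2 (.lc 3 2 .stop))))))))))
 (.conf [67,86] (.conf [67,80] (.conf [67,87] (.conf [67,87] (.conf [67,87] (.conf [67,80] (.conf [67,88] (.conf [67,87] (.conf [67,87] (.conf [67,80] (.conf [67,88] (.node [67,87,118,50,96] 0 4 (.conf [3,50] (.lc 1 2 .stop))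
 (.node [67,87,100,112,50] 5 7 (.node [112] 7 0 .stop
 (.lc 2 0 (.node [112,135] 7 0 .stop
 (.lc 2 0 (.lc 3 0 .stop)))))
 (.node [67,80,100,118,50] 5 0 (.lc 0 0 .stop)
 (.node [67,88,100,118,50] 5 8 (.node [135] 4 3 (.far [4112,4112,4096,256] 0 (.lc 2 2 (.lc 2 2 (.far [4112,4112,4096,256] 0 (.far [4112,4112,4096,256] 0 (.lc 2 2 (.lc 2 2 (.lc 3 2 (.lc 3 2 (.lc 3 2 .stop))))))))))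
 (.lc 0 0 (.lc 2 7 (.lc 0 0 (.node [135,152] 4 3 (.far [4112,4112,4096,256] 0 (.lc 2 2 (.lc 2 2 (.lc 2 2 (.far [4112,4112,4096,256] 0 (.far [4112,4112,4096,256] 0 (.lc 2 2 (.lc 2 2 (.lc 3 2 (.lc 3 2 (.lc 3 2 .stop)))))))))))
 (.lc 0 0 (.lc 2 7 (.lc 0 0 (.lc 3 7 .stop)))))))))
 (.node [67,87,118,50,96] 0 4 .stop
 (.node [67,87,100,112,50] 5 7 (.node [112] 7 0 (.lc 0 2 (.lc 2 8 (.lc 3 9 .stop)))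
 (.lc 2 0 (.node [112,135] 7 0 (.lc 0 2 (.lc 2 9 (.conf [6,144] (.lc 3 10 (.lc 1 2 (.lc 0 9 (.lc 0 10 .stop)))))))
 (.lc 2 0 (.lc 3 0 .stop)))))
 (.node [67,80,100,118,50] 5 0 (.lc 0 0 .stop)
 (.node [67,88,100,135,50] 5 8 (.node [135] 6 4 (.node [50] 6 3 (.lc 1 2 (.lc 1 2 (.lc 3 0 (.lc 3 9 (.lc 2 2 (.lc 2 2 (.lc 2 2 (.lc 2 2 (.lc 2 2 (.lc 3 0 (.lc 1 0 (.conf [32,114] (.lc 2 2 (.lc 2 2 (.lc 4 9 (.lc 2 0 (.lc 3 2 (.lc 3 2 (.lc 3 2 (.lc 0 0 (.lc 0 9 (.lc 0 0 (.lc 2 0 (.far [4096,0,4112,1,257] 4096 (.lc 2 0 (.lc 0 9 (.lc 3 0 .stop)))))))))))))))))))))))))))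
 (.lc 1 2 (.lc 1 2 (.lc 1 2 (.lc 1 2 (.lc 3 0 (.lc 3 9 (.lc 2 2 (.lc 2 2 (.lc 2 2 .stop))))))))))
 (.lc 0 0 (.lc 2 7 (.lc 0 0 (.node [135,152] 6 4 (.node [50] 6 3 (.lc 1 2 (.lc 1 2 (.lc 1 2 (.lc 3 0 (.lc 3 10 (.lc 2 2 (.lc 2 2 (.lc 2 2 (.lc 2 2 (.lc 2 2 (.lc 3 0 (.lc 1 0 (.lc 1 0 (.conf [32,114] (.lc 2 2 (.lc 2 2 (.lc 2 2 (.lc 4 10 (.lc 2 0 (.lc 3 2 (.lc 3 2 (.lc 3 2 (.lc 0 0 (.lc 0 10 (.lc 0 0 (.lc 2 0 (.lc 2 0 (.far [4096,0,4112,1,257] 4096 (.lc 2 0 (.lc 0 10 (.lc 3 0 .stop)))))))))))))))))))))))))))))))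
 (.lc 1 2 (.lc 1 2 (.lc 1 2 (.lc 1 2 (.lc 1 2 (.lc 3 0 (.lc 3 10 (.lc 2 2 (.lc 2 2 (.lc 2 2 .stop)))))))))))
 (.lc 0 0 (.lc 2 7 (.lc 0 0 (.lc 3 7 .stop)))))))))
 (.node [67,87,118,50,96] 0 4 .stop
 (.node [67,87,100,112,50] 6 4 (.node [50] 0 6 (.lc 1 3 (.lc 2 3 (.node [] 5 7 (.node [112] 7 0 (.lc 2 0 .stop)
 (.node [112,135] 7 0 .stop
 (.far [4112,1,1,4096,256] 0 (.far [257,16,16,256,4096] 0 (.node [112,135,152] 8 7 (.lc 1 0 (.lc 2 0 (.lc 2 0 (.lc 2 0 (.lc 3 0 .stop)))))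
 .stop)))))
 .stop)))
 (.lc 1 2 (.lc 1 2 (.lc 3 8 (.lc 2 2 .stop)))))
 (.node [67,80,100,118,50] 5 0 (.lc 0 0 .stop)
 (.node [67,88,100,118,50] 6 4 (.node [50] 5 8 (.node [135] 6 3 (.lc 1 2 (.lc 1 2 (.lc 3 0 (.lc 3 9 (.lc 2 2 (.lc 2 2 (.lc 2 2 (.lc 2 2 (.lc 2 2 (.lc 3 0 (.lc 1 0 (.lc 0 2 (.lc 2 2 (.lc 2 2 (.lc 4 9 (.lc 2 0 (.lc 3 2 (.lc 3 2 (.lc 3 2 (.far [4096,4112,1,4096,256] 0 (.conf [32,146] (.node [112] 8 7 (.far [1,4096,4112,0,1,257] 4096 (.lc 3 9 (.lc 0 0 (.node [137,144] 8 9 (.lc 0 9 (.lc 2 10 (.lc 0 10 (.lc 3 11 (.lc 0 10 (.lc 0 10 (.lc 3 11 (.lc 0 10 (.lc 3 11 (.lc 0 10 (.lc 0 10 (.lc 0 11 (.lc 4 12 (.lc 0 11 (.lc 0 11 (.lc 0 11 (.lc 0 11 (.lc 0 12 .stop))))))))))))))))))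
 (.lc 3 9 (.lc 4 10 .stop))))))
 (.lc 2 0 (.lc 0 0 (.lc 2 0 (.node [121,144] 8 7 (.far [1,4096,4112,0,1,257] 4096 (.lc 3 10 (.lc 0 9 (.lc 1 0 (.lc 3 10 (.lc 4 11 .stop))))))
 (.lc 3 0 .stop)))))))))))))))))))))))))))
 (.lc 0 0 (.node [135,152] 6 3 (.lc 1 2 (.lc 1 2 (.lc 1 2 (.lc 3 0 (.lc 3 9 (.lc 3 10 (.lc 2 2 (.lc 2 2 (.lc 2 2 (.lc 2 2 (.lc 2 2 (.lc 2 2 (.lc 2 2 (.lc 2 2 (.lc 2 2 (.lc 2 2 (.lc 3 0 (.lc 1 0 (.lc 1 0 (.lc 0 2 (.lc 2 2 (.lc 2 2 (.lc 2 2 (.lc 4 9 (.lc 4 10 (.lc 2 0 (.lc 2 0 (.lc 2 0 (.lc 3 2 (.lc 3 2 (.lc 3 2 (.lc 3 2 (.lc 3 2 (.lc 3 2 (.lc 3 2 (.node [112] 8 7 (.lc 2 0 (.lc 0 0 .stop))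
 (.lc 1 8 (.conf [32,162] (.node [112] 8 7 (.lc 2 0 (.node [144] 1 9 (.far [16,1,4096,4112,0,1,257] 4096 (.node [26,144,169] 1 10 .stop
 (.lc 2 0 (.node [27,144,169,186,169] 1 11 .stop
 (.lc 2 0 (.lc 3 0 .stop))))))
 (.lc 3 10 (.lc 0 0 (.lc 0 10 .stop)))))
 (.lc 2 0 (.lc 2 0 (.lc 0 0 (.lc 2 0 (.lc 2 0 (.lc 1 8 (.node [122,160] 8 7 (.lc 2 10 (.lc 1 0 (.lc 3 11 (.lc 0 10 (.lc 0 11 .stop)))))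
 (.lc 3 0 (.lc 3 0 (.lc 3 0 .stop)))))))))))))))))))))))))))))))))))))))))))))))))
 (.lc 0 0 (.node [135,152] 6 3 (.lc 1 2 (.lc 1 2 (.lc 1 2 (.lc 3 0 (.lc 3 10 (.lc 2 2 (.lc 2 2 (.lc 2 2 (.lc 2 2 (.lc 2 2 (.lc 3 0 (.lc 1 0 (.lc 1 0 (.lc 0 2 (.lc 2 2 (.lc 2 2 (.lc 2 2 (.lc 4 10 (.lc 2 0 (.lc 3 2 (.lc 3 2 (.lc 3 2 (.far [4096,4112,1,4096,256] 0 (.conf [32,162] (.node [112] 8 7 (.far [1,4096,4112,0,1,257] 4096 (.lc 3 10 (.lc 3 5 (.node [138,160] 9 8 (.node [154] 9 10 (.lc 2 11 (.lc 0 11 (.lc 3 12 (.far [256,0,1,4096,4112,0,1,257] 4096 .stop))))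
 (.lc 1 10 (.lc 2 5 (.lc 3 11 (.lc 2 10 (.lc 1 0 (.lc 2 10 (.lc 2 5 (.lc 2 5 (.lc 3 11 (.lc 2 10 (.lc 3 5 (.lc 4 12 (.lc 3 10 (.lc 3 5 (.lc 3 5 (.lc 3 5 (.lc 4 5 .stop))))))))))))))))))
 (.lc 3 10 (.lc 4 11 .stop))))))
 (.lc 2 0 (.lc 2 0 (.lc 0 0 (.lc 2 0 (.node [122,160] 8 7 (.far [1,4096,4112,0,1,257] 4096 (.lc 3 11 (.lc 3 5 (.lc 1 0 (.lc 3 11 (.lc 4 12 .stop))))))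
 (.lc 3 0 .stop)))))))))))))))))))))))))))))))
 (.lc 0 0 (.node [135,152] 6 3 (.lc 1 2 (.lc 1 2 (.lc 1 2 (.lc 3 0 (.lc 3 10 (.lc 2 2 (.lc 2 2 (.lc 2 2 (.lc 2 2 (.lc 2 2 (.lc 3 0 (.lc 1 0 (.lc 1 0 (.lc 0 2 (.lc 2 2 (.lc 2 2 (.lc 2 2 (.lc 4 10 (.lc 2 0 (.lc 3 2 (.lc 3 2 (.lc 3 2 (.node [112] 8 7 (.lc 2 0 (.conf [1,144] .stop))
 (.conf [32,162] (.node [112] 8 7 (.lc 2 0 (.lc 0 0 (.lc 3 10 (.far [1,4096,4112,0,1,257] 4096 (.node [154,160] 9 10 (.lc 0 10 (.lc 0 11 (.lc 0 11 (.lc 0 11 (.lc 0 12 .stop)))))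
 .stop)))))
 (.lc 2 0 (.lc 2 0 (.lc 0 0 (.lc 2 0 (.node [122,160] 8 7 (.lc 2 10 (.lc 0 10 (.lc 3 11 (.far [1,4096,4112,0,1,257] 4096 (.lc 2 0 .stop)))))
 (.lc 3 0 .stop)))))))))))))))))))))))))))))))
 (.lc 0 0 (.node [135,152,169] 6 3 (.lc 1 2 (.lc 1 2 (.lc 1 2 (.lc 1 2 (.lc 3 0 (.lc 3 11 (.lc 2 2 (.lc 2 2 (.lc 2 2 (.lc 2 2 (.lc 2 2 (.lc 2 2 (.lc 3 0 (.lc 1 0 (.lc 1 0 (.lc 1 0 (.lc 0 2 (.lc 2 2 (.lc 2 2 (.lc 2 2 (.lc 2 2 (.lc 4 11 (.lc 2 0 (.lc 2 0 (.lc 3 2 (.lc 3 2 (.lc 3 2 (.lc 3 2 (.node [112] 8 7 (.lc 2 0 (.conf [1,144] .stop))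
 (.conf [32,178] (.node [112] 8 7 (.lc 2 0 (.lc 0 0 (.lc 3 11 (.far [1,4096,4112,0,1,257] 4096 (.node [155,176] 10 9 (.node [171] 10 11 (.lc 2 12 (.lc 0 12 (.lc 3 13 (.far [256,0,1,4096,4112,0,1,257] 4096 .stop))))
 (.lc 3 12 (.lc 1 0 (.lc 3 12 (.lc 4 13 .stop)))))
 .stop)))))
 (.lc 2 0 (.lc 2 0 (.lc 2 0 (.lc 0 0 (.lc 2 0 (.node [123,176] 8 7 (.lc 2 11 (.lc 0 11 (.lc 3 12 (.far [1,4096,4112,0,1,257] 4096 (.lc 2 0 .stop)))))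
 (.lc 3 0 (.lc 3 0 .stop)))))))))))))))))))))))))))))))))))))))
 .stop)))))))))
 (.lc 1 2 (.lc 1 2 (.lc 1 2 (.lc 1 2 (.lc 3 0 (.lc 3 9 (.lc 2 2 (.lc 2 2 (.lc 2 2 .stop))))))))))
 (.node [67,88,135,50,118,96] 0 4 .stop
 (.node [67,88,100,135,50,112] 5 8 (.node [135] 6 4 (.node [50] 0 6 (.lc 1 3 (.lc 2 3 (.far [1,1,4112,4096,256] 0 .stop)))
 (.lc 1 2 (.lc 1 2 (.lc 3 9 (.lc 2 2 .stop)))))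
 (.lc 2 7 (.node [135,152] 6 4 (.node [50] 0 6 (.lc 1 3 (.lc 2 3 (.far [1,1,4112,4096,256] 0 .stop)))
 (.lc 1 2 (.lc 1 2 (.lc 1 2 (.lc 3 10 (.lc 2 2 .stop))))))
 (.lc 2 7 (.lc 3 7 .stop)))))
 (.node [67,88,100,118,128,50] 5 8 (.node [128] 8 0 .stop
 (.lc 2 0 (.node [128,152] 8 0 .stop
 (.lc 2 0 (.lc 3 0 .stop)))))
 (.node [67,80,100,118,135,50] 5 0 (.lc 0 0 .stop)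
 (.node [67,89,100,118,135,50] 5 9 (.node [152] 6 4 (.node [50] 6 3 (.lc 1 2 (.lc 1 2 (.lc 3 0 (.lc 3 10 (.lc 2 2 (.lc 2 2 (.lc 2 2 (.lc 2 2 (.lc 2 2 (.lc 3 0 (.lc 1 0 (.lc 0 2 (.lc 2 2 (.lc 2 2 (.lc 4 10 (.lc 2 0 (.lc 3 2 (.lc 3 2 (.lc 3 2 (.far [4096,1,4112,4096,256] 0 (.conf [32,162] (.node [112] 8 7 (.far [1,4096,0,4112,1,257] 4096 (.lc 0 9 (.lc 3 10 (.lc 0 9 (.node [138,160] 9 8 (.lc 1 10 (.lc 3 11 (.lc 0 11 (.lc 2 10 (.lc 3 11 (.lc 0 10 (.lc 0 11 (.lc 4 12 (.lc 0 12 (.lc 0 11 (.lc 0 11 (.lc 0 11 (.lc 0 12 .stop)))))))))))))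
 (.lc 0 9 (.lc 3 10 (.lc 1 9 (.lc 4 11 .stop)))))))))
 (.lc 2 0 (.lc 0 0 (.lc 2 0 (.node [122,160] 8 7 (.far [1,4096,0,4112,1,257] 4096 (.lc 0 9 (.lc 3 11 (.lc 1 0 (.lc 3 11 (.lc 4 12 .stop))))))
 (.lc 3 0 .stop)))))))))))))))))))))))))))
 (.lc 1 2 (.lc 1 2 (.lc 1 2 (.lc 1 2 (.lc 3 0 (.lc 3 10 (.lc 2 2 (.lc 2 2 (.lc 2 2 .stop))))))))))
 (.lc 0 0 (.lc 2 8 (.lc 0 0 (.node [152,169] 6 4 (.node [50] 10 9 (.lc 1 8 (.lc 1 8 (.lc 1 8 (.lc 1 7 (.lc 1 7 (.lc 2 8 (.lc 2 8 (.lc 2 8 (.lc 2 8 (.lc 2 8 (.lc 2 8 (.lc 2 8 (.lc 2 8 (.lc 2 8 (.node [135,160] 0 8 (.conf [7,118] (.lc 3 1 (.lc 1 6 (.lc 1 6 (.lc 3 1 (.lc 4 1 .stop))))))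
 (.node [135,162] 2 8 .stop
 (.node [135,171] 8 7 (.node [118] 7 6 (.lc 1 3 (.lc 1 3 (.lc 1 3 (.lc 1 2 (.lc 1 2 (.lc 2 3 (.lc 2 3 (.lc 2 3 (.lc 2 3 (.lc 2 3 (.lc 2 3 (.lc 3 2 (.lc 1 2 (.lc 2 3 (.lc 2 3 (.lc 2 3 (.lc 4 0 (.lc 1 0 (.lc 3 3 (.lc 3 3 (.lc 3 3 (.lc 3 3 (.lc 2 2 (.lc 2 2 (.lc 0 2 (.lc 1 0 (.lc 0 0 (.lc 2 0 .stop))))))))))))))))))))))))))))
 (.lc 2 6 (.lc 2 6 (.lc 2 6 (.node [118,176] 0 7 (.lc 1 6 (.lc 1 3 (.lc 2 6 (.node [] 10 11 (.lc 2 12 (.lc 0 12 (.lc 3 13 (.far [256,257,1,0,0,4112,1,257] 4096 .stop))))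
 .stop))))
 (.node [118,188] 10 11 (.lc 2 0 (.lc 2 2 (.lc 2 13 (.lc 3 0 (.lc 3 13 (.lc 2 12 (.lc 0 13 (.lc 3 13 (.lc 3 0 (.lc 3 0 (.lc 3 14 (.lc 3 0 (.lc 3 2 (.lc 3 13 (.lc 0 12 (.lc 0 0 (.lc 4 13 (.lc 4 0 (.lc 4 0 (.lc 4 14 (.lc 0 0 (.lc 0 0 (.lc 0 0 (.node [199] 12 7 (.lc 1 6 (.lc 2 6 .stop))
 (.lc 0 13 (.lc 0 0 .stop))))))))))))))))))))))))))
 (.lc 2 6 (.lc 2 6 (.lc 3 6 (.lc 3 6 (.lc 3 6 (.lc 3 6 .stop))))))))))))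
 (.lc 1 7 (.lc 1 7 (.lc 1 7 (.lc 2 8 (.lc 2 8 (.lc 2 8 (.lc 0 0 (.lc 2 8 (.lc 2 8 (.node [135,171,176] 0 8 (.lc 1 6 .stop)
 (.conf [40,135] (.node [135,160,184] 10 0 .stop
 (.node [135,172,184] 11 8 (.node [118] 7 6 (.lc 1 3 (.lc 1 3 (.lc 1 3 (.lc 1 3 (.lc 1 2 (.lc 1 2 (.lc 2 3 (.lc 2 3 (.lc 2 3 (.lc 2 3 (.lc 2 3 (.lc 2 3 (.lc 3 2 (.lc 1 2 (.lc 2 3 (.lc 4 0 (.lc 1 0 (.lc 3 3 (.lc 3 3 (.lc 2 2 (.lc 1 0 (.lc 2 0 .stop))))))))))))))))))))))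
 (.lc 1 6 (.lc 1 6 (.lc 1 6 (.lc 1 6 (.lc 1 6 (.lc 3 0 (.lc 3 13 (.lc 2 6 (.lc 2 6 (.lc 2 6 (.lc 2 6 .stop))))))))))))
 (.lc 3 8 (.lc 3 8 (.lc 3 8 (.lc 3 8 (.lc 3 8 (.lc 3 8 (.lc 2 7 (.lc 2 7 (.lc 2 7 (.lc 2 7 (.lc 4 11 (.lc 4 0 (.lc 4 11 (.lc 0 0 (.lc 4 0 (.lc 4 12 (.lc 4 11 (.lc 4 0 (.lc 4 0 (.lc 4 2 (.lc 4 12 (.lc 5 12 (.lc 5 11 (.lc 5 12 (.lc 5 0 (.lc 5 0 (.lc 5 13 .stop)))))))))))))))))))))))))))))))))))))))))))))))))))))))))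
 (.lc 1 2 (.lc 1 2 (.lc 1 2 (.lc 1 2 (.lc 1 2 (.lc 3 0 (.lc 3 11 (.lc 2 2 (.lc 2 2 (.lc 2 2 .stop)))))))))))
 (.lc 0 0 (.lc 2 8 (.lc 0 0 (.lc 3 8 .stop)))))))))
 .stop)))))))))))))))))))))))))))))))))))))))))))))

theorem t47 : kNode2 awTt FTt 5 4 (check tyTt awTt triet FTt [] c47) (fun _ _ _ => true) 0 s47 Pl.nil s47 =
    true := by
  decide +kernel

end Chk
end Pool.Agent.Lib.MP_ba95e8_co
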