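import Pool.Agent.Lib.MP_ba95e8_co.ChkTab
import Pool.Agent.Lib.MP_ba95e8_co.ChkStates

/-!
Deltahedral domes: part 49 of the case analysis.
-/

namespace Pool.Agent.Lib.MP_ba95e8_co
namespace Chk

/-- certificate number 49 -/
def c49 : Cert := (.node [50,64,84] 0 3 (.node [50,64,84] 4 0 (.node [70] 4 6 (.node [86,99] 6 3 (.far [1,4112,4096,4096,0,257] 4096 (.conf [32,114] .stop))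
 (.lc 2 3 (.node [87,118] 6 3 (.far [1,4112,4096,4096,0,257] 4096 (.lc 3 0 (.lc 0 2 (.conf [32,130] (.lc 3 0 (.lc 4 0 .stop))))))
 (.lc 2 3 (.lc 3 3 .stop)))))
 (.lc 3 0 (.conf [71,118] (.lc 3 0 (.lc 4 0 .stop)))))
 (.conf [50,99] .stop))
 (.node [50,70,84] 5 4 (.node [70,80,50] 0 4 (.node [99] 5 0 (.lc 0 0 (.node [99] 6 3 (.node [50,103] 5 6 (.node [87] 7 3 (.far [1,1,4096,257,0,257,0,257] 4096 (.lc 3 8 (.conf [32,130] (.lc 3 8 (.lc 4 9 .stop)))))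
 (.lc 3 0 (.conf [23,115] (.far [16,257,4096,4096,0,4096] 0 (.lc 3 0 (.lc 4 0 .stop))))))
 (.lc 2 2 (.conf [50,115] (.lc 2 2 (.lc 3 2 .stop)))))
 (.lc 3 7 (.far [16,257,4096] 0 (.lc 3 7 (.lc 4 8 .stop))))))
 (.lc 1 3 .stop))
 (.node [70,87,50] 4 6 (.node [99] 6 3 (.node [50,96] 0 3 (.far [515,3,8224,2,8193,258] 8192 .stop)
 (.lc 2 3 (.node [50,104] 3 2 (.far [4112,1,4112,1,4096,257] 4096 (.lc 0 0 (.lc 0 7 (.lc 0 9 (.lc 0 0 (.lc 0 9 (.far [4112,1,4112,1,4096,257] 4096 (.conf [32,146] (.lc 0 9 (.lc 0 10 .stop))))))))))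
 (.lc 2 2 (.lc 2 2 (.lc 2 2 (.lc 3 8 (.lc 3 0 (.lc 3 9 (.lc 3 3 (.node [50,104,128] 0 3 (.node [] 6 8 (.node [97,128] 6 1 .stop
 (.node [101,128] 6 5 (.lc 0 4 .stop)
 (.lc 2 3 (.node [105,128] 6 9 (.far [4112,4112,0,4112,1,0,256] 0 (.lc 2 8 (.lc 2 8 (.far [4112,4112,0,4112,1,0,256] 0 (.lc 1 9 (.lc 2 8 (.lc 3 8 .stop)))))))
 (.lc 0 7 (.lc 3 3 (.lc 2 0 (.lc 2 0 (.lc 3 3 (.lc 2 0 (.lc 1 8 (.conf [99,121,152] (.lc 0 7 (.lc 3 3 (.conf [106,169] (.lc 2 0 (.lc 1 8 (.lc 2 0 (.lc 2 0 (.lc 3 3 (.lc 2 0 (.lc 2 0 (.lc 0 4 (.lc 2 0 (.node [99,113,128] 7 1 (.lc 0 1 .stop)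
 (.node [99,121,128] 5 7 (.far [1,4112,0,4112,257,256,256] 0 (.lc 3 10 (.lc 3 1 (.node [152,169] 9 8 (.node [128,145] 1 8 (.far [1,1,0,1,0,272,1,0,256] 0 .stop)
 (.node [128,155] 10 9 (.far [16,257,16,258,0,0,4096,4096] 0 (.lc 3 1 (.lc 3 12 (.lc 1 8 (.lc 3 12 (.lc 4 13 .stop))))))
 (.lc 2 0 (.lc 3 7 (.conf [128,184] (.lc 3 7 (.lc 3 7 (.lc 4 7 (.lc 3 0 .stop)))))))))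
 (.lc 3 10 (.lc 4 11 .stop))))))
 (.lc 1 7 (.lc 0 7 (.lc 4 3 (.lc 3 0 (.conf [99,128,152] (.lc 3 0 (.lc 3 0 (.lc 3 0 (.lc 3 0 (.lc 1 9 (.lc 3 0 (.lc 4 0 .stop))))))))))))))))))))))))))))))))))))))
 .stop)
 (.conf [50,131] (.lc 3 3 (.conf [50,131] (.lc 2 2 (.lc 2 2 (.lc 2 2 (.lc 2 2 (.lc 2 2 (.lc 3 8 (.lc 3 0 (.lc 3 9 (.lc 3 2 (.lc 3 2 (.lc 3 2 (.lc 3 2 (.lc 4 9 (.lc 4 9 (.lc 4 0 (.lc 4 10 (.lc 3 2 (.lc 3 2 (.lc 3 2 (.lc 3 2 (.lc 3 2 (.lc 3 2 (.lc 4 2 (.lc 4 2 .stop))))))))))))))))))))))))))))))))))))))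
 (.lc 2 3 (.lc 2 3 (.lc 0 0 (.lc 0 8 (.lc 2 3 (.lc 2 3 (.lc 3 3 (.lc 3 3 (.lc 3 3 .stop))))))))))
 (.node [67,80,50,99] 0 6 (.far [257,1,0,257] 4096 (.lc 2 3 (.lc 2 0 (.conf [39,118] (.lc 2 3 (.lc 3 3 .stop))))))
 (.node [67,87,118,50,87] 6 3 (.lc 1 2 (.lc 1 2 (.lc 1 2 (.node [96] 7 6 (.conf [1,112] (.lc 1 0 (.lc 1 0 (.lc 2 0 (.lc 2 0 (.lc 3 1 (.lc 2 0 (.lc 2 0 (.conf [21,113] (.lc 2 0 (.lc 2 0 (.lc 2 0 (.lc 2 0 (.lc 3 1 (.lc 3 8 (.lc 2 0 (.lc 2 0 (.lc 3 0 (.lc 4 8 (.lc 3 0 (.lc 3 0 (.lc 3 0 (.lc 3 0 (.lc 3 0 (.lc 4 0 .stop)))))))))))))))))))))))))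
 (.lc 3 3 (.conf [32,130] (.lc 2 2 (.lc 2 2 (.lc 2 2 (.lc 2 2 (.lc 2 2 (.lc 2 2 (.lc 2 2 (.lc 2 2 (.node [96] 7 6 (.far [1,4096,1,0,257] 4096 (.lc 1 0 (.lc 1 0 (.lc 2 0 (.lc 2 0 (.lc 3 1 (.lc 3 8 (.lc 2 0 (.lc 2 0 (.conf [21,113] (.node [120,128] 5 7 (.lc 1 8 (.lc 2 9 (.lc 0 8 (.lc 3 9 (.lc 3 10 (.lc 0 9 (.lc 3 10 (.lc 1 0 (.lc 3 9 (.lc 3 9 (.lc 3 10 (.lc 0 9 (.lc 4 10 (.lc 4 11 (.lc 4 10 (.lc 4 10 (.lc 4 10 (.lc 5 11 .stop))))))))))))))))))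
 (.lc 2 0 (.lc 2 0 (.lc 2 0 (.lc 2 0 (.lc 2 0 (.lc 3 1 (.lc 3 8 (.lc 2 0 (.lc 2 0 (.lc 3 0 (.lc 3 0 (.lc 4 8 (.lc 4 9 (.lc 3 0 (.lc 3 0 (.lc 3 0 (.lc 3 0 (.lc 3 0 (.lc 3 0 (.lc 3 0 (.lc 4 0 (.lc 4 0 .stop)))))))))))))))))))))))))))))))))
 (.lc 1 0 (.lc 1 0 (.lc 3 0 (.lc 3 8 (.lc 2 2 (.lc 2 2 (.lc 2 2 (.lc 4 3 (.node [104,128] 7 6 (.lc 1 8 (.far [1,4096,1,0,257] 4096 (.lc 1 8 (.lc 2 3 (.lc 3 1 (.lc 3 9 (.lc 2 8 (.lc 2 8 (.lc 1 0 (.lc 2 8 (.lc 2 3 (.lc 2 3 (.lc 2 3 (.lc 2 3 (.lc 2 8 (.lc 3 9 (.lc 2 8 (.lc 3 3 (.lc 4 10 (.lc 3 8 (.lc 3 3 (.lc 3 3 (.lc 3 3 (.lc 3 3 (.lc 3 3 (.lc 4 3 .stop))))))))))))))))))))))))))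
 (.lc 2 0 (.lc 2 0 (.lc 3 2 (.lc 3 2 (.lc 3 2 (.lc 3 2 (.lc 4 8 (.lc 4 9 (.lc 4 8 (.lc 2 0 (.lc 4 8 (.lc 2 0 (.lc 5 9 (.lc 3 0 .stop))))))))))))))))))))))))))))))))))))))
 (.node [70,87,112,50] 0 4 .stop
 (.conf [70,116] (.conf [70,116] (.conf [70,87,112] (.conf [70,116] (.conf [70,116] (.node [67,80,99,50] 0 6 (.lc 1 3 (.lc 1 3 (.lc 1 2 (.lc 2 3 (.lc 2 3 (.lc 2 3 (.far [257,1,0,257] 4096 (.lc 2 3 (.lc 3 3 .stop)))))))))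
 (.node [67,87,99,50] 6 3 (.lc 1 2 (.lc 1 2 (.lc 3 0 (.lc 3 8 (.lc 2 2 (.lc 2 2 (.lc 2 2 (.lc 2 2 (.lc 2 2 (.lc 3 0 (.lc 1 0 (.far [4096,1,0,257] 4096 (.lc 2 2 (.lc 2 2 (.lc 4 8 (.lc 2 0 (.lc 3 2 (.lc 3 2 (.lc 3 2 (.lc 0 0 (.lc 0 8 (.lc 0 0 (.lc 2 0 (.far [4096,1,0,257] 4096 (.lc 2 0 (.lc 0 8 (.lc 3 0 .stop)))))))))))))))))))))))))))
 (.conf [67,80] (.conf [67,87] (.node [70,87,112,50] 0 4 (.node [99] 7 0 (.far [1,0,257,0,257] 16 (.far [16,257,4096] 0 (.lc 3 8 (.lc 3 8 (.conf [120,129] (.conf [120,134] (.lc 3 8 (.lc 3 8 (.lc 4 9 (.lc 4 9 .stop))))))))))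
 (.lc 1 3 .stop))
 (.node [70,80,50] 5 0 .stop
 (.node [70,88,135,50] 7 4 (.node [99] 5 8 (.node [80,135] 5 0 (.lc 0 0 .stop)
 (.node [86,135] 5 6 .stop
 (.node [89,135] 1 5 (.far [1,4112,1,1,4112,513] 4096 (.lc 3 0 (.lc 1 8 (.lc 1 8 (.lc 3 0 (.lc 1 8 (.lc 3 0 (.conf [26,169] (.lc 4 0 (.lc 2 8 .stop))))))))))
 (.lc 2 7 (.lc 2 7 (.lc 2 7 (.lc 2 7 (.lc 2 7 (.lc 0 0 (.lc 3 1 (.conf [89,144] (.conf [135,152] (.conf [135,152] (.lc 2 7 (.lc 2 7 (.lc 2 7 (.lc 2 7 (.lc 2 7 (.lc 0 0 (.lc 3 1 (.lc 3 1 (.lc 0 0 (.lc 3 1 (.lc 3 1 (.lc 3 7 (.lc 3 7 (.lc 3 7 (.lc 3 7 (.lc 0 0 (.lc 4 1 (.lc 0 0 (.lc 4 1 (.lc 0 0 (.lc 4 1 (.lc 0 0 (.lc 4 1 (.lc 4 1 (.lc 0 0 (.lc 4 1 (.lc 0 0 (.lc 5 1 .stop)))))))))))))))))))))))))))))))))))))))))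
 (.lc 1 3 (.lc 1 3 (.lc 1 3 (.lc 1 3 (.lc 3 0 (.lc 3 9 (.lc 2 3 (.lc 2 3 (.lc 2 3 .stop))))))))))
 (.node [87,99,112,50,87] 0 6 (.lc 1 3 (.lc 2 3 (.node [] 5 7 (.lc 1 0 (.lc 2 8 (.lc 0 8 (.lc 3 9 (.lc 3 9 (.lc 0 8 (.lc 3 9 (.conf [24,135] (.lc 3 9 (.lc 3 9 (.lc 3 9 (.lc 0 9 (.lc 4 10 (.lc 4 10 (.lc 4 10 (.lc 4 10 (.lc 4 10 (.lc 5 11 .stop))))))))))))))))))
 .stop)))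
 (.node [67,80,99,118,50] 0 7 (.node [118] 7 6 (.lc 1 3 (.lc 1 3 (.lc 1 2 (.lc 2 3 (.lc 2 3 .stop)))))
 (.lc 1 7 (.lc 2 6 (.conf [40,135] (.lc 2 6 (.lc 3 6 .stop))))))
 (.node [88,99,135,50,88] 6 3 (.lc 1 2 (.lc 1 2 (.lc 3 0 (.lc 3 9 (.lc 2 2 (.lc 2 2 (.lc 2 2 (.lc 2 2 (.lc 2 2 (.lc 3 0 (.lc 1 0 (.lc 0 2 (.lc 2 2 (.lc 2 2 (.lc 4 9 (.lc 2 0 (.lc 3 2 (.lc 3 2 (.lc 3 2 (.node [112] 8 7 (.conf [1,128] (.lc 3 1 (.conf [21,129] (.lc 3 1 (.lc 3 9 (.lc 4 9 .stop))))))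
 (.conf [32,146] (.node [112] 8 7 (.far [1,4096,1,0,257] 4096 (.lc 3 1 (.lc 3 9 (.conf [21,129] (.node [137,144] 5 8 (.lc 1 9 (.lc 2 10 (.lc 0 9 (.lc 3 10 (.lc 3 11 (.lc 0 10 (.lc 3 11 (.lc 1 0 (.lc 3 10 (.lc 3 10 (.lc 3 11 (.lc 0 10 (.lc 4 11 (.lc 4 12 (.lc 4 11 (.lc 4 11 (.lc 4 11 (.lc 5 12 .stop))))))))))))))))))
 (.lc 3 1 (.lc 3 9 (.lc 4 9 (.lc 4 10 .stop)))))))))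
 (.lc 2 0 (.lc 0 0 (.lc 2 0 (.node [121,144] 8 7 (.far [1,4096,1,0,257] 4096 (.lc 3 1 (.lc 3 10 (.lc 1 0 (.lc 3 10 (.lc 4 11 .stop))))))
 (.lc 3 0 .stop)))))))))))))))))))))))))))
 (.node [70,88,135,50,112] 0 4 .stop
 (.conf [70,116] (.conf [70,116] (.conf [70,116] (.conf [67,87] (.conf [67,80] (.conf [67,88] (.conf [67,87] (.conf [67,80] (.conf [67,88] (.conf [67,87] (.conf [67,80] (.conf [67,88] (.conf [67,88] (.conf [67,88] (.conf [67,80] (.conf [67,89] .stop)))))))))))))))))))))))))))))))))))))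
 (.conf [50,70] (.conf [50,64] (.conf [50,71] (.conf [50,70] (.conf [50,64] (.conf [50,71] (.node [70,96,84,70,50] 0 3 .stop
 (.node [50,64,99,84,50,64] 4 0 .stop
 (.node [50,71,99,84,50,71] 4 7 (.lc 2 0 (.lc 2 8 (.lc 3 8 (.lc 3 0 (.lc 3 9 (.node [80,118] 0 7 (.lc 1 6 (.lc 1 3 (.lc 2 6 (.far [257,4096,0,257] 4096 (.conf [40,134] .stop)))))
 (.node [88,135,88] 8 7 (.lc 1 6 (.lc 1 6 (.lc 1 6 (.lc 1 6 (.lc 1 3 (.lc 1 3 (.lc 2 6 (.lc 2 6 (.lc 2 6 (.lc 2 6 (.lc 2 6 (.lc 2 6 (.lc 2 6 (.lc 2 6 (.lc 2 6 (.lc 2 6 (.lc 2 6 (.lc 2 6 (.node [99,128] 0 6 (.lc 0 2 (.lc 3 1 (.far [257,1,4096,0,257] 4096 .stop)))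
 (.node [99,129] 1 6 .stop
 (.node [99,130] 2 6 .stop
 (.node [99,137] 6 3 (.lc 1 2 (.conf [32,146] (.lc 2 2 (.lc 2 2 (.lc 1 0 (.far [4096,1,4096,0,257] 4096 (.lc 2 0 .stop)))))))
 (.lc 1 3 (.lc 1 3 (.lc 1 3 (.lc 1 3 (.lc 2 6 (.lc 2 6 (.lc 2 6 (.lc 2 6 (.lc 2 6 (.lc 2 6 (.lc 2 6 (.conf [21,129] (.node [99,137,144] 0 6 (.node [] 5 8 (.lc 1 9 (.lc 2 10 (.lc 0 9 (.lc 3 10 (.lc 3 11 (.lc 0 10 (.lc 3 11 (.lc 1 0 (.lc 3 10 (.lc 3 10 (.lc 3 11 (.lc 0 10 (.lc 4 11 (.lc 4 12 (.lc 4 11 (.lc 4 11 (.lc 4 11 (.lc 5 12 .stop))))))))))))))))))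
 .stop)
 (.conf [38,99] (.node [99,128,150] 8 0 (.lc 2 1 (.lc 1 0 (.lc 3 10 .stop)))
 (.node [99,138,150] 6 3 (.lc 1 2 (.lc 0 2 (.lc 2 2 (.lc 2 2 (.lc 1 0 (.lc 0 0 (.lc 2 0 .stop)))))))
 (.lc 3 6 (.lc 3 6 (.lc 3 6 (.lc 3 6 (.lc 3 6 (.lc 3 6 (.lc 3 6 (.lc 3 6 (.lc 2 3 (.lc 2 3 (.lc 2 3 (.lc 2 3 (.lc 2 3 (.lc 4 1 (.lc 4 9 (.lc 4 9 (.lc 4 0 (.lc 4 9 (.lc 4 0 (.lc 4 10 (.lc 4 1 (.lc 4 9 (.lc 4 0 (.lc 4 0 (.lc 4 1 (.lc 4 2 (.lc 4 10 (.lc 5 9 (.lc 5 10 (.lc 5 9 (.lc 5 1 (.lc 5 10 (.lc 5 0 (.lc 5 0 (.lc 5 11 .stop)))))))))))))))))))))))))))))))))))))))))))))))))))))))))))))))))))))))))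
 (.lc 3 8 (.lc 3 0 (.lc 3 9 (.lc 3 8 (.lc 3 0 (.lc 3 9 (.lc 2 6 (.lc 2 6 (.lc 0 0 (.lc 0 8 (.lc 4 9 (.lc 4 9 (.lc 4 0 (.lc 4 10 (.lc 0 8 (.lc 0 0 (.lc 0 9 (.lc 0 8 (.lc 0 0 (.lc 0 9 (.lc 0 8 (.lc 0 0 (.lc 0 9 (.lc 3 6 (.lc 3 6 (.lc 3 6 (.lc 0 9 (.lc 0 9 (.lc 0 0 (.lc 0 10 .stop)))))))))))))))))))))))))))))))))))))
 (.conf [50,70] (.conf [50,64] (.conf [50,71] (.node [50,70,96,84] 0 3 (.node [] 5 4 (.far [1,1,4096,257] 4096 (.node [87,96] 7 6 (.lc 1 0 (.lc 1 0 (.conf [21,113] (.lc 1 1 (.lc 2 0 (.lc 2 0 (.lc 2 0 (.lc 1 1 (.lc 3 1 (.lc 1 1 (.lc 2 0 (.lc 2 0 (.lc 2 1 (.lc 3 0 (.lc 4 8 (.lc 2 1 (.lc 2 1 (.lc 2 1 (.lc 3 1 .stop)))))))))))))))))))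
 (.node [96,118,87] 7 6 (.lc 1 0 (.lc 1 0 (.lc 3 1 (.lc 1 1 (.lc 2 0 (.lc 2 0 (.lc 2 0 (.lc 1 1 (.far [257,1,0,1,257] 16 (.lc 1 1 (.lc 2 0 (.lc 2 0 (.lc 2 1 (.lc 3 0 (.conf [21,129] (.lc 2 1 (.lc 2 1 (.lc 2 1 (.lc 3 1 .stop)))))))))))))))))))
 (.far [2,258,8192,257] 4096 (.node [88,96,118] 7 6 (.lc 1 0 (.lc 1 0 (.lc 3 1 (.lc 1 1 (.lc 2 0 (.lc 2 0 (.lc 2 0 (.lc 1 1 (.far [257,1,0,1,257] 16 (.lc 1 1 (.lc 2 0 (.lc 2 0 (.lc 2 1 (.lc 3 0 (.conf [21,145] (.lc 2 1 (.lc 2 1 (.lc 2 1 (.lc 3 1 .stop)))))))))))))))))))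
 .stop)))))
 .stop)
 (.node [50,64,99,84] 4 0 (.node [80] 6 3 (.far [1,4112,4096,257] 4096 (.node [32,103,6,80] 2 0 .stop
 (.conf [32,114] (.conf [32,114] (.conf [32,114] .stop)))))
 (.node [87,112,6] 7 0 (.lc 1 6 (.far [16,16,1] 0 (.lc 2 6 (.lc 1 3 (.lc 2 6 (.lc 1 3 (.lc 2 6 (.lc 3 8 (.lc 3 6 (.lc 2 3 .stop))))))))))
 .stop))
 (.node [50,71,99,84] 5 4 (.node [87] 6 3 (.far [1,1,4096,257] 4096 (.far [257,1,4096,257] 4096 (.node [32,104,118,87] 8 2 (.far [1,257,1,4096,257] 4096 (.lc 0 6 (.lc 3 9 (.node [137,144] 7 6 (.lc 1 8 (.lc 1 8 (.lc 1 8 (.lc 1 8 (.lc 0 8 (.lc 1 2 (.conf [137,168] (.lc 2 8 (.lc 2 8 (.lc 2 8 (.lc 2 8 (.lc 0 10 (.lc 2 8 (.lc 1 9 (.lc 3 4 (.lc 1 9 (.lc 3 1 (.lc 3 9 (.lc 3 10 (.lc 2 8 (.lc 2 8 (.lc 2 8 (.lc 2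 8 (.lc 0 10 (.lc 2 9 (.lc 3 8 (.lc 3 8 (.lc 4 10 (.lc 4 11 (.lc 4 10 (.lc 4 11 (.lc 4 1 (.lc 4 11 (.lc 5 12 .stop))))))))))))))))))))))))))))))))))
 (.lc 3 9 (.lc 4 10 .stop))))))
 (.far [1,1,4096,257] 4096 (.conf [32,130] (.far [1,1,4096,257] 4096 (.conf [32,130] (.far [1,1,4096,257] 4096 (.conf [32,130] .stop)))))))))
 (.node [80,118] 5 0 (.lc 2 6 (.lc 2 8 (.lc 3 8 (.lc 3 6 (.lc 3 9 .stop)))))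
 (.node [88,118] 6 3 (.conf [32,98] (.node [96] 7 6 (.lc 1 0 (.lc 1 0 (.lc 1 1 (.lc 3 9 (.lc 2 0 (.lc 2 0 (.lc 3 1 (.lc 3 9 (.far [4096,4096,257,0,257] 4096 (.lc 2 0 (.lc 2 0 (.lc 4 9 (.lc 4 10 (.lc 3 0 (.lc 2 1 (.lc 0 9 (.lc 0 1 (.lc 0 9 (.conf [21,129] (.node [137,144] 5 8 (.lc 2 9 (.lc 2 10 (.lc 3 11 (.conf [25,144] (.lc 2 9 (.lc 3 10 (.lc 3 11 (.lc 3 11 (.lc 2 9 (.lc 1 0 (.lc 2 9 (.lc 4 12 (.conf [26,169] (.lc 3 9 (.lc 3 9 (.lc 3 9 (.lc 3 9 (.lc 4 9 .stop))))))))))))))))))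
 (.lc 0 9 (.lc 0 10 .stop))))))))))))))))))))))
 (.lc 0 7 (.node [32,105] 9 2 (.node [144] 7 6 (.lc 1 9 (.lc 1 9 (.lc 1 9 (.lc 3 0 (.lc 3 10 (.lc 2 9 (.lc 2 9 (.lc 2 9 (.lc 3 1 (.lc 3 10 (.conf [137,144] (.lc 2 9 (.lc 2 9 (.lc 2 9 (.lc 4 11 (.lc 3 9 (.lc 3 9 (.lc 0 0 (.lc 0 10 (.lc 0 1 (.lc 0 10 (.lc 2 0 (.lc 0 11 .stop)))))))))))))))))))))))
 (.lc 0 7 (.lc 3 10 (.lc 0 7 (.node [154,160] 7 6 (.lc 1 9 (.lc 1 9 (.lc 1 9 (.lc 3 10 (.lc 3 11 (.lc 2 9 (.lc 2 9 (.lc 3 1 (.lc 3 11 (.conf [137,154] (.lc 2 9 (.lc 2 9 (.lc 2 9 (.lc 4 12 (.lc 3 9 (.lc 0 10 (.lc 0 11 (.lc 0 1 (.lc 0 11 (.lc 2 10 (.lc 0 12 .stop)))))))))))))))))))))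
 (.lc 0 7 (.lc 3 10 (.lc 1 7 (.lc 0 7 (.lc 4 11 .stop))))))))))
 (.node [96] 7 6 (.lc 1 0 (.lc 2 1 (.lc 2 9 (.lc 2 0 (.lc 2 0 (.node [96,137] 9 6 (.conf [1,144] (.lc 1 0 (.lc 1 0 (.lc 2 0 (.lc 2 0 (.lc 3 1 (.lc 0 8 (.lc 2 0 (.lc 2 0 (.conf [21,145] (.lc 2 0 (.lc 2 0 (.lc 2 0 (.lc 2 0 (.lc 3 1 (.lc 3 10 (.lc 2 0 (.lc 2 0 (.lc 3 0 (.lc 4 10 (.lc 3 0 (.lc 3 0 (.lc 3 0 (.lc 3 0 (.lc 1 0 (.lc 3 0 (.lc 4 0 .stop)))))))))))))))))))))))))))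
 (.lc 2 0 (.lc 3 10 (.lc 2 0 (.lc 2 0 (.lc 2 0 (.lc 2 0 (.lc 2 0 (.lc 0 1 (.lc 0 9 (.lc 3 0 (.lc 3 0 (.lc 0 10 (.lc 3 0 (.lc 3 0 (.lc 3 0 (.lc 3 0 (.lc 3 0 (.lc 4 0 .stop))))))))))))))))))))))))
 (.lc 0 7 (.conf [32,146] (.node [96] 7 6 (.lc 1 0 (.lc 1 0 (.lc 3 1 (.lc 3 9 (.lc 2 0 (.lc 2 0 (.lc 1 1 (.conf [1,128] (.lc 2 0 (.lc 2 0 (.lc 2 1 (.lc 3 0 (.lc 0 1 (.lc 0 9 (.lc 2 1 (.lc 2 1 (.lc 3 1 .stop)))))))))))))))))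
 (.lc 0 7 (.conf [32,146] (.lc 0 7 (.node [105,144] 7 6 (.lc 1 9 (.lc 1 9 (.lc 3 10 (.lc 2 9 (.lc 2 9 (.lc 3 1 (.lc 3 10 (.lc 1 0 (.lc 2 9 (.lc 2 9 (.lc 4 11 (.lc 3 9 (.lc 0 10 (.lc 0 1 (.lc 0 10 (.node [138,144] 10 9 (.conf [1,160] (.lc 3 1 (.conf [21,161] (.lc 3 1 (.lc 3 11 (.lc 4 11 .stop))))))
 (.lc 0 11 .stop)))))))))))))))))
 (.lc 1 7 (.lc 0 7 (.conf [32,146] .stop)))))))))))))))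
 (.node [80,118] 0 7 (.lc 1 6 (.conf [38,99] (.lc 2 6 (.far [257,1,1,257] 4096 (.conf [40,134] .stop)))))
 (.node [118,135,88] 6 3 (.conf [32,98] (.node [96] 7 6 (.lc 1 0 (.lc 1 0 (.lc 1 1 (.lc 3 9 (.lc 2 0 (.lc 2 0 (.lc 3 1 (.lc 3 9 (.lc 0 0 (.lc 2 0 (.lc 2 0 (.lc 4 9 (.lc 4 10 (.lc 3 0 (.lc 2 1 (.far [4096,1,1,4096,257] 4096 (.far [1,0,1,1,257] 16 (.node [137,144] 5 8 (.far [16,257,0,4096,1] 0 (.lc 3 10 (.lc 3 1 (.far [16,257,0,4096,1] 0 (.lc 3 10 (.lc 4 11 .stop))))))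
 (.lc 0 1 (.lc 0 9 (.conf [21,145] (.node [138,169,144] 5 8 (.node [90] 5 10 (.lc 1 9 (.lc 2 11 (.lc 1 0 (.lc 3 11 (.lc 3 1 (.lc 2 9 (.lc 3 12 (.conf [25,144] (.lc 3 11 (.lc 3 1 (.lc 3 1 (.conf [27,185] (.lc 4 12 (.lc 4 1 (.lc 4 1 (.lc 4 1 (.lc 4 1 (.lc 5 1 .stop))))))))))))))))))
 (.lc 3 11 (.lc 3 1 (.lc 1 9 (.lc 3 11 (.lc 4 12 .stop))))))
 .stop))))))))))))))))))))))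
 (.lc 0 7 (.node [32,105] 9 2 (.node [144] 7 6 (.lc 1 9 (.lc 1 9 (.lc 1 9 (.lc 3 0 (.lc 3 10 (.lc 2 9 (.lc 2 9 (.lc 2 9 (.lc 3 1 (.lc 3 10 (.lc 0 9 (.lc 2 9 (.lc 2 9 (.lc 2 9 (.lc 4 11 (.lc 3 9 (.lc 3 9 (.lc 2 0 (.conf [144,169] (.lc 2 0 (.lc 2 0 (.lc 0 10 (.lc 3 0 .stop)))))))))))))))))))))))
 (.lc 0 7 (.lc 3 10 (.node [154,160] 7 6 (.lc 1 9 (.lc 1 9 (.lc 1 9 (.lc 3 10 (.lc 3 11 (.lc 2 9 (.lc 2 9 (.lc 3 1 (.lc 3 11 (.lc 0 9 (.lc 2 9 (.lc 2 9 (.lc 2 9 (.lc 4 12 (.lc 3 9 (.lc 2 2 (.conf [154,185] (.lc 2 10 (.lc 2 10 (.lc 0 11 (.lc 3 10 .stop)))))))))))))))))))))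
 (.lc 3 10 (.lc 4 11 .stop))))))
 (.node [96] 7 6 (.lc 1 0 (.lc 2 1 (.lc 2 9 (.lc 2 0 (.lc 2 0 (.lc 0 9 (.lc 2 0 (.lc 3 10 (.lc 2 0 (.lc 2 0 (.lc 2 0 (.lc 2 0 (.lc 2 0 (.node [96,129] 8 1 (.lc 1 6 .stop)
 (.node [96,137] 5 8 (.far [16,257,0,4096,1] 0 (.lc 3 10 (.lc 3 1 (.far [16,257,0,4096,1] 0 (.lc 3 10 (.lc 4 11 .stop))))))
 (.lc 3 0 (.lc 3 0 (.node [96,138,150] 5 8 (.node [90] 5 10 (.lc 1 9 (.lc 2 11 (.lc 1 6 (.lc 3 11 (.lc 3 1 (.lc 2 9 (.lc 3 12 (.conf [25,150] (.lc 3 11 (.lc 3 1 (.lc 0 0 (.lc 3 1 (.conf [27,185] (.lc 4 12 (.lc 4 1 (.lc 4 1 (.lc 0 0 (.lc 4 1 (.lc 4 1 (.lc 5 1 .stop))))))))))))))))))))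
 (.lc 3 11 (.lc 3 1 (.lc 1 9 (.lc 3 11 (.lc 4 12 .stop))))))
 (.lc 3 0 (.lc 3 0 (.lc 3 0 (.lc 3 0 (.lc 3 0 (.lc 4 0 .stop))))))))))))))))))))))))
 (.conf [32,146] (.node [96] 7 6 (.lc 1 0 (.lc 1 0 (.lc 3 1 (.lc 3 9 (.lc 2 0 (.lc 2 0 (.lc 1 1 (.lc 0 0 (.lc 2 0 (.lc 2 0 (.lc 2 1 (.lc 3 0 (.conf [21,129] (.conf [1,144] (.lc 2 1 (.lc 2 1 (.lc 3 1 .stop)))))))))))))))))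
 (.conf [32,146] (.node [105,144] 7 6 (.lc 1 9 (.lc 1 9 (.lc 3 10 (.lc 2 9 (.lc 2 9 (.lc 3 1 (.lc 3 10 (.lc 0 9 (.lc 2 9 (.lc 2 9 (.lc 4 11 (.lc 3 9 (.lc 2 0 (.node [129,144] 8 1 (.lc 1 9 .stop)
 (.node [138,144] 5 8 (.far [16,257,0,4096,1] 0 (.lc 3 11 (.lc 3 1 (.far [16,257,0,4096,1] 0 (.lc 3 11 (.lc 4 12 .stop))))))
 (.lc 0 10 (.node [139,144,169] 5 8 (.node [91] 10 9 (.conf [1,160] (.lc 3 1 (.conf [21,161] (.lc 3 1 (.lc 3 12 (.lc 4 12 .stop))))))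
 (.lc 3 12 (.lc 3 1 (.lc 1 10 (.lc 3 12 (.lc 4 13 .stop))))))
 .stop)))))))))))))))))
 (.conf [32,146] .stop))))))))))
 (.node [80,118] 5 0 .stop
 (.node [88,135,118] 6 3 (.conf [32,98] (.far [257,1,4096,257] 4096 (.lc 0 7 (.node [32,105] 9 2 (.far [1,257,1,4096,257] 4096 (.lc 0 6 (.lc 0 7 (.lc 3 10 (.node [154,160] 7 6 (.lc 1 9 (.lc 1 9 (.lc 1 9 (.lc 1 9 (.lc 3 4 (.lc 1 2 (.conf [154,185] (.lc 2 9 (.lc 2 9 (.lc 2 9 (.lc 2 9 (.lc 2 9 (.lc 2 9 (.lc 1 10 (.lc 3 4 (.lc 1 10 (.lc 3 1 (.lc 3 10 (.lc 3 11 (.lc 2 9 (.lc 2 9 (.lc 2 9 (.lc 2 9 (.lc 4 4 (.lc 2 10 (.lc 3 9 (.lc 3 9 (.lc 4 11 (.lc 4 12 (.lc 4 11 (.lc 4 12 (.lc 4 1 (.lc 4 12 (.lc 5 13 .stop))))))))))))))))))))))))))))))))))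
 (.lc 3 10 (.lc 0 6 (.lc 4 11 .stop))))))))
 (.far [1,1,4096,257] 4096 (.conf [32,146] (.far [258,2,8192,257] 4096 (.conf [32,146] (.far [1,1,4096,257] 4096 (.conf [32,146] .stop))))))))))
 (.node [88,118,128] 0 7 (.lc 1 6 (.conf [38,99] (.lc 2 6 (.far [257,1,1,257] 4096 (.conf [41,150] .stop)))))
 (.node [80,118,135] 5 0 .stop
 (.node [89,118,135] 6 3 (.conf [32,98] (.node [96] 7 6 (.lc 1 0 (.lc 1 0 (.lc 1 1 (.lc 3 10 (.lc 2 0 (.lc 2 0 (.lc 3 1 (.lc 3 10 (.lc 0 0 (.lc 2 0 (.lc 2 0 (.lc 4 10 (.lc 4 11 (.lc 3 0 (.lc 2 1 (.far [4096,1,1,4096,257] 4096 (.far [1,0,1,1,257] 16 (.node [138,160] 9 8 (.far [16,257,0,4096,1] 0 (.lc 3 1 (.lc 3 11 (.far [16,257,0,4096,1] 0 (.lc 3 11 (.lc 4 12 .stop))))))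
 (.lc 0 1 (.lc 0 10 (.conf [21,161] (.node [139,186,160] 9 8 (.node [155] 5 9 (.lc 2 10 (.lc 2 12 (.lc 3 12 (.lc 2 11 (.lc 3 13 (.lc 3 10 (.lc 1 10 (.lc 2 11 (.lc 2 11 (.lc 4 12 (.lc 3 11 (.lc 2 10 (.lc 1 0 (.conf [26,160] (.conf [28,202] .stop)))))))))))))))
 (.lc 3 1 (.lc 3 12 (.lc 1 10 (.lc 3 12 (.lc 4 13 .stop))))))
 .stop))))))))))))))))))))))
 (.lc 0 7 (.lc 0 8 (.node [32,106] 10 2 (.node [160] 7 6 (.lc 1 10 (.lc 1 10 (.lc 1 10 (.lc 3 0 (.lc 3 11 (.lc 2 10 (.lc 2 10 (.lc 2 10 (.lc 3 1 (.lc 3 11 (.lc 0 10 (.lc 2 10 (.lc 2 10 (.lc 2 10 (.lc 4 12 (.lc 3 10 (.lc 3 10 (.lc 2 0 (.conf [160,186] (.lc 2 0 (.lc 2 0 (.lc 0 11 (.lc 3 0 .stop)))))))))))))))))))))))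
 (.lc 0 7 (.lc 0 8 (.lc 3 11 (.node [171,176] 7 6 (.lc 1 10 (.lc 1 10 (.lc 1 10 (.lc 3 11 (.lc 3 12 (.lc 2 10 (.lc 2 10 (.lc 3 1 (.lc 3 12 (.lc 0 10 (.lc 2 10 (.lc 2 10 (.lc 2 10 (.lc 4 13 (.lc 3 10 (.lc 2 2 (.conf [171,202] (.lc 2 11 (.lc 2 11 (.lc 0 12 (.lc 3 11 .stop)))))))))))))))))))))
 (.lc 3 11 (.lc 0 7 (.lc 4 12 .stop))))))))
 (.node [96] 7 6 (.lc 1 0 (.lc 2 1 (.lc 2 10 (.lc 2 0 (.lc 2 0 (.lc 0 10 (.lc 2 0 (.lc 3 11 (.lc 2 0 (.lc 2 0 (.lc 2 0 (.lc 2 0 (.lc 2 0 (.node [96,129] 8 1 .stop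
 (.node [96,138] 9 8 (.far [16,257,0,4096,1] 0 (.lc 3 1 (.lc 3 11 (.far [16,257,0,4096,1] 0 (.lc 3 11 (.lc 4 12 .stop))))))
 (.lc 3 0 (.lc 3 0 (.node [96,139,166] 9 8 (.node [155] 5 9 (.lc 2 10 (.lc 2 12 (.lc 3 12 (.lc 2 11 (.lc 3 13 (.lc 3 10 (.lc 1 10 (.lc 0 0 (.lc 2 11 (.lc 2 11 (.lc 4 12 (.lc 3 11 (.lc 2 10 (.lc 1 6 (.conf [26,166] (.conf [28,202] .stop))))))))))))))))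
 (.lc 3 1 (.lc 3 12 (.lc 1 10 (.lc 3 12 (.lc 4 13 .stop))))))
 (.lc 3 0 (.lc 3 0 (.lc 3 0 (.lc 3 0 (.lc 3 0 (.lc 4 0 .stop))))))))))))))))))))))))
 (.conf [32,162] (.node [96] 7 6 (.lc 1 0 (.lc 1 0 (.lc 3 1 (.lc 3 10 (.lc 2 0 (.lc 2 0 (.lc 1 1 (.lc 0 0 (.lc 2 0 (.lc 2 0 (.lc 2 1 (.lc 3 0 (.conf [21,129] (.conf [1,160] (.lc 2 1 (.lc 2 1 (.lc 3 1 .stop)))))))))))))))))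
 (.conf [32,162] (.node [106,160] 7 6 (.lc 1 10 (.lc 1 10 (.lc 3 11 (.lc 2 10 (.lc 2 10 (.lc 3 1 (.lc 3 11 (.lc 0 10 (.lc 2 10 (.lc 2 10 (.lc 4 12 (.lc 3 10 (.lc 2 0 (.node [129,160] 8 1 .stop
 (.node [139,160] 9 8 (.far [16,257,0,4096,1] 0 (.lc 3 1 (.lc 3 12 (.far [16,257,0,4096,1] 0 (.lc 3 12 (.lc 4 13 .stop))))))
 (.lc 0 11 (.node [140,160,186] 11 10 (.conf [1,176] (.lc 3 1 (.conf [21,177] (.lc 3 1 (.lc 3 13 (.lc 4 13 .stop))))))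
 .stop)))))))))))))))))
 (.lc 0 7 (.conf [32,162] .stop))))))))))))
 .stop))))))))))
 (.conf [50,70] (.conf [50,64] (.conf [50,71] (.conf [50,71] (.conf [50,71] (.conf [50,64] (.conf [50,72] (.conf [50,71] (.conf [50,71] (.conf [50,64] (.conf [50,72] (.node [50,71,118,84,96] 0 3 (.node [] 4 7 (.far [8224,258,8192,257] 4096 (.lc 2 6 (.far [8224,258,8192,257] 4096 (.lc 2 6 (.lc 3 6 .stop)))))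
 .stop)
 (.node [50,71,99,112,84] 4 7 (.node [112,87] 7 0 (.lc 2 1 (.lc 1 0 (.lc 3 8 .stop)))
 (.lc 2 0 (.node [88,112] 7 0 (.lc 2 1 (.conf [21,129] (.lc 3 9 (.lc 0 1 (.lc 0 9 .stop)))))
 (.lc 2 0 (.lc 3 0 .stop)))))
 (.node [50,64,99,118,84] 4 0 .stop
 (.node [50,72,99,118,84] 4 8 (.node [135,88] 6 3 (.conf [32,98] (.far [257,4112,4096,257] 4096 (.node [32,105] 9 2 (.far [1,1,4112,4096,257] 4096 (.lc 0 6 (.lc 3 10 (.node [154,160] 6 9 (.lc 2 1 (.lc 0 8 (.lc 2 10 (.lc 2 11 (.lc 0 8 (.lc 3 11 (.lc 1 8 (.lc 3 12 (.lc 2 2 (.conf [154,185] (.lc 0 8 (.lc 3 11 (.lc 3 12 (.lc 3 5 (.lc 3 1 (.lc 0 8 (.lc 3 12 (.lc 2 10 (.lc 1 8 (.lc 2 10 (.lc 0 1 (.lc 1 8 (.lc 0 10 (.lc 0 11 (.lc 1 8 (.lc 0 8 (.lc 4 13 (.lc 1 8 (.lc 0 11 (.lc 0 12 (.lc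 1 8 (.lc 0 11 (.lc 2 8 (.lc 0 12 (.lc 0 5 (.lc 0 1 (.lc 1 8 (.lc 0 12 (.lc 1 8 (.lc 3 10 (.lc 2 8 (.lc 1 8 (.lc 0 13 .stop)))))))))))))))))))))))))))))))))))))))))))
 (.lc 3 10 (.lc 4 11 .stop))))))
 (.far [1,4112,4096,257] 4096 (.conf [32,146] (.far [258,8224,8192,257] 4096 (.conf [32,146] (.far [1,4112,4096,257] 4096 (.conf [32,146] .stop)))))))))
 (.lc 2 7 (.lc 2 7 (.node [80,135] 5 0 .stop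
 (.node [89,135] 6 3 (.conf [32,98] (.far [257,4112,4096,257] 4096 (.lc 0 8 (.node [32,106] 10 2 (.far [1,1,4112,4096,257] 4096 (.lc 0 6 (.lc 0 8 (.lc 3 11 (.node [171,176] 6 10 (.lc 2 1 (.lc 2 9 (.lc 2 11 (.lc 2 12 (.lc 3 12 (.lc 1 10 (.lc 3 12 (.lc 3 13 (.lc 2 2 (.conf [171,202] (.lc 3 12 (.lc 3 13 (.lc 0 9 (.lc 3 1 (.lc 3 9 (.lc 3 13 (.lc 2 11 (.lc 1 8 (.lc 2 11 (.lc 0 1 (.lc 0 9 (.lc 0 11 (.lc 0 12 (.lc 4 9 (.lc 4 14 (.lc 0 12 (.lc 0 13 (.lc 0 12 (.lc 2 10 (.lc 0 12 (.lc 0 13 (.lc 1 9 (.lc 0 1 (.lc 0 9 (.lc 0 13 (.lc 3 11 (.lc 0 9 (.lc 0 14 .stop))))))))))))))))))))))))))))))))))))))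
 (.lc 3 11 (.lc 4 12 .stop)))))))
 (.far [1,4112,4096,257] 4096 (.conf [32,162] (.far [258,8224,8192,257] 4096 (.conf [32,162] (.far [1,4112,4096,257] 4096 (.conf [32,162] .stop))))))))))
 (.lc 2 7 (.lc 2 7 (.lc 3 7 (.lc 3 7 (.lc 3 7 .stop))))))))))
 (.node [50,71,118,84,96] 0 3 (.node [] 4 7 (.node [118,87] 5 7 (.lc 2 1 (.lc 1 6 (.lc 3 1 (.node [88,134,96] 5 8 (.conf [24,134] (.lc 2 9 (.lc 2 6 (.lc 3 10 (.lc 3 1 (.conf [25,152] (.lc 3 10 (.lc 2 6 (.lc 3 10 (.lc 3 1 (.lc 3 1 (.lc 3 6 (.lc 4 11 (.lc 4 1 (.lc 4 1 (.lc 4 1 (.lc 4 1 (.lc 5 1 .stop))))))))))))))))))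
 (.lc 3 9 (.lc 3 1 (.lc 2 6 (.lc 3 1 (.lc 1 0 (.lc 3 8 (.lc 3 9 (.lc 4 1 (.lc 2 0 (.lc 4 10 (.lc 4 9 (.lc 4 9 (.lc 4 9 (.lc 5 10 .stop))))))))))))))))))
 (.lc 2 6 (.node [88,118] 8 7 (.lc 1 6 (.lc 1 6 (.node [96,150,96] 5 8 (.lc 2 10 (.lc 3 10 (.lc 2 9 (.lc 3 11 (.lc 3 10 (.conf [25,150] (.lc 2 9 (.lc 4 11 (.lc 3 9 (.conf [26,169] (.lc 2 6 (.lc 2 6 (.lc 3 6 .stop)))))))))))))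
 (.lc 2 6 (.lc 2 6 (.lc 2 6 (.lc 1 0 (.lc 1 0 (.lc 3 1 (.lc 3 9 (.lc 2 6 (.lc 2 6 (.lc 2 0 (.lc 3 6 (.lc 4 10 (.lc 2 0 (.lc 2 0 (.lc 2 0 (.lc 2 0 (.lc 3 0 .stop))))))))))))))))))))
 (.lc 2 6 (.lc 3 6 .stop)))))
 .stop)
 (.node [50,71,99,112,84] 4 7 (.node [112,87] 7 0 (.lc 2 1 (.lc 2 8 (.lc 2 6 (.lc 1 0 (.conf [6,128] (.lc 3 8 (.lc 3 9 (.lc 2 6 (.lc 2 6 (.lc 0 8 (.lc 3 6 (.lc 0 9 .stop))))))))))))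
 (.lc 2 0 (.node [88,112] 7 0 (.lc 2 1 (.lc 2 9 (.lc 2 6 (.conf [21,129] (.conf [6,144] (.lc 3 9 (.lc 3 10 (.lc 2 6 (.lc 2 6 (.lc 0 1 (.lc 0 9 (.lc 3 6 (.lc 0 9 (.lc 0 10 (.lc 3 6 (.lc 3 6 (.lc 3 6 (.lc 4 6 .stop))))))))))))))))))
 (.lc 2 0 (.lc 3 0 .stop)))))
 (.node [50,64,99,118,84] 4 0 .stop
 (.node [50,72,99,135,84] 4 8 (.node [135,88] 6 3 (.conf [32,98] (.lc 3 0 (.lc 3 9 (.node [96] 5 8 (.lc 2 1 (.lc 1 7 (.lc 3 1 (.node [89,118] 7 6 (.lc 1 0 (.lc 1 0 (.lc 1 0 (.lc 3 1 (.conf [1,144] (.lc 3 10 (.lc 2 0 (.lc 2 0 (.lc 2 0 (.lc 2 0 (.lc 3 1 (.lc 3 1 (.lc 3 10 (.lc 2 0 (.lc 2 0 (.conf [21,145] (.lc 4 10 (.lc 3 0 (.lc 4 10 (.lc 4 11 (.lc 4 10 (.lc 4 10 (.lc 5 11 .stop)))))))))))))))))))))))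
 (.lc 3 10 (.lc 3 1 (.lc 2 7 (.lc 3 1 (.lc 1 6 (.lc 3 9 (.lc 3 10 (.lc 4 1 (.lc 2 6 (.lc 4 11 (.lc 4 10 (.lc 4 10 (.lc 4 10 (.lc 5 11 .stop))))))))))))))))))
 (.conf [32,146] (.lc 3 0 (.lc 3 9 (.lc 4 9 (.lc 4 10 .stop)))))))))
 (.lc 2 7 (.lc 2 7 (.node [80,135] 5 0 .stop
 (.node [89,135] 6 3 (.conf [32,98] (.lc 3 0 (.lc 3 9 (.lc 3 10 (.node [96] 9 8 (.lc 1 7 (.lc 1 7 (.node [118,154] 5 9 (.lc 2 11 (.lc 3 11 (.lc 2 10 (.lc 3 12 (.lc 3 11 (.conf [26,167] (.lc 0 0 (.lc 2 10 (.lc 4 12 (.lc 3 10 (.conf [27,186] (.lc 0 0 (.lc 2 7 (.lc 2 7 (.lc 3 7 .stop)))))))))))))))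
 (.lc 2 7 (.lc 2 7 (.lc 2 7 (.lc 1 6 (.lc 1 6 (.lc 3 1 (.lc 3 10 (.lc 2 7 (.lc 2 7 (.lc 2 7 (.lc 2 6 (.lc 3 7 (.lc 4 11 (.lc 2 6 (.lc 2 6 (.lc 2 6 (.lc 2 6 (.lc 2 6 (.lc 3 6 .stop))))))))))))))))))))))
 (.conf [32,162] (.lc 3 0 (.lc 3 10 (.lc 4 10 (.lc 4 11 .stop))))))))))
 (.lc 2 7 (.lc 2 7 (.lc 3 7 (.lc 3 7 (.lc 3 7 .stop))))))))))
 (.node [50,71,118,84,96] 0 3 (.node [] 5 4 (.node [118,87] 7 6 (.node [96,113] 7 1 (.lc 1 6 .stop)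
 (.lc 2 4 (.node [96,120] 6 0 (.lc 2 1 (.conf [21,129] (.lc 1 0 (.lc 3 9 (.far [1,1,1,0,1,257] 16 (.lc 2 0 (.conf [21,145] .stop)))))))
 (.lc 2 0 (.lc 0 8 (.lc 2 0 (.lc 3 1 (.lc 3 9 (.lc 0 8 (.node [96,121,134] 7 9 (.lc 2 1 (.node [89] 5 9 (.lc 1 8 (.lc 2 10 (.lc 1 6 (.lc 3 10 (.lc 3 1 (.lc 2 8 (.lc 3 11 (.conf [24,134] (.lc 3 10 (.lc 3 1 (.lc 3 1 (.conf [26,168] (.lc 4 11 (.lc 4 1 (.lc 4 1 (.lc 4 1 (.lc 4 1 (.lc 5 1 .stop))))))))))))))))))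
 (.lc 2 10 (.lc 3 10 (.lc 0 10 (.lc 3 11 (.lc 0 1 (.lc 3 4 (.lc 0 10 (.lc 3 11 (.lc 0 1 (.lc 3 1 (.lc 2 8 (.lc 3 11 (.lc 0 1 (.lc 3 4 (.lc 0 10 (.lc 0 11 (.lc 4 12 (.lc 0 11 (.lc 0 11 (.lc 0 11 (.lc 0 1 (.lc 4 4 (.lc 0 12 .stop)))))))))))))))))))))))))
 (.lc 0 1 (.lc 2 0 (.lc 2 0 (.lc 2 0 (.lc 2 0 (.lc 2 0 (.lc 2 0 (.lc 3 8 (.lc 3 9 (.lc 0 9 (.lc 3 0 (.lc 4 10 (.lc 3 0 (.lc 3 0 (.lc 3 0 (.lc 3 0 (.lc 3 0 (.lc 3 0 (.lc 4 0 .stop)))))))))))))))))))))))))))))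
 (.node [88,118] 7 6 (.lc 2 1 (.lc 2 9 (.lc 2 0 (.lc 2 0 (.node [96,137] 5 8 (.lc 2 9 (.lc 2 10 (.lc 3 11 (.conf [25,150] (.lc 2 9 (.lc 3 10 (.lc 3 11 (.lc 3 11 (.lc 2 9 (.lc 1 6 (.lc 2 9 (.lc 4 12 (.conf [26,169] (.lc 3 9 (.lc 3 9 (.lc 3 9 (.lc 3 9 (.lc 4 9 .stop))))))))))))))))))
 (.lc 3 10 (.lc 2 0 (.lc 2 0 (.lc 2 0 (.lc 2 0 (.lc 0 1 (.lc 0 9 (.lc 3 0 (.lc 0 10 (.lc 3 0 (.lc 3 0 (.lc 3 0 (.lc 3 0 (.lc 3 0 (.lc 4 0 .stop))))))))))))))))))))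
 (.node [88,135,88] 8 7 (.lc 1 6 (.lc 1 6 (.lc 3 9 (.lc 2 6 (.lc 2 6 (.lc 2 6 (.lc 1 0 (.lc 1 0 (.node [96,129] 8 1 (.lc 1 6 .stop)
 (.node [96,137] 5 8 (.node [89] 9 6 (.lc 1 0 (.lc 0 6 (.lc 1 0 (.conf [21,145] (.lc 2 0 (.lc 2 0 (.lc 0 1 (.lc 2 0 (.lc 3 1 (.lc 2 0 (.lc 2 0 (.lc 3 0 (.lc 4 10 .stop)))))))))))))
 (.lc 3 10 (.lc 3 1 (.node [90,150] 9 6 (.lc 1 0 (.lc 1 0 (.lc 3 1 (.lc 2 0 (.lc 2 0 (.lc 2 0 (.lc 2 0 (.lc 3 0 (.conf [21,161] .stop)))))))))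
 (.lc 3 10 (.lc 4 11 .stop))))))
 (.lc 2 6 (.lc 2 6 (.lc 2 0 (.lc 3 6 (.node [96,138,150] 5 8 (.node [90] 5 10 (.lc 1 9 (.lc 2 11 (.lc 1 6 (.lc 3 11 (.lc 3 1 (.lc 2 9 (.lc 3 12 (.conf [25,150] (.lc 3 11 (.lc 3 1 (.lc 3 1 (.conf [27,185] (.lc 4 12 (.lc 4 1 (.lc 4 1 (.lc 4 1 (.lc 4 1 (.lc 5 1 .stop))))))))))))))))))
 (.lc 3 11 (.lc 3 1 (.lc 1 9 (.lc 3 11 (.lc 4 12 .stop))))))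
 (.lc 2 0 (.lc 2 0 (.lc 2 0 (.lc 2 0 (.lc 3 0 .stop))))))))))))))))))))
 (.node [88,118] 5 8 (.lc 2 6 (.lc 2 9 (.lc 3 9 (.lc 3 10 (.lc 2 7 (.lc 3 10 (.lc 3 6 (.lc 3 10 (.lc 1 0 (.node [25,135] 8 7 (.conf [118,151] (.lc 2 6 (.lc 1 0 (.lc 0 10 (.lc 2 6 (.lc 3 6 .stop))))))
 (.lc 1 0 (.lc 2 7 (.lc 4 11 (.lc 3 7 (.lc 2 0 (.conf [26,169] (.lc 0 0 (.lc 1 0 (.node [26,135,152] 8 7 (.node [118] 1 10 (.lc 2 9 .stop)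
 (.lc 2 6 (.lc 1 0 (.lc 0 11 (.lc 2 6 (.lc 3 6 .stop))))))
 (.conf [26,169] (.conf [27,186] .stop)))))))))))))))))))))
 (.node [89,118,135] 8 7 (.lc 1 6 (.lc 1 6 (.lc 3 10 (.lc 2 6 (.lc 2 6 (.lc 2 6 (.lc 1 0 (.lc 1 0 (.node [96,129] 8 1 .stop
 (.node [96,138] 9 8 (.node [154] 5 9 (.lc 2 11 (.lc 3 11 (.lc 2 10 (.lc 3 12 (.lc 3 11 (.conf [26,166] (.lc 2 10 (.lc 4 12 (.lc 3 10 (.conf [27,186] (.lc 2 6 (.lc 2 6 (.lc 3 6 .stop)))))))))))))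
 (.lc 3 1 (.lc 3 11 (.node [155,166] 10 6 (.lc 1 0 (.lc 1 0 (.lc 3 1 (.lc 2 0 (.lc 2 0 (.lc 2 0 (.lc 2 0 (.lc 3 0 (.conf [21,177] .stop)))))))))
 (.lc 3 11 (.lc 4 12 .stop))))))
 (.lc 2 6 (.lc 2 6 (.lc 2 0 (.lc 3 6 (.node [96,139,166] 9 8 (.node [155] 5 9 (.lc 2 10 (.lc 2 12 (.lc 3 12 (.lc 2 11 (.lc 3 13 (.lc 3 10 (.lc 1 10 (.lc 2 11 (.lc 2 11 (.lc 4 12 (.lc 3 11 (.lc 2 10 (.lc 1 6 (.conf [26,166] (.conf [28,202] .stop)))))))))))))))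
 (.lc 3 1 (.lc 3 12 (.lc 1 10 (.lc 3 12 (.lc 4 13 .stop))))))
 (.lc 2 0 (.lc 2 0 (.lc 2 0 (.lc 2 0 (.lc 3 0 .stop))))))))))))))))))))
 .stop)))))
 .stop)
 (.node [50,71,99,112,84] 6 3 (.conf [32,98] (.lc 3 8 (.conf [32,130] (.lc 3 8 (.lc 4 9 .stop)))))
 (.node [50,64,99,118,84] 4 0 (.node [7,80] 6 3 (.conf [32,98] (.lc 3 8 (.conf [32,130] (.lc 3 8 (.lc 4 9 .stop)))))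
 (.conf [7,128] .stop))
 (.node [50,72,99,118,84] 6 3 (.conf [32,98] (.lc 3 0 (.lc 3 9 (.node [96] 5 4 (.node [135,88] 7 6 (.lc 1 0 (.lc 0 8 (.lc 1 0 (.lc 3 1 (.lc 3 9 (.lc 2 0 (.lc 2 0 (.lc 0 8 (.lc 2 0 (.lc 0 8 (.lc 2 0 (.lc 3 1 (.node [113] 8 7 (.conf [21,129] (.lc 3 9 .stop))
 (.lc 0 8 (.node [1,121] 8 7 (.conf [137,144] (.lc 3 1 (.lc 3 10 (.lc 0 9 (.lc 1 0 (.lc 3 10 (.lc 4 11 .stop)))))))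
 (.lc 0 8 (.lc 2 0 (.lc 1 8 (.lc 2 0 (.lc 1 0 (.lc 4 9 (.lc 1 8 (.lc 0 8 (.lc 3 0 (.lc 1 0 (.conf [21,145] (.conf [1,144] (.lc 1 0 (.node [121,145] 8 7 (.far [1,1,1,0,1,257] 16 (.lc 3 10 (.lc 0 9 (.lc 1 1 (.lc 3 10 (.lc 4 11 .stop))))))
 (.lc 1 0 (.node [21,121] 8 7 (.conf [137,145] (.lc 3 10 (.lc 0 9 (.lc 1 1 (.lc 3 10 (.lc 4 11 .stop))))))
 (.lc 2 0 (.conf [21,145] .stop)))))))))))))))))))))))))))))))))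
 (.node [89,135] 8 7 (.lc 2 1 (.lc 2 10 (.lc 2 6 (.lc 2 6 (.lc 2 6 (.node [118,154] 7 6 (.lc 1 0 (.lc 1 0 (.lc 3 1 (.lc 3 11 (.lc 2 0 (.lc 2 0 (.lc 3 1 (.conf [1,160] (.lc 2 0 (.lc 2 0 (.lc 4 11 (.lc 3 0 (.lc 0 1 (.lc 0 11 (.lc 0 1 (.conf [21,161] (.lc 0 11 .stop)))))))))))))))))
 (.lc 3 11 (.lc 2 6 (.lc 2 6 (.lc 2 6 (.lc 2 6 (.lc 0 1 (.lc 0 10 (.lc 3 6 (.lc 0 11 (.lc 3 6 (.lc 3 6 (.lc 3 6 (.lc 3 6 (.lc 3 6 (.lc 3 6 (.lc 4 6 .stop))))))))))))))))))))))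
 (.node [89,152,89] 9 8 (.lc 1 7 (.lc 1 7 (.lc 3 10 (.lc 2 7 (.lc 2 7 (.lc 2 7 (.lc 1 6 (.lc 1 6 (.node [118,145] 9 1 (.lc 1 7 .stop)
 (.node [118,154] 5 9 (.node [90] 7 6 (.lc 1 0 (.lc 1 0 (.lc 3 1 (.lc 3 11 (.lc 2 0 (.lc 2 0 (.lc 3 1 (.conf [1,160] (.lc 2 0 (.lc 2 0 (.lc 4 11 (.lc 3 0 (.lc 0 1 (.lc 0 11 (.lc 0 1 (.conf [21,161] (.lc 0 11 .stop)))))))))))))))))
 (.lc 3 11 (.lc 3 1 (.node [91,167] 10 7 (.lc 1 6 (.lc 1 6 (.lc 1 0 (.lc 2 6 (.lc 2 6 (.lc 3 0 (.lc 1 0 (.lc 2 6 (.lc 2 6 (.lc 4 1 (.lc 3 6 (.lc 2 0 (.conf [1,176] (.conf [21,177] .stop))))))))))))))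
 (.lc 3 11 (.lc 4 12 .stop))))))
 (.lc 2 7 (.lc 2 7 (.lc 2 7 (.lc 2 6 (.lc 3 7 (.node [118,155,167] 5 9 (.node [91] 7 6 (.lc 1 0 (.lc 1 0 (.lc 3 1 (.lc 3 12 (.lc 2 0 (.lc 2 0 (.lc 3 1 (.conf [1,160] (.lc 2 0 (.lc 2 0 (.lc 4 12 (.lc 3 0 (.lc 0 1 (.lc 0 12 (.lc 0 1 (.conf [21,161] (.lc 0 12 .stop)))))))))))))))))
 (.lc 3 12 (.lc 3 1 (.lc 1 10 (.lc 3 12 (.lc 4 13 .stop))))))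
 (.lc 2 6 (.lc 2 6 (.lc 2 6 (.lc 2 6 (.lc 2 6 (.lc 3 6 .stop))))))))))))))))))))))
 (.node [89,135] 7 6 (.lc 1 0 (.lc 1 0 (.lc 1 0 (.lc 3 1 (.lc 3 10 (.lc 0 9 (.lc 2 0 (.lc 2 0 (.lc 2 0 (.lc 2 0 (.lc 3 1 (.node [113] 8 7 (.conf [21,129] (.lc 3 10 .stop))
 (.lc 0 8 (.node [1,122] 8 7 (.conf [138,160] (.lc 3 1 (.lc 3 11 (.lc 3 4 (.lc 1 0 (.lc 3 11 (.lc 4 12 .stop)))))))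
 (.lc 2 0 (.lc 1 6 (.lc 2 0 (.lc 2 0 (.lc 4 10 (.lc 3 0 (.lc 3 0 (.conf [21,161] (.conf [1,160] (.node [122,161] 8 7 (.far [1,1,1,0,1,257] 16 (.lc 3 11 (.lc 3 4 (.lc 1 1 (.lc 3 11 (.lc 4 12 .stop))))))
 (.lc 1 0 (.lc 0 8 (.node [21,122] 8 7 (.conf [138,161] (.lc 3 11 (.lc 3 4 (.lc 1 1 (.lc 3 11 (.lc 4 12 .stop))))))
 (.lc 2 0 (.conf [21,161] .stop)))))))))))))))))))))))))))))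
 (.node [90,135,152] 9 8 (.lc 1 7 (.lc 1 7 (.lc 3 11 (.lc 2 7 (.lc 2 7 (.lc 2 7 (.lc 1 6 (.lc 1 6 (.node [118,145] 9 1 .stop
 (.node [118,155] 10 9 (.node [171] 7 6 (.lc 1 0 (.lc 1 0 (.lc 3 1 (.lc 3 12 (.lc 2 0 (.lc 2 0 (.lc 3 1 (.conf [1,176] (.lc 2 0 (.lc 2 0 (.lc 4 12 (.lc 3 0 (.lc 0 1 (.lc 0 12 (.lc 0 1 (.conf [21,177] (.lc 0 12 .stop)))))))))))))))))
 (.lc 3 1 (.lc 3 12 (.node [172,183] 11 7 (.lc 1 6 (.lc 1 6 (.lc 1 0 (.lc 2 6 (.lc 2 6 (.lc 3 0 (.lc 1 0 (.lc 2 6 (.lc 2 6 (.lc 4 1 (.lc 3 6 (.lc 2 0 (.conf [1,192] (.conf [21,193] .stop))))))))))))))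
 (.lc 3 12 (.lc 4 13 .stop))))))
 (.lc 2 7 (.lc 2 7 (.lc 2 7 (.lc 2 6 (.lc 3 7 (.node [118,156,183] 10 9 (.node [172] 7 6 (.lc 1 0 (.lc 1 0 (.lc 3 1 (.lc 3 13 (.lc 2 0 (.lc 2 0 (.lc 3 1 (.conf [1,176] (.lc 2 0 (.lc 2 0 (.lc 4 13 (.lc 3 0 (.lc 0 1 (.lc 0 13 (.lc 0 1 (.conf [21,177] (.lc 0 13 .stop)))))))))))))))))
 (.lc 3 1 (.lc 3 13 (.lc 1 11 (.lc 3 13 (.lc 4 14 .stop))))))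
 (.lc 2 6 (.lc 2 6 (.lc 2 6 (.lc 2 6 (.lc 2 6 (.lc 3 6 .stop))))))))))))))))))))))
 .stop)))))
 (.conf [32,146] (.lc 3 0 (.lc 3 9 (.lc 4 9 (.lc 4 10 .stop)))))))))
 (.node [50,72,135,84,118,96] 0 3 (.node [] 4 8 (.node [135,88] 8 7 (.lc 1 6 (.lc 1 6 (.lc 3 9 (.lc 3 10 (.lc 0 1 (.lc 2 6 (.lc 2 6 (.lc 3 1 (.lc 3 10 (.lc 0 1 (.node [89,118] 7 6 (.node [96] 5 9 (.conf [25,150] (.lc 2 6 (.lc 2 10 (.lc 2 6 (.lc 3 11 (.lc 3 1 (.conf [26,169] (.lc 3 11 (.lc 2 6 (.lc 3 11 (.lc 3 1 (.lc 3 1 (.lc 3 1 (.lc 3 6 (.lc 4 12 (.lc 4 1 (.lc 4 1 (.lc 4 1 (.lc 4 1 (.lc 5 1 .stop))))))))))))))))))))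
 (.lc 2 0 (.lc 2 0 (.node [96,154] 5 9 (.lc 1 10 (.lc 2 11 (.lc 1 6 (.lc 3 11 (.lc 3 1 (.lc 2 10 (.lc 3 12 (.conf [26,166] (.lc 3 11 (.lc 3 1 (.lc 3 1 (.conf [27,186] (.lc 4 12 (.lc 4 1 (.lc 4 1 (.lc 4 1 (.lc 4 1 (.lc 5 1 .stop))))))))))))))))))
 (.lc 2 0 (.lc 3 0 .stop))))))
 (.lc 0 9 (.lc 4 11 (.lc 0 10 (.lc 0 10 (.lc 0 10 (.lc 0 1 (.node [90,118,151] 9 7 (.node [96] 5 10 (.conf [26,169] (.lc 2 11 (.lc 2 9 (.lc 3 12 (.lc 3 1 (.conf [27,186] (.lc 3 12 (.lc 2 9 (.lc 3 12 (.lc 3 1 (.lc 3 1 (.lc 3 9 (.lc 4 13 (.lc 4 1 (.lc 4 1 (.lc 4 1 (.lc 4 1 (.lc 5 1 .stop))))))))))))))))))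
 (.lc 1 0 (.lc 1 0 (.lc 1 0 (.lc 3 11 (.lc 2 0 .stop))))))
 (.lc 0 11 .stop)))))))))))))))))))
 (.lc 2 7 (.node [89,135] 9 8 (.lc 1 7 (.lc 1 7 (.lc 1 6 (.lc 2 7 (.lc 2 7 (.lc 2 7 (.node [118,145] 1 7 .stop
 (.node [118,154] 7 6 (.node [96] 5 9 (.lc 2 11 (.lc 3 11 (.lc 2 10 (.lc 3 12 (.lc 3 11 (.conf [26,166] (.lc 2 10 (.lc 4 12 (.lc 3 10 (.conf [27,186] (.lc 2 6 (.lc 2 6 (.lc 3 6 .stop)))))))))))))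
 (.lc 2 0 (.lc 2 0 (.node [96,171] 9 10 (.lc 2 1 (.lc 2 12 (.lc 3 12 (.lc 0 12 (.lc 3 13 (.lc 3 1 (.lc 3 12 (.lc 0 11 (.lc 2 11 (.lc 4 13 (.lc 3 11 (.lc 2 6 (.conf [27,182] (.lc 0 12 (.conf [28,203] .stop)))))))))))))))
 (.lc 2 0 (.lc 3 0 .stop))))))
 (.lc 1 6 (.lc 1 6 (.lc 2 7 (.lc 2 7 (.node [118,155,167] 10 7 (.node [96] 5 9 (.lc 2 12 (.lc 3 12 (.lc 2 11 (.lc 3 13 (.lc 3 12 (.conf [27,186] (.lc 2 11 (.lc 4 13 (.lc 3 11 (.conf [28,203] (.lc 2 10 (.lc 2 10 (.lc 3 10 .stop)))))))))))))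
 (.lc 1 0 (.lc 1 0 (.lc 1 0 (.lc 3 12 (.lc 2 0 .stop))))))
 (.lc 3 7 (.lc 2 6 (.lc 4 10 (.lc 4 11 (.lc 4 1 (.lc 4 11 (.lc 5 12 .stop))))))))))))))))))))
 (.lc 2 7 (.lc 3 7 .stop)))))
 .stop)
 (.node [50,72,99,135,84,112] 4 8 (.node [135,88] 6 3 (.conf [32,98] (.lc 3 9 (.conf [32,146] (.lc 3 9 (.lc 4 10 .stop)))))
 (.lc 2 7 (.node [89,135] 6 3 (.conf [32,98] (.lc 3 9 (.lc 3 10 (.conf [32,162] (.lc 3 10 (.lc 4 11 .stop))))))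
 (.lc 2 7 (.lc 3 7 .stop)))))
 (.node [50,72,99,118,128,84] 4 8 (.node [128,88] 8 0 (.lc 2 1 (.lc 1 0 (.lc 3 9 .stop)))
 (.lc 2 0 (.node [89,128] 8 0 (.lc 2 1 (.conf [21,145] (.lc 3 10 (.lc 0 1 (.lc 0 10 .stop)))))
 (.lc 2 0 (.lc 3 0 .stop)))))
 (.node [50,64,99,118,135,84] 4 0 .stop
 (.node [50,73,99,118,135,84] 4 9 (.node [152,89] 6 3 (.conf [32,98] (.lc 3 0 (.lc 3 10 (.node [96] 9 8 (.lc 1 7 (.lc 1 7 (.lc 3 1 (.lc 3 10 (.lc 3 11 (.lc 0 1 (.lc 2 7 (.lc 2 7 (.lc 3 1 (.lc 3 11 (.lc 0 1 (.node [90,135] 8 7 (.node [118] 7 6 (.lc 1 0 (.lc 1 0 (.lc 3 1 (.lc 3 11 (.lc 2 0 (.lc 2 0 (.lc 3 1 (.conf [1,160] (.lc 2 0 (.lc 2 0 (.lc 4 11 (.lc 3 0 (.lc 0 1 (.lc 0 11 (.lc 0 1 (.conf [21,161] (.lc 0 11 .stop)))))))))))))))))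
 (.lc 2 6 (.lc 2 6 (.node [118,171] 5 10 (.lc 1 11 (.lc 2 12 (.lc 1 7 (.lc 3 12 (.lc 3 1 (.lc 2 11 (.lc 3 13 (.conf [27,183] (.lc 3 12 (.lc 3 1 (.lc 0 0 (.lc 3 1 (.conf [28,203] (.lc 4 13 (.lc 4 1 (.lc 4 1 (.lc 0 0 (.lc 4 1 (.lc 4 1 (.lc 5 1 .stop))))))))))))))))))))
 (.lc 2 6 (.lc 3 6 .stop))))))
 (.lc 0 10 (.lc 4 12 (.lc 0 11 (.lc 0 11 (.lc 0 11 (.lc 0 1 (.node [91,135,168] 10 8 (.node [118] 7 6 (.lc 1 0 (.lc 1 0 (.lc 1 0 (.lc 3 1 (.lc 3 12 (.lc 2 0 (.lc 2 0 (.lc 3 1 (.lc 0 0 (.lc 2 0 (.lc 4 12 (.lc 3 0 (.conf [1,176] (.lc 0 1 (.conf [21,177] .stop)))))))))))))))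
 (.lc 1 6 (.lc 1 6 (.lc 1 6 (.lc 3 12 (.lc 2 6 .stop))))))
 (.lc 0 12 .stop))))))))))))))))))))
 (.conf [32,162] (.lc 3 0 (.lc 3 10 (.lc 4 10 (.lc 4 11 .stop)))))))))
 (.lc 2 8 (.lc 2 8 (.node [80,152] 5 0 .stop
 (.node [90,152] 6 3 (.conf [32,98] (.lc 3 0 (.lc 3 10 (.lc 3 11 (.node [96] 10 9 (.lc 1 8 (.lc 1 8 (.lc 1 7 (.lc 2 8 (.lc 2 8 (.lc 2 8 (.node [135,161] 1 8 .stop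
 (.node [135,171] 8 7 (.node [118] 7 6 (.lc 1 0 (.lc 1 0 (.lc 3 1 (.lc 3 12 (.lc 2 0 (.lc 2 0 (.lc 3 1 (.conf [1,176] (.lc 2 0 (.lc 2 0 (.lc 4 12 (.lc 3 0 (.lc 0 1 (.lc 0 12 (.lc 0 1 (.conf [21,177] (.lc 0 12 .stop)))))))))))))))))
 (.lc 2 6 (.lc 2 6 (.node [118,188] 10 11 (.lc 2 1 (.lc 2 13 (.lc 3 13 (.lc 0 13 (.lc 3 14 (.lc 3 1 (.lc 3 13 (.lc 0 12 (.lc 2 12 (.lc 4 14 (.lc 3 12 (.lc 2 7 (.conf [28,199] (.lc 0 13 (.conf [29,220] .stop)))))))))))))))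
 (.lc 2 6 (.lc 3 6 .stop))))))
 (.lc 1 7 (.lc 1 7 (.lc 2 8 (.lc 2 8 (.lc 2 8 (.node [135,172,184] 11 8 (.node [118] 7 6 (.lc 1 0 (.lc 1 0 (.lc 1 0 (.lc 3 1 (.lc 3 13 (.lc 2 0 (.lc 2 0 (.lc 3 1 (.lc 0 0 (.lc 2 0 (.lc 4 13 (.lc 3 0 (.conf [1,192] (.lc 0 1 (.conf [21,193] .stop)))))))))))))))
 (.lc 1 6 (.lc 1 6 (.lc 1 6 (.lc 3 13 (.lc 2 6 .stop))))))
 (.lc 3 8 (.lc 2 7 (.lc 4 1 (.lc 4 11 (.lc 4 12 (.lc 4 1 (.lc 4 12 (.lc 5 13 .stop))))))))))))))))))))))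
 (.conf [32,178] (.lc 3 0 (.lc 3 11 (.lc 4 11 (.lc 4 12 .stop))))))))))
 (.lc 2 8 (.lc 2 8 (.lc 3 8 (.lc 3 8 (.lc 3 8 .stop))))))))))
 .stop)))))))))))))))))))))))))))))))))))))))))))))

theorem t49 : kNode2 awTt FTt 4 3 (check tyTt awTt triet FTt [] c49) (fun _ _ _ => true) 0 s49 Pl.nil s49 =
    true := by
  decide +kernel

end Chk
end Pool.Agent.Lib.MP_ba95e8_co
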