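import Pool.Agent.Lib.MP_ba95e8_co.ChkTab
import Pool.Agent.Lib.MP_ba95e8_co.ChkStates

/-!
Deltahedral domes: part 5 of the case analysis.
-/

namespace Pool.Agent.Lib.MP_ba95e8_co
namespace Chk

/-- certificate number 5 -/
def c5 : Cert := (.node [] 6 4 (.node [66] 0 4 (.far [257,1,4112,4112,4096,4096,0,0,257] 4096 .stop)
 (.node [] 7 6 (.node [98] 0 6 (.far [257,1,0,4112,4096,0,4096,0,0,257] 4096 .stop)
 (.lc 2 1 (.node [] 7 2 (.far [1,257,0,4112,4096,0,4096,0,0,257] 4096 (.node [120,128,120] 7 8 (.far [4112,4112,4112,0,1,256] 0 (.lc 2 0 .stop))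
 .stop))
 (.node [98] 6 2 (.node [] 8 2 (.far [1,4096,1,0,4112,4096,0,4096,0,0,257] 4096 (.node [137,144,32] 7 8 (.far [1,4096,0,257,0,4112,4096,0,4096,0,0,257] 4096 (.lc 3 1 (.node [144,169,122] 7 10 (.far [4112,4112,0,0,4112,0,1,256] 0 (.lc 2 9 (.lc 2 9 .stop)))
 .stop)))
 (.node [144,137] 7 8 (.node [137,144] 1 8 .stop
 (.far [1,4112,256,256] 0 (.node [122,137,144] 8 9 (.far [4112,1,4112,256,256] 0 (.lc 2 0 (.lc 0 11 (.lc 2 0 (.lc 3 0 .stop)))))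
 (.conf [122,144,169] (.conf [113,130] (.conf [137,168] (.conf [122,144,169] (.conf [137,168] (.conf [130,144] (.conf [130,144] (.far [4096,4112,256,16,0,1,256] 0 (.conf [130,144] (.conf [130,144] .stop)))))))))))))
 (.far [1,4096,1,0,4112,4096,0,4096,0,0,257] 4096 (.node [138,169,32,144] 7 8 (.far [1,4096,0,257,0,4112,4096,0,4096,0,0,257] 4096 (.lc 3 1 (.lc 1 9 .stop)))
 .stop)))))
 (.far [4096,1,0,4112,4096,0,4096,0,0,257] 4096 (.far [4112,1,4112,0,1,256] 0 (.far [4112,1,4112,0,1,256] 0 (.far [257,16,257,0,16,4096] 17 (.node [137,144,98,120] 7 8 (.lc 2 1 (.node [122,137,144] 8 9 (.far [4112,1,16,257,4112,0,1,256] 0 (.lc 2 0 (.lc 0 11 (.lc 2 0 (.lc 3 0 .stop)))))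
 (.conf [134,144] (.lc 3 1 (.conf [137,168] (.lc 3 1 (.node [134,144,122] 7 10 (.far [257,257,0,257,0,16,4096] 0 (.lc 2 9 (.lc 2 9 .stop)))
 (.lc 3 1 (.conf [134,186,123] (.lc 4 1 .stop))))))))))
 .stop))))))
 (.conf [98,66,32] (.conf [98,120,130] (.node [120,128,98] 0 6 (.far [256,0,257,4112,4112,4096,4096,0,0,257] 4096 .stop)
 (.far [257,0,4112,4096,0,4096,0,0,257] 4096 (.conf [112,134,98] (.conf [121,134,152] (.lc 3 1 (.node [98,128,120] 0 6 (.far [16,16,257,0,16,4096] 0 .stop)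
 (.far [16,257,0,16,4096] 17 (.node [98,134,98,112] 8 6 (.far [16,16,257,0,16,4096] 0 (.lc 3 9 .stop))
 (.node [98,134,152,98,121] 8 6 (.far [16,16,257,0,16,4096] 0 (.lc 3 0 (.far [16,16,257,0,16,4096] 17 (.lc 3 0 (.lc 3 10 (.lc 4 10 .stop))))))
 (.conf [98,66,32] (.conf [98,66,32] (.conf [98,66,32] (.node [120,128,98] 0 6 (.far [1,1,4112,0,1,256] 0 .stop)
 (.far [1,4112,0,1,256] 0 (.far [1,4112,0,1,256] 0 (.node [112,98] 7 0 (.node [] 8 6 (.far [1,0,1,4112,0,1,256] 0 (.lc 3 9 .stop))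
 .stop)
 (.node [121,152,98] 7 9 (.node [152] 8 6 (.far [1,0,1,4112,0,1,256] 0 (.lc 3 0 (.far [1,4112,1,4112,4096,1,256,4096,0,0,257] 4096 (.lc 3 0 (.lc 3 10 (.lc 4 10 .stop))))))
 (.lc 2 8 (.node [152] 8 6 (.far [1,0,1,4112,0,1,256] 0 (.lc 3 0 (.lc 3 10 .stop)))
 (.lc 2 8 (.lc 2 8 (.lc 3 8 .stop))))))
 (.conf [98,120,128] (.node [121,152,98,128] 0 6 (.far [256,0,257,4112,4112,4096,4096,0,0,257] 4096 .stop)
 (.node [120,128,98,66,49,23] 7 8 (.far [4112,4096,4112,1,257,256] 0 (.lc 2 0 .stop))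
 (.conf [121,134,98] (.conf [112,134,98] (.conf [122,134,98] (.conf [98,66,32] (.conf [98,130,32] (.conf [98,66,32] (.conf [98,66,32] (.conf [98,66,32] .stop))))))))))))))))))))))))))))))))))
 (.lc 2 4 (.node [66] 8 4 (.node [] 7 6 (.node [104] 0 6 (.node [] 7 0 (.node [] 8 2 (.far [4096,4112,257,4096,0,0,4096,0,0,4096,0,0,257] 4096 (.node [137] 0 8 .stop
 (.node [138,169,138,146] 8 10 .stop
 .stop)))
 (.node [120,130] 7 8 .stop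
 .stop))
 (.far [16,16,0,257,0,16,4096] 0 (.lc 1 2 .stop)))
 (.lc 2 1 (.node [] 7 8 (.node [112,130] 7 0 (.node [] 8 2 (.far [4096,4112,4096,0,0,0,4096,0,0,4096,0,0,257] 4096 .stop)
 .stop)
 (.node [130] 1 8 .stop
 (.node [114] 7 2 .stop
 (.node [121,130] 8 2 (.node [] 7 9 (.node [] 9 2 (.far [1,4112,4096,4096,0,0,0,4096,0,0,4096,0,0,257] 4096 (.node [154,160,154] 1 9 .stop
 .stop))
 (.node [146,113] 9 2 (.far [4096,4096,0,0,0,0,0,4096,0,0,4096,0,0,257] 4096 .stop)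
 (.far [4112,0,4112,4112,0,0,1,256] 4097 (.far [257,0,257,257,0,0,16,4096] 0 (.far [257,0,257,257,0,0,16,4096] 0 (.node [146,169,113] 9 2 .stop
 .stop))))))
 (.far [4096,1,257,0,0,4112,4096,0,4096,0,0,257] 4096 (.far [4112,1,256,4112,256] 0 (.far [4112,1,256,4112,256] 0 (.far [257,16,4096,257,4096] 17 (.node [154,160,130] 7 9 (.node [154,160] 1 9 .stop
 (.far [257,0,257,257,0,0,16,4096] 0 .stop))
 .stop))))))
 (.conf [130,100,112] (.conf [130,146,32] (.conf [113,130,100] (.conf [113,130,152] (.far [4112,4112,0,0,1,256] 4097 (.node [121,130,144,121] 0 8 (.far [16,16,4096,257,4096] 0 .stop)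
 (.far [16,4096,257,4096] 17 (.node [112,130,152,130] 7 0 (.far [4112,4112,4112,0,0,1,256] 0 .stop)
 (.node [122,152,169,122,130] 9 8 (.far [16,16,4096,257,4096] 0 (.lc 3 0 (.far [16,16,4096,257,4096] 17 (.lc 3 0 (.lc 3 11 (.lc 4 11 .stop))))))
 (.conf [130,100,112] (.conf [113,130,100] (.conf [130,144,121] (.conf [113,130,152] .stop)))))))))))))))))
 (.node [104] 6 8 (.node [] 9 8 (.node [130] 0 8 (.far [257,1,4096,1,0,0,4112,4096,0,4096,0,0,257] 4096 .stop)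
 (.node [] 9 2 (.far [1,257,4096,1,0,0,4112,4096,0,4096,0,0,257] 4096 (.conf [146,130,32] (.node [154,160,154] 7 9 (.far [1,4112,4112,256,256] 0 (.lc 3 1 (.lc 1 0 .stop)))
 .stop)))
 (.lc 2 6 (.node [130] 8 2 (.node [] 10 2 (.far [1,4096,1,4096,1,0,0,4112,4096,0,4096,0,0,257] 4096 (.node [171,176,32] 9 10 (.far [1,4096,0,257,4096,1,0,0,4112,4096,0,4096,0,0,257] 4096 (.lc 3 6 (.node [176,203,156] 7 9 (.far [1,4112,0,0,4112,256,256] 0 (.lc 3 1 (.lc 1 11 .stop)))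
 .stop)))
 (.node [176,171] 9 10 (.node [122,171,176] 7 10 .stop
 (.far [1,4112,256,256] 0 (.node [156,171,176] 10 11 (.far [4112,1,4112,256,256] 0 (.lc 2 0 (.lc 0 13 (.lc 2 0 (.lc 3 0 .stop)))))
 (.conf [156,176,203] (.conf [150,162] (.conf [171,202] (.conf [156,176,203] (.conf [171,202] (.conf [162,176] (.conf [162,176] (.far [4096,4112,256,16,256,256] 0 (.node [113,150,171,176,26] 1 10 .stop
 (.conf [162,176] (.conf [162,176] (.conf [162,176] .stop)))))))))))))))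
 (.far [1,4096,1,4096,1,0,0,4112,4096,0,4096,0,0,257] 4096 (.node [172,203,32,176] 9 10 (.far [1,4096,0,257,4096,1,0,0,4112,4096,0,4096,0,0,257] 4096 (.lc 3 6 (.lc 1 11 .stop)))
 .stop)))))
 (.far [4096,1,4096,1,0,0,4112,4096,0,4096,0,0,257] 4096 (.far [4112,1,1,0,4112,256] 0 (.far [4112,1,1,0,4112,256] 0 (.far [257,16,16,0,257,4096] 17 (.node [171,176,130,154] 9 10 (.lc 2 6 (.node [156,171,176] 10 11 (.far [4112,1,16,257,1,0,4112,256] 0 (.lc 2 0 (.lc 0 13 (.lc 2 0 (.lc 3 0 .stop)))))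
 (.conf [168,176] (.lc 3 6 (.conf [171,202] (.lc 3 6 (.node [168,176,156] 9 12 (.far [257,257,0,257,4096,4096] 0 (.lc 2 11 (.lc 2 11 .stop)))
 (.lc 3 6 (.lc 3 6 (.conf [168,220,157] (.lc 4 6 (.lc 4 6 .stop))))))))))))
 .stop))))))
 (.far [1,4096,1,0,0,4112,4096,0,4096,0,0,257] 4096 (.conf [130,154,162] (.node [145,23,130] 9 1 (.lc 0 1 .stop)
 (.node [154,160,130] 0 8 (.far [256,0,4112,1,257,4096,4112,4096,0,4096,0,0,257] 4096 .stop)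
 (.far [257,4096,1,0,0,4112,4096,0,4096,0,0,257] 4096 (.conf [144,168,130] (.conf [155,168,186] (.node [130,160,154] 0 8 (.far [16,16,16,0,257,4096] 0 .stop)
 (.far [16,16,0,257,4096] 17 (.node [130,168,130,144] 10 8 (.far [16,16,16,0,257,4096] 0 (.lc 3 11 .stop))
 (.node [130,168,186,130,155] 10 8 (.far [16,16,16,0,257,4096] 0 (.lc 3 0 (.far [16,16,16,0,257,4096] 17 (.lc 3 0 (.lc 3 12 (.lc 4 12 .stop))))))
 (.far [1,4096,1,0,0,4112,4096,0,4096,0,0,257] 4096 (.far [257,4096,1,0,0,4112,4096,0,4096,0,0,257] 4096 (.node [130,154,32] 7 9 (.node [122,162] 7 10 (.node [] 10 2 (.far [1,4112,4096,1,0,0,0,0,4096,0,0,4096,0,0,257] 4096 (.node [171,176,171] 1 10 .stop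
 .stop))
 (.lc 2 2 (.far [4112,4112,0,0,4112,0,0,1,256] 4097 (.lc 2 2 (.lc 2 2 (.lc 3 2 .stop))))))
 (.lc 3 1 (.far [16,256,4112,4096,257,4096] 0 (.far [16,256,4112,4096,257,4096] 0 (.lc 4 1 .stop)))))
 (.node [154,160,130] 0 8 (.far [1,1,1,0,4112,256] 0 .stop)
 (.far [1,1,0,4112,256] 0 (.far [1,1,0,4112,256] 0 (.node [144,130] 9 0 (.lc 0 1 .stop)
 (.node [155,186,130] 7 9 (.node [123,186] 7 11 (.node [186] 1 11 (.far [16,16,4112,257,4096,4096] 0 .stop)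
 (.far [4112,4112,0,0,4112,0,0,1,256] 4097 (.lc 2 7 (.lc 3 7 .stop))))
 (.lc 3 1 (.lc 1 10 (.lc 1 10 (.lc 4 1 .stop)))))
 (.conf [130,154,160] (.node [155,186,130,160] 0 8 (.far [256,0,4112,1,257,4096,4112,4096,0,4096,0,0,257] 4096 .stop)
 (.node [154,160,130,66] 7 9 (.far [1,4096,257,256,4112,256] 0 (.lc 3 1 (.lc 1 0 .stop)))
 (.conf [155,168,130] (.conf [144,168,130] (.conf [156,168,130] (.far [1,4096,1,0,0,4112,4096,0,4096,0,0,257] 4096 (.conf [130,162,32] (.far [1,4096,1,0,0,4112,4096,0,4096,0,0,257] 4096 (.node [130,154,160,32] 7 9 (.far [16,256,4112,4096,257,4096] 17 (.lc 3 1 (.far [16,256,4112,4096,257,4096] 17 .stop)))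
 (.node [130,155,186,32,160] 7 9 (.node [123,186] 7 11 (.node [186] 1 11 .stop
 (.lc 1 0 .stop))
 (.lc 3 1 (.lc 1 10 .stop)))
 .stop))))))))))))))))))))))))))))))))))
 (.conf [130,144,100] (.conf [130,154,168] (.far [4112,1,0,4112,0,1,256] 0 (.far [4112,1,0,4112,0,1,256] 0 (.far [257,16,0,257,0,16,4096] 0 (.far [257,16,0,257,0,16,4096] 0 (.conf [130,154,100] (.conf [130,144,100] (.conf [130,155,100] .stop))))))))))
 (.node [100,112,130] 7 0 (.node [112,16] 0 8 (.far [256,4112,4096,257,4096,4096,0,0,4096,0,0,257] 4096 .stop)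
 .stop)
 (.conf [100,121,152] (.node [121,144,104] 0 6 .stop
 (.conf [112,130,100] (.conf [121,130,152] (.conf [112,150,104] (.conf [122,150,169] (.lc 3 1 (.node [104,144,121] 0 6 .stop
 (.far [16,0,257,0,16,4096] 0 (.far [16,0,257,0,16,4096] 0 (.node [104,150,104,112,130] 6 8 (.far [257,16,0,257,0,16,4096] 0 (.lc 2 2 (.lc 0 10 (.lc 2 2 (.lc 3 2 .stop)))))
 (.node [104,150,169,104,122,130] 6 8 (.far [257,16,0,257,0,16,4096] 0 (.lc 2 2 (.lc 2 2 (.lc 0 0 (.lc 0 11 (.lc 2 2 (.lc 2 2 (.lc 3 2 (.lc 3 2 (.lc 3 2 .stop))))))))))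
 (.node [100,112,130] 0 8 (.far [257,1,0,0,4112,4096,0,4096,0,0,257] 4096 .stop)
 (.lc 3 1 (.node [100,121,130] 9 8 (.node [146] 9 2 (.far [1,257,1,0,0,4112,4096,0,4096,0,0,257] 4096 (.lc 3 10 (.node [160] 7 9 (.far [257,0,0,257,0,0,16,4096] 0 (.far [1,4112,4112,256] 0 (.node [123,154,160] 9 10 (.far [4112,1,4112,4112,256] 0 (.lc 2 0 (.lc 0 12 (.lc 2 0 (.lc 3 0 .stop)))))
 (.lc 2 2 (.lc 3 1 (.lc 3 1 (.conf [123,160,186] (.conf [154,185] (.lc 2 2 (.lc 2 2 (.lc 3 1 (.lc 3 2 (.lc 4 1 .stop)))))))))))))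
 (.lc 3 10 (.lc 4 11 .stop)))))
 (.far [257,1,0,0,4112,4096,0,4096,0,0,257] 4096 (.far [16,16,257,1,0,16,4096] 17 (.far [1,1,4112,16,0,1,256] 0 (.far [1,1,4112,16,0,1,256] 0 (.node [154,160] 7 9 (.far [257,0,257,0,0,16,4096] 0 (.node [123,154] 9 10 (.far [4112,1,8208,256,4112,256] 17 (.lc 2 0 (.lc 0 12 (.lc 2 0 (.lc 3 0 .stop)))))
 (.lc 2 7 (.lc 3 1 (.conf [154,185] (.lc 2 7 (.lc 2 7 (.lc 3 1 (.lc 3 7 (.lc 4 1 .stop))))))))))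
 .stop))))))
 (.node [100,112,130] 7 0 (.node [] 0 8 (.far [257,16,1] 256 (.node [130] 8 2 (.far [4112,1,0,257,4112,256] 0 (.far [4112,1,0,257,4112,256] 0 .stop))
 (.node [130,152,169,130] 9 8 (.node [146] 9 2 .stop
 (.lc 3 11 .stop))
 .stop)))
 .stop)
 (.lc 1 2 (.node [100,121,130] 7 9 (.node [152] 1 9 (.node [] 9 8 (.far [257,16,16,1] 0 (.far [1,0,0,257,4112,256] 0 (.node [130,154] 8 2 (.far [4112,1,0,0,257,4112,256] 0 (.far [4096,1,4112,16,1] 256 (.far [4096,1,4112,16,1] 256 (.far [4112,1,0,0,257,4112,256] 0 (.far [4112,1,0,0,257,4112,256,4112,4096,0,4096,0,0,257] 4096 (.far [4112,1,4112,256,257,4112,256,16,4096] 256 .stop))))))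
 (.lc 2 2 (.lc 2 2 (.lc 3 0 (.lc 3 0 (.far [257,16,16,1,0,0,4112,4096,0,4096,0,0,257] 4096 (.node [130,144,168,130] 10 8 (.node [162] 10 2 .stop
 (.lc 3 11 .stop))
 (.node [130,168,186,130,155] 9 11 (.node [186] 10 8 (.node [162] 10 2 (.far [1,257,4112,4096,1,4096,0,0,0,4096,0,0,4096,0,0,257] 4096 (.far [4096,0,4096,0,4096] 256 .stop))
 (.lc 3 0 (.lc 3 12 .stop)))
 (.lc 2 10 (.lc 2 10 (.node [186,203,186,168] 10 8 (.far [1,4112,4096,1,1,256,4112,256] 0 (.lc 3 13 .stop))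
 (.lc 2 10 (.lc 3 10 .stop))))))
 (.lc 2 2 (.lc 2 2 (.lc 3 0 (.lc 3 0 (.lc 4 0 .stop)))))))))))))))
 (.lc 2 8 (.node [169] 9 8 (.far [1,0,0,257,4112,256] 0 (.far [257,16,16,1] 0 (.node [130,155,169] 10 9 (.far [16,257,16,16,1] 0 (.lc 3 12 (.lc 1 8 (.lc 3 12 (.lc 4 13 .stop)))))
 (.lc 2 2 (.lc 2 2 (.lc 3 1 (.conf [130,171,184] (.conf [156,203] (.lc 2 2 (.lc 3 1 (.lc 3 1 (.lc 4 1 (.lc 3 2 .stop)))))))))))))
 (.lc 2 8 (.lc 3 8 .stop)))))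
 (.node [152] 9 8 (.far [1,0,257,4112,256] 0 (.node [130,154] 9 10 (.far [257,257,272,1,0,0,16,4096] 4097 (.lc 2 8 (.lc 2 8 (.node [186] 10 8 (.far [1,0,1,0,257,4112,256] 0 (.lc 3 12 .stop))
 (.lc 2 8 (.lc 3 8 .stop))))))
 (.lc 2 2 (.lc 3 0 (.lc 3 0 (.conf [155,186] (.lc 2 2 (.lc 3 0 (.lc 3 0 (.lc 4 0 .stop))))))))))
 (.far [4112,4096,0,4112,1,257,256] 4097 (.far [257,256,0,257,16,4112,4096] 0 (.far [257,256,0,257,16,4112,4096] 0 (.node [152,169] 9 8 (.far [1,0,257,4112,256] 0 (.node [130,155] 10 9 (.far [16,257,272,1,0,0,16,4096] 4097 (.lc 3 12 (.lc 1 8 (.lc 3 12 (.lc 4 13 .stop)))))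
 (.lc 2 2 (.lc 3 7 (.conf [156,203] (.lc 2 2 (.lc 3 7 (.lc 3 7 (.lc 4 7 (.lc 3 2 .stop))))))))))
 .stop))))))
 (.node [121,144,104] 0 6 (.far [1,1,0,4112,0,1,256] 0 (.node [130,168,96] 10 8 (.node [162] 2 0 .stop
 (.lc 3 11 .stop))
 (.lc 1 2 .stop)))
 (.far [257,0,0,4112,4096,0,4096,0,0,257] 4096 (.far [1,0,4112,0,1,256] 0 (.far [1,0,4112,0,1,256] 0 (.node [112,104] 7 0 (.node [] 9 6 (.far [1,0,1,0,4112,0,1,256] 0 (.lc 3 10 (.node [130,168,100] 10 8 (.node [162] 10 2 .stop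
 (.lc 3 11 .stop))
 (.lc 3 10 (.lc 4 11 .stop)))))
 .stop)
 (.node [122,169,104] 7 10 (.node [169] 9 6 (.far [1,0,1,0,4112,0,1,256] 0 (.lc 3 0 (.lc 3 11 (.node [130,100] 0 8 (.far [513,1,4112,1,257,4096,8208,4096,0,8192,0,0,514] 8192 .stop)
 (.node [130,184,100] 11 8 (.node [178] 11 2 (.far [2,513,1,4112,1,257,4096,8208,4096,0,8192,0,0,514] 8192 (.lc 3 2 (.conf [188,192] (.lc 0 0 (.lc 0 12 .stop)))))
 (.lc 3 0 (.far [16,16,257,16,257,258,16,4128,8192] 17 (.lc 3 0 (.lc 3 12 (.lc 4 12 .stop))))))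
 (.lc 3 0 (.lc 3 11 (.lc 4 11 (.lc 4 0 (.lc 4 12 .stop))))))))))
 (.lc 2 9 (.node [169] 9 6 (.far [1,0,1,0,4112,0,1,256] 0 (.lc 3 11 (.node [130,184,100] 11 8 (.far [1,1,4112,1,4112,4128,1,258,512] 4097 (.lc 3 0 (.lc 3 12 .stop)))
 (.lc 3 11 (.lc 4 12 .stop)))))
 (.lc 2 9 (.lc 2 9 (.lc 3 9 .stop))))))
 (.lc 4 1 (.conf [100,121,144] (.node [100,112,130,152] 7 0 (.far [257,256,0,257,16,4112,4096] 0 .stop)
 (.conf [100,122,169] (.node [122,169,104,144] 0 6 .stop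
 (.conf [121,130,100] (.conf [112,130,100] (.conf [122,130,100] (.conf [122,150,104] (.conf [112,150,104] (.conf [123,150,104] (.node [100,121,130,144] 0 8 (.far [1,1,4112,16,0,1,256] 0 .stop)
 (.lc 2 2 (.conf [100,130,152] (.conf [100,130,152] (.node [100,121,130,144] 0 8 (.far [1,1,4112,16,0,1,256] 0 .stop)
 (.node [100,112,130,152] 7 0 (.node [] 9 8 (.far [1,0,1,4112,16,0,1,256] 0 (.far [1,0,1,4112,16,0,1,256] 0 .stop))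
 .stop)
 (.conf [130,152,169] (.node [100,121,130,144] 0 8 (.far [256,0,257,1,4112,4112,4096,4096,0,0,257] 4096 .stop)
 (.node [100,112,130,152] 7 0 (.far [257,256,0,257,16,4112,4096] 0 .stop)
 (.conf [122,152,169] (.node [100,122,130,169,144] 0 8 (.far [256,0,257,1,4112,4112,4096,4096,0,0,257] 4096 .stop)
 (.node [100,122,130,152,160] 9 8 (.node [146] 2 0 .stop
 (.lc 3 11 .stop))
 (.node [100,112,130,152,169] 7 0 (.node [] 9 8 (.node [146] 9 2 .stop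
 (.lc 3 11 .stop))
 .stop)
 (.node [100,123,130,152,169] 9 8 (.node [146] 7 11 (.node [186] 9 2 (.far [1,0,256,0,257,1,4112,4112,4096,4096,0,0,257] 4096 (.lc 3 2 (.conf [156,192] (.lc 3 2 (.lc 4 2 .stop)))))
 (.lc 2 10 (.node [186] 9 2 (.far [1,4112,257,4096,0,4112,1,257,256] 256 (.lc 3 2 .stop))
 (.lc 2 10 (.lc 2 10 (.lc 3 10 .stop))))))
 (.lc 3 0 (.node [144] 7 11 (.node [186] 1 11 (.node [186] 11 10 .stop
 (.lc 1 9 .stop))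
 (.lc 2 10 (.lc 2 10 .stop)))
 (.lc 3 0 (.lc 3 12 (.lc 4 12 .stop))))))
 .stop))))))))))))))))))))))))))))))))))))))))))))))))))))))
 (.far [257,1,4112,4112,4096,4096,0,0,257] 4096 (.node [32,114,118,135,66,114] 7 2 .stop
 (.node [32,137,146,66,104] 9 2 (.far [1,257,1,4112,4112,4096,4096,0,0,257] 4096 (.lc 3 7 (.lc 3 10 (.node [160] 6 8 (.lc 2 4 (.node [137,160,168] 10 8 (.lc 0 2 .stop)
 (.node [107,137] 8 9 (.node [154] 7 6 (.node [185] 11 9 (.lc 2 6 (.far [1,0,4096,1,4112,4112,256] 0 (.node [154,188,160] 9 10 (.far [4112,1,0,4096,1,4112,4112,256] 0 (.lc 2 0 (.lc 0 13 (.lc 2 0 (.lc 3 0 .stop)))))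
 (.lc 2 2 (.lc 3 6 (.lc 3 6 (.conf [160,188,202] (.conf [154,201] (.lc 2 2 (.lc 2 2 (.lc 2 2 (.lc 3 6 (.lc 3 2 (.lc 3 2 (.lc 3 2 .stop)))))))))))))))
 (.conf [122,171,185] (.conf [124,185,203] (.far [16,0,257,0,0,257,0,16,4096] 0 (.far [1,0,4112,0,0,4112,0,1,256] 0 (.conf [125,185,100] .stop))))))
 (.lc 2 10 (.lc 2 10 (.lc 2 2 (.lc 0 12 (.lc 2 10 (.lc 3 10 .stop)))))))
 (.lc 3 4 (.lc 1 2 (.conf [154,185] (.lc 3 4 (.lc 3 4 (.conf [137,184] (.lc 3 4 (.lc 1 10 (.lc 3 4 (.lc 3 4 (.lc 3 4 (.lc 4 4 (.lc 2 10 (.lc 4 4 (.lc 4 4 (.lc 4 4 (.lc 4 4 (.lc 4 4 (.lc 5 4 .stop))))))))))))))))))))))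
 (.lc 3 10 (.lc 4 11 .stop))))))
 (.far [16,16,0,0,16,0,16,4096] 17 (.far [16,16,0,0,16,0,16,4096] 0 (.far [1,1,0,0,1,0,1,256] 0 (.far [1,1,0,0,1,0,1,256] 0 (.node [137,144,66,104] 6 8 (.lc 2 4 (.node [106,137,144] 8 9 (.far [4112,1,4096,257,0,0,1,0,1,256] 0 (.lc 2 0 (.lc 2 0 (.lc 0 11 (.lc 2 0 (.lc 3 0 .stop))))))
 (.lc 3 4 (.conf [132,144] (.lc 3 4 (.lc 3 4 (.conf [137,168] (.lc 3 4 (.node [132,144,106] 6 10 (.far [257,257,0,257,0,16,4096] 0 (.lc 2 9 (.node [123,186,100] 10 9 (.far [1,0,1,4112,256] 17 (.lc 3 1 (.lc 3 12 .stop)))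
 (.lc 2 9 (.lc 3 9 .stop)))))
 (.lc 3 4 (.lc 3 4 (.lc 4 4 (.conf [132,186,107] (.lc 4 4 (.lc 4 4 (.lc 4 4 (.lc 4 4 (.lc 5 4 .stop))))))))))))))))))
 (.node [32,138,146,169,66,138,146,104] 9 2 (.node [144] 6 8 (.node [96,138] 0 8 .stop
 (.lc 2 4 (.node [107,138] 8 10 (.far [4112,1,0,4096,257,0,0,1,0,1,256] 0 (.lc 2 9 (.lc 2 9 (.lc 2 9 (.lc 0 12 (.lc 2 9 (.lc 3 9 .stop)))))))
 (.lc 3 4 (.lc 2 4 (.lc 3 4 (.lc 3 4 (.conf [138,184] (.lc 2 4 (.lc 3 4 (.lc 2 4 (.lc 3 4 (.lc 3 4 (.lc 3 4 (.lc 4 4 (.lc 3 4 (.lc 4 4 (.lc 4 4 (.lc 4 4 (.lc 4 4 (.lc 4 4 (.lc 5 4 .stop))))))))))))))))))))))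
 (.lc 3 7 (.lc 3 11 (.conf [155,176] (.lc 3 11 (.lc 4 12 .stop))))))
 .stop))))))))))
 (.far [1,4112,4112,4096,4096,0,0,257] 4096 (.lc 3 4 (.conf [66,104,130] (.node [97,23,66] 6 1 (.lc 0 1 .stop)
 (.node [104,128,118,66] 0 4 (.far [256,0,0,0,0,0,0,1,1] 4096 .stop)
 (.far [257,4112,4112,4096,4096,0,0,257] 4096 (.node [104,130,118,66,49,23] 7 6 (.node [130] 8 2 (.far [1,0,257,4112,4112,4096,4096,0,0,257] 4096 (.lc 3 9 (.node [144] 7 8 (.lc 2 1 (.far [1,4112,257,4112,0,1,256] 0 (.node [122,137,144] 8 9 (.far [4112,1,4112,257,4112,0,1,256] 0 (.lc 2 0 (.lc 0 11 (.lc 2 0 (.lc 3 0 .stop)))))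
 (.lc 2 2 (.lc 3 1 (.lc 3 1 (.conf [122,144,169] (.conf [137,168] (.lc 3 1 (.lc 2 2 (.lc 3 1 (.lc 3 2 (.lc 4 1 .stop)))))))))))))
 (.lc 3 9 (.lc 4 10 .stop)))))
 (.lc 3 0 (.lc 3 9 (.far [16,256,0,16,4112,0,16,4096] 0 (.far [16,256,0,16,4112,0,16,4096] 0 (.lc 3 0 (.lc 3 9 (.lc 4 9 (.lc 4 0 (.lc 4 10 .stop))))))))))
 (.conf [96,132,66] (.conf [105,132,152] (.lc 3 4 (.node [66,128,104] 0 4 (.far [16,16,0,0,16,0,16,4096] 0 .stop)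
 (.far [16,0,0,16,0,16,4096] 17 (.lc 3 4 (.conf [130,104,66,49,81] (.node [66,132,66,96] 8 4 (.far [16,16,0,0,16,0,16,4096] 0 (.lc 3 7 (.lc 3 9 (.conf [32,137,146] (.lc 3 9 (.lc 4 10 .stop))))))
 (.lc 3 4 (.node [66,132,152,66,105] 8 4 (.far [16,16,0,0,16,0,16,4096] 0 (.lc 3 0 (.lc 3 7 (.lc 3 10 (.far [16,16,0,0,16,0,16,4096] 17 (.conf [32,138,162] (.lc 3 0 (.lc 3 10 (.lc 4 10 (.lc 4 11 .stop))))))))))
 (.conf [66,49,32] (.lc 3 4 (.conf [66,49,32] (.far [257,4112,4112,4096,4096,0,0,257] 4096 (.conf [66,49,32] (.node [104,128,118,66] 0 4 (.far [1,1,0,0,1,0,1,256] 0 .stop)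
 (.far [1,0,0,1,0,1,256] 0 (.far [1,0,0,1,0,1,256] 0 (.node [96,118,66] 6 0 .stop
 (.node [105,152,118,66] 6 9 (.node [152] 8 4 (.far [1,0,1,0,0,1,0,1,256] 0 (.lc 3 0 (.lc 3 10 (.far [1,4112,1,8224,8208,4096,8192,0,16,513] 4096 (.node [32,162] 10 2 (.far [1,1,4112,1,8224,8208,4096,8192,0,16,513] 4096 (.lc 3 11 (.node [171,176,171] 7 9 (.lc 2 1 (.lc 0 0 (.node [124,152] 9 8 (.node [138] 7 12 (.node [200] 1 12 (.node [12] 12 8 .stop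
 (.lc 0 1 .stop))
 (.conf [12,200] (.far [257,0,257,0,0,4096,0,16,4096] 0 (.lc 1 1 .stop))))
 (.lc 2 10 (.lc 2 10 (.lc 0 13 (.lc 2 10 (.lc 3 10 .stop))))))
 (.lc 2 6 (.lc 3 1 (.conf [152,201] (.lc 3 1 (.lc 1 10 (.lc 1 10 (.lc 3 1 (.lc 3 1 (.lc 2 10 (.lc 1 1 (.lc 4 1 (.lc 4 1 (.lc 1 1 .stop))))))))))))))))
 (.lc 3 11 (.lc 4 12 .stop)))))
 (.lc 3 0 (.lc 3 10 (.lc 4 10 (.lc 4 11 .stop)))))))))
 (.lc 0 0 (.lc 0 2 (.lc 0 10 (.lc 0 0 (.lc 0 10 (.lc 2 8 (.lc 2 8 (.lc 0 10 (.lc 0 0 (.lc 0 0 (.lc 0 11 .stop))))))))))))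
 (.lc 4 4 (.conf [66,104,128] (.lc 4 4 (.conf [66,105,152] (.node [105,152,118,66,128] 0 4 (.far [256,0,0,0,0,0,0,1,1] 4096 .stop)
 (.node [104,128,118,66,49,23] 6 8 (.far [4112,4096,0,1,257,0,1,256] 0 (.lc 0 9 (.lc 0 9 (.lc 2 0 (.lc 0 10 .stop)))))
 (.node [105,152,118,66,130,49,23] 6 9 (.far [4112,4096,0,1,257,0,1,256] 0 (.lc 0 0 (.lc 0 10 (.lc 0 0 (.lc 0 10 (.lc 2 8 (.lc 2 8 (.lc 0 10 (.lc 0 0 (.lc 0 11 .stop))))))))))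
 (.conf [105,132,66] (.conf [96,132,66] (.conf [106,132,66] (.far [1,4112,4112,4096,4096,0,0,257] 4096 (.conf [66,130,32] (.conf [66,49,32] (.conf [66,49,32] (.conf [66,49,32] (.conf [105,130,152] (.conf [66,49,32] (.conf [66,49,32] .stop)))))))))))))))))))))))))))))))))))))))))))))))))
 (.node [118,100,81] 7 6 (.node [100,114] 7 2 (.far [4096,0,4096,0,0,4096,0,0,257] 4096 .stop)
 (.lc 1 4 (.node [100,120] 7 8 (.node [] 6 4 (.node [98] 8 6 (.node [130] 8 2 (.far [4096,0,0,4096,0,4096,0,0,4096,0,0,257] 4096 .stop)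
 (.lc 3 0 (.far [1,4112,0,1,0,1,256] 0 .stop)))
 (.lc 2 4 (.node [66,105] 8 6 (.node [137] 9 4 (.node [] 8 9 (.conf [9,128] (.node [130] 8 2 (.far [4096,0,0,0,0,4096,0,4096,0,0,4096,0,0,257] 4096 .stop)
 (.node [138,146] 9 2 (.node [] 8 10 (.node [10] 10 2 (.far [4096,4096,0,0,0,0,0,4096,0,4096,0,0,4096,0,0,257] 4096 .stop)
 (.far [257,0,257,0,257,0,16,4096] 0 .stop))
 (.far [4096,1,0,257,0,4112,4096,4096,0,0,4096,0,0,257] 4096 (.far [4112,1,4112,256,256] 0 .stop)))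
 (.conf [1,128] (.conf [146,162,32] (.far [1,4112,256,256,4096,0,4096,0,0,4096,0,0,257] 4096 (.conf [10,128] (.conf [1,128] (.node [139,169,186,139,146] 10 9 (.far [16,16,257,4096,4096] 0 (.lc 3 0 (.lc 3 12 .stop)))
 (.conf [128,146] (.far [257,0,257,0,0,1,16,4096] 256 (.conf [1,128] .stop))))))))))))
 (.far [257,1,4096,4112,4096,4096,0,0,4096,0,0,257] 4096 (.node [32,154,162,66] 8 9 (.node [138,162] 8 10 (.node [10] 10 2 (.far [4096,4096,0,0,0,0,4096,0,4096,0,0,4096,0,0,257] 4096 .stop)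
 (.lc 2 2 .stop))
 (.lc 3 0 (.far [16,256,4096,4112,0,0,0,0,16,0,16,4096] 0 .stop)))
 (.far [16,0,16,0,0,0,0,16,0,16,4096] 0 (.far [1,0,1,0,0,0,0,1,0,1,256] 0 (.node [32,155,186,66,162] 8 9 (.far [1,4096,256,257,0,0,0,0,1,0,1,256] 0 (.lc 3 0 (.lc 1 10 .stop)))
 .stop))))))
 (.conf [130,148,100] (.conf [138,148,169] (.far [16,257,0,16,0,16,4096] 0 (.far [1,4112,0,1,0,1,256] 0 (.conf [139,148,100] .stop))))))
 (.lc 3 4 (.conf [66,105,146] (.node [100,130,66,49] 8 2 (.far [4096,0,4096,0,4096,0,0,4096,0,0,257] 4096 .stop)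
 (.conf [100,137,148] (.lc 3 4 (.conf [146,105,66,49,81] (.lc 3 4 (.node [66,148,169,66,106,134] 8 6 (.far [1,4112,0,1,0,1,256] 0 (.lc 3 2 (.lc 3 11 (.lc 1 9 (.lc 3 11 (.lc 4 12 .stop))))))
 (.conf [66,49,32] (.lc 3 4 (.conf [66,49,32] (.conf [66,49,32] (.far [1,0,0,0,0,1,0,1,256] 0 (.node [100,137,66] 9 4 (.far [1,1,0,0,0,0,1,0,1,256] 0 (.lc 3 0 (.lc 3 10 (.node [32,162] 8 9 (.node [154] 10 2 .stop
 (.lc 2 10 .stop))
 (.lc 3 10 (.lc 4 11 .stop))))))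
 (.lc 4 4 (.conf [66,106,169] (.far [4096,0,1,0,1,257,0,1,256] 0 (.conf [100,148,66] (.conf [66,146,32] (.conf [66,49,32] (.lc 0 0 (.conf [100,137,146] (.conf [66,49,32] .stop))))))))))))))))))))))))))
 (.lc 2 6 (.lc 2 6 (.far [4112,4112,4096,16,4112,1,256] 17 (.far [4112,4112,4096,16,4112,1,256] 0 (.lc 2 6 (.lc 2 6 (.lc 3 6 (.lc 3 6 .stop)))))))))
 (.lc 2 4 (.lc 2 4 (.conf [1,112] (.conf [112,134,100] (.lc 2 4 (.conf [121,152] (.lc 2 4 (.lc 2 4 (.lc 2 4 (.lc 2 4 (.far [257,0,1,257,4112,4096,0,257] 4096 (.lc 2 4 (.node [112,100] 8 6 (.node [100] 2 6 (.far [1,1,1,0,1,256] 0 .stop)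
 (.lc 1 4 (.node [100] 6 4 (.far [4112,1,1,0,1,256] 0 (.conf [66,100,146] (.conf [146,100,66,49,81] (.far [4112,1,1,0,1,256] 0 (.conf [66,49,32] (.conf [66,100,154] .stop))))))
 (.lc 2 4 (.lc 2 4 (.lc 2 4 (.lc 3 2 (.lc 3 10 (.lc 2 4 (.node [100,150,169,100,66] 6 4 (.node [66,148] 9 4 (.node [146,169] 10 9 (.node [162] 10 2 .stop
 (.lc 3 11 .stop))
 (.conf [148,162] (.conf [155,178] (.far [1,1,0,0,0,0,1,0,1,256] 0 (.conf [32,171,178] .stop)))))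
 (.lc 2 2 (.lc 0 2 (.lc 0 11 (.lc 2 2 (.lc 3 2 .stop))))))
 (.lc 2 4 (.lc 2 4 (.lc 2 4 (.lc 3 9 (.lc 2 4 (.lc 2 4 (.lc 3 10 (.lc 3 4 (.lc 3 4 (.lc 4 11 (.lc 3 4 (.lc 3 4 (.lc 3 4 (.lc 3 4 (.lc 4 4 .stop)))))))))))))))))))))))))
 (.lc 3 4 (.lc 3 4 (.conf [112,134,100] (.conf [112,134,100] (.lc 3 4 (.lc 3 4 (.lc 3 4 (.lc 3 4 (.lc 3 4 (.lc 3 4 (.lc 4 4 (.lc 4 4 .stop))))))))))))))))))))))))))))
 (.node [24,118,135,100,81] 1 8 (.node [] 8 7 (.lc 2 0 (.node [118,130] 2 7 .stop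
 (.node [118,137] 7 6 (.node [100] 8 9 (.node [128,150] 9 6 (.lc 2 0 (.node [100,146] 2 6 (.node [] 9 2 (.far [4096,0,0,1,0,257,0,4096,0,0,4096,0,0,257] 4096 .stop)
 .stop)
 (.lc 1 4 (.node [100,154] 6 4 (.node [66] 9 10 (.node [10] 10 4 (.node [162] 10 2 (.far [4096,0,4096,0,0,1,0,257,0,4096,0,0,4096,0,0,257] 4096 .stop)
 (.far [257,4112,4096,4096,1,0,257,0,4096,0,0,4096,0,0,257] 4096 (.far [16,0,16,0,0,0,0,0,0,0,16,0,16,4096] 0 .stop)))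
 (.far [1,0,257,0,4096,1,0,4096,0,0,4096,0,0,257] 4096 (.far [4112,0,4112,1,256,256] 17 (.far [257,0,257,16,4096,4096] 0 (.far [257,0,257,16,4096,4096] 0 (.node [164,186,43,144] 10 4 .stop
 .stop))))))
 (.conf [66,100,162] (.conf [162,100,66,49,81] (.far [4112,1,0,1,0,0,0,1,256] 0 (.conf [66,49,32] (.conf [66,100,171] .stop))))))
 (.node [100,146,66,49] 9 2 (.far [4096,0,1,0,257,0,4096,0,0,4096,0,0,257] 4096 .stop)
 (.conf [100,154,164] (.far [257,0,4096,1,0,4096,0,0,4096,0,0,257] 4096 (.conf [10,144] (.lc 3 0 (.lc 2 4 (.node [100,166,186,100,155,66] 6 4 (.far [257,16,0,16,0,0,0,16,4096] 0 (.lc 2 2 (.lc 0 2 (.lc 0 12 (.lc 2 2 (.lc 3 2 .stop))))))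
 (.conf [66,49,32] (.conf [4,144] (.conf [1,144] (.lc 4 0 (.conf [100,154,162] (.lc 3 4 (.conf [1,144] (.conf [1,144] (.conf [1,144] (.conf [66,49,32] .stop)))))))))))))))))))))
 (.node [130,150] 8 2 (.far [1,257,0,257,0,4096,0,0,4096,0,0,257] 4096 .stop)
 (.lc 1 6 (.node [138,150] 8 10 (.node [] 9 6 (.node [100,146] 2 6 (.node [] 9 2 .stop
 .stop)
 (.lc 1 4 (.lc 2 6 (.node [100,155] 6 4 (.node [66] 10 9 (.node [] 11 4 (.node [178] 10 11 (.node [162] 10 2 (.far [1,257,0,257,0,0,0,1,0,257,0,4096,0,0,4096,0,0,257] 4096 .stop)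
 (.far [257,0,257,0,0,0,1,0,257,0,4096,0,0,4096,0,0,257] 4096 (.far [16,257,4096,4096,4096] 17 (.far [1,4112,256,256,256] 0 .stop))))
 (.node [32,180,66,162] 10 2 (.far [1,257,1,4096,4096,0,1,0,257,0,4096,0,0,4096,0,0,257] 4096 .stop)
 (.far [16,0,16,0,0,0,0,0,0,0,0,16,0,16,4096] 0 (.far [4112,16,256,256,1,256] 17 .stop))))
 (.conf [162,180,150] (.conf [172,180,203] (.far [16,0,257,0,16,4096,4096] 0 (.far [1,0,4112,0,1,256,256] 0 (.conf [173,180,150] .stop))))))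
 (.conf [66,100,178] (.conf [178,100,66,49,81] (.far [4112,1,0,0,1,0,0,0,1,256] 0 (.conf [66,49,32] (.conf [66,100,188] .stop))))))
 (.node [100,146,66,49] 9 2 .stop
 (.lc 3 6 (.conf [100,155,180] (.conf [150,171,182] (.lc 2 4 (.lc 3 6 (.node [100,182,203,100,156,66,169] 6 4 (.far [257,16,0,0,16,0,0,0,16,4096] 0 (.lc 2 2 (.lc 0 2 (.lc 0 13 (.lc 2 2 (.lc 3 2 .stop))))))
 (.conf [66,49,32] (.node [100,150,164,66] 10 4 (.far [1,257,0,0,0,0,0,0,0,1,0,1,256] 0 (.lc 3 0 (.far [257,1,16,4096,4096,1,0,4096,0,0,4096,0,0,257] 4096 (.node [32,171,178,171] 10 11 (.node [178] 11 2 .stop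
 (.lc 2 2 .stop))
 (.lc 3 0 .stop)))))
 (.node [150,162,100] 2 6 (.far [1,1,0,0,1,0,0,0,1,256] 0 .stop)
 (.lc 2 4 (.node [150,171,182] 11 6 (.far [1,1,0,0,1,0,0,0,1,256] 0 (.lc 3 2 (.conf [66,49,32] (.lc 3 2 (.lc 3 12 (.lc 4 12 .stop))))))
 (.lc 4 6 (.conf [100,155,178] (.lc 3 4 (.conf [150,182,100] (.far [4096,0,1,257,256,0,0,1,256] 0 (.conf [100,180,66] (.conf [66,162,32] (.conf [66,49,32] (.conf [66,49,32] .stop)))))))))))))))))))))))))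
 (.far [1,257,0,257,0,4096,0,0,4096,0,0,257] 4096 (.node [169,186,128] 10 9 (.node [150,162,186] 10 2 .stop
 (.lc 1 6 (.node [150,172,186] 11 10 (.node [188] 9 6 (.node [100] 12 6 (.node [66] 12 4 (.lc 0 2 .stop)
 (.conf [66,49,32] (.lc 0 4 (.lc 0 2 .stop))))
 (.conf [100,150,196] (.far [4112,0,1,0,1,256,256] 0 (.conf [100,150,194] .stop))))
 (.lc 1 9 (.lc 1 9 (.lc 1 9 (.far [1,4112,4096,16,4112,4096,1,1,256] 0 (.lc 2 9 .stop))))))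
 (.lc 2 6 (.conf [168,201,150] (.conf [173,220] (.lc 2 6 (.lc 2 6 (.conf [168,178] (.lc 2 6 (.conf [168,188] (.lc 3 6 (.conf [168,189] (.lc 3 6 (.lc 3 6 (.lc 4 6 .stop))))))))))))))))
 (.far [4112,4112,4112,4096,1,1,256] 17 (.far [4112,4112,4112,4096,1,1,256] 0 (.far [257,257,257,256,16,16,4096] 0 (.far [257,257,257,256,16,16,4096] 0 (.node [169,186,43,128] 4 2 (.far [1,16,4112,4112,4096,0,0,16,4112,0,16,4096] 17 (.lc 3 2 (.lc 1 10 .stop)))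
 (.node [169,186,203,128] 10 9 (.node [150,162,186,203] 10 2 .stop
 (.lc 1 6 (.node [150,173,186,203] 11 10 (.far [16,257,256,1,257,256,16,16,4096] 0 (.lc 3 2 (.lc 3 14 (.lc 1 9 (.lc 3 14 (.lc 4 15 .stop))))))
 (.lc 2 6 (.conf [168,189] (.conf [174,237] (.lc 2 6 (.lc 2 6 (.node [168,178,203,150] 2 9 (.conf [66,49,32] .stop)
 (.lc 2 6 (.node [168,189,203,150] 12 11 (.conf [205,217] (.lc 3 2 (.lc 3 14 (.lc 1 9 (.lc 3 14 (.lc 4 15 .stop))))))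
 (.lc 3 6 (.conf [168,217,150] (.lc 3 6 (.lc 3 6 (.lc 4 6 .stop))))))))))))))))
 .stop)))))))))
 (.lc 2 6 (.lc 2 6 (.lc 2 6 (.lc 2 6 (.lc 2 6 (.lc 3 0 (.lc 3 0 (.far [4112,4112,4096,1,1,256] 17 (.far [4112,4112,4096,1,1,256] 0 (.node [150,169,186,139] 8 11 (.far [4112,4112,4112,4096,1,1,256] 0 (.lc 2 10 (.lc 2 10 (.far [4112,4112,4112,4096,1,1,256] 17 (.far [4112,4112,4112,4096,1,1,256] 0 (.lc 2 10 (.lc 2 10 (.lc 3 10 (.lc 3 10 .stop)))))))))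
 (.lc 2 6 (.lc 2 6 (.lc 2 6 (.lc 2 6 (.lc 3 0 (.lc 3 0 (.lc 3 0 (.lc 3 0 (.lc 3 0 (.lc 3 6 (.lc 3 6 (.lc 3 6 (.lc 4 0 (.lc 4 0 (.lc 4 0 (.lc 4 0 (.lc 4 0 (.lc 4 0 (.lc 4 0 (.lc 4 0 (.lc 4 0 (.lc 5 0 (.lc 5 0 .stop)))))))))))))))))))))))))))))))))))))
 (.lc 2 4 (.lc 2 4 (.lc 2 4 (.lc 0 10 (.lc 2 4 (.lc 3 4 (.lc 3 4 .stop))))))))
 (.lc 3 0 (.conf [137,150] (.conf [118,151] (.conf [118,151] (.lc 3 0 (.lc 3 0 (.conf [118,151] (.lc 1 4 (.lc 1 4 (.lc 1 4 (.conf [117,130] (.lc 1 4 (.conf [117,137] (.node [118,137,146] 2 7 .stop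
 (.node [32,71,118,130] 4 7 (.lc 0 4 .stop)
 (.node [118,138,169] 8 10 (.node [169] 7 6 (.far [4112,4112,1,1,1,256] 0 (.lc 2 4 (.lc 2 4 (.lc 0 11 (.lc 2 4 (.lc 3 4 .stop))))))
 (.lc 2 9 (.lc 2 9 (.lc 2 9 (.node [169] 2 10 (.node [74,169] 4 10 (.far [4112,16,256,0,16,16,4112,4096] 0 .stop)
 (.conf [106,169] (.lc 2 2 (.lc 3 2 .stop))))
 (.conf [169,186] (.lc 2 9 (.lc 2 9 (.lc 3 9 (.lc 3 9 .stop))))))))))
 (.lc 2 4 (.lc 2 4 (.lc 2 4 (.conf [118,151] (.lc 2 4 (.conf [117,138] (.lc 2 4 (.lc 2 4 (.lc 2 4 (.lc 2 4 (.lc 3 4 .stop))))))))))))))))))))))))))))))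
 (.lc 2 7 (.lc 2 7 (.node [152] 8 7 (.node [118,130] 2 7 .stop
 (.lc 2 1 (.node [118,138] 7 6 (.node [100] 8 10 (.node [130,166,152] 8 2 .stop
 (.lc 1 6 (.far [257,257,256,16,16,4096] 0 (.node [139,166,152] 9 8 (.far [16,257,257,256,16,16,4096] 0 (.lc 3 2 (.lc 3 12 (.lc 1 10 (.lc 3 12 (.lc 4 13 .stop))))))
 (.lc 2 6 (.lc 2 6 (.lc 2 6 (.lc 2 6 (.lc 2 6 (.lc 3 1 (.conf [155,166,186] (.conf [140,203] (.lc 2 6 (.lc 2 6 (.lc 2 6 (.lc 3 1 (.lc 3 1 (.lc 3 1 (.lc 3 1 (.lc 3 1 (.lc 3 6 (.lc 3 6 (.lc 4 1 (.lc 4 1 (.lc 4 1 (.lc 4 1 (.lc 4 1 (.lc 4 1 (.lc 4 1 (.lc 5 1 .stop))))))))))))))))))))))))))))))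
 (.lc 2 4 (.lc 2 4 (.lc 2 4 (.lc 0 11 (.lc 2 4 (.lc 3 4 .stop)))))))
 (.lc 3 1 (.conf [138,166] (.lc 3 2 (.lc 3 11 (.lc 3 1 (.conf [118,167] (.lc 1 4 (.lc 1 4 (.lc 1 4 (.lc 3 2 (.lc 1 4 (.lc 3 10 (.lc 3 10 (.lc 3 2 (.lc 3 11 (.lc 2 4 (.lc 2 4 (.lc 4 12 (.lc 2 4 (.lc 4 11 (.lc 2 4 (.lc 2 4 (.lc 2 4 (.lc 2 4 (.lc 3 4 .stop))))))))))))))))))))))))))))
 (.lc 2 7 (.lc 3 7 .stop))))))
 (.far [4112,4112,4112,1,256] 4097 (.far [4112,4112,4112,1,256] 0 (.far [257,257,257,16,4096] 0 (.far [257,257,257,16,4096] 0 (.node [118,135,100,81] 8 7 (.node [118,130] 2 7 .stop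
 (.node [118,137] 7 6 (.far [257,16,256,1,257,16,4096] 0 (.lc 2 4 (.lc 2 4 (.lc 0 10 (.lc 2 4 (.lc 3 4 .stop))))))
 (.conf [117,137] (.conf [118,130] (.conf [118,138] (.conf [118,151] (.lc 1 4 (.lc 1 4 (.node [117,130,100] 8 2 (.far [257,256,16,4096] 4097 .stop)
 (.lc 1 4 (.node [117,137,100] 8 9 (.far [257,256,16,4096] 4097 (.lc 2 6 (.node [150] 2 9 (.far [4112,16,4096,0,16,4112,0,16,4096] 17 (.lc 1 4 (.lc 2 6 .stop)))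
 (.lc 2 6 (.lc 2 6 (.lc 3 6 .stop))))))
 (.conf [118,137] (.conf [118,130] (.conf [118,138] (.lc 2 4 (.conf [118,139] (.lc 2 4 (.conf [117,150,100] (.lc 2 4 (.lc 2 4 (.lc 2 4 (.lc 2 4 (.lc 3 4 .stop)))))))))))))))))))))))
 (.node [25,118,135,152,100,81,135,118] 1 9 (.node [152] 9 8 (.node [135,146] 9 2 (.far [16,4112,4112,16,4112,4112,257,256,0,4112] 1 .stop)
 (.node [135,150] 9 6 .stop
 (.node [135,154] 9 10 (.far [4112,4112,8208,16,4112,4112,257,256,0,4112] 257 (.lc 2 8 (.lc 2 8 (.lc 2 8 (.far [4112,4112,4096,256,0,0,256,0,0,4112] 1 (.far [4112,4112,8208,16,4112,4112,257,256,0,4112] 257 (.lc 2 8 (.lc 2 8 (.lc 3 8 (.lc 3 8 .stop))))))))))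
 (.lc 2 7 (.lc 2 7 (.lc 2 7 (.lc 2 7 (.lc 3 0 (.lc 3 0 (.conf [135,168] (.lc 2 7 (.lc 2 7 (.lc 2 7 (.lc 2 7 (.lc 2 7 (.lc 2 7 (.lc 2 7 (.lc 3 0 (.lc 3 0 (.lc 3 0 (.lc 3 7 (.lc 3 7 (.lc 4 0 (.lc 4 0 (.lc 3 7 (.lc 3 7 (.lc 3 7 (.lc 3 7 (.lc 3 7 (.lc 3 7 (.lc 3 7 (.lc 3 7 (.lc 3 7 (.lc 3 7 (.lc 3 7 (.lc 4 7 (.lc 4 7 (.lc 4 7 .stop))))))))))))))))))))))))))))))))))))))
 (.lc 2 8 (.lc 2 8 (.conf [152,169] (.lc 2 8 (.lc 3 8 .stop))))))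
 .stop)))))))))

theorem t5 : kNode2 awTt FTt 5 7 (check tyTt awTt triet FTt [] c5) (fun _ _ _ => true) 0 s5 Pl.nil s5 =
    true := by
  decide +kernel

end Chk
end Pool.Agent.Lib.MP_ba95e8_co
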