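import Pool.Agent.Lib.MP_ba95e8_co.ChkTab
import Pool.Agent.Lib.MP_ba95e8_co.ChkStates

/-!
Deltahedral domes: part 6 of the case analysis.
-/

namespace Pool.Agent.Lib.MP_ba95e8_co
namespace Chk

/-- certificate number 6 -/
def c6 : Cert := (.node [] 0 5 (.far [257,1,4112,4096,0,0,257] 4096 (.node [] 0 4 (.far [257,257,1,4112,4096,0,0,257] 4096 (.node [66,100] 6 4 .stop
 .stop))
 (.node [84] 5 4 (.node [] 6 0 (.node [] 7 4 (.node [] 7 2 (.far [4096,0,4112,0,257,4096,4096,0,0,0,257] 4096 (.node [120] 0 7 .stop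
 (.node [121,152,121,130] 7 9 .stop
 .stop)))
 (.node [66] 8 4 (.node [] 7 8 (.lc 1 2 (.node [121] 0 7 .stop
 (.conf [130,152,169] (.lc 2 2 (.node [122,169,122,130,152] 7 10 .stop
 (.node [130,152,122] 9 8 (.node [146] 7 10 .stop
 (.lc 3 11 .stop))
 (.conf [130,186,123] .stop)))))))
 (.node [32,137,146,66,120] 9 2 .stop
 (.far [16,16,0,16,0,0,0,0,16,4096] 0 (.far [1,1,0,1,0,0,0,0,1,256] 0 (.node [32,138,146,169,66,138,146,120] 9 2 .stop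
 .stop)))))
 (.conf [66,120,130] (.node [120,130,66,49] 7 8 .stop
 (.conf [121,132,152] (.far [16,0,16,0,0,0,0,16,4096] 0 (.node [66,132,152,66,121] 8 4 (.far [16,16,0,16,0,0,0,0,16,4096] 0 (.lc 3 10 (.conf [32,138,162] (.lc 3 10 (.lc 4 11 .stop)))))
 (.lc 3 0 (.node [66,120,32] 8 2 .stop
 (.node [66,120,32] 7 8 .stop
 (.far [1,0,1,0,0,0,0,1,256] 0 (.node [121,152,66] 7 9 (.lc 2 8 .stop)
 (.conf [66,121,152] (.node [121,152,66,130,49] 7 9 .stop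
 (.conf [122,132,66] (.conf [66,130,32] (.node [66,121,152,32,130] 7 9 .stop
 (.conf [121,130,152] (.node [66,122,169,32,152,130] 7 10 .stop
 .stop)))))))))))))))))))
 (.node [103] 6 7 (.node [116] 7 4 (.node [66] 1 4 .stop
 .stop)
 (.node [112,66,96] 1 4 .stop
 (.far [4112,4112,0,0,4112,1,256] 0 .stop)))
 (.far [16,0,257,4096] 0 .stop)))
 (.conf [66,80,113] (.conf [66,80,120] (.lc 2 2 (.far [4112,1,1,0,1,256] 0 (.far [257,16,16,0,16,4096] 0 (.conf [66,80,121] .stop)))))))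
 (.lc 1 2 (.conf [80,116,66] (.node [84,117,84,66] 5 4 (.far [257,256,0,4112,4112,4096,0,257] 4096 (.lc 2 2 (.lc 2 2 (.lc 0 8 (.lc 2 2 (.lc 3 2 .stop))))))
 (.far [16,16,0,16,4096] 0 (.node [84,117,39,84] 5 4 (.far [257,16,16,0,16,4096] 0 (.lc 2 2 (.lc 2 2 (.lc 0 8 (.lc 2 2 (.lc 3 2 .stop))))))
 (.node [84,117,135,84,66] 5 4 (.far [257,16,16,0,16,4096] 0 (.lc 2 2 (.lc 2 2 (.lc 2 2 (.lc 0 9 (.lc 2 2 (.lc 3 2 .stop)))))))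
 (.node [66,80,116,96] 7 4 (.node [114] 0 7 (.lc 1 0 (.far [257,0,257,4096] 0 (.lc 2 2 .stop)))
 (.node [120,130] 2 0 .stop
 (.conf [120,130] (.far [1,1,1,0,1,257,256] 0 (.node [121,152,130] 2 0 .stop
 .stop)))))
 (.lc 1 2 (.lc 1 2 (.node [84] 5 4 (.far [4112,1,1,0,1,256] 17 (.conf [66,80,113] (.conf [66,80,120] (.far [4112,1,1,0,1,256] 17 (.node [66,80,132] 4 2 .stop
 (.conf [66,80,121] .stop))))))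
 (.node [66,80,116,135,96,8] 6 0 (.lc 1 8 (.far [16,256,4112,0,16,4096] 0 (.lc 1 7 .stop)))
 (.node [84,117,135,40,84] 5 4 (.node [116] 4 2 (.far [1,4112,4096,0,0,0,16,4096] 17 (.lc 1 7 .stop))
 (.lc 2 2 (.lc 2 2 (.lc 0 9 (.lc 2 2 (.lc 3 2 .stop))))))
 .stop)))))))))))))))
 (.lc 2 1 (.node [] 2 5 (.lc 0 2 .stop)
 (.lc 1 3 (.asm [] 0 (.lc 3 1 (.conf [84,103,112] (.far [1,4112,4096,0,0,257] 4096 (.conf [84,103,114] (.node [84,96,117,66] 6 0 (.node [96] 5 4 (.node [116] 7 4 (.lc 1 2 (.node [66] 8 4 (.node [] 0 7 (.far [257,0,0,0,0,1,4112,4096,0,0,257] 4096 (.lc 2 0 .stop))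
 (.node [32,137,146,66] 9 2 .stop
 (.far [16,16,16,0,0,0,0,16,4096] 0 (.far [1,1,1,0,0,0,0,1,256] 0 (.node [32,138,146,169,66,138,146] 9 2 .stop
 .stop)))))
 (.lc 2 2 (.lc 2 2 (.lc 3 9 (.lc 2 2 (.node [66,132,152,66] 8 4 (.far [16,16,16,0,0,0,0,16,4096] 0 (.lc 3 10 (.conf [32,138,162] (.lc 3 10 (.lc 4 11 .stop)))))
 (.lc 2 2 (.lc 2 2 (.lc 2 2 (.lc 2 2 (.lc 3 9 (.lc 3 2 (.lc 3 2 (.lc 4 10 (.lc 3 2 (.lc 3 2 (.lc 3 2 (.lc 4 2 .stop)))))))))))))))))))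
 (.lc 2 2 (.lc 2 2 (.far [4112,4112,4096,1,257,256] 0 (.lc 2 2 (.lc 3 2 .stop))))))
 .stop)
 (.lc 3 1 (.conf [84,104,135] (.node [103,112,84] 0 5 (.node [84] 6 7 (.far [4112,257,4096,4096,0,0,0,257] 4096 (.node [66,112,71] 1 4 .stop
 (.node [112,135] 1 8 .stop
 (.conf [112,135] (.node [112,135] 5 4 (.lc 1 2 .stop)
 (.node [112,135,152] 1 9 .stop
 .stop))))))
 (.lc 1 2 (.node [84,133,40,84] 5 4 (.far [257,256,0,4112,4112,4096,0,257] 4096 (.lc 2 2 (.lc 2 2 (.lc 0 9 (.lc 2 2 (.lc 3 2 .stop))))))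
 .stop)))
 (.far [257,4112,4096,0,0,257] 4096 (.lc 2 3 (.lc 2 3 (.conf [96,117,84] (.conf [98,117,84] (.conf [104,117,135] (.lc 3 1 (.node [112,103,84] 7 0 (.node [113,103] 6 7 (.node [98,113] 6 2 .stop
 (.node [66,100,113] 6 4 .stop
 (.node [104,113] 7 1 (.far [257,16,272,4112,257,256,0,0,4112] 257 (.lc 0 9 .stop))
 (.conf [71,113] (.conf [113,135] .stop)))))
 (.node [66,116,65] 7 4 .stop
 (.node [120,129] 6 7 (.node [104,129] 1 6 (.lc 0 1 .stop)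
 (.conf [105,152] .stop))
 (.node [120,129,120,103,49,84] 1 6 (.lc 1 7 (.lc 2 7 .stop))
 (.node [120,129] 6 7 (.conf [104,129] (.lc 1 1 .stop))
 (.node [121,129,152,22,129,103] 6 7 (.conf [105,152] (.lc 1 8 .stop))
 .stop))))))
 (.node [] 2 5 (.lc 0 2 .stop)
 (.lc 2 3 (.lc 2 3 (.lc 2 3 (.node [117,84,96] 0 7 (.node [117,84] 7 5 (.node [84,113] 1 5 .stop
 (.far [16,0,16,0,16,4096] 0 (.node [84,120] 2 7 (.node [133] 8 5 (.far [16,0,16,0,16,0,16,4096] 0 (.lc 3 1 (.lc 3 9 (.far [16,0,16,0,16,0,16,4096] 0 (.lc 3 9 (.lc 4 10 .stop))))))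
 (.lc 1 5 (.lc 1 5 (.lc 1 5 (.far [1,4112,0,16,0,16,4112,4096] 0 (.lc 2 5 .stop))))))
 (.conf [120,132] (.conf [84,112] (.conf [66,83] (.conf [84,133] (.node [66,83,113] 1 4 .stop
 (.node [66,83,120] 7 8 (.far [257,257,16,16,0,16,4096] 0 (.lc 2 4 .stop))
 (.lc 1 2 (.lc 1 2 (.conf [121,152] .stop))))))))))))
 (.far [16,16,0,16,4112,4096] 0 (.node [117,135] 7 5 (.node [84,133] 8 5 (.far [16,16,0,16,0,16,4096] 0 (.lc 3 1 (.lc 3 9 (.far [16,16,0,16,0,16,4096] 0 (.lc 3 9 (.lc 4 10 .stop))))))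
 (.lc 2 3 (.conf [66,83] (.conf [84,149] (.lc 2 3 (.lc 3 3 .stop))))))
 (.conf [71,117] (.node [117,135,40,117,84,49,96] 2 8 (.lc 1 7 (.lc 0 9 (.lc 0 9 (.conf [73,135,152] (.lc 0 10 .stop)))))
 (.conf [71,117] (.node [117,135] 7 5 (.conf [84,133] (.lc 2 3 (.lc 0 4 (.lc 0 9 (.lc 2 3 (.lc 3 3 .stop))))))
 (.conf [72,117,135] (.node [117,135,152,41] 7 5 (.conf [84,133] (.lc 2 3 (.lc 0 4 (.lc 0 10 (.lc 2 3 (.lc 3 3 .stop))))))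
 .stop)))))))))
 (.lc 3 1 (.node [117,135,84,104] 6 8 (.node [96,135,117] 6 0 (.far [4112,4112,4112,1,256] 0 .stop)
 (.far [4112,4112,1,256] 0 (.node [98,135,117] 6 2 .stop
 (.node [66,100,135,117] 6 4 .stop
 (.node [105,135,117] 6 9 (.far [4112,4112,4112,1,256] 0 (.lc 2 8 (.lc 2 8 (.lc 2 8 (.far [4112,4112,4112,1,256] 4097 (.far [4112,4112,4112,1,256] 0 (.lc 2 8 (.lc 2 8 (.lc 3 8 (.lc 3 8 .stop))))))))))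
 (.conf [97,135,49,84,117] (.conf [105,135] (.conf [96,135] (.conf [105,135] (.conf [96,135] (.conf [97,135,49,84,117] (.conf [98,135] (.conf [105,135] (.conf [96,135] (.conf [97,135,49,84,117] (.conf [106,135] (.node [97,135,117] 7 5 (.node [84,114] 2 5 (.lc 0 2 .stop)
 (.far [16,0,16,0,16,4096] 0 (.node [84,121] 9 5 (.far [16,16,0,16,0,16,4096] 0 (.lc 3 10 (.far [16,16,0,16,0,16,4096] 0 (.lc 1 2 (.lc 3 10 (.lc 4 11 .stop))))))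
 (.lc 1 2 (.conf [121,148] (.lc 3 0 (.lc 3 9 (.lc 3 2 (.lc 3 10 (.conf [66,83] (.conf [84,149] (.node [66,83,121] 9 4 (.far [16,16,0,16,0,16,4112,4096] 0 (.node [144] 8 7 (.node [121,138] 7 9 (.far [257,16,0,257,0,16,0,16,4096] 0 (.lc 0 11 .stop))
 (.lc 2 5 (.conf [121,167] .stop)))
 (.node [154,162] 10 2 (.node [] 8 7 (.node [121,138,160] 8 10 (.far [4112,4112,0,0,0,8208,4112,1,256] 4097 .stop)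
 (.node [121,139] 7 9 (.far [257,16,0,0,257,0,16,0,16,4096] 0 (.lc 2 4 (.lc 0 12 (.lc 2 4 (.lc 3 4 .stop)))))
 (.lc 2 5 (.lc 3 0 (.conf [121,183] (.lc 2 5 (.lc 3 5 .stop)))))))
 (.lc 3 8 (.lc 3 11 .stop)))
 (.conf [154,162] (.node [154,162] 8 7 (.node [121,138] 8 10 (.far [4112,4112,0,0,8208,4112,1,256] 4114 .stop)
 (.node [121,139] 7 9 (.far [257,16,0,257,0,16,0,16,4096] 0 (.lc 2 4 (.lc 0 12 (.lc 2 4 (.lc 3 4 .stop)))))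
 (.lc 2 5 (.lc 3 0 (.conf [121,183] (.lc 2 5 (.lc 2 5 (.lc 3 0 (.lc 3 5 (.lc 4 0 (.lc 3 5 .stop)))))))))))
 (.node [155,186,162] 10 2 (.node [160] 8 7 (.node [121,139] 8 11 .stop
 (.node [121,140] 7 9 (.far [257,16,0,0,257,0,16,0,16,4096] 0 (.lc 2 4 (.lc 0 13 (.lc 2 4 (.lc 3 4 .stop)))))
 (.lc 2 5 (.conf [121,199] (.lc 2 5 (.lc 3 5 .stop))))))
 (.lc 3 8 (.lc 3 12 .stop)))
 .stop))))))
 (.lc 1 2 (.lc 3 9 (.lc 3 9 (.lc 1 2 (.lc 3 9 (.lc 3 10 (.conf [122,169] (.lc 4 10 (.lc 4 11 (.lc 2 2 (.lc 4 10 (.lc 4 10 (.lc 4 10 (.lc 5 11 .stop))))))))))))))))))))))))))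
 (.conf [97,135,152] (.far [4112,4112,1,256] 4097 (.conf [105,144] (.node [96,135,117] 2 8 (.far [4112,16,4112,0,16,4112,4096] 17 (.conf [71,117] (.conf [135,152] (.far [4112,16,4112,0,16,4112,4096] 17 (.conf [73,117,151] .stop)))))
 (.conf [72,135] (.node [96,135,152,135,117] 6 0 (.far [4112,4112,4112,1,256] 0 .stop)
 (.conf [25,135,152] (.conf [106,169] (.conf [97,135,49,84,117] (.conf [100,135] (.conf [105,135] (.conf [96,135] (.conf [72,135] (.conf [96,135] (.conf [97,135,49,84,117] (.conf [98,135] (.conf [100,135] (.conf [106,135] (.conf [97,135] (.conf [97,135] (.conf [97,135] (.node [97,135,117,16] 7 5 (.node [84,112] 0 5 .stop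
 (.node [84,114] 2 5 (.lc 0 2 .stop)
 (.far [16,0,16,0,16,4096] 0 (.node [84,121] 9 5 (.far [16,16,0,16,0,16,4096] 0 (.lc 3 0 (.lc 3 10 (.far [16,16,0,16,0,16,4096] 0 (.lc 1 2 (.lc 3 10 (.lc 4 11 .stop)))))))
 (.lc 1 2 (.conf [121,148] (.lc 3 0 (.lc 3 0 (.lc 3 9 (.lc 3 0 (.lc 3 2 (.lc 3 10 (.node [84,112] 2 5 (.lc 0 2 .stop)
 (.conf [66,83] (.conf [84,149] (.node [66,83,112] 0 4 (.far [16,16,0,16,0,16,4112,4096] 0 .stop)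
 (.node [66,83,121] 9 4 (.far [16,16,0,16,0,16,4112,4096] 0 (.node [144] 8 7 (.node [121,138] 7 9 (.far [257,16,0,257,0,16,0,16,4096] 0 (.lc 2 0 (.lc 0 11 .stop)))
 (.lc 2 5 (.lc 3 0 (.conf [121,167] .stop))))
 (.node [154,162] 10 2 (.node [] 8 7 (.node [121,138,160] 8 10 (.far [4096,0,4096,0,0,4096] 256 .stop)
 (.node [121,139] 7 9 (.far [257,16,0,0,257,0,16,0,16,4096] 0 (.lc 2 4 (.lc 0 12 (.lc 2 4 (.lc 3 4 .stop)))))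
 (.lc 2 5 (.lc 3 0 (.lc 3 0 (.conf [121,183] (.lc 2 5 (.lc 2 5 (.lc 3 0 (.lc 3 5 (.lc 4 0 (.lc 3 5 .stop))))))))))))
 (.lc 3 8 (.lc 3 11 (.node [176] 8 7 (.node [121,138,171,176] 8 10 .stop
 (.node [121,139,176] 8 11 (.far [4096,0,16,4112,16,1,256] 17 .stop)
 (.node [121,140] 7 9 (.far [257,16,0,0,257,0,16,0,16,4096] 0 (.lc 2 4 (.lc 0 13 (.lc 2 4 (.lc 3 4 .stop)))))
 (.lc 2 5 (.lc 3 0 (.lc 1 7 (.conf [121,199] (.lc 2 5 (.lc 3 5 .stop)))))))))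
 (.lc 3 11 (.lc 4 12 .stop))))))
 (.far [16,16,0,16,0,16,4112,4096] 17 (.conf [154,162] (.node [144] 8 7 (.node [121,138] 7 9 (.far [257,16,0,257,0,16,0,16,4096] 0 (.lc 0 11 .stop))
 (.lc 2 5 (.conf [121,167] .stop)))
 (.node [154,162] 8 7 (.node [121,138] 8 10 (.far [4096,0,4112,16,1,256] 0 .stop)
 (.node [121,139] 7 9 (.far [257,16,0,257,0,16,0,16,4096] 0 (.lc 2 4 (.lc 0 12 (.lc 2 4 (.lc 3 4 .stop)))))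
 (.lc 2 5 (.lc 3 0 (.conf [121,183] (.lc 2 5 (.lc 2 5 (.lc 3 0 (.lc 3 0 (.lc 3 0 (.lc 3 5 (.lc 4 0 (.lc 4 0 (.lc 3 5 (.lc 3 5 (.lc 3 5 (.lc 4 5 .stop)))))))))))))))))
 (.node [154,160] 8 7 (.node [121,138] 8 10 (.far [4096,0,4112,16,1,256] 17 .stop)
 (.node [121,139] 7 9 (.far [257,16,0,257,0,16,0,16,4096] 0 (.lc 2 4 (.lc 0 12 (.lc 2 4 (.lc 3 4 .stop)))))
 (.lc 2 5 (.lc 3 0 (.conf [121,183] (.lc 2 5 (.lc 3 5 .stop)))))))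
 (.node [155,186,162] 10 2 (.node [160] 8 7 (.node [121,139] 8 11 (.lc 1 0 .stop)
 (.node [121,140] 7 9 (.far [257,16,0,0,257,0,16,0,16,4096] 0 (.lc 2 4 (.lc 0 13 (.lc 2 4 (.lc 3 4 .stop)))))
 (.lc 2 5 (.lc 3 0 (.conf [121,199] (.lc 2 5 (.lc 2 5 (.lc 3 0 (.lc 3 5 (.lc 4 0 (.lc 3 5 .stop)))))))))))
 (.lc 3 8 (.lc 3 12 (.conf [172,192] (.lc 3 12 (.lc 4 13 .stop))))))
 .stop)))))))))
 (.lc 3 0 (.lc 1 2 (.lc 3 9 (.lc 3 9 (.lc 3 0 (.lc 3 9 (.lc 1 2 (.lc 3 9 (.lc 3 10 (.conf [122,169] (.lc 4 9 (.lc 4 10 (.lc 4 0 (.lc 4 11 (.lc 2 2 (.lc 2 2 (.lc 4 10 (.lc 4 9 (.lc 4 10 (.lc 4 0 (.lc 4 10 (.lc 5 11 .stop)))))))))))))))))))))))))))))))))))))))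
 (.node [66,97,135,117,20] 1 4 .stop
 (.node [97,135,117,25] 1 9 (.node [152] 9 8 (.lc 2 0 (.node [135] 2 8 (.lc 1 5 .stop)
 (.node [66,72,135] 4 8 .stop
 (.node [135] 8 7 (.far [4112,1,0,1,272,1,256] 0 (.lc 2 5 (.lc 2 5 (.lc 2 5 (.lc 2 5 (.lc 0 11 (.lc 2 5 (.lc 3 5 (.lc 3 5 (.lc 3 5 .stop))))))))))
 (.lc 2 6 (.lc 2 6 (.lc 3 2 (.lc 3 2 (.lc 3 4 (.lc 3 11 (.lc 3 0 (.conf [72,135] (.lc 3 0 (.conf [135,168] (.lc 1 5 (.lc 1 5 (.lc 1 5 (.lc 1 5 (.lc 2 6 (.lc 2 6 (.lc 2 6 (.lc 3 10 (.lc 3 2 (.lc 3 10 (.lc 3 11 (.lc 2 5 (.lc 2 5 (.lc 2 5 (.lc 2 5 (.lc 4 10 (.lc 4 2 (.lc 4 12 (.lc 3 6 (.lc 3 6 (.lc 2 5 (.lc 2 5 (.lc 2 5 (.lc 2 5 (.lc 2 5 (.lc 2 5 (.lc 2 5 (.lc 2 5 (.lc 3 5 (.lc 3 5 (.lc 3 5 .stop)))))))))))))))))))))))))))))))))))))))))))))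
 (.node [66,152,73] 4 9 (.node [66,89] 5 9 .stop
 (.lc 1 9 .stop))
 (.node [152,121] 7 5 (.lc 2 9 (.lc 3 9 (.lc 3 9 .stop)))
 (.node [152,169] 9 8 (.node [135,146] 2 8 (.lc 1 5 .stop)
 (.node [66,135,148] 4 8 .stop
 (.node [135,155] 8 7 (.far [4112,1,0,1,272,1,256] 0 (.lc 2 5 (.lc 2 5 (.lc 2 5 (.lc 2 5 (.lc 0 10 (.lc 0 12 (.lc 2 5 (.lc 2 5 (.lc 3 5 (.lc 3 5 (.lc 3 5 (.lc 3 5 .stop)))))))))))))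
 (.lc 2 6 (.lc 3 1 (.conf [72,135] (.conf [135,184] (.lc 1 5 (.lc 1 5 (.lc 1 5 (.lc 2 6 (.lc 3 1 (.lc 3 1 (.lc 3 1 (.lc 2 5 (.lc 2 5 (.lc 4 1 (.lc 4 1 (.lc 3 6 (.lc 2 5 (.lc 2 5 (.lc 2 5 (.lc 2 5 (.lc 3 5 (.lc 3 5 .stop)))))))))))))))))))))))))
 (.node [152,169,152] 9 8 (.node [135,146] 2 8 (.lc 1 5 .stop)
 (.node [66,72,135] 4 8 .stop
 (.lc 2 1 (.node [135,155] 8 7 (.far [4112,1,0,1,272,1,256] 0 (.lc 2 5 (.lc 2 5 (.lc 2 5 (.lc 2 5 (.lc 0 12 (.lc 2 5 (.lc 3 5 (.lc 3 5 .stop)))))))))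
 (.lc 2 6 (.lc 2 6 (.lc 3 2 (.lc 3 2 (.lc 3 4 (.lc 3 12 (.conf [72,135] (.lc 3 1 (.conf [135,184] (.lc 1 5 (.lc 1 5 (.lc 1 5 (.lc 1 5 (.lc 2 6 (.lc 2 6 (.lc 2 6 (.lc 3 11 (.lc 3 2 (.lc 3 11 (.lc 3 12 (.lc 2 5 (.lc 2 5 (.lc 2 5 (.lc 4 11 (.lc 4 2 (.lc 4 13 (.lc 3 6 (.lc 3 6 (.lc 2 5 (.lc 2 5 (.lc 2 5 (.lc 2 5 (.lc 2 5 (.lc 2 5 (.lc 2 5 (.lc 2 5 (.lc 3 5 (.lc 3 5 (.lc 3 5 .stop)))))))))))))))))))))))))))))))))))))))))))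
 (.node [152,169] 9 8 (.node [135,146] 2 8 (.lc 1 5 .stop)
 (.node [66,135,148] 4 8 .stop
 (.node [135,155] 10 9 (.far [16,257,257,258,0,4096,0,0,0,257] 16 (.lc 3 2 (.lc 3 4 (.lc 3 7 (.lc 3 12 (.lc 1 8 (.lc 3 12 (.lc 4 2 (.lc 4 13 .stop)))))))))
 (.lc 2 6 (.lc 3 1 (.conf [72,135] (.conf [135,184] (.lc 1 5 (.lc 1 5 (.lc 1 5 (.lc 2 6 (.lc 3 1 (.lc 3 1 (.lc 3 1 (.lc 2 5 (.lc 2 5 (.lc 4 1 (.lc 4 1 (.lc 3 6 (.lc 2 5 (.lc 2 5 (.lc 2 5 (.lc 2 5 (.lc 3 5 (.lc 3 5 .stop)))))))))))))))))))))))))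
 (.node [152,169,186] 9 8 (.node [135,146] 2 8 (.lc 1 5 .stop)
 (.node [66,135,148] 4 8 .stop
 (.node [135,156] 10 9 (.far [16,257,272,4096,0,4096,0,0,0,257] 16 (.lc 3 2 (.lc 3 4 (.lc 3 7 (.lc 3 13 (.lc 1 8 (.lc 3 13 (.lc 4 2 (.lc 4 14 .stop)))))))))
 (.lc 2 6 (.lc 3 1 (.conf [72,135] (.conf [135,200] (.lc 1 5 (.lc 1 5 (.lc 1 5 (.lc 2 6 (.lc 3 1 (.lc 3 1 (.lc 3 1 (.lc 2 5 (.lc 2 5 (.lc 4 1 (.lc 4 1 (.lc 3 6 (.lc 2 5 (.lc 2 5 (.lc 2 5 (.lc 2 5 (.lc 3 5 (.lc 3 5 .stop)))))))))))))))))))))))))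
 .stop)))))))
 (.conf [106,135] (.conf [105,135] (.conf [72,135] (.conf [72,135] (.conf [97,135,49,84,117] (.conf [106,135] (.conf [96,135] (.conf [98,135] (.conf [96,135] (.conf [97,135,49,84,117] (.conf [107,135] (.conf [97,135,152] (.conf [97,135,152] (.conf [97,135] (.conf [97,135] (.conf [97,135] (.conf [97,135] (.conf [97,135] (.conf [97,135] (.conf [97,135] (.conf [97,135] (.conf [97,135] (.conf [97,135] (.conf [97,135] .stop)))))))))))))))))))))))))))))))))))))))))))))))))))))))))))))))))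
 (.lc 3 1 (.node [84,103,66] 0 5 .stop
 (.far [1,4112,4096,0,0,257] 4096 (.node [84,96,117,66] 6 0 (.far [257,257,16,4096] 0 (.node [64,100] 5 4 (.lc 0 2 .stop)
 (.node [104] 7 5 (.node [116] 0 7 (.far [257,0,0,1,4112,4096,0,0,257] 4096 (.far [4112,0,1,256] 0 (.lc 1 2 (.lc 2 0 (.conf [116,151] (.conf [116,151] (.lc 1 2 .stop)))))))
 (.lc 1 2 (.lc 1 2 (.lc 1 2 (.lc 1 2 (.lc 1 2 (.lc 1 2 (.lc 3 8 (.lc 3 9 (.lc 2 2 (.lc 2 2 (.lc 2 2 .stop))))))))))))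
 (.node [105,152,105,128] 7 5 (.node [116] 0 7 (.far [257,0,0,1,4112,4096,0,0,257] 4096 (.node [116,135,152] 7 4 (.node [132] 8 4 (.lc 0 2 .stop)
 (.lc 0 0 (.lc 2 2 (.lc 3 2 .stop))))
 (.lc 1 2 (.lc 2 0 (.conf [116,167] (.lc 0 10 (.lc 1 2 .stop)))))))
 (.lc 1 2 (.lc 1 2 (.lc 1 2 (.lc 1 2 (.lc 1 2 (.lc 1 2 (.lc 3 10 (.lc 2 2 (.lc 2 2 .stop))))))))))
 .stop))))
 (.lc 3 1 (.node [84,98,117,66] 6 2 (.far [1,257,4112,4096,0,0,257] 4096 (.node [39,104,128,104] 7 5 (.node [116] 2 7 .stop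
 (.lc 1 2 (.lc 1 2 (.lc 1 2 (.lc 1 2 (.lc 3 9 (.lc 2 2 .stop)))))))
 .stop))
 (.node [84,104,117,66] 7 5 (.node [116] 7 4 (.node [66,112] 7 0 (.node [128] 0 4 (.far [257,4112,4096,0,1,4112,4096,0,0,257] 4096 .stop)
 (.node [129] 0 4 (.far [257,0,1,256,0,4112,4112,4096,0,257] 4096 .stop)
 (.far [4112,4112,4096,1,0,1,256] 0 (.far [4112,4112,4096,1,0,1,256] 0 (.far [257,257,256,16,0,16,4096] 4097 (.node [137,145,22] 1 6 (.far [257,256,0,0,16,1,256] 4097 (.lc 0 10 .stop))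
 .stop))))))
 (.node [66,113] 7 1 .stop
 (.lc 1 2 (.node [66,121] 8 7 (.node [137] 9 4 (.node [146] 6 8 (.node [96] 6 0 (.far [257,257,0,0,0,0,257,16,4096] 0 .stop)
 (.far [257,0,0,0,0,257,16,4096] 0 (.lc 1 6 (.node [106] 6 10 (.far [257,257,0,0,0,0,257,16,4096] 0 (.far [1,257,0,0,0,0,257,4112,4096,0,0,257] 16 (.node [27,168,186,97] 1 11 (.far [257,1,257,0,0,0,0,257,4112,4096,0,0,257] 16 (.lc 2 10 (.node [203] 8 9 (.lc 1 2 (.lc 2 6 (.node [139,146,186,168,203] 11 9 .stop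
 (.node [201,203] 12 9 (.far [16,16,0,0,0,257,4096,4096] 17 .stop)
 (.node [141,146] 10 8 (.far [1,4112,0,0,1,0,4112,0,0,256] 0 (.conf [189,217] (.conf [174,237] (.lc 0 13 (.lc 0 14 .stop)))))
 (.lc 2 2 (.lc 3 6 (.lc 3 6 (.lc 0 10 (.node [142,217,237,142,146,168] 10 8 (.far [1,4112,0,0,1,0,4112,0,0,256] 0 (.lc 3 6 (.lc 1 13 (.lc 3 6 (.lc 4 6 .stop)))))
 (.lc 2 2 (.lc 3 6 (.lc 3 6 (.lc 3 2 (.lc 4 6 (.lc 4 6 .stop))))))))))))))))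
 (.lc 2 10 (.lc 3 10 .stop)))))
 (.node [] 8 9 (.lc 1 2 (.far [4112,0,1,0,4112,0,0,256] 0 (.node [139,146] 10 8 (.far [1,4112,0,1,0,4112,0,0,256] 0 (.conf [172,185,203] (.node [185,203,134,172] 11 9 (.node [178,203] 11 2 .stop
 (.far [1,0,1,0,0,4112,256,256] 0 .stop))
 (.far [1,4112,0,1,0,4112,0,0,256] 0 (.conf [173,185,134] .stop)))))
 (.lc 2 2 (.lc 2 2 (.lc 3 6 (.far [4112,0,1,0,4112,0,0,256] 0 (.node [140,185,203,140,146,168] 10 8 (.far [1,4112,0,1,0,4112,0,0,256] 0 (.lc 3 13 (.lc 1 11 (.lc 3 13 (.lc 4 14 .stop)))))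
 (.lc 2 2 (.lc 3 6 (.lc 3 6 (.lc 3 6 (.lc 4 6 (.lc 4 6 (.lc 4 6 .stop)))))))))))))))
 (.node [27,186,168] 1 11 (.node [186] 8 9 (.node [128,146] 8 0 .stop
 (.lc 1 2 (.far [4112,0,0,1,0,4112,0,0,256] 0 (.node [140,146] 10 8 (.far [1,4112,0,0,1,0,4112,0,0,256] 0 (.lc 3 0 (.lc 3 13 (.node [201,220,173,186] 12 9 (.node [194,220] 12 2 (.lc 0 0 .stop)
 (.far [16,0,16,0,0,0,257,4096,4096] 17 (.far [1,0,1,0,0,0,4112,256,256] 0 (.far [4096,1,4112,0,0,1,4112,4112,16,4112,256] 0 .stop))))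
 (.lc 3 13 (.lc 4 14 .stop))))))
 (.lc 2 2 (.lc 2 2 (.lc 2 2 (.lc 3 6 (.lc 2 2 (.lc 0 12 (.node [141,201,220,141,146,168,186] 10 8 (.far [1,4112,0,0,1,0,4112,0,0,256] 0 (.lc 3 0 (.lc 3 14 (.lc 1 12 (.lc 3 14 (.lc 4 15 .stop))))))
 (.lc 2 2 (.lc 3 6 (.lc 3 6 (.lc 3 6 (.lc 3 6 (.lc 3 2 (.lc 3 2 (.lc 4 6 (.lc 4 6 (.lc 4 6 (.lc 4 6 (.lc 4 6 (.lc 4 6 (.lc 5 6 .stop)))))))))))))))))))))))))
 (.lc 2 10 (.node [186,203,186,168] 8 9 (.lc 1 2 (.far [4112,0,0,1,0,4112,0,0,256] 0 (.lc 0 11 (.node [141,146] 10 8 (.far [1,4112,0,0,1,0,4112,0,0,256] 0 (.lc 3 12 (.lc 3 14 (.lc 1 9 (.lc 3 14 (.lc 4 15 .stop))))))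
 (.lc 2 2 (.lc 2 2 (.lc 3 6 (.lc 0 13 (.conf [142,237] (.lc 2 2 (.lc 3 6 (.lc 3 6 (.lc 3 6 (.lc 3 6 (.lc 1 1 (.lc 4 6 (.lc 4 6 (.lc 4 6 (.lc 2 1 .stop)))))))))))))))))))
 (.lc 2 10 (.lc 3 10 .stop)))))
 (.far [257,257,0,0,0,0,257,16,4096] 0 (.far [257,257,0,0,0,0,257,16,4096] 0 (.far [257,257,0,1,4112,4112,258,4128,8192,0,0,257] 16 (.node [28,168,186,203,97,186,168] 1 12 (.far [257,257,257,0,1,4112,4112,258,4128,8192,0,0,257] 16 (.lc 2 11 (.conf [203,220] (.lc 2 11 (.lc 3 11 .stop)))))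
 .stop)))))))))
 (.lc 2 9 (.lc 2 9 (.lc 2 9 (.lc 2 9 (.lc 2 9 (.lc 2 9 (.lc 3 1 (.lc 3 1 (.node [97,16] 8 9 (.node [128,9] 0 9 (.far [257,4096,4096,0,0,0,0,0,4096,0,0,0,257] 4096 .stop)
 (.lc 1 2 (.node [138,146] 9 2 (.node [] 8 10 (.node [] 10 2 (.far [4096,4096,0,0,4096,0,0,0,0,0,4096,0,0,0,257] 4096 .stop)
 (.far [257,0,257,256,0,257,0,0,1,16,4096] 0 .stop))
 (.far [8192,2,4112,0,513,257,257,4096,4096,0,0,0,257] 4352 (.far [4112,1,0,4112,256,256] 0 .stop)))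
 (.lc 2 2 (.lc 2 2 (.lc 3 0 (.lc 3 0 (.lc 2 2 (.node [139,169,186,139,146] 10 9 (.far [16,16,0,257,4096,4096] 0 (.lc 3 0 (.lc 3 12 .stop)))
 (.lc 2 2 (.lc 3 0 (.lc 3 0 .stop))))))))))))
 (.node [106,160,106] 6 10 (.node [160] 10 0 .stop
 (.lc 2 0 (.conf [27,160,186] (.lc 2 0 (.lc 3 0 .stop)))))
 (.node [96,168] 6 0 (.node [] 8 9 (.lc 1 2 (.node [134,169] 10 9 (.node [162] 10 2 (.far [1,257,4096,4112,4096,0,0,0,0,0,4096,0,0,0,257] 4096 .stop)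
 (.lc 3 0 .stop))
 (.node [139,146,168] 10 8 (.node [171] 11 9 (.node [178] 11 2 (.lc 3 2 .stop)
 (.far [1,0,1,0,0,4112,256,256] 0 .stop))
 (.lc 3 12 (.lc 1 9 (.lc 3 12 (.lc 4 13 .stop)))))
 (.lc 2 2 (.lc 2 2 (.lc 3 6 (.conf [146,171,185] (.conf [140,203] (.lc 3 6 (.lc 3 6 (.lc 3 6 (.lc 4 6 (.lc 4 6 .stop)))))))))))))
 .stop)
 (.node [26,97,168,26] 1 10 (.node [168] 8 9 (.node [128,146,168] 8 0 .stop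
 (.lc 1 2 (.node [169] 10 9 (.far [16,16,0,0,257,4096,4096] 17 .stop)
 (.node [139,146,168] 10 8 (.node [171] 10 11 (.node [185] 11 9 (.node [178] 11 2 (.far [4096,0,1,257,0,0,4096,0,0,0,0,0,4096,0,0,0,257] 4096 .stop)
 (.far [257,0,1,4096,0,4096,0,0,0,0,0,4096,0,0,0,257] 4096 (.lc 3 0 (.far [1,0,0,1,0,0,4112,256,256] 0 .stop))))
 (.lc 2 9 (.lc 2 9 (.far [4112,4097,8224,1,1,0,8208,4112,4112,256] 0 (.lc 2 9 (.lc 3 9 .stop))))))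
 (.lc 3 0 (.lc 1 9 (.lc 3 0 (.lc 4 0 .stop)))))
 (.lc 2 2 (.lc 2 2 (.lc 3 6 (.far [4112,1,1,0,4112,0,0,256] 0 (.lc 2 2 (.conf [140,203] (.lc 2 2 (.lc 3 6 (.lc 3 6 (.lc 3 2 (.lc 3 2 (.lc 4 6 (.lc 4 6 (.lc 4 6 (.lc 4 6 .stop)))))))))))))))))))
 (.lc 2 8 (.node [168,186,168] 10 8 (.lc 2 9 (.lc 1 9 (.lc 2 6 (.lc 2 9 (.lc 2 9 (.lc 2 6 (.lc 2 6 (.lc 0 9 (.lc 2 9 (.lc 3 9 (.lc 3 6 (.lc 3 6 .stop))))))))))))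
 (.lc 2 8 (.lc 3 8 .stop)))))
 (.node [107,186,107,168] 6 11 (.node [186] 8 9 (.node [128,146] 8 0 (.node [160] 0 9 (.far [257,4112,4096,4112,4096,0,0,0,0,0,4096,0,0,0,257] 4096 .stop)
 (.lc 0 1 (.lc 0 12 .stop)))
 (.lc 1 2 (.node [134,169,186] 10 9 (.node [162] 10 2 .stop
 (.far [16,16,0,0,257,4096,4096] 17 .stop))
 (.node [140,146] 10 8 (.node [172] 12 9 (.node [194] 12 2 (.far [1,257,1,4096,4112,4096,0,0,0,0,0,4096,0,0,0,257] 4096 (.lc 3 2 (.node [205,208,205,172,186] 10 12 (.far [1,4112,4112,256,256] 0 (.lc 3 8 (.lc 1 0 .stop)))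
 .stop)))
 (.far [257,1,4096,4112,4096,0,0,0,0,0,4096,0,0,0,257] 4096 (.far [16,0,16,0,0,257,4096,4096] 17 (.far [1,0,1,0,0,4112,256,256] 0 (.far [1,0,1,0,0,4112,256,256] 0 (.node [205,208,172,186,146] 10 12 (.far [1,4096,256,257,0,0,4112,256,256] 0 (.lc 3 8 (.lc 1 0 .stop)))
 .stop))))))
 (.lc 3 0 (.lc 3 13 (.lc 1 9 (.lc 1 9 (.lc 3 0 (.lc 3 13 (.lc 4 13 (.lc 4 0 (.lc 4 14 .stop))))))))))
 (.lc 2 2 (.lc 2 2 (.lc 2 2 (.lc 3 6 (.lc 3 6 (.lc 0 0 (.conf [140,192] (.lc 2 2 (.node [128,146,201,146] 8 0 .stop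
 (.lc 0 12 (.conf [141,220] (.lc 2 2 (.lc 3 6 (.lc 3 6 (.lc 3 6 (.lc 3 6 (.lc 3 2 (.lc 3 2 (.lc 4 6 (.lc 4 6 (.lc 4 6 (.lc 4 6 (.lc 4 6 (.lc 4 6 (.lc 4 6 (.lc 4 6 (.lc 5 6 .stop)))))))))))))))))))))))))))))))
 (.lc 2 10 (.lc 2 10 (.node [186] 8 9 (.lc 1 2 (.far [4112,4112,4096,0,4112,0,0,16,1,256] 4097 (.node [140,146] 10 8 (.far [1,4112,4112,4096,0,4112,0,0,16,1,256] 4097 (.lc 3 13 (.lc 1 9 (.lc 3 13 (.lc 4 14 .stop)))))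
 (.lc 2 2 (.lc 2 2 (.lc 3 6 (.lc 0 12 (.conf [141,220] (.lc 2 2 (.lc 3 6 (.lc 3 6 (.lc 3 6 (.lc 4 6 (.lc 4 6 (.lc 4 6 .stop)))))))))))))))
 (.conf [28,186,203] (.lc 2 10 (.lc 2 10 (.lc 3 10 (.lc 3 10 .stop)))))))))
 (.lc 2 9 (.lc 2 9 (.lc 2 9 (.lc 2 9 (.lc 2 9 (.lc 3 1 (.lc 3 1 (.lc 3 1 (.lc 3 1 (.lc 3 1 (.lc 3 9 (.lc 3 9 (.lc 3 9 (.lc 3 9 (.lc 3 9 (.lc 3 9 (.lc 4 1 (.lc 4 1 (.lc 4 1 (.lc 4 1 (.lc 4 1 (.lc 4 1 (.lc 4 1 (.lc 4 1 (.lc 5 1 (.lc 5 1 .stop)))))))))))))))))))))))))))))))))))))))))))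
 (.far [257,1,4096,0,1,4112,4096,0,0,257] 4096 (.node [154,162,66] 8 9 (.node [162] 10 2 (.far [1,0,257,1,4096,0,1,4112,4096,0,0,257] 4096 (.lc 3 11 (.node [176] 6 8 (.far [257,0,0,0,0,0,0,257,16,4096] 0 (.lc 1 6 (.node [107,176,184] 11 8 (.far [256,0,4112,257,4112,256,256] 0 .stop)
 (.node [108,138] 8 10 (.far [4112,1,0,4112,0,4112,0,0,256] 0 (.lc 2 2 (.conf [176,203] (.conf [171,218] (.lc 2 2 (.lc 3 2 .stop))))))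
 (.lc 2 6 (.lc 2 6 (.lc 2 6 (.lc 3 1 (.lc 2 6 (.node [28,97,138,200,28] 8 10 (.node [171,176] 12 10 (.far [1,1,0,4112,257,4112,256,256] 0 (.lc 1 0 .stop))
 (.lc 2 2 (.lc 0 11 (.lc 0 13 (.lc 2 2 (.lc 3 2 .stop))))))
 (.node [138,200,220,109] 8 10 (.node [171,202,176,220] 12 10 (.far [1,1,0,4112,257,4112,256,256] 0 (.lc 1 0 (.lc 1 0 (.lc 3 8 (.lc 2 0 .stop)))))
 (.lc 2 2 (.lc 0 11 (.lc 0 14 (.lc 2 2 (.lc 3 2 .stop))))))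
 (.lc 2 6 (.lc 3 1 (.lc 3 1 (.lc 3 1 (.lc 3 1 (.lc 3 1 (.lc 3 6 (.lc 3 6 (.lc 4 1 (.lc 4 1 (.lc 4 1 (.lc 4 1 (.lc 4 1 (.lc 4 1 (.lc 4 1 (.lc 5 1 .stop)))))))))))))))))))))))))))
 (.lc 3 11 (.lc 4 12 .stop)))))
 (.lc 3 0 (.lc 3 1 (.lc 3 11 (.far [16,256,4096,4112,4096,0,0,0,16,4096] 0 (.far [16,256,4096,4112,4096,0,0,0,16,4096] 0 (.lc 3 0 (.lc 3 11 (.lc 4 1 (.lc 4 11 (.lc 4 0 (.lc 4 12 .stop))))))))))))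
 (.far [16,0,16,4096,0,0,0,16,4096] 17 (.lc 0 2 (.far [16,0,16,4096,0,0,0,16,4096] 0 (.far [1,0,1,256,0,0,0,1,256] 0 (.far [1,0,1,256,0,0,0,1,256] 0 (.node [154,160,66] 9 10 (.far [4112,4096,256,257,256,0,0,0,1,256] 0 (.lc 0 1 (.lc 0 11 (.lc 0 11 (.lc 2 0 (.lc 0 12 .stop))))))
 (.node [155,186,66,162] 9 11 (.far [4112,4096,256,257,256,0,0,0,1,256] 0 (.lc 0 0 (.lc 0 1 (.lc 0 12 (.lc 0 0 (.lc 0 12 (.lc 2 10 (.lc 2 10 (.lc 0 1 (.lc 0 12 (.lc 0 0 (.lc 0 13 .stop))))))))))))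
 .stop))))))))))
 (.lc 1 4 (.lc 1 4 (.lc 1 4 (.lc 1 4 (.lc 1 4 (.lc 1 4 (.far [1,4112,4096,1,0,1,256] 0 (.far [1,4112,4096,1,0,1,256] 0 (.lc 2 4 (.lc 2 4 (.lc 2 4 (.lc 2 4 (.lc 2 4 .stop))))))))))))))
 (.lc 2 2 (.lc 2 2 (.lc 3 4 (.lc 2 2 (.lc 3 4 (.node [66,113] 7 1 .stop
 (.conf [121,144] (.lc 2 2 (.lc 2 2 (.node [66,112,148,66] 7 0 (.far [4112,4112,4096,1,0,1,256] 0 .stop)
 (.conf [122,169] (.lc 2 2 (.lc 2 2 (.lc 2 2 (.lc 3 4 (.lc 3 4 (.lc 2 2 (.lc 3 4 (.lc 3 2 (.lc 3 2 (.lc 4 4 (.lc 4 4 (.lc 3 2 (.lc 3 2 (.lc 4 4 (.lc 4 4 (.lc 3 2 (.lc 3 2 (.lc 3 2 (.lc 3 2 (.lc 3 2 (.lc 3 2 (.lc 4 2 (.lc 4 2 .stop))))))))))))))))))))))))))))))))))))))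
 (.lc 1 2 (.lc 1 2 (.lc 1 2 (.lc 1 2 (.lc 1 2 (.lc 3 0 (.lc 1 2 (.lc 3 9 (.lc 2 2 (.lc 2 2 (.lc 2 2 (.lc 2 2 .stop)))))))))))))
 (.node [84,103,112,66] 0 5 (.node [] 6 7 (.node [112] 7 0 (.lc 2 0 (.far [1,0,4112,257] 0 (.lc 3 8 .stop)))
 (.node [112,135] 0 1 .stop
 (.conf [112,135] (.far [257,16,256,16,4112,4096] 0 (.node [112,135,152] 0 1 .stop
 .stop)))))
 (.lc 1 2 (.lc 1 2 .stop)))
 (.far [257,4112,4096,0,0,257] 4096 (.node [84,103,114,66] 2 5 (.lc 0 2 .stop)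
 (.node [84,96,117,66] 6 0 (.node [] 5 4 (.node [116] 7 4 (.lc 2 0 (.lc 1 2 (.node [66] 8 4 (.node [] 0 7 (.far [257,0,0,0,16,1] 256 (.far [1,0,4112,256,0,257] 0 (.node [120] 7 8 (.far [4112,1,0,4112,256,0,257] 0 (.conf [130,154,168] (.far [4112,1,0,4112,256,0,257] 0 (.node [130,168,112] 10 8 (.node [162] 10 2 .stop
 (.lc 3 11 .stop))
 (.conf [130,155,112] .stop)))))
 (.lc 2 0 (.lc 2 0 (.node [120,151,41,120] 7 8 (.far [257,256,0,257,4096,4112,4096,4096,0,0,0,257] 4096 (.lc 2 2 (.lc 0 10 (.lc 2 2 (.lc 3 2 .stop)))))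
 (.node [130,152] 9 8 (.node [146] 9 2 .stop
 (.lc 3 10 .stop))
 (.node [120,151,169,120,130] 7 8 (.node [152] 9 8 (.lc 1 2 (.node [130,155,169] 10 9 (.node [171] 11 8 (.node [178] 11 2 (.lc 0 0 .stop)
 (.far [1,0,1,1,0,4112,256] 0 .stop))
 (.lc 3 12 (.lc 1 8 (.lc 3 12 (.lc 4 13 .stop)))))
 (.lc 2 2 (.conf [151,171] (.conf [156,203] (.lc 2 2 (.lc 2 2 (.node [151,171,130] 0 10 .stop
 (.conf [151,184,130] (.lc 3 2 .stop))))))))))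
 (.lc 2 2 (.lc 0 11 (.lc 2 2 (.lc 3 2 .stop)))))
 (.lc 2 0 (.lc 2 0 (.lc 1 2 (.lc 3 0 .stop))))))))))))
 (.far [257,1,4096,4112,4096,4096,0,0,0,257] 4096 (.node [32,137,146,66] 9 2 (.far [1,257,1,4096,4112,4096,4096,0,0,0,257] 4096 (.lc 3 7 (.lc 3 10 .stop)))
 (.far [16,16,16,0,0,0,0,16,4096] 0 (.far [1,1,1,0,0,0,0,1,256] 0 (.node [32,138,146,169,66,138,146] 9 2 (.node [144] 7 8 (.node [123,138] 8 10 (.far [4112,1,0,4096,257,1,0,0,0,0,1,256] 0 (.lc 2 9 (.lc 0 12 (.lc 2 9 (.lc 3 9 .stop)))))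
 (.lc 2 4 (.conf [138,184] (.lc 2 4 (.lc 3 4 .stop)))))
 (.lc 3 7 (.lc 3 11 .stop)))
 .stop))))))
 (.lc 2 2 (.lc 2 2 (.lc 2 2 (.lc 3 9 (.lc 2 2 (.lc 2 2 (.node [66,132,152,66] 8 4 (.far [16,16,16,0,0,0,0,16,4096] 0 (.lc 3 0 (.lc 3 10 (.conf [32,138,162] (.lc 3 10 (.lc 4 11 .stop))))))
 (.lc 2 2 (.lc 2 2 (.lc 2 2 (.lc 2 2 (.lc 3 9 (.lc 3 2 (.lc 3 2 (.lc 4 10 (.lc 3 2 (.lc 3 2 (.lc 3 2 (.lc 4 2 .stop))))))))))))))))))))))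
 (.lc 2 2 (.lc 2 2 (.far [4112,4112,4096,1,257,256] 0 (.lc 2 2 (.lc 3 2 .stop))))))
 .stop)
 (.node [84,98,117,66] 6 2 .stop
 (.node [84,104,117,66] 5 4 (.node [116] 6 8 (.node [135] 7 4 (.node [66] 0 4 (.far [257,1,4112,4096,4096,4096,0,0,0,257] 4096 .stop)
 (.lc 1 2 (.lc 2 4 (.node [66] 9 4 (.node [] 8 7 (.node [121] 0 7 (.far [1,1,0,4112,0,256,257] 0 (.node [146,169,112] 10 9 (.node [162] 2 0 .stop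
 (.lc 3 11 .stop))
 (.lc 1 2 .stop)))
 (.lc 2 1 (.far [1,0,4112,0,256,257] 0 (.node [121] 7 9 (.far [4112,1,0,4112,0,256,257] 0 (.conf [146,160,116] (.conf [146,171,185] (.far [4112,1,0,4112,0,256,257] 0 (.far [4112,1,0,4112,0,256,257] 0 (.node [146,116] 0 9 (.far [256,0,0,257,1,4112,4096,4096,4096,0,0,0,257] 4096 .stop)
 (.node [146,185,116] 11 9 (.node [178] 11 2 (.far [1,256,0,0,257,1,4112,4096,4096,4096,0,0,0,257] 4096 (.lc 3 2 (.conf [188,192] (.lc 3 2 (.lc 4 2 .stop)))))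
 (.lc 3 0 (.far [16,257,16,257,258,4112,8192,8208,1,256] 17 (.lc 3 0 (.lc 3 12 (.lc 4 12 .stop))))))
 (.conf [146,171,116] (.conf [146,160,116] (.conf [146,172,116] .stop))))))))))
 (.lc 2 4 (.lc 2 4 (.lc 3 10 (.lc 3 0 (.lc 3 10 (.lc 3 0 (.lc 3 11 (.lc 3 1 (.node [121,160] 0 7 .stop
 (.node [146] 0 9 (.far [256,0,257,1,4112,4096,4096,4096,0,0,0,257] 4096 .stop)
 (.node [146,169] 10 9 (.node [162] 10 2 (.far [1,256,0,257,1,4112,4096,4096,4096,0,0,0,257] 4096 (.lc 3 2 (.conf [171,176] .stop)))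
 (.lc 3 0 (.far [16,16,257,258,4112,8192,8208,1,256] 17 (.lc 3 0 (.lc 3 11 (.lc 4 11 .stop))))))
 (.node [121,167,121,146] 7 9 (.node [169] 0 10 (.far [257,4112,1,0,4112,0,256,257,4112,4096,0,0,257] 4096 (.lc 1 2 (.lc 1 2 .stop)))
 (.lc 2 2 (.lc 0 11 (.lc 2 2 (.lc 3 2 .stop)))))
 (.node [121,167,186,121,146] 7 9 (.node [169] 10 9 (.node [146,160,186] 10 0 (.node [176] 0 9 (.far [257,0,1,1,0,0,257,4112,4096,4096,4096,0,0,0,257] 4096 .stop)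
 (.lc 0 1 (.lc 0 12 .stop)))
 (.lc 1 2 (.node [146,172,186] 11 10 (.node [188] 12 9 (.node [194] 12 2 (.far [1,257,0,1,1,0,0,257,4112,4096,4096,4096,0,0,0,257] 4096 (.lc 3 2 (.node [205,208,205] 11 12 (.far [1,4112,4112,256,256] 0 (.lc 3 8 (.lc 1 0 .stop)))
 .stop)))
 (.far [257,0,1,1,0,0,257,4112,4096,4096,4096,0,0,0,257] 4096 (.far [16,0,16,16,0,257,4096] 17 (.far [1,0,1,1,0,4112,256] 0 (.far [1,0,1,1,0,4112,256] 0 (.node [205,208,146] 11 12 (.far [1,4096,256,257,1,0,4112,256] 0 (.lc 3 8 (.lc 1 0 .stop)))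
 .stop))))))
 (.lc 3 0 (.lc 3 13 (.lc 1 9 (.lc 1 9 (.lc 3 0 (.lc 3 13 (.lc 4 13 (.lc 4 0 (.lc 4 14 .stop))))))))))
 (.lc 2 2 (.lc 2 2 (.conf [167,176] (.conf [167,188] (.conf [172,192] (.lc 2 2 (.node [146,160,201,186,146] 10 0 .stop
 (.conf [173,220] (.lc 2 2 (.lc 2 2 (.node [167,176,146] 0 9 (.far [1,1,1,0,4112,256] 0 .stop)
 (.lc 2 2 (.node [167,188,146] 8 11 (.node [140] 12 9 (.far [1,0,1,1,0,4112,256] 0 (.lc 3 0 (.far [1,1,4096,0,257,4112,16,0,256,257,4112,4096,0,0,257] 4096 (.lc 3 0 (.lc 3 13 (.lc 4 13 .stop))))))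
 (.lc 3 1 (.lc 1 9 (.lc 1 9 (.lc 4 1 .stop)))))
 (.lc 3 2 (.node [167,188,192,146] 0 9 (.far [1,4096,4112,1,4112,4128,257,512,513,16,4096] 0 .stop)
 (.lc 3 2 (.conf [167,201,146] (.conf [167,201,146] (.lc 3 2 (.lc 3 2 (.lc 3 2 (.lc 3 2 (.lc 4 2 .stop))))))))))))))))))))))))))
 (.lc 2 2 (.lc 2 2 (.lc 0 0 (.lc 0 12 (.lc 2 2 (.lc 2 2 (.lc 3 2 (.lc 3 2 (.lc 3 2 .stop))))))))))
 (.lc 2 4 (.lc 2 4 (.lc 2 4 (.lc 2 4 (.lc 2 4 (.lc 2 4 (.lc 3 10 (.lc 3 0 (.lc 3 0 (.lc 3 10 (.lc 3 0 (.lc 3 11 (.lc 3 4 (.lc 3 4 (.lc 3 4 (.lc 3 4 (.lc 4 11 (.lc 4 10 (.lc 4 0 (.lc 4 11 (.lc 4 11 (.lc 4 0 (.lc 4 12 (.lc 3 4 (.lc 3 4 (.lc 3 4 (.lc 3 4 (.lc 3 4 (.lc 3 4 (.lc 3 4 (.lc 3 4 (.lc 3 4 (.lc 3 4 (.lc 4 4 (.lc 4 4 (.lc 4 4 (.lc 4 4 .stop))))))))))))))))))))))))))))))))))))))))))))))))))))))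
 (.far [257,1,4112,4096,4096,4096,0,0,0,257] 4096 (.node [130,152,66,130] 8 2 .stop
 (.node [32,154,162,66] 10 2 (.far [1,257,1,4112,4096,4096,4096,0,0,0,257] 4096 (.lc 3 8 (.lc 3 11 (.node [176] 8 7 (.lc 2 1 (.lc 1 4 (.node [167,171,154,176] 10 7 .stop
 (.node [176,183] 11 7 .stop
 (.node [121] 7 9 (.far [4112,1,0,0,4112,0,256,257] 0 (.conf [171,202] (.conf [154,217] (.lc 1 11 (.lc 2 11 .stop)))))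
 (.lc 2 4 (.lc 2 4 (.lc 3 11 (.lc 3 0 (.lc 3 10 (.lc 3 11 (.lc 3 13 (.lc 2 4 (.lc 1 7 (.node [121,199,220,121,154] 7 9 (.node [154,201,220] 9 10 (.node [171] 12 10 (.node [171,176] 13 10 (.far [1,1,4096,1,0,4112,4112,256] 0 (.lc 1 0 (.lc 1 0 .stop)))
 (.lc 2 2 (.lc 0 11 (.lc 0 14 (.lc 2 2 (.lc 3 2 .stop))))))
 (.lc 2 11 (.lc 0 7 (.lc 2 11 (.lc 3 11 .stop)))))
 (.lc 2 4 (.lc 0 14 (.lc 2 4 (.lc 3 4 .stop)))))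
 (.lc 2 4 (.lc 2 4 (.lc 2 4 (.lc 2 4 (.lc 3 11 (.lc 3 12 (.lc 3 12 (.lc 3 13 (.lc 3 4 (.lc 3 4 (.lc 4 12 (.lc 4 11 (.lc 4 14 (.lc 3 4 (.lc 3 4 (.lc 3 4 (.lc 3 4 (.lc 4 4 .stop)))))))))))))))))))))))))))))))))
 (.lc 3 11 (.lc 4 12 .stop))))))
 (.far [16,16,0,16,0,0,0,16,4096] 17 (.far [16,16,0,16,0,0,0,16,4096] 0 (.far [1,1,0,1,0,0,0,1,256] 0 (.far [1,1,0,1,0,0,0,1,256] 0 (.node [154,160,66] 8 7 (.lc 2 1 (.lc 1 4 (.node [160,167,154] 10 7 .stop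
 (.node [121] 7 9 (.far [4112,1,0,4112,0,256,257] 0 (.conf [148,160] (.conf [154,201] (.far [4112,1,4096,4112,0,256,257,0,1,257,256] 0 (.conf [148,188,116] .stop)))))
 (.lc 2 4 (.lc 2 4 (.lc 3 0 (.lc 3 10 (.lc 3 12 (.lc 2 4 (.node [121,183,203,121,154,160] 7 9 (.node [154,185,203] 11 9 (.far [1,1,0,4096,257,0,1,0,0,0,1,256] 0 (.lc 1 0 (.lc 1 0 (.lc 3 7 (.lc 2 0 .stop)))))
 (.lc 2 4 (.lc 0 13 (.lc 2 4 (.lc 3 4 .stop)))))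
 (.lc 2 4 (.lc 2 4 (.lc 2 4 (.lc 3 11 (.lc 3 12 (.lc 3 4 (.lc 3 4 (.lc 4 13 (.lc 3 4 (.lc 3 4 (.lc 3 4 (.lc 4 4 .stop)))))))))))))))))))))))
 (.node [32,155,162,186,66,155,162] 10 2 (.node [160] 8 7 (.node [121] 0 7 .stop
 (.lc 2 1 (.lc 1 4 (.node [183] 11 7 .stop
 (.node [121] 7 9 (.far [4112,1,0,0,4112,0,256,257] 0 (.lc 2 4 (.conf [155,217] (.lc 2 4 (.lc 3 4 .stop)))))
 (.lc 2 4 (.lc 2 4 (.lc 3 10 (.lc 3 0 (.lc 3 11 (.lc 3 13 (.lc 3 1 (.lc 2 4 (.node [121,199,220] 7 9 (.node [155,201,220] 12 9 (.far [1,1,0,0,4096,257,0,1,0,0,0,1,256] 0 (.lc 1 10 (.lc 1 10 (.lc 3 7 (.lc 2 10 .stop)))))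
 (.lc 2 4 (.lc 0 14 (.lc 2 4 (.lc 3 4 .stop)))))
 (.lc 2 4 (.lc 2 4 (.lc 2 4 (.lc 3 12 (.lc 2 4 (.lc 3 0 (.lc 3 12 (.lc 3 13 (.lc 3 4 (.lc 3 4 (.lc 4 0 (.lc 4 14 (.lc 3 4 (.lc 3 4 (.lc 3 4 (.lc 3 4 (.lc 4 4 .stop)))))))))))))))))))))))))))))))
 (.lc 3 8 (.lc 3 12 (.conf [172,192] (.lc 3 12 (.lc 4 13 .stop))))))
 .stop))))))))))
 (.lc 2 2 (.lc 2 2 (.lc 2 2 (.lc 3 1 (.lc 3 9 (.lc 2 2 (.lc 2 2 (.lc 3 0 (.lc 3 10 (.lc 3 4 (.node [66,144] 0 4 (.far [16,16,0,16,0,0,0,16,4096] 0 .stop)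
 (.lc 2 2 (.lc 2 2 (.lc 2 2 (.node [66,148,66] 9 4 (.far [16,16,0,16,0,0,0,16,4096] 0 (.lc 3 8 (.lc 3 10 (.conf [32,154,162] (.lc 3 10 (.lc 4 11 .stop))))))
 (.lc 3 4 (.node [66,148,169,66] 9 4 (.far [16,16,0,16,0,0,0,16,4096] 0 (.lc 3 0 (.lc 3 8 (.lc 3 11 (.far [16,16,0,16,0,0,0,16,4096] 17 (.conf [32,155,178] (.lc 3 0 (.lc 3 11 (.lc 4 11 (.lc 4 12 .stop))))))))))
 (.lc 2 2 (.lc 2 2 (.lc 2 2 (.lc 2 2 (.lc 2 2 (.lc 3 9 (.lc 2 2 (.lc 2 2 (.lc 3 0 (.lc 3 10 (.lc 3 2 (.lc 3 2 (.lc 3 2 (.lc 3 2 (.lc 4 10 (.lc 3 2 (.lc 3 2 (.lc 4 10 (.lc 4 0 (.lc 4 11 (.lc 3 2 (.lc 3 2 (.lc 3 2 (.lc 3 2 (.lc 3 2 (.lc 3 2 (.lc 4 2 (.lc 4 2 .stop)))))))))))))))))))))))))))))))))))))))))))))))))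
 (.node [135] 8 7 (.node [130] 8 2 (.far [1,257,16,0,1] 256 .stop)
 (.lc 1 4 (.node [137] 8 9 (.far [257,257,272,0,1,16,4096] 4097 (.lc 2 7 (.lc 2 7 (.far [257,257,256,257,257,4128,8208,4096,0,257] 4096 (.node [169] 7 4 (.lc 1 2 (.far [4112,0,1,0,256,257] 0 (.node [122,164,169] 7 10 (.lc 0 7 .stop)
 (.node [66,123] 9 7 (.far [1,4112,0,1,0,256,257] 0 (.lc 3 2 (.lc 3 12 (.lc 3 7 (.node [180,203,156,169] 11 4 (.node [178,203] 12 11 (.node [194] 12 2 .stop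
 (.lc 3 13 .stop))
 (.conf [180,194] (.conf [189,210] (.far [1,0,1,0,0,0,1,0,0,0,1,256] 0 (.conf [32,205,210] .stop)))))
 (.lc 3 12 (.lc 4 13 .stop)))))))
 (.lc 2 2 (.lc 2 2 (.lc 2 2 (.lc 3 4 (.lc 3 4 (.lc 2 2 (.lc 2 2 (.lc 0 11 (.node [66,180,203,66,124,151,169] 9 7 (.far [1,4112,0,1,0,256,257] 0 (.lc 3 2 (.lc 3 13 (.lc 3 7 (.lc 1 11 (.lc 3 13 (.lc 4 14 .stop)))))))
 (.lc 2 2 (.lc 2 2 (.lc 2 2 (.lc 2 2 (.lc 2 2 (.lc 3 4 (.lc 3 2 (.lc 3 2 (.lc 3 2 (.lc 4 4 (.lc 3 2 (.lc 3 2 (.lc 3 2 (.lc 3 2 (.lc 4 2 .stop))))))))))))))))))))))))))))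
 (.lc 2 7 (.lc 2 7 (.lc 3 7 (.lc 3 7 .stop)))))))))
 (.lc 2 4 (.lc 2 4 (.lc 3 0 (.lc 3 0 (.lc 1 2 (.conf [138,169] (.lc 2 4 (.lc 2 4 (.lc 2 4 (.lc 2 4 (.lc 3 0 (.lc 2 4 (.lc 3 0 (.lc 3 4 (.lc 2 2 (.lc 4 0 (.lc 4 0 (.lc 3 4 (.lc 3 4 (.lc 3 4 (.lc 3 4 (.lc 3 4 (.lc 3 4 (.lc 4 4 (.lc 4 4 .stop))))))))))))))))))))))))))))
 (.node [135,152] 1 9 (.node [] 9 8 (.lc 2 0 (.node [135,146] 2 8 .stop
 (.node [135,154] 8 7 (.far [257,16,0,256,0,257,16,4096] 0 (.lc 2 4 (.lc 2 4 (.lc 2 4 (.lc 0 11 (.lc 2 4 (.lc 3 4 (.lc 3 4 .stop))))))))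
 (.lc 2 6 (.lc 2 6 (.conf [135,168] (.conf [135,168] (.lc 3 0 (.lc 3 0 (.conf [135,168] (.lc 1 4 (.lc 1 4 (.lc 1 4 (.lc 2 6 (.lc 1 4 (.lc 2 6 (.node [135,154,162] 2 8 .stop
 (.node [135,146] 4 8 (.lc 0 4 .stop)
 (.node [135,155,186] 8 7 (.node [] 9 11 (.node [186] 7 4 (.lc 1 2 (.far [4112,0,1,0,0,0,256,257] 0 (.node [66,124] 10 7 (.far [1,4112,0,1,0,0,0,256,257] 0 (.lc 3 2 (.lc 3 13 (.node [196,220,116] 12 4 (.node [194,220] 13 12 (.node [210] 13 2 (.far [2,513,257,1,4096,4112,4096,1,4096,4096,0,0,4096,0,0,0,257] 4352 (.lc 1 0 .stop))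
 (.lc 3 0 (.lc 3 14 .stop)))
 (.conf [196,210] (.conf [206,226] (.far [1,0,1,0,0,0,0,0,1,0,0,0,1,256] 0 (.conf [32,222,226] .stop)))))
 (.lc 3 13 (.lc 4 14 .stop))))))
 (.lc 2 2 (.lc 2 2 (.lc 2 2 (.lc 3 4 (.lc 2 2 (.lc 2 2 (.lc 0 12 (.node [66,196,220,66,125] 10 7 (.far [1,4112,0,1,0,0,0,256,257] 0 (.lc 3 2 (.lc 3 14 (.lc 1 12 (.lc 3 14 (.lc 4 15 .stop))))))
 (.lc 2 2 (.lc 2 2 (.lc 2 2 (.lc 2 2 (.lc 2 2 (.lc 3 4 (.lc 3 2 (.lc 3 2 (.lc 3 2 (.lc 4 4 (.lc 3 2 (.lc 3 2 (.lc 3 2 (.lc 3 2 (.lc 4 2 .stop))))))))))))))))))))))))))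
 (.lc 2 10 (.lc 2 10 (.far [4112,4112,1,1,4097,0,16,1,256] 17 (.conf [186,203] (.lc 2 10 (.lc 2 10 (.lc 3 10 (.lc 3 10 .stop)))))))))
 (.lc 2 4 (.lc 2 4 (.lc 2 4 (.lc 0 12 (.lc 2 4 (.lc 3 4 (.lc 3 4 .stop))))))))
 (.lc 2 4 (.lc 2 4 (.lc 2 4 (.conf [135,168] (.lc 1 2 (.lc 3 6 (.lc 2 4 (.lc 2 4 (.lc 2 4 (.lc 2 4 (.lc 3 4 .stop))))))))))))))))))))))))))))))
 (.lc 2 8 (.lc 2 8 (.node [169] 9 8 (.node [135,146] 2 8 .stop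
 (.lc 2 1 (.node [135,155] 8 7 (.far [257,16,0,256,0,257,16,4096] 0 (.lc 2 4 (.lc 2 4 (.lc 2 4 (.lc 0 12 (.lc 2 4 (.lc 3 4 .stop)))))))
 (.lc 2 6 (.lc 2 6 (.lc 3 2 (.lc 3 12 (.lc 3 1 (.conf [135,184] (.lc 1 4 (.lc 1 4 (.lc 1 4 (.lc 2 6 (.lc 1 4 (.lc 2 6 (.lc 3 11 (.lc 3 2 (.lc 3 12 (.lc 2 4 (.lc 2 4 (.lc 4 13 (.lc 1 2 (.lc 3 6 (.lc 2 4 (.lc 2 4 (.lc 2 4 (.lc 2 4 (.lc 3 4 .stop))))))))))))))))))))))))))))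
 (.lc 2 8 (.lc 3 8 .stop))))))
 (.far [4112,4112,4096,1,257,256] 4097 (.conf [135,152] (.far [257,257,256,16,4112,4096] 0 (.far [257,257,256,16,4112,4096] 0 (.node [135,152] 8 7 (.node [130] 8 2 .stop
 (.lc 1 4 (.node [138] 9 8 (.far [16,257,272,0,1,16,4096] 4097 (.lc 3 2 (.lc 3 11 (.lc 1 7 (.lc 3 11 (.lc 4 12 .stop))))))
 (.lc 2 4 (.lc 2 4 (.lc 3 6 (.lc 1 2 (.conf [139,186] (.lc 2 4 (.lc 2 4 (.lc 2 4 (.lc 2 4 (.lc 3 6 (.lc 2 4 (.lc 3 6 (.lc 3 4 (.lc 2 2 (.lc 4 6 (.lc 3 4 (.lc 3 4 (.lc 3 4 (.lc 3 4 (.lc 3 4 (.lc 4 4 .stop))))))))))))))))))))))))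
 (.node [135,152,169] 1 10 (.node [169] 8 7 (.node [128] 8 0 .stop
 (.node [130] 8 2 (.lc 0 0 .stop)
 (.lc 1 4 (.node [139] 9 8 (.far [16,257,0,272,0,1,16,4096] 0 (.lc 3 0 (.lc 3 2 (.lc 3 12 (.lc 1 7 (.lc 3 12 (.lc 4 0 (.lc 4 13 .stop))))))))
 (.lc 2 4 (.lc 2 4 (.lc 2 4 (.lc 2 4 (.lc 3 6 (.node [128] 9 8 .stop
 (.lc 1 2 (.conf [140,203] (.lc 2 4 (.lc 2 4 (.lc 2 4 (.lc 2 4 (.lc 2 4 (.lc 2 4 (.lc 2 4 (.lc 3 6 (.lc 3 6 (.lc 2 4 (.lc 3 6 (.lc 3 4 (.lc 3 4 (.lc 3 4 (.lc 4 6 (.lc 2 2 (.lc 4 6 (.lc 3 4 (.lc 3 4 (.lc 3 4 (.lc 3 4 (.lc 3 4 (.lc 3 4 (.lc 3 4 (.lc 3 4 (.lc 3 4 (.lc 3 4 (.lc 4 4 (.lc 4 4 (.lc 4 4 .stop))))))))))))))))))))))))))))))))))))))))))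
 (.lc 2 9 (.lc 2 9 (.conf [169,186] (.lc 2 9 (.lc 3 9 .stop))))))
 .stop)))))))))
 (.lc 2 2 (.lc 2 2 (.lc 2 2 (.node [112] 7 0 (.node [113] 8 7 (.far [1,4112,4112,257,0,1,256] 0 (.lc 3 9 .stop))
 (.lc 3 0 (.conf [121,145] (.lc 3 0 (.lc 4 0 .stop)))))
 (.lc 2 2 (.node [121,148] 6 8 (.far [4112,4112,4096,1,257,256] 0 (.node [135] 8 7 (.node [121,130] 2 7 .stop
 (.node [121,138] 7 9 (.far [4112,1,0,4112,257,0,1,256] 0 (.lc 2 4 (.lc 2 4 (.lc 2 4 (.lc 0 11 (.lc 2 4 (.lc 3 4 (.lc 3 4 .stop))))))))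
 (.lc 2 5 (.lc 3 0 (.lc 3 0 (.conf [121,167] (.lc 2 5 (.lc 2 5 (.lc 2 5 (.lc 3 0 (.lc 3 0 (.lc 3 5 (.lc 4 0 (.lc 4 0 (.lc 3 5 (.lc 3 5 (.lc 3 5 (.lc 3 5 (.lc 3 5 (.lc 3 5 (.lc 4 5 (.lc 4 5 .stop))))))))))))))))))))))
 (.node [135,152] 1 9 .stop
 (.node [135,168] 1 10 (.node [] 8 7 (.node [121,128] 0 7 (.lc 1 4 .stop)
 (.node [121,130] 2 7 .stop
 (.node [121,139] 10 8 (.far [16,257,0,256,0,257,16,4096] 0 (.lc 1 7 (.lc 1 7 (.lc 1 7 (.lc 3 0 (.lc 1 7 (.node [172,203] 10 12 (.node [203] 7 9 (.far [4112,0,0,1,0,0,4112,257,0,1,256] 0 (.lc 2 4 (.lc 2 4 (.lc 0 13 (.lc 2 4 (.lc 3 4 .stop))))))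
 (.lc 2 11 (.lc 2 11 (.lc 2 11 (.far [4112,1,4112,1,4097,0,16,1,256] 17 (.conf [203,220] (.lc 2 11 (.lc 2 11 (.lc 3 11 (.lc 3 11 .stop))))))))))
 (.lc 2 7 .stop))))))))
 (.lc 2 5 (.lc 3 6 (.lc 3 6 (.node [121,128] 2 7 .stop
 (.conf [121,183] (.lc 2 5 (.lc 2 5 (.lc 2 5 (.lc 2 5 (.lc 3 6 (.lc 3 6 (.lc 3 5 (.lc 3 5 (.lc 4 6 (.lc 3 5 (.lc 3 5 (.lc 3 5 (.lc 3 5 (.lc 3 5 (.lc 4 5 .stop)))))))))))))))))))))))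
 (.lc 2 8 (.lc 2 8 (.node [186] 8 7 (.node [121,130] 2 7 .stop
 (.node [121,139,186] 8 11 (.lc 0 1 .stop)
 (.node [121,140] 10 8 (.far [16,257,0,256,0,257,16,4096] 0 (.lc 3 2 (.lc 3 9 (.lc 3 13 (.lc 3 1 (.lc 1 7 (.lc 3 13 (.lc 4 14 .stop))))))))
 (.lc 2 5 (.lc 3 6 (.lc 3 6 (.conf [121,199] (.lc 2 5 (.lc 2 5 (.lc 2 5 (.lc 2 5 (.lc 3 6 (.lc 3 6 (.lc 3 5 (.lc 4 6 (.lc 3 5 (.lc 3 5 (.lc 3 5 (.lc 3 5 (.lc 3 5 (.lc 4 5 .stop)))))))))))))))))))))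
 (.lc 2 8 (.lc 3 8 .stop))))))
 (.far [4112,4112,4096,1,257,256] 4097 (.conf [135,168] (.node [135] 8 7 (.node [121,130] 2 7 .stop
 (.node [121,138] 7 9 (.far [4112,1,0,4112,257,0,1,256] 0 (.lc 2 4 (.lc 2 4 (.lc 0 11 (.lc 2 4 (.lc 3 4 .stop))))))
 (.lc 2 5 (.lc 3 0 (.lc 3 0 (.conf [121,167] (.lc 2 5 (.lc 2 5 (.lc 2 5 (.lc 3 0 (.lc 3 5 (.lc 4 0 (.lc 3 5 (.lc 3 5 (.lc 3 5 (.lc 3 5 (.lc 4 5 .stop)))))))))))))))))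
 (.node [135,168] 8 7 (.node [121,128] 0 7 (.far [1,1,0,4112,257,0,1,256] 0 (.lc 1 4 (.lc 1 4 (.lc 1 4 (.far [1,1,0,4112,257,0,1,256] 17 (.lc 2 4 .stop))))))
 (.node [121,130] 2 7 .stop
 (.node [121,139] 10 8 (.far [16,257,257,0,513,16,4096] 0 (.lc 3 0 (.lc 3 2 (.lc 3 9 (.lc 3 12 (.lc 1 7 (.lc 1 7 (.lc 3 0 (.lc 3 12 (.lc 4 12 (.lc 4 0 (.lc 4 0 (.lc 4 13 .stop)))))))))))))
 (.lc 2 5 (.lc 2 5 (.lc 3 6 (.lc 3 6 (.conf [139,176] (.node [121,128] 2 7 .stop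
 (.conf [121,183] (.conf [121,183] (.lc 2 5 (.lc 2 5 (.lc 2 5 (.lc 2 5 (.lc 3 6 (.lc 3 6 (.lc 3 6 (.lc 3 5 (.lc 3 5 (.lc 3 5 (.lc 3 5 (.lc 4 6 (.lc 4 6 (.lc 4 6 (.lc 4 6 (.lc 3 5 (.lc 3 5 (.lc 3 5 (.lc 3 5 (.lc 3 5 (.lc 3 5 (.lc 3 5 (.lc 4 5 (.lc 4 5 (.lc 4 5 (.lc 4 5 .stop)))))))))))))))))))))))))))))))))))))
 (.node [135,168] 8 7 (.node [121,130] 2 7 .stop
 (.node [121,139] 10 8 (.far [16,257,272,0,1,16,4096] 4097 (.lc 3 2 (.lc 3 9 (.lc 3 12 (.lc 1 7 (.lc 3 12 (.lc 4 13 .stop)))))))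
 (.lc 2 5 (.lc 3 6 (.conf [121,183] (.lc 2 5 (.lc 2 5 (.lc 2 5 (.lc 3 6 (.lc 3 6 (.lc 3 5 (.lc 4 6 (.lc 3 5 (.lc 3 5 (.lc 3 5 (.lc 3 5 (.lc 4 5 .stop)))))))))))))))))
 (.node [135,168,186] 1 11 (.node [186] 8 7 (.node [121,128] 0 7 (.lc 1 4 .stop)
 (.node [121,130] 2 7 .stop
 (.node [121,140] 10 8 (.far [16,257,0,272,0,1,16,4096] 0 (.lc 3 0 (.lc 3 2 (.lc 3 9 (.lc 3 13 (.lc 1 7 (.lc 3 13 (.lc 4 0 (.lc 4 14 .stop)))))))))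
 (.lc 2 5 (.lc 3 6 (.node [121,128] 2 7 .stop
 (.conf [121,199] (.lc 2 5 (.lc 2 5 (.lc 2 5 (.lc 2 5 (.lc 3 6 (.lc 3 6 (.lc 3 6 (.lc 3 5 (.lc 3 5 (.lc 4 6 (.lc 4 6 (.lc 3 5 (.lc 3 5 (.lc 3 5 (.lc 3 5 (.lc 3 5 (.lc 4 5 (.lc 4 5 .stop)))))))))))))))))))))))))
 (.lc 2 10 (.lc 2 10 (.conf [186,203] (.lc 2 10 (.lc 3 10 .stop))))))
 .stop))))))))))
 (.lc 2 2 (.lc 2 2 (.lc 3 2 (.lc 3 2 (.lc 3 2 (.lc 3 2 .stop)))))))))))))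
 (.node [103,112,84] 0 5 (.far [257,1,4112,4096,0,0,257] 4096 (.far [1,1,0,1,256] 0 (.node [84] 6 7 (.node [112] 7 0 (.far [16,0,257,4096] 0 (.conf [121,152] .stop))
 (.lc 2 0 (.lc 2 0 (.lc 2 0 (.conf [112,135] (.conf [112,151] (.lc 2 0 (.lc 2 0 (.lc 3 0 (.lc 3 0 (.lc 3 0 .stop)))))))))))
 (.lc 1 2 (.lc 2 0 (.node [84,133,84,66] 6 7 (.node [112] 5 4 (.far [257,0,256,0,4112,4112,4096,0,257] 4096 (.lc 2 2 (.lc 0 9 (.lc 2 2 (.lc 3 2 .stop)))))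
 (.lc 2 0 (.lc 2 0 (.lc 2 0 (.conf [112,151] (.lc 2 0 (.lc 3 0 .stop)))))))
 (.node [66,132] 6 7 (.node [112] 7 0 (.node [120] 8 4 (.node [130] 7 8 .stop
 (.conf [137,146] .stop))
 (.lc 1 4 .stop))
 (.lc 2 0 (.lc 2 0 (.conf [112,151] (.lc 2 0 (.lc 3 0 .stop))))))
 (.node [84,133,40,84] 6 7 (.node [112] 5 4 (.far [257,0,256,0,4112,4112,4096,0,257] 4096 (.lc 2 2 (.lc 0 9 (.lc 2 2 (.lc 3 2 .stop)))))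
 (.lc 2 0 (.lc 2 0 (.lc 2 0 (.conf [112,151] (.lc 2 0 (.lc 3 0 .stop)))))))
 (.node [84,133,152,84,66] 6 7 (.node [112] 7 0 (.node [121,152,133] 7 9 (.node [152] 1 9 .stop
 (.lc 1 5 .stop))
 (.lc 1 8 .stop))
 (.lc 2 0 (.lc 2 0 (.lc 2 0 (.lc 2 0 (.conf [112,167] (.lc 2 0 (.lc 3 0 (.lc 3 0 .stop)))))))))
 (.lc 2 0 (.lc 1 2 (.lc 1 2 (.node [84] 6 7 (.node [112] 5 4 (.far [4112,0,1,1,0,1,256] 17 (.conf [66,80,137] (.far [4112,0,1,1,0,1,256] 17 (.node [66,80,148] 4 2 .stop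
 (.conf [66,80,138] .stop)))))
 (.lc 2 0 (.lc 2 0 (.lc 2 0 (.conf [112,135] (.conf [112,151] (.lc 2 0 (.lc 2 0 (.lc 3 0 (.lc 3 0 (.lc 3 0 .stop)))))))))))
 (.lc 3 0 (.node [84,133,152,41,84] 6 7 (.node [112] 5 4 (.node [132] 4 2 (.far [1,4112,0,4096,0,0,0,16,4096] 17 (.lc 1 8 .stop))
 (.lc 2 2 (.lc 0 10 (.lc 2 2 (.lc 3 2 .stop)))))
 (.lc 2 0 (.lc 2 0 (.lc 2 0 (.lc 2 0 (.conf [112,167] (.lc 2 0 (.lc 3 0 (.lc 3 0 .stop)))))))))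
 .stop)))))))))))))))
 (.far [257,4112,4096,0,0,257] 4096 (.node [103,114,84] 2 5 (.lc 0 2 .stop)
 (.lc 2 3 (.lc 1 2 (.lc 2 3 (.node [96,84] 6 0 (.node [] 7 5 (.node [84] 2 5 (.lc 0 2 .stop)
 (.far [1,0,1,0,1,256] 0 (.node [84] 5 4 (.far [4112,1,0,1,0,1,256] 0 (.conf [66,83,137] (.lc 2 2 (.far [4112,1,0,1,0,1,256] 0 (.node [66,83,148] 9 4 (.node [146] 8 9 (.lc 2 5 (.node [138,146] 9 2 (.node [162] 10 2 (.far [258,4097,1,257,4096,1,16,4096] 256 .stop)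
 (.lc 0 11 .stop))
 (.lc 3 5 (.lc 2 2 (.conf [146,169] (.lc 3 5 (.conf [146,169] (.lc 2 2 (.node [139,146,186,120] 8 11 (.node [186] 10 9 (.far [1,4112,1,4112,258,256] 0 (.lc 3 12 .stop))
 (.lc 0 12 (.lc 0 12 (.lc 2 10 (.lc 0 13 .stop)))))
 (.conf [146,169] (.lc 3 2 .stop)))))))))))
 (.lc 3 7 (.lc 3 10 (.conf [154,162] (.lc 3 10 (.lc 4 11 .stop))))))
 (.conf [66,83,138] .stop))))))
 (.lc 1 2 (.lc 2 3 (.lc 3 8 (.lc 3 2 (.lc 3 9 (.node [66,132] 8 4 (.node [130] 7 8 (.node [121,130] 8 2 (.node [146] 9 2 .stop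
 (.lc 0 10 .stop))
 (.lc 2 2 (.conf [130,152] (.conf [130,152] (.lc 3 0 (.lc 2 2 (.node [122,130,169] 7 10 .stop
 (.conf [130,152] (.lc 3 2 .stop)))))))))
 (.lc 3 9 (.conf [137,146] (.lc 3 9 (.lc 4 10 .stop)))))
 (.node [84,133,152,84,66] 5 4 (.node [132] 8 4 (.lc 1 2 (.node [66,138,152] 9 8 (.node [154] 10 4 (.node [162] 9 10 (.lc 1 2 (.node [155,162] 7 9 (.node [123] 11 10 (.node [178] 11 2 (.lc 0 0 .stop)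
 (.far [1,0,1,4112,256,256] 0 .stop))
 (.lc 1 10 (.lc 1 10 (.far [1,4112,0,4096,4112,256,256] 0 (.lc 2 10 .stop)))))
 (.lc 2 2 (.lc 3 7 (.conf [156,203] (.lc 3 7 (.lc 3 7 (.lc 3 7 (.lc 4 7 (.lc 4 7 .stop))))))))))
 (.node [121,167,66,114] 10 7 .stop
 (.node [171,178,66] 9 10 (.node [155] 7 9 (.node [123] 11 2 (.lc 0 0 .stop)
 (.lc 1 2 (.lc 1 2 (.far [1,4112,0,4096,4112,256,256] 0 (.lc 2 2 .stop)))))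
 (.lc 3 7 (.conf [156,203] (.lc 3 7 (.lc 4 7 .stop)))))
 (.far [16,0,16,16,0,0,0,0,0,16,4096] 0 (.far [1,0,1,1,0,0,0,0,0,1,256] 0 (.node [172,203,66,178] 9 10 (.far [1,4096,256,257,1,0,0,0,0,0,1,256] 0 (.lc 3 7 (.lc 1 11 (.lc 3 7 (.lc 4 7 .stop)))))
 .stop))))))
 (.lc 3 2 (.lc 3 11 (.lc 1 4 (.lc 3 11 (.lc 4 12 .stop))))))
 (.lc 2 2 (.lc 2 2 (.conf [132,154] (.lc 2 2 (.conf [139,186] (.lc 2 2 (.lc 2 2 (.lc 2 2 (.node [132,154,121,66] 7 9 (.node [122] 10 4 (.far [1,0,1,1,0,0,0,0,0,1,256] 0 (.lc 3 11 (.node [32,171,178] 11 2 .stop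
 (.lc 3 11 (.lc 4 12 .stop)))))
 (.lc 3 2 (.lc 3 11 (.lc 1 4 (.lc 3 11 (.lc 4 12 .stop))))))
 (.lc 3 2 (.lc 3 2 (.conf [132,164,66] (.lc 3 2 (.lc 3 2 (.lc 3 2 (.lc 4 2 .stop))))))))))))))))))
 (.lc 2 2 (.lc 2 2 (.lc 0 10 (.lc 2 2 (.lc 3 2 .stop))))))
 (.lc 2 3 (.lc 1 2 (.lc 2 3 (.lc 3 8 (.lc 1 2 (.lc 3 8 (.lc 3 9 (.lc 3 3 (.lc 4 9 (.lc 4 10 (.lc 2 2 (.lc 3 3 (.lc 3 3 (.lc 3 3 (.lc 4 3 .stop)))))))))))))))))))))))))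
 .stop)
 (.node [104,135,84] 6 8 (.node [135] 7 5 (.node [84] 0 5 (.far [1,1,0,1,0,1,256] 0 (.node [66,80,148] 9 4 (.node [146] 0 9 (.far [4112,0,4112,256] 0 (.lc 0 10 .stop))
 (.lc 3 7 (.lc 3 10 (.conf [154,162] (.lc 3 10 (.lc 4 11 .stop))))))
 (.lc 1 2 .stop)))
 (.node [84] 2 5 (.lc 0 2 .stop)
 (.far [1,0,1,0,1,256] 0 (.node [84] 5 4 (.far [4112,1,0,1,0,1,256] 0 (.conf [66,83,144] (.conf [66,83,154] (.far [4112,1,0,1,0,1,256] 0 (.lc 2 2 (.far [4112,1,0,1,0,1,256] 0 (.node [66,83] 0 4 (.far [257,4112,1,4112,1,4096,1,256,0,257] 4096 .stop)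
 (.node [66,83,164] 10 4 (.node [162] 9 10 (.node [144,162] 0 10 (.far [513,1,257,4096,1,4112,1,8208,4096,0,0,514] 8192 .stop)
 (.lc 2 5 (.node [155,162] 10 2 (.node [178] 11 2 (.far [2,4097,1,257,4096,1,4112,1,8208,4096,0,0,514] 8192 (.node [121,183,112] 11 7 (.conf [112,149] .stop)
 (.node [188,192] 9 11 (.far [2,8192,257,513,257,4096,1,4112,1,8208,4096,0,0,514] 8192 (.lc 3 5 (.lc 0 12 (.node [192,220,157] 9 13 (.far [4112,4112,0,0,4112,0,256,256] 0 (.lc 0 14 (.lc 0 14 (.lc 2 12 (.lc 0 15 .stop)))))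
 (.lc 0 12 (.lc 0 13 .stop))))))
 (.node [188,192,188] 9 11 (.far [4112,0,0,4112,0,256,256] 0 (.lc 1 2 (.node [157,188] 11 12 (.far [4112,1,4112,256,256] 0 (.lc 2 0 (.lc 2 0 (.lc 0 14 (.lc 2 0 (.lc 3 0 .stop))))))
 (.lc 0 12 (.lc 2 2 (.lc 3 5 (.lc 3 5 (.lc 0 12 (.lc 2 2 (.lc 0 13 (.conf [188,219] (.lc 2 2 (.lc 2 2 (.lc 3 5 (.lc 0 12 (.lc 0 13 (.lc 0 13 (.lc 3 2 (.lc 0 13 (.lc 0 14 (.lc 0 13 (.lc 0 13 (.lc 4 5 (.lc 0 14 .stop))))))))))))))))))))))))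
 (.far [2,4097,1,257,4096,1,4112,1,8208,4096,0,0,514] 8192 (.node [189,220,192] 9 11 (.far [2,8192,257,513,257,4096,1,4112,1,8208,4096,0,0,514] 8192 (.lc 3 5 (.lc 0 13 (.lc 1 12 (.lc 0 13 (.lc 0 14 .stop))))))
 .stop))))))
 (.lc 0 0 (.lc 0 0 (.lc 0 12 (.far [257,16,257,4128,1,4112,1,1,258,512] 17 (.lc 0 12 .stop))))))
 (.lc 2 2 (.lc 0 2 (.lc 2 2 (.node [145,162] 9 1 .stop
 (.node [155,162,176] 0 10 (.far [256,0,257,4112,1,4112,1,4096,1,256,0,257] 4096 .stop)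
 (.conf [162,186] (.conf [162,186] (.lc 0 0 (.conf [155,176] (.conf [162,186] (.lc 0 11 (.conf [162,186] (.lc 2 2 (.lc 2 2 (.lc 2 2 (.node [155,162,176] 0 10 (.far [1,1,4112,258,16,257,16,16,4128,8192] 0 .stop)
 (.node [144,162] 9 0 .stop
 (.node [156,162,203] 9 12 (.node [203] 11 10 (.far [1,4112,1,4112,258,256] 0 (.lc 3 0 (.far [1,4112,1,4112,258,256,0,0,8224,8224,8192,0,514] 8192 (.lc 3 0 (.lc 3 13 (.lc 4 13 .stop))))))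
 (.lc 0 0 (.lc 0 13 (.lc 0 0 (.lc 0 13 (.lc 2 11 (.lc 2 11 (.lc 0 13 (.lc 0 0 (.lc 0 14 .stop))))))))))
 (.lc 0 0 (.lc 3 2 (.node [156,162,203,176] 0 10 (.far [256,0,257,4112,1,4112,1,4096,1,256,0,257] 4096 .stop)
 (.conf [162,186] (.conf [162,186] (.conf [162,186] (.lc 3 2 (.lc 3 2 (.lc 3 2 (.lc 3 2 (.lc 4 2 .stop))))))))))))))))))))))))))))))))
 (.lc 3 0 (.lc 3 7 (.lc 3 11 (.far [16,257,16,257,16,16,4128,8208,4096] 17 (.conf [171,178] (.lc 3 0 (.lc 3 11 (.lc 4 11 (.lc 4 12 .stop))))))))))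
 (.conf [66,83,154] (.conf [66,83,144] (.conf [66,83,155] .stop)))))))))))
 (.lc 2 3 (.lc 1 2 (.lc 2 3 (.lc 3 1 (.lc 3 9 (.lc 3 0 (.lc 3 0 (.lc 3 9 (.lc 3 0 (.lc 3 2 (.lc 3 10 (.node [84,144] 0 5 .stop
 (.node [84] 2 5 (.lc 0 2 .stop)
 (.node [66] 0 4 (.far [257,1,4112,1,4096,1,256,0,257] 4096 .stop)
 (.node [66,148] 9 4 (.node [146] 8 7 (.node [121,128] 8 0 (.node [] 7 9 (.node [146] 9 2 (.far [4096,4096,4112,4096,0,0,4096,0,4096,0,0,0,257] 4096 .stop)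
 (.node [122,146] 9 2 (.node [162] 7 10 (.node [162] 10 2 (.lc 2 0 .stop)
 (.lc 2 2 .stop))
 (.lc 0 0 (.lc 0 11 .stop)))
 (.lc 2 2 (.lc 2 2 (.lc 3 0 (.conf [146,169] (.lc 2 2 (.lc 3 0 .stop))))))))
 .stop)
 (.lc 1 5 (.node [121,138] 1 8 (.node [167] 1 10 (.node [167] 7 9 (.node [112,146] 7 0 (.lc 0 0 .stop)
 (.node [146] 10 9 (.far [4112,256,1,256,256] 17 .stop)
 (.node [123,146] 10 7 (.node [171] 11 9 (.node [178] 10 11 (.node [178] 11 2 (.far [4096,4096,0,0,0,1,257,0,0,0,4096,0,4096,0,0,0,257] 4096 .stop)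
 (.far [4097,4112,256,256,1,257,0,0,0,4096,0,4096,0,0,0,257] 4096 (.far [4112,0,4112,0,1,256,256] 0 .stop)))
 (.lc 3 0 (.far [16,32,513,0,16,272,257,257,16,4096] 17 (.lc 3 0 (.lc 3 12 (.lc 4 12 .stop))))))
 (.lc 3 0 (.lc 3 0 (.lc 1 9 (.lc 3 0 (.lc 4 0 .stop))))))
 (.lc 2 2 (.lc 2 2 (.lc 3 5 (.lc 3 5 (.lc 0 0 (.conf [146,185] (.lc 2 2 (.lc 3 5 (.lc 3 5 (.lc 3 2 (.lc 3 2 (.lc 4 5 (.lc 4 5 (.lc 4 5 (.lc 4 5 .stop))))))))))))))))))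
 (.node [167,186] 10 7 (.node [121] 7 9 (.node [146] 11 9 (.node [178] 11 2 (.far [4096,0,0,0,1,257,0,0,0,4096,0,4096,0,0,0,257] 4096 .stop)
 (.lc 3 0 (.lc 3 0 (.lc 3 0 .stop))))
 (.lc 2 2 (.lc 0 12 .stop)))
 (.lc 2 5 (.conf [121,199] .stop)))
 (.node [167,186,167] 7 9 (.node [146] 10 9 .stop
 (.node [123,146,186] 7 11 (.lc 0 1 .stop)
 (.node [124,146] 10 7 (.node [172] 10 12 (.far [257,257,0,16,4096,4096] 0 (.lc 0 13 (.lc 0 13 (.lc 2 9 (.lc 0 14 .stop)))))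
 (.lc 3 1 (.lc 3 1 (.lc 1 9 (.lc 3 1 (.lc 4 1 .stop))))))
 (.lc 2 2 (.lc 3 5 (.lc 3 5 (.lc 0 1 (.conf [146,201] (.lc 2 2 (.lc 3 5 (.lc 3 5 (.lc 3 2 (.lc 4 5 (.lc 4 5 .stop))))))))))))))
 (.far [257,257,0,0,0,4096,0,4096,0,0,0,257] 16 (.node [167,186,203] 10 7 (.far [257,256,1,4096,0,0,4096,0,4096,0,0,0,257] 16 (.lc 2 5 (.lc 0 13 .stop)))
 .stop)))))
 (.lc 1 7 (.lc 1 7 (.lc 1 7 (.far [1,4112,0,0,4096,4112,1,256] 4097 (.lc 2 7 .stop))))))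
 (.lc 2 9 (.lc 2 9 (.lc 2 9 (.lc 2 9 (.lc 3 1 (.lc 3 1 (.conf [138,160] (.conf [121,167] (.conf [121,167] (.lc 2 9 (.lc 2 9 (.lc 2 9 (.lc 2 9 (.lc 2 9 (.lc 3 1 (.lc 3 9 (.lc 3 9 (.lc 3 9 (.lc 3 9 (.lc 4 1 (.lc 3 9 (.lc 3 9 (.lc 3 9 (.lc 3 9 (.lc 4 9 .stop))))))))))))))))))))))))))))
 (.lc 3 0 (.lc 3 10 (.far [16,16,257,16,16,4128,8208,4096] 17 (.conf [154,162] (.lc 3 0 (.lc 3 10 (.lc 4 10 (.lc 4 11 .stop)))))))))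
 (.node [84,149,84,66] 5 4 (.node [148] 0 9 (.far [257,4112,1,4112,1,4096,1,256,0,257] 4096 (.lc 1 2 (.conf [148,169] (.lc 1 2 .stop))))
 (.lc 2 2 (.lc 2 2 (.lc 0 10 (.lc 2 2 (.lc 3 2 .stop))))))
 (.node [84,149,169,84,66] 5 4 (.node [148] 8 7 (.node [122,128] 8 0 (.node [] 9 4 (.lc 1 2 (.node [66,155,169] 10 9 (.node [171] 11 4 (.node [178] 7 10 (.node [171] 10 11 (.lc 2 2 .stop)
 (.node [124,171] 10 11 (.node [178] 7 12 (.node [203] 12 11 (.node [194] 12 2 (.far [4096,0,4096,0,0,0,0,0,4112,4096,0,0,4096,0,4096,0,0,0,257] 4096 .stop)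
 (.far [257,4112,4096,4096,0,0,0,4112,4096,0,0,4096,0,4096,0,0,0,257] 4096 .stop))
 (.lc 2 11 (.lc 2 11 .stop)))
 (.lc 2 2 (.lc 0 13 .stop)))
 (.lc 2 7 (.lc 3 0 (.conf [171,202] (.lc 2 7 (.lc 3 0 (.lc 3 0 (.lc 3 7 (.lc 4 0 (.lc 4 0 (.lc 4 0 .stop))))))))))))
 (.far [514,1,4097,4112,4112,4096,1,8208,4096,8192,0,0,0,514] 8192 (.node [188,194,66] 10 11 (.node [172] 7 10 (.node [124] 7 12 (.node [194] 12 2 (.far [4096,4096,0,0,0,0,0,4112,4096,0,0,4096,0,4096,0,0,0,257] 4096 .stop)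
 (.lc 2 2 .stop))
 (.lc 3 0 (.lc 1 2 .stop)))
 (.lc 3 7 (.conf [173,220] .stop)))
 (.far [16,0,16,0,0,16,0,0,0,0,0,16,4096] 0 (.far [1,0,1,0,0,1,0,0,0,0,0,1,256] 0 (.node [189,220,66,194] 10 11 (.far [1,4096,256,257,0,0,1,0,0,0,0,0,1,256] 0 (.lc 3 7 (.lc 1 12 .stop)))
 .stop))))))
 (.lc 3 2 (.lc 3 12 (.lc 1 4 (.lc 3 12 (.lc 4 13 .stop))))))
 (.lc 2 2 (.lc 2 2 (.conf [148,171] (.lc 2 2 (.conf [156,203] (.lc 2 2 (.lc 2 2 (.lc 2 2 (.lc 2 2 (.node [148,171,66] 7 10 (.node [123] 11 4 (.far [1,0,1,0,0,1,0,0,0,0,0,1,256] 0 (.lc 3 0 (.lc 3 12 (.node [32,188,194] 7 11 (.node [188] 11 12 .stop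
 (.lc 2 4 .stop))
 (.lc 3 12 (.lc 4 13 .stop))))))
 (.lc 3 0 (.lc 1 4 (.lc 4 0 .stop))))
 (.lc 3 2 (.lc 3 2 (.conf [148,180,66] (.lc 3 2 (.lc 3 2 (.lc 3 2 (.lc 3 2 (.lc 4 2 .stop))))))))))))))))))))
 .stop)
 (.node [122,130] 8 2 .stop
 (.lc 1 5 (.node [122,139] 1 8 (.node [183] 1 11 (.node [183] 11 7 (.lc 2 0 (.node [122,178] 2 7 .stop
 (.node [117,169,148] 11 10 (.node [169] 10 9 (.node [148] 9 4 (.lc 2 2 .stop)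
 (.far [4112,1,258,0,1,4097,0,4112,1,256] 17 (.lc 2 2 .stop)))
 (.lc 2 7 (.far [4112,4112,1,256,256] 17 (.conf [169,202] .stop))))
 (.node [122,188] 7 10 (.node [169] 11 12 (.node [202] 10 9 (.node [148,162] 2 9 (.lc 0 2 .stop)
 (.node [148,173] 12 10 (.node [205] 9 4 (.node [66] 12 13 (.node [212] 13 4 .stop
 (.far [4112,0,4112,0,1,256,256] 17 .stop))
 (.lc 2 2 (.lc 2 2 (.lc 0 14 (.lc 2 2 (.lc 3 2 .stop))))))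
 (.lc 3 0 (.lc 1 9 (.lc 4 0 .stop))))
 (.lc 1 2 (.conf [148,173] (.conf [148,167] (.conf [148,217] (.lc 1 2 (.node [148,167,196] 12 4 (.far [257,1,16,1,4112,0,0,16,0,257,4112,4096,4096,0,0,0,257] 4096 .stop)
 (.lc 0 0 (.lc 2 2 (.lc 0 0 (.lc 2 2 (.lc 3 2 .stop)))))))))))))
 (.far [1,0,257,0,1,4096,0,0,4096,0,4096,0,0,0,257] 4096 (.node [202,220,169,176,148] 12 10 (.node [169] 10 9 (.node [148] 13 9 (.node [66] 13 4 .stop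
 (.lc 1 2 .stop))
 (.lc 2 4 (.lc 0 14 (.lc 2 2 .stop))))
 (.lc 2 7 (.conf [169,234] .stop)))
 (.far [4112,0,4112,1,256,256] 17 (.far [4112,0,4112,1,256,256] 0 (.far [257,0,257,16,4096,4096] 0 (.far [257,0,257,16,4096,4096] 0 (.node [202,220,169,45,176,148] 12 10 (.far [257,256,4096,1,16,4096,4096] 0 (.lc 2 7 (.lc 0 14 .stop)))
 (.node [202,220,237,169,176,148] 12 10 (.far [257,256,4096,1,16,4096,4096] 0 (.lc 2 7 (.lc 0 15 .stop)))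
 .stop)))))))))
 (.lc 2 9 (.lc 2 9 (.lc 2 9 (.lc 0 13 (.lc 2 9 (.lc 3 9 (.lc 3 9 .stop))))))))
 (.lc 2 5 (.lc 2 5 (.lc 3 0 (.lc 1 9 (.lc 3 0 (.lc 3 0 (.lc 1 9 (.lc 1 9 (.lc 3 0 (.conf [122,199] (.lc 2 5 (.lc 2 5 (.lc 2 5 (.lc 2 5 (.lc 3 0 (.lc 3 0 (.lc 3 0 (.lc 3 5 (.lc 3 5 (.lc 3 5 (.lc 2 9 (.lc 2 9 (.lc 4 0 (.lc 4 0 (.lc 3 5 (.lc 3 5 (.lc 3 5 (.lc 3 5 (.lc 3 5 (.lc 3 5 (.lc 4 5 (.lc 4 5 .stop))))))))))))))))))))))))))))))))))))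
 (.node [169,183,148,171] 10 11 (.lc 2 9 .stop)
 (.node [183,203] 11 7 (.node [122] 12 7 (.node [169] 10 9 (.node [148,162] 2 9 (.lc 0 2 .stop)
 (.node [148,173] 12 10 (.node [205] 9 4 (.node [66] 12 13 (.node [212] 13 4 .stop
 (.far [4112,0,4112,0,4112,16,1,256,256] 17 .stop))
 (.lc 2 2 (.lc 2 2 (.lc 0 14 (.lc 2 2 (.lc 3 2 .stop))))))
 (.lc 3 0 (.lc 1 9 (.lc 4 0 .stop))))
 (.lc 1 2 (.conf [148,173] (.conf [148,167] (.conf [148,217] (.lc 1 2 (.node [148,167,196] 12 4 (.far [257,1,256,0,16,4096,4112,0,257,4112,4096,4096,0,0,0,257] 4096 .stop)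
 (.lc 0 0 (.lc 2 2 (.lc 0 0 (.lc 2 2 (.lc 3 2 .stop)))))))))))))
 (.lc 1 9 (.lc 1 9 (.lc 1 9 (.lc 3 13 (.lc 2 9 .stop))))))
 (.lc 2 5 (.lc 1 9 (.conf [122,215] (.lc 2 5 (.lc 3 5 .stop))))))
 (.node [183,203,183] 11 7 (.node [122,178] 2 7 .stop
 (.node [117,169,148] 11 10 (.far [257,257,16,4096,4096] 0 (.lc 2 7 (.lc 0 13 .stop)))
 (.lc 2 1 (.node [122,189] 12 11 (.far [16,257,16,4096,4096] 0 (.lc 3 2 (.lc 3 10 (.lc 3 14 (.lc 1 7 (.lc 3 14 (.lc 4 15 .stop)))))))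
 (.lc 2 5 (.lc 2 5 (.lc 1 9 (.lc 3 1 (.lc 1 9 (.lc 1 9 (.lc 3 1 (.conf [122,215] (.lc 2 5 (.lc 2 5 (.lc 2 5 (.lc 2 5 (.lc 3 1 (.lc 3 1 (.lc 3 1 (.lc 3 5 (.lc 3 5 (.lc 2 9 (.lc 4 1 (.lc 3 5 (.lc 3 5 (.lc 3 5 (.lc 3 5 (.lc 4 5 .stop))))))))))))))))))))))))))))
 (.far [257,257,0,0,0,4096,0,4096,0,0,0,257] 16 (.node [183,203,220] 11 7 (.far [257,256,1,4096,0,0,4096,0,4096,0,0,0,257] 16 (.lc 2 5 (.lc 1 9 (.lc 0 14 (.lc 2 5 (.lc 3 5 .stop))))))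
 .stop))))))
 (.lc 1 7 (.lc 1 7 (.lc 1 7 (.far [1,4112,0,0,4096,4112,1,256] 4097 (.lc 2 7 .stop))))))
 (.lc 2 10 (.lc 2 10 (.lc 2 10 (.lc 2 10 (.lc 2 10 (.lc 2 10 (.lc 3 1 (.lc 2 5 (.lc 3 1 (.conf [139,176] (.node [122,128] 2 7 (.far [4112,16,0,0,0,4112,0,16,4112,4096] 17 (.lc 2 2 .stop))
 (.lc 2 5 (.lc 2 5 (.conf [122,183] (.conf [122,183] (.lc 2 10 (.lc 2 10 (.lc 2 10 (.lc 2 10 (.lc 2 10 (.lc 2 10 (.lc 2 10 (.lc 3 1 (.lc 3 10 (.lc 3 10 (.lc 3 10 (.lc 3 10 (.lc 3 10 (.lc 3 10 (.lc 3 5 (.lc 4 1 (.lc 3 10 (.lc 3 10 (.lc 3 10 (.lc 3 10 (.lc 4 10 .stop))))))))))))))))))))))))))))))))))))))))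
 (.lc 2 2 (.lc 2 2 (.lc 0 0 (.lc 2 2 (.lc 0 11 (.lc 2 2 (.lc 2 2 (.lc 3 2 (.lc 3 2 (.lc 3 2 .stop)))))))))))
 (.lc 2 3 (.lc 2 3 (.lc 2 3 (.lc 1 2 (.lc 2 3 (.lc 3 9 (.lc 3 0 (.lc 3 9 (.lc 3 0 (.lc 1 2 (.lc 3 9 (.lc 3 0 (.lc 3 10 (.lc 3 3 (.lc 3 3 (.lc 3 3 (.lc 4 10 (.lc 4 9 (.lc 4 9 (.lc 4 0 (.lc 4 10 (.lc 4 10 (.lc 4 0 (.lc 4 0 (.lc 4 11 (.lc 3 3 (.lc 2 2 (.lc 2 2 (.lc 3 3 (.lc 3 3 (.lc 3 3 (.lc 3 3 (.lc 3 3 (.lc 3 3 (.lc 3 3 (.lc 3 3 (.lc 3 3 (.lc 4 3 (.lc 4 3 (.lc 4 3 (.lc 4 3 .stop))))))))))))))))))))))))))))))))))))))))))))))))))))))))))))))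
 (.lc 2 7 (.lc 2 7 (.lc 2 7 (.node [135] 7 5 (.node [84] 2 5 (.lc 0 2 .stop)
 (.far [1,0,1,0,1,256] 0 (.node [84] 5 4 (.far [4112,1,0,1,0,1,256] 0 (.conf [66,83,154] (.lc 2 2 (.far [4112,1,0,1,0,1,256] 0 (.node [66,83,164] 10 4 (.far [1,4112,1,4112,1,1,258,513,256] 4097 (.lc 3 0 (.lc 3 7 (.lc 3 11 (.conf [171,178] (.lc 3 11 (.lc 4 12 .stop)))))))
 (.conf [66,83,155] .stop))))))
 (.lc 1 2 (.lc 2 3 (.lc 3 0 (.lc 3 9 (.lc 3 2 (.lc 3 10 (.node [66,148] 9 4 (.far [1,1,4112,1,1,258,513,256] 4097 (.lc 3 0 (.lc 3 10 (.conf [154,162] (.lc 3 10 (.lc 4 11 .stop))))))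
 (.node [84,149,169,84,66] 5 4 (.node [148] 8 7 (.node [122,130] 8 2 (.far [4096,0,0,0,4096,0,4096,0,0,0,257] 4096 .stop)
 (.lc 1 5 (.node [122,139] 0 8 (.node [183] 9 4 (.lc 1 2 (.node [66,155,169] 9 11 .stop
 (.node [66,156,169] 10 9 (.far [1,4112,16,257,4128,1,16,258,0,2,512] 4097 (.lc 3 2 (.lc 3 11 (.lc 3 13 (.lc 1 4 (.lc 3 13 (.lc 4 14 .stop)))))))
 (.lc 2 2 (.lc 2 2 (.conf [148,172] (.lc 2 2 (.conf [157,220] (.lc 2 2 (.lc 2 2 (.lc 2 2 (.lc 2 2 (.node [148,171,180] 10 11 (.lc 0 5 .stop)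
 (.node [148,172,66] 7 10 (.node [124] 12 4 (.far [1,0,1,0,0,1,0,0,0,0,0,1,256] 0 (.lc 3 11 (.lc 3 13 (.node [32,205,210] 7 12 (.node [205] 11 12 (.node [210] 11 13 .stop
 (.lc 1 2 .stop))
 (.lc 0 13 (.lc 0 13 (.lc 0 14 (.lc 2 4 (.lc 0 14 .stop))))))
 (.lc 3 13 (.lc 4 14 .stop))))))
 (.lc 3 5 (.lc 3 5 (.lc 1 4 (.lc 3 5 (.lc 4 5 .stop))))))
 (.lc 3 2 (.lc 3 2 (.conf [148,196,66] (.lc 3 2 (.lc 3 2 (.lc 3 2 (.lc 3 2 (.lc 4 2 .stop))))))))))))))))))))))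
 (.lc 1 7 (.lc 1 7 (.lc 1 7 (.far [1,4112,0,0,4096,4112,1,256] 17 (.lc 2 7 .stop))))))
 (.lc 2 10 (.lc 2 10 (.lc 2 10 (.lc 3 0 (.lc 2 5 (.lc 3 0 (.lc 2 5 (.conf [122,183] (.lc 2 10 (.lc 2 10 (.lc 2 10 (.lc 2 10 (.lc 3 0 (.lc 3 10 (.lc 3 5 (.lc 4 0 (.lc 3 10 (.lc 3 10 (.lc 3 10 (.lc 3 10 (.lc 3 10 (.lc 4 10 .stop)))))))))))))))))))))))))
 (.lc 2 2 (.lc 2 2 (.lc 0 11 (.lc 2 2 (.lc 3 2 .stop))))))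
 (.lc 2 3 (.lc 1 2 (.lc 2 3 (.lc 3 9 (.lc 1 2 (.lc 3 9 (.lc 3 10 (.lc 3 3 (.lc 4 10 (.lc 4 11 (.lc 2 2 (.lc 3 3 (.lc 3 3 (.lc 3 3 (.lc 4 3 .stop))))))))))))))))))))))))))
 (.conf [135,152] (.lc 2 7 (.lc 2 7 (.lc 3 7 (.lc 3 7 .stop))))))))))
 (.conf [84,104,135] (.conf [84,103,112] (.lc 4 1 (.conf [84,104,128] (.node [84,96,117,39] 7 5 (.node [116] 2 7 .stop
 (.lc 1 2 (.lc 1 2 (.lc 1 2 (.lc 3 8 (.lc 2 2 .stop))))))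
 (.node [84,96,117,135,66] 6 0 (.node [96] 7 5 (.far [16,257,256,16,4112,4096] 0 (.lc 1 2 (.lc 1 2 (.lc 1 2 (.lc 3 9 (.lc 2 2 .stop))))))
 .stop)
 (.lc 4 1 (.conf [84,105,152] (.node [104,135,84,112] 0 5 (.node [84] 6 8 (.far [4112,257,4096,4096,0,0,0,257] 4096 (.lc 2 7 (.lc 2 7 (.conf [135,152] (.lc 2 7 (.lc 3 7 .stop))))))
 (.lc 1 2 (.node [84,149,41,84] 6 8 (.node [135] 5 4 (.far [257,0,256,0,4112,4112,4096,0,257] 4096 (.lc 2 2 (.lc 0 10 (.lc 2 2 (.lc 3 2 .stop)))))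
 (.lc 2 7 (.lc 2 7 (.lc 2 7 (.conf [135,168] (.lc 2 7 (.lc 3 7 .stop)))))))
 .stop)))
 (.node [103,112,84] 6 7 (.node [112] 2 5 (.lc 0 2 .stop)
 (.lc 2 0 (.lc 2 0 (.conf [112,135] (.lc 2 0 (.lc 3 0 .stop))))))
 (.lc 3 3 (.lc 3 3 (.lc 3 3 (.conf [104,117,84] (.conf [96,117,84] (.conf [96,117,84] (.conf [105,117,84] (.node [84,104,135,66,112] 0 5 (.node [4] 0 4 (.lc 2 1 (.far [4112,4096,1,0,1,256] 0 (.lc 0 9 .stop)))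
 (.lc 1 2 (.lc 3 1 .stop)))
 (.far [1,4112,4096,0,0,257] 4096 (.node [84,104,135,66,114] 2 5 (.lc 2 0 .stop)
 (.node [84,104,117,128,66] 6 8 (.node [128] 8 0 .stop
 (.lc 2 0 (.lc 2 0 (.conf [128,152] (.lc 2 0 (.lc 3 0 .stop))))))
 (.node [84,96,117,66] 5 4 (.node [116] 2 7 (.lc 0 2 .stop)
 (.lc 2 2 (.lc 2 2 (.node [120,132] 2 7 .stop
 (.lc 2 2 (.lc 3 2 .stop))))))
 (.conf [84,117,135] (.conf [84,117,135] (.node [84,104,135,66,112] 0 5 .stop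
 (.far [1,4112,4096,0,0,257] 4096 (.node [84,104,117,128,66] 6 8 (.node [128] 8 0 (.node [7,132] 4 0 .stop
 (.node [7,137] 7 5 (.node [116] 0 7 (.lc 2 1 (.node [116] 7 4 (.far [4112,4096,4112,1,0,257] 0 (.lc 2 2 (.lc 2 2 (.lc 0 10 (.lc 2 2 (.lc 3 2 .stop))))))
 (.lc 3 1 (.lc 2 0 (.lc 3 1 (.lc 0 10 (.lc 3 1 .stop)))))))
 (.lc 1 2 (.lc 1 2 (.lc 1 2 (.lc 1 2 (.lc 1 2 (.lc 3 9 (.lc 3 10 (.lc 2 2 (.lc 2 2 (.lc 2 2 .stop)))))))))))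
 (.conf [7,144] .stop)))
 (.lc 2 0 (.lc 2 0 (.conf [128,152] (.lc 2 0 (.lc 3 0 .stop))))))
 (.far [257,4112,4096,0,0,257] 4096 (.node [84,104,117,130,66] 2 7 (.lc 2 0 (.lc 3 0 (.lc 3 0 (.lc 3 0 (.lc 4 0 .stop)))))
 (.node [84,96,117,135,66] 6 0 (.node [] 7 5 (.node [116] 7 4 (.lc 1 2 (.node [66,121] 8 7 (.far [1,4112,4096,0,1,0,1,256] 0 (.lc 1 4 (.lc 1 4 (.lc 1 4 (.far [1,4112,4096,0,1,0,1,256] 0 (.lc 2 4 .stop))))))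
 (.lc 2 2 (.lc 2 2 (.lc 3 4 (.lc 2 2 (.conf [122,169] (.lc 2 2 (.lc 2 2 (.lc 2 2 (.lc 3 4 (.lc 3 2 (.lc 3 2 (.lc 4 4 (.lc 3 2 (.lc 3 2 (.lc 3 2 (.lc 4 2 .stop))))))))))))))))))
 (.lc 1 2 (.lc 1 2 (.lc 1 2 (.lc 3 9 (.lc 2 2 .stop))))))
 .stop)
 (.conf [84,117,135,152] (.conf [104,112,135] (.node [84,103,112,37] 2 5 (.lc 0 2 .stop)
 (.node [84,104,117,128,66] 7 5 (.node [116] 0 7 (.node [116] 7 4 (.lc 1 2 .stop)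
 (.lc 1 2 (.conf [116,151] (.lc 1 2 .stop))))
 (.lc 1 2 (.lc 1 2 (.lc 1 2 (.lc 1 2 (.lc 3 9 (.lc 2 2 .stop)))))))
 (.far [257,4112,4096,0,0,257] 4096 (.node [84,96,117,135,66] 6 0 (.node [] 7 5 (.far [16,257,256,16,4112,4096] 0 (.lc 1 2 (.lc 1 2 (.lc 1 2 (.lc 3 9 (.lc 2 2 .stop))))))
 .stop)
 (.node [84,98,117,135,66] 6 2 .stop
 (.conf [105,135,152] (.node [84,105,152,66,135,112] 0 5 .stop
 (.node [84,104,135,37,112] 2 5 (.lc 0 2 .stop)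
 (.node [84,105,117,152,66,128] 6 9 (.node [152] 7 5 (.node [116] 0 7 (.node [116] 7 4 (.lc 1 2 .stop)
 (.lc 1 2 (.conf [116,167] (.lc 1 2 .stop))))
 (.lc 1 2 (.lc 1 2 (.lc 1 2 (.lc 3 10 (.lc 2 2 .stop))))))
 (.lc 2 8 (.lc 2 8 (.conf [152,169] (.lc 2 8 (.lc 3 8 .stop))))))
 (.node [84,104,117,128,39] 6 8 (.node [128] 7 5 (.node [116] 2 7 .stop
 (.lc 1 2 (.lc 1 2 (.lc 3 9 (.lc 2 2 .stop)))))
 (.lc 2 0 (.lc 2 0 (.conf [128,152] (.lc 2 0 (.lc 3 0 .stop))))))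
 (.node [84,105,117,135,144,66] 6 9 (.node [144] 9 0 .stop
 (.lc 2 0 (.lc 2 0 (.conf [144,169] (.lc 2 0 (.lc 3 0 .stop))))))
 (.node [84,96,117,135,40] 7 5 (.node [116] 4 2 (.far [16,16,257,0,1,258,513,1] 4096 (.lc 1 7 .stop))
 (.lc 1 2 (.lc 1 2 (.lc 1 2 (.lc 3 9 (.lc 2 2 .stop))))))
 (.node [84,96,117,135,152,66] 6 0 (.node [] 7 5 (.node [116] 7 4 (.lc 1 2 (.node [66,122] 8 7 (.node [138] 10 4 (.node [162] 8 10 (.lc 1 2 (.node [139,162] 9 8 (.node [155] 11 10 (.node [178] 11 2 (.lc 0 0 .stop)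
 (.far [1,0,1,4112,256,256] 0 .stop))
 (.lc 3 12 (.lc 1 10 (.lc 3 12 (.lc 4 13 .stop)))))
 (.lc 2 2 (.lc 3 7 (.conf [140,203] (.lc 3 7 (.lc 3 7 (.lc 3 7 (.lc 4 7 (.lc 4 7 .stop))))))))))
 (.node [169,66,146] 10 9 .stop
 (.node [171,178,66] 8 10 (.node [139] 9 8 (.node [155] 11 2 (.lc 0 0 .stop)
 (.lc 3 12 (.lc 1 2 (.lc 3 12 (.lc 4 13 .stop)))))
 (.lc 3 7 (.conf [140,203] (.lc 3 7 (.lc 4 7 .stop)))))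
 (.far [16,0,16,4096,0,0,0,0,16,4096] 0 (.far [1,0,1,256,0,0,0,0,1,256] 0 (.node [172,203,66,178] 8 10 (.far [1,4096,256,257,256,0,0,0,0,1,256] 0 (.lc 3 7 (.lc 1 11 (.lc 3 7 (.lc 4 7 .stop)))))
 .stop))))))
 (.lc 3 2 (.lc 3 11 (.lc 1 4 (.lc 3 11 (.lc 4 12 .stop))))))
 (.lc 2 2 (.lc 2 2 (.lc 3 4 (.lc 2 2 (.conf [123,186] (.lc 2 2 (.lc 2 2 (.lc 2 2 (.lc 3 4 (.lc 3 2 (.lc 3 2 (.lc 4 4 (.lc 3 2 (.lc 3 2 (.lc 3 2 (.lc 4 2 .stop))))))))))))))))))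
 (.lc 1 2 (.lc 1 2 (.lc 1 2 (.lc 3 10 (.lc 2 2 .stop))))))
 .stop)
 (.node [84,106,117,135,152,66] 6 10 (.node [169] 7 5 (.node [116] 7 4 (.node [66,112] 7 0 (.node [128] 0 4 (.far [257,0,1,256,0,0,4112,4112,4096,0,257] 4096 .stop)
 (.lc 0 1 (.lc 0 11 .stop)))
 (.lc 1 2 (.node [66,123] 8 7 (.node [139] 11 4 (.node [178] 8 11 (.node [128,178] 8 0 (.node [144] 0 11 (.far [514,4112,4097,0,257,0,0,4112,1,8208,4096,0,0,514] 8192 .stop)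
 (.lc 0 1 (.lc 0 12 .stop)))
 (.lc 1 2 (.node [140,178] 9 8 (.node [156] 12 11 (.node [194] 12 2 (.far [2,514,1,4097,0,257,0,0,4112,1,8208,4096,0,0,514] 8192 (.lc 3 2 (.node [205,208,205] 9 12 (.far [1,4112,4112,256,256] 0 (.lc 3 8 (.lc 1 0 .stop)))
 .stop)))
 (.far [514,1,4097,0,257,0,0,4112,1,8208,4096,0,0,514] 8192 (.far [16,0,16,257,4096,4096] 17 (.far [1,0,1,4112,256,256] 0 (.far [1,0,1,4112,256,256] 0 (.node [205,208,178] 9 12 (.far [1,4096,256,257,4112,256,256] 0 (.lc 3 8 (.lc 1 0 .stop)))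
 .stop))))))
 (.lc 3 0 (.lc 3 13 (.lc 1 11 (.lc 1 11 (.lc 3 0 (.lc 3 13 (.lc 4 13 (.lc 4 0 (.lc 4 14 .stop))))))))))
 (.lc 2 2 (.lc 2 2 (.lc 3 7 (.lc 3 7 (.conf [140,192] (.lc 2 2 (.node [128,178,203,178] 8 0 .stop
 (.conf [141,220] (.lc 2 2 (.lc 3 7 (.lc 3 7 (.lc 3 7 (.lc 3 7 (.lc 3 2 (.lc 4 7 (.lc 4 7 (.lc 4 7 (.lc 4 7 (.lc 4 7 (.lc 4 7 (.lc 4 7 (.lc 4 7 (.lc 5 7 .stop))))))))))))))))))))))))))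
 (.far [257,0,1,256,0,0,4112,4112,4096,0,257] 4096 (.node [185,66,146] 11 9 .stop
 (.node [188,194,66] 8 11 (.node [140] 9 8 (.node [156] 12 2 (.far [2,1,4112,514,4097,8192,0,4112,1,8208,4096,0,0,514] 8192 (.lc 3 2 (.node [205,208] 9 12 (.far [1,4112,256,257,4112,256,256] 0 (.lc 3 8 (.lc 1 0 .stop)))
 .stop)))
 (.lc 3 0 (.lc 3 13 (.lc 1 2 (.lc 1 2 (.lc 3 0 (.lc 3 13 (.lc 4 13 (.lc 4 0 (.lc 4 14 .stop))))))))))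
 (.lc 3 7 (.far [16,256,4096,4112,4096,0,0,0,0,16,4096] 0 (.conf [141,220] (.lc 3 7 (.lc 4 7 (.lc 4 7 .stop)))))))
 (.far [16,0,16,4096,0,0,0,0,16,4096] 17 (.far [16,0,16,4096,0,0,0,0,16,4096] 0 (.far [1,0,1,256,0,0,0,0,1,256] 0 (.far [1,0,1,256,0,0,0,0,1,256] 0 (.node [188,192,66] 8 11 (.far [1,4096,256,257,256,0,0,0,0,1,256] 0 (.lc 3 7 (.lc 1 0 (.lc 3 7 (.lc 4 7 .stop)))))
 (.node [189,220,66,194] 8 11 (.far [1,4096,256,257,256,0,0,0,0,1,256] 0 (.lc 3 7 (.lc 1 12 (.lc 1 12 (.lc 3 7 (.lc 4 7 (.lc 4 7 .stop)))))))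
 .stop))))))))))
 (.lc 3 0 (.lc 3 2 (.lc 3 12 (.lc 1 4 (.lc 1 4 (.lc 3 0 (.lc 3 12 (.lc 4 12 (.lc 4 0 (.lc 4 0 (.lc 4 13 .stop))))))))))))
 (.lc 2 2 (.lc 2 2 (.lc 3 4 (.lc 2 2 (.lc 3 4 (.conf [123,176] (.lc 2 2 (.lc 2 2 (.node [66,112,180,66] 7 0 .stop
 (.conf [124,203] (.lc 2 2 (.lc 2 2 (.lc 2 2 (.lc 3 4 (.lc 2 2 (.lc 3 4 (.lc 3 2 (.lc 3 2 (.lc 4 4 (.lc 3 2 (.lc 3 2 (.lc 4 4 (.lc 4 4 (.lc 3 2 (.lc 3 2 (.lc 3 2 (.lc 3 2 (.lc 3 2 (.lc 3 2 (.lc 4 2 (.lc 4 2 .stop))))))))))))))))))))))))))))))))))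
 (.lc 1 2 (.lc 1 2 (.lc 1 2 (.lc 1 2 (.lc 3 0 (.lc 1 2 (.lc 3 11 (.lc 2 2 (.lc 2 2 (.lc 2 2 .stop)))))))))))
 (.lc 2 9 (.lc 2 9 (.lc 2 9 (.node [169] 7 5 (.node [116] 7 4 (.lc 1 2 (.node [66,123] 8 7 (.node [139] 11 4 (.node [178] 8 11 (.lc 1 2 (.node [140,178] 9 8 (.far [1,4112,0,4097,8224,8192,4112,1,1,258,512] 4097 (.lc 3 13 (.lc 1 11 (.lc 3 13 (.lc 4 14 .stop)))))
 (.lc 2 2 (.lc 3 7 (.conf [141,220] (.lc 2 2 (.lc 3 7 (.lc 3 7 (.lc 3 7 (.lc 4 7 (.lc 4 7 (.lc 4 7 .stop))))))))))))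
 (.far [257,1,4096,1,4112,4096,1,257,256] 256 (.node [185,66,146] 11 9 .stop
 (.node [188,194,66] 8 11 (.node [140] 9 8 (.far [1,4112,0,4097,8224,8192,4112,1,1,258,512] 4097 (.lc 3 13 (.lc 1 2 (.lc 3 13 (.lc 4 14 .stop)))))
 (.lc 3 7 (.conf [141,220] (.lc 3 7 (.lc 4 7 .stop)))))
 (.far [16,0,16,4096,0,0,0,0,16,4096] 0 (.far [1,0,1,256,0,0,0,0,1,256] 0 (.node [189,220,66,194] 8 11 (.far [1,4096,256,257,256,0,0,0,0,1,256] 0 (.lc 3 7 (.lc 1 12 (.lc 3 7 (.lc 4 7 .stop)))))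
 .stop)))))))
 (.lc 3 2 (.lc 3 12 (.lc 1 4 (.lc 3 12 (.lc 4 13 .stop))))))
 (.lc 2 2 (.lc 2 2 (.lc 3 4 (.lc 2 2 (.conf [124,203] (.lc 2 2 (.lc 2 2 (.lc 2 2 (.lc 2 2 (.lc 3 4 (.lc 3 2 (.lc 3 2 (.lc 4 4 (.lc 3 2 (.lc 3 2 (.lc 3 2 (.lc 3 2 (.lc 4 2 .stop))))))))))))))))))))
 (.lc 1 2 (.lc 1 2 (.lc 1 2 (.lc 3 11 (.lc 2 2 .stop))))))
 (.conf [169,186] (.lc 2 9 (.lc 2 9 (.lc 3 9 (.lc 3 9 .stop))))))))))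
 .stop)))))))))))))))))))))))))))))))))))))))))))))))))))))))))))))))))))))))))))))))))))))))))))))))

theorem t6 : kNode2 awTt FTt 6 5 (check tyTt awTt triet FTt [s7] c6) (fun _ _ _ => true) 0 s6 Pl.nil s6 =
    true := by
  decide +kernel

end Chk
end Pool.Agent.Lib.MP_ba95e8_co
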