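import Pool.Agent.Lib.MP_ba95e8_co.ChkTab
import Pool.Agent.Lib.MP_ba95e8_co.ChkStates

/-!
Deltahedral domes: part 7 of the case analysis.
-/

namespace Pool.Agent.Lib.MP_ba95e8_co
namespace Chk

/-- certificate number 7 -/
def c7 : Cert := (.node [80] 5 0 (.node [] 0 4 (.far [257,4112,4096,1,4112,4096,0,0,257] 4096 (.node [66] 7 4 (.node [114] 6 7 (.node [98] 6 2 .stop
 .stop)
 (.node [112,64,98] 6 2 .stop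
 (.far [16,16,0,16,0,0,0,16,4096] 0 .stop)))
 (.far [4112,1,256] 0 .stop)))
 (.node [113,80,103] 6 7 (.node [98,113] 2 7 .stop
 (.node [104,113] 7 1 (.node [22] 1 6 (.lc 0 1 .stop)
 (.lc 0 9 .stop))
 (.conf [113,135] .stop)))
 (.far [4112,4112,1,0,1,256] 0 (.far [4112,4112,1,0,1,256] 0 (.far [257,257,16,0,16,4096] 4097 (.node [120,129,22,80] 1 6 (.far [257,256,0,16,1,256] 4097 (.lc 0 9 .stop))
 .stop))))))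
 (.node [81] 5 1 .stop
 (.lc 1 2 (.node [] 6 7 (.node [96] 6 0 (.node [] 7 4 (.node [66] 0 4 (.far [257,4096,4112,4096,0,0,4096,0,0,0,257] 4096 .stop)
 (.node [114] 7 2 (.far [4096,0,4112,4096,0,0,4096,0,0,0,257] 4096 .stop)
 (.node [66,120] 7 8 (.node [] 8 4 (.node [] 8 2 (.far [4096,0,4096,0,4112,4096,0,0,4096,0,0,0,257] 4096 (.node [137] 0 8 .stop
 (.node [138,169,138,146] 8 10 .stop
 .stop)))
 (.node [137,146,66] 8 9 .stop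
 (.far [16,0,16,0,0,16,0,0,0,16,4096] 0 (.far [1,0,1,0,0,1,0,0,0,1,256] 0 (.node [138,169,66,146] 8 10 .stop
 .stop)))))
 (.far [1,257,4112,4112,4096,4096,4096,0,0,0,257] 4096 (.far [4112,4112,0,1,256,256] 17 (.far [257,257,0,16,4096,4096] 0 (.far [257,257,0,16,4096,4096] 0 (.node [132,152,41,112] 4 2 .stop
 .stop))))))
 (.conf [66,112,83] (.conf [66,120,130] (.conf [112,83,66] (.conf [112,132,8] (.far [4112,0,1,256,256] 17 (.far [16,0,0,16,0,0,0,16,4096] 0 (.node [66,132,152,66,121] 7 9 (.far [4112,4112,0,1,256,256] 0 (.lc 2 8 (.far [4112,4112,0,1,256,256] 17 (.lc 2 8 (.lc 2 8 (.lc 3 8 .stop))))))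
 (.conf [66,112,83] (.conf [66,120,83] (.conf [66,112,83] (.conf [112,83,66] (.conf [66,121,152] .stop)))))))))))))))
 .stop)
 (.node [] 7 4 (.node [66,112] 0 4 (.far [257,1,4112,4096,4096,4096,0,0,0,257] 4096 .stop)
 (.node [66] 1 4 .stop
 (.node [114] 7 2 .stop
 (.node [66,120] 1 7 (.node [] 8 4 (.node [] 1 8 (.node [130] 8 2 (.far [4096,1,0,257,0,4096,0,0,4096,0,0,0,257] 4096 .stop)
 (.node [130,152,130] 9 8 (.far [16,16,257,4096,4096] 0 (.lc 3 10 .stop))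
 .stop))
 (.far [257,1,4096,4096,0,0,4096,0,0,0,257] 4096 (.node [137,146,66] 1 8 (.far [16,256,4096,4112,0,16,0,0,0,16,4096] 0 .stop)
 (.far [16,0,16,0,16,0,0,0,16,4096] 17 (.far [16,0,16,0,16,0,0,0,16,4096] 0 (.far [1,0,1,0,1,0,0,0,1,256] 0 (.far [1,0,1,0,1,0,0,0,1,256] 0 (.node [137,144,66] 1 8 .stop
 (.node [138,169,66,146] 1 8 (.lc 1 9 .stop)
 .stop)))))))))
 (.node [132,113] 8 4 (.node [130] 8 2 (.far [4096,0,257,0,4096,0,0,4096,0,0,0,257] 4096 .stop)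
 (.conf [1,128] (.conf [137,146] (.far [1,0,1,0,1,0,0,0,1,256] 0 .stop))))
 (.far [16,257,16,4096,4096] 0 (.far [16,257,16,4096,4096] 0 (.far [1,4112,1,256,256] 4097 (.node [132,152,113] 8 4 (.node [130,152] 9 8 (.far [16,257,4112,1,16,4096,4096] 0 (.lc 3 10 .stop))
 (.conf [132,146] (.conf [138,162] (.far [1,0,1,0,1,0,0,0,1,256] 0 (.conf [32,154,162] .stop)))))
 .stop))))))
 (.conf [66,112,83] (.conf [66,120,130] (.conf [113,97,16] (.conf [113,132,24] (.far [4112,1,256,256] 4097 (.node [66,120,128,120] 0 4 (.far [16,16,0,16,0,0,0,16,4096] 0 .stop)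
 (.far [16,0,16,0,0,0,16,4096] 17 (.far [16,0,16,0,0,0,16,4096] 0 (.node [66,112,132,66] 7 0 (.far [4112,4112,1,256,256] 0 .stop)
 (.node [66,132,152,66,121] 7 9 (.far [4112,4112,1,256,256] 0 (.lc 2 8 (.far [4112,4112,1,256,256] 4097 (.lc 2 8 (.lc 2 8 (.lc 3 8 .stop))))))
 (.conf [66,112,83] (.conf [66,120,83] (.conf [113,97,16] (.conf [66,120,128] (.conf [66,121,152] (.conf [113,97,16] .stop))))))))))))))))))))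
 (.node [98] 6 2 .stop
 (.conf [66,116] (.node [104] 6 8 (.node [] 7 4 (.node [66,112] 0 4 (.far [257,1,4112,4112,4096,4096,4096,0,0,0,257] 4096 .stop)
 (.node [114] 8 7 (.node [] 8 2 (.far [1,257,0,4112,4096,0,0,4096,0,0,0,257] 4096 (.node [137,144,137] 8 9 (.far [4112,4112,4112,0,1,256] 0 (.lc 2 0 .stop))
 .stop))
 (.far [257,0,4112,4096,0,0,4096,0,0,0,257] 4096 (.far [16,257,0,16,4096,4096] 17 (.far [1,4112,0,1,256,256] 0 (.far [1,4112,0,1,256,256] 0 (.node [137,144,114] 8 9 (.far [4112,4096,4112,1,257,256,256] 0 (.lc 2 0 .stop))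
 .stop))))))
 (.node [66] 8 4 (.node [130] 8 2 .stop
 (.far [16,16,0,0,16,0,0,0,16,4096] 17 (.far [16,16,0,0,16,0,0,0,16,4096] 0 .stop)))
 (.node [66,121] 8 7 (.node [] 9 4 (.node [] 8 9 (.node [128,146] 8 0 (.node [] 9 2 (.far [4096,4112,4096,0,0,0,4096,0,0,0,4096,0,0,0,257] 4096 .stop)
 .stop)
 (.node [146] 1 9 .stop
 (.node [130] 8 2 .stop
 (.node [138,146] 9 2 (.node [] 8 10 (.node [] 10 2 (.far [1,4112,4096,4096,0,0,0,4096,0,0,0,4096,0,0,0,257] 4096 (.node [171,176,171] 1 10 .stop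
 .stop))
 (.node [162,129] 10 2 (.far [4096,4096,0,0,0,0,0,4096,0,0,0,4096,0,0,0,257] 4096 .stop)
 (.far [4112,0,4112,0,4112,0,1,256] 4097 (.far [257,0,257,0,257,0,16,4096] 0 (.far [257,0,257,0,257,0,16,4096] 0 (.node [162,186,129] 10 2 .stop
 .stop))))))
 (.far [4096,1,0,257,0,4112,4096,0,0,4096,0,0,0,257] 4096 (.far [4112,1,4112,256,256] 0 (.far [4112,1,4112,256,256] 0 (.far [257,16,257,4096,4096] 17 (.node [171,176,146] 8 10 (.node [171,176] 1 10 .stop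
 (.far [257,0,257,0,257,0,16,4096] 0 .stop))
 .stop))))))
 (.far [1,0,257,0,4112,4096,0,0,4096,0,0,0,257] 4096 (.conf [146,162,32] (.node [129,146,16] 0 9 (.far [257,4096,0,0,0,4096,0,0,0,4096,0,0,0,257] 4096 .stop)
 (.conf [129,146,169] (.far [4112,0,4112,0,1,256] 4097 (.node [138,146,160,138] 0 9 (.far [16,16,257,4096,4096] 0 .stop)
 (.far [16,257,4096,4096] 17 (.node [128,146,169,146] 8 0 (.far [4112,4112,0,4112,0,1,256] 0 .stop)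
 (.node [139,169,186,139,146] 10 9 (.far [16,16,257,4096,4096] 0 (.lc 3 0 (.far [16,16,257,4096,4096] 17 (.lc 3 0 (.lc 3 12 (.lc 4 12 .stop))))))
 (.far [1,0,257,0,4112,4096,0,0,4096,0,0,0,257] 4096 (.node [129,146,16] 0 9 (.far [257,4096] 256 .stop)
 (.conf [146,160,138] (.conf [129,146,169] .stop)))))))))))))))))
 (.far [257,1,4096,4112,4096,0,0,4096,0,0,0,257] 4096 (.node [154,162,66] 8 9 (.node [138,162] 8 10 (.node [] 10 2 (.far [1,4112,4112,257,4096,4096,4096,0,0,0,4096,0,0,0,257] 4096 (.node [171,176,171] 1 10 .stop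
 .stop))
 (.lc 2 2 (.far [4112,4112,0,4112,0,1,256] 4097 (.lc 2 2 (.lc 2 2 (.lc 3 2 .stop))))))
 (.lc 3 1 (.far [16,256,4096,4112,0,0,16,0,0,0,16,4096] 0 (.far [16,256,4096,4112,0,0,16,0,0,0,16,4096] 0 (.lc 4 1 .stop)))))
 (.far [16,0,16,0,0,16,0,0,0,16,4096] 17 (.far [16,0,16,0,0,16,0,0,0,16,4096] 0 (.far [1,0,1,0,0,1,0,0,0,1,256] 0 (.far [1,0,1,0,0,1,0,0,0,1,256] 0 (.node [154,160,66] 8 9 (.far [1,4096,256,257,0,0,1,0,0,0,1,256] 0 (.lc 3 1 (.lc 1 0 .stop)))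
 (.node [155,186,66,162] 8 9 (.far [1,4096,256,257,0,0,1,0,0,0,1,256] 0 (.lc 3 1 (.lc 1 10 (.lc 1 10 (.lc 4 1 .stop)))))
 .stop)))))))))
 (.conf [128,148,116] (.conf [130,148,116] (.conf [138,148,169] (.far [16,257,0,16,4096,4096] 0 (.far [16,257,0,16,4096,4096] 0 (.far [1,4112,0,1,256,256] 0 (.far [1,4112,0,1,256,256] 0 (.conf [138,148,116] (.conf [128,148,116] (.conf [128,148,116] (.conf [139,148,116] .stop))))))))))))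
 (.conf [66,112,83] (.conf [66,116,130] (.conf [66,121,146] (.conf [116,83,66] (.conf [116,83,66] (.conf [116,137,148] (.far [4112,0,1,256,256] 0 (.node [66,121,144,121,135] 0 4 (.far [16,16,0,0,16,0,0,0,16,4096] 0 .stop)
 (.far [16,0,0,16,0,0,0,16,4096] 17 (.conf [130,116,83,66] (.far [16,0,0,16,0,0,0,16,4096] 0 (.node [66,112,148,66] 7 0 .stop
 (.far [4112,0,1,256,256] 0 (.node [66,148,169,66,122,135] 8 7 (.far [1,4112,0,1,256,256] 0 (.lc 3 0 (.lc 3 2 (.lc 3 11 (.lc 1 9 (.lc 1 9 (.lc 3 0 (.lc 3 11 (.lc 4 11 (.lc 4 0 (.lc 4 0 (.lc 4 12 .stop))))))))))))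
 (.conf [66,112,83] (.conf [66,116,83] (.conf [66,121,83] (.conf [66,116,83] (.conf [116,83,66] (.conf [116,83,66] (.conf [116,83,66] (.conf [66,116,128] (.conf [66,121,144] (.conf [66,116,137] (.conf [66,122,169] (.conf [116,83,66] (.conf [116,83,66] (.conf [116,83,66] (.conf [116,148,66] (.conf [116,148,66] (.conf [66,116,83] (.conf [66,116,83] (.conf [66,116,83] (.conf [66,116,83] (.conf [66,116,83] (.conf [116,137,146] (.conf [66,116,83] (.conf [66,116,83] .stop))))))))))))))))))))))))))))))))))))))))))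
 (.node [135,97,116] 8 7 (.node [116,130] 8 2 (.far [4096,0,4096,0,0,0,4096,0,0,0,257] 4096 .stop)
 (.lc 1 4 (.node [116,137] 7 4 (.node [66] 8 9 (.node [] 9 4 (.node [146] 9 2 (.far [4096,0,4096,0,0,4096,0,0,0,4096,0,0,0,257] 4096 .stop)
 (.far [257,4112,4096,4096,4096,0,0,0,4096,0,0,0,257] 4096 (.conf [1,144] (.far [16,0,16,0,0,0,16,0,0,0,16,4096] 0 (.conf [1,144] .stop)))))
 (.lc 2 4 (.lc 2 4 (.far [4112,0,4112,4096,16,0,4112,1,256] 17 (.far [4112,0,4112,4096,16,0,4112,1,256] 0 (.lc 2 4 (.lc 2 4 (.lc 3 4 (.lc 3 4 .stop)))))))))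
 (.conf [66,116,146] (.far [4112,1,0,1,256,256] 0 (.far [4112,1,0,1,256,256] 0 (.conf [66,116,83] (.conf [8,144] (.conf [66,116,154] .stop)))))))
 (.lc 2 4 (.lc 2 4 (.conf [1,128] (.conf [128,151,116] (.lc 2 4 (.conf [138,169] (.lc 2 4 (.lc 2 4 (.far [257,0,1,0,257,4112,4096,0,0,257] 4096 (.lc 2 4 (.node [128,116] 9 7 (.far [1,1,0,1,256,256] 0 (.lc 3 2 (.conf [66,116,83] (.lc 3 2 (.lc 3 10 (.lc 4 10 .stop))))))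
 (.lc 3 4 (.lc 3 4 (.conf [128,151,116] (.conf [128,151,116] (.lc 3 4 (.lc 3 4 (.lc 3 4 (.lc 3 4 .stop))))))))))))))))))))))
 (.node [25,135,152,97,116] 1 9 (.node [] 8 7 (.node [116,128] 8 0 (.lc 0 0 .stop)
 (.node [116,130] 8 2 .stop
 (.lc 1 4 (.node [116,138] 9 8 (.node [154] 7 4 (.node [66] 10 4 (.node [162] 9 10 (.node [146] 9 2 (.far [1,257,0,0,257,0,0,4096,0,0,0,4096,0,0,0,257] 4096 .stop)
 (.lc 3 0 (.far [16,257,4096,4096,4096] 17 (.lc 3 0 .stop))))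
 (.lc 3 4 (.far [16,16,0,0,0,0,0,16,0,0,0,16,4096] 17 (.far [16,16,0,0,0,0,0,16,0,0,0,16,4096] 0 (.lc 0 0 .stop)))))
 (.conf [66,116,162] (.far [4112,0,1,0,0,1,256,256] 0 (.far [4112,0,1,0,0,1,256,256] 0 (.conf [66,116,83] (.conf [66,116,160] (.conf [66,116,171] .stop)))))))
 (.lc 1 7 (.lc 1 7 (.lc 3 0 (.lc 1 7 (.far [1,4112,0,4096,16,0,4112,1,256] 0 (.lc 2 7 .stop)))))))
 (.lc 2 4 (.lc 2 4 (.lc 0 0 (.conf [154,167] (.node [116,128] 2 7 (.far [16,16,0,0,16,4096,4096] 17 .stop)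
 (.lc 2 4 (.conf [139,186] (.lc 2 4 (.lc 2 4 (.conf [134,146] (.lc 2 4 (.conf [134,154] (.lc 3 4 (.lc 3 4 (.lc 3 4 (.conf [134,155] (.lc 3 4 (.lc 3 4 (.lc 3 4 (.lc 3 4 (.lc 4 4 .stop)))))))))))))))))))))))))
 (.lc 2 8 (.node [169] 8 7 (.node [116,130] 8 2 .stop
 (.lc 1 4 (.node [138,167,169] 8 10 (.lc 0 1 .stop)
 (.node [116,139] 9 8 (.node [155] 7 4 (.node [66] 11 4 (.node [178] 9 11 (.node [146,169] 9 2 .stop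
 (.lc 3 1 .stop))
 (.lc 3 4 (.far [16,16,0,0,0,0,0,16,0,0,0,16,4096] 0 (.lc 0 1 .stop))))
 (.conf [66,116,178] (.far [4112,0,1,0,0,1,256,256] 0 (.far [4112,0,1,0,0,1,256,256] 0 (.conf [66,116,83] (.conf [66,116,188] .stop))))))
 (.lc 3 2 (.lc 3 12 (.lc 3 1 (.lc 1 7 (.lc 3 12 (.lc 4 13 .stop)))))))
 (.lc 2 4 (.lc 2 4 (.lc 0 1 (.conf [155,183] (.lc 2 4 (.conf [140,203] (.lc 2 4 (.lc 2 4 (.lc 0 2 (.lc 2 4 (.lc 0 11 (.lc 3 4 (.lc 3 4 (.lc 0 12 (.lc 3 4 (.lc 3 4 (.lc 3 4 (.lc 3 4 (.lc 4 4 .stop)))))))))))))))))))))))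
 (.lc 2 8 (.lc 3 8 .stop)))))
 (.far [4112,4112,0,4112,1,256] 4097 (.far [4112,4112,0,4112,1,256] 0 (.far [257,257,0,257,16,4096] 0 (.far [257,257,0,257,16,4096] 0 (.node [135,152,97,116] 8 7 (.node [116,130,152] 8 2 .stop
 (.lc 1 4 (.node [116,138,152] 9 8 (.far [16,257,256,1,0,257,16,4096] 0 (.lc 3 2 (.lc 3 11 (.lc 1 7 (.lc 3 11 (.lc 4 12 .stop))))))
 (.lc 2 4 (.lc 2 4 (.conf [134,154] (.lc 2 4 (.conf [139,186] (.lc 2 4 (.lc 2 4 (.node [134,146,116] 2 7 (.far [1,1,0,1,256,256] 0 .stop)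
 (.lc 2 4 (.node [134,154,116] 10 7 (.far [1,1,0,1,256,256] 0 (.lc 3 2 (.conf [66,116,83] (.lc 3 2 (.lc 3 11 (.lc 4 11 .stop))))))
 (.lc 3 4 (.lc 3 4 (.conf [134,167,116] (.lc 3 4 (.lc 3 4 (.lc 3 4 (.lc 3 4 (.lc 4 4 .stop)))))))))))))))))))))
 (.node [26,135,152,169,97,152,116,135] 1 10 (.node [169] 8 7 (.node [116,128] 8 0 .stop
 (.node [116,130] 8 2 (.lc 0 0 .stop)
 (.lc 1 4 (.node [116,139] 9 8 (.far [16,257,0,256,1,0,257,16,4096] 0 (.lc 3 0 (.lc 3 2 (.lc 3 12 (.lc 1 7 (.lc 3 12 (.lc 4 0 (.lc 4 13 .stop))))))))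
 (.lc 2 4 (.lc 2 4 (.lc 3 6 (.node [116,128] 2 7 (.far [16,16,0,0,16,4096,4096] 17 .stop)
 (.lc 2 4 (.conf [140,203] (.lc 2 4 (.lc 2 4 (.lc 3 6 (.lc 3 6 (.lc 2 4 (.lc 3 6 (.lc 3 4 (.lc 3 4 (.lc 4 6 (.lc 3 4 (.lc 4 6 (.lc 3 4 (.lc 3 4 (.lc 3 4 (.lc 3 4 (.lc 4 4 (.lc 4 4 .stop)))))))))))))))))))))))))))
 (.lc 2 9 (.conf [169,186] (.lc 2 9 (.lc 3 9 .stop)))))
 .stop)))))))))
 (.conf [116,83,97] (.conf [116,128,104] (.conf [116,83,96] (.conf [116,130,104] (.conf [116,83,96] (.conf [116,83,97] (.conf [116,135,152] (.conf [97,116,83] (.conf [97,116,135] (.far [4112,0,4112,1,256] 4097 (.node [104,128,104,116] 6 8 (.far [4112,4112,0,4112,1,256] 0 (.lc 2 0 (.conf [25,128,152] (.lc 2 0 (.lc 3 0 .stop)))))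
 (.node [96] 6 0 (.far [4112,4112,0,4112,1,256] 17 .stop)
 (.conf [66,116] (.node [96,135,116] 6 0 (.far [4112,4112,0,4112,1,256] 0 .stop)
 (.far [4112,0,4112,1,256] 0 (.node [105,152,105,116,135] 6 9 (.far [4112,4112,0,4112,1,256] 0 (.lc 2 8 (.lc 2 8 (.far [4112,4112,0,4112,1,256] 4097 (.conf [26,152,169] (.lc 2 8 (.lc 2 8 (.lc 3 8 (.lc 3 8 .stop)))))))))
 (.conf [116,83,97] (.conf [116,83,104] (.conf [116,83,96] (.conf [116,83,96] (.conf [116,83,97] (.conf [116,83,98] (.conf [116,83,105] (.conf [97,116,83] (.conf [97,116,83] (.conf [97,116,83] (.conf [66,116] (.conf [97,116,83] (.conf [116,152,105] (.conf [116,128,104] (.conf [116,83,97] (.conf [116,144,105] (.conf [116,83,96] (.conf [116,83,96] (.conf [116,83,97] (.conf [116,169,106] (.conf [97,116,135] (.conf [97,116,135] (.conf [97,116,83] (.conf [116,135,152]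 (.conf [97,116,83] (.conf [97,116,83] (.conf [97,116,83] (.conf [97,116,83] (.conf [97,116,83] (.conf [97,116,83] .stop)))))))))))))))))))))))))))))))))))))))))))))))))))
 (.node [88] 7 5 (.asm [] 0 (.conf [112,132,83] (.conf [113,132,83] (.conf [114,132,83] (.conf [121,132,83] (.far [16,257,16,0,16,4096] 0 (.far [16,257,16,0,16,4096] 0 (.far [1,4112,1,0,1,256] 0 (.far [1,4112,1,0,1,256] 0 (.conf [113,132,83] (.conf [121,132,83] (.conf [112,132,83] (.conf [112,132,83] (.conf [122,132,83] .stop))))))))))))))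
 (.node [66,81] 5 1 .stop
 (.conf [66,83,112] (.conf [66,88,128] (.conf [66,83,113] (.conf [66,88,129] (.node [66,80,132] 5 0 (.node [113,22,80] 8 4 (.far [1,4112,4096,1,0,1,257,256] 0 (.node [137,146] 1 6 .stop
 (.conf [137,146] (.far [1,4112,4096,1,0,1,257,256] 0 (.node [138,169,146] 1 6 .stop
 .stop)))))
 .stop)
 (.conf [66,83,120] (.conf [66,89,152] (.node [83,112,103,66] 0 4 (.far [257,4096,1,4112,4096,0,0,257] 4096 .stop)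
 (.lc 2 2 (.conf [83,120,132] (.node [81] 5 1 .stop
 (.far [4112,1,0,1,256] 0 (.node [88,128,88,66] 5 8 (.far [4112,4112,1,0,1,256] 0 (.lc 0 1 (.lc 0 2 (.lc 0 9 (.lc 0 9 (.lc 2 0 (.lc 0 10 .stop)))))))
 (.lc 2 2 (.lc 2 2 (.lc 2 2 (.node [80,132,66] 5 0 (.far [4112,4112,1,0,1,256] 0 .stop)
 (.far [4112,1,0,1,256] 0 (.node [89,132,152,66,89,132] 5 9 (.far [4112,4112,1,0,1,256] 0 (.lc 0 0 (.lc 0 1 (.lc 0 2 (.lc 0 10 (.lc 0 0 (.lc 0 10 (.lc 2 8 (.lc 2 8 (.lc 0 1 (.lc 0 10 (.lc 0 0 (.lc 0 0 (.lc 0 11 .stop))))))))))))))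
 (.node [66,81] 5 1 (.far [257,257,16,0,16,4096] 0 (.node [120,129,22,81] 1 6 (.node [134] 6 7 .stop
 (.lc 0 9 .stop))
 .stop))
 (.far [257,16,0,16,4096] 0 (.node [66,88] 0 4 (.far [256,0,0,0,0,0,1,1] 4096 .stop)
 (.node [66,80,132] 5 0 (.far [257,257,16,0,16,4096] 0 (.node [113,80,103] 8 4 (.node [130] 0 8 .stop
 (.lc 3 9 (.conf [137,146] (.lc 3 9 (.lc 4 10 .stop)))))
 (.node [113,22,80] 8 4 (.node [130] 1 6 .stop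
 (.lc 3 9 (.conf [137,146] (.lc 3 9 (.lc 4 10 .stop)))))
 (.node [121,144,80,103] 8 4 (.node [130] 0 8 (.node [130,152,121] 9 8 (.node [146] 9 2 .stop
 .stop)
 (.lc 0 10 .stop))
 (.lc 3 9 (.lc 3 10 (.conf [138,162] (.lc 3 10 (.lc 4 11 .stop))))))
 (.far [257,257,16,0,16,4096] 4097 (.node [121,145,22,80] 8 4 (.node [130] 1 6 (.far [257,0,256,0,16,1,256] 4097 (.lc 0 10 .stop))
 (.lc 3 9 (.lc 3 10 (.conf [138,162] (.lc 3 10 (.lc 4 11 .stop))))))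
 .stop))))))
 (.node [66,81,132] 5 1 .stop
 (.far [257,16,0,16,4096] 0 (.node [66,89,132] 8 4 (.node [130] 5 9 (.far [257,0,257,16,0,16,4096] 0 (.lc 2 8 (.lc 2 8 (.lc 2 8 (.node [112,83,103] 7 0 (.node [113] 6 7 (.lc 2 1 .stop)
 (.lc 0 1 (.conf [122,161] (.lc 0 1 .stop))))
 (.node [122,169,83,103] 9 8 (.node [130,144] 0 8 (.far [257,1,0,0,1,0,4112,4112,4096,0,257] 4096 .stop)
 (.node [130,145] 1 8 .stop
 (.lc 2 5 (.node [130,155] 8 2 (.node [178] 11 2 (.far [1,4096,1,0,0,1,0,4112,4112,4096,0,257] 4096 (.node [169,186,122,160] 11 10 (.lc 1 0 .stop)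
 (.node [188,192] 9 11 (.far [1,4096,0,257,0,0,1,0,4112,4112,4096,0,257] 4096 (.lc 3 5 (.lc 0 12 (.conf [157,220] (.lc 3 5 (.lc 4 5 .stop))))))
 (.node [188,192,188] 9 11 (.node [145,188] 9 1 .stop
 (.node [149,171,122] 10 11 (.far [1,1,4112,256,256] 0 (.lc 3 7 (.lc 1 0 .stop)))
 (.lc 1 2 (.node [157,188] 11 12 (.far [4112,1,4112,256,256] 0 (.lc 2 0 (.lc 2 0 (.lc 2 0 (.lc 0 14 (.lc 2 0 (.lc 3 0 .stop)))))))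
 (.lc 0 12 (.lc 2 2 (.lc 3 5 (.lc 3 5 (.lc 0 12 (.lc 2 2 (.lc 0 13 (.conf [188,219] (.lc 2 2 (.lc 2 2 (.lc 2 2 (.lc 3 5 (.lc 3 5 (.lc 3 5 (.lc 3 5 (.lc 0 13 (.lc 3 2 (.lc 4 5 (.lc 4 5 (.lc 4 5 (.lc 4 5 (.lc 4 5 (.lc 4 5 (.lc 5 5 .stop))))))))))))))))))))))))))))
 (.far [1,4096,1,0,0,1,0,4112,4112,4096,0,257] 4096 (.node [189,220,192] 9 11 (.far [1,4096,0,257,0,0,1,0,4112,4112,4096,0,257] 4096 (.lc 3 5 (.lc 0 13 (.lc 1 12 (.lc 3 5 (.lc 4 5 .stop))))))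
 .stop))))))
 (.lc 0 0 (.lc 0 0 (.lc 0 12 (.far [257,16,0,256,16,0,0,0,16,4096] 17 (.lc 0 12 .stop))))))
 (.lc 2 2 (.lc 2 2 (.lc 2 2 (.lc 3 1 (.lc 3 11 (.lc 3 6 (.lc 3 0 (.lc 3 1 (.lc 3 12 (.node [130,145] 9 1 (.far [16,4112,0,0,16,0,1,257,256] 4097 (.lc 3 1 .stop))
 (.lc 3 5 (.conf [155,176] (.conf [130,184] (.lc 3 5 (.conf [130,184] (.lc 2 2 (.lc 2 2 (.lc 2 2 (.lc 3 1 (.lc 3 11 (.lc 3 11 (.lc 3 0 (.lc 3 12 (.lc 3 2 (.lc 3 2 (.lc 4 11 (.lc 4 12 (.lc 4 1 (.lc 4 12 (.lc 4 0 (.lc 4 13 (.lc 3 2 (.lc 3 2 (.lc 3 2 (.lc 3 2 (.lc 4 2 .stop))))))))))))))))))))))))))))))))))))))))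
 (.lc 2 8 (.lc 2 8 (.lc 3 8 (.lc 3 8 (.lc 3 8 (.lc 3 8 .stop))))))))))))
 (.lc 3 0 (.lc 3 7 (.lc 3 10 (.node [128] 5 9 (.far [257,0,257,16,0,16,4096] 0 (.lc 2 8 (.lc 2 8 (.node [122,169,83,103] 9 8 (.node [128,145] 1 8 (.node [] 9 1 (.node [150] 9 6 .stop
 (.lc 3 1 .stop))
 .stop)
 (.lc 2 5 (.node [128,155] 8 0 (.node [176] 6 7 (.lc 2 1 (.node [107,122,169] 11 7 .stop
 (.node [108,122,169] 7 10 (.far [257,16,4112,1,257,4112,258,4128,0,32,8192] 17 (.lc 2 9 (.lc 2 9 (.lc 2 9 (.lc 0 13 (.lc 2 9 (.lc 3 9 .stop)))))))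
 (.lc 3 1 (.conf [117,169] (.lc 3 1 (.lc 3 1 (.conf [122,199] (.lc 3 1 (.node [117,169,186] 11 10 (.lc 0 5 .stop)
 (.node [117,169,108] 10 9 (.node [155] 6 12 (.far [257,0,257,0,0,0,0,0,257,16,4096] 0 (.lc 2 9 (.lc 2 9 (.node [29,201,220] 12 9 (.node [203] 12 11 (.node [219] 13 11 .stop
 (.lc 0 14 .stop))
 (.lc 1 0 (.lc 1 0 (.lc 1 0 (.lc 3 6 (.lc 2 0 .stop))))))
 (.lc 2 9 (.lc 3 9 .stop))))))
 (.lc 2 5 (.lc 2 5 (.lc 0 13 (.lc 2 5 (.lc 3 5 .stop))))))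
 (.lc 3 1 (.lc 3 1 (.lc 3 1 (.lc 4 1 (.conf [117,220,109] (.lc 4 1 (.lc 4 1 (.lc 4 1 (.lc 4 1 (.lc 4 1 (.lc 5 1 .stop))))))))))))))))))))))
 (.lc 0 1 (.lc 0 1 (.lc 0 12 (.far [257,16,0,256,16,0,0,0,16,4096] 4097 (.lc 0 12 .stop))))))
 (.lc 2 0 (.lc 2 0 (.lc 2 0 (.lc 3 6 (.lc 3 1 (.lc 3 12 (.lc 3 5 (.conf [128,184] (.lc 2 0 (.lc 2 0 (.lc 2 0 (.lc 3 11 (.lc 3 12 (.lc 3 0 (.lc 3 0 (.lc 4 13 (.lc 3 0 (.lc 3 0 (.lc 3 0 (.lc 3 0 (.lc 3 0 (.lc 4 0 .stop)))))))))))))))))))))))))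
 (.lc 2 8 (.lc 3 8 .stop))))))
 (.conf [114,135] (.conf [138,162] (.lc 3 0 (.lc 3 7 (.lc 3 10 (.lc 4 7 (.lc 4 10 (.lc 4 10 (.lc 4 7 (.lc 4 11 .stop)))))))))))))))
 (.node [66,83,112,103] 0 4 (.far [257,4096,1,4112,4096,0,0,257] 4096 .stop)
 (.node [66,83,113,103] 1 4 .stop
 (.node [66,83,120,103] 8 4 (.node [130] 6 7 (.node [96] 6 0 (.node [] 7 8 (.far [257,0,16,0,1,4096] 0 (.lc 1 2 (.node [121] 7 9 (.far [257,257,0,16,0,1,4096] 0 (.far [1,257,16,4112,0,1,4096] 256 (.far [257,257,0,16,0,1,4096] 0 .stop)))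
 (.lc 2 2 (.lc 3 0 (.lc 3 0 (.lc 2 2 (.node [122,169,122,152] 7 10 (.node [169] 9 8 (.node [130,146,169] 9 2 (.lc 3 2 .stop)
 (.node [130,155] 8 2 (.node [178] 11 2 .stop
 (.lc 0 12 .stop))
 (.lc 2 2 (.lc 3 12 (.conf [130,184] (.lc 2 2 (.lc 3 11 (.lc 3 12 (.lc 4 13 (.lc 3 2 .stop))))))))))
 (.lc 2 9 (.lc 2 9 .stop)))
 (.lc 2 2 (.lc 2 2 (.lc 3 0 (.lc 3 0 (.lc 3 2 (.lc 4 0 .stop))))))))))))))
 .stop)
 (.lc 2 1 (.lc 1 5 (.node [105] 6 9 (.node [] 7 8 (.node [112] 7 0 (.far [257,257,0,16,0,1,4096] 0 (.node [154,160,112] 9 10 (.node [160] 0 1 .stop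
 (.lc 2 0 .stop))
 (.lc 0 1 .stop)))
 (.lc 1 2 (.far [257,0,16,0,1,4096] 0 (.node [122] 9 7 (.far [16,257,0,16,0,1,4096] 0 (.conf [144,168,117] (.conf [155,168,186] (.far [16,257,0,16,0,1,4096] 0 (.far [16,257,0,16,0,1,4096] 0 (.node [144,117] 9 0 (.node [] 8 2 (.far [4112,0,0,1,0,0,4112,257] 0 (.node [139] 10 8 (.far [1,4112,0,0,1,0,0,4112,257] 0 (.conf [172,178,203] (.node [178,203,172] 11 2 .stop
 (.far [1,4112,0,0,1,0,0,4112,257] 0 (.conf [173,178,130] .stop)))))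
 (.lc 3 2 (.far [4112,0,0,1,0,0,4112,257] 0 (.node [140,203,140,178,168] 10 8 (.far [1,4112,0,0,1,0,0,4112,257] 0 (.lc 3 13 (.lc 1 11 (.lc 3 13 (.lc 4 14 .stop)))))
 (.lc 3 2 (.lc 3 2 (.lc 4 2 .stop))))))))
 .stop)
 (.node [155,186,117] 9 11 (.node [186] 1 11 (.node [186] 11 10 (.node [168] 8 2 (.far [1,0,0,0,0,0,4112,4112,257,4096,4096,4096,0,0,0,257] 4096 (.far [4112,0,0,0,0,1,0,0,4112,257] 0 (.node [140] 10 8 (.far [1,4112,0,0,0,0,1,0,0,4112,257] 0 (.lc 3 0 (.node [194,220,130] 10 13 (.node [220] 12 2 (.far [4096,4096,0,0,4096,4096] 256 .stop)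
 (.lc 2 12 .stop))
 .stop)))
 (.lc 0 0 (.node [140,192,140] 10 8 (.far [1,4096,4112,4096,0,4096,4096] 256 (.lc 1 0 .stop))
 (.lc 3 2 (.lc 3 2 (.lc 0 0 (.node [141,220,141,194] 10 8 (.far [1,4112,0,0,0,0,1,0,0,4112,257] 0 (.lc 3 0 (.lc 1 12 .stop)))
 (.far [4096,16,0,4112,4096,4096,4096,0,0,0,0,4096,0,0,0,257] 4096 (.lc 3 2 (.lc 3 2 .stop))))))))))))
 (.far [1,0,0,257,0,4112,4096,0,0,0,4096,0,0,0,257] 4096 (.node [168,202] 10 8 (.far [257,256,16,16,1,4096] 0 (.lc 2 2 (.node [205,216] 13 8 (.node [210] 13 2 (.lc 0 0 .stop)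
 (.lc 3 14 .stop))
 .stop)))
 (.conf [168,202] (.far [257,16,256,257,0,16,4096] 0 (.node [168,202,220] 10 8 (.far [257,272,16,16,4096,4096] 0 (.lc 2 2 (.lc 0 14 .stop)))
 .stop))))))
 (.lc 2 1 (.conf [186,203] (.lc 2 1 (.lc 3 1 .stop)))))
 (.lc 2 10 (.far [4112,1,4112,1,258,0,16,513,0,1,256] 4097 (.lc 2 10 (.lc 2 10 (.lc 3 10 .stop))))))
 (.conf [155,168,117] (.conf [144,168,117] (.conf [156,168,117] .stop))))))))))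
 (.lc 2 2 (.lc 2 2 (.lc 2 2 (.lc 2 2 (.lc 2 2 (.lc 3 5 (.lc 3 5 (.node [144] 9 0 (.node [] 8 2 (.far [4096,0,4096,4112,4096,0,0,0,4096,0,0,0,257] 4096 (.node [138] 0 8 .stop
 (.node [139,186,139,162] 0 8 .stop
 .stop)))
 .stop)
 (.node [122,160,122,151] 9 7 (.node [160] 10 0 (.node [161] 10 1 (.lc 0 1 .stop)
 (.lc 0 1 (.lc 0 1 .stop)))
 (.lc 3 11 (.lc 1 0 (.lc 3 11 (.lc 4 12 .stop)))))
 (.lc 2 2 (.node [112,168] 7 0 .stop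
 (.node [154,168] 9 10 (.node [168] 1 10 (.node [168] 10 8 (.node [130] 8 2 (.far [4096,4096,1,4096,0,4096,0,0,0,0,4096,0,0,0,257] 4096 .stop)
 (.lc 2 2 (.far [4112,1,4096,256,1,256] 17 (.conf [130,184] (.lc 2 2 .stop)))))
 (.lc 2 1 (.conf [168,186] .stop)))
 (.lc 2 8 (.far [4112,4112,1,258,0,16,513,0,1,256] 4097 (.lc 2 8 (.lc 2 8 (.lc 3 8 .stop))))))
 (.node [123,186,123,168,151] 9 7 (.node [186] 9 11 (.node [144,186,168] 0 11 (.node [168] 9 0 (.node [] 10 8 (.node [162] 10 2 (.far [4096,0,4112,257,4096,0,0,4096,0,0,0,0,4096,0,0,0,257] 4096 .stop)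
 (.node [130,172] 8 2 (.node [194] 10 12 .stop
 (.lc 0 13 .stop))
 (.lc 2 2 (.lc 3 0 (.conf [130,200] (.lc 2 2 .stop))))))
 .stop)
 (.lc 1 8 (.lc 1 8 .stop)))
 (.lc 2 1 (.node [156,186,168] 11 10 (.node [168] 9 12 (.node [202] 1 12 (.node [202] 12 10 (.node [168] 10 8 (.node [130] 8 2 (.far [4096,4096,4096,1,4096,0,0,0,0,4096,0,0,0,0,4096,0,0,0,257] 4096 .stop)
 (.lc 2 2 (.far [4112,4096,1,1,0,257,256,256] 17 (.lc 2 2 .stop))))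
 (.lc 2 8 (.conf [168,218] (.lc 2 2 .stop))))
 (.lc 2 1 (.node [202,220,202] 12 10 (.far [257,16,16,4096,4096] 0 (.lc 2 8 (.lc 0 14 .stop)))
 .stop)))
 (.node [202,145] 12 10 (.node [168] 10 8 (.node [130] 8 2 (.far [4096,4096,4096,4096,0,0,0,0,4096,0,0,0,0,4096,0,0,0,257] 4096 .stop)
 (.lc 2 2 (.far [4112,1,0,4096,1,256,256] 17 (.lc 2 2 .stop))))
 (.lc 2 8 (.conf [168,218] (.lc 2 2 .stop))))
 (.far [4112,0,4112,4112,0,1,256] 4097 (.far [257,0,257,257,0,16,4096] 0 (.far [257,0,257,257,0,16,4096] 0 (.node [202,220,145] 12 10 (.far [257,256,4096,1,257,0,16,4096] 0 (.lc 2 8 (.lc 0 14 .stop)))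
 .stop))))))
 (.lc 2 8 (.lc 2 8 (.lc 0 0 (.lc 0 13 (.lc 2 8 (.lc 2 8 (.lc 3 8 (.lc 3 8 (.lc 3 8 .stop))))))))))
 (.conf [168,183] (.conf [168,183] (.lc 3 1 (.lc 3 1 (.lc 3 1 (.node [156,186,192,168,156] 0 11 .stop
 (.conf [186,203] (.conf [186,203] (.node [168,183,144] 9 0 (.far [257,257,257,0,16,4096] 0 .stop)
 (.lc 3 1 (.node [168,183,156] 10 8 (.node [130] 9 12 (.far [257,0,257,257,0,16,4096] 0 (.lc 2 8 (.node [200] 12 8 (.node [194] 12 2 (.far [4096,0,4096,0,0,0,0,4096,0,0,0,0,4096,0,0,0,257] 4096 .stop)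
 (.lc 3 0 (.lc 3 0 (.lc 3 0 .stop))))
 (.lc 2 8 (.lc 2 8 (.lc 3 8 .stop))))))
 (.lc 2 2 (.lc 0 0 (.lc 0 13 (.lc 3 2 .stop)))))
 (.lc 3 1 (.lc 3 1 (.lc 4 1 (.conf [183,192,156] (.node [168,183,202,144] 9 0 (.far [257,256,16,257,16,4128,0,1,8208,0,16,4096] 0 .stop)
 (.conf [183,220,157] (.lc 4 1 (.lc 4 1 (.lc 4 1 (.lc 4 1 (.lc 4 1 (.lc 5 1 .stop))))))))))))))))))))))))))
 (.lc 3 0 (.lc 3 12 (.lc 1 10 (.lc 1 10 (.lc 3 0 (.lc 3 12 (.lc 4 12 (.lc 4 0 (.lc 4 13 .stop))))))))))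
 (.lc 2 2 (.lc 2 2 (.lc 2 2 (.lc 2 2 (.lc 2 2 (.lc 2 2 (.lc 3 5 (.lc 3 5 (.lc 3 5 (.lc 3 5 (.lc 3 5 (.lc 3 5 (.lc 3 2 (.lc 3 2 (.lc 3 2 (.lc 3 2 (.lc 3 2 (.lc 3 2 (.lc 3 2 (.lc 4 5 (.lc 4 5 (.lc 4 5 (.lc 4 5 (.lc 4 5 (.lc 4 5 (.lc 4 5 (.lc 4 5 (.lc 4 5 (.lc 4 5 (.lc 4 5 (.lc 4 5 (.lc 4 5 (.lc 4 5 (.lc 5 5 (.lc 5 5 (.lc 5 5 (.lc 5 5 .stop))))))))))))))))))))))))))))))))))))))))))))))))))))))
 (.node [151,97] 7 8 (.node [112] 7 0 .stop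
 (.lc 1 2 (.lc 2 5 (.node [122] 9 7 (.far [16,257,0,16,0,1,4096] 0 (.conf [144,168,117] (.conf [155,186] (.node [144,117] 8 2 (.far [4112,0,1,0,0,4112,257] 0 (.node [139] 10 8 (.far [1,4112,0,1,0,0,4112,257] 0 (.conf [172,178,203] (.node [178,203,172] 11 2 .stop
 (.far [1,4112,0,1,0,0,4112,257] 0 (.conf [173,178,130] .stop)))))
 (.lc 3 2 (.far [4112,0,1,0,0,4112,257] 0 (.node [140,203,140,178,168] 10 8 (.far [1,4112,0,1,0,0,4112,257] 0 (.lc 3 13 (.lc 1 11 (.lc 3 13 (.lc 4 14 .stop)))))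
 (.lc 3 2 (.lc 3 2 (.lc 4 2 .stop))))))))
 (.conf [144,168,117] .stop)))))
 (.lc 3 5 (.lc 2 2 (.lc 2 2 (.lc 3 5 (.lc 3 5 (.lc 2 2 (.node [123,186,123,168,151] 9 7 (.node [155,186,168] 9 11 (.node [186] 11 10 (.node [168] 10 8 (.node [162] 10 2 (.far [4096,0,4096,4096,0,0,4096,0,0,0,0,4096,0,0,0,257] 4096 .stop)
 (.node [130,172] 8 2 (.node [194] 10 12 .stop
 (.lc 0 13 .stop))
 (.lc 2 2 (.lc 3 0 (.conf [130,200] (.lc 2 2 .stop))))))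
 (.lc 2 8 (.lc 2 8 .stop)))
 (.lc 2 7 (.conf [186,203] (.lc 1 8 (.lc 2 8 .stop)))))
 (.lc 3 0 (.lc 1 10 (.lc 3 0 (.lc 4 0 .stop)))))
 (.lc 2 2 (.lc 3 5 (.lc 2 2 (.lc 3 5 (.lc 3 5 (.lc 4 5 (.lc 3 2 (.lc 4 5 (.lc 4 5 (.lc 4 5 (.lc 4 5 (.lc 4 5 (.lc 5 5 .stop))))))))))))))))))))))))
 (.node [137,151,97,137] 1 8 .stop
 (.node [26,151,169,97] 1 10 (.node [] 7 8 (.node [112] 7 0 .stop
 (.lc 1 2 (.lc 2 5 (.node [168,169,151] 7 10 .stop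
 (.node [123] 9 7 (.far [16,257,0,0,16,0,1,4096] 0 (.conf [171,184] (.conf [156,203] (.conf [150,171] (.conf [150,172] .stop)))))
 (.lc 2 2 (.lc 2 2 (.lc 3 5 (.lc 2 2 (.lc 2 2 (.lc 3 5 (.lc 0 9 (.lc 2 2 (.lc 3 5 (.node [124,203,124,184,151] 9 7 (.node [156,203,184] 10 9 (.node [172] 10 12 (.node [171,184] 10 11 (.node [184] 11 8 (.node [130] 8 2 (.far [4096,4096,1,257,257,0,0,0,4096,0,0,0,0,4096,0,0,0,257] 4096 .stop)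
 (.lc 2 2 (.far [4112,1,257,256,256,256] 17 (.lc 2 2 .stop))))
 (.lc 2 8 (.conf [184,219] (.lc 2 2 .stop))))
 (.lc 3 0 (.lc 1 8 (.lc 1 8 (.lc 3 0 (.lc 4 0 .stop))))))
 (.lc 1 7 (.lc 0 8 (.conf [203,220] (.lc 1 8 .stop)))))
 (.lc 3 6 (.lc 1 11 (.lc 3 6 (.lc 4 6 .stop)))))
 (.lc 2 2 (.lc 2 2 (.lc 3 5 (.lc 2 2 (.lc 2 2 (.lc 3 5 (.lc 3 5 (.lc 3 5 (.lc 3 2 (.lc 3 2 (.lc 4 5 (.lc 3 2 (.lc 4 5 (.lc 4 5 (.lc 4 5 (.lc 4 5 (.lc 4 5 (.lc 5 5 .stop)))))))))))))))))))))))))))))))))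
 (.lc 2 9 (.lc 2 9 (.node [186] 7 8 (.lc 1 2 (.lc 2 5 (.node [168,169,151,186] 7 10 .stop
 (.node [184,186] 7 11 .stop
 (.node [124] 9 7 (.far [16,257,0,0,16,0,1,4096] 0 (.conf [172,200] (.conf [157,220] (.lc 0 12 (.lc 0 13 .stop)))))
 (.lc 2 2 (.lc 3 5 (.lc 2 2 (.lc 2 2 (.lc 2 2 (.lc 2 2 (.lc 3 5 (.lc 3 5 (.lc 0 9 (.node [125,220,125,200,151] 9 7 (.node [157,220,200] 10 9 (.node [173] 10 13 (.node [172,186] 10 12 (.far [257,257,256,257,0,16,16,4096] 0 (.lc 0 8 (.lc 0 14 .stop)))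
 (.lc 3 1 (.lc 1 8 (.lc 1 8 (.lc 3 1 (.lc 4 1 .stop))))))
 (.lc 3 12 (.lc 0 8 (.lc 3 14 (.lc 4 14 .stop)))))
 (.lc 3 6 (.lc 1 12 (.lc 3 6 (.lc 4 6 .stop)))))
 (.lc 2 2 (.lc 3 5 (.lc 2 2 (.lc 2 2 (.lc 2 2 (.lc 3 5 (.lc 3 5 (.lc 3 5 (.lc 3 2 (.lc 4 5 (.lc 3 2 (.lc 3 2 (.lc 4 5 (.lc 4 5 (.lc 4 5 (.lc 4 5 (.lc 4 5 (.lc 5 5 .stop)))))))))))))))))))))))))))))))))
 (.lc 2 9 (.lc 3 9 .stop))))))
 (.far [4112,4112,0,0,4112,1,256] 4097 (.far [4112,4112,0,0,4112,1,256] 0 (.far [257,257,0,0,257,16,4096] 0 (.far [257,257,0,0,257,16,4096] 0 (.node [151,169,97] 7 8 (.lc 1 2 (.lc 2 5 (.node [168,169,151] 7 10 .stop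
 (.node [123] 9 7 (.far [16,257,0,16,0,1,4096] 0 (.conf [150,171] (.conf [156,203] (.far [16,257,256,16,0,1,4096,16,4112,4096] 0 (.conf [150,184,117] .stop)))))
 (.lc 2 2 (.lc 3 5 (.lc 2 2 (.lc 2 2 (.lc 3 5 (.lc 3 5 (.node [124,203,124,184,151,169] 9 7 (.node [156,203,184] 9 12 (.far [257,257,0,256,1,0,0,257,16,4096] 0 (.lc 0 11 (.lc 0 13 (.lc 1 8 (.lc 0 13 .stop)))))
 (.lc 3 6 (.lc 1 11 (.lc 3 6 (.lc 4 6 .stop)))))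
 (.lc 3 5 (.lc 2 2 (.lc 2 2 (.lc 3 5 (.lc 3 5 (.lc 4 5 (.lc 3 2 (.lc 4 5 (.lc 4 5 (.lc 4 5 (.lc 4 5 (.lc 5 5 .stop)))))))))))))))))))))))
 (.node [27,151,169,186,97,169,151] 1 11 (.node [186] 7 8 (.node [112] 7 0 .stop
 (.lc 1 2 (.lc 2 5 (.node [168] 7 10 .stop
 (.node [124] 9 7 (.far [16,257,0,0,16,0,1,4096] 0 (.lc 3 6 (.conf [157,220] (.lc 3 6 (.lc 4 6 .stop)))))
 (.lc 2 2 (.lc 3 5 (.lc 2 2 (.lc 2 2 (.lc 2 2 (.lc 3 5 (.lc 2 2 (.lc 3 5 (.node [125,220,200] 9 7 (.node [157,220,200] 9 13 (.far [257,257,0,0,256,1,0,0,257,16,4096] 0 (.lc 0 12 (.lc 0 14 (.lc 1 8 (.lc 0 14 .stop)))))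
 (.lc 3 6 (.lc 1 12 (.lc 3 6 (.lc 4 6 .stop)))))
 (.lc 2 2 (.lc 2 2 (.lc 3 5 (.lc 2 2 (.lc 2 2 (.lc 3 5 (.lc 3 5 (.lc 3 5 (.lc 3 2 (.lc 4 5 (.lc 3 2 (.lc 4 5 (.lc 4 5 (.lc 4 5 (.lc 4 5 (.lc 4 5 (.lc 5 5 .stop)))))))))))))))))))))))))))))))
 (.lc 2 10 (.lc 2 10 (.conf [186,203] (.lc 2 10 (.lc 3 10 .stop))))))
 .stop))))))))))
 (.lc 3 1 (.lc 2 8 (.lc 2 8 (.lc 2 8 (.lc 3 1 (.lc 2 8 (.lc 3 1 (.lc 3 1 (.lc 3 1 (.lc 3 1 (.node [105,144,105] 6 9 (.far [4112,4112,0,0,4112,1,256] 0 (.lc 2 0 (.lc 2 0 (.conf [26,144,169] (.lc 2 0 (.lc 3 0 .stop))))))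
 (.lc 2 5 (.lc 3 1 (.lc 2 5 (.node [96,151] 6 0 (.far [4112,4112,0,0,4112,1,256] 0 .stop)
 (.lc 3 1 (.node [106,169,106,151] 6 10 (.far [4112,4112,0,0,4112,1,256] 0 (.lc 2 9 (.lc 2 9 (.lc 2 9 (.far [4112,4112,0,0,4112,1,256] 4097 (.conf [27,169,186] (.lc 2 9 (.lc 2 9 (.lc 3 9 (.lc 3 9 .stop))))))))))
 (.lc 3 1 (.lc 2 8 (.lc 2 8 (.lc 3 1 (.lc 2 8 (.lc 3 1 (.lc 3 1 (.lc 3 1 (.lc 3 1 (.lc 3 1 (.lc 3 8 (.lc 4 1 (.lc 3 8 (.lc 3 8 (.lc 4 1 (.lc 3 8 (.lc 4 1 (.lc 4 1 (.lc 4 1 (.lc 4 1 (.lc 4 1 (.lc 4 1 (.lc 4 1 (.lc 4 1 (.lc 4 1 (.lc 4 1 (.lc 5 1 (.lc 5 1 .stop)))))))))))))))))))))))))))))))))))))))))))))))))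
 (.far [257,4096,1,4112,4096,0,0,257] 4096 (.node [137,146] 9 2 (.far [1,257,4096,1,4112,4096,0,0,257] 4096 (.lc 3 7 (.lc 3 10 (.node [160] 8 9 (.node [129,154] 8 1 .stop
 (.lc 1 2 (.node [139,154] 7 8 (.far [1,4112,0,4096,257,0,0,0,1,256] 0 (.lc 3 1 (.lc 3 10 (.lc 3 12 (.lc 1 9 (.lc 3 12 (.lc 4 13 .stop)))))))
 (.lc 2 10 (.lc 2 10 (.lc 3 4 (.lc 3 4 (.lc 2 2 (.conf [154,185] (.lc 2 10 (.lc 2 10 (.lc 2 10 (.lc 3 4 (.lc 0 5 (.lc 3 4 (.lc 0 1 (.lc 0 10 (.lc 0 11 (.lc 3 10 (.lc 0 11 (.lc 0 12 (.lc 0 11 (.lc 0 12 (.lc 0 1 (.lc 0 12 (.lc 1 1 (.lc 4 4 (.lc 0 13 .stop))))))))))))))))))))))))))))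
 (.lc 3 10 (.lc 4 11 .stop))))))
 (.far [16,256,16,0,16,4112,4096] 17 (.conf [137,146] (.far [1,4096,1,0,1,257,256] 0 (.far [1,4096,1,0,1,257,256] 0 (.node [137,144] 7 8 (.node [137] 1 8 .stop
 (.lc 2 5 (.node [137] 8 9 (.far [4112,1,8208,257,0,0,0,1,256] 17 (.lc 2 0 (.lc 2 0 (.lc 0 11 (.lc 2 0 (.lc 3 0 .stop))))))
 (.lc 2 4 (.lc 3 1 (.lc 3 11 (.lc 0 1 (.conf [137,168] (.lc 2 4 (.lc 3 5 (.lc 2 4 (.lc 3 1 (.lc 3 10 (.lc 3 10 (.lc 3 11 (.lc 0 1 (.lc 3 4 (.lc 4 12 (.lc 4 11 (.lc 4 10 (.lc 4 11 (.lc 4 1 (.lc 4 11 (.lc 5 12 .stop))))))))))))))))))))))))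
 (.node [138,169,146] 9 2 (.node [144] 7 8 (.node [138] 0 8 .stop
 (.node [138] 1 8 (.lc 1 9 .stop)
 (.lc 2 5 (.node [138] 8 10 (.far [4112,1,0,8208,257,0,0,0,1,256] 0 (.lc 2 9 (.lc 2 9 (.lc 2 9 (.lc 0 12 (.lc 2 9 (.lc 3 9 (.lc 3 9 .stop))))))))
 (.lc 2 4 (.lc 3 1 (.lc 3 0 (.lc 3 1 (.lc 3 12 (.node [138] 8 10 .stop
 (.lc 0 1 (.conf [138,184] (.lc 2 4 (.lc 2 4 (.lc 3 5 (.lc 2 4 (.lc 3 0 (.lc 3 1 (.lc 3 11 (.lc 3 1 (.lc 3 11 (.lc 3 11 (.lc 3 12 (.lc 3 4 (.lc 0 1 (.lc 3 4 (.lc 4 11 (.lc 4 1 (.lc 4 13 (.lc 4 1 (.lc 4 12 (.lc 4 1 (.lc 4 11 (.lc 4 11 (.lc 4 12 (.lc 4 1 (.lc 4 0 (.lc 4 1 (.lc 4 12 (.lc 5 11 (.lc 5 1 (.lc 5 13 .stop))))))))))))))))))))))))))))))))))))))))))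
 (.lc 3 7 (.lc 3 11 (.conf [155,176] (.lc 3 11 (.lc 4 12 .stop))))))
 .stop)))))))))
 (.node [83,112,103,66] 0 4 (.far [1,1,0,0,0,1,256] 0 (.node [66] 7 0 (.node [113] 6 7 (.lc 2 1 .stop)
 (.far [16,257,4096] 0 (.lc 0 1 (.lc 3 0 (.conf [121,145] (.conf [121,152] (.lc 0 1 .stop)))))))
 (.node [66,132,152,66] 7 0 (.node [113] 6 7 (.lc 2 1 .stop)
 (.node [121,152,132] 6 7 (.node [152] 6 9 (.lc 1 4 .stop)
 (.lc 0 4 (.lc 3 1 (.lc 4 1 .stop))))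
 (.lc 0 1 (.lc 3 0 (.conf [122,161] (.lc 1 8 (.lc 0 1 .stop)))))))
 .stop)))
 (.node [83,113,103,66] 1 4 (.far [257,1,1,4112,4096,0,0,257] 16 (.node [22,66,132,66] 7 1 .stop
 .stop))
 (.lc 2 2 (.node [83,120,103,66] 6 7 (.node [96,120] 0 7 (.node [132] 6 0 (.node [] 8 4 (.far [1,0,0,0,1,0,0,0,1,256] 0 (.node [66] 9 4 (.far [1,1,0,0,0,1,0,0,0,1,256] 0 (.node [32,154,162,66] 10 2 .stop
 (.node [32,162,154] 10 2 .stop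
 (.far [1,1,0,0,0,1,0,0,0,1,256] 0 (.node [32,155,162,186,66,155,162] 10 2 .stop
 .stop)))))
 (.lc 2 2 (.lc 3 9 (.lc 3 10 (.node [32,66,146,32] 9 2 .stop
 (.node [66,148,169,66] 9 4 (.node [146] 8 10 (.node [139,169] 0 8 .stop
 (.lc 2 9 (.conf [140,203] (.lc 2 9 (.lc 3 0 (.lc 3 9 .stop))))))
 (.lc 3 11 (.conf [32,155,178] (.lc 3 11 (.lc 4 12 .stop)))))
 (.lc 2 2 (.lc 2 2 (.lc 2 2 (.lc 3 9 (.lc 3 10 (.lc 3 2 (.lc 4 10 (.lc 4 11 (.lc 3 2 (.lc 3 2 (.lc 3 2 (.lc 4 2 .stop)))))))))))))))))))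
 .stop)
 (.far [256,0,257,0,4112,4112,4096,0,257] 4096 (.far [16,16,257,4112,0,16,4096] 0 (.far [16,16,257,4112,0,16,4096] 0 (.far [1,1,4112,257,0,1,256] 17 (.node [132,152,41] 4 2 (.far [1,4096,0,4112,0,0,0,16,4096] 17 (.lc 1 8 .stop))
 .stop))))))
 (.lc 2 1 (.node [98,120] 2 7 .stop
 (.node [105,120] 7 8 (.node [132] 6 9 (.node [152] 8 4 (.node [66] 0 4 (.far [1,1,0,0,0,1,0,0,0,1,256] 0 .stop)
 (.far [1,0,0,0,1,0,0,0,1,256] 0 (.lc 2 4 (.node [66] 10 4 (.far [1,1,0,0,0,1,0,0,0,1,256] 0 (.far [257,1,4112,4112,4096,4096,0,4096,0,0,0,257] 4096 (.node [32,171,178,66] 11 2 (.far [1,257,1,4112,4112,4096,4096,0,4096,0,0,0,257] 4096 (.lc 3 12 (.node [192] 9 8 (.lc 2 1 (.lc 1 4 (.node [138,155,188,171,192] 9 11 .stop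
 (.node [192,200] 9 12 (.far [4112,4112,0,0,0,1,256,256] 4097 .stop)
 (.node [138,157] 8 10 (.far [257,16,0,0,257,0,16,0,4096] 0 (.conf [188,219] (.conf [171,234] (.lc 1 12 (.lc 2 12 .stop)))))
 (.lc 2 4 (.lc 3 1 (.lc 2 4 (.lc 1 8 (.node [138,216,237,138,158,171] 8 10 (.far [257,16,0,0,257,0,16,0,4096] 0 (.lc 2 4 (.lc 0 15 (.lc 2 4 (.lc 3 4 .stop)))))
 (.lc 2 4 (.lc 2 4 (.lc 3 1 (.lc 3 4 (.lc 4 1 (.lc 3 4 .stop))))))))))))))))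
 (.lc 3 12 (.lc 4 13 .stop)))))
 (.far [1,1,8224,4112,8208,4096,4096,8192,0,0,16,513] 4096 (.node [32,178,171] 11 2 (.far [1,1,1,8224,4112,8208,4096,4096,8192,0,0,16,513] 4096 (.lc 3 12 (.node [188,192,188,171] 9 8 (.lc 2 1 (.far [16,0,0,257,0,16,0,4096] 0 (.lc 0 0 (.node [138,157] 8 10 (.far [257,16,0,0,257,0,16,0,4096] 0 (.lc 2 11 (.lc 2 11 (.lc 0 14 (.lc 2 11 (.lc 3 11 .stop))))))
 (.lc 2 4 (.lc 3 1 (.lc 3 1 (.lc 1 11 (.conf [138,216] (.lc 2 4 (.lc 2 4 (.lc 2 4 (.lc 2 4 (.lc 3 1 (.lc 3 4 (.lc 1 1 (.lc 3 4 (.lc 3 4 (.lc 1 1 .stop)))))))))))))))))))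
 (.lc 3 12 (.lc 4 13 .stop)))))
 (.far [1,1,0,0,0,1,0,0,0,1,256] 0 (.far [1,1,0,0,0,1,0,0,0,1,256] 0 (.far [1,1,8224,4112,8208,4096,4096,8192,0,0,16,513] 4096 (.node [32,172,178,203,66,172,178] 11 2 (.far [1,1,1,8224,4112,8208,4096,4096,8192,0,0,16,513] 4096 (.lc 3 13 (.conf [189,208] (.lc 3 13 (.lc 4 14 .stop)))))
 .stop)))))))))
 (.lc 2 2 (.lc 2 2 (.lc 3 1 (.lc 3 10 (.lc 3 0 (.lc 3 10 (.lc 3 0 (.lc 3 11 (.node [66,160] 0 4 (.far [256,0,0,0,0,0,0,0,0,0,1,1] 4096 .stop)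
 (.far [1,8224,4112,8208,4096,4096,8192,0,0,16,513] 4096 (.node [32,66,162,32] 10 2 (.far [1,1,8224,4112,8208,4096,4096,8192,0,0,16,513] 4096 (.lc 3 11 (.node [171,176,171] 8 10 (.lc 1 11 (.lc 2 12 (.lc 3 12 (.lc 3 4 (.lc 3 13 (.lc 1 0 (.lc 3 12 (.lc 3 4 (.lc 3 4 (.lc 4 13 (.lc 4 4 (.lc 4 4 .stop))))))))))))
 (.lc 3 11 (.lc 4 12 .stop)))))
 (.node [66,164,66] 10 4 (.node [162] 0 10 .stop
 (.lc 3 11 (.conf [32,171,178] (.lc 3 11 (.lc 4 12 .stop)))))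
 (.node [66,164,186,66] 10 4 (.node [162] 9 8 (.node [139,144] 0 8 (.node [186] 9 0 (.node [] 11 10 (.node [162,188] 10 2 (.node [194] 11 12 .stop
 (.lc 0 13 .stop))
 (.conf [162,188] (.conf [162,202] (.far [1,16,257,4096] 256 .stop))))
 .stop)
 (.lc 1 10 (.lc 1 10 .stop)))
 (.lc 2 1 (.node [132,186,162] 9 11 (.node [186] 1 11 .stop
 (.far [4112,4112,0,0,1,256,256] 4097 .stop))
 (.node [139,156] 8 11 (.node [186] 9 12 (.node [203] 1 12 (.node [203] 12 11 (.node [186,162] 11 10 (.node [162] 10 2 (.far [4096,4096,4096,1,4096,0,0,0,0,4096,0,0,0,0,4096,0,0,0,257] 4096 .stop)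
 (.lc 2 2 (.lc 2 2 .stop)))
 (.conf [162,184] (.conf [186,219] (.far [16,0,0,16,0,257,4096] 17 .stop))))
 (.lc 2 1 (.node [203,220,203,186,162] 12 11 (.far [257,16,16,4096,4096] 0 (.lc 2 8 (.lc 0 14 .stop)))
 .stop)))
 (.node [203,186,145,162] 12 11 (.node [186] 11 10 (.node [162] 10 2 (.far [4096,4096,4096,4096,0,0,0,0,4096,0,0,0,0,4096,0,0,0,257] 4096 .stop)
 (.lc 2 2 (.lc 2 2 .stop)))
 (.lc 2 8 (.conf [186,219] (.lc 2 2 .stop))))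
 (.far [4112,0,4112,0,0,1,256,256] 4097 (.far [257,0,257,0,0,16,4096,4096] 0 (.far [257,0,257,0,0,16,4096,4096] 0 (.node [203,220,186,145,162] 12 11 (.far [257,256,4096,1,0,0,16,4096,4096] 0 (.lc 2 8 (.lc 0 14 .stop)))
 .stop))))))
 (.lc 2 10 (.lc 2 10 (.lc 0 0 (.lc 0 13 (.lc 2 10 (.lc 2 10 (.lc 3 10 (.lc 3 10 (.lc 3 10 .stop))))))))))
 (.lc 2 4 (.lc 2 4 (.lc 3 1 (.lc 3 1 (.lc 3 1 (.lc 3 1 (.node [139,156,192,156] 0 8 .stop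
 (.lc 1 10 (.lc 1 10 (.conf [139,200] (.conf [139,200] (.lc 2 4 (.lc 2 4 (.lc 2 4 (.lc 2 4 (.lc 3 1 (.lc 3 4 (.lc 3 4 (.lc 3 4 (.lc 3 4 (.lc 4 1 (.lc 4 1 (.lc 3 4 (.lc 3 4 (.lc 3 4 (.lc 3 4 (.lc 4 4 .stop)))))))))))))))))))))))))))))))
 (.lc 3 0 (.lc 3 12 (.node [160] 9 8 (.lc 2 1 (.far [16,16,256,0,16,0,4112,0,0,0,16,4096] 17 (.node [139,156] 8 11 (.far [257,16,16,256,0,16,0,4112,0,0,0,16,4096] 17 (.lc 2 10 (.lc 0 13 (.lc 2 10 (.lc 3 10 .stop)))))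
 (.lc 2 4 (.lc 3 1 (.lc 3 1 (.lc 1 10 (.conf [139,200] (.lc 2 4 (.lc 2 4 (.lc 2 4 (.lc 3 1 (.lc 3 4 (.lc 3 4 (.lc 3 4 .stop)))))))))))))))
 (.conf [32,172,194] (.lc 3 0 (.lc 3 12 (.lc 4 12 (.lc 4 13 .stop)))))))))
 (.lc 2 2 (.lc 2 2 (.lc 2 2 (.lc 2 2 (.lc 2 2 (.lc 3 10 (.lc 3 0 (.lc 3 10 (.lc 3 0 (.lc 3 11 (.lc 3 2 (.lc 3 2 (.lc 4 11 (.lc 4 10 (.lc 4 11 (.lc 4 11 (.lc 4 0 (.lc 4 12 (.lc 3 2 (.lc 3 2 (.lc 3 2 (.lc 3 2 (.lc 3 2 (.lc 3 2 (.lc 4 2 (.lc 4 2 .stop)))))))))))))))))))))))))))))))))))))))))))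
 (.node [152,97] 9 8 (.node [] 8 4 (.conf [4,128] (.far [1,0,0,0,0,1,0,0,0,1,256] 0 (.node [66,138] 8 10 (.far [257,257,16,0,16,0,4096] 0 (.far [1,257,0,16,4112,4096,4096] 256 (.far [257,257,4128,4096,272,16,4096,4096,4096,0,0,0,257] 4096 (.far [257,257,16,0,16,0,4096] 0 (.far [257,257,16,0,16,0,4096] 0 (.far [257,257,16,16,16,4112,4096,4096] 256 .stop))))))
 (.lc 2 2 (.lc 2 2 (.lc 3 0 (.lc 3 0 (.conf [1,128] (.node [32,66,138,162,32,138] 8 10 (.node [162] 10 2 .stop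
 (.lc 2 2 .stop))
 (.node [66,164,186,66,139] 8 11 (.node [186] 10 4 (.node [162] 11 10 (.node [162,188] 10 2 (.node [194] 11 12 .stop
 (.lc 0 13 .stop))
 (.conf [162,188] (.conf [162,202] (.far [1,0,4096,0,1,16,4096,4096] 256 .stop))))
 (.lc 3 12 (.conf [32,172,194] (.lc 3 12 (.lc 4 13 .stop)))))
 (.lc 2 10 (.node [186] 4 2 .stop
 (.lc 2 10 (.lc 2 10 (.lc 3 10 .stop))))))
 (.lc 2 2 (.lc 2 2 (.lc 2 2 (.lc 3 0 (.lc 3 2 .stop)))))))))))))))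
 (.lc 2 4 (.lc 2 4 (.far [4112,4096,256,16,0,4112,1,256] 17 (.far [4112,4096,256,16,0,4112,1,256] 0 (.lc 2 4 (.lc 2 4 (.lc 3 4 (.lc 3 4 .stop)))))))))
 (.node [152,169,97] 9 8 (.node [168] 1 10 (.node [] 8 4 (.node [66,128] 0 4 (.far [257,1,4112,0,16,4112,4096,4096] 256 .stop)
 (.far [1,0,0,0,0,0,1,0,0,0,1,256] 0 (.lc 2 4 (.node [66,139] 10 8 (.far [16,257,0,16,0,16,0,4096] 0 (.lc 3 0 (.far [4112,0,1,16,1,256,256] 0 (.far [16,257,0,16,0,16,0,4096] 0 (.lc 3 0 (.lc 4 0 (.lc 4 0 .stop)))))))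
 (.lc 2 2 (.lc 2 2 (.lc 3 4 (.lc 3 4 (.lc 3 4 (.lc 3 4 (.far [1,0,8224,8192,272,16,4096,4096,8192,0,0,16,513] 4096 (.node [32,66,139,178,32] 10 8 (.node [171,178] 10 11 (.node [178] 11 2 (.far [4096,1,257,0,0,4096,4096,0,0,0,0,4096,0,0,0,257] 4096 .stop)
 (.lc 2 2 (.conf [178,203] .stop)))
 (.lc 3 0 (.lc 1 2 (.lc 1 2 (.lc 3 0 (.lc 4 0 .stop))))))
 (.node [66,180,203,66] 10 8 (.node [172,203] 10 12 (.node [203,180] 12 11 (.node [180] 11 4 (.node [178] 11 2 (.far [4096,0,4096,1,257,0,0,4096,4096,0,0,0,0,4096,0,0,0,257] 4096 .stop)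
 (.lc 3 0 (.conf [189,210] .stop)))
 (.lc 2 4 (.far [4112,1,258,4112,0,2,0,4097,1,256,256] 17 (.lc 2 4 (.lc 2 4 (.lc 3 4 .stop))))))
 (.conf [180,200] (.far [4112,4112,0,1,16,1,256,256] 17 (.conf [203,220] (.far [257,257,0,16,1,16,4096,4096] 0 (.far [256,16,257,16,16,16,16,4112,4096,4096] 0 (.far [256,16,257,16,16,16,16,4112,4096,4096] 0 .stop)))))))
 (.lc 3 0 (.lc 1 11 (.lc 1 11 (.lc 3 0 (.lc 4 0 (.lc 4 0 .stop)))))))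
 (.lc 2 2 (.lc 2 2 (.lc 2 2 (.lc 2 2 (.lc 3 4 (.lc 3 2 (.lc 3 2 (.lc 3 2 (.lc 4 4 (.lc 4 4 (.lc 3 2 (.lc 3 2 (.lc 3 2 (.lc 3 2 .stop)))))))))))))))))))))))))))
 (.lc 2 8 (.node [186] 8 4 (.far [1,0,0,0,0,0,1,0,0,0,1,256] 0 (.lc 2 4 (.node [66,180,186] 8 11 (.far [4096,0,16,1,16,4096,4096] 0 .stop)
 (.node [66,140] 10 8 (.far [16,257,0,16,0,16,0,4096] 0 (.lc 3 1 (.conf [188,196] (.conf [173,220] (.lc 3 1 (.lc 4 1 .stop))))))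
 (.lc 2 2 (.lc 3 4 (.lc 3 4 (.lc 3 4 (.node [32,66,140,194,32] 10 8 (.node [172,186] 10 12 (.far [257,257,0,16,1,16,4096,4096] 0 (.lc 0 13 .stop))
 (.lc 3 1 (.lc 1 2 (.lc 1 2 (.lc 3 1 (.lc 4 1 .stop))))))
 (.lc 3 4 (.node [66,196,220,66] 10 8 (.node [173,220,186,196] 10 13 (.far [257,257,0,16,1,16,4096,4096] 0 (.lc 0 12 (.lc 0 14 (.lc 1 4 (.lc 0 14 .stop)))))
 (.lc 3 1 (.lc 1 12 (.lc 1 12 (.lc 3 1 (.lc 4 1 .stop))))))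
 (.lc 2 2 (.lc 2 2 (.lc 2 2 (.lc 2 2 (.lc 2 2 (.lc 3 4 (.lc 3 2 (.lc 3 2 (.lc 3 2 (.lc 4 4 (.lc 4 4 (.lc 3 2 (.lc 3 2 (.lc 3 2 (.lc 3 2 (.lc 4 2 .stop)))))))))))))))))))))))))))
 (.lc 2 8 (.lc 3 8 .stop)))))
 (.lc 2 4 (.lc 2 4 (.lc 2 4 (.far [4112,4096,256,16,0,4112,1,256] 0 (.far [4112,4096,256,16,0,4112,1,256] 0 (.lc 2 4 (.lc 2 4 (.lc 3 4 (.lc 3 4 (.lc 3 4 (.lc 3 4 .stop))))))))))))
 (.far [4112,0,4112,0,4112,1,256] 4097 (.lc 1 4 (.far [4112,0,4112,0,4112,1,256] 0 (.far [257,0,257,0,257,16,4096] 0 (.far [257,0,257,0,257,16,4096] 0 (.node [152,169,97] 10 9 (.far [16,256,4096,1,0,257,16,4096] 0 (.lc 1 4 (.lc 1 4 (.lc 1 4 (.lc 3 11 (.lc 2 4 .stop))))))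
 (.node [152,169,186,97] 10 9 (.far [16,256,4096,1,0,257,16,4096] 0 (.lc 1 4 (.lc 1 4 (.lc 1 4 (.lc 1 4 (.lc 1 4 (.lc 3 0 (.lc 3 12 (.lc 2 4 (.lc 2 4 (.lc 2 4 (.lc 2 4 .stop))))))))))))
 .stop))))))))))
 (.lc 0 0 (.lc 0 1 (.lc 0 2 (.lc 0 10 (.lc 0 0 (.lc 0 10 (.far [257,16,257,4112,0,16,4096] 0 (.far [257,16,257,4112,0,16,4096] 0 (.lc 0 1 (.lc 0 10 (.lc 0 0 (.lc 0 0 (.lc 0 11 .stop))))))))))))))
 (.lc 2 5 (.lc 3 1 (.lc 2 5 (.lc 3 1 (.lc 3 1 (.lc 3 1 (.node [105,120,144,105] 0 7 (.far [16,16,257,4112,0,16,4096] 0 .stop)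
 (.node [96,120] 2 7 .stop
 (.conf [120,151] (.lc 3 1 (.conf [120,151] (.lc 2 5 (.lc 3 1 (.lc 2 5 (.lc 2 5 (.lc 3 1 (.lc 3 1 (.lc 3 1 (.lc 4 1 (.lc 3 5 (.lc 3 5 (.lc 3 5 (.lc 4 1 (.lc 3 5 (.lc 4 1 (.lc 4 1 (.lc 4 1 (.lc 4 1 (.lc 4 1 (.lc 4 1 (.lc 4 1 (.lc 4 1 (.lc 5 1 (.lc 5 1 .stop))))))))))))))))))))))))))))))))))))))
 (.conf [66,83,113] (.conf [66,88,129] (.conf [66,83,120] (.conf [66,89,152] (.node [66,81,132] 5 1 .stop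
 (.conf [66,83,112] (.conf [66,89,144] (.node [66,80,132,152] 5 0 (.node [113,22,80] 8 4 (.node [130] 1 6 .stop
 (.lc 3 10 (.conf [138,162] (.lc 3 10 (.lc 4 11 .stop)))))
 .stop)
 (.conf [66,83,121] (.conf [66,90,169] (.node [83,113,22,66] 7 1 .stop
 (.node [83,120,128,103,66] 0 4 (.far [1,4096,1,0,1,257,256] 0 .stop)
 (.lc 3 2 (.lc 3 2 (.conf [83,132,66] (.conf [83,132,66] (.far [1,1,4112,4096,0,0,257] 16 (.node [66,83,120,128,103] 0 4 (.far [1,4096,1,0,1,257,256] 0 .stop)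
 (.node [66,83,120,129,103] 1 4 .stop
 (.node [66,83,112,132,103] 7 0 (.node [113] 6 7 (.lc 2 1 .stop)
 (.lc 0 1 (.conf [121,145] (.lc 0 1 .stop))))
 (.conf [66,132,152] (.far [1,1,4112,4096,0,0,257] 16 (.node [66,83,120,128,103] 0 4 (.far [256,0,0,0,0,0,1,1] 4096 .stop)
 (.node [66,83,112,132,103] 7 0 (.far [1,257,0,4112,4112,4096,0,257] 16 (.node [8,121] 6 7 (.far [16,257,257,4112,0,16,4096] 0 (.lc 3 1 (.lc 3 1 (.lc 1 0 (.lc 3 1 (.lc 4 1 .stop))))))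
 (.lc 2 8 (.lc 0 1 (.lc 3 0 (.conf [121,145] (.conf [8,144] (.lc 2 8 (.lc 2 8 (.lc 0 1 (.lc 3 8 .stop)))))))))))
 (.node [66,83,113,132,103] 7 1 .stop
 (.conf [66,121,132,152] (.node [66,83,113,103] 7 1 (.lc 0 1 .stop)
 (.conf [83,120,128] (.node [66,83,112,132,103] 8 4 (.far [16,256,16,0,16,4112,4096] 0 (.lc 3 9 (.conf [137,146] (.lc 3 9 (.lc 4 10 .stop)))))
 (.conf [83,121,152] (.node [66,83,120,129,22] 1 6 (.node [134] 6 7 .stop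
 (.lc 0 9 .stop))
 (.node [66,83,121,152,103,128] 0 4 (.far [256,0,0,0,0,0,1,1] 4096 .stop)
 (.node [66,83,113,132,22] 8 4 (.node [130] 7 1 .stop
 (.lc 3 9 (.conf [137,146] (.lc 3 9 (.lc 4 10 .stop)))))
 (.node [66,83,121,132,144,103] 8 4 (.node [130] 0 8 .stop
 (.lc 3 10 (.conf [138,162] (.lc 3 10 (.lc 4 11 .stop)))))
 (.node [66,83,112,132,152,103] 7 0 (.node [113] 6 7 (.lc 2 1 .stop)
 (.lc 0 1 (.conf [122,161] (.lc 0 1 .stop))))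
 (.node [66,83,122,132,152,103] 8 4 (.node [130] 6 7 (.node [96,122] 0 7 (.node [169] 6 0 (.node [] 10 9 (.node [152,171] 0 10 .stop
 (.lc 2 8 (.conf [152,185] (.lc 2 8 (.lc 2 8 (.lc 3 8 .stop))))))
 .stop)
 (.lc 1 9 (.lc 1 9 .stop)))
 (.lc 2 1 (.node [107,122] 7 10 (.node [169] 6 11 (.node [186] 11 10 (.node [169,176] 0 10 (.node [152] 11 0 (.node [] 9 8 (.node [130,156] 8 2 (.node [194] 9 12 .stop
 (.lc 0 13 .stop))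
 (.lc 2 2 (.conf [130,200] (.lc 2 2 .stop))))
 .stop)
 (.lc 1 8 (.lc 1 8 .stop)))
 (.lc 2 1 (.node [169,188] 10 9 (.node [152] 11 12 (.node [201] 1 12 (.node [201] 12 9 (.node [152] 9 8 (.node [130] 8 2 (.far [4096,4096,4096,1,4096,0,0,4096,0,0,0,0,0,4096,0,0,0,257] 4096 .stop)
 (.lc 2 2 (.lc 2 2 .stop)))
 (.lc 2 8 (.conf [152,217] (.lc 2 2 .stop))))
 (.lc 2 1 (.node [201,220,201] 12 9 (.far [257,16,16,4096,4096] 0 (.lc 2 8 (.lc 0 14 .stop)))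
 .stop)))
 (.node [201,177] 12 9 (.node [152] 9 8 (.node [130] 8 2 (.far [4096,4096,4096,4096,0,0,4096,0,0,0,0,0,4096,0,0,0,257] 4096 .stop)
 (.lc 2 2 (.lc 2 2 .stop)))
 (.lc 2 8 (.conf [152,217] (.lc 2 2 .stop))))
 (.far [4112,0,4112,1,256,256] 4097 (.far [257,0,257,16,4096,4096] 0 (.far [257,0,257,16,4096,4096] 0 (.node [201,220,177] 12 9 (.far [257,256,4096,1,16,4096,4096] 0 (.lc 2 8 (.lc 0 14 .stop)))
 .stop))))))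
 (.lc 2 8 (.lc 2 8 (.lc 0 0 (.lc 0 13 (.lc 2 8 (.lc 2 8 (.lc 3 8 (.lc 3 8 (.lc 3 8 .stop))))))))))
 (.lc 2 7 (.lc 2 7 (.lc 3 1 (.lc 3 1 (.lc 3 1 (.node [169,188,192,188] 0 10 .stop
 (.conf [169,202] (.conf [169,202] (.lc 1 8 (.lc 1 8 (.lc 1 8 (.lc 2 7 (.lc 3 1 (.lc 2 8 (.lc 2 8 (.lc 2 8 (.lc 2 8 (.lc 4 1 (.lc 3 7 (.lc 2 8 (.lc 2 8 (.lc 2 8 (.lc 3 8 .stop))))))))))))))))))))))))))
 (.node [186,97] 11 10 (.node [169] 10 9 (.node [152] 9 8 (.node [130,156] 8 2 (.node [194] 9 12 .stop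
 (.lc 0 13 .stop))
 (.lc 2 2 (.conf [130,200] (.lc 2 2 .stop))))
 (.lc 2 8 (.lc 2 8 .stop)))
 (.lc 2 7 (.conf [169,202] (.lc 1 8 (.lc 2 8 .stop)))))
 (.node [186,97,155] 9 11 .stop
 (.node [186,203,97] 11 10 (.node [169] 10 9 (.node [152] 1 12 (.node [201] 12 9 (.node [152] 9 8 (.node [130] 8 2 (.far [4096,4096,1,0,4096,4096,4096,0,0,0,0,0,4096,0,0,0,257] 4096 .stop)
 (.lc 2 2 (.lc 2 2 .stop)))
 (.lc 2 8 (.conf [152,217] (.lc 2 2 .stop))))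
 (.lc 2 1 (.node [201,220] 12 9 (.far [257,16,4096,1,16,4096,4096] 0 (.lc 2 8 (.lc 0 14 .stop)))
 .stop)))
 (.lc 2 8 (.lc 2 8 (.lc 0 0 (.lc 0 13 (.lc 2 8 (.lc 2 8 (.lc 3 8 (.lc 3 8 (.lc 3 8 .stop))))))))))
 (.lc 2 7 (.far [4112,4096,256,16,0,0,4112,1,256] 0 (.conf [169,218] (.lc 1 8 (.lc 2 8 (.lc 2 8 .stop)))))))
 (.far [4112,0,4112,0,0,4112,1,256] 4097 (.far [4112,0,4112,0,0,4112,1,256] 0 (.far [257,0,257,0,0,257,16,4096] 0 (.far [257,0,257,0,0,257,16,4096] 0 (.node [186,203,97] 11 10 (.far [257,256,4096,1,0,0,257,16,4096] 0 (.lc 2 7 (.lc 0 13 (.lc 1 8 (.lc 2 8 .stop)))))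
 (.node [186,203,220,97] 11 10 (.far [257,256,4096,1,0,0,257,16,4096] 0 (.lc 2 7 (.lc 0 0 (.lc 0 14 (.lc 1 8 (.lc 2 8 (.lc 2 8 .stop)))))))
 .stop))))))))))
 (.lc 2 9 (.lc 2 9 (.lc 2 9 (.lc 0 0 (.lc 0 12 (.lc 2 9 (.lc 2 9 (.lc 3 9 (.lc 3 9 (.lc 3 9 (.lc 3 9 .stop))))))))))))
 (.lc 2 5 (.lc 3 1 (.lc 2 5 (.lc 3 1 (.lc 3 1 (.lc 3 1 (.node [107,122,176,107] 0 7 .stop
 (.conf [122,183] (.lc 3 1 (.conf [122,183] (.lc 2 5 (.lc 3 1 (.lc 2 5 (.lc 3 1 (.lc 3 1 (.lc 3 1 (.lc 4 1 (.lc 3 5 (.lc 3 5 (.lc 4 1 (.lc 3 5 (.lc 4 1 (.lc 4 1 (.lc 4 1 (.lc 4 1 (.lc 4 1 (.lc 4 1 (.lc 4 1 (.lc 4 1 (.lc 5 1 (.lc 5 1 .stop))))))))))))))))))))))))))))))))))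
 (.lc 3 0 (.lc 3 11 (.node [128] 6 7 (.lc 2 1 (.node [107,122] 7 10 (.node [169] 6 11 (.node [186] 11 10 (.lc 2 1 (.node [169,188] 10 9 (.far [257,16,0,513,32,16,257,8224,0,32,8208,4096] 17 (.lc 2 8 (.lc 0 13 (.lc 2 8 (.lc 3 8 .stop)))))
 (.lc 2 7 (.lc 3 1 (.conf [169,202] (.lc 1 8 (.lc 1 8 (.lc 2 7 (.lc 3 1 (.lc 2 8 (.lc 2 8 (.lc 2 8 .stop))))))))))))
 (.node [186,97] 11 10 .stop
 (.node [186,97,155] 9 11 .stop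
 (.node [186,203,97] 11 10 (.node [169] 10 9 (.far [257,16,0,513,32,16,257,8224,0,32,8208,4096] 17 (.lc 2 8 (.lc 0 13 (.lc 2 8 (.lc 3 8 .stop)))))
 (.lc 2 7 (.conf [169,218] (.lc 1 8 (.lc 2 8 .stop)))))
 (.far [4112,0,4112,0,0,4112,1,256] 0 (.far [257,0,257,0,0,257,16,4096] 0 (.node [186,203,220,97] 11 10 (.far [257,256,4096,1,0,0,257,16,4096] 0 (.lc 2 7 (.lc 0 14 (.lc 1 8 (.lc 2 8 .stop)))))
 .stop)))))))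
 (.lc 2 9 (.lc 2 9 (.lc 0 12 (.lc 2 9 (.lc 3 9 .stop))))))
 (.lc 3 1 (.lc 2 5 (.lc 3 1 (.lc 3 1 (.conf [122,183] (.lc 3 1 (.lc 2 5 (.lc 3 1 (.lc 3 1 (.lc 3 1 (.lc 4 1 (.lc 3 5 (.lc 4 1 (.lc 4 1 (.lc 4 1 (.lc 4 1 (.lc 4 1 (.lc 5 1 .stop))))))))))))))))))))
 (.conf [139,178] (.lc 3 0 (.lc 3 11 (.lc 4 11 (.lc 4 12 .stop)))))))))
 .stop)))))))))))))))))))))))))))))))))))))))))))))))))))))))))))))))))))))))))))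

theorem t7 : kNode2 awTt FTt 5 4 (check tyTt awTt triet FTt [s8] c7) (fun _ _ _ => true) 0 s7 Pl.nil s7 =
    true := by
  decide +kernel

end Chk
end Pool.Agent.Lib.MP_ba95e8_co
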