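import Pool.Agent.Lib.MP_ba95e8_co.ChkTab
import Pool.Agent.Lib.MP_ba95e8_co.ChkStates

/-!
Deltahedral domes: part 8 of the case analysis.
-/

namespace Pool.Agent.Lib.MP_ba95e8_co
namespace Chk

/-- certificate number 8 -/
def c8 : Cert := (.node [96] 6 0 (.node [] 7 8 (.node [] 8 4 (.node [130] 8 2 (.far [4096,0,4096,4112,4096,0,0,0,4096,0,0,0,257] 4096 .stop)
 (.node [66,137] 0 8 (.far [16,257,16,0,0,4096,4096] 0 .stop)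
 (.conf [66,137,146] (.conf [128,112,1] (.far [16,0,0,0,0,16,0,0,0,16,4096] 0 (.node [66,148,169,66,138] 8 10 (.lc 2 9 .stop)
 (.far [257,16,0,0,4096,4096] 0 (.node [66,137,32] 8 9 .stop
 (.conf [128,112,1] (.conf [66,138,169] .stop))))))))))
 (.node [114] 7 2 (.far [4096,0,4112,4096,0,0,0,4096,0,0,0,257] 4096 .stop)
 (.lc 1 4 (.node [121] 7 9 (.node [] 8 4 (.node [130] 9 8 (.node [] 9 2 (.far [4096,0,0,4096,0,4112,4096,0,0,0,4096,0,0,0,257] 4096 .stop)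
 (.far [1,4112,0,1,0,0,256,256] 0 .stop))
 (.node [66] 9 4 (.node [146] 9 2 (.far [4096,0,0,4096,0,4112,4096,0,0,0,4096,0,0,0,257] 4096 .stop)
 (.conf [144,132,66] (.far [16,16,0,0,0,0,0,16,0,0,0,16,4096] 0 .stop)))
 (.node [66,138] 9 8 (.node [] 10 4 (.node [] 9 10 (.node [146] 9 2 (.far [4096,0,0,0,0,4096,0,4112,4096,0,0,0,4096,0,0,0,257] 4096 .stop)
 (.node [155,162] 10 2 (.node [] 9 11 .stop
 (.far [4112,1,4112,256,256] 0 .stop))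
 (.conf [162,178,32] (.far [1,4112,256,256,4096,0,4112,4096,0,0,0,4096,0,0,0,257] 4096 (.node [156,186,203,156,162] 11 10 (.far [16,16,257,4096,4096] 0 (.lc 3 13 .stop))
 (.far [257,0,257,0,16,4096] 0 (.far [1,0,0,0,4096,0,16,4096] 256 .stop)))))))
 (.node [171,178,66] 9 10 (.node [155,178] 9 11 .stop
 (.far [16,256,4096,4112,0,0,0,0,0,16,0,0,0,16,4096] 0 .stop))
 (.far [16,0,16,0,0,0,0,0,16,0,0,0,16,4096] 0 (.far [1,0,1,0,0,0,0,0,1,0,0,0,1,256] 0 (.node [172,203,66,178] 9 10 (.far [1,4096,256,257,0,0,0,0,0,1,0,0,0,1,256] 0 (.lc 1 11 .stop))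
 .stop)))))
 (.conf [146,164,132] (.conf [155,164,186] (.far [16,257,0,16,0,0,4096,4096] 0 (.far [1,4112,0,1,0,0,256,256] 0 (.conf [156,164,132] .stop))))))
 (.conf [66,132,146] (.conf [66,138,162] (.node [132,146,66,49] 9 2 (.far [4096,0,4096,0,4112,4096,0,0,0,4096,0,0,0,257] 4096 .stop)
 (.conf [132,154,164] (.conf [146,132,83,66] (.far [16,0,0,0,0,0,16,0,0,0,16,4096] 0 (.far [4112,0,1,0,0,256,256] 0 (.node [66,164,186,66,139,152] 9 8 (.far [1,4112,0,1,0,0,256,256] 0 (.lc 3 2 (.lc 3 12 (.lc 1 10 (.lc 3 12 (.lc 4 13 .stop))))))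
 (.far [257,0,16,0,0,4096,4096] 0 (.node [66,138,32] 8 10 (.far [257,257,0,16,0,0,4096,4096] 0 (.lc 2 2 (.node [155,186,132] 9 11 .stop
 (.lc 2 2 (.lc 3 2 .stop)))))
 (.node [66,132,146,32] 9 2 (.far [257,1,16,4096] 0 (.node [154] 0 9 .stop
 (.node [155,186,155,162] 9 11 .stop
 .stop)))
 (.far [1,0,0,0,0,0,1,0,0,0,1,256] 0 (.node [132,154,66] 10 4 (.far [1,1,0,0,0,0,0,1,0,0,0,1,256] 0 (.lc 3 11 (.node [32,178] 9 10 .stop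
 (.lc 3 11 (.lc 4 12 .stop)))))
 (.conf [66,132,154] (.conf [66,139,186] (.far [4096,0,1,0,0,256,257,0,0,0,1,256] 0 (.conf [132,164,66] (.conf [66,162,32] (.node [66,132,154,162,32] 9 10 .stop
 (.conf [132,154,162] (.node [66,132,155,186,32,162] 9 11 .stop
 .stop))))))))))))))))))))))))
 (.far [1,257,4112,4112,257,0,4096,4096,0,0,0,257] 4096 (.far [4112,4112,0,1,4112,0,256] 17 (.far [257,257,0,16,257,0,4096] 0 (.far [257,257,0,16,257,0,4096] 0 (.node [152,169,42,112,132] 4 2 (.far [1,16,4112,0,0,4096,4112,0,0,0,16,4096] 17 (.lc 3 2 (.lc 1 9 .stop)))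
 .stop))))))
 (.far [1,4112,4112,257,0,4096,4096,0,0,0,257] 4096 (.conf [132,146,121] (.conf [132,152,169] (.far [257,4112,4112,257,0,4096,4096,0,0,0,257] 4096 (.conf [112,132,152] (.far [4112,0,1,4112,0,256] 17 (.lc 2 4 (.node [122,169,122,132,152] 7 10 (.far [4112,4112,0,1,4112,0,256] 0 (.lc 2 9 (.far [4112,4112,0,1,4112,0,256] 17 (.lc 2 9 (.lc 2 9 (.lc 3 9 .stop))))))
 (.far [257,0,16,257,0,4096] 0 (.far [257,0,16,257,0,4096] 0 (.node [132,152,114] 7 2 (.far [257,257,0,16,257,0,4096] 0 .stop)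
 (.node [132,152,122] 8 4 (.node [66,148] 9 4 (.node [146] 7 10 (.far [257,0,0,257,0,16,257,0,4096] 0 (.lc 2 9 (.lc 2 9 .stop)))
 (.lc 3 4 (.conf [155,178] (.lc 3 4 (.lc 4 4 .stop)))))
 (.lc 2 2 (.lc 0 2 (.lc 0 11 (.lc 2 2 (.lc 3 2 .stop))))))
 (.far [1,16,4096] 256 (.node [112,132,9] 8 4 (.node [66,148] 9 4 (.node [] 0 9 (.far [1,4112,256,257] 0 .stop)
 (.lc 3 10 (.far [16,16,0,0,0,0,16,0,0,0,16,4096] 0 (.lc 3 10 (.lc 4 11 .stop)))))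
 (.lc 2 2 (.far [4112,4096,0,1,16,256,256] 0 (.far [4112,4096,0,1,16,256,256] 0 (.lc 2 2 (.lc 3 2 .stop))))))
 (.far [257,4112,4112,257,0,4096,4096,0,0,0,257] 4096 (.node [132,152,41,112,96] 8 4 (.far [257,256,0,16,1,4096,4096] 0 (.lc 0 10 .stop))
 (.conf [132,186,123] (.lc 3 4 (.conf [112,132,152] (.node [112,132,152,1] 8 4 (.far [4112,4096,0,1,16,256,256] 17 (.far [4112,4096,0,1,16,256,256] 17 .stop))
 (.far [257,16,4112,257,0,4096] 256 (.far [257,16,4112,257,0,4096] 256 (.conf [112,169,10] (.node [112,132,152,169,1,42] 8 4 (.node [148] 4 2 .stop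
 (.lc 0 11 .stop))
 .stop))))))))))))))))))))))))))))
 .stop)
 (.node [] 7 8 (.node [112] 7 0 (.node [] 8 4 (.node [66] 0 4 (.far [257,4096,4112,4096,4096,0,0,0,4096,0,0,0,257] 4096 .stop)
 (.node [130] 8 2 (.far [4096,0,4112,4096,4096,0,0,0,4096,0,0,0,257] 4096 .stop)
 (.node [66,137] 8 9 (.node [] 9 4 (.node [] 9 2 (.far [4096,0,4096,0,4112,4096,4096,0,0,0,4096,0,0,0,257] 4096 (.node [154] 0 9 .stop
 (.node [155,186,155,162] 9 11 .stop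
 .stop)))
 (.node [154,162,66] 9 10 .stop
 (.far [16,0,16,0,0,0,0,16,0,0,0,16,4096] 0 (.far [1,0,1,0,0,0,0,1,0,0,0,1,256] 0 (.node [155,186,66,162] 9 11 .stop
 .stop)))))
 (.far [1,257,4112,4112,4096,4096,4096,0,4096,0,0,0,257] 4096 (.far [4112,4112,0,1,0,256,256] 17 (.far [257,257,0,16,0,4096,4096] 0 (.far [257,257,0,16,0,4096,4096] 0 (.node [148,169,42,128] 4 2 .stop
 .stop))))))
 (.far [1,4112,4112,4096,4096,4096,0,4096,0,0,0,257] 4096 (.conf [66,137,146] (.far [257,4112,4112,4096,4096,4096,0,4096,0,0,0,257] 4096 (.conf [128,148,9] (.far [4112,0,1,0,256,256] 17 (.far [16,0,0,0,0,16,0,0,0,16,4096] 0 (.node [66,148,169,66,138] 8 10 (.far [4112,4112,0,1,0,256,256] 0 (.lc 2 9 (.far [4112,4112,0,1,0,256,256] 17 (.lc 2 9 (.lc 2 9 (.lc 3 9 .stop))))))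
 (.far [257,0,16,0,4096,4096] 0 (.node [66,137,32] 8 9 (.far [257,257,0,16,0,4096,4096] 0 (.lc 2 2 .stop))
 (.far [1,16,4096] 256 (.far [1,0,0,0,0,1,0,0,0,1,256] 0 (.conf [66,138,169] .stop)))))))))))))))
 .stop)
 (.node [] 1 8 (.node [132] 8 4 (.node [66] 4 2 (.far [4096,4096,1,4096,4096,0,0,0,4096,0,0,0,257] 4096 .stop)
 (.far [1,0,4112,4096,4096,4096,0,4096,0,0,0,257] 4096 (.far [4112,1,1,0,256,256] 17 (.far [4112,1,1,0,256,256] 0 (.far [257,16,16,0,4096,4096] 0 .stop)))))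
 (.conf [129,113,16] (.node [132,152,132] 8 4 (.far [257,16,16,0,4096,4096] 0 (.lc 2 2 (.lc 0 2 (.lc 0 10 (.lc 2 2 (.lc 3 2 .stop))))))
 .stop)))
 (.node [114] 7 2 .stop
 (.lc 1 4 (.node [121] 1 7 (.node [] 1 9 (.node [] 9 8 (.node [132] 8 4 (.node [66] 0 4 (.far [257,4096,4096,1,257,0,4096,0,0,0,4096,0,0,0,257] 4096 .stop)
 (.far [1,0,0,1,4112,4096,4096,4096,0,4096,0,0,0,257] 4096 (.far [4112,1,0,0,1,0,256,256] 17 (.far [257,16,0,0,16,0,4096,4096] 0 .stop))))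
 (.node [132,146] 2 8 (.node [] 9 2 (.far [4096,0,0,1,257,0,4096,0,0,0,4096,0,0,0,257] 4096 .stop)
 .stop)
 (.node [66,148] 9 4 (.far [4112,4112,1,256,256] 17 .stop)
 (.node [132,154] 8 4 (.node [66] 9 10 (.node [] 10 4 (.node [162] 10 2 (.far [4096,0,4096,0,0,1,257,0,4096,0,0,0,4096,0,0,0,257] 4096 .stop)
 (.far [257,4112,4096,4096,1,257,0,4096,0,0,0,4096,0,0,0,257] 4096 (.far [4112,1,256,256] 17 (.far [16,0,16,0,0,0,0,0,0,16,0,0,0,16,4096] 0 (.far [1,0,1,0,0,0,0,0,0,1,0,0,0,1,256] 0 .stop)))))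
 (.far [1,0,257,0,1,4096,4096,0,0,0,4096,0,0,0,257] 4096 (.node [164,186,144] 10 4 (.far [4112,4096,256,16,1,256,256] 0 .stop)
 (.far [4112,0,4112,1,256,256] 17 (.far [4112,0,4112,1,256,256] 0 (.far [257,0,257,16,4096,4096] 0 (.far [257,0,257,16,4096,4096] 0 (.node [164,186,43,144] 10 4 .stop
 (.node [164,186,203,144] 10 4 (.lc 0 2 .stop)
 .stop)))))))))
 (.conf [66,132,162] (.far [4112,1,0,0,1,0,256,256] 0 (.far [4112,1,0,0,1,0,256,256] 0 (.far [257,16,0,0,16,0,4096,4096] 0 (.conf [66,132,160] (.conf [66,132,171] .stop)))))))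
 (.node [132,144,16,66] 0 4 (.far [257,1,0,1,4096,4096,0,0,0,4096,0,0,0,257] 4096 .stop)
 (.node [132,146,66,49] 9 2 (.far [4096,0,1,257,0,4096,0,0,0,4096,0,0,0,257] 4096 .stop)
 (.conf [132,154,164] (.far [257,0,1,4096,4096,0,0,0,4096,0,0,0,257] 4096 (.conf [144,168,132] (.far [4112,1,256,256] 17 (.far [16,0,0,16,0,4096,4096] 0 (.far [4112,1,256,256] 0 (.node [132,168,186,132,155] 8 4 (.far [257,16,0,0,16,0,4096,4096] 0 (.lc 2 2 (.lc 0 2 (.lc 0 12 (.lc 2 2 (.lc 3 2 (.lc 3 2 .stop)))))))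
 (.node [66,132,146,32] 9 2 (.far [257,257,16,4096,4096] 0 .stop)
 (.node [132,144,66] 0 4 (.far [257,1,4096] 256 .stop)
 (.far [257,0,1,4096,4096,0,0,0,4096,0,0,0,257] 4096 (.far [1,0,0,1,0,256,256] 0 (.node [144,132] 10 8 (.far [1,1,0,0,1,0,256,256] 0 (.lc 3 2 (.node [66,132,32] 10 2 (.lc 2 0 .stop)
 (.lc 3 2 (.lc 3 11 (.lc 4 11 .stop))))))
 (.far [256,16,4096,4112,0,4096,4096] 0 (.conf [132,154,162] (.conf [66,132,144] (.conf [144,168,132] (.conf [144,168,132] (.far [4096,1,256,257,0,256,256] 17 (.conf [132,164,66] (.far [257,4112,4096,4096] 256 (.far [257,4112,4096,4096] 256 .stop)))))))))))))))))))))))))))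
 (.node [152,169,16] 9 8 (.node [132,168] 10 8 (.node [66] 10 4 (.node [162] 0 10 (.far [257,0,0,0,1,257,0,4096,0,0,0,4096,0,0,0,257] 4096 .stop)
 (.lc 3 0 (.far [4112,4112,16,1,256,256] 17 (.far [16,4096,0,0,0,0,0,0,16,0,0,0,16,4096] 0 (.lc 3 0 .stop)))))
 (.lc 3 2 (.far [16,16,0,0,16,0,4096,4096] 0 (.lc 3 2 (.lc 3 11 (.lc 4 11 .stop))))))
 (.lc 2 4 (.node [171,184,132] 8 4 (.far [257,16,0,0,16,0,4096,4096] 0 (.lc 2 2 (.lc 0 2 (.lc 0 12 (.lc 2 2 (.lc 3 2 .stop))))))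
 (.lc 3 4 .stop))))
 (.node [169,152] 9 8 (.node [132,146,169] 9 2 .stop
 (.node [66,148,169] 9 4 (.lc 0 2 .stop)
 (.far [257,16,4096,4096] 0 (.node [132,155,169] 10 9 (.far [16,257,16,4096,4096] 0 (.lc 3 2 (.lc 3 12 (.lc 1 8 (.lc 3 12 (.lc 4 13 .stop))))))
 (.node [132,146,169,66,49] 9 2 .stop
 (.conf [132,145] (.conf [155,180] (.conf [132,171,184] (.far [16,0,0,16,0,4096,4096] 0 (.conf [132,171,184] (.conf [156,203] (.node [66,132,146,169,32] 9 2 (.far [257,257,16,4096,4096] 0 (.lc 0 11 .stop))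
 (.far [256,16,4096,4112,0,4096,4096] 0 (.conf [145,162] (.conf [145,164] (.conf [145,171] (.conf [132,145] (.conf [155,178] (.conf [66,132,145] (.conf [145,172] (.conf [145,162] (.conf [145,171] (.conf [145,162] (.far [256,16,4096,4112,0,4096,4096] 0 (.conf [145,171] .stop)))))))))))))))))))))))))
 (.far [257,257,0,4096,0,0,0,4096,0,0,0,257] 16 (.node [152,169,186,16] 9 8 (.far [257,256,1,4096,4096,0,0,0,4096,0,0,0,257] 16 (.lc 2 4 (.lc 0 12 (.lc 3 4 .stop))))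
 .stop)))))
 (.node [152,113,132] 9 8 (.node [132,146] 9 2 (.far [4096,0,257,0,4096,0,0,0,4096,0,0,0,257] 4096 .stop)
 (.lc 1 4 (.node [132,154] 8 4 (.node [66] 9 10 (.node [] 10 4 (.node [162] 10 2 (.far [4096,0,4096,0,0,257,0,4096,0,0,0,4096,0,0,0,257] 4096 .stop)
 (.far [257,4112,4096,4096,257,0,4096,0,0,0,4096,0,0,0,257] 4096 (.conf [1,160] (.far [16,0,16,0,0,0,0,0,16,0,0,0,16,4096] 0 (.conf [1,160] .stop)))))
 (.lc 2 4 (.lc 2 4 (.far [4112,0,4112,257,16,1,4112,0,256] 17 (.far [4112,0,4112,257,16,1,4112,0,256] 0 (.lc 2 4 (.lc 2 4 (.lc 3 4 (.lc 3 4 .stop)))))))))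
 (.conf [66,132,162] (.far [4112,1,0,1,0,256,256] 0 (.far [4112,1,0,1,0,256,256] 0 (.far [257,16,0,16,0,4096,4096] 0 (.conf [9,160] (.conf [66,132,171] .stop)))))))
 (.lc 2 4 (.lc 2 4 (.conf [1,144] (.conf [144,168,132] (.lc 2 4 (.conf [155,186] (.lc 2 4 (.lc 2 4 (.far [257,0,1,4112,257,0,4096,4096,0,0,0,257] 4096 (.lc 2 4 (.node [144,132] 10 8 (.far [1,1,0,1,0,256,256] 0 (.lc 3 2 (.node [66,132,32] 10 2 (.lc 2 0 .stop)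
 (.lc 3 2 (.lc 3 11 (.lc 4 11 .stop))))))
 (.lc 3 4 (.lc 3 4 (.conf [144,168,132] (.conf [144,168,132] (.lc 3 4 (.lc 3 4 (.lc 3 4 (.lc 3 4 .stop))))))))))))))))))))))
 (.far [16,257,16,257,0,4096] 0 (.far [16,257,16,257,0,4096] 0 (.far [1,4112,1,4112,0,256] 4097 (.node [152,169,113,132] 9 8 (.node [132,146,169] 9 2 .stop
 (.lc 1 4 (.node [132,155,169] 10 9 (.far [16,257,4112,1,16,257,0,4096] 0 (.lc 3 2 (.lc 3 12 (.lc 1 8 (.lc 3 12 (.lc 4 13 .stop))))))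
 (.lc 2 4 (.lc 2 4 (.conf [151,171] (.lc 2 4 (.conf [156,203] (.lc 2 4 (.lc 2 4 (.node [151,162,132] 2 8 (.far [1,1,0,1,0,256,256] 0 .stop)
 (.lc 2 4 (.node [151,171,132] 11 8 (.far [1,1,0,1,0,256,256] 0 (.lc 3 2 (.far [16,16,4112,16,16,4097,8208,4096,0,0,16,4096] 0 (.lc 3 2 (.lc 3 12 (.lc 4 12 .stop))))))
 (.lc 3 4 (.lc 3 4 (.conf [151,184,132] (.lc 3 4 (.lc 3 4 (.lc 3 4 (.lc 3 4 (.lc 4 4 .stop)))))))))))))))))))))
 .stop))))))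
 (.node [132,113,97,49] 8 4 (.node [66] 4 2 (.far [4096,4096,4096,4096,0,0,0,4096,0,0,0,257] 4096 .stop)
 (.lc 2 2 (.far [4112,4096,1,16,256,256] 17 (.far [4112,4096,1,16,256,256] 0 (.lc 2 2 .stop)))))
 (.conf [132,144,121] (.far [1,4112,257,0,4096,4096,0,0,0,257] 4096 (.conf [132,146,121] (.node [132,152,112] 7 0 (.node [] 8 4 (.node [66,148] 9 4 (.node [] 0 9 (.far [256,257,4096,4112,4096,4096,0,0,0,4096,0,0,0,257] 4096 .stop)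
 (.lc 3 10 (.far [16,16,0,0,0,0,16,0,0,0,16,4096] 0 (.lc 3 10 (.lc 4 11 .stop)))))
 (.lc 2 2 (.far [4112,4112,4096,1,16,256,256] 0 (.far [4112,4112,4096,1,16,256,256] 0 (.lc 2 2 (.lc 3 2 .stop))))))
 .stop)
 (.conf [132,152,169] (.conf [113,97,16] (.conf [113,132,152] (.far [4112,1,4112,0,256] 4097 (.node [121,144,121,132] 7 9 (.far [4112,4112,1,4112,0,256] 0 (.lc 2 0 .stop))
 (.node [112] 1 7 (.far [1,4112,1,4112,0,256] 17 .stop)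
 (.lc 2 4 (.node [112,152,132] 7 0 (.far [4112,4112,1,4112,0,256] 0 .stop)
 (.node [122,169,122,132,152] 7 10 (.far [4112,4112,1,4112,0,256] 0 (.lc 2 9 (.far [4112,4112,1,4112,0,256] 4097 (.lc 2 9 (.lc 2 9 (.lc 3 9 .stop))))))
 (.far [257,16,257,0,4096] 0 (.node [132,121] 0 8 (.lc 1 2 .stop)
 (.far [1,4112,257,0,4096,4096,0,0,0,257] 4096 (.node [132,152,112] 7 0 (.far [257,257,16,257,0,4096] 0 .stop)
 (.far [257,16,257,0,4096] 0 (.node [132,152,114] 7 2 .stop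
 (.node [132,152,122] 8 4 (.node [66,148] 9 4 (.node [146] 7 10 (.far [257,0,0,257,16,257,0,4096] 0 (.lc 2 9 (.node [] 10 9 (.node [162] 10 2 (.far [4096,0,4096,0,0,0,4096,0,0,0,4096,0,0,0,257] 4096 .stop)
 (.lc 3 0 (.far [1,0,4112,16,1,0,256,256] 0 .stop)))
 (.lc 2 9 (.lc 2 9 (.lc 3 9 .stop))))))
 (.lc 3 4 (.far [16,16,0,0,0,16,0,0,0,16,4096] 17 (.conf [155,178] (.lc 3 4 (.lc 4 4 (.lc 4 4 .stop)))))))
 (.lc 2 2 (.lc 0 0 (.lc 0 2 (.lc 0 11 (.lc 2 2 (.lc 3 2 (.lc 3 2 .stop))))))))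
 (.conf [113,97,16] (.conf [113,97,25] (.conf [113,97,16] (.conf [132,169,122] (.conf [132,144,121] (.node [132,152,113,97,49] 8 4 (.far [257,256,16,1,4096,4096] 0 (.lc 2 2 (.lc 0 2 (.lc 0 10 (.lc 2 2 (.lc 3 2 .stop))))))
 (.conf [132,160,122] (.node [132,152,41,112] 8 4 (.node [148] 4 2 .stop
 (.lc 0 10 .stop))
 (.node [132,152,169,112] 7 0 (.node [] 8 4 (.far [257,257,256,16,1,4096,4096] 0 (.lc 2 2 (.lc 0 2 (.lc 0 11 (.lc 2 2 (.lc 3 2 .stop))))))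
 .stop)
 (.conf [132,186,123] (.conf [113,132,152] (.conf [113,97,16] (.conf [113,97,16] (.conf [113,97,16] (.conf [113,169,26] (.conf [113,97,16] .stop))))))))))))))))))))))))))))))))))))))))))
 (.node [98] 6 2 .stop
 (.lc 1 5 (.node [105] 6 9 (.node [] 7 8 (.node [112] 7 0 (.node [] 0 8 (.far [257,4112,4096,4112,4096,0,0,0,4096,0,0,0,257] 4096 (.node [132,152] 9 8 .stop
 (.far [256,4112,4112,4112,4096,4096,4096,0,4096,0,0,0,257] 4096 (.far [16,0,16,0,0,4096,4096] 0 (.node [132,168,42,132] 8 4 (.far [257,16,0,16,0,0,4096,4096] 0 (.lc 0 11 .stop))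
 (.far [257,4112,4096,4112,4096,0,0,0,4096,0,0,0,257] 4096 .stop))))))
 (.far [4112,4112,0,1,4112,0,256] 0 (.lc 0 1 .stop)))
 (.node [114] 7 2 (.far [4112,4112,0,1,4112,0,256] 0 .stop)
 (.lc 1 4 (.node [] 9 8 (.node [132,144] 0 8 (.node [66] 0 4 (.far [257,257,1,4096,4112,4096,0,0,0,4096,0,0,0,257] 4096 .stop)
 (.far [256,0,4112,4112,4096,4096,4096,0,4096,0,0,0,257] 4096 (.far [16,16,16,0,0,4096,4096] 0 (.far [1,1,1,0,0,256,256] 17 .stop))))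
 (.node [132] 1 8 .stop
 (.node [132,146] 2 8 (.node [] 9 2 .stop
 .stop)
 (.node [66,148] 9 4 .stop
 (.node [132,154] 8 4 (.node [66] 9 10 (.node [] 10 4 (.node [162] 1 10 .stop
 (.far [16,0,16,0,0,0,0,0,16,0,0,0,16,4096] 17 (.far [16,0,16,0,0,0,0,0,16,0,0,0,16,4096] 0 .stop)))
 (.node [164,145] 10 4 (.far [4112,4096,256,16,256,1,256] 17 .stop)
 (.far [4112,0,4112,256,1,256] 4097 (.far [257,0,257,4096,16,4096] 0 (.far [257,0,257,4096,16,4096] 0 (.node [164,186,145] 10 4 (.lc 0 2 .stop)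
 .stop))))))
 (.conf [66,132,162] (.far [4112,1,1,0,0,256,256] 0 (.far [4112,1,1,0,0,256,256] 0 (.far [4112,1,1,0,0,256,256] 0 (.far [257,16,16,0,0,4096,4096] 0 (.conf [66,132,160] (.conf [66,132,171] .stop))))))))
 (.conf [132,144,117] (.conf [132,146,117] (.conf [132,154,164] (.conf [145,117,132] (.conf [145,168,26] (.far [4112,256,1,256] 4097 (.node [132,154,160,154] 0 8 (.far [16,16,16,0,0,4096,4096] 0 .stop)
 (.node [132,144] 2 8 (.far [16,16,16,0,0,4096,4096] 17 .stop)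
 (.far [16,16,0,0,4096,4096] 0 (.node [132,144,168,132] 9 0 (.far [4112,4112,256,1,256] 0 .stop)
 (.node [132,168,186,132,155] 8 4 (.far [257,16,16,0,0,4096,4096] 0 (.lc 2 2 (.lc 0 0 (.lc 0 2 (.lc 0 12 (.lc 2 2 (.lc 3 2 (.lc 3 2 .stop))))))))
 (.conf [132,146,117] (.conf [132,145,117] (.conf [145,117,132] (.conf [132,144,117] (.conf [132,154,162] (.conf [145,168,132] (.conf [132,145,117] .stop)))))))))))))))))))))))
 (.node [122] 9 7 (.node [] 8 4 (.node [66,128] 0 4 (.far [257,1,1,4112,4112,4096,4096,4096,0,4096,0,0,0,257] 4096 .stop)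
 (.node [130] 10 8 (.node [] 10 2 (.far [1,257,0,1,4096,4112,4096,0,0,0,4096,0,0,0,257] 4096 (.far [4096,0,0,257,0,4112,4096,0,0,0,4096,0,0,0,257] 4096 (.node [171,176,171] 9 10 (.far [1,4112,4112,0,256,256] 0 (.lc 3 1 (.lc 1 0 .stop)))
 .stop)))
 (.far [257,0,1,4096,4112,4096,0,0,0,4096,0,0,0,257] 4096 (.far [16,257,0,16,0,0,4096,4096] 17 (.far [1,4112,0,1,0,0,256,256] 0 (.far [1,4112,0,1,0,0,256,256] 0 (.node [171,176,130] 9 10 (.far [1,4096,4112,256,257,0,0,256,256] 0 (.lc 3 1 (.lc 1 0 .stop)))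
 .stop))))))
 (.node [66] 10 4 (.node [162] 9 10 (.node [146] 9 2 .stop
 (.far [16,257,4096,4096,4096] 17 .stop))
 (.conf [164,132,66] (.far [16,16,0,0,0,0,0,16,0,0,0,16,4096] 17 (.far [16,16,0,0,0,0,0,16,0,0,0,16,4096] 0 .stop))))
 (.node [66,139] 10 8 (.node [] 11 4 (.node [] 10 11 (.node [160,178] 10 0 (.node [144] 9 0 (.node [] 11 2 (.far [4096,4112,16,4096,0,0,0,0,0,4096,0,0,0,0,4096,0,0,0,257] 4096 .stop)
 .stop)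
 (.node [145,160,16] 11 2 (.far [4096,16,4096,0,0,0,0,0,4096,0,0,0,0,4096,0,0,0,257] 4096 .stop)
 (.far [4112,4112,0,4112,0,256,256] 0 (.far [257,257,0,257,0,4096,4096] 4097 .stop))))
 (.node [162] 10 2 .stop
 (.node [155,178] 9 11 .stop
 (.node [172,178] 9 10 (.node [156] 12 11 (.node [] 9 12 (.node [194] 12 2 .stop
 (.far [4112,0,4112,0,0,0,0,4112,0,1,256] 4097 .stop))
 (.far [257,1,4096,0,0,0,257,0,4112,4096,0,0,0,4096,0,0,0,257] 4096 (.far [16,0,16,257,4096,4096] 17 (.far [1,0,1,4112,256,256] 0 (.far [1,0,1,4112,256,256] 0 (.node [205,208,178] 9 12 .stop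
 .stop))))))
 (.conf [145,167,203] (.far [16,257,0,257,0,4096,4096] 0 (.far [16,257,0,257,0,4096,4096] 0 (.conf [145,167,203] .stop)))))
 (.far [1,0,257,0,1,4096,4112,4096,0,0,0,4096,0,0,0,257] 4096 (.conf [178,194,32] (.node [167,178,144] 9 0 (.node [] 0 11 (.far [256,4112,4112,257,4096,4096,0,0,4096,0,0,0,0,4096,0,0,0,257] 4096 .stop)
 .stop)
 (.conf [167,178,203] (.node [172,178,192,172] 0 11 (.far [16,16,257,4096,4096] 0 .stop)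
 (.far [16,257,4096,4096] 17 (.node [160,178,203,178] 10 0 (.far [4112,4112,0,4112,0,256,256] 0 .stop)
 (.node [173,203,220,173,178] 9 10 (.far [1,4112,0,4112,0,256,256] 0 (.lc 3 1 (.lc 1 12 (.lc 1 12 (.lc 4 1 .stop)))))
 (.far [1,0,257,0,1,4096,4112,4096,0,0,0,4096,0,0,0,257] 4096 (.node [167,178,32,146] 9 2 .stop
 (.node [145,167,178,27] 1 11 .stop
 (.conf [178,192,172] (.far [4112,0,4112,0,16,256,1,256] 4097 (.far [256,257,1,4096,4096,4096] 17 .stop))))))))))))))))))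
 (.far [257,1,4096,1,4096,4112,4096,0,0,0,4096,0,0,0,257] 4096 (.node [188,194,66] 10 11 (.node [172,194] 10 12 (.node [156] 12 2 (.far [1,4112,4112,257,4096,4096,257,0,4112,4096,0,0,0,4096,0,0,0,257] 4096 (.node [205,208,205] 9 12 .stop
 .stop))
 (.lc 2 2 (.lc 2 2 (.lc 2 2 (.lc 3 2 .stop)))))
 (.lc 3 7 (.far [16,256,4096,4112,0,0,0,0,0,16,0,0,0,16,4096] 0 (.far [16,256,4096,4112,0,0,0,0,0,16,0,0,0,16,4096] 0 .stop))))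
 (.far [16,0,16,0,0,0,0,0,16,0,0,0,16,4096] 17 (.far [16,0,16,0,0,0,0,0,16,0,0,0,16,4096] 0 (.far [1,0,1,0,0,0,0,0,1,0,0,0,1,256] 0 (.far [1,0,1,0,0,0,0,0,1,0,0,0,1,256] 0 (.node [188,192,66] 10 11 (.far [1,4096,256,257,0,0,0,0,0,1,0,0,0,1,256] 0 (.lc 3 7 (.lc 1 0 .stop)))
 (.node [189,220,66,194] 10 11 (.far [1,4096,256,257,0,0,0,0,0,1,0,0,0,1,256] 0 (.lc 3 7 (.lc 1 12 (.lc 1 12 .stop))))
 .stop)))))))))
 (.conf [160,180,132] (.conf [162,180,132] (.conf [172,180,203] (.far [16,257,0,16,0,0,4096,4096] 0 (.far [16,257,0,16,0,0,4096,4096] 0 (.far [1,4112,0,1,0,0,256,256] 0 (.far [1,4112,0,1,0,0,256,256] 0 (.conf [172,180,132] (.conf [160,180,132] (.conf [160,180,132] (.conf [173,180,132] .stop))))))))))))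
 (.far [1,1,4112,4112,4096,4096,4096,0,4096,0,0,0,257] 4096 (.conf [66,132,162] (.conf [66,139,178] (.node [132,160,66] 0 4 (.far [257,4096,1,4096,4112,4096,0,0,0,4096,0,0,0,257] 4096 .stop)
 (.node [132,162,66,49] 10 2 (.far [1,257,1,4112,4112,4096,4096,4096,0,4096,0,0,0,257] 4096 (.lc 3 2 (.node [171,176,171] 9 10 (.far [1,4112,4112,256,257,0,0,256,256] 0 (.lc 3 1 (.lc 1 0 .stop)))
 .stop)))
 (.conf [132,171,180] (.far [4112,0,1,0,0,256,256] 0 (.node [66,139,176,139,168] 0 4 (.far [16,16,0,0,0,0,0,16,0,0,0,16,4096] 0 .stop)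
 (.far [16,0,0,0,0,0,16,0,0,0,16,4096] 17 (.conf [162,132,83,66] (.far [16,0,0,0,0,0,16,0,0,0,16,4096] 0 (.node [66,128,180,66] 8 0 .stop
 (.far [4112,0,1,0,0,256,256] 0 (.node [66,180,203,66,140,168] 10 8 (.far [1,4112,0,1,0,0,256,256] 0 (.lc 3 0 (.lc 3 2 (.lc 3 13 (.lc 1 11 (.lc 1 11 (.lc 3 0 (.lc 3 13 (.lc 4 13 (.lc 4 0 (.lc 4 0 (.lc 4 14 .stop))))))))))))
 (.far [1,1,4112,4112,4096,4096,4096,0,4096,0,0,0,257] 4096 (.far [257,0,16,0,0,4096,4096] 0 (.node [66,139,32] 8 11 (.far [257,257,0,16,0,0,4096,4096] 0 (.lc 2 2 (.lc 2 2 (.node [160,132] 10 0 (.lc 0 1 .stop)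
 (.node [172,203,132] 9 10 (.node [156,203] 9 12 (.node [203] 1 12 (.far [16,16,4112,4096,0,4096,4096] 0 .stop)
 (.far [4112,4112,0,0,4112,0,1,256] 4097 (.lc 2 9 (.lc 3 9 .stop))))
 (.lc 3 1 (.lc 1 11 (.lc 1 11 (.lc 4 1 .stop)))))
 (.lc 2 2 (.lc 2 2 (.lc 3 2 (.lc 3 2 (.lc 3 2 .stop))))))))))
 (.node [66,132,162,32] 10 2 (.far [1,1,1,4096,4112,4096,0,0,0,4096,0,0,0,257] 4096 (.far [257,1,4096,4096] 0 (.node [171] 9 10 (.far [16,257,1,4096,4096] 0 (.conf [145,162,178] (.far [16,257,1,4096,4096] 0 (.far [16,257,1,4096,4096] 0 (.conf [145,162,178] .stop)))))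
 (.node [171,176,171] 9 10 (.far [1,4096,0,257,0,4112,4096,0,0,0,4096,0,0,0,257] 4096 (.lc 3 1 (.lc 1 0 .stop)))
 (.lc 3 2 (.lc 3 2 (.node [171,176,171] 9 10 (.far [1,4096,0,257,0,4112,4096,0,0,0,4096,0,0,0,257] 4096 (.lc 3 1 (.lc 1 0 .stop)))
 (.node [172,203,172,178] 9 10 (.node [156,203] 9 12 (.node [203,178] 1 12 (.lc 1 2 .stop)
 (.far [4112,4112,0,0,4112,0,1,256] 4097 (.far [257,257,0,0,257,0,16,4096] 0 (.far [256,16,257,1,4097,8208,16,4096,4096,4096] 0 .stop))))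
 (.lc 3 1 (.lc 1 11 (.lc 1 11 (.lc 4 1 .stop)))))
 (.far [257,1,4096,4096] 17 (.node [171] 9 10 (.far [16,257,1,4096,4096] 17 (.conf [145,162,176] (.far [16,257,1,4096,4096] 17 .stop)))
 (.lc 3 2 (.node [172,203,172,176] 9 10 (.node [156,203] 9 12 (.node [203,176] 1 12 .stop
 (.far [257,257,0,0,257,0,16,4096] 0 .stop))
 (.lc 3 1 (.lc 1 11 .stop)))
 (.lc 4 2 .stop)))))))))))))
 (.node [132,160,66] 0 4 (.far [1,1,0,0,0,0,0,1,0,0,0,1,256] 0 .stop)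
 (.far [1,0,0,0,0,0,1,0,0,0,1,256] 0 (.node [132,171,66] 9 10 (.node [155,180] 11 4 (.far [1,0,1,0,0,0,0,0,1,0,0,0,1,256] 0 (.lc 3 0 (.lc 3 12 (.far [1,1,4096,258,4096,8224,8192,0,0,0,8192,0,0,16,513] 4096 (.node [32,194] 9 11 (.node [188,194] 1 11 (.lc 1 2 .stop)
 (.far [4112,0,4112,0,4112,0,1,256] 4097 (.lc 2 4 (.lc 3 4 .stop))))
 (.lc 3 0 (.lc 3 12 (.lc 4 12 (.lc 4 13 .stop)))))))))
 (.lc 3 1 (.far [16,257,4096,4112,0,0,4096,4096] 0 (.far [16,257,4096,4112,0,0,4096,4096] 0 (.lc 4 1 .stop)))))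
 (.conf [66,132,160] (.conf [66,139,176] (.conf [66,132,171] (.conf [66,140,203] (.node [132,171,176,66] 0 4 (.far [1,4096,0,1,0,0,256,257,0,0,0,1,256] 0 .stop)
 (.far [4096,0,1,0,0,256,257,0,0,0,1,256] 0 (.far [4096,0,1,0,0,256,257,0,0,0,1,256] 0 (.conf [132,180,66] (.conf [132,180,66] (.far [4096,0,1,0,0,256,257,0,0,0,1,256] 0 (.conf [66,178,32] (.far [1,1,4096,4112,4096,0,0,0,4096,0,0,0,257] 4096 (.node [66,132,171,178,32] 9 10 (.far [16,257,4096,4112,0,0,4096,4096] 0 (.lc 3 1 (.far [16,257,4096,4112,0,0,4096,4096] 0 (.far [16,257,4096,4112,0,0,4096,4096] 0 (.lc 4 1 .stop)))))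
 (.far [256,0,16,0,0,4096,4112,0,0,0,16,4096] 17 (.conf [132,171,178] (.node [66,132,171,176,32] 9 10 (.far [1,4096,258,4096,8224,8192,0,0,0,8192,0,0,16,513] 4096 (.lc 3 1 (.lc 1 0 .stop)))
 (.node [66,132,172,203,32,178] 9 10 (.node [156,203] 9 12 (.node [203] 1 12 (.lc 1 2 .stop)
 (.far [4112,4112,0,4112,0,1,256] 4097 (.lc 1 2 (.lc 2 2 .stop))))
 (.lc 3 1 (.lc 1 11 (.lc 1 11 (.lc 4 1 .stop)))))
 .stop))))))))))))))))))))))))))))))))))))))))))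
 (.conf [144,168,117] (.conf [146,168,117] (.conf [155,168,186] (.far [16,257,0,16,257,0,4096] 0 (.far [16,257,0,16,257,0,4096] 0 (.far [1,4112,0,1,4112,0,256] 0 (.far [1,4112,0,1,4112,0,256] 0 (.conf [155,168,117] (.conf [144,168,117] (.conf [144,168,117] (.conf [156,168,117] .stop))))))))))))
 (.conf [132,144,117] (.conf [132,160,122] (.far [1,4112,4112,257,0,4096,4096,0,0,0,257] 4096 (.conf [132,146,117] (.conf [132,162,122] (.node [132,168,112] 7 0 .stop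
 (.conf [132,154,168] (.conf [132,168,186] (.node [117,132,144] 0 8 (.far [257,4096,4112,4096,0,0,0,4096,0,0,0,257] 4096 (.lc 2 0 (.far [16,256,0,16,1,4096,4096] 0 (.node [132,168,42,132] 8 4 (.far [257,16,256,0,16,1,4096,4096] 0 (.lc 0 11 .stop))
 (.lc 2 0 .stop)))))
 (.conf [117,132,168] (.far [4112,0,1,4112,0,256] 0 (.node [122,160,122,132,151] 9 7 (.far [1,4112,0,1,4112,0,256] 0 (.lc 3 2 (.lc 3 11 (.lc 1 0 (.lc 3 11 (.lc 4 12 .stop))))))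
 (.node [112] 9 7 (.far [1,4112,0,1,4112,0,256] 17 (.lc 3 1 (.far [1,4112,0,1,4112,0,256] 17 .stop)))
 (.lc 2 4 (.node [112,168,132] 7 0 .stop
 (.far [4112,0,1,4112,0,256] 0 (.node [123,186,123,132,168,151] 9 7 (.far [1,4112,0,1,4112,0,256] 0 (.lc 3 0 (.lc 3 2 (.lc 3 12 (.lc 1 10 (.lc 1 10 (.lc 3 0 (.lc 3 12 (.lc 4 12 (.lc 4 0 (.lc 4 0 (.lc 4 13 .stop))))))))))))
 (.node [132,113] 7 1 (.lc 0 1 .stop)
 (.far [257,0,16,257,0,4096] 0 (.node [132,122] 0 8 (.lc 1 2 .stop)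
 (.far [1,4112,4112,257,0,4096,4096,0,0,0,257] 4096 (.node [132,168,112] 7 0 (.far [257,257,0,16,257,0,4096] 0 (.node [155,176,112] 8 4 (.node [66,164] 0 10 (.far [257,0,0,1,4112,4112,257,0,4096,4096,0,0,0,257] 4096 (.node [164] 10 4 .stop
 (.lc 2 0 (.conf [164,202] (.lc 0 12 .stop)))))
 (.lc 2 2 (.lc 0 2 (.lc 0 12 (.lc 2 2 (.lc 3 2 .stop))))))
 (.lc 0 1 .stop)))
 (.node [132,168,114] 7 2 (.far [4096,0,4112,4096,0,0,0,4096,0,0,0,257] 4096 .stop)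
 (.far [257,0,16,257,0,4096] 0 (.node [132,168,123] 8 4 (.node [66,164] 10 4 (.node [162] 7 11 (.far [257,0,0,257,0,16,257,0,4096] 0 (.lc 2 10 (.lc 2 10 (.node [144,117] 9 0 (.node [] 11 10 (.node [178] 11 2 (.far [258,513,4112,16,257,4096,4096,4096,0,0,0,0,4096,0,0,0,257] 4096 .stop)
 (.far [1,0,0,4112,16,1,0,0,256,256] 0 .stop))
 .stop)
 (.node [156,203,117] 11 10 (.node [178] 9 12 (.node [203] 11 2 (.far [2,4112,513,4112,257,4096,4096,8208,4096,0,0,0,8192,0,0,0,514] 8192 (.lc 3 2 (.conf [189,208] .stop)))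
 (.lc 2 11 (.far [4112,16,4112,257,4096,4128,1,258,8224,0,512] 4097 (.lc 2 11 (.lc 2 11 (.lc 3 11 .stop))))))
 (.lc 3 0 (.far [16,0,257,1,16,0,0,4096,4096] 17 (.lc 3 0 (.lc 3 13 (.lc 4 13 .stop))))))
 (.lc 2 10 (.lc 2 10 (.lc 3 10 (.lc 3 10 (.lc 3 10 .stop))))))))))
 (.lc 3 4 (.far [16,16,0,0,0,0,16,0,0,0,16,4096] 17 (.conf [172,194] (.lc 3 4 (.lc 4 4 (.lc 4 4 .stop)))))))
 (.lc 2 2 (.lc 0 0 (.lc 0 2 (.lc 0 12 (.lc 2 2 (.lc 3 2 (.lc 3 2 .stop))))))))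
 (.node [117,132,144] 0 8 (.node [66] 0 4 (.far [257,257,4096,4112,4096,0,0,0,4096,0,0,0,257] 4096 .stop)
 (.lc 1 2 (.lc 1 2 (.far [1,4096,0,1,16,256,256] 17 .stop))))
 (.lc 0 1 (.node [117,132,146] 2 8 (.conf [32,66] .stop)
 (.node [117,132,154] 8 4 (.node [66,164] 10 4 (.node [] 9 10 (.node [144,162] 9 0 (.far [257,257,0,0,1,16,4096] 0 .stop)
 (.far [257,0,0,1,16,4096] 0 (.far [1,4112,256,257] 0 (.node [155,162] 10 2 (.far [4112,1,4112,256,257] 0 (.far [4096,1,0,0,1,4112,4096,0,0,0,4096,0,0,0,257] 4096 (.far [4112,1,4112,256,257] 0 (.far [4112,1,4112,256,257] 0 (.far [4112,1,4112,16,1,4112,4096,256,256,0,4096,0,0,0,257] 4096 (.far [4112,1,4112,16,1,4112,4096,256,256,0,4096,0,0,0,257] 4096 .stop))))))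
 (.lc 2 2 (.lc 2 2 (.lc 3 1 (.lc 3 1 (.node [145,162,16] 10 2 (.far [4096,4096,0,0,0,4096,0,0,0,0,4096,0,0,0,257] 4096 .stop)
 (.node [155,162,176,155] 0 10 (.far [256,0,257,4096,4096,4112,4096,0,0,0,4096,0,0,0,257] 4096 .stop)
 (.far [1,4112,16,1,4112,4096,256,256,0,4096,0,0,0,257] 4096 (.node [144,162,186,162] 9 0 (.node [] 11 10 (.node [178] 11 2 .stop
 (.lc 3 12 .stop))
 .stop)
 (.node [156,186,203,156,162] 11 10 (.node [178] 9 12 (.node [203] 11 2 (.far [1,4112,257,4096,0,0,0,4096,0,0,0,0,4096,0,0,0,257] 4096 (.conf [178,192] (.conf [189,208] .stop)))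
 (.lc 2 11 (.far [4112,1,4096,4112,256,256,1,256] 4097 (.lc 2 11 (.lc 2 11 (.lc 3 11 .stop))))))
 (.lc 3 0 (.node [176] 9 12 (.far [257,16,256,257,4096,4096,16,4096] 17 (.lc 2 11 (.lc 2 11 .stop)))
 (.lc 3 0 (.lc 3 13 (.lc 4 13 .stop))))))
 (.lc 2 2 (.lc 3 1 (.lc 3 2 (.lc 4 1 .stop)))))))))))))))))
 (.lc 3 0 (.lc 3 11 (.far [16,16,0,0,0,0,16,0,0,0,16,4096] 17 (.far [16,16,0,0,0,0,16,0,0,0,16,4096] 0 (.lc 3 0 (.lc 3 11 (.lc 4 11 (.lc 4 12 .stop)))))))))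
 (.lc 2 2 (.far [4112,4096,0,1,16,256,256] 0 (.far [4112,4096,0,1,16,256,256] 0 (.far [4112,4096,0,1,16,256,256] 0 (.lc 2 2 (.lc 3 2 (.lc 3 2 .stop))))))))
 (.node [117,132,144] 9 0 (.node [] 0 8 (.far [257,16,4096] 256 (.far [1,0,1,0,0,256,256] 0 (.node [132] 8 4 (.far [4112,1,0,1,0,0,256,256] 0 (.conf [66,128,162] (.far [4112,1,0,1,0,0,256,256] 0 (.far [4112,1,0,1,0,0,256,256] 0 (.node [66,128,32] 10 2 (.lc 2 0 .stop)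
 (.conf [66,128,171] .stop))))))
 (.lc 2 0 (.lc 2 0 (.far [513,16,4096,0,0,0,1,0,0,0,1,256] 256 (.node [132,168,132] 8 4 (.far [257,256,4112,4112,4096,0,4096,4096,0,4096,0,0,0,257] 4096 (.lc 0 11 .stop))
 (.far [256,4112,4112,4096,0,4096,4096,0,4096,0,0,0,257] 4096 (.node [132,168,42,132] 8 4 (.far [257,256,4112,4112,4096,0,4096,4096,0,4096,0,0,0,257] 4096 (.lc 0 11 .stop))
 (.node [132,168,186,132] 8 4 (.node [66,164] 10 4 (.node [162,186] 11 10 (.node [178] 11 2 .stop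
 (.lc 3 12 .stop))
 (.conf [164,178] (.conf [172,194] (.far [1,1,0,0,0,0,0,0,1,0,0,0,1,256] 0 (.conf [32,188,194] .stop)))))
 (.lc 2 2 (.lc 0 2 (.lc 0 12 (.lc 2 2 (.lc 3 2 .stop))))))
 (.lc 2 0 (.lc 2 0 (.far [1,0,1,0,0,256,256] 17 (.node [132] 8 4 (.far [4112,1,0,1,0,0,256,256] 17 (.far [4112,1,0,1,0,0,256,256] 17 .stop))
 (.node [132,168,186,43,132] 8 4 (.node [164] 4 2 .stop
 (.lc 0 12 .stop))
 .stop)))))))))))))))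
 .stop)
 (.node [117,132,146] 9 2 .stop
 (.lc 2 4 (.node [117,132,154] 9 10 (.node [168] 1 10 (.node [] 10 8 (.far [257,16,16,4096] 0 (.node [132,162] 2 8 (.far [1,1,0,0,1,0,0,256,256] 0 .stop)
 (.far [1,0,0,1,0,0,256,256] 0 (.node [132,171] 8 4 (.far [4112,1,0,0,1,0,0,256,256] 0 (.conf [66,132,178] (.far [4112,1,0,0,1,0,0,256,256] 0 (.far [4112,1,0,0,1,0,0,256,256] 0 (.node [66,132,32] 10 11 (.far [257,0,257,16,16,4096] 0 (.node [178,203,160] 11 2 .stop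
 (.node [178,203,178] 11 2 .stop
 (.far [257,0,257,16,16,4096] 0 (.node [178,203,220,160] 11 2 .stop
 .stop)))))
 (.conf [66,132,176] (.conf [66,132,188] .stop)))))))
 (.lc 2 4 (.lc 2 4 (.lc 2 4 (.lc 3 0 (.lc 3 0 (.far [257,16,16,4096,4112,4096,0,0,0,4096,0,0,0,257] 4096 (.node [66,162,32] 10 2 (.far [4096,0,1,4096,0,4096,0,0,0,0,4096,0,0,0,257] 4096 .stop)
 (.node [132,160,184,132] 8 4 (.node [66,180] 11 4 (.node [178] 0 11 (.far [256,257,4096,4096,1,4096,0,4096,0,0,0,0,4096,0,0,0,257] 4096 .stop)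
 (.far [257,4096,4096,1,4096,0,4096,0,0,0,0,4096,0,0,0,257] 4096 (.conf [188,194] .stop)))
 (.lc 2 2 (.lc 0 2 (.lc 0 12 (.lc 2 2 (.lc 3 2 .stop))))))
 (.node [132,184,203,132,172] 8 4 (.node [66,180] 10 12 (.node [203] 11 4 (.node [178,203] 12 11 (.node [194] 12 2 (.far [4096,0,0,4096,0,0,1,4096,0,4096,0,0,0,0,4096,0,0,0,257] 4096 .stop)
 (.lc 3 0 (.lc 3 0 .stop)))
 (.conf [180,194] (.conf [189,210] (.far [4112,1,256,256] 17 .stop))))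
 (.lc 2 11 (.lc 2 11 (.far [4112,4112,4096,1,1,257,0,0,256,256] 17 (.far [4112,4112,4096,1,1,257,0,0,256,256] 0 (.lc 2 11 (.lc 2 11 (.lc 3 11 (.lc 3 11 .stop)))))))))
 (.lc 2 2 (.lc 0 2 (.lc 0 13 (.lc 2 2 (.lc 3 2 (.lc 3 2 .stop)))))))
 (.lc 2 4 (.lc 2 4 (.lc 3 0 (.lc 3 0 (.lc 3 0 (.lc 3 4 (.lc 3 4 (.lc 4 0 (.lc 4 0 (.lc 4 0 (.lc 3 4 (.lc 3 4 (.lc 3 4 (.lc 3 4 .stop)))))))))))))))))))))))))))
 (.lc 2 8 (.node [186] 10 8 (.node [132,162,186] 10 2 .stop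
 (.far [1,0,0,1,0,0,256,256] 0 (.far [257,16,16,4096] 0 (.node [132,172,186] 11 10 (.far [16,257,16,16,4096] 0 (.lc 3 2 (.lc 3 13 (.lc 1 8 (.lc 3 13 (.lc 4 14 .stop))))))
 (.lc 2 4 (.lc 2 4 (.lc 2 4 (.lc 3 1 (.node [66,162,186,32] 10 2 .stop
 (.conf [132,188,200] (.conf [173,220] (.lc 2 4 (.lc 2 4 (.lc 3 1 (.lc 3 1 (.lc 3 1 (.lc 3 4 (.lc 3 4 (.lc 4 1 (.lc 4 1 (.lc 3 4 (.lc 3 4 (.lc 3 4 (.lc 3 4 (.lc 4 4 .stop)))))))))))))))))))))))))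
 (.lc 2 8 (.lc 3 8 .stop)))))
 (.node [168] 10 8 (.node [132,162] 10 2 (.far [1,257,16,4096] 256 .stop)
 (.far [1,0,1,0,0,256,256] 0 (.node [132,171] 8 4 (.far [4112,1,0,1,0,0,256,256] 0 (.conf [66,132,178] (.far [4112,1,0,1,0,0,256,256] 0 (.far [4112,1,0,1,0,0,256,256] 0 (.node [66,132,32] 10 11 (.far [257,0,257,272,4096,16,4096] 4097 (.lc 2 2 (.node [178,203] 11 2 .stop
 (.lc 2 2 (.lc 3 2 .stop)))))
 (.conf [10,176] (.conf [66,132,188] .stop)))))))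
 (.lc 2 4 (.lc 2 4 (.lc 3 0 (.lc 3 0 (.node [66,162,32] 10 2 (.far [4096,0,4096,0,4096,0,0,0,0,4096,0,0,0,257] 4096 .stop)
 (.conf [172,203] (.lc 2 4 (.lc 2 4 (.lc 3 0 (.lc 3 0 (.lc 3 0 (.lc 3 4 (.lc 4 0 (.lc 4 0 (.lc 4 0 (.lc 3 4 (.lc 3 4 (.lc 3 4 (.lc 3 4 .stop))))))))))))))))))))))
 (.far [4112,4112,1,257,4112,0,256] 4097 (.far [257,257,16,4112,257,0,4096] 0 (.far [257,257,16,4112,257,0,4096] 0 (.node [168,186] 10 8 (.node [132,162] 10 2 .stop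
 (.far [1,0,1,0,0,256,256] 0 (.node [132,172] 11 10 (.far [16,257,272,4096,16,4096] 4097 (.lc 3 2 (.lc 3 13 (.lc 1 8 (.lc 3 13 (.lc 4 14 .stop))))))
 (.lc 2 4 (.lc 2 4 (.lc 3 8 (.node [66,162,32] 10 2 .stop
 (.conf [173,220] (.lc 2 4 (.lc 2 4 (.lc 3 8 (.lc 3 8 (.lc 3 8 (.lc 3 4 (.lc 4 8 (.lc 4 8 (.lc 3 4 (.lc 3 4 (.lc 3 4 (.lc 3 4 (.lc 4 4 .stop)))))))))))))))))))))
 .stop))))))
 (.conf [132,154,117] (.conf [132,186,123] (.conf [132,144,117] (.conf [132,160,122] (.conf [132,144,117] (.conf [132,176,123] (.node [132,168,42,112] 8 4 (.node [164] 4 2 .stop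
 (.lc 0 11 .stop))
 (.node [132,168,186,112] 7 0 .stop
 (.conf [132,155,117] (.conf [132,203,124] (.node [117,132,154,160] 0 8 (.far [257,4096,4112,4096,0,0,0,4096,0,0,0,257] 4096 (.lc 2 0 (.far [16,16,0,16,4097,8208,4096,0,0,16,4096] 0 (.node [132,184,43,132] 8 4 (.far [257,256,0,4112,4112,1,4096,4096,4096,0,0,0,257] 4096 (.lc 0 12 .stop))
 (.lc 2 0 .stop)))))
 (.node [117,132,144] 2 8 (.far [1,4096,0,1,16,256,256] 0 .stop)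
 (.lc 3 4 (.conf [117,132,168] (.conf [117,132,168] (.node [117,132,154,160] 0 8 (.far [1,4096,0,1,16,256,256] 0 (.lc 3 1 (.lc 1 2 (.lc 3 1 .stop))))
 (.far [1,4112,4096,0,0,0,4096,0,0,0,257] 4096 (.node [117,132,154,162] 2 8 (.lc 2 0 .stop)
 (.node [117,132,144,168] 9 0 (.node [] 8 4 (.far [4112,0,4096,0,1,16,256,256] 0 (.lc 2 2 (.far [4112,0,4096,0,1,16,256,256] 0 (.far [4112,0,4096,0,1,16,256,256] 0 (.lc 2 2 (.lc 3 2 .stop))))))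
 .stop)
 (.conf [132,168,186] (.node [117,132,154,160] 0 8 (.lc 1 2 .stop)
 (.far [1,4112,4096,0,0,0,4096,0,0,0,257] 4096 (.node [117,132,144,168] 9 0 (.far [257,257,16,4112,257,0,4096] 0 .stop)
 (.node [117,132,146,168] 9 2 .stop
 (.conf [155,168,186] (.lc 0 1 (.conf [117,154,160] (.node [117,132,144,40] 2 8 (.lc 0 2 .stop)
 (.node [117,132,144,168] 9 0 (.far [257,257,16,4112,257,0,4096] 0 .stop)
 (.conf [117,155,186] (.node [117,132,155,186,160] 0 8 (.lc 1 2 .stop)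
 (.node [117,132,154,160,40] 2 8 (.lc 0 2 .stop)
 (.node [117,132,155,168,176] 8 4 (.node [66,164] 0 10 (.node [164] 10 4 (.far [257,256,1,0,4112,4112,1,4096,4096,4096,0,0,0,257] 4096 .stop)
 (.lc 2 0 (.conf [164,202] .stop)))
 (.lc 2 2 (.lc 0 2 (.lc 0 12 (.lc 2 2 (.lc 3 2 .stop))))))
 (.node [117,132,144,168,42] 8 4 (.node [164] 4 2 .stop
 (.lc 0 11 .stop))
 (.node [117,132,144,168,186] 9 0 (.node [] 8 4 (.node [66,164] 10 4 (.node [162] 11 10 (.node [178] 11 2 .stop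
 (.lc 3 12 .stop))
 (.lc 3 4 (.conf [172,194] (.lc 3 4 (.lc 4 4 .stop)))))
 (.lc 2 2 (.lc 0 2 (.lc 0 12 (.lc 2 2 (.lc 3 2 .stop))))))
 .stop)
 (.node [117,132,156,168,186] 8 4 (.node [66,164] 10 4 (.node [162] 11 10 (.node [178] 9 12 (.node [203] 11 2 (.far [2,4112,513,257,4096,4096,8208,4096,0,0,0,8192,0,0,0,514] 8192 (.lc 3 2 (.conf [189,208] .stop)))
 (.lc 2 11 (.far [4112,1,4112,4128,4096,1,258,32,512,512] 4097 (.lc 2 11 (.lc 2 11 (.lc 3 11 .stop))))))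
 (.lc 3 0 (.node [176] 9 12 (.far [257,16,257,258,256,16,4128,2,8192,8192] 17 (.lc 2 11 (.lc 2 11 .stop)))
 (.lc 3 0 (.lc 3 13 (.lc 4 13 .stop))))))
 (.lc 3 4 (.far [16,16,0,0,0,0,16,0,0,0,16,4096] 17 (.conf [173,210] (.lc 3 4 (.lc 4 4 (.lc 4 4 .stop)))))))
 (.lc 2 2 (.lc 0 0 (.lc 0 2 (.lc 0 13 (.lc 2 2 (.lc 3 2 (.lc 3 2 .stop))))))))
 .stop))))))))))))))))))))))))))))))))))))))))))))))))))))))))))))))))))))))))))
 (.node [151,97,120] 9 7 (.node [120,146] 9 2 (.far [4096,0,4096,0,0,0,0,4096,0,0,0,257] 4096 .stop)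
 (.lc 1 5 (.node [120,154] 9 10 (.node [] 7 8 (.node [168] 10 8 (.conf [8,160] (.node [132,162] 2 8 (.node [] 10 2 (.far [4096,0,0,0,4096,0,4096,0,0,0,0,4096,0,0,0,257] 4096 .stop)
 .stop)
 (.node [66,164] 10 4 (.far [4112,4112,256,1,256] 17 .stop)
 (.node [132,171] 8 4 (.node [66] 10 11 (.node [11] 11 4 (.node [178] 11 2 (.far [4096,0,4096,0,0,0,4096,0,4096,0,0,0,0,4096,0,0,0,257] 4096 .stop)
 (.far [257,4112,4096,4096,0,4096,0,4096,0,0,0,0,4096,0,0,0,257] 4096 (.far [16,0,16,0,0,0,0,0,0,0,16,0,0,0,16,4096] 0 .stop)))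
 (.far [1,0,257,4096,4112,4096,4096,0,0,0,0,4096,0,0,0,257] 4096 (.far [4112,0,4112,256,1,256] 17 (.far [257,0,257,4096,16,4096] 0 (.far [257,0,257,4096,16,4096] 0 (.node [180,203,44,160] 11 4 .stop
 .stop))))))
 (.conf [66,132,178] (.far [4112,1,1,0,0,0,0,256,256] 0 (.far [4112,1,1,0,0,0,0,256,256] 0 (.far [257,16,16,0,0,0,0,4096,4096] 0 (.conf [66,132,188] .stop))))))
 (.node [132,162,66,49] 10 2 (.far [4096,0,0,4096,0,4096,0,0,0,0,4096,0,0,0,257] 4096 .stop)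
 (.conf [132,171,180] (.far [257,4096,4112,4096,4096,0,0,0,0,4096,0,0,0,257] 4096 (.conf [11,160] (.conf [1,160] (.far [16,16,0,0,0,0,4096,4096] 0 (.node [132,184,203,132,172] 8 4 (.far [257,16,16,0,0,0,0,4096,4096] 0 (.lc 2 2 (.lc 0 2 (.lc 0 13 (.lc 2 2 (.lc 3 2 .stop))))))
 (.node [66,132,162,32] 10 2 (.far [257,257,4096,16,4096] 0 .stop)
 (.conf [4,160] (.conf [1,160] (.conf [1,160] (.conf [132,171,178] (.conf [1,160] (.conf [1,160] (.conf [1,160] (.conf [1,160] (.far [257,4096,0,1,16,4096] 256 .stop)))))))))))))))))))))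
 (.conf [132,162,117] (.conf [132,171,184] (.far [4112,0,1,0,1,4112,0,256] 0 (.far [257,0,16,0,16,257,0,4096] 0 (.conf [132,172,117] .stop))))))
 (.lc 2 7 (.lc 2 7 (.lc 2 7 (.far [4112,4112,4096,16,0,0,4112,1,256] 17 (.far [4112,4112,4096,16,0,0,4112,1,256] 0 (.lc 2 7 (.lc 2 7 (.lc 3 7 (.lc 3 7 .stop))))))))))
 (.lc 2 5 (.conf [1,144] (.lc 2 5 (.conf [144,167,120] (.lc 2 5 (.conf [155,186] (.lc 2 5 (.lc 2 5 (.lc 2 5 (.far [257,0,1,0,0,257,4112,4096,0,0,257] 4096 (.lc 2 5 (.node [144,120] 10 7 (.far [1,1,0,1,4112,0,256] 0 (.lc 3 2 (.lc 3 11 (.node [132,184,117] 8 4 (.node [66,180] 11 4 (.node [178] 10 11 (.node [162] 10 2 (.far [258,513,257,4096,257,4096,4096,0,0,0,0,4096,0,0,0,257] 4096 .stop)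
 (.far [1,4112,16,256,0,0,0,256,256] 0 .stop))
 (.lc 3 4 (.conf [188,194] (.lc 3 4 (.lc 4 4 .stop)))))
 (.lc 2 2 (.lc 0 2 (.lc 0 12 (.lc 2 2 (.lc 3 2 .stop))))))
 (.lc 3 11 (.lc 4 12 .stop))))))
 (.lc 3 5 (.lc 3 5 (.lc 3 5 (.conf [144,167,120] (.conf [144,167,120] (.lc 3 5 (.lc 3 5 (.lc 3 5 (.lc 3 5 (.lc 3 5 (.lc 3 5 (.lc 4 5 (.lc 4 5 .stop))))))))))))))))))))))))))))
 (.node [132,137,151,97,137] 1 8 .stop
 (.node [26,151,169,97,120] 1 10 (.node [] 9 7 (.node [120,144] 9 0 (.lc 0 0 .stop)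
 (.node [120,146] 9 2 .stop
 (.lc 1 5 (.node [120,155] 10 9 (.node [171] 7 8 (.node [184] 10 11 (.node [160,184] 11 8 (.node [8,132] 8 4 (.far [257,16,0,16,0,0,0,0,0,4096,4096] 0 .stop)
 (.far [4112,1,256,256,256] 17 (.far [256,16,4112,4096,4096,0,0,0,4096,4096] 0 .stop)))
 (.node [162,184] 10 2 (.far [1,257,0,257,0,0,4096,0,0,0,0,4096,0,0,0,257] 4096 .stop)
 (.lc 1 7 (.node [172,184] 11 8 (.node [132] 8 4 (.node [66] 10 12 (.node [196] 12 4 (.far [4112,1,256,256,256] 17 .stop)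
 (.far [4112,0,4112,4096,256,0,16,1,1,256] 17 (.far [4112,0,4112,4096,256,0,16,1,1,256] 0 .stop)))
 (.conf [66,132,194] (.far [4112,1,0,1,0,0,0,0,0,256,256] 0 (.far [4112,1,0,1,0,0,0,0,0,256,256] 0 (.far [257,16,0,16,0,0,0,0,0,4096,4096] 0 (.conf [66,132,192] (.conf [66,132,205] .stop)))))))
 (.conf [132,183,196] (.far [4112,1,256,256,256] 0 (.conf [132,183,194] .stop))))
 (.lc 2 7 (.lc 2 7 (.lc 3 0 (.lc 3 0 (.far [4112,0,4096,4112,1,1,256] 17 (.far [4112,0,4096,4112,1,1,256] 0 (.node [173,203,220,173,184] 11 8 (.far [257,16,4096,4096,4096] 0 (.lc 2 4 (.lc 0 14 (.lc 3 4 .stop))))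
 (.lc 2 7 (.lc 3 0 (.lc 3 0 (.lc 3 0 (.lc 3 0 (.lc 3 7 (.lc 4 0 (.lc 4 0 (.lc 4 0 (.lc 4 0 (.lc 4 0 (.lc 5 0 .stop)))))))))))))))))))))))
 (.conf [132,176,117] (.conf [132,178,117] (.conf [132,188,200] (.far [4112,0,1,0,0,1,4112,0,256] 0 (.far [257,0,16,0,0,16,257,0,4096] 0 (.conf [132,176,117] (.conf [132,189,117] .stop))))))))
 (.lc 1 7 (.lc 1 7 (.lc 1 7 (.lc 3 0 (.lc 1 7 (.far [1,4112,0,4096,16,0,0,4112,1,256] 0 (.lc 2 7 .stop))))))))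
 (.lc 2 5 (.lc 0 0 (.lc 2 5 (.conf [171,183] (.node [120,144] 2 7 .stop
 (.lc 2 5 (.conf [156,203] (.lc 2 5 (.lc 2 5 (.lc 2 5 (.lc 2 5 (.conf [150,162] (.lc 2 5 (.conf [150,171] (.lc 3 5 (.lc 3 5 (.lc 3 5 (.conf [150,172] (.lc 3 5 (.lc 3 5 (.lc 3 5 (.lc 3 5 (.lc 3 5 (.lc 4 5 .stop))))))))))))))))))))))))))))
 (.lc 2 9 (.lc 2 9 (.node [186] 9 7 (.node [120,146] 9 2 .stop
 (.lc 1 5 (.node [155,183,186] 9 11 (.lc 0 1 .stop)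
 (.node [120,156] 10 9 (.node [172] 7 8 (.node [200] 10 12 (.node [162,200,186] 10 2 .stop
 (.lc 1 7 (.far [257,0,256,257,16,16,4096] 0 (.node [173,200,186] 11 10 (.far [16,257,0,256,257,16,16,4096] 0 (.lc 3 2 (.lc 3 14 (.lc 1 12 (.lc 3 14 (.lc 4 15 .stop))))))
 (.lc 2 7 (.lc 2 7 (.lc 3 1 (.conf [189,200,220] (.conf [174,237] (.lc 2 7 (.lc 3 1 (.lc 3 1 (.lc 3 1 (.lc 3 1 (.lc 3 7 (.lc 4 1 (.lc 4 1 (.lc 4 1 (.lc 5 1 .stop)))))))))))))))))))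
 (.conf [132,194,117] (.conf [132,184,203] (.conf [132,205,216] (.far [4112,0,1,0,0,1,4112,0,256] 0 (.far [257,0,16,0,0,16,257,0,4096] 0 (.conf [132,206,117] .stop)))))))
 (.lc 3 2 (.lc 3 8 (.lc 3 13 (.lc 3 1 (.lc 1 7 (.lc 3 13 (.lc 4 14 .stop))))))))
 (.lc 2 5 (.lc 2 5 (.lc 0 1 (.conf [172,199] (.lc 2 5 (.conf [157,220] (.lc 2 5 (.lc 2 5 (.lc 2 5 (.lc 2 5 (.lc 0 2 (.lc 2 5 (.lc 0 12 (.lc 3 5 (.lc 3 5 (.lc 0 13 (.lc 3 5 (.lc 3 5 (.lc 3 5 (.lc 3 5 (.lc 3 5 (.lc 4 5 .stop))))))))))))))))))))))))))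
 (.lc 2 9 (.lc 3 9 .stop))))))
 (.far [4112,4112,0,0,4112,1,256] 4097 (.far [4112,4112,0,0,4112,1,256] 0 (.far [257,257,0,0,257,16,4096] 0 (.far [257,257,0,0,257,16,4096] 0 (.node [151,169,97,120] 9 7 (.node [120,146,169] 9 2 .stop
 (.lc 1 5 (.node [120,155,169] 10 9 (.far [16,257,256,1,0,0,257,16,4096] 0 (.lc 3 2 (.lc 3 8 (.lc 3 12 (.lc 1 7 (.lc 3 12 (.lc 4 13 .stop)))))))
 (.lc 2 5 (.lc 2 5 (.conf [150,171] (.lc 2 5 (.conf [156,203] (.lc 2 5 (.lc 2 5 (.lc 2 5 (.node [150,162,120] 2 7 .stop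
 (.lc 2 5 (.node [150,171,120] 11 7 (.far [1,1,0,1,4112,0,256] 0 (.lc 3 2 (.lc 3 12 (.node [132,200,117] 10 11 (.far [257,0,257,16,4096] 4097 (.lc 2 12 (.node [188] 8 4 (.far [257,0,16,16,256,16,258,4096,4097,16,4096] 0 (.lc 0 13 .stop))
 (.lc 2 12 (.lc 2 12 (.lc 3 12 .stop))))))
 (.lc 3 12 (.lc 4 13 .stop))))))
 (.lc 3 5 (.lc 3 5 (.conf [150,183,120] (.lc 3 5 (.lc 3 5 (.lc 3 5 (.lc 3 5 (.lc 4 5 .stop))))))))))))))))))))))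
 (.node [27,151,169,186,97,169,120,151] 1 11 (.node [186] 9 7 (.node [120,144] 9 0 .stop
 (.node [120,146] 9 2 (.lc 0 0 .stop)
 (.lc 1 5 (.node [120,156] 10 9 (.far [16,257,0,256,1,0,0,257,16,4096] 0 (.lc 3 0 (.lc 3 2 (.lc 3 8 (.lc 3 13 (.lc 1 7 (.lc 3 13 (.lc 4 0 (.lc 4 14 .stop)))))))))
 (.lc 2 5 (.lc 2 5 (.lc 3 6 (.node [120,144] 2 7 .stop
 (.lc 2 5 (.conf [157,220] (.lc 2 5 (.lc 2 5 (.lc 2 5 (.lc 2 5 (.lc 3 6 (.lc 3 6 (.lc 2 5 (.lc 3 6 (.lc 3 5 (.lc 3 5 (.lc 4 6 (.lc 3 5 (.lc 4 6 (.lc 3 5 (.lc 3 5 (.lc 3 5 (.lc 3 5 (.lc 3 5 (.lc 4 5 (.lc 4 5 .stop))))))))))))))))))))))))))))))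
 (.lc 2 10 (.lc 2 10 (.conf [186,203] (.lc 2 10 (.lc 3 10 .stop))))))
 .stop))))))))))
 (.node [120,132,97,49] 7 8 (.node [] 8 4 (.conf [4,128] (.node [130] 8 2 (.far [4096,0,4096,4096,0,0,0,4096,0,0,0,257] 4096 .stop)
 (.node [66,137] 8 9 (.node [9] 9 4 (.node [] 9 2 (.far [4096,0,4096,0,4096,4096,0,0,0,4096,0,0,0,257] 4096 (.node [154] 0 9 .stop
 (.node [155,186,155,162] 9 11 .stop
 .stop)))
 (.node [154,162,66] 9 10 .stop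
 (.far [16,0,16,0,0,0,16,0,0,0,16,4096] 0 (.far [1,0,1,0,0,0,1,0,0,0,1,256] 0 (.node [155,186,66,162] 9 11 .stop
 .stop)))))
 (.far [1,257,4112,4096,4096,4096,0,4096,0,0,0,257] 4096 (.far [4112,4112,1,0,256,256] 17 (.far [257,257,16,0,4096,4096] 0 (.far [257,257,16,0,4096,4096] 0 (.node [148,169,42,128] 4 2 .stop
 .stop))))))
 (.conf [1,128] (.conf [66,137,146] (.far [257,4112,4096,4096,4096,0,4096,0,0,0,257] 4096 (.conf [9,128] (.conf [1,128] (.far [16,0,0,0,16,0,0,0,16,4096] 0 (.node [66,148,169,66,138] 8 10 (.far [4112,4112,1,0,256,256] 0 (.lc 2 9 (.far [4112,4112,1,0,256,256] 17 (.lc 2 9 (.lc 2 9 (.lc 3 9 .stop))))))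
 (.conf [66,128] (.node [66,137,32] 8 9 (.far [257,257,16,0,4096,4096] 0 (.lc 2 2 .stop))
 (.far [1,1,16,257,0,4096] 256 (.conf [1,128] (.conf [66,138,169] .stop)))))))))))))))
 (.lc 2 4 (.lc 2 4 (.far [4112,4096,4112,0,16,1,256] 17 (.far [4112,4096,4112,0,16,1,256] 0 (.lc 2 4 (.lc 2 4 (.lc 3 4 (.lc 3 4 .stop)))))))))
 (.conf [120,144,105] (.far [1,0,0,257,4112,4096,0,0,257] 4096 (.conf [120,146,105] (.node [120,71,98] 4 7 (.lc 0 4 .stop)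
 (.node [120,151,132,96] 6 0 (.node [] 7 8 (.node [152] 9 8 (.node [132] 2 8 (.node [] 9 2 (.far [1,0,257,4096,4112,4096,0,0,0,4096,0,0,0,257] 4096 .stop)
 .stop)
 (.lc 1 4 (.node [132] 8 4 (.node [66] 10 4 (.node [] 0 9 (.far [257,0,0,0,4112,4112,4097,4112,0,256,4096,0,0,0,257] 4096 (.lc 2 0 (.far [16,0,0,257,1,0,16,257,0,4096] 0 (.lc 2 0 .stop))))
 (.node [171,178,66] 9 10 (.node [178] 0 9 .stop
 (.far [16,256,4112,4096,0,0,0,0,16,0,0,0,16,4096] 0 .stop))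
 (.far [16,16,0,0,0,0,0,16,0,0,0,16,4096] 0 (.far [1,1,0,0,0,0,0,1,0,0,0,1,256] 0 (.node [172,203,66,178] 9 10 (.far [1,4096,257,256,0,0,0,0,1,0,0,0,1,256] 0 (.lc 1 11 .stop))
 .stop)))))
 (.conf [66,132,162] (.far [4112,1,1,0,0,256,256] 0 (.far [4112,1,1,0,0,256,256] 0 (.far [257,16,16,0,0,4096,4096] 0 (.conf [66,132,171] .stop))))))
 (.lc 2 4 (.lc 2 4 (.lc 2 4 (.lc 3 2 (.lc 3 11 (.lc 2 4 (.node [132,168,186,132] 8 4 (.far [257,16,16,0,0,4096,4096] 0 (.lc 2 2 (.lc 0 2 (.lc 0 12 (.lc 2 2 (.lc 3 2 .stop))))))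
 (.lc 2 4 (.lc 2 4 (.lc 2 4 (.lc 3 10 (.lc 2 4 (.lc 2 4 (.lc 3 11 (.lc 3 4 (.lc 3 4 (.lc 4 12 (.lc 3 4 (.lc 3 4 (.lc 3 4 (.lc 3 4 (.lc 4 4 .stop)))))))))))))))))))))))))
 (.lc 2 4 (.lc 2 4 (.far [4112,4112,4096,4112,0,16,1,256] 0 (.lc 2 4 (.lc 3 4 .stop))))))
 .stop)
 (.node [120,151,132,97,49] 7 8 (.node [152] 1 9 (.node [] 9 8 (.node [132,144] 8 4 (.node [4,66] 0 4 (.far [257,4096,1,0,4096,4096,0,0,0,4096,0,0,0,257] 4096 .stop)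
 (.far [1,0,0,4112,4096,4096,4096,0,4096,0,0,0,257] 4096 (.far [4112,1,0,1,0,256,256] 17 (.far [257,16,0,16,0,4096,4096] 0 .stop))))
 (.node [132,146] 2 8 (.node [] 9 2 (.far [1,0,257,0,4096,4096,0,0,0,4096,0,0,0,257] 4096 .stop)
 .stop)
 (.lc 1 4 (.node [132,154] 8 4 (.node [66] 9 10 (.node [] 10 4 (.node [162] 10 2 (.far [4096,0,1,0,257,0,4096,4096,0,0,0,4096,0,0,0,257] 4096 .stop)
 (.far [257,0,4096,1,0,4096,4096,0,0,0,4096,0,0,0,257] 4096 (.far [4112,1,256,256] 17 (.far [16,0,16,0,0,0,0,0,16,0,0,0,16,4096] 0 (.far [1,0,1,0,0,0,0,0,1,0,0,0,1,256] 0 .stop)))))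
 (.far [1,0,257,0,4096,4096,0,0,0,4096,0,0,0,257] 4096 (.node [164,186,144] 10 4 (.far [4112,4096,256,16,1,16,1,4112,0,256] 0 .stop)
 (.far [4112,0,4112,1,16,1,4112,0,256] 17 (.far [4112,0,4112,1,16,1,4112,0,256] 0 (.far [257,0,257,16,1,16,257,0,4096] 0 (.far [257,0,257,16,1,16,257,0,4096] 0 (.node [164,186,43,144] 10 4 .stop
 (.node [164,186,203,144] 10 4 (.lc 0 2 .stop)
 .stop)))))))))
 (.conf [66,132,162] (.far [4112,1,0,1,0,256,256] 0 (.far [4112,1,0,1,0,256,256] 0 (.far [257,16,0,16,0,4096,4096] 0 (.conf [66,132,160] (.conf [66,132,171] .stop)))))))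
 (.lc 2 4 (.lc 2 4 (.lc 2 4 (.lc 3 0 (.lc 3 0 (.far [4112,1,16,1,4112,0,256] 17 (.lc 2 4 (.far [4112,1,16,1,4112,0,256] 0 (.node [132,168,186,132,155] 8 4 (.far [257,16,0,16,0,4096,4096] 0 (.lc 2 2 (.lc 0 2 (.lc 0 12 (.lc 2 2 (.lc 3 2 (.lc 3 2 .stop)))))))
 (.lc 2 4 (.lc 2 4 (.lc 3 0 (.lc 2 4 (.lc 3 0 (.lc 3 4 (.lc 3 4 (.lc 3 4 (.lc 4 0 (.lc 4 0 (.lc 3 4 (.lc 3 4 (.lc 3 4 (.lc 3 4 .stop)))))))))))))))))))))))))))
 (.lc 2 8 (.node [169] 9 8 (.node [132,146,169] 9 2 .stop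
 (.lc 1 4 (.far [257,16,1,16,257,0,4096] 0 (.node [132,155,169] 10 9 (.far [16,257,16,1,16,257,0,4096] 0 (.lc 3 2 (.lc 3 12 (.lc 1 8 (.lc 3 12 (.lc 4 13 .stop))))))
 (.lc 2 4 (.lc 2 4 (.lc 2 4 (.lc 3 1 (.lc 2 4 (.conf [132,171,184] (.conf [156,203] (.lc 2 4 (.lc 2 4 (.lc 3 1 (.lc 2 4 (.lc 3 1 (.lc 3 4 (.lc 3 4 (.lc 3 4 (.lc 4 1 (.lc 3 4 (.lc 3 4 (.lc 3 4 (.lc 3 4 (.lc 4 4 .stop)))))))))))))))))))))))))
 (.lc 2 8 (.lc 3 8 .stop)))))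
 (.lc 2 4 (.lc 2 4 (.lc 2 4 (.far [4112,4096,4112,0,16,1,256] 0 (.far [4112,4096,4112,0,16,1,256] 0 (.lc 2 4 (.lc 2 4 (.lc 3 4 (.lc 3 4 (.lc 3 4 (.lc 3 4 .stop))))))))))))
 (.conf [120,151,169] (.node [97,120] 0 7 (.far [257,4096,0,0,0,4096,0,0,0,257] 4096 (.node [112,132] 0 8 (.far [257,257,4096,0,0,0,4096,0,0,0,257] 4096 (.lc 2 0 (.far [16,4096,0,4096,4096] 0 (.node [132,152,41,132] 8 4 (.far [257,16,4096,0,4096,4096] 0 (.lc 0 10 .stop))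
 (.lc 2 0 .stop)))))
 (.node [120] 7 8 (.node [] 8 4 (.node [130] 9 8 (.node [] 9 2 (.far [4096,0,0,0,257,4096,0,0,0,4096,0,0,0,257] 4096 .stop)
 (.far [1,4112,1,0,0,256,256] 0 .stop))
 (.node [66] 9 4 (.node [146] 9 2 (.far [4096,0,0,0,257,4096,0,0,0,4096,0,0,0,257] 4096 .stop)
 (.conf [144,132,66] (.far [16,16,0,0,0,0,16,0,0,0,16,4096] 0 .stop)))
 (.node [66,138] 9 8 (.node [] 10 4 (.node [] 9 10 (.node [146] 9 2 (.far [4096,0,0,0,0,0,257,4096,0,0,0,4096,0,0,0,257] 4096 .stop)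
 (.node [155,162] 10 2 (.node [] 9 11 .stop
 (.far [4112,1,4112,256,256] 0 .stop))
 (.conf [162,178,32] (.far [1,4112,256,256,0,257,4096,0,0,0,4096,0,0,0,257] 4096 (.node [156,186,203,156,162] 11 10 (.far [16,16,257,4096,4096] 0 (.lc 3 13 .stop))
 (.far [257,0,257,0,4096,4096] 0 (.far [257,0,257,0,1,0,4112,257,0,4096] 256 .stop)))))))
 (.node [171,178,66] 9 10 (.node [155,178] 9 11 .stop
 (.far [16,256,4096,4112,0,0,0,0,16,0,0,0,16,4096] 0 .stop))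
 (.far [16,0,16,0,0,0,0,16,0,0,0,16,4096] 0 (.far [1,0,1,0,0,0,0,1,0,0,0,1,256] 0 (.node [172,203,66,178] 9 10 (.far [1,4096,256,257,0,0,0,0,1,0,0,0,1,256] 0 (.lc 1 11 .stop))
 .stop)))))
 (.conf [146,164,132] (.conf [155,164,186] (.far [16,257,16,0,0,4096,4096] 0 (.far [1,4112,1,0,0,256,256] 0 (.conf [156,164,132] .stop))))))
 (.conf [66,132,146] (.conf [66,138,162] (.node [132,146,66,49] 9 2 (.far [4096,0,0,257,4096,0,0,0,4096,0,0,0,257] 4096 .stop)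
 (.conf [132,154,164] (.conf [146,132,83,66] (.far [16,0,0,0,0,16,0,0,0,16,4096] 0 (.far [4112,1,0,0,256,256] 0 (.node [66,164,186,66,139,152] 9 8 (.far [1,4112,1,0,0,256,256] 0 (.lc 3 2 (.lc 3 12 (.lc 1 10 (.lc 3 12 (.lc 4 13 .stop))))))
 (.far [257,16,0,0,4096,4096] 0 (.node [66,138,32] 8 10 (.far [257,257,16,0,0,4096,4096] 0 (.lc 2 2 (.node [155,186,132] 9 11 .stop
 (.lc 2 2 (.lc 3 2 .stop)))))
 (.node [66,132,146,32] 9 2 (.far [257,1,4096,4096] 0 (.node [154] 0 9 .stop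
 (.node [155,186,155,162] 9 11 .stop
 .stop)))
 (.far [1,0,0,0,0,1,0,0,0,1,256] 0 (.node [132,154,66] 10 4 (.far [1,1,0,0,0,0,1,0,0,0,1,256] 0 (.lc 3 11 (.node [32,178] 9 10 .stop
 (.lc 3 11 (.lc 4 12 .stop)))))
 (.conf [66,132,154] (.conf [66,139,186] (.far [4096,1,0,0,256,257,0,0,0,1,256] 0 (.conf [132,164,66] (.conf [66,162,32] (.node [66,132,154,162,32] 9 10 .stop
 (.conf [132,154,162] (.node [66,132,155,186,32,162] 9 11 .stop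
 .stop))))))))))))))))))))))))
 (.conf [132,146,112] (.conf [132,154,168] (.far [4112,1,4096,4112,0,16,1,256] 0 (.far [257,16,256,257,0,1,16,4096] 0 (.conf [132,155,112] .stop))))))
 (.lc 2 0 (.lc 2 0 (.far [256,0,257,0,1,4112,4096,0,0,257] 4096 (.node [120,151,120,132] 7 8 (.far [257,256,0,257,0,1,4112,4096,0,0,257] 4096 (.lc 2 4 (.lc 0 10 (.lc 2 4 (.lc 3 4 .stop)))))
 (.far [16,256,257,0,1,16,4096] 0 (.far [16,256,257,0,1,16,4096] 0 (.node [120,151,41,120,132] 7 8 (.far [257,16,256,257,0,1,16,4096] 0 (.lc 2 4 (.lc 0 10 (.lc 2 4 (.lc 3 4 .stop)))))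
 (.node [120,151,169,120,132] 7 8 (.far [257,16,256,257,0,1,16,4096] 0 (.lc 2 4 (.lc 2 4 (.lc 0 11 (.lc 2 4 (.lc 3 4 .stop))))))
 (.lc 2 0 (.lc 2 0 (.lc 2 0 (.node [71,120] 4 7 (.lc 0 4 .stop)
 (.far [1,4096,4112,0,16,1,256] 17 (.node [120] 7 8 (.far [4112,1,4096,4112,0,16,1,256] 17 (.conf [132,154,168] (.far [4112,1,4096,4112,0,16,1,256] 17 (.node [132,168,112] 8 4 (.far [257,257,16,256,258,4096,2,4128,8192,0,0,257] 4096 (.lc 0 11 .stop))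
 (.conf [132,155,112] .stop)))))
 (.lc 3 0 (.lc 3 0 (.node [132,152,41] 8 4 (.far [257,4112,256,1,4096,1,16,4096] 0 (.lc 0 10 .stop))
 (.node [120,151,169,42,120,132] 7 8 (.node [152] 4 2 (.far [1,4112,4096,0,4096,4112,0,0,0,16,4096] 17 (.lc 3 2 (.lc 1 9 .stop)))
 (.lc 2 4 (.lc 0 11 (.lc 2 4 (.lc 3 4 .stop)))))
 (.lc 3 0 (.lc 3 0 (.lc 3 0 (.lc 3 0 (.lc 4 0 .stop))))))))))))))))))))))))))
 (.lc 2 5 (.conf [97,120,151] (.far [4112,0,0,4112,1,256] 4097 (.node [105,144,105,120] 6 9 (.far [4112,4112,0,0,4112,1,256] 0 (.lc 2 0 (.lc 2 0 (.conf [26,144,169] (.lc 2 0 (.lc 3 0 .stop))))))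
 (.node [96] 6 0 (.far [4112,4112,0,0,4112,1,256] 17 .stop)
 (.lc 2 5 (.lc 2 5 (.lc 2 5 (.node [96,151,120] 6 0 (.far [4112,4112,0,0,4112,1,256] 0 .stop)
 (.far [4112,0,0,4112,1,256] 0 (.node [106,169,106,120,151] 6 10 (.far [4112,4112,0,0,4112,1,256] 0 (.lc 2 9 (.lc 2 9 (.lc 2 9 (.far [4112,4112,0,0,4112,1,256] 4097 (.conf [27,169,186] (.lc 2 9 (.lc 2 9 (.lc 3 9 (.lc 3 9 .stop))))))))))
 (.far [257,0,0,257,16,4096] 0 (.node [120,132,105] 0 7 (.lc 1 4 .stop)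
 (.far [1,0,0,257,4112,4096,0,0,257] 4096 (.node [120,151,132,96] 6 0 (.far [257,257,0,0,257,16,4096] 0 .stop)
 (.far [257,0,0,257,16,4096] 0 (.node [120,151,132,98] 6 2 .stop
 (.node [120,151,132,106] 9 7 (.node [152] 6 10 (.far [257,0,257,0,0,257,16,4096] 0 (.lc 2 9 (.lc 2 9 (.node [] 9 8 (.node [132,146] 9 2 .stop
 (.lc 1 4 (.node [132,155] 10 9 (.node [171] 8 4 (.node [66] 11 4 (.node [178] 10 11 (.node [162] 10 2 (.far [4096,0,0,0,0,0,4096,0,0,0,0,0,4096,0,0,0,257] 4096 .stop)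
 (.lc 3 0 (.far [16,257,4096,4096,4096] 17 (.lc 3 0 .stop))))
 (.lc 3 4 (.far [16,16,0,0,0,0,0,0,16,0,0,0,16,4096] 0 (.lc 0 0 .stop))))
 (.conf [66,132,178] (.far [4112,0,1,0,256,0,256,256] 0 (.far [4112,0,1,0,256,0,256,256] 0 (.far [257,0,16,0,4096,0,4096,4096] 0 (.conf [66,132,188] .stop))))))
 (.lc 1 8 (.lc 1 8 (.lc 1 8 (.far [1,4112,0,4096,1,4112,0,256] 0 (.lc 2 8 .stop))))))
 (.lc 2 4 (.lc 2 4 (.lc 3 7 (.lc 2 4 (.conf [156,203] (.lc 2 4 (.lc 2 4 (.lc 3 7 (.lc 2 4 (.lc 3 7 (.lc 3 4 (.lc 3 4 (.lc 4 7 (.lc 3 4 (.lc 3 4 (.lc 3 4 (.lc 3 4 (.lc 4 4 .stop)))))))))))))))))))))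
 (.node [27,186] 1 11 (.node [186] 9 8 (.node [132,144] 9 0 .stop
 (.node [132,146] 9 2 (.lc 0 0 .stop)
 (.lc 1 4 (.node [132,156] 10 9 (.node [172] 8 4 (.node [66] 12 4 (.node [194] 10 12 (.node [162,186] 10 2 (.lc 0 0 .stop)
 (.far [16,257,4096,4096,4096] 17 (.lc 4 6 .stop)))
 (.lc 3 4 (.far [16,16,0,0,0,0,0,0,0,16,0,0,0,16,4096] 17 (.far [16,16,0,0,0,0,0,0,0,16,0,0,0,16,4096] 0 .stop))))
 (.conf [66,132,194] (.far [4112,0,1,0,0,256,0,256,256] 0 (.far [4112,0,1,0,0,256,0,256,256] 0 (.far [257,0,16,0,0,4096,0,4096,4096] 0 (.conf [66,132,192] (.conf [66,132,205] .stop)))))))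
 (.lc 3 0 (.lc 3 2 (.lc 3 13 (.lc 1 8 (.lc 3 13 (.lc 4 0 (.lc 4 14 .stop))))))))
 (.lc 2 4 (.lc 2 4 (.lc 3 7 (.node [132,144] 2 8 (.far [16,16,0,0,4096,0,4096,4096] 17 .stop)
 (.lc 2 4 (.conf [157,220] (.lc 2 4 (.lc 2 4 (.lc 3 7 (.lc 3 7 (.lc 2 4 (.lc 3 7 (.lc 3 4 (.lc 3 4 (.lc 4 7 (.lc 3 4 (.lc 4 7 (.lc 3 4 (.lc 3 4 (.lc 3 4 (.lc 3 4 (.lc 4 4 (.lc 4 4 .stop)))))))))))))))))))))))))))
 (.lc 2 10 (.node [186,203,186] 9 8 (.node [132,146] 9 2 .stop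
 (.lc 1 4 (.lc 0 11 (.node [132,157] 10 9 (.node [173] 8 4 (.node [66] 13 4 (.node [210] 10 13 (.lc 2 2 .stop)
 (.lc 0 2 (.far [16,16,0,0,0,0,0,0,0,16,0,0,0,16,4096] 0 .stop)))
 (.conf [66,132,210] (.far [4112,0,1,0,0,256,0,256,256] 0 (.far [4112,0,1,0,0,256,0,256,256] 0 (.far [257,0,16,0,0,4096,0,4096,4096] 0 (.conf [66,132,222] .stop))))))
 (.lc 3 2 (.lc 3 12 (.lc 3 14 (.lc 1 8 (.lc 3 14 (.lc 4 15 .stop)))))))
 (.lc 2 4 (.lc 2 4 (.lc 3 7 (.lc 2 4 (.conf [158,237] (.lc 2 4 (.lc 2 4 (.lc 3 7 (.lc 2 4 (.lc 3 7 (.lc 3 7 (.lc 3 4 (.lc 3 4 (.lc 4 7 (.lc 3 4 (.lc 3 4 (.lc 3 4 (.lc 3 4 (.lc 4 4 .stop)))))))))))))))))))))))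
 (.lc 2 10 (.lc 3 10 .stop)))))
 (.lc 2 9 (.lc 2 9 (.lc 3 9 (.lc 3 9 .stop)))))))))
 (.lc 1 4 (.lc 1 4 (.lc 1 4 (.lc 1 4 (.lc 1 4 (.lc 1 4 (.lc 3 0 (.lc 3 11 (.lc 2 4 (.lc 2 4 (.lc 2 4 (.lc 2 4 (.lc 2 4 .stop))))))))))))))
 (.far [1,0,0,0,4096,0,0,0,257] 16 (.node [97,120,132,25] 7 8 (.node [152] 9 8 (.node [132] 0 8 (.node [66] 0 4 (.far [257,257,1,4096,4096,0,0,0,4096,0,0,0,257] 4096 .stop)
 (.far [256,0,4112,4096,4096,4096,0,4096,0,0,0,257] 4096 (.far [16,16,16,0,4096,4096] 0 (.far [1,1,1,0,256,256] 17 .stop))))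
 (.lc 2 1 (.node [132] 2 8 (.node [] 9 2 (.far [1,0,257,4096,4096,0,0,0,4096,0,0,0,257] 4096 (.node [154,160,154] 1 9 (.far [1,4112,0,4112,256,257] 0 (.lc 1 0 .stop))
 .stop))
 .stop)
 (.lc 1 4 (.node [132] 8 4 (.node [66] 10 4 (.node [] 1 9 (.far [257,0,0,0,0,1,0,0,0,4096,0,0,0,257] 16 (.far [1,0,0,4112,256,257] 0 (.node [154] 9 10 (.far [4112,1,0,0,4112,256,257] 0 (.conf [162,178,32] (.far [4112,1,0,0,4112,256,257] 0 (.far [4112,1,0,0,4112,256,257] 0 (.conf [162,176,145] .stop)))))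
 (.lc 2 1 (.lc 2 1 (.node [154,185,154] 9 10 (.node [162,186] 11 10 (.node [178] 11 2 (.far [4096,0,4112,1,0,0,4112,256,257] 256 .stop)
 (.conf [1,176] (.far [1,1,0,4112,256,256] 0 .stop)))
 (.lc 2 2 (.lc 0 12 .stop)))
 (.node [154,185,154] 9 10 (.node [162,186] 11 10 (.node [178] 11 2 (.far [1,257,1,0,0,0,257,4096,4096,0,0,0,4096,0,0,0,257] 4096 .stop)
 (.far [257,1,0,0,0,257,4096,4096,0,0,0,4096,0,0,0,257] 4096 (.conf [1,176] .stop)))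
 (.lc 2 2 (.lc 0 12 .stop)))
 (.node [154,185,203,154] 9 10 (.node [162,186] 11 10 (.node [178,203] 11 2 (.lc 0 0 .stop)
 (.far [16,16,0,257,4096,4096] 17 (.far [1,1,0,4112,256,256] 0 (.far [4096,4112,1,4112,256,4128,272,257,4112,0,256] 0 .stop))))
 (.lc 2 2 (.lc 0 0 (.lc 0 13 (.lc 3 2 .stop)))))
 (.lc 2 1 (.far [1,0,0,4112,256,257] 4097 (.node [154] 9 10 (.far [4112,1,0,0,4112,256,257] 4097 (.conf [162,178,32] (.far [4112,1,0,0,4112,256,257] 4097 .stop)))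
 (.node [154,185,203,154] 9 10 (.node [162,186] 11 10 (.node [178,203] 11 2 .stop
 (.far [1,1,0,4112,256,256] 0 .stop))
 (.lc 2 2 (.lc 0 13 .stop)))
 (.lc 3 1 .stop)))))))))))))
 (.far [257,4096,1,4096,4096,0,0,0,4096,0,0,0,257] 4096 (.node [171,178,66] 9 10 (.node [178] 1 9 (.far [1,4112,0,0,4112,256,257] 0 (.lc 1 2 (.lc 1 2 (.lc 1 2 (.far [1,4112,0,0,4112,256,257] 4097 (.lc 2 2 .stop))))))
 (.lc 3 1 (.far [16,256,4112,4096,0,0,0,16,0,0,0,16,4096] 0 (.far [16,256,4112,4096,0,0,0,16,0,0,0,16,4096] 0 (.lc 4 1 .stop)))))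
 (.far [16,16,0,0,0,0,16,0,0,0,16,4096] 17 (.far [16,16,0,0,0,0,16,0,0,0,16,4096] 0 (.far [1,1,0,0,0,0,1,0,0,0,1,256] 0 (.far [1,1,0,0,0,0,1,0,0,0,1,256] 0 (.node [171,176,66] 9 10 (.far [1,4096,257,256,0,0,0,1,0,0,0,1,256] 0 (.lc 3 1 (.lc 1 0 .stop)))
 (.node [172,203,66,178] 9 10 (.far [1,4096,257,256,0,0,0,1,0,0,0,1,256] 0 (.lc 3 1 (.lc 1 11 (.lc 1 11 (.lc 4 1 .stop)))))
 .stop)))))))))
 (.conf [66,132,162] (.far [4112,1,1,0,256,256] 0 (.far [4112,1,1,0,256,256] 0 (.far [4112,1,1,0,256,256] 0 (.far [257,16,16,0,4096,4096] 0 (.conf [66,132,160] (.conf [66,132,171] .stop))))))))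
 (.lc 2 4 (.lc 2 4 (.lc 2 4 (.lc 3 10 (.lc 3 0 (.lc 2 4 (.lc 3 0 (.lc 3 2 (.lc 3 11 (.lc 3 1 (.node [132,160] 0 8 (.far [16,16,16,0,4096,4096] 0 .stop)
 (.node [132] 2 8 (.far [16,16,16,0,4096,4096] 17 .stop)
 (.lc 2 4 (.node [132,168,132] 8 4 (.far [257,16,16,0,4096,4096] 0 (.lc 2 2 (.lc 0 2 (.lc 0 11 (.lc 2 2 (.lc 3 2 .stop))))))
 (.node [132,168,186,132] 8 4 (.far [257,16,16,0,4096,4096] 0 (.lc 2 2 (.lc 0 0 (.lc 0 2 (.lc 0 12 (.lc 2 2 (.lc 3 2 (.lc 3 2 .stop))))))))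
 (.lc 2 4 (.lc 2 4 (.lc 2 4 (.lc 2 4 (.lc 3 10 (.lc 3 0 (.lc 3 10 (.lc 2 4 (.lc 2 4 (.lc 2 4 (.lc 3 0 (.lc 3 11 (.lc 3 4 (.lc 3 4 (.lc 4 11 (.lc 4 10 (.lc 3 4 (.lc 3 4 (.lc 4 11 (.lc 4 0 (.lc 4 0 (.lc 4 12 (.lc 3 4 (.lc 3 4 (.lc 3 4 (.lc 3 4 (.lc 3 4 (.lc 3 4 (.lc 3 4 (.lc 3 4 (.lc 3 4 (.lc 4 4 (.lc 4 4 .stop)))))))))))))))))))))))))))))))))))))))))))))))))))))
 (.lc 2 4 (.lc 2 4 (.lc 2 4 (.far [4112,4096,4112,0,16,1,256] 0 (.far [4112,4096,4112,0,16,1,256] 0 (.lc 2 4 (.lc 2 4 (.lc 3 4 (.lc 3 4 (.lc 3 4 (.lc 3 4 .stop))))))))))))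
 (.node [97,120,16] 0 7 (.far [257,4096] 256 (.far [1,1,4112,0,256] 0 (.node [120] 7 8 (.far [4112,1,1,4112,0,256] 0 (.conf [132,146,112] (.conf [132,154,168] (.far [4112,1,1,4112,0,256] 0 (.node [132,168,112] 8 4 (.node [66,164] 10 4 (.node [162] 9 10 (.node [146] 9 2 (.far [4112,4112,0,0,256,256] 0 .stop)
 (.lc 3 0 (.far [1,4112,16,1,0,0,256,256] 0 .stop)))
 (.lc 3 4 (.conf [171,178] (.lc 3 4 (.lc 4 4 .stop)))))
 (.lc 2 2 (.lc 0 2 (.lc 0 11 (.lc 2 2 (.lc 3 2 .stop))))))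
 (.conf [132,155,112] .stop))))))
 (.lc 2 0 (.lc 2 0 (.far [256,0,257,0,1,4112,4096,0,0,257] 4096 (.node [132,152] 8 4 (.far [4112,257,1,16,256,256] 0 (.lc 2 2 (.far [4112,257,1,16,256,256] 0 (.far [4112,257,1,16,256,256] 0 (.lc 2 2 (.lc 3 2 .stop))))))
 (.node [120,151,120,132] 7 8 (.far [257,256,0,257,0,1,4112,4096,0,0,257] 4096 (.lc 2 4 (.lc 0 10 (.lc 2 4 (.lc 3 4 .stop)))))
 (.node [120,151,169,120,132] 7 8 (.node [152] 9 8 (.node [132,146,169] 9 2 .stop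
 (.lc 1 4 (.node [132,155,169] 10 9 (.far [1,4112,16,257,1,4112,0,256] 0 (.lc 1 8 (.lc 1 8 (.lc 1 8 (.far [1,4112,16,257,1,4112,0,256] 0 (.lc 2 8 .stop))))))
 (.lc 2 4 (.lc 2 4 (.conf [151,184,132] (.lc 2 4 (.conf [156,203] (.lc 2 4 (.lc 2 4 (.conf [151,162] (.lc 2 4 (.conf [151,171] (.lc 3 4 (.lc 3 4 (.conf [151,172] (.lc 3 4 (.lc 3 4 (.lc 3 4 (.lc 3 4 (.lc 4 4 .stop)))))))))))))))))))))
 (.lc 2 4 (.lc 2 4 (.lc 0 11 (.lc 2 4 (.lc 3 4 .stop))))))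
 (.far [256,0,257,0,1,4112,4096,0,0,257] 4096 (.node [132,152] 8 4 (.node [66,148] 9 4 (.node [146] 9 2 (.far [4097,257,4096,257,4096,0,0,0,4096,0,0,0,257] 4352 .stop)
 (.lc 3 0 (.conf [154,162] (.lc 3 0 .stop))))
 (.lc 2 2 (.lc 0 2 (.lc 0 10 (.lc 2 2 (.lc 3 2 .stop))))))
 (.node [120,151,41,120,132] 7 8 (.far [257,256,0,257,0,1,4112,4096,0,0,257] 4096 (.lc 2 4 (.lc 0 10 (.lc 2 4 (.lc 3 4 .stop)))))
 (.node [120,151,169,120,132] 7 8 (.node [152] 9 8 (.node [132,146,169] 9 2 .stop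
 (.lc 1 4 (.node [132,155,169] 10 9 (.node [171] 8 4 (.node [66] 11 4 (.node [178] 10 11 (.node [162] 10 2 (.far [4097,257,0,0,257,0,0,257,4096,0,0,0,4096,0,0,0,257] 4352 .stop)
 (.lc 3 0 (.lc 3 0 .stop)))
 (.lc 3 4 (.far [16,16,0,0,0,0,0,0,16,0,0,0,16,4096] 0 (.lc 0 0 .stop))))
 (.conf [66,132,178] (.far [4112,0,1,1,0,0,256,256] 0 (.far [4112,0,1,1,0,0,256,256] 0 (.far [257,0,16,16,0,0,4096,4096] 0 (.conf [66,132,188] .stop))))))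
 (.lc 3 2 (.lc 3 12 (.lc 1 8 (.lc 3 12 (.lc 4 13 .stop))))))
 (.lc 2 4 (.lc 2 4 (.conf [151,171] (.lc 2 4 (.conf [156,203] (.lc 2 4 (.lc 2 4 (.node [151,162,132] 2 8 (.far [1,1,1,0,0,256,256] 0 .stop)
 (.lc 2 4 (.node [151,171,132] 11 8 (.far [1,1,1,0,0,256,256] 0 (.lc 3 2 (.node [66,132,32] 10 11 (.node [11] 11 2 (.lc 2 0 .stop)
 (.lc 2 2 .stop))
 (.lc 3 2 (.lc 3 12 (.lc 4 12 .stop))))))
 (.lc 3 4 (.lc 3 4 (.conf [151,184,132] (.lc 3 4 (.lc 3 4 (.lc 3 4 (.lc 3 4 (.lc 4 4 .stop)))))))))))))))))))))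
 (.lc 2 4 (.lc 2 4 (.lc 0 11 (.lc 2 4 (.lc 3 4 .stop))))))
 (.lc 2 0 (.lc 2 0 (.lc 2 0 (.lc 2 0 (.lc 2 0 (.far [257,1,16,257,256,0,0,1,256] 0 (.far [1,1,4112,0,256] 17 (.conf [112,132,152] (.node [120] 7 8 (.far [4112,1,1,4112,0,256] 17 (.conf [132,154,168] (.far [4112,1,1,4112,0,256] 17 (.node [132,168,112] 8 4 (.far [4112,4112,1,1,4128,256,272,1,256] 17 (.lc 0 11 .stop))
 (.conf [132,155,112] .stop)))))
 (.node [120,169,151] 9 7 (.far [1,1,1,4112,0,256] 0 (.conf [132,146,112] (.conf [132,155,184] (.node [132,184,112] 8 4 (.far [4112,1,1,1,4128,256,272,1,256] 0 (.lc 2 2 (.lc 0 2 (.lc 0 12 (.lc 2 2 (.lc 3 2 .stop))))))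
 (.far [1,1,1,4112,0,256] 0 (.conf [132,156,184,203] .stop))))))
 (.lc 3 0 (.lc 3 0 (.node [132,152,41] 8 4 (.far [4112,1,1,4128,256,272,1,256] 17 (.lc 0 10 .stop))
 (.node [132,152,169] 8 4 (.far [4112,1,1,4128,256,272,1,256] 0 (.lc 2 2 (.lc 0 2 (.lc 0 11 (.lc 2 2 (.lc 3 2 .stop))))))
 (.node [120,151,169,42,120,132] 7 8 (.node [152] 4 2 (.far [1,4112,4096,0,4096,4112,0,0,0,16,4096] 17 (.lc 3 2 (.lc 1 9 .stop)))
 (.lc 2 4 (.lc 0 11 (.lc 2 4 (.lc 3 4 .stop)))))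
 (.node [120,151,169,186,120,132] 7 8 (.node [152] 9 8 (.node [132,146,169,186] 9 2 .stop
 (.lc 1 4 (.node [132,156,169,186] 10 9 (.far [1,4112,4128,1,1,8224,0,272,1,256] 0 (.lc 3 2 (.lc 3 13 (.lc 1 8 (.lc 3 13 (.lc 4 14 .stop))))))
 (.lc 2 4 (.lc 2 4 (.conf [151,172] (.lc 2 4 (.conf [157,220] (.lc 2 4 (.lc 2 4 (.node [151,162,186,132] 2 8 (.far [1,1,1,0,0,256,256] 0 .stop)
 (.lc 2 4 (.node [151,172,186,132] 11 10 (.conf [188,200] (.lc 3 2 (.lc 3 13 (.lc 1 8 (.lc 3 13 (.lc 4 14 .stop))))))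
 (.lc 3 4 (.lc 3 4 (.conf [151,200,132] (.lc 3 4 (.lc 3 4 (.lc 3 4 (.lc 3 4 (.lc 4 4 .stop)))))))))))))))))))))
 (.lc 2 4 (.lc 2 4 (.lc 0 12 (.lc 2 4 (.lc 3 4 .stop))))))
 (.lc 3 0 (.lc 3 0 (.lc 3 0 (.lc 3 0 (.lc 3 0 (.lc 3 0 (.lc 3 0 (.lc 4 0 (.lc 4 0 .stop))))))))))))))))))))))))))))))))))))))
 (.lc 2 5 (.node [97,120,25] 1 9 (.node [151] 9 7 (.lc 2 0 (.node [120] 2 7 .stop
 (.far [1,0,1,4112,0,256] 0 (.node [120] 7 8 (.far [4112,1,0,1,4112,0,256] 0 (.conf [132,160,117] (.conf [132,162,117] (.conf [132,171,184] (.far [4112,1,0,1,4112,0,256] 0 (.node [132,184,117] 8 4 (.node [66,180] 11 4 (.node [178] 10 11 (.node [162] 10 2 (.far [2,513,257,4096,4096,1,4112,4096,0,0,0,4096,0,0,0,257] 4352 (.lc 3 2 (.far [4112,4112,0,0,256,256] 0 (.node [172,192,9,172] 9 10 (.far [1,4112,4112,0,0,256,256] 0 (.lc 1 0 .stop))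
 (.lc 3 2 .stop)))))
 (.far [514,0,4112,4097,1,4112,4096,256,256,0,4096,0,0,0,257] 4352 (.far [16,257,1,16,0,0,0,4096,4096] 17 (.far [1,4112,16,1,0,0,0,256,256] 0 (.far [1,4112,16,1,0,0,0,256,256] 0 (.node [172,192,9] 9 10 (.far [1,8208,4112,256,256,256] 17 (.lc 1 0 .stop))
 .stop))))))
 (.lc 3 4 (.far [16,16,0,0,0,0,0,16,0,0,0,16,4096] 17 (.conf [188,194] (.lc 3 4 (.lc 4 4 (.lc 4 4 .stop)))))))
 (.lc 2 2 (.lc 0 2 (.lc 0 12 (.lc 2 2 (.lc 3 2 (.lc 3 2 .stop)))))))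
 (.conf [132,160,117] (.conf [132,172,117] .stop))))))))
 (.lc 2 5 (.lc 2 5 (.lc 3 2 (.lc 3 10 (.lc 3 2 (.lc 3 11 (.lc 3 0 (.lc 3 0 (.node [132,168] 8 4 (.node [66,164] 10 4 (.node [162] 9 10 (.node [146] 9 2 (.far [258,513,257,4096,257,16,4096,0,0,0,4096,0,0,0,257] 4096 .stop)
 (.far [513,257,4096,257,16,4096,0,0,0,4096,0,0,0,257] 4096 (.far [16,257,1,4096,0,0,4096,4096] 17 (.far [1,4112,16,256,0,0,256,256] 0 .stop))))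
 (.lc 3 4 (.far [16,16,0,0,0,0,16,0,0,0,16,4096] 17 (.conf [171,178] (.lc 4 4 .stop)))))
 (.lc 2 2 (.lc 0 2 (.lc 0 11 (.lc 2 2 (.lc 3 2 (.lc 3 2 .stop)))))))
 (.lc 3 0 (.node [120,167,186,120,132] 7 8 (.node [168] 10 8 (.node [132,160,186] 10 0 .stop
 (.node [132,162,186] 10 2 (.lc 0 0 .stop)
 (.lc 1 4 (.node [132,172,186] 11 10 (.node [188] 8 4 (.node [66] 12 4 (.node [194] 11 12 (.node [178] 11 2 (.far [4112,4096,4112,256,0,16,256,256] 0 .stop)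
 (.far [16,257,4096,4096,4096] 17 (.lc 4 9 .stop)))
 (.lc 3 4 (.far [16,16,0,0,0,0,0,0,0,16,0,0,0,16,4096] 17 (.far [16,16,0,0,0,0,0,0,0,16,0,0,0,16,4096] 0 .stop))))
 (.conf [66,132,194] (.far [4112,0,1,1,0,0,0,256,256] 0 (.far [4112,0,1,1,0,0,0,256,256] 0 (.far [257,0,16,16,0,0,0,4096,4096] 0 (.conf [66,132,192] (.conf [66,132,205] .stop)))))))
 (.lc 3 0 (.lc 3 2 (.lc 3 13 (.lc 1 8 (.lc 3 13 (.lc 4 0 (.lc 4 14 .stop))))))))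
 (.lc 2 4 (.lc 2 4 (.conf [167,188] (.node [132,160,186] 2 8 (.far [16,16,16,0,0,0,4096,4096] 17 .stop)
 (.lc 2 4 (.conf [173,220] (.lc 2 4 (.lc 2 4 (.node [167,176,132] 0 8 (.far [256,0,0,0,0,0,1,4096,1,4112,4096,0,0,257] 4096 .stop)
 (.node [167,178,132] 2 8 (.far [1,1,1,0,0,0,256,256] 0 .stop)
 (.lc 2 4 (.node [167,188,132] 9 11 (.node [156] 12 8 (.far [1,0,1,1,0,0,0,256,256] 0 (.lc 3 2 (.node [66,132,32] 9 12 (.node [194] 12 2 (.far [4096,4096,0,0,0,0,0,1,257,0,0,257,4112,4096,0,0,257] 4096 .stop)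
 (.lc 2 2 (.far [4112,0,4096,4112,16,0,1,257,4112,0,256] 0 .stop)))
 (.lc 3 2 (.lc 3 13 (.lc 4 0 (.lc 4 13 .stop)))))))
 (.lc 3 0 (.lc 3 0 (.lc 1 8 (.lc 3 0 (.lc 4 0 (.lc 4 0 .stop)))))))
 (.lc 3 4 (.lc 3 4 (.node [167,176,9,132] 2 8 (.far [1,4096,4112,1,0,1,4128,256,272,1,256] 0 .stop)
 (.lc 3 4 (.conf [167,200,132] (.lc 3 4 (.lc 3 4 (.lc 3 4 (.lc 3 4 (.lc 4 4 (.lc 4 4 .stop)))))))))))))))))))))))))))
 (.lc 2 4 (.lc 2 4 (.lc 2 4 (.lc 0 12 (.lc 2 4 (.lc 3 4 (.lc 3 4 .stop))))))))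
 (.lc 2 5 (.lc 2 5 (.lc 2 5 (.lc 2 5 (.lc 2 5 (.lc 2 5 (.lc 3 10 (.lc 3 2 (.lc 3 10 (.lc 3 11 (.lc 3 5 (.lc 3 5 (.lc 3 5 (.lc 4 11 (.lc 4 12 (.lc 3 5 (.lc 3 5 (.lc 3 5 (.lc 3 5 (.lc 3 5 (.lc 3 5 (.lc 4 5 .stop)))))))))))))))))))))))))))))))))))))
 (.node [132,151,137] 8 9 .stop
 (.node [151,169] 9 7 (.node [120,146] 9 2 .stop
 (.far [1,0,1,4112,0,256] 0 (.node [120,155] 10 9 (.far [16,257,256,1,0,0,0,4096,0,0,0,257] 16 (.lc 1 7 (.lc 1 7 (.lc 1 7 (.lc 1 7 (.node [172,203] 7 8 (.far [4112,0,1,0,1,4112,0,256] 0 (.lc 0 2 (.lc 0 13 (.lc 0 13 (.lc 0 7 (.node [132,216,117] 8 4 (.node [66,212] 13 4 (.node [210] 11 13 (.node [178] 11 2 .stop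
 (.lc 0 2 .stop))
 (.lc 3 4 (.conf [222,226] (.lc 1 2 .stop))))
 (.lc 2 2 (.lc 0 2 (.lc 0 14 (.lc 2 2 (.lc 3 2 .stop))))))
 (.lc 0 14 .stop)))))))
 (.lc 2 7 .stop)))))))
 (.lc 2 5 (.lc 3 1 (.lc 3 1 (.conf [155,184] (.conf [156,203] (.lc 2 5 (.lc 2 5 (.lc 2 5 (.lc 3 1 (.lc 3 1 (.lc 3 1 (.lc 3 5 (.lc 4 1 (.lc 4 1 (.lc 3 5 (.lc 3 5 (.lc 3 5 (.lc 3 5 (.lc 4 5 .stop))))))))))))))))))))))
 (.node [151,169,151] 9 7 (.node [120,146] 2 7 .stop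
 (.far [1,0,1,4112,0,256] 0 (.lc 2 1 (.node [120,155] 7 8 (.far [4112,1,0,1,4112,0,256] 0 (.conf [132,178,117] (.conf [132,168,186] (.conf [132,188,200] (.far [4112,1,0,1,4112,0,256] 0 (.node [132,200,117] 8 4 (.node [66,196] 12 4 (.node [194] 11 12 (.node [178] 11 2 (.far [1,257,0,0,1,0,4112,4112,257,0,4096] 256 (.conf [1,169] .stop))
 (.conf [10,176] (.far [1,4112,16,1,0,0,0,256,256] 0 (.conf [1,169] .stop))))
 (.lc 3 4 (.conf [205,210] (.lc 3 4 (.lc 4 4 .stop)))))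
 (.lc 2 2 (.lc 0 2 (.lc 0 13 (.lc 2 2 (.lc 3 2 .stop))))))
 (.conf [132,189,117] .stop)))))))
 (.lc 2 5 (.lc 2 5 (.lc 3 2 (.lc 3 11 (.lc 3 2 (.lc 3 12 (.lc 3 1 (.node [132,184] 8 4 (.node [66,180] 11 4 (.node [178] 9 11 (.node [146] 9 2 .stop
 (.lc 0 2 .stop))
 (.lc 3 4 (.conf [188,194] (.lc 1 2 .stop))))
 (.lc 2 2 (.lc 0 2 (.lc 0 12 (.lc 2 2 (.lc 3 2 .stop))))))
 (.lc 3 1 (.node [120,183,203,120,132] 7 8 (.node [184] 11 8 (.node [132,178,203] 11 2 .stop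
 (.lc 1 4 (.node [168,169,186,203] 11 10 .stop
 (.node [132,189,203] 12 11 (.node [205] 8 4 (.node [66] 13 4 (.node [210] 12 13 (.node [194] 12 2 .stop
 .stop)
 (.lc 3 4 (.far [16,16,0,0,0,0,0,0,0,16,0,0,0,16,4096] 0 .stop)))
 (.conf [66,132,210] (.far [4112,0,1,1,0,0,0,256,256] 0 (.far [4112,0,1,1,0,0,0,256,256] 0 (.far [257,0,16,16,0,0,0,4096,4096] 0 (.conf [66,132,222] .stop))))))
 (.lc 3 2 (.lc 3 10 (.lc 3 14 (.lc 1 8 (.lc 3 14 (.lc 4 15 .stop)))))))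
 (.lc 2 4 (.lc 2 4 (.conf [183,205] (.lc 2 4 (.conf [190,237] (.lc 2 4 (.lc 2 4 (.node [183,194,132] 2 8 (.far [1,1,1,0,0,0,256,256] 0 .stop)
 (.lc 2 4 (.conf [168,202] (.node [183,205,132] 9 12 (.node [157] 13 8 (.far [1,0,1,1,0,0,0,256,256] 0 (.lc 3 2 (.node [66,132,32] 9 13 (.far [257,0,256,257,1,0,16,4112,257,0,4096] 0 (.lc 0 14 .stop))
 (.lc 3 2 (.lc 3 14 (.lc 4 14 .stop))))))
 (.lc 3 1 (.lc 3 1 (.lc 1 8 (.lc 3 1 (.lc 4 1 .stop))))))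
 (.lc 3 4 (.lc 3 4 (.conf [183,216,132] (.lc 3 4 (.lc 3 4 (.lc 3 4 (.lc 3 4 (.lc 4 4 .stop)))))))))))))))))))))))
 (.lc 2 4 (.lc 2 4 (.lc 2 4 (.lc 0 13 (.lc 2 4 (.lc 3 4 .stop)))))))
 (.lc 2 5 (.lc 2 5 (.lc 2 5 (.lc 2 5 (.lc 2 5 (.lc 2 5 (.lc 3 11 (.lc 3 2 (.lc 3 11 (.lc 3 12 (.lc 3 5 (.lc 3 5 (.lc 4 12 (.lc 4 13 (.lc 3 5 (.lc 3 5 (.lc 3 5 (.lc 3 5 (.lc 3 5 (.lc 3 5 (.lc 4 5 .stop)))))))))))))))))))))))))))))))))))
 (.far [257,257,0,0,257,4112,4096,0,0,257] 16 (.node [151,169,186] 9 7 (.node [120,146] 9 2 .stop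
 (.far [1,0,1,4112,0,256] 0 (.node [120,156] 10 9 (.far [16,257,272,4096,0,0,0,4096,0,0,0,257] 16 (.lc 3 2 (.lc 3 8 (.lc 3 13 (.lc 1 7 (.lc 3 13 (.lc 4 14 .stop)))))))
 (.lc 2 5 (.lc 3 1 (.lc 3 1 (.conf [156,200] (.conf [157,220] (.lc 2 5 (.lc 2 5 (.lc 2 5 (.lc 3 1 (.lc 3 1 (.lc 3 1 (.lc 3 5 (.lc 4 1 (.lc 4 1 (.lc 3 5 (.lc 3 5 (.lc 3 5 (.lc 3 5 (.lc 4 5 .stop))))))))))))))))))))))
 .stop))))))
 (.conf [120,169,106] (.conf [120,144,105] (.node [120,151,132,97,49] 9 7 (.far [16,256,257,0,1,16,4096] 0 (.lc 1 4 (.lc 1 4 (.lc 1 4 (.lc 3 10 (.lc 2 4 .stop))))))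
 (.conf [120,160,106] (.node [120,151,132,41,96] 9 7 (.node [152] 2 9 (.far [4112,0,16,1,4112,4096,0,0,16,4096] 17 (.lc 0 2 (.lc 1 4 .stop)))
 (.lc 1 4 (.lc 1 4 (.lc 1 4 (.lc 3 10 (.lc 2 4 .stop))))))
 (.node [120,151,169,132,96] 6 0 (.node [] 9 7 (.far [16,257,256,257,0,1,16,4096] 0 (.lc 1 4 (.lc 1 4 (.lc 1 4 (.lc 3 11 (.lc 2 4 .stop))))))
 .stop)
 (.node [120,151,169,132,97,49] 9 7 (.far [16,256,257,0,1,16,4096] 0 (.lc 1 4 (.lc 1 4 (.lc 1 4 (.lc 1 4 (.lc 1 4 (.lc 3 0 (.lc 3 11 (.lc 2 4 (.lc 2 4 (.lc 2 4 (.lc 2 4 .stop))))))))))))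
 (.conf [120,186,107] (.lc 3 5 (.lc 3 5 (.conf [97,120,151] (.conf [97,120,151] (.node [97,120,151,132,16] 7 8 (.far [4112,4096,4112,0,16,1,256] 4097 (.lc 2 4 (.lc 2 4 (.far [4112,4096,4112,0,16,1,256] 4097 (.lc 2 4 (.lc 3 4 .stop))))))
 (.conf [120,151,169] (.far [257,0,0,257,4112,4096,0,0,257] 16 (.node [97,120,151,169,132,26] 9 7 (.node [152] 1 10 (.far [257,0,257,0,0,257,4112,4096,0,0,257] 16 (.lc 2 9 (.node [186] 9 8 (.node [132,146] 9 2 .stop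
 (.lc 1 4 (.node [155,184,186] 9 11 (.lc 0 1 .stop)
 (.node [132,156] 10 9 (.far [1,4112,0,4096,1,4112,0,256] 0 (.lc 3 2 (.lc 3 13 (.lc 3 1 (.lc 1 8 (.lc 3 13 (.lc 4 14 .stop)))))))
 (.lc 2 4 (.lc 2 4 (.lc 3 7 (.lc 3 7 (.lc 2 4 (.conf [157,220] (.lc 2 4 (.lc 2 4 (.lc 3 7 (.lc 2 4 (.lc 3 7 (.lc 3 4 (.lc 3 4 (.lc 4 7 (.lc 3 4 (.lc 3 4 (.lc 3 4 (.lc 3 4 (.lc 4 4 .stop)))))))))))))))))))))))
 (.lc 2 9 (.lc 3 9 .stop)))))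
 (.lc 1 4 (.lc 1 4 (.lc 1 4 (.lc 1 4 (.lc 1 4 (.lc 3 0 (.lc 3 11 (.lc 2 4 (.lc 2 4 (.lc 2 4 (.lc 2 4 .stop))))))))))))
 (.far [257,0,0,257,4112,4096,0,0,257] 16 (.conf [97,169,26] (.node [97,120,151,169,132,16] 9 7 (.node [152] 9 8 (.node [132,146] 9 2 .stop
 (.lc 1 4 (.node [132,155] 10 9 (.node [171] 8 4 (.node [66] 11 4 (.node [178] 10 11 (.node [162] 10 2 (.far [2,514,0,0,513,257,257,4096,0,0,0,4096,0,0,0,257] 4352 .stop)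
 (.lc 3 0 (.lc 3 0 .stop)))
 (.lc 3 4 (.far [16,16,0,0,0,0,0,16,0,0,0,16,4096] 0 (.lc 0 0 .stop))))
 (.conf [66,132,178] (.far [4112,0,1,256,0,256,256] 0 (.far [4112,0,1,256,0,256,256] 0 (.far [257,0,16,4096,0,4096,4096] 0 (.conf [66,132,188] .stop))))))
 (.lc 3 2 (.lc 3 12 (.lc 1 8 (.lc 3 12 (.lc 4 13 .stop))))))
 (.lc 2 4 (.lc 2 4 (.lc 3 7 (.lc 2 4 (.conf [156,203] (.lc 2 4 (.lc 2 4 (.lc 3 7 (.lc 2 4 (.lc 3 7 (.lc 3 4 (.lc 3 4 (.lc 4 7 (.lc 3 4 (.lc 3 4 (.lc 3 4 (.lc 3 4 (.lc 4 4 .stop)))))))))))))))))))))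
 (.lc 1 4 (.lc 1 4 (.lc 1 4 (.lc 3 11 (.lc 2 4 .stop))))))
 (.node [97,120,151,169,186,132,27] 9 7 (.node [152] 1 11 (.node [186] 9 8 (.node [132,144] 9 0 .stop
 (.node [132,146] 9 2 (.lc 0 0 .stop)
 (.lc 1 4 (.node [132,156] 10 9 (.node [172] 8 4 (.node [66] 12 4 (.node [194] 10 12 (.node [162] 10 2 (.lc 0 0 .stop)
 (.far [16,257,4096,4096,4096] 17 (.lc 4 9 .stop)))
 (.lc 3 4 (.far [16,16,0,0,0,0,0,0,16,0,0,0,16,4096] 17 (.far [16,16,0,0,0,0,0,0,16,0,0,0,16,4096] 0 .stop))))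
 (.conf [66,132,194] (.far [4112,0,1,0,256,0,256,256] 0 (.far [4112,0,1,0,256,0,256,256] 0 (.far [257,0,16,0,4096,0,4096,4096] 0 (.conf [66,132,192] (.conf [66,132,205] .stop)))))))
 (.lc 3 0 (.lc 3 2 (.lc 3 13 (.lc 1 8 (.lc 3 13 (.lc 4 0 (.lc 4 14 .stop))))))))
 (.lc 2 4 (.lc 2 4 (.lc 3 7 (.node [132,144] 2 8 (.far [16,16,0,4096,0,4096,4096] 17 .stop)
 (.lc 2 4 (.conf [157,220] (.lc 2 4 (.lc 2 4 (.lc 3 7 (.lc 3 7 (.lc 2 4 (.lc 3 7 (.lc 3 4 (.lc 3 4 (.lc 4 7 (.lc 3 4 (.lc 4 7 (.lc 3 4 (.lc 3 4 (.lc 3 4 (.lc 3 4 (.lc 4 4 (.lc 4 4 .stop)))))))))))))))))))))))))))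
 (.lc 2 10 (.conf [186,203] (.lc 2 10 (.lc 3 10 .stop)))))
 (.lc 1 4 (.lc 1 4 (.lc 1 4 (.lc 1 4 (.lc 1 4 (.lc 3 0 (.lc 3 12 (.lc 2 4 (.lc 2 4 (.lc 2 4 (.lc 2 4 .stop))))))))))))
 .stop)))))))))))))))))))))))))))))))))))))))))))))))))))))))))

theorem t8 : kNode2 awTt FTt 6 7 (check tyTt awTt triet FTt [] c8) (fun _ _ _ => true) 0 s8 Pl.nil s8 =
    true := by
  decide +kernel

end Chk
end Pool.Agent.Lib.MP_ba95e8_co
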