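import Pool.Agent.Lib.MP_ba95e8_co.ChkTab
import Pool.Agent.Lib.MP_ba95e8_co.ChkStates

/-!
Deltahedral domes: part 9 of the case analysis.
-/

namespace Pool.Agent.Lib.MP_ba95e8_co
namespace Chk

/-- certificate number 9 -/
def c9 : Cert := (.node [] 7 8 (.node [112,133] 8 5 (.lc 2 0 (.node [84,130] 2 5 (.lc 0 2 .stop)
 (.lc 1 3 (.node [84,137] 5 4 (.node [] 8 9 (.node [9] 9 4 (.node [146] 9 2 (.far [4096,0,4096,0,0,1,0,257,0,4096,0,0,0,257] 4096 .stop)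
 (.node [66,154] 0 9 (.far [16,257,16,4096,4096] 0 .stop)
 (.conf [66,154,162] (.far [257,4112,4096,4096,1,0,257,0,4096,0,0,0,257] 4096 (.far [16,0,16,0,0,0,0,0,0,0,16,4096] 0 (.node [66,164,186,66,155] 9 11 (.lc 2 10 .stop)
 (.far [257,16,4096,4096] 0 (.node [66,154,32] 9 10 .stop
 (.far [1,4096,0,0,4096,4096] 256 (.conf [66,155,186] .stop))))))))))
 (.far [1,0,257,0,0,1,4096,4096,0,0,0,257] 4096 (.far [4112,0,4112,1,0,256,256] 17 (.far [257,0,257,16,0,4096,4096] 0 (.far [257,0,257,16,0,4096,4096] 0 (.node [148,169,42,128] 9 4 (.far [257,256,4096,1,16,0,4096,4096] 0 (.lc 0 11 .stop))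
 .stop))))))
 (.conf [66,83,154] (.lc 2 2 (.far [4112,1,0,0,0,1,0,1,256] 0 (.far [257,16,0,0,0,16,0,16,4096] 0 (.conf [66,83,155] .stop))))))
 (.lc 1 2 (.conf [83,137,148] (.far [257,0,0,1,4096,4096,0,0,0,257] 4096 (.lc 2 3 (.conf [9,128] (.lc 3 0 (.lc 2 3 (.node [84,149,169,84,138,66] 8 10 (.far [4112,4112,1,0,256,256] 0 (.lc 2 9 (.far [4112,4112,1,0,256,256] 17 (.lc 2 9 (.lc 2 9 (.lc 3 9 (.lc 3 9 .stop)))))))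
 (.lc 3 0 (.node [66,83,137] 8 9 (.far [257,257,16,0,4096,4096] 0 (.lc 2 4 (.far [257,257,16,0,4097,8208,4096,16,4096,0,257] 4096 (.lc 2 4 (.lc 2 4 (.lc 3 4 .stop))))))
 (.conf [4,128] (.conf [1,128] (.conf [83,138,169] (.conf [1,128] (.lc 2 2 (.conf [9,128] .stop))))))))))))))))))))
 (.node [114,133] 7 2 (.far [1,257,0,257,0,4096,0,0,0,257] 4096 .stop)
 (.node [66,72,116] 7 4 (.far [4112,4112,1,4096,4112,1,256] 17 .stop)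
 (.lc 1 5 (.node [121,133] 7 9 (.node [] 8 5 (.node [84,130] 2 5 (.lc 0 2 .stop)
 (.lc 1 3 (.lc 2 5 (.node [84,138] 9 8 (.node [] 10 5 (.node [] 9 10 (.node [164] 10 4 (.far [257,16,257,4096,4096] 0 .stop)
 (.node [146,164] 9 2 (.far [1,257,0,257,0,0,1,0,257,0,4096,0,0,0,257] 4096 .stop)
 (.node [66,148] 9 4 (.far [4112,4112,0,4112,0,1,256] 17 .stop)
 (.node [155,164] 10 4 (.node [66] 9 11 (.node [] 11 4 (.node [178] 11 2 (.far [4096,0,1,0,257,0,257,0,0,1,0,257,0,4096,0,0,0,257] 4096 .stop)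
 (.far [257,0,4096,1,0,257,0,0,1,0,257,0,4096,0,0,0,257] 4096 (.far [16,0,16,0,4096,0,0,0,0,0,0,0,0,0,16,4096] 0 .stop)))
 (.far [1,0,257,0,257,0,0,1,0,257,0,4096,0,0,0,257] 4096 (.far [4112,0,4112,0,4112,0,1,256] 17 (.far [257,0,257,0,257,0,16,4096] 0 (.far [257,0,257,0,257,0,16,4096] 0 (.node [180,203,44,144] 11 4 .stop
 .stop))))))
 (.conf [66,164,178] (.far [4112,1,4112,256,256] 0 (.far [4112,1,4112,256,256] 0 (.far [257,16,257,4096,4096] 0 (.conf [66,164,188] .stop))))))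
 (.node [164,66,146,49] 9 2 (.far [1,256,257,1,4096,0,1,0,257,0,4096,0,0,0,257] 4096 .stop)
 (.conf [164,180,66] (.far [257,0,257,0,0,1,0,257,0,4096,0,0,0,257] 4096 (.conf [144,164,186] (.far [4112,0,4112,0,1,256] 17 (.far [16,257,4096,4096] 0 (.node [156,186,203,156,164] 10 4 (.far [257,16,257,4096,4096] 0 (.lc 2 2 (.lc 0 2 (.lc 0 13 (.lc 2 2 (.lc 3 2 .stop))))))
 (.node [66,164,32,146] 9 2 (.far [257,257,0,257,0,16,4096] 0 .stop)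
 (.node [144,164,4,66] 0 4 (.far [257,1,0,0,0,4096,0,4096] 256 .stop)
 (.far [257,0,257,0,0,1,0,257,0,4096,0,0,0,257] 4096 (.far [256,257,1,4096,16,4096] 0 (.conf [164,178,155] (.conf [66,144,164] (.conf [144,164,186] (.far [4096,4112,16,256,1,256] 17 (.far [257,0,257,0,4112,4096,4096] 256 (.far [256,257,1,4096,16,4096] 0 .stop)))))))))))))))))))))
 (.conf [66,83,171] (.far [16,0,16,0,0,0,0,16,0,16,4096] 0 (.lc 1 2 (.far [1,0,1,0,0,0,0,1,0,1,256] 0 (.conf [66,83,172] .stop))))))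
 (.conf [146,165,133] (.conf [148,165,74] (.conf [155,165,186] (.far [16,257,0,16,0,4096,4096] 0 (.far [1,4112,0,1,0,256,256] 0 (.conf [146,165,133] (.conf [156,165,133] .stop))))))))
 (.lc 1 2 (.lc 3 5 (.conf [83,138,164] (.lc 2 3 (.conf [133,154,165] (.lc 2 3 (.lc 2 3 (.lc 3 5 (.node [84,165,186,84,139,66,152] 9 8 (.far [1,4112,0,1,0,256,256] 0 (.lc 3 2 (.lc 3 4 (.lc 3 12 (.lc 1 10 (.lc 3 12 (.lc 4 2 (.lc 4 13 .stop))))))))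
 (.lc 3 5 (.node [66,83,138] 8 10 (.far [257,257,0,16,0,4096,4096] 0 (.lc 2 4 (.lc 2 4 (.node [155,186] 10 4 (.node [162] 9 11 (.node [186] 11 10 (.node [178] 11 2 (.far [1,257,0,0,4096,0,0,1,0,257,0,4096,0,0,0,257] 4096 .stop)
 (.node [162,188] 10 2 (.node [194] 11 12 .stop
 (.lc 0 13 .stop))
 (.lc 2 2 (.lc 3 0 (.conf [162,202] (.lc 2 2 .stop))))))
 (.lc 2 10 (.lc 2 10 .stop)))
 (.lc 3 0 (.lc 3 12 (.lc 3 4 (.conf [172,194] (.lc 3 12 (.lc 4 13 .stop)))))))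
 (.lc 2 4 (.lc 3 4 .stop))))))
 (.node [83,133,148,66] 9 4 (.far [257,1,16,4096] 0 (.far [1,257,0,0,0,0,0,0,0,1,256] 0 (.node [66,154] 9 10 (.far [257,257,1,16,4096] 0 (.far [1,257,1,4112,4096,4096] 256 (.far [257,257,1,16,4096,0,1,4096,4096,0,0,0,257] 4096 (.far [257,257,1,16,4096] 0 (.far [257,257,1,16,4096] 0 (.far [257,257,1,4128,8208,4096,4096,4096] 256 .stop))))))
 (.lc 2 2 (.lc 2 2 (.lc 3 0 (.lc 3 0 (.far [257,1,16,4096,0,1,4096,4096,0,0,0,257] 4096 (.node [32,66,154,162,32,154] 9 10 (.node [162] 10 2 .stop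
 (.lc 2 2 .stop))
 (.node [66,164,186,66,155] 9 11 (.node [186] 10 4 (.node [162] 11 10 (.node [162,188] 10 2 (.node [194] 11 12 .stop
 (.lc 0 13 .stop))
 (.conf [162,188] (.conf [162,202] (.far [1,0,4096,0,0,4096,0,4096] 256 .stop))))
 (.lc 3 12 (.conf [32,172,194] (.lc 3 12 (.lc 4 13 .stop)))))
 (.lc 2 10 (.node [186] 4 2 .stop
 (.lc 2 10 (.lc 2 10 (.lc 3 10 .stop))))))
 (.lc 2 2 (.lc 2 2 (.lc 2 2 (.lc 3 0 (.lc 3 2 .stop)))))))))))))))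
 (.node [133,146,84] 2 5 (.lc 0 2 .stop)
 (.lc 2 3 (.node [133,154,165] 10 5 (.far [1,1,0,0,0,0,1,0,1,256] 0 (.lc 3 11 (.node [66,180] 9 10 (.node [171] 11 4 (.node [178] 10 11 (.node [172,178] 0 10 .stop
 (.lc 2 2 (.conf [178,203] (.lc 2 2 (.lc 3 0 .stop)))))
 (.lc 3 12 (.conf [188,194] (.lc 3 12 (.lc 4 13 .stop)))))
 (.lc 2 11 (.far [4112,0,4112,1,257,0,256,256] 17 (.lc 2 11 (.lc 2 11 (.lc 3 11 .stop))))))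
 (.lc 1 2 (.lc 3 11 (.lc 4 12 .stop))))))
 (.lc 4 5 (.conf [83,139,186] (.lc 3 3 (.conf [133,165,84] (.lc 2 2 (.conf [83,164,66] (.conf [66,154,164] (.conf [133,154,164] (.node [66,83,155,164] 9 11 (.node [186] 10 4 (.node [162] 11 10 (.node [162,188] 10 2 (.node [194] 11 12 .stop
 (.lc 0 13 .stop))
 (.lc 2 2 (.conf [162,202] (.lc 2 2 .stop))))
 (.lc 3 12 (.conf [172,194] (.lc 3 12 (.lc 4 13 .stop)))))
 (.lc 2 10 (.node [186] 4 2 .stop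
 (.lc 2 10 (.lc 2 10 (.lc 3 10 .stop))))))
 .stop))))))))))))))))))))))))))))
 (.far [1,257,0,257,0,4096,0,0,0,257] 4096 (.node [66,73,152,73,112] 4 9 (.node [66,152] 5 9 (.lc 0 5 .stop)
 (.lc 1 5 (.lc 0 3 .stop)))
 (.node [152,169,112] 9 8 (.node [133,146,169] 9 2 .stop
 (.node [66,72,148,169] 9 4 (.far [4112,4112,4096,16,1,4096,4112,1,256] 0 .stop)
 (.lc 1 5 (.node [133,155,169] 10 9 (.node [171] 8 5 (.node [84] 11 5 (.node [180] 10 11 (.node [66] 10 4 (.node [162] 0 10 (.far [256,257,256,257,4096,0,1,0,1,0,257,0,4096,0,0,0,257] 4096 .stop)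
 (.lc 3 0 (.far [16,4096,4096,0,0,0,0,0,0,0,0,0,0,16,4096] 0 .stop)))
 (.lc 3 2 (.far [16,257,4096,4096,4096] 0 (.lc 3 2 (.lc 3 12 (.lc 4 12 .stop))))))
 (.lc 3 5 (.lc 0 4 (.far [16,16,0,0,0,0,0,0,16,0,16,4096] 0 (.lc 0 4 (.lc 0 12 .stop))))))
 (.conf [83,133,180] (.lc 2 3 (.far [4112,0,1,0,1,0,256,256] 0 (.far [257,0,16,0,16,0,4096,4096] 0 (.conf [83,133,188] .stop))))))
 (.lc 1 8 (.lc 1 8 (.lc 1 8 (.lc 1 8 (.far [1,4112,4096,16,1,4096,4112,1,256] 0 (.lc 2 8 (.lc 2 8 .stop))))))))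
 (.lc 1 3 (.lc 2 5 (.conf [151,184,133] (.far [16,0,16,0,4096,4112,0,16,4112,4096] 0 (.lc 2 5 (.conf [156,203] (.lc 2 5 (.lc 2 5 (.conf [151,162] (.conf [151,164] (.lc 2 5 (.conf [151,171] (.lc 3 5 (.conf [72,133,151] (.lc 3 5 (.conf [151,172] (.lc 2 3 (.lc 3 5 (.lc 3 5 (.lc 3 5 (.lc 4 5 .stop)))))))))))))))))))))))))
 (.far [4112,4112,1,4096,4112,1,256] 17 (.far [4112,4112,1,4096,4112,1,256] 0 (.far [257,257,16,256,257,16,4096] 0 (.far [257,257,16,256,257,16,4096] 0 (.far [16,4112,0,4096,4112,0,16,4112,4096] 17 (.node [152,169,42,112] 4 2 (.far [1,16,4112,0,4096,4112,0,16,4112,4096] 17 (.lc 3 11 (.lc 1 9 (.lc 3 11 (.lc 4 12 .stop)))))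
 (.node [152,169,186,112] 9 8 (.node [133,146,169,186] 9 2 .stop
 (.node [66,72,148,169,186] 9 4 (.lc 0 2 .stop)
 (.lc 1 5 (.node [133,156,169,186] 10 9 (.far [16,257,256,1,16,256,257,16,4096] 0 (.lc 3 2 (.lc 3 4 (.lc 3 13 (.lc 1 8 (.lc 3 13 (.lc 4 2 (.lc 4 14 .stop))))))))
 (.lc 1 3 (.lc 2 5 (.conf [151,172] (.far [16,0,16,0,4096,4112,0,16,4112,4096] 0 (.lc 2 5 (.conf [157,220] (.lc 2 5 (.lc 2 5 (.node [151,162,186,133] 2 8 .stop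
 (.node [66,151,164,186,72] 4 8 (.lc 0 3 .stop)
 (.lc 2 5 (.node [151,172,186,133] 11 10 (.conf [188,200] (.lc 3 2 (.lc 3 4 (.lc 3 13 (.lc 1 8 (.lc 3 13 (.lc 4 2 (.lc 4 14 .stop))))))))
 (.lc 3 5 (.conf [72,133,151] (.lc 3 5 (.conf [151,200,133] (.lc 2 3 (.lc 3 5 (.lc 3 5 (.lc 3 5 (.lc 4 5 .stop)))))))))))))))))))))))))
 .stop)))))))))))
 (.lc 2 5 (.lc 2 5 (.lc 2 5 (.lc 2 5 (.lc 2 5 (.lc 2 5 (.lc 2 5 (.lc 3 0 (.lc 3 0 (.far [4112,1,4096,4112,1,256] 17 (.far [16,0,4096,4112,0,16,4112,4096] 0 (.lc 2 5 (.far [4112,1,4096,4112,1,256] 0 (.node [133,152,169,122] 7 10 (.far [4112,4112,1,4096,4112,1,256] 0 (.lc 2 9 (.lc 2 9 (.lc 2 9 (.far [4112,4112,1,4096,4112,1,256] 17 (.far [4112,4112,1,4096,4112,1,256] 0 (.lc 2 9 (.lc 2 9 (.lc 3 9 (.lc 3 9 (.lc 3 9 .stop)))))))))))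
 (.lc 2 5 (.lc 2 5 (.lc 2 5 (.lc 2 5 (.lc 2 5 (.lc 2 5 (.lc 3 0 (.lc 3 0 (.lc 3 0 (.lc 3 0 (.lc 3 0 (.lc 3 0 (.lc 3 0 (.lc 3 5 (.lc 3 5 (.lc 3 5 (.lc 3 5 (.lc 3 5 (.lc 3 5 (.lc 4 0 (.lc 4 0 (.lc 4 0 (.lc 4 0 (.lc 4 0 (.lc 4 0 (.lc 4 0 (.lc 4 0 (.lc 4 0 (.lc 4 0 (.lc 4 0 (.lc 4 0 (.lc 4 0 (.lc 4 0 (.lc 4 0 (.lc 5 0 (.lc 5 0 (.lc 5 0 .stop))))))))))))))))))))))))))))))))))))))))))))))))))))))))
 (.node [66,71] 1 4 .stop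
 (.lc 1 1 (.node [25] 1 9 (.node [] 7 8 (.node [112,133] 7 0 (.lc 0 0 .stop)
 (.node [114,133] 7 2 .stop
 (.node [66,72,116] 7 4 (.far [4112,4112,0,1,4096,4112,1,256] 0 .stop)
 (.lc 1 5 (.node [113,152] 9 8 (.node [133,144] 8 5 (.node [5,84] 5 4 .stop
 (.far [4112,1,1,0,0,256,256] 17 (.far [257,16,16,0,0,4096,4096] 0 .stop)))
 (.node [133,146] 2 8 .stop
 (.node [66,72,148] 4 8 (.lc 0 3 .stop)
 (.lc 1 5 (.node [133,154] 8 5 (.node [84] 9 10 (.node [] 10 5 (.node [164] 10 4 (.node [66] 0 4 (.far [257,4096,0,1,0,257,1,0,0,257,0,4096,0,0,0,257] 4096 .stop)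
 (.far [1,257,0,4096,1,1,0,0,257,0,4096,0,0,0,257] 4096 (.far [4112,4112,1,256,256] 17 (.far [257,257,16,4096,4096] 0 .stop))))
 (.conf [66,83,160] (.far [16,0,16,0,0,0,0,0,16,0,16,4096] 0 .stop)))
 (.far [1,0,257,1,0,0,257,0,4096,0,0,0,257] 4096 (.node [66,165,74,144] 4 10 (.node [66] 0 4 (.far [257,0,1,0,257,1,0,0,257,0,4096,0,0,0,257] 4096 .stop)
 .stop)
 (.node [165,186,144] 10 5 (.far [4112,4096,256,16,256,1,256] 0 .stop)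
 (.far [4112,0,4112,256,1,256] 17 (.far [4112,0,4112,256,1,256] 0 (.far [257,0,257,4096,16,4096] 0 (.far [257,0,257,4096,16,4096] 0 (.far [16,4112,4096,0,0,0,0,16,0,16,4112,4096] 17 (.node [165,186,43,144] 10 5 (.lc 0 4 .stop)
 (.node [165,186,203,144] 10 5 (.lc 0 4 .stop)
 .stop)))))))))))
 (.conf [83,133,164] (.lc 2 3 (.far [4112,1,1,0,0,256,256] 0 (.far [257,16,16,0,0,4096,4096] 0 (.conf [83,133,171] .stop))))))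
 (.lc 2 5 (.lc 1 3 (.lc 2 5 (.lc 3 0 (.lc 3 0 (.far [4112,256,1,256] 17 (.far [16,16,0,0,4096,4112,0,16,4112,4096] 0 (.lc 2 5 (.far [4112,256,1,256] 0 (.node [133,168,186,133,155] 8 5 (.far [257,16,16,0,0,4096,4096] 0 (.lc 2 3 (.lc 2 3 (.lc 0 12 (.lc 2 3 (.lc 3 3 .stop))))))
 (.lc 2 5 (.lc 2 5 (.lc 3 0 (.lc 3 0 (.lc 2 5 (.lc 3 0 (.lc 3 5 (.lc 3 5 (.lc 4 0 (.lc 3 5 (.lc 4 0 (.lc 4 0 (.lc 3 5 (.lc 2 3 (.lc 3 5 (.lc 3 5 (.lc 3 5 (.lc 4 5 .stop)))))))))))))))))))))))))))))))))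
 (.node [122,133] 9 7 (.node [] 8 5 (.node [84,128] 0 5 .stop
 (.node [84,130] 2 5 (.lc 0 2 .stop)
 (.lc 1 3 (.lc 2 5 (.node [84,139] 10 8 (.node [] 11 5 (.node [] 10 11 (.node [160,180] 10 0 (.node [] 11 4 (.far [257,0,16,257,4096,4096] 0 .stop)
 .stop)
 (.node [162,180] 10 2 (.far [4112,4112,0,4112,0,256,256] 0 .stop)
 (.node [66,164] 10 4 .stop
 (.node [155,180] 9 11 .stop
 (.node [172,180] 9 10 (.node [156] 11 4 (.node [66] 9 12 (.node [196] 12 4 (.far [4112,1,256,256,256] 17 .stop)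
 (.far [4112,0,4112,0,0,0,0,4112,0,1,256] 17 (.far [4112,0,4112,0,0,0,0,4112,0,1,256] 0 .stop)))
 (.conf [66,180,194] (.far [4112,0,1,4112,256,256] 0 (.far [4112,0,1,4112,256,256] 0 (.far [257,0,16,257,4096,4096] 0 (.conf [66,180,192] (.conf [66,180,205] .stop)))))))
 (.conf [144,167,203] (.far [16,257,0,257,0,4096,4096] 0 (.far [16,257,0,257,0,4096,4096] 0 (.far [1,4112,0,4112,0,256,256] 0 (.conf [144,167,203] (.conf [144,167,203] .stop)))))))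
 (.node [180,66,162,49] 10 2 (.far [4112,4096,4112,16,256,256,256] 0 .stop)
 (.conf [180,196,66] (.node [167,180,144] 0 11 (.far [16,256,257,1,4096,4096,4096] 0 .stop)
 (.conf [167,180,203] (.far [4112,0,4112,0,256,256] 0 (.node [160,180] 2 11 (.far [16,16,257,4096,4096] 17 .stop)
 (.far [16,257,4096,4096] 0 (.node [173,203,220,173,180] 9 10 (.far [1,4112,0,4112,0,256,256] 0 (.lc 3 0 (.lc 1 12 (.lc 1 12 (.lc 3 0 (.lc 4 0 (.lc 4 0 .stop)))))))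
 (.node [66,180,32,162] 10 2 (.far [257,257,0,257,0,4096,4096] 0 (.far [1,257,0,257,0,1,4096,16,4096] 0 (.far [4096,0,0,0,0,256,257,0,0,257,0,4096,0,0,0,257] 4096 (.far [257,257,0,257,0,4096,4096] 17 .stop))))
 (.node [167,180,66,148] 9 4 (.far [257,257,257,258,4096,0,2,256,0,514,0,8192,0,0,0,514] 4112 .stop)
 (.node [144,167,180] 0 11 (.far [1,1,4112,256,256] 0 (.far [257,1,16,256,256,0,0,0,0,0,0,0,0,1,256] 0 (.far [256,0,257,1,4096,0,1,0,0,257,0,4096,0,0,0,257] 4096 (.far [1,1,4112,256,256] 17 .stop))))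
 (.far [16,1,4096,4096,0,0,0,0,0,0,0,0,16,4096] 17 (.conf [180,194,172] (.far [4112,0,4112,0,16,256,1,256] 17 (.conf [167,180,203] (.far [4096,4112,16,256,256,256] 0 (.far [256,257,1,4096,4096,4096] 0 (.far [257,257,258,4096,0,2,256,0,514,0,8192,0,0,0,514] 4112 .stop)))))))))))))))))))))))
 (.conf [66,83,176] (.conf [66,83,188] (.far [16,0,16,0,0,0,0,0,16,0,16,4096] 0 (.lc 1 2 (.far [1,0,1,0,0,0,0,0,1,0,1,256] 0 (.conf [66,83,189] .stop)))))))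
 (.conf [160,181,133] (.conf [162,181,133] (.conf [164,181,75] (.conf [172,181,203] (.far [16,257,0,16,0,0,4096,4096] 0 (.far [1,4112,0,1,0,0,256,256] 0 (.conf [160,181,133] (.conf [162,181,133] (.conf [173,181,133] .stop))))))))))
 (.lc 1 2 (.lc 3 5 (.conf [83,139,180] (.lc 2 3 (.conf [133,171,181] (.node [84,128] 2 5 (.lc 0 2 .stop)
 (.lc 2 3 (.lc 2 3 (.lc 3 5 (.node [84,181,203,84,140,66,168] 10 8 (.far [1,4112,0,1,0,0,256,256] 0 (.lc 3 0 (.lc 3 2 (.lc 3 4 (.lc 3 13 (.lc 1 11 (.lc 3 13 (.lc 4 0 (.lc 4 2 (.lc 4 14 .stop))))))))))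
 (.node [66,83,128] 8 0 .stop
 (.lc 3 5 (.node [66,83,139] 8 11 (.far [257,257,0,16,0,0,4096,4096] 0 (.lc 2 4 (.lc 2 4 (.lc 2 4 (.node [172,203] 9 10 (.node [156,203] 9 12 (.node [203] 12 11 (.node [180] 11 4 (.node [178] 11 2 (.far [4096,0,1,0,0,4096,0,0,1,0,0,257,0,4096,0,0,0,257] 4096 .stop)
 (.lc 3 0 (.conf [189,210] .stop)))
 (.lc 2 4 (.far [4112,1,257,256,0,256,256] 17 (.lc 2 4 (.lc 2 4 (.lc 3 4 .stop))))))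
 (.lc 2 9 (.far [4112,4112,0,0,4112,0,1,256] 17 (.conf [203,220] (.lc 1 4 (.lc 2 4 (.lc 2 4 .stop)))))))
 (.lc 3 0 (.lc 1 11 (.lc 1 11 (.lc 3 0 (.lc 4 0 (.lc 4 0 .stop)))))))
 (.lc 2 4 (.lc 3 4 (.lc 3 4 .stop))))))))
 (.node [83,133,164,66] 10 4 (.node [66,160] 0 4 (.far [257,1,1,1,4096,4112,4096] 256 .stop)
 (.far [1,257,0,0,0,0,0,0,0,0,1,256] 0 (.far [257,1,4096,4096] 0 (.node [66,171] 9 10 (.far [16,257,1,4096,4096] 0 (.conf [144,164,180] (.far [16,257,1,4096,4096] 0 (.far [16,257,1,4096,4096] 0 (.node [144,164] 11 4 (.far [1,0,1,257,0,0,0,0,0,0,0,0,1,256] 0 (.node [188,194,66] 0 11 .stop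
 (.node [32,188,194,188] 12 2 .stop
 (.far [1,0,1,257,0,0,0,0,0,0,0,0,1,256] 0 (.node [189,220,66,194] 11 13 .stop
 .stop)))))
 (.conf [144,164,180] (.conf [144,164,180] .stop)))))))
 (.lc 2 2 (.lc 2 2 (.lc 3 4 (.lc 3 4 (.lc 3 4 (.node [66,144] 0 4 (.far [257,4096,0,256,257,0,0,257,0,4096,0,0,0,257] 4096 .stop)
 (.far [1,1,0,1,0,0,258,4096,8192,0,0,16,513] 4096 (.node [32,66,171,178,32,171] 9 10 (.node [155,178] 9 11 (.node [178] 11 2 (.far [4096,1,257,0,0,256,257,0,0,257,0,4096,0,0,0,257] 4096 .stop)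
 (.lc 2 2 (.conf [178,203] .stop)))
 (.lc 3 0 (.lc 1 2 (.lc 1 2 (.lc 3 0 (.lc 4 0 .stop))))))
 (.node [66,180,203,66,172] 9 10 (.node [156,203] 9 12 (.node [203,180] 12 11 (.node [180] 11 4 (.node [178] 11 2 (.far [4096,0,4096,1,257,0,0,256,257,0,0,257,0,4096,0,0,0,257] 4096 .stop)
 (.lc 3 0 (.conf [189,210] .stop)))
 (.lc 2 4 (.far [4112,1,258,4112,16,512,513,0,0,256,256] 17 (.lc 2 4 (.lc 2 4 (.lc 3 4 .stop))))))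
 (.conf [180,201] (.far [4112,4112,0,0,4112,0,1,256] 17 (.conf [203,220] (.far [257,257,0,0,257,0,16,4096] 0 (.far [256,16,257,1,4097,8208,16,4096,4096,4096] 0 (.far [256,16,257,1,4097,8208,16,4096,4096,4096] 0 .stop)))))))
 (.lc 3 0 (.lc 1 11 (.lc 1 11 (.lc 3 0 (.lc 4 0 (.lc 4 0 .stop)))))))
 (.lc 2 2 (.lc 2 2 (.lc 2 2 (.lc 2 2 (.lc 3 4 (.lc 3 2 (.lc 3 2 (.lc 3 2 (.lc 4 4 (.lc 4 4 (.lc 3 2 (.lc 3 2 (.lc 3 2 (.lc 3 2 .stop)))))))))))))))))))))))))))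
 (.node [133,160,84] 0 5 .stop
 (.node [133,162,84] 2 5 (.lc 0 2 .stop)
 (.lc 2 3 (.node [133,171,181] 9 10 (.node [155,181] 11 5 (.far [1,0,1,0,0,0,0,0,1,0,1,256] 0 (.lc 3 0 (.lc 3 12 (.node [66,196] 9 11 (.node [188] 11 12 (.node [196] 12 4 (.node [194] 12 2 (.far [1,257,257,16,257,4096,4096,0,1,0,0,257,0,4096,0,0,0,257] 4096 .stop)
 (.lc 3 0 (.conf [205,210] .stop)))
 (.lc 2 4 (.far [4112,1,4096,256,257,0,0,0,0,0,1,0,1,256] 17 (.lc 2 4 (.lc 2 4 (.lc 3 4 .stop))))))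
 (.lc 2 5 (.far [4112,0,4112,0,4112,0,1,256] 17 (.lc 1 4 (.conf [188,219] (.lc 2 5 (.lc 3 5 (.lc 3 5 .stop))))))))
 (.lc 1 2 (.lc 3 12 (.lc 4 13 .stop)))))))
 (.lc 3 0 (.far [4112,0,4112,0,1,256] 0 (.far [16,257,4096,4112,0,0,4096,4096] 0 (.lc 3 0 (.lc 4 0 (.lc 4 0 .stop)))))))
 (.lc 4 5 (.conf [83,140,203] (.node [133,160,9,84] 2 5 (.lc 0 2 .stop)
 (.lc 3 3 (.conf [133,181,84] (.lc 2 2 (.conf [83,180,66] (.node [66,83,160] 0 4 (.lc 2 9 .stop)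
 (.conf [66,171,180] (.conf [133,171,180] (.node [66,83,172,180] 9 10 (.node [156,203] 9 12 (.node [203] 12 11 (.node [180] 11 4 (.node [178] 11 2 (.far [4096,0,4096,1,257,0,256,257,0,0,257,0,4096,0,0,0,257] 4096 .stop)
 (.lc 3 0 (.conf [189,210] .stop)))
 (.lc 2 4 (.far [4112,1,258,4112,512,514,0,0,512,513,0,1,256] 17 (.lc 2 4 (.lc 2 4 (.lc 3 4 .stop))))))
 (.lc 2 9 (.far [4112,4112,0,4112,0,1,256] 17 (.conf [203,220] (.lc 1 4 (.lc 2 4 (.lc 2 4 .stop)))))))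
 (.lc 3 0 (.lc 1 11 (.lc 1 11 (.lc 3 0 (.lc 4 0 (.lc 4 0 .stop)))))))
 .stop))))))))))))))))))))))))))))))))))
 (.conf [146,168,113] (.conf [148,168,74] (.conf [155,168,186] (.lc 3 0 (.far [16,257,0,16,256,257,16,4096] 0 (.far [1,4112,0,1,4096,4112,1,256] 0 (.conf [146,168,113] (.conf [156,168,113] .stop)))))))))
 (.lc 2 5 (.lc 2 5 (.lc 2 5 (.lc 2 5 (.lc 2 5 (.lc 2 5 (.lc 2 5 (.lc 2 5 (.lc 2 5 (.lc 3 1 (.lc 3 1 (.node [112,133] 2 8 (.far [4112,16,0,0,4096,4112,0,16,4112,4096] 17 (.far [4112,16,0,0,4096,4112,0,16,4112,4096] 17 (.lc 0 2 .stop)))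
 (.far [16,0,0,4096,4112,0,16,4112,4096] 0 (.lc 2 5 (.far [4112,0,1,4096,4112,1,256] 0 (.node [133,168,186,123,151] 9 7 (.far [1,4112,0,1,4096,4112,1,256] 0 (.lc 3 2 (.lc 3 4 (.lc 3 12 (.lc 3 0 (.lc 1 10 (.lc 3 12 (.lc 4 2 (.lc 4 13 .stop)))))))))
 (.lc 2 5 (.lc 2 5 (.lc 2 5 (.lc 2 5 (.lc 2 5 (.lc 2 5 (.lc 2 5 (.lc 2 5 (.lc 3 1 (.lc 3 1 (.lc 3 1 (.lc 3 1 (.lc 3 1 (.lc 3 1 (.lc 3 1 (.lc 3 1 (.lc 3 5 (.lc 3 5 (.lc 3 5 (.lc 3 5 (.lc 3 5 (.lc 3 5 (.lc 3 5 (.lc 3 5 (.lc 4 1 (.lc 4 1 (.lc 4 1 (.lc 4 1 (.lc 4 1 (.lc 4 1 (.lc 4 1 (.lc 4 1 (.lc 4 1 (.lc 4 1 (.lc 4 1 (.lc 4 1 (.lc 4 1 (.lc 4 1 (.lc 4 1 (.lc 5 1 (.lc 5 1 (.lc 5 1 .stop))))))))))))))))))))))))))))))))))))))))))))))))))))))))))))))))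
 (.node [66,73,151,73] 4 9 (.node [66,151] 5 9 .stop
 (.conf [66,83] .stop))
 (.node [137,151,137] 8 9 .stop
 (.node [151,169] 9 7 (.node [120,146,169] 9 2 .stop
 (.node [66,71,148,169] 9 4 (.far [16,4112,0,16,0,0,16,4112,4112,4096] 0 .stop)
 (.lc 1 1 (.node [120,155,169] 7 8 (.node [133] 9 11 (.node [171] 10 11 (.lc 2 0 (.node [184] 2 11 .stop
 (.node [66,75] 4 11 (.far [16,16,16,4096,4096] 0 .stop)
 (.lc 1 7 (.node [184] 11 8 (.node [133] 8 5 (.node [84] 12 5 (.node [196] 10 12 (.node [66] 10 4 (.far [4112,4112,0,0,0,4112,16,0,4112,1,256] 17 .stop)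
 (.far [16,257,4096,4096,4096] 0 (.lc 4 0 .stop)))
 (.conf [66,83,197] (.far [16,16,0,0,0,0,0,0,0,0,16,0,16,4096] 0 .stop)))
 (.conf [83,133,196] (.lc 2 3 (.far [4112,1,0,0,1,0,0,0,256,256] 0 (.far [257,16,0,0,16,0,0,0,4096,4096] 0 (.conf [83,133,205] .stop))))))
 (.conf [133,183,197] (.far [4112,1,1,256,256] 0 (.conf [133,183,196] .stop))))
 (.lc 2 7 (.lc 3 2 (.lc 3 5 (.lc 3 2 (.lc 3 4 (.lc 3 13 (.lc 3 0 (.far [16,16,4112,4096,0,0,4096,4112,0,16,4112,4096] 0 (.node [184,203,220,184] 11 8 (.far [257,16,16,4096,4096] 0 (.lc 2 5 (.lc 0 14 (.lc 3 5 .stop))))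
 (.lc 2 7 (.lc 3 2 (.lc 3 4 (.lc 1 5 (.lc 3 12 (.lc 3 12 (.lc 3 2 (.lc 3 12 (.lc 3 4 (.lc 3 12 (.lc 3 13 (.lc 3 7 (.lc 4 12 (.lc 4 4 (.lc 4 2 (.lc 4 14 (.lc 4 2 (.lc 2 5 (.lc 4 13 (.lc 1 3 (.lc 4 12 (.lc 4 4 (.lc 5 12 .stop)))))))))))))))))))))))))))))))))))))
 (.lc 2 8 (.lc 2 8 (.lc 2 8 (.node [172,203] 12 11 (.node [184,194] 2 11 .stop
 (.node [66,184,196] 4 11 (.far [16,16,16,4096,4096] 0 .stop)
 (.far [16,16,4096,4096] 0 (.node [184,205] 11 8 (.far [257,16,16,4096,4096] 0 (.lc 0 5 (.lc 0 14 (.lc 0 4 .stop))))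
 (.conf [205,216] (.lc 3 0 (.lc 3 2 (.lc 3 5 (.lc 3 2 (.lc 3 4 (.lc 3 14 (.conf [75,184] (.conf [184,219] (.far [16,16,4112,4096,0,0,4096,4096] 0 (.lc 3 2 (.lc 3 4 (.lc 1 5 (.lc 3 13 (.lc 3 13 (.lc 3 2 (.lc 3 13 (.lc 3 4 (.lc 3 13 (.lc 3 14 (.conf [66,196] (.lc 4 13 (.lc 4 4 (.lc 4 2 (.lc 4 15 (.lc 4 2 (.lc 2 5 (.lc 4 14 (.lc 1 3 (.lc 4 13 (.lc 4 4 (.lc 5 13 .stop))))))))))))))))))))))))))))))))))))
 (.lc 2 8 (.lc 3 8 (.lc 3 8 .stop))))))))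
 (.lc 2 5 (.lc 2 5 (.lc 2 5 (.lc 2 5 (.far [4112,1,0,1,4096,4112,1,256] 0 (.far [4112,1,0,1,4096,4112,1,256] 0 (.lc 2 5 (.lc 2 5 (.lc 3 5 (.lc 3 5 (.lc 3 5 (.lc 3 5 .stop)))))))))))))
 (.lc 2 1 (.lc 2 1 (.conf [145,183,120] (.far [16,0,16,0,0,16,4112,4112,4096] 0 (.lc 2 1 (.conf [156,203] (.lc 2 1 (.lc 2 1 (.lc 2 1 (.lc 2 1 (.conf [145,162] (.conf [145,164] (.lc 2 1 (.conf [145,171] (.lc 3 1 (.lc 3 1 (.conf [71,120,145] (.lc 3 1 (.conf [145,172] (.lc 3 1 (.lc 3 1 (.lc 3 1 (.lc 3 1 (.lc 3 1 (.lc 4 1 (.lc 4 1 .stop))))))))))))))))))))))))))))))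
 (.node [169,151] 7 8 (.node [114,133] 7 2 .stop
 (.node [66,72,116] 7 4 (.lc 0 2 .stop)
 (.lc 1 5 (.node [113,152] 9 8 (.node [133,146,169] 9 2 .stop
 (.node [66,72,148,169] 9 4 (.lc 0 2 .stop)
 (.lc 1 5 (.far [257,4096,16,4096] 0 (.node [133,155,169] 10 9 (.far [16,257,4096,16,4096] 0 (.lc 3 2 (.lc 3 4 (.lc 3 12 (.lc 1 8 (.lc 3 12 (.lc 4 2 (.lc 4 13 .stop))))))))
 (.lc 1 3 (.lc 2 5 (.lc 2 5 (.lc 3 1 (.far [16,16,0,0,4096,4112,0,16,4112,4096] 0 (.lc 2 5 (.conf [133,171,184] (.conf [156,203] (.lc 2 5 (.lc 2 5 (.lc 3 1 (.lc 3 1 (.lc 2 5 (.lc 3 1 (.lc 3 5 (.lc 3 5 (.lc 4 1 (.lc 3 5 (.lc 4 1 (.lc 2 3 (.lc 3 5 (.lc 3 5 (.lc 3 5 (.lc 4 5 .stop)))))))))))))))))))))))))))))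
 (.node [122,168,169,151] 7 10 (.lc 0 1 .stop)
 (.node [123,133] 9 7 (.node [155] 8 5 (.node [84,130] 2 5 (.lc 0 2 .stop)
 (.lc 1 3 (.node [165,169,155] 8 10 .stop
 (.lc 2 5 (.node [84,140] 11 8 (.node [] 12 5 (.node [] 9 11 (.node [146,188,169] 9 2 .stop
 (.far [257,0,0,0,257,0,16,4096] 0 (.node [156,196,169] 9 12 .stop
 (.node [157,188,169] 10 9 (.far [16,257,0,0,0,257,0,16,4096] 0 (.lc 3 2 (.lc 3 14 (.lc 1 11 (.lc 3 14 (.lc 4 15 .stop))))))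
 (.conf [145,183] (.conf [157,220] (.conf [145,173,219] (.conf [173,188,219] (.conf [158,237] (.node [148,183,196,169,66,148] 9 4 (.lc 0 2 .stop)
 (.far [256,0,257,0,1,4096,16,4096] 0 (.conf [145,162] (.conf [145,172] (.conf [145,173] (.far [16,257,1,4096,4096,4096] 0 (.conf [145,174] (.conf [145,173] (.conf [145,164] (.conf [145,162] .stop)))))))))))))))))))
 (.conf [66,83,202] (.conf [66,83,205] (.far [16,0,16,0,0,0,0,0,16,0,16,4096] 0 (.lc 1 2 (.far [1,0,1,0,0,0,0,0,1,0,1,256] 0 (.conf [66,83,206] .stop)))))))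
 (.conf [178,197,133] (.conf [180,197,76] (.conf [186,197,133] (.conf [189,197,220] (.far [16,257,0,16,0,0,4096,4096] 0 (.far [1,4112,0,1,0,0,256,256] 0 (.conf [178,197,133] (.conf [190,197,133] .stop)))))))))
 (.lc 1 2 (.lc 3 5 (.conf [83,140,196] (.lc 2 3 (.conf [133,188,197] (.lc 2 3 (.lc 2 3 (.lc 3 5 (.node [84,197,220,84,141,66] 11 8 (.far [1,4112,0,1,0,0,256,256] 0 (.lc 3 2 (.lc 3 4 (.lc 3 10 (.lc 3 14 (.lc 1 12 (.lc 3 14 (.lc 4 2 (.lc 4 15 .stop)))))))))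
 (.node [66,83,138,169,155] 8 10 .stop
 (.lc 3 5 (.node [66,83,140] 8 12 (.far [257,257,0,16,0,0,4096,4096] 0 (.lc 2 4 (.lc 2 4 (.lc 2 4 (.node [189,220,155] 9 11 (.node [157,169] 9 13 (.far [257,257,0,0,257,0,16,4096] 0 (.lc 0 12 (.lc 0 14 (.lc 1 4 (.lc 0 14 .stop)))))
 (.lc 3 1 (.lc 1 12 (.lc 1 12 (.lc 3 1 (.lc 4 1 .stop))))))
 (.lc 2 4 (.lc 3 4 .stop)))))))
 (.node [83,133,180,66] 11 4 (.far [1,257,0,0,0,0,0,0,0,0,1,256] 0 (.far [257,1,4096,4096] 0 (.node [66,164,169,155] 11 10 (.far [257,257,1,4096,4096] 0 .stop)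
 (.node [66,188] 9 11 (.far [16,257,1,4096,4096] 0 (.conf [172,196] (.conf [172,196] (.conf [157,220] (.conf [145,172] (.conf [145,173] .stop))))))
 (.lc 2 2 (.lc 3 4 (.lc 3 4 (.lc 3 4 (.node [32,66,188,194,32,188,155] 9 11 (.node [156,169] 9 12 (.far [257,257,0,0,257,0,16,4096] 0 (.lc 0 13 .stop))
 (.lc 3 1 (.lc 1 2 (.lc 1 2 (.lc 3 1 (.lc 4 1 .stop))))))
 (.conf [145,164] (.node [66,196,220,66,189,155] 9 11 (.node [157,220,169,196] 9 13 (.far [257,257,0,0,257,0,16,4096] 0 (.lc 0 12 (.lc 0 14 (.lc 1 4 (.lc 0 14 .stop)))))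
 (.lc 3 1 (.lc 1 12 (.lc 1 12 (.lc 3 1 (.lc 4 1 .stop))))))
 (.lc 2 2 (.lc 2 2 (.lc 2 2 (.lc 2 2 (.lc 2 2 (.lc 3 4 (.lc 3 2 (.lc 3 2 (.lc 3 2 (.lc 4 4 (.lc 4 4 (.lc 3 2 (.lc 3 2 (.lc 3 2 (.lc 3 2 (.lc 4 2 .stop)))))))))))))))))))))))))))
 (.node [133,178,155,84] 2 5 (.lc 0 2 .stop)
 (.lc 2 3 (.node [133,169,186,155,84] 10 5 .stop
 (.node [133,188,197,155] 9 11 (.node [156,169] 12 5 (.far [1,0,1,0,0,0,0,0,1,0,1,256] 0 (.lc 3 10 (.lc 3 13 (.node [66,212] 9 12 (.far [257,0,257,0,257,0,16,4096] 0 (.lc 0 13 (.lc 0 13 (.lc 0 14 (.lc 2 5 (.lc 0 14 .stop))))))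
 (.lc 1 2 (.lc 3 13 (.lc 4 14 .stop)))))))
 (.lc 3 1 (.conf [172,197] (.conf [157,220] (.lc 3 1 (.lc 4 1 .stop))))))
 (.lc 4 5 (.conf [83,141,220] (.lc 3 3 (.conf [133,197,84] (.lc 2 2 (.conf [83,196,66] (.conf [66,164,186] (.conf [66,188,196] (.conf [133,188,196] (.node [66,83,189,196,155] 9 11 (.node [157,169] 9 13 (.far [257,257,0,257,0,16,4096] 0 (.lc 0 12 (.lc 0 14 (.lc 1 4 (.lc 0 14 .stop)))))
 (.lc 3 1 (.lc 1 12 (.lc 1 12 (.lc 3 1 (.lc 4 1 .stop))))))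
 .stop))))))))))))))))))))))))))))))))
 (.lc 3 2 (.lc 3 4 (.lc 3 12 (.lc 3 1 (.far [16,257,0,16,256,257,16,4096] 0 (.lc 3 12 (.lc 4 2 (.lc 4 13 .stop)))))))))
 (.lc 2 5 (.lc 2 5 (.lc 2 5 (.lc 2 5 (.lc 2 5 (.lc 2 5 (.lc 2 5 (.lc 2 5 (.lc 2 5 (.lc 3 1 (.lc 3 1 (.far [16,0,0,4096,4112,0,16,4112,4096] 0 (.lc 2 5 (.lc 0 11 (.node [133,184,203,124,151,169] 9 7 (.far [1,4112,0,1,4096,4112,1,256] 0 (.lc 3 2 (.lc 3 4 (.lc 3 13 (.lc 3 1 (.lc 1 11 (.lc 3 13 (.lc 4 2 (.lc 4 14 .stop)))))))))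
 (.lc 2 5 (.lc 2 5 (.lc 2 5 (.lc 2 5 (.lc 2 5 (.lc 2 5 (.lc 2 5 (.lc 2 5 (.lc 3 1 (.lc 3 1 (.lc 3 1 (.lc 3 1 (.lc 3 1 (.lc 3 1 (.lc 3 1 (.lc 3 1 (.lc 3 5 (.lc 3 5 (.lc 3 5 (.lc 3 5 (.lc 3 5 (.lc 3 5 (.lc 4 1 (.lc 4 1 (.lc 4 1 (.lc 4 1 (.lc 4 1 (.lc 4 1 (.lc 4 1 (.lc 4 1 (.lc 4 1 (.lc 4 1 (.lc 4 1 (.lc 4 1 (.lc 4 1 (.lc 4 1 (.lc 5 1 (.lc 5 1 (.lc 5 1 .stop))))))))))))))))))))))))))))))))))))))))))))))))))))))))))))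
 (.far [257,257,1,4112,4097,256,0,0,257] 16 (.node [151,169,186] 9 7 (.node [120,146,169,186] 9 2 .stop
 (.node [66,71,148,169,186] 9 4 (.lc 0 2 .stop)
 (.lc 1 1 (.node [120,156,169,186] 10 9 (.far [16,257,256,1,1,4112,4097,256,0,0,257] 16 (.lc 3 2 (.lc 3 4 (.lc 3 8 (.lc 3 13 (.lc 1 7 (.lc 3 13 (.lc 4 2 (.lc 4 14 .stop)))))))))
 (.lc 2 1 (.lc 2 1 (.conf [145,172] (.far [16,0,16,0,0,16,4112,4112,4096] 0 (.lc 2 1 (.conf [157,220] (.lc 2 1 (.lc 2 1 (.lc 2 1 (.lc 2 1 (.node [145,162,186,120] 2 7 (.lc 1 5 .stop)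
 (.node [66,145,164,186,71] 4 7 .stop
 (.lc 2 1 (.node [145,172,186,120] 11 10 (.conf [188,199] (.lc 3 2 (.lc 3 4 (.lc 3 8 (.lc 3 13 (.lc 1 7 (.lc 3 13 (.lc 4 2 (.lc 4 14 .stop)))))))))
 (.lc 3 1 (.lc 3 1 (.conf [71,120,145] (.lc 3 1 (.conf [145,199,120] (.lc 3 1 (.lc 3 1 (.lc 3 1 (.lc 3 1 (.lc 3 1 (.lc 4 1 (.lc 4 1 .stop))))))))))))))))))))))))))))))
 .stop)))))))
 (.lc 2 8 (.lc 2 8 (.lc 2 8 (.lc 2 8 (.lc 2 8 (.lc 2 1 (.node [151] 7 8 (.node [114,133,151] 7 2 .stop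
 (.node [66,72,116,151] 7 4 (.lc 0 2 .stop)
 (.lc 1 5 (.node [113,152] 9 8 (.node [133,146] 9 2 (.far [1,257,1,0,257,0,4096,0,0,0,257] 4096 .stop)
 (.node [66,72,148] 9 4 (.far [4112,4112,16,257,4096,4112,1,256] 17 .stop)
 (.lc 1 5 (.node [133,154] 8 5 (.node [84] 9 10 (.node [] 10 5 (.node [164] 10 4 (.node [4,66] 0 4 (.far [257,4096,0,1,0,257,1,0,257,0,4096,0,0,0,257] 4096 .stop)
 (.far [1,257,0,4096,1,1,0,257,0,4096,0,0,0,257] 4096 (.far [4112,4112,1,256,256] 17 (.far [257,257,16,4096,4096] 0 .stop))))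
 (.conf [4,160] (.far [16,0,16,0,0,0,0,16,0,16,4096] 0 .stop)))
 (.lc 2 5 (.lc 2 5 (.lc 2 5 (.far [4112,4112,4096,0,257,0,16,1,256] 17 (.far [4112,4112,4096,0,257,0,16,1,256] 0 (.lc 2 5 (.lc 2 5 (.lc 3 5 (.lc 3 5 (.lc 3 5 .stop)))))))))))
 (.conf [83,133,164] (.lc 2 3 (.far [4112,1,1,0,256,256] 0 (.far [257,16,16,0,4096,4096] 0 (.conf [83,133,171] .stop))))))
 (.lc 1 3 (.lc 2 5 (.lc 3 0 (.lc 3 0 (.far [16,16,0,4096,4112,0,16,4112,4096] 0 (.lc 2 5 (.conf [155,186] (.lc 2 5 (.lc 2 5 (.lc 3 0 (.lc 3 0 (.lc 2 5 (.lc 3 0 (.lc 3 5 (.lc 4 0 (.lc 3 5 (.lc 4 0 (.lc 4 0 (.lc 3 5 (.lc 2 3 (.lc 3 5 (.lc 3 5 (.lc 3 5 (.lc 4 5 .stop))))))))))))))))))))))))))))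
 (.node [122,133,151] 9 7 (.node [154] 8 5 (.node [84,128] 0 5 .stop
 (.node [84,130] 2 5 (.lc 0 2 .stop)
 (.lc 1 3 (.lc 2 5 (.node [84,139] 10 8 (.node [171] 11 5 (.node [] 9 10 (.node [146,171] 9 2 (.far [1,257,0,0,0,256,257,0,257,0,4096,0,0,0,257] 4096 .stop)
 (.lc 1 7 (.node [156,171] 10 11 (.node [180] 9 12 (.node [] 12 11 (.node [66,196] 12 4 (.far [4112,4112,1,256,256] 17 .stop)
 (.far [16,0,16,0,257,4096,4096] 0 (.conf [1,192] .stop)))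
 (.lc 2 11 (.lc 2 11 (.far [4112,4112,4096,0,4096,4112,0,0,257,0,16,1,256] 17 (.far [4112,4112,4096,0,4096,4112,0,0,257,0,16,1,256] 0 (.lc 2 11 (.lc 2 11 (.lc 3 11 (.lc 3 11 .stop)))))))))
 (.conf [180,196,66] (.far [4112,1,0,4112,0,256,256] 0 (.conf [180,194,167] .stop))))
 (.lc 2 7 (.conf [1,144] (.conf [144,171,202] (.conf [157,220] (.lc 2 7 (.lc 2 7 (.far [257,0,0,0,256,257,0,257,0,4096,0,0,0,257] 4096 (.lc 2 7 (.node [144,171] 12 10 (.far [1,1,0,4112,0,256,256] 0 (.lc 3 4 (.lc 3 13 (.lc 4 2 .stop))))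
 (.lc 3 7 (.conf [144,171,202] (.conf [144,171,202] (.lc 3 7 (.lc 3 7 (.lc 3 7 (.lc 4 7 .stop)))))))))))))))))))
 (.conf [66,83,176] (.conf [66,83,188] (.far [16,0,16,0,0,0,0,16,0,16,4096] 0 (.lc 1 2 (.far [1,0,1,0,0,0,0,1,0,1,256] 0 (.conf [66,83,189] .stop)))))))
 (.conf [160,181,133] (.conf [162,181,133] (.conf [164,181,75] (.conf [172,181,203] (.far [16,257,0,16,0,4096,4096] 0 (.far [1,4112,0,1,0,256,256] 0 (.conf [9,160] (.conf [162,181,133] (.conf [173,181,133] .stop))))))))))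
 (.lc 1 2 (.lc 3 5 (.conf [83,139,180] (.lc 2 3 (.conf [133,171,181] (.node [9,84] 2 5 (.lc 0 2 .stop)
 (.lc 2 3 (.lc 2 3 (.lc 3 5 (.node [84,181,203,84,140,66] 10 8 (.far [1,4112,0,1,0,256,256] 0 (.lc 3 0 (.lc 3 2 (.lc 3 4 (.lc 3 13 (.lc 1 11 (.lc 3 13 (.lc 4 0 (.lc 4 2 (.lc 4 14 .stop))))))))))
 (.node [66,83,128] 8 0 .stop
 (.lc 3 5 (.node [66,83,139] 8 11 (.far [257,257,0,16,0,4096,4096] 0 (.lc 2 4 (.lc 2 4 (.lc 2 4 (.node [172,203,154] 9 10 (.node [156] 9 12 (.node [203] 12 11 (.node [180] 11 4 (.node [178] 11 2 (.far [4096,0,1,0,0,4096,0,0,1,0,257,0,4096,0,0,0,257] 4096 .stop)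
 (.lc 3 0 (.conf [189,210] .stop)))
 (.lc 2 4 (.far [4112,1,257,256,0,256,256] 17 (.lc 2 4 (.lc 2 4 (.lc 3 4 .stop))))))
 (.lc 2 9 (.far [4112,4112,0,0,4096,4112,257,4096,4112,1,256] 17 (.conf [203,220] (.lc 1 4 (.lc 2 4 (.lc 2 4 .stop)))))))
 (.lc 3 0 (.lc 1 11 (.lc 3 0 (.lc 4 0 (.lc 4 0 .stop))))))
 (.lc 2 4 (.lc 3 4 (.lc 3 4 .stop))))))))
 (.node [83,133,66] 10 4 (.node [66,160] 0 4 (.far [257,1,1,1,4096,4096] 256 .stop)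
 (.far [1,257,0,0,0,0,0,0,0,1,256] 0 (.lc 2 4 (.node [66,171] 9 10 (.far [16,257,1,4096,4096] 0 (.conf [144,164,180] (.conf [156,203] (.node [144,164] 11 4 (.far [1,0,1,257,0,0,0,0,0,0,0,1,256] 0 (.node [188,194,66] 0 11 .stop
 (.node [32,188,194,188] 12 2 .stop
 (.far [1,0,1,257,0,0,0,0,0,0,0,1,256] 0 (.node [189,220,66,194] 11 13 .stop
 .stop)))))
 (.conf [144,164,180] (.conf [144,164,180] .stop))))))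
 (.lc 2 2 (.lc 2 2 (.lc 3 4 (.lc 3 4 (.lc 3 4 (.far [1,1,0,1,0,258,4096,8192,0,0,16,513] 4096 (.node [32,66,171,178,32,171,154] 9 10 (.node [155] 9 11 (.node [178] 11 2 (.far [4096,1,257,0,0,256,257,0,257,0,4096,0,0,0,257] 4096 .stop)
 (.lc 2 2 (.conf [178,203] .stop)))
 (.lc 3 0 (.lc 1 2 (.lc 3 0 (.lc 4 0 .stop)))))
 (.node [66,180,203,66,172,154] 9 10 (.node [156,203,180] 9 12 (.node [203] 12 11 (.node [180] 11 4 (.node [178] 11 2 (.far [4096,0,4096,1,257,0,0,256,257,0,257,0,4096,0,0,0,257] 4096 .stop)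
 (.lc 3 0 (.conf [189,210] .stop)))
 (.lc 2 4 (.far [4112,1,258,4112,16,512,513,0,256,256] 17 (.lc 2 4 (.lc 2 4 (.lc 3 4 .stop))))))
 (.lc 2 9 (.far [4112,4112,0,0,4096,4112,257,4096,4112,1,256] 17 (.conf [203,220] (.lc 1 4 (.lc 2 4 (.lc 2 4 .stop)))))))
 (.lc 3 0 (.lc 1 11 (.lc 3 0 (.lc 4 0 (.lc 4 0 .stop))))))
 (.lc 2 2 (.lc 2 2 (.lc 2 2 (.lc 2 2 (.lc 3 4 (.lc 3 2 (.lc 3 2 (.lc 3 2 (.lc 4 4 (.lc 4 4 (.lc 3 2 (.lc 3 2 (.lc 3 2 .stop)))))))))))))))))))))))))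
 (.node [133,160,154,84] 0 5 .stop
 (.node [133,162,154,84] 2 5 (.lc 0 2 .stop)
 (.lc 2 3 (.node [133,171,181,154] 9 10 (.node [155] 11 5 (.far [1,0,1,0,0,0,0,1,0,1,256] 0 (.lc 3 0 (.lc 3 12 (.node [66,196] 9 11 (.node [188] 11 12 (.node [196] 12 4 (.node [194] 12 2 (.far [1,257,257,16,257,4096,4096,0,1,0,257,0,4096,0,0,0,257] 4096 .stop)
 (.lc 3 0 (.conf [205,210] .stop)))
 (.lc 2 4 (.far [4112,1,4096,256,257,0,0,0,0,1,0,1,256] 17 (.lc 2 4 (.lc 2 4 (.lc 3 4 .stop))))))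
 (.lc 2 5 (.far [4112,0,4096,4112,0,0,257,0,16,1,256] 17 (.lc 1 4 (.conf [188,219] (.lc 2 5 (.lc 3 5 (.lc 3 5 .stop))))))))
 (.lc 1 2 (.lc 3 12 (.lc 4 13 .stop)))))))
 (.lc 3 0 (.conf [156,203] (.lc 3 0 (.lc 4 0 (.lc 4 0 .stop))))))
 (.lc 4 5 (.conf [83,140,203] (.conf [9,160] (.lc 3 3 (.conf [133,181,84] (.lc 2 2 (.conf [83,180,66] (.node [66,83,160,154] 0 4 (.lc 2 9 .stop)
 (.conf [66,171,180] (.conf [133,171,180] (.node [66,83,172,180,154] 9 10 (.node [156] 9 12 (.node [203] 12 11 (.node [180] 11 4 (.node [178] 11 2 (.far [4096,0,4096,1,257,0,256,257,0,257,0,4096,0,0,0,257] 4096 .stop)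
 (.lc 3 0 (.conf [189,210] .stop)))
 (.lc 2 4 (.far [4112,1,258,4112,512,514,0,512,513,0,1,256] 17 (.lc 2 4 (.lc 2 4 (.lc 3 4 .stop))))))
 (.lc 2 9 (.far [4112,4112,0,4096,4112,257,4096,4112,1,256] 17 (.conf [203,220] (.lc 1 4 (.lc 2 4 (.lc 2 4 .stop)))))))
 (.lc 3 0 (.lc 1 11 (.lc 3 0 (.lc 4 0 (.lc 4 0 .stop))))))
 .stop))))))))))))))))))))))))))))))))))
 (.lc 3 2 (.lc 3 4 (.lc 3 11 (.lc 1 8 (.lc 3 11 (.lc 4 2 (.lc 4 12 .stop))))))))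
 (.lc 2 5 (.lc 2 5 (.lc 2 5 (.lc 2 5 (.lc 2 5 (.lc 2 5 (.lc 2 5 (.lc 3 1 (.far [16,0,4096,4112,0,16,4112,4096] 0 (.lc 2 5 (.conf [133,154,168] (.conf [123,186] (.lc 2 5 (.lc 2 5 (.lc 2 5 (.lc 2 5 (.lc 2 5 (.lc 3 1 (.lc 3 1 (.lc 3 1 (.lc 3 1 (.lc 3 1 (.lc 3 1 (.lc 3 1 (.lc 3 5 (.lc 3 5 (.lc 3 5 (.lc 3 5 (.lc 3 5 (.lc 4 1 (.lc 4 1 (.lc 4 1 (.lc 4 1 (.lc 4 1 (.lc 4 1 (.lc 4 1 (.lc 4 1 (.lc 4 1 (.lc 4 1 (.lc 4 1 (.lc 4 1 (.lc 4 1 (.lc 5 1 (.lc 5 1 (.lc 5 1 .stop))))))))))))))))))))))))))))))))))))))))))))))))))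
 (.lc 2 1 (.lc 2 1 (.node [151] 7 8 (.node [114,133,151] 7 2 .stop
 (.node [66,72,116,151] 7 4 (.lc 0 2 .stop)
 (.lc 1 5 (.far [257,16,256,257,16,4096] 0 (.node [122,133,151] 9 7 (.far [16,257,16,256,257,16,4096] 0 (.lc 3 2 (.lc 3 4 (.lc 3 11 (.lc 1 8 (.lc 3 11 (.lc 4 2 (.lc 4 12 .stop))))))))
 (.lc 2 5 (.lc 2 5 (.lc 2 5 (.lc 2 5 (.lc 2 5 (.lc 2 5 (.lc 2 5 (.lc 3 1 (.far [16,0,4096,4112,0,16,4112,4096] 0 (.lc 2 5 (.conf [133,154,168] (.conf [123,186] (.lc 2 5 (.lc 2 5 (.lc 2 5 (.lc 2 5 (.lc 2 5 (.lc 3 1 (.lc 3 1 (.lc 3 1 (.lc 3 1 (.lc 3 1 (.lc 3 1 (.lc 3 1 (.lc 3 5 (.lc 3 5 (.lc 3 5 (.lc 3 5 (.lc 3 5 (.lc 4 1 (.lc 4 1 (.lc 4 1 (.lc 4 1 (.lc 4 1 (.lc 4 1 (.lc 4 1 (.lc 4 1 (.lc 4 1 (.lc 4 1 (.lc 4 1 (.lc 4 1 (.lc 4 1 (.lc 5 1 (.lc 5 1 (.lc 5 1 .stop))))))))))))))))))))))))))))))))))))))))))))))))))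
 (.node [26,169,151] 1 10 (.node [169] 7 8 (.node [112,133] 7 0 .stop
 (.node [114,133] 7 2 (.lc 0 0 .stop)
 (.node [66,72,116] 7 4 (.lc 0 2 .stop)
 (.lc 1 5 (.far [257,0,16,256,257,16,4096] 0 (.node [123,133] 9 7 (.far [16,257,0,16,256,257,16,4096] 0 (.lc 3 0 (.lc 3 2 (.lc 3 4 (.lc 3 12 (.lc 1 8 (.lc 3 12 (.lc 4 0 (.lc 4 2 (.lc 4 13 .stop))))))))))
 (.lc 2 5 (.lc 2 5 (.lc 2 5 (.lc 2 5 (.lc 2 5 (.lc 2 5 (.lc 2 5 (.lc 2 5 (.lc 2 5 (.lc 2 5 (.lc 3 1 (.node [112,133] 7 0 .stop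
 (.far [16,0,0,4096,4112,0,16,4112,4096] 0 (.lc 2 5 (.lc 0 11 (.conf [124,203] (.lc 2 5 (.lc 2 5 (.lc 2 5 (.lc 2 5 (.lc 2 5 (.lc 2 5 (.lc 2 5 (.lc 3 1 (.lc 3 1 (.lc 3 1 (.lc 3 1 (.lc 3 1 (.lc 3 1 (.lc 3 1 (.lc 3 1 (.lc 3 1 (.lc 3 5 (.lc 3 5 (.lc 3 5 (.lc 3 5 (.lc 3 5 (.lc 3 5 (.lc 3 5 (.lc 3 5 (.lc 3 5 (.lc 4 1 (.lc 4 1 (.lc 4 1 (.lc 4 1 (.lc 4 1 (.lc 4 1 (.lc 4 1 (.lc 4 1 (.lc 4 1 (.lc 4 1 (.lc 4 1 (.lc 4 1 (.lc 4 1 (.lc 4 1 (.lc 4 1 (.lc 4 1 (.lc 4 1 (.lc 4 1 (.lc 4 1 (.lc 5 1 (.lc 5 1 (.lc 5 1 (.lc 5 1 (.lc 5 1 (.lc 5 1 .stop))))))))))))))))))))))))))))))))))))))))))))))))))))))))))))))))))))))))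
 (.lc 2 9 (.lc 2 9 (.lc 2 9 (.node [169,186,169,151] 9 7 (.node [120,146] 2 7 (.lc 1 5 .stop)
 (.node [66,120,148] 4 7 .stop
 (.lc 1 1 (.lc 0 10 (.node [120,156] 7 8 (.far [257,16,0,16,256,257,16,4096] 0 (.lc 2 5 (.lc 2 5 (.lc 2 5 (.lc 2 5 (.lc 0 13 (.lc 2 5 (.lc 3 5 (.lc 3 5 .stop)))))))))
 (.lc 2 1 (.lc 3 0 (.lc 3 2 (.lc 2 1 (.lc 2 1 (.lc 2 1 (.lc 2 1 (.lc 3 2 (.lc 3 4 (.lc 3 11 (.lc 3 13 (.conf [71,120] (.lc 2 1 (.conf [120,199] (.lc 2 1 (.lc 2 1 (.lc 2 1 (.lc 2 1 (.lc 2 1 (.lc 2 1 (.lc 2 1 (.lc 2 1 (.lc 2 1 (.lc 3 11 (.lc 3 12 (.lc 3 2 (.lc 3 12 (.lc 3 4 (.lc 2 1 (.lc 3 12 (.lc 3 13 (.lc 3 1 (.lc 3 1 (.lc 1 1 (.lc 4 12 (.lc 3 1 (.lc 3 1 (.lc 4 2 (.lc 4 14 (.lc 3 1 (.lc 3 1 (.lc 3 1 (.lc 3 1 (.lc 3 1 (.lc 3 1 (.lc 3 1 (.lc 3 1 (.lc 3 1 (.lc 3 1 (.lc 3 1 (.lc 3 1 (.lc 3 1 (.lc 3 1 (.lc 3 1 (.lc 1 1 (.lc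 4 1 (.lc 4 1 (.lc 4 1 .stop)))))))))))))))))))))))))))))))))))))))))))))))))))))))))))))))
 (.lc 2 9 (.lc 3 9 .stop)))))))
 (.lc 2 8 (.lc 2 8 (.lc 2 8 (.lc 2 8 (.lc 2 8 (.node [66,71] 4 7 (.far [257,1,0,0,1,257,256] 4097 (.lc 2 1 .stop))
 (.lc 2 1 (.node [] 7 8 (.node [114,133] 7 2 .stop
 (.node [66,72,116] 7 4 (.far [4112,4112,1,4096,4112,1,256] 4097 .stop)
 (.lc 1 5 (.far [4112,1,4096,4112,1,256] 4097 (.node [122,133] 9 7 (.far [1,4112,1,4096,4112,1,256] 4097 (.conf [146,168,113] (.conf [148,168,74] (.conf [155,168,113] (.node [168,186,113] 10 8 (.node [133,162,186] 10 2 .stop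
 (.node [66,72,164,186] 10 4 (.lc 0 2 .stop)
 (.lc 1 5 (.node [133,172,186] 11 10 (.node [188] 8 5 (.node [84] 12 5 (.node [196] 11 12 (.node [66,180] 11 4 (.far [4112,4096,4112,256,0,16,256,256] 0 .stop)
 (.far [16,257,4096,4096,4096] 0 (.lc 3 9 (.lc 4 9 .stop))))
 (.lc 3 5 (.far [16,16,0,0,0,0,0,0,16,0,16,4096] 0 (.lc 0 9 .stop))))
 (.conf [83,133,196] (.lc 2 3 (.far [4112,0,1,0,1,0,256,256] 0 (.far [257,0,16,0,16,0,4096,4096] 0 (.conf [83,133,205] .stop))))))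
 (.lc 3 2 (.lc 3 4 (.lc 3 13 (.lc 1 8 (.lc 3 13 (.lc 4 2 (.lc 4 14 .stop))))))))
 (.lc 1 3 (.lc 2 5 (.conf [167,188] (.far [16,0,16,0,4096,4112,0,16,4112,4096] 0 (.lc 2 5 (.conf [173,220] (.lc 2 5 (.lc 2 5 (.node [167,178,155,133] 2 8 .stop
 (.node [66,167,180,155,72] 4 8 (.lc 0 3 .stop)
 (.lc 2 5 (.node [167,188,155,133] 9 11 (.node [156] 12 8 (.far [1,0,1,0,1,0,256,256] 0 (.lc 3 4 (.node [66,83] 12 4 (.node [194] 9 12 (.node [146] 9 2 (.far [1,257,0,0,256,257,0,1,0,257,0,4096,0,0,0,257] 4096 .stop)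
 (.lc 3 0 (.lc 3 0 (.lc 3 0 .stop))))
 (.lc 3 4 (.conf [205,210] (.lc 0 0 .stop))))
 (.lc 1 3 (.lc 3 13 (.lc 4 13 .stop))))))
 (.lc 3 2 (.lc 3 4 (.lc 3 13 (.lc 1 8 (.lc 3 13 (.lc 4 2 (.lc 4 14 .stop))))))))
 (.lc 3 5 (.conf [72,133,167] (.lc 3 5 (.conf [167,200,133] (.lc 2 3 (.lc 3 5 (.lc 3 5 (.lc 3 5 (.lc 4 5 .stop)))))))))))))))))))))))))
 (.far [1,4112,1,4096,4112,1,256] 4097 (.conf [146,168,113] (.conf [156,168,113] .stop))))))))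
 (.lc 2 5 (.lc 2 5 (.lc 2 5 (.lc 2 5 (.lc 2 5 (.lc 2 5 (.lc 2 5 (.lc 3 1 (.far [16,0,4096,4112,0,16,4112,4096] 0 (.lc 2 5 (.far [4112,1,4096,4112,1,256] 4097 (.node [133,168,186,123] 7 11 (.far [4112,4112,1,4096,4112,1,256] 4097 (.lc 0 2 (.lc 0 4 (.lc 0 12 (.lc 0 12 (.lc 2 10 (.lc 0 2 (.lc 0 13 .stop))))))))
 (.lc 2 5 (.lc 2 5 (.lc 2 5 (.lc 2 5 (.lc 2 5 (.lc 3 1 (.lc 3 1 (.lc 3 1 (.lc 3 1 (.lc 3 1 (.lc 3 1 (.lc 3 1 (.lc 3 5 (.lc 3 5 (.lc 3 5 (.lc 3 5 (.lc 3 5 (.lc 4 1 (.lc 4 1 (.lc 4 1 (.lc 4 1 (.lc 4 1 (.lc 4 1 (.lc 4 1 (.lc 4 1 (.lc 4 1 (.lc 4 1 (.lc 4 1 (.lc 4 1 (.lc 4 1 (.lc 5 1 (.lc 5 1 (.lc 5 1 .stop))))))))))))))))))))))))))))))))))))))))))))))))))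
 (.lc 3 8 (.lc 3 8 (.lc 3 1 (.node [151,169] 7 8 (.node [114,133,151,169] 7 2 .stop
 (.node [66,72,116,151,169] 7 4 (.lc 0 2 .stop)
 (.lc 1 5 (.node [113,152,169] 9 8 (.node [133,146] 9 2 .stop
 (.node [66,72,148] 9 4 (.lc 0 2 .stop)
 (.lc 1 5 (.node [133,155] 10 9 (.far [16,257,1,4112,256,257,16,4096] 0 (.lc 3 2 (.lc 3 4 (.lc 3 12 (.lc 1 8 (.lc 3 12 (.lc 4 2 (.lc 4 13 .stop))))))))
 (.lc 1 3 (.lc 2 5 (.lc 3 7 (.far [16,16,0,4096,4112,0,16,4112,4096] 0 (.lc 2 5 (.conf [156,203] (.lc 2 5 (.lc 2 5 (.lc 3 7 (.lc 3 7 (.lc 2 5 (.lc 3 7 (.lc 3 5 (.lc 4 7 (.lc 3 5 (.lc 4 7 (.lc 2 3 (.lc 3 5 (.lc 3 5 (.lc 3 5 (.lc 4 5 .stop)))))))))))))))))))))))))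
 (.node [123,133,151,169] 9 7 (.node [155] 10 9 (.node [155,162] 2 9 (.lc 1 8 .stop)
 (.node [66,155,164] 4 9 .stop
 (.node [155,172] 9 11 (.far [257,16,256,257,4112,256,257,16,4096] 0 (.lc 2 8 (.lc 2 8 (.lc 2 8 (.lc 0 13 (.lc 2 8 (.lc 3 8 (.lc 3 8 .stop))))))))
 (.conf [151,172] (.conf [73,155] (.conf [155,162] (.conf [155,164] (.conf [155,173] (.conf [73,155] (.conf [155,201] (.lc 1 8 (.lc 1 8 (.lc 1 8 (.node [151,162,184] 10 2 (.far [257,256,257,0,4096] 4097 .stop)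
 (.node [66,151,164,184] 10 4 (.far [16,4096,4096,4112,0,4096,4112,0,16,4112,4096] 17 .stop)
 (.lc 1 7 (.node [151,172,184] 10 12 (.far [257,256,257,0,4096] 4097 (.lc 2 11 (.node [203] 2 12 (.far [4112,16,4096,4096,4112,0,4096,4112,0,16,4112,4096] 17 (.lc 2 11 (.far [4112,16,4096,4096,4112,0,4096,4112,0,16,4112,4096] 17 (.lc 2 11 (.lc 3 11 .stop)))))
 (.lc 2 11 (.lc 2 11 (.lc 3 11 (.lc 3 11 .stop)))))))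
 (.conf [155,172] (.conf [155,162] (.conf [155,172] (.conf [66,164] (.conf [155,173] (.lc 2 8 (.lc 2 8 (.conf [73,155] (.conf [155,162] (.conf [155,174] (.conf [75,151,184] (.conf [151,184,203] (.lc 2 8 (.lc 2 8 (.lc 2 8 (.lc 2 8 (.lc 2 8 (.lc 2 8 (.lc 2 8 (.lc 2 8 (.lc 2 8 (.lc 3 8 (.lc 3 8 (.lc 3 8 .stop)))))))))))))))))))))))))))))))))))))))))
 (.lc 3 2 (.lc 3 4 (.lc 3 12 (.lc 1 8 (.lc 3 12 (.lc 4 2 (.lc 4 13 .stop))))))))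
 (.lc 2 5 (.lc 2 5 (.lc 2 5 (.lc 2 5 (.lc 2 5 (.lc 2 5 (.lc 2 5 (.lc 3 1 (.far [16,0,4096,4112,0,16,4112,4096] 0 (.lc 2 5 (.conf [133,155,184] (.conf [124,203] (.lc 2 5 (.lc 2 5 (.lc 2 5 (.lc 2 5 (.lc 2 5 (.lc 3 1 (.lc 3 1 (.lc 3 1 (.lc 3 1 (.lc 3 1 (.lc 3 1 (.lc 3 1 (.lc 3 5 (.lc 3 5 (.lc 3 5 (.lc 3 5 (.lc 3 5 (.lc 4 1 (.lc 4 1 (.lc 4 1 (.lc 4 1 (.lc 4 1 (.lc 4 1 (.lc 4 1 (.lc 4 1 (.lc 4 1 (.lc 4 1 (.lc 4 1 (.lc 4 1 (.lc 4 1 (.lc 5 1 (.lc 5 1 (.lc 5 1 .stop))))))))))))))))))))))))))))))))))))))))))))))))))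
 (.lc 3 8 (.lc 3 8 (.lc 3 8 (.lc 3 8 (.lc 3 8 (.lc 3 8 (.lc 4 8 .stop))))))))))))))))))))))))))))))))))

theorem t9 : kNode2 awTt FTt 1 7 (check tyTt awTt triet FTt [] c9) (fun _ _ _ => true) 0 s9 Pl.nil s9 =
    true := by
  decide +kernel

end Chk
end Pool.Agent.Lib.MP_ba95e8_co
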