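import Pool.Agent.Lib.MP_ba95e8_co.ChkTab
import Pool.Agent.Lib.MP_ba95e8_co.ChkStates

/-!
Deltahedral domes: part 0 of the case analysis.
-/

namespace Pool.Agent.Lib.MP_ba95e8_co
namespace Chk

/-- certificate number 0 -/
def c0 : Cert := (.asm [] 0 (.asm [67,50] 1 (.asm [50,67] 2 (.asm [50,67] 3 (.asm [50,67] 4 (.asm [] 5 (.asm [67,50] 6 (.asm [50,84] 7 (.asm [50,84] 8 (.node [67,84,50] 5 4 (.node [67,80,50] 0 4 (.node [67,50,80] 5 0 (.node [86] 5 6 (.node [22,100] 6 4 (.far [16,257,256,256,0,1] 4096 (.far [16,257,256,256,0,1] 4096 .stop))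
 (.lc 2 4 (.conf [23,118] (.lc 2 4 (.lc 3 4 .stop)))))
 (.conf [87,118] .stop))
 (.conf [64,99,80,6] (.conf [67,100] (.conf [50,64] (.conf [50,64] .stop)))))
 (.node [67,86,50] 4 3 (.node [64,86,50] 4 0 (.node [96] 0 3 (.lc 1 0 (.node [99] 5 6 (.node [87,99] 6 3 (.node [50] 5 7 (.far [257,257,256,1,0,1,0,1] 4096 (.lc 2 3 (.conf [24,135] (.lc 2 3 (.lc 3 3 .stop)))))
 (.lc 2 0 (.conf [32,114] (.far [4112,1,256,256,0,256] 0 (.lc 2 0 (.lc 3 0 .stop))))))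
 (.lc 3 1 (.conf [88,135] (.lc 3 1 (.lc 4 1 .stop)))))
 (.lc 2 2 (.far [4112,1,256] 0 (.lc 2 2 (.lc 3 2 .stop))))))
 (.lc 0 7 .stop))
 (.node [71,86,50] 6 4 (.node [103] 5 6 (.node [80,103] 5 0 (.lc 0 0 .stop)
 (.lc 1 4 (.node [88,103] 1 5 (.far [16,257,16,257,256,1] 4096 (.lc 3 0 (.lc 1 6 (.lc 1 6 (.lc 3 0 (.lc 1 6 (.lc 3 0 (.conf [25,152] (.lc 4 0 (.lc 2 6 .stop))))))))))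
 (.lc 2 7 (.lc 2 7 (.lc 2 7 (.lc 0 0 (.lc 3 1 (.lc 3 1 (.conf [88,128] (.lc 2 4 (.lc 2 4 (.node [80,103,134] 5 0 (.lc 0 0 .stop)
 (.conf [89,152] (.lc 2 7 (.lc 2 7 (.lc 2 7 (.lc 0 0 (.lc 3 1 (.lc 0 0 (.lc 3 1 (.lc 3 1 (.lc 3 7 (.lc 3 7 (.lc 3 7 (.lc 3 7 (.lc 0 0 (.lc 4 1 (.lc 0 0 (.lc 4 1 (.lc 0 0 (.lc 4 1 (.lc 0 0 (.lc 4 1 (.lc 0 0 (.lc 4 1 (.lc 0 0 (.lc 5 1 .stop))))))))))))))))))))))))))))))))))))))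
 (.lc 3 0 (.lc 3 8 (.lc 1 3 (.lc 1 3 (.lc 3 0 (.lc 3 8 (.lc 4 8 (.lc 4 0 (.lc 4 9 .stop))))))))))
 (.conf [71,112] (.node [50,64,115,86] 4 0 .stop
 (.conf [72,135] (.node [50,67,86,96] 6 0 (.far [1,257,0,1] 16 (.lc 3 7 (.lc 1 0 (.conf [21,113] (.lc 3 7 (.lc 4 8 .stop))))))
 (.node [50,67,115,86,50] 5 6 (.lc 2 0 (.lc 2 7 (.lc 2 8 (.lc 3 8 (.lc 3 0 (.lc 3 9 (.lc 0 0 (.lc 2 4 (.conf [24,134] (.lc 3 8 (.lc 3 0 (.lc 3 8 (.lc 3 0 (.lc 3 9 (.lc 3 8 (.lc 3 0 (.lc 3 9 (.lc 0 0 (.lc 2 7 (.lc 0 0 (.lc 0 7 (.lc 0 8 (.lc 4 9 (.lc 4 9 (.lc 4 0 (.lc 4 10 (.lc 0 0 (.lc 0 8 (.lc 0 0 (.lc 0 9 (.lc 0 0 (.lc 0 9 (.lc 0 0 (.lc 0 9 (.lc 0 0 (.lc 3 7 (.lc 0 0 (.lc 0 10 .stop))))))))))))))))))))))))))))))))))))))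
 (.conf [71,112] (.conf [64,115,50] (.conf [72,135] (.node [50,71,86] 0 3 .stop
 (.node [50,64,115,86] 4 0 (.node [96] 0 7 (.far [257,0,1,0,1] 4096 (.far [4112,1,256] 0 (.lc 2 3 (.lc 2 3 (.conf [115,135] (.conf [115,135] (.lc 2 3 (.lc 2 3 (.lc 3 3 (.lc 3 3 .stop))))))))))
 (.lc 0 8 .stop))
 (.node [50,72,115,86] 4 8 (.node [104] 7 3 (.node [50,112] 0 3 (.far [256,0,257,257,16,4097] 4096 .stop)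
 (.node [50,118] 6 3 .stop
 (.node [50,121] 3 2 (.far [257,16,257,257,16,4097] 4096 (.lc 0 0 (.lc 0 6 (.lc 0 10 (.lc 0 0 (.lc 0 10 (.far [257,16,257,257,16,4097] 4096 (.conf [32,162] (.lc 0 10 (.lc 0 11 .stop))))))))))
 (.lc 2 2 (.lc 2 2 (.lc 3 6 (.lc 3 9 (.lc 3 0 (.lc 3 6 (.lc 3 10 (.conf [121,144] (.conf [50,147] (.conf [50,147] (.lc 2 2 (.lc 2 2 (.lc 2 2 (.lc 2 2 (.lc 2 2 (.lc 2 2 (.lc 3 9 (.lc 3 0 (.lc 3 9 (.lc 3 0 (.lc 3 10 (.lc 3 2 (.lc 3 2 (.lc 4 10 (.lc 4 10 (.lc 4 0 (.lc 4 11 (.lc 3 2 (.lc 3 2 (.lc 3 2 (.lc 3 2 (.lc 3 2 (.lc 3 2 (.lc 3 2 (.lc 3 2 (.lc 3 2 (.lc 4 2 (.lc 4 2 .stop)))))))))))))))))))))))))))))))))))))))))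
 (.lc 0 0 (.lc 0 9 (.lc 0 0 (.lc 0 9 (.lc 2 7 (.lc 2 7 (.lc 0 9 (.lc 0 0 (.lc 0 10 .stop))))))))))
 (.conf [50,67] (.conf [50,67] (.node [50,67,96,86] 6 0 (.lc 2 1 (.lc 2 7 (.lc 3 7 (.lc 0 7 (.lc 3 7 (.lc 3 8 (.lc 3 7 (.lc 1 0 (.lc 4 8 .stop)))))))))
 (.node [50,67,103,86] 5 6 (.lc 2 0 (.lc 2 8 (.lc 3 0 (.lc 3 8 (.lc 0 0 (.lc 2 7 (.lc 3 8 (.lc 3 0 (.lc 3 9 (.lc 3 0 (.lc 3 8 (.far [256,257,0,1] 4096 (.lc 0 0 (.lc 0 8 (.lc 4 8 (.lc 4 0 (.lc 4 9 (.lc 0 0 (.lc 0 9 (.lc 0 0 (.lc 0 8 (.lc 0 0 (.lc 0 8 (.lc 0 0 (.lc 2 3 (.lc 0 0 (.lc 0 9 .stop)))))))))))))))))))))))))))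
 (.conf [72,135] (.conf [72,128] (.node [50,64,115,135,86] 4 0 .stop
 (.conf [73,152] (.node [50,67,103,112,86] 7 0 (.node [113] 6 7 (.lc 2 2 (.lc 2 8 (.lc 3 8 (.lc 0 8 (.lc 3 9 .stop)))))
 (.lc 1 0 (.lc 3 8 (.conf [21,129] (.lc 3 8 (.lc 4 9 .stop))))))
 (.node [50,96,115,86,50] 6 0 (.lc 2 1 (.lc 3 8 (.lc 1 0 .stop)))
 (.node [50,104,115,86,50] 5 6 (.lc 2 0 (.lc 2 9 (.lc 3 0 (.lc 3 9 (.lc 0 0 (.lc 2 8 (.lc 3 9 (.lc 3 0 (.lc 3 10 (.lc 3 0 (.lc 3 9 (.lc 1 7 (.lc 0 0 (.lc 0 9 (.lc 4 9 (.lc 4 0 (.lc 4 10 (.lc 0 0 (.lc 0 10 (.lc 0 0 (.lc 0 9 (.lc 0 0 (.lc 0 9 (.lc 0 0 (.conf [25,152] (.lc 0 0 (.lc 0 10 .stop)))))))))))))))))))))))))))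
 (.conf [50,67] (.conf [50,67] (.conf [50,67] (.conf [50,67] (.conf [50,67] (.conf [50,67] (.conf [50,67] (.conf [50,67] (.conf [50,67] (.conf [50,67] (.conf [50,67] (.conf [50,67] (.conf [50,67] .stop)))))))))))))))))))))))))))))))))))))
 (.conf [67,86] (.conf [67,80] (.conf [67,87] (.conf [67,86] (.conf [67,80] (.conf [67,87] (.node [67,86,96,50,86,67] 0 4 .stop
 (.node [67,100,50,67,80] 5 0 .stop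
 (.node [67,100,50,67,87] 5 7 (.lc 2 0 (.lc 2 8 (.lc 3 8 (.lc 3 0 (.lc 3 9 (.lc 0 0 (.conf [24,135] (.lc 3 8 (.lc 3 0 (.lc 3 9 (.lc 3 8 (.lc 3 0 (.lc 3 9 (.lc 0 0 (.lc 2 6 (.lc 0 0 (.lc 0 8 (.lc 4 9 (.lc 4 9 (.lc 4 0 (.lc 4 10 (.lc 0 0 (.lc 0 9 (.lc 0 0 (.lc 0 9 (.lc 0 0 (.lc 0 9 (.lc 0 0 (.lc 3 6 (.lc 0 0 (.lc 0 10 .stop)))))))))))))))))))))))))))))))
 (.conf [67,86] (.conf [67,80] (.conf [67,87] (.node [67,86,96,50] 0 4 (.node [50] 5 6 (.far [257,16,256,1] 4096 (.node [23,96,3,50] 0 1 .stop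
 (.conf [23,118] (.conf [23,118] (.conf [24,135] .stop)))))
 (.node [50,115,7] 0 7 (.lc 2 1 (.far [4112,4112,257] 0 (.lc 3 1 (.lc 0 8 (.lc 3 1 (.lc 0 8 (.lc 3 1 (.lc 2 3 (.lc 4 1 (.lc 0 9 .stop))))))))))
 .stop))
 (.node [67,80,100,50] 5 0 (.lc 0 0 .stop)
 (.node [67,87,100,50] 5 7 (.node [23,118] 6 4 (.far [16,257,256,1] 4096 (.lc 3 0 (.lc 3 8 (.far [16,257,256,1] 4096 (.conf [104,131] (.lc 3 0 (.lc 3 8 (.lc 4 8 (.lc 4 0 (.lc 4 9 .stop))))))))))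
 (.lc 0 0 (.node [24,118] 6 4 (.node [99,50] 1 8 (.far [257,16,1,256,1] 16 (.lc 1 3 (.lc 2 7 (.node [135,152] 8 7 (.lc 1 6 (.lc 0 2 (.lc 1 6 (.lc 1 6 (.lc 0 2 (.lc 3 1 (.conf [138,166] (.lc 1 7 (.lc 2 6 (.lc 0 2 (.lc 2 6 (.lc 1 7 (.lc 2 6 (.lc 2 6 (.lc 1 3 (.lc 1 3 (.lc 1 3 (.lc 3 2 (.lc 1 3 (.lc 3 10 (.lc 2 6 (.lc 2 6 (.lc 1 2 (.lc 2 6 (.lc 2 3 (.lc 2 3 (.lc 2 7 (.lc 1 10 (.lc 3 6 (.lc 1 2 (.lc 4 11 (.lc 2 3 (.lc 2 3 (.lc 2 3 (.lc 2 3 (.lc 3 3 .stop))))))))))))))))))))))))))))))))))))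
 (.lc 2 7 (.lc 3 7 .stop))))))
 (.node [50,96] 0 1 (.node [135] 0 3 .stop
 (.lc 3 3 (.lc 1 7 .stop)))
 (.conf [50,104,131] (.node [50,105] 1 8 (.node [135] 7 6 (.lc 1 9 (.lc 1 9 (.lc 1 9 (.lc 3 10 (.lc 2 9 (.lc 2 9 (.lc 2 9 (.lc 2 9 (.lc 3 0 (.lc 3 2 (.lc 3 10 (.conf [137,147] (.lc 2 9 (.lc 2 9 (.lc 4 0 (.lc 4 11 (.lc 3 9 (.lc 0 10 (.lc 0 2 (.lc 0 10 (.lc 0 0 (.lc 2 3 (.lc 0 11 .stop)))))))))))))))))))))))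
 (.lc 2 7 (.lc 2 7 (.lc 1 3 (.node [135,168] 7 6 (.lc 1 9 (.lc 1 9 (.lc 1 9 (.lc 3 11 (.lc 2 9 (.lc 2 9 (.lc 2 9 (.lc 3 2 (.lc 3 10 (.lc 3 11 (.conf [137,147] (.lc 2 9 (.lc 2 9 (.lc 4 12 (.lc 3 9 (.lc 0 11 (.lc 0 2 (.lc 0 11 (.lc 0 1 (.lc 2 3 (.lc 0 12 .stop)))))))))))))))))))))
 (.lc 2 7 (.lc 2 7 (.lc 3 7 (.lc 3 7 (.lc 3 7 .stop))))))))))
 (.node [50,96] 0 1 (.lc 0 8 .stop)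
 (.lc 0 7 (.node [50,105] 1 8 (.far [257,16,1,256,1] 16 (.lc 1 9 (.lc 2 7 (.lc 2 7 (.node [135,168] 8 7 (.lc 1 6 (.lc 1 6 (.lc 1 6 (.lc 1 6 (.lc 1 4 (.lc 3 1 (.conf [139,182] (.lc 0 2 (.lc 2 6 (.lc 2 6 (.lc 2 6 (.lc 2 6 (.lc 2 6 (.lc 1 9 (.lc 1 9 (.lc 1 9 (.lc 3 2 (.lc 1 4 (.lc 3 11 (.lc 2 6 (.lc 1 7 (.lc 2 6 (.lc 2 6 (.lc 2 9 (.lc 2 9 (.lc 3 6 (.lc 3 6 (.lc 2 4 (.lc 4 12 (.lc 2 9 (.lc 2 9 (.lc 2 9 (.lc 2 9 (.lc 3 9 .stop))))))))))))))))))))))))))))))))))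
 (.lc 2 7 (.lc 2 8 (.lc 3 7 .stop))))))))
 (.node [50,96] 0 1 .stop
 (.lc 0 7 (.node [50,147,50] 1 8 (.node [135] 7 6 (.lc 1 9 (.lc 1 9 (.lc 1 9 (.lc 3 10 (.lc 2 9 (.lc 2 9 (.lc 2 9 (.lc 2 9 (.lc 3 0 (.lc 3 2 (.lc 3 10 (.lc 1 3 (.lc 2 9 (.lc 2 9 (.lc 4 0 (.lc 4 11 (.lc 3 9 (.lc 0 10 (.lc 0 2 (.lc 0 10 (.lc 0 0 (.conf [138,169] (.lc 0 11 .stop)))))))))))))))))))))))
 (.lc 2 7 (.lc 2 7 (.node [135,168] 7 6 (.lc 1 9 (.lc 1 9 (.lc 1 9 (.lc 3 11 (.lc 2 9 (.lc 2 9 (.lc 2 9 (.lc 3 2 (.lc 3 10 (.lc 3 11 (.lc 1 3 (.lc 2 9 (.lc 2 9 (.lc 4 12 (.lc 3 9 (.lc 0 11 (.lc 0 2 (.lc 0 11 (.lc 0 1 (.conf [139,185] (.lc 0 12 .stop)))))))))))))))))))))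
 (.lc 2 7 (.lc 3 7 .stop))))))
 (.lc 0 7 (.node [50,105,144] 0 1 (.lc 1 7 .stop)
 (.lc 1 7 (.lc 1 7 (.node [50,96,147] 0 1 .stop
 (.lc 0 7 (.node [50,106,147] 1 8 (.node [135] 7 6 (.lc 1 10 (.lc 1 10 (.lc 1 10 (.lc 3 11 (.lc 2 10 (.lc 2 10 (.lc 2 10 (.lc 2 10 (.lc 3 0 (.lc 3 2 (.lc 3 11 (.lc 1 9 (.lc 2 10 (.lc 2 10 (.lc 4 0 (.lc 4 12 (.lc 3 10 (.lc 0 11 (.lc 0 2 (.lc 0 11 (.lc 0 0 (.conf [139,186] (.lc 0 12 .stop)))))))))))))))))))))))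
 (.lc 2 7 (.lc 2 7 (.lc 2 7 (.node [135,184] 7 6 (.lc 1 10 (.lc 1 10 (.lc 1 10 (.lc 3 12 (.lc 2 10 (.lc 2 10 (.lc 2 10 (.lc 3 2 (.lc 3 11 (.lc 3 12 (.lc 1 9 (.lc 2 10 (.lc 2 10 (.lc 4 13 (.lc 3 10 (.lc 0 12 (.lc 0 2 (.lc 0 12 (.lc 0 1 (.conf [140,202] (.lc 0 13 .stop)))))))))))))))))))))
 (.lc 2 7 (.lc 3 7 (.lc 3 7 .stop))))))))
 .stop)))))))))))))))))
 (.lc 0 0 (.conf [24,135] (.lc 0 0 (.conf [24,135] (.lc 0 0 (.conf [25,152] .stop)))))))))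
 (.conf [67,86] (.conf [67,80] (.conf [67,87] (.conf [67,87] (.conf [67,87] (.conf [67,80] (.conf [67,88] (.conf [67,87] (.conf [67,87] (.conf [67,80] (.conf [67,88] (.node [67,87,118,50,96] 0 4 (.node [3,50] 5 7 (.conf [23,118] (.lc 2 6 (.conf [24,135] (.lc 2 6 (.lc 3 6 .stop)))))
 (.conf [8,131] .stop))
 (.node [67,87,100,112,50] 5 7 (.conf [23,112] (.lc 2 0 (.conf [24,135] (.lc 2 0 (.lc 3 0 .stop)))))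
 (.node [67,80,100,118,50] 5 0 (.lc 0 0 .stop)
 (.node [67,88,100,118,50] 5 8 (.conf [24,135] (.lc 0 0 (.lc 2 7 (.lc 0 0 (.conf [25,152] (.lc 0 0 (.lc 2 7 (.lc 0 0 (.lc 3 7 .stop)))))))))
 (.node [67,87,118,50,96] 0 4 .stop
 (.node [67,87,100,112,50] 5 7 (.conf [23,112] (.lc 2 0 (.conf [24,135] (.lc 2 0 (.lc 3 0 .stop)))))
 (.node [67,80,100,118,50] 5 0 (.lc 0 0 .stop)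
 (.node [67,88,100,135,50] 5 8 (.conf [24,135] (.lc 0 0 (.lc 2 7 (.lc 0 0 (.conf [25,152] (.lc 0 0 (.lc 2 7 (.lc 0 0 (.lc 3 7 .stop)))))))))
 (.node [67,87,118,50,96] 0 4 .stop
 (.node [67,87,100,112,50] 6 4 (.node [99,50] 0 6 (.lc 1 3 (.lc 1 2 (.lc 2 3 .stop)))
 (.lc 3 8 (.node [50,104] 0 6 (.lc 1 8 (.conf [40,131] (.lc 2 8 (.lc 1 3 (.lc 2 3 .stop)))))
 (.lc 3 8 (.lc 4 9 .stop)))))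
 (.node [67,80,100,118,50] 5 0 (.lc 0 0 .stop)
 (.node [67,88,100,118,50] 6 4 (.node [99,50] 5 8 (.conf [24,135] (.lc 0 0 (.node [25,135] 1 9 (.far [257,1,16,256,1] 16 (.lc 1 6 (.lc 2 8 (.node [152,169] 9 8 (.lc 1 7 (.lc 0 2 (.lc 1 7 (.lc 1 7 (.lc 3 1 (.conf [155,183] (.lc 1 8 (.lc 2 7 (.lc 0 2 (.lc 2 7 (.lc 1 8 (.lc 2 7 (.lc 2 7 (.lc 1 6 (.lc 0 2 (.lc 1 6 (.lc 1 6 (.lc 3 2 (.lc 0 2 (.lc 3 11 (.lc 2 7 (.lc 2 7 (.lc 1 2 (.lc 2 7 (.lc 1 7 (.lc 2 6 (.lc 2 6 (.lc 2 8 (.lc 1 11 (.lc 3 7 (.lc 1 7 (.lc 4 12 (.lc 2 6 (.lc 2 6 (.lc 1 2 (.lc 2 6 (.lc 1 7 (.lc 2 6 (.lc 0 2 (.lc 2 6 (.lc 2 7 (.lc 1 11 (.lc 3 6 .stop)))))))))))))))))))))))))))))))))))))))))))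
 (.lc 2 8 (.lc 3 8 .stop))))))
 (.lc 0 0 (.conf [25,152] (.lc 0 0 (.conf [25,152] (.lc 0 0 (.conf [26,169] .stop)))))))))
 (.lc 3 0 (.lc 3 9 (.node [50,96] 0 3 .stop
 (.node [50,105] 5 8 (.conf [24,135] (.lc 0 0 (.lc 1 3 (.node [26,135] 1 10 (.far [257,1,16,256,1] 16 (.lc 1 6 (.lc 1 3 (.lc 2 8 (.node [168,186] 10 8 (.lc 1 7 (.lc 1 7 (.lc 1 7 (.lc 1 7 (.lc 3 1 (.conf [172,199] (.lc 0 2 (.lc 2 7 (.lc 2 7 (.lc 2 7 (.lc 2 7 (.lc 2 7 (.lc 1 6 (.lc 1 6 (.lc 1 6 (.lc 1 6 (.lc 3 2 (.lc 0 3 (.lc 3 12 (.lc 2 7 (.lc 1 8 (.lc 2 7 (.lc 2 7 (.lc 2 6 (.lc 2 6 (.lc 3 7 (.lc 3 7 (.lc 4 13 (.lc 2 6 (.lc 1 7 (.lc 2 6 (.lc 2 6 (.lc 0 2 (.lc 2 6 (.lc 2 6 (.lc 2 6 (.lc 3 6 (.lc 3 6 .stop))))))))))))))))))))))))))))))))))))))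
 (.lc 2 8 (.lc 3 8 .stop)))))))
 (.lc 0 0 (.conf [26,168] (.lc 0 0 (.conf [26,168] (.lc 0 0 (.conf [27,186] .stop))))))))))
 (.lc 3 0 (.lc 3 9 (.lc 4 9 (.lc 4 0 (.lc 4 10 .stop))))))))))
 (.node [67,88,135,50,118,96] 0 4 .stop
 (.node [67,88,100,135,50,112] 5 8 (.conf [24,135] (.lc 2 7 (.conf [25,152] (.lc 2 7 (.lc 3 7 .stop)))))
 (.node [67,88,100,118,128,50] 5 8 (.conf [24,128] (.lc 2 0 (.conf [25,152] (.lc 2 0 (.lc 3 0 .stop)))))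
 (.node [67,80,100,118,135,50] 5 0 (.lc 0 0 .stop)
 (.node [67,89,100,118,135,50] 5 9 (.conf [25,152] (.lc 0 0 (.lc 2 8 (.lc 0 0 (.conf [26,169] (.lc 0 0 (.lc 2 8 (.lc 0 0 (.lc 3 8 .stop)))))))))
 .stop)))))))))))))))))))))))))))))))))))))))))))))
 (.node [50,67,84,67,50] 5 4 (.node [80,67,50] 5 0 (.lc 2 6 (.lc 3 7 .stop))
 (.node [86,67,50] 4 3 (.node [50,64] 4 0 (.conf [3,96] (.lc 2 7 (.lc 3 0 (.conf [3,112] (.lc 3 8 (.lc 3 0 (.lc 4 0 .stop)))))))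
 (.lc 2 3 (.node [50,71] 3 2 (.lc 2 0 (.lc 2 6 (.lc 2 8 (.lc 3 6 (.lc 3 8 (.lc 2 0 (.lc 2 0 (.lc 2 0 (.far [4096,1,0,1] 4096 (.lc 1 4 (.conf [32,130] (.lc 3 6 (.lc 3 8 (.lc 3 8 (.lc 3 6 (.lc 3 9 (.lc 3 6 (.lc 3 8 (.lc 2 0 (.lc 2 0 (.lc 2 0 (.far [4096,1,0,1] 4096 (.lc 2 0 (.lc 2 0 (.far [1,1,0,1] 4096 (.node [32,118] 7 6 (.lc 1 2 (.lc 1 2 (.lc 1 2 (.lc 2 2 (.lc 2 2 (.lc 2 2 (.lc 2 2 .stop)))))))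
 (.node [32,120] 4 7 (.lc 2 0 (.lc 1 8 (.lc 2 9 (.lc 3 0 (.conf [104,130] (.lc 3 9 (.lc 3 3 (.lc 3 3 (.lc 2 8 (.lc 3 9 (.lc 3 0 (.lc 2 8 (.lc 3 10 (.lc 3 0 (.lc 1 2 (.lc 3 9 (.lc 3 3 (.lc 3 3 (.lc 3 3 (.lc 2 2 (.lc 4 9 (.lc 4 0 (.lc 2 2 (.lc 4 10 (.lc 4 3 (.lc 4 3 (.lc 4 3 (.lc 4 3 (.lc 4 3 (.lc 4 3 (.lc 4 3 (.lc 4 3 (.lc 4 3 (.lc 5 3 (.lc 5 3 (.lc 5 3 .stop))))))))))))))))))))))))))))))))))))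
 (.lc 4 8 (.lc 4 6 (.lc 4 9 (.lc 3 0 (.lc 3 0 (.lc 3 0 (.lc 3 0 (.lc 1 4 (.far [4096,1,0,1] 4096 (.lc 2 4 (.lc 1 4 (.conf [32,130] (.lc 1 4 (.far [4096,1,0,1] 4096 (.lc 3 0 (.lc 3 0 (.lc 3 0 (.node [118,96] 7 6 (.lc 1 0 (.lc 1 0 (.lc 2 0 .stop)))
 (.node [120,128] 4 7 (.lc 1 8 (.lc 2 9 (.far [4096,4112,0,1,257] 4096 (.lc 3 9 (.lc 3 3 (.lc 2 8 (.lc 3 10 (.lc 1 0 (.lc 3 9 (.lc 3 3 (.lc 3 3 (.lc 2 0 (.lc 4 10 (.lc 4 3 (.lc 4 3 (.lc 4 3 (.lc 4 3 (.lc 5 3 .stop))))))))))))))))))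
 (.lc 3 0 (.lc 3 0 (.lc 3 0 (.lc 1 4 (.node [120,128] 4 7 (.node [103] 7 8 (.lc 2 1 (.far [4112,4096,4112,0,1,257] 4096 (.lc 2 9 (.lc 0 1 (.lc 3 9 (.lc 0 9 (.lc 3 10 (.lc 3 3 (.lc 0 9 (.lc 3 10 (.lc 1 8 (.lc 3 1 (.lc 2 0 (.lc 3 10 (.lc 3 3 (.lc 1 8 (.lc 3 3 (.lc 0 1 (.lc 0 9 (.lc 0 10 (.lc 4 11 (.lc 0 10 (.lc 0 9 (.lc 0 10 (.lc 0 1 (.lc 0 10 (.lc 2 8 (.lc 4 3 (.lc 0 11 .stop)))))))))))))))))))))))))))))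
 (.lc 2 8 (.lc 2 9 (.lc 2 8 (.lc 3 10 (.lc 3 3 (.lc 3 3 (.lc 2 3 (.lc 3 9 (.node [105,120] 7 8 (.lc 2 1 (.far [4112,4096,4112,0,1,257] 4096 (.lc 2 10 (.lc 2 0 (.lc 3 10 (.lc 2 0 (.lc 3 11 (.lc 3 3 (.lc 0 10 (.lc 3 11 (.lc 1 8 (.lc 3 1 (.lc 2 0 (.lc 3 11 (.lc 3 3 (.lc 3 3 (.lc 3 3 (.lc 3 3 (.lc 3 0 (.lc 4 12 (.lc 4 3 (.lc 4 3 (.lc 4 3 (.lc 2 8 (.lc 4 3 (.lc 4 3 (.lc 4 3 (.lc 5 3 .stop))))))))))))))))))))))))))))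
 (.lc 3 10 (.lc 2 8 (.lc 3 10 (.lc 3 3 (.lc 3 3 (.lc 3 3 (.lc 3 8 (.lc 4 11 (.lc 4 3 (.lc 4 3 (.lc 4 3 (.lc 4 3 (.lc 4 3 (.lc 5 3 .stop))))))))))))))))))))))))
 (.lc 3 0 (.lc 3 0 (.lc 3 0 (.lc 2 4 (.lc 1 4 (.node [121,152,128] 4 7 (.lc 1 9 (.lc 2 10 (.lc 1 8 (.lc 3 10 (.lc 3 3 (.lc 2 9 (.lc 3 11 (.node [105] 6 9 (.far [1,4096,4112,0,1,257] 4096 (.lc 3 1 (.lc 3 10 (.lc 1 0 (.lc 3 10 (.lc 4 11 .stop))))))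
 (.lc 3 10 (.lc 3 3 (.lc 3 3 (.node [106,152] 10 9 (.far [1,4096,4112,0,1,257] 4096 (.lc 1 0 (.lc 1 0 (.lc 1 0 (.lc 3 11 (.lc 2 0 .stop))))))
 (.lc 4 11 (.lc 4 3 (.lc 4 3 (.lc 4 3 (.lc 4 3 (.lc 5 3 .stop))))))))))))))))))
 (.lc 4 0 (.lc 4 0 (.lc 4 0 (.lc 4 0 .stop)))))))))))))))))))))))))))))))))))))))))))))))))))))))))))))
 (.lc 2 2 (.lc 2 2 (.lc 2 2 (.lc 2 2 (.lc 2 2 (.lc 3 7 (.lc 3 0 (.lc 3 8 (.lc 3 3 (.node [50,71,112] 0 3 .stop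
 (.node [50,64,115] 4 0 .stop
 (.lc 3 3 (.node [50,72,115] 4 8 (.lc 2 0 (.node [104] 8 7 (.lc 1 3 (.lc 1 3 (.lc 1 3 (.lc 1 3 (.lc 3 1 (.lc 3 9 (.lc 3 9 (.lc 3 0 (.lc 3 9 (.lc 3 0 (.lc 3 10 (.lc 2 3 (.lc 2 3 (.lc 2 3 (.lc 2 3 (.lc 2 3 (.lc 2 3 (.lc 2 3 (.lc 3 1 (.lc 3 9 (.lc 1 7 (.lc 3 0 (.lc 3 0 (.lc 3 1 (.lc 3 2 (.lc 3 10 (.node [96,115] 0 7 (.lc 0 2 (.lc 3 1 (.far [16,256,16,4096] 0 .stop)))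
 (.node [97,115] 1 7 .stop
 (.node [98,115] 2 7 .stop
 (.lc 1 7 (.node [105,115] 7 3 (.lc 1 2 (.conf [32,146] (.lc 2 2 (.lc 2 2 (.lc 1 0 (.far [4096,4096,4096,0,1,257] 4096 (.lc 2 0 .stop)))))))
 (.lc 0 0 (.lc 0 1 (.lc 0 2 (.lc 0 9 (.lc 4 9 (.lc 4 10 (.lc 4 9 (.lc 4 1 (.lc 4 10 (.lc 4 0 (.lc 4 0 (.lc 4 11 (.lc 0 1 (.lc 0 9 (.lc 0 0 (.lc 0 0 (.lc 0 10 (.lc 0 1 (.lc 0 9 (.lc 0 9 (.lc 0 0 (.lc 0 9 (.lc 0 0 (.lc 0 10 (.lc 0 1 (.lc 0 9 (.lc 0 0 (.lc 0 0 (.lc 0 1 (.lc 0 2 (.lc 0 10 (.conf [21,97] (.node [105,115,144] 0 7 (.far [16,256,16,4096] 0 .stop)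
 (.lc 2 7 (.conf [39,115] (.node [96,115,151] 6 0 (.lc 2 1 (.lc 1 0 (.lc 3 10 (.lc 1 0 .stop))))
 (.node [106,115,151] 7 3 (.lc 1 2 (.lc 0 2 (.lc 2 2 (.lc 2 2 (.lc 1 0 (.lc 0 0 (.lc 2 0 .stop)))))))
 (.lc 0 9 (.lc 0 10 (.lc 0 9 (.lc 0 1 (.lc 0 10 (.lc 0 0 (.lc 0 0 (.lc 0 11 .stop))))))))))))))))))))))))))))))))))))))))))))))))))))))))))))))))))))))))))))
 (.lc 2 9 (.lc 2 7 (.lc 3 9 (.lc 3 0 (.lc 2 7 (.lc 3 10 (.lc 3 3 (.lc 3 3 (.node [96,135] 6 0 (.lc 2 1 (.lc 3 9 (.lc 1 0 .stop)))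
 (.lc 3 9 (.lc 3 0 (.node [105,135] 5 6 (.lc 2 0 (.lc 2 7 (.lc 2 10 (.lc 3 0 (.lc 3 10 (.lc 0 0 (.lc 2 9 (.lc 3 10 (.lc 3 0 (.lc 3 11 (.lc 3 0 (.lc 3 7 (.lc 3 10 (.lc 1 8 (.lc 0 0 (.lc 0 7 (.lc 0 10 (.lc 4 10 (.lc 4 0 (.lc 4 11 (.lc 0 0 (.lc 0 11 (.lc 0 0 (.lc 0 10 (.lc 0 0 (.lc 0 7 (.lc 0 10 (.lc 0 0 (.conf [26,169] (.lc 0 0 (.lc 0 11 .stop)))))))))))))))))))))))))))))))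
 (.lc 3 10 (.lc 2 7 (.lc 3 9 (.lc 3 0 (.lc 2 7 (.lc 3 10 (.lc 3 3 (.lc 3 3 (.lc 3 3 (.lc 3 3 (.lc 3 7 (.lc 4 10 (.lc 3 7 (.lc 4 10 (.lc 4 0 (.lc 3 7 (.lc 4 11 (.lc 4 3 (.lc 4 3 (.lc 4 3 (.lc 4 3 (.lc 4 3 (.lc 4 3 (.lc 4 3 (.lc 4 3 (.lc 4 3 (.lc 4 3 (.lc 4 3 (.lc 4 3 (.lc 5 3 (.lc 5 3 (.lc 5 3 (.lc 5 3 .stop)))))))))))))))))))))))))))))))))))))))))))))))
 (.lc 2 2 (.lc 2 2 (.lc 2 2 (.lc 2 2 (.lc 2 2 (.lc 2 2 (.lc 2 2 (.lc 2 2 (.lc 3 7 (.lc 3 0 (.lc 3 8 (.lc 3 2 (.lc 3 2 (.lc 3 2 (.lc 3 2 (.lc 3 2 (.lc 3 2 (.lc 3 2 (.lc 4 8 (.lc 4 8 (.lc 4 0 (.lc 4 9 (.lc 3 2 (.lc 3 2 (.lc 3 2 (.lc 3 2 (.lc 3 2 (.lc 3 2 (.lc 3 2 (.lc 3 2 (.lc 3 2 (.lc 3 2 (.lc 3 2 (.lc 3 2 (.lc 4 2 (.lc 4 2 (.lc 4 2 (.lc 4 2 (.lc 4 2 .stop)))))))))))))))))))))))))))))))))))))))))))))))))))))))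
 (.node [67,86,96,50] 0 4 (.lc 1 3 (.conf [7,115] (.lc 2 3 (.lc 1 2 (.lc 2 2 .stop)))))
 (.node [67,80,100,50] 5 0 .stop
 (.node [67,87,118,50] 5 7 (.lc 2 0 (.lc 2 8 (.lc 3 8 (.lc 3 0 (.lc 3 9 (.lc 0 0 (.conf [24,135] (.lc 3 8 (.lc 3 0 (.lc 3 9 (.lc 3 8 (.lc 3 0 (.lc 3 9 (.lc 0 0 (.lc 2 6 (.lc 0 0 (.lc 0 8 (.lc 4 9 (.lc 4 9 (.lc 4 0 (.lc 4 10 (.lc 0 0 (.lc 0 9 (.lc 0 0 (.lc 0 9 (.lc 0 0 (.lc 0 9 (.lc 0 0 (.lc 3 6 (.lc 0 0 (.lc 0 10 .stop)))))))))))))))))))))))))))))))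
 (.node [86,96,67,50] 0 4 .stop
 (.node [80,67,100,50] 5 0 (.lc 0 0 .stop)
 (.node [87,100,118,67,50] 5 7 (.conf [23,118] (.lc 0 0 (.node [24,118] 1 8 (.node [135] 8 7 (.lc 1 6 (.lc 1 6 (.lc 0 2 (.lc 1 6 (.lc 3 0 (.conf [137,150] (.lc 1 7 (.lc 2 6 (.lc 0 2 (.lc 2 6 (.lc 2 6 (.lc 1 7 (.lc 2 6 (.lc 2 6 (.lc 1 4 (.lc 1 4 (.lc 0 2 (.lc 1 4 (.lc 3 2 (.lc 0 2 (.lc 3 9 (.lc 2 6 (.lc 2 6 (.lc 1 2 (.lc 2 6 (.lc 2 4 (.lc 1 6 (.lc 2 4 (.lc 2 4 (.lc 2 7 (.lc 1 9 (.lc 3 6 (.lc 1 6 (.lc 4 10 (.lc 2 4 (.lc 2 4 (.lc 1 2 (.lc 2 4 (.lc 1 6 (.lc 2 4 (.lc 0 2 (.lc 2 4 (.lc 2 6 (.lc 1 9 (.lc 3 4 .stop)))))))))))))))))))))))))))))))))))))))))))))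
 (.lc 1 4 (.lc 2 7 (.node [135,152] 8 7 (.lc 1 6 (.lc 0 2 (.lc 1 6 (.lc 1 6 (.lc 3 1 (.conf [138,166] (.lc 1 7 (.lc 2 6 (.lc 0 2 (.lc 2 6 (.lc 1 7 (.lc 2 6 (.lc 2 6 (.lc 1 4 (.lc 0 2 (.lc 1 4 (.lc 1 4 (.lc 3 2 (.lc 0 2 (.lc 3 10 (.lc 2 6 (.lc 2 6 (.lc 1 2 (.lc 2 6 (.lc 1 6 (.lc 2 4 (.lc 2 4 (.lc 2 7 (.lc 1 10 (.lc 3 6 (.lc 1 6 (.lc 4 11 (.lc 2 4 (.lc 2 4 (.lc 1 2 (.lc 2 4 (.lc 1 6 (.lc 2 4 (.lc 0 2 (.lc 2 4 (.lc 2 6 (.lc 1 10 (.lc 3 4 .stop)))))))))))))))))))))))))))))))))))))))))))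
 (.lc 2 7 (.lc 3 7 .stop))))))
 (.lc 0 0 (.conf [24,135] (.lc 0 0 (.conf [24,135] (.lc 0 0 (.conf [25,152] .stop)))))))))
 (.node [86,96,67,50] 0 4 .stop
 (.node [80,67,100,50] 5 0 .stop
 (.node [87,118,67,50] 5 7 (.lc 2 0 (.lc 2 8 (.lc 3 8 (.lc 3 0 (.lc 3 9 (.lc 0 0 (.conf [24,135] (.lc 3 8 (.lc 3 0 (.lc 3 9 (.lc 3 8 (.lc 3 0 (.lc 3 9 (.lc 0 0 (.lc 2 6 (.lc 0 0 (.lc 0 8 (.lc 4 9 (.lc 4 9 (.lc 4 0 (.lc 4 10 (.lc 0 0 (.lc 0 9 (.lc 0 0 (.lc 0 9 (.lc 0 0 (.lc 0 9 (.lc 0 0 (.lc 3 6 (.lc 0 0 (.lc 0 10 .stop)))))))))))))))))))))))))))))))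
 (.node [67,86,96,50] 0 4 .stop
 (.node [67,80,100,50] 5 0 (.lc 2 7 (.lc 3 8 .stop))
 (.node [67,87,100,50] 6 4 (.lc 1 3 (.lc 1 3 (.lc 3 0 (.lc 3 8 (.lc 2 3 (.lc 2 3 (.lc 2 3 (.lc 2 3 (.lc 2 3 (.lc 2 3 (.lc 1 2 (.lc 1 2 (.node [50,96] 6 0 (.conf [3,112] (.lc 2 3 (.conf [21,113] (.conf [3,128] (.lc 2 3 (.lc 3 3 .stop))))))
 (.node [50,104] 7 6 (.node [120] 5 7 (.lc 2 0 (.lc 2 8 (.lc 2 9 (.lc 3 9 (.lc 3 0 (.lc 3 10 (.lc 0 0 (.lc 2 5 (.conf [25,151] (.lc 3 9 (.lc 3 0 (.lc 3 9 (.lc 3 0 (.lc 3 10 (.lc 3 9 (.lc 3 0 (.lc 3 10 (.lc 0 0 (.lc 2 8 (.lc 0 0 (.lc 0 8 (.lc 0 9 (.lc 4 10 (.lc 4 10 (.lc 4 0 (.lc 4 11 (.lc 0 0 (.lc 0 9 (.lc 0 0 (.lc 0 10 (.lc 0 0 (.lc 0 10 (.lc 0 0 (.lc 0 10 (.lc 0 0 (.lc 3 8 (.lc 0 0 (.lc 0 11 .stop))))))))))))))))))))))))))))))))))))))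
 (.node [112,131] 7 0 (.lc 2 1 (.lc 2 9 (.lc 2 8 (.lc 0 9 (.lc 3 9 (.lc 3 10 (.lc 2 8 (.lc 1 0 (.lc 3 8 .stop)))))))))
 (.node [113,131] 1 5 (.lc 1 7 (.lc 2 7 .stop))
 (.node [114,131] 3 2 (.lc 2 0 (.lc 3 9 .stop))
 (.node [121,131] 5 7 (.lc 2 0 (.lc 2 10 (.lc 3 0 (.lc 3 10 (.lc 0 0 (.lc 2 9 (.lc 3 10 (.lc 3 0 (.lc 3 11 (.lc 3 0 (.lc 3 10 (.conf [25,152] (.lc 0 0 (.lc 0 10 (.lc 4 10 (.lc 4 0 (.lc 4 11 (.lc 0 0 (.lc 0 11 (.lc 0 0 (.lc 0 10 (.lc 0 0 (.lc 0 10 (.lc 0 0 (.lc 2 8 (.lc 0 0 (.lc 0 11 .stop)))))))))))))))))))))))))))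
 (.node [112,131] 0 8 (.lc 1 3 (.lc 2 3 (.far [256,0,257,0,1] 4096 .stop)))
 (.node [121,131] 8 3 (.lc 1 2 (.lc 1 2 (.lc 3 0 (.lc 3 10 (.lc 2 2 (.lc 2 2 (.lc 2 2 (.lc 2 2 (.lc 2 2 (.lc 3 0 (.lc 1 0 (.lc 0 2 (.lc 2 2 (.lc 2 2 (.lc 4 10 (.lc 2 0 (.lc 3 2 (.lc 3 2 (.lc 3 2 (.far [1,0,257,0,1] 4096 (.conf [32,162] (.far [1,0,257,0,1] 4096 (.lc 2 0 (.lc 0 0 (.lc 2 0 (.node [154,160] 7 9 (.far [1,4096,257,0,1,257] 4096 (.lc 3 1 (.lc 3 11 (.lc 1 0 (.lc 3 11 (.lc 4 12 .stop))))))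
 (.lc 3 0 .stop)))))))))))))))))))))))))))
 (.node [112,131] 7 0 (.lc 2 1 (.lc 3 9 (.lc 1 0 .stop)))
 (.node [121,131] 5 7 (.lc 2 0 (.lc 2 10 (.lc 3 0 (.lc 3 10 (.lc 0 0 (.lc 2 9 (.lc 3 10 (.lc 3 0 (.lc 3 11 (.lc 3 0 (.lc 3 10 (.lc 1 8 (.lc 0 0 (.lc 0 10 (.lc 4 10 (.lc 4 0 (.lc 4 11 (.lc 0 0 (.lc 0 11 (.lc 0 0 (.lc 0 10 (.lc 0 0 (.lc 0 10 (.lc 0 0 (.conf [26,169] (.lc 0 0 (.lc 0 11 .stop)))))))))))))))))))))))))))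
 (.conf [21,113] (.node [121,131,144] 0 8 (.lc 1 3 (.lc 2 3 (.far [256,0,257,0,1] 4096 .stop)))
 (.conf [40,131] (.node [112,131,152] 7 0 (.lc 2 1 (.lc 3 10 (.lc 1 0 .stop)))
 (.node [122,131,152] 5 7 (.lc 2 0 (.lc 2 11 (.lc 3 0 (.lc 3 11 (.lc 0 0 (.lc 2 10 (.lc 3 11 (.lc 3 0 (.lc 3 12 (.lc 3 0 (.lc 3 11 (.lc 1 9 (.lc 0 0 (.lc 0 11 (.lc 4 11 (.lc 4 0 (.lc 4 12 (.lc 0 0 (.lc 0 12 (.lc 0 0 (.lc 0 11 (.lc 0 0 (.lc 0 11 (.lc 0 0 (.conf [27,186] (.lc 0 0 (.lc 0 12 .stop)))))))))))))))))))))))))))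
 .stop))))))))))))))
 (.lc 2 3 (.lc 2 3 (.lc 2 3 (.lc 2 2 (.lc 2 2 (.lc 2 2 (.lc 3 3 (.lc 3 3 (.lc 3 3 (.lc 3 3 (.node [50,104,128] 0 3 .stop
 (.node [50,96,131] 6 0 (.conf [21,113] .stop)
 (.node [50,105,131] 6 9 (.node [121] 5 7 (.lc 2 0 (.lc 2 8 (.lc 2 9 (.lc 2 10 (.lc 3 10 (.lc 3 0 (.lc 3 10 (.lc 3 0 (.lc 3 11 (.lc 0 0 (.conf [26,167] (.lc 3 10 (.lc 3 8 (.lc 3 0 (.lc 3 11 (.lc 3 8 (.lc 3 10 (.lc 3 0 (.lc 3 8 (.lc 3 11 (.lc 0 0 (.lc 2 9 (.lc 2 9 (.lc 0 0 (.lc 0 8 (.lc 0 9 (.lc 0 10 (.lc 4 11 (.lc 4 11 (.lc 4 0 (.lc 4 12 (.lc 0 8 (.lc 0 0 (.lc 0 11 (.lc 0 0 (.lc 0 10 (.lc 0 0 (.lc 0 11 (.lc 0 0 (.lc 0 8 (.lc 0 11 (.lc 0 0 (.lc 3 9 (.lc 0 0 (.lc 0 12 .stop)))))))))))))))))))))))))))))))))))))))))))))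
 (.lc 2 8 (.lc 2 8 (.lc 2 8 (.lc 2 8 (.node [112,152] 7 0 (.lc 2 1 (.lc 3 10 (.lc 1 0 .stop)))
 (.node [122,152] 5 7 (.lc 2 0 (.lc 2 8 (.lc 2 11 (.lc 3 0 (.lc 3 11 (.lc 0 0 (.lc 2 10 (.lc 3 11 (.lc 3 0 (.lc 3 12 (.lc 3 0 (.lc 3 8 (.lc 3 11 (.lc 1 9 (.lc 0 0 (.lc 0 8 (.lc 0 11 (.lc 4 11 (.lc 4 0 (.lc 4 12 (.lc 0 0 (.lc 0 12 (.lc 0 0 (.lc 0 11 (.lc 0 0 (.lc 0 8 (.lc 0 11 (.lc 0 0 (.conf [27,186] (.lc 0 0 (.lc 0 12 .stop)))))))))))))))))))))))))))))))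
 (.lc 2 8 (.lc 2 8 (.lc 3 8 (.lc 3 8 (.lc 3 8 (.lc 3 8 (.lc 3 8 .stop))))))))))))))
 (.lc 2 2 (.lc 2 2 (.lc 2 2 (.lc 2 2 (.lc 2 2 (.lc 2 2 (.lc 3 2 (.lc 3 2 (.lc 3 2 (.lc 3 2 .stop)))))))))))))))))))))))))))))))))))))
 (.conf [67,86] (.conf [67,80] (.conf [67,87] (.node [86,96,67,50] 5 6 (.conf [22,96] (.lc 2 0 (.conf [23,118] (.lc 2 0 (.lc 3 0 .stop)))))
 (.node [80,67,100,50] 5 0 (.lc 0 0 .stop)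
 (.node [87,118,67,50] 5 7 (.conf [23,118] (.lc 0 0 (.lc 2 6 (.lc 0 0 (.conf [24,135] (.lc 0 0 (.lc 2 6 (.lc 0 0 (.lc 3 6 .stop)))))))))
 (.node [67,87,118,50,96] 0 4 .stop
 (.node [67,87,100,112,50] 0 6 (.node [100] 6 4 (.lc 1 3 (.lc 3 8 (.lc 2 3 (.lc 1 2 (.lc 2 2 .stop)))))
 (.lc 1 6 (.lc 2 4 (.node [54] 4 3 .stop
 (.conf [40,134] (.lc 2 4 (.lc 2 4 (.lc 3 4 (.lc 3 4 .stop)))))))))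
 (.node [67,80,100,118,50] 5 0 .stop
 (.node [67,88,100,118,50] 5 8 (.lc 2 0 (.lc 2 9 (.lc 3 9 (.lc 3 0 (.lc 3 10 (.lc 0 0 (.conf [25,152] (.lc 3 9 (.lc 3 0 (.lc 3 10 (.lc 3 9 (.lc 3 0 (.lc 3 10 (.lc 0 0 (.lc 2 7 (.lc 0 0 (.lc 0 9 (.lc 4 10 (.lc 4 10 (.lc 4 0 (.lc 4 11 (.lc 0 0 (.lc 0 10 (.lc 0 0 (.lc 0 10 (.lc 0 0 (.lc 0 10 (.lc 0 0 (.lc 3 7 (.lc 0 0 (.lc 0 11 .stop)))))))))))))))))))))))))))))))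
 (.node [87,118,67,96,50] 5 7 (.conf [23,118] (.lc 2 6 (.conf [24,135] (.lc 2 6 (.lc 3 6 .stop)))))
 (.node [87,112,67,100,50] 5 7 (.conf [23,112] (.lc 2 0 (.conf [24,135] (.lc 2 0 (.lc 3 0 .stop)))))
 (.node [80,67,100,118,50] 5 0 (.lc 0 0 .stop)
 (.node [88,135,67,100,50] 5 8 (.conf [24,135] (.lc 0 0 (.lc 2 7 (.lc 0 0 (.conf [25,152] (.lc 0 0 (.lc 2 7 (.lc 0 0 (.lc 3 7 .stop)))))))))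
 (.conf [67,87] (.conf [67,87] (.conf [67,80] (.conf [67,88] (.conf [67,87] (.conf [67,87] (.conf [67,80] (.conf [67,88] (.conf [67,87] (.conf [67,87] (.conf [67,80] (.conf [67,88] (.conf [67,88] (.conf [67,88] (.conf [67,88] (.conf [67,80] (.conf [67,89] .stop)))))))))))))))))))))))))))))))))))))))))))))
 (.asm [50,67,84] 9 (.node [50,67,101] 6 5 (.node [84,96,67,50] 0 5 (.node [84,67,96,50] 6 0 (.node [103] 5 4 (.node [67,116] 6 7 (.node [23] 7 4 .stop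
 (.conf [24,135] .stop))
 (.lc 2 3 (.lc 0 8 (.lc 2 3 (.lc 3 3 .stop)))))
 (.conf [104,135] .stop))
 (.conf [67,80] (.conf [84,117] (.node [67,80,50,96,7] 6 0 (.lc 2 7 (.lc 3 8 .stop))
 (.conf [80,135,96,8] .stop)))))
 (.node [84,103,67,50] 5 4 (.node [67,80,50,103] 5 0 (.node [112] 0 4 (.node [67] 7 4 (.node [50] 6 7 .stop
 (.lc 1 2 .stop))
 (.lc 2 0 (.conf [67,132] (.lc 1 2 (.lc 2 2 .stop)))))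
 (.lc 0 8 .stop))
 (.node [67,88,50,103] 7 5 (.node [120] 4 3 (.node [50,64] 4 0 (.node [128] 0 3 (.node [50] 8 3 (.conf [32,114] .stop)
 (.conf [50,115] .stop))
 (.lc 0 9 .stop))
 (.node [50,71] 4 7 (.lc 0 4 .stop)
 (.node [50,73] 8 4 (.node [137] 6 7 (.node [96,120] 6 0 (.lc 0 0 .stop)
 (.lc 1 5 (.node [105,120] 6 9 .stop
 (.node [106,120] 1 6 (.node [26] 9 3 (.node [50,144] 0 3 (.far [515,3,16,257,2,8193,0,2,257,258] 8192 .stop)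
 (.lc 2 3 (.node [50,154] 10 3 .stop
 (.node [50,155] 3 2 (.node [32] 8 9 (.node [128,155] 8 0 (.node [112] 7 0 .stop
 (.far [4112,4112,0,0,0,0,4112,0,256,256] 0 .stop))
 (.lc 2 4 (.node [138,155] 10 9 .stop
 (.lc 1 3 (.node [140,155] 7 8 (.node [124] 9 11 (.node [178] 7 12 (.node [172] 12 11 (.node [171] 10 11 .stop
 .stop)
 (.conf [171,178,199] (.far [4112,0,4112,0,0,0,0,1,0,0,4112,0,256] 0 (.far [4112,0,4112,0,0,0,0,1,0,0,4112,0,256] 0 .stop))))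
 (.conf [178,192,147] (.conf [178,202,147] (.conf [178,205,219] (.far [4112,0,1,0,4112,0,0,256,256] 0 (.far [4112,0,1,0,4112,0,0,256,256] 0 (.far [257,0,16,0,257,0,0,4096,4096] 0 (.far [257,0,16,0,257,0,0,4096,4096] 0 (.conf [178,205,147] (.conf [178,192,147] (.conf [178,206,147] .stop)))))))))))
 (.conf [117,132,201] (.far [16,257,0,0,0,0,257,0,4096,4096] 0 (.lc 3 5 (.far [16,257,0,0,0,0,257,0,4096,4096] 0 (.far [1,4112,0,0,0,0,4112,0,256,256] 0 (.conf [117,132,201] (.conf [117,132,201] .stop))))))))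
 (.node [147,178,128] 8 0 .stop
 (.conf [147,178,203] (.node [132,155,112] 7 0 .stop
 (.lc 0 5 (.lc 2 3 (.conf [132,155,201] (.node [140,155,192,140] 0 9 .stop
 (.lc 3 4 (.lc 2 3 (.lc 2 3 (.node [128,155,201,155] 8 0 .stop
 (.node [141,201,220,141,155] 7 8 (.far [1,4112,0,0,0,0,4112,0,256,256] 0 (.lc 3 5 (.lc 1 12 (.lc 3 5 (.lc 1 12 (.lc 3 5 (.lc 4 5 (.lc 4 5 .stop))))))))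
 (.node [147,178,128] 8 0 (.far [257,257,0,0,0,0,257,0,4096,4096] 0 (.node [117,160] 10 0 (.node [] 0 11 (.far [514,256,0,2,0,0,4112,0,513,257,0,1,0,1] 4352 .stop)
 .stop)
 .stop))
 (.lc 3 4 (.node [147,178,138] 8 10 (.lc 0 5 .stop)
 (.node [147,178,203] 8 12 (.far [257,257,0,0,0,0,257,0,4096,4096] 0 (.lc 2 11 (.node [117,172] 12 11 (.node [194] 10 12 (.node [194] 12 2 .stop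
 (.far [4112,1,513,258,256,256,256,256,514,0,8192,8192] 4097 .stop))
 (.lc 3 0 (.far [16,0,16,4096,1,0,0,4096,4096] 17 (.lc 3 0 (.lc 3 13 (.lc 4 13 .stop))))))
 (.lc 2 11 (.lc 0 5 (.lc 2 11 (.lc 3 11 (.lc 3 11 .stop))))))))
 (.node [132,147,178] 7 11 (.far [257,1,0,0,0,16,0,0,257,0,4096] 0 (.lc 2 2 (.node [160,178] 10 0 (.node [] 11 2 (.far [4096,257,1,257,0,257,4112,0,257,1,0,1,0,1] 4096 .stop)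
 .stop)
 (.node [172,203] 12 11 (.node [194] 10 12 (.node [194] 12 2 .stop
 (.far [4112,32,272,4112,8192,4097,256,256,4096,4096] 4097 .stop))
 (.lc 3 0 (.far [16,256,4096,4096,4096,0,16,0,0,257,0,4096] 17 (.lc 3 0 (.lc 3 13 (.lc 4 13 .stop))))))
 (.lc 3 2 .stop)))))
 (.node [117,132,155] 10 9 (.far [1,1,0,4112,0,0,256,256] 0 (.lc 3 1 (.node [160,178] 0 11 (.far [256,0,257,4096,1,16,256,257,1,0,1,0,1] 4096 .stop)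
 (.node [178,203] 10 12 (.node [203] 12 11 (.node [194] 12 2 .stop
 (.far [16,8224,8208,513,4096,4096,512,512,257,0,4096,4096] 17 .stop))
 (.lc 2 11 (.far [4112,4096,257,0,4112,256,256,256,256] 4097 (.lc 2 11 (.lc 2 11 (.lc 3 11 .stop))))))
 (.lc 4 1 .stop)))))
 (.conf [147,192,140] (.lc 4 4 (.node [147,178,203,128] 8 0 .stop
 (.conf [147,220,141] (.far [4112,0,0,0,1,4112,0,16,256,256] 0 (.lc 3 3 (.conf [132,155,201] (.conf [147,171,178] (.conf [117,171,178] (.far [256,0,257,0,0,1,4096,4096,4096] 0 (.lc 0 5 (.conf [132,203,124] (.node [132,160,178] 10 0 (.node [] 0 11 (.far [512,256,0,8192,2,4112,0,1,4097,0,1,0,1] 4352 .stop)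
 .stop)
 (.node [132,172,178] 12 11 (.node [194] 10 12 (.node [194] 12 2 .stop
 (.far [4112,32,272,8192,259,256,256,4098,12288,8192,8192] 4097 .stop))
 (.lc 3 0 (.far [16,256,4096,258,0,16,2,8192,4097,8192,4096] 17 (.lc 3 0 (.lc 3 13 (.lc 4 13 .stop))))))
 .stop)))))))))))))))))))))))))))))))))))))
 (.lc 0 0 (.lc 0 10 (.lc 0 12 (.lc 0 0 (.lc 0 12 (.far [257,16,16,257,32,513,32,512,272,4096] 17 (.conf [32,194] (.lc 0 12 (.lc 0 13 .stop))))))))))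
 (.lc 2 2 (.lc 2 2 (.lc 3 10 (.lc 3 11 (.lc 3 7 (.lc 3 0 (.lc 3 10 (.lc 3 12 (.node [50,155,176] 0 3 (.far [256,0,32,514,32,514,48,769,528,4097] 4096 .stop)
 (.conf [50,179] (.conf [50,179] (.lc 2 2 (.lc 2 2 (.lc 2 2 (.lc 2 2 (.lc 2 2 (.lc 2 2 (.lc 2 2 (.lc 3 11 (.lc 3 0 (.lc 3 11 (.lc 3 0 (.lc 3 12 (.lc 3 2 (.lc 3 2 (.lc 4 12 (.lc 4 12 (.lc 4 0 (.lc 4 13 (.lc 3 2 (.lc 3 2 (.lc 3 2 (.lc 3 2 (.lc 3 2 (.lc 3 2 (.lc 3 2 (.lc 3 2 (.lc 3 2 (.lc 3 2 (.lc 4 2 (.lc 4 2 .stop)))))))))))))))))))))))))))))))))))))))))))))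
 (.lc 3 0 (.lc 1 7 (.lc 1 7 (.lc 3 0 (.lc 1 7 (.lc 3 0 (.conf [27,186] (.lc 4 0 (.lc 2 7 .stop))))))))))
 (.lc 2 8 (.lc 2 8 (.lc 2 8 (.lc 2 8 (.lc 2 8 (.lc 0 0 (.lc 3 1 (.conf [106,160] (.lc 2 5 (.node [96,120,167] 6 0 (.lc 0 0 .stop)
 (.conf [107,186] (.lc 2 8 (.lc 2 8 (.lc 2 8 (.lc 2 8 (.lc 2 8 (.lc 0 0 (.lc 3 1 (.lc 3 1 (.lc 0 0 (.lc 3 1 (.lc 3 1 (.lc 3 1 (.lc 3 8 (.lc 3 8 (.lc 3 8 (.lc 3 8 (.lc 4 1 (.lc 0 0 (.lc 4 1 (.lc 0 0 (.lc 4 1 (.lc 0 0 (.lc 4 1 (.lc 0 0 (.lc 4 1 (.lc 4 1 (.lc 0 0 (.lc 4 1 (.lc 0 0 (.lc 5 1 .stop)))))))))))))))))))))))))))))))))))))))))))))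
 (.lc 3 0 (.lc 3 10 (.lc 1 3 (.lc 3 4 (.lc 1 3 (.lc 3 0 (.lc 3 10 (.lc 4 10 (.lc 4 0 (.lc 4 11 .stop)))))))))))
 (.lc 2 2 (.lc 2 2 (.lc 2 2 (.lc 2 2 (.lc 2 2 (.lc 3 3 (.lc 3 3 (.lc 3 3 (.conf [73,144] (.conf [50,147] (.conf [50,147] (.lc 2 2 (.lc 2 2 (.lc 2 2 (.lc 2 2 (.lc 2 2 (.lc 2 2 (.lc 2 2 (.lc 2 2 (.lc 3 3 (.lc 3 3 (.lc 3 2 (.lc 3 2 (.lc 3 2 (.lc 3 2 (.lc 4 3 (.lc 4 3 (.lc 4 3 (.lc 3 2 (.lc 3 2 (.lc 3 2 (.lc 3 2 (.lc 3 2 (.lc 3 2 (.lc 3 2 (.lc 3 2 (.lc 3 2 (.lc 3 2 (.lc 3 2 (.lc 4 2 (.lc 4 2 (.lc 4 2 (.lc 4 2 .stop))))))))))))))))))))))))))))))))))))))))))))))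
 (.lc 3 0 (.lc 3 9 (.lc 1 4 (.lc 1 4 (.lc 3 0 (.lc 3 9 (.lc 4 9 (.lc 4 0 (.lc 4 10 .stop))))))))))
 (.conf [67,88] (.conf [67,80] (.conf [67,89] (.conf [67,84] (.conf [67,84] (.conf [88,128] (.conf [67,132] (.conf [67,132] (.conf [67,88] (.conf [67,80] (.conf [67,89] (.node [67,84,50,103,112] 0 4 (.conf [3,50] (.lc 1 2 .stop))
 (.node [67,84,50,103,120] 4 3 (.node [50] 6 7 (.lc 2 0 (.lc 2 8 (.lc 2 9 (.lc 3 9 (.lc 3 0 (.lc 3 10 (.lc 0 0 (.lc 2 5 (.conf [25,151] (.lc 3 9 (.lc 3 0 (.lc 3 9 (.lc 3 0 (.lc 3 10 (.lc 3 9 (.lc 3 0 (.lc 3 10 (.lc 0 0 (.lc 2 8 (.lc 0 0 (.lc 0 8 (.lc 0 9 (.lc 4 10 (.lc 4 10 (.lc 4 0 (.lc 4 11 (.lc 0 0 (.lc 0 9 (.lc 0 0 (.lc 0 10 (.lc 0 0 (.lc 0 10 (.lc 0 0 (.lc 0 10 (.lc 0 0 (.lc 3 8 (.lc 0 0 (.lc 0 11 .stop))))))))))))))))))))))))))))))))))))))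
 (.lc 2 2 (.lc 2 2 (.node [50,128] 0 3 .stop
 (.node [50,137] 7 8 (.lc 1 9 (.lc 1 9 (.lc 1 9 (.lc 0 8 (.lc 1 9 (.lc 1 3 (.lc 1 3 (.lc 3 1 (.lc 3 10 (.lc 3 0 (.lc 3 0 (.lc 3 1 (.lc 3 2 (.lc 3 11 (.lc 2 9 (.lc 2 9 (.lc 1 8 (.lc 2 9 (.lc 2 9 (.lc 2 9 (.node [112,147] 0 9 (.lc 0 2 (.lc 3 1 (.far [257,1,0,1,1,257] 4096 .stop)))
 (.node [113,147] 1 9 .stop
 (.node [114,147] 2 9 .stop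
 (.lc 0 9 (.node [122,147] 9 3 (.lc 1 2 (.conf [32,162] (.lc 2 2 (.lc 2 2 (.lc 1 0 (.far [4096,1,0,1,1,257] 4096 (.lc 2 0 .stop)))))))
 (.lc 3 0 (.lc 3 1 (.lc 3 2 (.lc 3 10 (.lc 3 1 (.lc 3 10 (.lc 3 10 (.lc 3 0 (.lc 3 10 (.lc 3 0 (.lc 3 11 (.conf [22,113] (.node [122,147,160] 0 9 (.node [] 6 7 (.lc 2 10 (.lc 2 11 (.lc 3 11 (.lc 1 0 (.lc 2 10 (.lc 3 11 (.lc 3 12 (.lc 3 11 (.lc 2 5 (.lc 0 10 (.lc 0 11 (.lc 4 12 (.lc 0 11 (.lc 0 12 (.lc 0 11 (.lc 0 11 (.lc 3 5 (.lc 0 12 .stop))))))))))))))))))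
 .stop)
 (.lc 1 9 (.conf [41,147] (.node [112,147,169] 7 0 (.lc 2 1 (.lc 1 0 (.lc 3 11 (.lc 1 0 .stop))))
 (.node [123,147,169] 9 3 (.lc 1 2 (.lc 0 2 (.lc 2 2 (.lc 2 2 (.lc 1 0 (.lc 0 0 (.lc 2 0 .stop)))))))
 (.lc 4 10 (.lc 4 11 (.lc 4 10 (.lc 4 1 (.lc 4 11 (.lc 4 0 (.lc 4 0 (.lc 4 12 (.lc 4 1 (.lc 4 10 (.lc 4 0 (.lc 4 0 (.lc 4 11 (.lc 4 1 (.lc 4 10 (.lc 4 10 (.lc 4 0 (.lc 4 10 (.lc 4 0 (.lc 4 11 (.lc 4 1 (.lc 4 10 (.lc 4 0 (.lc 4 0 (.lc 4 1 (.lc 4 2 (.lc 4 11 (.lc 5 10 (.lc 5 11 (.lc 5 10 (.lc 5 1 (.lc 5 11 (.lc 5 0 (.lc 5 0 (.lc 5 12 .stop)))))))))))))))))))))))))))))))))))))))))))))))))))))))))))))))))))))))))))))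
 (.lc 2 2 (.lc 2 2 (.lc 3 2 (.lc 3 2 (.lc 3 2 .stop))))))))))
 (.conf [67,84] (.conf [67,84] (.conf [67,89] (.conf [67,89] (.conf [67,80] (.conf [67,90] (.conf [67,84] (.conf [67,84] (.conf [67,84] (.node [67,120,128,50,103] 0 4 (.conf [3,50] (.lc 1 2 .stop))
 (.node [67,112,132,50,103] 7 0 (.lc 2 1 (.lc 3 9 (.lc 1 0 .stop)))
 (.node [67,121,152,50,103] 4 3 (.node [50] 6 7 (.lc 2 0 (.lc 2 10 (.lc 3 0 (.lc 3 10 (.lc 0 0 (.lc 2 9 (.lc 3 10 (.lc 3 0 (.lc 3 11 (.lc 3 0 (.lc 3 10 (.lc 1 8 (.lc 0 0 (.lc 0 10 (.lc 4 10 (.lc 4 0 (.lc 4 11 (.lc 0 0 (.lc 0 11 (.lc 0 0 (.lc 0 10 (.lc 0 0 (.lc 0 10 (.lc 0 0 (.conf [26,169] (.lc 0 0 (.lc 0 11 .stop)))))))))))))))))))))))))))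
 (.lc 2 2 (.lc 2 2 (.node [50,128] 0 3 .stop
 (.node [50,138] 6 7 (.lc 2 0 (.lc 2 10 (.lc 2 11 (.lc 3 0 (.lc 3 11 (.lc 0 0 (.lc 2 9 (.lc 3 11 (.lc 3 0 (.lc 3 12 (.lc 3 0 (.lc 3 10 (.lc 3 11 (.lc 1 8 (.lc 0 0 (.lc 0 10 (.lc 0 11 (.lc 4 11 (.lc 4 0 (.lc 4 12 (.lc 0 0 (.lc 0 12 (.lc 0 0 (.lc 0 11 (.lc 0 0 (.lc 0 10 (.lc 0 11 (.lc 0 0 (.conf [27,185] (.lc 0 0 (.lc 0 12 .stop)))))))))))))))))))))))))))))))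
 (.lc 2 2 (.lc 2 2 (.lc 3 2 (.lc 3 2 (.lc 3 2 .stop))))))))))
 (.node [67,120,128,50,103] 0 4 .stop
 (.node [67,112,132,50,103] 7 0 (.lc 2 1 (.lc 0 2 (.lc 2 9 (.lc 2 8 (.lc 0 9 (.lc 3 9 (.lc 3 10 (.lc 2 8 (.lc 1 0 (.lc 3 8 .stop))))))))))
 (.node [67,121,132,50,103] 8 4 (.node [50] 6 7 (.lc 2 0 (.lc 2 10 (.lc 3 0 (.lc 3 10 (.lc 0 0 (.lc 2 9 (.lc 3 10 (.lc 3 0 (.lc 3 11 (.lc 3 0 (.lc 3 10 (.conf [25,152] (.lc 0 0 (.lc 0 10 (.lc 4 10 (.lc 4 0 (.lc 4 11 (.lc 0 0 (.lc 0 11 (.lc 0 0 (.lc 0 10 (.lc 0 0 (.lc 0 10 (.lc 0 0 (.lc 2 8 (.lc 0 0 (.lc 0 11 .stop)))))))))))))))))))))))))))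
 (.lc 1 2 (.lc 1 2 (.lc 1 2 (.lc 1 2 (.lc 3 0 (.lc 3 10 (.lc 2 2 (.lc 2 2 (.lc 2 2 .stop))))))))))
 (.node [67,84,120,128,50,103] 0 4 .stop
 (.node [67,84,132,50,103,112] 8 4 (.node [50] 0 8 (.lc 1 3 (.lc 2 3 (.far [16,16,256,16,4096] 0 .stop)))
 (.lc 1 2 (.lc 1 2 (.lc 3 9 (.lc 2 2 .stop)))))
 (.node [67,84,121,152,50,103] 8 4 (.node [50] 8 3 (.lc 1 2 (.lc 1 2 (.lc 3 0 (.lc 3 10 (.lc 2 2 (.lc 2 2 (.lc 2 2 (.lc 2 2 (.lc 2 2 (.lc 3 0 (.lc 1 0 (.lc 0 2 (.lc 2 2 (.lc 2 2 (.lc 4 10 (.lc 2 0 (.lc 3 2 (.lc 3 2 (.lc 3 2 (.node [144] 7 9 (.conf [1,112] (.lc 3 1 (.conf [22,113] (.lc 3 1 (.lc 3 10 (.lc 4 10 .stop))))))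
 (.conf [32,162] (.node [144] 7 9 (.far [1,4096,0,1,1,257] 4096 (.lc 3 1 (.lc 3 10 (.conf [22,113] (.node [122,160] 6 7 (.lc 2 10 (.lc 2 11 (.lc 3 11 (.lc 1 0 (.lc 2 10 (.lc 3 11 (.lc 3 12 (.lc 3 11 (.lc 2 5 (.lc 0 10 (.lc 0 11 (.lc 4 12 (.lc 0 11 (.lc 0 12 (.lc 0 11 (.lc 0 11 (.lc 3 5 (.lc 0 12 .stop))))))))))))))))))
 (.lc 3 1 (.lc 3 10 (.lc 4 10 (.lc 4 11 .stop)))))))))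
 (.lc 2 0 (.lc 0 0 (.lc 2 0 (.node [154,160] 7 9 (.far [1,4096,0,1,1,257] 4096 (.lc 3 1 (.lc 3 11 (.lc 1 0 (.lc 3 11 (.lc 4 12 .stop))))))
 (.lc 3 0 .stop)))))))))))))))))))))))))))
 (.lc 1 2 (.lc 1 2 (.lc 1 2 (.lc 1 2 (.lc 3 0 (.lc 3 10 (.lc 2 2 (.lc 2 2 (.lc 2 2 .stop))))))))))
 (.node [67,121,152,50,103,128] 0 4 .stop
 (.node [67,121,132,144,50,103] 8 4 (.node [50] 0 8 (.lc 1 3 (.lc 2 3 (.node [] 6 7 (.lc 2 10 (.lc 3 10 (.lc 2 9 (.lc 3 11 (.lc 3 10 (.lc 1 0 (.lc 0 10 (.lc 4 11 (.lc 0 11 (.lc 0 10 (.lc 0 10 (.conf [26,169] (.lc 0 11 .stop)))))))))))))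
 .stop)))
 (.lc 1 2 (.lc 1 2 (.lc 3 10 (.lc 2 2 .stop)))))
 (.node [67,112,132,152,50,103] 7 0 (.lc 2 1 (.lc 3 10 (.lc 1 0 .stop)))
 (.node [67,122,132,152,50,103] 8 4 (.node [50] 6 7 (.lc 2 0 (.lc 2 11 (.lc 3 0 (.lc 3 11 (.lc 0 0 (.lc 2 10 (.lc 3 11 (.lc 3 0 (.lc 3 12 (.lc 3 0 (.lc 3 11 (.lc 1 9 (.lc 0 0 (.lc 0 11 (.lc 4 11 (.lc 4 0 (.lc 4 12 (.lc 0 0 (.lc 0 12 (.lc 0 0 (.lc 0 11 (.lc 0 0 (.lc 0 11 (.lc 0 0 (.conf [27,186] (.lc 0 0 (.lc 0 12 .stop)))))))))))))))))))))))))))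
 (.lc 1 2 (.lc 1 2 (.lc 1 2 (.lc 1 2 (.lc 3 0 (.lc 3 11 (.lc 2 2 (.lc 2 2 (.lc 2 2 .stop))))))))))
 .stop)))))))))))))))))))))))))))))))))))))
 (.conf [84,103] (.conf [84,96] (.conf [84,104] (.conf [84,103] (.conf [84,96] (.conf [84,104] (.node [103,112,103,84,67,50] 0 5 .stop
 (.node [84,117,84,96,67,50] 6 0 .stop
 (.node [84,117,84,104,67,50] 6 8 (.lc 2 0 (.lc 2 9 (.lc 3 9 (.lc 3 0 (.lc 3 10 (.lc 0 0 (.conf [25,152] (.lc 3 9 (.lc 3 0 (.lc 3 10 (.lc 3 9 (.lc 3 0 (.lc 3 10 (.lc 0 0 (.lc 2 7 (.lc 0 0 (.lc 0 9 (.lc 4 10 (.lc 4 10 (.lc 4 0 (.lc 4 11 (.lc 0 0 (.lc 0 10 (.lc 0 0 (.lc 0 10 (.lc 0 0 (.lc 0 10 (.lc 0 0 (.lc 3 7 (.lc 0 0 (.lc 0 11 .stop)))))))))))))))))))))))))))))))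
 (.conf [84,103] (.conf [84,96] (.conf [84,104] (.node [84,103,112,67,50] 0 5 (.node [67,4] 0 4 (.lc 1 3 (.lc 1 2 (.lc 2 3 (.node [50] 6 7 (.node [23] 7 3 (.node [32] 7 2 .stop
 (.conf [32,130] .stop))
 (.lc 2 3 (.conf [24,135] (.lc 2 3 (.lc 3 3 .stop)))))
 (.lc 0 8 .stop)))))
 (.lc 1 3 .stop))
 (.node [84,96,117,67,50] 6 0 (.lc 0 0 .stop)
 (.node [84,104,117,67,50] 5 4 (.node [67,116] 6 8 (.conf [24,135] (.lc 0 0 (.node [25,135] 1 9 (.node [152] 9 8 (.lc 1 7 (.lc 1 7 (.lc 0 2 (.lc 1 7 (.lc 3 0 (.conf [154,167] (.lc 1 8 (.lc 2 7 (.lc 0 2 (.lc 2 7 (.lc 2 7 (.lc 1 8 (.lc 2 7 (.lc 2 7 (.lc 1 4 (.lc 1 4 (.lc 0 2 (.lc 1 4 (.lc 3 2 (.lc 0 2 (.lc 0 3 (.lc 3 10 (.lc 2 7 (.lc 2 7 (.lc 1 2 (.lc 1 8 (.lc 2 7 (.lc 2 4 (.lc 1 7 (.lc 2 4 (.lc 2 4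 (.lc 2 8 (.lc 1 10 (.lc 3 7 (.lc 1 7 (.lc 2 4 (.lc 4 11 (.lc 2 4 (.lc 2 4 (.lc 1 2 (.lc 2 4 (.lc 1 7 (.lc 2 4 (.lc 0 2 (.lc 2 4 (.lc 2 7 (.lc 1 10 (.lc 3 4 .stop))))))))))))))))))))))))))))))))))))))))))))))))
 (.lc 1 4 (.lc 2 8 (.node [152,169] 9 8 (.lc 1 7 (.lc 0 2 (.lc 1 7 (.lc 1 7 (.lc 3 1 (.conf [155,183] (.lc 1 8 (.lc 2 7 (.lc 0 2 (.lc 2 7 (.lc 1 8 (.lc 2 7 (.lc 2 7 (.lc 1 4 (.lc 0 2 (.lc 1 4 (.lc 1 4 (.lc 3 2 (.lc 0 2 (.lc 0 3 (.lc 3 11 (.lc 2 7 (.lc 2 7 (.lc 1 2 (.lc 1 8 (.lc 2 7 (.lc 1 7 (.lc 2 4 (.lc 2 4 (.lc 2 8 (.lc 1 11 (.lc 3 7 (.lc 1 7 (.lc 2 4 (.lc 4 12 (.lc 2 4 (.lc 2 4 (.lc 1 2 (.lc 2 4 (.lc 1 7 (.lc 2 4 (.lc 0 2 (.lc 2 4 (.lc 2 7 (.lc 1 11 (.lc 3 4 .stop))))))))))))))))))))))))))))))))))))))))))))))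
 (.lc 2 8 (.lc 3 8 .stop))))))
 (.lc 0 0 (.conf [25,152] (.lc 0 0 (.conf [25,152] (.lc 0 0 (.conf [26,169] .stop)))))))))
 (.lc 2 3 (.lc 2 3 (.node [67,112] 0 4 .stop
 (.node [67,121] 6 8 (.conf [24,135] (.lc 0 0 (.lc 1 4 (.node [26,135] 1 10 (.node [168] 8 7 (.lc 1 9 (.lc 1 9 (.lc 0 2 (.lc 1 9 (.lc 3 11 (.lc 2 9 (.lc 2 9 (.lc 2 9 (.lc 1 7 (.lc 2 9 (.lc 3 0 (.lc 3 2 (.lc 0 2 (.lc 3 11 (.lc 1 4 (.lc 2 9 (.lc 1 2 (.lc 2 9 (.lc 4 0 (.lc 1 9 (.lc 4 12 (.lc 2 7 (.lc 3 9 (.lc 2 4 (.lc 0 2 (.lc 1 2 (.lc 0 11 (.lc 0 0 (.conf [171,185] (.lc 2 9 (.lc 0 12 .stop)))))))))))))))))))))))))))))))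
 (.lc 1 4 (.lc 2 8 (.node [168,186] 8 7 (.lc 1 9 (.lc 0 2 (.lc 1 9 (.lc 1 9 (.lc 3 12 (.lc 2 9 (.lc 2 9 (.lc 1 7 (.lc 2 9 (.lc 3 2 (.lc 0 2 (.lc 3 11 (.lc 3 12 (.lc 1 4 (.lc 2 9 (.lc 1 2 (.lc 2 9 (.lc 1 9 (.lc 4 13 (.lc 2 7 (.lc 3 9 (.lc 2 4 (.lc 0 2 (.lc 1 2 (.lc 0 12 (.lc 0 1 (.conf [172,201] (.lc 2 9 (.lc 0 13 .stop)))))))))))))))))))))))))))))
 (.lc 2 8 (.lc 3 8 .stop))))))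
 (.lc 0 0 (.conf [26,168] (.lc 0 0 (.conf [26,168] (.lc 0 0 (.conf [27,186] .stop))))))))))
 (.lc 2 3 (.lc 2 3 (.lc 3 3 (.lc 3 3 (.lc 3 3 .stop))))))))))
 (.conf [84,103] (.conf [84,96] (.conf [84,104] (.conf [84,104] (.conf [84,104] (.conf [84,96] (.conf [84,105] (.conf [84,104] (.conf [84,104] (.conf [84,96] (.conf [84,105] (.node [84,104,135,67,112,50] 0 5 (.conf [4,67] (.lc 1 3 .stop))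
 (.node [84,104,117,128,67,50] 6 8 (.conf [24,128] (.lc 2 0 (.conf [25,152] (.lc 2 0 (.lc 3 0 .stop)))))
 (.node [84,96,117,135,67,50] 6 0 (.lc 0 0 .stop)
 (.node [84,105,117,135,67,50] 6 9 (.conf [25,152] (.lc 0 0 (.lc 2 8 (.lc 0 0 (.conf [26,169] (.lc 0 0 (.lc 2 8 (.lc 0 0 (.lc 3 8 .stop)))))))))
 (.node [84,104,135,67,112,50] 0 5 .stop
 (.node [84,104,117,128,67,50] 6 8 (.conf [24,128] (.lc 2 0 (.conf [25,152] (.lc 2 0 (.lc 3 0 .stop)))))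
 (.node [84,96,117,135,67,50] 6 0 (.lc 0 0 .stop)
 (.node [84,105,117,152,67,50] 6 9 (.conf [25,152] (.lc 0 0 (.lc 2 8 (.lc 0 0 (.conf [26,169] (.lc 0 0 (.lc 2 8 (.lc 0 0 (.lc 3 8 .stop)))))))))
 (.node [84,104,135,67,112,50] 0 5 .stop
 (.node [84,104,117,128,67,50] 7 5 (.node [67] 0 7 (.lc 1 4 (.lc 1 7 (.lc 2 4 .stop)))
 (.lc 1 3 (.lc 1 3 (.lc 3 9 (.lc 2 3 .stop)))))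
 (.node [84,96,117,135,67,50] 6 0 (.lc 0 0 .stop)
 (.node [84,105,117,135,67,50] 7 5 (.node [67] 6 9 (.conf [25,152] (.lc 0 0 (.node [26,152] 1 10 (.node [169] 10 9 (.lc 1 8 (.lc 1 8 (.lc 0 2 (.lc 1 8 (.lc 3 0 (.conf [171,184] (.lc 1 9 (.lc 2 8 (.lc 0 2 (.lc 2 8 (.lc 2 8 (.lc 1 9 (.lc 2 8 (.lc 2 8 (.lc 1 7 (.lc 1 7 (.lc 0 2 (.lc 1 7 (.lc 3 2 (.lc 0 2 (.lc 3 11 (.lc 2 8 (.lc 2 8 (.lc 1 2 (.lc 1 9 (.lc 2 8 (.lc 2 7 (.lc 1 8 (.lc 2 7 (.lc 2 7 (.lc 2 9 (.lc 1 11 (.lc 3 8 (.lc 1 8 (.lc 4 12 (.lc 2 7 (.lc 2 7 (.lc 1 2 (.lc 1 8 (.lc 2 7 (.lc 1 8 (.lc 2 7 (.lc 0 2 (.lc 2 7 (.lc 2 8 (.lc 1 11 (.lc 3 7 .stop)))))))))))))))))))))))))))))))))))))))))))))))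
 (.lc 1 7 (.lc 2 9 (.node [169,186] 10 9 (.lc 1 8 (.lc 0 2 (.lc 1 8 (.lc 1 8 (.lc 3 1 (.conf [172,200] (.lc 1 9 (.lc 2 8 (.lc 0 2 (.lc 2 8 (.lc 1 9 (.lc 2 8 (.lc 2 8 (.lc 1 7 (.lc 0 2 (.lc 1 7 (.lc 1 7 (.lc 3 2 (.lc 0 2 (.lc 3 12 (.lc 2 8 (.lc 2 8 (.lc 1 2 (.lc 1 9 (.lc 2 8 (.lc 1 8 (.lc 2 7 (.lc 2 7 (.lc 2 9 (.lc 1 12 (.lc 3 8 (.lc 1 8 (.lc 4 13 (.lc 2 7 (.lc 2 7 (.lc 1 2 (.lc 1 8 (.lc 2 7 (.lc 1 8 (.lc 2 7 (.lc 0 2 (.lc 2 7 (.lc 2 8 (.lc 1 12 (.lc 3 7 .stop)))))))))))))))))))))))))))))))))))))))))))))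
 (.lc 2 9 (.lc 3 9 .stop))))))
 (.lc 0 0 (.conf [26,169] (.lc 0 0 (.conf [26,169] (.lc 0 0 (.conf [27,186] .stop)))))))))
 (.lc 1 3 (.lc 1 3 (.lc 1 3 (.lc 1 3 (.lc 3 0 (.lc 3 10 (.lc 2 3 (.lc 2 3 (.lc 2 3 .stop))))))))))
 (.node [84,105,152,67,135,50,112] 0 5 .stop
 (.node [84,105,117,152,67,128,50] 6 9 (.conf [25,152] (.lc 2 8 (.conf [26,169] (.lc 2 8 (.lc 3 8 .stop)))))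
 (.node [84,105,117,135,144,67,50] 6 9 (.conf [25,144] (.lc 2 0 (.conf [26,169] (.lc 2 0 (.lc 3 0 .stop)))))
 (.node [84,96,117,135,152,67,50] 6 0 (.lc 0 0 .stop)
 (.node [84,106,117,135,152,67,50] 6 10 (.conf [26,169] (.lc 0 0 (.lc 2 9 (.lc 0 0 (.conf [27,186] (.lc 0 0 (.lc 2 9 (.lc 0 0 (.lc 3 9 .stop)))))))))
 .stop)))))))))))))))))))))))))))))))))))))))))))))
 .stop)))))))))))))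

theorem t0 : kNode2 awTt FTt 1 2 (check tyTt awTt triet FTt [s1, s24, s29, s33, s38, s40, s45, s47, s48, s49] c0) (fun _ _ _ => true) 0 s0 Pl.nil s0 =
    true := by
  decide +kernel

end Chk
end Pool.Agent.Lib.MP_ba95e8_co
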