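import Pool.Agent.Lib.MP_ba95e8_co.ChkTab
import Pool.Agent.Lib.MP_ba95e8_co.ChkStates

/-!
Deltahedral domes: part 12 of the case analysis.
-/

namespace Pool.Agent.Lib.MP_ba95e8_co
namespace Chk

/-- certificate number 12 -/
def c12 : Cert := (.node [66,80,54] 0 4 (.far [256,0,0,1,1] 4096 .stop)
 (.node [66,81,54] 1 4 .stop
 (.node [66,87,54] 7 4 (.node [114] 5 7 (.node [80,114] 5 0 (.node [96] 6 0 (.node [] 3 6 (.far [1,4112,256,0,0,0,256] 0 (.node [56,97] 8 6 (.far [1,1,4112,256,0,0,0,256] 0 (.node [19,137,145,96] 1 3 .stop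
 (.node [19,145,19,137] 1 3 .stop
 (.far [1,1,4112,256,0,0,0,256] 0 (.node [19,138,145,169,19,96,138,145] 1 3 .stop
 .stop)))))
 (.node [57,134,152,57,97] 8 6 (.node [129] 3 9 (.node [152] 8 1 .stop
 (.lc 2 8 .stop))
 (.lc 3 10 (.conf [19,138,161] (.lc 3 10 (.lc 4 11 .stop)))))
 .stop)))
 (.node [114] 6 7 (.node [98] 3 6 .stop
 .stop)
 (.lc 3 8 (.lc 1 0 (.node [129] 3 6 (.far [1,4112,256,0,0,0,256] 0 (.node [57,104,129] 6 8 (.far [4112,1,4112,256,0,0,0,256] 0 (.lc 2 1 (.lc 0 10 (.lc 2 1 (.lc 3 1 .stop)))))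
 (.lc 2 0 (.conf [57,129,152] (.conf [104,150] (.lc 2 0 (.lc 3 0 .stop)))))))
 (.lc 3 8 (.lc 3 8 (.lc 4 9 .stop))))))))
 (.node [97] 3 6 (.node [56,97] 6 1 (.far [4112,1,272,4112,0,4112,256] 4097 (.lc 0 9 (.lc 0 9 (.node [19,145,19] 1 3 .stop
 (.lc 0 10 .stop)))))
 (.conf [97,134] .stop))
 (.far [4112,4112,1,4096,1,256] 0 (.far [4112,4112,1,4096,1,256] 0 (.far [257,257,16,256,16,4096] 4097 (.node [104,129] 3 6 (.node [57,104] 6 8 (.far [4112,1,272,4112,0,4112,256] 4097 (.lc 2 1 (.lc 0 10 (.lc 2 1 (.lc 3 1 .stop)))))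
 (.lc 2 3 (.conf [104,150] (.lc 2 3 (.lc 3 3 .stop)))))
 .stop))))))
 (.node [81,114] 5 1 (.node [97] 6 1 (.lc 2 1 (.node [114] 6 7 (.node [98] 3 6 .stop
 (.far [16,4096,0,16,257,4096] 17 .stop))
 (.lc 3 8 .stop)))
 (.far [4112,4112,1,4096,1,256] 0 .stop))
 (.lc 1 2 (.node [88,114] 6 5 (.node [104] 3 6 (.node [48] 3 0 (.lc 0 0 .stop)
 (.far [257,0,0,0,0,257,257,4096] 0 (.lc 1 3 (.node [57] 3 9 (.far [257,257,0,0,0,0,257,257,4096] 0 (.lc 0 0 (.node [137,150,49,137] 8 9 .stop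
 (.node [150,169,49] 9 6 (.node [104,144,169] 9 0 (.far [257,257,256,1,0,0,0,0,257,257,4096] 0 (.node [171,176] 0 6 (.lc 1 7 .stop)
 .stop))
 (.lc 1 3 (.node [104,155,169] 6 8 (.far [4112,1,0,1,4112,0,0,0,256] 0 (.lc 2 7 (.lc 2 7 (.lc 2 7 (.far [4112,1,0,1,4112,0,0,0,256] 0 (.far [4112,1,0,1,4112,0,0,0,256] 0 (.far [4112,1,0,1,4112,0,0,0,256] 0 (.lc 2 7 (.lc 2 7 (.lc 2 7 (.lc 3 7 (.lc 3 7 (.lc 3 7 (.lc 3 7 (.lc 3 7 (.lc 3 7 (.lc 3 7 .stop)))))))))))))))))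
 (.lc 2 3 (.lc 2 3 (.node [147,160,104] 0 6 .stop
 (.lc 2 3 (.conf [147,182,104] (.conf [155,176] (.lc 2 3 (.lc 2 3 (.node [104,144,182,169] 9 0 .stop
 (.conf [156,203] (.lc 2 3 (.lc 2 3 (.lc 2 3 (.conf [147,160] (.lc 2 3 (.conf [147,171] (.lc 3 3 (.lc 3 3 (.lc 3 3 (.conf [147,171] (.lc 3 3 (.lc 3 3 (.conf [147,160] (.conf [147,172] (.lc 3 3 (.lc 3 3 (.lc 3 3 (.lc 3 3 (.lc 3 3 (.lc 3 3 (.lc 4 3 (.lc 4 3 (.lc 4 3 .stop))))))))))))))))))))))))))))))))))))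
 (.lc 0 0 (.node [169,150] 6 8 (.node [96,135] 6 0 (.far [4112,4112,0,1,4112,0,0,0,256] 0 (.lc 0 11 .stop))
 (.lc 1 5 (.far [4112,0,1,4112,0,0,0,256] 0 (.node [106,168,169,150] 6 10 (.lc 0 3 .stop)
 (.node [107,135] 9 6 (.far [1,4112,0,1,4112,0,0,0,256] 0 (.lc 3 0 (.lc 3 12 (.node [184,99,144,169] 0 11 (.far [257,1,4112,0,1,4096,4112,0,4112,257,257,1] 4096 (.lc 2 5 .stop))
 (.lc 3 3 (.node [184,203,99,156,169] 11 8 (.node [135,176,203] 11 0 (.node [192] 0 8 (.far [16,0,16,0,16,0,0,4096,4096] 0 .stop)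
 (.lc 0 1 (.lc 0 13 (.lc 0 10 .stop))))
 (.lc 1 5 (.node [168,169,186,203] 11 10 .stop
 (.node [135,189,203] 12 11 (.node [205] 8 7 (.node [114] 13 7 (.node [210] 12 13 .stop
 (.far [16,16,0,0,0,0,0,0,0,16,257,4096] 17 .stop))
 (.conf [114,133,210] (.far [4112,0,1,0,1,0,0,256,256] 0 (.far [4112,0,1,0,1,0,0,256,256] 0 (.conf [114,133,208] .stop)))))
 (.lc 3 0 (.lc 3 10 (.lc 3 14 (.lc 1 8 (.lc 1 8 (.lc 3 0 (.lc 3 14 (.lc 4 14 (.lc 4 0 (.lc 4 15 .stop)))))))))))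
 (.lc 2 5 (.lc 2 5 (.conf [182,192] (.conf [182,205] (.conf [189,208] (.node [135,176,216,203,135] 11 0 .stop
 (.conf [190,237] (.lc 2 5 (.lc 2 5 (.node [182,192,135] 0 8 (.far [1,1,0,1,0,0,256,256] 0 (.far [257,1,0,1,0,0,256,257,4112,256] 0 (.far [256,0,0,0,0,0,0,1,16,256,0,1,1] 4096 (.lc 1 2 .stop))))
 (.lc 2 5 (.conf [168,202] (.node [182,205,135] 9 12 (.node [157] 13 8 (.far [1,0,1,0,1,0,0,256,256] 0 (.lc 3 2 (.lc 3 0 (.lc 3 14 (.lc 4 0 .stop)))))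
 (.lc 3 3 (.lc 1 8 (.lc 3 3 (.lc 1 8 (.lc 3 3 (.lc 4 3 (.lc 4 3 .stop))))))))
 (.lc 3 5 (.node [182,205,208,135] 0 8 (.far [16,16,16,256,0,16,1,4096,257,1,4096] 0 .stop)
 (.conf [182,216,135] (.conf [182,216,135] (.lc 3 5 (.lc 3 5 (.lc 3 5 (.lc 4 5 .stop)))))))))))))))))))))))))
 (.lc 3 0 (.lc 3 12 (.lc 4 12 (.lc 4 0 (.lc 4 13 .stop)))))))))))
 (.lc 2 7 (.lc 2 7 (.lc 2 7 (.lc 2 7 (.lc 2 7 (.lc 2 7 (.lc 2 7 (.lc 2 7 (.lc 2 7 (.lc 3 3 (.lc 3 3 (.lc 3 3 (.lc 0 0 (.node [107,135,176,107,150,169] 0 8 (.node [135] 2 8 (.lc 0 2 .stop)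
 (.lc 1 2 (.lc 2 0 (.far [16,16,0,0,4096,4112,257,4096] 0 .stop))))
 (.node [96,135,184] 6 0 .stop
 (.lc 0 11 (.node [135,184,203,108,150,169] 9 6 (.far [1,4112,0,1,4112,0,0,0,256] 0 (.lc 3 0 (.lc 3 13 (.lc 1 11 (.lc 3 3 (.lc 1 11 (.lc 3 0 (.lc 3 13 (.lc 4 13 (.lc 4 0 (.lc 4 14 .stop)))))))))))
 (.lc 2 7 (.lc 2 7 (.lc 2 7 (.lc 2 7 (.lc 2 7 (.lc 2 7 (.lc 2 7 (.lc 2 7 (.lc 2 7 (.lc 3 3 (.lc 3 3 (.lc 3 3 (.lc 3 3 (.lc 3 3 (.lc 3 3 (.lc 3 7 (.lc 3 7 (.lc 3 7 (.lc 3 7 (.lc 3 7 (.lc 3 7 (.lc 3 7 (.lc 3 7 (.lc 4 3 (.lc 4 3 (.lc 4 3 (.lc 4 3 (.lc 4 3 (.lc 4 3 (.lc 4 3 (.lc 4 3 (.lc 4 3 (.lc 4 3 (.lc 4 3 (.lc 4 3 (.lc 4 3 (.lc 4 3 (.lc 4 3 (.lc 5 3 (.lc 5 3 (.lc 5 3 (.lc 5 3 .stop))))))))))))))))))))))))))))))))))))))))))))))))))))))))))))))))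
 (.lc 0 0 (.far [257,257,0,0,0,0,257,257,4096] 0 (.lc 0 0 (.node [150,169,186,49] 9 6 (.node [104,144,169,186] 9 0 (.far [257,257,256,1,0,0,0,0,257,257,4096] 0 (.lc 0 12 .stop))
 (.lc 1 3 (.node [104,156,169,186] 10 9 (.far [16,257,256,1,0,0,0,0,257,257,4096] 0 (.lc 3 0 (.lc 3 8 (.lc 3 13 (.lc 1 6 (.lc 1 6 (.lc 3 0 (.lc 3 13 (.lc 4 13 (.lc 4 0 (.lc 4 14 .stop)))))))))))
 (.lc 2 3 (.lc 2 3 (.conf [147,160] (.lc 2 3 (.conf [147,172] (.conf [156,192] (.lc 2 3 (.lc 2 3 (.node [104,144,198,169,186] 9 0 .stop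
 (.conf [157,220] (.lc 2 3 (.lc 2 3 (.lc 2 3 (.node [147,160,186,104] 0 6 (.far [1,1,0,1,4112,0,0,0,256] 0 (.lc 1 7 (.lc 1 7 .stop)))
 (.lc 2 3 (.node [147,172,186,104] 11 10 (.conf [188,198] (.lc 3 0 (.lc 3 8 (.lc 3 13 (.lc 1 6 (.lc 1 6 (.lc 3 0 (.lc 3 13 (.lc 4 13 (.lc 4 0 (.lc 4 14 .stop)))))))))))
 (.lc 3 3 (.lc 3 3 (.lc 3 3 (.node [147,172,192,186,104] 0 6 .stop
 (.lc 3 3 (.lc 3 3 (.conf [147,198,104] (.conf [147,198,104] (.lc 3 3 (.lc 3 3 (.lc 3 3 (.lc 3 3 (.lc 3 3 (.lc 3 3 (.lc 4 3 (.lc 4 3 (.lc 4 3 .stop))))))))))))))))))))))))))))))))))))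
 .stop))))))))))
 (.lc 0 0 (.lc 2 8 (.lc 2 8 (.lc 2 8 (.lc 2 8 (.lc 3 1 (.lc 3 1 (.lc 3 1 (.lc 0 0 (.node [57,144,57] 3 9 (.node [144] 9 0 .stop
 (.lc 2 0 (.lc 2 0 (.node [144,169,144] 9 0 .stop
 (.lc 2 0 (.lc 3 0 .stop))))))
 (.lc 2 3 (.lc 2 3 (.lc 2 3 (.node [48,150] 3 0 (.lc 0 0 .stop)
 (.node [49,150] 6 8 (.node [96,135,150] 6 0 (.node [144] 9 0 (.node [152] 9 8 .stop
 .stop)
 (.lc 0 10 .stop))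
 (.lc 1 5 (.node [99,152] 9 8 (.node [135,144] 9 0 (.node [] 8 7 (.node [114] 7 2 (.far [4096,4096,0,1,4096,4096,0,0,0,0,0,0,257] 4096 .stop)
 (.far [1,0,0,4112,4096,4096,4096,0,0,0,0,257] 4096 (.lc 2 2 (.far [257,0,16,16,0,4096,4096] 0 .stop))))
 .stop)
 (.lc 1 5 (.node [135,154] 1 9 (.node [26] 8 7 (.node [114] 1 10 (.node [167] 10 7 (.far [4112,1,256,256,256] 17 .stop)
 (.node [167,186,167] 10 7 .stop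
 .stop))
 (.conf [114,133,162] (.far [4112,0,1,1,0,256,256] 0 (.far [4112,0,1,1,0,256,256] 0 (.conf [114,133,160] .stop)))))
 (.lc 3 0 (.lc 1 8 (.lc 1 8 (.lc 3 0 (.lc 4 0 .stop))))))
 (.lc 2 5 (.lc 2 5 (.lc 3 1 (.lc 3 1 (.conf [154,160] (.node [135,144,168,135] 9 0 (.far [4112,4112,4128,1,8208,4112,0,4112,256] 0 .stop)
 (.conf [155,186] (.lc 2 5 (.lc 2 5 (.lc 0 0 (.lc 3 5 (.lc 0 0 (.lc 0 0 .stop))))))))))))))))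
 (.node [106,135,150] 9 6 (.node [154] 1 9 (.node [154] 9 10 (.node [168] 10 8 (.lc 2 0 (.lc 1 5 (.node [135,171] 8 7 (.node [114] 10 11 (.node [] 11 7 (.node [178] 11 2 (.far [4096,0,4096,0,0,1,0,257,0,4096,0,0,0,0,0,0,257] 4096 .stop)
 (.far [257,4112,4096,4096,1,0,257,0,4096,0,0,0,0,0,0,257] 4096 .stop))
 (.far [1,0,257,0,0,1,4096,4096,0,0,0,0,0,0,257] 4096 (.far [257,0,257,16,0,4096,4096] 0 .stop)))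
 (.conf [114,133,178] (.far [4112,1,0,0,0,1,0,256,256] 0 .stop)))
 (.conf [133,171,183] (.conf [160,184,11] (.node [135,184,203,135,172] 8 7 (.far [257,16,0,0,0,16,0,4096,4096] 0 (.lc 2 2 (.lc 0 13 .stop)))
 (.node [114,133,162] 10 2 (.far [257,257,16,0,4096,4096] 0 .stop)
 (.node [133,160,7] 0 7 (.far [257,1,4096,4096] 256 .stop)
 (.far [257,0,0,1,4096,4096,0,0,0,0,0,0,257] 4096 (.lc 4 0 (.lc 3 5 (.lc 2 2 (.far [257,4112,4096,4096,4096] 256 (.far [257,4112,4096,4096,4096] 256 .stop))))))))))))))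
 (.lc 2 8 (.lc 2 8 (.far [4112,1,4097,8224,1,8208,4112,0,4112,256] 0 (.lc 2 8 (.lc 3 8 .stop))))))
 (.node [27,154] 9 10 (.node [168] 1 11 (.node [186] 11 10 (.lc 2 0 (.lc 1 6 (.node [168,188] 10 8 (.node [135] 8 7 (.node [114] 11 12 (.node [199] 12 7 (.far [4112,1,256,256,256] 17 .stop)
 (.far [4112,0,0,4112,1,256,256] 0 .stop))
 (.conf [114,133,194] (.far [4112,1,0,0,0,0,0,1,0,256,256] 0 (.conf [114,133,192] .stop))))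
 (.conf [133,166,199] (.far [4112,1,0,1,0,256,256] 0 .stop)))
 (.lc 3 0 (.conf [166,188,200] (.conf [176,202,168] (.lc 3 0 (.node [168,202,220,168,189] 10 8 (.far [257,16,0,16,0,4096,4096] 0 (.lc 2 5 (.lc 0 14 .stop)))
 (.node [133,166,183] 11 7 (.far [257,257,256,1,0,258,4096,8192,0,0,0,0,0,0,514] 4112 .stop)
 (.node [166,176,135] 0 8 (.far [1,257,0,0,0,0,1,0,256,256] 0 (.far [513,1,4096,0,0,0,0,0,0,1,4112,256] 256 (.far [256,0,0,0,0,1,4112,4096,4096,4096,0,0,0,0,257] 4096 (.lc 1 2 .stop))))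
 (.far [257,0,1,0,257,0,4096,0,0,0,0,0,0,257] 4096 (.lc 2 6 (.node [176,168] 12 10 (.far [1,1,0,1,0,256,256] 0 (.lc 3 7 (.lc 3 13 .stop)))
 (.conf [176,202,168] (.conf [166,200,135] (.far [1,0,1,0,256,257,0,256,256] 0 (.far [256,256,0,0,2,8208,8192,4096,4096,0,0,0,0,514] 4112 .stop)))))))))))))))))
 (.lc 2 10 (.node [186,203] 12 11 (.lc 1 1 (.node [186,205] 11 10 (.far [257,16,16,4096,4096] 0 (.lc 0 8 (.lc 0 14 .stop)))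
 (.conf [168,205,218] (.lc 2 1 (.lc 3 14 (.conf [186,219] (.far [16,16,4112,4096,4096,4096] 0 (.lc 1 6 (.lc 3 13 (.lc 2 1 (.lc 3 14 (.lc 4 15 (.lc 4 14 (.lc 4 13 (.lc 4 7 .stop)))))))))))))))
 (.lc 2 10 (.lc 3 10 .stop)))))
 (.lc 2 8 (.lc 2 8 (.lc 0 0 (.lc 0 12 (.lc 2 8 (.lc 2 8 (.lc 3 8 (.lc 3 8 (.lc 3 8 .stop))))))))))
 (.node [145,168] 10 8 (.lc 2 0 (.lc 1 5 (.node [135,171] 8 7 (.node [114] 0 10 (.node [] 11 7 (.node [178] 11 2 (.far [4096,0,256,0,257,0,1,4096,4096,0,0,0,0,0,0,257] 4096 .stop)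
 (.far [257,0,4096,1,0,1,4096,4096,0,0,0,0,0,0,257] 4096 .stop))
 (.far [256,0,257,0,1,4096,4096,0,0,0,0,0,0,257] 4096 (.far [16,0,257,16,16,258,16,513,257,0,257,4096] 0 .stop)))
 (.conf [114,133,178] (.far [4112,1,0,0,1,0,256,256] 0 .stop)))
 (.conf [133,171,183] (.lc 3 0 (.node [135,184,203,135] 8 7 (.far [257,16,0,0,16,0,4096,4096] 0 (.lc 2 2 (.lc 0 13 .stop)))
 (.node [114,133,162] 10 2 (.far [1,257,4096,4096,4096] 256 .stop)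
 (.lc 3 0 (.lc 3 0 (.lc 4 0 (.lc 3 5 (.lc 2 2 (.lc 4 0 (.lc 4 0 .stop))))))))))))))
 (.conf [27,145] (.lc 3 0 (.conf [154,185] (.conf [154,185] (.lc 1 8 (.lc 1 8 (.lc 3 0 (.lc 3 0 (.lc 2 8 (.lc 2 8 (.lc 4 0 (.lc 4 0 (.lc 4 0 (.lc 4 0 (.lc 5 0 .stop))))))))))))))))))
 (.lc 3 0 (.lc 3 11 (.lc 1 8 (.lc 1 8 (.lc 3 0 (.lc 3 11 (.lc 4 11 (.lc 4 0 (.lc 4 12 .stop))))))))))
 (.lc 2 7 (.lc 2 7 (.lc 2 7 (.lc 2 7 (.lc 2 7 (.lc 2 7 (.lc 3 3 (.lc 3 3 (.far [4112,4096,4096,4112,1,4096,0,16,256] 0 (.conf [106,160] (.node [96,135,168,150] 6 0 .stop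
 (.conf [135,154,168] (.conf [107,186] (.lc 2 7 (.lc 2 7 (.lc 2 7 (.lc 2 7 (.lc 2 7 (.lc 3 3 (.lc 3 3 (.lc 3 3 (.lc 3 3 (.lc 3 3 (.lc 3 7 (.lc 3 7 (.lc 3 7 (.lc 3 7 (.lc 3 7 (.lc 3 7 (.lc 3 7 (.lc 4 3 (.lc 4 3 (.lc 4 3 (.lc 4 3 (.lc 4 3 (.lc 4 3 (.lc 4 3 (.lc 4 3 (.lc 4 3 (.lc 4 3 (.lc 4 3 (.lc 4 3 (.lc 4 3 (.lc 5 3 (.lc 5 3 (.lc 5 3 (.lc 5 3 .stop)))))))))))))))))))))))))))))))))))))))))))))))))))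
 (.node [58,169,58,150] 3 10 (.node [169] 6 8 (.node [96,135] 6 0 (.node [144] 9 0 (.node [145,169] 10 9 .stop
 (.node [152,169] 9 8 .stop
 (.conf [155,177] (.far [4096,0,0,4096,0,0,0,0,0,0,0,257] 16 .stop))))
 (.lc 0 1 (.lc 0 1 (.lc 0 11 (.far [514,514,257,272,513,257,0,257,4096,0,4112] 257 (.lc 0 11 .stop))))))
 (.node [97,135] 6 1 .stop
 (.lc 1 5 (.node [99,152,169] 10 9 (.node [152,160] 0 9 (.node [135] 10 0 (.node [] 8 7 (.far [257,0,4096,0,16,0,0,4096,4096] 0 .stop)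
 .stop)
 (.lc 2 5 .stop))
 (.node [152,171] 9 8 (.node [135] 10 11 (.node [184] 11 8 (.node [114] 11 7 .stop
 .stop)
 (.lc 2 8 (.lc 2 8 (.far [4112,4112,4096,256,1,256] 4097 (.far [4112,4112,4096,256,1,256] 0 (.lc 2 8 (.lc 2 8 (.lc 3 8 (.lc 3 8 .stop)))))))))
 (.lc 2 5 (.lc 0 0 (.lc 0 12 .stop))))
 (.lc 2 6 (.lc 2 6 (.lc 3 1 (.lc 3 1 (.conf [171,176] (.conf [152,185] (.conf [152,185] (.lc 1 5 (.lc 2 6 (.lc 3 1 (.lc 3 1 (.lc 4 1 (.lc 4 1 (.lc 3 6 (.lc 3 6 (.lc 2 5 .stop))))))))))))))))))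
 (.node [107,135] 9 6 (.node [155] 10 9 (.node [155,160] 0 9 (.node [184] 10 0 (.node [] 11 8 (.lc 1 5 (.node [135,188] 8 7 (.node [114] 11 12 .stop
 (.conf [114,133,194] (.far [4112,1,0,0,0,0,1,0,0,256,256] 0 .stop)))
 (.conf [133,188,199] (.node [135,200,220,135,189] 8 7 (.far [257,16,0,0,0,0,16,0,0,4096,4096] 0 (.lc 2 2 (.lc 0 14 .stop)))
 (.node [114,133,178] 11 2 (.far [257,257,0,4096,0,4096,4096] 0 .stop)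
 (.far [257,16,1,4096,4096,4096] 256 .stop))))))
 .stop)
 (.lc 1 8 (.lc 1 8 .stop)))
 (.node [155,172] 9 11 (.node [184] 10 12 (.node [203] 12 11 (.node [184,192] 0 11 (.node [135] 0 8 (.far [16,4096,0,0,0,0,0,16,0,0,4096,4096] 0 .stop)
 (.far [4112,16,0,16,0,4096,4112,0,0,4096,4096] 0 .stop))
 (.lc 2 1 (.lc 1 6 (.node [184,205] 11 8 (.node [135] 8 7 (.node [114] 12 13 (.node [215] 13 7 .stop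
 (.far [4112,0,0,4112,1,256,256] 4097 .stop))
 (.conf [114,133,210] (.far [4112,1,0,0,0,0,0,1,0,0,256,256] 0 (.far [4112,1,0,0,0,0,0,1,0,0,256,256] 0 (.conf [114,133,208] .stop)))))
 (.conf [133,182,215] (.far [4112,1,0,1,0,256,256] 0 (.far [4112,1,0,1,0,256,256] 0 .stop))))
 (.node [182,192,135] 0 8 (.far [16,16,0,16,0,4096,4112,0,0,4096,4096] 0 .stop)
 (.conf [182,205,216] (.node [193,184] 11 8 (.node [135] 8 7 (.far [257,16,0,0,0,0,0,16,0,0,4096,4096] 0 .stop)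
 (.far [256,256,16,4112,4096,4096,4112,0,0,4096,4096] 0 .stop))
 (.conf [193,219,29] (.lc 3 1 (.node [184,205,208,205] 0 11 .stop
 (.node [184,192,219,184] 12 0 (.far [4112,4112,1,256,256] 0 .stop)
 (.node [184,219,237,184,206] 11 8 (.far [257,16,0,16,0,4096,4096] 0 (.lc 2 5 (.lc 0 0 (.lc 0 15 .stop))))
 (.node [133,182,199] 12 7 .stop
 (.node [182,193,24] 1 8 .stop
 (.node [193,184] 11 8 (.far [4112,1,0,1,0,256,256] 0 (.far [4096,1,0,1,0,256,257,0,0,256,256] 0 (.far [4112,1,0,1,0,256,256] 0 (.far [4112,1,1,258,256,512,513,0,0,256,256] 17 .stop))))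
 (.conf [193,219,184] (.far [4096,1,257,256,256,256] 4097 .stop)))))))))))))))))
 (.lc 2 11 (.lc 2 11 (.far [4112,4112,4096,4112,0,1,256] 4097 (.far [4112,4112,4096,4112,0,1,256] 0 (.lc 2 11 (.lc 2 11 (.lc 3 11 (.lc 3 11 .stop)))))))))
 (.lc 2 8 (.lc 2 8 (.lc 2 8 (.lc 0 0 (.lc 0 13 (.lc 2 8 (.lc 2 8 (.lc 3 8 (.lc 3 8 (.lc 3 8 (.lc 3 8 .stop))))))))))))
 (.conf [150,160] (.conf [150,172] (.conf [155,161] (.conf [155,161] (.conf [172,192] (.conf [155,201] (.conf [155,201] (.lc 1 8 (.lc 1 8 (.node [150,161,184] 1 11 (.far [257,1,0,0,4096,0,0,0,0,0,0,0,257] 16 (.lc 1 1 (.node [184] 11 8 (.far [4112,1,257,256,256] 0 (.conf [133,177,199] (.far [4112,1,257,256,256] 0 (.far [4112,1,257,256,256] 0 .stop))))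
 (.lc 2 1 (.lc 2 1 (.node [184,203,184] 11 8 (.node [200] 12 8 (.node [199] 12 7 (.far [4112,4112,16,257,257,256,256] 17 .stop)
 (.far [1,1,0,0,0,1,0,0,256,256] 0 (.conf [114,133,192] .stop)))
 (.lc 2 5 (.lc 0 13 .stop)))
 (.node [184,203,184] 11 8 (.node [200] 12 8 (.node [199] 12 7 (.far [16,4096,0,0,0,0,0,0,0,0,16,257,4096] 17 .stop)
 (.conf [1,192] .stop))
 (.lc 2 5 (.lc 0 13 .stop)))
 (.node [184,203,220,184] 11 8 (.node [200] 12 8 (.node [199,220] 12 7 .stop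
 (.far [1,1,0,0,0,1,0,0,256,256] 0 .stop))
 (.lc 2 5 (.lc 0 0 (.lc 0 14 .stop))))
 (.lc 2 1 (.lc 2 1 (.lc 2 1 (.node [184] 11 8 (.far [4112,1,257,256,256] 4097 (.conf [133,177,199] (.far [4112,1,257,256,256] 4097 .stop)))
 (.node [184,203,220,184] 11 8 (.node [200] 12 8 (.node [199,220] 12 7 .stop
 (.far [1,1,0,0,0,1,0,0,256,256] 0 .stop))
 (.lc 2 5 (.lc 0 14 .stop)))
 (.lc 3 1 (.lc 3 1 .stop)))))))))))))))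
 (.conf [155,161] (.conf [155,161] (.lc 2 8 (.lc 2 8 (.lc 2 8 (.conf [155,161] (.conf [155,161] (.far [4096,4112,0,1,256] 4097 (.conf [150,184,203] (.lc 2 8 (.lc 2 8 (.lc 2 8 (.lc 2 8 (.lc 3 8 (.lc 3 8 .stop)))))))))))))))))))))))))))
 (.lc 3 0 (.lc 3 1 (.lc 3 12 (.lc 1 8 (.lc 1 8 (.lc 3 0 (.lc 3 12 (.lc 4 1 (.lc 4 12 (.lc 4 0 (.lc 4 13 .stop))))))))))))
 (.lc 2 7 (.lc 2 7 (.lc 2 7 (.lc 2 7 (.lc 2 7 (.lc 2 7 (.lc 2 7 (.lc 2 7 (.lc 2 7 (.lc 3 3 (.lc 3 3 (.node [97,135] 6 1 .stop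
 (.lc 0 0 (.conf [107,176] (.node [96,135,184] 6 0 (.lc 0 1 .stop)
 (.lc 0 11 (.conf [108,203] (.lc 2 7 (.lc 2 7 (.lc 2 7 (.lc 2 7 (.lc 2 7 (.lc 2 7 (.lc 2 7 (.lc 3 3 (.lc 3 3 (.lc 3 3 (.lc 3 3 (.lc 3 3 (.lc 3 3 (.lc 3 3 (.lc 3 7 (.lc 3 7 (.lc 3 7 (.lc 3 7 (.lc 3 7 (.lc 3 7 (.lc 3 7 (.lc 3 7 (.lc 3 7 (.lc 3 7 (.lc 4 3 (.lc 4 3 (.lc 4 3 (.lc 4 3 (.lc 4 3 (.lc 4 3 (.lc 4 3 (.lc 4 3 (.lc 4 3 (.lc 4 3 (.lc 4 3 (.lc 4 3 (.lc 4 3 (.lc 4 3 (.lc 4 3 (.lc 4 3 (.lc 4 3 (.lc 4 3 (.lc 4 3 (.lc 5 3 (.lc 5 3 (.lc 5 3 (.lc 5 3 (.lc 5 3 (.lc 5 3 .stop)))))))))))))))))))))))))))))))))))))))))))))))))))))))))))))))))))))))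
 (.lc 0 0 (.lc 2 9 (.lc 2 9 (.lc 0 0 (.node [169,186,169,150] 9 6 (.node [104,144] 0 6 (.far [1,1,4112,4096,4096,4112,1,4096,0,16,256] 0 (.lc 1 7 (.lc 1 7 .stop)))
 (.lc 1 3 (.lc 0 10 (.node [104,156] 6 8 (.far [4112,1,4112,4096,4096,4112,1,4096,0,16,256] 0 (.lc 2 7 (.lc 2 7 (.lc 2 7 (.lc 0 0 (.lc 0 13 (.lc 2 7 (.lc 2 7 (.lc 3 7 (.lc 3 7 (.lc 3 7 .stop)))))))))))
 (.lc 2 3 (.lc 2 3 (.lc 0 11 (.lc 3 11 (.lc 3 12 (.lc 2 3 (.lc 2 3 (.lc 2 3 (.lc 3 0 (.lc 3 11 (.lc 3 13 (.node [104,156,192] 0 6 .stop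
 (.lc 2 3 (.lc 2 3 (.conf [104,198] (.conf [104,198] (.lc 2 3 (.lc 2 3 (.lc 2 3 (.lc 2 3 (.lc 2 3 (.lc 2 3 (.lc 2 3 (.lc 3 12 (.lc 1 6 (.lc 3 0 (.lc 2 3 (.lc 2 3 (.lc 3 0 (.lc 3 12 (.lc 3 0 (.lc 3 13 (.lc 3 3 (.lc 3 3 (.lc 3 3 (.lc 1 0 (.lc 4 13 (.lc 3 3 (.lc 3 3 (.lc 3 3 (.lc 4 13 (.lc 4 0 (.lc 4 14 (.lc 3 3 (.lc 3 3 (.lc 3 3 (.lc 3 3 (.lc 1 8 (.lc 3 3 (.lc 3 3 (.lc 3 3 (.lc 3 3 (.lc 3 3 (.lc 0 11 (.lc 3 3 (.lc 3 3 (.lc 3 3 (.lc 3 3 (.lc 3 3 (.lc 1 0 (.lc 4 3 (.lc 4 3 (.lc 4 3 (.lc 4 3 .stop))))))))))))))))))))))))))))))))))))))))))))))))))))))))))))))))))))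
 (.lc 0 0 (.lc 2 9 (.lc 0 0 (.lc 3 9 .stop))))))))))
 (.lc 2 8 (.lc 2 8 (.lc 2 8 (.lc 2 8 (.lc 2 8 (.lc 3 1 (.lc 3 1 (.lc 0 0 (.lc 3 1 (.lc 3 1 (.lc 3 8 (.lc 0 0 (.lc 3 8 (.lc 3 8 (.lc 3 8 (.lc 3 8 (.lc 0 0 (.lc 4 1 (.lc 0 0 (.lc 4 1 (.lc 0 0 (.lc 4 1 (.lc 0 0 (.lc 4 1 (.lc 4 1 (.lc 4 1 (.lc 0 0 (.lc 5 1 .stop))))))))))))))))))))))))))))))))))))))))))))))))
 (.lc 1 7 (.lc 1 7 (.lc 1 7 (.lc 1 7 (.lc 1 7 (.lc 1 7 (.far [1,4112,1,4096,1,256] 0 (.far [1,4112,1,4096,1,256] 0 (.far [1,4112,1,4096,1,256] 0 (.lc 2 7 (.lc 2 7 (.lc 2 7 (.lc 2 7 (.lc 2 7 (.lc 2 7 .stop))))))))))))))))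
 (.lc 2 2 (.lc 2 2 (.lc 2 2 (.lc 2 2 (.lc 2 2 (.lc 2 2 (.lc 3 4 (.lc 3 4 (.lc 3 4 (.node [81,114] 5 1 (.far [4112,4112,1,4096,1,256] 4097 (.far [4112,4112,1,4096,1,256] 4097 .stop))
 (.conf [88,128] (.conf [88,129] (.lc 2 2 (.node [80,114,135] 5 0 (.far [4112,4112,1,4096,1,256] 0 .stop)
 (.node [81,114,135] 5 1 .stop
 (.conf [89,152] (.lc 2 2 (.lc 2 2 (.lc 2 2 (.lc 2 2 (.lc 2 2 (.lc 2 2 (.lc 3 4 (.lc 3 4 (.lc 3 4 (.lc 3 4 (.lc 3 4 (.lc 3 4 (.lc 3 4 (.lc 3 2 (.lc 3 2 (.lc 3 2 (.lc 3 2 (.lc 3 2 (.lc 3 2 (.lc 3 2 (.lc 3 2 (.lc 3 2 (.lc 4 4 (.lc 4 4 (.lc 4 4 (.lc 4 4 (.lc 4 4 (.lc 4 4 (.lc 4 4 (.lc 4 4 (.lc 4 4 (.lc 4 4 (.lc 4 4 (.lc 4 4 (.lc 4 4 (.lc 4 4 (.lc 4 4 (.lc 4 4 (.lc 4 4 (.lc 4 4 (.lc 4 4 (.lc 4 4 (.lc 4 4 (.lc 4 4 (.lc 4 4 (.lc 4 4 (.lc 4 4 (.lc 5 4 (.lc 5 4 (.lc 5 4 (.lc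 5 4 (.lc 5 4 (.lc 5 4 (.lc 5 4 (.lc 5 4 (.lc 5 4 .stop))))))))))))))))))))))))))))))))))))))))))))))))))))))))))))))))))))))))))))
 (.lc 3 0 (.lc 3 8 (.node [112] 5 7 (.lc 1 0 (.node [81,112] 5 1 (.far [257,257,16,256,16,4096] 17 (.node [104,129] 8 1 (.node [23,131] 3 6 .stop
 (.far [16,16,4096] 0 (.lc 3 9 (.lc 3 9 .stop))))
 .stop))
 (.node [88,112] 6 5 (.far [16,257,16,256,16,4096] 17 (.lc 1 7 (.lc 1 7 (.lc 1 7 (.lc 1 7 (.node [97] 6 1 .stop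
 (.node [105,152] 3 6 (.far [257,0,0,0,0,257,257,4096] 0 (.node [58,105] 6 9 (.far [4112,1,1,4112,0,4112,258] 0 (.lc 2 8 (.lc 2 8 (.lc 0 1 (.lc 0 11 (.lc 2 8 (.lc 2 8 (.lc 3 8 (.lc 3 8 (.lc 3 8 .stop))))))))))
 (.lc 2 3 (.lc 2 3 (.lc 3 1 (.conf [105,166] (.conf [105,166] (.lc 2 3 (.lc 2 3 (.lc 3 1 (.lc 0 0 (.lc 3 1 (.lc 3 3 (.lc 3 3 (.lc 4 1 (.lc 4 1 (.lc 0 0 (.lc 4 1 (.lc 4 1 (.lc 5 1 .stop))))))))))))))))))))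
 (.lc 2 7 (.lc 2 7 (.lc 2 7 .stop))))))))))
 (.lc 2 0 (.lc 2 0 (.lc 2 0 (.lc 3 4 (.lc 3 4 (.lc 2 0 (.conf [88,129] (.node [81,112,135] 5 1 .stop
 (.conf [89,152] (.lc 2 0 (.lc 2 0 (.lc 2 0 (.lc 3 4 (.lc 3 4 (.lc 3 4 (.lc 3 4 (.lc 3 4 (.lc 3 0 (.lc 3 0 (.lc 3 0 (.lc 3 0 (.lc 4 4 (.lc 4 4 (.lc 4 4 (.lc 4 4 (.lc 4 4 (.lc 4 4 (.lc 4 4 (.lc 4 4 (.lc 4 4 (.lc 4 4 (.lc 4 4 (.lc 4 4 (.lc 4 4 (.lc 5 4 (.lc 5 4 (.lc 5 4 (.lc 5 4 .stop)))))))))))))))))))))))))))))))))))))))))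
 (.node [32,120,130] 8 2 (.node [128] 7 8 (.node [113,128] 1 8 (.far [1,1,4096,256,0,0,1,1] 4096 .stop)
 (.lc 2 4 (.node [118,128] 6 8 (.far [1,1,4096,256,0,0,1,1] 4096 (.lc 3 5 (.far [16,16,256,4096,0,0,16,16] 1 (.node [105,144] 3 6 (.far [1,4112,16,0,4112,16,257] 0 (.lc 3 1 (.lc 1 0 (.lc 1 0 (.lc 3 1 (.lc 4 1 .stop))))))
 (.lc 1 0 .stop)))))
 (.node [121,128] 9 8 (.far [1,1,4096,256,0,0,1,1] 4096 (.lc 3 1 (.lc 3 6 (.lc 3 10 (.far [16,16,256,4096,0,0,16,16] 1 (.node [96] 3 6 (.lc 0 0 .stop)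
 (.node [154,160] 5 7 (.node [81,121] 5 1 (.far [257,257,0,0,0,16,256,16,4096] 0 (.node [107,177] 1 7 (.lc 1 10 .stop)
 .stop))
 (.lc 1 4 (.node [90,160,167] 5 10 .stop
 (.node [91,121] 7 9 (.far [4112,1,0,4112,0,4112,256] 0 (.lc 2 10 (.lc 2 10 (.lc 2 10 (.far [4112,1,0,4112,0,4112,256] 0 (.far [4112,1,0,4112,0,4112,256] 0 (.lc 2 7 (.far [4112,1,0,4112,0,4112,256] 0 (.lc 2 10 (.lc 2 10 (.lc 2 10 (.lc 3 10 (.lc 3 10 (.lc 3 10 (.lc 3 10 (.lc 3 10 (.lc 3 10 (.lc 3 10 .stop))))))))))))))))))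
 (.lc 2 4 (.lc 2 4 (.lc 2 4 (.lc 3 4 (.lc 3 4 (.lc 3 4 (.conf [91,177] (.lc 2 4 (.lc 2 4 (.node [81,121,183] 5 1 .stop
 (.conf [92,203] (.lc 2 4 (.lc 2 4 (.lc 3 4 (.lc 3 4 (.lc 3 4 (.lc 3 4 (.lc 3 4 (.lc 3 4 (.lc 3 4 (.lc 3 4 (.lc 4 4 (.lc 4 4 (.lc 4 4 (.lc 4 4 (.lc 4 4 (.lc 4 4 (.lc 4 4 (.lc 4 4 (.lc 4 4 (.lc 4 4 (.lc 4 4 (.lc 4 4 (.lc 5 4 (.lc 5 4 (.lc 5 4 .stop))))))))))))))))))))))))))))))))))))))))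
 (.lc 3 1 (.lc 3 6 (.lc 3 10 (.lc 4 6 (.lc 4 10 (.lc 4 10 (.lc 4 6 (.lc 4 11 .stop)))))))))))))))
 (.lc 2 0 (.lc 2 0 (.lc 2 0 (.node [115,128,54] 7 3 .stop
 (.node [118,128,97] 6 1 (.far [4112,4112,0,4112,16,257] 0 .stop)
 (.node [121,128,145] 1 8 (.node [19] 5 7 (.far [1,1,4096,4112,16,256] 0 (.lc 3 4 (.conf [90,169] (.lc 3 4 (.lc 4 4 .stop)))))
 .stop)
 (.conf [104,128] (.conf [104,128] (.conf [128,152] (.conf [128,152] (.conf [128,152] (.conf [97,118] (.conf [121,145] (.conf [104,128] (.lc 0 4 (.conf [104,128] (.conf [128,152] (.conf [105,118] (.conf [128,152] (.lc 2 0 (.lc 3 4 (.lc 2 0 (.lc 2 0 (.lc 2 0 (.lc 2 0 (.lc 2 0 (.node [97,128] 6 1 (.lc 2 5 .stop)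
 (.node [121,128,145] 1 8 (.far [257,1,0,256,0,0,1,1] 16 .stop)
 (.lc 0 5 (.node [113,128] 6 8 (.far [1,1,4096,256,0,0,1,1] 4096 (.lc 3 5 (.node [105,144] 1 6 .stop
 .stop)))
 (.node [121,128,150] 6 8 (.far [1,1,4096,256,0,0,1,1] 4096 (.lc 3 5 (.node [97] 3 6 (.lc 1 5 .stop)
 (.node [106,160] 3 6 (.lc 1 5 (.lc 3 1 (.lc 2 5 (.lc 2 5 (.lc 3 1 (.lc 4 1 .stop))))))
 (.lc 1 0 .stop)))))
 (.node [113,128] 7 1 .stop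
 (.node [105,128] 7 6 .stop
 (.node [122,128,169] 5 7 (.node [90] 5 10 (.far [257,257,0,0,16,256,16,4096] 0 (.lc 2 5 (.node [97,169] 1 10 (.far [16,256,0,257,0,256,0,16,4096] 0 .stop)
 (.conf [169,186] (.lc 2 5 (.lc 3 5 (.lc 3 5 .stop)))))))
 (.lc 3 4 (.lc 1 9 (.lc 1 9 (.lc 3 4 (.lc 4 4 (.lc 4 4 .stop)))))))
 (.lc 3 0 (.lc 3 0 (.lc 0 4 (.lc 3 0 (.lc 3 0 (.lc 3 0 (.lc 1 1 (.node [97,121,128] 6 1 (.lc 2 5 .stop)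
 (.node [105,128,145] 7 6 .stop
 (.node [122,128,169,145] 1 8 (.node [19] 5 7 (.far [1,1,8208,4112,4112,256] 0 (.lc 3 4 (.lc 1 9 (.lc 3 4 (.lc 4 4 .stop)))))
 .stop)
 (.conf [104,128] (.conf [104,128] (.conf [104,128] (.conf [128,152] (.conf [128,152] (.conf [128,152] (.conf [128,152] (.conf [128,152] (.conf [128,152] (.conf [128,152] (.lc 3 0 (.lc 3 0 (.lc 3 0 (.lc 3 0 (.lc 3 0 (.lc 3 0 (.lc 3 0 (.lc 0 5 (.lc 3 0 (.lc 3 0 (.lc 3 0 (.lc 1 0 (.lc 3 0 (.lc 3 0 (.lc 3 0 (.lc 3 0 (.lc 3 0 (.lc 2 0 (.lc 4 0 (.lc 4 0 (.lc 4 0 (.lc 4 0 (.lc 4 0 (.lc 4 0 (.lc 4 0 .stop)))))))))))))))))))))))))))))))))))))))))))))))))))))))))))))))))))))))))))))))))))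
 (.lc 3 6 (.lc 3 9 (.conf [96,134] (.conf [137,144] (.lc 3 6 (.lc 3 9 (.lc 4 9 (.lc 4 6 (.lc 4 10 .stop))))))))))
 (.lc 3 0 (.lc 3 8 (.lc 4 8 (.lc 4 9 .stop)))))))))
 (.conf [66,80] (.conf [66,87] (.conf [66,81] (.conf [66,87] (.conf [66,87] (.conf [66,80] (.conf [66,81] (.conf [66,88] (.node [66,81,54] 0 4 (.far [256,0,0,1,1] 4096 .stop)
 (.conf [87,112] (.conf [87,113] (.conf [66,116] (.conf [66,116] (.conf [66,116] (.conf [66,80] (.conf [66,87] (.far [257,0,1,1] 4096 (.node [66,87,32,54] 6 5 (.node [103] 3 6 (.node [48,103] 3 0 (.lc 0 0 .stop)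
 (.lc 2 1 (.lc 1 3 (.node [56,103] 3 8 (.far [257,257,0,0,257,257,4096] 0 (.lc 0 0 (.node [120,134,49,120] 7 8 .stop
 (.node [134,152,49] 8 6 (.node [103,128,152] 8 0 (.far [257,257,256,1,0,0,257,257,4096] 0 (.node [154,160] 0 6 (.lc 1 2 .stop)
 .stop))
 (.lc 1 3 (.node [103,138,152] 6 7 (.far [4112,1,0,1,4112,0,256] 0 (.lc 2 2 (.lc 2 2 (.lc 2 2 (.far [4112,1,0,1,4112,0,256] 0 (.far [4112,1,0,1,4112,0,256] 0 (.far [4112,1,0,1,4112,0,256] 0 (.lc 2 2 (.lc 2 2 (.lc 2 2 (.lc 3 2 (.lc 3 2 (.lc 3 2 (.lc 3 2 (.lc 3 2 (.lc 3 2 (.lc 3 2 .stop)))))))))))))))))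
 (.lc 2 3 (.lc 2 3 (.node [131,144,103] 0 6 .stop
 (.lc 2 3 (.conf [131,166,103] (.conf [138,160] (.lc 2 3 (.lc 2 3 (.node [103,128,166,152] 8 0 .stop
 (.conf [139,186] (.lc 2 3 (.lc 2 3 (.lc 2 3 (.conf [131,144] (.lc 2 3 (.conf [131,154] (.lc 3 3 (.lc 3 3 (.lc 3 3 (.conf [131,154] (.lc 3 3 (.lc 3 3 (.conf [131,144] (.conf [131,155] (.lc 3 3 (.lc 3 3 (.lc 3 3 (.lc 3 3 (.lc 3 3 (.lc 3 3 (.lc 4 3 (.lc 4 3 (.lc 4 3 .stop))))))))))))))))))))))))))))))))))))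
 (.lc 0 0 (.node [152,134] 6 7 (.node [96,114] 6 0 (.far [4112,4112,0,1,4112,0,256] 0 (.lc 0 10 .stop))
 (.lc 1 2 (.lc 2 3 (.node [151,152,134] 6 9 (.lc 0 3 .stop)
 (.node [106,114] 8 6 (.far [1,4112,0,1,4112,0,256] 0 (.lc 3 0 (.lc 3 11 (.node [167,99,128,152] 0 10 (.node [167] 2 10 (.lc 0 2 .stop)
 (.lc 1 2 (.lc 1 2 .stop)))
 (.lc 3 3 (.node [167,186,99,139,152] 7 2 (.far [1,0,0,4112,4112,1,1,4096,0,257] 4096 (.node [146,152] 7 9 .stop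
 (.lc 2 2 (.node [178,186,167] 7 11 .stop
 (.node [124] 10 7 (.far [16,257,0,16,0,0,4096,1] 0 (.conf [166,188] (.far [16,257,0,16,0,0,4096,1] 0 (.conf [173,220] (.node [166,188,194,114] 8 11 (.node [140] 8 12 (.node [156] 12 2 .stop
 (.lc 0 0 (.lc 0 13 .stop)))
 (.lc 3 3 (.lc 1 2 (.lc 3 3 (.lc 1 2 (.lc 3 3 (.lc 4 3 (.lc 4 3 .stop))))))))
 (.conf [166,194,114] (.conf [166,194,114] .stop)))))))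
 (.node [124,192,124,167,186] 10 7 (.far [1,4096,0,1,0,0,256,256,0,1,1] 4096 (.lc 3 6 (.lc 1 0 (.lc 3 6 (.lc 4 6 .stop)))))
 (.lc 3 2 (.lc 3 2 (.node [124,192,124,167,186] 10 7 (.far [1,4096,0,1,0,0,256,256,0,1,1] 4096 (.lc 3 6 (.lc 1 0 (.lc 3 6 (.lc 4 6 .stop)))))
 (.lc 3 2 (.node [125,220,125,194,167,186] 10 7 (.node [173,220,194] 10 13 (.node [189] 11 13 (.node [188] 8 11 (.node [140] 8 12 .stop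
 (.lc 0 12 .stop))
 (.lc 3 8 (.lc 1 2 (.lc 1 2 (.lc 1 12 .stop)))))
 (.lc 0 12 (.lc 0 0 (.lc 0 14 (.lc 1 2 (.lc 0 0 (.lc 0 14 .stop)))))))
 (.lc 3 6 (.lc 1 12 (.lc 1 12 (.lc 3 6 (.lc 4 6 (.lc 4 6 .stop)))))))
 (.node [144,152] 7 9 .stop
 (.lc 3 2 (.node [176,186,167] 7 11 .stop
 (.node [124] 10 7 (.far [16,257,0,16,0,0,4096,1] 17 (.conf [166,188] (.conf [173,220] (.far [16,257,16,256,0,16,1,1,4096] 17 (.conf [166,192,114] .stop)))))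
 (.lc 3 2 (.lc 3 2 (.lc 4 2 (.node [125,220,125,192,167,186] 10 7 (.node [173,220,192] 10 13 (.node [189] 11 13 (.far [16,256,16,257,16,256,0,16,1,1,4096] 17 (.lc 3 8 (.lc 1 0 (.lc 1 12 .stop))))
 (.lc 0 12 (.lc 0 14 (.lc 1 0 (.lc 0 14 .stop)))))
 (.lc 3 6 (.lc 1 12 (.lc 3 6 (.lc 4 6 .stop)))))
 (.lc 4 2 (.lc 4 2 (.lc 4 2 (.lc 4 2 (.lc 4 2 (.lc 5 2 .stop)))))))))))))))))))))))))
 (.lc 3 0 (.lc 3 11 (.lc 4 11 (.lc 4 0 (.lc 4 12 .stop)))))))))))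
 (.lc 3 3 (.lc 2 2 (.lc 2 2 (.lc 2 2 (.lc 2 2 (.lc 2 2 (.lc 3 3 (.lc 2 2 (.lc 3 3 (.lc 3 3 (.lc 3 3 (.lc 3 3 (.node [106,114,160,106,134,152] 0 7 (.lc 1 0 .stop)
 (.lc 2 2 (.node [96,114,167] 6 0 .stop
 (.lc 3 3 (.node [114,167,186,107,134,152] 8 6 (.far [1,4112,0,1,4112,0,256] 0 (.lc 3 0 (.lc 3 12 (.lc 1 10 (.lc 3 3 (.lc 1 10 (.lc 3 0 (.lc 3 12 (.lc 4 12 (.lc 4 0 (.lc 4 13 .stop)))))))))))
 (.lc 2 2 (.lc 3 3 (.lc 2 2 (.lc 2 2 (.lc 3 3 (.lc 2 2 (.lc 3 3 (.lc 2 2 (.lc 2 2 (.lc 3 3 (.lc 3 3 (.lc 3 3 (.lc 3 3 (.lc 3 3 (.lc 3 3 (.lc 3 2 (.lc 4 3 (.lc 3 2 (.lc 4 3 (.lc 3 2 (.lc 3 2 (.lc 4 3 (.lc 3 2 (.lc 4 3 (.lc 4 3 (.lc 4 3 (.lc 4 3 (.lc 4 3 (.lc 4 3 (.lc 4 3 (.lc 4 3 (.lc 4 3 (.lc 4 3 (.lc 4 3 (.lc 4 3 (.lc 4 3 (.lc 4 3 (.lc 4 3 (.lc 5 3 (.lc 5 3 (.lc 5 3 (.lc 5 3 .stop))))))))))))))))))))))))))))))))))))))))))))))))))))))))))))))))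
 (.lc 0 0 (.far [257,257,0,0,257,257,4096] 0 (.lc 0 0 (.node [134,152,169,49] 8 6 (.node [103,128,152,169] 8 0 (.far [257,257,256,1,0,0,257,257,4096] 0 (.lc 0 11 .stop))
 (.lc 1 3 (.node [103,139,152,169] 9 8 (.far [16,257,256,1,0,0,257,257,4096] 0 (.lc 3 0 (.lc 3 7 (.lc 3 12 (.lc 1 6 (.lc 1 6 (.lc 3 0 (.lc 3 12 (.lc 4 12 (.lc 4 0 (.lc 4 13 .stop)))))))))))
 (.lc 2 3 (.lc 2 3 (.conf [131,144] (.lc 2 3 (.conf [131,155] (.conf [139,176] (.lc 2 3 (.lc 2 3 (.node [103,128,182,152,169] 8 0 .stop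
 (.conf [140,203] (.lc 2 3 (.lc 2 3 (.lc 2 3 (.node [131,144,169,103] 0 6 (.far [1,1,0,1,4112,0,256] 0 (.lc 1 2 (.lc 1 2 .stop)))
 (.lc 2 3 (.node [131,155,169,103] 10 9 (.conf [171,182] (.lc 3 0 (.lc 3 7 (.lc 3 12 (.lc 1 6 (.lc 1 6 (.lc 3 0 (.lc 3 12 (.lc 4 12 (.lc 4 0 (.lc 4 13 .stop)))))))))))
 (.lc 3 3 (.lc 3 3 (.lc 3 3 (.node [131,155,176,169,103] 0 6 .stop
 (.lc 3 3 (.lc 3 3 (.conf [131,182,103] (.conf [131,182,103] (.lc 3 3 (.lc 3 3 (.lc 3 3 (.lc 3 3 (.lc 3 3 (.lc 3 3 (.lc 4 3 (.lc 4 3 (.lc 4 3 .stop))))))))))))))))))))))))))))))))))))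
 .stop))))))))))
 (.lc 0 0 (.lc 2 7 (.lc 2 7 (.lc 3 1 (.lc 2 7 (.lc 0 0 (.lc 3 1 (.lc 3 1 (.lc 0 0 (.node [56,103,128,56] 0 6 (.node [103] 2 6 (.lc 0 2 .stop)
 (.lc 2 0 .stop))
 (.lc 2 3 (.lc 3 1 (.lc 2 3 (.node [48,103,134] 3 0 (.lc 0 0 .stop)
 (.lc 3 1 (.node [103,134,152,57] 3 9 (.node [152] 6 7 (.node [96,114] 6 0 (.node [128] 8 0 (.node [129,152] 9 8 .stop
 (.node [135,152] 8 7 .stop
 (.conf [138,161] (.far [4096,0,0,4096,0,0,0,0,0,257] 16 .stop))))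
 (.lc 0 1 (.lc 0 1 (.lc 0 10 (.far [257,257,257,256,256,256,0,1,4096] 4097 (.lc 0 10 .stop))))))
 (.node [97,114] 6 1 .stop
 (.lc 1 2 (.lc 2 3 (.node [106,114] 8 6 (.node [138] 9 8 (.node [138,144] 0 8 (.node [167] 9 0 (.node [] 7 2 (.lc 2 2 (.node [123] 10 7 (.far [16,257,0,0,0,0,16,0,0,4096,1] 0 (.far [16,257,0,0,0,0,16,0,0,4096,1] 0 .stop))
 (.lc 3 2 (.lc 3 2 (.node [124,203,124,178] 10 7 (.node [203] 10 12 .stop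
 (.lc 1 11 .stop))
 (.lc 3 2 (.lc 3 2 .stop)))))))
 .stop)
 (.lc 1 7 (.lc 1 7 .stop)))
 (.node [138,155] 8 10 (.node [167] 9 11 (.node [186] 7 2 (.far [1,4112,4112,4096,4096,4112,4096,0,4096,1,0,0,257] 4096 (.lc 2 2 (.node [124] 10 7 (.far [16,257,0,0,0,0,16,0,0,4096,1] 0 (.conf [166,188,194] (.far [16,257,0,0,0,0,16,0,0,4096,1] 0 (.far [16,257,0,0,0,0,16,0,0,4096,1] 0 .stop))))
 (.node [124,192,124] 10 7 (.far [1,4096,4112,4112,4096,4096,4096,4096,0,0,0,0,0,257] 4096 (.lc 3 6 (.lc 1 0 .stop)))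
 (.lc 3 2 (.lc 3 2 (.node [124,192,124] 10 7 (.far [1,4096,4112,4112,4096,4096,4096,4096,0,0,0,0,0,257] 4096 (.lc 3 6 (.lc 1 0 .stop)))
 (.node [125,220,125,194] 10 7 (.node [220] 10 13 (.node [220,194] 11 13 .stop
 (.far [257,257,0,0,16,0,4096,4096] 0 .stop))
 (.lc 3 6 (.lc 1 12 (.lc 1 12 .stop))))
 (.lc 3 2 (.node [124] 10 7 (.far [16,257,0,0,0,0,16,0,0,4096,1] 17 (.conf [166,188,192] (.far [16,257,0,0,0,0,16,0,0,4096,1] 17 .stop)))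
 (.lc 3 2 (.lc 3 2 (.node [125,220,125,192] 10 7 (.node [220] 10 13 (.node [220,192] 11 13 .stop
 (.far [257,257,0,0,16,0,4096,4096] 0 .stop))
 (.lc 3 6 (.lc 1 12 .stop)))
 (.lc 4 2 (.lc 4 2 .stop)))))))))))))))
 (.lc 2 10 (.lc 2 10 (.far [4112,4112,4096,4112,0,1,256] 4097 (.far [4112,4112,4096,4112,0,1,256] 0 (.lc 2 10 (.lc 2 10 (.lc 3 10 (.lc 3 10 .stop)))))))))
 (.lc 2 7 (.lc 2 7 (.lc 2 7 (.lc 0 0 (.lc 0 12 (.lc 2 7 (.lc 2 7 (.lc 3 7 (.lc 3 7 (.lc 3 7 (.lc 3 7 .stop))))))))))))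
 (.conf [134,144] (.conf [134,155] (.conf [138,145] (.conf [138,145] (.conf [155,176] (.conf [138,184] (.conf [138,184] (.lc 1 7 (.lc 1 7 (.node [134,145,167] 7 2 (.far [1,4096,4096,4112,4096,0,4096,1,0,0,257] 4096 (.lc 2 2 (.node [123] 10 7 (.far [16,257,0,0,16,0,0,4096,1] 0 (.lc 3 1 (.far [16,257,0,0,16,0,0,4096,1] 0 (.far [16,257,0,0,16,0,0,4096,1] 0 (.lc 4 1 .stop)))))
 (.node [123,176,123] 10 7 (.far [1,4096,4096,4096,4096,4096,0,0,0,0,0,257] 4096 (.lc 3 1 (.lc 1 0 .stop)))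
 (.lc 3 2 (.lc 3 2 (.node [123,176,123] 10 7 (.far [1,4096,4096,4096,4096,4096,0,0,0,0,0,257] 4096 (.lc 3 1 (.lc 1 0 .stop)))
 (.node [124,203,124,178] 10 7 (.node [203] 1 10 (.far [1,4112,0,257,256,256] 0 (.node [178,199] 11 2 .stop
 (.far [1,4112,0,257,256,256] 4097 (.far [1,4096,4112,257,257,0,0,1,16,16,256] 4097 .stop))))
 (.lc 3 1 (.lc 1 11 (.lc 1 11 (.lc 4 1 .stop)))))
 (.lc 3 2 (.node [123] 10 7 (.far [16,257,0,0,16,0,0,4096,1] 17 (.lc 3 1 (.far [16,257,0,0,16,0,0,4096,1] 17 .stop)))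
 (.lc 3 2 (.node [124,203,124,176] 10 7 (.node [203] 1 10 (.far [1,4112,0,257,256,256] 0 (.far [16,256,257,4112,4112,0,0,16,1,1,4096] 17 .stop))
 (.lc 3 1 (.lc 1 11 .stop)))
 (.lc 4 2 .stop)))))))))))))
 (.conf [138,145] (.conf [138,145] (.lc 2 7 (.lc 2 7 (.lc 2 7 (.conf [138,145] (.conf [138,145] (.far [4096,4112,0,1,256] 4097 (.conf [134,167,186] (.lc 2 7 (.lc 2 7 (.lc 2 7 (.lc 2 7 (.lc 3 7 (.lc 3 7 .stop)))))))))))))))))))))))))))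
 (.lc 3 0 (.lc 3 1 (.lc 3 11 (.lc 1 7 (.lc 1 7 (.lc 3 0 (.lc 3 11 (.lc 4 1 (.lc 4 11 (.lc 4 0 (.lc 4 12 .stop))))))))))))
 (.lc 2 2 (.lc 3 3 (.lc 2 2 (.lc 3 3 (.lc 2 2 (.lc 2 2 (.lc 3 3 (.lc 2 2 (.lc 3 3 (.lc 3 3 (.node [97,114] 6 1 .stop
 (.lc 3 3 (.conf [106,160] (.lc 2 2 (.node [96,114,167] 6 0 (.lc 0 1 .stop)
 (.lc 3 3 (.conf [107,186] (.lc 2 2 (.lc 3 3 (.lc 2 2 (.lc 2 2 (.lc 2 2 (.lc 3 3 (.lc 2 2 (.lc 3 3 (.lc 3 3 (.lc 3 3 (.lc 3 3 (.lc 3 3 (.lc 3 3 (.lc 3 3 (.lc 4 3 (.lc 3 2 (.lc 4 3 (.lc 3 2 (.lc 3 2 (.lc 4 3 (.lc 3 2 (.lc 3 2 (.lc 4 3 (.lc 3 2 (.lc 4 3 (.lc 4 3 (.lc 4 3 (.lc 4 3 (.lc 4 3 (.lc 4 3 (.lc 4 3 (.lc 4 3 (.lc 4 3 (.lc 4 3 (.lc 4 3 (.lc 4 3 (.lc 4 3 (.lc 4 3 (.lc 4 3 (.lc 4 3 (.lc 4 3 (.lc 4 3 (.lc 4 3 (.lc 5 3 (.lc 5 3 (.lc 5 3 (.lc 5 3 (.lc 5 3 (.lc 5 3 .stop)))))))))))))))))))))))))))))))))))))))))))))))))))))))))))))))))))))))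
 (.lc 0 0 (.lc 2 8 (.lc 2 8 (.lc 0 0 (.node [152,169,152,134] 8 6 (.node [103,128] 0 6 (.far [1,1,4112,4096,4096,4096,0,16,256] 0 (.lc 1 2 (.lc 1 2 .stop)))
 (.lc 1 3 (.lc 0 9 (.node [103,139] 6 7 (.far [4112,1,4112,4096,4096,4096,0,16,256] 0 (.lc 2 2 (.lc 2 2 (.lc 2 2 (.lc 0 0 (.lc 0 12 (.lc 2 2 (.lc 2 2 (.lc 3 2 (.lc 3 2 (.lc 3 2 .stop)))))))))))
 (.lc 2 3 (.lc 2 3 (.lc 0 10 (.lc 3 10 (.lc 3 11 (.lc 2 3 (.lc 2 3 (.lc 2 3 (.lc 3 0 (.lc 3 10 (.lc 3 12 (.node [103,139,176] 0 6 .stop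
 (.lc 2 3 (.lc 2 3 (.conf [103,182] (.conf [103,182] (.lc 2 3 (.lc 2 3 (.lc 2 3 (.lc 2 3 (.lc 2 3 (.lc 2 3 (.lc 2 3 (.lc 3 11 (.lc 1 6 (.lc 3 0 (.lc 2 3 (.lc 2 3 (.lc 3 0 (.lc 3 11 (.lc 3 0 (.lc 3 12 (.lc 3 3 (.lc 3 3 (.lc 3 3 (.lc 1 0 (.lc 4 12 (.lc 3 3 (.lc 3 3 (.lc 3 3 (.lc 4 12 (.lc 4 0 (.lc 4 13 (.lc 3 3 (.lc 3 3 (.lc 3 3 (.lc 3 3 (.lc 3 3 (.lc 1 7 (.lc 3 3 (.lc 3 3 (.lc 3 3 (.lc 3 3 (.lc 0 10 (.lc 3 3 (.lc 3 3 (.lc 3 3 (.lc 3 3 (.lc 3 3 (.lc 1 0 (.lc 4 3 (.lc 4 3 (.lc 4 3 (.lc 4 3 .stop))))))))))))))))))))))))))))))))))))))))))))))))))))))))))))))))))))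
 (.lc 0 0 (.lc 2 8 (.lc 0 0 (.lc 3 8 .stop))))))))))
 (.lc 0 0 (.lc 2 7 (.lc 2 7 (.lc 3 1 (.lc 2 7 (.lc 0 0 (.lc 3 1 (.lc 0 0 (.lc 3 1 (.lc 3 1 (.lc 3 7 (.lc 0 0 (.lc 3 7 (.lc 3 7 (.lc 4 1 (.lc 3 7 (.lc 0 0 (.lc 4 1 (.lc 0 0 (.lc 4 1 (.lc 0 0 (.lc 4 1 (.lc 0 0 (.lc 4 1 (.lc 0 0 (.lc 4 1 (.lc 0 0 (.lc 5 1 .stop))))))))))))))))))))))))))))))))))))))))))))))))
 (.lc 3 0 (.lc 3 1 (.lc 3 8 (.lc 1 2 (.lc 1 2 (.lc 1 2 (.lc 3 0 (.lc 3 1 (.lc 3 8 (.lc 4 1 (.lc 4 8 (.lc 4 8 (.lc 4 0 (.lc 4 1 (.lc 4 9 .stop))))))))))))))))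
 (.conf [66,81] (.conf [66,87] (.conf [66,87] (.conf [66,80] (.conf [66,81] (.conf [66,88] (.conf [66,87] (.conf [66,88] (.conf [66,87] (.conf [66,88] (.conf [66,88] (.conf [66,81] (.conf [66,88] (.conf [66,88] (.conf [66,80] (.conf [66,81] (.conf [66,89] (.node [66,87,112,54] 5 7 (.far [4112,4096,1,256] 0 (.lc 2 0 (.lc 2 0 (.far [4112,4096,1,256] 0 (.far [4112,4096,1,256] 0 (.lc 2 0 (.lc 2 0 (.lc 3 0 (.lc 3 0 (.lc 3 0 .stop))))))))))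
 (.conf [66,114,32] (.node [66,87,112,32,54] 5 7 (.conf [103,112] (.lc 0 1 (.lc 0 8 (.lc 0 1 (.lc 0 8 (.lc 2 0 (.lc 2 0 (.lc 0 8 (.lc 0 1 (.lc 0 9 .stop))))))))))
 (.node [66,88,135,32,114,54] 5 8 (.conf [104,135] (.lc 0 0 (.lc 0 1 (.lc 0 9 (.lc 0 0 (.lc 0 1 (.lc 0 9 (.lc 2 7 (.lc 2 7 (.lc 2 7 (.lc 0 1 (.lc 0 9 (.lc 0 9 (.lc 0 0 (.lc 0 1 (.lc 0 10 .stop))))))))))))))))
 (.node [66,87,112,32,54] 6 5 (.far [16,256,16,4096] 17 (.lc 3 1 (.lc 3 8 (.far [16,256,16,4096] 17 (.conf [104,135] (.lc 3 1 (.lc 3 8 (.lc 4 8 (.lc 4 1 (.lc 4 9 .stop))))))))))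
 (.conf [32,88,114,135] (.node [66,88,135,32,112,54] 5 8 (.conf [104,135] (.lc 0 1 (.lc 0 9 (.lc 0 1 (.lc 0 9 (.lc 2 7 (.lc 2 7 (.lc 0 9 (.lc 0 1 (.lc 0 10 .stop))))))))))
 (.conf [32,89,114,135,152] .stop))))))))))))))))))))))))))))))))))))))))))))))

theorem t12 : kNode2 awTt FTt 5 4 (check tyTt awTt triet FTt [] c12) (fun _ _ _ => true) 0 s12 Pl.nil s12 =
    true := by
  decide +kernel

end Chk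
end Pool.Agent.Lib.MP_ba95e8_co
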