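import Pool.Agent.Lib.MP_ba95e8_co.ChkTab
import Pool.Agent.Lib.MP_ba95e8_co.ChkStates

/-!
Deltahedral domes: part 24 of the case analysis.
-/

namespace Pool.Agent.Lib.MP_ba95e8_co
namespace Chk

/-- certificate number 24 -/
def c24 : Cert := (.node [64,50] 4 0 (.node [69,50] 0 3 (.lc 1 0 (.node [83] 4 5 (.node [] 3 2 (.node [48,82] 5 2 .stop
 (.node [54] 5 3 (.node [86] 5 6 (.node [22] 1 6 (.node [98] 6 2 (.node [] 1 7 .stop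
 (.far [4112,1,1,256,256] 0 .stop))
 (.node [98,118,135,98] 7 6 (.far [16,16,16,4096,4096] 0 (.lc 3 9 .stop))
 .stop))
 (.node [98,118,80] 7 6 (.node [114] 1 7 .stop
 (.far [1,4096,16,256,1,256,256] 0 .stop))
 (.far [4112,4112,0,1,256,256] 0 (.far [257,257,0,16,4096,4096] 0 (.node [98,118,135,80] 7 6 (.far [16,256,1,4096,16,4096,4096] 0 (.lc 3 9 .stop))
 .stop)))))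
 (.far [16,257,257,256,256,0,4096] 0 .stop))
 (.node [32,55,118,55] 5 3 (.node [87,118] 5 7 (.node [23,118] 7 6 (.node [98] 6 2 .stop
 (.far [257,256,0,1,256,0,0,0,4096] 0 .stop))
 (.node [22,98,115] 6 2 .stop
 (.conf [118,135] (.conf [98,115] (.conf [98,115] .stop)))))
 (.lc 1 6 .stop))
 (.lc 3 0 (.node [55,118,55,98] 5 3 (.far [1,4112,4112,4096,4096,0,256] 0 (.lc 1 6 .stop))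
 (.conf [32,98] (.conf [32,98] (.lc 3 0 (.conf [32,98] (.lc 4 0 .stop))))))))))
 (.lc 2 3 (.node [101] 3 2 (.far [4112,4112,4096,4096,0,256] 0 (.node [98,101] 3 6 (.far [4096,0,16,4096,4096] 0 .stop)
 (.node [55] 5 3 (.far [1,4112,4112,4096,4096,0,256] 0 (.conf [103,114] (.conf [103,114] (.conf [88,135] (.conf [80,103] (.conf [80,104] .stop))))))
 (.node [80,98] 6 2 .stop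
 (.node [32,98,101,118,55] 6 2 .stop
 (.node [32,56,135,56] 5 3 (.node [88,135,101] 5 8 (.far [257,257,0,16,4096,4096] 0 (.lc 0 7 (.lc 0 9 (.lc 2 3 (.lc 0 9 .stop)))))
 (.lc 3 0 (.lc 1 7 (.lc 1 7 (.lc 3 0 (.lc 4 0 .stop))))))
 (.lc 3 0 (.lc 3 0 (.conf [80,98] (.node [56,135,56,114] 5 3 (.far [1,4112,4112,4096,4096,0,256] 0 (.lc 3 0 (.lc 1 7 (.lc 1 7 (.lc 3 0 (.lc 4 0 .stop))))))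
 (.conf [48,80] (.conf [32,114] (.conf [32,114] (.conf [32,114] (.lc 3 0 (.lc 3 0 (.lc 3 0 (.conf [80,103] (.conf [32,114] (.lc 4 0 (.lc 4 0 (.lc 4 0 (.lc 4 0 (.lc 4 0 (.lc 5 0 .stop)))))))))))))))))))))))))
 (.lc 2 3 (.lc 3 3 .stop)))))
 (.lc 2 2 (.far [4112,1,256] 0 (.lc 2 2 (.lc 3 2 .stop))))))
 (.conf [70,101] .stop))
 (.asm [69,50] 0 (.node [69,80,69,50] 0 3 (.lc 1 2 (.lc 2 2 .stop))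
 (.node [50,64,83] 4 0 .stop
 (.node [70,101,70,50] 4 6 (.lc 2 0 (.lc 2 7 (.lc 3 7 (.lc 3 0 (.lc 3 8 (.lc 0 0 (.node [101,118] 7 6 (.lc 1 5 (.lc 1 5 (.lc 1 5 (.node [83,112] 7 0 .stop
 (.node [83,120] 5 3 (.lc 1 2 (.lc 1 2 (.lc 1 2 (.lc 3 0 (.conf [32,130] (.lc 3 9 (.lc 2 2 (.lc 2 2 (.lc 2 2 (.lc 2 2 (.lc 2 2 (.lc 2 2 (.lc 2 2 (.lc 2 2 (.lc 3 0 (.lc 0 2 (.lc 3 9 (.lc 3 0 (.lc 3 9 (.lc 2 2 (.lc 2 2 (.lc 2 2 (.far [256,16,256,0,4096] 17 (.lc 4 9 (.conf [32,146] (.lc 4 10 (.lc 3 2 (.lc 3 2 (.lc 3 2 (.lc 3 2 (.lc 4 9 (.lc 4 10 (.lc 4 9 (.lc 4 10 (.lc 4 9 (.lc 4 10 (.lc 5 10 (.lc 5 11 .stop))))))))))))))))))))))))))))))))))))))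
 (.lc 2 5 (.lc 2 5 (.lc 2 5 (.lc 2 5 (.lc 2 5 (.lc 2 5 (.lc 2 5 (.lc 2 5 (.lc 2 5 (.lc 1 3 (.lc 1 3 (.lc 1 3 (.lc 3 0 (.lc 3 2 (.lc 3 8 (.lc 2 5 (.lc 2 5 (.lc 2 5 (.lc 2 5 (.lc 2 5 (.lc 2 3 (.lc 2 3 (.lc 2 3 (.lc 2 3 (.lc 3 5 (.lc 3 5 (.lc 3 5 (.lc 3 5 (.lc 3 5 (.lc 3 5 (.lc 4 8 (.lc 4 0 (.lc 4 0 (.lc 4 9 (.lc 2 3 (.lc 2 3 (.lc 2 3 (.lc 2 3 (.lc 2 3 (.lc 2 3 (.lc 2 3 (.lc 2 3 (.lc 2 3 (.lc 2 3 (.lc 3 3 (.lc 3 3 (.lc 3 3 (.lc 3 3 (.lc 3 3 (.lc 3 3 .stop)))))))))))))))))))))))))))))))))))))))))))))))))))))))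
 (.lc 3 7 (.lc 3 0 (.lc 3 8 (.lc 3 7 (.lc 3 0 (.lc 3 8 (.lc 0 0 (.lc 2 5 (.lc 0 0 (.node [101,118] 7 6 (.lc 1 5 (.lc 1 5 (.lc 1 5 (.node [83,112] 0 5 (.lc 1 3 (.lc 2 3 (.node [] 1 7 (.lc 1 0 (.lc 2 8 (.lc 3 9 (.lc 3 9 (.lc 3 9 (.lc 4 10 .stop))))))
 (.lc 2 3 (.lc 2 3 (.lc 3 3 .stop))))))
 (.node [83,133,120] 5 3 (.lc 1 2 (.lc 1 2 (.lc 1 2 (.lc 3 0 (.conf [32,130] (.lc 3 9 (.lc 2 2 (.lc 2 2 (.lc 2 2 (.lc 2 2 (.lc 2 2 (.lc 2 2 (.lc 2 2 (.lc 2 2 (.lc 3 0 (.lc 0 2 (.lc 3 9 (.lc 3 0 (.lc 3 9 (.lc 2 2 (.lc 2 2 (.lc 2 2 (.far [4112,1,1,256,256] 0 (.lc 4 9 (.conf [32,146] (.lc 4 10 (.lc 3 2 (.lc 3 2 (.lc 3 2 (.lc 3 2 (.lc 4 9 (.lc 4 10 (.lc 4 9 (.lc 4 10 (.lc 4 9 (.lc 4 10 (.lc 5 10 (.lc 5 11 .stop))))))))))))))))))))))))))))))))))))))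
 (.lc 2 5 (.lc 2 5 (.lc 2 5 (.lc 2 5 (.lc 2 5 (.lc 2 5 (.lc 2 5 (.lc 2 5 (.lc 2 5 (.lc 1 3 (.lc 1 3 (.lc 1 3 (.node [83,112] 7 0 (.lc 2 8 (.lc 3 9 .stop))
 (.node [83,114] 3 2 (.lc 2 0 (.lc 3 8 .stop))
 (.node [83,120] 5 3 (.lc 1 2 (.lc 1 2 (.lc 1 2 (.lc 3 0 (.lc 0 2 (.lc 3 9 (.lc 2 2 (.lc 2 2 (.lc 2 2 (.lc 2 2 (.lc 2 2 (.lc 2 2 (.lc 2 2 (.lc 2 2 (.lc 3 0 (.conf [32,130] (.lc 3 9 (.lc 3 0 (.lc 3 9 (.lc 2 2 (.lc 2 2 (.lc 2 2 (.lc 0 0 (.lc 4 9 (.lc 0 9 (.lc 4 10 (.lc 3 2 (.lc 3 2 (.lc 3 2 (.lc 3 2 (.lc 4 9 (.lc 4 10 (.lc 4 9 (.lc 4 10 (.lc 4 9 (.lc 4 10 (.lc 5 10 (.lc 5 11 .stop))))))))))))))))))))))))))))))))))))))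
 (.lc 2 5 (.lc 2 5 (.lc 2 5 (.lc 2 5 (.lc 2 5 (.lc 2 3 (.lc 2 3 (.lc 2 3 (.lc 2 3 (.lc 3 5 (.lc 3 5 (.lc 3 5 (.lc 3 5 (.lc 3 5 (.lc 3 5 (.node [83,120,128] 0 5 (.lc 1 3 (.lc 2 3 (.far [1,1,1,256,256] 0 (.lc 2 3 (.lc 2 3 (.lc 3 3 .stop))))))
 (.conf [37,83] (.node [83,112,133] 7 0 .stop
 (.node [83,121,133] 5 3 (.lc 1 2 (.lc 1 2 (.lc 1 2 (.lc 3 0 (.conf [32,130] (.lc 3 10 (.lc 2 2 (.lc 2 2 (.lc 2 2 (.lc 2 2 (.lc 2 2 (.lc 2 2 (.lc 2 2 (.lc 2 2 (.lc 3 0 (.lc 0 2 (.lc 3 10 (.lc 3 0 (.lc 3 10 (.lc 2 2 (.lc 2 2 (.lc 2 2 (.far [4112,1,1,256,256] 0 (.lc 4 10 (.conf [32,162] (.lc 4 11 (.lc 3 2 (.lc 3 2 (.lc 3 2 (.lc 3 2 (.lc 4 10 (.lc 4 11 (.lc 4 10 (.lc 4 11 (.lc 4 10 (.lc 4 11 (.lc 5 11 (.lc 5 12 .stop))))))))))))))))))))))))))))))))))))))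
 (.lc 2 3 (.lc 2 3 (.lc 2 3 (.lc 2 3 (.lc 2 3 (.lc 2 3 (.lc 2 3 (.lc 2 3 (.lc 2 3 (.lc 2 3 (.lc 3 3 (.lc 3 3 (.lc 3 3 (.lc 3 3 (.lc 3 3 (.lc 3 3 .stop)))))))))))))))))))))))))))))))))))))))))))))))))))))))
 (.lc 4 8 (.lc 4 8 (.lc 4 0 (.lc 4 9 (.lc 0 0 (.node [101,118,135] 7 6 (.lc 1 5 (.lc 1 5 (.lc 1 5 (.node [83,112] 7 0 .stop
 (.node [83,121] 5 3 (.lc 1 2 (.lc 1 2 (.lc 1 2 (.lc 1 2 (.lc 3 0 (.conf [32,146] (.lc 3 10 (.lc 2 2 (.lc 2 2 (.lc 2 2 (.lc 2 2 (.lc 2 2 (.lc 2 2 (.lc 2 2 (.lc 2 2 (.lc 2 2 (.lc 2 2 (.lc 3 0 (.lc 3 8 (.lc 0 2 (.lc 3 10 (.lc 3 0 (.lc 3 8 (.lc 3 10 (.lc 2 2 (.lc 2 2 (.lc 2 2 (.lc 2 2 (.lc 2 2 (.node [144] 7 9 (.lc 2 0 (.conf [1,128] .stop))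
 (.lc 4 10 (.conf [32,162] (.lc 4 11 (.lc 3 2 (.lc 3 2 (.lc 3 2 (.lc 3 2 (.lc 4 10 (.lc 4 11 (.lc 4 10 (.lc 4 10 (.lc 4 11 (.lc 4 8 (.lc 4 10 (.lc 4 8 (.lc 4 11 (.lc 5 11 (.lc 5 12 .stop))))))))))))))))))))))))))))))))))))))))))))))))
 (.lc 2 5 (.lc 2 5 (.lc 2 5 (.lc 2 5 (.lc 2 5 (.lc 2 5 (.lc 2 5 (.lc 2 5 (.lc 2 5 (.lc 1 3 (.lc 1 3 (.lc 1 3 (.lc 3 0 (.lc 3 2 (.lc 3 9 (.lc 2 5 (.lc 2 5 (.lc 2 5 (.lc 2 5 (.lc 2 5 (.lc 2 3 (.lc 2 3 (.lc 2 3 (.lc 2 3 (.lc 3 5 (.lc 3 5 (.lc 3 5 (.lc 3 5 (.lc 3 5 (.lc 3 5 (.lc 4 9 (.lc 4 0 (.lc 4 0 (.lc 4 10 (.lc 2 3 (.lc 2 3 (.lc 2 3 (.lc 2 3 (.lc 2 3 (.lc 2 3 (.lc 2 3 (.lc 2 3 (.lc 2 3 (.lc 2 3 (.lc 3 3 (.lc 3 3 (.lc 3 3 (.lc 3 3 (.lc 3 3 (.lc 3 3 .stop)))))))))))))))))))))))))))))))))))))))))))))))))))))))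
 (.lc 0 0 (.lc 3 5 (.lc 0 0 (.lc 3 5 (.lc 0 0 (.lc 3 5 (.lc 0 0 (.lc 4 5 .stop)))))))))))))))))))))))))))))))
 (.node [69,80,50] 4 5 (.node [80] 0 3 (.node [48] 5 0 (.lc 2 0 .stop)
 .stop)
 (.node [80,101] 5 0 .stop
 (.node [80,101,80] 5 0 .stop
 (.node [80,101] 5 0 .stop
 (.node [80,101,118] 5 0 .stop
 .stop)))))
 (.node [64,83,50,83] 4 0 (.lc 0 0 .stop)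
 (.node [70,83,101,50] 4 6 (.node [101] 6 5 (.node [83,96] 6 0 (.node [] 5 3 (.lc 2 2 (.lc 1 2 (.lc 2 2 (.far [1,0,1,4112,1,257] 4096 (.lc 0 7 (.lc 1 0 (.lc 2 2 (.lc 2 2 (.lc 0 7 (.lc 0 1 (.lc 3 2 (.lc 0 8 .stop))))))))))))
 (.lc 2 7 (.lc 3 8 .stop)))
 (.lc 0 5 (.node [83,98] 6 2 (.lc 1 5 (.lc 2 5 .stop))
 (.node [83,103] 5 3 (.lc 1 2 (.lc 2 2 (.lc 1 2 (.lc 2 2 (.lc 2 2 (.lc 2 2 (.lc 2 2 (.lc 1 0 (.lc 2 2 (.lc 2 2 (.lc 3 0 (.lc 1 0 (.lc 2 2 (.lc 2 2 (.lc 2 2 (.lc 2 2 (.lc 2 2 (.lc 2 2 (.lc 2 2 (.lc 2 2 (.conf [32,114] (.lc 2 2 (.lc 3 2 (.lc 3 2 (.lc 3 2 (.lc 3 2 (.lc 3 2 (.far [1,1,4112,1,257] 4096 (.lc 2 0 (.lc 3 2 (.lc 3 2 (.lc 3 2 (.lc 3 2 (.lc 3 2 (.lc 3 2 (.lc 3 2 (.lc 3 2 (.lc 3 2 (.lc 3 2 (.lc 3 2 (.lc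 4 2 (.lc 4 2 (.lc 4 2 (.lc 4 2 .stop))))))))))))))))))))))))))))))))))))))))))))
 (.lc 0 0 (.lc 2 3 (.lc 2 3 (.lc 2 3 (.lc 2 3 (.lc 0 7 (.lc 2 3 (.lc 3 7 (.lc 3 0 (.lc 3 0 (.lc 3 2 (.lc 3 8 (.lc 0 0 (.node [83,103,112] 0 5 (.lc 1 3 (.node [] 6 7 (.lc 0 7 (.lc 2 8 (.lc 0 8 (.lc 3 9 (.lc 0 8 (.lc 0 8 (.lc 3 9 (.lc 0 8 (.lc 3 9 (.lc 0 8 (.lc 0 8 (.lc 0 9 (.lc 4 10 (.lc 0 9 (.lc 0 9 (.lc 0 9 (.lc 0 9 (.lc 0 10 .stop))))))))))))))))))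
 (.lc 2 3 .stop)))
 (.conf [37,83] (.node [83,96,117] 6 0 (.node [] 5 3 (.lc 2 2 (.lc 1 2 (.lc 2 2 (.lc 1 0 (.lc 2 2 (.lc 1 0 (.lc 2 2 (.lc 2 2 (.lc 2 2 (.lc 0 2 (.lc 2 2 (.lc 3 2 (.lc 2 0 (.lc 3 2 (.lc 3 2 (.lc 3 2 (.lc 3 2 (.lc 4 2 .stop))))))))))))))))))
 .stop)
 (.lc 0 7 (.node [83,104,117] 6 8 (.lc 2 0 (.lc 0 8 (.lc 2 2 (.lc 2 9 (.lc 0 0 (.lc 3 9 (.lc 3 0 (.lc 3 9 (.lc 3 0 (.lc 0 9 (.lc 3 10 (.lc 3 1 (.lc 0 9 (.lc 0 0 (.lc 3 9 (.lc 3 0 (.lc 3 0 (.lc 0 9 (.lc 3 10 (.lc 2 7 (.lc 3 9 (.lc 3 0 (.lc 3 0 (.lc 0 9 (.lc 3 2 (.lc 3 10 (.lc 3 1 (.lc 0 9 (.lc 0 0 (.lc 0 9 (.lc 4 10 (.lc 4 9 (.lc 0 0 (.lc 4 10 (.lc 4 0 (.lc 4 0 (.lc 0 10 (.lc 4 11 (.lc 0 0 (.lc 0 10 (.lc 0 0 (.lc 0 10 (.lc 0 0 (.lc 0 10 (.lc 4 1 (.lc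 0 10 (.lc 0 0 (.lc 0 11 .stop))))))))))))))))))))))))))))))))))))))))))))))))
 (.lc 2 3 (.lc 2 3 (.lc 2 3 (.lc 2 3 (.lc 0 7 (.lc 2 3 (.lc 2 3 (.lc 2 3 (.lc 2 3 (.lc 2 3 (.lc 2 3 (.lc 2 3 (.lc 2 3 (.lc 3 7 (.lc 3 0 (.lc 3 7 (.lc 3 0 (.lc 3 8 (.lc 3 3 (.lc 3 3 (.lc 0 0 (.lc 3 3 (.lc 3 3 (.lc 3 3 (.lc 0 8 (.lc 3 3 (.lc 4 8 (.lc 4 7 (.lc 4 8 (.lc 4 0 (.lc 4 0 (.lc 4 9 (.lc 3 3 (.lc 3 3 (.lc 3 3 (.lc 3 3 (.lc 3 3 (.lc 3 3 (.lc 3 3 (.lc 3 3 (.lc 3 3 (.lc 3 3 (.lc 3 3 (.lc 3 3 (.lc 3 3 (.lc 3 3 (.lc 3 3 (.lc 3 3 (.lc 3 3 (.lc 3 3 (.lc 3 3 (.lc 3 3 (.lc 3 3 (.lc 4 3 (.lc 4 3 (.lc 4 3 (.lc 4 3 (.lc 4 3 (.lc 4 3 (.lc 4 3 (.lc 4 3 .stop)))))))))))))))))))))))))))))))))))))))))))))))))))))))))))))))))))))))))))))))))))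
 (.lc 0 0 (.node [101,118] 6 5 (.lc 2 0 (.lc 2 2 (.lc 2 8 (.lc 2 3 (.lc 2 3 (.lc 2 3 (.lc 2 3 (.lc 2 3 (.node [83,112] 0 5 (.lc 1 3 (.node [] 1 7 (.far [16,256,257,16,1,1] 4096 (.node [24,112,135] 1 8 .stop
 (.lc 2 0 (.node [25,112,135,152,135] 1 9 .stop
 (.lc 2 0 (.lc 3 0 .stop))))))
 (.lc 2 3 .stop)))
 (.node [83,133,120] 5 3 (.lc 1 2 (.lc 2 2 (.lc 1 2 (.lc 2 2 (.lc 2 2 (.lc 2 2 (.lc 2 2 (.lc 1 0 (.lc 2 2 (.lc 2 2 (.lc 3 0 (.lc 1 0 (.lc 2 2 (.lc 2 2 (.lc 2 2 (.lc 2 2 (.lc 2 2 (.lc 2 2 (.lc 2 2 (.lc 2 2 (.lc 0 2 (.lc 2 2 (.lc 3 2 (.lc 3 2 (.lc 3 2 (.lc 3 2 (.lc 3 2 (.lc 0 0 (.lc 2 0 (.lc 3 2 (.lc 3 2 (.lc 3 2 (.lc 3 2 (.lc 3 2 (.lc 3 2 (.lc 3 2 (.lc 3 2 (.lc 3 2 (.lc 3 2 (.lc 3 2 (.lc 4 2 (.lc 4 2 (.lc 4 2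 (.lc 4 2 .stop))))))))))))))))))))))))))))))))))))))))))))
 (.lc 3 8 (.lc 3 0 (.lc 3 0 (.lc 3 9 (.lc 2 3 (.lc 2 3 (.lc 2 3 (.lc 2 3 (.lc 2 3 (.lc 2 3 (.lc 2 3 (.lc 2 3 (.lc 0 0 (.lc 0 2 (.lc 0 8 (.lc 3 3 (.lc 3 3 (.lc 3 3 (.lc 3 3 (.lc 3 3 (.lc 3 3 (.lc 0 8 (.lc 0 0 (.lc 0 0 (.lc 0 9 (.lc 3 3 (.lc 3 3 (.lc 3 3 (.lc 3 3 (.lc 3 3 (.lc 3 3 (.lc 3 3 (.lc 3 3 (.lc 3 3 (.lc 3 3 (.lc 3 3 (.lc 3 3 (.lc 3 3 (.lc 3 3 (.lc 4 3 (.lc 4 3 (.lc 4 3 (.lc 4 3 (.lc 4 3 (.lc 4 3 .stop)))))))))))))))))))))))))))))))))))))))))))))))))))))))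
 (.lc 0 0 (.node [101,118] 7 6 (.node [101,112] 0 6 (.lc 1 5 (.conf [5,83] (.lc 1 5 (.lc 2 0 (.lc 2 0 (.lc 3 1 (.lc 3 1 (.lc 1 3 (.lc 1 3 (.lc 2 5 (.lc 2 5 (.lc 1 3 (.lc 1 3 (.lc 3 1 (.lc 3 1 (.lc 3 1 (.lc 2 3 (.lc 2 3 (.lc 4 1 (.lc 4 1 (.lc 4 1 (.lc 4 1 (.lc 4 1 (.lc 5 1 .stop))))))))))))))))))))))))
 (.node [101,114] 2 6 .stop
 (.lc 1 4 (.node [101,120] 6 5 (.lc 2 0 (.lc 2 2 (.node [83] 5 3 (.lc 1 2 (.lc 2 2 (.lc 1 2 (.lc 2 2 (.lc 2 2 (.lc 2 2 (.lc 2 2 (.lc 1 0 (.lc 2 2 (.lc 2 2 (.lc 3 0 (.lc 1 0 (.lc 2 2 (.lc 2 2 (.lc 2 2 (.lc 2 2 (.lc 2 2 (.lc 2 2 (.lc 2 2 (.lc 2 2 (.lc 2 2 (.lc 0 2 (.lc 2 2 (.lc 3 2 (.lc 3 2 (.lc 3 2 (.lc 3 2 (.lc 3 2 (.lc 0 0 (.lc 2 0 (.lc 3 2 (.lc 3 2 (.lc 3 2 (.lc 3 2 (.lc 3 2 (.lc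 3 2 (.lc 3 2 (.lc 3 2 (.lc 3 2 (.lc 3 2 (.lc 3 2 (.lc 4 2 (.lc 4 2 (.lc 4 2 (.lc 4 2 .stop)))))))))))))))))))))))))))))))))))))))))))))
 (.lc 2 9 (.lc 2 3 (.lc 2 3 (.lc 2 3 (.lc 2 3 (.lc 2 3 (.lc 2 3 (.lc 2 3 (.lc 2 3 (.lc 3 4 (.lc 3 4 (.node [83,128] 0 5 (.lc 1 3 (.node [] 7 8 (.lc 2 9 (.lc 0 9 (.lc 3 10 (.far [256,257,1,0,4112,1,257] 4096 .stop))))
 (.lc 2 3 .stop)))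
 (.lc 3 9 (.lc 3 0 (.lc 3 0 (.node [83,137] 7 8 (.lc 2 0 (.lc 2 2 (.lc 0 2 (.lc 2 10 (.lc 3 0 (.lc 3 10 (.lc 2 9 (.lc 0 10 (.lc 3 10 (.lc 3 0 (.lc 0 0 (.lc 3 0 (.lc 3 11 (.lc 3 0 (.lc 3 2 (.lc 0 2 (.lc 3 10 (.lc 0 9 (.lc 0 0 (.lc 4 10 (.lc 4 0 (.lc 0 0 (.lc 4 0 (.lc 4 11 (.lc 0 0 (.lc 0 0 (.lc 0 0 (.node [149] 9 5 (.lc 1 3 (.lc 2 3 (.lc 1 2 .stop)))
 (.lc 0 10 (.lc 0 0 .stop))))))))))))))))))))))))))))))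
 (.lc 3 10 (.lc 2 3 (.lc 2 3 (.lc 2 3 (.lc 2 3 (.lc 2 3 (.lc 2 3 (.lc 2 3 (.lc 2 3 (.lc 2 3 (.lc 2 3 (.lc 3 4 (.lc 3 4 (.lc 3 4 (.lc 3 3 (.lc 3 3 (.lc 3 3 (.lc 3 3 (.lc 3 3 (.lc 3 3 (.lc 3 3 (.lc 3 3 (.lc 3 3 (.lc 3 3 (.lc 4 4 (.lc 4 4 (.lc 4 4 (.lc 4 4 (.lc 3 3 (.lc 3 3 (.lc 3 3 (.lc 3 3 (.lc 3 3 (.lc 3 3 (.lc 3 3 (.lc 3 3 (.lc 3 3 (.lc 3 3 (.lc 3 3 (.lc 3 3 (.lc 3 3 (.lc 3 3 (.lc 4 3 (.lc 4 3 (.lc 4 3 (.lc 4 3 (.lc 4 3 (.lc 4 3 .stop)))))))))))))))))))))))))))))))))))))))))))))))))))))))))))))))))))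
 (.lc 2 5 (.lc 2 5 (.lc 2 5 (.lc 2 5 (.lc 2 5 (.lc 3 8 (.lc 3 0 (.lc 1 3 (.lc 1 3 (.lc 1 3 (.lc 3 0 (.lc 3 2 (.lc 3 9 (.node [101,120,128] 0 6 (.lc 1 5 (.lc 2 0 (.lc 1 3 (.lc 2 5 (.lc 1 3 (.lc 2 3 .stop))))))
 (.conf [38,101] (.lc 1 3 (.lc 1 3 (.node [101,112,134] 7 0 .stop
 (.node [101,121,134] 8 6 (.lc 1 5 (.lc 1 5 (.node [83] 8 5 (.lc 1 3 (.lc 1 3 (.lc 1 3 (.lc 1 2 (.lc 0 0 (.lc 1 2 (.lc 2 3 (.lc 2 3 (.lc 2 3 (.lc 2 3 (.lc 2 3 (.lc 2 3 (.lc 1 2 (.lc 1 2 (.lc 1 2 (.lc 2 3 (.lc 2 3 (.lc 2 3 (.lc 2 2 (.lc 2 2 (.lc 2 2 (.lc 3 3 (.lc 3 3 (.lc 3 3 (.lc 3 3 (.lc 2 2 (.lc 1 0 (.lc 2 2 (.lc 2 2 (.lc 2 2 (.lc 2 2 (.lc 2 2 (.lc 3 2 (.lc 3 2 (.lc 3 2 .stop)))))))))))))))))))))))))))))))))))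
 (.lc 1 5 (.lc 2 4 (.lc 2 4 (.lc 2 5 (.lc 2 5 (.lc 1 3 (.lc 1 3 (.lc 1 3 (.lc 2 5 (.lc 2 5 (.lc 2 5 (.lc 2 5 (.lc 2 5 (.lc 1 3 (.lc 1 3 (.lc 2 5 (.lc 2 5 (.lc 1 3 (.lc 1 3 (.lc 1 3 (.lc 2 4 (.lc 2 4 (.lc 2 4 (.lc 2 5 (.lc 2 5 (.lc 2 5 (.lc 3 0 (.lc 3 10 (.lc 2 5 (.lc 2 5 (.lc 2 3 (.lc 2 3 (.lc 2 3 (.lc 2 3 (.lc 3 5 (.lc 3 5 (.lc 2 3 (.lc 2 3 (.lc 2 3 (.lc 2 3 (.lc 3 5 (.lc 3 5 (.lc 3 5 (.lc 3 5 (.lc 3 4 (.lc 3 4 (.lc 3 4 (.lc 3 4 (.lc 2 3 (.lc 2 3 (.lc 2 3 (.lc 2 3 (.lc 2 3 (.lc 2 3 (.lc 2 3 (.lc 2 3 (.lc 2 3 (.lc 2 3 (.lc 3 3 (.lc 3 3 (.lc 3 3 (.lc 3 3 (.lc 3 3 (.lc 3 3 .stop)))))))))))))))))))))))))))))))))))))))))))))))))))))))))))))))))))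
 (.lc 2 5 (.lc 2 5 (.lc 2 5 (.lc 2 5 (.lc 2 5 (.lc 2 5 (.lc 2 5 (.lc 2 5 (.lc 2 5 (.lc 2 5 (.lc 2 5 (.lc 3 8 (.lc 3 0 (.lc 3 8 (.lc 2 4 (.lc 2 4 (.lc 3 0 (.lc 3 9 (.lc 3 5 (.lc 3 5 (.lc 3 5 (.lc 3 5 (.lc 3 5 (.lc 3 5 (.lc 4 9 (.lc 4 8 (.lc 2 3 (.lc 2 3 (.lc 2 3 (.lc 2 3 (.lc 4 9 (.lc 4 0 (.lc 4 0 (.lc 4 10 (.lc 3 5 (.lc 3 5 (.lc 3 5 (.lc 3 5 (.lc 3 5 (.lc 3 5 (.lc 3 5 (.lc 3 5 (.lc 3 5 (.lc 3 5 (.lc 3 5 (.lc 3 5 (.lc 3 5 (.lc 3 5 (.lc 3 5 (.lc 3 5 (.lc 3 5 (.lc 3 5 (.lc 3 5 (.lc 3 5 (.lc 3 5 (.lc 4 5 (.lc 4 5 (.lc 4 5 (.lc 4 5 (.lc 4 5 (.lc 4 5 (.lc 4 5 (.lc 4 5 .stop))))))))))))))))))))))))))))))))))))))))))))))))))))))))))))))))))))))))))))))))))))))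
 (.lc 0 0 (.node [101,118] 7 6 (.lc 1 5 (.lc 1 5 (.lc 1 5 (.lc 3 0 (.lc 3 8 (.lc 2 5 (.lc 2 5 (.lc 2 5 (.lc 2 5 (.lc 2 5 (.lc 2 5 (.lc 2 5 (.lc 2 5 (.lc 2 5 (.lc 1 3 (.lc 1 3 (.lc 1 3 (.node [83,112] 7 0 (.node [] 5 3 (.lc 2 2 (.lc 1 2 (.lc 2 2 (.far [1,0,257,4112,1,257] 4096 (.lc 0 8 (.lc 1 0 (.lc 2 2 (.lc 2 2 (.lc 0 8 (.lc 0 1 (.lc 3 2 (.lc 0 9 .stop))))))))))))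
 .stop)
 (.node [83,114] 7 2 .stop
 (.node [83,120] 7 8 (.lc 0 8 (.lc 0 0 (.lc 0 9 (.lc 0 0 (.lc 0 9 (.node [133] 8 5 (.lc 1 3 (.lc 1 3 (.lc 0 0 (.lc 1 2 (.lc 2 3 (.lc 2 3 (.lc 2 3 (.lc 1 2 (.lc 1 2 (.lc 0 1 (.lc 2 2 (.lc 0 1 (.lc 0 1 (.lc 2 2 .stop))))))))))))))
 (.lc 0 9 (.lc 0 0 (.lc 0 10 .stop)))))))))
 (.lc 2 5 (.lc 2 5 (.lc 2 5 (.lc 2 5 (.lc 2 5 (.lc 2 3 (.lc 2 3 (.lc 2 3 (.lc 2 3 (.lc 3 5 (.lc 3 5 (.lc 3 5 (.lc 3 5 (.lc 3 5 (.lc 3 5 (.node [83,120,128] 0 5 (.lc 1 3 (.node [] 7 8 (.lc 0 8 (.lc 0 9 (.lc 0 9 (.lc 0 9 (.lc 0 10 .stop)))))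
 (.lc 2 3 .stop)))
 (.conf [37,83] (.node [83,112,133] 7 0 (.node [] 5 3 (.lc 2 2 (.lc 1 2 (.lc 2 2 (.lc 1 0 (.lc 2 2 (.lc 1 0 (.lc 2 2 (.lc 2 2 (.lc 2 2 (.lc 0 2 (.lc 2 2 (.lc 3 2 (.lc 2 0 (.lc 3 2 (.lc 3 2 (.lc 3 2 (.lc 3 2 (.lc 4 2 .stop))))))))))))))))))
 .stop)
 (.node [83,121,133] 7 9 (.lc 0 9 (.lc 0 0 (.lc 0 10 (.lc 0 0 (.lc 0 10 (.lc 2 8 (.lc 0 10 (.lc 0 0 (.lc 0 11 .stop)))))))))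
 (.lc 2 3 (.lc 2 3 (.lc 2 3 (.lc 2 3 (.lc 2 3 (.lc 2 3 (.lc 2 3 (.lc 2 3 (.lc 2 3 (.lc 2 3 (.lc 3 3 (.lc 3 3 (.lc 3 3 (.lc 3 3 (.lc 3 3 (.lc 3 3 .stop)))))))))))))))))))))))))))))))))))))))))))))))))))))))
 (.lc 0 0 (.node [101,118,135] 7 6 (.lc 1 5 (.lc 1 5 (.lc 1 5 (.lc 3 0 (.lc 3 9 (.lc 2 5 (.lc 2 5 (.lc 2 5 (.lc 2 5 (.lc 2 5 (.lc 2 5 (.lc 2 5 (.lc 2 5 (.lc 2 5 (.lc 1 3 (.lc 1 3 (.lc 1 3 (.node [83,112] 7 0 (.conf [5,128] (.lc 0 9 .stop))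
 (.node [83,114] 7 2 (.lc 2 5 .stop)
 (.node [83,121] 8 7 (.node [137] 9 5 (.lc 1 3 (.lc 1 3 (.lc 1 3 (.lc 1 3 (.lc 1 2 (.lc 0 0 (.lc 1 2 (.lc 0 8 (.lc 2 3 (.lc 2 3 (.lc 2 3 (.lc 2 3 (.lc 2 3 (.lc 2 3 (.lc 2 3 (.lc 2 3 (.lc 2 3 (.lc 1 2 (.lc 1 2 (.lc 1 2 (.lc 1 2 (.lc 3 2 (.lc 1 2 (.lc 2 3 (.lc 2 3 (.lc 2 3 (.lc 2 3 (.lc 2 3 (.lc 2 2 (.lc 2 2 (.lc 2 2 (.lc 3 3 (.lc 3 3 (.lc 3 3 (.lc 3 3 (.lc 3 3 (.lc 3 3 (.lc 2 2 (.lc 4 0 (.lc 1 0 (.lc 2 2 (.lc 2 2 (.lc 2 2 (.lc 2 2 (.lc 2 2 (.lc 2 2 (.lc 2 2 (.lc 2 2 (.lc 3 2 (.lc 3 2 (.lc 3 2 (.lc 3 2 .stop))))))))))))))))))))))))))))))))))))))))))))))))))))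
 (.lc 3 0 (.lc 3 2 (.lc 0 2 (.lc 3 10 (.node [128,149] 8 0 .stop
 (.node [138,149] 9 5 (.lc 1 3 (.lc 1 3 (.lc 1 3 (.lc 1 2 (.lc 0 0 (.lc 1 2 (.lc 2 3 (.lc 2 3 (.lc 2 3 (.lc 2 3 (.lc 2 3 (.lc 2 3 (.lc 1 2 (.lc 1 2 (.lc 1 2 (.lc 2 3 (.lc 2 3 (.lc 2 3 (.lc 2 2 (.lc 2 2 (.lc 2 2 (.lc 3 3 (.lc 3 3 (.lc 3 3 (.lc 3 3 (.lc 2 2 (.lc 1 0 (.lc 2 2 (.lc 2 2 (.lc 2 2 (.lc 2 2 (.lc 2 2 (.lc 3 2 (.lc 3 2 (.lc 3 2 .stop)))))))))))))))))))))))))))))))))))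
 (.lc 3 0 (.lc 3 10 (.lc 4 10 (.lc 4 0 (.lc 0 0 (.lc 4 0 (.lc 4 11 .stop))))))))))))))
 (.lc 2 5 (.lc 2 5 (.lc 2 5 (.lc 2 5 (.lc 2 5 (.lc 2 3 (.lc 2 3 (.lc 2 3 (.lc 2 3 (.lc 3 5 (.lc 3 5 (.lc 3 5 (.lc 3 5 (.lc 3 5 (.lc 3 5 (.node [83,121,144] 0 5 (.lc 1 3 (.node [] 8 7 (.node [137] 8 9 (.lc 2 10 (.lc 0 10 (.lc 3 11 (.far [256,0,257,257,4112,1,257] 4096 .stop))))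
 (.lc 3 10 (.lc 1 0 (.lc 3 10 (.lc 4 11 .stop)))))
 (.lc 2 3 .stop)))
 (.conf [37,83] (.node [83,112,149] 7 0 .stop
 (.node [83,122,149] 8 7 (.node [138] 8 10 (.lc 2 0 (.lc 2 2 (.lc 0 2 (.lc 2 11 (.lc 3 0 (.lc 3 11 (.lc 2 9 (.lc 0 11 (.lc 3 11 (.lc 3 0 (.lc 0 0 (.lc 3 0 (.lc 3 12 (.lc 3 0 (.lc 3 2 (.lc 0 2 (.lc 3 11 (.lc 0 9 (.lc 0 0 (.lc 4 11 (.lc 4 0 (.lc 0 0 (.lc 4 0 (.lc 4 12 (.lc 0 0 (.lc 0 0 (.lc 0 0 (.node [149] 9 5 (.lc 1 3 (.lc 2 3 (.lc 1 2 .stop)))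
 (.lc 0 11 (.lc 0 0 .stop))))))))))))))))))))))))))))))
 (.lc 3 0 (.lc 3 2 (.lc 0 2 (.lc 3 11 (.lc 1 9 (.lc 1 9 (.lc 3 0 (.lc 3 11 (.lc 4 11 (.lc 4 0 (.lc 0 0 (.lc 4 0 (.lc 4 12 .stop))))))))))))))
 (.lc 2 3 (.lc 2 3 (.lc 2 3 (.lc 2 3 (.lc 2 3 (.lc 2 3 (.lc 2 3 (.lc 2 3 (.lc 2 3 (.lc 2 3 (.lc 3 3 (.lc 3 3 (.lc 3 3 (.lc 3 3 (.lc 3 3 (.lc 3 3 .stop)))))))))))))))))))))))))))))))))))))))))))))))))))))))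
 .stop)))))))))
 (.node [69,80,50,69] 5 0 (.lc 2 1 (.node [86,97] 4 5 (.lc 2 6 (.lc 3 7 .stop))
 (.lc 3 6 (.node [86,97] 4 5 (.lc 2 6 (.lc 3 7 .stop))
 (.node [87,118,97] 4 5 (.lc 2 7 (.lc 3 8 .stop))
 .stop)))))
 (.node [64,83,50,64,83] 4 0 .stop
 (.node [70,83,101,50,70] 4 6 (.lc 2 0 (.lc 2 7 (.lc 3 7 (.lc 3 0 (.lc 3 8 (.lc 0 0 (.node [101,118] 7 6 (.lc 1 5 (.lc 1 5 (.lc 1 5 (.lc 1 3 (.lc 1 3 (.lc 2 5 (.lc 2 5 (.lc 2 5 (.lc 2 5 (.lc 2 5 (.lc 2 5 (.lc 2 5 (.lc 2 5 (.lc 2 5 (.node [83,112] 0 5 (.conf [3,50] (.lc 1 2 (.lc 3 1 .stop)))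
 (.node [83,114] 2 5 (.lc 2 0 .stop)
 (.node [83,120] 5 3 (.node [50] 7 8 (.lc 2 0 (.lc 2 2 (.lc 0 2 (.lc 2 9 (.lc 3 9 (.lc 3 0 (.lc 3 9 (.lc 3 0 (.lc 3 10 (.node [131] 8 3 (.lc 1 2 (.lc 2 2 (.lc 1 2 (.lc 2 2 (.lc 2 2 (.lc 3 0 (.lc 2 2 (.far [4112,4096,16,0,257,256] 17 (.lc 3 9 (.lc 2 2 (.lc 2 2 (.lc 2 2 (.lc 2 2 (.lc 3 0 (.lc 3 2 .stop)))))))))))))))
 (.lc 0 9 (.lc 3 9 (.lc 3 0 (.lc 1 2 (.lc 3 0 (.lc 3 10 (.lc 3 9 (.lc 3 0 (.lc 3 0 (.lc 3 2 (.lc 3 10 (.lc 2 3 (.lc 0 9 (.lc 0 0 (.lc 0 9 (.lc 4 10 (.lc 4 9 (.lc 4 10 (.lc 4 0 (.lc 4 0 (.lc 4 11 (.lc 0 0 (.lc 0 10 (.lc 0 0 (.lc 0 10 (.lc 0 0 (.lc 0 10 (.lc 3 3 (.lc 0 10 (.lc 0 0 (.lc 0 11 .stop)))))))))))))))))))))))))))))))))))))))))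
 (.lc 2 2 (.lc 2 2 (.node [50,128] 0 3 (.node [] 7 8 (.lc 2 9 (.lc 0 9 (.lc 3 10 (.far [4096,0,16,0,257,256] 0 (.lc 0 9 (.lc 0 10 .stop))))))
 .stop)
 (.lc 2 2 (.node [50,137] 7 8 (.lc 2 0 (.lc 2 2 (.lc 2 10 (.lc 3 0 (.lc 3 10 (.lc 2 9 (.lc 0 10 (.lc 3 10 (.lc 3 0 (.lc 3 0 (.lc 3 11 (.lc 3 0 (.lc 3 2 (.lc 3 10 (.lc 0 9 (.lc 0 0 (.lc 0 10 (.lc 4 10 (.lc 4 0 (.lc 4 0 (.lc 4 11 (.lc 0 0 (.lc 0 11 (.lc 0 0 (.lc 0 10 (.lc 0 0 (.lc 0 10 (.node [147] 9 3 (.lc 1 2 (.lc 2 2 (.far [4112,4096,16,0,257,256] 17 (.lc 2 2 .stop))))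
 (.lc 0 10 (.lc 0 0 (.lc 0 11 .stop)))))))))))))))))))))))))))))))
 (.lc 2 2 (.lc 2 2 (.lc 3 2 (.lc 3 2 (.lc 3 2 .stop)))))))))))
 (.lc 1 3 (.lc 1 3 (.lc 1 3 (.lc 2 5 (.lc 2 5 (.lc 2 5 (.lc 2 5 (.lc 2 5 (.node [83,120,128] 0 5 .stop
 (.conf [37,83] (.node [83,112,133] 7 0 .stop
 (.node [83,121,133] 5 3 (.node [50] 8 3 (.lc 1 2 (.lc 2 2 (.lc 1 2 (.lc 2 2 (.lc 2 2 (.lc 2 2 (.lc 0 2 (.lc 2 2 (.lc 2 2 (.lc 3 0 (.lc 3 10 (.lc 2 2 (.lc 2 2 (.lc 2 2 (.lc 2 2 (.lc 2 2 (.lc 2 2 (.conf [32,146] (.lc 2 2 (.lc 3 2 (.lc 3 2 (.lc 3 2 (.far [16,256,16,256,0,4096] 17 (.conf [32,162] (.lc 3 2 (.lc 3 2 (.lc 3 2 (.lc 3 2 (.lc 3 2 (.lc 3 2 (.lc 3 2 (.lc 3 2 (.lc 4 2 (.lc 4 2 .stop))))))))))))))))))))))))))))))))))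
 (.lc 2 2 (.lc 2 2 (.lc 0 0 (.lc 2 2 (.lc 0 10 (.lc 2 2 (.lc 2 2 (.lc 3 2 (.lc 3 2 (.lc 3 2 .stop)))))))))))
 (.lc 3 5 (.lc 3 5 (.lc 3 5 (.lc 3 5 (.lc 3 5 (.lc 3 5 (.lc 2 3 (.lc 2 3 (.lc 2 3 (.lc 2 3 (.lc 4 8 (.lc 4 0 (.lc 4 8 (.lc 4 0 (.lc 4 9 (.lc 4 8 (.lc 4 0 (.lc 4 0 (.lc 4 2 (.lc 4 9 (.lc 5 9 (.lc 5 8 (.lc 5 9 (.lc 5 0 (.lc 5 0 (.lc 5 10 .stop)))))))))))))))))))))))))))))))))))))))))))))))))))))))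
 (.lc 3 7 (.lc 3 0 (.lc 3 8 (.lc 3 7 (.lc 3 0 (.lc 3 8 (.lc 0 0 (.lc 2 5 (.lc 0 0 (.node [101,118] 6 5 (.lc 1 3 (.lc 1 3 (.lc 1 3 (.lc 3 8 (.lc 3 0 (.lc 3 8 (.lc 3 0 (.lc 3 9 (.lc 2 3 (.lc 2 3 (.lc 2 3 (.lc 2 3 (.lc 2 3 (.lc 2 3 (.lc 3 8 (.lc 3 0 (.lc 3 0 (.lc 3 2 (.lc 3 9 (.node [83,112] 0 5 (.far [1,4096,1,256] 0 (.lc 1 2 (.lc 1 2 .stop)))
 (.node [83,114] 2 5 (.lc 2 0 .stop)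
 (.node [83,120] 5 3 (.far [4112,4096,1,256] 0 (.lc 2 2 (.lc 2 2 (.far [4112,4096,1,256] 0 (.lc 2 2 (.far [4112,4096,1,256] 0 (.lc 2 2 (.lc 2 2 (.lc 3 2 (.lc 3 2 (.lc 3 2 .stop)))))))))))
 (.lc 2 3 (.lc 2 3 (.lc 2 3 (.lc 4 9 (.lc 4 8 (.lc 4 9 (.lc 4 0 (.lc 4 0 (.lc 4 10 (.lc 3 3 (.lc 3 3 (.lc 3 3 (.lc 3 3 (.node [83,120,128] 0 5 (.conf [3,50] (.lc 1 2 (.lc 3 1 .stop)))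
 (.far [1,1,257,257] 4096 (.node [83,120,130] 2 5 (.lc 2 0 .stop)
 (.node [83,112,133] 7 0 .stop
 (.node [83,121,152] 5 3 (.far [4112,4096,1,256] 0 (.lc 2 2 (.lc 2 2 (.far [4112,4096,1,256] 0 (.lc 2 2 (.far [4112,4096,1,256] 0 (.lc 2 2 (.lc 2 2 (.lc 3 2 (.lc 3 2 (.lc 3 2 .stop)))))))))))
 (.node [83,120,128] 0 5 .stop
 (.conf [37,83] (.node [83,112,133] 7 0 (.lc 0 2 (.lc 2 9 (.lc 3 10 .stop)))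
 (.node [83,114,133] 7 2 (.lc 1 8 (.lc 2 8 .stop))
 (.node [83,121,133] 5 3 (.node [50] 8 3 (.lc 1 2 (.lc 2 2 (.lc 1 2 (.lc 2 2 (.lc 2 2 (.lc 2 2 (.conf [32,146] (.lc 2 2 (.lc 2 2 (.lc 3 0 (.lc 3 10 (.lc 2 2 (.lc 2 2 (.lc 2 2 (.lc 2 2 (.lc 2 2 (.lc 2 2 (.lc 0 2 (.lc 2 2 (.lc 3 2 (.lc 3 2 (.lc 3 2 (.lc 0 0 (.lc 0 10 (.lc 3 2 (.lc 3 2 (.lc 3 2 (.lc 3 2 (.lc 3 2 (.lc 3 2 (.lc 3 2 (.lc 3 2 (.lc 4 2 (.lc 4 2 .stop))))))))))))))))))))))))))))))))))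
 (.lc 2 2 (.lc 2 2 (.lc 0 0 (.lc 2 2 (.lc 0 10 (.lc 2 2 (.lc 2 2 (.lc 3 2 (.lc 3 2 (.lc 3 2 .stop)))))))))))
 (.node [83,120,128,120] 0 5 .stop
 (.conf [37,83] (.node [83,112,133] 5 3 (.node [50] 0 8 (.lc 1 3 (.node [] 1 7 (.lc 1 0 (.lc 2 9 (.lc 3 10 (.lc 3 10 (.lc 3 10 (.lc 4 11 .stop))))))
 (.lc 2 3 (.lc 1 2 .stop))))
 (.lc 2 2 (.lc 2 2 (.lc 0 9 (.lc 2 2 (.lc 3 2 .stop))))))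
 (.node [83,121,152,121] 5 3 (.node [50] 8 3 (.lc 1 2 (.lc 2 2 (.lc 1 2 (.lc 2 2 (.lc 2 2 (.lc 2 2 (.lc 0 2 (.lc 2 2 (.lc 2 2 (.lc 3 0 (.lc 3 10 (.lc 2 2 (.lc 2 2 (.lc 2 2 (.lc 2 2 (.lc 2 2 (.lc 2 2 (.conf [32,146] (.lc 2 2 (.lc 3 2 (.lc 3 2 (.lc 3 2 (.far [4096,4112,4096,1,256,256] 0 (.conf [32,162] (.lc 3 2 (.lc 3 2 (.lc 3 2 (.lc 3 2 (.lc 3 2 (.lc 3 2 (.lc 3 2 (.lc 3 2 (.lc 4 2 (.lc 4 2 .stop))))))))))))))))))))))))))))))))))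
 (.lc 2 2 (.lc 2 2 (.lc 0 0 (.lc 2 2 (.lc 0 10 (.lc 2 2 (.lc 2 2 (.lc 3 2 (.lc 3 2 (.lc 3 2 .stop)))))))))))
 (.node [83,121,152,128] 0 5 .stop
 (.conf [37,83] (.node [83,121,133,144] 5 3 (.node [50] 0 8 (.lc 1 3 (.far [1,4112,4096,1,256,256] 0 (.lc 2 3 (.lc 1 2 .stop))))
 (.lc 2 2 (.lc 2 2 (.lc 0 10 (.lc 2 2 (.lc 3 2 .stop))))))
 (.conf [40,133] (.node [83,112,133,152] 7 0 .stop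
 (.node [83,122,133,152] 5 3 (.node [50] 8 3 (.lc 1 2 (.lc 2 2 (.lc 1 2 (.lc 2 2 (.lc 2 2 (.lc 2 2 (.lc 0 2 (.lc 2 2 (.lc 2 2 (.lc 3 0 (.lc 3 11 (.lc 2 2 (.lc 2 2 (.lc 2 2 (.lc 2 2 (.lc 2 2 (.lc 2 2 (.conf [32,146] (.lc 2 2 (.lc 3 2 (.lc 3 2 (.lc 3 2 (.far [4096,4112,4096,1,256,256] 0 (.conf [32,178] (.lc 3 2 (.lc 3 2 (.lc 3 2 (.lc 3 2 (.lc 3 2 (.lc 3 2 (.lc 3 2 (.lc 3 2 (.lc 4 2 (.lc 4 2 .stop))))))))))))))))))))))))))))))))))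
 (.lc 2 2 (.lc 2 2 (.lc 0 0 (.lc 2 2 (.lc 0 11 (.lc 2 2 (.lc 2 2 (.lc 3 2 (.lc 3 2 (.lc 3 2 .stop)))))))))))
 .stop)))))))))))))))))))))))))))))))))))))))))))))))))))))))
 (.lc 4 8 (.lc 4 8 (.lc 4 0 (.lc 4 9 (.lc 0 0 (.node [101,118,135] 7 6 (.lc 1 5 (.lc 1 5 (.lc 1 5 (.lc 1 3 (.lc 1 3 (.lc 2 5 (.lc 2 5 (.lc 2 5 (.lc 2 5 (.lc 2 5 (.lc 2 5 (.lc 2 5 (.lc 2 5 (.lc 2 5 (.node [83,112] 0 5 (.conf [3,50] (.lc 1 2 (.lc 3 1 .stop)))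
 (.node [83,114] 2 5 (.lc 2 0 .stop)
 (.node [83,121] 5 3 (.node [50] 7 9 (.lc 2 0 (.lc 2 2 (.lc 0 2 (.lc 2 10 (.lc 3 10 (.lc 3 0 (.lc 3 10 (.lc 3 0 (.lc 3 11 (.lc 0 0 (.lc 0 10 (.lc 3 10 (.lc 3 0 (.lc 1 2 (.lc 3 0 (.lc 3 11 (.lc 3 10 (.lc 3 0 (.lc 3 0 (.lc 3 2 (.lc 3 11 (.lc 0 0 (.lc 0 2 (.lc 0 10 (.node [128,147] 8 0 (.far [257,257,0,257,4096] 0 .stop)
 (.node [130,147] 8 2 .stop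
 (.lc 1 2 (.node [138,147] 1 8 (.lc 2 10 (.lc 3 0 (.far [16,257,0,257,4096] 0 (.lc 3 11 (.lc 3 0 (.lc 4 0 .stop))))))
 (.lc 4 11 (.lc 4 10 (.lc 4 11 (.lc 4 0 (.lc 4 0 (.lc 4 12 (.node [138,147,160] 0 9 (.lc 1 3 (.lc 2 0 (.lc 1 2 (.lc 2 3 (.lc 1 2 .stop)))))
 (.conf [41,147] (.lc 2 2 (.node [128,147,169] 8 0 (.node [] 9 3 (.lc 2 2 (.lc 1 2 (.lc 1 2 (.lc 2 2 (.lc 2 2 (.lc 3 3 (.lc 2 2 (.lc 0 2 (.lc 3 11 (.lc 2 2 (.lc 2 2 (.lc 2 2 (.lc 2 2 (.lc 2 2 (.lc 3 3 (.lc 2 2 (.lc 3 2 (.lc 3 2 (.lc 4 3 (.lc 3 2 (.lc 3 2 (.lc 3 2 (.lc 3 2 (.lc 4 2 .stop))))))))))))))))))))))))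
 .stop)
 (.node [139,147,169] 8 11 (.lc 0 11 (.lc 0 0 (.lc 0 0 (.lc 2 10 (.lc 0 12 (.lc 0 0 .stop))))))
 (.lc 3 3 (.lc 3 3 (.lc 3 3 (.lc 3 3 (.lc 3 3 (.lc 3 3 (.lc 3 3 (.lc 3 3 (.lc 3 3 (.lc 3 3 (.lc 0 10 (.lc 0 0 (.lc 0 0 (.lc 0 11 (.lc 4 3 (.lc 4 3 (.lc 4 3 (.lc 4 3 (.lc 4 3 (.lc 4 3 .stop)))))))))))))))))))))))))))))))))))))))))))))))))))))))))))
 (.lc 2 2 (.lc 2 2 (.lc 2 2 (.node [50,144] 0 3 (.far [1,4096,1,4096,0,256] 0 .stop)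
 (.lc 2 2 (.node [50,154] 7 9 (.lc 2 0 (.lc 2 2 (.lc 2 11 (.lc 3 0 (.lc 3 11 (.lc 0 0 (.lc 0 11 (.lc 3 11 (.lc 3 0 (.lc 3 0 (.lc 3 12 (.lc 3 0 (.lc 3 2 (.lc 3 11 (.lc 0 10 (.lc 2 10 (.lc 2 10 (.lc 2 10 (.lc 4 11 (.lc 4 0 (.lc 4 0 (.lc 4 12 (.lc 3 10 (.lc 3 10 (.lc 3 10 (.lc 3 10 (.lc 2 3 (.lc 2 3 (.node [128,163] 8 0 (.far [257,257,0,257,4096] 0 .stop)
 (.node [130,163] 8 2 .stop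
 (.node [139,163] 10 3 (.lc 1 2 (.lc 2 2 (.lc 2 2 (.conf [32,178] (.lc 2 2 (.lc 2 2 (.lc 3 2 (.lc 3 2 .stop))))))))
 (.lc 0 0 (.lc 0 11 (.node [139,163,176] 0 10 (.lc 1 2 .stop)
 (.conf [42,163] (.node [128,163,186] 8 0 (.node [] 10 3 (.lc 1 2 (.lc 2 2 (.lc 0 2 (.lc 2 2 (.lc 2 2 (.lc 3 2 .stop))))))
 .stop)
 (.node [140,163,186] 10 3 (.lc 1 2 (.lc 2 2 (.lc 2 2 (.lc 0 2 (.lc 2 2 (.lc 2 2 (.lc 3 2 (.lc 3 2 .stop))))))))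
 .stop)))))))))))))))))))))))))))))))))))))
 (.lc 2 2 (.lc 2 2 (.lc 3 2 (.lc 3 2 (.lc 3 2 .stop))))))))))))
 (.lc 1 3 (.lc 1 3 (.lc 1 3 (.lc 2 5 (.lc 2 5 (.lc 2 5 (.lc 2 5 (.lc 2 5 (.node [83,121,144] 0 5 .stop
 (.conf [37,83] (.node [83,112,149] 7 0 .stop
 (.node [83,122,149] 5 3 (.node [50] 9 3 (.lc 1 2 (.lc 2 2 (.lc 1 2 (.lc 1 2 (.lc 2 2 (.lc 2 2 (.lc 2 2 (.lc 0 2 (.lc 2 2 (.lc 2 2 (.lc 3 0 (.lc 3 11 (.lc 2 2 (.lc 2 2 (.lc 2 2 (.lc 2 2 (.lc 2 2 (.lc 2 2 (.lc 2 2 (.conf [32,162] (.lc 2 2 (.lc 2 2 (.lc 3 2 (.lc 3 2 (.lc 3 2 (.node [160] 7 10 (.lc 2 0 (.conf [1,128] .stop))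
 (.conf [32,178] (.lc 3 2 (.lc 3 2 (.lc 3 2 (.lc 3 2 (.lc 3 2 (.lc 3 2 (.lc 3 2 (.lc 3 2 (.lc 3 2 (.lc 4 2 (.lc 4 2 .stop))))))))))))))))))))))))))))))))))))))
 (.lc 2 2 (.lc 2 2 (.lc 2 2 (.lc 0 0 (.lc 2 2 (.lc 0 11 (.lc 2 2 (.lc 2 2 (.lc 3 2 (.lc 3 2 (.lc 3 2 .stop))))))))))))
 (.lc 3 5 (.lc 3 5 (.lc 3 5 (.lc 3 5 (.lc 3 5 (.lc 3 5 (.lc 2 3 (.lc 2 3 (.lc 2 3 (.lc 2 3 (.lc 4 9 (.lc 4 0 (.lc 4 9 (.lc 4 0 (.lc 4 10 (.lc 4 9 (.lc 4 0 (.lc 4 0 (.lc 4 2 (.lc 4 10 (.lc 5 10 (.lc 5 9 (.lc 5 10 (.lc 5 0 (.lc 5 0 (.lc 5 11 .stop)))))))))))))))))))))))))))))))))))))))))))))))))))))))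
 (.lc 0 0 (.lc 3 5 (.lc 0 0 (.lc 3 5 (.lc 0 0 (.lc 3 5 (.lc 0 0 (.lc 4 5 .stop)))))))))))))))))))))))))))))))
 (.node [50,69] 0 3 .stop
 (.node [50,64,83] 4 0 (.node [70,50,83] 0 5 (.far [257,0,1,1] 4096 (.far [4112,1,256] 0 (.lc 2 3 (.lc 2 3 (.conf [83,117] (.conf [83,117] (.lc 2 3 (.lc 2 3 (.lc 3 3 (.lc 3 3 .stop))))))))))
 (.conf [71,118] .stop))
 (.node [50,70,83] 5 3 (.node [50,80,70] 0 3 (.node [] 6 5 (.node [80,97] 1 5 (.far [1,1,257,4096,1,1] 4096 .stop)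
 (.node [80,103] 7 5 (.far [1,1,257,4096,1,1] 4096 (.lc 3 1 (.far [16,16,4112,256,16,16] 1 (.lc 3 1 (.lc 3 8 (.lc 4 8 .stop))))))
 (.lc 2 0 (.lc 2 0 (.node [80,103,113] 1 5 (.node [] 1 4 (.far [4112,0,257,256,0,1,4097] 4096 (.lc 0 8 .stop))
 .stop)
 (.conf [80,117] (.conf [80,117] (.conf [103,113] (.conf [80,117] (.conf [80,117] (.lc 2 0 (.lc 2 0 (.lc 2 0 (.node [80,103,113] 1 5 (.far [257,1,0,0,1,1] 16 .stop)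
 (.node [80,97] 1 4 (.node [70] 4 6 .stop
 .stop)
 (.node [80,104,135] 7 5 (.far [1,1,257,4096,1,1] 4096 (.lc 3 1 (.node [] 4 6 (.node [73,104] 6 8 (.far [4112,1,1,1,0,4112,258,2] 4112 (.lc 2 7 (.lc 0 10 (.lc 2 7 (.lc 3 7 .stop)))))
 (.lc 2 4 (.lc 3 1 (.conf [104,150] (.lc 2 4 (.lc 3 1 (.lc 3 4 (.lc 4 1 .stop))))))))
 (.lc 3 1 (.lc 3 9 (.lc 4 9 .stop))))))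
 (.lc 3 0 (.node [80,104,135,113] 1 5 (.lc 2 4 .stop)
 (.conf [80,117] (.conf [80,117] (.conf [80,117] (.lc 3 0 (.lc 3 0 (.lc 3 0 (.lc 3 0 (.lc 4 0 .stop))))))))))))))))))))))))))
 .stop)
 (.node [50,87,70] 3 2 (.node [114] 5 7 (.node [80,114] 5 0 (.node [96] 6 0 (.node [] 4 6 (.node [72,97] 1 4 (.far [16,257,0,0,0,257,16,257,4097] 4096 (.lc 1 6 (.lc 1 6 (.node [25,152,25] 6 1 .stop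
 (.lc 2 6 .stop)))))
 (.conf [73,152] .stop))
 (.node [114] 6 7 (.node [98] 4 6 .stop
 .stop)
 (.lc 3 8 (.lc 1 0 (.node [129] 4 6 (.far [1,4112,256,0,0,0,256] 0 (.node [73,104,129] 1 4 (.far [16,257,0,0,0,257,16,257,4097] 4096 (.lc 3 0 (.lc 3 0 (.lc 1 6 (.lc 3 0 (.lc 4 0 .stop))))))
 (.lc 2 0 (.conf [73,152] (.conf [104,150] (.lc 2 0 (.lc 3 0 .stop)))))))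
 (.lc 3 8 (.lc 3 8 (.lc 4 9 .stop))))))))
 (.node [97] 4 6 (.node [72,97] 1 4 (.far [16,257,0,0,257,16,257,4097] 4096 (.lc 1 6 (.lc 1 6 (.conf [25,152] (.lc 2 6 .stop)))))
 (.conf [97,134] .stop))
 (.node [97] 4 6 (.node [72,97] 1 4 (.far [16,257,0,0,257,16,257,4097] 4096 (.lc 1 6 .stop))
 (.conf [97,134] .stop))
 (.node [104,128] 8 0 (.node [129] 6 8 (.node [105,129] 4 6 (.far [1,4112,0,4112,4112,0,4112,258] 0 (.lc 3 1 (.lc 1 8 (.lc 3 1 (.lc 4 1 .stop)))))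
 (.lc 2 0 (.lc 3 4 (.conf [129,152] (.lc 2 0 (.lc 3 0 .stop))))))
 (.far [16,16,4096] 0 (.lc 1 0 (.lc 3 9 (.conf [137,145] (.lc 3 9 (.lc 3 9 (.lc 4 10 .stop))))))))
 (.node [97] 4 6 (.node [72] 1 4 (.far [16,257,0,0,257,16,257,4097] 4096 (.lc 1 6 .stop))
 (.lc 2 1 (.conf [73,152] (.lc 2 1 (.lc 3 1 .stop)))))
 (.node [104,129] 4 6 (.node [73,104] 6 8 (.far [4112,1,272,4112,0,4112,256] 4097 (.lc 2 1 (.lc 0 10 (.lc 2 1 (.lc 3 1 .stop)))))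
 (.lc 2 4 (.conf [104,150] (.lc 2 4 (.lc 3 4 .stop)))))
 .stop))))))
 (.node [81,114] 5 1 (.node [97] 1 4 (.node [70] 4 6 (.far [257,256,0,0,0,0,257,1] 16 (.lc 2 1 (.node [134] 6 1 (.lc 1 0 (.lc 2 0 .stop))
 (.lc 2 1 (.lc 3 1 .stop)))))
 (.conf [70,132] .stop))
 (.node [104,129] 1 4 (.far [257,4112,4112,4112,4096,1,257] 16 (.lc 2 7 (.conf [70,148] (.lc 3 7 .stop))))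
 .stop))
 (.lc 1 2 (.node [88,114] 6 5 (.node [104] 4 6 (.node [64] 4 0 (.lc 0 0 .stop)
 (.lc 1 4 (.node [73] 4 9 (.far [257,257,0,0,257,16,257,4097] 4096 (.lc 0 0 (.lc 2 6 (.lc 2 6 (.lc 0 0 (.node [169] 6 8 (.node [96,135] 6 0 (.far [4112,4112,0,1,4112,0,0,0,256] 0 (.lc 0 11 .stop))
 (.lc 1 5 (.far [4112,0,1,4112,0,0,0,256] 0 (.node [106,168,169] 6 10 (.lc 0 4 .stop)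
 (.node [107,135] 9 6 (.far [1,4112,0,1,4112,0,0,0,256] 0 (.lc 3 0 (.lc 3 12 (.node [184,100,144,169] 0 11 (.far [257,1,4112,0,1,4096,4112,0,4112,257,1] 4096 (.lc 2 5 .stop))
 (.lc 3 4 (.node [184,203,156,169] 11 8 (.node [135,176,203] 11 0 (.node [192] 0 8 (.far [16,0,16,0,16,0,0,4096,4096] 0 .stop)
 (.lc 0 1 (.lc 0 13 (.lc 2 0 .stop))))
 (.lc 1 5 (.node [168,169,186,203] 11 10 .stop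
 (.node [135,189,203] 12 11 (.node [205] 8 7 (.node [114] 13 7 (.node [210] 12 13 .stop
 (.far [16,16,0,0,0,0,0,0,0,16,4096,4096] 17 .stop))
 (.conf [114,133,210] (.far [4112,0,1,0,1,0,0,256,256] 0 (.far [4112,0,1,0,1,0,0,256,256] 0 (.conf [114,133,208] .stop)))))
 (.lc 3 0 (.lc 3 10 (.lc 3 14 (.lc 1 8 (.lc 1 8 (.lc 3 0 (.lc 3 14 (.lc 4 14 (.lc 4 0 (.lc 4 15 .stop)))))))))))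
 (.lc 2 5 (.lc 2 5 (.conf [182,192] (.conf [182,205] (.conf [189,208] (.node [135,176,216,203,135] 11 0 .stop
 (.conf [190,237] (.lc 2 5 (.lc 2 5 (.node [182,192,135] 0 8 (.far [1,1,0,1,0,0,256,256] 0 (.far [257,1,0,1,0,0,256,257,256,256] 0 (.far [256,0,0,0,0,0,1,4096,0,0,1,1] 4096 (.lc 1 2 .stop))))
 (.lc 2 5 (.conf [168,202] (.node [182,205,135] 9 12 (.node [157] 13 8 (.far [1,0,1,0,1,0,0,256,256] 0 (.lc 3 2 (.lc 3 0 (.lc 3 14 (.lc 4 0 .stop)))))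
 (.lc 3 4 (.lc 1 8 (.lc 3 4 (.lc 1 8 (.lc 3 4 (.lc 4 4 (.lc 4 4 .stop))))))))
 (.lc 3 5 (.node [182,205,208,135] 0 8 (.far [16,16,16,256,0,16,1,4096,4096,1,4096] 0 .stop)
 (.conf [182,216,135] (.conf [182,216,135] (.lc 3 5 (.lc 3 5 (.lc 3 5 (.lc 4 5 .stop)))))))))))))))))))))))))
 (.lc 3 0 (.lc 3 12 (.lc 4 12 (.lc 4 0 (.lc 4 13 .stop)))))))))))
 (.lc 2 7 (.lc 2 7 (.lc 2 7 (.lc 2 7 (.lc 2 7 (.lc 2 7 (.lc 2 7 (.lc 2 7 (.lc 2 7 (.lc 3 4 (.lc 3 4 (.lc 3 4 (.lc 0 0 (.node [107,135,176,107,150,169] 0 8 (.node [135] 2 8 (.lc 0 2 .stop)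
 (.lc 1 2 (.lc 2 0 (.far [16,16,0,0,4096,4112,4096,4096] 0 .stop))))
 (.node [96,135,184] 6 0 .stop
 (.lc 0 11 (.node [135,184,203,108,150,169] 9 6 (.far [1,4112,0,1,4112,0,0,0,256] 0 (.lc 3 0 (.lc 3 13 (.lc 1 11 (.lc 3 4 (.lc 1 11 (.lc 3 0 (.lc 3 13 (.lc 4 13 (.lc 4 0 (.lc 4 14 .stop)))))))))))
 (.lc 2 7 (.lc 2 7 (.lc 2 7 (.lc 2 7 (.lc 2 7 (.lc 2 7 (.lc 2 7 (.lc 2 7 (.lc 2 7 (.lc 3 4 (.lc 3 4 (.lc 3 4 (.lc 3 4 (.lc 3 4 (.lc 3 4 (.lc 1 0 (.lc 3 7 (.lc 3 7 (.lc 3 7 (.lc 3 7 (.lc 3 7 (.lc 3 7 (.lc 3 7 (.lc 4 4 (.lc 4 4 (.lc 4 4 (.lc 4 4 (.lc 4 4 (.lc 4 4 (.lc 4 4 (.lc 4 4 (.lc 4 4 (.lc 4 4 (.lc 4 4 (.lc 4 4 (.lc 4 4 (.lc 4 4 (.lc 4 4 (.lc 5 4 (.lc 5 4 (.lc 5 4 (.lc 5 4 .stop))))))))))))))))))))))))))))))))))))))))))))))))))))))))))))))))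
 (.lc 0 0 (.lc 2 6 (.lc 0 0 (.lc 3 6 .stop))))))))))
 (.lc 2 8 (.lc 2 8 (.lc 2 8 (.lc 0 0 (.lc 3 1 (.lc 3 1 (.conf [73,144] (.lc 2 4 (.lc 2 4 (.node [64,150] 4 0 (.lc 0 0 .stop)
 (.conf [74,169] (.lc 2 8 (.lc 2 8 (.lc 2 8 (.lc 0 0 (.lc 3 1 (.lc 0 0 (.lc 3 1 (.lc 3 1 (.lc 3 8 (.lc 3 8 (.lc 3 8 (.lc 3 8 (.lc 0 0 (.lc 4 1 (.lc 0 0 (.lc 4 1 (.lc 0 0 (.lc 4 1 (.lc 0 0 (.lc 4 1 (.lc 0 0 (.lc 4 1 (.lc 0 0 (.lc 5 1 .stop))))))))))))))))))))))))))))))))))))))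
 (.lc 1 7 (.lc 1 7 (.lc 1 7 (.lc 1 7 (.lc 1 7 (.lc 1 7 (.node [96] 6 0 (.node [97] 4 6 .stop
 (.conf [105,145] (.lc 1 0 .stop)))
 (.node [97] 1 4 (.far [257,1,4112,4112,4096,1,257] 16 (.conf [70,148] .stop))
 (.node [105,152] 4 6 (.node [64,105] 4 0 (.lc 0 0 .stop)
 (.node [74,105] 6 9 (.far [4112,1,1,4112,0,4112,258] 0 (.lc 2 8 (.lc 2 8 (.lc 2 8 (.lc 0 0 (.lc 0 1 (.lc 0 11 (.lc 2 8 (.lc 2 8 (.lc 2 8 (.lc 3 8 (.lc 3 8 (.lc 3 8 (.lc 3 8 (.lc 3 8 (.lc 3 8 .stop))))))))))))))))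
 (.lc 2 4 (.lc 2 4 (.lc 0 0 (.lc 3 1 (.conf [74,160] (.conf [105,166] (.conf [105,166] (.lc 2 4 (.lc 2 4 (.lc 3 1 (.lc 0 0 (.lc 3 1 (.lc 3 4 (.lc 3 4 (.lc 3 4 (.lc 0 0 (.lc 4 1 (.lc 0 0 (.lc 4 1 (.lc 0 0 (.lc 4 1 (.lc 0 0 (.lc 4 1 (.lc 0 0 (.lc 5 1 .stop)))))))))))))))))))))))))))
 (.lc 2 7 (.lc 2 7 (.lc 2 7 (.lc 2 7 (.lc 2 7 (.lc 2 7 .stop))))))))))))))))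
 (.lc 2 2 (.lc 2 2 (.lc 2 2 (.lc 2 2 (.lc 2 2 (.lc 2 2 (.lc 3 3 (.lc 3 3 (.lc 3 3 (.node [81,114] 5 1 (.node [20] 1 4 .stop
 (.conf [20,129] .stop))
 (.conf [88,128] (.conf [88,129] (.lc 2 2 (.node [80,114,135] 5 0 (.node [97] 4 6 (.node [72,97,135] 8 6 .stop
 (.node [73,97] 1 4 (.far [16,257,0,0,257,16,257,4097] 4096 (.lc 1 6 .stop))
 (.conf [97,150] .stop)))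
 .stop)
 (.node [81,114,135] 5 1 .stop
 (.conf [89,152] (.lc 2 2 (.lc 2 2 (.lc 2 2 (.lc 2 2 (.lc 2 2 (.lc 2 2 (.lc 3 3 (.lc 3 3 (.lc 3 3 (.lc 3 3 (.lc 3 3 (.lc 3 3 (.lc 3 3 (.lc 3 2 (.lc 3 2 (.lc 3 2 (.lc 3 2 (.lc 3 2 (.lc 3 2 (.lc 3 2 (.lc 3 2 (.lc 3 2 (.lc 4 3 (.lc 4 3 (.lc 4 3 (.lc 4 3 (.lc 4 3 (.lc 4 3 (.lc 4 3 (.lc 4 3 (.lc 4 3 (.lc 4 3 (.lc 4 3 (.lc 4 3 (.lc 4 3 (.lc 4 3 (.lc 4 3 (.lc 4 3 (.lc 4 3 (.lc 4 3 (.lc 4 3 (.lc 4 3 (.lc 4 3 (.lc 4 3 (.lc 4 3 (.lc 4 3 (.lc 4 3 (.lc 5 3 (.lc 5 3 (.lc 5 3 (.lc 5 3 (.lc 5 3 (.lc 5 3 (.lc 5 3 (.lc 5 3 (.lc 5 3 .stop))))))))))))))))))))))))))))))))))))))))))))))))))))))))))))))))))))))))))))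
 (.lc 0 0 (.lc 0 8 (.lc 0 0 (.lc 0 8 (.node [112] 5 7 (.lc 1 0 (.node [81,112] 5 1 (.node [97] 1 4 (.far [4112,257,257,257,256,16,4112] 1 .stop)
 (.node [104,129] 1 4 (.node [70] 4 6 .stop
 (.lc 2 7 (.lc 3 7 .stop)))
 .stop))
 (.node [88,112] 6 5 (.node [104] 4 6 (.lc 1 4 (.node [73] 4 9 (.far [257,257,0,0,257,16,257,4097] 4096 (.lc 0 0 (.lc 2 6 (.lc 2 6 (.node [169] 6 8 (.lc 1 5 (.far [4112,0,1,4112,0,0,0,256] 0 (.node [106,168,169] 6 10 (.lc 0 4 .stop)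
 (.node [107,135] 9 6 (.far [1,4112,0,1,4112,0,0,0,256] 0 (.lc 3 12 (.lc 3 4 (.node [184,203,156,169] 11 8 (.lc 1 5 (.node [168,169,186,203] 11 10 .stop
 (.node [135,189,203] 12 11 (.node [205] 8 7 (.node [112] 13 7 (.far [1,1,0,0,0,0,0,0,0,1,256,256] 17 .stop)
 (.conf [112,133,208] (.far [4112,0,1,0,1,0,0,256,256] 0 .stop)))
 (.lc 3 10 (.lc 3 14 (.lc 1 8 (.lc 3 14 (.lc 4 15 .stop))))))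
 (.lc 2 5 (.conf [182,205] (.conf [190,237] (.lc 2 5 (.lc 2 5 (.lc 2 5 (.conf [168,202] (.node [182,205,135] 9 12 (.node [157] 13 8 (.far [1,0,1,0,1,0,0,256,256] 0 (.lc 3 0 (.lc 3 14 .stop)))
 (.lc 3 4 (.lc 3 4 (.lc 1 8 (.lc 3 4 (.lc 4 4 .stop))))))
 (.conf [182,216,135] (.lc 3 5 (.lc 3 5 .stop))))))))))))))
 (.lc 3 12 (.lc 4 13 .stop))))))
 (.lc 2 7 (.lc 2 7 (.lc 2 7 (.lc 2 7 (.lc 3 4 (.lc 3 4 (.lc 0 11 (.node [135,184,203,108,150,169] 9 6 (.far [1,4112,0,1,4112,0,0,0,256] 0 (.lc 3 13 (.lc 3 4 (.lc 1 11 (.lc 3 13 (.lc 4 14 .stop))))))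
 (.lc 2 7 (.lc 2 7 (.lc 2 7 (.lc 2 7 (.lc 3 4 (.lc 3 4 (.lc 3 4 (.lc 3 4 (.lc 3 7 (.lc 3 7 (.lc 4 4 (.lc 4 4 (.lc 4 4 (.lc 4 4 (.lc 4 4 (.lc 5 4 .stop))))))))))))))))))))))))))))
 (.lc 2 6 (.lc 3 6 .stop)))))))
 (.lc 2 8 (.lc 3 1 (.lc 3 1 (.lc 2 4 (.conf [74,169] (.lc 2 8 (.lc 0 0 (.lc 3 1 (.lc 0 0 (.lc 3 1 (.lc 3 1 (.lc 3 8 (.lc 4 1 (.lc 4 1 (.lc 0 0 (.lc 4 1 (.lc 0 0 (.lc 4 1 (.lc 4 1 (.lc 5 1 .stop))))))))))))))))))))))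
 (.lc 1 7 (.lc 1 7 (.lc 1 7 (.lc 1 7 (.node [97] 1 4 (.node [70] 4 6 .stop
 .stop)
 (.node [105,152] 4 6 (.node [74,105] 6 9 (.far [4112,1,1,4112,0,4112,258] 0 (.lc 2 8 (.lc 2 8 (.lc 0 1 (.lc 0 11 (.lc 2 8 (.lc 2 8 (.lc 3 8 (.lc 3 8 (.lc 3 8 .stop))))))))))
 (.lc 2 4 (.lc 3 1 (.conf [105,166] (.lc 2 4 (.lc 3 1 (.lc 0 0 (.lc 3 1 (.lc 3 4 (.lc 4 1 (.lc 4 1 (.lc 0 0 (.lc 4 1 (.lc 4 1 (.lc 5 1 .stop)))))))))))))))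
 (.lc 2 7 (.lc 2 7 (.lc 2 7 .stop))))))))))
 (.lc 2 0 (.lc 2 0 (.lc 2 0 (.lc 3 3 (.lc 3 3 (.lc 2 0 (.conf [88,129] (.node [81,112,135] 5 1 .stop
 (.conf [89,152] (.lc 2 0 (.lc 2 0 (.lc 2 0 (.lc 3 3 (.lc 3 3 (.lc 3 3 (.lc 3 3 (.lc 3 3 (.lc 3 0 (.lc 3 0 (.lc 3 0 (.lc 3 0 (.lc 4 3 (.lc 4 3 (.lc 4 3 (.lc 4 3 (.lc 4 3 (.lc 4 3 (.lc 4 3 (.lc 4 3 (.lc 4 3 (.lc 4 3 (.lc 4 3 (.lc 4 3 (.lc 4 3 (.lc 5 3 (.lc 5 3 (.lc 5 3 (.lc 5 3 .stop)))))))))))))))))))))))))))))))))))))))))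
 (.conf [32,130] (.lc 0 8 (.lc 0 9 .stop)))))))))
 (.conf [50,80] (.conf [50,87] (.conf [50,87] (.conf [50,80] (.conf [50,88] (.conf [87,112] (.conf [50,115] (.conf [50,115] (.conf [50,80] (.conf [50,87] (.node [50,80,70] 6 5 (.far [1,1,1,1] 4096 (.node [97] 4 6 (.lc 2 7 (.lc 3 8 .stop))
 (.node [103,112] 4 6 (.lc 2 8 (.lc 3 8 (.lc 2 7 (.lc 3 9 (.lc 3 8 (.node [112] 7 0 (.far [4112,257,16,0,256] 0 .stop)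
 (.lc 2 7 (.lc 4 9 (.lc 3 7 (.far [4096,4096,4096,0,256] 0 (.lc 2 0 (.lc 2 0 (.lc 3 0 .stop)))))))))))))
 (.node [97] 4 6 (.lc 2 7 (.lc 3 8 (.lc 3 8 (.lc 3 8 (.lc 4 9 .stop)))))
 (.node [103,112] 4 6 (.lc 2 7 (.lc 2 8 (.lc 3 9 (.lc 2 4 (.node [103,134] 6 7 (.node [112] 8 7 (.lc 1 0 (.lc 0 9 (.lc 2 0 (.far [4096,0,257,16,0,256] 0 (.lc 0 9 (.lc 0 10 .stop))))))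
 (.lc 2 9 (.lc 2 0 (.lc 3 10 (.lc 3 4 (.lc 0 9 (.lc 3 10 (.lc 2 0 (.lc 3 10 (.lc 3 4 (.lc 3 4 (.lc 3 0 (.lc 4 11 (.lc 4 4 (.lc 4 4 (.lc 4 4 (.lc 4 4 (.lc 5 4 .stop))))))))))))))))))
 (.lc 3 8 (.lc 3 9 (.lc 3 9 (.lc 2 7 (.lc 2 4 (.node [103,134] 6 7 (.far [4112,1,4112,0,256] 0 (.lc 2 9 (.lc 2 0 (.lc 3 10 (.lc 3 4 (.far [4112,1,4112,0,256] 0 (.lc 3 10 (.lc 2 0 (.lc 3 10 (.lc 3 4 (.lc 3 4 (.lc 3 0 (.lc 4 11 (.lc 4 4 (.lc 4 4 (.lc 4 4 (.lc 4 4 (.lc 5 4 .stop))))))))))))))))))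
 (.lc 4 10 (.lc 3 4 (.node [103,134,152] 6 7 (.far [4112,4096,4096,4096,0,256] 0 (.lc 2 10 (.lc 2 0 (.lc 3 11 (.lc 3 4 (.lc 0 10 (.lc 3 11 (.lc 2 0 (.lc 3 11 (.lc 3 4 (.lc 3 4 (.lc 3 0 (.lc 4 12 (.lc 4 4 (.lc 4 4 (.lc 4 4 (.lc 4 4 (.lc 5 4 .stop))))))))))))))))))
 (.lc 3 7 (.lc 3 7 (.lc 3 7 (.lc 4 7 .stop))))))))))))))))))
 (.far [4096,1] 256 (.far [1,1,1,1] 4096 (.node [103,113] 4 6 (.lc 2 8 (.lc 3 8 (.lc 3 9 (.lc 3 8 (.lc 4 9 .stop)))))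
 (.node [104,135,112] 4 6 (.lc 2 9 (.lc 3 9 (.lc 2 8 (.lc 3 10 (.lc 3 9 (.lc 1 7 (.lc 2 8 (.lc 4 10 (.lc 3 8 (.lc 2 7 (.node [135,152] 8 7 (.far [4112,1,4112,0,256] 0 (.lc 2 0 (.far [4112,1,4112,0,256] 0 (.lc 2 0 (.lc 3 0 .stop)))))
 (.node [135,152] 9 8 (.node [112] 9 7 (.lc 1 0 (.lc 0 10 (.lc 2 0 (.far [4096,0,257,16,0,256] 0 (.lc 0 10 (.lc 0 11 .stop))))))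
 (.lc 1 0 (.lc 1 0 (.lc 3 10 (.lc 2 0 .stop)))))
 (.node [135,152,169] 9 8 (.far [1,4096,4096,4096,0,256] 0 (.lc 1 0 (.lc 1 0 (.lc 3 11 (.lc 2 0 .stop)))))
 .stop)))))))))))))
 .stop)))))))))
 (.node [50,87,70,32] 6 5 (.conf [103,114] (.lc 1 2 (.lc 1 2 (.lc 1 2 (.lc 1 2 (.lc 1 2 (.lc 1 2 (.node [96,114] 6 0 (.lc 2 1 (.lc 3 8 (.lc 1 0 .stop)))
 (.node [97,114] 1 4 (.lc 1 6 (.lc 2 6 .stop))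
 (.conf [114,135] (.lc 2 2 (.lc 2 2 (.lc 2 2 (.lc 2 2 (.lc 2 2 (.lc 2 2 .stop))))))))))))))))
 (.conf [50,87] (.conf [50,80] (.conf [50,88] (.conf [50,87] (.conf [50,88] (.conf [50,88] (.conf [50,88] (.conf [50,80] (.conf [50,89] (.node [50,87,112,70] 5 7 (.far [4112,1,1,1] 4096 (.lc 2 0 (.lc 2 0 (.far [4112,1,1,1] 4096 (.far [4112,1,1,1] 4096 (.lc 2 0 (.lc 2 0 (.lc 3 0 (.lc 3 0 (.lc 3 0 .stop))))))))))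
 (.conf [50,114,32] (.node [50,87,112,70] 5 7 (.far [4112,1,1,1] 4096 (.lc 2 0 (.lc 2 0 (.far [4112,1,1,1] 4096 (.far [4112,1,1,1] 4096 (.lc 2 0 (.lc 2 0 (.lc 3 0 (.lc 3 0 (.lc 3 0 .stop))))))))))
 (.node [32,50,88,135,70] 5 8 (.node [104] 7 2 (.far [1,4112,1,1,1] 4096 (.lc 0 8 (.lc 3 9 (.node [121,144] 8 7 (.lc 2 1 (.lc 1 2 (.lc 2 10 (.lc 2 9 (.lc 2 9 (.lc 2 9 (.node [97,121] 6 1 .stop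
 (.lc 2 2 (.conf [121,167] (.lc 3 10 (.lc 2 2 (.lc 2 2 (.lc 3 1 (.lc 3 11 (.lc 0 6 (.lc 2 9 (.lc 2 9 (.lc 2 9 (.lc 2 9 (.lc 1 7 (.lc 2 9 (.lc 0 1 (.lc 0 9 (.lc 0 10 (.lc 3 9 (.lc 3 9 (.lc 3 9 (.lc 3 9 (.lc 0 10 (.lc 0 1 (.lc 0 10 (.lc 0 1 (.lc 0 11 (.lc 0 10 (.lc 0 1 (.lc 0 11 (.lc 0 10 (.lc 0 1 (.lc 0 11 (.lc 0 4 (.lc 3 9 (.lc 3 9 (.lc 3 9 (.lc 0 11 (.lc 0 11 (.lc 0 1 (.lc 0 12 .stop)))))))))))))))))))))))))))))))))))))))))))))))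
 (.lc 3 9 (.lc 4 10 .stop))))))
 (.lc 2 7 (.lc 2 7 (.lc 2 7 (.node [96,135] 2 0 .stop
 (.node [97,135] 1 4 (.lc 1 6 (.lc 2 6 (.lc 2 6 .stop)))
 (.node [105,135] 7 2 (.far [1,4112,1,1,1] 4096 (.lc 3 9 (.lc 3 10 (.node [122,160] 4 6 (.lc 2 7 (.lc 2 10 (.lc 2 11 (.lc 3 11 (.lc 2 9 (.lc 3 10 (.lc 3 12 (.lc 3 7 (.lc 3 10 (.lc 3 11 (.lc 1 8 (.lc 0 0 (.lc 2 9 (.lc 2 9 (.lc 2 9 (.lc 4 10 (.lc 4 12 (.lc 3 9 (.lc 0 0 (.lc 3 9 (.lc 2 8 (.lc 0 0 (.lc 1 10 (.conf [152,169] (.node [152,185] 9 8 (.lc 1 7 (.conf [122,183] (.lc 2 7 (.lc 1 10 (.lc 2 10 .stop)))))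
 (.node [152,185] 9 8 (.lc 1 7 (.lc 0 7 (.lc 2 7 (.lc 1 10 (.lc 2 10 .stop)))))
 (.lc 2 9 (.lc 0 0 (.node [152,185,203] 9 8 (.lc 1 7 (.lc 0 7 (.lc 2 7 (.lc 1 10 (.lc 2 10 .stop)))))
 .stop)))))))))))))))))))))))))))))
 (.lc 3 10 (.lc 4 11 .stop))))))
 (.lc 2 7 (.lc 2 7 (.lc 2 7 (.lc 3 7 (.lc 3 7 (.lc 3 7 (.lc 3 7 (.lc 3 7 (.lc 3 7 .stop))))))))))))))))
 (.node [50,87,112,70] 6 5 (.node [103,112] 4 6 (.lc 2 7 (.lc 2 8 (.lc 3 9 (.lc 2 4 (.node [103,134] 8 6 (.far [16,256,256,256,0,4096] 17 (.lc 1 7 (.lc 2 4 (.lc 1 0 (.lc 2 7 (.lc 1 0 (.lc 2 7 (.lc 2 4 (.lc 2 4 (.lc 2 4 (.lc 3 9 (.lc 2 7 (.lc 3 4 (.lc 2 0 (.lc 3 7 (.lc 3 4 (.lc 3 4 (.lc 3 4 (.lc 4 4 .stop)))))))))))))))))))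
 (.lc 3 8 (.lc 3 9 (.lc 3 9 (.lc 0 0 (.lc 2 7 (.lc 0 0 (.lc 2 4 (.node [103,134] 6 7 (.lc 2 0 (.far [4112,1,4112,0,256] 0 (.lc 2 9 (.lc 2 0 (.lc 3 10 (.lc 3 4 (.far [4112,1,4112,0,256] 0 (.lc 3 10 (.lc 2 0 (.lc 3 10 (.lc 3 4 (.lc 3 4 (.lc 3 4 (.lc 3 0 (.lc 4 11 (.lc 4 4 (.lc 4 4 (.lc 4 4 (.lc 4 4 (.lc 5 4 .stop))))))))))))))))))))
 (.lc 4 10 (.lc 3 4 (.node [103,134,152] 8 6 (.node [112] 8 7 (.lc 2 0 (.lc 1 0 (.lc 2 0 (.lc 2 0 (.lc 2 0 (.lc 2 0 (.conf [1,144] (.lc 2 0 (.lc 3 0 (.lc 3 0 .stop))))))))))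
 (.lc 1 7 (.lc 2 4 (.lc 1 0 (.lc 2 7 (.lc 1 0 (.lc 2 7 (.lc 2 4 (.lc 2 4 (.lc 2 4 (.lc 3 10 (.lc 2 7 (.lc 3 4 (.lc 2 0 (.lc 3 7 (.lc 3 4 (.lc 3 4 (.lc 3 4 (.lc 4 4 .stop)))))))))))))))))))
 (.lc 3 7 (.lc 0 0 (.lc 3 7 (.lc 3 7 (.lc 4 7 .stop)))))))))))))))))))))
 (.node [97,112] 1 4 (.lc 1 6 (.lc 1 6 (.lc 2 6 (.lc 2 6 .stop))))
 (.node [104,112] 4 6 (.lc 2 9 (.lc 3 9 (.lc 2 8 (.lc 3 10 (.lc 3 9 (.far [256,256,256,0,4096] 17 (.lc 0 0 (.lc 2 8 (.lc 4 10 (.lc 3 8 (.node [135,152] 8 7 (.lc 1 0 (.lc 1 0 (.conf [1,144] (.lc 3 10 (.lc 2 0 (.lc 2 0 (.lc 2 0 (.lc 3 10 (.lc 2 0 (.lc 3 0 (.lc 4 11 .stop)))))))))))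
 (.lc 0 0 (.lc 2 7 (.lc 2 7 (.lc 3 7 .stop)))))))))))))))
 (.node [97,112] 1 4 (.lc 1 6 .stop)
 (.node [104,112] 4 6 (.lc 2 8 (.lc 2 9 (.lc 3 10 (.lc 2 4 (.node [104,150] 6 8 (.far [257,256,256,256,0,4096] 17 (.lc 2 10 (.lc 2 7 (.lc 3 11 (.lc 3 4 (.lc 0 10 (.lc 3 11 (.lc 2 7 (.lc 3 11 (.lc 3 4 (.lc 3 4 (.lc 3 7 (.lc 4 12 (.lc 4 4 (.lc 4 4 (.lc 4 4 (.lc 4 4 (.lc 5 4 .stop))))))))))))))))))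
 (.lc 3 9 (.lc 3 10 (.lc 3 10 (.lc 0 0 (.lc 2 8 (.lc 0 0 (.lc 2 4 (.node [104,150] 6 8 (.far [4112,1,4112,0,256] 0 (.lc 2 10 (.lc 2 7 (.lc 3 11 (.lc 3 4 (.far [4112,1,4112,0,256] 0 (.lc 3 11 (.lc 2 7 (.lc 3 11 (.lc 3 4 (.lc 3 4 (.lc 3 7 (.lc 4 12 (.lc 4 4 (.lc 4 4 (.lc 4 4 (.lc 4 4 (.lc 5 4 .stop))))))))))))))))))
 (.lc 4 11 (.lc 3 4 (.node [104,150,169] 6 8 (.node [135] 8 7 (.lc 1 0 (.lc 1 0 (.lc 3 11 (.lc 2 0 (.lc 2 0 (.lc 0 10 (.lc 0 0 (.lc 2 0 (.lc 1 0 (.lc 3 0 (.conf [1,160] .stop)))))))))))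
 (.lc 2 11 (.lc 2 7 (.lc 3 12 (.lc 3 4 (.lc 0 11 (.lc 3 12 (.lc 2 7 (.lc 3 12 (.lc 3 4 (.lc 3 4 (.lc 3 7 (.lc 4 13 (.lc 4 4 (.lc 4 4 (.lc 4 4 (.lc 4 4 (.lc 5 4 .stop))))))))))))))))))
 (.lc 3 8 (.lc 0 0 (.lc 3 8 (.lc 3 8 (.lc 4 8 .stop)))))))))))))))))))))
 (.node [97,112] 1 4 (.lc 1 6 .stop)
 (.node [104,135,112] 4 6 (.lc 2 9 (.lc 3 9 (.lc 2 8 (.lc 3 10 (.lc 3 9 (.lc 1 7 (.lc 0 0 (.lc 2 8 (.lc 4 10 (.lc 3 8 (.lc 2 7 (.lc 0 0 (.node [135,152] 8 7 (.far [4112,1,4112,0,256] 0 (.lc 2 0 (.far [4112,1,4112,0,256] 0 (.lc 2 0 (.lc 3 0 .stop)))))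
 (.node [135,152] 8 7 (.far [257,256,256,256,0,4096] 17 (.lc 2 0 (.lc 0 10 (.lc 2 0 (.lc 3 0 .stop)))))
 (.node [135,152,169] 8 7 (.node [112] 9 7 (.lc 2 0 (.lc 1 0 (.lc 2 0 (.lc 2 0 (.lc 2 0 (.lc 2 0 (.conf [1,160] (.lc 2 0 (.lc 3 0 (.lc 3 0 .stop))))))))))
 (.lc 2 0 (.lc 0 11 (.lc 2 0 (.lc 3 0 .stop)))))
 .stop)))))))))))))))
 (.node [104,112,129] 1 4 (.lc 1 6 (.lc 2 7 (.lc 3 7 .stop)))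
 (.node [97,112,135] 1 4 (.lc 1 6 .stop)
 (.node [105,112,135] 4 6 (.lc 2 10 (.lc 3 10 (.lc 2 9 (.lc 3 11 (.lc 3 10 (.lc 1 8 (.lc 0 0 (.lc 2 9 (.lc 4 11 (.lc 3 9 (.lc 2 8 (.lc 0 0 (.node [152,169] 9 8 (.far [4112,1,4112,0,256] 0 (.lc 2 7 (.far [4112,1,4112,0,256] 0 (.lc 2 7 (.lc 3 7 .stop)))))
 (.node [152,169] 10 9 (.far [16,256,256,256,0,4096] 17 (.lc 1 7 (.lc 1 7 (.lc 3 11 (.lc 2 7 .stop)))))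
 (.node [152,169,186] 10 9 (.node [135] 8 7 (.lc 1 0 (.lc 1 0 (.lc 3 12 (.lc 2 0 (.lc 2 0 (.lc 0 11 (.lc 0 0 (.lc 2 0 (.lc 1 0 (.lc 3 0 (.conf [1,176] .stop)))))))))))
 (.lc 1 7 (.lc 1 7 (.lc 3 12 (.lc 2 7 .stop)))))
 .stop)))))))))))))))
 .stop))))))))))
 (.conf [32,114] (.node [50,88,135,70,112] 5 8 (.node [104] 4 6 (.lc 2 7 (.lc 2 8 (.lc 2 9 (.lc 3 9 (.lc 3 10 (.node [104,150] 6 8 (.lc 1 7 (.lc 2 10 (.lc 1 0 (.lc 3 10 (.lc 3 4 (.lc 2 7 (.lc 3 11 (.far [257,256,1,256,0,4096] 17 (.lc 3 10 (.lc 3 4 (.lc 3 4 (.lc 0 10 (.lc 4 11 (.lc 4 4 (.lc 4 4 (.lc 4 4 (.lc 4 4 (.lc 5 4 .stop))))))))))))))))))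
 (.lc 3 7 (.lc 3 10 (.lc 3 0 (.lc 3 7 (.lc 3 10 (.lc 0 0 (.lc 2 8 (.lc 2 8 (.lc 0 0 (.lc 1 0 (.lc 2 4 (.node [104,150] 6 8 (.lc 1 7 (.lc 2 10 (.lc 1 0 (.lc 3 10 (.lc 3 4 (.lc 2 7 (.lc 3 11 (.far [4112,1,16,4096,257,257] 4096 (.lc 3 10 (.lc 3 4 (.lc 3 4 (.far [4112,1,16,4096,257,257] 4096 (.lc 4 11 (.lc 4 4 (.lc 4 4 (.lc 4 4 (.lc 4 4 (.lc 5 4 .stop))))))))))))))))))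
 (.lc 4 11 (.lc 0 0 (.lc 3 4 (.node [104,150,169] 6 8 (.lc 1 7 (.lc 2 11 (.lc 1 0 (.lc 3 11 (.lc 3 4 (.lc 2 7 (.lc 3 12 (.node [112] 9 7 (.lc 2 0 (.conf [1,160] .stop))
 (.lc 3 11 (.lc 3 4 (.lc 3 4 (.lc 0 11 (.lc 4 12 (.lc 4 4 (.lc 4 4 (.lc 4 4 (.lc 4 4 (.lc 5 4 .stop))))))))))))))))))
 (.lc 0 0 (.lc 3 8 (.lc 3 8 (.lc 0 0 (.lc 0 0 (.lc 3 8 (.lc 3 8 (.lc 0 0 (.lc 3 8 (.lc 0 0 (.lc 4 8 .stop)))))))))))))))))))))))))))))))))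
 (.lc 2 7 (.lc 2 7 (.node [97,135] 1 4 (.lc 1 6 (.lc 2 6 .stop))
 (.node [105,135] 4 6 (.lc 2 7 (.lc 2 10 (.lc 3 10 (.lc 2 9 (.lc 3 11 (.lc 3 7 (.lc 3 10 (.lc 1 8 (.lc 0 0 (.lc 2 9 (.lc 2 9 (.lc 4 11 (.lc 0 0 (.lc 3 9 (.lc 2 8 (.lc 0 0 (.lc 1 0 (.node [152,169] 9 8 (.lc 1 7 (.lc 1 0 (.lc 2 7 (.far [4112,1,16,4096,257,257] 4096 (.far [4112,1,16,4096,257,257] 4096 .stop)))))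
 (.node [152,169] 9 8 (.lc 1 7 (.lc 1 0 (.lc 2 7 (.far [257,256,1,256,0,4096] 17 (.lc 0 11 .stop)))))
 (.lc 0 0 (.node [152,169,186] 9 8 (.lc 1 7 (.lc 1 0 (.lc 2 7 (.node [112] 10 7 (.lc 2 0 (.conf [1,176] .stop))
 (.lc 0 12 .stop)))))
 .stop)))))))))))))))))))))
 (.lc 2 7 (.lc 2 7 (.lc 3 7 (.lc 3 7 (.lc 3 7 .stop))))))))))
 (.conf [32,114] .stop)))))))))))))))))))))))))))))))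
 (.conf [50,69] (.conf [50,64] (.conf [50,70] (.node [69,80,50] 4 5 (.node [80] 5 0 (.lc 2 6 (.lc 3 7 .stop))
 (.lc 2 0 (.node [80,101] 5 0 (.lc 2 7 (.node [103,112,3,50] 0 3 (.lc 2 1 (.lc 0 3 (.lc 2 2 (.node [120,131] 6 7 (.lc 2 8 (.lc 0 8 (.lc 3 9 .stop)))
 (.lc 2 2 (.lc 3 2 .stop))))))
 (.lc 3 8 (.lc 0 7 (.lc 0 8 .stop)))))
 (.lc 2 0 (.lc 3 0 .stop)))))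
 (.node [64,50] 4 0 (.lc 0 0 .stop)
 (.node [70,101,50] 4 6 (.node [101] 6 5 (.lc 2 0 (.lc 2 2 (.lc 2 7 (.lc 2 3 (.lc 2 3 (.lc 2 3 (.lc 2 3 (.lc 2 3 (.node [83] 5 3 (.conf [50,80] (.conf [50,82] (.node [50,87,115] 3 2 (.lc 2 0 (.far [4112,1,0,4112,1,257] 4096 (.lc 2 8 (.lc 0 0 (.lc 3 8 (.lc 0 8 (.lc 3 9 (.lc 3 2 (.lc 0 8 (.lc 3 9 (.conf [32,130] (.lc 3 9 (.lc 3 2 (.lc 3 2 (.lc 3 2 (.lc 3 2 (.lc 0 9 (.lc 4 10 (.lc 4 2 (.lc 4 2 (.lc 4 2 (.lc 4 2 (.lc 4 2 (.lc 5 2 .stop))))))))))))))))))))))))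
 (.lc 2 2 (.lc 3 7 (.lc 3 8 (.conf [1,80] (.conf [32,50] (.node [50,88,115,135] 5 8 (.node [135,115] 7 3 (.node [114] 8 7 (.node [114,137] 7 2 (.node [146] 8 9 .stop
 (.lc 0 10 .stop))
 (.lc 2 2 (.conf [114,151] (.lc 2 2 .stop))))
 (.lc 1 2 (.lc 2 2 (.lc 3 9 (.lc 2 2 (.conf [32,146] (.lc 2 2 (.lc 2 2 (.lc 2 2 (.lc 3 9 (.lc 2 2 (.lc 3 2 (.lc 4 10 (.lc 3 2 (.lc 3 2 (.lc 3 2 (.lc 3 2 (.lc 4 2 .stop))))))))))))))))))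
 (.lc 2 2 (.lc 2 9 (.node [135,115] 8 7 (.conf [39,115] (.lc 2 3 .stop))
 (.lc 3 9 (.lc 3 10 (.lc 3 0 (.lc 3 0 (.node [135,115] 3 2 .stop
 (.lc 3 10 (.node [135,115] 2 8 .stop
 (.node [135,152,115] 9 8 (.far [16,257,257,16,16,4096] 4097 (.lc 1 3 (.lc 1 3 (.lc 1 3 (.lc 3 10 (.lc 2 3 .stop))))))
 (.lc 3 2 (.lc 3 10 (.lc 3 0 (.lc 3 0 (.lc 3 0 (.node [135,152,115] 9 8 (.far [16,257,257,256,16,1,1] 4096 (.lc 1 3 (.lc 1 3 (.lc 3 10 (.lc 2 3 .stop)))))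
 (.lc 4 11 (.lc 4 0 (.lc 4 0 (.lc 4 0 (.lc 4 0 (.lc 4 0 (.lc 5 0 .stop)))))))))))))))))))))))))
 (.lc 2 2 (.lc 2 2 (.lc 2 2 (.lc 3 7 (.lc 3 8 (.lc 3 2 (.lc 4 8 (.lc 4 9 (.lc 3 2 (.lc 3 2 (.lc 3 2 (.lc 4 2 .stop)))))))))))))))))))))
 (.lc 0 7 (.lc 3 7 (.lc 3 0 (.lc 3 0 (.lc 3 8 (.lc 2 3 (.lc 2 3 (.lc 2 3 (.lc 2 3 (.lc 2 3 (.lc 2 3 (.lc 0 7 (.lc 0 0 (.lc 0 7 (.lc 3 3 (.lc 3 3 (.lc 3 3 (.lc 3 3 (.lc 3 3 (.lc 3 3 (.lc 0 0 (.lc 0 8 (.lc 0 0 (.lc 0 8 (.lc 0 0 (.lc 0 8 (.lc 3 3 (.lc 0 8 (.lc 0 0 (.lc 0 9 .stop)))))))))))))))))))))))))))))))))))))))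
 (.lc 0 0 (.lc 2 5 (.lc 0 0 (.node [101,118] 7 6 (.lc 1 5 (.lc 1 5 (.lc 1 5 (.node [83,112] 7 0 .stop
 (.node [83,133,83,50] 7 8 (.lc 2 0 (.lc 2 2 (.lc 0 2 (.lc 2 9 (.lc 3 9 (.lc 3 0 (.lc 3 9 (.lc 1 2 (.lc 0 0 (.lc 1 2 (.lc 3 0 (.lc 3 10 (.node [133] 8 5 (.lc 1 3 (.lc 0 2 (.lc 1 3 (.lc 2 3 (.lc 2 3 (.lc 2 3 (.lc 1 2 (.lc 2 3 (.lc 1 2 (.lc 2 3 (.lc 2 3 (.lc 2 3 (.lc 2 3 (.lc 2 3 (.lc 2 3 (.lc 3 3 (.lc 3 3 (.lc 3 3 (.lc 3 3 (.lc 3 3 (.lc 3 3 (.lc 4 3 .stop))))))))))))))))))))))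
 (.lc 0 9 (.lc 3 9 (.lc 3 0 (.lc 0 0 (.lc 3 0 (.lc 3 10 (.lc 0 2 (.lc 3 9 (.lc 3 0 (.lc 1 8 (.lc 3 0 (.lc 3 2 (.lc 0 2 (.lc 3 10 (.lc 2 5 (.lc 0 9 (.lc 0 0 (.lc 4 10 (.lc 4 9 (.lc 2 8 (.lc 1 0 (.lc 4 10 (.lc 4 0 (.lc 0 0 (.lc 4 0 (.lc 4 11 (.lc 0 0 (.lc 0 0 (.lc 0 0 (.lc 3 5 (.lc 0 10 (.lc 0 0 .stop)))))))))))))))))))))))))))))))))))))))))))))
 (.lc 2 5 (.lc 2 5 (.lc 2 5 (.lc 2 5 (.lc 2 5 (.lc 2 5 (.lc 2 5 (.lc 2 5 (.lc 2 5 (.lc 1 3 (.lc 1 3 (.lc 1 3 (.lc 3 0 (.lc 3 2 (.lc 3 8 (.lc 2 5 (.lc 2 5 (.lc 2 5 (.lc 2 5 (.lc 2 5 (.lc 2 3 (.lc 2 3 (.lc 2 3 (.lc 2 3 (.lc 3 5 (.lc 3 5 (.lc 3 5 (.lc 3 5 (.lc 3 5 (.lc 3 5 (.lc 4 8 (.lc 4 0 (.lc 4 0 (.lc 4 9 (.lc 2 3 (.lc 2 3 (.lc 2 3 (.lc 2 3 (.lc 2 3 (.lc 2 3 (.lc 2 3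 (.lc 2 3 (.lc 2 3 (.lc 2 3 (.lc 3 3 (.lc 3 3 (.lc 3 3 (.lc 3 3 (.lc 3 3 (.lc 3 3 .stop)))))))))))))))))))))))))))))))))))))))))))))))))))))))
 (.lc 0 0 (.lc 2 5 (.lc 0 0 (.lc 3 5 .stop)))))))))
 (.node [70,101,70,80,50] 0 3 .stop
 (.node [70,96,70,50,83] 0 5 (.node [83] 5 3 (.lc 1 2 (.lc 2 2 .stop))
 (.lc 2 3 (.conf [39,117] (.lc 2 3 (.lc 3 3 .stop)))))
 (.node [50,64,83,101] 4 0 .stop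
 (.node [71,118,71,101,50] 4 7 (.lc 2 0 (.lc 2 8 (.lc 3 8 (.lc 3 0 (.lc 3 9 (.lc 0 0 (.node [118,135] 8 7 (.lc 1 6 (.lc 1 6 (.lc 1 6 (.lc 1 5 (.lc 1 5 (.lc 2 6 (.lc 2 6 (.lc 2 6 (.lc 2 6 (.lc 2 6 (.lc 2 6 (.lc 2 6 (.lc 2 6 (.lc 2 6 (.node [101,128] 0 6 (.conf [5,83] (.lc 3 1 (.lc 1 3 (.lc 1 3 (.lc 3 1 (.lc 4 1 .stop))))))
 (.node [101,130] 2 6 .stop
 (.node [101,137] 6 5 (.node [83] 5 3 (.lc 1 2 (.lc 1 2 (.lc 3 0 (.lc 3 10 (.lc 2 2 (.lc 2 2 (.lc 2 2 (.lc 2 2 (.lc 2 2 (.lc 3 0 (.lc 3 10 (.conf [32,146] (.lc 2 2 (.lc 2 2 (.lc 4 10 (.lc 4 11 (.lc 3 2 (.lc 3 2 (.lc 3 2 (.lc 0 0 (.lc 0 10 (.lc 0 0 (.lc 0 10 (.far [256,256,16,256,0,4096] 17 (.conf [32,162] (.lc 0 10 (.lc 0 11 .stop)))))))))))))))))))))))))))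
 (.lc 2 3 (.lc 1 8 (.lc 2 3 (.lc 2 3 (.node [83,144] 0 5 (.lc 1 3 (.lc 2 3 (.node [] 8 9 (.lc 2 10 (.lc 0 10 (.lc 3 11 (.far [4096,0,16,0,257,256] 0 (.lc 0 10 (.lc 0 11 .stop))))))
 .stop)))
 (.node [83,154] 8 9 (.lc 2 0 (.lc 2 2 (.lc 2 11 (.lc 3 0 (.lc 3 11 (.lc 2 10 (.lc 0 11 (.lc 3 11 (.lc 3 0 (.lc 3 0 (.lc 3 12 (.lc 3 0 (.lc 3 2 (.lc 3 11 (.lc 0 10 (.lc 0 0 (.lc 0 11 (.lc 4 11 (.lc 4 0 (.lc 4 0 (.lc 4 12 (.lc 0 0 (.lc 0 12 (.lc 0 0 (.lc 0 11 (.lc 0 0 (.lc 0 11 (.node [165] 10 5 (.lc 1 3 (.lc 2 3 (.far [4112,4096,16,0,257,256] 17 .stop)))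
 (.lc 0 11 (.lc 0 0 (.lc 0 12 .stop)))))))))))))))))))))))))))))))
 (.lc 2 3 (.lc 2 3 (.lc 1 8 (.lc 3 3 (.lc 3 3 (.lc 3 3 (.lc 3 3 .stop))))))))))))))
 (.lc 1 5 (.lc 1 5 (.lc 1 5 (.lc 2 6 (.lc 2 6 (.lc 2 6 (.lc 2 6 (.lc 2 6 (.node [101,137,144] 0 6 (.lc 1 3 .stop)
 (.conf [38,101] (.node [101,128,150] 8 0 .stop
 (.node [101,138,150] 9 6 (.node [83] 5 3 (.lc 1 2 (.lc 1 2 (.lc 1 2 (.lc 3 0 (.lc 3 11 (.lc 2 2 (.lc 2 2 (.lc 2 2 (.lc 2 2 (.lc 2 2 (.lc 3 0 (.lc 3 10 (.lc 3 11 (.lc 0 2 (.lc 2 2 (.lc 4 11 (.lc 4 12 (.lc 3 2 (.lc 3 2 (.conf [32,162] (.lc 1 2 (.lc 0 0 (.lc 0 11 (.far [256,4112,16,256,0,4096] 17 (.conf [32,178] .stop)))))))))))))))))))))))))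
 (.lc 1 3 (.lc 0 8 (.lc 1 3 (.lc 1 3 (.lc 1 3 (.lc 1 3 (.lc 3 0 (.lc 3 11 (.lc 0 8 (.lc 2 3 (.lc 2 3 (.lc 2 3 (.lc 2 3 .stop))))))))))))))
 (.lc 3 6 (.lc 3 6 (.lc 3 6 (.lc 3 6 (.lc 3 6 (.lc 3 6 (.lc 2 5 (.lc 2 5 (.lc 2 5 (.lc 2 5 (.lc 4 9 (.lc 4 0 (.lc 4 9 (.lc 4 0 (.lc 4 10 (.lc 4 9 (.lc 4 0 (.lc 4 0 (.lc 4 2 (.lc 4 10 (.lc 5 10 (.lc 5 9 (.lc 5 10 (.lc 5 0 (.lc 5 0 (.lc 5 11 .stop)))))))))))))))))))))))))))))))))))))))))))))))))))))))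
 (.lc 3 8 (.lc 3 0 (.lc 3 9 (.lc 3 8 (.lc 3 0 (.lc 3 9 (.lc 0 0 (.lc 2 6 (.lc 0 0 (.node [118,135] 7 6 (.lc 1 5 (.lc 1 5 (.lc 1 5 (.lc 3 9 (.lc 3 0 (.lc 3 9 (.lc 3 0 (.lc 3 10 (.lc 2 5 (.lc 2 5 (.lc 2 5 (.lc 2 5 (.lc 2 5 (.lc 2 5 (.lc 3 9 (.lc 3 0 (.lc 3 0 (.lc 3 2 (.lc 3 10 (.node [101,128] 0 6 (.far [1,4096,1,256] 0 (.lc 1 3 (.lc 1 3 (.lc 1 3 (.conf [37,83] (.lc 2 3 .stop))))))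
 (.node [101,130] 2 6 .stop
 (.node [101,137] 6 5 (.far [4112,4096,1,256] 0 (.lc 2 3 (.lc 2 3 (.lc 2 3 (.far [4112,4096,1,256] 0 (.far [4112,4096,1,256] 0 (.lc 2 3 (.lc 2 3 (.lc 3 3 (.lc 3 3 (.lc 3 3 (.lc 3 3 .stop))))))))))))
 (.lc 2 5 (.lc 2 5 (.lc 2 5 (.lc 4 10 (.lc 4 9 (.lc 4 10 (.lc 4 0 (.lc 4 0 (.lc 4 11 (.lc 3 5 (.lc 3 5 (.lc 3 5 (.lc 3 5 (.node [101,137,144] 0 6 (.conf [5,83] (.lc 3 1 (.lc 1 3 (.lc 1 3 (.lc 3 1 (.lc 4 1 .stop))))))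
 (.far [1,1,257,257] 4096 (.node [101,137,146] 2 6 .stop
 (.node [101,128,150] 8 0 .stop
 (.node [101,138,169] 6 5 (.far [4112,4096,1,256] 0 (.lc 2 3 (.lc 2 3 (.lc 2 3 (.far [4112,4096,1,256] 0 (.far [4112,4096,1,256] 0 (.lc 2 3 (.lc 2 3 (.lc 3 3 (.lc 3 3 (.lc 3 3 (.lc 3 3 .stop))))))))))))
 (.node [101,137,144] 0 6 (.lc 1 3 .stop)
 (.conf [38,101] (.node [101,128,150] 8 0 (.lc 0 3 (.lc 2 10 (.lc 3 11 .stop)))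
 (.node [101,130,150] 3 2 (.lc 2 0 (.lc 1 0 (.lc 0 0 (.lc 2 0 (.lc 3 10 (.lc 2 0 (.node [80] 6 5 (.lc 0 0 .stop)
 (.lc 2 0 (.node [90,160] 6 5 (.lc 0 10 .stop)
 (.lc 3 0 .stop))))))))))
 (.node [101,138,150] 9 6 (.node [83] 5 3 (.lc 1 2 (.lc 1 2 (.lc 1 2 (.lc 3 0 (.lc 3 10 (.lc 3 11 (.lc 2 2 (.lc 2 2 (.lc 2 2 (.lc 2 2 (.lc 2 2 (.lc 2 2 (.lc 2 2 (.lc 2 2 (.lc 2 2 (.lc 3 0 (.lc 3 10 (.lc 3 11 (.lc 0 2 (.lc 2 2 (.lc 4 10 (.lc 4 11 (.lc 4 11 (.lc 4 10 (.lc 4 12 (.lc 3 2 (.lc 3 2 (.lc 1 2 (.conf [32,162] (.lc 0 0 (.lc 0 11 (.lc 1 0 (.lc 1 11 .stop)))))))))))))))))))))))))))))))))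
 (.lc 1 3 (.lc 1 3 (.lc 1 3 (.lc 1 3 (.lc 1 3 (.lc 3 0 (.lc 3 11 (.lc 2 3 (.lc 2 3 (.lc 2 3 (.lc 2 3 .stop))))))))))))
 (.node [101,137,144,137] 0 6 (.lc 1 3 .stop)
 (.conf [38,101] (.node [101,128,150] 9 6 (.node [83] 0 9 (.lc 1 5 (.lc 1 3 (.lc 2 5 (.node [] 1 8 (.lc 1 0 (.lc 2 10 (.lc 3 11 (.lc 3 11 (.lc 3 11 (.lc 4 12 .stop))))))
 .stop))))
 (.lc 1 3 (.lc 1 3 (.lc 1 3 (.lc 3 10 (.lc 2 3 .stop))))))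
 (.node [101,138,169,138] 9 6 (.node [83] 5 3 (.lc 1 2 (.lc 1 2 (.lc 1 2 (.lc 1 2 (.lc 3 0 (.lc 3 11 (.lc 2 2 (.lc 2 2 (.lc 2 2 (.lc 2 2 (.lc 2 2 (.lc 2 2 (.lc 3 0 (.lc 3 8 (.lc 3 10 (.lc 3 11 (.lc 0 2 (.lc 2 2 (.lc 4 11 (.lc 4 10 (.lc 4 12 (.lc 3 2 (.lc 3 2 (.conf [32,162] (.lc 1 2 (.lc 0 0 (.lc 0 11 (.far [4112,1,4096,1,256,256] 0 (.conf [32,178] .stop)))))))))))))))))))))))))))))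
 (.lc 1 3 (.lc 1 3 (.lc 1 3 (.lc 1 3 (.lc 1 3 (.lc 3 0 (.lc 3 11 (.lc 2 3 (.lc 2 3 (.lc 2 3 (.lc 2 3 .stop))))))))))))
 (.node [101,138,169,144] 0 6 (.lc 1 3 .stop)
 (.conf [38,101] (.node [101,138,150,160] 9 6 (.node [83] 0 9 (.lc 1 5 (.lc 1 3 (.lc 2 5 (.far [1,1,4096,1,256,256] 0 .stop))))
 (.lc 1 3 (.lc 1 3 (.lc 1 3 (.lc 3 11 (.lc 2 3 .stop))))))
 (.conf [41,150] (.node [101,128,150,169] 8 0 .stop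
 (.node [101,139,150,169] 9 6 (.node [83] 5 3 (.lc 1 2 (.lc 1 2 (.lc 1 2 (.lc 1 2 (.lc 3 0 (.lc 3 12 (.lc 2 2 (.lc 2 2 (.lc 2 2 (.lc 2 2 (.lc 2 2 (.lc 2 2 (.lc 3 0 (.lc 3 10 (.lc 3 11 (.lc 3 12 (.lc 0 2 (.lc 2 2 (.lc 4 12 (.lc 4 10 (.lc 4 13 (.lc 3 2 (.lc 3 2 (.conf [32,162] (.lc 1 2 (.lc 0 0 (.lc 0 12 (.far [4112,1,4096,1,256,256] 0 (.conf [32,194] .stop)))))))))))))))))))))))))))))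
 (.lc 1 3 (.lc 1 3 (.lc 1 3 (.lc 1 3 (.lc 1 3 (.lc 3 0 (.lc 3 12 (.lc 2 3 (.lc 2 3 (.lc 2 3 (.lc 2 3 .stop))))))))))))
 .stop)))))))))))))))))))))))))))))))))))))))))))))))))))))))
 (.lc 4 9 (.lc 4 9 (.lc 4 0 (.lc 4 10 (.lc 0 0 (.node [118,135,152] 8 7 (.lc 1 6 (.lc 1 6 (.lc 1 6 (.lc 1 5 (.lc 1 5 (.lc 2 6 (.lc 2 6 (.lc 2 6 (.lc 2 6 (.lc 2 6 (.lc 2 6 (.lc 2 6 (.lc 2 6 (.lc 2 6 (.node [101,128] 0 6 (.conf [5,83] (.lc 3 1 (.lc 1 3 (.lc 1 3 (.lc 3 1 (.lc 4 1 .stop))))))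
 (.node [101,130] 2 6 .stop
 (.node [101,138] 6 5 (.node [83] 5 3 (.lc 1 2 (.lc 1 2 (.lc 1 2 (.lc 3 0 (.lc 3 11 (.lc 2 2 (.lc 2 2 (.lc 2 2 (.lc 2 2 (.lc 2 2 (.lc 3 0 (.lc 3 9 (.lc 3 11 (.conf [32,162] (.lc 2 2 (.lc 2 2 (.lc 2 2 (.lc 4 11 (.lc 4 12 (.lc 3 2 (.lc 3 2 (.lc 3 2 (.lc 0 0 (.lc 0 11 (.lc 0 0 (.lc 1 8 (.lc 0 11 (.node [160] 8 10 (.lc 2 0 (.lc 2 11 (.lc 3 11 (.lc 0 11 (.lc 3 12 (.lc 0 0 (.conf [1,144] (.lc 2 0 (.lc 3 0 (.lc 3 0 .stop))))))))))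
 (.conf [32,178] (.lc 0 11 (.lc 0 12 .stop)))))))))))))))))))))))))))))))
 (.lc 2 3 (.lc 2 3 (.lc 2 3 (.lc 2 3 (.node [83,160] 0 5 (.lc 1 3 (.lc 2 3 (.far [1,4096,1,4096,0,256] 0 .stop)))
 (.node [83,171] 8 10 (.lc 2 0 (.lc 2 2 (.lc 2 12 (.lc 3 0 (.lc 3 12 (.lc 0 0 (.lc 0 12 (.lc 3 12 (.lc 3 0 (.lc 3 0 (.lc 3 13 (.lc 3 0 (.lc 3 2 (.lc 3 12 (.lc 0 11 (.lc 2 11 (.lc 2 11 (.lc 2 11 (.lc 4 12 (.lc 4 0 (.lc 4 0 (.lc 4 13 (.lc 3 11 (.lc 3 11 (.lc 3 11 (.lc 3 11 (.lc 2 5 (.lc 2 5 (.node [144,181] 9 0 (.far [257,257,0,257,4096] 0 .stop)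
 (.node [146,181] 9 2 .stop
 (.node [156,181] 11 5 (.lc 1 3 (.lc 1 2 (.lc 2 3 (.lc 2 3 (.conf [32,194] .stop)))))
 (.lc 0 0 (.lc 0 12 (.node [156,181,192] 0 11 .stop
 (.conf [43,181] (.node [144,181,203] 9 0 (.node [] 11 5 (.lc 1 3 (.lc 1 2 (.lc 2 3 (.lc 0 2 .stop))))
 .stop)
 (.node [157,181,203] 11 5 (.lc 1 3 (.lc 1 2 (.lc 2 3 (.lc 2 3 (.lc 0 2 .stop)))))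
 .stop)))))))))))))))))))))))))))))))))))))
 (.lc 2 3 (.lc 2 3 (.lc 3 3 (.lc 3 3 (.lc 3 3 (.lc 3 3 .stop)))))))))))))
 (.lc 1 5 (.lc 1 5 (.lc 1 5 (.lc 2 6 (.lc 2 6 (.lc 2 6 (.lc 2 6 (.lc 2 6 (.node [101,138,160] 0 6 (.lc 1 3 .stop)
 (.conf [38,101] (.node [101,128,166] 8 0 .stop
 (.node [101,139,166] 10 6 (.node [83] 5 3 (.lc 1 2 (.lc 1 2 (.lc 1 2 (.lc 1 2 (.lc 3 0 (.lc 3 12 (.lc 2 2 (.lc 2 2 (.lc 2 2 (.lc 2 2 (.lc 2 2 (.lc 3 0 (.lc 3 9 (.lc 3 11 (.lc 3 12 (.lc 0 2 (.lc 2 2 (.lc 4 12 (.lc 4 13 (.lc 3 2 (.lc 3 2 (.conf [32,178] (.lc 1 2 (.lc 0 0 (.lc 0 12 (.node [176] 8 11 (.lc 2 0 (.conf [1,144] .stop))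
 (.conf [32,194] .stop)))))))))))))))))))))))))))
 (.lc 1 3 (.lc 1 3 (.lc 1 3 (.lc 1 3 (.lc 1 3 (.lc 1 3 (.lc 3 0 (.lc 3 12 (.lc 2 3 (.lc 2 3 (.lc 2 3 (.lc 2 3 .stop)))))))))))))
 (.lc 3 6 (.lc 3 6 (.lc 3 6 (.lc 3 6 (.lc 3 6 (.lc 3 6 (.lc 2 5 (.lc 2 5 (.lc 2 5 (.lc 2 5 (.lc 4 10 (.lc 4 0 (.lc 4 10 (.lc 4 0 (.lc 4 11 (.lc 4 10 (.lc 4 0 (.lc 4 0 (.lc 4 2 (.lc 4 11 (.lc 5 11 (.lc 5 10 (.lc 5 11 (.lc 5 0 (.lc 5 0 (.lc 5 12 .stop)))))))))))))))))))))))))))))))))))))))))))))))))))))))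
 (.lc 0 0 (.lc 3 6 (.lc 0 0 (.lc 3 6 (.lc 0 0 (.lc 3 6 (.lc 0 0 (.lc 4 6 .stop)))))))))))))))))))))))))))))))
 (.node [70,101,50,80] 4 6 (.node [101] 5 0 (.lc 0 6 (.lc 1 6 (.lc 1 6 (.lc 1 6 (.lc 2 6 .stop)))))
 (.lc 2 5 (.node [101,118] 5 0 (.lc 0 7 (.lc 1 0 (.lc 1 0 (.lc 3 7 (.lc 1 7 (.lc 2 0 .stop))))))
 (.lc 2 5 (.lc 3 5 .stop)))))
 (.node [70,83,96,50,83] 4 6 (.node [96] 6 0 .stop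
 (.lc 2 0 (.node [96,118] 6 0 .stop
 (.lc 2 0 (.lc 3 0 .stop)))))
 (.node [64,83,50,83,101] 4 0 (.lc 0 0 .stop)
 (.node [71,83,118,50,83] 4 7 (.node [118] 7 6 (.lc 1 5 (.lc 1 5 (.lc 1 5 (.lc 3 8 (.lc 3 0 (.lc 3 8 (.lc 3 0 (.lc 3 9 (.lc 2 5 (.lc 0 8 (.lc 2 5 (.lc 2 5 (.lc 2 5 (.lc 2 5 (.lc 3 8 (.lc 3 0 (.lc 3 0 (.lc 3 2 (.lc 3 9 (.node [101] 6 5 (.node [83] 5 3 (.lc 2 2 (.lc 1 2 (.lc 2 2 (.far [1,1,0,4112,1,257] 4096 (.lc 0 8 (.lc 1 0 (.lc 2 2 (.lc 2 2 (.lc 0 8 (.lc 0 1 (.lc 3 2 (.lc 0 9 .stop))))))))))))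
 (.lc 2 3 (.lc 2 3 (.conf [37,83] (.node [83,133] 5 3 (.lc 2 2 (.lc 1 2 (.lc 2 2 (.lc 1 0 (.lc 2 2 (.lc 1 0 (.lc 2 2 (.lc 2 2 (.lc 2 2 (.lc 0 2 (.lc 2 2 (.lc 3 2 (.lc 2 0 (.lc 3 2 (.lc 3 2 (.lc 3 2 (.lc 3 2 (.lc 4 2 .stop))))))))))))))))))
 (.lc 2 3 (.lc 2 3 (.lc 3 3 (.lc 3 3 .stop)))))))))
 (.lc 0 8 (.lc 0 0 (.lc 0 8 (.lc 4 9 (.lc 4 8 (.lc 4 9 (.lc 4 0 (.lc 4 0 (.lc 4 10 (.lc 0 0 (.lc 0 9 (.lc 0 0 (.lc 0 9 (.lc 0 0 (.lc 0 9 (.node [101,134] 8 6 (.node [83] 8 5 (.lc 1 3 (.lc 1 3 (.lc 0 0 (.lc 1 2 (.lc 2 3 (.lc 2 3 (.lc 2 3 (.lc 1 2 (.lc 1 2 (.lc 0 1 (.lc 2 2 (.lc 0 1 (.lc 0 1 (.lc 2 2 .stop))))))))))))))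
 (.lc 1 3 (.lc 1 3 (.lc 1 3 (.lc 3 9 (.lc 2 3 .stop))))))
 (.lc 0 9 (.lc 0 0 (.lc 0 10 .stop)))))))))))))))))))))))))))))))))))))))
 (.lc 0 0 (.lc 2 6 (.lc 0 0 (.node [118,135] 8 7 (.lc 1 6 (.lc 1 6 (.lc 1 6 (.lc 1 5 (.lc 1 5 (.lc 2 6 (.lc 2 6 (.lc 2 6 (.lc 2 6 (.lc 2 6 (.lc 2 6 (.lc 2 6 (.lc 2 6 (.lc 2 6 (.node [101,128] 0 6 (.conf [5,83] (.lc 3 1 (.lc 1 3 (.lc 1 3 (.lc 3 1 (.lc 4 1 .stop))))))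
 (.node [101,130] 2 6 .stop
 (.node [101,137] 6 5 (.node [83] 8 9 (.lc 2 0 (.lc 2 2 (.lc 0 2 (.lc 0 3 (.lc 2 10 (.lc 3 10 (.lc 3 0 (.lc 3 10 (.lc 1 2 (.lc 0 0 (.lc 1 2 (.lc 3 0 (.lc 3 11 (.node [149] 9 5 (.lc 1 3 (.lc 1 3 (.lc 1 3 (.lc 0 0 (.lc 1 2 (.lc 2 3 (.lc 2 3 (.lc 2 3 (.lc 2 3 (.lc 1 2 (.lc 1 2 (.lc 1 2 (.lc 2 3 (.lc 2 2 (.lc 3 3 (.lc 4 0 (.lc 2 2 .stop)))))))))))))))))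
 (.lc 0 10 (.lc 3 10 (.lc 3 0 (.lc 0 0 (.lc 0 2 (.lc 3 0 (.lc 3 11 (.lc 0 2 (.lc 3 10 (.lc 3 0 (.lc 1 9 (.lc 3 0 (.lc 3 2 (.lc 0 2 (.lc 3 11 (.lc 2 5 (.lc 0 10 (.lc 0 0 (.lc 4 11 (.lc 4 10 (.lc 2 9 (.lc 1 0 (.lc 4 11 (.lc 4 0 (.lc 0 0 (.lc 4 0 (.lc 4 12 (.lc 0 0 (.lc 0 0 (.lc 0 0 (.lc 3 5 (.lc 0 11 (.lc 0 0 .stop)))))))))))))))))))))))))))))))))))))))))))))))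
 (.lc 2 3 (.lc 2 3 (.lc 2 3 (.node [83,144] 0 5 (.lc 1 3 (.node [] 8 9 (.lc 2 10 (.lc 0 10 (.lc 3 11 (.far [256,257,1,0,4112,1,257] 4096 .stop))))
 (.lc 2 3 .stop)))
 (.node [83,154] 8 9 (.lc 2 0 (.lc 2 2 (.lc 0 2 (.lc 2 11 (.lc 3 0 (.lc 3 11 (.lc 2 10 (.lc 0 11 (.lc 3 11 (.lc 3 0 (.lc 0 0 (.lc 3 0 (.lc 3 12 (.lc 3 0 (.lc 3 2 (.lc 0 2 (.lc 3 11 (.lc 0 10 (.lc 0 0 (.lc 4 11 (.lc 4 0 (.lc 0 0 (.lc 4 0 (.lc 4 12 (.lc 0 0 (.lc 0 0 (.lc 0 0 (.node [165] 10 5 (.lc 1 3 (.lc 2 3 (.lc 1 2 .stop)))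
 (.lc 0 11 (.lc 0 0 .stop))))))))))))))))))))))))))))))
 (.lc 2 3 (.lc 2 3 (.lc 3 3 (.lc 3 3 (.lc 3 3 (.lc 3 3 .stop))))))))))))
 (.lc 1 5 (.lc 1 5 (.lc 1 5 (.lc 2 6 (.lc 2 6 (.lc 2 6 (.lc 2 6 (.lc 2 6 (.node [101,137,144] 0 6 (.lc 1 3 .stop)
 (.conf [38,101] (.node [101,128,150] 8 0 .stop
 (.node [101,138,150] 9 6 (.node [83] 9 5 (.lc 1 3 (.lc 1 3 (.lc 1 3 (.lc 1 2 (.lc 0 0 (.lc 1 2 (.lc 2 3 (.lc 2 3 (.lc 2 3 (.lc 2 3 (.lc 2 3 (.lc 2 3 (.lc 1 2 (.lc 1 2 (.lc 1 2 (.lc 2 3 (.lc 2 3 (.lc 2 3 (.lc 2 2 (.lc 2 2 (.lc 2 2 (.lc 3 3 (.lc 3 3 (.lc 3 3 (.lc 3 3 (.lc 2 2 (.lc 1 0 (.lc 2 2 (.lc 2 2 (.lc 2 2 (.lc 2 2 (.lc 2 2 (.lc 3 2 (.lc 3 2 (.lc 3 2 .stop)))))))))))))))))))))))))))))))))))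
 (.lc 1 3 (.lc 1 3 (.lc 1 3 (.lc 1 3 (.lc 1 3 (.lc 3 0 (.lc 3 11 (.lc 2 3 (.lc 2 3 (.lc 2 3 (.lc 2 3 .stop))))))))))))
 (.lc 3 6 (.lc 3 6 (.lc 3 6 (.lc 3 6 (.lc 3 6 (.lc 3 6 (.lc 2 5 (.lc 2 5 (.lc 2 5 (.lc 2 5 (.lc 4 9 (.lc 4 0 (.lc 4 9 (.lc 4 0 (.lc 4 10 (.lc 4 9 (.lc 4 0 (.lc 4 0 (.lc 4 2 (.lc 4 10 (.lc 5 10 (.lc 5 9 (.lc 5 10 (.lc 5 0 (.lc 5 0 (.lc 5 11 .stop)))))))))))))))))))))))))))))))))))))))))))))))))))))))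
 (.lc 0 0 (.lc 2 6 (.lc 0 0 (.lc 3 6 .stop)))))))))
 (.conf [50,70] (.conf [50,70] (.conf [50,64] (.conf [50,71] (.conf [50,70] (.conf [50,70] (.conf [50,64] (.conf [50,71] (.conf [50,70] (.conf [50,70] (.conf [50,64] (.conf [50,71] (.conf [50,71] (.conf [50,71] (.conf [50,71] (.conf [50,64] (.conf [50,72] .stop)))))))))))))))))))))))))))))))))))))))))))))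

theorem t24 : kNode2 awTt FTt 4 3 (check tyTt awTt triet FTt [s25] c24) (fun _ _ _ => true) 0 s24 Pl.nil s24 =
    true := by
  decide +kernel

end Chk
end Pool.Agent.Lib.MP_ba95e8_co
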