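import Pool.Agent.Lib.MP_ba95e8_co.ChkTab
import Pool.Agent.Lib.MP_ba95e8_co.ChkStates

/-!
Deltahedral domes: part 36 of the case analysis.
-/

namespace Pool.Agent.Lib.MP_ba95e8_co
namespace Chk

/-- certificate number 36 -/
def c36 : Cert := (.node [101] 5 3 (.node [82] 6 5 (.node [82,96] 0 5 (.far [1,1,4112,0,257] 0 (.node [82,96] 6 0 (.lc 2 0 (.node [103] 5 2 (.far [4112,0,1,1,4112,0,257] 0 (.node [120,130,80] 6 7 (.node [130] 8 2 .stop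
 .stop)
 (.far [4112,0,1,1,4112,0,257] 0 (.node [32,130,120] 6 7 (.far [257,0,257,0,257,0,16,1] 0 (.node [112,130,96] 8 2 .stop
 (.node [112,130] 8 2 .stop
 (.conf [120,151] (.conf [112,130] (.conf [112,130] .stop))))))
 (.node [121,152,80,130] 6 7 (.lc 1 8 .stop)
 .stop)))))
 (.far [16,257,4096] 0 .stop)))
 (.node [82,117,135,96,82] 7 5 (.node [114] 0 8 (.node [135] 7 2 .stop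
 (.far [4112,0,4112,256] 0 (.lc 2 7 (.lc 2 7 .stop))))
 (.lc 3 9 (.conf [32,121,146] (.lc 3 9 (.lc 4 10 .stop)))))
 .stop)))
 (.lc 2 1 (.lc 1 2 (.asm [82,103] 0 (.lc 2 2 (.lc 2 2 (.lc 2 2 (.lc 2 2 (.lc 2 2 (.lc 3 7 (.lc 2 2 (.lc 2 2 (.lc 3 0 (.lc 3 8 (.lc 3 1 (.node [82,103,112] 0 5 (.node [80,103,112] 6 7 (.lc 0 7 (.lc 2 8 (.lc 0 8 (.lc 3 9 (.lc 0 8 (.lc 0 8 (.lc 3 9 (.lc 0 8 (.lc 3 9 (.lc 0 8 (.lc 0 8 (.lc 0 9 (.lc 4 10 (.lc 0 9 (.lc 0 9 (.lc 0 9 (.lc 0 9 (.lc 0 10 .stop))))))))))))))))))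
 .stop)
 (.lc 2 2 (.lc 2 2 (.node [82,96,117] 6 0 (.node [96,82,117] 7 5 (.lc 0 0 (.lc 1 2 (.lc 1 0 (.lc 1 0 (.lc 2 2 (.lc 1 0 (.lc 2 2 (.lc 1 0 (.lc 1 0 (.lc 1 0 (.lc 2 2 (.lc 2 0 (.lc 2 0 (.lc 3 2 (.lc 2 0 (.lc 2 0 (.lc 2 0 (.lc 3 0 .stop))))))))))))))))))
 .stop)
 (.lc 3 1 (.node [82,117,135] 6 8 (.node [96,135,82] 6 0 (.node [] 7 5 (.lc 1 2 (.node [82,121] 9 5 (.node [146] 8 7 (.node [121,138] 7 9 (.far [257,16,0,257,32,8224,8208,1,0,4112,16] 257 (.lc 2 2 (.lc 0 11 (.lc 2 2 (.lc 3 2 .stop)))))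
 (.conf [117,138] (.conf [121,128] (.conf [121,167] (.lc 1 2 (.node [117,128,146] 0 9 (.lc 1 0 .stop)
 (.conf [121,128] (.lc 2 2 (.lc 2 2 (.lc 2 2 .stop))))))))))
 (.lc 3 0 (.lc 3 10 (.far [16,16,257,257,256,257,16,4096] 0 (.lc 3 10 (.lc 4 11 .stop))))))
 (.lc 2 2 (.lc 2 2 (.lc 2 2 (.lc 3 10 (.lc 2 2 (.conf [82,149] (.lc 2 2 (.lc 2 2 (.lc 2 2 (.lc 2 2 (.lc 2 2 (.lc 3 10 (.lc 3 2 (.lc 3 2 (.lc 4 11 (.lc 3 2 (.lc 3 2 (.lc 3 2 (.lc 3 2 (.lc 4 2 .stop))))))))))))))))))))))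
 .stop)
 (.conf [24,97] (.node [32,98,135] 6 2 .stop
 (.node [105,135,82] 6 9 (.node [152] 7 5 (.node [82,112] 0 5 (.node [] 8 7 (.node [112,138] 9 8 (.node [154] 10 7 (.node [160] 9 10 (.lc 2 1 (.node [155,160] 1 9 (.node [] 11 10 .stop
 (.far [16,257,0,257,0,0,0,16,4096] 0 .stop))
 (.lc 3 1 (.conf [145,160,186] (.node [156,186,203,156,160] 11 10 .stop
 (.asm [145,160] 1 (.lc 2 0 .stop)))))))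
 (.lc 3 1 (.lc 3 11 .stop)))
 (.lc 3 11 (.lc 1 7 (.lc 3 11 (.lc 4 12 .stop)))))
 (.conf [112,138] (.conf [112,134] (.conf [112,167] (.conf [112,129] (.node [112,134,144] 9 0 (.lc 2 0 .stop)
 (.lc 0 10 (.lc 0 11 (.lc 0 10 (.lc 0 1 .stop))))))))))
 .stop)
 (.lc 1 2 (.node [82,121] 9 5 .stop
 (.node [82,122] 10 5 (.node [162] 8 7 (.node [122,128] 0 7 (.node [162] 8 0 .stop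
 (.lc 1 2 (.lc 1 2 .stop)))
 (.node [122,139] 9 8 (.node [155] 7 10 (.node [162] 11 10 (.node [162,176] 0 10 (.node [] 9 11 (.node [144] 1 9 (.far [8192,8192,0,8224,272,0,16,0,4112,0,0,16,1,0,4112,16] 257 .stop)
 (.far [8224,0,0,4112,8192,8208,0,4112,0,0,16,1,0,4112,16] 257 (.lc 3 1 (.far [4096,257,4096] 256 .stop))))
 .stop)
 (.lc 1 2 (.lc 2 7 (.node [162,188] 9 11 (.node [156] 12 10 (.node [] 9 12 (.node [194] 12 2 .stop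
 (.far [4112,0,4112,0,0,4112,0,0,0,1,256] 4097 .stop))
 (.node [192,162] 9 12 (.far [16,513,4096,4096] 256 .stop)
 (.far [16,0,16,16,0,0,257,4096] 17 (.far [1,0,1,1,0,0,4112,256] 0 (.far [1,0,1,1,0,0,4112,256] 0 (.node [205,208,162] 9 12 .stop
 .stop))))))
 (.conf [145,183,202] (.far [16,257,4096,4096,4096] 0 (.far [16,257,4096,4096,4096] 0 (.conf [145,183,202] .stop)))))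
 (.node [162,176] 9 11 (.node [144] 1 9 (.far [8192,8224,0,4112,8192,8208,0,4112,0,0,16,1,0,4112,16] 257 .stop)
 (.far [8224,0,4112,8192,8208,0,4112,0,0,16,1,0,4112,16] 257 (.lc 3 1 (.far [4096,4097,1,0,0,4112,256] 256 .stop))))
 (.conf [162,188,194] (.node [183,144,162] 9 0 (.far [32,8224,272,0,16,0,4112,0,0,16,1,0,4112,16] 257 .stop)
 (.conf [183,202,156] (.node [162,188,192,188] 0 10 (.far [16,16,16,0,0,257,4096] 0 .stop)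
 (.lc 2 2 (.node [162,176,202,162] 11 0 (.far [4112,4112,256,256,256] 0 .stop)
 (.node [162,202,220,162,189] 9 11 (.far [1,4112,256,256,256] 0 (.lc 3 1 (.lc 1 12 (.lc 1 12 (.lc 4 1 .stop)))))
 (.node [162,176] 9 11 (.far [16,257,4096,4096,4096] 0 (.far [256,257,4096,1,4096,0,0,16,4096] 0 (.lc 3 1 (.far [16,257,4096,4096,4096] 0 (.far [8224,0,4112,8192,8208,0,4112,0,0,16,1,0,4112,16] 257 .stop)))))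
 (.node [162,183,32] 9 2 .stop
 (.node [145,183,26] 1 10 .stop
 (.conf [162,188,192] (.far [4112,256,16,256,0,0,1,256] 4097 (.far [256,4112,4096,4096,257,4096] 17 .stop))))))))))))))))))
 (.lc 2 2 (.lc 2 2 (.lc 0 0 (.lc 0 12 (.lc 2 2 (.lc 2 2 (.lc 3 2 (.lc 3 2 (.lc 3 2 .stop))))))))))
 (.lc 3 0 (.lc 3 10 (.lc 3 12 (.lc 1 7 (.lc 1 7 (.lc 3 0 (.lc 3 12 (.lc 4 12 (.lc 4 0 (.lc 4 13 .stop)))))))))))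
 (.conf [117,128] (.conf [117,139] (.conf [122,134] (.conf [122,134] (.conf [139,176] (.conf [122,183] (.conf [122,183] (.lc 1 2 (.lc 1 2 (.node [117,134,154] 9 10 (.node [144,162] 9 0 (.far [257,257,1,0,0,16,4096] 0 .stop)
 (.lc 2 1 (.lc 1 2 (.node [155,162] 10 2 (.far [4112,1,257,4112,256] 0 (.far [4096,1,257,0,257,0,0,1,16,0,257,1] 4096 (.far [4112,1,257,4112,256] 0 (.far [4112,1,257,4112,256] 0 (.node [] 9 11 (.far [257,0,257,1,0,0,16,4096] 0 (.lc 2 0 (.far [257,0,257,1,0,0,16,4096] 0 .stop)))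
 (.node [188,192,162] 9 11 (.far [257,0,257,1,0,0,16,4096] 0 (.far [257,0,257,1,0,0,16,4096] 0 .stop))
 .stop))))))
 (.lc 2 2 (.lc 2 2 (.lc 3 1 (.lc 3 1 (.lc 3 1 (.node [155,162,176,155] 0 10 (.node [] 9 11 (.node [176] 1 11 .stop
 (.lc 2 0 .stop))
 .stop)
 (.lc 2 2 (.node [144,162,186,162] 9 0 (.node [] 11 10 (.node [178] 11 2 .stop
 (.lc 3 12 .stop))
 .stop)
 (.node [156,186,203,156,162] 11 10 (.node [178] 9 12 (.node [203] 11 2 (.node [176,203] 12 11 (.node [192] 1 12 (.far [8208,4112,0,16,0,4112,4112,0,4112,0,0,16,1,0,4112,16] 257 .stop)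
 (.lc 3 1 (.conf [205,208] .stop)))
 (.conf [178,192] (.conf [189,208] .stop)))
 (.lc 2 11 (.far [4112,1,4096,256,4112,256,1,256] 4097 (.lc 2 11 (.lc 2 11 (.lc 3 11 .stop))))))
 (.lc 3 0 (.node [176] 9 12 (.far [257,16,256,4096,257,4096,16,4096] 17 (.lc 2 11 (.lc 2 11 .stop)))
 (.lc 3 0 (.lc 3 13 (.lc 4 13 .stop))))))
 (.lc 2 2 (.lc 3 1 (.lc 3 2 (.lc 4 1 .stop)))))))))))))))))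
 (.lc 0 0 (.lc 0 11 (.lc 2 2 (.lc 2 2 (.lc 2 2 (.lc 0 11 (.lc 0 0 (.lc 0 12 (.lc 0 0 (.lc 0 11 (.lc 0 0 (.lc 0 11 (.lc 2 2 (.lc 2 2 (.lc 0 11 (.lc 0 0 (.lc 0 12 .stop)))))))))))))))))))))))))))))
 (.lc 3 0 (.lc 3 9 (.lc 3 11 (.far [16,16,257,257,256,257,16,4096] 17 (.far [16,16,257,257,256,257,16,4096] 0 (.lc 3 0 (.lc 3 11 (.lc 4 11 (.lc 4 12 .stop))))))))))
 (.lc 2 2 (.lc 2 2 (.lc 3 1 (.lc 3 9 (.lc 3 10 (.lc 2 2 (.lc 2 2 (.lc 2 2 (.lc 3 0 (.lc 3 9 (.lc 3 11 (.node [82,122,160,122,135] 0 5 (.far [16,16,257,257,256,257,16,4096] 0 .stop)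
 (.lc 2 2 (.lc 2 2 (.conf [82,165] (.conf [82,165] (.lc 2 2 (.lc 2 2 (.lc 2 2 (.lc 2 2 (.lc 2 2 (.lc 2 2 (.lc 3 10 (.lc 3 9 (.lc 2 2 (.lc 2 2 (.lc 3 0 (.lc 3 10 (.lc 3 0 (.lc 3 11 (.lc 3 2 (.lc 3 2 (.lc 4 9 (.lc 4 11 (.lc 3 2 (.lc 3 2 (.lc 4 11 (.lc 4 0 (.lc 4 12 (.lc 3 2 (.lc 3 2 (.lc 3 2 (.lc 3 2 (.lc 3 2 (.lc 3 2 (.lc 3 2 (.lc 3 2 (.lc 3 2 (.lc 4 2 (.lc 4 2 .stop))))))))))))))))))))))))))))))))))))))))))))))))))))))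
 (.lc 2 8 (.lc 2 8 (.node [152] 7 5 (.lc 1 2 (.node [82,121] 9 5 (.node [] 9 8 .stop
 .stop)
 (.node [82,122] 10 5 (.far [1,1,4112,4112,4096,4112,1,256] 4097 (.lc 3 0 (.lc 3 9 (.lc 3 11 (.node [32,171,178] 11 2 (.node [176] 8 7 (.node [122,140] 9 8 (.far [1,4112,0,0,0,32,8208,4112,1,0,4112,16] 257 (.lc 3 10 (.lc 3 13 (.lc 1 7 (.lc 3 13 (.lc 4 14 .stop))))))
 (.conf [117,140] (.conf [122,134] (.conf [122,199] (.lc 1 11 (.node [117,134,154] 9 10 (.lc 1 5 (.node [156,171] 10 11 (.far [4112,1,257,0,4112,256] 0 (.lc 0 13 .stop))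
 (.lc 2 5 (.lc 3 0 (.conf [171,202] (.lc 3 0 .stop))))))
 (.lc 0 12 (.lc 2 11 (.lc 0 13 (.lc 0 12 (.lc 0 12 (.lc 2 11 (.lc 0 13 .stop)))))))))))))
 (.lc 3 9 (.conf [152,185] (.lc 3 9 (.lc 3 12 (.lc 4 12 .stop))))))
 (.lc 3 11 (.lc 4 9 (.lc 4 12 .stop))))))))
 (.lc 2 2 (.lc 2 2 (.lc 2 2 (.lc 2 2 (.lc 3 9 (.lc 3 11 (.lc 2 2 (.conf [82,165] (.lc 2 2 (.lc 2 2 (.lc 2 2 (.lc 2 2 (.lc 2 2 (.lc 2 2 (.lc 3 9 (.lc 2 2 (.lc 3 10 (.lc 3 11 (.lc 3 2 (.lc 3 2 (.lc 3 2 (.lc 3 2 (.lc 4 12 (.lc 3 2 (.lc 3 2 (.lc 3 2 (.lc 3 2 (.lc 3 2 (.lc 3 2 (.lc 3 2 (.lc 3 2 (.lc 3 2 (.lc 4 2 (.lc 4 2 .stop)))))))))))))))))))))))))))))))))))))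
 (.node [26,152,169] 1 10 (.node [169] 10 9 (.node [152,162] 10 2 (.far [16,4112,4112,16,4112,4112,1,0,4112,16] 1 .stop)
 (.node [117,152,167,135] 10 7 .stop
 (.lc 1 6 (.node [152,171] 10 11 (.far [4112,4112,8208,16,4112,4112,1,0,4112,16] 257 (.lc 2 9 (.lc 2 9 (.lc 2 9 (.far [4112,4112,4096,256,0,0,0,256,0,4112] 1 (.far [4112,4112,8208,16,4112,4112,1,0,4112,16] 257 (.lc 2 9 (.lc 2 9 (.lc 3 9 (.lc 3 9 .stop))))))))))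
 (.conf [171,178] (.conf [89,152] (.conf [171,183] (.conf [172,203] (.lc 3 0 (.lc 3 0 (.lc 2 6 (.conf [152,185] (.lc 1 9 (.node [152,162,185,135,117] 10 2 (.node [] 9 8 (.far [257,257,257,16,16,4096] 0 (.lc 2 6 (.lc 0 12 (.lc 1 5 (.lc 2 5 .stop)))))
 .stop)
 (.node [117,123,167,185,135] 10 7 .stop
 (.node [152,172,185,135,117] 9 8 (.node [135] 11 8 (.far [1,1,0,8224,32,8208,4112,1,0,4112,16] 257 (.lc 1 5 (.lc 1 5 (.lc 3 8 (.lc 2 5 .stop)))))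
 (.lc 2 6 (.lc 0 13 (.lc 1 5 (.lc 2 5 .stop)))))
 (.lc 3 0 (.lc 3 0 (.lc 3 0 (.lc 3 0 (.lc 3 0 (.lc 2 6 (.lc 3 0 (.lc 1 2 (.conf [173,220] (.lc 3 6 (.lc 4 0 (.lc 4 0 (.lc 4 0 (.lc 4 0 (.lc 4 0 (.lc 4 0 (.lc 4 0 (.lc 2 9 (.lc 4 0 (.lc 4 0 (.lc 4 0 (.lc 4 0 (.lc 4 0 (.lc 2 2 (.lc 5 0 (.lc 5 0 .stop))))))))))))))))))))))))))))))))))))))))))
 (.lc 2 9 (.lc 2 9 (.conf [169,186] (.lc 2 9 (.lc 3 9 .stop))))))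
 (.lc 2 8 (.lc 2 8 (.lc 3 8 (.lc 3 8 .stop)))))))))
 (.lc 2 7 (.lc 2 7 (.lc 2 7 (.lc 2 7 (.lc 2 7 (.lc 2 7 (.lc 2 7 (.lc 3 1 (.lc 3 1 (.conf [16,97] (.conf [105,144] (.node [40,96,135] 5 2 .stop
 (.node [96,135,152,82,135,117] 6 0 (.node [] 7 5 (.lc 1 2 (.lc 0 8 (.node [82,122] 10 5 (.far [1,1,4112,4112,4096,4112,1,256] 0 (.lc 0 8 (.lc 3 11 (.node [32,171,178] 11 2 (.lc 3 9 .stop)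
 (.lc 3 11 (.lc 4 12 .stop))))))
 (.lc 2 2 (.lc 2 2 (.lc 2 2 (.lc 3 9 (.lc 3 11 (.lc 2 2 (.conf [82,165] (.lc 2 2 (.lc 2 2 (.lc 2 2 (.lc 2 2 (.lc 2 2 (.lc 3 10 (.lc 3 11 (.lc 3 2 (.lc 3 2 (.lc 4 12 (.lc 3 2 (.lc 3 2 (.lc 3 2 (.lc 3 2 (.lc 3 2 (.lc 3 2 (.lc 4 2 .stop)))))))))))))))))))))))))))
 .stop)
 (.conf [25,97] (.conf [106,169] (.lc 2 7 (.lc 2 7 (.lc 2 7 (.lc 2 7 (.lc 2 7 (.lc 2 7 (.lc 2 7 (.lc 3 1 (.lc 3 1 (.lc 3 1 (.lc 3 1 (.lc 3 7 (.lc 3 7 (.lc 3 7 (.lc 3 7 (.lc 3 7 (.lc 3 7 (.lc 3 7 (.lc 3 7 (.lc 4 1 (.lc 4 1 (.lc 4 1 (.lc 4 1 (.lc 4 1 (.lc 4 1 (.lc 4 1 (.lc 4 1 (.lc 5 1 (.lc 5 1 .stop))))))))))))))))))))))))))))))))))))))))))))))))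
 (.lc 2 2 (.lc 2 2 (.lc 2 2 (.lc 2 2 (.lc 2 2 (.lc 2 2 (.lc 2 2 (.lc 2 2 (.lc 3 7 (.lc 2 2 (.lc 2 2 (.lc 3 0 (.lc 3 8 (.lc 3 2 (.lc 3 2 (.lc 3 2 (.lc 3 2 (.lc 3 2 (.lc 3 2 (.lc 4 8 (.lc 3 2 (.lc 3 2 (.lc 4 8 (.lc 4 0 (.lc 4 9 (.lc 3 2 (.lc 3 2 (.lc 3 2 (.lc 3 2 (.lc 3 2 (.lc 3 2 (.lc 3 2 (.lc 3 2 (.lc 3 2 (.lc 3 2 (.lc 3 2 (.lc 3 2 (.lc 4 2 (.lc 4 2 (.lc 4 2 (.lc 4 2 (.lc 4 2 .stop)))))))))))))))))))))))))))))))))))))))))))))))))))))))))))))))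
 (.node [80,101] 6 5 (.lc 0 5 (.lc 1 0 (.lc 1 1 (.node [103,112] 6 7 (.lc 0 7 (.lc 2 8 (.lc 0 8 (.lc 3 9 (.lc 0 8 (.lc 0 8 (.lc 3 9 (.lc 0 8 (.lc 3 9 (.lc 0 8 (.lc 0 8 (.lc 0 9 (.lc 4 10 (.lc 0 9 (.lc 0 9 (.lc 0 9 (.lc 0 9 (.lc 0 10 .stop))))))))))))))))))
 (.lc 2 0 (.lc 0 7 (.lc 2 0 (.lc 3 1 (.node [103,112] 6 7 (.lc 0 7 (.lc 2 8 (.lc 0 8 (.lc 3 9 (.lc 0 8 (.lc 0 8 (.lc 3 9 (.lc 0 8 (.lc 3 9 (.lc 0 8 (.lc 0 8 (.lc 0 9 (.lc 4 10 (.lc 0 9 (.lc 0 9 (.lc 0 9 (.lc 0 9 (.lc 0 10 .stop))))))))))))))))))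
 (.lc 3 7 (.lc 2 0 (.node [104,135,112] 6 8 (.lc 0 8 (.lc 2 9 (.lc 0 9 (.lc 3 10 (.lc 0 9 (.lc 0 9 (.lc 3 10 (.lc 0 9 (.lc 3 10 (.lc 0 9 (.lc 0 9 (.lc 0 10 (.lc 4 11 (.lc 0 10 (.lc 0 10 (.lc 0 10 (.lc 0 10 (.lc 0 11 .stop))))))))))))))))))
 (.lc 3 0 (.lc 4 8 (.lc 4 8 (.lc 4 8 (.lc 5 9 .stop)))))))))))))))))
 (.node [87,114,101] 6 5 (.lc 1 7 (.lc 0 5 (.lc 1 7 (.node [96,114] 6 0 (.node [] 7 2 (.far [4112,0,1,4112,0,257] 0 (.node [32,120,130] 8 2 .stop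
 (.lc 3 9 (.node [32,121,130,152,130] 8 2 .stop
 (.lc 3 9 (.lc 4 10 .stop))))))
 .stop)
 (.lc 0 7 (.node [104,135,114] 6 8 (.lc 2 0 (.lc 0 8 (.lc 2 9 (.lc 0 0 (.lc 3 9 (.lc 1 8 (.lc 3 0 (.lc 0 9 (.lc 3 10 (.lc 3 1 (.lc 0 9 (.lc 0 0 (.lc 3 9 (.lc 3 0 (.lc 0 9 (.lc 3 10 (.lc 2 7 (.lc 3 9 (.lc 3 0 (.lc 0 9 (.lc 3 10 (.lc 3 1 (.lc 0 9 (.lc 0 0 (.lc 0 9 (.lc 4 10 (.lc 0 0 (.lc 4 10 (.lc 4 0 (.lc 0 10 (.lc 4 11 (.lc 0 0 (.lc 0 10 (.lc 0 0 (.lc 0 10 (.lc 0 0 (.lc 0 10 (.lc 4 1 (.lc 0 10 (.lc 0 0 (.lc 0 11 .stop)))))))))))))))))))))))))))))))))))))))))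
 (.lc 2 7 (.lc 2 7 (.lc 2 7 (.lc 0 0 (.lc 2 7 (.lc 2 7 (.lc 0 8 (.lc 2 7 (.lc 1 2 (.lc 0 7 (.lc 1 2 (.lc 3 0 (.lc 3 8 (.lc 2 7 (.lc 2 7 (.lc 2 7 (.lc 0 0 (.lc 2 2 (.lc 2 2 (.lc 0 8 (.lc 2 2 (.lc 3 7 (.lc 3 7 (.lc 3 7 (.lc 3 7 (.lc 4 8 (.lc 4 0 (.lc 4 9 (.lc 4 8 (.lc 4 0 (.lc 4 9 (.lc 4 8 (.lc 4 0 (.lc 4 9 (.lc 5 9 (.lc 5 9 (.lc 5 0 (.lc 5 10 .stop))))))))))))))))))))))))))))))))))))))))))))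
 (.far [16,257,256,4096] 17 (.far [16,257,256,4096] 0 (.far [1,4112,4096,256] 0 (.far [1,4112,4096,256] 0 (.node [87,112,101] 6 5 (.lc 0 5 (.lc 1 7 (.lc 0 7 (.lc 1 0 (.lc 2 7 (.lc 0 8 (.lc 2 7 (.lc 0 7 (.node [104,112] 8 7 (.conf [1,128] (.lc 0 6 (.lc 0 6 (.lc 0 6 (.conf [1,144] (.lc 1 6 .stop))))))
 (.lc 3 8 (.lc 2 7 (.lc 0 8 (.node [105,112,135] 8 7 (.conf [1,128] (.lc 0 6 (.lc 0 6 (.lc 0 6 (.lc 3 10 (.lc 1 6 .stop))))))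
 (.lc 3 7 (.lc 4 9 (.lc 4 9 (.lc 4 9 (.lc 5 10 .stop))))))))))))))))))
 (.node [88,135,101,114] 6 5 (.lc 1 8 (.lc 0 5 (.lc 1 8 (.lc 1 7 (.lc 0 8 (.lc 1 7 (.lc 2 8 (.lc 2 8 (.lc 2 8 (.lc 0 0 (.lc 2 8 (.lc 2 8 (.lc 0 9 (.lc 2 8 (.node [96,135] 0 8 (.conf [7,114] (.lc 1 2 .stop))
 (.lc 0 8 (.node [105,135] 8 7 (.far [4112,1,4112,0,257] 0 (.lc 2 2 (.lc 1 6 (.lc 2 2 (.far [4112,1,4112,0,257] 0 (.far [4112,1,4112,0,257] 0 (.lc 2 2 (.lc 2 2 (.lc 1 6 (.lc 3 2 (.lc 3 2 (.lc 3 2 .stop))))))))))))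
 (.lc 3 0 (.lc 3 9 (.lc 2 8 (.lc 2 8 (.lc 2 8 (.lc 0 0 (.node [105,135,144] 0 8 .stop
 (.node [96,135,152] 6 0 (.node [] 9 8 (.node [114] 9 7 (.lc 1 2 (.lc 1 0 (.lc 2 2 (.far [4096,1,0,1,4112,0,257] 0 .stop))))
 (.lc 1 2 (.lc 1 2 (.lc 3 10 (.lc 2 2 .stop)))))
 .stop)
 (.lc 0 9 (.node [106,135,152] 9 8 (.node [114] 6 10 (.lc 2 0 (.lc 0 10 (.lc 2 11 (.lc 0 0 (.lc 3 11 (.lc 1 10 (.lc 3 0 (.lc 0 11 (.lc 3 12 (.lc 3 1 (.lc 0 11 (.lc 0 0 (.lc 3 11 (.lc 3 0 (.lc 0 11 (.lc 3 12 (.lc 2 9 (.lc 3 11 (.lc 3 0 (.lc 0 11 (.lc 3 12 (.lc 3 1 (.lc 0 11 (.lc 0 0 (.lc 0 11 (.lc 4 12 (.lc 0 0 (.lc 4 12 (.lc 4 0 (.lc 0 12 (.lc 4 13 (.lc 0 0 (.lc 0 12 (.lc 0 0 (.lc 0 12 (.lc 0 0 (.lc 0 12 (.lc 4 1 (.lc 0 12 (.lc 0 0 (.lc 0 13 .stop)))))))))))))))))))))))))))))))))))))))))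
 (.lc 1 2 (.lc 0 6 (.lc 1 2 (.lc 1 2 (.lc 1 2 (.lc 3 0 (.lc 3 11 (.lc 0 6 (.lc 2 2 (.lc 2 2 (.lc 2 2 .stop))))))))))))
 (.lc 3 8 (.lc 3 8 (.lc 3 8 (.lc 3 8 (.lc 4 9 (.lc 4 0 (.lc 4 10 (.lc 4 9 (.lc 4 0 (.lc 4 10 (.lc 4 9 (.lc 4 0 (.lc 4 10 (.lc 5 10 (.lc 5 10 (.lc 5 0 (.lc 5 11 .stop))))))))))))))))))))))))))))))))))))))))))))
 .stop)))))))))
 (.lc 0 0 (.node [101,118] 5 3 (.node [82] 6 5 (.lc 2 0 (.lc 0 0 (.lc 2 8 (.lc 2 2 (.lc 2 2 (.lc 2 2 (.node [82,112] 0 5 (.node [] 1 7 (.far [16,0,257,0,16,1] 0 (.node [24,112,135] 1 8 .stop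
 (.lc 2 0 (.node [25,112,135,152,135] 1 9 .stop
 (.lc 2 0 (.lc 3 0 .stop))))))
 .stop)
 (.lc 1 0 (.node [82,133,120] 8 5 (.lc 1 2 (.lc 0 0 (.lc 1 2 (.lc 2 2 (.lc 1 0 (.lc 0 7 (.lc 2 2 (.lc 1 0 (.lc 1 0 (.lc 2 2 (.lc 2 2 (.lc 2 2 (.lc 1 0 (.lc 1 0 (.lc 2 2 (.lc 2 2 (.lc 1 0 (.lc 1 0 (.lc 2 2 (.lc 1 0 (.lc 2 2 (.lc 3 0 (.lc 1 0 (.lc 2 2 (.lc 2 2 (.lc 2 0 (.lc 2 0 (.lc 3 2 (.lc 2 0 (.lc 2 0 (.lc 3 2 (.lc 3 2 (.lc 3 2 (.lc 3 2 (.lc 2 0 (.lc 2 0 (.lc 2 0 (.lc 2 0 (.lc 2 0 (.lc 3 0 (.lc 3 0 .stop)))))))))))))))))))))))))))))))))))))))))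
 (.lc 3 8 (.lc 1 0 (.lc 1 0 (.lc 3 0 (.lc 3 9 (.lc 2 2 (.lc 2 2 (.lc 2 2 (.lc 2 2 (.lc 2 2 (.lc 0 0 (.lc 1 0 (.lc 0 8 (.lc 3 2 (.lc 3 2 (.lc 3 2 (.lc 3 2 (.lc 0 8 (.lc 2 0 (.lc 2 0 (.lc 0 0 (.lc 0 9 (.lc 3 2 (.lc 3 2 (.lc 3 2 (.lc 3 2 (.lc 3 2 (.lc 3 2 (.lc 3 2 (.lc 3 2 (.lc 3 2 (.lc 4 2 (.lc 4 2 (.lc 4 2 (.lc 4 2 .stop))))))))))))))))))))))))))))))))))))))))))))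
 (.node [80] 6 5 (.lc 1 0 (.lc 3 8 (.lc 2 0 (.lc 2 0 (.lc 3 8 (.node [112] 1 7 (.far [16,1,0,16,1] 0 (.node [24,112,135] 1 8 (.node [] 7 0 (.lc 0 0 .stop)
 (.lc 2 7 .stop))
 (.lc 2 0 (.node [25,112,135,152,135] 1 9 (.far [4112,4112,0,257,16,4096] 256 (.lc 2 8 .stop))
 (.lc 2 0 (.lc 3 0 .stop))))))
 (.lc 2 0 (.lc 4 9 (.lc 3 0 (.lc 0 8 (.lc 0 8 (.far [256,256,256,0,4096] 0 (.lc 0 9 .stop)))))))))))))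
 (.node [87,114,118] 7 6 (.lc 1 5 (.lc 1 5 (.lc 2 5 (.lc 2 5 (.lc 2 5 .stop)))))
 (.node [88,130] 6 5 (.lc 1 8 (.lc 1 8 (.lc 3 0 (.lc 3 9 (.lc 2 8 (.lc 2 8 (.lc 2 8 (.lc 2 8 (.lc 2 8 (.lc 3 0 (.lc 3 9 (.node [120] 7 8 (.node [112,130] 7 0 (.far [257,257,1,0,16,1] 0 (.lc 2 9 (.lc 3 10 .stop)))
 (.conf [24,113] (.conf [32,130] (.node [121,130,152] 8 2 (.lc 2 0 (.conf [32,146] (.lc 2 10 (.lc 2 0 (.lc 2 0 (.lc 3 2 (.lc 3 2 (.lc 0 0 (.lc 3 10 (.lc 0 10 (.lc 3 11 (.lc 2 0 (.lc 2 0 (.lc 2 0 (.lc 3 2 (.lc 3 2 (.lc 3 0 (.lc 3 0 (.lc 4 2 (.lc 4 2 (.lc 3 0 (.lc 3 0 (.lc 3 0 (.lc 4 0 .stop))))))))))))))))))))))))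
 (.lc 0 0 (.lc 2 2 (.lc 2 2 (.lc 2 2 (.lc 3 9 (.lc 1 0 (.lc 3 0 (.lc 3 10 (.lc 0 0 (.node [121,130,144] 0 8 (.node [] 1 7 (.node [144] 1 9 .stop
 (.lc 1 9 (.lc 2 1 (.conf [26,144,169] (.lc 2 9 (.lc 2 1 (.lc 3 1 .stop)))))))
 .stop)
 (.lc 1 0 (.node [112,130,152] 7 0 (.node [] 8 2 (.node [146] 9 2 .stop
 (.lc 2 10 (.lc 3 2 (.conf [32,154,162] (.lc 3 11 (.lc 3 2 (.lc 4 2 .stop)))))))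
 .stop)
 (.node [122,130,152,169] 8 2 (.lc 2 0 (.node [146,169] 9 2 (.node [144] 10 9 (.far [1,4096,4112,1,257,16,0,257,1] 4096 (.lc 3 1 (.lc 3 11 (.conf [171,176] (.lc 3 11 (.lc 4 12 .stop))))))
 (.lc 3 2 (.conf [155,176] (.lc 3 2 (.lc 4 2 .stop)))))
 (.lc 2 11 (.lc 2 0 (.lc 2 0 (.lc 3 2 (.lc 3 2 (.node [144,169] 10 9 (.conf [1,160] (.lc 3 1 (.lc 3 11 .stop)))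
 (.lc 3 11 (.conf [32,155,178] (.lc 3 12 (.lc 2 0 (.lc 2 0 (.lc 2 0 (.lc 3 2 (.lc 3 2 (.lc 3 0 (.lc 3 0 (.lc 4 2 (.lc 4 2 (.lc 3 0 (.lc 3 0 (.lc 3 0 (.lc 4 0 .stop))))))))))))))))))))))))
 (.lc 2 2 (.lc 2 2 (.lc 2 2 (.lc 2 2 (.lc 2 2 (.lc 3 9 (.lc 3 0 (.lc 3 10 (.lc 3 9 (.lc 3 0 (.lc 3 9 (.lc 3 0 (.lc 3 10 (.lc 3 2 (.lc 0 0 (.lc 3 2 (.lc 3 2 (.lc 3 2 (.lc 4 10 (.lc 2 0 (.lc 4 10 (.lc 4 0 (.lc 4 11 (.lc 4 10 (.lc 4 10 (.lc 4 0 (.lc 4 11 (.lc 4 10 (.lc 4 10 (.lc 4 0 (.lc 4 11 (.lc 4 10 (.lc 4 10 (.lc 4 0 (.lc 4 11 (.lc 5 11 (.lc 5 11 (.lc 5 11 (.lc 5 0 (.lc 5 12 .stop)))))))))))))))))))))))))))))))))))))))))))))))))))))))))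
 (.lc 2 8 (.lc 2 8 (.lc 4 9 (.lc 4 0 (.lc 4 10 (.lc 3 8 (.lc 3 8 (.lc 3 8 (.lc 0 0 (.lc 0 9 (.lc 0 0 (.lc 0 9 (.lc 2 2 (.lc 2 2 (.lc 0 9 (.lc 0 0 (.lc 0 10 .stop)))))))))))))))))))))))))))))
 (.node [80] 6 5 (.lc 1 0 (.lc 2 8 (.lc 2 0 (.node [80,133,120] 8 5 (.conf [1,128] (.lc 1 0 (.lc 2 0 (.lc 0 7 (.lc 2 0 (.lc 2 0 (.lc 0 7 (.lc 0 7 (.lc 2 0 (.lc 3 9 (.lc 2 0 (.lc 3 0 (.lc 3 0 (.lc 1 7 .stop))))))))))))))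
 (.lc 3 9 (.lc 2 0 (.lc 2 0 (.lc 2 0 (.lc 0 8 (.lc 3 0 (.lc 0 9 (.lc 3 0 (.lc 3 0 (.lc 3 0 (.lc 4 0 .stop)))))))))))))))
 (.lc 0 6 (.node [88,130] 6 5 (.lc 2 0 (.lc 1 3 (.lc 2 9 (.lc 2 8 (.lc 2 8 (.lc 2 8 (.node [88,112] 0 5 .stop
 (.lc 2 3 (.node [88,149,121] 5 8 (.lc 2 0 (.node [130] 7 9 (.lc 2 0 (.lc 0 9 (.lc 2 10 (.lc 3 0 (.lc 3 10 (.lc 3 10 (.lc 3 0 (.lc 3 11 (.lc 0 0 (.lc 3 10 (.lc 3 0 (.lc 3 11 (.lc 0 0 (.lc 3 0 (.lc 3 10 (.lc 3 10 (.lc 1 9 (.lc 3 0 (.lc 3 11 (.lc 1 0 (.lc 4 11 (.lc 4 11 (.lc 4 0 (.lc 4 12 (.lc 4 10 (.lc 4 0 (.lc 4 11 (.lc 4 0 (.lc 1 0 (.lc 1 0 (.lc 2 0 .stop)))))))))))))))))))))))))))))))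
 (.lc 2 10 (.lc 2 2 (.lc 3 10 (.lc 3 0 (.lc 2 2 (.lc 3 11 (.lc 3 3 (.lc 3 3 (.lc 0 0 (.lc 3 10 (.lc 3 0 (.lc 0 10 (.lc 3 11 (.lc 0 7 (.lc 2 2 (.lc 3 10 (.lc 3 0 (.lc 2 2 (.lc 3 11 (.lc 3 3 (.lc 3 3 (.lc 3 3 (.lc 3 3 (.lc 3 2 (.lc 4 11 (.lc 3 2 (.lc 4 11 (.lc 4 0 (.lc 3 2 (.lc 4 12 (.lc 4 3 (.lc 4 3 (.lc 4 3 (.lc 4 3 (.lc 4 3 (.lc 4 3 (.lc 1 7 (.lc 4 3 (.lc 4 3 (.lc 4 3 (.lc 4 3 (.lc 4 3 (.lc 4 3 (.lc 5 3 (.lc 5 3 (.lc 5 3 (.lc 5 3 .stop)))))))))))))))))))))))))))))))))))))))))))))))))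
 (.lc 3 9 (.lc 2 3 (.lc 2 3 (.lc 3 0 (.lc 3 10 (.lc 2 8 (.lc 2 8 (.lc 2 8 (.lc 2 8 (.lc 2 8 (.lc 0 0 (.lc 2 3 (.lc 0 9 (.lc 3 8 (.lc 3 8 (.lc 3 8 (.lc 3 8 (.lc 0 9 (.lc 3 3 (.lc 3 3 (.lc 0 0 (.lc 0 10 (.lc 3 8 (.lc 3 8 (.lc 3 8 (.lc 3 8 (.lc 3 8 (.lc 3 8 (.lc 3 8 (.lc 3 8 (.lc 3 8 (.lc 4 8 (.lc 4 8 (.lc 4 8 (.lc 4 8 .stop))))))))))))))))))))))))))))))))))))))))))))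
 (.node [80] 6 5 (.lc 1 0 (.lc 3 8 (.lc 2 0 (.lc 2 0 (.far [4096,4096,4096,0,256] 17 (.lc 2 0 (.lc 3 0 (.lc 0 8 .stop))))))))
 (.lc 0 6 (.node [88,130] 6 5 (.lc 1 8 (.lc 1 8 (.lc 3 0 (.lc 3 9 (.lc 2 8 (.lc 2 8 (.lc 2 8 (.lc 2 8 (.lc 2 8 (.lc 3 0 (.lc 3 9 (.lc 1 2 (.lc 2 8 (.lc 2 8 (.lc 4 9 (.lc 4 0 (.lc 4 10 (.lc 3 8 (.lc 3 8 (.lc 3 8 (.lc 0 0 (.lc 0 9 (.lc 0 0 (.lc 0 9 (.node [112,130] 0 8 (.node [] 1 7 (.far [16,0,257,0,16,1] 0 (.node [25,112,151] 1 9 .stop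
 (.lc 2 0 (.node [26,112,151,169,151] 1 10 .stop
 (.lc 2 0 (.lc 3 0 .stop))))))
 .stop)
 (.node [121,152,121] 9 8 (.lc 0 0 (.lc 1 0 (.lc 1 0 (.lc 1 0 (.lc 1 0 (.lc 3 0 (.lc 1 0 (.lc 2 0 (.lc 2 0 .stop)))))))))
 (.lc 0 9 (.lc 0 0 (.lc 0 10 .stop)))))))))))))))))))))))))))))
 (.lc 0 6 (.node [88,128] 6 5 (.lc 1 8 (.lc 3 9 (.lc 2 8 (.lc 2 8 (.lc 3 9 (.lc 1 0 (.lc 2 8 (.lc 4 10 (.lc 3 8 (.lc 0 9 (.lc 0 9 (.node [121,152,121] 9 8 (.conf [1,144] (.lc 0 7 (.lc 3 10 .stop)))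
 (.lc 0 10 .stop)))))))))))))
 (.lc 1 6 (.lc 0 6 (.node [89,152,130] 6 5 (.lc 1 9 (.lc 1 9 (.lc 3 0 (.lc 3 10 (.lc 2 9 (.lc 2 9 (.lc 2 9 (.lc 2 9 (.lc 2 9 (.lc 3 0 (.lc 3 10 (.lc 1 8 (.lc 2 9 (.lc 2 9 (.lc 4 10 (.lc 4 0 (.lc 4 11 (.lc 3 9 (.lc 3 9 (.lc 3 9 (.lc 0 0 (.lc 0 10 (.lc 0 0 (.lc 0 10 (.node [112,152] 0 9 .stop
 (.node [122,169,122] 10 9 (.node [130] 7 10 (.lc 2 0 (.lc 0 10 (.lc 2 11 (.lc 3 0 (.lc 3 11 (.lc 3 11 (.lc 3 0 (.lc 3 12 (.lc 0 0 (.lc 3 11 (.lc 3 0 (.lc 3 12 (.lc 0 0 (.lc 3 0 (.lc 3 11 (.lc 3 11 (.lc 1 10 (.lc 3 0 (.lc 3 12 (.lc 1 0 (.lc 4 12 (.lc 4 12 (.lc 4 0 (.lc 4 13 (.lc 4 11 (.lc 4 0 (.lc 4 12 (.lc 4 0 (.lc 1 0 (.lc 1 0 (.lc 2 0 .stop)))))))))))))))))))))))))))))))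
 (.lc 1 2 (.lc 1 2 (.lc 1 2 (.lc 1 2 (.lc 3 0 (.lc 3 11 (.lc 2 2 (.lc 2 2 (.lc 2 2 .stop))))))))))
 (.lc 0 10 (.lc 0 0 (.lc 0 11 .stop)))))))))))))))))))))))))))))
 .stop)))))))))))))))
 (.lc 0 0 (.node [101,118,101] 5 3 (.far [1,4112,4096,256] 0 (.node [80] 6 5 (.lc 1 0 (.lc 1 0 (.lc 3 4 (.node [104,128] 7 6 (.node [120] 7 8 (.lc 2 9 (.lc 1 1 (.lc 0 9 (.lc 3 10 (.far [256,0,1,0,16,1] 0 .stop)))))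
 (.lc 1 8 (.lc 2 4 (.lc 3 9 (.lc 2 8 (.lc 1 0 (.lc 2 8 (.lc 2 4 (.lc 2 4 (.lc 3 9 (.lc 2 8 (.lc 3 4 (.lc 4 10 (.lc 3 8 (.lc 3 4 (.lc 3 4 (.lc 3 4 (.lc 4 4 .stop))))))))))))))))))
 (.lc 2 0 (.lc 2 0 (.lc 2 0 (.lc 3 4 (.node [104,128] 7 6 (.far [16,257,0,16,1] 0 (.lc 1 8 (.lc 2 4 (.lc 3 9 (.lc 2 8 (.far [16,257,0,16,1] 0 (.lc 2 8 (.lc 2 4 (.lc 2 4 (.lc 3 9 (.lc 2 8 (.lc 3 4 (.lc 4 10 (.lc 3 8 (.lc 3 4 (.lc 3 4 (.lc 3 4 (.lc 4 4 .stop))))))))))))))))))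
 (.lc 3 8 (.lc 2 0 (.lc 4 4 (.node [105,152,128] 7 6 (.far [16,256,256,256,0,4096] 0 (.lc 1 9 (.lc 2 4 (.lc 3 10 (.lc 2 9 (.lc 1 8 (.lc 2 9 (.lc 2 4 (.lc 2 4 (.lc 3 10 (.lc 2 9 (.lc 3 4 (.lc 4 11 (.lc 3 9 (.lc 3 4 (.lc 3 4 (.lc 3 4 (.lc 4 4 .stop))))))))))))))))))
 (.lc 3 0 (.lc 4 9 (.lc 4 9 (.lc 4 9 (.lc 5 10 .stop))))))))))))))))))
 (.lc 0 6 (.node [88,130] 6 5 (.lc 1 8 (.lc 1 8 (.lc 1 8 (.node [96,130] 6 0 .stop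
 (.lc 3 4 (.node [105,152,130] 7 6 (.lc 1 9 (.node [121] 9 8 (.lc 1 2 (.lc 0 0 (.lc 1 2 (.lc 2 2 (.lc 2 2 (.lc 2 2 (.lc 0 0 (.lc 0 10 (.lc 2 2 (.lc 1 0 (.lc 2 2 (.lc 2 2 (.lc 0 7 (.lc 2 2 (.lc 2 2 (.lc 2 2 (.lc 0 0 (.lc 0 10 (.lc 1 8 (.lc 3 2 (.lc 3 2 (.lc 3 2 (.lc 3 2 (.lc 1 0 (.lc 1 0 (.lc 3 2 (.lc 1 10 (.lc 0 10 (.lc 0 0 (.lc 0 11 (.lc 1 0 .stop)))))))))))))))))))))))))))))))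
 (.lc 1 9 (.lc 2 4 (.lc 2 4 (.lc 2 9 (.lc 3 0 (.lc 3 10 (.lc 2 9 (.lc 2 9 (.lc 2 9 (.lc 1 8 (.lc 1 8 (.lc 2 9 (.lc 2 9 (.lc 2 4 (.lc 2 4 (.lc 2 4 (.lc 2 4 (.lc 2 9 (.lc 1 6 (.lc 3 0 (.lc 3 10 (.lc 2 9 (.lc 2 9 (.lc 3 4 (.lc 3 4 (.lc 3 4 (.lc 3 9 (.lc 4 10 (.lc 4 0 (.lc 4 11 (.lc 3 9 (.lc 3 9 (.lc 3 9 (.lc 3 4 (.lc 3 4 (.lc 3 4 (.lc 3 4 (.lc 1 9 (.lc 3 4 (.lc 3 4 (.lc 3 4 (.lc 3 4 (.lc 3 4 (.lc 4 4 (.lc 4 4 (.lc 4 4 (.lc 4 4 .stop)))))))))))))))))))))))))))))))))))))))))))))))))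
 (.lc 2 8 (.lc 2 8 (.lc 2 8 (.lc 2 8 (.lc 2 8 (.lc 2 8 (.lc 2 8 (.lc 2 8 (.lc 1 2 (.lc 3 4 (.lc 1 2 (.lc 3 0 (.lc 3 9 (.lc 2 8 (.lc 2 8 (.lc 2 8 (.lc 4 4 (.lc 2 2 (.lc 2 2 (.lc 4 4 (.lc 2 2 (.lc 3 8 (.lc 3 8 (.lc 3 8 (.lc 3 8 (.lc 4 9 (.lc 4 0 (.lc 4 10 (.lc 4 9 (.lc 4 0 (.lc 4 10 (.lc 4 9 (.lc 4 0 (.lc 4 10 (.lc 5 10 (.lc 5 10 (.lc 5 0 (.lc 5 11 .stop))))))))))))))))))))))))))))))))))))))))))))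
 (.node [80] 6 5 (.lc 1 0 (.lc 2 4 (.node [80,104] 7 6 (.far [16,257,0,16,1] 0 (.lc 1 8 (.lc 2 4 (.lc 3 9 (.lc 2 8 (.far [16,257,0,16,1] 0 (.lc 2 8 (.lc 2 4 (.lc 2 4 (.lc 3 9 (.lc 2 8 (.lc 3 4 (.lc 4 10 (.lc 3 8 (.lc 3 4 (.lc 3 4 (.lc 3 4 (.lc 4 4 .stop))))))))))))))))))
 (.lc 2 0 (.lc 2 0 (.lc 3 9 (.lc 3 4 (.node [80,105,133] 7 6 (.node [121] 7 9 (.lc 2 10 (.lc 3 10 (.lc 0 10 (.lc 3 11 (.lc 3 10 (.lc 0 8 (.lc 0 0 (.lc 4 11 (.lc 0 0 (.lc 0 10 .stop))))))))))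
 (.lc 1 9 (.lc 2 4 (.lc 3 10 (.lc 2 9 (.lc 1 8 (.lc 2 9 (.lc 2 4 (.lc 2 4 (.lc 3 10 (.lc 2 9 (.lc 3 4 (.lc 4 11 (.lc 3 9 (.lc 3 4 (.lc 3 4 (.lc 3 4 (.lc 4 4 .stop))))))))))))))))))
 (.lc 2 0 (.lc 2 0 (.lc 2 0 (.lc 2 0 (.lc 3 9 (.lc 3 0 (.lc 3 0 (.lc 4 10 (.lc 3 0 (.lc 3 0 (.lc 3 0 (.lc 4 0 .stop))))))))))))))))))))
 (.node [88,130] 6 5 (.node [88,96] 0 5 (.lc 1 8 (.conf [8,130] (.lc 1 8 (.lc 2 0 (.lc 1 2 (.lc 2 8 (.lc 2 0 (.lc 2 0 (.lc 3 0 .stop)))))))))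
 (.lc 2 4 (.lc 1 3 (.node [88,105] 7 6 (.lc 1 9 (.lc 1 9 (.far [16,257,0,16,1] 0 (.lc 1 9 (.lc 2 4 (.lc 2 4 (.lc 2 9 (.lc 2 9 (.lc 0 0 (.lc 3 0 (.lc 3 8 (.lc 3 10 (.lc 2 9 (.lc 2 9 (.lc 2 9 (.lc 2 9 (.far [16,257,0,16,1] 0 (.far [16,257,0,16,1] 0 (.lc 2 9 (.lc 2 9 (.lc 2 4 (.lc 2 4 (.lc 2 4 (.lc 2 4 (.lc 2 4 (.lc 2 4 (.lc 2 9 (.lc 1 6 (.lc 2 9 (.lc 2 9 (.lc 3 0 (.lc 3 10 (.lc 2 9 (.lc 2 9 (.lc 3 4 (.lc 3 4 (.lc 3 4 (.lc 3 9 (.lc 1 0 (.lc 4 10 (.lc 4 0 (.lc 4 11 (.lc 3 9 (.lc 3 9 (.lc 3 9 (.lc 3 4 (.lc 3 4 (.lc 3 4 (.lc 3 4 (.lc 1 9 (.lc 3 4 (.lc 3 4 (.lc 3 4 (.lc 3 4 (.lc 3 4 (.lc 3 4 (.lc 0 0 (.lc 3 4 (.lc 3 4 (.lc 3 4 (.lc 4 4 (.lc 1 0 (.lc 4 4 (.lc 4 4 (.lc 4 4 .stop)))))))))))))))))))))))))))))))))))))))))))))))))))))))))))))))))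
 (.lc 2 8 (.lc 2 8 (.lc 2 8 (.lc 2 8 (.lc 2 8 (.lc 3 9 (.lc 2 3 (.lc 2 3 (.lc 3 0 (.lc 3 10 (.lc 3 4 (.node [88,105,144] 0 5 .stop
 (.lc 2 3 (.lc 2 3 (.lc 2 3 (.node [88,96,149] 6 0 .stop
 (.lc 3 4 (.node [88,106,149] 7 6 (.lc 1 10 (.lc 1 10 (.node [122] 7 10 (.lc 2 0 (.lc 2 8 (.lc 2 11 (.lc 3 0 (.lc 3 11 (.lc 2 9 (.lc 0 11 (.lc 3 11 (.lc 3 0 (.lc 3 12 (.lc 3 0 (.lc 3 8 (.lc 3 11 (.lc 0 9 (.lc 0 0 (.lc 4 11 (.lc 4 0 (.lc 4 12 (.lc 0 0 (.lc 0 0 (.lc 0 0 (.far [256,16,257,0,16,1] 0 (.lc 0 11 (.lc 0 0 .stop))))))))))))))))))))))))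
 (.lc 1 10 (.lc 2 4 (.lc 2 4 (.lc 2 10 (.lc 2 10 (.lc 0 0 (.lc 3 0 (.lc 3 8 (.lc 3 11 (.lc 2 10 (.lc 2 10 (.lc 2 10 (.lc 2 10 (.lc 1 9 (.lc 1 9 (.lc 2 10 (.lc 2 10 (.lc 2 4 (.lc 2 4 (.lc 2 4 (.lc 2 4 (.lc 2 4 (.lc 2 4 (.lc 2 10 (.lc 1 6 (.lc 2 10 (.lc 2 10 (.lc 3 0 (.lc 3 11 (.lc 2 10 (.lc 2 10 (.lc 3 4 (.lc 3 4 (.lc 3 4 (.lc 3 10 (.lc 1 0 (.lc 4 11 (.lc 4 0 (.lc 4 12 (.lc 3 10 (.lc 3 10 (.lc 3 10 (.lc 3 4 (.lc 3 4 (.lc 3 4 (.lc 3 4 (.lc 1 10 (.lc 3 4 (.lc 3 4 (.lc 3 4 (.lc 3 4 (.lc 3 4 (.lc 3 4 (.lc 0 0 (.lc 3 4 (.lc 3 4 (.lc 3 4 (.lc 4 4 (.lc 1 0 (.lc 4 4 (.lc 4 4 (.lc 4 4 .stop)))))))))))))))))))))))))))))))))))))))))))))))))))))))))))))))))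
 (.lc 2 8 (.lc 2 8 (.lc 2 8 (.lc 2 8 (.lc 2 8 (.lc 2 8 (.lc 2 8 (.lc 2 8 (.lc 3 9 (.lc 2 3 (.lc 2 3 (.lc 3 0 (.lc 3 10 (.lc 3 8 (.lc 3 8 (.lc 3 8 (.lc 3 8 (.lc 3 8 (.lc 3 8 (.lc 3 8 (.lc 4 10 (.lc 3 3 (.lc 3 3 (.lc 3 3 (.lc 4 10 (.lc 4 0 (.lc 4 11 (.lc 3 8 (.lc 3 8 (.lc 3 8 (.lc 3 8 (.lc 3 8 (.lc 3 8 (.lc 3 8 (.lc 3 8 (.lc 3 8 (.lc 3 8 (.lc 3 8 (.lc 3 8 (.lc 4 8 (.lc 4 8 (.lc 4 8 (.lc 4 8 (.lc 4 8 .stop))))))))))))))))))))))))))))))))))))))))))))))))))))))))))))))))))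
 (.far [1,4112,4096,256] 0 (.far [1,4112,4096,256] 0 (.node [88,128] 6 5 (.lc 1 8 (.lc 1 8 (.lc 3 4 (.lc 1 0 (.lc 2 8 (.lc 2 8 (.lc 2 8 (.lc 3 4 (.node [105,128] 9 8 (.conf [1,144] (.lc 0 7 (.conf [1,160] (.lc 1 0 .stop))))
 (.lc 3 9 (.lc 2 8 (.lc 4 4 (.node [106,128,152] 9 8 (.conf [1,144] (.lc 0 7 (.lc 3 11 (.lc 1 0 .stop))))
 (.lc 3 8 (.lc 4 10 (.lc 4 10 (.lc 4 10 (.lc 5 11 .stop))))))))))))))))))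
 (.node [89,152,130] 6 5 (.lc 1 9 (.lc 1 9 (.lc 1 9 (.lc 1 8 (.lc 3 4 (.lc 1 8 (.lc 2 9 (.lc 2 9 (.lc 2 9 (.lc 2 9 (.lc 2 9 (.lc 2 9 (.lc 2 9 (.lc 2 9 (.node [96,152] 0 9 (.conf [8,130] (.lc 1 2 .stop))
 (.lc 3 4 (.node [106,152] 9 8 (.far [4112,1,4112,0,257] 0 (.lc 2 2 (.lc 1 6 (.lc 2 2 (.far [4112,1,4112,0,257] 0 (.far [4112,1,4112,0,257] 0 (.lc 2 2 (.lc 2 2 (.lc 3 2 (.lc 3 2 (.lc 3 2 .stop)))))))))))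
 (.lc 3 0 (.lc 3 10 (.lc 2 9 (.lc 2 9 (.lc 2 9 (.lc 4 4 (.node [106,152,160] 0 9 .stop
 (.node [96,152,169] 6 0 .stop
 (.lc 4 4 (.node [107,152,169] 10 9 (.node [130] 10 8 (.lc 1 2 (.lc 0 6 (.lc 1 2 (.lc 3 0 (.lc 1 0 (.lc 2 2 (.lc 2 2 (.lc 2 2 (.lc 2 2 (.lc 2 2 (.lc 1 0 (.lc 1 0 (.lc 2 2 (.lc 1 6 (.lc 2 2 (.lc 2 0 (.lc 3 2 (.lc 3 2 (.lc 3 2 (.far [4096,1,1,4112,0,257] 0 (.lc 2 0 (.lc 2 0 (.lc 2 0 (.lc 3 0 .stop))))))))))))))))))))))))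
 (.lc 1 2 (.lc 0 6 (.lc 1 2 (.lc 1 2 (.lc 1 2 (.lc 3 0 (.lc 3 12 (.lc 2 2 (.lc 2 2 (.lc 2 2 .stop)))))))))))
 (.lc 3 9 (.lc 3 9 (.lc 3 9 (.lc 3 9 (.lc 4 10 (.lc 4 0 (.lc 4 11 (.lc 4 10 (.lc 4 0 (.lc 4 11 (.lc 4 10 (.lc 4 0 (.lc 4 11 (.lc 5 11 (.lc 5 11 (.lc 5 0 (.lc 5 12 .stop))))))))))))))))))))))))))))))))))))))))))))
 .stop))))))))))
 (.lc 0 0 (.node [101,118] 5 3 (.far [16,257,256,4096] 0 (.node [80] 6 5 (.lc 1 0 (.lc 3 8 (.lc 2 0 (.lc 2 0 (.lc 3 8 (.lc 0 0 (.lc 2 0 (.lc 4 9 (.lc 3 0 (.node [120,128] 7 8 (.lc 0 8 (.lc 0 9 (.lc 0 9 (.lc 0 9 (.lc 0 10 .stop)))))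
 (.node [120,128] 7 8 (.lc 0 8 (.lc 0 9 (.lc 0 9 (.lc 0 9 (.lc 0 10 .stop)))))
 (.lc 0 8 (.node [121,152,128] 7 9 (.lc 0 9 (.lc 0 10 (.lc 0 10 (.lc 0 10 (.lc 0 11 .stop)))))
 .stop)))))))))))))
 (.lc 0 6 (.node [88,130] 6 5 (.lc 1 8 (.lc 1 8 (.lc 3 0 (.lc 3 9 (.lc 2 8 (.lc 2 8 (.lc 2 8 (.lc 2 8 (.lc 2 8 (.lc 3 0 (.lc 3 9 (.lc 0 8 (.lc 2 8 (.lc 2 8 (.lc 4 9 (.lc 4 0 (.lc 4 10 (.lc 3 8 (.lc 3 8 (.lc 3 8 (.node [112,130] 7 0 (.node [] 8 2 (.far [4112,0,1,4112,0,257] 0 (.node [32,137,146] 9 2 .stop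
 (.lc 3 10 (.node [32,138,146,169,146] 9 2 .stop
 (.lc 3 10 (.lc 4 11 .stop))))))
 .stop)
 (.node [121,152,130] 7 9 (.lc 0 9 (.lc 0 0 (.lc 0 10 (.lc 0 0 (.lc 0 10 (.lc 2 8 (.lc 0 10 (.lc 0 0 (.lc 0 11 .stop)))))))))
 (.lc 2 2 (.lc 2 2 (.lc 0 0 (.lc 0 9 (.lc 3 2 (.lc 3 2 (.lc 3 2 .stop)))))))))))))))))))))))))))))
 (.far [16,257,256,4096] 17 (.far [16,257,256,4096] 0 (.node [80] 6 5 (.lc 1 0 (.lc 3 8 (.lc 2 0 (.lc 2 0 (.lc 0 0 (.lc 2 0 (.lc 3 0 (.conf [1,128] .stop))))))))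
 (.node [88,130] 6 5 (.lc 1 8 (.lc 1 8 (.lc 3 0 (.lc 3 9 (.lc 2 8 (.lc 2 8 (.lc 2 8 (.lc 2 8 (.lc 2 8 (.lc 3 0 (.lc 3 9 (.lc 0 8 (.lc 2 8 (.lc 2 8 (.lc 4 9 (.lc 4 0 (.lc 4 10 (.lc 3 8 (.lc 3 8 (.lc 3 8 (.lc 2 2 (.lc 2 2 (.node [112,130] 7 0 (.far [257,257,0,16,1] 0 .stop)
 (.node [121,130] 9 8 (.lc 0 0 (.lc 1 0 (.lc 1 0 (.lc 1 0 (.lc 1 0 (.far [1,1,4112,0,257] 0 (.lc 1 0 (.lc 2 0 (.lc 2 0 .stop)))))))))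
 (.lc 0 0 (.lc 0 9 (.node [121,130,144] 0 8 (.node [] 7 9 (.lc 0 9 (.lc 0 10 (.lc 0 10 (.lc 0 10 (.lc 0 11 .stop)))))
 .stop)
 (.node [112,130,152] 7 0 (.node [] 9 8 (.lc 0 0 (.lc 1 0 (.lc 1 0 (.lc 1 0 (.lc 2 0 .stop)))))
 .stop)
 (.node [122,130,152] 9 8 (.lc 0 0 (.lc 1 0 (.lc 1 0 (.lc 1 0 (.lc 1 0 (.lc 3 0 (.lc 1 0 (.lc 2 0 (.lc 2 0 .stop)))))))))
 .stop)))))))))))))))))))))))))))))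
 (.node [88,128] 6 5 (.lc 1 8 (.lc 3 9 (.lc 2 8 (.lc 2 8 (.lc 3 9 (.lc 0 8 (.lc 2 8 (.lc 4 10 (.lc 3 8 (.lc 2 0 (.node [121,128] 9 8 (.conf [1,144] (.lc 0 7 (.lc 0 7 (.lc 0 7 (.conf [1,160] (.lc 1 7 .stop))))))
 (.lc 0 9 (.node [122,128,152] 9 8 (.conf [1,144] (.lc 0 7 (.lc 0 7 (.lc 0 7 (.lc 3 11 (.lc 1 7 .stop))))))
 .stop)))))))))))))
 (.node [89,152,130] 6 5 (.lc 1 9 (.lc 1 9 (.lc 3 0 (.lc 3 10 (.lc 2 9 (.lc 2 9 (.lc 2 9 (.lc 2 9 (.lc 2 9 (.lc 3 0 (.lc 3 10 (.lc 0 9 (.lc 2 9 (.lc 2 9 (.lc 4 10 (.lc 4 0 (.lc 4 11 (.lc 3 9 (.lc 3 9 (.lc 3 9 (.lc 2 8 (.lc 2 8 (.node [112,152] 7 0 (.far [257,257,0,16,1] 0 .stop)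
 (.node [122,152] 9 8 (.far [4112,1,4112,0,257] 0 (.lc 2 2 (.lc 1 7 (.lc 2 2 (.far [4112,1,4112,0,257] 0 (.far [4112,1,4112,0,257] 0 (.lc 2 2 (.lc 2 2 (.lc 1 7 (.lc 3 2 (.lc 3 2 (.lc 3 2 .stop))))))))))))
 (.lc 0 0 (.lc 0 10 (.node [122,152,160] 0 9 .stop
 (.node [112,152,169] 7 0 (.node [] 10 9 (.node [130] 10 8 (.lc 1 2 (.lc 1 0 (.lc 2 2 (.far [4096,1,0,1,4112,0,257] 0 .stop))))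
 (.lc 1 2 (.lc 1 2 (.lc 3 11 (.lc 2 2 .stop)))))
 .stop)
 (.node [123,152,169] 10 9 (.node [130] 7 11 (.lc 0 11 (.lc 0 0 (.lc 0 12 (.lc 0 0 (.lc 0 12 (.lc 2 10 (.lc 0 12 (.lc 0 0 (.lc 0 13 .stop)))))))))
 (.lc 1 2 (.lc 0 7 (.lc 1 2 (.lc 1 2 (.lc 1 2 (.lc 3 0 (.lc 3 12 (.lc 0 7 (.lc 2 2 (.lc 2 2 (.lc 2 2 .stop))))))))))))
 .stop)))))))))))))))))))))))))))))
 .stop))))))))))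
 (.lc 0 0 (.node [101,118,135] 5 3 (.node [82] 6 5 (.lc 2 0 (.lc 0 0 (.lc 2 9 (.lc 2 2 (.lc 2 2 (.lc 2 2 (.lc 0 0 (.lc 1 0 (.lc 0 9 (.lc 3 9 (.lc 1 0 (.lc 1 0 (.lc 3 0 (.lc 3 10 (.lc 2 2 (.lc 2 2 (.lc 2 2 (.lc 2 2 (.lc 2 2 (.node [82,112] 7 0 (.conf [5,128] (.lc 0 9 .stop))
 (.lc 1 0 (.node [82,121] 8 7 (.far [16,257,0,16,1] 0 (.lc 3 0 (.lc 0 0 (.lc 3 10 (.far [16,257,0,16,1] 0 (.far [16,257,0,16,1] 0 (.lc 3 0 (.lc 3 10 (.lc 4 10 (.lc 1 9 (.lc 4 0 (.lc 4 11 .stop))))))))))))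
 (.lc 3 2 (.lc 3 2 (.lc 3 2 (.lc 3 2 (.node [82,121,144] 0 5 (.node [] 8 7 (.node [137] 8 9 (.lc 2 10 (.lc 0 10 (.lc 3 11 (.far [256,16,0,257,0,16,1] 0 .stop))))
 (.lc 3 10 (.lc 1 0 (.lc 3 10 (.lc 4 11 .stop)))))
 .stop)
 (.lc 2 0 (.lc 2 0 (.node [82,112,149] 7 0 .stop
 (.node [82,122,149] 8 7 (.node [138] 8 10 (.lc 2 0 (.lc 0 0 (.lc 2 11 (.lc 3 0 (.lc 3 11 (.lc 2 9 (.lc 0 11 (.lc 3 11 (.lc 1 10 (.lc 3 0 (.lc 3 12 (.lc 3 0 (.lc 0 0 (.lc 3 11 (.lc 0 9 (.lc 0 0 (.lc 4 11 (.lc 1 9 (.lc 4 0 (.lc 4 12 (.lc 0 0 (.lc 0 0 (.lc 0 0 (.far [256,16,257,0,16,1] 0 (.lc 0 11 (.lc 0 0 .stop))))))))))))))))))))))))))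
 (.lc 3 0 (.lc 0 0 (.lc 3 11 (.lc 1 9 (.lc 1 9 (.lc 3 0 (.lc 3 11 (.lc 4 11 (.lc 1 10 (.lc 4 0 (.lc 4 12 .stop))))))))))))
 (.lc 3 2 (.lc 3 2 (.lc 3 2 (.lc 3 2 (.lc 3 2 (.lc 3 2 (.lc 3 2 (.lc 3 2 (.lc 3 2 (.lc 4 2 (.lc 4 2 (.lc 4 2 (.lc 4 2 .stop))))))))))))))))))))))))))))))))))))))))))))
 (.node [80] 6 5 (.lc 1 0 (.lc 3 9 (.lc 2 0 (.lc 2 0 (.lc 3 9 (.lc 0 0 (.lc 2 0 (.lc 4 10 (.lc 3 0 (.node [121,144] 8 7 (.node [137] 8 9 (.lc 2 10 (.lc 1 1 (.lc 0 10 (.lc 3 11 (.far [256,0,1,0,16,1] 0 .stop)))))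
 (.lc 3 10 (.lc 1 0 (.lc 3 10 (.lc 4 11 .stop)))))
 (.node [121,144] 8 7 (.far [16,257,0,16,1] 0 (.lc 3 10 (.far [16,257,0,16,1] 0 (.lc 3 10 (.lc 4 11 .stop)))))
 (.lc 0 9 (.node [122,169,144] 8 7 (.far [16,256,256,256,0,4096] 0 (.lc 3 11 (.lc 1 9 (.lc 3 11 (.lc 4 12 .stop)))))
 .stop)))))))))))))
 (.lc 0 6 (.lc 0 7 (.node [89,146] 6 5 (.lc 1 9 (.lc 1 9 (.lc 3 0 (.lc 3 10 (.lc 2 9 (.lc 2 9 (.lc 2 9 (.lc 2 9 (.lc 2 9 (.lc 3 0 (.lc 3 10 (.lc 0 9 (.lc 2 9 (.lc 2 9 (.lc 4 10 (.lc 4 0 (.lc 4 11 (.lc 3 9 (.lc 3 9 (.lc 3 9 (.node [112,146] 7 0 .stop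
 (.node [122,169,146] 8 7 (.node [138] 10 9 (.lc 1 2 (.lc 0 0 (.lc 1 2 (.lc 2 2 (.lc 2 2 (.lc 2 2 (.lc 0 0 (.lc 0 11 (.lc 2 2 (.lc 1 0 (.lc 2 2 (.lc 2 2 (.lc 0 8 (.lc 2 2 (.lc 2 2 (.lc 2 2 (.lc 0 0 (.lc 0 11 (.lc 1 9 (.lc 3 2 (.lc 3 2 (.lc 3 2 (.lc 3 2 (.lc 1 0 (.lc 1 0 (.lc 3 2 (.lc 1 11 (.lc 0 11 (.lc 0 0 (.lc 0 12 (.lc 1 0 .stop)))))))))))))))))))))))))))))))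
 (.lc 3 0 (.lc 3 11 (.lc 1 9 (.lc 1 9 (.lc 3 0 (.lc 3 11 (.lc 4 11 (.lc 4 0 (.lc 4 12 .stop))))))))))
 (.lc 2 2 (.lc 2 2 (.lc 0 0 (.lc 0 10 (.lc 3 2 (.lc 3 2 (.lc 3 2 .stop)))))))))))))))))))))))))))))
 (.node [80] 6 5 (.lc 1 0 (.lc 2 9 (.lc 2 0 (.lc 0 9 (.lc 3 10 (.lc 2 0 (.lc 2 0 (.lc 2 0 (.node [80,121] 8 7 (.far [16,257,0,16,1] 0 (.lc 3 10 (.far [16,257,0,16,1] 0 (.lc 3 10 (.lc 4 11 .stop)))))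
 (.lc 3 0 (.node [80,122,149] 8 7 (.node [138] 8 10 (.lc 2 11 (.lc 3 11 (.lc 0 11 (.lc 3 12 (.lc 3 11 (.lc 0 9 (.lc 0 0 (.lc 4 12 (.lc 0 0 (.lc 0 11 .stop))))))))))
 (.lc 3 11 (.lc 1 9 (.lc 3 11 (.lc 4 12 .stop)))))
 (.lc 3 0 (.lc 3 0 (.lc 3 0 (.lc 4 0 .stop)))))))))))))))
 (.node [89,146] 6 5 (.lc 2 0 (.lc 1 3 (.lc 2 10 (.lc 2 9 (.lc 2 9 (.lc 2 9 (.lc 0 0 (.lc 2 3 (.lc 0 10 (.lc 3 10 (.lc 2 3 (.lc 2 3 (.lc 3 0 (.lc 3 11 (.lc 2 9 (.lc 2 9 (.lc 2 9 (.lc 2 9 (.lc 2 9 (.node [89,112] 7 0 (.conf [5,128] (.lc 0 10 .stop))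
 (.lc 2 3 (.node [89,122] 8 7 (.far [16,257,0,16,1] 0 (.lc 3 0 (.lc 3 9 (.lc 3 11 (.far [16,257,0,16,1] 0 (.far [16,257,0,16,1] 0 (.lc 3 0 (.lc 3 11 (.lc 4 11 (.lc 4 0 (.lc 4 12 .stop)))))))))))
 (.lc 3 9 (.lc 3 9 (.lc 3 9 (.lc 3 9 (.node [89,122,160] 0 5 .stop
 (.lc 3 3 (.lc 3 3 (.node [89,112,165] 7 0 .stop
 (.node [89,123,165] 8 7 (.node [139] 8 11 (.lc 2 0 (.lc 2 9 (.lc 2 12 (.lc 3 0 (.lc 3 12 (.lc 2 10 (.lc 0 12 (.lc 3 12 (.lc 3 0 (.lc 3 13 (.lc 3 0 (.lc 3 9 (.lc 3 12 (.lc 0 10 (.lc 0 0 (.lc 4 12 (.lc 4 0 (.lc 4 13 (.lc 0 0 (.lc 0 0 (.lc 0 0 (.far [256,16,257,0,16,1] 0 (.lc 0 12 (.lc 0 0 .stop))))))))))))))))))))))))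
 (.lc 3 0 (.lc 3 9 (.lc 3 12 (.lc 1 10 (.lc 1 10 (.lc 3 0 (.lc 3 12 (.lc 4 12 (.lc 4 0 (.lc 4 13 .stop)))))))))))
 (.lc 3 9 (.lc 3 9 (.lc 3 9 (.lc 3 9 (.lc 3 9 (.lc 3 9 (.lc 3 9 (.lc 3 9 (.lc 3 9 (.lc 4 9 (.lc 4 9 (.lc 4 9 (.lc 4 9 .stop))))))))))))))))))))))))))))))))))))))))))))
 (.node [80] 6 5 (.lc 1 0 (.lc 3 9 (.lc 2 0 (.lc 2 0 (.lc 0 0 (.lc 2 0 (.lc 3 0 (.conf [1,144] .stop))))))))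
 (.node [89,146] 6 5 (.lc 1 9 (.lc 1 9 (.lc 3 0 (.lc 3 10 (.lc 2 9 (.lc 2 9 (.lc 2 9 (.lc 2 9 (.lc 2 9 (.lc 3 0 (.lc 3 10 (.lc 0 9 (.lc 2 9 (.lc 2 9 (.lc 4 10 (.lc 4 0 (.lc 4 11 (.lc 3 9 (.lc 3 9 (.lc 3 9 (.lc 2 2 (.lc 2 2 (.node [112,146] 7 0 (.conf [9,128] (.lc 0 10 .stop))
 (.node [122,146] 8 7 (.far [16,257,0,16,1] 0 (.lc 3 0 (.lc 0 0 (.lc 3 11 (.far [16,257,0,16,1] 0 (.far [16,257,0,16,1] 0 (.lc 3 0 (.lc 3 11 (.lc 4 11 (.lc 1 10 (.lc 4 0 (.lc 4 12 .stop))))))))))))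
 (.lc 0 0 (.lc 0 10 (.node [122,146,160] 0 9 (.node [] 8 7 (.node [138] 8 10 (.lc 2 11 (.lc 0 11 (.lc 3 12 (.far [256,16,0,257,0,16,1] 0 .stop))))
 (.lc 3 11 (.lc 1 0 (.lc 3 11 (.lc 4 12 .stop)))))
 .stop)
 (.node [112,146,169] 7 0 .stop
 (.node [123,146,169] 10 9 (.lc 0 0 (.lc 1 0 (.lc 1 0 (.lc 1 0 (.lc 1 0 (.lc 1 0 (.lc 3 0 (.lc 1 0 (.lc 2 0 (.lc 2 0 .stop))))))))))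
 .stop)))))))))))))))))))))))))))))
 (.node [89,144] 6 5 (.lc 1 9 (.lc 3 10 (.lc 2 9 (.lc 2 9 (.lc 3 10 (.lc 0 9 (.lc 2 9 (.lc 4 11 (.lc 3 9 (.lc 2 0 (.node [122,144] 8 7 (.far [16,257,0,16,1] 0 (.lc 3 11 (.far [16,257,0,16,1] 0 (.lc 3 11 (.lc 4 12 .stop)))))
 (.lc 0 10 (.node [123,144,169] 10 9 (.conf [1,160] (.lc 0 8 (.lc 3 12 (.lc 1 0 .stop))))
 .stop)))))))))))))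
 (.lc 0 6 (.node [90,169,146] 6 5 (.lc 1 10 (.lc 1 10 (.lc 3 0 (.lc 3 11 (.lc 2 10 (.lc 2 10 (.lc 2 10 (.lc 2 10 (.lc 2 10 (.lc 3 0 (.lc 3 11 (.lc 0 10 (.lc 2 10 (.lc 2 10 (.lc 4 11 (.lc 4 0 (.lc 4 12 (.lc 3 10 (.lc 3 10 (.lc 3 10 (.lc 2 9 (.lc 2 9 (.node [112,169] 7 0 (.conf [10,128] (.lc 0 11 .stop))
 (.node [123,169] 10 9 (.far [4112,1,4112,0,257] 0 (.lc 2 2 (.lc 1 7 (.lc 2 2 (.far [4112,1,4112,0,257] 0 (.far [4112,1,4112,0,257] 0 (.lc 2 2 (.lc 2 2 (.lc 3 2 (.lc 3 2 (.lc 3 2 .stop)))))))))))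
 (.lc 0 0 (.lc 0 11 (.node [123,169,176] 0 10 .stop
 (.node [112,169,186] 7 0 .stop
 (.node [124,169,186] 11 10 (.node [146] 8 7 (.node [140] 12 11 (.lc 1 9 (.lc 1 9 (.lc 1 2 (.lc 1 2 (.lc 0 0 (.lc 0 13 (.lc 2 9 (.lc 2 9 (.lc 2 9 (.lc 0 0 (.lc 0 9 (.lc 1 11 (.lc 1 0 (.lc 1 0 .stop))))))))))))))
 (.lc 3 0 (.lc 3 13 (.lc 1 11 (.lc 1 11 (.lc 3 0 (.lc 3 13 (.lc 4 13 (.lc 4 0 (.lc 4 14 .stop))))))))))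
 (.lc 1 2 (.lc 0 7 (.lc 1 2 (.lc 1 2 (.lc 1 2 (.lc 3 0 (.lc 3 13 (.lc 2 2 (.lc 2 2 (.lc 2 2 .stop)))))))))))
 .stop)))))))))))))))))))))))))))))
 .stop))))))))))))
 .stop)))))))))

theorem t36 : kNode2 awTt FTt 4 6 (check tyTt awTt triet FTt [s37, f3] c36) (fun _ _ _ => true) 0 s36 Pl.nil s36 =
    true := by
  decide +kernel

end Chk
end Pool.Agent.Lib.MP_ba95e8_co
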