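import Pool.Agent.Lib.MP_ba95e8_co.ChkTab
import Pool.Agent.Lib.MP_ba95e8_co.ChkStates

/-!
Deltahedral domes: part 48 of the case analysis.
-/

namespace Pool.Agent.Lib.MP_ba95e8_co
namespace Chk

/-- certificate number 48 -/
def c48 : Cert := (.node [67,80,50] 0 4 (.node [67,50,80] 5 0 (.node [86] 4 3 (.node [50,99] 5 6 (.node [22] 6 3 .stop
 (.conf [23,118] .stop))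
 (.lc 2 2 (.lc 0 7 (.lc 2 2 (.lc 3 2 .stop)))))
 (.conf [87,118] .stop))
 (.conf [50,64] (.conf [67,100] (.node [50,64,80,6] 5 0 (.lc 2 6 (.lc 3 7 .stop))
 (.conf [64,118,80,7] .stop)))))
 (.node [67,86,50] 4 3 (.node [50,64,86] 4 0 (.node [96] 0 3 (.node [50] 6 3 (.far [16,256,256,0,16,4096] 0 (.far [16,256,256,0,16,4096] 0 .stop))
 (.conf [50,115] .stop))
 (.lc 0 7 .stop))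
 (.node [50,71,86] 6 4 (.node [103] 5 6 (.node [80,103] 5 0 (.lc 0 0 .stop)
 (.lc 1 4 (.node [88,103] 1 5 (.node [24] 7 3 (.node [50,112] 0 3 (.far [16,16,0,0,16,256,16,4096] 0 .stop)
 (.lc 2 3 (.node [50,120] 8 3 .stop
 (.node [50,121] 9 3 (.far [16,16,0,0,16,256,16,4096] 0 (.lc 3 0 (.lc 3 8 (.lc 3 10 (.far [16,16,0,0,16,256,16,4096] 17 (.far [16,16,0,0,16,256,16,4096] 0 (.lc 3 0 (.lc 3 10 (.lc 4 10 (.lc 4 11 .stop))))))))))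
 (.lc 2 2 (.lc 2 2 (.lc 3 8 (.lc 3 9 (.lc 3 0 (.lc 3 8 (.lc 3 10 (.node [50,121,144] 0 3 (.far [16,16,0,0,16,256,16,4096] 0 .stop)
 (.lc 3 3 (.conf [50,147] (.conf [50,147] (.lc 2 2 (.lc 2 2 (.lc 2 2 (.lc 2 2 (.lc 2 2 (.lc 2 2 (.lc 2 2 (.lc 3 9 (.lc 3 0 (.lc 3 9 (.lc 3 0 (.lc 3 10 (.lc 3 2 (.lc 3 2 (.lc 3 2 (.lc 4 10 (.lc 4 10 (.lc 4 0 (.lc 4 11 (.lc 3 2 (.lc 3 2 (.lc 3 2 (.lc 3 2 (.lc 3 2 (.lc 3 2 (.lc 3 2 (.lc 3 2 (.lc 3 2 (.lc 4 2 (.lc 4 2 .stop)))))))))))))))))))))))))))))))))))))))))))))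
 (.lc 3 0 (.lc 1 6 (.lc 1 6 (.lc 3 0 (.lc 1 6 (.lc 3 0 (.conf [25,152] (.lc 4 0 (.lc 2 6 .stop))))))))))
 (.lc 2 7 (.lc 2 7 (.lc 2 7 (.lc 0 0 (.lc 3 1 (.lc 3 1 (.conf [88,128] (.lc 2 4 (.lc 2 4 (.node [80,103,134] 5 0 (.lc 0 0 .stop)
 (.conf [89,152] (.lc 2 7 (.lc 2 7 (.lc 2 7 (.lc 0 0 (.lc 3 1 (.lc 0 0 (.lc 3 1 (.lc 3 1 (.lc 3 7 (.lc 3 7 (.lc 3 7 (.lc 3 7 (.lc 0 0 (.lc 4 1 (.lc 0 0 (.lc 4 1 (.lc 0 0 (.lc 4 1 (.lc 0 0 (.lc 4 1 (.lc 0 0 (.lc 4 1 (.lc 0 0 (.lc 5 1 .stop))))))))))))))))))))))))))))))))))))))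
 (.lc 3 0 (.lc 3 8 (.lc 1 3 (.lc 1 3 (.lc 3 0 (.lc 3 8 (.lc 4 8 (.lc 4 0 (.lc 4 9 .stop))))))))))
 (.conf [50,71] (.conf [50,64] (.conf [50,72] (.conf [50,67] (.conf [50,67] (.conf [71,112] (.conf [50,115] (.conf [50,115] (.conf [50,71] (.conf [50,64] (.conf [50,72] (.node [50,67,86,96] 0 3 (.far [16,256,16,4096] 0 .stop)
 (.node [50,67,86,103] 7 3 (.far [16,256,16,4096] 0 (.node [112] 6 7 (.lc 1 0 (.lc 0 7 (.lc 1 0 (.lc 1 1 (.node [104,128] 5 6 (.lc 2 8 (.lc 2 9 (.lc 3 9 (.lc 1 0 (.lc 2 8 (.lc 3 9 (.lc 3 10 (.lc 3 9 (.lc 2 4 (.lc 0 8 (.lc 0 9 (.lc 4 10 (.lc 0 9 (.lc 0 10 (.lc 0 9 (.lc 0 9 (.lc 3 4 (.lc 0 10 .stop))))))))))))))))))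
 (.lc 3 1 (.lc 3 9 (.lc 1 7 (.lc 2 0 (.node [97] 5 6 (.lc 2 8 (.lc 3 9 .stop))
 (.lc 0 0 (.node [104,128] 5 6 (.lc 2 8 (.lc 2 9 (.lc 3 9 (.conf [24,128] (.lc 2 8 (.lc 3 9 (.lc 3 10 (.lc 3 9 (.lc 2 4 (.lc 0 8 (.lc 0 9 (.lc 4 10 (.lc 0 9 (.lc 0 10 (.lc 0 9 (.lc 0 9 (.lc 3 4 (.lc 0 10 .stop))))))))))))))))))
 (.lc 1 1 (.lc 3 8 (.lc 3 8 (.lc 3 9 (.lc 1 0 (.conf [21,129] (.node [105,152,128] 5 6 (.lc 2 9 (.lc 2 10 (.lc 3 10 (.lc 1 8 (.lc 2 9 (.lc 3 10 (.lc 3 11 (.lc 3 10 (.lc 2 4 (.lc 0 9 (.lc 0 10 (.lc 4 11 (.lc 0 10 (.lc 0 11 (.lc 0 10 (.lc 0 10 (.lc 3 4 (.lc 0 11 .stop))))))))))))))))))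
 (.lc 4 10 (.lc 2 1 (.lc 4 9 (.lc 4 8 (.lc 4 9 (.lc 4 8 (.lc 4 9 (.lc 5 9 (.lc 5 10 .stop))))))))))))))))))))))))))))
 (.node [120,130] 6 7 (.lc 1 8 (.lc 1 8 (.lc 0 7 (.lc 1 8 (.node [96,130] 6 0 (.lc 2 1 (.lc 1 0 (.lc 3 9 (.lc 1 0 .stop))))
 (.node [105,152,130] 5 6 (.lc 2 0 (.lc 2 9 (.lc 2 10 (.lc 3 0 (.lc 3 10 (.lc 0 0 (.lc 1 8 (.lc 2 9 (.lc 3 10 (.lc 3 0 (.lc 3 10 (.lc 3 0 (.lc 3 11 (.lc 3 0 (.lc 3 10 (.lc 2 4 (.lc 0 0 (.lc 0 9 (.lc 0 10 (.lc 4 10 (.lc 4 0 (.lc 4 11 (.lc 0 0 (.lc 0 10 (.lc 0 0 (.lc 0 11 (.lc 0 0 (.lc 0 10 (.lc 0 0 (.lc 0 10 (.lc 0 0 (.lc 3 4 (.lc 0 0 (.lc 0 11 .stop))))))))))))))))))))))))))))))))))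
 (.lc 3 1 (.lc 3 9 (.lc 3 0 (.lc 3 1 (.lc 3 10 (.lc 2 8 (.lc 2 8 (.lc 1 7 (.lc 2 8 (.lc 2 8 (.lc 1 2 (.lc 1 2 (.lc 0 8 (.lc 1 2 (.lc 3 0 (.lc 3 1 (.lc 3 9 (.lc 3 1 (.lc 3 9 (.lc 3 9 (.lc 3 0 (.lc 3 10 (.lc 2 2 (.lc 2 2 (.lc 1 8 (.lc 2 2 (.lc 2 2 (.lc 4 9 (.lc 4 10 (.lc 4 1 (.lc 4 10 (.lc 4 0 (.lc 4 11 (.lc 4 1 (.lc 4 9 (.lc 4 0 (.lc 4 10 (.lc 4 1 (.lc 4 9 (.lc 4 9 (.lc 4 0 (.lc 4 10 (.lc 4 1 (.lc 4 9 (.lc 4 0 (.lc 4 1 (.lc 4 10 (.lc 5 9 (.lc 5 10 (.lc 5 1 (.lc 5 10 (.lc 5 0 (.lc 5 11 .stop)))))))))))))))))))))))))))))))))))))))))))))))))))))))))))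
 (.far [16,256,16,4096] 17 (.far [16,256,16,4096] 0 (.node [112] 6 7 (.lc 1 0 (.lc 0 7 (.lc 1 0 (.conf [21,97] (.conf [1,128] (.lc 3 1 (.lc 3 9 (.lc 1 7 (.lc 2 0 (.lc 1 1 (.lc 3 1 (.lc 3 8 (.lc 3 8 (.lc 3 9 (.lc 2 1 (.lc 2 1 (.lc 4 10 (.lc 4 8 (.lc 4 9 (.lc 2 1 (.lc 2 1 (.lc 3 1 .stop))))))))))))))))))))))
 (.node [120,130] 6 7 (.lc 1 8 (.lc 1 8 (.lc 0 7 (.lc 1 8 (.lc 1 2 (.lc 1 2 (.lc 3 1 (.lc 3 9 (.lc 3 0 (.lc 3 1 (.lc 3 10 (.lc 2 8 (.lc 2 8 (.lc 1 7 (.lc 2 8 (.lc 2 8 (.node [96,130] 0 8 (.far [1,1,4112,257] 0 .stop)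
 (.node [97,130] 1 8 .stop
 (.lc 0 8 (.node [105,130] 9 8 (.lc 0 0 (.lc 1 0 (.lc 1 0 (.lc 1 0 (.lc 1 0 (.far [1,1,4112,257] 0 (.lc 1 0 (.lc 2 0 (.lc 2 0 .stop)))))))))
 (.lc 3 0 (.lc 3 1 (.lc 3 9 (.lc 3 1 (.lc 3 9 (.lc 3 9 (.lc 3 0 (.lc 3 10 (.conf [21,97] (.node [105,130,144] 0 8 (.node [] 5 6 (.lc 2 9 (.lc 2 10 (.lc 3 10 (.lc 1 0 (.lc 2 9 (.lc 3 10 (.lc 3 11 (.lc 3 10 (.lc 2 4 (.lc 0 9 (.lc 0 10 (.lc 4 11 (.lc 0 10 (.lc 0 11 (.lc 0 10 (.lc 0 10 (.lc 3 4 (.lc 0 11 .stop))))))))))))))))))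
 .stop)
 (.lc 1 8 (.node [96,130,152] 6 0 (.lc 2 1 (.lc 1 0 (.lc 3 10 (.lc 1 0 .stop))))
 (.node [106,130,152] 9 8 (.lc 0 0 (.lc 1 0 (.lc 1 0 (.lc 1 0 (.lc 1 0 (.lc 3 0 (.lc 1 0 (.lc 2 0 (.lc 2 0 .stop)))))))))
 (.lc 4 9 (.lc 4 10 (.lc 4 1 (.lc 4 10 (.lc 4 0 (.lc 4 11 (.lc 4 1 (.lc 4 9 (.lc 4 0 (.lc 4 10 (.lc 4 1 (.lc 4 9 (.lc 4 9 (.lc 4 0 (.lc 4 10 (.lc 4 1 (.lc 4 9 (.lc 4 0 (.lc 4 1 (.lc 4 10 (.lc 5 9 (.lc 5 10 (.lc 5 1 (.lc 5 10 (.lc 5 0 (.lc 5 11 .stop)))))))))))))))))))))))))))))))))))))))))))))))))))))))))))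
 (.node [120,128] 6 7 (.lc 1 8 (.lc 0 7 (.lc 1 8 (.lc 1 0 (.lc 3 1 (.lc 3 10 (.lc 1 7 (.lc 2 8 (.node [97,128] 1 8 (.lc 2 5 .stop)
 (.lc 0 8 (.node [105,128] 9 8 (.conf [1,144] (.node [145] 6 9 (.lc 0 9 (.lc 2 10 (.lc 1 0 (.lc 3 10 (.lc 0 10 (.lc 3 11 .stop))))))
 (.conf [21,145] (.conf [21,145] (.conf [1,160] (.conf [21,161] .stop))))))
 (.lc 3 1 (.lc 3 9 (.lc 3 9 (.lc 3 10 (.lc 1 8 (.node [106,128,152] 9 8 (.conf [1,144] (.lc 3 1 (.conf [21,145] (.lc 3 1 (.lc 3 11 (.lc 4 11 .stop))))))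
 (.lc 4 11 (.lc 4 10 (.lc 4 9 (.lc 4 10 (.lc 4 1 (.lc 4 10 (.lc 5 11 .stop))))))))))))))))))))))))
 (.node [121,152,130] 6 7 (.lc 1 9 (.lc 1 9 (.lc 0 7 (.lc 1 9 (.lc 1 8 (.lc 1 8 (.lc 3 1 (.lc 3 10 (.lc 3 0 (.lc 3 1 (.lc 3 11 (.lc 2 9 (.lc 2 9 (.lc 1 7 (.lc 2 9 (.lc 2 9 (.node [96,152] 0 9 (.conf [8,130] (.lc 1 2 .stop))
 (.node [97,152] 1 9 (.lc 3 5 .stop)
 (.lc 0 9 (.node [106,152] 9 8 (.far [4112,1,4112,257] 0 (.lc 2 2 (.lc 2 2 (.lc 2 2 (.far [4112,1,4112,257] 0 (.far [4112,1,4112,257] 0 (.lc 2 2 (.lc 2 2 (.lc 3 2 (.lc 3 2 (.lc 3 2 (.lc 3 2 .stop))))))))))))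
 (.lc 3 0 (.lc 3 1 (.lc 3 10 (.lc 3 1 (.lc 3 10 (.lc 3 10 (.lc 3 0 (.lc 3 11 (.conf [21,97] (.node [106,152,160] 0 9 .stop
 (.lc 1 9 (.node [96,152,169] 6 0 (.lc 2 1 (.lc 1 0 (.lc 3 11 (.lc 1 0 .stop))))
 (.node [107,152,169] 10 9 (.node [130] 5 6 (.lc 2 0 (.lc 2 11 (.lc 2 12 (.lc 3 0 (.lc 3 12 (.lc 0 0 (.lc 1 10 (.lc 2 11 (.lc 3 12 (.lc 3 0 (.lc 3 12 (.lc 3 0 (.lc 3 13 (.lc 3 0 (.lc 3 12 (.lc 2 4 (.lc 0 0 (.lc 0 11 (.lc 0 12 (.lc 4 12 (.lc 4 0 (.lc 4 13 (.lc 0 0 (.lc 0 12 (.lc 0 0 (.lc 0 13 (.lc 0 0 (.lc 0 12 (.lc 0 0 (.lc 0 12 (.lc 0 0 (.lc 3 4 (.lc 0 0 (.lc 0 13 .stop))))))))))))))))))))))))))))))))))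
 (.lc 1 2 (.lc 1 2 (.lc 1 2 (.lc 1 2 (.lc 1 2 (.lc 3 0 (.lc 3 12 (.lc 2 2 (.lc 2 2 (.lc 2 2 (.lc 2 2 .stop))))))))))))
 (.lc 4 10 (.lc 4 11 (.lc 4 1 (.lc 4 11 (.lc 4 0 (.lc 4 12 (.lc 4 1 (.lc 4 10 (.lc 4 0 (.lc 4 11 (.lc 4 1 (.lc 4 10 (.lc 4 10 (.lc 4 0 (.lc 4 11 (.lc 4 1 (.lc 4 10 (.lc 4 0 (.lc 4 1 (.lc 4 11 (.lc 5 10 (.lc 5 11 (.lc 5 1 (.lc 5 11 (.lc 5 0 (.lc 5 12 .stop)))))))))))))))))))))))))))))))))))))))))))))))))))))))))))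
 .stop)))))))))
 (.conf [50,67] (.conf [50,67] (.conf [50,72] (.conf [50,72] (.conf [50,64] (.conf [50,73] (.conf [50,67] (.conf [50,67] (.conf [50,67] (.node [50,103,112,86] 0 3 (.node [] 5 6 (.lc 2 8 (.lc 3 8 (.lc 2 7 (.lc 3 9 (.lc 3 8 (.lc 1 0 (.lc 0 8 (.lc 4 9 (.lc 0 9 (.lc 0 8 (.lc 0 8 (.conf [24,135] (.lc 0 9 .stop)))))))))))))
 .stop)
 (.node [50,96,115,86] 6 0 (.lc 2 1 (.lc 3 8 (.lc 1 0 .stop)))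
 (.node [50,104,135,86] 7 3 (.node [114] 5 6 (.lc 2 0 (.lc 2 9 (.lc 3 0 (.lc 3 9 (.lc 0 0 (.lc 2 8 (.lc 3 9 (.lc 3 0 (.lc 3 10 (.lc 3 0 (.lc 3 9 (.lc 1 7 (.lc 0 0 (.lc 0 9 (.lc 4 9 (.lc 4 0 (.lc 4 10 (.lc 0 0 (.lc 0 10 (.lc 0 0 (.lc 0 9 (.lc 0 0 (.lc 0 9 (.lc 0 0 (.conf [25,152] (.lc 0 0 (.lc 0 10 .stop)))))))))))))))))))))))))))
 (.node [112] 5 6 (.lc 2 0 (.lc 2 9 (.lc 3 9 (.lc 0 0 (.lc 2 8 (.lc 3 10 (.lc 3 0 (.lc 3 9 (.lc 1 7 (.lc 0 0 (.lc 0 9 (.lc 4 10 (.lc 0 0 (.lc 0 10 (.lc 0 0 (.lc 0 9 (.lc 0 0 (.lc 0 9 (.lc 0 0 (.conf [25,152] (.lc 0 0 (.lc 0 10 .stop))))))))))))))))))))))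
 (.node [121,146] 5 6 (.lc 2 0 (.lc 2 9 (.lc 2 10 (.lc 3 0 (.lc 3 9 (.lc 3 10 (.lc 0 0 (.lc 2 8 (.lc 2 8 (.lc 3 9 (.lc 3 10 (.lc 3 0 (.lc 3 10 (.lc 3 0 (.lc 3 9 (.lc 3 11 (.lc 3 0 (.lc 3 9 (.lc 3 10 (.lc 1 7 (.lc 0 0 (.lc 0 9 (.lc 0 10 (.lc 4 9 (.lc 4 10 (.lc 4 0 (.lc 4 10 (.lc 4 0 (.lc 4 9 (.lc 4 11 (.lc 0 0 (.lc 0 10 (.lc 0 0 (.lc 0 9 (.lc 0 11 (.lc 0 0 (.lc 0 9 (.lc 0 10 (.lc 0 0 (.lc 0 9 (.lc 0 10 (.lc 0 0 (.lc 1 2 (.conf [26,168] (.lc 0 0 (.lc 0 10 (.lc 0 0 (.lc 0 9 (.lc 0 11 .stop)))))))))))))))))))))))))))))))))))))))))))))))))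
 (.node [112] 5 6 (.lc 2 9 (.lc 3 9 (.lc 2 8 (.lc 3 10 (.lc 3 9 (.lc 1 7 (.lc 0 0 (.lc 0 9 (.lc 4 10 (.lc 0 10 (.lc 0 9 (.lc 0 0 (.lc 0 9 (.conf [25,152] (.lc 0 10 .stop)))))))))))))))
 (.node [121,146] 5 6 (.lc 2 0 (.lc 2 9 (.lc 2 10 (.lc 3 0 (.lc 3 10 (.lc 0 0 (.lc 2 8 (.lc 3 10 (.lc 3 0 (.lc 3 11 (.lc 3 0 (.lc 3 9 (.lc 3 10 (.lc 1 7 (.lc 0 0 (.lc 0 9 (.lc 0 10 (.lc 4 10 (.lc 4 0 (.lc 4 11 (.lc 0 0 (.lc 0 11 (.lc 0 0 (.lc 0 10 (.lc 0 0 (.lc 0 9 (.lc 0 10 (.lc 0 0 (.conf [26,168] (.lc 0 0 (.lc 0 11 .stop)))))))))))))))))))))))))))))))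
 (.node [112] 5 6 (.lc 2 9 (.lc 3 9 (.lc 2 8 (.lc 3 10 (.lc 3 9 (.lc 1 7 (.lc 0 0 (.lc 0 9 (.lc 4 10 (.lc 0 10 (.lc 0 9 (.lc 0 0 (.lc 0 9 (.conf [25,152] (.lc 0 10 .stop)))))))))))))))
 (.node [121,146] 5 6 (.lc 2 0 (.lc 2 9 (.lc 2 10 (.lc 3 0 (.lc 3 10 (.lc 0 0 (.lc 2 8 (.lc 3 10 (.lc 3 0 (.lc 3 11 (.lc 3 0 (.lc 3 9 (.lc 3 10 (.lc 1 7 (.lc 0 0 (.lc 0 9 (.lc 0 10 (.lc 4 10 (.lc 4 0 (.lc 4 11 (.lc 0 0 (.lc 0 11 (.lc 0 0 (.lc 0 10 (.lc 0 0 (.lc 0 9 (.lc 0 10 (.lc 0 0 (.conf [26,168] (.lc 0 0 (.lc 0 11 .stop)))))))))))))))))))))))))))))))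
 (.node [121,144] 5 6 (.lc 2 9 (.lc 2 10 (.lc 3 10 (.lc 2 8 (.lc 3 11 (.lc 3 9 (.lc 3 10 (.lc 1 7 (.lc 0 0 (.lc 0 9 (.lc 0 10 (.lc 4 11 (.lc 0 0 (.lc 0 11 (.lc 0 10 (.lc 0 0 (.lc 0 9 (.lc 0 10 (.conf [26,168] (.lc 0 0 (.lc 0 11 .stop)))))))))))))))))))))
 (.node [122,169,146] 5 6 (.lc 2 0 (.lc 2 9 (.lc 2 10 (.lc 2 11 (.lc 3 0 (.lc 3 11 (.lc 0 0 (.lc 2 8 (.lc 3 11 (.lc 3 9 (.lc 3 0 (.lc 3 12 (.lc 3 0 (.lc 3 9 (.lc 3 10 (.lc 3 11 (.lc 1 7 (.lc 0 0 (.lc 0 9 (.lc 0 10 (.lc 0 11 (.lc 4 11 (.lc 4 9 (.lc 4 0 (.lc 4 12 (.lc 0 9 (.lc 0 0 (.lc 0 12 (.lc 0 0 (.lc 0 11 (.lc 0 0 (.lc 0 9 (.lc 0 10 (.lc 0 11 (.lc 0 0 (.conf [27,184] (.lc 0 9 (.lc 0 0 (.lc 0 12 .stop)))))))))))))))))))))))))))))))))))))))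
 .stop)))))))))
 (.node [50,103,112,86] 0 3 (.node [] 5 6 (.lc 2 8 (.lc 3 8 (.lc 2 7 (.lc 3 9 (.lc 3 8 (.far [256,16,257,0,1] 4096 (.lc 0 8 (.lc 4 9 (.lc 0 9 (.lc 0 8 (.lc 0 8 (.lc 2 0 (.lc 0 9 .stop)))))))))))))
 .stop)
 (.node [50,96,115,86] 6 0 (.lc 2 1 (.lc 2 8 (.lc 2 7 (.lc 0 8 (.lc 3 8 (.lc 3 9 (.lc 2 7 (.lc 1 0 (.lc 3 7 .stop)))))))))
 (.node [50,104,115,86] 7 3 (.node [114] 5 6 (.lc 2 0 (.lc 2 9 (.lc 3 0 (.lc 3 9 (.lc 0 0 (.lc 2 8 (.lc 3 9 (.lc 3 0 (.lc 3 10 (.lc 3 0 (.lc 3 9 (.conf [24,135] (.lc 0 0 (.lc 0 9 (.lc 4 9 (.lc 4 0 (.lc 4 10 (.lc 0 0 (.lc 0 10 (.lc 0 0 (.lc 0 9 (.lc 0 0 (.lc 0 9 (.lc 0 0 (.lc 2 7 (.lc 0 0 (.lc 0 10 .stop)))))))))))))))))))))))))))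
 (.lc 3 0 (.lc 3 9 (.node [112] 5 6 (.lc 2 9 (.lc 3 9 (.lc 2 8 (.lc 3 10 (.lc 3 9 (.conf [24,135] (.lc 0 0 (.lc 0 9 (.lc 4 10 (.lc 0 10 (.lc 0 9 (.lc 0 0 (.lc 0 9 (.lc 2 7 (.lc 0 10 .stop)))))))))))))))
 (.node [121,146] 5 6 (.lc 2 0 (.lc 2 9 (.lc 2 10 (.lc 3 0 (.lc 3 10 (.lc 0 0 (.lc 2 8 (.lc 3 10 (.lc 3 0 (.lc 3 11 (.lc 3 0 (.lc 3 9 (.lc 3 10 (.conf [24,135] (.lc 0 0 (.lc 0 9 (.lc 0 10 (.lc 4 10 (.lc 4 0 (.lc 4 11 (.lc 0 0 (.lc 0 11 (.lc 0 0 (.lc 0 10 (.lc 0 0 (.lc 0 9 (.lc 0 10 (.lc 0 0 (.lc 2 7 (.lc 0 0 (.lc 0 11 .stop)))))))))))))))))))))))))))))))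
 (.lc 3 0 (.lc 3 9 (.lc 4 9 (.lc 4 10 .stop)))))))))
 (.node [50,67,103,112,86] 0 3 (.far [16,256,16,4096] 0 .stop)
 (.node [50,67,115,86,96] 7 3 (.far [16,256,16,4096] 0 (.lc 3 8 (.far [16,256,16,4096] 0 (.lc 3 8 (.lc 4 9 .stop)))))
 (.node [50,67,104,135,86] 7 3 (.far [16,256,16,4096] 0 (.lc 3 0 (.lc 3 9 (.far [16,256,16,4096] 17 (.far [16,256,16,4096] 0 (.lc 3 0 (.lc 3 9 (.lc 4 9 (.lc 4 10 .stop)))))))))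
 (.node [50,104,135,86,112] 0 3 (.node [] 5 6 (.lc 2 9 (.lc 3 9 (.lc 2 8 (.lc 3 10 (.lc 3 9 (.lc 1 7 (.lc 0 9 (.lc 4 10 (.lc 0 10 (.lc 0 9 (.lc 0 9 (.conf [25,152] (.lc 0 10 .stop)))))))))))))
 .stop)
 (.node [50,104,115,128,86] 7 3 (.node [114] 0 7 .stop
 (.lc 3 9 (.node [121,146] 0 7 .stop
 (.lc 3 9 (.lc 4 10 .stop)))))
 (.node [50,96,115,135,86] 6 0 (.lc 2 1 (.lc 3 9 (.lc 1 0 .stop)))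
 (.node [50,105,115,135,86] 7 3 (.node [114] 5 6 (.lc 2 0 (.lc 2 10 (.lc 3 0 (.lc 3 10 (.lc 0 0 (.lc 2 9 (.lc 3 10 (.lc 3 0 (.lc 3 11 (.lc 3 0 (.lc 3 10 (.lc 1 8 (.lc 0 0 (.lc 0 10 (.lc 4 10 (.lc 4 0 (.lc 4 11 (.lc 0 0 (.lc 0 11 (.lc 0 0 (.lc 0 10 (.lc 0 0 (.lc 0 10 (.lc 0 0 (.conf [26,169] (.lc 0 0 (.lc 0 11 .stop)))))))))))))))))))))))))))
 (.lc 3 0 (.lc 3 10 (.node [112] 5 6 (.lc 2 10 (.lc 3 10 (.lc 2 9 (.lc 3 11 (.lc 3 10 (.lc 1 8 (.lc 0 0 (.lc 0 10 (.lc 4 11 (.lc 0 11 (.lc 0 10 (.lc 0 0 (.lc 0 10 (.conf [26,169] (.lc 0 11 .stop)))))))))))))))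
 (.node [122,162] 5 6 (.lc 2 0 (.lc 2 10 (.lc 2 11 (.lc 3 0 (.lc 3 11 (.lc 0 0 (.lc 2 9 (.lc 3 11 (.lc 3 0 (.lc 3 12 (.lc 3 0 (.lc 3 10 (.lc 3 11 (.lc 1 8 (.lc 0 0 (.lc 0 10 (.lc 0 11 (.lc 4 11 (.lc 4 0 (.lc 4 12 (.lc 0 0 (.lc 0 12 (.lc 0 0 (.lc 0 11 (.lc 0 0 (.lc 0 10 (.lc 0 11 (.lc 0 0 (.conf [27,185] (.lc 0 0 (.lc 0 12 .stop)))))))))))))))))))))))))))))))
 (.lc 3 0 (.lc 3 10 (.lc 4 10 (.lc 4 11 .stop)))))))))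
 .stop)))))))))))))))))))))))))))))))))))))
 (.conf [67,86] (.conf [67,80] (.conf [67,87] (.conf [67,86] (.conf [67,80] (.conf [67,87] (.node [86,96,86,67,50] 0 4 .stop
 (.node [67,100,67,80,50] 5 0 .stop
 (.node [67,100,67,87,50] 5 7 (.lc 2 0 (.lc 2 8 (.lc 3 8 (.lc 3 0 (.lc 3 9 (.lc 0 0 (.conf [24,135] (.lc 3 8 (.lc 3 0 (.lc 3 9 (.lc 3 8 (.lc 3 0 (.lc 3 9 (.lc 0 0 (.lc 2 6 (.lc 0 0 (.lc 0 8 (.lc 4 9 (.lc 4 9 (.lc 4 0 (.lc 4 10 (.lc 0 0 (.lc 0 9 (.lc 0 0 (.lc 0 9 (.lc 0 0 (.lc 0 9 (.lc 0 0 (.lc 3 6 (.lc 0 0 (.lc 0 10 .stop)))))))))))))))))))))))))))))))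
 (.conf [67,86] (.conf [67,80] (.conf [67,87] (.node [67,86,96,50] 0 4 (.node [50,3] 0 3 (.lc 1 2 (.lc 2 2 .stop))
 (.lc 1 2 .stop))
 (.node [67,80,100,50] 5 0 (.lc 0 0 .stop)
 (.node [67,87,100,50] 4 3 (.node [50,99] 5 7 (.conf [23,118] (.lc 0 0 (.node [24,118] 1 8 (.node [135] 8 7 (.lc 1 6 (.lc 1 6 (.lc 1 6 (.lc 3 0 (.node [99,130] 2 6 .stop
 (.conf [137,150] (.lc 2 6 (.lc 2 6 (.lc 2 6 (.lc 2 6 (.lc 2 6 (.lc 2 6 (.lc 2 6 (.lc 2 6 (.lc 1 3 (.lc 1 3 (.lc 1 3 (.lc 3 2 (.lc 0 2 (.lc 3 9 (.lc 2 6 (.lc 1 7 (.lc 2 6 (.lc 2 6 (.lc 2 3 (.lc 2 3 (.lc 2 3 (.lc 2 3 (.lc 2 3 (.lc 3 6 (.lc 3 6 (.lc 3 6 (.lc 3 6 (.lc 4 9 (.lc 2 3 (.lc 4 2 (.lc 4 10 (.lc 2 3 (.lc 2 3 (.lc 2 3 (.lc 2 3 (.lc 2 3 (.lc 2 3 (.lc 3 3 (.lc 3 3 (.lc 3 3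 (.lc 3 3 .stop)))))))))))))))))))))))))))))))))))))))))))))))
 (.lc 1 3 (.lc 2 7 (.node [135,152] 8 7 (.lc 1 6 (.lc 1 6 (.lc 1 6 (.node [99,130] 2 6 .stop
 (.lc 3 1 (.conf [138,166] (.lc 2 6 (.lc 2 6 (.lc 2 6 (.lc 2 6 (.lc 2 6 (.lc 2 6 (.lc 2 6 (.lc 2 6 (.lc 1 3 (.lc 1 3 (.lc 1 3 (.lc 3 2 (.lc 0 2 (.lc 3 10 (.lc 2 6 (.lc 1 7 (.lc 2 6 (.lc 2 6 (.lc 2 3 (.lc 2 3 (.lc 2 3 (.lc 2 3 (.lc 2 3 (.lc 3 6 (.lc 3 6 (.lc 3 6 (.lc 3 6 (.lc 4 10 (.lc 2 3 (.lc 4 2 (.lc 4 11 (.lc 2 3 (.lc 2 3 (.lc 2 3 (.lc 2 3 (.lc 2 3 (.lc 2 3 (.lc 3 3 (.lc 3 3 (.lc 3 3 (.lc 3 3 .stop)))))))))))))))))))))))))))))))))))))))))))))))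
 (.lc 2 7 (.lc 3 7 .stop))))))
 (.lc 0 0 (.conf [24,135] (.lc 0 0 (.conf [24,135] (.lc 0 0 (.conf [25,152] .stop)))))))))
 (.lc 2 2 (.lc 2 2 (.node [50,96] 0 3 .stop
 (.node [50,104] 5 7 (.conf [23,118] (.lc 0 0 (.lc 1 3 (.node [25,118] 1 9 (.node [151] 7 6 (.lc 1 8 (.lc 1 8 (.lc 1 8 (.lc 3 2 (.lc 3 10 (.lc 2 8 (.lc 2 8 (.lc 2 8 (.lc 2 8 (.lc 2 8 (.lc 2 8 (.lc 2 8 (.lc 3 0 (.lc 3 2 (.lc 3 10 (.lc 1 3 (.lc 2 8 (.lc 2 8 (.lc 4 0 (.lc 4 10 (.lc 4 2 (.lc 4 11 (.lc 3 8 (.lc 3 8 (.lc 3 8 (.lc 2 3 (.lc 2 3 (.lc 0 2 (.lc 0 10 (.lc 0 0 (.node [131,146] 2 8 .stop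
 (.conf [154,168] (.lc 0 10 (.lc 0 2 (.lc 0 11 .stop)))))))))))))))))))))))))))))))))))
 (.lc 1 3 (.lc 2 7 (.node [151,169] 7 6 (.lc 1 8 (.lc 1 8 (.lc 1 8 (.lc 3 2 (.lc 3 11 (.lc 2 8 (.lc 2 8 (.lc 2 8 (.lc 2 8 (.lc 2 8 (.lc 2 8 (.lc 3 2 (.lc 3 10 (.lc 3 11 (.lc 1 3 (.lc 2 8 (.lc 2 8 (.lc 4 11 (.lc 4 2 (.lc 4 12 (.lc 3 8 (.lc 3 8 (.lc 3 8 (.lc 2 3 (.lc 2 3 (.lc 0 2 (.lc 0 11 (.node [131,146] 2 8 .stop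
 (.lc 0 1 (.conf [155,184] (.lc 0 11 (.lc 0 2 (.lc 0 12 .stop)))))))))))))))))))))))))))))))))
 (.lc 2 7 (.lc 3 7 .stop))))))
 (.lc 0 0 (.conf [25,151] (.lc 0 0 (.conf [25,151] (.lc 0 0 (.conf [26,169] .stop))))))))))
 (.lc 2 2 (.lc 2 2 (.lc 3 2 (.lc 3 2 (.lc 3 2 .stop))))))))))
 (.conf [67,86] (.conf [67,80] (.conf [67,87] (.conf [67,87] (.conf [67,87] (.conf [67,80] (.conf [67,88] (.conf [67,87] (.conf [67,87] (.conf [67,80] (.conf [67,88] (.node [67,87,118,50,96] 0 4 (.conf [3,50] (.lc 1 2 .stop))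
 (.node [67,87,100,112,50] 5 7 (.conf [23,112] (.lc 2 0 (.conf [24,135] (.lc 2 0 (.lc 3 0 .stop)))))
 (.node [67,80,100,118,50] 5 0 (.lc 0 0 .stop)
 (.node [67,88,100,118,50] 5 8 (.conf [24,135] (.lc 0 0 (.lc 2 7 (.lc 0 0 (.conf [25,152] (.lc 0 0 (.lc 2 7 (.lc 0 0 (.lc 3 7 .stop)))))))))
 (.node [67,87,118,50,96] 0 4 .stop
 (.node [67,87,100,112,50] 5 7 (.conf [23,112] (.lc 2 0 (.conf [24,135] (.lc 2 0 (.lc 3 0 .stop)))))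
 (.node [67,80,100,118,50] 5 0 (.lc 0 0 .stop)
 (.node [67,88,100,135,50] 5 8 (.conf [24,135] (.lc 0 0 (.lc 2 7 (.lc 0 0 (.conf [25,152] (.lc 0 0 (.lc 2 7 (.lc 0 0 (.lc 3 7 .stop)))))))))
 (.node [67,87,118,50,96] 0 4 .stop
 (.node [67,87,100,112,50] 6 4 (.node [50] 0 6 (.lc 1 3 (.lc 2 3 (.far [256,256,0,1] 4096 .stop)))
 (.lc 1 2 (.lc 1 2 (.lc 3 8 (.lc 2 2 .stop)))))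
 (.node [67,80,100,118,50] 5 0 (.lc 0 0 .stop)
 (.node [67,88,100,118,50] 6 4 (.node [50] 5 8 (.conf [24,135] (.lc 0 0 (.node [25,135] 1 9 (.node [152] 9 8 (.lc 1 7 (.lc 1 7 (.lc 1 7 (.lc 3 0 (.node [118,146] 9 2 (.lc 1 7 .stop)
 (.conf [154,167] (.lc 2 7 (.lc 2 7 (.lc 2 7 (.lc 2 7 (.lc 2 7 (.lc 2 7 (.lc 2 7 (.lc 2 7 (.lc 1 6 (.lc 1 6 (.lc 1 6 (.lc 3 2 (.lc 3 10 (.lc 2 7 (.lc 1 8 (.lc 2 7 (.lc 2 7 (.lc 2 6 (.lc 2 6 (.lc 2 6 (.lc 2 6 (.lc 2 6 (.lc 3 7 (.lc 3 7 (.lc 3 7 (.lc 3 7 (.lc 4 10 (.lc 4 2 (.lc 4 11 (.lc 2 6 (.lc 1 7 (.lc 2 6 (.lc 2 6 (.lc 2 6 (.lc 2 6 (.lc 2 6 (.lc 3 6 (.lc 3 6 (.lc 3 6 (.lc 3 6 .stop))))))))))))))))))))))))))))))))))))))))))))))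
 (.lc 1 6 (.lc 2 8 (.node [152,169] 9 8 (.lc 1 7 (.lc 1 7 (.lc 1 7 (.node [118,146] 9 2 .stop
 (.lc 3 1 (.conf [155,183] (.lc 2 7 (.lc 2 7 (.lc 2 7 (.lc 2 7 (.lc 2 7 (.lc 2 7 (.lc 2 7 (.lc 2 7 (.lc 1 6 (.lc 1 6 (.lc 1 6 (.lc 3 2 (.lc 3 11 (.lc 2 7 (.lc 1 8 (.lc 2 7 (.lc 2 7 (.lc 2 6 (.lc 2 6 (.lc 2 6 (.lc 2 6 (.lc 2 6 (.lc 3 7 (.lc 3 7 (.lc 3 7 (.lc 3 7 (.lc 4 11 (.lc 4 2 (.lc 4 12 (.lc 2 6 (.lc 1 7 (.lc 2 6 (.lc 2 6 (.lc 2 6 (.lc 2 6 (.lc 2 6 (.lc 3 6 (.lc 3 6 (.lc 3 6 (.lc 3 6 .stop))))))))))))))))))))))))))))))))))))))))))))))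
 (.lc 2 8 (.lc 3 8 .stop))))))
 (.lc 0 0 (.conf [25,152] (.lc 0 0 (.conf [25,152] (.lc 0 0 (.conf [26,169] .stop)))))))))
 (.lc 1 2 (.lc 1 2 (.lc 1 2 (.lc 1 2 (.lc 3 0 (.lc 3 9 (.lc 2 2 (.lc 2 2 (.lc 2 2 .stop))))))))))
 (.node [67,88,135,50,118,96] 0 4 .stop
 (.node [67,88,100,135,50,112] 5 8 (.conf [24,135] (.lc 2 7 (.conf [25,152] (.lc 2 7 (.lc 3 7 .stop)))))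
 (.node [67,88,100,118,128,50] 5 8 (.conf [24,128] (.lc 2 0 (.conf [25,152] (.lc 2 0 (.lc 3 0 .stop)))))
 (.node [67,80,100,118,135,50] 5 0 (.lc 0 0 .stop)
 (.node [67,89,100,118,135,50] 5 9 (.conf [25,152] (.lc 0 0 (.lc 2 8 (.lc 0 0 (.conf [26,169] (.lc 0 0 (.lc 2 8 (.lc 0 0 (.lc 3 8 .stop)))))))))
 .stop)))))))))))))))))))))))))))))))))))))))))))))

theorem t48 : kNode2 awTt FTt 5 4 (check tyTt awTt triet FTt [] c48) (fun _ _ _ => true) 0 s48 Pl.nil s48 =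
    true := by
  decide +kernel

end Chk
end Pool.Agent.Lib.MP_ba95e8_co
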